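import Pool.Agent.Hmk.Var

/-!
# Hmk, second part (Gaussian free field limit, MP_161523_pr Q2): common definitions

Configuration spaces are `S → ℝ` with `S` a finite set of sites and `c` the values off `S`; the
height function is `gl S c k`.  `S` is either the set `D` of free sites (`c` = boundary data), or a
window `W` (`c = 0`), or a box `B` (`c` = the values outside of the box).
-/

set_option autoImplicit false

open MeasureTheory Set
open scoped ENNReal ContDiff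

noncomputable section

namespace Pool.Agent.Hmk

/-- the uniform law on `K D b` -/
def Mu (D : Finset (ℤ × ℤ)) (b : ℤ × ℤ → ℝ) : Measure (D → ℝ) :=
  ProbabilityTheory.cond volume (K D b)

/-- derivative in the height at the site `z` (zero if `z ∉ S`) -/
def pz (S : Finset (ℤ × ℤ)) (z : ℤ × ℤ) (f : (S → ℝ) → ℝ) (k : S → ℝ) : ℝ :=
  if hz : z ∈ S then pd ⟨z, hz⟩ f k else 0

/-- nice (tangential) fields on all of `D`, zero at the fixed sites -/
structure Nice (D : Finset (ℤ × ℤ)) (b : ℤ × ℤ → ℝ) (w : ℤ × ℤ → (D → ℝ) → ℝ) : Prop where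
  sm : ∀ z, ContDiff ℝ ∞ (w z)
  off : ∀ z, z ∉ D → ∀ h, w z h = 0
  tie : ∃ ε : ℝ, 0 < ε ∧ ∀ z ∈ D, ∀ i : Fin 6, ∀ h : D → ℝ,
    1 - ε < |gl D b h z - gl D b h (z + st i)| → w z h = w (z + st i) h

/-- fields on the box `B` (ties only inside of `B`), functions on the configuration space `S` -/
structure LNice (S : Finset (ℤ × ℤ)) (B : Finset (ℤ × ℤ)) (v : ℤ × ℤ → (S → ℝ) → ℝ) :
    Prop where
  sm : ∀ z, ContDiff ℝ ∞ (v z)
  tie : ∃ ε : ℝ, 0 < ε ∧ ∀ z ∈ B, ∀ i : Fin 6, z + st i ∈ B → ∀ k : S → ℝ,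
    1 - ε < |g0 S k z - g0 S k (z + st i)| → v z k = v (z + st i) k

/-- the sites of `B` whose ball of radius `r` lies in `B` -/
def inn (B : Finset (ℤ × ℤ)) (r : ℕ) : Finset (ℤ × ℤ) := by
  classical exact B.filter (fun x => ∀ z : ℤ × ℤ, dn (z - x) ≤ r → z ∈ B)

/-- `B` together with its neighbours -/
def nb (B : Finset (ℤ × ℤ)) : Finset (ℤ × ℤ) :=
  B ∪ B.biUnion (fun x => Finset.univ.image (fun i : Fin 6 => x + st i))

/-- the rhombus `{0, ..., M-1}^2` -/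
def bx (M : ℕ) : Finset (ℤ × ℤ) := Finset.Ico (0 : ℤ) M ×ˢ Finset.Ico (0 : ℤ) M

/-- translated set -/
def tr (x : ℤ × ℤ) (B : Finset (ℤ × ℤ)) : Finset (ℤ × ℤ) := B.image (fun z => x + z)

/-- up-gate of the edge `(u, v)`: the set `q < 1/2` does not reach the sphere of radius `m` -/
def up (m : ℕ) (u v : ℤ × ℤ) (H : ℤ × ℤ → ℝ) : Prop :=
  ∀ z : ℤ × ℤ, dn (z - u) = m → 1 / 2 ≤ H z - H v - 1 + m

/-- the gate of the edge `(x, x + st i)`: `1` if the up-gate or the down-gate is open -/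
def gt (m : ℕ) (x : ℤ × ℤ) (i : Fin 6) (H : ℤ × ℤ → ℝ) : ℝ := by
  classical exact if up m x (x + st i) H ∨ up m x (x + st i) (fun z => - H z) then 1 else 0

/-- the increments of the linear function with gradient `d` -/
def dc (d : ℝ × ℝ) (i : Fin 6) : ℝ := d.1 * ((st i).1 : ℝ) + d.2 * ((st i).2 : ℝ)

/-- the isotropic quadratic form (energy per site of the linear function) -/
def qd (d : ℝ × ℝ) : ℝ := (1 / 2) * ∑ i, (dc d i) ^ 2

/-- the window of `H` at `x` -/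
def rs (W : Finset (ℤ × ℤ)) (x : ℤ × ℤ) (H : ℤ × ℤ → ℝ) : W → ℝ := fun w => H (x + w.1)

/-- frozen energy on the box `B`: only derivatives in the heights of `B` -/
def en (S B : Finset (ℤ × ℤ)) (v : ℤ × ℤ → (S → ℝ) → ℝ) (k : S → ℝ) : ℝ :=
  ∑ x ∈ B, ∑ y ∈ B, (pz S y (v x) k) ^ 2

/-- gated slope of the field `v` in the direction `i` -/
def sx (S : Finset (ℤ × ℤ)) (c : ℤ × ℤ → ℝ) (B : Finset (ℤ × ℤ)) (m : ℕ)
    (v : ℤ × ℤ → (S → ℝ) → ℝ) (i : Fin 6) (k : S → ℝ) : ℝ :=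
  ∑ x ∈ inn B (m + 2), gt m x i (gl S c k) * (v (x + st i) k - v x k)

/-- the frozen functional -/
def Jf (S : Finset (ℤ × ℤ)) (c : ℤ × ℤ → ℝ) (B : Finset (ℤ × ℤ)) (m : ℕ) (d : ℝ × ℝ)
    (v : ℤ × ℤ → (S → ℝ) → ℝ) (k : S → ℝ) : ℝ :=
  ∑ i, dc d i * sx S c B m v i k - en S B v k

/-- the frozen functional on the fibre with outside values `β` -/
def Jt (B : Finset (ℤ × ℤ)) (m : ℕ) (d : ℝ × ℝ) (v : ℤ × ℤ → (B → ℝ) → ℝ) (β : ℤ × ℤ → ℝ) : ℝ :=
  ∫ a in K B β, Jf B β B m d v a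

/-- its supremum over the nice fields of the fibre -/
def Tt (B : Finset (ℤ × ℤ)) (m : ℕ) (d : ℝ × ℝ) (β : ℤ × ℤ → ℝ) : ℝ :=
  ⨆ v : {v : ℤ × ℤ → (B → ℝ) → ℝ // LNice B B v}, Jt B m d v.1 β

/-- the normalised supremum -/
def Th (B : Finset (ℤ × ℤ)) (m : ℕ) (d : ℝ × ℝ) (β : ℤ × ℤ → ℝ) : ℝ :=
  Tt B m d β / (Z B β).toReal

/-- functions of a window which do not change when a constant is added to all heights -/
def Shf (W : Finset (ℤ × ℤ)) (g : (W → ℝ) → ℝ) : Prop :=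
  ∀ (k : W → ℝ) (t : ℝ), g (fun w => k w + t) = g k

/-- universal local fields: smooth with all first derivatives bounded, bounded, shift invariant,
nice in `B`; functions on the window `nb B` -/
structure UF (B : Finset (ℤ × ℤ)) (v : ℤ × ℤ → (nb B → ℝ) → ℝ) : Prop where
  nice : LNice (nb B) B v
  shf : ∀ z, Shf (nb B) (v z)
  bdd : ∃ C : ℝ, ∀ z k, |v z k| ≤ C
  dbdd : ∃ C : ℝ, ∀ z y k, |pz (nb B) y (v z) k| ≤ C

/-- the field `v` (a function of the window `W`) placed at `y` -/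
def pl (S : Finset (ℤ × ℤ)) (c : ℤ × ℤ → ℝ) (W : Finset (ℤ × ℤ)) (y : ℤ × ℤ)
    (v : ℤ × ℤ → (W → ℝ) → ℝ) (z : ℤ × ℤ) (k : S → ℝ) : ℝ :=
  v (z - y) (rs W y (gl S c k))

/-- discrete Laplacian (minus sign convention: positive operator) -/
def Lap (G : ℤ × ℤ → ℝ) (x : ℤ × ℤ) : ℝ := ∑ i, (G x - G (x + st i))

/-- the linear functional with coefficients `-Δ G` -/
def FG (D : Finset (ℤ × ℤ)) (b : ℤ × ℤ → ℝ) (G : ℤ × ℤ → ℝ) (h : D → ℝ) : ℝ :=
  ∑ x ∈ D, Lap G x * gl D b h x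

/-- discrete Dirichlet energy (every edge once) -/
def EG (D : Finset (ℤ × ℤ)) (G : ℤ × ℤ → ℝ) : ℝ :=
  (1 / 2) * ∑ x ∈ D, ∑ i, (G (x + st i) - G x) ^ 2

/-- sampling of a function on the plane (lattice coordinates) -/
def Gn (g : ℝ × ℝ → ℝ) (N : ℕ) (x : ℤ × ℤ) : ℝ := g ((x.1 : ℝ) / N, (x.2 : ℝ) / N)

end Pool.Agent.Hmk
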