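import Pool.Agent.Hmk.Zf

/-!
# Hmk: lattice geometry, the function `qf`
-/

set_option autoImplicit false

open MeasureTheory Set
open scoped ENNReal

noncomputable section

namespace Pool.Agent.Hmk

/-- cells of the sector number `j` with apex `u` -/
def cl (u : ℤ × ℤ) (j : Fin 6) (c : ℕ × ℕ) : ℤ × ℤ :=
  u + ((c.1 : ℤ) + 1) • st j + (c.2 : ℤ) • st (j + 1)

/- MODULE ga
Integer geometry: case distinction over `Fin 6`, `max` and `|·|` unfolded, `omega`. -/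
private theorem dn_mk (p q : ℤ) :
    dn (p, q) = max (max p (-p)) (max (max q (-q)) (max (p + q) (-(p + q)))) := by
  simp only [dn, abs_eq_max_neg]

private theorem ga_st (i : Fin 6) : st i = (1, 0) ∨ st i = (0, 1) ∨ st i = (-1, 1) ∨
    st i = (-1, 0) ∨ st i = (0, -1) ∨ st i = (1, -1) := by
  fin_cases i <;> simp [st]

private theorem ga_pair (j : Fin 6) :
    (st j = (1, 0) ∧ st (j + 1) = (0, 1)) ∨ (st j = (0, 1) ∧ st (j + 1) = (-1, 1)) ∨
    (st j = (-1, 1) ∧ st (j + 1) = (-1, 0)) ∨ (st j = (-1, 0) ∧ st (j + 1) = (0, -1)) ∨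
    (st j = (0, -1) ∧ st (j + 1) = (1, -1)) ∨ (st j = (1, -1) ∧ st (j + 1) = (1, 0)) := by
  fin_cases j
  · exact Or.inl ⟨rfl, rfl⟩
  · exact Or.inr (Or.inl ⟨rfl, rfl⟩)
  · exact Or.inr (Or.inr (Or.inl ⟨rfl, rfl⟩))
  · exact Or.inr (Or.inr (Or.inr (Or.inl ⟨rfl, rfl⟩)))
  · exact Or.inr (Or.inr (Or.inr (Or.inr (Or.inl ⟨rfl, rfl⟩))))
  · exact Or.inr (Or.inr (Or.inr (Or.inr (Or.inr ⟨rfl, rfl⟩))))

theorem dn_zero_iff (z : ℤ × ℤ) : dn z = 0 ↔ z = 0 := by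
  obtain ⟨p, q⟩ := z
  rw [dn_mk]
  constructor
  · intro h
    have h1 : p = 0 := by omega
    have h2 : q = 0 := by omega
    rw [h1, h2]
    rfl
  · intro h
    have h1 : p = 0 := congrArg Prod.fst h
    have h2 : q = 0 := congrArg Prod.snd h
    omega

theorem dn_nonneg (z : ℤ × ℤ) : 0 ≤ dn z := by
  obtain ⟨p, q⟩ := z
  rw [dn_mk]
  omega

theorem dn_neg (z : ℤ × ℤ) : dn (-z) = dn z := by
  obtain ⟨p, q⟩ := z
  rw [show -(p, q) = ((-p, -q) : ℤ × ℤ) from rfl, dn_mk, dn_mk]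
  omega

theorem dn_one_iff (z : ℤ × ℤ) : dn z = 1 ↔ ∃ i, z = st i := by
  obtain ⟨p, q⟩ := z
  constructor
  · intro h
    rw [dn_mk] at h
    have h6 : (p = 1 ∧ q = 0) ∨ (p = 0 ∧ q = 1) ∨ (p = -1 ∧ q = 1) ∨ (p = -1 ∧ q = 0) ∨
        (p = 0 ∧ q = -1) ∨ (p = 1 ∧ q = -1) := by omega
    rcases h6 with h | h | h | h | h | h
    · exact ⟨0, by rw [h.1, h.2]; rfl⟩
    · exact ⟨1, by rw [h.1, h.2]; rfl⟩
    · exact ⟨2, by rw [h.1, h.2]; rfl⟩
    · exact ⟨3, by rw [h.1, h.2]; rfl⟩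
    · exact ⟨4, by rw [h.1, h.2]; rfl⟩
    · exact ⟨5, by rw [h.1, h.2]; rfl⟩
  · rintro ⟨i, hi⟩
    rw [hi]
    rcases ga_st i with h | h | h | h | h | h <;> rw [h, dn_mk] <;> omega

theorem dn_add_le (y z : ℤ × ℤ) : dn (y + z) ≤ dn y + dn z := by
  obtain ⟨p, q⟩ := z
  obtain ⟨r, s⟩ := y
  rw [Prod.mk_add_mk, dn_mk, dn_mk, dn_mk]
  omega

theorem dn_step (z : ℤ × ℤ) (i : Fin 6) : |dn (z + st i) - dn z| ≤ 1 := by
  obtain ⟨p, q⟩ := z
  rw [abs_le]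
  rcases ga_st i with h | h | h | h | h | h <;> rw [h, Prod.mk_add_mk, dn_mk, dn_mk] <;> omega

private theorem ga_cl0 (j : Fin 6) (a b : ℤ) (ha : 0 ≤ a) (hb : 0 ≤ b) :
    dn (a • st j + b • st (j + 1)) = a + b := by
  rcases ga_pair j with h | h | h | h | h | h <;> rw [h.1, h.2] <;>
    simp only [Prod.smul_mk, Prod.mk_add_mk, smul_eq_mul, dn_mk, mul_one, mul_zero, mul_neg,
      add_zero, zero_add] <;> omega

theorem dn_cl (u : ℤ × ℤ) (j : Fin 6) (c : ℕ × ℕ) : dn (cl u j c - u) = c.1 + 1 + c.2 := by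
  have h : cl u j c - u = ((c.1 : ℤ) + 1) • st j + (c.2 : ℤ) • st (j + 1) := by
    rw [cl]
    abel
  rw [h, ga_cl0 j _ _ (by omega) (by omega)]

private theorem ga_lin (j : Fin 6) (a b a' b' : ℤ)
    (h : a • st j + b • st (j + 1) = a' • st j + b' • st (j + 1)) : a = a' ∧ b = b' := by
  rcases ga_pair j with g | g | g | g | g | g <;> rw [g.1, g.2] at h <;>
    simp only [Prod.smul_mk, Prod.mk_add_mk, smul_eq_mul, mul_one, mul_zero, mul_neg,
      add_zero, zero_add, Prod.mk.injEq] at h <;> omega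

theorem cl_inj (u : ℤ × ℤ) (j : Fin 6) : Function.Injective (cl u j) := by
  intro c c' h
  rw [cl, cl, add_assoc, add_assoc] at h
  have h1 := ga_lin j _ _ _ _ (add_left_cancel h)
  exact Prod.ext (by omega) (by omega)

theorem cl_surj {u x : ℤ × ℤ} (hx : x ≠ u) : ∃ j c, x = cl u j c := by
  obtain ⟨p, q⟩ := x
  obtain ⟨r, s⟩ := u
  have h0 : ¬ (p = r ∧ q = s) := by
    rintro ⟨h1, h2⟩
    exact hx (by rw [h1, h2])
  have h6 : (1 ≤ p - r ∧ 0 ≤ q - s) ∨ (p - r ≤ 0 ∧ 1 ≤ (p - r) + (q - s)) ∨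
      (1 ≤ q - s ∧ (p - r) + (q - s) ≤ 0) ∨ (p - r ≤ -1 ∧ q - s ≤ 0) ∨
      (0 ≤ p - r ∧ (p - r) + (q - s) ≤ -1) ∨ (q - s ≤ -1 ∧ 0 ≤ (p - r) + (q - s)) := by
    omega
  rcases h6 with h | h | h | h | h | h
  · refine ⟨0, ((p - r - 1).toNat, (q - s).toNat), ?_⟩
    rw [cl, show st 0 = (1, 0) from rfl, show st (0 + 1) = (0, 1) from rfl]
    simp only [Prod.smul_mk, Prod.mk_add_mk, smul_eq_mul, mul_one, mul_zero, mul_neg,
      add_zero, Prod.mk.injEq]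
    omega
  · refine ⟨1, ((p - r + (q - s) - 1).toNat, (r - p).toNat), ?_⟩
    rw [cl, show st 1 = (0, 1) from rfl, show st (1 + 1) = (-1, 1) from rfl]
    simp only [Prod.smul_mk, Prod.mk_add_mk, smul_eq_mul, mul_one, mul_zero, mul_neg,
      add_zero, Prod.mk.injEq]
    omega
  · refine ⟨2, ((q - s - 1).toNat, (r - p - (q - s)).toNat), ?_⟩
    rw [cl, show st 2 = (-1, 1) from rfl, show st (2 + 1) = (-1, 0) from rfl]
    simp only [Prod.smul_mk, Prod.mk_add_mk, smul_eq_mul, mul_one, mul_zero, mul_neg,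
      add_zero, Prod.mk.injEq]
    omega
  · refine ⟨3, ((r - p - 1).toNat, (s - q).toNat), ?_⟩
    rw [cl, show st 3 = (-1, 0) from rfl, show st (3 + 1) = (0, -1) from rfl]
    simp only [Prod.smul_mk, Prod.mk_add_mk, smul_eq_mul, mul_one, mul_zero, mul_neg,
      add_zero, Prod.mk.injEq]
    omega
  · refine ⟨4, ((r - p + (s - q) - 1).toNat, (p - r).toNat), ?_⟩
    rw [cl, show st 4 = (0, -1) from rfl, show st (4 + 1) = (1, -1) from rfl]
    simp only [Prod.smul_mk, Prod.mk_add_mk, smul_eq_mul, mul_one, mul_zero, mul_neg,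
      add_zero, Prod.mk.injEq]
    omega
  · refine ⟨5, ((s - q - 1).toNat, (p - r + (q - s)).toNat), ?_⟩
    rw [cl, show st 5 = (1, -1) from rfl, show st (5 + 1) = (1, 0) from rfl]
    simp only [Prod.smul_mk, Prod.mk_add_mk, smul_eq_mul, mul_one, mul_zero, mul_neg,
      add_zero, Prod.mk.injEq]
    omega

theorem cl_corner (u : ℤ × ℤ) (j : Fin 6) : cl u j (0, 0) = u + st j := by
  simp [cl]

/-- every point at distance `n + 1` has a neighbour at distance `n` -/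
theorem dn_pred (z : ℤ × ℤ) (hz : z ≠ 0) : ∃ i, dn (z + st i) = dn z - 1 := by
  obtain ⟨j, c, h⟩ := cl_surj hz
  have h1 : z = ((c.1 : ℤ) + 1) • st j + (c.2 : ℤ) • st (j + 1) := by
    rw [h, cl, zero_add]
  have hz1 : dn z = (c.1 : ℤ) + 1 + c.2 := by
    rw [h1, ga_cl0 j _ _ (by omega) (by omega)]
  have h3 : st (j + 3) = - st j := by
    fin_cases j <;> rfl
  refine ⟨j + 3, ?_⟩
  have h2 : z + st (j + 3) = (c.1 : ℤ) • st j + (c.2 : ℤ) • st (j + 1) := by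
    rw [h3, h1]
    module
  rw [h2, ga_cl0 j _ _ (by omega) (by omega), hz1]
  omega
/- END ga -/

/- MODULE gb
The height function is `1`-Lipschitz on the whole lattice: an edge with an end in `D` by `K_edge`,
an edge between two fixed sites because `|b| ≤ 1/2`; then induction on the distance
(`dn_pred`). -/
theorem gl_edge {D : Finset (ℤ × ℤ)} {b : ℤ × ℤ → ℝ} (hb : ∀ z, |b z| ≤ 1 / 2) {h : D → ℝ}
    (hh : h ∈ K D b) (x : ℤ × ℤ) (i : Fin 6) :
    |gl D b h x - gl D b h (x + st i)| ≤ 1 := by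
  by_cases h1 : x ∈ D ∨ x + st i ∈ D
  · exact K_edge hh h1
  · push Not at h1
    rw [gl_not_mem h1.1, gl_not_mem h1.2]
    have h2 := abs_le.1 (hb x)
    have h3 := abs_le.1 (hb (x + st i))
    exact abs_le.2 ⟨by linarith [h2.1, h3.2], by linarith [h2.2, h3.1]⟩

private theorem gb_aux {D : Finset (ℤ × ℤ)} {b : ℤ × ℤ → ℝ} (hb : ∀ z, |b z| ≤ 1 / 2) {h : D → ℝ}
    (hh : h ∈ K D b) (y : ℤ × ℤ) (n : ℕ) :
    ∀ x : ℤ × ℤ, dn (x - y) ≤ n → |gl D b h x - gl D b h y| ≤ dn (x - y) := by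
  induction n with
  | zero =>
    intro x hx
    have h0 : dn (x - y) = 0 := le_antisymm (by simpa using hx) (dn_nonneg _)
    have h1 : x = y := sub_eq_zero.1 ((dn_zero_iff _).1 h0)
    rw [h0, h1]
    simp
  | succ n ih =>
    intro x hx
    by_cases hz : x - y = 0
    · rw [(dn_zero_iff _).2 hz, sub_eq_zero.1 hz]
      simp
    · obtain ⟨i, hi⟩ := dn_pred (x - y) hz
      have h1 : x - y + st i = x + st i - y := by abel
      rw [h1] at hi
      have h2 := ih (x + st i) (by rw [hi]; push_cast at hx; linarith)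
      have h3 := gl_edge hb hh x i
      rw [hi] at h2
      push_cast at h2
      have h4 := abs_sub_le (gl D b h x) (gl D b h (x + st i)) (gl D b h y)
      linarith

theorem gl_lip {D : Finset (ℤ × ℤ)} {b : ℤ × ℤ → ℝ} (hb : ∀ z, |b z| ≤ 1 / 2) {h : D → ℝ}
    (hh : h ∈ K D b) (x y : ℤ × ℤ) : |gl D b h x - gl D b h y| ≤ dn (x - y) := by
  refine gb_aux hb hh y (dn (x - y)).toNat x ?_
  rw [Int.toNat_of_nonneg (dn_nonneg _)]
/- END gb -/

/- MODULE gc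
Elementary properties of `qf`.  `qf_edge`: along an edge `q` changes by
`(H y - H x) + (d y - d x)`, `|H y - H x| ≤ 1`. -/
private theorem gc_st1 (i : Fin 6) : dn (st i) = 1 := (dn_one_iff (st i)).2 ⟨i, rfl⟩

theorem qf_v {D : Finset (ℤ × ℤ)} {b : ℤ × ℤ → ℝ} {u v : ℤ × ℤ} (hv : ∃ i, v = u + st i)
    (h : D → ℝ) : qf D b u v h v = 0 := by
  obtain ⟨i, hi⟩ := hv
  have h1 : dn (v - u) = 1 := by
    rw [hi, add_sub_cancel_left]
    exact gc_st1 i
  rw [qf, h1]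
  push_cast
  ring

theorem qf_u {D : Finset (ℤ × ℤ)} {b : ℤ × ℤ → ℝ} (hb : ∀ z, |b z| ≤ 1 / 2) {u v : ℤ × ℤ}
    (hv : ∃ i, v = u + st i) {h : D → ℝ} (hh : h ∈ K D b) :
    -2 ≤ qf D b u v h u ∧ qf D b u v h u ≤ 0 := by
  obtain ⟨i, hi⟩ := hv
  have h1 : dn (u - u) = 0 := (dn_zero_iff _).2 (sub_self u)
  have h2 := gl_edge hb hh u i
  rw [← hi, abs_le] at h2
  rw [qf, h1]
  push_cast
  constructor <;> linarith [h2.1, h2.2]

theorem qf_ge {D : Finset (ℤ × ℤ)} {b : ℤ × ℤ → ℝ} (hb : ∀ z, |b z| ≤ 1 / 2) {u v : ℤ × ℤ}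
    (hv : ∃ i, v = u + st i) {h : D → ℝ} (hh : h ∈ K D b) (x : ℤ × ℤ) :
    -2 ≤ qf D b u v h x := by
  obtain ⟨i, hi⟩ := hv
  have h2 := gl_lip hb hh x v
  rw [abs_le] at h2
  have h3 : dn (x - v) ≤ dn (x - u) + 1 := by
    have h4 := dn_add_le (x - u) (-(st i))
    rw [dn_neg, gc_st1] at h4
    have h5 : x - u + -(st i) = x - v := by
      rw [hi]
      abel
    rw [h5] at h4
    exact h4
  have h6 : (dn (x - v) : ℝ) ≤ dn (x - u) + 1 := by
    exact_mod_cast h3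
  rw [qf]
  linarith [h2.1]

/-- outward edges: `0 ≤ q y - q x ≤ 2` -/
theorem qf_out {D : Finset (ℤ × ℤ)} {b : ℤ × ℤ → ℝ} (hb : ∀ z, |b z| ≤ 1 / 2) {u v : ℤ × ℤ}
    {h : D → ℝ} (hh : h ∈ K D b) {x : ℤ × ℤ} {i : Fin 6}
    (hx : dn (x + st i - u) = dn (x - u) + 1) :
    0 ≤ qf D b u v h (x + st i) - qf D b u v h x ∧
      qf D b u v h (x + st i) - qf D b u v h x ≤ 2 := by
  have h2 := gl_edge hb hh x i
  rw [abs_le] at h2
  rw [qf, qf, hx]
  push_cast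
  constructor <;> linarith [h2.1, h2.2]

/-- lateral edges: `|q y - q x| ≤ 1` -/
theorem qf_lat {D : Finset (ℤ × ℤ)} {b : ℤ × ℤ → ℝ} (hb : ∀ z, |b z| ≤ 1 / 2) {u v : ℤ × ℤ}
    {h : D → ℝ} (hh : h ∈ K D b) {x : ℤ × ℤ} {i : Fin 6}
    (hx : dn (x + st i - u) = dn (x - u)) :
    |qf D b u v h (x + st i) - qf D b u v h x| ≤ 1 := by
  have h2 := gl_edge hb hh x i
  rw [abs_le] at h2
  rw [qf, qf, hx, abs_le]
  constructor <;> linarith [h2.1, h2.2]

private theorem gc_m1 {D : Finset (ℤ × ℤ)} {b : ℤ × ℤ → ℝ} (hb : ∀ z, |b z| ≤ 1 / 2)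
    {u v : ℤ × ℤ} {h : D → ℝ} (hh : h ∈ K D b) (j : Fin 6) (p q k : ℕ) :
    qf D b u v h (cl u j (p, q)) ≤ qf D b u v h (cl u j (p + k, q)) := by
  induction k with
  | zero => exact le_refl _
  | succ k ih =>
    have h1 : cl u j (p + (k + 1), q) = cl u j (p + k, q) + st j := by
      simp only [cl]
      push_cast
      module
    have h2 : dn (cl u j (p + k, q) + st j - u) = dn (cl u j (p + k, q) - u) + 1 := by
      rw [← h1, dn_cl, dn_cl]
      push_cast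
      ring
    have h3 := (qf_out (v := v) hb hh h2).1
    rw [← h1] at h3
    linarith

private theorem gc_m2 {D : Finset (ℤ × ℤ)} {b : ℤ × ℤ → ℝ} (hb : ∀ z, |b z| ≤ 1 / 2)
    {u v : ℤ × ℤ} {h : D → ℝ} (hh : h ∈ K D b) (j : Fin 6) (p q k : ℕ) :
    qf D b u v h (cl u j (p, q)) ≤ qf D b u v h (cl u j (p, q + k)) := by
  induction k with
  | zero => exact le_refl _
  | succ k ih =>
    have h1 : cl u j (p, q + (k + 1)) = cl u j (p, q + k) + st (j + 1) := by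
      simp only [cl]
      push_cast
      module
    have h2 : dn (cl u j (p, q + k) + st (j + 1) - u) = dn (cl u j (p, q + k) - u) + 1 := by
      rw [← h1, dn_cl, dn_cl]
      push_cast
      ring
    have h3 := (qf_out (v := v) hb hh h2).1
    rw [← h1] at h3
    linarith

/-- monotone along the cells of a sector -/
theorem qf_mono {D : Finset (ℤ × ℤ)} {b : ℤ × ℤ → ℝ} (hb : ∀ z, |b z| ≤ 1 / 2) {u v : ℤ × ℤ}
    {h : D → ℝ} (hh : h ∈ K D b) (j : Fin 6) {c c' : ℕ × ℕ} (hc : c ≤ c') :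
    qf D b u v h (cl u j c) ≤ qf D b u v h (cl u j c') := by
  obtain ⟨p, q⟩ := c
  obtain ⟨p', q'⟩ := c'
  obtain ⟨h1, h2⟩ := hc
  obtain ⟨k, hk⟩ := Nat.exists_eq_add_of_le (show p ≤ p' from h1)
  obtain ⟨l, hl⟩ := Nat.exists_eq_add_of_le (show q ≤ q' from h2)
  subst hk
  subst hl
  exact (gc_m1 hb hh j p q k).trans (gc_m2 hb hh j (p + k) q l)

/-- fixed sites at distance at least two are not affected -/
theorem qf_fix2 {D : Finset (ℤ × ℤ)} {b : ℤ × ℤ → ℝ} (hb : ∀ z, |b z| ≤ 1 / 2) {u v : ℤ × ℤ}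
    {h : D → ℝ} (hh : h ∈ Reg D b v) {z : ℤ × ℤ} (hz : z ∉ D) (hd : 2 ≤ dn (z - u)) :
    1 / 2 ≤ qf D b u v h z := by
  have h1 : gl D b h z = b z := gl_not_mem hz
  have h2 := hb z
  rw [abs_le] at h2
  have h3 : gl D b h v ≤ 0 := hh.2
  have h4 : (2 : ℝ) ≤ dn (z - u) := by
    exact_mod_cast hd
  rw [qf, h1]
  linarith [h2.1]

/-- fixed neighbours of `u` have `0 ≤ q` -/
theorem qf_fix1 {D : Finset (ℤ × ℤ)} {b : ℤ × ℤ → ℝ} {u v : ℤ × ℤ} (hg : Good D b u v)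
    {h : D → ℝ} {i : Fin 6} (hz : u + st i ∉ D) : 0 ≤ qf D b u v h (u + st i) := by
  obtain ⟨h1, h2⟩ := hg.fx i hz
  have h3 : dn (u + st i - u) = 1 := by
    rw [add_sub_cancel_left]
    exact gc_st1 i
  rw [qf, gl_not_mem hz, gl_not_mem h1, h3]
  push_cast
  linarith
/- END gc -/

end Pool.Agent.Hmk
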