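import Pool.Agent.Hmk.Defs

/-!
# Hmk: volumes of monotone functions on Young diagrams, and counting Young diagrams

No lattice here.  `Mo Λ α w`: functions on the finite set `Λ` of cells with values in `[α, α + w)`,
monotone for the product order of `ℕ × ℕ`.
-/

set_option autoImplicit false

open MeasureTheory Set
open scoped ENNReal Nat

noncomputable section

namespace Pool.Agent.Hmk

/-- monotone fillings of `Λ` with values in `[α, α + w)` -/
def Mo (Λ : Finset (ℕ × ℕ)) (α w : ℝ) : Set (Λ → ℝ) :=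
  {f | (∀ c, α ≤ f c ∧ f c < α + w) ∧ ∀ c c' : Λ, c.1 ≤ c'.1 → f c ≤ f c'}

/- MODULE ya
The volume of the monotone functions `Fin n → [α, α + w)` is at most `w ^ n / n!`.  Induction on `n`
(generalise `w`): integrate over the largest coordinate `x = f (Fin.last n)`, the other ones lie in
`[α, x]`, a null set away from `[α, x)`; `∫_0^w x^n / n! dx = w^(n+1)/(n+1)!`.  (Or state it with
closed intervals `Icc α (α + w)`, which is the same.) -/
private theorem ya_meas (n : ℕ) (α w : ℝ) :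
    MeasurableSet {f : Fin n → ℝ | (∀ i, α ≤ f i ∧ f i ≤ α + w) ∧ Monotone f} := by
  have h : {f : Fin n → ℝ | (∀ i, α ≤ f i ∧ f i ≤ α + w) ∧ Monotone f} =
      (⋂ i, ({f : Fin n → ℝ | α ≤ f i} ∩ {f | f i ≤ α + w})) ∩
        ⋂ i, ⋂ j, ⋂ (_ : i ≤ j), {f : Fin n → ℝ | f i ≤ f j} := by
    ext f
    simp only [Set.mem_inter_iff, Set.mem_iInter]
    constructor
    · rintro ⟨h1, h2⟩
      exact ⟨fun i => h1 i, fun i j hij => h2 hij⟩
    · rintro ⟨h1, h2⟩
      exact ⟨fun i => h1 i, fun i j hij => h2 i j hij⟩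
  rw [h]
  refine MeasurableSet.inter (MeasurableSet.iInter fun i => ?_)
    (MeasurableSet.iInter fun i => MeasurableSet.iInter fun j => MeasurableSet.iInter fun _ => ?_)
  · exact (measurableSet_le measurable_const (measurable_pi_apply i)).inter
      (measurableSet_le (measurable_pi_apply i) measurable_const)
  · exact measurableSet_le (measurable_pi_apply i) (measurable_pi_apply j)

private theorem ya_int (n : ℕ) (α : ℝ) {w : ℝ} (hw : 0 ≤ w) :
    ∫⁻ x in Icc α (α + w), ENNReal.ofReal ((x - α) ^ n / n !) =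
      ENNReal.ofReal (w ^ (n + 1) / (n + 1)!) := by
  have hle : α ≤ α + w := by linarith
  have hc : Continuous (fun x : ℝ => (x - α) ^ n / n !) := by fun_prop
  rw [← ofReal_integral_eq_lintegral_ofReal (hc.continuousOn.integrableOn_Icc)]
  · congr 1
    rw [integral_Icc_eq_integral_Ioc, ← intervalIntegral.integral_of_le hle,
      intervalIntegral.integral_div, intervalIntegral.integral_comp_sub_right (fun x => x ^ n) α,
      integral_pow, sub_self, add_sub_cancel_left, Nat.factorial_succ]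
    push_cast
    have h1 : (n ! : ℝ) ≠ 0 := by exact_mod_cast Nat.factorial_ne_zero n
    have h2 : ((n : ℝ) + 1) ≠ 0 := by positivity
    field_simp
    rw [zero_pow (by omega)]
    ring
  · rw [Filter.EventuallyLE, ae_restrict_iff' measurableSet_Icc]
    refine Filter.Eventually.of_forall fun x hx => ?_
    have : 0 ≤ x - α := sub_nonneg.2 hx.1
    show (0 : ℝ) ≤ (x - α) ^ n / (n ! : ℝ)
    positivity

private theorem ya_aux (α : ℝ) : ∀ (n : ℕ) (w : ℝ), 0 ≤ w →
    volume {f : Fin n → ℝ | (∀ i, α ≤ f i ∧ f i ≤ α + w) ∧ Monotone f} ≤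
      ENNReal.ofReal (w ^ n / n !) := by
  intro n
  induction n with
  | zero =>
    intro w _
    refine (measure_mono (Set.subset_univ _)).trans (le_of_eq ?_)
    rw [← Set.pi_univ (Set.univ : Set (Fin 0)), volume_pi_pi]
    simp
  | succ n ih =>
    intro w hw
    have hmp := (volume_preserving_piFinSuccAbove (fun _ : Fin (n + 1) => ℝ) (Fin.last n)).symm
    have hS := ya_meas (n + 1) α w
    rw [← hmp.measure_preimage_equiv]
    have hS' : MeasurableSet ((MeasurableEquiv.piFinSuccAbove (fun _ : Fin (n + 1) => ℝ)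
        (Fin.last n)).symm ⁻¹'
        {f : Fin (n + 1) → ℝ | (∀ i, α ≤ f i ∧ f i ≤ α + w) ∧ Monotone f}) :=
      (MeasurableEquiv.measurable _) hS
    rw [show (volume : Measure (ℝ × (Fin n → ℝ))) = (volume : Measure ℝ).prod volume from rfl,
      Measure.prod_apply hS', ← ya_int n α hw, ← lintegral_indicator measurableSet_Icc]
    refine lintegral_mono fun x => ?_
    by_cases hx : x ∈ Icc α (α + w)
    · rw [Set.indicator_of_mem hx]
      refine le_trans (measure_mono ?_) (ih (x - α) (sub_nonneg.2 hx.1))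
      rintro g ⟨h1, h2⟩
      have hg : ∀ i : Fin n, g i = (MeasurableEquiv.piFinSuccAbove (fun _ : Fin (n + 1) => ℝ)
          (Fin.last n)).symm (x, g) ((Fin.last n).succAbove i) := by
        intro i
        exact (Fin.insertNth_apply_succAbove (α := fun _ => ℝ) (Fin.last n) x g i).symm
      have hl : x = (MeasurableEquiv.piFinSuccAbove (fun _ : Fin (n + 1) => ℝ)
          (Fin.last n)).symm (x, g) (Fin.last n) := by
        exact (Fin.insertNth_apply_same (α := fun _ => ℝ) (Fin.last n) x g).symm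
      refine ⟨fun i => ⟨?_, ?_⟩, fun i j hij => ?_⟩
      · rw [hg i]
        exact (h1 _).1
      · rw [add_sub_cancel]
        conv_rhs => rw [hl]
        rw [hg i]
        exact h2 (Fin.le_last _)
      · rw [hg i, hg j]
        exact h2 ((Fin.strictMono_succAbove _).monotone hij)
    · rw [Set.indicator_of_notMem hx, nonpos_iff_eq_zero]
      have : Prod.mk x ⁻¹' ((MeasurableEquiv.piFinSuccAbove (fun _ : Fin (n + 1) => ℝ)
        (Fin.last n)).symm ⁻¹'
        {f : Fin (n + 1) → ℝ | (∀ i, α ≤ f i ∧ f i ≤ α + w) ∧ Monotone f}) = ∅ := by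
        rw [Set.eq_empty_iff_forall_notMem]
        rintro g ⟨h1, h2⟩
        have hl : x = (MeasurableEquiv.piFinSuccAbove (fun _ : Fin (n + 1) => ℝ)
            (Fin.last n)).symm (x, g) (Fin.last n) := by
          exact (Fin.insertNth_apply_same (α := fun _ => ℝ) (Fin.last n) x g).symm
        have := h1 (Fin.last n)
        rw [← hl] at this
        exact hx this
      rw [this, measure_empty]

theorem mono_vol (n : ℕ) (α : ℝ) {w : ℝ} (hw : 0 ≤ w) :
    volume {f : Fin n → ℝ | (∀ i, α ≤ f i ∧ f i < α + w) ∧ Monotone f} ≤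
      ENNReal.ofReal (w ^ n / n !) := by
  refine (measure_mono ?_).trans (ya_aux α n w hw)
  rintro f ⟨h1, h2⟩
  exact ⟨fun i => ⟨(h1 i).1, (h1 i).2.le⟩, h2⟩
/- END ya -/

/- MODULE yb
Keep only the monotonicity inside the rows `{c | c.1 = i}`: the set is contained in a product over
the rows.  Induction on `m`: `Λ = Λ' ∪ (row m)`, the volume of `Mo Λ α w` is at most the product of
the volumes of `Mo Λ' α w` and `Mo (row m) α w` (split the coordinates,
`MeasurableEquiv.sumPiEquivProdPi` or `measurePreserving_piEquivPiSubtypeProd`; the set is contained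
in a product set), and a row of size `r` is an increasing copy of `Fin r`
(`Finset.orderIsoOfFin` for the second coordinates; `mono_vol`).  Columns: the same with the two
coordinates exchanged (or apply the first statement to `Λ.map Prod.swap`). -/
private theorem yb_line {κ : Type} [Fintype κ] (s : κ → ℕ) (hs : Function.Injective s) (α : ℝ)
    {w : ℝ} (hw : 0 ≤ w) :
    volume {f : κ → ℝ | (∀ c, α ≤ f c ∧ f c < α + w) ∧ ∀ c c', s c ≤ s c' → f c ≤ f c'} ≤
      ENNReal.ofReal (w ^ Fintype.card κ / (Fintype.card κ)!) := by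
  let _ : LinearOrder κ := LinearOrder.lift' s hs
  let e : Fin (Fintype.card κ) ≃o κ := Fintype.orderIsoFinOfCardEq κ rfl
  have hmp := volume_measurePreserving_piCongrLeft (fun _ : κ => ℝ) e.toEquiv
  rw [← hmp.measure_preimage_equiv]
  refine (measure_mono ?_).trans (mono_vol _ α hw)
  rintro f ⟨h1, h2⟩
  have hf : ∀ i, f i = (MeasurableEquiv.piCongrLeft (fun _ : κ => ℝ) e.toEquiv) f (e i) := by
    intro i
    exact (Equiv.piCongrLeft_apply_apply (P := fun _ : κ => ℝ) e.toEquiv f i).symm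
  refine ⟨fun i => ?_, fun i j hij => ?_⟩
  · rw [hf i]
    exact h1 _
  · rw [hf i, hf j]
    exact h2 _ _ (e.monotone hij)

private theorem yb_gen (α : ℝ) {w : ℝ} (hw : 0 ≤ w) : ∀ (m : ℕ) (ι : Type) [Fintype ι]
    (r s : ι → ℕ), (∀ c c', r c = r c' → s c = s c' → c = c') → (∀ c, r c < m) →
    volume {f : ι → ℝ | (∀ c, α ≤ f c ∧ f c < α + w) ∧
        ∀ c c', r c = r c' → s c ≤ s c' → f c ≤ f c'} ≤
      ENNReal.ofReal (w ^ Fintype.card ι /
        ((∏ i ∈ Finset.range m, (Finset.univ.filter (fun c => r c = i)).card ! : ℕ) : ℝ)) := by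
  intro m
  induction m with
  | zero =>
    intro ι _ r s _ hr
    have : IsEmpty ι := ⟨fun c => absurd (hr c) (Nat.not_lt_zero _)⟩
    refine (measure_mono (Set.subset_univ _)).trans (le_of_eq ?_)
    rw [← Set.pi_univ (Set.univ : Set ι), volume_pi_pi]
    simp
  | succ m ih =>
    intro ι _ r s hinj hr
    have hmp := volume_preserving_piEquivPiSubtypeProd (fun _ : ι => ℝ) (fun c => r c < m)
    have h1 := ih {c // r c < m} (fun c => r c.1) (fun c => s c.1)
      (fun c c' h h' => Subtype.ext (hinj _ _ h h')) (fun c => c.2)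
    have hs' : Function.Injective (fun c : {c // ¬ r c < m} => s c.1) := by
      intro c c' h
      refine Subtype.ext (hinj _ _ ?_ h)
      have a1 := hr c.1
      have a2 := hr c'.1
      have a3 := c.2
      have a4 := c'.2
      omega
    have h2 := yb_line (fun c : {c // ¬ r c < m} => s c.1) hs' α hw
    set A : Set ({c // r c < m} → ℝ) := {f | (∀ c, α ≤ f c ∧ f c < α + w) ∧
        ∀ c c' : {c // r c < m}, r c.1 = r c'.1 → s c.1 ≤ s c'.1 → f c ≤ f c'} with hA
    set B : Set ({c // ¬ r c < m} → ℝ) := {f | (∀ c, α ≤ f c ∧ f c < α + w) ∧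
        ∀ c c' : {c // ¬ r c < m}, s c.1 ≤ s c'.1 → f c ≤ f c'} with hB
    have hsub : {f : ι → ℝ | (∀ c, α ≤ f c ∧ f c < α + w) ∧
        ∀ c c', r c = r c' → s c ≤ s c' → f c ≤ f c'} ⊆
        (MeasurableEquiv.piEquivPiSubtypeProd (fun _ : ι => ℝ) (fun c => r c < m)) ⁻¹'
          (A ×ˢ B) := by
      rintro f ⟨f1, f2⟩
      refine Set.mem_prod.2 ⟨⟨fun c => f1 c.1, fun c c' h h' => f2 c.1 c'.1 h h'⟩,
        ⟨fun c => f1 c.1, fun c c' h => f2 c.1 c'.1 ?_ h⟩⟩
      have a1 := hr c.1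
      have a2 := hr c'.1
      have a3 := c.2
      have a4 := c'.2
      omega
    refine (measure_mono hsub).trans ?_
    rw [hmp.measure_preimage_equiv]
    rw [show (volume : Measure (({c // r c < m} → ℝ) × ({c // ¬ r c < m} → ℝ))) =
      (volume : Measure ({c // r c < m} → ℝ)).prod volume from rfl, Measure.prod_prod]
    refine (mul_le_mul' h1 h2).trans (le_of_eq ?_)
    rw [← ENNReal.ofReal_mul (by positivity)]
    congr 1
    have hc1 : Fintype.card ι = Fintype.card {c // r c < m} + Fintype.card {c // ¬ r c < m} := by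
      rw [Fintype.card_subtype_compl]
      have := Fintype.card_subtype_le (fun c : ι => r c < m)
      omega
    have hc2 : (Finset.univ.filter (fun c : ι => r c = m)).card =
        Fintype.card {c // ¬ r c < m} := by
      rw [Fintype.card_subtype]
      congr 1
      ext c
      simp only [Finset.mem_filter, Finset.mem_univ, true_and]
      have := hr c
      omega
    have hc3 : ∀ i ∈ Finset.range m,
        (Finset.univ.filter (fun c : {c // r c < m} => r c.1 = i)).card ! =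
          (Finset.univ.filter (fun c : ι => r c = i)).card ! := by
      intro i hi
      congr 1
      refine Finset.card_bij (fun c _ => c.1) ?_ ?_ ?_
      · intro c hc
        exact Finset.mem_filter.2 ⟨Finset.mem_univ _, (Finset.mem_filter.1 hc).2⟩
      · intro c _ c' _ h
        exact Subtype.ext h
      · intro c hc
        have hc' := (Finset.mem_filter.1 hc).2
        exact ⟨⟨c, by rw [hc']; exact Finset.mem_range.1 hi⟩,
          Finset.mem_filter.2 ⟨Finset.mem_univ _, hc'⟩, rfl⟩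
    rw [Finset.prod_range_succ, hc2, Finset.prod_congr rfl hc3, hc1, pow_add]
    push_cast
    rw [div_mul_div_comm]

private theorem yb_card (Λ : Finset (ℕ × ℕ)) (q : ℕ × ℕ → Prop) [DecidablePred q] :
    (Finset.univ.filter (fun c : Λ => q c.1)).card = (Λ.filter q).card := by
  refine Finset.card_bij (fun c _ => c.1) ?_ ?_ ?_
  · intro c hc
    exact Finset.mem_filter.2 ⟨c.2, (Finset.mem_filter.1 hc).2⟩
  · intro c _ c' _ h
    exact Subtype.ext h
  · intro c hc
    exact ⟨⟨c, (Finset.mem_filter.1 hc).1⟩,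
      Finset.mem_filter.2 ⟨Finset.mem_univ _, (Finset.mem_filter.1 hc).2⟩, rfl⟩

theorem row_vol (Λ : Finset (ℕ × ℕ)) (m : ℕ) (hm : ∀ c ∈ Λ, c.1 < m) (α : ℝ) {w : ℝ}
    (hw : 0 ≤ w) :
    volume (Mo Λ α w) ≤
      ENNReal.ofReal (w ^ Λ.card /
        ((∏ i ∈ Finset.range m, (Λ.filter (fun c => c.1 = i)).card ! : ℕ) : ℝ)) := by
  have h := yb_gen α hw m Λ (fun c => c.1.1) (fun c => c.1.2)
    (fun c c' h1 h2 => Subtype.ext (Prod.ext h1 h2)) (fun c => hm c.1 c.2)
  simp only [fun i => yb_card Λ (fun c => c.1 = i), Fintype.card_coe] at h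
  refine (measure_mono ?_).trans h
  rintro f ⟨h1, h2⟩
  exact ⟨h1, fun c c' hr hs => h2 c c' ⟨hr.le, hs⟩⟩

theorem col_vol (Λ : Finset (ℕ × ℕ)) (m : ℕ) (hm : ∀ c ∈ Λ, c.2 < m) (α : ℝ) {w : ℝ}
    (hw : 0 ≤ w) :
    volume (Mo Λ α w) ≤
      ENNReal.ofReal (w ^ Λ.card /
        ((∏ j ∈ Finset.range m, (Λ.filter (fun c => c.2 = j)).card ! : ℕ) : ℝ)) := by
  have h := yb_gen α hw m Λ (fun c => c.1.2) (fun c => c.1.1)
    (fun c c' h1 h2 => Subtype.ext (Prod.ext h2 h1)) (fun c => hm c.1 c.2)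
  simp only [fun i => yb_card Λ (fun c => c.2 = i), Fintype.card_coe] at h
  refine (measure_mono ?_).trans h
  rintro f ⟨h1, h2⟩
  exact ⟨h1, fun c c' hr hs => h2 c c' ⟨hs, hr.le⟩⟩
/- END yb -/

/- MODULE yc
Arithmetic.  `Λ` is the diagram `μ` with or without its corner.  A row `i` of `Λ` of a diagram with
row length `r` has at least `r - 1` cells, and `r` unless the corner was removed from it; so its
factorial is at least `∏_{j = Q^2}^{r - 1} j ≥ (Q^2)^{#{j : Q^2 ≤ j < r}}` (for `Q ≥ 1`).  Product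
over the rows: `≥ (Q^2)^A`, `A` = number of cells `(i, j)` of `μ` with `j ≥ Q^2`; columns:
`≥ (Q^2)^B`, `B` = number of cells with `i ≥ Q^2`; all cells which are counted neither in `A` nor in
`B` lie in `[0,Q^2) × [0,Q^2)`, so `A + B ≥ μ.card - Q^4` and `Q^(2 max(A,B)) ≥ Q^(μ.card - Q^4)`. -/
private theorem yc_row (S Λ : Finset (ℕ × ℕ))
    (hl : ∀ i j j', (i, j) ∈ S → j' ≤ j → (i, j') ∈ S) (h1 : S.erase (0, 0) ⊆ Λ) (m : ℕ)
    (hm : ∀ c ∈ S, c.1 < m) (R : ℕ) (hR : 1 ≤ R) :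
    R ^ (S.filter (fun c => R ≤ c.2)).card ≤
      ∏ i ∈ Finset.range m, (Λ.filter (fun c => c.1 = i)).card ! := by
  have hA : (S.filter (fun c => R ≤ c.2)).card =
      ∑ i ∈ Finset.range m, ((S.filter (fun c => R ≤ c.2)).filter (fun c => c.1 = i)).card :=
    Finset.card_eq_sum_card_fiberwise fun c hc =>
      Finset.mem_coe.2 (Finset.mem_range.2 (hm c (Finset.mem_filter.1 hc).1))
  rw [hA, ← Finset.prod_pow_eq_pow_sum]
  refine Finset.prod_le_prod' fun i _ => ?_
  set X := (S.filter (fun c => R ≤ c.2)).filter (fun c => c.1 = i) with hX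
  rcases X.eq_empty_or_nonempty with he | ⟨c0, hc0⟩
  · rw [he, Finset.card_empty, pow_zero]
    exact Nat.succ_le_of_lt (Nat.factorial_pos _)
  · have hc0' := Finset.mem_filter.1 hc0
    have hc0'' := Finset.mem_filter.1 hc0'.1
    have hsub : X ∪ (Finset.range R).image (fun j => (i, j)) ⊆ S.filter (fun c => c.1 = i) := by
      intro c hc
      rcases Finset.mem_union.1 hc with hc | hc
      · exact Finset.mem_filter.2 ⟨(Finset.mem_filter.1 (Finset.mem_filter.1 hc).1).1,
          (Finset.mem_filter.1 hc).2⟩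
      · obtain ⟨j, hj, rfl⟩ := Finset.mem_image.1 hc
        refine Finset.mem_filter.2 ⟨hl i c0.2 j ?_ ?_, rfl⟩
        · rw [← hc0'.2]
          exact hc0''.1
        · exact (Finset.mem_range.1 hj).le.trans hc0''.2
    have hdis : Disjoint X ((Finset.range R).image (fun j => (i, j))) := by
      rw [Finset.disjoint_left]
      intro c hc hc'
      obtain ⟨j, hj, rfl⟩ := Finset.mem_image.1 hc'
      have := (Finset.mem_filter.1 (Finset.mem_filter.1 hc).1).2
      exact absurd (Finset.mem_range.1 hj) (not_lt.2 this)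
    have hc1 : X.card + R ≤ (S.filter (fun c => c.1 = i)).card := by
      have := Finset.card_le_card hsub
      rw [Finset.card_union_of_disjoint hdis, Finset.card_image_of_injective _
        (fun a b h => (Prod.mk.inj h).2), Finset.card_range] at this
      exact this
    have hc2 : (S.filter (fun c => c.1 = i)).card ≤ (Λ.filter (fun c => c.1 = i)).card + 1 := by
      have h3 : (S.filter (fun c => c.1 = i)).erase (0, 0) ⊆ Λ.filter (fun c => c.1 = i) := by
        intro c hc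
        obtain ⟨hc, hc'⟩ := Finset.mem_erase.1 hc
        obtain ⟨hc', hc''⟩ := Finset.mem_filter.1 hc'
        exact Finset.mem_filter.2 ⟨h1 (Finset.mem_erase.2 ⟨hc, hc'⟩), hc''⟩
      have h4 := Finset.card_le_card h3
      have h5 := Finset.pred_card_le_card_erase (s := S.filter (fun c => c.1 = i)) (a := (0, 0))
      omega
    have h6 : (R - 1)! * (R - 1 + 1) ^ X.card ≤ (R - 1 + X.card)! :=
      Nat.factorial_mul_pow_le_factorial
    have h7 : R - 1 + 1 = R := Nat.sub_add_cancel hR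
    rw [h7] at h6
    calc R ^ X.card ≤ (R - 1)! * R ^ X.card :=
          Nat.le_mul_of_pos_left _ (Nat.factorial_pos _)
      _ ≤ (R - 1 + X.card)! := h6
      _ ≤ _ := Nat.factorial_le (by omega)

private theorem yc_swap (Λ : Finset (ℕ × ℕ)) (q : ℕ × ℕ → Prop) [DecidablePred q] :
    ((Λ.image Prod.swap).filter q).card = (Λ.filter (fun c => q c.swap)).card := by
  rw [Finset.filter_image, Finset.card_image_of_injective _ Prod.swap_injective]

theorem fact_bound (μ : YoungDiagram) (Λ : Finset (ℕ × ℕ)) (h1 : μ.cells.erase (0, 0) ⊆ Λ)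
    (h2 : Λ ⊆ μ.cells) (m : ℕ) (hm : ∀ c ∈ μ.cells, c.1 < m ∧ c.2 < m) (Q : ℕ) (hQ : 1 ≤ Q) :
    Q ^ (μ.card - Q ^ 4) ≤
      max (∏ i ∈ Finset.range m, (Λ.filter (fun c => c.1 = i)).card !)
        (∏ j ∈ Finset.range m, (Λ.filter (fun c => c.2 = j)).card !) := by
  have hR : 1 ≤ Q ^ 2 := Nat.one_le_pow _ _ hQ
  have hA := yc_row μ.cells Λ (fun i j j' h hj => μ.up_left_mem le_rfl hj h) h1 m
    (fun c hc => (hm c hc).1) (Q ^ 2) hR
  have hB := yc_row (μ.cells.image Prod.swap) (Λ.image Prod.swap)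
    (fun i j j' h hj => by
      obtain ⟨c, hc, he⟩ := Finset.mem_image.1 h
      have h3 : (j, i) ∈ μ.cells := by
        have : c = (j, i) := by
          rw [← Prod.swap_swap c, he]
          rfl
        rw [← this]
        exact hc
      exact Finset.mem_image.2 ⟨(j', i), μ.up_left_mem hj le_rfl h3, rfl⟩)
    (fun c hc => by
      obtain ⟨hc, hc'⟩ := Finset.mem_erase.1 hc
      obtain ⟨d, hd, rfl⟩ := Finset.mem_image.1 hc'
      refine Finset.mem_image.2 ⟨d, h1 (Finset.mem_erase.2 ⟨?_, hd⟩), rfl⟩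
      rintro rfl
      exact hc rfl)
    m (fun c hc => by
      obtain ⟨d, hd, rfl⟩ := Finset.mem_image.1 hc
      exact (hm d hd).2) (Q ^ 2) hR
  simp only [yc_swap, Prod.fst_swap, Prod.snd_swap] at hB
  set A := (μ.cells.filter (fun c => Q ^ 2 ≤ c.2)).card with hAdef
  set B := (μ.cells.filter (fun c => Q ^ 2 ≤ c.1)).card with hBdef
  have hcov : μ.cells ⊆ (μ.cells.filter (fun c => Q ^ 2 ≤ c.2) ∪
      μ.cells.filter (fun c => Q ^ 2 ≤ c.1)) ∪ (Finset.range (Q ^ 2) ×ˢ Finset.range (Q ^ 2)) := by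
    intro c hc
    simp only [Finset.mem_union, Finset.mem_filter, Finset.mem_product, Finset.mem_range]
    by_cases ha : Q ^ 2 ≤ c.2
    · exact Or.inl (Or.inl ⟨hc, ha⟩)
    · by_cases hb : Q ^ 2 ≤ c.1
      · exact Or.inl (Or.inr ⟨hc, hb⟩)
      · exact Or.inr ⟨not_le.1 hb, not_le.1 ha⟩
  have hcard : μ.card ≤ A + B + Q ^ 4 := by
    have h3 := (Finset.card_le_card hcov).trans
      ((Finset.card_union_le _ _).trans (Nat.add_le_add_right (Finset.card_union_le _ _) _))
    rw [Finset.card_product, Finset.card_range, ← pow_add] at h3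
    exact h3
  rcases le_total A B with hAB | hAB
  · refine le_trans ?_ (le_max_right _ _)
    refine le_trans ?_ hB
    rw [← pow_mul]
    exact Nat.pow_le_pow_right hQ (by omega)
  · refine le_trans ?_ (le_max_left _ _)
    refine le_trans ?_ hA
    rw [← pow_mul]
    exact Nat.pow_le_pow_right hQ (by omega)
/- END yc -/

/- MODULE yd
Combine `row_vol`, `col_vol`, `fact_bound` (and `w ^ Λ.card ≤ w ^ μ.card` for `1 ≤ w`). -/
theorem mo_vol (μ : YoungDiagram) (Λ : Finset (ℕ × ℕ)) (h1 : μ.cells.erase (0, 0) ⊆ Λ)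
    (h2 : Λ ⊆ μ.cells) (α : ℝ) {w : ℝ} (hw : 1 ≤ w) (Q : ℕ) (hQ : 1 ≤ Q) :
    volume (Mo Λ α w) ≤
      ENNReal.ofReal (w ^ μ.card / ((Q ^ (μ.card - Q ^ 4) : ℕ) : ℝ)) := by
  have hw0 : (0 : ℝ) ≤ w := le_trans zero_le_one hw
  set m : ℕ := (μ.cells.sup (fun c => max c.1 c.2)) + 1 with hm_def
  have hm : ∀ c ∈ μ.cells, c.1 < m ∧ c.2 < m := by
    intro c hc
    have h : max c.1 c.2 ≤ μ.cells.sup (fun c => max c.1 c.2) :=
      Finset.le_sup (f := fun c : ℕ × ℕ => max c.1 c.2) hc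
    exact ⟨Nat.lt_succ_of_le (le_trans (le_max_left _ _) h),
      Nat.lt_succ_of_le (le_trans (le_max_right _ _) h)⟩
  have hcard : Λ.card ≤ μ.card := Finset.card_le_card h2
  have hpow : w ^ Λ.card ≤ w ^ μ.card := pow_le_pow_right₀ hw hcard
  have hQpos : 0 < Q ^ (μ.card - Q ^ 4) := Nat.pow_pos hQ
  have hfb := fact_bound μ Λ h1 h2 m hm Q hQ
  have key : ∀ A : ℕ, Q ^ (μ.card - Q ^ 4) ≤ A →
      ENNReal.ofReal (w ^ Λ.card / ((A : ℕ) : ℝ)) ≤
        ENNReal.ofReal (w ^ μ.card / ((Q ^ (μ.card - Q ^ 4) : ℕ) : ℝ)) := by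
    intro A hA
    apply ENNReal.ofReal_le_ofReal
    have h0 : (0 : ℝ) < ((Q ^ (μ.card - Q ^ 4) : ℕ) : ℝ) := by exact_mod_cast hQpos
    have hA' : ((Q ^ (μ.card - Q ^ 4) : ℕ) : ℝ) ≤ ((A : ℕ) : ℝ) := by exact_mod_cast hA
    exact div_le_div₀ (pow_nonneg hw0 _) hpow h0 hA'
  rcases le_max_iff.1 hfb with h | h
  · exact le_trans (row_vol Λ m (fun c hc => (hm c (h2 hc)).1) α hw0) (key _ h)
  · exact le_trans (col_vol Λ m (fun c hc => (hm c (h2 hc)).2) α hw0) (key _ h)

theorem Mo_meas (Λ : Finset (ℕ × ℕ)) (α w : ℝ) : MeasurableSet (Mo Λ α w) := by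
  unfold Mo
  have e : {f : Λ → ℝ | (∀ c, α ≤ f c ∧ f c < α + w) ∧ ∀ c c' : Λ, c.1 ≤ c'.1 → f c ≤ f c'} =
      (⋂ c : Λ, ({f : Λ → ℝ | α ≤ f c} ∩ {f : Λ → ℝ | f c < α + w})) ∩
        ⋂ c : Λ, ⋂ c' : Λ, ⋂ _ : c.1 ≤ c'.1, {f : Λ → ℝ | f c ≤ f c'} := by
    ext f
    simp only [Set.mem_setOf_eq, Set.mem_inter_iff, Set.mem_iInter]
  rw [e]
  refine MeasurableSet.inter (MeasurableSet.iInter fun c => ?_)
    (MeasurableSet.iInter fun c => MeasurableSet.iInter fun c' => MeasurableSet.iInter fun _ => ?_)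
  · exact (measurableSet_le measurable_const (measurable_pi_apply c)).inter
      (measurableSet_lt (measurable_pi_apply c) measurable_const)
  · exact measurableSet_le (measurable_pi_apply c) (measurable_pi_apply c')
/- END yd -/

/- MODULE ye
There are at most `2 ^ k` Young diagrams with `k` cells: the row lengths
(`YoungDiagram.rowLens`, positive, sum `k`, injective by `YoungDiagram.equivListRowLens`) give a
composition of `k`, `composition_card`. -/
private theorem ye_sum (μ : YoungDiagram) : μ.rowLens.sum = μ.card := by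
  have h1 : μ.card = ∑ i ∈ Finset.range (μ.colLen 0), μ.rowLen i := by
    show μ.cells.card = _
    rw [Finset.card_eq_sum_card_fiberwise (f := Prod.fst) (t := Finset.range (μ.colLen 0))]
    · refine Finset.sum_congr rfl fun i _ => ?_
      rw [YoungDiagram.rowLen_eq_card]
      rfl
    · intro c hc
      have hc' : c ∈ μ := (YoungDiagram.mem_cells c).1 (Finset.mem_coe.1 hc)
      have h2 : (c.1, 0) ∈ μ := μ.up_left_mem le_rfl (Nat.zero_le c.2) hc'
      exact Finset.mem_coe.2 (Finset.mem_range.2 (YoungDiagram.mem_iff_lt_colLen.1 h2))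
  rw [h1, YoungDiagram.rowLens]
  show _ = (Multiset.map _ (Multiset.range _)).sum
  rw [Multiset.range, Multiset.map_coe, Multiset.sum_coe]

theorem card_young (F : Finset YoungDiagram) (k : ℕ) (hF : ∀ μ ∈ F, μ.card = k) :
    F.card ≤ 2 ^ k := by
  have h := Fintype.card_le_of_injective (fun μ : {x // x ∈ F} =>
    (⟨μ.1.rowLens, fun h => μ.1.pos_of_mem_rowLens _ h, by rw [ye_sum, hF _ μ.2]⟩ :
      Composition k)) (by
    intro a b hab
    have h1 : a.1.rowLens = b.1.rowLens := congrArg Composition.blocks hab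
    apply Subtype.ext
    apply YoungDiagram.equivListRowLens.injective
    exact Subtype.ext h1)
  rw [Fintype.card_coe, composition_card] at h
  exact h.trans (Nat.pow_le_pow_right (by norm_num) (Nat.sub_le _ _))
/- END ye -/

/- MODULE yf
The series.  With `B = 75 ^ 6` take `Q = 8 * B * 2 ^ 43`: grouping by the number of cells and using
`card_young`, the sum is at most
`∑_k 2^k B^k 2^(43 k + 7) (5/2)^k Q^(Q^4) Q^(-k) = 2^7 Q^(Q^4) ∑_k (5/8)^k`
(note `Q^(k - Q^4) ≥ Q^k / Q^(Q^4)` also for truncated subtraction). -/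
private theorem yf_term (Q : ℕ) (hQ : Q = 8 * 75 ^ 6 * 2 ^ 43) (N k : ℕ) :
    (2 : ℝ≥0∞) ^ k * (((75 : ℝ≥0∞) ^ 6) ^ k * (2 ^ (43 * k + 7) *
      ENNReal.ofReal ((5 / 2 : ℝ) ^ k / ((Q ^ (k - N) : ℕ) : ℝ)))) ≤
    ENNReal.ofReal (2 ^ 7 * (Q : ℝ) ^ N) * ENNReal.ofReal (5 / 8) ^ k := by
  have hQ1 : 1 ≤ Q := by rw [hQ]; norm_num
  have hQr : (1 : ℝ) ≤ (Q : ℝ) := by exact_mod_cast hQ1
  have hQ0 : (0 : ℝ) < (Q : ℝ) := lt_of_lt_of_le one_pos hQr
  have hQv : (Q : ℝ) = 8 * 75 ^ 6 * 2 ^ 43 := by rw [hQ]; push_cast; ring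
  have e1 : (2 : ℝ≥0∞) = ENNReal.ofReal 2 := by norm_num
  have e2 : (75 : ℝ≥0∞) = ENNReal.ofReal 75 := by norm_num
  rw [e1, e2]
  rw [← ENNReal.ofReal_pow (by norm_num), ← ENNReal.ofReal_pow (by norm_num),
    ← ENNReal.ofReal_pow (by positivity), ← ENNReal.ofReal_pow (by norm_num),
    ← ENNReal.ofReal_mul (by positivity), ← ENNReal.ofReal_mul (by positivity),
    ← ENNReal.ofReal_mul (by positivity), ← ENNReal.ofReal_pow (by norm_num),
    ← ENNReal.ofReal_mul (by positivity)]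
  apply ENNReal.ofReal_le_ofReal
  have h1 : (Q : ℝ) ^ k ≤ (Q : ℝ) ^ N * (Q : ℝ) ^ (k - N) := by
    rw [← pow_add]
    exact pow_le_pow_right₀ hQr (by omega)
  have hp : (0 : ℝ) < (Q : ℝ) ^ (k - N) := pow_pos hQ0 _
  have hk : (0 : ℝ) < (Q : ℝ) ^ k := pow_pos hQ0 _
  have h2 : (5 / 2 : ℝ) ^ k / ((Q ^ (k - N) : ℕ) : ℝ) ≤
      (5 / 2 : ℝ) ^ k * (Q : ℝ) ^ N / (Q : ℝ) ^ k := by
    push_cast
    rw [div_le_div_iff₀ hp hk, mul_assoc]
    exact mul_le_mul_of_nonneg_left h1 (by positivity)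
  have h3 : (2 : ℝ) ^ k * ((75 ^ 6) ^ k * (2 ^ (43 * k + 7) *
      ((5 / 2 : ℝ) ^ k * (Q : ℝ) ^ N / (Q : ℝ) ^ k))) = 2 ^ 7 * (Q : ℝ) ^ N * (5 / 8) ^ k := by
    have h4 : (Q : ℝ) ^ k = 8 ^ k * (75 ^ 6) ^ k * (2 ^ 43) ^ k := by
      rw [hQv, mul_pow, mul_pow]
    have h5 : (2 : ℝ) ^ (43 * k + 7) = (2 ^ 43) ^ k * 2 ^ 7 := by
      rw [pow_add, pow_mul]
    have h6 : (5 / 8 : ℝ) ^ k = 2 ^ k * (5 / 2) ^ k / 8 ^ k := by
      rw [← mul_pow, ← div_pow]; norm_num
    have h7 : (0 : ℝ) < 8 ^ k := by positivity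
    have h8 : (0 : ℝ) < (75 ^ 6) ^ k := by positivity
    have h9 : (0 : ℝ) < (2 ^ 43) ^ k := by positivity
    rw [h5, h6, h4]
    generalize (8 : ℝ) ^ k = a at *
    generalize ((75 : ℝ) ^ 6) ^ k = b at *
    generalize ((2 : ℝ) ^ 43) ^ k = c at *
    field_simp
  rw [← h3]
  gcongr

theorem young_series : ∃ (Q : ℕ) (C : ℝ≥0∞), 1 ≤ Q ∧ C < ⊤ ∧ ∀ F : Finset YoungDiagram,
    ∑ μ ∈ F, ((75 : ℝ≥0∞) ^ 6) ^ μ.card * (2 ^ (43 * μ.card + 7) *
      ENNReal.ofReal ((5 / 2 : ℝ) ^ μ.card / ((Q ^ (μ.card - Q ^ 4) : ℕ) : ℝ))) ≤ C := by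
  obtain ⟨Q, hQ⟩ : ∃ Q : ℕ, Q = 8 * 75 ^ 6 * 2 ^ 43 := ⟨_, rfl⟩
  have hQ1 : 1 ≤ Q := by rw [hQ]; norm_num
  refine ⟨Q, ENNReal.ofReal (2 ^ 7 * (Q : ℝ) ^ (Q ^ 4)) * ∑' k : ℕ, ENNReal.ofReal (5 / 8) ^ k,
    hQ1, ?_, ?_⟩
  · refine ENNReal.mul_lt_top ENNReal.ofReal_lt_top ?_
    rw [ENNReal.tsum_geometric, ENNReal.inv_lt_top, tsub_pos_iff_lt]
    rw [← ENNReal.ofReal_one]
    exact (ENNReal.ofReal_lt_ofReal_iff one_pos).2 (by norm_num)
  · intro F
    classical
    generalize hN : Q ^ 4 = N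
    have step := Finset.sum_comp (s := F) (fun k : ℕ => ((75 : ℝ≥0∞) ^ 6) ^ k *
      (2 ^ (43 * k + 7) * ENNReal.ofReal ((5 / 2 : ℝ) ^ k / ((Q ^ (k - N) : ℕ) : ℝ))))
      (fun μ : YoungDiagram => μ.card)
    rw [step, ← ENNReal.tsum_mul_left]
    refine le_trans (Finset.sum_le_sum (fun k _ => ?_)) (ENNReal.sum_le_tsum (F.image _))
    refine le_trans ?_ (yf_term Q hQ N k)
    rw [nsmul_eq_mul]
    gcongr
    have hc := card_young (F.filter (fun μ => μ.card = k)) k
      (fun μ hμ => (Finset.mem_filter.1 hμ).2)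
    exact_mod_cast hc
/- END yf -/

end Pool.Agent.Hmk
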