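import Pool.Agent.Hmk.Zf
import Pool.Agent.Hmk.Yd
import Pool.Agent.Hmk.Geo

/-!
# Hmk: the exponential moment of the number of affected sites (Part D4)
-/

set_option autoImplicit false

open MeasureTheory Set
open scoped ENNReal Nat

noncomputable section

namespace Pool.Agent.Hmk

/-- the cells of sector `j` which are free sites different from `v` -/
def Bx (D : Finset (ℤ × ℤ)) (u v : ℤ × ℤ) (j : Fin 6) : Finset (ℕ × ℕ) :=
  (D.erase v).preimage (cl u j) ((cl_inj u j).injOn)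

theorem mem_Bx {D : Finset (ℤ × ℤ)} {u v : ℤ × ℤ} {j : Fin 6} {c : ℕ × ℕ} :
    c ∈ Bx D u v j ↔ cl u j c ≠ v ∧ cl u j c ∈ D := by
  simp [Bx]

/-- the diagrams which can occur in sector `j` -/
def Cy (D : Finset (ℤ × ℤ)) (u v : ℤ × ℤ) (j : Fin 6) : Set YoungDiagram :=
  {μ | μ.cells ⊆ insert (0, 0) (Bx D u v j)}

theorem Cy_finite (D : Finset (ℤ × ℤ)) (u v : ℤ × ℤ) (j : Fin 6) : (Cy D u v j).Finite := by
  have h : (((insert (0, 0) (Bx D u v j)).powerset : Finset (Finset (ℕ × ℕ))) :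
      Set (Finset (ℕ × ℕ))).Finite := Finset.finite_toSet _
  refine (h.preimage (f := YoungDiagram.cells) ?_).subset ?_
  · intro μ _ ν _ e
    exact YoungDiagram.ext e
  · intro μ hμ
    exact Finset.mem_coe.2 (Finset.mem_powerset.2 hμ)

/-- the cells of `μ` which are free sites different from `v` -/
def Lm (D : Finset (ℤ × ℤ)) (u v : ℤ × ℤ) (j : Fin 6) (μ : YoungDiagram) : Finset (ℕ × ℕ) :=
  μ.cells ∩ Bx D u v j

/-- the corresponding sites -/
def Tm (D : Finset (ℤ × ℤ)) (u v : ℤ × ℤ) (j : Fin 6) (μ : YoungDiagram) : Finset (ℤ × ℤ) :=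
  (Lm D u v j μ).image (cl u j)

/-- their free neighbours, and `v` if it is free -/
def Pfr (D : Finset (ℤ × ℤ)) (u v : ℤ × ℤ) (j : Fin 6) (μ : YoungDiagram) : Finset (ℤ × ℤ) :=
  ((Tm D u v j μ).biUnion (fun x => Finset.univ.image (fun i : Fin 6 => x + st i)) ∪ {v}) ∩
    (D \ Tm D u v j μ)

theorem mem_Tm {D : Finset (ℤ × ℤ)} {u v : ℤ × ℤ} {j : Fin 6} {μ : YoungDiagram} {x : ℤ × ℤ} :
    x ∈ Tm D u v j μ ↔ ∃ c ∈ μ.cells, cl u j c ≠ v ∧ cl u j c ∈ D ∧ cl u j c = x := by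
  simp only [Tm, Lm, Finset.mem_image, Finset.mem_inter, mem_Bx]
  constructor
  · rintro ⟨c, ⟨h1, h2, h3⟩, h4⟩
    exact ⟨c, h1, h2, h3, h4⟩
  · rintro ⟨c, h1, h2, h3, h4⟩
    exact ⟨c, ⟨h1, h2, h3⟩, h4⟩

theorem Tm_sub (D : Finset (ℤ × ℤ)) (u v : ℤ × ℤ) (j : Fin 6) (μ : YoungDiagram) :
    Tm D u v j μ ⊆ D := by
  intro x hx
  obtain ⟨c, _, _, h3, rfl⟩ := mem_Tm.1 hx
  exact h3

theorem v_not_mem_Tm (D : Finset (ℤ × ℤ)) (u v : ℤ × ℤ) (j : Fin 6) (μ : YoungDiagram) :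
    v ∉ Tm D u v j μ := by
  intro hx
  obtain ⟨c, _, h2, _, h4⟩ := mem_Tm.1 hx
  exact h2 h4

theorem Pfr_sub (D : Finset (ℤ × ℤ)) (u v : ℤ × ℤ) (j : Fin 6) (μ : YoungDiagram) :
    Pfr D u v j μ ⊆ D := by
  intro x hx
  simp only [Pfr, Finset.mem_inter, Finset.mem_sdiff] at hx
  exact hx.2.1

theorem Tm_Pm (D : Finset (ℤ × ℤ)) (u v : ℤ × ℤ) (j : Fin 6) (μ : YoungDiagram) :
    Disjoint (Tm D u v j μ) (Pfr D u v j μ) := by
  rw [Finset.disjoint_left]
  intro x hx hx'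
  simp only [Pfr, Finset.mem_inter, Finset.mem_sdiff] at hx'
  exact hx'.2.2 hx

theorem Pfr_v (D : Finset (ℤ × ℤ)) (u v : ℤ × ℤ) (j : Fin 6) (μ : YoungDiagram) :
    v ∈ Pfr D u v j μ ∨ v ∉ D := by
  by_cases h : v ∈ D
  · left
    simp only [Pfr, Finset.mem_inter, Finset.mem_sdiff, Finset.mem_union, Finset.mem_singleton]
    exact ⟨Or.inr trivial, h, v_not_mem_Tm D u v j μ⟩
  · exact Or.inr h

theorem Pfr_nb (D : Finset (ℤ × ℤ)) (u v : ℤ × ℤ) (j : Fin 6) (μ : YoungDiagram) :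
    ∀ x ∈ Tm D u v j μ, ∀ i, x + st i ∈ D → x + st i ∈ Tm D u v j μ ∪ Pfr D u v j μ := by
  intro x hx i hi
  by_cases h : x + st i ∈ Tm D u v j μ
  · exact Finset.mem_union_left _ h
  · refine Finset.mem_union_right _ ?_
    simp only [Pfr, Finset.mem_inter, Finset.mem_sdiff, Finset.mem_union, Finset.mem_biUnion,
      Finset.mem_image, Finset.mem_univ, true_and]
    exact ⟨Or.inl ⟨x, hx, i, rfl⟩, hi, h⟩

theorem Tm_card (D : Finset (ℤ × ℤ)) (u v : ℤ × ℤ) (j : Fin 6) (μ : YoungDiagram) :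
    (Tm D u v j μ).card ≤ μ.card :=
  (Finset.card_image_le).trans (Finset.card_le_card Finset.inter_subset_left)

theorem Pfr_card (D : Finset (ℤ × ℤ)) (u v : ℤ × ℤ) (j : Fin 6) (μ : YoungDiagram) :
    (Pfr D u v j μ).card ≤ 6 * (Tm D u v j μ).card + 1 := by
  refine (Finset.card_le_card Finset.inter_subset_left).trans ?_
  refine (Finset.card_union_le _ _).trans ?_
  have : ((Tm D u v j μ).biUnion (fun x => Finset.univ.image (fun i : Fin 6 => x + st i))).card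
      ≤ (Tm D u v j μ).card * 6 := by
    refine Finset.card_biUnion_le_card_mul _ _ _ ?_
    intro x _
    exact (Finset.card_image_le).trans (by simp)
  simp only [Finset.card_singleton]
  omega

/-- the relative profile: monotone in the variable `q` -/
def Wm (D : Finset (ℤ × ℤ)) (u v : ℤ × ℤ) (j : Fin 6) (μ : YoungDiagram) :
    Set (Tm D u v j μ → ℝ) :=
  {t | (fun c : Lm D u v j μ => t ⟨cl u j c, Finset.mem_image_of_mem _ c.2⟩ - 1 +
    (dn (cl u j c - u) : ℝ)) ∈ Mo (Lm D u v j μ) (-2) (5 / 2)}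

/-- the bijection between the cells and the sites -/
def eqv (D : Finset (ℤ × ℤ)) (u v : ℤ × ℤ) (j : Fin 6) (μ : YoungDiagram) :
    Tm D u v j μ ≃ Lm D u v j μ :=
  (Equiv.ofBijective (fun c : Lm D u v j μ =>
    (⟨cl u j c, Finset.mem_image_of_mem _ c.2⟩ : Tm D u v j μ)) (by
      constructor
      · intro c c' h
        exact Subtype.ext (cl_inj u j (congrArg Subtype.val h))
      · rintro ⟨x, hx⟩
        obtain ⟨c, hc, rfl⟩ := Finset.mem_image.1 hx
        exact ⟨⟨c, hc⟩, rfl⟩)).symm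

theorem eqv_symm_apply (D : Finset (ℤ × ℤ)) (u v : ℤ × ℤ) (j : Fin 6) (μ : YoungDiagram)
    (c : Lm D u v j μ) :
    (eqv D u v j μ).symm c = ⟨cl u j c, Finset.mem_image_of_mem _ c.2⟩ := rfl

theorem Wm_mp (D : Finset (ℤ × ℤ)) (u v : ℤ × ℤ) (j : Fin 6) (μ : YoungDiagram) :
    MeasurePreserving (fun (t : Tm D u v j μ → ℝ) (c : Lm D u v j μ) =>
      t ⟨cl u j c, Finset.mem_image_of_mem _ c.2⟩ - 1 + (dn (cl u j c - u) : ℝ)) := by
  have h1 := volume_measurePreserving_piCongrLeft (fun _ : Lm D u v j μ => ℝ) (eqv D u v j μ)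
  have h2 := measurePreserving_add_right (volume : Measure (Lm D u v j μ → ℝ))
    (fun c : Lm D u v j μ => -1 + (dn (cl u j c - u) : ℝ))
  have h3 := h2.comp h1
  have e : (fun (t : Tm D u v j μ → ℝ) (c : Lm D u v j μ) =>
      t ⟨cl u j c, Finset.mem_image_of_mem _ c.2⟩ - 1 + (dn (cl u j c - u) : ℝ)) =
      ((fun x => x + fun c : Lm D u v j μ => -1 + (dn (cl u j c - u) : ℝ)) ∘
        (MeasurableEquiv.piCongrLeft (fun _ : Lm D u v j μ => ℝ) (eqv D u v j μ))) := by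
    funext t c
    simp only [Function.comp_apply, Pi.add_apply]
    have : (MeasurableEquiv.piCongrLeft (fun _ : Lm D u v j μ => ℝ) (eqv D u v j μ)) t c
        = t ((eqv D u v j μ).symm c) := by
      obtain ⟨x, rfl⟩ := (eqv D u v j μ).surjective c
      rw [Equiv.symm_apply_apply]
      exact MeasurableEquiv.piCongrLeft_apply_apply (β := fun _ : Lm D u v j μ => ℝ)
        (eqv D u v j μ) t x
    rw [this, eqv_symm_apply]
    ring
  rw [e]
  exact h3

theorem Wm_meas (D : Finset (ℤ × ℤ)) (u v : ℤ × ℤ) (j : Fin 6) (μ : YoungDiagram) :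
    MeasurableSet (Wm D u v j μ) :=
  (Wm_mp D u v j μ).measurable (Mo_meas _ _ _)

theorem Wm_vol (D : Finset (ℤ × ℤ)) (u v : ℤ × ℤ) (j : Fin 6) (μ : YoungDiagram) :
    volume (Wm D u v j μ) = volume (Mo (Lm D u v j μ) (-2) (5 / 2)) :=
  (Wm_mp D u v j μ).measure_preimage (Mo_meas _ _ _).nullMeasurableSet

/-- the event that the diagram of sector `j` is `μ` is contained in this one -/
def Ev (D : Finset (ℤ × ℤ)) (b : ℤ × ℤ → ℝ) (u v : ℤ × ℤ) (j : Fin 6) (μ : YoungDiagram) :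
    Set (D → ℝ) :=
  {h | h ∈ K D b ∧ (fun x : Tm D u v j μ => gl D b h x - gl D b h v) ∈ Wm D u v j μ}

theorem Ev_meas (D : Finset (ℤ × ℤ)) (b : ℤ × ℤ → ℝ) (u v : ℤ × ℤ) (j : Fin 6)
    (μ : YoungDiagram) : MeasurableSet (Ev D b u v j μ) := by
  refine (K_meas D b).inter ?_
  have : Measurable (fun (h : D → ℝ) (x : Tm D u v j μ) => gl D b h x - gl D b h v) := by
    refine measurable_pi_lambda _ (fun x => ?_)
    exact (gl_meas D b x).sub (gl_meas D b v)
  exact this (Wm_meas D u v j μ)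

theorem Ev_vol {D : Finset (ℤ × ℤ)} {b : ℤ × ℤ → ℝ} (hb : ∀ z, |b z| ≤ 1 / 2) {u v : ℤ × ℤ}
    {j : Fin 6} {μ : YoungDiagram} (hμ : μ ∈ Cy D u v j) (Q : ℕ) (hQ : 1 ≤ Q) :
    volume (Ev D b u v j μ) ≤ 2 ^ (43 * μ.card + 7) *
      ENNReal.ofReal ((5 / 2 : ℝ) ^ μ.card / ((Q ^ (μ.card - Q ^ 4) : ℕ) : ℝ)) *
        volume (K D b) := by
  have h1 := vol_lemma (D := D) (T := Tm D u v j μ) (P := Pfr D u v j μ) hb (Tm_sub D u v j μ)
    (Pfr_sub D u v j μ) (Tm_Pm D u v j μ) (Pfr_nb D u v j μ) (Pfr_v D u v j μ)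
    (Wm_meas D u v j μ)
  refine h1.trans ?_
  refine mul_le_mul' (mul_le_mul' ?_ ?_) le_rfl
  · refine pow_le_pow_right₀ (by norm_num) ?_
    have := Tm_card D u v j μ
    have := Pfr_card D u v j μ
    omega
  · rw [Wm_vol]
    refine mo_vol μ (Lm D u v j μ) ?_ Finset.inter_subset_left (-2) (by norm_num) Q hQ
    intro c hc
    have hc' := Finset.mem_erase.1 hc
    have := hμ hc'.2
    rw [Finset.mem_insert] at this
    rcases this with h | h
    · exact absurd h hc'.1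
    · exact Finset.mem_inter.2 ⟨hc'.2, h⟩

/-- the diagrams of a configuration -/
theorem exists_diag {D : Finset (ℤ × ℤ)} {b : ℤ × ℤ → ℝ} (hb : ∀ z, |b z| ≤ 1 / 2)
    {u v : ℤ × ℤ} (hg : Good D b u v) {h : D → ℝ} (hh : h ∈ Reg D b v) (j : Fin 6) :
    ∃ μ : YoungDiagram, μ ∈ Cy D u v j ∧ h ∈ Ev D b u v j μ ∧
      ∀ c : ℕ × ℕ, qf D b u v h (cl u j c) < 1 / 2 → c ∈ μ.cells := by
  classical
  have key : ∀ c : ℕ × ℕ, qf D b u v h (cl u j c) < 1 / 2 →
      c ∈ insert (0, 0) (Bx D u v j) := by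
    intro c hc
    by_cases h0 : c = (0, 0)
    · rw [h0]; exact Finset.mem_insert_self _ _
    · refine Finset.mem_insert_of_mem (mem_Bx.2 ?_)
      have hd : 2 ≤ dn (cl u j c - u) := by
        rw [dn_cl]
        have : c.1 ≠ 0 ∨ c.2 ≠ 0 := by
          by_contra hcon
          push Not at hcon
          exact h0 (Prod.ext hcon.1 hcon.2)
        omega
      constructor
      · intro e
        obtain ⟨i, hi⟩ := hg.nb
        have : dn (cl u j c - u) = 1 := by
          rw [e, hi]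
          refine (dn_one_iff _).2 ⟨i, by simp⟩
        omega
      · by_contra hD
        have := qf_fix2 hb hh hD hd
        linarith
  let μ : YoungDiagram :=
    { cells := (insert (0, 0) (Bx D u v j)).filter (fun c => qf D b u v h (cl u j c) < 1 / 2)
      isLowerSet := by
        intro c c' hc hcm
        simp only [Finset.coe_filter, Set.mem_ofPred_eq] at hcm ⊢
        have : qf D b u v h (cl u j c') < 1 / 2 :=
          lt_of_le_of_lt (qf_mono hb hh.1 j hc) hcm.2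
        exact ⟨key c' this, this⟩ }
  have hμ : ∀ c, c ∈ μ.cells ↔ qf D b u v h (cl u j c) < 1 / 2 := by
    intro c
    constructor
    · intro hc
      exact (Finset.mem_filter.1 hc).2
    · intro hc
      exact Finset.mem_filter.2 ⟨key c hc, hc⟩
  refine ⟨μ, Finset.filter_subset _ _, ⟨hh.1, ?_⟩, fun c hc => (hμ c).2 hc⟩
  constructor
  · intro c
    have hc : (c : ℕ × ℕ) ∈ μ.cells := (Finset.mem_inter.1 c.2).1
    have h1 := (hμ c).1 hc
    have h2 := qf_ge hb hg.nb hh.1 (cl u j c)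
    simp only [qf] at h1 h2
    constructor
    · linarith
    · linarith
  · intro c c' hc
    have := qf_mono (b := b) hb hh.1 (u := u) (v := v) j hc
    simp only [qf] at this
    linarith

theorem pow_sum_le (k : Fin 6 → ℕ) :
    (75 : ℝ≥0∞) ^ (∑ j, k j) ≤ ∑ j, ((75 : ℝ≥0∞) ^ 6) ^ (k j) := by
  obtain ⟨m, _, hm⟩ := Finset.exists_max_image (Finset.univ : Finset (Fin 6)) k
    Finset.univ_nonempty
  have h1 : ∑ j, k j ≤ 6 * k m := by
    calc ∑ j, k j ≤ ∑ _j : Fin 6, k m := Finset.sum_le_sum (fun j hj => hm j hj)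
      _ = 6 * k m := by simp
  calc (75 : ℝ≥0∞) ^ (∑ j, k j) ≤ 75 ^ (6 * k m) :=
        pow_le_pow_right₀ (by norm_num) h1
    _ = ((75 : ℝ≥0∞) ^ 6) ^ (k m) := by rw [pow_mul]
    _ ≤ ∑ j, ((75 : ℝ≥0∞) ^ 6) ^ (k j) :=
        Finset.single_le_sum (f := fun j => ((75 : ℝ≥0∞) ^ 6) ^ (k j)) (fun _ _ => zero_le)
          (Finset.mem_univ m)

theorem Nn_le_sum {D : Finset (ℤ × ℤ)} {b : ℤ × ℤ → ℝ} {u v : ℤ × ℤ} {h : D → ℝ}
    {μ : Fin 6 → YoungDiagram}
    (hμ : ∀ j, ∀ c : ℕ × ℕ, qf D b u v h (cl u j c) < 1 / 2 → c ∈ (μ j).cells) :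
    Nn D b u v h ≤ ∑ j, (μ j).card := by
  classical
  have hsub : Ns D b u v h ⊆
      Finset.univ.biUnion (fun j : Fin 6 => ((μ j).cells).image (cl u j)) := by
    intro x hx
    have hx' : x ∈ D ∧ x ≠ u ∧ x ≠ v ∧ qf D b u v h x < 1 / 2 := by
      unfold Ns at hx
      simpa using hx
    obtain ⟨j, c, rfl⟩ := cl_surj hx'.2.1
    refine Finset.mem_biUnion.2 ⟨j, Finset.mem_univ _, Finset.mem_image_of_mem _ ?_⟩
    exact hμ j c hx'.2.2.2
  calc Nn D b u v h ≤ (Finset.univ.biUnion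
        (fun j : Fin 6 => ((μ j).cells).image (cl u j))).card := Finset.card_le_card hsub
    _ ≤ ∑ j : Fin 6, (((μ j).cells).image (cl u j)).card := Finset.card_biUnion_le
    _ ≤ ∑ j, (μ j).card := Finset.sum_le_sum (fun j _ => Finset.card_image_le)

/-- THE EXPONENTIAL MOMENT -/
theorem exp_moment : ∃ C : ℝ≥0∞, C < ⊤ ∧ ∀ (D : Finset (ℤ × ℤ)) (b : ℤ × ℤ → ℝ),
    (∀ z, |b z| ≤ 1 / 2) → ∀ u v : ℤ × ℤ, Good D b u v →
      ∫⁻ h : D → ℝ, (Reg D b v).indicator (fun h => (75 : ℝ≥0∞) ^ (Nn D b u v h)) h ≤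
        C * volume (K D b) := by
  classical
  obtain ⟨Q, C, hQ, hC, HC⟩ := young_series
  refine ⟨6 * C, ENNReal.mul_lt_top (by norm_num) hC, ?_⟩
  intro D b hb u v hg
  let F : Fin 6 → Finset YoungDiagram := fun j => (Cy_finite D u v j).toFinset
  have hF : ∀ j μ, μ ∈ F j ↔ μ ∈ Cy D u v j := fun j μ => by simp [F]
  have hpt : ∀ h : D → ℝ, (Reg D b v).indicator (fun h => (75 : ℝ≥0∞) ^ (Nn D b u v h)) h ≤
      ∑ j, ∑ μ ∈ F j, (Ev D b u v j μ).indicator (fun _ => ((75 : ℝ≥0∞) ^ 6) ^ μ.card) h := by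
    intro h
    by_cases hh : h ∈ Reg D b v
    · rw [Set.indicator_of_mem hh]
      choose μ h1 h2 h3 using exists_diag hb hg hh
      calc (75 : ℝ≥0∞) ^ (Nn D b u v h) ≤ 75 ^ (∑ j, (μ j).card) :=
            pow_le_pow_right₀ (by norm_num) (Nn_le_sum h3)
        _ ≤ ∑ j, ((75 : ℝ≥0∞) ^ 6) ^ (μ j).card := pow_sum_le _
        _ ≤ _ := by
            refine Finset.sum_le_sum (fun j _ => ?_)
            have : ((75 : ℝ≥0∞) ^ 6) ^ (μ j).card = (Ev D b u v j (μ j)).indicator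
                (fun _ => ((75 : ℝ≥0∞) ^ 6) ^ (μ j).card) h := by
              rw [Set.indicator_of_mem (h2 j)]
            rw [this]
            exact Finset.single_le_sum (f := fun μ => (Ev D b u v j μ).indicator
                (fun _ => ((75 : ℝ≥0∞) ^ 6) ^ μ.card) h) (fun _ _ => zero_le)
              ((hF j (μ j)).2 (h1 j))
    · rw [Set.indicator_of_notMem hh]
      exact zero_le
  calc ∫⁻ h : D → ℝ, (Reg D b v).indicator (fun h => (75 : ℝ≥0∞) ^ (Nn D b u v h)) h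
      ≤ ∫⁻ h : D → ℝ, ∑ j, ∑ μ ∈ F j,
          (Ev D b u v j μ).indicator (fun _ => ((75 : ℝ≥0∞) ^ 6) ^ μ.card) h :=
        lintegral_mono hpt
    _ = ∑ j, ∑ μ ∈ F j, ((75 : ℝ≥0∞) ^ 6) ^ μ.card * volume (Ev D b u v j μ) := by
        rw [lintegral_finsetSum]
        · refine Finset.sum_congr rfl (fun j _ => ?_)
          rw [lintegral_finsetSum]
          · refine Finset.sum_congr rfl (fun μ _ => ?_)
            rw [lintegral_indicator_const (Ev_meas D b u v j μ)]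
          · intro μ _
            exact measurable_const.indicator (Ev_meas D b u v j μ)
        · intro j _
          refine Finset.measurable_sum _ (fun μ _ => ?_)
          exact measurable_const.indicator (Ev_meas D b u v j μ)
    _ ≤ ∑ j : Fin 6, C * volume (K D b) := by
        refine Finset.sum_le_sum (fun j _ => ?_)
        calc ∑ μ ∈ F j, ((75 : ℝ≥0∞) ^ 6) ^ μ.card * volume (Ev D b u v j μ)
            ≤ ∑ μ ∈ F j, (((75 : ℝ≥0∞) ^ 6) ^ μ.card * (2 ^ (43 * μ.card + 7) *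
                ENNReal.ofReal ((5 / 2 : ℝ) ^ μ.card / ((Q ^ (μ.card - Q ^ 4) : ℕ) : ℝ)))) *
                  volume (K D b) := by
              refine Finset.sum_le_sum (fun μ hμ => ?_)
              rw [mul_assoc]
              gcongr
              exact Ev_vol hb ((hF j μ).1 hμ) Q hQ
          _ = (∑ μ ∈ F j, ((75 : ℝ≥0∞) ^ 6) ^ μ.card * (2 ^ (43 * μ.card + 7) *
                ENNReal.ofReal ((5 / 2 : ℝ) ^ μ.card / ((Q ^ (μ.card - Q ^ 4) : ℕ) : ℝ)))) *
                  volume (K D b) := by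
              rw [Finset.sum_mul]
          _ ≤ C * volume (K D b) := by
              gcongr
              exact HC (F j)
    _ = 6 * C * volume (K D b) := by
        simp [mul_assoc]

end Pool.Agent.Hmk
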