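import Pool.Agent.Hmk.Fct
import Pool.Agent.Hmk.Em

/-!
# Hmk: assembly of the local inequality (PART B)
-/

set_option autoImplicit false

open MeasureTheory Set Filter
open scoped ENNReal

noncomputable section

namespace Pool.Agent.Hmk

/-- the factor of the facet term, tends to `0` for `s → ∞` -/
def fs (D : Finset (ℤ × ℤ)) (s : ℝ) : ℝ≥0∞ :=
  2 * 5 ^ D.card * ENNReal.ofReal (6 * (2 * ((D.card : ℝ) + 1)) ^ D.card / s) ^ (1 / 2 : ℝ)

/-- the energies in the facet term -/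
def Lq (D : Finset (ℤ × ℤ)) (b : ℤ × ℤ → ℝ) (s : ℝ) (u v : ℤ × ℤ) (g : (D → ℝ) → ℝ) : ℝ≥0∞ :=
  (∫⁻ h in K D b, ENNReal.ofReal (Us2 s (gl D b h u - gl D b h v) * (g h) ^ 2)) ^ (1 / 2 : ℝ) +
    (∫⁻ h in K D b, ENNReal.ofReal (gr g h)) ^ (1 / 2 : ℝ)

/-- `∫_K |∇g|^2` -/
def Gr (D : Finset (ℤ × ℤ)) (b : ℤ × ℤ → ℝ) (g : (D → ℝ) → ℝ) : ℝ≥0∞ :=
  ∫⁻ h in K D b, ENNReal.ofReal (gr g h)

/-- the local inequality with constant `C` -/
def LocC (C : ℝ≥0∞) : Prop :=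
  ∀ (D : Finset (ℤ × ℤ)) (b : ℤ × ℤ → ℝ), (∀ z, |b z| ≤ 1 / 2) → ∀ u v, Good D b u v →
    ∀ g : (D → ℝ) → ℝ, ContDiff ℝ 1 g → ∀ s : ℝ, 1 ≤ s →
      ∫⁻ h in Reg D b v, ENNReal.ofReal |g h| ≤
        C * Z D b ^ (1 / 2 : ℝ) * Gr D b g ^ (1 / 2 : ℝ) + fs D s * Lq D b s u v g

/- MODULE ka
`local_ineq`, `exp_moment` (`(C₀ Z)^(1/2) = C₀^(1/2) Z^(1/2)`), `facet_est`. -/
theorem loc_exists : ∃ C : ℝ≥0∞, C < ⊤ ∧ LocC C := by
  obtain ⟨C₀, hC₀, H⟩ := exp_moment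
  refine ⟨4 * C₀ ^ (1 / 2 : ℝ), ENNReal.mul_lt_top (by norm_num)
    (ENNReal.rpow_lt_top_of_nonneg (by norm_num) hC₀.ne), ?_⟩
  intro D b hb u v hg g hd s hs
  refine (local_ineq hb hg hd).trans ?_
  have h1 : ∫⁻ h in Reg D b v, (75 : ℝ≥0∞) ^ (Nn D b u v h) ≤ C₀ * Z D b := by
    rw [← lintegral_indicator (Reg_meas D b v)]
    exact H D b hb u v hg
  have h2 : (∫⁻ h in Reg D b v, (75 : ℝ≥0∞) ^ (Nn D b u v h)) ^ (1 / 2 : ℝ) ≤
      C₀ ^ (1 / 2 : ℝ) * Z D b ^ (1 / 2 : ℝ) := by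
    rw [← ENNReal.mul_rpow_of_nonneg _ _ (by norm_num)]
    exact ENNReal.rpow_le_rpow h1 (by norm_num)
  refine add_le_add ?_ ?_
  · calc 4 * (∫⁻ h in K D b, ENNReal.ofReal (gr g h)) ^ (1 / 2 : ℝ) *
        (∫⁻ h in Reg D b v, (75 : ℝ≥0∞) ^ (Nn D b u v h)) ^ (1 / 2 : ℝ)
        ≤ 4 * (∫⁻ h in K D b, ENNReal.ofReal (gr g h)) ^ (1 / 2 : ℝ) *
          (C₀ ^ (1 / 2 : ℝ) * Z D b ^ (1 / 2 : ℝ)) := by gcongr
      _ = 4 * C₀ ^ (1 / 2 : ℝ) * Z D b ^ (1 / 2 : ℝ) * Gr D b g ^ (1 / 2 : ℝ) := by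
        unfold Gr; ring
  · calc 2 * 5 ^ D.card * ∫⁻ h in Qset D b u v, ENNReal.ofReal |g (Pm D b u v h)|
        ≤ 2 * 5 ^ D.card *
          (ENNReal.ofReal (6 * (2 * ((D.card : ℝ) + 1)) ^ D.card / s) ^ (1 / 2 : ℝ) *
          ((∫⁻ h in K D b, ENNReal.ofReal (Us2 s (gl D b h u - gl D b h v) * (g h) ^ 2)) ^
            (1 / 2 : ℝ) + (∫⁻ h in K D b, ENNReal.ofReal (gr g h)) ^ (1 / 2 : ℝ))) := by
          gcongr
          exact facet_est hb hg hd hs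
      _ = fs D s * Lq D b s u v g := by
          unfold fs Lq; ring
/- END ka -/

private theorem kb_gl (D : Finset (ℤ × ℤ)) (b : ℤ × ℤ → ℝ) (h : D → ℝ) (z : ℤ × ℤ) :
    gl D (fun z => - b z) (-h) z = - gl D b h z := by
  unfold gl
  split_ifs <;> simp

private theorem kb_K (D : Finset (ℤ × ℤ)) (b : ℤ × ℤ → ℝ) (h : D → ℝ) :
    -h ∈ K D (fun z => - b z) ↔ h ∈ K D b := by
  unfold K
  simp only [mem_ofPred_eq, kb_gl]
  refine forall₂_congr fun x _ => forall_congr' fun i => ?_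
  rw [show -gl D b h x - -gl D b h (x + st i) = -(gl D b h x - gl D b h (x + st i)) by ring, abs_neg]

private theorem kb_int (D : Finset (ℤ × ℤ)) (S T : Set (D → ℝ)) (hST : ∀ h, -h ∈ T ↔ h ∈ S)
    (f : (D → ℝ) → ℝ≥0∞) : ∫⁻ h in T, f h = ∫⁻ h in S, f (-h) := by
  have hm : MeasurePreserving (fun h : D → ℝ => -h) volume volume :=
    Measure.measurePreserving_neg volume
  have := hm.setLIntegral_comp_preimage_emb (MeasurableEquiv.neg (D → ℝ)).measurableEmbedding f T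
  rw [← this]
  have hS : (fun h : D → ℝ => -h) ⁻¹' T = S := by
    ext h
    exact hST h
  rw [hS]

private theorem kb_gr (D : Finset (ℤ × ℤ)) {g : (D → ℝ) → ℝ} (hd : ContDiff ℝ 1 g) (h : D → ℝ) :
    gr (fun h => g (-h)) (-h) = gr g h := by
  unfold gr pd
  refine Finset.sum_congr rfl fun x _ => ?_
  have h1 : HasFDerivAt (fun h : D → ℝ => g (-h)) ((fderiv ℝ g h).comp (-ContinuousLinearMap.id ℝ (D → ℝ)))
      (-h) := by
    have h2 : HasFDerivAt g (fderiv ℝ g h) (-(-h)) := by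
      rw [neg_neg]
      exact ((hd.differentiable (by simp)) h).hasFDerivAt
    exact h2.comp (-h) (hasFDerivAt_id _).neg
  rw [h1.fderiv]
  simp

/- MODULE kb
Reflection `h ↦ -h`, `b ↦ -b`: `K D (-b) = -K D b`, `gl D (-b) (-h) = - gl D b h`, volume is
invariant, `gr (g ∘ neg) h = gr g (-h)`, `Us2` is even.  `LocC` for `-b` and `g ∘ neg`. -/
theorem loc_up {C : ℝ≥0∞} (hC : LocC C) {D : Finset (ℤ × ℤ)} {b : ℤ × ℤ → ℝ}
    (hb : ∀ z, |b z| ≤ 1 / 2) {u v : ℤ × ℤ} (hg : Good D (fun z => - b z) u v)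
    {g : (D → ℝ) → ℝ} (hd : ContDiff ℝ 1 g) {s : ℝ} (hs : 1 ≤ s) :
    ∫⁻ h in {h | h ∈ K D b ∧ 0 ≤ gl D b h v}, ENNReal.ofReal |g h| ≤
      C * Z D b ^ (1 / 2 : ℝ) * Gr D b g ^ (1 / 2 : ℝ) + fs D s * Lq D b s u v g := by
  have hg' : ContDiff ℝ 1 (fun h : D → ℝ => g (-h)) := hd.comp contDiff_neg
  have key := hC D (fun z => - b z) (fun z => by rw [abs_neg]; exact hb z) u v hg
    (fun h => g (-h)) hg' s hs
  have e1 : ∫⁻ h in Reg D (fun z => - b z) v, ENNReal.ofReal |g (-h)| =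
      ∫⁻ h in {h | h ∈ K D b ∧ 0 ≤ gl D b h v}, ENNReal.ofReal |g h| := by
    rw [kb_int D {h | h ∈ K D b ∧ 0 ≤ gl D b h v} (Reg D (fun z => - b z) v)]
    · simp only [neg_neg]
    · intro h
      unfold Reg
      simp only [mem_ofPred_eq, kb_gl, kb_K, Left.neg_nonpos_iff]
  have e2 : Z D (fun z => - b z) = Z D b := by
    unfold Z
    have := kb_int D (K D b) (K D (fun z => - b z)) (kb_K D b) (fun _ => 1)
    simpa using this
  have e3 : Gr D (fun z => - b z) (fun h => g (-h)) = Gr D b g := by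
    unfold Gr
    rw [kb_int D (K D b) (K D (fun z => - b z)) (kb_K D b)]
    simp only [kb_gr D hd]
  have e4 : Lq D (fun z => - b z) s u v (fun h => g (-h)) = Lq D b s u v g := by
    unfold Lq
    rw [kb_int D (K D b) (K D (fun z => - b z)) (kb_K D b),
      kb_int D (K D b) (K D (fun z => - b z)) (kb_K D b)]
    simp only [kb_gr D hd, kb_gl, neg_neg]
    have : ∀ h : D → ℝ, Us2 s (-gl D b h u - -gl D b h v) = Us2 s (gl D b h u - gl D b h v) := by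
      intro h
      rw [show -gl D b h u - -gl D b h v = -(gl D b h u - gl D b h v) by ring, Us2_even]
    simp only [this]
  rw [e1, e2, e3, e4] at key
  exact key
/- END kb -/

/- MODULE kc
No fixed neighbour of `u`: `K` is the union of `Reg D b v` and the region of `loc_up`. -/
theorem loc_free {C : ℝ≥0∞} (hC : LocC C) {D : Finset (ℤ × ℤ)} {b : ℤ × ℤ → ℝ}
    (hb : ∀ z, |b z| ≤ 1 / 2) {u : ℤ × ℤ} (hu : u ∈ D) (hf : ∀ i, u + st i ∈ D) (i : Fin 6)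
    {g : (D → ℝ) → ℝ} (hd : ContDiff ℝ 1 g) {s : ℝ} (hs : 1 ≤ s) :
    ∫⁻ h in K D b, ENNReal.ofReal |g h| ≤
      2 * (C * Z D b ^ (1 / 2 : ℝ) * Gr D b g ^ (1 / 2 : ℝ) +
        fs D s * Lq D b s u (u + st i) g) := by
  have hg1 : Good D b u (u + st i) := ⟨hu, ⟨i, rfl⟩, fun j hj => absurd (hf j) hj⟩
  have hg2 : Good D (fun z => - b z) u (u + st i) := ⟨hu, ⟨i, rfl⟩, fun j hj => absurd (hf j) hj⟩
  have h1 := hC D b hb u (u + st i) hg1 g hd s hs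
  have h2 := loc_up hC hb hg2 hd hs
  have h3 : K D b ⊆ Reg D b (u + st i) ∪ {h | h ∈ K D b ∧ 0 ≤ gl D b h (u + st i)} := by
    intro h hh
    rcases le_total (gl D b h (u + st i)) 0 with h4 | h4
    · exact Or.inl ⟨hh, h4⟩
    · exact Or.inr ⟨hh, h4⟩
  refine (lintegral_mono_set h3).trans ((lintegral_union_le _ _ _).trans ?_)
  rw [two_mul]
  exact add_le_add h1 h2
/- END kc -/

/- MODULE kd
`u` has a fixed neighbour.  Take the fixed neighbour `v` with the least value `b v`; if `b v ≤ 0`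
then `Reg D b v = K D b` and the pair is good.  If `b v > 0` then all fixed neighbours have positive
values; take the one with the largest value and use `loc_up` (its region is `K D b`). -/
theorem loc_fix {C : ℝ≥0∞} (hC : LocC C) {D : Finset (ℤ × ℤ)} {b : ℤ × ℤ → ℝ}
    (hb : ∀ z, |b z| ≤ 1 / 2) {u : ℤ × ℤ} (hu : u ∈ D) (hf : ∃ i, u + st i ∉ D) :
    ∃ i, u + st i ∉ D ∧ ∀ g : (D → ℝ) → ℝ, ContDiff ℝ 1 g → ∀ s : ℝ, 1 ≤ s →
      ∫⁻ h in K D b, ENNReal.ofReal |g h| ≤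
        C * Z D b ^ (1 / 2 : ℝ) * Gr D b g ^ (1 / 2 : ℝ) +
          fs D s * Lq D b s u (u + st i) g := by
  classical
  have hne : (Finset.univ.filter (fun i : Fin 6 => u + st i ∉ D)).Nonempty := by
    obtain ⟨i, hi⟩ := hf
    exact ⟨i, by simpa using hi⟩
  obtain ⟨i, hi, hmin⟩ := Finset.exists_min_image _ (fun i : Fin 6 => b (u + st i)) hne
  obtain ⟨j, hj, hmax⟩ := Finset.exists_max_image _ (fun i : Fin 6 => b (u + st i)) hne
  simp only [Finset.mem_filter, Finset.mem_univ, true_and] at hi hj hmin hmax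
  by_cases h0 : b (u + st i) ≤ 0
  · refine ⟨i, hi, fun g hg s hs => ?_⟩
    have hgood : Good D b u (u + st i) := ⟨hu, ⟨i, rfl⟩, fun k hk => ⟨hi, hmin k hk⟩⟩
    have := hC D b hb u _ hgood g hg s hs
    have hR : Reg D b (u + st i) = K D b := by
      ext h
      simp only [Reg, mem_ofPred_eq, and_iff_left_iff_imp]
      intro _
      simpa [gl, hi] using h0
    rwa [hR] at this
  · refine ⟨j, hj, fun g hg s hs => ?_⟩
    have hgood : Good D (fun z => - b z) u (u + st j) :=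
      ⟨hu, ⟨j, rfl⟩, fun k hk => ⟨hj, neg_le_neg (hmax k hk)⟩⟩
    have := loc_up hC hb hgood hg hs
    have hR : {h : D → ℝ | h ∈ K D b ∧ 0 ≤ gl D b h (u + st j)} = K D b := by
      ext h
      simp only [mem_ofPred_eq, and_iff_left_iff_imp]
      intro _
      have h1 := hmax i hi
      have : 0 ≤ b (u + st j) := by linarith
      simpa [gl, hj] using this
    rwa [hR] at this
/- END kd -/

/-- `∫_K |∇ w_z|^2`, zero for `z ∉ D` -/
def Tg (D : Finset (ℤ × ℤ)) (b : ℤ × ℤ → ℝ) (w : D → (D → ℝ) → ℝ) (z : ℤ × ℤ) : ℝ≥0∞ :=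
  if hz : z ∈ D then Gr D b (w ⟨z, hz⟩) else 0

/-- `∑ ∫_K |∇ w_x|^2` -/
def ET (D : Finset (ℤ × ℤ)) (b : ℤ × ℤ → ℝ) (w : D → (D → ℝ) → ℝ) : ℝ≥0∞ :=
  ∑ x, Gr D b (w x)

/-- `∑ ∫_K U'' (w_x - w_y)^2` -/
def E2 (D : Finset (ℤ × ℤ)) (b : ℤ × ℤ → ℝ) (s : ℝ) (w : D → (D → ℝ) → ℝ) : ℝ≥0∞ :=
  ∑ x ∈ D, ∑ i, ∫⁻ h in K D b, ENNReal.ofReal
    (Us2 s (gl D b h x - gl D b h (x + st i)) *
      (g0 D (fun y => w y h) x - g0 D (fun y => w y h) (x + st i)) ^ 2)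

/- MODULE ke
The edge `x, y = x + st i`, `x ∈ D`; `w_z = g0 D (w · h) z`.
(a) `x` has no fixed neighbour (so `y ∈ D`): `loc_free` with `u = x`, `g = w_x - w_y`;
`gr g ≤ 2 gr w_x + 2 gr w_y`, so `(Gr g)^(1/2) ≤ 2 (Tg x ^(1/2) + Tg y ^(1/2))`, and
`Lq ≤ E2^(1/2) + 2 (Tg x ^(1/2) + Tg y ^(1/2)) ≤ E2^(1/2) + 4 ET^(1/2)`.
(b) `y ∈ D` has no fixed neighbour: the same with `u = y`, direction `i + 3` (`st_neg`, `Us2_even`).
(c) `x` has a fixed neighbour and `y ∉ D`: `loc_fix` for `x` and `g = w_x` (`w_y = 0`); the term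
`U'' (H x - H (x + st j)) w_x ^ 2` with `x + st j ∉ D` occurs in `E2`.
(d) `x` and `y ∈ D` have fixed neighbours: `|w_x - w_y| ≤ |w_x| + |w_y|`, `loc_fix` twice. -/
/- private lemmas of ke -/
private theorem ke_g0 {D : Finset (ℤ × ℤ)} (k : D → ℝ) {x : ℤ × ℤ} (hx : x ∈ D) :
    g0 D k x = k ⟨x, hx⟩ := by
  unfold g0 gl
  rw [dif_pos hx]

private theorem ke_g0' {D : Finset (ℤ × ℤ)} (k : D → ℝ) {x : ℤ × ℤ} (hx : x ∉ D) :
    g0 D k x = 0 := by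
  unfold g0 gl
  rw [dif_neg hx]

private theorem ke_T {D : Finset (ℤ × ℤ)} {b : ℤ × ℤ → ℝ} (w : D → (D → ℝ) → ℝ) {x : ℤ × ℤ}
    (hx : x ∈ D) : Tg D b w x = Gr D b (w ⟨x, hx⟩) := by
  unfold Tg
  rw [dif_pos hx]

private theorem ke_ET {D : Finset (ℤ × ℤ)} {b : ℤ × ℤ → ℝ} (w : D → (D → ℝ) → ℝ) {x : ℤ × ℤ}
    (hx : x ∈ D) : Tg D b w x ≤ ET D b w := by
  rw [ke_T w hx]
  exact Finset.single_le_sum (f := fun x : D => Gr D b (w x)) (fun _ _ => zero_le)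
    (Finset.mem_univ (⟨x, hx⟩ : D))

private theorem ke_E2 {D : Finset (ℤ × ℤ)} {b : ℤ × ℤ → ℝ} {s : ℝ} (w : D → (D → ℝ) → ℝ)
    {x : ℤ × ℤ} (hx : x ∈ D) (i : Fin 6) :
    ∫⁻ h in K D b, ENNReal.ofReal
    (Us2 s (gl D b h x - gl D b h (x + st i)) *
      (g0 D (fun y => w y h) x - g0 D (fun y => w y h) (x + st i)) ^ 2) ≤ E2 D b s w := by
  unfold E2
  refine le_trans ?_ (Finset.single_le_sum (f := fun x : ℤ × ℤ => ∑ i, ∫⁻ h in K D b,
    ENNReal.ofReal (Us2 s (gl D b h x - gl D b h (x + st i)) *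
      (g0 D (fun y => w y h) x - g0 D (fun y => w y h) (x + st i)) ^ 2)) (fun _ _ => zero_le) hx)
  exact Finset.single_le_sum (f := fun i : Fin 6 => ∫⁻ h in K D b,
    ENNReal.ofReal (Us2 s (gl D b h x - gl D b h (x + st i)) *
      (g0 D (fun y => w y h) x - g0 D (fun y => w y h) (x + st i)) ^ 2)) (fun _ _ => zero_le)
      (Finset.mem_univ i)

private theorem ke_gm {ι : Type*} [Fintype ι] [DecidableEq ι] {f : (ι → ℝ) → ℝ}
    (hf : ContDiff ℝ 1 f) : Continuous (gr f) := by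
  unfold gr pd
  have h1 : Continuous (fderiv ℝ f) := hf.continuous_fderiv (by norm_num)
  exact continuous_finset_sum _ fun x _ => (h1.clm_apply continuous_const).pow 2

private theorem ke_gs {ι : Type*} [Fintype ι] [DecidableEq ι] {f g : (ι → ℝ) → ℝ}
    (hf : ContDiff ℝ 1 f) (hg : ContDiff ℝ 1 g) (h : ι → ℝ) :
    gr (fun h => f h - g h) h ≤ 2 * gr f h + 2 * gr g h := by
  unfold gr
  rw [Finset.mul_sum, Finset.mul_sum, ← Finset.sum_add_distrib]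
  refine Finset.sum_le_sum fun x _ => ?_
  have h1 : pd x (fun h => f h - g h) h = pd x f h - pd x g h := by
    unfold pd
    rw [fderiv_fun_sub ((hf.differentiable (by norm_num)) h) ((hg.differentiable (by norm_num)) h)]
    rfl
  rw [h1]
  nlinarith [sq_nonneg (pd x f h + pd x g h)]

private theorem ke_Gr {D : Finset (ℤ × ℤ)} {b : ℤ × ℤ → ℝ} {f g : (D → ℝ) → ℝ}
    (hf : ContDiff ℝ 1 f) (hg : ContDiff ℝ 1 g) :
    Gr D b (fun h => f h - g h) ≤ 2 * Gr D b f + 2 * Gr D b g := by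
  unfold Gr
  have mf : Measurable fun h => ENNReal.ofReal (gr f h) :=
    ENNReal.measurable_ofReal.comp (ke_gm hf).measurable
  have mg : Measurable fun h => ENNReal.ofReal (gr g h) :=
    ENNReal.measurable_ofReal.comp (ke_gm hg).measurable
  rw [← lintegral_const_mul _ mf, ← lintegral_const_mul _ mg,
    ← lintegral_add_left (mf.const_mul _)]
  refine lintegral_mono fun h => ?_
  have h0 : ∀ f : (D → ℝ) → ℝ, 0 ≤ gr f h := fun f => Finset.sum_nonneg fun x _ => sq_nonneg _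
  have h1 := ke_gs hf hg h
  calc ENNReal.ofReal (gr (fun h => f h - g h) h) ≤
        ENNReal.ofReal (2 * gr f h + 2 * gr g h) := ENNReal.ofReal_le_ofReal h1
    _ = _ := by
        rw [ENNReal.ofReal_add (by have := h0 f; positivity) (by have := h0 g; positivity),
          ENNReal.ofReal_mul (by norm_num), ENNReal.ofReal_mul (by norm_num)]
        simp

private theorem ke_rt (a : ℝ≥0∞) : (2 * a) ^ (1 / 2 : ℝ) ≤ 2 * a ^ (1 / 2 : ℝ) := by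
  rw [ENNReal.mul_rpow_of_nonneg _ _ (by norm_num)]
  refine mul_le_mul' ?_ le_rfl
  calc (2 : ℝ≥0∞) ^ (1 / 2 : ℝ) ≤ 2 ^ (1 : ℝ) :=
        ENNReal.rpow_le_rpow_of_exponent_le (by norm_num) (by norm_num)
    _ = 2 := ENNReal.rpow_one 2

private theorem ke_rt2 (a b : ℝ≥0∞) :
    (2 * a + 2 * b) ^ (1 / 2 : ℝ) ≤ 2 * (a ^ (1 / 2 : ℝ) + b ^ (1 / 2 : ℝ)) := by
  calc (2 * a + 2 * b) ^ (1 / 2 : ℝ) ≤ (2 * a) ^ (1 / 2 : ℝ) + (2 * b) ^ (1 / 2 : ℝ) :=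
        ENNReal.rpow_add_le_add_rpow _ _ (by norm_num) (by norm_num)
    _ ≤ 2 * a ^ (1 / 2 : ℝ) + 2 * b ^ (1 / 2 : ℝ) := add_le_add (ke_rt a) (ke_rt b)
    _ = _ := by ring

private theorem ke_fix {C : ℝ≥0∞} (hC : LocC C) {D : Finset (ℤ × ℤ)} {b : ℤ × ℤ → ℝ}
    (hb : ∀ z, |b z| ≤ 1 / 2) {w : D → (D → ℝ) → ℝ} (hw : ∀ x, ContDiff ℝ 1 (w x)) {s : ℝ}
    (hs : 1 ≤ s) {x : ℤ × ℤ} (hx : x ∈ D) (hf : ∃ i, x + st i ∉ D) :
    ∫⁻ h in K D b, ENNReal.ofReal |w ⟨x, hx⟩ h| ≤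
      C * Z D b ^ (1 / 2 : ℝ) * Tg D b w x ^ (1 / 2 : ℝ) +
        fs D s * (E2 D b s w ^ (1 / 2 : ℝ) + ET D b w ^ (1 / 2 : ℝ)) := by
  obtain ⟨j, hj, H⟩ := loc_fix hC hb hx hf
  refine (H (w ⟨x, hx⟩) (hw _) s hs).trans ?_
  rw [← ke_T w hx]
  refine add_le_add le_rfl (mul_le_mul' le_rfl ?_)
  unfold Lq
  refine add_le_add ?_ ?_
  · refine ENNReal.rpow_le_rpow ?_ (by norm_num)
    refine le_trans (le_of_eq ?_) (ke_E2 w hx j)
    refine lintegral_congr fun h => ?_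
    rw [ke_g0 _ hx, ke_g0' _ hj, sub_zero]
  · refine ENNReal.rpow_le_rpow ?_ (by norm_num)
    have h1 := ke_ET (b := b) w hx
    rw [ke_T w hx] at h1
    exact h1

private theorem ke_free {C : ℝ≥0∞} (hC : LocC C) {D : Finset (ℤ × ℤ)} {b : ℤ × ℤ → ℝ}
    (hb : ∀ z, |b z| ≤ 1 / 2) {w : D → (D → ℝ) → ℝ} (hw : ∀ x, ContDiff ℝ 1 (w x)) {s : ℝ}
    (hs : 1 ≤ s) {x : ℤ × ℤ} (hx : x ∈ D) (hf : ∀ i, x + st i ∈ D) (i : Fin 6) :
    ∫⁻ h in K D b, ENNReal.ofReal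
        |g0 D (fun y => w y h) x - g0 D (fun y => w y h) (x + st i)| ≤
      4 * C * Z D b ^ (1 / 2 : ℝ) * (Tg D b w x ^ (1 / 2 : ℝ) + Tg D b w (x + st i) ^ (1 / 2 : ℝ)) +
        8 * fs D s * (E2 D b s w ^ (1 / 2 : ℝ) + ET D b w ^ (1 / 2 : ℝ)) := by
  have hy := hf i
  have h1 := loc_free hC hb hx hf i (g := fun h => w ⟨x, hx⟩ h - w ⟨x + st i, hy⟩ h)
    ((hw _).sub (hw _)) hs
  have h2 : ∫⁻ h in K D b, ENNReal.ofReal
        |g0 D (fun y => w y h) x - g0 D (fun y => w y h) (x + st i)| =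
      ∫⁻ h in K D b, ENNReal.ofReal |w ⟨x, hx⟩ h - w ⟨x + st i, hy⟩ h| := by
    refine lintegral_congr fun h => ?_
    rw [ke_g0 _ hx, ke_g0 _ hy]
  rw [h2]
  refine h1.trans ?_
  have h3 : Gr D b (fun h => w ⟨x, hx⟩ h - w ⟨x + st i, hy⟩ h) ^ (1 / 2 : ℝ) ≤
      2 * (Tg D b w x ^ (1 / 2 : ℝ) + Tg D b w (x + st i) ^ (1 / 2 : ℝ)) := by
    refine le_trans (ENNReal.rpow_le_rpow (ke_Gr (hw _) (hw _)) (by norm_num)) ?_
    rw [ke_T w hx, ke_T w hy]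
    exact ke_rt2 _ _
  have h4 : Lq D b s x (x + st i) (fun h => w ⟨x, hx⟩ h - w ⟨x + st i, hy⟩ h) ≤
      4 * (E2 D b s w ^ (1 / 2 : ℝ) + ET D b w ^ (1 / 2 : ℝ)) := by
    unfold Lq
    have h5 : (∫⁻ h in K D b, ENNReal.ofReal (Us2 s (gl D b h x - gl D b h (x + st i)) *
        (w ⟨x, hx⟩ h - w ⟨x + st i, hy⟩ h) ^ 2)) ≤ E2 D b s w := by
      refine le_trans (le_of_eq ?_) (ke_E2 w hx i)
      refine lintegral_congr fun h => ?_
      rw [ke_g0 _ hx, ke_g0 _ hy]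
    have h6 : Tg D b w x ^ (1 / 2 : ℝ) ≤ ET D b w ^ (1 / 2 : ℝ) :=
      ENNReal.rpow_le_rpow (ke_ET w hx) (by norm_num)
    have h7 : Tg D b w (x + st i) ^ (1 / 2 : ℝ) ≤ ET D b w ^ (1 / 2 : ℝ) :=
      ENNReal.rpow_le_rpow (ke_ET w hy) (by norm_num)
    calc _ ≤ E2 D b s w ^ (1 / 2 : ℝ) +
          2 * (ET D b w ^ (1 / 2 : ℝ) + ET D b w ^ (1 / 2 : ℝ)) :=
          add_le_add (ENNReal.rpow_le_rpow h5 (by norm_num))
            (h3.trans (mul_le_mul' le_rfl (add_le_add h6 h7)))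
      _ = 1 * E2 D b s w ^ (1 / 2 : ℝ) + 4 * ET D b w ^ (1 / 2 : ℝ) := by ring
      _ ≤ 4 * E2 D b s w ^ (1 / 2 : ℝ) + 4 * ET D b w ^ (1 / 2 : ℝ) :=
          add_le_add (mul_le_mul' (by norm_num) le_rfl) le_rfl
      _ = _ := by ring
  calc _ ≤ 2 * (C * Z D b ^ (1 / 2 : ℝ) *
          (2 * (Tg D b w x ^ (1 / 2 : ℝ) + Tg D b w (x + st i) ^ (1 / 2 : ℝ))) +
          fs D s * (4 * (E2 D b s w ^ (1 / 2 : ℝ) + ET D b w ^ (1 / 2 : ℝ)))) :=
        mul_le_mul' le_rfl (add_le_add (mul_le_mul' le_rfl h3) (mul_le_mul' le_rfl h4))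
    _ = _ := by ring

private theorem ke_st (i : Fin 6) : ∃ j : Fin 6, st i + st j = 0 := by
  fin_cases i
  · exact ⟨3, by simp [st]⟩
  · exact ⟨4, by simp [st]⟩
  · exact ⟨5, by simp [st]⟩
  · exact ⟨0, by simp [st]⟩
  · exact ⟨1, by simp [st]⟩
  · exact ⟨2, by simp [st]⟩

theorem edge_est {C : ℝ≥0∞} (hC : LocC C) {D : Finset (ℤ × ℤ)} {b : ℤ × ℤ → ℝ}
    (hb : ∀ z, |b z| ≤ 1 / 2) {w : D → (D → ℝ) → ℝ} (hw : ∀ x, ContDiff ℝ 1 (w x)) {s : ℝ}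
    (hs : 1 ≤ s) {x : ℤ × ℤ} (hx : x ∈ D) (i : Fin 6) :
    ∫⁻ h in K D b, ENNReal.ofReal
        |g0 D (fun y => w y h) x - g0 D (fun y => w y h) (x + st i)| ≤
      4 * C * Z D b ^ (1 / 2 : ℝ) * (Tg D b w x ^ (1 / 2 : ℝ) + Tg D b w (x + st i) ^ (1 / 2 : ℝ)) +
        8 * fs D s * (E2 D b s w ^ (1 / 2 : ℝ) + ET D b w ^ (1 / 2 : ℝ)) := by
  by_cases hfx : ∀ j, x + st j ∈ D
  · exact ke_free hC hb hw hs hx hfx i
  push Not at hfx
  have h1 := ke_fix hC hb hw hs hx hfx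
  by_cases hy : x + st i ∈ D
  · by_cases hfy : ∀ j, (x + st i) + st j ∈ D
    · obtain ⟨j, hj⟩ := ke_st i
      have h2 := ke_free hC hb hw hs hy hfy j
      have h3 : x + st i + st j = x := by rw [add_assoc, hj, add_zero]
      rw [h3, add_comm (Tg D b w (x + st i) ^ (1 / 2 : ℝ))] at h2
      refine le_trans (le_of_eq ?_) h2
      refine lintegral_congr fun h => ?_
      rw [abs_sub_comm]
    · push Not at hfy
      have h2 := ke_fix hC hb hw hs hy hfy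
      have m1 : Measurable fun h => ENNReal.ofReal |w ⟨x, hx⟩ h| :=
        ENNReal.measurable_ofReal.comp (hw _).continuous.abs.measurable
      calc _ ≤ ∫⁻ h in K D b, (ENNReal.ofReal |w ⟨x, hx⟩ h| +
              ENNReal.ofReal |w ⟨x + st i, hy⟩ h|) := by
            refine lintegral_mono fun h => ?_
            rw [← ENNReal.ofReal_add (abs_nonneg _) (abs_nonneg _)]
            refine ENNReal.ofReal_le_ofReal ?_
            rw [ke_g0 _ hx, ke_g0 _ hy]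
            exact abs_sub _ _
        _ = (∫⁻ h in K D b, ENNReal.ofReal |w ⟨x, hx⟩ h|) +
              ∫⁻ h in K D b, ENNReal.ofReal |w ⟨x + st i, hy⟩ h| := lintegral_add_left m1 _
        _ ≤ _ := add_le_add h1 h2
        _ = 1 * (C * Z D b ^ (1 / 2 : ℝ) *
              (Tg D b w x ^ (1 / 2 : ℝ) + Tg D b w (x + st i) ^ (1 / 2 : ℝ))) +
            2 * (fs D s * (E2 D b s w ^ (1 / 2 : ℝ) + ET D b w ^ (1 / 2 : ℝ))) := by ring
        _ ≤ 4 * (C * Z D b ^ (1 / 2 : ℝ) *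
              (Tg D b w x ^ (1 / 2 : ℝ) + Tg D b w (x + st i) ^ (1 / 2 : ℝ))) +
            8 * (fs D s * (E2 D b s w ^ (1 / 2 : ℝ) + ET D b w ^ (1 / 2 : ℝ))) :=
            add_le_add (mul_le_mul' (by norm_num) le_rfl) (mul_le_mul' (by norm_num) le_rfl)
        _ = _ := by ring
  · calc _ = ∫⁻ h in K D b, ENNReal.ofReal |w ⟨x, hx⟩ h| := by
          refine lintegral_congr fun h => ?_
          rw [ke_g0 _ hx, ke_g0' _ hy, sub_zero]
      _ ≤ _ := h1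
      _ = 1 * (C * Z D b ^ (1 / 2 : ℝ) * (Tg D b w x ^ (1 / 2 : ℝ) + 0)) +
            1 * (fs D s * (E2 D b s w ^ (1 / 2 : ℝ) + ET D b w ^ (1 / 2 : ℝ))) := by ring
      _ ≤ 4 * (C * Z D b ^ (1 / 2 : ℝ) *
              (Tg D b w x ^ (1 / 2 : ℝ) + Tg D b w (x + st i) ^ (1 / 2 : ℝ))) +
            8 * (fs D s * (E2 D b s w ^ (1 / 2 : ℝ) + ET D b w ^ (1 / 2 : ℝ))) :=
            add_le_add (mul_le_mul' (by norm_num) (mul_le_mul' le_rfl (add_le_add le_rfl zero_le)))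
              (mul_le_mul' (by norm_num) le_rfl)
      _ = _ := by ring
/- END ke -/

/- MODULE kf
Sum over the edges: `(a + b)^2 ≤ 2 a^2 + 2 b^2` twice, `∑_{x ∈ D, i} (Tg x + Tg (x + st i)) ≤ 12 ET`
(every site is `x + st i` for at most six pairs), `6 |D|` edges. -/
/- private lemmas of kf -/
private theorem kf_sq (a b : ℝ≥0∞) : (a + b) ^ 2 ≤ 2 * a ^ 2 + 2 * b ^ 2 := by
  rcases eq_or_ne a ⊤ with rfl | ha
  · simp
  rcases eq_or_ne b ⊤ with rfl | hb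
  · simp
  lift a to NNReal using ha
  lift b to NNReal using hb
  norm_cast
  rw [← NNReal.coe_le_coe]
  push_cast
  nlinarith [sq_nonneg ((a : ℝ) - b)]

private theorem kf_rt (a : ℝ≥0∞) : (a ^ (1 / 2 : ℝ)) ^ 2 = a := by
  rw [← ENNReal.rpow_natCast, ← ENNReal.rpow_mul]
  norm_num

private theorem kf_ET {D : Finset (ℤ × ℤ)} {b : ℤ × ℤ → ℝ} (w : D → (D → ℝ) → ℝ) :
    ET D b w = ∑ x ∈ D, Tg D b w x := by
  unfold ET
  rw [← Finset.sum_coe_sort D (fun x => Tg D b w x)]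
  refine Finset.sum_congr rfl fun x _ => ?_
  rw [ke_T w x.2]

private theorem kf_sh {D : Finset (ℤ × ℤ)} {b : ℤ × ℤ → ℝ} (w : D → (D → ℝ) → ℝ) (t : ℤ × ℤ) :
    ∑ x ∈ D, Tg D b w (x + t) ≤ ET D b w := by
  classical
  rw [kf_ET w]
  have h1 : ∑ x ∈ D, Tg D b w (x + t) = ∑ z ∈ D.image (fun x => x + t), Tg D b w z := by
    rw [Finset.sum_image]
    intro x _ y _ hxy
    exact add_right_cancel hxy
  rw [h1]
  calc _ ≤ ∑ z ∈ D ∪ D.image (fun x => x + t), Tg D b w z :=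
        Finset.sum_le_sum_of_subset Finset.subset_union_right
    _ = ∑ z ∈ D, Tg D b w z := by
        refine (Finset.sum_subset Finset.subset_union_left fun z _ hz => ?_).symm
        unfold Tg
        rw [dif_neg hz]

theorem sum_est {C : ℝ≥0∞} (hC : LocC C) {D : Finset (ℤ × ℤ)} {b : ℤ × ℤ → ℝ}
    (hb : ∀ z, |b z| ≤ 1 / 2) {w : D → (D → ℝ) → ℝ} (hw : ∀ x, ContDiff ℝ 1 (w x)) {s : ℝ}
    (hs : 1 ≤ s) :
    ∑ x ∈ D, ∑ i : Fin 6, (∫⁻ h in K D b, ENNReal.ofReal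
        |g0 D (fun y => w y h) x - g0 D (fun y => w y h) (x + st i)|) ^ 2 ≤
      768 * C ^ 2 * Z D b * ET D b w +
        1536 * (D.card : ℝ≥0∞) * fs D s ^ 2 * (E2 D b s w + ET D b w) := by
  have h1 : ∀ x ∈ D, ∀ i : Fin 6, (∫⁻ h in K D b, ENNReal.ofReal
        |g0 D (fun y => w y h) x - g0 D (fun y => w y h) (x + st i)|) ^ 2 ≤
      64 * C ^ 2 * Z D b * Tg D b w x + 64 * C ^ 2 * Z D b * Tg D b w (x + st i) +
        256 * fs D s ^ 2 * (E2 D b s w + ET D b w) := by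
    intro x hx i
    refine (pow_le_pow_left' (edge_est hC hb hw hs hx i) 2).trans ?_
    refine (kf_sq _ _).trans ?_
    have h2 := kf_sq (Tg D b w x ^ (1 / 2 : ℝ)) (Tg D b w (x + st i) ^ (1 / 2 : ℝ))
    have h3 := kf_sq (E2 D b s w ^ (1 / 2 : ℝ)) (ET D b w ^ (1 / 2 : ℝ))
    rw [kf_rt, kf_rt] at h2 h3
    calc _ = 32 * C ^ 2 * (Z D b ^ (1 / 2 : ℝ)) ^ 2 *
            (Tg D b w x ^ (1 / 2 : ℝ) + Tg D b w (x + st i) ^ (1 / 2 : ℝ)) ^ 2 +
          128 * fs D s ^ 2 * (E2 D b s w ^ (1 / 2 : ℝ) + ET D b w ^ (1 / 2 : ℝ)) ^ 2 := by ring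
      _ ≤ 32 * C ^ 2 * (Z D b ^ (1 / 2 : ℝ)) ^ 2 * (2 * Tg D b w x + 2 * Tg D b w (x + st i)) +
          128 * fs D s ^ 2 * (2 * E2 D b s w + 2 * ET D b w) :=
          add_le_add (mul_le_mul' le_rfl h2) (mul_le_mul' le_rfl h3)
      _ = _ := by
          rw [kf_rt]
          ring
  calc _ ≤ ∑ x ∈ D, ∑ i : Fin 6, (64 * C ^ 2 * Z D b * Tg D b w x +
          64 * C ^ 2 * Z D b * Tg D b w (x + st i) +
          256 * fs D s ^ 2 * (E2 D b s w + ET D b w)) :=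
        Finset.sum_le_sum fun x hx => Finset.sum_le_sum fun i _ => h1 x hx i
    _ = 6 * (64 * C ^ 2 * Z D b * ∑ x ∈ D, Tg D b w x) +
          64 * C ^ 2 * Z D b * (∑ i : Fin 6, ∑ x ∈ D, Tg D b w (x + st i)) +
          D.card * (6 * (256 * fs D s ^ 2 * (E2 D b s w + ET D b w))) := by
        simp only [Finset.sum_add_distrib, Finset.sum_const, Finset.card_univ, Fintype.card_fin,
          nsmul_eq_mul, ← Finset.mul_sum]
        rw [Finset.sum_comm (s := D)]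
        push_cast
        ring
    _ ≤ 6 * (64 * C ^ 2 * Z D b * ET D b w) +
          64 * C ^ 2 * Z D b * (∑ i : Fin 6, ET D b w) +
          D.card * (6 * (256 * fs D s ^ 2 * (E2 D b s w + ET D b w))) := by
        rw [← kf_ET w]
        exact add_le_add (add_le_add le_rfl (mul_le_mul' le_rfl
          (Finset.sum_le_sum fun i _ => kf_sh w (st i)))) le_rfl
    _ = _ := by
        simp only [Finset.sum_const, Finset.card_univ, Fintype.card_fin, nsmul_eq_mul]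
        push_cast
        ring
/- END kf -/

end Pool.Agent.Hmk
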