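import Pool.Agent.Hmk.MnMb

/-!
# Hmk, Caratheodory part (helper70): cut-offs and the boundary estimate with interior energies

As `CfC`, `CfR`, `MnCf`, `MnMb`, but only edges with both ends in `A` (in `D`) count in the energy.
-/

set_option autoImplicit false

open MeasureTheory Set Filter

open scoped ENNReal SchwartzMap ContDiff Topology

noncomputable section

namespace Pool.Agent.Hmk.Ca

open Pool.Agent.Hmk Pool.Agent.Hmk.Mn

/-- the total variation of `ψ` on the edges inside `A` which start in the component of `x` -/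
def Osi (A : Finset (ℤ × ℤ)) (S : Set Ed) (ψ : ℤ × ℤ → ℝ) (x : ℤ × ℤ) : ℝ :=
  ∑ y ∈ Cmp A S x, ∑ i, if y + st i ∈ A then |ψ y - ψ (y + st i)| else 0

/-- discrete energy of `Z`, only edges inside `D` -/
def EIi (D : Finset (ℤ × ℤ)) (Z : ℤ × ℤ → ℝ) : ℝ :=
  ∑ x ∈ D, ∑ i, if x + st i ∈ D then (Z x - Z (x + st i)) ^ 2 else 0

/- MODULE naa
The oscillation.  As `osc_le`, `vg_osc`, `Os_sq_le` of `CfC.lean` (same proofs: the path from `x` to
`y` stays in the component, hence inside `A`).  For `vg_osci` there are no flags because all edges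
of `S` end in `A`; `Cmp A S x ⊆ Cmp A S' x` (`Cmp_mono`). -/
private theorem naa_pos (A : Finset (ℤ × ℤ)) (ψ : ℤ × ℤ → ℝ) (y : ℤ × ℤ) (i : Fin 6) :
    0 ≤ (if y + st i ∈ A then |ψ y - ψ (y + st i)| else 0) := by
  split_ifs
  · exact abs_nonneg _
  · exact le_rfl

private def naa_G (A : Finset (ℤ × ℤ)) (S : Set Ed) : SimpleGraph (ℤ × ℤ) where
  Adj a b := a ≠ b ∧ eadj A S a b
  symm := ⟨fun _ _ h => ⟨h.1.symm, eadj_symm h.2⟩⟩
  loopless := ⟨fun _ h => h.1 rfl⟩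

private theorem naa_step {A : Finset (ℤ × ℤ)} {S : Set Ed} (ψ : ℤ × ℤ → ℝ) {a b : ℤ × ℤ}
    (h : eadj A S a b) :
    |ψ a - ψ b| ≤ ∑ i, if a + st i ∈ A then |ψ a - ψ (a + st i)| else 0 := by
  have key : ∀ j : Fin 6, b = a + st j →
      |ψ a - ψ b| ≤ ∑ i, if a + st i ∈ A then |ψ a - ψ (a + st i)| else 0 := by
    intro j hj
    have hA : a + st j ∈ A := by
      rw [← hj]
      exact h.2.1
    have h1 := Finset.single_le_sum
      (f := fun i => if a + st i ∈ A then |ψ a - ψ (a + st i)| else 0)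
      (fun i _ => naa_pos A ψ a i) (Finset.mem_univ j)
    simp only [if_pos hA] at h1
    rw [hj]
    exact h1
  obtain ⟨_, _, i, ⟨h1, _⟩ | ⟨h1, _⟩⟩ := h
  · exact key i h1
  · refine key (i + 3) ?_
    rw [st_opp, h1]
    abel

private theorem naa_walk {A : Finset (ℤ × ℤ)} {S : Set Ed} (ψ : ℤ × ℤ → ℝ) {x y : ℤ × ℤ}
    (p : (naa_G A S).Walk x y) :
    |ψ x - ψ y| ≤
      (p.support.map fun a => ∑ i, if a + st i ∈ A then |ψ a - ψ (a + st i)| else 0).sum := by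
  induction p with
  | nil =>
    rw [sub_self, abs_zero]
    simp only [SimpleGraph.Walk.support_nil, List.map_cons, List.map_nil, List.sum_cons,
      List.sum_nil, add_zero]
    exact Finset.sum_nonneg fun i _ => naa_pos A ψ _ i
  | @cons u v w h p ih =>
    rw [SimpleGraph.Walk.support_cons, List.map_cons, List.sum_cons]
    have h1 := naa_step ψ h.2
    calc |ψ u - ψ w| ≤ |ψ u - ψ v| + |ψ v - ψ w| := abs_sub_le _ _ _
      _ ≤ _ := add_le_add h1 ih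

private theorem naa_supp {A : Finset (ℤ × ℤ)} {S : Set Ed} {x y : ℤ × ℤ} (hx : x ∈ A)
    (p : (naa_G A S).Walk x y) : ∀ a ∈ p.support, a ∈ Cmp A S x := by
  induction p with
  | nil =>
    intro a ha
    simp only [SimpleGraph.Walk.support_nil, List.mem_singleton] at ha
    subst ha
    exact Cmp_self S hx
  | @cons u v w h p ih =>
    intro a ha
    have hv : v ∈ Cmp A S u := Cmp_step (Cmp_self S hx) h.2
    rw [SimpleGraph.Walk.support_cons, List.mem_cons] at ha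
    rcases ha with rfl | ha
    · exact Cmp_self S hx
    · have := ih h.2.2.1 a ha
      rwa [Cmp_eq hx hv] at this

theorem osci_le {A : Finset (ℤ × ℤ)} {S : Set Ed} (ψ : ℤ × ℤ → ℝ) {x y : ℤ × ℤ}
    (hx : x ∈ A) (hy : y ∈ Cmp A S x) : |ψ x - ψ y| ≤ Osi A S ψ x := by
  classical
  have hr : ∀ z, Relation.ReflTransGen (eadj A S) x z → (naa_G A S).Reachable x z := by
    intro z hz
    induction hz with
    | refl => exact SimpleGraph.Reachable.refl x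
    | @tail b c _ h2 ih =>
      by_cases hbc : b = c
      · rw [← hbc]
        exact ih
      · exact ih.trans (SimpleGraph.Adj.reachable (show (naa_G A S).Adj b c from ⟨hbc, h2⟩))
  obtain ⟨p⟩ := hr y (mem_Cmp.1 hy).2
  have h1 := naa_walk ψ (p.toPath : (naa_G A S).Walk x y)
  have hnd : (p.toPath : (naa_G A S).Walk x y).support.Nodup := p.toPath.2.support_nodup
  refine le_trans h1 ?_
  rw [← List.sum_toFinset _ hnd]
  unfold Osi
  refine Finset.sum_le_sum_of_subset_of_nonneg ?_ fun _ _ _ =>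
    Finset.sum_nonneg fun i _ => naa_pos A ψ _ i
  intro a ha
  exact naa_supp hx _ a (List.mem_toFinset.1 ha)

theorem Osi_nonneg (A : Finset (ℤ × ℤ)) (S : Set Ed) (ψ : ℤ × ℤ → ℝ) (x : ℤ × ℤ) :
    0 ≤ Osi A S ψ x := by
  exact Finset.sum_nonneg fun y _ => Finset.sum_nonneg fun i _ => naa_pos A ψ y i

theorem Osi_mono (A : Finset (ℤ × ℤ)) {S S' : Set Ed} (h : S ⊆ S') (ψ : ℤ × ℤ → ℝ)
    (x : ℤ × ℤ) : Osi A S ψ x ≤ Osi A S' ψ x := by
  exact Finset.sum_le_sum_of_subset_of_nonneg (Cmp_mono A h x) fun y _ _ =>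
    Finset.sum_nonneg fun i _ => naa_pos A ψ y i

theorem Osi_sq_le (A : Finset (ℤ × ℤ)) (S : Set Ed) (ψ : ℤ × ℤ → ℝ) (x : ℤ × ℤ) :
    (Osi A S ψ x) ^ 2 ≤ 6 * (Cmp A S x).card *
      ∑ y ∈ Cmp A S x, ∑ i, if y + st i ∈ A then (ψ y - ψ (y + st i)) ^ 2 else 0 := by
  have e1 : ∀ (y : ℤ × ℤ) (i : Fin 6),
      (if y + st i ∈ A then |ψ y - ψ (y + st i)| else 0) ^ 2 =
        if y + st i ∈ A then (ψ y - ψ (y + st i)) ^ 2 else 0 := by
    intro y i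
    split_ifs
    · rw [sq_abs]
    · norm_num
  unfold Osi
  rw [← Finset.sum_product', ← Finset.sum_product']
  refine le_trans sq_sum_le_card_mul_sum_sq ?_
  rw [Finset.card_product, Finset.card_univ, Fintype.card_fin]
  simp only [e1]
  push_cast
  rw [mul_comm (6 : ℝ)]

theorem vg_osci {A : Finset (ℤ × ℤ)} {S S' : Set Ed} {M : Finset (ℤ × ℤ) → ℝ} {ψ : ℤ × ℤ → ℝ}
    (hM : IsMean M ψ) (h0 : ∀ e ∈ S, e.1 + st e.2 ∈ A) (hS : S ⊆ S')
    {x y : ℤ × ℤ} (hx : x ∈ A) (hy : y ∈ Cmp A S' x) :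
    |vg A S M x - ψ y| ≤ 2 * Osi A S' ψ x := by
  have hOs : ∀ z ∈ Cmp A S' x, |ψ z - ψ y| ≤ Osi A S' ψ x := by
    intro z hz
    have h1 : Osi A S' ψ z = Osi A S' ψ x := by
      unfold Osi
      rw [Cmp_eq hx hz]
    rw [← h1]
    refine osci_le ψ (Cmp_sub _ _ _ hz) ?_
    rw [Cmp_eq hx hz]
    exact hy
  have hO := Osi_nonneg A S' ψ x
  unfold vg
  split_ifs with h1
  · obtain ⟨⟨z, hz, h2⟩, ⟨w, hw, h3⟩⟩ := hM _ ⟨x, Cmp_self S h1.1⟩
    have h4 := abs_le.1 (hOs z (Cmp_mono A hS x hz))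
    have h5 := abs_le.1 (hOs w (Cmp_mono A hS x hw))
    exact abs_le.2 ⟨by linarith, by linarith⟩
  · exfalso
    refine h1 ⟨hx, ?_⟩
    rintro ⟨z, _, i, h3, h4⟩
    exact h4 (h0 _ h3)

/- END naa -/

/- MODULE nab
As `rho_osc`, `rho_pz_le` of `CfR.lean` with `U = Ui A` (second alternative of `UA`). -/
private theorem nab_osc {ε : ℝ} {A : Finset (ℤ × ℤ)}
    {M : Finset (ℤ × ℤ) → ℝ} {ψ : ℤ × ℤ → ℝ} (hM : IsMean M ψ) {x y : ℤ × ℤ}
    {H : ℤ × ℤ → ℝ} (hx : x ∈ A) (hy : y ∈ Gx ε A H x) {S : Finset Ed} (hSU : S ⊆ Ui A)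
    (hS : ∀ e ∈ S, e ∈ Op ε H) : |vg A (S : Set Ed) M x - ψ y| ≤ 2 * Osi A (Op ε H) ψ x := by
  refine vg_osci hM (fun e he => ?_) (fun e he => hS e (Finset.mem_coe.1 he)) hx hy
  exact (Finset.mem_filter.1 (hSU (Finset.mem_coe.1 he))).2

theorem rho_osci {ε : ℝ} (h0 : 0 < ε) (h1 : ε ≤ 1 / 2) {A : Finset (ℤ × ℤ)}
    {M : Finset (ℤ × ℤ) → ℝ} {ψ : ℤ × ℤ → ℝ} (hM : IsMean M ψ) {x y : ℤ × ℤ}
    (H : ℤ × ℤ → ℝ) (hx : x ∈ A) (hy : y ∈ Gx ε A H x) :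
    |rho ε (Ui A) A M x H - ψ y| ≤ 2 * Osi A (Op ε H) ψ x := by
  have e1 : rho ε (Ui A) A M x H - ψ y =
      cfu ε (Ui A) (fun S => vg A (S : Set Ed) M x - ψ y) H := by
    rw [cfu_sub, cfu_const]
    rfl
  rw [e1]
  exact cfu_abs_le h0 h1 fun S hSU hS _ => nab_osc hM hx hy hSU hS

theorem rho_pzi_le {ε : ℝ} (h0 : 0 < ε) (h1 : ε ≤ 1 / 2) {C : ℝ}
    (hC : ∀ z, |deriv (qs ε) z| ≤ C) {A : Finset (ℤ × ℤ)}
    {M : Finset (ℤ × ℤ) → ℝ} {ψ : ℤ × ℤ → ℝ} (hM : IsMean M ψ) {x : ℤ × ℤ}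
    (S : Finset (ℤ × ℤ)) (c : ℤ × ℤ → ℝ) (y : ℤ × ℤ) (h : S → ℝ) (hx : x ∈ A) :
    |pz S y (fun h => rho ε (Ui A) A M x (gl S c h)) h| ≤
      48 * C * Osi A (Op ε (gl S c h)) ψ x := by
  set O := Osi A (Op ε (gl S c h)) ψ x with hO
  have hO0 : 0 ≤ O := Osi_nonneg _ _ _ _
  have hx' : x ∈ Gx ε A (gl S c h) x := Cmp_self _ hx
  have h2 := cfu_pz_le h0 h1 hC (U := Ui A) (Φ := fun S => vg A (S : Set Ed) M x) S c y h
    (B := fun _ => 4 * O) (fun e he T hTU hT => by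
      have he' : e ∈ Ui A ∧ e ∈ Op ε (gl S c h) ∧ Tch y e := by
        simp only [Uy, Finset.mem_filter] at he
        exact he
      have i1 : insert e T ⊆ Ui A := Finset.insert_subset he'.1 hTU
      have i2 : ∀ e' ∈ insert e T, e' ∈ Op ε (gl S c h) := by
        intro e' h'
        rcases Finset.mem_insert.1 h' with h' | h'
        · rw [h']
          exact he'.2.1
        · exact hT e' h'
      have a1 := nab_osc hM hx hx' i1 i2
      have a2 := nab_osc hM hx hx' hTU hT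
      rw [abs_le] at a1 a2 ⊢
      constructor <;> linarith [a1.1, a1.2, a2.1, a2.2])
  refine h2.trans ?_
  rw [Finset.sum_const, nsmul_eq_mul]
  have h3 : ((Uy ε (Ui A) (gl S c h) y).card : ℝ) ≤ 12 := by
    exact_mod_cast Uy_card ε (Ui A) (gl S c h) y
  have hC0 : 0 ≤ C := (abs_nonneg _).trans (hC 0)
  calc C * (((Uy ε (Ui A) (gl S c h) y).card : ℝ) * (4 * O)) ≤ C * (12 * (4 * O)) := by
        gcongr
    _ = 48 * C * O := by ring

/- END nab -/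

/- MODULE nac
As `rho_energy`, `rho_diff_sum` of `CfR.lean` (`rho_pz_zero`, `Ny_card`, `Osi_sq_le`, `Cmp_double`). -/
private theorem nac_tch {ε : ℝ} {x : ℤ × ℤ} {H : ℤ × ℤ → ℝ} {e : Ed} (he : e ∈ Op ε H)
    (hx : Tch x e) : Tx ε x H := by
  rcases hx with h | h
  · refine ⟨e.2, ?_⟩
    rw [← h]
    exact he
  · refine ⟨e.2 + 3, ?_⟩
    have h2 : 1 - ε < |hd H e| := he
    have h3 := hd_opp H e.1 e.2
    change 1 - ε < |hd H (x, e.2 + 3)|
    rw [← h, h3, abs_neg]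
    exact h2

theorem rho_energyi {ε : ℝ} (h0 : 0 < ε) (h1 : ε ≤ 1 / 2) {C : ℝ}
    (hC : ∀ z, |deriv (qs ε) z| ≤ C) {A : Finset (ℤ × ℤ)}
    {M : Finset (ℤ × ℤ) → ℝ} {ψ : ℤ × ℤ → ℝ} (hM : IsMean M ψ)
    (S : Finset (ℤ × ℤ)) (c : ℤ × ℤ → ℝ) (h : S → ℝ) :
    ∑ x ∈ A, ∑ y ∈ S, (pz S y (fun h => rho ε (Ui A) A M x (gl S c h)) h) ^ 2 ≤ 96768 * C ^ 2 *
      ∑ y ∈ A, (∑ i, if y + st i ∈ A then (ψ y - ψ (y + st i)) ^ 2 else 0) *
        ((Gx ε A (gl S c h) y).card : ℝ) ^ 3 := by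
  classical
  set H := gl S c h with hH
  have hC0 : 0 ≤ C := (abs_nonneg _).trans (hC 0)
  have hUi : Ui A ⊆ Uo A := Finset.filter_subset _ _
  have hx : ∀ x ∈ A, ∑ y ∈ S, (pz S y (fun h => rho ε (Ui A) A M x (gl S c h)) h) ^ 2 ≤
      96768 * C ^ 2 * (((Gx ε A H x).card : ℝ) ^ 2 *
        ∑ y ∈ Gx ε A H x, ∑ i, if y + st i ∈ A then (ψ y - ψ (y + st i)) ^ 2 else 0) := by
    intro x hx
    set O := Osi A (Op ε H) ψ x with hO
    have hO0 : 0 ≤ O := Osi_nonneg _ _ _ _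
    have b1 : ∑ y ∈ S, (pz S y (fun h => rho ε (Ui A) A M x (gl S c h)) h) ^ 2 ≤
        ∑ y ∈ S.filter (fun y => Ny ε (Ui A) A H x y), (48 * C * O) ^ 2 := by
      rw [Finset.sum_filter]
      refine Finset.sum_le_sum fun y _ => ?_
      split_ifs with hN
      · have b2 := rho_pzi_le h0 h1 hC hM S c y h hx
        rw [← sq_abs]
        exact pow_le_pow_left₀ (abs_nonneg _) b2 2
      · rw [rho_pz_zero h0 h1 (Ui A) A M S c h hN]
        norm_num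
    rw [Finset.sum_const, nsmul_eq_mul] at b1
    have b3 : (((S.filter (fun y => Ny ε (Ui A) A H x y)).card : ℕ) : ℝ) ≤
        7 * ((Gx ε A H x).card : ℝ) := by
      exact_mod_cast Ny_card ε hUi H x _ fun y hy => (Finset.mem_filter.1 hy).2
    have b4 : O ^ 2 ≤ 6 * ((Gx ε A H x).card : ℝ) *
        ∑ y ∈ Gx ε A H x, ∑ i, if y + st i ∈ A then (ψ y - ψ (y + st i)) ^ 2 else 0 :=
      Osi_sq_le A (Op ε H) ψ x
    set g : ℝ := ((Gx ε A H x).card : ℝ)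
    have hg : 0 ≤ g := Nat.cast_nonneg _
    refine b1.trans ?_
    calc (((S.filter (fun y => Ny ε (Ui A) A H x y)).card : ℕ) : ℝ) * (48 * C * O) ^ 2
        ≤ (7 * g) * (48 * C * O) ^ 2 := mul_le_mul_of_nonneg_right b3 (sq_nonneg _)
      _ = 16128 * C ^ 2 * g * O ^ 2 := by ring
      _ ≤ 16128 * C ^ 2 * g * (6 * g *
          ∑ y ∈ Gx ε A H x, ∑ i, if y + st i ∈ A then (ψ y - ψ (y + st i)) ^ 2 else 0) :=
          mul_le_mul_of_nonneg_left b4 (by positivity)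
      _ = _ := by ring
  refine (Finset.sum_le_sum hx).trans (le_of_eq ?_)
  rw [← Finset.mul_sum]
  congr 1
  have h5 := Cmp_double A (Op ε H)
    (fun y => ∑ i, if y + st i ∈ A then (ψ y - ψ (y + st i)) ^ 2 else 0)
    (fun F => (F.card : ℝ) ^ 2)
  refine h5.trans (Finset.sum_congr rfl fun y _ => ?_)
  unfold Gx
  ring

open scoped Classical in
theorem rho_diff_sumi {ε : ℝ} (h0 : 0 < ε) (h1 : ε ≤ 1 / 2) {A : Finset (ℤ × ℤ)}
    {M : Finset (ℤ × ℤ) → ℝ} {ψ : ℤ × ℤ → ℝ} (hM : IsMean M ψ) (H : ℤ × ℤ → ℝ) :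
    ∑ x ∈ A, (rho ε (Ui A) A M x H - ψ x) ^ 2 ≤ 24 *
      ∑ y ∈ A, (∑ i, if y + st i ∈ A then (ψ y - ψ (y + st i)) ^ 2 else 0) *
        (if Tx ε y H then ((Gx ε A H y).card : ℝ) ^ 2 else 0) := by
  set g : Finset (ℤ × ℤ) → ℝ := fun F => if ∃ x ∈ F, Tx ε x H then (F.card : ℝ) else 0 with hg
  have hgx : ∀ x ∈ A, g (Gx ε A H x) = if Tx ε x H then ((Gx ε A H x).card : ℝ) else 0 := by
    intro x hx
    have h2 : (∃ z ∈ Gx ε A H x, Tx ε z H) ↔ Tx ε x H :=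
      ⟨fun ⟨z, hz, hz'⟩ => (Tx_cluster hx hz).2 hz', fun h => ⟨x, Cmp_self _ hx, h⟩⟩
    simp only [hg, h2]
  have hx : ∀ x ∈ A, (rho ε (Ui A) A M x H - ψ x) ^ 2 ≤
      24 * (g (Gx ε A H x) * ∑ y ∈ Gx ε A H x,
        ∑ i, if y + st i ∈ A then (ψ y - ψ (y + st i)) ^ 2 else 0) := by
    intro x hx
    rw [hgx x hx]
    split_ifs with hT
    · have b1 := rho_osci h0 h1 hM H hx (Cmp_self (Op ε H) hx)
      have b4 := Osi_sq_le A (Op ε H) ψ x
      have b5 : (rho ε (Ui A) A M x H - ψ x) ^ 2 ≤ (2 * Osi A (Op ε H) ψ x) ^ 2 := by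
        rw [← sq_abs]
        exact pow_le_pow_left₀ (abs_nonneg _) b1 2
      have b6 : (Osi A (Op ε H) ψ x) ^ 2 ≤ 6 * ((Gx ε A H x).card : ℝ) *
        ∑ y ∈ Gx ε A H x, ∑ i, (if y + st i ∈ A then (ψ y - ψ (y + st i)) ^ 2 else 0) := b4
      nlinarith [b5, b6]
    · rw [rho_triv h0 h1 hM H hx fun e _ he ht => hT (nac_tch he ht)]
      simp
  refine (Finset.sum_le_sum hx).trans (le_of_eq ?_)
  rw [← Finset.mul_sum]
  congr 1
  have h5 := Cmp_double A (Op ε H)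
    (fun y => ∑ i, if y + st i ∈ A then (ψ y - ψ (y + st i)) ^ 2 else 0) g
  refine h5.trans (Finset.sum_congr rfl fun y hy => ?_)
  have h6 := hgx y hy
  unfold Gx at h6 ⊢
  rw [h6]
  split_ifs
  · ring
  · simp

/- END nac -/

/- MODULE nad
As `cf_min` (module mfx of `MnCf.lean`), with `rho_energyi`, `rho_diff_sumi` instead of `rho_energy`,
`rho_diff_sum`. -/
private theorem nad_pos (D : Finset (ℤ × ℤ)) (Z : ℤ × ℤ → ℝ) (y : ℤ × ℤ) :
    0 ≤ ∑ i, if y + st i ∈ D then (Z y - Z (y + st i)) ^ 2 else 0 := by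
  refine Finset.sum_nonneg fun i _ => ?_
  split_ifs
  · exact sq_nonneg _
  · exact le_rfl

private theorem nad_int {D : Finset (ℤ × ℤ)} {b : ℤ × ℤ → ℝ} (hb : ∀ z, |b z| ≤ 1 / 2) (ε : ℝ)
    (x : ℤ × ℤ) (p : ℕ) :
    Integrable (fun h : D → ℝ => ((Gx ε D (gl D b h) x).card : ℝ) ^ p) (Mu D b) := by
  have hP : IsProbabilityMeasure (Mu D b) := prob hb
  refine Integrable.of_bound
    (Gx_fun_meas ε D b D x (fun F => (F.card : ℝ) ^ p)).aestronglyMeasurable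
    ((D.card : ℝ) ^ p) (Eventually.of_forall fun h => ?_)
  rw [Real.norm_eq_abs, abs_of_nonneg (by positivity)]
  refine pow_le_pow_left₀ (by positivity) ?_ p
  exact_mod_cast Gx_card_le ε D (gl D b h) x

/-- the integral of the sum of the energies times the moments of the clusters -/
private theorem nad_sum {D : Finset (ℤ × ℤ)} {b : ℤ × ℤ → ℝ} (hb : ∀ z, |b z| ≤ 1 / 2) {ε : ℝ}
    (Z : ℤ × ℤ → ℝ) (p : ℕ) {M : ℝ}
    (hM : ∀ x ∈ D, ∫ h, ((Gx ε D (gl D b h) x).card : ℝ) ^ p ∂(Mu D b) ≤ M) :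
    Integrable (fun h : D → ℝ =>
        ∑ y ∈ D, (∑ i, if y + st i ∈ D then (Z y - Z (y + st i)) ^ 2 else 0) *
        ((Gx ε D (gl D (fun _ => 0) h) y).card : ℝ) ^ p) (Mu D b) ∧
      ∫ h, ∑ y ∈ D, (∑ i, if y + st i ∈ D then (Z y - Z (y + st i)) ^ 2 else 0) *
        ((Gx ε D (gl D (fun _ => 0) h) y).card : ℝ) ^ p ∂(Mu D b) ≤ M * EIi D Z := by
  have e1 : ∀ (h : D → ℝ) y, Gx ε D (gl D (fun _ => 0) h) y = Gx ε D (gl D b h) y := fun h y =>
    Gx_zero ε D _ _ h y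
  simp only [e1]
  refine ⟨integrable_finsetSum _ fun y _ => (nad_int hb ε y p).const_mul _, ?_⟩
  rw [integral_finsetSum _ fun y _ => (nad_int hb ε y p).const_mul _]
  unfold EIi
  rw [Finset.mul_sum]
  refine Finset.sum_le_sum fun y hy => ?_
  rw [integral_const_mul, mul_comm]
  exact mul_le_mul_of_nonneg_right (hM y hy) (nad_pos D Z y)

private theorem nad_pd {D : Finset (ℤ × ℤ)} (y : D) (f : (D → ℝ) → ℝ) (h : D → ℝ) :
    pd y f h = pz D y f h := by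
  unfold pz
  rw [dif_pos y.2]

private theorem nad_Osi (D : Finset (ℤ × ℤ)) (S : Set Ed) (Z : ℤ × ℤ → ℝ) (x : ℤ × ℤ) :
    Osi D S Z x ≤ ∑ y ∈ D, ∑ i, |Z y - Z (y + st i)| := by
  refine (Finset.sum_le_sum_of_subset_of_nonneg (Cmp_sub D S x) fun y _ _ =>
    Finset.sum_nonneg fun i _ => ?_).trans
      (Finset.sum_le_sum fun y _ => Finset.sum_le_sum fun i _ => ?_)
  · split_ifs
    · exact abs_nonneg _
    · exact le_rfl
  · split_ifs
    · exact le_rfl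
    · exact abs_nonneg _

theorem cf_mini : ∃ ε C : ℝ, 0 < ε ∧ 0 ≤ C ∧ ∀ (D : Finset (ℤ × ℤ)) (Z : ℤ × ℤ → ℝ),
    (∀ z, 0 ≤ Z z) → ∃ ψ : D → (D → ℝ) → ℝ, (∀ x, BS (ψ x)) ∧
      (∀ x h, 0 ≤ ψ x h ∧ ψ x h ≤ Z x) ∧
      (∀ x y : D, (∃ i, (y : ℤ × ℤ) = x + st i) → ∀ h : D → ℝ,
        1 - ε ≤ |h x - h y| → ψ x h = ψ y h) ∧
      ∀ b : ℤ × ℤ → ℝ, (∀ z, |b z| ≤ 1 / 2) →
        ∫ h, Gd2 ψ h ∂(Mu D b) ≤ C * EIi D Z ∧
        ∫ h, ∑ x : D, (Z x - ψ x h) ^ 2 ∂(Mu D b) ≤ C * EIi D Z := by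
  have h0 : (0 : ℝ) < 1 / 2 ^ 50 := by positivity
  have h1 : (1 : ℝ) / 2 ^ 50 ≤ 1 / 2 := by norm_num
  have h2 : (1 : ℝ) / 2 ^ 50 ≤ 1 / 2 ^ 48 := by norm_num
  obtain ⟨C, hC0, hC⟩ := qs_bound h0 h1
  obtain ⟨C3, hC30, hC3⟩ := moment_one 3
  obtain ⟨C2, hC20, hC2⟩ := moment_one 2
  have hM3 : 0 ≤ 96768 * C ^ 2 * (1 + C3 * (1 / 2 ^ 50)) := by positivity
  have hM2 : 0 ≤ 24 * (1 + C2 * (1 / 2 ^ 50)) := by positivity
  refine ⟨1 / 2 ^ 50 / 2, 96768 * C ^ 2 * (1 + C3 * (1 / 2 ^ 50)) +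
    24 * (1 + C2 * (1 / 2 ^ 50)), by positivity, by positivity, ?_⟩
  intro D Z hZ
  refine ⟨fun x h => rho (1 / 2 ^ 50) (Ui D) D (Mmn Z) x (gl D (fun _ => 0) h),
    fun x => ⟨rho_smooth _ _ _ _ _ _ _, ⟨Z x, fun h => ?_⟩,
      ⟨48 * C * ∑ y ∈ D, ∑ i, |Z y - Z (y + st i)|, fun y h => ?_⟩⟩, fun x h => ?_, ?_, ?_⟩
  · rw [abs_of_nonneg (rho_nonneg h0 h1 _ _ (Mmn_mean Z) hZ _ _)]
    exact rho_mn_le h0 h1 _ _ hZ _ _
  · rw [nad_pd]
    refine (rho_pzi_le h0 h1 (fun z => (hC z).1) (Mmn_mean Z) D _ y h x.2).trans ?_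
    exact mul_le_mul_of_nonneg_left (nad_Osi D _ Z x) (by positivity)
  · exact ⟨rho_nonneg h0 h1 _ _ (Mmn_mean Z) hZ _ _, rho_mn_le h0 h1 _ _ hZ _ _⟩
  · rintro x y ⟨i, hi⟩ h hh
    have h3 := rho_tie_i h0 h1 (Mmn Z) (i := i) (gl D (fun _ => 0) h) x.2
      (by rw [← hi]; exact y.2) (by
        rw [← hi, gl_mem x.2, gl_mem y.2]
        exact hh)
    rw [← hi] at h3
    exact h3
  · intro b hb
    have hEI : 0 ≤ EIi D Z :=
      Finset.sum_nonneg fun x _ => nad_pos D Z x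
    have s3 := nad_sum hb (ε := 1 / 2 ^ 50) Z 3 (fun x hx => hC3 D D (Finset.Subset.refl _) b hb
      (1 / 2 ^ 50) h0 h2 x hx)
    have s2 := nad_sum hb (ε := 1 / 2 ^ 50) Z 2 (fun x hx => hC2 D D (Finset.Subset.refl _) b hb
      (1 / 2 ^ 50) h0 h2 x hx)
    constructor
    · have k1 : ∫ h, Gd2 (fun (x : D) (h : D → ℝ) =>
          rho (1 / 2 ^ 50) (Ui D) D (Mmn Z) x (gl D (fun _ => 0) h)) h ∂(Mu D b) ≤
          ∫ h, 96768 * C ^ 2 *
            ∑ y ∈ D, (∑ i, if y + st i ∈ D then (Z y - Z (y + st i)) ^ 2 else 0) *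
            ((Gx (1 / 2 ^ 50) D (gl D (fun _ => 0) h) y).card : ℝ) ^ 3 ∂(Mu D b) := by
        refine integral_mono_of_nonneg (Eventually.of_forall fun h => ?_) (s3.1.const_mul _)
          (Eventually.of_forall fun h => ?_)
        · exact Finset.sum_nonneg fun x _ => Finset.sum_nonneg fun y _ => sq_nonneg _
        · have h3 := rho_energyi h0 h1 (fun z => (hC z).1) (A := D) (Mmn_mean Z) D
            (fun _ => 0) h
          refine le_trans (le_of_eq ?_) h3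
          unfold Gd2
          simp only [nad_pd]
          rw [← Finset.sum_coe_sort D]
          refine Finset.sum_congr rfl fun x _ => ?_
          rw [← Finset.sum_coe_sort D]
      refine k1.trans ?_
      rw [integral_const_mul]
      calc 96768 * C ^ 2 * _ ≤ 96768 * C ^ 2 * ((1 + C3 * (1 / 2 ^ 50)) * EIi D Z) :=
            mul_le_mul_of_nonneg_left s3.2 (by positivity)
        _ = 96768 * C ^ 2 * (1 + C3 * (1 / 2 ^ 50)) * EIi D Z := by ring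
        _ ≤ (96768 * C ^ 2 * (1 + C3 * (1 / 2 ^ 50)) + 24 * (1 + C2 * (1 / 2 ^ 50))) * EIi D Z :=
            mul_le_mul_of_nonneg_right (by linarith) hEI
    · have k1 : ∫ h, ∑ x : D, (Z x -
          rho (1 / 2 ^ 50) (Ui D) D (Mmn Z) x (gl D (fun _ => 0) h)) ^ 2 ∂(Mu D b) ≤
          ∫ h, 24 * ∑ y ∈ D, (∑ i, if y + st i ∈ D then (Z y - Z (y + st i)) ^ 2 else 0) *
            ((Gx (1 / 2 ^ 50) D (gl D (fun _ => 0) h) y).card : ℝ) ^ 2 ∂(Mu D b) := by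
        refine integral_mono_of_nonneg (Eventually.of_forall fun h => ?_) (s2.1.const_mul _)
          (Eventually.of_forall fun h => ?_)
        · exact Finset.sum_nonneg fun x _ => sq_nonneg _
        · classical
          have h3 := rho_diff_sumi h0 h1 (Mmn_mean Z) (A := D) (gl D (fun _ => 0) h)
          refine le_trans (le_of_eq ?_) (h3.trans ?_)
          · rw [← Finset.sum_coe_sort D]
            refine Finset.sum_congr rfl fun x _ => ?_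
            ring
          · refine mul_le_mul_of_nonneg_left (Finset.sum_le_sum fun y _ => ?_) (by norm_num)
            refine mul_le_mul_of_nonneg_left ?_ (nad_pos D Z y)
            split_ifs
            · exact le_rfl
            · positivity
      refine k1.trans ?_
      rw [integral_const_mul]
      calc 24 * _ ≤ 24 * ((1 + C2 * (1 / 2 ^ 50)) * EIi D Z) :=
            mul_le_mul_of_nonneg_left s2.2 (by positivity)
        _ = 24 * (1 + C2 * (1 / 2 ^ 50)) * EIi D Z := by ring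
        _ ≤ (96768 * C ^ 2 * (1 + C3 * (1 / 2 ^ 50)) + 24 * (1 + C2 * (1 / 2 ^ 50))) * EIi D Z :=
            mul_le_mul_of_nonneg_right (by linarith) hEI

/- END nad -/

/- MODULE nae
As `bdry` (module mja of `MnMb.lean`) with `cf_mini` instead of `cf_min`. -/
private theorem nae_EI (D : Finset (ℤ × ℤ)) (Z : ℤ × ℤ → ℝ) : 0 ≤ EIi D Z := by
  unfold EIi
  refine Finset.sum_nonneg fun x _ => Finset.sum_nonneg fun i _ => ?_
  split_ifs
  · exact sq_nonneg _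
  · exact le_refl _

private theorem nae_bt {b₀ b₁ : ℤ × ℤ → ℝ} (h₀ : ∀ z, |b₀ z| ≤ 1 / 2) (h₁ : ∀ z, |b₁ z| ≤ 1 / 2)
    {θ : ℝ} (hθ : θ ∈ Icc (0 : ℝ) 1) (z : ℤ × ℤ) : |bt b₀ b₁ θ z| ≤ 1 / 2 := by
  have a0 := abs_le.1 (h₀ z)
  have a1 := abs_le.1 (h₁ z)
  have t0 := hθ.1
  have t1 := hθ.2
  unfold bt
  rw [abs_le]
  constructor <;> nlinarith [a0.1, a0.2, a1.1, a1.2]

private theorem nae_cs {D : Finset (ℤ × ℤ)} {μ : Measure (D → ℝ)} [IsProbabilityMeasure μ]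
    {f q : (D → ℝ) → ℝ} {C C' A Q : ℝ} (hf : Continuous f) (hfC : ∀ h, |f h| ≤ C)
    (hq : Continuous q) (hqC : ∀ h, |q h| ≤ C') (hA : 0 ≤ A)
    (hfq : ∀ h, f h ^ 2 ≤ A * q h) (hqQ : ∫ h, q h ∂μ ≤ Q) :
    ∫ h, f h ∂μ ≤ Real.sqrt A * Real.sqrt Q := by
  have i1 : Integrable f μ := Integrable.of_bound hf.aestronglyMeasurable C (ae_of_all _ hfC)
  have i2 : Integrable q μ := Integrable.of_bound hq.aestronglyMeasurable C' (ae_of_all _ hqC)
  have i3 : Integrable (fun h => f h ^ 2) μ := by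
    refine Integrable.of_bound (hf.pow 2).aestronglyMeasurable (C ^ 2) (ae_of_all _ fun h => ?_)
    rw [Real.norm_eq_abs, abs_pow]
    exact pow_le_pow_left₀ (abs_nonneg _) (hfC h) 2
  set m := ∫ h, f h ∂μ with hm
  have h1 : 0 ≤ ∫ h, (f h - m) ^ 2 ∂μ := integral_nonneg fun h => sq_nonneg _
  have h2 : ∫ h, (f h - m) ^ 2 ∂μ = (∫ h, f h ^ 2 ∂μ) - m ^ 2 := by
    have e : (fun h => (f h - m) ^ 2) = fun h => f h ^ 2 - 2 * m * f h + m ^ 2 := by
      funext h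
      ring
    have j1 : Integrable (fun h => 2 * m * f h) μ := i1.const_mul _
    have j2 : Integrable (fun h => f h ^ 2 - 2 * m * f h) μ := i3.sub j1
    rw [e, integral_add j2 (integrable_const _), integral_sub i3 j1, integral_const_mul,
      integral_const, probReal_univ, one_smul, ← hm]
    ring
  have h3 : ∫ h, f h ^ 2 ∂μ ≤ A * Q := by
    calc ∫ h, f h ^ 2 ∂μ ≤ ∫ h, A * q h ∂μ := integral_mono i3 (i2.const_mul _) hfq
      _ = A * ∫ h, q h ∂μ := integral_const_mul _ _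
      _ ≤ A * Q := mul_le_mul_of_nonneg_left hqQ hA
  rw [← Real.sqrt_mul hA]
  refine Real.le_sqrt_of_sq_le ?_
  linarith

theorem bdryi : ∃ C : ℝ, 0 ≤ C ∧ ∀ (D : Finset (ℤ × ℤ)) (b₀ b₁ : ℤ × ℤ → ℝ),
    (∀ z, |b₀ z| ≤ 1 / 2) → (∀ z, |b₁ z| ≤ 1 / 2) → ∀ Z : ℤ × ℤ → ℝ, (∀ z, 0 ≤ Z z) →
    (∀ x ∈ D, ∀ i, x + st i ∉ D → b₁ (x + st i) ≠ b₀ (x + st i) → Z x = 0) →
    ∀ (a : ℤ × ℤ → ℝ) (H : ℝ),
    (∀ v : ℤ × ℤ → ℝ, (∀ z, z ∉ D → v z = 0) →
      2 * (∑ x ∈ D, a x * v x) - ∑ x ∈ D, ∑ i, (v x - v (x + st i)) ^ 2 ≤ H) →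
    |∫ h, ∑ x : D, a x * Z x * h x ∂(Mu D b₁) - ∫ h, ∑ x : D, a x * Z x * h x ∂(Mu D b₀)| ≤
      C * Real.sqrt (EIi D Z) * (Real.sqrt H + Real.sqrt (∑ x ∈ D, a x ^ 2)) := by
  obtain ⟨ε, C1, hε, hC1, hcf⟩ := cf_mini
  obtain ⟨C2, hC2, hvar⟩ := var_dual
  refine ⟨2 * Real.sqrt (C1 * C2) + 2 * Real.sqrt C1, by positivity, ?_⟩
  intro D b₀ b₁ h₀ h₁ Z hZ hk a H hH
  obtain ⟨ψ, hψ, hψ1, hψ2, hψ3⟩ := hcf D Z hZ
  have hEI : 0 ≤ EIi D Z := nae_EI D Z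
  have hH0 : 0 ≤ H := by
    have := hH (fun _ => 0) (fun _ _ => rfl)
    simpa using this
  have hA : 0 ≤ ∑ x ∈ D, a x ^ 2 := Finset.sum_nonneg fun x _ => sq_nonneg _
  have h := bdry_one h₀ h₁ hψ (fun x i hx hb h => ?_) hε hψ2 (fun x : D => a x) (fun x : D => Z x)
    (v := C2 * H) (B := C1 * EIi D Z)
    (δ := Real.sqrt (∑ x ∈ D, a x ^ 2) * Real.sqrt (C1 * EIi D Z)) ?_ ?_ ?_
  · refine h.trans ?_
    have e1 : C2 * H * (C1 * EIi D Z) = C1 * C2 * (EIi D Z * H) := by ring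
    rw [e1, Real.sqrt_mul (by positivity) (EIi D Z * H), Real.sqrt_mul hEI H,
      Real.sqrt_mul hC1 (EIi D Z)]
    have p1 : 0 ≤ 2 * Real.sqrt (C1 * C2) * Real.sqrt (EIi D Z) *
        Real.sqrt (∑ x ∈ D, a x ^ 2) := by positivity
    have p2 : 0 ≤ 2 * Real.sqrt C1 * Real.sqrt (EIi D Z) * Real.sqrt H := by positivity
    linarith
  · have h2 := hψ1 x h
    rw [hk x x.2 i hx hb] at h2
    linarith [h2.1, h2.2]
  · intro θ hθ
    exact hvar D _ (nae_bt h₀ h₁ hθ) a H hH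
  · intro θ hθ
    exact (hψ3 _ (nae_bt h₀ h₁ hθ)).1
  · intro θ hθ
    have hb := nae_bt h₀ h₁ hθ
    have : IsProbabilityMeasure (Mu D (bt b₀ b₁ θ)) := prob hb
    refine nae_cs (C := ∑ x : D, |a x| * Z x) (C' := ∑ x : D, Z x ^ 2)
      (q := fun h => ∑ x : D, (Z x - ψ x h) ^ 2) ?_ (fun h => ?_)
      ?_ (fun h => ?_) hA (fun h => ?_) (hψ3 _ hb).2
    · exact continuous_finsetSum _ fun x _ => continuous_const.mul
        (continuous_const.sub (hψ x).sm.continuous).abs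
    · rw [abs_of_nonneg (Finset.sum_nonneg fun x _ => by positivity)]
      refine Finset.sum_le_sum fun x _ => mul_le_mul_of_nonneg_left ?_ (abs_nonneg _)
      have h2 := hψ1 x h
      rw [abs_of_nonneg (by linarith [h2.2])]
      linarith [h2.1]
    · exact continuous_finsetSum _ fun x _ =>
        (continuous_const.sub (hψ x).sm.continuous).pow 2
    · rw [abs_of_nonneg (Finset.sum_nonneg fun x _ => by positivity)]
      refine Finset.sum_le_sum fun x _ => ?_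
      have h2 := hψ1 x h
      exact pow_le_pow_left₀ (by linarith [h2.2]) (by linarith [h2.1]) 2
    · have h3 := Finset.sum_mul_sq_le_sq_mul_sq (Finset.univ : Finset D) (fun x => |a x|)
        (fun x => |Z x - ψ x h|)
      refine h3.trans (le_of_eq ?_)
      simp only [sq_abs]
      rw [Finset.sum_coe_sort D (fun x => a x ^ 2)]

/- END nae -/

end Pool.Agent.Hmk.Ca
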