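import Pool.Agent.Hmk.CnD

/-!
# Hmk, Caratheodory part (helper70): exhausting sequences of lattice domains

The results of `CnB`, `CnC`, `CnD` with constants which do not depend on the domain.
-/

set_option autoImplicit false

open MeasureTheory Set Filter

open scoped ENNReal ContDiff Topology

noncomputable section

namespace Pool.Agent.Hmk.Ca

open Pool.Agent.Hmk Pool.Agent.Hmk.Mn Pool.Agent.Hmk.Cn

/-- the lattice domains `D n` (mesh `δ n → 0`) stay in a ball and exhaust `Ω` (they need not be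
contained in `Ω`) -/
structure Exh (Ω : Set ℂ) (R : ℝ) (δ : ℕ → ℝ) (D : ℕ → Finset (ℤ × ℤ)) : Prop where
  pos : ∀ n, 0 < δ n
  lim : Tendsto δ atTop (𝓝 0)
  bdd : ∀ n, ∀ x ∈ D n, ‖lat (δ n) x‖ ≤ R
  exh : ∀ C : Set ℂ, IsCompact C → C ⊆ Ω → ∀ᶠ n in atTop, ∀ x, lat (δ n) x ∈ C → x ∈ D n

/- MODULE nba
As `dual_disc` (`CnB.lean`) and `var_XF` (`CnC.lean`): the proofs there give a `δ₀` which depends only
on `φ`, `ε` and the radius `R`; only the order of the quantifiers changes. -/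
private theorem nba_uc {F : ℂ → ℝ} (hF : Continuous F) (hc : HasCompactSupport F) {η : ℝ}
    (hη : 0 < η) : ∃ r : ℝ, 0 < r ∧ ∀ z w : ℂ, ‖z - w‖ < r → |F z - F w| < η := by
  obtain ⟨r, hr, H⟩ := Metric.uniformContinuous_iff.1 (hc.uniformContinuous_of_continuous hF) η hη
  refine ⟨r, hr, fun z w h => ?_⟩
  have := H (a := z) (b := w) (by rw [dist_eq_norm]; exact h)
  rwa [Real.dist_eq] at this

theorem dual_disc_u : ∃ C : ℝ, 0 < C ∧ ∀ (R : ℝ) (φ : ℂ → ℝ), ContDiff ℝ ∞ φ →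
    HasCompactSupport φ → ∀ ε : ℝ, 0 < ε → ∃ δ₀ : ℝ, 0 < δ₀ ∧ ∀ δ : ℝ, 0 < δ → δ < δ₀ →
    ∀ Ω : Set ℂ, IsOpen Ω → (∀ z ∈ Ω, ‖z‖ ≤ R) → tsupport φ ⊆ Ω →
    ∀ D : Finset (ℤ × ℤ), (∀ x ∈ D, Metric.closedBall (lat δ x) (7 / 10 * δ) ⊆ Ω) →
    ∀ v : ℤ × ℤ → ℝ, (∀ z, z ∉ D → v z = 0) →
      2 * (∑ x ∈ D, (Real.sqrt 3 / 2 * δ ^ 2 * φ (lat δ x)) * v x) -
        ∑ x ∈ D, ∑ i, (v x - v (x + st i)) ^ 2 ≤ C * GE Ω φ + ε := by
  obtain ⟨κ, h1, h2, h3, h4, h5⟩ := exists_kappa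
  obtain ⟨C₀, hC₀, hI⟩ := interp h1 h2 h3 h4 h5
  refine ⟨2 * C₀, by positivity, fun R0 φ hφs hφc ε hε => ?_⟩
  obtain ⟨R, hR0, hRR⟩ : ∃ R : ℝ, 0 < R ∧ R0 ≤ R :=
    ⟨max R0 1, lt_max_of_lt_right one_pos, le_max_left _ _⟩
  obtain ⟨P, hP0, hP⟩ := poincare_disc hR0
  obtain ⟨e, he0, he⟩ : ∃ e : ℝ, 0 < e ∧ 2 * e ^ 2 * P ^ 2 ≤ ε := by
    refine ⟨Real.sqrt (ε / (2 * P ^ 2)), Real.sqrt_pos.2 (by positivity), ?_⟩
    rw [Real.sq_sqrt (by positivity)]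
    refine le_of_eq ?_
    field_simp
  obtain ⟨r, hr, hu⟩ := nba_uc hφs.continuous hφc he0
  refine ⟨min r R, lt_min hr hR0, fun δ hδ hδ' Ω _ hΩR hsubφ D hD v hv => ?_⟩
  have hφ : CSC Ω φ := ⟨hφs, hφc, hsubφ⟩
  have hR : ∀ z ∈ Ω, ‖z‖ ≤ R := fun z hz => (hΩR z hz).trans hRR
  have hbd : Bornology.IsBounded Ω := isBounded_iff_forall_norm_le.2 ⟨R, hR⟩
  have hδr : δ < r := hδ'.trans_le (min_le_left _ _)
  have hδR : δ ≤ R := (hδ'.trans_le (min_le_right _ _)).le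
  obtain ⟨E, hE⟩ : ∃ E, E = ∑ x ∈ D, ∑ i, (v x - v (x + st i)) ^ 2 := ⟨_, rfl⟩
  have hE0 : 0 ≤ E := by
    rw [hE]
    exact Finset.sum_nonneg fun x _ => Finset.sum_nonneg fun i _ => sq_nonneg _
  obtain ⟨a1, a2, a3⟩ := hI δ hδ D v hv
  have b1 := pair_interp h1 h2 h3 h5 hφ.sm.continuous (e := e) hδ
    (fun z w hzw => (hu z w (hzw.trans_lt hδr)).le) D v
  have hlat : ∀ x ∈ D, lat δ x ∈ Ω := fun x hx =>
    hD x hx (Metric.mem_closedBall_self (by positivity))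
  have b2 := hP δ hδ hδR D (fun x hx => hR _ (hlat x hx)) v hv
  obtain ⟨g, hg⟩ : ∃ g : ℂ → ℝ,
    g = fun z : ℂ => ∑ x ∈ D, v x * κ ((δ : ℂ)⁻¹ * z - lat 1 x) := ⟨_, rfl⟩
  rw [← hE] at b2 ⊢
  rw [← hg, ← hE] at a3
  rw [← hg] at a1 a2
  have hsub : tsupport g ⊆ Ω := by
    intro z hz
    obtain ⟨x, hx, hx'⟩ := a2 z hz
    exact hD x hx (by rw [Metric.mem_closedBall, dist_eq_norm]; exact hx')
  have hcs : HasCompactSupport g := by
    refine HasCompactSupport.intro (isCompact_closedBall (0 : ℂ) R) fun z hz => ?_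
    by_contra hc
    exact hz (mem_closedBall_zero_iff.2 (hR z (hsub (subset_tsupport _ hc))))
  have hk : CSC Ω (fun z => (2 * C₀)⁻¹ * g z) := by
    have e1 : tsupport (fun z => (2 * C₀)⁻¹ * g z) ⊆ tsupport g := by
      refine closure_mono fun z hz => ?_
      exact right_ne_zero_of_mul hz
    exact ⟨contDiff_const.mul a1, hcs.mul_left, e1.trans hsub⟩
  have c1 := le_GE hbd hφ hk
  have c2 : Jc φ (fun z => (2 * C₀)⁻¹ * g z) =
      (2 * C₀)⁻¹ * (2 * ∫ z, φ z * g z) - (2 * C₀)⁻¹ ^ 2 * dirE g := by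
    have e1 : ∫ z, φ z * ((2 * C₀)⁻¹ * g z) = (2 * C₀)⁻¹ * ∫ z, φ z * g z := by
      rw [← integral_const_mul]
      refine integral_congr_ae (ae_of_all _ fun z => ?_)
      show φ z * ((2 * C₀)⁻¹ * g z) = (2 * C₀)⁻¹ * (φ z * g z)
      ring
    have e2 : dirE (fun z => (2 * C₀)⁻¹ * g z) = (2 * C₀)⁻¹ ^ 2 * dirE g := by
      unfold dirE
      rw [← integral_const_mul]
      refine integral_congr_ae (ae_of_all _ fun z => ?_)
      have e3 : fderiv ℝ (fun z => (2 * C₀)⁻¹ * g z) z = (2 * C₀)⁻¹ • fderiv ℝ g z :=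
        (((a1.differentiable (by simp)) z).hasFDerivAt.const_mul _).fderiv
      show gsq (fun z => (2 * C₀)⁻¹ * g z) z = (2 * C₀)⁻¹ ^ 2 * gsq g z
      unfold gsq
      rw [e3, _root_.smul_apply, _root_.smul_apply, smul_eq_mul, smul_eq_mul]
      ring
    unfold Jc
    rw [e1, e2]
    ring
  rw [c2] at c1
  have c3 : 2 * (∫ z, φ z * g z) ≤ 2 * C₀ * GE Ω φ + E / 2 := by
    have h6 : 2 * (∫ z, φ z * g z) - (2 * C₀)⁻¹ * dirE g ≤ 2 * C₀ * GE Ω φ := by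
      have h7 := mul_le_mul_of_nonneg_left c1 (show 0 ≤ 2 * C₀ by positivity)
      have h8 : 2 * C₀ * ((2 * C₀)⁻¹ * (2 * ∫ z, φ z * g z) - (2 * C₀)⁻¹ ^ 2 * dirE g) =
          2 * (∫ z, φ z * g z) - (2 * C₀)⁻¹ * dirE g := by
        field_simp
      rw [h8] at h7
      exact h7
    have h9 : (2 * C₀)⁻¹ * dirE g ≤ (2 * C₀)⁻¹ * (C₀ * E) :=
      mul_le_mul_of_nonneg_left a3 (by positivity)
    have h10 : (2 * C₀)⁻¹ * (C₀ * E) = E / 2 := by field_simp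
    linarith
  have c4 : ∑ x ∈ D, (Real.sqrt 3 / 2 * δ ^ 2 * φ (lat δ x)) * v x =
      Real.sqrt 3 / 2 * δ ^ 2 * ∑ x ∈ D, φ (lat δ x) * v x := by
    rw [Finset.mul_sum]
    refine Finset.sum_congr rfl fun x _ => ?_
    ring
  have hsq : Real.sqrt 3 ≤ 2 := by
    rw [Real.sqrt_le_left (by norm_num)]
    norm_num
  have hs : 0 ≤ δ ^ 2 * ∑ x ∈ D, |v x| := by
    have : 0 ≤ ∑ x ∈ D, |v x| := Finset.sum_nonneg fun x _ => abs_nonneg _
    positivity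
  have c5 : e * (Real.sqrt 3 / 2 * δ ^ 2 * ∑ x ∈ D, |v x|) ≤ e * (P * Real.sqrt E) := by
    refine mul_le_mul_of_nonneg_left ?_ he0.le
    calc Real.sqrt 3 / 2 * δ ^ 2 * ∑ x ∈ D, |v x| = Real.sqrt 3 / 2 * (δ ^ 2 * ∑ x ∈ D, |v x|) := by
          ring
      _ ≤ 1 * (δ ^ 2 * ∑ x ∈ D, |v x|) := mul_le_mul_of_nonneg_right (by linarith) hs
      _ ≤ _ := by
          rw [one_mul]
          exact b2
  have c6 := (abs_le.1 (b1.trans c5)).1
  have hgz : ∀ z, ∑ x ∈ D, v x * κ ((δ : ℂ)⁻¹ * z - lat 1 x) = g z := fun z => by rw [hg]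
  simp only [hgz] at c6
  rw [c4]
  have c7 : Real.sqrt E ^ 2 = E := Real.sq_sqrt hE0
  have c8 : 2 * (e * (P * Real.sqrt E)) ≤ E / 2 + 2 * e ^ 2 * P ^ 2 := by
    nlinarith [sq_nonneg (Real.sqrt E - 2 * (e * P))]
  linarith

theorem var_XF_u : ∃ C : ℝ, 0 < C ∧ ∀ (R : ℝ) (φ : ℂ → ℝ), ContDiff ℝ ∞ φ →
    HasCompactSupport φ → ∀ ε : ℝ, 0 < ε → ∃ δ₀ : ℝ, 0 < δ₀ ∧ ∀ δ : ℝ, 0 < δ → δ < δ₀ →
    ∀ Ω : Set ℂ, IsOpen Ω → (∀ z ∈ Ω, ‖z‖ ≤ R) → tsupport φ ⊆ Ω →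
    ∀ D : Finset (ℤ × ℤ), (∀ x ∈ D, Metric.closedBall (lat δ x) (7 / 10 * δ) ⊆ Ω) →
    ∀ b : ℤ × ℤ → ℝ, (∀ z, |b z| ≤ 1 / 2) →
      ∫ h, (XF D δ φ h - ∫ k, XF D δ φ k ∂(Mu D b)) ^ 2 ∂(Mu D b) ≤ C * GE Ω φ + ε := by
  obtain ⟨C1, hC1, h1⟩ := var_dual
  obtain ⟨C2, hC2, h2⟩ := dual_disc_u
  refine ⟨C1 * C2 + 1, by positivity, fun R φ hφs hφc ε hε => ?_⟩
  obtain ⟨δ₀, hδ₀, h3⟩ := h2 R φ hφs hφc (ε / (C1 + 1)) (by positivity)
  refine ⟨δ₀, hδ₀, fun δ hδ hδ' Ω hΩ hR hsub D hD b hb' => ?_⟩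
  have hφ : CSC Ω φ := ⟨hφs, hφc, hsub⟩
  have hb : Bornology.IsBounded Ω := isBounded_iff_forall_norm_le.2 ⟨R, hR⟩
  have h4 := h1 D b hb' (fun x => Real.sqrt 3 / 2 * δ ^ 2 * φ (lat δ x))
    (C2 * GE Ω φ + ε / (C1 + 1)) (h3 δ hδ hδ' Ω hΩ hR hsub D hD)
  have e : XF D δ φ = fun h => ∑ x : D, (Real.sqrt 3 / 2 * δ ^ 2 * φ (lat δ x)) * h x := by
    funext h
    unfold XF
    rw [Finset.mul_sum]
    refine Finset.sum_congr rfl fun x _ => ?_
    ring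
  rw [e]
  refine h4.trans ?_
  have hG : 0 ≤ GE Ω φ := GE_nonneg hb hφ
  have h5 : C1 * (ε / (C1 + 1)) ≤ ε := by
    rw [mul_div_assoc', div_le_iff₀ (by linarith)]
    nlinarith
  calc C1 * (C2 * GE Ω φ + ε / (C1 + 1)) = C1 * C2 * GE Ω φ + C1 * (ε / (C1 + 1)) := by ring
    _ ≤ (C1 * C2 + 1) * GE Ω φ + ε := by linarith

/- END nba -/

/- MODULE nbb
As `clt_lap` and `mean_lap_c` (`CnD.lean`, modules mkf and mkb): `Appr` was used there only through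
`pos`, `lim`, `exh` and the bound `‖lat (δ n) x‖ ≤ R` for `x ∈ D n` (now `bdd`).  (`Ω` need not be
bounded.) -/
private theorem nbb_s3 : (0 : ℝ) < Real.sqrt 3 ∧ Real.sqrt 3 * Real.sqrt 3 = 3 :=
  ⟨Real.sqrt_pos.2 (by norm_num), Real.mul_self_sqrt (by norm_num)⟩

/-- lattice coordinates -/
private def nbb_L : (ℝ × ℝ) ≃ₗ[ℝ] ℂ where
  toFun p := ⟨p.1 + p.2 / 2, p.2 * (Real.sqrt 3 / 2)⟩
  invFun z := (z.re - z.im / Real.sqrt 3, z.im * 2 / Real.sqrt 3)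
  map_add' p q := by
    refine Complex.ext ?_ ?_
    · show (p + q).1 + (p + q).2 / 2 = (p.1 + p.2 / 2) + (q.1 + q.2 / 2)
      rw [Prod.fst_add, Prod.snd_add]
      ring
    · show (p + q).2 * (Real.sqrt 3 / 2) = p.2 * (Real.sqrt 3 / 2) + q.2 * (Real.sqrt 3 / 2)
      rw [Prod.snd_add]
      ring
  map_smul' t p := by
    refine Complex.ext ?_ ?_
    · simp
      ring
    · simp
      ring
  left_inv p := by
    have h := nbb_s3
    refine Prod.ext ?_ ?_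
    · show p.1 + p.2 / 2 - p.2 * (Real.sqrt 3 / 2) / Real.sqrt 3 = p.1
      have h0 := h.1.ne'
      field_simp
      ring
    · show p.2 * (Real.sqrt 3 / 2) * 2 / Real.sqrt 3 = p.2
      have h0 := h.1.ne'
      field_simp
  right_inv z := by
    have h := nbb_s3
    refine Complex.ext ?_ ?_
    · show z.re - z.im / Real.sqrt 3 + z.im * 2 / Real.sqrt 3 / 2 = z.re
      ring
    · show z.im * 2 / Real.sqrt 3 * (Real.sqrt 3 / 2) = z.im
      have h0 := h.1.ne'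
      field_simp

private theorem nbb_lat (δ : ℝ) (x : ℤ × ℤ) : nbb_L (lt δ x) = lat δ x := by
  refine Complex.ext ?_ ?_
  · show δ * (x.1 : ℝ) + δ * (x.2 : ℝ) / 2 = (lat δ x).re
    simp [lat, om]
    ring
  · show δ * (x.2 : ℝ) * (Real.sqrt 3 / 2) = (lat δ x).im
    simp [lat, om]
    ring

private def nbb_E : (ℝ × ℝ) ≃L[ℝ] ℂ := nbb_L.toContinuousLinearEquiv

private theorem nbb_E_lat (δ : ℝ) (x : ℤ × ℤ) : nbb_E (lt δ x) = lat δ x := nbb_lat δ x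

private theorem nbb_FG {D : Finset (ℤ × ℤ)} {b : ℤ × ℤ → ℝ} (hb : ∀ z, |b z| ≤ 1 / 2)
    (G : ℤ × ℤ → ℝ) : ∫ h, FG D b G h ∂(Mu D b) = ∑ x ∈ D, Lap G x * mh D b x := by
  have hp : IsProbabilityMeasure (Mu D b) := prob hb
  unfold FG mh
  rw [integral_finsetSum]
  · refine Finset.sum_congr rfl fun x _ => ?_
    exact integral_const_mul _ _
  · intro x _
    exact ((gl_memLp hb x).integrable (by norm_num)).const_mul _

private theorem nbb_exp (x y : ℝ) :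
    ‖Complex.exp (Complex.I * (x : ℝ)) - Complex.exp (Complex.I * (y : ℝ))‖ ≤ |x - y| := by
  have h1 : Complex.exp (Complex.I * (x : ℝ)) - Complex.exp (Complex.I * (y : ℝ)) =
      Complex.exp (Complex.I * (y : ℝ)) * (Complex.exp (Complex.I * ((x - y : ℝ))) - 1) := by
    rw [mul_sub, ← Complex.exp_add, mul_one]
    congr 2
    push_cast
    ring
  rw [h1, norm_mul]
  have h2 : ‖Complex.exp (Complex.I * (y : ℝ))‖ = 1 := by
    rw [mul_comm]; exact Complex.norm_exp_ofReal_mul_I y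
  rw [h2, one_mul]
  have := Real.norm_exp_I_mul_ofReal_sub_one_le (x := x - y)
  simpa using this

/-- characteristic functions of `X` and `Y` differ by at most `|τ| (Var (X - Y))^{1/2}` -/
private theorem nbb_char {α : Type} [MeasurableSpace α] (μ : Measure α) [IsProbabilityMeasure μ]
    {X Y : α → ℝ} (hX : MemLp X 2 μ) (hY : MemLp Y 2 μ) (τ : ℝ) {v : ℝ}
    (hv : ∫ k, ((X k - Y k) - ∫ k, (X k - Y k) ∂μ) ^ 2 ∂μ ≤ v) :
    ‖(∫ k, Complex.exp (Complex.I * (τ * (X k - ∫ k, X k ∂μ) : ℝ)) ∂μ) -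
      ∫ k, Complex.exp (Complex.I * (τ * (Y k - ∫ k, Y k ∂μ) : ℝ)) ∂μ‖ ≤ |τ| * Real.sqrt v := by
  have iX : Integrable X μ := hX.integrable (by norm_num)
  have iY : Integrable Y μ := hY.integrable (by norm_num)
  have hint : ∀ {W : α → ℝ}, MemLp W 2 μ →
      Integrable (fun k => Complex.exp (Complex.I * (τ * (W k - ∫ k, W k ∂μ) : ℝ))) μ := by
    intro W hW
    refine Integrable.of_bound (C := 1) ?_ (Filter.Eventually.of_forall fun k => ?_)
    · have h1 := hW.aestronglyMeasurable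
      have h2 : AEStronglyMeasurable (fun k => (τ * (W k - ∫ k, W k ∂μ) : ℝ)) μ :=
        (h1.sub aestronglyMeasurable_const).const_mul τ
      exact Complex.continuous_exp.comp_aestronglyMeasurable
        ((Complex.continuous_ofReal.comp_aestronglyMeasurable h2).const_mul _)
    · rw [mul_comm]; exact (Complex.norm_exp_ofReal_mul_I _).le
  rw [← integral_sub (hint hX) (hint hY)]
  set W : α → ℝ := fun k => (X k - Y k) - ∫ k, (X k - Y k) ∂μ with hW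
  have hWm : MemLp W 2 μ := (hX.sub hY).sub (memLp_const _)
  have hWi : Integrable (fun k => |W k|) μ := (hWm.integrable (by norm_num)).abs
  have hW2 : Integrable (fun k => W k ^ 2) μ := hWm.integrable_sq
  have h1 : ‖∫ k, (Complex.exp (Complex.I * (τ * (X k - ∫ k, X k ∂μ) : ℝ)) -
      Complex.exp (Complex.I * (τ * (Y k - ∫ k, Y k ∂μ) : ℝ))) ∂μ‖ ≤ ∫ k, |τ| * |W k| ∂μ := by
    refine norm_integral_le_of_norm_le (hWi.const_mul _) (Filter.Eventually.of_forall fun k => ?_)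
    refine (nbb_exp _ _).trans (le_of_eq ?_)
    rw [← abs_mul, hW]
    simp only
    rw [integral_sub iX iY]
    congr 1
    ring
  refine h1.trans ?_
  rw [integral_const_mul]
  refine mul_le_mul_of_nonneg_left ?_ (abs_nonneg _)
  have h2 : (∫ k, |W k| ∂μ) ^ 2 ≤ ∫ k, W k ^ 2 ∂μ := by
    have h3 : 0 ≤ ∫ k, (|W k| - ∫ k, |W k| ∂μ) ^ 2 ∂μ := integral_nonneg fun k => sq_nonneg _
    have h4 : ∫ k, (|W k| - ∫ k, |W k| ∂μ) ^ 2 ∂μ =
        (∫ k, W k ^ 2 ∂μ) - (∫ k, |W k| ∂μ) ^ 2 := by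
      set c := ∫ k, |W k| ∂μ with hc
      have e : ∀ k, (|W k| - c) ^ 2 = W k ^ 2 - (2 * c) * |W k| + c ^ 2 := by
        intro k
        have := sq_abs (W k)
        linear_combination this
      simp only [e]
      have i1 : Integrable (fun k => W k ^ 2 - (2 * c) * |W k|) μ := hW2.sub (hWi.const_mul _)
      rw [integral_add i1 (integrable_const _), integral_sub hW2 (hWi.const_mul _),
        integral_const_mul, integral_const, ← hc]
      simp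
      ring
    linarith
  exact Real.le_sqrt_of_sq_le (h2.trans hv)

private theorem nbb_mem {D : Finset (ℤ × ℤ)} {b : ℤ × ℤ → ℝ} (hb : ∀ z, |b z| ≤ 1 / 2)
    (a : ℤ × ℤ → ℝ) : MemLp (fun h : D → ℝ => ∑ x : D, a x * h x) 2 (Mu D b) := by
  refine memLp_finsetSum _ fun x _ => ?_
  have h1 := gl_memLp (D := D) hb x.1
  have e : (fun h : D → ℝ => gl D b h x.1) = fun h => h x := by
    funext h
    simp [gl, x.2]
  rw [e] at h1
  exact h1.const_mul (a x)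

private theorem nbb_XFmem {D : Finset (ℤ × ℤ)} {b : ℤ × ℤ → ℝ} (hb : ∀ z, |b z| ≤ 1 / 2)
    (δ : ℝ) (φ : ℂ → ℝ) : MemLp (fun h : D → ℝ => XF D δ φ h) 2 (Mu D b) := by
  unfold XF
  exact (nbb_mem hb (fun x => φ (lat δ x))).const_mul _

private theorem nbb_XFlin {D : Finset (ℤ × ℤ)} (δ : ℝ) (f g : ℂ → ℝ) (h : D → ℝ) :
    XF D δ f h - XF D δ g h = XF D δ (fun z => f z - g z) h := by
  unfold XF
  rw [← mul_sub, ← Finset.sum_sub_distrib]
  simp only [sub_mul]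

private def nbb_fL (p : ℝ × ℝ) : ℂ := (p.1 : ℂ) + (p.2 : ℂ) * om

private theorem nbb_fL_sm : ContDiff ℝ ∞ nbb_fL := by
  unfold nbb_fL
  exact (Complex.ofRealCLM.contDiff.comp contDiff_fst).add
    ((Complex.ofRealCLM.contDiff.comp contDiff_snd).mul contDiff_const)

private def nbb_fM (z : ℂ) : ℝ × ℝ := (z.re - z.im / Real.sqrt 3, 2 * z.im / Real.sqrt 3)

private theorem nbb_fM_cont : Continuous nbb_fM := by
  unfold nbb_fM
  fun_prop

private theorem nbb_fML (p : ℝ × ℝ) : nbb_fM (nbb_fL p) = p := by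
  have h3 : Real.sqrt 3 ≠ 0 := (Real.sqrt_pos.2 (by norm_num)).ne'
  unfold nbb_fM nbb_fL om
  ext
  · simp
    field_simp
    ring
  · simp
    field_simp

private theorem nbb_flt (δ : ℝ) (x : ℤ × ℤ) : nbb_fL (lt δ x) = lat δ x := by
  unfold nbb_fL lt lat
  push_cast
  ring

private theorem nbb_fltn (δ : ℝ) (x : ℤ × ℤ) : ‖lt δ x‖ ≤ 2 * ‖lat δ x‖ := by
  have h1 : lt δ x = nbb_fM (lat δ x) := by rw [← nbb_flt, nbb_fML]
  have h31 : 1 ≤ Real.sqrt 3 := by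
    rw [show (1 : ℝ) = Real.sqrt 1 from Real.sqrt_one.symm]
    exact Real.sqrt_le_sqrt (by norm_num)
  have h30 : 0 < Real.sqrt 3 := by linarith
  set z := lat δ x with hz
  have hr := Complex.abs_re_le_norm z
  have hi := Complex.abs_im_le_norm z
  have hn := norm_nonneg z
  have hi' : |z.im / Real.sqrt 3| ≤ |z.im| := by
    rw [abs_div, abs_of_pos h30]
    exact div_le_self (abs_nonneg _) h31
  rw [h1, Prod.norm_def]
  refine max_le ?_ ?_
  · show |z.re - z.im / Real.sqrt 3| ≤ 2 * ‖z‖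
    have := abs_sub z.re (z.im / Real.sqrt 3)
    linarith
  · show |2 * z.im / Real.sqrt 3| ≤ 2 * ‖z‖
    rw [mul_div_assoc, abs_mul, abs_two]
    linarith

private theorem nbb_fFG {D : Finset (ℤ × ℤ)} (b G : ℤ × ℤ → ℝ) (h : D → ℝ) :
    FG D b G h = ∑ x : D, Lap G x * h x := by
  unfold FG
  rw [← Finset.sum_coe_sort]
  refine Finset.sum_congr rfl fun x _ => ?_
  simp [gl, x.2]

theorem clt_lap_e {σ : ℝ} (hI : Itf σ) {Ω : Set ℂ} (hΩ : IsOpen Ω) {R : ℝ} {δ : ℕ → ℝ}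
    {D : ℕ → Finset (ℤ × ℤ)} (hA : Exh Ω R δ D) {β : ℕ → ℤ × ℤ → ℝ}
    (hβ : ∀ n z, |β n z| ≤ 1 / 2) {g : ℂ → ℝ} (hg : CSC Ω g) (τ : ℝ) :
    Tendsto (fun n => ∫ h, Complex.exp (Complex.I * (τ * (XF (D n) (δ n) (lap g) h -
        ∫ k, XF (D n) (δ n) (lap g) k ∂(Mu (D n) (β n))) : ℝ)) ∂(Mu (D n) (β n))) atTop
      (𝓝 (Complex.exp ((- τ ^ 2 * (σ / Real.sqrt 3) * dirE g / 2 : ℝ)))) := by
  haveI hp : ∀ n, IsProbabilityMeasure (Mu (D n) (β n)) := fun n => prob (hβ n)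
  have h30 : 0 < Real.sqrt 3 := Real.sqrt_pos.2 (by norm_num)
  have h33 : Real.sqrt 3 * Real.sqrt 3 = 3 := Real.mul_self_sqrt (by norm_num)
  have h31 : 1 ≤ Real.sqrt 3 := by
    rw [show (1 : ℝ) = Real.sqrt 1 from Real.sqrt_one.symm]
    exact Real.sqrt_le_sqrt (by norm_num)
  -- the function on `ℝ × ℝ`
  set g' : ℝ × ℝ → ℝ := fun p => g (nbb_fL p) with hg'
  have hg's : ContDiff ℝ ∞ g' := hg.sm.comp nbb_fL_sm
  have hg'c : HasCompactSupport g' := by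
    refine HasCompactSupport.intro (hg.cs.isCompact.image nbb_fM_cont) fun p hp => ?_
    refine image_eq_zero_of_notMem_tsupport (f := g) fun hm => hp ?_
    exact ⟨nbb_fL p, hm, nbb_fML p⟩
  obtain ⟨Kc, hKc, hK1, hK2⟩ := exists_compact_between hg.cs.isCompact hΩ hg.sub
  set U : Set (ℝ × ℝ) := nbb_fL ⁻¹' (interior Kc) with hU
  have hUo : IsOpen U := isOpen_interior.preimage nbb_fL_sm.continuous
  have hUs : tsupport g' ⊆ U := by
    have : tsupport g' ⊆ nbb_fL ⁻¹' (tsupport g) := by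
      refine closure_minimal (fun p hp => ?_)
        ((isClosed_tsupport g).preimage nbb_fL_sm.continuous)
      exact subset_tsupport g hp
    exact this.trans (preimage_mono hK1)
  obtain ⟨C, hC, hvar⟩ := var_small (R := |R| + 1) (by positivity)
  rw [Metric.tendsto_atTop]
  intro ε hε
  have hcont : Continuous fun e : ℝ => Complex.exp ((- (-τ / Real.sqrt 3) ^ 2 * σ * e / 2 : ℝ)) := by
    fun_prop
  obtain ⟨ρ, hρ, hρ'⟩ := Metric.continuous_iff.1 hcont (Real.sqrt 3 * dirE g) (ε / 4)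
    (by positivity)
  have hlimv : Complex.exp ((- (-τ / Real.sqrt 3) ^ 2 * σ * (Real.sqrt 3 * dirE g) / 2 : ℝ)) =
      Complex.exp ((- τ ^ 2 * (σ / Real.sqrt 3) * dirE g / 2 : ℝ)) := by
    congr 2
    field_simp
  rw [hlimv] at hρ'
  set ε' : ℝ := min (ε / 4) (1 / (|τ| + 1)) with hε'
  have hε'0 : 0 < ε' := lt_min (by positivity) (by positivity)
  set e : ℝ := ε / (4 * (|τ| + 1) * (Real.sqrt C + 1)) with he
  have he0 : 0 < e := by positivity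
  obtain ⟨δ1, hδ1, C1, k1, hItf⟩ := hI g' hg's hg'c U hUo hUs (2 * (|R| + 1)) (by positivity) ε' hε'0
  obtain ⟨δ2, hδ2, hTay⟩ := taylor_lap hg.sm hg.cs he0
  obtain ⟨δ3, hδ3, hEG⟩ := EG_lim hg.sm hg.cs isOpen_interior hK1 (ε := ρ / 2) (by positivity)
  have hlimδ := hA.lim
  rw [Metric.tendsto_atTop] at hlimδ
  obtain ⟨N1, hN1⟩ := hlimδ (min (min δ1 δ2) (min δ3 (|R| + 1)))
    (lt_min (lt_min hδ1 hδ2) (lt_min hδ3 (by positivity)))
  obtain ⟨N2, hN2⟩ := eventually_atTop.1 (hA.exh Kc hKc hK2)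
  refine ⟨max N1 N2, fun n hn => ?_⟩
  have hn1 := hN1 n ((le_max_left _ _).trans hn)
  have hn2 := hN2 n ((le_max_right _ _).trans hn)
  have hδp := hA.pos n
  rw [Real.dist_eq, sub_zero, abs_of_pos hδp] at hn1
  have d1 : δ n < δ1 := hn1.trans_le ((min_le_left _ _).trans (min_le_left _ _))
  have d2 : δ n < δ2 := hn1.trans_le ((min_le_left _ _).trans (min_le_right _ _))
  have d3 : δ n < δ3 := hn1.trans_le ((min_le_right _ _).trans (min_le_left _ _))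
  have d4 : δ n ≤ |R| + 1 := (hn1.trans_le ((min_le_right _ _).trans (min_le_right _ _))).le
  have hDin : ∀ x, lat (δ n) x ∈ interior Kc → x ∈ D n := fun x hx => hn2 x (interior_subset hx)
  have hDU : ∀ x, lt (δ n) x ∈ U → x ∈ D n := by
    intro x hx
    refine hDin x ?_
    have : nbb_fL (lt (δ n) x) ∈ interior Kc := hx
    rwa [nbb_flt] at this
  have hDR : ∀ x ∈ D n, ‖lat (δ n) x‖ ≤ |R| + 1 := by
    intro x hx
    linarith [hA.bdd n x hx, le_abs_self R]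
  obtain ⟨_, hchar⟩ := hItf (δ n) hδp d1 (D n) hDU
    (fun x hx => (nbb_fltn (δ n) x).trans (by linarith [hDR x hx])) (β n) (hβ n)
  have hgg : (fun x => g' (lt (δ n) x)) = fun x => g (lat (δ n) x) := by
    funext x
    show g (nbb_fL (lt (δ n) x)) = _
    rw [nbb_flt]
  rw [hgg] at hchar
  have hτ' : |(-τ / Real.sqrt 3)| ≤ 1 / ε' := by
    have a1 : |(-τ / Real.sqrt 3)| ≤ |τ| := by
      rw [abs_div, abs_neg, abs_of_pos h30]
      exact div_le_self (abs_nonneg _) h31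
    have a2 : |τ| + 1 ≤ 1 / ε' := by
      rw [le_div_iff₀ hε'0, ← le_div_iff₀' (by positivity)]
      exact min_le_right _ _
    linarith
  have hch := hchar (-τ / Real.sqrt 3) hτ'
  set μ := Mu (D n) (β n) with hμ
  set Gf : ℤ × ℤ → ℝ := fun x => g (lat (δ n) x) with hGf
  -- the difference of the linear functionals
  set a : ℤ × ℤ → ℝ := fun x => Real.sqrt 3 / 2 * δ n ^ 2 * lap g (lat (δ n) x) +
    1 / Real.sqrt 3 * Lap Gf x with ha
  have haabs : ∀ x, |a x| ≤ e * δ n ^ 2 := by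
    intro x
    have t1 := hTay (δ n) hδp d2 x
    have t2 : a x = 1 / Real.sqrt 3 * (Lap Gf x + 3 / 2 * δ n ^ 2 * lap g (lat (δ n) x)) := by
      show Real.sqrt 3 / 2 * δ n ^ 2 * lap g (lat (δ n) x) + 1 / Real.sqrt 3 * Lap Gf x = _
      have : 1 / Real.sqrt 3 * (3 / 2) = Real.sqrt 3 / 2 := by
        field_simp
        linear_combination (-1 : ℝ) * h33
      rw [mul_add, ← this]
      ring
    rw [t2, abs_mul, abs_of_pos (by positivity : 0 < 1 / Real.sqrt 3)]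
    have t3 : 1 / Real.sqrt 3 ≤ 1 := by
      rw [div_le_one h30]; exact h31
    calc 1 / Real.sqrt 3 * |Lap Gf x + 3 / 2 * δ n ^ 2 * lap g (lat (δ n) x)|
        ≤ 1 * (e * δ n ^ 2) := mul_le_mul t3 t1 (abs_nonneg _) zero_le_one
      _ = e * δ n ^ 2 := one_mul _
  have hv := hvar (δ n) hδp d4 (D n) hDR (β n) (hβ n) a e haabs
  have hX := nbb_XFmem (D := D n) (hβ n) (δ n) (lap g)
  have hY : MemLp (fun h : D n → ℝ => (-(1 / Real.sqrt 3)) * FG (D n) (β n) Gf h) 2 μ := by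
    simp only [nbb_fFG]
    exact (nbb_mem (hβ n) (Lap Gf)).const_mul _
  have hdiff : ∀ h : D n → ℝ, XF (D n) (δ n) (lap g) h -
      (-(1 / Real.sqrt 3)) * FG (D n) (β n) Gf h = ∑ x : D n, a x * h x := by
    intro h
    rw [nbb_fFG]
    unfold XF
    rw [Finset.mul_sum, Finset.mul_sum, ← Finset.sum_sub_distrib]
    refine Finset.sum_congr rfl fun x _ => ?_
    rw [ha]
    ring
  have hv2 : ∫ h, ((XF (D n) (δ n) (lap g) h - (-(1 / Real.sqrt 3)) * FG (D n) (β n) Gf h) -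
      ∫ h, (XF (D n) (δ n) (lap g) h - (-(1 / Real.sqrt 3)) * FG (D n) (β n) Gf h) ∂μ) ^ 2 ∂μ ≤
      C * e ^ 2 := by
    simp only [hdiff]
    exact hv
  have hc1 := nbb_char μ hX hY τ hv2
  have e2 : ∫ h, Complex.exp (Complex.I * (τ * ((-(1 / Real.sqrt 3)) * FG (D n) (β n) Gf h -
      ∫ k, (-(1 / Real.sqrt 3)) * FG (D n) (β n) Gf k ∂μ) : ℝ)) ∂μ =
      ∫ h, Complex.exp (Complex.I * ((-τ / Real.sqrt 3) * (FG (D n) (β n) Gf h -
        ∫ k, FG (D n) (β n) Gf k ∂μ) : ℝ)) ∂μ := by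
    refine integral_congr_ae (Filter.Eventually.of_forall fun h => ?_)
    simp only [integral_const_mul]
    congr 3
    ring
  rw [e2] at hc1
  have hc2 : |τ| * Real.sqrt (C * e ^ 2) ≤ ε / 4 := by
    rw [Real.sqrt_mul hC.le, Real.sqrt_sq he0.le]
    have : |τ| * (Real.sqrt C * e) ≤ (|τ| + 1) * ((Real.sqrt C + 1) * e) := by
      refine mul_le_mul (by linarith) (mul_le_mul_of_nonneg_right (by linarith) he0.le)
        (by positivity) (by positivity)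
    refine this.trans (le_of_eq ?_)
    rw [he]
    field_simp
  have hE := hEG (δ n) hδp d3 (D n) hDin
  have hc3 := hρ' (EG (D n) Gf) (by
    rw [Real.dist_eq]
    exact lt_of_le_of_lt hE (by linarith))
  calc dist (∫ h, Complex.exp (Complex.I * (τ * (XF (D n) (δ n) (lap g) h -
        ∫ k, XF (D n) (δ n) (lap g) k ∂μ) : ℝ)) ∂μ)
        (Complex.exp ((- τ ^ 2 * (σ / Real.sqrt 3) * dirE g / 2 : ℝ)))
      ≤ dist (∫ h, Complex.exp (Complex.I * (τ * (XF (D n) (δ n) (lap g) h -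
        ∫ k, XF (D n) (δ n) (lap g) k ∂μ) : ℝ)) ∂μ)
        (∫ h, Complex.exp (Complex.I * ((-τ / Real.sqrt 3) * (FG (D n) (β n) Gf h -
        ∫ k, FG (D n) (β n) Gf k ∂μ) : ℝ)) ∂μ) +
        dist (∫ h, Complex.exp (Complex.I * ((-τ / Real.sqrt 3) * (FG (D n) (β n) Gf h -
        ∫ k, FG (D n) (β n) Gf k ∂μ) : ℝ)) ∂μ)
        (Complex.exp ((- (-τ / Real.sqrt 3) ^ 2 * σ * EG (D n) Gf / 2 : ℝ))) +
        dist (Complex.exp ((- (-τ / Real.sqrt 3) ^ 2 * σ * EG (D n) Gf / 2 : ℝ)))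
        (Complex.exp ((- τ ^ 2 * (σ / Real.sqrt 3) * dirE g / 2 : ℝ))) := dist_triangle4 _ _ _ _
    _ < ε := by
        have f1 : dist (∫ h, Complex.exp (Complex.I * (τ * (XF (D n) (δ n) (lap g) h -
          ∫ k, XF (D n) (δ n) (lap g) k ∂μ) : ℝ)) ∂μ)
          (∫ h, Complex.exp (Complex.I * ((-τ / Real.sqrt 3) * (FG (D n) (β n) Gf h -
          ∫ k, FG (D n) (β n) Gf k ∂μ) : ℝ)) ∂μ) ≤ ε / 4 := by
          rw [dist_eq_norm]
          exact hc1.trans hc2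
        have f2 : dist (∫ h, Complex.exp (Complex.I * ((-τ / Real.sqrt 3) *
          (FG (D n) (β n) Gf h - ∫ k, FG (D n) (β n) Gf k ∂μ) : ℝ)) ∂μ)
          (Complex.exp ((- (-τ / Real.sqrt 3) ^ 2 * σ * EG (D n) Gf / 2 : ℝ))) ≤ ε / 4 := by
          rw [dist_eq_norm]
          exact hch.trans (min_le_left _ _)
        linarith

theorem mean_lap_e {σ : ℝ} (hI : Itf σ) {Ω : Set ℂ} (hΩ : IsOpen Ω) {R : ℝ} {δ : ℕ → ℝ}
    {D : ℕ → Finset (ℤ × ℤ)} (hA : Exh Ω R δ D) {β : ℕ → ℤ × ℤ → ℝ}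
    (hβ : ∀ n z, |β n z| ≤ 1 / 2) {g : ℂ → ℝ} (hg : CSC Ω g) :
    Tendsto (fun n => ∫ h, XF (D n) (δ n) (lap g) h ∂(Mu (D n) (β n))) atTop (𝓝 0) := by
  set R₀ : ℝ := max R 1 with hR₀
  have hR1 : 1 ≤ R₀ := le_max_right _ _
  have hmem : ∀ n, ∀ x ∈ D n, ‖lat (δ n) x‖ ≤ R₀ := fun n x hx =>
    (hA.bdd n x hx).trans (le_max_left _ _)
  obtain ⟨C, hC, hcard⟩ := card_lat
  obtain ⟨V, hV, hgV, hVΩ, hVc⟩ := exists_open_between_and_isCompact_closure hg.cs hΩ hg.sub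
  set g₂ : ℝ × ℝ → ℝ := fun p => g (nbb_E p) with hg₂
  have hsm : ContDiff ℝ ∞ g₂ := hg.sm.comp nbb_E.contDiff
  have hcs : HasCompactSupport g₂ := hg.cs.comp_homeomorph nbb_E.toHomeomorph
  have hts : tsupport g₂ ⊆ nbb_E ⁻¹' V :=
    (tsupport_comp_subset_preimage g nbb_E.continuous).trans (preimage_mono hgV)
  set N : ℝ := ‖(nbb_E.symm : ℂ →L[ℝ] ℝ × ℝ)‖ + 1 with hN
  have hN0 : 0 < N := by positivity
  have hlt : ∀ n, ∀ x ∈ D n, ‖lt (δ n) x‖ ≤ N * R₀ := by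
    intro n x hx
    have h1 : lt (δ n) x = nbb_E.symm (lat (δ n) x) := by
      rw [← nbb_E_lat, ContinuousLinearEquiv.symm_apply_apply]
    rw [h1]
    calc ‖nbb_E.symm (lat (δ n) x)‖
        ≤ ‖(nbb_E.symm : ℂ →L[ℝ] ℝ × ℝ)‖ * ‖lat (δ n) x‖ :=
          (nbb_E.symm : ℂ →L[ℝ] ℝ × ℝ).le_opNorm _
      _ ≤ N * R₀ := mul_le_mul (by rw [hN]; linarith) (hmem n x hx) (norm_nonneg _) hN0.le
  rw [Metric.tendsto_nhds]
  intro ε hε
  obtain ⟨δ₀, hδ₀, H⟩ := mean_lap hI hsm hcs (hV.preimage nbb_E.continuous) hts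
    (R := N * R₀) (ε := ε / 3) (by positivity) (by positivity)
  set e : ℝ := ε / (3 * (C * R₀ ^ 2)) with he
  have he0 : 0 < e := by positivity
  obtain ⟨δ₁, hδ₁, T⟩ := taylor_lap hg.sm hg.cs he0
  filter_upwards [hA.lim.eventually (gt_mem_nhds hδ₀), hA.lim.eventually (gt_mem_nhds hδ₁),
    hA.lim.eventually (gt_mem_nhds one_pos), hA.exh _ hVc hVΩ] with n h1 h2 h3 h4
  have hpos := hA.pos n
  have hFG := H (δ n) hpos h1 (D n)
    (fun x hx => h4 x (subset_closure (by rw [← nbb_E_lat]; exact hx))) (hlt n) (β n) (hβ n)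
  have hGe : (fun x => g₂ (lt (δ n) x)) = fun x => g (lat (δ n) x) := by
    funext x
    show g (nbb_E (lt (δ n) x)) = _
    rw [nbb_E_lat]
  rw [hGe, nbb_FG (hβ n)] at hFG
  rw [dist_zero_right, Real.norm_eq_abs, mean_XF (hβ n)]
  set s : ℝ := (Real.sqrt 3)⁻¹ with hs
  have hs0 : 0 < s := inv_pos.2 nbb_s3.1
  have hs1 : s ≤ 1 := by
    rw [hs]
    refine inv_le_one_of_one_le₀ ?_
    rw [show (1 : ℝ) = Real.sqrt 1 by rw [Real.sqrt_one]]
    exact Real.sqrt_le_sqrt (by norm_num)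
  have hs2 : Real.sqrt 3 / 2 = s * (3 / 2) := by
    have h5 : s * (Real.sqrt 3 * Real.sqrt 3) = Real.sqrt 3 := by
      rw [hs, ← mul_assoc, inv_mul_cancel₀ nbb_s3.1.ne', one_mul]
    rw [nbb_s3.2] at h5
    linarith
  have hcn : ((D n).card : ℝ) ≤ C * (R₀ / δ n) ^ 2 :=
    hcard (δ n) R₀ hpos (h3.le.trans hR1) (D n) fun x hx => hmem n x hx
  have e1 : Real.sqrt 3 / 2 * δ n ^ 2 * ∑ x ∈ D n, lap g (lat (δ n) x) * mh (D n) (β n) x =
      s * ∑ x ∈ D n, (Lap (fun y => g (lat (δ n) y)) x +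
        3 / 2 * δ n ^ 2 * lap g (lat (δ n) x)) * mh (D n) (β n) x -
      s * ∑ x ∈ D n, Lap (fun y => g (lat (δ n) y)) x * mh (D n) (β n) x := by
    rw [← mul_sub, ← Finset.sum_sub_distrib, hs2, mul_assoc, mul_assoc, Finset.mul_sum,
      Finset.mul_sum]
    congr 1
    refine Finset.sum_congr rfl fun x _ => ?_
    ring
  have e2 : |∑ x ∈ D n, (Lap (fun y => g (lat (δ n) y)) x +
        3 / 2 * δ n ^ 2 * lap g (lat (δ n) x)) * mh (D n) (β n) x| ≤ ε / 3 := by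
    calc _ ≤ ∑ x ∈ D n, |(Lap (fun y => g (lat (δ n) y)) x +
            3 / 2 * δ n ^ 2 * lap g (lat (δ n) x)) * mh (D n) (β n) x| :=
          Finset.abs_sum_le_sum_abs _ _
      _ ≤ ∑ _x ∈ D n, e * δ n ^ 2 := by
          refine Finset.sum_le_sum fun x _ => ?_
          rw [abs_mul]
          have h5 := T (δ n) hpos h2 x
          have h6 := mh_abs (D := D n) (hβ n) x
          have h7 : 0 ≤ e * δ n ^ 2 := by positivity
          calc _ ≤ e * δ n ^ 2 * (1 / 2) := mul_le_mul h5 h6 (abs_nonneg _) h7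
            _ ≤ e * δ n ^ 2 := by linarith
      _ = (D n).card * (e * δ n ^ 2) := by rw [Finset.sum_const, nsmul_eq_mul]
      _ ≤ C * (R₀ / δ n) ^ 2 * (e * δ n ^ 2) := by gcongr
      _ = ε / 3 := by
          rw [he]
          have h8 := hpos.ne'
          have h9 := hC.ne'
          have h10 : R₀ ≠ 0 := by positivity
          field_simp
  rw [e1]
  calc _ ≤ |s * ∑ x ∈ D n, (Lap (fun y => g (lat (δ n) y)) x +
        3 / 2 * δ n ^ 2 * lap g (lat (δ n) x)) * mh (D n) (β n) x| +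
        |s * ∑ x ∈ D n, Lap (fun y => g (lat (δ n) y)) x * mh (D n) (β n) x| := abs_sub _ _
    _ ≤ ε / 3 + ε / 3 := by
        rw [abs_mul, abs_mul, abs_of_pos hs0]
        refine add_le_add ?_ ?_
        · exact (mul_le_of_le_one_left (abs_nonneg _) hs1).trans e2
        · exact (mul_le_of_le_one_left (abs_nonneg _) hs1).trans hFG
    _ < ε := by linarith

/- END nbb -/

/- MODULE nbc
As `clt` (`CnD.lean`, module mkg): the variance bound `var_XF` is now the hypothesis `hv`. -/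
private theorem nbc_exp (x y : ℝ) :
    ‖Complex.exp (Complex.I * (x : ℝ)) - Complex.exp (Complex.I * (y : ℝ))‖ ≤ |x - y| := by
  have h1 : Complex.exp (Complex.I * (x : ℝ)) - Complex.exp (Complex.I * (y : ℝ)) =
      Complex.exp (Complex.I * (y : ℝ)) * (Complex.exp (Complex.I * ((x - y : ℝ))) - 1) := by
    rw [mul_sub, ← Complex.exp_add, mul_one]
    congr 2
    push_cast
    ring
  rw [h1, norm_mul]
  have h2 : ‖Complex.exp (Complex.I * (y : ℝ))‖ = 1 := by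
    rw [mul_comm]; exact Complex.norm_exp_ofReal_mul_I y
  rw [h2, one_mul]
  have := Real.norm_exp_I_mul_ofReal_sub_one_le (x := x - y)
  simpa using this

/-- characteristic functions of `X` and `Y` differ by at most `|τ| (Var (X - Y))^{1/2}` -/
private theorem nbc_char {α : Type} [MeasurableSpace α] (μ : Measure α) [IsProbabilityMeasure μ]
    {X Y : α → ℝ} (hX : MemLp X 2 μ) (hY : MemLp Y 2 μ) (τ : ℝ) {v : ℝ}
    (hv : ∫ k, ((X k - Y k) - ∫ k, (X k - Y k) ∂μ) ^ 2 ∂μ ≤ v) :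
    ‖(∫ k, Complex.exp (Complex.I * (τ * (X k - ∫ k, X k ∂μ) : ℝ)) ∂μ) -
      ∫ k, Complex.exp (Complex.I * (τ * (Y k - ∫ k, Y k ∂μ) : ℝ)) ∂μ‖ ≤ |τ| * Real.sqrt v := by
  have iX : Integrable X μ := hX.integrable (by norm_num)
  have iY : Integrable Y μ := hY.integrable (by norm_num)
  have hint : ∀ {W : α → ℝ}, MemLp W 2 μ →
      Integrable (fun k => Complex.exp (Complex.I * (τ * (W k - ∫ k, W k ∂μ) : ℝ))) μ := by
    intro W hW
    refine Integrable.of_bound (C := 1) ?_ (Filter.Eventually.of_forall fun k => ?_)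
    · have h1 := hW.aestronglyMeasurable
      have h2 : AEStronglyMeasurable (fun k => (τ * (W k - ∫ k, W k ∂μ) : ℝ)) μ :=
        (h1.sub aestronglyMeasurable_const).const_mul τ
      exact Complex.continuous_exp.comp_aestronglyMeasurable
        ((Complex.continuous_ofReal.comp_aestronglyMeasurable h2).const_mul _)
    · rw [mul_comm]; exact (Complex.norm_exp_ofReal_mul_I _).le
  rw [← integral_sub (hint hX) (hint hY)]
  set W : α → ℝ := fun k => (X k - Y k) - ∫ k, (X k - Y k) ∂μ with hW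
  have hWm : MemLp W 2 μ := (hX.sub hY).sub (memLp_const _)
  have hWi : Integrable (fun k => |W k|) μ := (hWm.integrable (by norm_num)).abs
  have hW2 : Integrable (fun k => W k ^ 2) μ := hWm.integrable_sq
  have h1 : ‖∫ k, (Complex.exp (Complex.I * (τ * (X k - ∫ k, X k ∂μ) : ℝ)) -
      Complex.exp (Complex.I * (τ * (Y k - ∫ k, Y k ∂μ) : ℝ))) ∂μ‖ ≤ ∫ k, |τ| * |W k| ∂μ := by
    refine norm_integral_le_of_norm_le (hWi.const_mul _) (Filter.Eventually.of_forall fun k => ?_)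
    refine (nbc_exp _ _).trans (le_of_eq ?_)
    rw [← abs_mul, hW]
    simp only
    rw [integral_sub iX iY]
    congr 1
    ring
  refine h1.trans ?_
  rw [integral_const_mul]
  refine mul_le_mul_of_nonneg_left ?_ (abs_nonneg _)
  have h2 : (∫ k, |W k| ∂μ) ^ 2 ≤ ∫ k, W k ^ 2 ∂μ := by
    have h3 : 0 ≤ ∫ k, (|W k| - ∫ k, |W k| ∂μ) ^ 2 ∂μ := integral_nonneg fun k => sq_nonneg _
    have h4 : ∫ k, (|W k| - ∫ k, |W k| ∂μ) ^ 2 ∂μ =
        (∫ k, W k ^ 2 ∂μ) - (∫ k, |W k| ∂μ) ^ 2 := by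
      set c := ∫ k, |W k| ∂μ with hc
      have e : ∀ k, (|W k| - c) ^ 2 = W k ^ 2 - (2 * c) * |W k| + c ^ 2 := by
        intro k
        have := sq_abs (W k)
        linear_combination this
      simp only [e]
      have i1 : Integrable (fun k => W k ^ 2 - (2 * c) * |W k|) μ := hW2.sub (hWi.const_mul _)
      rw [integral_add i1 (integrable_const _), integral_sub hW2 (hWi.const_mul _),
        integral_const_mul, integral_const, ← hc]
      simp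
      ring
    linarith
  exact Real.le_sqrt_of_sq_le (h2.trans hv)

private theorem nbc_mem {D : Finset (ℤ × ℤ)} {b : ℤ × ℤ → ℝ} (hb : ∀ z, |b z| ≤ 1 / 2)
    (a : ℤ × ℤ → ℝ) : MemLp (fun h : D → ℝ => ∑ x : D, a x * h x) 2 (Mu D b) := by
  refine memLp_finset_sum _ fun x _ => ?_
  have h1 := gl_memLp (D := D) hb x.1
  have e : (fun h : D → ℝ => gl D b h x.1) = fun h => h x := by
    funext h
    simp [gl, x.2]
  rw [e] at h1
  exact h1.const_mul (a x)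

private theorem nbc_XFmem {D : Finset (ℤ × ℤ)} {b : ℤ × ℤ → ℝ} (hb : ∀ z, |b z| ≤ 1 / 2)
    (δ : ℝ) (φ : ℂ → ℝ) : MemLp (fun h : D → ℝ => XF D δ φ h) 2 (Mu D b) := by
  unfold XF
  exact (nbc_mem hb (fun x => φ (lat δ x))).const_mul _

private theorem nbc_XFlin {D : Finset (ℤ × ℤ)} (δ : ℝ) (f g : ℂ → ℝ) (h : D → ℝ) :
    XF D δ f h - XF D δ g h = XF D δ (fun z => f z - g z) h := by
  unfold XF
  rw [← mul_sub, ← Finset.sum_sub_distrib]
  simp only [sub_mul]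

theorem clt_e {σ : ℝ} (hσ : 0 < σ) (hI : Itf σ) {Ω : Set ℂ} (hΩ : IsOpen Ω)
    (hb : Bornology.IsBounded Ω) {R : ℝ} {δ : ℕ → ℝ} {D : ℕ → Finset (ℤ × ℤ)}
    (hA : Exh Ω R δ D) {β : ℕ → ℤ × ℤ → ℝ} (hβ : ∀ n z, |β n z| ≤ 1 / 2) {C : ℝ}
    (hv : ∀ f : ℂ → ℝ, CSC Ω f → ∀ ε : ℝ, 0 < ε → ∀ᶠ n in atTop,
      ∫ h, (XF (D n) (δ n) f h - ∫ k, XF (D n) (δ n) f k ∂(Mu (D n) (β n))) ^ 2
        ∂(Mu (D n) (β n)) ≤ C * GE Ω f + ε)
    {φ : ℂ → ℝ} (hφ : CSC Ω φ) (τ : ℝ) :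
    Tendsto (fun n => ∫ h, Complex.exp (Complex.I * (τ * (XF (D n) (δ n) φ h -
        ∫ k, XF (D n) (δ n) φ k ∂(Mu (D n) (β n))) : ℝ)) ∂(Mu (D n) (β n))) atTop
      (𝓝 (Complex.exp ((- τ ^ 2 * (σ / Real.sqrt 3) * GE Ω φ / 2 : ℝ)))) := by
  haveI hp : ∀ n, IsProbabilityMeasure (Mu (D n) (β n)) := fun n => prob (hβ n)
  obtain ⟨C1, hC, hv1⟩ : ∃ C1 : ℝ, 0 < C1 ∧ ∀ f : ℂ → ℝ, CSC Ω f → ∀ ε : ℝ, 0 < ε →
      ∀ᶠ n in atTop,
        ∫ h, (XF (D n) (δ n) f h - ∫ k, XF (D n) (δ n) f k ∂(Mu (D n) (β n))) ^ 2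
          ∂(Mu (D n) (β n)) ≤ C1 * GE Ω f + ε := by
    refine ⟨|C| + 1, by positivity, fun f hf ε hε => ?_⟩
    filter_upwards [hv f hf ε hε] with n hn
    refine hn.trans ?_
    have h1 : C * GE Ω f ≤ (|C| + 1) * GE Ω f :=
      mul_le_mul_of_nonneg_right (by linarith [le_abs_self C]) (GE_nonneg hb hf)
    linarith
  obtain ⟨Rb, hR⟩ := hb.subset_closedBall (0 : ℂ)
  obtain ⟨C0, hC0⟩ := hφ.cs.exists_bound_of_continuous hφ.sm.continuous
  have hRr : ∀ z ∈ Ω, ‖z‖ ≤ |Rb| := fun z hz => by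
    have := hR hz
    rw [mem_closedBall_zero_iff] at this
    exact this.trans (le_abs_self Rb)
  set G := GE Ω φ with hG
  have hG0 : 0 ≤ G := GE_nonneg hb hφ
  rw [Metric.tendsto_atTop]
  intro ε hε
  -- continuity of the limit in the energy
  have hcont : Continuous fun e : ℝ => Complex.exp ((- τ ^ 2 * (σ / Real.sqrt 3) * e / 2 : ℝ)) := by
    fun_prop
  obtain ⟨ρ, hρ, hρ'⟩ := Metric.continuous_iff.1 hcont G (ε / 4) (by positivity)
  -- choose `η`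
  have hlim1 : Tendsto (fun η : ℝ => |τ| * Real.sqrt (C1 * η + η)) (𝓝[>] 0) (𝓝 0) := by
    have : Tendsto (fun η : ℝ => |τ| * Real.sqrt (C1 * η + η)) (𝓝 0)
        (𝓝 (|τ| * Real.sqrt (C1 * 0 + 0))) := by
      refine Continuous.tendsto ?_ 0
      fun_prop
    simp only [mul_zero, add_zero, Real.sqrt_zero] at this
    exact this.mono_left nhdsWithin_le_nhds
  have hlim2 : Tendsto (fun η : ℝ => Real.sqrt η * (2 * Real.sqrt G + Real.sqrt η)) (𝓝[>] 0)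
      (𝓝 0) := by
    have : Tendsto (fun η : ℝ => Real.sqrt η * (2 * Real.sqrt G + Real.sqrt η)) (𝓝 0)
        (𝓝 (Real.sqrt 0 * (2 * Real.sqrt G + Real.sqrt 0))) := by
      refine Continuous.tendsto ?_ 0
      fun_prop
    simp only [Real.sqrt_zero, zero_mul] at this
    exact this.mono_left nhdsWithin_le_nhds
  obtain ⟨η, ⟨hη1, hη2⟩, hη0⟩ := (((hlim1.eventually (gt_mem_nhds (show (0 : ℝ) < ε / 4 by
    positivity))).and (hlim2.eventually (gt_mem_nhds hρ))).and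
    self_mem_nhdsWithin).exists
  have hη0' : (0 : ℝ) < η := hη0
  obtain ⟨g, hg, _, hgJ⟩ := near_max hRr (abs_nonneg Rb) hφ (fun z => hC0 z) hη0'
  obtain ⟨hf, hfG⟩ := GE_res hb hφ hg
  have hfη : GE Ω (fun z => φ z + lap g z) ≤ η := by linarith
  have hd := dirE_near hb hφ hg
  have hd2 : (Real.sqrt G - Real.sqrt (dirE g)) ^ 2 ≤ η := by linarith
  have hgE : 0 ≤ dirE g := integral_nonneg fun z => add_nonneg (sq_nonneg _) (sq_nonneg _)
  have hdist : dist (dirE g) G < ρ := by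
    rw [Real.dist_eq]
    refine lt_of_le_of_lt ?_ hη2
    have a1 : |Real.sqrt G - Real.sqrt (dirE g)| ≤ Real.sqrt η := Real.abs_le_sqrt hd2
    have a2 : dirE g - G = (Real.sqrt (dirE g) - Real.sqrt G) *
        (Real.sqrt (dirE g) + Real.sqrt G) := by
      have b1 := Real.sq_sqrt hgE
      have b2 := Real.sq_sqrt hG0
      nlinarith
    rw [a2, abs_mul, abs_sub_comm]
    refine mul_le_mul a1 ?_ (abs_nonneg _) (Real.sqrt_nonneg _)
    rw [abs_of_nonneg (by positivity)]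
    have := (abs_le.1 a1).1
    linarith
  have hE := hρ' (dirE g) hdist
  have hlap := clt_lap_e hI hΩ hA hβ hg (-τ)
  rw [Metric.tendsto_atTop] at hlap
  obtain ⟨N1, hN1⟩ := hlap (ε / 4) (by positivity)
  obtain ⟨N2, hN2⟩ := eventually_atTop.1 (hv1 _ hf η hη0')
  refine ⟨max N1 N2, fun n hn => ?_⟩
  have hn1 := hN1 n ((le_max_left _ _).trans hn)
  have hvn := hN2 n ((le_max_right _ _).trans hn)
  set μ := Mu (D n) (β n) with hμ
  -- compare `φ` with `- lap g`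
  have hX := nbc_XFmem (D := D n) (hβ n) (δ n) φ
  have hY := nbc_XFmem (D := D n) (hβ n) (δ n) (fun z => - lap g z)
  have hdiff : ∀ h : D n → ℝ, XF (D n) (δ n) φ h - XF (D n) (δ n) (fun z => - lap g z) h =
      XF (D n) (δ n) (fun z => φ z + lap g z) h := by
    intro h
    rw [nbc_XFlin]
    simp only [sub_neg_eq_add]
  have hv2 : ∫ h, ((XF (D n) (δ n) φ h - XF (D n) (δ n) (fun z => - lap g z) h) -
      ∫ h, (XF (D n) (δ n) φ h - XF (D n) (δ n) (fun z => - lap g z) h) ∂μ) ^ 2 ∂μ ≤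
      C1 * η + η := by
    simp only [hdiff]
    refine hvn.trans ?_
    have := mul_le_mul_of_nonneg_left hfη hC.le
    linarith
  have hch := nbc_char μ hX hY τ hv2
  have hneg : ∀ h : D n → ℝ, XF (D n) (δ n) (fun z => - lap g z) h =
      - XF (D n) (δ n) (lap g) h := by
    intro h
    unfold XF
    simp only [neg_mul, Finset.sum_neg_distrib, mul_neg]
  have e2 : ∫ h, Complex.exp (Complex.I * (τ * (XF (D n) (δ n) (fun z => - lap g z) h -
      ∫ k, XF (D n) (δ n) (fun z => - lap g z) k ∂μ) : ℝ)) ∂μ =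
      ∫ h, Complex.exp (Complex.I * (-τ * (XF (D n) (δ n) (lap g) h -
        ∫ k, XF (D n) (δ n) (lap g) k ∂μ) : ℝ)) ∂μ := by
    refine integral_congr_ae (Filter.Eventually.of_forall fun h => ?_)
    simp only [hneg, integral_neg]
    congr 3
    ring
  rw [e2] at hch
  have hsq : (- (-τ) ^ 2 * (σ / Real.sqrt 3) * dirE g / 2 : ℝ) =
      (- τ ^ 2 * (σ / Real.sqrt 3) * dirE g / 2 : ℝ) := by ring
  rw [hsq] at hn1
  calc dist (∫ h, Complex.exp (Complex.I * (τ * (XF (D n) (δ n) φ h -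
        ∫ k, XF (D n) (δ n) φ k ∂μ) : ℝ)) ∂μ)
        (Complex.exp ((- τ ^ 2 * (σ / Real.sqrt 3) * G / 2 : ℝ)))
      ≤ dist (∫ h, Complex.exp (Complex.I * (τ * (XF (D n) (δ n) φ h -
        ∫ k, XF (D n) (δ n) φ k ∂μ) : ℝ)) ∂μ)
        (∫ h, Complex.exp (Complex.I * (-τ * (XF (D n) (δ n) (lap g) h -
        ∫ k, XF (D n) (δ n) (lap g) k ∂μ) : ℝ)) ∂μ) +
        dist (∫ h, Complex.exp (Complex.I * (-τ * (XF (D n) (δ n) (lap g) h -
        ∫ k, XF (D n) (δ n) (lap g) k ∂μ) : ℝ)) ∂μ)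
        (Complex.exp ((- τ ^ 2 * (σ / Real.sqrt 3) * dirE g / 2 : ℝ))) +
        dist (Complex.exp ((- τ ^ 2 * (σ / Real.sqrt 3) * dirE g / 2 : ℝ)))
        (Complex.exp ((- τ ^ 2 * (σ / Real.sqrt 3) * G / 2 : ℝ))) := dist_triangle4 _ _ _ _
    _ < ε := by
        have : dist (∫ h, Complex.exp (Complex.I * (τ * (XF (D n) (δ n) φ h -
          ∫ k, XF (D n) (δ n) φ k ∂μ) : ℝ)) ∂μ)
          (∫ h, Complex.exp (Complex.I * (-τ * (XF (D n) (δ n) (lap g) h -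
          ∫ k, XF (D n) (δ n) (lap g) k ∂μ) : ℝ)) ∂μ) < ε / 4 := by
          rw [dist_eq_norm]
          exact lt_of_le_of_lt hch hη1
        linarith

/- END nbc -/

/- MODULE nbd
-/
private theorem nbd_lap {u v : ℂ → ℝ} {z : ℂ} (hu : InnerProductSpace.HarmonicAt u z)
    (hv : ContDiff ℝ ∞ v) (h : v =ᶠ[𝓝 z] u) : lap v z = 0 := by
  have h1 : InnerProductSpace.HarmonicAt v z := (InnerProductSpace.harmonicAt_congr_nhds h).2 hu
  have h2 := h1.2.eq_of_nhds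
  rw [InnerProductSpace.laplacian_eq_iteratedFDeriv_complexPlane] at h2
  have h3 : ∀ e : ℂ, fderiv ℝ (fun w => fderiv ℝ v w e) z e = iteratedFDeriv ℝ 2 v z ![e, e] := by
    intro e
    rw [iteratedFDeriv_two_apply]
    have h4 : DifferentiableAt ℝ (fderiv ℝ v) z :=
      ((hv.fderiv_right (m := ∞) (by simp)).differentiable (by simp)) z
    have h5 := (h4.hasFDerivAt.clm_apply (hasFDerivAt_const e z))
    rw [h5.fderiv]
    simp
  unfold lap
  rw [h3, h3]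
  simpa using h2

private theorem nbd_cont {Ω : Set ℂ} (hΩ : IsOpen Ω) {w f : ℂ → ℝ} (hw : ContinuousOn w Ω)
    (hf : CSC Ω f) : Continuous (fun z => w z * f z) := by
  rw [continuous_iff_continuousAt]
  intro z
  by_cases hz : z ∈ Ω
  · exact (hw.continuousAt (hΩ.mem_nhds hz)).mul hf.sm.continuous.continuousAt
  · have h1 : z ∉ tsupport f := fun h => hz (hf.sub h)
    have h2 : f =ᶠ[𝓝 z] 0 := notMem_tsupport_iff_eventuallyEq.1 h1
    have h3 : (fun z => w z * f z) =ᶠ[𝓝 z] fun _ => (0 : ℝ) := by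
      filter_upwards [h2] with y hy
      rw [hy]
      simp
    exact (continuousAt_const.congr h3.symm)

private theorem nbd_int {Ω : Set ℂ} (hΩ : IsOpen Ω) {w f : ℂ → ℝ} (hw : ContinuousOn w Ω)
    (hf : CSC Ω f) : Integrable (fun z => w z * f z) :=
  int_cs (nbd_cont hΩ hw hf) hf.cs.mul_left

theorem mean_triv {Ω : Set ℂ} (hΩ : IsOpen Ω) {R : ℝ} {δ : ℕ → ℝ}
    {D : ℕ → Finset (ℤ × ℤ)} (hA : Exh Ω R δ D) {β : ℕ → ℤ × ℤ → ℝ}
    (hβ : ∀ n z, |β n z| ≤ 1 / 2) {u : ℂ → ℝ} (hu : InnerProductSpace.HarmonicOnNhd u Ω)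
    (hul : ∀ z ∈ Ω, |u z| ≤ 1 / 2) {f : ℂ → ℝ} (hf : CSC Ω f) {ε : ℝ} (hε : 0 < ε) :
    ∀ᶠ n in atTop, |(∫ h, XF (D n) (δ n) f h ∂(Mu (D n) (β n))) - ∫ z, u z * f z| ≤
      (∫ z, |f z|) + ε := by
  have huc : ContinuousOn u Ω := hu.continuousOn
  have hFc : Continuous (fun z => |f z|) := hf.sm.continuous.abs
  have hFs : HasCompactSupport (fun z => |f z|) := hf.cs.comp_left (g := fun r : ℝ => |r|) abs_zero
  have hFt : tsupport (fun z => |f z|) ⊆ Ω := by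
    refine (closure_minimal (fun z hz => ?_) (isClosed_tsupport f)).trans hf.sub
    by_contra hn
    apply hz
    show |f z| = 0
    rw [image_eq_zero_of_notMem_tsupport hn, abs_zero]
  obtain ⟨δ₀, hδ₀, hr1⟩ := riemann hFc hFs hε
  have hr2 : ∀ᶠ n in atTop, δ n < δ₀ := hA.lim.eventually (gt_mem_nhds hδ₀)
  filter_upwards [hr2, hA.exh (tsupport fun z => |f z|) hFs.isCompact hFt] with n hn1 hn2
  have hn := hr1 (δ n) (hA.pos n) hn1 (D n) hn2
  rw [mean_XF (hβ n)]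
  have hδ0 : 0 ≤ Real.sqrt 3 / 2 * δ n ^ 2 := by positivity
  have c1 : |Real.sqrt 3 / 2 * δ n ^ 2 * ∑ x ∈ D n, f (lat (δ n) x) * mh (D n) (β n) x| ≤
      (1 / 2) * (Real.sqrt 3 / 2 * δ n ^ 2 * ∑ x ∈ D n, |f (lat (δ n) x)|) := by
    rw [abs_mul, abs_of_nonneg hδ0]
    have : |∑ x ∈ D n, f (lat (δ n) x) * mh (D n) (β n) x| ≤
        (1 / 2) * ∑ x ∈ D n, |f (lat (δ n) x)| := by
      refine (Finset.abs_sum_le_sum_abs _ _).trans ?_
      rw [Finset.mul_sum]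
      refine Finset.sum_le_sum fun x _ => ?_
      rw [abs_mul, mul_comm]
      exact mul_le_mul_of_nonneg_right (mh_abs (hβ n) x) (abs_nonneg _)
    calc Real.sqrt 3 / 2 * δ n ^ 2 * |∑ x ∈ D n, f (lat (δ n) x) * mh (D n) (β n) x|
        ≤ Real.sqrt 3 / 2 * δ n ^ 2 * ((1 / 2) * ∑ x ∈ D n, |f (lat (δ n) x)|) :=
          mul_le_mul_of_nonneg_left this hδ0
      _ = _ := by ring
  have c2 : |∫ z, u z * f z| ≤ (1 / 2) * ∫ z, |f z| := by
    rw [← integral_const_mul]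
    refine abs_integral_le_integral_abs.trans ?_
    refine integral_mono (nbd_int hΩ huc hf).abs
      ((int_cs hf.sm.continuous hf.cs).abs.const_mul _) fun z => ?_
    show |u z * f z| ≤ 1 / 2 * |f z|
    rw [abs_mul]
    by_cases hz : z ∈ tsupport f
    · exact mul_le_mul_of_nonneg_right (hul z (hf.sub hz)) (abs_nonneg _)
    · rw [image_eq_zero_of_notMem_tsupport hz]
      simp
  have c3 := (abs_le.1 hn).2
  have c4 := abs_sub (Real.sqrt 3 / 2 * δ n ^ 2 *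
    ∑ x ∈ D n, f (lat (δ n) x) * mh (D n) (β n) x) (∫ z, u z * f z)
  linarith

theorem harm_lap {Ω : Set ℂ} (hΩ : IsOpen Ω) {u : ℂ → ℝ}
    (hu : InnerProductSpace.HarmonicOnNhd u Ω) {g : ℂ → ℝ} (hg : CSC Ω g) :
    ∫ z, u z * lap g z = 0 := by
  obtain ⟨K, hK, hK1, hK2⟩ := exists_compact_between hg.cs.isCompact hΩ hg.sub
  obtain ⟨ρ, hρ1, hρ0, -⟩ := exists_contMDiffMap_one_nhds_of_subset_interior (n := (⊤ : ℕ∞))
    (I := modelWithCornersSelf ℝ ℂ) (isClosed_tsupport g) hK1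
  have hρs : ContDiff ℝ ∞ (fun z => ρ z) := ρ.contMDiff.contDiff
  set v : ℂ → ℝ := fun z => ρ z * u z with hv
  have hvs : ContDiff ℝ ∞ v := by
    rw [contDiff_iff_contDiffAt]
    intro z
    by_cases hz : z ∈ Ω
    · exact hρs.contDiffAt.mul ((HarmonicAt.analyticAt (hu z hz)).contDiffAt)
    · have hzK : z ∉ K := fun h => hz (hK2 h)
      have h1 : v =ᶠ[𝓝 z] fun _ => (0 : ℝ) := by
        filter_upwards [hK.isClosed.isOpen_compl.mem_nhds hzK] with y hy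
        show ρ y * u y = 0
        rw [hρ0 y hy, zero_mul]
      exact contDiffAt_const.congr_of_eventuallyEq h1
  have hvu : ∀ z ∈ tsupport g, v =ᶠ[𝓝 z] u := by
    intro z hz
    have h1 : ∀ᶠ y in 𝓝 z, ρ y = 1 := hρ1.filter_mono (nhds_le_nhdsSet hz)
    filter_upwards [h1] with y hy
    show ρ y * u y = u y
    rw [hy, one_mul]
  have e1 : ∫ z, u z * lap g z = ∫ z, v z * lap g z := by
    refine integral_congr_ae (Filter.Eventually.of_forall fun z => ?_)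
    show u z * lap g z = v z * lap g z
    by_cases hz : z ∈ tsupport g
    · rw [(hvu z hz).eq_of_nhds]
    · have : lap g z = 0 := image_eq_zero_of_notMem_tsupport (f := lap g)
        (fun h => hz (tsupport_lap g h))
      rw [this, mul_zero, mul_zero]
  have e2 : ∫ z, lap v z * g z = 0 := by
    have : ∀ z, lap v z * g z = 0 := by
      intro z
      by_cases hz : z ∈ tsupport g
      · rw [nbd_lap (hu z (hg.sub hz)) hvs (hvu z hz), zero_mul]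
      · rw [image_eq_zero_of_notMem_tsupport hz, mul_zero]
    simp only [this, integral_zero]
  rw [e1, green' hvs hg.sm hg.cs, ← green hvs hg.sm hg.cs, e2]

/- END nbd -/

/- MODULE nbe
THE BOUNDARY ESTIMATE WITH CONSTANT COMPARISON, for functions `Z n` on the lattice: `bdryi` is in
`CaA.lean`; here its hypothesis is `hbd` so that this file does not depend on `CaA`.  Apply it with
`b₀ = c` (`mh_const`), `b₁ = β n`, `a x = √3/2 δ² φ(lat δ x)`, `H = C GE (W n) φ + ε'` from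
`dual_disc_u` with `Ω = W n`, `∑ a² ≤ C_φ δ²` (`card_lat`).  As `bdry_lim` (`CnD.lean`, module mkc). -/
private theorem nbe_int {D : Finset (ℤ × ℤ)} {b : ℤ × ℤ → ℝ} (hb : ∀ z, |b z| ≤ 1 / 2)
    (w : ℤ × ℤ → ℝ) : ∫ h, ∑ x : D, w x * h x ∂(Mu D b) = ∑ x ∈ D, w x * mh D b x := by
  have hp : IsProbabilityMeasure (Mu D b) := prob hb
  have hi : ∀ x : D, Integrable (fun h : D → ℝ => h x) (Mu D b) := fun x => by
    have h1 : Integrable (fun h : D → ℝ => gl D b h x) (Mu D b) :=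
      (gl_memLp hb x.1).integrable (by norm_num)
    simp only [gl_mem x.2] at h1
    exact h1
  rw [integral_finsetSum _ fun x _ => (hi x).const_mul _, ← Finset.sum_coe_sort D]
  refine Finset.sum_congr rfl fun x _ => ?_
  rw [integral_const_mul]
  unfold mh
  simp only [gl_mem x.2]

theorem bdry_e {Cb : ℝ} (hCb : 0 ≤ Cb) {EE : Finset (ℤ × ℤ) → (ℤ × ℤ → ℝ) → ℝ}
    (hbd : ∀ (D : Finset (ℤ × ℤ)) (b₀ b₁ : ℤ × ℤ → ℝ),
      (∀ z, |b₀ z| ≤ 1 / 2) → (∀ z, |b₁ z| ≤ 1 / 2) → ∀ Z : ℤ × ℤ → ℝ, (∀ z, 0 ≤ Z z) →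
      (∀ x ∈ D, ∀ i, x + st i ∉ D → b₁ (x + st i) ≠ b₀ (x + st i) → Z x = 0) →
      ∀ (a : ℤ × ℤ → ℝ) (H : ℝ),
      (∀ v : ℤ × ℤ → ℝ, (∀ z, z ∉ D → v z = 0) →
        2 * (∑ x ∈ D, a x * v x) - ∑ x ∈ D, ∑ i, (v x - v (x + st i)) ^ 2 ≤ H) →
      |∫ h, ∑ x : D, a x * Z x * h x ∂(Mu D b₁) - ∫ h, ∑ x : D, a x * Z x * h x ∂(Mu D b₀)| ≤
        Cb * Real.sqrt (EE D Z) * (Real.sqrt H + Real.sqrt (∑ x ∈ D, a x ^ 2)))
    {R E : ℝ} (hE : 0 ≤ E) : ∃ C : ℝ, 0 ≤ C ∧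
    ∀ (δ : ℕ → ℝ) (D : ℕ → Finset (ℤ × ℤ)) (W : ℕ → Set ℂ) (β : ℕ → ℤ × ℤ → ℝ) (c : ℝ)
      (Z : ℕ → ℤ × ℤ → ℝ), (∀ n, 0 < δ n) → Tendsto δ atTop (𝓝 0) → (∀ n, IsOpen (W n)) →
      (∀ n, ∀ z ∈ W n, ‖z‖ ≤ R) →
      (∀ n, ∀ x ∈ D n, Metric.closedBall (lat (δ n) x) (7 / 10 * δ n) ⊆ W n) →
      (∀ n z, |β n z| ≤ 1 / 2) → |c| ≤ 1 / 2 → (∀ n z, 0 ≤ Z n z) →
      (∀ᶠ n in atTop, EE (D n) (Z n) ≤ E) →
      (∀ᶠ n in atTop, ∀ x ∈ D n, ∀ i, x + st i ∉ D n → β n (x + st i) ≠ c → Z n x = 0) →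
      ∀ φ : ℂ → ℝ, ContDiff ℝ ∞ φ → HasCompactSupport φ → (∀ᶠ n in atTop, tsupport φ ⊆ W n) →
      ∀ ε : ℝ, 0 < ε → ∀ᶠ n in atTop,
        |Real.sqrt 3 / 2 * δ n ^ 2 * ∑ x ∈ D n, φ (lat (δ n) x) * Z n x *
          (c - mh (D n) (β n) x)| ≤ C * Real.sqrt (GE (W n) φ) + ε := by
  set R₀ : ℝ := max R 1 with hR₀
  have hR1 : 1 ≤ R₀ := le_max_right _ _
  obtain ⟨C₁, hC₁, hcard⟩ := card_lat
  obtain ⟨C₃, hC₃, hdd⟩ := dual_disc_u
  set C : ℝ := Cb * Real.sqrt E * Real.sqrt C₃ with hC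
  have hC0 : 0 ≤ C := by positivity
  refine ⟨C, hC0, fun δ D W β c Z hδ hlim hW hWR hWb hβ hc hZ0 hZE hZn φ hφs hφc hφW ε hε => ?_⟩
  have hRΩ : ∀ n, ∀ z ∈ W n, ‖z‖ ≤ R₀ := fun n z hz => (hWR n z hz).trans (le_max_left _ _)
  have hmem : ∀ n, ∀ x ∈ D n, lat (δ n) x ∈ W n := fun n x hx =>
    hWb n x hx (Metric.mem_closedBall_self (by have := hδ n; positivity))
  obtain ⟨M, hM⟩ := hφc.exists_bound_of_continuous hφs.continuous
  -- small quantities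
  set t : ℝ := ε / (2 * (Cb * Real.sqrt E + 1)) with ht
  have hk0 : 0 ≤ Cb * Real.sqrt E := by positivity
  have ht0 : 0 < t := by positivity
  have htk : Cb * Real.sqrt E * (t + t) ≤ ε := by
    rw [ht]
    have h1 : 0 < Cb * Real.sqrt E + 1 := by positivity
    have h2 : Cb * Real.sqrt E * (ε / (2 * (Cb * Real.sqrt E + 1)) +
        ε / (2 * (Cb * Real.sqrt E + 1))) = ε * (Cb * Real.sqrt E / (Cb * Real.sqrt E + 1)) := by
      field_simp
      ring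
    rw [h2]
    have h3 : Cb * Real.sqrt E / (Cb * Real.sqrt E + 1) ≤ 1 := by
      rw [div_le_one h1]
      linarith
    nlinarith
  obtain ⟨δ₀, hδ₀, hdd'⟩ := hdd R φ hφs hφc (t ^ 2) (by positivity)
  have hlim2 : Tendsto (fun n => C₁ * R₀ ^ 2 * M ^ 2 * δ n ^ 2) atTop (𝓝 0) := by
    have h1 := (hlim.pow 2).const_mul (C₁ * R₀ ^ 2 * M ^ 2)
    simpa using h1
  filter_upwards [hlim.eventually (gt_mem_nhds hδ₀), hlim.eventually (gt_mem_nhds one_pos),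
    hZE, hZn, hφW,
    hlim2.eventually (gt_mem_nhds (show 0 < t ^ 2 by positivity))] with n h1 h2 h3 h4 h6 h5
  have hpos := hδ n
  have hφ : CSC (W n) φ := ⟨hφs, hφc, h6⟩
  have hb : Bornology.IsBounded (W n) :=
    Metric.isBounded_closedBall.subset (fun z hz => mem_closedBall_zero_iff.2 (hRΩ n z hz))
  have hcn : ((D n).card : ℝ) ≤ C₁ * (R₀ / δ n) ^ 2 :=
    hcard (δ n) R₀ hpos (h2.le.trans hR1) (D n) fun x hx => hRΩ n _ (hmem n x hx)
  set a : ℤ × ℤ → ℝ := fun x => Real.sqrt 3 / 2 * δ n ^ 2 * φ (lat (δ n) x) with ha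
  have key := hbd (D n) (fun _ => c) (β n) (fun _ => hc) (hβ n) (Z n)
    (hZ0 n) (fun x hx i hi hne => h4 x hx i hi hne) a (C₃ * GE (W n) φ + t ^ 2)
      (fun v hv => hdd' (δ n) hpos h1 (W n) (hW n) (hWR n) h6 (D n) (hWb n) v hv)
  have hI : ∀ b : ℤ × ℤ → ℝ, (∀ z, |b z| ≤ 1 / 2) →
      ∫ h, ∑ x : D n, a x * Z n x * h x ∂(Mu (D n) b) =
        ∑ x ∈ D n, a x * Z n x * mh (D n) b x := fun b hb' =>
    nbe_int hb' (fun x => a x * Z n x)
  rw [hI _ (hβ n), hI _ (fun _ => hc)] at key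
  have e1 : Real.sqrt 3 / 2 * δ n ^ 2 * ∑ x ∈ D n, φ (lat (δ n) x) * Z n x *
      (c - mh (D n) (β n) x) = - (∑ x ∈ D n, a x * Z n x * mh (D n) (β n) x -
        ∑ x ∈ D n, a x * Z n x * mh (D n) (fun _ => c) x) := by
    rw [← Finset.sum_sub_distrib, ← Finset.sum_neg_distrib, Finset.mul_sum]
    refine Finset.sum_congr rfl fun x _ => ?_
    rw [mh_const hc, ha]
    ring
  rw [e1, abs_neg]
  refine key.trans ?_
  have hs1 : Real.sqrt (∑ x ∈ D n, a x ^ 2) ≤ t := by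
    refine Real.sqrt_le_iff.2 ⟨ht0.le, ?_⟩
    calc ∑ x ∈ D n, a x ^ 2 ≤ ∑ _x ∈ D n, δ n ^ 4 * M ^ 2 := by
          refine Finset.sum_le_sum fun x _ => ?_
          rw [ha]
          have h7 : (Real.sqrt 3 / 2 * δ n ^ 2 * φ (lat (δ n) x)) ^ 2 =
              3 / 4 * (δ n ^ 4 * φ (lat (δ n) x) ^ 2) := by
            have h8 : Real.sqrt 3 ^ 2 = 3 := Real.sq_sqrt (by norm_num)
            calc _ = Real.sqrt 3 ^ 2 / 4 * (δ n ^ 4 * φ (lat (δ n) x) ^ 2) := by ring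
              _ = _ := by rw [h8]
          show (Real.sqrt 3 / 2 * δ n ^ 2 * φ (lat (δ n) x)) ^ 2 ≤ _
          rw [h7]
          have h9 : φ (lat (δ n) x) ^ 2 ≤ M ^ 2 := by
            have h10 := hM (lat (δ n) x)
            rw [Real.norm_eq_abs] at h10
            rw [← sq_abs (φ _)]
            exact pow_le_pow_left₀ (abs_nonneg _) h10 2
          have h11 : 0 ≤ δ n ^ 4 * φ (lat (δ n) x) ^ 2 := by positivity
          have h12 : δ n ^ 4 * φ (lat (δ n) x) ^ 2 ≤ δ n ^ 4 * M ^ 2 :=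
            mul_le_mul_of_nonneg_left h9 (by positivity)
          linarith
      _ = (D n).card * (δ n ^ 4 * M ^ 2) := by rw [Finset.sum_const, nsmul_eq_mul]
      _ ≤ C₁ * (R₀ / δ n) ^ 2 * (δ n ^ 4 * M ^ 2) := by gcongr
      _ = C₁ * R₀ ^ 2 * M ^ 2 * δ n ^ 2 := by
          have h8 := hpos.ne'
          field_simp
      _ ≤ t ^ 2 := h5.le
  have hs2 : Real.sqrt (C₃ * GE (W n) φ + t ^ 2) ≤
      Real.sqrt C₃ * Real.sqrt (GE (W n) φ) + t := by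
    have hG := GE_nonneg hb hφ
    rw [← Real.sqrt_mul hC₃.le]
    refine Real.sqrt_le_iff.2 ⟨by positivity, ?_⟩
    have h6 : 0 ≤ C₃ * GE (W n) φ := by positivity
    have h7 := Real.sq_sqrt h6
    have h8 := Real.sqrt_nonneg (C₃ * GE (W n) φ)
    nlinarith
  have hs3 : Real.sqrt (EE (D n) (Z n)) ≤ Real.sqrt E := Real.sqrt_le_sqrt h3
  calc Cb * Real.sqrt (EE (D n) (Z n)) *
        (Real.sqrt (C₃ * GE (W n) φ + t ^ 2) + Real.sqrt (∑ x ∈ D n, a x ^ 2))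
      ≤ Cb * Real.sqrt E * ((Real.sqrt C₃ * Real.sqrt (GE (W n) φ) + t) + t) := by gcongr
    _ = C * Real.sqrt (GE (W n) φ) + Cb * Real.sqrt E * (t + t) := by
        rw [hC]
        ring
    _ ≤ C * Real.sqrt (GE (W n) φ) + ε := by linarith

/- END nbe -/

end Pool.Agent.Hmk.Ca
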