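import Pool.Agent.Hmk.MnSo

/-!
# Hmk, second part: hard walls, dependence of expectations on the boundary data (helper70)
-/

set_option autoImplicit false

open MeasureTheory Set Filter

open scoped ENNReal SchwartzMap ContDiff Topology

noncomputable section

namespace Pool.Agent.Hmk.Mn

/- MODULE mea
HARD SCORE LEMMA.  With `f_n(θ) = Ev (Vs D (bt θ) (n+1)) (G γ)`:
`|f_n(θ₁) - f_n(θ₀)| ≤ ∫_{θ₀}^{θ₁} B_n(θ) dθ`, `B_n` the right side of `soft_score` for `b = bt θ`,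
`u = b₁ - b₀` (`Ev_deriv`, `intervalIntegral.sub_le_integral_of_hasDeriv_right_of_le` for `± f_n`;
`B_n` is measurable in `θ` since all its ingredients `Ev (Vs D (bt θ) s) G'`, `G'` independent of
`θ`, are continuous in `θ` by `Ev_deriv`); `B_n` is bounded uniformly in `n`, `θ` (`Ev_unif`,
`Td_le`) and converges for each `θ` (`Ev_lim`, `Td_le`) to a limit `≤ 2 (v B)^{1/2} + 2 M δ`;
dominated convergence; `f_n(θ) → ∫ G γ dMu` (`Ev_lim`). -/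
private theorem mea_bt {b₀ b₁ : ℤ × ℤ → ℝ} (h₀ : ∀ z, |b₀ z| ≤ 1 / 2) (h₁ : ∀ z, |b₁ z| ≤ 1 / 2)
    {θ : ℝ} (hθ : θ ∈ Icc (0 : ℝ) 1) (z : ℤ × ℤ) : |bt b₀ b₁ θ z| ≤ 1 / 2 := by
  unfold bt
  have h0 := abs_le.1 (h₀ z)
  have h1 := abs_le.1 (h₁ z)
  have a1 := mul_nonneg (sub_nonneg.2 hθ.2) (sub_nonneg.2 h0.2)
  have a2 := mul_nonneg hθ.1 (sub_nonneg.2 h1.2)
  have a3 := mul_nonneg (sub_nonneg.2 hθ.2) (sub_nonneg.2 h0.1)
  have a4 := mul_nonneg hθ.1 (sub_nonneg.2 h1.1)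
  rw [abs_le]
  constructor <;> nlinarith

private theorem mea_cont {D : Finset (ℤ × ℤ)} {b₀ b₁ : ℤ × ℤ → ℝ} (h₀ : ∀ z, |b₀ z| ≤ 1 / 2)
    (h₁ : ∀ z, |b₁ z| ≤ 1 / 2) {s : ℝ} (hs : 1 ≤ s) {G : (D → ℝ) → ℝ} (hG : PG G) :
    ContinuousOn (fun θ => Ev (Vs D (bt b₀ b₁ θ) s) G) (Icc 0 1) := fun _ hθ =>
  ((Ev_deriv (mea_bt h₀ h₁ hθ) hs hG).continuousAt).continuousWithinAt

private theorem mea_Gd2_pg {D : Finset (ℤ × ℤ)} {ψ : D → (D → ℝ) → ℝ} (hψ : ∀ x, BS (ψ x)) :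
    PG (Gd2 ψ) := by
  unfold Gd2
  refine PG.sum _ fun x _ => PG.sum _ fun y _ => ?_
  obtain ⟨C, hC⟩ := (hψ x).db
  refine PG.of_bdd (C := C ^ 2) ?_ fun h => ?_
  · exact ((cd_pd (hψ x).sm y).continuous.pow 2).measurable
  · rw [abs_pow]
    exact pow_le_pow_left₀ (abs_nonneg _) (hC y h) 2

private theorem mea_Ga_pg {D : Finset (ℤ × ℤ)} {γ : (D → ℝ) → ℝ} (hγ : BS γ) :
    PG (Ga γ) := by
  unfold Ga
  refine PG.sum _ fun y _ => ?_
  obtain ⟨C, hC⟩ := hγ.db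
  refine PG.of_bdd (C := C) ?_ fun h => ?_
  · exact ((cd_pd hγ.sm y).continuous.abs).measurable
  · rw [abs_abs]
    exact hC y h

private theorem mea_Td_cont {D : Finset (ℤ × ℤ)} {ψ : D → (D → ℝ) → ℝ} (hψ : ∀ x, BS (ψ x))
    {s : ℝ} (hs : 1 ≤ s) : Continuous (Td D s ψ) := by
  have h1 : ∀ z, Continuous (fun h : D → ℝ => g0 D h z) := fun z => gl_cont D _ z
  have h2 : ∀ z, Continuous (fun h : D → ℝ => g0 D (fun y => ψ y h) z) := by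
    intro z
    by_cases hz : z ∈ D
    · simp only [g0, gl_mem hz]
      exact (hψ _).sm.continuous
    · simp only [g0, gl_not_mem hz]
      exact continuous_const
  unfold Td
  refine continuous_finsetSum _ fun x _ => continuous_finsetSum _ fun i _ => ?_
  by_cases hx : x + st i ∈ D
  · simp only [hx, if_true]
    exact ((Us2_cont hs).comp ((h1 _).sub (h1 _))).mul (((h2 _).sub (h2 _)).pow 2)
  · simp only [hx, if_false]
    exact continuous_const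

private theorem mea_int {D : Finset (ℤ × ℤ)} {b : ℤ × ℤ → ℝ} (hb : ∀ z, |b z| ≤ 1 / 2)
    {F : (D → ℝ) → ℝ} (hF : PG F) : Integrable F (Mu D b) := by
  obtain ⟨hm, C, k, hC⟩ := hF
  have h1 : IntegrableOn F (K D b) volume := by
    refine Measure.integrableOn_of_bounded (M := |C| * (1 + (1 / 2 + (D.card : ℝ))) ^ k)
      (Z_lt_top D b).ne hm.aestronglyMeasurable ?_
    refine (ae_restrict_iff' (K_meas D b)).2 (Eventually.of_forall fun h hh => ?_)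
    have h2 : ‖h‖ ≤ 1 / 2 + (D.card : ℝ) := by
      refine (pi_norm_le_iff_of_nonneg (by positivity)).2 fun x => ?_
      exact K_bdd (by norm_num) (fun z _ _ => hb z) hh x
    rw [Real.norm_eq_abs]
    refine (hC h).trans ?_
    refine (mul_le_mul_of_nonneg_right (le_abs_self C) (by positivity)).trans ?_
    gcongr
  have h3 : 1 ≤ Z D b := Z_one_le (fun z _ _ => hb z)
  refine Integrable.smul_measure h1 ?_
  refine ENNReal.inv_ne_top.2 ?_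
  intro h0
  rw [show Z D b = 0 from h0] at h3
  exact absurd h3 (by norm_num)

private theorem mea_core {D : Finset (ℤ × ℤ)} {b₀ b₁ : ℤ × ℤ → ℝ} (h₀ : ∀ z, |b₀ z| ≤ 1 / 2)
    (h₁ : ∀ z, |b₁ z| ≤ 1 / 2) {ψ : D → (D → ℝ) → ℝ} (hψ : ∀ x, BS (ψ x))
    {ε : ℝ} (hε : 0 < ε) (ht : ∀ x y : D, (∃ i, (y : ℤ × ℤ) = x + st i) → ∀ h : D → ℝ,
      1 - ε ≤ |h x - h y| → ψ x h = ψ y h)
    {X G Y : (D → ℝ) → ℝ} (hX : PG X) (hG : PG G) (hY : PG Y) {c : ℝ} (hc : 0 ≤ c)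
    {θ₀ θ₁ : ℝ} (ht0 : 0 ≤ θ₀) (ht1 : θ₀ ≤ θ₁) (ht2 : θ₁ ≤ 1) {v B δ : ℝ}
    (hs : ∀ n : ℕ, ∀ θ ∈ Icc θ₀ θ₁, |Cv (Vs D (bt b₀ b₁ θ) (n + 1)) X
        (Bt D (bt b₀ b₁ θ) (fun z => b₁ z - b₀ z) (n + 1))| ≤
      Real.sqrt (Cv (Vs D (bt b₀ b₁ θ) (n + 1)) G G) *
        Real.sqrt (4 * (Ev (Vs D (bt b₀ b₁ θ) (n + 1)) (Gd2 ψ) +
          Ev (Vs D (bt b₀ b₁ θ) (n + 1)) (Td D (n + 1) ψ))) +
      c * Ev (Vs D (bt b₀ b₁ θ) (n + 1)) Y)
    (hv : ∀ θ ∈ Icc θ₀ θ₁,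
      ∫ h, (G h - ∫ k, G k ∂(Mu D (bt b₀ b₁ θ))) ^ 2 ∂(Mu D (bt b₀ b₁ θ)) ≤ v)
    (hB : ∀ θ ∈ Icc θ₀ θ₁, ∫ h, Gd2 ψ h ∂(Mu D (bt b₀ b₁ θ)) ≤ B)
    (hδ : ∀ θ ∈ Icc θ₀ θ₁, ∫ h, Y h ∂(Mu D (bt b₀ b₁ θ)) ≤ δ) :
    |∫ h, X h ∂(Mu D (bt b₀ b₁ θ₁)) - ∫ h, X h ∂(Mu D (bt b₀ b₁ θ₀))| ≤
      (θ₁ - θ₀) * (2 * Real.sqrt (v * B) + c * δ) := by
  set L : ℝ := 2 * Real.sqrt (v * B) + c * δ with hL
  have hsub : Icc θ₀ θ₁ ⊆ Icc (0 : ℝ) 1 := Icc_subset_Icc ht0 ht2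
  have hs1 : ∀ n : ℕ, (1 : ℝ) ≤ (n : ℝ) + 1 := fun n => by
    have := Nat.cast_nonneg (α := ℝ) n
    linarith
  obtain ⟨CT, hCT⟩ := Td_le hψ hε ht
  have hCT0 : 0 ≤ CT := by
    have h1 := hCT 1 le_rfl (fun _ => 0)
    have h2 := h1.1.trans h1.2
    simpa using h2
  have hTd : ∀ n : ℕ, PG (Td D ((n : ℝ) + 1) ψ) := by
    intro n
    refine PG.of_bdd (C := CT / ((n : ℝ) + 1) ^ 3) (mea_Td_cont hψ (hs1 n)).measurable fun h => ?_
    rw [abs_of_nonneg (hCT _ (hs1 n) h).1]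
    exact (hCT _ (hs1 n) h).2
  have hGd := mea_Gd2_pg hψ
  have hGG := hG.mul hG
  set Bn : ℕ → ℝ → ℝ := fun n θ => Real.sqrt (Cv (Vs D (bt b₀ b₁ θ) (n + 1)) G G) *
        Real.sqrt (4 * (Ev (Vs D (bt b₀ b₁ θ) (n + 1)) (Gd2 ψ) +
          Ev (Vs D (bt b₀ b₁ θ) (n + 1)) (Td D (n + 1) ψ))) +
      c * Ev (Vs D (bt b₀ b₁ θ) (n + 1)) Y with hBn
  -- continuity
  have hBc : ∀ n, ContinuousOn (Bn n) (Icc θ₀ θ₁) := by
    intro n
    have c1 := (mea_cont (D := D) h₀ h₁ (hs1 n) hGG).mono hsub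
    have c2 := (mea_cont (D := D) h₀ h₁ (hs1 n) hG).mono hsub
    have c3 := (mea_cont (D := D) h₀ h₁ (hs1 n) hGd).mono hsub
    have c4 := (mea_cont (D := D) h₀ h₁ (hs1 n) (hTd n)).mono hsub
    have c5 := (mea_cont (D := D) h₀ h₁ (hs1 n) hY).mono hsub
    exact ((Real.continuous_sqrt.comp_continuousOn (c1.sub (c2.mul c2))).mul
      (Real.continuous_sqrt.comp_continuousOn (continuousOn_const.mul (c3.add c4)))).add
      (continuousOn_const.mul c5)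
  -- bounds for the Td term
  have hTdb : ∀ (n : ℕ) (θ : ℝ), θ ∈ Icc θ₀ θ₁ →
      0 ≤ Ev (Vs D (bt b₀ b₁ θ) (n + 1)) (Td D (n + 1) ψ) ∧
      Ev (Vs D (bt b₀ b₁ θ) (n + 1)) (Td D (n + 1) ψ) ≤ CT / ((n : ℝ) + 1) ^ 3 := by
    intro n θ hθ
    have hV := Pot_Vs (D := D) (mea_bt h₀ h₁ (hsub hθ)) (hs1 n)
    constructor
    · have h1 := Ev_mono hV (PG.const 0) (hTd n) (fun h => (hCT _ (hs1 n) h).1)
      rw [Ev_const hV] at h1
      exact h1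
    · have h1 := Ev_mono hV (hTd n) (PG.const (CT / ((n : ℝ) + 1) ^ 3))
        (fun h => (hCT _ (hs1 n) h).2)
      rw [Ev_const hV] at h1
      exact h1
  -- uniform bound
  obtain ⟨C1, hC1⟩ := Ev_unif D hGG
  obtain ⟨C3, hC3⟩ := Ev_unif D hGd
  obtain ⟨C5, hC5⟩ := Ev_unif D hY
  have hBb : ∀ n, ∀ θ ∈ Icc θ₀ θ₁,
      |Bn n θ| ≤ Real.sqrt C1 * Real.sqrt (4 * (C3 + CT)) + c * C5 := by
    intro n θ hθ
    have hb := mea_bt h₀ h₁ (hsub hθ)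
    have b1 := hC1 _ hb _ (hs1 n)
    have b3 := hC3 _ hb _ (hs1 n)
    have b5 := hC5 _ hb _ (hs1 n)
    have b4 := hTdb n θ hθ
    have b6 : CT / ((n : ℝ) + 1) ^ 3 ≤ CT := div_le_self hCT0 (one_le_pow₀ (hs1 n))
    refine (abs_add_le _ _).trans (add_le_add ?_ ?_)
    · rw [abs_mul, abs_of_nonneg (Real.sqrt_nonneg _), abs_of_nonneg (Real.sqrt_nonneg _)]
      refine mul_le_mul (Real.sqrt_le_sqrt ?_) (Real.sqrt_le_sqrt ?_) (Real.sqrt_nonneg _)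
        (Real.sqrt_nonneg _)
      · unfold Cv
        have := mul_self_nonneg (Ev (Vs D (bt b₀ b₁ θ) (n + 1)) G)
        have := (abs_le.1 b1).2
        linarith
      · have := (abs_le.1 b3).2
        linarith [b4.2]
    · rw [abs_mul, abs_of_nonneg hc]
      exact mul_le_mul_of_nonneg_left b5 hc
  -- pointwise limit
  have hBl : ∀ θ ∈ Icc θ₀ θ₁, ∃ l, l ≤ L ∧ Tendsto (fun n => Bn n θ) atTop (𝓝 l) := by
    intro θ hθ
    have hb := mea_bt h₀ h₁ (hsub hθ)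
    have hP : IsProbabilityMeasure (Mu D (bt b₀ b₁ θ)) := prob hb
    have l1 := Ev_lim hb hGG
    have l2 := Ev_lim hb hG
    have l3 := Ev_lim hb hGd
    have l5 := Ev_lim hb hY
    have l4 : Tendsto (fun n : ℕ => Ev (Vs D (bt b₀ b₁ θ) (n + 1)) (Td D (n + 1) ψ)) atTop
        (𝓝 0) := by
      refine squeeze_zero (fun n => (hTdb n θ hθ).1) (fun n => (hTdb n θ hθ).2) ?_
      have e1 : Tendsto (fun n : ℕ => ((n : ℝ) + 1) ^ 3) atTop atTop :=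
        (tendsto_pow_atTop (by norm_num)).comp
          (tendsto_atTop_add_const_right _ _ tendsto_natCast_atTop_atTop)
      exact e1.const_div_atTop CT
    have l6 := ((l1.sub (l2.mul l2)).sqrt.mul ((l3.add l4).const_mul 4).sqrt).add
      (l5.const_mul c)
    refine ⟨_, ?_, l6⟩
    rw [hL]
    refine add_le_add ?_ (mul_le_mul_of_nonneg_left (hδ θ hθ) hc)
    have e2 : (∫ h, G h * G h ∂(Mu D (bt b₀ b₁ θ))) -
        (∫ h, G h ∂(Mu D (bt b₀ b₁ θ))) * ∫ h, G h ∂(Mu D (bt b₀ b₁ θ)) ≤ v := by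
      refine le_trans (le_of_eq ?_) (hv θ hθ)
      set m : ℝ := ∫ h, G h ∂(Mu D (bt b₀ b₁ θ)) with hm
      have i1 := mea_int hb hGG
      have i2 := (mea_int hb hG).const_mul (2 * m)
      have e4 : ∀ h : D → ℝ, (G h - m) ^ 2 = (G h * G h - 2 * m * G h) + m ^ 2 := fun h => by
        ring
      have i3 : Integrable (fun h => G h * G h - 2 * m * G h) (Mu D (bt b₀ b₁ θ)) := i1.sub i2
      simp only [e4]
      rw [integral_add i3 (integrable_const _), integral_sub i1 i2, integral_const_mul,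
        ← hm, integral_const, probReal_univ, one_smul]
      ring
    have e3 : 4 * ((∫ h, Gd2 ψ h ∂(Mu D (bt b₀ b₁ θ))) + 0) ≤ 4 * B := by
      rw [add_zero]
      exact mul_le_mul_of_nonneg_left (hB θ hθ) (by norm_num)
    refine (mul_le_mul (Real.sqrt_le_sqrt e2) (Real.sqrt_le_sqrt e3) (Real.sqrt_nonneg _)
      (Real.sqrt_nonneg _)).trans (le_of_eq ?_)
    have hv0 : 0 ≤ v := le_trans (integral_nonneg fun h => sq_nonneg _) (hv θ hθ)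
    rw [Real.sqrt_mul (by norm_num : (0 : ℝ) ≤ 4), Real.sqrt_mul hv0,
      show (4 : ℝ) = 2 ^ 2 by norm_num, Real.sqrt_sq (by norm_num : (0 : ℝ) ≤ 2)]
    ring
  -- dominated convergence
  have hlim : Tendsto (fun n : ℕ => ∫ θ in θ₀..θ₁, max (Bn n θ) L) atTop
      (𝓝 (∫ θ in θ₀..θ₁, L)) := by
    refine intervalIntegral.tendsto_integral_filter_of_dominated_convergence
      (fun _ => Real.sqrt C1 * Real.sqrt (4 * (C3 + CT)) + c * C5 + |L|) ?_ ?_ ?_ ?_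
    · refine Eventually.of_forall fun n => ?_
      rw [uIoc_of_le ht1]
      refine (ContinuousOn.aestronglyMeasurable ?_ measurableSet_Ioc)
      exact ((hBc n).sup continuousOn_const).mono Ioc_subset_Icc_self
    · refine Eventually.of_forall fun n => Eventually.of_forall fun θ hθ => ?_
      rw [uIoc_of_le ht1] at hθ
      have h1 := hBb n θ (Ioc_subset_Icc_self hθ)
      have h2 := abs_le.1 h1
      have h3 := neg_abs_le L
      have h4 := le_abs_self L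
      rw [Real.norm_eq_abs, abs_le]
      constructor
      · refine le_trans ?_ (le_max_left _ _)
        have h5 := abs_nonneg L
        linarith
      · refine max_le ?_ ?_
        · have h5 := abs_nonneg L
          linarith
        · have h5 := (abs_nonneg _).trans h1
          linarith
    · exact intervalIntegrable_const
    · refine Eventually.of_forall fun θ hθ => ?_
      rw [uIoc_of_le ht1] at hθ
      obtain ⟨l, hl, hl2⟩ := hBl θ (Ioc_subset_Icc_self hθ)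
      have h1 := hl2.max (tendsto_const_nhds (x := L))
      rw [max_eq_right hl] at h1
      exact h1
  rw [intervalIntegral.integral_const, smul_eq_mul] at hlim
  -- the mean value inequality
  have hder : ∀ n : ℕ, ∀ θ ∈ Icc θ₀ θ₁, HasDerivAt
      (fun θ => Ev (Vs D (bt b₀ b₁ θ) ((n : ℝ) + 1)) X)
      (Cv (Vs D (bt b₀ b₁ θ) ((n : ℝ) + 1)) X
        (Bt D (bt b₀ b₁ θ) (fun z => b₁ z - b₀ z) ((n : ℝ) + 1))) θ := fun n θ hθ =>
    Ev_deriv (mea_bt h₀ h₁ (hsub hθ)) (hs1 n) hX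
  have hcX : ∀ n : ℕ, ContinuousOn (fun θ => Ev (Vs D (bt b₀ b₁ θ) ((n : ℝ) + 1)) X)
      (Icc θ₀ θ₁) := fun n => (mea_cont h₀ h₁ (hs1 n) hX).mono hsub
  have hin : ∀ n : ℕ, IntegrableOn (fun θ => max (Bn n θ) L) (Icc θ₀ θ₁) := fun n =>
    ((hBc n).sup continuousOn_const).integrableOn_Icc
  have hmv : ∀ n : ℕ, |Ev (Vs D (bt b₀ b₁ θ₁) ((n : ℝ) + 1)) X -
      Ev (Vs D (bt b₀ b₁ θ₀) ((n : ℝ) + 1)) X| ≤ ∫ θ in θ₀..θ₁, max (Bn n θ) L := by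
    intro n
    rw [abs_le]
    have k1 := intervalIntegral.sub_le_integral_of_hasDeriv_right_of_le ht1 (hcX n)
      (fun θ hθ => (hder n θ (Ioo_subset_Icc_self hθ)).hasDerivWithinAt) (hin n)
      (fun θ hθ => ((le_abs_self _).trans (hs n θ (Ioo_subset_Icc_self hθ))).trans
        (le_max_left _ _))
    have k2 := intervalIntegral.sub_le_integral_of_hasDeriv_right_of_le ht1 (hcX n).neg
      (fun θ hθ => (hder n θ (Ioo_subset_Icc_self hθ)).neg.hasDerivWithinAt) (hin n)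
      (fun θ hθ => ((neg_le_abs _).trans (hs n θ (Ioo_subset_Icc_self hθ))).trans
        (le_max_left _ _))
    constructor
    · simp only [Pi.neg_apply] at k2
      linarith
    · exact k1
  have hb1 := mea_bt h₀ h₁ (hsub (right_mem_Icc.2 ht1))
  have hb0 := mea_bt h₀ h₁ (hsub (left_mem_Icc.2 ht1))
  exact le_of_tendsto_of_tendsto' ((Ev_lim hb1 hX).sub (Ev_lim hb0 hX)).abs hlim hmv

theorem score {D : Finset (ℤ × ℤ)} {b₀ b₁ : ℤ × ℤ → ℝ} (h₀ : ∀ z, |b₀ z| ≤ 1 / 2)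
    (h₁ : ∀ z, |b₁ z| ≤ 1 / 2) {P : ℤ × ℤ → Prop} {ψ : D → (D → ℝ) → ℝ} {γ G : (D → ℝ) → ℝ}
    (hψ : ∀ x, BS (ψ x)) (hγ : BS γ) (hP : ∀ x : D, P x → ψ x = γ)
    (hk : ∀ (x : D) (i : Fin 6), (x : ℤ × ℤ) + st i ∉ D →
      b₁ ((x : ℤ × ℤ) + st i) ≠ b₀ ((x : ℤ × ℤ) + st i) → ∀ h, ψ x h = 0)
    {ε : ℝ} (hε : 0 < ε) (ht : ∀ x y : D, (∃ i, (y : ℤ × ℤ) = x + st i) → ∀ h : D → ℝ,
      1 - ε ≤ |h x - h y| → ψ x h = ψ y h)
    (hG : Measurable G) {M : ℝ} (hM : ∀ h, |G h| ≤ M) (hd : Dep P G)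
    {θ₀ θ₁ : ℝ} (ht0 : 0 ≤ θ₀) (ht1 : θ₀ ≤ θ₁) (ht2 : θ₁ ≤ 1) {v B δ : ℝ}
    (hv : ∀ θ ∈ Icc θ₀ θ₁,
      ∫ h, (G h - ∫ k, G k ∂(Mu D (bt b₀ b₁ θ))) ^ 2 ∂(Mu D (bt b₀ b₁ θ)) ≤ v)
    (hB : ∀ θ ∈ Icc θ₀ θ₁, ∫ h, Gd2 ψ h ∂(Mu D (bt b₀ b₁ θ)) ≤ B)
    (hδ : ∀ θ ∈ Icc θ₀ θ₁, ∫ h, Ga γ h ∂(Mu D (bt b₀ b₁ θ)) ≤ δ) :
    |∫ h, G h * γ h ∂(Mu D (bt b₀ b₁ θ₁)) - ∫ h, G h * γ h ∂(Mu D (bt b₀ b₁ θ₀))| ≤
      (θ₁ - θ₀) * (2 * Real.sqrt (v * B) + 2 * M * δ) := by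
  have hM0 : 0 ≤ M := (abs_nonneg _).trans (hM (fun _ => 0))
  refine mea_core h₀ h₁ hψ hε ht (X := fun h => G h * γ h) ((PG.of_bdd hG hM).mul hγ.pg)
    (PG.of_bdd hG hM) (mea_Ga_pg hγ) (by positivity) ht0 ht1 ht2 ?_ hv hB hδ
  intro n θ hθ
  have hb := mea_bt h₀ h₁ (⟨ht0.trans hθ.1, hθ.2.trans ht2⟩ : θ ∈ Icc (0 : ℝ) 1)
  have hs1 : (1 : ℝ) ≤ (n : ℝ) + 1 := by
    have := Nat.cast_nonneg (α := ℝ) n
    linarith
  refine soft_score hb ?_ hs1 hψ hγ hP ?_ hG hM hd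
  · intro z
    have a0 := abs_le.1 (h₀ z)
    have a1 := abs_le.1 (h₁ z)
    rw [abs_le]
    constructor <;> linarith [a0.1, a0.2, a1.1, a1.2]
  · intro x i hx hu
    exact hk x i hx (sub_ne_zero.1 hu)

/- END mea -/

/- MODULE meb
HARD BOUNDARY LEMMA: the same with `soft_bdry` instead of `soft_score`, on `[0, 1]`
(`bt b₀ b₁ 0 = b₀`, `bt b₀ b₁ 1 = b₁`). -/
theorem bdry_one {D : Finset (ℤ × ℤ)} {b₀ b₁ : ℤ × ℤ → ℝ} (h₀ : ∀ z, |b₀ z| ≤ 1 / 2)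
    (h₁ : ∀ z, |b₁ z| ≤ 1 / 2) {ψ : D → (D → ℝ) → ℝ} (hψ : ∀ x, BS (ψ x))
    (hk : ∀ (x : D) (i : Fin 6), (x : ℤ × ℤ) + st i ∉ D →
      b₁ ((x : ℤ × ℤ) + st i) ≠ b₀ ((x : ℤ × ℤ) + st i) → ∀ h, ψ x h = 0)
    {ε : ℝ} (hε : 0 < ε) (ht : ∀ x y : D, (∃ i, (y : ℤ × ℤ) = x + st i) → ∀ h : D → ℝ,
      1 - ε ≤ |h x - h y| → ψ x h = ψ y h) (a Z : D → ℝ) {v B δ : ℝ}
    (hv : ∀ θ ∈ Icc (0 : ℝ) 1, ∫ h, (∑ x, a x * h x -
      ∫ k, ∑ x, a x * k x ∂(Mu D (bt b₀ b₁ θ))) ^ 2 ∂(Mu D (bt b₀ b₁ θ)) ≤ v)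
    (hB : ∀ θ ∈ Icc (0 : ℝ) 1, ∫ h, Gd2 ψ h ∂(Mu D (bt b₀ b₁ θ)) ≤ B)
    (hδ : ∀ θ ∈ Icc (0 : ℝ) 1, ∫ h, ∑ x, |a x| * |Z x - ψ x h| ∂(Mu D (bt b₀ b₁ θ)) ≤ δ) :
    |∫ h, ∑ x, a x * Z x * h x ∂(Mu D b₁) - ∫ h, ∑ x, a x * Z x * h x ∂(Mu D b₀)| ≤
      2 * Real.sqrt (v * B) + 2 * δ := by
  have hX : PG (fun h : D → ℝ => ∑ x, a x * Z x * h x) :=
    PG.sum _ fun x _ => (PG.const (a x * Z x)).mul (PG.coord x)
  have hG : PG (fun h : D → ℝ => ∑ x, a x * h x) :=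
    PG.sum _ fun x _ => (PG.const (a x)).mul (PG.coord x)
  have hY : PG (fun h : D → ℝ => ∑ x, |a x| * |Z x - ψ x h|) := by
    refine PG.sum _ fun x _ => (PG.const (|a x|)).mul ?_
    obtain ⟨C, hC⟩ := (hψ x).bd
    refine PG.of_bdd (C := |Z x| + C) ?_ fun h => ?_
    · exact (continuous_const.sub (hψ x).sm.continuous).abs.measurable
    · rw [abs_abs]
      exact (abs_sub _ _).trans (add_le_add le_rfl (hC h))
  have key := mea_core h₀ h₁ hψ hε ht hX hG hY (c := 2) (by norm_num) (θ₀ := 0) (θ₁ := 1)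
    le_rfl zero_le_one le_rfl (v := v) (B := B) (δ := δ) ?_ hv hB hδ
  · have e0 : bt b₀ b₁ 0 = b₀ := by
      funext z
      simp [bt]
    have e1 : bt b₀ b₁ 1 = b₁ := by
      funext z
      simp [bt]
    rw [e0, e1, sub_zero, one_mul] at key
    exact key
  · intro n θ hθ
    have hb := mea_bt h₀ h₁ hθ
    have hs1 : (1 : ℝ) ≤ (n : ℝ) + 1 := by
      have := Nat.cast_nonneg (α := ℝ) n
      linarith
    refine soft_bdry hb ?_ hs1 hψ ?_ a Z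
    · intro z
      have a0 := abs_le.1 (h₀ z)
      have a1 := abs_le.1 (h₁ z)
      rw [abs_le]
      constructor <;> linarith [a0.1, a0.2, a1.1, a1.2]
    · intro x i hx hu
      exact hk x i hx (sub_ne_zero.1 hu)

/- END meb -/

/- MODULE mec
Uniform continuity of the laws in `θ` (total variation).  For `θ' → θ` in `[0,1]` the indicator of
`K D (bt θ')` tends to the indicator of `K D (bt θ)` at all `h` off a null set (the union of the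
hyperplanes `h x - bt θ z = ± 1`, `h x - h y = ± 1`), all sets are in a fixed ball (`K_bdd`), volumes
`≥ 1` (`Z_one_le`); so `θ ↦ Mu D (bt θ)` is continuous in total variation, hence uniformly continuous
on `[0,1]` (e.g. by contradiction with sequences, or by `CompactSpace.uniformContinuous_of_continuous`
for `θ ↦ 1_K` in `L¹`). -/
private theorem mec_bt {b₀ b₁ : ℤ × ℤ → ℝ} (h₀ : ∀ z, |b₀ z| ≤ 1 / 2) (h₁ : ∀ z, |b₁ z| ≤ 1 / 2)
    {θ : ℝ} (hθ : θ ∈ Icc (0 : ℝ) 1) (z : ℤ × ℤ) : |bt b₀ b₁ θ z| ≤ 1 / 2 := by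
  unfold bt
  have h0 := abs_le.1 (h₀ z)
  have h1 := abs_le.1 (h₁ z)
  have a1 := mul_nonneg (sub_nonneg.2 hθ.2) (sub_nonneg.2 h0.2)
  have a2 := mul_nonneg hθ.1 (sub_nonneg.2 h1.2)
  have a3 := mul_nonneg (sub_nonneg.2 hθ.2) (sub_nonneg.2 h0.1)
  have a4 := mul_nonneg hθ.1 (sub_nonneg.2 h1.1)
  rw [abs_le]
  constructor <;> nlinarith

private theorem mec_slab (c : ℝ) {ρ : ℝ} (hρ : 0 ≤ ρ) :
    volume {r : ℝ | 1 - ρ < |r - c| ∧ |r - c| ≤ 1} ≤ ENNReal.ofReal (2 * ρ) := by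
  have hsub : {r : ℝ | 1 - ρ < |r - c| ∧ |r - c| ≤ 1} ⊆
      Icc (c - 1) (c - 1 + ρ) ∪ Icc (c + 1 - ρ) (c + 1) := by
    rintro r ⟨h1, h2⟩
    have h3 := abs_le.1 h2
    rcases le_total 0 (r - c) with h | h
    · rw [abs_of_nonneg h] at h1 h2
      exact Or.inr ⟨by linarith, by linarith⟩
    · rw [abs_of_nonpos h] at h1 h2
      exact Or.inl ⟨by linarith, by linarith⟩
  refine (measure_mono hsub).trans ((measure_union_le _ _).trans (le_of_eq ?_))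
  rw [Real.volume_Icc, Real.volume_Icc, ← ENNReal.ofReal_add (by linarith) (by linarith)]
  congr 1
  ring

private theorem mec_box {D : Finset (ℤ × ℤ)} (x : D) (c R : ℝ) {ρ : ℝ} (hρ : 0 ≤ ρ) :
    volume {h : D → ℝ | (∀ y, |h y| ≤ R) ∧ 1 - ρ < |h x - c| ∧ |h x - c| ≤ 1} ≤
      ENNReal.ofReal (2 * ρ) * ENNReal.ofReal (2 * R) ^ (D.card - 1) := by
  classical
  set S : D → Set ℝ := fun y => if y = x then {r : ℝ | 1 - ρ < |r - c| ∧ |r - c| ≤ 1} else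
    Icc (-R) R with hS
  have hsub : {h : D → ℝ | (∀ y, |h y| ≤ R) ∧ 1 - ρ < |h x - c| ∧ |h x - c| ≤ 1} ⊆
      Set.pi univ S := by
    rintro h ⟨h1, h2⟩ y _
    by_cases hy : y = x
    · rw [hS]
      simp only [hy, if_true]
      exact h2
    · rw [hS]
      simp only [hy, if_false]
      exact abs_le.1 (h1 y)
  refine (measure_mono hsub).trans ?_
  rw [volume_pi_pi, ← Finset.mul_prod_erase _ _ (Finset.mem_univ x)]
  refine mul_le_mul' ?_ ?_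
  · rw [hS]
    simp only [if_true]
    exact mec_slab c hρ
  · have e1 : ∀ y ∈ Finset.univ.erase x, volume (S y) = ENNReal.ofReal (2 * R) := by
      intro y hy
      rw [hS]
      simp only [(Finset.mem_erase.1 hy).1, if_false]
      rw [Real.volume_Icc]
      congr 1
      ring
    rw [Finset.prod_congr rfl e1, Finset.prod_const, Finset.card_erase_of_mem (Finset.mem_univ _),
      Finset.card_univ, Fintype.card_coe]

private theorem mec_diff {D : Finset (ℤ × ℤ)} {b₀ b₁ : ℤ × ℤ → ℝ} (h₀ : ∀ z, |b₀ z| ≤ 1 / 2)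
    (h₁ : ∀ z, |b₁ z| ≤ 1 / 2) {ρ : ℝ} (hρ : 0 ≤ ρ) {θ θ' : ℝ} (hθ : θ ∈ Icc (0 : ℝ) 1)
    (hd : |θ' - θ| ≤ ρ) :
    volume (K D (bt b₀ b₁ θ) \ K D (bt b₀ b₁ θ')) ≤
      (D.card : ℝ≥0∞) * (6 * (ENNReal.ofReal (2 * ρ) *
        ENNReal.ofReal (2 * (1 / 2 + (D.card : ℝ))) ^ (D.card - 1))) := by
  have hsub : K D (bt b₀ b₁ θ) \ K D (bt b₀ b₁ θ') ⊆ ⋃ x : D, ⋃ i : Fin 6,
      {h : D → ℝ | (∀ y, |h y| ≤ 1 / 2 + (D.card : ℝ)) ∧
        1 - ρ < |h x - bt b₀ b₁ θ ((x : ℤ × ℤ) + st i)| ∧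
        |h x - bt b₀ b₁ θ ((x : ℤ × ℤ) + st i)| ≤ 1} := by
    rintro h ⟨h1, h2⟩
    have h3 : ∀ y, |h y| ≤ 1 / 2 + (D.card : ℝ) := fun y =>
      K_bdd (by norm_num) (fun z _ _ => mec_bt h₀ h₁ hθ z) h1 y
    have h4 : ¬ ∀ x ∈ D, ∀ i : Fin 6, |gl D (bt b₀ b₁ θ') h x -
      gl D (bt b₀ b₁ θ') h (x + st i)| ≤ 1 := h2
    push Not at h4
    obtain ⟨x, hx, i, h5⟩ := h4
    have h6 := h1 x hx i
    rw [gl_mem hx] at h5 h6
    by_cases hz : x + st i ∈ D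
    · rw [gl_mem hz] at h5 h6
      exact absurd h6 (not_le.2 h5)
    · rw [gl_not_mem hz] at h5 h6
      refine mem_iUnion.2 ⟨⟨x, hx⟩, mem_iUnion.2 ⟨i, h3, ?_, h6⟩⟩
      have h7 : |bt b₀ b₁ θ (x + st i) - bt b₀ b₁ θ' (x + st i)| ≤ ρ := by
        have e1 : bt b₀ b₁ θ (x + st i) - bt b₀ b₁ θ' (x + st i) =
            (θ - θ') * (b₁ (x + st i) - b₀ (x + st i)) := by
          unfold bt
          ring
        rw [e1, abs_mul, abs_sub_comm θ θ']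
        have a0 := abs_le.1 (h₀ (x + st i))
        have a1 := abs_le.1 (h₁ (x + st i))
        have e2 : |b₁ (x + st i) - b₀ (x + st i)| ≤ 1 := by
          rw [abs_le]
          constructor <;> linarith [a0.1, a0.2, a1.1, a1.2]
        calc |θ' - θ| * |b₁ (x + st i) - b₀ (x + st i)| ≤ ρ * 1 :=
              mul_le_mul hd e2 (abs_nonneg _) hρ
          _ = ρ := mul_one ρ
      have h8 := abs_add_le (h ⟨x, hx⟩ - bt b₀ b₁ θ (x + st i))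
        (bt b₀ b₁ θ (x + st i) - bt b₀ b₁ θ' (x + st i))
      rw [sub_add_sub_cancel] at h8
      show 1 - ρ < |h ⟨x, hx⟩ - bt b₀ b₁ θ (x + st i)|
      linarith
  refine (measure_mono hsub).trans ((measure_iUnion_fintype_le _ _).trans ?_)
  have e3 : ∀ x : D, volume (⋃ i : Fin 6,
      {h : D → ℝ | (∀ y, |h y| ≤ 1 / 2 + (D.card : ℝ)) ∧
        1 - ρ < |h x - bt b₀ b₁ θ ((x : ℤ × ℤ) + st i)| ∧
        |h x - bt b₀ b₁ θ ((x : ℤ × ℤ) + st i)| ≤ 1}) ≤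
      6 * (ENNReal.ofReal (2 * ρ) *
        ENNReal.ofReal (2 * (1 / 2 + (D.card : ℝ))) ^ (D.card - 1)) := by
    intro x
    refine (measure_iUnion_fintype_le _ _).trans ?_
    refine (Finset.sum_le_sum fun i _ => mec_box x _ _ hρ).trans (le_of_eq ?_)
    rw [Finset.sum_const, Finset.card_univ, Fintype.card_fin, nsmul_eq_mul]
    norm_num
  refine (Finset.sum_le_sum fun x _ => e3 x).trans (le_of_eq ?_)
  rw [Finset.sum_const, Finset.card_univ, Fintype.card_coe, nsmul_eq_mul]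

theorem tv_cont {D : Finset (ℤ × ℤ)} {b₀ b₁ : ℤ × ℤ → ℝ} (h₀ : ∀ z, |b₀ z| ≤ 1 / 2)
    (h₁ : ∀ z, |b₁ z| ≤ 1 / 2) {η : ℝ} (hη : 0 < η) :
    ∃ ρ : ℝ, 0 < ρ ∧ ∀ θ ∈ Icc (0 : ℝ) 1, ∀ θ' ∈ Icc (0 : ℝ) 1, |θ' - θ| ≤ ρ →
      ∀ G : (D → ℝ) → ℝ, Measurable G → (∀ h, |G h| ≤ 1) →
        |∫ h, G h ∂(Mu D (bt b₀ b₁ θ')) - ∫ h, G h ∂(Mu D (bt b₀ b₁ θ))| ≤ η := by
  set W : ℝ := (D.card : ℝ) * (6 * (2 * (2 * (1 / 2 + (D.card : ℝ))) ^ (D.card - 1))) with hW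
  have hW0 : 0 ≤ W := by positivity
  refine ⟨η / (4 * W + 1), by positivity, ?_⟩
  intro θ hθ θ' hθ' hd G hG hG1
  set ρ : ℝ := η / (4 * W + 1) with hρd
  have hρ : 0 ≤ ρ := by positivity
  have hreal : ∀ {s t : ℝ}, s ∈ Icc (0 : ℝ) 1 → |t - s| ≤ ρ →
      volume.real (K D (bt b₀ b₁ s) \ K D (bt b₀ b₁ t)) ≤ W * ρ := by
    intro s t hs hst
    have h1 := mec_diff (D := D) h₀ h₁ hρ hs hst
    have h2 : (D.card : ℝ≥0∞) * (6 * (ENNReal.ofReal (2 * ρ) *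
        ENNReal.ofReal (2 * (1 / 2 + (D.card : ℝ))) ^ (D.card - 1))) =
        ENNReal.ofReal (W * ρ) := by
      rw [hW, ← ENNReal.ofReal_pow (by positivity), ← ENNReal.ofReal_mul (by positivity),
        show (6 : ℝ≥0∞) = ENNReal.ofReal 6 by simp, ← ENNReal.ofReal_mul (by positivity),
        show (D.card : ℝ≥0∞) = ENNReal.ofReal (D.card : ℝ) by simp,
        ← ENNReal.ofReal_mul (by positivity)]
      congr 1
      ring
    rw [h2] at h1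
    exact ENNReal.toReal_le_of_le_ofReal (by positivity) h1
  have d1 := hreal hθ hd
  have d2 := hreal hθ' (by rw [abs_sub_comm]; exact hd)
  set k : Set (D → ℝ) := K D (bt b₀ b₁ θ) with hk
  set k' : Set (D → ℝ) := K D (bt b₀ b₁ θ') with hk'
  have hkm : MeasurableSet k := K_meas _ _
  have hkm' : MeasurableSet k' := K_meas _ _
  have hkf : volume k ≠ ⊤ := (Z_lt_top D (bt b₀ b₁ θ)).ne
  have hkf' : volume k' ≠ ⊤ := (Z_lt_top D (bt b₀ b₁ θ')).ne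
  have hZ : 1 ≤ volume.real k := by
    have h1 : 1 ≤ volume k := Z_one_le (fun z _ _ => mec_bt h₀ h₁ hθ z)
    have h2 := ENNReal.toReal_mono hkf h1
    rwa [ENNReal.toReal_one] at h2
  have hZ' : 1 ≤ volume.real k' := by
    have h1 : 1 ≤ volume k' := Z_one_le (fun z _ _ => mec_bt h₀ h₁ hθ' z)
    have h2 := ENNReal.toReal_mono hkf' h1
    rwa [ENNReal.toReal_one] at h2
  -- difference of the integrals
  have hdiff : ∀ F : (D → ℝ) → ℝ, Measurable F → (∀ h, |F h| ≤ 1) →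
      |(∫ h in k', F h) - ∫ h in k, F h| ≤ 2 * (W * ρ) := by
    intro F hF hF1
    have i1 : IntegrableOn F k volume :=
      Measure.integrableOn_of_bounded (M := 1) hkf hF.aestronglyMeasurable
        (Eventually.of_forall fun h => hF1 h)
    have i2 : IntegrableOn F k' volume :=
      Measure.integrableOn_of_bounded (M := 1) hkf' hF.aestronglyMeasurable
        (Eventually.of_forall fun h => hF1 h)
    have s1 := integral_inter_add_sdiff hkm' i1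
    have s2 := integral_inter_add_sdiff hkm i2
    have n1 : ‖∫ h in k \ k', F h‖ ≤ 1 * volume.real (k \ k') :=
      norm_setIntegral_le_of_norm_le_const
        (lt_of_le_of_lt (measure_mono sdiff_subset) (lt_top_iff_ne_top.2 hkf)) (fun h _ => hF1 h)
    have n2 : ‖∫ h in k' \ k, F h‖ ≤ 1 * volume.real (k' \ k) :=
      norm_setIntegral_le_of_norm_le_const
        (lt_of_le_of_lt (measure_mono sdiff_subset) (lt_top_iff_ne_top.2 hkf')) (fun h _ => hF1 h)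
    rw [inter_comm] at s2
    rw [← s1, ← s2, Real.norm_eq_abs] at *
    have a1 := abs_le.1 n1
    have a2 := abs_le.1 n2
    rw [abs_le]
    constructor <;> linarith [a1.1, a1.2, a2.1, a2.2]
  have q1 := hdiff G hG hG1
  have q2 := hdiff (fun _ => 1) measurable_const (fun _ => by norm_num)
  rw [setIntegral_const, setIntegral_const, smul_eq_mul, smul_eq_mul, mul_one, mul_one] at q2
  have q3 : |∫ h in k', G h| ≤ volume.real k' := by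
    have h1 := norm_setIntegral_le_of_norm_le_const (μ := volume) (s := k') (f := G) (C := 1)
      (lt_top_iff_ne_top.2 hkf') (fun h _ => hG1 h)
    rwa [one_mul, Real.norm_eq_abs] at h1
  have q4 : 4 * (W * ρ) ≤ η := by
    have h1 : 4 * (W * ρ) = (4 * W / (4 * W + 1)) * η := by
      rw [hρd]
      ring
    have h2 : 4 * W / (4 * W + 1) ≤ 1 := by
      rw [div_le_one (by positivity)]
      linarith
    rw [h1]
    exact mul_le_of_le_one_left hη.le h2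
  have e1 : ∫ h, G h ∂(Mu D (bt b₀ b₁ θ)) = (volume.real k)⁻¹ * ∫ h in k, G h := by
    unfold Mu ProbabilityTheory.cond
    rw [integral_smul_measure, ENNReal.toReal_inv, smul_eq_mul]
    rfl
  have e2 : ∫ h, G h ∂(Mu D (bt b₀ b₁ θ')) = (volume.real k')⁻¹ * ∫ h in k', G h := by
    unfold Mu ProbabilityTheory.cond
    rw [integral_smul_measure, ENNReal.toReal_inv, smul_eq_mul]
    rfl
  rw [e1, e2]
  set a : ℝ := ∫ h in k, G h
  set a' : ℝ := ∫ h in k', G h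
  set z : ℝ := volume.real k
  set z' : ℝ := volume.real k'
  have z0 : 0 < z := lt_of_lt_of_le one_pos hZ
  have z0' : 0 < z' := lt_of_lt_of_le one_pos hZ'
  have e3 : z'⁻¹ * a' - z⁻¹ * a = z⁻¹ * ((a' - a) + z'⁻¹ * a' * (z - z')) := by
    field_simp
    ring
  have e4 : |z'⁻¹ * a'| ≤ 1 := by
    rw [abs_mul, abs_of_pos (inv_pos.2 z0'), inv_mul_le_iff₀ z0', mul_one]
    exact q3
  have e5 : |z - z'| ≤ 2 * (W * ρ) := by
    rw [abs_sub_comm]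
    exact q2
  have e6 : |(a' - a) + z'⁻¹ * a' * (z - z')| ≤ 4 * (W * ρ) := by
    refine (abs_add_le _ _).trans ?_
    rw [abs_mul]
    have := mul_le_mul e4 e5 (abs_nonneg _) zero_le_one
    linarith
  rw [e3, abs_mul, abs_of_pos (inv_pos.2 z0)]
  have e7 : z⁻¹ ≤ 1 := inv_le_one_of_one_le₀ hZ
  calc z⁻¹ * |(a' - a) + z'⁻¹ * a' * (z - z')| ≤ 1 * (4 * (W * ρ)) :=
        mul_le_mul e7 e6 (abs_nonneg _) zero_le_one
    _ ≤ η := by linarith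

/- END mec -/

/- MODULE med
THE CHAIN.  Partition `[0,1]` into `N` equal intervals of length `≤ ρ` (`tv_cont`,
`η = v / (16 M² + 1)`); on `[θ_k, θ_{k+1}]` use `score` with `G = clamp F - T_k`, `clamp F` = `F` cut at
`± M` (equal to `F` on all `K D (bt θ)`), `T_k` the function given for `θ_k`: `|G| ≤ 2 M`, its variance
under `Mu (bt θ)` is `≤ ∫ (G - c)²` with `c = ∫ F dMu (bt θ_k)`, `≤ v + 16 M² η ≤ 2 v`.  Since
`∫ T_k γ dMu (bt θ) = 0` for all `θ`, `∫ G γ = ∫ F γ`.  Sum over `k`. -/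
private theorem med_bt {b₀ b₁ : ℤ × ℤ → ℝ} (h₀ : ∀ z, |b₀ z| ≤ 1 / 2) (h₁ : ∀ z, |b₁ z| ≤ 1 / 2)
    {θ : ℝ} (hθ : θ ∈ Icc (0 : ℝ) 1) (z : ℤ × ℤ) : |bt b₀ b₁ θ z| ≤ 1 / 2 := by
  unfold bt
  have h0 := abs_le.1 (h₀ z)
  have h1 := abs_le.1 (h₁ z)
  have a1 := mul_nonneg (sub_nonneg.2 hθ.2) (sub_nonneg.2 h0.2)
  have a2 := mul_nonneg hθ.1 (sub_nonneg.2 h1.2)
  have a3 := mul_nonneg (sub_nonneg.2 hθ.2) (sub_nonneg.2 h0.1)
  have a4 := mul_nonneg hθ.1 (sub_nonneg.2 h1.1)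
  rw [abs_le]
  constructor <;> nlinarith

private theorem med_var {Ω : Type*} [MeasurableSpace Ω] {μ : Measure Ω} [IsProbabilityMeasure μ]
    {G : Ω → ℝ} (hG : Measurable G) (c : ℝ) :
    ∫ h, (G h - ∫ k, G k ∂μ) ^ 2 ∂μ ≤ ∫ h, (G h - c) ^ 2 ∂μ := by
  rw [← ProbabilityTheory.variance_eq_integral hG.aemeasurable,
    ← ProbabilityTheory.variance_sub_const hG.aestronglyMeasurable c]
  exact ProbabilityTheory.variance_le_expectation_sq (hG.sub_const c).aestronglyMeasurable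

private theorem med_int {Ω : Type*} [MeasurableSpace Ω] {μ : Measure Ω} [IsProbabilityMeasure μ]
    {G : Ω → ℝ} (hG : Measurable G) {C : ℝ} (hC : ∀ h, |G h| ≤ C) : Integrable G μ :=
  Integrable.of_bound hG.aestronglyMeasurable C (Eventually.of_forall fun h => hC h)

/-- one step of the chain -/
private theorem med_step {D : Finset (ℤ × ℤ)} {b₀ b₁ : ℤ × ℤ → ℝ} (h₀ : ∀ z, |b₀ z| ≤ 1 / 2)
    (h₁ : ∀ z, |b₁ z| ≤ 1 / 2) {P : ℤ × ℤ → Prop} {ψ : D → (D → ℝ) → ℝ} {γ F : (D → ℝ) → ℝ}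
    (hψ : ∀ x, BS (ψ x)) (hγ : BS γ) (hP : ∀ x : D, P x → ψ x = γ)
    (hk : ∀ (x : D) (i : Fin 6), (x : ℤ × ℤ) + st i ∉ D →
      b₁ ((x : ℤ × ℤ) + st i) ≠ b₀ ((x : ℤ × ℤ) + st i) → ∀ h, ψ x h = 0)
    {ε : ℝ} (hε : 0 < ε) (ht : ∀ x y : D, (∃ i, (y : ℤ × ℤ) = x + st i) → ∀ h : D → ℝ,
      1 - ε ≤ |h x - h y| → ψ x h = ψ y h)
    (hF : Continuous F) (hFd : Dep P F) {M v B δ : ℝ} (hM : 0 < M)
    (hFM : ∀ θ ∈ Icc (0 : ℝ) 1, ∀ h ∈ K D (bt b₀ b₁ θ), |F h| ≤ M)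
    (hT : ∀ θ ∈ Icc (0 : ℝ) 1, ∃ T : (D → ℝ) → ℝ, Measurable T ∧ (∀ h, |T h| ≤ M) ∧ Dep P T ∧
      (∀ θ' ∈ Icc (0 : ℝ) 1, ∫ h, T h * γ h ∂(Mu D (bt b₀ b₁ θ')) = 0) ∧
      ∫ h, (F h - (∫ h', F h' ∂(Mu D (bt b₀ b₁ θ))) - T h) ^ 2 ∂(Mu D (bt b₀ b₁ θ)) ≤ v)
    (hB : ∀ θ ∈ Icc (0 : ℝ) 1, ∫ h, Gd2 ψ h ∂(Mu D (bt b₀ b₁ θ)) ≤ B)
    (hδ : ∀ θ ∈ Icc (0 : ℝ) 1, ∫ h, Ga γ h ∂(Mu D (bt b₀ b₁ θ)) ≤ δ)
    {ρ η : ℝ} (hη : 9 * M ^ 2 * η ≤ v) (hρ : ∀ θ ∈ Icc (0 : ℝ) 1, ∀ θ' ∈ Icc (0 : ℝ) 1,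
      |θ' - θ| ≤ ρ → ∀ G : (D → ℝ) → ℝ, Measurable G → (∀ h, |G h| ≤ 1) →
        |∫ h, G h ∂(Mu D (bt b₀ b₁ θ')) - ∫ h, G h ∂(Mu D (bt b₀ b₁ θ))| ≤ η)
    {s t : ℝ} (h0s : 0 ≤ s) (hst : s ≤ t) (ht1 : t ≤ 1) (hts : t - s ≤ ρ) :
    |∫ h, F h * γ h ∂(Mu D (bt b₀ b₁ t)) - ∫ h, F h * γ h ∂(Mu D (bt b₀ b₁ s))| ≤
      (t - s) * (2 * Real.sqrt (2 * v * B) + 4 * M * δ) := by
  have hs : s ∈ Icc (0 : ℝ) 1 := ⟨h0s, hst.trans ht1⟩
  have htI : t ∈ Icc (0 : ℝ) 1 := ⟨h0s.trans hst, ht1⟩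
  obtain ⟨T, hTm, hTM, hTd, hT0, hTv⟩ := hT s hs
  set cF : (D → ℝ) → ℝ := fun h => max (-M) (min (F h) M) with hcF
  have hcm : Measurable cF := (measurable_const.max (hF.measurable.min measurable_const))
  have hcM : ∀ h, |cF h| ≤ M := fun h => by
    rw [abs_le]
    exact ⟨le_max_left _ _, max_le (by linarith) (min_le_right _ _)⟩
  have hcF1 : ∀ h, |F h| ≤ M → cF h = F h := fun h hh => by
    have h1 := abs_le.1 hh
    simp only [hcF]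
    rw [min_eq_left h1.2, max_eq_right h1.1]
  have hae : ∀ θ ∈ Icc (0 : ℝ) 1, cF =ᵐ[Mu D (bt b₀ b₁ θ)] F := by
    intro θ hθ
    have h1 : ∀ᵐ h ∂(Mu D (bt b₀ b₁ θ)), h ∈ K D (bt b₀ b₁ θ) :=
      ProbabilityTheory.ae_cond_mem (K_meas _ _)
    exact h1.mono fun h hh => hcF1 h (hFM θ hθ h hh)
  obtain ⟨Cγ, hCγ⟩ := hγ.bd
  have hγm : Measurable γ := hγ.sm.continuous.measurable
  set G : (D → ℝ) → ℝ := fun h => cF h - T h with hG
  have hGm : Measurable G := hcm.sub hTm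
  have hGM : ∀ h, |G h| ≤ 2 * M := fun h => by
    have := abs_sub (cF h) (T h)
    have h1 := hcM h
    have h2 := hTM h
    linarith
  have hGd : Dep P G := by
    intro h h' hh
    simp only [hG, hcF]
    rw [hFd h h' hh, hTd h h' hh]
  -- the integrals of `G γ`
  have hGγ : ∀ θ ∈ Icc (0 : ℝ) 1, ∫ h, G h * γ h ∂(Mu D (bt b₀ b₁ θ)) =
      ∫ h, F h * γ h ∂(Mu D (bt b₀ b₁ θ)) := by
    intro θ hθ
    have hP1 : IsProbabilityMeasure (Mu D (bt b₀ b₁ θ)) := prob (med_bt h₀ h₁ hθ)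
    have i1 : Integrable (fun h => cF h * γ h) (Mu D (bt b₀ b₁ θ)) :=
      med_int (hcm.mul hγm) (C := M * Cγ) fun h => by
        rw [abs_mul]
        exact mul_le_mul (hcM h) (hCγ h) (abs_nonneg _) hM.le
    have i2 : Integrable (fun h => T h * γ h) (Mu D (bt b₀ b₁ θ)) :=
      med_int (hTm.mul hγm) (C := M * Cγ) fun h => by
        rw [abs_mul]
        exact mul_le_mul (hTM h) (hCγ h) (abs_nonneg _) hM.le
    have e1 : ∀ h, G h * γ h = cF h * γ h - T h * γ h := fun h => by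
      simp only [hG]
      ring
    simp only [e1]
    rw [integral_sub i1 i2, hT0 θ hθ, sub_zero]
    refine integral_congr_ae ?_
    exact (hae θ hθ).mono fun h hh => by
      simp only at hh ⊢
      rw [hh]
  -- the variance
  set c : ℝ := ∫ h', F h' ∂(Mu D (bt b₀ b₁ s)) with hc
  have hPs : IsProbabilityMeasure (Mu D (bt b₀ b₁ s)) := prob (med_bt h₀ h₁ hs)
  have hcb : |c| ≤ M := by
    rw [hc, ← integral_congr_ae (hae s hs)]
    have h1 := norm_integral_le_of_norm_le_const (μ := Mu D (bt b₀ b₁ s)) (f := cF) (C := M)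
      (Eventually.of_forall fun h => hcM h)
    rwa [probReal_univ, mul_one, Real.norm_eq_abs] at h1
  have hGc : ∀ h, |G h - c| ≤ 3 * M := fun h => by
    have := abs_sub (G h) c
    have h1 := hGM h
    linarith
  have hvs : ∫ h, (G h - c) ^ 2 ∂(Mu D (bt b₀ b₁ s)) ≤ v := by
    refine le_trans (le_of_eq ?_) hTv
    refine integral_congr_ae ?_
    exact (hae s hs).mono fun h hh => by
      simp only [hG] at hh ⊢
      rw [hh]
      ring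
  have hvar : ∀ θ ∈ Icc s t,
      ∫ h, (G h - ∫ k, G k ∂(Mu D (bt b₀ b₁ θ))) ^ 2 ∂(Mu D (bt b₀ b₁ θ)) ≤ 2 * v := by
    intro θ hθ
    have hθI : θ ∈ Icc (0 : ℝ) 1 := ⟨h0s.trans hθ.1, hθ.2.trans ht1⟩
    have hP1 : IsProbabilityMeasure (Mu D (bt b₀ b₁ θ)) := prob (med_bt h₀ h₁ hθI)
    refine (med_var hGm c).trans ?_
    have hθs : |θ - s| ≤ ρ := by
      rw [abs_of_nonneg (sub_nonneg.2 hθ.1)]
      linarith [hθ.2]
    have h9 : (0 : ℝ) < 9 * M ^ 2 := by positivity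
    have h1 := hρ s hs θ hθI hθs (fun h => (G h - c) ^ 2 / (9 * M ^ 2))
      (((hGm.sub_const c).pow_const 2).div_const _) (fun h => by
        rw [abs_of_nonneg (by positivity), div_le_one h9]
        have h2 := pow_le_pow_left₀ (abs_nonneg _) (hGc h) 2
        rw [sq_abs] at h2
        linarith)
    rw [integral_div, integral_div, ← sub_div, abs_div, abs_of_pos h9, div_le_iff₀ h9] at h1
    have h3 := (abs_le.1 h1).2
    linarith
  have hB0 : 0 ≤ v := (integral_nonneg fun h => sq_nonneg _).trans hvs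
  have key := score h₀ h₁ hψ hγ hP hk hε ht hGm hGM hGd h0s hst ht1 hvar
    (fun θ hθ => hB θ ⟨h0s.trans hθ.1, hθ.2.trans ht1⟩)
    (fun θ hθ => hδ θ ⟨h0s.trans hθ.1, hθ.2.trans ht1⟩)
  rw [hGγ t htI, hGγ s hs] at key
  refine key.trans (le_of_eq ?_)
  ring

theorem chain {D : Finset (ℤ × ℤ)} {b₀ b₁ : ℤ × ℤ → ℝ} (h₀ : ∀ z, |b₀ z| ≤ 1 / 2)
    (h₁ : ∀ z, |b₁ z| ≤ 1 / 2) {P : ℤ × ℤ → Prop} {ψ : D → (D → ℝ) → ℝ} {γ F : (D → ℝ) → ℝ}
    (hψ : ∀ x, BS (ψ x)) (hγ : BS γ) (hγ1 : ∀ h, |γ h| ≤ 1) (hP : ∀ x : D, P x → ψ x = γ)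
    (hk : ∀ (x : D) (i : Fin 6), (x : ℤ × ℤ) + st i ∉ D →
      b₁ ((x : ℤ × ℤ) + st i) ≠ b₀ ((x : ℤ × ℤ) + st i) → ∀ h, ψ x h = 0)
    {ε : ℝ} (hε : 0 < ε) (ht : ∀ x y : D, (∃ i, (y : ℤ × ℤ) = x + st i) → ∀ h : D → ℝ,
      1 - ε ≤ |h x - h y| → ψ x h = ψ y h)
    (hF : Continuous F) (hFd : Dep P F) {M v B δ : ℝ} (hM : 0 < M) (hv : 0 < v)
    (hFM : ∀ θ ∈ Icc (0 : ℝ) 1, ∀ h ∈ K D (bt b₀ b₁ θ), |F h| ≤ M)
    (hT : ∀ θ ∈ Icc (0 : ℝ) 1, ∃ T : (D → ℝ) → ℝ, Measurable T ∧ (∀ h, |T h| ≤ M) ∧ Dep P T ∧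
      (∀ θ' ∈ Icc (0 : ℝ) 1, ∫ h, T h * γ h ∂(Mu D (bt b₀ b₁ θ')) = 0) ∧
      ∫ h, (F h - (∫ h', F h' ∂(Mu D (bt b₀ b₁ θ))) - T h) ^ 2 ∂(Mu D (bt b₀ b₁ θ)) ≤ v)
    (hB : ∀ θ ∈ Icc (0 : ℝ) 1, ∫ h, Gd2 ψ h ∂(Mu D (bt b₀ b₁ θ)) ≤ B)
    (hδ : ∀ θ ∈ Icc (0 : ℝ) 1, ∫ h, Ga γ h ∂(Mu D (bt b₀ b₁ θ)) ≤ δ) :
    |∫ h, F h * γ h ∂(Mu D b₁) - ∫ h, F h * γ h ∂(Mu D b₀)| ≤
      2 * Real.sqrt (2 * v * B) + 4 * M * δ := by
  have hM16 : (0 : ℝ) < 16 * M ^ 2 + 1 := by positivity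
  obtain ⟨ρ, hρ0, hρ⟩ := tv_cont (D := D) h₀ h₁ (η := v / (16 * M ^ 2 + 1)) (by positivity)
  have hη : 9 * M ^ 2 * (v / (16 * M ^ 2 + 1)) ≤ v := by
    rw [mul_div_assoc', div_le_iff₀ hM16]
    nlinarith [mul_pos hv (pow_pos hM 2)]
  obtain ⟨N, hN⟩ := exists_nat_gt (1 / ρ)
  have hN0 : (0 : ℝ) < N := lt_trans (by positivity) hN
  have hN1 : 1 / (N : ℝ) ≤ ρ := by
    rw [div_le_iff₀ hN0]
    rw [div_lt_iff₀ hρ0] at hN
    linarith
  set L : ℝ := 2 * Real.sqrt (2 * v * B) + 4 * M * δ with hL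
  set Φ : ℝ → ℝ := fun θ => ∫ h, F h * γ h ∂(Mu D (bt b₀ b₁ θ)) with hΦ
  have hstep : ∀ k : ℕ, k ≤ N → |Φ ((k : ℝ) / N) - Φ 0| ≤ (k : ℝ) / N * L := by
    intro k
    induction k with
    | zero => intro _; simp
    | succ k ih =>
      intro hk1
      have h1 := ih (by omega)
      have hkN : ((k : ℝ) + 1) ≤ N := by exact_mod_cast hk1
      have e0 : (((k + 1 : ℕ) : ℝ)) / N - (k : ℝ) / N = 1 / N := by
        push_cast
        ring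
      have h2 := med_step h₀ h₁ hψ hγ hP hk hε ht hF hFd hM hFM hT hB hδ hη hρ
        (s := (k : ℝ) / N) (t := ((k + 1 : ℕ) : ℝ) / N) (by positivity)
        (by
          have : (0 : ℝ) ≤ 1 / N := by positivity
          linarith)
        (by
          rw [div_le_one hN0]
          push_cast
          exact hkN)
        (by
          rw [e0]
          exact hN1)
      rw [e0] at h2
      have h3 := abs_add_le (Φ (((k + 1 : ℕ) : ℝ) / N) - Φ ((k : ℝ) / N)) (Φ ((k : ℝ) / N) - Φ 0)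
      rw [sub_add_sub_cancel] at h3
      have h4 : (((k + 1 : ℕ) : ℝ)) / N * L = 1 / N * L + (k : ℝ) / N * L := by
        push_cast
        ring
      rw [h4]
      exact h3.trans (add_le_add h2 h1)
  have h5 := hstep N le_rfl
  rw [div_self hN0.ne', one_mul] at h5
  have e0 : bt b₀ b₁ 0 = b₀ := by
    funext z
    simp [bt]
  have e1 : bt b₀ b₁ 1 = b₁ := by
    funext z
    simp [bt]
  simp only [hΦ, e0, e1] at h5
  exact h5

/- END med -/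

/- MODULE mee
Duality: the form `B(f, v) = ∑_{x ∈ D} ∑_i (f_x - f_{x+st i})(v_x - v_{x+st i})` is positive definite
on the functions `v` vanishing off the finite set `D`; take `f` with `B(f, v) = ∑ a_x v_x` for all
such `v`.  Then `∑_x a_x h_x = B(f, g0 h) = Ln D b t h + c(b)` with `t(x,i) = f_x - f_{x+st i}`, and
`∑ t² = B(f,f) = 2 ∑ a f - B(f,f) ≤ H`.  Library: `var_main`, `var_of`. -/
private theorem mee_g0_add (D : Finset (ℤ × ℤ)) (f g : D → ℝ) (z : ℤ × ℤ) :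
    g0 D (f + g) z = g0 D f z + g0 D g z := by
  unfold g0 gl
  by_cases hz : z ∈ D <;> simp [hz]

private theorem mee_g0_smul (D : Finset (ℤ × ℤ)) (c : ℝ) (f : D → ℝ) (z : ℤ × ℤ) :
    g0 D (c • f) z = c * g0 D f z := by
  unfold g0 gl
  by_cases hz : z ∈ D <;> simp [hz]

private theorem mee_g0_off {D : Finset (ℤ × ℤ)} (f : D → ℝ) {z : ℤ × ℤ} (hz : z ∉ D) :
    g0 D f z = 0 := by
  unfold g0 gl
  simp [hz]

private theorem mee_g0_on {D : Finset (ℤ × ℤ)} (f : D → ℝ) (x : D) :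
    g0 D f x = f x := by
  unfold g0 gl
  simp

private def mee_A (D : Finset (ℤ × ℤ)) : (D → ℝ) →ₗ[ℝ] (D → ℝ) where
  toFun f := fun x => cf D (fun y i => g0 D f y - g0 D f (y + st i)) x
  map_add' f g := by
    funext x
    simp only [cf, Pi.add_apply, ← Finset.sum_add_distrib]
    refine Finset.sum_congr rfl fun y _ => Finset.sum_congr rfl fun i _ => ?_
    rw [mee_g0_add, mee_g0_add]
    ring
  map_smul' c f := by
    funext x
    simp only [cf, Pi.smul_apply, smul_eq_mul, Finset.mul_sum, RingHom.id_apply]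
    refine Finset.sum_congr rfl fun y _ => Finset.sum_congr rfl fun i _ => ?_
    rw [mee_g0_smul, mee_g0_smul]
    ring

private theorem mee_A_sum (D : Finset (ℤ × ℤ)) (f : D → ℝ) :
    ∑ x, mee_A D f x * f x = ∑ y ∈ D, ∑ i, (g0 D f y - g0 D f (y + st i)) ^ 2 := by
  have h := cf_sum D (fun y i => g0 D f y - g0 D f (y + st i)) f
  have e : ∀ x, mee_A D f x = cf D (fun y i => g0 D f y - g0 D f (y + st i)) x := fun x => rfl
  simp only [e]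
  rw [h]
  refine Finset.sum_congr rfl fun y _ => Finset.sum_congr rfl fun i _ => ?_
  ring

private theorem mee_zero {D : Finset (ℤ × ℤ)} {f : D → ℝ}
    (h : ∀ y ∈ D, ∀ i, g0 D f y = g0 D f (y + st i)) (z : D) : f z = 0 := by
  by_contra hz
  have h1 : ∀ n : ℕ, ((z : ℤ × ℤ) + n • st 0) ∈ D ∧ g0 D f ((z : ℤ × ℤ) + n • st 0) = f z := by
    intro n
    induction n with
    | zero =>
      simp only [zero_smul, add_zero]
      exact ⟨z.2, mee_g0_on f z⟩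
    | succ n ih =>
      have h2 : g0 D f ((z : ℤ × ℤ) + (n + 1) • st 0) = f z := by
        rw [succ_nsmul, ← add_assoc, ← h _ ih.1 0]
        exact ih.2
      refine ⟨?_, h2⟩
      by_contra h3
      rw [mee_g0_off f h3] at h2
      exact hz h2.symm
  have hinj : Function.Injective (fun n : ℕ => (⟨(z : ℤ × ℤ) + n • st 0, (h1 n).1⟩ : D)) := by
    intro m n hmn
    have h2 : (z : ℤ × ℤ) + m • st 0 = (z : ℤ × ℤ) + n • st 0 := congrArg Subtype.val hmn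
    have h3 := congrArg Prod.fst h2
    simp [st] at h3
    exact h3
  exact not_injective_infinite_finite _ hinj

private theorem mee_inj (D : Finset (ℤ × ℤ)) : Function.Injective (mee_A D) := by
  rw [injective_iff_map_eq_zero]
  intro f hf
  have h1 := mee_A_sum D f
  rw [hf] at h1
  simp only [Pi.zero_apply, zero_mul, Finset.sum_const_zero] at h1
  have h2 := (Finset.sum_eq_zero_iff_of_nonneg
    (fun y _ => Finset.sum_nonneg fun i _ => sq_nonneg _)).1 h1.symm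
  funext z
  refine mee_zero (fun y hy i => ?_) z
  have h3 := (Finset.sum_eq_zero_iff_of_nonneg (fun i _ => sq_nonneg _)).1 (h2 y hy) i
    (Finset.mem_univ i)
  exact sub_eq_zero.1 (pow_eq_zero_iff (two_ne_zero) |>.1 h3)

theorem var_dual : ∃ C : ℝ, 0 ≤ C ∧ ∀ (D : Finset (ℤ × ℤ)) (b : ℤ × ℤ → ℝ),
    (∀ z, |b z| ≤ 1 / 2) → ∀ (a : ℤ × ℤ → ℝ) (H : ℝ),
    (∀ v : ℤ × ℤ → ℝ, (∀ z, z ∉ D → v z = 0) →
      2 * (∑ x ∈ D, a x * v x) - ∑ x ∈ D, ∑ i, (v x - v (x + st i)) ^ 2 ≤ H) →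
    ∫ h, (∑ x : D, a x * h x - ∫ k, ∑ x : D, a x * k x ∂(Mu D b)) ^ 2 ∂(Mu D b) ≤ C * H := by
  obtain ⟨C, hC, hvar⟩ := var_main
  refine ⟨C, hC, ?_⟩
  intro D b hb a H hH
  obtain ⟨f, hf⟩ := (LinearMap.injective_iff_surjective (f := mee_A D)).1 (mee_inj D)
    (fun x => a x)
  set t : ℤ × ℤ → Fin 6 → ℝ := fun y i => g0 D f y - g0 D f (y + st i) with ht
  have hft : ∀ x : D, cf D t x = a x := fun x => congrFun hf x
  have hX : ∀ h : D → ℝ, ∑ x : D, a x * h x = Ln D b t h + (- Ln D b t (fun _ => 0)) := by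
    intro h
    rw [Ln_cf D b t h]
    simp only [hft]
    ring
  have h1 := var_of hvar hb (t := t) (X := fun h => ∑ x : D, a x * h x) hX
  have hmeas : Continuous (fun h : D → ℝ => ∑ x : D, a x * h x) := by fun_prop
  rw [ProbabilityTheory.variance_eq_integral hmeas.aemeasurable] at h1
  refine le_trans h1 (mul_le_mul_of_nonneg_left ?_ hC)
  have h2 := hH (g0 D f) (fun z hz => mee_g0_off f hz)
  have h3 : ∑ x ∈ D, a x * g0 D f x = ∑ x ∈ D, ∑ i, (t x i) ^ 2 := by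
    rw [← mee_A_sum D f, hf, ← Finset.sum_coe_sort]
    refine Finset.sum_congr rfl fun x _ => ?_
    rw [mee_g0_on]
  rw [h3] at h2
  linarith

/- END mee -/

end Pool.Agent.Hmk.Mn
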