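import Pool.Agent.Hmk.CnB

import Pool.Agent.Hmk.MnHd

/-!
# Hmk, second part: the continuum (helper70), boundary values and the harmonic function
-/

set_option autoImplicit false

open MeasureTheory Set Filter

open scoped ENNReal ContDiff Topology

noncomputable section

namespace Pool.Agent.Hmk.Cn

open Pool.Agent.Hmk.Mn

/- MODULE mha
Variances: `var_dual` with `a x = √3/2 δ² φ(lat δ x)` and `dual_disc`. -/
theorem var_XF : ∃ C : ℝ, 0 < C ∧ ∀ Ω : Set ℂ, IsOpen Ω → Bornology.IsBounded Ω →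
    ∀ φ : ℂ → ℝ, CSC Ω φ → ∀ ε : ℝ, 0 < ε → ∃ δ₀ : ℝ, 0 < δ₀ ∧ ∀ δ : ℝ, 0 < δ → δ < δ₀ →
    ∀ D : Finset (ℤ × ℤ), (∀ x ∈ D, Metric.closedBall (lat δ x) (7 / 10 * δ) ⊆ Ω) →
    ∀ b : ℤ × ℤ → ℝ, (∀ z, |b z| ≤ 1 / 2) →
      ∫ h, (XF D δ φ h - ∫ k, XF D δ φ k ∂(Mu D b)) ^ 2 ∂(Mu D b) ≤ C * GE Ω φ + ε := by
  obtain ⟨C1, hC1, h1⟩ := var_dual
  obtain ⟨C2, hC2, h2⟩ := dual_disc
  refine ⟨C1 * C2 + 1, by positivity, fun Ω hΩ hb φ hφ ε hε => ?_⟩
  obtain ⟨δ₀, hδ₀, h3⟩ := h2 Ω hΩ hb φ hφ (ε / (C1 + 1)) (by positivity)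
  refine ⟨δ₀, hδ₀, fun δ hδ hδ' D hD b hb' => ?_⟩
  have h4 := h1 D b hb' (fun x => Real.sqrt 3 / 2 * δ ^ 2 * φ (lat δ x))
    (C2 * GE Ω φ + ε / (C1 + 1)) (h3 δ hδ hδ' D hD)
  have e : XF D δ φ = fun h => ∑ x : D, (Real.sqrt 3 / 2 * δ ^ 2 * φ (lat δ x)) * h x := by
    funext h
    unfold XF
    rw [Finset.mul_sum]
    refine Finset.sum_congr rfl fun x _ => ?_
    ring
  rw [e]
  refine h4.trans ?_
  have hG : 0 ≤ GE Ω φ := GE_nonneg hb hφ
  have h5 : C1 * (ε / (C1 + 1)) ≤ ε := by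
    rw [mul_div_assoc', div_le_iff₀ (by linarith)]
    nlinarith
  calc C1 * (C2 * GE Ω φ + ε / (C1 + 1)) = C1 * C2 * GE Ω φ + C1 * (ε / (C1 + 1)) := by ring
    _ ≤ (C1 * C2 + 1) * GE Ω φ + ε := by linarith

/-- variance of sums with small coefficients (library: third part of the landed theorem, `sector`,
`right_flow`, or `var_dual` and `poincare_disc`-like bounds): if `|a| ≤ e δ²` and `D` is in the ball of
radius `R` then the variance is at most `C_R e²`. -/
theorem var_small {R : ℝ} (hR : 0 < R) : ∃ C : ℝ, 0 < C ∧ ∀ (δ : ℝ), 0 < δ → δ ≤ R →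
    ∀ (D : Finset (ℤ × ℤ)), (∀ x ∈ D, ‖lat δ x‖ ≤ R) → ∀ b : ℤ × ℤ → ℝ, (∀ z, |b z| ≤ 1 / 2) →
    ∀ (a : ℤ × ℤ → ℝ) (e : ℝ), (∀ x, |a x| ≤ e * δ ^ 2) →
      ∫ h, (∑ x : D, a x * h x - ∫ k, ∑ x : D, a x * k x ∂(Mu D b)) ^ 2 ∂(Mu D b) ≤
        C * e ^ 2 := by
  obtain ⟨C1, hC1, h1⟩ := var_dual
  obtain ⟨C2, hC2, h2⟩ := poincare_disc hR
  refine ⟨C1 * C2 ^ 2 + 1, by positivity, fun δ hδ hδR D hD b hb a e ha => ?_⟩
  have h4 := h1 D b hb a (e ^ 2 * C2 ^ 2) ?_
  · refine h4.trans ?_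
    nlinarith [sq_nonneg e]
  · intro v hv
    have h5 := h2 δ hδ hδR D hD v hv
    have hE : 0 ≤ ∑ x ∈ D, ∑ i, (v x - v (x + st i)) ^ 2 :=
      Finset.sum_nonneg fun x _ => Finset.sum_nonneg fun i _ => sq_nonneg _
    set E := ∑ x ∈ D, ∑ i, (v x - v (x + st i)) ^ 2 with hEdef
    have he : 0 ≤ e * δ ^ 2 := (abs_nonneg _).trans (ha 0)
    have hδ2 : 0 < δ ^ 2 := by positivity
    have he0 : 0 ≤ e := by
      by_contra hcon
      push Not at hcon
      nlinarith
    have h6 : ∑ x ∈ D, a x * v x ≤ e * (δ ^ 2 * ∑ x ∈ D, |v x|) := by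
      rw [← mul_assoc, Finset.mul_sum]
      refine Finset.sum_le_sum fun x _ => ?_
      calc a x * v x ≤ |a x * v x| := le_abs_self _
        _ = |a x| * |v x| := abs_mul _ _
        _ ≤ e * δ ^ 2 * |v x| := mul_le_mul_of_nonneg_right (ha x) (abs_nonneg _)
    have h7 : e * (δ ^ 2 * ∑ x ∈ D, |v x|) ≤ e * (C2 * Real.sqrt E) :=
      mul_le_mul_of_nonneg_left h5 he0
    nlinarith [sq_nonneg (e * C2 - Real.sqrt E), Real.sq_sqrt hE]

/- END mha -/

/- MODULE mhb
Means: `∫ XF = √3/2 δ² ∑ φ(lat δ x) mh x` (`gl_memLp`), `|mh| ≤ 1/2` (`mean_le`); constant boundary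
data `c`: the reflection `h ↦ 2c - h` preserves `K D (fun _ => c)`, so the mean is `c`. -/
theorem mean_XF {D : Finset (ℤ × ℤ)} {b : ℤ × ℤ → ℝ} (hb : ∀ z, |b z| ≤ 1 / 2) (δ : ℝ)
    (φ : ℂ → ℝ) : ∫ h, XF D δ φ h ∂(Mu D b) =
      Real.sqrt 3 / 2 * δ ^ 2 * ∑ x ∈ D, φ (lat δ x) * mh D b x := by
  have hi : ∀ x ∈ (Finset.univ : Finset D),
      Integrable (fun h : D → ℝ => φ (lat δ x) * h x) (Mu D b) := by
    intro x _
    haveI := prob (D := D) hb
    have h1 : Integrable (fun h : D → ℝ => gl D b h x.1) (Mu D b) :=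
      (gl_memLp (D := D) hb x.1).integrable (by norm_num)
    have e : (fun h : D → ℝ => gl D b h x.1) = fun h => h x := by
      funext h
      rw [gl_mem x.2]
    rw [e] at h1
    exact h1.const_mul _
  unfold XF
  rw [integral_const_mul, integral_finsetSum _ hi]
  congr 1
  rw [← Finset.sum_coe_sort D (fun x => φ (lat δ x) * mh D b x)]
  refine Finset.sum_congr rfl fun x _ => ?_
  rw [integral_const_mul]
  congr 1
  unfold mh
  refine integral_congr_ae (ae_of_all _ fun h => ?_)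
  simp only
  rw [gl_mem x.2]

theorem mh_abs {D : Finset (ℤ × ℤ)} {b : ℤ × ℤ → ℝ} (hb : ∀ z, |b z| ≤ 1 / 2) (x : ℤ × ℤ) :
    |mh D b x| ≤ 1 / 2 := by
  unfold mh Mu
  exact mean_le hb x

theorem mh_const {D : Finset (ℤ × ℤ)} {c : ℝ} (hc : |c| ≤ 1 / 2) (x : ℤ × ℤ) :
    mh D (fun _ => c) x = c := by
  have hb : ∀ z : ℤ × ℤ, |(fun _ : ℤ × ℤ => c) z| ≤ 1 / 2 := fun _ => hc
  haveI := prob (D := D) hb
  unfold mh
  by_cases hx : x ∈ D
  · have hfin : volume (K D fun _ => c) ≠ ⊤ := (Z_lt_top D _).ne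
    have hZ1 : (1 : ℝ≥0∞) ≤ Z D (fun _ => c) := Z_one_le (fun z _ _ => hb z)
    have hZ : (1 : ℝ) ≤ (volume (K D fun _ => c)).toReal := by
      have := ENNReal.toReal_mono hfin hZ1
      simpa using this
    have hK : ∀ h : D → ℝ, (fun _ => 2 * c) - h ∈ K D (fun _ => c) ↔ h ∈ K D (fun _ => c) := by
      have hg : ∀ (h : D → ℝ) (z : ℤ × ℤ), gl D (fun _ => c) ((fun _ => 2 * c) - h) z =
          2 * c - gl D (fun _ => c) h z := by
        intro h z
        unfold gl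
        by_cases hz : z ∈ D
        · rw [dif_pos hz, dif_pos hz]
          rfl
        · rw [dif_neg hz, dif_neg hz]
          ring
      intro h
      constructor
      · intro hh y hy i
        have h1 := hh y hy i
        rw [hg, hg, ← abs_neg] at h1
        convert h1 using 2
        ring
      · intro hh y hy i
        have h1 := hh y hy i
        rw [hg, hg, ← abs_neg]
        convert h1 using 2
        ring
    have h1 := integral_sub_left_eq_self (μ := (volume : Measure (D → ℝ)))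
      (fun h => (K D fun _ => c).indicator (fun h : D → ℝ => h ⟨x, hx⟩) h) (fun _ => 2 * c)
    have h2 : (fun h : D → ℝ => (K D fun _ => c).indicator (fun h : D → ℝ => h ⟨x, hx⟩)
        ((fun _ => 2 * c) - h)) =
        (K D fun _ => c).indicator (fun h : D → ℝ => 2 * c - h ⟨x, hx⟩) := by
      funext h
      by_cases hh : h ∈ K D fun _ => c
      · rw [Set.indicator_of_mem hh, Set.indicator_of_mem ((hK h).2 hh)]
        rfl
      · rw [Set.indicator_of_notMem hh, Set.indicator_of_notMem fun h' => hh ((hK h).1 h')]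
    have hcoord : IntegrableOn (fun h : D → ℝ => h ⟨x, hx⟩) (K D fun _ => c) := by
      refine Measure.integrableOn_of_bounded (M := 1 / 2 + D.card) hfin
        (measurable_pi_apply _).aestronglyMeasurable ?_
      filter_upwards [ae_restrict_mem (K_meas D fun _ => c)] with h hh
      exact K_bdd (by norm_num) (fun z _ _ => hb z) hh ⟨x, hx⟩
    rw [h2] at h1
    have h3 : ∫ h in K D fun _ => c, (2 * c - h ⟨x, hx⟩) = ∫ h in K D fun _ => c, h ⟨x, hx⟩ := by
      rw [← integral_indicator (K_meas D fun _ => c), ← integral_indicator (K_meas D fun _ => c)]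
      exact h1
    have hconst : IntegrableOn (fun _ : D → ℝ => 2 * c) (K D fun _ => c) := integrableOn_const hfin
    rw [integral_sub hconst hcoord, setIntegral_const, smul_eq_mul] at h3
    have h4 : ∫ h in K D fun _ => c, h ⟨x, hx⟩ = c * (volume (K D fun _ => c)).toReal := by
      have e : volume.real (K D fun _ => c) = (volume (K D fun _ => c)).toReal := rfl
      rw [e] at h3
      linarith
    simp only [gl_mem hx]
    unfold Mu ProbabilityTheory.cond
    rw [integral_smul_measure, h4, ENNReal.toReal_inv, smul_eq_mul]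
    field_simp
  · simp only [gl_not_mem hx]
    unfold Mu
    rw [integral_const, probReal_univ, one_smul]

/- END mhb -/

/- MODULE mhc
A smooth convex function `θ : ℝ → ℝ`: `θ r = 0` for `r ≤ e`, `0 ≤ θ' ≤ 1`, `θ'` nondecreasing,
`r - 2 e ≤ θ r` and `0 ≤ θ r ≤ max r 0` (`θ' = Real.smoothTransition ((r - e) / e)`). -/
private theorem mhc_g (e : ℝ) : ContDiff ℝ ∞ (fun r : ℝ =>
    Real.smoothTransition ((r - e) / e)) :=
  Real.smoothTransition.contDiff.comp ((contDiff_id.sub contDiff_const).div_const e)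

theorem exists_theta {e : ℝ} (he : 0 < e) : ∃ θ : ℝ → ℝ, ContDiff ℝ ∞ θ ∧ (∀ r, r ≤ e → θ r = 0) ∧
    (∀ r, 0 ≤ deriv θ r ∧ deriv θ r ≤ 1) ∧ Monotone (deriv θ) ∧ (∀ r, r - 2 * e ≤ θ r) ∧
    (∀ r, 0 ≤ θ r ∧ θ r ≤ max r 0) := by
  obtain ⟨g, hg⟩ : ∃ g : ℝ → ℝ, g = fun r : ℝ => Real.smoothTransition ((r - e) / e) := ⟨_, rfl⟩
  have hgs : ContDiff ℝ ∞ g := by
    rw [hg]
    exact mhc_g e
  have hgc : Continuous g := hgs.continuous
  have hg0 : ∀ r, 0 ≤ g r := fun r => by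
    rw [hg]
    exact Real.smoothTransition.nonneg _
  have hg1 : ∀ r, g r ≤ 1 := fun r => by
    rw [hg]
    exact Real.smoothTransition.le_one _
  have hgz : ∀ r, r ≤ e → g r = 0 := by
    intro r hr
    rw [hg]
    exact Real.smoothTransition.zero_of_nonpos (div_nonpos_of_nonpos_of_nonneg (by linarith) he.le)
  have hgo : ∀ r, 2 * e ≤ r → g r = 1 := by
    intro r hr
    rw [hg]
    refine Real.smoothTransition.one_of_one_le ?_
    rw [le_div_iff₀ he]
    linarith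
  have hgm : Monotone g := by
    rw [hg]
    intro a b hab
    exact Real.smoothTransition.monotone (div_le_div_of_nonneg_right (by linarith) he.le)
  obtain ⟨θ, hθ⟩ : ∃ θ : ℝ → ℝ, θ = fun r => ∫ t in (0 : ℝ)..r, g t := ⟨_, rfl⟩
  have hd : ∀ r, HasDerivAt θ (g r) r := by
    intro r
    rw [hθ]
    exact intervalIntegral.integral_hasDerivAt_right (hgc.intervalIntegrable _ _)
      (hgc.stronglyMeasurableAtFilter _ _) hgc.continuousAt
  have hdf : Differentiable ℝ θ := fun r => (hd r).differentiableAt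
  have hde : deriv θ = g := funext fun r => (hd r).deriv
  have hmono : Monotone θ := monotone_of_deriv_nonneg hdf fun r => by
    rw [hde]
    exact hg0 r
  have h00 : θ 0 = 0 := by
    rw [hθ]
    simp
  have hz : ∀ r, r ≤ e → θ r = 0 := by
    intro r hr
    rw [hθ]
    simp only
    rw [intervalIntegral.integral_congr (g := fun _ => (0 : ℝ))]
    · simp
    · intro t ht
      apply hgz
      rcases le_total 0 r with h | h
      · rw [uIcc_of_le h] at ht
        exact ht.2.trans hr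
      · rw [uIcc_of_ge h] at ht
        exact ht.2.trans he.le
  have hnn : ∀ r, 0 ≤ θ r := by
    intro r
    rcases le_total r e with h | h
    · rw [hz r h]
    · rw [← hz e le_rfl]
      exact hmono h
  have hle : Monotone fun r => r - θ r := by
    refine monotone_of_deriv_nonneg (differentiable_id.sub hdf) fun r => ?_
    have : deriv (fun r => r - θ r) r = 1 - g r := ((hasDerivAt_id r).sub (hd r)).deriv
    rw [this]
    linarith [hg1 r]
  refine ⟨θ, ?_, hz, ?_, ?_, ?_, ?_⟩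
  · rw [contDiff_infty_iff_deriv, hde]
    exact ⟨hdf, hgs⟩
  · intro r
    rw [hde]
    exact ⟨hg0 r, hg1 r⟩
  · rw [hde]
    exact hgm
  · intro r
    rcases le_total r (2 * e) with h | h
    · linarith [hnn r]
    · have h1 : θ r = θ (2 * e) + (r - 2 * e) := by
        have h2 : θ r - θ (2 * e) = ∫ t in (2 * e)..r, g t := by
          rw [hθ]
          exact intervalIntegral.integral_interval_sub_left (hgc.intervalIntegrable _ _)
            (hgc.intervalIntegrable _ _)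
        have h3 : ∫ t in (2 * e)..r, g t = r - 2 * e := by
          rw [intervalIntegral.integral_congr (g := fun _ => (1 : ℝ))]
          · simp
          · intro t ht
            rw [uIcc_of_le h] at ht
            exact hgo t ht.1
        linarith
      linarith [hnn (2 * e)]
  · intro r
    refine ⟨hnn r, ?_⟩
    rcases le_total r 0 with h | h
    · rw [hz r (h.trans he.le)]
      exact le_max_right _ _
    · refine le_trans ?_ (le_max_left _ _)
      have h1 := hle h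
      simp only at h1
      rw [h00] at h1
      linarith

/- END mhc -/

/- MODULE mhd
The compactly supported function `g = Z θ(w)`, `w` smooth on `Ω`, `w → 0` at the boundary points of
`A ⊆ frontier Ω`, `Z` smooth on `ℂ`, zero near the rest of the boundary: `g` (extended by `0` off `Ω`) is
in `CSC Ω`: the set `{z ∈ Ω : |Z z| θ(w z) ≠ 0}` has compact closure inside `Ω` (each boundary point has
a neighbourhood in which `Z = 0` or `w < e`; `Ω` bounded, `frontier Ω` compact). -/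
theorem csc_cut {Ω : Set ℂ} (hΩ : IsOpen Ω) (hb : Bornology.IsBounded Ω) {w Z : ℂ → ℝ}
    (hw : ContDiffOn ℝ ∞ w Ω) (hZ : ContDiff ℝ ∞ Z)
    (hbd : ∀ ζ ∈ frontier Ω, (∀ᶠ z in 𝓝 ζ, Z z = 0) ∨ Tendsto w (𝓝[Ω] ζ) (𝓝 0))
    {e : ℝ} (he : 0 < e) {θ : ℝ → ℝ} (hθ : ContDiff ℝ ∞ θ) (hθ0 : ∀ r, r ≤ e → θ r = 0) :
    CSC Ω (Ω.indicator (fun z => Z z * θ (w z))) := by
  have hout : ∀ ζ, ζ ∉ Ω → Ω.indicator (fun z => Z z * θ (w z)) =ᶠ[𝓝 ζ] 0 := by
    intro ζ hζ
    by_cases hc : ζ ∈ closure Ω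
    · have hf : ζ ∈ frontier Ω := by
        rw [hΩ.frontier_eq]
        exact ⟨hc, hζ⟩
      rcases hbd ζ hf with h | h
      · filter_upwards [h] with z hz
        by_cases hzΩ : z ∈ Ω
        · rw [Set.indicator_of_mem hzΩ, hz, zero_mul, Pi.zero_apply]
        · rw [Set.indicator_of_notMem hzΩ, Pi.zero_apply]
      · have h1 : ∀ᶠ z in 𝓝[Ω] ζ, w z < e := h.eventually (gt_mem_nhds he)
        rw [eventually_nhdsWithin_iff] at h1
        filter_upwards [h1] with z hz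
        by_cases hzΩ : z ∈ Ω
        · rw [Set.indicator_of_mem hzΩ, hθ0 _ (hz hzΩ).le, mul_zero, Pi.zero_apply]
        · rw [Set.indicator_of_notMem hzΩ, Pi.zero_apply]
    · have h1 : (closure Ω)ᶜ ∈ 𝓝 ζ := isClosed_closure.isOpen_compl.mem_nhds hc
      filter_upwards [h1] with z hz
      rw [Set.indicator_of_notMem fun h => hz (subset_closure h), Pi.zero_apply]
  have hsub : tsupport (Ω.indicator (fun z => Z z * θ (w z))) ⊆ Ω := by
    intro ζ hζ
    by_contra h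
    exact (notMem_tsupport_iff_eventuallyEq.2 (hout ζ h)) hζ
  refine ⟨?_, ?_, hsub⟩
  · rw [contDiff_iff_contDiffAt]
    intro z
    by_cases hz : z ∈ Ω
    · have h1 : ContDiffAt ℝ ∞ (fun z => Z z * θ (w z)) z :=
        hZ.contDiffAt.mul (hθ.contDiffAt.comp z (hw.contDiffAt (hΩ.mem_nhds hz)))
      refine h1.congr_of_eventuallyEq ?_
      filter_upwards [hΩ.mem_nhds hz] with y hy
      rw [Set.indicator_of_mem hy]
    · exact (contDiffAt_const (c := (0 : ℝ))).congr_of_eventuallyEq (hout z hz)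
  · exact Metric.isCompact_of_isClosed_isBounded (isClosed_tsupport _) (hb.subset hsub)

/- END mhd -/

/- MODULE mhe
Caccioppoli in the continuum.  `w` harmonic on `Ω`, `0 ≤ w ≤ 2`, `Z` smooth with `|∇Z| ≤ L`.  Test
function `Z² Θ(w)`, `Θ(r) = ∫_0^r θ'²` (also in `CSC Ω` by `csc_cut`):
`0 = ∫ ∇w·∇(Z² Θ(w)) = ∫ Z² θ'² |∇w|² + 2 ∫ Z Θ(w) ∇w·∇Z`, and `0 ≤ Θ(w) ≤ w θ'(w)²` (`θ'` is
nondecreasing), so `∫ Z² θ'² |∇w|² ≤ 4 ∫ w² θ'² |∇Z|² ≤ 16 ∫_Ω |∇Z|²`, and
`dirE (Z θ(w)) ≤ 2 ∫ Z² θ'² |∇w|² + 2 ∫ θ(w)² |∇Z|² ≤ 40 ∫_Ω |∇Z|²`. -/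
private theorem mhe_sm {Ω : Set ℂ} {w : ℂ → ℝ}
    (hw : InnerProductSpace.HarmonicOnNhd w Ω) : ContDiffOn ℝ ∞ w Ω := fun z hz =>
  ((HarmonicAt.analyticAt (hw z hz)).contDiffAt).contDiffWithinAt

private theorem mhe_lap {w W : ℂ → ℝ} {z : ℂ} (hw : InnerProductSpace.HarmonicAt w z)
    (hW : W =ᶠ[𝓝 z] w) : lap W z = 0 := by
  have h1 : DifferentiableAt ℝ (fderiv ℝ w) z :=
    (hw.1.fderiv_right (m := 1) (by norm_num)).differentiableAt (by norm_num)
  have h2 : ∀ v : ℂ, fderiv ℝ (fun u => fderiv ℝ W u v) z v = fderiv ℝ (fderiv ℝ w) z v v := by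
    intro v
    have h3 : (fun u => fderiv ℝ W u v) =ᶠ[𝓝 z] fun u => fderiv ℝ w u v := by
      filter_upwards [hW.fderiv (𝕜 := ℝ)] with u hu
      rw [hu]
    rw [h3.fderiv_eq]
    have h4 := h1.hasFDerivAt.clm_apply (hasFDerivAt_const v z)
    rw [h4.fderiv]
    simp
  have h5 := hw.2.self_of_nhds
  rw [InnerProductSpace.laplacian_eq_iteratedFDeriv_complexPlane] at h5
  simp only [iteratedFDeriv_two_apply, Matrix.cons_val_zero, Matrix.cons_val_one,
    Pi.zero_apply] at h5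
  unfold lap
  rw [h2, h2]
  exact h5

private theorem mhe_fd {Ω : Set ℂ} (hΩ : IsOpen Ω) {Z w : ℂ → ℝ} {F : ℝ → ℝ} {z : ℂ} (hz : z ∈ Ω)
    (hZ : DifferentiableAt ℝ Z z) (hw : DifferentiableAt ℝ w z)
    (hF : DifferentiableAt ℝ F (w z)) (v : ℂ) :
    fderiv ℝ (Ω.indicator (fun z => Z z * F (w z))) z v =
      fderiv ℝ Z z v * F (w z) + Z z * (deriv F (w z) * fderiv ℝ w z v) := by
  have h1 : Ω.indicator (fun z => Z z * F (w z)) =ᶠ[𝓝 z] fun z => Z z * F (w z) := by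
    filter_upwards [hΩ.mem_nhds hz] with y hy
    rw [Set.indicator_of_mem hy]
  rw [h1.fderiv_eq]
  have h2 : HasFDerivAt (fun z => F (w z)) (deriv F (w z) • fderiv ℝ w z) z :=
    hF.hasDerivAt.comp_hasFDerivAt z hw.hasFDerivAt
  have h3 := hZ.hasFDerivAt.mul h2
  have h4 : HasFDerivAt (fun z => Z z * F (w z))
      (Z z • (deriv F (w z) • fderiv ℝ w z) + F (w z) • fderiv ℝ Z z) z := h3
  rw [h4.fderiv]
  simp
  ring

private theorem mhe_prim {θ : ℝ → ℝ} (hθ : ContDiff ℝ ∞ θ) {e : ℝ} (hθ0 : ∀ r, r ≤ e → θ r = 0)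
    (hθ1 : ∀ r, 0 ≤ deriv θ r ∧ deriv θ r ≤ 1) (hθ2 : Monotone (deriv θ)) (he : 0 < e) :
    ∃ Θ : ℝ → ℝ, ContDiff ℝ ∞ Θ ∧ (∀ r, deriv Θ r = deriv θ r ^ 2) ∧ (∀ r, r ≤ e → Θ r = 0) ∧
      (∀ r, 0 ≤ r → 0 ≤ Θ r) ∧ (∀ r, 0 ≤ r → Θ r ≤ r * deriv θ r ^ 2) := by
  have hdc : ContDiff ℝ ∞ (deriv θ) := (contDiff_infty_iff_deriv.1 hθ).2
  have hc : Continuous fun t => deriv θ t ^ 2 := hdc.continuous.pow 2
  have hz : ∀ t ≤ e, deriv θ t = 0 := by
    have h1 : Set.EqOn (deriv θ) (fun _ => 0) (Set.Iio e) := by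
      intro t ht
      have h2 : θ =ᶠ[𝓝 t] fun _ => 0 := by
        filter_upwards [isOpen_Iio.mem_nhds ht] with y hy
        exact hθ0 y (le_of_lt hy)
      rw [h2.deriv_eq]
      simp
    have h3 := h1.closure hdc.continuous continuous_const
    rw [closure_Iio] at h3
    exact fun t ht => h3 ht
  refine ⟨fun r => ∫ t in (0 : ℝ)..r, deriv θ t ^ 2, ?_, ?_, ?_, ?_, ?_⟩
  · have hd : ∀ r, HasDerivAt (fun r => ∫ t in (0 : ℝ)..r, deriv θ t ^ 2) (deriv θ r ^ 2) r :=
      fun r => intervalIntegral.integral_hasDerivAt_right (hc.intervalIntegrable _ _)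
        (hc.stronglyMeasurableAtFilter _ _) hc.continuousAt
    rw [contDiff_infty_iff_deriv]
    refine ⟨fun r => (hd r).differentiableAt, ?_⟩
    have e1 : deriv (fun r => ∫ t in (0 : ℝ)..r, deriv θ t ^ 2) = fun r => deriv θ r ^ 2 :=
      funext fun r => (hd r).deriv
    rw [e1]
    exact hdc.pow 2
  · intro r
    exact (intervalIntegral.integral_hasDerivAt_right (hc.intervalIntegrable _ _)
        (hc.stronglyMeasurableAtFilter _ _) hc.continuousAt).deriv
  · intro r hr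
    have h1 : ∫ t in (0 : ℝ)..r, deriv θ t ^ 2 = ∫ t in (0 : ℝ)..r, (0 : ℝ) := by
      refine intervalIntegral.integral_congr fun t ht => ?_
      have h2 : t ≤ e := by
        have := ht.2
        exact this.trans (max_le he.le hr)
      simp only [hz t h2]
      norm_num
    show (∫ t in (0 : ℝ)..r, deriv θ t ^ 2) = 0
    rw [h1]
    simp
  · intro r hr
    exact intervalIntegral.integral_nonneg hr fun t _ => sq_nonneg _
  · intro r hr
    have h1 : ∫ t in (0 : ℝ)..r, deriv θ t ^ 2 ≤ ∫ t in (0 : ℝ)..r, deriv θ r ^ 2 := by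
      refine intervalIntegral.integral_mono_on hr (hc.intervalIntegrable _ _)
        (continuous_const.intervalIntegrable _ _) fun t ht => ?_
      exact pow_le_pow_left₀ (hθ1 t).1 (hθ2 ht.2) 2
    rw [intervalIntegral.integral_const, smul_eq_mul, sub_zero] at h1
    exact h1

private theorem mhe_ext {Ω : Set ℂ} (hΩ : IsOpen Ω) {w : ℂ → ℝ} (hw : ContDiffOn ℝ ∞ w Ω)
    {k : ℂ → ℝ} (hk : HasCompactSupport k) (hs : tsupport k ⊆ Ω) :
    ∃ W : ℂ → ℝ, ContDiff ℝ ∞ W ∧ ∀ z ∈ tsupport k, W =ᶠ[𝓝 z] w := by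
  obtain ⟨L, hL, hL1, hL2⟩ := exists_compact_between hk hΩ hs
  obtain ⟨f, hf1, hf2, -⟩ := exists_contMDiffMap_one_nhds_of_subset_interior
    (n := (⊤ : ℕ∞)) (modelWithCornersSelf ℝ ℂ) (isClosed_tsupport k) hL1
  refine ⟨fun z => f z * w z, ?_, ?_⟩
  · rw [contDiff_iff_contDiffAt]
    intro z
    by_cases hz : z ∈ Ω
    · exact (f.contMDiff.contDiff.contDiffAt).mul (hw.contDiffAt (hΩ.mem_nhds hz))
    · have h1 : (fun z => f z * w z) =ᶠ[𝓝 z] fun _ => 0 := by
        filter_upwards [hL.isClosed.isOpen_compl.mem_nhds fun h => hz (hL2 h)] with y hy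
        rw [hf2 y hy, zero_mul]
      exact contDiffAt_const.congr_of_eventuallyEq h1
  · intro z hz
    have h1 : ∀ᶠ y in 𝓝 z, f y = 1 := by
      have := Filter.Eventually.filter_mono (nhds_le_nhdsSet hz) hf1
      exact this
    filter_upwards [h1] with y hy
    rw [hy, one_mul]

private theorem mhe_alg (ζ p T Q : ℝ) (hp0 : 0 ≤ p) (hp1 : p ≤ 1) (hT : |T| ≤ 2) (hQ0 : 0 ≤ Q)
    (hQ : Q ≤ 2 * p ^ 2) (a b : ℝ) :
    (b * T + ζ * (p * a)) ^ 2 ≤
      4 * (a * ((2 * ζ * b) * Q + ζ ^ 2 * (p ^ 2 * a))) + 40 * b ^ 2 := by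
  have hT2 : T ^ 2 ≤ 4 := by
    have := abs_le.1 hT
    nlinarith [this.1, this.2]
  have h1 : (b * T + ζ * (p * a)) ^ 2 ≤ 8 * b ^ 2 + 2 * (ζ * (p * a)) ^ 2 := by
    nlinarith [sq_nonneg (b * T - ζ * (p * a)), mul_nonneg (sq_nonneg b) (sub_nonneg.2 hT2)]
  have h2 : |8 * (ζ * a * b) * Q| ≤ 2 * (ζ * (p * a)) ^ 2 + 32 * b ^ 2 := by
    rw [abs_mul, abs_mul, abs_of_nonneg hQ0, abs_of_nonneg (by norm_num : (0 : ℝ) ≤ 8)]
    have h3 : 8 * |ζ * a * b| * Q ≤ 8 * |ζ * a * b| * (2 * p ^ 2) :=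
      mul_le_mul_of_nonneg_left hQ (by positivity)
    have h4 : |ζ * a * b| * p = |ζ * (p * a)| * |b| := by
      have e : ζ * a * b * p = ζ * (p * a) * b := by ring
      rw [← abs_mul, ← e, abs_mul (ζ * a * b) p, abs_of_nonneg hp0]
    have h5 : |ζ * a * b| * p ^ 2 ≤ |ζ * (p * a)| * |b| := by
      rw [← h4]
      have : 0 ≤ |ζ * a * b| * p := mul_nonneg (abs_nonneg _) hp0
      nlinarith
    have h6 : 16 * (|ζ * (p * a)| * |b|) ≤ 2 * (ζ * (p * a)) ^ 2 + 32 * b ^ 2 := by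
      nlinarith [sq_nonneg (|ζ * (p * a)| - 4 * |b|), sq_abs (ζ * (p * a)), sq_abs b]
    nlinarith
  have h7 := (abs_le.1 h2).1
  have e : 4 * (a * ((2 * ζ * b) * Q + ζ ^ 2 * (p ^ 2 * a))) =
      8 * (ζ * a * b) * Q + 4 * (ζ * (p * a)) ^ 2 := by ring
  rw [e]
  nlinarith [sq_nonneg (ζ * (p * a)), sq_nonneg b]

private theorem mhe_gsq {g : ℂ → ℝ} (hg : ContDiff ℝ ∞ g) (hc : HasCompactSupport g) :
    Integrable (gsq g) :=
  int_cs (sm_gsq hg).continuous (hc.mono' ((subset_tsupport _).trans (tsupport_gsq g)))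

theorem cacc_cont {Ω : Set ℂ} (hΩ : IsOpen Ω) (hb : Bornology.IsBounded Ω) {w Z : ℂ → ℝ}
    (hw : InnerProductSpace.HarmonicOnNhd w Ω) (hw2 : ∀ z ∈ Ω, 0 ≤ w z ∧ w z ≤ 2)
    (hZ : ContDiff ℝ ∞ Z) (hZc : HasCompactSupport Z)
    (hbd : ∀ ζ ∈ frontier Ω, (∀ᶠ z in 𝓝 ζ, Z z = 0) ∨ Tendsto w (𝓝[Ω] ζ) (𝓝 0))
    {e : ℝ} (he : 0 < e) {θ : ℝ → ℝ} (hθ : ContDiff ℝ ∞ θ) (hθ0 : ∀ r, r ≤ e → θ r = 0)
    (hθ1 : ∀ r, 0 ≤ deriv θ r ∧ deriv θ r ≤ 1) (hθ2 : Monotone (deriv θ)) :
    dirE (Ω.indicator (fun z => Z z * θ (w z))) ≤ 40 * dirE Z := by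
  have hws : ContDiffOn ℝ ∞ w Ω := mhe_sm hw
  obtain ⟨Θ, hΘ, hΘd, hΘ0, hΘn, hΘb⟩ := mhe_prim hθ hθ0 hθ1 hθ2 he
  have hZ2 : ContDiff ℝ ∞ (fun z => Z z ^ 2) := hZ.pow 2
  have hbd2 : ∀ ζ ∈ frontier Ω, (∀ᶠ z in 𝓝 ζ, Z z ^ 2 = 0) ∨ Tendsto w (𝓝[Ω] ζ) (𝓝 0) := by
    intro ζ hζ
    rcases hbd ζ hζ with h | h
    · left
      filter_upwards [h] with z hz
      rw [hz]
      norm_num
    · exact Or.inr h
  have hg := csc_cut hΩ hb hws hZ hbd he hθ hθ0
  have hk := csc_cut hΩ hb hws hZ2 hbd2 he hΘ hΘ0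
  set g : ℂ → ℝ := Ω.indicator (fun z => Z z * θ (w z)) with hgdef
  set k : ℂ → ℝ := Ω.indicator (fun z => Z z ^ 2 * Θ (w z)) with hkdef
  obtain ⟨W, hW, hWw⟩ := mhe_ext hΩ hws hk.cs hk.sub
  -- the test function
  have hzero : ∫ z, gin W k z = 0 := by
    have h1 := green hW hk.sm hk.cs
    have h2 : ∫ z, lap W z * k z = 0 := by
      have e : (fun z => lap W z * k z) = fun _ => 0 := by
        funext z
        by_cases hz : z ∈ tsupport k
        · rw [mhe_lap (hw z (hk.sub hz)) (hWw z hz), zero_mul]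
        · rw [image_eq_zero_of_notMem_tsupport hz, mul_zero]
      rw [e, integral_zero]
    rw [h2] at h1
    linarith
  have hpt : ∀ z, gsq g z ≤ 4 * gin W k z + 40 * gsq Z z := by
    intro z
    by_cases hz : z ∈ Ω
    · have hwd : DifferentiableAt ℝ w z :=
        ((hws.contDiffAt (hΩ.mem_nhds hz)).differentiableAt (by simp))
      have hgin : gin W k z = fderiv ℝ w z 1 * fderiv ℝ k z 1 +
          fderiv ℝ w z Complex.I * fderiv ℝ k z Complex.I := by
        by_cases hz2 : z ∈ tsupport k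
        · unfold gin
          rw [(hWw z hz2).fderiv_eq]
        · have : fderiv ℝ k z = 0 := by
            have h3 : k =ᶠ[𝓝 z] fun _ => 0 := by
              filter_upwards [(isClosed_tsupport k).isOpen_compl.mem_nhds hz2] with y hy
              exact image_eq_zero_of_notMem_tsupport hy
            rw [h3.fderiv_eq]
            simp
          unfold gin
          rw [this]
          simp
      rw [hgin]
      have hg1 : ∀ v, fderiv ℝ g z v = fderiv ℝ Z z v * θ (w z) +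
          Z z * (deriv θ (w z) * fderiv ℝ w z v) := fun v =>
        mhe_fd hΩ hz (hZ.differentiable (by simp) z) hwd (hθ.differentiable (by simp) _) v
      have hk1 : ∀ v, fderiv ℝ k z v = (2 * Z z * fderiv ℝ Z z v) * Θ (w z) +
          Z z ^ 2 * (deriv θ (w z) ^ 2 * fderiv ℝ w z v) := by
        intro v
        have h3 := mhe_fd hΩ hz (hZ2.differentiable (by simp) z) hwd
          (hΘ.differentiable (by simp) (w z)) v
        rw [hΘd] at h3
        have h4 : fderiv ℝ (fun z => Z z ^ 2) z v = 2 * Z z * fderiv ℝ Z z v := by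
          have h5 := ((hZ.differentiable (by simp) z).hasFDerivAt).pow 2
          rw [h5.fderiv]
          simp
        rw [h4] at h3
        exact h3
      unfold gsq
      rw [hg1, hg1, hk1, hk1]
      have hw0 := hw2 z hz
      have hp := hθ1 (w z)
      have hQ0 := hΘn (w z) hw0.1
      have hQ : Θ (w z) ≤ 2 * deriv θ (w z) ^ 2 :=
        (hΘb (w z) hw0.1).trans (mul_le_mul_of_nonneg_right hw0.2 (sq_nonneg _))
      have hT : |θ (w z)| ≤ 2 := by
        have h5 : |θ (w z) - θ 0| ≤ 1 * |w z - 0| := by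
          have := (convex_univ : Convex ℝ (Set.univ : Set ℝ)).norm_image_sub_le_of_norm_deriv_le
            (f := θ) (C := 1) (fun x _ => hθ.differentiable (by simp) x)
            (fun x _ => by
              rw [Real.norm_eq_abs, abs_of_nonneg (hθ1 x).1]
              exact (hθ1 x).2) (Set.mem_univ 0) (Set.mem_univ (w z))
          simpa only [Real.norm_eq_abs] using this
        rw [hθ0 0 he.le, sub_zero, sub_zero, abs_of_nonneg hw0.1, one_mul] at h5
        linarith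
      have key := mhe_alg (Z z) (deriv θ (w z)) (θ (w z)) (Θ (w z)) hp.1 hp.2 hT hQ0 hQ
      have k1 := key (fderiv ℝ w z 1) (fderiv ℝ Z z 1)
      have k2 := key (fderiv ℝ w z Complex.I) (fderiv ℝ Z z Complex.I)
      linarith
    · have e1 : gsq g z = 0 := by
        have h3 : z ∉ tsupport (gsq g) := fun h => hz (hg.sub (tsupport_gsq g h))
        exact image_eq_zero_of_notMem_tsupport h3
      have e2 : fderiv ℝ k z = 0 := by
        have h3 : k =ᶠ[𝓝 z] fun _ => 0 := by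
          filter_upwards [(isClosed_tsupport k).isOpen_compl.mem_nhds fun h => hz (hk.sub h)]
            with y hy
          exact image_eq_zero_of_notMem_tsupport hy
        rw [h3.fderiv_eq]
        simp
      have e3 : gin W k z = 0 := by
        unfold gin
        rw [e2]
        simp
      rw [e1, e3]
      unfold gsq
      nlinarith [sq_nonneg (fderiv ℝ Z z 1), sq_nonneg (fderiv ℝ Z z Complex.I)]
  have i1 : Integrable (gsq g) := mhe_gsq hg.sm hg.cs
  have i2 : Integrable (gsq Z) := mhe_gsq hZ hZc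
  have i3 : Integrable (gin W k) := by
    refine int_cs (((sm_fd hW 1).mul (sm_fd hk.sm 1)).add
      ((sm_fd hW Complex.I).mul (sm_fd hk.sm Complex.I))).continuous ?_
    exact ((cs_fd hk.cs 1).mul_left).add ((cs_fd hk.cs Complex.I).mul_left)
  unfold dirE
  calc ∫ z, gsq g z ≤ ∫ z, (4 * gin W k z + 40 * gsq Z z) :=
        integral_mono i1 ((i3.const_mul 4).add (i2.const_mul 40)) hpt
    _ = 4 * (∫ z, gin W k z) + 40 * ∫ z, gsq Z z := by
        rw [integral_add (i3.const_mul 4) (i2.const_mul 40), integral_const_mul,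
          integral_const_mul]
    _ = 40 * ∫ z, gsq Z z := by rw [hzero, mul_zero, zero_add]

/- END mhe -/

/- MODULE mhf
`|∫ φ Z w| ≤ (GE dirE(Z θ(w)))^{1/2} + 2 e ∫ |φ Z|` (`dual`, `cacc_cont`), `e → 0`. -/
theorem dual_cont {Ω : Set ℂ} (hΩ : IsOpen Ω) (hb : Bornology.IsBounded Ω) {w Z : ℂ → ℝ}
    (hw : InnerProductSpace.HarmonicOnNhd w Ω) (hw2 : ∀ z ∈ Ω, 0 ≤ w z ∧ w z ≤ 2)
    (hZ : ContDiff ℝ ∞ Z) (hZc : HasCompactSupport Z)
    (hbd : ∀ ζ ∈ frontier Ω, (∀ᶠ z in 𝓝 ζ, Z z = 0) ∨ Tendsto w (𝓝[Ω] ζ) (𝓝 0))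
    {φ : ℂ → ℝ} (hφ : CSC Ω φ) :
    |∫ z, φ z * (Z z * w z)| ≤ Real.sqrt (GE Ω φ) * Real.sqrt (40 * dirE Z) := by
  have hws : ContDiffOn ℝ ∞ w Ω := mhe_sm hw
  set B : ℝ := Real.sqrt (GE Ω φ) * Real.sqrt (40 * dirE Z) with hB
  set N : ℝ := ∫ z, |φ z * Z z| with hN
  have hcw : Continuous fun z => φ z * (Z z * w z) := by
    rw [continuous_iff_continuousAt]
    intro z
    by_cases hz : z ∈ Ω
    · exact hφ.sm.continuous.continuousAt.mul (hZ.continuous.continuousAt.mul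
        (hws.continuousOn.continuousAt (hΩ.mem_nhds hz)))
    · have h1 : (fun z => φ z * (Z z * w z)) =ᶠ[𝓝 z] fun _ => 0 := by
        filter_upwards [(isClosed_tsupport φ).isOpen_compl.mem_nhds fun h => hz (hφ.sub h)]
          with y hy
        rw [image_eq_zero_of_notMem_tsupport hy, zero_mul]
      exact continuousAt_const.congr h1.symm
  have i1 : Integrable fun z => φ z * (Z z * w z) := int_cs hcw hφ.cs.mul_right
  have i2 : Integrable fun z => |φ z * Z z| :=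
    (int_cs (hφ.sm.mul hZ).continuous hφ.cs.mul_right).abs
  have main : ∀ e : ℝ, 0 < e → |∫ z, φ z * (Z z * w z)| ≤ B + 2 * e * N := by
    intro e he
    obtain ⟨θ, hθ, hθ0, hθ1, hθ2, hθ3, hθ4⟩ := exists_theta he
    have hg := csc_cut hΩ hb hws hZ hbd he hθ hθ0
    set g : ℂ → ℝ := Ω.indicator (fun z => Z z * θ (w z)) with hgdef
    have h1 := dual hb hφ hg
    have h2 := cacc_cont hΩ hb hw hw2 hZ hZc hbd he hθ hθ0 hθ1 hθ2
    have i3 : Integrable fun z => φ z * g z :=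
      int_cs (hφ.sm.mul hg.sm).continuous hφ.cs.mul_right
    have h3 : |(∫ z, φ z * (Z z * w z)) - ∫ z, φ z * g z| ≤ 2 * e * N := by
      rw [← integral_sub i1 i3, hN, ← integral_const_mul]
      refine abs_integral_le_integral_abs.trans
        (integral_mono (i1.sub i3).abs (i2.const_mul _) fun z => ?_)
      by_cases hz : z ∈ Ω
      · have h4 : g z = Z z * θ (w z) := Set.indicator_of_mem hz _
        have h5 := hw2 z hz
        have h6 := hθ3 (w z)
        have h7 := hθ4 (w z)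
        rw [max_eq_left h5.1] at h7
        simp only
        rw [h4]
        have e1 : φ z * (Z z * w z) - φ z * (Z z * θ (w z)) =
            (w z - θ (w z)) * (φ z * Z z) := by ring
        rw [e1, abs_mul]
        refine mul_le_mul_of_nonneg_right ?_ (abs_nonneg _)
        rw [abs_of_nonneg (by linarith)]
        linarith
      · have h4 : φ z = 0 := image_eq_zero_of_notMem_tsupport fun h => hz (hφ.sub h)
        simp only [h4, zero_mul, sub_zero, abs_zero, mul_zero]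
        exact le_rfl
    have h8 : |∫ z, φ z * g z| ≤ B :=
      h1.trans (mul_le_mul_of_nonneg_left (Real.sqrt_le_sqrt h2) (Real.sqrt_nonneg _))
    have h9 : |∫ z, φ z * (Z z * w z)| ≤
        |(∫ z, φ z * (Z z * w z)) - ∫ z, φ z * g z| + |∫ z, φ z * g z| := by
      have := abs_add_le ((∫ z, φ z * (Z z * w z)) - ∫ z, φ z * g z) (∫ z, φ z * g z)
      rwa [sub_add_cancel] at this
    linarith
  have h0 : Tendsto (fun n : ℕ => B + 2 * (1 / ((n : ℝ) + 1)) * N) atTop (𝓝 (B + 2 * 0 * N)) :=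
    tendsto_const_nhds.add ((tendsto_const_nhds.mul
      tendsto_one_div_add_atTop_nhds_zero_nat).mul tendsto_const_nhds)
  rw [mul_zero, zero_mul, add_zero] at h0
  exact ge_of_tendsto' h0 fun n => main _ (by positivity)

/- END mhf -/

/- MODULE mhg
The logarithmic cut-off at a point: `η(z) = ξ(- log|z - p| / L)` for `z ≠ p` near `p`, `= 1` at `p`;
`ξ` smooth, `= 0` on `(-∞, 1]`, `= 1` on `[2, ∞)`: `η = 1` for `|z - p| ≤ e^{-2L}`, `= 0` for
`|z - p| ≥ e^{-L}`; `gsq η ≤ C L⁻² |z-p|⁻²`, `|lap η| ≤ C L⁻² |z-p|⁻²` on the annulus (`log|z - p|` is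
harmonic), and `∫_{annulus} |z-p|⁻² = 2 π L` (polar coordinates).  So both integrals are `≤ C/L`. -/
/-- a smooth function with values in `[0, 1]`, equal to `1` on `[1, ∞)` and to `0` on `(-∞, 0]`, with
bounded derivatives vanishing off `[0, 1]` -/
private theorem mhg_S : ∃ (S : ℝ → ℝ) (M : ℝ), ContDiff ℝ ∞ S ∧ (∀ x, 0 ≤ S x ∧ S x ≤ 1) ∧
    (∀ x, x ≤ 0 → S x = 0) ∧ (∀ x, 1 ≤ x → S x = 1) ∧ 0 ≤ M ∧
    (∀ x, |deriv S x| ≤ M) ∧ (∀ x, |deriv (deriv S) x| ≤ M) ∧
    (∀ x, x ∉ Icc (0 : ℝ) 1 → deriv S x = 0) ∧ (∀ x, x ∉ Icc (0 : ℝ) 1 → deriv (deriv S) x = 0) := by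
  have hS : ContDiff ℝ ∞ Real.smoothTransition := Real.smoothTransition.contDiff
  have hd : ContDiff ℝ ∞ (deriv Real.smoothTransition) := by
    have := (contDiff_infty_iff_deriv.1 hS).2
    exact this
  have hdd : ContDiff ℝ ∞ (deriv (deriv Real.smoothTransition)) := (contDiff_infty_iff_deriv.1 hd).2
  have h0 : ∀ x : ℝ, x ∉ Icc (0 : ℝ) 1 → ∀ᶠ y in 𝓝 x,
      deriv Real.smoothTransition y = 0 := by
    intro x hx
    have hev : ∀ᶠ y in 𝓝 x, y ∉ Icc (0 : ℝ) 1 := isClosed_Icc.isOpen_compl.mem_nhds hx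
    filter_upwards [hev] with y hy
    by_cases hy0 : y < 0
    · have : Real.smoothTransition =ᶠ[𝓝 y] fun _ => (0 : ℝ) := by
        filter_upwards [Iio_mem_nhds hy0] with t ht
        exact Real.smoothTransition.zero_of_nonpos (le_of_lt ht)
      rw [this.deriv_eq, deriv_const]
    · have hy1 : 1 < y := by
        by_contra hc
        exact hy ⟨not_lt.1 hy0, not_lt.1 hc⟩
      have : Real.smoothTransition =ᶠ[𝓝 y] fun _ => (1 : ℝ) := by
        filter_upwards [Ioi_mem_nhds hy1] with t ht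
        exact Real.smoothTransition.one_of_one_le (le_of_lt ht)
      rw [this.deriv_eq, deriv_const]
  have h1 : ∀ x : ℝ, x ∉ Icc (0 : ℝ) 1 → deriv Real.smoothTransition x = 0 :=
    fun x hx => (h0 x hx).self_of_nhds
  have h2 : ∀ x : ℝ, x ∉ Icc (0 : ℝ) 1 → deriv (deriv Real.smoothTransition) x = 0 := by
    intro x hx
    have : deriv Real.smoothTransition =ᶠ[𝓝 x] fun _ => (0 : ℝ) := h0 x hx
    rw [this.deriv_eq, deriv_const]
  obtain ⟨C₁, hC₁⟩ := isCompact_Icc.exists_bound_of_continuousOn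
    (s := Icc (0 : ℝ) 1) hd.continuous.continuousOn
  obtain ⟨C₂, hC₂⟩ := isCompact_Icc.exists_bound_of_continuousOn
    (s := Icc (0 : ℝ) 1) hdd.continuous.continuousOn
  refine ⟨Real.smoothTransition, max (max C₁ C₂) 0, hS,
    fun x => ⟨Real.smoothTransition.nonneg x, Real.smoothTransition.le_one x⟩,
    fun x hx => Real.smoothTransition.zero_of_nonpos hx,
    fun x hx => Real.smoothTransition.one_of_one_le hx, le_max_right _ _, ?_, ?_, h1, h2⟩
  · intro x
    by_cases hx : x ∈ Icc (0 : ℝ) 1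
    · exact (hC₁ x hx).trans ((le_max_left _ _).trans (le_max_left _ _))
    · rw [h1 x hx, abs_zero]
      exact le_max_right _ _
  · intro x
    by_cases hx : x ∈ Icc (0 : ℝ) 1
    · exact (hC₂ x hx).trans ((le_max_right _ _).trans (le_max_left _ _))
    · rw [h2 x hx, abs_zero]
      exact le_max_right _ _

/-- the square of the distance to `p` -/
private def mhg_q (p z : ℂ) : ℝ := (z - p).re ^ 2 + (z - p).im ^ 2

private theorem mhg_q_norm (p z : ℂ) : mhg_q p z = ‖z - p‖ ^ 2 := by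
  rw [mhg_q, Complex.sq_norm, Complex.normSq_apply]
  ring

private theorem mhg_q_pos {p z : ℂ} (h : z ≠ p) : 0 < mhg_q p z := by
  rw [mhg_q_norm]
  have : 0 < ‖z - p‖ := norm_pos_iff.2 (sub_ne_zero.2 h)
  positivity

private theorem mhg_re (p z : ℂ) : HasFDerivAt (fun w : ℂ => (w - p).re) Complex.reCLM z := by
  have := (Complex.reCLM.hasFDerivAt (x := z - p)).comp z ((hasFDerivAt_id z).sub_const p)
  rw [ContinuousLinearMap.comp_id] at this
  exact this

private theorem mhg_im (p z : ℂ) : HasFDerivAt (fun w : ℂ => (w - p).im) Complex.imCLM z := by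
  have := (Complex.imCLM.hasFDerivAt (x := z - p)).comp z ((hasFDerivAt_id z).sub_const p)
  rw [ContinuousLinearMap.comp_id] at this
  exact this

private theorem mhg_q_fd (p z : ℂ) : HasFDerivAt (mhg_q p)
    ((2 * (z - p).re) • Complex.reCLM + (2 * (z - p).im) • Complex.imCLM) z := by
  have h := ((mhg_re p z).pow 2).add ((mhg_im p z).pow 2)
  have e : (2 * (z - p).re) • Complex.reCLM + (2 * (z - p).im) • Complex.imCLM =
      (2 • (z - p).re ^ (2 - 1)) • Complex.reCLM + (2 • (z - p).im ^ (2 - 1)) • Complex.imCLM := by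
    simp
  rw [e]
  exact h

private theorem mhg_q_smooth (p : ℂ) : ContDiff ℝ ∞ (mhg_q p) := by
  have h1 : ContDiff ℝ ∞ (fun w : ℂ => (w - p).re) :=
    Complex.reCLM.contDiff.comp (contDiff_id.sub contDiff_const)
  have h2 : ContDiff ℝ ∞ (fun w : ℂ => (w - p).im) :=
    Complex.imCLM.contDiff.comp (contDiff_id.sub contDiff_const)
  exact (h1.pow 2).add (h2.pow 2)

/-- first derivatives of `G (log q)` -/
private theorem mhg_fd {G : ℝ → ℝ} (hG : ContDiff ℝ ∞ G) {p z : ℂ} (hz : z ≠ p) :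
    HasFDerivAt (fun w => G (Real.log (mhg_q p w)))
      (deriv G (Real.log (mhg_q p z)) • ((mhg_q p z)⁻¹ •
        ((2 * (z - p).re) • Complex.reCLM + (2 * (z - p).im) • Complex.imCLM))) z := by
  have h1 := (mhg_q_fd p z).log (mhg_q_pos hz).ne'
  have h2 : HasDerivAt G (deriv G (Real.log (mhg_q p z))) (Real.log (mhg_q p z)) :=
    (hG.differentiable (by simp)).differentiableAt.hasDerivAt
  exact h2.comp_hasFDerivAt z h1

private theorem mhg_gsq {G : ℝ → ℝ} (hG : ContDiff ℝ ∞ G) {p z : ℂ} (hz : z ≠ p) :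
    gsq (fun w => G (Real.log (mhg_q p w))) z =
      (deriv G (Real.log (mhg_q p z))) ^ 2 * (4 * (mhg_q p z)⁻¹) := by
  have hq := mhg_q_pos hz
  rw [gsq, (mhg_fd hG hz).fderiv]
  simp only [smul_apply, add_apply, Complex.reCLM_apply,
    Complex.imCLM_apply, Complex.one_re, Complex.one_im, Complex.I_re, Complex.I_im, smul_eq_mul]
  have h : (z - p).re ^ 2 + (z - p).im ^ 2 = mhg_q p z := rfl
  generalize mhg_q p z = Q at *
  generalize deriv G (Real.log Q) = D at *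
  generalize (z - p).re = x at *
  generalize (z - p).im = y at *
  subst h
  field_simp
  ring

private theorem mhg_lap {G : ℝ → ℝ} (hG : ContDiff ℝ ∞ G) {p z : ℂ} (hz : z ≠ p) :
    lap (fun w => G (Real.log (mhg_q p w))) z =
      deriv (deriv G) (Real.log (mhg_q p z)) * (4 * (mhg_q p z)⁻¹) := by
  have hq := mhg_q_pos hz
  have hd : ContDiff ℝ ∞ (deriv G) := (contDiff_infty_iff_deriv.1 hG).2
  have hev : ∀ᶠ w in 𝓝 z, w ≠ p := isOpen_ne.mem_nhds hz
  have e1 : (fun w => fderiv ℝ (fun w => G (Real.log (mhg_q p w))) w 1) =ᶠ[𝓝 z]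
      fun w => deriv G (Real.log (mhg_q p w)) * ((mhg_q p w)⁻¹ * (2 * (w - p).re)) := by
    filter_upwards [hev] with w hw
    rw [(mhg_fd hG hw).fderiv]
    simp
  have e2 : (fun w => fderiv ℝ (fun w => G (Real.log (mhg_q p w))) w Complex.I) =ᶠ[𝓝 z]
      fun w => deriv G (Real.log (mhg_q p w)) * ((mhg_q p w)⁻¹ * (2 * (w - p).im)) := by
    filter_upwards [hev] with w hw
    rw [(mhg_fd hG hw).fderiv]
    simp
  have hinv : HasFDerivAt (fun w => (mhg_q p w)⁻¹) (-(mhg_q p z ^ 2)⁻¹ •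
      ((2 * (z - p).re) • Complex.reCLM + (2 * (z - p).im) • Complex.imCLM)) z :=
    (hasDerivAt_inv hq.ne').comp_hasFDerivAt z (mhg_q_fd p z)
  have f1 := (mhg_fd hd hz).mul (hinv.mul ((mhg_re p z).const_mul 2))
  have f2 := (mhg_fd hd hz).mul (hinv.mul ((mhg_im p z).const_mul 2))
  rw [lap, e1.fderiv_eq, e2.fderiv_eq]
  erw [f1.fderiv, f2.fderiv]
  simp only [smul_apply, add_apply, Pi.mul_apply, Complex.reCLM_apply,
    Complex.imCLM_apply, Complex.one_re, Complex.one_im, Complex.I_re, Complex.I_im, smul_eq_mul]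
  have h : (z - p).re ^ 2 + (z - p).im ^ 2 = mhg_q p z := rfl
  generalize mhg_q p z = Q at *
  generalize deriv (deriv G) (Real.log Q) = D2 at *
  generalize deriv G (Real.log Q) = D at *
  generalize (z - p).re = x at *
  generalize (z - p).im = y at *
  subst h
  field_simp
  ring

/-- the integral of `4 / |z - p|²` on an annulus -/
private theorem mhg_int (p : ℂ) {a r : ℝ} (ha : 0 < a) (har : a ≤ r) (c : ℝ) :
    Integrable (fun z : ℂ => (Icc a r).indicator (fun y => c * (4 * (y ^ 2)⁻¹)) ‖z - p‖) ∧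
    ∫ z : ℂ, (Icc a r).indicator (fun y => c * (4 * (y ^ 2)⁻¹)) ‖z - p‖ =
      8 * Real.pi * c * Real.log (r / a) := by
  have hr : 0 < r := lt_of_lt_of_le ha har
  have key : ∀ y : ℝ, 0 < y → y ^ (Module.finrank ℝ ℂ - 1) •
      (Icc a r).indicator (fun y => c * (4 * (y ^ 2)⁻¹)) y =
      (Icc a r).indicator (fun y => 4 * c * y⁻¹) y := by
    intro y hy
    rw [Complex.finrank_real_complex, smul_eq_mul, show 2 - 1 = 1 from rfl, pow_one]
    by_cases h : y ∈ Icc a r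
    · rw [indicator_of_mem h, indicator_of_mem h]
      field_simp
    · rw [indicator_of_notMem h, indicator_of_notMem h, mul_zero]
  have hint : IntegrableOn (fun y : ℝ => 4 * c * y⁻¹) (Icc a r) := by
    apply ContinuousOn.integrableOn_Icc
    intro y hy
    exact (continuousAt_const.mul (continuousAt_inv₀ (lt_of_lt_of_le ha hy.1).ne')).continuousWithinAt
  have hI : IntegrableOn (fun y => y ^ (Module.finrank ℝ ℂ - 1) •
      (Icc a r).indicator (fun y => c * (4 * (y ^ 2)⁻¹)) y) (Ioi (0 : ℝ)) := by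
    exact (integrableOn_congr_fun (fun y hy => key y hy) measurableSet_Ioi).2
      ((integrable_indicator_iff measurableSet_Icc).2 hint).integrableOn
  have hint0 : Integrable (fun z : ℂ => (Icc a r).indicator (fun y => c * (4 * (y ^ 2)⁻¹)) ‖z‖) :=
    (integrable_fun_norm_addHaar volume).2 hI
  refine ⟨hint0.comp_sub_right p, ?_⟩
  rw [integral_sub_right_eq_self
    (fun z : ℂ => (Icc a r).indicator (fun y => c * (4 * (y ^ 2)⁻¹)) ‖z‖) p,
    integral_fun_norm_addHaar volume]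
  rw [setIntegral_congr_fun measurableSet_Ioi (fun y hy => key y hy),
    integral_indicator measurableSet_Icc, Measure.restrict_restrict measurableSet_Icc]
  have hsub : Icc a r ∩ Ioi 0 = Icc a r :=
    inter_eq_left.2 (fun y hy => lt_of_lt_of_le ha hy.1)
  rw [hsub, integral_Icc_eq_integral_Ioc, ← intervalIntegral.integral_of_le har,
    intervalIntegral.integral_const_mul, integral_inv_of_pos ha hr, Complex.finrank_real_complex,
    Measure.real, Complex.volume_ball]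
  simp
  ring

theorem log_cut (p : ℂ) {r e : ℝ} (hr : 0 < r) (he : 0 < e) : ∃ η : ℂ → ℝ, ContDiff ℝ ∞ η ∧
    (∀ z, 0 ≤ η z ∧ η z ≤ 1) ∧ (∀ z, r ≤ ‖z - p‖ → η z = 0) ∧ (∀ᶠ z in 𝓝 p, η z = 1) ∧
    dirE η ≤ e ∧ ∫ z, |lap η z| ≤ e := by
  classical
  obtain ⟨S, M, hS, hS01, hS0, hS1, hM, hM1, hM2, hz1, hz2⟩ := mhg_S
  have hSd : ContDiff ℝ ∞ (deriv S) := (contDiff_infty_iff_deriv.1 hS).2
  -- the parameters
  obtain ⟨Λ, hΛ, hΛ1, hΛ2⟩ : ∃ Λ : ℝ, 0 < Λ ∧ 4 * Real.pi * M ^ 2 / Λ ≤ e ∧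
      4 * Real.pi * M / Λ ≤ e := by
    have h1 : 0 ≤ 4 * Real.pi * M ^ 2 := by positivity
    have h2 : 0 ≤ 4 * Real.pi * M := by positivity
    refine ⟨(4 * Real.pi * M ^ 2 + 4 * Real.pi * M) / e + 1, by positivity, ?_, ?_⟩
    · rw [div_le_iff₀ (by positivity)]
      have : e * ((4 * Real.pi * M ^ 2 + 4 * Real.pi * M) / e + 1) =
          4 * Real.pi * M ^ 2 + 4 * Real.pi * M + e := by
        field_simp
      rw [this]
      linarith
    · rw [div_le_iff₀ (by positivity)]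
      have : e * ((4 * Real.pi * M ^ 2 + 4 * Real.pi * M) / e + 1) =
          4 * Real.pi * M ^ 2 + 4 * Real.pi * M + e := by
        field_simp
      rw [this]
      linarith
  let B : ℝ := 2 * Real.log r
  let G : ℝ → ℝ := fun t => S ((B - t) / Λ)
  have hinner : ContDiff ℝ ∞ (fun t : ℝ => (B - t) / Λ) :=
    (contDiff_const.sub contDiff_id).div_const Λ
  have hG : ContDiff ℝ ∞ G := hS.comp hinner
  have hin' : ∀ t : ℝ, HasDerivAt (fun t : ℝ => (B - t) / Λ) (-1 / Λ) t := by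
    intro t
    have := ((hasDerivAt_id t).const_sub B).div_const Λ
    exact this
  have hG1 : deriv G = fun t => deriv S ((B - t) / Λ) * (-1 / Λ) := by
    funext t
    have h1 : HasDerivAt S (deriv S ((B - t) / Λ)) ((B - t) / Λ) :=
      (hS.differentiable (by simp)).differentiableAt.hasDerivAt
    exact (h1.comp t (hin' t)).deriv
  have hG2 : ∀ t, deriv (deriv G) t = deriv (deriv S) ((B - t) / Λ) * (-1 / Λ) * (-1 / Λ) := by
    intro t
    rw [hG1]
    have h1 : HasDerivAt (deriv S) (deriv (deriv S) ((B - t) / Λ)) ((B - t) / Λ) :=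
      (hSd.differentiable (by simp)).differentiableAt.hasDerivAt
    exact ((h1.comp t (hin' t)).mul_const (-1 / Λ)).deriv
  let a : ℝ := Real.exp ((B - Λ) / 2)
  have ha : 0 < a := Real.exp_pos _
  have hrB : r = Real.exp (B / 2) := by
    simp only [B]
    rw [mul_div_cancel_left₀ _ (two_ne_zero), Real.exp_log hr]
  have har : a ≤ r := by
    rw [hrB]
    apply Real.exp_le_exp.2
    linarith
  have hlogra : Real.log (r / a) = Λ / 2 := by
    rw [hrB, ← Real.exp_sub, Real.log_exp]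
    ring
  have hq : ∀ z : ℂ, z ≠ p → Real.log (mhg_q p z) = 2 * Real.log ‖z - p‖ := by
    intro z hz
    rw [mhg_q_norm, Real.log_pow]
    norm_num
  -- the position of `(B - log q) / Λ`
  have hpos : ∀ z : ℂ, z ≠ p → (B - Real.log (mhg_q p z)) / Λ ∈ Icc (0 : ℝ) 1 →
      ‖z - p‖ ∈ Icc a r := by
    intro z hz hm
    have hn : 0 < ‖z - p‖ := norm_pos_iff.2 (sub_ne_zero.2 hz)
    rw [hq z hz] at hm
    obtain ⟨h1, h2⟩ := hm
    rw [le_div_iff₀ hΛ, zero_mul] at h1
    rw [div_le_iff₀ hΛ, one_mul] at h2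
    constructor
    · rw [← Real.exp_log hn]
      apply Real.exp_le_exp.2
      linarith
    · rw [hrB, ← Real.exp_log hn]
      apply Real.exp_le_exp.2
      linarith
  let η : ℂ → ℝ := fun z => if z = p then 1 else G (Real.log (mhg_q p z))
  have hηne : ∀ z : ℂ, z ≠ p → η z = G (Real.log (mhg_q p z)) := fun z hz => if_neg hz
  have hnear : ∀ᶠ z in 𝓝 p, η z = 1 := by
    filter_upwards [Metric.ball_mem_nhds p ha] with z hz
    by_cases hzp : z = p
    · exact if_pos hzp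
    · rw [hηne z hzp]
      apply hS1
      have hn : 0 < ‖z - p‖ := norm_pos_iff.2 (sub_ne_zero.2 hzp)
      rw [hq z hzp, le_div_iff₀ hΛ, one_mul]
      rw [Metric.mem_ball, dist_eq_norm] at hz
      have h1 : Real.log ‖z - p‖ < (B - Λ) / 2 := by
        rw [Real.log_lt_iff_lt_exp hn]
        exact hz
      linarith
  have hev : ∀ z : ℂ, z ≠ p → η =ᶠ[𝓝 z] fun w => G (Real.log (mhg_q p w)) := by
    intro z hz
    filter_upwards [isOpen_ne.mem_nhds hz] with w hw
    exact hηne w hw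
  have hevp : η =ᶠ[𝓝 p] fun _ => (1 : ℝ) := hnear
  have hηs : ContDiff ℝ ∞ η := by
    rw [contDiff_iff_contDiffAt]
    intro z
    by_cases hz : z = p
    · rw [hz]
      exact contDiffAt_const.congr_of_eventuallyEq hevp
    · refine ContDiffAt.congr_of_eventuallyEq ?_ (hev z hz)
      exact hG.contDiffAt.comp z (((mhg_q_smooth p).contDiffAt).log (mhg_q_pos hz).ne')
  -- pointwise formulas
  have hgsq : ∀ z, gsq η z ≤
      (Icc a r).indicator (fun y => (M ^ 2 / Λ ^ 2) * (4 * (y ^ 2)⁻¹)) ‖z - p‖ := by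
    intro z
    have hnn : ∀ y : ℝ, 0 ≤ (Icc a r).indicator (fun y => (M ^ 2 / Λ ^ 2) * (4 * (y ^ 2)⁻¹)) y :=
      fun y => indicator_nonneg (fun y _ => by positivity) y
    by_cases hz : z = p
    · have h1 : gsq η z = 0 := by
        rw [gsq, hz, hevp.fderiv_eq]
        simp
      rw [h1]
      exact hnn _
    · have h1 : gsq η z = gsq (fun w => G (Real.log (mhg_q p w))) z := by
        rw [gsq, gsq, (hev z hz).fderiv_eq]
      rw [h1, mhg_gsq hG hz, hG1]
      by_cases hm : (B - Real.log (mhg_q p z)) / Λ ∈ Icc (0 : ℝ) 1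
      · rw [indicator_of_mem (hpos z hz hm), mhg_q_norm]
        refine mul_le_mul_of_nonneg_right ?_ (by positivity)
        have h2 := hM1 ((B - Real.log (‖z - p‖ ^ 2)) / Λ)
        have h3 : deriv S ((B - Real.log (‖z - p‖ ^ 2)) / Λ) ^ 2 ≤ M ^ 2 := by
          rw [← sq_abs]
          exact pow_le_pow_left₀ (abs_nonneg _) h2 2
        calc (deriv S ((B - Real.log (‖z - p‖ ^ 2)) / Λ) * (-1 / Λ)) ^ 2 =
            deriv S ((B - Real.log (‖z - p‖ ^ 2)) / Λ) ^ 2 / Λ ^ 2 := by ring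
          _ ≤ M ^ 2 / Λ ^ 2 := by gcongr
      · have : (deriv S ((B - Real.log (mhg_q p z)) / Λ) * (-1 / Λ)) ^ 2 *
            (4 * (mhg_q p z)⁻¹) = 0 := by
          rw [hz1 _ hm]
          ring
        rw [this]
        exact hnn _
  have hlap : ∀ z, |lap η z| ≤
      (Icc a r).indicator (fun y => (M / Λ ^ 2) * (4 * (y ^ 2)⁻¹)) ‖z - p‖ := by
    intro z
    have hnn : ∀ y : ℝ, 0 ≤ (Icc a r).indicator (fun y => (M / Λ ^ 2) * (4 * (y ^ 2)⁻¹)) y :=
      fun y => indicator_nonneg (fun y _ => by positivity) y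
    by_cases hz : z = p
    · have h1 : lap η z = 0 := by
        have hf : fderiv ℝ η =ᶠ[𝓝 p] fderiv ℝ (fun _ : ℂ => (1 : ℝ)) := hevp.fderiv
        have e1 : (fun w => fderiv ℝ η w 1) =ᶠ[𝓝 p] fun _ => (0 : ℝ) := by
          filter_upwards [hf] with w hw
          rw [hw]
          simp
        have e2 : (fun w => fderiv ℝ η w Complex.I) =ᶠ[𝓝 p] fun _ => (0 : ℝ) := by
          filter_upwards [hf] with w hw
          rw [hw]
          simp
        rw [lap, hz, e1.fderiv_eq, e2.fderiv_eq]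
        simp
      rw [h1, abs_zero]
      exact hnn _
    · have h1 : lap η z = lap (fun w => G (Real.log (mhg_q p w))) z := by
        have hf := (hev z hz).fderiv (𝕜 := ℝ)
        have e1 : (fun w => fderiv ℝ η w 1) =ᶠ[𝓝 z]
            fun w => fderiv ℝ (fun w => G (Real.log (mhg_q p w))) w 1 := by
          filter_upwards [hf] with w hw
          rw [hw]
        have e2 : (fun w => fderiv ℝ η w Complex.I) =ᶠ[𝓝 z]
            fun w => fderiv ℝ (fun w => G (Real.log (mhg_q p w))) w Complex.I := by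
          filter_upwards [hf] with w hw
          rw [hw]
        rw [lap, lap, e1.fderiv_eq, e2.fderiv_eq]
      rw [h1, mhg_lap hG hz, hG2]
      by_cases hm : (B - Real.log (mhg_q p z)) / Λ ∈ Icc (0 : ℝ) 1
      · rw [indicator_of_mem (hpos z hz hm), mhg_q_norm, abs_mul, abs_of_nonneg
          (show 0 ≤ 4 * (‖z - p‖ ^ 2)⁻¹ by positivity)]
        refine mul_le_mul_of_nonneg_right ?_ (by positivity)
        have h2 := hM2 ((B - Real.log (‖z - p‖ ^ 2)) / Λ)
        calc |deriv (deriv S) ((B - Real.log (‖z - p‖ ^ 2)) / Λ) * (-1 / Λ) * (-1 / Λ)| =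
            |deriv (deriv S) ((B - Real.log (‖z - p‖ ^ 2)) / Λ)| / Λ ^ 2 := by
              rw [show deriv (deriv S) ((B - Real.log (‖z - p‖ ^ 2)) / Λ) * (-1 / Λ) * (-1 / Λ) =
                deriv (deriv S) ((B - Real.log (‖z - p‖ ^ 2)) / Λ) / Λ ^ 2 by ring, abs_div,
                abs_of_pos (show 0 < Λ ^ 2 by positivity)]
          _ ≤ M / Λ ^ 2 := by gcongr
      · have : deriv (deriv S) ((B - Real.log (mhg_q p z)) / Λ) * (-1 / Λ) * (-1 / Λ) *
            (4 * (mhg_q p z)⁻¹) = 0 := by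
          rw [hz2 _ hm]
          ring
        rw [this, abs_zero]
        exact hnn _
  refine ⟨η, hηs, ?_, ?_, hnear, ?_, ?_⟩
  · intro z
    by_cases hz : z = p
    · have : η z = 1 := if_pos hz
      rw [this]
      norm_num
    · rw [hηne z hz]
      exact hS01 _
  · intro z hz
    have hzp : z ≠ p := by
      rintro rfl
      rw [sub_self, norm_zero] at hz
      linarith
    have hn : 0 < ‖z - p‖ := norm_pos_iff.2 (sub_ne_zero.2 hzp)
    rw [hηne z hzp]
    apply hS0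
    rw [hq z hzp]
    apply div_nonpos_of_nonpos_of_nonneg _ hΛ.le
    have := Real.log_le_log hr hz
    simp only [B]
    linarith
  · obtain ⟨hi, hv⟩ := mhg_int p ha har (M ^ 2 / Λ ^ 2)
    calc dirE η = ∫ z, gsq η z := rfl
      _ ≤ ∫ z : ℂ, (Icc a r).indicator (fun y => (M ^ 2 / Λ ^ 2) * (4 * (y ^ 2)⁻¹)) ‖z - p‖ :=
        integral_mono_of_nonneg (Eventually.of_forall (fun z => by
          change 0 ≤ gsq η z
          rw [gsq]
          positivity)) hi (Eventually.of_forall hgsq)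
      _ = 4 * Real.pi * M ^ 2 / Λ := by
        rw [hv, hlogra]
        field_simp
        ring
      _ ≤ e := hΛ1
  · obtain ⟨hi, hv⟩ := mhg_int p ha har (M / Λ ^ 2)
    calc ∫ z, |lap η z| ≤
        ∫ z : ℂ, (Icc a r).indicator (fun y => (M / Λ ^ 2) * (4 * (y ^ 2)⁻¹)) ‖z - p‖ :=
        integral_mono_of_nonneg (Eventually.of_forall (fun z => abs_nonneg _)) hi
          (Eventually.of_forall hlap)
      _ = 4 * Real.pi * M / Λ := by
        rw [hv, hlogra]
        field_simp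
        ring
      _ ≤ e := hΛ2

/- END mhg -/

/- MODULE mhh
The cut-off near two points: `Z = 1 - η_a - η_b` with disjoint supports (`a ≠ b`), or one of them. -/
private theorem mhh_cs {η : ℂ → ℝ} {p : ℂ} {r : ℝ} (h : ∀ z, r ≤ ‖z - p‖ → η z = 0) :
    HasCompactSupport η := by
  refine HasCompactSupport.intro (isCompact_closedBall p r) ?_
  intro z hz
  apply h
  rw [Metric.mem_closedBall, dist_eq_norm, not_le] at hz
  exact hz.le

theorem two_cut {a b : ℂ} (hab : a ≠ b) {e : ℝ} (he : 0 < e) : ∃ Z : ℂ → ℝ, ContDiff ℝ ∞ Z ∧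
    (∀ z, 0 ≤ Z z ∧ Z z ≤ 1) ∧ (∀ᶠ z in 𝓝 a, Z z = 0) ∧ (∀ᶠ z in 𝓝 b, Z z = 0) ∧
    (∀ z, e ≤ ‖z - a‖ → e ≤ ‖z - b‖ → Z z = 1) ∧ dirE Z ≤ e ∧ ∫ z, |lap Z z| ≤ e := by
  have hd : 0 < ‖a - b‖ := norm_pos_iff.2 (sub_ne_zero.2 hab)
  have hr : 0 < min e (‖a - b‖ / 2) := lt_min he (by positivity)
  obtain ⟨f, hf, hf01, hf0, hf1, hfd, hfl⟩ := log_cut a hr (show 0 < e / 4 by positivity)
  obtain ⟨g, hg, hg01, hg0, hg1, hgd, hgl⟩ := log_cut b hr (show 0 < e / 4 by positivity)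
  have hre : min e (‖a - b‖ / 2) ≤ e := min_le_left _ _
  have hrd : min e (‖a - b‖ / 2) ≤ ‖a - b‖ / 2 := min_le_right _ _
  have hor : ∀ z, f z = 0 ∨ g z = 0 := by
    intro z
    by_cases h : ‖a - b‖ / 2 ≤ ‖z - a‖
    · exact Or.inl (hf0 z (hrd.trans h))
    · right
      apply hg0
      have h1 : ‖a - b‖ ≤ ‖z - a‖ + ‖z - b‖ := by
        have := norm_sub_le_norm_sub_add_norm_sub a z b
        rwa [norm_sub_rev a z] at this
      linarith [not_le.1 h]
  have hfc := mhh_cs hf0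
  have hgc := mhh_cs hg0
  have hZs : ContDiff ℝ ∞ (fun z => 1 - f z - g z) := (contDiff_const.sub hf).sub hg
  have hfD : ∀ z, DifferentiableAt ℝ f z := fun z => (hf.differentiable (by simp)).differentiableAt
  have hgD : ∀ z, DifferentiableAt ℝ g z := fun z => (hg.differentiable (by simp)).differentiableAt
  have hfd1 : ∀ z v, fderiv ℝ (fun z => 1 - f z - g z) z v = - fderiv ℝ f z v - fderiv ℝ g z v := by
    intro z v
    have h := (((hasFDerivAt_const (1 : ℝ) z).sub (hfD z).hasFDerivAt).sub (hgD z).hasFDerivAt).fderiv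
    have h' : fderiv ℝ (fun z => 1 - f z - g z) z = 0 - fderiv ℝ f z - fderiv ℝ g z := h
    rw [h']
    simp
  have hlp : ∀ z, lap (fun z => 1 - f z - g z) z = - lap f z - lap g z := by
    intro z
    have h1 : ∀ v, DifferentiableAt ℝ (fun w => fderiv ℝ f w v) z := fun v =>
      ((sm_fd hf v).differentiable (by simp)).differentiableAt
    have h2 : ∀ v, DifferentiableAt ℝ (fun w => fderiv ℝ g w v) z := fun v =>
      ((sm_fd hg v).differentiable (by simp)).differentiableAt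
    have h3 : ∀ v, fderiv ℝ (fun w => fderiv ℝ (fun z => 1 - f z - g z) w v) z =
        - fderiv ℝ (fun w => fderiv ℝ f w v) z - fderiv ℝ (fun w => fderiv ℝ g w v) z := by
      intro v
      have e1 : (fun w => fderiv ℝ (fun z => 1 - f z - g z) w v) =
          fun w => - fderiv ℝ f w v - fderiv ℝ g w v := by
        funext w
        exact hfd1 w v
      rw [e1]
      exact (((h1 v).hasFDerivAt.neg).sub (h2 v).hasFDerivAt).fderiv
    rw [lap, lap, lap, h3, h3]
    simp only [sub_apply, neg_apply]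
    ring
  have hcs_g : ∀ {h : ℂ → ℝ}, HasCompactSupport h → HasCompactSupport (gsq h) := by
    intro h hh
    exact hh.of_isClosed_subset (isClosed_tsupport _) (tsupport_gsq h)
  have hcs_l : ∀ {h : ℂ → ℝ}, HasCompactSupport h → HasCompactSupport (lap h) := by
    intro h hh
    exact hh.of_isClosed_subset (isClosed_tsupport _) (tsupport_lap h)
  have hif : Integrable (gsq f) := int_cs (sm_gsq hf).continuous (hcs_g hfc)
  have hig : Integrable (gsq g) := int_cs (sm_gsq hg).continuous (hcs_g hgc)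
  have hlf : Integrable (lap f) := int_cs (sm_lap hf).continuous (hcs_l hfc)
  have hlg : Integrable (lap g) := int_cs (sm_lap hg).continuous (hcs_l hgc)
  have hgq : ∀ z, gsq (fun z => 1 - f z - g z) z ≤ 2 * gsq f z + 2 * gsq g z := by
    intro z
    rw [gsq, gsq, gsq, hfd1, hfd1]
    nlinarith [sq_nonneg (fderiv ℝ f z 1 - fderiv ℝ g z 1),
      sq_nonneg (fderiv ℝ f z Complex.I - fderiv ℝ g z Complex.I)]
  have hgn : ∀ (h : ℂ → ℝ) z, 0 ≤ gsq h z := by
    intro h z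
    rw [gsq]
    positivity
  refine ⟨fun z => 1 - f z - g z, hZs, ?_, ?_, ?_, ?_, ?_, ?_⟩
  · intro z
    have h1 := hf01 z
    have h2 := hg01 z
    rcases hor z with h | h
    · constructor
      · change 0 ≤ 1 - f z - g z
        linarith
      · change 1 - f z - g z ≤ 1
        linarith
    · constructor
      · change 0 ≤ 1 - f z - g z
        linarith
      · change 1 - f z - g z ≤ 1
        linarith
  · filter_upwards [hf1] with z hz
    rcases hor z with h | h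
    · rw [h] at hz
      norm_num at hz
    · rw [hz, h]
      norm_num
  · filter_upwards [hg1] with z hz
    rcases hor z with h | h
    · rw [hz, h]
      norm_num
    · rw [h] at hz
      norm_num at hz
  · intro z h1 h2
    change 1 - f z - g z = 1
    rw [hf0 z (hre.trans h1), hg0 z (hre.trans h2)]
    norm_num
  · have h1 : dirE (fun z => 1 - f z - g z) ≤ ∫ z, (2 * gsq f z + 2 * gsq g z) :=
      integral_mono_of_nonneg (Eventually.of_forall (fun z => hgn _ z))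
        ((hif.const_mul 2).add (hig.const_mul 2)) (Eventually.of_forall hgq)
    have h2 : ∫ z, (2 * gsq f z + 2 * gsq g z) = 2 * dirE f + 2 * dirE g := by
      rw [integral_add (hif.const_mul 2) (hig.const_mul 2), integral_const_mul,
        integral_const_mul]
      rfl
    rw [h2] at h1
    linarith
  · have h1 : ∫ z, |lap (fun z => 1 - f z - g z) z| ≤ ∫ z, (|lap f z| + |lap g z|) := by
      refine integral_mono_of_nonneg (Eventually.of_forall (fun z => abs_nonneg _))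
        (hlf.abs.add hlg.abs) (Eventually.of_forall (fun z => ?_))
      change |lap (fun z => 1 - f z - g z) z| ≤ |lap f z| + |lap g z|
      rw [hlp z, show - lap f z - lap g z = -(lap f z + lap g z) by ring, abs_neg]
      exact abs_add_le _ _
    have h2 : ∫ z, (|lap f z| + |lap g z|) = (∫ z, |lap f z|) + ∫ z, |lap g z| :=
      integral_add hlf.abs hlg.abs
    rw [h2] at h1
    linarith

/- END mhh -/

/- MODULE mhi
Splitting: `A₁`, `A₂` closed, `A₁ ∩ A₂ ⊆ {a, b}`, `Z` as in `two_cut`, `B` a big ball: smooth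
compactly supported `Z₁, Z₂ ≥ 0` with `Z₁ + Z₂ = Z` on `B`, `Z₁ = 0` near `A₂ ∩ B`, `Z₂ = 0` near
`A₁ ∩ B`, and both `= 0` near `a` and near `b`.  (`A_j ∩ tsupport Z ∩ closedBall` are disjoint compact
sets; `exists_contDiff...` Urysohn: smooth `χ = 1` near the first, `= 0` near the second;
`Z₁ = χ Z ρ`, `Z₂ = (1 - χ) Z ρ`, `ρ` a cut-off `= 1` on `B`.) -/
private theorem mhi_urysohn {s t : Set ℂ} (hs : IsClosed s) (ht : IsClosed t) (hd : Disjoint s t) :
    ∃ f : ℂ → ℝ, ContDiff ℝ ∞ f ∧ (∀ᶠ x in 𝓝ˢ s, f x = 0) ∧ (∀ᶠ x in 𝓝ˢ t, f x = 1) ∧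
      ∀ x, f x ∈ Icc (0 : ℝ) 1 := by
  obtain ⟨f, h1, h2, h3⟩ := exists_contMDiffMap_zero_one_nhds_of_isClosed
    (I := modelWithCornersSelf ℝ ℂ) (n := (⊤ : ℕ∞)) hs ht hd
  exact ⟨f, f.contMDiff.contDiff, h1, h2, h3⟩

theorem split_cut {A₁ A₂ : Set ℂ} (h1 : IsClosed A₁) (h2 : IsClosed A₂) {a b : ℂ}
    (hA : A₁ ∩ A₂ ⊆ {a, b}) {Z : ℂ → ℝ} (hZ : ContDiff ℝ ∞ Z) (hZ0 : ∀ z, 0 ≤ Z z)
    (ha : ∀ᶠ z in 𝓝 a, Z z = 0) (hb : ∀ᶠ z in 𝓝 b, Z z = 0) (R : ℝ) :
    ∃ Z₁ Z₂ : ℂ → ℝ, ContDiff ℝ ∞ Z₁ ∧ ContDiff ℝ ∞ Z₂ ∧ HasCompactSupport Z₁ ∧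
      HasCompactSupport Z₂ ∧ (∀ z, 0 ≤ Z₁ z) ∧ (∀ z, 0 ≤ Z₂ z) ∧
      (∀ z, ‖z‖ ≤ R → Z₁ z + Z₂ z = Z z) ∧
      (∀ᶠ z in 𝓝ˢ (A₂ ∪ {a, b}), Z₁ z = 0) ∧ (∀ᶠ z in 𝓝ˢ (A₁ ∪ {a, b}), Z₂ z = 0) := by
  have haS : a ∉ tsupport Z := notMem_tsupport_iff_eventuallyEq.2 ha
  have hbS : b ∉ tsupport Z := notMem_tsupport_iff_eventuallyEq.2 hb
  have hSc : IsClosed (tsupport Z) := isClosed_tsupport Z
  have hdisj : Disjoint (A₂ ∩ tsupport Z) (A₁ ∩ tsupport Z) := by
    rw [Set.disjoint_left]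
    rintro z ⟨hz2, hzS⟩ ⟨hz1, _⟩
    rcases hA ⟨hz1, hz2⟩ with h | h
    · exact haS (h ▸ hzS)
    · rw [Set.mem_singleton_iff] at h
      exact hbS (h ▸ hzS)
  obtain ⟨χ, hχ, hχ0, hχ1, hχ01⟩ := mhi_urysohn (h2.inter hSc) (h1.inter hSc) hdisj
  let ρ : ContDiffBump (0 : ℂ) := ⟨|R| + 1, |R| + 2, by positivity, by linarith⟩
  have hρs : ContDiff ℝ ∞ (ρ : ℂ → ℝ) := ρ.contDiff
  have hρc : HasCompactSupport (ρ : ℂ → ℝ) := ρ.hasCompactSupport
  have hρ0 : ∀ z, 0 ≤ ρ z := fun z => ρ.nonneg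
  have hρ1 : ∀ z : ℂ, ‖z‖ ≤ R → ρ z = 1 := by
    intro z hz
    apply ρ.one_of_mem_closedBall
    rw [mem_closedBall_zero_iff]
    change ‖z‖ ≤ |R| + 1
    linarith [le_abs_self R]
  have hnear : ∀ (A : Set ℂ) (f : ℂ → ℝ), (∀ᶠ x in 𝓝ˢ (A ∩ tsupport Z), f x = 0) →
      ∀ᶠ z in 𝓝ˢ (A ∪ {a, b}), f z * Z z * ρ z = 0 := by
    intro A f hf
    rw [eventually_nhdsSet_iff_forall] at hf ⊢
    intro x hx
    by_cases hxS : x ∈ tsupport Z
    · rcases hx with hx | hx
      · filter_upwards [hf x ⟨hx, hxS⟩] with z hz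
        rw [hz, zero_mul, zero_mul]
      · rcases hx with h | h
        · exact absurd (h ▸ hxS) haS
        · rw [Set.mem_singleton_iff] at h
          exact absurd (h ▸ hxS) hbS
    · have := notMem_tsupport_iff_eventuallyEq.1 hxS
      filter_upwards [this] with z hz
      rw [hz, Pi.zero_apply, mul_zero, zero_mul]
  refine ⟨fun z => χ z * Z z * ρ z, fun z => (1 - χ z) * Z z * ρ z, (hχ.mul hZ).mul hρs,
    ((contDiff_const.sub hχ).mul hZ).mul hρs, hρc.mul_left, hρc.mul_left, ?_, ?_, ?_, ?_, ?_⟩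
  · intro z
    exact mul_nonneg (mul_nonneg (hχ01 z).1 (hZ0 z)) (hρ0 z)
  · intro z
    exact mul_nonneg (mul_nonneg (by linarith [(hχ01 z).2]) (hZ0 z)) (hρ0 z)
  · intro z hz
    simp only [hρ1 z hz]
    ring
  · exact hnear A₂ χ hχ0
  · refine hnear A₁ (fun z => 1 - χ z) ?_
    filter_upwards [hχ1] with z hz
    rw [hz, sub_self]

/- END mhi -/

end Pool.Agent.Hmk.Cn
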