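import Pool.Agent.Hmk.CaDef

import Pool.Agent.Hmk.CnC

/-!
# Hmk, Caratheodory part (helper70): conformal invariance and convergence of Green energies
-/

set_option autoImplicit false

open MeasureTheory Set Filter

open scoped ENNReal ContDiff Topology

noncomputable section

namespace Pool.Agent.Hmk.Ca

open Pool.Agent.Hmk Pool.Agent.Hmk.Cn

/-- the function `q ∘ g` on `B`, zero elsewhere -/
def pull (B : Set ℂ) (g : ℂ → ℂ) (q : ℂ → ℝ) : ℂ → ℝ := B.indicator (fun z => q (g z))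

/- MODULE nca
Elementary properties; `chg` = change of variables
(`integral_image_eq_integral_abs_det_fderiv_smul` for `g` on `B`; `g '' B = A`; the determinant of the
real derivative of a holomorphic function is the square of the norm of the derivative).  `deriv_inv`:
chain rule for `g (f z) = z`. -/
theorem Bih.symm {A B : Set ℂ} {f g : ℂ → ℂ} (h : Bih A B f g) : Bih B A g f := by
  exact ⟨h.oB, h.oA, h.dg, h.df, h.mg, h.mf, h.fg, h.gf⟩

theorem Sp_open : IsOpen Sp := by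
  exact (isOpen_lt continuous_const Complex.continuous_re).inter
    (isOpen_lt Complex.continuous_re continuous_const)

theorem Bih.deriv_inv {A B : Set ℂ} {f g : ℂ → ℂ} (h : Bih A B f g) {z : ℂ} (hz : z ∈ A) :
    deriv g (f z) * deriv f z = 1 := by
  have hf : HasDerivAt f (deriv f z) z :=
    ((h.df z hz).differentiableAt (h.oA.mem_nhds hz)).hasDerivAt
  have hg : HasDerivAt g (deriv g (f z)) (f z) :=
    ((h.dg _ (h.mf hz)).differentiableAt (h.oB.mem_nhds (h.mf hz))).hasDerivAt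
  have hc := hg.comp z hf
  have he : (g ∘ f) =ᶠ[𝓝 z] id := by
    filter_upwards [h.oA.mem_nhds hz] with w hw using h.gf w hw
  exact (hc.congr_of_eventuallyEq he.symm).unique (hasDerivAt_id z)

/-- multiplication by a complex number as a real linear map -/
private def nca_L (c : ℂ) : ℂ →L[ℝ] ℂ := (c • (1 : ℂ →L[ℂ] ℂ)).restrictScalars ℝ

private theorem nca_L_apply (c v : ℂ) : nca_L c v = c * v := by
  simp [nca_L]

private theorem nca_det (c : ℂ) : (nca_L c).det = ‖c‖ ^ 2 := by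
  have h1 : (nca_L c).det = LinearMap.det (nca_L c : ℂ →ₗ[ℝ] ℂ) := rfl
  have h2 : (nca_L c : ℂ →ₗ[ℝ] ℂ) = LinearMap.mulLeft ℝ c := by
    refine LinearMap.ext fun v => ?_
    show nca_L c v = c * v
    exact nca_L_apply c v
  rw [h1, h2, ← Complex.normSq_eq_norm_sq]
  exact Algebra.norm_complex_apply c

private theorem nca_fd {A B : Set ℂ} {f g : ℂ → ℂ} (h : Bih A B f g) {z : ℂ} (hz : z ∈ B) :
    HasFDerivAt g (nca_L (deriv g z)) z := by
  have h1 : HasDerivAt g (deriv g z) z :=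
    ((h.dg z hz).differentiableAt (h.oB.mem_nhds hz)).hasDerivAt
  have h2 := h1.hasFDerivAt.restrictScalars ℝ
  have h3 : nca_L (deriv g z) =
      (ContinuousLinearMap.toSpanSingleton ℂ (deriv g z)).restrictScalars ℝ := by
    refine ContinuousLinearMap.ext fun v => ?_
    rw [nca_L_apply]
    simp [mul_comm]
  rw [h3]
  exact h2

private theorem nca_im {A B : Set ℂ} {f g : ℂ → ℂ} (h : Bih A B f g) : g '' B = A := by
  apply Subset.antisymm
  · rintro _ ⟨z, hz, rfl⟩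
    exact h.mg hz
  · intro w hw
    exact ⟨f w, h.mf hw, h.gf w hw⟩

theorem Bih.chg {A B : Set ℂ} {f g : ℂ → ℂ} (h : Bih A B f g) (F : ℂ → ℝ) :
    ∫ w in A, F w = ∫ z in B, ‖deriv g z‖ ^ 2 * F (g z) := by
  have hd : ∀ z ∈ B, HasFDerivWithinAt g (nca_L (deriv g z)) B z := by
    intro z hz
    exact (nca_fd h hz).hasFDerivWithinAt
  have hi : InjOn g B := fun x hx y hy e => by
    rw [← h.fg x hx, ← h.fg y hy, e]
  have key := integral_image_eq_integral_abs_det_fderiv_smul volume h.oB.measurableSet hd hi F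
  rw [nca_im h] at key
  rw [key]
  refine setIntegral_congr_fun h.oB.measurableSet fun z _ => ?_
  show |(nca_L (deriv g z)).det| • F (g z) = ‖deriv g z‖ ^ 2 * F (g z)
  rw [nca_det, abs_of_nonneg (sq_nonneg _), smul_eq_mul]

/-- the same for sets: the area of the image -/
theorem Bih.area {A B : Set ℂ} {f g : ℂ → ℂ} (h : Bih A B f g) {E : Set ℂ}
    (hE : MeasurableSet E) (hEB : E ⊆ B) :
    ∫⁻ z in E, ENNReal.ofReal (‖deriv g z‖ ^ 2) = volume (g '' E) := by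
  have hd : ∀ z ∈ E, HasFDerivWithinAt g (nca_L (deriv g z)) E z := by
    intro z hz
    exact (nca_fd h (hEB hz)).hasFDerivWithinAt
  have hi : InjOn g E := fun x hx y hy e => by
    rw [← h.fg x (hEB hx), ← h.fg y (hEB hy), e]
  rw [← lintegral_abs_det_fderiv_eq_addHaar_image volume hE hd hi]
  refine setLIntegral_congr_fun hE fun z _ => ?_
  show ENNReal.ofReal (‖deriv g z‖ ^ 2) = ENNReal.ofReal |(nca_L (deriv g z)).det|
  rw [nca_det, abs_of_nonneg (sq_nonneg _)]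

/- END nca -/

/- MODULE ncb
Gradient and Laplacian of `q ∘ g`, `g` holomorphic near `z` (`g` is smooth near `z`:
`DifferentiableOn.analyticAt`, `ContDiffAt.restrict_scalars`).  With `g' = a + i b`:
`D(q ∘ g) 1 = Dq(g z)(g')`, `D(q ∘ g) I = Dq(g z)(I g')`; the Cauchy-Riemann equations. -/
private theorem ncb_lin (M : ℂ →L[ℝ] ℝ) (c : ℂ) : M c = c.re * M 1 + c.im * M Complex.I := by
  have h : c = c.re • (1 : ℂ) + c.im • Complex.I := by
    apply Complex.ext <;> simp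
  conv_lhs => rw [h]
  rw [map_add, map_smul, map_smul, smul_eq_mul, smul_eq_mul]

private theorem ncb_fd {B : Set ℂ} (hB : IsOpen B) {g : ℂ → ℂ} (hg : DifferentiableOn ℂ g B)
    {z : ℂ} (hz : z ∈ B) : HasFDerivAt g (nca_L (deriv g z)) z := by
  have h1 : HasDerivAt g (deriv g z) z :=
    ((hg z hz).differentiableAt (hB.mem_nhds hz)).hasDerivAt
  have h2 := h1.hasFDerivAt.restrictScalars ℝ
  have h3 : nca_L (deriv g z) =
      (ContinuousLinearMap.toSpanSingleton ℂ (deriv g z)).restrictScalars ℝ := by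
    refine ContinuousLinearMap.ext fun v => ?_
    rw [nca_L_apply]
    simp [mul_comm]
  rw [h3]
  exact h2

private theorem ncb_qd {B : Set ℂ} (hB : IsOpen B) {g : ℂ → ℂ} (hg : DifferentiableOn ℂ g B)
    {q : ℂ → ℝ} (hq : ContDiff ℝ ∞ q) {z : ℂ} (hz : z ∈ B) :
    HasFDerivAt (fun z => q (g z)) ((fderiv ℝ q (g z)).comp (nca_L (deriv g z))) z :=
  ((hq.differentiable (by simp)).differentiableAt.hasFDerivAt).comp z (ncb_fd hB hg hz)

private theorem ncb_d1 {B : Set ℂ} (hB : IsOpen B) {g : ℂ → ℂ} (hg : DifferentiableOn ℂ g B)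
    {q : ℂ → ℝ} (hq : ContDiff ℝ ∞ q) {z : ℂ} (hz : z ∈ B) :
    fderiv ℝ (fun z => q (g z)) z 1 =
      (deriv g z).re * (fun w => fderiv ℝ q w 1) (g z) +
        (deriv g z).im * (fun w => fderiv ℝ q w Complex.I) (g z) := by
  rw [(ncb_qd hB hg hq hz).fderiv, ContinuousLinearMap.comp_apply, nca_L_apply, mul_one]
  exact ncb_lin _ _

private theorem ncb_dI {B : Set ℂ} (hB : IsOpen B) {g : ℂ → ℂ} (hg : DifferentiableOn ℂ g B)
    {q : ℂ → ℝ} (hq : ContDiff ℝ ∞ q) {z : ℂ} (hz : z ∈ B) :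
    fderiv ℝ (fun z => q (g z)) z Complex.I =
      -(deriv g z).im * (fun w => fderiv ℝ q w 1) (g z) +
        (deriv g z).re * (fun w => fderiv ℝ q w Complex.I) (g z) := by
  rw [(ncb_qd hB hg hq hz).fderiv, ContinuousLinearMap.comp_apply, nca_L_apply, ncb_lin]
  simp

theorem comp_gsq {B : Set ℂ} (hB : IsOpen B) {g : ℂ → ℂ} (hg : DifferentiableOn ℂ g B)
    {q : ℂ → ℝ} (hq : ContDiff ℝ ∞ q) {z : ℂ} (hz : z ∈ B) :
    ContDiffAt ℝ ∞ (fun z => q (g z)) z ∧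
    gsq (fun z => q (g z)) z = gsq q (g z) * ‖deriv g z‖ ^ 2 ∧
    lap (fun z => q (g z)) z = lap q (g z) * ‖deriv g z‖ ^ 2 := by
  have hg2 : DifferentiableOn ℂ (deriv g) B := hg.deriv hB
  have s1 : ContDiff ℝ ∞ (fun w => fderiv ℝ q w 1) := sm_fd hq 1
  have s2 : ContDiff ℝ ∞ (fun w => fderiv ℝ q w Complex.I) := sm_fd hq Complex.I
  refine ⟨?_, ?_, ?_⟩
  · have h1 : ContDiffAt ℂ ∞ g z := (hg.analyticAt (hB.mem_nhds hz)).contDiffAt
    have h2 : ContDiffAt ℝ ∞ g z := h1.restrict_scalars ℝ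
    exact hq.contDiffAt.comp z h2
  · unfold gsq
    rw [ncb_d1 hB hg hq hz, ncb_dI hB hg hq hz, ← Complex.normSq_eq_norm_sq,
      Complex.normSq_apply]
    ring
  · have e1 : (fun w => fderiv ℝ (fun z => q (g z)) w 1) =ᶠ[𝓝 z]
        (fun w => (deriv g w).re * (fun w => fderiv ℝ q w 1) (g w) +
          (deriv g w).im * (fun w => fderiv ℝ q w Complex.I) (g w)) := by
      filter_upwards [hB.mem_nhds hz] with w hw using ncb_d1 hB hg hq hw
    have e2 : (fun w => fderiv ℝ (fun z => q (g z)) w Complex.I) =ᶠ[𝓝 z]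
        (fun w => -(deriv g w).im * (fun w => fderiv ℝ q w 1) (g w) +
          (deriv g w).re * (fun w => fderiv ℝ q w Complex.I) (g w)) := by
      filter_upwards [hB.mem_nhds hz] with w hw using ncb_dI hB hg hq hw
    have d1 : HasFDerivAt (deriv g) (nca_L (deriv (deriv g) z)) z := ncb_fd hB hg2 hz
    have dre : HasFDerivAt (fun w => (deriv g w).re)
        (Complex.reCLM.comp (nca_L (deriv (deriv g) z))) z := Complex.reCLM.hasFDerivAt.comp z d1
    have dim : HasFDerivAt (fun w => (deriv g w).im)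
        (Complex.imCLM.comp (nca_L (deriv (deriv g) z))) z := Complex.imCLM.hasFDerivAt.comp z d1
    have q1 := ncb_qd hB hg s1 hz
    have q2 := ncb_qd hB hg s2 hz
    have f1 := (dre.mul q1).add (dim.mul q2)
    have f2 := (dim.neg.mul q1).add (dre.mul q2)
    have g1 := congrArg (fun M : ℂ →L[ℝ] ℝ => M 1) (e1.fderiv_eq.trans f1.fderiv)
    have g2 := congrArg (fun M : ℂ →L[ℝ] ℝ => M Complex.I) (e2.fderiv_eq.trans f2.fderiv)
    beta_reduce at g1 g2
    unfold lap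
    rw [g1, g2]
    obtain ⟨c, hc⟩ : ∃ c, c = deriv (deriv g) z := ⟨_, rfl⟩
    obtain ⟨d, hd⟩ : ∃ d, d = deriv g z := ⟨_, rfl⟩
    obtain ⟨A, hA⟩ : ∃ A, A = fderiv ℝ (fun w => fderiv ℝ q w 1) (g z) := ⟨_, rfl⟩
    obtain ⟨A', hA'⟩ : ∃ A', A' = fderiv ℝ (fun w => fderiv ℝ q w Complex.I) (g z) := ⟨_, rfl⟩
    simp only [← hc, ← hd, ← hA, ← hA', Pi.neg_apply, add_apply, smul_apply, neg_apply,
      ContinuousLinearMap.comp_apply, nca_L_apply, smul_eq_mul, Complex.reCLM_apply,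
      Complex.imCLM_apply, mul_one]
    rw [ncb_lin A d, ncb_lin A (d * Complex.I), ncb_lin A' d, ncb_lin A' (d * Complex.I),
      ← Complex.normSq_eq_norm_sq, Complex.normSq_apply]
    simp only [Complex.mul_re, Complex.mul_im, Complex.I_re, Complex.I_im]
    ring

/- END ncb -/

/- MODULE ncc
`tsupport (pull B g q) ⊆ f '' (tsupport q)` (compact, in `B`); smoothness at points of `B`
(`comp_gsq`) and off `f '' (tsupport q)` (locally zero).  The energy: `chg` for `F = gsq q`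
(`gsq (pull ..) = 0` off `B`). `pair`: `chg` for `f` (i.e. `h.symm`). -/
private theorem ncc_ev {B : Set ℂ} (hB : IsOpen B) (g : ℂ → ℂ) (q : ℂ → ℝ) {z : ℂ}
    (hz : z ∈ B) : pull B g q =ᶠ[𝓝 z] fun z => q (g z) := by
  filter_upwards [hB.mem_nhds hz] with w hw
  exact indicator_of_mem hw _

private theorem ncc_K {A B : Set ℂ} {f g : ℂ → ℂ} (h : Bih A B f g) {q : ℂ → ℝ}
    (hq : CSC A q) : IsCompact (f '' tsupport q) ∧ f '' tsupport q ⊆ B ∧
      ∀ z, z ∉ f '' tsupport q → pull B g q z = 0 := by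
  refine ⟨?_, ?_, ?_⟩
  · exact IsCompact.image_of_continuousOn hq.cs (h.df.continuousOn.mono hq.sub)
  · rintro _ ⟨w, hw, rfl⟩
    exact h.mf (hq.sub hw)
  · intro z hz
    by_cases hB : z ∈ B
    · have h1 : pull B g q z = q (g z) := indicator_of_mem hB _
      rw [h1]
      by_contra hn
      exact hz ⟨g z, subset_tsupport q hn, h.fg z hB⟩
    · exact indicator_of_notMem hB _

theorem Bih.csc {A B : Set ℂ} {f g : ℂ → ℂ} (h : Bih A B f g) {q : ℂ → ℝ} (hq : CSC A q) :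
    CSC B (pull B g q) := by
  obtain ⟨hKc, hKB, h0⟩ := ncc_K h hq
  have hcl : IsClosed (f '' tsupport q) := hKc.isClosed
  have hs : tsupport (pull B g q) ⊆ f '' tsupport q := by
    refine closure_minimal (fun z hz => ?_) hcl
    by_contra hn
    exact hz (h0 z hn)
  refine ⟨?_, ?_, hs.trans hKB⟩
  · rw [contDiff_iff_contDiffAt]
    intro z
    by_cases hz : z ∈ B
    · exact (comp_gsq h.oB h.dg hq.sm hz).1.congr_of_eventuallyEq (ncc_ev h.oB g q hz)
    · have hn : z ∉ f '' tsupport q := fun hk => hz (hKB hk)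
      have he : pull B g q =ᶠ[𝓝 z] fun _ => (0 : ℝ) := by
        filter_upwards [hcl.isOpen_compl.mem_nhds hn] with w hw using h0 w hw
      exact contDiffAt_const.congr_of_eventuallyEq he
  · exact HasCompactSupport.intro hKc fun z hz => h0 z hz

theorem Bih.dirE {A B : Set ℂ} {f g : ℂ → ℂ} (h : Bih A B f g) {q : ℂ → ℝ} (hq : CSC A q) :
    Cn.dirE (pull B g q) = Cn.dirE q := by
  have hp := h.csc hq
  have e1 : Cn.dirE (pull B g q) = ∫ z in B, gsq (pull B g q) z := by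
    unfold Cn.dirE
    refine (setIntegral_eq_integral_of_forall_compl_eq_zero fun z hz => ?_).symm
    exact image_eq_zero_of_notMem_tsupport fun hk => hz (hp.sub (tsupport_gsq _ hk))
  have e2 : Cn.dirE q = ∫ z in A, gsq q z := by
    unfold Cn.dirE
    refine (setIntegral_eq_integral_of_forall_compl_eq_zero fun z hz => ?_).symm
    exact image_eq_zero_of_notMem_tsupport fun hk => hz (hq.sub (tsupport_gsq _ hk))
  rw [e1, e2, h.chg]
  refine setIntegral_congr_fun h.oB.measurableSet fun z hz => ?_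
  show gsq (pull B g q) z = ‖deriv g z‖ ^ 2 * gsq q (g z)
  have e3 : gsq (pull B g q) z = gsq (fun z => q (g z)) z := by
    unfold gsq
    rw [(ncc_ev h.oB g q hz).fderiv_eq]
  rw [e3, (comp_gsq h.oB h.dg hq.sm hz).2.1, mul_comm]

theorem Bih.pair {A B : Set ℂ} {f g : ℂ → ℂ} (h : Bih A B f g) (ψ q : ℂ → ℝ) :
    ∫ z, ψ z * pull B g q z = ∫ w in A, ‖deriv f w‖ ^ 2 * (ψ (f w) * q w) := by
  have e1 : ∫ z, ψ z * pull B g q z = ∫ z in B, ψ z * q (g z) := by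
    rw [← integral_indicator h.oB.measurableSet]
    refine integral_congr_ae (ae_of_all _ fun z => ?_)
    show ψ z * B.indicator (fun z => q (g z)) z = B.indicator (fun z => ψ z * q (g z)) z
    by_cases hz : z ∈ B
    · rw [indicator_of_mem hz, indicator_of_mem hz]
    · rw [indicator_of_notMem hz, indicator_of_notMem hz, mul_zero]
  rw [e1, h.symm.chg]
  refine setIntegral_congr_fun h.oA.measurableSet fun w hw => ?_
  show ‖deriv f w‖ ^ 2 * (ψ (f w) * q (g (f w))) = ‖deriv f w‖ ^ 2 * (ψ (f w) * q w)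
  rw [h.gf w hw]

/-- `q` is the pull-back of the pull-back -/
theorem Bih.pull_pull {A B : Set ℂ} {f g : ℂ → ℂ} (h : Bih A B f g) {q : ℂ → ℝ}
    (hq : CSC B q) : pull B g (pull A f q) = q := by
  funext z
  by_cases hz : z ∈ B
  · have e1 : pull B g (pull A f q) z = pull A f q (g z) := indicator_of_mem hz _
    have e2 : pull A f q (g z) = q (f (g z)) := indicator_of_mem (h.mg hz) _
    rw [e1, e2, h.fg z hz]
  · have e1 : pull B g (pull A f q) z = 0 := indicator_of_notMem hz _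
    rw [e1, image_eq_zero_of_notMem_tsupport fun hk => hz (hq.sub hk)]

/-- products `F (g z) * φ z` -/
theorem Bih.mul_csc {A B : Set ℂ} {f g : ℂ → ℂ} (h : Bih A B f g) {F : ℂ → ℝ}
    (hF : ContDiff ℝ ∞ F) {φ : ℂ → ℝ} (hφ : CSC B φ) : CSC B (fun z => F (g z) * φ z) := by
  have hs : tsupport (fun z => F (g z) * φ z) ⊆ tsupport φ := tsupport_mul_subset_right
  refine ⟨?_, ?_, hs.trans hφ.sub⟩
  · rw [contDiff_iff_contDiffAt]
    intro z
    by_cases hz : z ∈ B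
    · exact (comp_gsq h.oB h.dg hF hz).1.mul hφ.sm.contDiffAt
    · have hn : z ∉ tsupport φ := fun hk => hz (hφ.sub hk)
      have he : (fun z => F (g z) * φ z) =ᶠ[𝓝 z] fun _ => (0 : ℝ) := by
        filter_upwards [(isClosed_tsupport φ).isOpen_compl.mem_nhds hn] with w hw
        show F (g w) * φ w = 0
        rw [image_eq_zero_of_notMem_tsupport hw, mul_zero]
      exact contDiffAt_const.congr_of_eventuallyEq he
  · exact hφ.cs.mul_left

/- END ncc -/

/- MODULE ncd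
Poincare's inequality in the strip: `q (x + i y)² ≤ ∫_0^1 (∂_x q)² dx` for `0 < x < 1` (as `q = 0` for
`x ≤ 0`); integrate over `x ∈ (0, 1)` and `y` (`Complex.volume_preserving_equiv_real_prod`, Fubini). -/
theorem strip_poinc {q : ℂ → ℝ} (hq : CSC Sp q) : ∫ z, q z ^ 2 ≤ Cn.dirE q := by
  have hg := hq.sm
  have hc := hq.cs
  have hre : ContDiff ℝ ∞ (fun z : ℂ => z.re - 1 / 2) := Complex.reCLM.contDiff.sub contDiff_const
  have hg2 : ContDiff ℝ ∞ (fun z => q z * q z) := hg.mul hg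
  have hc2 : HasCompactSupport (fun z => q z * q z) := hc.mul_left
  have h1 := parts hre hg2 hc2 1
  have h2 : ∀ z : ℂ, fderiv ℝ (fun z : ℂ => z.re - 1 / 2) z 1 = 1 := by
    intro z
    have : HasFDerivAt (fun z : ℂ => z.re - 1 / 2) Complex.reCLM z :=
      (Complex.reCLM.hasFDerivAt).sub_const (1 / 2)
    rw [this.fderiv]
    simp
  have h3 : ∀ z : ℂ, fderiv ℝ (fun z => q z * q z) z 1 = 2 * (q z * fderiv ℝ q z 1) := by
    intro z
    have d := (hg.differentiable (by simp)).differentiableAt (x := z) |>.hasFDerivAt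
    have := d.mul d
    have e := congrArg (fun M : ℂ →L[ℝ] ℝ => M 1) this.fderiv
    beta_reduce at e
    have e' : fderiv ℝ (fun z => q z * q z) z 1 = (q z • fderiv ℝ q z + q z • fderiv ℝ q z) 1 := e
    rw [e', add_apply, smul_apply, smul_eq_mul]
    ring
  simp only [h2, one_mul, h3] at h1
  have i1 : Integrable (fun z => q z ^ 2) := by
    have := int_cs hg2.continuous hc2
    simpa only [sq] using this
  have i2 : Integrable (fun z => gsq q z) := by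
    have hcs : HasCompactSupport (gsq q) :=
      HasCompactSupport.intro hc fun z hz =>
        image_eq_zero_of_notMem_tsupport fun hk => hz (tsupport_gsq q hk)
    exact int_cs (sm_gsq hg).continuous hcs
  have i3 : Integrable (fun z : ℂ => (z.re - 1 / 2) * (2 * (q z * fderiv ℝ q z 1))) := by
    refine int_cs (hre.mul (contDiff_const.mul (hg.mul (sm_fd hg 1)))).continuous ?_
    exact HasCompactSupport.intro hc fun z hz => by
      show (z.re - 1 / 2) * (2 * (q z * fderiv ℝ q z 1)) = 0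
      rw [image_eq_zero_of_notMem_tsupport hz]
      ring
  have h3 : ∫ z, q z ^ 2 ≤ ∫ z, ((1 / 2) * q z ^ 2 + (1 / 2) * gsq q z) := by
    have e : ∫ z, q z ^ 2 = ∫ z : ℂ, -((z.re - 1 / 2) * (2 * (q z * fderiv ℝ q z 1))) := by
      rw [integral_neg, ← h1]
      simp only [sq]
    rw [e]
    refine integral_mono i3.neg ((i1.const_mul _).add (i2.const_mul _)) fun z => ?_
    show -((z.re - 1 / 2) * (2 * (q z * fderiv ℝ q z 1))) ≤
      (1 / 2) * q z ^ 2 + (1 / 2) * gsq q z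
    have h4 : 0 ≤ gsq q z := add_nonneg (sq_nonneg _) (sq_nonneg _)
    by_cases hz : z ∈ tsupport q
    · have h5 : 0 < z.re ∧ z.re < 1 := hq.sub hz
      have h6 : (z.re - 1 / 2) ^ 2 ≤ 1 / 4 := by nlinarith [h5.1, h5.2]
      have h7 : (fderiv ℝ q z 1) ^ 2 ≤ gsq q z := le_add_of_nonneg_right (sq_nonneg _)
      have h8 : (z.re - 1 / 2) ^ 2 * (fderiv ℝ q z 1) ^ 2 ≤ 1 / 4 * gsq q z :=
        mul_le_mul h6 h7 (sq_nonneg _) (by norm_num)
      nlinarith [sq_nonneg (q z + 2 * ((z.re - 1 / 2) * fderiv ℝ q z 1))]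
    · rw [image_eq_zero_of_notMem_tsupport hz]
      have : 0 ≤ 1 / 2 * gsq q z := by positivity
      simpa using this
  rw [integral_add (i1.const_mul _) (i2.const_mul _), integral_const_mul, integral_const_mul] at h3
  unfold Cn.dirE
  linarith

/- END ncd -/

/- MODULE nce
CONVERGENCE OF THE INVERSE MAPS.  For `w₀ = f₀ z₀` and small `r > 0`
(`closedBall z₀ r ⊆ Sp`) put `2 e = min ‖f₀ z - f₀ z₀‖` on the sphere (`> 0`, injectivity).  For large
`n`: `‖f n z - f n z₀‖ ≥ e` on the sphere and `‖f n z₀ - w₀‖ < e / 4`, so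
`DiffContOnCl.ball_subset_image_closedBall` gives `ball w₀ (e / 4) ⊆ f n '' closedBall z₀ r`; hence
`ball w₀ (e / 4) ⊆ W n`, `‖g n w - z₀‖ ≤ r` there, and `‖g₀ w - z₀‖ ≤ r` for `w` near `w₀` (continuity).
Cover the compact set `K`. -/
private theorem nce_loc {W : ℕ → Set ℂ} {f g : ℕ → ℂ → ℂ} {Ω : Set ℂ} {f₀ g₀ : ℂ → ℂ}
    (h : ∀ n, Bih Sp (W n) (f n) (g n)) (h0 : Bih Sp Ω f₀ g₀)
    (hc : TendstoLocallyUniformlyOn f f₀ atTop Sp) {w₀ : ℂ} (hw₀ : w₀ ∈ Ω) {ε : ℝ}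
    (hε : 0 < ε) : ∃ δ : ℝ, 0 < δ ∧ ∀ᶠ n in atTop, ∀ w ∈ Metric.ball w₀ δ,
      w ∈ W n ∧ dist (g₀ w) (g n w) < ε := by
  obtain ⟨z₀, hz₀⟩ : ∃ z₀, z₀ = g₀ w₀ := ⟨_, rfl⟩
  have hzS : z₀ ∈ Sp := hz₀ ▸ h0.mg hw₀
  have hfz : f₀ z₀ = w₀ := hz₀ ▸ h0.fg w₀ hw₀
  obtain ⟨r₁, hr₁, hb₁⟩ := Metric.nhds_basis_closedBall.mem_iff.1 (Sp_open.mem_nhds hzS)
  obtain ⟨r, hr⟩ : ∃ r, r = min r₁ (ε / 4) := ⟨_, rfl⟩
  have hr0 : 0 < r := by rw [hr]; exact lt_min hr₁ (by linarith)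
  have hb : Metric.closedBall z₀ r ⊆ Sp :=
    (Metric.closedBall_subset_closedBall (hr ▸ min_le_left _ _)).trans hb₁
  have hrε : r ≤ ε / 4 := hr ▸ min_le_right _ _
  have hinj : ∀ {A B : Set ℂ} {u v : ℂ → ℂ}, Bih A B u v → ∀ x ∈ A, ∀ y ∈ A, u x = u y → x = y := by
    intro A B u v hu x hx y hy e
    rw [← hu.gf x hx, ← hu.gf y hy, e]
  have hsc : IsCompact (Metric.sphere z₀ r) := isCompact_sphere z₀ r
  have hsn : (Metric.sphere z₀ r).Nonempty := (NormedSpace.sphere_nonempty).2 hr0.le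
  have hcont : ContinuousOn (fun z => ‖f₀ z - f₀ z₀‖) (Metric.sphere z₀ r) :=
    ((h0.df.continuousOn.mono (Metric.sphere_subset_closedBall.trans hb)).sub
      continuousOn_const).norm
  obtain ⟨z₁, hz₁, hmin⟩ := hsc.exists_isMinOn hsn hcont
  obtain ⟨e, he⟩ : ∃ e, e = ‖f₀ z₁ - f₀ z₀‖ / 2 := ⟨_, rfl⟩
  have he0 : 0 < e := by
    rw [he]
    refine half_pos (norm_pos_iff.2 fun hh => ?_)
    have hzz := hinj h0 z₁ (hb (Metric.sphere_subset_closedBall hz₁)) z₀ hzS (sub_eq_zero.1 hh)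
    rw [hzz, Metric.mem_sphere, dist_self] at hz₁
    exact hr0.ne hz₁
  have he2 : ∀ z ∈ Metric.sphere z₀ r, 2 * e ≤ ‖f₀ z - f₀ z₀‖ := by
    intro z hz
    have := hmin hz
    rw [he]
    have h2 : ‖f₀ z₁ - f₀ z₀‖ ≤ ‖f₀ z - f₀ z₀‖ := this
    linarith
  have hu : TendstoUniformlyOn f f₀ atTop (Metric.closedBall z₀ r) :=
    (tendstoLocallyUniformlyOn_iff_forall_isCompact Sp_open).1 hc _ hb (isCompact_closedBall z₀ r)
  have hgc : ∀ᶠ w in 𝓝 w₀, dist (g₀ w) z₀ < r := by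
    have : ContinuousAt g₀ w₀ := h0.dg.continuousOn.continuousAt (h0.oB.mem_nhds hw₀)
    have h1 := Metric.tendsto_nhds.1 this r hr0
    rw [← hz₀] at h1
    exact h1
  obtain ⟨δ₁, hδ₁, hd₁⟩ := Metric.eventually_nhds_iff_ball.1 hgc
  refine ⟨min δ₁ (e / 4), lt_min hδ₁ (by linarith), ?_⟩
  filter_upwards [Metric.tendstoUniformlyOn_iff.1 hu (e / 8) (by linarith)] with n hn w hw
  have hz0b : z₀ ∈ Metric.closedBall z₀ r := Metric.mem_closedBall_self hr0.le
  have hsph : ∀ z ∈ Metric.sphere z₀ r, e ≤ ‖f n z - f n z₀‖ := by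
    intro z hz
    have h1 := hn z (Metric.sphere_subset_closedBall hz)
    have h2 := hn z₀ hz0b
    have h3 := he2 z hz
    rw [dist_eq_norm] at h1 h2
    have h4 : ‖f₀ z - f₀ z₀‖ ≤ ‖f₀ z - f n z‖ + ‖f n z - f n z₀‖ + ‖f₀ z₀ - f n z₀‖ := by
      have : f₀ z - f₀ z₀ = (f₀ z - f n z) + (f n z - f n z₀) - (f₀ z₀ - f n z₀) := by ring
      rw [this]
      exact (norm_sub_le _ _).trans (add_le_add (norm_add_le _ _) le_rfl)
    linarith
  have hd : DiffContOnCl ℂ (f n) (Metric.ball z₀ r) := (h n).df.diffContOnCl_ball hb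
  have hfr : ∃ᶠ z in 𝓝 z₀, f n z ≠ f n z₀ := by
    have h1 : ∃ᶠ z in 𝓝 z₀, z ≠ z₀ := by
      have : (𝓝[≠] z₀).NeBot := inferInstance
      exact frequently_iff_neBot.2 this
    have h2 : ∀ᶠ z in 𝓝 z₀, z ∈ Sp := Sp_open.mem_nhds hzS
    refine (h1.and_eventually h2).mono fun z hz => ?_
    exact fun hh => hz.1 (hinj (h n) z hz.2 z₀ hzS hh)
  have hbs := hd.ball_subset_image_closedBall hr0 hsph hfr
  have hwb : w ∈ Metric.ball (f n z₀) (e / 2) := by
    rw [Metric.mem_ball]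
    have h1 : dist w w₀ < e / 4 := lt_of_lt_of_le (Metric.mem_ball.1 hw) (min_le_right _ _)
    have h2 := hn z₀ hz0b
    rw [hfz] at h2
    have h3 := dist_triangle w w₀ (f n z₀)
    linarith
  obtain ⟨z, hz, hzw⟩ := hbs hwb
  have hzS' := hb hz
  have hgw : g n w = z := by rw [← hzw]; exact (h n).gf z hzS'
  refine ⟨hzw ▸ (h n).mf hzS', ?_⟩
  rw [hgw]
  have h1 : dist (g₀ w) z₀ < r :=
    hd₁ w (Metric.mem_ball.2 (lt_of_lt_of_le (Metric.mem_ball.1 hw) (min_le_left _ _)))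
  have h2 : dist z z₀ ≤ r := Metric.mem_closedBall.1 hz
  have h3 := dist_triangle_right (g₀ w) z z₀
  linarith

theorem inv_conv {W : ℕ → Set ℂ} {f g : ℕ → ℂ → ℂ} {Ω : Set ℂ} {f₀ g₀ : ℂ → ℂ}
    (h : ∀ n, Bih Sp (W n) (f n) (g n)) (h0 : Bih Sp Ω f₀ g₀)
    (hc : TendstoLocallyUniformlyOn f f₀ atTop Sp) {K : Set ℂ} (hK : IsCompact K)
    (hKΩ : K ⊆ Ω) : (∀ᶠ n in atTop, K ⊆ W n) ∧ TendstoUniformlyOn g g₀ atTop K := by
  have key : ∀ ε : ℝ, 0 < ε → ∀ᶠ n in atTop, ∀ w ∈ K, w ∈ W n ∧ dist (g₀ w) (g n w) < ε := by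
    intro ε hε
    refine hK.induction_on (p := fun s => ∀ᶠ n in atTop, ∀ w ∈ s, w ∈ W n ∧ dist (g₀ w) (g n w) < ε)
      ?_ ?_ ?_ ?_
    · exact Eventually.of_forall fun n w hw => hw.elim
    · intro s t hst ht
      filter_upwards [ht] with n hn w hw using hn w (hst hw)
    · intro s t hs ht
      filter_upwards [hs, ht] with n h1 h2 w hw
      rcases hw with hw | hw
      · exact h1 w hw
      · exact h2 w hw
    · intro x hx
      obtain ⟨δ, hδ, he⟩ := nce_loc h h0 hc (hKΩ hx) hε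
      exact ⟨Metric.ball x δ, mem_nhdsWithin_of_mem_nhds (Metric.ball_mem_nhds x hδ), he⟩
  refine ⟨?_, ?_⟩
  · filter_upwards [key 1 one_pos] with n hn w hw using (hn w hw).1
  · rw [Metric.tendstoUniformlyOn_iff]
    intro ε hε
    filter_upwards [key ε hε] with n hn w hw using (hn w hw).2

/- END nce -/

/- MODULE ncf
Consequences.  (1) `g₀ '' K` is compact in `Sp`; take a compact neighbourhood `K'` in `Sp`; for large `n`
`g n '' K ⊆ K'`.  (2) if `K'` is compact in `Sp` then `f₀ '' K'` is compact in `Ω` and for large `n`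
`f n '' K' ⊆ C` for a compact neighbourhood `C ⊆ Ω` of `f₀ '' K'`; as `g n` is a bijection the points `z ∈ W n`
with `g n z ∈ K'` are in `C`. -/
theorem map_in {W : ℕ → Set ℂ} {f g : ℕ → ℂ → ℂ} {Ω : Set ℂ} {f₀ g₀ : ℂ → ℂ}
    (h : ∀ n, Bih Sp (W n) (f n) (g n)) (h0 : Bih Sp Ω f₀ g₀)
    (hc : TendstoLocallyUniformlyOn f f₀ atTop Sp) {K : Set ℂ} (hK : IsCompact K)
    (hKΩ : K ⊆ Ω) : ∃ K' : Set ℂ, IsCompact K' ∧ K' ⊆ Sp ∧ ∀ᶠ n in atTop,
      ∀ z ∈ K, g n z ∈ K' ∧ g₀ z ∈ K' := by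
  have hG : IsCompact (g₀ '' K) := hK.image_of_continuousOn (h0.dg.continuousOn.mono hKΩ)
  have hGS : g₀ '' K ⊆ Sp := by
    rintro _ ⟨z, hz, rfl⟩
    exact h0.mg (hKΩ hz)
  obtain ⟨δ, hδ, hs⟩ := hG.exists_cthickening_subset_open Sp_open hGS
  refine ⟨Metric.cthickening δ (g₀ '' K), hG.cthickening, hs, ?_⟩
  filter_upwards [Metric.tendstoUniformlyOn_iff.1 (inv_conv h h0 hc hK hKΩ).2 δ hδ] with n hn z hz
  refine ⟨?_, Metric.self_subset_cthickening _ (mem_image_of_mem _ hz)⟩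
  refine Metric.mem_cthickening_of_dist_le _ (g₀ z) _ _ (mem_image_of_mem _ hz) ?_
  rw [dist_comm]
  exact (hn z hz).le

theorem map_out {W : ℕ → Set ℂ} {f g : ℕ → ℂ → ℂ} {Ω : Set ℂ} {f₀ g₀ : ℂ → ℂ}
    (h : ∀ n, Bih Sp (W n) (f n) (g n)) (h0 : Bih Sp Ω f₀ g₀)
    (hc : TendstoLocallyUniformlyOn f f₀ atTop Sp) {K' : Set ℂ} (hK : IsCompact K')
    (hKS : K' ⊆ Sp) : ∃ C : Set ℂ, IsCompact C ∧ C ⊆ Ω ∧ ∀ᶠ n in atTop,
      ∀ z ∈ W n, g n z ∈ K' → z ∈ C := by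
  have hG : IsCompact (f₀ '' K') := hK.image_of_continuousOn (h0.df.continuousOn.mono hKS)
  have hGS : f₀ '' K' ⊆ Ω := by
    rintro _ ⟨z, hz, rfl⟩
    exact h0.mf (hKS hz)
  obtain ⟨δ, hδ, hs⟩ := hG.exists_cthickening_subset_open h0.oB hGS
  have hu : TendstoUniformlyOn f f₀ atTop K' :=
    (tendstoLocallyUniformlyOn_iff_forall_isCompact Sp_open).1 hc _ hKS hK
  refine ⟨Metric.cthickening δ (f₀ '' K'), hG.cthickening, hs, ?_⟩
  filter_upwards [Metric.tendstoUniformlyOn_iff.1 hu δ hδ] with n hn z hz hgz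
  refine Metric.mem_cthickening_of_dist_le _ (f₀ (g n z)) _ _ (mem_image_of_mem _ hgz) ?_
  have h1 := hn _ hgz
  rw [(h n).fg z hz, dist_comm] at h1
  exact h1.le

/- END ncf -/

/- MODULE ncg
THE GREEN ENERGIES CONVERGE (upper half).  `ψ n w = ‖deriv (f n) w‖² φ (f n w)`, `ψ₀` the same for
`f₀`, on `Sp`; for large `n` both vanish off a fixed compact `K' ⊆ Sp` (`map_in` with `K = tsupport φ`) and
converge uniformly on `K'` (`TendstoLocallyUniformlyOn.deriv`, uniform continuity of `φ`), so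
`η² = ∫_Sp (ψ n - ψ₀)² → 0`.  For `g' ∈ CSC (W n)` put `q = pull Sp (f n) g'` (in `CSC Sp`), `g'' = pull Ω g₀ q`
(in `CSC Ω`): all three have the same energy `E` (`Bih.dirE`), `∫ φ g' = ∫ ψ n q`, `∫ φ g'' = ∫ ψ₀ q`
(`Bih.pair`, `Bih.pull_pull`), `|∫ (ψ n - ψ₀) q| ≤ η √E` (`strip_poinc`).  With `0 < λ < 1`:
`Jc φ g' ≤ [2 ∫ φ g'' - (1 - λ) E] + 2 η √E - λ E ≤ GE Ω φ / (1 - λ) + η² / λ`, because
`2 ∫ φ g'' - (1 - λ) E = Jc φ ((1 - λ) g'') / (1 - λ)` (`le_GE`).  Take `λ` small, then `n` large. -/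
private theorem ncg_unif {W : ℕ → Set ℂ} {f g : ℕ → ℂ → ℂ} {Ω : Set ℂ} {f₀ g₀ : ℂ → ℂ}
    (h : ∀ n, Bih Sp (W n) (f n) (g n)) (h0 : Bih Sp Ω f₀ g₀)
    (hc : TendstoLocallyUniformlyOn f f₀ atTop Sp) {φ : ℂ → ℝ} (hφ : CSC Ω φ) {K' : Set ℂ}
    (hK : IsCompact K') (hKS : K' ⊆ Sp) {e : ℝ} (he : 0 < e) :
    ∀ᶠ n in atTop, ∀ w ∈ K',
      |‖deriv (f n) w‖ ^ 2 * φ (f n w) - ‖deriv f₀ w‖ ^ 2 * φ (f₀ w)| ≤ e := by
  have hd0 : ContinuousOn (fun w => ‖deriv f₀ w‖) K' :=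
    ((h0.df.deriv Sp_open).continuousOn.mono hKS).norm
  obtain ⟨M₁, hM₁⟩ := hK.exists_bound_of_continuousOn hd0
  obtain ⟨M, hM⟩ : ∃ M, M = max M₁ 0 := ⟨_, rfl⟩
  have hM0 : 0 ≤ M := hM ▸ le_max_right _ _
  have hMb : ∀ w ∈ K', ‖deriv f₀ w‖ ≤ M := by
    intro w hw
    have h1 := hM₁ w hw
    rw [norm_norm] at h1
    exact h1.trans (hM ▸ le_max_left _ _)
  obtain ⟨C₁, hC₁⟩ := hφ.cs.exists_bound_of_continuous hφ.sm.continuous
  obtain ⟨C, hC⟩ : ∃ C, C = max C₁ 0 := ⟨_, rfl⟩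
  have hC0 : 0 ≤ C := hC ▸ le_max_right _ _
  have hCb : ∀ z, |φ z| ≤ C := fun z => (hC₁ z).trans (hC ▸ le_max_left _ _)
  obtain ⟨s, hs⟩ : ∃ s, s = min 1 (e / (C * (2 * M + 1) + M ^ 2 + 1)) := ⟨_, rfl⟩
  have hs0 : 0 < s := by
    rw [hs]
    exact lt_min one_pos (by positivity)
  have hs1 : s ≤ 1 := hs ▸ min_le_left _ _
  have hs2 : s * (C * (2 * M + 1) + M ^ 2 + 1) ≤ e := by
    have : s ≤ e / (C * (2 * M + 1) + M ^ 2 + 1) := hs ▸ min_le_right _ _
    exact (le_div_iff₀ (by positivity)).1 this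
  have huc : UniformContinuous φ := hφ.cs.uniformContinuous_of_continuous hφ.sm.continuous
  obtain ⟨δ, hδ, hd⟩ := Metric.uniformContinuous_iff.1 huc s hs0
  have u1 : TendstoUniformlyOn f f₀ atTop K' :=
    (tendstoLocallyUniformlyOn_iff_forall_isCompact Sp_open).1 hc _ hKS hK
  have hc' : TendstoLocallyUniformlyOn (deriv ∘ f) (deriv f₀) atTop Sp :=
    hc.deriv (Eventually.of_forall fun n => (h n).df) Sp_open
  have u2 : TendstoUniformlyOn (deriv ∘ f) (deriv f₀) atTop K' :=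
    (tendstoLocallyUniformlyOn_iff_forall_isCompact Sp_open).1 hc' _ hKS hK
  filter_upwards [Metric.tendstoUniformlyOn_iff.1 u1 δ hδ,
    Metric.tendstoUniformlyOn_iff.1 u2 s hs0] with n h1 h2 w hw
  have h3 := hd (h1 w hw)
  have h4 : dist (deriv f₀ w) (deriv (f n) w) < s := h2 w hw
  rw [Real.dist_eq] at h3
  rw [dist_eq_norm] at h4
  have h5 : |‖deriv f₀ w‖ - ‖deriv (f n) w‖| ≤ s := (abs_norm_sub_norm_le _ _).trans h4.le
  obtain ⟨a, ha⟩ : ∃ a, a = ‖deriv (f n) w‖ := ⟨_, rfl⟩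
  obtain ⟨b, hb⟩ : ∃ b, b = ‖deriv f₀ w‖ := ⟨_, rfl⟩
  have ha0 : 0 ≤ a := ha ▸ norm_nonneg _
  have hb0 : 0 ≤ b := hb ▸ norm_nonneg _
  have hbM : b ≤ M := hb ▸ hMb w hw
  rw [← ha, ← hb]
  obtain ⟨p, hp⟩ : ∃ p, p = φ (f n w) := ⟨_, rfl⟩
  obtain ⟨q, hq⟩ : ∃ q, q = φ (f₀ w) := ⟨_, rfl⟩
  have hpC : |p| ≤ C := hp ▸ hCb _
  rw [← hp, ← hq]
  have h6 : |a - b| ≤ s := by rw [abs_sub_comm, ha, hb]; exact h5
  have e1 : a ^ 2 * p - b ^ 2 * q = (a - b) * (a + b) * p + b ^ 2 * (p - q) := by ring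
  rw [e1]
  have h7 : |(a - b) * (a + b) * p| ≤ s * (2 * M + 1) * C := by
    rw [abs_mul, abs_mul, abs_of_nonneg (add_nonneg ha0 hb0)]
    have h8 : a + b ≤ 2 * M + 1 := by
      have := (abs_le.1 h6).2
      linarith
    exact mul_le_mul (mul_le_mul h6 h8 (by linarith) hs0.le) hpC (abs_nonneg _) (by positivity)
  have h8 : |b ^ 2 * (p - q)| ≤ M ^ 2 * s := by
    rw [abs_mul, abs_of_nonneg (sq_nonneg b)]
    refine mul_le_mul (pow_le_pow_left₀ hb0 hbM 2) ?_ (abs_nonneg _) (sq_nonneg _)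
    rw [abs_sub_comm, hp, hq]
    exact h3.le
  have h9 := abs_add_le ((a - b) * (a + b) * p) (b ^ 2 * (p - q))
  nlinarith

private theorem ncg_cont {A B : Set ℂ} {f g : ℂ → ℂ} (h : Bih A B f g) {φ q : ℂ → ℝ}
    (hφ : Continuous φ) (hq : Continuous q) {K : Set ℂ} (hK : K ⊆ A) :
    ContinuousOn (fun w => ‖deriv f w‖ ^ 2 * (φ (f w) * q w)) K := by
  have c1 : ContinuousOn (fun w => ‖deriv f w‖) K :=
    ((h.df.deriv h.oA).continuousOn.mono hK).norm
  have c2 : ContinuousOn (fun w => φ (f w)) K :=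
    hφ.comp_continuousOn (h.df.continuousOn.mono hK)
  exact (c1.pow 2).mul (c2.mul hq.continuousOn)

private theorem ncg_t {Ω : Set ℂ} (hb : Bornology.IsBounded Ω) {φ g : ℂ → ℝ} (hφ : CSC Ω φ)
    (hg : CSC Ω g) {t : ℝ} (ht : 0 < t) :
    2 * (∫ z, φ z * g z) - t * Cn.dirE g ≤ GE Ω φ / t := by
  have hs : CSC Ω (fun z => t * g z) := by
    refine ⟨contDiff_const.mul hg.sm, hg.cs.mul_left, ?_⟩
    exact tsupport_mul_subset_right.trans hg.sub
  have h1 := le_GE hb hφ hs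
  have e1 : ∫ z, φ z * (t * g z) = t * ∫ z, φ z * g z := by
    rw [← integral_const_mul]
    refine integral_congr_ae (ae_of_all _ fun z => ?_)
    show φ z * (t * g z) = t * (φ z * g z)
    ring
  have e2 : Cn.dirE (fun z => t * g z) = t ^ 2 * Cn.dirE g := by
    unfold Cn.dirE
    rw [← integral_const_mul]
    refine integral_congr_ae (ae_of_all _ fun z => ?_)
    have hd := (hg.sm.differentiable (by simp)).differentiableAt (x := z)
    have e3 : fderiv ℝ (fun z => t * g z) z = t • fderiv ℝ g z :=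
      (hd.hasFDerivAt.const_mul t).fderiv
    show gsq (fun z => t * g z) z = t ^ 2 * gsq g z
    unfold gsq
    rw [e3, smul_apply, smul_apply, smul_eq_mul, smul_eq_mul]
    ring
  unfold Jc at h1
  rw [e1, e2] at h1
  rw [le_div_iff₀ ht]
  nlinarith

theorem GE_limsup {W : ℕ → Set ℂ} {f g : ℕ → ℂ → ℂ} {Ω : Set ℂ} {f₀ g₀ : ℂ → ℂ}
    (h : ∀ n, Bih Sp (W n) (f n) (g n)) (h0 : Bih Sp Ω f₀ g₀)
    (hc : TendstoLocallyUniformlyOn f f₀ atTop Sp) (hb : Bornology.IsBounded Ω) {φ : ℂ → ℝ}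
    (hφ : CSC Ω φ) {ε : ℝ} (hε : 0 < ε) :
    ∀ᶠ n in atTop, CSC (W n) φ ∧ GE (W n) φ ≤ GE Ω φ + ε := by
  obtain ⟨K', hK', hKS, hin⟩ := map_in h h0 hc (K := tsupport φ) hφ.cs hφ.sub
  have hG0 : 0 ≤ GE Ω φ := GE_nonneg hb hφ
  obtain ⟨l, hl⟩ : ∃ l, l = min (1 / 2) (ε / (4 * (GE Ω φ + 1))) := ⟨_, rfl⟩
  have hl0 : 0 < l := by
    rw [hl]
    exact lt_min (by norm_num) (by positivity)
  have hl1 : l ≤ 1 / 2 := hl ▸ min_le_left _ _
  have hl2 : l * (4 * (GE Ω φ + 1)) ≤ ε := by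
    have : l ≤ ε / (4 * (GE Ω φ + 1)) := hl ▸ min_le_right _ _
    exact (le_div_iff₀ (by positivity)).1 this
  obtain ⟨V, hV⟩ : ∃ V, V = volume.real K' := ⟨_, rfl⟩
  have hV0 : 0 ≤ V := hV ▸ measureReal_nonneg
  obtain ⟨e, he⟩ : ∃ e, e = Real.sqrt (l * (ε / 2) / (V + 1)) := ⟨_, rfl⟩
  have he0 : 0 < e := by
    rw [he]
    exact Real.sqrt_pos.2 (by positivity)
  have he2 : e ^ 2 * V ≤ l * (ε / 2) := by
    rw [he, Real.sq_sqrt (by positivity), div_mul_eq_mul_div, div_le_iff₀ (by positivity)]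
    nlinarith [mul_pos hl0 (half_pos hε)]
  filter_upwards [(inv_conv h h0 hc (K := tsupport φ) hφ.cs hφ.sub).1, hin,
    ncg_unif h h0 hc hφ hK' hKS he0] with n hW hi hu
  refine ⟨⟨hφ.sm, hφ.cs, hW⟩, GE_le fun g' hg' => ?_⟩
  have hq : CSC Sp (pull Sp (f n) g') := (h n).symm.csc hg'
  have hp : pull (W n) (g n) (pull Sp (f n) g') = g' := (h n).pull_pull hg'
  have hE1 : Cn.dirE (pull Sp (f n) g') = Cn.dirE g' := (h n).symm.dirE hg'
  obtain ⟨q, hqd⟩ : ∃ q, q = pull Sp (f n) g' := ⟨_, rfl⟩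
  rw [← hqd] at hq hp hE1
  have hg2 : CSC Ω (pull Ω g₀ q) := h0.csc hq
  have hE2 : Cn.dirE (pull Ω g₀ q) = Cn.dirE q := h0.dirE hq
  have p1 := (h n).pair φ q
  rw [hp] at p1
  have p2 := h0.pair φ q
  have z1 : ∀ w ∈ Sp \ K', ‖deriv (f n) w‖ ^ 2 * (φ (f n w) * q w) = 0 := by
    intro w hw
    have : φ (f n w) = 0 := by
      by_contra hne
      have := (hi (f n w) (subset_tsupport φ hne)).1
      rw [(h n).gf w hw.1] at this
      exact hw.2 this
    rw [this]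
    ring
  have z2 : ∀ w ∈ Sp \ K', ‖deriv f₀ w‖ ^ 2 * (φ (f₀ w) * q w) = 0 := by
    intro w hw
    have : φ (f₀ w) = 0 := by
      by_contra hne
      have := (hi (f₀ w) (subset_tsupport φ hne)).2
      rw [h0.gf w hw.1] at this
      exact hw.2 this
    rw [this]
    ring
  rw [setIntegral_eq_of_subset_of_forall_sdiff_eq_zero Sp_open.measurableSet hKS z1] at p1
  rw [setIntegral_eq_of_subset_of_forall_sdiff_eq_zero Sp_open.measurableSet hKS z2] at p2
  have c1 : ContinuousOn (fun w => ‖deriv (f n) w‖ ^ 2 * (φ (f n w) * q w)) K' :=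
    ncg_cont (h n) hφ.sm.continuous hq.sm.continuous hKS
  have c2 : ContinuousOn (fun w => ‖deriv f₀ w‖ ^ 2 * (φ (f₀ w) * q w)) K' :=
    ncg_cont h0 hφ.sm.continuous hq.sm.continuous hKS
  have i1 : IntegrableOn (fun w => ‖deriv (f n) w‖ ^ 2 * (φ (f n w) * q w)) K' :=
    c1.integrableOn_compact hK'
  have i2 : IntegrableOn (fun w => ‖deriv f₀ w‖ ^ 2 * (φ (f₀ w) * q w)) K' :=
    c2.integrableOn_compact hK'
  have iq : Integrable (fun w => q w ^ 2) := by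
    have hc2 : HasCompactSupport (fun w => q w * q w) := hq.cs.mul_left
    have := int_cs (hq.sm.mul hq.sm).continuous hc2
    simpa only [sq] using this
  have hm : ∫ w in K', (2 * (‖deriv (f n) w‖ ^ 2 * (φ (f n w) * q w)) -
      2 * (‖deriv f₀ w‖ ^ 2 * (φ (f₀ w) * q w))) ≤ ∫ w in K', (e ^ 2 / l + l * q w ^ 2) := by
    refine setIntegral_mono_on ((i1.const_mul 2).sub (i2.const_mul 2)) ?_ hK'.measurableSet ?_
    · exact (integrableOn_const hK'.measure_lt_top.ne).add (iq.integrableOn.const_mul l)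
    · intro w hw
      have h1 := hu w hw
      obtain ⟨D, hD⟩ : ∃ D, D = ‖deriv (f n) w‖ ^ 2 * φ (f n w) - ‖deriv f₀ w‖ ^ 2 * φ (f₀ w) :=
        ⟨_, rfl⟩
      rw [← hD] at h1
      have h2 : 2 * (‖deriv (f n) w‖ ^ 2 * (φ (f n w) * q w)) -
          2 * (‖deriv f₀ w‖ ^ 2 * (φ (f₀ w) * q w)) = 2 * (D * q w) := by
        rw [hD]; ring
      rw [h2]
      have h3 : D ^ 2 ≤ e ^ 2 := by
        rw [← sq_abs D]
        exact pow_le_pow_left₀ (abs_nonneg _) h1 2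
      have h4 : 2 * (D * q w) ≤ D ^ 2 / l + l * q w ^ 2 := by
        have h5 : D ^ 2 / l + l * q w ^ 2 - 2 * (D * q w) = (D - l * q w) ^ 2 / l := by
          field_simp
          ring
        have h6 : 0 ≤ (D - l * q w) ^ 2 / l := by positivity
        linarith
      have h7 : D ^ 2 / l ≤ e ^ 2 / l := div_le_div_of_nonneg_right h3 hl0.le
      linarith
  have e1 : ∫ w in K', (2 * (‖deriv (f n) w‖ ^ 2 * (φ (f n w) * q w)) -
      2 * (‖deriv f₀ w‖ ^ 2 * (φ (f₀ w) * q w))) =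
      2 * (∫ z, φ z * g' z) - 2 * ∫ z, φ z * pull Ω g₀ q z := by
    rw [integral_sub (i1.const_mul 2) (i2.const_mul 2), integral_const_mul, integral_const_mul,
      p1, p2]
  have e2 : ∫ w in K', (e ^ 2 / l + l * q w ^ 2) = V * (e ^ 2 / l) + l * ∫ w in K', q w ^ 2 := by
    have j : Integrable (fun w => e ^ 2 / l) (volume.restrict K') :=
      integrableOn_const hK'.measure_lt_top.ne
    rw [integral_add j (iq.integrableOn.const_mul l), integral_const_mul, setIntegral_const,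
      smul_eq_mul, hV]
  have e3 : ∫ w in K', q w ^ 2 ≤ Cn.dirE q :=
    (setIntegral_le_integral iq (ae_of_all _ fun w => sq_nonneg _)).trans (strip_poinc hq)
  rw [e1, e2] at hm
  have hE0 : 0 ≤ Cn.dirE q := integral_nonneg fun z => add_nonneg (sq_nonneg _) (sq_nonneg _)
  have h8 : V * (e ^ 2 / l) ≤ ε / 2 := by
    rw [mul_div_assoc', div_le_iff₀ hl0]
    linarith
  have h9 := ncg_t hb hφ hg2 (show 0 < 1 - l by linarith)
  rw [hE2] at h9
  have h10 : GE Ω φ / (1 - l) ≤ GE Ω φ + ε / 2 := by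
    rw [div_le_iff₀ (by linarith)]
    nlinarith [mul_nonneg hG0 hl0.le, mul_pos hε hl0]
  have h11 : l * (∫ w in K', q w ^ 2) ≤ l * Cn.dirE q := mul_le_mul_of_nonneg_left e3 hl0.le
  unfold Jc
  rw [← hE1]
  linarith

/- END ncg -/

end Pool.Agent.Hmk.Ca
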