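import Pool.Agent.Hmk.CaDef

/-!
# Hmk, Caratheodory part (helper70): a lower bound for harmonic measure near the boundary
-/

set_option autoImplicit false

open MeasureTheory Set Filter

open scoped ENNReal ContDiff Topology

noncomputable section

namespace Pool.Agent.Hmk.Ca

open Pool.Agent.Hmk Pool.Agent.Hmk.Cn

/-- the unit disc without the real points `≥ 0` -/
def Sd : Set ℂ := {z | ‖z‖ < 1 ∧ ¬ (0 ≤ z.re ∧ z.im = 0)}

/- MODULE nda
THE BARRIER.  `s = i √(- ζ)` (principal branch; `- ζ` is in the slit plane) is in the upper half disc,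
`T = (1 + s) / (1 - s)` is in the open first quadrant (`Re T = (1 - |s|²) / |1 - s|²`,
`Im T = 2 Im s / |1 - s|²`), `Q = - i (2 / π) log T`, so `Re Q = (2 / π) arg T ∈ (0, 1)`.
(3): if `‖ζ₀‖ = 1`, `ζ₀ ≠ 1` then `s → s₀` with `|s₀| = 1`, `s₀ ≠ ± 1` (`Im s₀ > 0`) and `T → T₀` purely
imaginary with positive imaginary part.  (4): `Im T / Re T = 2 Im s / (1 - |s|²) ≤ 4` if `|s|² ≤ 1/2`,
so `arg T ≤ arctan 4 < π / 2`; put `c = (2 / π) arctan 4`. -/
/-- the square root of `z` in the upper half plane -/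
private def nda_s (z : ℂ) : ℂ := Complex.I * Complex.exp (Complex.log (-z) / 2)

private theorem nda_slit {z : ℂ} (h : ¬ (0 ≤ z.re ∧ z.im = 0)) : -z ∈ Complex.slitPlane := by
  rw [Complex.mem_slitPlane_iff]
  by_cases hi : z.im = 0
  · left
    have : ¬ 0 ≤ z.re := fun h' => h ⟨h', hi⟩
    rw [Complex.neg_re]
    linarith
  · right
    rw [Complex.neg_im]
    exact neg_ne_zero.2 hi

private theorem nda_sq {z : ℂ} (h : ¬ (0 ≤ z.re ∧ z.im = 0)) : nda_s z ^ 2 = z := by
  have h1 := Complex.slitPlane_ne_zero (nda_slit h)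
  unfold nda_s
  rw [mul_pow, Complex.I_sq, ← Complex.exp_nat_mul]
  have : ((2 : ℕ) : ℂ) * (Complex.log (-z) / 2) = Complex.log (-z) := by
    push_cast
    ring
  rw [this, Complex.exp_log h1]
  ring

private theorem nda_im {z : ℂ} (h : ¬ (0 ≤ z.re ∧ z.im = 0)) : 0 < (nda_s z).im := by
  have h1 := nda_slit h
  have h2 : (nda_s z).im = (Complex.exp (Complex.log (-z) / 2)).re := by
    unfold nda_s
    simp [Complex.mul_im]
  rw [h2, Complex.exp_re]
  have h3 : (Complex.log (-z) / 2).im = Complex.arg (-z) / 2 := by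
    rw [show Complex.log (-z) / 2 = Complex.log (-z) / ((2 : ℝ) : ℂ) by norm_num,
      Complex.div_ofReal_im, Complex.log_im]
  rw [h3]
  refine mul_pos (Real.exp_pos _) (Real.cos_pos_of_mem_Ioo ⟨?_, ?_⟩)
  · have := Complex.neg_pi_lt_arg (-z)
    linarith
  · have h4 := (Complex.arg_le_pi (-z)).lt_of_ne (Complex.mem_slitPlane_iff_arg.1 h1).1
    linarith

private theorem nda_norm {z : ℂ} (h : ¬ (0 ≤ z.re ∧ z.im = 0)) :
    Complex.normSq (nda_s z) = ‖z‖ := by
  rw [Complex.normSq_eq_norm_sq, ← norm_pow, nda_sq h]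

private theorem nda_ne {z : ℂ} (h : ¬ (0 ≤ z.re ∧ z.im = 0)) : 1 - nda_s z ≠ 0 := by
  intro h0
  have h1 := nda_im h
  have h2 : nda_s z = 1 := (sub_eq_zero.1 h0).symm
  rw [h2] at h1
  simp at h1

private def nda_T (z : ℂ) : ℂ := (1 + nda_s z) / (1 - nda_s z)

private theorem nda_Tre (z : ℂ) : (nda_T z).re =
    (1 - Complex.normSq (nda_s z)) / Complex.normSq (1 - nda_s z) := by
  unfold nda_T
  rw [Complex.div_re, ← add_div]
  congr 1
  simp [Complex.normSq_apply]
  ring

private theorem nda_Tim (z : ℂ) : (nda_T z).im =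
    2 * (nda_s z).im / Complex.normSq (1 - nda_s z) := by
  unfold nda_T
  rw [Complex.div_im, ← sub_div]
  congr 1
  simp
  ring

private theorem nda_diff {z : ℂ} (h : ¬ (0 ≤ z.re ∧ z.im = 0)) : DifferentiableAt ℂ nda_s z := by
  unfold nda_s
  have h1 : DifferentiableAt ℂ (fun z : ℂ => Complex.log (-z)) z :=
    (differentiableAt_id.neg).clog (nda_slit h)
  exact (h1.div_const 2).cexp.const_mul _

private theorem nda_Timp {z : ℂ} (h : ¬ (0 ≤ z.re ∧ z.im = 0)) : 0 < (nda_T z).im := by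
  rw [nda_Tim]
  have h1 := Complex.normSq_pos.2 (nda_ne h)
  have h2 := nda_im h
  positivity

private theorem nda_Tslit {z : ℂ} (h : ¬ (0 ≤ z.re ∧ z.im = 0)) :
    nda_T z ∈ Complex.slitPlane := by
  rw [Complex.mem_slitPlane_iff]
  right
  exact (nda_Timp h).ne'

private theorem nda_Tdiff {z : ℂ} (h : ¬ (0 ≤ z.re ∧ z.im = 0)) : DifferentiableAt ℂ nda_T z := by
  unfold nda_T
  exact ((differentiableAt_const _).add (nda_diff h)).div
    ((differentiableAt_const _).sub (nda_diff h)) (nda_ne h)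

/-- the barrier function -/
private def nda_Q (z : ℂ) : ℂ := -Complex.I * ((2 / Real.pi : ℝ) : ℂ) * Complex.log (nda_T z)

private theorem nda_Qre (z : ℂ) : (nda_Q z).re = 2 / Real.pi * Complex.arg (nda_T z) := by
  unfold nda_Q
  rw [← Complex.log_im, mul_assoc, neg_mul, Complex.neg_re, Complex.I_mul_re, neg_neg,
    Complex.im_ofReal_mul]

theorem barrier : ∃ (Q : ℂ → ℂ) (c : ℝ), 0 < c ∧ c < 1 ∧ DifferentiableOn ℂ Q Sd ∧
    (∀ z ∈ Sd, 0 ≤ (Q z).re ∧ (Q z).re ≤ 1) ∧
    (∀ ζ : ℂ, ‖ζ‖ = 1 → ζ ≠ 1 → Tendsto (fun z => (Q z).re) (𝓝[Sd] ζ) (𝓝 1)) ∧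
    ∀ z ∈ Sd, ‖z‖ ≤ 1 / 2 → (Q z).re ≤ c := by
  have hpi := Real.pi_pos
  set κ : ℝ := Real.sqrt (16 / 17) with hκ
  have hκ0 : 0 < κ := Real.sqrt_pos.2 (by norm_num)
  have hκ2 : κ ^ 2 = 16 / 17 := Real.sq_sqrt (by norm_num)
  have hκ1 : κ < 1 := by
    by_contra h
    push Not at h
    nlinarith [hκ2, h, mul_le_mul h h zero_le_one hκ0.le]
  refine ⟨nda_Q, 2 / Real.pi * Real.arcsin κ, ?_, ?_, ?_, ?_, ?_, ?_⟩
  · have := Real.arcsin_pos.2 hκ0
    positivity
  · have := Real.arcsin_lt_pi_div_two.2 hκ1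
    calc 2 / Real.pi * Real.arcsin κ < 2 / Real.pi * (Real.pi / 2) :=
          mul_lt_mul_of_pos_left this (by positivity)
      _ = 1 := by field_simp
  · intro z hz
    refine DifferentiableAt.differentiableWithinAt ?_
    unfold nda_Q
    exact ((nda_Tdiff hz.2).clog (nda_Tslit hz.2)).const_mul _
  · intro z hz
    rw [nda_Qre]
    have h1 := nda_Timp hz.2
    have h2 : 0 ≤ (nda_T z).re := by
      rw [nda_Tre, nda_norm hz.2]
      have := hz.1
      exact div_nonneg (by linarith) (Complex.normSq_nonneg _)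
    have h3 : 0 ≤ Complex.arg (nda_T z) := Complex.arg_nonneg_iff.2 h1.le
    have h4 : |Complex.arg (nda_T z)| ≤ Real.pi / 2 := Complex.abs_arg_le_pi_div_two_iff.2 h2
    refine ⟨by positivity, ?_⟩
    calc 2 / Real.pi * Complex.arg (nda_T z) ≤ 2 / Real.pi * (Real.pi / 2) :=
          mul_le_mul_of_nonneg_left ((le_abs_self _).trans h4) (by positivity)
      _ = 1 := by field_simp
  · intro ζ h1 h2
    have hz : ¬ (0 ≤ ζ.re ∧ ζ.im = 0) := by
      rintro ⟨h3, h4⟩
      apply h2
      have h5 : ζ = ((ζ.re : ℝ) : ℂ) := Complex.ext rfl (by simp [h4])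
      rw [h5, Complex.norm_real, Real.norm_eq_abs, abs_of_nonneg h3] at h1
      rw [h5, h1]
      norm_num
    have h3 : (nda_T ζ).re = 0 := by
      rw [nda_Tre, nda_norm hz, h1, sub_self, zero_div]
    have h4 := nda_Timp hz
    have h5 : Complex.arg (nda_T ζ) = Real.pi / 2 := by
      have : nda_T ζ = ((nda_T ζ).im : ℂ) * Complex.I := Complex.ext (by simp [h3]) (by simp)
      rw [this, Complex.arg_real_mul _ h4, Complex.arg_I]
    have h6 : Tendsto (fun z => (nda_Q z).re) (𝓝 ζ) (𝓝 ((nda_Q ζ).re)) := by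
      have h7 : DifferentiableAt ℂ nda_Q ζ := by
        unfold nda_Q
        exact ((nda_Tdiff hz).clog (nda_Tslit hz)).const_mul _
      exact (Complex.continuous_re.tendsto _).comp h7.continuousAt
    have h8 : (nda_Q ζ).re = 1 := by
      rw [nda_Qre, h5]
      field_simp
    rw [h8] at h6
    exact h6.mono_left nhdsWithin_le_nhds
  · intro z hz h1
    rw [nda_Qre]
    refine mul_le_mul_of_nonneg_left ?_ (by positivity)
    have hn := nda_norm hz.2
    have hp := Complex.normSq_pos.2 (nda_ne hz.2)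
    have h2 : 0 ≤ (nda_T z).re := by
      rw [nda_Tre, hn]
      exact div_nonneg (by linarith) hp.le
    have him := nda_im hz.2
    have h3 : (nda_T z).im ≤ 4 * (nda_T z).re := by
      rw [nda_Tre, nda_Tim, hn, ← mul_div_assoc]
      refine div_le_div_of_nonneg_right ?_ hp.le
      have h4 : (nda_s z).im ^ 2 ≤ 1 := by
        have h5 : Complex.normSq (nda_s z) = (nda_s z).re * (nda_s z).re +
          (nda_s z).im * (nda_s z).im := Complex.normSq_apply _
        nlinarith [mul_self_nonneg (nda_s z).re]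
      nlinarith [h4, him]
    have h4 := nda_Timp hz.2
    rw [Complex.arg_of_re_nonneg h2]
    refine Real.arcsin_le_arcsin ?_
    have h5 : 0 < ‖nda_T z‖ := norm_pos_iff.2 (Complex.slitPlane_ne_zero (nda_Tslit hz.2))
    rw [div_le_iff₀ h5]
    have h6 : ‖nda_T z‖ ^ 2 = (nda_T z).re ^ 2 + (nda_T z).im ^ 2 := by
      rw [← Complex.normSq_eq_norm_sq, Complex.normSq_apply]
      ring
    refine abs_le_of_sq_le_sq' ?_ (by positivity) |>.2
    rw [mul_pow, hκ2, h6]
    nlinarith [h3, h4, h2]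

/- MODULE ndb
-/
theorem max_prin {U : Set ℂ} (hU : IsOpen U) (hb : Bornology.IsBounded U) {G Q : ℂ → ℂ}
    (hG : DifferentiableOn ℂ G U) (hQ : DifferentiableOn ℂ Q U)
    (hf : ∀ ζ ∈ frontier U, ∀ ε : ℝ, 0 < ε → ∀ᶠ z in 𝓝[U] ζ, (G z).re - (Q z).re ≤ ε)
    {z : ℂ} (hz : z ∈ U) : (G z).re ≤ (Q z).re := by
  by_contra hcon
  push Not at hcon
  obtain ⟨s, hs, hs0⟩ : ∃ s : ℝ, (G z).re - (Q z).re = s ∧ 0 < s := ⟨_, rfl, by linarith⟩
  set D : ℂ → ℝ := fun w => (G w).re - (Q w).re with hD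
  have hDc : ContinuousOn D U :=
    (Complex.continuous_re.comp_continuousOn hG.continuousOn).sub
      (Complex.continuous_re.comp_continuousOn hQ.continuousOn)
  set V : Set ℂ := U ∩ D ⁻¹' Ioi (s / 2) with hV
  have hVo : IsOpen V := hDc.isOpen_inter_preimage hU isOpen_Ioi
  have hVU : V ⊆ U := inter_subset_left
  have hcl : closure V ⊆ U := by
    intro ζ hζ
    by_contra hn
    have hfr : ζ ∈ frontier U := ⟨closure_mono hVU hζ, by rwa [hU.interior_eq]⟩
    have hne : (𝓝[V] ζ).NeBot := mem_closure_iff_nhdsWithin_neBot.1 hζ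
    have h1 := (hf ζ hfr (s / 4) (by linarith)).filter_mono (nhdsWithin_mono ζ hVU)
    obtain ⟨w, hw1, hw2⟩ := (h1.and self_mem_nhdsWithin).exists
    have : s / 2 < D w := hw2.2
    simp only [hD] at this
    linarith
  have hzV : z ∈ V := ⟨hz, by
    show s / 2 < D z
    simp only [hD]
    linarith⟩
  have hd : DiffContOnCl ℂ (fun w => Complex.exp (G w - Q w)) V :=
    DifferentiableOn.diffContOnCl (((hG.sub hQ).cexp).mono hcl)
  have hC : ∀ w ∈ frontier V, ‖Complex.exp (G w - Q w)‖ ≤ Real.exp (s / 2) := by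
    intro w hw
    have hwU : w ∈ U := hcl hw.1
    have hwV : w ∉ V := by
      have := hw.2
      rwa [hVo.interior_eq] at this
    have : D w ≤ s / 2 := by
      by_contra h
      exact hwV ⟨hwU, lt_of_not_ge h⟩
    rw [Complex.norm_exp, Complex.sub_re]
    exact Real.exp_le_exp.2 this
  have h2 := Complex.norm_le_of_forall_mem_frontier_norm_le (hb.subset hVU) hd hC
    (subset_closure hzV)
  rw [Complex.norm_exp, Complex.sub_re, hs, Real.exp_le_exp] at h2
  linarith

/- END ndb -/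

/- MODULE ndc
A SLIT OF LENGTH `r` at `y` in the complement of `W`, boundary values `0` near `y`: on
`U = W ∩ ball y r` compare `G` with `Q ((z - y) / (r e))` (`barrier`).  For `z ∈ U` the point
`ζ = (z - y) / (r e)` is in `Sd` (points `y + t e` with `0 ≤ t ≤ r` are not in `W`).  Let `ζ₀` be in the frontier
of `U`, `|ζ₀ - y| ≤ r`.  If `ζ₀ ∈ frontier W`: `Re G → 0` and `Re Q ≥ 0`.  Otherwise `ζ₀ ∈ W` (it is in the
closure of `W`), so `|ζ₀ - y| = r` and `ζ₀ ≠ y + r e`: `Re Q → 1`, `Re G < 1`. -/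
theorem hm_slit : ∃ c : ℝ, 0 < c ∧ c < 1 ∧ ∀ (W : Set ℂ), IsOpen W → ∀ G : ℂ → ℂ,
    DifferentiableOn ℂ G W → (∀ z ∈ W, 0 < (G z).re ∧ (G z).re < 1) →
    ∀ (y e : ℂ) (r : ℝ), 0 < r → ‖e‖ = 1 → (∀ t : ℝ, 0 ≤ t → t ≤ r → y + t * e ∉ W) →
    (∀ ζ ∈ frontier W, ‖ζ - y‖ ≤ r → Tendsto (fun z => (G z).re) (𝓝[W] ζ) (𝓝 0)) →
    ∀ z ∈ W, ‖z - y‖ ≤ r / 2 → (G z).re ≤ c := by
  obtain ⟨Q, c, hc0, hc1, hQd, hQ01, hQ1, hQc⟩ := barrier
  refine ⟨c, hc0, hc1, ?_⟩
  intro W hW G hG hG01 y e r hr he hsl hbd z hz hzr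
  have hre : ((r : ℂ) * e) ≠ 0 := by
    apply mul_ne_zero
    · exact_mod_cast hr.ne'
    · intro h; rw [h] at he; simp at he
  have hnre : ‖(r : ℂ) * e‖ = r := by
    rw [norm_mul, he, mul_one, Complex.norm_real, Real.norm_eq_abs, abs_of_pos hr]
  set φ : ℂ → ℂ := fun z => (z - y) / ((r : ℂ) * e) with hφ
  have hφn : ∀ w, ‖φ w‖ = ‖w - y‖ / r := by
    intro w; simp only [hφ]; rw [norm_div, hnre]
  have hφeq : ∀ w, w = y + φ w * ((r : ℂ) * e) := by
    intro w; simp only [hφ]; rw [div_mul_cancel₀ _ hre]; ring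
  have hφc : Continuous φ := by
    simp only [hφ]; fun_prop
  have hφd : Differentiable ℂ φ := by
    simp only [hφ]; fun_prop
  set U : Set ℂ := W ∩ Metric.ball y r with hUdef
  have hUo : IsOpen U := hW.inter Metric.isOpen_ball
  have hUb : Bornology.IsBounded U := Metric.isBounded_ball.subset inter_subset_right
  have hUW : U ⊆ W := inter_subset_left
  have hφU : MapsTo φ U Sd := by
    intro w hw
    refine ⟨?_, ?_⟩
    · rw [hφn, div_lt_one hr]
      have := hw.2
      rwa [Metric.mem_ball, dist_eq_norm] at this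
    · rintro ⟨h1, h2⟩
      have h3 : φ w = ((φ w).re : ℂ) := Complex.ext (by simp) (by simp [h2])
      have h4 : (φ w).re < 1 := by
        have : ‖φ w‖ < 1 := by
          rw [hφn, div_lt_one hr]
          have := hw.2
          rwa [Metric.mem_ball, dist_eq_norm] at this
        exact (Complex.re_le_norm _).trans_lt this
      have h5 := hsl ((φ w).re * r) (by positivity) (by nlinarith)
      apply h5
      have h6 : y + (((φ w).re * r : ℝ) : ℂ) * e = w := by
        conv_rhs => rw [hφeq w, h3]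
        push_cast; ring
      rw [h6]; exact hw.1
  have hmain := max_prin hUo hUb (G := G) (Q := fun w => Q (φ w)) (hG.mono hUW)
    (hQd.comp hφd.differentiableOn hφU) (z := z) ?_ ?_
  · exact hmain.trans (hQc (φ z) (hφU ⟨hz, by
      rw [Metric.mem_ball, dist_eq_norm]; linarith⟩) (by
        rw [hφn, div_le_iff₀ hr]; linarith))
  · intro ζ hζ ε hε
    have hζcl : ζ ∈ closure U := frontier_subset_closure hζ
    have hζU : ζ ∉ U := by
      intro h
      rw [frontier, hUo.interior_eq] at hζ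
      exact hζ.2 h
    have hζr : ‖ζ - y‖ ≤ r := by
      have h1 : ζ ∈ closure (Metric.ball y r) := closure_mono inter_subset_right hζcl
      have h2 := Metric.closure_ball_subset_closedBall h1
      rwa [Metric.mem_closedBall, dist_eq_norm] at h2
    by_cases hζW : ζ ∈ W
    · have hζr2 : ‖ζ - y‖ = r := by
        apply le_antisymm hζr
        by_contra h
        push Not at h
        exact hζU ⟨hζW, by rw [Metric.mem_ball, dist_eq_norm]; exact h⟩
      have h1 : ‖φ ζ‖ = 1 := by rw [hφn, hζr2, div_self hr.ne']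
      have h2 : φ ζ ≠ 1 := by
        intro h
        have h3 := hφeq ζ
        rw [h, one_mul] at h3
        have h4 := hsl r hr.le le_rfl
        rw [← h3] at h4
        exact h4 hζW
      have h3 := hQ1 (φ ζ) h1 h2
      have h4 : Tendsto φ (𝓝[U] ζ) (𝓝[Sd] (φ ζ)) := by
        apply tendsto_nhdsWithin_of_tendsto_nhds_of_eventually_within
        · exact (hφc.tendsto ζ).mono_left nhdsWithin_le_nhds
        · filter_upwards [self_mem_nhdsWithin] with w hw using hφU hw
      have h5 := h3.comp h4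
      have h6 : ∀ᶠ w in 𝓝[U] ζ, 1 - ε < (Q (φ w)).re :=
        h5.eventually (lt_mem_nhds (by linarith))
      filter_upwards [h6, self_mem_nhdsWithin] with w hw hwU
      have := (hG01 w (hUW hwU)).2
      show (G w).re - (Q (φ w)).re ≤ ε
      linarith
    · have h1 : ζ ∈ frontier W := by
        rw [frontier, hW.interior_eq]
        exact ⟨closure_mono hUW hζcl, hζW⟩
      have h2 := (hbd ζ h1 hζr).mono_left (nhdsWithin_mono ζ hUW)
      have h3 : ∀ᶠ w in 𝓝[U] ζ, (G w).re < ε := h2.eventually (gt_mem_nhds hε)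
      filter_upwards [h3, self_mem_nhdsWithin] with w hw hwU
      have := (hQ01 (φ w) (hφU hwU)).1
      show (G w).re - (Q (φ w)).re ≤ ε
      linarith
  · exact ⟨hz, by rw [Metric.mem_ball, dist_eq_norm]; linarith⟩

/- END ndc -/

/- MODULE ndd
FROM THE BOUNDARY TO THE NEAREST VERTEX.  `hm_slit` with `r = 49/100 δ`; `Re G x` is the average of
`Re G` over the circle `|z - x| = 8/10 δ` (`DiffContOnCl.circleAverage`), which is in `W`.  On the arc of
the points `x + 8/10 (y - x) e^{i θ}` with `|θ| ≤ 1/10`: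
`|z - y|² = δ² (1.64 - 1.6 cos θ) ≤ δ² (0.04 + 0.8 θ²) ≤ (0.245 δ)²`, so `Re G ≤ c` there; elsewhere
`Re G ≤ 1`: `Re G x ≤ 1 - (1 - c) (2/10) / (2 π)`. -/
theorem hm_center : ∃ c : ℝ, 0 < c ∧ c < 1 ∧ ∀ (W : Set ℂ), IsOpen W → ∀ G : ℂ → ℂ,
    DifferentiableOn ℂ G W → (∀ z ∈ W, 0 < (G z).re ∧ (G z).re < 1) →
    ∀ (x y e : ℂ) (δ : ℝ), 0 < δ → ‖x - y‖ = δ → ‖e‖ = 1 →
    Metric.closedBall x (8 / 10 * δ) ⊆ W →
    (∀ t : ℝ, 0 ≤ t → t < δ / 2 → y + t * e ∉ W) →
    (∀ ζ ∈ frontier W, ‖ζ - y‖ < δ / 2 → Tendsto (fun z => (G z).re) (𝓝[W] ζ) (𝓝 0)) →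
    (G x).re ≤ c := by
  obtain ⟨c, hc0, hc1, hsl⟩ := hm_slit
  have hpi := Real.pi_pos
  have hpi3 := Real.pi_gt_three
  refine ⟨1 - (1 - c) * (1 / 10) / (2 * Real.pi), ?_, ?_, ?_⟩
  · have h1 : (1 - c) * (1 / 10) / (2 * Real.pi) < 1 := by
      rw [div_lt_one (by positivity)]; nlinarith
    linarith
  · have h1 : 0 < (1 - c) * (1 / 10) / (2 * Real.pi) := by
      apply div_pos _ (by positivity)
      nlinarith
    linarith
  intro W hW G hG hG01 x y e δ hδ hxy he hball hs hbd
  have hR : 0 < 8 / 10 * δ := by positivity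
  set R := 8 / 10 * δ with hRdef
  -- the bound near y
  have hnear : ∀ z ∈ W, ‖z - y‖ ≤ (49 / 100 * δ) / 2 → (G z).re ≤ c := by
    apply hsl W hW G hG hG01 y e (49 / 100 * δ) (by positivity) he
    · intro t ht0 ht
      exact hs t ht0 (by nlinarith)
    · intro ζ hζ hζr
      exact hbd ζ hζ (by nlinarith)
  -- circle average
  have hcont : ContinuousOn G (Metric.closedBall x R) := hG.continuousOn.mono hball
  have hdc : DiffContOnCl ℂ G (Metric.ball x |R|) := by
    rw [abs_of_pos hR]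
    refine ⟨hG.mono (Metric.ball_subset_closedBall.trans hball), ?_⟩
    rw [closure_ball _ hR.ne']
    exact hcont
  have havg := hdc.circleAverage
  have hcm : ∀ θ : ℝ, circleMap x R θ ∈ Metric.closedBall x R := by
    intro θ; exact circleMap_mem_closedBall x hR.le θ
  set η : ℝ := Complex.arg (y - x) with hη
  have hyx : y - x = (δ : ℂ) * Complex.exp (η * Complex.I) := by
    have h1 := Complex.norm_mul_exp_arg_mul_I (y - x)
    rw [norm_sub_rev, hxy] at h1
    rw [hη]; exact h1.symm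
  rw [Real.circleAverage_eq_integral_add η] at havg
  have hg : Continuous (fun θ : ℝ => G (circleMap x R (θ + η))) := by
    apply hcont.comp_continuous
    · exact (continuous_circleMap x R).comp (continuous_id.add continuous_const)
    · intro θ; exact hcm _
  have hre : (G x).re = (2 * Real.pi)⁻¹ * ∫ θ in (0:ℝ)..2 * Real.pi, (G (circleMap x R (θ + η))).re := by
    rw [← havg]
    have h1 := Complex.reCLM.intervalIntegral_comp_comm
      (hg.intervalIntegrable (μ := volume) 0 (2 * Real.pi))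
    simp only [Complex.reCLM_apply] at h1
    rw [h1]
    simp
  have hgr : Continuous (fun θ : ℝ => (G (circleMap x R (θ + η))).re) :=
    Complex.continuous_re.comp hg
  have hint : ∀ a b : ℝ, IntervalIntegrable (fun θ : ℝ => (G (circleMap x R (θ + η))).re) volume a b :=
    fun a b => hgr.intervalIntegrable a b
  have hsplit : (∫ θ in (0:ℝ)..2 * Real.pi, (G (circleMap x R (θ + η))).re)
      = (∫ θ in (0:ℝ)..(1 / 10), (G (circleMap x R (θ + η))).re)
        + ∫ θ in (1 / 10 : ℝ)..2 * Real.pi, (G (circleMap x R (θ + η))).re :=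
    (intervalIntegral.integral_add_adjacent_intervals (hint _ _) (hint _ _)).symm
  have hA : (∫ θ in (0:ℝ)..(1 / 10), (G (circleMap x R (θ + η))).re) ≤ c * (1 / 10) := by
    have h1 : (∫ θ in (0:ℝ)..(1 / 10), (G (circleMap x R (θ + η))).re)
        ≤ ∫ θ in (0:ℝ)..(1 / 10), c := by
      apply intervalIntegral.integral_mono_on (by norm_num) (hint _ _) (by simp)
      intro θ hθ
      apply hnear
      · exact hball (hcm _)
      · -- distance
        have h2 : circleMap x R (θ + η) - y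
            = (δ : ℂ) * (Complex.exp (η * Complex.I) * ((8 / 10 : ℂ) * Complex.exp (θ * Complex.I) - 1)) := by
          have h3 : circleMap x R (θ + η) - y
              = (circleMap x R (θ + η) - x) - (y - x) := by ring
          rw [h3, hyx, circleMap, hRdef]
          push_cast
          rw [add_mul, Complex.exp_add]
          ring
        rw [h2, norm_mul, norm_mul, Complex.norm_exp_ofReal_mul_I, Complex.norm_real,
          Real.norm_eq_abs, abs_of_pos hδ, one_mul]
        have h4 : ‖(8 / 10 : ℂ) * Complex.exp (θ * Complex.I) - 1‖ ≤ 49 / 200 := by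
          have hsq : ‖(8 / 10 : ℂ) * Complex.exp (θ * Complex.I) - 1‖ ^ 2
              = (8 / 10 * Real.cos θ - 1) ^ 2 + (8 / 10 * Real.sin θ) ^ 2 := by
            have h5 : (8 / 10 : ℂ) * Complex.exp (θ * Complex.I) - 1
                = ((8 / 10 * Real.cos θ - 1 : ℝ) : ℂ) + ((8 / 10 * Real.sin θ : ℝ) : ℂ) * Complex.I := by
              rw [Complex.exp_mul_I, ← Complex.ofReal_cos, ← Complex.ofReal_sin]
              push_cast; ring
            rw [h5, Complex.sq_norm, Complex.normSq_add_mul_I]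
          have hcos := Real.one_sub_sq_div_two_le_cos (x := θ)
          have hsc := Real.sin_sq_add_cos_sq θ
          have hθ2 : θ ^ 2 ≤ 1 / 100 := by nlinarith [hθ.1, hθ.2]
          have hle : ‖(8 / 10 : ℂ) * Complex.exp (θ * Complex.I) - 1‖ ^ 2 ≤ (49 / 200) ^ 2 := by
            rw [hsq]; nlinarith
          exact le_of_sq_le_sq hle (by norm_num)
        nlinarith
    simpa [mul_comm] using h1
  have hB : (∫ θ in (1 / 10 : ℝ)..2 * Real.pi, (G (circleMap x R (θ + η))).re)
      ≤ 2 * Real.pi - 1 / 10 := by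
    have h1 : (∫ θ in (1 / 10 : ℝ)..2 * Real.pi, (G (circleMap x R (θ + η))).re)
        ≤ ∫ θ in (1 / 10 : ℝ)..2 * Real.pi, (1 : ℝ) := by
      apply intervalIntegral.integral_mono_on (by linarith) (hint _ _) (by simp)
      intro θ hθ
      exact (hG01 _ (hball (hcm _))).2.le
    simpa using h1
  rw [hre, hsplit]
  have h2pi : 0 < 2 * Real.pi := by positivity
  rw [inv_mul_le_iff₀ h2pi, mul_sub, mul_div_cancel₀ _ h2pi.ne']
  linarith

/- END ndd -/

end Pool.Agent.Hmk.Ca
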