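import Pool.Agent.Hmk.CnSt

/-!
# Hmk, Caratheodory part (helper70): definitions
-/

set_option autoImplicit false

open MeasureTheory Set Filter
open scoped ENNReal ContDiff Topology

noncomputable section

namespace Pool.Agent.Hmk.Ca

open Pool.Agent.Hmk Pool.Agent.Hmk.Cn

/-- the strip `0 < Re z < 1` -/
def Sp : Set ℂ := {z | 0 < z.re ∧ z.re < 1}

/-- `f : A → B` is a conformal bijection of open sets with inverse `g` -/
structure Bih (A B : Set ℂ) (f g : ℂ → ℂ) : Prop where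
  oA : IsOpen A
  oB : IsOpen B
  df : DifferentiableOn ℂ f A
  dg : DifferentiableOn ℂ g B
  mf : MapsTo f A B
  mg : MapsTo g B A
  gf : ∀ z ∈ A, g (f z) = z
  fg : ∀ z ∈ B, f (g z) = z

/-- the boundary of `W` is the simple closed path `γ 0, γ 1, ..., γ N = γ 0` in the triangular
lattice of mesh `δ` -/
structure LPath (W : Set ℂ) (δ : ℝ) (N : ℕ) (γ : ℕ → ℤ × ℤ) : Prop where
  per : ∀ k, γ (k + N) = γ k
  inj : InjOn γ (Iio N)
  adj : ∀ k, ∃ i, γ (k + 1) = γ k + st i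
  fr : frontier W = ⋃ k, segment ℝ (lat δ (γ k)) (lat δ (γ (k + 1)))

/-- `W` is a lattice domain bounded by the path `γ`, `D` the set of vertices in `W`; the boundary values
`b` are `l` on one arc and `- l` on the complementary arc, the arcs end in midpoints of
edges.  `g` is the conformal map of `W` onto the strip which maps the arc with value `l` to
`Re = 1` and the arc with value `- l` to `Re = 0` -/
structure Dom (l : ℝ) (W : Set ℂ) (g : ℂ → ℂ) (δ : ℝ) (N : ℕ) (γ : ℕ → ℤ × ℤ)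
    (D : Finset (ℤ × ℤ)) (b : ℤ × ℤ → ℝ) : Prop where
  path : LPath W δ N γ
  free : ∀ x, x ∈ D ↔ lat δ x ∈ W
  bv : ∀ k,
    (b (γ k) = l ∧ ∀ ζ ∈ frontier W, ‖ζ - lat δ (γ k)‖ < δ / 2 →
      Tendsto (fun z => (g z).re) (𝓝[W] ζ) (𝓝 1)) ∨
    (b (γ k) = - l ∧ ∀ ζ ∈ frontier W, ‖ζ - lat δ (γ k)‖ < δ / 2 →
      Tendsto (fun z => (g z).re) (𝓝[W] ζ) (𝓝 0))

end Pool.Agent.Hmk.Ca
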