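import Pool.Agent.Hmk.CaC
import Pool.Agent.Hmk.CaA

/-!
# Hmk, Caratheodory part (helper70): discrete energy of functions of a conformal map
-/

set_option autoImplicit false

open MeasureTheory Set Filter
open scoped ENNReal ContDiff Topology

noncomputable section

namespace Pool.Agent.Hmk.Ca

open Pool.Agent.Hmk Pool.Agent.Hmk.Cn Pool.Agent.Hmk.Mn

/- MODULE nea
Sub-mean value property: `F z` is the average of `F` over the ball (polar coordinates and
`DiffContOnCl.circleAverage` for every radius), for `F = G'²`. -/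
private theorem nea_circ {F : ℂ → ℂ} {z : ℂ} {r ρ : ℝ} (hρ : 0 < ρ) (hρr : ρ < r)
    (hF : DifferentiableOn ℂ F (Metric.ball z r)) :
    2 * Real.pi * ‖F z‖ ≤ ∫ θ in Ioo (-Real.pi) Real.pi, ‖F (circleMap z ρ θ)‖ := by
  have habs : |ρ| = ρ := abs_of_pos hρ
  have hsub : Metric.closedBall z |ρ| ⊆ Metric.ball z r := by
    rw [habs]
    exact Metric.closedBall_subset_ball hρr
  have hd : DiffContOnCl ℂ F (Metric.ball z |ρ|) := by
    refine DifferentiableOn.diffContOnCl ?_
    refine hF.mono ?_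
    rw [habs]
    exact (Metric.closure_ball_subset_closedBall).trans (by rw [habs] at hsub; exact hsub)
  have h1 := hd.circleAverage
  rw [Real.circleAverage_eq_integral_add (-Real.pi)] at h1
  have h2 : ∫ θ in (0 : ℝ)..2 * Real.pi, F (circleMap z ρ (θ + -Real.pi)) =
      ∫ θ in (-Real.pi)..Real.pi, F (circleMap z ρ θ) := by
    rw [intervalIntegral.integral_comp_add_right (fun θ => F (circleMap z ρ θ))]
    congr 1 <;> ring
  rw [h2] at h1
  have hpi := Real.pi_pos
  have h3 : ‖F z‖ ≤ (2 * Real.pi)⁻¹ * ∫ θ in (-Real.pi)..Real.pi, ‖F (circleMap z ρ θ)‖ := by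
    rw [← h1, norm_smul, Real.norm_of_nonneg (by positivity)]
    refine mul_le_mul_of_nonneg_left ?_ (by positivity)
    exact intervalIntegral.norm_integral_le_integral_norm (by linarith)
  rw [intervalIntegral.integral_of_le (by linarith), integral_Ioc_eq_integral_Ioo] at h3
  calc 2 * Real.pi * ‖F z‖ ≤ 2 * Real.pi * ((2 * Real.pi)⁻¹ *
        ∫ θ in Ioo (-Real.pi) Real.pi, ‖F (circleMap z ρ θ)‖) :=
        mul_le_mul_of_nonneg_left h3 (by positivity)
    _ = _ := by field_simp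

private theorem nea_polar (z : ℂ) (p : ℝ × ℝ) :
    z + Complex.polarCoord.symm p = circleMap z p.1 p.2 := by
  rw [Complex.polarCoord_symm_apply]
  unfold circleMap
  rw [Complex.exp_mul_I, Complex.ofReal_cos, Complex.ofReal_sin]

theorem sub_mean {F : ℂ → ℂ} {z : ℂ} {r : ℝ} (hr : 0 < r)
    (hF : DifferentiableOn ℂ F (Metric.ball z r)) (hFc : ContinuousOn F (Metric.closedBall z r)) :
    Real.pi * r ^ 2 * ‖F z‖ ≤ ∫ w in Metric.ball z r, ‖F w‖ := by
  have hpi := Real.pi_pos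
  set f : ℂ → ℝ := (Metric.ball (0 : ℂ) r).indicator (fun w => ‖F (z + w)‖) with hf
  set h : ℝ × ℝ → ℝ := fun p => p.1 * ‖F (circleMap z p.1 p.2)‖ with hh
  have e1 : ∫ w in Metric.ball z r, ‖F w‖ = ∫ w, f w := by
    rw [← integral_indicator Metric.isOpen_ball.measurableSet,
      ← integral_add_left_eq_self _ z]
    refine integral_congr_ae (Eventually.of_forall fun w => ?_)
    simp only [hf, indicator, mem_ball_iff_norm, add_sub_cancel_left, sub_zero]
  have e2 : ∫ w, f w = ∫ p in Ioo 0 r ×ˢ Ioo (-Real.pi) Real.pi, h p := by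
    rw [← Complex.integral_comp_polarCoord_symm, polarCoord_target]
    have hsub : Ioo 0 r ×ˢ Ioo (-Real.pi) Real.pi ⊆ Ioi 0 ×ˢ Ioo (-Real.pi) Real.pi :=
      prod_mono Ioo_subset_Ioi_self (Subset.refl _)
    have hm : MeasurableSet (Ioi (0 : ℝ) ×ˢ Ioo (-Real.pi) Real.pi) :=
      measurableSet_Ioi.prod measurableSet_Ioo
    rw [setIntegral_eq_of_subset_of_forall_sdiff_eq_zero hm hsub]
    · refine setIntegral_congr_fun (measurableSet_Ioo.prod measurableSet_Ioo) fun p hp => ?_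
      obtain ⟨⟨hp1, hp2⟩, -⟩ := hp
      have h5 : Complex.polarCoord.symm p ∈ Metric.ball (0 : ℂ) r := by
        rw [mem_ball_zero_iff, Complex.norm_polarCoord_symm, abs_of_pos hp1]
        exact hp2
      simp only [hf, hh, indicator_of_mem h5, smul_eq_mul, nea_polar]
    · intro p hp
      obtain ⟨⟨hp1, hp2⟩, hp3⟩ := hp
      have h5 : Complex.polarCoord.symm p ∉ Metric.ball (0 : ℂ) r := by
        rw [mem_ball_zero_iff, Complex.norm_polarCoord_symm, abs_of_pos hp1]
        intro h6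
        exact hp3 ⟨⟨hp1, h6⟩, hp2⟩
      simp only [hf, indicator_of_notMem h5, smul_zero]
  have hmaps : ∀ p ∈ Icc 0 r ×ˢ Icc (-Real.pi) Real.pi,
      circleMap z p.1 p.2 ∈ Metric.closedBall z r := by
    intro p hp
    rw [mem_closedBall_iff_norm, norm_sub_rev, ← norm_neg]
    simp only [circleMap, neg_sub, add_sub_cancel_left, norm_mul, Complex.norm_exp_ofReal_mul_I,
      mul_one, Complex.norm_real, Real.norm_eq_abs]
    rw [abs_of_nonneg hp.1.1]
    exact hp.1.2
  have hcont : ContinuousOn h (Icc 0 r ×ˢ Icc (-Real.pi) Real.pi) := by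
    have h1 : Continuous (fun p : ℝ × ℝ => circleMap z p.1 p.2) := by
      unfold circleMap
      fun_prop
    exact continuous_fst.continuousOn.mul ((hFc.comp h1.continuousOn hmaps).norm)
  have hint : IntegrableOn h (Ioo 0 r ×ˢ Ioo (-Real.pi) Real.pi) :=
    (hcont.integrableOn_compact (isCompact_Icc.prod isCompact_Icc)).mono_set
      (prod_mono Ioo_subset_Icc_self Ioo_subset_Icc_self)
  have hint' : IntegrableOn h (Ioo 0 r ×ˢ Ioo (-Real.pi) Real.pi)
      ((volume : Measure ℝ).prod (volume : Measure ℝ)) := hint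
  rw [e1, e2]
  show _ ≤ ∫ p in Ioo 0 r ×ˢ Ioo (-Real.pi) Real.pi, h p
    ∂((volume : Measure ℝ).prod (volume : Measure ℝ))
  rw [setIntegral_prod _ hint']
  have e3 : Real.pi * r ^ 2 * ‖F z‖ = ∫ ρ in Ioo 0 r, 2 * Real.pi * ‖F z‖ * ρ := by
    rw [integral_const_mul, ← integral_Ioc_eq_integral_Ioo,
      ← intervalIntegral.integral_of_le hr.le, integral_id]
    ring
  rw [e3]
  have hint2 : IntegrableOn (fun ρ => ∫ θ in Ioo (-Real.pi) Real.pi, h (ρ, θ)) (Ioo 0 r) := by
    have h1 : Integrable h (((volume : Measure ℝ).restrict (Ioo 0 r)).prod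
        ((volume : Measure ℝ).restrict (Ioo (-Real.pi) Real.pi))) := by
      rw [Measure.prod_restrict]
      exact hint'
    exact h1.integral_prod_left
  refine setIntegral_mono_on ?_ hint2 measurableSet_Ioo fun ρ hρ => ?_
  · exact (continuous_const.mul continuous_id).continuousOn.integrableOn_compact
      isCompact_Icc |>.mono_set Ioo_subset_Icc_self
  · simp only [hh]
    rw [integral_const_mul]
    have h1 := nea_circ hρ.1 hρ.2 hF
    nlinarith [hρ.1]
/- END nea -/

/- MODULE neb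
`G` maps into the strip: `|G z - G x| ≤ 2 |z - x| / (r - |z - x|)` (`Complex.borelCaratheodory_zero` for
`G (x + w) - G x`, real part `< 1`); here for `|z - x| ≤ 7/8 r` the bound `14`. -/
theorem strip_osc {G : ℂ → ℂ} {x : ℂ} {r : ℝ} (hr : 0 < r)
    (hG : DifferentiableOn ℂ G (Metric.ball x r)) (h : ∀ z ∈ Metric.ball x r, G z ∈ Sp)
    {z : ℂ} (hz : ‖z - x‖ ≤ 7 / 8 * r) : ‖G z - G x‖ ≤ 14 := by
  have hx : 0 < (G x).re := (h x (Metric.mem_ball_self hr)).1
  have hw : z - x ∈ Metric.ball (0 : ℂ) r := by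
    rw [mem_ball_zero_iff]
    linarith
  have hm : ∀ w ∈ Metric.ball (0 : ℂ) r, x + w ∈ Metric.ball x r := fun w hw => by
    rw [Metric.mem_ball, dist_eq_norm, add_sub_cancel_left]
    exact mem_ball_zero_iff.1 hw
  have h1 := Complex.borelCaratheodory_zero (M := 1) (R := r)
    (f := fun w => G (x + w) - G x) one_pos
    ((hG.comp ((differentiable_id.const_add x).differentiableOn) hm).sub_const _)
    (fun w hw => by
      show (G (x + w) - G x).re ≤ 1
      rw [Complex.sub_re]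
      have h2 := (h (x + w) (hm w hw)).2
      linarith) hr hw (by simp)
  simp only [add_sub_cancel] at h1
  refine h1.trans ?_
  rw [div_le_iff₀ (by linarith)]
  linarith
/- END neb -/

/- MODULE nec
ONE EDGE.  `m` = the midpoint; `|G x - G m| ≤ (δ/2) sup |G'|` over `closedBall x (δ/2)`, where by
`sub_mean` (`F = G'²`, radius `δ/5`) `|G' z|² ≤ C δ⁻² ∫_{ball x (7/10 δ)} |G'|²`; the same at `y`. -/
private theorem nec_half {G : ℂ → ℂ} {W : Set ℂ} (hW : IsOpen W) (hG : DifferentiableOn ℂ G W)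
    {x m : ℂ} {δ : ℝ} (hδ : 0 < δ) (hm : ‖m - x‖ ≤ δ / 2)
    (hx : Metric.closedBall x (8 / 10 * δ) ⊆ W) :
    ‖G m - G x‖ ^ 2 ≤ 25 / (4 * Real.pi) *
      ∫ w in Metric.ball x (7 / 10 * δ), ‖deriv G w‖ ^ 2 := by
  have hpi := Real.pi_pos
  set I : ℝ := ∫ w in Metric.ball x (7 / 10 * δ), ‖deriv G w‖ ^ 2 with hI
  have hI0 : 0 ≤ I := integral_nonneg fun w => by positivity
  have hd : DifferentiableOn ℂ (deriv G) W := hG.deriv hW
  have hint : IntegrableOn (fun w => ‖deriv G w‖ ^ 2) (Metric.ball x (7 / 10 * δ)) := by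
    have h1 : ContinuousOn (fun w => ‖deriv G w‖ ^ 2) (Metric.closedBall x (7 / 10 * δ)) :=
      ((hd.continuousOn.mono ((Metric.closedBall_subset_closedBall (by linarith)).trans hx)).norm).pow 2
    exact (h1.integrableOn_compact (isCompact_closedBall _ _)).mono_set Metric.ball_subset_closedBall
  have key : ∀ z ∈ Metric.closedBall x (δ / 2), ‖deriv G z‖ ≤ Real.sqrt (25 / (Real.pi * δ ^ 2) * I) := by
    intro z hz
    rw [Metric.mem_closedBall] at hz
    have hsub : Metric.closedBall z (δ / 5) ⊆ W := by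
      refine Set.Subset.trans ?_ hx
      exact Metric.closedBall_subset_closedBall' (by linarith)
    have h2 := sub_mean (F := fun w => deriv G w ^ 2) (z := z) (r := δ / 5) (by linarith)
      ((hd.mono (Metric.ball_subset_closedBall.trans hsub)).pow 2)
      ((hd.continuousOn.mono hsub).pow 2)
    have h3 : ∫ w in Metric.ball z (δ / 5), ‖deriv G w ^ 2‖ ≤ I := by
      simp only [norm_pow]
      refine setIntegral_mono_set hint (ae_of_all _ fun w => by positivity) ?_
      refine (Metric.ball_subset_ball' ?_).eventuallyLE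
      linarith
    refine Real.le_sqrt_of_sq_le ?_
    rw [norm_pow] at h2
    have h4 : Real.pi * (δ / 5) ^ 2 * ‖deriv G z‖ ^ 2 ≤ I := h2.trans h3
    rw [div_mul_eq_mul_div, le_div_iff₀ (by positivity)]
    nlinarith [h4]
  have h5 : ‖G m - G x‖ ≤ Real.sqrt (25 / (Real.pi * δ ^ 2) * I) * ‖m - x‖ := by
    refine Convex.norm_image_sub_le_of_norm_deriv_le (s := Metric.closedBall x (δ / 2))
      (fun z hz => ?_) key (convex_closedBall x _) (Metric.mem_closedBall_self (by linarith)) ?_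
    · refine (hG z (hx ?_)).differentiableAt (hW.mem_nhds (hx ?_)) <;>
      · rw [Metric.mem_closedBall] at hz ⊢
        linarith
    · rw [Metric.mem_closedBall, dist_eq_norm]
      exact hm
  have h6 : ‖G m - G x‖ ≤ Real.sqrt (25 / (Real.pi * δ ^ 2) * I) * (δ / 2) :=
    h5.trans (mul_le_mul_of_nonneg_left hm (Real.sqrt_nonneg _))
  calc ‖G m - G x‖ ^ 2 ≤ (Real.sqrt (25 / (Real.pi * δ ^ 2) * I) * (δ / 2)) ^ 2 :=
        pow_le_pow_left₀ (norm_nonneg _) h6 2
    _ = 25 / (4 * Real.pi) * I := by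
        rw [mul_pow, Real.sq_sqrt (by positivity)]
        field_simp
        ring

theorem edge_est : ∃ C : ℝ, 0 < C ∧ ∀ (G : ℂ → ℂ) (W : Set ℂ), IsOpen W →
    DifferentiableOn ℂ G W → ∀ (x y : ℂ) (δ : ℝ), 0 < δ → ‖x - y‖ = δ →
    Metric.closedBall x (8 / 10 * δ) ⊆ W → Metric.closedBall y (8 / 10 * δ) ⊆ W →
    ‖G x - G y‖ ^ 2 ≤ C * ((∫ w in Metric.ball x (7 / 10 * δ), ‖deriv G w‖ ^ 2) +
      ∫ w in Metric.ball y (7 / 10 * δ), ‖deriv G w‖ ^ 2) := by
  have hpi := Real.pi_pos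
  refine ⟨2 * (25 / (4 * Real.pi)), by positivity, ?_⟩
  intro G W hW hG x y δ hδ hxy hx hy
  have hm1 : ‖(x + y) / 2 - x‖ ≤ δ / 2 := by
    rw [show (x + y) / 2 - x = -((x - y) / 2) by ring, norm_neg, norm_div, hxy]
    norm_num
  have hm2 : ‖(x + y) / 2 - y‖ ≤ δ / 2 := by
    rw [show (x + y) / 2 - y = (x - y) / 2 by ring, norm_div, hxy]
    norm_num
  have h1 := nec_half hW hG hδ hm1 hx
  have h2 := nec_half hW hG hδ hm2 hy
  have h3 : ‖G x - G y‖ ≤ ‖G ((x + y) / 2) - G x‖ + ‖G ((x + y) / 2) - G y‖ := by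
    have h4 := norm_sub_le (G ((x + y) / 2) - G y) (G ((x + y) / 2) - G x)
    rw [show G ((x + y) / 2) - G y - (G ((x + y) / 2) - G x) = G x - G y by ring] at h4
    linarith
  have h5 : ‖G x - G y‖ ^ 2 ≤ 2 * (‖G ((x + y) / 2) - G x‖ ^ 2 + ‖G ((x + y) / 2) - G y‖ ^ 2) := by
    have h6 := pow_le_pow_left₀ (norm_nonneg _) h3 2
    nlinarith [sq_nonneg (‖G ((x + y) / 2) - G x‖ - ‖G ((x + y) / 2) - G y‖)]
  calc ‖G x - G y‖ ^ 2 ≤ 2 * (‖G ((x + y) / 2) - G x‖ ^ 2 + ‖G ((x + y) / 2) - G y‖ ^ 2) := h5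
    _ ≤ 2 * (25 / (4 * Real.pi) * (∫ w in Metric.ball x (7 / 10 * δ), ‖deriv G w‖ ^ 2) +
      25 / (4 * Real.pi) * ∫ w in Metric.ball y (7 / 10 * δ), ‖deriv G w‖ ^ 2) := by
        linarith
    _ = _ := by ring
/- END nec -/

/- MODULE ned
THE ENERGY of `H ∘ g` on the lattice.  Only edges count with `|Im g x| < L` or `|Im g y| < L`; for these
(`strip_osc` along the edge) both ends have `|Im g| < L + 28`, and the images of the balls of radius
`7/10 δ` about both ends are in `{w ∈ Sp | |Im w| < L + 42}` of area `2 (L + 42) ≤ 86 L`.  The balls about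
different vertices overlap at most 7 times (`near_lat`: a point in the balls about `x` and `y` has
`|lat x - lat y| < 3/2 δ`).  `Bih.area`, `edge_est`. -/
private theorem ned_vol {M : ℝ} (hM : 0 ≤ M) :
    volume {w : ℂ | w ∈ Sp ∧ |w.im| < M} ≤ ENNReal.ofReal (2 * M) := by
  have h1 : {w : ℂ | w ∈ Sp ∧ |w.im| < M} =
      Complex.measurableEquivRealProd ⁻¹' (Ioo (0 : ℝ) 1 ×ˢ Ioo (-M) M) := by
    ext w
    simp only [Sp, mem_ofPred_eq, mem_preimage, Complex.measurableEquivRealProd_apply, mem_prod,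
      mem_Ioo, abs_lt]
  rw [h1, Complex.volume_preserving_equiv_real_prod.measure_preimage
    (measurableSet_Ioo.prod measurableSet_Ioo).nullMeasurableSet, Measure.volume_eq_prod,
    Measure.prod_prod, Real.volume_Ioo, Real.volume_Ioo, ← ENNReal.ofReal_mul (by norm_num)]
  refine ENNReal.ofReal_le_ofReal (le_of_eq ?_)
  ring

private theorem ned_near {δ : ℝ} (hδ : 0 < δ) {z : ℂ} {x y : ℤ × ℤ}
    (hx : z ∈ Metric.ball (lat δ x) (7 / 10 * δ)) (hy : z ∈ Metric.ball (lat δ y) (7 / 10 * δ)) :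
    x = y ∨ ∃ i, y = x + st i := by
  refine near_lat ?_
  have h1 : lat δ x - lat δ y = (δ : ℂ) * (lat 1 x - lat 1 y) := by
    rw [lat_mul δ x, lat_mul δ y]
    ring
  have h2 : ‖lat δ x - lat δ y‖ = δ * ‖lat 1 x - lat 1 y‖ := by
    rw [h1, norm_mul, Complex.norm_real, Real.norm_eq_abs, abs_of_pos hδ]
  rw [Metric.mem_ball, dist_eq_norm] at hx hy
  have h3 : ‖lat δ x - lat δ y‖ ≤ ‖z - lat δ y‖ + ‖z - lat δ x‖ := by
    have h4 := norm_sub_le (z - lat δ y) (z - lat δ x)
    rw [show z - lat δ y - (z - lat δ x) = lat δ x - lat δ y by ring] at h4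
    exact h4
  have h5 : δ * ‖lat 1 x - lat 1 y‖ < δ * (3 / 2) := by
    rw [← h2]
    linarith
  exact lt_of_mul_lt_mul_left h5 hδ.le

private theorem ned_count {δ : ℝ} (hδ : 0 < δ) (D' : Finset (ℤ × ℤ)) {E : Set ℂ}
    (hE : ∀ x ∈ D', Metric.ball (lat δ x) (7 / 10 * δ) ⊆ E) (φ : ℂ → ENNReal) (z : ℂ) :
    ∑ x ∈ D', (Metric.ball (lat δ x) (7 / 10 * δ)).indicator φ z ≤ E.indicator (fun z => 7 * φ z) z := by
  classical
  by_cases hz : ∃ x ∈ D', z ∈ Metric.ball (lat δ x) (7 / 10 * δ)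
  · obtain ⟨x₀, hx₀, hz₀⟩ := hz
    rw [indicator_of_mem (hE x₀ hx₀ hz₀)]
    have h1 : ∑ x ∈ D', (Metric.ball (lat δ x) (7 / 10 * δ)).indicator φ z =
        ∑ x ∈ D'.filter (fun x => z ∈ Metric.ball (lat δ x) (7 / 10 * δ)), φ z := by
      rw [Finset.sum_filter]
      refine Finset.sum_congr rfl fun x _ => ?_
      by_cases h : z ∈ Metric.ball (lat δ x) (7 / 10 * δ)
      · rw [indicator_of_mem h, if_pos h]
      · rw [indicator_of_notMem h, if_neg h]
    have h2 : D'.filter (fun x => z ∈ Metric.ball (lat δ x) (7 / 10 * δ)) ⊆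
        insert x₀ (Finset.univ.image (fun i : Fin 6 => x₀ + st i)) := by
      intro x hx
      rw [Finset.mem_filter] at hx
      rcases ned_near hδ hz₀ hx.2 with h | ⟨i, h⟩
      · rw [h]
        exact Finset.mem_insert_self _ _
      · refine Finset.mem_insert_of_mem (Finset.mem_image.2 ⟨i, Finset.mem_univ _, h.symm⟩)
    have h3 : (D'.filter (fun x => z ∈ Metric.ball (lat δ x) (7 / 10 * δ))).card ≤ 7 := by
      refine (Finset.card_le_card h2).trans ((Finset.card_insert_le _ _).trans ?_)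
      have h4 := Finset.card_image_le (s := (Finset.univ : Finset (Fin 6)))
        (f := fun i : Fin 6 => x₀ + st i)
      rw [Finset.card_univ, Fintype.card_fin] at h4
      omega
    rw [h1, Finset.sum_const, nsmul_eq_mul]
    refine mul_le_mul_left ?_ _
    exact_mod_cast h3
  · push Not at hz
    rw [Finset.sum_eq_zero fun x hx => indicator_of_notMem (hz x hx) _]
    exact zero_le

private theorem ned_sum {W : Set ℂ} {f g : ℂ → ℂ} (h : Bih Sp W f g) {δ : ℝ} (hδ : 0 < δ)
    {D' : Finset (ℤ × ℤ)} (hW : ∀ x ∈ D', Metric.closedBall (lat δ x) (8 / 10 * δ) ⊆ W) {M : ℝ}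
    (hM : 0 ≤ M) (hE : ∀ x ∈ D', ∀ z ∈ Metric.ball (lat δ x) (7 / 10 * δ), |(g z).im| < M) :
    ∑ x ∈ D', ∫ w in Metric.ball (lat δ x) (7 / 10 * δ), ‖deriv g w‖ ^ 2 ≤ 7 * (2 * M) := by
  set φ : ℂ → ENNReal := fun z => ENNReal.ofReal (‖deriv g z‖ ^ 2) with hφ
  have hφm : Measurable φ := ((measurable_deriv g).norm.pow_const 2).ennreal_ofReal
  set E : Set ℂ := W ∩ (fun z => (g z).im) ⁻¹' (Ioo (-M) M) with hEdef
  have hEo : IsOpen E := by
    refine ContinuousOn.isOpen_inter_preimage ?_ h.oB isOpen_Ioo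
    exact Complex.continuous_im.comp_continuousOn h.dg.continuousOn
  have hbE : ∀ x ∈ D', Metric.ball (lat δ x) (7 / 10 * δ) ⊆ E := fun x hx z hz => by
    refine ⟨hW x hx ?_, ?_⟩
    · rw [Metric.mem_closedBall]
      rw [Metric.mem_ball] at hz
      linarith
    · exact abs_lt.1 (hE x hx z hz)
  have hd : DifferentiableOn ℂ (deriv g) W := h.dg.deriv h.oB
  have hint : ∀ x ∈ D', IntegrableOn (fun w => ‖deriv g w‖ ^ 2)
      (Metric.ball (lat δ x) (7 / 10 * δ)) := fun x hx => by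
    have h1 : ContinuousOn (fun w => ‖deriv g w‖ ^ 2)
        (Metric.closedBall (lat δ x) (8 / 10 * δ)) :=
      ((hd.continuousOn.mono (hW x hx)).norm).pow 2
    refine (h1.integrableOn_compact (isCompact_closedBall _ _)).mono_set ?_
    exact Metric.ball_subset_closedBall.trans (Metric.closedBall_subset_closedBall (by linarith))
  have h1 : ENNReal.ofReal (∑ x ∈ D', ∫ w in Metric.ball (lat δ x) (7 / 10 * δ), ‖deriv g w‖ ^ 2) =
      ∑ x ∈ D', ∫⁻ w in Metric.ball (lat δ x) (7 / 10 * δ), φ w := by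
    rw [ENNReal.ofReal_sum_of_nonneg fun x _ => integral_nonneg fun w => by positivity]
    refine Finset.sum_congr rfl fun x hx => ?_
    exact ofReal_integral_eq_lintegral_ofReal (hint x hx) (ae_of_all _ fun w => by positivity)
  have h2 : ∑ x ∈ D', ∫⁻ w in Metric.ball (lat δ x) (7 / 10 * δ), φ w ≤ 7 * ENNReal.ofReal (2 * M) := by
    calc ∑ x ∈ D', ∫⁻ w in Metric.ball (lat δ x) (7 / 10 * δ), φ w
        = ∑ x ∈ D', ∫⁻ w, (Metric.ball (lat δ x) (7 / 10 * δ)).indicator φ w := by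
          refine Finset.sum_congr rfl fun x _ => ?_
          rw [lintegral_indicator Metric.isOpen_ball.measurableSet]
      _ = ∫⁻ w, ∑ x ∈ D', (Metric.ball (lat δ x) (7 / 10 * δ)).indicator φ w := by
          rw [lintegral_finsetSum]
          intro x _
          exact hφm.indicator Metric.isOpen_ball.measurableSet
      _ ≤ ∫⁻ w, E.indicator (fun z => 7 * φ z) w := lintegral_mono fun w => ned_count hδ D' hbE φ w
      _ = ∫⁻ w in E, 7 * φ w := lintegral_indicator hEo.measurableSet _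
      _ = 7 * ∫⁻ w in E, φ w := lintegral_const_mul _ hφm
      _ = 7 * volume (g '' E) := by rw [h.area hEo.measurableSet inter_subset_left]
      _ ≤ 7 * volume {w : ℂ | w ∈ Sp ∧ |w.im| < M} := by
          refine mul_le_mul_right (measure_mono ?_) _
          rintro _ ⟨z, hz, rfl⟩
          exact ⟨h.mg hz.1, abs_lt.2 hz.2⟩
      _ ≤ 7 * ENNReal.ofReal (2 * M) := mul_le_mul_right (ned_vol hM) _
  rw [← h1] at h2
  have h3 : (7 : ENNReal) * ENNReal.ofReal (2 * M) = ENNReal.ofReal (7 * (2 * M)) := by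
    rw [ENNReal.ofReal_mul (by norm_num : (0 : ℝ) ≤ 7)]
    norm_num
  rw [h3] at h2
  exact (ENNReal.ofReal_le_ofReal_iff (by positivity)).1 h2

private theorem ned_osc {W : Set ℂ} {f g : ℂ → ℂ} (h : Bih Sp W f g) {c : ℂ} {δ : ℝ} (hδ : 0 < δ)
    (hW : Metric.closedBall c (8 / 10 * δ) ⊆ W) {z : ℂ} (hz : ‖z - c‖ ≤ 7 / 10 * δ) :
    ‖g z - g c‖ ≤ 14 := by
  have hb : Metric.ball c (8 / 10 * δ) ⊆ W := Metric.ball_subset_closedBall.trans hW
  refine strip_osc (r := 8 / 10 * δ) (by linarith) (h.dg.mono hb) (fun w hw => h.mg (hb hw)) ?_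
  linarith

theorem energy_g : ∃ C : ℝ, 0 < C ∧ ∀ (W : Set ℂ) (f g : ℂ → ℂ), Bih Sp W f g →
    ∀ (δ : ℝ) (D : Finset (ℤ × ℤ)), 0 < δ →
    (∀ x ∈ D, Metric.closedBall (lat δ x) (8 / 10 * δ) ⊆ W) →
    ∀ (H : ℂ → ℝ) (Λ L : ℝ), 0 ≤ Λ → 1 ≤ L →
    (∀ w ∈ Sp, ∀ w' ∈ Sp, |H w - H w'| ≤ Λ * ‖w - w'‖) →
    (∀ w ∈ Sp, L ≤ |w.im| → H w = 0) →
    EIi D (fun x => H (g (lat δ x))) ≤ C * Λ ^ 2 * L := by
  classical
  obtain ⟨C, hC, hedge⟩ := edge_est
  refine ⟨C * 7224, by positivity, ?_⟩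
  intro W f g h δ D hδ hW H Λ L hΛ hL hH hH0
  set D' : Finset (ℤ × ℤ) := D.filter (fun x => |(g (lat δ x)).im| < L + 28) with hD'
  set I : ℤ × ℤ → ℝ := fun x => ∫ w in Metric.ball (lat δ x) (7 / 10 * δ), ‖deriv g w‖ ^ 2 with hI
  have hI0 : ∀ x, 0 ≤ I x := fun x => integral_nonneg fun w => by positivity
  have hmem : ∀ x ∈ D, g (lat δ x) ∈ Sp := fun x hx =>
    h.mg (hW x hx (Metric.mem_closedBall_self (by linarith)))
  have him : ∀ w w' : ℂ, |w.im| ≤ |w'.im| + ‖w - w'‖ := fun w w' => by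
    have h1 := Complex.abs_im_le_norm (w - w')
    rw [Complex.sub_im] at h1
    have h2 := abs_sub_abs_le_abs_sub w.im w'.im
    linarith
  -- one edge
  have hone : ∀ x ∈ D, ∀ i, (if x + st i ∈ D then
      (H (g (lat δ x)) - H (g (lat δ (x + st i)))) ^ 2 else 0) ≤
      Λ ^ 2 * C * ((if x ∈ D' then I x else 0) + (if x + st i ∈ D' then I (x + st i) else 0)) := by
    intro x hx i
    have hr0 : 0 ≤ Λ ^ 2 * C * ((if x ∈ D' then I x else 0) +
        (if x + st i ∈ D' then I (x + st i) else 0)) := by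
      have h1 := hI0 x
      have h2 := hI0 (x + st i)
      split_ifs <;> positivity
    by_cases hy : x + st i ∈ D
    swap
    · rw [if_neg hy]
      exact hr0
    rw [if_pos hy]
    have hxy : ‖lat δ x - lat δ (x + st i)‖ = δ := by
      rw [lat_add, show lat δ x - (lat δ x + lat δ (st i)) = - lat δ (st i) by ring, norm_neg,
        norm_st hδ.le]
    have hg28 : ‖g (lat δ x) - g (lat δ (x + st i))‖ ≤ 28 := by
      have h1 : ‖(lat δ x + lat δ (x + st i)) / 2 - lat δ x‖ ≤ 7 / 10 * δ := by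
        rw [show (lat δ x + lat δ (x + st i)) / 2 - lat δ x =
          -((lat δ x - lat δ (x + st i)) / 2) by ring, norm_neg, norm_div, hxy]
        simp only [Complex.norm_ofNat]
        linarith
      have h2 : ‖(lat δ x + lat δ (x + st i)) / 2 - lat δ (x + st i)‖ ≤ 7 / 10 * δ := by
        rw [show (lat δ x + lat δ (x + st i)) / 2 - lat δ (x + st i) =
          (lat δ x - lat δ (x + st i)) / 2 by ring, norm_div, hxy]
        simp only [Complex.norm_ofNat]
        linarith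
      have h3 := ned_osc h hδ (hW x hx) h1
      have h4 := ned_osc h hδ (hW _ hy) h2
      have h5 := norm_sub_le (g ((lat δ x + lat δ (x + st i)) / 2) - g (lat δ (x + st i)))
        (g ((lat δ x + lat δ (x + st i)) / 2) - g (lat δ x))
      rw [show g ((lat δ x + lat δ (x + st i)) / 2) - g (lat δ (x + st i)) -
        (g ((lat δ x + lat δ (x + st i)) / 2) - g (lat δ x)) =
        g (lat δ x) - g (lat δ (x + st i)) by ring] at h5
      linarith
    by_cases hbig : L ≤ |(g (lat δ x)).im| ∧ L ≤ |(g (lat δ (x + st i))).im|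
    · rw [hH0 _ (hmem x hx) hbig.1, hH0 _ (hmem _ hy) hbig.2]
      simpa using hr0
    · have hin : x ∈ D' ∧ x + st i ∈ D' := by
        rw [hD', Finset.mem_filter, Finset.mem_filter]
        have h1 := him (g (lat δ x)) (g (lat δ (x + st i)))
        have h2 := him (g (lat δ (x + st i))) (g (lat δ x))
        rw [norm_sub_rev] at h2
        by_cases h3 : L ≤ |(g (lat δ x)).im|
        · have h4 : |(g (lat δ (x + st i))).im| < L := by
            by_contra h5
            exact hbig ⟨h3, not_lt.1 h5⟩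
          exact ⟨⟨hx, by linarith⟩, ⟨hy, by linarith⟩⟩
        · exact ⟨⟨hx, by linarith⟩, ⟨hy, by linarith⟩⟩
      rw [if_pos hin.1, if_pos hin.2]
      have h1 := hH _ (hmem x hx) _ (hmem _ hy)
      have h2 := hedge g W h.oB h.dg (lat δ x) (lat δ (x + st i)) δ hδ hxy (hW x hx) (hW _ hy)
      calc (H (g (lat δ x)) - H (g (lat δ (x + st i)))) ^ 2
          = |H (g (lat δ x)) - H (g (lat δ (x + st i)))| ^ 2 := (sq_abs _).symm
        _ ≤ (Λ * ‖g (lat δ x) - g (lat δ (x + st i))‖) ^ 2 :=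
          pow_le_pow_left₀ (abs_nonneg _) h1 2
        _ = Λ ^ 2 * ‖g (lat δ x) - g (lat δ (x + st i))‖ ^ 2 := by ring
        _ ≤ Λ ^ 2 * (C * (I x + I (x + st i))) := mul_le_mul_of_nonneg_left h2 (by positivity)
        _ = _ := by ring
  have hS1 : ∑ x ∈ D, (if x ∈ D' then I x else 0) = ∑ x ∈ D', I x := by
    rw [← Finset.sum_filter]
    refine Finset.sum_congr ?_ fun _ _ => rfl
    ext x
    simp only [hD', Finset.mem_filter]
    tauto
  have hS2 : ∀ i : Fin 6, ∑ x ∈ D, (if x + st i ∈ D' then I (x + st i) else 0) ≤ ∑ x ∈ D', I x := by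
    intro i
    rw [← Finset.sum_filter]
    have h1 : ∑ x ∈ D.filter (fun x => x + st i ∈ D'), I (x + st i) =
        ∑ y ∈ (D.filter (fun x => x + st i ∈ D')).image (fun x => x + st i), I y := by
      rw [Finset.sum_image fun a _ c _ hac => add_right_cancel hac]
    rw [h1]
    refine Finset.sum_le_sum_of_subset_of_nonneg (fun y hy => ?_) fun y _ _ => hI0 y
    obtain ⟨x, hx, rfl⟩ := Finset.mem_image.1 hy
    exact (Finset.mem_filter.1 hx).2
  have hsum : ∑ x ∈ D', I x ≤ 7 * (2 * (L + 42)) := by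
    refine ned_sum h hδ (fun x hx => hW x (Finset.mem_filter.1 hx).1) (by linarith)
      fun x hx z hz => ?_
    rw [Metric.mem_ball, dist_eq_norm] at hz
    have hx' := Finset.mem_filter.1 hx
    have h1 := ned_osc h hδ (hW x hx'.1) hz.le
    have h2 := him (g z) (g (lat δ x))
    linarith [hx'.2]
  unfold EIi
  calc ∑ x ∈ D, ∑ i, (if x + st i ∈ D then
      (H (g (lat δ x)) - H (g (lat δ (x + st i)))) ^ 2 else 0)
      ≤ ∑ x ∈ D, ∑ i : Fin 6, Λ ^ 2 * C * ((if x ∈ D' then I x else 0) +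
        (if x + st i ∈ D' then I (x + st i) else 0)) :=
        Finset.sum_le_sum fun x hx => Finset.sum_le_sum fun i _ => hone x hx i
    _ = Λ ^ 2 * C * (∑ i : Fin 6, ((∑ x ∈ D, (if x ∈ D' then I x else 0)) +
        ∑ x ∈ D, (if x + st i ∈ D' then I (x + st i) else 0))) := by
        rw [Finset.sum_comm, Finset.mul_sum]
        refine Finset.sum_congr rfl fun i _ => ?_
        rw [← Finset.sum_add_distrib, Finset.mul_sum]
    _ ≤ Λ ^ 2 * C * (∑ _i : Fin 6, ((∑ x ∈ D', I x) + ∑ x ∈ D', I x)) := by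
        refine mul_le_mul_of_nonneg_left (Finset.sum_le_sum fun i _ => ?_) (by positivity)
        exact add_le_add hS1.le (hS2 i)
    _ = Λ ^ 2 * C * (12 * ∑ x ∈ D', I x) := by
        rw [Finset.sum_const, Finset.card_univ, Fintype.card_fin, nsmul_eq_mul]
        push_cast
        ring
    _ ≤ Λ ^ 2 * C * (12 * (7 * (2 * (L + 42)))) := by
        refine mul_le_mul_of_nonneg_left ?_ (by positivity)
        linarith
    _ ≤ Λ ^ 2 * C * (7224 * L) := by
        refine mul_le_mul_of_nonneg_left ?_ (by positivity)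
        linarith
    _ = C * 7224 * Λ ^ 2 * L := by ring
/- END ned -/

end Pool.Agent.Hmk.Ca
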