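import Pool.Agent.Hmk.CaB
import Pool.Agent.Hmk.CaD
import Pool.Agent.Hmk.CaE

/-!
# Hmk, Caratheodory part (helper70): the mean
-/

set_option autoImplicit false

open MeasureTheory Set Filter
open scoped ENNReal ContDiff Topology

noncomputable section

namespace Pool.Agent.Hmk.Ca

open Pool.Agent.Hmk Pool.Agent.Hmk.Cn Pool.Agent.Hmk.Mn

/- MODULE nfa
Cut-offs on the line (`Real.smoothTransition`, scaled). -/
private theorem nfa_st0 {x : ℝ} (h : x ≤ 0) : Real.smoothTransition x = 0 :=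
  Real.smoothTransition.zero_of_nonpos h

private theorem nfa_st1 {x : ℝ} (h : 1 ≤ x) : Real.smoothTransition x = 1 :=
  Real.smoothTransition.one_of_one_le h

theorem line_cut : ∃ C : ℝ, 0 < C ∧ ∀ L : ℝ, 1 ≤ L → ∃ κ : ℝ → ℝ, ContDiff ℝ ∞ κ ∧
    (∀ t, 0 ≤ κ t ∧ κ t ≤ 1) ∧ (∀ t, |t| ≤ L → κ t = 1) ∧ (∀ t, 2 * L ≤ |t| → κ t = 0) ∧
    (∀ t, |deriv κ t| ≤ C / L) ∧ ∀ t, |deriv (deriv κ) t| ≤ C / L ^ 2 := by
  set k : ℝ → ℝ := fun s => Real.smoothTransition (2 - s) * Real.smoothTransition (2 + s) with hk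
  have hks : ContDiff ℝ ∞ k :=
    (Real.smoothTransition.contDiff.comp (contDiff_const.sub contDiff_id)).mul
      (Real.smoothTransition.contDiff.comp (contDiff_const.add contDiff_id))
  have hk1 : ∀ s, |s| ≤ 1 → k s = 1 := fun s hs => by
    have := abs_le.1 hs
    show Real.smoothTransition (2 - s) * Real.smoothTransition (2 + s) = 1
    rw [nfa_st1 (by linarith), nfa_st1 (by linarith), one_mul]
  have hk0 : ∀ s, 2 ≤ |s| → k s = 0 := fun s hs => by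
    show Real.smoothTransition (2 - s) * Real.smoothTransition (2 + s) = 0
    rcases le_abs.1 hs with h | h
    · rw [nfa_st0 (show 2 - s ≤ 0 by linarith), zero_mul]
    · rw [nfa_st0 (show 2 + s ≤ 0 by linarith), mul_zero]
  have hk01 : ∀ s, 0 ≤ k s ∧ k s ≤ 1 := fun s =>
    ⟨mul_nonneg (Real.smoothTransition.nonneg _) (Real.smoothTransition.nonneg _),
      mul_le_one₀ (Real.smoothTransition.le_one _) (Real.smoothTransition.nonneg _)
        (Real.smoothTransition.le_one _)⟩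
  have hkc : HasCompactSupport k := by
    refine HasCompactSupport.intro (isCompact_Icc (a := (-2 : ℝ)) (b := 2)) fun s hs => ?_
    refine hk0 s ?_
    by_contra hn
    rw [not_le] at hn
    have := abs_lt.1 hn
    exact hs ⟨this.1.le, this.2.le⟩
  have hd1 : ContDiff ℝ ∞ (deriv k) := ((contDiff_infty_iff_deriv (𝕜 := ℝ)).1 hks).2
  have hd2 : ContDiff ℝ ∞ (deriv (deriv k)) := ((contDiff_infty_iff_deriv (𝕜 := ℝ)).1 hd1).2
  obtain ⟨C1, hC1⟩ := hkc.deriv.exists_bound_of_continuous hd1.continuous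
  obtain ⟨C2, hC2⟩ := hkc.deriv.deriv.exists_bound_of_continuous hd2.continuous
  have hC10 : 0 ≤ C1 := (norm_nonneg _).trans (hC1 0)
  have hC20 : 0 ≤ C2 := (norm_nonneg _).trans (hC2 0)
  refine ⟨C1 + C2 + 1, by positivity, fun L hL => ?_⟩
  have hL0 : 0 < L := by linarith
  have e0 : ∀ t : ℝ, deriv (fun t => k (L⁻¹ * t)) t = L⁻¹ * deriv k (L⁻¹ * t) := fun t => by
    rw [deriv_comp_mul_left, smul_eq_mul]
  have e1 : deriv (fun t => k (L⁻¹ * t)) = fun t => L⁻¹ * deriv k (L⁻¹ * t) := funext e0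
  have e2 : ∀ t : ℝ, deriv (deriv (fun t => k (L⁻¹ * t))) t =
      L⁻¹ * (L⁻¹ * deriv (deriv k) (L⁻¹ * t)) := fun t => by
    rw [e1, deriv_const_mul_field, deriv_comp_mul_left (f := deriv k), smul_eq_mul]
  have hab : ∀ t : ℝ, |L⁻¹ * t| = |t| / L := fun t => by
    rw [abs_mul, abs_of_pos (inv_pos.2 hL0)]
    field_simp
  refine ⟨fun t => k (L⁻¹ * t), hks.comp (contDiff_const.mul contDiff_id), fun t => hk01 _,
    fun t ht => hk1 _ ?_, fun t ht => hk0 _ ?_, fun t => ?_, fun t => ?_⟩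
  · rw [hab, div_le_one hL0]
    exact ht
  · rw [hab, le_div_iff₀ hL0]
    exact ht
  · rw [e0, abs_mul, abs_of_pos (inv_pos.2 hL0), div_eq_inv_mul]
    refine mul_le_mul_of_nonneg_left ?_ (inv_pos.2 hL0).le
    have := hC1 (L⁻¹ * t)
    rw [Real.norm_eq_abs] at this
    linarith
  · rw [e2, abs_mul, abs_mul, abs_of_pos (inv_pos.2 hL0)]
    have := hC2 (L⁻¹ * t)
    rw [Real.norm_eq_abs] at this
    rw [show (C1 + C2 + 1) / L ^ 2 = L⁻¹ * (L⁻¹ * (C1 + C2 + 1)) by field_simp]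
    refine mul_le_mul_of_nonneg_left (mul_le_mul_of_nonneg_left ?_ (inv_pos.2 hL0).le)
      (inv_pos.2 hL0).le
    linarith

theorem side_cut : ∃ α : ℝ → ℝ, ContDiff ℝ ∞ α ∧ (∀ t, 0 ≤ α t ∧ α t ≤ 1) ∧
    (∀ t, t ≤ 1 / 3 → α t = 0) ∧ (∀ t, 2 / 3 ≤ t → α t = 1) ∧ ∃ C : ℝ, ∀ t, |deriv α t| ≤ C := by
  set a : ℝ → ℝ := fun t => Real.smoothTransition (3 * t - 1) with ha
  have hs : ContDiff ℝ ∞ a :=
    Real.smoothTransition.contDiff.comp ((contDiff_const.mul contDiff_id).sub contDiff_const)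
  have hd : ContDiff ℝ ∞ (deriv a) := ((contDiff_infty_iff_deriv (𝕜 := ℝ)).1 hs).2
  have hc : HasCompactSupport (deriv a) := by
    refine HasCompactSupport.intro (isCompact_Icc (a := (0 : ℝ)) (b := 1)) fun t ht => ?_
    rw [mem_Icc, not_and_or, not_le, not_le] at ht
    rcases ht with h | h
    · have : a =ᶠ[𝓝 t] fun _ => (0 : ℝ) := by
        filter_upwards [Iio_mem_nhds h] with s hs
        exact nfa_st0 (by have : s < 0 := hs; linarith)
      rw [this.deriv_eq]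
      simp
    · have : a =ᶠ[𝓝 t] fun _ => (1 : ℝ) := by
        filter_upwards [Ioi_mem_nhds h] with s hs
        exact nfa_st1 (by have : 1 < s := hs; linarith)
      rw [this.deriv_eq]
      simp
  obtain ⟨C, hC⟩ := hc.exists_bound_of_continuous hd.continuous
  exact ⟨a, hs, fun t => ⟨Real.smoothTransition.nonneg _, Real.smoothTransition.le_one _⟩,
    fun t ht => nfa_st0 (by linarith), fun t ht => nfa_st1 (by linarith), C, fun t => hC t⟩
/- END nfa -/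

/- MODULE nfb
The energy and the Laplacian of `Z = κ (Im g₀)` in `Ω`: by `Bih.chg` and `comp_gsq` the integrals over
`Ω` are the integrals over the strip of `(κ' (Im w))²` and `|κ'' (Im w)|`, at most `4 L (C / L)²` and
`4 L C / L²`. -/
private theorem nfb_vol (M : ℝ) :
    volume {w : ℂ | (0 < w.re ∧ w.re < 1) ∧ |w.im| ≤ M} = ENNReal.ofReal (2 * M) := by
  have h1 : {w : ℂ | (0 < w.re ∧ w.re < 1) ∧ |w.im| ≤ M} =
      Complex.measurableEquivRealProd ⁻¹' (Ioo (0 : ℝ) 1 ×ˢ Icc (-M) M) := by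
    ext w
    simp [Complex.measurableEquivRealProd_apply, abs_le]
  rw [h1, Complex.volume_preserving_equiv_real_prod.measure_preimage_equiv,
    Measure.volume_eq_prod, Measure.prod_prod, Real.volume_Ioo, Real.volume_Icc]
  simp only [sub_zero, ENNReal.ofReal_one, one_mul, sub_neg_eq_add]
  congr 1
  ring

private theorem nfb_fd {κ : ℝ → ℝ} (hκ : ContDiff ℝ ∞ κ) (w v : ℂ) :
    fderiv ℝ (fun w : ℂ => κ w.im) w v = deriv κ w.im * v.im := by
  have h1 : HasFDerivAt (fun w : ℂ => w.im) Complex.imCLM w := Complex.imCLM.hasFDerivAt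
  have h2 : HasDerivAt κ (deriv κ w.im) w.im :=
    ((hκ.differentiable (by simp)) w.im).hasDerivAt
  have h3 : HasFDerivAt (fun w : ℂ => κ w.im) (deriv κ w.im • Complex.imCLM) w :=
    h2.comp_hasFDerivAt w h1
  rw [h3.fderiv]
  simp

private theorem nfb_gl {κ : ℝ → ℝ} (hκ : ContDiff ℝ ∞ κ) (w : ℂ) :
    gsq (fun w : ℂ => κ w.im) w = (deriv κ w.im) ^ 2 ∧
    lap (fun w : ℂ => κ w.im) w = deriv (deriv κ) w.im := by
  have hd : ContDiff ℝ ∞ (deriv κ) := ((contDiff_infty_iff_deriv (𝕜 := ℝ)).1 hκ).2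
  constructor
  · unfold gsq
    rw [nfb_fd hκ, nfb_fd hκ]
    simp
  · unfold lap
    have e1 : (fun w : ℂ => fderiv ℝ (fun w : ℂ => κ w.im) w 1) = fun _ => (0 : ℝ) := by
      funext w
      rw [nfb_fd hκ]
      simp
    have e2 : (fun w : ℂ => fderiv ℝ (fun w : ℂ => κ w.im) w Complex.I) =
        fun w : ℂ => deriv κ w.im := by
      funext w
      rw [nfb_fd hκ]
      simp
    rw [e1, e2, nfb_fd hd]
    simp

private theorem nfb_zero {κ : ℝ → ℝ} {M : ℝ} (h : ∀ t, M ≤ |t| → κ t = 0) {t : ℝ}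
    (ht : M < |t|) : deriv κ t = 0 ∧ deriv (deriv κ) t = 0 := by
  have h1 : ∀ s : ℝ, M < |s| → deriv κ s = 0 := fun s hs => by
    have : κ =ᶠ[𝓝 s] fun _ => (0 : ℝ) := by
      filter_upwards [(isOpen_lt continuous_const continuous_abs).mem_nhds hs] with r hr
      exact h r (le_of_lt hr)
    rw [this.deriv_eq]
    simp
  refine ⟨h1 t ht, ?_⟩
  have : deriv κ =ᶠ[𝓝 t] fun _ => (0 : ℝ) := by
    filter_upwards [(isOpen_lt continuous_const continuous_abs).mem_nhds ht] with r hr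
    exact h1 r hr
  rw [this.deriv_eq]
  simp

private theorem nfb_bd {Ω : Set ℂ} {f₀ g₀ : ℂ → ℂ} (h0 : Bih Sp Ω f₀ g₀) {M c : ℝ} (hM : 0 ≤ M)
    (hc : 0 ≤ c) {F : ℂ → ℝ} (hF : ContinuousOn F Ω)
    (h1 : ∀ z ∈ Ω, |F z| ≤ c * ‖deriv g₀ z‖ ^ 2) (h2 : ∀ z ∈ Ω, M < |(g₀ z).im| → F z = 0) :
    IntegrableOn F Ω ∧ ∫ z in Ω, |F z| ≤ c * (2 * M) := by
  have hΩ : IsOpen Ω := h0.oB
  have hgc : ContinuousOn g₀ Ω := h0.dg.continuousOn
  have hdc : ContinuousOn (deriv g₀) Ω := (h0.dg.deriv hΩ).continuousOn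
  set E : Set ℂ := Ω ∩ {z | |(g₀ z).im| ≤ M} with hE
  have hEm : MeasurableSet E := by
    have hU : IsOpen (Ω ∩ g₀ ⁻¹' {w : ℂ | M < |w.im|}) :=
      hgc.isOpen_inter_preimage hΩ
        (isOpen_lt continuous_const (continuous_abs.comp Complex.continuous_im))
    have : E = Ω \ (Ω ∩ g₀ ⁻¹' {w : ℂ | M < |w.im|}) := by
      ext z
      constructor
      · rintro ⟨h1, h2⟩
        exact ⟨h1, fun h => absurd (show M < |(g₀ z).im| from h.2) (not_lt.2 h2)⟩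
      · rintro ⟨h1, h2⟩
        refine ⟨h1, ?_⟩
        show |(g₀ z).im| ≤ M
        exact not_lt.1 fun h => h2 ⟨h1, h⟩
    rw [this]
    exact hΩ.measurableSet.diff hU.measurableSet
  have hEΩ : E ⊆ Ω := inter_subset_left
  have hvol : ∫⁻ z in E, ENNReal.ofReal (‖deriv g₀ z‖ ^ 2) ≤ ENNReal.ofReal (2 * M) := by
    rw [h0.area hEm hEΩ, ← nfb_vol M]
    refine measure_mono ?_
    rintro w ⟨z, hz, rfl⟩
    exact ⟨h0.mg hz.1, hz.2⟩
  have hm : AEStronglyMeasurable (fun z => ‖deriv g₀ z‖ ^ 2) (volume.restrict E) :=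
    ((hdc.mono hEΩ).norm.pow 2).aestronglyMeasurable hEm
  have hi : IntegrableOn (fun z => ‖deriv g₀ z‖ ^ 2) E := by
    refine ⟨hm, ?_⟩
    rw [hasFiniteIntegral_iff_ofReal (Filter.Eventually.of_forall fun z => by positivity)]
    exact hvol.trans_lt ENNReal.ofReal_lt_top
  have hint : ∫ z in E, ‖deriv g₀ z‖ ^ 2 ≤ 2 * M := by
    rw [integral_eq_lintegral_of_nonneg_ae (Filter.Eventually.of_forall fun z => by positivity) hm]
    exact ENNReal.toReal_le_of_le_ofReal (by positivity) hvol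
  have hiI : IntegrableOn (E.indicator fun z => c * ‖deriv g₀ z‖ ^ 2) Ω :=
    ((integrable_indicator_iff hEm).2 (hi.const_mul c)).integrableOn
  have hle : ∀ z ∈ Ω, |F z| ≤ E.indicator (fun z => c * ‖deriv g₀ z‖ ^ 2) z := by
    intro z hz
    by_cases hzE : z ∈ E
    · rw [indicator_of_mem hzE]
      exact h1 z hz
    · rw [indicator_of_notMem hzE, h2 z hz (lt_of_not_ge fun h => hzE ⟨hz, h⟩), abs_zero]
  have hFi : IntegrableOn F Ω := by
    refine Integrable.mono' hiI (hF.aestronglyMeasurable hΩ.measurableSet) ?_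
    filter_upwards [ae_restrict_mem hΩ.measurableSet] with z hz
    exact hle z hz
  refine ⟨hFi, ?_⟩
  calc ∫ z in Ω, |F z| ≤ ∫ z in Ω, E.indicator (fun z => c * ‖deriv g₀ z‖ ^ 2) z := by
        refine setIntegral_mono_on hFi.abs hiI hΩ.measurableSet hle
    _ = ∫ z in E, c * ‖deriv g₀ z‖ ^ 2 := by
        rw [setIntegral_indicator hEm, inter_eq_self_of_subset_right hEΩ]
    _ = c * ∫ z in E, ‖deriv g₀ z‖ ^ 2 := integral_const_mul _ _
    _ ≤ c * (2 * M) := mul_le_mul_of_nonneg_left hint hc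

theorem cut_energy : ∃ C : ℝ, 0 < C ∧ ∀ (Ω : Set ℂ) (f₀ g₀ : ℂ → ℂ), Bih Sp Ω f₀ g₀ →
    ∀ L : ℝ, 1 ≤ L → ∃ κ : ℝ → ℝ, ContDiff ℝ ∞ κ ∧ HasCompactSupport κ ∧
    (∀ t, 0 ≤ κ t ∧ κ t ≤ 1) ∧ (∀ t, |t| ≤ L → κ t = 1) ∧
    IntegrableOn (gsq (fun z => κ (g₀ z).im)) Ω ∧ IntegrableOn (lap (fun z => κ (g₀ z).im)) Ω ∧
    ∫ z in Ω, gsq (fun z => κ (g₀ z).im) z ≤ C / L ∧
    ∫ z in Ω, |lap (fun z => κ (g₀ z).im) z| ≤ C / L := by
  obtain ⟨C, hC, hcut⟩ := line_cut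
  refine ⟨4 * C ^ 2 + 4 * C, by positivity, fun Ω f₀ g₀ h0 L hL => ?_⟩
  have hL0 : 0 < L := by linarith
  obtain ⟨κ, hκ, h01, h1, hz, hd1, hd2⟩ := hcut L hL
  have hΩ : IsOpen Ω := h0.oB
  have hgc : ContinuousOn g₀ Ω := h0.dg.continuousOn
  have hdc : ContinuousOn (deriv g₀) Ω := (h0.dg.deriv hΩ).continuousOn
  have hdk : ContDiff ℝ ∞ (deriv κ) := ((contDiff_infty_iff_deriv (𝕜 := ℝ)).1 hκ).2
  have hddk : ContDiff ℝ ∞ (deriv (deriv κ)) := ((contDiff_infty_iff_deriv (𝕜 := ℝ)).1 hdk).2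
  have hq : ContDiff ℝ ∞ (fun w : ℂ => κ w.im) := hκ.comp Complex.imCLM.contDiff
  have hkc : HasCompactSupport κ := by
    refine HasCompactSupport.intro (isCompact_Icc (a := -(2 * L)) (b := 2 * L)) fun s hs => ?_
    refine hz s ?_
    by_contra hn
    rw [not_le] at hn
    have := abs_lt.1 hn
    exact hs ⟨this.1.le, this.2.le⟩
  have hg : ∀ z ∈ Ω, gsq (fun z => κ (g₀ z).im) z =
      (deriv κ (g₀ z).im) ^ 2 * ‖deriv g₀ z‖ ^ 2 := fun z hz => by
    have := (comp_gsq hΩ h0.dg hq hz).2.1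
    rw [(nfb_gl hκ _).1] at this
    exact this
  have hl : ∀ z ∈ Ω, lap (fun z => κ (g₀ z).im) z =
      deriv (deriv κ) (g₀ z).im * ‖deriv g₀ z‖ ^ 2 := fun z hz => by
    have := (comp_gsq hΩ h0.dg hq hz).2.2
    rw [(nfb_gl hκ _).2] at this
    exact this
  have him : ContinuousOn (fun z => (g₀ z).im) Ω := Complex.continuous_im.comp_continuousOn hgc
  obtain ⟨i1, j1⟩ := nfb_bd h0 (M := 2 * L) (c := (C / L) ^ 2) (by positivity) (by positivity)
    (F := gsq (fun z => κ (g₀ z).im))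
    (ContinuousOn.congr (((hdk.continuous.comp_continuousOn him).pow 2).mul (hdc.norm.pow 2)) hg)
    (fun z hz => by
      rw [hg z hz, abs_of_nonneg (by positivity)]
      refine mul_le_mul_of_nonneg_right ?_ (by positivity)
      rw [← sq_abs]
      exact pow_le_pow_left₀ (abs_nonneg _) (hd1 _) 2)
    (fun z hz' hM => by
      rw [hg z hz', (nfb_zero hz hM).1]
      simp)
  obtain ⟨i2, j2⟩ := nfb_bd h0 (M := 2 * L) (c := C / L ^ 2) (by positivity) (by positivity)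
    (F := lap (fun z => κ (g₀ z).im))
    (ContinuousOn.congr ((hddk.continuous.comp_continuousOn him).mul (hdc.norm.pow 2)) hl)
    (fun z hz => by
      rw [hl z hz, abs_mul, abs_of_nonneg (show 0 ≤ ‖deriv g₀ z‖ ^ 2 by positivity)]
      exact mul_le_mul_of_nonneg_right (hd2 _) (by positivity))
    (fun z hz' hM => by
      rw [hl z hz', (nfb_zero hz hM).2]
      simp)
  refine ⟨κ, hκ, hkc, h01, h1, i1, i2, ?_, ?_⟩
  · have e1 : ∫ z in Ω, gsq (fun z => κ (g₀ z).im) z ≤ ∫ z in Ω, |gsq (fun z => κ (g₀ z).im) z| :=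
      integral_mono i1 i1.abs fun z => le_abs_self _
    refine (e1.trans j1).trans ?_
    rw [show (C / L) ^ 2 * (2 * (2 * L)) = 4 * C ^ 2 / L by field_simp; ring]
    gcongr
    linarith
  · refine j2.trans ?_
    rw [show C / L ^ 2 * (2 * (2 * L)) = 4 * C / L by field_simp; ring]
    gcongr
    nlinarith [sq_nonneg C]
/- END nfb -/

/- MODULE nfc
ABSTRACT MEAN LEMMA (as `mean_abs` of `CnD.lean`, module mkd).  Given `e`: `L` so large that
`|Im g₀| ≤ L` on `tsupport φ` and `C / L ≤ e`, `κ` from `cut_energy`, `Z = κ (Im g₀)`; then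
`g` from `near_max` with `η` so small that `C_Z η^{1/2} ≤ e`; `f = φ + lap g`.  As `Z = 1` on
`tsupport φ`: `φ = Z φ = Z f - lap (Z g) + (2 gin Z g + g lap Z)` (`lap_mul` for `χ Z` and `g`, `χ` a
cut-off which is `1` near `tsupport g` with compact support in `Ω`, `Bih.mul_csc`), the bracket is in
`CSC Ω`, `∫ |2 gin Z g| ≤ 2 (∫_Ω gsq Z)^{1/2} (dirE g)^{1/2}`, `∫ |g lap Z| ≤ M e`. -/
private theorem nfc_lap {Ω : Set ℂ} {g : ℂ → ℝ} (hg : CSC Ω g) : CSC Ω (lap g) :=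
  ⟨sm_lap hg.sm, hg.cs.of_isClosed_subset (isClosed_tsupport _) (tsupport_lap g),
    (tsupport_lap g).trans hg.sub⟩

private theorem nfc_add {Ω : Set ℂ} {f g : ℂ → ℝ} (hf : CSC Ω f) (hg : CSC Ω g) :
    CSC Ω (fun z => f z + g z) :=
  ⟨hf.sm.add hg.sm, hf.cs.add hg.cs, (tsupport_add f g).trans (union_subset hf.sub hg.sub)⟩

private theorem nfc_neg {Ω : Set ℂ} {f : ℂ → ℝ} (hf : CSC Ω f) : CSC Ω (fun z => - f z) := by
  refine ⟨hf.sm.neg, hf.cs.neg, ?_⟩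
  refine (closure_minimal (fun z hz => ?_) (isClosed_tsupport f)).trans hf.sub
  by_contra hn
  apply hz
  show - f z = 0
  rw [image_eq_zero_of_notMem_tsupport hn, neg_zero]

private theorem nfc_chi {Ω : Set ℂ} (hΩ : IsOpen Ω) {g : ℂ → ℝ} (hg : CSC Ω g) :
    ∃ χ : ℂ → ℝ, CSC Ω χ ∧ ∀ z ∈ tsupport g, ∀ᶠ y in 𝓝 z, χ y = 1 := by
  obtain ⟨K, hK, hK1, hK2⟩ := exists_compact_between hg.cs.isCompact hΩ hg.sub
  obtain ⟨ρ, hρ1, hρ0, -⟩ := exists_contMDiffMap_one_nhds_of_subset_interior (n := (⊤ : ℕ∞))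
    (I := modelWithCornersSelf ℝ ℂ) (isClosed_tsupport g) hK1
  have hs : tsupport (fun z => ρ z) ⊆ K := by
    refine closure_minimal (fun z hz => ?_) hK.isClosed
    by_contra hn
    exact hz (hρ0 z hn)
  refine ⟨fun z => ρ z, ⟨ρ.contMDiff.contDiff, hK.of_isClosed_subset (isClosed_tsupport _) hs,
    hs.trans hK2⟩, fun z hz => hρ1.filter_mono (nhds_le_nhdsSet hz)⟩

private theorem nfc_lapeq {f g : ℂ → ℝ} {z : ℂ} (h : f =ᶠ[𝓝 z] g) :
    (∀ v : ℂ, fderiv ℝ f z v = fderiv ℝ g z v) ∧ lap f z = lap g z := by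
  have h1 : ∀ v : ℂ, (fun w => fderiv ℝ f w v) =ᶠ[𝓝 z] fun w => fderiv ℝ g w v := fun v => by
    filter_upwards [h.fderiv (𝕜 := ℝ)] with w hw
    rw [hw]
  refine ⟨fun v => (h1 v).eq_of_nhds, ?_⟩
  unfold lap
  rw [(h1 1).fderiv_eq, (h1 Complex.I).fderiv_eq]

theorem mean_abs_c {Ω : Set ℂ} {f₀ g₀ : ℂ → ℂ} (h0 : Bih Sp Ω f₀ g₀)
    (hb : Bornology.IsBounded Ω) (V : ℕ → (ℂ → ℝ) → ℝ)
    (hadd : ∀ n f g, CSC Ω f → CSC Ω g → V n (fun z => f z + g z) = V n f + V n g)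
    (hneg : ∀ n f, CSC Ω f → V n (fun z => - f z) = - V n f)
    (h1 : ∀ f, CSC Ω f → ∀ ε : ℝ, 0 < ε → ∀ᶠ n in atTop, |V n f| ≤ (∫ z, |f z|) + ε)
    (h2 : ∀ g, CSC Ω g → Tendsto (fun n => V n (lap g)) atTop (𝓝 0))
    (h3 : ∀ κ : ℝ → ℝ, ContDiff ℝ ∞ κ → HasCompactSupport κ → (∀ t, 0 ≤ κ t ∧ κ t ≤ 1) →
      ∃ C : ℝ, ∀ φ, CSC Ω φ → ∀ ε : ℝ, 0 < ε → ∀ᶠ n in atTop,
        |V n (fun z => κ (g₀ z).im * φ z)| ≤ C * Real.sqrt (GE Ω φ) + ε)
    {φ : ℂ → ℝ} (hφ : CSC Ω φ) : Tendsto (fun n => V n φ) atTop (𝓝 0) := by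
  have hΩ : IsOpen Ω := h0.oB
  obtain ⟨R, hR⟩ := hb.subset_closedBall (0 : ℂ)
  obtain ⟨C0, hC0⟩ := hφ.cs.exists_bound_of_continuous hφ.sm.continuous
  have hC00 : 0 ≤ C0 := (norm_nonneg _).trans (hC0 0)
  have hRr : ∀ z ∈ Ω, ‖z‖ ≤ |R| := fun z hz => by
    have := hR hz
    rw [mem_closedBall_zero_iff] at this
    exact this.trans (le_abs_self R)
  set G := GE Ω φ with hG
  have hG0 : 0 ≤ G := GE_nonneg hb hφ
  set M : ℝ := C0 * |R| ^ 2 + 2 with hM
  have hM0 : 0 ≤ M := by positivity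
  set K : ℝ := 1 + (1 + (Real.sqrt G + 1) ^ 2 + M) with hK
  obtain ⟨C, hC, hcut⟩ := cut_energy
  have hgc : ContinuousOn g₀ Ω := h0.dg.continuousOn
  obtain ⟨L0, hL0⟩ := hφ.cs.isCompact.exists_bound_of_continuousOn (hgc.mono hφ.sub)
  rw [Metric.tendsto_atTop]
  intro ε hε
  have hlim1 : Tendsto (fun e : ℝ => K * Real.sqrt e) (𝓝[>] 0) (𝓝 0) := by
    have : Tendsto (fun e : ℝ => K * Real.sqrt e) (𝓝 0) (𝓝 (K * Real.sqrt 0)) := by
      refine Continuous.tendsto ?_ 0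
      fun_prop
    simp only [mul_zero, Real.sqrt_zero] at this
    exact this.mono_left nhdsWithin_le_nhds
  obtain ⟨e, ⟨he1, he2⟩, he0⟩ := (((hlim1.eventually (gt_mem_nhds (show (0 : ℝ) < ε / 2 by
    positivity))).and (eventually_nhdsWithin_of_eventually_nhds (gt_mem_nhds (one_pos)))).and
    self_mem_nhdsWithin).exists
  have he : (0 : ℝ) < e := he0
  set L : ℝ := max 1 (max L0 (C / e)) with hL
  have hL1 : 1 ≤ L := le_max_left _ _
  have hLp : 0 < L := by linarith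
  obtain ⟨κ, hκ, hκc, hκ01, hκ1, iZ, iL, eZ, eL⟩ := hcut Ω f₀ g₀ h0 L hL1
  have hCL : C / L ≤ e := by
    have h4 : C / e ≤ L := (le_max_right _ _).trans (le_max_right _ _)
    rw [div_le_iff₀ he] at h4
    rw [div_le_iff₀ hLp]
    linarith
  obtain ⟨CZ, hCZ⟩ := h3 κ hκ hκc hκ01
  set Z : ℂ → ℝ := fun z => κ (g₀ z).im with hZ
  have hZφ : ∀ z ∈ tsupport φ, Z z = 1 := fun z hz => by
    refine hκ1 _ ?_
    have h5 := hL0 z hz
    exact (Complex.abs_im_le_norm _).trans (h5.trans ((le_max_left _ _).trans (le_max_right _ _)))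
  have hκi : ContDiff ℝ ∞ (fun w : ℂ => κ w.im) := hκ.comp Complex.imCLM.contDiff
  have hZmul : ∀ f : ℂ → ℝ, CSC Ω f → CSC Ω (fun z => Z z * f z) := fun f hf =>
    h0.mul_csc hκi hf
  set q : ℝ := e / (|CZ| + 1) with hq
  have hq0 : 0 < q := by positivity
  set η : ℝ := min 1 (q ^ 2) with hη
  have hη0 : 0 < η := lt_min one_pos (by positivity)
  have hη1 : η ≤ 1 := min_le_left _ _
  have hηq : Real.sqrt η ≤ q := by
    rw [← Real.sqrt_sq hq0.le]
    exact Real.sqrt_le_sqrt (min_le_right _ _)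
  obtain ⟨g, hg, hgM, hgJ⟩ := near_max hRr (abs_nonneg R) hφ (fun z => hC0 z) hη0
  obtain ⟨hf, hfG⟩ := GE_res hb hφ hg
  have hfη : GE Ω (fun z => φ z + lap g z) ≤ η := by linarith
  have hd := dirE_near hb hφ hg
  have hd2 : (Real.sqrt G - Real.sqrt (dirE g)) ^ 2 ≤ 1 := by linarith
  have hgE : 0 ≤ dirE g := integral_nonneg fun z => add_nonneg (sq_nonneg _) (sq_nonneg _)
  have hdg : dirE g ≤ (Real.sqrt G + 1) ^ 2 := by
    have a1 := abs_le_of_sq_le_sq (a := Real.sqrt G - Real.sqrt (dirE g)) (b := 1)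
      (by rw [one_pow]; exact hd2) zero_le_one
    have a2 := (abs_le.1 a1).1
    rw [← Real.sq_sqrt hgE]
    exact pow_le_pow_left₀ (Real.sqrt_nonneg _) (by linarith) 2
  -- the cut-off of the cut-off
  obtain ⟨χ, hχ, hχ1⟩ := nfc_chi hΩ hg
  have hZt : CSC Ω (fun z => Z z * χ z) := hZmul χ hχ
  set Zt : ℂ → ℝ := fun z => Z z * χ z with hZtd
  have hloc : ∀ z ∈ tsupport g, Zt =ᶠ[𝓝 z] Z := fun z hz => by
    filter_upwards [hχ1 z hz] with y hy
    show Z y * χ y = Z y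
    rw [hy, mul_one]
  have hZg' : (fun z => Z z * g z) = fun z => Zt z * g z := by
    funext z
    by_cases hz : z ∈ tsupport g
    · rw [(hloc z hz).eq_of_nhds]
    · rw [image_eq_zero_of_notMem_tsupport hz, mul_zero, mul_zero]
  have hlg0 : ∀ z, z ∉ tsupport g → lap g z = 0 ∧ ∀ v : ℂ, fderiv ℝ g z v = 0 := fun z hz =>
    ⟨image_eq_zero_of_notMem_tsupport (f := lap g) (fun h => hz (tsupport_lap g h)), fun v =>
      image_eq_zero_of_notMem_tsupport (f := fun z => fderiv ℝ g z v)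
        (fun h => hz (tsupport_fd g v h))⟩
  set E : ℂ → ℝ := fun z => lap (fun z => Z z * g z) z + - (Z z * lap g z) with hEd
  have hEz : ∀ z, E z = lap Zt z * g z + 2 * gin Zt g z := by
    intro z
    show lap (fun z => Z z * g z) z + - (Z z * lap g z) = _
    rw [hZg', lap_mul hZt.sm hg.sm z]
    have : Zt z * lap g z = Z z * lap g z := by
      by_cases hz : z ∈ tsupport g
      · rw [(hloc z hz).eq_of_nhds]
      · rw [(hlg0 z hz).1, mul_zero, mul_zero]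
    linarith
  -- the pieces
  have hB : CSC Ω (fun z => Z z * (φ z + lap g z)) := hZmul _ hf
  have hZg : CSC Ω (fun z => Z z * g z) := hZmul _ hg
  have hL' : CSC Ω (lap (fun z => Z z * g z)) := nfc_lap hZg
  have hE : CSC Ω E := nfc_add hL' (nfc_neg (hZmul _ (nfc_lap hg)))
  have hnL : CSC Ω (fun z => - lap (fun z => Z z * g z) z) := nfc_neg hL'
  have hid : φ = fun z => Z z * (φ z + lap g z) +
      (- lap (fun z => Z z * g z) z + E z) := by
    funext z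
    have : Z z * φ z = φ z := by
      by_cases hz : z ∈ tsupport φ
      · rw [hZφ z hz, one_mul]
      · rw [image_eq_zero_of_notMem_tsupport hz, mul_zero]
    show φ z = Z z * (φ z + lap g z) +
      (- lap (fun z => Z z * g z) z + (lap (fun z => Z z * g z) z + - (Z z * lap g z)))
    linarith
  have hVn : ∀ n, V n φ = V n (fun z => Z z * (φ z + lap g z)) +
      (- V n (lap (fun z => Z z * g z)) + V n E) := by
    intro n
    conv_lhs => rw [hid]
    rw [hadd n _ _ hB (nfc_add hnL hE), hadd n _ _ hnL hE, hneg n _ hL']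
  -- bounds
  have hse : e ≤ Real.sqrt e := by
    have := Real.sq_sqrt he.le
    have h1' : Real.sqrt e ≤ 1 := by
      rw [Real.sqrt_le_one]
      exact he2.le
    nlinarith [Real.sqrt_nonneg e]
  have hse0 : 0 < Real.sqrt e := Real.sqrt_pos.2 he
  have hintE : ∫ z, |E z| ≤ (1 + (Real.sqrt G + 1) ^ 2 + M) * Real.sqrt e := by
    have ig : Integrable (gsq g) :=
      int_cs (sm_gsq hg.sm).continuous
        (hg.cs.of_isClosed_subset (isClosed_tsupport _) (tsupport_gsq g))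
    have i1 : IntegrableOn (fun z => (Real.sqrt e)⁻¹ * gsq Z z) Ω := iZ.const_mul _
    have i2 : IntegrableOn (fun z => Real.sqrt e * gsq g z) Ω := (ig.const_mul _).integrableOn
    have i3 : IntegrableOn (fun z => M * |lap Z z|) Ω := iL.abs.const_mul _
    have i12 : IntegrableOn (fun z => (Real.sqrt e)⁻¹ * gsq Z z + Real.sqrt e * gsq g z) Ω :=
      i1.add i2
    have e0 : ∫ z, |E z| = ∫ z in Ω, |E z| := by
      refine (setIntegral_eq_integral_of_forall_compl_eq_zero fun z hz => ?_).symm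
      rw [image_eq_zero_of_notMem_tsupport (fun h => hz (hE.sub h)), abs_zero]
    have hle : ∫ z in Ω, |E z| ≤
        ∫ z in Ω, ((Real.sqrt e)⁻¹ * gsq Z z + Real.sqrt e * gsq g z + M * |lap Z z|) := by
      refine integral_mono (int_cs hE.sm.continuous hE.cs).abs.integrableOn (i12.add i3)
        fun z => ?_
      show |E z| ≤ (Real.sqrt e)⁻¹ * gsq Z z + Real.sqrt e * gsq g z + M * |lap Z z|
      have hnn : 0 ≤ (Real.sqrt e)⁻¹ * gsq Z z + Real.sqrt e * gsq g z + M * |lap Z z| := by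
        have : 0 ≤ gsq Z z := add_nonneg (sq_nonneg _) (sq_nonneg _)
        have : 0 ≤ gsq g z := add_nonneg (sq_nonneg _) (sq_nonneg _)
        positivity
      rw [hEz z]
      by_cases hz : z ∈ tsupport g
      · obtain ⟨q1, q2⟩ := nfc_lapeq (hloc z hz)
        have b1 : |lap Zt z * g z| ≤ M * |lap Z z| := by
          rw [q2, mul_comm, abs_mul]
          exact mul_le_mul_of_nonneg_right (hgM z) (abs_nonneg _)
        have b2 : |2 * gin Zt g z| ≤ (Real.sqrt e)⁻¹ * gsq Z z + Real.sqrt e * gsq g z := by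
          have key : ∀ s t : ℝ, 2 * |s * t| ≤ (Real.sqrt e)⁻¹ * s ^ 2 + Real.sqrt e * t ^ 2 := by
            intro s t
            have hr : Real.sqrt e * (Real.sqrt e)⁻¹ = 1 := mul_inv_cancel₀ hse0.ne'
            rw [abs_mul, ← sq_abs s, ← sq_abs t]
            have e1 : (Real.sqrt e)⁻¹ * |s| ^ 2 + Real.sqrt e * |t| ^ 2 - 2 * (|s| * |t|) =
                (Real.sqrt e)⁻¹ * (|s| - Real.sqrt e * |t|) ^ 2 := by
              linear_combination (2 * |s| * |t| - Real.sqrt e * |t| ^ 2) * hr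
            have : 0 ≤ (Real.sqrt e)⁻¹ * (|s| - Real.sqrt e * |t|) ^ 2 := by positivity
            linarith
          unfold gin gsq
          rw [q1, q1]
          have k1 := key (fderiv ℝ Z z 1) (fderiv ℝ g z 1)
          have k2 := key (fderiv ℝ Z z Complex.I) (fderiv ℝ g z Complex.I)
          have k3 := abs_add_le (fderiv ℝ Z z 1 * fderiv ℝ g z 1)
            (fderiv ℝ Z z Complex.I * fderiv ℝ g z Complex.I)
          rw [abs_mul, abs_of_pos (two_pos : (0 : ℝ) < 2)]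
          linarith
        have := abs_add_le (lap Zt z * g z) (2 * gin Zt g z)
        linarith
      · have : lap Zt z * g z + 2 * gin Zt g z = 0 := by
          unfold gin
          rw [image_eq_zero_of_notMem_tsupport hz, (hlg0 z hz).2, (hlg0 z hz).2]
          ring
        rw [this, abs_zero]
        exact hnn
    rw [integral_add i12 i3, integral_add i1 i2, integral_const_mul, integral_const_mul,
      integral_const_mul] at hle
    rw [e0]
    refine hle.trans ?_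
    have c1 : (Real.sqrt e)⁻¹ * (∫ z in Ω, gsq Z z) ≤ Real.sqrt e := by
      rw [inv_mul_le_iff₀ hse0]
      have : Real.sqrt e * Real.sqrt e = e := Real.mul_self_sqrt he.le
      rw [this]
      exact eZ.trans hCL
    have c2 : Real.sqrt e * (∫ z in Ω, gsq g z) ≤ Real.sqrt e * (Real.sqrt G + 1) ^ 2 := by
      refine mul_le_mul_of_nonneg_left ?_ hse0.le
      refine le_trans ?_ hdg
      exact setIntegral_le_integral ig (Filter.Eventually.of_forall fun z =>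
        add_nonneg (sq_nonneg _) (sq_nonneg _))
    have c3 : M * (∫ z in Ω, |lap Z z|) ≤ M * Real.sqrt e :=
      mul_le_mul_of_nonneg_left ((eL.trans hCL).trans hse) hM0
    linarith
  have hB' : CZ * Real.sqrt (GE Ω (fun z => φ z + lap g z)) ≤ Real.sqrt e := by
    have b1 : Real.sqrt (GE Ω (fun z => φ z + lap g z)) ≤ q :=
      (Real.sqrt_le_sqrt hfη).trans hηq
    have b2 : CZ * Real.sqrt (GE Ω (fun z => φ z + lap g z)) ≤ |CZ| * q :=
      mul_le_mul (le_abs_self _) b1 (Real.sqrt_nonneg _) (abs_nonneg _)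
    have b3 : |CZ| * q ≤ e := by
      rw [hq, mul_div_assoc', div_le_iff₀ (by positivity)]
      nlinarith [abs_nonneg CZ]
    linarith
  have ev2 := hCZ _ hf (ε / 16) (by positivity)
  have ev3 := (h2 _ hZg).eventually (Metric.ball_mem_nhds (0 : ℝ) (show 0 < ε / 16 by positivity))
  have ev4 := h1 _ hE (ε / 16) (by positivity)
  obtain ⟨N, hN⟩ := eventually_atTop.1 (ev2.and (ev3.and ev4))
  refine ⟨N, fun n hn => ?_⟩
  obtain ⟨v2, v3, v4⟩ := hN n hn
  rw [Real.dist_eq, sub_zero, hVn n]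
  rw [Real.dist_eq, sub_zero] at v3
  have t1 := abs_add_le (V n (fun z => Z z * (φ z + lap g z)))
    (- V n (lap (fun z => Z z * g z)) + V n E)
  have t3 := abs_add_le (- V n (lap (fun z => Z z * g z))) (V n E)
  rw [abs_neg] at t3
  have hKe : K * Real.sqrt e = Real.sqrt e +
      (1 + (Real.sqrt G + 1) ^ 2 + M) * Real.sqrt e := by
    rw [hK]; ring
  linarith
/- END nfc -/

/- MODULE nfd
THE CONTINUUM PART AT ONE SIDE.  `G_e w = κ (Im w) α (Re w) θ_e (1 - Re w)` (`exists_theta`) is in `CSC Sp`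
and `dirE G_e ≤ C` uniformly in `e ≤ 1` (first derivatives bounded, support in
`[1/3, 1] × tsupport κ`); `pull Ω g₀ G_e` is in `CSC Ω` with the same energy; `dual`; `e → 0`
(`|θ_e (r) - r| ≤ 2 e` for `r ≥ 0`). -/
private def nfd_G (κ α θ : ℝ → ℝ) (w : ℂ) : ℝ := κ w.im * α w.re * θ (1 - w.re)

private theorem nfd_fd {κ α θ : ℝ → ℝ} (hκ : ContDiff ℝ ∞ κ) (hα : ContDiff ℝ ∞ α)
    (hθ : ContDiff ℝ ∞ θ) (w : ℂ) :
    fderiv ℝ (nfd_G κ α θ) w 1 =
      κ w.im * (deriv α w.re * θ (1 - w.re) - α w.re * deriv θ (1 - w.re)) ∧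
    fderiv ℝ (nfd_G κ α θ) w Complex.I = deriv κ w.im * α w.re * θ (1 - w.re) := by
  have hre : HasFDerivAt (fun w : ℂ => w.re) Complex.reCLM w := Complex.reCLM.hasFDerivAt
  have him : HasFDerivAt (fun w : ℂ => w.im) Complex.imCLM w := Complex.imCLM.hasFDerivAt
  have h1 : HasFDerivAt (fun w : ℂ => κ w.im) (deriv κ w.im • Complex.imCLM) w :=
    ((hκ.differentiable (by simp)).differentiableAt.hasDerivAt (x := w.im)).comp_hasFDerivAt w him
  have h2 : HasFDerivAt (fun w : ℂ => α w.re) (deriv α w.re • Complex.reCLM) w :=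
    ((hα.differentiable (by simp)).differentiableAt.hasDerivAt (x := w.re)).comp_hasFDerivAt w hre
  have h3 : HasFDerivAt (fun w : ℂ => θ (1 - w.re)) (deriv θ (1 - w.re) • (-Complex.reCLM)) w := by
    have h4 : HasFDerivAt (fun w : ℂ => 1 - w.re) (-Complex.reCLM) w := by
      simpa using hre.const_sub 1
    exact ((hθ.differentiable (by simp)).differentiableAt.hasDerivAt
      (x := 1 - w.re)).comp_hasFDerivAt w h4
  have h5 := (h1.mul h2).mul h3
  have h6 : fderiv ℝ (nfd_G κ α θ) w = _ := h5.fderiv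
  rw [h6]
  constructor
  · simp
    ring
  · simp
    ring

private theorem nfd_sm {κ α θ : ℝ → ℝ} (hκ : ContDiff ℝ ∞ κ) (hα : ContDiff ℝ ∞ α)
    (hθ : ContDiff ℝ ∞ θ) : ContDiff ℝ ∞ (nfd_G κ α θ) := by
  have hre : ContDiff ℝ ∞ (fun w : ℂ => w.re) := Complex.reCLM.contDiff
  have him : ContDiff ℝ ∞ (fun w : ℂ => w.im) := Complex.imCLM.contDiff
  exact ((hκ.comp him).mul (hα.comp hre)).mul (hθ.comp (contDiff_const.sub hre))

theorem side_cont {Ω : Set ℂ} {f₀ g₀ : ℂ → ℂ} (h0 : Bih Sp Ω f₀ g₀)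
    (hb : Bornology.IsBounded Ω) {κ α : ℝ → ℝ} (hκ : ContDiff ℝ ∞ κ) (hκc : HasCompactSupport κ)
    (hα : ContDiff ℝ ∞ α) (hα0 : ∀ t, t ≤ 1 / 3 → α t = 0) :
    ∃ C : ℝ, 0 ≤ C ∧ ∀ φ : ℂ → ℝ, CSC Ω φ →
      |∫ z, (1 - (g₀ z).re) * (κ (g₀ z).im * α (g₀ z).re * φ z)| ≤ C * Real.sqrt (GE Ω φ) := by
  obtain ⟨K0, hK0⟩ := hκc.exists_bound_of_continuous hκ.continuous
  obtain ⟨K1, hK1⟩ := hκc.deriv.exists_bound_of_continuous
    (hκ.continuous_deriv (by simp))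
  obtain ⟨M, hM0, hM⟩ := hκc.exists_pos_le_norm
  obtain ⟨A0, hA0⟩ := isCompact_Icc.exists_bound_of_continuousOn
    (hα.continuous.continuousOn (s := Icc (0 : ℝ) 1))
  obtain ⟨A1, hA1⟩ := isCompact_Icc.exists_bound_of_continuousOn
    ((hα.continuous_deriv (by simp)).continuousOn (s := Icc (0 : ℝ) 1))
  have hK0' : 0 ≤ K0 := (norm_nonneg _).trans (hK0 0)
  have hK1' : 0 ≤ K1 := (norm_nonneg _).trans (hK1 0)
  have hA0' : 0 ≤ A0 := (norm_nonneg _).trans (hA0 0 ⟨le_rfl, zero_le_one⟩)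
  have hA1' : 0 ≤ A1 := (norm_nonneg _).trans (hA1 0 ⟨le_rfl, zero_le_one⟩)
  set S : Set ℂ := Icc (0 : ℝ) 1 ×ℂ Icc (-M) M with hS
  have hSc : IsCompact S := isCompact_Icc.reProdIm isCompact_Icc
  set B : ℝ := (K0 * (A1 + A0)) ^ 2 + (K1 * A0) ^ 2 with hB
  have hB0 : 0 ≤ B := by positivity
  refine ⟨Real.sqrt (B * volume.real S), Real.sqrt_nonneg _, fun φ hφ => ?_⟩
  set I1 : ℝ := ∫ z, |φ z| with hI1
  have hI0 : 0 ≤ I1 := integral_nonneg fun _ => abs_nonneg _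
  -- the estimate for one value of `e`
  have key : ∀ e : ℝ, 0 < e → e < 1 →
      |∫ z, (1 - (g₀ z).re) * (κ (g₀ z).im * α (g₀ z).re * φ z)| ≤
        Real.sqrt (B * volume.real S) * Real.sqrt (GE Ω φ) + 2 * e * (K0 * A0 * I1) := by
    intro e he he1
    obtain ⟨θ, hθ, hθ0, hθ1, -, hθ2, hθ3⟩ := exists_theta he
    set G := nfd_G κ α θ with hG
    have hGsm : ContDiff ℝ ∞ G := nfd_sm hκ hα hθ
    have hts : tsupport G ⊆ Icc (1 / 3 : ℝ) (1 - e) ×ℂ Icc (-M) M := by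
      refine closure_minimal (fun w hw => ?_) (isClosed_Icc.reProdIm isClosed_Icc)
      rw [Complex.mem_reProdIm]
      have hw' : G w ≠ 0 := hw
      simp only [hG, nfd_G] at hw'
      refine ⟨⟨?_, ?_⟩, ?_⟩
      · by_contra hc
        rw [hα0 _ (not_le.1 hc).le] at hw'
        simp at hw'
      · by_contra hc
        rw [hθ0 (1 - w.re) (by linarith [not_le.1 hc])] at hw'
        simp at hw'
      · by_contra hc
        have h1 : M ≤ ‖w.im‖ := by
          rw [Real.norm_eq_abs]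
          by_contra h2
          exact hc (abs_le.1 (not_le.1 h2).le)
        rw [hM _ h1] at hw'
        simp at hw'
    have htsS : tsupport G ⊆ S := by
      intro w hw
      have h1 := hts hw
      rw [Complex.mem_reProdIm] at h1
      rw [hS, Complex.mem_reProdIm]
      exact ⟨⟨by linarith [h1.1.1], by linarith [h1.1.2]⟩, h1.2⟩
    have hGc : CSC Sp G := by
      refine ⟨hGsm, ?_, fun w hw => ?_⟩
      · exact hSc.of_isClosed_subset (isClosed_tsupport _) htsS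
      · have h1 := hts hw
        rw [Complex.mem_reProdIm] at h1
        exact ⟨by linarith [h1.1.1], by linarith [h1.1.2]⟩
    have hE : Cn.dirE G ≤ B * volume.real S := by
      have h1 : Cn.dirE G = ∫ z in S, gsq G z := by
        unfold Cn.dirE
        rw [setIntegral_eq_integral_of_forall_compl_eq_zero]
        intro z hz
        exact image_eq_zero_of_notMem_tsupport fun h => hz (htsS (tsupport_gsq G h))
      rw [h1]
      refine (Real.le_norm_self _).trans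
        (norm_setIntegral_le_of_norm_le_const hSc.measure_lt_top fun w hw => ?_)
      obtain ⟨hw1, hw2⟩ := nfd_fd hκ hα hθ w
      rw [hS, Complex.mem_reProdIm] at hw
      obtain ⟨⟨hr0, hr1⟩, -⟩ := hw
      have a1 := hK0 w.im
      have a2 := hK1 w.im
      have a3 := hA0 w.re ⟨hr0, hr1⟩
      have a4 := hA1 w.re ⟨hr0, hr1⟩
      have a5 := hθ1 (1 - w.re)
      have a6 := hθ3 (1 - w.re)
      rw [max_eq_left (by linarith : (0 : ℝ) ≤ 1 - w.re)] at a6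
      rw [Real.norm_eq_abs] at a1 a2 a3 a4
      have b1 : |fderiv ℝ G w 1| ≤ K0 * (A1 + A0) := by
        rw [hG, hw1, abs_mul]
        refine mul_le_mul a1 ?_ (abs_nonneg _) hK0'
        refine (abs_sub _ _).trans (add_le_add ?_ ?_)
        · rw [abs_mul]
          calc |deriv α w.re| * |θ (1 - w.re)| ≤ A1 * 1 :=
              mul_le_mul a4 (by rw [abs_of_nonneg a6.1]; linarith [a6.2]) (abs_nonneg _) hA1'
            _ = A1 := mul_one _
        · rw [abs_mul]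
          calc |α w.re| * |deriv θ (1 - w.re)| ≤ A0 * 1 :=
              mul_le_mul a3 (by rw [abs_of_nonneg a5.1]; exact a5.2) (abs_nonneg _) hA0'
            _ = A0 := mul_one _
      have b2 : |fderiv ℝ G w Complex.I| ≤ K1 * A0 := by
        rw [hG, hw2, abs_mul, abs_mul]
        calc |deriv κ w.im| * |α w.re| * |θ (1 - w.re)| ≤ K1 * A0 * 1 :=
            mul_le_mul (mul_le_mul a2 a3 (abs_nonneg _) hK1')
              (by rw [abs_of_nonneg a6.1]; linarith [a6.2]) (abs_nonneg _) (by positivity)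
          _ = K1 * A0 := mul_one _
      have b3 : (fderiv ℝ G w 1) ^ 2 ≤ (K0 * (A1 + A0)) ^ 2 := by
        rw [← sq_abs]
        exact pow_le_pow_left₀ (abs_nonneg _) b1 2
      have b4 : (fderiv ℝ G w Complex.I) ^ 2 ≤ (K1 * A0) ^ 2 := by
        rw [← sq_abs (fderiv ℝ G w Complex.I)]
        exact pow_le_pow_left₀ (abs_nonneg _) b2 2
      have b5 : gsq G w = (fderiv ℝ G w 1) ^ 2 + (fderiv ℝ G w Complex.I) ^ 2 := rfl
      rw [b5, Real.norm_of_nonneg (by positivity)]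
      exact add_le_add b3 b4
    -- duality
    have hd := dual hb hφ (h0.csc hGc)
    rw [h0.dirE hGc] at hd
    have hoff : ∀ z, z ∉ Ω → φ z = 0 := fun z hz =>
      image_eq_zero_of_notMem_tsupport fun h => hz (hφ.sub h)
    have e1 : ∀ z, φ z * pull Ω g₀ G z = G (g₀ z) * φ z := by
      intro z
      by_cases hz : z ∈ Ω
      · simp only [pull, indicator_of_mem hz]
        ring
      · rw [hoff z hz]
        ring
    simp only [e1] at hd
    -- the two integrands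
    have hre : ContDiff ℝ ∞ (fun w : ℂ => w.re) := Complex.reCLM.contDiff
    have him : ContDiff ℝ ∞ (fun w : ℂ => w.im) := Complex.imCLM.contDiff
    have hF : ContDiff ℝ ∞ (fun w : ℂ => (1 - w.re) * (κ w.im * α w.re)) :=
      (contDiff_const.sub hre).mul ((hκ.comp him).mul (hα.comp hre))
    have c1 := h0.mul_csc hF hφ
    have c2 := h0.mul_csc hGsm hφ
    have i1 := int_cs c1.sm.continuous c1.cs
    have i2 := int_cs c2.sm.continuous c2.cs
    have e2 : ∫ z, (1 - (g₀ z).re) * (κ (g₀ z).im * α (g₀ z).re * φ z) =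
        ∫ z, (1 - (g₀ z).re) * (κ (g₀ z).im * α (g₀ z).re) * φ z :=
      integral_congr_ae (Eventually.of_forall fun z => by
        show (1 - (g₀ z).re) * (κ (g₀ z).im * α (g₀ z).re * φ z) = _
        ring)
    rw [e2]
    have e3 : |(∫ z, (1 - (g₀ z).re) * (κ (g₀ z).im * α (g₀ z).re) * φ z) -
        ∫ z, G (g₀ z) * φ z| ≤ 2 * e * (K0 * A0 * I1) := by
      rw [← integral_sub i1 i2]
      refine (abs_integral_le_integral_abs).trans ?_
      have e4 : 2 * e * (K0 * A0 * I1) = ∫ z, 2 * e * (K0 * A0 * |φ z|) := by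
        rw [integral_const_mul, integral_const_mul]
      rw [e4]
      refine integral_mono (i1.sub i2).abs
        ((((int_cs hφ.sm.continuous hφ.cs).abs).const_mul _).const_mul _) fun z => ?_
      show |(1 - (g₀ z).re) * (κ (g₀ z).im * α (g₀ z).re) * φ z - G (g₀ z) * φ z| ≤
        2 * e * (K0 * A0 * |φ z|)
      by_cases hz : z ∈ Ω
      · have hs := h0.mg hz
        have hs1 : 0 < (g₀ z).re := hs.1
        have hs2 : (g₀ z).re < 1 := hs.2
        have a1 := hK0 (g₀ z).im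
        have a3 := hA0 (g₀ z).re ⟨hs1.le, hs2.le⟩
        have a6 := hθ3 (1 - (g₀ z).re)
        have a7 := hθ2 (1 - (g₀ z).re)
        rw [max_eq_left (by linarith : (0 : ℝ) ≤ 1 - (g₀ z).re)] at a6
        rw [Real.norm_eq_abs] at a1 a3
        have e5 : (1 - (g₀ z).re) * (κ (g₀ z).im * α (g₀ z).re) * φ z - G (g₀ z) * φ z =
            ((1 - (g₀ z).re) - θ (1 - (g₀ z).re)) * (κ (g₀ z).im * α (g₀ z).re * φ z) := by
          simp only [hG, nfd_G]
          ring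
        rw [e5, abs_mul, abs_mul, abs_mul]
        have e6 : |(1 - (g₀ z).re) - θ (1 - (g₀ z).re)| ≤ 2 * e := by
          rw [abs_le]
          constructor <;> linarith [a6.2]
        refine mul_le_mul e6 ?_ (by positivity) (by linarith)
        exact mul_le_mul_of_nonneg_right (mul_le_mul a1 a3 (abs_nonneg _) hK0') (abs_nonneg _)
      · rw [hoff z hz]
        simp
    have e7 : Real.sqrt (Cn.dirE G) ≤ Real.sqrt (B * volume.real S) := Real.sqrt_le_sqrt hE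
    have e8 : |∫ z, G (g₀ z) * φ z| ≤ Real.sqrt (B * volume.real S) * Real.sqrt (GE Ω φ) := by
      refine hd.trans ?_
      rw [mul_comm]
      exact mul_le_mul_of_nonneg_right e7 (Real.sqrt_nonneg _)
    rw [abs_le] at e3 e8 ⊢
    constructor <;> linarith [e3.1, e3.2, e8.1, e8.2]
  refine le_of_forall_pos_le_add fun ε hε => ?_
  set Q : ℝ := 2 * (K0 * A0 * I1) + 1 with hQ
  have hQ0 : 0 < Q := by positivity
  have h1 := key (min (1 / 2) (ε / Q)) (lt_min (by norm_num) (by positivity))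
    (lt_of_le_of_lt (min_le_left _ _) (by norm_num))
  refine h1.trans (by
    have h2 : min (1 / 2) (ε / Q) ≤ ε / Q := min_le_right _ _
    have h3 : 2 * min (1 / 2) (ε / Q) * (K0 * A0 * I1) ≤ ε := by
      calc 2 * min (1 / 2) (ε / Q) * (K0 * A0 * I1) ≤ 2 * (ε / Q) * (K0 * A0 * I1) := by
            refine mul_le_mul_of_nonneg_right (by linarith) (by positivity)
        _ = ε / Q * (2 * (K0 * A0 * I1)) := by ring
        _ ≤ ε / Q * Q := by
            refine mul_le_mul_of_nonneg_left (by linarith) (by positivity)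
        _ = ε := by field_simp
    linarith)
/- END nfd -/

/-- near `y` the complement of `W` contains a segment and `Re G` has boundary values `0` -/
def BV0 (W : Set ℂ) (G : ℂ → ℂ) (y : ℂ) (δ : ℝ) : Prop :=
  (∃ e : ℂ, ‖e‖ = 1 ∧ ∀ t : ℝ, 0 ≤ t → t < δ / 2 → y + t * e ∉ W) ∧
    ∀ ζ ∈ frontier W, ‖ζ - y‖ < δ / 2 → Tendsto (fun z => (G z).re) (𝓝[W] ζ) (𝓝 0)

/-- the data of a sequence of domains: `W n`, conformal maps `f n : Sp → W n` which converge to `f₀`, and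
lattice domains `D n` such that the discs of radius `8/10 δ` about the vertices of `D n` are in `W n` -/
structure Sq (Ω : Set ℂ) (f₀ g₀ : ℂ → ℂ) (R : ℝ) (W : ℕ → Set ℂ) (f g : ℕ → ℂ → ℂ) (δ : ℕ → ℝ)
    (D : ℕ → Finset (ℤ × ℤ)) : Prop where
  bih : ∀ n, Bih Sp (W n) (f n) (g n)
  bih0 : Bih Sp Ω f₀ g₀
  conv : TendstoLocallyUniformlyOn f f₀ atTop Sp
  bd0 : Bornology.IsBounded Ω
  bd : ∀ n, ∀ z ∈ W n, ‖z‖ ≤ R
  ball : ∀ n, ∀ x ∈ D n, Metric.closedBall (lat (δ n) x) (8 / 10 * δ n) ⊆ W n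
  exh : Exh Ω R δ D

/- MODULE nfe
`hm_center` (`G = g n`, `x`, `y` the points `lat (δ n) x`, `lat (δ n) (x + st i)`) gives
`Re g n x ≤ c < 1`.  If `1/3 ≤ Re g n x` and `|Im g n x| ≤ L` then `g n x` is in the compact set
`{1/3 ≤ Re ≤ c, |Im| ≤ L}`, so `lat x ∈ C`, `C ⊆ Ω` compact (`map_out`, `n` large), `lat (x + st i)` is in a
compact neighbourhood of `C` in `Ω`, hence `x + st i ∈ D n` (`exh`): contradiction. -/
theorem hm_seq {Ω : Set ℂ} {f₀ g₀ : ℂ → ℂ} {R : ℝ} {W : ℕ → Set ℂ} {f g : ℕ → ℂ → ℂ} {δ : ℕ → ℝ}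
    {D : ℕ → Finset (ℤ × ℤ)} (hS : Sq Ω f₀ g₀ R W f g δ D) (L : ℝ) :
    ∀ᶠ n in atTop, ∀ x ∈ D n, ∀ i, x + st i ∉ D n →
      BV0 (W n) (g n) (lat (δ n) (x + st i)) (δ n) → |(g n (lat (δ n) x)).im| ≤ L →
        (g n (lat (δ n) x)).re < 1 / 3 := by
  obtain ⟨c, hc0, hc1, hcen⟩ := hm_center
  set K' : Set ℂ := Icc (1 / 3 : ℝ) c ×ℂ Icc (-L) L with hK'
  have hK'c : IsCompact K' := isCompact_Icc.reProdIm isCompact_Icc
  have hK'S : K' ⊆ Sp := by
    intro w hw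
    rw [hK', Complex.mem_reProdIm] at hw
    exact ⟨by linarith [hw.1.1], by linarith [hw.1.2]⟩
  obtain ⟨C, hC, hCΩ, hout⟩ := map_out hS.bih hS.bih0 hS.conv hK'c hK'S
  obtain ⟨K2, hK2, hCK, hK2Ω⟩ := exists_compact_between hC hS.bih0.oB hCΩ
  obtain ⟨r, hr, hrs⟩ := hC.exists_cthickening_subset_open isOpen_interior hCK
  have hδ : ∀ᶠ n in atTop, δ n < r := hS.exh.lim.eventually (gt_mem_nhds hr)
  filter_upwards [hout, hδ, hS.exh.exh K2 hK2 hK2Ω] with n n1 n2 n3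
  intro x hx i hxi hbv him
  by_contra hn
  rw [not_lt] at hn
  have hδ0 : 0 < δ n := hS.exh.pos n
  have hdist : ‖lat (δ n) x - lat (δ n) (x + st i)‖ = δ n := by
    rw [lat_add, sub_add_cancel_left, norm_neg, norm_st hδ0.le]
  have hxW : lat (δ n) x ∈ W n :=
    hS.ball n x hx (Metric.mem_closedBall_self (by positivity))
  obtain ⟨⟨e, he1, he2⟩, hb⟩ := hbv
  have hre : (g n (lat (δ n) x)).re ≤ c :=
    hcen (W n) (hS.bih n).oB (g n) (hS.bih n).dg (fun z hz => (hS.bih n).mg hz)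
      (lat (δ n) x) (lat (δ n) (x + st i)) e (δ n) hδ0 hdist he1 (hS.ball n x hx) he2 hb
  have hmem : lat (δ n) x ∈ C := by
    refine n1 _ hxW ?_
    rw [hK', Complex.mem_reProdIm]
    exact ⟨⟨hn, hre⟩, abs_le.1 him⟩
  refine hxi (n3 _ ?_)
  refine interior_subset (hrs ?_)
  refine Metric.mem_cthickening_of_dist_le _ _ _ _ hmem ?_
  rw [dist_comm, dist_eq_norm, hdist]
  exact n2.le
/- END nfe -/

/- MODULE nff
THE DISCRETE PART AT ONE SIDE.  `H w = κ (Im w) α (Re w)` is Lipschitz on `ℂ` and vanishes for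
`|Im w| ≥ L` (some `L ≥ 1`); `Z n x = H (g n (lat x))` for `x ∈ D n`, `0` otherwise;
`EIi (D n) (Z n) ≤ C Λ² L` (`energy_g`).  `Z n x = 0` if `x` has a fixed neighbour with value `≠ c`
(`hm_seq`, for large `n`; if `|Im| ≥ L` then `H = 0`).  `bdry_e` with `EE = EIi`, `hbd` from `bdryi`, and
`GE_limsup`.  Replace `H (g n)` by `H g₀` on `tsupport φ` (`inv_conv`, `|c - mh| ≤ 1`,
`δ² ∑ |φ (lat x)|` bounded by `card_lat`). -/
private theorem nff_lip {κ α : ℝ → ℝ} (hκ : ContDiff ℝ ∞ κ) (hκc : HasCompactSupport κ)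
    (hα : ContDiff ℝ ∞ α) (hα1 : ∀ t, 0 ≤ α t ∧ α t ≤ 1) (hαd : ∃ C : ℝ, ∀ t, |deriv α t| ≤ C) :
    ∃ Λ : ℝ, 0 ≤ Λ ∧ ∀ w w' : ℂ, |κ w.im * α w.re - κ w'.im * α w'.re| ≤ Λ * ‖w - w'‖ := by
  obtain ⟨K1, hK1⟩ := hκ.lipschitzWith_of_hasCompactSupport hκc (by simp)
  obtain ⟨K0, hK0⟩ := hκc.exists_bound_of_continuous hκ.continuous
  have hK00 : 0 ≤ K0 := (norm_nonneg _).trans (hK0 0)
  obtain ⟨C, hC⟩ := hαd
  have hC0 : 0 ≤ C := (abs_nonneg _).trans (hC 0)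
  have hal : ∀ s t : ℝ, |α s - α t| ≤ C * |s - t| := fun s t => by
    have := Convex.norm_image_sub_le_of_norm_deriv_le (𝕜 := ℝ) (f := α) (s := univ) (x := t)
      (y := s) (C := C) (fun x _ => (hα.differentiable (by simp)) x) (fun x _ => hC x)
      convex_univ (mem_univ _) (mem_univ _)
    simpa [Real.norm_eq_abs] using this
  refine ⟨K1 + K0 * C, by positivity, fun w w' => ?_⟩
  have e1 : κ w.im * α w.re - κ w'.im * α w'.re =
      (κ w.im - κ w'.im) * α w.re + κ w'.im * (α w.re - α w'.re) := by ring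
  rw [e1]
  refine (abs_add_le _ _).trans ?_
  rw [abs_mul, abs_mul, add_mul]
  have b1 : |κ w.im - κ w'.im| ≤ K1 * ‖w - w'‖ := by
    have h1 := hK1.dist_le_mul w.im w'.im
    rw [Real.dist_eq, Real.dist_eq] at h1
    refine h1.trans (mul_le_mul_of_nonneg_left ?_ K1.coe_nonneg)
    have := Complex.abs_im_le_norm (w - w')
    rwa [Complex.sub_im] at this
  have b2 : |α w.re - α w'.re| ≤ C * ‖w - w'‖ := by
    refine (hal _ _).trans (mul_le_mul_of_nonneg_left ?_ hC0)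
    have := Complex.abs_re_le_norm (w - w')
    rwa [Complex.sub_re] at this
  have b3 : |α w.re| ≤ 1 := by
    rw [abs_of_nonneg (hα1 _).1]
    exact (hα1 _).2
  have b4 : |κ w'.im| ≤ K0 := hK0 _
  have c1 : |κ w.im - κ w'.im| * |α w.re| ≤ (K1 * ‖w - w'‖) * 1 :=
    mul_le_mul b1 b3 (abs_nonneg _) (by positivity)
  have c2 : |κ w'.im| * |α w.re - α w'.re| ≤ K0 * (C * ‖w - w'‖) :=
    mul_le_mul b4 b2 (abs_nonneg _) hK00
  linarith

private theorem nff_supp {κ : ℝ → ℝ} (hκc : HasCompactSupport κ) :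
    ∃ L : ℝ, 1 ≤ L ∧ ∀ t, L ≤ |t| → κ t = 0 := by
  obtain ⟨r, hr⟩ := hκc.isCompact.isBounded.subset_closedBall (0 : ℝ)
  refine ⟨max 1 (r + 1), le_max_left _ _, fun t ht => ?_⟩
  by_contra hn
  have h1 := hr (subset_tsupport κ hn)
  rw [mem_closedBall_zero_iff, Real.norm_eq_abs] at h1
  have h2 := (le_max_right 1 (r + 1)).trans ht
  linarith

private theorem nff_sub {p q C : ℝ} (hp : 0 ≤ p) (hq : 0 ≤ q) (hC : 0 ≤ C) {x : ℝ}
    (hx : x ≤ p + q ^ 2) : C * Real.sqrt x ≤ C * Real.sqrt p + C * q := by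
  have h1 : Real.sqrt x ≤ Real.sqrt p + q := by
    refine Real.sqrt_le_iff.2 ⟨by positivity, ?_⟩
    have h2 := Real.sq_sqrt hp
    have h3 : 0 ≤ Real.sqrt p * q := by positivity
    nlinarith
  have := mul_le_mul_of_nonneg_left h1 hC
  linarith

theorem side_disc {Ω : Set ℂ} {f₀ g₀ : ℂ → ℂ} {R : ℝ} {W : ℕ → Set ℂ} {f g : ℕ → ℂ → ℂ}
    {δ : ℕ → ℝ} {D : ℕ → Finset (ℤ × ℤ)} (hS : Sq Ω f₀ g₀ R W f g δ D)
    {β : ℕ → ℤ × ℤ → ℝ} (hβ : ∀ n z, |β n z| ≤ 1 / 2) {c : ℝ} (hc : |c| ≤ 1 / 2)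
    (hbv : ∀ n, ∀ x ∈ D n, ∀ i, x + st i ∉ D n → β n (x + st i) ≠ c →
      BV0 (W n) (g n) (lat (δ n) (x + st i)) (δ n))
    {κ α : ℝ → ℝ} (hκ : ContDiff ℝ ∞ κ) (hκc : HasCompactSupport κ) (hκ0 : ∀ t, 0 ≤ κ t)
    (hα : ContDiff ℝ ∞ α) (hα1 : ∀ t, 0 ≤ α t ∧ α t ≤ 1) (hα0 : ∀ t, t ≤ 1 / 3 → α t = 0)
    (hαd : ∃ C : ℝ, ∀ t, |deriv α t| ≤ C) :
    ∃ C : ℝ, 0 ≤ C ∧ ∀ φ : ℂ → ℝ, CSC Ω φ → ∀ ε : ℝ, 0 < ε → ∀ᶠ n in atTop,
      |Real.sqrt 3 / 2 * δ n ^ 2 * ∑ x ∈ D n,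
        κ (g₀ (lat (δ n) x)).im * α (g₀ (lat (δ n) x)).re * φ (lat (δ n) x) *
          (c - mh (D n) (β n) x)| ≤ C * Real.sqrt (GE Ω φ) + ε := by
  obtain ⟨Λ, hΛ0, hΛ⟩ := nff_lip hκ hκc hα hα1 hαd
  obtain ⟨L, hL1, hL⟩ := nff_supp hκc
  obtain ⟨Cb, hCb, hbd⟩ := bdryi
  obtain ⟨Ce, hCe, hen⟩ := energy_g
  obtain ⟨C₁, hC₁, hcard⟩ := card_lat
  set R₀ : ℝ := max R 1 with hR₀
  have hR1 : 1 ≤ R₀ := le_max_right _ _
  set Z : ℕ → ℤ × ℤ → ℝ := fun n x =>
    κ (g n (lat (δ n) x)).im * α (g n (lat (δ n) x)).re with hZ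
  have hE0 : 0 ≤ Ce * Λ ^ 2 * L := by positivity
  obtain ⟨C, hC0, hmain⟩ := bdry_e hCb (EE := EIi) hbd (R := R) hE0
  have hEE : ∀ n, EIi (D n) (Z n) ≤ Ce * Λ ^ 2 * L := fun n =>
    hen (W n) (f n) (g n) (hS.bih n) (δ n) (D n) (hS.exh.pos n) (hS.ball n)
      (fun w => κ w.im * α w.re) Λ L hΛ0 hL1 (fun w _ w' _ => hΛ w w')
      (fun w _ hw => by
        show κ w.im * α w.re = 0
        rw [hL _ hw, zero_mul])
  have hZ0 : ∀ n z, 0 ≤ Z n z := fun n z => mul_nonneg (hκ0 _) (hα1 _).1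
  have hvan : ∀ᶠ n in atTop, ∀ x ∈ D n, ∀ i, x + st i ∉ D n → β n (x + st i) ≠ c →
      Z n x = 0 := by
    filter_upwards [hm_seq hS L] with n hn x hx i hxi hne
    show κ (g n (lat (δ n) x)).im * α (g n (lat (δ n) x)).re = 0
    by_cases him : |(g n (lat (δ n) x)).im| ≤ L
    · rw [hα0 _ (hn x hx i hxi (hbv n x hx i hxi hne) him).le, mul_zero]
    · rw [hL _ (not_le.1 him).le, zero_mul]
  refine ⟨C, hC0, fun φ hφ ε hε => ?_⟩
  obtain ⟨M, hM⟩ := hφ.cs.exists_bound_of_continuous hφ.sm.continuous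
  have hM0 : 0 ≤ M := (norm_nonneg _).trans (hM 0)
  obtain ⟨hKW, hunif⟩ := inv_conv hS.bih hS.bih0 hS.conv hφ.cs.isCompact hφ.sub
  set q : ℝ := ε / (3 * (C + 1)) with hq
  have hq0 : 0 < q := by positivity
  have hCq : C * q ≤ ε / 3 := by
    rw [hq, mul_div_assoc', div_le_div_iff₀ (by positivity) (by norm_num)]
    nlinarith
  set B : ℝ := Real.sqrt 3 / 2 * (C₁ * R₀ ^ 2 * (M * Λ)) with hB
  have hB0 : 0 ≤ B := by positivity
  set η : ℝ := ε / (3 * (B + 1)) with hη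
  have hη0 : 0 < η := by positivity
  have hBη : B * η ≤ ε / 3 := by
    rw [hη, mul_div_assoc', div_le_div_iff₀ (by positivity) (by norm_num)]
    nlinarith
  have hev := hmain δ D W β c Z hS.exh.pos hS.exh.lim (fun n => (hS.bih n).oB) hS.bd
    (fun n x hx => (Metric.closedBall_subset_closedBall (by
      have := hS.exh.pos n
      nlinarith)).trans (hS.ball n x hx)) hβ hc hZ0 (Filter.Eventually.of_forall hEE) hvan φ
    hφ.sm hφ.cs hKW (ε / 3) (by positivity)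
  have hG0 : 0 ≤ GE Ω φ := GE_nonneg hS.bd0 hφ
  filter_upwards [hev, GE_limsup hS.bih hS.bih0 hS.conv hS.bd0 hφ (show 0 < q ^ 2 by positivity),
    Metric.tendstoUniformlyOn_iff.1 hunif η hη0, hS.exh.lim.eventually (gt_mem_nhds one_pos)]
    with n n1 n2 n3 n4
  have hpos := hS.exh.pos n
  have hcn : ((D n).card : ℝ) ≤ C₁ * (R₀ / δ n) ^ 2 :=
    hcard (δ n) R₀ hpos (n4.le.trans hR1) (D n) fun x hx =>
      (hS.exh.bdd n x hx).trans (le_max_left _ _)
  have hδ0 : 0 ≤ Real.sqrt 3 / 2 * δ n ^ 2 := by positivity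
  -- the replacement
  have hdiff : |Real.sqrt 3 / 2 * δ n ^ 2 * ∑ x ∈ D n,
        κ (g₀ (lat (δ n) x)).im * α (g₀ (lat (δ n) x)).re * φ (lat (δ n) x) *
          (c - mh (D n) (β n) x) - Real.sqrt 3 / 2 * δ n ^ 2 * ∑ x ∈ D n,
        φ (lat (δ n) x) * Z n x * (c - mh (D n) (β n) x)| ≤ B * η := by
    rw [← mul_sub, ← Finset.sum_sub_distrib, abs_mul, abs_of_nonneg hδ0]
    have h1 : |∑ x ∈ D n, (κ (g₀ (lat (δ n) x)).im * α (g₀ (lat (δ n) x)).re *
        φ (lat (δ n) x) * (c - mh (D n) (β n) x) - φ (lat (δ n) x) * Z n x *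
          (c - mh (D n) (β n) x))| ≤ ∑ _x ∈ D n, M * (Λ * η) := by
      refine (Finset.abs_sum_le_sum_abs _ _).trans (Finset.sum_le_sum fun x hx => ?_)
      have e1 : κ (g₀ (lat (δ n) x)).im * α (g₀ (lat (δ n) x)).re * φ (lat (δ n) x) *
          (c - mh (D n) (β n) x) - φ (lat (δ n) x) * Z n x * (c - mh (D n) (β n) x) =
          φ (lat (δ n) x) * ((κ (g₀ (lat (δ n) x)).im * α (g₀ (lat (δ n) x)).re -
            κ (g n (lat (δ n) x)).im * α (g n (lat (δ n) x)).re) *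
              (c - mh (D n) (β n) x)) := by
        rw [hZ]
        ring
      rw [e1]
      by_cases hx2 : lat (δ n) x ∈ tsupport φ
      · rw [abs_mul, abs_mul]
        have a1 := n3 _ hx2
        rw [dist_eq_norm] at a1
        have a2 := (hΛ (g₀ (lat (δ n) x)) (g n (lat (δ n) x))).trans
          (mul_le_mul_of_nonneg_left a1.le hΛ0)
        have a3 : |c - mh (D n) (β n) x| ≤ 1 := by
          have := mh_abs (hβ n) (D := D n) x
          have := abs_sub c (mh (D n) (β n) x)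
          linarith
        calc |φ (lat (δ n) x)| * (|κ (g₀ (lat (δ n) x)).im * α (g₀ (lat (δ n) x)).re -
            κ (g n (lat (δ n) x)).im * α (g n (lat (δ n) x)).re| * |c - mh (D n) (β n) x|)
            ≤ M * ((Λ * η) * 1) := by
              refine mul_le_mul (hM _) (mul_le_mul a2 a3 (abs_nonneg _) (by positivity))
                (by positivity) hM0
          _ = M * (Λ * η) := by ring
      · rw [image_eq_zero_of_notMem_tsupport hx2, zero_mul, abs_zero]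
        positivity
    calc Real.sqrt 3 / 2 * δ n ^ 2 * |_| ≤ Real.sqrt 3 / 2 * δ n ^ 2 *
          ∑ _x ∈ D n, M * (Λ * η) := mul_le_mul_of_nonneg_left h1 hδ0
      _ = Real.sqrt 3 / 2 * δ n ^ 2 * ((D n).card * (M * (Λ * η))) := by
          rw [Finset.sum_const, nsmul_eq_mul]
      _ ≤ Real.sqrt 3 / 2 * δ n ^ 2 * (C₁ * (R₀ / δ n) ^ 2 * (M * (Λ * η))) := by gcongr
      _ = B * η := by
          rw [hB]
          have h8 := hpos.ne'
          field_simp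
  have hG := nff_sub hG0 hq0.le hC0 n2.2
  have t1 := abs_sub_abs_le_abs_sub (Real.sqrt 3 / 2 * δ n ^ 2 * ∑ x ∈ D n,
        κ (g₀ (lat (δ n) x)).im * α (g₀ (lat (δ n) x)).re * φ (lat (δ n) x) *
          (c - mh (D n) (β n) x)) (Real.sqrt 3 / 2 * δ n ^ 2 * ∑ x ∈ D n,
        φ (lat (δ n) x) * Z n x * (c - mh (D n) (β n) x))
  linarith
/- END nff -/

/- MODULE nfg
THE MEAN.  `mean_abs_c` with `V n f = ∫ XF f dMu - ∫ u f`, `u = l (2 Re g₀ - 1)` (harmonic); (h1), (h2):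
`mean_triv`, `mean_lap_e`, `harm_lap`.  (h3): `κ φ = κ α(Re g₀) φ + κ (1 - α (Re g₀)) φ` with `α` from
`side_cut`.  First term: `mh - u = (l - u) - (l - mh)`, `l - u = 2 l (1 - Re g₀)`: `side_disc` with `c = l`,
`side_cont`, `riemann` for `κ α φ`.  Second term: apply both lemmas to the maps
`1 - g n`, `f n (1 - w)`, `1 - g₀`, `f₀ (1 - w)` (again a sequence `Sq`), `κ~ t = κ (- t)`,
`α~ t = 1 - α (1 - t)`, `c = - l`, `mh - u = (- l - u) - (- l - mh)`, `- l - u = - 2 l Re g₀`. -/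
private theorem nfg_mt : MapsTo (fun w : ℂ => 1 - w) Sp Sp := fun w hw => by
  have h : 0 < w.re ∧ w.re < 1 := hw
  constructor
  · show 0 < (1 - w).re
    rw [Complex.sub_re, Complex.one_re]
    linarith
  · show (1 - w).re < 1
    rw [Complex.sub_re, Complex.one_re]
    linarith

private theorem nfg_bih {A : Set ℂ} {f g : ℂ → ℂ} (h : Bih Sp A f g) :
    Bih Sp A (fun w => f (1 - w)) (fun z => 1 - g z) where
  oA := h.oA
  oB := h.oB
  df := h.df.comp ((differentiable_const _).sub differentiable_id).differentiableOn nfg_mt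
  dg := (differentiableOn_const _).sub h.dg
  mf := fun w hw => h.mf (nfg_mt hw)
  mg := fun z hz => nfg_mt (h.mg hz)
  gf := fun w hw => by
    show 1 - g (f (1 - w)) = w
    rw [h.gf _ (nfg_mt hw), sub_sub_cancel]
  fg := fun z hz => by
    show f (1 - (1 - g z)) = z
    rw [sub_sub_cancel, h.fg z hz]

private theorem nfg_cont {Ω : Set ℂ} (hΩ : IsOpen Ω) {w f : ℂ → ℝ} (hw : ContinuousOn w Ω)
    (hf : CSC Ω f) : Continuous (fun z => w z * f z) := by
  rw [continuous_iff_continuousAt]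
  intro z
  by_cases hz : z ∈ Ω
  · exact (hw.continuousAt (hΩ.mem_nhds hz)).mul hf.sm.continuous.continuousAt
  · have h1 : z ∉ tsupport f := fun h => hz (hf.sub h)
    have h2 : f =ᶠ[𝓝 z] 0 := notMem_tsupport_iff_eventuallyEq.1 h1
    have h3 : (fun z => w z * f z) =ᶠ[𝓝 z] fun _ => (0 : ℝ) := by
      filter_upwards [h2] with y hy
      rw [hy]
      simp
    exact (continuousAt_const.congr h3.symm)

private theorem nfg_int {Ω : Set ℂ} (hΩ : IsOpen Ω) {w f : ℂ → ℝ} (hw : ContinuousOn w Ω)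
    (hf : CSC Ω f) : Integrable (fun z => w z * f z) :=
  int_cs (nfg_cont hΩ hw hf) hf.cs.mul_left

private theorem nfg_riem {Ω : Set ℂ} {R : ℝ} {δ : ℕ → ℝ} {D : ℕ → Finset (ℤ × ℤ)}
    (hA : Exh Ω R δ D) {F : ℂ → ℝ} (hF : CSC Ω F) {ε : ℝ}
    (hε : 0 < ε) : ∀ᶠ n in atTop,
      |Real.sqrt 3 / 2 * δ n ^ 2 * (∑ x ∈ D n, F (lat (δ n) x)) - ∫ z, F z| ≤ ε := by
  obtain ⟨δ₀, hδ₀, h1⟩ := riemann hF.sm.continuous hF.cs hε
  have h2 : ∀ᶠ n in atTop, δ n < δ₀ := hA.lim.eventually (gt_mem_nhds hδ₀)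
  filter_upwards [h2, hA.exh (tsupport F) hF.cs.isCompact hF.sub] with n hn1 hn2
  exact h1 (δ n) (hA.pos n) hn1 (D n) hn2

theorem Sq.refl1 {Ω : Set ℂ} {f₀ g₀ : ℂ → ℂ} {R : ℝ} {W : ℕ → Set ℂ} {f g : ℕ → ℂ → ℂ}
    {δ : ℕ → ℝ} {D : ℕ → Finset (ℤ × ℤ)} (hS : Sq Ω f₀ g₀ R W f g δ D) :
    Sq Ω (fun w => f₀ (1 - w)) (fun z => 1 - g₀ z) R W (fun n w => f n (1 - w))
      (fun n z => 1 - g n z) δ D where
  bih := fun n => nfg_bih (hS.bih n)
  bih0 := nfg_bih hS.bih0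
  conv := hS.conv.comp (fun w : ℂ => 1 - w) nfg_mt (by fun_prop)
  bd0 := hS.bd0
  bd := hS.bd
  ball := hS.ball
  exh := hS.exh

private theorem nfg_cut {Ω : Set ℂ} {f₀ g₀ : ℂ → ℂ} (h0 : Bih Sp Ω f₀ g₀) {κ α : ℝ → ℝ}
    (hκ : ContDiff ℝ ∞ κ) (hα : ContDiff ℝ ∞ α) {φ : ℂ → ℝ} (hφ : CSC Ω φ) :
    CSC Ω (fun z => κ (g₀ z).im * α (g₀ z).re * φ z) :=
  h0.mul_csc (F := fun w => κ w.im * α w.re)
    ((hκ.comp Complex.imCLM.contDiff).mul (hα.comp Complex.reCLM.contDiff)) hφ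

/-- the cut off mean: both sides -/
private theorem nfg_key {l : ℝ} (hl0 : 0 < l) (hl : l ≤ 1 / 2)
    {Ω : Set ℂ} {f₀ g₀ : ℂ → ℂ} {R : ℝ} {W : ℕ → Set ℂ} {f g : ℕ → ℂ → ℂ}
    {δ : ℕ → ℝ} {D : ℕ → Finset (ℤ × ℤ)} (hS : Sq Ω f₀ g₀ R W f g δ D)
    {β : ℕ → ℤ × ℤ → ℝ} (hβ : ∀ n z, |β n z| ≤ 1 / 2)
    (hb1 : ∀ n, ∀ x ∈ D n, ∀ i, x + st i ∉ D n → β n (x + st i) ≠ l →
      BV0 (W n) (g n) (lat (δ n) (x + st i)) (δ n))
    (hb2 : ∀ n, ∀ x ∈ D n, ∀ i, x + st i ∉ D n → β n (x + st i) ≠ - l →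
      BV0 (W n) (fun z => 1 - g n z) (lat (δ n) (x + st i)) (δ n))
    {κ : ℝ → ℝ} (hκ : ContDiff ℝ ∞ κ) (hκc : HasCompactSupport κ)
    (hκ1 : ∀ t, 0 ≤ κ t ∧ κ t ≤ 1) :
    ∃ C : ℝ, ∀ φ, CSC Ω φ → ∀ ε : ℝ, 0 < ε → ∀ᶠ n in atTop,
      |Real.sqrt 3 / 2 * δ n ^ 2 *
        (∑ x ∈ D n, κ (g₀ (lat (δ n) x)).im * φ (lat (δ n) x) * mh (D n) (β n) x) -
        ∫ z, (l * (2 * (g₀ z).re - 1)) * (κ (g₀ z).im * φ z)| ≤ C * Real.sqrt (GE Ω φ) + ε := by
  have hΩ : IsOpen Ω := hS.bih0.oB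
  obtain ⟨α, hα, hα1, hα0, hα2, Cα, hCα⟩ := side_cut
  have hlabs : |l| ≤ 1 / 2 := by rw [abs_of_pos hl0]; exact hl
  -- the reflected cut-offs
  set κ' : ℝ → ℝ := fun t => κ (-t) with hκ'
  set α' : ℝ → ℝ := fun t => 1 - α (1 - t) with hα'
  have hκ's : ContDiff ℝ ∞ κ' := hκ.comp contDiff_neg
  have hκ'c : HasCompactSupport κ' := hκc.comp_homeomorph (Homeomorph.neg ℝ)
  have hα's : ContDiff ℝ ∞ α' := contDiff_const.sub (hα.comp (contDiff_const.sub contDiff_id))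
  have hα'1 : ∀ t, 0 ≤ α' t ∧ α' t ≤ 1 := fun t => by
    have := hα1 (1 - t)
    show 0 ≤ 1 - α (1 - t) ∧ 1 - α (1 - t) ≤ 1
    constructor <;> linarith [this.1, this.2]
  have hα'0 : ∀ t, t ≤ 1 / 3 → α' t = 0 := fun t ht => by
    show 1 - α (1 - t) = 0
    rw [hα2 _ (by linarith), sub_self]
  have hα'd : ∃ C : ℝ, ∀ t, |deriv α' t| ≤ C := by
    refine ⟨Cα, fun t => ?_⟩
    have h1 : HasDerivAt (fun t : ℝ => 1 - t) (-1) t := by
      simpa using (hasDerivAt_id t).const_sub 1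
    have h2 : HasDerivAt α (deriv α (1 - t)) (1 - t) :=
      ((hα.differentiable (by simp)) (1 - t)).hasDerivAt
    have h3 : HasDerivAt α' (deriv α (1 - t)) t := by
      have h4 := (h2.comp t h1).const_sub 1
      simpa using h4
    rw [h3.deriv]
    exact hCα _
  have hc2 : |-l| ≤ 1 / 2 := by rw [abs_neg]; exact hlabs
  obtain ⟨C1, hC1, hC1'⟩ := side_disc hS hβ hlabs hb1 hκ hκc (fun t => (hκ1 t).1) hα hα1 hα0
    ⟨Cα, hCα⟩
  obtain ⟨C2, hC2, hC2'⟩ := side_disc hS.refl1 hβ hc2 hb2 hκ's hκ'c (fun t => (hκ1 _).1) hα's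
    hα'1 hα'0 hα'd
  obtain ⟨C3, hC3, hC3'⟩ := side_cont hS.bih0 hS.bd0 hκ hκc hα hα0
  obtain ⟨C4, hC4, hC4'⟩ := side_cont hS.refl1.bih0 hS.bd0 hκ's hκ'c hα's hα'0
  have eκ : ∀ z, κ' ((1 - g₀ z).im) = κ (g₀ z).im := fun z => by
    show κ (-(1 - g₀ z).im) = κ (g₀ z).im
    congr 1
    simp
  have eα : ∀ z, α' ((1 - g₀ z).re) = 1 - α (g₀ z).re := fun z => by
    show 1 - α (1 - (1 - g₀ z).re) = 1 - α (g₀ z).re
    congr 2
    simp
  simp only [eκ, eα] at hC2' hC4'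
  refine ⟨C1 + C2 + 2 * l * C3 + 2 * l * C4, fun φ hφ ε hε => ?_⟩
  have hF1 : CSC Ω (fun z => κ (g₀ z).im * α (g₀ z).re * φ z) := nfg_cut hS.bih0 hκ hα hφ
  have hF2 : CSC Ω (fun z => κ (g₀ z).im * (1 - α (g₀ z).re) * φ z) :=
    nfg_cut hS.bih0 hκ (α := fun t => 1 - α t) (contDiff_const.sub hα) hφ
  filter_upwards [hC1' φ hφ (ε / 4) (by positivity), hC2' φ hφ (ε / 4) (by positivity),
    nfg_riem hS.exh hF1 (show 0 < ε / 4 by positivity),
    nfg_riem hS.exh hF2 (show 0 < ε / 4 by positivity)] with n n1 n2 n3 n4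
  have k3 := hC3' φ hφ
  have k4 := hC4' φ hφ
  set S1 := Real.sqrt 3 / 2 * δ n ^ 2 * ∑ x ∈ D n,
    κ (g₀ (lat (δ n) x)).im * α (g₀ (lat (δ n) x)).re * φ (lat (δ n) x) *
      (l - mh (D n) (β n) x) with hS1
  set S2 := Real.sqrt 3 / 2 * δ n ^ 2 * ∑ x ∈ D n,
    κ (g₀ (lat (δ n) x)).im * (1 - α (g₀ (lat (δ n) x)).re) * φ (lat (δ n) x) *
      (-l - mh (D n) (β n) x) with hS2
  set T1 := Real.sqrt 3 / 2 * δ n ^ 2 * ∑ x ∈ D n,
    κ (g₀ (lat (δ n) x)).im * α (g₀ (lat (δ n) x)).re * φ (lat (δ n) x) with hT1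
  set T2 := Real.sqrt 3 / 2 * δ n ^ 2 * ∑ x ∈ D n,
    κ (g₀ (lat (δ n) x)).im * (1 - α (g₀ (lat (δ n) x)).re) * φ (lat (δ n) x) with hT2
  have e1 : Real.sqrt 3 / 2 * δ n ^ 2 *
      (∑ x ∈ D n, κ (g₀ (lat (δ n) x)).im * φ (lat (δ n) x) * mh (D n) (β n) x) =
      l * T1 - S1 - l * T2 - S2 := by
    rw [hS1, hS2, hT1, hT2]
    simp only [Finset.mul_sum, ← Finset.sum_sub_distrib]
    refine Finset.sum_congr rfl fun x hx => ?_
    ring
  have hgc : ContinuousOn g₀ Ω := hS.bih0.dg.continuousOn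
  have hrc : ContinuousOn (fun z => (g₀ z).re) Ω := Complex.continuous_re.comp_continuousOn hgc
  have j1 := int_cs hF1.sm.continuous hF1.cs
  have j2 := int_cs hF2.sm.continuous hF2.cs
  have i1 : Integrable (fun z => (1 - (g₀ z).re) * (κ (g₀ z).im * α (g₀ z).re * φ z)) :=
    nfg_int hΩ (w := fun z => 1 - (g₀ z).re) (continuousOn_const.sub hrc) hF1
  have i2 := nfg_int hΩ hrc hF2
  have e2 : ∫ z, (l * (2 * (g₀ z).re - 1)) * (κ (g₀ z).im * φ z) =
      (l * (∫ z, κ (g₀ z).im * α (g₀ z).re * φ z) -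
        2 * l * ∫ z, (1 - (g₀ z).re) * (κ (g₀ z).im * α (g₀ z).re * φ z)) -
      (l * (∫ z, κ (g₀ z).im * (1 - α (g₀ z).re) * φ z) -
        2 * l * ∫ z, (g₀ z).re * (κ (g₀ z).im * (1 - α (g₀ z).re) * φ z)) := by
    have y1 : Integrable (fun z => l * (κ (g₀ z).im * α (g₀ z).re * φ z) -
        2 * l * ((1 - (g₀ z).re) * (κ (g₀ z).im * α (g₀ z).re * φ z))) :=
      (j1.const_mul l).sub (i1.const_mul (2 * l))
    have y2 : Integrable (fun z => l * (κ (g₀ z).im * (1 - α (g₀ z).re) * φ z) -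
        2 * l * ((g₀ z).re * (κ (g₀ z).im * (1 - α (g₀ z).re) * φ z))) :=
      (j2.const_mul l).sub (i2.const_mul (2 * l))
    rw [← integral_const_mul, ← integral_const_mul, ← integral_const_mul, ← integral_const_mul,
      ← integral_sub (j1.const_mul l) (i1.const_mul (2 * l)),
      ← integral_sub (j2.const_mul l) (i2.const_mul (2 * l)), ← integral_sub y1 y2]
    refine integral_congr_ae (Filter.Eventually.of_forall fun z => ?_)
    show (l * (2 * (g₀ z).re - 1)) * (κ (g₀ z).im * φ z) =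
      (l * (κ (g₀ z).im * α (g₀ z).re * φ z) -
        2 * l * ((1 - (g₀ z).re) * (κ (g₀ z).im * α (g₀ z).re * φ z))) -
      (l * (κ (g₀ z).im * (1 - α (g₀ z).re) * φ z) -
        2 * l * ((g₀ z).re * (κ (g₀ z).im * (1 - α (g₀ z).re) * φ z)))
    ring
  have e4 : ∫ z, (1 - (1 - g₀ z).re) * (κ (g₀ z).im * (1 - α (g₀ z).re) * φ z) =
      ∫ z, (g₀ z).re * (κ (g₀ z).im * (1 - α (g₀ z).re) * φ z) := by
    refine integral_congr_ae (Filter.Eventually.of_forall fun z => ?_)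
    show (1 - (1 - g₀ z).re) * _ = (g₀ z).re * _
    congr 1
    simp
  rw [e4] at k4
  rw [e1, e2]
  have m1 := abs_le.1 n1
  have m2 := abs_le.1 n2
  have m3 : |l * (T1 - ∫ z, κ (g₀ z).im * α (g₀ z).re * φ z)| ≤ ε / 4 := by
    rw [abs_mul, abs_of_pos hl0]
    calc l * |T1 - ∫ z, κ (g₀ z).im * α (g₀ z).re * φ z| ≤ 1 * (ε / 4) :=
          mul_le_mul (by linarith) n3 (abs_nonneg _) zero_le_one
      _ = ε / 4 := one_mul _
  have m4 : |l * (T2 - ∫ z, κ (g₀ z).im * (1 - α (g₀ z).re) * φ z)| ≤ ε / 4 := by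
    rw [abs_mul, abs_of_pos hl0]
    calc l * |T2 - ∫ z, κ (g₀ z).im * (1 - α (g₀ z).re) * φ z| ≤ 1 * (ε / 4) :=
          mul_le_mul (by linarith) n4 (abs_nonneg _) zero_le_one
      _ = ε / 4 := one_mul _
  have m3' := abs_le.1 m3
  have m4' := abs_le.1 m4
  have q3 : |2 * l * ∫ z, (1 - (g₀ z).re) * (κ (g₀ z).im * α (g₀ z).re * φ z)| ≤
      2 * l * C3 * Real.sqrt (GE Ω φ) := by
    rw [abs_mul, abs_of_pos (show 0 < 2 * l by positivity), mul_assoc (2 * l)]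
    exact mul_le_mul_of_nonneg_left k3 (by positivity)
  have q4 : |2 * l * ∫ z, (g₀ z).re * (κ (g₀ z).im * (1 - α (g₀ z).re) * φ z)| ≤
      2 * l * C4 * Real.sqrt (GE Ω φ) := by
    rw [abs_mul, abs_of_pos (show 0 < 2 * l by positivity), mul_assoc (2 * l)]
    exact mul_le_mul_of_nonneg_left k4 (by positivity)
  have q3' := abs_le.1 q3
  have q4' := abs_le.1 q4
  rw [abs_le]
  constructor <;> linarith

theorem mean_cara {σ : ℝ} (hI : Itf σ) {l : ℝ} (hl0 : 0 < l) (hl : l ≤ 1 / 2)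
    {Ω : Set ℂ} {f₀ g₀ : ℂ → ℂ} {R : ℝ} {W : ℕ → Set ℂ} {f g : ℕ → ℂ → ℂ}
    {δ : ℕ → ℝ} {D : ℕ → Finset (ℤ × ℤ)} (hS : Sq Ω f₀ g₀ R W f g δ D)
    {β : ℕ → ℤ × ℤ → ℝ} (hβ : ∀ n z, |β n z| ≤ 1 / 2)
    (hb1 : ∀ n, ∀ x ∈ D n, ∀ i, x + st i ∉ D n → β n (x + st i) ≠ l →
      BV0 (W n) (g n) (lat (δ n) (x + st i)) (δ n))
    (hb2 : ∀ n, ∀ x ∈ D n, ∀ i, x + st i ∉ D n → β n (x + st i) ≠ - l →
      BV0 (W n) (fun z => 1 - g n z) (lat (δ n) (x + st i)) (δ n))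
    {φ : ℂ → ℝ} (hφ : CSC Ω φ) :
    Tendsto (fun n => ∫ h, XF (D n) (δ n) φ h ∂(Mu (D n) (β n))) atTop
      (𝓝 (∫ z, (l * (2 * (g₀ z).re - 1)) * φ z)) := by
  have hΩ : IsOpen Ω := hS.bih0.oB
  set u : ℂ → ℝ := fun z => l * (2 * (g₀ z).re - 1) with hu'
  have hu : InnerProductSpace.HarmonicOnNhd u Ω := fun z hz => by
    have h1 : AnalyticAt ℂ g₀ z := hS.bih0.dg.analyticAt (hΩ.mem_nhds hz)
    have h2 : AnalyticAt ℂ (fun z => (l : ℂ) * (2 * g₀ z - 1)) z :=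
      analyticAt_const.mul ((analyticAt_const.mul h1).sub analyticAt_const)
    have h3 := h2.harmonicAt_re
    have h4 : (fun z => ((l : ℂ) * (2 * g₀ z - 1)).re) = u := by
      funext z
      simp [hu']
    rw [← h4]
    exact h3
  have huc : ContinuousOn u Ω := hu.continuousOn
  have hul : ∀ z ∈ Ω, |u z| ≤ 1 / 2 := fun z hz => by
    have h1 : 0 < (g₀ z).re ∧ (g₀ z).re < 1 := hS.bih0.mg hz
    show |l * (2 * (g₀ z).re - 1)| ≤ 1 / 2
    rw [abs_mul, abs_of_pos hl0]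
    have h2 : |2 * (g₀ z).re - 1| ≤ 1 := by
      rw [abs_le]
      constructor <;> linarith [h1.1, h1.2]
    calc l * |2 * (g₀ z).re - 1| ≤ l * 1 := mul_le_mul_of_nonneg_left h2 hl0.le
      _ ≤ 1 / 2 := by linarith
  set V : ℕ → (ℂ → ℝ) → ℝ := fun n f =>
    (∫ h, XF (D n) (δ n) f h ∂(Mu (D n) (β n))) - ∫ z, u z * f z with hV
  have hVe : ∀ n f, V n f = Real.sqrt 3 / 2 * δ n ^ 2 *
      ∑ x ∈ D n, f (lat (δ n) x) * mh (D n) (β n) x - ∫ z, u z * f z := by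
    intro n f
    show (∫ h, XF (D n) (δ n) f h ∂(Mu (D n) (β n))) - ∫ z, u z * f z = _
    rw [mean_XF (hβ n)]
  have hmain : Tendsto (fun n => V n φ) atTop (𝓝 0) := by
    refine mean_abs_c hS.bih0 hS.bd0 V ?_ ?_ ?_ ?_ ?_ hφ
    · intro n f g hf hg
      rw [hVe, hVe, hVe]
      have e1 : ∫ z, u z * (f z + g z) = (∫ z, u z * f z) + ∫ z, u z * g z := by
        rw [← integral_add (nfg_int hΩ huc hf) (nfg_int hΩ huc hg)]
        simp only [mul_add]
      rw [e1]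
      simp only [add_mul, Finset.sum_add_distrib, mul_add]
      ring
    · intro n f hf
      rw [hVe, hVe]
      simp only [neg_mul, mul_neg, Finset.sum_neg_distrib, integral_neg]
      ring
    · intro f hf ε hε
      exact mean_triv hΩ hS.exh hβ hu hul hf hε
    · intro g hg
      have e0 : ∫ z, u z * lap g z = 0 := harm_lap hΩ hu hg
      have e1 : ∀ n, V n (lap g) = ∫ h, XF (D n) (δ n) (lap g) h ∂(Mu (D n) (β n)) := by
        intro n
        show (∫ h, XF (D n) (δ n) (lap g) h ∂(Mu (D n) (β n))) - ∫ z, u z * lap g z = _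
        rw [e0, sub_zero]
      simp only [e1]
      exact mean_lap_e hI hΩ hS.exh hβ hg
    · intro κ hκ hκc hκ1
      obtain ⟨C, hC⟩ := nfg_key hl0 hl hS hβ hb1 hb2 hκ hκc hκ1
      refine ⟨C, fun ψ hψ ε hε => ?_⟩
      filter_upwards [hC ψ hψ ε hε] with n hn
      rw [hVe]
      exact hn
  have h3 := hmain.add_const (∫ z, u z * φ z)
  simp only [zero_add] at h3
  refine h3.congr fun n => ?_
  show ((∫ h, XF (D n) (δ n) φ h ∂(Mu (D n) (β n))) - ∫ z, u z * φ z) + ∫ z, u z * φ z = _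
  ring
/- END nfg -/

end Pool.Agent.Hmk.Ca
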