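import Pool.Agent.Hmk.CnD

/-!
# Hmk, second part: joint laws (helper70)
-/

set_option autoImplicit false

open MeasureTheory Set Filter

open scoped ENNReal ContDiff Topology

noncomputable section

namespace Pool.Agent.Hmk.Cn

/- MODULE mla
Elementary properties.  `GE_lap`: for `g' ∈ CSC Ω`, `Jc (- lap g) g' = 2 ∫ gin g g' - dirE g' ≤ dirE g`
(`green'`, `0 ≤ dirE (g - g')`, `dirE_add`), with equality for `g' = g` (`le_GE`).
`GE_tri`: `Jc (φ + ψ) g ≤ 2 (√GE φ + √GE ψ) √dirE g - dirE g ≤ (√GE φ + √GE ψ)²` (`dual`, `GE_le`).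
`GE_smul`: `c = 0` is clear (`GE_le`, `le_GE` with `g = 0`); for `c ≠ 0`
`Jc (c φ) (c g) = c² Jc φ g`. -/
private theorem mla_int {f g : ℂ → ℝ} (hf : ContDiff ℝ ∞ f) (hg : ContDiff ℝ ∞ g)
    (hc : HasCompactSupport g) : Integrable (fun z => f z * g z) :=
  int_cs ((hf.mul hg).continuous) hc.mul_left

private theorem mla_nn (g : ℂ → ℝ) : 0 ≤ dirE g :=
  integral_nonneg fun z => add_nonneg (sq_nonneg _) (sq_nonneg _)

theorem CSC.add {Ω : Set ℂ} {f g : ℂ → ℝ} (hf : CSC Ω f) (hg : CSC Ω g) :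
    CSC Ω (fun z => f z + g z) := by
  refine ⟨hf.sm.add hg.sm, hf.cs.add hg.cs, ?_⟩
  refine (tsupport_add f g).trans (union_subset hf.sub hg.sub)

theorem CSC.smul {Ω : Set ℂ} {f : ℂ → ℝ} (hf : CSC Ω f) (c : ℝ) : CSC Ω (fun z => c * f z) := by
  refine ⟨contDiff_const.mul hf.sm, hf.cs.mul_left, ?_⟩
  refine (closure_minimal (fun z hz => ?_) (isClosed_tsupport f)).trans hf.sub
  by_contra hn
  apply hz
  show c * f z = 0
  rw [image_eq_zero_of_notMem_tsupport hn, mul_zero]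

private theorem mla_zero (Ω : Set ℂ) : CSC Ω (fun _ => 0) := by
  refine ⟨contDiff_const, HasCompactSupport.zero, ?_⟩
  intro z hz
  have : tsupport (fun _ : ℂ => (0 : ℝ)) = ∅ := by
    rw [tsupport_eq_empty_iff]; rfl
  rw [this] at hz
  exact hz.elim

private theorem mla_sum {Ω : Set ℂ} {ι : Type} (s : Finset ι) {φ : ι → ℂ → ℝ}
    (hφ : ∀ i, CSC Ω (φ i)) (t : ι → ℝ) : CSC Ω (fun z => ∑ i ∈ s, t i * φ i z) := by
  classical
  induction s using Finset.induction_on with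
  | empty => simpa using mla_zero Ω
  | insert a s ha ih =>
    have : (fun z => ∑ i ∈ insert a s, t i * φ i z) =
        fun z => t a * φ a z + ∑ i ∈ s, t i * φ i z := by
      funext z
      rw [Finset.sum_insert ha]
    rw [this]
    exact ((hφ a).smul (t a)).add ih

theorem CSC.lin {Ω : Set ℂ} {m : ℕ} {φ : Fin m → ℂ → ℝ} (hφ : ∀ i, CSC Ω (φ i))
    (t : Fin m → ℝ) : CSC Ω (fun z => ∑ i, t i * φ i z) := by
  exact mla_sum Finset.univ hφ t

private theorem mla_lapn {Ω : Set ℂ} {g : ℂ → ℝ} (hg : CSC Ω g) : CSC Ω (fun z => - lap g z) := by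
  have hl : CSC Ω (lap g) := ⟨sm_lap hg.sm,
    (hg.cs.of_isClosed_subset (isClosed_tsupport _) (tsupport_lap g)),
    (tsupport_lap g).trans hg.sub⟩
  have := hl.smul (-1)
  simpa using this

theorem GE_lap {Ω : Set ℂ} (hΩ : Bornology.IsBounded Ω) {g : ℂ → ℝ} (hg : CSC Ω g) :
    GE Ω (fun z => - lap g z) = dirE g := by
  have key : ∀ k, CSC Ω k → Jc (fun z => - lap g z) k = 2 * (∫ z, gin g k z) - dirE k := by
    intro k hk
    unfold Jc
    have h1 : (fun z => - lap g z * k z) = fun z => - (lap g z * k z) := by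
      funext z; ring
    rw [h1, integral_neg, green hg.sm hk.sm hk.cs]
    ring
  have hself : dirE g = ∫ z, gin g g z := by
    unfold dirE
    congr 1
    funext z
    unfold gsq gin
    ring
  apply le_antisymm
  · apply GE_le
    intro k hk
    rw [key k hk]
    have h1 := dirE_add hg.sm hg.cs hk.sm hk.cs (-1)
    have h2 := mla_nn (fun z => g z + (-1) * k z)
    rw [h1] at h2
    linarith
  · have h1 := le_GE hΩ (mla_lapn hg) hg
    rw [key g hg, ← hself] at h1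
    linarith

theorem GE_tri {Ω : Set ℂ} (hΩ : Bornology.IsBounded Ω) {φ ψ : ℂ → ℝ} (hφ : CSC Ω φ)
    (hψ : CSC Ω ψ) :
    Real.sqrt (GE Ω (fun z => φ z + ψ z)) ≤ Real.sqrt (GE Ω φ) + Real.sqrt (GE Ω ψ) := by
  apply Real.sqrt_le_iff.2
  refine ⟨by positivity, ?_⟩
  apply GE_le
  intro k hk
  have h1 := dual hΩ hφ hk
  have h2 := dual hΩ hψ hk
  have h3 : ∫ z, (φ z + ψ z) * k z = (∫ z, φ z * k z) + ∫ z, ψ z * k z := by
    rw [← integral_add (mla_int hφ.sm hk.sm hk.cs) (mla_int hψ.sm hk.sm hk.cs)]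
    congr 1
    funext z
    ring
  unfold Jc
  rw [h3]
  have h4 := (abs_le.1 h1).2
  have h5 := (abs_le.1 h2).2
  have h6 : Real.sqrt (dirE k) ^ 2 = dirE k := Real.sq_sqrt (mla_nn k)
  nlinarith [sq_nonneg (Real.sqrt (GE Ω φ) + Real.sqrt (GE Ω ψ) - Real.sqrt (dirE k))]

private theorem mla_jcs {φ k : ℂ → ℝ} (hk : ContDiff ℝ ∞ k) (c : ℝ) :
    Jc (fun z => c * φ z) (fun z => c * k z) = c ^ 2 * Jc φ k := by
  unfold Jc dirE
  have h1 : ∀ z, c * φ z * (c * k z) = c ^ 2 * (φ z * k z) := fun z => by ring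
  have h2 : ∀ z, gsq (fun z => c * k z) z = c ^ 2 * gsq k z := by
    intro z
    have h3 : DifferentiableAt ℝ k z := hk.differentiable (by simp) z
    unfold gsq
    rw [fderiv_const_mul h3 c]
    simp only [ContinuousLinearMap.smul_apply, smul_eq_mul]
    ring
  simp only [h1, h2]
  rw [integral_const_mul, integral_const_mul]
  ring

private theorem mla_smul_le {Ω : Set ℂ} (hΩ : Bornology.IsBounded Ω) {φ : ℂ → ℝ} (hφ : CSC Ω φ)
    {c : ℝ} (hc : c ≠ 0) : GE Ω (fun z => c * φ z) ≤ c ^ 2 * GE Ω φ := by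
  apply GE_le
  intro k hk
  have h1 := le_GE hΩ hφ (hk.smul c⁻¹)
  have h2 : k = fun z => c * (c⁻¹ * k z) := by
    funext z
    field_simp
  have h3 : Jc (fun z => c * φ z) k = c ^ 2 * Jc φ (fun z => c⁻¹ * k z) := by
    conv_lhs => rw [h2]
    exact mla_jcs (hk.smul c⁻¹).sm c
  rw [h3]
  exact mul_le_mul_of_nonneg_left h1 (sq_nonneg c)

theorem GE_smul {Ω : Set ℂ} (hΩ : Bornology.IsBounded Ω) {φ : ℂ → ℝ} (hφ : CSC Ω φ) (c : ℝ) :
    GE Ω (fun z => c * φ z) = c ^ 2 * GE Ω φ := by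
  rcases eq_or_ne c 0 with rfl | hc
  · apply le_antisymm
    · apply GE_le
      intro k hk
      unfold Jc
      simp only [zero_mul, integral_zero]
      have := mla_nn k
      linarith
    · have := GE_nonneg hΩ (hφ.smul 0)
      linarith
  · apply le_antisymm (mla_smul_le hΩ hφ hc)
    have h1 := mla_smul_le hΩ (hφ.smul c) (inv_ne_zero hc)
    have h2 : (fun z => c⁻¹ * (c * φ z)) = φ := by
      funext z
      field_simp
    rw [h2] at h1
    have h3 : c ^ 2 * ((c⁻¹) ^ 2 * GE Ω (fun z => c * φ z)) = GE Ω (fun z => c * φ z) := by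
      field_simp
    calc c ^ 2 * GE Ω φ ≤ c ^ 2 * ((c⁻¹) ^ 2 * GE Ω (fun z => c * φ z)) :=
          mul_le_mul_of_nonneg_left h1 (sq_nonneg c)
      _ = _ := h3

/- END mla -/

/- MODULE mlb
`GE` IS A QUADRATIC FORM.  For every `e > 0` take `g i` from `near_max` with
`GE (φ i) - Jc (φ i) (g i) ≤ e²`; then `√GE (φ i + lap (g i)) ≤ e` (`GE_res`), hence
`|√GE (∑ t i φ i) - √dirE (∑ t i g i)| ≤ e ∑ |t i|` (`GE_tri`, `GE_smul`, `GE_lap`, linearity of `lap`),
and `dirE (∑ t i g i) = ∑ t i t j ∫ gin (g i) (g j)` (bilinearity, all integrals of continuous functions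
with compact support).  For `e → 0` the quadratic forms `Q_e` converge pointwise to
`t ↦ GE (∑ t i φ i)`, their polar forms converge to `GB (φ i) (φ j)`. -/
private theorem mlb_fd {ι : Type} (s : Finset ι) {g : ι → ℂ → ℝ} (hg : ∀ i, ContDiff ℝ ∞ (g i))
    (t : ι → ℝ) (z v : ℂ) :
    fderiv ℝ (fun z => ∑ i ∈ s, t i * g i z) z v = ∑ i ∈ s, t i * fderiv ℝ (g i) z v := by
  have hd : ∀ i ∈ s, DifferentiableAt ℝ (fun z => t i * g i z) z := fun i _ =>
    ((hg i).differentiable (by simp) z).const_mul (t i)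
  rw [fderiv_fun_sum hd]
  simp only [ContinuousLinearMap.sum_apply]
  refine Finset.sum_congr rfl fun i _ => ?_
  rw [fderiv_const_mul ((hg i).differentiable (by simp) z) (t i)]
  rfl

private theorem mlb_lap {ι : Type} (s : Finset ι) {g : ι → ℂ → ℝ} (hg : ∀ i, ContDiff ℝ ∞ (g i))
    (t : ι → ℝ) (z : ℂ) :
    lap (fun z => ∑ i ∈ s, t i * g i z) z = ∑ i ∈ s, t i * lap (g i) z := by
  unfold lap
  have h1 : ∀ v : ℂ, (fun w => fderiv ℝ (fun z => ∑ i ∈ s, t i * g i z) w v) =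
      fun w => ∑ i ∈ s, t i * fderiv ℝ (g i) w v := by
    intro v
    funext w
    exact mlb_fd s hg t w v
  rw [h1 1, h1 Complex.I, mlb_fd s (fun i => sm_fd (hg i) 1) t z 1,
    mlb_fd s (fun i => sm_fd (hg i) Complex.I) t z Complex.I, ← Finset.sum_add_distrib]
  exact Finset.sum_congr rfl fun i _ => by ring

private theorem mlb_dir {m : ℕ} {g : Fin m → ℂ → ℝ} (hg : ∀ i, ContDiff ℝ ∞ (g i))
    (hc : ∀ i, HasCompactSupport (g i)) (t : Fin m → ℝ) :
    dirE (fun z => ∑ i, t i * g i z) = ∑ i, ∑ j, t i * t j * ∫ z, gin (g i) (g j) z := by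
  have h1 : ∀ z, gsq (fun z => ∑ i, t i * g i z) z = ∑ i, ∑ j, t i * t j * gin (g i) (g j) z := by
    intro z
    unfold gsq gin
    rw [mlb_fd Finset.univ hg t z 1, mlb_fd Finset.univ hg t z Complex.I, sq, sq,
      Finset.sum_mul_sum, Finset.sum_mul_sum, ← Finset.sum_add_distrib]
    refine Finset.sum_congr rfl fun i _ => ?_
    rw [← Finset.sum_add_distrib]
    exact Finset.sum_congr rfl fun j _ => by ring
  have hi : ∀ i j, Integrable (fun z => t i * t j * gin (g i) (g j) z) := by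
    intro i j
    refine Integrable.const_mul ?_ _
    exact (mla_int (sm_fd (hg i) 1) (sm_fd (hg j) 1) (cs_fd (hc j) 1)).add
      (mla_int (sm_fd (hg i) Complex.I) (sm_fd (hg j) Complex.I) (cs_fd (hc j) Complex.I))
  unfold dirE
  simp only [h1]
  rw [integral_finset_sum _ (fun i _ => integrable_finset_sum _ fun j _ => hi i j)]
  refine Finset.sum_congr rfl fun i _ => ?_
  rw [integral_finset_sum _ (fun j _ => hi i j)]
  refine Finset.sum_congr rfl fun j _ => ?_
  rw [integral_const_mul]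

private theorem mlb_trisum {Ω : Set ℂ} (hΩ : Bornology.IsBounded Ω) {ι : Type} (s : Finset ι)
    {ψ : ι → ℂ → ℝ} (hψ : ∀ i, CSC Ω (ψ i)) (t : ι → ℝ) {e : ℝ}
    (he : ∀ i, Real.sqrt (GE Ω (ψ i)) ≤ e) :
    Real.sqrt (GE Ω (fun z => ∑ i ∈ s, t i * ψ i z)) ≤ e * ∑ i ∈ s, |t i| := by
  classical
  induction s using Finset.induction_on with
  | empty =>
    simp only [Finset.sum_empty, mul_zero]
    apply Real.sqrt_le_iff.2
    refine ⟨le_refl 0, ?_⟩
    apply GE_le
    intro k _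
    unfold Jc
    simp only [zero_mul, integral_zero]
    have := mla_nn k
    norm_num
    linarith
  | insert a s ha ih =>
    have h1 : (fun z => ∑ i ∈ insert a s, t i * ψ i z) =
        fun z => t a * ψ a z + ∑ i ∈ s, t i * ψ i z := by
      funext z
      rw [Finset.sum_insert ha]
    rw [h1, Finset.sum_insert ha]
    refine le_trans (GE_tri hΩ ((hψ a).smul (t a)) (mla_sum s hψ t)) ?_
    rw [mul_add]
    refine add_le_add ?_ ih
    rw [GE_smul hΩ (hψ a), Real.sqrt_mul (sq_nonneg _), Real.sqrt_sq_eq_abs, mul_comm]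
    exact mul_le_mul_of_nonneg_right (he a) (abs_nonneg _)

private theorem mlb_near {Ω : Set ℂ} (hΩ : Bornology.IsBounded Ω) {φ : ℂ → ℝ} (hφ : CSC Ω φ)
    {e : ℝ} (he : 0 < e) : ∃ g : ℂ → ℝ, CSC Ω g ∧ CSC Ω (fun z => φ z + lap g z) ∧
      Real.sqrt (GE Ω (fun z => φ z + lap g z)) ≤ e := by
  have hne : Nonempty {g : ℂ → ℝ // CSC Ω g} := ⟨⟨_, mla_zero Ω⟩⟩
  obtain ⟨⟨g, hg⟩, h1⟩ := exists_lt_of_lt_ciSup
    (show GE Ω φ - e ^ 2 < ⨆ g : {g : ℂ → ℝ // CSC Ω g}, Jc φ g.1 from by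
      show GE Ω φ - e ^ 2 < GE Ω φ
      have : 0 < e ^ 2 := by positivity
      linarith)
  obtain ⟨h2, h3⟩ := GE_res hΩ hφ hg
  refine ⟨g, hg, h2, ?_⟩
  apply Real.sqrt_le_iff.2
  refine ⟨he.le, ?_⟩
  simp only at h1
  linarith

private theorem mlb_quad {m : ℕ} (b : Fin m → Fin m → ℝ) (hb : ∀ i j, b i j = b j i)
    (Q : (Fin m → ℝ) → ℝ) (hQ : ∀ t, Q t = ∑ i, ∑ j, t i * t j * b i j) (i j : Fin m) :
    b i j = (Q (Pi.single i 1 + Pi.single j 1) - Q (Pi.single i 1 - Pi.single j 1)) / 4 := by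
  have key : ∀ s : Fin m → ℝ, ∀ r : Fin m → ℝ,
      Q (s + r) - Q (s - r) = 4 * ∑ i, ∑ j, s i * r j * b i j := by
    intro s r
    rw [hQ, hQ]
    have e1 : ∑ i, ∑ j, r i * s j * b i j = ∑ i, ∑ j, s i * r j * b i j := by
      rw [Finset.sum_comm]
      refine Finset.sum_congr rfl fun i _ => Finset.sum_congr rfl fun j _ => ?_
      rw [hb j i]
      ring
    have e2 : ∑ i, ∑ j, (s + r) i * (s + r) j * b i j - ∑ i, ∑ j, (s - r) i * (s - r) j * b i j =
        2 * ∑ i, ∑ j, s i * r j * b i j + 2 * ∑ i, ∑ j, r i * s j * b i j := by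
      rw [← Finset.sum_sub_distrib, Finset.mul_sum, Finset.mul_sum, ← Finset.sum_add_distrib]
      refine Finset.sum_congr rfl fun i _ => ?_
      rw [← Finset.sum_sub_distrib, Finset.mul_sum, Finset.mul_sum, ← Finset.sum_add_distrib]
      refine Finset.sum_congr rfl fun j _ => ?_
      simp only [Pi.add_apply, Pi.sub_apply]
      ring
    rw [e2, e1]
    ring
  rw [key]
  have e3 : ∑ i', ∑ j', (Pi.single i (1 : ℝ) : Fin m → ℝ) i' * (Pi.single j (1 : ℝ) : Fin m → ℝ) j' *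
      b i' j' = b i j := by
    rw [Finset.sum_eq_single i]
    · rw [Finset.sum_eq_single j]
      · simp
      · intro j' _ hj
        simp [Pi.single_eq_of_ne hj]
      · simp
    · intro i' _ hi
      simp [Pi.single_eq_of_ne hi]
    · simp
  rw [e3]
  ring

theorem GE_quad {Ω : Set ℂ} (hΩ : Bornology.IsBounded Ω) {m : ℕ} {φ : Fin m → ℂ → ℝ}
    (hφ : ∀ i, CSC Ω (φ i)) (t : Fin m → ℝ) :
    GE Ω (fun z => ∑ i, t i * φ i z) = ∑ i, ∑ j, t i * t j * GB Ω (φ i) (φ j) := by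
  have h0 : ∀ n : ℕ, (0 : ℝ) < 1 / ((n : ℝ) + 1) := fun n => by positivity
  choose g hg hl hs using fun (n : ℕ) (i : Fin m) => mlb_near hΩ (hφ i) (h0 n)
  set Q : (Fin m → ℝ) → ℝ := fun t => GE Ω (fun z => ∑ i, t i * φ i z) with hQdef
  set q : ℕ → (Fin m → ℝ) → ℝ := fun n t => dirE (fun z => ∑ i, t i * g n i z) with hqdef
  set b : ℕ → Fin m → Fin m → ℝ := fun n i j => ∫ z, gin (g n i) (g n j) z with hbdef
  have hq : ∀ n t, q n t = ∑ i, ∑ j, t i * t j * b n i j := fun n t =>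
    mlb_dir (fun i => (hg n i).sm) (fun i => (hg n i).cs) t
  have hb : ∀ n i j, b n i j = b n j i := by
    intro n i j
    simp only [hbdef]
    congr 1
    funext z
    unfold gin
    ring
  have hclose : ∀ n t, |Real.sqrt (Q t) - Real.sqrt (q n t)| ≤ 1 / ((n : ℝ) + 1) * ∑ i, |t i| := by
    intro n t
    have hgs := CSC.lin (fun i => hg n i) t
    have e1 : ∀ z, lap (fun z => ∑ i, t i * g n i z) z = ∑ i, t i * lap (g n i) z := fun z =>
      mlb_lap Finset.univ (fun i => (hg n i).sm) t z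
    have hE := GE_lap hΩ hgs
    rw [abs_le]
    constructor
    · have e2 : (fun z => - lap (fun z => ∑ i, t i * g n i z) z) =
          fun z => (∑ i, t i * φ i z) + ∑ i, (- t i) * (φ i z + lap (g n i) z) := by
        funext z
        rw [e1 z, ← Finset.sum_add_distrib, ← Finset.sum_neg_distrib]
        exact Finset.sum_congr rfl fun i _ => by ring
      have h1 := GE_tri hΩ (CSC.lin hφ t) (CSC.lin (fun i => hl n i) (fun i => - t i))
      have h2 := mlb_trisum hΩ Finset.univ (fun i => hl n i) (fun i => - t i) (hs n)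
      rw [← e2, hE] at h1
      simp only [abs_neg] at h2
      simp only [hQdef, hqdef]
      linarith
    · have e2 : (fun z => ∑ i, t i * φ i z) =
          fun z => (- lap (fun z => ∑ i, t i * g n i z) z) + ∑ i, t i * (φ i z + lap (g n i) z) := by
        funext z
        rw [e1 z, ← Finset.sum_neg_distrib, ← Finset.sum_add_distrib]
        exact Finset.sum_congr rfl fun i _ => by ring
      have h1 := GE_tri hΩ (mla_lapn hgs) (CSC.lin (fun i => hl n i) t)
      have h2 := mlb_trisum hΩ Finset.univ (fun i => hl n i) t (hs n)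
      rw [← e2, hE] at h1
      simp only [hQdef, hqdef]
      linarith
  have hlim : ∀ t, Tendsto (fun n => q n t) atTop (𝓝 (Q t)) := by
    intro t
    have h1 : Tendsto (fun n : ℕ => 1 / ((n : ℝ) + 1) * ∑ i, |t i|) atTop (𝓝 0) := by
      have := (tendsto_one_div_add_atTop_nhds_zero_nat (𝕜 := ℝ)).mul_const (∑ i, |t i|)
      simpa using this
    have h2 : Tendsto (fun n => Real.sqrt (q n t)) atTop (𝓝 (Real.sqrt (Q t))) := by
      rw [tendsto_iff_dist_tendsto_zero]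
      refine squeeze_zero (fun n => dist_nonneg) (fun n => ?_) h1
      rw [dist_comm, Real.dist_eq]
      exact hclose n t
    have h3 := h2.pow 2
    rw [Real.sq_sqrt (GE_nonneg hΩ (CSC.lin hφ t))] at h3
    refine h3.congr fun n => ?_
    exact Real.sq_sqrt (mla_nn _)
  have hbl : ∀ i j, Tendsto (fun n => b n i j) atTop (𝓝 (GB Ω (φ i) (φ j))) := by
    intro i j
    have h1 : ∀ n, b n i j = (q n (Pi.single i 1 + Pi.single j 1) -
        q n (Pi.single i 1 - Pi.single j 1)) / 4 := fun n =>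
      mlb_quad (b n) (hb n) (q n) (hq n) i j
    have h2 : GB Ω (φ i) (φ j) = (Q (Pi.single i 1 + Pi.single j 1) -
        Q (Pi.single i 1 - Pi.single j 1)) / 4 := by
      have e1 : ∀ (i : Fin m) (z : ℂ), ∑ k, (Pi.single i (1 : ℝ) : Fin m → ℝ) k * φ k z = φ i z := by
        intro i z
        rw [Finset.sum_eq_single i]
        · simp
        · intro k _ hk
          simp [Pi.single_eq_of_ne hk]
        · simp
      have e2 : (fun z => ∑ k, (Pi.single i (1 : ℝ) + Pi.single j (1 : ℝ) : Fin m → ℝ) k * φ k z) =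
          fun z => φ i z + φ j z := by
        funext z
        simp only [Pi.add_apply, add_mul, Finset.sum_add_distrib]
        rw [e1, e1]
      have e3 : (fun z => ∑ k, (Pi.single i (1 : ℝ) - Pi.single j (1 : ℝ) : Fin m → ℝ) k * φ k z) =
          fun z => φ i z - φ j z := by
        funext z
        simp only [Pi.sub_apply, sub_mul, Finset.sum_sub_distrib]
        rw [e1, e1]
      unfold GB
      simp only [hQdef]
      rw [e2, e3]
    rw [h2]
    simp only [h1]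
    exact ((hlim _).sub (hlim _)).div_const 4
  have hfin : Tendsto (fun n => q n t) atTop (𝓝 (∑ i, ∑ j, t i * t j * GB Ω (φ i) (φ j))) := by
    simp only [hq]
    exact tendsto_finset_sum _ fun i _ => tendsto_finset_sum _ fun j _ => (hbl i j).const_mul _
  exact tendsto_nhds_unique (hlim t) hfin

/-- symmetric, and the quadratic form is `GE ≥ 0` -/
theorem GB_pos {Ω : Set ℂ} (hΩ : Bornology.IsBounded Ω) {m : ℕ} {φ : Fin m → ℂ → ℝ}
    (hφ : ∀ i, CSC Ω (φ i)) {c : ℝ} (hc : 0 ≤ c) :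
    (Matrix.of fun i j => c * GB Ω (φ i) (φ j)).PosSemidef := by
  refine Matrix.PosSemidef.of_dotProduct_mulVec_nonneg ?_ ?_
  · ext i j
    simp only [Matrix.conjTranspose_apply, Matrix.of_apply, star_trivial]
    congr 1
    unfold GB
    have e1 : (fun z => φ j z + φ i z) = fun z => φ i z + φ j z := by
      funext z; ring
    have hd : CSC Ω (fun z => φ i z - φ j z) := by
      have := (hφ i).add ((hφ j).smul (-1))
      have e : (fun z => φ i z + -1 * φ j z) = fun z => φ i z - φ j z := by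
        funext z; ring
      rw [e] at this
      exact this
    have e2 : (fun z => φ j z - φ i z) = fun z => (-1) * (φ i z - φ j z) := by
      funext z; ring
    rw [e1, e2, GE_smul hΩ hd]
    norm_num
  · intro x
    have h1 := GE_nonneg hΩ (CSC.lin hφ x)
    rw [GE_quad hΩ hφ x] at h1
    have h2 : star x ⬝ᵥ (Matrix.of fun i j => c * GB Ω (φ i) (φ j)).mulVec x =
        c * ∑ i, ∑ j, x i * x j * GB Ω (φ i) (φ j) := by
      simp only [dotProduct, Matrix.mulVec, Matrix.of_apply, Pi.star_apply, star_trivial,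
        Finset.mul_sum]
      refine Finset.sum_congr rfl fun i _ => Finset.sum_congr rfl fun j _ => ?_
      ring
    rw [h2]
    exact mul_nonneg hc h1

/- END mlb -/

/- MODULE mlc
LEVY'S THEOREM in dimension `m` (as `levy_gauss`): `ProbabilityMeasure.tendsto_iff_tendsto_charFun`,
`charFun_multivariateGaussian`; the inner product of `t` and the vector `X n k` is `∑ i, t i * X n k i`. -/
theorem levy_multi {Ωs : ℕ → Type} [∀ n, MeasurableSpace (Ωs n)] (μ : ∀ n, Measure (Ωs n))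
    [∀ n, IsProbabilityMeasure (μ n)] {m : ℕ} (X : ∀ n, Ωs n → Fin m → ℝ)
    (hX : ∀ n i, Measurable (fun k => X n k i)) (M : Fin m → ℝ) {S : Matrix (Fin m) (Fin m) ℝ}
    (hS : S.PosSemidef)
    (hc : ∀ t : Fin m → ℝ, Tendsto (fun n => ∫ k, Complex.exp
        (Complex.I * (∑ i, t i * X n k i : ℝ)) ∂(μ n)) atTop
      (𝓝 (Complex.exp (Complex.I * (∑ i, t i * M i : ℝ) - (∑ i, ∑ j, t i * t j * S i j : ℝ) / 2))))
    (f : BoundedContinuousFunction (EuclideanSpace ℝ (Fin m)) ℝ) :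
    Tendsto (fun n => ∫ k, f (WithLp.toLp 2 (X n k)) ∂(μ n)) atTop
      (𝓝 (∫ y, f y ∂(ProbabilityTheory.multivariateGaussian (WithLp.toLp 2 M) S))) := by
  have hm : ∀ n, Measurable (fun k => (WithLp.toLp 2 (X n k) : EuclideanSpace ℝ (Fin m))) := by
    intro n
    exact (WithLp.measurable_toLp 2 _).comp (measurable_pi_iff.2 (hX n))
  have hp : ∀ n, IsProbabilityMeasure
      ((μ n).map (fun k => (WithLp.toLp 2 (X n k) : EuclideanSpace ℝ (Fin m)))) := fun n =>
    Measure.isProbabilityMeasure_map (hm n).aemeasurable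
  set P : ℕ → ProbabilityMeasure (EuclideanSpace ℝ (Fin m)) := fun n =>
    ⟨(μ n).map (fun k => (WithLp.toLp 2 (X n k) : EuclideanSpace ℝ (Fin m))), hp n⟩ with hP
  set P0 : ProbabilityMeasure (EuclideanSpace ℝ (Fin m)) :=
    ⟨ProbabilityTheory.multivariateGaussian (WithLp.toLp 2 M) S, inferInstance⟩ with hP0
  have h1 : Tendsto P atTop (𝓝 P0) := by
    rw [ProbabilityMeasure.tendsto_iff_tendsto_charFun]
    intro t
    show Tendsto (fun n => charFun
      ((μ n).map (fun k => (WithLp.toLp 2 (X n k) : EuclideanSpace ℝ (Fin m)))) t) atTop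
      (𝓝 (charFun (ProbabilityTheory.multivariateGaussian (WithLp.toLp 2 M) S) t))
    rw [ProbabilityTheory.charFun_multivariateGaussian hS]
    have h2 : ∀ n, charFun
        ((μ n).map (fun k => (WithLp.toLp 2 (X n k) : EuclideanSpace ℝ (Fin m)))) t =
        ∫ k, Complex.exp (Complex.I * (∑ i, t i * X n k i : ℝ)) ∂(μ n) := by
      intro n
      rw [charFun_apply, integral_map (hm n).aemeasurable (by fun_prop)]
      refine integral_congr_ae (Filter.Eventually.of_forall fun k => ?_)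
      simp only [PiLp.inner_apply, RCLike.inner_apply, conj_trivial]
      congr 1
      rw [mul_comm]
    simp only [h2]
    have h3 := hc t
    have e1 : Complex.exp (Complex.I * (∑ i, t i * M i : ℝ) -
        (∑ i, ∑ j, t i * t j * S i j : ℝ) / 2) =
        Complex.exp ((inner ℝ t (WithLp.toLp 2 M : EuclideanSpace ℝ (Fin m)) : ℝ) * Complex.I -
          (t.ofLp ⬝ᵥ S.mulVec t.ofLp : ℝ) / 2) := by
      congr 1
      have a1 : inner ℝ t (WithLp.toLp 2 M : EuclideanSpace ℝ (Fin m)) = ∑ i, t i * M i := by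
        simp only [PiLp.inner_apply, RCLike.inner_apply, conj_trivial]
        exact Finset.sum_congr rfl fun i _ => mul_comm _ _
      have a2 : t.ofLp ⬝ᵥ S.mulVec t.ofLp = ∑ i, ∑ j, t i * t j * S i j := by
        simp only [dotProduct, Matrix.mulVec, Finset.mul_sum]
        refine Finset.sum_congr rfl fun i _ => Finset.sum_congr rfl fun j _ => ?_
        ring
      rw [a1, a2, mul_comm Complex.I]
    rw [e1] at h3
    exact_mod_cast h3
  rw [ProbabilityMeasure.tendsto_iff_forall_integral_tendsto] at h1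
  have h2 := h1 f
  have h3 : ∀ n, ∫ y, f y ∂(P n : Measure (EuclideanSpace ℝ (Fin m))) =
      ∫ k, f (WithLp.toLp 2 (X n k)) ∂(μ n) := by
    intro n
    show ∫ y, f y ∂((μ n).map (fun k => (WithLp.toLp 2 (X n k) : EuclideanSpace ℝ (Fin m)))) = _
    rw [integral_map (hm n).aemeasurable f.continuous.aestronglyMeasurable]
  simp only [h3] at h2
  exact h2

/- END mlc -/

/- MODULE mld
THE FINAL THEOREM with joint laws: `levy_multi`, `clt` and `mean_lim` for `∑ t i φ i`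
(`CSC.lin`, `GE_quad`, `XF` is linear in `φ`), `GB_pos`; first part with
`X n h i = XF (φ i) - mean`, `M = 0`. -/
private theorem mld_meas {D : Finset (ℤ × ℤ)} (δ : ℝ) (φ : ℂ → ℝ) :
    Measurable (fun h : D → ℝ => XF D δ φ h) := by
  unfold XF
  exact (Finset.measurable_fun_sum _ fun x _ => (measurable_pi_apply x).const_mul _).const_mul _

private theorem mld_XF {D : Finset (ℤ × ℤ)} (δ : ℝ) {m : ℕ} (φ : Fin m → ℂ → ℝ) (t : Fin m → ℝ)
    (h : D → ℝ) : XF D δ (fun z => ∑ i, t i * φ i z) h = ∑ i, t i * XF D δ (φ i) h := by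
  unfold XF
  have h1 : ∀ x : D, (∑ i, t i * φ i (lat δ x)) * h x = ∑ i, t i * (φ i (lat δ x) * h x) := by
    intro x
    rw [Finset.sum_mul]
    exact Finset.sum_congr rfl fun i _ => by ring
  simp only [h1]
  rw [Finset.sum_comm, Finset.mul_sum]
  refine Finset.sum_congr rfl fun i _ => ?_
  rw [← Finset.mul_sum]
  ring

private theorem mld_mean {D : Finset (ℤ × ℤ)} {b : ℤ × ℤ → ℝ} (hb : ∀ z, |b z| ≤ 1 / 2) (δ : ℝ)
    {m : ℕ} (φ : Fin m → ℂ → ℝ) (t : Fin m → ℝ) :
    ∫ h, XF D δ (fun z => ∑ i, t i * φ i z) h ∂(Mu D b) =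
      ∑ i, t i * ∫ h, XF D δ (φ i) h ∂(Mu D b) := by
  simp only [mean_XF hb]
  have h1 : ∀ x : ℤ × ℤ, (∑ i, t i * φ i (lat δ x)) * mh D b x =
      ∑ i, t i * (φ i (lat δ x) * mh D b x) := by
    intro x
    rw [Finset.sum_mul]
    exact Finset.sum_congr rfl fun i _ => by ring
  simp only [h1]
  rw [Finset.sum_comm, Finset.mul_sum]
  refine Finset.sum_congr rfl fun i _ => ?_
  rw [← Finset.mul_sum]
  ring

private theorem mld_char {σ : ℝ} (hσ : 0 < σ) (hI : Itf σ) {Ω : Set ℂ} (hΩ : IsOpen Ω)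
    (hb : Bornology.IsBounded Ω) {δ : ℕ → ℝ} {D : ℕ → Finset (ℤ × ℤ)} (hA : Appr Ω δ D)
    {β : ℕ → ℤ × ℤ → ℝ} (hβ : ∀ n z, |β n z| ≤ 1 / 2) {m : ℕ} {φ : Fin m → ℂ → ℝ}
    (hφ : ∀ i, CSC Ω (φ i)) (c : ℕ → Fin m → ℝ) (M : Fin m → ℝ)
    (hc : ∀ i, Tendsto (fun n => (∫ k, XF (D n) (δ n) (φ i) k ∂(Mu (D n) (β n))) - c n i) atTop
      (𝓝 (M i))) (t : Fin m → ℝ) :
    Tendsto (fun n => ∫ k, Complex.exp (Complex.I *
        (∑ i, t i * (XF (D n) (δ n) (φ i) k - c n i) : ℝ)) ∂(Mu (D n) (β n))) atTop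
      (𝓝 (Complex.exp (Complex.I * (∑ i, t i * M i : ℝ) - (∑ i, ∑ j, t i * t j *
        (Matrix.of (fun i j => σ / Real.sqrt 3 * GB Ω (φ i) (φ j)) :
          Matrix (Fin m) (Fin m) ℝ) i j : ℝ) / 2))) := by
  have h1 := clt hσ hI hΩ hb hA hβ (CSC.lin hφ t) 1
  rw [GE_quad hb hφ t] at h1
  have h2 : Tendsto (fun n => ∑ i, t i *
      ((∫ k, XF (D n) (δ n) (φ i) k ∂(Mu (D n) (β n))) - c n i)) atTop (𝓝 (∑ i, t i * M i)) :=
    tendsto_finsetSum _ fun i _ => (hc i).const_mul _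
  have h3 : Tendsto (fun n => Complex.exp (Complex.I * (∑ i, t i *
      ((∫ k, XF (D n) (δ n) (φ i) k ∂(Mu (D n) (β n))) - c n i) : ℝ))) atTop
      (𝓝 (Complex.exp (Complex.I * (∑ i, t i * M i : ℝ)))) := by
    refine (Complex.continuous_exp.tendsto _).comp (Tendsto.const_mul _ ?_)
    exact (Complex.continuous_ofReal.tendsto _).comp h2
  have h4 := h3.mul h1
  have h5 : Complex.exp (Complex.I * (∑ i, t i * M i : ℝ)) *
      Complex.exp ((- (1 : ℝ) ^ 2 * (σ / Real.sqrt 3) *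
        (∑ i, ∑ j, t i * t j * GB Ω (φ i) (φ j)) / 2 : ℝ)) =
      Complex.exp (Complex.I * (∑ i, t i * M i : ℝ) - (∑ i, ∑ j, t i * t j *
        (Matrix.of (fun i j => σ / Real.sqrt 3 * GB Ω (φ i) (φ j)) :
          Matrix (Fin m) (Fin m) ℝ) i j : ℝ) / 2) := by
    rw [← Complex.exp_add]
    have h6 : (∑ i, ∑ j, t i * t j * (Matrix.of (fun i j => σ / Real.sqrt 3 * GB Ω (φ i) (φ j)) :
        Matrix (Fin m) (Fin m) ℝ) i j) =
        σ / Real.sqrt 3 * ∑ i, ∑ j, t i * t j * GB Ω (φ i) (φ j) := by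
      rw [Finset.mul_sum]
      refine Finset.sum_congr rfl fun i _ => ?_
      rw [Finset.mul_sum]
      refine Finset.sum_congr rfl fun j _ => ?_
      rw [Matrix.of_apply]
      ring
    rw [h6, sub_eq_add_neg]
    congr 2
    push_cast
    ring
  rw [h5] at h4
  refine h4.congr fun n => ?_
  rw [← integral_const_mul]
  refine integral_congr_ae (Filter.Eventually.of_forall fun k => ?_)
  show Complex.exp (Complex.I * (∑ i, t i *
      ((∫ k, XF (D n) (δ n) (φ i) k ∂(Mu (D n) (β n))) - c n i) : ℝ)) *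
      Complex.exp (Complex.I * (1 * (XF (D n) (δ n) (fun z => ∑ i, t i * φ i z) k -
        ∫ k, XF (D n) (δ n) (fun z => ∑ i, t i * φ i z) k ∂(Mu (D n) (β n))) : ℝ)) =
    Complex.exp (Complex.I * (∑ i, t i * (XF (D n) (δ n) (φ i) k - c n i) : ℝ))
  rw [← Complex.exp_add, mld_XF, mld_mean (hβ n), ← mul_add]
  congr 2
  rw [← Complex.ofReal_add]
  congr 1
  rw [one_mul, ← Finset.sum_sub_distrib, ← Finset.sum_add_distrib]
  exact Finset.sum_congr rfl fun i _ => by ring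

theorem gff_joint {σ : ℝ} (hσ : 0 < σ) (hI : Itf σ) {Ω : Set ℂ} (hΩ : IsOpen Ω)
    (hb : Bornology.IsBounded Ω) {δ : ℕ → ℝ} {D : ℕ → Finset (ℤ × ℤ)} (hA : Appr Ω δ D)
    {β : ℕ → ℤ × ℤ → ℝ} (hβ : ∀ n z, |β n z| ≤ 1 / 2) {m : ℕ} {φ : Fin m → ℂ → ℝ}
    (hφ : ∀ i, CSC Ω (φ i)) :
    (∀ f : BoundedContinuousFunction (EuclideanSpace ℝ (Fin m)) ℝ,
      Tendsto (fun n => ∫ h, f (WithLp.toLp 2 fun i => XF (D n) (δ n) (φ i) h -
        ∫ k, XF (D n) (δ n) (φ i) k ∂(Mu (D n) (β n))) ∂(Mu (D n) (β n))) atTop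
        (𝓝 (∫ y, f y ∂(ProbabilityTheory.multivariateGaussian 0
          (Matrix.of fun i j => σ / Real.sqrt 3 * GB Ω (φ i) (φ j)))))) ∧
    ∀ (l : ℝ), 0 < l → l ≤ 1 / 2 → ∀ a b : ℂ, a ≠ b → ∀ A₁ A₂ : Set ℂ, IsClosed A₁ →
      IsClosed A₂ → A₁ ∩ A₂ ⊆ {a, b} → frontier Ω ⊆ A₁ ∪ A₂ → Arcs l A₁ A₂ δ D β →
      ∀ u : ℂ → ℝ, InnerProductSpace.HarmonicOnNhd u Ω → (∀ z ∈ Ω, |u z| ≤ l) →
      (∀ ζ ∈ (A₁ ∩ frontier Ω) \ {a, b}, Tendsto u (𝓝[Ω] ζ) (𝓝 l)) →
      (∀ ζ ∈ (A₂ ∩ frontier Ω) \ {a, b}, Tendsto u (𝓝[Ω] ζ) (𝓝 (- l))) →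
      ∀ f : BoundedContinuousFunction (EuclideanSpace ℝ (Fin m)) ℝ,
        Tendsto (fun n => ∫ h, f (WithLp.toLp 2 fun i => XF (D n) (δ n) (φ i) h)
          ∂(Mu (D n) (β n))) atTop
          (𝓝 (∫ y, f y ∂(ProbabilityTheory.multivariateGaussian
            (WithLp.toLp 2 fun i => ∫ z, u z * φ i z)
            (Matrix.of fun i j => σ / Real.sqrt 3 * GB Ω (φ i) (φ j))))) := by
  have hp : ∀ n, IsProbabilityMeasure (Mu (D n) (β n)) := fun n => prob (hβ n)
  have hS : (Matrix.of fun i j => σ / Real.sqrt 3 * GB Ω (φ i) (φ j)).PosSemidef :=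
    GB_pos hb hφ (div_nonneg hσ.le (Real.sqrt_nonneg _))
  constructor
  · intro f
    have h1 := levy_multi (fun n => Mu (D n) (β n)) (fun n h i => XF (D n) (δ n) (φ i) h -
      ∫ k, XF (D n) (δ n) (φ i) k ∂(Mu (D n) (β n))) (fun n i => (mld_meas _ _).sub_const _)
      (fun _ => 0) hS (fun t => mld_char hσ hI hΩ hb hA hβ hφ (fun n i =>
        ∫ k, XF (D n) (δ n) (φ i) k ∂(Mu (D n) (β n))) (fun _ => 0)
        (fun i => by simp only [sub_self]; exact tendsto_const_nhds) t) f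
    exact h1
  · intro l hl0 hl a b hab A₁ A₂ h1 h2 h12 hf hB u hu hul hu1 hu2 f
    refine levy_multi (fun n => Mu (D n) (β n)) (fun n h i => XF (D n) (δ n) (φ i) h)
      (fun n i => mld_meas _ _) (fun i => ∫ z, u z * φ i z) hS (fun t => ?_) f
    have h3 := mld_char hσ hI hΩ hb hA hβ hφ (fun _ _ => 0) (fun i => ∫ z, u z * φ i z)
      (fun i => by
        simp only [sub_zero]
        exact mean_lim hI hl0 hl hΩ hb hab h1 h2 h12 hf hA hβ hB hu hul hu1 hu2 (hφ i)) t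
    simp only [sub_zero] at h3
    exact h3

/- END mld -/

end Pool.Agent.Hmk.Cn
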