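import Pool.Agent.Hmk.CaF

import Pool.Agent.Hmk.CnJ

/-!
# Hmk, Caratheodory part (helper70): lattice geometry and the final theorem
-/

set_option autoImplicit false

open MeasureTheory Set Filter

open scoped ENNReal ContDiff Topology

noncomputable section

namespace Pool.Agent.Hmk.Ca

open Pool.Agent.Hmk Pool.Agent.Hmk.Cn Pool.Agent.Hmk.Mn

/- MODULE nga
Lattice geometry.  In the coordinates `z = δ (p + q om)` (real `p`, `q`): `|z|² = δ² (p² + p q + q²)`; along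
the edge `[a, a + st i]` one of `p`, `q`, `p + q` is a constant integer.  (1) a vertex `x` which is not an
end of the edge has distance `≥ (√3 / 2) δ` from it: (if the constant coordinate of the edge differs
from that of `x` by at least `1` then the distance is `≥ √3/2 δ`, otherwise `x` is on the line of the edge
and the distance is `≥ δ`).  (2) a lattice point on an edge is one of its ends (from (1)).
(3) two edges with different sets of ends meet only in common ends. -/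
private theorem nga_nsq (δ p q : ℝ) : ‖(δ : ℂ) * ((p : ℂ) + (q : ℂ) * om)‖ ^ 2 =
    δ ^ 2 * (p ^ 2 + p * q + q ^ 2) := by
  have h3 : Real.sqrt 3 * Real.sqrt 3 = 3 := Real.mul_self_sqrt (by norm_num)
  have hre : ((δ : ℂ) * ((p : ℂ) + (q : ℂ) * om)).re = δ * (p + q / 2) := by
    unfold om
    simp only [Complex.mul_re, Complex.ofReal_re, Complex.ofReal_im, Complex.add_re, zero_mul,
      sub_zero]
    ring
  have him : ((δ : ℂ) * ((p : ℂ) + (q : ℂ) * om)).im = δ * (q * (Real.sqrt 3 / 2)) := by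
    unfold om
    simp only [Complex.mul_im, Complex.ofReal_re, Complex.ofReal_im, Complex.add_im, zero_mul,
      add_zero, zero_add]
  rw [← Complex.normSq_eq_norm_sq, Complex.normSq_apply, hre, him]
  linear_combination (δ ^ 2 * q ^ 2 / 4) * h3

private theorem nga_int {k : ℤ} (h : k ≠ 0) : (1 : ℝ) ≤ (k : ℝ) ^ 2 := by
  have h1 : (1 : ℤ) ≤ k ^ 2 := by
    have := Int.one_le_abs h
    nlinarith [abs_nonneg k, sq_abs k]
  exact_mod_cast h1

private theorem nga_pt {m : ℤ} {t : ℝ} (h0 : m ≠ 0) (h1 : m ≠ 1) (ht0 : 0 ≤ t) (ht1 : t ≤ 1) :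
    1 ≤ ((m : ℝ) - t) ^ 2 := by
  rcases lt_or_gt_of_ne h0 with h | h
  · have : (m : ℝ) ≤ -1 := by exact_mod_cast (by omega : m ≤ -1)
    nlinarith
  · have : (2 : ℝ) ≤ m := by exact_mod_cast (by omega : 2 ≤ m)
    nlinarith

private theorem nga_form {m n : ℤ} {i : Fin 6} (h1 : ¬ (m = 0 ∧ n = 0))
    (h2 : ¬ (m = (st i).1 ∧ n = (st i).2)) {t : ℝ} (ht0 : 0 ≤ t) (ht1 : t ≤ 1) :
    3 / 4 ≤ ((m : ℝ) - t * (st i).1) ^ 2 + (m - t * (st i).1) * (n - t * (st i).2) +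
      ((n : ℝ) - t * (st i).2) ^ 2 := by
  fin_cases i
  · -- (1, 0)
    simp only [st, Fin.zero_eta, Matrix.cons_val_zero, Int.cast_one, mul_one, Int.cast_zero,
      mul_zero, sub_zero] at *
    by_cases hn : n = 0
    · subst hn
      have := nga_pt (m := m) (t := t) (fun h => h1 ⟨h, rfl⟩) (fun h => h2 ⟨h, rfl⟩) ht0 ht1
      simp only [Int.cast_zero, mul_zero]
      linarith
    · have := nga_int hn
      nlinarith [sq_nonneg ((m : ℝ) - t + n / 2)]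
  · -- (0, 1)
    simp [st] at *
    by_cases hn : m = 0
    · subst hn
      have := nga_pt (m := n) (t := t) (fun h => h1 rfl h) (fun h => h2 rfl h) ht0 ht1
      simp only [Int.cast_zero]
      nlinarith
    · have := nga_int hn
      nlinarith [sq_nonneg ((n : ℝ) - t + m / 2)]
  · -- (-1, 1)
    simp [st] at *
    by_cases hn : m + n = 0
    · have hm : n = - m := by omega
      subst hm
      have := nga_pt (m := - m) (t := t) (fun h => h1 (by omega) (by omega))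
        (fun h => h2 (by omega) (by omega)) ht0 ht1
      push_cast at this ⊢
      nlinarith
    · have := nga_int hn
      push_cast at this
      nlinarith [sq_nonneg (((m : ℝ) + t) - ((m : ℝ) + n) / 2)]
  · -- (-1, 0)
    simp [st] at *
    by_cases hn : n = 0
    · subst hn
      have := nga_pt (m := - m) (t := t) (fun h => h1 (by omega) rfl) (fun h => h2 (by omega) rfl)
        ht0 ht1
      push_cast at this ⊢
      nlinarith
    · have := nga_int hn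
      nlinarith [sq_nonneg ((m : ℝ) + t + n / 2)]
  · -- (0, -1)
    simp [st] at *
    by_cases hn : m = 0
    · subst hn
      have := nga_pt (m := - n) (t := t) (fun h => h1 rfl (by omega))
        (fun h => h2 rfl (by omega)) ht0 ht1
      push_cast at this ⊢
      nlinarith
    · have := nga_int hn
      nlinarith [sq_nonneg ((n : ℝ) + t + m / 2)]
  · -- (1, -1)
    simp [st] at *
    by_cases hn : m + n = 0
    · have hm : n = - m := by omega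
      subst hm
      have := nga_pt (m := m) (t := t) (fun h => h1 (by omega) (by omega))
        (fun h => h2 (by omega) (by omega)) ht0 ht1
      push_cast at this ⊢
      nlinarith
    · have := nga_int hn
      push_cast at this
      nlinarith [sq_nonneg (((m : ℝ) - t) - ((m : ℝ) + n) / 2)]

theorem edge_dist {δ : ℝ} (hδ : 0 < δ) {x a : ℤ × ℤ} {i : Fin 6} (h1 : x ≠ a)
    (h2 : x ≠ a + st i) {z : ℂ} (hz : z ∈ segment ℝ (lat δ a) (lat δ (a + st i))) :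
    Real.sqrt 3 / 2 * δ ≤ ‖lat δ x - z‖ := by
  rw [segment_eq_image'] at hz
  obtain ⟨t, ⟨ht0, ht1⟩, rfl⟩ := hz
  have e1 : lat δ x - (lat δ a + t • (lat δ (a + st i) - lat δ a)) =
      (δ : ℂ) * ((((x.1 - a.1 : ℤ) : ℝ) - t * (st i).1 : ℝ) +
        (((x.2 - a.2 : ℤ) : ℝ) - t * (st i).2 : ℝ) * om) := by
    rw [lat_add, add_sub_cancel_left]
    unfold lat
    simp only [Complex.real_smul]
    push_cast
    ring
  have e2 := nga_nsq δ (((x.1 - a.1 : ℤ) : ℝ) - t * (st i).1) (((x.2 - a.2 : ℤ) : ℝ) - t * (st i).2)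
  rw [← e1] at e2
  have e3 := nga_form (m := x.1 - a.1) (n := x.2 - a.2) (i := i)
    (fun h => h1 (Prod.ext (by omega) (by omega)))
    (fun h => h2 (Prod.ext (by rw [Prod.fst_add]; omega) (by rw [Prod.snd_add]; omega))) ht0 ht1
  have e4 : (Real.sqrt 3 / 2 * δ) ^ 2 ≤
      ‖lat δ x - (lat δ a + t • (lat δ (a + st i) - lat δ a))‖ ^ 2 := by
    rw [e2]
    have h3 : Real.sqrt 3 ^ 2 = 3 := Real.sq_sqrt (by norm_num)
    have : (Real.sqrt 3 / 2 * δ) ^ 2 = δ ^ 2 * (3 / 4) := by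
      rw [mul_pow, div_pow, h3]; ring
    rw [this]
    exact mul_le_mul_of_nonneg_left e3 (sq_nonneg δ)
  exact (pow_le_pow_iff_left₀ (by positivity) (norm_nonneg _) two_ne_zero).1 e4

private theorem nga_inj {δ : ℝ} (hδ : 0 < δ) {x y : ℤ × ℤ} (h : lat δ x = lat δ y) : x = y := by
  have h1 : lat 1 x = lat 1 y := by
    rw [lat_mul δ x, lat_mul δ y] at h
    exact mul_left_cancel₀ (by exact_mod_cast hδ.ne') h
  have e := nga_nsq 1 ((x.1 : ℝ) - y.1) ((x.2 : ℝ) - y.2)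
  have e1 : (((1 : ℝ) : ℂ)) * ((((x.1 : ℝ) - y.1 : ℝ) : ℂ) + (((x.2 : ℝ) - y.2 : ℝ) : ℂ) * om) =
      lat 1 x - lat 1 y := by
    unfold lat
    push_cast
    ring
  rw [e1, h1, sub_self, norm_zero] at e
  have e2 : ((x.1 - y.1 : ℤ) : ℝ) ^ 2 + ((x.1 - y.1 : ℤ) : ℝ) * ((x.2 - y.2 : ℤ) : ℝ) +
      ((x.2 - y.2 : ℤ) : ℝ) ^ 2 = 0 := by
    push_cast
    linarith
  have h2 : x.2 - y.2 = 0 := by
    by_contra h0
    have := nga_int h0
    nlinarith [sq_nonneg (((x.1 - y.1 : ℤ) : ℝ) + ((x.2 - y.2 : ℤ) : ℝ) / 2)]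
  have h3 : x.1 - y.1 = 0 := by
    by_contra h0
    have := nga_int h0
    have h2' : ((x.2 - y.2 : ℤ) : ℝ) = 0 := by exact_mod_cast h2
    rw [h2'] at e2
    nlinarith
  exact Prod.ext (by omega) (by omega)

private theorem nga_two {δ : ℝ} {P Q Q' z : ℂ} (h1 : ‖Q - P‖ = δ) (h2 : ‖Q' - P‖ = δ)
    (hδ : 0 < δ) (hne : Q ≠ Q') (hz : z ∈ segment ℝ P Q) (hz' : z ∈ segment ℝ P Q') : z = P := by
  rw [segment_eq_image'] at hz hz'
  obtain ⟨t, ⟨ht0, ht1⟩, rfl⟩ := hz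
  obtain ⟨s, ⟨hs0, hs1⟩, hs⟩ := hz'
  have e : s • (Q' - P) = t • (Q - P) := add_left_cancel hs
  have e1 : s * δ = t * δ := by
    have := congrArg norm e
    rwa [norm_smul, norm_smul, h1, h2, Real.norm_of_nonneg hs0, Real.norm_of_nonneg ht0] at this
  have e2 : s = t := mul_right_cancel₀ hδ.ne' e1
  subst e2
  by_cases h0 : s = 0
  · simp [h0]
  · have : Q' - P = Q - P := smul_right_injective ℂ h0 e
    exact absurd (sub_left_injective this).symm hne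

private theorem nga_opp (j : Fin 6) : ∃ k : Fin 6, st j + st k = 0 := by
  fin_cases j
  exacts [⟨3, by decide⟩, ⟨4, by decide⟩, ⟨5, by decide⟩, ⟨0, by decide⟩, ⟨1, by decide⟩,
    ⟨2, by decide⟩]

private theorem nga_nst {δ : ℝ} (hδ : 0 < δ) (x : ℤ × ℤ) (j : Fin 6) :
    ‖lat δ (x + st j) - lat δ x‖ = δ := by
  rw [lat_add, add_sub_cancel_left, norm_st hδ.le]

private theorem nga_nst' {δ : ℝ} (hδ : 0 < δ) (x : ℤ × ℤ) (j : Fin 6) :
    ‖lat δ x - lat δ (x + st j)‖ = δ := by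
  rw [norm_sub_rev, nga_nst hδ]

theorem edge_meet {δ : ℝ} (hδ : 0 < δ) {x a : ℤ × ℤ} {i j : Fin 6}
    (h1 : ¬ (x = a ∧ x + st j = a + st i)) (h2 : ¬ (x = a + st i ∧ x + st j = a)) {z : ℂ}
    (hz : z ∈ segment ℝ (lat δ a) (lat δ (a + st i)))
    (hz' : z ∈ segment ℝ (lat δ x) (lat δ (x + st j))) : z = lat δ x ∨ z = lat δ (x + st j) := by
  by_cases hxa : x = a
  · subst hxa
    left
    exact nga_two (nga_nst hδ x i) (nga_nst hδ x j) hδ
      (fun h => h1 ⟨rfl, (nga_inj hδ h).symm⟩) hz hz'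
  by_cases hxa' : x = a + st i
  · left
    rw [← hxa', segment_symm] at hz
    have := nga_nst' hδ a i
    rw [← hxa'] at this
    exact nga_two this (nga_nst hδ x j) hδ
      (fun h => h2 ⟨hxa', (nga_inj hδ h).symm⟩) hz hz'
  by_cases hya : x + st j = a
  · right
    rw [← hya] at hz
    rw [segment_symm] at hz'
    exact nga_two (nga_nst hδ (x + st j) i) (nga_nst' hδ x j) hδ
      (fun h => h2 ⟨by rw [← hya]; exact (nga_inj hδ h).symm, hya⟩) hz hz'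
  by_cases hya' : x + st j = a + st i
  · right
    rw [← hya', segment_symm] at hz
    rw [segment_symm] at hz'
    have := nga_nst' hδ a i
    rw [← hya'] at this
    exact nga_two this (nga_nst' hδ x j) hδ
      (fun h => h1 ⟨(nga_inj hδ h).symm, hya'⟩) hz hz'
  exfalso
  have d1 := edge_dist hδ hxa hxa' hz
  have d2 := edge_dist hδ hya hya' hz
  have h3 : (1 : ℝ) < Real.sqrt 3 := by
    rw [show (1 : ℝ) = Real.sqrt 1 by simp]
    exact Real.sqrt_lt_sqrt (by norm_num) (by norm_num)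
  have d3 : ‖lat δ x - z‖ + ‖lat δ (x + st j) - z‖ = δ := by
    have := dist_add_dist_of_mem_segment hz'
    rw [dist_eq_norm, dist_eq_norm, dist_eq_norm, nga_nst' hδ x j] at this
    rw [norm_sub_rev (lat δ (x + st j)) z]
    exact this
  nlinarith

/- END nga -/

/- MODULE ngb
The discs: `closedBall (lat δ x) (8/10 δ)` does not meet the frontier (`edge_dist`, `8/10 < √3/2`;
if `x` is an end of a boundary edge then `lat δ x ∈ frontier W`, impossible for a point of the open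
set `W`); it is connected and contains `lat δ x ∈ W`, so it is contained in `W`
(`IsPreconnected.subset_or_disjoint_of...` or: the part in `W` is open and closed in it). -/
private theorem ngb_nf {W : Set ℂ} (hW : IsOpen W) {z : ℂ} (hz : z ∈ W) : z ∉ frontier W := by
  intro h
  have : z ∈ W ∩ frontier W := ⟨hz, h⟩
  rw [hW.inter_frontier_eq] at this
  exact this

private theorem ngb_sub {W s : Set ℂ} (hW : IsOpen W) (hs : IsPreconnected s) {z : ℂ}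
    (hz : z ∈ s) (hzW : z ∈ W) (h : ∀ w ∈ s, w ∉ frontier W) : s ⊆ W := by
  refine hs.subset_of_closure_inter_subset hW ⟨z, hz, hzW⟩ ?_
  rintro w ⟨hw, hws⟩
  by_contra hwW
  exact h w hws ⟨hw, by rwa [hW.interior_eq]⟩

theorem Dom.ball {l : ℝ} {W : Set ℂ} {g : ℂ → ℂ} {δ : ℝ} {N : ℕ} {γ : ℕ → ℤ × ℤ}
    {D : Finset (ℤ × ℤ)} {b : ℤ × ℤ → ℝ} (h : Dom l W g δ N γ D b) (hW : IsOpen W)
    (hδ : 0 < δ) : ∀ x ∈ D, Metric.closedBall (lat δ x) (8 / 10 * δ) ⊆ W := by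
  intro x hx
  have hxW : lat δ x ∈ W := (h.free x).1 hx
  refine ngb_sub hW (convex_closedBall _ _).isPreconnected
    (Metric.mem_closedBall_self (by positivity)) hxW ?_
  intro w hw hwf
  rw [h.path.fr, mem_iUnion] at hwf
  obtain ⟨k, hk⟩ := hwf
  obtain ⟨i, hi⟩ := h.path.adj k
  have hseg : segment ℝ (lat δ (γ k)) (lat δ (γ (k + 1))) ⊆ frontier W := by
    rw [h.path.fr]
    exact subset_iUnion (fun k => segment ℝ (lat δ (γ k)) (lat δ (γ (k + 1)))) k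
  have h1 : x ≠ γ k := by
    rintro rfl
    exact ngb_nf hW hxW (hseg (left_mem_segment ℝ _ _))
  have h2 : x ≠ γ (k + 1) := by
    rintro rfl
    exact ngb_nf hW hxW (hseg (right_mem_segment ℝ _ _))
  rw [hi] at h2 hk
  have h3 := edge_dist hδ h1 h2 hk
  have h4 : ‖lat δ x - w‖ ≤ 8 / 10 * δ := by
    rw [← dist_eq_norm, dist_comm]
    exact hw
  have h5 : (1.7 : ℝ) < Real.sqrt 3 := by
    rw [show (1.7 : ℝ) = Real.sqrt (1.7 ^ 2) by rw [Real.sqrt_sq (by norm_num)]]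
    exact Real.sqrt_lt_sqrt (by norm_num) (by norm_num)
  nlinarith

private theorem ngb_on {l : ℝ} {W : Set ℂ} {g : ℂ → ℂ} {δ : ℝ} {N : ℕ}
    {γ : ℕ → ℤ × ℤ} {D : Finset (ℤ × ℤ)} {b : ℤ × ℤ → ℝ} (h : Dom l W g δ N γ D b)
    (hW : IsOpen W) (hδ : 0 < δ) {x : ℤ × ℤ} (hx : x ∈ D) {i : Fin 6} (hy : x + st i ∉ D) :
    ∃ m, γ m = x + st i := by
  have hxW : lat δ x ∈ W := (h.free x).1 hx
  have hyW : lat δ (x + st i) ∉ W := fun h' => hy ((h.free _).2 h')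
  -- the point is on the frontier
  have hyf : lat δ (x + st i) ∈ frontier W := by
    by_contra hyf
    refine hyW (ngb_sub hW (convex_segment (𝕜 := ℝ) (lat δ x) (lat δ (x + st i))).isPreconnected
      (left_mem_segment ℝ _ _) hxW ?_ (right_mem_segment ℝ _ _))
    intro w hw hwf
    have hwf' := hwf
    rw [h.path.fr, mem_iUnion] at hwf
    obtain ⟨k, hk⟩ := hwf
    obtain ⟨j, hj⟩ := h.path.adj k
    have hseg : segment ℝ (lat δ (γ k)) (lat δ (γ (k + 1))) ⊆ frontier W := by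
      rw [h.path.fr]
      exact subset_iUnion (fun k => segment ℝ (lat δ (γ k)) (lat δ (γ (k + 1)))) k
    have h1 : x ≠ γ k := by
      rintro rfl
      exact ngb_nf hW hxW (hseg (left_mem_segment ℝ _ _))
    have h2 : x ≠ γ (k + 1) := by
      rintro rfl
      exact ngb_nf hW hxW (hseg (right_mem_segment ℝ _ _))
    rw [hj] at h2 hk
    rcases edge_meet hδ (fun h' => h1 h'.1) (fun h' => h2 h'.1) hk hw with h3 | h3
    · rw [h3] at hwf'
      exact ngb_nf hW hxW hwf'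
    · rw [h3] at hwf'
      exact hyf hwf'
  rw [h.path.fr, mem_iUnion] at hyf
  obtain ⟨k, hk⟩ := hyf
  obtain ⟨j, hj⟩ := h.path.adj k
  by_contra hne
  have h1 : x + st i ≠ γ k := fun h' => hne ⟨k, h'.symm⟩
  have h2 : x + st i ≠ γ k + st j := fun h' => hne ⟨k + 1, by rw [hj]; exact h'.symm⟩
  rw [hj] at hk
  have h3 := edge_dist hδ h1 h2 hk
  rw [sub_self, norm_zero] at h3
  have : 0 < Real.sqrt 3 / 2 * δ := by positivity
  linarith

private theorem ngb_slit {l : ℝ} {W : Set ℂ} {g : ℂ → ℂ} {δ : ℝ} {N : ℕ}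
    {γ : ℕ → ℤ × ℤ} {D : Finset (ℤ × ℤ)} {b : ℤ × ℤ → ℝ} (h : Dom l W g δ N γ D b)
    (hW : IsOpen W) (hδ : 0 < δ) (m : ℕ) :
    ∃ e : ℂ, ‖e‖ = 1 ∧ ∀ t : ℝ, 0 ≤ t → t < δ / 2 → lat δ (γ m) + t * e ∉ W := by
  obtain ⟨j, hj⟩ := h.path.adj m
  have hseg : segment ℝ (lat δ (γ m)) (lat δ (γ (m + 1))) ⊆ frontier W := by
    rw [h.path.fr]
    exact subset_iUnion (fun k => segment ℝ (lat δ (γ k)) (lat δ (γ (k + 1)))) m
  refine ⟨lat 1 (st j), norm_st zero_le_one j, fun t ht0 ht1 hin => ?_⟩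
  refine ngb_nf hW hin (hseg ?_)
  rw [segment_eq_image']
  refine ⟨t / δ, ⟨by positivity, by rw [div_le_one hδ]; linarith⟩, ?_⟩
  rw [hj, lat_add, add_sub_cancel_left, lat_mul δ (st j)]
  simp only [Complex.real_smul]
  have : (δ : ℂ) ≠ 0 := by exact_mod_cast hδ.ne'
  push_cast
  field_simp

theorem Dom.bv0 {l : ℝ} (hl : 0 < l) {W : Set ℂ} {g : ℂ → ℂ} {δ : ℝ} {N : ℕ}
    {γ : ℕ → ℤ × ℤ} {D : Finset (ℤ × ℤ)} {b : ℤ × ℤ → ℝ} (h : Dom l W g δ N γ D b)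
    (hW : IsOpen W) (hδ : 0 < δ) :
    (∀ x ∈ D, ∀ i, x + st i ∉ D → b (x + st i) ≠ l → BV0 W g (lat δ (x + st i)) δ) ∧
    ∀ x ∈ D, ∀ i, x + st i ∉ D → b (x + st i) ≠ - l →
      BV0 W (fun z => 1 - g z) (lat δ (x + st i)) δ := by
  constructor
  · intro x hx i hi hb
    obtain ⟨m, hm⟩ := ngb_on h hW hδ hx hi
    rw [← hm] at hb ⊢
    refine ⟨ngb_slit h hW hδ m, ?_⟩
    rcases h.bv m with h1 | h1
    · exact absurd h1.1 hb
    · exact h1.2
  · intro x hx i hi hb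
    obtain ⟨m, hm⟩ := ngb_on h hW hδ hx hi
    rw [← hm] at hb ⊢
    refine ⟨ngb_slit h hW hδ m, ?_⟩
    rcases h.bv m with h1 | h1
    · intro ζ hζ hd
      have := (h1.2 ζ hζ hd).const_sub 1
      simpa using this
    · exact absurd h1.1 hb

/- END ngb -/

/- MODULE ngc
The sequence: `Ω` is bounded by `R` (pointwise limit of `f n w`), `exh` from `inv_conv` (`K = C`) and
`free`, `bdd` from `free` and `bd`. -/
theorem sq_of_dom {l : ℝ} {Ω : Set ℂ} {f₀ g₀ : ℂ → ℂ} (h0 : Bih Sp Ω f₀ g₀) {R : ℝ}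
    {W : ℕ → Set ℂ} {f g : ℕ → ℂ → ℂ} {δ : ℕ → ℝ} {N : ℕ → ℕ} {γ : ℕ → ℕ → ℤ × ℤ}
    {D : ℕ → Finset (ℤ × ℤ)} {β : ℕ → ℤ × ℤ → ℝ} (hδ : ∀ n, 0 < δ n)
    (hlim : Tendsto δ atTop (𝓝 0)) (hB : ∀ n, Bih Sp (W n) (f n) (g n))
    (hR : ∀ n, ∀ z ∈ W n, ‖z‖ ≤ R) (hc : TendstoLocallyUniformlyOn f f₀ atTop Sp)
    (hD : ∀ n, Dom l (W n) (g n) (δ n) (N n) (γ n) (D n) (β n)) :
    Sq Ω f₀ g₀ R W f g δ D := by
  refine ⟨hB, h0, hc, ?_, hR, fun n => (hD n).ball (hB n).oB (hδ n), ?_⟩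
  · rw [isBounded_iff_forall_norm_le]
    refine ⟨R, fun w hw => ?_⟩
    have hz := h0.mg hw
    have hlim : Tendsto (fun n => ‖f n (g₀ w)‖) atTop (𝓝 ‖f₀ (g₀ w)‖) :=
      (hc.tendsto_at hz).norm
    rw [h0.fg w hw] at hlim
    exact le_of_tendsto hlim (Eventually.of_forall fun n => hR n _ ((hB n).mf hz))
  · refine ⟨hδ, hlim, fun n x hx => hR n _ (((hD n).free x).1 hx), fun C hC hCΩ => ?_⟩
    filter_upwards [(inv_conv hB h0 hc hC hCΩ).1] with n hn x hx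
    exact ((hD n).free x).2 (hn hx)

/- END ngc -/

/- MODULE ngd
THE CENTRED PART: `clt_e` with `hv` from `var_XF_u` (`Ω = W n`, `8/10 ≥ 7/10`) and `GE_limsup`. -/
theorem clt_cara {σ : ℝ} (hσ : 0 < σ) (hI : Itf σ) {Ω : Set ℂ} {f₀ g₀ : ℂ → ℂ} {R : ℝ}
    {W : ℕ → Set ℂ} {f g : ℕ → ℂ → ℂ} {δ : ℕ → ℝ} {D : ℕ → Finset (ℤ × ℤ)}
    (hS : Sq Ω f₀ g₀ R W f g δ D) {β : ℕ → ℤ × ℤ → ℝ} (hβ : ∀ n z, |β n z| ≤ 1 / 2)
    {φ : ℂ → ℝ} (hφ : CSC Ω φ) (τ : ℝ) :
    Tendsto (fun n => ∫ h, Complex.exp (Complex.I * (τ * (XF (D n) (δ n) φ h -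
        ∫ k, XF (D n) (δ n) φ k ∂(Mu (D n) (β n))) : ℝ)) ∂(Mu (D n) (β n))) atTop
      (𝓝 (Complex.exp ((- τ ^ 2 * (σ / Real.sqrt 3) * GE Ω φ / 2 : ℝ)))) := by
  obtain ⟨C, hC, hv⟩ := var_XF_u
  refine clt_e (C := C) hσ hI hS.bih0.oB hS.bd0 hS.exh hβ ?_ hφ τ
  intro f' hf' ε hε
  obtain ⟨δ₀, hδ₀, hv'⟩ := hv R f' hf'.sm hf'.cs (ε / 2) (by positivity)
  have e1 : ∀ᶠ n in atTop, δ n < δ₀ := hS.exh.lim.eventually (gt_mem_nhds hδ₀)
  filter_upwards [e1, GE_limsup hS.bih hS.bih0 hS.conv hS.bd0 hf'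
    (ε := ε / (2 * C)) (by positivity)] with n hn1 hn2
  have h1 := hv' (δ n) (hS.exh.pos n) hn1 (W n) (hS.bih n).oB (hS.bd n) hn2.1.sub (D n)
    (fun x hx => (Metric.closedBall_subset_closedBall
      (by have := hS.exh.pos n; linarith)).trans (hS.ball n x hx)) (β n) (hβ n)
  have h2 : C * GE (W n) f' ≤ C * (GE Ω f' + ε / (2 * C)) := mul_le_mul_of_nonneg_left hn2.2 hC.le
  have h3 : C * (GE Ω f' + ε / (2 * C)) = C * GE Ω f' + ε / 2 := by
    field_simp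
  linarith

/- END ngd -/

/- MODULE nge
THE FINAL THEOREM: `levy_multi` (`CnJ`) with `clt_cara`, `mean_cara` for `∑ t i φ i`, `GE_quad`,
`GB_pos`, `sq_of_dom`, `Dom.bv0`. -/
private theorem nge_meas {D : Finset (ℤ × ℤ)} (δ : ℝ) (φ : ℂ → ℝ) :
    Measurable (fun h : D → ℝ => XF D δ φ h) := by
  unfold XF
  exact (Finset.measurable_fun_sum _ fun x _ => (measurable_pi_apply x).const_mul _).const_mul _

private theorem nge_XF {D : Finset (ℤ × ℤ)} (δ : ℝ) {m : ℕ} (φ : Fin m → ℂ → ℝ) (t : Fin m → ℝ)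
    (h : D → ℝ) : XF D δ (fun z => ∑ i, t i * φ i z) h = ∑ i, t i * XF D δ (φ i) h := by
  unfold XF
  have h1 : ∀ x : D, (∑ i, t i * φ i (lat δ x)) * h x = ∑ i, t i * (φ i (lat δ x) * h x) := by
    intro x
    rw [Finset.sum_mul]
    exact Finset.sum_congr rfl fun i _ => by ring
  simp only [h1]
  rw [Finset.sum_comm, Finset.mul_sum]
  refine Finset.sum_congr rfl fun i _ => ?_
  rw [← Finset.mul_sum]
  ring

private theorem nge_mean {D : Finset (ℤ × ℤ)} {b : ℤ × ℤ → ℝ} (hb : ∀ z, |b z| ≤ 1 / 2) (δ : ℝ)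
    {m : ℕ} (φ : Fin m → ℂ → ℝ) (t : Fin m → ℝ) :
    ∫ h, XF D δ (fun z => ∑ i, t i * φ i z) h ∂(Mu D b) =
      ∑ i, t i * ∫ h, XF D δ (φ i) h ∂(Mu D b) := by
  simp only [mean_XF hb]
  have h1 : ∀ x : ℤ × ℤ, (∑ i, t i * φ i (lat δ x)) * mh D b x =
      ∑ i, t i * (φ i (lat δ x) * mh D b x) := by
    intro x
    rw [Finset.sum_mul]
    exact Finset.sum_congr rfl fun i _ => by ring
  simp only [h1]
  rw [Finset.sum_comm, Finset.mul_sum]
  refine Finset.sum_congr rfl fun i _ => ?_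
  rw [← Finset.mul_sum]
  ring

private theorem nge_char {σ : ℝ} (hσ : 0 < σ) (hI : Itf σ) {Ω : Set ℂ} {f₀ g₀ : ℂ → ℂ} {R : ℝ}
    {W : ℕ → Set ℂ} {f g : ℕ → ℂ → ℂ} {δ : ℕ → ℝ} {D : ℕ → Finset (ℤ × ℤ)}
    (hS : Sq Ω f₀ g₀ R W f g δ D) {β : ℕ → ℤ × ℤ → ℝ} (hβ : ∀ n z, |β n z| ≤ 1 / 2)
    {m : ℕ} {φ : Fin m → ℂ → ℝ}
    (hφ : ∀ i, CSC Ω (φ i)) (c : ℕ → Fin m → ℝ) (M : Fin m → ℝ)
    (hc : ∀ i, Tendsto (fun n => (∫ k, XF (D n) (δ n) (φ i) k ∂(Mu (D n) (β n))) - c n i) atTop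
      (𝓝 (M i))) (t : Fin m → ℝ) :
    Tendsto (fun n => ∫ k, Complex.exp (Complex.I *
        (∑ i, t i * (XF (D n) (δ n) (φ i) k - c n i) : ℝ)) ∂(Mu (D n) (β n))) atTop
      (𝓝 (Complex.exp (Complex.I * (∑ i, t i * M i : ℝ) - (∑ i, ∑ j, t i * t j *
        (Matrix.of (fun i j => σ / Real.sqrt 3 * GB Ω (φ i) (φ j)) :
          Matrix (Fin m) (Fin m) ℝ) i j : ℝ) / 2))) := by
  have h1 := clt_cara hσ hI hS hβ (CSC.lin hφ t) 1
  rw [GE_quad hS.bd0 hφ t] at h1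
  have h2 : Tendsto (fun n => ∑ i, t i *
      ((∫ k, XF (D n) (δ n) (φ i) k ∂(Mu (D n) (β n))) - c n i)) atTop (𝓝 (∑ i, t i * M i)) :=
    tendsto_finsetSum _ fun i _ => (hc i).const_mul _
  have h3 : Tendsto (fun n => Complex.exp (Complex.I * (∑ i, t i *
      ((∫ k, XF (D n) (δ n) (φ i) k ∂(Mu (D n) (β n))) - c n i) : ℝ))) atTop
      (𝓝 (Complex.exp (Complex.I * (∑ i, t i * M i : ℝ)))) := by
    refine (Complex.continuous_exp.tendsto _).comp (Tendsto.const_mul _ ?_)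
    exact (Complex.continuous_ofReal.tendsto _).comp h2
  have h4 := h3.mul h1
  have h5 : Complex.exp (Complex.I * (∑ i, t i * M i : ℝ)) *
      Complex.exp ((- (1 : ℝ) ^ 2 * (σ / Real.sqrt 3) *
        (∑ i, ∑ j, t i * t j * GB Ω (φ i) (φ j)) / 2 : ℝ)) =
      Complex.exp (Complex.I * (∑ i, t i * M i : ℝ) - (∑ i, ∑ j, t i * t j *
        (Matrix.of (fun i j => σ / Real.sqrt 3 * GB Ω (φ i) (φ j)) :
          Matrix (Fin m) (Fin m) ℝ) i j : ℝ) / 2) := by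
    rw [← Complex.exp_add]
    have h6 : (∑ i, ∑ j, t i * t j * (Matrix.of (fun i j => σ / Real.sqrt 3 * GB Ω (φ i) (φ j)) :
        Matrix (Fin m) (Fin m) ℝ) i j) =
        σ / Real.sqrt 3 * ∑ i, ∑ j, t i * t j * GB Ω (φ i) (φ j) := by
      rw [Finset.mul_sum]
      refine Finset.sum_congr rfl fun i _ => ?_
      rw [Finset.mul_sum]
      refine Finset.sum_congr rfl fun j _ => ?_
      rw [Matrix.of_apply]
      ring
    rw [h6, sub_eq_add_neg]
    congr 2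
    push_cast
    ring
  rw [h5] at h4
  refine h4.congr fun n => ?_
  rw [← integral_const_mul]
  refine integral_congr_ae (Filter.Eventually.of_forall fun k => ?_)
  show Complex.exp (Complex.I * (∑ i, t i *
      ((∫ k, XF (D n) (δ n) (φ i) k ∂(Mu (D n) (β n))) - c n i) : ℝ)) *
      Complex.exp (Complex.I * (1 * (XF (D n) (δ n) (fun z => ∑ i, t i * φ i z) k -
        ∫ k, XF (D n) (δ n) (fun z => ∑ i, t i * φ i z) k ∂(Mu (D n) (β n))) : ℝ)) =
    Complex.exp (Complex.I * (∑ i, t i * (XF (D n) (δ n) (φ i) k - c n i) : ℝ))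
  rw [← Complex.exp_add, nge_XF, nge_mean (hβ n), ← mul_add]
  congr 2
  rw [← Complex.ofReal_add]
  congr 1
  rw [one_mul, ← Finset.sum_sub_distrib, ← Finset.sum_add_distrib]
  exact Finset.sum_congr rfl fun i _ => by ring

theorem gff_cara {σ : ℝ} (hσ : 0 < σ) (hI : Itf σ) {l : ℝ} (hl0 : 0 < l) (hl : l ≤ 1 / 2)
    {Ω : Set ℂ} {f₀ g₀ : ℂ → ℂ} (h0 : Bih Sp Ω f₀ g₀) {R : ℝ}
    {W : ℕ → Set ℂ} {f g : ℕ → ℂ → ℂ} {δ : ℕ → ℝ} {N : ℕ → ℕ} {γ : ℕ → ℕ → ℤ × ℤ}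
    {D : ℕ → Finset (ℤ × ℤ)} {β : ℕ → ℤ × ℤ → ℝ} (hδ : ∀ n, 0 < δ n)
    (hlim : Tendsto δ atTop (𝓝 0)) (hB : ∀ n, Bih Sp (W n) (f n) (g n))
    (hR : ∀ n, ∀ z ∈ W n, ‖z‖ ≤ R) (hc : TendstoLocallyUniformlyOn f f₀ atTop Sp)
    (hD : ∀ n, Dom l (W n) (g n) (δ n) (N n) (γ n) (D n) (β n))
    (hβ : ∀ n z, |β n z| ≤ 1 / 2) {m : ℕ} {φ : Fin m → ℂ → ℝ} (hφ : ∀ i, CSC Ω (φ i))
    (F : BoundedContinuousFunction (EuclideanSpace ℝ (Fin m)) ℝ) :
    Tendsto (fun n => ∫ h, F (WithLp.toLp 2 fun i => XF (D n) (δ n) (φ i) h)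
      ∂(Mu (D n) (β n))) atTop
      (𝓝 (∫ y, F y ∂(ProbabilityTheory.multivariateGaussian
        (WithLp.toLp 2 fun i => ∫ z, (l * (2 * (g₀ z).re - 1)) * φ i z)
        (Matrix.of fun i j => σ / Real.sqrt 3 * GB Ω (φ i) (φ j))))) := by
  have hp : ∀ n, IsProbabilityMeasure (Mu (D n) (β n)) := fun n => prob (hβ n)
  have hSq : Sq Ω f₀ g₀ R W f g δ D := sq_of_dom h0 hδ hlim hB hR hc hD
  have hS : (Matrix.of fun i j => σ / Real.sqrt 3 * GB Ω (φ i) (φ j)).PosSemidef :=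
    GB_pos hSq.bd0 hφ (div_nonneg hσ.le (Real.sqrt_nonneg _))
  have hbv := fun n => Dom.bv0 hl0 (hD n) (hB n).oB (hδ n)
  refine levy_multi (fun n => Mu (D n) (β n)) (fun n h i => XF (D n) (δ n) (φ i) h)
    (fun n i => nge_meas _ _) (fun i => ∫ z, (l * (2 * (g₀ z).re - 1)) * φ i z) hS
    (fun t => ?_) F
  have h3 := nge_char hσ hI hSq hβ hφ (fun _ _ => 0)
    (fun i => ∫ z, (l * (2 * (g₀ z).re - 1)) * φ i z)
    (fun i => by
      simp only [sub_zero]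
      exact mean_cara hI hl0 hl hSq hβ (fun n => (hbv n).1) (fun n => (hbv n).2) (hφ i)) t
  simp only [sub_zero] at h3
  exact h3

/- END nge -/

end Pool.Agent.Hmk.Ca
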