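import Pool.Agent.Hmk.Gd

/-!
# Hmk, cluster fields (2): components

`A` is a finite set of sites, `S` a set of directed edges `(x, i)` (the edge from `x` to `x + st i`).
`Cmp A S x` is the component of `x` in `A` if the edges of `S` (in either direction) are open, `Fg`
says that some open edge `(y, i)` leads from the component out of `A`, `vg` is the value `M` of the
component, and `0` if `Fg` holds (or if `x ∉ A`).
-/

set_option autoImplicit false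

open MeasureTheory Set Filter
open scoped ENNReal ContDiff Topology

noncomputable section

namespace Pool.Agent.Hmk

/-- directed edges -/
abbrev Ed : Type := (ℤ × ℤ) × Fin 6

/-- adjacency in `A` through the edges of `S` -/
def eadj (A : Finset (ℤ × ℤ)) (S : Set Ed) (x y : ℤ × ℤ) : Prop :=
  x ∈ A ∧ y ∈ A ∧ ∃ i, (y = x + st i ∧ (x, i) ∈ S) ∨ (x = y + st i ∧ (y, i) ∈ S)

/-- the component of `x` in `A` -/
def Cmp (A : Finset (ℤ × ℤ)) (S : Set Ed) (x : ℤ × ℤ) : Finset (ℤ × ℤ) := by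
  classical exact A.filter (fun y => Relation.ReflTransGen (eadj A S) x y)

/-- some open edge leads from the component of `x` out of `A` -/
def Fg (A : Finset (ℤ × ℤ)) (S : Set Ed) (x : ℤ × ℤ) : Prop :=
  ∃ y ∈ Cmp A S x, ∃ i, (y, i) ∈ S ∧ y + st i ∉ A

/-- the value `M` of the component of `x`; `0` if it is flagged -/
def vg (A : Finset (ℤ × ℤ)) (S : Set Ed) (M : Finset (ℤ × ℤ) → ℝ) (x : ℤ × ℤ) : ℝ := by
  classical exact if x ∈ A ∧ ¬ Fg A S x then M (Cmp A S x) else 0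

/-- `M` is a mean of `ψ` -/
def IsMean (M : Finset (ℤ × ℤ) → ℝ) (ψ : ℤ × ℤ → ℝ) : Prop :=
  ∀ F : Finset (ℤ × ℤ), F.Nonempty → (∃ z ∈ F, ψ z ≤ M F) ∧ ∃ z ∈ F, M F ≤ ψ z

/-- the average -/
def Mav (ψ : ℤ × ℤ → ℝ) (F : Finset (ℤ × ℤ)) : ℝ := (∑ y ∈ F, ψ y) / F.card

/-- the minimum -/
def Mmn (ψ : ℤ × ℤ → ℝ) (F : Finset (ℤ × ℤ)) : ℝ := if hF : F.Nonempty then F.inf' hF ψ else 0

/-- the total variation of `ψ` on the edges which start in the component of `x` -/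
def Os (A : Finset (ℤ × ℤ)) (S : Set Ed) (ψ : ℤ × ℤ → ℝ) (x : ℤ × ℤ) : ℝ :=
  ∑ y ∈ Cmp A S x, ∑ i, |ψ y - ψ (y + st i)|

/- MODULE cca
Elementary properties of the components. -/
private theorem cca_mono {α : Type} {r p : α → α → Prop} (h : ∀ a b, r a b → p a b) {a b : α}
    (hab : Relation.ReflTransGen r a b) : Relation.ReflTransGen p a b := by
  induction hab with
  | refl => exact Relation.ReflTransGen.refl
  | tail _ h2 ih => exact ih.tail (h _ _ h2)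

private theorem cca_symm {α : Type} {r : α → α → Prop} (h : ∀ a b, r a b → r b a) {a b : α}
    (hab : Relation.ReflTransGen r a b) : Relation.ReflTransGen r b a := by
  induction hab with
  | refl => exact Relation.ReflTransGen.refl
  | tail _ h2 ih => exact Relation.ReflTransGen.head (h _ _ h2) ih

theorem st_opp (i : Fin 6) : st (i + 3) = - st i := by
  fin_cases i <;> rfl

theorem mem_Cmp {A : Finset (ℤ × ℤ)} {S : Set Ed} {x y : ℤ × ℤ} :
    y ∈ Cmp A S x ↔ y ∈ A ∧ Relation.ReflTransGen (eadj A S) x y := by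
  classical
  unfold Cmp
  rw [Finset.mem_filter]

theorem Cmp_sub (A : Finset (ℤ × ℤ)) (S : Set Ed) (x : ℤ × ℤ) : Cmp A S x ⊆ A := by
  intro y hy
  exact (mem_Cmp.1 hy).1

theorem eadj_symm {A : Finset (ℤ × ℤ)} {S : Set Ed} {x y : ℤ × ℤ} (h : eadj A S x y) :
    eadj A S y x := by
  obtain ⟨hx, hy, i, h | h⟩ := h
  · exact ⟨hy, hx, i, Or.inr h⟩
  · exact ⟨hy, hx, i, Or.inl h⟩

theorem Cmp_self {A : Finset (ℤ × ℤ)} (S : Set Ed) {x : ℤ × ℤ} (hx : x ∈ A) :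
    x ∈ Cmp A S x := by
  exact mem_Cmp.2 ⟨hx, Relation.ReflTransGen.refl⟩

theorem Cmp_symm {A : Finset (ℤ × ℤ)} {S : Set Ed} {x y : ℤ × ℤ} (hx : x ∈ A)
    (hy : y ∈ Cmp A S x) : x ∈ Cmp A S y := by
  refine mem_Cmp.2 ⟨hx, ?_⟩
  exact cca_symm (fun _ _ h => eadj_symm h) (mem_Cmp.1 hy).2

theorem Cmp_eq {A : Finset (ℤ × ℤ)} {S : Set Ed} {x y : ℤ × ℤ} (hx : x ∈ A)
    (hy : y ∈ Cmp A S x) : Cmp A S y = Cmp A S x := by
  ext z
  rw [mem_Cmp, mem_Cmp]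
  have h1 := (mem_Cmp.1 hy).2
  have h2 := (mem_Cmp.1 (Cmp_symm hx hy)).2
  exact ⟨fun h => ⟨h.1, h1.trans h.2⟩, fun h => ⟨h.1, h2.trans h.2⟩⟩

theorem Cmp_mono (A : Finset (ℤ × ℤ)) {S S' : Set Ed} (h : S ⊆ S') (x : ℤ × ℤ) :
    Cmp A S x ⊆ Cmp A S' x := by
  intro y hy
  rw [mem_Cmp] at hy ⊢
  refine ⟨hy.1, cca_mono ?_ hy.2⟩
  rintro a b ⟨ha, hb, i, h' | h'⟩
  · exact ⟨ha, hb, i, Or.inl ⟨h'.1, h h'.2⟩⟩
  · exact ⟨ha, hb, i, Or.inr ⟨h'.1, h h'.2⟩⟩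

theorem Cmp_step {A : Finset (ℤ × ℤ)} {S : Set Ed} {x y z : ℤ × ℤ}
    (hy : y ∈ Cmp A S x) (h : eadj A S y z) : z ∈ Cmp A S x := by
  exact mem_Cmp.2 ⟨h.2.1, (mem_Cmp.1 hy).2.tail h⟩

/-- only the edges with both ends in `A` count -/
theorem Cmp_inter (A : Finset (ℤ × ℤ)) (S : Set Ed) (x : ℤ × ℤ) :
    Cmp A (S ∩ {e | e.1 ∈ A ∧ e.1 + st e.2 ∈ A}) x = Cmp A S x := by
  refine Finset.Subset.antisymm (Cmp_mono A Set.inter_subset_left x) ?_
  intro y hy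
  rw [mem_Cmp] at hy ⊢
  refine ⟨hy.1, cca_mono ?_ hy.2⟩
  rintro a b ⟨ha, hb, i, h' | h'⟩
  · exact ⟨ha, hb, i, Or.inl ⟨h'.1, h'.2, ha, by rw [← h'.1]; exact hb⟩⟩
  · exact ⟨ha, hb, i, Or.inr ⟨h'.1, h'.2, hb, by rw [← h'.1]; exact ha⟩⟩

/-- no open edge at `x` : the component is `{x}` -/
theorem Cmp_single {A : Finset (ℤ × ℤ)} {S : Set Ed} {x : ℤ × ℤ} (hx : x ∈ A)
    (h : ∀ y, ¬ eadj A S x y) : Cmp A S x = {x} := by
  ext y
  rw [mem_Cmp, Finset.mem_singleton]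
  constructor
  · rintro ⟨_, h2⟩
    rcases Relation.ReflTransGen.cases_head h2 with h3 | ⟨z, h3, _⟩
    · exact h3.symm
    · exact absurd h3 (h z)
  · rintro rfl
    exact ⟨hx, Relation.ReflTransGen.refl⟩

/-- smaller site set: if the component in `A'` lies in `A ⊆ A'` then it is the component in `A` -/
theorem Cmp_subset_eq {A A' : Finset (ℤ × ℤ)} (hA : A ⊆ A') {S : Set Ed} {x : ℤ × ℤ}
    (h : Cmp A' S x ⊆ A) : Cmp A S x = Cmp A' S x := by
  refine Finset.Subset.antisymm ?_ ?_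
  · intro y hy
    rw [mem_Cmp] at hy ⊢
    refine ⟨hA hy.1, cca_mono ?_ hy.2⟩
    rintro a b ⟨ha, hb, h'⟩
    exact ⟨hA ha, hA hb, h'⟩
  · intro y hy
    rw [mem_Cmp]
    refine ⟨h hy, ?_⟩
    have key : ∀ z, Relation.ReflTransGen (eadj A' S) x z →
        Relation.ReflTransGen (eadj A S) x z := by
      intro z hz
      induction hz with
      | refl => exact Relation.ReflTransGen.refl
      | tail h1 h2 ih =>
        refine ih.tail ⟨h (mem_Cmp.2 ⟨h2.1, h1⟩), h (mem_Cmp.2 ⟨h2.2.1, h1.tail h2⟩), h2.2.2⟩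
    exact key y (mem_Cmp.1 hy).2
/- END cca -/

/- MODULE ccb
The values: `vg` is the same at both ends of an open edge (if `x + st i ∉ A` both sides vanish).
`vg_insert`: if neither end of `e` is in the component of `x` for `insert e S` then the components
and the flags for `S` and for `insert e S` agree. -/
theorem vg_edge {A : Finset (ℤ × ℤ)} {S : Set Ed} (M : Finset (ℤ × ℤ) → ℝ) {x : ℤ × ℤ}
    {i : Fin 6} (hx : x ∈ A) (h : (x, i) ∈ S) : vg A S M x = vg A S M (x + st i) := by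
  classical
  by_cases hy : x + st i ∈ A
  · have h1 : x + st i ∈ Cmp A S x := Cmp_step (Cmp_self S hx) ⟨hx, hy, i, Or.inl ⟨rfl, h⟩⟩
    have h2 : Cmp A S (x + st i) = Cmp A S x := Cmp_eq hx h1
    unfold vg Fg
    rw [h2]
    simp only [hx, hy, true_and]
  · have h1 : Fg A S x := ⟨x, Cmp_self S hx, i, h, hy⟩
    unfold vg
    rw [if_neg (fun h' => h'.2 h1), if_neg (fun h' => hy h'.1)]

theorem vg_out {A : Finset (ℤ × ℤ)} (S : Set Ed) (M : Finset (ℤ × ℤ) → ℝ) {x : ℤ × ℤ}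
    (hx : x ∉ A) : vg A S M x = 0 := by
  unfold vg
  rw [if_neg (fun h' => hx h'.1)]

theorem vg_flag {A : Finset (ℤ × ℤ)} {S : Set Ed} (M : Finset (ℤ × ℤ) → ℝ) {x : ℤ × ℤ}
    {i : Fin 6} (h : (x, i) ∈ S) (hi : x + st i ∉ A) : vg A S M x = 0 := by
  unfold vg
  rw [if_neg]
  rintro ⟨hx, h1⟩
  exact h1 ⟨x, Cmp_self S hx, i, h, hi⟩

theorem vg_insert {A : Finset (ℤ × ℤ)} {S : Set Ed} (M : Finset (ℤ × ℤ) → ℝ) {x : ℤ × ℤ}
    {e : Ed} (h1 : e.1 ∉ Cmp A (insert e S) x)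
    (h2 : e.1 + st e.2 ∉ Cmp A (insert e S) x) : vg A (insert e S) M x = vg A S M x := by
  classical
  have hC : Cmp A (insert e S) x = Cmp A S x := by
    refine Finset.Subset.antisymm ?_ (Cmp_mono A (Set.subset_insert e S) x)
    intro y hy
    rw [mem_Cmp]
    refine ⟨Cmp_sub _ _ _ hy, ?_⟩
    have key : ∀ z, Relation.ReflTransGen (eadj A (insert e S)) x z →
        Relation.ReflTransGen (eadj A S) x z := by
      intro z hz
      induction hz with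
      | refl => exact Relation.ReflTransGen.refl
      | @tail b c h3 h4 ih =>
        refine ih.tail ?_
        have hb : b ∈ Cmp A (insert e S) x := mem_Cmp.2 ⟨h4.1, h3⟩
        have hc : c ∈ Cmp A (insert e S) x := mem_Cmp.2 ⟨h4.2.1, h3.tail h4⟩
        obtain ⟨hbA, hcA, i, ⟨h5, h6⟩ | ⟨h5, h6⟩⟩ := h4
        · refine ⟨hbA, hcA, i, Or.inl ⟨h5, ?_⟩⟩
          rcases Set.mem_insert_iff.1 h6 with h7 | h7
          · have h8 : e.1 = b := by rw [← h7]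
            exact absurd (by rw [h8]; exact hb) h1
          · exact h7
        · refine ⟨hbA, hcA, i, Or.inr ⟨h5, ?_⟩⟩
          rcases Set.mem_insert_iff.1 h6 with h7 | h7
          · have h8 : e.1 = c := by rw [← h7]
            exact absurd (by rw [h8]; exact hc) h1
          · exact h7
    exact key y (mem_Cmp.1 hy).2
  have hF : Fg A (insert e S) x ↔ Fg A S x := by
    unfold Fg
    rw [hC]
    constructor
    · rintro ⟨y, hy, i, h3, h4⟩
      refine ⟨y, hy, i, ?_, h4⟩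
      rcases Set.mem_insert_iff.1 h3 with h5 | h5
      · exact absurd (by rw [hC, ← h5]; exact hy) h1
      · exact h5
    · rintro ⟨y, hy, i, h3, h4⟩
      exact ⟨y, hy, i, Set.mem_insert_of_mem e h3, h4⟩
  unfold vg
  rw [hC]
  simp only [hF]

theorem Mav_mean (ψ : ℤ × ℤ → ℝ) : IsMean (Mav ψ) ψ := by
  intro F hF
  have hc : (0 : ℝ) < F.card := by exact_mod_cast hF.card_pos
  have hs : ∑ z ∈ F, Mav ψ F = ∑ z ∈ F, ψ z := by
    rw [Finset.sum_const, nsmul_eq_mul, Mav]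
    field_simp
  exact ⟨Finset.exists_le_of_sum_le hF hs.ge, Finset.exists_le_of_sum_le hF hs.le⟩

theorem Mmn_mean (ψ : ℤ × ℤ → ℝ) : IsMean (Mmn ψ) ψ := by
  intro F hF
  unfold Mmn
  rw [dif_pos hF]
  obtain ⟨z, hz, h1⟩ := Finset.exists_mem_eq_inf' hF ψ
  exact ⟨⟨z, hz, h1.ge⟩, ⟨z, hz, h1.le⟩⟩

theorem IsMean.single {M : Finset (ℤ × ℤ) → ℝ} {ψ : ℤ × ℤ → ℝ} (hM : IsMean M ψ) (x : ℤ × ℤ) :
    M {x} = ψ x := by
  obtain ⟨⟨z, hz, h1⟩, ⟨y, hy, h2⟩⟩ := hM {x} (Finset.singleton_nonempty x)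
  rw [Finset.mem_singleton] at hz hy
  subst hz hy
  exact le_antisymm h2 h1

theorem vg_bound {A : Finset (ℤ × ℤ)} (S : Set Ed) {M : Finset (ℤ × ℤ) → ℝ} {ψ : ℤ × ℤ → ℝ}
    (hM : IsMean M ψ) {m : ℝ} (hm : 0 ≤ m) (x : ℤ × ℤ) (h : ∀ y ∈ Cmp A S x, |ψ y| ≤ m) :
    |vg A S M x| ≤ m := by
  unfold vg
  split_ifs with h1
  · obtain ⟨⟨z, hz, h2⟩, ⟨y, hy, h3⟩⟩ := hM _ ⟨x, Cmp_self S h1.1⟩
    have h4 := abs_le.1 (h z hz)
    have h5 := abs_le.1 (h y hy)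
    exact abs_le.2 ⟨by linarith, by linarith⟩
  · rw [abs_zero]
    exact hm

theorem vg_nonneg {A : Finset (ℤ × ℤ)} (S : Set Ed) {M : Finset (ℤ × ℤ) → ℝ} {ψ : ℤ × ℤ → ℝ}
    (hM : IsMean M ψ) (x : ℤ × ℤ) (h : ∀ y ∈ Cmp A S x, 0 ≤ ψ y) : 0 ≤ vg A S M x := by
  unfold vg
  split_ifs with h1
  · obtain ⟨⟨z, hz, h2⟩, _⟩ := hM _ ⟨x, Cmp_self S h1.1⟩
    exact le_trans (h z hz) h2
  · exact le_refl _

/-- the minimum (and `0` on flagged components) is at most `ψ x` -/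
theorem vg_mn_le {A : Finset (ℤ × ℤ)} (S : Set Ed) {ψ : ℤ × ℤ → ℝ} (hψ : ∀ z, 0 ≤ ψ z)
    (x : ℤ × ℤ) : vg A S (Mmn ψ) x ≤ ψ x := by
  unfold vg
  split_ifs with h1
  · unfold Mmn
    rw [dif_pos ⟨x, Cmp_self S h1.1⟩]
    exact Finset.inf'_le ψ (Cmp_self S h1.1)
  · exact hψ x

theorem vg_av_add (A : Finset (ℤ × ℤ)) (S : Set Ed) (ψ φ : ℤ × ℤ → ℝ) (x : ℤ × ℤ) :
    vg A S (Mav (fun z => ψ z + φ z)) x = vg A S (Mav ψ) x + vg A S (Mav φ) x := by
  unfold vg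
  split_ifs with h1
  · unfold Mav
    rw [Finset.sum_add_distrib, add_div]
  · rw [add_zero]

theorem vg_av_smul (A : Finset (ℤ × ℤ)) (S : Set Ed) (c : ℝ) (ψ : ℤ × ℤ → ℝ)
    (x : ℤ × ℤ) : vg A S (Mav (fun z => c * ψ z)) x = c * vg A S (Mav ψ) x := by
  unfold vg
  split_ifs with h1
  · unfold Mav
    rw [← Finset.mul_sum, mul_div_assoc]
  · rw [mul_zero]
/- END ccb -/

/- MODULE ccc
The oscillation.  A path without repeated sites inside the component (`SimpleGraph.Walk.toPath` for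
the graph `eadj`, or a minimal chain) leaves every site at most once; every step of it goes from `y` to
`y + st i` for some `i`, `y` and `y + st i` in the component. -/
private def ccc_G (A : Finset (ℤ × ℤ)) (S : Set Ed) : SimpleGraph (ℤ × ℤ) where
  Adj a b := a ≠ b ∧ eadj A S a b
  symm := ⟨fun _ _ h => ⟨h.1.symm, eadj_symm h.2⟩⟩
  loopless := ⟨fun _ h => h.1 rfl⟩

private theorem ccc_step {A : Finset (ℤ × ℤ)} {S : Set Ed} (ψ : ℤ × ℤ → ℝ) {a b : ℤ × ℤ}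
    (h : eadj A S a b) : |ψ a - ψ b| ≤ ∑ i, |ψ a - ψ (a + st i)| := by
  obtain ⟨_, _, i, ⟨h1, _⟩ | ⟨h1, _⟩⟩ := h
  · rw [h1]
    exact Finset.single_le_sum (f := fun i => |ψ a - ψ (a + st i)|)
      (fun j _ => abs_nonneg _) (Finset.mem_univ i)
  · have h2 : b = a + st (i + 3) := by
      rw [st_opp, h1]
      abel
    rw [h2]
    exact Finset.single_le_sum (f := fun i => |ψ a - ψ (a + st i)|)
      (fun j _ => abs_nonneg _) (Finset.mem_univ (i + 3))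

private theorem ccc_walk {A : Finset (ℤ × ℤ)} {S : Set Ed} (ψ : ℤ × ℤ → ℝ) {x y : ℤ × ℤ}
    (p : (ccc_G A S).Walk x y) :
    |ψ x - ψ y| ≤ (p.support.map fun a => ∑ i, |ψ a - ψ (a + st i)|).sum := by
  induction p with
  | nil =>
    rw [sub_self, abs_zero]
    simp only [SimpleGraph.Walk.support_nil, List.map_cons, List.map_nil, List.sum_cons,
      List.sum_nil, add_zero]
    exact Finset.sum_nonneg fun _ _ => abs_nonneg _
  | @cons u v w h p ih =>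
    rw [SimpleGraph.Walk.support_cons, List.map_cons, List.sum_cons]
    have h1 := ccc_step ψ h.2
    calc |ψ u - ψ w| ≤ |ψ u - ψ v| + |ψ v - ψ w| := abs_sub_le _ _ _
      _ ≤ _ := add_le_add h1 ih

private theorem ccc_supp {A : Finset (ℤ × ℤ)} {S : Set Ed} {x y : ℤ × ℤ} (hx : x ∈ A)
    (p : (ccc_G A S).Walk x y) : ∀ a ∈ p.support, a ∈ Cmp A S x := by
  induction p with
  | nil =>
    intro a ha
    simp only [SimpleGraph.Walk.support_nil, List.mem_singleton] at ha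
    subst ha
    exact Cmp_self S hx
  | @cons u v w h p ih =>
    intro a ha
    have hv : v ∈ Cmp A S u := Cmp_step (Cmp_self S hx) h.2
    rw [SimpleGraph.Walk.support_cons, List.mem_cons] at ha
    rcases ha with rfl | ha
    · exact Cmp_self S hx
    · have := ih h.2.2.1 a ha
      rwa [Cmp_eq hx hv] at this

theorem osc_le {A : Finset (ℤ × ℤ)} {S : Set Ed} (ψ : ℤ × ℤ → ℝ) {x y : ℤ × ℤ}
    (hx : x ∈ A) (hy : y ∈ Cmp A S x) : |ψ x - ψ y| ≤ Os A S ψ x := by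
  classical
  have hr : ∀ z, Relation.ReflTransGen (eadj A S) x z → (ccc_G A S).Reachable x z := by
    intro z hz
    induction hz with
    | refl => exact SimpleGraph.Reachable.refl x
    | @tail b c _ h2 ih =>
      by_cases hbc : b = c
      · rw [← hbc]
        exact ih
      · exact ih.trans (SimpleGraph.Adj.reachable (show (ccc_G A S).Adj b c from ⟨hbc, h2⟩))
  obtain ⟨p⟩ := hr y (mem_Cmp.1 hy).2
  have h1 := ccc_walk ψ (p.toPath : (ccc_G A S).Walk x y)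
  have hnd : (p.toPath : (ccc_G A S).Walk x y).support.Nodup := p.toPath.2.support_nodup
  refine le_trans h1 ?_
  rw [← List.sum_toFinset _ hnd]
  unfold Os
  refine Finset.sum_le_sum_of_subset_of_nonneg ?_ fun _ _ _ =>
    Finset.sum_nonneg fun _ _ => abs_nonneg _
  intro a ha
  exact ccc_supp hx _ a (List.mem_toFinset.1 ha)

theorem Os_nonneg (A : Finset (ℤ × ℤ)) (S : Set Ed) (ψ : ℤ × ℤ → ℝ) (x : ℤ × ℤ) :
    0 ≤ Os A S ψ x := by
  exact Finset.sum_nonneg fun _ _ => Finset.sum_nonneg fun _ _ => abs_nonneg _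

/-- `S ⊆ S'`; either `ψ = 0` off `A`, or no edge of `S` leaves `A` -/
theorem vg_osc {A : Finset (ℤ × ℤ)} {S S' : Set Ed} {M : Finset (ℤ × ℤ) → ℝ} {ψ : ℤ × ℤ → ℝ}
    (hM : IsMean M ψ) (h0 : (∀ z ∉ A, ψ z = 0) ∨ ∀ e ∈ S, e.1 + st e.2 ∈ A) (hS : S ⊆ S')
    {x y : ℤ × ℤ} (hx : x ∈ A) (hy : y ∈ Cmp A S' x) :
    |vg A S M x - ψ y| ≤ 2 * Os A S' ψ x := by
  have hOs : ∀ z ∈ Cmp A S' x, |ψ z - ψ y| ≤ Os A S' ψ x := by
    intro z hz
    have h1 : Os A S' ψ z = Os A S' ψ x := by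
      unfold Os
      rw [Cmp_eq hx hz]
    rw [← h1]
    refine osc_le ψ (Cmp_sub _ _ _ hz) ?_
    rw [Cmp_eq hx hz]
    exact hy
  have hO := Os_nonneg A S' ψ x
  unfold vg
  split_ifs with h1
  · obtain ⟨⟨z, hz, h2⟩, ⟨w, hw, h3⟩⟩ := hM _ ⟨x, Cmp_self S h1.1⟩
    have h4 := abs_le.1 (hOs z (Cmp_mono A hS x hz))
    have h5 := abs_le.1 (hOs w (Cmp_mono A hS x hw))
    exact abs_le.2 ⟨by linarith, by linarith⟩
  · have h2 : Fg A S x := by
      by_contra h2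
      exact h1 ⟨hx, h2⟩
    obtain ⟨z, hz, i, h3, h4⟩ := h2
    have hz' := Cmp_mono A hS x hz
    have h5 : ψ (z + st i) = 0 := by
      rcases h0 with h0 | h0
      · exact h0 _ h4
      · exact absurd (h0 _ h3) h4
    have h6 : |ψ z - ψ (z + st i)| ≤ Os A S' ψ x := by
      unfold Os
      refine le_trans ?_ (Finset.single_le_sum
        (f := fun y => ∑ i, |ψ y - ψ (y + st i)|)
        (fun _ _ => Finset.sum_nonneg fun _ _ => abs_nonneg _) hz')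
      exact Finset.single_le_sum (f := fun i => |ψ z - ψ (z + st i)|)
        (fun j _ => abs_nonneg _) (Finset.mem_univ i)
    rw [h5, sub_zero] at h6
    have h7 := abs_le.1 (hOs z hz')
    have h8 := abs_le.1 h6
    exact abs_le.2 ⟨by linarith, by linarith⟩

theorem Os_sq_le (A : Finset (ℤ × ℤ)) (S : Set Ed) (ψ : ℤ × ℤ → ℝ) (x : ℤ × ℤ) :
    (Os A S ψ x) ^ 2 ≤ 6 * (Cmp A S x).card * ∑ y ∈ Cmp A S x, ∑ i, (ψ y - ψ (y + st i)) ^ 2 := by
  unfold Os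
  rw [← Finset.sum_product', ← Finset.sum_product']
  refine le_trans sq_sum_le_card_mul_sum_sq ?_
  rw [Finset.card_product, Finset.card_univ, Fintype.card_fin]
  simp only [sq_abs]
  push_cast
  rw [mul_comm (6 : ℝ)]

theorem Os_lip {A : Finset (ℤ × ℤ)} {S : Set Ed} {ψ : ℤ × ℤ → ℝ} {L : ℝ} {x : ℤ × ℤ}
    (h : ∀ y ∈ Cmp A S x, ∀ i, |ψ y - ψ (y + st i)| ≤ L) : Os A S ψ x ≤ 6 * L * (Cmp A S x).card := by
  unfold Os
  calc ∑ y ∈ Cmp A S x, ∑ i, |ψ y - ψ (y + st i)| ≤ ∑ y ∈ Cmp A S x, ∑ _i : Fin 6, L :=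
        Finset.sum_le_sum fun y hy => Finset.sum_le_sum fun i _ => h y hy i
    _ = 6 * L * (Cmp A S x).card := by
        simp
        ring
/- END ccc -/

/- MODULE ccd
Double counting: `x ∈ Cmp y ↔ y ∈ Cmp x` and then `Cmp x = Cmp y`. -/
theorem Cmp_double (A : Finset (ℤ × ℤ)) (S : Set Ed) (f : ℤ × ℤ → ℝ)
    (g : Finset (ℤ × ℤ) → ℝ) :
    ∑ x ∈ A, g (Cmp A S x) * ∑ y ∈ Cmp A S x, f y =
      ∑ y ∈ A, f y * ((Cmp A S y).card * g (Cmp A S y)) := by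
  simp only [Finset.mul_sum]
  rw [Finset.sum_comm' (t' := A) (s' := fun y => Cmp A S y)]
  · refine Finset.sum_congr rfl fun y hy => ?_
    have h1 : ∀ x ∈ Cmp A S y, g (Cmp A S x) * f y = g (Cmp A S y) * f y := by
      intro x hx
      rw [Cmp_eq hy hx]
    rw [Finset.sum_congr rfl h1, Finset.sum_const, nsmul_eq_mul]
    ring
  · intro x y
    constructor
    · rintro ⟨hx, hy⟩
      exact ⟨Cmp_symm hx hy, Cmp_sub _ _ _ hy⟩
    · rintro ⟨hx, hy⟩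
      exact ⟨Cmp_sub _ _ _ hx, Cmp_symm hy hx⟩
/- END ccd -/

end Pool.Agent.Hmk
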