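import Pool.Agent.Hmk.CfG

/-!
# Hmk, cluster fields (6): the divergence theorem on `K D b` for nice fields, lower bounds for
variances
-/

set_option autoImplicit false

open MeasureTheory Set Filter ProbabilityTheory
open scoped ENNReal ContDiff Topology

noncomputable section

namespace Pool.Agent.Hmk

/-- the smooth cut-off: `0` off `K`, `1` on the configurations with all slacks at least `δ` -/
def cu (D : Finset (ℤ × ℤ)) (b : ℤ × ℤ → ℝ) (δ : ℝ) (h : D → ℝ) : ℝ :=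
  ∏ e ∈ D ×ˢ (Finset.univ : Finset (Fin 6)), (1 - qs δ (hd (gl D b h) e))

/-- minus the divergence of a field -/
def dv (D : Finset (ℤ × ℤ)) (w : ℤ × ℤ → (D → ℝ) → ℝ) (h : D → ℝ) : ℝ :=
  - ∑ x ∈ D, pz D x (w x) h

/- MODULE cda
The cut-off.  `cu_grad`: every term of the product rule contains a factor
`deriv (qs δ) (hd e) * (w e.1 - w (e.1 + st e.2))`, which vanishes for `δ ≤ ε`, `δ ≤ 1 / 2`
(`qs_deriv_zero`, `Nice.tie`, `Nice.off`). -/
theorem cu_smooth (D : Finset (ℤ × ℤ)) (b : ℤ × ℤ → ℝ) (δ : ℝ) : ContDiff ℝ ∞ (cu D b δ) := by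
  unfold cu
  refine contDiff_prod fun e _ => contDiff_const.sub ?_
  exact (qs_smooth δ).comp ((gl_smooth D b e.1).sub (gl_smooth D b (e.1 + st e.2)))

theorem cu_mem (D : Finset (ℤ × ℤ)) (b : ℤ × ℤ → ℝ) (δ : ℝ) (h : D → ℝ) :
    0 ≤ cu D b δ h ∧ cu D b δ h ≤ 1 := by
  unfold cu
  constructor
  · exact Finset.prod_nonneg fun e _ => by linarith [qs_le_one δ (hd (gl D b h) e)]
  · exact Finset.prod_le_one (fun e _ => by linarith [qs_le_one δ (hd (gl D b h) e)])
      (fun e _ => by linarith [qs_nonneg δ (hd (gl D b h) e)])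

theorem cu_zero {D : Finset (ℤ × ℤ)} {b : ℤ × ℤ → ℝ} {δ : ℝ} (h0 : 0 < δ) (h1 : δ ≤ 1 / 2)
    {h : D → ℝ} (hh : h ∉ K D b) : cu D b δ h = 0 := by
  have h2 : ∃ x ∈ D, ∃ i : Fin 6, 1 < |gl D b h x - gl D b h (x + st i)| := by
    by_contra hcon
    push Not at hcon
    exact hh hcon
  obtain ⟨x, hx, i, hi⟩ := h2
  unfold cu
  refine Finset.prod_eq_zero (i := (x, i)) (by simp [hx]) ?_
  have h3 : 1 - δ / 2 ≤ |hd (gl D b h) (x, i)| := by
    have h4 : 1 - δ / 2 ≤ |gl D b h x - gl D b h (x + st i)| := by linarith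
    exact h4
  rw [qs_one h0 h1 h3, sub_self]

theorem cu_one {D : Finset (ℤ × ℤ)} {b : ℤ × ℤ → ℝ} {δ : ℝ} (h0 : 0 < δ) (h1 : δ ≤ 1 / 2)
    {h : D → ℝ} (hh : ∀ x ∈ D, ∀ i, |gl D b h x - gl D b h (x + st i)| ≤ 1 - δ) :
    cu D b δ h = 1 := by
  unfold cu
  refine Finset.prod_eq_one fun e he => ?_
  have h5 : |hd (gl D b h) e| ≤ 1 - δ := hh e.1 (Finset.mem_product.1 he).1 e.2
  rw [qs_zero h0 h1 h5, sub_zero]

theorem cu_grad {D : Finset (ℤ × ℤ)} {b : ℤ × ℤ → ℝ} {w : ℤ × ℤ → (D → ℝ) → ℝ}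
    (hw : Nice D b w) : ∃ δ₀ > 0, ∀ δ, 0 < δ → δ ≤ δ₀ → ∀ h : D → ℝ,
      ∑ x ∈ D, w x h * pz D x (cu D b δ) h = 0 := by
  classical
  obtain ⟨ε, hε, htie⟩ := hw.tie
  refine ⟨min ε (1 / 2), lt_min hε (by norm_num), fun δ hδ hδ' h => ?_⟩
  have hδ1 : δ ≤ 1 / 2 := hδ'.trans (min_le_right _ _)
  have hδε : δ ≤ ε := hδ'.trans (min_le_left _ _)
  set E := D ×ˢ (Finset.univ : Finset (Fin 6)) with hE
  have key : ∀ x ∈ D, pz D x (cu D b δ) h = ∑ e ∈ E,
      (∏ e' ∈ E.erase e, (1 - qs δ (hd (gl D b h) e'))) *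
        (-(deriv (qs δ) (hd (gl D b h) e) *
          ((if e.1 = x then 1 else 0) - (if e.1 + st e.2 = x then 1 else 0)))) := by
    intro x hx
    have hsm : ∀ e : Ed, ContDiff ℝ ∞ (fun h : D → ℝ => qs δ (hd (gl D b h) e)) := fun e =>
      (qs_smooth δ).comp ((gl_smooth D b e.1).sub (gl_smooth D b (e.1 + st e.2)))
    have hdf : ∀ e : Ed, HasFDerivAt (fun h : D → ℝ => 1 - qs δ (hd (gl D b h) e))
        (-(fderiv ℝ (fun h : D → ℝ => qs δ (hd (gl D b h) e)) h)) h := fun e =>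
      (((hsm e).differentiable (by norm_num)) h).hasFDerivAt.const_sub 1
    have h1 := HasFDerivAt.finsetProd (u := E) (fun e _ => hdf e)
    have h2 : fderiv ℝ (cu D b δ) h = ∑ e ∈ E, (∏ e' ∈ E.erase e,
        (1 - qs δ (hd (gl D b h) e'))) • -(fderiv ℝ (fun h : D → ℝ => qs δ (hd (gl D b h) e)) h) :=
      h1.fderiv
    have h3 : pz D x (cu D b δ) h = fderiv ℝ (cu D b δ) h (Pi.single ⟨x, hx⟩ 1) := by
      unfold pz pd
      rw [dif_pos hx]
    rw [h3, h2, sum_apply]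
    refine Finset.sum_congr rfl fun e _ => ?_
    rw [smul_apply, neg_apply, smul_eq_mul]
    congr 2
    have h4 := pz_qs δ D b x e h
    rw [if_pos hx] at h4
    rw [← h4]
    unfold pz pd
    rw [dif_pos hx]
  have hsum : ∀ z : ℤ × ℤ, ∑ x ∈ D, w x h * (if z = x then 1 else 0) = w z h := by
    intro z
    simp only [mul_ite, mul_one, mul_zero]
    rw [Finset.sum_ite_eq]
    split_ifs with hz
    · rfl
    · exact (hw.off z hz h).symm
  calc ∑ x ∈ D, w x h * pz D x (cu D b δ) h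
      = ∑ x ∈ D, ∑ e ∈ E, (∏ e' ∈ E.erase e, (1 - qs δ (hd (gl D b h) e'))) *
          (-(deriv (qs δ) (hd (gl D b h) e))) * (w x h * (if e.1 = x then 1 else 0) -
            w x h * (if e.1 + st e.2 = x then 1 else 0)) := by
        refine Finset.sum_congr rfl fun x hx => ?_
        rw [key x hx, Finset.mul_sum]
        refine Finset.sum_congr rfl fun e _ => ?_
        ring
    _ = ∑ e ∈ E, ∑ x ∈ D, (∏ e' ∈ E.erase e, (1 - qs δ (hd (gl D b h) e'))) *
          (-(deriv (qs δ) (hd (gl D b h) e))) * (w x h * (if e.1 = x then 1 else 0) -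
            w x h * (if e.1 + st e.2 = x then 1 else 0)) := Finset.sum_comm
    _ = ∑ e ∈ E, (∏ e' ∈ E.erase e, (1 - qs δ (hd (gl D b h) e'))) *
          (-(deriv (qs δ) (hd (gl D b h) e))) * (w e.1 h - w (e.1 + st e.2) h) := by
        refine Finset.sum_congr rfl fun e _ => ?_
        rw [← Finset.mul_sum, Finset.sum_sub_distrib, hsum, hsum]
    _ = 0 := by
        refine Finset.sum_eq_zero fun e he => ?_
        rcases le_or_gt |hd (gl D b h) e| (1 - δ) with h1 | h1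
        · rw [qs_deriv_zero hδ hδ1 (Or.inl h1), neg_zero, mul_zero, zero_mul]
        · have h2 : w e.1 h = w (e.1 + st e.2) h := by
            refine htie e.1 (Finset.mem_product.1 he).1 e.2 h ?_
            have h3 : 1 - δ < |gl D b h e.1 - gl D b h (e.1 + st e.2)| := h1
            linarith
          rw [h2, sub_self, mul_zero]
/- END cda -/

/- MODULE cdb
The boundary of `K` is a null set: it lies in finitely many hyperplanes
`|H x - H (x + st i)| = 1`, `x ∈ D`. -/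
private theorem cdb_null {D : Finset (ℤ × ℤ)} (L : (D → ℝ) →ₗ[ℝ] ℝ) {v : D → ℝ}
    (hv : L v ≠ 0) (c : ℝ) : volume {h : D → ℝ | L h = c} = 0 := by
  have h1 : (volume : Measure (D → ℝ)) (LinearMap.ker L : Set (D → ℝ)) = 0 := by
    refine Measure.addHaar_submodule _ _ ?_
    intro htop
    apply hv
    have h2 : v ∈ LinearMap.ker L := by
      rw [htop]
      trivial
    exact LinearMap.mem_ker.1 h2
  rcases Set.eq_empty_or_nonempty {h : D → ℝ | L h = c} with h2 | ⟨h0, h0c⟩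
  · rw [h2, measure_empty]
  · have h3 : {h : D → ℝ | L h = c} = (fun h => h + -h0) ⁻¹' (LinearMap.ker L : Set (D → ℝ)) := by
      ext h
      have h0c' : L h0 = c := h0c
      simp only [mem_ofPred_eq, mem_preimage, SetLike.mem_coe, LinearMap.mem_ker, map_add, map_neg,
        h0c']
      constructor
      · intro h4
        rw [h4]
        ring
      · intro h4
        linarith
    rw [h3, measure_preimage_add_right]
    exact h1

private theorem cdb_st (i : Fin 6) : st i ≠ 0 := by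
  fin_cases i <;> decide

private theorem cdb_one (D : Finset (ℤ × ℤ)) (b : ℤ × ℤ → ℝ) {x : ℤ × ℤ} (hx : x ∈ D) (i : Fin 6)
    (c : ℝ) : volume {h : D → ℝ | gl D b h x - gl D b h (x + st i) = c} = 0 := by
  by_cases hz : x + st i ∈ D
  · have hne : (⟨x, hx⟩ : D) ≠ ⟨x + st i, hz⟩ := by
      intro h
      have h1 : x = x + st i := congrArg Subtype.val h
      exact cdb_st i (left_eq_add.1 h1)
    have h1 := cdb_null (LinearMap.proj (R := ℝ) (φ := fun _ : D => ℝ) ⟨x, hx⟩ -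
      LinearMap.proj (R := ℝ) (φ := fun _ : D => ℝ) ⟨x + st i, hz⟩)
      (v := Pi.single ⟨x, hx⟩ 1) (by
        simp only [LinearMap.sub_apply, LinearMap.proj_apply, Pi.single_eq_same]
        rw [Pi.single_eq_of_ne hne.symm]
        norm_num) c
    refine le_antisymm ((measure_mono ?_).trans_eq h1) bot_le
    intro h hh
    simp only [mem_ofPred_eq, gl_mem hx, gl_mem hz] at hh
    simpa using hh
  · have h1 := cdb_null (LinearMap.proj (R := ℝ) (φ := fun _ : D => ℝ) ⟨x, hx⟩)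
      (v := Pi.single ⟨x, hx⟩ 1) (by
        simp only [LinearMap.proj_apply, Pi.single_eq_same]
        norm_num) (c + b (x + st i))
    refine le_antisymm ((measure_mono ?_).trans_eq h1) bot_le
    intro h hh
    simp only [mem_ofPred_eq, gl_mem hx, gl_not_mem hz] at hh
    simp only [mem_ofPred_eq, LinearMap.proj_apply]
    linarith

theorem bd_null (D : Finset (ℤ × ℤ)) (b : ℤ × ℤ → ℝ) :
    ∀ᵐ h : D → ℝ, h ∈ K D b → ∀ x ∈ D, ∀ i, |gl D b h x - gl D b h (x + st i)| < 1 := by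
  have h1 : ∀ x ∈ D, ∀ i : Fin 6, ∀ᵐ h : D → ℝ,
      |gl D b h x - gl D b h (x + st i)| ≠ 1 := by
    intro x hx i
    have h2 : ∀ᵐ h : D → ℝ, gl D b h x - gl D b h (x + st i) ≠ 1 := by
      rw [ae_iff]
      have := cdb_one D b hx i 1
      simpa using this
    have h3 : ∀ᵐ h : D → ℝ, gl D b h x - gl D b h (x + st i) ≠ -1 := by
      rw [ae_iff]
      have := cdb_one D b hx i (-1)
      simpa using this
    filter_upwards [h2, h3] with h h4 h5 h6
    rcases (abs_eq (by norm_num : (0 : ℝ) ≤ 1)).1 h6 with h7 | h7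
    · exact h4 h7
    · exact h5 h7
  have h2 : ∀ᵐ h : D → ℝ, ∀ x ∈ D, ∀ i : Fin 6,
      |gl D b h x - gl D b h (x + st i)| ≠ 1 := by
    rw [Finset.eventually_all]
    intro x hx
    rw [ae_all_iff]
    exact h1 x hx
  filter_upwards [h2] with h h3 hK x hx i
  exact lt_of_le_of_ne (hK x hx i) (h3 x hx i)
/- END cdb -/

/- MODULE cdc
Nice fields. -/
theorem Nice.mul {D : Finset (ℤ × ℤ)} {b : ℤ × ℤ → ℝ} {w : ℤ × ℤ → (D → ℝ) → ℝ}
    (hw : Nice D b w) {F : (D → ℝ) → ℝ} (hF : ContDiff ℝ ∞ F) :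
    Nice D b (fun x h => F h * w x h) := by
  refine ⟨fun z => hF.mul (hw.sm z), fun z hz h => by rw [hw.off z hz h, mul_zero], ?_⟩
  obtain ⟨ε, hε, htie⟩ := hw.tie
  exact ⟨ε, hε, fun z hz i h hh => by rw [htie z hz i h hh]⟩

theorem Nice.add {D : Finset (ℤ × ℤ)} {b : ℤ × ℤ → ℝ} {w v : ℤ × ℤ → (D → ℝ) → ℝ}
    (hw : Nice D b w) (hv : Nice D b v) : Nice D b (fun x h => w x h + v x h) := by
  refine ⟨fun z => (hw.sm z).add (hv.sm z), fun z hz h => by
    rw [hw.off z hz h, hv.off z hz h, add_zero], ?_⟩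
  obtain ⟨ε, hε, htie⟩ := hw.tie
  obtain ⟨ε', hε', htie'⟩ := hv.tie
  refine ⟨min ε ε', lt_min hε hε', fun z hz i h hh => ?_⟩
  have h1 := min_le_left ε ε'
  have h2 := min_le_right ε ε'
  rw [htie z hz i h (by linarith), htie' z hz i h (by linarith)]

private theorem cdc_pz {S : Finset (ℤ × ℤ)} {y : ℤ × ℤ} (hy : y ∈ S) (f : (S → ℝ) → ℝ) :
    pz S y f = fun k => fderiv ℝ f k (Pi.single ⟨y, hy⟩ 1) := by
  funext k
  unfold pz pd
  rw [dif_pos hy]

private theorem cdc_pz0 {S : Finset (ℤ × ℤ)} {y : ℤ × ℤ} (hy : y ∉ S) (f : (S → ℝ) → ℝ) :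
    pz S y f = fun _ => 0 := by
  funext k
  unfold pz
  rw [dif_neg hy]

private theorem cdc_const (S : Finset (ℤ × ℤ)) (y : ℤ × ℤ) (c : ℝ) :
    pz S y (fun _ => c) = fun _ => 0 := by
  by_cases hy : y ∈ S
  · rw [cdc_pz hy]
    funext k
    simp
  · exact cdc_pz0 hy _

theorem pz_smooth {S : Finset (ℤ × ℤ)} {f : (S → ℝ) → ℝ} (hf : ContDiff ℝ ∞ f) (y : ℤ × ℤ) :
    ContDiff ℝ ∞ (pz S y f) := by
  by_cases hy : y ∈ S
  · rw [cdc_pz hy]
    exact (hf.fderiv_right (m := ∞) (by simp)).clm_apply contDiff_const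
  · rw [cdc_pz0 hy]
    exact contDiff_const

theorem pz_mul {S : Finset (ℤ × ℤ)} {f g : (S → ℝ) → ℝ} (hf : ContDiff ℝ ∞ f)
    (hg : ContDiff ℝ ∞ g) (y : ℤ × ℤ) (h : S → ℝ) :
    pz S y (fun h => f h * g h) h = f h * pz S y g h + pz S y f h * g h := by
  by_cases hy : y ∈ S
  · rw [cdc_pz hy, cdc_pz hy, cdc_pz hy]
    simp only
    rw [fderiv_fun_mul (hf.differentiable (by norm_num) h) (hg.differentiable (by norm_num) h)]
    simp only [add_apply, smul_apply, smul_eq_mul]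
    ring
  · rw [cdc_pz0 hy, cdc_pz0 hy, cdc_pz0 hy]
    simp

theorem pz_comm {S : Finset (ℤ × ℤ)} {f : (S → ℝ) → ℝ} (hf : ContDiff ℝ ∞ f) (y z : ℤ × ℤ)
    (h : S → ℝ) : pz S z (pz S y f) h = pz S y (pz S z f) h := by
  by_cases hy : y ∈ S
  · by_cases hz : z ∈ S
    · have hf1 : ContDiff ℝ ∞ (fderiv ℝ f) := hf.fderiv_right (m := ∞) (by simp)
      have h1 : ∀ u : S → ℝ, ∀ v : S → ℝ,
          fderiv ℝ (fun k => fderiv ℝ f k u) h v = fderiv ℝ (fderiv ℝ f) h v u := by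
        intro u v
        have h2 : HasFDerivAt (fderiv ℝ f) (fderiv ℝ (fderiv ℝ f) h) h :=
          (hf1.differentiable (by norm_num) h).hasFDerivAt
        have h3 := h2.clm_apply (hasFDerivAt_const u h)
        rw [h3.fderiv]
        simp
      rw [cdc_pz hz, cdc_pz hy, cdc_pz hy, cdc_pz hz]
      simp only
      rw [h1, h1]
      have h4 : IsSymmSndFDerivAt ℝ f h :=
        hf.contDiffAt.isSymmSndFDerivAt (by
          rw [minSmoothness_of_isRCLikeNormedField]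
          exact ENat.LEInfty.out)
      exact h4 _ _
    · rw [cdc_pz0 hz (pz S y f), cdc_pz0 hz f, cdc_const]
  · rw [cdc_pz0 hy f, cdc_const, cdc_pz0 hy]

/-- the field `Z x = ∑ y, w y * pz y (v x)` is nice: near the facet of the edge `(x, i)` the
function `v x - v (x + st i)` vanishes on an open set -/
theorem Nice.adv {D : Finset (ℤ × ℤ)} {b : ℤ × ℤ → ℝ} {w v : ℤ × ℤ → (D → ℝ) → ℝ}
    (hw : Nice D b w) (hv : Nice D b v) :
    Nice D b (fun x h => ∑ y ∈ D, w y h * pz D y (v x) h) := by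
  refine ⟨fun z => ContDiff.sum fun y _ => (hw.sm y).mul (pz_smooth (hv.sm z) y), ?_, ?_⟩
  · intro z hz h
    have h1 : v z = fun _ => 0 := funext fun h => hv.off z hz h
    refine Finset.sum_eq_zero fun y _ => ?_
    rw [h1, cdc_const, mul_zero]
  · obtain ⟨ε, hε, htie⟩ := hv.tie
    refine ⟨ε, hε, fun z hz i h hh => ?_⟩
    have hcont : Continuous (fun h : D → ℝ => |gl D b h z - gl D b h (z + st i)|) :=
      ((gl_cont D b z).sub (gl_cont D b (z + st i))).abs
    have hev : v z =ᶠ[𝓝 h] v (z + st i) := by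
      filter_upwards [hcont.continuousAt.eventually (lt_mem_nhds hh)] with k hk
      exact htie z hz i k hk
    refine Finset.sum_congr rfl fun y hy => ?_
    rw [cdc_pz hy, cdc_pz hy]
    simp only
    rw [hev.fderiv_eq]

theorem dv_smooth {D : Finset (ℤ × ℤ)} {b : ℤ × ℤ → ℝ} {w : ℤ × ℤ → (D → ℝ) → ℝ}
    (hw : Nice D b w) : ContDiff ℝ ∞ (dv D w) := by
  unfold dv
  exact (ContDiff.sum fun x _ => pz_smooth (hw.sm x) x).neg
/- END cdc -/

/- MODULE cdd
The divergence theorem: `∫ cu_δ * ∑ x, pz x (w x) = - ∫ ∑ x, w x * pz x cu_δ = 0`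
(`integral_mul_fderiv_eq_neg_fderiv_mul_of_integrable`; everything has compact support because `K` is
bounded), then `δ → 0` by dominated convergence (`cu_one`, `bd_null`, `cu_zero`). -/
private theorem cdd_compact {D : Finset (ℤ × ℤ)} {b : ℤ × ℤ → ℝ} (hb : ∀ z, |b z| ≤ 1 / 2) :
    IsCompact (K D b) := by
  refine (isCompact_Icc (a := fun _ : D => -(1 / 2 + (D.card : ℝ)))
    (b := fun _ : D => 1 / 2 + (D.card : ℝ))).of_isClosed_subset (K_closed D b) ?_
  intro h hh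
  have h1 := fun x => K_bdd (by norm_num) (fun z _ _ => hb z) hh x
  exact ⟨fun x => (abs_le.1 (h1 x)).1, fun x => (abs_le.1 (h1 x)).2⟩

/-- integration by parts with the cut-off -/
private theorem cdd_ibp {D : Finset (ℤ × ℤ)} {b : ℤ × ℤ → ℝ} (hb : ∀ z, |b z| ≤ 1 / 2)
    {w : ℤ × ℤ → (D → ℝ) → ℝ} (hw : Nice D b w) {δ : ℝ} (h0 : 0 < δ) (h1 : δ ≤ 1 / 2)
    (hg : ∀ h : D → ℝ, ∑ x ∈ D, w x h * pz D x (cu D b δ) h = 0) :
    ∫ h, cu D b δ h * ∑ x ∈ D, pz D x (w x) h = 0 := by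
  have hcs : HasCompactSupport (cu D b δ) :=
    HasCompactSupport.intro (cdd_compact hb) fun h hh => cu_zero h0 h1 hh
  have hcd := cu_smooth D b δ
  have hcc : Continuous (cu D b δ) := hcd.continuous
  have hI1 : ∀ x ∈ D, Integrable (fun h => cu D b δ h * pz D x (w x) h) := by
    intro x _
    exact (hcc.mul (pz_smooth (hw.sm x) x).continuous).integrable_of_hasCompactSupport
      hcs.mul_right
  have hI2 : ∀ x ∈ D, Integrable (fun h => w x h * pz D x (cu D b δ) h) := by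
    intro x hx
    refine ((hw.sm x).continuous.mul
      (pz_smooth hcd x).continuous).integrable_of_hasCompactSupport (HasCompactSupport.mul_left ?_)
    rw [cdc_pz hx]
    exact hcs.fderiv_apply (𝕜 := ℝ) _
  have hparts : ∀ x ∈ D, ∫ h, cu D b δ h * pz D x (w x) h =
      - ∫ h, w x h * pz D x (cu D b δ) h := by
    intro x hx
    have hI1' := hI1 x hx
    have hI2' := hI2 x hx
    rw [cdc_pz hx] at hI1' hI2' ⊢
    rw [cdc_pz hx]
    have h2 := integral_mul_fderiv_eq_neg_fderiv_mul_of_integrable (μ := volume)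
      (f := cu D b δ) (g := w x) (v := Pi.single ⟨x, hx⟩ 1) (by
        refine hI2'.congr (Filter.Eventually.of_forall fun h => ?_)
        simp only
        ring) hI1' ((hcc.mul (hw.sm x).continuous).integrable_of_hasCompactSupport
          hcs.mul_right) (fun h _ => hcd.differentiable (by norm_num) h)
      (fun h _ => (hw.sm x).differentiable (by norm_num) h)
    rw [h2]
    congr 1
    refine integral_congr_ae (Filter.Eventually.of_forall fun h => ?_)
    simp only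
    ring
  have h3 : (fun h => cu D b δ h * ∑ x ∈ D, pz D x (w x) h) =
      fun h => ∑ x ∈ D, cu D b δ h * pz D x (w x) h := by
    funext h
    rw [Finset.mul_sum]
  rw [h3, integral_finsetSum _ hI1, Finset.sum_congr rfl hparts, Finset.sum_neg_distrib,
    ← integral_finsetSum _ hI2]
  have h4 : (fun h : D → ℝ => ∑ x ∈ D, w x h * pz D x (cu D b δ) h) = fun _ => 0 := funext hg
  rw [h4]
  simp

theorem div_K {D : Finset (ℤ × ℤ)} {b : ℤ × ℤ → ℝ} (hb : ∀ z, |b z| ≤ 1 / 2)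
    {w : ℤ × ℤ → (D → ℝ) → ℝ} (hw : Nice D b w) :
    ∫ h in K D b, ∑ x ∈ D, pz D x (w x) h = 0 := by
  obtain ⟨δ₀, hδ₀, hgr⟩ := cu_grad hw
  set G : (D → ℝ) → ℝ := fun h => ∑ x ∈ D, pz D x (w x) h with hG
  have hGc : Continuous G :=
    continuous_finsetSum _ fun x _ => (pz_smooth (hw.sm x) x).continuous
  set d : ℕ → ℝ := fun n => min δ₀ (1 / 2) / (n + 1) with hd
  have hm : 0 < min δ₀ (1 / 2 : ℝ) := lt_min hδ₀ (by norm_num)
  have hd0 : ∀ n, 0 < d n := fun n => by positivity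
  have hd1 : ∀ n, d n ≤ min δ₀ (1 / 2) := fun n =>
    div_le_self hm.le (by
      have : (0 : ℝ) ≤ n := Nat.cast_nonneg n
      linarith)
  have hz : ∀ n, ∫ h, cu D b (d n) h * G h = 0 := fun n =>
    cdd_ibp hb hw (hd0 n) ((hd1 n).trans (min_le_right _ _))
      (hgr (d n) (hd0 n) ((hd1 n).trans (min_le_left _ _)))
  have hdlim : Tendsto d atTop (𝓝 0) := by
    have h1 : Tendsto (fun n : ℕ => min δ₀ (1 / 2 : ℝ) * (1 / ((n : ℝ) + 1))) atTop
        (𝓝 (min δ₀ (1 / 2 : ℝ) * 0)) :=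
      tendsto_one_div_add_atTop_nhds_zero_nat.const_mul _
    rw [mul_zero] at h1
    refine h1.congr fun n => ?_
    rw [hd]
    ring
  have hKc := cdd_compact (D := D) hb
  have hKm := K_meas D b
  have hlim : Tendsto (fun n => ∫ h, cu D b (d n) h * G h) atTop
      (𝓝 (∫ h, (K D b).indicator G h)) := by
    refine tendsto_integral_of_dominated_convergence ((K D b).indicator fun h => |G h|) ?_ ?_ ?_ ?_
    · intro n
      exact (((cu_smooth D b (d n)).continuous.mul hGc)).aestronglyMeasurable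
    · rw [integrable_indicator_iff hKm]
      exact hGc.abs.continuousOn.integrableOn_compact hKc
    · intro n
      refine Filter.Eventually.of_forall fun h => ?_
      rw [Real.norm_eq_abs, abs_mul]
      by_cases hh : h ∈ K D b
      · rw [indicator_of_mem hh]
        have h2 := cu_mem D b (d n) h
        rw [abs_of_nonneg h2.1]
        calc cu D b (d n) h * |G h| ≤ 1 * |G h| :=
              mul_le_mul_of_nonneg_right h2.2 (abs_nonneg _)
          _ = |G h| := one_mul _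
      · rw [indicator_of_notMem hh, cu_zero (hd0 n) ((hd1 n).trans (min_le_right _ _)) hh]
        simp
    · filter_upwards [bd_null D b] with h hh
      by_cases hK : h ∈ K D b
      · rw [indicator_of_mem hK]
        have h2 : ∀ᶠ n in atTop, ∀ x ∈ D, ∀ i : Fin 6,
            |gl D b h x - gl D b h (x + st i)| ≤ 1 - d n := by
          rw [Finset.eventually_all]
          intro x hx
          rw [eventually_all]
          intro i
          have h3 := hh hK x hx i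
          have h4 : ∀ᶠ n in atTop, d n < 1 - |gl D b h x - gl D b h (x + st i)| :=
            hdlim.eventually (gt_mem_nhds (by linarith))
          filter_upwards [h4] with n hn
          linarith
        refine tendsto_const_nhds.congr' ?_
        filter_upwards [h2] with n hn
        rw [cu_one (hd0 n) ((hd1 n).trans (min_le_right _ _)) hn, one_mul]
      · rw [indicator_of_notMem hK]
        refine tendsto_const_nhds.congr fun n => ?_
        rw [cu_zero (hd0 n) ((hd1 n).trans (min_le_right _ _)) hK, zero_mul]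
  simp_rw [hz] at hlim
  rw [integral_indicator hKm] at hlim
  exact (tendsto_nhds_unique hlim tendsto_const_nhds)
/- END cdd -/

/- MODULE cde
Integrability: continuous functions on the bounded set `K`, `Mu D b = (volume K)⁻¹ •
volume.restrict K`.  `dv_mul`: `div_K` for the nice field `F * w`. -/
private theorem cde_inv {D : Finset (ℤ × ℤ)} {b : ℤ × ℤ → ℝ} (hb : ∀ z, |b z| ≤ 1 / 2) :
    (volume (K D b))⁻¹ ≠ ⊤ := by
  rw [Ne, ENNReal.inv_eq_top]
  intro h0
  have h1 : 1 ≤ Z D b := Z_one_le (fun z _ _ => hb z)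
  rw [show Z D b = 0 from h0] at h1
  exact absurd h1 (by norm_num)

theorem int_K {D : Finset (ℤ × ℤ)} {b : ℤ × ℤ → ℝ} (hb : ∀ z, |b z| ≤ 1 / 2)
    {F : (D → ℝ) → ℝ} (hF : Continuous F) : Integrable F (Mu D b) := by
  unfold Mu
  rw [ProbabilityTheory.cond]
  exact (hF.continuousOn.integrableOn_compact (cdd_compact hb)).smul_measure (cde_inv hb)

theorem memLp_K {D : Finset (ℤ × ℤ)} {b : ℤ × ℤ → ℝ} (hb : ∀ z, |b z| ≤ 1 / 2)
    {F : (D → ℝ) → ℝ} (hF : Continuous F) : MemLp F 2 (Mu D b) := by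
  have : IsProbabilityMeasure (Mu D b) := prob hb
  obtain ⟨C, hC⟩ := (cdd_compact (D := D) hb).exists_bound_of_continuousOn hF.continuousOn
  refine MemLp.of_bound hF.aestronglyMeasurable C ?_
  filter_upwards [ProbabilityTheory.ae_cond_mem (μ := volume) (K_meas D b)] with h hh
  exact hC h hh

theorem Mu_ae {D : Finset (ℤ × ℤ)} {b : ℤ × ℤ → ℝ} (hb : ∀ z, |b z| ≤ 1 / 2) :
    ∀ᵐ h ∂(Mu D b), h ∈ K D b := by
  exact ProbabilityTheory.ae_cond_mem (μ := volume) (K_meas D b)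

/-- comparison with volumes -/
theorem Mu_le {D : Finset (ℤ × ℤ)} {b : ℤ × ℤ → ℝ} (hb : ∀ z, |b z| ≤ 1 / 2)
    {s : Set (D → ℝ)} {c : ℝ} (hc : 0 ≤ c) (hs : volume (K D b ∩ s) ≤ ENNReal.ofReal c * volume (K D b)) :
    (Mu D b).real s ≤ c := by
  have h1 : Mu D b s ≤ ENNReal.ofReal c := by
    unfold Mu
    rw [ProbabilityTheory.cond_apply (K_meas D b)]
    calc (volume (K D b))⁻¹ * volume (K D b ∩ s)
        ≤ (volume (K D b))⁻¹ * (ENNReal.ofReal c * volume (K D b)) := by gcongr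
      _ = ENNReal.ofReal c * ((volume (K D b))⁻¹ * volume (K D b)) := by ring
      _ ≤ ENNReal.ofReal c * 1 := by
          gcongr
          exact ENNReal.inv_mul_le_one _
      _ = ENNReal.ofReal c := mul_one _
  unfold Measure.real
  exact ENNReal.toReal_le_of_le_ofReal hc h1

private theorem cde_div {D : Finset (ℤ × ℤ)} {b : ℤ × ℤ → ℝ} (hb : ∀ z, |b z| ≤ 1 / 2)
    {w : ℤ × ℤ → (D → ℝ) → ℝ} (hw : Nice D b w) :
    ∫ h, ∑ x ∈ D, pz D x (w x) h ∂(Mu D b) = 0 := by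
  unfold Mu
  rw [ProbabilityTheory.cond, integral_smul_measure, div_K hb hw, smul_zero]

private theorem cde_cont {D : Finset (ℤ × ℤ)} {b : ℤ × ℤ → ℝ} {w : ℤ × ℤ → (D → ℝ) → ℝ}
    (hw : Nice D b w) {F : (D → ℝ) → ℝ} (hF : ContDiff ℝ ∞ F) :
    Continuous (fun h => ∑ x ∈ D, w x h * pz D x F h) :=
  continuous_finsetSum _ fun x _ => (hw.sm x).continuous.mul (pz_smooth hF x).continuous

theorem dv_mul {D : Finset (ℤ × ℤ)} {b : ℤ × ℤ → ℝ} (hb : ∀ z, |b z| ≤ 1 / 2)
    {w : ℤ × ℤ → (D → ℝ) → ℝ} (hw : Nice D b w) {F : (D → ℝ) → ℝ} (hF : ContDiff ℝ ∞ F) :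
    ∫ h, F h * dv D w h ∂(Mu D b) = ∫ h, ∑ x ∈ D, w x h * pz D x F h ∂(Mu D b) := by
  have h1 := cde_div hb (hw.mul hF)
  have h2 : (fun h : D → ℝ => ∑ x ∈ D, pz D x (fun h => F h * w x h) h) =
      fun h => (∑ x ∈ D, w x h * pz D x F h) - F h * dv D w h := by
    funext h
    unfold dv
    rw [mul_neg, sub_neg_eq_add, Finset.mul_sum, ← Finset.sum_add_distrib]
    refine Finset.sum_congr rfl fun x _ => ?_
    rw [pz_mul hF (hw.sm x)]
    ring
  have hI1 : Integrable (fun h => ∑ x ∈ D, w x h * pz D x F h) (Mu D b) :=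
    int_K hb (cde_cont hw hF)
  have hI2 : Integrable (fun h => F h * dv D w h) (Mu D b) :=
    int_K hb (hF.continuous.mul (dv_smooth hw).continuous)
  rw [h2, integral_sub hI1 hI2] at h1
  linarith

theorem dv_mean {D : Finset (ℤ × ℤ)} {b : ℤ × ℤ → ℝ} (hb : ∀ z, |b z| ≤ 1 / 2)
    {w : ℤ × ℤ → (D → ℝ) → ℝ} (hw : Nice D b w) :
    ∫ h, dv D w h ∂(Mu D b) = 0 := by
  have h1 := dv_mul hb hw (F := fun _ => 1) contDiff_const
  have h2 : (fun h : D → ℝ => ∑ x ∈ D, w x h * pz D x (fun _ => (1 : ℝ)) h) = fun _ => 0 := by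
    funext h
    refine Finset.sum_eq_zero fun x _ => ?_
    rw [cdc_const, mul_zero]
  rw [h2] at h1
  simpa using h1
/- END cde -/

/- MODULE cdf
The second identity.  `E (D*w) (D*v) = E ∑ y, v y * pz y (dv w) = - E ∑ x y, v y * pz y (pz x (w x))`,
and `∑ x, pz x (Z x)` with `Z x = ∑ y, v y * pz y (w x)` (`Nice.adv`) has mean zero. -/
private theorem cdf_pz_dv {D : Finset (ℤ × ℤ)} {b : ℤ × ℤ → ℝ} {w : ℤ × ℤ → (D → ℝ) → ℝ}
    (hw : Nice D b w) {y : ℤ × ℤ} (hy : y ∈ D) (h : D → ℝ) :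
    pz D y (dv D w) h = - ∑ x ∈ D, pz D y (pz D x (w x)) h := by
  have h1 : ∀ x ∈ D, DifferentiableAt ℝ (pz D x (w x)) h := fun x _ =>
    (pz_smooth (hw.sm x) x).differentiable (by norm_num) h
  rw [cdc_pz hy]
  simp only
  have h2 : fderiv ℝ (dv D w) h = - ∑ x ∈ D, fderiv ℝ (pz D x (w x)) h := by
    unfold dv
    rw [fderiv_fun_neg, fderiv_fun_sum h1]
  rw [h2, neg_apply, sum_apply]
  congr 1
  refine Finset.sum_congr rfl fun x _ => ?_
  rw [cdc_pz hy]

private theorem cdf_pz_sum {D : Finset (ℤ × ℤ)} {f : ℤ × ℤ → (D → ℝ) → ℝ}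
    (hf : ∀ x, ContDiff ℝ ∞ (f x)) {y : ℤ × ℤ} (hy : y ∈ D) (h : D → ℝ) :
    pz D y (fun h => ∑ x ∈ D, f x h) h = ∑ x ∈ D, pz D y (f x) h := by
  have h1 : ∀ x ∈ D, DifferentiableAt ℝ (f x) h := fun x _ =>
    (hf x).differentiable (by norm_num) h
  rw [cdc_pz hy]
  simp only
  rw [fderiv_fun_sum h1, sum_apply]
  refine Finset.sum_congr rfl fun x _ => ?_
  rw [cdc_pz hy]

theorem dv_dv {D : Finset (ℤ × ℤ)} {b : ℤ × ℤ → ℝ} (hb : ∀ z, |b z| ≤ 1 / 2)
    {w v : ℤ × ℤ → (D → ℝ) → ℝ} (hw : Nice D b w) (hv : Nice D b v) :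
    ∫ h, dv D w h * dv D v h ∂(Mu D b) =
      ∫ h, ∑ x ∈ D, ∑ y ∈ D, pz D y (w x) h * pz D x (v y) h ∂(Mu D b) := by
  have h1 := dv_mul hb hv (dv_smooth hw)
  have h2 := cde_div hb (hv.adv hw)
  have h3 : (fun h : D → ℝ => ∑ x ∈ D, pz D x (fun h => ∑ y ∈ D, v y h * pz D y (w x) h) h) =
      fun h => (∑ x ∈ D, ∑ y ∈ D, pz D y (w x) h * pz D x (v y) h) -
        ∑ y ∈ D, v y h * pz D y (dv D w) h := by
    funext h
    have e1 : ∀ x ∈ D, pz D x (fun h => ∑ y ∈ D, v y h * pz D y (w x) h) h =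
        ∑ y ∈ D, (v y h * pz D y (pz D x (w x)) h + pz D y (w x) h * pz D x (v y) h) := by
      intro x hx
      rw [cdf_pz_sum (fun y => (hv.sm y).mul (pz_smooth (hw.sm x) y)) hx]
      refine Finset.sum_congr rfl fun y _ => ?_
      rw [pz_mul (hv.sm y) (pz_smooth (hw.sm x) y), pz_comm (hw.sm x) y x]
      ring
    rw [Finset.sum_congr rfl e1]
    simp only [Finset.sum_add_distrib]
    have e2 : ∑ y ∈ D, v y h * pz D y (dv D w) h =
        - ∑ x ∈ D, ∑ y ∈ D, v y h * pz D y (pz D x (w x)) h := by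
      rw [Finset.sum_comm, ← Finset.sum_neg_distrib]
      refine Finset.sum_congr rfl fun y hy => ?_
      rw [cdf_pz_dv hw hy, mul_neg, Finset.mul_sum]
    rw [e2]
    ring
  have hc1 : Continuous (fun h => ∑ x ∈ D, ∑ y ∈ D, pz D y (w x) h * pz D x (v y) h) :=
    continuous_finsetSum _ fun x _ => continuous_finsetSum _ fun y _ =>
      (pz_smooth (hw.sm x) y).continuous.mul (pz_smooth (hv.sm y) x).continuous
  rw [h3, integral_sub (int_K hb hc1) (int_K hb (cde_cont hv (dv_smooth hw)))] at h2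
  linarith

theorem dv_sq_le {D : Finset (ℤ × ℤ)} {b : ℤ × ℤ → ℝ} (hb : ∀ z, |b z| ≤ 1 / 2)
    {w : ℤ × ℤ → (D → ℝ) → ℝ} (hw : Nice D b w) :
    ∫ h, (dv D w h) ^ 2 ∂(Mu D b) ≤
      ∫ h, ∑ x ∈ D, ∑ y ∈ D, (pz D y (w x) h) ^ 2 ∂(Mu D b) := by
  have h1 := dv_dv hb hw hw
  have h2 : ∫ h, (dv D w h) ^ 2 ∂(Mu D b) = ∫ h, dv D w h * dv D w h ∂(Mu D b) := by
    refine integral_congr_ae (Filter.Eventually.of_forall fun h => ?_)
    simp only
    ring
  rw [h2, h1]
  have hc1 : Continuous (fun h => ∑ x ∈ D, ∑ y ∈ D, pz D y (w x) h * pz D x (w y) h) :=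
    continuous_finsetSum _ fun x _ => continuous_finsetSum _ fun y _ =>
      (pz_smooth (hw.sm x) y).continuous.mul (pz_smooth (hw.sm y) x).continuous
  have hc2 : Continuous (fun h => ∑ x ∈ D, ∑ y ∈ D, (pz D y (w x) h) ^ 2) :=
    continuous_finsetSum _ fun x _ => continuous_finsetSum _ fun y _ =>
      (pz_smooth (hw.sm x) y).continuous.pow 2
  refine integral_mono (int_K hb hc1) (int_K hb hc2) fun h => ?_
  simp only
  have h3 : ∑ x ∈ D, ∑ y ∈ D, pz D y (w x) h * pz D x (w y) h ≤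
      ∑ x ∈ D, ∑ y ∈ D, ((pz D y (w x) h) ^ 2 / 2 + (pz D x (w y) h) ^ 2 / 2) := by
    refine Finset.sum_le_sum fun x _ => Finset.sum_le_sum fun y _ => ?_
    nlinarith [sq_nonneg (pz D y (w x) h - pz D x (w y) h)]
  have h4 : ∑ x ∈ D, ∑ y ∈ D, (pz D x (w y) h) ^ 2 / 2 =
      ∑ x ∈ D, ∑ y ∈ D, (pz D y (w x) h) ^ 2 / 2 := Finset.sum_comm
  simp only [Finset.sum_add_distrib] at h3
  rw [h4] at h3
  refine h3.trans (le_of_eq ?_)
  rw [← Finset.sum_add_distrib]
  refine Finset.sum_congr rfl fun x _ => ?_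
  rw [← Finset.sum_add_distrib]
  refine Finset.sum_congr rfl fun y _ => ?_
  ring
/- END cdf -/

/- MODULE cdg
`(E ∑ w x pz x F)^2 = (E (F - EF) D*w)^2 ≤ Var F * E (D*w)^2`; and the criterion identity. -/
private theorem cdg_cs {D : Finset (ℤ × ℤ)} {b : ℤ × ℤ → ℝ} (hb : ∀ z, |b z| ≤ 1 / 2)
    {f g : (D → ℝ) → ℝ} (hf : Continuous f) (hg : Continuous g) :
    (∫ h, f h * g h ∂(Mu D b)) ^ 2 ≤
      (∫ h, (f h) ^ 2 ∂(Mu D b)) * ∫ h, (g h) ^ 2 ∂(Mu D b) := by
  set A := ∫ h, (f h) ^ 2 ∂(Mu D b)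
  set B := ∫ h, f h * g h ∂(Mu D b)
  set C := ∫ h, (g h) ^ 2 ∂(Mu D b)
  have hq : ∀ t : ℝ, 0 ≤ C * (t * t) + (2 * B) * t + A := by
    intro t
    have h1 : ∫ h, (f h + t * g h) ^ 2 ∂(Mu D b) = C * (t * t) + (2 * B) * t + A := by
      have e : (fun h => (f h + t * g h) ^ 2) =
          fun h => ((f h) ^ 2 + (2 * t) * (f h * g h)) + (t * t) * (g h) ^ 2 := by
        funext h
        ring
      have i1 : Integrable (fun h => (f h) ^ 2) (Mu D b) := int_K hb (hf.pow 2)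
      have i2 : Integrable (fun h => (2 * t) * (f h * g h)) (Mu D b) :=
        int_K hb (continuous_const.mul (hf.mul hg))
      have i3 : Integrable (fun h => (t * t) * (g h) ^ 2) (Mu D b) :=
        int_K hb (continuous_const.mul (hg.pow 2))
      have i4 : Integrable (fun h => (f h) ^ 2 + (2 * t) * (f h * g h)) (Mu D b) := i1.add i2
      rw [e, integral_add i4 i3, integral_add i1 i2, integral_const_mul, integral_const_mul]
      ring
    rw [← h1]
    exact integral_nonneg fun h => sq_nonneg _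
  have h2 := discrim_le_zero hq
  unfold discrim at h2
  nlinarith

private theorem cdg_var {D : Finset (ℤ × ℤ)} {b : ℤ × ℤ → ℝ} {F : (D → ℝ) → ℝ}
    (hF : Continuous F) : variance F (Mu D b) =
      ∫ h, (F h - ∫ h', F h' ∂(Mu D b)) ^ 2 ∂(Mu D b) :=
  variance_eq_integral hF.aemeasurable

private theorem cdg_cov {D : Finset (ℤ × ℤ)} {b : ℤ × ℤ → ℝ} (hb : ∀ z, |b z| ≤ 1 / 2)
    {w : ℤ × ℤ → (D → ℝ) → ℝ} (hw : Nice D b w) {F : (D → ℝ) → ℝ} (hF : ContDiff ℝ ∞ F)
    (m : ℝ) : ∫ h, (F h - m) * dv D w h ∂(Mu D b) =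
      ∫ h, ∑ x ∈ D, w x h * pz D x F h ∂(Mu D b) := by
  have e : (fun h => (F h - m) * dv D w h) = fun h => F h * dv D w h - m * dv D w h := by
    funext h
    ring
  have i1 : Integrable (fun h => F h * dv D w h) (Mu D b) :=
    int_K hb (hF.continuous.mul (dv_smooth hw).continuous)
  have i2 : Integrable (fun h => m * dv D w h) (Mu D b) :=
    int_K hb (continuous_const.mul (dv_smooth hw).continuous)
  rw [e, integral_sub i1 i2, integral_const_mul, dv_mean hb hw, mul_zero, sub_zero,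
    dv_mul hb hw hF]

theorem cramer_rao {D : Finset (ℤ × ℤ)} {b : ℤ × ℤ → ℝ} (hb : ∀ z, |b z| ≤ 1 / 2)
    {w : ℤ × ℤ → (D → ℝ) → ℝ} (hw : Nice D b w) {F : (D → ℝ) → ℝ} (hF : ContDiff ℝ ∞ F) :
    (∫ h, ∑ x ∈ D, w x h * pz D x F h ∂(Mu D b)) ^ 2 ≤ variance F (Mu D b) *
        ∫ h, ∑ x ∈ D, ∑ y ∈ D, (pz D y (w x) h) ^ 2 ∂(Mu D b) := by
  rw [cdg_var hF.continuous, ← cdg_cov hb hw hF (∫ h', F h' ∂(Mu D b))]
  refine (cdg_cs hb (hF.continuous.sub continuous_const) (dv_smooth hw).continuous).trans ?_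
  exact mul_le_mul_of_nonneg_left (dv_sq_le hb hw) (integral_nonneg fun h => sq_nonneg _)

theorem dv_crit {D : Finset (ℤ × ℤ)} {b : ℤ × ℤ → ℝ} (hb : ∀ z, |b z| ≤ 1 / 2)
    {w : ℤ × ℤ → (D → ℝ) → ℝ} (hw : Nice D b w) {F : (D → ℝ) → ℝ} (hF : ContDiff ℝ ∞ F) :
    ∫ h, (dv D w h - (F h - ∫ h', F h' ∂(Mu D b))) ^ 2 ∂(Mu D b) =
      (∫ h, (dv D w h) ^ 2 ∂(Mu D b)) - 2 * (∫ h, ∑ x ∈ D, w x h * pz D x F h ∂(Mu D b)) +
        variance F (Mu D b) := by
  set m := ∫ h', F h' ∂(Mu D b) with hm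
  have hc1 : Continuous (fun h => (dv D w h) ^ 2) := (dv_smooth hw).continuous.pow 2
  have hc2 : Continuous (fun h => (F h - m) * dv D w h) :=
    (hF.continuous.sub continuous_const).mul (dv_smooth hw).continuous
  have hc3 : Continuous (fun h => (F h - m) ^ 2) := (hF.continuous.sub continuous_const).pow 2
  have e : (fun h => (dv D w h - (F h - m)) ^ 2) =
      fun h => ((dv D w h) ^ 2 - 2 * ((F h - m) * dv D w h)) + (F h - m) ^ 2 := by
    funext h
    ring
  have i1 : Integrable (fun h => (dv D w h) ^ 2) (Mu D b) := int_K hb hc1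
  have i2 : Integrable (fun h => 2 * ((F h - m) * dv D w h)) (Mu D b) :=
    int_K hb (continuous_const.mul hc2)
  have i3 : Integrable (fun h => (dv D w h) ^ 2 - 2 * ((F h - m) * dv D w h)) (Mu D b) :=
    i1.sub i2
  rw [e, integral_add i3 (int_K hb hc3), integral_sub i1 i2, integral_const_mul,
    cdg_cov hb hw hF m, cdg_var hF.continuous]
/- END cdg -/

end Pool.Agent.Hmk
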