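import Pool.Agent.Hmk.CfM
import Pool.Agent.Hmk.CfC

/-!
# Hmk, cluster fields (3): general cluster functions

`cfu ε U Φ H` is the expectation of `Φ S` if the edge `(x, i) ∈ U` is open with probability
`qs ε (H x - H (x + st i))`, independently.  Used as the function `fun h => cfu ε U Φ (gl S c h)`.
-/

set_option autoImplicit false

open MeasureTheory Set Filter
open scoped ENNReal ContDiff Topology

noncomputable section

namespace Pool.Agent.Hmk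

/-- the height difference along a directed edge -/
def hd (H : ℤ × ℤ → ℝ) (e : Ed) : ℝ := H e.1 - H (e.1 + st e.2)

/-- the cluster function -/
def cfu (ε : ℝ) (U : Finset Ed) (Φ : Finset Ed → ℝ) (H : ℤ × ℤ → ℝ) : ℝ :=
  ml U Φ (fun e => qs ε (hd H e))

/-- the nearly saturated edges -/
def Op (ε : ℝ) (H : ℤ × ℤ → ℝ) : Set Ed := {e | 1 - ε < |hd H e|}

/-- `e` has an end in the site `y` -/
def Tch (y : ℤ × ℤ) (e : Ed) : Prop := e.1 = y ∨ e.1 + st e.2 = y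

instance (y : ℤ × ℤ) (e : Ed) : Decidable (Tch y e) := by unfold Tch; infer_instance

/-- the nearly saturated edges of `U` which touch `y` -/
def Uy (ε : ℝ) (U : Finset Ed) (H : ℤ × ℤ → ℝ) (y : ℤ × ℤ) : Finset Ed := by
  classical exact U.filter (fun e => e ∈ Op ε H ∧ Tch y e)

/- MODULE cga
Elementary properties. `gl S c h z` is a coordinate or a constant. -/
theorem gl_smooth (S : Finset (ℤ × ℤ)) (c : ℤ × ℤ → ℝ) (z : ℤ × ℤ) :
    ContDiff ℝ ∞ (fun h : S → ℝ => gl S c h z) := by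
  by_cases hz : z ∈ S
  · simp only [gl, hz, dite_true]
    exact contDiff_apply ℝ ℝ (⟨z, hz⟩ : S)
  · simp only [gl, hz, dite_false]
    exact contDiff_const

theorem hd_opp (H : ℤ × ℤ → ℝ) (x : ℤ × ℤ) (i : Fin 6) :
    hd H (x + st i, i + 3) = - hd H (x, i) := by
  simp only [hd, st_opp]
  rw [add_neg_cancel_right]
  ring

theorem cfu_smooth (ε : ℝ) (U : Finset Ed) (Φ : Finset Ed → ℝ) (S : Finset (ℤ × ℤ))
    (c : ℤ × ℤ → ℝ) : ContDiff ℝ ∞ (fun h : S → ℝ => cfu ε U Φ (gl S c h)) := by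
  unfold cfu
  refine ml_contDiff U Φ (Q := fun e h => qs ε (hd (gl S c h) e)) (fun e _ => ?_)
  exact (qs_smooth ε).comp ((gl_smooth S c e.1).sub (gl_smooth S c (e.1 + st e.2)))

/-- `cfu` depends only on the height differences along the edges of `U` -/
theorem cfu_congr_H (ε : ℝ) {U : Finset Ed} (Φ : Finset Ed → ℝ) {H H' : ℤ × ℤ → ℝ}
    (h : ∀ e ∈ U, hd H e = hd H' e) : cfu ε U Φ H = cfu ε U Φ H' := by
  unfold cfu
  exact ml_congr_q Φ (fun e he => by simp only [h e he])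

private theorem cga_op {ε : ℝ} (h0 : 0 < ε) (h1 : ε ≤ 1 / 2) {H : ℤ × ℤ → ℝ} {e : Ed}
    (h : qs ε (hd H e) ≠ 0) : e ∈ Op ε H := by
  by_contra hc
  exact h (qs_zero h0 h1 (not_lt.mp hc))

theorem cfu_congr {ε : ℝ} (h0 : 0 < ε) (h1 : ε ≤ 1 / 2) {U : Finset Ed} {Φ Ψ : Finset Ed → ℝ}
    {H : ℤ × ℤ → ℝ} (h : ∀ S ⊆ U, (∀ e ∈ S, e ∈ Op ε H) →
      (∀ e ∈ U, 1 - ε / 2 ≤ |hd H e| → e ∈ S) → Φ S = Ψ S) : cfu ε U Φ H = cfu ε U Ψ H := by
  unfold cfu
  exact ml_congr (fun S hS h2 h3 => h S hS (fun e he => cga_op h0 h1 (h2 e he))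
    (fun e he h4 => h3 e he (qs_one h0 h1 h4)))

theorem cfu_abs_le {ε : ℝ} (h0 : 0 < ε) (h1 : ε ≤ 1 / 2) {U : Finset Ed} {Φ : Finset Ed → ℝ}
    {H : ℤ × ℤ → ℝ} {M : ℝ} (h : ∀ S ⊆ U, (∀ e ∈ S, e ∈ Op ε H) →
      (∀ e ∈ U, 1 - ε / 2 ≤ |hd H e| → e ∈ S) → |Φ S| ≤ M) : |cfu ε U Φ H| ≤ M := by
  unfold cfu
  exact ml_abs_le (fun e _ => ⟨qs_nonneg _ _, qs_le_one _ _⟩)
    (fun S hS h2 h3 => h S hS (fun e he => cga_op h0 h1 (h2 e he))
    (fun e he h4 => h3 e he (qs_one h0 h1 h4)))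

theorem cfu_le {ε : ℝ} (h0 : 0 < ε) (h1 : ε ≤ 1 / 2) {U : Finset Ed} {Φ Ψ : Finset Ed → ℝ}
    {H : ℤ × ℤ → ℝ} (h : ∀ S ⊆ U, (∀ e ∈ S, e ∈ Op ε H) →
      (∀ e ∈ U, 1 - ε / 2 ≤ |hd H e| → e ∈ S) → Φ S ≤ Ψ S) : cfu ε U Φ H ≤ cfu ε U Ψ H := by
  unfold cfu
  exact ml_le (fun e _ => ⟨qs_nonneg _ _, qs_le_one _ _⟩)
    (fun S hS h2 h3 => h S hS (fun e he => cga_op h0 h1 (h2 e he))
    (fun e he h4 => h3 e he (qs_one h0 h1 h4)))

theorem cfu_const (ε : ℝ) (U : Finset Ed) (c : ℝ) (H : ℤ × ℤ → ℝ) :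
    cfu ε U (fun _ => c) H = c := ml_const U c _

theorem cfu_add (ε : ℝ) (U : Finset Ed) (Φ Ψ : Finset Ed → ℝ) (H : ℤ × ℤ → ℝ) :
    cfu ε U (fun S => Φ S + Ψ S) H = cfu ε U Φ H + cfu ε U Ψ H := ml_add U Φ Ψ _

theorem cfu_sub (ε : ℝ) (U : Finset Ed) (Φ Ψ : Finset Ed → ℝ) (H : ℤ × ℤ → ℝ) :
    cfu ε U (fun S => Φ S - Ψ S) H = cfu ε U Φ H - cfu ε U Ψ H := ml_sub U Φ Ψ _

theorem cfu_smul (ε : ℝ) (U : Finset Ed) (c : ℝ) (Φ : Finset Ed → ℝ) (H : ℤ × ℤ → ℝ) :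
    cfu ε U (fun S => c * Φ S) H = c * cfu ε U Φ H := ml_smul U c Φ _
/- END cga -/

/- MODULE cgb
The derivative of one factor, and of `cfu` (`ml_pd`, the increment of `cfu ε (U.erase e)`). -/
private def cgb_ev (S : Finset (ℤ × ℤ)) (z : ℤ × ℤ) : (S → ℝ) →L[ℝ] ℝ :=
  if hz : z ∈ S then ContinuousLinearMap.proj (⟨z, hz⟩ : S) else 0

private theorem cgb_gl (S : Finset (ℤ × ℤ)) (c : ℤ × ℤ → ℝ) (z : ℤ × ℤ) (h : S → ℝ) :
    HasFDerivAt (fun h : S → ℝ => gl S c h z) (cgb_ev S z) h := by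
  by_cases hz : z ∈ S
  · simp only [gl, hz, dite_true, cgb_ev]
    exact (ContinuousLinearMap.proj (R := ℝ) (φ := fun _ : S => ℝ) (⟨z, hz⟩ : S)).hasFDerivAt
  · simp only [gl, hz, dite_false, cgb_ev]
    exact hasFDerivAt_const _ _

private theorem cgb_ev_single (S : Finset (ℤ × ℤ)) (z y : ℤ × ℤ) (hy : y ∈ S) :
    cgb_ev S z (Pi.single (⟨y, hy⟩ : S) 1) = if z = y then 1 else 0 := by
  by_cases hz : z ∈ S
  · simp only [cgb_ev, hz, dite_true, ContinuousLinearMap.proj_apply]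
    by_cases hzy : z = y
    · subst hzy
      simp
    · rw [if_neg hzy, Pi.single_eq_of_ne]
      intro hc
      exact hzy (congrArg Subtype.val hc)
  · have hzy : z ≠ y := fun hc => hz (hc ▸ hy)
    simp [cgb_ev, hz, hzy]

/-- derivative of `f (H x - H (x + st i))` -/
private theorem cgb_comp {f : ℝ → ℝ} (hf : Differentiable ℝ f) (S : Finset (ℤ × ℤ))
    (c : ℤ × ℤ → ℝ) (y : ℤ × ℤ) (e : Ed) (h : S → ℝ) :
    pz S y (fun h => f (hd (gl S c h) e)) h =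
      if y ∈ S then deriv f (hd (gl S c h) e) *
        ((if e.1 = y then 1 else 0) - (if e.1 + st e.2 = y then 1 else 0)) else 0 := by
  by_cases hy : y ∈ S
  · simp only [pz, hy, dite_true, if_true, pd]
    have h1 : HasFDerivAt (fun h : S → ℝ => hd (gl S c h) e)
        (cgb_ev S e.1 - cgb_ev S (e.1 + st e.2)) h := (cgb_gl S c e.1 h).sub (cgb_gl S c _ h)
    have h2 : HasFDerivAt (fun h : S → ℝ => f (hd (gl S c h) e))
        (deriv f (hd (gl S c h) e) • (cgb_ev S e.1 - cgb_ev S (e.1 + st e.2))) h :=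
      (hf _).hasDerivAt.comp_hasFDerivAt h h1
    rw [h2.fderiv]
    simp only [smul_apply, sub_apply, cgb_ev_single,
      smul_eq_mul]
  · simp only [pz, hy, dite_false, if_false]

theorem pz_qs (ε : ℝ) (S : Finset (ℤ × ℤ)) (c : ℤ × ℤ → ℝ) (y : ℤ × ℤ) (e : Ed) (h : S → ℝ) :
    pz S y (fun h => qs ε (hd (gl S c h) e)) h =
      if y ∈ S then deriv (qs ε) (hd (gl S c h) e) *
        ((if e.1 = y then 1 else 0) - (if e.1 + st e.2 = y then 1 else 0)) else 0 :=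
  cgb_comp ((qs_smooth ε).differentiable (by simp)) S c y e h

theorem cfu_pz (ε : ℝ) (U : Finset Ed) (Φ : Finset Ed → ℝ) (S : Finset (ℤ × ℤ))
    (c : ℤ × ℤ → ℝ) (y : ℤ × ℤ) (h : S → ℝ) :
    pz S y (fun h => cfu ε U Φ (gl S c h)) h =
      ∑ e ∈ U, pz S y (fun h => qs ε (hd (gl S c h) e)) h *
        cfu ε (U.erase e) (fun T => Φ (insert e T) - Φ T) (gl S c h) := by
  by_cases hy : y ∈ S
  · simp only [pz, hy, dite_true]
    unfold cfu
    refine ml_pd U Φ (Q := fun e h => qs ε (hd (gl S c h) e)) (fun e _ => ?_) (⟨y, hy⟩ : S)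
    have h1 : ContDiff ℝ ∞ (fun h : S → ℝ => qs ε (hd (gl S c h) e)) :=
      (qs_smooth ε).comp ((gl_smooth S c e.1).sub (gl_smooth S c (e.1 + st e.2)))
    exact (h1.differentiable (by simp)) h
  · simp only [pz, hy, dite_false, zero_mul, Finset.sum_const_zero]

/-- number of directed edges which touch `y` -/
theorem Uy_card (ε : ℝ) (U : Finset Ed) (H : ℤ × ℤ → ℝ) (y : ℤ × ℤ) : (Uy ε U H y).card ≤ 12 := by
  classical
  have h1 : Uy ε U H y ⊆ (Finset.univ.image (fun i : Fin 6 => ((y, i) : Ed))) ∪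
      (Finset.univ.image (fun i : Fin 6 => ((y - st i, i) : Ed))) := by
    intro e he
    simp only [Uy, Finset.mem_filter] at he
    obtain ⟨-, -, h2 | h2⟩ := he
    · refine Finset.mem_union_left _ (Finset.mem_image.mpr ⟨e.2, Finset.mem_univ _, ?_⟩)
      rw [← h2]
    · refine Finset.mem_union_right _ (Finset.mem_image.mpr ⟨e.2, Finset.mem_univ _, ?_⟩)
      rw [← h2, add_sub_cancel_right]
  refine (Finset.card_le_card h1).trans ((Finset.card_union_le _ _).trans ?_)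
  have h3 := Finset.card_image_le (s := (Finset.univ : Finset (Fin 6)))
    (f := fun i : Fin 6 => ((y, i) : Ed))
  have h4 := Finset.card_image_le (s := (Finset.univ : Finset (Fin 6)))
    (f := fun i : Fin 6 => ((y - st i, i) : Ed))
  simp only [Finset.card_univ, Fintype.card_fin] at h3 h4
  omega

/-- the difference of the two indicators -/
private theorem cgb_ind (y : ℤ × ℤ) (e : Ed) :
    |(if e.1 = y then (1 : ℝ) else 0) - (if e.1 + st e.2 = y then 1 else 0)| ≤ 1 := by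
  split_ifs <;> norm_num

private theorem cgb_ind0 {y : ℤ × ℤ} {e : Ed} (h : ¬ Tch y e) :
    (if e.1 = y then (1 : ℝ) else 0) - (if e.1 + st e.2 = y then 1 else 0) = 0 := by
  unfold Tch at h
  push Not at h
  rw [if_neg h.1, if_neg h.2, sub_zero]

private theorem cgb_Uy {ε : ℝ} {U : Finset Ed} {H : ℤ × ℤ → ℝ} {y : ℤ × ℤ} {e : Ed} :
    e ∈ Uy ε U H y ↔ e ∈ U ∧ e ∈ Op ε H ∧ Tch y e := by
  classical
  simp only [Uy, Finset.mem_filter]

private theorem cgb_zero {ε : ℝ} (h0 : 0 < ε) (h1 : ε ≤ 1 / 2) (S : Finset (ℤ × ℤ))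
    (c : ℤ × ℤ → ℝ) (y : ℤ × ℤ) (e : Ed) (h : S → ℝ) (he : ¬ (e ∈ Op ε (gl S c h) ∧ Tch y e)) :
    pz S y (fun h => qs ε (hd (gl S c h) e)) h = 0 := by
  rw [pz_qs]
  by_cases hy : y ∈ S
  · rw [if_pos hy]
    by_cases ht : Tch y e
    · have ho : e ∉ Op ε (gl S c h) := fun hc => he ⟨hc, ht⟩
      rw [qs_deriv_zero h0 h1 (Or.inl (not_lt.mp ho)), zero_mul]
    · rw [cgb_ind0 ht, mul_zero]
  · rw [if_neg hy]

private theorem cgb_le {ε : ℝ} {C : ℝ} (hC : ∀ z, |deriv (qs ε) z| ≤ C) (S : Finset (ℤ × ℤ))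
    (c : ℤ × ℤ → ℝ) (y : ℤ × ℤ) (e : Ed) (h : S → ℝ) :
    |pz S y (fun h => qs ε (hd (gl S c h) e)) h| ≤ C := by
  have hC0 : 0 ≤ C := (abs_nonneg _).trans (hC 0)
  rw [pz_qs]
  by_cases hy : y ∈ S
  · rw [if_pos hy, abs_mul]
    calc _ ≤ C * 1 := mul_le_mul (hC _) (cgb_ind y e) (abs_nonneg _) hC0
      _ = C := mul_one C
  · rw [if_neg hy, abs_zero]
    exact hC0

theorem cfu_pz_le {ε : ℝ} (h0 : 0 < ε) (h1 : ε ≤ 1 / 2) {C : ℝ} (hC : ∀ z, |deriv (qs ε) z| ≤ C)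
    {U : Finset Ed} {Φ : Finset Ed → ℝ} (S : Finset (ℤ × ℤ)) (c : ℤ × ℤ → ℝ) (y : ℤ × ℤ)
    (h : S → ℝ) {B : Ed → ℝ}
    (hB : ∀ e ∈ Uy ε U (gl S c h) y, ∀ T ⊆ U, (∀ e' ∈ T, e' ∈ Op ε (gl S c h)) →
      |Φ (insert e T) - Φ T| ≤ B e) :
    |pz S y (fun h => cfu ε U Φ (gl S c h)) h| ≤ C * ∑ e ∈ Uy ε U (gl S c h) y, B e := by
  have hC0 : 0 ≤ C := (abs_nonneg _).trans (hC 0)
  rw [cfu_pz]
  have hsub : Uy ε U (gl S c h) y ⊆ U := fun e he => (cgb_Uy.mp he).1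
  rw [← Finset.sum_subset hsub (fun e he hn => by
    rw [cgb_zero h0 h1 S c y e h (fun hc => hn (cgb_Uy.mpr ⟨he, hc.1, hc.2⟩)), zero_mul])]
  refine (Finset.abs_sum_le_sum_abs _ _).trans ?_
  rw [Finset.mul_sum]
  refine Finset.sum_le_sum (fun e he => ?_)
  rw [abs_mul]
  refine mul_le_mul (cgb_le hC S c y e h) ?_ (abs_nonneg _) hC0
  refine cfu_abs_le h0 h1 (fun T hT h2 _ => hB e he T (hT.trans (Finset.erase_subset _ _)) h2)
/- END cgb -/

/- MODULE cgc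
Second derivatives: differentiate `cfu_pz` once more.  The terms are
`pz z (pz y (qs e)) * cfu (U.erase e) (Δ_e Φ)` (bounded by `C * B e`, and zero unless `e` is nearly
saturated and touches `y` and `z`) and `pz y (qs e) * pz z (qs e') * cfu ((U.erase e).erase e')
(Δ_e' Δ_e Φ)`. -/
/-- the first derivative of one factor as a function -/
private theorem cgc_d1 (ε : ℝ) (S : Finset (ℤ × ℤ)) (c : ℤ × ℤ → ℝ) (y : ℤ × ℤ) (e : Ed) :
    (fun h : S → ℝ => pz S y (fun h => qs ε (hd (gl S c h) e)) h) =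
      fun h => (if y ∈ S then
        ((if e.1 = y then 1 else 0) - (if e.1 + st e.2 = y then 1 else 0)) else 0) *
        deriv (qs ε) (hd (gl S c h) e) := by
  funext h
  rw [pz_qs]
  by_cases hy : y ∈ S
  · rw [if_pos hy, if_pos hy, mul_comm]
  · rw [if_neg hy, if_neg hy, zero_mul]

private theorem cgc_dsm (ε : ℝ) : ContDiff ℝ ∞ (deriv (qs ε)) :=
  (qs_smooth ε).iterate_deriv 1

private theorem cgc_asm (ε : ℝ) (S : Finset (ℤ × ℤ)) (c : ℤ × ℤ → ℝ) (y : ℤ × ℤ) (e : Ed) :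
    ContDiff ℝ ∞ (fun h : S → ℝ => pz S y (fun h => qs ε (hd (gl S c h) e)) h) := by
  rw [cgc_d1]
  exact contDiff_const.mul
    ((cgc_dsm ε).comp ((gl_smooth S c e.1).sub (gl_smooth S c (e.1 + st e.2))))

private theorem cgc_pz_mul (S : Finset (ℤ × ℤ)) (z : ℤ × ℤ) {f g : (S → ℝ) → ℝ} {h : S → ℝ}
    (hf : DifferentiableAt ℝ f h) (hg : DifferentiableAt ℝ g h) :
    pz S z (fun h => f h * g h) h = pz S z f h * g h + f h * pz S z g h := by
  by_cases hz : z ∈ S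
  · simp only [pz, hz, dite_true, pd]
    rw [fderiv_fun_mul hf hg]
    simp only [add_apply, smul_apply, smul_eq_mul]
    ring
  · simp only [pz, hz, dite_false, zero_mul, mul_zero, add_zero]

private theorem cgc_pz_sum (S : Finset (ℤ × ℤ)) (z : ℤ × ℤ) {U : Finset Ed}
    {f : Ed → (S → ℝ) → ℝ} {h : S → ℝ} (hf : ∀ e ∈ U, DifferentiableAt ℝ (f e) h) :
    pz S z (fun h => ∑ e ∈ U, f e h) h = ∑ e ∈ U, pz S z (f e) h := by
  by_cases hz : z ∈ S
  · simp only [pz, hz, dite_true, pd]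
    rw [fderiv_fun_sum hf]
    simp only [sum_apply]
  · simp only [pz, hz, dite_false, Finset.sum_const_zero]

/-- second derivative of one factor -/
private theorem cgc_d2 (ε : ℝ) (S : Finset (ℤ × ℤ)) (c : ℤ × ℤ → ℝ) (y z : ℤ × ℤ) (e : Ed)
    (h : S → ℝ) :
    pz S z (fun h : S → ℝ => pz S y (fun h => qs ε (hd (gl S c h) e)) h) h =
      (if y ∈ S then
        ((if e.1 = y then 1 else 0) - (if e.1 + st e.2 = y then 1 else 0)) else 0) *
      (if z ∈ S then deriv (deriv (qs ε)) (hd (gl S c h) e) *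
        ((if e.1 = z then 1 else 0) - (if e.1 + st e.2 = z then 1 else 0)) else 0) := by
  rw [cgc_d1, cgc_pz_mul S z (differentiableAt_const _)]
  · rw [cgb_comp ((cgc_dsm ε).differentiable (by simp)) S c z e h]
    have h3 : ∀ a : ℝ, pz S z (fun _ : S → ℝ => a) h = 0 := by
      intro a
      by_cases hz : z ∈ S
      · simp only [pz, hz, dite_true, pd, fderiv_fun_const, Pi.zero_apply, zero_apply]
      · simp only [pz, hz, dite_false]
    rw [h3, zero_mul, zero_add]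
  · have h1 : ContDiff ℝ ∞ (fun h : S → ℝ => deriv (qs ε) (hd (gl S c h) e)) :=
      (cgc_dsm ε).comp ((gl_smooth S c e.1).sub (gl_smooth S c (e.1 + st e.2)))
    exact (h1.differentiable (by simp)) h

private theorem cgc_d2_zero {ε : ℝ} (h0 : 0 < ε) (h1 : ε ≤ 1 / 2) (S : Finset (ℤ × ℤ))
    (c : ℤ × ℤ → ℝ) (y z : ℤ × ℤ) (e : Ed) (h : S → ℝ)
    (he : ¬ (e ∈ Op ε (gl S c h) ∧ Tch y e ∧ Tch z e)) :
    pz S z (fun h : S → ℝ => pz S y (fun h => qs ε (hd (gl S c h) e)) h) h = 0 := by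
  rw [cgc_d2]
  by_cases hy : y ∈ S
  swap
  · rw [if_neg hy, zero_mul]
  by_cases hz : z ∈ S
  swap
  · rw [if_neg hz, mul_zero]
  rw [if_pos hy, if_pos hz]
  by_cases hty : Tch y e
  swap
  · rw [cgb_ind0 hty, zero_mul]
  by_cases htz : Tch z e
  swap
  · rw [cgb_ind0 htz, mul_zero, mul_zero]
  have ho : e ∉ Op ε (gl S c h) := fun hc => he ⟨hc, hty, htz⟩
  rw [qs_deriv2_zero h0 h1 (Or.inl (not_lt.mp ho)), zero_mul, mul_zero]

private theorem cgc_d2_le {ε : ℝ} {C : ℝ} (hC : ∀ z, |deriv (deriv (qs ε)) z| ≤ C)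
    (S : Finset (ℤ × ℤ)) (c : ℤ × ℤ → ℝ) (y z : ℤ × ℤ) (e : Ed) (h : S → ℝ) :
    |pz S z (fun h : S → ℝ => pz S y (fun h => qs ε (hd (gl S c h) e)) h) h| ≤ C := by
  have hC0 : 0 ≤ C := (abs_nonneg _).trans (hC 0)
  rw [cgc_d2]
  by_cases hy : y ∈ S
  swap
  · rw [if_neg hy, zero_mul, abs_zero]
    exact hC0
  by_cases hz : z ∈ S
  swap
  · rw [if_neg hz, mul_zero, abs_zero]
    exact hC0
  rw [if_pos hy, if_pos hz, abs_mul, abs_mul]
  have h1 := cgb_ind y e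
  have h2 := cgb_ind z e
  calc _ ≤ 1 * (C * 1) :=
        mul_le_mul h1 (mul_le_mul (hC _) h2 (abs_nonneg _) hC0) (by positivity) (by norm_num)
    _ = C := by ring

/-- the second derivative of a cluster function -/
private theorem cgc_pz2 (ε : ℝ) (U : Finset Ed) (Φ : Finset Ed → ℝ) (S : Finset (ℤ × ℤ))
    (c : ℤ × ℤ → ℝ) (y z : ℤ × ℤ) (h : S → ℝ) :
    pz S z (pz S y (fun h => cfu ε U Φ (gl S c h))) h =
      ∑ e ∈ U, (pz S z (fun h : S → ℝ => pz S y (fun h => qs ε (hd (gl S c h) e)) h) h *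
        cfu ε (U.erase e) (fun T => Φ (insert e T) - Φ T) (gl S c h) +
        pz S y (fun h => qs ε (hd (gl S c h) e)) h *
        pz S z (fun h => cfu ε (U.erase e) (fun T => Φ (insert e T) - Φ T) (gl S c h)) h) := by
  have h1 : pz S y (fun h => cfu ε U Φ (gl S c h)) = fun h =>
      ∑ e ∈ U, pz S y (fun h => qs ε (hd (gl S c h) e)) h *
        cfu ε (U.erase e) (fun T => Φ (insert e T) - Φ T) (gl S c h) := by
    funext h
    exact cfu_pz ε U Φ S c y h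
  rw [h1]
  have ha : ∀ e, DifferentiableAt ℝ
      (fun h : S → ℝ => pz S y (fun h => qs ε (hd (gl S c h) e)) h) h :=
    fun e => ((cgc_asm ε S c y e).differentiable (by simp)) h
  have hb : ∀ e, DifferentiableAt ℝ
      (fun h : S → ℝ => cfu ε (U.erase e) (fun T => Φ (insert e T) - Φ T) (gl S c h)) h :=
    fun e => ((cfu_smooth ε (U.erase e) (fun T => Φ (insert e T) - Φ T) S c).differentiable
      (by simp)) h
  refine (cgc_pz_sum S z (f := fun e h => pz S y (fun h => qs ε (hd (gl S c h) e)) h *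
    cfu ε (U.erase e) (fun T => Φ (insert e T) - Φ T) (gl S c h))
    (fun e _ => (ha e).mul (hb e))).trans ?_
  refine Finset.sum_congr rfl (fun e _ => ?_)
  exact cgc_pz_mul S z (ha e) (hb e)

theorem cfu_pz2_le {ε : ℝ} (h0 : 0 < ε) (h1 : ε ≤ 1 / 2) {C : ℝ}
    (hC : ∀ z, |deriv (qs ε) z| ≤ C ∧ |deriv (deriv (qs ε)) z| ≤ C)
    {U : Finset Ed} {Φ : Finset Ed → ℝ} (S : Finset (ℤ × ℤ)) (c : ℤ × ℤ → ℝ) (y z : ℤ × ℤ)
    (h : S → ℝ) {B : Ed → ℝ} {B2 : Ed → Ed → ℝ}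
    (hB : ∀ e ∈ Uy ε U (gl S c h) y, ∀ T ⊆ U, (∀ e' ∈ T, e' ∈ Op ε (gl S c h)) →
      |Φ (insert e T) - Φ T| ≤ B e) (hB0 : ∀ e e', 0 ≤ B2 e e')
    (hB2 : ∀ e ∈ Uy ε U (gl S c h) y, ∀ e' ∈ Uy ε U (gl S c h) z, e' ≠ e → ∀ T ⊆ U,
      (∀ e'' ∈ T, e'' ∈ Op ε (gl S c h)) →
      |(Φ (insert e (insert e' T)) - Φ (insert e' T)) - (Φ (insert e T) - Φ T)| ≤ B2 e e') :
    |pz S z (pz S y (fun h => cfu ε U Φ (gl S c h))) h| ≤
      C * (∑ e ∈ (Uy ε U (gl S c h) y).filter (fun e => Tch z e), B e) +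
        C ^ 2 * ∑ e ∈ Uy ε U (gl S c h) y, ∑ e' ∈ Uy ε U (gl S c h) z, B2 e e' := by
  have hC0 : 0 ≤ C := (abs_nonneg _).trans (hC 0).1
  rw [cgc_pz2, Finset.sum_add_distrib]
  refine (abs_add_le _ _).trans (add_le_add ?_ ?_)
  · have hsub : (Uy ε U (gl S c h) y).filter (fun e => Tch z e) ⊆ U :=
      fun e he => (cgb_Uy.mp (Finset.mem_filter.mp he).1).1
    rw [← Finset.sum_subset hsub (fun e he hn => by
      rw [cgc_d2_zero h0 h1 S c y z e h (fun hc => hn (Finset.mem_filter.mpr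
        ⟨cgb_Uy.mpr ⟨he, hc.1, hc.2.1⟩, hc.2.2⟩)), zero_mul])]
    refine (Finset.abs_sum_le_sum_abs _ _).trans ?_
    rw [Finset.mul_sum]
    refine Finset.sum_le_sum (fun e he => ?_)
    rw [abs_mul]
    refine mul_le_mul (cgc_d2_le (fun z => (hC z).2) S c y z e h) ?_ (abs_nonneg _) hC0
    exact cfu_abs_le h0 h1 (fun T hT h2 _ => hB e (Finset.mem_filter.mp he).1 T
      (hT.trans (Finset.erase_subset _ _)) h2)
  · have hsub : Uy ε U (gl S c h) y ⊆ U := fun e he => (cgb_Uy.mp he).1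
    rw [← Finset.sum_subset hsub (fun e he hn => by
      rw [cgb_zero h0 h1 S c y e h (fun hc => hn (cgb_Uy.mpr ⟨he, hc.1, hc.2⟩)), zero_mul])]
    refine (Finset.abs_sum_le_sum_abs _ _).trans ?_
    rw [Finset.mul_sum]
    refine Finset.sum_le_sum (fun e he => ?_)
    rw [abs_mul]
    have h2 : |pz S z (fun h => cfu ε (U.erase e) (fun T => Φ (insert e T) - Φ T)
        (gl S c h)) h| ≤ C * ∑ e' ∈ Uy ε U (gl S c h) z, B2 e e' := by
      refine (cfu_pz_le h0 h1 (fun z => (hC z).1) (Φ := fun T => Φ (insert e T) - Φ T) S c z h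
        (B := fun e' => B2 e e') ?_).trans ?_
      · intro e' he' T hT h3
        have h4 := cgb_Uy.mp he'
        exact hB2 e he e' (cgb_Uy.mpr ⟨Finset.mem_of_mem_erase h4.1, h4.2⟩)
          (Finset.ne_of_mem_erase h4.1) T (hT.trans (Finset.erase_subset _ _)) h3
      · refine mul_le_mul_of_nonneg_left (Finset.sum_le_sum_of_subset_of_nonneg ?_
          (fun e' _ _ => hB0 e e')) hC0
        intro e' he'
        have h4 := cgb_Uy.mp he'
        exact cgb_Uy.mpr ⟨Finset.mem_of_mem_erase h4.1, h4.2⟩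
    calc _ ≤ C * (C * ∑ e' ∈ Uy ε U (gl S c h) z, B2 e e') :=
          mul_le_mul (cgb_le (fun z => (hC z).1) S c y e h) h2 (abs_nonneg _) hC0
      _ = C ^ 2 * ∑ e' ∈ Uy ε U (gl S c h) z, B2 e e' := by ring
/- END cgc -/

/- MODULE cgd
Restriction to a smaller set of edges: values, first and second derivatives at the point `h` agree
if `Φ' T = Φ (T ∩ U)` for all `T ⊆ U'` which consist of edges nearly saturated at `h`.
(`ml_restrict`; in `cfu_pz` only the terms with `e ∈ Op` count by `qs_deriv_zero`, the same for the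
second derivatives with `qs_deriv2_zero`.) -/
theorem cfu_restrict {ε : ℝ} (h0 : 0 < ε) (h1 : ε ≤ 1 / 2) {U U' : Finset Ed} (hU : U ⊆ U')
    {Φ Φ' : Finset Ed → ℝ} {H : ℤ × ℤ → ℝ}
    (h : ∀ T ⊆ U', (∀ e ∈ T, e ∈ Op ε H) → Φ' T = Φ (T ∩ U)) :
    cfu ε U' Φ' H = cfu ε U Φ H := by
  unfold cfu
  exact ml_restrict hU (fun T hT h2 => h T hT (fun e he => cga_op h0 h1 (h2 e he)))

/-- the hypothesis for the increments -/
private theorem cgd_inc {ε : ℝ} {U U' : Finset Ed} {Φ Φ' : Finset Ed → ℝ} {H : ℤ × ℤ → ℝ}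
    (h : ∀ T ⊆ U', (∀ e ∈ T, e ∈ Op ε H) → Φ' T = Φ (T ∩ U)) {e : Ed} (he : e ∈ U)
    (heU' : e ∈ U') (ho : e ∈ Op ε H) :
    ∀ T ⊆ U'.erase e, (∀ e' ∈ T, e' ∈ Op ε H) →
      (fun T => Φ' (insert e T) - Φ' T) T = (fun T => Φ (insert e T) - Φ T) (T ∩ U.erase e) := by
  intro T hT h2
  have hT' : T ⊆ U' := hT.trans (Finset.erase_subset _ _)
  have heT : e ∉ T := fun hc => Finset.notMem_erase e U' (hT hc)
  have h3 : T ∩ U.erase e = T ∩ U := by
    ext x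
    simp only [Finset.mem_inter, Finset.mem_erase]
    constructor
    · rintro ⟨a, -, b⟩
      exact ⟨a, b⟩
    · rintro ⟨a, b⟩
      exact ⟨a, fun hc => heT (hc ▸ a), b⟩
  have h4 : Φ' (insert e T) = Φ (insert e T ∩ U) := by
    refine h _ ?_ ?_
    · intro x hx
      rcases Finset.mem_insert.mp hx with rfl | hx
      · exact heU'
      · exact hT' hx
    · intro x hx
      rcases Finset.mem_insert.mp hx with rfl | hx
      · exact ho
      · exact h2 x hx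
  change Φ' (insert e T) - Φ' T = Φ (insert e (T ∩ U.erase e)) - Φ (T ∩ U.erase e)
  rw [h4, h T hT' h2, h3, Finset.insert_inter_of_mem he]

private theorem cgd_zero {ε : ℝ} {U U' : Finset Ed} {Φ Φ' : Finset Ed → ℝ} {H : ℤ × ℤ → ℝ}
    (h : ∀ T ⊆ U', (∀ e ∈ T, e ∈ Op ε H) → Φ' T = Φ (T ∩ U)) {e : Ed} (he : e ∉ U)
    (heU' : e ∈ U') (ho : e ∈ Op ε H) :
    ∀ T ⊆ U'.erase e, (∀ e' ∈ T, e' ∈ Op ε H) →
      (fun T => Φ' (insert e T) - Φ' T) T = (fun _ => (0 : ℝ)) (T ∩ ∅) := by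
  intro T hT h2
  have hT' : T ⊆ U' := hT.trans (Finset.erase_subset _ _)
  have h4 : Φ' (insert e T) = Φ (insert e T ∩ U) := by
    refine h _ ?_ ?_
    · intro x hx
      rcases Finset.mem_insert.mp hx with rfl | hx
      · exact heU'
      · exact hT' hx
    · intro x hx
      rcases Finset.mem_insert.mp hx with rfl | hx
      · exact ho
      · exact h2 x hx
  change Φ' (insert e T) - Φ' T = 0
  rw [h4, h T hT' h2, Finset.insert_inter_of_notMem he, sub_self]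

theorem cfu_restrict_pz {ε : ℝ} (h0 : 0 < ε) (h1 : ε ≤ 1 / 2) {U U' : Finset Ed} (hU : U ⊆ U')
    {Φ Φ' : Finset Ed → ℝ} (S : Finset (ℤ × ℤ)) (c : ℤ × ℤ → ℝ) (y : ℤ × ℤ) (h : S → ℝ)
    (hΦ : ∀ T ⊆ U', (∀ e ∈ T, e ∈ Op ε (gl S c h)) → Φ' T = Φ (T ∩ U)) :
    pz S y (fun h => cfu ε U' Φ' (gl S c h)) h = pz S y (fun h => cfu ε U Φ (gl S c h)) h := by
  rw [cfu_pz, cfu_pz]
  symm
  refine (Finset.sum_congr rfl (fun e he => ?_)).trans (Finset.sum_subset hU (fun e he hn => ?_))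
  · by_cases ho : e ∈ Op ε (gl S c h)
    · rw [cfu_restrict h0 h1 (Finset.erase_subset_erase e hU) (Φ := fun T => Φ (insert e T) - Φ T)
          (Φ' := fun T => Φ' (insert e T) - Φ' T)
          (cgd_inc hΦ he (hU he) ho)]
    · have h2 := cgb_zero h0 h1 S c y e h (fun hc => ho hc.1)
      rw [h2, zero_mul, zero_mul]
  · by_cases ho : e ∈ Op ε (gl S c h)
    · rw [cfu_restrict h0 h1 (Finset.empty_subset _) (Φ := fun _ => 0)
          (Φ' := fun T => Φ' (insert e T) - Φ' T)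
          (cgd_zero hΦ hn he ho), cfu_const, mul_zero]
    · rw [cgb_zero h0 h1 S c y e h (fun hc => ho hc.1), zero_mul]

theorem cfu_restrict_pz2 {ε : ℝ} (h0 : 0 < ε) (h1 : ε ≤ 1 / 2) {U U' : Finset Ed} (hU : U ⊆ U')
    {Φ Φ' : Finset Ed → ℝ} (S : Finset (ℤ × ℤ)) (c : ℤ × ℤ → ℝ) (y z : ℤ × ℤ) (h : S → ℝ)
    (hΦ : ∀ T ⊆ U', (∀ e ∈ T, e ∈ Op ε (gl S c h)) → Φ' T = Φ (T ∩ U)) :
    pz S z (pz S y (fun h => cfu ε U' Φ' (gl S c h))) h =
      pz S z (pz S y (fun h => cfu ε U Φ (gl S c h))) h := by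
  rw [cgc_pz2, cgc_pz2]
  symm
  refine (Finset.sum_congr rfl (fun e he => ?_)).trans (Finset.sum_subset hU (fun e he hn => ?_))
  · by_cases ho : e ∈ Op ε (gl S c h)
    · rw [cfu_restrict h0 h1 (Finset.erase_subset_erase e hU) (Φ := fun T => Φ (insert e T) - Φ T)
          (Φ' := fun T => Φ' (insert e T) - Φ' T)
          (cgd_inc hΦ he (hU he) ho),
        cfu_restrict_pz h0 h1 (Finset.erase_subset_erase e hU) (Φ := fun T => Φ (insert e T) - Φ T)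
          (Φ' := fun T => Φ' (insert e T) - Φ' T) S c z h
          (cgd_inc hΦ he (hU he) ho)]
    · have h2 := cgb_zero h0 h1 S c y e h (fun hc => ho hc.1)
      have h3 := cgc_d2_zero h0 h1 S c y z e h (fun hc => ho hc.1)
      rw [h2, h3, zero_mul, zero_mul, zero_mul, zero_mul]
  · by_cases ho : e ∈ Op ε (gl S c h)
    · rw [cfu_restrict h0 h1 (Finset.empty_subset _) (Φ := fun _ => 0)
          (Φ' := fun T => Φ' (insert e T) - Φ' T)
          (cgd_zero hΦ hn he ho), cfu_const, mul_zero,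
        cfu_restrict_pz h0 h1 (Finset.empty_subset _) (Φ := fun _ => 0)
          (Φ' := fun T => Φ' (insert e T) - Φ' T) S c z h
          (cgd_zero hΦ hn he ho), cfu_pz,
        Finset.sum_empty, mul_zero, add_zero]
    · rw [cgb_zero h0 h1 S c y e h (fun hc => ho hc.1),
        cgc_d2_zero h0 h1 S c y z e h (fun hc => ho hc.1), zero_mul, zero_mul, add_zero]
/- END cgd -/

end Pool.Agent.Hmk
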