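import Pool.Agent.Hmk.CfO
import Pool.Agent.Hmk.CfD

/-!
# Hmk, cluster fields (7): two-sided bounds for variances

`EG D ψ` is half the sum of the squares of the increments of `ψ` over the directed edges which start
in `D`, `Lap` the (positive) Laplacian, `FG D b ψ h = ∑ x ∈ D, Lap ψ x * h x`.
-/

set_option autoImplicit false

open MeasureTheory Set Filter ProbabilityTheory
open scoped ENNReal ContDiff Topology

noncomputable section

namespace Pool.Agent.Hmk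

/- MODULE cla
Summation by parts for functions which vanish off `D`.  With `D' = nb D` and
`E = (1/2) ∑_{x ∈ D'} ∑ i` (all edges with a nonzero increment once): `∑ φ Lap ψ = E(φ, ψ)`,
`EG ≤ E ≤ 2 EG`, Cauchy-Schwarz.  `EG_le`: `(a - b)^2 ≤ 2 a^2 + 2 b^2`. -/
private theorem cla_sub_nb (D : Finset (ℤ × ℤ)) : D ⊆ nb D := Finset.subset_union_left

private theorem cla_mem_nb {D : Finset (ℤ × ℤ)} {y : ℤ × ℤ} (hy : y ∈ D) (i : Fin 6) :
    y + st i ∈ nb D := by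
  unfold nb
  rw [Finset.mem_union, Finset.mem_biUnion]
  exact Or.inr ⟨y, hy, Finset.mem_image.mpr ⟨i, Finset.mem_univ i, rfl⟩⟩

private theorem cla_shift {D : Finset (ℤ × ℤ)} (G : ℤ × ℤ → ℤ × ℤ → ℝ)
    (hG : ∀ x y, y ∉ D → G x y = 0) :
    ∑ x ∈ nb D, ∑ i, G x (x + st i) = ∑ y ∈ D, ∑ i, G (y + st i) y := by
  rw [Finset.sum_comm, Finset.sum_comm (s := D)]
  have h1 : ∀ i : Fin 6, ∑ x ∈ nb D, G x (x + st i) = ∑ y ∈ D, G (y + st (i + 3)) y := by
    intro i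
    have h2 : ∑ y ∈ D, G (y + st (i + 3)) y =
        ∑ x ∈ D.image (fun y => y + st (i + 3)), G x (x + st i) := by
      rw [Finset.sum_image]
      · refine Finset.sum_congr rfl fun y _ => ?_
        have h3 : y + st (i + 3) + st i = y := by
          rw [st_neg]
          simp
        rw [h3]
      · intro a _ c _ hac
        simpa using hac
    rw [h2]
    symm
    refine Finset.sum_subset ?_ ?_
    · intro z hz
      obtain ⟨y, hy, rfl⟩ := Finset.mem_image.mp hz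
      exact cla_mem_nb hy _
    · intro z _ hz
      refine hG _ _ fun hzD => hz ?_
      refine Finset.mem_image.mpr ⟨z + st i, hzD, ?_⟩
      rw [st_neg]
      simp
  rw [Finset.sum_congr rfl fun i _ => h1 i]
  exact Equiv.sum_comp (Equiv.addRight (3 : Fin 6)) (fun i => ∑ y ∈ D, G (y + st i) y)

/-- the full bilinear energy, every edge twice -/
private def cla_E (D : Finset (ℤ × ℤ)) (φ ψ : ℤ × ℤ → ℝ) : ℝ :=
  ∑ x ∈ nb D, ∑ i, (φ x - φ (x + st i)) * (ψ x - ψ (x + st i))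

private theorem cla_main {D : Finset (ℤ × ℤ)} {φ ψ : ℤ × ℤ → ℝ} (hφ : ∀ z ∉ D, φ z = 0) :
    cla_E D φ ψ = 2 * ∑ x ∈ D, φ x * Lap ψ x := by
  have h1 := cla_shift (D := D) (fun x y => φ y * (ψ y - ψ x))
    (fun x y hy => by simp [hφ y hy])
  have h2 : ∑ x ∈ nb D, φ x * Lap ψ x = ∑ x ∈ D, φ x * Lap ψ x := by
    symm
    refine Finset.sum_subset (cla_sub_nb D) fun x _ hx => ?_
    simp [hφ x hx]
  have h3 : ∑ y ∈ D, ∑ i, φ y * (ψ y - ψ (y + st i)) = ∑ x ∈ D, φ x * Lap ψ x := by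
    refine Finset.sum_congr rfl fun x _ => ?_
    rw [Lap, Finset.mul_sum]
  have h4 : cla_E D φ ψ = ∑ x ∈ nb D, φ x * Lap ψ x +
      ∑ x ∈ nb D, ∑ i, φ (x + st i) * (ψ (x + st i) - ψ x) := by
    unfold cla_E
    rw [← Finset.sum_add_distrib]
    refine Finset.sum_congr rfl fun x _ => ?_
    rw [Lap, Finset.mul_sum, ← Finset.sum_add_distrib]
    refine Finset.sum_congr rfl fun i _ => ?_
    ring
  rw [h4, h1, h3, h2]
  ring

private theorem cla_le_E (D : Finset (ℤ × ℤ)) (ψ : ℤ × ℤ → ℝ) : 2 * EG D ψ ≤ cla_E D ψ ψ := by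
  unfold EG cla_E
  have h1 : ∑ x ∈ D, ∑ i, (ψ (x + st i) - ψ x) ^ 2 ≤
      ∑ x ∈ nb D, ∑ i, (ψ x - ψ (x + st i)) * (ψ x - ψ (x + st i)) := by
    calc ∑ x ∈ D, ∑ i, (ψ (x + st i) - ψ x) ^ 2
        = ∑ x ∈ D, ∑ i, (ψ x - ψ (x + st i)) * (ψ x - ψ (x + st i)) := by
          refine Finset.sum_congr rfl fun x _ => Finset.sum_congr rfl fun i _ => ?_
          ring
      _ ≤ _ := by
          refine Finset.sum_le_sum_of_subset_of_nonneg (cla_sub_nb D) fun x _ _ => ?_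
          exact Finset.sum_nonneg fun i _ => mul_self_nonneg _
  linarith

private theorem cla_E_le {D : Finset (ℤ × ℤ)} {ψ : ℤ × ℤ → ℝ} (hψ : ∀ z ∉ D, ψ z = 0) :
    cla_E D ψ ψ ≤ 4 * EG D ψ := by
  classical
  unfold EG cla_E
  have h1 := cla_shift (D := D) (fun x y => if y ∈ D then (ψ x - ψ y) ^ 2 else 0)
    (fun x y hy => by simp [hy])
  have h2 : ∑ y ∈ D, ∑ i : Fin 6, (if y ∈ D then (ψ (y + st i) - ψ y) ^ 2 else 0) =
      ∑ x ∈ D, ∑ i, (ψ (x + st i) - ψ x) ^ 2 := by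
    refine Finset.sum_congr rfl fun x hx => Finset.sum_congr rfl fun i _ => ?_
    rw [if_pos hx]
  have h3 : ∑ x ∈ nb D, ∑ i : Fin 6, (if x ∈ D then (ψ (x + st i) - ψ x) ^ 2 else 0) =
      ∑ x ∈ D, ∑ i, (ψ (x + st i) - ψ x) ^ 2 := by
    rw [← h2]
    symm
    refine Finset.sum_subset (cla_sub_nb D) fun x _ hx => ?_
    simp [hx]
  have h4 : ∑ x ∈ nb D, ∑ i, (ψ x - ψ (x + st i)) * (ψ x - ψ (x + st i)) ≤
      ∑ x ∈ nb D, ∑ i : Fin 6, (if x ∈ D then (ψ (x + st i) - ψ x) ^ 2 else 0) +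
      ∑ x ∈ nb D, ∑ i : Fin 6, (if x + st i ∈ D then (ψ x - ψ (x + st i)) ^ 2 else 0) := by
    rw [← Finset.sum_add_distrib]
    refine Finset.sum_le_sum fun x _ => ?_
    rw [← Finset.sum_add_distrib]
    refine Finset.sum_le_sum fun i _ => ?_
    by_cases hx : x ∈ D <;> by_cases hy : x + st i ∈ D
    · rw [if_pos hx, if_pos hy]
      nlinarith [sq_nonneg (ψ x - ψ (x + st i))]
    · rw [if_pos hx, if_neg hy]
      nlinarith [sq_nonneg (ψ x - ψ (x + st i))]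
    · rw [if_neg hx, if_pos hy]
      nlinarith [sq_nonneg (ψ x - ψ (x + st i))]
    · rw [if_neg hx, if_neg hy, hψ _ hx, hψ _ hy]
      simp
  rw [h1, h3, h2] at h4
  linarith

theorem lap_ge {D : Finset (ℤ × ℤ)} {ψ : ℤ × ℤ → ℝ} (hψ : ∀ z ∉ D, ψ z = 0) :
    EG D ψ ≤ ∑ x ∈ D, ψ x * Lap ψ x := by
  have h1 := cla_main (ψ := ψ) hψ
  have h2 := cla_le_E D ψ
  linarith

theorem lap_symm {D : Finset (ℤ × ℤ)} {φ ψ : ℤ × ℤ → ℝ} (hφ : ∀ z ∉ D, φ z = 0)
    (hψ : ∀ z ∉ D, ψ z = 0) : ∑ x ∈ D, φ x * Lap ψ x = ∑ x ∈ D, ψ x * Lap φ x := by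
  have h1 := cla_main (ψ := ψ) hφ
  have h2 := cla_main (ψ := φ) hψ
  have h3 : cla_E D φ ψ = cla_E D ψ φ := by
    unfold cla_E
    refine Finset.sum_congr rfl fun x _ => Finset.sum_congr rfl fun i _ => ?_
    ring
  linarith

theorem lap_cs {D : Finset (ℤ × ℤ)} {φ ψ : ℤ × ℤ → ℝ} (hφ : ∀ z ∉ D, φ z = 0)
    (hψ : ∀ z ∉ D, ψ z = 0) : (∑ x ∈ D, φ x * Lap ψ x) ^ 2 ≤ 4 * EG D φ * EG D ψ := by
  have h1 := cla_main (ψ := ψ) hφ
  have h2 : (cla_E D φ ψ) ^ 2 ≤ cla_E D φ φ * cla_E D ψ ψ := by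
    unfold cla_E
    rw [← Finset.sum_product', ← Finset.sum_product', ← Finset.sum_product']
    have h3 := Finset.sum_mul_sq_le_sq_mul_sq (nb D ×ˢ (Finset.univ : Finset (Fin 6)))
      (fun p => φ p.1 - φ (p.1 + st p.2)) (fun p => ψ p.1 - ψ (p.1 + st p.2))
    simpa only [sq] using h3
  have h4 := cla_E_le hφ
  have h5 := cla_E_le hψ
  have h6 : 0 ≤ cla_E D ψ ψ := by
    unfold cla_E
    exact Finset.sum_nonneg fun x _ => Finset.sum_nonneg fun i _ => mul_self_nonneg _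
  have h7 : 0 ≤ EG D φ := by
    unfold EG
    exact mul_nonneg (by norm_num) (Finset.sum_nonneg fun x _ =>
      Finset.sum_nonneg fun i _ => sq_nonneg _)
  have h8 : cla_E D φ φ * cla_E D ψ ψ ≤ (4 * EG D φ) * (4 * EG D ψ) :=
    mul_le_mul h4 h5 h6 (by linarith)
  rw [h1] at h2
  nlinarith

theorem EG_nonneg (D : Finset (ℤ × ℤ)) (ψ : ℤ × ℤ → ℝ) : 0 ≤ EG D ψ := by
  unfold EG
  exact mul_nonneg (by norm_num) (Finset.sum_nonneg fun x _ =>
    Finset.sum_nonneg fun i _ => sq_nonneg _)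

theorem EG_le {D : Finset (ℤ × ℤ)} {ψ : ℤ × ℤ → ℝ} (hψ : ∀ z ∉ D, ψ z = 0) :
    EG D ψ ≤ 12 * ∑ x ∈ D, (ψ x) ^ 2 := by
  have h1 := cla_shift (D := D) (fun _ y => (ψ y) ^ 2)
    (fun x y hy => by simp [hψ y hy])
  have h2 : ∑ y ∈ D, ∑ _i : Fin 6, (ψ y) ^ 2 = 6 * ∑ x ∈ D, (ψ x) ^ 2 := by
    rw [Finset.mul_sum]
    refine Finset.sum_congr rfl fun x _ => ?_
    rw [Finset.sum_const]
    simp
  have h3 : ∑ x ∈ D, ∑ i, (ψ (x + st i)) ^ 2 ≤ ∑ x ∈ nb D, ∑ i, (ψ (x + st i)) ^ 2 :=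
    Finset.sum_le_sum_of_subset_of_nonneg (cla_sub_nb D) fun x _ _ =>
      Finset.sum_nonneg fun i _ => sq_nonneg _
  have h4 : ∑ x ∈ D, ∑ i, (ψ (x + st i) - ψ x) ^ 2 ≤
      ∑ x ∈ D, ∑ i, 2 * (ψ (x + st i)) ^ 2 + ∑ x ∈ D, ∑ _i : Fin 6, 2 * (ψ x) ^ 2 := by
    rw [← Finset.sum_add_distrib]
    refine Finset.sum_le_sum fun x _ => ?_
    rw [← Finset.sum_add_distrib]
    refine Finset.sum_le_sum fun i _ => ?_
    nlinarith [sq_nonneg (ψ (x + st i) + ψ x)]
  have h5 : ∑ x ∈ D, ∑ i, 2 * (ψ (x + st i)) ^ 2 = 2 * ∑ x ∈ D, ∑ i, (ψ (x + st i)) ^ 2 := by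
    rw [Finset.mul_sum]
    refine Finset.sum_congr rfl fun x _ => ?_
    rw [Finset.mul_sum]
  have h6 : ∑ x ∈ D, ∑ _i : Fin 6, 2 * (ψ x) ^ 2 = 2 * ∑ x ∈ D, ∑ _i : Fin 6, (ψ x) ^ 2 := by
    rw [Finset.mul_sum]
    refine Finset.sum_congr rfl fun x _ => ?_
    rw [Finset.mul_sum]
  unfold EG
  rw [h5, h6, h2] at h4
  rw [h1, h2] at h3
  linarith
/- END cla -/

/- MODULE clb
The upper bound: `FG D b ψ h = Ln D b t h + const` with `t x i = (ψ x - ψ (x + st i)) / 2` if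
`x + st i ∈ D` and `t x i = ψ x - ψ (x + st i)` if not; `∑ t ^ 2 ≤ 2 EG`; then `var_main`, `var_of`. -/
private theorem clb_swap (D : Finset (ℤ × ℤ)) (G : ℤ × ℤ → ℤ × ℤ → ℝ) :
    ∑ x ∈ D, ∑ i : Fin 6, (if x + st i ∈ D then G x (x + st i) else 0) =
      ∑ x ∈ D, ∑ i : Fin 6, (if x + st i ∈ D then G (x + st i) x else 0) := by
  have h1 := cla_shift (D := D) (fun x y => if x ∈ D ∧ y ∈ D then G x y else 0)
    (fun x y hy => by simp [hy])
  have h2 : ∑ x ∈ nb D, ∑ i : Fin 6, (if x ∈ D ∧ x + st i ∈ D then G x (x + st i) else 0) =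
      ∑ x ∈ D, ∑ i : Fin 6, (if x + st i ∈ D then G x (x + st i) else 0) := by
    have h3 : ∑ x ∈ D, ∑ i : Fin 6, (if x + st i ∈ D then G x (x + st i) else 0) =
        ∑ x ∈ D, ∑ i : Fin 6, (if x ∈ D ∧ x + st i ∈ D then G x (x + st i) else 0) := by
      refine Finset.sum_congr rfl fun x hx => Finset.sum_congr rfl fun i _ => ?_
      simp [hx]
    rw [h3]
    symm
    refine Finset.sum_subset (cla_sub_nb D) fun x _ hx => ?_
    simp [hx]
  have h4 : ∑ y ∈ D, ∑ i : Fin 6, (if y + st i ∈ D ∧ y ∈ D then G (y + st i) y else 0) =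
      ∑ x ∈ D, ∑ i : Fin 6, (if x + st i ∈ D then G (x + st i) x else 0) := by
    refine Finset.sum_congr rfl fun x hx => Finset.sum_congr rfl fun i _ => ?_
    simp [hx]
  rw [h2, h4] at h1
  exact h1

theorem FG_flow {D : Finset (ℤ × ℤ)} (b : ℤ × ℤ → ℝ) {ψ : ℤ × ℤ → ℝ} (hψ : ∀ z ∉ D, ψ z = 0) :
    ∃ (t : ℤ × ℤ → Fin 6 → ℝ) (c : ℝ), (∀ h : D → ℝ, FG D b ψ h = Ln D b t h + c) ∧
      ∑ x ∈ D, ∑ i, (t x i) ^ 2 ≤ 2 * EG D ψ := by
  refine ⟨fun x i => if x + st i ∈ D then (ψ x - ψ (x + st i)) / 2 else ψ x - ψ (x + st i),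
    ∑ x ∈ D, ∑ i : Fin 6, (if x + st i ∈ D then 0 else (ψ x - ψ (x + st i)) * b (x + st i)),
    ?_, ?_⟩
  · intro h
    have h1 := clb_swap D (fun x y => (ψ x - ψ y) * gl D b h x)
    have h2 : FG D b ψ h - (Ln D b (fun x i => if x + st i ∈ D then (ψ x - ψ (x + st i)) / 2
        else ψ x - ψ (x + st i)) h + ∑ x ∈ D, ∑ i : Fin 6, (if x + st i ∈ D then 0 else
          (ψ x - ψ (x + st i)) * b (x + st i))) =
        (1 / 2) * (∑ x ∈ D, ∑ i : Fin 6, (if x + st i ∈ D then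
          (ψ x - ψ (x + st i)) * gl D b h x else 0) -
        ∑ x ∈ D, ∑ i : Fin 6, (if x + st i ∈ D then
          (ψ (x + st i) - ψ x) * gl D b h (x + st i) else 0)) := by
      unfold FG Ln Lap
      rw [← Finset.sum_add_distrib, ← Finset.sum_sub_distrib, ← Finset.sum_sub_distrib,
        Finset.mul_sum]
      refine Finset.sum_congr rfl fun x _ => ?_
      rw [Finset.sum_mul, ← Finset.sum_add_distrib, ← Finset.sum_sub_distrib,
        ← Finset.sum_sub_distrib, Finset.mul_sum]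
      refine Finset.sum_congr rfl fun i _ => ?_
      by_cases hi : x + st i ∈ D
      · simp only [if_pos hi]
        ring
      · simp only [if_neg hi]
        have h3 : gl D b h (x + st i) = b (x + st i) := by simp [gl, hi]
        rw [h3]
        ring
    rw [h1, sub_self, mul_zero] at h2
    linarith
  · have h1 : ∑ x ∈ D, ∑ i : Fin 6, (if x + st i ∈ D then (ψ x - ψ (x + st i)) / 2
        else ψ x - ψ (x + st i)) ^ 2 ≤ ∑ x ∈ D, ∑ i, (ψ (x + st i) - ψ x) ^ 2 := by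
      refine Finset.sum_le_sum fun x _ => Finset.sum_le_sum fun i _ => ?_
      split_ifs
      · nlinarith [sq_nonneg (ψ x - ψ (x + st i))]
      · nlinarith [sq_nonneg (ψ x - ψ (x + st i))]
    unfold EG
    simp only
    linarith

theorem FG_var_le : ∃ C : ℝ, 0 ≤ C ∧ ∀ (D : Finset (ℤ × ℤ)) (b : ℤ × ℤ → ℝ),
    (∀ z, |b z| ≤ 1 / 2) → ∀ ψ : ℤ × ℤ → ℝ, (∀ z ∉ D, ψ z = 0) →
      variance (FG D b ψ) (Mu D b) ≤ C * EG D ψ := by
  obtain ⟨C, hC, H⟩ := var_main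
  refine ⟨2 * C, by positivity, fun D b hb ψ hψ => ?_⟩
  obtain ⟨t, c, h1, h2⟩ := FG_flow b hψ
  have h3 := var_of H hb h1
  have h4 : C * ∑ x ∈ D, ∑ i, (t x i) ^ 2 ≤ C * (2 * EG D ψ) :=
    mul_le_mul_of_nonneg_left h2 hC
  unfold Mu
  linarith
/- END clb -/

/- MODULE clc
The derivatives of linear functions. -/
theorem FG_smooth (D : Finset (ℤ × ℤ)) (b : ℤ × ℤ → ℝ) (G : ℤ × ℤ → ℝ) :
    ContDiff ℝ ∞ (FG D b G) := by
  unfold FG
  exact ContDiff.sum fun x _ => contDiff_const.mul (gl_smooth D b x)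

theorem FG_pz (D : Finset (ℤ × ℤ)) (b : ℤ × ℤ → ℝ) (G : ℤ × ℤ → ℝ) {x : ℤ × ℤ} (hx : x ∈ D)
    (h : D → ℝ) : pz D x (FG D b G) h = Lap G x := by
  classical
  have h0 : FG D b G = fun h : D → ℝ => ∑ y : D, Lap G y.1 * h y := by
    funext k
    unfold FG
    rw [← Finset.sum_coe_sort]
    refine Finset.sum_congr rfl fun y _ => ?_
    simp [gl]
  unfold pz
  rw [dif_pos hx, h0]
  unfold pd
  have h1 : ∀ y : D, HasFDerivAt (fun k : D → ℝ => Lap G y.1 * k y)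
      (Lap G y.1 • ContinuousLinearMap.proj (R := ℝ) (φ := fun _ : D => ℝ) y) h := by
    intro y
    exact ((ContinuousLinearMap.proj (R := ℝ) (φ := fun _ : D => ℝ) y).hasFDerivAt).const_mul _
  have h2 := HasFDerivAt.fun_sum (u := (Finset.univ : Finset D)) (fun y _ => h1 y)
  rw [h2.fderiv]
  simp [Pi.single_apply]
/- END clc -/

/- MODULE cld
The energies of the field `rho` with averages, `U = Uo D`, in mean: `rho_energy`, `moment_one`;
`rho_diff_sum`, `moment`. -/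
private theorem cld_int {D : Finset (ℤ × ℤ)} {b : ℤ × ℤ → ℝ} (hb : ∀ z, |b z| ≤ 1 / 2)
    (ε : ℝ) (x : ℤ × ℤ) (p : ℕ) :
    Integrable (fun h : D → ℝ => ((Gx ε D (gl D b h) x).card : ℝ) ^ p) (Mu D b) := by
  have : IsProbabilityMeasure (Mu D b) := prob (D := D) hb
  refine Integrable.of_bound (C := (D.card : ℝ) ^ p)
    (Gx_fun_meas ε D b D x (fun F => (F.card : ℝ) ^ p)).aestronglyMeasurable ?_
  refine Filter.Eventually.of_forall fun h => ?_
  rw [Real.norm_eq_abs, abs_of_nonneg (by positivity)]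
  exact pow_le_pow_left₀ (by positivity) (by exact_mod_cast Gx_card_le ε D _ x) p

open scoped Classical in
private theorem cld_int' {D : Finset (ℤ × ℤ)} {b : ℤ × ℤ → ℝ} (hb : ∀ z, |b z| ≤ 1 / 2)
    (ε : ℝ) (x : ℤ × ℤ) (p : ℕ) :
    Integrable (fun h : D → ℝ => if Tx ε x (gl D b h) then
      ((Gx ε D (gl D b h) x).card : ℝ) ^ p else 0) (Mu D b) := by
  have : IsProbabilityMeasure (Mu D b) := prob (D := D) hb
  have hm : Measurable (fun h : D → ℝ => if Tx ε x (gl D b h) then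
      ((Gx ε D (gl D b h) x).card : ℝ) ^ p else 0) :=
    Measurable.ite (Tx_meas ε D b x) (Gx_fun_meas ε D b D x (fun F => (F.card : ℝ) ^ p))
      measurable_const
  refine Integrable.of_bound (C := (D.card : ℝ) ^ p) hm.aestronglyMeasurable ?_
  refine Filter.Eventually.of_forall fun h => ?_
  split_ifs
  · rw [Real.norm_eq_abs, abs_of_nonneg (by positivity)]
    exact pow_le_pow_left₀ (by positivity) (by exact_mod_cast Gx_card_le ε D _ x) p
  · rw [norm_zero]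
    positivity

private theorem cld_EG (D : Finset (ℤ × ℤ)) (ψ : ℤ × ℤ → ℝ) :
    ∑ y ∈ D, ∑ i, (ψ y - ψ (y + st i)) ^ 2 = 2 * EG D ψ := by
  unfold EG
  have h1 : ∑ y ∈ D, ∑ i, (ψ y - ψ (y + st i)) ^ 2 = ∑ x ∈ D, ∑ i, (ψ (x + st i) - ψ x) ^ 2 := by
    refine Finset.sum_congr rfl fun x _ => Finset.sum_congr rfl fun i _ => ?_
    ring
  rw [h1]
  ring

theorem rho_mean_energy : ∃ ε₀ > 0, ∀ ε, 0 < ε → ε ≤ ε₀ → ∃ C : ℝ, 0 ≤ C ∧
    ∀ (D : Finset (ℤ × ℤ)) (b : ℤ × ℤ → ℝ), (∀ z, |b z| ≤ 1 / 2) → ∀ ψ : ℤ × ℤ → ℝ,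
      (∀ z ∉ D, ψ z = 0) →
      ∫ h, ∑ x ∈ D, ∑ y ∈ D, (pz D y (fun h => rho ε (Uo D) D (Mav ψ) x (gl D b h)) h) ^ 2
        ∂(Mu D b) ≤ C * EG D ψ := by
  refine ⟨1 / 2 ^ 48, by norm_num, fun ε h0 h1 => ?_⟩
  have h2 : ε ≤ 1 / 2 := h1.trans (by norm_num)
  obtain ⟨C, hC, HC⟩ := qs_bound h0 h2
  obtain ⟨C3, hC3, H3⟩ := moment_one 3
  refine ⟨96768 * C ^ 2 * ((1 + C3 * ε) * 2), by positivity, fun D b hb ψ hψ => ?_⟩
  have hi : ∀ y ∈ D, Integrable (fun h : D → ℝ => (∑ i, (ψ y - ψ (y + st i)) ^ 2) *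
      ((Gx ε D (gl D b h) y).card : ℝ) ^ 3) (Mu D b) := fun y _ => (cld_int hb ε y 3).const_mul _
  have h5 : ∫ h, ∑ x ∈ D, ∑ y ∈ D,
      (pz D y (fun h => rho ε (Uo D) D (Mav ψ) x (gl D b h)) h) ^ 2 ∂(Mu D b) ≤
      ∫ h, 96768 * C ^ 2 * ∑ y ∈ D, (∑ i, (ψ y - ψ (y + st i)) ^ 2) *
        ((Gx ε D (gl D b h) y).card : ℝ) ^ 3 ∂(Mu D b) := by
    refine integral_mono_of_nonneg ?_ ((integrable_finsetSum _ hi).const_mul _) ?_
    · refine Filter.Eventually.of_forall fun h => ?_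
      exact Finset.sum_nonneg fun x _ => Finset.sum_nonneg fun y _ => sq_nonneg _
    · refine Filter.Eventually.of_forall fun h => ?_
      exact rho_energy h0 h2 (fun z => (HC z).1) (Mav_mean ψ) ⟨subset_rfl, Or.inl hψ⟩ D b h
  have h6 : ∫ h, 96768 * C ^ 2 * ∑ y ∈ D, (∑ i, (ψ y - ψ (y + st i)) ^ 2) *
        ((Gx ε D (gl D b h) y).card : ℝ) ^ 3 ∂(Mu D b) ≤
      96768 * C ^ 2 * ∑ y ∈ D, (∑ i, (ψ y - ψ (y + st i)) ^ 2) * (1 + C3 * ε) := by
    rw [integral_const_mul, integral_finsetSum _ hi]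
    refine mul_le_mul_of_nonneg_left ?_ (by positivity)
    refine Finset.sum_le_sum fun y hy => ?_
    rw [integral_const_mul]
    exact mul_le_mul_of_nonneg_left (H3 D D subset_rfl b hb ε h0 h1 y hy)
      (Finset.sum_nonneg fun i _ => sq_nonneg _)
  rw [← Finset.sum_mul, cld_EG] at h6
  refine (h5.trans h6).trans (le_of_eq ?_)
  ring

theorem rho_mean_diff : ∃ C ε₀ : ℝ, 0 ≤ C ∧ 0 < ε₀ ∧ ∀ ε, 0 < ε → ε ≤ ε₀ →
    ∀ (D : Finset (ℤ × ℤ)) (b : ℤ × ℤ → ℝ), (∀ z, |b z| ≤ 1 / 2) → ∀ ψ : ℤ × ℤ → ℝ,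
      (∀ z ∉ D, ψ z = 0) →
      ∫ h, ∑ x ∈ D, (rho ε (Uo D) D (Mav ψ) x (gl D b h) - ψ x) ^ 2 ∂(Mu D b) ≤
        C * ε * EG D ψ := by
  classical
  obtain ⟨C2, hC2, H2⟩ := moment 2
  refine ⟨48 * C2, 1 / 2 ^ 48, by positivity, by norm_num, fun ε h0 h1 D b hb ψ hψ => ?_⟩
  have h2 : ε ≤ 1 / 2 := h1.trans (by norm_num)
  have hi : ∀ y ∈ D, Integrable (fun h : D → ℝ => (∑ i, (ψ y - ψ (y + st i)) ^ 2) *
      (if Tx ε y (gl D b h) then ((Gx ε D (gl D b h) y).card : ℝ) ^ 2 else 0)) (Mu D b) :=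
    fun y _ => (cld_int' hb ε y 2).const_mul _
  have h5 : ∫ h, ∑ x ∈ D, (rho ε (Uo D) D (Mav ψ) x (gl D b h) - ψ x) ^ 2 ∂(Mu D b) ≤
      ∫ h, 24 * ∑ y ∈ D, (∑ i, (ψ y - ψ (y + st i)) ^ 2) *
      (if Tx ε y (gl D b h) then ((Gx ε D (gl D b h) y).card : ℝ) ^ 2 else 0) ∂(Mu D b) := by
    refine integral_mono_of_nonneg ?_ ((integrable_finsetSum _ hi).const_mul _) ?_
    · refine Filter.Eventually.of_forall fun h => ?_
      exact Finset.sum_nonneg fun x _ => sq_nonneg _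
    · refine Filter.Eventually.of_forall fun h => ?_
      exact rho_diff_sum h0 h2 (Mav_mean ψ) ⟨subset_rfl, Or.inl hψ⟩ (gl D b h)
  have h6 : ∫ h, 24 * ∑ y ∈ D, (∑ i, (ψ y - ψ (y + st i)) ^ 2) *
      (if Tx ε y (gl D b h) then ((Gx ε D (gl D b h) y).card : ℝ) ^ 2 else 0) ∂(Mu D b) ≤
      24 * ∑ y ∈ D, (∑ i, (ψ y - ψ (y + st i)) ^ 2) * (C2 * ε) := by
    rw [integral_const_mul, integral_finsetSum _ hi]
    refine mul_le_mul_of_nonneg_left ?_ (by norm_num)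
    refine Finset.sum_le_sum fun y hy => ?_
    rw [integral_const_mul]
    exact mul_le_mul_of_nonneg_left (H2 D D subset_rfl b hb ε h0 h1 y hy)
      (Finset.sum_nonneg fun i _ => sq_nonneg _)
  rw [← Finset.sum_mul, cld_EG] at h6
  refine (h5.trans h6).trans (le_of_eq ?_)
  ring
/- END cld -/

/- MODULE cle
The lower bound: `cramer_rao` with `w x = rho ε (Uo D) D (Mav ψ) x` (`rho_nice`), `F = FG D b ψ`;
`∫ ∑ w x * Lap ψ x = ∑ (E w x) Lap ψ x ≥ ∑ ψ x Lap ψ x - |∑ (E w x - ψ x) Lap ψ x|`, `lap_cs`,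
`EG_le`, `(E (w x - ψ x))^2 ≤ E (w x - ψ x)^2`. -/
private theorem cle_real {E Q D' : ℝ} (hE : 0 ≤ E) (hQ : E ≤ Q) {d : ℝ} (hd : d ^ 2 ≤ 4 * D' * E)
    (hD : D' ≤ E / 16) : E / 2 ≤ Q + d := by
  have h1 : d ^ 2 ≤ (E / 2) ^ 2 := by nlinarith
  have h2 := abs_le_of_sq_le_sq' h1 (by linarith)
  linarith [h2.1]

theorem FG_var_ge : ∃ c : ℝ, 0 < c ∧ ∀ (D : Finset (ℤ × ℤ)) (b : ℤ × ℤ → ℝ),
    (∀ z, |b z| ≤ 1 / 2) → ∀ ψ : ℤ × ℤ → ℝ, (∀ z ∉ D, ψ z = 0) →
      c * EG D ψ ≤ variance (FG D b ψ) (Mu D b) := by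
  obtain ⟨ε₁, hε₁, H1⟩ := rho_mean_energy
  obtain ⟨C2, ε₂, hC2, hε₂, H2⟩ := rho_mean_diff
  obtain ⟨ε, hε0, hεh, hεa, hεb, hεc⟩ : ∃ ε : ℝ, 0 < ε ∧ ε ≤ 1 / 2 ∧ ε ≤ ε₁ ∧ ε ≤ ε₂ ∧
      C2 * ε ≤ 1 / 192 := by
    refine ⟨min (min (1 / 2) ε₁) (min ε₂ (1 / (192 * (C2 + 1)))), ?_, ?_, ?_, ?_, ?_⟩
    · positivity
    · exact (min_le_left _ _).trans (min_le_left _ _)
    · exact (min_le_left _ _).trans (min_le_right _ _)
    · exact (min_le_right _ _).trans (min_le_left _ _)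
    · have h1 : min (min (1 / 2) ε₁) (min ε₂ (1 / (192 * (C2 + 1)))) ≤ 1 / (192 * (C2 + 1)) :=
        (min_le_right _ _).trans (min_le_right _ _)
      calc C2 * min (min (1 / 2) ε₁) (min ε₂ (1 / (192 * (C2 + 1)))) ≤
          C2 * (1 / (192 * (C2 + 1))) := mul_le_mul_of_nonneg_left h1 hC2
        _ ≤ 1 / 192 := by
          rw [mul_one_div, div_le_div_iff₀ (by positivity) (by norm_num)]
          nlinarith
  obtain ⟨C, hC, HC⟩ := H1 ε hε0 hεa
  refine ⟨1 / (4 * (C + 1)), by positivity, fun D b hb ψ hψ => ?_⟩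
  have hP : IsProbabilityMeasure (Mu D b) := prob hb
  set w : ℤ × ℤ → (D → ℝ) → ℝ := fun x h => rho ε (Uo D) D (Mav ψ) x (gl D b h) with hw
  have hn : Nice D b w := rho_nice hε0 hεh (Finset.Subset.refl D) b (Mav ψ)
  have hE := EG_nonneg D ψ
  have hcr := cramer_rao hb hn (FG_smooth D b ψ)
  have hen := HC D b hb ψ hψ
  have hdf := H2 ε hε0 hεb D b hb ψ hψ
  have hi : ∀ x, Integrable (w x) (Mu D b) := fun x => int_K hb (hn.sm x).continuous
  -- the linear term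
  have hlin : ∫ h, ∑ x ∈ D, w x h * pz D x (FG D b ψ) h ∂(Mu D b) =
      ∑ x ∈ D, (∫ h, w x h ∂(Mu D b)) * Lap ψ x := by
    have e1 : ∀ h : D → ℝ, ∑ x ∈ D, w x h * pz D x (FG D b ψ) h = ∑ x ∈ D, w x h * Lap ψ x :=
      fun h => Finset.sum_congr rfl fun x hx => by rw [FG_pz D b ψ hx h]
    simp_rw [e1]
    rw [integral_finsetSum _ fun x _ => (hi x).mul_const _]
    exact Finset.sum_congr rfl fun x _ => integral_mul_const _ _
  set φ : ℤ × ℤ → ℝ := fun x => (∫ h, w x h ∂(Mu D b)) - ψ x with hφ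
  have hφ0 : ∀ z ∉ D, φ z = 0 := by
    intro z hz
    have : ∀ h : D → ℝ, w z h = 0 := hn.off z hz
    simp only [hφ, this, integral_zero, hψ z hz, sub_zero]
  have hsplit : ∑ x ∈ D, (∫ h, w x h ∂(Mu D b)) * Lap ψ x =
      ∑ x ∈ D, ψ x * Lap ψ x + ∑ x ∈ D, φ x * Lap ψ x := by
    rw [← Finset.sum_add_distrib]
    refine Finset.sum_congr rfl fun x _ => ?_
    simp only [hφ]
    ring
  -- EG φ is small
  have hφE : EG D φ ≤ EG D ψ / 16 := by
    refine (EG_le hφ0).trans ?_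
    have h1 : ∑ x ∈ D, (φ x) ^ 2 ≤ ∫ h, ∑ x ∈ D, (w x h - ψ x) ^ 2 ∂(Mu D b) := by
      have hi2 : ∀ x, Integrable (fun h => (w x h - ψ x) ^ 2) (Mu D b) := fun x =>
        int_K hb (((hn.sm x).continuous.sub continuous_const).pow 2)
      rw [integral_finsetSum _ fun x _ => hi2 x]
      refine Finset.sum_le_sum fun x _ => ?_
      have h2 : φ x = ∫ h, (w x h - ψ x) ∂(Mu D b) := by
        rw [integral_sub (hi x) (integrable_const _)]
        simp [hφ]
      rw [h2]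
      have hm : MemLp (fun h => w x h - ψ x) 2 (Mu D b) :=
        memLp_K hb ((hn.sm x).continuous.sub continuous_const)
      have hv := variance_nonneg (fun h => w x h - ψ x) (Mu D b)
      rw [variance_eq_sub hm] at hv
      have e : (∫ h, ((fun h => w x h - ψ x) ^ 2) h ∂(Mu D b)) =
          ∫ h, (w x h - ψ x) ^ 2 ∂(Mu D b) := rfl
      rw [e] at hv
      linarith
    have h3 : 12 * ∑ x ∈ D, (φ x) ^ 2 ≤ 12 * (C2 * ε * EG D ψ) := by linarith
    refine h3.trans ?_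
    nlinarith
  have hkey := cle_real hE (lap_ge hψ) (lap_cs hφ0 hψ) hφE
  rw [hlin, hsplit] at hcr
  have hvar := variance_nonneg (FG D b ψ) (Mu D b)
  set V := variance (FG D b ψ) (Mu D b) with hV
  set Q := ∑ x ∈ D, ψ x * Lap ψ x + ∑ x ∈ D, φ x * Lap ψ x with hQ
  have h5 : (EG D ψ / 2) ^ 2 ≤ Q ^ 2 := by
    have : 0 ≤ EG D ψ / 2 := by linarith
    exact pow_le_pow_left₀ this hkey 2
  have h6 : (EG D ψ / 2) ^ 2 ≤ V * ((C + 1) * EG D ψ) := by
    refine h5.trans (hcr.trans (mul_le_mul_of_nonneg_left (hen.trans ?_) hvar))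
    nlinarith
  rw [div_mul_eq_mul_div, one_mul, div_le_iff₀ (by positivity)]
  rcases hE.eq_or_lt with h0 | h0
  · rw [← h0]
    positivity
  · have h7 : EG D ψ * (EG D ψ / 4) ≤ EG D ψ * (V * (C + 1)) := by nlinarith
    have h8 := le_of_mul_le_mul_left h7 h0
    linarith
/- END cle -/

/- MODULE clf
The Poisson problem: the linear map `ψ ↦ Lap ψ` on functions which vanish off `D` is injective
(`Lap ψ = 0` on `D` gives `EG = 0` by `lap_ge`, so `ψ` is constant along every line until it leaves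
`D`), hence surjective (finite dimension). -/
private def clf_e (D : Finset (ℤ × ℤ)) (f : D → ℝ) (z : ℤ × ℤ) : ℝ :=
  if hz : z ∈ D then f ⟨z, hz⟩ else 0

private theorem clf_off {D : Finset (ℤ × ℤ)} (f : D → ℝ) : ∀ z ∉ D, clf_e D f z = 0 := by
  intro z hz
  unfold clf_e
  rw [dif_neg hz]

private theorem clf_add (D : Finset (ℤ × ℤ)) (f g : D → ℝ) (z : ℤ × ℤ) :
    clf_e D (f + g) z = clf_e D f z + clf_e D g z := by
  unfold clf_e
  split_ifs with hz
  · rfl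
  · simp

private theorem clf_smul (D : Finset (ℤ × ℤ)) (c : ℝ) (f : D → ℝ) (z : ℤ × ℤ) :
    clf_e D (c • f) z = c * clf_e D f z := by
  unfold clf_e
  split_ifs with hz
  · rfl
  · simp

private def clf_T (D : Finset (ℤ × ℤ)) : (D → ℝ) →ₗ[ℝ] (D → ℝ) where
  toFun f := fun x => Lap (clf_e D f) x
  map_add' f g := by
    funext x
    show Lap (clf_e D (f + g)) x = Lap (clf_e D f) x + Lap (clf_e D g) x
    unfold Lap
    rw [← Finset.sum_add_distrib]
    refine Finset.sum_congr rfl fun i _ => ?_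
    rw [clf_add, clf_add]
    ring
  map_smul' c f := by
    funext x
    show Lap (clf_e D (c • f)) x = c * Lap (clf_e D f) x
    unfold Lap
    rw [Finset.mul_sum]
    refine Finset.sum_congr rfl fun i _ => ?_
    rw [clf_smul, clf_smul]
    ring

private theorem clf_zero {D : Finset (ℤ × ℤ)} {ψ : ℤ × ℤ → ℝ} (hψ : ∀ z ∉ D, ψ z = 0)
    (h : ∀ x ∈ D, Lap ψ x = 0) : ∀ z, ψ z = 0 := by
  classical
  have h1 := lap_ge hψ
  have h2 : ∑ x ∈ D, ψ x * Lap ψ x = 0 := Finset.sum_eq_zero fun x hx => by rw [h x hx, mul_zero]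
  have h3 := EG_nonneg D ψ
  have h4 : EG D ψ = 0 := le_antisymm (h1.trans h2.le) h3
  have h5 : ∑ x ∈ D, ∑ i, (ψ (x + st i) - ψ x) ^ 2 = 0 := by
    unfold EG at h4
    linarith
  have h6 : ∀ x ∈ D, ∀ i, ψ (x + st i) = ψ x := by
    intro x hx i
    have h7 := (Finset.sum_eq_zero_iff_of_nonneg (fun x _ =>
      Finset.sum_nonneg fun i _ => sq_nonneg _)).1 h5 x hx
    have h8 := (Finset.sum_eq_zero_iff_of_nonneg (fun i _ => sq_nonneg _)).1 h7 i
      (Finset.mem_univ i)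
    have h9 := pow_eq_zero_iff (two_ne_zero) |>.1 h8
    linarith
  by_contra hne
  push Not at hne
  obtain ⟨z, hz⟩ := hne
  have hzD : z ∈ D.filter (fun z => ψ z ≠ 0) := by
    rw [Finset.mem_filter]
    refine ⟨?_, hz⟩
    by_contra hD
    exact hz (hψ z hD)
  obtain ⟨m, hm, hmax⟩ := Finset.exists_max_image (D.filter (fun z => ψ z ≠ 0))
    (fun z => z.1) ⟨z, hzD⟩
  rw [Finset.mem_filter] at hm
  have h7 := h6 m hm.1 0
  have h8 : ψ (m + st 0) ≠ 0 := by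
    rw [h7]
    exact hm.2
  have h9 : m + st 0 ∈ D.filter (fun z => ψ z ≠ 0) := by
    rw [Finset.mem_filter]
    refine ⟨?_, h8⟩
    by_contra hD
    exact h8 (hψ _ hD)
  have h10 := hmax _ h9
  have h11 : (m + st 0).1 = m.1 + 1 := rfl
  omega

theorem poisson (D : Finset (ℤ × ℤ)) (a : ℤ × ℤ → ℝ) :
    ∃ ψ : ℤ × ℤ → ℝ, (∀ z ∉ D, ψ z = 0) ∧ ∀ x ∈ D, Lap ψ x = a x := by
  have hinj : Function.Injective (clf_T D) := by
    rw [← LinearMap.ker_eq_bot, LinearMap.ker_eq_bot']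
    intro f hf
    have h1 := clf_zero (clf_off f) (fun x hx => congrFun hf ⟨x, hx⟩)
    funext x
    have h2 := h1 x
    unfold clf_e at h2
    rw [dif_pos x.2] at h2
    exact h2
  obtain ⟨f, hf⟩ := LinearMap.injective_iff_surjective.1 hinj (fun x => a x)
  exact ⟨clf_e D f, clf_off f, fun x hx => congrFun hf ⟨x, hx⟩⟩

/-- the dual form: `poisson`, `lap_cs`, `FG_var_ge` -/
theorem dual_ge : ∃ C : ℝ, 0 ≤ C ∧ ∀ (D : Finset (ℤ × ℤ)) (b : ℤ × ℤ → ℝ),
    (∀ z, |b z| ≤ 1 / 2) → ∀ a φ : ℤ × ℤ → ℝ, (∀ z ∉ D, φ z = 0) →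
      (∑ x ∈ D, a x * φ x) ^ 2 ≤
        C * EG D φ * variance (fun h : D → ℝ => ∑ x ∈ D, a x * gl D b h x) (Mu D b) := by
  obtain ⟨c, hc, H⟩ := FG_var_ge
  refine ⟨4 / c, by positivity, ?_⟩
  intro D b hb a φ hφ
  obtain ⟨ψ, hψ0, hψ⟩ := poisson D a
  have h1 : (fun h : D → ℝ => ∑ x ∈ D, a x * gl D b h x) = FG D b ψ := by
    funext h
    unfold FG
    exact Finset.sum_congr rfl fun x hx => by rw [hψ x hx]
  have h2 : ∑ x ∈ D, a x * φ x = ∑ x ∈ D, φ x * Lap ψ x :=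
    Finset.sum_congr rfl fun x hx => by rw [hψ x hx, mul_comm]
  rw [h1, h2]
  have h3 := lap_cs hφ hψ0
  have h4 := H D b hb ψ hψ0
  have h5 := EG_nonneg D φ
  have h6 : EG D ψ ≤ variance (FG D b ψ) (Mu D b) / c := by
    rw [le_div_iff₀ hc]
    linarith
  calc (∑ x ∈ D, φ x * Lap ψ x) ^ 2 ≤ 4 * EG D φ * EG D ψ := h3
    _ ≤ 4 * EG D φ * (variance (FG D b ψ) (Mu D b) / c) :=
        mul_le_mul_of_nonneg_left h6 (by positivity)
    _ = _ := by ring
/- END clf -/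

/- MODULE clg
The logarithmic cut-off `φ z = max 0 (1 - log (1 + dn (z - x)) / log (R + 2))`: it is `1` at `x`, `0` if
`dn (z - x) ≥ R + 1`, its increments along the edges at `z` are at most
`1 / (max 1 (dn (z - x)) * log (R + 2))`, and there are at most `6 r` sites at distance `r`
(`r ≥ 1`). -/
private theorem clg_log {a b : ℝ} (ha : 0 ≤ a) (hb : 0 ≤ b) (hab : |b - a| ≤ 1) :
    |Real.log (1 + b) - Real.log (1 + a)| ≤ 2 / (a + 1) := by
  have key : ∀ u v : ℝ, 0 ≤ u → u ≤ v → v ≤ u + 1 →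
      Real.log (1 + v) - Real.log (1 + u) ≤ 1 / (1 + u) := by
    intro u v hu huv hv
    rw [← Real.log_div (by linarith) (by linarith)]
    have h1 := Real.log_le_sub_one_of_pos (x := (1 + v) / (1 + u)) (by
      apply div_pos <;> linarith)
    refine h1.trans ?_
    rw [div_sub_one (by linarith)]
    refine div_le_div_of_nonneg_right ?_ (by linarith)
    linarith
  have hmono : ∀ u v : ℝ, 0 ≤ u → u ≤ v → Real.log (1 + u) ≤ Real.log (1 + v) := fun u v hu huv =>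
    Real.log_le_log (by linarith) (by linarith)
  rw [abs_le] at hab
  rcases le_total a b with h | h
  · rw [abs_of_nonneg (sub_nonneg.2 (hmono a b ha h))]
    refine (key a b ha h (by linarith [hab.2])).trans ?_
    rw [add_comm]
    exact div_le_div_of_nonneg_right (by norm_num) (by linarith)
  · rw [abs_of_nonpos (sub_nonpos.2 (hmono b a hb h)), neg_sub]
    refine (key b a hb h (by linarith [hab.1])).trans ?_
    rw [div_le_div_iff₀ (by linarith) (by linarith)]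
    linarith [hab.1]

private theorem clg_card (x : ℤ × ℤ) (D : Finset (ℤ × ℤ)) (k : ℕ) :
    (D.filter (fun z => (dn (z - x)).toNat = k)).card ≤ 12 * (k + 1) := by
  classical
  have h1 : D.filter (fun z => (dn (z - x)).toNat = k) ⊆
      ((Finset.Icc (-(k : ℤ)) k) ×ˢ (Finset.univ : Finset (Fin 6))).image (fun q =>
        x + (![((k : ℤ), q.1), (-(k : ℤ), q.1), (q.1, (k : ℤ)), (q.1, -(k : ℤ)),
          (q.1, (k : ℤ) - q.1), (q.1, -(k : ℤ) - q.1)] q.2 : ℤ × ℤ)) := by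
    intro z hz
    rw [Finset.mem_filter] at hz
    have h2 : dn (z - x) = k := by
      have := dn_nonneg (z - x)
      omega
    obtain ⟨p, hp⟩ : ∃ p, z - x = p := ⟨_, rfl⟩
    have hzp : z = x + p := by rw [← hp]; abel
    rw [hp] at h2
    rw [Finset.mem_image]
    unfold dn at h2
    have hp1 : |p.1| ≤ k := h2 ▸ le_max_left _ _
    have hp2 : |p.2| ≤ k := h2 ▸ (le_max_left _ _).trans (le_max_right _ _)
    have hp3 : |p.1 + p.2| ≤ k := h2 ▸ (le_max_right _ _).trans (le_max_right _ _)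
    rw [abs_le] at hp1 hp2 hp3
    have hor : p.1 = k ∨ p.1 = -(k : ℤ) ∨ p.2 = k ∨ p.2 = -(k : ℤ) ∨ p.1 + p.2 = k ∨
        p.1 + p.2 = -(k : ℤ) := by
      rcases max_choice |p.1| (max |p.2| |p.1 + p.2|) with h | h
      · rw [h] at h2
        rcases abs_choice p.1 with g | g <;> omega
      · rw [h] at h2
        rcases max_choice |p.2| |p.1 + p.2| with h' | h'
        · rw [h'] at h2
          rcases abs_choice p.2 with g | g <;> omega
        · rw [h'] at h2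
          rcases abs_choice (p.1 + p.2) with g | g <;> omega
    have hq1 : p.1 ∈ Finset.Icc (-(k : ℤ)) k := Finset.mem_Icc.2 hp1
    have hq2 : p.2 ∈ Finset.Icc (-(k : ℤ)) k := Finset.mem_Icc.2 hp2
    rcases hor with h | h | h | h | h | h
    · refine ⟨(p.2, 0), Finset.mem_product.2 ⟨hq2, Finset.mem_univ _⟩, ?_⟩
      rw [hzp]
      congr 1
      exact Prod.ext h.symm rfl
    · refine ⟨(p.2, 1), Finset.mem_product.2 ⟨hq2, Finset.mem_univ _⟩, ?_⟩
      rw [hzp]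
      congr 1
      exact Prod.ext h.symm rfl
    · refine ⟨(p.1, 2), Finset.mem_product.2 ⟨hq1, Finset.mem_univ _⟩, ?_⟩
      rw [hzp]
      congr 1
      exact Prod.ext rfl h.symm
    · refine ⟨(p.1, 3), Finset.mem_product.2 ⟨hq1, Finset.mem_univ _⟩, ?_⟩
      rw [hzp]
      congr 1
      exact Prod.ext rfl h.symm
    · refine ⟨(p.1, 4), Finset.mem_product.2 ⟨hq1, Finset.mem_univ _⟩, ?_⟩
      rw [hzp]
      congr 1
      refine Prod.ext rfl ?_
      show (k : ℤ) - p.1 = p.2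
      omega
    · refine ⟨(p.1, 5), Finset.mem_product.2 ⟨hq1, Finset.mem_univ _⟩, ?_⟩
      rw [hzp]
      congr 1
      refine Prod.ext rfl ?_
      show -(k : ℤ) - p.1 = p.2
      omega
  refine (Finset.card_le_card h1).trans (Finset.card_image_le.trans ?_)
  rw [Finset.card_product, Finset.card_univ, Fintype.card_fin, Int.card_Icc]
  omega

theorem log_cut : ∃ C : ℝ, 0 ≤ C ∧ ∀ (x : ℤ × ℤ) (R : ℕ), 1 ≤ R → ∀ D : Finset (ℤ × ℤ),
    (∀ z, dn (z - x) ≤ R → z ∈ D) → ∃ φ : ℤ × ℤ → ℝ, φ x = 1 ∧ (∀ z ∉ D, φ z = 0) ∧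
      EG D φ * Real.log (R + 1) ≤ C := by
  classical
  refine ⟨288, by norm_num, ?_⟩
  intro x R hR D hD
  have hR1 : (1 : ℝ) ≤ R := by exact_mod_cast hR
  set L : ℝ := Real.log ((R : ℝ) + 2) with hL
  have hL1 : 1 ≤ L := by
    rw [hL, Real.le_log_iff_exp_le (by linarith)]
    have := Real.exp_one_lt_d9
    linarith
  have hL0 : 0 < L := by linarith
  have hdn0 : ∀ z, (0 : ℝ) ≤ (dn (z - x) : ℝ) := fun z => by exact_mod_cast dn_nonneg _
  set φ : ℤ × ℤ → ℝ := fun z => max 0 (1 - Real.log (1 + (dn (z - x) : ℝ)) / L) with hφ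
  have hfar : ∀ z, (R : ℤ) + 1 ≤ dn (z - x) → φ z = 0 := by
    intro z hz
    rw [hφ]
    refine max_eq_left ?_
    have h1 : (R : ℝ) + 1 ≤ (dn (z - x) : ℝ) := by exact_mod_cast hz
    have h2 : L ≤ Real.log (1 + (dn (z - x) : ℝ)) := Real.log_le_log (by linarith) (by linarith)
    have h3 : 1 ≤ Real.log (1 + (dn (z - x) : ℝ)) / L := by
      rw [le_div_iff₀ hL0, one_mul]
      exact h2
    linarith
  refine ⟨φ, ?_, ?_, ?_⟩
  · show max 0 (1 - Real.log (1 + (dn (x - x) : ℝ)) / L) = 1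
    rw [sub_self, show dn 0 = 0 from (dn_zero_iff 0).2 rfl]
    simp
  · intro z hz
    refine hfar z ?_
    by_contra h
    exact hz (hD z (by omega))
  · -- one edge
    have hedge : ∀ z i, (φ (z + st i) - φ z) ^ 2 ≤ 4 / (((dn (z - x) : ℝ) + 1) ^ 2 * L ^ 2) := by
      intro z i
      have h1 : |(dn (z + st i - x) : ℝ) - (dn (z - x) : ℝ)| ≤ 1 := by
        have h2 := dn_step (z - x) i
        rw [show z - x + st i = z + st i - x by abel] at h2
        exact_mod_cast h2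
      have h2 := clg_log (hdn0 z) (hdn0 (z + st i)) h1
      have h3 : |φ (z + st i) - φ z| ≤ 2 / ((dn (z - x) : ℝ) + 1) / L := by
        have h4 : |φ (z + st i) - φ z| ≤ |(1 - Real.log (1 + (dn (z + st i - x) : ℝ)) / L) -
            (1 - Real.log (1 + (dn (z - x) : ℝ)) / L)| := by
          have hmx : ∀ u v : ℝ, |max 0 u - max 0 v| ≤ |u - v| := fun u v => by
            rw [max_comm 0 u, max_comm 0 v]
            exact abs_max_sub_max_le_abs u v 0
          exact hmx _ _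
        refine h4.trans ?_
        rw [show (1 - Real.log (1 + (dn (z + st i - x) : ℝ)) / L) -
            (1 - Real.log (1 + (dn (z - x) : ℝ)) / L) =
            -((Real.log (1 + (dn (z + st i - x) : ℝ)) - Real.log (1 + (dn (z - x) : ℝ))) / L) by
              ring, abs_neg, abs_div, abs_of_pos hL0]
        exact div_le_div_of_nonneg_right h2 hL0.le
      calc (φ (z + st i) - φ z) ^ 2 = |φ (z + st i) - φ z| ^ 2 := (sq_abs _).symm
        _ ≤ (2 / ((dn (z - x) : ℝ) + 1) / L) ^ 2 := by gcongr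
        _ = _ := by
          rw [div_div, div_pow, mul_pow]
          norm_num
    -- the sum
    have hsum : ∑ z ∈ D, ∑ i, (φ (z + st i) - φ z) ^ 2 ≤ 288 / L ^ 2 * (1 + L) := by
      have h1 : ∑ z ∈ D, ∑ i, (φ (z + st i) - φ z) ^ 2 =
          ∑ z ∈ D.filter (fun z => (dn (z - x)).toNat ∈ Finset.range (R + 2)),
            ∑ i, (φ (z + st i) - φ z) ^ 2 := by
        rw [Finset.sum_filter_of_ne]
        intro z _ hne
        by_contra hz
        apply hne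
        rw [Finset.mem_range, not_lt] at hz
        have h2 : (R : ℤ) + 2 ≤ dn (z - x) := by
          have := dn_nonneg (z - x)
          omega
        refine Finset.sum_eq_zero fun i _ => ?_
        have h3 := dn_step (z - x) i
        rw [show z - x + st i = z + st i - x by abel, abs_le] at h3
        rw [hfar z (by omega), hfar (z + st i) (by omega)]
        norm_num
      rw [h1, ← Finset.sum_fiberwise_of_maps_to (g := fun z => (dn (z - x)).toNat)
        (t := Finset.range (R + 2)) (fun z hz => (Finset.mem_filter.1 hz).2)]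
      have h2 : ∀ k ∈ Finset.range (R + 2),
          ∑ z ∈ (D.filter (fun z => (dn (z - x)).toNat ∈ Finset.range (R + 2))).filter
            (fun z => (dn (z - x)).toNat = k), ∑ i, (φ (z + st i) - φ z) ^ 2 ≤
          288 / L ^ 2 * ((k : ℝ) + 1)⁻¹ := by
        intro k _
        have h3 : ∀ z ∈ (D.filter (fun z => (dn (z - x)).toNat ∈ Finset.range (R + 2))).filter
            (fun z => (dn (z - x)).toNat = k), ∑ i, (φ (z + st i) - φ z) ^ 2 ≤
            24 / (((k : ℝ) + 1) ^ 2 * L ^ 2) := by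
          intro z hz
          have h4 := (Finset.mem_filter.1 hz).2
          have h5 : dn (z - x) = k := by
            have := dn_nonneg (z - x)
            omega
          calc ∑ i, (φ (z + st i) - φ z) ^ 2
              ≤ ∑ _i : Fin 6, 4 / (((dn (z - x) : ℝ) + 1) ^ 2 * L ^ 2) :=
                Finset.sum_le_sum fun i _ => hedge z i
            _ = 24 / (((k : ℝ) + 1) ^ 2 * L ^ 2) := by
                rw [h5, Finset.sum_const, Finset.card_univ, Fintype.card_fin, nsmul_eq_mul]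
                push_cast
                ring
        refine (Finset.sum_le_card_nsmul _ _ _ h3).trans ?_
        have h6 : (((D.filter (fun z => (dn (z - x)).toNat ∈ Finset.range (R + 2))).filter
            (fun z => (dn (z - x)).toNat = k)).card : ℝ) ≤ 12 * ((k : ℝ) + 1) := by
          have h7 := clg_card x (D.filter (fun z => (dn (z - x)).toNat ∈ Finset.range (R + 2))) k
          exact_mod_cast h7
        rw [nsmul_eq_mul]
        have hk : (0 : ℝ) < (k : ℝ) + 1 := by positivity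
        calc _ ≤ 12 * ((k : ℝ) + 1) * (24 / (((k : ℝ) + 1) ^ 2 * L ^ 2)) :=
              mul_le_mul_of_nonneg_right h6 (by positivity)
          _ = 288 / L ^ 2 * ((k : ℝ) + 1)⁻¹ := by
              field_simp
              norm_num
      refine (Finset.sum_le_sum h2).trans ?_
      rw [← Finset.mul_sum]
      refine mul_le_mul_of_nonneg_left ?_ (by positivity)
      have h3 := harmonic_le_one_add_log (R + 2)
      have h4 : ((harmonic (R + 2) : ℚ) : ℝ) = ∑ k ∈ Finset.range (R + 2), ((k : ℝ) + 1)⁻¹ := by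
        unfold harmonic
        push_cast
        rfl
      rw [h4] at h3
      push_cast at h3
      exact h3
    have hEG : EG D φ ≤ 144 / L ^ 2 * (1 + L) := by
      unfold EG
      have : 144 / L ^ 2 * (1 + L) = 1 / 2 * (288 / L ^ 2 * (1 + L)) := by ring
      rw [this]
      exact mul_le_mul_of_nonneg_left hsum (by norm_num)
    have hlog : Real.log ((R : ℝ) + 1) ≤ L := Real.log_le_log (by linarith) (by linarith)
    have hlog0 : 0 ≤ Real.log ((R : ℝ) + 1) := Real.log_nonneg (by linarith)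
    calc EG D φ * Real.log ((R : ℝ) + 1) ≤ 144 / L ^ 2 * (1 + L) * L := by
          gcongr
      _ = 144 * (1 + L) / L := by
          field_simp
      _ ≤ 288 := by
          rw [div_le_iff₀ hL0]
          nlinarith
/- END clg -/

end Pool.Agent.Hmk
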