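import Pool.Agent.Hmk.Gd

/-!
# Hmk, cluster fields (1): the cut-off in one gradient variable, multilinear extensions

`ml U Φ q` is the expectation of `Φ S` if the random set `S ⊆ U` contains `e` with probability `q e`,
independently.
-/

set_option autoImplicit false

open MeasureTheory Set Filter
open scoped ENNReal ContDiff Topology

noncomputable section

namespace Pool.Agent.Hmk

/-- cut-off in the gradient `z` : `0` for `|z| ≤ 1 - ε`, `1` for `|z| ≥ 1 - ε / 2` -/
def qs (ε z : ℝ) : ℝ :=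
  Real.smoothTransition ((z ^ 2 - (1 - ε) ^ 2) / ((1 - ε / 2) ^ 2 - (1 - ε) ^ 2))

/- MODULE cqa -/
private theorem cqa_d {f : ℝ → ℝ} {s : Set ℝ} {z c : ℝ} (hs : UniqueDiffWithinAt ℝ s z)
    (hf : DifferentiableAt ℝ f z) (hz : z ∈ s) (h : ∀ x ∈ s, f x = c) : deriv f z = 0 := by
  rw [← hf.derivWithin hs, derivWithin_congr (f := fun _ => c) h (h z hz)]
  exact (hasDerivWithinAt_const z s c).derivWithin hs

private theorem cqa_den {ε : ℝ} (h0 : 0 < ε) (h1 : ε ≤ 1 / 2) :
    0 < (1 - ε / 2) ^ 2 - (1 - ε) ^ 2 := by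
  nlinarith

private theorem cqa_set {ε z : ℝ} (h0 : 0 < ε) (h1 : ε ≤ 1 / 2)
    (hz : |z| ≤ 1 - ε ∨ 1 - ε / 2 ≤ |z|) : ∃ s : Set ℝ, UniqueDiffOn ℝ s ∧ z ∈ s ∧
      ((∀ x ∈ s, |x| ≤ 1 - ε) ∨ ∀ x ∈ s, 1 - ε / 2 ≤ |x|) := by
  rcases hz with hz | hz
  · refine ⟨Set.Icc (-(1 - ε)) (1 - ε), uniqueDiffOn_Icc (by linarith), ?_, Or.inl ?_⟩
    · exact abs_le.1 hz
    · intro x hx
      exact abs_le.2 hx
  · rcases le_abs.1 hz with h | h
    · refine ⟨Set.Ici (1 - ε / 2), uniqueDiffOn_Ici _, h, Or.inr ?_⟩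
      intro x hx
      exact le_trans hx (le_abs_self x)
    · refine ⟨Set.Iic (-(1 - ε / 2)), uniqueDiffOn_Iic _, ?_, Or.inr ?_⟩
      · show z ≤ _
        linarith
      · intro x hx
        have hx' : x ≤ -(1 - ε / 2) := hx
        have := neg_le_abs x
        linarith

theorem qs_smooth (ε : ℝ) : ContDiff ℝ ∞ (qs ε) := by
  unfold qs
  refine Real.smoothTransition.contDiff.comp ?_
  exact ((contDiff_id.pow 2).sub contDiff_const).div_const _

theorem qs_nonneg (ε z : ℝ) : 0 ≤ qs ε z := by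
  exact Real.smoothTransition.nonneg _

theorem qs_le_one (ε z : ℝ) : qs ε z ≤ 1 := by
  exact Real.smoothTransition.le_one _

theorem qs_even (ε z : ℝ) : qs ε (-z) = qs ε z := by
  unfold qs
  rw [neg_sq]

theorem qs_zero {ε z : ℝ} (h0 : 0 < ε) (h1 : ε ≤ 1 / 2) (hz : |z| ≤ 1 - ε) : qs ε z = 0 := by
  refine Real.smoothTransition.zero_of_nonpos ?_
  refine div_nonpos_of_nonpos_of_nonneg ?_ (cqa_den h0 h1).le
  have : z ^ 2 ≤ (1 - ε) ^ 2 := by
    rw [← sq_abs z]
    exact pow_le_pow_left₀ (abs_nonneg z) hz 2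
  linarith

theorem qs_one {ε z : ℝ} (h0 : 0 < ε) (h1 : ε ≤ 1 / 2) (hz : 1 - ε / 2 ≤ |z|) : qs ε z = 1 := by
  refine Real.smoothTransition.one_of_one_le ?_
  rw [le_div_iff₀ (cqa_den h0 h1)]
  have : (1 - ε / 2) ^ 2 ≤ z ^ 2 := by
    rw [← sq_abs z]
    exact pow_le_pow_left₀ (by linarith) hz 2
  linarith

/-- the derivative vanishes for `|z| ≤ 1 - ε` and for `|z| ≥ 1 - ε / 2` (a smooth function which is
constant on a closed interval or half line has derivative zero on it, end points included) -/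
theorem qs_deriv_zero {ε z : ℝ} (h0 : 0 < ε) (h1 : ε ≤ 1 / 2) (hz : |z| ≤ 1 - ε ∨ 1 - ε / 2 ≤ |z|) :
    deriv (qs ε) z = 0 := by
  obtain ⟨s, hs, hzs, h⟩ := cqa_set h0 h1 hz
  have hd : DifferentiableAt ℝ (qs ε) z := (qs_smooth ε).differentiable (by simp) z
  rcases h with h | h
  · exact cqa_d (c := 0) (hs z hzs) hd hzs fun x hx => qs_zero h0 h1 (h x hx)
  · exact cqa_d (c := 1) (hs z hzs) hd hzs fun x hx => qs_one h0 h1 (h x hx)

private theorem cqa_smooth1 (ε : ℝ) : ContDiff ℝ ∞ (deriv (qs ε)) :=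
  (contDiff_infty_iff_deriv.1 (qs_smooth ε)).2

private theorem cqa_smooth2 (ε : ℝ) : ContDiff ℝ ∞ (deriv (deriv (qs ε))) :=
  (contDiff_infty_iff_deriv.1 (cqa_smooth1 ε)).2

theorem qs_deriv2_zero {ε z : ℝ} (h0 : 0 < ε) (h1 : ε ≤ 1 / 2)
    (hz : |z| ≤ 1 - ε ∨ 1 - ε / 2 ≤ |z|) : deriv (deriv (qs ε)) z = 0 := by
  obtain ⟨s, hs, hzs, h⟩ := cqa_set h0 h1 hz
  have hd : DifferentiableAt ℝ (deriv (qs ε)) z :=
    (cqa_smooth1 ε).differentiable (by simp) z
  refine cqa_d (c := 0) (hs z hzs) hd hzs fun x hx => ?_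
  rcases h with h | h
  · exact qs_deriv_zero h0 h1 (Or.inl (h x hx))
  · exact qs_deriv_zero h0 h1 (Or.inr (h x hx))

/-- both derivatives are bounded: they are continuous and vanish for `|z| ≥ 1` -/
theorem qs_bound {ε : ℝ} (h0 : 0 < ε) (h1 : ε ≤ 1 / 2) :
    ∃ C : ℝ, 0 ≤ C ∧ ∀ z, |deriv (qs ε) z| ≤ C ∧ |deriv (deriv (qs ε)) z| ≤ C := by
  obtain ⟨C1, hC1⟩ := isCompact_Icc.exists_bound_of_continuousOn (s := Set.Icc (-1 : ℝ) 1)
    (cqa_smooth1 ε).continuous.continuousOn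
  obtain ⟨C2, hC2⟩ := isCompact_Icc.exists_bound_of_continuousOn (s := Set.Icc (-1 : ℝ) 1)
    (cqa_smooth2 ε).continuous.continuousOn
  refine ⟨max (max C1 C2) 0, le_max_right _ _, fun z => ?_⟩
  by_cases hz : |z| ≤ 1
  · have hz' : z ∈ Set.Icc (-1 : ℝ) 1 := abs_le.1 hz
    refine ⟨?_, ?_⟩
    · exact le_trans (hC1 z hz') (le_trans (le_max_left _ _) (le_max_left _ _))
    · exact le_trans (hC2 z hz') (le_trans (le_max_right _ _) (le_max_left _ _))
  · have hz' : 1 - ε / 2 ≤ |z| := by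
      have := not_le.1 hz
      linarith
    rw [qs_deriv_zero h0 h1 (Or.inr hz'), qs_deriv2_zero h0 h1 (Or.inr hz'), abs_zero]
    exact ⟨le_max_right _ _, le_max_right _ _⟩
/- END cqa -/

section ml

variable {E : Type*} [DecidableEq E]

/-- the multilinear extension -/
def ml (U : Finset E) (Φ : Finset E → ℝ) (q : E → ℝ) : ℝ :=
  ∑ S ∈ U.powerset, (∏ e ∈ S, q e) * (∏ e ∈ U \ S, (1 - q e)) * Φ S

/- MODULE cma
`Finset.prod_add` for `ml_const`; the other ones termwise. -/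
theorem ml_const (U : Finset E) (c : ℝ) (q : E → ℝ) : ml U (fun _ => c) q = c := by
  unfold ml
  rw [← Finset.sum_mul, ← Finset.prod_add]
  simp

theorem ml_add (U : Finset E) (Φ Ψ : Finset E → ℝ) (q : E → ℝ) :
    ml U (fun S => Φ S + Ψ S) q = ml U Φ q + ml U Ψ q := by
  unfold ml
  rw [← Finset.sum_add_distrib]
  exact Finset.sum_congr rfl fun S _ => by ring

theorem ml_sub (U : Finset E) (Φ Ψ : Finset E → ℝ) (q : E → ℝ) :
    ml U (fun S => Φ S - Ψ S) q = ml U Φ q - ml U Ψ q := by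
  unfold ml
  rw [← Finset.sum_sub_distrib]
  exact Finset.sum_congr rfl fun S _ => by ring

theorem ml_smul (U : Finset E) (c : ℝ) (Φ : Finset E → ℝ) (q : E → ℝ) :
    ml U (fun S => c * Φ S) q = c * ml U Φ q := by
  unfold ml
  rw [Finset.mul_sum]
  exact Finset.sum_congr rfl fun S _ => by ring

theorem ml_congr_q {U : Finset E} (Φ : Finset E → ℝ) {q q' : E → ℝ} (h : ∀ e ∈ U, q e = q' e) :
    ml U Φ q = ml U Φ q' := by
  unfold ml
  refine Finset.sum_congr rfl fun S hS => ?_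
  have hS' := Finset.mem_powerset.1 hS
  have h1 : ∏ e ∈ S, q e = ∏ e ∈ S, q' e := Finset.prod_congr rfl fun e he => h e (hS' he)
  have h2 : ∏ e ∈ U \ S, (1 - q e) = ∏ e ∈ U \ S, (1 - q' e) :=
    Finset.prod_congr rfl fun e he => by rw [h e (Finset.mem_sdiff.1 he).1]
  rw [h1, h2]

private theorem cma_zero {U S : Finset E} {q : E → ℝ}
    (h : ¬ ((∀ e ∈ S, q e ≠ 0) ∧ ∀ e ∈ U, q e = 1 → e ∈ S)) :
    (∏ e ∈ S, q e) * (∏ e ∈ U \ S, (1 - q e)) = 0 := by
  by_cases h1 : ∀ e ∈ S, q e ≠ 0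
  · have h2 : ¬ ∀ e ∈ U, q e = 1 → e ∈ S := fun h2 => h ⟨h1, h2⟩
    push Not at h2
    obtain ⟨e, he, hq, heS⟩ := h2
    rw [Finset.prod_eq_zero (s := U \ S) (i := e) (Finset.mem_sdiff.2 ⟨he, heS⟩)
      (by rw [hq, sub_self]), mul_zero]
  · push Not at h1
    obtain ⟨e, he, hq⟩ := h1
    rw [Finset.prod_eq_zero (s := S) (i := e) he hq, zero_mul]

private theorem cma_nonneg {U S : Finset E} {q : E → ℝ} (hS : S ⊆ U)
    (hq : ∀ e ∈ U, 0 ≤ q e ∧ q e ≤ 1) :
    0 ≤ (∏ e ∈ S, q e) * (∏ e ∈ U \ S, (1 - q e)) := by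
  refine mul_nonneg (Finset.prod_nonneg fun e he => (hq e (hS he)).1)
    (Finset.prod_nonneg fun e he => ?_)
  have := (hq e (Finset.mem_sdiff.1 he).1).2
  linarith

/-- only the sets `S` with `{q = 1} ⊆ S ⊆ {q ≠ 0}` count -/
theorem ml_congr {U : Finset E} {Φ Ψ : Finset E → ℝ} {q : E → ℝ}
    (h : ∀ S ⊆ U, (∀ e ∈ S, q e ≠ 0) → (∀ e ∈ U, q e = 1 → e ∈ S) → Φ S = Ψ S) :
    ml U Φ q = ml U Ψ q := by
  unfold ml
  refine Finset.sum_congr rfl fun S hS => ?_
  have hS' := Finset.mem_powerset.1 hS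
  by_cases h1 : (∀ e ∈ S, q e ≠ 0) ∧ ∀ e ∈ U, q e = 1 → e ∈ S
  · rw [h S hS' h1.1 h1.2]
  · rw [cma_zero h1, zero_mul, zero_mul]

theorem ml_abs_le {U : Finset E} {Φ : Finset E → ℝ} {q : E → ℝ} {M : ℝ}
    (hq : ∀ e ∈ U, 0 ≤ q e ∧ q e ≤ 1)
    (h : ∀ S ⊆ U, (∀ e ∈ S, q e ≠ 0) → (∀ e ∈ U, q e = 1 → e ∈ S) → |Φ S| ≤ M) :
    |ml U Φ q| ≤ M := by
  calc |ml U Φ q| ≤ ∑ S ∈ U.powerset, |(∏ e ∈ S, q e) * (∏ e ∈ U \ S, (1 - q e)) * Φ S| :=
        Finset.abs_sum_le_sum_abs _ _
    _ ≤ ∑ S ∈ U.powerset, (∏ e ∈ S, q e) * (∏ e ∈ U \ S, (1 - q e)) * M := by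
        refine Finset.sum_le_sum fun S hS => ?_
        have hS' := Finset.mem_powerset.1 hS
        by_cases h1 : (∀ e ∈ S, q e ≠ 0) ∧ ∀ e ∈ U, q e = 1 → e ∈ S
        · rw [abs_mul, abs_of_nonneg (cma_nonneg hS' hq)]
          exact mul_le_mul_of_nonneg_left (h S hS' h1.1 h1.2) (cma_nonneg hS' hq)
        · rw [cma_zero h1, zero_mul, zero_mul, abs_zero]
    _ = M := ml_const U M q

theorem ml_le {U : Finset E} {Φ Ψ : Finset E → ℝ} {q : E → ℝ}
    (hq : ∀ e ∈ U, 0 ≤ q e ∧ q e ≤ 1)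
    (h : ∀ S ⊆ U, (∀ e ∈ S, q e ≠ 0) → (∀ e ∈ U, q e = 1 → e ∈ S) → Φ S ≤ Ψ S) :
    ml U Φ q ≤ ml U Ψ q := by
  unfold ml
  refine Finset.sum_le_sum fun S hS => ?_
  have hS' := Finset.mem_powerset.1 hS
  by_cases h1 : (∀ e ∈ S, q e ≠ 0) ∧ ∀ e ∈ U, q e = 1 → e ∈ S
  · exact mul_le_mul_of_nonneg_left (h S hS' h1.1 h1.2) (cma_nonneg hS' hq)
  · rw [cma_zero h1, zero_mul, zero_mul]
/- END cma -/

/- MODULE cmb
Split `U.powerset` according to `e ∈ S`. -/
theorem ml_split {U : Finset E} (Φ : Finset E → ℝ) (q : E → ℝ) {e : E} (he : e ∈ U) :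
    ml U Φ q = ml (U.erase e) Φ q +
      q e * ml (U.erase e) (fun S => Φ (insert e S) - Φ S) q := by
  have hne : e ∉ U.erase e := Finset.notMem_erase e U
  have h1 : ml U Φ q = ml (insert e (U.erase e)) Φ q := by rw [Finset.insert_erase he]
  rw [h1]
  generalize U.erase e = V at hne ⊢
  unfold ml
  rw [Finset.sum_powerset_insert hne, Finset.mul_sum, ← Finset.sum_add_distrib,
    ← Finset.sum_add_distrib]
  refine Finset.sum_congr rfl fun S hS => ?_
  have hS' := Finset.mem_powerset.1 hS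
  have heS : e ∉ S := fun h => hne (hS' h)
  have h2 : insert e V \ S = insert e (V \ S) := Finset.insert_sdiff_of_notMem V heS
  have h3 : insert e V \ insert e S = V \ S := by
    rw [Finset.insert_sdiff_insert, Finset.sdiff_insert_of_notMem hne]
  have h4 : e ∉ V \ S := fun h => hne (Finset.mem_sdiff.1 h).1
  rw [h2, h3, Finset.prod_insert h4, Finset.prod_insert heS]
  ring
/- END cmb -/

/- MODULE cmc
`U ⊆ U'`, `Φ' S = Φ (S ∩ U)`: induction on `U' \ U` with `ml_split` (the increment in `e ∉ U`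
vanishes for all sets which count). -/
theorem ml_restrict {U U' : Finset E} (hU : U ⊆ U') {Φ Φ' : Finset E → ℝ} {q : E → ℝ}
    (h : ∀ S ⊆ U', (∀ e ∈ S, q e ≠ 0) → Φ' S = Φ (S ∩ U)) :
    ml U' Φ' q = ml U Φ q := by
  have key : ∀ W : Finset E, Disjoint W U →
      (∀ S ⊆ U ∪ W, (∀ e ∈ S, q e ≠ 0) → Φ' S = Φ (S ∩ U)) → ml (U ∪ W) Φ' q = ml U Φ q := by
    intro W
    induction W using Finset.induction_on with
    | empty =>
      intro _ h
      rw [Finset.union_empty] at h ⊢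
      refine ml_congr fun S hS h1 _ => ?_
      rw [h S hS h1, Finset.inter_eq_left.2 hS]
    | insert a W ha ih =>
      intro hd h
      have haU : a ∉ U := Finset.disjoint_left.1 hd (Finset.mem_insert_self a W)
      have hd' : Disjoint W U := hd.mono_left (Finset.subset_insert a W)
      have haUW : a ∉ U ∪ W := by
        rw [Finset.mem_union]
        exact fun h => h.elim haU ha
      have h2 : U ∪ insert a W = insert a (U ∪ W) := by
        rw [Finset.union_insert]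
      rw [h2] at h ⊢
      rw [ml_split Φ' q (Finset.mem_insert_self a (U ∪ W)), Finset.erase_insert haUW,
        ih hd' fun S hS h1 => h S (hS.trans (Finset.subset_insert _ _)) h1]
      by_cases hq : q a = 0
      · rw [hq, zero_mul, add_zero]
      · have h3 : ml (U ∪ W) (fun S => Φ' (insert a S) - Φ' S) q = ml (U ∪ W) (fun _ => 0) q := by
          refine ml_congr fun S hS h1 _ => ?_
          rw [h S (hS.trans (Finset.subset_insert _ _)) h1, h (insert a S)
            (Finset.insert_subset_insert a hS) ?_, Finset.insert_inter_of_notMem haU, sub_self]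
          intro e he
          rcases Finset.mem_insert.1 he with rfl | he
          · exact hq
          · exact h1 e he
        rw [h3, ml_const, mul_zero, add_zero]
  have := key (U' \ U) Finset.sdiff_disjoint
  rw [Finset.union_sdiff_of_subset hU] at this
  exact this h
/- END cmc -/

/- MODULE cmd
Smoothness of a finite sum of finite products; the derivative by induction on `U` with `ml_split`
(`U = insert a U'`): `ml U Φ = ml U' Φ + q a * ml U' (Δ_a Φ)`, and `Δ_a Δ_e Φ = Δ_e Δ_a Φ`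
(`Finset.insert_comm`). -/
theorem ml_contDiff {F : Type*} [NormedAddCommGroup F] [NormedSpace ℝ F] {n : WithTop ℕ∞}
    (U : Finset E) (Φ : Finset E → ℝ) {Q : E → F → ℝ} (hQ : ∀ e ∈ U, ContDiff ℝ n (Q e)) :
    ContDiff ℝ n (fun h => ml U Φ (fun e => Q e h)) := by
  unfold ml
  refine ContDiff.sum fun S hS => ?_
  have hS' := Finset.mem_powerset.1 hS
  refine ContDiff.mul (ContDiff.mul ?_ ?_) contDiff_const
  · exact contDiff_prod fun e he => hQ e (hS' he)
  · exact contDiff_prod fun e he => contDiff_const.sub (hQ e (Finset.mem_sdiff.1 he).1)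

private theorem cmd_diff {F : Type*} [NormedAddCommGroup F] [NormedSpace ℝ F]
    (U : Finset E) (Φ : Finset E → ℝ) {Q : E → F → ℝ} {h : F}
    (hQ : ∀ e ∈ U, DifferentiableAt ℝ (Q e) h) :
    DifferentiableAt ℝ (fun h => ml U Φ (fun e => Q e h)) h := by
  unfold ml
  refine DifferentiableAt.fun_sum fun S hS => ?_
  have hS' := Finset.mem_powerset.1 hS
  refine DifferentiableAt.mul (DifferentiableAt.mul ?_ ?_) (differentiableAt_const _)
  · exact (HasFDerivAt.finsetProd fun e he => (hQ e (hS' he)).hasFDerivAt).differentiableAt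
  · exact (HasFDerivAt.finsetProd fun e he => ((differentiableAt_const (1 : ℝ)).fun_sub
      (hQ e (Finset.mem_sdiff.1 he).1)).hasFDerivAt).differentiableAt

theorem ml_pd {ι : Type*} [Fintype ι] [DecidableEq ι] (U : Finset E) (Φ : Finset E → ℝ)
    {Q : E → (ι → ℝ) → ℝ} {h : ι → ℝ} (hQ : ∀ e ∈ U, DifferentiableAt ℝ (Q e) h) (y : ι) :
    pd y (fun h => ml U Φ (fun e => Q e h)) h =
      ∑ e ∈ U, pd y (Q e) h *
        ml (U.erase e) (fun S => Φ (insert e S) - Φ S) (fun e' => Q e' h) := by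
  induction U using Finset.induction_on generalizing Φ with
  | empty =>
    have : (fun h => ml ∅ Φ (fun e => Q e h)) = fun _ : ι → ℝ => Φ ∅ := by
      funext h
      simp [ml]
    rw [this, Finset.sum_empty]
    unfold pd
    rw [(hasFDerivAt_const (Φ ∅) h).fderiv]
    rfl
  | insert a U ha ih =>
    have hQU : ∀ e ∈ U, DifferentiableAt ℝ (Q e) h :=
      fun e he => hQ e (Finset.mem_insert_of_mem he)
    have hQa : DifferentiableAt ℝ (Q a) h := hQ a (Finset.mem_insert_self a U)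
    have h1 : (fun h => ml (insert a U) Φ (fun e => Q e h)) = fun h =>
        ml U Φ (fun e => Q e h) +
          Q a h * ml U (fun S => Φ (insert a S) - Φ S) (fun e => Q e h) := by
      funext h
      rw [ml_split Φ (fun e => Q e h) (Finset.mem_insert_self a U), Finset.erase_insert ha]
    have hd1 := cmd_diff U Φ hQU
    have hd2 := cmd_diff U (fun S => Φ (insert a S) - Φ S) hQU
    have h2 : pd y (fun h => ml (insert a U) Φ (fun e => Q e h)) h =
        pd y (fun h => ml U Φ (fun e => Q e h)) h +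
          (Q a h * pd y (fun h => ml U (fun S => Φ (insert a S) - Φ S) (fun e => Q e h)) h +
            pd y (Q a) h * ml U (fun S => Φ (insert a S) - Φ S) (fun e => Q e h)) := by
      rw [h1]
      unfold pd
      have hd3 : DifferentiableAt ℝ (fun h => Q a h *
          ml U (fun S => Φ (insert a S) - Φ S) (fun e => Q e h)) h := hQa.fun_mul hd2
      rw [fderiv_fun_add hd1 hd3, fderiv_fun_mul hQa hd2]
      simp [mul_comm]
    rw [h2, ih Φ hQU, ih _ hQU, Finset.sum_insert ha, Finset.erase_insert ha]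
    have h3 : ∀ e ∈ U, ml ((insert a U).erase e) (fun S => Φ (insert e S) - Φ S)
        (fun e' => Q e' h) = ml (U.erase e) (fun S => Φ (insert e S) - Φ S)
        (fun e' => Q e' h) + Q a h * ml (U.erase e)
        (fun S => (Φ (insert a (insert e S)) - Φ (insert e S)) - (Φ (insert a S) - Φ S))
        (fun e' => Q e' h) := by
      intro e he
      have hae : a ≠ e := fun h => ha (h ▸ he)
      have h4 : (insert a U).erase e = insert a (U.erase e) :=
        Finset.erase_insert_of_ne hae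
      have h5 : a ∉ U.erase e := fun h => ha (Finset.mem_of_mem_erase h)
      rw [h4, ml_split _ _ (Finset.mem_insert_self a (U.erase e)), Finset.erase_insert h5]
      congr 2
      refine ml_congr fun S _ _ _ => ?_
      rw [Finset.insert_comm e a S]
      ring
    have h7 : ∑ e ∈ U, pd y (Q e) h * ml ((insert a U).erase e)
        (fun S => Φ (insert e S) - Φ S) (fun e' => Q e' h) =
        ∑ e ∈ U, pd y (Q e) h * ml (U.erase e) (fun S => Φ (insert e S) - Φ S)
          (fun e' => Q e' h) +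
        Q a h * ∑ e ∈ U, pd y (Q e) h * ml (U.erase e)
          (fun S => Φ (insert a (insert e S)) - Φ (insert e S) - (Φ (insert a S) - Φ S))
          (fun e' => Q e' h) := by
      rw [Finset.mul_sum, ← Finset.sum_add_distrib]
      refine Finset.sum_congr rfl fun e he => ?_
      rw [h3 e he]
      ring
    have h8 : ∑ e ∈ U, pd y (Q e) h * ml (U.erase e)
          (fun S => Φ (insert a (insert e S)) - Φ (insert e S) - (Φ (insert a S) - Φ S))
          (fun e' => Q e' h) = ∑ e ∈ U, pd y (Q e) h * ml (U.erase e)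
          (fun S => Φ (insert a (insert e S)) - Φ (insert a S) - (Φ (insert e S) - Φ S))
          (fun e' => Q e' h) := by
      refine Finset.sum_congr rfl fun e he => ?_
      congr 1
      refine ml_congr fun S _ _ _ => ?_
      ring
    rw [h7, h8]
    ring
/- END cmd -/

end ml

end Pool.Agent.Hmk
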