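import Pool.Agent.Hmk.CfR

/-!
# Hmk, cluster fields (5): the clusters of nearly saturated edges are small
-/

set_option autoImplicit false

open MeasureTheory Set Filter ProbabilityTheory
open scoped ENNReal ContDiff Topology

noncomputable section

namespace Pool.Agent.Hmk

/-- a path of `r` steps without repetitions which starts in `x`, stays in `A` and uses only nearly
saturated edges; `d j` is the direction of the step `j` -/
def IsPth (ε : ℝ) (A : Finset (ℤ × ℤ)) (H : ℤ × ℤ → ℝ) (x : ℤ × ℤ) (r : ℕ) (d : Fin r → Fin 6)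
    (p : Fin (r + 1) → ℤ × ℤ) : Prop :=
  p 0 = x ∧ (∀ j, p j ∈ A) ∧ Function.Injective p ∧
    (∀ j : Fin r, p j.succ = p j.castSucc + st (d j)) ∧
    ∀ j : Fin r, 1 - ε < |H (p j.castSucc) - H (p j.succ)|

/-- the cluster of `x` reaches distance `r` -/
def Rd (ε : ℝ) (A : Finset (ℤ × ℤ)) (x : ℤ × ℤ) (r : ℕ) (H : ℤ × ℤ → ℝ) : Prop :=
  ∃ y ∈ Gx ε A H x, (r : ℤ) ≤ dn (y - x)

/- MODULE coa
The volume of the increments along a path: `|g 0| ≤ M` and `1 - ε < |g (j + 1) - g j| ≤ 1`.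
Induction on `r`, splitting off the last coordinate (`MeasureTheory.volume_preserving_piFinSuccAbove`
with `Fin.last`): for given `g j` the next value is in two intervals of length `ε`. -/
private def coa_S (r : ℕ) (ε M : ℝ) : Set (Fin (r + 1) → ℝ) :=
  {g | |g 0| ≤ M ∧ ∀ j : Fin r, 1 - ε < |g j.succ - g j.castSucc| ∧
      |g j.succ - g j.castSucc| ≤ 1}

private theorem coa_meas (r : ℕ) (ε M : ℝ) : MeasurableSet (coa_S r ε M) := by
  have h : coa_S r ε M = {g : Fin (r + 1) → ℝ | |g 0| ≤ M} ∩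
      ⋂ j : Fin r, ({g : Fin (r + 1) → ℝ | 1 - ε < |g j.succ - g j.castSucc|} ∩
        {g : Fin (r + 1) → ℝ | |g j.succ - g j.castSucc| ≤ 1}) := by
    ext g
    simp [coa_S]
  rw [h]
  refine (measurableSet_le (measurable_pi_apply 0).abs measurable_const).inter ?_
  refine MeasurableSet.iInter fun j => ?_
  have h1 : Measurable (fun g : Fin (r + 1) → ℝ => |g j.succ - g j.castSucc|) :=
    ((continuous_apply j.succ).sub (continuous_apply j.castSucc)).abs.measurable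
  exact (measurableSet_lt measurable_const h1).inter (measurableSet_le h1 measurable_const)

private theorem coa_sec (ε a : ℝ) (h0 : 0 ≤ ε) :
    volume {t : ℝ | 1 - ε < |t - a| ∧ |t - a| ≤ 1} ≤ ENNReal.ofReal (2 * ε) := by
  have hsub : {t : ℝ | 1 - ε < |t - a| ∧ |t - a| ≤ 1} ⊆
      Icc (a + (1 - ε)) (a + 1) ∪ Icc (a - 1) (a - (1 - ε)) := by
    intro t ht
    obtain ⟨h1, h2⟩ := ht
    rcases le_total 0 (t - a) with h3 | h3
    · rw [abs_of_nonneg h3] at h1 h2
      exact Or.inl ⟨by linarith, by linarith⟩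
    · rw [abs_of_nonpos h3] at h1 h2
      exact Or.inr ⟨by linarith, by linarith⟩
  refine (measure_mono hsub).trans ((measure_union_le _ _).trans ?_)
  rw [Real.volume_Icc, Real.volume_Icc, ← ENNReal.ofReal_add (by linarith) (by linarith)]
  refine ENNReal.ofReal_le_ofReal ?_
  linarith

private theorem coa_main (ε M : ℝ) (h0 : 0 ≤ ε) (hM : 0 ≤ M) (r : ℕ) :
    volume (coa_S r ε M) ≤ ENNReal.ofReal (2 * M) * ENNReal.ofReal (2 * ε) ^ r := by
  induction r with
  | zero =>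
    rw [pow_zero, mul_one]
    have h1 := (MeasureTheory.volume_preserving_funUnique (Fin 1) ℝ).measure_preimage_equiv
      (Icc (-M) M)
    have h2 : coa_S 0 ε M = (MeasurableEquiv.funUnique (Fin 1) ℝ) ⁻¹' (Icc (-M) M) := by
      ext g
      simp only [coa_S, mem_ofPred_eq, mem_preimage, MeasurableEquiv.funUnique_apply, mem_Icc,
        ← abs_le]
      constructor
      · intro h
        exact h.1
      · intro h
        exact ⟨h, fun j => j.elim0⟩
    show volume (coa_S 0 ε M) ≤ _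
    rw [h2]
    refine (le_of_eq h1).trans ?_
    rw [Real.volume_Icc]
    refine ENNReal.ofReal_le_ofReal ?_
    linarith
  | succ r ih =>
    set T : Set (ℝ × (Fin (r + 1) → ℝ)) :=
      {q | q.2 ∈ coa_S r ε M ∧ 1 - ε < |q.1 - q.2 (Fin.last r)| ∧ |q.1 - q.2 (Fin.last r)| ≤ 1}
      with hT
    have hTm : MeasurableSet T := by
      have h0 : Measurable (fun q : ℝ × (Fin (r + 1) → ℝ) => q.1 - q.2 (Fin.last r)) :=
        measurable_fst.sub ((measurable_pi_apply (Fin.last r)).comp measurable_snd)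
      have h1 : Measurable (fun q : ℝ × (Fin (r + 1) → ℝ) => |q.1 - q.2 (Fin.last r)|) :=
        continuous_abs.measurable.comp h0
      have h2 : T = (Prod.snd ⁻¹' (coa_S r ε M)) ∩
          ({q : ℝ × (Fin (r + 1) → ℝ) | 1 - ε < |q.1 - q.2 (Fin.last r)|} ∩
            {q : ℝ × (Fin (r + 1) → ℝ) | |q.1 - q.2 (Fin.last r)| ≤ 1}) := by
        ext q
        simp [hT]
      rw [h2]
      exact (measurable_snd (coa_meas r ε M)).inter
        ((measurableSet_lt measurable_const h1).inter (measurableSet_le h1 measurable_const))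
    have h1 := (MeasureTheory.volume_preserving_piFinSuccAbove (fun _ : Fin (r + 1 + 1) => ℝ)
      (Fin.last (r + 1))).measure_preimage_equiv T
    have h2 : coa_S (r + 1) ε M =
        (MeasurableEquiv.piFinSuccAbove (fun _ : Fin (r + 1 + 1) => ℝ) (Fin.last (r + 1))) ⁻¹' T := by
      ext g
      have e1 : (MeasurableEquiv.piFinSuccAbove (fun _ : Fin (r + 1 + 1) => ℝ)
          (Fin.last (r + 1)) g) = (g (Fin.last (r + 1)), fun j : Fin (r + 1) => g j.castSucc) := by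
        refine Prod.ext rfl ?_
        funext j
        show g ((Fin.last (r + 1)).succAbove j) = g j.castSucc
        rw [Fin.succAbove_last]
      rw [mem_preimage, e1]
      simp only [coa_S, hT, mem_ofPred_eq]
      constructor
      · rintro ⟨ha, hj⟩
        refine ⟨⟨ha, fun j => ?_⟩, ?_⟩
        · exact hj j.castSucc
        · exact hj (Fin.last r)
      · rintro ⟨⟨ha, hj⟩, hl⟩
        refine ⟨ha, fun j => ?_⟩
        refine Fin.lastCases ?_ (fun i => ?_) j
        · exact hl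
        · exact hj i
    rw [h2]
    refine (le_of_eq h1).trans ?_
    rw [Measure.volume_eq_prod, Measure.prod_apply_symm hTm]
    calc ∫⁻ y, volume ((fun x => (x, y)) ⁻¹' T) ∂volume
        ≤ ∫⁻ y, (coa_S r ε M).indicator (fun _ => ENNReal.ofReal (2 * ε)) y := by
          refine lintegral_mono fun y => ?_
          by_cases hy : y ∈ coa_S r ε M
          · rw [indicator_of_mem hy]
            refine le_trans (measure_mono ?_) (coa_sec ε (y (Fin.last r)) h0)
            intro t ht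
            exact ht.2
          · rw [indicator_of_notMem hy]
            have : (fun x : ℝ => (x, y)) ⁻¹' T = ∅ := by
              ext t
              simp only [mem_preimage, mem_empty_iff_false, iff_false]
              intro ht
              exact hy ht.1
            rw [this, measure_empty]
      _ = ENNReal.ofReal (2 * ε) * volume (coa_S r ε M) := by
          rw [lintegral_indicator_const (coa_meas r ε M)]
      _ ≤ ENNReal.ofReal (2 * ε) * (ENNReal.ofReal (2 * M) * ENNReal.ofReal (2 * ε) ^ r) := by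
          gcongr
      _ = _ := by
          rw [pow_succ]
          ring

theorem vol_path (r : ℕ) (ε M : ℝ) (h0 : 0 ≤ ε) (h1 : ε ≤ 1) (hM : 0 ≤ M) :
    volume {g : Fin (r + 1) → ℝ | |g 0| ≤ M ∧ ∀ j : Fin r, 1 - ε < |g j.succ - g j.castSucc| ∧
      |g j.succ - g j.castSucc| ≤ 1} ≤ ENNReal.ofReal (2 * M) * ENNReal.ofReal (2 * ε) ^ r := by
  exact coa_main ε M h0 hM r
/- END coa -/

/- MODULE cob
`vol_lemma` for a given injective `p : Fin (r + 1) → ℤ × ℤ` with values in `A ⊆ D` and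
consecutive points adjacent: `T` = the image of `p`, `P` = the free sites off `T` adjacent to `T`
(`card ≤ 6 (r + 1)`), `v` = a neighbour of `T` outside `T` (it exists because `T` is finite and not
empty: the point of `T` with maximal first coordinate plus `(1, 0)`), so `v ∈ P` or `v ∉ D`, and
`|H x - H v| ≤ dn (x - v) ≤ r + 1` (`gl_lip`).  Transfer `T → ℝ` to `Fin (r + 1) → ℝ`
(`MeasureTheory.volume_measurePreserving_piCongrLeft` for the bijection `p`). -/
private theorem cob_dist {p : ℕ → ℤ × ℤ} {r : ℕ}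
    (hp : ∀ j < r, ∃ i, p (j + 1) = p j + st i) : ∀ j ≤ r, dn (p 0 - p j) ≤ (j : ℤ) := by
  intro j
  induction j with
  | zero => intro _; simp [dn]
  | succ j ih =>
    intro hj
    obtain ⟨i, hi⟩ := hp j (by omega)
    have h1 := ih (by omega)
    have h2 := dn_add_le (p 0 - p j) (-(st i))
    rw [dn_neg, (dn_one_iff (st i)).2 ⟨i, rfl⟩] at h2
    have h3 : p 0 - p j + -(st i) = p 0 - p (j + 1) := by
      rw [hi]
      abel
    rw [h3] at h2
    push_cast
    linarith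

theorem path_event {D A : Finset (ℤ × ℤ)} (hA : A ⊆ D) {b : ℤ × ℤ → ℝ} (hb : ∀ z, |b z| ≤ 1 / 2)
    {ε : ℝ} (h0 : 0 < ε) (h1 : ε ≤ 1 / 2) (x : ℤ × ℤ) (r : ℕ) (d : Fin r → Fin 6)
    (p : Fin (r + 1) → ℤ × ℤ) :
    volume {h : D → ℝ | h ∈ K D b ∧ IsPth ε A (gl D b h) x r d p} ≤
      2 ^ (43 * (r + 1)) * ENNReal.ofReal (2 * ((r : ℝ) + 1)) * ENNReal.ofReal (2 * ε) ^ r *
        volume (K D b) := by
  classical
  rcases Set.eq_empty_or_nonempty {h : D → ℝ | h ∈ K D b ∧ IsPth ε A (gl D b h) x r d p} with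
    hem | ⟨h₀, hh₀⟩
  · rw [hem, measure_empty]
    exact zero_le
  obtain ⟨hp0, hpA, hpi, hpd, -⟩ := hh₀.2
  -- the sets
  set T : Finset (ℤ × ℤ) := Finset.univ.image p with hT
  have hTmem : ∀ j, p j ∈ T := fun j => Finset.mem_image_of_mem p (Finset.mem_univ j)
  set P : Finset (ℤ × ℤ) := D.filter (fun z => z ∉ T ∧ ∃ y ∈ T, ∃ i, z = y + st i) with hP
  have hTD : T ⊆ D := by
    intro z hz
    rw [hT, Finset.mem_image] at hz
    obtain ⟨j, _, rfl⟩ := hz
    exact hA (hpA j)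
  have hTc : T.card = r + 1 := by
    rw [hT, Finset.card_image_of_injective _ hpi, Finset.card_univ, Fintype.card_fin]
  have hPc : P.card ≤ 6 * (r + 1) := by
    have h2 : P ⊆ (T ×ˢ (Finset.univ : Finset (Fin 6))).image (fun q => q.1 + st q.2) := by
      intro z hz
      rw [hP, Finset.mem_filter] at hz
      obtain ⟨_, _, y, hy, i, rfl⟩ := hz
      rw [Finset.mem_image]
      exact ⟨(y, i), Finset.mem_product.2 ⟨hy, Finset.mem_univ i⟩, rfl⟩
    refine (Finset.card_le_card h2).trans (Finset.card_image_le.trans ?_)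
    rw [Finset.card_product, hTc, Finset.card_univ, Fintype.card_fin]
    omega
  have hPD : P ⊆ D := Finset.filter_subset _ _
  have hdis : Disjoint T P := by
    rw [Finset.disjoint_left]
    intro z hz hz'
    rw [hP, Finset.mem_filter] at hz'
    exact hz'.2.1 hz
  have hN : ∀ x ∈ T, ∀ i, x + st i ∈ D → x + st i ∈ T ∪ P := by
    intro y hy i hi
    rw [Finset.mem_union]
    by_cases h2 : y + st i ∈ T
    · exact Or.inl h2
    · refine Or.inr ?_
      rw [hP, Finset.mem_filter]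
      exact ⟨hi, h2, y, hy, i, rfl⟩
  -- the vertex `v`
  obtain ⟨m, hm, hmax⟩ := Finset.exists_max_image T (fun z => z.1) ⟨p 0, hTmem 0⟩
  have hmT : m + st 0 ∉ T := by
    intro h2
    have h3 := hmax _ h2
    have h4 : (m + st 0).1 = m.1 + 1 := rfl
    omega
  set v : ℤ × ℤ := m + st 0 with hv
  have hvP : v ∈ P ∨ v ∉ D := by
    by_cases h2 : v ∈ D
    · refine Or.inl ?_
      rw [hP, Finset.mem_filter]
      exact ⟨h2, hmT, m, hm, 0, rfl⟩
    · exact Or.inr h2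
  obtain ⟨j0, -, hj0⟩ := Finset.mem_image.1 hm
  have hdv : dn (x - v) ≤ (r : ℤ) + 1 := by
    have h2 := cob_dist (p := fun j => if hj : j < r + 1 then p ⟨j, hj⟩ else 0) (r := r) (by
      intro j hj
      refine ⟨d ⟨j, hj⟩, ?_⟩
      have h3 := hpd ⟨j, hj⟩
      rw [dif_pos (by omega : j + 1 < r + 1), dif_pos (by omega : j < r + 1)]
      exact h3) j0.1 (by omega)
    simp only [dif_pos (Nat.succ_pos r), dif_pos j0.2] at h2
    have h3 : p ⟨0, Nat.succ_pos r⟩ = x := hp0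
    have h4 : p ⟨j0.1, j0.2⟩ = m := hj0
    rw [h3, h4] at h2
    have h5 := dn_add_le (x - m) (-(st 0))
    rw [dn_neg, (dn_one_iff (st 0)).2 ⟨0, rfl⟩] at h5
    have h6 : x - m + -(st 0) = x - v := by
      rw [hv]
      abel
    rw [h6] at h5
    have h7 : (j0.1 : ℤ) ≤ r := by
      have := j0.2
      omega
    linarith
  -- the event
  set W : Set (T → ℝ) := {k | |k ⟨p 0, hTmem 0⟩| ≤ (r : ℝ) + 1 ∧ ∀ j : Fin r,
    1 - ε < |k ⟨p j.succ, hTmem _⟩ - k ⟨p j.castSucc, hTmem _⟩| ∧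
      |k ⟨p j.succ, hTmem _⟩ - k ⟨p j.castSucc, hTmem _⟩| ≤ 1} with hW
  have hWm : MeasurableSet W := by
    have h : W = {k : T → ℝ | |k ⟨p 0, hTmem 0⟩| ≤ (r : ℝ) + 1} ∩
        ⋂ j : Fin r, ({k : T → ℝ | 1 - ε < |k ⟨p j.succ, hTmem _⟩ - k ⟨p j.castSucc, hTmem _⟩|} ∩
          {k : T → ℝ | |k ⟨p j.succ, hTmem _⟩ - k ⟨p j.castSucc, hTmem _⟩| ≤ 1}) := by
      ext k
      simp [hW]
    rw [h]
    refine (measurableSet_le (measurable_pi_apply _).abs measurable_const).inter ?_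
    refine MeasurableSet.iInter fun j => ?_
    have h1 : Measurable (fun k : T → ℝ =>
        |k ⟨p j.succ, hTmem _⟩ - k ⟨p j.castSucc, hTmem _⟩|) :=
      ((continuous_apply (⟨p j.succ, hTmem _⟩ : T)).sub
        (continuous_apply (⟨p j.castSucc, hTmem _⟩ : T))).abs.measurable
    exact (measurableSet_lt measurable_const h1).inter (measurableSet_le h1 measurable_const)
  let e : Fin (r + 1) ≃ T := Equiv.ofBijective (fun j => (⟨p j, hTmem j⟩ : T)) ⟨by
      intro i j hij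
      exact hpi (congrArg Subtype.val hij), by
      rintro ⟨z, hz⟩
      obtain ⟨j, _, hj⟩ := Finset.mem_image.1 hz
      exact ⟨j, Subtype.ext hj⟩⟩
  have hvolW : volume W ≤ ENNReal.ofReal (2 * ((r : ℝ) + 1)) * ENNReal.ofReal (2 * ε) ^ r := by
    have h2 := (MeasureTheory.volume_measurePreserving_piCongrLeft
      (fun _ : T => ℝ) e).measure_preimage_equiv W
    rw [← h2]
    refine le_trans (measure_mono ?_) (vol_path r ε ((r : ℝ) + 1) h0.le (by linarith)
      (by positivity))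
    intro g hg
    have h3 : ∀ j, (MeasurableEquiv.piCongrLeft (fun _ : T => ℝ) e g) ⟨p j, hTmem j⟩ = g j := by
      intro j
      exact Equiv.piCongrLeft_apply_apply (fun _ : T => ℝ) e g j
    have h4 : (MeasurableEquiv.piCongrLeft (fun _ : T => ℝ) e g) ∈ W := hg
    rw [hW, mem_ofPred_eq] at h4
    simp only [h3] at h4
    exact h4
  -- conclusion
  have hsub : {h : D → ℝ | h ∈ K D b ∧ IsPth ε A (gl D b h) x r d p} ⊆
      {h : D → ℝ | h ∈ K D b ∧ (fun y : T => gl D b h y - gl D b h v) ∈ W} := by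
    intro h hh
    obtain ⟨hK, hI⟩ := hh
    refine ⟨hK, ?_⟩
    rw [hW, mem_ofPred_eq]
    refine ⟨?_, fun j => ?_⟩
    · show |gl D b h (p 0) - gl D b h v| ≤ (r : ℝ) + 1
      rw [hp0]
      refine (gl_lip hb hK x v).trans ?_
      exact_mod_cast hdv
    · show 1 - ε < |(gl D b h (p j.succ) - gl D b h v) - (gl D b h (p j.castSucc) - gl D b h v)| ∧
        |(gl D b h (p j.succ) - gl D b h v) - (gl D b h (p j.castSucc) - gl D b h v)| ≤ 1
      rw [sub_sub_sub_cancel_right, abs_sub_comm]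
      refine ⟨hI.2.2.2.2 j, ?_⟩
      have h2 := hpd j
      rw [h2]
      exact hK _ (hA (hpA _)) _
  calc volume {h : D → ℝ | h ∈ K D b ∧ IsPth ε A (gl D b h) x r d p}
      ≤ 2 ^ (T.card + 7 * P.card) * volume W * volume (K D b) :=
        (measure_mono hsub).trans (vol_lemma hb hTD hPD hdis hN hvP hWm)
    _ ≤ 2 ^ (43 * (r + 1)) * (ENNReal.ofReal (2 * ((r : ℝ) + 1)) * ENNReal.ofReal (2 * ε) ^ r) *
        volume (K D b) := by
        gcongr
        · norm_num
        · omega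
    _ = _ := by rw [← mul_assoc]
/- END cob -/

/- MODULE coc
A cluster which reaches distance `r` contains a path (take a path without repetitions from `x` to
`y`, `SimpleGraph.Walk.toPath`, its length is at least `dn (y - x) ≥ r` because every step changes
`dn` by at most one (`dn_step`); take its first `r` steps). -/
private def coc_G (ε : ℝ) (A : Finset (ℤ × ℤ)) (H : ℤ × ℤ → ℝ) : SimpleGraph (ℤ × ℤ) where
  Adj u v := u ≠ v ∧ eadj A (Op ε H) u v
  symm := ⟨fun _ _ h => ⟨h.1.symm, eadj_symm h.2⟩⟩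
  loopless := ⟨fun _ h => h.1 rfl⟩

private theorem coc_ne {A : Finset (ℤ × ℤ)} {S : Set Ed} {u v : ℤ × ℤ} (h : eadj A S u v) :
    u ≠ v := by
  rintro rfl
  obtain ⟨-, -, i, h | h⟩ := h
  · exact st_ne i (by simpa using h.1.symm)
  · exact st_ne i (by simpa using h.1.symm)

private theorem coc_dir {ε : ℝ} {A : Finset (ℤ × ℤ)} {H : ℤ × ℤ → ℝ} {u v : ℤ × ℤ}
    (h : eadj A (Op ε H) u v) : ∃ i, v = u + st i ∧ 1 - ε < |H u - H v| := by
  obtain ⟨-, -, i, ⟨h1, h2⟩ | ⟨h1, h2⟩⟩ := h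
  · refine ⟨i, h1, ?_⟩
    rw [h1]
    exact h2
  · refine ⟨i + 3, ?_, ?_⟩
    · rw [st_neg, h1]
      abel
    · have h3 : 1 - ε < |H v - H (v + st i)| := h2
      rw [← h1, abs_sub_comm] at h3
      exact h3

private theorem coc_reach {ε : ℝ} {A : Finset (ℤ × ℤ)} {H : ℤ × ℤ → ℝ} {x y : ℤ × ℤ}
    (h : Relation.ReflTransGen (eadj A (Op ε H)) x y) : (coc_G ε A H).Reachable x y := by
  induction h with
  | refl => exact SimpleGraph.Reachable.refl x
  | tail _ h2 ih =>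
    exact ih.trans (SimpleGraph.Adj.reachable ⟨coc_ne h2, h2⟩)

private theorem coc_len {ε : ℝ} {A : Finset (ℤ × ℤ)} {H : ℤ × ℤ → ℝ} {x y : ℤ × ℤ}
    (w : (coc_G ε A H).Walk x y) : dn (y - x) ≤ (w.length : ℤ) := by
  induction w with
  | nil => simp [dn]
  | cons hadj w ih =>
    rename_i u v z
    obtain ⟨i, hi, -⟩ := coc_dir hadj.2
    have h1 := dn_add_le (z - v) (st i)
    rw [(dn_one_iff (st i)).2 ⟨i, rfl⟩] at h1
    have h2 : z - v + st i = z - u := by
      rw [hi]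
      abel
    rw [h2] at h1
    rw [SimpleGraph.Walk.length_cons]
    push_cast
    linarith

theorem exists_path {ε : ℝ} {A : Finset (ℤ × ℤ)} {H : ℤ × ℤ → ℝ} {x : ℤ × ℤ}
    {r : ℕ} (hx : x ∈ A) (hr : Rd ε A x r H) : ∃ d p, IsPth ε A H x r d p := by
  classical
  obtain ⟨y, hy, hry⟩ := hr
  have h1 : Relation.ReflTransGen (eadj A (Op ε H)) x y := (mem_Cmp.1 hy).2
  obtain ⟨w, hw⟩ := (coc_reach h1).exists_isPath
  have hlen : r ≤ w.length := by
    have := coc_len w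
    omega
  have hadj : ∀ j : Fin r, (coc_G ε A H).Adj (w.getVert j) (w.getVert (j + 1)) := fun j =>
    w.adj_getVert_succ (lt_of_lt_of_le j.2 hlen)
  have hdir : ∀ j : Fin r, ∃ i, w.getVert (j + 1) = w.getVert j + st i ∧
      1 - ε < |H (w.getVert j) - H (w.getVert (j + 1))| := fun j => coc_dir (hadj j).2
  choose d hd using hdir
  refine ⟨d, fun j => w.getVert j, ?_, ?_, ?_, ?_, ?_⟩
  · exact w.getVert_zero
  · intro j
    refine Fin.cases ?_ (fun i => ?_) j
    · show w.getVert 0 ∈ A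
      rw [w.getVert_zero]
      exact hx
    · exact (hadj i).2.2.1
  · intro i j hij
    have hi : (i : ℕ) ≤ w.length := by
      have := i.2
      omega
    have hj : (j : ℕ) ≤ w.length := by
      have := j.2
      omega
    exact Fin.ext (hw.getVert_injOn hi hj hij)
  · intro j
    exact (hd j).1
  · intro j
    exact (hd j).2

/-- `p` is determined by `d` and `x` -/
theorem path_unique {ε : ℝ} {A : Finset (ℤ × ℤ)} {H H' : ℤ × ℤ → ℝ} {x : ℤ × ℤ}
    {r : ℕ} {d : Fin r → Fin 6} {p p' : Fin (r + 1) → ℤ × ℤ} (hp : IsPth ε A H x r d p)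
    (hp' : IsPth ε A H' x r d p') : p = p' := by
  funext j
  induction j using Fin.induction with
  | zero => rw [hp.1, hp'.1]
  | succ j ih => rw [hp.2.2.2.1 j, hp'.2.2.2.1 j, ih]
/- END coc -/

/- MODULE cod
Union bound over the `6 ^ r` directions. -/
private theorem cod_dir {D A : Finset (ℤ × ℤ)} (hA : A ⊆ D) {b : ℤ × ℤ → ℝ}
    (hb : ∀ z, |b z| ≤ 1 / 2) {ε : ℝ} (h0 : 0 < ε) (h1 : ε ≤ 1 / 2) (x : ℤ × ℤ) (r : ℕ)
    (d : Fin r → Fin 6) :
    volume {h : D → ℝ | h ∈ K D b ∧ ∃ p, IsPth ε A (gl D b h) x r d p} ≤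
      2 ^ (43 * (r + 1)) * ENNReal.ofReal (2 * ((r : ℝ) + 1)) * ENNReal.ofReal (2 * ε) ^ r *
        volume (K D b) := by
  rcases Set.eq_empty_or_nonempty {h : D → ℝ | h ∈ K D b ∧ ∃ p, IsPth ε A (gl D b h) x r d p} with
    hem | ⟨h₀, hh₀⟩
  · rw [hem, measure_empty]
    exact zero_le
  obtain ⟨p, hp⟩ := hh₀.2
  refine (measure_mono ?_).trans (path_event hA hb h0 h1 x r d p)
  rintro h ⟨hK, q, hq⟩
  refine ⟨hK, ?_⟩
  rw [path_unique hp hq]
  exact hq

theorem vol_Rd {D A : Finset (ℤ × ℤ)} (hA : A ⊆ D) {b : ℤ × ℤ → ℝ} (hb : ∀ z, |b z| ≤ 1 / 2)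
    {ε : ℝ} (h0 : 0 < ε) (h1 : ε ≤ 1 / 2) {x : ℤ × ℤ} (hx : x ∈ A) (r : ℕ) :
    volume {h : D → ℝ | h ∈ K D b ∧ Rd ε A x r (gl D b h)} ≤
      2 ^ 44 * ((r : ℝ≥0∞) + 1) * ENNReal.ofReal (2 ^ 47 * ε) ^ r * volume (K D b) := by
  have hsub : {h : D → ℝ | h ∈ K D b ∧ Rd ε A x r (gl D b h)} ⊆
      ⋃ d : Fin r → Fin 6, {h : D → ℝ | h ∈ K D b ∧ ∃ p, IsPth ε A (gl D b h) x r d p} := by
    rintro h ⟨hK, hR⟩
    obtain ⟨d, p, hp⟩ := exists_path hx hR
    exact mem_iUnion.2 ⟨d, hK, p, hp⟩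
  have e1 : ENNReal.ofReal (2 * ((r : ℝ) + 1)) = 2 * ((r : ℝ≥0∞) + 1) := by
    rw [ENNReal.ofReal_mul (by norm_num), ENNReal.ofReal_add (by positivity) (by norm_num),
      ENNReal.ofReal_natCast, ENNReal.ofReal_one]
    norm_num
  have e2 : (6 : ℝ≥0∞) * 2 ^ 43 * ENNReal.ofReal (2 * ε) ≤ ENNReal.ofReal (2 ^ 47 * ε) := by
    have h2 : (6 : ℝ≥0∞) * 2 ^ 43 = ENNReal.ofReal (6 * 2 ^ 43) := by
      rw [ENNReal.ofReal_mul (by norm_num), ENNReal.ofReal_pow (by norm_num)]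
      norm_num
    rw [h2, ← ENNReal.ofReal_mul (by positivity)]
    refine ENNReal.ofReal_le_ofReal ?_
    nlinarith
  calc volume {h : D → ℝ | h ∈ K D b ∧ Rd ε A x r (gl D b h)}
      ≤ ∑ d : Fin r → Fin 6, volume {h : D → ℝ | h ∈ K D b ∧
          ∃ p, IsPth ε A (gl D b h) x r d p} :=
        (measure_mono hsub).trans (measure_iUnion_fintype_le _ _)
    _ ≤ ∑ _d : Fin r → Fin 6, 2 ^ (43 * (r + 1)) * ENNReal.ofReal (2 * ((r : ℝ) + 1)) *
          ENNReal.ofReal (2 * ε) ^ r * volume (K D b) :=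
        Finset.sum_le_sum fun d _ => cod_dir hA hb h0 h1 x r d
    _ = 2 ^ 44 * ((r : ℝ≥0∞) + 1) * (6 * 2 ^ 43 * ENNReal.ofReal (2 * ε)) ^ r *
          volume (K D b) := by
        rw [Finset.sum_const, Finset.card_univ, Fintype.card_fun, Fintype.card_fin,
          Fintype.card_fin, nsmul_eq_mul, e1, mul_pow, mul_pow, ← pow_mul, mul_add (43 : ℕ), pow_add]
        push_cast
        ring
    _ ≤ _ := by gcongr
/- END cod -/

/- MODULE coe
One edge: `vol_lemma` with `T = {x}`, `P` = the free neighbours of `x`, `v = x + st i`; then the sum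
over the six edges. -/
private theorem coe_edge {D : Finset (ℤ × ℤ)} {b : ℤ × ℤ → ℝ} (hb : ∀ z, |b z| ≤ 1 / 2)
    {ε : ℝ} (h0 : 0 < ε) {x : ℤ × ℤ} (hx : x ∈ D) (i : Fin 6) :
    volume {h : D → ℝ | h ∈ K D b ∧ 1 - ε < |gl D b h x - gl D b h (x + st i)|} ≤
      2 ^ 43 * ENNReal.ofReal (2 * ε) * volume (K D b) := by
  classical
  set T : Finset (ℤ × ℤ) := {x} with hT
  have hxT : x ∈ T := Finset.mem_singleton_self x
  set P : Finset (ℤ × ℤ) := D.filter (fun z => z ∉ T ∧ ∃ j, z = x + st j) with hP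
  have hPc : P.card ≤ 6 := by
    have h2 : P ⊆ (Finset.univ : Finset (Fin 6)).image (fun j => x + st j) := by
      intro z hz
      rw [hP, Finset.mem_filter] at hz
      obtain ⟨_, _, j, rfl⟩ := hz
      exact Finset.mem_image_of_mem _ (Finset.mem_univ j)
    refine (Finset.card_le_card h2).trans (Finset.card_image_le.trans ?_)
    rw [Finset.card_univ, Fintype.card_fin]
  have hTD : T ⊆ D := Finset.singleton_subset_iff.2 hx
  have hPD : P ⊆ D := Finset.filter_subset _ _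
  have hdis : Disjoint T P := by
    rw [Finset.disjoint_left]
    intro z hz hz'
    rw [hP, Finset.mem_filter] at hz'
    exact hz'.2.1 hz
  have hN : ∀ y ∈ T, ∀ i, y + st i ∈ D → y + st i ∈ T ∪ P := by
    intro y hy i hi
    rw [hT, Finset.mem_singleton] at hy
    subst hy
    rw [Finset.mem_union]
    by_cases h2 : y + st i ∈ T
    · exact Or.inl h2
    · refine Or.inr ?_
      rw [hP, Finset.mem_filter]
      exact ⟨hi, h2, i, rfl⟩
  have hvT : x + st i ∉ T := by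
    rw [hT, Finset.mem_singleton]
    intro h2
    exact st_ne i (by simpa using h2)
  have hvP : x + st i ∈ P ∨ x + st i ∉ D := by
    by_cases h2 : x + st i ∈ D
    · refine Or.inl ?_
      rw [hP, Finset.mem_filter]
      exact ⟨h2, hvT, i, rfl⟩
    · exact Or.inr h2
  set s : Set ℝ := {t | 1 - ε < |t - 0| ∧ |t - 0| ≤ 1} with hs
  have hsm : MeasurableSet s := by
    have h1 : Measurable (fun t : ℝ => |t - 0|) :=
      ((continuous_id.sub continuous_const).abs).measurable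
    exact (measurableSet_lt measurable_const h1).inter (measurableSet_le h1 measurable_const)
  set W : Set (T → ℝ) := Set.univ.pi (fun _ => s) with hW
  have hWm : MeasurableSet W := MeasurableSet.univ_pi fun _ => hsm
  have hvolW : volume W ≤ ENNReal.ofReal (2 * ε) := by
    rw [hW, volume_pi_pi, Finset.prod_const, Finset.card_univ, Fintype.card_coe, hT,
      Finset.card_singleton, pow_one]
    exact coa_sec ε 0 h0.le
  have hsub : {h : D → ℝ | h ∈ K D b ∧ 1 - ε < |gl D b h x - gl D b h (x + st i)|} ⊆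
      {h : D → ℝ | h ∈ K D b ∧ (fun y : T => gl D b h y - gl D b h (x + st i)) ∈ W} := by
    rintro h ⟨hK, hI⟩
    refine ⟨hK, ?_⟩
    rintro ⟨y, hy⟩ -
    rw [hT, Finset.mem_singleton] at hy
    subst hy
    show 1 - ε < |gl D b h y - gl D b h (y + st i) - 0| ∧
      |gl D b h y - gl D b h (y + st i) - 0| ≤ 1
    rw [sub_zero]
    exact ⟨hI, hK y hx i⟩
  calc volume {h : D → ℝ | h ∈ K D b ∧ 1 - ε < |gl D b h x - gl D b h (x + st i)|}
      ≤ 2 ^ (T.card + 7 * P.card) * volume W * volume (K D b) :=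
        (measure_mono hsub).trans (vol_lemma hb hTD hPD hdis hN hvP hWm)
    _ ≤ 2 ^ 43 * ENNReal.ofReal (2 * ε) * volume (K D b) := by
        gcongr
        · norm_num
        · rw [hT, Finset.card_singleton]
          omega

theorem vol_Tx {D : Finset (ℤ × ℤ)} {b : ℤ × ℤ → ℝ} (hb : ∀ z, |b z| ≤ 1 / 2)
    {ε : ℝ} (h0 : 0 < ε) (h1 : ε ≤ 1 / 2) {x : ℤ × ℤ} (hx : x ∈ D) :
    volume {h : D → ℝ | h ∈ K D b ∧ Tx ε x (gl D b h)} ≤
      ENNReal.ofReal (2 ^ 47 * ε) * volume (K D b) := by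
  have hsub : {h : D → ℝ | h ∈ K D b ∧ Tx ε x (gl D b h)} ⊆
      ⋃ i : Fin 6, {h : D → ℝ | h ∈ K D b ∧ 1 - ε < |gl D b h x - gl D b h (x + st i)|} := by
    rintro h ⟨hK, i, hi⟩
    exact mem_iUnion.2 ⟨i, hK, hi⟩
  have e2 : (6 : ℝ≥0∞) * 2 ^ 43 * ENNReal.ofReal (2 * ε) ≤ ENNReal.ofReal (2 ^ 47 * ε) := by
    have h2 : (6 : ℝ≥0∞) * 2 ^ 43 = ENNReal.ofReal (6 * 2 ^ 43) := by
      rw [ENNReal.ofReal_mul (by norm_num), ENNReal.ofReal_pow (by norm_num)]
      norm_num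
    rw [h2, ← ENNReal.ofReal_mul (by positivity)]
    refine ENNReal.ofReal_le_ofReal ?_
    nlinarith
  calc volume {h : D → ℝ | h ∈ K D b ∧ Tx ε x (gl D b h)}
      ≤ ∑ i : Fin 6, volume {h : D → ℝ | h ∈ K D b ∧
          1 - ε < |gl D b h x - gl D b h (x + st i)|} :=
        (measure_mono hsub).trans (measure_iUnion_fintype_le _ _)
    _ ≤ ∑ _i : Fin 6, 2 ^ 43 * ENNReal.ofReal (2 * ε) * volume (K D b) :=
        Finset.sum_le_sum fun i _ => coe_edge hb h0 hx i
    _ = 6 * 2 ^ 43 * ENNReal.ofReal (2 * ε) * volume (K D b) := by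
        rw [Finset.sum_const, Finset.card_univ, Fintype.card_fin, nsmul_eq_mul]
        push_cast
        ring
    _ ≤ _ := by gcongr
/- END coe -/

/- MODULE cof
Measurability: the cluster depends on finitely many events of the form `1 - ε < |hd e|`,
`e ∈ Ui A` (`Cmp_inter`). -/
theorem Op_meas (ε : ℝ) (S : Finset (ℤ × ℤ)) (c : ℤ × ℤ → ℝ) (e : Ed) :
    MeasurableSet {h : S → ℝ | e ∈ Op ε (gl S c h)} := by
  have h1 : Continuous (fun h : S → ℝ => |gl S c h e.1 - gl S c h (e.1 + st e.2)|) :=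
    ((gl_cont S c e.1).sub (gl_cont S c (e.1 + st e.2))).abs
  exact measurableSet_lt measurable_const h1.measurable

theorem Tx_meas (ε : ℝ) (S : Finset (ℤ × ℤ)) (c : ℤ × ℤ → ℝ) (x : ℤ × ℤ) :
    MeasurableSet {h : S → ℝ | Tx ε x (gl S c h)} := by
  have h1 : {h : S → ℝ | Tx ε x (gl S c h)} =
      ⋃ i : Fin 6, {h : S → ℝ | ((x, i) : Ed) ∈ Op ε (gl S c h)} := by
    ext h
    simp [Tx]
  rw [h1]
  exact MeasurableSet.iUnion fun i => Op_meas ε S c (x, i)

private theorem cof_Ui {A : Finset (ℤ × ℤ)} {e : Ed} :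
    e ∈ Ui A ↔ e.1 ∈ A ∧ e.1 + st e.2 ∈ A := by
  unfold Ui Uo
  rw [Finset.mem_filter, Finset.mem_product]
  constructor
  · intro h
    exact ⟨h.1.1, h.2⟩
  · intro h
    exact ⟨⟨h.1, Finset.mem_univ _⟩, h.2⟩

theorem Gx_meas (ε : ℝ) (S : Finset (ℤ × ℤ)) (c : ℤ × ℤ → ℝ) (A : Finset (ℤ × ℤ)) (x : ℤ × ℤ)
    (F : Finset (ℤ × ℤ)) : MeasurableSet {h : S → ℝ | Gx ε A (gl S c h) x = F} := by
  classical
  have key : {h : S → ℝ | Gx ε A (gl S c h) x = F} =
      ⋃ T ∈ (Ui A).powerset.filter (fun T : Finset Ed => Cmp A (T : Set Ed) x = F),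
        ⋂ e ∈ Ui A, {h : S → ℝ | e ∈ T ↔ e ∈ Op ε (gl S c h)} := by
    ext h
    simp only [mem_ofPred_eq, mem_iUnion, mem_iInter, Finset.mem_filter, Finset.mem_powerset,
      exists_prop]
    constructor
    · intro hF
      refine ⟨(Ui A).filter (fun e => e ∈ Op ε (gl S c h)), ⟨Finset.filter_subset _ _, ?_⟩, ?_⟩
      · rw [← hF]
        unfold Gx
        rw [← Cmp_inter A (Op ε (gl S c h)) x]
        congr 1
        ext e
        simp only [Finset.coe_filter, mem_ofPred_eq, mem_inter_iff, cof_Ui]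
        exact and_comm
      · intro e he
        rw [Finset.mem_filter]
        exact ⟨fun h1 => h1.2, fun h1 => ⟨he, h1⟩⟩
    · rintro ⟨T, ⟨hT, hC⟩, hI⟩
      rw [← hC]
      unfold Gx
      rw [← Cmp_inter A (Op ε (gl S c h)) x]
      congr 1
      ext e
      simp only [mem_ofPred_eq, mem_inter_iff, Finset.mem_coe]
      constructor
      · rintro ⟨h1, h2⟩
        exact (hI e (cof_Ui.2 h2)).2 h1
      · intro h1
        exact ⟨(hI e (hT h1)).1 h1, cof_Ui.1 (hT h1)⟩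
  rw [key]
  refine Finset.measurableSet_biUnion _ fun T _ => Finset.measurableSet_biInter _ fun e _ => ?_
  by_cases he : e ∈ T
  · simp only [he, true_iff]
    exact Op_meas ε S c e
  · simp only [he, false_iff]
    exact (Op_meas ε S c e).compl

/-- any function of the cluster is measurable -/
theorem Gx_fun_meas (ε : ℝ) (S : Finset (ℤ × ℤ)) (c : ℤ × ℤ → ℝ) (A : Finset (ℤ × ℤ)) (x : ℤ × ℤ)
    (f : Finset (ℤ × ℤ) → ℝ) : Measurable (fun h : S → ℝ => f (Gx ε A (gl S c h) x)) := by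
  let _ : MeasurableSpace (Finset (ℤ × ℤ)) := ⊤
  have h1 : Measurable (fun h : S → ℝ => Gx ε A (gl S c h) x) :=
    measurable_to_countable' fun F => Gx_meas ε S c A x F
  exact (measurable_from_top : Measurable f).comp h1

theorem Gx_card_le (ε : ℝ) (A : Finset (ℤ × ℤ)) (H : ℤ × ℤ → ℝ) (x : ℤ × ℤ) :
    (Gx ε A H x).card ≤ A.card := by
  exact Finset.card_le_card (Cmp_sub A _ x)
/- END cof -/

/- MODULE cog
The moments: the cluster has at most `(2 R + 1) ^ 2` sites if it does not reach distance `R + 1`;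
`∑ R, (2 R + 1) ^ (2 p) P(R reached) ≤ P(Tx) + ∑ R ≥ 1, (2 R + 1) ^ (2 p) 2 ^ 44 (R + 1) (2 ^ 47 ε) ^ R`
and `2 ^ 47 ε ≤ 1 / 2`.  (If the cluster is `{x}` the integrand is `1` and we are in `Tx`.) -/
private theorem cog_mu {D : Finset (ℤ × ℤ)} {b : ℤ × ℤ → ℝ} (hb : ∀ z, |b z| ≤ 1 / 2)
    {s : Set (D → ℝ)} {c : ℝ} (hc : 0 ≤ c)
    (hs : volume {h : D → ℝ | h ∈ K D b ∧ h ∈ s} ≤ ENNReal.ofReal c * volume (K D b)) :
    (Mu D b).real s ≤ c := by
  have h1 : 1 ≤ Z D b := Z_one_le (fun z _ _ => hb z)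
  have h2 := Z_lt_top D b
  have h0 : volume (K D b) ≠ 0 := by
    intro h0
    rw [show Z D b = 0 from h0] at h1
    exact absurd h1 (by norm_num)
  have e : K D b ∩ s = {h : D → ℝ | h ∈ K D b ∧ h ∈ s} := rfl
  rw [measureReal_def, Mu, cond_apply (K_meas D b), e]
  have h3 : (volume (K D b))⁻¹ * volume {h : D → ℝ | h ∈ K D b ∧ h ∈ s} ≤ ENNReal.ofReal c := by
    calc (volume (K D b))⁻¹ * volume {h : D → ℝ | h ∈ K D b ∧ h ∈ s} ≤
        (volume (K D b))⁻¹ * (ENNReal.ofReal c * volume (K D b)) := by gcongr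
      _ = ENNReal.ofReal c := by
        rw [mul_comm, mul_assoc, ENNReal.mul_inv_cancel h0 h2.ne, mul_one]
  exact ENNReal.toReal_le_of_le_ofReal hc h3

private theorem cog_card {ε : ℝ} {A : Finset (ℤ × ℤ)} {H : ℤ × ℤ → ℝ} {x : ℤ × ℤ} {R : ℕ}
    (h : ¬ Rd ε A x (R + 1) H) : (Gx ε A H x).card ≤ (2 * R + 1) ^ 2 := by
  have h1 : Gx ε A H x ⊆ ((Finset.Icc (-(R : ℤ)) R) ×ˢ (Finset.Icc (-(R : ℤ)) R)).image
      (fun z => x + z) := by
    intro y hy
    rw [Finset.mem_image]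
    refine ⟨y - x, ?_, by abel⟩
    have h2 : dn (y - x) ≤ R := by
      by_contra hc
      push Not at hc
      exact h ⟨y, hy, by push_cast; omega⟩
    unfold dn at h2
    rw [Finset.mem_product, Finset.mem_Icc, Finset.mem_Icc]
    have h3 : |(y - x).1| ≤ R := (le_max_left _ _).trans h2
    have h4 : |(y - x).2| ≤ R := ((le_max_left _ _).trans (le_max_right _ _)).trans h2
    rw [abs_le] at h3 h4
    exact ⟨h3, h4⟩
  refine (Finset.card_le_card h1).trans (Finset.card_image_le.trans ?_)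
  rw [Finset.card_product, Int.card_Icc, sq]
  have : ((R : ℤ) + 1 - -(R : ℤ)).toNat = 2 * R + 1 := by omega
  rw [this]

private theorem cog_anti {ε : ℝ} {A : Finset (ℤ × ℤ)} {H : ℤ × ℤ → ℝ} {x : ℤ × ℤ} {R R' : ℕ}
    (hR : R ≤ R') (h : Rd ε A x R' H) : Rd ε A x R H := by
  obtain ⟨y, hy, hd⟩ := h
  exact ⟨y, hy, le_trans (by exact_mod_cast hR) hd⟩

private theorem cog_top {ε : ℝ} (A : Finset (ℤ × ℤ)) (x : ℤ × ℤ) : ∃ M : ℕ,
    ∀ H : ℤ × ℤ → ℝ, ¬ Rd ε A x (M + 1) H := by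
  refine ⟨∑ y ∈ A, (dn (y - x)).toNat, fun H ⟨y, hy, hd⟩ => ?_⟩
  have hyA : y ∈ A := Cmp_sub _ _ _ hy
  have h1 : (dn (y - x)).toNat ≤ ∑ y ∈ A, (dn (y - x)).toNat :=
    Finset.single_le_sum (f := fun y => (dn (y - x)).toNat) (fun _ _ => Nat.zero_le _) hyA
  have h2 := dn_nonneg (y - x)
  have h3 : ((∑ y ∈ A, (dn (y - x)).toNat : ℕ) : ℤ) + 1 ≤ dn (y - x) := by exact_mod_cast hd
  omega

open scoped Classical in
private theorem cog_pt (p : ℕ) {ε : ℝ} (A : Finset (ℤ × ℤ)) {x : ℤ × ℤ} (hx : x ∈ A) (M : ℕ)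
    (H : ℤ × ℤ → ℝ) (hM : ¬ Rd ε A x (M + 1) H) :
    (if Tx ε x H then ((Gx ε A H x).card : ℝ) ^ p else 0) ≤
      (if Tx ε x H then 1 else 0) +
        ∑ R ∈ Finset.Icc 1 M, ((2 * (R : ℝ) + 1) ^ 2) ^ p * (if Rd ε A x R H then 1 else 0) := by
  have hsum : 0 ≤ ∑ R ∈ Finset.Icc 1 M, ((2 * (R : ℝ) + 1) ^ 2) ^ p *
      (if Rd ε A x R H then 1 else 0) := by
    refine Finset.sum_nonneg fun R _ => ?_
    split_ifs <;> positivity
  by_cases hT : Tx ε x H
  · simp only [hT, if_true]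
    -- the maximal reach
    obtain ⟨R, hR1, hR2, hRM⟩ : ∃ R : ℕ, Rd ε A x R H ∧ ¬ Rd ε A x (R + 1) H ∧ R ≤ M := by
      have h0 : Rd ε A x 0 H := ⟨x, Cmp_self _ hx, by simpa using dn_nonneg _⟩
      by_contra hc
      push Not at hc
      have : ∀ R, R ≤ M + 1 → Rd ε A x R H := by
        intro R
        induction R with
        | zero => intro _; exact h0
        | succ R ih =>
          intro hR
          by_contra hc2
          have := hc R (ih (by omega)) hc2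
          omega
      exact hM (this (M + 1) le_rfl)
    have hcard := cog_card hR2
    rcases Nat.eq_zero_or_pos R with h0 | h0
    · subst h0
      have h1 : ((Gx ε A H x).card : ℝ) ≤ 1 := by
        have : (Gx ε A H x).card ≤ 1 := by simpa using hcard
        exact_mod_cast this
      have h2 : ((Gx ε A H x).card : ℝ) ^ p ≤ 1 := pow_le_one₀ (by positivity) h1
      linarith
    · have h1 : ((Gx ε A H x).card : ℝ) ≤ (2 * (R : ℝ) + 1) ^ 2 := by exact_mod_cast hcard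
      have h2 : ((Gx ε A H x).card : ℝ) ^ p ≤ ((2 * (R : ℝ) + 1) ^ 2) ^ p :=
        pow_le_pow_left₀ (by positivity) h1 p
      have h3 : ((2 * (R : ℝ) + 1) ^ 2) ^ p * (if Rd ε A x R H then 1 else 0) ≤
          ∑ R ∈ Finset.Icc 1 M, ((2 * (R : ℝ) + 1) ^ 2) ^ p * (if Rd ε A x R H then 1 else 0) := by
        refine Finset.single_le_sum (f := fun R : ℕ => ((2 * (R : ℝ) + 1) ^ 2) ^ p *
          (if Rd ε A x R H then (1 : ℝ) else 0)) (fun R _ => ?_) (Finset.mem_Icc.2 ⟨h0, hRM⟩)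
        split_ifs <;> positivity
      rw [if_pos hR1, mul_one] at h3
      linarith
  · simp only [hT, if_false, zero_add]
    exact hsum

open scoped Classical in
private theorem cog_Rd_meas (ε : ℝ) (S : Finset (ℤ × ℤ)) (c : ℤ × ℤ → ℝ) (A : Finset (ℤ × ℤ))
    (x : ℤ × ℤ) (R : ℕ) : MeasurableSet {h : S → ℝ | Rd ε A x R (gl S c h)} := by
  have h1 := Gx_fun_meas ε S c A x (fun F => if ∃ y ∈ F, (R : ℤ) ≤ dn (y - x) then (1 : ℝ) else 0)
  have h2 : {h : S → ℝ | Rd ε A x R (gl S c h)} =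
      (fun h : S → ℝ => (if ∃ y ∈ Gx ε A (gl S c h) x, (R : ℤ) ≤ dn (y - x) then (1 : ℝ) else 0)) ⁻¹'
        {1} := by
    ext h
    simp only [mem_ofPred_eq, mem_preimage, mem_singleton_iff]
    unfold Rd
    constructor
    · intro h3
      rw [if_pos h3]
    · intro h3
      by_contra hc
      rw [if_neg hc] at h3
      norm_num at h3
  rw [h2]
  exact h1 (measurableSet_singleton 1)

private theorem cog_series (p : ℕ) : ∃ C : ℝ, 0 ≤ C ∧ ∀ (M : ℕ) (u : ℝ), 0 ≤ u → u ≤ 1 / 2 →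
    ∑ R ∈ Finset.Icc 1 M, ((2 * (R : ℝ) + 1) ^ 2) ^ p * (2 ^ 44 * ((R : ℝ) + 1) * u ^ R) ≤ C * u := by
  have hs : Summable (fun R : ℕ => (R : ℝ) ^ (2 * p + 1) * (1 / 2 : ℝ) ^ R) :=
    summable_pow_mul_geometric_of_norm_lt_one (2 * p + 1) (by norm_num)
  refine ⟨9 ^ p * 2 ^ 46 * ∑' R : ℕ, (R : ℝ) ^ (2 * p + 1) * (1 / 2 : ℝ) ^ R, ?_, ?_⟩
  · exact mul_nonneg (by positivity) (tsum_nonneg fun R => by positivity)
  · intro M u hu0 hu
    have h1 : ∀ R ∈ Finset.Icc 1 M, ((2 * (R : ℝ) + 1) ^ 2) ^ p * (2 ^ 44 * ((R : ℝ) + 1) * u ^ R) ≤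
        9 ^ p * 2 ^ 46 * u * ((R : ℝ) ^ (2 * p + 1) * (1 / 2 : ℝ) ^ R) := by
      intro R hR
      have hR1 : (1 : ℝ) ≤ R := by exact_mod_cast (Finset.mem_Icc.1 hR).1
      obtain ⟨k, rfl⟩ : ∃ k, R = k + 1 := ⟨R - 1, by have := (Finset.mem_Icc.1 hR).1; omega⟩
      have h2 : ((2 * ((k + 1 : ℕ) : ℝ) + 1) ^ 2) ^ p ≤ (9 * ((k + 1 : ℕ) : ℝ) ^ 2) ^ p := by
        refine pow_le_pow_left₀ (by positivity) ?_ p
        nlinarith
      have h3 : ((k + 1 : ℕ) : ℝ) + 1 ≤ 2 * ((k + 1 : ℕ) : ℝ) := by linarith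
      have h4 : u ^ (k + 1) ≤ 2 * u * (1 / 2) ^ (k + 1) := by
        rw [pow_succ, pow_succ]
        have : u ^ k ≤ (1 / 2) ^ k := pow_le_pow_left₀ hu0 hu k
        nlinarith [pow_nonneg hu0 k]
      calc ((2 * ((k + 1 : ℕ) : ℝ) + 1) ^ 2) ^ p *
            (2 ^ 44 * (((k + 1 : ℕ) : ℝ) + 1) * u ^ (k + 1)) ≤
          (9 * ((k + 1 : ℕ) : ℝ) ^ 2) ^ p * (2 ^ 44 * (2 * ((k + 1 : ℕ) : ℝ)) *
            (2 * u * (1 / 2) ^ (k + 1))) := by gcongr
        _ = 9 ^ p * 2 ^ 46 * u * (((k + 1 : ℕ) : ℝ) ^ (2 * p + 1) * (1 / 2 : ℝ) ^ (k + 1)) := by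
          rw [mul_pow, ← pow_mul, pow_succ _ (2 * p)]
          ring
    refine (Finset.sum_le_sum h1).trans ?_
    rw [← Finset.mul_sum]
    have h5 := hs.sum_le_tsum (Finset.Icc 1 M) (fun R _ => by positivity)
    calc 9 ^ p * 2 ^ 46 * u * ∑ R ∈ Finset.Icc 1 M, (R : ℝ) ^ (2 * p + 1) * (1 / 2 : ℝ) ^ R ≤
        9 ^ p * 2 ^ 46 * u * ∑' R : ℕ, (R : ℝ) ^ (2 * p + 1) * (1 / 2 : ℝ) ^ R :=
          mul_le_mul_of_nonneg_left h5 (by positivity)
      _ = _ := by ring

open scoped Classical in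
theorem moment (p : ℕ) : ∃ C : ℝ, 0 ≤ C ∧ ∀ (D A : Finset (ℤ × ℤ)), A ⊆ D →
    ∀ b : ℤ × ℤ → ℝ, (∀ z, |b z| ≤ 1 / 2) → ∀ ε : ℝ, 0 < ε → ε ≤ 1 / 2 ^ 48 → ∀ x ∈ A,
      ∫ h, (if Tx ε x (gl D b h) then ((Gx ε A (gl D b h) x).card : ℝ) ^ p else 0)
        ∂(Mu D b) ≤ C * ε := by
  obtain ⟨C, hC, HC⟩ := cog_series p
  refine ⟨2 ^ 47 * (1 + C), by positivity, ?_⟩
  intro D A hA b hb ε h0 h1 x hx
  have hP : IsProbabilityMeasure (Mu D b) := prob hb
  have h12 : ε ≤ 1 / 2 := h1.trans (by norm_num)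
  obtain ⟨M, hM⟩ := cog_top (ε := ε) A x
  have hTm := Tx_meas ε D b x
  have hRm := fun R => cog_Rd_meas ε D b A x R
  have i1 : Integrable (fun h : D → ℝ => if Tx ε x (gl D b h) then (1 : ℝ) else 0) (Mu D b) := by
    have : (fun h : D → ℝ => if Tx ε x (gl D b h) then (1 : ℝ) else 0) =
        {h : D → ℝ | Tx ε x (gl D b h)}.indicator (fun _ => 1) := by
      funext h; simp [indicator]
    rw [this]
    exact (integrable_const 1).indicator hTm
  have i2 : ∀ R : ℕ, Integrable (fun h : D → ℝ => if Rd ε A x R (gl D b h) then (1 : ℝ) else 0)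
      (Mu D b) := by
    intro R
    have : (fun h : D → ℝ => if Rd ε A x R (gl D b h) then (1 : ℝ) else 0) =
        {h : D → ℝ | Rd ε A x R (gl D b h)}.indicator (fun _ => 1) := by
      funext h; simp [indicator]
    rw [this]
    exact (integrable_const 1).indicator (hRm R)
  have e1 : ∫ h, (if Tx ε x (gl D b h) then (1 : ℝ) else 0) ∂(Mu D b) ≤ 2 ^ 47 * ε := by
    have : (fun h : D → ℝ => if Tx ε x (gl D b h) then (1 : ℝ) else 0) =
        {h : D → ℝ | Tx ε x (gl D b h)}.indicator 1 := by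
      funext h; simp [indicator]
    rw [this, integral_indicator_one hTm]
    refine cog_mu hb (by positivity) ?_
    exact vol_Tx hb h0 h12 (hA hx)
  have e2 : ∀ R : ℕ, ∫ h, (if Rd ε A x R (gl D b h) then (1 : ℝ) else 0) ∂(Mu D b) ≤
      2 ^ 44 * ((R : ℝ) + 1) * (2 ^ 47 * ε) ^ R := by
    intro R
    have : (fun h : D → ℝ => if Rd ε A x R (gl D b h) then (1 : ℝ) else 0) =
        {h : D → ℝ | Rd ε A x R (gl D b h)}.indicator 1 := by
      funext h; simp [indicator]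
    rw [this, integral_indicator_one (hRm R)]
    refine cog_mu hb (by positivity) ?_
    refine (vol_Rd hA hb h0 h12 hx R).trans (le_of_eq ?_)
    have q1 : ENNReal.ofReal ((R : ℝ) + 1) = (R : ℝ≥0∞) + 1 := by
      rw [ENNReal.ofReal_add (by positivity) (by norm_num), ENNReal.ofReal_natCast,
        ENNReal.ofReal_one]
    have q2 : ENNReal.ofReal ((2 : ℝ) ^ 44) = 2 ^ 44 := by
      rw [ENNReal.ofReal_pow (by norm_num)]; norm_num
    have q3 : ENNReal.ofReal (2 ^ 44 * ((R : ℝ) + 1) * (2 ^ 47 * ε) ^ R) =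
        2 ^ 44 * ((R : ℝ≥0∞) + 1) * ENNReal.ofReal (2 ^ 47 * ε) ^ R := by
      rw [ENNReal.ofReal_mul (by positivity), ENNReal.ofReal_mul (by positivity), q1, q2,
        ENNReal.ofReal_pow (by positivity)]
    rw [q3]
  have key : ∫ h, (if Tx ε x (gl D b h) then ((Gx ε A (gl D b h) x).card : ℝ) ^ p else 0)
      ∂(Mu D b) ≤ ∫ h, ((if Tx ε x (gl D b h) then 1 else 0) +
        ∑ R ∈ Finset.Icc 1 M, ((2 * (R : ℝ) + 1) ^ 2) ^ p *
          (if Rd ε A x R (gl D b h) then 1 else 0)) ∂(Mu D b) := by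
    refine integral_mono_of_nonneg ?_ ?_ ?_
    · exact ae_of_all _ fun h => by
        show (0 : ℝ) ≤ if Tx ε x (gl D b h) then ((Gx ε A (gl D b h) x).card : ℝ) ^ p else 0
        split_ifs <;> positivity
    · exact i1.add (integrable_finsetSum _ fun R _ => (i2 R).const_mul _)
    · exact ae_of_all _ fun h => cog_pt p A hx M (gl D b h) (hM _)
  refine key.trans ?_
  rw [integral_add i1 (integrable_finsetSum _ fun R _ => (i2 R).const_mul _),
    integral_finsetSum _ fun R _ => (i2 R).const_mul _]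
  have e3 : ∑ R ∈ Finset.Icc 1 M, ∫ h, ((2 * (R : ℝ) + 1) ^ 2) ^ p *
      (if Rd ε A x R (gl D b h) then 1 else 0) ∂(Mu D b) ≤ C * (2 ^ 47 * ε) := by
    refine le_trans (Finset.sum_le_sum fun R _ => ?_) (HC M (2 ^ 47 * ε) (by positivity) ?_)
    · rw [integral_const_mul]
      exact mul_le_mul_of_nonneg_left (e2 R) (by positivity)
    · calc 2 ^ 47 * ε ≤ 2 ^ 47 * (1 / 2 ^ 48) := mul_le_mul_of_nonneg_left h1 (by positivity)
        _ = 1 / 2 := by norm_num
  calc _ ≤ 2 ^ 47 * ε + C * (2 ^ 47 * ε) := add_le_add e1 e3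
    _ = 2 ^ 47 * (1 + C) * ε := by ring
/- END cog -/

/- MODULE coh
Consequence of `moment`: without open edge at `x` the cluster is `{x}`. -/
private theorem coh_int (ε : ℝ) {D : Finset (ℤ × ℤ)} {b : ℤ × ℤ → ℝ} (hb : ∀ z, |b z| ≤ 1 / 2)
    (A : Finset (ℤ × ℤ)) (x : ℤ × ℤ) (p : ℕ) :
    Integrable (fun h : D → ℝ => ((Gx ε A (gl D b h) x).card : ℝ) ^ p) (Mu D b) := by
  have hP : IsProbabilityMeasure (Mu D b) := prob hb
  refine Integrable.of_bound (C := (A.card : ℝ) ^ p) ?_ (ae_of_all _ fun h => ?_)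
  · exact (Gx_fun_meas ε D b A x (fun F => (F.card : ℝ) ^ p)).aestronglyMeasurable
  · rw [Real.norm_of_nonneg (by positivity)]
    exact pow_le_pow_left₀ (by positivity) (by exact_mod_cast Gx_card_le ε A (gl D b h) x) p

theorem moment_one (p : ℕ) : ∃ C : ℝ, 0 ≤ C ∧ ∀ (D A : Finset (ℤ × ℤ)), A ⊆ D →
    ∀ b : ℤ × ℤ → ℝ, (∀ z, |b z| ≤ 1 / 2) → ∀ ε : ℝ, 0 < ε → ε ≤ 1 / 2 ^ 48 → ∀ x ∈ A,
      ∫ h, ((Gx ε A (gl D b h) x).card : ℝ) ^ p ∂(Mu D b) ≤ 1 + C * ε := by
  classical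
  obtain ⟨C, hC, H⟩ := moment p
  refine ⟨C, hC, ?_⟩
  intro D A hA b hb ε h0 h1 x hx
  have hP : IsProbabilityMeasure (Mu D b) := prob hb
  have hT := Tx_meas ε D b x
  have hi := coh_int ε (D := D) hb A x p
  have hi2 : Integrable (fun h : D → ℝ => if Tx ε x (gl D b h) then
      ((Gx ε A (gl D b h) x).card : ℝ) ^ p else 0) (Mu D b) := by
    have : (fun h : D → ℝ => if Tx ε x (gl D b h) then
        ((Gx ε A (gl D b h) x).card : ℝ) ^ p else 0) = {h : D → ℝ | Tx ε x (gl D b h)}.indicator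
          (fun h : D → ℝ => ((Gx ε A (gl D b h) x).card : ℝ) ^ p) := by
      funext h; simp [indicator]
    rw [this]
    exact hi.indicator hT
  have hpt : ∀ h : D → ℝ, ((Gx ε A (gl D b h) x).card : ℝ) ^ p ≤
      1 + (if Tx ε x (gl D b h) then ((Gx ε A (gl D b h) x).card : ℝ) ^ p else 0) := by
    intro h
    by_cases hT : Tx ε x (gl D b h)
    · rw [if_pos hT]; linarith
    · rw [if_neg hT]
      have h2 : Gx ε A (gl D b h) x = {x} := by
        refine Cmp_single hx fun y hy => hT ?_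
        obtain ⟨_, _, i, h3 | h3⟩ := hy
        · exact ⟨i, h3.2⟩
        · refine ⟨i + 3, ?_⟩
          have h4 := hd_opp (gl D b h) y i
          have h5 := h3.2
          unfold Op at h5 ⊢
          rw [mem_ofPred_eq] at h5 ⊢
          rw [h3.1, h4, abs_neg]
          exact h5
      rw [h2]; simp
  calc ∫ h, ((Gx ε A (gl D b h) x).card : ℝ) ^ p ∂(Mu D b) ≤
      ∫ h, (1 + (if Tx ε x (gl D b h) then ((Gx ε A (gl D b h) x).card : ℝ) ^ p else 0))
        ∂(Mu D b) := integral_mono hi ((integrable_const 1).add hi2) hpt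
    _ = 1 + ∫ h, (if Tx ε x (gl D b h) then ((Gx ε A (gl D b h) x).card : ℝ) ^ p else 0)
        ∂(Mu D b) := by
      rw [integral_add (integrable_const 1) hi2]
      simp
    _ ≤ 1 + C * ε := by
      have := H D A hA b hb ε h0 h1 x hx
      linarith
/- END coh -/

end Pool.Agent.Hmk
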