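import Pool.Agent.Hmk.CfG

/-!
# Hmk, cluster fields (4): the fields `rho`

`rho ε U A M x H` is the expectation of the value `vg A S M x` of the component of `x`, for the
random set `S ⊆ U` of edges.  `U` is either `Uo A` (all edges which start in `A`: the field vanishes
on the clusters which touch the outside of `A`) or `Ui A` (the edges inside `A`).
-/

set_option autoImplicit false

open MeasureTheory Set Filter
open scoped ENNReal ContDiff Topology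

noncomputable section

namespace Pool.Agent.Hmk

/-- all directed edges which start in `A` -/
def Uo (A : Finset (ℤ × ℤ)) : Finset Ed := A ×ˢ (Finset.univ : Finset (Fin 6))

/-- the directed edges inside `A` -/
def Ui (A : Finset (ℤ × ℤ)) : Finset Ed := (Uo A).filter (fun e => e.1 + st e.2 ∈ A)

/-- the regularised field -/
def rho (ε : ℝ) (U : Finset Ed) (A : Finset (ℤ × ℤ)) (M : Finset (ℤ × ℤ) → ℝ) (x : ℤ × ℤ)
    (H : ℤ × ℤ → ℝ) : ℝ :=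
  cfu ε U (fun S => vg A (S : Set Ed) M x) H

/-- the cluster of `x` in `A` for the nearly saturated edges -/
def Gx (ε : ℝ) (A : Finset (ℤ × ℤ)) (H : ℤ × ℤ → ℝ) (x : ℤ × ℤ) : Finset (ℤ × ℤ) :=
  Cmp A (Op ε H) x

/-- a nearly saturated edge of `U` touches the cluster of `x` and the site `y` -/
def Ny (ε : ℝ) (U : Finset Ed) (A : Finset (ℤ × ℤ)) (H : ℤ × ℤ → ℝ) (x y : ℤ × ℤ) : Prop :=
  ∃ e ∈ U, e ∈ Op ε H ∧ Tch y e ∧ (e.1 ∈ Gx ε A H x ∨ e.1 + st e.2 ∈ Gx ε A H x)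

/-- no edge of `U` leaves `A`, or `ψ` vanishes off `A` -/
def UA (U : Finset Ed) (A : Finset (ℤ × ℤ)) (ψ : ℤ × ℤ → ℝ) : Prop :=
  U ⊆ Uo A ∧ ((∀ z ∉ A, ψ z = 0) ∨ U ⊆ Ui A)

/- MODULE cra
Basic properties.  For `rho_tie_o`, `x ∉ A`, `x + st i ∈ A`: use the edge `(x + st i, i + 3)`, which
has the same absolute height difference, and `vg_flag`, `vg_out`. -/
theorem rho_smooth (ε : ℝ) (U : Finset Ed) (A : Finset (ℤ × ℤ)) (M : Finset (ℤ × ℤ) → ℝ)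
    (x : ℤ × ℤ) (S : Finset (ℤ × ℤ)) (c : ℤ × ℤ → ℝ) :
    ContDiff ℝ ∞ (fun h : S → ℝ => rho ε U A M x (gl S c h)) :=
  cfu_smooth ε U _ S c

theorem rho_out (ε : ℝ) (U : Finset Ed) {A : Finset (ℤ × ℤ)} (M : Finset (ℤ × ℤ) → ℝ)
    {x : ℤ × ℤ} (hx : x ∉ A) (H : ℤ × ℤ → ℝ) : rho ε U A M x H = 0 := by
  unfold rho
  simp only [vg_out _ M hx]
  exact cfu_const ε U 0 H

private theorem cra_opp (x : ℤ × ℤ) (i : Fin 6) : x + st i + st (i + 3) = x := by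
  rw [st_opp]
  abel

private theorem cra_edge {ε : ℝ} (h0 : 0 < ε) (h1 : ε ≤ 1 / 2) {U : Finset Ed}
    {A : Finset (ℤ × ℤ)} (M : Finset (ℤ × ℤ) → ℝ) {x : ℤ × ℤ} {i : Fin 6} (H : ℤ × ℤ → ℝ)
    (hx : x ∈ A) (he : (x, i) ∈ U) (hh : 1 - ε / 2 ≤ |H x - H (x + st i)|) :
    rho ε U A M x H = rho ε U A M (x + st i) H := by
  refine cfu_congr h0 h1 fun S _ _ hS => ?_
  have h2 : ((x, i) : Ed) ∈ (S : Set Ed) := Finset.mem_coe.2 (hS (x, i) he hh)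
  exact vg_edge M hx h2

theorem rho_tie_o {ε : ℝ} (h0 : 0 < ε) (h1 : ε ≤ 1 / 2) (A : Finset (ℤ × ℤ))
    (M : Finset (ℤ × ℤ) → ℝ) (x : ℤ × ℤ) (i : Fin 6) (H : ℤ × ℤ → ℝ)
    (hh : 1 - ε / 2 ≤ |H x - H (x + st i)|) : rho ε (Uo A) A M x H = rho ε (Uo A) A M (x + st i) H := by
  by_cases hx : x ∈ A
  · exact cra_edge h0 h1 M H hx (by simp [Uo, hx]) hh
  · rw [rho_out ε _ M hx]
    by_cases hi : x + st i ∈ A
    · have h2 : rho ε (Uo A) A M (x + st i) H = cfu ε (Uo A) (fun _ => 0) H := by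
        refine cfu_congr h0 h1 fun S _ _ hS => ?_
        have h3 : ((x + st i, i + 3) : Ed) ∈ S := hS _ (by simp [Uo, hi]) (by
          rw [hd_opp, abs_neg]
          exact hh)
        refine vg_flag M (i := i + 3) (Finset.mem_coe.2 h3) ?_
        rw [cra_opp]
        exact hx
      rw [h2, cfu_const]
    · rw [rho_out ε _ M hi]

theorem rho_tie_i {ε : ℝ} (h0 : 0 < ε) (h1 : ε ≤ 1 / 2) {A : Finset (ℤ × ℤ)}
    (M : Finset (ℤ × ℤ) → ℝ) {x : ℤ × ℤ} {i : Fin 6} (H : ℤ × ℤ → ℝ) (hx : x ∈ A)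
    (hi : x + st i ∈ A) (hh : 1 - ε / 2 ≤ |H x - H (x + st i)|) :
    rho ε (Ui A) A M x H = rho ε (Ui A) A M (x + st i) H :=
  cra_edge h0 h1 M H hx (by simp [Ui, Uo, hx, hi]) hh

/-- `rho` with `U = Uo A`, `A ⊆ D`, is a nice field -/
theorem rho_nice {ε : ℝ} (h0 : 0 < ε) (h1 : ε ≤ 1 / 2) {D A : Finset (ℤ × ℤ)} (hA : A ⊆ D)
    (b : ℤ × ℤ → ℝ) (M : Finset (ℤ × ℤ) → ℝ) :
    Nice D b (fun x h => rho ε (Uo A) A M x (gl D b h)) where
  sm := fun z => rho_smooth ε _ A M z D b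
  off := fun z hz h => rho_out ε _ M (fun hA' => hz (hA hA')) _
  tie := ⟨ε / 2, by positivity, fun z _ i h hh => rho_tie_o h0 h1 A M z i _ hh.le⟩

theorem rho_av_add (ε : ℝ) (U : Finset Ed) (A : Finset (ℤ × ℤ)) (ψ φ : ℤ × ℤ → ℝ) (x : ℤ × ℤ)
    (H : ℤ × ℤ → ℝ) : rho ε U A (Mav (fun z => ψ z + φ z)) x H =
      rho ε U A (Mav ψ) x H + rho ε U A (Mav φ) x H := by
  unfold rho
  simp only [vg_av_add]
  exact cfu_add ε U _ _ H

theorem rho_av_smul (ε : ℝ) (U : Finset Ed) (A : Finset (ℤ × ℤ)) (c : ℝ) (ψ : ℤ × ℤ → ℝ)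
    (x : ℤ × ℤ) (H : ℤ × ℤ → ℝ) :
    rho ε U A (Mav (fun z => c * ψ z)) x H = c * rho ε U A (Mav ψ) x H := by
  unfold rho
  simp only [vg_av_smul]
  exact cfu_smul ε U c _ H

private theorem cra_sub {ε : ℝ} {A : Finset (ℤ × ℤ)} {H : ℤ × ℤ → ℝ} {S : Finset Ed}
    (hS : ∀ e ∈ S, e ∈ Op ε H) (x : ℤ × ℤ) : Cmp A (S : Set Ed) x ⊆ Gx ε A H x :=
  Cmp_mono A (fun e he => hS e (Finset.mem_coe.1 he)) x

theorem rho_bound {ε : ℝ} (h0 : 0 < ε) (h1 : ε ≤ 1 / 2) (U : Finset Ed) (A : Finset (ℤ × ℤ))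
    {M : Finset (ℤ × ℤ) → ℝ} {ψ : ℤ × ℤ → ℝ} (hM : IsMean M ψ) {m : ℝ} (hm : 0 ≤ m) (x : ℤ × ℤ)
    (H : ℤ × ℤ → ℝ) (h : ∀ y ∈ Gx ε A H x, |ψ y| ≤ m) : |rho ε U A M x H| ≤ m :=
  cfu_abs_le h0 h1 fun S _ hS _ => vg_bound _ hM hm x fun y hy => h y (cra_sub hS x hy)

theorem rho_nonneg {ε : ℝ} (h0 : 0 < ε) (h1 : ε ≤ 1 / 2) (U : Finset Ed) (A : Finset (ℤ × ℤ))
    {M : Finset (ℤ × ℤ) → ℝ} {ψ : ℤ × ℤ → ℝ} (hM : IsMean M ψ) (hψ : ∀ z, 0 ≤ ψ z) (x : ℤ × ℤ)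
    (H : ℤ × ℤ → ℝ) : 0 ≤ rho ε U A M x H := by
  rw [← cfu_const ε U 0 H]
  exact cfu_le h0 h1 fun S _ _ _ => vg_nonneg _ hM x fun y _ => hψ y

theorem rho_mn_le {ε : ℝ} (h0 : 0 < ε) (h1 : ε ≤ 1 / 2) (U : Finset Ed) (A : Finset (ℤ × ℤ))
    {ψ : ℤ × ℤ → ℝ} (hψ : ∀ z, 0 ≤ ψ z) (x : ℤ × ℤ) (H : ℤ × ℤ → ℝ) :
    rho ε U A (Mmn ψ) x H ≤ ψ x := by
  rw [← cfu_const ε U (ψ x) H]
  exact cfu_le h0 h1 fun S _ _ _ => vg_mn_le _ hψ x
/- END cra -/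

/- MODULE crb
Comparison with the cluster `Gx`.  Only sets `S ⊆ Op` count. -/
private theorem crb_osc {ε : ℝ} {U : Finset Ed} {A : Finset (ℤ × ℤ)}
    {M : Finset (ℤ × ℤ) → ℝ} {ψ : ℤ × ℤ → ℝ} (hM : IsMean M ψ) (hU : UA U A ψ) {x y : ℤ × ℤ}
    {H : ℤ × ℤ → ℝ} (hx : x ∈ A) (hy : y ∈ Gx ε A H x) {S : Finset Ed} (hSU : S ⊆ U)
    (hS : ∀ e ∈ S, e ∈ Op ε H) : |vg A (S : Set Ed) M x - ψ y| ≤ 2 * Os A (Op ε H) ψ x := by
  refine vg_osc hM ?_ (fun e he => hS e (Finset.mem_coe.1 he)) hx hy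
  rcases hU.2 with h | h
  · exact Or.inl h
  · refine Or.inr fun e he => ?_
    have h2 := h (hSU (Finset.mem_coe.1 he))
    exact (Finset.mem_filter.1 h2).2

theorem rho_osc {ε : ℝ} (h0 : 0 < ε) (h1 : ε ≤ 1 / 2) {U : Finset Ed} {A : Finset (ℤ × ℤ)}
    {M : Finset (ℤ × ℤ) → ℝ} {ψ : ℤ × ℤ → ℝ} (hM : IsMean M ψ) (hU : UA U A ψ) {x y : ℤ × ℤ}
    (H : ℤ × ℤ → ℝ) (hx : x ∈ A) (hy : y ∈ Gx ε A H x) :
    |rho ε U A M x H - ψ y| ≤ 2 * Os A (Op ε H) ψ x := by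
  have e1 : rho ε U A M x H - ψ y =
      cfu ε U (fun S => vg A (S : Set Ed) M x - ψ y) H := by
    rw [cfu_sub, cfu_const]
    rfl
  rw [e1]
  exact cfu_abs_le h0 h1 fun S hSU hS _ => crb_osc hM hU hx hy hSU hS

private theorem crb_vg {A : Finset (ℤ × ℤ)} {S : Set Ed} (M : Finset (ℤ × ℤ) → ℝ) {x : ℤ × ℤ}
    (hx : x ∈ A) (hF : ¬ Fg A S x) : vg A S M x = M (Cmp A S x) := by
  unfold vg
  rw [if_pos ⟨hx, hF⟩]

/-- no nearly saturated edge of `U` at `x`: `rho = ψ x` -/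
theorem rho_triv {ε : ℝ} (h0 : 0 < ε) (h1 : ε ≤ 1 / 2) {U : Finset Ed} {A : Finset (ℤ × ℤ)}
    {M : Finset (ℤ × ℤ) → ℝ} {ψ : ℤ × ℤ → ℝ} (hM : IsMean M ψ) {x : ℤ × ℤ}
    (H : ℤ × ℤ → ℝ) (hx : x ∈ A) (hT : ∀ e ∈ U, e ∈ Op ε H → ¬ Tch x e) :
    rho ε U A M x H = ψ x := by
  rw [← cfu_const ε U (ψ x) H]
  refine cfu_congr h0 h1 fun S hSU hS _ => ?_
  have h2 : ∀ e : Ed, e ∈ (S : Set Ed) → ¬ Tch x e := fun e he =>
    hT e (hSU (Finset.mem_coe.1 he)) (hS e (Finset.mem_coe.1 he))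
  have h3 : Cmp A (S : Set Ed) x = {x} := by
    refine Cmp_single hx fun y hy => ?_
    obtain ⟨-, -, i, ⟨-, h⟩ | ⟨h, h'⟩⟩ := hy
    · exact h2 _ h (Or.inl rfl)
    · exact h2 _ h' (Or.inr h.symm)
  have h4 : ¬ Fg A (S : Set Ed) x := by
    rintro ⟨y, hy, i, hi, -⟩
    rw [h3, Finset.mem_singleton] at hy
    subst hy
    exact h2 _ hi (Or.inl rfl)
  rw [crb_vg M hx h4, h3, hM.single]

/-- a mean of a constant function, no open edge from the cluster out of `A` -/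
theorem rho_one {ε : ℝ} (h0 : 0 < ε) (h1 : ε ≤ 1 / 2) {U : Finset Ed} {A : Finset (ℤ × ℤ)}
    {M : Finset (ℤ × ℤ) → ℝ} {ψ : ℤ × ℤ → ℝ} (hM : IsMean M ψ) {x : ℤ × ℤ} {t : ℝ}
    (H : ℤ × ℤ → ℝ) (hx : x ∈ A) (hc : ∀ y ∈ Gx ε A H x, ψ y = t)
    (hT : ∀ y ∈ Gx ε A H x, ∀ i, (y, i) ∈ U → (y, i) ∈ Op ε H → y + st i ∈ A) :
    rho ε U A M x H = t := by
  rw [← cfu_const ε U t H]
  refine cfu_congr h0 h1 fun S hSU hS _ => ?_
  have hsub := cra_sub (A := A) hS x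
  have h4 : ¬ Fg A (S : Set Ed) x := by
    rintro ⟨y, hy, i, hi, hn⟩
    exact hn (hT y (hsub hy) i (hSU (Finset.mem_coe.1 hi)) (hS _ (Finset.mem_coe.1 hi)))
  rw [crb_vg M hx h4]
  obtain ⟨⟨z, hz, hz'⟩, w, hw, hw'⟩ := hM (Cmp A (S : Set Ed) x) ⟨x, Cmp_self _ hx⟩
  rw [hc z (hsub hz)] at hz'
  rw [hc w (hsub hw)] at hw'
  exact le_antisymm hw' hz'

private theorem crb_C {ε C : ℝ} (hC : ∀ z, |deriv (qs ε) z| ≤ C) : 0 ≤ C :=
  (abs_nonneg _).trans (hC 0)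

private theorem crb_Uy {ε : ℝ} {U : Finset Ed} {H : ℤ × ℤ → ℝ} {y : ℤ × ℤ} {e : Ed}
    (he : e ∈ Uy ε U H y) : e ∈ U ∧ e ∈ Op ε H ∧ Tch y e := by
  simp only [Uy, Finset.mem_filter] at he
  exact he

private theorem crb_ins {ε : ℝ} {U : Finset Ed} {H : ℤ × ℤ → ℝ} {e : Ed} (heU : e ∈ U)
    (heO : e ∈ Op ε H) {T : Finset Ed} (hTU : T ⊆ U) (hT : ∀ e ∈ T, e ∈ Op ε H) :
    insert e T ⊆ U ∧ ∀ e' ∈ insert e T, e' ∈ Op ε H := by
  refine ⟨Finset.insert_subset heU hTU, fun e' he' => ?_⟩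
  rcases Finset.mem_insert.1 he' with h | h
  · rw [h]
    exact heO
  · exact hT e' h

theorem rho_pz_le {ε : ℝ} (h0 : 0 < ε) (h1 : ε ≤ 1 / 2) {C : ℝ}
    (hC : ∀ z, |deriv (qs ε) z| ≤ C) {U : Finset Ed} {A : Finset (ℤ × ℤ)}
    {M : Finset (ℤ × ℤ) → ℝ} {ψ : ℤ × ℤ → ℝ} (hM : IsMean M ψ) (hU : UA U A ψ) {x : ℤ × ℤ}
    (S : Finset (ℤ × ℤ)) (c : ℤ × ℤ → ℝ) (y : ℤ × ℤ) (h : S → ℝ) (hx : x ∈ A) :
    |pz S y (fun h => rho ε U A M x (gl S c h)) h| ≤ 48 * C * Os A (Op ε (gl S c h)) ψ x := by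
  set O := Os A (Op ε (gl S c h)) ψ x with hO
  have hO0 : 0 ≤ O := Os_nonneg _ _ _ _
  have hx' : x ∈ Gx ε A (gl S c h) x := Cmp_self _ hx
  have h2 := cfu_pz_le h0 h1 hC (U := U) (Φ := fun S => vg A (S : Set Ed) M x) S c y h
    (B := fun _ => 4 * O) (fun e he T hTU hT => by
      obtain ⟨heU, heO, -⟩ := crb_Uy he
      obtain ⟨i1, i2⟩ := crb_ins heU heO hTU hT
      have a1 := crb_osc hM hU hx hx' i1 i2
      have a2 := crb_osc hM hU hx hx' hTU hT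
      rw [abs_le] at a1 a2 ⊢
      constructor <;> linarith [a1.1, a1.2, a2.1, a2.2])
  refine h2.trans ?_
  rw [Finset.sum_const, nsmul_eq_mul]
  have h3 : ((Uy ε U (gl S c h) y).card : ℝ) ≤ 12 := by exact_mod_cast Uy_card ε U (gl S c h) y
  have hC0 := crb_C hC
  calc C * (((Uy ε U (gl S c h) y).card : ℝ) * (4 * O)) ≤ C * (12 * (4 * O)) := by
        gcongr
    _ = 48 * C * O := by ring

private theorem crb_zero {ε : ℝ} {U : Finset Ed} {A : Finset (ℤ × ℤ)}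
    (M : Finset (ℤ × ℤ) → ℝ) {x y : ℤ × ℤ} {H : ℤ × ℤ → ℝ} (hN : ¬ Ny ε U A H x y) {e : Ed}
    (heU : e ∈ U) (heO : e ∈ Op ε H) (hey : Tch y e) {T : Finset Ed} (hTU : T ⊆ U)
    (hT : ∀ e ∈ T, e ∈ Op ε H) :
    vg A ((insert e T : Finset Ed) : Set Ed) M x = vg A (T : Set Ed) M x := by
  obtain ⟨i1, i2⟩ := crb_ins heU heO hTU hT
  have hsub := cra_sub (A := A) i2 x
  have h3 : e.1 ∉ Gx ε A H x ∧ e.1 + st e.2 ∉ Gx ε A H x := by
    constructor <;> intro h3 <;> exact hN ⟨e, heU, heO, hey, by tauto⟩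
  rw [Finset.coe_insert] at hsub ⊢
  exact vg_insert M (fun h => h3.1 (hsub h)) (fun h => h3.2 (hsub h))

theorem rho_pz_zero {ε : ℝ} (h0 : 0 < ε) (h1 : ε ≤ 1 / 2) (U : Finset Ed) (A : Finset (ℤ × ℤ))
    (M : Finset (ℤ × ℤ) → ℝ) {x y : ℤ × ℤ} (S : Finset (ℤ × ℤ)) (c : ℤ × ℤ → ℝ) (h : S → ℝ)
    (hN : ¬ Ny ε U A (gl S c h) x y) :
    pz S y (fun h => rho ε U A M x (gl S c h)) h = 0 := by
  obtain ⟨C, hC0, hC⟩ := qs_bound h0 h1
  have h2 := cfu_pz_le h0 h1 (fun z => (hC z).1) (U := U) (Φ := fun S => vg A (S : Set Ed) M x)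
    S c y h (B := fun _ => 0) (fun e he T hTU hT => by
      obtain ⟨heU, heO, hey⟩ := crb_Uy he
      rw [crb_zero M hN heU heO hey hTU hT, sub_self, abs_zero])
  simp only [Finset.sum_const_zero, mul_zero] at h2
  exact abs_eq_zero.1 (le_antisymm h2 (abs_nonneg _))
/- END crb -/

/- MODULE crc
Second derivatives (`cfu_pz2_le` with `B e = 4 Os`, `B2 e e' = 8 Os`; both vanish if `e` resp. `e'`
does not touch the cluster). -/
theorem rho_pz2_le {ε : ℝ} (h0 : 0 < ε) (h1 : ε ≤ 1 / 2) {C : ℝ}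
    (hC : ∀ z, |deriv (qs ε) z| ≤ C ∧ |deriv (deriv (qs ε)) z| ≤ C) {U : Finset Ed}
    {A : Finset (ℤ × ℤ)} {M : Finset (ℤ × ℤ) → ℝ} {ψ : ℤ × ℤ → ℝ} (hM : IsMean M ψ)
    (hU : UA U A ψ) {x : ℤ × ℤ} (S : Finset (ℤ × ℤ)) (c : ℤ × ℤ → ℝ) (y z : ℤ × ℤ) (h : S → ℝ)
    (hx : x ∈ A) :
    |pz S z (pz S y (fun h => rho ε U A M x (gl S c h))) h| ≤
      (48 * C + 1152 * C ^ 2) * Os A (Op ε (gl S c h)) ψ x := by
  set O := Os A (Op ε (gl S c h)) ψ x with hO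
  have hO0 : 0 ≤ O := Os_nonneg _ _ _ _
  have hC0 := crb_C fun z => (hC z).1
  have hx' : x ∈ Gx ε A (gl S c h) x := Cmp_self _ hx
  have h2 := cfu_pz2_le h0 h1 hC (U := U) (Φ := fun S => vg A (S : Set Ed) M x) S c y z h
    (B := fun _ => 4 * O) (B2 := fun _ _ => 8 * O) (fun e he T hTU hT => by
      obtain ⟨heU, heO, -⟩ := crb_Uy he
      obtain ⟨i1, i2⟩ := crb_ins heU heO hTU hT
      have a1 := crb_osc hM hU hx hx' i1 i2
      have a2 := crb_osc hM hU hx hx' hTU hT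
      rw [abs_le] at a1 a2 ⊢
      constructor <;> linarith [a1.1, a1.2, a2.1, a2.2]) (fun _ _ => by positivity)
    (fun e he e' he' _ T hTU hT => by
      obtain ⟨heU, heO, -⟩ := crb_Uy he
      obtain ⟨heU', heO', -⟩ := crb_Uy he'
      obtain ⟨i1, i2⟩ := crb_ins heU heO hTU hT
      obtain ⟨j1, j2⟩ := crb_ins heU' heO' hTU hT
      obtain ⟨k1, k2⟩ := crb_ins heU heO j1 j2
      have a1 := crb_osc hM hU hx hx' i1 i2
      have a2 := crb_osc hM hU hx hx' hTU hT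
      have a3 := crb_osc hM hU hx hx' j1 j2
      have a4 := crb_osc hM hU hx hx' k1 k2
      rw [abs_le] at a1 a2 a3 a4 ⊢
      constructor <;> linarith [a1.1, a1.2, a2.1, a2.2, a3.1, a3.2, a4.1, a4.2])
  refine h2.trans ?_
  simp only [Finset.sum_const, nsmul_eq_mul]
  have h3 : ((Uy ε U (gl S c h) y).card : ℝ) ≤ 12 := by exact_mod_cast Uy_card ε U (gl S c h) y
  have h4 : ((Uy ε U (gl S c h) z).card : ℝ) ≤ 12 := by exact_mod_cast Uy_card ε U (gl S c h) z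
  have h5 : ((((Uy ε U (gl S c h) y).filter (fun e => Tch z e)).card : ℕ) : ℝ) ≤ 12 := by
    refine le_trans ?_ h3
    exact_mod_cast Finset.card_filter_le _ _
  calc C * (((((Uy ε U (gl S c h) y).filter (fun e => Tch z e)).card : ℕ) : ℝ) * (4 * O)) +
      C ^ 2 * (((Uy ε U (gl S c h) y).card : ℝ) * (((Uy ε U (gl S c h) z).card : ℝ) * (8 * O)))
      ≤ C * (12 * (4 * O)) + C ^ 2 * (12 * (12 * (8 * O))) := by
        gcongr
    _ = (48 * C + 1152 * C ^ 2) * O := by ring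

theorem rho_pz2_zero {ε : ℝ} (h0 : 0 < ε) (h1 : ε ≤ 1 / 2) (U : Finset Ed) (A : Finset (ℤ × ℤ))
    (M : Finset (ℤ × ℤ) → ℝ) {x y z : ℤ × ℤ} (S : Finset (ℤ × ℤ)) (c : ℤ × ℤ → ℝ) (h : S → ℝ)
    (hN : ¬ Ny ε U A (gl S c h) x y ∨ ¬ Ny ε U A (gl S c h) x z) :
    pz S z (pz S y (fun h => rho ε U A M x (gl S c h))) h = 0 := by
  obtain ⟨C, hC0, hC⟩ := qs_bound h0 h1
  set H := gl S c h with hH
  set Φ : Finset Ed → ℝ := fun S => vg A (S : Set Ed) M x with hΦ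
  have key : |pz S z (pz S y (fun h => rho ε U A M x (gl S c h))) h| ≤ 0 := by
    rcases hN with hN | hN
    · have h2 := cfu_pz2_le h0 h1 hC (U := U) (Φ := Φ) S c y z h
        (B := fun _ => 0) (B2 := fun _ _ => 0) (fun e he T hTU hT => by
          obtain ⟨heU, heO, hey⟩ := crb_Uy he
          simp only [hΦ]
          rw [crb_zero M hN heU heO hey hTU hT, sub_self, abs_zero]) (fun _ _ => le_rfl)
        (fun e he e' he' _ T hTU hT => by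
          obtain ⟨heU, heO, hey⟩ := crb_Uy he
          obtain ⟨heU', heO', -⟩ := crb_Uy he'
          obtain ⟨j1, j2⟩ := crb_ins heU' heO' hTU hT
          simp only [hΦ]
          rw [crb_zero M hN heU heO hey hTU hT, crb_zero M hN heU heO hey j1 j2]
          simp)
      simp only [Finset.sum_const_zero, mul_zero, add_zero] at h2
      exact h2
    · have h2 := cfu_pz2_le h0 h1 hC (U := U) (Φ := Φ) S c y z h
        (B := fun e => if Tch z e then 0 else ∑ T ∈ U.powerset, |Φ (insert e T) - Φ T|)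
        (B2 := fun _ _ => 0) (fun e he T hTU hT => by
          obtain ⟨heU, heO, hey⟩ := crb_Uy he
          by_cases hz : Tch z e
          · simp only [hΦ]
            rw [if_pos hz, crb_zero M hN heU heO hz hTU hT, sub_self, abs_zero]
          · rw [if_neg hz]
            exact Finset.single_le_sum (f := fun T => |Φ (insert e T) - Φ T|)
              (fun _ _ => abs_nonneg _) (Finset.mem_powerset.2 hTU)) (fun _ _ => le_rfl)
        (fun e he e' he' _ T hTU hT => by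
          obtain ⟨heU, heO, -⟩ := crb_Uy he
          obtain ⟨heU', heO', hez'⟩ := crb_Uy he'
          obtain ⟨i1, i2⟩ := crb_ins heU heO hTU hT
          simp only [hΦ]
          rw [Finset.insert_comm e e' T, crb_zero M hN heU' heO' hez' i1 i2,
            crb_zero M hN heU' heO' hez' hTU hT]
          simp)
      have h3 : ∑ e ∈ (Uy ε U (gl S c h) y).filter (fun e => Tch z e),
          (if Tch z e then 0 else ∑ T ∈ U.powerset, |Φ (insert e T) - Φ T|) = 0 :=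
        Finset.sum_eq_zero fun e he => if_pos (Finset.mem_filter.1 he).2
      simp only [Finset.sum_const_zero, mul_zero, add_zero] at h2
      rw [h3, mul_zero] at h2
      exact h2
  exact abs_eq_zero.1 (le_antisymm key (abs_nonneg _))
/- END crc -/

/- MODULE crd
Independence of the surrounding set: the cluster of `x` in the larger set `A'` lies in `A`, and all
nearly saturated edges of `U'` which touch it are in `U` (so they do not leave `A` if `U ⊆ Ui A`). -/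
private theorem crd_vg {ε : ℝ} {U U' : Finset Ed}
    {A A' : Finset (ℤ × ℤ)} (hA : A ⊆ A') (M : Finset (ℤ × ℤ) → ℝ) {x : ℤ × ℤ} (hx : x ∈ A)
    {H : ℤ × ℤ → ℝ} (hG : Gx ε A' H x ⊆ A)
    (hT : ∀ y ∈ Gx ε A' H x, ∀ e ∈ U', e ∈ Op ε H → Tch y e → e ∈ U ∧ e.1 + st e.2 ∈ A)
    {T : Finset Ed} (hTU : T ⊆ U') (hTO : ∀ e ∈ T, e ∈ Op ε H) :
    vg A' (T : Set Ed) M x = vg A ((T ∩ U : Finset Ed) : Set Ed) M x := by
  have hsub : Cmp A' (T : Set Ed) x ⊆ Gx ε A' H x := cra_sub hTO x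
  have e1 : Cmp A (T : Set Ed) x = Cmp A' (T : Set Ed) x := Cmp_subset_eq hA (hsub.trans hG)
  have hTUs : ((T ∩ U : Finset Ed) : Set Ed) ⊆ (T : Set Ed) :=
    Finset.coe_subset.2 Finset.inter_subset_left
  have e2 : Cmp A ((T ∩ U : Finset Ed) : Set Ed) x = Cmp A (T : Set Ed) x := by
    refine Finset.Subset.antisymm (Cmp_mono A hTUs x) fun y hy => ?_
    have hr := (mem_Cmp.1 hy).2
    induction hr with
    | refl => exact Cmp_self _ hx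
    | tail hab hbc ih =>
      rename_i b c
      have hb : b ∈ Cmp A (T : Set Ed) x := mem_Cmp.2 ⟨hbc.1, hab⟩
      have hb' := ih hb
      have hbG : b ∈ Gx ε A' H x := hsub (e1 ▸ hb)
      refine Cmp_step hb' ?_
      obtain ⟨p1, p2, i, p3⟩ := hbc
      refine ⟨p1, p2, i, ?_⟩
      rcases p3 with ⟨q1, q2⟩ | ⟨q1, q2⟩
      · left
        refine ⟨q1, Finset.mem_coe.2 (Finset.mem_inter.2 ⟨Finset.mem_coe.1 q2, ?_⟩)⟩
        exact (hT b hbG _ (hTU (Finset.mem_coe.1 q2)) (hTO _ (Finset.mem_coe.1 q2))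
          (Or.inl rfl)).1
      · right
        refine ⟨q1, Finset.mem_coe.2 (Finset.mem_inter.2 ⟨Finset.mem_coe.1 q2, ?_⟩)⟩
        exact (hT b hbG _ (hTU (Finset.mem_coe.1 q2)) (hTO _ (Finset.mem_coe.1 q2))
          (Or.inr q1.symm)).1
  have f1 : ¬ Fg A' (T : Set Ed) x := by
    rintro ⟨y, hy, i, hi, hn⟩
    exact hn (hA (hT y (hsub hy) _ (hTU (Finset.mem_coe.1 hi)) (hTO _ (Finset.mem_coe.1 hi))
      (Or.inl rfl)).2)
  have f2 : ¬ Fg A ((T ∩ U : Finset Ed) : Set Ed) x := by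
    rintro ⟨y, hy, i, hi, hn⟩
    rw [e2, e1] at hy
    have hi' := hTUs hi
    exact hn (hT y (hsub hy) _ (hTU (Finset.mem_coe.1 hi')) (hTO _ (Finset.mem_coe.1 hi'))
      (Or.inl rfl)).2
  rw [crb_vg M (hA hx) f1, crb_vg M hx f2, e2, e1]

theorem rho_agree {ε : ℝ} (h0 : 0 < ε) (h1 : ε ≤ 1 / 2) {U U' : Finset Ed} (hU : U ⊆ U')
    {A A' : Finset (ℤ × ℤ)} (hA : A ⊆ A') (M : Finset (ℤ × ℤ) → ℝ) {x : ℤ × ℤ} (hx : x ∈ A)
    (S : Finset (ℤ × ℤ)) (c : ℤ × ℤ → ℝ) (h : S → ℝ)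
    (hG : Gx ε A' (gl S c h) x ⊆ A)
    (hT : ∀ y ∈ Gx ε A' (gl S c h) x, ∀ e ∈ U', e ∈ Op ε (gl S c h) → Tch y e →
      e ∈ U ∧ e.1 + st e.2 ∈ A) :
    rho ε U' A' M x (gl S c h) = rho ε U A M x (gl S c h) ∧
    (∀ y, pz S y (fun h => rho ε U' A' M x (gl S c h)) h =
      pz S y (fun h => rho ε U A M x (gl S c h)) h) ∧
    ∀ y z, pz S z (pz S y (fun h => rho ε U' A' M x (gl S c h))) h =
      pz S z (pz S y (fun h => rho ε U A M x (gl S c h))) h := by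
  have key : ∀ T ⊆ U', (∀ e ∈ T, e ∈ Op ε (gl S c h)) →
      (fun S : Finset Ed => vg A' (S : Set Ed) M x) T =
        (fun S : Finset Ed => vg A (S : Set Ed) M x) (T ∩ U) := fun T hTU hTO =>
    crd_vg hA M hx hG hT hTU hTO
  exact ⟨cfu_restrict h0 h1 hU key, fun y => cfu_restrict_pz h0 h1 hU S c y h key,
    fun y z => cfu_restrict_pz2 h0 h1 hU S c y z h key⟩
/- END crd -/

/- MODULE cre
`Ny x y` holds for at most `7 card Gx` sites `y`; then sums over `x ∈ A` by `Cmp_double`. -/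
theorem Ny_card (ε : ℝ) {U : Finset Ed} {A : Finset (ℤ × ℤ)} (hU : U ⊆ Uo A) (H : ℤ × ℤ → ℝ)
    (x : ℤ × ℤ) (F : Finset (ℤ × ℤ)) (hF : ∀ y ∈ F, Ny ε U A H x y) :
    F.card ≤ 7 * (Gx ε A H x).card := by
  classical
  set G := Gx ε A H x with hG
  have hsub : F ⊆ G ∪ G.biUnion (fun z => Finset.univ.image (fun i : Fin 6 => z + st i)) := by
    intro y hy
    obtain ⟨e, -, -, h1, h2⟩ := hF y hy
    rw [Finset.mem_union, Finset.mem_biUnion]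
    rcases h1 with h1 | h1 <;> rcases h2 with h2 | h2
    · left
      rw [← h1]
      exact h2
    · right
      refine ⟨_, h2, Finset.mem_image.2 ⟨e.2 + 3, Finset.mem_univ _, ?_⟩⟩
      rw [cra_opp, h1]
    · right
      refine ⟨_, h2, Finset.mem_image.2 ⟨e.2, Finset.mem_univ _, h1⟩⟩
    · left
      rw [← h1]
      exact h2
  have h3 : (G.biUnion (fun z => Finset.univ.image (fun i : Fin 6 => z + st i))).card ≤
      G.card * 6 := by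
    refine Finset.card_biUnion_le_card_mul _ _ _ fun z _ => ?_
    exact Finset.card_image_le.trans (by simp)
  have h4 := (Finset.card_le_card hsub).trans (Finset.card_union_le _ _)
  omega

theorem rho_energy {ε : ℝ} (h0 : 0 < ε) (h1 : ε ≤ 1 / 2) {C : ℝ}
    (hC : ∀ z, |deriv (qs ε) z| ≤ C) {U : Finset Ed} {A : Finset (ℤ × ℤ)}
    {M : Finset (ℤ × ℤ) → ℝ} {ψ : ℤ × ℤ → ℝ} (hM : IsMean M ψ) (hU : UA U A ψ)
    (S : Finset (ℤ × ℤ)) (c : ℤ × ℤ → ℝ) (h : S → ℝ) :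
    ∑ x ∈ A, ∑ y ∈ S, (pz S y (fun h => rho ε U A M x (gl S c h)) h) ^ 2 ≤ 96768 * C ^ 2 *
      ∑ y ∈ A, (∑ i, (ψ y - ψ (y + st i)) ^ 2) * ((Gx ε A (gl S c h) y).card : ℝ) ^ 3 := by
  classical
  set H := gl S c h with hH
  have hC0 := crb_C hC
  have hx : ∀ x ∈ A, ∑ y ∈ S, (pz S y (fun h => rho ε U A M x (gl S c h)) h) ^ 2 ≤
      96768 * C ^ 2 * (((Gx ε A H x).card : ℝ) ^ 2 *
        ∑ y ∈ Gx ε A H x, ∑ i, (ψ y - ψ (y + st i)) ^ 2) := by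
    intro x hx
    set O := Os A (Op ε H) ψ x with hO
    have hO0 : 0 ≤ O := Os_nonneg _ _ _ _
    have b1 : ∑ y ∈ S, (pz S y (fun h => rho ε U A M x (gl S c h)) h) ^ 2 ≤
        ∑ y ∈ S.filter (fun y => Ny ε U A H x y), (48 * C * O) ^ 2 := by
      rw [Finset.sum_filter]
      refine Finset.sum_le_sum fun y _ => ?_
      split_ifs with hN
      · have b2 := rho_pz_le h0 h1 hC hM hU S c y h hx
        rw [← sq_abs]
        exact pow_le_pow_left₀ (abs_nonneg _) b2 2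
      · rw [rho_pz_zero h0 h1 U A M S c h hN]
        norm_num
    rw [Finset.sum_const, nsmul_eq_mul] at b1
    have b3 : (((S.filter (fun y => Ny ε U A H x y)).card : ℕ) : ℝ) ≤
        7 * ((Gx ε A H x).card : ℝ) := by
      exact_mod_cast Ny_card ε hU.1 H x _ fun y hy => (Finset.mem_filter.1 hy).2
    have b4 : O ^ 2 ≤ 6 * ((Gx ε A H x).card : ℝ) *
        ∑ y ∈ Gx ε A H x, ∑ i, (ψ y - ψ (y + st i)) ^ 2 := Os_sq_le A (Op ε H) ψ x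
    have hE : 0 ≤ ∑ y ∈ Gx ε A H x, ∑ i, (ψ y - ψ (y + st i)) ^ 2 :=
      Finset.sum_nonneg fun _ _ => Finset.sum_nonneg fun _ _ => sq_nonneg _
    set g : ℝ := ((Gx ε A H x).card : ℝ)
    have hg : 0 ≤ g := Nat.cast_nonneg _
    refine b1.trans ?_
    calc (((S.filter (fun y => Ny ε U A H x y)).card : ℕ) : ℝ) * (48 * C * O) ^ 2
        ≤ (7 * g) * (48 * C * O) ^ 2 := mul_le_mul_of_nonneg_right b3 (sq_nonneg _)
      _ = 16128 * C ^ 2 * g * O ^ 2 := by ring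
      _ ≤ 16128 * C ^ 2 * g * (6 * g * ∑ y ∈ Gx ε A H x, ∑ i, (ψ y - ψ (y + st i)) ^ 2) :=
          mul_le_mul_of_nonneg_left b4 (by positivity)
      _ = _ := by ring
  refine (Finset.sum_le_sum hx).trans (le_of_eq ?_)
  rw [← Finset.mul_sum]
  congr 1
  have h5 := Cmp_double A (Op ε H) (fun y => ∑ i, (ψ y - ψ (y + st i)) ^ 2)
    (fun F => (F.card : ℝ) ^ 2)
  refine h5.trans (Finset.sum_congr rfl fun y _ => ?_)
  unfold Gx
  ring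

/-- there is a nearly saturated edge at `x` -/
def Tx (ε : ℝ) (x : ℤ × ℤ) (H : ℤ × ℤ → ℝ) : Prop := ∃ i, (x, i) ∈ Op ε H

private theorem cre_tch {ε : ℝ} {x : ℤ × ℤ} {H : ℤ × ℤ → ℝ} {e : Ed} (he : e ∈ Op ε H)
    (hx : Tch x e) : Tx ε x H := by
  rcases hx with h | h
  · refine ⟨e.2, ?_⟩
    rw [← h]
    exact he
  · refine ⟨e.2 + 3, ?_⟩
    have h2 : 1 - ε < |hd H e| := he
    have h3 := hd_opp H e.1 e.2
    change 1 - ε < |hd H (x, e.2 + 3)|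
    rw [← h, h3, abs_neg]
    exact h2

private theorem cre_ne {ε : ℝ} {A : Finset (ℤ × ℤ)} {x y : ℤ × ℤ} {H : ℤ × ℤ → ℝ}
    (hy : y ∈ Gx ε A H x) (hne : x ≠ y) : Tx ε x H := by
  have hr := (mem_Cmp.1 hy).2
  rcases Relation.ReflTransGen.cases_head hr with h | ⟨z, hz, -⟩
  · exact absurd h hne
  · obtain ⟨-, -, i, ⟨-, h⟩ | ⟨h, h'⟩⟩ := hz
    · exact ⟨i, h⟩
    · exact cre_tch h' (Or.inr h.symm)

theorem Tx_cluster {ε : ℝ} {A : Finset (ℤ × ℤ)} {x y : ℤ × ℤ} {H : ℤ × ℤ → ℝ} (hx : x ∈ A)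
    (hy : y ∈ Gx ε A H x) : Tx ε x H ↔ Tx ε y H := by
  by_cases hne : x = y
  · rw [hne]
  · exact ⟨fun _ => cre_ne (Cmp_symm hx hy) (Ne.symm hne), fun _ => cre_ne hy hne⟩

open scoped Classical in
theorem rho_diff_sum {ε : ℝ} (h0 : 0 < ε) (h1 : ε ≤ 1 / 2) {U : Finset Ed} {A : Finset (ℤ × ℤ)}
    {M : Finset (ℤ × ℤ) → ℝ} {ψ : ℤ × ℤ → ℝ} (hM : IsMean M ψ) (hU : UA U A ψ)
    (H : ℤ × ℤ → ℝ) :
    ∑ x ∈ A, (rho ε U A M x H - ψ x) ^ 2 ≤ 24 *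
      ∑ y ∈ A, (∑ i, (ψ y - ψ (y + st i)) ^ 2) *
        (if Tx ε y H then ((Gx ε A H y).card : ℝ) ^ 2 else 0) := by
  set g : Finset (ℤ × ℤ) → ℝ := fun F => if ∃ x ∈ F, Tx ε x H then (F.card : ℝ) else 0 with hg
  have hgx : ∀ x ∈ A, g (Gx ε A H x) = if Tx ε x H then ((Gx ε A H x).card : ℝ) else 0 := by
    intro x hx
    have h2 : (∃ z ∈ Gx ε A H x, Tx ε z H) ↔ Tx ε x H :=
      ⟨fun ⟨z, hz, hz'⟩ => (Tx_cluster hx hz).2 hz', fun h => ⟨x, Cmp_self _ hx, h⟩⟩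
    simp only [hg, h2]
  have hx : ∀ x ∈ A, (rho ε U A M x H - ψ x) ^ 2 ≤
      24 * (g (Gx ε A H x) * ∑ y ∈ Gx ε A H x, ∑ i, (ψ y - ψ (y + st i)) ^ 2) := by
    intro x hx
    rw [hgx x hx]
    split_ifs with hT
    · have b1 := rho_osc h0 h1 hM hU H hx (Cmp_self (Op ε H) hx)
      have b4 := Os_sq_le A (Op ε H) ψ x
      have b5 : (rho ε U A M x H - ψ x) ^ 2 ≤ (2 * Os A (Op ε H) ψ x) ^ 2 := by
        rw [← sq_abs]
        exact pow_le_pow_left₀ (abs_nonneg _) b1 2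
      have b6 : (Os A (Op ε H) ψ x) ^ 2 ≤ 6 * ((Gx ε A H x).card : ℝ) *
        ∑ y ∈ Gx ε A H x, ∑ i, (ψ y - ψ (y + st i)) ^ 2 := b4
      nlinarith [b5, b6]
    · rw [rho_triv h0 h1 hM H hx fun e _ he ht => hT (cre_tch he ht)]
      simp
  refine (Finset.sum_le_sum hx).trans (le_of_eq ?_)
  rw [← Finset.mul_sum]
  congr 1
  have h5 := Cmp_double A (Op ε H) (fun y => ∑ i, (ψ y - ψ (y + st i)) ^ 2) g
  refine h5.trans (Finset.sum_congr rfl fun y hy => ?_)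
  have h6 := hgx y hy
  unfold Gx at h6 ⊢
  rw [h6]
  split_ifs
  · ring
  · simp
/- END cre -/

end Pool.Agent.Hmk
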