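import Pool.Agent.Hmk.CnDef

/-!
# Hmk, second part: the continuum (helper70), calculus on `ℂ`, Dirichlet's principle
-/

set_option autoImplicit false

open MeasureTheory Set Filter

open scoped ENNReal ContDiff Topology

noncomputable section

namespace Pool.Agent.Hmk.Cn

/-- scalar product of the gradients -/
def gin (f g : ℂ → ℝ) (z : ℂ) : ℝ :=
  fderiv ℝ f z 1 * fderiv ℝ g z 1 + fderiv ℝ f z Complex.I * fderiv ℝ g z Complex.I

/- MODULE mfa
Smoothness, supports and integrability of the functions built from smooth compactly supported ones;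
integration by parts in a fixed direction (`integral_bilinear_hasLineDerivAt_right_eq_neg_left_of_integrable`
or `integral_mul_fderiv_eq_neg_fderiv_mul_of_integrable` in Mathlib). -/
theorem sm_fd {g : ℂ → ℝ} (hg : ContDiff ℝ ∞ g) (v : ℂ) : ContDiff ℝ ∞ (fun z => fderiv ℝ g z v) := by
  exact (hg.fderiv_right (m := ∞) (by simp)).clm_apply contDiff_const

theorem cs_fd {g : ℂ → ℝ} (hg : HasCompactSupport g) (v : ℂ) :
    HasCompactSupport (fun z => fderiv ℝ g z v) := by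
  exact hg.fderiv_apply ℝ v

theorem sm_lap {g : ℂ → ℝ} (hg : ContDiff ℝ ∞ g) : ContDiff ℝ ∞ (lap g) := by
  exact (sm_fd (sm_fd hg 1) 1).add (sm_fd (sm_fd hg Complex.I) Complex.I)

theorem sm_gsq {g : ℂ → ℝ} (hg : ContDiff ℝ ∞ g) : ContDiff ℝ ∞ (gsq g) := by
  exact ((sm_fd hg 1).pow 2).add ((sm_fd hg Complex.I).pow 2)

theorem tsupport_fd (g : ℂ → ℝ) (v : ℂ) : tsupport (fun z => fderiv ℝ g z v) ⊆ tsupport g := by
  exact tsupport_fderiv_apply_subset ℝ v

theorem tsupport_lap (g : ℂ → ℝ) : tsupport (lap g) ⊆ tsupport g := by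
  refine closure_minimal (fun z hz => ?_) (isClosed_tsupport g)
  by_contra hn
  apply hz
  have h1 : fderiv ℝ (fun w => fderiv ℝ g w 1) z 1 = 0 :=
    image_eq_zero_of_notMem_tsupport (f := fun z => fderiv ℝ (fun w => fderiv ℝ g w 1) z 1)
      (fun h => hn (tsupport_fd g 1 (tsupport_fd _ 1 h)))
  have h2 : fderiv ℝ (fun w => fderiv ℝ g w Complex.I) z Complex.I = 0 :=
    image_eq_zero_of_notMem_tsupport
      (f := fun z => fderiv ℝ (fun w => fderiv ℝ g w Complex.I) z Complex.I)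
      (fun h => hn (tsupport_fd g Complex.I (tsupport_fd _ Complex.I h)))
  show fderiv ℝ (fun w => fderiv ℝ g w 1) z 1 +
    fderiv ℝ (fun w => fderiv ℝ g w Complex.I) z Complex.I = 0
  rw [h1, h2, add_zero]

theorem tsupport_gsq (g : ℂ → ℝ) : tsupport (gsq g) ⊆ tsupport g := by
  refine closure_minimal (fun z hz => ?_) (isClosed_tsupport g)
  by_contra hn
  apply hz
  have h1 : fderiv ℝ g z 1 = 0 :=
    image_eq_zero_of_notMem_tsupport (f := fun z => fderiv ℝ g z 1)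
      (fun h => hn (tsupport_fd g 1 h))
  have h2 : fderiv ℝ g z Complex.I = 0 :=
    image_eq_zero_of_notMem_tsupport (f := fun z => fderiv ℝ g z Complex.I)
      (fun h => hn (tsupport_fd g Complex.I h))
  show (fderiv ℝ g z 1) ^ 2 + (fderiv ℝ g z Complex.I) ^ 2 = 0
  rw [h1, h2]
  simp

theorem int_cs {g : ℂ → ℝ} (hg : Continuous g) (hc : HasCompactSupport g) : Integrable g := by
  exact hg.integrable_of_hasCompactSupport hc

theorem parts {f g : ℂ → ℝ} (hf : ContDiff ℝ ∞ f) (hg : ContDiff ℝ ∞ g)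
    (hc : HasCompactSupport g) (v : ℂ) :
    ∫ z, fderiv ℝ f z v * g z = - ∫ z, f z * fderiv ℝ g z v := by
  have h1 := integral_mul_fderiv_eq_neg_fderiv_mul_of_integrable (μ := (volume : Measure ℂ))
    (f := f) (g := g) (v := v)
    (int_cs (((sm_fd hf v).mul hg).continuous) (hc.mul_left))
    (int_cs ((hf.mul (sm_fd hg v)).continuous) ((cs_fd hc v).mul_left))
    (int_cs ((hf.mul hg).continuous) hc.mul_left)
    (fun x _ => hf.differentiable (by simp) x) (fun x _ => hg.differentiable (by simp) x)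
  rw [h1, neg_neg]

/- END mfa -/

/- MODULE mfb
Green's identities, the expansion of the energy, Leibniz for the Laplacian. -/
private theorem mfb_i {f g : ℂ → ℝ} (hf : ContDiff ℝ ∞ f) (hg : ContDiff ℝ ∞ g)
    (hc : HasCompactSupport g) : Integrable (fun z => f z * g z) :=
  int_cs ((hf.mul hg).continuous) hc.mul_left

private theorem mfb_gin {f g : ℂ → ℝ} (hf : ContDiff ℝ ∞ f) (hg : ContDiff ℝ ∞ g)
    (hc : HasCompactSupport g) : Integrable (gin f g) :=
  (mfb_i (sm_fd hf 1) (sm_fd hg 1) (cs_fd hc 1)).add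
    (mfb_i (sm_fd hf Complex.I) (sm_fd hg Complex.I) (cs_fd hc Complex.I))

private theorem mfb_gsq {g : ℂ → ℝ} (hg : ContDiff ℝ ∞ g)
    (hc : HasCompactSupport g) : Integrable (gsq g) := by
  have h1 := mfb_gin hg hg hc
  have h2 : gsq g = gin g g := by
    funext z; unfold gsq gin; ring
  rw [h2]; exact h1

theorem green {f g : ℂ → ℝ} (hf : ContDiff ℝ ∞ f) (hg : ContDiff ℝ ∞ g)
    (hc : HasCompactSupport g) : ∫ z, lap f z * g z = - ∫ z, gin f g z := by
  have e1 : (fun z => lap f z * g z) = fun z => fderiv ℝ (fun w => fderiv ℝ f w 1) z 1 * g z +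
      fderiv ℝ (fun w => fderiv ℝ f w Complex.I) z Complex.I * g z := by
    funext z; unfold lap; ring
  rw [e1, integral_add (mfb_i (sm_fd (sm_fd hf 1) 1) hg hc)
    (mfb_i (sm_fd (sm_fd hf Complex.I) Complex.I) hg hc),
    parts (sm_fd hf 1) hg hc 1, parts (sm_fd hf Complex.I) hg hc Complex.I, ← neg_add]
  unfold gin
  rw [integral_add (mfb_i (sm_fd hf 1) (sm_fd hg 1) (cs_fd hc 1))
    (mfb_i (sm_fd hf Complex.I) (sm_fd hg Complex.I) (cs_fd hc Complex.I))]

theorem green' {f g : ℂ → ℝ} (hf : ContDiff ℝ ∞ f) (hg : ContDiff ℝ ∞ g)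
    (hc : HasCompactSupport g) : ∫ z, f z * lap g z = - ∫ z, gin f g z := by
  have e1 : (fun z => f z * lap g z) = fun z => f z * fderiv ℝ (fun w => fderiv ℝ g w 1) z 1 +
      f z * fderiv ℝ (fun w => fderiv ℝ g w Complex.I) z Complex.I := by
    funext z; unfold lap; ring
  have p1 := parts hf (sm_fd hg 1) (cs_fd hc 1) 1
  have p2 := parts hf (sm_fd hg Complex.I) (cs_fd hc Complex.I) Complex.I
  rw [e1, integral_add (mfb_i hf (sm_fd (sm_fd hg 1) 1) (cs_fd (cs_fd hc 1) 1))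
    (mfb_i hf (sm_fd (sm_fd hg Complex.I) Complex.I) (cs_fd (cs_fd hc Complex.I) Complex.I))]
  unfold gin
  rw [integral_add (mfb_i (sm_fd hf 1) (sm_fd hg 1) (cs_fd hc 1))
    (mfb_i (sm_fd hf Complex.I) (sm_fd hg Complex.I) (cs_fd hc Complex.I)), p1, p2]
  ring

private theorem mfb_pt {f g : ℂ → ℝ} (hf : ContDiff ℝ ∞ f) (hg : ContDiff ℝ ∞ g) (t : ℝ) (z : ℂ) :
    gsq (fun z => f z + t * g z) z = gsq f z + (2 * t) * gin f g z + t ^ 2 * gsq g z := by
  have h1 : DifferentiableAt ℝ f z := hf.differentiable (by simp) z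
  have h2 : DifferentiableAt ℝ g z := hg.differentiable (by simp) z
  have h3 : ∀ v : ℂ, fderiv ℝ (fun z => f z + t * g z) z v = fderiv ℝ f z v + t * fderiv ℝ g z v := by
    intro v
    rw [fderiv_fun_add h1 (h2.const_mul t), fderiv_const_mul h2 t]
    rfl
  unfold gsq gin
  rw [h3, h3]
  ring

private theorem mfb_add {f g : ℂ → ℝ} (hf : ContDiff ℝ ∞ f) (hfc : HasCompactSupport f)
    (hg : ContDiff ℝ ∞ g) (hc : HasCompactSupport g) (t : ℝ) :
    dirE (fun z => f z + t * g z) = dirE f + 2 * t * (∫ z, gin f g z) + t ^ 2 * dirE g := by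
  unfold dirE
  simp only [mfb_pt hf hg t]
  have i1 : Integrable (fun z => gsq f z + (2 * t) * gin f g z) :=
    (mfb_gsq hf hfc).add ((mfb_gin hf hg hc).const_mul (2 * t))
  rw [integral_add i1 ((mfb_gsq hg hc).const_mul (t ^ 2)),
    integral_add (mfb_gsq hf hfc) ((mfb_gin hf hg hc).const_mul (2 * t)),
    integral_const_mul, integral_const_mul]

private theorem mfb_nn (g : ℂ → ℝ) : 0 ≤ dirE g :=
  integral_nonneg fun z => add_nonneg (sq_nonneg _) (sq_nonneg _)

theorem gin_cs {f g : ℂ → ℝ} (hf : ContDiff ℝ ∞ f) (hfc : HasCompactSupport f)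
    (hg : ContDiff ℝ ∞ g) (hc : HasCompactSupport g) :
    |∫ z, gin f g z| ≤ Real.sqrt (dirE f) * Real.sqrt (dirE g) := by
  have key : ∀ t : ℝ, 0 ≤ dirE g * (t * t) + (2 * ∫ z, gin f g z) * t + dirE f := by
    intro t
    have h1 := mfb_nn (fun z => f z + t * g z)
    rw [mfb_add hf hfc hg hc t] at h1
    linarith
  have h2 := discrim_le_zero key
  unfold discrim at h2
  rw [← Real.sqrt_mul (mfb_nn f)]
  refine Real.abs_le_sqrt ?_
  linarith

theorem dirE_add {f g : ℂ → ℝ} (hf : ContDiff ℝ ∞ f) (hfc : HasCompactSupport f)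
    (hg : ContDiff ℝ ∞ g) (hc : HasCompactSupport g) (t : ℝ) :
    dirE (fun z => f z + t * g z) = dirE f + 2 * t * (∫ z, gin f g z) + t ^ 2 * dirE g := by
  exact mfb_add hf hfc hg hc t

private theorem mfb_lm {f g : ℂ → ℝ} (hf : ContDiff ℝ ∞ f) (hg : ContDiff ℝ ∞ g) (z v : ℂ) :
    fderiv ℝ (fun w => f w * g w) z v = fderiv ℝ f z v * g z + f z * fderiv ℝ g z v := by
  rw [fderiv_fun_mul (hf.differentiable (by simp) z) (hg.differentiable (by simp) z)]
  simp only [ContinuousLinearMap.add_apply, ContinuousLinearMap.smul_apply, smul_eq_mul]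
  ring

theorem lap_mul {f g : ℂ → ℝ} (hf : ContDiff ℝ ∞ f) (hg : ContDiff ℝ ∞ g) (z : ℂ) :
    lap (fun w => f w * g w) z = lap f z * g z + 2 * gin f g z + f z * lap g z := by
  have h : ∀ v : ℂ, fderiv ℝ (fun w => fderiv ℝ (fun w => f w * g w) w v) z v =
      fderiv ℝ (fun w => fderiv ℝ f w v) z v * g z + 2 * (fderiv ℝ f z v * fderiv ℝ g z v) +
        f z * fderiv ℝ (fun w => fderiv ℝ g w v) z v := by
    intro v
    have e : (fun w => fderiv ℝ (fun w => f w * g w) w v) =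
        fun w => fderiv ℝ f w v * g w + f w * fderiv ℝ g w v := by
      funext w; exact mfb_lm hf hg w v
    rw [e, fderiv_fun_add (((sm_fd hf v).mul hg).differentiable (by simp) z)
      ((hf.mul (sm_fd hg v)).differentiable (by simp) z), ContinuousLinearMap.add_apply,
      mfb_lm (sm_fd hf v) hg z v, mfb_lm hf (sm_fd hg v) z v]
    ring
  unfold lap gin
  rw [h, h]
  ring

/- END mfb -/

/- MODULE mfc
Poincare's inequality: `∫ g² = - 2 ∫ Re z g d_1 g` (by parts, `d_1 Re z = 1`), Cauchy-Schwarz. -/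
theorem poincare {g : ℂ → ℝ} (hg : ContDiff ℝ ∞ g) (hc : HasCompactSupport g) {R : ℝ}
    (hR : ∀ z ∈ tsupport g, ‖z‖ ≤ R) : ∫ z, g z ^ 2 ≤ (2 * R) ^ 2 * dirE g := by
  have hre : ContDiff ℝ ∞ (fun z : ℂ => z.re) := Complex.reCLM.contDiff
  have hg2 : ContDiff ℝ ∞ (fun z => g z * g z) := hg.mul hg
  have hc2 : HasCompactSupport (fun z => g z * g z) := hc.mul_left
  have h1 := parts hre hg2 hc2 1
  have h2 : ∀ z : ℂ, fderiv ℝ (fun z : ℂ => z.re) z 1 = 1 := by
    intro z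
    have : HasFDerivAt (fun z : ℂ => z.re) Complex.reCLM z := Complex.reCLM.hasFDerivAt
    rw [this.fderiv]
    simp
  simp only [h2, one_mul, mfb_lm hg hg] at h1
  have i1 : Integrable (fun z => g z ^ 2) := by
    have := int_cs hg2.continuous hc2
    simpa only [sq] using this
  have i2 : Integrable (fun z => gsq g z) := mfb_gsq hg hc
  have i3 : Integrable (fun z : ℂ => z.re * (fderiv ℝ g z 1 * g z + g z * fderiv ℝ g z 1)) :=
    mfb_i hre (((sm_fd hg 1).mul hg).add (hg.mul (sm_fd hg 1)))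
      ((hc.mul_left).add (hc.mul_right))
  have h3 : ∫ z, g z ^ 2 ≤ ∫ z, ((1 / 2) * g z ^ 2 + 2 * R ^ 2 * gsq g z) := by
    have e : ∫ z, g z ^ 2 = ∫ z : ℂ, -(z.re * (fderiv ℝ g z 1 * g z + g z * fderiv ℝ g z 1)) := by
      rw [integral_neg, ← h1]
      simp only [sq]
    rw [e]
    refine integral_mono i3.neg ((i1.const_mul _).add (i2.const_mul _)) fun z => ?_
    show -(z.re * (fderiv ℝ g z 1 * g z + g z * fderiv ℝ g z 1)) ≤
      (1 / 2) * g z ^ 2 + 2 * R ^ 2 * gsq g z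
    have h4 : 0 ≤ gsq g z := add_nonneg (sq_nonneg _) (sq_nonneg _)
    by_cases hz : z ∈ tsupport g
    · have h5 : |z.re| ≤ R := (Complex.abs_re_le_norm z).trans (hR z hz)
      have h6 : z.re ^ 2 ≤ R ^ 2 := by
        rw [← sq_abs z.re]
        exact pow_le_pow_left₀ (abs_nonneg _) h5 2
      have h7 : (fderiv ℝ g z 1) ^ 2 ≤ gsq g z := le_add_of_nonneg_right (sq_nonneg _)
      have h8 : z.re ^ 2 * (fderiv ℝ g z 1) ^ 2 ≤ R ^ 2 * gsq g z :=
        mul_le_mul h6 h7 (sq_nonneg _) (sq_nonneg _)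
      nlinarith [sq_nonneg (g z + 2 * (z.re * fderiv ℝ g z 1))]
    · rw [image_eq_zero_of_notMem_tsupport hz]
      have : 0 ≤ 2 * R ^ 2 * gsq g z := by positivity
      simpa using this
  rw [integral_add (i1.const_mul _) (i2.const_mul _), integral_const_mul, integral_const_mul] at h3
  unfold dirE
  nlinarith

/- END mfc -/

/- MODULE mfd
The Green energy is finite: `2 ∫ φ g ≤ 2 ‖φ‖ ‖g‖ ≤ 4 R² ‖φ‖² + dirE g` (`poincare`).  Scaling
`g → t g`: `(∫ φ g)² ≤ GE dirE g`. -/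
private theorem mfd_jc {Ω : Set ℂ} {R : ℝ} (hR1 : 0 < R) (hR : ∀ z ∈ Ω, ‖z‖ ≤ R) {φ g : ℂ → ℝ}
    (hφ : CSC Ω φ) (hg : CSC Ω g) : Jc φ g ≤ (2 * R) ^ 2 * ∫ z, φ z ^ 2 := by
  have h1 := poincare hg.sm hg.cs (fun z hz => hR z (hg.sub hz))
  have i1 : Integrable (fun z => φ z * g z) := mfb_i hφ.sm hg.sm hg.cs
  have i2 : Integrable (fun z => φ z ^ 2) := by
    have := mfb_i hφ.sm hφ.sm hφ.cs
    simpa only [sq] using this
  have i3 : Integrable (fun z => g z ^ 2) := by
    have := mfb_i hg.sm hg.sm hg.cs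
    simpa only [sq] using this
  have h2 : ∫ z, 2 * (φ z * g z) ≤ ∫ z, ((2 * R) ^ 2 * φ z ^ 2 + ((2 * R) ^ 2)⁻¹ * g z ^ 2) := by
    refine integral_mono (i1.const_mul 2) ((i2.const_mul _).add (i3.const_mul _)) fun z => ?_
    show 2 * (φ z * g z) ≤ (2 * R) ^ 2 * φ z ^ 2 + ((2 * R) ^ 2)⁻¹ * g z ^ 2
    have hr : 0 < 2 * R := by linarith
    have e : (2 * R) ^ 2 * φ z ^ 2 + ((2 * R) ^ 2)⁻¹ * g z ^ 2 - 2 * (φ z * g z) =
        ((2 * R) * φ z - (2 * R)⁻¹ * g z) ^ 2 := by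
      have : (2 * R) * (2 * R)⁻¹ = 1 := mul_inv_cancel₀ hr.ne'
      rw [← inv_pow]
      linear_combination (2 * φ z * g z) * this
    nlinarith [sq_nonneg ((2 * R) * φ z - (2 * R)⁻¹ * g z)]
  rw [integral_const_mul, integral_add (i2.const_mul _) (i3.const_mul _), integral_const_mul,
    integral_const_mul] at h2
  have h3 : ((2 * R) ^ 2)⁻¹ * ∫ z, g z ^ 2 ≤ dirE g := by
    rw [inv_mul_le_iff₀ (by positivity)]
    exact h1
  unfold Jc
  linarith

private theorem mfd_zero (Ω : Set ℂ) : CSC Ω (fun _ => 0) := by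
  refine ⟨contDiff_const, HasCompactSupport.zero, ?_⟩
  intro z hz
  have : tsupport (fun _ : ℂ => (0 : ℝ)) = ∅ := by
    rw [tsupport_eq_empty_iff]; rfl
  rw [this] at hz
  exact hz.elim

private theorem mfd_smul {Ω : Set ℂ} {g : ℂ → ℝ} (hg : CSC Ω g) (t : ℝ) :
    CSC Ω (fun z => t * g z) := by
  refine ⟨contDiff_const.mul hg.sm, hg.cs.mul_left, ?_⟩
  refine (closure_minimal (fun z hz => ?_) (isClosed_tsupport g)).trans hg.sub
  by_contra hn
  apply hz
  show t * g z = 0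
  rw [image_eq_zero_of_notMem_tsupport hn, mul_zero]

private theorem mfd_jt {φ g : ℂ → ℝ} (hg : ContDiff ℝ ∞ g) (t : ℝ) :
    Jc φ (fun z => t * g z) = 2 * t * (∫ z, φ z * g z) - t ^ 2 * dirE g := by
  unfold Jc dirE
  have h1 : ∀ z, φ z * (t * g z) = t * (φ z * g z) := fun z => by ring
  have h2 : ∀ z, gsq (fun z => t * g z) z = t ^ 2 * gsq g z := by
    intro z
    have h3 : DifferentiableAt ℝ g z := hg.differentiable (by simp) z
    unfold gsq
    rw [fderiv_const_mul h3 t]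
    simp only [ContinuousLinearMap.smul_apply, smul_eq_mul]
    ring
  simp only [h1, h2]
  rw [integral_const_mul, integral_const_mul]
  ring

theorem GE_bdd {Ω : Set ℂ} (hΩ : Bornology.IsBounded Ω) {φ : ℂ → ℝ} (hφ : CSC Ω φ) :
    BddAbove (range fun g : {g : ℂ → ℝ // CSC Ω g} => Jc φ g.1) := by
  obtain ⟨R, hR⟩ := hΩ.subset_closedBall (0 : ℂ)
  refine ⟨(2 * (|R| + 1)) ^ 2 * ∫ z, φ z ^ 2, ?_⟩
  rintro _ ⟨g, rfl⟩
  refine mfd_jc (by positivity) (fun z hz => ?_) hφ g.2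
  have := hR hz
  rw [mem_closedBall_zero_iff] at this
  linarith [le_abs_self R]

theorem le_GE {Ω : Set ℂ} (hΩ : Bornology.IsBounded Ω) {φ g : ℂ → ℝ} (hφ : CSC Ω φ)
    (hg : CSC Ω g) : Jc φ g ≤ GE Ω φ := by
  exact le_ciSup (GE_bdd hΩ hφ) (⟨g, hg⟩ : {g : ℂ → ℝ // CSC Ω g})

theorem GE_nonneg {Ω : Set ℂ} (hΩ : Bornology.IsBounded Ω) {φ : ℂ → ℝ} (hφ : CSC Ω φ) :
    0 ≤ GE Ω φ := by
  have h1 := le_GE hΩ hφ (mfd_zero Ω)
  have h2 : Jc φ (fun _ => 0) = 0 := by
    have h3 := mfd_jt (φ := φ) (g := fun _ => 0) contDiff_const 0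
    simpa using h3
  linarith

theorem GE_le {Ω : Set ℂ} {φ : ℂ → ℝ} {B : ℝ} (H : ∀ g, CSC Ω g → Jc φ g ≤ B) :
    GE Ω φ ≤ B := by
  have : Nonempty {g : ℂ → ℝ // CSC Ω g} := ⟨⟨_, mfd_zero Ω⟩⟩
  exact ciSup_le fun g => H g.1 g.2

theorem dual {Ω : Set ℂ} (hΩ : Bornology.IsBounded Ω) {φ g : ℂ → ℝ} (hφ : CSC Ω φ)
    (hg : CSC Ω g) : |∫ z, φ z * g z| ≤ Real.sqrt (GE Ω φ) * Real.sqrt (dirE g) := by
  have key : ∀ t : ℝ, 0 ≤ dirE g * (t * t) + (-(2 * ∫ z, φ z * g z)) * t + GE Ω φ := by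
    intro t
    have h1 := le_GE hΩ hφ (mfd_smul hg t)
    rw [mfd_jt hg.sm t] at h1
    linarith
  have h2 := discrim_le_zero key
  unfold discrim at h2
  rw [← Real.sqrt_mul (GE_nonneg hΩ hφ)]
  refine Real.abs_le_sqrt ?_
  linarith

/- END mfd -/

/- MODULE mfe
`Jc (φ + lap g) k = 2 ∫ φ k - 2 ∫ ∇g·∇k - dirE k = Jc φ (g + k) - Jc φ g ≤ GE φ - Jc φ g`. -/
private theorem mfe_add {Ω : Set ℂ} {f g : ℂ → ℝ} (hf : CSC Ω f) (hg : CSC Ω g) :
    CSC Ω (fun z => f z + g z) := by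
  refine ⟨hf.sm.add hg.sm, hf.cs.add hg.cs, ?_⟩
  refine (tsupport_add f g).trans (union_subset hf.sub hg.sub)

theorem GE_res {Ω : Set ℂ} (hΩ : Bornology.IsBounded Ω) {φ g : ℂ → ℝ} (hφ : CSC Ω φ)
    (hg : CSC Ω g) :
    CSC Ω (fun z => φ z + lap g z) ∧ GE Ω (fun z => φ z + lap g z) ≤ GE Ω φ - Jc φ g := by
  have hl : CSC Ω (lap g) := ⟨sm_lap hg.sm,
    (hg.cs.of_isClosed_subset (isClosed_tsupport _) (tsupport_lap g)),
    (tsupport_lap g).trans hg.sub⟩
  refine ⟨mfe_add hφ hl, GE_le fun k hk => ?_⟩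
  have h1 := le_GE hΩ hφ (mfe_add hg hk)
  have h2 := dirE_add hg.sm hg.cs hk.sm hk.cs 1
  have h3 := green hg.sm hk.sm hk.cs
  have i1 := mfb_i hφ.sm hk.sm hk.cs
  have i2 := mfb_i (sm_lap hg.sm) hk.sm hk.cs
  have i3 := mfb_i hφ.sm hg.sm hg.cs
  have e1 : ∫ z, (φ z + lap g z) * k z = (∫ z, φ z * k z) + ∫ z, lap g z * k z := by
    rw [← integral_add i1 i2]
    simp only [add_mul]
  have e2 : ∫ z, φ z * (g z + k z) = (∫ z, φ z * g z) + ∫ z, φ z * k z := by
    rw [← integral_add i3 i1]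
    simp only [mul_add]
  simp only [one_mul, one_pow, mul_one] at h2
  unfold Jc at h1 ⊢
  rw [e2, h2] at h1
  rw [e1, h3]
  linarith

/-- with `A = ∫ φ g`, `B = dirE g`: `A ≤ (GE B)^{1/2}`, `2 A - B ≥ GE - η`, hence
`(GE^{1/2} - B^{1/2})² ≤ η`. -/
theorem dirE_near {Ω : Set ℂ} (hΩ : Bornology.IsBounded Ω) {φ g : ℂ → ℝ} (hφ : CSC Ω φ)
    (hg : CSC Ω g) :
    (Real.sqrt (GE Ω φ) - Real.sqrt (dirE g)) ^ 2 ≤ GE Ω φ - Jc φ g := by
  have h1 := (abs_le.1 (dual hΩ hφ hg)).2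
  have h2 := Real.sq_sqrt (GE_nonneg hΩ hφ)
  have h3 := Real.sq_sqrt (mfb_nn g)
  unfold Jc
  nlinarith

/- END mfe -/

/- MODULE mff
One-sided truncation.  `Ω` in the ball of radius `R` about `0`, `|φ| ≤ C`, `w(z) = C R² + 1 - C |z|²/4`
(so `w ≥ 1` on the ball and `lap w = - C`), `τ : ℝ → ℝ` smooth, `τ r = r` for `r ≤ 0`,
`0 ≤ τ' ≤ 1`, `τ ≤ 1`.  `g' = w + τ (g - w)` on `ℂ` is smooth, `= g` where `g ≤ w` (in particular
off the support of `g` inside the ball; put `g' = g` by construction since `g - w ≤ 0` there; OFF the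
ball `g = 0` and `w` may be negative, so take `w` multiplied by nothing but define `g'(z) = g z` unless
`z ∈ tsupport g`, or replace `|z|²` by a bounded smooth function which agrees on the ball), and
`Jc φ g' - Jc φ g = 2 ∫ φ (g' - g) + ∫ (|∇g|² - |∇g'|²) ≥ 2 ∫ (C - φ)(k - τ k) ≥ 0`, `k = g - w`:
`|∇g|² - |∇g'|² = 2 (1 - τ') ∇w·∇k + (1 - τ'²) |∇k|² ≥ 2 ∇w·∇(k - τ k)`, and
`∫ ∇w·∇(k - τ k) = - ∫ lap w (k - τ k) = C ∫ (k - τ k)` (`k - τ k` has compact support). -/
private theorem mff_kap : ∃ κ : ℝ → ℝ, ContDiff ℝ ∞ κ ∧ (∀ r, r ≤ 0 → κ r = 0) ∧ (∀ r, 0 ≤ κ r) ∧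
    (∀ r, 0 ≤ r → κ r ≤ r) ∧ (∀ r, r - 1 ≤ κ r) ∧ ∀ r, 0 ≤ deriv κ r ∧ deriv κ r ≤ 1 := by
  have hfc : Continuous Real.smoothTransition := Real.smoothTransition.continuous
  have hfi : ∀ a b : ℝ, IntervalIntegrable Real.smoothTransition volume a b :=
    fun a b => hfc.intervalIntegrable a b
  set κ : ℝ → ℝ := fun r => ∫ t in (0 : ℝ)..r, Real.smoothTransition t with hκ
  have hd : ∀ r, HasDerivAt κ (Real.smoothTransition r) r := fun r =>
    intervalIntegral.integral_hasDerivAt_right (hfi 0 r)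
      hfc.aestronglyMeasurable.stronglyMeasurableAtFilter hfc.continuousAt
  have hderiv : deriv κ = Real.smoothTransition := funext fun r => (hd r).deriv
  have h0 : ∀ r, r ≤ 0 → κ r = 0 := by
    intro r hr
    show (∫ t in (0 : ℝ)..r, Real.smoothTransition t) = 0
    have : ∫ t in (0 : ℝ)..r, Real.smoothTransition t = ∫ t in (0 : ℝ)..r, (0 : ℝ) := by
      refine intervalIntegral.integral_congr fun t ht => ?_
      rw [Set.uIcc_of_ge hr] at ht
      exact Real.smoothTransition.zero_of_nonpos ht.2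
    rw [this]; simp
  have hmono : Monotone κ := by
    refine monotone_of_deriv_nonneg (fun r => (hd r).differentiableAt) fun r => ?_
    rw [hderiv]; exact Real.smoothTransition.nonneg r
  have hnn : ∀ r, 0 ≤ κ r := by
    intro r
    rcases le_total r 0 with h | h
    · rw [h0 r h]
    · rw [← h0 0 le_rfl]; exact hmono h
  refine ⟨κ, ?_, h0, hnn, ?_, ?_, ?_⟩
  · rw [show (∞ : WithTop ℕ∞) = ((⊤ : ℕ∞) : WithTop ℕ∞) from rfl, contDiff_infty_iff_deriv, hderiv]
    exact ⟨fun r => (hd r).differentiableAt, Real.smoothTransition.contDiff⟩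
  · intro r hr
    have h1 : κ r ≤ ∫ t in (0 : ℝ)..r, (1 : ℝ) :=
      intervalIntegral.integral_mono_on hr (hfi 0 r) intervalIntegrable_const
        (fun t _ => Real.smoothTransition.le_one t)
    simpa using h1
  · intro r
    rcases le_total r 1 with h | h
    · linarith [hnn r]
    · have h1 : κ r = κ 1 + ∫ t in (1 : ℝ)..r, Real.smoothTransition t :=
        (intervalIntegral.integral_add_adjacent_intervals (hfi 0 1) (hfi 1 r)).symm
      have h2 : ∫ t in (1 : ℝ)..r, Real.smoothTransition t = ∫ t in (1 : ℝ)..r, (1 : ℝ) := by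
        refine intervalIntegral.integral_congr fun t ht => ?_
        rw [Set.uIcc_of_le h] at ht
        exact Real.smoothTransition.one_of_one_le ht.1
      rw [h1, h2]
      simp only [intervalIntegral.integral_const, smul_eq_mul, mul_one]
      linarith [hnn 1]
  · intro r
    rw [hderiv]
    exact ⟨Real.smoothTransition.nonneg r, Real.smoothTransition.le_one r⟩

private def mff_w (R C : ℝ) (z : ℂ) : ℝ := C * R ^ 2 + 1 - C / 4 * (z.re ^ 2 + z.im ^ 2)

private theorem mff_w_sm (R C : ℝ) : ContDiff ℝ ∞ (mff_w R C) := by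
  unfold mff_w
  exact contDiff_const.sub (contDiff_const.mul
    ((Complex.reCLM.contDiff.pow 2).add (Complex.imCLM.contDiff.pow 2)))

private theorem mff_w_fd (R C : ℝ) (z v : ℂ) :
    fderiv ℝ (mff_w R C) z v = - (C / 2) * (z.re * v.re + z.im * v.im) := by
  have h1 : HasFDerivAt (fun z : ℂ => z.re) Complex.reCLM z := Complex.reCLM.hasFDerivAt
  have h2 : HasFDerivAt (fun z : ℂ => z.im) Complex.imCLM z := Complex.imCLM.hasFDerivAt
  have h1' : HasFDerivAt (fun z : ℂ => z.re ^ 2) _ z := h1.pow 2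
  have h2' : HasFDerivAt (fun z : ℂ => z.im ^ 2) _ z := h2.pow 2
  have h3 := ((h1'.fun_add h2').const_mul (C / 4)).const_sub (C * R ^ 2 + 1)
  have h4 : mff_w R C = fun z : ℂ => C * R ^ 2 + 1 - C / 4 * (z.re ^ 2 + z.im ^ 2) := rfl
  rw [h4, h3.fderiv]
  simp
  ring

private theorem mff_w_lap (R C : ℝ) (z : ℂ) : lap (mff_w R C) z = - C := by
  unfold lap
  simp only [mff_w_fd]
  have h1 : HasFDerivAt (fun z : ℂ => z.re) Complex.reCLM z := Complex.reCLM.hasFDerivAt
  have h2 : HasFDerivAt (fun z : ℂ => z.im) Complex.imCLM z := Complex.imCLM.hasFDerivAt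
  have e1 : (fun w : ℂ => - (C / 2) * (w.re * (1 : ℂ).re + w.im * (1 : ℂ).im)) =
      fun w : ℂ => - (C / 2) * w.re := by
    funext w; simp
  have e2 : (fun w : ℂ => - (C / 2) * (w.re * Complex.I.re + w.im * Complex.I.im)) =
      fun w : ℂ => - (C / 2) * w.im := by
    funext w; simp
  rw [e1, e2, (h1.const_mul (- (C / 2))).fderiv, (h2.const_mul (- (C / 2))).fderiv]
  simp
  ring

theorem trunc_up {Ω : Set ℂ} {R C : ℝ} (hR : ∀ z ∈ Ω, ‖z‖ ≤ R) (hR1 : 0 ≤ R) {φ g : ℂ → ℝ}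
    (hφ : CSC Ω φ) (hC : ∀ z, |φ z| ≤ C) (hg : CSC Ω g) :
    ∃ g' : ℂ → ℝ, CSC Ω g' ∧ (∀ z, g' z ≤ C * R ^ 2 + 2) ∧ (∀ z, min (g z) 0 ≤ g' z) ∧
      Jc φ g ≤ Jc φ g' := by
  have hC0 : 0 ≤ C := (abs_nonneg _).trans (hC 0)
  have hgs : ∀ z ∈ tsupport g, ‖z‖ ≤ R := fun z hz => hR z (hg.sub hz)
  rcases eq_or_lt_of_le hR1 with hR0 | hR0
  · -- `R = 0`
    have hz : ∀ z, g z = 0 := by
      intro z
      by_contra hne
      have hopen : IsOpen {z | g z ≠ 0} := isOpen_ne_fun hg.sm.continuous continuous_const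
      obtain ⟨ε, hε, hball⟩ := Metric.isOpen_iff.1 hopen z hne
      have hz0 : ∀ y, g y ≠ 0 → y = 0 := by
        intro y hy
        have := hgs y (subset_tsupport g hy)
        rw [← hR0] at this
        exact norm_le_zero_iff.1 this
      have h1 : z + ((ε / 2 : ℝ) : ℂ) ∈ Metric.ball z ε := by
        rw [Metric.mem_ball, dist_eq_norm, add_sub_cancel_left, Complex.norm_real,
          Real.norm_eq_abs, abs_of_pos (by positivity)]
        linarith
      have h2 := hz0 _ (hball h1)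
      rw [hz0 z hne, zero_add] at h2
      have h3 : (ε / 2 : ℝ) = 0 := by exact_mod_cast h2
      linarith
    refine ⟨g, hg, fun z => ?_, fun z => min_le_left _ _, le_rfl⟩
    rw [hz z]
    positivity
  obtain ⟨κ, hκs, hκ0, hκn, hκu, hκl, hκd⟩ := mff_kap
  let χ : ContDiffBump (0 : ℂ) := ⟨R, 2 * R, hR0, by linarith⟩
  set w := mff_w R C with hw
  have hws : ContDiff ℝ ∞ w := mff_w_sm R C
  have hw1 : ∀ z : ℂ, ‖z‖ ≤ 2 * R → 1 ≤ w z := by
    intro z hz
    have h1 : z.re ^ 2 + z.im ^ 2 = ‖z‖ ^ 2 := by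
      rw [← Complex.normSq_eq_norm_sq, Complex.normSq_apply]; ring
    have h2 : ‖z‖ ^ 2 ≤ (2 * R) ^ 2 := pow_le_pow_left₀ (norm_nonneg _) hz 2
    show 1 ≤ C * R ^ 2 + 1 - C / 4 * (z.re ^ 2 + z.im ^ 2)
    rw [h1]
    nlinarith [mul_le_mul_of_nonneg_left h2 (div_nonneg hC0 (by norm_num : (0 : ℝ) ≤ 4))]
  have hwu : ∀ z : ℂ, w z ≤ C * R ^ 2 + 1 := by
    intro z
    show C * R ^ 2 + 1 - C / 4 * (z.re ^ 2 + z.im ^ 2) ≤ _
    have : 0 ≤ C / 4 * (z.re ^ 2 + z.im ^ 2) := by positivity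
    linarith
  set v : ℂ → ℝ := fun z => χ z * κ (g z - w z) with hv
  have hks : ContDiff ℝ ∞ (fun z => κ (g z - w z)) := hκs.comp (hg.sm.sub hws)
  have hvs : ContDiff ℝ ∞ v := χ.contDiff.mul hks
  have hv0 : ∀ z, 0 ≤ v z := fun z => mul_nonneg χ.nonneg (hκn _)
  have hvg : ∀ z, z ∉ tsupport g → v z = 0 := by
    intro z hz
    show χ z * κ (g z - w z) = 0
    rcases le_total ‖z‖ (2 * R) with h | h
    · rw [image_eq_zero_of_notMem_tsupport hz, hκ0 _ (by linarith [hw1 z h]), mul_zero]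
    · rw [χ.zero_of_le_dist (by rw [dist_zero_right]; exact h), zero_mul]
  have hvt : tsupport v ⊆ tsupport g :=
    closure_minimal (fun z hz => by_contra fun hn => hz (hvg z hn)) (isClosed_tsupport g)
  have hvc : HasCompactSupport v := hg.cs.of_isClosed_subset (isClosed_tsupport _) hvt
  have hv1 : ∀ z : ℂ, ‖z‖ < 2 * R → v z = κ (g z - w z) := by
    intro z hz
    show χ z * κ (g z - w z) = _
    rcases le_or_gt ‖z‖ R with h | h
    · rw [χ.one_of_mem_closedBall (by rw [mem_closedBall_zero_iff]; exact h), one_mul]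
    · have hzn : z ∉ tsupport g := fun hm => absurd (hgs z hm) (not_le.2 h)
      rw [image_eq_zero_of_notMem_tsupport hzn, hκ0 _ (by linarith [hw1 z hz.le]), mul_zero]
  have hgv : ContDiff ℝ ∞ (fun z => g z + (-1) * v z) := hg.sm.add (contDiff_const.mul hvs)
  refine ⟨fun z => g z + (-1) * v z, ⟨hgv, ?_, ?_⟩, ?_, ?_, ?_⟩
  · exact hg.cs.add hvc.mul_left
  · refine (closure_minimal (fun z hz => ?_) (isClosed_tsupport g)).trans hg.sub
    by_contra hn
    apply hz
    show g z + (-1) * v z = 0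
    rw [image_eq_zero_of_notMem_tsupport hn, hvg z hn]
    simp
  · intro z
    show g z + (-1) * v z ≤ _
    by_cases hz : z ∈ tsupport g
    · rw [hv1 z (by linarith [hgs z hz])]
      linarith [hκl (g z - w z), hwu z]
    · rw [image_eq_zero_of_notMem_tsupport hz, hvg z hz]
      simp only [mul_zero, add_zero]
      positivity
  · intro z
    show min (g z) 0 ≤ g z + (-1) * v z
    by_cases hz : z ∈ tsupport g
    · have h1 := hw1 z (by linarith [hgs z hz])
      rw [hv1 z (by linarith [hgs z hz])]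
      rcases le_total (g z - w z) 0 with h | h
      · rw [hκ0 _ h]
        simp
      · have := hκu _ h
        exact (min_le_right _ _).trans (by linarith)
    · rw [hvg z hz]
      simp
  · -- the functional
    have h1 := dirE_add hg.sm hg.cs hvs hvc (-1)
    have h2 := green hws hvs hvc
    have i1 : Integrable v := int_cs hvs.continuous hvc
    have i2 := mfb_i hφ.sm hvs hvc
    have i3 := mfb_i hφ.sm hg.sm hg.cs
    have e1 : ∫ z, φ z * (g z + (-1) * v z) = (∫ z, φ z * g z) - ∫ z, φ z * v z := by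
      rw [← integral_sub i3 i2]
      refine integral_congr_ae (Filter.Eventually.of_forall fun z => ?_)
      show φ z * (g z + (-1) * v z) = φ z * g z - φ z * v z
      ring
    have e2 : ∫ z, lap w z * v z = - C * ∫ z, v z := by
      rw [← integral_const_mul]
      refine integral_congr_ae (Filter.Eventually.of_forall fun z => ?_)
      show lap w z * v z = - C * v z
      rw [hw, mff_w_lap]
    -- pointwise inequality
    have hpt : ∀ z, 2 * gin w v z ≤ 2 * gin g v z - gsq v z := by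
      intro z
      rcases lt_or_ge ‖z‖ (2 * R) with h | h
      · have hev : v =ᶠ[𝓝 z] fun z => κ (g z - w z) := by
          have : Metric.ball (0 : ℂ) (2 * R) ∈ 𝓝 z :=
            Metric.isOpen_ball.mem_nhds (by rw [mem_ball_zero_iff]; exact h)
          filter_upwards [this] with y hy
          exact hv1 y (by rwa [mem_ball_zero_iff] at hy)
        have hk : ∀ u : ℂ, fderiv ℝ v z u =
            deriv κ (g z - w z) * (fderiv ℝ g z u - fderiv ℝ w z u) := by
          intro u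
          rw [hev.fderiv_eq]
          have d1 : HasFDerivAt (fun z => g z - w z) (fderiv ℝ g z - fderiv ℝ w z) z :=
            (hg.sm.differentiable (by simp) z).hasFDerivAt.sub
              (hws.differentiable (by simp) z).hasFDerivAt
          have d2 : HasDerivAt κ (deriv κ (g z - w z)) (g z - w z) :=
            (hκs.differentiable (by simp) _).hasDerivAt
          have d3 := d2.comp_hasFDerivAt z d1
          have d4 : HasFDerivAt (fun z => κ (g z - w z))
            (deriv κ (g z - w z) • (fderiv ℝ g z - fderiv ℝ w z)) z := d3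
          rw [d4.fderiv]
          simp
        obtain ⟨k0, k1⟩ := hκd (g z - w z)
        unfold gin gsq
        rw [hk, hk]
        set k := deriv κ (g z - w z)
        set a := fderiv ℝ g z 1
        set b := fderiv ℝ w z 1
        set a' := fderiv ℝ g z Complex.I
        set b' := fderiv ℝ w z Complex.I
        have e : 2 * (a * (k * (a - b)) + a' * (k * (a' - b'))) -
            ((k * (a - b)) ^ 2 + (k * (a' - b')) ^ 2) -
            2 * (b * (k * (a - b)) + b' * (k * (a' - b'))) =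
            (k * (2 - k)) * ((a - b) ^ 2 + (a' - b') ^ 2) := by ring
        have : 0 ≤ (k * (2 - k)) * ((a - b) ^ 2 + (a' - b') ^ 2) :=
          mul_nonneg (mul_nonneg k0 (by linarith)) (by positivity)
        linarith
      · have hzn : z ∉ tsupport v := by
          intro hm
          have := hgs z (hvt hm)
          linarith
        have h0 : ∀ u : ℂ, fderiv ℝ v z u = 0 := fun u =>
          image_eq_zero_of_notMem_tsupport (f := fun z => fderiv ℝ v z u)
            (fun h => hzn (tsupport_fd v u h))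
        unfold gin gsq
        rw [h0, h0]
        simp
    have i4 : Integrable (gin w v) := mfb_gin hws hvs hvc
    have i5 : Integrable (gin g v) := mfb_gin hg.sm hvs hvc
    have i6 : Integrable (gsq v) := mfb_gsq hvs hvc
    have h3 : ∫ z, 2 * gin w v z ≤ ∫ z, (2 * gin g v z - gsq v z) :=
      integral_mono (i4.const_mul 2) ((i5.const_mul 2).sub i6) hpt
    rw [integral_const_mul, integral_sub (i5.const_mul 2) i6, integral_const_mul] at h3
    have h4 : ∫ z, φ z * v z ≤ C * ∫ z, v z := by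
      rw [← integral_const_mul]
      exact integral_mono i2 (i1.const_mul C) fun z =>
        mul_le_mul_of_nonneg_right ((le_abs_self _).trans (hC z)) (hv0 z)
    have h5 : dirE v = ∫ z, gsq v z := rfl
    unfold Jc
    rw [e1, h1]
    rw [e2] at h2
    linarith

/- END mff -/

/- MODULE mfg
Bounded near maximisers: `trunc_up` for `(φ, g)`, then for `(-φ, -g')` (`Jc (-φ) (-g) = Jc φ g`). -/
private theorem mfg_neg {Ω : Set ℂ} {g : ℂ → ℝ} (hg : CSC Ω g) : CSC Ω (fun z => - g z) := by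
  have := mfd_smul hg (-1)
  simpa only [neg_mul, one_mul] using this

private theorem mfg_jneg {φ g : ℂ → ℝ} :
    Jc (fun z => - φ z) (fun z => - g z) = Jc φ g := by
  unfold Jc dirE
  have h2 : ∀ z, gsq (fun z => - g z) z = gsq g z := by
    intro z
    unfold gsq
    rw [fderiv_fun_neg]
    simp
  simp only [h2, neg_mul_neg]

theorem near_max {Ω : Set ℂ} {R C : ℝ} (hR : ∀ z ∈ Ω, ‖z‖ ≤ R) (hR1 : 0 ≤ R) {φ : ℂ → ℝ}
    (hφ : CSC Ω φ) (hC : ∀ z, |φ z| ≤ C) {ε : ℝ} (hε : 0 < ε) :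
    ∃ g : ℂ → ℝ, CSC Ω g ∧ (∀ z, |g z| ≤ C * R ^ 2 + 2) ∧ GE Ω φ - ε ≤ Jc φ g := by
  have hne : Nonempty {g : ℂ → ℝ // CSC Ω g} := ⟨⟨_, mfd_zero Ω⟩⟩
  obtain ⟨⟨g, hg⟩, h1⟩ := exists_lt_of_lt_ciSup
    (show GE Ω φ - ε < ⨆ g : {g : ℂ → ℝ // CSC Ω g}, Jc φ g.1 from by
      show GE Ω φ - ε < GE Ω φ
      linarith)
  obtain ⟨g1, hg1, hu1, hl1, hj1⟩ := trunc_up hR hR1 hφ hC hg
  obtain ⟨g2, hg2, hu2, hl2, hj2⟩ := trunc_up hR hR1 (mfg_neg hφ)
    (fun z => by rw [abs_neg]; exact hC z) (mfg_neg hg1)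
  rw [mfg_jneg] at hj2
  have hj3 : Jc (fun z => - φ z) g2 = Jc φ (fun z => - g2 z) := by
    have := mfg_jneg (φ := φ) (g := fun z => - g2 z)
    simp only [neg_neg] at this
    exact this
  have hC0 : 0 ≤ C := (abs_nonneg _).trans (hC 0)
  refine ⟨fun z => - g2 z, mfg_neg hg2, fun z => ?_, ?_⟩
  · rw [abs_neg, abs_le]
    refine ⟨?_, hu2 z⟩
    have h3 := hl2 z
    have h4 : - (C * R ^ 2 + 2) ≤ min (- g1 z) 0 := by
      refine le_min (neg_le_neg (hu1 z)) ?_
      have : 0 ≤ C * R ^ 2 + 2 := by positivity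
      linarith
    exact h4.trans h3
  · rw [← hj3]
    have h1' : GE Ω φ - ε < Jc φ g := h1
    linarith

/- END mfg -/

end Pool.Agent.Hmk.Cn
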