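import Pool.Agent.Hmk.CnA

/-!
# Hmk, second part: the continuum (helper70), lattice sums
-/

set_option autoImplicit false

open MeasureTheory Set Filter

open scoped ENNReal ContDiff Topology

noncomputable section

namespace Pool.Agent.Hmk.Cn

/- MODULE mga
Geometry of the lattice. -/
private theorem mga_re (δ : ℝ) (x : ℤ × ℤ) : (lat δ x).re = δ * ((x.1 : ℝ) + (x.2 : ℝ) / 2) := by
  unfold lat om
  simp only [Complex.mul_re, Complex.ofReal_re, Complex.ofReal_im, Complex.add_re,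
    Complex.intCast_re, Complex.intCast_im, zero_mul, sub_zero]
  ring

private theorem mga_im (δ : ℝ) (x : ℤ × ℤ) : (lat δ x).im = δ * ((x.2 : ℝ) * (Real.sqrt 3 / 2)) := by
  unfold lat om
  simp only [Complex.mul_im, Complex.ofReal_re, Complex.ofReal_im, Complex.add_im,
    Complex.intCast_re, Complex.intCast_im, zero_mul, add_zero, zero_add]

theorem lat_add (δ : ℝ) (x y : ℤ × ℤ) : lat δ (x + y) = lat δ x + lat δ y := by
  unfold lat
  simp only [Prod.fst_add, Prod.snd_add]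
  push_cast
  ring

theorem lat_mul (δ : ℝ) (x : ℤ × ℤ) : lat δ x = (δ : ℂ) * lat 1 x := by
  unfold lat
  push_cast
  ring

theorem norm_lat_sq (δ : ℝ) (x : ℤ × ℤ) :
    ‖lat δ x‖ ^ 2 = δ ^ 2 * ((x.1 : ℝ) ^ 2 + x.1 * x.2 + (x.2 : ℝ) ^ 2) := by
  rw [← Complex.normSq_eq_norm_sq, Complex.normSq_apply, mga_re, mga_im]
  have h3 : Real.sqrt 3 * Real.sqrt 3 = 3 := Real.mul_self_sqrt (by norm_num)
  linear_combination (δ ^ 2 * (x.2 : ℝ) ^ 2 / 4) * h3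

private theorem mga_q (i : Fin 6) : ((st i).1 : ℝ) ^ 2 + (st i).1 * (st i).2 + ((st i).2 : ℝ) ^ 2 = 1 := by
  fin_cases i <;> simp [st]

theorem norm_st {δ : ℝ} (hδ : 0 ≤ δ) (i : Fin 6) : ‖lat δ (st i)‖ = δ := by
  have h1 := norm_lat_sq δ (st i)
  rw [mga_q i, mul_one] at h1
  exact (sq_eq_sq₀ (norm_nonneg _) hδ).1 h1

private theorem mga_sub (δ : ℝ) (x y : ℤ × ℤ) : lat δ (x - y) = lat δ x - lat δ y := by
  unfold lat
  simp only [Prod.fst_sub, Prod.snd_sub]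
  push_cast
  ring

/-- two lattice points at distance `< √3` (mesh 1) are equal or neighbours -/
theorem near_lat {x y : ℤ × ℤ} (h : ‖lat 1 x - lat 1 y‖ < 3 / 2) : x = y ∨ ∃ i, y = x + st i := by
  rw [← mga_sub] at h
  obtain ⟨d, hd⟩ : ∃ d, d = x - y := ⟨_, rfl⟩
  rw [← hd] at h
  have h1 := norm_lat_sq 1 d
  have h2 : ‖lat 1 d‖ ^ 2 < (3 / 2) ^ 2 := pow_lt_pow_left₀ h (norm_nonneg _) (by norm_num)
  rw [h1] at h2
  have h3 : d.1 ^ 2 + d.1 * d.2 + d.2 ^ 2 < 3 := by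
    have h4 : ((d.1 ^ 2 + d.1 * d.2 + d.2 ^ 2 : ℤ) : ℝ) < 3 := by
      push_cast
      linarith
    exact_mod_cast h4
  obtain ⟨p, q⟩ := d
  simp only at h3
  have hy : y = x - (p, q) := by rw [hd, sub_sub_cancel]
  have h5 : -2 < p ∧ p < 2 := by constructor <;> nlinarith [sq_nonneg (p + 2 * q), sq_nonneg (2 * p + q)]
  have h6 : -2 < q ∧ q < 2 := by constructor <;> nlinarith [sq_nonneg (p + 2 * q), sq_nonneg (2 * p + q)]
  obtain ⟨a1, a2⟩ := h5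
  obtain ⟨b1, b2⟩ := h6
  have e : ∀ i : Fin 6, st i = -(p, q) → x = y ∨ ∃ i, y = x + st i := by
    intro i hi
    refine Or.inr ⟨i, ?_⟩
    rw [hy, hi, sub_eq_add_neg]
  interval_cases p <;> interval_cases q
  · norm_num at h3
  · exact e 0 (by simp [st])
  · exact e 5 (by simp [st])
  · exact e 1 (by simp [st])
  · exact Or.inl (hy.trans (sub_zero x)).symm
  · exact e 4 (by simp [st])
  · exact e 2 (by simp [st])
  · exact e 3 (by simp [st])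
  · norm_num at h3

private theorem mga_tri {s t : ℝ} (hs : 0 ≤ s) (ht : 0 ≤ t) (hst : s + t ≤ 1) :
    s ^ 2 + s * t + t ^ 2 < 9 / 25 ∨ (s - 1) ^ 2 + (s - 1) * t + t ^ 2 < 9 / 25 ∨
      s ^ 2 + s * (t - 1) + (t - 1) ^ 2 < 9 / 25 := by
  by_contra hc
  push Not at hc
  obtain ⟨h1, h2, h3⟩ := hc
  nlinarith [mul_nonneg (show (0 : ℝ) ≤ 1 - s - t by linarith) (sub_nonneg.2 h1),
    mul_nonneg hs (sub_nonneg.2 h2), mul_nonneg ht (sub_nonneg.2 h3),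
    sq_nonneg (s - 1 / 3 + (t - 1 / 3)), sq_nonneg (s - 1 / 3), sq_nonneg (t - 1 / 3)]

private theorem mga_nsq (z : ℂ) (p q s t : ℝ) (h1 : z.re - p = s + t / 2)
    (h2 : z.im - q = t * (Real.sqrt 3 / 2)) (w : ℂ) (hw1 : w.re = p) (hw2 : w.im = q) :
    ‖z - w‖ ^ 2 = s ^ 2 + s * t + t ^ 2 := by
  rw [← Complex.normSq_eq_norm_sq, Complex.normSq_apply, Complex.sub_re, Complex.sub_im, hw1, hw2,
    h1, h2]
  have h3 : Real.sqrt 3 * Real.sqrt 3 = 3 := Real.mul_self_sqrt (by norm_num)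
  linear_combination (t ^ 2 / 4) * h3

/-- every point is at distance `< 3/5` from the lattice of mesh 1 (`1/√3 < 3/5`) -/
theorem cover_lat (z : ℂ) : ∃ x : ℤ × ℤ, ‖z - lat 1 x‖ < 3 / 5 := by
  have h3 : 0 < Real.sqrt 3 := Real.sqrt_pos.2 (by norm_num)
  obtain ⟨b, hb⟩ : ∃ b : ℝ, b = z.im / (Real.sqrt 3 / 2) := ⟨_, rfl⟩
  obtain ⟨a, ha⟩ : ∃ a : ℝ, a = z.re - b / 2 := ⟨_, rfl⟩
  have hb' : z.im = b * (Real.sqrt 3 / 2) := by
    rw [hb]
    field_simp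
  have ha' : z.re = a + b / 2 := by
    rw [ha]
    ring
  have key : ∀ m n : ℤ, ‖z - lat 1 (m, n)‖ ^ 2 =
      (a - m) ^ 2 + (a - m) * (b - n) + (b - n) ^ 2 := by
    intro m n
    refine mga_nsq z (lat 1 (m, n)).re (lat 1 (m, n)).im (a - m) (b - n) ?_ ?_ _ rfl rfl
    · rw [mga_re, ha']
      push_cast
      ring
    · rw [mga_im, hb']
      push_cast
      ring
  have fin : ∀ m n : ℤ, (a - m) ^ 2 + (a - m) * (b - n) + (b - n) ^ 2 < 9 / 25 →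
      ∃ x : ℤ × ℤ, ‖z - lat 1 x‖ < 3 / 5 := by
    intro m n h
    refine ⟨(m, n), ?_⟩
    rw [← key] at h
    have h5 : ‖z - lat 1 (m, n)‖ ^ 2 < (3 / 5) ^ 2 := by
      norm_num at h ⊢
      exact h
    exact lt_of_pow_lt_pow_left₀ 2 (by norm_num) h5
  have hs0 := Int.fract_nonneg a
  have ht0 := Int.fract_nonneg b
  have hs1 := Int.fract_lt_one a
  have ht1 := Int.fract_lt_one b
  have ea : a - (⌊a⌋ : ℝ) = Int.fract a := rfl
  have eb : b - (⌊b⌋ : ℝ) = Int.fract b := rfl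
  have ea1 : a - ((⌊a⌋ + 1 : ℤ) : ℝ) = Int.fract a - 1 := by
    rw [← ea]
    push_cast
    ring
  have eb1 : b - ((⌊b⌋ + 1 : ℤ) : ℝ) = Int.fract b - 1 := by
    rw [← eb]
    push_cast
    ring
  rcases le_total (Int.fract a + Int.fract b) 1 with hc | hc
  · rcases mga_tri hs0 ht0 hc with h | h | h
    · exact fin ⌊a⌋ ⌊b⌋ (by rw [ea, eb]; exact h)
    · exact fin (⌊a⌋ + 1) ⌊b⌋ (by rw [ea1, eb]; exact h)
    · exact fin ⌊a⌋ (⌊b⌋ + 1) (by rw [ea, eb1]; exact h)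
  · rcases mga_tri (s := 1 - Int.fract a) (t := 1 - Int.fract b) (by linarith) (by linarith)
      (by linarith) with h | h | h
    · exact fin (⌊a⌋ + 1) (⌊b⌋ + 1) (by rw [ea1, eb1]; linarith)
    · exact fin ⌊a⌋ (⌊b⌋ + 1) (by rw [ea, eb1]; linarith)
    · exact fin (⌊a⌋ + 1) ⌊b⌋ (by rw [ea1, eb]; linarith)

private theorem mga_co {δ R : ℝ} (hδ : 0 < δ) {x : ℤ × ℤ} (h : ‖lat δ x‖ ≤ R) :
    |(x.1 : ℝ)| ≤ 2 * (R / δ) ∧ |(x.2 : ℝ)| ≤ 2 * (R / δ) := by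
  have hR : 0 ≤ R := (norm_nonneg _).trans h
  have h1 := norm_lat_sq δ x
  have h2 : ‖lat δ x‖ ^ 2 ≤ R ^ 2 := pow_le_pow_left₀ (norm_nonneg _) h 2
  rw [h1] at h2
  have h3 : (x.1 : ℝ) ^ 2 + x.1 * x.2 + (x.2 : ℝ) ^ 2 ≤ (R / δ) ^ 2 := by
    rw [div_pow, le_div_iff₀ (by positivity)]
    linarith
  have h0 : 0 ≤ R / δ := by positivity
  constructor <;> refine abs_le_of_sq_le_sq ?_ (by positivity) <;>
    nlinarith [sq_nonneg ((x.1 : ℝ) + 2 * x.2), sq_nonneg (2 * (x.1 : ℝ) + x.2)]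

private theorem mga_card {L : ℝ} (hL : 1 ≤ L) {D : Finset (ℤ × ℤ)}
    (h : ∀ x ∈ D, |(x.1 : ℝ)| ≤ 2 * L ∧ |(x.2 : ℝ)| ≤ 2 * L) : (D.card : ℝ) ≤ 25 * L ^ 2 := by
  obtain ⟨N, hN⟩ : ∃ N : ℤ, N = ⌊2 * L⌋ := ⟨_, rfl⟩
  have hN0 : 0 ≤ N := by
    rw [hN]
    exact Int.floor_nonneg.2 (by linarith)
  have hN1 : (N : ℝ) ≤ 2 * L := by
    rw [hN]
    exact Int.floor_le _
  have hsub : D ⊆ Finset.Icc (-N) N ×ˢ Finset.Icc (-N) N := by
    intro x hx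
    obtain ⟨a, b⟩ := h x hx
    rw [abs_le] at a b
    simp only [Finset.mem_product, Finset.mem_Icc]
    have e1 : -x.1 ≤ N := by
      rw [hN]
      refine Int.le_floor.2 ?_
      push_cast
      linarith
    have e2 : x.1 ≤ N := by
      rw [hN]
      exact Int.le_floor.2 a.2
    have e3 : -x.2 ≤ N := by
      rw [hN]
      refine Int.le_floor.2 ?_
      push_cast
      linarith
    have e4 : x.2 ≤ N := by
      rw [hN]
      exact Int.le_floor.2 b.2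
    exact ⟨⟨by linarith, e2⟩, by linarith, e4⟩
  have h1 := Finset.card_le_card hsub
  rw [Finset.card_product, Int.card_Icc] at h1
  have h2 : (((N + 1 - -N).toNat : ℕ) : ℝ) = 2 * N + 1 := by
    have h3 : (((N + 1 - -N).toNat : ℕ) : ℤ) = 2 * N + 1 := by
      rw [Int.toNat_of_nonneg (by linarith)]
      ring
    exact_mod_cast h3
  have h3 : (D.card : ℝ) ≤ (2 * N + 1) * (2 * N + 1) := by
    calc (D.card : ℝ) ≤ (((N + 1 - -N).toNat * (N + 1 - -N).toNat : ℕ) : ℝ) := by exact_mod_cast h1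
      _ = _ := by
        rw [Nat.cast_mul, h2]
  have h4 : (0 : ℝ) ≤ N := by exact_mod_cast hN0
  nlinarith

/-- the number of lattice points in a bounded region -/
theorem card_lat : ∃ C : ℝ, 0 < C ∧ ∀ (δ R : ℝ), 0 < δ → δ ≤ R → ∀ D : Finset (ℤ × ℤ),
    (∀ x ∈ D, ‖lat δ x‖ ≤ R) → (D.card : ℝ) ≤ C * (R / δ) ^ 2 := by
  refine ⟨25, by norm_num, fun δ R hδ hR D hD => ?_⟩
  exact mga_card ((one_le_div hδ).2 hR) fun x hx => mga_co hδ (hD x hx)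

/-- the same for a ball with an arbitrary centre -/
theorem card_ball : ∃ C : ℝ, 0 < C ∧ ∀ (δ R : ℝ) (c : ℂ), 0 < δ → δ ≤ R → ∀ D : Finset (ℤ × ℤ),
    (∀ x ∈ D, ‖lat δ x - c‖ ≤ R) → (D.card : ℝ) ≤ C * (R / δ) ^ 2 := by
  refine ⟨100, by norm_num, fun δ R c hδ hR D hD => ?_⟩
  rcases D.eq_empty_or_nonempty with rfl | ⟨x₀, h0⟩
  · simp only [Finset.card_empty, Nat.cast_zero]
    positivity
  have h1 : ∀ y ∈ D.image (fun x => x - x₀), ‖lat δ y‖ ≤ 2 * R := by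
    intro y hy
    obtain ⟨x, hx, rfl⟩ := Finset.mem_image.1 hy
    rw [mga_sub]
    have h2 := hD x hx
    have h3 := hD x₀ h0
    calc ‖lat δ x - lat δ x₀‖ = ‖(lat δ x - c) - (lat δ x₀ - c)‖ := by
          congr 1
          ring
      _ ≤ ‖lat δ x - c‖ + ‖lat δ x₀ - c‖ := norm_sub_le _ _
      _ ≤ _ := by linarith
  have h2 : (D.image (fun x => x - x₀)).card = D.card :=
    Finset.card_image_of_injective _ fun a b hab => sub_left_injective hab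
  have h3 : (1 : ℝ) ≤ 2 * R / δ := (one_le_div hδ).2 (by linarith)
  have h4 := mga_card h3 fun x hx => mga_co hδ (h1 x hx)
  rw [h2] at h4
  refine h4.trans (le_of_eq ?_)
  ring

/- END mga -/

/- MODULE mgb
The cell of `x`: `lat δ x + δ {s + t om : 0 ≤ s, t < 1}` has area `√3/2 δ²` (image of the unit square
under a linear map of determinant `√3/2 δ²`), the cells tile the plane.  Riemann sums. -/
private def mgb_b (δ : ℝ) (z : ℂ) : ℝ := z.im / (Real.sqrt 3 / 2 * δ)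

private def mgb_a (δ : ℝ) (z : ℂ) : ℝ := z.re / δ - mgb_b δ z / 2

private def mgb_cell (δ : ℝ) (x : ℤ × ℤ) : Set ℂ := {z | ⌊mgb_a δ z⌋ = x.1 ∧ ⌊mgb_b δ z⌋ = x.2}

private theorem mgb_s3 : 0 < Real.sqrt 3 := Real.sqrt_pos.2 (by norm_num)

private theorem mgb_s9 : Real.sqrt 3 * Real.sqrt 3 = 3 := Real.mul_self_sqrt (by norm_num)

private theorem mgb_im {δ : ℝ} (hδ : 0 < δ) (z : ℂ) : z.im = δ * (mgb_b δ z * (Real.sqrt 3 / 2)) := by
  have := mgb_s3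
  unfold mgb_b
  field_simp

private theorem mgb_re {δ : ℝ} (hδ : 0 < δ) (z : ℂ) : z.re = δ * (mgb_a δ z + mgb_b δ z / 2) := by
  unfold mgb_a
  field_simp
  ring

private theorem mgb_badd {δ : ℝ} (hδ : 0 < δ) (z : ℂ) (x : ℤ × ℤ) :
    mgb_b δ (z + lat δ x) = mgb_b δ z + x.2 := by
  have := mgb_s3
  unfold mgb_b
  rw [Complex.add_im, mga_im]
  field_simp

private theorem mgb_aadd {δ : ℝ} (hδ : 0 < δ) (z : ℂ) (x : ℤ × ℤ) :
    mgb_a δ (z + lat δ x) = mgb_a δ z + x.1 := by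
  unfold mgb_a
  rw [mgb_badd hδ, Complex.add_re, mga_re]
  field_simp
  ring

private theorem mgb_tr {δ : ℝ} (hδ : 0 < δ) (z : ℂ) (x y : ℤ × ℤ) :
    z + lat δ x ∈ mgb_cell δ (y + x) ↔ z ∈ mgb_cell δ y := by
  unfold mgb_cell
  simp only [mem_ofPred_eq, mgb_aadd hδ, mgb_badd hδ, Int.floor_add_intCast, Prod.fst_add,
    Prod.snd_add, add_left_inj]

private theorem mgb_nsq {δ : ℝ} (hδ : 0 < δ) (z : ℂ) (x : ℤ × ℤ) : ‖z - lat δ x‖ ^ 2 =
    δ ^ 2 * ((mgb_a δ z - x.1) ^ 2 + (mgb_a δ z - x.1) * (mgb_b δ z - x.2) +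
      (mgb_b δ z - x.2) ^ 2) := by
  rw [← Complex.normSq_eq_norm_sq, Complex.normSq_apply, Complex.sub_re, Complex.sub_im,
    mgb_re hδ z, mgb_im hδ z, mga_re, mga_im]
  linear_combination (δ ^ 2 * (mgb_b δ z - x.2) ^ 2 / 4) * mgb_s9

private theorem mgb_near {δ : ℝ} (hδ : 0 < δ) {z : ℂ} {x : ℤ × ℤ} (hz : z ∈ mgb_cell δ x) :
    ‖z - lat δ x‖ ≤ 2 * δ := by
  have h1 := mgb_nsq hδ z x
  obtain ⟨h2, h3⟩ := hz
  have e1 : mgb_a δ z - x.1 = Int.fract (mgb_a δ z) := by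
    rw [← h2]
    rfl
  have e2 : mgb_b δ z - x.2 = Int.fract (mgb_b δ z) := by
    rw [← h3]
    rfl
  rw [e1, e2] at h1
  have a0 := Int.fract_nonneg (mgb_a δ z)
  have a1 := (Int.fract_lt_one (mgb_a δ z)).le
  have b0 := Int.fract_nonneg (mgb_b δ z)
  have b1 := (Int.fract_lt_one (mgb_b δ z)).le
  refine le_of_sq_le_sq ?_ (by positivity)
  rw [h1]
  have h4 : Int.fract (mgb_a δ z) ^ 2 + Int.fract (mgb_a δ z) * Int.fract (mgb_b δ z) +
      Int.fract (mgb_b δ z) ^ 2 ≤ 4 := by nlinarith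
  have h5 := mul_le_mul_of_nonneg_left h4 (sq_nonneg δ)
  linarith

private theorem mgb_mb (δ : ℝ) : Continuous (mgb_b δ) := by
  unfold mgb_b
  exact Complex.continuous_im.div_const _

private theorem mgb_ma (δ : ℝ) : Continuous (mgb_a δ) := by
  unfold mgb_a
  exact (Complex.continuous_re.div_const _).sub ((mgb_mb δ).div_const _)

private theorem mgb_meas (δ : ℝ) (x : ℤ × ℤ) : MeasurableSet (mgb_cell δ x) := by
  unfold mgb_cell
  refine MeasurableSet.inter ?_ ?_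
  · exact (Int.measurable_floor.comp (mgb_ma δ).measurable) (measurableSet_singleton x.1)
  · exact (Int.measurable_floor.comp (mgb_mb δ).measurable) (measurableSet_singleton x.2)

private def mgb_f (δ : ℝ) : ℂ →ₗ[ℝ] ℂ where
  toFun z := ⟨mgb_a δ z, mgb_b δ z⟩
  map_add' z w := by
    apply Complex.ext
    · simp only [mgb_a, mgb_b, Complex.add_re, Complex.add_im]
      ring
    · simp only [mgb_b, Complex.add_im]
      ring
  map_smul' r z := by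
    apply Complex.ext
    · simp only [mgb_a, mgb_b, Complex.smul_re, Complex.smul_im, smul_eq_mul, RingHom.id_apply]
      ring
    · simp only [mgb_b, Complex.smul_im, smul_eq_mul, RingHom.id_apply]
      ring

private theorem mgb_det {δ : ℝ} (hδ : 0 < δ) :
    LinearMap.det (mgb_f δ) = (Real.sqrt 3 / 2 * δ ^ 2)⁻¹ := by
  have := mgb_s3
  rw [← LinearMap.det_toMatrix Complex.basisOneI, Matrix.det_fin_two]
  simp only [LinearMap.toMatrix_apply, Complex.coe_basisOneI, Complex.coe_basisOneI_repr,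
    Matrix.cons_val_zero, Matrix.cons_val_one]
  simp only [mgb_f, LinearMap.coe_mk, AddHom.coe_mk, mgb_a, mgb_b, Complex.one_re, Complex.one_im,
    Complex.I_re, Complex.I_im]
  field_simp
  ring

private theorem mgb_sq (m n : ℤ) : (volume {w : ℂ | ⌊w.re⌋ = m ∧ ⌊w.im⌋ = n}) = 1 := by
  have h1 : {w : ℂ | ⌊w.re⌋ = m ∧ ⌊w.im⌋ = n} =
      Complex.measurableEquivRealProd ⁻¹' (Ico (m : ℝ) (m + 1) ×ˢ Ico (n : ℝ) (n + 1)) := by
    ext w
    simp only [mem_ofPred_eq, mem_preimage, Complex.measurableEquivRealProd_apply, mem_prod, mem_Ico,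
      Int.floor_eq_iff]
  rw [h1, Complex.volume_preserving_equiv_real_prod.measure_preimage_equiv, Measure.volume_eq_prod,
    Measure.prod_prod, Real.volume_Ico, Real.volume_Ico]
  simp

private theorem mgb_vol {δ : ℝ} (hδ : 0 < δ) (x : ℤ × ℤ) :
    volume.real (mgb_cell δ x) = Real.sqrt 3 / 2 * δ ^ 2 := by
  have h3 := mgb_s3
  have h1 : mgb_cell δ x = mgb_f δ ⁻¹' {w : ℂ | ⌊w.re⌋ = x.1 ∧ ⌊w.im⌋ = x.2} := rfl
  have h2 : LinearMap.det (mgb_f δ) ≠ 0 := by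
    rw [mgb_det hδ]
    positivity
  rw [h1, Measure.real, Measure.addHaar_preimage_linearMap _ h2, mgb_sq, mul_one, mgb_det hδ,
    inv_inv, abs_of_pos (by positivity), ENNReal.toReal_ofReal (by positivity)]

private theorem mgb_disj (δ : ℝ) : Pairwise (fun x y => Disjoint (mgb_cell δ x) (mgb_cell δ y)) := by
  intro x y hxy
  refine Set.disjoint_left.2 fun z h1 h2 => hxy ?_
  exact Prod.ext (h1.1.symm.trans h2.1) (h1.2.symm.trans h2.2)

theorem cell_tile {δ : ℝ} (hδ : 0 < δ) : ∃ A : ℤ × ℤ → Set ℂ, (∀ x, MeasurableSet (A x)) ∧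
    (∀ x, volume.real (A x) = Real.sqrt 3 / 2 * δ ^ 2) ∧ (∀ x, ∀ z ∈ A x, ‖z - lat δ x‖ ≤ 2 * δ) ∧
    Pairwise (fun x y => Disjoint (A x) (A y)) ∧ (⋃ x, A x) = univ := by
  refine ⟨mgb_cell δ, mgb_meas δ, mgb_vol hδ, fun x z hz => mgb_near hδ hz, mgb_disj δ, ?_⟩
  refine eq_univ_of_forall fun z => mem_iUnion.2 ⟨(⌊mgb_a δ z⌋, ⌊mgb_b δ z⌋), rfl, rfl⟩

private theorem mgb_fin {δ : ℝ} (hδ : 0 < δ) (R : ℝ) : {x : ℤ × ℤ | ‖lat δ x‖ ≤ R}.Finite := by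
  obtain ⟨N, hN⟩ : ∃ N : ℤ, N = ⌈2 * (R / δ)⌉ := ⟨_, rfl⟩
  refine (Set.finite_Icc ((-N, -N) : ℤ × ℤ) (N, N)).subset fun x hx => ?_
  obtain ⟨h1, h2⟩ := mga_co hδ hx
  have h3 : 2 * (R / δ) ≤ N := by
    rw [hN]
    exact Int.le_ceil _
  rw [abs_le] at h1 h2
  have e1 : (-N : ℝ) ≤ x.1 := by linarith [h1.1]
  have e2 : (x.1 : ℝ) ≤ N := by linarith [h1.2]
  have e3 : (-N : ℝ) ≤ x.2 := by linarith [h2.1]
  have e4 : (x.2 : ℝ) ≤ N := by linarith [h2.2]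
  exact ⟨⟨by exact_mod_cast e1, by exact_mod_cast e3⟩, by exact_mod_cast e2, by exact_mod_cast e4⟩

private theorem mgb_dec {δ : ℝ} {F : ℂ → ℝ} (hF : Integrable F) (T : Finset (ℤ × ℤ))
    (hT : ∀ x, x ∉ T → ∀ z ∈ mgb_cell δ x, F z = 0) :
    ∫ z, F z = ∑ x ∈ T, ∫ z in mgb_cell δ x, F z := by
  rw [← integral_biUnion_finset T (fun x _ => mgb_meas δ x) (fun x _ y _ hxy => mgb_disj δ hxy)
    (fun x _ => hF.integrableOn)]
  refine (setIntegral_eq_integral_of_forall_compl_eq_zero fun z hz => ?_).symm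
  refine hT (⌊mgb_a δ z⌋, ⌊mgb_b δ z⌋) (fun h => hz ?_) z ⟨rfl, rfl⟩
  exact mem_iUnion₂.2 ⟨_, h, rfl, rfl⟩

private theorem mgb_rad {F : ℂ → ℝ} (hc : HasCompactSupport F) :
    ∃ R : ℝ, 1 ≤ R ∧ ∀ z ∈ tsupport F, ‖z‖ ≤ R := by
  obtain ⟨R, hR⟩ := hc.isCompact.isBounded.exists_norm_le
  exact ⟨max R 1, le_max_right _ _, fun z hz => (hR z hz).trans (le_max_left _ _)⟩

private theorem mgb_uc {F : ℂ → ℝ} (hF : Continuous F) (hc : HasCompactSupport F) {η : ℝ}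
    (hη : 0 < η) : ∃ r : ℝ, 0 < r ∧ ∀ z w : ℂ, ‖z - w‖ < r → |F z - F w| < η := by
  obtain ⟨r, hr, H⟩ := Metric.uniformContinuous_iff.1 (hc.uniformContinuous_of_continuous hF) η hη
  refine ⟨r, hr, fun z w h => ?_⟩
  have := H (a := z) (b := w) (by rw [dist_eq_norm]; exact h)
  rwa [Real.dist_eq] at this

theorem riemann {F : ℂ → ℝ} (hF : Continuous F) (hc : HasCompactSupport F) {ε : ℝ} (hε : 0 < ε) :
    ∃ δ₀ : ℝ, 0 < δ₀ ∧ ∀ δ : ℝ, 0 < δ → δ < δ₀ → ∀ D : Finset (ℤ × ℤ),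
      (∀ x, lat δ x ∈ tsupport F → x ∈ D) →
        |Real.sqrt 3 / 2 * δ ^ 2 * (∑ x ∈ D, F (lat δ x)) - ∫ z, F z| ≤ ε := by
  obtain ⟨R, hR1, hR⟩ := mgb_rad hc
  obtain ⟨C, hC, hcard⟩ := card_lat
  have hq : 0 < Real.sqrt 3 / 2 * C * (R + 2) ^ 2 := by
    have := mgb_s3
    positivity
  obtain ⟨r, hr, hu⟩ := mgb_uc hF hc (div_pos hε hq)
  have hint : Integrable F := hF.integrable_of_hasCompactSupport hc
  refine ⟨min 1 (r / 3), lt_min one_pos (by positivity), fun δ hδ hδ' D hD => ?_⟩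
  have hδ1 : δ < 1 := hδ'.trans_le (min_le_left _ _)
  have hδr : 2 * δ < r := by
    have := hδ'.trans_le (min_le_right _ _)
    linarith
  have hzero : ∀ z, z ∉ tsupport F → F z = 0 := fun z hz => image_eq_zero_of_notMem_tsupport hz
  obtain ⟨T, hT⟩ : ∃ T : Finset (ℤ × ℤ), ∀ x, x ∈ T ↔ ‖lat δ x‖ ≤ R + 2 * δ :=
    ⟨(mgb_fin hδ (R + 2 * δ)).toFinset, fun x => by simp⟩
  have h1 := mgb_dec (δ := δ) hint T fun x hx z hz => hzero z fun hz' => hx ((hT x).2 (by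
    have e1 := mgb_near hδ hz
    have e2 := hR z hz'
    calc ‖lat δ x‖ = ‖z - (z - lat δ x)‖ := by rw [sub_sub_cancel]
      _ ≤ ‖z‖ + ‖z - lat δ x‖ := norm_sub_le _ _
      _ ≤ _ := by linarith))
  have h2 : ∑ x ∈ D, F (lat δ x) = ∑ x ∈ T, F (lat δ x) := by
    classical
    have e1 : ∑ x ∈ D, F (lat δ x) = ∑ x ∈ D ∩ T, F (lat δ x) := by
      refine (Finset.sum_subset Finset.inter_subset_left fun x hx hx' => hzero _ fun h => hx' ?_).symm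
      refine Finset.mem_inter.2 ⟨hx, (hT x).2 ?_⟩
      linarith [hR _ h]
    have e2 : ∑ x ∈ T, F (lat δ x) = ∑ x ∈ D ∩ T, F (lat δ x) := by
      refine (Finset.sum_subset Finset.inter_subset_right fun x hx hx' => hzero _ fun h => hx' ?_).symm
      exact Finset.mem_inter.2 ⟨hD x h, hx⟩
    rw [e1, e2]
  have h3 : ∀ x, Real.sqrt 3 / 2 * δ ^ 2 * F (lat δ x) = ∫ z in mgb_cell δ x, F (lat δ x) := by
    intro x
    rw [setIntegral_const, mgb_vol hδ, smul_eq_mul]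
  have hv : ∀ x, volume (mgb_cell δ x) < ⊤ := by
    intro x
    by_contra h
    have h4 := mgb_vol hδ x
    rw [not_lt, top_le_iff] at h
    rw [Measure.real, h, ENNReal.toReal_top] at h4
    have h5 : 0 < Real.sqrt 3 / 2 * δ ^ 2 := by
      have := mgb_s3
      positivity
    linarith
  rw [h2, h1, Finset.mul_sum, ← Finset.sum_sub_distrib]
  refine (Finset.abs_sum_le_sum_abs _ _).trans ?_
  have h4 : ∀ x ∈ T, |Real.sqrt 3 / 2 * δ ^ 2 * F (lat δ x) - ∫ z in mgb_cell δ x, F z| ≤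
      ε / (Real.sqrt 3 / 2 * C * (R + 2) ^ 2) * (Real.sqrt 3 / 2 * δ ^ 2) := by
    intro x _
    have i0 : IntegrableOn (fun _ : ℂ => F (lat δ x)) (mgb_cell δ x) :=
      integrableOn_const (hv x).ne enorm_ne_top
    rw [h3, ← integral_sub i0 hint.integrableOn]
    have h5 := norm_setIntegral_le_of_norm_le_const (f := fun z => F (lat δ x) - F z) (hv x)
      (C := ε / (Real.sqrt 3 / 2 * C * (R + 2) ^ 2)) (fun z hz => by
        rw [Real.norm_eq_abs]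
        refine (hu _ _ ?_).le
        rw [norm_sub_rev]
        exact (mgb_near hδ hz).trans_lt hδr)
    rw [Real.norm_eq_abs, mgb_vol hδ] at h5
    exact h5
  refine (Finset.sum_le_sum h4).trans ?_
  rw [Finset.sum_const, nsmul_eq_mul]
  have h6 := hcard δ (R + 2 * δ) hδ (by linarith) T fun x hx => (hT x).1 hx
  have h7 : (R + 2 * δ) ^ 2 ≤ (R + 2) ^ 2 := pow_le_pow_left₀ (by positivity) (by linarith) 2
  have h8 : (T.card : ℝ) * δ ^ 2 ≤ C * (R + 2) ^ 2 := by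
    calc (T.card : ℝ) * δ ^ 2 ≤ C * ((R + 2 * δ) / δ) ^ 2 * δ ^ 2 :=
          mul_le_mul_of_nonneg_right h6 (sq_nonneg _)
      _ = C * (R + 2 * δ) ^ 2 := by field_simp
      _ ≤ _ := mul_le_mul_of_nonneg_left h7 hC.le
  have h9 : 0 ≤ ε / (Real.sqrt 3 / 2 * C * (R + 2) ^ 2) * (Real.sqrt 3 / 2) := by
    have := mgb_s3
    positivity
  calc (T.card : ℝ) * (ε / (Real.sqrt 3 / 2 * C * (R + 2) ^ 2) * (Real.sqrt 3 / 2 * δ ^ 2))
      = ε / (Real.sqrt 3 / 2 * C * (R + 2) ^ 2) * (Real.sqrt 3 / 2) * (T.card * δ ^ 2) := by ring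
    _ ≤ ε / (Real.sqrt 3 / 2 * C * (R + 2) ^ 2) * (Real.sqrt 3 / 2) * (C * (R + 2) ^ 2) :=
        mul_le_mul_of_nonneg_left h8 h9
    _ = ε := by
        have := mgb_s3
        field_simp

/- END mgb -/

/- MODULE mgc
Taylor: `g(z + δ e) + g(z - δ e) - 2 g(z) = δ² D²g(z)(e,e) + o(δ²)` uniformly (`D²g` uniformly
continuous, compact support), `∑_{i<3} D²g(e_i,e_i) = (3/2) lap g` for the directions
`e_i = lat 1 (st i)`. -/
private theorem mgc_sums : (∑ i, (lat 1 (st i)).re = 0) ∧ (∑ i, (lat 1 (st i)).im = 0) ∧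
    (∑ i, (lat 1 (st i)).re ^ 2 = 3) ∧ (∑ i, (lat 1 (st i)).im ^ 2 = 3) ∧
    (∑ i, (lat 1 (st i)).re * (lat 1 (st i)).im = 0) := by
  have h3 : Real.sqrt 3 ^ 2 = 3 := Real.sq_sqrt (by norm_num)
  simp only [mga_re, mga_im, Fin.sum_univ_six]
  have e0 : st 0 = (1, 0) := rfl
  have e1 : st 1 = (0, 1) := rfl
  have e2 : st 2 = (-1, 1) := rfl
  have e3 : st 3 = (-1, 0) := rfl
  have e4 : st 4 = (0, -1) := rfl
  have e5 : st 5 = (1, -1) := rfl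
  rw [e0, e1, e2, e3, e4, e5]
  push_cast
  refine ⟨by ring, by ring, by ring, ?_, by ring⟩
  ring_nf
  rw [h3]

private theorem mgc_lin (L : ℂ →L[ℝ] ℝ) (e : ℂ) : L e = e.re * L 1 + e.im * L Complex.I := by
  have h1 : e = e.re • (1 : ℂ) + e.im • Complex.I := by
    apply Complex.ext <;> simp
  conv_lhs => rw [h1]
  rw [map_add, map_smul, map_smul, smul_eq_mul, smul_eq_mul]

private theorem mgc_hd {g : ℂ → ℝ} (hg : ContDiff ℝ ∞ g) (z e : ℂ) (t : ℝ) :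
    HasDerivAt (fun t : ℝ => g (z + t • e)) (fderiv ℝ g (z + t • e) e) t := by
  have h1 : HasFDerivAt g (fderiv ℝ g (z + t • e)) (z + t • e) :=
    ((hg.differentiable (by simp)) _).hasFDerivAt
  have h2 : HasDerivAt (fun t : ℝ => z + t • e) e t := by
    have := ((hasDerivAt_id' t).smul_const e).const_add z
    simpa using this
  exact h1.comp_hasDerivAt t h2

private theorem mgc_mv {f f' : ℝ → ℝ} {C δ : ℝ} (hδ : 0 ≤ δ) (hf : ∀ t, HasDerivAt f (f' t) t)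
    (hb : ∀ t ∈ Icc (0 : ℝ) δ, |f' t| ≤ C) {t : ℝ} (ht : t ∈ Icc (0 : ℝ) δ) :
    |f t - f 0| ≤ C * t := by
  have h1 := (convex_Icc (0 : ℝ) δ).norm_image_sub_le_of_norm_hasDerivWithin_le
    (fun x _ => (hf x).hasDerivWithinAt) (fun x hx => by rw [Real.norm_eq_abs]; exact hb x hx)
    (left_mem_Icc.2 hδ) ht
  rw [Real.norm_eq_abs, Real.norm_eq_abs, sub_zero, abs_of_nonneg ht.1] at h1
  exact h1

private theorem mgc_tay {g : ℂ → ℝ} (hg : ContDiff ℝ ∞ g) (e z : ℂ) {θ δ : ℝ} (hδ : 0 ≤ δ)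
    (h : ∀ t ∈ Icc (0 : ℝ) δ, |fderiv ℝ (fun w => fderiv ℝ g w e) (z + t • e) e -
      fderiv ℝ (fun w => fderiv ℝ g w e) z e| ≤ θ) :
    |g (z + δ • e) - g z - δ * fderiv ℝ g z e -
      δ ^ 2 / 2 * fderiv ℝ (fun w => fderiv ℝ g w e) z e| ≤ θ * δ ^ 2 := by
  have hθ : 0 ≤ θ := (abs_nonneg _).trans (h 0 (left_mem_Icc.2 hδ))
  obtain ⟨A, hA⟩ : ∃ A, A = fderiv ℝ g z e := ⟨_, rfl⟩
  obtain ⟨B, hB⟩ : ∃ B, B = fderiv ℝ (fun w => fderiv ℝ g w e) z e := ⟨_, rfl⟩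
  rw [← hB] at h ⊢
  rw [← hA]
  have h1 : ∀ t : ℝ, HasDerivAt (fun t : ℝ => fderiv ℝ g (z + t • e) e - A - t * B)
      (fderiv ℝ (fun w => fderiv ℝ g w e) (z + t • e) e - B) t := by
    intro t
    have h2 := ((mgc_hd (sm_fd hg e) z e t).sub_const A).sub ((hasDerivAt_id' t).mul_const B)
    rw [one_mul] at h2
    exact h2
  have h2 : ∀ t ∈ Icc (0 : ℝ) δ, |fderiv ℝ g (z + t • e) e - A - t * B| ≤ θ * δ := by
    intro t ht
    have h3 := mgc_mv hδ h1 h ht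
    rw [zero_smul, add_zero, ← hA, sub_self, zero_mul, sub_zero, sub_zero] at h3
    exact h3.trans (mul_le_mul_of_nonneg_left ht.2 hθ)
  have h3 : ∀ t : ℝ, HasDerivAt (fun t : ℝ => g (z + t • e) - g z - t * A - t ^ 2 / 2 * B)
      (fderiv ℝ g (z + t • e) e - A - t * B) t := by
    intro t
    have h5 : HasDerivAt (fun t : ℝ => t ^ 2 / 2 * B) (t * B) t := by
      have h6 := (((hasDerivAt_id' t).pow 2).div_const 2).mul_const B
      have e6 : t * B = ((2 : ℕ) : ℝ) * t ^ (2 - 1) * 1 / 2 * B := by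
        norm_num
      rw [e6]
      exact h6
    have h4 := (((mgc_hd hg z e t).sub_const (g z)).sub ((hasDerivAt_id' t).mul_const A)).sub h5
    rw [one_mul] at h4
    exact h4
  have h4 := mgc_mv hδ h3 h2 (right_mem_Icc.2 hδ)
  rw [zero_smul, add_zero] at h4
  calc |g (z + δ • e) - g z - δ * A - δ ^ 2 / 2 * B| =
        |g (z + δ • e) - g z - δ * A - δ ^ 2 / 2 * B -
          (g z - g z - 0 * A - 0 ^ 2 / 2 * B)| := by
        congr 1
        ring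
    _ ≤ θ * δ * δ := h4
    _ = _ := by ring

private theorem mgc_hess {g : ℂ → ℝ} (hg : ContDiff ℝ ∞ g) (e z : ℂ) :
    fderiv ℝ (fun w => fderiv ℝ g w e) z e =
      e.re ^ 2 * fderiv ℝ (fun w => fderiv ℝ g w 1) z 1 +
      (e.re * e.im) * (fderiv ℝ (fun w => fderiv ℝ g w 1) z Complex.I +
        fderiv ℝ (fun w => fderiv ℝ g w Complex.I) z 1) +
      e.im ^ 2 * fderiv ℝ (fun w => fderiv ℝ g w Complex.I) z Complex.I := by
  have h1 : (fun w => fderiv ℝ g w e) =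
      fun w => e.re * fderiv ℝ g w 1 + e.im * fderiv ℝ g w Complex.I :=
    funext fun w => mgc_lin _ _
  have d1 : DifferentiableAt ℝ (fun w => fderiv ℝ g w 1) z :=
    (sm_fd hg 1).differentiable (by simp) z
  have d2 : DifferentiableAt ℝ (fun w => fderiv ℝ g w Complex.I) z :=
    (sm_fd hg Complex.I).differentiable (by simp) z
  have h2 : HasFDerivAt (fun w => e.re * fderiv ℝ g w 1 + e.im * fderiv ℝ g w Complex.I)
      (e.re • fderiv ℝ (fun w => fderiv ℝ g w 1) z +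
        e.im • fderiv ℝ (fun w => fderiv ℝ g w Complex.I) z) z :=
    (d1.hasFDerivAt.const_mul e.re).add (d2.hasFDerivAt.const_mul e.im)
  rw [h1, h2.fderiv, _root_.add_apply, _root_.smul_apply,
    _root_.smul_apply, mgc_lin (fderiv ℝ (fun w => fderiv ℝ g w 1) z) e,
    mgc_lin (fderiv ℝ (fun w => fderiv ℝ g w Complex.I) z) e, smul_eq_mul, smul_eq_mul]
  ring

private theorem mgc_st (δ : ℝ) (x : ℤ × ℤ) (i : Fin 6) :
    lat δ (x + st i) = lat δ x + δ • lat 1 (st i) := by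
  rw [lat_add, lat_mul δ (st i), Complex.real_smul]

private theorem mgc_min {P : Fin 6 → ℝ → Prop} (hm : ∀ i r r', P i r → r' ≤ r → P i r')
    (h : ∀ i, ∃ r : ℝ, 0 < r ∧ P i r) : ∃ r : ℝ, 0 < r ∧ ∀ i, P i r := by
  choose r hr hP using h
  refine ⟨Finset.univ.inf' ⟨0, Finset.mem_univ _⟩ r, ?_, fun i => ?_⟩
  · rw [Finset.lt_inf'_iff]
    exact fun i _ => hr i
  · exact hm i _ _ (hP i) (Finset.inf'_le _ (Finset.mem_univ i))

theorem taylor_lap {g : ℂ → ℝ} (hg : ContDiff ℝ ∞ g) (hc : HasCompactSupport g) {ε : ℝ}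
    (hε : 0 < ε) : ∃ δ₀ : ℝ, 0 < δ₀ ∧ ∀ δ : ℝ, 0 < δ → δ < δ₀ → ∀ x : ℤ × ℤ,
      |Lap (fun y => g (lat δ y)) x + 3 / 2 * δ ^ 2 * lap g (lat δ x)| ≤ ε * δ ^ 2 := by
  obtain ⟨r, hr, H⟩ := mgc_min
    (P := fun i r => ∀ z w : ℂ, ‖z - w‖ < r →
      |fderiv ℝ (fun w => fderiv ℝ g w (lat 1 (st i))) z (lat 1 (st i)) -
        fderiv ℝ (fun w => fderiv ℝ g w (lat 1 (st i))) w (lat 1 (st i))| < ε / 6)
    (fun i r r' h hr z w hz => h z w (hz.trans_le hr))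
    (fun i => mgb_uc (sm_fd (sm_fd hg _) _).continuous (cs_fd (cs_fd hc _) _)
      (div_pos hε (by norm_num)))
  refine ⟨r, hr, fun δ hδ hδr x => ?_⟩
  obtain ⟨z, hz⟩ : ∃ z, z = lat δ x := ⟨_, rfl⟩
  have h1 : ∀ i, |g (z + δ • lat 1 (st i)) - g z - δ * fderiv ℝ g z (lat 1 (st i)) -
      δ ^ 2 / 2 * fderiv ℝ (fun w => fderiv ℝ g w (lat 1 (st i))) z (lat 1 (st i))| ≤
        ε / 6 * δ ^ 2 := by
    intro i
    refine mgc_tay hg _ z hδ.le fun t ht => (H i _ _ ?_).le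
    rw [add_sub_cancel_left, norm_smul, norm_st zero_le_one, mul_one, Real.norm_eq_abs,
      abs_of_nonneg ht.1]
    exact ht.2.trans_lt hδr
  obtain ⟨s1, s2, s3, s4, s5⟩ := mgc_sums
  have h2 : ∑ i, fderiv ℝ g z (lat 1 (st i)) = 0 := by
    have : ∀ i, fderiv ℝ g z (lat 1 (st i)) = (lat 1 (st i)).re * fderiv ℝ g z 1 +
      (lat 1 (st i)).im * fderiv ℝ g z Complex.I := fun i => mgc_lin _ _
    simp only [this]
    rw [Finset.sum_add_distrib, ← Finset.sum_mul, ← Finset.sum_mul, s1, s2]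
    ring
  have h3 : ∑ i, fderiv ℝ (fun w => fderiv ℝ g w (lat 1 (st i))) z (lat 1 (st i)) =
      3 * lap g z := by
    rw [Finset.sum_congr rfl fun i _ => mgc_hess hg (lat 1 (st i)) z]
    rw [Finset.sum_add_distrib, Finset.sum_add_distrib, ← Finset.sum_mul, ← Finset.sum_mul,
      ← Finset.sum_mul, s3, s4, s5]
    unfold lap
    ring
  have h4 : Lap (fun y => g (lat δ y)) x + 3 / 2 * δ ^ 2 * lap g (lat δ x) =
      - ∑ i, (g (z + δ • lat 1 (st i)) - g z - δ * fderiv ℝ g z (lat 1 (st i)) -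
      δ ^ 2 / 2 * fderiv ℝ (fun w => fderiv ℝ g w (lat 1 (st i))) z (lat 1 (st i))) := by
    rw [Finset.sum_sub_distrib, Finset.sum_sub_distrib, ← Finset.mul_sum, ← Finset.mul_sum, h2, h3]
    unfold Lap
    simp only [mgc_st]
    rw [← hz, Finset.sum_sub_distrib, Finset.sum_sub_distrib]
    ring
  rw [h4, abs_neg]
  refine (Finset.abs_sum_le_sum_abs _ _).trans ((Finset.sum_le_sum fun i _ => h1 i).trans ?_)
  rw [Finset.sum_const, Finset.card_univ, Fintype.card_fin, nsmul_eq_mul]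
  push_cast
  linarith

/- END mgc -/

/- MODULE mgd
`g(lat δ (x + st i)) - g(lat δ x) = δ D g (e_i) + o(δ)`, `∑_{i<6} (Dg e_i)² = 3 gsq g`, `riemann`. -/
private theorem mgd_tay {g : ℂ → ℝ} (hg : ContDiff ℝ ∞ g) (e z : ℂ) {θ δ : ℝ} (hδ : 0 ≤ δ)
    (h : ∀ t ∈ Icc (0 : ℝ) δ, |fderiv ℝ g (z + t • e) e - fderiv ℝ g z e| ≤ θ) :
    |g (z + δ • e) - g z - δ * fderiv ℝ g z e| ≤ θ * δ := by
  obtain ⟨A, hA⟩ : ∃ A, A = fderiv ℝ g z e := ⟨_, rfl⟩
  rw [← hA] at h ⊢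
  have h3 : ∀ t : ℝ, HasDerivAt (fun t : ℝ => g (z + t • e) - g z - t * A)
      (fderiv ℝ g (z + t • e) e - A) t := by
    intro t
    have h4 := ((mgc_hd hg z e t).sub_const (g z)).sub ((hasDerivAt_id' t).mul_const A)
    rw [one_mul] at h4
    exact h4
  have h4 := mgc_mv hδ h3 h (right_mem_Icc.2 hδ)
  rw [zero_smul, add_zero] at h4
  calc |g (z + δ • e) - g z - δ * A| =
        |g (z + δ • e) - g z - δ * A - (g z - g z - 0 * A)| := by
        congr 1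
        ring
    _ ≤ θ * δ := h4

private theorem mgd_bd {F : ℂ → ℝ} (hF : Continuous F) (hc : HasCompactSupport F) :
    ∃ M : ℝ, 0 ≤ M ∧ ∀ z, |F z| ≤ M := by
  obtain ⟨M, hM⟩ := hc.exists_bound_of_continuous hF
  exact ⟨M, (norm_nonneg _).trans (hM 0), fun z => by rw [← Real.norm_eq_abs]; exact hM z⟩

private theorem mgd_g2 (g : ℂ → ℝ) (z : ℂ) :
    ∑ i, (fderiv ℝ g z (lat 1 (st i))) ^ 2 = 3 * gsq g z := by
  obtain ⟨s1, s2, s3, s4, s5⟩ := mgc_sums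
  have : ∀ i, (fderiv ℝ g z (lat 1 (st i))) ^ 2 =
      (lat 1 (st i)).re ^ 2 * (fderiv ℝ g z 1) ^ 2 +
      (lat 1 (st i)).re * (lat 1 (st i)).im * (2 * fderiv ℝ g z 1 * fderiv ℝ g z Complex.I) +
      (lat 1 (st i)).im ^ 2 * (fderiv ℝ g z Complex.I) ^ 2 := by
    intro i
    rw [mgc_lin (fderiv ℝ g z) (lat 1 (st i))]
    ring
  simp only [this]
  rw [Finset.sum_add_distrib, Finset.sum_add_distrib, ← Finset.sum_mul, ← Finset.sum_mul,
    ← Finset.sum_mul, s3, s4, s5]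
  unfold gsq
  ring

theorem EG_lim {g : ℂ → ℝ} (hg : ContDiff ℝ ∞ g) (hc : HasCompactSupport g) {U : Set ℂ}
    (hU : IsOpen U) (hs : tsupport g ⊆ U) {ε : ℝ} (hε : 0 < ε) :
    ∃ δ₀ : ℝ, 0 < δ₀ ∧ ∀ δ : ℝ, 0 < δ → δ < δ₀ → ∀ D : Finset (ℤ × ℤ),
      (∀ x, lat δ x ∈ U → x ∈ D) →
        |EG D (fun x => g (lat δ x)) - Real.sqrt 3 * dirE g| ≤ ε := by
  obtain ⟨R, hR1, hR⟩ := mgb_rad hc
  obtain ⟨C, hC, hcard⟩ := card_lat
  obtain ⟨M, hM0, hM⟩ : ∃ M : ℝ, 0 ≤ M ∧ ∀ i z, |fderiv ℝ g z (lat 1 (st i))| ≤ M := by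
    have h1 := fun i : Fin 6 => mgd_bd (sm_fd hg (lat 1 (st i))).continuous (cs_fd hc _)
    choose M hM0 hM using h1
    refine ⟨∑ i, M i, Finset.sum_nonneg fun i _ => hM0 i, fun i z => (hM i z).trans ?_⟩
    exact Finset.single_le_sum (fun j _ => hM0 j) (Finset.mem_univ i)
  obtain ⟨θ, hθ0, hθ1, hθ⟩ : ∃ θ : ℝ, 0 < θ ∧ θ ≤ 1 ∧
      3 * C * (R + 1) ^ 2 * (θ * (2 * M + 1)) ≤ ε / 2 := by
    have hq : 0 < 3 * C * (R + 1) ^ 2 * (2 * M + 1) := by positivity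
    refine ⟨min 1 (ε / 2 / (3 * C * (R + 1) ^ 2 * (2 * M + 1))), lt_min one_pos (by positivity),
      min_le_left _ _, ?_⟩
    calc 3 * C * (R + 1) ^ 2 * (min 1 (ε / 2 / (3 * C * (R + 1) ^ 2 * (2 * M + 1))) * (2 * M + 1))
        = min 1 (ε / 2 / (3 * C * (R + 1) ^ 2 * (2 * M + 1))) *
          (3 * C * (R + 1) ^ 2 * (2 * M + 1)) := by ring
      _ ≤ ε / 2 / (3 * C * (R + 1) ^ 2 * (2 * M + 1)) * (3 * C * (R + 1) ^ 2 * (2 * M + 1)) :=
          mul_le_mul_of_nonneg_right (min_le_right _ _) hq.le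
      _ = ε / 2 := div_mul_cancel₀ _ hq.ne'
  obtain ⟨r, hr, H⟩ := mgc_min
    (P := fun i r => ∀ z w : ℂ, ‖z - w‖ < r →
      |fderiv ℝ g z (lat 1 (st i)) - fderiv ℝ g w (lat 1 (st i))| < θ)
    (fun i r r' h hr z w hz => h z w (hz.trans_le hr))
    (fun i => mgb_uc (sm_fd hg _).continuous (cs_fd hc _) hθ0)
  obtain ⟨δ₁, hδ₁, hrie⟩ := riemann (sm_gsq hg).continuous
    (hc.mono' ((subset_tsupport _).trans (tsupport_gsq g)))
    (show 0 < ε / 4 by positivity)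
  refine ⟨min (min 1 r) δ₁, lt_min (lt_min one_pos hr) hδ₁, fun δ hδ hδ' D hD => ?_⟩
  have hδ1 : δ < 1 := hδ'.trans_le ((min_le_left _ _).trans (min_le_left _ _))
  have hδr : δ < r := hδ'.trans_le ((min_le_left _ _).trans (min_le_right _ _))
  have h1 := hrie δ hδ (hδ'.trans_le (min_le_right _ _)) D
    fun x hx => hD x (hs (tsupport_gsq g hx))
  have h2 : ∀ x, |∑ i, (g (lat δ (x + st i)) - g (lat δ x)) ^ 2 - 3 * δ ^ 2 * gsq g (lat δ x)| ≤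
      6 * δ ^ 2 * (θ * (2 * M + 1)) := by
    intro x
    obtain ⟨z, hz⟩ : ∃ z, z = lat δ x := ⟨_, rfl⟩
    have e1 : 3 * δ ^ 2 * gsq g z = ∑ i, (δ * fderiv ℝ g z (lat 1 (st i))) ^ 2 := by
      simp only [mul_pow]
      rw [← Finset.mul_sum, mgd_g2]
      ring
    simp only [mgc_st]
    rw [← hz, e1, ← Finset.sum_sub_distrib]
    refine (Finset.abs_sum_le_sum_abs _ _).trans ?_
    have h3 : ∀ i ∈ (Finset.univ : Finset (Fin 6)), |(g (z + δ • lat 1 (st i)) - g z) ^ 2 -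
        (δ * fderiv ℝ g z (lat 1 (st i))) ^ 2| ≤ δ ^ 2 * (θ * (2 * M + 1)) := by
      intro i _
      have h4 := mgd_tay hg (lat 1 (st i)) z (θ := θ) hδ.le fun t ht => (H i _ _ (by
        rw [add_sub_cancel_left, norm_smul, norm_st zero_le_one, mul_one, Real.norm_eq_abs,
          abs_of_nonneg ht.1]
        exact ht.2.trans_lt hδr)).le
      obtain ⟨p, hp⟩ : ∃ p, p = g (z + δ • lat 1 (st i)) - g z := ⟨_, rfl⟩
      obtain ⟨q, hq⟩ : ∃ q, q = δ * fderiv ℝ g z (lat 1 (st i)) := ⟨_, rfl⟩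
      have h5 : |q| ≤ δ * M := by
        rw [hq, abs_mul, abs_of_pos hδ]
        exact mul_le_mul_of_nonneg_left (hM i z) hδ.le
      rw [← hp, ← hq] at h4 ⊢
      have h6 : |p + q| ≤ θ * δ + 2 * (δ * M) := by
        calc |p + q| = |(p - q) + 2 * q| := by
              congr 1
              ring
          _ ≤ |p - q| + |2 * q| := abs_add_le _ _
          _ ≤ _ := by
              rw [abs_mul, abs_of_pos (two_pos : (0 : ℝ) < 2)]
              linarith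
      calc |p ^ 2 - q ^ 2| = |p - q| * |p + q| := by
            rw [← abs_mul]
            congr 1
            ring
        _ ≤ (θ * δ) * (θ * δ + 2 * (δ * M)) :=
            mul_le_mul h4 h6 (abs_nonneg _) (by positivity)
        _ = δ ^ 2 * (θ * (2 * M + θ)) := by ring
        _ ≤ _ := by gcongr
    refine (Finset.sum_le_sum h3).trans ?_
    rw [Finset.sum_const, Finset.card_univ, Fintype.card_fin, nsmul_eq_mul]
    push_cast
    linarith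
  have hz0 : ∀ z, R < ‖z‖ → g z = 0 := fun z hz => image_eq_zero_of_notMem_tsupport fun h =>
    absurd (hR z h) (not_le.2 hz)
  have hz1 : ∀ z, R < ‖z‖ → gsq g z = 0 := fun z hz => image_eq_zero_of_notMem_tsupport fun h =>
    absurd (hR z (tsupport_gsq g h)) (not_le.2 hz)
  have h3 : ∀ x, R + 1 < ‖lat δ x‖ →
      ∑ i, (g (lat δ (x + st i)) - g (lat δ x)) ^ 2 - 3 * δ ^ 2 * gsq g (lat δ x) = 0 := by
    intro x hx
    rw [hz1 _ (by linarith), hz0 (lat δ x) (by linarith)]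
    have : ∀ i, g (lat δ (x + st i)) = 0 := by
      intro i
      refine hz0 _ ?_
      rw [lat_add]
      have e1 := norm_st hδ.le i
      have e2 : ‖lat δ x‖ ≤ ‖lat δ x + lat δ (st i)‖ + ‖lat δ (st i)‖ := by
        calc ‖lat δ x‖ = ‖(lat δ x + lat δ (st i)) - lat δ (st i)‖ := by rw [add_sub_cancel_right]
          _ ≤ _ := norm_sub_le _ _
      linarith
    simp [this]
  have h4 : |∑ x ∈ D, (∑ i, (g (lat δ (x + st i)) - g (lat δ x)) ^ 2 -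
      3 * δ ^ 2 * gsq g (lat δ x))| ≤ ε := by
    classical
    have e1 : ∑ x ∈ D, (∑ i, (g (lat δ (x + st i)) - g (lat δ x)) ^ 2 -
        3 * δ ^ 2 * gsq g (lat δ x)) = ∑ x ∈ D.filter (fun x => ‖lat δ x‖ ≤ R + 1),
        (∑ i, (g (lat δ (x + st i)) - g (lat δ x)) ^ 2 - 3 * δ ^ 2 * gsq g (lat δ x)) := by
      refine (Finset.sum_subset (Finset.filter_subset _ _) fun x hx hx' => h3 x ?_).symm
      rw [Finset.mem_filter, not_and, not_le] at hx'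
      exact hx' hx
    rw [e1]
    refine (Finset.abs_sum_le_sum_abs _ _).trans ((Finset.sum_le_sum fun x _ => h2 x).trans ?_)
    rw [Finset.sum_const, nsmul_eq_mul]
    have h6 := hcard δ (R + 1) hδ (by linarith) (D.filter (fun x => ‖lat δ x‖ ≤ R + 1))
      fun x hx => (Finset.mem_filter.1 hx).2
    have h8 : ((D.filter (fun x => ‖lat δ x‖ ≤ R + 1)).card : ℝ) * δ ^ 2 ≤ C * (R + 1) ^ 2 := by
      calc ((D.filter (fun x => ‖lat δ x‖ ≤ R + 1)).card : ℝ) * δ ^ 2 ≤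
            C * ((R + 1) / δ) ^ 2 * δ ^ 2 :=
            mul_le_mul_of_nonneg_right h6 (sq_nonneg _)
        _ = C * (R + 1) ^ 2 := by field_simp
    have h9 : 0 ≤ 6 * (θ * (2 * M + 1)) := by positivity
    calc ((D.filter (fun x => ‖lat δ x‖ ≤ R + 1)).card : ℝ) * (6 * δ ^ 2 * (θ * (2 * M + 1)))
        = ((D.filter (fun x => ‖lat δ x‖ ≤ R + 1)).card * δ ^ 2) * (6 * (θ * (2 * M + 1))) := by
          ring
      _ ≤ C * (R + 1) ^ 2 * (6 * (θ * (2 * M + 1))) := mul_le_mul_of_nonneg_right h8 h9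
      _ = 2 * (3 * C * (R + 1) ^ 2 * (θ * (2 * M + 1))) := by ring
      _ ≤ ε := by linarith
  have h5 : EG D (fun x => g (lat δ x)) - Real.sqrt 3 * dirE g =
      1 / 2 * (∑ x ∈ D, (∑ i, (g (lat δ (x + st i)) - g (lat δ x)) ^ 2 -
        3 * δ ^ 2 * gsq g (lat δ x))) +
      Real.sqrt 3 * (Real.sqrt 3 / 2 * δ ^ 2 * (∑ x ∈ D, gsq g (lat δ x)) - ∫ z, gsq g z) := by
    rw [Finset.sum_sub_distrib, ← Finset.mul_sum]
    unfold EG dirE
    linear_combination (- (1 / 2) * δ ^ 2 * (∑ x ∈ D, gsq g (lat δ x))) * mgb_s9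
  have hs2 : Real.sqrt 3 ≤ 2 := by
    rw [Real.sqrt_le_left (by norm_num)]
    norm_num
  rw [h5]
  refine (abs_add_le _ _).trans ?_
  rw [abs_mul, abs_mul, abs_of_pos mgb_s3, abs_of_pos (show (0 : ℝ) < 1 / 2 by norm_num)]
  have h7 : Real.sqrt 3 * |Real.sqrt 3 / 2 * δ ^ 2 * (∑ x ∈ D, gsq g (lat δ x)) - ∫ z, gsq g z| ≤
      2 * (ε / 4) := mul_le_mul hs2 h1 (abs_nonneg _) (by norm_num)
  linarith

/- END mgd -/

/- MODULE mge
A smooth partition of unity on the lattice of mesh 1: `β` a smooth bump, `= 1` on the ball of radius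
`3/5`, `= 0` off the ball of radius `7/10`; `κ(z) = β(z) / ∑_x β(z - lat 1 x)` (`cover_lat`: the sum is
`≥ 1`; it is locally finite, smooth, periodic); `∫ κ = ` area of a cell (`cell_tile`, sum over the
translates of the cell). -/
private def mge_B : ContDiffBump (0 : ℂ) := ⟨3 / 5, 7 / 10, by norm_num, by norm_num⟩

private theorem mge_one {w : ℂ} (h : ‖w‖ < 3 / 5) : mge_B w = 1 :=
  mge_B.one_of_mem_closedBall (by
    rw [mem_closedBall_zero_iff]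
    exact h.le)

private theorem mge_zero {w : ℂ} (h : 7 / 10 ≤ ‖w‖) : mge_B w = 0 :=
  mge_B.zero_of_le_dist (by
    rw [dist_zero_right]
    exact h)

private theorem mge_nn (w : ℂ) : 0 ≤ mge_B w := mge_B.nonneg

private theorem mge_sum {f : ℤ × ℤ → ℝ} {A B : Finset (ℤ × ℤ)} (hA : ∀ x, f x ≠ 0 → x ∈ A)
    (hB : ∀ x, f x ≠ 0 → x ∈ B) : ∑ x ∈ A, f x = ∑ x ∈ B, f x := by
  classical
  have e1 : ∑ x ∈ A, f x = ∑ x ∈ A ∩ B, f x := by
    refine (Finset.sum_subset Finset.inter_subset_left fun x hx hx' => ?_).symm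
    by_contra h
    exact hx' (Finset.mem_inter.2 ⟨hx, hB x h⟩)
  have e2 : ∑ x ∈ B, f x = ∑ x ∈ A ∩ B, f x := by
    refine (Finset.sum_subset Finset.inter_subset_right fun x hx hx' => ?_).symm
    by_contra h
    exact hx' (Finset.mem_inter.2 ⟨hA x h, hx⟩)
  rw [e1, e2]

private theorem mge_T (r : ℝ) : ∃ T : Finset (ℤ × ℤ), ∀ x, x ∈ T ↔ ‖lat 1 x‖ ≤ r :=
  ⟨(mgb_fin one_pos r).toFinset, fun x => by simp⟩

private theorem mge_tri {z : ℂ} {x : ℤ × ℤ} {a b : ℝ} (h : ‖z - lat 1 x‖ ≤ a) (hz : ‖z‖ ≤ b) :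
    ‖lat 1 x‖ ≤ a + b := by
  calc ‖lat 1 x‖ = ‖z - (z - lat 1 x)‖ := by rw [sub_sub_cancel]
    _ ≤ ‖z‖ + ‖z - lat 1 x‖ := norm_sub_le _ _
    _ ≤ _ := by linarith

private theorem mge_lt {z : ℂ} {x : ℤ × ℤ} (h : mge_B (z - lat 1 x) ≠ 0) :
    ‖z - lat 1 x‖ ≤ 7 / 10 := by
  by_contra hc
  exact h (mge_zero (not_le.1 hc).le)

theorem exists_kappa : ∃ κ : ℂ → ℝ, ContDiff ℝ ∞ κ ∧ (∀ z, 0 ≤ κ z) ∧
    (∀ z, 7 / 10 < ‖z‖ → κ z = 0) ∧
    (∀ (z : ℂ) (S : Finset (ℤ × ℤ)), (∀ x, κ (z - lat 1 x) ≠ 0 → x ∈ S) →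
      ∑ x ∈ S, κ (z - lat 1 x) = 1) ∧
    ∫ z, κ z = Real.sqrt 3 / 2 := by
  obtain ⟨S1, hS1⟩ := mge_T 2
  obtain ⟨Dn, hDn⟩ : ∃ Dn : ℂ → ℝ, ∀ w, Dn w = ∑ y ∈ S1, mge_B (w - lat 1 y) := ⟨_, fun _ => rfl⟩
  have hD0 : ∀ w, 0 ≤ Dn w := fun w => by
    rw [hDn]
    exact Finset.sum_nonneg fun y _ => mge_nn _
  have hD1 : ∀ w, ‖w‖ < 1 → 0 < Dn w := by
    intro w hw
    obtain ⟨x, hx⟩ := cover_lat w
    have h1 : x ∈ S1 := (hS1 x).2 (by
      have := mge_tri hx.le hw.le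
      linarith)
    rw [hDn]
    calc (0 : ℝ) < mge_B (w - lat 1 x) := by
          rw [mge_one hx]
          exact one_pos
      _ ≤ _ := Finset.single_le_sum (f := fun y => mge_B (w - lat 1 y)) (fun y _ => mge_nn _) h1
  obtain ⟨κ, hκ⟩ : ∃ κ : ℂ → ℝ, ∀ w, κ w = mge_B w / Dn w := ⟨_, fun _ => rfl⟩
  have hκz : ∀ z, 7 / 10 ≤ ‖z‖ → κ z = 0 := fun z hz => by rw [hκ, mge_zero hz, zero_div]
  have hsm : ContDiff ℝ ∞ κ := by
    have e : κ = fun w => mge_B w / Dn w := funext hκ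
    have eD : Dn = fun w => ∑ y ∈ S1, mge_B (w - lat 1 y) := funext hDn
    have hDs : ContDiff ℝ ∞ Dn := by
      rw [eD]
      exact ContDiff.sum fun y _ => mge_B.contDiff.comp (contDiff_id.sub contDiff_const)
    rw [contDiff_iff_contDiffAt]
    intro w
    rcases lt_or_ge ‖w‖ 1 with hw | hw
    · rw [e]
      exact ContDiffAt.div mge_B.contDiff.contDiffAt hDs.contDiffAt (hD1 w hw).ne'
    · refine (contDiffAt_const (c := (0 : ℝ))).congr_of_eventuallyEq ?_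
      have h1 : {u : ℂ | 7 / 10 < ‖u‖} ∈ 𝓝 w :=
        (isOpen_lt continuous_const continuous_norm).mem_nhds (by
          show 7 / 10 < ‖w‖
          linarith)
      filter_upwards [h1] with u hu
      exact hκz u (le_of_lt hu)
  have hnn : ∀ z, 0 ≤ κ z := fun z => by
    rw [hκ]
    exact div_nonneg (mge_nn z) (hD0 z)
  have hsum : ∀ (z : ℂ) (S : Finset (ℤ × ℤ)), (∀ x, κ (z - lat 1 x) ≠ 0 → x ∈ S) →
      ∑ x ∈ S, κ (z - lat 1 x) = 1 := by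
    intro z S hS
    obtain ⟨T, hT⟩ := mge_T (7 / 10 + ‖z‖)
    have hTm : ∀ x, mge_B (z - lat 1 x) ≠ 0 → x ∈ T := fun x hx =>
      (hT x).2 (mge_tri (mge_lt hx) le_rfl)
    obtain ⟨Sg, hSg⟩ : ∃ Sg, Sg = ∑ x ∈ T, mge_B (z - lat 1 x) := ⟨_, rfl⟩
    have hpos : 0 < Sg := by
      obtain ⟨x, hx⟩ := cover_lat z
      rw [hSg]
      calc (0 : ℝ) < mge_B (z - lat 1 x) := by
            rw [mge_one hx]
            exact one_pos
        _ ≤ _ := Finset.single_le_sum (f := fun y => mge_B (z - lat 1 y)) (fun y _ => mge_nn _)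
            (hTm x (by
              rw [mge_one hx]
              exact one_ne_zero))
    have h1 : ∀ x, κ (z - lat 1 x) = mge_B (z - lat 1 x) / Sg := by
      intro x
      rw [hκ]
      by_cases hx : mge_B (z - lat 1 x) = 0
      · rw [hx, zero_div, zero_div]
      · congr 1
        have h2 : ∀ y, mge_B (z - lat 1 x - lat 1 y) = mge_B (z - lat 1 (x + y)) := by
          intro y
          rw [lat_add, sub_sub]
        rw [hDn, hSg]
        simp only [h2]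
        have h3 : ∑ y ∈ S1, mge_B (z - lat 1 (x + y)) =
            ∑ u ∈ S1.image (fun y => x + y), mge_B (z - lat 1 u) := by
          rw [Finset.sum_image]
          intro a _ b _ hab
          exact add_left_cancel hab
        rw [h3]
        refine mge_sum (fun u hu => ?_) hTm
        refine Finset.mem_image.2 ⟨u - x, (hS1 _).2 ?_, by rw [add_sub_cancel]⟩
        rw [mga_sub]
        have h4 := mge_lt hu
        have h5 := mge_lt hx
        calc ‖lat 1 u - lat 1 x‖ = ‖(z - lat 1 x) - (z - lat 1 u)‖ := by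
              congr 1
              ring
          _ ≤ ‖z - lat 1 x‖ + ‖z - lat 1 u‖ := norm_sub_le _ _
          _ ≤ _ := by linarith
    simp only [h1]
    rw [← Finset.sum_div]
    have h2 : ∑ x ∈ S, mge_B (z - lat 1 x) = Sg := by
      rw [hSg]
      refine mge_sum (fun x hx => hS x ?_) hTm
      rw [h1]
      exact div_ne_zero hx hpos.ne'
    rw [h2, div_self hpos.ne']
  refine ⟨κ, hsm, hnn, fun z hz => hκz z hz.le, hsum, ?_⟩
  have hcs : HasCompactSupport κ := by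
    refine HasCompactSupport.intro (isCompact_closedBall (0 : ℂ) 1) fun z hz => hκz z ?_
    rw [mem_closedBall_zero_iff, not_le] at hz
    linarith
  have hint : Integrable κ := hsm.continuous.integrable_of_hasCompactSupport hcs
  obtain ⟨T, hT⟩ := mge_T 3
  have h1 := mgb_dec (δ := 1) hint T fun x hx z hz => by
    by_contra hc
    have h2 : ‖z‖ ≤ 7 / 10 := by
      by_contra h3
      exact hc (hκz z (not_le.1 h3).le)
    refine hx ((hT x).2 ?_)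
    have h3 := mge_tri (mgb_near one_pos hz) h2
    linarith
  have h2 : ∀ x, ∫ z in mgb_cell 1 x, κ z = ∫ z in mgb_cell 1 0, κ (z + lat 1 x) := by
    intro x
    have h3 := (measurePreserving_add_right (volume : Measure ℂ) (lat 1 x)).setIntegral_preimage_emb
      (measurableEmbedding_addRight (lat 1 x)) κ (mgb_cell 1 x)
    rw [← h3]
    have h4 : (fun z : ℂ => z + lat 1 x) ⁻¹' mgb_cell 1 x = mgb_cell 1 0 := by
      ext z
      have := mgb_tr one_pos z x 0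
      rw [zero_add] at this
      exact this
    rw [h4]
  rw [h1, Finset.sum_congr rfl fun x _ => h2 x, ← integral_finsetSum T fun x _ =>
    (hint.comp_add_right (lat 1 x)).integrableOn]
  have h3 : ∫ z in mgb_cell 1 0, ∑ x ∈ T, κ (z + lat 1 x) = ∫ z in mgb_cell 1 0, (1 : ℝ) := by
    refine setIntegral_congr_fun (mgb_meas 1 0) fun z hz => ?_
    have h4 : ‖z‖ ≤ 2 := by
      have := mgb_near one_pos hz
      have e0 : lat 1 0 = 0 := by
        unfold lat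
        simp
      rw [e0, sub_zero] at this
      linarith
    have h5 := hsum z (T.image (fun x => -x)) fun x hx => by
      have h6 : ‖z - lat 1 x‖ ≤ 7 / 10 := by
        by_contra h7
        exact hx (hκz _ (not_le.1 h7).le)
      refine Finset.mem_image.2 ⟨-x, (hT _).2 ?_, neg_neg x⟩
      have e1 : lat 1 (-x) = - lat 1 x := by
        rw [← zero_sub x, mga_sub]
        have e0 : lat 1 0 = 0 := by
          unfold lat
          simp
        rw [e0, zero_sub]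
      rw [e1, norm_neg]
      have := mge_tri h6 h4
      linarith
    rw [Finset.sum_image (fun a _ b _ hab => neg_injective hab)] at h5
    show ∑ x ∈ T, κ (z + lat 1 x) = 1
    refine Eq.trans ?_ h5
    refine Finset.sum_congr rfl fun x _ => ?_
    have e1 : lat 1 (-x) = - lat 1 x := by
      rw [← zero_sub x, mga_sub]
      have e0 : lat 1 0 = 0 := by
        unfold lat
        simp
      rw [e0, zero_sub]
    rw [e1, sub_neg_eq_add]
  rw [h3, setIntegral_const, mgb_vol one_pos, smul_eq_mul]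
  ring

/- END mge -/

/- MODULE mgf
Interpolation `g(z) = ∑_{x ∈ D} v_x κ(z/δ - lat 1 x)` of a function `v` on the lattice vanishing off `D`.
Where `κ(z/δ - lat 1 x) ≠ 0 ≠ κ(z/δ - lat 1 y)` the points `x`, `y` are equal or neighbours
(`near_lat`, `7/5 < 3/2`), so with `x₀` one of these points
`∇g(z) = δ⁻¹ ∑_x (v_x - v_{x₀}) ∇κ(z/δ - lat 1 x)` (`∑ ∇κ = 0`). -/
private theorem mgf_cs {κ : ℂ → ℝ} (h3 : ∀ z, 7 / 10 < ‖z‖ → κ z = 0) : HasCompactSupport κ := by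
  refine HasCompactSupport.intro (isCompact_closedBall (0 : ℂ) (7 / 10)) fun z hz => h3 z ?_
  rw [mem_closedBall_zero_iff, not_le] at hz
  exact hz

private theorem mgf_ts {κ : ℂ → ℝ} (h3 : ∀ z, 7 / 10 < ‖z‖ → κ z = 0) {z : ℂ}
    (hz : z ∈ tsupport κ) : ‖z‖ ≤ 7 / 10 := by
  have h1 : tsupport κ ⊆ Metric.closedBall (0 : ℂ) (7 / 10) := by
    refine closure_minimal (fun w hw => ?_) Metric.isClosed_closedBall
    rw [mem_closedBall_zero_iff]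
    by_contra hc
    exact hw (h3 w (not_le.1 hc))
  exact mem_closedBall_zero_iff.1 (h1 hz)

private theorem mgf_fd {κ : ℂ → ℝ} (h3 : ∀ z, 7 / 10 < ‖z‖ → κ z = 0) {w v : ℂ}
    (h : fderiv ℝ κ w v ≠ 0) : ‖w‖ ≤ 7 / 10 := by
  refine mgf_ts h3 (tsupport_fd κ v (subset_tsupport _ ?_))
  exact h

private theorem mgf_hd {κ : ℂ → ℝ} (h1 : ContDiff ℝ ∞ κ) (δ : ℝ) (c z : ℂ) (v : ℂ) :
    fderiv ℝ (fun z : ℂ => κ ((δ : ℂ)⁻¹ * z - c)) z v =
      δ⁻¹ * fderiv ℝ κ ((δ : ℂ)⁻¹ * z - c) v := by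
  have e1 : (fun z : ℂ => (δ : ℂ)⁻¹ * z - c) = fun z : ℂ => δ⁻¹ • z - c := by
    funext z
    rw [Complex.real_smul, Complex.ofReal_inv]
  have h2 : HasFDerivAt (fun z : ℂ => (δ : ℂ)⁻¹ * z - c) (δ⁻¹ • ContinuousLinearMap.id ℝ ℂ) z := by
    rw [e1]
    exact ((hasFDerivAt_id z).const_smul δ⁻¹).sub_const c
  have h3 : HasFDerivAt κ (fderiv ℝ κ ((δ : ℂ)⁻¹ * z - c)) ((δ : ℂ)⁻¹ * z - c) :=
    ((h1.differentiable (by simp)) _).hasFDerivAt
  have h4 := h3.comp z h2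
  rw [show (fun z : ℂ => κ ((δ : ℂ)⁻¹ * z - c)) = κ ∘ fun z : ℂ => (δ : ℂ)⁻¹ * z - c from rfl,
    h4.fderiv, ContinuousLinearMap.comp_apply, _root_.smul_apply, ContinuousLinearMap.id_apply,
    map_smul, smul_eq_mul]

private theorem mgf_sm {κ : ℂ → ℝ} (h1 : ContDiff ℝ ∞ κ) (δ : ℝ) (c : ℂ) :
    ContDiff ℝ ∞ (fun z : ℂ => κ ((δ : ℂ)⁻¹ * z - c)) :=
  h1.comp ((contDiff_const.mul contDiff_id).sub contDiff_const)

private theorem mgf_gsm {κ : ℂ → ℝ} (h1 : ContDiff ℝ ∞ κ) (δ : ℝ) (D : Finset (ℤ × ℤ))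
    (v : ℤ × ℤ → ℝ) :
    ContDiff ℝ ∞ (fun z : ℂ => ∑ x ∈ D, v x * κ ((δ : ℂ)⁻¹ * z - lat 1 x)) :=
  ContDiff.sum fun x _ => contDiff_const.mul (mgf_sm h1 δ _)

private theorem mgf_gfd {κ : ℂ → ℝ} (h1 : ContDiff ℝ ∞ κ) (δ : ℝ) (D : Finset (ℤ × ℤ))
    (v : ℤ × ℤ → ℝ) (z e : ℂ) :
    fderiv ℝ (fun z : ℂ => ∑ x ∈ D, v x * κ ((δ : ℂ)⁻¹ * z - lat 1 x)) z e =
      δ⁻¹ * ∑ x ∈ D, v x * fderiv ℝ κ ((δ : ℂ)⁻¹ * z - lat 1 x) e := by
  have h2 : HasFDerivAt (fun z : ℂ => ∑ x ∈ D, v x * κ ((δ : ℂ)⁻¹ * z - lat 1 x))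
      (∑ x ∈ D, v x • fderiv ℝ (fun z : ℂ => κ ((δ : ℂ)⁻¹ * z - lat 1 x)) z) z :=
    HasFDerivAt.fun_sum fun x _ =>
      (((mgf_sm h1 δ (lat 1 x)).differentiable (by simp)) z).hasFDerivAt.const_mul (v x)
  rw [h2.fderiv, _root_.sum_apply, Finset.mul_sum]
  refine Finset.sum_congr rfl fun x _ => ?_
  rw [_root_.smul_apply, smul_eq_mul, mgf_hd h1]
  ring

private theorem mgf_sc {δ : ℝ} (hδ : 0 < δ) (z : ℂ) (x : ℤ × ℤ) :
    ‖z - lat δ x‖ = δ * ‖(δ : ℂ)⁻¹ * z - lat 1 x‖ := by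
  have h1 : z - lat δ x = (δ : ℂ) * ((δ : ℂ)⁻¹ * z - lat 1 x) := by
    have h2 : (δ : ℂ) ≠ 0 := by exact_mod_cast hδ.ne'
    rw [mul_sub, ← lat_mul, mul_inv_cancel_left₀ h2]
  rw [h1, norm_mul, Complex.norm_real, Real.norm_eq_abs, abs_of_pos hδ]

private theorem mgf_ts2 {κ : ℂ → ℝ} (h3 : ∀ z, 7 / 10 < ‖z‖ → κ z = 0) {δ : ℝ} (hδ : 0 < δ)
    (D : Finset (ℤ × ℤ)) (v : ℤ × ℤ → ℝ) :
    ∀ z ∈ tsupport (fun z : ℂ => ∑ x ∈ D, v x * κ ((δ : ℂ)⁻¹ * z - lat 1 x)),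
        ∃ x ∈ D, ‖z - lat δ x‖ ≤ 7 / 10 * δ := by
  have h1 : tsupport (fun z : ℂ => ∑ x ∈ D, v x * κ ((δ : ℂ)⁻¹ * z - lat 1 x)) ⊆
      ⋃ x ∈ D, Metric.closedBall (lat δ x) (7 / 10 * δ) := by
    refine closure_minimal (fun w hw => ?_) (D.finite_toSet.isClosed_biUnion
      fun x _ => Metric.isClosed_closedBall)
    obtain ⟨x, hx, hx'⟩ := Finset.exists_ne_zero_of_sum_ne_zero hw
    refine mem_iUnion₂.2 ⟨x, hx, ?_⟩
    rw [Metric.mem_closedBall, dist_eq_norm, mgf_sc hδ]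
    have h4 : ‖(δ : ℂ)⁻¹ * w - lat 1 x‖ ≤ 7 / 10 := by
      by_contra hc
      exact hx' (by rw [h3 _ (not_le.1 hc), mul_zero])
    calc δ * ‖(δ : ℂ)⁻¹ * w - lat 1 x‖ ≤ δ * (7 / 10) := mul_le_mul_of_nonneg_left h4 hδ.le
      _ = _ := mul_comm _ _
  intro z hz
  obtain ⟨x, hx, hx'⟩ := mem_iUnion₂.1 (h1 hz)
  exact ⟨x, hx, by rw [← dist_eq_norm]; exact hx'⟩

private theorem mgf_stinj : Function.Injective st := by
  intro i j h
  revert i j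
  decide

private theorem mgf_zero {κ : ℂ → ℝ} (h1 : ContDiff ℝ ∞ κ) (h3 : ∀ z, 7 / 10 < ‖z‖ → κ z = 0)
    (h4 : ∀ (z : ℂ) (S : Finset (ℤ × ℤ)), (∀ x, κ (z - lat 1 x) ≠ 0 → x ∈ S) →
      ∑ x ∈ S, κ (z - lat 1 x) = 1) (w e : ℂ) (S : Finset (ℤ × ℤ))
    (hS : ∀ x, fderiv ℝ κ (w - lat 1 x) e ≠ 0 → x ∈ S) :
    ∑ x ∈ S, fderiv ℝ κ (w - lat 1 x) e = 0 := by
  obtain ⟨T, hT⟩ := mge_T (7 / 10 + (‖w‖ + 1))
  have h5 : ∀ u : ℂ, ‖u‖ < ‖w‖ + 1 → ∑ x ∈ T, κ (u - lat 1 x) = 1 := by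
    intro u hu
    refine h4 u T fun x hx => (hT x).2 ?_
    have h6 : ‖u - lat 1 x‖ ≤ 7 / 10 := by
      by_contra hc
      exact hx (h3 _ (not_le.1 hc))
    exact mge_tri h6 hu.le
  have h6 : ∑ x ∈ S, fderiv ℝ κ (w - lat 1 x) e = ∑ x ∈ T, fderiv ℝ κ (w - lat 1 x) e := by
    refine mge_sum hS fun x hx => (hT x).2 ?_
    have := mge_tri (mgf_fd h3 hx) (le_refl ‖w‖)
    linarith
  have h7 : HasFDerivAt (fun u : ℂ => ∑ x ∈ T, κ (u - lat 1 x))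
      (∑ x ∈ T, fderiv ℝ κ (w - lat 1 x)) w := by
    refine HasFDerivAt.fun_sum fun x _ => ?_
    have h8 : HasFDerivAt κ (fderiv ℝ κ (w - lat 1 x)) (w - lat 1 x) :=
      ((h1.differentiable (by simp)) _).hasFDerivAt
    have h9 := h8.comp w ((hasFDerivAt_id w).sub_const (lat 1 x))
    rw [ContinuousLinearMap.comp_id] at h9
    exact h9
  have h8 : HasFDerivAt (fun u : ℂ => ∑ x ∈ T, κ (u - lat 1 x)) (0 : ℂ →L[ℝ] ℝ) w := by
    refine (hasFDerivAt_const (1 : ℝ) w).congr_of_eventuallyEq ?_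
    have h9 : {u : ℂ | ‖u‖ < ‖w‖ + 1} ∈ 𝓝 w :=
      (isOpen_lt continuous_norm continuous_const).mem_nhds (by
        show ‖w‖ < ‖w‖ + 1
        linarith)
    filter_upwards [h9] with u hu
    exact h5 u hu
  have h9 := h7.unique h8
  rw [h6, ← _root_.sum_apply, h9]
  rfl

private theorem mgf_pt {κ : ℂ → ℝ} (h1 : ContDiff ℝ ∞ κ) (h3 : ∀ z, 7 / 10 < ‖z‖ → κ z = 0)
    (h4 : ∀ (z : ℂ) (S : Finset (ℤ × ℤ)), (∀ x, κ (z - lat 1 x) ≠ 0 → x ∈ S) →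
      ∑ x ∈ S, κ (z - lat 1 x) = 1) {M : ℝ} (e : ℂ) (hM : ∀ w, |fderiv ℝ κ w e| ≤ M)
    (D : Finset (ℤ × ℤ)) (v : ℤ × ℤ → ℝ) (hv : ∀ z, z ∉ D → v z = 0) (w : ℂ) (x₀ : ℤ × ℤ)
    (hx₀ : ‖w - lat 1 x₀‖ < 3 / 5) :
    (∑ x ∈ D, v x * fderiv ℝ κ (w - lat 1 x) e) ^ 2 ≤
      6 * M ^ 2 * ∑ i, (v x₀ - v (x₀ + st i)) ^ 2 := by
  classical
  obtain ⟨T, hT⟩ := mge_T (7 / 10 + ‖w‖)
  have hTm : ∀ x, fderiv ℝ κ (w - lat 1 x) e ≠ 0 → x ∈ T := fun x hx =>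
    (hT x).2 (mge_tri (mgf_fd h3 hx) le_rfl)
  have hM0 : 0 ≤ M := (abs_nonneg _).trans (hM 0)
  have e1 : ∑ x ∈ D, v x * fderiv ℝ κ (w - lat 1 x) e =
      ∑ x ∈ T, v x * fderiv ℝ κ (w - lat 1 x) e := by
    refine mge_sum (f := fun x => v x * fderiv ℝ κ (w - lat 1 x) e) (fun x hx => ?_)
      fun x hx => hTm x (right_ne_zero_of_mul hx)
    by_contra hc
    exact left_ne_zero_of_mul hx (hv x hc)
  have e2 : ∑ x ∈ T, v x * fderiv ℝ κ (w - lat 1 x) e =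
      ∑ x ∈ T, (v x - v x₀) * fderiv ℝ κ (w - lat 1 x) e := by
    simp only [sub_mul]
    rw [Finset.sum_sub_distrib, ← Finset.mul_sum, mgf_zero h1 h3 h4 w e T hTm, mul_zero, sub_zero]
  have h5 : |∑ x ∈ T, (v x - v x₀) * fderiv ℝ κ (w - lat 1 x) e| ≤
      M * ∑ i, |v x₀ - v (x₀ + st i)| := by
    refine (Finset.abs_sum_le_sum_abs _ _).trans ?_
    have e3 : ∑ x ∈ T, |(v x - v x₀) * fderiv ℝ κ (w - lat 1 x) e| =
        ∑ x ∈ T.filter (fun x => ∃ i, x = x₀ + st i),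
          |(v x - v x₀) * fderiv ℝ κ (w - lat 1 x) e| := by
      refine (Finset.sum_subset (Finset.filter_subset _ _) fun x hx hx' => ?_).symm
      by_contra hc
      have h6 : fderiv ℝ κ (w - lat 1 x) e ≠ 0 := fun h => hc (by rw [h, mul_zero, abs_zero])
      have h7 := mgf_fd h3 h6
      have h8 : ‖lat 1 x₀ - lat 1 x‖ < 3 / 2 := by
        calc ‖lat 1 x₀ - lat 1 x‖ = ‖(w - lat 1 x) - (w - lat 1 x₀)‖ := by
              congr 1
              ring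
          _ ≤ ‖w - lat 1 x‖ + ‖w - lat 1 x₀‖ := norm_sub_le _ _
          _ < _ := by linarith
      rcases near_lat h8 with h9 | h9
      · exact hc (by rw [h9, sub_self, zero_mul, abs_zero])
      · exact hx' (Finset.mem_filter.2 ⟨hx, h9⟩)
    rw [e3]
    have hsub : T.filter (fun x => ∃ i, x = x₀ + st i) ⊆
        Finset.univ.image (fun i : Fin 6 => x₀ + st i) := by
      intro x hx
      obtain ⟨i, hi⟩ := (Finset.mem_filter.1 hx).2
      exact Finset.mem_image.2 ⟨i, Finset.mem_univ i, hi.symm⟩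
    refine (Finset.sum_le_sum_of_subset_of_nonneg hsub fun _ _ _ => abs_nonneg _).trans ?_
    rw [Finset.sum_image (fun i _ j _ hij => mgf_stinj (add_left_cancel hij)), Finset.mul_sum]
    refine Finset.sum_le_sum fun i _ => ?_
    rw [abs_mul, abs_sub_comm, mul_comm]
    exact mul_le_mul_of_nonneg_right (hM _) (abs_nonneg _)
  have h6 : (∑ i : Fin 6, |v x₀ - v (x₀ + st i)|) ^ 2 ≤
      6 * ∑ i, (v x₀ - v (x₀ + st i)) ^ 2 := by
    have h7 := sq_sum_le_card_mul_sum_sq (s := (Finset.univ : Finset (Fin 6)))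
      (f := fun i => |v x₀ - v (x₀ + st i)|)
    rw [Finset.card_univ, Fintype.card_fin] at h7
    simp only [sq_abs] at h7
    push_cast at h7
    exact h7
  rw [e1, e2, ← sq_abs]
  calc |∑ x ∈ T, (v x - v x₀) * fderiv ℝ κ (w - lat 1 x) e| ^ 2
      ≤ (M * ∑ i, |v x₀ - v (x₀ + st i)|) ^ 2 := pow_le_pow_left₀ (abs_nonneg _) h5 2
    _ = M ^ 2 * (∑ i, |v x₀ - v (x₀ + st i)|) ^ 2 := mul_pow _ _ _
    _ ≤ M ^ 2 * (6 * ∑ i, (v x₀ - v (x₀ + st i)) ^ 2) :=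
        mul_le_mul_of_nonneg_left h6 (sq_nonneg _)
    _ = _ := by ring

private theorem mgf_nb (D : Finset (ℤ × ℤ)) (v : ℤ × ℤ → ℝ) (hv : ∀ z, z ∉ D → v z = 0) :
    ∑ x ∈ nb D, ∑ i, (v x - v (x + st i)) ^ 2 ≤ 2 * ∑ x ∈ D, ∑ i, (v x - v (x + st i)) ^ 2 := by
  classical
  have h1 : ∀ x i, (v x - v (x + st i)) ^ 2 ≤ (if x ∈ D then (v x - v (x + st i)) ^ 2 else 0) +
      (if x + st i ∈ D then (v x - v (x + st i)) ^ 2 else 0) := by
    intro x i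
    have h2 := sq_nonneg (v x - v (x + st i))
    split_ifs with ha hb hb
    · linarith
    · linarith
    · linarith
    · rw [hv x ha, hv _ hb]
      norm_num
  have hD : D ⊆ nb D := Finset.subset_union_left
  have h2 : ∑ x ∈ nb D, ∑ i : Fin 6, (if x ∈ D then (v x - v (x + st i)) ^ 2 else 0) =
      ∑ x ∈ D, ∑ i, (v x - v (x + st i)) ^ 2 := by
    rw [← Finset.sum_subset hD fun x _ hx => Finset.sum_eq_zero fun i _ => if_neg hx]
    exact Finset.sum_congr rfl fun x hx => Finset.sum_congr rfl fun i _ => if_pos hx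
  have h3 : ∀ i : Fin 6, ∑ x ∈ nb D, (if x + st i ∈ D then (v x - v (x + st i)) ^ 2 else 0) ≤
      ∑ y ∈ D, (v y - v (y + st (i + 3))) ^ 2 := by
    intro i
    rw [← Finset.sum_filter]
    have e1 : ∑ x ∈ (nb D).filter (fun x => x + st i ∈ D), (v x - v (x + st i)) ^ 2 =
        ∑ y ∈ ((nb D).filter (fun x => x + st i ∈ D)).image (fun x => x + st i),
          (v y - v (y + st (i + 3))) ^ 2 := by
      rw [Finset.sum_image (fun a _ b _ hab => add_right_cancel hab)]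
      refine Finset.sum_congr rfl fun x _ => ?_
      rw [st_neg, add_neg_cancel_right]
      ring
    rw [e1]
    refine Finset.sum_le_sum_of_subset_of_nonneg (fun y hy => ?_) fun _ _ _ => sq_nonneg _
    obtain ⟨x, hx, rfl⟩ := Finset.mem_image.1 hy
    exact (Finset.mem_filter.1 hx).2
  have h4 : ∑ i : Fin 6, ∑ y ∈ D, (v y - v (y + st (i + 3))) ^ 2 =
      ∑ y ∈ D, ∑ i, (v y - v (y + st i)) ^ 2 := by
    rw [Finset.sum_comm]
    refine Finset.sum_congr rfl fun y _ => ?_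
    exact Equiv.sum_comp (Equiv.addRight (3 : Fin 6)) (fun i => (v y - v (y + st i)) ^ 2)
  calc ∑ x ∈ nb D, ∑ i, (v x - v (x + st i)) ^ 2
      ≤ ∑ x ∈ nb D, ∑ i, ((if x ∈ D then (v x - v (x + st i)) ^ 2 else 0) +
      (if x + st i ∈ D then (v x - v (x + st i)) ^ 2 else 0)) :=
        Finset.sum_le_sum fun x _ => Finset.sum_le_sum fun i _ => h1 x i
    _ = ∑ x ∈ nb D, ∑ i : Fin 6, (if x ∈ D then (v x - v (x + st i)) ^ 2 else 0) +
        ∑ i : Fin 6, ∑ x ∈ nb D, (if x + st i ∈ D then (v x - v (x + st i)) ^ 2 else 0) := by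
        rw [Finset.sum_comm (s := Finset.univ), ← Finset.sum_add_distrib]
        exact Finset.sum_congr rfl fun x _ => Finset.sum_add_distrib
    _ ≤ ∑ x ∈ D, ∑ i, (v x - v (x + st i)) ^ 2 + ∑ y ∈ D, ∑ i, (v y - v (y + st i)) ^ 2 := by
        rw [h2, ← h4]
        exact add_le_add le_rfl (Finset.sum_le_sum fun i _ => h3 i)
    _ = _ := by ring

private theorem mgf_vol (δ : ℝ) (hδ : 0 < δ) (c : ℂ) :
    volume.real (Metric.closedBall c (7 / 10 * δ)) ≤ 2 * δ ^ 2 := by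
  rw [Measure.real, Complex.volume_closedBall, ENNReal.toReal_mul, ENNReal.toReal_pow,
    ENNReal.toReal_ofReal (by positivity), ENNReal.coe_toReal, NNReal.coe_real_pi]
  have h1 := Real.pi_lt_four
  have h2 := Real.pi_pos
  nlinarith [sq_nonneg δ, mul_pos hδ hδ]

private theorem mgf_out (D : Finset (ℤ × ℤ)) (v : ℤ × ℤ → ℝ) (hv : ∀ z, z ∉ D → v z = 0)
    {x : ℤ × ℤ} (hx : x ∉ nb D) : ∑ i, (v x - v (x + st i)) ^ 2 = 0 := by
  refine Finset.sum_eq_zero fun i _ => ?_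
  have h1 : x ∉ D := fun h => hx (Finset.mem_union_left _ h)
  have h2 : x + st i ∉ D := fun h => hx (Finset.mem_union_right _ (Finset.mem_biUnion.2
    ⟨x + st i, h, Finset.mem_image.2 ⟨i + 3, Finset.mem_univ _, by
      rw [st_neg, add_neg_cancel_right]⟩⟩))
  rw [hv _ h1, hv _ h2]
  norm_num

theorem interp {κ : ℂ → ℝ} (h1 : ContDiff ℝ ∞ κ) (h2 : ∀ z, 0 ≤ κ z)
    (h3 : ∀ z, 7 / 10 < ‖z‖ → κ z = 0)
    (h4 : ∀ (z : ℂ) (S : Finset (ℤ × ℤ)), (∀ x, κ (z - lat 1 x) ≠ 0 → x ∈ S) →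
      ∑ x ∈ S, κ (z - lat 1 x) = 1)
    (h5 : ∫ z, κ z = Real.sqrt 3 / 2) :
    ∃ C : ℝ, 0 < C ∧ ∀ (δ : ℝ), 0 < δ → ∀ (D : Finset (ℤ × ℤ)) (v : ℤ × ℤ → ℝ),
      (∀ z, z ∉ D → v z = 0) →
      ContDiff ℝ ∞ (fun z : ℂ => ∑ x ∈ D, v x * κ ((δ : ℂ)⁻¹ * z - lat 1 x)) ∧
      (∀ z ∈ tsupport (fun z : ℂ => ∑ x ∈ D, v x * κ ((δ : ℂ)⁻¹ * z - lat 1 x)),
        ∃ x ∈ D, ‖z - lat δ x‖ ≤ 7 / 10 * δ) ∧
      dirE (fun z : ℂ => ∑ x ∈ D, v x * κ ((δ : ℂ)⁻¹ * z - lat 1 x)) ≤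
        C * ∑ x ∈ D, ∑ i, (v x - v (x + st i)) ^ 2 := by
  obtain ⟨M, hM0, hM1, hM2⟩ : ∃ M : ℝ, 0 ≤ M ∧ (∀ w, |fderiv ℝ κ w 1| ≤ M) ∧
      ∀ w, |fderiv ℝ κ w Complex.I| ≤ M := by
    obtain ⟨M1, h10, h11⟩ := mgd_bd (sm_fd h1 1).continuous (cs_fd (mgf_cs h3) _)
    obtain ⟨M2, h20, h21⟩ := mgd_bd (sm_fd h1 Complex.I).continuous (cs_fd (mgf_cs h3) _)
    exact ⟨M1 + M2, by positivity, fun w => (h11 w).trans (by linarith),
      fun w => (h21 w).trans (by linarith)⟩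
  refine ⟨48 * M ^ 2 + 1, by positivity, fun δ hδ D v hv =>
    ⟨mgf_gsm h1 δ D v, mgf_ts2 h3 hδ D v, ?_⟩⟩
  obtain ⟨g, hg⟩ : ∃ g : ℂ → ℝ, g = fun z : ℂ => ∑ x ∈ D, v x * κ ((δ : ℂ)⁻¹ * z - lat 1 x) :=
    ⟨_, rfl⟩
  rw [← hg]
  have hE : ∀ x, 0 ≤ ∑ i, (v x - v (x + st i)) ^ 2 := fun x =>
    Finset.sum_nonneg fun i _ => sq_nonneg _
  have hpt : ∀ z, gsq g z ≤ ∑ x ∈ nb D, (Metric.closedBall (lat δ x) (7 / 10 * δ)).indicator
      (fun _ => δ⁻¹ ^ 2 * (12 * M ^ 2 * ∑ i, (v x - v (x + st i)) ^ 2)) z := by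
    intro z
    obtain ⟨x₀, hx₀⟩ := cover_lat ((δ : ℂ)⁻¹ * z)
    have a1 := mgf_pt h1 h3 h4 1 hM1 D v hv ((δ : ℂ)⁻¹ * z) x₀ hx₀
    have a2 := mgf_pt h1 h3 h4 Complex.I hM2 D v hv ((δ : ℂ)⁻¹ * z) x₀ hx₀
    have a3 : gsq g z ≤ δ⁻¹ ^ 2 * (12 * M ^ 2 * ∑ i, (v x₀ - v (x₀ + st i)) ^ 2) := by
      unfold gsq
      rw [hg, mgf_gfd h1, mgf_gfd h1, mul_pow, mul_pow, ← mul_add]
      refine mul_le_mul_of_nonneg_left ?_ (sq_nonneg _)
      linarith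
    have a4 : ∀ x ∈ nb D, 0 ≤ (Metric.closedBall (lat δ x) (7 / 10 * δ)).indicator
      (fun _ => δ⁻¹ ^ 2 * (12 * M ^ 2 * ∑ i, (v x - v (x + st i)) ^ 2)) z := fun x _ =>
      indicator_nonneg (fun _ _ => mul_nonneg (sq_nonneg _) (mul_nonneg (by positivity) (hE x))) z
    by_cases hn : x₀ ∈ nb D
    · refine a3.trans (le_trans (le_of_eq ?_) (Finset.single_le_sum a4 hn))
      rw [indicator_of_mem]
      rw [Metric.mem_closedBall, dist_eq_norm, mgf_sc hδ]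
      have : δ * ‖(δ : ℂ)⁻¹ * z - lat 1 x₀‖ ≤ δ * (7 / 10) :=
        mul_le_mul_of_nonneg_left (by linarith) hδ.le
      linarith
    · rw [mgf_out D v hv hn, mul_zero, mul_zero] at a3
      exact a3.trans (Finset.sum_nonneg a4)
  have hint : ∀ x, Integrable ((Metric.closedBall (lat δ x) (7 / 10 * δ)).indicator
      (fun _ => δ⁻¹ ^ 2 * (12 * M ^ 2 * ∑ i, (v x - v (x + st i)) ^ 2))) := by
    intro x
    refine (integrable_indicator_iff Metric.isClosed_closedBall.measurableSet).2 ?_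
    exact integrableOn_const measure_closedBall_lt_top.ne enorm_ne_top
  unfold dirE
  calc ∫ z, gsq g z ≤ ∫ z, ∑ x ∈ nb D, (Metric.closedBall (lat δ x) (7 / 10 * δ)).indicator
          (fun _ => δ⁻¹ ^ 2 * (12 * M ^ 2 * ∑ i, (v x - v (x + st i)) ^ 2)) z := by
        refine integral_mono_of_nonneg (ae_of_all _ fun z => ?_)
          (integrable_finsetSum _ fun x _ => hint x) (ae_of_all _ hpt)
        unfold gsq
        show 0 ≤ _
        positivity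
    _ = ∑ x ∈ nb D, volume.real (Metric.closedBall (lat δ x) (7 / 10 * δ)) *
        (δ⁻¹ ^ 2 * (12 * M ^ 2 * ∑ i, (v x - v (x + st i)) ^ 2)) := by
        rw [integral_finsetSum _ fun x _ => hint x]
        refine Finset.sum_congr rfl fun x _ => ?_
        rw [integral_indicator Metric.isClosed_closedBall.measurableSet, setIntegral_const,
          smul_eq_mul]
    _ ≤ ∑ x ∈ nb D, (2 * δ ^ 2) * (δ⁻¹ ^ 2 * (12 * M ^ 2 * ∑ i, (v x - v (x + st i)) ^ 2)) := by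
        refine Finset.sum_le_sum fun x _ => mul_le_mul_of_nonneg_right (mgf_vol δ hδ _) ?_
        exact mul_nonneg (sq_nonneg _) (mul_nonneg (by positivity) (hE x))
    _ = 24 * M ^ 2 * ∑ x ∈ nb D, ∑ i, (v x - v (x + st i)) ^ 2 := by
        rw [Finset.mul_sum]
        refine Finset.sum_congr rfl fun x _ => ?_
        field_simp
        ring
    _ ≤ 24 * M ^ 2 * (2 * ∑ x ∈ D, ∑ i, (v x - v (x + st i)) ^ 2) :=
        mul_le_mul_of_nonneg_left (mgf_nb D v hv) (by positivity)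
    _ ≤ _ := by
        have : 0 ≤ ∑ x ∈ D, ∑ i, (v x - v (x + st i)) ^ 2 := Finset.sum_nonneg fun x _ => hE x
        linarith

/- END mgf -/

/- MODULE mgg
The pairing: `∫ κ(z/δ - lat 1 x) dz = √3/2 δ²`. -/
private theorem mgg_int {κ : ℂ → ℝ} (h5 : ∫ z, κ z = Real.sqrt 3 / 2) {δ : ℝ} (hδ : 0 < δ) (c : ℂ) :
    ∫ z : ℂ, κ ((δ : ℂ)⁻¹ * z - c) = Real.sqrt 3 / 2 * δ ^ 2 := by
  have h1 := Measure.integral_comp_inv_smul_of_nonneg (volume : Measure ℂ) (fun u => κ (u - c)) hδ.le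
  rw [integral_sub_right_eq_self (fun u => κ u), h5, Complex.finrank_real_complex, smul_eq_mul] at h1
  have h2 : ∀ z : ℂ, κ ((δ : ℂ)⁻¹ * z - c) = κ (δ⁻¹ • z - c) := by
    intro z
    rw [Complex.real_smul, Complex.ofReal_inv]
  simp only [h2]
  rw [h1]
  ring

private theorem mgg_cs {κ : ℂ → ℝ} (h3 : ∀ z, 7 / 10 < ‖z‖ → κ z = 0) {δ : ℝ} (hδ : 0 < δ)
    (x : ℤ × ℤ) : HasCompactSupport (fun z : ℂ => κ ((δ : ℂ)⁻¹ * z - lat 1 x)) := by
  refine HasCompactSupport.intro (isCompact_closedBall (lat δ x) δ) fun z hz => h3 _ ?_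
  rw [Metric.mem_closedBall, dist_eq_norm, not_le, mgf_sc hδ] at hz
  have : 1 < ‖(δ : ℂ)⁻¹ * z - lat 1 x‖ := by
    by_contra hc
    have := mul_le_mul_of_nonneg_left (not_lt.1 hc) hδ.le
    linarith
  linarith

theorem pair_interp {κ : ℂ → ℝ} (h1 : ContDiff ℝ ∞ κ) (h2 : ∀ z, 0 ≤ κ z)
    (h3 : ∀ z, 7 / 10 < ‖z‖ → κ z = 0) (h5 : ∫ z, κ z = Real.sqrt 3 / 2)
    {φ : ℂ → ℝ} (hφ : Continuous φ) {e δ : ℝ} (hδ : 0 < δ)
    (he : ∀ z w : ℂ, ‖z - w‖ ≤ δ → |φ z - φ w| ≤ e) (D : Finset (ℤ × ℤ)) (v : ℤ × ℤ → ℝ) :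
    |(∫ z : ℂ, φ z * ∑ x ∈ D, v x * κ ((δ : ℂ)⁻¹ * z - lat 1 x)) -
      Real.sqrt 3 / 2 * δ ^ 2 * ∑ x ∈ D, φ (lat δ x) * v x| ≤
      e * (Real.sqrt 3 / 2 * δ ^ 2 * ∑ x ∈ D, |v x|) := by
  have hc : ∀ x, Continuous (fun z : ℂ => κ ((δ : ℂ)⁻¹ * z - lat 1 x)) := fun x =>
    (mgf_sm h1 δ (lat 1 x)).continuous
  have i1 : ∀ x, Integrable (fun z : ℂ => κ ((δ : ℂ)⁻¹ * z - lat 1 x)) := fun x =>
    (hc x).integrable_of_hasCompactSupport (mgg_cs h3 hδ x)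
  have i2 : ∀ x, Integrable (fun z : ℂ => φ z * κ ((δ : ℂ)⁻¹ * z - lat 1 x)) := fun x =>
    (hφ.mul (hc x)).integrable_of_hasCompactSupport (mgg_cs h3 hδ x).mul_left
  have e1 : ∫ z : ℂ, φ z * ∑ x ∈ D, v x * κ ((δ : ℂ)⁻¹ * z - lat 1 x) =
      ∑ x ∈ D, v x * ∫ z : ℂ, φ z * κ ((δ : ℂ)⁻¹ * z - lat 1 x) := by
    rw [← Finset.sum_congr rfl fun x _ => integral_const_mul (v x) _,
      ← integral_finsetSum D fun x _ => (i2 x).const_mul (v x)]
    refine integral_congr_ae (ae_of_all _ fun z => ?_)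
    show φ z * ∑ x ∈ D, v x * κ ((δ : ℂ)⁻¹ * z - lat 1 x) =
      ∑ x ∈ D, v x * (φ z * κ ((δ : ℂ)⁻¹ * z - lat 1 x))
    rw [Finset.mul_sum]
    refine Finset.sum_congr rfl fun x _ => ?_
    ring
  have h6 : ∀ x, |(∫ z : ℂ, φ z * κ ((δ : ℂ)⁻¹ * z - lat 1 x)) -
      Real.sqrt 3 / 2 * δ ^ 2 * φ (lat δ x)| ≤ e * (Real.sqrt 3 / 2 * δ ^ 2) := by
    intro x
    have e2 : (∫ z : ℂ, φ z * κ ((δ : ℂ)⁻¹ * z - lat 1 x)) -
        Real.sqrt 3 / 2 * δ ^ 2 * φ (lat δ x) =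
        ∫ z : ℂ, (φ z - φ (lat δ x)) * κ ((δ : ℂ)⁻¹ * z - lat 1 x) := by
      rw [← mgg_int h5 hδ (lat 1 x), mul_comm _ (φ (lat δ x)), ← integral_const_mul,
        ← integral_sub (i2 x) ((i1 x).const_mul _)]
      refine integral_congr_ae (ae_of_all _ fun z => ?_)
      show φ z * κ ((δ : ℂ)⁻¹ * z - lat 1 x) - φ (lat δ x) * κ ((δ : ℂ)⁻¹ * z - lat 1 x) = _
      ring
    rw [e2, ← mgg_int h5 hδ (lat 1 x), ← integral_const_mul, ← Real.norm_eq_abs]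
    refine norm_integral_le_of_norm_le ((i1 x).const_mul e) (ae_of_all _ fun z => ?_)
    rw [Real.norm_eq_abs, abs_mul, abs_of_nonneg (h2 _)]
    by_cases hz : κ ((δ : ℂ)⁻¹ * z - lat 1 x) = 0
    · rw [hz, mul_zero, mul_zero]
    · refine mul_le_mul_of_nonneg_right (he z (lat δ x) ?_) (h2 _)
      rw [mgf_sc hδ]
      have h7 : ‖(δ : ℂ)⁻¹ * z - lat 1 x‖ ≤ 1 := by
        by_contra hc
        exact hz (h3 _ (by linarith [not_le.1 hc]))
      calc δ * ‖(δ : ℂ)⁻¹ * z - lat 1 x‖ ≤ δ * 1 := mul_le_mul_of_nonneg_left h7 hδ.le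
        _ = δ := mul_one δ
  rw [e1]
  have e3 : ∑ x ∈ D, v x * (∫ z : ℂ, φ z * κ ((δ : ℂ)⁻¹ * z - lat 1 x)) -
      Real.sqrt 3 / 2 * δ ^ 2 * ∑ x ∈ D, φ (lat δ x) * v x =
      ∑ x ∈ D, v x * ((∫ z : ℂ, φ z * κ ((δ : ℂ)⁻¹ * z - lat 1 x)) -
        Real.sqrt 3 / 2 * δ ^ 2 * φ (lat δ x)) := by
    rw [Finset.mul_sum, ← Finset.sum_sub_distrib]
    refine Finset.sum_congr rfl fun x _ => ?_
    ring
  rw [e3]
  refine (Finset.abs_sum_le_sum_abs _ _).trans ?_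
  rw [Finset.mul_sum, Finset.mul_sum]
  refine Finset.sum_le_sum fun x _ => ?_
  rw [abs_mul]
  calc |v x| * |(∫ z : ℂ, φ z * κ ((δ : ℂ)⁻¹ * z - lat 1 x)) -
        Real.sqrt 3 / 2 * δ ^ 2 * φ (lat δ x)| ≤ |v x| * (e * (Real.sqrt 3 / 2 * δ ^ 2)) :=
        mul_le_mul_of_nonneg_left (h6 x) (abs_nonneg _)
    _ = _ := by ring

/- END mgg -/

/- MODULE mgh
Discrete Poincare inequality: `interp` for `|v|` (its discrete energy is at most that of `v`),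
`√3/2 δ² ∑ |v_x| = ∫ g ≤ (area)^{1/2} ‖g‖_2 ≤ C_R (dirE g)^{1/2}` (`poincare`, radius `R + δ ≤ 2 R`). -/
private theorem mgh_cs {g : ℂ → ℝ} (hg : Continuous g) {r : ℝ} (hr : 0 < r)
    (h : ∀ z, g z ≠ 0 → ‖z‖ ≤ r) :
    (∫ z, g z) ^ 2 ≤ volume.real (Metric.closedBall (0 : ℂ) r) * ∫ z, g z ^ 2 := by
  have hcs : HasCompactSupport g := by
    refine HasCompactSupport.intro (isCompact_closedBall (0 : ℂ) r) fun z hz => ?_
    by_contra hc
    exact hz (mem_closedBall_zero_iff.2 (h z hc))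
  obtain ⟨B, hB⟩ : ∃ B : Set ℂ, B = Metric.closedBall (0 : ℂ) r := ⟨_, rfl⟩
  have hB' : ∀ z, z ∉ B → g z = 0 := by
    intro z hz
    by_contra hc
    exact hz (by rw [hB]; exact mem_closedBall_zero_iff.2 (h z hc))
  rw [← hB]
  have e1 : ∫ z, g z = ∫ z in B, g z := (setIntegral_eq_integral_of_forall_compl_eq_zero hB').symm
  have e2 : ∫ z, g z ^ 2 = ∫ z in B, g z ^ 2 :=
    (setIntegral_eq_integral_of_forall_compl_eq_zero fun z hz => by rw [hB' z hz]; norm_num).symm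
  have i1 : IntegrableOn g B := (hg.integrable_of_hasCompactSupport hcs).integrableOn
  have i2 : IntegrableOn (fun z => g z ^ 2) B := by
    refine Integrable.integrableOn ?_
    refine (hg.pow 2).integrable_of_hasCompactSupport ?_
    refine HasCompactSupport.intro (isCompact_closedBall (0 : ℂ) r) fun z hz => ?_
    show g z ^ 2 = 0
    rw [hB' z (by rw [hB]; exact hz)]
    norm_num
  have hv : volume B ≠ ⊤ := by
    rw [hB]
    exact measure_closedBall_lt_top.ne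
  have i0 : IntegrableOn (fun _ : ℂ => (1 : ℝ)) B := integrableOn_const hv enorm_ne_top
  have hv0 : 0 < volume.real B := by
    rw [hB, Measure.real]
    exact ENNReal.toReal_pos (Metric.measure_closedBall_pos _ _ hr).ne'
      measure_closedBall_lt_top.ne
  have key : ∀ m : ℝ, 0 ≤ (∫ z in B, g z ^ 2) - 2 * m * (∫ z in B, g z) +
      m ^ 2 * volume.real B := by
    intro m
    have h1 : 0 ≤ ∫ z in B, (g z - m) ^ 2 := integral_nonneg fun z => sq_nonneg _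
    have h2 : ∫ z in B, (g z - m) ^ 2 = (∫ z in B, g z ^ 2) - 2 * m * (∫ z in B, g z) +
        m ^ 2 * volume.real B := by
      have i3 : IntegrableOn (fun z => g z ^ 2 - 2 * m * g z) B := i2.sub (i1.const_mul _)
      have e3 : m ^ 2 * volume.real B = ∫ z in B, m ^ 2 * (1 : ℝ) := by
        rw [setIntegral_const, smul_eq_mul]
        ring
      rw [e3, ← integral_const_mul, ← integral_sub i2 (i1.const_mul _),
        ← integral_add i3 (i0.const_mul _)]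
      refine integral_congr_ae (ae_of_all _ fun z => ?_)
      show (g z - m) ^ 2 = g z ^ 2 - 2 * m * g z + m ^ 2 * 1
      ring
    rw [← h2]
    exact h1
  have h1 := key ((∫ z in B, g z) / volume.real B)
  rw [e1, e2]
  have h2 : (∫ z in B, g z ^ 2) - 2 * ((∫ z in B, g z) / volume.real B) * (∫ z in B, g z) +
      ((∫ z in B, g z) / volume.real B) ^ 2 * volume.real B =
      (volume.real B * (∫ z in B, g z ^ 2) - (∫ z in B, g z) ^ 2) / volume.real B := by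
    field_simp
    ring
  rw [h2] at h1
  have h3 := mul_nonneg h1 hv0.le
  rw [div_mul_cancel₀ _ hv0.ne'] at h3
  linarith

theorem poincare_disc {R : ℝ} (hR : 0 < R) : ∃ C : ℝ, 0 < C ∧ ∀ (δ : ℝ), 0 < δ → δ ≤ R →
    ∀ (D : Finset (ℤ × ℤ)), (∀ x ∈ D, ‖lat δ x‖ ≤ R) → ∀ (v : ℤ × ℤ → ℝ),
      (∀ z, z ∉ D → v z = 0) →
      δ ^ 2 * ∑ x ∈ D, |v x| ≤ C * Real.sqrt (∑ x ∈ D, ∑ i, (v x - v (x + st i)) ^ 2) := by
  obtain ⟨κ, h1, h2, h3, h4, h5⟩ := exists_kappa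
  obtain ⟨C₀, hC₀, hI⟩ := interp h1 h2 h3 h4 h5
  obtain ⟨V, hV⟩ : ∃ V, V = volume.real (Metric.closedBall (0 : ℂ) (2 * R)) := ⟨_, rfl⟩
  have hV0 : 0 ≤ V := by
    rw [hV]
    exact measureReal_nonneg
  refine ⟨2 * Real.sqrt (V * ((2 * (2 * R)) ^ 2 * C₀)) + 1, by positivity,
    fun δ hδ hδR D hD v hv => ?_⟩
  obtain ⟨E, hE⟩ : ∃ E, E = ∑ x ∈ D, ∑ i, (v x - v (x + st i)) ^ 2 := ⟨_, rfl⟩
  have hE0 : 0 ≤ E := by
    rw [hE]
    exact Finset.sum_nonneg fun x _ => Finset.sum_nonneg fun i _ => sq_nonneg _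
  obtain ⟨a1, a2, a3⟩ := hI δ hδ D (fun x => |v x|) fun z hz => by rw [hv z hz, abs_zero]
  have b1 := pair_interp h1 h2 h3 h5 (φ := fun _ => (1 : ℝ)) continuous_const (e := 0) hδ
    (fun z w _ => by simp) D (fun x => |v x|)
  obtain ⟨g, hg⟩ : ∃ g : ℂ → ℝ,
    g = fun z : ℂ => ∑ x ∈ D, |v x| * κ ((δ : ℂ)⁻¹ * z - lat 1 x) := ⟨_, rfl⟩
  rw [← hg] at a1 a2 a3
  have hsup : ∀ z ∈ tsupport g, ‖z‖ ≤ 2 * R := by
    intro z hz
    obtain ⟨x, hx, hx'⟩ := a2 z hz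
    have h6 := hD x hx
    calc ‖z‖ = ‖(z - lat δ x) + lat δ x‖ := by rw [sub_add_cancel]
      _ ≤ ‖z - lat δ x‖ + ‖lat δ x‖ := norm_add_le _ _
      _ ≤ _ := by linarith
  have hcs : HasCompactSupport g := by
    refine HasCompactSupport.intro (isCompact_closedBall (0 : ℂ) (2 * R)) fun z hz => ?_
    by_contra hc
    exact hz (mem_closedBall_zero_iff.2 (hsup z (subset_tsupport _ hc)))
  have b2 := mgh_cs a1.continuous (show 0 < 2 * R by positivity)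
    fun z hz => hsup z (subset_tsupport _ hz)
  have b3 := poincare a1 hcs hsup
  have b4 : ∑ x ∈ D, ∑ i, (|v x| - |v (x + st i)|) ^ 2 ≤ E := by
    rw [hE]
    refine Finset.sum_le_sum fun x _ => Finset.sum_le_sum fun i _ => ?_
    rw [← sq_abs (|v x| - |v (x + st i)|), ← sq_abs (v x - v (x + st i))]
    exact pow_le_pow_left₀ (abs_nonneg _) (abs_abs_sub_abs_le _ _) 2
  have b5 : ∫ z, g z = Real.sqrt 3 / 2 * δ ^ 2 * ∑ x ∈ D, |v x| := by
    simp only [one_mul, zero_mul] at b1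
    have h6 := abs_nonpos_iff.1 b1
    rw [hg]
    linarith
  have b6 : (Real.sqrt 3 / 2 * δ ^ 2 * ∑ x ∈ D, |v x|) ^ 2 ≤
      V * ((2 * (2 * R)) ^ 2 * C₀) * E := by
    rw [← b5]
    calc (∫ z, g z) ^ 2 ≤ V * ∫ z, g z ^ 2 := by
          rw [hV]
          exact b2
      _ ≤ V * ((2 * (2 * R)) ^ 2 * dirE g) := mul_le_mul_of_nonneg_left b3 hV0
      _ ≤ V * ((2 * (2 * R)) ^ 2 * (C₀ * E)) := by
          refine mul_le_mul_of_nonneg_left (mul_le_mul_of_nonneg_left (a3.trans ?_)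
            (sq_nonneg _)) hV0
          exact mul_le_mul_of_nonneg_left b4 hC₀.le
      _ = _ := by ring
  have hs : 0 ≤ ∑ x ∈ D, |v x| := Finset.sum_nonneg fun x _ => abs_nonneg _
  have hs1 : 1 ≤ Real.sqrt 3 := Real.one_le_sqrt.2 (by norm_num)
  have b7 : Real.sqrt 3 / 2 * δ ^ 2 * ∑ x ∈ D, |v x| ≤
      Real.sqrt (V * ((2 * (2 * R)) ^ 2 * C₀)) * Real.sqrt E := by
    rw [← Real.sqrt_mul (by positivity)]
    exact Real.le_sqrt_of_sq_le b6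
  rw [← hE]
  have b8 : 1 / 2 * (δ ^ 2 * ∑ x ∈ D, |v x|) ≤ Real.sqrt 3 / 2 * δ ^ 2 * ∑ x ∈ D, |v x| := by
    have h6 : 0 ≤ δ ^ 2 * ∑ x ∈ D, |v x| := by positivity
    calc 1 / 2 * (δ ^ 2 * ∑ x ∈ D, |v x|) ≤ Real.sqrt 3 / 2 * (δ ^ 2 * ∑ x ∈ D, |v x|) :=
          mul_le_mul_of_nonneg_right (by linarith) h6
      _ = _ := by ring
  have b9 := Real.sqrt_nonneg E
  calc δ ^ 2 * ∑ x ∈ D, |v x| ≤ 2 * (Real.sqrt (V * ((2 * (2 * R)) ^ 2 * C₀)) * Real.sqrt E) := by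
        linarith
    _ ≤ _ := by
        rw [add_mul, one_mul]
        linarith

/- END mgh -/

/- MODULE mgi
The discrete dual norm is bounded by the Green energy.  `E = ∑∑ (v x - v (x + st i))²`, `g` the
interpolation of `v` (it is in `CSC Ω`), `dirE g ≤ C₀ E`.  `2 √3/2 δ² ∑ φ v ≤ 2 ∫ φ g + 2 e C E^{1/2}`
(`pair_interp`, `poincare_disc`), `2 ∫ φ g - dirE g / (2 C₀) ≤ 2 C₀ GE` (scaling `g → g/(2 C₀)` in
`le_GE`), `2 e C E^{1/2} - E/2 ≤ 2 e² C² ≤ ε`, `e → 0` as `δ → 0` (uniform continuity of `φ`). -/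
theorem dual_disc : ∃ C : ℝ, 0 < C ∧ ∀ Ω : Set ℂ, IsOpen Ω → Bornology.IsBounded Ω →
    ∀ φ : ℂ → ℝ, CSC Ω φ → ∀ ε : ℝ, 0 < ε → ∃ δ₀ : ℝ, 0 < δ₀ ∧ ∀ δ : ℝ, 0 < δ → δ < δ₀ →
    ∀ D : Finset (ℤ × ℤ), (∀ x ∈ D, Metric.closedBall (lat δ x) (7 / 10 * δ) ⊆ Ω) →
    ∀ v : ℤ × ℤ → ℝ, (∀ z, z ∉ D → v z = 0) →
      2 * (∑ x ∈ D, (Real.sqrt 3 / 2 * δ ^ 2 * φ (lat δ x)) * v x) -
        ∑ x ∈ D, ∑ i, (v x - v (x + st i)) ^ 2 ≤ C * GE Ω φ + ε := by
  obtain ⟨κ, h1, h2, h3, h4, h5⟩ := exists_kappa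
  obtain ⟨C₀, hC₀, hI⟩ := interp h1 h2 h3 h4 h5
  refine ⟨2 * C₀, by positivity, fun Ω _ hbd φ hφ ε hε => ?_⟩
  obtain ⟨R, hR0, hR⟩ : ∃ R : ℝ, 0 < R ∧ ∀ z ∈ Ω, ‖z‖ ≤ R := by
    obtain ⟨R, hR⟩ := hbd.exists_norm_le
    exact ⟨max R 1, lt_max_of_lt_right one_pos, fun z hz => (hR z hz).trans (le_max_left _ _)⟩
  obtain ⟨P, hP0, hP⟩ := poincare_disc hR0
  obtain ⟨e, he0, he⟩ : ∃ e : ℝ, 0 < e ∧ 2 * e ^ 2 * P ^ 2 ≤ ε := by
    refine ⟨Real.sqrt (ε / (2 * P ^ 2)), Real.sqrt_pos.2 (by positivity), ?_⟩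
    rw [Real.sq_sqrt (by positivity)]
    refine le_of_eq ?_
    field_simp
  obtain ⟨r, hr, hu⟩ := mgb_uc hφ.sm.continuous hφ.cs he0
  refine ⟨min r R, lt_min hr hR0, fun δ hδ hδ' D hD v hv => ?_⟩
  have hδr : δ < r := hδ'.trans_le (min_le_left _ _)
  have hδR : δ ≤ R := (hδ'.trans_le (min_le_right _ _)).le
  obtain ⟨E, hE⟩ : ∃ E, E = ∑ x ∈ D, ∑ i, (v x - v (x + st i)) ^ 2 := ⟨_, rfl⟩
  have hE0 : 0 ≤ E := by
    rw [hE]
    exact Finset.sum_nonneg fun x _ => Finset.sum_nonneg fun i _ => sq_nonneg _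
  obtain ⟨a1, a2, a3⟩ := hI δ hδ D v hv
  have b1 := pair_interp h1 h2 h3 h5 hφ.sm.continuous (e := e) hδ
    (fun z w hzw => (hu z w (hzw.trans_lt hδr)).le) D v
  have hlat : ∀ x ∈ D, lat δ x ∈ Ω := fun x hx =>
    hD x hx (Metric.mem_closedBall_self (by positivity))
  have b2 := hP δ hδ hδR D (fun x hx => hR _ (hlat x hx)) v hv
  obtain ⟨g, hg⟩ : ∃ g : ℂ → ℝ,
    g = fun z : ℂ => ∑ x ∈ D, v x * κ ((δ : ℂ)⁻¹ * z - lat 1 x) := ⟨_, rfl⟩
  rw [← hE] at b2 ⊢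
  rw [← hg, ← hE] at a3
  rw [← hg] at a1 a2
  have hsub : tsupport g ⊆ Ω := by
    intro z hz
    obtain ⟨x, hx, hx'⟩ := a2 z hz
    exact hD x hx (by rw [Metric.mem_closedBall, dist_eq_norm]; exact hx')
  have hcs : HasCompactSupport g := by
    refine HasCompactSupport.intro (isCompact_closedBall (0 : ℂ) R) fun z hz => ?_
    by_contra hc
    exact hz (mem_closedBall_zero_iff.2 (hR z (hsub (subset_tsupport _ hc))))
  have hk : CSC Ω (fun z => (2 * C₀)⁻¹ * g z) := by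
    have e1 : tsupport (fun z => (2 * C₀)⁻¹ * g z) ⊆ tsupport g := by
      refine closure_mono fun z hz => ?_
      exact right_ne_zero_of_mul hz
    exact ⟨contDiff_const.mul a1, hcs.mul_left, e1.trans hsub⟩
  have c1 := le_GE hbd hφ hk
  have c2 : Jc φ (fun z => (2 * C₀)⁻¹ * g z) =
      (2 * C₀)⁻¹ * (2 * ∫ z, φ z * g z) - (2 * C₀)⁻¹ ^ 2 * dirE g := by
    have e1 : ∫ z, φ z * ((2 * C₀)⁻¹ * g z) = (2 * C₀)⁻¹ * ∫ z, φ z * g z := by
      rw [← integral_const_mul]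
      refine integral_congr_ae (ae_of_all _ fun z => ?_)
      show φ z * ((2 * C₀)⁻¹ * g z) = (2 * C₀)⁻¹ * (φ z * g z)
      ring
    have e2 : dirE (fun z => (2 * C₀)⁻¹ * g z) = (2 * C₀)⁻¹ ^ 2 * dirE g := by
      unfold dirE
      rw [← integral_const_mul]
      refine integral_congr_ae (ae_of_all _ fun z => ?_)
      have e3 : fderiv ℝ (fun z => (2 * C₀)⁻¹ * g z) z = (2 * C₀)⁻¹ • fderiv ℝ g z :=
        (((a1.differentiable (by simp)) z).hasFDerivAt.const_mul _).fderiv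
      show gsq (fun z => (2 * C₀)⁻¹ * g z) z = (2 * C₀)⁻¹ ^ 2 * gsq g z
      unfold gsq
      rw [e3, _root_.smul_apply, _root_.smul_apply, smul_eq_mul, smul_eq_mul]
      ring
    unfold Jc
    rw [e1, e2]
    ring
  rw [c2] at c1
  have c3 : 2 * (∫ z, φ z * g z) ≤ 2 * C₀ * GE Ω φ + E / 2 := by
    have h6 : 2 * (∫ z, φ z * g z) - (2 * C₀)⁻¹ * dirE g ≤ 2 * C₀ * GE Ω φ := by
      have h7 := mul_le_mul_of_nonneg_left c1 (show 0 ≤ 2 * C₀ by positivity)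
      have h8 : 2 * C₀ * ((2 * C₀)⁻¹ * (2 * ∫ z, φ z * g z) - (2 * C₀)⁻¹ ^ 2 * dirE g) =
          2 * (∫ z, φ z * g z) - (2 * C₀)⁻¹ * dirE g := by
        field_simp
      rw [h8] at h7
      exact h7
    have h9 : (2 * C₀)⁻¹ * dirE g ≤ (2 * C₀)⁻¹ * (C₀ * E) :=
      mul_le_mul_of_nonneg_left a3 (by positivity)
    have h10 : (2 * C₀)⁻¹ * (C₀ * E) = E / 2 := by field_simp
    linarith
  have c4 : ∑ x ∈ D, (Real.sqrt 3 / 2 * δ ^ 2 * φ (lat δ x)) * v x =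
      Real.sqrt 3 / 2 * δ ^ 2 * ∑ x ∈ D, φ (lat δ x) * v x := by
    rw [Finset.mul_sum]
    refine Finset.sum_congr rfl fun x _ => ?_
    ring
  have hsq : Real.sqrt 3 ≤ 2 := by
    rw [Real.sqrt_le_left (by norm_num)]
    norm_num
  have hs : 0 ≤ δ ^ 2 * ∑ x ∈ D, |v x| := by
    have : 0 ≤ ∑ x ∈ D, |v x| := Finset.sum_nonneg fun x _ => abs_nonneg _
    positivity
  have c5 : e * (Real.sqrt 3 / 2 * δ ^ 2 * ∑ x ∈ D, |v x|) ≤ e * (P * Real.sqrt E) := by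
    refine mul_le_mul_of_nonneg_left ?_ he0.le
    calc Real.sqrt 3 / 2 * δ ^ 2 * ∑ x ∈ D, |v x| = Real.sqrt 3 / 2 * (δ ^ 2 * ∑ x ∈ D, |v x|) := by
          ring
      _ ≤ 1 * (δ ^ 2 * ∑ x ∈ D, |v x|) := mul_le_mul_of_nonneg_right (by linarith) hs
      _ ≤ _ := by
          rw [one_mul]
          exact b2
  have c6 := (abs_le.1 (b1.trans c5)).1
  have hgz : ∀ z, ∑ x ∈ D, v x * κ ((δ : ℂ)⁻¹ * z - lat 1 x) = g z := fun z => by rw [hg]
  simp only [hgz] at c6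
  rw [c4]
  have c7 : Real.sqrt E ^ 2 = E := Real.sq_sqrt hE0
  have c8 : 2 * (e * (P * Real.sqrt E)) ≤ E / 2 + 2 * e ^ 2 * P ^ 2 := by
    nlinarith [sq_nonneg (Real.sqrt E - 2 * (e * P))]
  linarith

/- END mgi -/

end Pool.Agent.Hmk.Cn
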