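import Pool.Agent.Hmk.MnCf

/-!
# Hmk, second part: boundary estimate, vanishing mean (helper70)
-/

set_option autoImplicit false

open MeasureTheory Set Filter

open scoped ENNReal SchwartzMap ContDiff Topology

noncomputable section

namespace Pool.Agent.Hmk.Mn

/- MODULE mja
BOUNDARY ESTIMATE: `bdry_one` with `ψ` from `cf_min`, variance from `var_dual`, and
`∑ |a_x| E|Z_x - ψ_x| ≤ (∑ a_x²)^{1/2} (∑ E (Z_x - ψ_x)²)^{1/2}`. -/
private theorem mja_EI (D : Finset (ℤ × ℤ)) (Z : ℤ × ℤ → ℝ) : 0 ≤ EI D Z := by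
  unfold EI
  exact Finset.sum_nonneg fun x _ => Finset.sum_nonneg fun i _ => sq_nonneg _

private theorem mja_bt {b₀ b₁ : ℤ × ℤ → ℝ} (h₀ : ∀ z, |b₀ z| ≤ 1 / 2) (h₁ : ∀ z, |b₁ z| ≤ 1 / 2)
    {θ : ℝ} (hθ : θ ∈ Icc (0 : ℝ) 1) (z : ℤ × ℤ) : |bt b₀ b₁ θ z| ≤ 1 / 2 := by
  have a0 := abs_le.1 (h₀ z)
  have a1 := abs_le.1 (h₁ z)
  have t0 := hθ.1
  have t1 := hθ.2
  unfold bt
  rw [abs_le]
  constructor <;> nlinarith [a0.1, a0.2, a1.1, a1.2]

private theorem mja_cs {D : Finset (ℤ × ℤ)} {μ : Measure (D → ℝ)} [IsProbabilityMeasure μ]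
    {f q : (D → ℝ) → ℝ} {C C' A Q : ℝ} (hf : Continuous f) (hfC : ∀ h, |f h| ≤ C)
    (hq : Continuous q) (hqC : ∀ h, |q h| ≤ C') (hA : 0 ≤ A)
    (hfq : ∀ h, f h ^ 2 ≤ A * q h) (hqQ : ∫ h, q h ∂μ ≤ Q) :
    ∫ h, f h ∂μ ≤ Real.sqrt A * Real.sqrt Q := by
  have i1 : Integrable f μ := Integrable.of_bound hf.aestronglyMeasurable C (ae_of_all _ hfC)
  have i2 : Integrable q μ := Integrable.of_bound hq.aestronglyMeasurable C' (ae_of_all _ hqC)
  have i3 : Integrable (fun h => f h ^ 2) μ := by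
    refine Integrable.of_bound (hf.pow 2).aestronglyMeasurable (C ^ 2) (ae_of_all _ fun h => ?_)
    rw [Real.norm_eq_abs, abs_pow]
    exact pow_le_pow_left₀ (abs_nonneg _) (hfC h) 2
  set m := ∫ h, f h ∂μ with hm
  have h1 : 0 ≤ ∫ h, (f h - m) ^ 2 ∂μ := integral_nonneg fun h => sq_nonneg _
  have h2 : ∫ h, (f h - m) ^ 2 ∂μ = (∫ h, f h ^ 2 ∂μ) - m ^ 2 := by
    have e : (fun h => (f h - m) ^ 2) = fun h => f h ^ 2 - 2 * m * f h + m ^ 2 := by
      funext h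
      ring
    have j1 : Integrable (fun h => 2 * m * f h) μ := i1.const_mul _
    have j2 : Integrable (fun h => f h ^ 2 - 2 * m * f h) μ := i3.sub j1
    rw [e, integral_add j2 (integrable_const _), integral_sub i3 j1, integral_const_mul,
      integral_const, probReal_univ, one_smul, ← hm]
    ring
  have h3 : ∫ h, f h ^ 2 ∂μ ≤ A * Q := by
    calc ∫ h, f h ^ 2 ∂μ ≤ ∫ h, A * q h ∂μ := integral_mono i3 (i2.const_mul _) hfq
      _ = A * ∫ h, q h ∂μ := integral_const_mul _ _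
      _ ≤ A * Q := mul_le_mul_of_nonneg_left hqQ hA
  rw [← Real.sqrt_mul hA]
  refine Real.le_sqrt_of_sq_le ?_
  linarith

theorem bdry : ∃ C : ℝ, 0 ≤ C ∧ ∀ (D : Finset (ℤ × ℤ)) (b₀ b₁ : ℤ × ℤ → ℝ),
    (∀ z, |b₀ z| ≤ 1 / 2) → (∀ z, |b₁ z| ≤ 1 / 2) → ∀ Z : ℤ × ℤ → ℝ, (∀ z, 0 ≤ Z z) →
    (∀ x ∈ D, ∀ i, x + st i ∉ D → b₁ (x + st i) ≠ b₀ (x + st i) → Z x = 0) →
    ∀ (a : ℤ × ℤ → ℝ) (H : ℝ),
    (∀ v : ℤ × ℤ → ℝ, (∀ z, z ∉ D → v z = 0) →
      2 * (∑ x ∈ D, a x * v x) - ∑ x ∈ D, ∑ i, (v x - v (x + st i)) ^ 2 ≤ H) →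
    |∫ h, ∑ x : D, a x * Z x * h x ∂(Mu D b₁) - ∫ h, ∑ x : D, a x * Z x * h x ∂(Mu D b₀)| ≤
      C * Real.sqrt (EI D Z) * (Real.sqrt H + Real.sqrt (∑ x ∈ D, a x ^ 2)) := by
  obtain ⟨ε, C1, hε, hC1, hcf⟩ := cf_min
  obtain ⟨C2, hC2, hvar⟩ := var_dual
  refine ⟨2 * Real.sqrt (C1 * C2) + 2 * Real.sqrt C1, by positivity, ?_⟩
  intro D b₀ b₁ h₀ h₁ Z hZ hk a H hH
  obtain ⟨ψ, hψ, hψ1, hψ2, hψ3⟩ := hcf D Z hZ
  have hEI : 0 ≤ EI D Z := mja_EI D Z
  have hH0 : 0 ≤ H := by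
    have := hH (fun _ => 0) (fun _ _ => rfl)
    simpa using this
  have hA : 0 ≤ ∑ x ∈ D, a x ^ 2 := Finset.sum_nonneg fun x _ => sq_nonneg _
  have h := bdry_one h₀ h₁ hψ (fun x i hx hb h => ?_) hε hψ2 (fun x : D => a x) (fun x : D => Z x)
    (v := C2 * H) (B := C1 * EI D Z)
    (δ := Real.sqrt (∑ x ∈ D, a x ^ 2) * Real.sqrt (C1 * EI D Z)) ?_ ?_ ?_
  · refine h.trans ?_
    have e1 : C2 * H * (C1 * EI D Z) = C1 * C2 * (EI D Z * H) := by ring
    rw [e1, Real.sqrt_mul (by positivity) (EI D Z * H), Real.sqrt_mul hEI H,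
      Real.sqrt_mul hC1 (EI D Z)]
    have p1 : 0 ≤ 2 * Real.sqrt (C1 * C2) * Real.sqrt (EI D Z) *
        Real.sqrt (∑ x ∈ D, a x ^ 2) := by positivity
    have p2 : 0 ≤ 2 * Real.sqrt C1 * Real.sqrt (EI D Z) * Real.sqrt H := by positivity
    linarith
  · have h2 := hψ1 x h
    rw [hk x x.2 i hx hb] at h2
    linarith [h2.1, h2.2]
  · intro θ hθ
    exact hvar D _ (mja_bt h₀ h₁ hθ) a H hH
  · intro θ hθ
    exact (hψ3 _ (mja_bt h₀ h₁ hθ)).1
  · intro θ hθ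
    have hb := mja_bt h₀ h₁ hθ
    have : IsProbabilityMeasure (Mu D (bt b₀ b₁ θ)) := prob hb
    refine mja_cs (C := ∑ x : D, |a x| * Z x) (C' := ∑ x : D, Z x ^ 2)
      (q := fun h => ∑ x : D, (Z x - ψ x h) ^ 2) ?_ (fun h => ?_)
      ?_ (fun h => ?_) hA (fun h => ?_) (hψ3 _ hb).2
    · exact continuous_finsetSum _ fun x _ => continuous_const.mul
        (continuous_const.sub (hψ x).sm.continuous).abs
    · rw [abs_of_nonneg (Finset.sum_nonneg fun x _ => by positivity)]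
      refine Finset.sum_le_sum fun x _ => mul_le_mul_of_nonneg_left ?_ (abs_nonneg _)
      have h2 := hψ1 x h
      rw [abs_of_nonneg (by linarith [h2.2])]
      linarith [h2.1]
    · exact continuous_finsetSum _ fun x _ =>
        (continuous_const.sub (hψ x).sm.continuous).pow 2
    · rw [abs_of_nonneg (Finset.sum_nonneg fun x _ => by positivity)]
      refine Finset.sum_le_sum fun x _ => ?_
      have h2 := hψ1 x h
      exact pow_le_pow_left₀ (by linarith [h2.2]) (by linarith [h2.1]) 2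
    · have h3 := Finset.sum_mul_sq_le_sq_mul_sq (Finset.univ : Finset D) (fun x => |a x|)
        (fun x => |Z x - ψ x h|)
      refine h3.trans (le_of_eq ?_)
      simp only [sq_abs]
      rw [Finset.sum_coe_sort D (fun x => a x ^ 2)]

/- END mja -/

/- MODULE mjb
MEAN OF `FG` TENDS TO ZERO.  `U` open with `tsupport g ⊆ U`, `closure U` compact in `U'`; `χ` smooth on
the plane, `0 ≤ χ ≤ 1`, `= 1` on a neighbourhood of `closure U`, compact support in `U'`.  In `chain`: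
`b₀ = 0`, `b₁ = b`, `P x ↔ lt δ x ∈ U`, `ψ, γ` from `cf_gate` with `χ_x = χ(lt δ x)`, `R ~ c/δ`,
`n ≤ C δ⁻²`, `EI D χ ≤ C`; `F = FG D b G` (`= ∑_{x ∈ D} Lap G x h_x` because `Lap G = 0` off `U`-sites for
small `δ`), `|F| ≤ C δ⁻²·(1/2 + |D|)...` use `K_bdd` and `D.card ≤ C δ⁻²` (bounded region); `T` from `Itf`
with `ε' ` small (`γ` is a function of the heights off `U`: orthogonality).  `∫ F γ dMu b₀`, `b₀ = 0`:
reflection `h ↦ -h` does not preserve `γ`, but `|∫ F (1 - γ)| ≤ M ∫ (1 - γ)` is tiny and `∫ F dMu 0 = 0`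
by the reflection.  Everything else is `≤ 2 (2 ε' C)^{1/2} + tiny`. -/
private theorem mjb_lt {δ : ℝ} (hδ : 0 ≤ δ) (x y : ℤ × ℤ) :
    ‖lt δ x - lt δ y‖ ≤ δ * (dn (y - x) : ℝ) := by
  have h1 : |(x.1 : ℝ) - y.1| ≤ (dn (y - x) : ℝ) := by
    have h : |(y - x).1| ≤ dn (y - x) := le_max_left _ _
    have h' : ((|(y - x).1| : ℤ) : ℝ) ≤ (dn (y - x) : ℝ) := Int.cast_le.2 h
    rw [Int.cast_abs, Prod.fst_sub, Int.cast_sub, abs_sub_comm] at h'
    exact h'
  have h2 : |(x.2 : ℝ) - y.2| ≤ (dn (y - x) : ℝ) := by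
    have h : |(y - x).2| ≤ dn (y - x) := (le_max_left _ _).trans (le_max_right _ _)
    have h' : ((|(y - x).2| : ℤ) : ℝ) ≤ (dn (y - x) : ℝ) := Int.cast_le.2 h
    rw [Int.cast_abs, Prod.snd_sub, Int.cast_sub, abs_sub_comm] at h'
    exact h'
  unfold lt
  rw [Prod.norm_def]
  refine max_le ?_ ?_
  · show |δ * (x.1 : ℝ) - δ * (y.1 : ℝ)| ≤ _
    rw [← mul_sub, abs_mul, abs_of_nonneg hδ]
    exact mul_le_mul_of_nonneg_left h1 hδ
  · show |δ * (x.2 : ℝ) - δ * (y.2 : ℝ)| ≤ _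
    rw [← mul_sub, abs_mul, abs_of_nonneg hδ]
    exact mul_le_mul_of_nonneg_left h2 hδ

private theorem mjb_st {δ : ℝ} (hδ : 0 ≤ δ) (x : ℤ × ℤ) (i : Fin 6) :
    ‖lt δ x - lt δ (x + st i)‖ ≤ δ := by
  have h := mjb_lt hδ x (x + st i)
  rw [add_sub_cancel_left, (dn_one_iff (st i)).2 ⟨i, rfl⟩] at h
  simpa using h

private theorem mjb_card {δ R : ℝ} (hδ : 0 < δ) (hδ1 : δ ≤ 1) (hR : 0 < R) {D : Finset (ℤ × ℤ)}
    (hD : ∀ x ∈ D, ‖lt δ x‖ ≤ R) : (D.card : ℝ) ≤ (2 * R + 1) ^ 2 * (1 / δ) ^ 2 := by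
  set N : ℤ := ⌊R / δ⌋ with hN
  have hN0 : 0 ≤ N := Int.floor_nonneg.2 (by positivity)
  have hsub : D ⊆ (Finset.Icc (-N) N) ×ˢ (Finset.Icc (-N) N) := by
    intro x hx
    have h := hD x hx
    have h1 : |δ * (x.1 : ℝ)| ≤ R := (norm_fst_le (lt δ x)).trans h
    have h2 : |δ * (x.2 : ℝ)| ≤ R := (norm_snd_le (lt δ x)).trans h
    have key : ∀ a : ℤ, |δ * (a : ℝ)| ≤ R → a ∈ Finset.Icc (-N) N := by
      intro a ha
      rw [abs_mul, abs_of_pos hδ] at ha
      have h3 : |(a : ℝ)| ≤ R / δ := by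
        rw [le_div_iff₀ hδ]
        linarith [mul_comm δ |(a : ℝ)|]
      have h4 : |a| ≤ N := by
        rw [hN, Int.le_floor]
        push_cast
        exact h3
      exact Finset.mem_Icc.2 (abs_le.1 h4)
    exact Finset.mem_product.2 ⟨key _ h1, key _ h2⟩
  have h1 := Finset.card_le_card hsub
  rw [Finset.card_product, Int.card_Icc] at h1
  have h2 : ((N + 1 - -N).toNat : ℝ) = 2 * N + 1 := by
    have : ((N + 1 - -N).toNat : ℤ) = 2 * N + 1 := by
      rw [Int.toNat_of_nonneg (by omega)]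
      ring
    exact_mod_cast this
  have h3 : (N : ℝ) ≤ R / δ := Int.floor_le _
  have hNr : (0 : ℝ) ≤ N := by exact_mod_cast hN0
  have h4 : (2 * (N : ℝ) + 1) ≤ (2 * R + 1) * (1 / δ) := by
    have h5 : 1 ≤ 1 / δ := by
      rw [le_div_iff₀ hδ]
      linarith
    have e : R / δ = R * (1 / δ) := by ring
    rw [e] at h3
    nlinarith
  calc (D.card : ℝ) ≤ (((N + 1 - -N).toNat * (N + 1 - -N).toNat : ℕ) : ℝ) := by
        exact_mod_cast h1
    _ = (2 * (N : ℝ) + 1) ^ 2 := by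
        rw [Nat.cast_mul, h2]
        ring
    _ ≤ ((2 * R + 1) * (1 / δ)) ^ 2 := pow_le_pow_left₀ (by positivity) h4 2
    _ = _ := by ring

private theorem mjb_exp {r : ℝ} (hr : 0 < r) (K : ℝ) (m : ℕ) {η : ℝ} (hη : 0 < η) :
    ∃ T : ℝ, 1 ≤ T ∧ ∀ t, T ≤ t → K * t ^ m * Real.exp (-(r * t)) ≤ η := by
  have h1 : Tendsto (fun t : ℝ => K * t ^ m * Real.exp (-(r * t))) atTop (𝓝 0) := by
    have h2 := (Real.tendsto_pow_mul_exp_neg_atTop_nhds_zero m).comp
      (tendsto_id.const_mul_atTop hr)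
    have h3 := h2.const_mul (K / r ^ m)
    rw [mul_zero] at h3
    refine h3.congr fun t => ?_
    simp only [Function.comp_apply, id]
    rw [mul_pow]
    field_simp
  obtain ⟨a, ha⟩ := Filter.eventually_atTop.1 (h1.eventually_le_const hη)
  exact ⟨max a 1, le_max_right _ _, fun t ht => ha t ((le_max_left _ _).trans ht)⟩

private theorem mjb_four {r t : ℝ} (h : 2 ≤ r * t) :
    1 / (4 : ℝ) ^ (⌊r * t⌋₊ - 1) ≤ Real.exp 2 * Real.exp (-(r * t)) := by
  set N := ⌊r * t⌋₊ with hNdef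
  have hN : r * t < N + 1 := Nat.lt_floor_add_one _
  have hN1 : 1 ≤ N := Nat.le_floor (by push_cast; linarith)
  have h1 : r * t - 2 ≤ ((N - 1 : ℕ) : ℝ) := by
    rw [Nat.cast_sub hN1]
    push_cast
    linarith
  have h2 : Real.exp (r * t - 2) ≤ 4 ^ (N - 1) := by
    calc Real.exp (r * t - 2) ≤ Real.exp ((N - 1 : ℕ) : ℝ) := Real.exp_le_exp.2 h1
      _ = Real.exp 1 ^ (N - 1) := by
          rw [← Real.exp_nat_mul, mul_one]
      _ ≤ 4 ^ (N - 1) := pow_le_pow_left₀ (Real.exp_pos _).le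
          (by linarith [Real.exp_one_lt_d9]) _
  have h3 : Real.exp 2 * Real.exp (-(r * t)) = 1 / Real.exp (r * t - 2) := by
    rw [one_div, ← Real.exp_neg, ← Real.exp_add]
    congr 1
    ring
  rw [h3]
  exact one_div_le_one_div_of_le (Real.exp_pos _) h2

private theorem mjb_geo {g : ℝ × ℝ → ℝ} (hc : HasCompactSupport g) {U' : Set (ℝ × ℝ)}
    (hU' : IsOpen U') (hs : tsupport g ⊆ U') :
    ∃ (U : Set (ℝ × ℝ)) (χ : ℝ × ℝ → ℝ) (r L : ℝ), IsOpen U ∧ tsupport g ⊆ U ∧ 0 < r ∧ 0 ≤ L ∧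
      (∀ z, 0 ≤ χ z ∧ χ z ≤ 1) ∧ (∀ z w, |χ z - χ w| ≤ L * ‖z - w‖) ∧
      (∀ z w, z ∈ tsupport g → ‖w - z‖ ≤ r → w ∈ U) ∧
      (∀ z w, z ∈ U → ‖w - z‖ ≤ r → χ w = 1 ∧ w ∈ U') ∧
      (∀ z w, χ z ≠ 0 → ‖w - z‖ ≤ r → w ∈ U') := by
  obtain ⟨L1, hL1, hL1a, hL1b⟩ := exists_compact_between hc hU' hs
  obtain ⟨L2, hL2, hL2a, hL2b⟩ := exists_compact_between hL1 hU' hL1b
  obtain ⟨f, hf1, hf2, hf3⟩ := exists_contMDiffMap_one_nhds_of_subset_interior
    (n := (⊤ : ℕ∞)) (modelWithCornersSelf ℝ (ℝ × ℝ)) hL1.isClosed hL2a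
  have hcs : HasCompactSupport f := HasCompactSupport.intro hL2 hf2
  obtain ⟨L, hL⟩ := ContDiff.lipschitzWith_of_hasCompactSupport hcs
    (f.contMDiff.contDiff : ContDiff ℝ ∞ f) (by simp)
  have hf1' : L1 ⊆ interior {z | f z = 1} := subset_interior_iff_mem_nhdsSet.2 hf1
  obtain ⟨r1, hr1, g1⟩ := IsCompact.exists_cthickening_subset_open hc isOpen_interior hL1a
  obtain ⟨r2, hr2, g2⟩ := hL1.exists_cthickening_subset_open
    (isOpen_interior.inter hU') (subset_inter hf1' hL1b)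
  obtain ⟨r3, hr3, g3⟩ := hL2.exists_cthickening_subset_open hU' hL2b
  refine ⟨interior L1, f, min r1 (min r2 r3), L, isOpen_interior, hL1a, by positivity,
    L.coe_nonneg, fun z => hf3 z, fun z w => ?_, fun z w hz hw => ?_, fun z w hz hw => ?_,
    fun z w hz hw => ?_⟩
  · have := hL.dist_le_mul z w
    rwa [Real.dist_eq, dist_eq_norm] at this
  · refine g1 (Metric.mem_cthickening_of_dist_le w z r1 _ hz ?_)
    rw [dist_eq_norm]
    exact hw.trans (min_le_left _ _)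
  · have h1 : w ∈ interior {z | f z = 1} ∩ U' := by
      refine g2 (Metric.mem_cthickening_of_dist_le w z r2 _ (interior_subset hz) ?_)
      rw [dist_eq_norm]
      exact hw.trans ((min_le_right _ _).trans (min_le_left _ _))
    have h2 : w ∈ {z | f z = 1} := interior_subset h1.1
    exact ⟨h2, h1.2⟩
  · have hz2 : z ∈ L2 := by
      by_contra hcon
      exact hz (hf2 z hcon)
    refine g3 (Metric.mem_cthickening_of_dist_le w z r3 _ hz2 ?_)
    rw [dist_eq_norm]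
    exact hw.trans ((min_le_right _ _).trans (min_le_right _ _))

private theorem mjb_FG (D : Finset (ℤ × ℤ)) (b b' : ℤ × ℤ → ℝ) (G : ℤ × ℤ → ℝ) (h : D → ℝ) :
    FG D b G h = FG D b' G h := by
  unfold FG
  refine Finset.sum_congr rfl fun x hx => ?_
  rw [gl_mem hx, gl_mem hx]

private theorem mjb_one {D : Finset (ℤ × ℤ)} {b : ℤ × ℤ → ℝ} (hb : ∀ z, |b z| ≤ 1 / 2)
    {F γ : (D → ℝ) → ℝ} (hF : Continuous F) {M : ℝ} (hM : ∀ h ∈ K D b, |F h| ≤ M)
    (hγm : Measurable γ) (hγ : ∀ h, 0 ≤ γ h ∧ γ h ≤ 1) :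
    |∫ h, F h ∂(Mu D b) - ∫ h, F h * γ h ∂(Mu D b)| ≤ M * ∫ h, (1 - γ h) ∂(Mu D b) := by
  have hP : IsProbabilityMeasure (Mu D b) := prob hb
  have hK : ∀ᵐ h ∂(Mu D b), h ∈ K D b := ProbabilityTheory.ae_cond_mem (μ := volume) (K_meas D b)
  have i1 : Integrable F (Mu D b) := Integrable.of_bound hF.aestronglyMeasurable M (by
    filter_upwards [hK] with h hh
    exact hM h hh)
  have i2 : Integrable (fun h => F h * γ h) (Mu D b) := by
    refine Integrable.of_bound (hF.measurable.mul hγm).aestronglyMeasurable M ?_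
    filter_upwards [hK] with h hh
    rw [Real.norm_eq_abs, abs_mul, abs_of_nonneg (hγ h).1]
    calc |F h| * γ h ≤ |F h| * 1 := mul_le_mul_of_nonneg_left (hγ h).2 (abs_nonneg _)
      _ ≤ M := by rw [mul_one]; exact hM h hh
  have i3 : Integrable (fun h => 1 - γ h) (Mu D b) := by
    refine Integrable.of_bound (measurable_const.sub hγm).aestronglyMeasurable 1
      (ae_of_all _ fun h => ?_)
    rw [Real.norm_eq_abs, abs_of_nonneg (by linarith [(hγ h).2])]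
    linarith [(hγ h).1]
  rw [← integral_sub i1 i2, ← integral_const_mul]
  refine abs_integral_le_integral_abs.trans (integral_mono_ae (i1.sub i2).abs
    (i3.const_mul M) ?_)
  filter_upwards [hK] with h hh
  have e : F h - F h * γ h = F h * (1 - γ h) := by ring
  rw [e, abs_mul, abs_of_nonneg (by linarith [(hγ h).2] : (0 : ℝ) ≤ 1 - γ h)]
  exact mul_le_mul_of_nonneg_right (hM h hh) (by linarith [(hγ h).2])

private theorem mjb_odd {D : Finset (ℤ × ℤ)} {F : (D → ℝ) → ℝ} (hF : ∀ h, F (-h) = - F h) :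
    ∫ h, F h ∂(Mu D (fun _ => 0)) = 0 := by
  have hg : ∀ (h : D → ℝ) (z : ℤ × ℤ), gl D (fun _ => 0) (-h) z = - gl D (fun _ => 0) h z := by
    intro h z
    unfold gl
    by_cases hz : z ∈ D
    · rw [dif_pos hz, dif_pos hz]
      rfl
    · rw [dif_neg hz, dif_neg hz, neg_zero]
  have hK : ∀ h : D → ℝ, -h ∈ K D (fun _ => 0) ↔ h ∈ K D (fun _ => 0) := by
    intro h
    constructor
    · intro hh y hy i
      have h1 := hh y hy i
      rw [hg, hg, ← abs_neg] at h1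
      convert h1 using 2
      ring
    · intro hh y hy i
      have h1 := hh y hy i
      rw [hg, hg, ← abs_neg]
      convert h1 using 2
      ring
  have h0 : ∫ h in K D (fun _ => 0), F h = 0 := by
    rw [← integral_indicator (K_meas D fun _ => 0)]
    have h1 := integral_neg_eq_self (fun h => (K D (fun _ => 0)).indicator F h)
      (volume : Measure (D → ℝ))
    have h2 : (fun h : D → ℝ => (K D (fun _ => 0)).indicator F (-h)) =
        fun h => - (K D (fun _ => 0)).indicator F h := by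
      funext h
      by_cases hh : h ∈ K D (fun _ => 0)
      · rw [Set.indicator_of_mem hh, Set.indicator_of_mem ((hK h).2 hh), hF]
      · rw [Set.indicator_of_notMem hh, Set.indicator_of_notMem fun h' => hh ((hK h).1 h'),
          neg_zero]
    rw [h2, integral_neg] at h1
    linarith
  unfold Mu ProbabilityTheory.cond
  rw [integral_smul_measure, h0, smul_zero]

theorem mean_lap {σ : ℝ} (hI : Itf σ) {g : ℝ × ℝ → ℝ} (hg : ContDiff ℝ ∞ g)
    (hc : HasCompactSupport g) {U' : Set (ℝ × ℝ)} (hU' : IsOpen U') (hs : tsupport g ⊆ U')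
    {R ε : ℝ} (hR : 0 < R) (hε : 0 < ε) :
    ∃ δ₀ : ℝ, 0 < δ₀ ∧ ∀ δ : ℝ, 0 < δ → δ < δ₀ → ∀ D : Finset (ℤ × ℤ),
      (∀ x, lt δ x ∈ U' → x ∈ D) → (∀ x ∈ D, ‖lt δ x‖ ≤ R) →
      ∀ b : ℤ × ℤ → ℝ, (∀ z, |b z| ≤ 1 / 2) →
        |∫ h, FG D b (fun x => g (lt δ x)) h ∂(Mu D b)| ≤ ε := by
  classical
  obtain ⟨U, χ, r, L, hU, hgU, hr, hL, hχ, hχL, geo1, geo2, geo3⟩ := mjb_geo hc hU' hs
  obtain ⟨ε1, C1, hε1, hC1, hgate⟩ := cf_gate
  obtain ⟨G0, hG0⟩ := hc.exists_bound_of_continuous hg.continuous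
  have hG00 : 0 ≤ G0 := (norm_nonneg _).trans (hG0 0)
  set Cd : ℝ := (2 * R + 1) ^ 2 with hCd
  have hCd0 : 0 ≤ Cd := sq_nonneg _
  set CB : ℝ := C1 * (6 * Cd * L ^ 2 + 1) with hCB
  have hCB0 : 0 ≤ CB := by positivity
  set ε' : ℝ := (ε / 4) ^ 2 / (2 * (CB + 1)) with hε'
  have hε'0 : 0 < ε' := by positivity
  obtain ⟨δI, hδI, CT, k, hItf⟩ := hI g hg hc U hU hgU R hR ε' hε'0
  set K1 : ℝ := 12 * G0 * Cd * (1 / 2 + Cd) + |CT| + 1 with hK1
  have hK10 : 0 < K1 := by positivity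
  obtain ⟨T1, hT1, hT1'⟩ := mjb_exp hr (Cd ^ 3 * Real.exp 2) 6 one_pos
  obtain ⟨T2, hT2, hT2'⟩ := mjb_exp hr (6 * K1 * C1 * Cd ^ 2 * Real.exp 2) (k + 8) (half_pos hε)
  have hT1p : 0 < T1 := by linarith
  have hT2p : 0 < T2 := by linarith
  refine ⟨min δI (min (r / 2) (min (1 / T1) (1 / T2))), by positivity, ?_⟩
  intro δ hδ hδ' D hD hDR b hb
  have hd1 : δ < δI := lt_of_lt_of_le hδ' (min_le_left _ _)
  have hd2 : δ ≤ r / 2 := (lt_of_lt_of_le hδ' ((min_le_right _ _).trans (min_le_left _ _))).le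
  have hd3 : δ ≤ 1 / T1 := (lt_of_lt_of_le hδ' ((min_le_right _ _).trans
    ((min_le_right _ _).trans (min_le_left _ _)))).le
  have hd4 : δ ≤ 1 / T2 := (lt_of_lt_of_le hδ' ((min_le_right _ _).trans
    ((min_le_right _ _).trans (min_le_right _ _)))).le
  have hd5 : δ ≤ 1 := hd3.trans (by rw [div_le_one hT1p]; exact hT1)
  have hdr : δ ≤ r := by linarith
  set t : ℝ := 1 / δ with ht
  have htd : t * δ = 1 := by rw [ht]; field_simp
  have ht1 : 1 ≤ t := by rw [ht, le_div_iff₀ hδ]; linarith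
  have htT1 : T1 ≤ t := by
    rw [ht, le_div_iff₀ hδ]
    rw [le_div_iff₀ hT1p] at hd3
    linarith
  have htT2 : T2 ≤ t := by
    rw [ht, le_div_iff₀ hδ]
    rw [le_div_iff₀ hT2p] at hd4
    linarith
  have hrt : 2 ≤ r * t := by
    rw [ht, mul_one_div, le_div_iff₀ hδ]
    linarith
  have hcard : (D.card : ℝ) ≤ Cd * t ^ 2 := mjb_card hδ hd5 hR hDR
  set Rn : ℕ := ⌊r * t⌋₊ - 1 with hRn
  have hfour : 1 / (4 : ℝ) ^ Rn ≤ Real.exp 2 * Real.exp (-(r * t)) := mjb_four hrt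
  have hRnδ : δ * ((Rn : ℝ) + 1) ≤ r := by
    have h1 : 1 ≤ ⌊r * t⌋₊ := Nat.le_floor (by push_cast; linarith)
    have h2 : ((Rn : ℝ) + 1) = ⌊r * t⌋₊ := by
      rw [hRn, Nat.cast_sub h1]
      push_cast
      ring
    rw [h2]
    calc δ * (⌊r * t⌋₊ : ℝ) ≤ δ * (r * t) :=
          mul_le_mul_of_nonneg_left (Nat.floor_le (by linarith)) hδ.le
      _ = r := by rw [mul_comm, mul_assoc, htd, mul_one]
  -- the function
  set G : ℤ × ℤ → ℝ := fun x => g (lt δ x) with hG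
  have hFb : ∀ (b' : ℤ × ℤ → ℝ) (h : D → ℝ), FG D b' G h = FG D b G h := fun b' h => mjb_FG D b' b G h
  have hlap : ∀ x : ℤ × ℤ, lt δ x ∉ U → Lap G x = 0 := by
    intro x hx
    have h1 : g (lt δ x) = 0 := image_eq_zero_of_notMem_tsupport fun h => hx (hgU h)
    have h2 : ∀ i, g (lt δ (x + st i)) = 0 := fun i =>
      image_eq_zero_of_notMem_tsupport fun h => hx (geo1 _ _ h ((mjb_st hδ.le x i).trans hdr))
    unfold Lap
    refine Finset.sum_eq_zero fun i _ => ?_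
    show g (lt δ x) - g (lt δ (x + st i)) = 0
    rw [h1, h2 i, sub_zero]
  have hlapb : ∀ x : ℤ × ℤ, |Lap G x| ≤ 12 * G0 := by
    intro x
    unfold Lap
    refine (Finset.abs_sum_le_sum_abs _ _).trans ?_
    calc ∑ i : Fin 6, |G x - G (x + st i)| ≤ ∑ _i : Fin 6, (G0 + G0) :=
          Finset.sum_le_sum fun i _ => (abs_sub _ _).trans (add_le_add (hG0 _) (hG0 _))
      _ = 12 * G0 := by
          rw [Finset.sum_const, Finset.card_univ, Fintype.card_fin, nsmul_eq_mul]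
          push_cast
          ring
  have hFc : Continuous (FG D b G) := by
    unfold FG
    exact continuous_finsetSum _ fun x _ => continuous_const.mul (gl_cont D b x)
  have hFd : Dep (fun x => lt δ x ∈ U) (FG D b G) := by
    intro h h' hh
    unfold FG
    refine Finset.sum_congr rfl fun x hx => ?_
    by_cases hxU : lt δ x ∈ U
    · rw [gl_mem hx, gl_mem hx, hh ⟨x, hx⟩ hxU]
    · rw [hlap x hxU, zero_mul, zero_mul]
  set M : ℝ := K1 * t ^ (k + 4) with hM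
  have hM0 : 0 < M := by positivity
  have hFM : ∀ b' : ℤ × ℤ → ℝ, (∀ z, |b' z| ≤ 1 / 2) → ∀ h ∈ K D b', |FG D b G h| ≤ M := by
    intro b' hb' h hh
    have h1 : |FG D b G h| ≤ (D.card : ℝ) * (12 * G0 * (1 / 2 + D.card)) := by
      unfold FG
      refine (Finset.abs_sum_le_sum_abs _ _).trans ?_
      rw [← nsmul_eq_mul]
      refine Finset.sum_le_card_nsmul _ _ _ fun x hx => ?_
      rw [abs_mul, gl_mem hx]
      exact mul_le_mul (hlapb x) (K_bdd (by norm_num) (fun z _ _ => hb' z) hh ⟨x, hx⟩)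
        (abs_nonneg _) (by positivity)
    refine h1.trans ?_
    have h2 : (1 : ℝ) ≤ t ^ 2 := one_le_pow₀ ht1
    have h3 : (D.card : ℝ) * (12 * G0 * (1 / 2 + D.card)) ≤
        Cd * t ^ 2 * (12 * G0 * ((1 / 2 + Cd) * t ^ 2)) := by
      refine mul_le_mul hcard (mul_le_mul_of_nonneg_left ?_ (by positivity)) (by positivity)
        (by positivity)
      have h5 : (1 / 2 + Cd) * t ^ 2 = 1 / 2 * t ^ 2 + Cd * t ^ 2 := by ring
      rw [h5]
      linarith
    refine h3.trans ?_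
    have h4 : t ^ 4 ≤ t ^ (k + 4) := pow_le_pow_right₀ ht1 (by omega)
    calc Cd * t ^ 2 * (12 * G0 * ((1 / 2 + Cd) * t ^ 2)) =
          (12 * G0 * Cd * (1 / 2 + Cd)) * t ^ 4 := by ring
      _ ≤ K1 * t ^ (k + 4) := by
          refine mul_le_mul ?_ h4 (by positivity) hK10.le
          rw [hK1]
          linarith [abs_nonneg CT]
  -- the gate
  have hgP : ∀ x y : ℤ × ℤ, lt δ x ∈ U → dn (y - x) ≤ Rn + 1 → χ (lt δ y) = 1 ∧ y ∈ D := by
    intro x y hx hxy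
    have h1 : ‖lt δ y - lt δ x‖ ≤ r := by
      rw [norm_sub_rev]
      refine (mjb_lt hδ.le x y).trans (le_trans (mul_le_mul_of_nonneg_left ?_ hδ.le) hRnδ)
      exact_mod_cast hxy
    have h2 := geo2 _ _ hx h1
    exact ⟨h2.1, hD y h2.2⟩
  obtain ⟨ψ, γ, hψ, hγ, hP, hψχ, hγ01, hγd, htie, hest⟩ := hgate D (fun x => lt δ x ∈ U)
    (fun x => χ (lt δ x)) Rn D.card (fun z => hχ _) hgP
    (fun S hS _ => Finset.card_le_card hS)
  have hEI : EI D (fun x => χ (lt δ x)) ≤ 6 * Cd * L ^ 2 := by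
    unfold EI
    have h1 : ∀ x ∈ D, (∑ i : Fin 6,
        (χ (lt δ x) - χ (lt δ (x + st i))) ^ 2) ≤ 6 * (L * δ) ^ 2 := by
      intro x _
      calc (∑ i : Fin 6, (χ (lt δ x) - χ (lt δ (x + st i))) ^ 2)
          ≤ ∑ _i : Fin 6, (L * δ) ^ 2 := by
            refine Finset.sum_le_sum fun i _ => ?_
            have h2 : |χ (lt δ x) - χ (lt δ (x + st i))| ≤ L * δ :=
              (hχL _ _).trans (mul_le_mul_of_nonneg_left (mjb_st hδ.le x i) hL)
            rw [← sq_abs]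
            exact pow_le_pow_left₀ (abs_nonneg _) h2 2
        _ = 6 * (L * δ) ^ 2 := by
            rw [Finset.sum_const, Finset.card_univ, Fintype.card_fin, nsmul_eq_mul]
            push_cast
            ring
    calc _ ≤ ∑ x ∈ D, 6 * (L * δ) ^ 2 := Finset.sum_le_sum h1
      _ = (D.card : ℝ) * (6 * (L * δ) ^ 2) := by rw [Finset.sum_const, nsmul_eq_mul]
      _ ≤ Cd * t ^ 2 * (6 * (L * δ) ^ 2) := mul_le_mul_of_nonneg_right hcard (by positivity)
      _ = 6 * Cd * L ^ 2 * (t * δ) ^ 2 := by ring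
      _ = 6 * Cd * L ^ 2 := by rw [htd]; ring
  have hn3 : (D.card : ℝ) ^ 3 / 4 ^ Rn ≤ 1 := by
    calc (D.card : ℝ) ^ 3 / 4 ^ Rn = (D.card : ℝ) ^ 3 * (1 / 4 ^ Rn) := by ring
      _ ≤ (Cd * t ^ 2) ^ 3 * (Real.exp 2 * Real.exp (-(r * t))) :=
          mul_le_mul (pow_le_pow_left₀ (by positivity) hcard 3) hfour (by positivity)
            (by positivity)
      _ = Cd ^ 3 * Real.exp 2 * t ^ 6 * Real.exp (-(r * t)) := by ring
      _ ≤ 1 := hT1' t htT1
  have hB : ∀ b' : ℤ × ℤ → ℝ, (∀ z, |b' z| ≤ 1 / 2) → ∫ h, Gd2 ψ h ∂(Mu D b') ≤ CB := by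
    intro b' hb'
    refine (hest b' hb').1.trans ?_
    exact mul_le_mul_of_nonneg_left (add_le_add hEI hn3) hC1
  set dd : ℝ := C1 * (D.card : ℝ) ^ 2 / 4 ^ Rn with hdd
  have hdd0 : 0 ≤ dd := by positivity
  have h0 : ∀ z : ℤ × ℤ, |(fun _ : ℤ × ℤ => (0 : ℝ)) z| ≤ 1 / 2 := by
    intro z
    norm_num
  have hch := chain (b₀ := fun _ => 0) (b₁ := b) h0 hb (P := fun x => lt δ x ∈ U) (ψ := ψ)
    (γ := γ) (F := FG D b G) hψ hγ
    (fun h => by rw [abs_of_nonneg (hγ01 h).1]; exact (hγ01 h).2) hP ?_ hε1 htie hFc hFd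
    (M := M) (v := ε') (B := CB) (δ := dd) hM0 hε'0 ?_ ?_ ?_ ?_
  · -- conclusion
    have hγm : Measurable γ := hγ.sm.continuous.measurable
    have q1 := mjb_one hb hFc (hFM b hb) hγm hγ01
    have q0 := mjb_one (b := fun _ => 0) h0 hFc (hFM _ h0) hγm hγ01
    have q2 := (hest b hb).2.2
    have q3 := (hest (fun _ => 0) h0).2.2
    have q4 : ∫ h, FG D b G h ∂(Mu D (fun _ => 0)) = 0 := by
      refine mjb_odd fun h => ?_
      unfold FG
      rw [← Finset.sum_neg_distrib]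
      refine Finset.sum_congr rfl fun x hx => ?_
      rw [gl_mem hx, gl_mem hx]
      simp
    rw [q4] at q0
    have q5 : C1 * (D.card : ℝ) / 4 ^ Rn ≤ dd := by
      rw [hdd]
      refine div_le_div_of_nonneg_right (mul_le_mul_of_nonneg_left ?_ hC1) (by positivity)
      have : D.card ≤ D.card ^ 2 := Nat.le_self_pow (by norm_num) _
      exact_mod_cast this
    have q6 : M * ∫ h, (1 - γ h) ∂(Mu D b) ≤ M * dd :=
      mul_le_mul_of_nonneg_left (q2.trans q5) hM0.le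
    have q7 : M * ∫ h, (1 - γ h) ∂(Mu D (fun _ => 0)) ≤ M * dd :=
      mul_le_mul_of_nonneg_left (q3.trans q5) hM0.le
    have q8 : 6 * (M * dd) ≤ ε / 2 := by
      calc 6 * (M * dd) = 6 * (K1 * t ^ (k + 4) * (C1 * ((D.card : ℝ) ^ 2 * (1 / 4 ^ Rn)))) := by
            rw [hM, hdd]
            ring
        _ ≤ 6 * (K1 * t ^ (k + 4) * (C1 * ((Cd * t ^ 2) ^ 2 *
              (Real.exp 2 * Real.exp (-(r * t)))))) := by
            refine mul_le_mul_of_nonneg_left (mul_le_mul_of_nonneg_left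
              (mul_le_mul_of_nonneg_left (mul_le_mul (pow_le_pow_left₀ (by positivity) hcard 2)
                hfour (by positivity) (by positivity)) hC1) hM0.le) (by norm_num)
        _ = 6 * K1 * C1 * Cd ^ 2 * Real.exp 2 * t ^ (k + 8) * Real.exp (-(r * t)) := by
            ring
        _ ≤ ε / 2 := hT2' t htT2
    have q9 : 2 * Real.sqrt (2 * ε' * CB) ≤ ε / 2 := by
      have h1 : 2 * ε' * CB ≤ (ε / 4) ^ 2 := by
        rw [hε']
        have h2 : 2 * ((ε / 4) ^ 2 / (2 * (CB + 1))) * CB = (ε / 4) ^ 2 * (CB / (CB + 1)) := by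
          field_simp
        rw [h2]
        have h3 : CB / (CB + 1) ≤ 1 := by
          rw [div_le_one (by linarith)]
          linarith
        exact mul_le_of_le_one_right (sq_nonneg _) h3
      have h4 : Real.sqrt (2 * ε' * CB) ≤ ε / 4 := by
        rw [Real.sqrt_le_left (by positivity)]
        exact h1
      linarith
    have a1 := abs_le.1 q1
    have a2 := abs_le.1 q0
    have a3 := abs_le.1 hch
    rw [abs_le]
    constructor <;> linarith [a1.1, a1.2, a2.1, a2.2, a3.1, a3.2]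
  · -- zero at the moving fixed sites
    intro x i hx _ h
    have h1 : χ (lt δ x) = 0 := by
      by_contra hcon
      exact hx (hD _ (geo3 _ _ hcon (by
        rw [norm_sub_rev]
        exact (mjb_st hδ.le x i).trans hdr)))
    have h2 := hψχ x h
    simp only [h1] at h2
    linarith [h2.1, h2.2]
  · intro θ hθ h hh
    exact hFM _ (mja_bt h0 hb hθ) h hh
  · intro θ hθ
    have hbθ := mja_bt h0 hb hθ
    obtain ⟨⟨T, hTm, hTb, hTd, hTo, hTv⟩, -⟩ := hItf δ hδ hd1 D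
      (fun x hx => (hgP x x hx (by
        rw [sub_self]
        have : dn 0 = 0 := by decide
        rw [this]
        positivity)).2) hDR _ hbθ
    refine ⟨T, hTm, fun h => ?_, hTd, fun θ' hθ' => ?_, ?_⟩
    · refine (hTb h).trans ?_
      have h1 : CT / δ ^ k = CT * t ^ k := by
        rw [ht, one_div, inv_pow]
        rfl
      rw [h1]
      have h2 : t ^ k ≤ t ^ (k + 4) := pow_le_pow_right₀ ht1 (by omega)
      refine mul_le_mul ?_ h2 (by positivity) hK10.le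
      rw [hK1]
      have : 0 ≤ 12 * G0 * Cd * (1 / 2 + Cd) := by positivity
      linarith [le_abs_self CT]
    · exact hTo _ (mja_bt h0 hb hθ') γ hγ.sm.continuous.measurable
        ⟨1, fun h => by rw [abs_of_nonneg (hγ01 h).1]; exact (hγ01 h).2⟩ hγd
    · have e : FG D (bt (fun _ => 0) b θ) (fun x => g (lt δ x)) = FG D b G := by
        funext h
        exact hFb _ h
      rw [e] at hTv
      exact hTv
  · intro θ hθ
    exact hB _ (mja_bt h0 hb hθ)
  · intro θ hθ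
    exact (hest _ (mja_bt h0 hb hθ)).2.1

/- END mjb -/

end Pool.Agent.Hmk.Mn
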