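import Pool.Agent.Hmk.CnC

import Pool.Agent.Hmk.MnMb

/-!
# Hmk, second part: the continuum (helper70), limits of means and characteristic functions
-/

set_option autoImplicit false

open MeasureTheory Set Filter

open scoped ENNReal ContDiff Topology

noncomputable section

namespace Pool.Agent.Hmk.Cn

open Pool.Agent.Hmk.Mn

/- MODULE mka
The closed ball of radius `8/10 δ` lies in the hexagon (the inradius is `√3/2 δ`): write
`z - lat δ x = δ (s e_i + t e_{i+1})` with `s, t ≥ 0` for one of the six sectors, `e_i = lat 1 (st i)`,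
`s + t ≤ (2/√3) (8/10) < 1`. -/
private theorem mka_three {s : Set ℂ} (hs : Convex ℝ s) {u v w : ℂ} (hu : u ∈ s) (hv : v ∈ s)
    (hw : w ∈ s) {a b c : ℝ} (ha : 0 ≤ a) (hb : 0 ≤ b) (hc : 0 ≤ c) (h : a + b + c = 1) :
    (a : ℂ) * u + (b : ℂ) * v + (c : ℂ) * w ∈ s := by
  have h1 := hs.sum_mem (t := Finset.univ) (w := ![a, b, c]) (z := ![u, v, w])
    (fun i _ => by fin_cases i <;> assumption)
    (by simpa [Fin.sum_univ_three] using h)
    (fun i _ => by fin_cases i <;> assumption)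
  simpa [Fin.sum_univ_three] using h1

/-- the centre is in the hexagon -/
private theorem mka_mid (δ : ℝ) (x : ℤ × ℤ) :
    lat δ x ∈ convexHull ℝ (range fun i : Fin 6 => lat δ (x + st i)) := by
  have h0 : lat δ (x + st 0) ∈ convexHull ℝ (range fun i : Fin 6 => lat δ (x + st i)) :=
    subset_convexHull ℝ _ ⟨0, rfl⟩
  have h3 : lat δ (x + st 3) ∈ convexHull ℝ (range fun i : Fin 6 => lat δ (x + st i)) :=
    subset_convexHull ℝ _ ⟨3, rfl⟩
  have h1 := mka_three (convex_convexHull ℝ _) h0 h3 h3 (a := 1 / 2) (b := 1 / 2) (c := 0)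
    (by norm_num) (by norm_num) le_rfl (by norm_num)
  have e : ((1 / 2 : ℝ) : ℂ) * lat δ (x + st 0) + ((1 / 2 : ℝ) : ℂ) * lat δ (x + st 3) +
      ((0 : ℝ) : ℂ) * lat δ (x + st 3) = lat δ x := by
    rw [lat_add, lat_add]
    have e1 : lat δ (st 0) = (δ : ℂ) := by simp [lat, st]
    have e2 : lat δ (st 3) = - (δ : ℂ) := by simp [lat, st]
    rw [e1, e2]
    push_cast
    ring
  rwa [e] at h1

/-- one sector -/
private theorem mka_sec {δ : ℝ} (x : ℤ × ℤ) (i j : Fin 6) {a b : ℝ} (ha : 0 ≤ a) (hb : 0 ≤ b)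
    (hab : a + b ≤ 1) {z : ℂ}
    (hz : z = lat δ x + ((a : ℂ) * lat δ (st i) + (b : ℂ) * lat δ (st j))) :
    z ∈ convexHull ℝ (range fun i : Fin 6 => lat δ (x + st i)) := by
  have h0 : lat δ (x + st i) ∈ convexHull ℝ (range fun i : Fin 6 => lat δ (x + st i)) :=
    subset_convexHull ℝ _ ⟨i, rfl⟩
  have h3 : lat δ (x + st j) ∈ convexHull ℝ (range fun i : Fin 6 => lat δ (x + st i)) :=
    subset_convexHull ℝ _ ⟨j, rfl⟩
  have h1 := mka_three (convex_convexHull ℝ _) h0 h3 (mka_mid δ x) ha hb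
    (c := 1 - a - b) (by linarith) (by ring)
  have e : (a : ℂ) * lat δ (x + st i) + (b : ℂ) * lat δ (x + st j) +
      ((1 - a - b : ℝ) : ℂ) * lat δ x = z := by
    rw [lat_add, lat_add, hz]
    push_cast
    ring
  rwa [e] at h1

private theorem mka_sum {s t : ℝ} (h : s ^ 2 + s * t + t ^ 2 ≤ (8 / 10) ^ 2) : s + t ≤ 1 := by
  nlinarith [sq_nonneg (s - t), sq_nonneg (s + t)]

theorem ball_hex {δ : ℝ} (hδ : 0 < δ) (x : ℤ × ℤ) :
    Metric.closedBall (lat δ x) (8 / 10 * δ) ⊆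
      convexHull ℝ (range fun i : Fin 6 => lat δ (x + st i)) := by
  intro z hz
  rw [Metric.mem_closedBall, dist_eq_norm] at hz
  set w : ℂ := z - lat δ x with hw
  have h3 : Real.sqrt 3 ^ 2 = 3 := Real.sq_sqrt (by norm_num)
  have h30 : (0 : ℝ) < Real.sqrt 3 := Real.sqrt_pos.2 (by norm_num)
  set q : ℝ := w.im * 2 / Real.sqrt 3 / δ with hq
  set p : ℝ := w.re / δ - q / 2 with hp
  have hwim : w.im = δ * (q * (Real.sqrt 3 / 2)) := by
    rw [hq]
    field_simp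
  have hwre : w.re = δ * (p + q / 2) := by
    rw [hp]
    field_simp
    ring
  have hw2 : w = (δ : ℂ) * ((p : ℂ) + (q : ℂ) * om) := by
    refine Complex.ext ?_ ?_
    · rw [hwre]
      simp [om]
      left
      ring
    · rw [hwim]
      simp [om]
  have hn : p ^ 2 + p * q + q ^ 2 ≤ (8 / 10) ^ 2 := by
    have h1 : ‖w‖ ^ 2 ≤ (8 / 10 * δ) ^ 2 := pow_le_pow_left₀ (norm_nonneg _) hz 2
    rw [Complex.sq_norm, Complex.normSq_apply, hwre, hwim] at h1
    have h2 : δ ^ 2 * (p ^ 2 + p * q + q ^ 2) ≤ δ ^ 2 * (8 / 10) ^ 2 := by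
      calc δ ^ 2 * (p ^ 2 + p * q + q ^ 2)
          = δ * (p + q / 2) * (δ * (p + q / 2)) +
            δ * (q * (Real.sqrt 3 / 2)) * (δ * (q * (Real.sqrt 3 / 2))) := by
            have h4 : δ * (q * (Real.sqrt 3 / 2)) * (δ * (q * (Real.sqrt 3 / 2))) =
              δ ^ 2 * q ^ 2 * (Real.sqrt 3 ^ 2) / 4 := by ring
            rw [h4, h3]
            ring
        _ ≤ (8 / 10 * δ) ^ 2 := h1
        _ = δ ^ 2 * (8 / 10) ^ 2 := by ring
    exact le_of_mul_le_mul_left h2 (by positivity)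
  have hz2 : z = lat δ x + (δ : ℂ) * ((p : ℂ) + (q : ℂ) * om) := by
    rw [← hw2, hw]
    ring
  have e0 : lat δ (st 0) = (δ : ℂ) := by simp [lat, st]
  have e1 : lat δ (st 1) = (δ : ℂ) * om := by simp [lat, st]
  have e2 : lat δ (st 2) = (δ : ℂ) * (-1 + om) := by simp [lat, st]
  have e3 : lat δ (st 3) = - (δ : ℂ) := by simp [lat, st]
  have e4 : lat δ (st 4) = - ((δ : ℂ) * om) := by simp [lat, st]
  have e5 : lat δ (st 5) = (δ : ℂ) * (1 - om) := by simp [lat, st, sub_eq_add_neg]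
  rcases le_total 0 q with hq0 | hq0
  · rcases le_total 0 p with hp0 | hp0
    · refine mka_sec x 0 1 hp0 hq0 (mka_sum hn) ?_
      rw [hz2, e0, e1]
      ring
    · rcases le_total 0 (p + q) with hs | hs
      · refine mka_sec x 1 2 hs (neg_nonneg.2 hp0) (mka_sum (by nlinarith)) ?_
        rw [hz2, e1, e2]
        push_cast
        ring
      · refine mka_sec x 2 3 hq0 (neg_nonneg.2 hs) (mka_sum (by nlinarith)) ?_
        rw [hz2, e2, e3]
        push_cast
        ring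
  · rcases le_total 0 p with hp0 | hp0
    · rcases le_total 0 (p + q) with hs | hs
      · refine mka_sec x 5 0 (neg_nonneg.2 hq0) hs (mka_sum (by nlinarith)) ?_
        rw [hz2, e5, e0]
        push_cast
        ring
      · refine mka_sec x 4 5 (neg_nonneg.2 hs) hp0 (mka_sum (by nlinarith)) ?_
        rw [hz2, e4, e5]
        push_cast
        ring
    · refine mka_sec x 3 4 (neg_nonneg.2 hp0) (neg_nonneg.2 hq0) (mka_sum (by nlinarith)) ?_
      rw [hz2, e3, e4]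
      push_cast
      ring

theorem ball_hex_int {δ : ℝ} (hδ : 0 < δ) (x : ℤ × ℤ) :
    Metric.closedBall (lat δ x) (7 / 10 * δ) ⊆
      interior (convexHull ℝ (range fun i : Fin 6 => lat δ (x + st i))) :=
  (Metric.closedBall_subset_ball (by linarith)).trans
    (interior_maximal (Metric.ball_subset_closedBall.trans (ball_hex hδ x)) Metric.isOpen_ball)

theorem Appr.ball {Ω : Set ℂ} {δ : ℕ → ℝ} {D : ℕ → Finset (ℤ × ℤ)} (hA : Appr Ω δ D) (n : ℕ) :
    ∀ x ∈ D n, Metric.closedBall (lat (δ n) x) (7 / 10 * δ n) ⊆ Ω :=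
  fun x hx => (ball_hex_int (hA.pos n) x).trans (hA.inside n x hx)

/- END mka -/

/- MODULE mkb
`∫ XF (lap g) → 0`.  `L(p,q) = p + q om`, `lat δ x = L (lt δ x)`; `mean_lap` for `g ∘ L` and
`U' = L⁻¹(Ω')`, `tsupport g ⊆ Ω'` open with compact closure in `Ω` (exhaustion); `taylor_lap`:
`√3/2 δ² lap g = - (1/√3) Lap G + O(e δ²)`, `|mh| ≤ 1/2`, `card_lat`. -/
private theorem mkb_s3 : (0 : ℝ) < Real.sqrt 3 ∧ Real.sqrt 3 * Real.sqrt 3 = 3 :=
  ⟨Real.sqrt_pos.2 (by norm_num), Real.mul_self_sqrt (by norm_num)⟩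

/-- lattice coordinates -/
private def mkb_L : (ℝ × ℝ) ≃ₗ[ℝ] ℂ where
  toFun p := ⟨p.1 + p.2 / 2, p.2 * (Real.sqrt 3 / 2)⟩
  invFun z := (z.re - z.im / Real.sqrt 3, z.im * 2 / Real.sqrt 3)
  map_add' p q := by
    refine Complex.ext ?_ ?_
    · show (p + q).1 + (p + q).2 / 2 = (p.1 + p.2 / 2) + (q.1 + q.2 / 2)
      rw [Prod.fst_add, Prod.snd_add]
      ring
    · show (p + q).2 * (Real.sqrt 3 / 2) = p.2 * (Real.sqrt 3 / 2) + q.2 * (Real.sqrt 3 / 2)
      rw [Prod.snd_add]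
      ring
  map_smul' t p := by
    refine Complex.ext ?_ ?_
    · simp
      ring
    · simp
      ring
  left_inv p := by
    have h := mkb_s3
    refine Prod.ext ?_ ?_
    · show p.1 + p.2 / 2 - p.2 * (Real.sqrt 3 / 2) / Real.sqrt 3 = p.1
      have h0 := h.1.ne'
      field_simp
      ring
    · show p.2 * (Real.sqrt 3 / 2) * 2 / Real.sqrt 3 = p.2
      have h0 := h.1.ne'
      field_simp
  right_inv z := by
    have h := mkb_s3
    refine Complex.ext ?_ ?_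
    · show z.re - z.im / Real.sqrt 3 + z.im * 2 / Real.sqrt 3 / 2 = z.re
      ring
    · show z.im * 2 / Real.sqrt 3 * (Real.sqrt 3 / 2) = z.im
      have h0 := h.1.ne'
      field_simp

private theorem mkb_lat (δ : ℝ) (x : ℤ × ℤ) : mkb_L (lt δ x) = lat δ x := by
  refine Complex.ext ?_ ?_
  · show δ * (x.1 : ℝ) + δ * (x.2 : ℝ) / 2 = (lat δ x).re
    simp [lat, om]
    ring
  · show δ * (x.2 : ℝ) * (Real.sqrt 3 / 2) = (lat δ x).im
    simp [lat, om]
    ring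

private def mkb_E : (ℝ × ℝ) ≃L[ℝ] ℂ := mkb_L.toContinuousLinearEquiv

private theorem mkb_E_lat (δ : ℝ) (x : ℤ × ℤ) : mkb_E (lt δ x) = lat δ x := mkb_lat δ x

private theorem mkb_FG {D : Finset (ℤ × ℤ)} {b : ℤ × ℤ → ℝ} (hb : ∀ z, |b z| ≤ 1 / 2)
    (G : ℤ × ℤ → ℝ) : ∫ h, FG D b G h ∂(Mu D b) = ∑ x ∈ D, Lap G x * mh D b x := by
  have hp : IsProbabilityMeasure (Mu D b) := prob hb
  unfold FG mh
  rw [integral_finsetSum]
  · refine Finset.sum_congr rfl fun x _ => ?_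
    exact integral_const_mul _ _
  · intro x _
    exact ((gl_memLp hb x).integrable (by norm_num)).const_mul _

theorem mean_lap_c {σ : ℝ} (hI : Itf σ) {Ω : Set ℂ} (hΩ : IsOpen Ω)
    (hb : Bornology.IsBounded Ω) {δ : ℕ → ℝ} {D : ℕ → Finset (ℤ × ℤ)} (hA : Appr Ω δ D)
    {β : ℕ → ℤ × ℤ → ℝ} (hβ : ∀ n z, |β n z| ≤ 1 / 2) {g : ℂ → ℝ} (hg : CSC Ω g) :
    Tendsto (fun n => ∫ h, XF (D n) (δ n) (lap g) h ∂(Mu (D n) (β n))) atTop (𝓝 0) := by
  obtain ⟨R, hR⟩ := hb.subset_closedBall 0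
  set R₀ : ℝ := max R 1 with hR₀
  have hR1 : 1 ≤ R₀ := le_max_right _ _
  have hRΩ : ∀ z ∈ Ω, ‖z‖ ≤ R₀ := fun z hz => by
    have := hR hz
    rw [Metric.mem_closedBall, dist_zero_right] at this
    exact this.trans (le_max_left _ _)
  obtain ⟨C, hC, hcard⟩ := card_lat
  obtain ⟨V, hV, hgV, hVΩ, hVc⟩ := exists_open_between_and_isCompact_closure hg.cs hΩ hg.sub
  set g₂ : ℝ × ℝ → ℝ := fun p => g (mkb_E p) with hg₂
  have hsm : ContDiff ℝ ∞ g₂ := hg.sm.comp mkb_E.contDiff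
  have hcs : HasCompactSupport g₂ := hg.cs.comp_homeomorph mkb_E.toHomeomorph
  have hts : tsupport g₂ ⊆ mkb_E ⁻¹' V :=
    (tsupport_comp_subset_preimage g mkb_E.continuous).trans (preimage_mono hgV)
  set N : ℝ := ‖(mkb_E.symm : ℂ →L[ℝ] ℝ × ℝ)‖ + 1 with hN
  have hN0 : 0 < N := by positivity
  have hmem : ∀ n, ∀ x ∈ D n, lat (δ n) x ∈ Ω := fun n x hx =>
    hA.ball n x hx (Metric.mem_closedBall_self (by have := hA.pos n; positivity))
  have hlt : ∀ n, ∀ x ∈ D n, ‖lt (δ n) x‖ ≤ N * R₀ := by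
    intro n x hx
    have h1 : lt (δ n) x = mkb_E.symm (lat (δ n) x) := by
      rw [← mkb_E_lat, ContinuousLinearEquiv.symm_apply_apply]
    rw [h1]
    calc ‖mkb_E.symm (lat (δ n) x)‖
        ≤ ‖(mkb_E.symm : ℂ →L[ℝ] ℝ × ℝ)‖ * ‖lat (δ n) x‖ :=
          (mkb_E.symm : ℂ →L[ℝ] ℝ × ℝ).le_opNorm _
      _ ≤ N * R₀ := mul_le_mul (by rw [hN]; linarith) (hRΩ _ (hmem n x hx)) (norm_nonneg _) hN0.le
  rw [Metric.tendsto_nhds]
  intro ε hε
  obtain ⟨δ₀, hδ₀, H⟩ := mean_lap hI hsm hcs (hV.preimage mkb_E.continuous) hts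
    (R := N * R₀) (ε := ε / 3) (by positivity) (by positivity)
  set e : ℝ := ε / (3 * (C * R₀ ^ 2)) with he
  have he0 : 0 < e := by positivity
  obtain ⟨δ₁, hδ₁, T⟩ := taylor_lap hg.sm hg.cs he0
  filter_upwards [hA.lim.eventually (gt_mem_nhds hδ₀), hA.lim.eventually (gt_mem_nhds hδ₁),
    hA.lim.eventually (gt_mem_nhds one_pos), hA.exh _ hVc hVΩ] with n h1 h2 h3 h4
  have hpos := hA.pos n
  have hFG := H (δ n) hpos h1 (D n)
    (fun x hx => h4 x (subset_closure (by rw [← mkb_E_lat]; exact hx))) (hlt n) (β n) (hβ n)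
  have hGe : (fun x => g₂ (lt (δ n) x)) = fun x => g (lat (δ n) x) := by
    funext x
    show g (mkb_E (lt (δ n) x)) = _
    rw [mkb_E_lat]
  rw [hGe, mkb_FG (hβ n)] at hFG
  rw [dist_zero_right, Real.norm_eq_abs, mean_XF (hβ n)]
  set s : ℝ := (Real.sqrt 3)⁻¹ with hs
  have hs0 : 0 < s := inv_pos.2 mkb_s3.1
  have hs1 : s ≤ 1 := by
    rw [hs]
    refine inv_le_one_of_one_le₀ ?_
    rw [show (1 : ℝ) = Real.sqrt 1 by rw [Real.sqrt_one]]
    exact Real.sqrt_le_sqrt (by norm_num)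
  have hs2 : Real.sqrt 3 / 2 = s * (3 / 2) := by
    have h5 : s * (Real.sqrt 3 * Real.sqrt 3) = Real.sqrt 3 := by
      rw [hs, ← mul_assoc, inv_mul_cancel₀ mkb_s3.1.ne', one_mul]
    rw [mkb_s3.2] at h5
    linarith
  have hcn : ((D n).card : ℝ) ≤ C * (R₀ / δ n) ^ 2 :=
    hcard (δ n) R₀ hpos (h3.le.trans hR1) (D n) fun x hx => hRΩ _ (hmem n x hx)
  have e1 : Real.sqrt 3 / 2 * δ n ^ 2 * ∑ x ∈ D n, lap g (lat (δ n) x) * mh (D n) (β n) x =
      s * ∑ x ∈ D n, (Lap (fun y => g (lat (δ n) y)) x +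
        3 / 2 * δ n ^ 2 * lap g (lat (δ n) x)) * mh (D n) (β n) x -
      s * ∑ x ∈ D n, Lap (fun y => g (lat (δ n) y)) x * mh (D n) (β n) x := by
    rw [← mul_sub, ← Finset.sum_sub_distrib, hs2, mul_assoc, mul_assoc, Finset.mul_sum,
      Finset.mul_sum]
    congr 1
    refine Finset.sum_congr rfl fun x _ => ?_
    ring
  have e2 : |∑ x ∈ D n, (Lap (fun y => g (lat (δ n) y)) x +
        3 / 2 * δ n ^ 2 * lap g (lat (δ n) x)) * mh (D n) (β n) x| ≤ ε / 3 := by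
    calc _ ≤ ∑ x ∈ D n, |(Lap (fun y => g (lat (δ n) y)) x +
            3 / 2 * δ n ^ 2 * lap g (lat (δ n) x)) * mh (D n) (β n) x| :=
          Finset.abs_sum_le_sum_abs _ _
      _ ≤ ∑ _x ∈ D n, e * δ n ^ 2 := by
          refine Finset.sum_le_sum fun x _ => ?_
          rw [abs_mul]
          have h5 := T (δ n) hpos h2 x
          have h6 := mh_abs (D := D n) (hβ n) x
          have h7 : 0 ≤ e * δ n ^ 2 := by positivity
          calc _ ≤ e * δ n ^ 2 * (1 / 2) := mul_le_mul h5 h6 (abs_nonneg _) h7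
            _ ≤ e * δ n ^ 2 := by linarith
      _ = (D n).card * (e * δ n ^ 2) := by rw [Finset.sum_const, nsmul_eq_mul]
      _ ≤ C * (R₀ / δ n) ^ 2 * (e * δ n ^ 2) := by gcongr
      _ = ε / 3 := by
          rw [he]
          have h8 := hpos.ne'
          have h9 := hC.ne'
          have h10 : R₀ ≠ 0 := by positivity
          field_simp
  rw [e1]
  calc _ ≤ |s * ∑ x ∈ D n, (Lap (fun y => g (lat (δ n) y)) x +
        3 / 2 * δ n ^ 2 * lap g (lat (δ n) x)) * mh (D n) (β n) x| +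
        |s * ∑ x ∈ D n, Lap (fun y => g (lat (δ n) y)) x * mh (D n) (β n) x| := abs_sub _ _
    _ ≤ ε / 3 + ε / 3 := by
        rw [abs_mul, abs_mul, abs_of_pos hs0]
        refine add_le_add ?_ ?_
        · exact (mul_le_of_le_one_left (abs_nonneg _) hs1).trans e2
        · exact (mul_le_of_le_one_left (abs_nonneg _) hs1).trans hFG
    _ < ε := by linarith

/- END mkb -/

/- MODULE mkc
The boundary estimate in the limit: `bdry` with `b₀ = c` (constant; `mh_const`), `b₁ = β n`,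
`Z x = Z(lat δ x)` (`EI ≤ 6 (sup |∇Z|)² δ² card D ≤ C_Z`), `a x = √3/2 δ² φ(lat δ x)`,
`H = C GE + ε` (`dual_disc`, `Appr.ball`), `∑ a² ≤ C δ²`.  The condition of `bdry`: if `β n (x + st i) ≠ c`
then `lat (x + st i)` is within `e` of `A`, `lat x` within `e + δ`, so `Z = 0` there for `e`, `δ` small
(`Z = 0` on a neighbourhood of the closed set `A`; on the compact region of all `lat x` uniform). -/
private theorem mkc_int {D : Finset (ℤ × ℤ)} {b : ℤ × ℤ → ℝ} (hb : ∀ z, |b z| ≤ 1 / 2)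
    (w : ℤ × ℤ → ℝ) : ∫ h, ∑ x : D, w x * h x ∂(Mu D b) = ∑ x ∈ D, w x * mh D b x := by
  have hp : IsProbabilityMeasure (Mu D b) := prob hb
  have hi : ∀ x : D, Integrable (fun h : D → ℝ => h x) (Mu D b) := fun x => by
    have h1 : Integrable (fun h : D → ℝ => gl D b h x) (Mu D b) :=
      (gl_memLp hb x.1).integrable (by norm_num)
    simp only [gl_mem x.2] at h1
    exact h1
  rw [integral_finsetSum _ fun x _ => (hi x).const_mul _, ← Finset.sum_coe_sort D]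
  refine Finset.sum_congr rfl fun x _ => ?_
  rw [integral_const_mul]
  unfold mh
  simp only [gl_mem x.2]

/-- `Z` vanishes uniformly near `A` -/
private theorem mkc_near {A : Set ℂ} (hAc : IsClosed A) {Z : ℂ → ℝ} (hZc : HasCompactSupport Z)
    (hZA : ∀ᶠ z in 𝓝ˢ A, Z z = 0) :
    ∃ ρ : ℝ, 0 < ρ ∧ ∀ ζ ∈ A, ∀ z, ‖z - ζ‖ < ρ → Z z = 0 := by
  obtain ⟨U, hU, hAU, hUZ⟩ := (eventually_nhdsSet_iff_exists).1 hZA
  have hdis : Disjoint (tsupport Z) A := by
    have h1 : tsupport Z ⊆ Uᶜ := by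
      refine closure_minimal (fun z hz hzU => hz (hUZ z hzU)) hU.isClosed_compl
    exact Set.disjoint_left.2 fun z hz hzA => h1 hz (hAU hzA)
  obtain ⟨ρ, hρ, hd⟩ := hdis.exists_thickenings hZc hAc
  refine ⟨ρ, hρ, fun ζ hζ z hz => ?_⟩
  by_contra hne
  have h1 : z ∈ Metric.thickening ρ (tsupport Z) :=
    Metric.self_subset_thickening hρ _ (subset_tsupport Z hne)
  have h2 : z ∈ Metric.thickening ρ A :=
    Metric.mem_thickening_iff.2 ⟨ζ, hζ, by rwa [dist_eq_norm]⟩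
  exact Set.disjoint_left.1 hd h1 h2

theorem bdry_lim {Ω : Set ℂ} (hΩ : IsOpen Ω) (hb : Bornology.IsBounded Ω) {δ : ℕ → ℝ}
    {D : ℕ → Finset (ℤ × ℤ)} (hA : Appr Ω δ D) {β : ℕ → ℤ × ℤ → ℝ} (hβ : ∀ n z, |β n z| ≤ 1 / 2)
    {c : ℝ} (hc : |c| ≤ 1 / 2) {A : Set ℂ} (hAc : IsClosed A)
    (hn : ∀ e : ℝ, 0 < e → ∀ᶠ n in atTop, ∀ x ∈ D n, ∀ i, x + st i ∉ D n →
      β n (x + st i) ≠ c → ∃ ζ ∈ A, ‖lat (δ n) (x + st i) - ζ‖ < e)
    {Z : ℂ → ℝ} (hZ : ContDiff ℝ ∞ Z) (hZc : HasCompactSupport Z) (hZ0 : ∀ z, 0 ≤ Z z)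
    (hZA : ∀ᶠ z in 𝓝ˢ A, Z z = 0) :
    ∃ C : ℝ, 0 ≤ C ∧ ∀ φ : ℂ → ℝ, CSC Ω φ → ∀ ε : ℝ, 0 < ε → ∀ᶠ n in atTop,
      |Real.sqrt 3 / 2 * δ n ^ 2 * ∑ x ∈ D n, φ (lat (δ n) x) * Z (lat (δ n) x) *
        (c - mh (D n) (β n) x)| ≤ C * Real.sqrt (GE Ω φ) + ε := by
  obtain ⟨R, hR⟩ := hb.subset_closedBall 0
  set R₀ : ℝ := max R 1 with hR₀
  have hR1 : 1 ≤ R₀ := le_max_right _ _
  have hRΩ : ∀ z ∈ Ω, ‖z‖ ≤ R₀ := fun z hz => by
    have := hR hz
    rw [Metric.mem_closedBall, dist_zero_right] at this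
    exact this.trans (le_max_left _ _)
  obtain ⟨C₁, hC₁, hcard⟩ := card_lat
  obtain ⟨C₂, hC₂, hbd⟩ := bdry
  obtain ⟨C₃, hC₃, hdd⟩ := dual_disc
  obtain ⟨L, hL⟩ := hZ.lipschitzWith_of_hasCompactSupport hZc (by simp)
  obtain ⟨ρ, hρ, hρZ⟩ := mkc_near hAc hZc hZA
  have hmem : ∀ n, ∀ x ∈ D n, lat (δ n) x ∈ Ω := fun n x hx =>
    hA.ball n x hx (Metric.mem_closedBall_self (by have := hA.pos n; positivity))
  -- the energy of `Z`
  set E : ℝ := 6 * (L : ℝ) ^ 2 * (C₁ * R₀ ^ 2) with hE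
  have hE0 : 0 ≤ E := by positivity
  have hEI : ∀ n, δ n < 1 → EI (D n) (fun x => Z (lat (δ n) x)) ≤ E := by
    intro n hn1
    have hpos := hA.pos n
    have hcn : ((D n).card : ℝ) ≤ C₁ * (R₀ / δ n) ^ 2 :=
      hcard (δ n) R₀ hpos (hn1.le.trans hR1) (D n) fun x hx => hRΩ _ (hmem n x hx)
    calc EI (D n) (fun x => Z (lat (δ n) x)) ≤ ∑ x ∈ D n, ∑ _i : Fin 6, ((L : ℝ) * δ n) ^ 2 := by
          unfold EI
          refine Finset.sum_le_sum fun x _ => Finset.sum_le_sum fun i _ => ?_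
          have h1 := hL.dist_le_mul (lat (δ n) x) (lat (δ n) (x + st i))
          rw [Real.dist_eq, dist_eq_norm, lat_add, sub_add_cancel_left, norm_neg,
            norm_st hpos.le i] at h1
          rw [← sq_abs (Z (lat (δ n) x) - Z (lat (δ n) (x + st i))), lat_add]
          exact pow_le_pow_left₀ (abs_nonneg _) h1 2
      _ = (D n).card * (6 * ((L : ℝ) * δ n) ^ 2) := by
          simp only [Finset.sum_const, Finset.card_univ, Fintype.card_fin, nsmul_eq_mul]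
          push_cast
          ring
      _ ≤ C₁ * (R₀ / δ n) ^ 2 * (6 * ((L : ℝ) * δ n) ^ 2) := by gcongr
      _ = E := by
          rw [hE]
          have h8 := hpos.ne'
          field_simp
  set C : ℝ := C₂ * Real.sqrt E * Real.sqrt C₃ with hC
  have hC0 : 0 ≤ C := by positivity
  refine ⟨C, hC0, fun φ hφ ε hε => ?_⟩
  obtain ⟨M, hM⟩ := hφ.cs.exists_bound_of_continuous hφ.sm.continuous
  -- small quantities
  set t : ℝ := ε / (2 * (C₂ * Real.sqrt E + 1)) with ht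
  have hk0 : 0 ≤ C₂ * Real.sqrt E := by positivity
  have ht0 : 0 < t := by positivity
  have htk : C₂ * Real.sqrt E * (t + t) ≤ ε := by
    rw [ht]
    have h1 : 0 < C₂ * Real.sqrt E + 1 := by positivity
    have h2 : C₂ * Real.sqrt E * (ε / (2 * (C₂ * Real.sqrt E + 1)) +
        ε / (2 * (C₂ * Real.sqrt E + 1))) = ε * (C₂ * Real.sqrt E / (C₂ * Real.sqrt E + 1)) := by
      field_simp
      ring
    rw [h2]
    have h3 : C₂ * Real.sqrt E / (C₂ * Real.sqrt E + 1) ≤ 1 := by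
      rw [div_le_one h1]
      linarith
    nlinarith
  obtain ⟨δ₀, hδ₀, hdd'⟩ := hdd Ω hΩ hb φ hφ (t ^ 2) (by positivity)
  have hlim2 : Tendsto (fun n => C₁ * R₀ ^ 2 * M ^ 2 * δ n ^ 2) atTop (𝓝 0) := by
    have h1 := (hA.lim.pow 2).const_mul (C₁ * R₀ ^ 2 * M ^ 2)
    simpa using h1
  filter_upwards [hA.lim.eventually (gt_mem_nhds hδ₀), hA.lim.eventually (gt_mem_nhds one_pos),
    hA.lim.eventually (gt_mem_nhds (half_pos hρ)), hn (ρ / 2) (half_pos hρ),
    hlim2.eventually (gt_mem_nhds (show 0 < t ^ 2 by positivity))] with n h1 h2 h3 h4 h5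
  have hpos := hA.pos n
  have hcn : ((D n).card : ℝ) ≤ C₁ * (R₀ / δ n) ^ 2 :=
    hcard (δ n) R₀ hpos (h2.le.trans hR1) (D n) fun x hx => hRΩ _ (hmem n x hx)
  set a : ℤ × ℤ → ℝ := fun x => Real.sqrt 3 / 2 * δ n ^ 2 * φ (lat (δ n) x) with ha
  have key := hbd (D n) (fun _ => c) (β n) (fun _ => hc) (hβ n) (fun x => Z (lat (δ n) x))
    (fun x => hZ0 _) (fun x hx i hi hne => by
      obtain ⟨ζ, hζ, hζ2⟩ := h4 x hx i hi hne
      refine hρZ ζ hζ _ ?_
      have h6 : lat (δ n) x - ζ = (lat (δ n) (x + st i) - ζ) - lat (δ n) (st i) := by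
        rw [lat_add]
        ring
      calc ‖lat (δ n) x - ζ‖ = ‖(lat (δ n) (x + st i) - ζ) - lat (δ n) (st i)‖ := by rw [h6]
        _ ≤ ‖lat (δ n) (x + st i) - ζ‖ + ‖lat (δ n) (st i)‖ := norm_sub_le _ _
        _ < ρ := by
          rw [norm_st hpos.le i]
          linarith) a (C₃ * GE Ω φ + t ^ 2) (fun v hv => hdd' (δ n) hpos h1 (D n) (hA.ball n) v hv)
  have hI : ∀ b : ℤ × ℤ → ℝ, (∀ z, |b z| ≤ 1 / 2) →
      ∫ h, ∑ x : D n, a x * Z (lat (δ n) x) * h x ∂(Mu (D n) b) =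
        ∑ x ∈ D n, a x * Z (lat (δ n) x) * mh (D n) b x := fun b hb' =>
    mkc_int hb' (fun x => a x * Z (lat (δ n) x))
  rw [hI _ (hβ n), hI _ (fun _ => hc)] at key
  have e1 : Real.sqrt 3 / 2 * δ n ^ 2 * ∑ x ∈ D n, φ (lat (δ n) x) * Z (lat (δ n) x) *
      (c - mh (D n) (β n) x) = - (∑ x ∈ D n, a x * Z (lat (δ n) x) * mh (D n) (β n) x -
        ∑ x ∈ D n, a x * Z (lat (δ n) x) * mh (D n) (fun _ => c) x) := by
    rw [← Finset.sum_sub_distrib, ← Finset.sum_neg_distrib, Finset.mul_sum]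
    refine Finset.sum_congr rfl fun x _ => ?_
    rw [mh_const hc, ha]
    ring
  rw [e1, abs_neg]
  refine key.trans ?_
  have hs1 : Real.sqrt (∑ x ∈ D n, a x ^ 2) ≤ t := by
    refine Real.sqrt_le_iff.2 ⟨ht0.le, ?_⟩
    calc ∑ x ∈ D n, a x ^ 2 ≤ ∑ _x ∈ D n, δ n ^ 4 * M ^ 2 := by
          refine Finset.sum_le_sum fun x _ => ?_
          rw [ha]
          have h7 : (Real.sqrt 3 / 2 * δ n ^ 2 * φ (lat (δ n) x)) ^ 2 =
              3 / 4 * (δ n ^ 4 * φ (lat (δ n) x) ^ 2) := by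
            have h8 : Real.sqrt 3 ^ 2 = 3 := Real.sq_sqrt (by norm_num)
            calc _ = Real.sqrt 3 ^ 2 / 4 * (δ n ^ 4 * φ (lat (δ n) x) ^ 2) := by ring
              _ = _ := by rw [h8]
          show (Real.sqrt 3 / 2 * δ n ^ 2 * φ (lat (δ n) x)) ^ 2 ≤ _
          rw [h7]
          have h9 : φ (lat (δ n) x) ^ 2 ≤ M ^ 2 := by
            have h10 := hM (lat (δ n) x)
            rw [Real.norm_eq_abs] at h10
            rw [← sq_abs (φ _)]
            exact pow_le_pow_left₀ (abs_nonneg _) h10 2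
          have h11 : 0 ≤ δ n ^ 4 * φ (lat (δ n) x) ^ 2 := by positivity
          have h12 : δ n ^ 4 * φ (lat (δ n) x) ^ 2 ≤ δ n ^ 4 * M ^ 2 :=
            mul_le_mul_of_nonneg_left h9 (by positivity)
          linarith
      _ = (D n).card * (δ n ^ 4 * M ^ 2) := by rw [Finset.sum_const, nsmul_eq_mul]
      _ ≤ C₁ * (R₀ / δ n) ^ 2 * (δ n ^ 4 * M ^ 2) := by gcongr
      _ = C₁ * R₀ ^ 2 * M ^ 2 * δ n ^ 2 := by
          have h8 := hpos.ne'
          field_simp
      _ ≤ t ^ 2 := h5.le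
  have hs2 : Real.sqrt (C₃ * GE Ω φ + t ^ 2) ≤ Real.sqrt C₃ * Real.sqrt (GE Ω φ) + t := by
    have hG := GE_nonneg hb hφ
    rw [← Real.sqrt_mul hC₃.le]
    refine Real.sqrt_le_iff.2 ⟨by positivity, ?_⟩
    have h6 : 0 ≤ C₃ * GE Ω φ := by positivity
    have h7 := Real.sq_sqrt h6
    have h8 := Real.sqrt_nonneg (C₃ * GE Ω φ)
    nlinarith
  have hs3 : Real.sqrt (EI (D n) (fun x => Z (lat (δ n) x))) ≤ Real.sqrt E :=
    Real.sqrt_le_sqrt (hEI n h2)
  calc C₂ * Real.sqrt (EI (D n) (fun x => Z (lat (δ n) x))) *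
        (Real.sqrt (C₃ * GE Ω φ + t ^ 2) + Real.sqrt (∑ x ∈ D n, a x ^ 2))
      ≤ C₂ * Real.sqrt E * ((Real.sqrt C₃ * Real.sqrt (GE Ω φ) + t) + t) := by gcongr
    _ = C * Real.sqrt (GE Ω φ) + C₂ * Real.sqrt E * (t + t) := by
        rw [hC]
        ring
    _ ≤ C * Real.sqrt (GE Ω φ) + ε := by linarith

/- END mkc -/

/- MODULE mkd
ABSTRACT MEAN LEMMA.  `V n` additive functionals on `CSC Ω` with (a) `limsup |V n f| ≤ ∫ |f|`,
(b) `V n (lap g) → 0`, (c) for every cut-off `Z` near `a`, `b`: `|V n (Z φ)| ≤ C_Z GE(φ)^{1/2} + ε`.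
Then `V n φ → 0`.  Proof: `|φ| ≤ C₀`, `M` the bound of `near_max`, `G = GE φ`.  Given `e` take `Z` from
`two_cut` and then `g` from `near_max` with `η` so small that `C_Z η^{1/2} ≤ e`, `η ≤ 1`; `f = φ + lap g`,
`GE f ≤ η` (`GE_res`), `dirE g ≤ (G^{1/2} + 1)²` (`dirE_near`).  By `lap_mul`
`φ = (1 - Z) φ + Z f - lap (Z g) + (2 gin Z g + g lap Z)`, where `(1 - Z) φ` and the last bracket are
in `CSC Ω`, `∫ |(1 - Z) φ| ≤ C₀ 2 π e²`, `∫ |2 gin Z g| ≤ 2 (dirE Z)^{1/2} (dirE g)^{1/2}`,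
`∫ |g lap Z| ≤ M e`; so `limsup |V n φ| ≤ C (e + e^{1/2})`. -/
private theorem mkd_mul {Ω : Set ℂ} {Z φ : ℂ → ℝ} (hZ : ContDiff ℝ ∞ Z) (hφ : CSC Ω φ) :
    CSC Ω (fun z => Z z * φ z) := by
  refine ⟨hZ.mul hφ.sm, hφ.cs.mul_left, ?_⟩
  refine (closure_minimal (fun z hz => ?_) (isClosed_tsupport φ)).trans hφ.sub
  by_contra hn
  apply hz
  show Z z * φ z = 0
  rw [image_eq_zero_of_notMem_tsupport hn, mul_zero]

private theorem mkd_lap {Ω : Set ℂ} {g : ℂ → ℝ} (hg : CSC Ω g) : CSC Ω (lap g) :=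
  ⟨sm_lap hg.sm, hg.cs.of_isClosed_subset (isClosed_tsupport _) (tsupport_lap g),
    (tsupport_lap g).trans hg.sub⟩

private theorem mkd_gin {Ω : Set ℂ} {Z g : ℂ → ℝ} (hZ : ContDiff ℝ ∞ Z) (hg : CSC Ω g) :
    CSC Ω (fun z => 2 * gin Z g z + g z * lap Z z) := by
  have hsub : tsupport (fun z => 2 * gin Z g z + g z * lap Z z) ⊆ tsupport g := by
    refine closure_minimal (fun z hz => ?_) (isClosed_tsupport g)
    by_contra hn
    apply hz
    have h0 : ∀ v : ℂ, fderiv ℝ g z v = 0 := fun v =>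
      image_eq_zero_of_notMem_tsupport (f := fun z => fderiv ℝ g z v)
        (fun h => hn (tsupport_fd g v h))
    show 2 * gin Z g z + g z * lap Z z = 0
    unfold gin
    rw [h0, h0, image_eq_zero_of_notMem_tsupport hn]
    ring
  refine ⟨?_, hg.cs.of_isClosed_subset (isClosed_tsupport _) hsub, hsub.trans hg.sub⟩
  unfold gin
  exact (contDiff_const.mul (((sm_fd hZ 1).mul (sm_fd hg.sm 1)).add
    ((sm_fd hZ Complex.I).mul (sm_fd hg.sm Complex.I)))).add (hg.sm.mul (sm_lap hZ))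

private theorem mkd_far {Z : ℂ → ℝ} {a b : ℂ} {e : ℝ}
    (hZ1 : ∀ z, e ≤ ‖z - a‖ → e ≤ ‖z - b‖ → Z z = 1) (z : ℂ)
    (ha : z ∉ Metric.closedBall a e) (hb : z ∉ Metric.closedBall b e) :
    (∀ v : ℂ, fderiv ℝ Z z v = 0) ∧ lap Z z = 0 := by
  have hU : IsOpen ((Metric.closedBall a e)ᶜ ∩ (Metric.closedBall b e)ᶜ) :=
    Metric.isClosed_closedBall.isOpen_compl.inter Metric.isClosed_closedBall.isOpen_compl
  have h1 : ∀ y ∈ (Metric.closedBall a e)ᶜ ∩ (Metric.closedBall b e)ᶜ,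
      ∀ v : ℂ, fderiv ℝ Z y v = 0 := by
    intro y hy v
    have h2 : Z =ᶠ[𝓝 y] fun _ => (1 : ℝ) := by
      filter_upwards [hU.mem_nhds hy] with w hw
      refine hZ1 w ?_ ?_
      · have := hw.1
        rw [mem_compl_iff, Metric.mem_closedBall, dist_eq_norm, not_le] at this
        exact this.le
      · have := hw.2
        rw [mem_compl_iff, Metric.mem_closedBall, dist_eq_norm, not_le] at this
        exact this.le
    rw [h2.fderiv_eq]
    simp
  refine ⟨h1 z ⟨ha, hb⟩, ?_⟩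
  have h3 : ∀ v w : ℂ, fderiv ℝ (fun y => fderiv ℝ Z y v) z w = 0 := by
    intro v w
    have h4 : (fun y => fderiv ℝ Z y v) =ᶠ[𝓝 z] fun _ => (0 : ℝ) := by
      filter_upwards [hU.mem_nhds ⟨ha, hb⟩] with y hy
      exact h1 y hy v
    rw [h4.fderiv_eq]
    simp
  unfold lap
  rw [h3, h3, add_zero]

private theorem mkd_int {Z : ℂ → ℝ} (hZ : ContDiff ℝ ∞ Z) {a b : ℂ} {e : ℝ}
    (hZ1 : ∀ z, e ≤ ‖z - a‖ → e ≤ ‖z - b‖ → Z z = 1) :
    Integrable (gsq Z) ∧ Integrable (fun z => |lap Z z|) := by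
  have hK : IsCompact (Metric.closedBall a e ∪ Metric.closedBall b e) :=
    (isCompact_closedBall a e).union (isCompact_closedBall b e)
  constructor
  · refine int_cs (sm_gsq hZ).continuous (HasCompactSupport.intro hK fun z hz => ?_)
    have := (mkd_far hZ1 z (fun h => hz (Or.inl h)) (fun h => hz (Or.inr h))).1
    unfold gsq
    rw [this, this]
    simp
  · refine int_cs (sm_lap hZ).continuous.abs (HasCompactSupport.intro hK fun z hz => ?_)
    rw [(mkd_far hZ1 z (fun h => hz (Or.inl h)) (fun h => hz (Or.inr h))).2, abs_zero]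

theorem mean_abs {Ω : Set ℂ} (hΩ : IsOpen Ω) (hb : Bornology.IsBounded Ω) {a b : ℂ}
    (hab : a ≠ b) (V : ℕ → (ℂ → ℝ) → ℝ)
    (hadd : ∀ n f g, CSC Ω f → CSC Ω g → V n (fun z => f z + g z) = V n f + V n g)
    (hneg : ∀ n f, CSC Ω f → V n (fun z => - f z) = - V n f)
    (h1 : ∀ f, CSC Ω f → ∀ ε : ℝ, 0 < ε → ∀ᶠ n in atTop, |V n f| ≤ (∫ z, |f z|) + ε)
    (h2 : ∀ g, CSC Ω g → Tendsto (fun n => V n (lap g)) atTop (𝓝 0))
    (h3 : ∀ Z : ℂ → ℝ, ContDiff ℝ ∞ Z → (∀ z, 0 ≤ Z z) → (∀ᶠ z in 𝓝 a, Z z = 0) →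
      (∀ᶠ z in 𝓝 b, Z z = 0) → ∃ C : ℝ, ∀ φ, CSC Ω φ → ∀ ε : ℝ, 0 < ε →
        ∀ᶠ n in atTop, |V n (fun z => Z z * φ z)| ≤ C * Real.sqrt (GE Ω φ) + ε)
    {φ : ℂ → ℝ} (hφ : CSC Ω φ) : Tendsto (fun n => V n φ) atTop (𝓝 0) := by
  obtain ⟨R, hR⟩ := hb.subset_closedBall (0 : ℂ)
  obtain ⟨C0, hC0⟩ := hφ.cs.exists_bound_of_continuous hφ.sm.continuous
  have hC00 : 0 ≤ C0 := (norm_nonneg _).trans (hC0 0)
  have hRr : ∀ z ∈ Ω, ‖z‖ ≤ |R| := fun z hz => by
    have := hR hz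
    rw [mem_closedBall_zero_iff] at this
    exact this.trans (le_abs_self R)
  set G := GE Ω φ with hG
  have hG0 : 0 ≤ G := GE_nonneg hb hφ
  set M : ℝ := C0 * |R| ^ 2 + 2 with hM
  have hM0 : 0 ≤ M := by positivity
  set K : ℝ := 2 * Real.pi * C0 + 1 + (1 + (Real.sqrt G + 1) ^ 2) + M with hK
  rw [Metric.tendsto_atTop]
  intro ε hε
  have hlim1 : Tendsto (fun e : ℝ => K * Real.sqrt e) (𝓝[>] 0) (𝓝 0) := by
    have : Tendsto (fun e : ℝ => K * Real.sqrt e) (𝓝 0) (𝓝 (K * Real.sqrt 0)) := by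
      refine Continuous.tendsto ?_ 0
      fun_prop
    simp only [mul_zero, Real.sqrt_zero] at this
    exact this.mono_left nhdsWithin_le_nhds
  obtain ⟨e, ⟨he1, he2⟩, he0⟩ := (((hlim1.eventually (gt_mem_nhds (show (0 : ℝ) < ε / 2 by
    positivity))).and (eventually_nhdsWithin_of_eventually_nhds (gt_mem_nhds (one_pos)))).and
    self_mem_nhdsWithin).exists
  have he : (0 : ℝ) < e := he0
  obtain ⟨Z, hZs, hZ01, hZa, hZb, hZ1, hZE, hZL⟩ := two_cut hab he
  obtain ⟨CZ, hCZ⟩ := h3 Z hZs (fun z => (hZ01 z).1) hZa hZb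
  set q : ℝ := e / (|CZ| + 1) with hq
  have hq0 : 0 < q := by positivity
  set η : ℝ := min 1 (q ^ 2) with hη
  have hη0 : 0 < η := lt_min one_pos (by positivity)
  have hη1 : η ≤ 1 := min_le_left _ _
  have hηq : Real.sqrt η ≤ q := by
    rw [← Real.sqrt_sq hq0.le]
    exact Real.sqrt_le_sqrt (min_le_right _ _)
  obtain ⟨g, hg, hgM, hgJ⟩ := near_max hRr (abs_nonneg R) hφ (fun z => hC0 z) hη0
  obtain ⟨hf, hfG⟩ := GE_res hb hφ hg
  have hfη : GE Ω (fun z => φ z + lap g z) ≤ η := by linarith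
  have hd := dirE_near hb hφ hg
  have hd2 : (Real.sqrt G - Real.sqrt (dirE g)) ^ 2 ≤ 1 := by linarith
  have hgE : 0 ≤ dirE g := integral_nonneg fun z => add_nonneg (sq_nonneg _) (sq_nonneg _)
  have hdg : dirE g ≤ (Real.sqrt G + 1) ^ 2 := by
    have a1 := abs_le_of_sq_le_sq (a := Real.sqrt G - Real.sqrt (dirE g)) (b := 1)
      (by rw [one_pow]; exact hd2) zero_le_one
    have a2 := (abs_le.1 a1).1
    rw [← Real.sq_sqrt hgE]
    exact pow_le_pow_left₀ (Real.sqrt_nonneg _) (by linarith) 2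
  -- the four pieces
  have hA : CSC Ω (fun z => (1 - Z z) * φ z) := mkd_mul (contDiff_const.sub hZs) hφ
  have hB : CSC Ω (fun z => Z z * (φ z + lap g z)) := mkd_mul hZs hf
  have hZg : CSC Ω (fun z => Z z * g z) := mkd_mul hZs hg
  have hL : CSC Ω (lap (fun z => Z z * g z)) := mkd_lap hZg
  have hE := mkd_gin hZs hg
  have hnL : CSC Ω (fun z => - lap (fun z => Z z * g z) z) := by
    have := mkd_mul (Z := fun _ => (-1 : ℝ)) contDiff_const hL
    simpa only [neg_mul, one_mul] using this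
  have hsum2 : CSC Ω (fun z => - lap (fun z => Z z * g z) z +
      (2 * gin Z g z + g z * lap Z z)) :=
    ⟨hnL.sm.add hE.sm, hnL.cs.add hE.cs,
      (tsupport_add _ _).trans (union_subset hnL.sub hE.sub)⟩
  have hsum1 : CSC Ω (fun z => (1 - Z z) * φ z + Z z * (φ z + lap g z)) :=
    ⟨hA.sm.add hB.sm, hA.cs.add hB.cs,
      (tsupport_add _ _).trans (union_subset hA.sub hB.sub)⟩
  have hid : φ = fun z => ((1 - Z z) * φ z + Z z * (φ z + lap g z)) +
      (- lap (fun z => Z z * g z) z + (2 * gin Z g z + g z * lap Z z)) := by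
    funext z
    rw [lap_mul hZs hg.sm z]
    ring
  have hVn : ∀ n, V n φ = (V n (fun z => (1 - Z z) * φ z) + V n (fun z => Z z * (φ z + lap g z))) +
      (- V n (lap (fun z => Z z * g z)) + V n (fun z => 2 * gin Z g z + g z * lap Z z)) := by
    intro n
    conv_lhs => rw [hid]
    rw [hadd n _ _ hsum1 hsum2, hadd n _ _ hA hB, hadd n _ _ hnL hE, hneg n _ hL]
  -- bounds
  have hse : e ≤ Real.sqrt e := by
    have := Real.sq_sqrt he.le
    have h1' : Real.sqrt e ≤ 1 := by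
      rw [Real.sqrt_le_one]
      exact he2.le
    nlinarith [Real.sqrt_nonneg e]
  have hse0 : 0 < Real.sqrt e := Real.sqrt_pos.2 he
  have hintA : ∫ z, |(1 - Z z) * φ z| ≤ 2 * Real.pi * C0 * Real.sqrt e := by
    have hvol : ∀ c : ℂ, ∫ z, (Metric.ball c e).indicator (fun _ => C0) z = Real.pi * C0 * e ^ 2 := by
      intro c
      rw [integral_indicator_const _ Metric.isOpen_ball.measurableSet, smul_eq_mul,
        measureReal_def, Complex.volume_ball]
      simp only [ENNReal.toReal_mul, ENNReal.toReal_pow, ENNReal.toReal_ofReal he.le,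
        ENNReal.coe_toReal, NNReal.coe_real_pi]
      ring
    have hii : ∀ c : ℂ, Integrable ((Metric.ball c e).indicator (fun _ => C0)) := fun c =>
      (integrable_indicator_iff Metric.isOpen_ball.measurableSet).2
        (integrableOn_const (hs := measure_ball_lt_top.ne))
    have hle : ∫ z, |(1 - Z z) * φ z| ≤ ∫ z, ((Metric.ball a e).indicator (fun _ => C0) z +
        (Metric.ball b e).indicator (fun _ => C0) z) := by
      refine integral_mono (int_cs hA.sm.continuous hA.cs).abs ((hii a).add (hii b)) fun z => ?_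
      show |(1 - Z z) * φ z| ≤ (Metric.ball a e).indicator (fun _ => C0) z +
        (Metric.ball b e).indicator (fun _ => C0) z
      have hZle : |(1 - Z z) * φ z| ≤ C0 := by
        rw [abs_mul]
        have b1 : |1 - Z z| ≤ 1 := by
          rw [abs_le]
          constructor <;> linarith [(hZ01 z).1, (hZ01 z).2]
        calc |1 - Z z| * |φ z| ≤ 1 * C0 :=
              mul_le_mul b1 (hC0 z) (abs_nonneg _) zero_le_one
          _ = C0 := one_mul _
      have n1 : 0 ≤ (Metric.ball a e).indicator (fun _ => C0) z :=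
        indicator_nonneg (fun _ _ => hC00) z
      have n2 : 0 ≤ (Metric.ball b e).indicator (fun _ => C0) z :=
        indicator_nonneg (fun _ _ => hC00) z
      by_cases hza : z ∈ Metric.ball a e
      · rw [indicator_of_mem hza]
        linarith
      · by_cases hzb : z ∈ Metric.ball b e
        · rw [indicator_of_mem hzb]
          linarith
        · rw [Metric.mem_ball, dist_eq_norm, not_lt] at hza hzb
          rw [hZ1 z hza hzb]
          simp only [sub_self, zero_mul, abs_zero]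
          exact add_nonneg n1 n2
    rw [integral_add (hii a) (hii b), hvol, hvol] at hle
    refine hle.trans ?_
    have : e ^ 2 ≤ Real.sqrt e := by nlinarith
    nlinarith [mul_le_mul_of_nonneg_left this (mul_nonneg Real.pi_pos.le hC00)]
  have hintE : ∫ z, |2 * gin Z g z + g z * lap Z z| ≤
      (1 + (Real.sqrt G + 1) ^ 2 + M) * Real.sqrt e := by
    obtain ⟨iZ, iL⟩ := mkd_int hZs hZ1
    have ig : Integrable (gsq g) :=
      int_cs (sm_gsq hg.sm).continuous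
        (hg.cs.of_isClosed_subset (isClosed_tsupport _) (tsupport_gsq g))
    have i1 : Integrable (fun z => (Real.sqrt e)⁻¹ * gsq Z z) := iZ.const_mul _
    have i2 : Integrable (fun z => Real.sqrt e * gsq g z) := ig.const_mul _
    have i3 : Integrable (fun z => M * |lap Z z|) := iL.const_mul _
    have i12 : Integrable (fun z => (Real.sqrt e)⁻¹ * gsq Z z + Real.sqrt e * gsq g z) := i1.add i2
    have hle : ∫ z, |2 * gin Z g z + g z * lap Z z| ≤
        ∫ z, ((Real.sqrt e)⁻¹ * gsq Z z + Real.sqrt e * gsq g z + M * |lap Z z|) := by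
      refine integral_mono (int_cs hE.sm.continuous hE.cs).abs (i12.add i3) fun z => ?_
      show |2 * gin Z g z + g z * lap Z z| ≤
        (Real.sqrt e)⁻¹ * gsq Z z + Real.sqrt e * gsq g z + M * |lap Z z|
      have b1 : |g z * lap Z z| ≤ M * |lap Z z| := by
        rw [abs_mul]
        exact mul_le_mul_of_nonneg_right (hgM z) (abs_nonneg _)
      have b2 : |2 * gin Z g z| ≤ (Real.sqrt e)⁻¹ * gsq Z z + Real.sqrt e * gsq g z := by
        have key : ∀ s t : ℝ, 2 * |s * t| ≤ (Real.sqrt e)⁻¹ * s ^ 2 + Real.sqrt e * t ^ 2 := by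
          intro s t
          have hr : Real.sqrt e * (Real.sqrt e)⁻¹ = 1 := mul_inv_cancel₀ hse0.ne'
          rw [abs_mul, ← sq_abs s, ← sq_abs t]
          have e1 : (Real.sqrt e)⁻¹ * |s| ^ 2 + Real.sqrt e * |t| ^ 2 - 2 * (|s| * |t|) =
              (Real.sqrt e)⁻¹ * (|s| - Real.sqrt e * |t|) ^ 2 := by
            linear_combination (2 * |s| * |t| - Real.sqrt e * |t| ^ 2) * hr
          have : 0 ≤ (Real.sqrt e)⁻¹ * (|s| - Real.sqrt e * |t|) ^ 2 := by positivity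
          linarith
        unfold gin gsq
        have k1 := key (fderiv ℝ Z z 1) (fderiv ℝ g z 1)
        have k2 := key (fderiv ℝ Z z Complex.I) (fderiv ℝ g z Complex.I)
        have k3 := abs_add_le (fderiv ℝ Z z 1 * fderiv ℝ g z 1)
          (fderiv ℝ Z z Complex.I * fderiv ℝ g z Complex.I)
        rw [abs_mul, abs_of_pos (two_pos : (0 : ℝ) < 2)]
        linarith
      exact (abs_add_le _ _).trans (add_le_add b2 b1)
    rw [integral_add i12 i3, integral_add i1 i2, integral_const_mul, integral_const_mul,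
      integral_const_mul] at hle
    refine hle.trans ?_
    have c1 : (Real.sqrt e)⁻¹ * (∫ z, gsq Z z) ≤ Real.sqrt e := by
      rw [inv_mul_le_iff₀ hse0]
      have : Real.sqrt e * Real.sqrt e = e := Real.mul_self_sqrt he.le
      rw [this]
      exact hZE
    have c2 : Real.sqrt e * (∫ z, gsq g z) ≤ Real.sqrt e * (Real.sqrt G + 1) ^ 2 :=
      mul_le_mul_of_nonneg_left hdg hse0.le
    have c3 : M * (∫ z, |lap Z z|) ≤ M * Real.sqrt e :=
      mul_le_mul_of_nonneg_left (hZL.trans hse) hM0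
    linarith
  have hB' : CZ * Real.sqrt (GE Ω (fun z => φ z + lap g z)) ≤ Real.sqrt e := by
    have b1 : Real.sqrt (GE Ω (fun z => φ z + lap g z)) ≤ q :=
      (Real.sqrt_le_sqrt hfη).trans hηq
    have b2 : CZ * Real.sqrt (GE Ω (fun z => φ z + lap g z)) ≤ |CZ| * q :=
      mul_le_mul (le_abs_self _) b1 (Real.sqrt_nonneg _) (abs_nonneg _)
    have b3 : |CZ| * q ≤ e := by
      rw [hq, mul_div_assoc', div_le_iff₀ (by positivity)]
      nlinarith [abs_nonneg CZ]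
    linarith
  have ev1 := h1 _ hA (ε / 16) (by positivity)
  have ev2 := hCZ _ hf (ε / 16) (by positivity)
  have ev3 := (h2 _ hZg).eventually (Metric.ball_mem_nhds (0 : ℝ) (show 0 < ε / 16 by positivity))
  have ev4 := h1 _ hE (ε / 16) (by positivity)
  obtain ⟨N, hN⟩ := eventually_atTop.1 (ev1.and (ev2.and (ev3.and ev4)))
  refine ⟨N, fun n hn => ?_⟩
  obtain ⟨v1, v2, v3, v4⟩ := hN n hn
  rw [Real.dist_eq, sub_zero, hVn n]
  rw [Real.dist_eq, sub_zero] at v3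
  have t1 := abs_add_le (V n (fun z => (1 - Z z) * φ z) + V n (fun z => Z z * (φ z + lap g z)))
    (- V n (lap (fun z => Z z * g z)) + V n (fun z => 2 * gin Z g z + g z * lap Z z))
  have t2 := abs_add_le (V n (fun z => (1 - Z z) * φ z)) (V n (fun z => Z z * (φ z + lap g z)))
  have t3 := abs_add_le (- V n (lap (fun z => Z z * g z)))
    (V n (fun z => 2 * gin Z g z + g z * lap Z z))
  rw [abs_neg] at t3
  have hKe : K * Real.sqrt e = 2 * Real.pi * C0 * Real.sqrt e + Real.sqrt e +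
      (1 + (Real.sqrt G + 1) ^ 2 + M) * Real.sqrt e := by
    rw [hK]; ring
  linarith

/- END mkd -/

/- MODULE mke
THE MEAN.  `mean_abs` with `V n f = ∫ XF f dMu - ∫ u f`.  (h1): `|mh| ≤ 1/2`, `|u| ≤ 1/2` on `Ω`,
`riemann` for `|f|`.  (h2): `mean_lap_c`, and `∫ u lap g = 0` (`u` harmonic; multiply `u` by a cut-off
`= 1` near `tsupport g` and use `green'`, `green`; `HarmonicAt.analyticAt` for smoothness).
(h3): `split_cut` (`R` = radius of `Ω`): on `Z₁`: `mh - u = (l - u) - (l - mh)`, on `Z₂`: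
`mh - u = (- l - u) - (- l - mh)`; `bdry_lim` with `c = l`, `A = A₂` (if `β ≠ l` then `β = - l`) resp.
`c = - l`, `A = A₁`, and `dual_cont` with `w = l - u` (`→ 0` at `A₁` off `{a,b}`) resp. `w = u + l`. -/
private theorem mke_lap {u v : ℂ → ℝ} {z : ℂ} (hu : InnerProductSpace.HarmonicAt u z)
    (hv : ContDiff ℝ ∞ v) (h : v =ᶠ[𝓝 z] u) : lap v z = 0 := by
  have h1 : InnerProductSpace.HarmonicAt v z := (InnerProductSpace.harmonicAt_congr_nhds h).2 hu
  have h2 := h1.2.eq_of_nhds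
  rw [InnerProductSpace.laplacian_eq_iteratedFDeriv_complexPlane] at h2
  have h3 : ∀ e : ℂ, fderiv ℝ (fun w => fderiv ℝ v w e) z e = iteratedFDeriv ℝ 2 v z ![e, e] := by
    intro e
    rw [iteratedFDeriv_two_apply]
    have h4 : DifferentiableAt ℝ (fderiv ℝ v) z :=
      ((hv.fderiv_right (m := ∞) (by simp)).differentiable (by simp)) z
    have h5 := (h4.hasFDerivAt.clm_apply (hasFDerivAt_const e z))
    rw [h5.fderiv]
    simp
  unfold lap
  rw [h3, h3]
  simpa using h2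

private theorem mke_cont {Ω : Set ℂ} (hΩ : IsOpen Ω) {w f : ℂ → ℝ} (hw : ContinuousOn w Ω)
    (hf : CSC Ω f) : Continuous (fun z => w z * f z) := by
  rw [continuous_iff_continuousAt]
  intro z
  by_cases hz : z ∈ Ω
  · exact (hw.continuousAt (hΩ.mem_nhds hz)).mul hf.sm.continuous.continuousAt
  · have h1 : z ∉ tsupport f := fun h => hz (hf.sub h)
    have h2 : f =ᶠ[𝓝 z] 0 := notMem_tsupport_iff_eventuallyEq.1 h1
    have h3 : (fun z => w z * f z) =ᶠ[𝓝 z] fun _ => (0 : ℝ) := by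
      filter_upwards [h2] with y hy
      rw [hy]
      simp
    exact (continuousAt_const.congr h3.symm)

private theorem mke_int {Ω : Set ℂ} (hΩ : IsOpen Ω) {w f : ℂ → ℝ} (hw : ContinuousOn w Ω)
    (hf : CSC Ω f) : Integrable (fun z => w z * f z) :=
  int_cs (mke_cont hΩ hw hf) hf.cs.mul_left

private theorem mke_zero {Ω : Set ℂ} (hΩ : IsOpen Ω) {u g : ℂ → ℝ}
    (hu : InnerProductSpace.HarmonicOnNhd u Ω) (hg : CSC Ω g) : ∫ z, u z * lap g z = 0 := by
  obtain ⟨K, hK, hK1, hK2⟩ := exists_compact_between hg.cs.isCompact hΩ hg.sub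
  obtain ⟨ρ, hρ1, hρ0, -⟩ := exists_contMDiffMap_one_nhds_of_subset_interior (n := (⊤ : ℕ∞))
    (I := modelWithCornersSelf ℝ ℂ) (isClosed_tsupport g) hK1
  have hρs : ContDiff ℝ ∞ (fun z => ρ z) := ρ.contMDiff.contDiff
  set v : ℂ → ℝ := fun z => ρ z * u z with hv
  have hvs : ContDiff ℝ ∞ v := by
    rw [contDiff_iff_contDiffAt]
    intro z
    by_cases hz : z ∈ Ω
    · exact hρs.contDiffAt.mul ((HarmonicAt.analyticAt (hu z hz)).contDiffAt)
    · have hzK : z ∉ K := fun h => hz (hK2 h)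
      have h1 : v =ᶠ[𝓝 z] fun _ => (0 : ℝ) := by
        filter_upwards [hK.isClosed.isOpen_compl.mem_nhds hzK] with y hy
        show ρ y * u y = 0
        rw [hρ0 y hy, zero_mul]
      exact contDiffAt_const.congr_of_eventuallyEq h1
  have hvu : ∀ z ∈ tsupport g, v =ᶠ[𝓝 z] u := by
    intro z hz
    have h1 : ∀ᶠ y in 𝓝 z, ρ y = 1 := hρ1.filter_mono (nhds_le_nhdsSet hz)
    filter_upwards [h1] with y hy
    show ρ y * u y = u y
    rw [hy, one_mul]
  have e1 : ∫ z, u z * lap g z = ∫ z, v z * lap g z := by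
    refine integral_congr_ae (Filter.Eventually.of_forall fun z => ?_)
    show u z * lap g z = v z * lap g z
    by_cases hz : z ∈ tsupport g
    · rw [(hvu z hz).eq_of_nhds]
    · have : lap g z = 0 := image_eq_zero_of_notMem_tsupport (f := lap g)
        (fun h => hz (tsupport_lap g h))
      rw [this, mul_zero, mul_zero]
  have e2 : ∫ z, lap v z * g z = 0 := by
    have : ∀ z, lap v z * g z = 0 := by
      intro z
      by_cases hz : z ∈ tsupport g
      · rw [mke_lap (hu z (hg.sub hz)) hvs (hvu z hz), zero_mul]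
      · rw [image_eq_zero_of_notMem_tsupport hz, mul_zero]
    simp only [this, integral_zero]
  rw [e1, green' hvs hg.sm hg.cs, ← green hvs hg.sm hg.cs, e2]

private theorem mke_riem {Ω : Set ℂ} {δ : ℕ → ℝ} {D : ℕ → Finset (ℤ × ℤ)} (hA : Appr Ω δ D)
    {F : ℂ → ℝ} (hF : Continuous F) (hc : HasCompactSupport F) (hs : tsupport F ⊆ Ω) {ε : ℝ}
    (hε : 0 < ε) : ∀ᶠ n in atTop,
      |Real.sqrt 3 / 2 * δ n ^ 2 * (∑ x ∈ D n, F (lat (δ n) x)) - ∫ z, F z| ≤ ε := by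
  obtain ⟨δ₀, hδ₀, h1⟩ := riemann hF hc hε
  have h2 : ∀ᶠ n in atTop, δ n < δ₀ := hA.lim.eventually (gt_mem_nhds hδ₀)
  filter_upwards [h2, hA.exh (tsupport F) hc.isCompact hs] with n hn1 hn2
  exact h1 (δ n) (hA.pos n) hn1 (D n) hn2

theorem mean_lim {σ : ℝ} (hI : Itf σ) {l : ℝ} (hl0 : 0 < l) (hl : l ≤ 1 / 2) {Ω : Set ℂ}
    (hΩ : IsOpen Ω) (hb : Bornology.IsBounded Ω) {a b : ℂ} (hab : a ≠ b) {A₁ A₂ : Set ℂ}
    (h1 : IsClosed A₁) (h2 : IsClosed A₂) (h12 : A₁ ∩ A₂ ⊆ {a, b}) (hf : frontier Ω ⊆ A₁ ∪ A₂)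
    {δ : ℕ → ℝ} {D : ℕ → Finset (ℤ × ℤ)} (hA : Appr Ω δ D)
    {β : ℕ → ℤ × ℤ → ℝ} (hβ : ∀ n z, |β n z| ≤ 1 / 2) (hB : Arcs l A₁ A₂ δ D β)
    {u : ℂ → ℝ} (hu : InnerProductSpace.HarmonicOnNhd u Ω) (hul : ∀ z ∈ Ω, |u z| ≤ l)
    (hu1 : ∀ ζ ∈ (A₁ ∩ frontier Ω) \ {a, b}, Tendsto u (𝓝[Ω] ζ) (𝓝 l))
    (hu2 : ∀ ζ ∈ (A₂ ∩ frontier Ω) \ {a, b}, Tendsto u (𝓝[Ω] ζ) (𝓝 (- l)))
    {φ : ℂ → ℝ} (hφ : CSC Ω φ) :
    Tendsto (fun n => ∫ h, XF (D n) (δ n) φ h ∂(Mu (D n) (β n))) atTop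
      (𝓝 (∫ z, u z * φ z)) := by
  have huc : ContinuousOn u Ω := hu.continuousOn
  have hDΩ : ∀ n, ∀ x ∈ D n, lat (δ n) x ∈ Ω := fun n x hx =>
    hA.ball n x hx (Metric.mem_closedBall_self (by have := hA.pos n; positivity))
  set V : ℕ → (ℂ → ℝ) → ℝ := fun n f =>
    (∫ h, XF (D n) (δ n) f h ∂(Mu (D n) (β n))) - ∫ z, u z * f z with hV
  have hVe : ∀ n f, V n f = Real.sqrt 3 / 2 * δ n ^ 2 *
      ∑ x ∈ D n, f (lat (δ n) x) * mh (D n) (β n) x - ∫ z, u z * f z := by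
    intro n f
    show (∫ h, XF (D n) (δ n) f h ∂(Mu (D n) (β n))) - ∫ z, u z * f z = _
    rw [mean_XF (hβ n)]
  have hmain : Tendsto (fun n => V n φ) atTop (𝓝 0) := by
    refine mean_abs hΩ hb hab V ?_ ?_ ?_ ?_ ?_ hφ
    · intro n f g hf hg
      rw [hVe, hVe, hVe]
      have e1 : ∫ z, u z * (f z + g z) = (∫ z, u z * f z) + ∫ z, u z * g z := by
        rw [← integral_add (mke_int hΩ huc hf) (mke_int hΩ huc hg)]
        simp only [mul_add]
      rw [e1]
      simp only [add_mul, Finset.sum_add_distrib, mul_add]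
      ring
    · intro n f hf
      rw [hVe, hVe]
      simp only [neg_mul, mul_neg, Finset.sum_neg_distrib, integral_neg]
      ring
    · intro f hf ε hε
      have hFc : Continuous (fun z => |f z|) := hf.sm.continuous.abs
      have hFs : HasCompactSupport (fun z => |f z|) := hf.cs.comp_left (g := fun r : ℝ => |r|) abs_zero
      have hFt : tsupport (fun z => |f z|) ⊆ Ω := by
        refine (closure_minimal (fun z hz => ?_) (isClosed_tsupport f)).trans hf.sub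
        by_contra hn
        apply hz
        show |f z| = 0
        rw [image_eq_zero_of_notMem_tsupport hn, abs_zero]
      filter_upwards [mke_riem hA hFc hFs hFt hε] with n hn
      rw [hVe]
      have hδ0 : 0 ≤ Real.sqrt 3 / 2 * δ n ^ 2 := by positivity
      have c1 : |Real.sqrt 3 / 2 * δ n ^ 2 * ∑ x ∈ D n, f (lat (δ n) x) * mh (D n) (β n) x| ≤
          (1 / 2) * (Real.sqrt 3 / 2 * δ n ^ 2 * ∑ x ∈ D n, |f (lat (δ n) x)|) := by
        rw [abs_mul, abs_of_nonneg hδ0]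
        have : |∑ x ∈ D n, f (lat (δ n) x) * mh (D n) (β n) x| ≤
            (1 / 2) * ∑ x ∈ D n, |f (lat (δ n) x)| := by
          refine (Finset.abs_sum_le_sum_abs _ _).trans ?_
          rw [Finset.mul_sum]
          refine Finset.sum_le_sum fun x _ => ?_
          rw [abs_mul, mul_comm]
          exact mul_le_mul_of_nonneg_right (mh_abs (hβ n) x) (abs_nonneg _)
        calc Real.sqrt 3 / 2 * δ n ^ 2 * |∑ x ∈ D n, f (lat (δ n) x) * mh (D n) (β n) x|
            ≤ Real.sqrt 3 / 2 * δ n ^ 2 * ((1 / 2) * ∑ x ∈ D n, |f (lat (δ n) x)|) :=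
              mul_le_mul_of_nonneg_left this hδ0
          _ = _ := by ring
      have c2 : |∫ z, u z * f z| ≤ (1 / 2) * ∫ z, |f z| := by
        rw [← integral_const_mul]
        refine abs_integral_le_integral_abs.trans ?_
        refine integral_mono (mke_int hΩ huc hf).abs
          ((int_cs hf.sm.continuous hf.cs).abs.const_mul _) fun z => ?_
        show |u z * f z| ≤ 1 / 2 * |f z|
        rw [abs_mul]
        by_cases hz : z ∈ tsupport f
        · exact mul_le_mul_of_nonneg_right ((hul z (hf.sub hz)).trans hl) (abs_nonneg _)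
        · rw [image_eq_zero_of_notMem_tsupport hz]
          simp
      have c3 := (abs_le.1 hn).2
      have c4 := abs_sub (Real.sqrt 3 / 2 * δ n ^ 2 *
        ∑ x ∈ D n, f (lat (δ n) x) * mh (D n) (β n) x) (∫ z, u z * f z)
      linarith
    · intro g hg
      have e0 : ∫ z, u z * lap g z = 0 := mke_zero hΩ hu hg
      have e1 : ∀ n, V n (lap g) = ∫ h, XF (D n) (δ n) (lap g) h ∂(Mu (D n) (β n)) := by
        intro n
        show (∫ h, XF (D n) (δ n) (lap g) h ∂(Mu (D n) (β n))) - ∫ z, u z * lap g z = _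
        rw [e0, sub_zero]
      simp only [e1]
      exact mean_lap_c hI hΩ hb hA hβ hg
    · intro Z hZ hZ0 hZa hZb
      obtain ⟨R, hR⟩ := hb.subset_closedBall (0 : ℂ)
      obtain ⟨Z₁, Z₂, hs1, hs2, hc1, hc2, hn1, hn2, hsum, hz1, hz2⟩ :=
        split_cut h1 h2 h12 hZ hZ0 hZa hZb R
      have hab2 : IsClosed ({a, b} : Set ℂ) := (Set.toFinite _).isClosed
      have hlabs : |l| ≤ 1 / 2 := by rw [abs_of_pos hl0]; exact hl
      obtain ⟨C1, hC1, hC1'⟩ := bdry_lim hΩ hb hA hβ (c := l) hlabs (h2.union hab2)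
        (fun e he => (hB.near₂ e he).mono fun n hn x hx i hxi hne => by
          rcases hB.val n x hx i hxi with h | h
          · exact absurd h hne
          · obtain ⟨ζ, hζ, hζ2⟩ := hn x hx i hxi h
            exact ⟨ζ, Or.inl hζ, hζ2⟩) hs1 hc1 hn1 hz1
      obtain ⟨C2, hC2, hC2'⟩ := bdry_lim hΩ hb hA hβ (c := -l) (by rw [abs_neg]; exact hlabs)
        (h1.union hab2)
        (fun e he => (hB.near₁ e he).mono fun n hn x hx i hxi hne => by
          rcases hB.val n x hx i hxi with h | h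
          · obtain ⟨ζ, hζ, hζ2⟩ := hn x hx i hxi h
            exact ⟨ζ, Or.inl hζ, hζ2⟩
          · exact absurd h hne) hs2 hc2 hn2 hz2
      have hw1 : InnerProductSpace.HarmonicOnNhd (fun z => l - u z) Ω := by
        have := (InnerProductSpace.harmonicOnNhd_const (s := Ω) l).sub hu
        exact this
      have hw2 : InnerProductSpace.HarmonicOnNhd (fun z => l + u z) Ω := by
        have := (InnerProductSpace.harmonicOnNhd_const (s := Ω) l).add hu
        exact this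
      have hw1b : ∀ z ∈ Ω, 0 ≤ l - u z ∧ l - u z ≤ 2 := fun z hz => by
        have := abs_le.1 (hul z hz)
        constructor <;> linarith [this.1, this.2]
      have hw2b : ∀ z ∈ Ω, 0 ≤ l + u z ∧ l + u z ≤ 2 := fun z hz => by
        have := abs_le.1 (hul z hz)
        constructor <;> linarith [this.1, this.2]
      have hbd1 : ∀ ζ ∈ frontier Ω, (∀ᶠ z in 𝓝 ζ, Z₁ z = 0) ∨
          Tendsto (fun z => l - u z) (𝓝[Ω] ζ) (𝓝 0) := by
        intro ζ hζ
        by_cases hm : ζ ∈ A₂ ∪ {a, b}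
        · exact Or.inl (hz1.filter_mono (nhds_le_nhdsSet hm))
        · right
          have hζ1 : ζ ∈ A₁ := by
            rcases hf hζ with h | h
            · exact h
            · exact absurd (Or.inl h) hm
          have := (hu1 ζ ⟨⟨hζ1, hζ⟩, fun h => hm (Or.inr h)⟩).const_sub l
          simpa only [sub_self] using this
      have hbd2 : ∀ ζ ∈ frontier Ω, (∀ᶠ z in 𝓝 ζ, Z₂ z = 0) ∨
          Tendsto (fun z => l + u z) (𝓝[Ω] ζ) (𝓝 0) := by
        intro ζ hζ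
        by_cases hm : ζ ∈ A₁ ∪ {a, b}
        · exact Or.inl (hz2.filter_mono (nhds_le_nhdsSet hm))
        · right
          have hζ2 : ζ ∈ A₂ := by
            rcases hf hζ with h | h
            · exact absurd (Or.inl h) hm
            · exact h
          have := (hu2 ζ ⟨⟨hζ2, hζ⟩, fun h => hm (Or.inr h)⟩).const_add l
          simpa only [add_neg_cancel] using this
      refine ⟨C1 + C2 + Real.sqrt (40 * dirE Z₁) + Real.sqrt (40 * dirE Z₂), fun ψ hψ ε hε => ?_⟩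
      have k1 := dual_cont hΩ hb hw1 hw1b hs1 hc1 hbd1 hψ
      have k2 := dual_cont hΩ hb hw2 hw2b hs2 hc2 hbd2 hψ
      have hP1 : CSC Ω (fun z => Z₁ z * ψ z) := mkd_mul hs1 hψ
      have hP2 : CSC Ω (fun z => Z₂ z * ψ z) := mkd_mul hs2 hψ
      filter_upwards [hC1' ψ hψ (ε / 4) (by positivity), hC2' ψ hψ (ε / 4) (by positivity),
        mke_riem hA hP1.sm.continuous hP1.cs hP1.sub (show 0 < ε / 4 by positivity),
        mke_riem hA hP2.sm.continuous hP2.cs hP2.sub (show 0 < ε / 4 by positivity)]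
        with n n1 n2 n3 n4
      rw [hVe]
      set S1 := Real.sqrt 3 / 2 * δ n ^ 2 * ∑ x ∈ D n, ψ (lat (δ n) x) * Z₁ (lat (δ n) x) *
        (l - mh (D n) (β n) x) with hS1
      set S2 := Real.sqrt 3 / 2 * δ n ^ 2 * ∑ x ∈ D n, ψ (lat (δ n) x) * Z₂ (lat (δ n) x) *
        (-l - mh (D n) (β n) x) with hS2
      set T1 := Real.sqrt 3 / 2 * δ n ^ 2 * ∑ x ∈ D n, Z₁ (lat (δ n) x) * ψ (lat (δ n) x) with hT1
      set T2 := Real.sqrt 3 / 2 * δ n ^ 2 * ∑ x ∈ D n, Z₂ (lat (δ n) x) * ψ (lat (δ n) x) with hT2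
      have e1 : Real.sqrt 3 / 2 * δ n ^ 2 * ∑ x ∈ D n, Z (lat (δ n) x) * ψ (lat (δ n) x) *
          mh (D n) (β n) x = l * T1 - S1 - l * T2 - S2 := by
        rw [hS1, hS2, hT1, hT2]
        simp only [Finset.mul_sum, ← Finset.sum_sub_distrib]
        refine Finset.sum_congr rfl fun x hx => ?_
        have hxR : ‖lat (δ n) x‖ ≤ R := by
          have := hR (hDΩ n x hx)
          rwa [mem_closedBall_zero_iff] at this
        rw [← hsum _ hxR]
        ring
      have i1 := mke_int hΩ huc hP1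
      have i2 := mke_int hΩ huc hP2
      have j1 := int_cs hP1.sm.continuous hP1.cs
      have j2 := int_cs hP2.sm.continuous hP2.cs
      have e2 : ∫ z, u z * (Z z * ψ z) = (l * (∫ z, Z₁ z * ψ z) -
          ∫ z, ψ z * (Z₁ z * (l - u z))) - (l * (∫ z, Z₂ z * ψ z) -
          ∫ z, ψ z * (Z₂ z * (l + u z))) := by
        have a1 : ∫ z, ψ z * (Z₁ z * (l - u z)) = l * (∫ z, Z₁ z * ψ z) -
            ∫ z, u z * (Z₁ z * ψ z) := by
          rw [← integral_const_mul, ← integral_sub (j1.const_mul l) i1]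
          refine integral_congr_ae (Filter.Eventually.of_forall fun z => ?_)
          show ψ z * (Z₁ z * (l - u z)) = l * (Z₁ z * ψ z) - u z * (Z₁ z * ψ z)
          ring
        have a2 : ∫ z, ψ z * (Z₂ z * (l + u z)) = l * (∫ z, Z₂ z * ψ z) +
            ∫ z, u z * (Z₂ z * ψ z) := by
          rw [← integral_const_mul, ← integral_add (j2.const_mul l) i2]
          refine integral_congr_ae (Filter.Eventually.of_forall fun z => ?_)
          show ψ z * (Z₂ z * (l + u z)) = l * (Z₂ z * ψ z) + u z * (Z₂ z * ψ z)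
          ring
        have a3 : ∫ z, u z * (Z z * ψ z) = (∫ z, u z * (Z₁ z * ψ z)) +
            ∫ z, u z * (Z₂ z * ψ z) := by
          rw [← integral_add i1 i2]
          refine integral_congr_ae (Filter.Eventually.of_forall fun z => ?_)
          show u z * (Z z * ψ z) = u z * (Z₁ z * ψ z) + u z * (Z₂ z * ψ z)
          by_cases hz : z ∈ tsupport ψ
          · have hzR : ‖z‖ ≤ R := by
              have := hR (hψ.sub hz)
              rwa [mem_closedBall_zero_iff] at this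
            rw [← hsum _ hzR]
            ring
          · rw [image_eq_zero_of_notMem_tsupport hz]
            ring
        rw [a1, a2, a3]
        ring
      rw [e1, e2]
      have m1 := abs_le.1 n1
      have m2 := abs_le.1 n2
      have m3 : |l * (T1 - ∫ z, Z₁ z * ψ z)| ≤ ε / 4 := by
        rw [abs_mul, abs_of_pos hl0]
        calc l * |T1 - ∫ z, Z₁ z * ψ z| ≤ 1 * (ε / 4) :=
              mul_le_mul (by linarith) n3 (abs_nonneg _) zero_le_one
          _ = ε / 4 := one_mul _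
      have m4 : |l * (T2 - ∫ z, Z₂ z * ψ z)| ≤ ε / 4 := by
        rw [abs_mul, abs_of_pos hl0]
        calc l * |T2 - ∫ z, Z₂ z * ψ z| ≤ 1 * (ε / 4) :=
              mul_le_mul (by linarith) n4 (abs_nonneg _) zero_le_one
          _ = ε / 4 := one_mul _
      have m3' := abs_le.1 m3
      have m4' := abs_le.1 m4
      have k1' := abs_le.1 k1
      have k2' := abs_le.1 k2
      rw [abs_le]
      constructor <;> nlinarith
  have h3 := hmain.add_const (∫ z, u z * φ z)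
  simp only [zero_add] at h3
  refine h3.congr fun n => ?_
  show ((∫ h, XF (D n) (δ n) φ h ∂(Mu (D n) (β n))) - ∫ z, u z * φ z) + ∫ z, u z * φ z = _
  ring

/- END mke -/

/- MODULE mkf
CLT FOR LAPLACIANS: `XF (lap g) = - (1/√3) FG + small` (`taylor_lap`, `var_small`), `Itf`, `EG_lim`
(`EG → √3 dirE g`, so the limiting variance is `σ √3 dirE g / 3 = σ/√3 dirE g`);
`|e^{ix} - e^{iy}| ≤ |x - y|`. -/
private theorem mkg_exp (x y : ℝ) :
    ‖Complex.exp (Complex.I * (x : ℝ)) - Complex.exp (Complex.I * (y : ℝ))‖ ≤ |x - y| := by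
  have h1 : Complex.exp (Complex.I * (x : ℝ)) - Complex.exp (Complex.I * (y : ℝ)) =
      Complex.exp (Complex.I * (y : ℝ)) * (Complex.exp (Complex.I * ((x - y : ℝ))) - 1) := by
    rw [mul_sub, ← Complex.exp_add, mul_one]
    congr 2
    push_cast
    ring
  rw [h1, norm_mul]
  have h2 : ‖Complex.exp (Complex.I * (y : ℝ))‖ = 1 := by
    rw [mul_comm]; exact Complex.norm_exp_ofReal_mul_I y
  rw [h2, one_mul]
  have := Real.norm_exp_I_mul_ofReal_sub_one_le (x := x - y)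
  simpa using this

/-- characteristic functions of `X` and `Y` differ by at most `|τ| (Var (X - Y))^{1/2}` -/
private theorem mkg_char {α : Type} [MeasurableSpace α] (μ : Measure α) [IsProbabilityMeasure μ]
    {X Y : α → ℝ} (hX : MemLp X 2 μ) (hY : MemLp Y 2 μ) (τ : ℝ) {v : ℝ}
    (hv : ∫ k, ((X k - Y k) - ∫ k, (X k - Y k) ∂μ) ^ 2 ∂μ ≤ v) :
    ‖(∫ k, Complex.exp (Complex.I * (τ * (X k - ∫ k, X k ∂μ) : ℝ)) ∂μ) -
      ∫ k, Complex.exp (Complex.I * (τ * (Y k - ∫ k, Y k ∂μ) : ℝ)) ∂μ‖ ≤ |τ| * Real.sqrt v := by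
  have iX : Integrable X μ := hX.integrable (by norm_num)
  have iY : Integrable Y μ := hY.integrable (by norm_num)
  have hint : ∀ {W : α → ℝ}, MemLp W 2 μ →
      Integrable (fun k => Complex.exp (Complex.I * (τ * (W k - ∫ k, W k ∂μ) : ℝ))) μ := by
    intro W hW
    refine Integrable.of_bound (C := 1) ?_ (Filter.Eventually.of_forall fun k => ?_)
    · have h1 := hW.aestronglyMeasurable
      have h2 : AEStronglyMeasurable (fun k => (τ * (W k - ∫ k, W k ∂μ) : ℝ)) μ :=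
        (h1.sub aestronglyMeasurable_const).const_mul τ
      exact Complex.continuous_exp.comp_aestronglyMeasurable
        ((Complex.continuous_ofReal.comp_aestronglyMeasurable h2).const_mul _)
    · rw [mul_comm]; exact (Complex.norm_exp_ofReal_mul_I _).le
  rw [← integral_sub (hint hX) (hint hY)]
  set W : α → ℝ := fun k => (X k - Y k) - ∫ k, (X k - Y k) ∂μ with hW
  have hWm : MemLp W 2 μ := (hX.sub hY).sub (memLp_const _)
  have hWi : Integrable (fun k => |W k|) μ := (hWm.integrable (by norm_num)).abs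
  have hW2 : Integrable (fun k => W k ^ 2) μ := hWm.integrable_sq
  have h1 : ‖∫ k, (Complex.exp (Complex.I * (τ * (X k - ∫ k, X k ∂μ) : ℝ)) -
      Complex.exp (Complex.I * (τ * (Y k - ∫ k, Y k ∂μ) : ℝ))) ∂μ‖ ≤ ∫ k, |τ| * |W k| ∂μ := by
    refine norm_integral_le_of_norm_le (hWi.const_mul _) (Filter.Eventually.of_forall fun k => ?_)
    refine (mkg_exp _ _).trans (le_of_eq ?_)
    rw [← abs_mul, hW]
    simp only
    rw [integral_sub iX iY]
    congr 1
    ring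
  refine h1.trans ?_
  rw [integral_const_mul]
  refine mul_le_mul_of_nonneg_left ?_ (abs_nonneg _)
  have h2 : (∫ k, |W k| ∂μ) ^ 2 ≤ ∫ k, W k ^ 2 ∂μ := by
    have h3 : 0 ≤ ∫ k, (|W k| - ∫ k, |W k| ∂μ) ^ 2 ∂μ := integral_nonneg fun k => sq_nonneg _
    have h4 : ∫ k, (|W k| - ∫ k, |W k| ∂μ) ^ 2 ∂μ =
        (∫ k, W k ^ 2 ∂μ) - (∫ k, |W k| ∂μ) ^ 2 := by
      set c := ∫ k, |W k| ∂μ with hc
      have e : ∀ k, (|W k| - c) ^ 2 = W k ^ 2 - (2 * c) * |W k| + c ^ 2 := by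
        intro k
        have := sq_abs (W k)
        linear_combination this
      simp only [e]
      have i1 : Integrable (fun k => W k ^ 2 - (2 * c) * |W k|) μ := hW2.sub (hWi.const_mul _)
      rw [integral_add i1 (integrable_const _), integral_sub hW2 (hWi.const_mul _),
        integral_const_mul, integral_const, ← hc]
      simp
      ring
    linarith
  exact Real.le_sqrt_of_sq_le (h2.trans hv)

private theorem mkg_mem {D : Finset (ℤ × ℤ)} {b : ℤ × ℤ → ℝ} (hb : ∀ z, |b z| ≤ 1 / 2)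
    (a : ℤ × ℤ → ℝ) : MemLp (fun h : D → ℝ => ∑ x : D, a x * h x) 2 (Mu D b) := by
  refine memLp_finset_sum _ fun x _ => ?_
  have h1 := gl_memLp (D := D) hb x.1
  have e : (fun h : D → ℝ => gl D b h x.1) = fun h => h x := by
    funext h
    simp [gl, x.2]
  rw [e] at h1
  exact h1.const_mul (a x)

private theorem mkg_XFmem {D : Finset (ℤ × ℤ)} {b : ℤ × ℤ → ℝ} (hb : ∀ z, |b z| ≤ 1 / 2)
    (δ : ℝ) (φ : ℂ → ℝ) : MemLp (fun h : D → ℝ => XF D δ φ h) 2 (Mu D b) := by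
  unfold XF
  exact (mkg_mem hb (fun x => φ (lat δ x))).const_mul _

private theorem mkg_XFlin {D : Finset (ℤ × ℤ)} (δ : ℝ) (f g : ℂ → ℝ) (h : D → ℝ) :
    XF D δ f h - XF D δ g h = XF D δ (fun z => f z - g z) h := by
  unfold XF
  rw [← mul_sub, ← Finset.sum_sub_distrib]
  simp only [sub_mul]

private def mkf_L (p : ℝ × ℝ) : ℂ := (p.1 : ℂ) + (p.2 : ℂ) * om

private theorem mkf_L_sm : ContDiff ℝ ∞ mkf_L := by
  unfold mkf_L
  exact (Complex.ofRealCLM.contDiff.comp contDiff_fst).add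
    ((Complex.ofRealCLM.contDiff.comp contDiff_snd).mul contDiff_const)

private def mkf_M (z : ℂ) : ℝ × ℝ := (z.re - z.im / Real.sqrt 3, 2 * z.im / Real.sqrt 3)

private theorem mkf_M_cont : Continuous mkf_M := by
  unfold mkf_M
  fun_prop

private theorem mkf_ML (p : ℝ × ℝ) : mkf_M (mkf_L p) = p := by
  have h3 : Real.sqrt 3 ≠ 0 := (Real.sqrt_pos.2 (by norm_num)).ne'
  unfold mkf_M mkf_L om
  ext
  · simp
    field_simp
    ring
  · simp
    field_simp

private theorem mkf_lt (δ : ℝ) (x : ℤ × ℤ) : mkf_L (lt δ x) = lat δ x := by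
  unfold mkf_L lt lat
  push_cast
  ring

private theorem mkf_ltn (δ : ℝ) (x : ℤ × ℤ) : ‖lt δ x‖ ≤ 2 * ‖lat δ x‖ := by
  have h1 : lt δ x = mkf_M (lat δ x) := by rw [← mkf_lt, mkf_ML]
  have h31 : 1 ≤ Real.sqrt 3 := by
    rw [show (1 : ℝ) = Real.sqrt 1 from Real.sqrt_one.symm]
    exact Real.sqrt_le_sqrt (by norm_num)
  have h30 : 0 < Real.sqrt 3 := by linarith
  set z := lat δ x with hz
  have hr := Complex.abs_re_le_norm z
  have hi := Complex.abs_im_le_norm z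
  have hn := norm_nonneg z
  have hi' : |z.im / Real.sqrt 3| ≤ |z.im| := by
    rw [abs_div, abs_of_pos h30]
    exact div_le_self (abs_nonneg _) h31
  rw [h1, Prod.norm_def]
  refine max_le ?_ ?_
  · show |z.re - z.im / Real.sqrt 3| ≤ 2 * ‖z‖
    have := abs_sub z.re (z.im / Real.sqrt 3)
    linarith
  · show |2 * z.im / Real.sqrt 3| ≤ 2 * ‖z‖
    rw [mul_div_assoc, abs_mul, abs_two]
    linarith

private theorem mkf_FG {D : Finset (ℤ × ℤ)} (b G : ℤ × ℤ → ℝ) (h : D → ℝ) :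
    FG D b G h = ∑ x : D, Lap G x * h x := by
  unfold FG
  rw [← Finset.sum_coe_sort]
  refine Finset.sum_congr rfl fun x _ => ?_
  simp [gl, x.2]

theorem clt_lap {σ : ℝ} (hI : Itf σ) {Ω : Set ℂ} (hΩ : IsOpen Ω)
    (hb : Bornology.IsBounded Ω) {δ : ℕ → ℝ} {D : ℕ → Finset (ℤ × ℤ)} (hA : Appr Ω δ D)
    {β : ℕ → ℤ × ℤ → ℝ} (hβ : ∀ n z, |β n z| ≤ 1 / 2) {g : ℂ → ℝ} (hg : CSC Ω g) (τ : ℝ) :
    Tendsto (fun n => ∫ h, Complex.exp (Complex.I * (τ * (XF (D n) (δ n) (lap g) h -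
        ∫ k, XF (D n) (δ n) (lap g) k ∂(Mu (D n) (β n))) : ℝ)) ∂(Mu (D n) (β n))) atTop
      (𝓝 (Complex.exp ((- τ ^ 2 * (σ / Real.sqrt 3) * dirE g / 2 : ℝ)))) := by
  haveI hp : ∀ n, IsProbabilityMeasure (Mu (D n) (β n)) := fun n => prob (hβ n)
  have h30 : 0 < Real.sqrt 3 := Real.sqrt_pos.2 (by norm_num)
  have h33 : Real.sqrt 3 * Real.sqrt 3 = 3 := Real.mul_self_sqrt (by norm_num)
  have h31 : 1 ≤ Real.sqrt 3 := by
    rw [show (1 : ℝ) = Real.sqrt 1 from Real.sqrt_one.symm]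
    exact Real.sqrt_le_sqrt (by norm_num)
  -- the function on `ℝ × ℝ`
  set g' : ℝ × ℝ → ℝ := fun p => g (mkf_L p) with hg'
  have hg's : ContDiff ℝ ∞ g' := hg.sm.comp mkf_L_sm
  have hg'c : HasCompactSupport g' := by
    refine HasCompactSupport.intro (hg.cs.isCompact.image mkf_M_cont) fun p hp => ?_
    refine image_eq_zero_of_notMem_tsupport (f := g) fun hm => hp ?_
    exact ⟨mkf_L p, hm, mkf_ML p⟩
  obtain ⟨Kc, hKc, hK1, hK2⟩ := exists_compact_between hg.cs.isCompact hΩ hg.sub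
  set U : Set (ℝ × ℝ) := mkf_L ⁻¹' (interior Kc) with hU
  have hUo : IsOpen U := isOpen_interior.preimage mkf_L_sm.continuous
  have hUs : tsupport g' ⊆ U := by
    have : tsupport g' ⊆ mkf_L ⁻¹' (tsupport g) := by
      refine closure_minimal (fun p hp => ?_)
        ((isClosed_tsupport g).preimage mkf_L_sm.continuous)
      exact subset_tsupport g hp
    exact this.trans (preimage_mono hK1)
  obtain ⟨R, hR⟩ := hb.subset_closedBall (0 : ℂ)
  have hRr : ∀ z ∈ Ω, ‖z‖ ≤ |R| + 1 := fun z hz => by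
    have := hR hz
    rw [mem_closedBall_zero_iff] at this
    linarith [le_abs_self R]
  obtain ⟨C, hC, hvar⟩ := var_small (R := |R| + 1) (by positivity)
  rw [Metric.tendsto_atTop]
  intro ε hε
  have hcont : Continuous fun e : ℝ => Complex.exp ((- (-τ / Real.sqrt 3) ^ 2 * σ * e / 2 : ℝ)) := by
    fun_prop
  obtain ⟨ρ, hρ, hρ'⟩ := Metric.continuous_iff.1 hcont (Real.sqrt 3 * dirE g) (ε / 4)
    (by positivity)
  have hlimv : Complex.exp ((- (-τ / Real.sqrt 3) ^ 2 * σ * (Real.sqrt 3 * dirE g) / 2 : ℝ)) =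
      Complex.exp ((- τ ^ 2 * (σ / Real.sqrt 3) * dirE g / 2 : ℝ)) := by
    congr 2
    field_simp
  rw [hlimv] at hρ'
  set ε' : ℝ := min (ε / 4) (1 / (|τ| + 1)) with hε'
  have hε'0 : 0 < ε' := lt_min (by positivity) (by positivity)
  set e : ℝ := ε / (4 * (|τ| + 1) * (Real.sqrt C + 1)) with he
  have he0 : 0 < e := by positivity
  obtain ⟨δ1, hδ1, C1, k1, hItf⟩ := hI g' hg's hg'c U hUo hUs (2 * (|R| + 1)) (by positivity) ε' hε'0
  obtain ⟨δ2, hδ2, hTay⟩ := taylor_lap hg.sm hg.cs he0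
  obtain ⟨δ3, hδ3, hEG⟩ := EG_lim hg.sm hg.cs isOpen_interior hK1 (ε := ρ / 2) (by positivity)
  have hlimδ := hA.lim
  rw [Metric.tendsto_atTop] at hlimδ
  obtain ⟨N1, hN1⟩ := hlimδ (min (min δ1 δ2) (min δ3 (|R| + 1)))
    (lt_min (lt_min hδ1 hδ2) (lt_min hδ3 (by positivity)))
  obtain ⟨N2, hN2⟩ := eventually_atTop.1 (hA.exh Kc hKc hK2)
  refine ⟨max N1 N2, fun n hn => ?_⟩
  have hn1 := hN1 n ((le_max_left _ _).trans hn)
  have hn2 := hN2 n ((le_max_right _ _).trans hn)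
  have hδp := hA.pos n
  rw [Real.dist_eq, sub_zero, abs_of_pos hδp] at hn1
  have d1 : δ n < δ1 := hn1.trans_le ((min_le_left _ _).trans (min_le_left _ _))
  have d2 : δ n < δ2 := hn1.trans_le ((min_le_left _ _).trans (min_le_right _ _))
  have d3 : δ n < δ3 := hn1.trans_le ((min_le_right _ _).trans (min_le_left _ _))
  have d4 : δ n ≤ |R| + 1 := (hn1.trans_le ((min_le_right _ _).trans (min_le_right _ _))).le
  have hDin : ∀ x, lat (δ n) x ∈ interior Kc → x ∈ D n := fun x hx => hn2 x (interior_subset hx)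
  have hDU : ∀ x, lt (δ n) x ∈ U → x ∈ D n := by
    intro x hx
    refine hDin x ?_
    have : mkf_L (lt (δ n) x) ∈ interior Kc := hx
    rwa [mkf_lt] at this
  have hDR : ∀ x ∈ D n, ‖lat (δ n) x‖ ≤ |R| + 1 := by
    intro x hx
    refine hRr _ (hA.ball n x hx ?_)
    exact Metric.mem_closedBall_self (by positivity)
  obtain ⟨_, hchar⟩ := hItf (δ n) hδp d1 (D n) hDU
    (fun x hx => (mkf_ltn (δ n) x).trans (by linarith [hDR x hx])) (β n) (hβ n)
  have hgg : (fun x => g' (lt (δ n) x)) = fun x => g (lat (δ n) x) := by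
    funext x
    show g (mkf_L (lt (δ n) x)) = _
    rw [mkf_lt]
  rw [hgg] at hchar
  have hτ' : |(-τ / Real.sqrt 3)| ≤ 1 / ε' := by
    have a1 : |(-τ / Real.sqrt 3)| ≤ |τ| := by
      rw [abs_div, abs_neg, abs_of_pos h30]
      exact div_le_self (abs_nonneg _) h31
    have a2 : |τ| + 1 ≤ 1 / ε' := by
      rw [le_div_iff₀ hε'0, ← le_div_iff₀' (by positivity)]
      exact min_le_right _ _
    linarith
  have hch := hchar (-τ / Real.sqrt 3) hτ'
  set μ := Mu (D n) (β n) with hμ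
  set Gf : ℤ × ℤ → ℝ := fun x => g (lat (δ n) x) with hGf
  -- the difference of the linear functionals
  set a : ℤ × ℤ → ℝ := fun x => Real.sqrt 3 / 2 * δ n ^ 2 * lap g (lat (δ n) x) +
    1 / Real.sqrt 3 * Lap Gf x with ha
  have haabs : ∀ x, |a x| ≤ e * δ n ^ 2 := by
    intro x
    have t1 := hTay (δ n) hδp d2 x
    have t2 : a x = 1 / Real.sqrt 3 * (Lap Gf x + 3 / 2 * δ n ^ 2 * lap g (lat (δ n) x)) := by
      show Real.sqrt 3 / 2 * δ n ^ 2 * lap g (lat (δ n) x) + 1 / Real.sqrt 3 * Lap Gf x = _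
      have : 1 / Real.sqrt 3 * (3 / 2) = Real.sqrt 3 / 2 := by
        field_simp
        linear_combination (-1 : ℝ) * h33
      rw [mul_add, ← this]
      ring
    rw [t2, abs_mul, abs_of_pos (by positivity : 0 < 1 / Real.sqrt 3)]
    have t3 : 1 / Real.sqrt 3 ≤ 1 := by
      rw [div_le_one h30]; exact h31
    calc 1 / Real.sqrt 3 * |Lap Gf x + 3 / 2 * δ n ^ 2 * lap g (lat (δ n) x)|
        ≤ 1 * (e * δ n ^ 2) := mul_le_mul t3 t1 (abs_nonneg _) zero_le_one
      _ = e * δ n ^ 2 := one_mul _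
  have hv := hvar (δ n) hδp d4 (D n) hDR (β n) (hβ n) a e haabs
  have hX := mkg_XFmem (D := D n) (hβ n) (δ n) (lap g)
  have hY : MemLp (fun h : D n → ℝ => (-(1 / Real.sqrt 3)) * FG (D n) (β n) Gf h) 2 μ := by
    simp only [mkf_FG]
    exact (mkg_mem (hβ n) (Lap Gf)).const_mul _
  have hdiff : ∀ h : D n → ℝ, XF (D n) (δ n) (lap g) h -
      (-(1 / Real.sqrt 3)) * FG (D n) (β n) Gf h = ∑ x : D n, a x * h x := by
    intro h
    rw [mkf_FG]
    unfold XF
    rw [Finset.mul_sum, Finset.mul_sum, ← Finset.sum_sub_distrib]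
    refine Finset.sum_congr rfl fun x _ => ?_
    rw [ha]
    ring
  have hv2 : ∫ h, ((XF (D n) (δ n) (lap g) h - (-(1 / Real.sqrt 3)) * FG (D n) (β n) Gf h) -
      ∫ h, (XF (D n) (δ n) (lap g) h - (-(1 / Real.sqrt 3)) * FG (D n) (β n) Gf h) ∂μ) ^ 2 ∂μ ≤
      C * e ^ 2 := by
    simp only [hdiff]
    exact hv
  have hc1 := mkg_char μ hX hY τ hv2
  have e2 : ∫ h, Complex.exp (Complex.I * (τ * ((-(1 / Real.sqrt 3)) * FG (D n) (β n) Gf h -
      ∫ k, (-(1 / Real.sqrt 3)) * FG (D n) (β n) Gf k ∂μ) : ℝ)) ∂μ =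
      ∫ h, Complex.exp (Complex.I * ((-τ / Real.sqrt 3) * (FG (D n) (β n) Gf h -
        ∫ k, FG (D n) (β n) Gf k ∂μ) : ℝ)) ∂μ := by
    refine integral_congr_ae (Filter.Eventually.of_forall fun h => ?_)
    simp only [integral_const_mul]
    congr 3
    ring
  rw [e2] at hc1
  have hc2 : |τ| * Real.sqrt (C * e ^ 2) ≤ ε / 4 := by
    rw [Real.sqrt_mul hC.le, Real.sqrt_sq he0.le]
    have : |τ| * (Real.sqrt C * e) ≤ (|τ| + 1) * ((Real.sqrt C + 1) * e) := by
      refine mul_le_mul (by linarith) (mul_le_mul_of_nonneg_right (by linarith) he0.le)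
        (by positivity) (by positivity)
    refine this.trans (le_of_eq ?_)
    rw [he]
    field_simp
  have hE := hEG (δ n) hδp d3 (D n) hDin
  have hc3 := hρ' (EG (D n) Gf) (by
    rw [Real.dist_eq]
    exact lt_of_le_of_lt hE (by linarith))
  calc dist (∫ h, Complex.exp (Complex.I * (τ * (XF (D n) (δ n) (lap g) h -
        ∫ k, XF (D n) (δ n) (lap g) k ∂μ) : ℝ)) ∂μ)
        (Complex.exp ((- τ ^ 2 * (σ / Real.sqrt 3) * dirE g / 2 : ℝ)))
      ≤ dist (∫ h, Complex.exp (Complex.I * (τ * (XF (D n) (δ n) (lap g) h -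
        ∫ k, XF (D n) (δ n) (lap g) k ∂μ) : ℝ)) ∂μ)
        (∫ h, Complex.exp (Complex.I * ((-τ / Real.sqrt 3) * (FG (D n) (β n) Gf h -
        ∫ k, FG (D n) (β n) Gf k ∂μ) : ℝ)) ∂μ) +
        dist (∫ h, Complex.exp (Complex.I * ((-τ / Real.sqrt 3) * (FG (D n) (β n) Gf h -
        ∫ k, FG (D n) (β n) Gf k ∂μ) : ℝ)) ∂μ)
        (Complex.exp ((- (-τ / Real.sqrt 3) ^ 2 * σ * EG (D n) Gf / 2 : ℝ))) +
        dist (Complex.exp ((- (-τ / Real.sqrt 3) ^ 2 * σ * EG (D n) Gf / 2 : ℝ)))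
        (Complex.exp ((- τ ^ 2 * (σ / Real.sqrt 3) * dirE g / 2 : ℝ))) := dist_triangle4 _ _ _ _
    _ < ε := by
        have f1 : dist (∫ h, Complex.exp (Complex.I * (τ * (XF (D n) (δ n) (lap g) h -
          ∫ k, XF (D n) (δ n) (lap g) k ∂μ) : ℝ)) ∂μ)
          (∫ h, Complex.exp (Complex.I * ((-τ / Real.sqrt 3) * (FG (D n) (β n) Gf h -
          ∫ k, FG (D n) (β n) Gf k ∂μ) : ℝ)) ∂μ) ≤ ε / 4 := by
          rw [dist_eq_norm]
          exact hc1.trans hc2
        have f2 : dist (∫ h, Complex.exp (Complex.I * ((-τ / Real.sqrt 3) *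
          (FG (D n) (β n) Gf h - ∫ k, FG (D n) (β n) Gf k ∂μ) : ℝ)) ∂μ)
          (Complex.exp ((- (-τ / Real.sqrt 3) ^ 2 * σ * EG (D n) Gf / 2 : ℝ))) ≤ ε / 4 := by
          rw [dist_eq_norm]
          exact hch.trans (min_le_left _ _)
        linarith

/- END mkf -/

/- MODULE mkg
CLT: for `g` from `near_max` (`Jc φ g ≥ GE - η`), `φ = - lap g + f`, `f = φ + lap g`, `GE f ≤ η`
(`GE_res`), `Var XF f ≤ C η + ε` (`var_XF`), `clt_lap` for `g` (use `τ → - τ`), `dirE g → GE φ`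
(`dirE_near`). -/
theorem clt {σ : ℝ} (hσ : 0 < σ) (hI : Itf σ) {Ω : Set ℂ} (hΩ : IsOpen Ω)
    (hb : Bornology.IsBounded Ω) {δ : ℕ → ℝ} {D : ℕ → Finset (ℤ × ℤ)} (hA : Appr Ω δ D)
    {β : ℕ → ℤ × ℤ → ℝ} (hβ : ∀ n z, |β n z| ≤ 1 / 2) {φ : ℂ → ℝ} (hφ : CSC Ω φ) (τ : ℝ) :
    Tendsto (fun n => ∫ h, Complex.exp (Complex.I * (τ * (XF (D n) (δ n) φ h -
        ∫ k, XF (D n) (δ n) φ k ∂(Mu (D n) (β n))) : ℝ)) ∂(Mu (D n) (β n))) atTop
      (𝓝 (Complex.exp ((- τ ^ 2 * (σ / Real.sqrt 3) * GE Ω φ / 2 : ℝ)))) := by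
  haveI hp : ∀ n, IsProbabilityMeasure (Mu (D n) (β n)) := fun n => prob (hβ n)
  obtain ⟨C, hC, hvar⟩ := var_XF
  obtain ⟨R, hR⟩ := hb.subset_closedBall (0 : ℂ)
  obtain ⟨C0, hC0⟩ := hφ.cs.exists_bound_of_continuous hφ.sm.continuous
  have hRr : ∀ z ∈ Ω, ‖z‖ ≤ |R| := fun z hz => by
    have := hR hz
    rw [mem_closedBall_zero_iff] at this
    exact this.trans (le_abs_self R)
  set G := GE Ω φ with hG
  have hG0 : 0 ≤ G := GE_nonneg hb hφ
  rw [Metric.tendsto_atTop]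
  intro ε hε
  -- continuity of the limit in the energy
  have hcont : Continuous fun e : ℝ => Complex.exp ((- τ ^ 2 * (σ / Real.sqrt 3) * e / 2 : ℝ)) := by
    fun_prop
  obtain ⟨ρ, hρ, hρ'⟩ := Metric.continuous_iff.1 hcont G (ε / 4) (by positivity)
  -- choose `η`
  have hlim1 : Tendsto (fun η : ℝ => |τ| * Real.sqrt (C * η + η)) (𝓝[>] 0) (𝓝 0) := by
    have : Tendsto (fun η : ℝ => |τ| * Real.sqrt (C * η + η)) (𝓝 0)
        (𝓝 (|τ| * Real.sqrt (C * 0 + 0))) := by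
      refine Continuous.tendsto ?_ 0
      fun_prop
    simp only [mul_zero, add_zero, Real.sqrt_zero] at this
    exact this.mono_left nhdsWithin_le_nhds
  have hlim2 : Tendsto (fun η : ℝ => Real.sqrt η * (2 * Real.sqrt G + Real.sqrt η)) (𝓝[>] 0)
      (𝓝 0) := by
    have : Tendsto (fun η : ℝ => Real.sqrt η * (2 * Real.sqrt G + Real.sqrt η)) (𝓝 0)
        (𝓝 (Real.sqrt 0 * (2 * Real.sqrt G + Real.sqrt 0))) := by
      refine Continuous.tendsto ?_ 0
      fun_prop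
    simp only [Real.sqrt_zero, zero_mul] at this
    exact this.mono_left nhdsWithin_le_nhds
  obtain ⟨η, ⟨hη1, hη2⟩, hη0⟩ := (((hlim1.eventually (gt_mem_nhds (show (0 : ℝ) < ε / 4 by
    positivity))).and (hlim2.eventually (gt_mem_nhds hρ))).and
    self_mem_nhdsWithin).exists
  have hη0' : (0 : ℝ) < η := hη0
  obtain ⟨g, hg, _, hgJ⟩ := near_max hRr (abs_nonneg R) hφ (fun z => hC0 z) hη0'
  obtain ⟨hf, hfG⟩ := GE_res hb hφ hg
  have hfη : GE Ω (fun z => φ z + lap g z) ≤ η := by linarith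
  have hd := dirE_near hb hφ hg
  have hd2 : (Real.sqrt G - Real.sqrt (dirE g)) ^ 2 ≤ η := by linarith
  have hgE : 0 ≤ dirE g := integral_nonneg fun z => add_nonneg (sq_nonneg _) (sq_nonneg _)
  have hdist : dist (dirE g) G < ρ := by
    rw [Real.dist_eq]
    refine lt_of_le_of_lt ?_ hη2
    have a1 : |Real.sqrt G - Real.sqrt (dirE g)| ≤ Real.sqrt η := Real.abs_le_sqrt hd2
    have a2 : dirE g - G = (Real.sqrt (dirE g) - Real.sqrt G) *
        (Real.sqrt (dirE g) + Real.sqrt G) := by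
      have b1 := Real.sq_sqrt hgE
      have b2 := Real.sq_sqrt hG0
      nlinarith
    rw [a2, abs_mul, abs_sub_comm]
    refine mul_le_mul a1 ?_ (abs_nonneg _) (Real.sqrt_nonneg _)
    rw [abs_of_nonneg (by positivity)]
    have := (abs_le.1 a1).1
    linarith
  have hE := hρ' (dirE g) hdist
  obtain ⟨δ₀, hδ₀, hvar'⟩ := hvar Ω hΩ hb _ hf η hη0'
  have hlap := clt_lap hI hΩ hb hA hβ hg (-τ)
  rw [Metric.tendsto_atTop] at hlap
  obtain ⟨N1, hN1⟩ := hlap (ε / 4) (by positivity)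
  have hδ := hA.lim
  rw [Metric.tendsto_atTop] at hδ
  obtain ⟨N2, hN2⟩ := hδ δ₀ hδ₀
  refine ⟨max N1 N2, fun n hn => ?_⟩
  have hn1 := hN1 n ((le_max_left _ _).trans hn)
  have hn2 := hN2 n ((le_max_right _ _).trans hn)
  rw [Real.dist_eq, sub_zero, abs_of_pos (hA.pos n)] at hn2
  have hv := hvar' (δ n) (hA.pos n) hn2 (D n) (hA.ball n) (β n) (hβ n)
  set μ := Mu (D n) (β n) with hμ
  -- compare `φ` with `- lap g`
  have hX := mkg_XFmem (D := D n) (hβ n) (δ n) φ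
  have hY := mkg_XFmem (D := D n) (hβ n) (δ n) (fun z => - lap g z)
  have hdiff : ∀ h : D n → ℝ, XF (D n) (δ n) φ h - XF (D n) (δ n) (fun z => - lap g z) h =
      XF (D n) (δ n) (fun z => φ z + lap g z) h := by
    intro h
    rw [mkg_XFlin]
    simp only [sub_neg_eq_add]
  have hv2 : ∫ h, ((XF (D n) (δ n) φ h - XF (D n) (δ n) (fun z => - lap g z) h) -
      ∫ h, (XF (D n) (δ n) φ h - XF (D n) (δ n) (fun z => - lap g z) h) ∂μ) ^ 2 ∂μ ≤
      C * η + η := by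
    simp only [hdiff]
    refine hv.trans ?_
    have := mul_le_mul_of_nonneg_left hfη hC.le
    linarith
  have hch := mkg_char μ hX hY τ hv2
  have hneg : ∀ h : D n → ℝ, XF (D n) (δ n) (fun z => - lap g z) h =
      - XF (D n) (δ n) (lap g) h := by
    intro h
    unfold XF
    simp only [neg_mul, Finset.sum_neg_distrib, mul_neg]
  have e2 : ∫ h, Complex.exp (Complex.I * (τ * (XF (D n) (δ n) (fun z => - lap g z) h -
      ∫ k, XF (D n) (δ n) (fun z => - lap g z) k ∂μ) : ℝ)) ∂μ =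
      ∫ h, Complex.exp (Complex.I * (-τ * (XF (D n) (δ n) (lap g) h -
        ∫ k, XF (D n) (δ n) (lap g) k ∂μ) : ℝ)) ∂μ := by
    refine integral_congr_ae (Filter.Eventually.of_forall fun h => ?_)
    simp only [hneg, integral_neg]
    congr 3
    ring
  rw [e2] at hch
  have hsq : (- (-τ) ^ 2 * (σ / Real.sqrt 3) * dirE g / 2 : ℝ) =
      (- τ ^ 2 * (σ / Real.sqrt 3) * dirE g / 2 : ℝ) := by ring
  rw [hsq] at hn1
  calc dist (∫ h, Complex.exp (Complex.I * (τ * (XF (D n) (δ n) φ h -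
        ∫ k, XF (D n) (δ n) φ k ∂μ) : ℝ)) ∂μ)
        (Complex.exp ((- τ ^ 2 * (σ / Real.sqrt 3) * G / 2 : ℝ)))
      ≤ dist (∫ h, Complex.exp (Complex.I * (τ * (XF (D n) (δ n) φ h -
        ∫ k, XF (D n) (δ n) φ k ∂μ) : ℝ)) ∂μ)
        (∫ h, Complex.exp (Complex.I * (-τ * (XF (D n) (δ n) (lap g) h -
        ∫ k, XF (D n) (δ n) (lap g) k ∂μ) : ℝ)) ∂μ) +
        dist (∫ h, Complex.exp (Complex.I * (-τ * (XF (D n) (δ n) (lap g) h -
        ∫ k, XF (D n) (δ n) (lap g) k ∂μ) : ℝ)) ∂μ)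
        (Complex.exp ((- τ ^ 2 * (σ / Real.sqrt 3) * dirE g / 2 : ℝ))) +
        dist (Complex.exp ((- τ ^ 2 * (σ / Real.sqrt 3) * dirE g / 2 : ℝ)))
        (Complex.exp ((- τ ^ 2 * (σ / Real.sqrt 3) * G / 2 : ℝ))) := dist_triangle4 _ _ _ _
    _ < ε := by
        have : dist (∫ h, Complex.exp (Complex.I * (τ * (XF (D n) (δ n) φ h -
          ∫ k, XF (D n) (δ n) φ k ∂μ) : ℝ)) ∂μ)
          (∫ h, Complex.exp (Complex.I * (-τ * (XF (D n) (δ n) (lap g) h -
          ∫ k, XF (D n) (δ n) (lap g) k ∂μ) : ℝ)) ∂μ) < ε / 4 := by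
          rw [dist_eq_norm]
          exact lt_of_le_of_lt hch hη1
        linarith

/- END mkg -/

/- MODULE mkh
Levy: characteristic functions of real random variables `X n` with means `m n → m`, centred
characteristic functions `→ exp(- τ² v / 2)`: the laws converge weakly to `gaussianReal m v`
(`ProbabilityMeasure.tendsto_iff_tendsto_charFun`, `charFun_gaussianReal`,
`ProbabilityMeasure.tendsto_iff_forall_integral_tendsto`). -/
theorem levy_gauss {Ωs : ℕ → Type} [∀ n, MeasurableSpace (Ωs n)] (μ : ∀ n, Measure (Ωs n))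
    [∀ n, IsProbabilityMeasure (μ n)] (X : ∀ n, Ωs n → ℝ) (hX : ∀ n, Measurable (X n))
    (m : ℕ → ℝ) {m₀ : ℝ} (v : NNReal) (hm : Tendsto m atTop (𝓝 m₀))
    (hc : ∀ τ : ℝ, Tendsto (fun n => ∫ k, Complex.exp (Complex.I * (τ * (X n k - m n) : ℝ)) ∂(μ n))
      atTop (𝓝 (Complex.exp ((- τ ^ 2 * v / 2 : ℝ)))))
    (f : BoundedContinuousFunction ℝ ℝ) :
    Tendsto (fun n => ∫ k, f (X n k) ∂(μ n)) atTop
      (𝓝 (∫ x, f x ∂(ProbabilityTheory.gaussianReal m₀ v))) := by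
  have hp : ∀ n, IsProbabilityMeasure ((μ n).map (X n)) := fun n =>
    Measure.isProbabilityMeasure_map (hX n).aemeasurable
  set P : ℕ → ProbabilityMeasure ℝ := fun n => ⟨(μ n).map (X n), hp n⟩ with hP
  set P0 : ProbabilityMeasure ℝ := ⟨ProbabilityTheory.gaussianReal m₀ v, inferInstance⟩ with hP0
  have h1 : Tendsto P atTop (𝓝 P0) := by
    rw [ProbabilityMeasure.tendsto_iff_tendsto_charFun]
    intro τ
    show Tendsto (fun n => charFun ((μ n).map (X n)) τ) atTop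
      (𝓝 (charFun (ProbabilityTheory.gaussianReal m₀ v) τ))
    rw [ProbabilityTheory.charFun_gaussianReal]
    have h2 : ∀ n, charFun ((μ n).map (X n)) τ = Complex.exp (Complex.I * (τ * m n : ℝ)) *
        ∫ k, Complex.exp (Complex.I * (τ * (X n k - m n) : ℝ)) ∂(μ n) := by
      intro n
      rw [charFun_apply_real, integral_map (hX n).aemeasurable (by fun_prop), ← integral_const_mul]
      refine integral_congr_ae (Filter.Eventually.of_forall fun k => ?_)
      show Complex.exp (τ * X n k * Complex.I) = Complex.exp (Complex.I * (τ * m n : ℝ)) *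
        Complex.exp (Complex.I * (τ * (X n k - m n) : ℝ))
      rw [← Complex.exp_add]
      congr 1
      push_cast
      ring
    simp only [h2]
    have h3 : Tendsto (fun n => Complex.exp (Complex.I * (τ * m n : ℝ))) atTop
        (𝓝 (Complex.exp (Complex.I * (τ * m₀ : ℝ)))) := by
      refine (Complex.continuous_exp.tendsto _).comp (Tendsto.const_mul _ ?_)
      exact (Complex.continuous_ofReal.tendsto _).comp (hm.const_mul τ)
    have h4 := h3.mul (hc τ)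
    have h5 : Complex.exp (Complex.I * (τ * m₀ : ℝ)) * Complex.exp ((- τ ^ 2 * v / 2 : ℝ)) =
        Complex.exp (τ * m₀ * Complex.I - v * τ ^ 2 / 2) := by
      rw [← Complex.exp_add]
      congr 1
      push_cast
      ring
    rw [h5] at h4
    exact h4
  rw [ProbabilityMeasure.tendsto_iff_forall_integral_tendsto] at h1
  have h2 := h1 f
  have h3 : ∀ n, ∫ y, f y ∂(P n : Measure ℝ) = ∫ k, f (X n k) ∂(μ n) := by
    intro n
    show ∫ y, f y ∂((μ n).map (X n)) = _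
    rw [integral_map (hX n).aemeasurable f.continuous.aestronglyMeasurable]
  simp only [h3] at h2
  exact h2

/- END mkh -/

/- MODULE mki
THE FINAL THEOREM (given the interior theorem). -/
private theorem mki_meas {D : Finset (ℤ × ℤ)} (δ : ℝ) (φ : ℂ → ℝ) :
    Measurable (fun h : D → ℝ => XF D δ φ h) := by
  unfold XF
  exact (Finset.measurable_fun_sum _ fun x _ => (measurable_pi_apply x).const_mul _).const_mul _

theorem gff {σ : ℝ} (hσ : 0 < σ) (hI : Itf σ) {Ω : Set ℂ} (hΩ : IsOpen Ω)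
    (hb : Bornology.IsBounded Ω) {δ : ℕ → ℝ} {D : ℕ → Finset (ℤ × ℤ)} (hA : Appr Ω δ D)
    {β : ℕ → ℤ × ℤ → ℝ} (hβ : ∀ n z, |β n z| ≤ 1 / 2) {φ : ℂ → ℝ} (hφ : CSC Ω φ) :
    (∀ f : BoundedContinuousFunction ℝ ℝ,
      Tendsto (fun n => ∫ h, f (XF (D n) (δ n) φ h -
        ∫ k, XF (D n) (δ n) φ k ∂(Mu (D n) (β n))) ∂(Mu (D n) (β n))) atTop
        (𝓝 (∫ x, f x ∂(ProbabilityTheory.gaussianReal 0
          (Real.toNNReal (σ / Real.sqrt 3 * GE Ω φ)))))) ∧
    ∀ (l : ℝ), 0 < l → l ≤ 1 / 2 → ∀ a b : ℂ, a ≠ b → ∀ A₁ A₂ : Set ℂ, IsClosed A₁ →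
      IsClosed A₂ → A₁ ∩ A₂ ⊆ {a, b} → frontier Ω ⊆ A₁ ∪ A₂ → Arcs l A₁ A₂ δ D β →
      ∀ u : ℂ → ℝ, InnerProductSpace.HarmonicOnNhd u Ω → (∀ z ∈ Ω, |u z| ≤ l) →
      (∀ ζ ∈ (A₁ ∩ frontier Ω) \ {a, b}, Tendsto u (𝓝[Ω] ζ) (𝓝 l)) →
      (∀ ζ ∈ (A₂ ∩ frontier Ω) \ {a, b}, Tendsto u (𝓝[Ω] ζ) (𝓝 (- l))) →
      ∀ f : BoundedContinuousFunction ℝ ℝ,
        Tendsto (fun n => ∫ h, f (XF (D n) (δ n) φ h) ∂(Mu (D n) (β n))) atTop
          (𝓝 (∫ x, f x ∂(ProbabilityTheory.gaussianReal (∫ z, u z * φ z)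
            (Real.toNNReal (σ / Real.sqrt 3 * GE Ω φ))))) := by
  haveI hp : ∀ n, IsProbabilityMeasure (Mu (D n) (β n)) := fun n => prob (hβ n)
  have hv : 0 ≤ σ / Real.sqrt 3 * GE Ω φ :=
    mul_nonneg (div_nonneg hσ.le (Real.sqrt_nonneg _)) (GE_nonneg hb hφ)
  have hcv : ∀ τ : ℝ, (- τ ^ 2 * ((Real.toNNReal (σ / Real.sqrt 3 * GE Ω φ) : NNReal) : ℝ) / 2) =
      (- τ ^ 2 * (σ / Real.sqrt 3) * GE Ω φ / 2) := by
    intro τ
    rw [Real.coe_toNNReal _ hv]
    ring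
  constructor
  · intro f
    refine levy_gauss (fun n => Mu (D n) (β n)) (fun n h => XF (D n) (δ n) φ h -
      ∫ k, XF (D n) (δ n) φ k ∂(Mu (D n) (β n))) (fun n => (mki_meas _ _).sub_const _)
      (fun _ => 0) _ tendsto_const_nhds (fun τ => ?_) f
    rw [hcv τ]
    have := clt hσ hI hΩ hb hA hβ hφ τ
    simpa only [sub_zero] using this
  · intro l hl0 hl a b hab A₁ A₂ h1 h2 h12 hf hB u hu hul hu1 hu2 f
    refine levy_gauss (fun n => Mu (D n) (β n)) (fun n h => XF (D n) (δ n) φ h)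
      (fun n => mki_meas _ _) (fun n => ∫ k, XF (D n) (δ n) φ k ∂(Mu (D n) (β n))) _
      (mean_lim hI hl0 hl hΩ hb hab h1 h2 h12 hf hA hβ hB hu hul hu1 hu2 hφ) (fun τ => ?_) f
    rw [hcv τ]
    exact clt hσ hI hΩ hb hA hβ hφ τ

/- END mki -/

end Pool.Agent.Hmk.Cn
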