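import Pool.Agent.Hmk.Defs

/-!
# Hmk: the definitions used in the statements on the free field (helper70)
-/

set_option autoImplicit false

open MeasureTheory Set Filter
open scoped ENNReal ContDiff Topology

noncomputable section

namespace Pool.Agent.Hmk.Cn

/-- the sixth root of unity `e^{i π / 3}` -/
def om : ℂ := ⟨1 / 2, Real.sqrt 3 / 2⟩

/-- the lattice point `x`, mesh `δ`, in the plane -/
def lat (δ : ℝ) (x : ℤ × ℤ) : ℂ := (δ : ℂ) * ((x.1 : ℂ) + (x.2 : ℂ) * om)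

/-- squared length of the gradient -/
def gsq (g : ℂ → ℝ) (z : ℂ) : ℝ := (fderiv ℝ g z 1) ^ 2 + (fderiv ℝ g z Complex.I) ^ 2

/-- Dirichlet energy -/
def dirE (g : ℂ → ℝ) : ℝ := ∫ z, gsq g z

/-- smooth functions with compact support in `Ω` -/
structure CSC (Ω : Set ℂ) (g : ℂ → ℝ) : Prop where
  sm : ContDiff ℝ ∞ g
  cs : HasCompactSupport g
  sub : tsupport g ⊆ Ω

/-- the functional whose supremum is the Green energy -/
def Jc (φ g : ℂ → ℝ) : ℝ := 2 * (∫ z, φ z * g z) - dirE g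

/-- the Green energy `∫∫ φ G_Ω φ` (`G_Ω` the Green function of `- Δ` with Dirichlet boundary
conditions), defined by Dirichlet's principle -/
def GE (Ω : Set ℂ) (φ : ℂ → ℝ) : ℝ := ⨆ g : {g : ℂ → ℝ // CSC Ω g}, Jc φ g.1

/-- the Green form `∫∫ φ G_Ω ψ` (polarisation of `GE`) -/
def GB (Ω : Set ℂ) (φ ψ : ℂ → ℝ) : ℝ :=
  (GE Ω (fun z => φ z + ψ z) - GE Ω (fun z => φ z - ψ z)) / 4

/-- the height function tested against `φ` (each vertex has area `√3 / 2 δ²`) -/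
def XF (D : Finset (ℤ × ℤ)) (δ : ℝ) (φ : ℂ → ℝ) (h : D → ℝ) : ℝ :=
  Real.sqrt 3 / 2 * δ ^ 2 * ∑ x : D, φ (lat δ x) * h x

/-- lattice domains `D n`, mesh `δ n → 0`, inside of `Ω` (the open hexagon of the six lattice
triangles around every free vertex lies in `Ω`) and exhausting `Ω` -/
structure Appr (Ω : Set ℂ) (δ : ℕ → ℝ) (D : ℕ → Finset (ℤ × ℤ)) : Prop where
  pos : ∀ n, 0 < δ n
  lim : Tendsto δ atTop (𝓝 0)
  inside : ∀ n, ∀ x ∈ D n,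
    interior (convexHull ℝ (range fun i : Fin 6 => lat (δ n) (x + st i))) ⊆ Ω
  exh : ∀ C : Set ℂ, IsCompact C → C ⊆ Ω → ∀ᶠ n in atTop, ∀ x, lat (δ n) x ∈ C → x ∈ D n

/-- boundary values `± l`, the fixed vertices with value `l` (`- l`) accumulate only at `A₁` (`A₂`) -/
structure Arcs (l : ℝ) (A₁ A₂ : Set ℂ) (δ : ℕ → ℝ) (D : ℕ → Finset (ℤ × ℤ))
    (β : ℕ → ℤ × ℤ → ℝ) : Prop where
  val : ∀ n, ∀ x ∈ D n, ∀ i, x + st i ∉ D n → β n (x + st i) = l ∨ β n (x + st i) = - l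
  near₁ : ∀ e : ℝ, 0 < e → ∀ᶠ n in atTop, ∀ x ∈ D n, ∀ i, x + st i ∉ D n → β n (x + st i) = l →
    ∃ ζ ∈ A₁, ‖lat (δ n) (x + st i) - ζ‖ < e
  near₂ : ∀ e : ℝ, 0 < e → ∀ᶠ n in atTop, ∀ x ∈ D n, ∀ i, x + st i ∉ D n →
    β n (x + st i) = - l → ∃ ζ ∈ A₂, ‖lat (δ n) (x + st i) - ζ‖ < e

end Pool.Agent.Hmk.Cn
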