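import Pool.Agent.Hmk.In
import Pool.Agent.Hmk.CnSt

/-!
# Hmk, second part: the continuum (helper70), definitions
-/

set_option autoImplicit false

open MeasureTheory Set Filter
open scoped ENNReal ContDiff Topology

noncomputable section

namespace Pool.Agent.Hmk.Cn

/-- Laplacian -/
def lap (g : ℂ → ℝ) (z : ℂ) : ℝ :=
  fderiv ℝ (fun w => fderiv ℝ g w 1) z 1 + fderiv ℝ (fun w => fderiv ℝ g w Complex.I) z Complex.I

/-- mean of the height at `x` -/
def mh (D : Finset (ℤ × ℤ)) (b : ℤ × ℤ → ℝ) (x : ℤ × ℤ) : ℝ := ∫ h, gl D b h x ∂(Mu D b)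

end Pool.Agent.Hmk.Cn
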