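import Mathlib

/-!
# Hmk: uniform Lipschitz functions on the triangular lattice (MP_161523_pr), definitions

Lattice points are `(p, q) : ℤ × ℤ` (the point `p + q e^{i π / 3}`), the six neighbours of `x` are
`x + st i`.  `R` is a finite set of free sites, `c` the fixed values off `R`, `gl R c h` the height
function which is `h` on `R` and `c` off `R`, `K R c` the set of all `h : R → ℝ` such that
neighbouring heights differ by at most `1` (edges with at least one end in `R`).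
-/

set_option autoImplicit false

open MeasureTheory Set
open scoped ENNReal

noncomputable section

namespace Pool.Agent.Hmk

/-- the six steps of the triangular lattice, in cyclic order -/
def st : Fin 6 → ℤ × ℤ := ![(1, 0), (0, 1), (-1, 1), (-1, 0), (0, -1), (1, -1)]

/-- the height function: `h` on the free sites `R`, `c` elsewhere -/
def gl (R : Finset (ℤ × ℤ)) (c : ℤ × ℤ → ℝ) (h : R → ℝ) (z : ℤ × ℤ) : ℝ :=
  if hz : z ∈ R then h ⟨z, hz⟩ else c z

/-- the admissible configurations on the free sites `R` with fixed values `c` off `R` -/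
def K (R : Finset (ℤ × ℤ)) (c : ℤ × ℤ → ℝ) : Set (R → ℝ) :=
  {h | ∀ x ∈ R, ∀ i : Fin 6, |gl R c h x - gl R c h (x + st i)| ≤ 1}

/-- the volume of the admissible configurations -/
def Z (R : Finset (ℤ × ℤ)) (c : ℤ × ℤ → ℝ) : ℝ≥0∞ := volume (K R c)

/-- graph distance to the origin -/
def dn (z : ℤ × ℤ) : ℤ := max |z.1| (max |z.2| |z.1 + z.2|)

/-- the function `q` of the proof: `q ≤ 0` at `x = u`, `q = 0` at `x = v` (if `v` is a neighbour
of `u`) -/
def qf (D : Finset (ℤ × ℤ)) (b : ℤ × ℤ → ℝ) (u v : ℤ × ℤ) (h : D → ℝ) (x : ℤ × ℤ) : ℝ :=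
  gl D b h x - gl D b h v - 1 + (dn (x - u) : ℝ)

/-- the free sites `x ≠ u, v` with `q x < 1 / 2` -/
def Ns (D : Finset (ℤ × ℤ)) (b : ℤ × ℤ → ℝ) (u v : ℤ × ℤ) (h : D → ℝ) : Finset (ℤ × ℤ) := by
  classical exact D.filter (fun x => x ≠ u ∧ x ≠ v ∧ qf D b u v h x < 1 / 2)

/-- their number -/
def Nn (D : Finset (ℤ × ℤ)) (b : ℤ × ℤ → ℝ) (u v : ℤ × ℤ) (h : D → ℝ) : ℕ :=
  (Ns D b u v h).card

/-- the configurations with `h v ≤ 0` -/
def Reg (D : Finset (ℤ × ℤ)) (b : ℤ × ℤ → ℝ) (v : ℤ × ℤ) : Set (D → ℝ) :=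
  {h | h ∈ K D b ∧ gl D b h v ≤ 0}

/-- the pair `(u, v)` is good: `v` is a neighbour of the free site `u`, and if `u` has a fixed
neighbour `z` then `v` is fixed and `b v ≤ b z` -/
structure Good (D : Finset (ℤ × ℤ)) (b : ℤ × ℤ → ℝ) (u v : ℤ × ℤ) : Prop where
  hu : u ∈ D
  nb : ∃ i, v = u + st i
  fx : ∀ i, u + st i ∉ D → v ∉ D ∧ b v ≤ b (u + st i)

end Pool.Agent.Hmk
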