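import Pool.Agent.Hmk.Us

/-!
# Hmk: the mass outside `K` (PART B)
-/

set_option autoImplicit false

open MeasureTheory Set Filter
open scoped ENNReal SchwartzMap ContDiff Topology

noncomputable section

namespace Pool.Agent.Hmk

variable {ι : Type*} [Fintype ι] [DecidableEq ι]

/-- `√(f^2 + e^2)` for `f = e^{V/2} ζ` -/
def Fe (V : (ι → ℝ) → ℝ) (ζ : 𝓢(ι → ℝ, ℝ)) (e : ℝ) (h : ι → ℝ) : ℝ :=
  Real.sqrt ((Real.exp (V h / 2) * ζ h) ^ 2 + e ^ 2)

/- MODULE xa
`pd x (e^{V/2} ζ) = e^{V/2} av V x ζ`; `|pd x (Fe V ζ e)| ≤ e^{V/2} |av V x ζ|` for `e > 0`;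
`e^{V/2} |ζ| ≤ Fe ≤ e^{V/2} |ζ| + e`. -/
omit [DecidableEq ι] in
private theorem xa_exp {V : (ι → ℝ) → ℝ} (hV : V.HasTemperateGrowth) (h : ι → ℝ) :
    HasFDerivAt (fun k => Real.exp (V k / 2))
      (Real.exp (V h / 2) • ((1 / 2 : ℝ) • fderiv ℝ V h)) h := by
  have h1 : HasFDerivAt V (fderiv ℝ V h) h := ((hV.1.differentiable (by simp)) h).hasFDerivAt
  have h2 : HasFDerivAt (fun k => V k / 2) ((1 / 2 : ℝ) • fderiv ℝ V h) h := by
    have h3 := h1.const_smul (1 / 2 : ℝ)
    refine h3.congr_of_eventuallyEq (Eventually.of_forall fun k => ?_)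
    simp only [Pi.smul_apply, smul_eq_mul]
    ring
  exact h2.exp

omit [DecidableEq ι] in
private theorem xa_f {V : (ι → ℝ) → ℝ} (hV : V.HasTemperateGrowth) (ζ : 𝓢(ι → ℝ, ℝ)) :
    ContDiff ℝ 1 (fun k => Real.exp (V k / 2) * ζ k) :=
  ((hV.1.of_le (by exact_mod_cast le_top)).div_const 2).exp.mul
    ((ζ.smooth 1).of_le le_rfl)

theorem pd_exp {V : (ι → ℝ) → ℝ} (hV : V.HasTemperateGrowth) (ζ : 𝓢(ι → ℝ, ℝ)) (x : ι)
    (h : ι → ℝ) :
    pd x (fun k => Real.exp (V k / 2) * ζ k) h = Real.exp (V h / 2) * av V x ζ h := by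
  have h1 := xa_exp hV h
  rw [pd_mul h1.differentiableAt ζ.differentiableAt, av_apply hV, pd, h1.fderiv]
  simp only [FunLike.coe_smul, Pi.smul_apply, smul_eq_mul, pd]
  ring

theorem pd_Fe {V : (ι → ℝ) → ℝ} (hV : V.HasTemperateGrowth) (ζ : 𝓢(ι → ℝ, ℝ)) {e : ℝ}
    (he : 0 < e) (x : ι) (h : ι → ℝ) :
    |pd x (Fe V ζ e) h| ≤ Real.exp (V h / 2) * |av V x ζ h| := by
  have hf := (xa_f hV ζ).differentiable one_ne_zero h
  have h1 := hf.hasFDerivAt
  have hpos : 0 < (Real.exp (V h / 2) * ζ h) ^ 2 + e ^ 2 := by positivity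
  have h2 : HasFDerivAt (fun k => (Real.exp (V k / 2) * ζ k) ^ 2 + e ^ 2)
      ((2 * (Real.exp (V h / 2) * ζ h)) • fderiv ℝ (fun k => Real.exp (V k / 2) * ζ k) h) h := by
    have h3 := (h1.pow 2).add_const (e ^ 2)
    simpa using h3
  have h4 := h2.sqrt hpos.ne'
  have h5 : pd x (Fe V ζ e) h = (Real.exp (V h / 2) * ζ h) /
      Real.sqrt ((Real.exp (V h / 2) * ζ h) ^ 2 + e ^ 2) * (Real.exp (V h / 2) * av V x ζ h) := by
    rw [pd, show Fe V ζ e = fun k => Real.sqrt ((Real.exp (V k / 2) * ζ k) ^ 2 + e ^ 2) from rfl,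
      h4.fderiv, ← pd_exp hV ζ x h, pd]
    simp only [FunLike.coe_smul, Pi.smul_apply, smul_eq_mul]
    have h6 : Real.sqrt ((Real.exp (V h / 2) * ζ h) ^ 2 + e ^ 2) ≠ 0 := (Real.sqrt_pos.2 hpos).ne'
    field_simp
  rw [h5, abs_mul, abs_mul (Real.exp (V h / 2)), abs_of_pos (Real.exp_pos _)]
  have h7 : |(Real.exp (V h / 2) * ζ h) /
      Real.sqrt ((Real.exp (V h / 2) * ζ h) ^ 2 + e ^ 2)| ≤ 1 := by
    rw [abs_div, abs_of_pos (Real.sqrt_pos.2 hpos), div_le_one (Real.sqrt_pos.2 hpos)]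
    exact Real.abs_le_sqrt (by nlinarith [sq_nonneg e])
  exact mul_le_of_le_one_left (mul_nonneg (Real.exp_pos _).le (abs_nonneg _)) h7

theorem Fe_diff {V : (ι → ℝ) → ℝ} (hV : V.HasTemperateGrowth) (ζ : 𝓢(ι → ℝ, ℝ)) {e : ℝ}
    (he : 0 < e) : ContDiff ℝ 1 (Fe V ζ e) := by
  refine ContDiff.sqrt (((xa_f hV ζ).pow 2).add contDiff_const) fun h => ?_
  have hpos : 0 < (Real.exp (V h / 2) * ζ h) ^ 2 + e ^ 2 := by positivity
  exact hpos.ne'

theorem Fe_ge {V : (ι → ℝ) → ℝ} (ζ : 𝓢(ι → ℝ, ℝ)) (e : ℝ) (h : ι → ℝ) :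
    Real.exp (V h / 2) * |ζ h| ≤ Fe V ζ e h := by
  have h1 : Real.exp (V h / 2) * |ζ h| = |Real.exp (V h / 2) * ζ h| := by
    rw [abs_mul, abs_of_pos (Real.exp_pos _)]
  rw [h1]
  exact Real.abs_le_sqrt (by nlinarith [sq_nonneg e])

theorem Fe_le {V : (ι → ℝ) → ℝ} (ζ : 𝓢(ι → ℝ, ℝ)) {e : ℝ} (he : 0 ≤ e) (h : ι → ℝ) :
    Fe V ζ e h ≤ Real.exp (V h / 2) * |ζ h| + e := by
  have h1 : Real.exp (V h / 2) * |ζ h| = |Real.exp (V h / 2) * ζ h| := by
    rw [abs_mul, abs_of_pos (Real.exp_pos _)]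
  rw [h1]
  refine Real.sqrt_le_iff.2 ⟨by positivity, ?_⟩
  rw [← sq_abs (Real.exp (V h / 2) * ζ h)]
  nlinarith [mul_nonneg (abs_nonneg (Real.exp (V h / 2) * ζ h)) he]
/- END xa -/

/- MODULE xb
Divergence identity: for every `x`, `∫ ∂_x (h_x F e^{-V}) = 0` (integrable with integrable derivative:
`exp_int`, polynomial growth of `pd x V`, Schwartz decay of `ζ` and `av V x ζ`, `Fe_le`, `pd_Fe`);
sum over `x`. -/
private theorem xb_i1 {V : (ι → ℝ) → ℝ} (hV : V.HasTemperateGrowth) {a A : ℝ} (ha : 0 < a)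
    (hlow : ∀ h, a * ‖h‖ - A ≤ V h) {P : (ι → ℝ) → ℝ} (hP : P.HasTemperateGrowth) :
    Integrable (fun h => P h * Real.exp (- V h)) := by
  obtain ⟨k, C, hC, hb⟩ := hP.norm_iteratedFDeriv_le_uniform 0
  have hb' : ∀ h, |P h| ≤ C * (2 ^ (k - 1) * (1 + ‖h‖ ^ k)) := by
    intro h
    have h1 := hb 0 le_rfl h
    rw [norm_iteratedFDeriv_zero, Real.norm_eq_abs] at h1
    have h2 := add_pow_le (zero_le_one (α := ℝ)) (norm_nonneg h) k
    rw [one_pow] at h2
    exact h1.trans (mul_le_mul_of_nonneg_left h2 hC)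
  have hVc : Continuous V := hV.1.continuous
  have i0 := exp_int hVc ha hlow 0 (r := 1) one_pos
  have ik := exp_int hVc ha hlow k (r := 1) one_pos
  have hg : Integrable (fun h => C * 2 ^ (k - 1) * (‖h‖ ^ 0 * Real.exp (- 1 * V h) +
      ‖h‖ ^ k * Real.exp (- 1 * V h))) := (i0.add ik).const_mul _
  refine hg.mono' ?_ (Filter.Eventually.of_forall fun h => ?_)
  · exact (hP.1.continuous.mul (Real.continuous_exp.comp hVc.neg)).aestronglyMeasurable
  · rw [norm_mul, Real.norm_eq_abs, Real.norm_eq_abs, Real.abs_exp]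
    have h3 : - 1 * V h = - V h := by ring
    rw [h3]
    calc |P h| * Real.exp (- V h) ≤ (C * (2 ^ (k - 1) * (1 + ‖h‖ ^ k))) * Real.exp (- V h) :=
          mul_le_mul_of_nonneg_right (hb' h) (Real.exp_pos _).le
      _ = _ := by ring

private theorem xb_i2 {V : (ι → ℝ) → ℝ} (hV : V.HasTemperateGrowth) {a A : ℝ} (ha : 0 < a)
    (hlow : ∀ h, a * ‖h‖ - A ≤ V h) {P : (ι → ℝ) → ℝ} (hP : P.HasTemperateGrowth)
    (ζ : 𝓢(ι → ℝ, ℝ)) : Integrable (fun h => P h * ζ h * Real.exp (- V h / 2)) := by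
  have hVc : Continuous V := hV.1.continuous
  have h1 : (fun h => P h * ζ h) = mu P ζ := funext fun h => (mu_apply hP ζ h).symm
  have i1 : Integrable (fun h => P h * ζ h) := by
    rw [h1]
    exact SchwartzMap.integrable _
  refine i1.mul_bdd (c := Real.exp (A / 2)) ?_ (Filter.Eventually.of_forall fun h => ?_)
  · exact (Real.continuous_exp.comp (hVc.neg.div_const 2)).aestronglyMeasurable
  · rw [Real.norm_eq_abs, Real.abs_exp]
    exact exp_bdd ha hlow h

private theorem xb_iF {V : (ι → ℝ) → ℝ} (hV : V.HasTemperateGrowth) {a A : ℝ} (ha : 0 < a)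
    (hlow : ∀ h, a * ‖h‖ - A ≤ V h) {P : (ι → ℝ) → ℝ} (hP : P.HasTemperateGrowth)
    (ζ : 𝓢(ι → ℝ, ℝ)) {e : ℝ} (he : 0 < e) :
    Integrable (fun h => P h * Fe V ζ e h * Real.exp (- V h)) := by
  have hVc : Continuous V := hV.1.continuous
  have hg := (xb_i2 hV ha hlow hP ζ).norm.add ((xb_i1 hV ha hlow hP).norm.const_mul e)
  refine hg.mono' ?_ (Filter.Eventually.of_forall fun h => ?_)
  · exact ((hP.1.continuous.mul (Fe_diff hV ζ he).continuous).mul
      (Real.continuous_exp.comp hVc.neg)).aestronglyMeasurable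
  · have h0 : 0 ≤ Fe V ζ e h := Real.sqrt_nonneg _
    show ‖P h * Fe V ζ e h * Real.exp (- V h)‖ ≤
      ‖P h * ζ h * Real.exp (- V h / 2)‖ + e * ‖P h * Real.exp (- V h)‖
    simp only [norm_mul, Real.norm_eq_abs, Real.abs_exp, abs_of_nonneg h0]
    have h1 := Fe_le (V := V) ζ he.le h
    have h2 : Real.exp (- V h / 2) = Real.exp (V h / 2) * Real.exp (- V h) := by
      rw [← Real.exp_add]
      congr 1
      ring
    rw [h2]
    calc |P h| * Fe V ζ e h * Real.exp (- V h)
        ≤ |P h| * (Real.exp (V h / 2) * |ζ h| + e) * Real.exp (- V h) := by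
          have := Real.exp_pos (- V h)
          gcongr
      _ = _ := by ring

private theorem xb_idF {V : (ι → ℝ) → ℝ} (hV : V.HasTemperateGrowth) {a A : ℝ} (ha : 0 < a)
    (hlow : ∀ h, a * ‖h‖ - A ≤ V h) {P : (ι → ℝ) → ℝ} (hP : P.HasTemperateGrowth)
    (ζ : 𝓢(ι → ℝ, ℝ)) {e : ℝ} (he : 0 < e) (x : ι) :
    Integrable (fun h => P h * pd x (Fe V ζ e) h * Real.exp (- V h)) := by
  have hVc : Continuous V := hV.1.continuous
  have hg := (xb_i2 hV ha hlow hP (av V x ζ)).norm
  refine hg.mono' ?_ (Filter.Eventually.of_forall fun h => ?_)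
  · refine ((hP.1.continuous.mul ?_).mul
      (Real.continuous_exp.comp hVc.neg)).aestronglyMeasurable
    unfold pd
    exact ((Fe_diff hV ζ he).continuous_fderiv (by norm_num)).clm_apply continuous_const
  · simp only [norm_mul, Real.norm_eq_abs, Real.abs_exp]
    have h1 := pd_Fe hV ζ he x h
    have h2 : Real.exp (- V h / 2) = Real.exp (V h / 2) * Real.exp (- V h) := by
      rw [← Real.exp_add]
      congr 1
      ring
    rw [h2]
    calc |P h| * |pd x (Fe V ζ e) h| * Real.exp (- V h)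
        ≤ |P h| * (Real.exp (V h / 2) * |av V x ζ h|) * Real.exp (- V h) := by
          have := Real.exp_pos (- V h)
          gcongr
      _ = _ := by ring

private theorem xb_co (x : ι) : (fun h : ι → ℝ => h x).HasTemperateGrowth :=
  (ContinuousLinearMap.proj (R := ℝ) (φ := fun _ : ι => ℝ) x).hasTemperateGrowth

private theorem xb_cV {V : (ι → ℝ) → ℝ} (hV : V.HasTemperateGrowth) (x : ι) :
    (fun h : ι → ℝ => h x * pd x V h).HasTemperateGrowth :=
  (xb_co x).mul (pd_temp hV x)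

private theorem xb_one : (fun _ : ι → ℝ => (1 : ℝ)).HasTemperateGrowth :=
  Function.HasTemperateGrowth.const 1

private theorem xb_pd {V : (ι → ℝ) → ℝ} (hV : V.HasTemperateGrowth) (x : ι) (h : ι → ℝ) :
    pd x (fun k => k x * Real.exp (- V k)) h =
      Real.exp (- V h) - h x * pd x V h * Real.exp (- V h) := by
  have hd : HasFDerivAt V (fderiv ℝ V h) h := (hV.1.differentiable (by simp) h).hasFDerivAt
  have h1 := hd.neg.exp
  have h2 : pd x (fun k => Real.exp (- V k)) h = - (pd x V h * Real.exp (- V h)) := by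
    show fderiv ℝ (fun k => Real.exp (- V k)) h (Pi.single x 1) = _
    have h3 : fderiv ℝ (fun k => Real.exp (- V k)) h =
        Real.exp (- V h) • - fderiv ℝ V h := h1.fderiv
    rw [h3]
    show Real.exp (- V h) * - (fderiv ℝ V h (Pi.single x 1)) = _
    unfold pd
    ring
  have h4 : pd x (fun k : ι → ℝ => k x) h = 1 := by
    show fderiv ℝ (fun k : ι → ℝ => k x) h (Pi.single x 1) = 1
    have h5 : fderiv ℝ (fun k : ι → ℝ => k x) h =
        ContinuousLinearMap.proj (R := ℝ) (φ := fun _ : ι => ℝ) x :=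
      (ContinuousLinearMap.proj (R := ℝ) (φ := fun _ : ι => ℝ) x).fderiv
    rw [h5]
    simp
  have h1d : DifferentiableAt ℝ (fun k => Real.exp (- V k)) h := h1.differentiableAt
  rw [pd_mul ((xb_co x).1.differentiable (by simp) h) h1d, h2, h4]
  ring

private theorem xb_each {V : (ι → ℝ) → ℝ} (hV : V.HasTemperateGrowth) {a A : ℝ} (ha : 0 < a)
    (hlow : ∀ h, a * ‖h‖ - A ≤ V h) (ζ : 𝓢(ι → ℝ, ℝ)) {e : ℝ} (he : 0 < e) (x : ι) :
    ∫ h, h x * pd x V h * Fe V ζ e h * Real.exp (- V h) =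
      ∫ h, (Fe V ζ e h * Real.exp (- V h) + h x * pd x (Fe V ζ e) h * Real.exp (- V h)) := by
  have j1 : Integrable (fun h => Fe V ζ e h * Real.exp (- V h)) := by
    have := xb_iF hV ha hlow xb_one ζ he
    simpa using this
  have j2 := xb_iF hV ha hlow (xb_cV hV x) ζ he
  have j3 := xb_idF hV ha hlow (xb_co x) ζ he x
  have hibp := integral_mul_fderiv_eq_neg_fderiv_mul_of_integrable (μ := (volume : Measure (ι → ℝ)))
    (f := Fe V ζ e) (g := fun k => k x * Real.exp (- V k)) (v := (Pi.single x (1 : ℝ) : ι → ℝ))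
    (by
      refine j3.congr (Filter.Eventually.of_forall fun h => ?_)
      show h x * pd x (Fe V ζ e) h * Real.exp (- V h) =
        pd x (Fe V ζ e) h * (h x * Real.exp (- V h))
      ring)
    (by
      refine (j1.sub j2).congr (Filter.Eventually.of_forall fun h => ?_)
      show Fe V ζ e h * Real.exp (- V h) - h x * pd x V h * Fe V ζ e h * Real.exp (- V h) =
        Fe V ζ e h * pd x (fun k => k x * Real.exp (- V k)) h
      rw [xb_pd hV]
      ring)
    (by
      refine (xb_iF hV ha hlow (xb_co x) ζ he).congr (Filter.Eventually.of_forall fun h => ?_)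
      show h x * Fe V ζ e h * Real.exp (- V h) = Fe V ζ e h * (h x * Real.exp (- V h))
      ring)
    (fun h _ => (Fe_diff hV ζ he).differentiable (by norm_num) h)
    (fun h _ => by
      have hd : HasFDerivAt V (fderiv ℝ V h) h := (hV.1.differentiable (by simp) h).hasFDerivAt
      exact ((xb_co x).1.differentiable (by simp) h).mul hd.neg.exp.differentiableAt)
  have e1 : ∀ h, Fe V ζ e h * fderiv ℝ (fun k => k x * Real.exp (- V k)) h (Pi.single x 1) =
      Fe V ζ e h * Real.exp (- V h) - h x * pd x V h * Fe V ζ e h * Real.exp (- V h) := by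
    intro h
    have := xb_pd hV x h
    unfold pd at this
    rw [this]
    unfold pd
    ring
  have e2 : ∀ h, fderiv ℝ (Fe V ζ e) h (Pi.single x 1) * (h x * Real.exp (- V h)) =
      h x * pd x (Fe V ζ e) h * Real.exp (- V h) := by
    intro h
    unfold pd
    ring
  simp only [e1, e2] at hibp
  rw [integral_sub j1 j2] at hibp
  rw [integral_add j1 j3]
  linarith

theorem div_id {V : (ι → ℝ) → ℝ} (hV : V.HasTemperateGrowth) {a A : ℝ} (ha : 0 < a)
    (hlow : ∀ h, a * ‖h‖ - A ≤ V h) (ζ : 𝓢(ι → ℝ, ℝ)) {e : ℝ} (he : 0 < e) :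
    ∫ h, Fe V ζ e h * (∑ x, h x * pd x V h) * Real.exp (- V h) =
      ∫ h, ((Fintype.card ι : ℝ) * Fe V ζ e h + ∑ x, h x * pd x (Fe V ζ e) h) *
        Real.exp (- V h) := by
  have j1 : Integrable (fun h => Fe V ζ e h * Real.exp (- V h)) := by
    have := xb_iF hV ha hlow xb_one ζ he
    simpa using this
  have e1 : ∀ h, Fe V ζ e h * (∑ x, h x * pd x V h) * Real.exp (- V h) =
      ∑ x, h x * pd x V h * Fe V ζ e h * Real.exp (- V h) := by
    intro h
    rw [mul_comm (Fe V ζ e h), Finset.sum_mul, Finset.sum_mul]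
  have e2 : ∀ h, ((Fintype.card ι : ℝ) * Fe V ζ e h + ∑ x, h x * pd x (Fe V ζ e) h) *
      Real.exp (- V h) =
      ∑ x, (Fe V ζ e h * Real.exp (- V h) + h x * pd x (Fe V ζ e) h * Real.exp (- V h)) := by
    intro h
    rw [Finset.sum_add_distrib, Finset.sum_const, Finset.card_univ, nsmul_eq_mul, ← Finset.sum_mul]
    ring
  have j4 : ∀ x, Integrable (fun h => Fe V ζ e h * Real.exp (- V h) +
      h x * pd x (Fe V ζ e) h * Real.exp (- V h)) :=
    fun x => j1.add (xb_idF hV ha hlow (xb_co x) ζ he x)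
  simp only [e1, e2]
  rw [integral_finsetSum _ fun x _ => xb_iF hV ha hlow (xb_cV hV x) ζ he,
    integral_finsetSum _ fun x _ => j4 x]
  exact Finset.sum_congr rfl fun x _ => xb_each hV ha hlow ζ he x
/- END xb -/

/- MODULE xc
`Fe ≥ e^{V/2} |ζ|`, `∑ h_x V_x + β ≥ 0`, so by `div_id`
`∫ |ζ| e^{-V/2} (∑ h_x V_x + β) ≤ ∫ Fe (∑ h_x V_x + β) e^{-V}`
`≤ (n + β) ∫ |ζ| e^{-V/2} + (n + β) e ∫ e^{-V} + ∫ ∑ |h_x| |av V x ζ| e^{-V/2}`; let `e → 0`. -/
theorem div_ineq {V : (ι → ℝ) → ℝ} (hV : V.HasTemperateGrowth) {a A : ℝ} (ha : 0 < a)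
    (hlow : ∀ h, a * ‖h‖ - A ≤ V h) {β : ℝ} (hβ : 0 ≤ β)
    (hpos : ∀ h, 0 ≤ ∑ x, h x * pd x V h + β) (ζ : 𝓢(ι → ℝ, ℝ)) :
    ∫ h, |ζ h| * Real.exp (- V h / 2) * (∑ x, h x * pd x V h + β) ≤
      ((Fintype.card ι : ℝ) + β) * (∫ h, |ζ h| * Real.exp (- V h / 2)) +
        ∫ h, ∑ x, |h x| * |av V x ζ h| * Real.exp (- V h / 2) := by
  have hGt : (fun h : ι → ℝ => ∑ x, h x * pd x V h + β).HasTemperateGrowth :=
    (Function.HasTemperateGrowth.sum (s := Finset.univ) (f := fun x (h : ι → ℝ) => h x * pd x V h)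
      fun x _ => xb_cV hV x).add (Function.HasTemperateGrowth.const β)
  set n : ℝ := (Fintype.card ι : ℝ) with hn
  have hn0 : 0 ≤ n := Nat.cast_nonneg _
  have iz : Integrable (fun h => |ζ h| * Real.exp (- V h / 2)) := by
    have h1 := (xb_i2 hV ha hlow xb_one ζ).norm
    refine h1.congr (Filter.Eventually.of_forall fun h => ?_)
    simp only [norm_mul, Real.norm_eq_abs, Real.abs_exp, abs_one, one_mul]
  have iE : Integrable (fun h => Real.exp (- V h)) := by
    have := xb_i1 hV ha hlow (xb_one (ι := ι))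
    simpa using this
  have iG : Integrable (fun h => |ζ h| * Real.exp (- V h / 2) * (∑ x, h x * pd x V h + β)) := by
    have h1 := (xb_i2 hV ha hlow hGt ζ).norm
    refine h1.congr (Filter.Eventually.of_forall fun h => ?_)
    show ‖(∑ x, h x * pd x V h + β) * ζ h * Real.exp (- V h / 2)‖ = _
    rw [norm_mul, norm_mul, Real.norm_eq_abs, Real.norm_eq_abs, Real.norm_eq_abs, Real.abs_exp,
      abs_of_nonneg (hpos h)]
    ring
  have iA : ∀ x, Integrable (fun h => |h x| * |av V x ζ h| * Real.exp (- V h / 2)) := by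
    intro x
    have h1 := (xb_i2 hV ha hlow (xb_co x) (av V x ζ)).norm
    refine h1.congr (Filter.Eventually.of_forall fun h => ?_)
    simp only [norm_mul, Real.norm_eq_abs, Real.abs_exp]
  have key : ∀ e : ℝ, 0 < e →
      ∫ h, |ζ h| * Real.exp (- V h / 2) * (∑ x, h x * pd x V h + β) ≤
        ((n + β) * (∫ h, |ζ h| * Real.exp (- V h / 2)) +
          ∫ h, ∑ x, |h x| * |av V x ζ h| * Real.exp (- V h / 2)) +
          (n + β) * e * ∫ h, Real.exp (- V h) := by
    intro e he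
    have j1 : Integrable (fun h => Fe V ζ e h * Real.exp (- V h)) := by
      have := xb_iF hV ha hlow xb_one ζ he
      simpa using this
    have jG := xb_iF hV ha hlow hGt ζ he
    have jS : Integrable (fun h => Fe V ζ e h * (∑ x, h x * pd x V h) * Real.exp (- V h)) := by
      refine (jG.sub (j1.const_mul β)).congr (Filter.Eventually.of_forall fun h => ?_)
      show (∑ x, h x * pd x V h + β) * Fe V ζ e h * Real.exp (- V h) -
        β * (Fe V ζ e h * Real.exp (- V h)) = _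
      ring
    have jd : Integrable (fun h => ∑ x, h x * pd x (Fe V ζ e) h * Real.exp (- V h)) :=
      integrable_finsetSum _ fun x _ => xb_idF hV ha hlow (xb_co x) ζ he x
    have h1 : ∫ h, |ζ h| * Real.exp (- V h / 2) * (∑ x, h x * pd x V h + β) ≤
        ∫ h, (∑ x, h x * pd x V h + β) * Fe V ζ e h * Real.exp (- V h) := by
      refine integral_mono iG jG fun h => ?_
      have h2 : Real.exp (- V h / 2) = Real.exp (V h / 2) * Real.exp (- V h) := by
        rw [← Real.exp_add]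
        congr 1
        ring
      show |ζ h| * Real.exp (- V h / 2) * (∑ x, h x * pd x V h + β) ≤
        (∑ x, h x * pd x V h + β) * Fe V ζ e h * Real.exp (- V h)
      rw [h2]
      have h3 := Fe_ge (V := V) ζ e h
      have h4 := Real.exp_pos (- V h)
      have h5 := hpos h
      calc |ζ h| * (Real.exp (V h / 2) * Real.exp (- V h)) * (∑ x, h x * pd x V h + β)
          = (∑ x, h x * pd x V h + β) * (Real.exp (V h / 2) * |ζ h|) * Real.exp (- V h) := by
            ring
        _ ≤ _ := by gcongr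
    have h2 : ∫ h, (∑ x, h x * pd x V h + β) * Fe V ζ e h * Real.exp (- V h) =
        (n + β) * (∫ h, Fe V ζ e h * Real.exp (- V h)) +
          ∫ h, ∑ x, h x * pd x (Fe V ζ e) h * Real.exp (- V h) := by
      have e1 : ∀ h, (∑ x, h x * pd x V h + β) * Fe V ζ e h * Real.exp (- V h) =
          Fe V ζ e h * (∑ x, h x * pd x V h) * Real.exp (- V h) +
            β * (Fe V ζ e h * Real.exp (- V h)) := by
        intro h
        ring
      simp only [e1]
      rw [integral_add jS (j1.const_mul β), div_id hV ha hlow ζ he, integral_const_mul]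
      have e2 : ∀ h, ((Fintype.card ι : ℝ) * Fe V ζ e h + ∑ x, h x * pd x (Fe V ζ e) h) *
          Real.exp (- V h) = n * (Fe V ζ e h * Real.exp (- V h)) +
            ∑ x, h x * pd x (Fe V ζ e) h * Real.exp (- V h) := by
        intro h
        rw [← Finset.sum_mul]
        ring
      simp only [e2]
      rw [integral_add (j1.const_mul n) jd, integral_const_mul]
      ring
    have h3 : ∫ h, Fe V ζ e h * Real.exp (- V h) ≤
        (∫ h, |ζ h| * Real.exp (- V h / 2)) + e * ∫ h, Real.exp (- V h) := by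
      rw [← integral_const_mul, ← integral_add iz (iE.const_mul e)]
      refine integral_mono j1 (iz.add (iE.const_mul e)) fun h => ?_
      show Fe V ζ e h * Real.exp (- V h) ≤
        |ζ h| * Real.exp (- V h / 2) + e * Real.exp (- V h)
      have h2 : Real.exp (- V h / 2) = Real.exp (V h / 2) * Real.exp (- V h) := by
        rw [← Real.exp_add]
        congr 1
        ring
      rw [h2]
      have h3 := Fe_le (V := V) ζ he.le h
      have h4 := Real.exp_pos (- V h)
      calc Fe V ζ e h * Real.exp (- V h)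
          ≤ (Real.exp (V h / 2) * |ζ h| + e) * Real.exp (- V h) := by gcongr
        _ = _ := by ring
    have h4 : ∫ h, ∑ x, h x * pd x (Fe V ζ e) h * Real.exp (- V h) ≤
        ∫ h, ∑ x, |h x| * |av V x ζ h| * Real.exp (- V h / 2) := by
      refine integral_mono jd (integrable_finsetSum _ fun x _ => iA x) fun h => ?_
      refine Finset.sum_le_sum fun x _ => ?_
      have h2 : Real.exp (- V h / 2) = Real.exp (V h / 2) * Real.exp (- V h) := by
        rw [← Real.exp_add]
        congr 1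
        ring
      rw [h2]
      have h3 := pd_Fe hV ζ he x h
      have h4 := Real.exp_pos (- V h)
      calc h x * pd x (Fe V ζ e) h * Real.exp (- V h)
          ≤ |h x| * |pd x (Fe V ζ e) h| * Real.exp (- V h) := by
            rw [← abs_mul]
            exact mul_le_mul_of_nonneg_right (le_abs_self _) h4.le
        _ ≤ |h x| * (Real.exp (V h / 2) * |av V x ζ h|) * Real.exp (- V h) := by gcongr
        _ = _ := by ring
    have h5 : (n + β) * (∫ h, Fe V ζ e h * Real.exp (- V h)) ≤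
        (n + β) * ((∫ h, |ζ h| * Real.exp (- V h / 2)) + e * ∫ h, Real.exp (- V h)) :=
      mul_le_mul_of_nonneg_left h3 (by linarith)
    calc ∫ h, |ζ h| * Real.exp (- V h / 2) * (∑ x, h x * pd x V h + β)
        ≤ (n + β) * (∫ h, Fe V ζ e h * Real.exp (- V h)) +
          ∫ h, ∑ x, h x * pd x (Fe V ζ e) h * Real.exp (- V h) := h1.trans h2.le
      _ ≤ (n + β) * ((∫ h, |ζ h| * Real.exp (- V h / 2)) + e * ∫ h, Real.exp (- V h)) +
          ∫ h, ∑ x, |h x| * |av V x ζ h| * Real.exp (- V h / 2) := add_le_add h5 h4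
      _ = _ := by ring
  refine le_of_forall_pos_le_add fun ε hε => ?_
  set I0 : ℝ := ∫ h, Real.exp (- V h) with hI0
  have hI : 0 ≤ I0 := integral_nonneg fun h => (Real.exp_pos _).le
  have hK : 0 < (n + β) * I0 + 1 := by positivity
  refine (key (ε / ((n + β) * I0 + 1)) (by positivity)).trans ?_
  have : (n + β) * (ε / ((n + β) * I0 + 1)) * I0 ≤ ε := by
    rw [mul_div_assoc', div_mul_eq_mul_div, div_le_iff₀ hK]
    nlinarith
  linarith
/- END xc -/

/- MODULE xd
Cauchy-Schwarz for the last term of `div_ineq` (pointwise and in `L²`), and absorption of the part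
over the complement of `S` (`κ ≥ 2 (n + β)`). -/
private theorem xd_bdd {V : (ι → ℝ) → ℝ} (hVc : Continuous V) {a A : ℝ} (ha : 0 < a)
    (hlow : ∀ h, a * ‖h‖ - A ≤ V h) {f : (ι → ℝ) → ℝ} (hf : Integrable f) :
    Integrable (fun h => |f h| * Real.exp (- V h / 2)) := by
  have h1 : Integrable (fun h => Real.exp (- V h / 2) * |f h|) := by
    refine hf.abs.bdd_mul (c := Real.exp (A / 2)) ?_ ?_
    · exact (Real.continuous_exp.comp (hVc.neg.div_const 2)).aestronglyMeasurable
    · refine ae_of_all _ (fun h => ?_)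
      rw [Real.norm_eq_abs, abs_of_pos (Real.exp_pos _)]
      exact exp_bdd ha hlow h
  refine h1.congr (ae_of_all _ (fun h => ?_))
  simp only []
  ring

private theorem xd_opt {X M G : ℝ} (hM : 0 ≤ M) (hG : 0 ≤ G)
    (H : ∀ t : ℝ, 0 < t → X ≤ t / 2 * M ^ 2 + 1 / (2 * t) * G) : X ≤ M * Real.sqrt G := by
  set g := Real.sqrt G with hg
  have hg0 : 0 ≤ g := Real.sqrt_nonneg _
  have hgG : g ^ 2 = G := Real.sq_sqrt hG
  refine le_of_forall_pos_le_add (fun e he => ?_)
  -- choose ε with ε (M + g) / 2 ≤ e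
  set ε := e / (M + g + 1) with hε
  have hε0 : 0 < ε := by positivity
  have hε1 : ε * (M + g) ≤ e := by
    have : ε * (M + g + 1) = e := by
      rw [hε]; field_simp
    nlinarith
  have h1 := H ((g + ε) / (M + ε)) (by positivity)
  have h2 : (g + ε) / (M + ε) / 2 * M ^ 2 ≤ (g + ε) * M / 2 := by
    have : (g + ε) / (M + ε) / 2 * M ^ 2 = (g + ε) * M / 2 * (M / (M + ε)) := by
      field_simp
    rw [this]
    have h3 : M / (M + ε) ≤ 1 := by
      rw [div_le_one (by positivity)]; linarith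
    have h4 : 0 ≤ (g + ε) * M / 2 := by positivity
    nlinarith
  have h5 : 1 / (2 * ((g + ε) / (M + ε))) * G ≤ g * (M + ε) / 2 := by
    have : 1 / (2 * ((g + ε) / (M + ε))) * G = g * (M + ε) / 2 * (g / (g + ε)) := by
      rw [← hgG]; field_simp
    rw [this]
    have h3 : g / (g + ε) ≤ 1 := by
      rw [div_le_one (by positivity)]; linarith
    have h4 : 0 ≤ g * (M + ε) / 2 := by positivity
    nlinarith
  nlinarith

theorem ext_ineq {V : (ι → ℝ) → ℝ} (hV : V.HasTemperateGrowth) {a A : ℝ} (ha : 0 < a)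
    (hlow : ∀ h, a * ‖h‖ - A ≤ V h) {β : ℝ} (hβ : 0 ≤ β)
    (hpos : ∀ h, 0 ≤ ∑ x, h x * pd x V h + β) {S : Set (ι → ℝ)} (hS : MeasurableSet S) {κ : ℝ}
    (hoff : ∀ h, h ∉ S → κ ≤ ∑ x, h x * pd x V h + β)
    (hκ : 2 * ((Fintype.card ι : ℝ) + β) ≤ κ) {M : ℝ} (hM0 : 0 ≤ M)
    (hM : ∫ h, (∑ x, (h x) ^ 2) * Real.exp (- V h) ≤ M ^ 2) (ζ : 𝓢(ι → ℝ, ℝ)) :
    κ * (∫ h in Sᶜ, |ζ h| * Real.exp (- V h / 2)) ≤
      2 * ((Fintype.card ι : ℝ) + β) * (∫ h in S, |ζ h| * Real.exp (- V h / 2)) +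
        2 * M * Real.sqrt (∑ x, ∫ h, (av V x ζ h) ^ 2) := by
  have hVc : Continuous V := hV.1.continuous
  have hdiv := div_ineq hV ha hlow hβ hpos ζ
  -- integrability
  have hI : Integrable (fun h => |ζ h| * Real.exp (- V h / 2)) := xd_bdd hVc ha hlow ζ.integrable
  have hgr : (fun h : ι → ℝ => ∑ x, h x * pd x V h + β).HasTemperateGrowth := by
    refine Function.HasTemperateGrowth.add ?_ (Function.HasTemperateGrowth.const β)
    refine Function.HasTemperateGrowth.sum (fun x _ => ?_)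
    refine Function.HasTemperateGrowth.mul ?_ (pd_temp hV x)
    exact (ContinuousLinearMap.proj (R := ℝ) (φ := fun _ : ι => ℝ) x).hasTemperateGrowth
  have hI2 : Integrable (fun h => |ζ h| * Real.exp (- V h / 2) *
      (∑ x, h x * pd x V h + β)) := by
    have h1 := xd_bdd hVc ha hlow
      (mu (fun h : ι → ℝ => ∑ x, h x * pd x V h + β) ζ).integrable
    refine h1.congr (ae_of_all _ (fun h => ?_))
    simp only []
    rw [mu_apply hgr, abs_mul, abs_of_nonneg (hpos h)]
    ring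
  -- lower bound of the left hand side of `div_ineq`
  have hlo : κ * (∫ h in Sᶜ, |ζ h| * Real.exp (- V h / 2)) ≤
      ∫ h, |ζ h| * Real.exp (- V h / 2) * (∑ x, h x * pd x V h + β) := by
    calc κ * (∫ h in Sᶜ, |ζ h| * Real.exp (- V h / 2))
        = ∫ h in Sᶜ, κ * (|ζ h| * Real.exp (- V h / 2)) := by rw [integral_const_mul]
      _ ≤ ∫ h in Sᶜ, |ζ h| * Real.exp (- V h / 2) * (∑ x, h x * pd x V h + β) := by
          refine setIntegral_mono_on (hI.const_mul κ).integrableOn hI2.integrableOn hS.compl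
            (fun h hh => ?_)
          have h1 := hoff h hh
          have h2 : 0 ≤ |ζ h| * Real.exp (- V h / 2) := by positivity
          nlinarith
      _ ≤ ∫ h, |ζ h| * Real.exp (- V h / 2) * (∑ x, h x * pd x V h + β) := by
          refine setIntegral_le_integral hI2 (ae_of_all _ (fun h => ?_))
          have h2 : 0 ≤ |ζ h| * Real.exp (- V h / 2) := by positivity
          exact mul_nonneg h2 (hpos h)
  -- Cauchy-Schwarz
  have hsqI : Integrable (fun h : ι → ℝ => (∑ x, (h x) ^ 2) * Real.exp (- V h)) := by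
    have h1 := (exp_int hVc ha hlow 2 one_pos).const_mul (Fintype.card ι : ℝ)
    refine h1.mono' ?_ (ae_of_all _ (fun h => ?_))
    · refine Continuous.aestronglyMeasurable ?_
      refine Continuous.mul ?_ (Real.continuous_exp.comp hVc.neg)
      exact continuous_finsetSum _ (fun x _ => (continuous_apply x).pow 2)
    · have h2 : ∑ x, (h x) ^ 2 ≤ (Fintype.card ι : ℝ) * ‖h‖ ^ 2 := by
        calc ∑ x, (h x) ^ 2 ≤ ∑ _x : ι, ‖h‖ ^ 2 := by
              refine Finset.sum_le_sum (fun x _ => ?_)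
              have := norm_le_pi_norm h x
              rw [Real.norm_eq_abs] at this
              rw [← sq_abs]
              gcongr
          _ = (Fintype.card ι : ℝ) * ‖h‖ ^ 2 := by simp
      have h3 : 0 ≤ ∑ x, (h x) ^ 2 := Finset.sum_nonneg (fun x _ => sq_nonneg _)
      rw [Real.norm_eq_abs, abs_of_nonneg (by positivity)]
      have h4 : (-1 : ℝ) * V h = - V h := by ring
      rw [h4]
      have := Real.exp_pos (- V h)
      nlinarith
  have havI : ∀ x, Integrable (fun h => (av V x ζ h) ^ 2) := fun x => by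
    have := ((av V x ζ).memLp 2 (volume : Measure (ι → ℝ))).integrable_sq
    exact this
  have hG0 : 0 ≤ ∑ x, ∫ h, (av V x ζ h) ^ 2 :=
    Finset.sum_nonneg (fun x _ => integral_nonneg (fun h => sq_nonneg _))
  have hCS : ∫ h, ∑ x, |h x| * |av V x ζ h| * Real.exp (- V h / 2) ≤
      M * Real.sqrt (∑ x, ∫ h, (av V x ζ h) ^ 2) := by
    refine xd_opt hM0 hG0 (fun t ht => ?_)
    have h1 : ∫ h, ∑ x, |h x| * |av V x ζ h| * Real.exp (- V h / 2) ≤
        ∫ h, (t / 2 * ((∑ x, (h x) ^ 2) * Real.exp (- V h)) +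
          1 / (2 * t) * ∑ x, (av V x ζ h) ^ 2) := by
      refine integral_mono_of_nonneg (ae_of_all _ (fun h => ?_)) ?_ (ae_of_all _ (fun h => ?_))
      · exact Finset.sum_nonneg (fun x _ => by positivity)
      · exact (hsqI.const_mul _).add ((integrable_finsetSum _ (fun x _ => havI x)).const_mul _)
      · simp only []
        rw [Finset.sum_mul, Finset.mul_sum, Finset.mul_sum, ← Finset.sum_add_distrib]
        refine Finset.sum_le_sum (fun x _ => ?_)
        have e1 : Real.exp (- V h) = Real.exp (- V h / 2) ^ 2 := by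
          rw [← Real.exp_nat_mul]
          congr 1
          push_cast
          ring
        rw [e1]
        set r := Real.exp (- V h / 2)
        set p := |h x| with hp
        set q := |av V x ζ h| with hq
        have e2 : (h x) ^ 2 = p ^ 2 := by rw [hp, sq_abs]
        have e3 : (av V x ζ h) ^ 2 = q ^ 2 := by rw [hq, sq_abs]
        rw [e2, e3]
        have e4 : t / 2 * (p ^ 2 * r ^ 2) + 1 / (2 * t) * q ^ 2 - p * q * r =
            (t * (p * r) - q) ^ 2 / (2 * t) := by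
          field_simp
          ring
        have e5 : 0 ≤ (t * (p * r) - q) ^ 2 / (2 * t) := by positivity
        linarith
    rw [integral_add (hsqI.const_mul _)
      ((integrable_finsetSum _ (fun x _ => havI x)).const_mul _), integral_const_mul,
      integral_const_mul, integral_finsetSum _ (fun x _ => havI x)] at h1
    refine h1.trans ?_
    gcongr
  have hsplit : ∫ h, |ζ h| * Real.exp (- V h / 2) =
      (∫ h in S, |ζ h| * Real.exp (- V h / 2)) + ∫ h in Sᶜ, |ζ h| * Real.exp (- V h / 2) :=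
    (integral_add_compl hS hI).symm
  rw [hsplit] at hdiv
  have hC0 : 0 ≤ ∫ h in Sᶜ, |ζ h| * Real.exp (- V h / 2) :=
    integral_nonneg (fun h => by positivity)
  set IS := ∫ h in S, |ζ h| * Real.exp (- V h / 2)
  set IC := ∫ h in Sᶜ, |ζ h| * Real.exp (- V h / 2)
  set G := Real.sqrt (∑ x, ∫ h, (av V x ζ h) ^ 2)
  set n := (Fintype.card ι : ℝ)
  nlinarith
/- END xd -/

/- MODULE xe
The exterior estimate for `Vs`: `β = 12 |D| / s^3 ≤ 12 |D|`, `κ = s / 5`, `s ≥ 130 |D|`, and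
`M` independent of `s` because `Vs ≥ ‖h‖ - 1/2 - 6 |D|` (`Vs_low`, `exp_int` for the function
`‖h‖`).  (`Fintype.card D = D.card`; for `D = ∅` everything is trivial: `K D b = univ`.) -/
private theorem xe_int (D : Finset (ℤ × ℤ)) (B : ℝ) :
    Integrable (fun h : D → ℝ => (∑ x, (h x) ^ 2) * Real.exp (- (1 * ‖h‖ - B))) := by
  have h0 : Integrable (fun h : D → ℝ => ‖h‖ ^ 2 * Real.exp (- 1 * (1 * ‖h‖ - B))) :=
    exp_int (V := fun h : D → ℝ => 1 * ‖h‖ - B) (a := 1) (A := B)
      ((continuous_const.mul continuous_norm).sub continuous_const) one_pos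
      (fun h => le_rfl) 2 one_pos
  have h1 := h0.const_mul (Fintype.card D : ℝ)
  refine h1.mono' ?_ (ae_of_all _ (fun h => ?_))
  · refine Continuous.aestronglyMeasurable ?_
    refine Continuous.mul ?_ (Real.continuous_exp.comp
      ((continuous_const.mul continuous_norm).sub continuous_const).neg)
    exact continuous_finsetSum _ (fun x _ => (continuous_apply x).pow 2)
  · have h2 : ∑ x, (h x) ^ 2 ≤ (Fintype.card D : ℝ) * ‖h‖ ^ 2 := by
      calc ∑ x, (h x) ^ 2 ≤ ∑ _x : D, ‖h‖ ^ 2 := by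
            refine Finset.sum_le_sum (fun x _ => ?_)
            have := norm_le_pi_norm h x
            rw [Real.norm_eq_abs] at this
            rw [← sq_abs]
            gcongr
        _ = (Fintype.card D : ℝ) * ‖h‖ ^ 2 := by simp
    have h3 : 0 ≤ ∑ x, (h x) ^ 2 := Finset.sum_nonneg (fun x _ => sq_nonneg _)
    rw [Real.norm_eq_abs, abs_of_nonneg (by positivity)]
    have h4 : (-1 : ℝ) * (1 * ‖h‖ - B) = - (1 * ‖h‖ - B) := by ring
    rw [h4]
    have := Real.exp_pos (- (1 * ‖h‖ - B))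
    nlinarith

theorem ext_Vs {D : Finset (ℤ × ℤ)} {b : ℤ × ℤ → ℝ} (hb : ∀ z, |b z| ≤ 1 / 2) :
    ∃ c s₀ : ℝ, 0 ≤ c ∧ 1 ≤ s₀ ∧ ∀ s, s₀ ≤ s → ∀ ζ : 𝓢(D → ℝ, ℝ),
      ∫ h in (K D b)ᶜ, |ζ h| * Real.exp (- Vs D b s h / 2) ≤
        c / s * ((∫ h in K D b, |ζ h| * Real.exp (- Vs D b s h / 2)) +
          Real.sqrt (∑ x, ∫ h, (av (Vs D b s) x ζ h) ^ 2)) := by
  set B : ℝ := 1 / 2 + 6 * (D.card : ℝ) with hB
  set m2 : ℝ := ∫ h : D → ℝ, (∑ x, (h x) ^ 2) * Real.exp (- (1 * ‖h‖ - B)) with hm2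
  have hm20 : 0 ≤ m2 := integral_nonneg (fun h =>
    mul_nonneg (Finset.sum_nonneg (fun x _ => sq_nonneg _)) (Real.exp_pos _).le)
  set M := Real.sqrt m2 with hM
  have hM0 : 0 ≤ M := Real.sqrt_nonneg _
  have hM2 : M ^ 2 = m2 := Real.sq_sqrt hm20
  have hD0 : (0 : ℝ) ≤ (D.card : ℝ) := Nat.cast_nonneg _
  refine ⟨130 * (D.card : ℝ) + 10 * M, max 1 (130 * (D.card : ℝ)), by positivity,
    le_max_left _ _, ?_⟩
  intro s hs ζ
  have hs1 : 1 ≤ s := (le_max_left _ _).trans hs
  have hs2 : 130 * (D.card : ℝ) ≤ s := (le_max_right _ _).trans hs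
  have hs0 : 0 < s := by linarith
  have hs3 : 1 ≤ s ^ 3 := one_le_pow₀ hs1
  have hβ0 : 0 ≤ 12 * (D.card : ℝ) / s ^ 3 := by positivity
  have hβ1 : 12 * (D.card : ℝ) / s ^ 3 ≤ 12 * (D.card : ℝ) := by
    rw [div_le_iff₀ (by positivity)]
    nlinarith
  have hcard : (Fintype.card D : ℝ) = (D.card : ℝ) := by
    rw [Fintype.card_coe]
  have hlow := Vs_low (D := D) (b := b) hb hs1
  have hMM : ∫ h, (∑ x, (h x) ^ 2) * Real.exp (- Vs D b s h) ≤ M ^ 2 := by
    rw [hM2, hm2]
    refine integral_mono_of_nonneg (ae_of_all _ (fun h => ?_)) (xe_int D B)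
      (ae_of_all _ (fun h => ?_))
    · exact mul_nonneg (Finset.sum_nonneg (fun x _ => sq_nonneg _)) (Real.exp_pos _).le
    · refine mul_le_mul_of_nonneg_left ?_ (Finset.sum_nonneg (fun x _ => sq_nonneg _))
      exact Real.exp_le_exp.2 (neg_le_neg (hlow h))
  have key := ext_ineq (V := Vs D b s) (Vs_temp D b hs1) one_pos hlow hβ0
    (Vs_rad hb hs1) (K_meas D b) (κ := s / 5) (fun h hh => Vs_rad_off hb hs1 hh)
    (by rw [hcard]; linarith) hM0 hMM ζ
  rw [hcard] at key
  have hIK : 0 ≤ ∫ h in K D b, |ζ h| * Real.exp (- Vs D b s h / 2) :=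
    integral_nonneg (fun h => by positivity)
  have hG : 0 ≤ Real.sqrt (∑ x, ∫ h, (av (Vs D b s) x ζ h) ^ 2) := Real.sqrt_nonneg _
  set IK := ∫ h in K D b, |ζ h| * Real.exp (- Vs D b s h / 2)
  set IC := ∫ h in (K D b)ᶜ, |ζ h| * Real.exp (- Vs D b s h / 2)
  set G := Real.sqrt (∑ x, ∫ h, (av (Vs D b s) x ζ h) ^ 2)
  rw [div_mul_eq_mul_div, le_div_iff₀ hs0]
  have h1 : 2 * ((D.card : ℝ) + 12 * (D.card : ℝ) / s ^ 3) * IK ≤ 26 * (D.card : ℝ) * IK := by
    refine mul_le_mul_of_nonneg_right ?_ hIK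
    linarith
  have h2 : IC * s ≤ 5 * (26 * (D.card : ℝ) * IK + 2 * M * G) := by linarith
  have h3 : 0 ≤ (D.card : ℝ) * G := by positivity
  have h4 : 0 ≤ M * IK := by positivity
  nlinarith
/- END xe -/

end Pool.Agent.Hmk
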