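import Pool.Agent.Hmk.Gd

/-!
# Hmk, second part: the interface between the interior theorem (CLT for `FG`, approximate
divergences) and the part on the mean, the boundary values and the continuum
-/

set_option autoImplicit false

open MeasureTheory Set
open scoped ENNReal ContDiff

noncomputable section

namespace Pool.Agent.Hmk

/-- the lattice point `x`, mesh `δ`, in lattice coordinates -/
def lt (δ : ℝ) (x : ℤ × ℤ) : ℝ × ℝ := (δ * x.1, δ * x.2)

/-- `T` depends only on the heights at the sites `x` with `P x` -/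
def Dep {D : Finset (ℤ × ℤ)} (P : ℤ × ℤ → Prop) (T : (D → ℝ) → ℝ) : Prop :=
  ∀ h h' : D → ℝ, (∀ x : D, P x → h x = h' x) → T h = T h'

/-- THE INTERIOR THEOREM with variance constant `σ`.  For every smooth compactly supported `g`, every
open `U` containing its support, every `R` and `ε`: for small mesh `δ`, every `D` in the region of
radius `R` which contains all lattice points of `U` and all boundary data `b`, there is `T = D*X` (`X` supported in `U`) such that
`T` is a function of the heights in `U`, orthogonal to all functions of the heights off `U` (under the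
laws with ANY boundary data `b'`), and `T` is close to `FG - E FG` in `L²` (under the law with boundary
data `b`); moreover the characteristic function of `FG - E FG` is close to the Gaussian one. -/
def Itf (σ : ℝ) : Prop :=
  ∀ g : ℝ × ℝ → ℝ, ContDiff ℝ ∞ g → HasCompactSupport g → ∀ U : Set (ℝ × ℝ), IsOpen U →
    tsupport g ⊆ U → ∀ R : ℝ, 0 < R → ∀ ε : ℝ, 0 < ε →
    ∃ δ₀ : ℝ, 0 < δ₀ ∧ ∃ (C : ℝ) (k : ℕ), ∀ δ : ℝ, 0 < δ → δ < δ₀ →
    ∀ D : Finset (ℤ × ℤ), (∀ x, lt δ x ∈ U → x ∈ D) → (∀ x ∈ D, ‖lt δ x‖ ≤ R) →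
    ∀ b : ℤ × ℤ → ℝ, (∀ z, |b z| ≤ 1 / 2) →
    (∃ T : (D → ℝ) → ℝ, Measurable T ∧ (∀ h, |T h| ≤ C / δ ^ k) ∧ Dep (fun x => lt δ x ∈ U) T ∧
      (∀ b' : ℤ × ℤ → ℝ, (∀ z, |b' z| ≤ 1 / 2) → ∀ Y : (D → ℝ) → ℝ, Measurable Y →
        (∃ M : ℝ, ∀ h, |Y h| ≤ M) → Dep (fun x => lt δ x ∉ U) Y →
        ∫ h, T h * Y h ∂(Mu D b') = 0) ∧
      ∫ h, (FG D b (fun x => g (lt δ x)) h - (∫ h', FG D b (fun x => g (lt δ x)) h' ∂(Mu D b)) -
        T h) ^ 2 ∂(Mu D b) ≤ ε) ∧
      ∀ τ : ℝ, |τ| ≤ 1 / ε →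
        ‖(∫ h, Complex.exp (Complex.I * (τ * (FG D b (fun x => g (lt δ x)) h -
            ∫ h', FG D b (fun x => g (lt δ x)) h' ∂(Mu D b)) : ℝ)) ∂(Mu D b)) -
          Complex.exp ((- τ ^ 2 * σ * EG D (fun x => g (lt δ x)) / 2 : ℝ))‖ ≤ ε

end Pool.Agent.Hmk
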