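import Pool.Agent.Hmk.NuB
import Pool.Agent.Hmk.In

/-!
# Hmk, second part: the facts on the universal fields which the trial field part uses
-/

set_option autoImplicit false

open MeasureTheory Set Filter ProbabilityTheory
open scoped ENNReal ContDiff Topology

noncomputable section

namespace Pool.Agent.Hmk

/-- linear function with gradient `d` -/
def dl (d : ℝ × ℝ) (x : ℤ × ℤ) : ℝ := d.1 * (x.1 : ℝ) + d.2 * (x.2 : ℝ)

/-- average over a finite set -/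
def avf (A : Finset (ℤ × ℤ)) (f : ℤ × ℤ → ℝ) : ℝ := (A.card : ℝ)⁻¹ * ∑ x ∈ A, f x

/-- the bulk of the box of side `L` -/
def Bo (L : ℕ) : Finset (ℤ × ℤ) := inn (bx L) (3 * Nat.sqrt L + 3)

/-- truncated deviation of the field `V` from the linear function with gradient `σ d`, in the bulk -/
def fl (σ δ : ℝ) (L : ℕ) (d : ℝ × ℝ) (V : ℤ × ℤ → (nb (bx L) → ℝ) → ℝ) (k : nb (bx L) → ℝ) : ℝ :=
  ∑ x ∈ Bo L, min 1 (|(V x k - σ * dl d x) -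
    avf (Bo L) (fun z => V z k - σ * dl d z)| / (δ * L))

/-- the universal fields on large boxes: energy and slopes -/
def Sl (σ : ℝ) : Prop := ∀ δ : ℝ, 0 < δ → ∃ L0 : ℕ, ∀ L : ℕ, L0 ≤ L →
  ∃ V0 V1 : ℤ × ℤ → (nb (bx L) → ℝ) → ℝ, UF (bx L) V0 ∧ UF (bx L) V1 ∧
    (∀ d : ℝ × ℝ, mm (nb (bx L)) (en (nb (bx L)) (bx L) (d.1 • V0 + d.2 • V1)) ≤
      (σ + δ) * qd d * (L : ℝ) ^ 2) ∧
    mm (nb (bx L)) (fl σ δ L (1, 0) V0) ≤ δ * (L : ℝ) ^ 2 ∧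
    mm (nb (bx L)) (fl σ δ L (0, 1) V1) ≤ δ * (L : ℝ) ^ 2

/-- the upper bound for the variance -/
def Uv (σ : ℝ) : Prop := ∀ g : ℝ × ℝ → ℝ, ContDiff ℝ ∞ g → HasCompactSupport g →
  ∀ U : Set (ℝ × ℝ), IsOpen U → tsupport g ⊆ U → ∀ R : ℝ, 0 < R → ∀ ε : ℝ, 0 < ε →
  ∃ δ₀ : ℝ, 0 < δ₀ ∧ ∀ δ : ℝ, 0 < δ → δ < δ₀ →
  ∀ D : Finset (ℤ × ℤ), (∀ x, lt δ x ∈ U → x ∈ D) → (∀ x ∈ D, ‖lt δ x‖ ≤ R) →
  ∀ b : ℤ × ℤ → ℝ, (∀ z, |b z| ≤ 1 / 2) →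
    variance (FG D b (fun x => g (lt δ x))) (Mu D b) ≤ σ * EG D (fun x => g (lt δ x)) + ε

/- MODULE qra
Averages of local functions in the continuum limit.  `mm_L1` with windows of side
`N = ⌊δ^(-1/2)⌋`: `card D ≤ (2 R / δ + 1)^2 ≤ N^20` for small `δ` (the norm of `ℝ × ℝ` is the
maximum norm).  The lattice points of the compact set `Kc` are covered by the windows
`y + bx N`, `y ∈ N ℤ²`, which meet it: at most `C / (N δ)^2` windows with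
`C` depending on `Kc`, and for small `δ` the ball of radius `4 N` about `y` is in `U` (the
distance of `Kc` to the complement of `U` is positive and `N δ → 0`), hence in `D`. -/
private theorem qra_N {N1 : ℕ} (h1 : 1 ≤ N1) {δ : ℝ} (hδ : 0 < δ) (h : δ < 1 / (N1 : ℝ) ^ 2) :
    ∃ N : ℕ, N1 ≤ N ∧ (N : ℝ) ^ 2 * δ ≤ 1 ∧ 1 < ((N : ℝ) + 1) ^ 2 * δ := by
  have hN1 : (0 : ℝ) < N1 := by exact_mod_cast h1
  have hs : 0 < Real.sqrt δ := Real.sqrt_pos.mpr hδ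
  have hs2 : Real.sqrt δ ^ 2 = δ := Real.sq_sqrt hδ.le
  refine ⟨⌊(Real.sqrt δ)⁻¹⌋₊, ?_, ?_, ?_⟩
  · refine Nat.le_floor ?_
    rw [le_inv_comm₀ hN1 hs]
    have h2 : δ < ((N1 : ℝ)⁻¹) ^ 2 := by
      rw [inv_pow, ← one_div]
      exact h
    have h3 : Real.sqrt δ ^ 2 < ((N1 : ℝ)⁻¹) ^ 2 := by rw [hs2]; exact h2
    exact (lt_of_pow_lt_pow_left₀ 2 (by positivity) h3).le
  · have h2 : ((⌊(Real.sqrt δ)⁻¹⌋₊ : ℕ) : ℝ) ≤ (Real.sqrt δ)⁻¹ := Nat.floor_le (by positivity)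
    calc ((⌊(Real.sqrt δ)⁻¹⌋₊ : ℕ) : ℝ) ^ 2 * δ ≤ ((Real.sqrt δ)⁻¹) ^ 2 * δ :=
          mul_le_mul_of_nonneg_right (pow_le_pow_left₀ (by positivity) h2 2) hδ.le
      _ = 1 := by
          rw [inv_pow, hs2, inv_mul_cancel₀ hδ.ne']
  · have h2 : (Real.sqrt δ)⁻¹ < ((⌊(Real.sqrt δ)⁻¹⌋₊ : ℕ) : ℝ) + 1 := Nat.lt_floor_add_one _
    calc (1 : ℝ) = ((Real.sqrt δ)⁻¹) ^ 2 * δ := by
          rw [inv_pow, hs2, inv_mul_cancel₀ hδ.ne']
      _ < (((⌊(Real.sqrt δ)⁻¹⌋₊ : ℕ) : ℝ) + 1) ^ 2 * δ :=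
          mul_lt_mul_of_pos_right (pow_lt_pow_left₀ h2 (by positivity) (by norm_num)) hδ

private theorem qra_box {r : ℝ} (hr : 0 ≤ r) {D : Finset (ℤ × ℤ)}
    (h : ∀ x ∈ D, |(x.1 : ℝ)| ≤ r ∧ |(x.2 : ℝ)| ≤ r) : (D.card : ℝ) ≤ (2 * r + 1) ^ 2 := by
  have h1 : D ⊆ Finset.Icc (-⌊r⌋) ⌊r⌋ ×ˢ Finset.Icc (-⌊r⌋) ⌊r⌋ := by
    intro x hx
    obtain ⟨ha, hb⟩ := h x hx
    rw [abs_le] at ha hb
    rw [Finset.mem_product, Finset.mem_Icc, Finset.mem_Icc]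
    have key : ∀ a : ℤ, (-r ≤ (a : ℝ) ∧ (a : ℝ) ≤ r) → -⌊r⌋ ≤ a ∧ a ≤ ⌊r⌋ := by
      intro a ha
      refine ⟨?_, Int.le_floor.mpr ha.2⟩
      have h3 : (-a : ℤ) ≤ ⌊r⌋ := Int.le_floor.mpr (by push_cast; linarith [ha.1])
      omega
    exact ⟨key _ ha, key _ hb⟩
  have h2 := Finset.card_le_card h1
  rw [Finset.card_product, Int.card_Icc] at h2
  have h0 : 0 ≤ ⌊r⌋ := Int.floor_nonneg.mpr hr
  have h3 : (((⌊r⌋ + 1 - -⌊r⌋).toNat : ℕ) : ℝ) ≤ 2 * r + 1 := by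
    have h4 : (((⌊r⌋ + 1 - -⌊r⌋).toNat : ℕ) : ℤ) = 2 * ⌊r⌋ + 1 := by
      rw [Int.toNat_of_nonneg (by omega)]
      ring
    have h5 : (((⌊r⌋ + 1 - -⌊r⌋).toNat : ℕ) : ℝ) = 2 * (⌊r⌋ : ℝ) + 1 := by
      exact_mod_cast h4
    rw [h5]
    linarith [Int.floor_le r]
  calc (D.card : ℝ) ≤ (((⌊r⌋ + 1 - -⌊r⌋).toNat * (⌊r⌋ + 1 - -⌊r⌋).toNat : ℕ) : ℝ) := by
        exact_mod_cast h2
    _ = (((⌊r⌋ + 1 - -⌊r⌋).toNat : ℕ) : ℝ) * (((⌊r⌋ + 1 - -⌊r⌋).toNat : ℕ) : ℝ) := by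
        push_cast
        ring
    _ ≤ (2 * r + 1) * (2 * r + 1) := mul_le_mul h3 h3 (Nat.cast_nonneg _) (by positivity)
    _ = (2 * r + 1) ^ 2 := by ring

private theorem qra_lt {δ r : ℝ} (hδ : 0 < δ) {x : ℤ × ℤ} (h : ‖lt δ x‖ ≤ r) :
    |(x.1 : ℝ)| ≤ r / δ ∧ |(x.2 : ℝ)| ≤ r / δ := by
  have h1 : ‖δ * (x.1 : ℝ)‖ ≤ r := (norm_fst_le (lt δ x)).trans h
  have h2 : ‖δ * (x.2 : ℝ)‖ ≤ r := (norm_snd_le (lt δ x)).trans h
  rw [Real.norm_eq_abs, abs_mul, abs_of_pos hδ] at h1 h2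
  exact ⟨by rw [le_div_iff₀ hδ]; linarith, by rw [le_div_iff₀ hδ]; linarith⟩

private theorem qra_cover {N : ℕ} (hN : 0 < N) (A : Finset (ℤ × ℤ)) (F : ℤ × ℤ → ℝ)
    (hF : ∀ x, 0 ≤ F x) :
    ∑ x ∈ A, F x ≤ ∑ q ∈ A.image (fun x => (x.1 / (N : ℤ), x.2 / (N : ℤ))),
      ∑ w ∈ bx N, F (((N : ℤ) * q.1, (N : ℤ) * q.2) + w) := by
  have hN' : (0 : ℤ) < N := by exact_mod_cast hN
  rw [← Finset.sum_fiberwise_of_maps_to (s := A)
    (t := A.image (fun x => (x.1 / (N : ℤ), x.2 / (N : ℤ))))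
    (g := fun x => (x.1 / (N : ℤ), x.2 / (N : ℤ)))
    (fun x hx => Finset.mem_image_of_mem _ hx)]
  refine Finset.sum_le_sum (fun q _ => ?_)
  have hinj : Function.Injective (fun w : ℤ × ℤ => ((N : ℤ) * q.1, (N : ℤ) * q.2) + w) :=
    add_right_injective _
  rw [← Finset.sum_image (s := bx N)
    (g := fun w : ℤ × ℤ => ((N : ℤ) * q.1, (N : ℤ) * q.2) + w) (f := F) hinj.injOn]
  refine Finset.sum_le_sum_of_subset_of_nonneg ?_ (fun x _ _ => hF x)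
  intro x hx
  rw [Finset.mem_filter] at hx
  obtain ⟨-, hx⟩ := hx
  rw [← hx]
  refine Finset.mem_image.mpr ⟨(x.1 % (N : ℤ), x.2 % (N : ℤ)), ?_, ?_⟩
  · simp only [bx, Finset.mem_product, Finset.mem_Ico]
    exact ⟨⟨Int.emod_nonneg _ hN'.ne', Int.emod_lt_of_pos _ hN'⟩,
      ⟨Int.emod_nonneg _ hN'.ne', Int.emod_lt_of_pos _ hN'⟩⟩
  · ext
    · simp only [Prod.fst_add]
      exact Int.mul_ediv_add_emod _ _
    · simp only [Prod.snd_add]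
      exact Int.mul_ediv_add_emod _ _

theorem avg_lem {W : Finset (ℤ × ℤ)} {g : (W → ℝ) → ℝ} (hg : Lg W g) {Kc : Set (ℝ × ℝ)}
    (hK : IsCompact Kc) {U : Set (ℝ × ℝ)} (hU : IsOpen U) (hKU : Kc ⊆ U) {R : ℝ} (hR : 0 < R)
    {ε : ℝ} (hε : 0 < ε) :
    ∃ δ₀ : ℝ, 0 < δ₀ ∧ ∀ δ : ℝ, 0 < δ → δ < δ₀ →
    ∀ D : Finset (ℤ × ℤ), (∀ x, lt δ x ∈ U → x ∈ D) → (∀ x ∈ D, ‖lt δ x‖ ≤ R) →
    ∀ b : ℤ × ℤ → ℝ, (∀ z, |b z| ≤ 1 / 2) → ∀ A : Finset (ℤ × ℤ), (∀ x ∈ A, lt δ x ∈ Kc) →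
      δ ^ 2 * ∑ x ∈ A, |∫ h, g (rs W x (gl D b h)) ∂(Mu D b) - mm W g| ≤ ε := by
  obtain ⟨ρ, hρ, hth⟩ := hK.exists_thickening_subset_open hU hKU
  obtain ⟨C0, hC0⟩ := hK.isBounded.exists_norm_le
  set C1 : ℝ := max C0 0 with hC1
  have hC1' : 0 ≤ C1 := le_max_right _ _
  have hC2 : 0 < (2 * C1 + 5) ^ 2 := by positivity
  obtain ⟨N0, hN0⟩ := mm_L1 hg (ε / (2 * C1 + 5) ^ 2) (by positivity)
  obtain ⟨N2, hN2⟩ := exists_nat_gt (8 * R + 1)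
  obtain ⟨N3, hN3⟩ := exists_nat_gt (5 / ρ)
  set N1 : ℕ := N0 + N2 + N3 + 1 with hN1
  refine ⟨1 / (N1 : ℝ) ^ 2, by positivity, ?_⟩
  intro δ hδ hδ0 D hD hDR b hb A hA
  obtain ⟨N, hN, hNa, hNb⟩ := qra_N (by omega) hδ hδ0
  have hNpos : 0 < N := by omega
  have hNr : (1 : ℝ) ≤ N := by exact_mod_cast hNpos
  have hNz : (0 : ℤ) < N := by exact_mod_cast hNpos
  have hN2' : 8 * R + 1 ≤ N := by
    have : (N2 : ℝ) ≤ N := by exact_mod_cast (by omega : N2 ≤ N)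
    linarith
  have hN3' : 5 / ρ < N := by
    have : (N3 : ℝ) ≤ N := by exact_mod_cast (by omega : N3 ≤ N)
    linarith
  -- the cardinality of D
  have hcard : D.card ≤ N ^ 20 := by
    have h1 : (D.card : ℝ) ≤ (2 * (R / δ) + 1) ^ 2 :=
      qra_box (by positivity) (fun x hx => qra_lt hδ (hDR x hx))
    have h2 : R / δ ≤ R * (4 * (N : ℝ) ^ 2) := by
      rw [div_le_iff₀ hδ]
      have h3 : ((N : ℝ) + 1) ^ 2 ≤ 4 * (N : ℝ) ^ 2 := by nlinarith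
      have h4 : 1 ≤ 4 * (N : ℝ) ^ 2 * δ :=
        hNb.le.trans (mul_le_mul_of_nonneg_right h3 hδ.le)
      nlinarith
    have h3 : 2 * (R / δ) + 1 ≤ (N : ℝ) ^ 3 := by
      have h5 : 1 ≤ (N : ℝ) ^ 2 := one_le_pow₀ hNr
      calc 2 * (R / δ) + 1 ≤ 8 * R * (N : ℝ) ^ 2 + (N : ℝ) ^ 2 := by nlinarith
        _ = (8 * R + 1) * (N : ℝ) ^ 2 := by ring
        _ ≤ N * (N : ℝ) ^ 2 := mul_le_mul_of_nonneg_right hN2' (by positivity)
        _ = (N : ℝ) ^ 3 := by ring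
    have h4 : (D.card : ℝ) ≤ (N : ℝ) ^ 20 := by
      have h6 : 0 ≤ 2 * (R / δ) + 1 := by positivity
      calc (D.card : ℝ) ≤ (2 * (R / δ) + 1) ^ 2 := h1
        _ ≤ ((N : ℝ) ^ 3) ^ 2 := pow_le_pow_left₀ h6 h3 2
        _ = (N : ℝ) ^ 6 := by ring
        _ ≤ (N : ℝ) ^ 20 := pow_le_pow_right₀ hNr (by norm_num)
    exact_mod_cast h4
  have hND : (N : ℝ) * δ ≤ 1 / N := by
    rw [le_div_iff₀ (by linarith)]
    calc (N : ℝ) * δ * N = (N : ℝ) ^ 2 * δ := by ring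
      _ ≤ 1 := hNa
  -- the windows
  set F : ℤ × ℤ → ℝ := fun x => |∫ h, g (rs W x (gl D b h)) ∂(Mu D b) - mm W g| with hF
  set Y := A.image (fun x => (x.1 / (N : ℤ), x.2 / (N : ℤ))) with hY
  have hcov := qra_cover hNpos A F (fun x => abs_nonneg _)
  have hwin : ∀ q ∈ Y, ∑ w ∈ bx N, F (((N : ℤ) * q.1, (N : ℤ) * q.2) + w) ≤
      ε / (2 * C1 + 5) ^ 2 * (N : ℝ) ^ 2 := by
    intro q hq
    obtain ⟨x, hx, rfl⟩ := Finset.mem_image.mp hq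
    have h1 := hN0 N (by omega) D b hb hcard
      ((N : ℤ) * (x.1 / (N : ℤ)), (N : ℤ) * (x.2 / (N : ℤ))) ?_
    · rw [inv_mul_le_iff₀ (by positivity)] at h1
      exact h1.trans (le_of_eq (mul_comm _ _))
    · intro z hz
      apply hD
      apply hth
      rw [Metric.mem_thickening_iff]
      refine ⟨lt δ x, hA x hx, ?_⟩
      have hz1 : |z.1 - (N : ℤ) * (x.1 / (N : ℤ))| ≤ 4 * (N : ℤ) :=
        (le_max_left _ _).trans hz
      have hz2 : |z.2 - (N : ℤ) * (x.2 / (N : ℤ))| ≤ 4 * (N : ℤ) :=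
        ((le_max_left _ _).trans (le_max_right _ _)).trans hz
      have key : ∀ a c : ℤ, |a - (N : ℤ) * (c / (N : ℤ))| ≤ 4 * (N : ℤ) →
          dist (δ * (a : ℝ)) (δ * (c : ℝ)) < ρ := by
        intro a c hac
        have e1 : (N : ℤ) * (c / (N : ℤ)) + c % (N : ℤ) = c := Int.mul_ediv_add_emod _ _
        have e2 := Int.emod_nonneg c hNz.ne'
        have e3 := Int.emod_lt_of_pos c hNz
        have e4 : |a - c| ≤ 5 * (N : ℤ) := by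
          rw [abs_le] at hac ⊢
          constructor <;> omega
        have e5 : |(a : ℝ) - c| ≤ 5 * (N : ℝ) := by exact_mod_cast e4
        rw [Real.dist_eq, ← mul_sub, abs_mul, abs_of_pos hδ]
        calc δ * |(a : ℝ) - c| ≤ δ * (5 * N) := mul_le_mul_of_nonneg_left e5 hδ.le
          _ = 5 * (N * δ) := by ring
          _ ≤ 5 * (1 / N) := by linarith
          _ = 5 / N := by ring
          _ < ρ := by
              rw [div_lt_iff₀ (by linarith)]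
              rw [div_lt_iff₀ hρ] at hN3'
              linarith
      rw [Prod.dist_eq]
      exact max_lt (key _ _ hz1) (key _ _ hz2)
  have hYcard : (Y.card : ℝ) ≤ ((2 * C1 + 5) / (N * δ)) ^ 2 := by
    have hNδ : 0 < (N : ℝ) * δ := by positivity
    have hNδ1 : (N : ℝ) * δ ≤ 1 := by
      refine hND.trans ?_
      rw [div_le_one (by linarith)]
      exact hNr
    have h1 : (Y.card : ℝ) ≤ (2 * (C1 / (N * δ) + 1) + 1) ^ 2 := by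
      refine qra_box (by positivity) ?_
      intro q hq
      obtain ⟨x, hx, rfl⟩ := Finset.mem_image.mp hq
      have h2 : ‖lt δ x‖ ≤ C1 := (hC0 _ (hA x hx)).trans (le_max_left _ _)
      obtain ⟨h3, h4⟩ := qra_lt hδ h2
      have key : ∀ a : ℤ, |(a : ℝ)| ≤ C1 / δ → |((a / (N : ℤ) : ℤ) : ℝ)| ≤ C1 / (N * δ) + 1 := by
        intro a ha
        have e1 : (N : ℤ) * (a / (N : ℤ)) + a % (N : ℤ) = a := Int.mul_ediv_add_emod _ _
        have e2 := Int.emod_nonneg a hNz.ne'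
        have e3 := Int.emod_lt_of_pos a hNz
        have e4 : (N : ℝ) * ((a / (N : ℤ) : ℤ) : ℝ) + ((a % (N : ℤ) : ℤ) : ℝ) = a := by
          exact_mod_cast e1
        have e5 : (0 : ℝ) ≤ ((a % (N : ℤ) : ℤ) : ℝ) := by exact_mod_cast e2
        have e6 : ((a % (N : ℤ) : ℤ) : ℝ) < N := by exact_mod_cast e3
        have e7 : C1 / (N * δ) = C1 / δ / N := by
          rw [mul_comm, div_div]
        have e8 : (0 : ℝ) < N := by linarith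
        rw [abs_le] at ha ⊢
        constructor
        · have : -(C1 / δ / N + 1) * N ≤ ((a / (N : ℤ) : ℤ) : ℝ) * N := by
            have e9 : C1 / δ / N * N = C1 / δ := div_mul_cancel₀ _ e8.ne'
            nlinarith [ha.1]
          rw [e7]
          exact le_of_mul_le_mul_right this e8
        · have : ((a / (N : ℤ) : ℤ) : ℝ) * N ≤ (C1 / δ / N + 1) * N := by
            have e9 : C1 / δ / N * N = C1 / δ := div_mul_cancel₀ _ e8.ne'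
            nlinarith [ha.2]
          rw [e7]
          exact le_of_mul_le_mul_right this e8
      exact ⟨key _ h3, key _ h4⟩
    refine h1.trans (pow_le_pow_left₀ (by positivity) ?_ 2)
    have h5 : 1 ≤ 1 / ((N : ℝ) * δ) := by
      rw [le_div_iff₀ hNδ]
      linarith
    calc 2 * (C1 / (N * δ) + 1) + 1 = 2 * (C1 / (N * δ)) + 3 := by ring
      _ ≤ 2 * (C1 / (N * δ)) + 5 * (1 / ((N : ℝ) * δ)) := by linarith
      _ = (2 * C1 + 5) / (N * δ) := by ring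
  have h1 : ∑ x ∈ A, F x ≤ Y.card * (ε / (2 * C1 + 5) ^ 2 * (N : ℝ) ^ 2) := by
    refine hcov.trans ((Finset.sum_le_sum hwin).trans (le_of_eq ?_))
    rw [Finset.sum_const, nsmul_eq_mul]
  calc δ ^ 2 * ∑ x ∈ A, F x ≤ δ ^ 2 * (Y.card * (ε / (2 * C1 + 5) ^ 2 * (N : ℝ) ^ 2)) :=
        mul_le_mul_of_nonneg_left h1 (by positivity)
    _ ≤ δ ^ 2 * (((2 * C1 + 5) / (N * δ)) ^ 2 * (ε / (2 * C1 + 5) ^ 2 * (N : ℝ) ^ 2)) := by
        refine mul_le_mul_of_nonneg_left (mul_le_mul_of_nonneg_right hYcard (by positivity))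
          (by positivity)
    _ = ε := by
        have e8 : (N : ℝ) ≠ 0 := by positivity
        have e9 : (2 * C1 + 5) ≠ 0 := by positivity
        field_simp
/- END qra -/

end Pool.Agent.Hmk
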