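import Pool.Agent.Hmk.Gd

/-!
# Hmk, second part: frozen coercivity (FC)

`ba u m` is the ball of radius `m`.  `up m u v H` (the up-gate): all `z` at distance exactly `m` of
`u` have `q z = H z - H v - 1 + dn (z - u) ≥ 1/2`.  Then the flow `Am` (library, file Fl) of the
fibre `D := ba u m`, `b := β` (values outside of the ball, ARBITRARY) moves only sites at distance
`≤ m - 1` and stays in `K`.

All statements follow from `flr_ineq`, the integrated flow inequality with a weight `ψ (Ns h)`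
(the set `Ns` is invariant under the flow and under changes of `h u`).
-/

set_option autoImplicit false

open MeasureTheory Set
open scoped ENNReal ContDiff

noncomputable section

namespace Pool.Agent.Hmk

/-- the ball -/
def ba (u : ℤ × ℤ) (m : ℕ) : Finset (ℤ × ℤ) := by
  classical exact ((Finset.Icc (-(m : ℤ)) m ×ˢ Finset.Icc (-(m : ℤ)) m).filter
    (fun z => dn z ≤ m)).image (fun z => u + z)

theorem mem_ba {u z : ℤ × ℤ} {m : ℕ} : z ∈ ba u m ↔ dn (z - u) ≤ m := by
  classical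
  unfold ba
  simp only [Finset.mem_image, Finset.mem_filter, Finset.mem_product, Finset.mem_Icc]
  constructor
  · rintro ⟨y, ⟨-, hy⟩, rfl⟩
    simpa using hy
  · intro h
    refine ⟨z - u, ⟨?_, h⟩, by abel⟩
    unfold dn at h
    have h1 := (le_max_left _ _).trans h
    have h2 := ((le_max_left _ _).trans (le_max_right _ _)).trans h
    exact ⟨abs_le.1 h1, abs_le.1 h2⟩

/-- the weight of the flow inequality -/
def wN (n : ℕ) : ℝ≥0∞ := 2 * 5 ^ n * ENNReal.ofReal (1 + Real.sqrt (1 + 4 * (n : ℝ)))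

/-- regions which are stable under the flow of the pair `(u, v)` -/
structure FlR (D : Finset (ℤ × ℤ)) (b : ℤ × ℤ → ℝ) (u v : ℤ × ℤ) (R : Set (D → ℝ)) : Prop where
  hu : u ∈ D
  ne : u ≠ v
  ms : MeasurableSet R
  sub : R ⊆ K D b
  am : ∀ s : ℝ, 0 ≤ s → s ≤ 1 → ∀ h ∈ R, Am D b u v s h ∈ R
  top : ∀ h ∈ R, (∀ i : Fin 6, gl D b h v ≤ gl D b (Am D b u v 1 h) (u + st i)) ∧
    gl D b h v ≤ gl D b (Am D b u v 1 h) u ∧ gl D b (Am D b u v 1 h) u ≤ gl D b h v + 1
  up : ∀ h ∈ R, (∀ i : Fin 6, gl D b h v ≤ gl D b h (u + st i)) → gl D b h v ≤ gl D b h u →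
    ∀ t : ℝ, gl D b h u ≤ t → t ≤ gl D b h v + 1 → (fun x : D => if x.1 = u then t else h x) ∈ R
  dis : ∀ h ∈ R, ∑ x, (Am D b u v 1 h x - h x) ^ 2 ≤ 1 + 4 * (Nn D b u v h : ℝ)

/- MODULE qfa
The flow inequality in a stable region, with a weight `ψ (Ns h)`.  Same proof as `flow_le`,
`flow_int` (file Fl): `|g h| ≤ |g (Am 1 h)| + ∫_0^1 √(1+4N) √(gr g (Am s h)) ds` (`Am_aff`, `dis`),
multiply by `ψ (Ns h)`, integrate over `R`, use `Am_cov` with the function
`R.indicator (ψ (Ns ·) * ...)` (`Ns_Am`, `Nn_Am`, `am`), and `top`.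
Measurability of `ψ (Ns ·)`: `Ns` takes finitely many values, every level set is a finite
intersection of (complements of) half spaces. -/
private theorem qfa_psi (D : Finset (ℤ × ℤ)) (b : ℤ × ℤ → ℝ) (u v : ℤ × ℤ)
    (ψ : Finset (ℤ × ℤ) → ℝ≥0∞) : Measurable (fun h : D → ℝ => ψ (Ns D b u v h)) := by
  classical
  have h1 : (fun h : D → ℝ => ψ (Ns D b u v h)) = fun h => ∑ S ∈ D.powerset,
      ({h : D → ℝ | Ns D b u v h = S}).indicator (fun _ => ψ S) h := by
    funext h
    have hS : Ns D b u v h ∈ D.powerset := by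
      rw [Finset.mem_powerset]
      unfold Ns
      exact Finset.filter_subset _ _
    rw [Finset.sum_eq_single_of_mem (Ns D b u v h) hS]
    · rw [Set.indicator_of_mem (show h ∈ {h' : D → ℝ | Ns D b u v h' = Ns D b u v h} from rfl)]
    · intro S _ hne
      rw [Set.indicator_of_notMem]
      exact fun h2 => hne h2.symm
  rw [h1]
  refine Finset.measurable_fun_sum _ fun S _ => Measurable.indicator measurable_const ?_
  have h2 : {h : D → ℝ | Ns D b u v h = S} = ⋂ x : ℤ × ℤ, {h : D → ℝ |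
      x ∈ Ns D b u v h ↔ x ∈ S} := by
    ext h
    simp only [Set.mem_ofPred_eq, Set.mem_iInter]
    exact Finset.ext_iff
  rw [h2]
  refine MeasurableSet.iInter fun x => ?_
  have h3 : MeasurableSet {h : D → ℝ | x ∈ Ns D b u v h} := by
    by_cases hx : x ∈ D ∧ x ≠ u ∧ x ≠ v
    · have : {h : D → ℝ | x ∈ Ns D b u v h} = {h : D → ℝ | qf D b u v h x < 1 / 2} := by
        ext h
        simp only [Set.mem_ofPred_eq]
        unfold Ns
        rw [Finset.mem_filter]
        exact ⟨fun h => h.2.2.2, fun h => ⟨hx.1, hx.2.1, hx.2.2, h⟩⟩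
      rw [this]
      refine measurableSet_lt ?_ measurable_const
      unfold qf
      exact (((gl_meas D b x).sub (gl_meas D b v)).sub_const 1).add_const _
    · have : {h : D → ℝ | x ∈ Ns D b u v h} = ∅ := by
        ext h
        simp only [Set.mem_ofPred_eq, Set.mem_empty_iff_false, iff_false]
        unfold Ns
        rw [Finset.mem_filter]
        exact fun h => hx ⟨h.1, h.2.1, h.2.2.1⟩
      rw [this]
      exact MeasurableSet.empty
  by_cases hx : x ∈ S
  · have : {h : D → ℝ | x ∈ Ns D b u v h ↔ x ∈ S} = {h : D → ℝ | x ∈ Ns D b u v h} := by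
      ext h
      simp only [Set.mem_ofPred_eq, hx, iff_true]
    rw [this]
    exact h3
  · have : {h : D → ℝ | x ∈ Ns D b u v h ↔ x ∈ S} = {h : D → ℝ | x ∈ Ns D b u v h}ᶜ := by
      ext h
      simp only [Set.mem_ofPred_eq, hx, iff_false, Set.mem_compl_iff]
    rw [this]
    exact h3.compl

private theorem qfa_Q {D : Finset (ℤ × ℤ)} {b : ℤ × ℤ → ℝ} {u v : ℤ × ℤ} {R : Set (D → ℝ)}
    (hR : MeasurableSet R) :
    MeasurableSet {h : D → ℝ | h ∈ R ∧ (∀ i : Fin 6, gl D b h v ≤ gl D b h (u + st i)) ∧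
      gl D b h v ≤ gl D b h u ∧ gl D b h u ≤ gl D b h v + 1} := by
  have h1 : {h : D → ℝ | h ∈ R ∧ (∀ i : Fin 6, gl D b h v ≤ gl D b h (u + st i)) ∧
      gl D b h v ≤ gl D b h u ∧ gl D b h u ≤ gl D b h v + 1} =
      R ∩ ((⋂ i : Fin 6, {h : D → ℝ | gl D b h v ≤ gl D b h (u + st i)}) ∩
        ({h : D → ℝ | gl D b h v ≤ gl D b h u} ∩ {h : D → ℝ | gl D b h u ≤ gl D b h v + 1})) := by
    ext h
    simp only [Set.mem_ofPred_eq, Set.mem_inter_iff, Set.mem_iInter]
  rw [h1]
  exact hR.inter ((MeasurableSet.iInter fun i => measurableSet_le (gl_meas D b v)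
    (gl_meas D b (u + st i))).inter ((measurableSet_le (gl_meas D b v) (gl_meas D b u)).inter
      (measurableSet_le (gl_meas D b u) ((gl_meas D b v).add_const 1))))

private theorem qfa_gr {ι : Type*} [Fintype ι] [DecidableEq ι] {g : (ι → ℝ) → ℝ}
    (hC : ContDiff ℝ 1 g) : Continuous (gr g) := by
  have h1 : Continuous (fderiv ℝ g) := hC.continuous_fderiv (by norm_num)
  unfold gr pd
  exact continuous_finsetSum _ fun x _ => (h1.clm_apply continuous_const).pow 2

private theorem qfa_le {D : Finset (ℤ × ℤ)} {b : ℤ × ℤ → ℝ} {u v : ℤ × ℤ} {R : Set (D → ℝ)}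
    (hR : FlR D b u v R) {g : (D → ℝ) → ℝ} (hC : ContDiff ℝ 1 g) {h : D → ℝ} (hh : h ∈ R) :
    ENNReal.ofReal |g h| ≤ ENNReal.ofReal |g (Am D b u v 1 h)| +
      ∫⁻ s in Icc (0 : ℝ) 1, ENNReal.ofReal
        (Real.sqrt (1 + 4 * (Nn D b u v h : ℝ)) * Real.sqrt (gr g (Am D b u v s h))) := by
  set k : D → ℝ := fun x => Am D b u v 1 h x - h x with hk
  have hAm : ∀ s : ℝ, Am D b u v s h = h + s • k := by
    intro s
    funext x
    rw [Am_aff s h x]
    rfl
  have hder : ∀ s : ℝ, HasDerivAt (fun s : ℝ => g (h + s • k)) (fderiv ℝ g (h + s • k) k) s := by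
    intro s
    have h1 : HasFDerivAt g (fderiv ℝ g (h + s • k)) (h + s • k) :=
      (hC.differentiable (by norm_num)).differentiableAt.hasFDerivAt
    have h2 : HasDerivAt (fun s : ℝ => h + s • k) k s := by
      have h3 : HasDerivAt (fun s : ℝ => s • k) ((1 : ℝ) • k) s := (hasDerivAt_id s).smul_const k
      rw [one_smul] at h3
      exact h3.const_add h
    exact h1.comp_hasDerivAt s h2
  have hcont : Continuous (fun s : ℝ => fderiv ℝ g (h + s • k) k) := by
    have h1 : Continuous (fderiv ℝ g) := hC.continuous_fderiv (by norm_num)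
    exact (h1.comp (by fun_prop : Continuous fun s : ℝ => h + s • k)).clm_apply continuous_const
  have hFTC : ∫ s in (0 : ℝ)..1, fderiv ℝ g (h + s • k) k = g (h + (1 : ℝ) • k) -
      g (h + (0 : ℝ) • k) :=
    intervalIntegral.integral_eq_sub_of_hasDerivAt (fun s _ => hder s)
      (hcont.intervalIntegrable _ _)
  have h1 : g (h + (1 : ℝ) • k) = g (Am D b u v 1 h) := by rw [hAm]
  have h0 : g (h + (0 : ℝ) • k) = g h := by simp
  rw [h1, h0, intervalIntegral.integral_of_le zero_le_one] at hFTC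
  have hb1 : ∀ s : ℝ, ‖fderiv ℝ g (h + s • k) k‖ₑ ≤ ENNReal.ofReal
      (Real.sqrt (1 + 4 * (Nn D b u v h : ℝ)) * Real.sqrt (gr g (Am D b u v s h))) := by
    intro s
    rw [Real.enorm_eq_ofReal_abs]
    refine ENNReal.ofReal_le_ofReal ?_
    refine (fderiv_le g _ k).trans ?_
    rw [← hAm s]
    refine mul_le_mul_of_nonneg_right (Real.sqrt_le_sqrt ?_) (Real.sqrt_nonneg _)
    exact hR.dis h hh
  have hb2 : ENNReal.ofReal |g (Am D b u v 1 h) - g h| ≤
      ∫⁻ s in Icc (0 : ℝ) 1, ENNReal.ofReal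
        (Real.sqrt (1 + 4 * (Nn D b u v h : ℝ)) * Real.sqrt (gr g (Am D b u v s h))) := by
    rw [← hFTC, ← Real.enorm_eq_ofReal_abs]
    refine (enorm_integral_le_lintegral_enorm _).trans ?_
    refine (lintegral_mono fun s => hb1 s).trans ?_
    exact lintegral_mono_set Ioc_subset_Icc_self
  have hb3 : |g h| ≤ |g (Am D b u v 1 h)| + |g (Am D b u v 1 h) - g h| := by
    have := abs_sub_abs_le_abs_sub (g h) (g (Am D b u v 1 h))
    rw [abs_sub_comm (g (Am D b u v 1 h)) (g h)]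
    linarith
  calc ENNReal.ofReal |g h| ≤ ENNReal.ofReal (|g (Am D b u v 1 h)| +
        |g (Am D b u v 1 h) - g h|) := ENNReal.ofReal_le_ofReal hb3
    _ = ENNReal.ofReal |g (Am D b u v 1 h)| + ENNReal.ofReal |g (Am D b u v 1 h) - g h| :=
        ENNReal.ofReal_add (abs_nonneg _) (abs_nonneg _)
    _ ≤ _ := by gcongr

theorem flr_flow {D : Finset (ℤ × ℤ)} {b : ℤ × ℤ → ℝ} {u v : ℤ × ℤ} {R : Set (D → ℝ)}
    (hR : FlR D b u v R) {g : (D → ℝ) → ℝ} (hC : ContDiff ℝ 1 g)
    (ψ : Finset (ℤ × ℤ) → ℝ≥0∞) :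
    ∫⁻ h in R, ψ (Ns D b u v h) * ENNReal.ofReal |g h| ≤
      (∫⁻ h in {h | h ∈ R ∧ (∀ i : Fin 6, gl D b h v ≤ gl D b h (u + st i)) ∧
          gl D b h v ≤ gl D b h u ∧ gl D b h u ≤ gl D b h v + 1},
        2 * 5 ^ (Nn D b u v h) * ψ (Ns D b u v h) * ENNReal.ofReal |g h|) +
      ∫⁻ h in R, 2 * 5 ^ (Nn D b u v h) * ψ (Ns D b u v h) * ENNReal.ofReal
        (Real.sqrt (1 + 4 * (Nn D b u v h : ℝ)) * Real.sqrt (gr g h)) := by
  have hRm := hR.ms
  have hQm := qfa_Q (b := b) (u := u) (v := v) hRm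
  set Q : Set (D → ℝ) := {h | h ∈ R ∧ (∀ i : Fin 6, gl D b h v ≤ gl D b h (u + st i)) ∧
    gl D b h v ≤ gl D b h u ∧ gl D b h u ≤ gl D b h v + 1} with hQ
  have hψ := qfa_psi D b u v ψ
  have hNm : Measurable (fun h : D → ℝ => (Nn D b u v h : ℝ)) :=
    measurable_from_top.comp (Nn_meas D b u v)
  have hgm : Measurable (fun h : D → ℝ => ENNReal.ofReal |g h|) :=
    (hC.continuous.abs.measurable).ennreal_ofReal
  have hgrm : Measurable (gr g) := (qfa_gr hC).measurable
  have hΨ : Measurable (fun y : D → ℝ => ψ (Ns D b u v y) * ENNReal.ofReal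
      (Real.sqrt (1 + 4 * (Nn D b u v y : ℝ)) * Real.sqrt (gr g y))) :=
    hψ.mul (((measurable_const.add (measurable_const.mul hNm)).sqrt).mul
      hgrm.sqrt).ennreal_ofReal
  have hA1 : Measurable (fun h : D → ℝ => Am D b u v 1 h) :=
    (Am_meas D b u v).comp (measurable_const.prodMk measurable_id)
  have hAm2 : Measurable (fun p : (D → ℝ) × ℝ => Am D b u v p.2 p.1) :=
    (Am_meas D b u v).comp (measurable_snd.prodMk measurable_fst)
  have hN1 : ∀ h, Ns D b u v (Am D b u v 1 h) = Ns D b u v h := fun h =>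
    Ns_Am zero_le_one le_rfl h
  have step1 : ∫⁻ h in R, ψ (Ns D b u v h) * ENNReal.ofReal |g h| ≤
      ∫⁻ h in R, (ψ (Ns D b u v (Am D b u v 1 h)) * ENNReal.ofReal |g (Am D b u v 1 h)| +
        ψ (Ns D b u v h) * ∫⁻ s in Icc (0 : ℝ) 1, ENNReal.ofReal
          (Real.sqrt (1 + 4 * (Nn D b u v h : ℝ)) * Real.sqrt (gr g (Am D b u v s h)))) := by
    refine setLIntegral_mono' hRm fun h hh => ?_
    rw [hN1, ← mul_add]
    exact mul_le_mul_right (qfa_le hR hC hh) _
  have hm1 : Measurable (fun h : D → ℝ => ψ (Ns D b u v (Am D b u v 1 h)) *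
      ENNReal.ofReal |g (Am D b u v 1 h)|) := (hψ.mul hgm).comp hA1
  rw [lintegral_add_left hm1] at step1
  refine step1.trans (add_le_add ?_ ?_)
  · calc ∫⁻ h in R, ψ (Ns D b u v (Am D b u v 1 h)) * ENNReal.ofReal |g (Am D b u v 1 h)|
        ≤ ∫⁻ h in R, Q.indicator (fun y => ψ (Ns D b u v y) * ENNReal.ofReal |g y|)
            (Am D b u v 1 h) := by
          refine setLIntegral_mono' hRm fun h hh => ?_
          have h1 : Am D b u v 1 h ∈ Q := by
            have h2 := hR.top h hh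
            refine ⟨hR.am 1 zero_le_one le_rfl h hh, ?_, ?_, ?_⟩
            · intro i
              rw [Am_v]
              exact h2.1 i
            · rw [Am_v]
              exact h2.2.1
            · rw [Am_v]
              exact h2.2.2
          rw [indicator_of_mem h1]
      _ ≤ ∫⁻ h, Q.indicator (fun y => ψ (Ns D b u v y) * ENNReal.ofReal |g y|)
            (Am D b u v 1 h) := setLIntegral_le_lintegral _ _
      _ ≤ ∫⁻ h, 2 * 5 ^ (Nn D b u v h) *
            Q.indicator (fun y => ψ (Ns D b u v y) * ENNReal.ofReal |g y|) h :=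
          Am_cov zero_le_one le_rfl ((hψ.mul hgm).indicator hQm)
      _ = ∫⁻ h in Q, 2 * 5 ^ (Nn D b u v h) * ψ (Ns D b u v h) * ENNReal.ofReal |g h| := by
          rw [← lintegral_indicator hQm]
          refine lintegral_congr fun h => ?_
          by_cases hh : h ∈ Q
          · rw [indicator_of_mem hh, indicator_of_mem hh, ← mul_assoc]
          · rw [indicator_of_notMem hh, indicator_of_notMem hh, mul_zero]
  · have hm2 : Measurable (fun p : (D → ℝ) × ℝ => ENNReal.ofReal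
        (Real.sqrt (1 + 4 * (Nn D b u v p.1 : ℝ)) * Real.sqrt (gr g (Am D b u v p.2 p.1)))) := by
      refine Measurable.ennreal_ofReal (Measurable.mul ?_ ?_)
      · exact (measurable_const.add (measurable_const.mul (hNm.comp measurable_fst))).sqrt
      · exact (hgrm.comp hAm2).sqrt
    have hswap : ∫⁻ h in R, ψ (Ns D b u v h) * ∫⁻ s in Icc (0 : ℝ) 1, ENNReal.ofReal
          (Real.sqrt (1 + 4 * (Nn D b u v h : ℝ)) * Real.sqrt (gr g (Am D b u v s h))) =
        ∫⁻ s in Icc (0 : ℝ) 1, ∫⁻ h in R, ψ (Ns D b u v h) * ENNReal.ofReal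
          (Real.sqrt (1 + 4 * (Nn D b u v h : ℝ)) * Real.sqrt (gr g (Am D b u v s h))) := by
      rw [← lintegral_lintegral_swap (Measurable.aemeasurable ?_)]
      · refine lintegral_congr fun h => ?_
        exact (lintegral_const_mul _ (hm2.comp (measurable_const.prodMk measurable_id))).symm
      · exact (hψ.comp measurable_fst).mul hm2
    rw [hswap]
    have hle : ∫⁻ s in Icc (0 : ℝ) 1, ∫⁻ h in R, ψ (Ns D b u v h) * ENNReal.ofReal
          (Real.sqrt (1 + 4 * (Nn D b u v h : ℝ)) * Real.sqrt (gr g (Am D b u v s h))) ≤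
        ∫⁻ _ in Icc (0 : ℝ) 1, ∫⁻ h in R, 2 * 5 ^ (Nn D b u v h) * ψ (Ns D b u v h) *
          ENNReal.ofReal
          (Real.sqrt (1 + 4 * (Nn D b u v h : ℝ)) * Real.sqrt (gr g h)) := by
      refine setLIntegral_mono' measurableSet_Icc fun s hs => ?_
      have h1 := Am_cov (b := b) (u := u) (v := v) hs.1 hs.2 (hΨ.indicator hRm)
      calc ∫⁻ h in R, ψ (Ns D b u v h) * ENNReal.ofReal
            (Real.sqrt (1 + 4 * (Nn D b u v h : ℝ)) * Real.sqrt (gr g (Am D b u v s h)))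
          ≤ ∫⁻ h in R, R.indicator (fun y => ψ (Ns D b u v y) * ENNReal.ofReal
            (Real.sqrt (1 + 4 * (Nn D b u v y : ℝ)) * Real.sqrt (gr g y)))
            (Am D b u v s h) := by
            refine setLIntegral_mono' hRm fun h hh => ?_
            rw [indicator_of_mem (hR.am s hs.1 hs.2 h hh), Ns_Am hs.1 hs.2, Nn_Am hs.1 hs.2]
        _ ≤ ∫⁻ h, R.indicator (fun y => ψ (Ns D b u v y) * ENNReal.ofReal
            (Real.sqrt (1 + 4 * (Nn D b u v y : ℝ)) * Real.sqrt (gr g y)))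
            (Am D b u v s h) := setLIntegral_le_lintegral _ _
        _ ≤ _ := h1
        _ = _ := by
            rw [← lintegral_indicator hRm]
            refine lintegral_congr fun h => ?_
            by_cases hh : h ∈ R
            · rw [indicator_of_mem hh, indicator_of_mem hh, ← mul_assoc]
            · rw [indicator_of_notMem hh, indicator_of_notMem hh, mul_zero]
    refine hle.trans ?_
    rw [setLIntegral_const, Real.volume_Icc]
    simp
/- END qfa -/

/- MODULE qfb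
The segment part for a function which vanishes next to the facet `H u = H v + 1`.  As `seg_int`,
but the value on the facet is zero: for fixed other coordinates the set of `r = h u` with `h` in the
region `Q` of the first integral is an interval contained in `[H v, H v + 1]` and upward closed in
it (`hR.up`), `|g r| ≤ ∫_r^{H v + 1} |∂_u g|`, and its length is `≤ 1` (`fib_le`).  `Ns`, `Nn` do
not depend on `h u` (`Nn_Pm`). Together with `flr_flow`. -/
theorem flr_ineq {D : Finset (ℤ × ℤ)} {b : ℤ × ℤ → ℝ} {u v : ℤ × ℤ} {R : Set (D → ℝ)}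
    (hR : FlR D b u v R) {g : (D → ℝ) → ℝ} (hC : ContDiff ℝ 1 g) {ε : ℝ} (hε : 0 < ε)
    (ht : ∀ h : D → ℝ, 1 - ε < |gl D b h u - gl D b h v| → g h = 0)
    (ψ : Finset (ℤ × ℤ) → ℝ≥0∞) :
    ∫⁻ h in R, ψ (Ns D b u v h) * ENNReal.ofReal |g h| ≤
      ∫⁻ h in R, wN (Nn D b u v h) * ψ (Ns D b u v h) * ENNReal.ofReal (Real.sqrt (gr g h)) := by
  have hRm := hR.ms
  have hQm := qfa_Q (b := b) (u := u) (v := v) hRm
  have hflow := flr_flow hR hC ψ
  set Q : Set (D → ℝ) := {h | h ∈ R ∧ (∀ i : Fin 6, gl D b h v ≤ gl D b h (u + st i)) ∧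
    gl D b h v ≤ gl D b h u ∧ gl D b h u ≤ gl D b h v + 1} with hQ
  have hψ := qfa_psi D b u v ψ
  have hgm : Measurable g := hC.continuous.measurable
  have hgrm : Measurable (gr g) := (qfa_gr hC).measurable
  have hNm : Measurable (fun h : D → ℝ => (2 : ℝ≥0∞) * 5 ^ (Nn D b u v h)) :=
    ((measurable_from_top (f := fun n : ℕ => (5 : ℝ≥0∞) ^ n)).comp
      (Nn_meas D b u v)).const_mul 2
  have hNr : Measurable (fun h : D → ℝ => (Nn D b u v h : ℝ)) :=
    measurable_from_top.comp (Nn_meas D b u v)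
  have m1 : Measurable (fun h => 2 * 5 ^ (Nn D b u v h) * ψ (Ns D b u v h) *
      ENNReal.ofReal |g h|) :=
    (hNm.mul hψ).mul (ENNReal.measurable_ofReal.comp hgm.abs)
  have m3 : Measurable (fun h => 2 * 5 ^ (Nn D b u v h) * ψ (Ns D b u v h) *
      ENNReal.ofReal (Real.sqrt (gr g h))) :=
    (hNm.mul hψ).mul (ENNReal.measurable_ofReal.comp hgrm.sqrt)
  have seg : ∫⁻ h in Q, 2 * 5 ^ (Nn D b u v h) * ψ (Ns D b u v h) * ENNReal.ofReal |g h| ≤
      ∫⁻ h in Q, 2 * 5 ^ (Nn D b u v h) * ψ (Ns D b u v h) *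
        ENNReal.ofReal (Real.sqrt (gr g h)) := by
    rw [← lintegral_indicator hQm, ← lintegral_indicator hQm]
    refine fib_le (⟨u, hR.hu⟩ : D) (m1.indicator hQm) (m3.indicator hQm) fun h => ?_
    have huv := hR.ne
    set c := gl D b h v with hc
    have hv : ∀ r, gl D b (Function.update h ⟨u, hR.hu⟩ r) v = c := by
      intro r
      by_cases hvD : v ∈ D
      · rw [hc, gl_mem hvD, gl_mem hvD, Function.update_of_ne]
        intro he
        exact huv (congrArg Subtype.val he).symm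
      · rw [hc, gl_not_mem hvD, gl_not_mem hvD]
    have hupd : ∀ r, Function.update h ⟨u, hR.hu⟩ r = fun x => if x.1 = u then r else h x := by
      intro r
      funext x
      by_cases hx : x.1 = u
      · have : x = ⟨u, hR.hu⟩ := Subtype.ext hx
        subst this
        simp
      · rw [Function.update_of_ne (fun he => hx (by rw [he])), if_neg hx]
    have hother : ∀ r z, z ≠ u → gl D b (Function.update h ⟨u, hR.hu⟩ r) z = gl D b h z := by
      intro r z hz
      by_cases hzD : z ∈ D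
      · rw [gl_mem hzD, gl_mem hzD, Function.update_of_ne]
        intro he
        exact hz (congrArg Subtype.val he)
      · rw [gl_not_mem hzD, gl_not_mem hzD]
    have hNs : ∀ r, Ns D b u v (Function.update h ⟨u, hR.hu⟩ r) = Ns D b u v h := by
      intro r
      unfold Ns
      apply Finset.filter_congr
      intro x _
      apply and_congr_right
      intro hxu
      apply and_congr_right
      intro _
      unfold qf
      rw [hother r x hxu, hother r v huv.symm]
    have hN : ∀ r, Nn D b u v (Function.update h ⟨u, hR.hu⟩ r) = Nn D b u v h := by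
      intro r
      unfold Nn
      rw [hNs]
    have hglu : ∀ r, gl D b (Function.update h ⟨u, hR.hu⟩ r) u = r := by
      intro r
      rw [gl_mem hR.hu, Function.update_self]
    set J : Set ℝ := {r | Function.update h ⟨u, hR.hu⟩ r ∈ Q} with hJ
    have hJm : MeasurableSet J := measurable_update h hQm
    have hJ1 : J ⊆ Icc c (c + 1) := by
      intro r hr
      obtain ⟨_, _, h4, h5⟩ := hr
      rw [hv, hglu] at h4 h5
      exact ⟨h4, h5⟩
    have hJ2 : ∀ r ∈ J, Icc r (c + 1) ⊆ J := by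
      intro r hr t ht
      obtain ⟨h2, h3, h4, h5⟩ := hr
      have h6 := hR.up _ h2 h3 h4 t (by rw [hglu]; exact ht.1) (by rw [hv]; exact ht.2)
      have h7 : Function.update h ⟨u, hR.hu⟩ t =
          fun x : D => if x.1 = u then t else Function.update h ⟨u, hR.hu⟩ r x := by
        rw [hupd t]
        funext x
        by_cases hx : x.1 = u
        · simp [hx]
        · simp only [hx, if_false]
          rw [Function.update_of_ne (fun he => hx (by rw [he]))]
      show Function.update h ⟨u, hR.hu⟩ t ∈ Q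
      refine ⟨?_, ?_, ?_, ?_⟩
      · rw [h7]
        exact h6
      · intro i
        have h8 : u + st i ≠ u := by
          intro h9
          exact st_ne i (by simpa using h9)
        have h10 := h3 i
        rw [hv, hother _ _ h8] at h10 ⊢
        exact h10
      · rw [hv, hglu] at h4 ⊢
        exact h4.trans ht.1
      · rw [hv, hglu]
        exact ht.2
    have hind : ∀ (F : (D → ℝ) → ℝ≥0∞) (r : ℝ),
        Q.indicator F (Function.update h ⟨u, hR.hu⟩ r) =
          J.indicator (fun r => F (Function.update h ⟨u, hR.hu⟩ r)) r := by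
      intro F r
      by_cases hr : r ∈ J
      · rw [Set.indicator_of_mem hr, Set.indicator_of_mem (show _ ∈ Q from hr)]
      · rw [Set.indicator_of_notMem hr, Set.indicator_of_notMem (show _ ∉ Q from hr)]
    simp only [hind]
    rw [lintegral_indicator hJm, lintegral_indicator hJm]
    simp only [hN, hNs]
    set κ : ℝ≥0∞ := 2 * 5 ^ (Nn D b u v h) * ψ (Ns D b u v h) with hκ
    have mg : Measurable (fun t => ENNReal.ofReal
        (Real.sqrt (gr g (Function.update h ⟨u, hR.hu⟩ t)))) :=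
      ENNReal.measurable_ofReal.comp (hgrm.comp (measurable_update h)).sqrt
    set A : ℝ≥0∞ := ∫⁻ t in J, ENNReal.ofReal
      (Real.sqrt (gr g (Function.update h ⟨u, hR.hu⟩ t))) with hA
    have hvol : volume J ≤ 1 := by
      refine (measure_mono hJ1).trans (le_of_eq ?_)
      rw [Real.volume_Icc]
      norm_num
    have hzero : g (Function.update h ⟨u, hR.hu⟩ (c + 1)) = 0 := by
      apply ht
      rw [hglu, hv]
      rw [show c + 1 - c = 1 by ring, abs_one]
      linarith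
    have hftc : ∀ r ∈ J, ENNReal.ofReal |g (Function.update h ⟨u, hR.hu⟩ r)| ≤ A := by
      intro r hr
      have hrc : r ≤ c + 1 := (hJ1 hr).2
      have hd : ∀ t, HasDerivAt (fun t => g (Function.update h ⟨u, hR.hu⟩ t))
          (pd (⟨u, hR.hu⟩ : D) g (Function.update h ⟨u, hR.hu⟩ t)) t := by
        intro t
        have h1 : HasFDerivAt g (fderiv ℝ g (Function.update h ⟨u, hR.hu⟩ t))
            (Function.update h ⟨u, hR.hu⟩ t) :=
          (hC.differentiable (by norm_num) _).hasFDerivAt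
        exact h1.comp_hasDerivAt t (hasDerivAt_update h _ t)
      have hcont : Continuous (fun t =>
          pd (⟨u, hR.hu⟩ : D) g (Function.update h ⟨u, hR.hu⟩ t)) := by
        unfold pd
        exact ((hC.continuous_fderiv (by norm_num)).comp
          (continuous_const.update _ continuous_id)).clm_apply continuous_const
      have hI : ∫ t in r..(c + 1), pd (⟨u, hR.hu⟩ : D) g (Function.update h ⟨u, hR.hu⟩ t) =
          g (Function.update h ⟨u, hR.hu⟩ (c + 1)) - g (Function.update h ⟨u, hR.hu⟩ r) :=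
        intervalIntegral.integral_eq_sub_of_hasDerivAt (fun t _ => hd t)
          (hcont.intervalIntegrable _ _)
      rw [hzero, zero_sub] at hI
      have h9 : ENNReal.ofReal |g (Function.update h ⟨u, hR.hu⟩ r)| =
          ‖∫ t in Ioc r (c + 1), pd (⟨u, hR.hu⟩ : D) g
            (Function.update h ⟨u, hR.hu⟩ t)‖ₑ := by
        rw [← intervalIntegral.integral_of_le hrc, hI, Real.enorm_eq_ofReal_abs, abs_neg]
      rw [h9]
      refine (enorm_integral_le_lintegral_enorm _).trans ?_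
      refine (lintegral_mono_set (Set.Ioc_subset_Icc_self.trans (hJ2 r hr))).trans ?_
      refine lintegral_mono fun t => ?_
      rw [Real.enorm_eq_ofReal_abs]
      refine ENNReal.ofReal_le_ofReal (Real.abs_le_sqrt ?_)
      unfold gr
      exact Finset.single_le_sum
        (f := fun x => (pd x g (Function.update h ⟨u, hR.hu⟩ t)) ^ 2)
        (fun x _ => sq_nonneg _) (Finset.mem_univ (⟨u, hR.hu⟩ : D))
    calc ∫⁻ r in J, κ * ENNReal.ofReal |g (Function.update h ⟨u, hR.hu⟩ r)|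
        ≤ ∫⁻ _r in J, κ * A := by
          refine setLIntegral_mono' hJm fun r hr => ?_
          exact mul_le_mul_right (hftc r hr) _
      _ = κ * A * volume J := setLIntegral_const _ _
      _ ≤ κ * A * 1 := mul_le_mul_right hvol _
      _ = κ * A := mul_one _
      _ = ∫⁻ r in J, κ * ENNReal.ofReal
            (Real.sqrt (gr g (Function.update h ⟨u, hR.hu⟩ r))) := by
          rw [lintegral_const_mul _ mg]
  have hQR : Q ⊆ R := fun h hh => hh.1
  refine hflow.trans ?_
  refine (add_le_add (seg.trans (lintegral_mono_set hQR)) le_rfl).trans ?_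
  rw [← lintegral_add_left m3]
  refine lintegral_mono fun h => ?_
  unfold wN
  have hs : 0 ≤ Real.sqrt (1 + 4 * (Nn D b u v h : ℝ)) := Real.sqrt_nonneg _
  rw [ENNReal.ofReal_mul hs, ENNReal.ofReal_add zero_le_one hs, ENNReal.ofReal_one]
  apply le_of_eq
  ring
/- END qfb -/

/- MODULE qfc
`Reg` is stable for good pairs: `Am_Reg`, `Am_one_Qset`, `Am_disp`, `Reg_meas`, and for `up` the
proof of `Qset_up`. -/
theorem flr_Reg {D : Finset (ℤ × ℤ)} {b : ℤ × ℤ → ℝ} (hb : ∀ z, |b z| ≤ 1 / 2) {u v : ℤ × ℤ}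
    (hg : Good D b u v) : FlR D b u v (Reg D b v) where
  hu := hg.hu
  ne := hg.ne
  ms := Reg_meas D b v
  sub := fun _ hh => hh.1
  am := fun _ h0 h1 _ hh => Am_Reg hb hg h0 h1 hh
  top := fun h hh => by
    obtain ⟨_, _, h3, h4, h5⟩ := Am_one_Qset hb hg hh
    simp only [Am_v] at h3 h4 h5
    exact ⟨h3, h4, h5⟩
  up := fun h hh h1 h2 t h3 h4 => by
    have h5 : h ∈ Qset D b u v := ⟨hh.1, hh.2, h1, h2, h3.trans h4⟩
    have h6 := Qset_up hg h5 h3 h4
    exact ⟨h6.1, h6.2.1⟩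
  dis := fun _ hh => Am_disp hb hg hh
/- END qfc -/

/-- the region of the up-gate in the fibre over the ball -/
def Gu (m : ℕ) (u v : ℤ × ℤ) (β : ℤ × ℤ → ℝ) : Set (ba u m → ℝ) :=
  {h | h ∈ K (ba u m) β ∧ up m u v (gl (ba u m) β h)}

/- MODULE qfd
Geometry in the ball, `D = ba u m`, data `β` arbitrary, `h ∈ K (ba u m) β`, `v = u + st i`.
(1) `H = gl (ba u m) β h` satisfies `|H x - H (x + st j)| ≤ 1` if `x` or `x + st j` is in the ball.
(2) `qf` does not decrease along outward edges `x → x + st j` with `x` in the ball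
(`dn (x + st j - u) = dn (x - u) + 1`), increases by at most `2`; lateral edges: at most `1`.
(3) `-2 ≤ qf u ≤ 0`, `qf v = 0`, `-2 ≤ qf x` for `x` in the ball (induction along a geodesic from
`u`: `qf` does not decrease).
(4) in `Gu`: `1/2 ≤ qf z` for all `z` with `dn (z - u) = m` or `= m + 1` (a site at distance
`m + 1` has a neighbour at distance `m`, `dn_pred`). -/
private theorem qfd_st1 (i : Fin 6) : dn (st i) = 1 := (dn_one_iff (st i)).2 ⟨i, rfl⟩

private theorem qfd_low {m : ℕ} {u : ℤ × ℤ} {β : ℤ × ℤ → ℝ} {h : ba u m → ℝ}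
    (hh : h ∈ K (ba u m) β) (n : ℕ) : ∀ x ∈ ba u m, dn (x - u) ≤ (n : ℤ) →
      gl (ba u m) β h u - (dn (x - u) : ℝ) ≤ gl (ba u m) β h x := by
  induction n with
  | zero =>
    intro x _ hx
    have h0 : dn (x - u) = 0 := le_antisymm (by simpa using hx) (dn_nonneg _)
    have h1 : x = u := sub_eq_zero.1 ((dn_zero_iff _).1 h0)
    rw [h0, h1]
    simp
  | succ n ih =>
    intro x hxb hx
    by_cases hz : x - u = 0
    · rw [(dn_zero_iff _).2 hz, sub_eq_zero.1 hz]
      simp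
    · obtain ⟨i, hi⟩ := dn_pred (x - u) hz
      have h1 : x - u + st i = x + st i - u := by abel
      rw [h1] at hi
      have hb : dn (x - u) ≤ m := mem_ba.1 hxb
      have h2 := ih (x + st i) (mem_ba.2 (by rw [hi]; linarith))
        (by rw [hi]; push_cast at hx; linarith)
      have h3 := abs_le.1 (hh x hxb i)
      rw [hi] at h2
      push_cast at h2
      linarith [h3.1]

theorem ball_geo {m : ℕ} {u : ℤ × ℤ} {i : Fin 6} {β : ℤ × ℤ → ℝ} (hm : 1 ≤ m)
    {h : ba u m → ℝ} (hh : h ∈ K (ba u m) β) :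
    (∀ x ∈ ba u m, ∀ j, dn (x + st j - u) = dn (x - u) + 1 →
      0 ≤ qf (ba u m) β u (u + st i) h (x + st j) - qf (ba u m) β u (u + st i) h x ∧
      qf (ba u m) β u (u + st i) h (x + st j) - qf (ba u m) β u (u + st i) h x ≤ 2) ∧
    (∀ x ∈ ba u m, ∀ j, dn (x + st j - u) = dn (x - u) →
      |qf (ba u m) β u (u + st i) h (x + st j) - qf (ba u m) β u (u + st i) h x| ≤ 1) ∧
    (∀ x ∈ ba u m, -2 ≤ qf (ba u m) β u (u + st i) h x) ∧
    qf (ba u m) β u (u + st i) h (u + st i) = 0 ∧ qf (ba u m) β u (u + st i) h u ≤ 0 ∧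
    (up m u (u + st i) (gl (ba u m) β h) → ∀ z, (dn (z - u) = m ∨ dn (z - u) = m + 1) →
      1 / 2 ≤ qf (ba u m) β u (u + st i) h z) := by
  have hu : u ∈ ba u m := mem_ba.2 (by
    rw [(dn_zero_iff _).2 (sub_self u)]
    exact_mod_cast Nat.zero_le m)
  have hv : dn (u + st i - u) = 1 := by
    rw [add_sub_cancel_left]
    exact qfd_st1 i
  have hout : ∀ x ∈ ba u m, ∀ j, dn (x + st j - u) = dn (x - u) + 1 →
      0 ≤ qf (ba u m) β u (u + st i) h (x + st j) - qf (ba u m) β u (u + st i) h x ∧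
      qf (ba u m) β u (u + st i) h (x + st j) - qf (ba u m) β u (u + st i) h x ≤ 2 := by
    intro x hx j hj
    have h2 := abs_le.1 (hh x hx j)
    rw [qf, qf, hj]
    push_cast
    constructor <;> linarith [h2.1, h2.2]
  refine ⟨hout, ?_, ?_, ?_, ?_, ?_⟩
  · intro x hx j hj
    have h2 := abs_le.1 (hh x hx j)
    rw [qf, qf, hj, abs_le]
    constructor <;> linarith [h2.1, h2.2]
  · intro x hx
    have h1 := qfd_low hh (dn (x - u)).toNat x hx
      (by rw [Int.toNat_of_nonneg (dn_nonneg _)])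
    have h2 := abs_le.1 (hh u hu i)
    rw [qf]
    linarith [h2.1]
  · rw [qf, hv]
    push_cast
    ring
  · have h2 := abs_le.1 (hh u hu i)
    rw [qf, (dn_zero_iff _).2 (sub_self u)]
    push_cast
    linarith [h2.2]
  · intro hup
    have h1 : ∀ z, dn (z - u) = m → 1 / 2 ≤ qf (ba u m) β u (u + st i) h z := by
      intro z hz
      have := hup z hz
      rw [qf, hz]
      exact_mod_cast this
    rintro z (hz | hz)
    · exact h1 z hz
    · have hz0 : z - u ≠ 0 := by
        intro h0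
        rw [(dn_zero_iff _).2 h0] at hz
        omega
      obtain ⟨j, hj⟩ := dn_pred (z - u) hz0
      have e1 : z - u + st j = z + st j - u := by abel
      rw [e1, hz] at hj
      have hj' : dn (z + st j - u) = m := by rw [hj]; ring
      have e2 : z + st j + st (j + 3) = z := by
        rw [st_neg]
        abel
      have h3 := (hout (z + st j) (mem_ba.2 hj'.le) (j + 3) (by rw [e2, hz, hj'])).1
      rw [e2] at h3
      linarith [h1 (z + st j) hj']
/- END qfd -/

/- MODULE qfe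
The region of the up-gate is stable.  As `Am_one_Qset`, `Am_Reg`, `Am_disp` (file Fl), with
`ball_geo`: fixed sites next to the ball are at distance `m + 1` and have `qf ≥ 1/2`, the sites at
distance `m` are not moved.  `2 ≤ m` (for `m ≤ 1` the gate is never open because `qf v = 0`). -/
private def qfe_T (d : ℤ) (q q' : ℝ) : Prop :=
  (d = 0 ∧ q' = q / 2 ∧ -2 ≤ q ∧ q ≤ 0) ∨ (d = 1 ∧ q' = q ∧ 0 ≤ q) ∨
    (1 ≤ d ∧ -2 ≤ q ∧ ((1 / 2 ≤ q ∧ q' = q) ∨ (q < 1 / 2 ∧ q' = 2 / 5 + q / 5)))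

private theorem qfe_real {d e : ℤ} {q r q' r' : ℝ} (h1 : qfe_T d q q') (h2 : qfe_T e r r')
    (h5 : ¬ (d = 0 ∧ e = 0)) (h4 : |e - d| ≤ 1) (h3 : |r - q - ((e : ℝ) - d)| ≤ 1) :
    |r' - q' - ((e : ℝ) - d)| ≤ 1 := by
  have h6 : e = d - 1 ∨ e = d ∨ e = d + 1 := by
    rw [abs_le] at h4
    omega
  rw [abs_le] at h3 ⊢
  obtain ⟨h7, h8⟩ := h3
  rcases h1 with ⟨a1, a2, a3, a4⟩ | ⟨a1, a2, a3⟩ | ⟨a1, a2, ⟨a3, a4⟩ | ⟨a3, a4⟩⟩ <;>
  rcases h2 with ⟨b1, b2, b3, b4⟩ | ⟨b1, b2, b3⟩ | ⟨b1, b2, ⟨b3, b4⟩ | ⟨b3, b4⟩⟩ <;>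
  rcases h6 with h6 | h6 | h6 <;>
  first
    | (exfalso; omega)
    | (rw [h6] at h7 h8 ⊢
       push_cast at h7 h8 ⊢
       constructor <;> linarith)

private theorem qfe_uu (u : ℤ × ℤ) : dn (u - u) = 0 := by rw [dn_zero_iff, sub_self]

private theorem qfe_uv (u : ℤ × ℤ) (i : Fin 6) : dn (u + st i - u) = 1 := by
  rw [dn_one_iff]
  exact ⟨i, by abel⟩

private theorem qfe_ne (u : ℤ × ℤ) (i : Fin 6) : u + st i ≠ u := by
  intro hi
  exact st_ne i (by simpa using hi)

private theorem qfe_gl {D : Finset (ℤ × ℤ)} {b : ℤ × ℤ → ℝ} {u : ℤ × ℤ} {h : D → ℝ} {t : ℝ}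
    {z : ℤ × ℤ} (hz : z ≠ u) :
    gl D b (fun x : D => if x.1 = u then t else h x) z = gl D b h z := by
  by_cases hD : z ∈ D
  · rw [gl_mem hD, gl_mem hD]
    simp [hz]
  · rw [gl_not_mem hD, gl_not_mem hD]

private theorem qfe_gl_u {D : Finset (ℤ × ℤ)} {b : ℤ × ℤ → ℝ} {u : ℤ × ℤ} {h : D → ℝ} {t : ℝ}
    (hu : u ∈ D) :
    gl D b (fun x : D => if x.1 = u then t else h x) u = t := by
  rw [gl_mem hu]
  simp

private theorem qfe_ty {m : ℕ} (hm : 2 ≤ m) {u : ℤ × ℤ} {i : Fin 6} {β : ℤ × ℤ → ℝ}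
    {h : ba u m → ℝ} (hh : h ∈ Gu m u (u + st i) β) (z : ℤ × ℤ) (hz : dn (z - u) ≤ m + 1) :
    qfe_T (dn (z - u)) (qf (ba u m) β u (u + st i) h z)
      (gl (ba u m) β (Am (ba u m) β u (u + st i) 1 h) z - gl (ba u m) β h (u + st i) - 1 +
        (dn (z - u) : ℝ)) := by
  obtain ⟨hK, hup⟩ := hh
  obtain ⟨-, -, hge, hqv, hqu, hfar⟩ := ball_geo (i := i) (by omega) hK
  by_cases hzv : z = u + st i
  · right
    left
    have h1 : dn (z - u) = 1 := by rw [hzv]; exact qfe_uv u i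
    have h2 : qf (ba u m) β u (u + st i) h z = 0 := by rw [hzv]; exact hqv
    refine ⟨h1, ?_, le_of_eq h2.symm⟩
    rw [h2, h1, hzv, Am_v]
    push_cast
    ring
  · by_cases hzu : z = u
    · left
      have h1 : dn (z - u) = 0 := by rw [dn_zero_iff, hzu, sub_self]
      have huD : u ∈ ba u m := by
        rw [mem_ba, qfe_uu]
        positivity
      have h2 := hge u huD
      refine ⟨h1, ?_, by rw [hzu]; exact h2, by rw [hzu]; exact hqu⟩
      rw [h1]
      unfold qf
      rw [h1]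
      have hzD : z ∈ ba u m := by rw [hzu]; exact huD
      rw [gl_mem hzD, gl_mem (h := h) hzD]
      unfold Am
      rw [if_neg hzv, if_pos hzu]
      push_cast
      ring
    · have hd : 1 ≤ dn (z - u) := by
        have h1 := dn_nonneg (z - u)
        have h2 : dn (z - u) ≠ 0 := by
          intro h3
          rw [dn_zero_iff, sub_eq_zero] at h3
          exact hzu h3
        omega
      by_cases hzD : z ∈ ba u m
      · right
        right
        refine ⟨hd, hge z hzD, ?_⟩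
        have e1 : gl (ba u m) β (Am (ba u m) β u (u + st i) 1 h) z =
            if h ⟨z, hzD⟩ < ct (ba u m) β u (u + st i) h z then
            ct (ba u m) β u (u + st i) h z -
              (1 - 4 * 1 / 5) * (ct (ba u m) β u (u + st i) h z - h ⟨z, hzD⟩)
            else h ⟨z, hzD⟩ := by
          rw [gl_mem hzD]
          unfold Am
          rw [if_neg hzv, if_neg hzu]
        have e2 : gl (ba u m) β h z = h ⟨z, hzD⟩ := gl_mem hzD
        have e3 : ct (ba u m) β u (u + st i) h z =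
            gl (ba u m) β h (u + st i) + 3 / 2 - (dn (z - u) : ℝ) := rfl
        unfold qf
        rw [e1, e2]
        by_cases h3 : h ⟨z, hzD⟩ < ct (ba u m) β u (u + st i) h z
        · rw [if_pos h3]
          right
          constructor
          · linarith
          · rw [e3]
            ring
        · rw [if_neg h3]
          left
          constructor
          · linarith
          · rfl
      · have hd1 : dn (z - u) = m + 1 := by
          rw [mem_ba] at hzD
          omega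
        have e1 : gl (ba u m) β (Am (ba u m) β u (u + st i) 1 h) z = β z := gl_not_mem hzD
        have e2 : gl (ba u m) β h z = β z := gl_not_mem hzD
        have e3 : gl (ba u m) β (Am (ba u m) β u (u + st i) 1 h) z -
            gl (ba u m) β h (u + st i) - 1 + (dn (z - u) : ℝ) =
              qf (ba u m) β u (u + st i) h z := by
          unfold qf
          rw [e1, e2]
        have h4 := hfar hup z (Or.inr hd1)
        right
        right
        exact ⟨hd, by linarith, Or.inl ⟨h4, e3⟩⟩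

private theorem qfe_K {m : ℕ} (hm : 2 ≤ m) {u : ℤ × ℤ} {i : Fin 6} {β : ℤ × ℤ → ℝ}
    {h : ba u m → ℝ} (hh : h ∈ Gu m u (u + st i) β) :
    Am (ba u m) β u (u + st i) 1 h ∈ K (ba u m) β := by
  intro x hx j
  have hxm : dn (x - u) ≤ m := mem_ba.1 hx
  have e1 : x - u + st j = x + st j - u := by abel
  have h4 := dn_step (x - u) j
  rw [e1] at h4
  have h4' := abs_le.1 h4
  have h1 := qfe_ty hm hh x (by omega)
  have h2 := qfe_ty hm hh (x + st j) (by omega)
  have h3 := hh.1 x hx j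
  have h5 : ¬ (dn (x - u) = 0 ∧ dn (x + st j - u) = 0) := by
    rintro ⟨h6, h7⟩
    rw [dn_zero_iff] at h6 h7
    have h8 : st j = 0 := by
      have : st j = (x + st j - u) - (x - u) := by abel
      rw [this, h6, h7, sub_zero]
    exact st_ne j h8
  have h6 := qfe_real h1 h2 h5 h4 (by
    unfold qf
    rw [abs_le] at h3 ⊢
    constructor <;> linarith [h3.1, h3.2])
  rw [abs_le] at h6 ⊢
  constructor <;> linarith [h6.1, h6.2]

private theorem qfe_am {m : ℕ} (hm : 2 ≤ m) {u : ℤ × ℤ} {i : Fin 6} {β : ℤ × ℤ → ℝ}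
    {h : ba u m → ℝ} (hh : h ∈ Gu m u (u + st i) β) {s : ℝ} (h0 : 0 ≤ s) (h1 : s ≤ 1) :
    Am (ba u m) β u (u + st i) s h ∈ Gu m u (u + st i) β := by
  refine ⟨?_, ?_⟩
  · have h2 := K_convex (ba u m) β hh.1 (qfe_K hm hh) (sub_nonneg.2 h1) h0 (by ring)
    have h3 : Am (ba u m) β u (u + st i) s h =
        (1 - s) • h + s • Am (ba u m) β u (u + st i) 1 h := by
      funext x
      rw [Am_aff s h x]
      simp only [Pi.add_apply, Pi.smul_apply, smul_eq_mul]
      ring
    rw [h3]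
    exact h2
  · intro z hz
    rw [Am_v]
    have hzD : z ∈ ba u m := mem_ba.2 hz.le
    have hzv : z ≠ u + st i := by
      rintro rfl
      rw [qfe_uv] at hz
      omega
    have hzu : z ≠ u := by
      rintro rfl
      rw [qfe_uu] at hz
      omega
    have h2 := hh.2 z hz
    have h3 : gl (ba u m) β (Am (ba u m) β u (u + st i) s h) z = gl (ba u m) β h z := by
      rw [gl_mem hzD, gl_mem hzD]
      unfold Am
      rw [if_neg hzv, if_neg hzu, if_neg]
      rw [not_lt]
      unfold ct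
      rw [gl_mem hzD] at h2
      rw [hz]
      push_cast
      linarith
    rw [h3]
    exact h2

private theorem qfe_top {m : ℕ} (hm : 2 ≤ m) {u : ℤ × ℤ} {i : Fin 6} {β : ℤ × ℤ → ℝ}
    {h : ba u m → ℝ} (hh : h ∈ Gu m u (u + st i) β) :
    (∀ j : Fin 6, gl (ba u m) β h (u + st i) ≤
      gl (ba u m) β (Am (ba u m) β u (u + st i) 1 h) (u + st j)) ∧
    gl (ba u m) β h (u + st i) ≤ gl (ba u m) β (Am (ba u m) β u (u + st i) 1 h) u ∧
      gl (ba u m) β (Am (ba u m) β u (u + st i) 1 h) u ≤ gl (ba u m) β h (u + st i) + 1 := by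
  have hTu := qfe_ty hm hh u (by rw [qfe_uu]; positivity)
  rw [qfe_uu] at hTu
  refine ⟨fun j => ?_, ?_⟩
  · have h1 := qfe_ty hm hh (u + st j) (by rw [qfe_uv]; omega)
    rw [qfe_uv] at h1
    rcases h1 with ⟨h3, -⟩ | ⟨-, h3, h4⟩ | ⟨-, h3, h4⟩
    · exact absurd h3 (by norm_num)
    · push_cast at h3
      linarith
    · push_cast at h3 h4
      rcases h4 with ⟨h5, h6⟩ | ⟨h5, h6⟩ <;> linarith
  · rcases hTu with ⟨-, h3, h4, h5⟩ | ⟨h3, -⟩ | ⟨h3, -⟩
    · push_cast at h3
      constructor <;> linarith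
    · exact absurd h3 (by norm_num)
    · exact absurd h3 (by norm_num)

private theorem qfe_dis {m : ℕ} (hm : 2 ≤ m) {u : ℤ × ℤ} {i : Fin 6} {β : ℤ × ℤ → ℝ}
    {h : ba u m → ℝ} (hh : h ∈ Gu m u (u + st i) β) :
    ∑ x, (Am (ba u m) β u (u + st i) 1 h x - h x) ^ 2 ≤
      1 + 4 * (Nn (ba u m) β u (u + st i) h : ℝ) := by
  classical
  obtain ⟨-, -, hge, hqv, hqu, hfar⟩ := ball_geo (i := i) (by omega : 1 ≤ m) hh.1
  have key : ∀ x : ba u m, (Am (ba u m) β u (u + st i) 1 h x - h x) ^ 2 ≤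
      (if x.1 = u then 1 else 0) + (if x.1 ∈ Ns (ba u m) β u (u + st i) h then 4 else 0) := by
    intro x
    by_cases hxv : x.1 = u + st i
    · have h1 : Am (ba u m) β u (u + st i) 1 h x = h x := by
        unfold Am
        rw [if_pos hxv]
      rw [h1, sub_self, zero_pow two_ne_zero]
      positivity
    · by_cases hxu : x.1 = u
      · have h1 : Am (ba u m) β u (u + st i) 1 h x - h x =
            -(1 / 2) * qf (ba u m) β u (u + st i) h u := by
          unfold Am qf
          rw [if_neg hxv, if_pos hxu]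
          have h2 : gl (ba u m) β h u = h x :=
            (congrArg (gl (ba u m) β h) hxu.symm).trans (gl_mem x.2)
          rw [h2, sub_self]
          have h3 : dn (0 : ℤ × ℤ) = 0 := (dn_zero_iff 0).2 rfl
          rw [h3]
          push_cast
          ring
        have huD : u ∈ ba u m := by
          rw [mem_ba, qfe_uu]
          positivity
        have h4 := hge u huD
        rw [h1, if_pos hxu]
        have h5 : (0 : ℝ) ≤ (if x.1 ∈ Ns (ba u m) β u (u + st i) h then 4 else 0) := by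
          positivity
        nlinarith [h4, hqu]
      · by_cases hlt : h x < ct (ba u m) β u (u + st i) h x.1
        · have hq : qf (ba u m) β u (u + st i) h x.1 =
              h x - ct (ba u m) β u (u + st i) h x.1 + 1 / 2 := by
            unfold qf ct
            rw [gl_mem x.2]
            ring
          have hns : x.1 ∈ Ns (ba u m) β u (u + st i) h := by
            unfold Ns
            rw [Finset.mem_filter]
            refine ⟨x.2, hxu, hxv, ?_⟩
            rw [hq]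
            linarith
          have h1 : Am (ba u m) β u (u + st i) 1 h x - h x =
              4 / 5 * (ct (ba u m) β u (u + st i) h x.1 - h x) := by
            unfold Am
            rw [if_neg hxv, if_neg hxu, if_pos hlt]
            ring
          have h2 := hge x.1 x.2
          rw [h1, if_neg hxu, if_pos hns]
          have h3 : ct (ba u m) β u (u + st i) h x.1 - h x ≤ 5 / 2 := by linarith
          nlinarith
        · have h1 : Am (ba u m) β u (u + st i) 1 h x = h x := by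
            unfold Am
            rw [if_neg hxv, if_neg hxu, if_neg hlt]
          rw [h1, sub_self, zero_pow two_ne_zero]
          positivity
  calc ∑ x, (Am (ba u m) β u (u + st i) 1 h x - h x) ^ 2
      ≤ ∑ x : ba u m, ((if x.1 = u then (1 : ℝ) else 0) +
          (if x.1 ∈ Ns (ba u m) β u (u + st i) h then 4 else 0)) :=
        Finset.sum_le_sum fun x _ => key x
    _ = (∑ x : ba u m, if x.1 = u then (1 : ℝ) else 0) +
        ∑ x : ba u m, (if x.1 ∈ Ns (ba u m) β u (u + st i) h then (4 : ℝ) else 0) :=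
        Finset.sum_add_distrib
    _ ≤ 1 + 4 * (Nn (ba u m) β u (u + st i) h : ℝ) := by
        refine add_le_add ?_ ?_
        · rw [Finset.sum_coe_sort (ba u m) (fun x => if x = u then (1 : ℝ) else 0),
            Finset.sum_ite_eq']
          split_ifs <;> norm_num
        · rw [Finset.sum_coe_sort (ba u m)
              (fun x => if x ∈ Ns (ba u m) β u (u + st i) h then (4 : ℝ) else 0),
            ← Finset.sum_filter, Finset.sum_const]
          have h1 : ((ba u m).filter fun x => x ∈ Ns (ba u m) β u (u + st i) h).card ≤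
              (Ns (ba u m) β u (u + st i) h).card :=
            Finset.card_le_card fun x hx => (Finset.mem_filter.1 hx).2
          unfold Nn
          rw [nsmul_eq_mul, mul_comm]
          have h2 : (((ba u m).filter fun x => x ∈ Ns (ba u m) β u (u + st i) h).card : ℝ) ≤
              (Ns (ba u m) β u (u + st i) h).card := by
            exact_mod_cast h1
          linarith

private theorem qfe_ms (m : ℕ) (u v : ℤ × ℤ) (β : ℤ × ℤ → ℝ) : MeasurableSet (Gu m u v β) := by
  have h1 : Gu m u v β = K (ba u m) β ∩ ⋂ z : ℤ × ℤ, {h : ba u m → ℝ |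
      dn (z - u) = m → 1 / 2 ≤ gl (ba u m) β h z - gl (ba u m) β h v - 1 + m} := by
    ext h
    simp only [Gu, up, Set.mem_ofPred_eq, Set.mem_inter_iff, Set.mem_iInter]
  rw [h1]
  refine (K_meas _ β).inter (MeasurableSet.iInter fun z => ?_)
  by_cases hz : dn (z - u) = m
  · simp only [hz, true_imp_iff]
    exact measurableSet_le measurable_const
      ((((gl_meas _ β z).sub (gl_meas _ β v)).sub_const 1).add_const _)
  · simp only [hz, false_imp_iff, Set.ofPred_true]
    exact MeasurableSet.univ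

theorem flr_Gu {m : ℕ} (hm : 2 ≤ m) (u : ℤ × ℤ) (i : Fin 6) (β : ℤ × ℤ → ℝ) :
    FlR (ba u m) β u (u + st i) (Gu m u (u + st i) β) := by
  have huD : u ∈ ba u m := by
    rw [mem_ba, qfe_uu]
    positivity
  have hne : u + st i ≠ u := qfe_ne u i
  refine ⟨huD, hne.symm, qfe_ms m u _ β, fun h hh => hh.1, fun s h0 h1 h hh =>
    qfe_am hm hh h0 h1, fun h hh => qfe_top hm hh, ?_, fun h hh => qfe_dis hm hh⟩
  intro h hh hnb hvu t h0 h1
  have hK := hh.1
  have hedge : ∀ j, |t - gl (ba u m) β h (u + st j)| ≤ 1 := by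
    intro j
    have h2 := hK u huD j
    have h3 := hnb j
    rw [abs_le] at h2 ⊢
    constructor <;> linarith [h2.1, h2.2]
  refine ⟨?_, ?_⟩
  · intro x hx j
    by_cases hxu : x = u
    · subst hxu
      rw [qfe_gl_u hx, qfe_gl (qfe_ne x j)]
      exact hedge j
    · rw [qfe_gl hxu]
      by_cases hxi : x + st j = u
      · have h2 := hedge (j + 3)
        have h4 : u + st (j + 3) = x := by rw [st_neg, ← hxi, add_neg_cancel_right]
        rw [h4, abs_sub_comm] at h2
        rw [hxi, qfe_gl_u huD]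
        exact h2
      · rw [qfe_gl hxi]
        exact hK x hx j
  · intro z hz
    have hzu : z ≠ u := by
      rintro rfl
      rw [qfe_uu] at hz
      omega
    rw [qfe_gl hzu, qfe_gl hne]
    exact hh.2 z hz
/- END qfe -/

/- MODULE qff
Splitting of integrals: `D = (D \ B) ∪ B`.  From `lint_jn` for `ENNReal` valued functions; for
real functions use positive and negative parts or the measure preserving equivalence behind
`lint_jn` and `integral_prod`. -/
theorem lint_fib {D R₁ R₂ : Finset (ℤ × ℤ)} (hd : Disjoint R₁ R₂) (hu : R₁ ∪ R₂ = D)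
    (c : ℤ × ℤ → ℝ) {f : (D → ℝ) → ℝ≥0∞} (hf : Measurable f) :
    ∫⁻ h in K D c, f h =
      ∫⁻ a in Adm R₁ R₂ c, ∫⁻ b in K R₂ (gl R₁ c a), f (jn R₁ R₂ a b) := by
  rw [← lintegral_indicator (K_meas D c), lint_jn hd hu (hf.indicator (K_meas D c)),
    ← lintegral_indicator (Adm_meas R₁ R₂ c)]
  refine lintegral_congr fun a => ?_
  by_cases ha : a ∈ Adm R₁ R₂ c
  · rw [indicator_of_mem ha, ← lintegral_indicator (K_meas R₂ (gl R₁ c a))]
    refine lintegral_congr fun b => ?_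
    by_cases hb : b ∈ K R₂ (gl R₁ c a)
    · rw [indicator_of_mem hb, indicator_of_mem ((mem_K_jn hd hu c a b).2 ⟨hb, ha⟩)]
    · rw [indicator_of_notMem hb, indicator_of_notMem fun h => hb ((mem_K_jn hd hu c a b).1 h).1]
  · rw [indicator_of_notMem ha]
    have h1 : ∀ b : R₂ → ℝ, (K D c).indicator f (jn R₁ R₂ a b) = 0 := fun b =>
      indicator_of_notMem (fun h => ha ((mem_K_jn hd hu c a b).1 h).2) _
    simp only [h1, lintegral_zero]

private theorem qff_mp {D R₁ R₂ : Finset (ℤ × ℤ)} (hd : Disjoint R₁ R₂) (hu : R₁ ∪ R₂ = D) :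
    MeasurePreserving (fun p : (R₁ → ℝ) × (R₂ → ℝ) => (jn R₁ R₂ p.1 p.2 : D → ℝ))
      ((volume : Measure (R₁ → ℝ)).prod (volume : Measure (R₂ → ℝ))) volume := by
  refine ⟨jn_meas, ?_⟩
  ext s hs
  rw [Measure.map_apply jn_meas hs, ← lintegral_indicator_one hs,
    lint_jn hd hu (measurable_one.indicator hs), ← lintegral_indicator_one (jn_meas hs),
    lintegral_prod _ ((measurable_one.indicator (jn_meas hs)).aemeasurable)]
  rfl

theorem int_fib {D R₁ R₂ : Finset (ℤ × ℤ)} (hd : Disjoint R₁ R₂) (hu : R₁ ∪ R₂ = D)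
    (c : ℤ × ℤ → ℝ) {f : (D → ℝ) → ℝ} (hf : IntegrableOn f (K D c)) :
    ∫ h in K D c, f h =
      ∫ a in Adm R₁ R₂ c, ∫ b in K R₂ (gl R₁ c a), f (jn R₁ R₂ a b) := by
  have hi : Integrable ((K D c).indicator f) volume := (integrable_indicator_iff (K_meas D c)).2 hf
  have hmp := qff_mp (D := D) hd hu
  have h1 : ∫ h, (K D c).indicator f h =
      ∫ p : (R₁ → ℝ) × (R₂ → ℝ), (K D c).indicator f (jn R₁ R₂ p.1 p.2)
        ∂((volume : Measure (R₁ → ℝ)).prod (volume : Measure (R₂ → ℝ))) := by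
    rw [← hmp.map_eq]
    exact integral_map hmp.measurable.aemeasurable (by rw [hmp.map_eq]; exact hi.aestronglyMeasurable)
  have h2 : Integrable (fun p : (R₁ → ℝ) × (R₂ → ℝ) => (K D c).indicator f (jn R₁ R₂ p.1 p.2))
      ((volume : Measure (R₁ → ℝ)).prod (volume : Measure (R₂ → ℝ))) :=
    (hmp.integrable_comp hi.aestronglyMeasurable).2 hi
  rw [← integral_indicator (K_meas D c), h1, integral_prod _ h2,
    ← integral_indicator (Adm_meas R₁ R₂ c)]
  refine integral_congr_ae (Filter.Eventually.of_forall fun a => ?_)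
  show ∫ b : R₂ → ℝ, (K D c).indicator f (jn R₁ R₂ a b) = _
  by_cases ha : a ∈ Adm R₁ R₂ c
  · rw [indicator_of_mem ha, ← integral_indicator (K_meas R₂ (gl R₁ c a))]
    refine integral_congr_ae (Filter.Eventually.of_forall fun b => ?_)
    show (K D c).indicator f (jn R₁ R₂ a b) = _
    by_cases hb : b ∈ K R₂ (gl R₁ c a)
    · rw [indicator_of_mem hb, indicator_of_mem ((mem_K_jn hd hu c a b).2 ⟨hb, ha⟩)]
    · rw [indicator_of_notMem hb, indicator_of_notMem fun h => hb ((mem_K_jn hd hu c a b).1 h).1]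
  · rw [indicator_of_notMem ha]
    have h1 : ∀ b : R₂ → ℝ, (K D c).indicator f (jn R₁ R₂ a b) = 0 := fun b =>
      indicator_of_notMem (fun h => ha ((mem_K_jn hd hu c a b).1 h).2) _
    simp only [h1, integral_zero]
/- END qff -/

/- MODULE qfg
The flow inequality for a function on a bigger configuration space `D ⊇ ba u m` (any data `b`):
fibre by fibre (`lint_fib` with `R₂ = ba u m`), `flr_ineq` with `flr_Gu`, for the function
`a ↦ g (jn r a)` of the fibre (its partial derivatives are `pz D y g`).  In the statement the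
functional `ψ` is a function of the set of sites of the ball with `q < 1/2`. -/
def NH (B : Finset (ℤ × ℤ)) (u v : ℤ × ℤ) (H : ℤ × ℤ → ℝ) : Finset (ℤ × ℤ) := by
  classical exact B.filter (fun x => x ≠ u ∧ x ≠ v ∧ H x - H v - 1 + (dn (x - u) : ℝ) < 1 / 2)

private theorem qfg_up_meas (D : Finset (ℤ × ℤ)) (b : ℤ × ℤ → ℝ) (m : ℕ) (u v : ℤ × ℤ) :
    MeasurableSet {h : D → ℝ | up m u v (gl D b h)} := by
  have : {h : D → ℝ | up m u v (gl D b h)} = ⋂ z : ℤ × ℤ, ⋂ (_ : dn (z - u) = m),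
      {h : D → ℝ | 1 / 2 ≤ gl D b h z - gl D b h v - 1 + m} := by
    ext h
    simp only [up, mem_ofPred_eq, mem_iInter]
  rw [this]
  refine MeasurableSet.iInter fun z => MeasurableSet.iInter fun _ => ?_
  exact measurableSet_le measurable_const
    ((((gl_meas D b z).sub (gl_meas D b v)).sub measurable_const).add measurable_const)

private theorem qfg_NH_meas (D : Finset (ℤ × ℤ)) (b : ℤ × ℤ → ℝ) (B : Finset (ℤ × ℤ))
    (u v : ℤ × ℤ) {α : Type*} [MeasurableSpace α] (Θ : Finset (ℤ × ℤ) → α) :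
    Measurable (fun h : D → ℝ => Θ (NH B u v (gl D b h))) := by
  classical
  set f : (D → ℝ) → (B.powerset : Finset (Finset (ℤ × ℤ))) := fun h =>
    ⟨NH B u v (gl D b h), by
      unfold NH
      exact Finset.mem_powerset.2 (Finset.filter_subset _ _)⟩ with hf
  have hfm : Measurable f := by
    refine measurable_to_countable' fun S => ?_
    have : f ⁻¹' {S} = ⋂ x ∈ B, {h : D → ℝ | (x ≠ u ∧ x ≠ v ∧
        gl D b h x - gl D b h v - 1 + (dn (x - u) : ℝ) < 1 / 2) ↔ x ∈ S.1} := by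
      ext h
      simp only [mem_preimage, mem_singleton_iff, mem_iInter, mem_ofPred_eq, hf]
      have hS : S.1 ⊆ B := Finset.mem_powerset.1 S.2
      constructor
      · intro h1 x hx
        rw [← h1]
        unfold NH
        simp only [Finset.mem_filter, hx, true_and]
      · intro h1
        apply Subtype.ext
        ext x
        by_cases hx : x ∈ B
        · rw [← h1 x hx]
          unfold NH
          simp only [Finset.mem_filter, hx, true_and]
        · constructor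
          · intro h2
            unfold NH at h2
            exact absurd (Finset.mem_filter.1 h2).1 hx
          · intro h2
            exact absurd (hS h2) hx
    rw [this]
    refine Finset.measurableSet_biInter _ fun x _ => ?_
    have h1 : MeasurableSet {h : D → ℝ | gl D b h x - gl D b h v - 1 + (dn (x - u) : ℝ) < 1 / 2} :=
      measurableSet_lt ((((gl_meas D b x).sub (gl_meas D b v)).sub measurable_const).add
        measurable_const) measurable_const
    have h2 : MeasurableSet {h : D → ℝ | x ≠ u ∧ x ≠ v ∧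
        gl D b h x - gl D b h v - 1 + (dn (x - u) : ℝ) < 1 / 2} := by
      by_cases hxu : x ≠ u ∧ x ≠ v
      · have : {h : D → ℝ | x ≠ u ∧ x ≠ v ∧
            gl D b h x - gl D b h v - 1 + (dn (x - u) : ℝ) < 1 / 2} =
            {h : D → ℝ | gl D b h x - gl D b h v - 1 + (dn (x - u) : ℝ) < 1 / 2} := by
          ext h
          simp only [mem_ofPred_eq]
          exact ⟨fun h => h.2.2, fun h => ⟨hxu.1, hxu.2, h⟩⟩
        rw [this]
        exact h1
      · have : {h : D → ℝ | x ≠ u ∧ x ≠ v ∧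
            gl D b h x - gl D b h v - 1 + (dn (x - u) : ℝ) < 1 / 2} = ∅ := by
          ext h
          simp only [mem_ofPred_eq, mem_empty_iff_false, iff_false]
          exact fun h => hxu ⟨h.1, h.2.1⟩
        rw [this]
        exact MeasurableSet.empty
    by_cases hxS : x ∈ S.1
    · simp only [hxS, iff_true]
      exact h2
    · simp only [hxS, iff_false]
      exact h2.compl
  have : (fun h : D → ℝ => Θ (NH B u v (gl D b h))) = (fun S => Θ S.1) ∘ f := rfl
  rw [this]
  exact (measurable_of_countable _).comp hfm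

private theorem qfg_pz_cont {D : Finset (ℤ × ℤ)} {g : (D → ℝ) → ℝ} (hC : ContDiff ℝ 1 g)
    (y : ℤ × ℤ) : Continuous (pz D y g) := by
  unfold pz
  by_cases hy : y ∈ D
  · simp only [dif_pos hy]
    unfold pd
    exact (hC.continuous_fderiv (by norm_num)).clm_apply continuous_const
  · simp only [dif_neg hy]
    exact continuous_const

/-- the gluing map is affine in the second variable -/
private theorem qfg_jn {D R₁ R₂ : Finset (ℤ × ℤ)} (hsub : R₂ ⊆ D) (a : R₁ → ℝ) (c : R₂ → ℝ)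
    (y : R₂) : HasFDerivAt (fun c : R₂ → ℝ => (jn R₁ R₂ a c : D → ℝ))
      (ContinuousLinearMap.pi fun z : D => if hz : z.1 ∈ R₂ then
        ContinuousLinearMap.proj (R := ℝ) (φ := fun _ : R₂ => ℝ) ⟨z.1, hz⟩ else 0) c ∧
      (ContinuousLinearMap.pi fun z : D => if hz : z.1 ∈ R₂ then
        ContinuousLinearMap.proj (R := ℝ) (φ := fun _ : R₂ => ℝ) ⟨z.1, hz⟩ else 0)
        (Pi.single y (1 : ℝ)) = (Pi.single (⟨y.1, hsub y.2⟩ : D) (1 : ℝ) : D → ℝ) := by
  constructor
  · rw [hasFDerivAt_pi]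
    intro z
    by_cases hz : z.1 ∈ R₂
    · have e1 : (fun c : R₂ → ℝ => (jn R₁ R₂ a c : D → ℝ) z) = fun c => c ⟨z.1, hz⟩ := by
        funext c
        unfold jn
        exact gl_mem hz
      rw [e1, dif_pos hz]
      exact hasFDerivAt_apply (𝕜 := ℝ) _ _
    · have e1 : (fun c : R₂ → ℝ => (jn R₁ R₂ a c : D → ℝ) z) =
          fun _ => gl R₁ (fun _ => 0) a z.1 := by
        funext c
        unfold jn
        exact gl_not_mem hz
      rw [e1, dif_neg hz]
      exact hasFDerivAt_const _ _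
  · funext z
    rw [ContinuousLinearMap.pi_apply]
    by_cases hz : z.1 ∈ R₂
    · rw [dif_pos hz, ContinuousLinearMap.proj_apply]
      by_cases hzy : z.1 = y.1
      · have e1 : (⟨z.1, hz⟩ : R₂) = y := Subtype.ext hzy
        have e2 : z = (⟨y.1, hsub y.2⟩ : D) := Subtype.ext hzy
        rw [e1, e2, Pi.single_eq_same, Pi.single_eq_same]
      · have e1 : (⟨z.1, hz⟩ : R₂) ≠ y := fun h => hzy (congrArg Subtype.val h)
        have e2 : z ≠ (⟨y.1, hsub y.2⟩ : D) := fun h => hzy (congrArg Subtype.val h)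
        rw [Pi.single_eq_of_ne e1, Pi.single_eq_of_ne e2]
    · rw [dif_neg hz]
      have e2 : z ≠ (⟨y.1, hsub y.2⟩ : D) := fun h => hz (by rw [h]; exact y.2)
      rw [Pi.single_eq_of_ne e2]
      rfl

private theorem qfg_gr {D R₁ R₂ : Finset (ℤ × ℤ)} (hsub : R₂ ⊆ D) {g : (D → ℝ) → ℝ}
    (hC : ContDiff ℝ 1 g) (a : R₁ → ℝ) (c : R₂ → ℝ) :
    gr (fun c : R₂ → ℝ => g (jn R₁ R₂ a c)) c = ∑ y ∈ R₂, (pz D y g (jn R₁ R₂ a c)) ^ 2 := by
  unfold gr
  rw [← Finset.sum_coe_sort R₂ (fun y => (pz D y g (jn R₁ R₂ a c)) ^ 2)]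
  refine Finset.sum_congr rfl fun y _ => ?_
  congr 1
  obtain ⟨h1, h2⟩ := qfg_jn (D := D) hsub a c y
  have h3 : HasFDerivAt g (fderiv ℝ g (jn R₁ R₂ a c)) (jn R₁ R₂ a c) :=
    (hC.differentiable (by norm_num)).differentiableAt.hasFDerivAt
  have h4 := (h3.comp c h1).fderiv
  unfold pz
  rw [dif_pos (hsub y.2)]
  unfold pd
  have h5 : fderiv ℝ (fun c : R₂ → ℝ => g (jn R₁ R₂ a c)) c = _ := h4
  rw [h5, ContinuousLinearMap.comp_apply, h2]

private theorem qfg_cd {D R₁ R₂ : Finset (ℤ × ℤ)} {g : (D → ℝ) → ℝ}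
    (hC : ContDiff ℝ 1 g) (a : R₁ → ℝ) :
    ContDiff ℝ 1 (fun c : R₂ → ℝ => g (jn R₁ R₂ a c)) := by
  refine hC.comp ?_
  rw [contDiff_pi]
  intro z
  by_cases hz : z.1 ∈ R₂
  · have e1 : (fun c : R₂ → ℝ => (jn R₁ R₂ a c : D → ℝ) z) = fun c => c ⟨z.1, hz⟩ := by
      funext c
      unfold jn
      exact gl_mem hz
    rw [e1]
    exact contDiff_apply ℝ ℝ _
  · have e1 : (fun c : R₂ → ℝ => (jn R₁ R₂ a c : D → ℝ) z) =
        fun _ => gl R₁ (fun _ => 0) a z.1 := by
      funext c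
      unfold jn
      exact gl_not_mem hz
    rw [e1]
    exact contDiff_const

theorem flow_D {D : Finset (ℤ × ℤ)} {b : ℤ × ℤ → ℝ} {m : ℕ} (hm : 2 ≤ m) {u : ℤ × ℤ}
    (i : Fin 6) (hu : ba u m ⊆ D) {g : (D → ℝ) → ℝ} (hC : ContDiff ℝ 1 g) {ε : ℝ} (hε : 0 < ε)
    (ht : ∀ h : D → ℝ, 1 - ε < |gl D b h u - gl D b h (u + st i)| → g h = 0)
    (ψ : Finset (ℤ × ℤ) → ℝ≥0∞) :
    ∫⁻ h in {h | h ∈ K D b ∧ up m u (u + st i) (gl D b h)},
        ψ (NH (ba u m) u (u + st i) (gl D b h)) * ENNReal.ofReal |g h| ≤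
      ∫⁻ h in {h | h ∈ K D b ∧ up m u (u + st i) (gl D b h)},
        wN (NH (ba u m) u (u + st i) (gl D b h)).card *
          ψ (NH (ba u m) u (u + st i) (gl D b h)) *
          ENNReal.ofReal (Real.sqrt (∑ y ∈ ba u m, (pz D y g h) ^ 2)) := by
  classical
  set v : ℤ × ℤ := u + st i with hv
  set B : Finset (ℤ × ℤ) := ba u m with hB
  set U : Set (D → ℝ) := {h | up m u v (gl D b h)} with hU
  have hUm : MeasurableSet U := qfg_up_meas D b m u v
  have hd : Disjoint (D \ B) B := Finset.sdiff_disjoint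
  have hun : (D \ B) ∪ B = D := Finset.sdiff_union_of_subset hu
  have hset : {h | h ∈ K D b ∧ up m u v (gl D b h)} = U ∩ K D b := by
    ext h
    simp only [mem_ofPred_eq, mem_inter_iff, hU]
    exact and_comm
  set F : (D → ℝ) → ℝ≥0∞ := fun h =>
    ψ (NH B u v (gl D b h)) * ENNReal.ofReal |g h| with hF
  set G : (D → ℝ) → ℝ≥0∞ := fun h => wN (NH B u v (gl D b h)).card *
    ψ (NH B u v (gl D b h)) * ENNReal.ofReal (Real.sqrt (∑ y ∈ B, (pz D y g h) ^ 2)) with hG
  have hFm : Measurable F :=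
    (qfg_NH_meas D b B u v ψ).mul (hC.continuous.abs.measurable).ennreal_ofReal
  have hGm : Measurable G := by
    refine ((qfg_NH_meas D b B u v (fun S => wN S.card)).mul (qfg_NH_meas D b B u v ψ)).mul ?_
    refine Measurable.ennreal_ofReal (Measurable.sqrt ?_)
    exact (continuous_finsetSum _ fun y _ => (qfg_pz_cont hC y).pow 2).measurable
  have hmain : ∫⁻ h in K D b, U.indicator F h ≤ ∫⁻ h in K D b, U.indicator G h := by
    rw [lint_fib hd hun b (hFm.indicator hUm), lint_fib hd hun b (hGm.indicator hUm)]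
    refine lintegral_mono fun a => ?_
    set β : ℤ × ℤ → ℝ := gl (D \ B) b a with hβ
    have hgl : ∀ c : B → ℝ, gl D b (jn (D \ B) B a c) = gl B β c := by
      intro c
      funext z
      exact gl_jn hd hun b a c z
    have hNs : ∀ c : B → ℝ, NH B u v (gl B β c) = Ns B β u v c := by
      intro c
      unfold NH Ns qf
      rfl
    have hm1 : MeasurableSet {c : B → ℝ | up m u v (gl B β c)} := qfg_up_meas B β m u v
    have hind : ∀ (Φ : (D → ℝ) → ℝ≥0∞), ∫⁻ c in K B β, U.indicator Φ (jn (D \ B) B a c) =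
        ∫⁻ c in Gu m u v β, Φ (jn (D \ B) B a c) := by
      intro Φ
      have e1 : ∀ c : B → ℝ, U.indicator Φ (jn (D \ B) B a c) =
          ({c : B → ℝ | up m u v (gl B β c)}).indicator (fun c => Φ (jn (D \ B) B a c)) c := by
        intro c
        by_cases hc : up m u v (gl B β c)
        · rw [indicator_of_mem (show jn (D \ B) B a c ∈ U from by
            change up m u v (gl D b (jn (D \ B) B a c)); rw [hgl]; exact hc),
            indicator_of_mem (show c ∈ {c : B → ℝ | up m u v (gl B β c)} from hc)]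
        · rw [indicator_of_notMem (show jn (D \ B) B a c ∉ U from by
            change ¬ up m u v (gl D b (jn (D \ B) B a c)); rw [hgl]; exact hc),
            indicator_of_notMem (show c ∉ {c : B → ℝ | up m u v (gl B β c)} from hc)]
      rw [lintegral_congr e1, setLIntegral_indicator hm1]
      congr 2
      ext c
      simp only [mem_inter_iff, mem_ofPred_eq, Gu]
      exact and_comm
    rw [hind F, hind G]
    have ht' : ∀ c : B → ℝ, 1 - ε < |gl B β c u - gl B β c v| →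
        (fun c : B → ℝ => g (jn (D \ B) B a c)) c = 0 := by
      intro c hc
      refine ht _ ?_
      rw [hgl]
      exact hc
    have key := flr_ineq (flr_Gu hm u i β) (qfg_cd (R₁ := D \ B) (R₂ := B) hC a) hε ht' ψ
    calc ∫⁻ c in Gu m u v β, F (jn (D \ B) B a c)
        = ∫⁻ c in Gu m u v β, ψ (Ns B β u v c) * ENNReal.ofReal |g (jn (D \ B) B a c)| := by
          refine lintegral_congr fun c => ?_
          simp only [hF]
          rw [hgl, hNs]
      _ ≤ ∫⁻ c in Gu m u v β, wN (Nn B β u v c) * ψ (Ns B β u v c) *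
            ENNReal.ofReal (Real.sqrt (gr (fun c : B → ℝ => g (jn (D \ B) B a c)) c)) := key
      _ = ∫⁻ c in Gu m u v β, G (jn (D \ B) B a c) := by
          refine lintegral_congr fun c => ?_
          simp only [hG]
          rw [hgl, hNs, qfg_gr hu hC a c]
          rfl
  calc ∫⁻ h in {h | h ∈ K D b ∧ up m u v (gl D b h)}, F h
      = ∫⁻ h in K D b, U.indicator F h := by
        rw [hset, setLIntegral_indicator hUm]
    _ ≤ ∫⁻ h in K D b, U.indicator G h := hmain
    _ = ∫⁻ h in {h | h ∈ K D b ∧ up m u v (gl D b h)}, G h := by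
        rw [hset, setLIntegral_indicator hUm]
/- END qfg -/

/- MODULE qfh
(FC2).  Apply `flow_D` with `ψ = 1` to `g ^ 2` (`pz (g^2) = 2 g pz g`; the integral of `g^2` over
the bounded set `K` is finite): `∫_G g² ≤ ∫_G w 2 |g| √Σ ≤ (1/2) ∫_G g² + 2 ∫_G w² Σ`, and
`w ≤ wN (number of sites of the ball)`.  The down-gate by reflection `h → -h`, `b → -b`. -/
private theorem qfh_cpt (R : Finset (ℤ × ℤ)) (c : ℤ × ℤ → ℝ) : IsCompact (K R c) := by
  set B : ℝ := ∑ x ∈ R, ∑ i : Fin 6, |c (x + st i)| with hBdef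
  have hB : 0 ≤ B := Finset.sum_nonneg fun x _ => Finset.sum_nonneg fun i _ => abs_nonneg _
  have hc : ∀ z, z ∉ R → (∃ x ∈ R, ∃ i, z = x + st i) → |c z| ≤ B := by
    rintro z - ⟨x, hx, i, rfl⟩
    calc |c (x + st i)| ≤ ∑ i : Fin 6, |c (x + st i)| :=
          Finset.single_le_sum (f := fun i : Fin 6 => |c (x + st i)|)
            (fun i _ => abs_nonneg _) (Finset.mem_univ i)
      _ ≤ B := Finset.single_le_sum (f := fun x => ∑ i : Fin 6, |c (x + st i)|)
            (fun x _ => Finset.sum_nonneg fun i _ => abs_nonneg _) hx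
  have hsub : K R c ⊆ Icc (fun _ => -(B + R.card)) (fun _ => B + R.card) := by
    intro h hh
    have h1 := K_bdd hB hc hh
    exact ⟨fun x => (abs_le.1 (h1 x)).1, fun x => (abs_le.1 (h1 x)).2⟩
  exact isCompact_Icc.of_isClosed_subset (K_closed R c) hsub

private theorem qfh_fin (R : Finset (ℤ × ℤ)) (c : ℤ × ℤ → ℝ) {f : (R → ℝ) → ℝ}
    (hf : Continuous f) : ∫⁻ h in K R c, ENNReal.ofReal (f h) < ⊤ := by
  have h1 : Continuous (fun h => (f h).toNNReal) := continuous_real_toNNReal.comp hf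
  exact setLIntegral_lt_top_of_isCompact (Z_lt_top R c).ne (qfh_cpt R c) h1

private theorem qfh_wmono {n n' : ℕ} (h : n ≤ n') : wN n ≤ wN n' := by
  unfold wN
  have h1 : (n : ℝ) ≤ (n' : ℝ) := by exact_mod_cast h
  refine mul_le_mul' (mul_le_mul' le_rfl (pow_le_pow_right₀ (by norm_num) h)) ?_
  refine ENNReal.ofReal_le_ofReal ?_
  have := Real.sqrt_le_sqrt (show 1 + 4 * (n : ℝ) ≤ 1 + 4 * (n' : ℝ) by linarith)
  linarith

private theorem qfh_wtop (n : ℕ) : wN n < ⊤ := by
  unfold wN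
  refine ENNReal.mul_lt_top (ENNReal.mul_lt_top (by norm_num) ?_) ENNReal.ofReal_lt_top
  exact ENNReal.pow_lt_top (by norm_num)

private theorem qfh_NHle (B : Finset (ℤ × ℤ)) (u v : ℤ × ℤ) (H : ℤ × ℤ → ℝ) :
    (NH B u v H).card ≤ B.card := by
  unfold NH
  exact Finset.card_filter_le _ _

/-- the size of the ball is bounded by a number depending only on the radius -/
private def qfh_N (m : ℕ) : ℕ := (Finset.Icc (-(m : ℤ)) m ×ˢ Finset.Icc (-(m : ℤ)) m).card

private theorem qfh_ball (u : ℤ × ℤ) (m : ℕ) : (ba u m).card ≤ qfh_N m := by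
  classical
  unfold ba qfh_N
  exact Finset.card_image_le.trans (Finset.card_filter_le _ _)

private theorem qfh_up {m : ℕ} (hm : 2 ≤ m) {B : Finset (ℤ × ℤ)} {β : ℤ × ℤ → ℝ} {u : ℤ × ℤ}
    {i : Fin 6} (hu : ba u m ⊆ B) {g : (B → ℝ) → ℝ} (hC : ContDiff ℝ 1 g) {ε : ℝ} (hε : 0 < ε)
    (ht : ∀ h : B → ℝ, 1 - ε < |gl B β h u - gl B β h (u + st i)| → g h = 0) :
    ∫⁻ h in {h | h ∈ K B β ∧ up m u (u + st i) (gl B β h)}, ENNReal.ofReal ((g h) ^ 2) ≤
      ENNReal.ofReal (4 * (wN (qfh_N m)).toReal ^ 2) *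
        ∫⁻ h in K B β, ENNReal.ofReal (∑ y ∈ ba u m, (pz B y g h) ^ 2) := by
  set v : ℤ × ℤ := u + st i with hv
  set w : ℝ := (wN (qfh_N m)).toReal with hw
  have hw0 : 0 ≤ w := ENNReal.toReal_nonneg
  set S : Set (B → ℝ) := {h | h ∈ K B β ∧ up m u v (gl B β h)} with hS
  have hC2 : ContDiff ℝ 1 (fun h => g h * g h) := hC.mul hC
  have h1 := flow_D (b := β) hm i hu hC2 hε (fun h hh => by
    rw [ht h hh, zero_mul]) (fun _ => 1)
  have hpz : ∀ y h, pz B y (fun h => g h * g h) h = 2 * g h * pz B y g h := by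
    intro y h
    unfold pz
    by_cases hy : y ∈ B
    · rw [dif_pos hy, dif_pos hy]
      have hd : DifferentiableAt ℝ g h := (hC.differentiable (by norm_num)).differentiableAt
      unfold pd
      rw [fderiv_fun_mul hd hd]
      simp
      ring
    · rw [dif_neg hy, dif_neg hy, mul_zero]
  have hsum : ∀ h, ∑ y ∈ ba u m, (pz B y (fun h => g h * g h) h) ^ 2 =
      (2 * g h) ^ 2 * ∑ y ∈ ba u m, (pz B y g h) ^ 2 := by
    intro h
    rw [Finset.mul_sum]
    refine Finset.sum_congr rfl fun y _ => ?_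
    rw [hpz]
    ring
  have hcont : Continuous (fun h => ∑ y ∈ ba u m, (pz B y g h) ^ 2) :=
    continuous_finsetSum _ fun y _ => (qfg_pz_cont hC y).pow 2
  have hpt : ∀ h : B → ℝ, wN (NH (ba u m) u v (gl B β h)).card * 1 * ENNReal.ofReal
      (Real.sqrt (∑ y ∈ ba u m, (pz B y (fun h => g h * g h) h) ^ 2)) ≤
      ENNReal.ofReal ((1 / 2) * (g h) ^ 2) +
        ENNReal.ofReal (2 * w ^ 2 * ∑ y ∈ ba u m, (pz B y g h) ^ 2) := by
    intro h
    have e0 : 0 ≤ ∑ y ∈ ba u m, (pz B y g h) ^ 2 := Finset.sum_nonneg fun y _ => sq_nonneg _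
    have e1 : wN (NH (ba u m) u v (gl B β h)).card ≤ ENNReal.ofReal w := by
      rw [hw, ENNReal.ofReal_toReal (qfh_wtop _).ne]
      exact qfh_wmono ((qfh_NHle _ _ _ _).trans (qfh_ball u m))
    have e2 : Real.sqrt (∑ y ∈ ba u m, (pz B y (fun h => g h * g h) h) ^ 2) =
        2 * |g h| * Real.sqrt (∑ y ∈ ba u m, (pz B y g h) ^ 2) := by
      rw [hsum, Real.sqrt_mul (sq_nonneg _), Real.sqrt_sq_eq_abs, abs_mul, abs_two]
    rw [mul_one, e2, ← ENNReal.ofReal_add (by positivity) (by positivity)]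
    refine (mul_le_mul' e1 le_rfl).trans ?_
    rw [← ENNReal.ofReal_mul hw0]
    refine ENNReal.ofReal_le_ofReal ?_
    have e3 : (|g h|) ^ 2 = (g h) ^ 2 := sq_abs _
    have e4 := Real.sq_sqrt e0
    set s := Real.sqrt (∑ y ∈ ba u m, (pz B y g h) ^ 2) with hs
    rw [← e4, ← e3]
    nlinarith [sq_nonneg (|g h| - 2 * (w * s))]
  set A : ℝ≥0∞ := ∫⁻ h in S, ENNReal.ofReal ((g h) ^ 2) with hA
  have hAtop : A < ⊤ := by
    refine lt_of_le_of_lt (lintegral_mono_set (t := K B β) ?_)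
      (qfh_fin B β (hC.continuous.pow 2))
    exact fun h hh => hh.1
  have hA1 : A = ∫⁻ h in S, 1 * ENNReal.ofReal |g h * g h| := by
    rw [hA]
    refine lintegral_congr fun h => ?_
    rw [one_mul, ← sq, abs_of_nonneg (sq_nonneg _)]
  have hmeas1 : Measurable (fun h : B → ℝ => ENNReal.ofReal ((1 / 2) * (g h) ^ 2)) :=
    ((hC.continuous.pow 2).const_mul _ |>.measurable).ennreal_ofReal
  have hmeas2 : Measurable (fun h : B → ℝ => ENNReal.ofReal ((g h) ^ 2)) :=
    (hC.continuous.pow 2).measurable.ennreal_ofReal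
  have hmeas3 : Measurable (fun h : B → ℝ =>
      ENNReal.ofReal (∑ y ∈ ba u m, (pz B y g h) ^ 2)) := hcont.measurable.ennreal_ofReal
  have h2 : A ≤ ENNReal.ofReal (1 / 2) * A +
      ENNReal.ofReal (2 * w ^ 2) *
        ∫⁻ h in K B β, ENNReal.ofReal (∑ y ∈ ba u m, (pz B y g h) ^ 2) := by
    calc A = ∫⁻ h in S, 1 * ENNReal.ofReal |g h * g h| := hA1
      _ ≤ ∫⁻ h in S, wN (NH (ba u m) u v (gl B β h)).card * 1 * ENNReal.ofReal
          (Real.sqrt (∑ y ∈ ba u m, (pz B y (fun h => g h * g h) h) ^ 2)) := h1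
      _ ≤ ∫⁻ h in S, (ENNReal.ofReal ((1 / 2) * (g h) ^ 2) +
            ENNReal.ofReal (2 * w ^ 2 * ∑ y ∈ ba u m, (pz B y g h) ^ 2)) :=
          lintegral_mono hpt
      _ = (∫⁻ h in S, ENNReal.ofReal ((1 / 2) * (g h) ^ 2)) +
            ∫⁻ h in S, ENNReal.ofReal (2 * w ^ 2 * ∑ y ∈ ba u m, (pz B y g h) ^ 2) :=
          lintegral_add_left hmeas1 _
      _ ≤ _ := by
          refine add_le_add (le_of_eq ?_) ?_
          · rw [hA, ← lintegral_const_mul _ hmeas2]
            refine lintegral_congr fun h => ?_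
            rw [ENNReal.ofReal_mul (by norm_num)]
          · rw [← lintegral_const_mul _ hmeas3]
            refine (lintegral_mono_set (t := K B β) fun h hh => hh.1).trans (le_of_eq ?_)
            refine lintegral_congr fun h => ?_
            rw [ENNReal.ofReal_mul (by positivity)]
  -- absorb
  set X : ℝ≥0∞ := ∫⁻ h in K B β, ENNReal.ofReal (∑ y ∈ ba u m, (pz B y g h) ^ 2) with hX
  have h3 : ENNReal.ofReal (1 / 2) * A + ENNReal.ofReal (1 / 2) * A = A := by
    rw [← add_mul, ← ENNReal.ofReal_add (by norm_num) (by norm_num)]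
    norm_num
  have h4 : ENNReal.ofReal (1 / 2) * A ≤ ENNReal.ofReal (2 * w ^ 2) * X := by
    have h5 : ENNReal.ofReal (1 / 2) * A ≠ ⊤ :=
      (ENNReal.mul_lt_top ENNReal.ofReal_lt_top hAtop).ne
    rw [← ENNReal.add_le_add_iff_left h5, h3]
    exact h2
  calc A = ENNReal.ofReal (1 / 2) * A + ENNReal.ofReal (1 / 2) * A := h3.symm
    _ ≤ ENNReal.ofReal (2 * w ^ 2) * X + ENNReal.ofReal (2 * w ^ 2) * X := add_le_add h4 h4
    _ = ENNReal.ofReal (4 * w ^ 2) * X := by
        rw [← add_mul, ← ENNReal.ofReal_add (by positivity) (by positivity)]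
        congr 2
        ring

private theorem qfh_glneg (R : Finset (ℤ × ℤ)) (c : ℤ × ℤ → ℝ) (h : R → ℝ) :
    gl R (fun z => - c z) (-h) = fun z => - gl R c h z := by
  funext z
  unfold gl
  by_cases hz : z ∈ R
  · rw [dif_pos hz, dif_pos hz]
    rfl
  · rw [dif_neg hz, dif_neg hz]

private theorem qfh_Kneg (R : Finset (ℤ × ℤ)) (c : ℤ × ℤ → ℝ) (h : R → ℝ) :
    -h ∈ K R (fun z => - c z) ↔ h ∈ K R c := by
  unfold K
  simp only [mem_ofPred_eq, qfh_glneg]
  refine forall_congr' fun x => forall_congr' fun _ => forall_congr' fun i => ?_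
  rw [← abs_neg]
  have : -(-gl R c h x - -gl R c h (x + st i)) = gl R c h x - gl R c h (x + st i) := by ring
  rw [this]

private theorem qfh_pzneg {R : Finset (ℤ × ℤ)} {g : (R → ℝ) → ℝ} (hC : ContDiff ℝ 1 g)
    (y : ℤ × ℤ) (h : R → ℝ) :
    pz R y (fun k => g (-k)) (-h) = - pz R y g h := by
  unfold pz
  by_cases hy : y ∈ R
  · rw [dif_pos hy, dif_pos hy]
    unfold pd
    have h1 : HasFDerivAt g (fderiv ℝ g h) (- (-h)) := by
      rw [neg_neg]
      exact (hC.differentiable (by norm_num)).differentiableAt.hasFDerivAt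
    have h2 : HasFDerivAt (fun k : R → ℝ => -k) (-(ContinuousLinearMap.id ℝ (R → ℝ))) (-h) :=
      (hasFDerivAt_id (-h)).neg
    have h3 := (h1.comp (-h) h2).fderiv
    have h4 : fderiv ℝ (fun k => g (-k)) (-h) = _ := h3
    rw [h4, ContinuousLinearMap.comp_apply]
    simp
  · rw [dif_neg hy, dif_neg hy, neg_zero]

private theorem qfh_refl {R : Finset (ℤ × ℤ)} {S : Set (R → ℝ)} (hS : MeasurableSet S)
    (Φ : (R → ℝ) → ℝ≥0∞) :
    ∫⁻ h in S, Φ (-h) = ∫⁻ h in {h | -h ∈ S}, Φ h := by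
  have hS' : MeasurableSet {h : R → ℝ | -h ∈ S} := measurable_neg hS
  rw [← lintegral_indicator hS, ← lintegral_indicator hS',
    ← lintegral_neg_eq_self (f := fun h => {h : R → ℝ | -h ∈ S}.indicator Φ h)]
  refine lintegral_congr fun h => ?_
  by_cases hh : h ∈ S
  · rw [indicator_of_mem hh, indicator_of_mem (show -h ∈ {h : R → ℝ | -h ∈ S} from by
      change - -h ∈ S
      rw [neg_neg]
      exact hh)]
  · rw [indicator_of_notMem hh, indicator_of_notMem (show -h ∉ {h : R → ℝ | -h ∈ S} from by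
      change ¬ (- -h ∈ S)
      rw [neg_neg]
      exact hh)]

private theorem qfh_down {m : ℕ} (hm : 2 ≤ m) {B : Finset (ℤ × ℤ)} {β : ℤ × ℤ → ℝ} {u : ℤ × ℤ}
    {i : Fin 6} (hu : ba u m ⊆ B) {g : (B → ℝ) → ℝ} (hC : ContDiff ℝ 1 g) {ε : ℝ} (hε : 0 < ε)
    (ht : ∀ h : B → ℝ, 1 - ε < |gl B β h u - gl B β h (u + st i)| → g h = 0) :
    ∫⁻ h in {h | h ∈ K B β ∧ up m u (u + st i) (fun z => - gl B β h z)},
        ENNReal.ofReal ((g h) ^ 2) ≤
      ENNReal.ofReal (4 * (wN (qfh_N m)).toReal ^ 2) *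
        ∫⁻ h in K B β, ENNReal.ofReal (∑ y ∈ ba u m, (pz B y g h) ^ 2) := by
  have hCn : ContDiff ℝ 1 (fun k : B → ℝ => g (-k)) := hC.comp contDiff_neg
  have hgn : ∀ k : B → ℝ, gl B (fun z => - β z) k = fun z => - gl B β (-k) z := by
    intro k
    have := qfh_glneg B β (-k)
    rw [neg_neg] at this
    exact this
  have h1 := qfh_up (β := fun z => - β z) hm (i := i) hu hCn hε (by
    intro k hk
    refine ht _ ?_
    rw [hgn] at hk
    have : -gl B β (-k) u - -gl B β (-k) (u + st i) =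
      -(gl B β (-k) u - gl B β (-k) (u + st i)) := by ring
    rw [this, abs_neg] at hk
    exact hk)
  have hS1 : MeasurableSet {h : B → ℝ | h ∈ K B (fun z => - β z) ∧
      up m u (u + st i) (gl B (fun z => - β z) h)} :=
    (K_meas B _).inter (qfg_up_meas B _ m u (u + st i))
  have h2 : ∫⁻ h in {h | h ∈ K B (fun z => - β z) ∧
      up m u (u + st i) (gl B (fun z => - β z) h)}, ENNReal.ofReal ((g (-h)) ^ 2) =
      ∫⁻ h in {h | h ∈ K B β ∧ up m u (u + st i) (fun z => - gl B β h z)},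
        ENNReal.ofReal ((g h) ^ 2) := by
    rw [qfh_refl hS1 (fun h => ENNReal.ofReal ((g h) ^ 2))]
    congr 2
    ext h
    simp only [mem_ofPred_eq]
    rw [qfh_Kneg, qfh_glneg]
  have h3 : ∫⁻ h in K B (fun z => - β z),
      ENNReal.ofReal (∑ y ∈ ba u m, (pz B y (fun k => g (-k)) h) ^ 2) =
      ∫⁻ h in K B β, ENNReal.ofReal (∑ y ∈ ba u m, (pz B y g h) ^ 2) := by
    have h4 : ∀ h : B → ℝ, ENNReal.ofReal (∑ y ∈ ba u m, (pz B y (fun k => g (-k)) h) ^ 2) =
        (fun h => ENNReal.ofReal (∑ y ∈ ba u m, (pz B y g h) ^ 2)) (-h) := by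
      intro h
      simp only
      congr 1
      refine Finset.sum_congr rfl fun y _ => ?_
      have := qfh_pzneg hC y (-h)
      rw [neg_neg] at this
      rw [this, neg_sq]
    rw [lintegral_congr h4, qfh_refl (K_meas B _)
      (fun h => ENNReal.ofReal (∑ y ∈ ba u m, (pz B y g h) ^ 2))]
    congr 2
    ext h
    exact qfh_Kneg B β h
  rw [h2, h3] at h1
  exact h1

private theorem qfh_small {B : Finset (ℤ × ℤ)} {β : ℤ × ℤ → ℝ} {u : ℤ × ℤ} {i : Fin 6}
    {m : ℕ} (hm : ¬ 2 ≤ m) {h : B → ℝ}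
    (he : |gl B β h u - gl B β h (u + st i)| ≤ 1) : gt m u i (gl B β h) = 0 := by
  have hv : dn (u + st i - u) = 1 := by
    rw [add_sub_cancel_left]
    exact (dn_one_iff _).2 ⟨i, rfl⟩
  have hu : dn (u - u) = 0 := (dn_zero_iff _).2 (sub_self u)
  rw [abs_le] at he
  have hno : ∀ H : ℤ × ℤ → ℝ, |H u - H (u + st i)| ≤ 1 → ¬ up m u (u + st i) H := by
    intro H hH hup
    rw [abs_le] at hH
    have : m = 0 ∨ m = 1 := by omega
    rcases this with rfl | rfl
    · have := hup u (by rw [hu]; rfl)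
      push_cast at this
      linarith [hH.2]
    · have := hup (u + st i) (by rw [hv]; rfl)
      push_cast at this
      linarith
  unfold gt
  rw [if_neg]
  rintro (h1 | h1)
  · exact hno _ (abs_le.2 he) h1
  · refine hno _ ?_ h1
    rw [abs_le]
    constructor <;> linarith [he.1, he.2]

theorem fc2 (m : ℕ) : ∃ C : ℝ, 0 ≤ C ∧ ∀ (B : Finset (ℤ × ℤ)) (β : ℤ × ℤ → ℝ) (u : ℤ × ℤ)
    (i : Fin 6), ba u m ⊆ B → ∀ g : (B → ℝ) → ℝ, ContDiff ℝ 1 g →
    (∃ ε : ℝ, 0 < ε ∧ ∀ h : B → ℝ, 1 - ε < |gl B β h u - gl B β h (u + st i)| → g h = 0) →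
    ∫ a in K B β, gt m u i (gl B β a) * (g a) ^ 2 ≤
      C * ∫ a in K B β, ∑ y ∈ ba u m, (pz B y g a) ^ 2 := by
  classical
  refine ⟨8 * (wN (qfh_N m)).toReal ^ 2, by positivity, ?_⟩
  rintro B β u i hu g hC ⟨ε, hε, ht⟩
  have hX0 : 0 ≤ ∫ a in K B β, ∑ y ∈ ba u m, (pz B y g a) ^ 2 :=
    integral_nonneg fun a => Finset.sum_nonneg fun y _ => sq_nonneg _
  have huB : u ∈ B := hu (mem_ba.2 (by
    rw [(dn_zero_iff _).2 (sub_self u)]
    exact_mod_cast Nat.zero_le m))
  by_cases hm : 2 ≤ m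
  · set w : ℝ := (wN (qfh_N m)).toReal with hw
    set v : ℤ × ℤ := u + st i with hv
    have hcont : Continuous (fun h => ∑ y ∈ ba u m, (pz B y g h) ^ 2) :=
      continuous_finsetSum _ fun y _ => (qfg_pz_cont hC y).pow 2
    set U : Set (B → ℝ) := {h | up m u v (gl B β h)} with hU
    set U' : Set (B → ℝ) := {h | up m u v (fun z => - gl B β h z)} with hU'
    have hUm : MeasurableSet U := qfg_up_meas B β m u v
    have hUm' : MeasurableSet U' := by
      have e : U' = Neg.neg ⁻¹' {h : B → ℝ | up m u v (gl B (fun z => - β z) h)} := by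
        ext h
        simp only [hU', mem_ofPred_eq, mem_preimage]
        rw [qfh_glneg]
      rw [e]
      exact measurable_neg (qfg_up_meas B _ m u v)
    have hgt : ∀ h : B → ℝ, gt m u i (gl B β h) = (U ∪ U').indicator (fun _ => (1 : ℝ)) h := by
      intro h
      unfold gt
      by_cases hh : h ∈ U ∪ U'
      · rw [indicator_of_mem hh, if_pos]
        exact hh
      · rw [indicator_of_notMem hh, if_neg]
        exact hh
    have hgm : Measurable (fun h : B → ℝ => gt m u i (gl B β h) * (g h) ^ 2) := by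
      simp only [hgt]
      exact (measurable_const.indicator (hUm.union hUm')).mul (hC.continuous.pow 2).measurable
    have hnn : ∀ h : B → ℝ, 0 ≤ gt m u i (gl B β h) * (g h) ^ 2 := by
      intro h
      refine mul_nonneg ?_ (sq_nonneg _)
      rw [hgt]
      exact indicator_nonneg (fun _ _ => zero_le_one) _
    set X : ℝ≥0∞ := ∫⁻ h in K B β, ENNReal.ofReal (∑ y ∈ ba u m, (pz B y g h) ^ 2) with hX
    have hXtop : X < ⊤ := qfh_fin B β hcont
    have hXr : X.toReal = ∫ a in K B β, ∑ y ∈ ba u m, (pz B y g a) ^ 2 := by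
      rw [integral_eq_lintegral_of_nonneg_ae
        (Filter.Eventually.of_forall fun a => Finset.sum_nonneg fun y _ => sq_nonneg _)
        hcont.aestronglyMeasurable]
    rw [integral_eq_lintegral_of_nonneg_ae (Filter.Eventually.of_forall hnn)
      hgm.aestronglyMeasurable, ← hXr]
    have h1 : ∫⁻ h in K B β, ENNReal.ofReal (gt m u i (gl B β h) * (g h) ^ 2) ≤
        ENNReal.ofReal (8 * w ^ 2) * X := by
      have e1 : ∀ h : B → ℝ, ENNReal.ofReal (gt m u i (gl B β h) * (g h) ^ 2) ≤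
          U.indicator (fun h => ENNReal.ofReal ((g h) ^ 2)) h +
            U'.indicator (fun h => ENNReal.ofReal ((g h) ^ 2)) h := by
        intro h
        rw [hgt]
        by_cases h1 : h ∈ U
        · rw [indicator_of_mem (Set.mem_union_left U' h1), indicator_of_mem h1, one_mul]
          exact le_self_add
        · by_cases h2 : h ∈ U'
          · rw [indicator_of_mem (Set.mem_union_right U h2), indicator_of_mem h2, one_mul]
            exact le_add_self
          · rw [indicator_of_notMem (by rintro (h3 | h3); exact h1 h3; exact h2 h3), zero_mul,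
              ENNReal.ofReal_zero]
            exact zero_le
      have hm1 : Measurable (fun h => U.indicator (fun h => ENNReal.ofReal ((g h) ^ 2)) h) :=
        (hC.continuous.pow 2).measurable.ennreal_ofReal.indicator hUm
      calc ∫⁻ h in K B β, ENNReal.ofReal (gt m u i (gl B β h) * (g h) ^ 2)
          ≤ ∫⁻ h in K B β, (U.indicator (fun h => ENNReal.ofReal ((g h) ^ 2)) h +
            U'.indicator (fun h => ENNReal.ofReal ((g h) ^ 2)) h) := lintegral_mono e1
        _ = (∫⁻ h in K B β, U.indicator (fun h => ENNReal.ofReal ((g h) ^ 2)) h) +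
            ∫⁻ h in K B β, U'.indicator (fun h => ENNReal.ofReal ((g h) ^ 2)) h :=
            lintegral_add_left hm1 _
        _ ≤ ENNReal.ofReal (4 * w ^ 2) * X + ENNReal.ofReal (4 * w ^ 2) * X := by
            refine add_le_add ?_ ?_
            · rw [setLIntegral_indicator hUm]
              have e2 : U ∩ K B β = {h | h ∈ K B β ∧ up m u v (gl B β h)} := by
                ext h
                exact and_comm
              rw [e2]
              exact qfh_up hm hu hC hε ht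
            · rw [setLIntegral_indicator hUm']
              have e2 : U' ∩ K B β = {h | h ∈ K B β ∧ up m u v (fun z => - gl B β h z)} := by
                ext h
                exact and_comm
              rw [e2]
              exact qfh_down hm hu hC hε ht
        _ = ENNReal.ofReal (8 * w ^ 2) * X := by
            rw [← add_mul, ← ENNReal.ofReal_add (by positivity) (by positivity)]
            congr 2
            ring
    have h2 := ENNReal.toReal_mono (ENNReal.mul_lt_top ENNReal.ofReal_lt_top hXtop).ne h1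
    rw [ENNReal.toReal_mul, ENNReal.toReal_ofReal (by positivity)] at h2
    exact h2
  · have e1 : ∫ a in K B β, gt m u i (gl B β a) * (g a) ^ 2 = 0 := by
      rw [setIntegral_congr_fun (g := fun _ => (0 : ℝ)) (K_meas B β)]
      · simp
      · intro a ha
        simp only
        rw [qfh_small hm (ha u huB i), zero_mul]
    rw [e1]
    exact mul_nonneg (by positivity) hX0
/- END qfh -/

/- MODULE qfi
The exponential moment in the bulk, on ALL of `K` (not only `Reg`), under the up-gate.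
As `exists_diag`, `exp_moment` (file Em): under the gate the cells with `q < 1/2` of every sector
are at distance `≤ m - 1` of `u` (monotonicity outward, `qf_mono`, and the gate), hence free;
everything else is the same. -/
private theorem qfi_far {D : Finset (ℤ × ℤ)} {b : ℤ × ℤ → ℝ} (hb : ∀ z, |b z| ≤ 1 / 2)
    {u v : ℤ × ℤ} {h : D → ℝ} (hh : h ∈ K D b) {m : ℕ} (hup : up m u v (gl D b h)) (n : ℕ) :
    ∀ z : ℤ × ℤ, dn (z - u) = ((m + n : ℕ) : ℤ) → 1 / 2 ≤ qf D b u v h z := by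
  induction n with
  | zero =>
    intro z hz
    have := hup z hz
    rw [qf, hz]
    exact_mod_cast this
  | succ n ih =>
    intro z hz
    have hz0 : z - u ≠ 0 := by
      intro h0
      rw [(dn_zero_iff _).2 h0] at hz
      push_cast at hz
      omega
    obtain ⟨i, hi⟩ := dn_pred (z - u) hz0
    have e1 : z - u + st i = z + st i - u := by abel
    rw [e1] at hi
    have e2 : z + st i + st (i + 3) = z := by
      rw [st_neg]
      abel
    have h1 : dn (z + st i + st (i + 3) - u) = dn (z + st i - u) + 1 := by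
      rw [e2, hi]
      ring
    have h2 := (qf_out (v := v) hb hh h1).1
    rw [e2] at h2
    have h3 := ih (z + st i) (by rw [hi, hz]; push_cast; ring)
    linarith

private theorem qfi_diag {D : Finset (ℤ × ℤ)} {b : ℤ × ℤ → ℝ} (hb : ∀ z, |b z| ≤ 1 / 2)
    {u : ℤ × ℤ} {i : Fin 6} {m : ℕ} (hD : ba u (m + 1) ⊆ D) {h : D → ℝ} (hh : h ∈ K D b)
    (hup : up m u (u + st i) (gl D b h)) (j : Fin 6) :
    ∃ μ : YoungDiagram, μ ∈ Cy D u (u + st i) j ∧ h ∈ Ev D b u (u + st i) j μ ∧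
      ∀ c : ℕ × ℕ, qf D b u (u + st i) h (cl u j c) < 1 / 2 → c ∈ μ.cells := by
  classical
  have key : ∀ c : ℕ × ℕ, qf D b u (u + st i) h (cl u j c) < 1 / 2 →
      c ∈ insert (0, 0) (Bx D u (u + st i) j) := by
    intro c hc
    by_cases h0 : c = (0, 0)
    · rw [h0]; exact Finset.mem_insert_self _ _
    · refine Finset.mem_insert_of_mem (mem_Bx.2 ?_)
      have hd : 2 ≤ dn (cl u j c - u) := by
        rw [dn_cl]
        have : c.1 ≠ 0 ∨ c.2 ≠ 0 := by
          by_contra hcon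
          push Not at hcon
          exact h0 (Prod.ext hcon.1 hcon.2)
        omega
      constructor
      · intro e
        have : dn (cl u j c - u) = 1 := by
          rw [e]
          refine (dn_one_iff _).2 ⟨i, by simp⟩
        omega
      · apply hD
        rw [mem_ba]
        by_contra hcon
        rw [not_le] at hcon
        have h1 : dn (cl u j c - u) = ((m + (dn (cl u j c - u) - m).toNat : ℕ) : ℤ) := by
          push_cast at hcon ⊢
          rw [Int.toNat_of_nonneg (by omega)]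
          ring
        have h2 := qfi_far (v := u + st i) hb hh hup _ _ h1
        linarith
  let μ : YoungDiagram :=
    { cells := (insert (0, 0) (Bx D u (u + st i) j)).filter
        (fun c => qf D b u (u + st i) h (cl u j c) < 1 / 2)
      isLowerSet := by
        intro c c' hc hcm
        simp only [Finset.coe_filter, Set.mem_ofPred_eq] at hcm ⊢
        have : qf D b u (u + st i) h (cl u j c') < 1 / 2 :=
          lt_of_le_of_lt (qf_mono hb hh j hc) hcm.2
        exact ⟨key c' this, this⟩ }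
  have hμ : ∀ c, c ∈ μ.cells ↔ qf D b u (u + st i) h (cl u j c) < 1 / 2 := by
    intro c
    constructor
    · intro hc
      exact (Finset.mem_filter.1 hc).2
    · intro hc
      exact Finset.mem_filter.2 ⟨key c hc, hc⟩
  refine ⟨μ, Finset.filter_subset _ _, ⟨hh, ?_⟩, fun c hc => (hμ c).2 hc⟩
  constructor
  · intro c
    have hc : (c : ℕ × ℕ) ∈ μ.cells := (Finset.mem_inter.1 c.2).1
    have h1 := (hμ c).1 hc
    have h2 := qf_ge (u := u) (v := u + st i) hb ⟨i, rfl⟩ hh (cl u j c)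
    simp only [qf] at h1 h2
    constructor
    · linarith
    · linarith
  · intro c c' hc
    have := qf_mono (b := b) hb hh (u := u) (v := u + st i) j hc
    simp only [qf] at this
    linarith

private theorem qfi_le {D : Finset (ℤ × ℤ)} {b : ℤ × ℤ → ℝ} {u v : ℤ × ℤ} {m : ℕ} {h : D → ℝ}
    {μ : Fin 6 → YoungDiagram}
    (hμ : ∀ j, ∀ c : ℕ × ℕ, qf D b u v h (cl u j c) < 1 / 2 → c ∈ (μ j).cells) :
    (NH (ba u m) u v (gl D b h)).card ≤ ∑ j, (μ j).card := by
  classical
  have hsub : NH (ba u m) u v (gl D b h) ⊆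
      Finset.univ.biUnion (fun j : Fin 6 => ((μ j).cells).image (cl u j)) := by
    intro x hx
    have hx' : x ∈ ba u m ∧ x ≠ u ∧ x ≠ v ∧ qf D b u v h x < 1 / 2 := by
      unfold NH at hx
      exact Finset.mem_filter.1 hx
    obtain ⟨j, c, rfl⟩ := cl_surj hx'.2.1
    refine Finset.mem_biUnion.2 ⟨j, Finset.mem_univ _, Finset.mem_image_of_mem _ ?_⟩
    exact hμ j c hx'.2.2.2
  calc (NH (ba u m) u v (gl D b h)).card ≤ (Finset.univ.biUnion
        (fun j : Fin 6 => ((μ j).cells).image (cl u j))).card := Finset.card_le_card hsub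
    _ ≤ ∑ j : Fin 6, (((μ j).cells).image (cl u j)).card := Finset.card_biUnion_le
    _ ≤ ∑ j, (μ j).card := Finset.sum_le_sum (fun j _ => Finset.card_image_le)

theorem exp_bulk : ∃ C : ℝ≥0∞, C < ⊤ ∧ ∀ (D : Finset (ℤ × ℤ)) (b : ℤ × ℤ → ℝ),
    (∀ z, |b z| ≤ 1 / 2) → ∀ (u : ℤ × ℤ) (i : Fin 6) (m : ℕ), 2 ≤ m → ba u (m + 1) ⊆ D →
      ∫⁻ h in {h | h ∈ K D b ∧ up m u (u + st i) (gl D b h)},
        (75 : ℝ≥0∞) ^ (NH (ba u m) u (u + st i) (gl D b h)).card ≤ C * Z D b := by
  classical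
  obtain ⟨Q, C, hQ, hC, HC⟩ := young_series
  refine ⟨6 * C, ENNReal.mul_lt_top (by norm_num) hC, ?_⟩
  intro D b hb u i m _ hD
  set v : ℤ × ℤ := u + st i with hv
  let F : Fin 6 → Finset YoungDiagram := fun j => (Cy_finite D u v j).toFinset
  have hF : ∀ j μ, μ ∈ F j ↔ μ ∈ Cy D u v j := fun j μ => by simp [F]
  set G : (D → ℝ) → ℝ≥0∞ := fun h => ∑ j, ∑ μ ∈ F j,
    (Ev D b u v j μ).indicator (fun _ => ((75 : ℝ≥0∞) ^ 6) ^ μ.card) h with hG
  have hGm : Measurable G := by
    refine Finset.measurable_sum _ (fun j _ => Finset.measurable_sum _ (fun μ _ => ?_))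
    exact measurable_const.indicator (Ev_meas D b u v j μ)
  have hpt : ∀ h ∈ {h | h ∈ K D b ∧ up m u v (gl D b h)},
      (75 : ℝ≥0∞) ^ (NH (ba u m) u v (gl D b h)).card ≤ G h := by
    rintro h ⟨hh, hup⟩
    choose μ h1 h2 h3 using qfi_diag hb hD hh hup
    calc (75 : ℝ≥0∞) ^ (NH (ba u m) u v (gl D b h)).card ≤ 75 ^ (∑ j, (μ j).card) :=
          pow_le_pow_right₀ (by norm_num) (qfi_le h3)
      _ ≤ ∑ j, ((75 : ℝ≥0∞) ^ 6) ^ (μ j).card := pow_sum_le _
      _ ≤ G h := by
          refine Finset.sum_le_sum (fun j _ => ?_)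
          have : ((75 : ℝ≥0∞) ^ 6) ^ (μ j).card = (Ev D b u v j (μ j)).indicator
              (fun _ => ((75 : ℝ≥0∞) ^ 6) ^ (μ j).card) h := by
            rw [Set.indicator_of_mem (h2 j)]
          rw [this]
          exact Finset.single_le_sum (f := fun μ => (Ev D b u v j μ).indicator
              (fun _ => ((75 : ℝ≥0∞) ^ 6) ^ μ.card) h) (fun _ _ => zero_le)
            ((hF j (μ j)).2 (h1 j))
  calc ∫⁻ h in {h | h ∈ K D b ∧ up m u v (gl D b h)},
        (75 : ℝ≥0∞) ^ (NH (ba u m) u v (gl D b h)).card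
      ≤ ∫⁻ h in {h | h ∈ K D b ∧ up m u v (gl D b h)}, G h := setLIntegral_mono hGm hpt
    _ ≤ ∫⁻ h : D → ℝ, G h := setLIntegral_le_lintegral _ _
    _ = ∑ j, ∑ μ ∈ F j, ((75 : ℝ≥0∞) ^ 6) ^ μ.card * volume (Ev D b u v j μ) := by
        rw [hG, lintegral_finsetSum]
        · refine Finset.sum_congr rfl (fun j _ => ?_)
          rw [lintegral_finsetSum]
          · refine Finset.sum_congr rfl (fun μ _ => ?_)
            rw [lintegral_indicator_const (Ev_meas D b u v j μ)]
          · intro μ _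
            exact measurable_const.indicator (Ev_meas D b u v j μ)
        · intro j _
          refine Finset.measurable_sum _ (fun μ _ => ?_)
          exact measurable_const.indicator (Ev_meas D b u v j μ)
    _ ≤ ∑ j : Fin 6, C * volume (K D b) := by
        refine Finset.sum_le_sum (fun j _ => ?_)
        calc ∑ μ ∈ F j, ((75 : ℝ≥0∞) ^ 6) ^ μ.card * volume (Ev D b u v j μ)
            ≤ ∑ μ ∈ F j, (((75 : ℝ≥0∞) ^ 6) ^ μ.card * (2 ^ (43 * μ.card + 7) *
                ENNReal.ofReal ((5 / 2 : ℝ) ^ μ.card / ((Q ^ (μ.card - Q ^ 4) : ℕ) : ℝ)))) *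
                  volume (K D b) := by
              refine Finset.sum_le_sum (fun μ hμ => ?_)
              rw [mul_assoc]
              gcongr
              exact Ev_vol hb ((hF j μ).1 hμ) Q hQ
          _ = (∑ μ ∈ F j, ((75 : ℝ≥0∞) ^ 6) ^ μ.card * (2 ^ (43 * μ.card + 7) *
                ENNReal.ofReal ((5 / 2 : ℝ) ^ μ.card / ((Q ^ (μ.card - Q ^ 4) : ℕ) : ℝ)))) *
                  volume (K D b) := by
              rw [Finset.sum_mul]
          _ ≤ C * volume (K D b) := by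
              gcongr
              exact HC (F j)
    _ = 6 * C * Z D b := by
        simp [mul_assoc, Z]
/- END qfi -/

/- MODULE qfj
If the up-gate is open at radius `m` but not at radius `m₀ ≤ m` then the set `NH` has at least
`m₀ - 1` elements: there is `z` at distance `m₀` with `q z < 1/2`, and along a geodesic from `u` to
`z` all sites at the distances `1, ..., m₀` have `q < 1/2` (`q` does not decrease outward). -/
private theorem qfj_down {D : Finset (ℤ × ℤ)} {b : ℤ × ℤ → ℝ} (hb : ∀ z, |b z| ≤ 1 / 2)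
    {u v : ℤ × ℤ} {h : D → ℝ} (hh : h ∈ K D b) (k n : ℕ) :
    ∀ z : ℤ × ℤ, dn (z - u) = ((k + n : ℕ) : ℤ) →
      ∃ z' : ℤ × ℤ, dn (z' - u) = (k : ℤ) ∧ qf D b u v h z' ≤ qf D b u v h z := by
  induction n with
  | zero => exact fun z hz => ⟨z, hz, le_refl _⟩
  | succ n ih =>
    intro z hz
    have hz0 : z - u ≠ 0 := by
      intro h0
      rw [(dn_zero_iff _).2 h0] at hz
      push_cast at hz
      omega
    obtain ⟨i, hi⟩ := dn_pred (z - u) hz0
    have e1 : z - u + st i = z + st i - u := by abel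
    rw [e1] at hi
    have e2 : z + st i + st (i + 3) = z := by
      rw [st_neg]
      abel
    have h1 : dn (z + st i + st (i + 3) - u) = dn (z + st i - u) + 1 := by
      rw [e2, hi]
      ring
    have h2 := (qf_out (v := v) hb hh h1).1
    rw [e2] at h2
    obtain ⟨z', h3, h4⟩ := ih (z + st i) (by rw [hi, hz]; push_cast; ring)
    exact ⟨z', h3, by linarith⟩

theorem NH_card {D : Finset (ℤ × ℤ)} {b : ℤ × ℤ → ℝ} (hb : ∀ z, |b z| ≤ 1 / 2) {u : ℤ × ℤ}
    {i : Fin 6} {m m₀ : ℕ} (h0 : m₀ ≤ m) {h : D → ℝ} (hh : h ∈ K D b)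
    (hn : ¬ up m₀ u (u + st i) (gl D b h)) :
    m₀ ≤ (NH (ba u m) u (u + st i) (gl D b h)).card + 1 := by
  classical
  unfold up at hn
  push Not at hn
  obtain ⟨z, hz, hq⟩ := hn
  have hqz : qf D b u (u + st i) h z < 1 / 2 := by
    rw [qf, hz]
    exact_mod_cast hq
  have hex : ∀ k : ℕ, k ≤ m₀ → ∃ z' : ℤ × ℤ, dn (z' - u) = (k : ℤ) ∧
      qf D b u (u + st i) h z' < 1 / 2 := by
    intro k hk
    obtain ⟨z', h1, h2⟩ := qfj_down (v := u + st i) hb hh k (m₀ - k) z
      (by rw [hz]; congr 1; omega)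
    exact ⟨z', h1, lt_of_le_of_lt h2 hqz⟩
  have hex' : ∀ k : ℕ, ∃ z' : ℤ × ℤ, k ≤ m₀ → dn (z' - u) = (k : ℤ) ∧
      qf D b u (u + st i) h z' < 1 / 2 := by
    intro k
    by_cases hk : k ≤ m₀
    · obtain ⟨z', hz'⟩ := hex k hk
      exact ⟨z', fun _ => hz'⟩
    · exact ⟨0, fun h => absurd h hk⟩
  choose f hf using hex'
  have hv : dn (u + st i - u) = 1 := by
    rw [add_sub_cancel_left]
    exact (dn_one_iff _).2 ⟨i, rfl⟩
  have hcard : (Finset.Icc 2 m₀).card ≤ (NH (ba u m) u (u + st i) (gl D b h)).card := by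
    apply Finset.card_le_card_of_injOn f
    · intro k hk
      rw [Finset.coe_Icc, Set.mem_Icc] at hk
      obtain ⟨h1, h2⟩ := hf k hk.2
      unfold NH
      rw [Finset.mem_coe, Finset.mem_filter]
      refine ⟨mem_ba.2 (by rw [h1]; exact_mod_cast hk.2.trans h0), ?_, ?_, h2⟩
      · intro e
        rw [e, (dn_zero_iff _).2 (sub_self u)] at h1
        omega
      · intro e
        rw [e, hv] at h1
        omega
    · intro k hk k' hk' e
      rw [Finset.coe_Icc, Set.mem_Icc] at hk hk'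
      have h1 := (hf k hk.2).1
      have h2 := (hf k' hk'.2).1
      rw [e, h2] at h1
      exact_mod_cast h1.symm
  rw [Nat.card_Icc] at hcard
  omega

/-- gates are monotone in the radius -/
theorem up_mono {D : Finset (ℤ × ℤ)} {b : ℤ × ℤ → ℝ} (hb : ∀ z, |b z| ≤ 1 / 2) {u v : ℤ × ℤ}
    {m m' : ℕ} (h0 : m ≤ m') {h : D → ℝ} (hh : h ∈ K D b) (hn : up m u v (gl D b h)) :
    up m' u v (gl D b h) := by
  intro z hz
  obtain ⟨z', h1, h2⟩ := qfj_down (v := v) hb hh m (m' - m) z (by rw [hz]; congr 1; omega)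
  have h3 := hn z' h1
  rw [qf, qf, h1, hz] at h2
  push_cast at h2
  linarith
/- END qfj -/

/- MODULE qfk
(FC1), (FC4) for the up-gate.  `flow_D` with `ψ S = 1` if `m₀ ≤ S.card + 1`, `0` otherwise
(`NH_card`), Cauchy-Schwarz, `wN n ^ 2 ≤ C₁ 60 ^ n` and `exp_bulk`: `60^n ≤ 75^n (4/5)^(m₀-1)` on
the support of `ψ`; `√(4/5) ≤ 9/10`. -/
/-- `wN n ^ 2 ≤ 48 * 60 ^ n` -/
private theorem qfk_wN (n : ℕ) : (wN n) ^ 2 ≤ ENNReal.ofReal (48 * (60 : ℝ) ^ n) := by
  have h1 : wN n = ENNReal.ofReal (2 * 5 ^ n * (1 + Real.sqrt (1 + 4 * (n : ℝ)))) := by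
    unfold wN
    rw [ENNReal.ofReal_mul (by positivity), ENNReal.ofReal_mul (by norm_num),
      ENNReal.ofReal_pow (by norm_num)]
    norm_num
  rw [h1, ← ENNReal.ofReal_pow (by positivity)]
  refine ENNReal.ofReal_le_ofReal ?_
  have h2 := Real.sq_sqrt (show (0 : ℝ) ≤ 1 + 4 * (n : ℝ) by positivity)
  set s := Real.sqrt (1 + 4 * (n : ℝ)) with hs
  have h3 : (1 + s) ^ 2 ≤ 4 + 8 * (n : ℝ) := by nlinarith [sq_nonneg (1 - s)]
  have h4 : 1 + (7 / 5 : ℝ) * (n : ℝ) ≤ (12 / 5 : ℝ) ^ n := by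
    have := one_add_mul_le_pow (show (-2 : ℝ) ≤ 7 / 5 by norm_num) n
    calc 1 + (7 / 5 : ℝ) * (n : ℝ) = 1 + (n : ℝ) * (7 / 5) := by ring
      _ ≤ (1 + 7 / 5) ^ n := this
      _ = (12 / 5 : ℝ) ^ n := by norm_num
  have hn : (0 : ℝ) ≤ n := Nat.cast_nonneg n
  have h5 : (60 : ℝ) ^ n = 25 ^ n * (12 / 5) ^ n := by
    rw [← mul_pow]
    norm_num
  have h6 : (5 ^ n : ℝ) ^ 2 = 25 ^ n := by
    rw [← pow_mul, mul_comm, pow_mul]
    norm_num
  calc (2 * 5 ^ n * (1 + s)) ^ 2 = 4 * (5 ^ n : ℝ) ^ 2 * (1 + s) ^ 2 := by ring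
    _ = 4 * 25 ^ n * (1 + s) ^ 2 := by rw [h6]
    _ ≤ 4 * 25 ^ n * (4 + 8 * (n : ℝ)) := by
        exact mul_le_mul_of_nonneg_left h3 (by positivity)
    _ ≤ 4 * 25 ^ n * (12 * (1 + (7 / 5 : ℝ) * (n : ℝ))) := by
        refine mul_le_mul_of_nonneg_left ?_ (by positivity)
        linarith
    _ ≤ 4 * 25 ^ n * (12 * (12 / 5 : ℝ) ^ n) := by
        refine mul_le_mul_of_nonneg_left ?_ (by positivity)
        linarith
    _ = 48 * (60 : ℝ) ^ n := by rw [h5]; ring

theorem fc_up : ∃ C : ℝ, 0 ≤ C ∧ ∀ (D : Finset (ℤ × ℤ)) (b : ℤ × ℤ → ℝ),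
    (∀ z, |b z| ≤ 1 / 2) → ∀ (u : ℤ × ℤ) (i : Fin 6) (m m₀ : ℕ), m₀ ≤ m → ba u (m + 1) ⊆ D →
    ∀ g : (D → ℝ) → ℝ, ContDiff ℝ 1 g →
    (∃ ε : ℝ, 0 < ε ∧ ∀ h : D → ℝ, 1 - ε < |gl D b h u - gl D b h (u + st i)| → g h = 0) →
    ∫ h in {h | up m u (u + st i) (gl D b h) ∧ ¬ up m₀ u (u + st i) (gl D b h)}, |g h| ∂(Mu D b) ≤
      C * (9 / 10) ^ m₀ * Real.sqrt (∫ h, ∑ y ∈ ba u m, (pz D y g h) ^ 2 ∂(Mu D b)) := by
  classical
  obtain ⟨C₀, hC₀, HC⟩ := exp_bulk
  refine ⟨Real.sqrt (60 * C₀.toReal), Real.sqrt_nonneg _, ?_⟩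
  rintro D b hb u i m m₀ h0 hu g hC ⟨ε, hε, ht⟩
  set v : ℤ × ℤ := u + st i with hv
  have hcont : Continuous (fun h => ∑ y ∈ ba u m, (pz D y g h) ^ 2) :=
    continuous_finsetSum _ fun y _ => (qfg_pz_cont hC y).pow 2
  have hu0 : ba u m ⊆ D := by
    intro z hz
    refine hu (mem_ba.2 ?_)
    have := mem_ba.1 hz
    push_cast
    omega
  have huD : u ∈ D := hu (mem_ba.2 (by
    rw [(dn_zero_iff _).2 (sub_self u)]
    exact_mod_cast Nat.zero_le (m + 1)))
  have hZ1 : 1 ≤ Z D b := Z_one_le (fun z _ _ => hb z)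
  have hZt : Z D b < ⊤ := Z_lt_top D b
  have hZr : 0 < (Z D b).toReal := ENNReal.toReal_pos (by
    intro h0
    rw [h0] at hZ1
    exact absurd hZ1 (by norm_num)) hZt.ne
  set S : Set (D → ℝ) := {h | up m u v (gl D b h) ∧ ¬ up m₀ u v (gl D b h)} with hS
  have hSm : MeasurableSet S :=
    (qfg_up_meas D b m u v).inter (qfg_up_meas D b m₀ u v).compl
  have hMu : Mu D b = (Z D b)⁻¹ • volume.restrict (K D b) := rfl
  have hRHS : 0 ≤ ∫ h, ∑ y ∈ ba u m, (pz D y g h) ^ 2 ∂(Mu D b) :=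
    integral_nonneg fun a => Finset.sum_nonneg fun y _ => sq_nonneg _
  by_cases hm : 2 ≤ m
  · set Y : ℝ≥0∞ := ∫⁻ h in K D b, ENNReal.ofReal (∑ y ∈ ba u m, (pz D y g h) ^ 2) with hY
    have hYt : Y < ⊤ := qfh_fin D b hcont
    have hYr : Y.toReal = ∫ h in K D b, ∑ y ∈ ba u m, (pz D y g h) ^ 2 := by
      rw [integral_eq_lintegral_of_nonneg_ae
        (Filter.Eventually.of_forall fun a => Finset.sum_nonneg fun y _ => sq_nonneg _)
        hcont.aestronglyMeasurable]
    set U : Set (D → ℝ) := {h | h ∈ K D b ∧ up m u v (gl D b h)} with hU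
    have hUm : MeasurableSet U := (K_meas D b).inter (qfg_up_meas D b m u v)
    set n : (D → ℝ) → ℕ := fun h => (NH (ba u m) u v (gl D b h)).card with hn
    set ψ : Finset (ℤ × ℤ) → ℝ≥0∞ := fun T => if m₀ ≤ T.card + 1 then 1 else 0 with hψ
    have h1 := flow_D (b := b) hm i hu0 hC hε ht ψ
    -- the left side
    have h2 : ∫⁻ h in S ∩ K D b, ENNReal.ofReal |g h| ≤
        ∫⁻ h in U, ψ (NH (ba u m) u v (gl D b h)) * ENNReal.ofReal |g h| := by
      calc ∫⁻ h in S ∩ K D b, ENNReal.ofReal |g h|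
          ≤ ∫⁻ h in S ∩ K D b, ψ (NH (ba u m) u v (gl D b h)) * ENNReal.ofReal |g h| := by
            refine setLIntegral_mono' (hSm.inter (K_meas D b)) fun h hh => ?_
            have h3 := NH_card hb h0 hh.2 hh.1.2
            simp only [hψ]
            rw [if_pos h3, one_mul]
        _ ≤ _ := by
            refine lintegral_mono_set ?_
            exact fun h hh => ⟨hh.2, hh.1.1⟩
    -- Cauchy-Schwarz
    set P : (D → ℝ) → ℝ≥0∞ := fun h => wN (n h) * ψ (NH (ba u m) u v (gl D b h)) with hP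
    have hPm : Measurable P :=
      (qfg_NH_meas D b (ba u m) u v (fun T => wN T.card)).mul (qfg_NH_meas D b (ba u m) u v ψ)
    set Q : (D → ℝ) → ℝ≥0∞ := fun h =>
      ENNReal.ofReal (Real.sqrt (∑ y ∈ ba u m, (pz D y g h) ^ 2)) with hQ
    have hQm : Measurable Q := (hcont.measurable.sqrt).ennreal_ofReal
    have h3 : ∫⁻ h in U, P h * Q h ≤
        (∫⁻ h in U, (P h) ^ (2 : ℝ)) ^ (1 / (2 : ℝ)) * (∫⁻ h in U, (Q h) ^ (2 : ℝ)) ^ (1 / (2 : ℝ)) :=
      ENNReal.lintegral_mul_le_Lp_mul_Lq _ Real.HolderConjugate.two_two hPm.aemeasurable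
        hQm.aemeasurable
    have hQ2 : ∫⁻ h in U, (Q h) ^ (2 : ℝ) ≤ Y := by
      refine (lintegral_mono_set (t := K D b) fun h hh => hh.1).trans (le_of_eq ?_)
      refine lintegral_congr fun h => ?_
      simp only [hQ]
      rw [ENNReal.rpow_two, ← ENNReal.ofReal_pow (Real.sqrt_nonneg _),
        Real.sq_sqrt (Finset.sum_nonneg fun y _ => sq_nonneg _)]
    have hP2 : ∫⁻ h in U, (P h) ^ (2 : ℝ) ≤
        ENNReal.ofReal (60 * (4 / 5) ^ m₀) * (C₀ * Z D b) := by
      have h4 : ∀ h : D → ℝ, (P h) ^ (2 : ℝ) ≤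
          ENNReal.ofReal (60 * (4 / 5) ^ m₀) * (75 : ℝ≥0∞) ^ (n h) := by
        intro h
        rw [ENNReal.rpow_two]
        simp only [hP, hψ]
        by_cases h5 : m₀ ≤ (NH (ba u m) u v (gl D b h)).card + 1
        · rw [if_pos h5, mul_one]
          refine (qfk_wN _).trans ?_
          have h6 : (75 : ℝ≥0∞) ^ (n h) = ENNReal.ofReal ((75 : ℝ) ^ (n h)) := by
            rw [ENNReal.ofReal_pow (by norm_num)]
            norm_num
          rw [h6, ← ENNReal.ofReal_mul (by positivity)]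
          refine ENNReal.ofReal_le_ofReal ?_
          have h7 : (60 : ℝ) ^ (n h) = (4 / 5) ^ (n h) * 75 ^ (n h) := by
            rw [← mul_pow]
            norm_num
          rw [h7, ← mul_assoc]
          refine mul_le_mul_of_nonneg_right ?_ (by positivity)
          have h8 : ((4 / 5 : ℝ)) ^ (n h + 1) ≤ (4 / 5) ^ m₀ :=
            pow_le_pow_of_le_one (by norm_num) (by norm_num) h5
          rw [pow_succ] at h8
          linarith
        · rw [if_neg h5, mul_zero]
          simp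
      calc ∫⁻ h in U, (P h) ^ (2 : ℝ)
          ≤ ∫⁻ h in U, ENNReal.ofReal (60 * (4 / 5) ^ m₀) * (75 : ℝ≥0∞) ^ (n h) :=
            lintegral_mono h4
        _ = ENNReal.ofReal (60 * (4 / 5) ^ m₀) * ∫⁻ h in U, (75 : ℝ≥0∞) ^ (n h) :=
            lintegral_const_mul _
              (qfg_NH_meas D b (ba u m) u v (fun T => (75 : ℝ≥0∞) ^ T.card))
        _ ≤ _ := by
            gcongr
            exact HC D b hb u i m hm hu
    -- in real numbers
    have h5 : ∫⁻ h in S ∩ K D b, ENNReal.ofReal |g h| ≤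
        (ENNReal.ofReal (60 * (4 / 5) ^ m₀) * (C₀ * Z D b)) ^ (1 / (2 : ℝ)) *
          Y ^ (1 / (2 : ℝ)) := by
      refine h2.trans (h1.trans (h3.trans ?_))
      exact mul_le_mul' (ENNReal.rpow_le_rpow hP2 (by norm_num))
        (ENNReal.rpow_le_rpow hQ2 (by norm_num))
    have h6 : (∫⁻ h in S ∩ K D b, ENNReal.ofReal |g h|).toReal ≤
        Real.sqrt (60 * (4 / 5) ^ m₀ * (C₀.toReal * (Z D b).toReal)) * Real.sqrt Y.toReal := by
      have h7 := ENNReal.toReal_mono (ENNReal.mul_lt_top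
        (ENNReal.rpow_lt_top_of_nonneg (by norm_num) (ENNReal.mul_lt_top ENNReal.ofReal_lt_top
          (ENNReal.mul_lt_top hC₀ hZt)).ne)
        (ENNReal.rpow_lt_top_of_nonneg (by norm_num) hYt.ne)).ne h5
      rw [ENNReal.toReal_mul, ← ENNReal.toReal_rpow, ← ENNReal.toReal_rpow,
        ENNReal.toReal_mul, ENNReal.toReal_mul, ENNReal.toReal_ofReal (by positivity),
        ← Real.sqrt_eq_rpow, ← Real.sqrt_eq_rpow] at h7
      exact h7
    have h8 : ∫ h in S, |g h| ∂(Mu D b) =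
        (Z D b).toReal⁻¹ * (∫⁻ h in S ∩ K D b, ENNReal.ofReal |g h|).toReal := by
      rw [hMu, Measure.restrict_smul, integral_smul_measure, ENNReal.toReal_inv, smul_eq_mul,
        Measure.restrict_restrict hSm]
      congr 1
      rw [integral_eq_lintegral_of_nonneg_ae (Filter.Eventually.of_forall fun a => abs_nonneg _)
        hC.continuous.abs.aestronglyMeasurable]
    have h9 : ∫ h, ∑ y ∈ ba u m, (pz D y g h) ^ 2 ∂(Mu D b) = (Z D b).toReal⁻¹ * Y.toReal := by
      rw [hMu, integral_smul_measure, ENNReal.toReal_inv, smul_eq_mul, hYr]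
    rw [h8, h9]
    set z : ℝ := (Z D b).toReal with hz
    have hz' : z⁻¹ * Real.sqrt z = Real.sqrt z⁻¹ := by
      rw [Real.sqrt_inv]
      have := Real.mul_self_sqrt hZr.le
      have hs : Real.sqrt z ≠ 0 := (Real.sqrt_pos.2 hZr).ne'
      field_simp
      nlinarith
    have hq : Real.sqrt ((4 / 5) ^ m₀) ≤ (9 / 10) ^ m₀ := by
      rw [Real.sqrt_le_left (by positivity), ← pow_mul, mul_comm, pow_mul]
      exact pow_le_pow_left₀ (by norm_num) (by norm_num) _
    calc z⁻¹ * (∫⁻ h in S ∩ K D b, ENNReal.ofReal |g h|).toReal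
        ≤ z⁻¹ * (Real.sqrt (60 * (4 / 5) ^ m₀ * (C₀.toReal * z)) * Real.sqrt Y.toReal) :=
          mul_le_mul_of_nonneg_left h6 (inv_nonneg.2 hZr.le)
      _ = Real.sqrt (60 * C₀.toReal) * Real.sqrt ((4 / 5) ^ m₀) *
            ((z⁻¹ * Real.sqrt z) * Real.sqrt Y.toReal) := by
          have e1 : 60 * (4 / 5 : ℝ) ^ m₀ * (C₀.toReal * z) =
              (60 * C₀.toReal) * ((4 / 5) ^ m₀ * z) := by ring
          have e2 : Real.sqrt ((4 / 5 : ℝ) ^ m₀ * z) = Real.sqrt ((4 / 5) ^ m₀) * Real.sqrt z :=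
            Real.sqrt_mul (by positivity) z
          rw [e1, Real.sqrt_mul (by positivity), e2]
          ring
      _ = Real.sqrt (60 * C₀.toReal) * Real.sqrt ((4 / 5) ^ m₀) * Real.sqrt (z⁻¹ * Y.toReal) := by
          rw [hz', ← Real.sqrt_mul (inv_nonneg.2 hZr.le)]
      _ ≤ Real.sqrt (60 * C₀.toReal) * (9 / 10) ^ m₀ * Real.sqrt (z⁻¹ * Y.toReal) := by
          refine mul_le_mul_of_nonneg_right ?_ (Real.sqrt_nonneg _)
          exact mul_le_mul_of_nonneg_left hq (Real.sqrt_nonneg _)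
  · have e1 : ∫ h in S, |g h| ∂(Mu D b) = 0 := by
      have e2 : (Mu D b).restrict S = 0 := by
        rw [Measure.restrict_eq_zero, hMu, Measure.smul_apply, Measure.restrict_apply hSm]
        have e3 : S ∩ K D b = ∅ := by
          rw [Set.eq_empty_iff_forall_notMem]
          rintro h ⟨h1, h2⟩
          have h4 := qfh_small (β := b) hm (h2 u huD i)
          unfold gt at h4
          rw [if_pos (Or.inl h1.1)] at h4
          exact one_ne_zero h4
        rw [e3, measure_empty, smul_zero]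
      rw [e2, integral_zero_measure]
    rw [e1]
    exact mul_nonneg (mul_nonneg (Real.sqrt_nonneg _) (by positivity)) (Real.sqrt_nonneg _)
/- END qfk -/

/- MODULE qfl
(FC1), (FC4) for the gate `gt`: `gt m (1 - gt m₀) ≤ 1_{up m, not up m₀} + 1_{down m, not down m₀}`,
the second term by the reflection `h → -h`, `b → -b`.  For `m₀ = 0` the gate `gt 0` vanishes on `K`
(`dn (z - u) = 0` means `z = u`, and `H u - H v - 1 ≥ 1/2` is impossible). -/
private theorem qfl_gl (D : Finset (ℤ × ℤ)) (b : ℤ × ℤ → ℝ) (h : D → ℝ) (z : ℤ × ℤ) :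
    gl D (fun z => - b z) (-h) z = - gl D b h z := by
  unfold gl
  split_ifs <;> simp

private theorem qfl_gl' (D : Finset (ℤ × ℤ)) (b : ℤ × ℤ → ℝ) (h : D → ℝ) (z : ℤ × ℤ) :
    gl D b (-h) z = - gl D (fun z => - b z) h z := by
  unfold gl
  split_ifs <;> simp

private theorem qfl_K (D : Finset (ℤ × ℤ)) (b : ℤ × ℤ → ℝ) (h : D → ℝ) :
    -h ∈ K D b ↔ h ∈ K D (fun z => - b z) := by
  unfold K
  simp only [mem_ofPred_eq, qfl_gl']
  refine forall₂_congr fun x _ => forall_congr' fun i => ?_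
  rw [show -gl D (fun z => - b z) h x - -gl D (fun z => - b z) h (x + st i) =
    -(gl D (fun z => - b z) h x - gl D (fun z => - b z) h (x + st i)) by ring, abs_neg]

private theorem qfl_mp (D : Finset (ℤ × ℤ)) (b : ℤ × ℤ → ℝ) :
    MeasurePreserving (fun h : D → ℝ => -h) (Mu D (fun z => - b z)) (Mu D b) := by
  have hpre : (fun h : D → ℝ => -h) ⁻¹' (K D b) = K D (fun z => - b z) := by
    ext h
    exact qfl_K D b h
  have hm : MeasurePreserving (fun h : D → ℝ => -h) volume volume :=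
    Measure.measurePreserving_neg volume
  have h1 := hm.restrict_preimage_emb (MeasurableEquiv.neg (D → ℝ)).measurableEmbedding (K D b)
  rw [hpre] at h1
  have h2 : volume (K D (fun z => - b z)) = volume (K D b) := by
    rw [← hpre]
    exact hm.measure_preimage (K_meas D b).nullMeasurableSet
  unfold Mu ProbabilityTheory.cond
  rw [h2]
  exact h1.smul_measure _

private theorem qfl_set (D : Finset (ℤ × ℤ)) (b : ℤ × ℤ → ℝ) (s : Set (D → ℝ))
    (f : (D → ℝ) → ℝ) : ∫ h in s, f h ∂(Mu D b) =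
      ∫ h in {h | -h ∈ s}, f (-h) ∂(Mu D (fun z => - b z)) :=
  ((qfl_mp D b).setIntegral_preimage_emb (MeasurableEquiv.neg (D → ℝ)).measurableEmbedding
    f s).symm

private theorem qfl_int (D : Finset (ℤ × ℤ)) (b : ℤ × ℤ → ℝ) (f : (D → ℝ) → ℝ) :
    ∫ h, f h ∂(Mu D b) = ∫ h, f (-h) ∂(Mu D (fun z => - b z)) :=
  ((qfl_mp D b).integral_comp (MeasurableEquiv.neg (D → ℝ)).measurableEmbedding f).symm

private theorem qfl_pz (D : Finset (ℤ × ℤ)) (z : ℤ × ℤ) {g : (D → ℝ) → ℝ}
    (hd : ContDiff ℝ 1 g) (h : D → ℝ) :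
    pz D z (fun h => g (-h)) h = - pz D z g (-h) := by
  unfold pz
  split_ifs with hz
  · unfold pd
    have h1 : HasFDerivAt (fun h : D → ℝ => g (-h))
        ((fderiv ℝ g (-h)).comp (-ContinuousLinearMap.id ℝ (D → ℝ))) h := by
      have h2 : HasFDerivAt g (fderiv ℝ g (-h)) (-h) :=
        ((hd.differentiable (by simp)) (-h)).hasFDerivAt
      exact h2.comp h (hasFDerivAt_id _).neg
    rw [h1.fderiv]
    simp
  · simp

private theorem qfl_compact (D : Finset (ℤ × ℤ)) (b : ℤ × ℤ → ℝ) : IsCompact (K D b) := by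
  set B : ℝ := ∑ x ∈ D, ∑ i : Fin 6, |b (x + st i)| with hBdef
  have hB : 0 ≤ B := Finset.sum_nonneg fun x _ => Finset.sum_nonneg fun i _ => abs_nonneg _
  have hc : ∀ z, z ∉ D → (∃ x ∈ D, ∃ i, z = x + st i) → |b z| ≤ B := by
    rintro z - ⟨x, hx, i, rfl⟩
    refine le_trans ?_ (Finset.single_le_sum (f := fun x => ∑ i : Fin 6, |b (x + st i)|)
      (fun x _ => Finset.sum_nonneg fun i _ => abs_nonneg _) hx)
    exact Finset.single_le_sum (f := fun i : Fin 6 => |b (x + st i)|)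
      (fun i _ => abs_nonneg _) (Finset.mem_univ i)
  refine IsCompact.of_isClosed_subset (isCompact_Icc (a := fun _ : D => -(B + D.card))
    (b := fun _ : D => B + D.card)) (K_closed D b) fun h hh => ?_
  exact ⟨fun x => (abs_le.1 (K_bdd hB hc hh x)).1, fun x => (abs_le.1 (K_bdd hB hc hh x)).2⟩

private theorem qfl_Z {D : Finset (ℤ × ℤ)} {b : ℤ × ℤ → ℝ} (hb : ∀ z, |b z| ≤ 1 / 2) :
    volume (K D b) ≠ 0 := by
  intro h0
  have h1 : 1 ≤ Z D b := Z_one_le (fun z _ _ => hb z)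
  rw [show Z D b = 0 from h0] at h1
  exact absurd h1 (by norm_num)

private theorem qfl_integrable {D : Finset (ℤ × ℤ)} {b : ℤ × ℤ → ℝ} (hb : ∀ z, |b z| ≤ 1 / 2)
    {f : (D → ℝ) → ℝ} (hf : Continuous f) : Integrable f (Mu D b) := by
  unfold Mu ProbabilityTheory.cond
  refine Integrable.smul_measure ?_ (ENNReal.inv_ne_top.2 (qfl_Z hb))
  exact hf.continuousOn.integrableOn_compact (qfl_compact D b)

private theorem qfl_up_meas {α : Type*} [MeasurableSpace α] (m : ℕ) (u v : ℤ × ℤ)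
    {H : α → ℤ × ℤ → ℝ} (hH : ∀ z, Measurable fun h => H h z) :
    MeasurableSet {h | up m u v (H h)} := by
  have h1 : {h | up m u v (H h)} =
      ⋂ z : ℤ × ℤ, {h | dn (z - u) = m → 1 / 2 ≤ H h z - H h v - 1 + m} := by
    ext h
    simp only [up, mem_ofPred_eq, mem_iInter]
  rw [h1]
  refine MeasurableSet.iInter fun z => ?_
  by_cases hz : dn (z - u) = m
  · simp only [hz, forall_const]
    exact measurableSet_le measurable_const ((((hH z).sub (hH v)).sub_const _).add_const _)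
  · simp only [hz, false_imp_iff]
    exact MeasurableSet.univ

private theorem qfl_gt (m m₀ : ℕ) (x : ℤ × ℤ) (i : Fin 6) (H : ℤ × ℤ → ℝ) :
    (gt m x i H = 0 ∨ gt m x i H = 1) ∧
    (¬ (up m x (x + st i) H ∧ ¬ up m₀ x (x + st i) H) →
      ¬ (up m x (x + st i) (fun z => - H z) ∧ ¬ up m₀ x (x + st i) (fun z => - H z)) →
        gt m x i H * (1 - gt m₀ x i H) = 0) := by
  classical
  unfold gt
  by_cases p : up m x (x + st i) H <;> by_cases q : up m x (x + st i) (fun z => - H z) <;>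
    by_cases p0 : up m₀ x (x + st i) H <;> by_cases q0 : up m₀ x (x + st i) (fun z => - H z) <;>
    simp [p, q, p0, q0]

theorem fc4 : ∃ C : ℝ, 0 ≤ C ∧ ∀ (D : Finset (ℤ × ℤ)) (b : ℤ × ℤ → ℝ),
    (∀ z, |b z| ≤ 1 / 2) → ∀ (u : ℤ × ℤ) (i : Fin 6) (m m₀ : ℕ), m₀ ≤ m → ba u (m + 1) ⊆ D →
    ∀ g : (D → ℝ) → ℝ, ContDiff ℝ 1 g →
    (∃ ε : ℝ, 0 < ε ∧ ∀ h : D → ℝ, 1 - ε < |gl D b h u - gl D b h (u + st i)| → g h = 0) →
    ∫ h, gt m u i (gl D b h) * (1 - gt m₀ u i (gl D b h)) * |g h| ∂(Mu D b) ≤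
      C * (9 / 10) ^ m₀ * Real.sqrt (∫ h, ∑ y ∈ ba u m, (pz D y g h) ^ 2 ∂(Mu D b)) := by
  classical
  obtain ⟨C, hC, H⟩ := fc_up
  refine ⟨2 * C, by positivity, ?_⟩
  intro D b hb u i m m₀ hm hba g hg ht
  obtain ⟨A1, hA1d⟩ : ∃ A1 : Set (D → ℝ), A1 = {h | up m u (u + st i) (gl D b h) ∧
    ¬ up m₀ u (u + st i) (gl D b h)} := ⟨_, rfl⟩
  obtain ⟨A2, hA2d⟩ : ∃ A2 : Set (D → ℝ), A2 = {h | up m u (u + st i) (fun z => - gl D b h z) ∧
    ¬ up m₀ u (u + st i) (fun z => - gl D b h z)} := ⟨_, rfl⟩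
  have hA1 : MeasurableSet A1 := by
    rw [hA1d]
    exact (qfl_up_meas m u _ (gl_meas D b)).inter (qfl_up_meas m₀ u _ (gl_meas D b)).compl
  have hA2 : MeasurableSet A2 := by
    rw [hA2d]
    exact (qfl_up_meas m u _ (fun z => (gl_meas D b z).neg)).inter
      (qfl_up_meas m₀ u _ (fun z => (gl_meas D b z).neg)).compl
  have hgi : Integrable (fun h => |g h|) (Mu D b) := qfl_integrable hb hg.continuous.abs
  have h1 : ∫ h, gt m u i (gl D b h) * (1 - gt m₀ u i (gl D b h)) * |g h| ∂(Mu D b) ≤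
      ∫ h, (A1.indicator (fun h => |g h|) h + A2.indicator (fun h => |g h|) h) ∂(Mu D b) := by
    refine integral_mono_of_nonneg (ae_of_all _ fun h => ?_)
      ((hgi.indicator hA1).add (hgi.indicator hA2)) (ae_of_all _ fun h => ?_)
    · have e1 := (qfl_gt m m₀ u i (gl D b h)).1
      have e2 := (qfl_gt m₀ m₀ u i (gl D b h)).1
      refine mul_nonneg ?_ (abs_nonneg _)
      rcases e1 with e1 | e1 <;> rcases e2 with e2 | e2 <;> rw [e1, e2] <;> norm_num
    · show gt m u i (gl D b h) * (1 - gt m₀ u i (gl D b h)) * |g h| ≤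
        A1.indicator (fun h => |g h|) h + A2.indicator (fun h => |g h|) h
      have hle : gt m u i (gl D b h) * (1 - gt m₀ u i (gl D b h)) ≤ 1 := by
        have e1 := (qfl_gt m m₀ u i (gl D b h)).1
        have e2 := (qfl_gt m₀ m₀ u i (gl D b h)).1
        rcases e1 with e1 | e1 <;> rcases e2 with e2 | e2 <;> rw [e1, e2] <;> norm_num
      have hle' : gt m u i (gl D b h) * (1 - gt m₀ u i (gl D b h)) * |g h| ≤ |g h| :=
        (mul_le_mul_of_nonneg_right hle (abs_nonneg _)).trans_eq (one_mul _)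
      have hn : ∀ A : Set (D → ℝ), 0 ≤ A.indicator (fun h => |g h|) h := fun A =>
        Set.indicator_nonneg (fun _ _ => abs_nonneg _) _
      by_cases m1 : h ∈ A1
      · rw [Set.indicator_of_mem m1]
        exact hle'.trans (le_add_of_nonneg_right (hn A2))
      · by_cases m2 : h ∈ A2
        · rw [Set.indicator_of_mem m2]
          exact hle'.trans (le_add_of_nonneg_left (hn A1))
        · rw [hA1d] at m1
          rw [hA2d] at m2
          rw [(qfl_gt m m₀ u i (gl D b h)).2 m1 m2, zero_mul]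
          exact add_nonneg (hn A1) (hn A2)
  rw [integral_add (hgi.indicator hA1) (hgi.indicator hA2), integral_indicator hA1,
    integral_indicator hA2] at h1
  have h2 : ∫ h in A1, |g h| ∂(Mu D b) ≤
      C * (9 / 10) ^ m₀ * Real.sqrt (∫ h, ∑ y ∈ ba u m, (pz D y g h) ^ 2 ∂(Mu D b)) := by
    rw [hA1d]
    exact H D b hb u i m m₀ hm hba g hg ht
  have h3 : ∫ h in A2, |g h| ∂(Mu D b) ≤
      C * (9 / 10) ^ m₀ * Real.sqrt (∫ h, ∑ y ∈ ba u m, (pz D y g h) ^ 2 ∂(Mu D b)) := by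
    obtain ⟨ε, hε, ht⟩ := ht
    have h4 := H D (fun z => - b z) (fun z => by rw [abs_neg]; exact hb z) u i m m₀ hm hba
      (fun h => g (-h)) (hg.comp contDiff_neg) ⟨ε, hε, fun h hh => ht (-h) (by
        rw [qfl_gl', qfl_gl']
        have e : -gl D (fun z => - b z) h u - -gl D (fun z => - b z) h (u + st i) =
          -(gl D (fun z => - b z) h u - gl D (fun z => - b z) h (u + st i)) := by ring
        rw [e, abs_neg]
        exact hh)⟩
    rw [qfl_set D b A2, qfl_int D b (fun h => ∑ y ∈ ba u m, (pz D y g h) ^ 2)]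
    have e1 : {h : D → ℝ | -h ∈ A2} = {h | up m u (u + st i) (gl D (fun z => - b z) h) ∧
        ¬ up m₀ u (u + st i) (gl D (fun z => - b z) h)} := by
      rw [hA2d]
      ext h
      simp only [mem_ofPred_eq, qfl_gl', neg_neg]
    have e2 : ∀ h : D → ℝ, ∑ y ∈ ba u m, (pz D y g (-h)) ^ 2 =
        ∑ y ∈ ba u m, (pz D y (fun h => g (-h)) h) ^ 2 := by
      intro h
      refine Finset.sum_congr rfl fun y _ => ?_
      rw [qfl_pz D y hg, neg_sq]
    rw [e1]
    simp only [e2]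
    exact h4
  calc _ ≤ _ := h1
    _ ≤ C * (9 / 10) ^ m₀ * Real.sqrt (∫ h, ∑ y ∈ ba u m, (pz D y g h) ^ 2 ∂(Mu D b)) +
        C * (9 / 10) ^ m₀ * Real.sqrt (∫ h, ∑ y ∈ ba u m, (pz D y g h) ^ 2 ∂(Mu D b)) :=
        add_le_add h2 h3
    _ = _ := by ring

theorem fc1 : ∃ C : ℝ, 0 ≤ C ∧ ∀ (D : Finset (ℤ × ℤ)) (b : ℤ × ℤ → ℝ),
    (∀ z, |b z| ≤ 1 / 2) → ∀ (u : ℤ × ℤ) (i : Fin 6) (m : ℕ), ba u (m + 1) ⊆ D →
    ∀ g : (D → ℝ) → ℝ, ContDiff ℝ 1 g →
    (∃ ε : ℝ, 0 < ε ∧ ∀ h : D → ℝ, 1 - ε < |gl D b h u - gl D b h (u + st i)| → g h = 0) →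
    ∫ h, gt m u i (gl D b h) * |g h| ∂(Mu D b) ≤
      C * Real.sqrt (∫ h, ∑ y ∈ ba u m, (pz D y g h) ^ 2 ∂(Mu D b)) := by
  classical
  obtain ⟨C, hC, H⟩ := fc4
  refine ⟨C, hC, ?_⟩
  intro D b hb u i m hba g hg ht
  have h1 := H D b hb u i m 0 (Nat.zero_le _) hba g hg ht
  rw [pow_zero, mul_one] at h1
  refine le_trans (le_of_eq ?_) h1
  have hK : ∀ᵐ h ∂(Mu D b), h ∈ K D b := ProbabilityTheory.ae_cond_mem (K_meas D b)
  refine integral_congr_ae ?_
  filter_upwards [hK] with h hh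
  have hu : u ∈ D := hba (mem_ba.2 (by
    rw [sub_self]
    have : dn (0 : ℤ × ℤ) = 0 := by simp [dn]
    rw [this]
    positivity))
  have h2 := abs_le.1 (hh u hu i)
  have hd : dn (u - u) = ((0 : ℕ) : ℤ) := by
    rw [sub_self]
    simp [dn]
  have h3 : gt 0 u i (gl D b h) = 0 := by
    unfold gt
    rw [if_neg]
    rintro (h4 | h4)
    · have h5 := h4 u hd
      push_cast at h5
      linarith [h2.2]
    · have h5 := h4 u hd
      push_cast at h5
      linarith [h2.1]
  rw [h3, sub_zero, mul_one]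
/- END qfl -/

/- MODULE qfm
(FC3).  `K = Reg ∪ {0 ≤ H v}`; on `Reg` use `flr_ineq` with `flr_Reg` (the pair `(x, x + st i)` is
good because `x` has no fixed neighbour) and `ψ S = 1` if `m ≤ S.card + 1` (on `Reg`,
`not up m` implies `m ≤ Nn + 1` by `NH_card`, `NH (ba u m) ⊆ Ns D`), Cauchy-Schwarz and
`exp_moment`; on `{0 ≤ H v}` the same after reflection (`1 - gt ≤ 1_{not down}`).  The function is
`g = w (x + st i) - w x`, tied by `Nice.tie`; `gr g ≤ 2 gr + 2 gr`. -/
private theorem qfm_gr (D : Finset (ℤ × ℤ)) (g : (D → ℝ) → ℝ) (h : D → ℝ) :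
    gr g h = ∑ y ∈ D, (pz D y g h) ^ 2 := by
  unfold gr
  rw [← Finset.sum_coe_sort D (fun y => (pz D y g h) ^ 2)]
  refine Finset.sum_congr rfl fun y _ => ?_
  unfold pz
  rw [dif_pos y.2]

private theorem qfm_nb {m : ℕ} (x : ℤ × ℤ) (j : Fin 6) : x + st j ∈ ba x (m + 1) := by
  rw [mem_ba, add_sub_cancel_left, (dn_one_iff (st j)).2 ⟨j, rfl⟩]
  push_cast
  linarith [Int.natCast_nonneg m]

private theorem qfm_self {m : ℕ} (x : ℤ × ℤ) : x ∈ ba x m := by
  rw [mem_ba, (dn_zero_iff _).2 (sub_self x)]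
  exact Int.natCast_nonneg m

private theorem qfm_good {D : Finset (ℤ × ℤ)} (b : ℤ × ℤ → ℝ) {x : ℤ × ℤ} (i : Fin 6) {m : ℕ}
    (hba : ba x (m + 1) ⊆ D) : Good D b x (x + st i) :=
  ⟨hba (qfm_self x), ⟨i, rfl⟩, fun j hj => absurd (hba (qfm_nb x j)) hj⟩

private theorem qfm_Ns_meas (D : Finset (ℤ × ℤ)) (b : ℤ × ℤ → ℝ) (u v : ℤ × ℤ)
    {α : Type*} [MeasurableSpace α] (Θ : Finset (ℤ × ℤ) → α) :
    Measurable (fun h : D → ℝ => Θ (Ns D b u v h)) := by
  have h1 : (fun h : D → ℝ => Θ (Ns D b u v h)) = fun h => Θ (NH D u v (gl D b h)) := by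
    funext h
    unfold NH Ns qf
    rfl
  rw [h1]
  exact qfg_NH_meas D b D u v Θ

private theorem qfm_reg {C₀ : ℝ≥0∞} (hC₀ : C₀ < ⊤)
    (HC : ∀ (D : Finset (ℤ × ℤ)) (b : ℤ × ℤ → ℝ), (∀ z, |b z| ≤ 1 / 2) → ∀ u v : ℤ × ℤ,
      Good D b u v → ∫⁻ h : D → ℝ, (Reg D b v).indicator
        (fun h => (75 : ℝ≥0∞) ^ (Nn D b u v h)) h ≤ C₀ * volume (K D b))
    {D : Finset (ℤ × ℤ)} {b : ℤ × ℤ → ℝ} (hb : ∀ z, |b z| ≤ 1 / 2) {u : ℤ × ℤ} (i : Fin 6)
    {m : ℕ} (hba : ba u (m + 1) ⊆ D) {g : (D → ℝ) → ℝ} (hC : ContDiff ℝ 1 g)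
    {ε : ℝ} (hε : 0 < ε)
    (ht : ∀ h : D → ℝ, 1 - ε < |gl D b h u - gl D b h (u + st i)| → g h = 0) :
    ∫ h in {h | h ∈ Reg D b (u + st i) ∧ ¬ up m u (u + st i) (gl D b h)}, |g h| ∂(Mu D b) ≤
      Real.sqrt (60 * C₀.toReal) * (9 / 10) ^ m *
        Real.sqrt (∫ h, ∑ y ∈ D, (pz D y g h) ^ 2 ∂(Mu D b)) := by
  classical
  set v : ℤ × ℤ := u + st i with hv
  have hg : Good D b u v := qfm_good b i hba
  have hcont : Continuous (fun h => ∑ y ∈ D, (pz D y g h) ^ 2) :=
    continuous_finsetSum _ fun y _ => (qfg_pz_cont hC y).pow 2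
  have hZ1 : 1 ≤ Z D b := Z_one_le (fun z _ _ => hb z)
  have hZt : Z D b < ⊤ := Z_lt_top D b
  have hZr : 0 < (Z D b).toReal := ENNReal.toReal_pos (by
    intro h0
    rw [h0] at hZ1
    exact absurd hZ1 (by norm_num)) hZt.ne
  obtain ⟨S, hS⟩ : ∃ S : Set (D → ℝ), S = {h | h ∈ Reg D b v ∧ ¬ up m u v (gl D b h)} :=
    ⟨_, rfl⟩
  have hSm : MeasurableSet S := by
    rw [hS]
    exact (Reg_meas D b v).inter (qfg_up_meas D b m u v).compl
  have hSK : S ⊆ K D b := by
    intro h hh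
    rw [hS] at hh
    exact hh.1.1
  have hSR : S ⊆ Reg D b v := by
    intro h hh
    rw [hS] at hh
    exact hh.1
  have hMu : Mu D b = (Z D b)⁻¹ • volume.restrict (K D b) := rfl
  set Y : ℝ≥0∞ := ∫⁻ h in K D b, ENNReal.ofReal (∑ y ∈ D, (pz D y g h) ^ 2) with hY
  have hYt : Y < ⊤ := qfh_fin D b hcont
  have hYr : Y.toReal = ∫ h in K D b, ∑ y ∈ D, (pz D y g h) ^ 2 := by
    rw [integral_eq_lintegral_of_nonneg_ae
      (Filter.Eventually.of_forall fun a => Finset.sum_nonneg fun y _ => sq_nonneg _)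
      hcont.aestronglyMeasurable]
  set n : (D → ℝ) → ℕ := fun h => Nn D b u v h with hn
  set ψ : Finset (ℤ × ℤ) → ℝ≥0∞ := fun T => if m ≤ T.card + 1 then 1 else 0 with hψ
  have h1 := flr_ineq (flr_Reg hb hg) hC hε ht ψ
  have hcount : ∀ h ∈ S, m ≤ (Ns D b u v h).card + 1 := by
    intro h hh
    rw [hS] at hh
    have h2 := NH_card (i := i) hb (le_refl m) hh.1.1 hh.2
    refine h2.trans (Nat.add_le_add_right (Finset.card_le_card fun z hz => ?_) 1)
    unfold NH at hz
    unfold Ns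
    simp only [Finset.mem_filter] at hz ⊢
    refine ⟨hba (mem_ba.2 ((mem_ba.1 hz.1).trans (by push_cast; linarith))), hz.2.1, hz.2.2.1, ?_⟩
    unfold qf
    exact hz.2.2.2
  -- the left side
  have h2 : ∫⁻ h in S, ENNReal.ofReal |g h| ≤
      ∫⁻ h in Reg D b v, ψ (Ns D b u v h) * ENNReal.ofReal |g h| := by
    calc ∫⁻ h in S, ENNReal.ofReal |g h|
        ≤ ∫⁻ h in S, ψ (Ns D b u v h) * ENNReal.ofReal |g h| := by
          refine setLIntegral_mono' hSm fun h hh => ?_
          have h3 := hcount h hh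
          simp only [hψ]
          rw [if_pos h3, one_mul]
      _ ≤ _ := lintegral_mono_set hSR
  -- Cauchy-Schwarz
  set P : (D → ℝ) → ℝ≥0∞ := fun h => wN (n h) * ψ (Ns D b u v h) with hP
  have hPm : Measurable P :=
    (qfm_Ns_meas D b u v (fun T => wN T.card)).mul (qfm_Ns_meas D b u v ψ)
  set Q : (D → ℝ) → ℝ≥0∞ := fun h => ENNReal.ofReal (Real.sqrt (gr g h)) with hQ
  have hgc : Continuous (fun h => gr g h) := by
    simp only [qfm_gr]
    exact hcont
  have hQm : Measurable Q := (hgc.measurable.sqrt).ennreal_ofReal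
  have h3 : ∫⁻ h in Reg D b v, P h * Q h ≤
      (∫⁻ h in Reg D b v, (P h) ^ (2 : ℝ)) ^ (1 / (2 : ℝ)) *
        (∫⁻ h in Reg D b v, (Q h) ^ (2 : ℝ)) ^ (1 / (2 : ℝ)) :=
    ENNReal.lintegral_mul_le_Lp_mul_Lq _ Real.HolderConjugate.two_two hPm.aemeasurable
      hQm.aemeasurable
  have hQ2 : ∫⁻ h in Reg D b v, (Q h) ^ (2 : ℝ) ≤ Y := by
    refine (lintegral_mono_set (t := K D b) fun h hh => hh.1).trans (le_of_eq ?_)
    refine lintegral_congr fun h => ?_
    simp only [hQ]
    rw [qfm_gr, ENNReal.rpow_two, ← ENNReal.ofReal_pow (Real.sqrt_nonneg _),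
      Real.sq_sqrt (Finset.sum_nonneg fun y _ => sq_nonneg _)]
  have hP2 : ∫⁻ h in Reg D b v, (P h) ^ (2 : ℝ) ≤
      ENNReal.ofReal (60 * (4 / 5) ^ m) * (C₀ * Z D b) := by
    have h4 : ∀ h : D → ℝ, (P h) ^ (2 : ℝ) ≤
        ENNReal.ofReal (60 * (4 / 5) ^ m) * (75 : ℝ≥0∞) ^ (n h) := by
      intro h
      rw [ENNReal.rpow_two]
      simp only [hP, hψ]
      by_cases h5 : m ≤ (Ns D b u v h).card + 1
      · rw [if_pos h5, mul_one]
        refine (qfk_wN _).trans ?_
        have h6 : (75 : ℝ≥0∞) ^ (n h) = ENNReal.ofReal ((75 : ℝ) ^ (n h)) := by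
          rw [ENNReal.ofReal_pow (by norm_num)]
          norm_num
        rw [h6, ← ENNReal.ofReal_mul (by positivity)]
        refine ENNReal.ofReal_le_ofReal ?_
        have h7 : (60 : ℝ) ^ (n h) = (4 / 5) ^ (n h) * 75 ^ (n h) := by
          rw [← mul_pow]
          norm_num
        rw [h7, ← mul_assoc]
        refine mul_le_mul_of_nonneg_right ?_ (by positivity)
        have h8 : ((4 / 5 : ℝ)) ^ (n h + 1) ≤ (4 / 5) ^ m :=
          pow_le_pow_of_le_one (by norm_num) (by norm_num) h5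
        rw [pow_succ] at h8
        linarith
      · rw [if_neg h5, mul_zero]
        simp
    calc ∫⁻ h in Reg D b v, (P h) ^ (2 : ℝ)
        ≤ ∫⁻ h in Reg D b v, ENNReal.ofReal (60 * (4 / 5) ^ m) * (75 : ℝ≥0∞) ^ (n h) :=
          lintegral_mono h4
      _ = ENNReal.ofReal (60 * (4 / 5) ^ m) * ∫⁻ h in Reg D b v, (75 : ℝ≥0∞) ^ (n h) :=
          lintegral_const_mul _ (qfm_Ns_meas D b u v (fun T => (75 : ℝ≥0∞) ^ T.card))
      _ ≤ _ := by
          gcongr
          rw [← lintegral_indicator (Reg_meas D b v)]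
          exact HC D b hb u v hg
  -- in real numbers
  have h5 : ∫⁻ h in S, ENNReal.ofReal |g h| ≤
      (ENNReal.ofReal (60 * (4 / 5) ^ m) * (C₀ * Z D b)) ^ (1 / (2 : ℝ)) *
        Y ^ (1 / (2 : ℝ)) := by
    refine h2.trans (h1.trans (h3.trans ?_))
    exact mul_le_mul' (ENNReal.rpow_le_rpow hP2 (by norm_num))
      (ENNReal.rpow_le_rpow hQ2 (by norm_num))
  have h6 : (∫⁻ h in S, ENNReal.ofReal |g h|).toReal ≤
      Real.sqrt (60 * (4 / 5) ^ m * (C₀.toReal * (Z D b).toReal)) * Real.sqrt Y.toReal := by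
    have h7 := ENNReal.toReal_mono (ENNReal.mul_lt_top
      (ENNReal.rpow_lt_top_of_nonneg (by norm_num) (ENNReal.mul_lt_top ENNReal.ofReal_lt_top
        (ENNReal.mul_lt_top hC₀ hZt)).ne)
      (ENNReal.rpow_lt_top_of_nonneg (by norm_num) hYt.ne)).ne h5
    rw [ENNReal.toReal_mul, ← ENNReal.toReal_rpow, ← ENNReal.toReal_rpow,
      ENNReal.toReal_mul, ENNReal.toReal_mul, ENNReal.toReal_ofReal (by positivity),
      ← Real.sqrt_eq_rpow, ← Real.sqrt_eq_rpow] at h7
    exact h7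
  have h8 : ∫ h in S, |g h| ∂(Mu D b) =
      (Z D b).toReal⁻¹ * (∫⁻ h in S, ENNReal.ofReal |g h|).toReal := by
    rw [hMu, Measure.restrict_smul, integral_smul_measure, ENNReal.toReal_inv, smul_eq_mul,
      Measure.restrict_restrict hSm, Set.inter_eq_left.2 hSK]
    congr 1
    rw [integral_eq_lintegral_of_nonneg_ae (Filter.Eventually.of_forall fun a => abs_nonneg _)
      hC.continuous.abs.aestronglyMeasurable]
  have h9 : ∫ h, ∑ y ∈ D, (pz D y g h) ^ 2 ∂(Mu D b) = (Z D b).toReal⁻¹ * Y.toReal := by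
    rw [hMu, integral_smul_measure, ENNReal.toReal_inv, smul_eq_mul, hYr]
  rw [← hS, h8, h9]
  set z : ℝ := (Z D b).toReal with hz
  have hz' : z⁻¹ * Real.sqrt z = Real.sqrt z⁻¹ := by
    rw [Real.sqrt_inv]
    have := Real.mul_self_sqrt hZr.le
    have hs : Real.sqrt z ≠ 0 := (Real.sqrt_pos.2 hZr).ne'
    field_simp
    nlinarith
  have hq : Real.sqrt ((4 / 5) ^ m) ≤ (9 / 10) ^ m := by
    rw [Real.sqrt_le_left (by positivity), ← pow_mul, mul_comm, pow_mul]
    exact pow_le_pow_left₀ (by norm_num) (by norm_num) _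
  calc z⁻¹ * (∫⁻ h in S, ENNReal.ofReal |g h|).toReal
      ≤ z⁻¹ * (Real.sqrt (60 * (4 / 5) ^ m * (C₀.toReal * z)) * Real.sqrt Y.toReal) :=
        mul_le_mul_of_nonneg_left h6 (inv_nonneg.2 hZr.le)
    _ = Real.sqrt (60 * C₀.toReal) * Real.sqrt ((4 / 5) ^ m) *
          ((z⁻¹ * Real.sqrt z) * Real.sqrt Y.toReal) := by
        have e1 : 60 * (4 / 5 : ℝ) ^ m * (C₀.toReal * z) =
            (60 * C₀.toReal) * ((4 / 5) ^ m * z) := by ring
        have e2 : Real.sqrt ((4 / 5 : ℝ) ^ m * z) = Real.sqrt ((4 / 5) ^ m) * Real.sqrt z :=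
          Real.sqrt_mul (by positivity) z
        rw [e1, Real.sqrt_mul (by positivity), e2]
        ring
    _ = Real.sqrt (60 * C₀.toReal) * Real.sqrt ((4 / 5) ^ m) * Real.sqrt (z⁻¹ * Y.toReal) := by
        rw [hz', ← Real.sqrt_mul (inv_nonneg.2 hZr.le)]
    _ ≤ Real.sqrt (60 * C₀.toReal) * (9 / 10) ^ m * Real.sqrt (z⁻¹ * Y.toReal) := by
        refine mul_le_mul_of_nonneg_right ?_ (Real.sqrt_nonneg _)
        exact mul_le_mul_of_nonneg_left hq (Real.sqrt_nonneg _)

private theorem qfm_pz_sub {D : Finset (ℤ × ℤ)} {f g : (D → ℝ) → ℝ} (hf : ContDiff ℝ 1 f)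
    (hg : ContDiff ℝ 1 g) (y : ℤ × ℤ) (h : D → ℝ) :
    pz D y (fun h => f h - g h) h = pz D y f h - pz D y g h := by
  unfold pz
  by_cases hy : y ∈ D
  · rw [dif_pos hy, dif_pos hy, dif_pos hy]
    unfold pd
    have h1 : DifferentiableAt ℝ f h := (hf.differentiable (by norm_num)).differentiableAt
    have h2 : DifferentiableAt ℝ g h := (hg.differentiable (by norm_num)).differentiableAt
    rw [fderiv_fun_sub h1 h2]
    rfl
  · rw [dif_neg hy, dif_neg hy, dif_neg hy, sub_zero]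

theorem fc3 : ∃ C : ℝ, 0 ≤ C ∧ ∀ (D : Finset (ℤ × ℤ)) (b : ℤ × ℤ → ℝ),
    (∀ z, |b z| ≤ 1 / 2) → ∀ w : ℤ × ℤ → (D → ℝ) → ℝ, Nice D b w →
    ∀ (x : ℤ × ℤ) (i : Fin 6) (m : ℕ), ba x (m + 1) ⊆ D →
    ∫ h, (1 - gt m x i (gl D b h)) * |w (x + st i) h - w x h| ∂(Mu D b) ≤
      C * (9 / 10) ^ m * (Real.sqrt (∫ h, ∑ y ∈ D, (pz D y (w x) h) ^ 2 ∂(Mu D b)) +
        Real.sqrt (∫ h, ∑ y ∈ D, (pz D y (w (x + st i)) h) ^ 2 ∂(Mu D b))) := by
  classical
  obtain ⟨C₀, hC₀, HC⟩ := exp_moment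
  refine ⟨2 * Real.sqrt (60 * C₀.toReal) * Real.sqrt 2, by positivity, ?_⟩
  intro D b hb w hw x i m hba
  have hP : IsProbabilityMeasure (Mu D b) := prob hb
  have hx1 : ContDiff ℝ 1 (w x) := (hw.sm x).of_le (by exact_mod_cast le_top)
  have hx2 : ContDiff ℝ 1 (w (x + st i)) := (hw.sm (x + st i)).of_le (by exact_mod_cast le_top)
  obtain ⟨g, hgd⟩ : ∃ g : (D → ℝ) → ℝ, g = fun h => w (x + st i) h - w x h := ⟨_, rfl⟩
  have hg : ContDiff ℝ 1 g := by
    rw [hgd]
    exact hx2.sub hx1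
  have hxD : x ∈ D := hba (qfm_self x)
  obtain ⟨ε, hε, htie⟩ := hw.tie
  have ht : ∀ h : D → ℝ, 1 - ε < |gl D b h x - gl D b h (x + st i)| → g h = 0 := by
    intro h hh
    rw [hgd]
    simp only
    rw [htie x hxD i h hh, sub_self]
  obtain ⟨A1, hA1d⟩ : ∃ A1 : Set (D → ℝ), A1 =
    {h | h ∈ Reg D b (x + st i) ∧ ¬ up m x (x + st i) (gl D b h)} := ⟨_, rfl⟩
  obtain ⟨A2, hA2d⟩ : ∃ A2 : Set (D → ℝ), A2 =
    {h | (h ∈ K D b ∧ 0 ≤ gl D b h (x + st i)) ∧
      ¬ up m x (x + st i) (fun z => - gl D b h z)} := ⟨_, rfl⟩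
  have hA1 : MeasurableSet A1 := by
    rw [hA1d]
    exact (Reg_meas D b (x + st i)).inter (qfl_up_meas m x _ (gl_meas D b)).compl
  have hA2 : MeasurableSet A2 := by
    rw [hA2d]
    exact ((K_meas D b).inter (measurableSet_le measurable_const (gl_meas D b _))).inter
      (qfl_up_meas m x _ (fun z => (gl_meas D b z).neg)).compl
  have hK : ∀ᵐ h ∂(Mu D b), h ∈ K D b := ProbabilityTheory.ae_cond_mem (K_meas D b)
  have hgi : Integrable (fun h => |g h|) (Mu D b) := qfl_integrable hb hg.continuous.abs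
  have h1 : ∫ h, (1 - gt m x i (gl D b h)) * |g h| ∂(Mu D b) ≤
      ∫ h, (A1.indicator (fun h => |g h|) h + A2.indicator (fun h => |g h|) h) ∂(Mu D b) := by
    refine integral_mono_of_nonneg (ae_of_all _ fun h => ?_)
      ((hgi.indicator hA1).add (hgi.indicator hA2)) ?_
    · refine mul_nonneg ?_ (abs_nonneg _)
      rcases (qfl_gt m m x i (gl D b h)).1 with e1 | e1 <;> rw [e1] <;> norm_num
    · filter_upwards [hK] with h hh
      have hn : ∀ A : Set (D → ℝ), 0 ≤ A.indicator (fun h => |g h|) h := fun A =>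
        Set.indicator_nonneg (fun _ _ => abs_nonneg _) _
      have hle0 : 1 - gt m x i (gl D b h) ≤ 1 := by
        rcases (qfl_gt m m x i (gl D b h)).1 with e1 | e1 <;> rw [e1] <;> norm_num
      have hle : (1 - gt m x i (gl D b h)) * |g h| ≤ |g h| :=
        (mul_le_mul_of_nonneg_right hle0 (abs_nonneg _)).trans_eq (one_mul _)
      by_cases m1 : h ∈ A1
      · rw [Set.indicator_of_mem m1]
        exact hle.trans (le_add_of_nonneg_right (hn A2))
      · by_cases m2 : h ∈ A2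
        · rw [Set.indicator_of_mem m2]
          exact hle.trans (le_add_of_nonneg_left (hn A1))
        · have h3 : gt m x i (gl D b h) = 1 := by
            unfold gt
            rw [if_pos]
            rw [hA1d] at m1
            rw [hA2d] at m2
            by_contra hcon
            push Not at hcon
            rcases le_total (gl D b h (x + st i)) 0 with h4 | h4
            · exact m1 ⟨⟨hh, h4⟩, hcon.1⟩
            · exact m2 ⟨⟨hh, h4⟩, hcon.2⟩
          rw [h3, sub_self, zero_mul]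
          exact add_nonneg (hn A1) (hn A2)
  rw [integral_add (hgi.indicator hA1) (hgi.indicator hA2), integral_indicator hA1,
    integral_indicator hA2] at h1
  have h2 : ∫ h in A1, |g h| ∂(Mu D b) ≤ Real.sqrt (60 * C₀.toReal) * (9 / 10) ^ m *
      Real.sqrt (∫ h, ∑ y ∈ D, (pz D y g h) ^ 2 ∂(Mu D b)) := by
    rw [hA1d]
    exact qfm_reg hC₀ HC hb i hba hg hε ht
  have h3 : ∫ h in A2, |g h| ∂(Mu D b) ≤ Real.sqrt (60 * C₀.toReal) * (9 / 10) ^ m *
      Real.sqrt (∫ h, ∑ y ∈ D, (pz D y g h) ^ 2 ∂(Mu D b)) := by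
    have h4 := qfm_reg hC₀ HC (b := fun z => - b z) (fun z => by rw [abs_neg]; exact hb z) i hba
      (g := fun h => g (-h)) (hg.comp contDiff_neg) hε (fun h hh => ht (-h) (by
        rw [qfl_gl', qfl_gl']
        have e : -gl D (fun z => - b z) h x - -gl D (fun z => - b z) h (x + st i) =
          -(gl D (fun z => - b z) h x - gl D (fun z => - b z) h (x + st i)) := by ring
        rw [e, abs_neg]
        exact hh))
    rw [qfl_set D b A2, qfl_int D b (fun h => ∑ y ∈ D, (pz D y g h) ^ 2)]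
    have e1 : {h : D → ℝ | -h ∈ A2} = {h | h ∈ Reg D (fun z => - b z) (x + st i) ∧
          ¬ up m x (x + st i) (gl D (fun z => - b z) h)} := by
      rw [hA2d]
      ext h
      simp only [mem_ofPred_eq, qfl_gl', neg_neg, qfl_K, Reg, Left.nonneg_neg_iff]
    have e2 : ∀ h : D → ℝ, ∑ y ∈ D, (pz D y g (-h)) ^ 2 =
        ∑ y ∈ D, (pz D y (fun h => g (-h)) h) ^ 2 := by
      intro h
      refine Finset.sum_congr rfl fun y _ => ?_
      rw [qfl_pz D y hg, neg_sq]
    rw [e1]
    simp only [e2]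
    exact h4
  -- the gradient of the difference
  have hc1 : Continuous (fun h => ∑ y ∈ D, (pz D y (w x) h) ^ 2) :=
    continuous_finsetSum _ fun y _ => (qfg_pz_cont hx1 y).pow 2
  have hc2 : Continuous (fun h => ∑ y ∈ D, (pz D y (w (x + st i)) h) ^ 2) :=
    continuous_finsetSum _ fun y _ => (qfg_pz_cont hx2 y).pow 2
  have hc3 : Continuous (fun h => ∑ y ∈ D, (pz D y g h) ^ 2) :=
    continuous_finsetSum _ fun y _ => (qfg_pz_cont hg y).pow 2
  have hi1 := qfl_integrable (D := D) hb hc1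
  have hi2 := qfl_integrable (D := D) hb hc2
  have hi3 := qfl_integrable (D := D) hb hc3
  have h5 : ∫ h, ∑ y ∈ D, (pz D y g h) ^ 2 ∂(Mu D b) ≤
      2 * ∫ h, ∑ y ∈ D, (pz D y (w x) h) ^ 2 ∂(Mu D b) +
        2 * ∫ h, ∑ y ∈ D, (pz D y (w (x + st i)) h) ^ 2 ∂(Mu D b) := by
    rw [← integral_const_mul, ← integral_const_mul,
      ← integral_add (hi1.const_mul 2) (hi2.const_mul 2)]
    refine integral_mono hi3 ((hi1.const_mul 2).add (hi2.const_mul 2)) fun h => ?_
    simp only [Pi.add_apply]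
    rw [Finset.mul_sum, Finset.mul_sum, ← Finset.sum_add_distrib]
    refine Finset.sum_le_sum fun y _ => ?_
    rw [hgd, qfm_pz_sub hx2 hx1]
    nlinarith [sq_nonneg (pz D y (w x) h + pz D y (w (x + st i)) h)]
  obtain ⟨I1, hI1⟩ : ∃ I1 : ℝ, I1 = ∫ h, ∑ y ∈ D, (pz D y (w x) h) ^ 2 ∂(Mu D b) := ⟨_, rfl⟩
  obtain ⟨I2, hI2⟩ : ∃ I2 : ℝ, I2 = ∫ h, ∑ y ∈ D, (pz D y (w (x + st i)) h) ^ 2 ∂(Mu D b) :=
    ⟨_, rfl⟩
  obtain ⟨I3, hI3⟩ : ∃ I3 : ℝ, I3 = ∫ h, ∑ y ∈ D, (pz D y g h) ^ 2 ∂(Mu D b) := ⟨_, rfl⟩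
  have hI1n : 0 ≤ I1 := by
    rw [hI1]
    exact integral_nonneg fun a => Finset.sum_nonneg fun y _ => sq_nonneg _
  have hI2n : 0 ≤ I2 := by
    rw [hI2]
    exact integral_nonneg fun a => Finset.sum_nonneg fun y _ => sq_nonneg _
  rw [← hI1, ← hI2]
  rw [← hI1, ← hI2, ← hI3] at h5
  rw [← hI3] at h2 h3
  have h6 : Real.sqrt I3 ≤ Real.sqrt 2 * (Real.sqrt I1 + Real.sqrt I2) := by
    rw [Real.sqrt_le_left (by positivity), mul_pow, Real.sq_sqrt (by norm_num : (0 : ℝ) ≤ 2)]
    have e1 := Real.sq_sqrt hI1n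
    have e2 := Real.sq_sqrt hI2n
    nlinarith [mul_nonneg (Real.sqrt_nonneg I1) (Real.sqrt_nonneg I2)]
  have h7 : ∫ h, (1 - gt m x i (gl D b h)) * |w (x + st i) h - w x h| ∂(Mu D b) =
      ∫ h, (1 - gt m x i (gl D b h)) * |g h| ∂(Mu D b) := by
    rw [hgd]
  have h8 : 0 ≤ Real.sqrt (60 * C₀.toReal) * (9 / 10 : ℝ) ^ m := by positivity
  calc _ = _ := h7
    _ ≤ _ := h1
    _ ≤ Real.sqrt (60 * C₀.toReal) * (9 / 10) ^ m * Real.sqrt I3 +
        Real.sqrt (60 * C₀.toReal) * (9 / 10) ^ m * Real.sqrt I3 := add_le_add h2 h3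
    _ = 2 * (Real.sqrt (60 * C₀.toReal) * (9 / 10) ^ m) * Real.sqrt I3 := by ring
    _ ≤ 2 * (Real.sqrt (60 * C₀.toReal) * (9 / 10) ^ m) *
        (Real.sqrt 2 * (Real.sqrt I1 + Real.sqrt I2)) := by gcongr
    _ = _ := by ring
/- END qfm -/

/- MODULE qfn
(FC5): the gate is open with high probability: on `Reg`, `not up m` implies `m ≤ Nn + 1`
(`NH_card`), Markov with `exp_moment` (`75^(Nn) ≥ 75^(m-1)`); reflection for the rest. -/
private theorem qfn_reg {C : ℝ≥0∞} (hC : C < ⊤)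
    (HC : ∀ (D : Finset (ℤ × ℤ)) (b : ℤ × ℤ → ℝ), (∀ z, |b z| ≤ 1 / 2) → ∀ u v : ℤ × ℤ,
      Good D b u v → ∫⁻ h : D → ℝ, (Reg D b v).indicator
        (fun h => (75 : ℝ≥0∞) ^ (Nn D b u v h)) h ≤ C * volume (K D b))
    {D : Finset (ℤ × ℤ)} {b : ℤ × ℤ → ℝ} (hb : ∀ z, |b z| ≤ 1 / 2) {x : ℤ × ℤ} (i : Fin 6)
    {m : ℕ} (hba : ba x (m + 1) ⊆ D) :
    (Mu D b).real {h | h ∈ Reg D b (x + st i) ∧ ¬ up m x (x + st i) (gl D b h)} ≤
      75 * C.toReal * (1 / 75) ^ m := by
  classical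
  have hnb : ∀ j : Fin 6, x + st j ∈ ba x (m + 1) := by
    intro j
    rw [mem_ba, add_sub_cancel_left]
    have h1 : dn (st j) = 1 := by
      fin_cases j <;> simp [dn, st]
    rw [h1]
    push_cast
    linarith [Int.natCast_nonneg m]
  have hxb : x ∈ ba x (m + 1) := by
    rw [mem_ba, sub_self]
    have h1 : dn (0 : ℤ × ℤ) = 0 := by simp [dn]
    rw [h1]
    positivity
  have hg : Good D b x (x + st i) :=
    ⟨hba hxb, ⟨i, rfl⟩, fun j hj => absurd (hba (hnb j)) hj⟩
  have hR := Reg_meas D b (x + st i)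
  obtain ⟨A, hA⟩ : ∃ A : Set (D → ℝ), A =
    {h | h ∈ Reg D b (x + st i) ∧ ¬ up m x (x + st i) (gl D b h)} := ⟨_, rfl⟩
  have hAm : MeasurableSet A := by
    rw [hA]
    exact hR.inter (qfl_up_meas m x _ (gl_meas D b)).compl
  have hAK : K D b ∩ A = A := by
    refine Set.inter_eq_right.2 fun h hh => ?_
    rw [hA] at hh
    exact hh.1.1
  have hcount : ∀ h ∈ A, m ≤ Nn D b x (x + st i) h + 1 := by
    intro h hh
    rw [hA] at hh
    have h1 := NH_card (i := i) hb (le_refl m) hh.1.1 hh.2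
    refine h1.trans (Nat.add_le_add_right (Finset.card_le_card fun z hz => ?_) 1)
    unfold NH at hz
    unfold Ns
    simp only [Finset.mem_filter] at hz ⊢
    refine ⟨hba (mem_ba.2 ((mem_ba.1 hz.1).trans (by push_cast; linarith))), hz.2.1, hz.2.2.1, ?_⟩
    unfold qf
    exact hz.2.2.2
  have h1 : (75 : ℝ≥0∞) ^ m * volume A ≤ 75 * (C * volume (K D b)) := by
    calc (75 : ℝ≥0∞) ^ m * volume A = ∫⁻ h, A.indicator (fun _ => (75 : ℝ≥0∞) ^ m) h := by
          rw [lintegral_indicator_const hAm]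
      _ ≤ ∫⁻ h, 75 * (Reg D b (x + st i)).indicator
            (fun h => (75 : ℝ≥0∞) ^ (Nn D b x (x + st i) h)) h := by
          refine lintegral_mono fun h => ?_
          by_cases hh : h ∈ A
          · have hh' : h ∈ Reg D b (x + st i) := by
              rw [hA] at hh
              exact hh.1
            rw [Set.indicator_of_mem hh, Set.indicator_of_mem hh', ← pow_succ']
            exact pow_le_pow_right₀ (by norm_num) (hcount h hh)
          · rw [Set.indicator_of_notMem hh]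
            exact zero_le
      _ = 75 * ∫⁻ h, (Reg D b (x + st i)).indicator
            (fun h => (75 : ℝ≥0∞) ^ (Nn D b x (x + st i) h)) h :=
          lintegral_const_mul' _ _ (by norm_num)
      _ ≤ _ := by
          gcongr
          exact HC D b hb x (x + st i) hg
  have hZ0 := qfl_Z (D := D) hb
  have hZt : volume (K D b) ≠ ⊤ := (Z_lt_top D b).ne
  have h2 : (75 : ℝ≥0∞) ^ m * Mu D b A ≤ 75 * C := by
    unfold Mu
    rw [ProbabilityTheory.cond_apply (K_meas D b), hAK]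
    calc (75 : ℝ≥0∞) ^ m * ((volume (K D b))⁻¹ * volume A) =
          (volume (K D b))⁻¹ * ((75 : ℝ≥0∞) ^ m * volume A) := by ring
      _ ≤ (volume (K D b))⁻¹ * (75 * (C * volume (K D b))) := by gcongr
      _ = 75 * C * ((volume (K D b))⁻¹ * volume (K D b)) := by ring
      _ = 75 * C := by rw [ENNReal.inv_mul_cancel hZ0 hZt, mul_one]
  have h3 := ENNReal.toReal_mono (ENNReal.mul_ne_top (by norm_num) hC.ne) h2
  rw [ENNReal.toReal_mul, ENNReal.toReal_mul, ENNReal.toReal_pow] at h3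
  have e75 : (75 : ℝ≥0∞).toReal = 75 := by norm_num
  rw [e75] at h3
  rw [← hA]
  have h4 : (75 : ℝ) ^ m * ((Mu D b).real A) ≤ 75 * C.toReal := h3
  rw [one_div, inv_pow, ← div_eq_mul_inv, le_div_iff₀ (by positivity)]
  linarith

theorem fc5 : ∃ C : ℝ, 0 ≤ C ∧ ∀ (D : Finset (ℤ × ℤ)) (b : ℤ × ℤ → ℝ),
    (∀ z, |b z| ≤ 1 / 2) → ∀ (x : ℤ × ℤ) (i : Fin 6) (m : ℕ), ba x (m + 1) ⊆ D →
    ∫ h, (1 - gt m x i (gl D b h)) ∂(Mu D b) ≤ C * (1 / 75) ^ m := by
  classical
  obtain ⟨C, hC, HC⟩ := exp_moment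
  refine ⟨150 * C.toReal, by positivity, ?_⟩
  intro D b hb x i m hba
  have hP : IsProbabilityMeasure (Mu D b) := prob hb
  obtain ⟨A1, hA1d⟩ : ∃ A1 : Set (D → ℝ), A1 =
    {h | h ∈ Reg D b (x + st i) ∧ ¬ up m x (x + st i) (gl D b h)} := ⟨_, rfl⟩
  obtain ⟨A2, hA2d⟩ : ∃ A2 : Set (D → ℝ), A2 =
    {h | (h ∈ K D b ∧ 0 ≤ gl D b h (x + st i)) ∧
      ¬ up m x (x + st i) (fun z => - gl D b h z)} := ⟨_, rfl⟩
  have hA1 : MeasurableSet A1 := by
    rw [hA1d]
    exact (Reg_meas D b (x + st i)).inter (qfl_up_meas m x _ (gl_meas D b)).compl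
  have hA2 : MeasurableSet A2 := by
    rw [hA2d]
    exact ((K_meas D b).inter (measurableSet_le measurable_const (gl_meas D b _))).inter
      (qfl_up_meas m x _ (fun z => (gl_meas D b z).neg)).compl
  have hK : ∀ᵐ h ∂(Mu D b), h ∈ K D b := ProbabilityTheory.ae_cond_mem (K_meas D b)
  have hone : Integrable (fun _ : D → ℝ => (1 : ℝ)) (Mu D b) := integrable_const 1
  have h1 : ∫ h, (1 - gt m x i (gl D b h)) ∂(Mu D b) ≤
      ∫ h, (A1.indicator (fun _ => (1 : ℝ)) h + A2.indicator (fun _ => (1 : ℝ)) h) ∂(Mu D b) := by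
    refine integral_mono_of_nonneg (ae_of_all _ fun h => ?_)
      ((hone.indicator hA1).add (hone.indicator hA2)) ?_
    · show 0 ≤ 1 - gt m x i (gl D b h)
      rcases (qfl_gt m m x i (gl D b h)).1 with e1 | e1 <;> rw [e1] <;> norm_num
    · filter_upwards [hK] with h hh
      have hn : ∀ A : Set (D → ℝ), 0 ≤ A.indicator (fun _ => (1 : ℝ)) h := fun A =>
        Set.indicator_nonneg (fun _ _ => zero_le_one) _
      have hle : 1 - gt m x i (gl D b h) ≤ 1 := by
        rcases (qfl_gt m m x i (gl D b h)).1 with e1 | e1 <;> rw [e1] <;> norm_num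
      by_cases m1 : h ∈ A1
      · rw [Set.indicator_of_mem m1]
        exact hle.trans (le_add_of_nonneg_right (hn A2))
      · by_cases m2 : h ∈ A2
        · rw [Set.indicator_of_mem m2]
          exact hle.trans (le_add_of_nonneg_left (hn A1))
        · have h3 : gt m x i (gl D b h) = 1 := by
            unfold gt
            rw [if_pos]
            rw [hA1d] at m1
            rw [hA2d] at m2
            by_contra hcon
            push Not at hcon
            rcases le_total (gl D b h (x + st i)) 0 with h4 | h4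
            · exact m1 ⟨⟨hh, h4⟩, hcon.1⟩
            · exact m2 ⟨⟨hh, h4⟩, hcon.2⟩
          rw [h3, sub_self]
          exact add_nonneg (hn A1) (hn A2)
  rw [integral_add (hone.indicator hA1) (hone.indicator hA2), integral_indicator_const _ hA1,
    integral_indicator_const _ hA2, smul_eq_mul, smul_eq_mul, mul_one, mul_one] at h1
  have h2 : (Mu D b).real A1 ≤ 75 * C.toReal * (1 / 75) ^ m := by
    rw [hA1d]
    exact qfn_reg hC HC hb i hba
  have h3 : (Mu D b).real A2 ≤ 75 * C.toReal * (1 / 75) ^ m := by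
    have h4 := qfn_reg hC HC (b := fun z => - b z) (fun z => by rw [abs_neg]; exact hb z) i hba
    have h5 : (Mu D b).real A2 = (Mu D (fun z => - b z)).real
        {h | h ∈ Reg D (fun z => - b z) (x + st i) ∧
          ¬ up m x (x + st i) (gl D (fun z => - b z) h)} := by
      unfold Measure.real
      rw [← (qfl_mp D b).measure_preimage hA2.nullMeasurableSet]
      congr 2
      rw [hA2d]
      ext h
      simp only [mem_preimage, mem_ofPred_eq, qfl_gl', neg_neg, qfl_K, Reg, Left.nonneg_neg_iff]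
    rw [h5]
    exact h4
  calc _ ≤ _ := h1
    _ ≤ 75 * C.toReal * (1 / 75) ^ m + 75 * C.toReal * (1 / 75) ^ m := add_le_add h2 h3
    _ = _ := by ring
/- END qfn -/

/- MODULE qfo
Coercivity on all edges for nice fields: `edge_est` (file Asm) for the field `fun x : D => w x`
and `s → ∞`: `fs D s → 0`, and the facet energy `E2 D b s` stays bounded, because
`Us2 s z ≤ 8 / (s ^ 3 ε ^ 3)` or so for `|z| ≤ 1 - ε` (so `E2` even tends to zero: where
`|H x - H y| > 1 - ε` the difference of the field vanishes). -/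
private theorem qfo_Us2 {s ε z : ℝ} (hs : 1 ≤ s) (hε : 0 < ε) (hz : |z| ≤ 1 - ε) :
    Us2 s z ≤ 1 / ε ^ 3 := by
  have hs0 : 0 < s := by linarith
  have h1 := abs_le.1 hz
  have key : ∀ x : ℝ, ε ≤ |x| → 1 / Real.sqrt (x ^ 2 + 1 / s ^ 4) ^ 3 ≤ 1 / ε ^ 3 := by
    intro x hx
    have h2 : ε ≤ Real.sqrt (x ^ 2 + 1 / s ^ 4) := by
      refine Real.le_sqrt_of_sq_le ?_
      have h3 : ε ^ 2 ≤ x ^ 2 := by
        rw [← sq_abs x]
        exact pow_le_pow_left₀ hε.le hx 2
      have h4 : 0 ≤ 1 / s ^ 4 := by positivity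
      linarith
    exact one_div_le_one_div_of_le (by positivity) (pow_le_pow_left₀ hε.le h2 3)
  have h2 := key (z - 1) (by rw [abs_of_nonpos (by linarith [h1.2])]; linarith [h1.2])
  have h3 := key (z + 1) (by rw [abs_of_nonneg (by linarith [h1.1])]; linarith [h1.1])
  unfold Us2
  have h4 : s / 2 * (1 / s ^ 4) ≤ 1 / 2 := by
    rw [div_mul_div_comm, mul_one, div_le_div_iff₀ (by positivity) (by norm_num)]
    have h5 : s ≤ s ^ 4 := le_self_pow₀ hs (by norm_num)
    linarith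
  have h5 : 0 ≤ s / 2 * (1 / s ^ 4) := by positivity
  have h6 : (0 : ℝ) ≤ 1 / ε ^ 3 := by positivity
  calc _ ≤ s / 2 * (1 / s ^ 4) * (1 / ε ^ 3 + 1 / ε ^ 3) :=
        mul_le_mul_of_nonneg_left (add_le_add h2 h3) h5
    _ ≤ 1 / 2 * (1 / ε ^ 3 + 1 / ε ^ 3) := mul_le_mul_of_nonneg_right h4 (by positivity)
    _ = _ := by ring

private theorem qfo_gr (D : Finset (ℤ × ℤ)) (f : (D → ℝ) → ℝ) (h : D → ℝ) :
    ∑ y ∈ D, (pz D y f h) ^ 2 = gr f h := by
  unfold gr
  rw [← Finset.sum_coe_sort D (fun y => (pz D y f h) ^ 2)]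
  refine Finset.sum_congr rfl fun y _ => ?_
  unfold pz
  rw [dif_pos y.2]

private theorem qfo_grc {ι : Type*} [Fintype ι] [DecidableEq ι] {f : (ι → ℝ) → ℝ}
    (hf : ContDiff ℝ 1 f) : Continuous (gr f) := by
  unfold gr pd
  have h1 : Continuous (fderiv ℝ f) := hf.continuous_fderiv (by norm_num)
  exact continuous_finsetSum _ fun x _ => (h1.clm_apply continuous_const).pow 2

private theorem qfo_lt {D : Finset (ℤ × ℤ)} {b : ℤ × ℤ → ℝ} {f : (D → ℝ) → ℝ}
    (hf : Continuous f) : ∫⁻ h in K D b, ENNReal.ofReal (f h) < ⊤ :=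
  Integrable.lintegral_lt_top (hf.continuousOn.integrableOn_compact (qfl_compact D b))

private theorem qfo_fs (D : Finset (ℤ × ℤ)) :
    Filter.Tendsto (fs D) Filter.atTop (nhds 0) := by
  unfold fs
  have h1 : Filter.Tendsto (fun s : ℝ => 6 * (2 * ((D.card : ℝ) + 1)) ^ D.card / s)
      Filter.atTop (nhds 0) := tendsto_const_nhds.div_atTop Filter.tendsto_id
  have h2 := ENNReal.tendsto_ofReal h1
  rw [ENNReal.ofReal_zero] at h2
  have h3 : Filter.Tendsto (fun s : ℝ => ENNReal.ofReal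
      (6 * (2 * ((D.card : ℝ) + 1)) ^ D.card / s) ^ (1 / 2 : ℝ)) Filter.atTop (nhds 0) := by
    have h4 := ((ENNReal.continuous_rpow_const (y := (1 / 2 : ℝ))).tendsto 0).comp h2
    rw [ENNReal.zero_rpow_of_pos (by norm_num)] at h4
    exact h4
  have h5 := ENNReal.Tendsto.const_mul (a := (2 : ℝ≥0∞) * 5 ^ D.card) h3
    (Or.inr (ENNReal.mul_ne_top (by norm_num) (ENNReal.pow_ne_top (by norm_num))))
  rw [mul_zero] at h5
  exact h5

private theorem qfo_lim {D : Finset (ℤ × ℤ)} {L P B : ℝ≥0∞} (hB : B ≠ ⊤)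
    (H : ∀ s : ℝ, 1 ≤ s → L ≤ P + 8 * fs D s * B) : L ≤ P := by
  have h1 : Filter.Tendsto (fun s => P + 8 * fs D s * B) Filter.atTop (nhds P) := by
    have h2 := ENNReal.Tendsto.const_mul (a := 8) (qfo_fs D) (Or.inr (by norm_num))
    have h3 := ENNReal.Tendsto.mul_const (b := B) h2 (Or.inr hB)
    have h4 := h3.const_add P
    rw [mul_zero, zero_mul, add_zero] at h4
    exact h4
  refine ge_of_tendsto h1 ?_
  filter_upwards [Filter.eventually_ge_atTop (1 : ℝ)] with s hs
  exact H s hs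

private theorem qfo_sqrt {D : Finset (ℤ × ℤ)} {b : ℤ × ℤ → ℝ} (f : (D → ℝ) → ℝ) :
    Real.sqrt (∫ h, f h ∂(Mu D b)) =
      Real.sqrt ((Z D b).toReal)⁻¹ * Real.sqrt (∫ h in K D b, f h) := by
  unfold Mu ProbabilityTheory.cond
  rw [integral_smul_measure, ENNReal.toReal_inv, smul_eq_mul,
    Real.sqrt_mul (inv_nonneg.2 ENNReal.toReal_nonneg)]
  rfl

theorem nice_edge : ∃ C : ℝ, 0 ≤ C ∧ ∀ (D : Finset (ℤ × ℤ)) (b : ℤ × ℤ → ℝ),
    (∀ z, |b z| ≤ 1 / 2) → ∀ w : ℤ × ℤ → (D → ℝ) → ℝ, Nice D b w →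
    ∀ x ∈ D, ∀ i : Fin 6,
    ∫ h, |w (x + st i) h - w x h| ∂(Mu D b) ≤
      C * (Real.sqrt (∫ h, ∑ y ∈ D, (pz D y (w x) h) ^ 2 ∂(Mu D b)) +
        Real.sqrt (∫ h, ∑ y ∈ D, (pz D y (w (x + st i)) h) ^ 2 ∂(Mu D b))) := by
  classical
  obtain ⟨C, hC, HC⟩ := loc_exists
  refine ⟨4 * C.toReal, by positivity, ?_⟩
  intro D b hb w hw x hx i
  have hsm : ∀ z, ContDiff ℝ 1 (w z) := fun z => (hw.sm z).of_le (by norm_num)
  obtain ⟨W, hW⟩ : ∃ W : D → (D → ℝ) → ℝ, W = fun z => w z.1 := ⟨_, rfl⟩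
  have hWs : ∀ z, ContDiff ℝ 1 (W z) := fun z => by
    rw [hW]
    exact hsm z.1
  have hg0 : ∀ z h, g0 D (fun y => W y h) z = w z h := by
    intro z h
    unfold g0 gl
    split_ifs with hz
    · rw [hW]
    · exact (hw.off z hz h).symm
  obtain ⟨ε, hε, ht⟩ := hw.tie
  -- the energies are finite
  have hET : ET D b W < ⊤ := by
    unfold ET
    rw [ENNReal.sum_lt_top]
    intro z _
    exact qfo_lt (qfo_grc (hWs z))
  obtain ⟨A, hAd⟩ : ∃ A : ℝ≥0∞, A = ∑ z ∈ D, ∑ j : Fin 6, ∫⁻ h in K D b,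
    ENNReal.ofReal (1 / ε ^ 3 * (w z h - w (z + st j) h) ^ 2) := ⟨_, rfl⟩
  have hA : A < ⊤ := by
    rw [hAd, ENNReal.sum_lt_top]
    intro z _
    rw [ENNReal.sum_lt_top]
    intro j _
    exact qfo_lt ((((hsm z).continuous.sub (hsm _).continuous).pow 2).const_mul _)
  have hE2 : ∀ s : ℝ, 1 ≤ s → E2 D b s W ≤ A := by
    intro s hs
    rw [hAd]
    unfold E2
    refine Finset.sum_le_sum fun z hz => Finset.sum_le_sum fun j _ => lintegral_mono fun h => ?_
    rw [hg0, hg0]
    refine ENNReal.ofReal_le_ofReal ?_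
    rcases le_or_gt |gl D b h z - gl D b h (z + st j)| (1 - ε) with h1 | h1
    · exact mul_le_mul_of_nonneg_right (qfo_Us2 hs hε h1) (sq_nonneg _)
    · rw [ht z hz j h h1, sub_self]
      norm_num
  have hL : ∫⁻ h in K D b, ENNReal.ofReal |w x h - w (x + st i) h| ≤
      4 * C * Z D b ^ (1 / 2 : ℝ) *
        (Tg D b W x ^ (1 / 2 : ℝ) + Tg D b W (x + st i) ^ (1 / 2 : ℝ)) := by
    refine qfo_lim (D := D) (B := A ^ (1 / 2 : ℝ) + ET D b W ^ (1 / 2 : ℝ))
      (ENNReal.add_ne_top.2 ⟨(ENNReal.rpow_lt_top_of_nonneg (by norm_num) hA.ne).ne,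
        (ENNReal.rpow_lt_top_of_nonneg (by norm_num) hET.ne).ne⟩) fun s hs => ?_
    have h1 := edge_est HC hb hWs hs hx i
    simp only [hg0] at h1
    refine h1.trans (add_le_add le_rfl (mul_le_mul' le_rfl (add_le_add ?_ le_rfl)))
    exact ENNReal.rpow_le_rpow (hE2 s hs) (by norm_num)
  -- real integrals
  have hTg : ∀ z, Tg D b W z ^ (1 / 2 : ℝ) ≤ ENNReal.ofReal
      (Real.sqrt (∫ h in K D b, ∑ y ∈ D, (pz D y (w z) h) ^ 2)) := by
    intro z
    unfold Tg
    split_ifs with hz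
    · have h1 : Gr D b (W ⟨z, hz⟩) =
          ENNReal.ofReal (∫ h in K D b, ∑ y ∈ D, (pz D y (w z) h) ^ 2) := by
        unfold Gr
        simp only [qfo_gr]
        rw [ofReal_integral_eq_lintegral_ofReal
          ((qfo_grc (hsm z)).continuousOn.integrableOn_compact (qfl_compact D b))
          (ae_of_all _ fun h => Finset.sum_nonneg fun _ _ => sq_nonneg _), hW]
      rw [h1, Real.sqrt_eq_rpow, ENNReal.ofReal_rpow_of_nonneg (integral_nonneg fun h =>
        Finset.sum_nonneg fun _ _ => sq_nonneg _) (by norm_num)]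
    · rw [ENNReal.zero_rpow_of_pos (by norm_num)]
      exact zero_le
  have hZt : Z D b ≠ ⊤ := (Z_lt_top D b).ne
  have hZr : Z D b ^ (1 / 2 : ℝ) = ENNReal.ofReal (Real.sqrt (Z D b).toReal) := by
    rw [Real.sqrt_eq_rpow, ← ENNReal.ofReal_rpow_of_nonneg ENNReal.toReal_nonneg (by norm_num),
      ENNReal.ofReal_toReal hZt]
  have hCr : C = ENNReal.ofReal C.toReal := (ENNReal.ofReal_toReal hC.ne).symm
  have hreal : ∫ h in K D b, |w (x + st i) h - w x h| ≤
      4 * C.toReal * Real.sqrt (Z D b).toReal *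
        (Real.sqrt (∫ h in K D b, ∑ y ∈ D, (pz D y (w x) h) ^ 2) +
          Real.sqrt (∫ h in K D b, ∑ y ∈ D, (pz D y (w (x + st i)) h) ^ 2)) := by
    have hi : Integrable (fun h => |w (x + st i) h - w x h|) (volume.restrict (K D b)) :=
      (((hsm (x + st i)).continuous.sub (hsm x).continuous).abs).continuousOn.integrableOn_compact
        (qfl_compact D b)
    rw [← ENNReal.ofReal_le_ofReal_iff (by positivity),
      ofReal_integral_eq_lintegral_ofReal hi (ae_of_all _ fun h => abs_nonneg _)]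
    simp only [abs_sub_comm (w (x + st i) _)]
    refine hL.trans ?_
    rw [ENNReal.ofReal_mul (by positivity), ENNReal.ofReal_mul (by positivity),
      ENNReal.ofReal_mul (by norm_num), ENNReal.ofReal_add (Real.sqrt_nonneg _)
        (Real.sqrt_nonneg _), ← hCr, ← hZr]
    have e4 : ENNReal.ofReal 4 = 4 := by norm_num
    rw [e4]
    exact mul_le_mul' le_rfl (add_le_add (hTg x) (hTg _))
  rw [qfo_sqrt, qfo_sqrt]
  have hmu : ∫ h, |w (x + st i) h - w x h| ∂(Mu D b) =
      ((Z D b).toReal)⁻¹ * ∫ h in K D b, |w (x + st i) h - w x h| := by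
    unfold Mu ProbabilityTheory.cond
    rw [integral_smul_measure, ENNReal.toReal_inv, smul_eq_mul]
    rfl
  rw [hmu]
  have hz0 : 0 ≤ (Z D b).toReal := ENNReal.toReal_nonneg
  have hzz : ((Z D b).toReal)⁻¹ * Real.sqrt (Z D b).toReal ≤ Real.sqrt ((Z D b).toReal)⁻¹ := by
    rw [Real.sqrt_inv]
    rcases hz0.eq_or_lt with h0 | h0
    · rw [← h0]
      simp
    · have h1 : 0 < Real.sqrt (Z D b).toReal := Real.sqrt_pos.2 h0
      rw [inv_mul_le_iff₀ h0, ← div_eq_mul_inv, le_div_iff₀ h1, Real.mul_self_sqrt hz0]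
  have hn : 0 ≤ Real.sqrt (∫ h in K D b, ∑ y ∈ D, (pz D y (w x) h) ^ 2) +
      Real.sqrt (∫ h in K D b, ∑ y ∈ D, (pz D y (w (x + st i)) h) ^ 2) := by positivity
  calc ((Z D b).toReal)⁻¹ * ∫ h in K D b, |w (x + st i) h - w x h| ≤
        ((Z D b).toReal)⁻¹ * (4 * C.toReal * Real.sqrt (Z D b).toReal *
        (Real.sqrt (∫ h in K D b, ∑ y ∈ D, (pz D y (w x) h) ^ 2) +
          Real.sqrt (∫ h in K D b, ∑ y ∈ D, (pz D y (w (x + st i)) h) ^ 2))) :=
        mul_le_mul_of_nonneg_left hreal (inv_nonneg.2 hz0)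
    _ = (4 * C.toReal * (Real.sqrt (∫ h in K D b, ∑ y ∈ D, (pz D y (w x) h) ^ 2) +
          Real.sqrt (∫ h in K D b, ∑ y ∈ D, (pz D y (w (x + st i)) h) ^ 2))) *
          (((Z D b).toReal)⁻¹ * Real.sqrt (Z D b).toReal) := by ring
    _ ≤ (4 * C.toReal * (Real.sqrt (∫ h in K D b, ∑ y ∈ D, (pz D y (w x) h) ^ 2) +
          Real.sqrt (∫ h in K D b, ∑ y ∈ D, (pz D y (w (x + st i)) h) ^ 2))) *
          Real.sqrt ((Z D b).toReal)⁻¹ :=
        mul_le_mul_of_nonneg_left hzz (by positivity)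
    _ = _ := by ring
/- END qfo -/

end Pool.Agent.Hmk
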