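import Pool.Agent.Hmk.Us

/-!
# Hmk: the facet term (PART B)
-/

set_option autoImplicit false

open MeasureTheory Set Filter
open scoped ENNReal

noncomputable section

namespace Pool.Agent.Hmk

/-- the part of `Qset` within distance `ε` of the facet -/
def Qe (D : Finset (ℤ × ℤ)) (b : ℤ × ℤ → ℝ) (u v : ℤ × ℤ) (ε : ℝ) : Set (D → ℝ) :=
  {h | h ∈ Qset D b u v ∧ gl D b h v + 1 - ε ≤ gl D b h u}

/- MODULE ta
`fib_le` for the coordinate `u`.  Fix the other coordinates, `c = H v + 1` (`v ≠ u`).  The fibre `S`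
of `Qset` is contained in `[c - 1, c]` and upwards closed in `(-∞, c]` (`Qset_up`), the fibre of `Qe`
is `T = S ∩ [c - ε, c]`, and `ε |S| ≤ |T|` (either `S ⊆ [c - ε, c]`, or `[c - ε, c] ⊆ S`).  The
function `g (Pm h)` does not depend on the coordinate `u`. -/
private theorem ta_upd {D : Finset (ℤ × ℤ)} {u : ℤ × ℤ} (hu : u ∈ D) (h : D → ℝ) (r : ℝ) :
    Function.update h ⟨u, hu⟩ r = fun x => if x.1 = u then r else h x := by
  funext x
  by_cases hx : x.1 = u
  · have : x = ⟨u, hu⟩ := Subtype.ext hx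
    subst this
    simp
  · rw [Function.update_of_ne (fun he => hx (by rw [he])), if_neg hx]

private theorem ta_glu {D : Finset (ℤ × ℤ)} {b : ℤ × ℤ → ℝ} {u : ℤ × ℤ} (hu : u ∈ D)
    (h : D → ℝ) (r : ℝ) : gl D b (Function.update h ⟨u, hu⟩ r) u = r := by
  rw [gl_mem hu, Function.update_self]

private theorem ta_glv {D : Finset (ℤ × ℤ)} {b : ℤ × ℤ → ℝ} {u v : ℤ × ℤ} (hg : Good D b u v)
    (h : D → ℝ) (r : ℝ) : gl D b (Function.update h ⟨u, hg.hu⟩ r) v = gl D b h v := by
  by_cases hvD : v ∈ D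
  · rw [gl_mem hvD, gl_mem hvD, Function.update_of_ne]
    intro he
    exact hg.ne (congrArg Subtype.val he).symm
  · rw [gl_not_mem hvD, gl_not_mem hvD]

private theorem ta_Pm {D : Finset (ℤ × ℤ)} {b : ℤ × ℤ → ℝ} {u v : ℤ × ℤ} (hg : Good D b u v)
    (h : D → ℝ) (r : ℝ) : Pm D b u v (Function.update h ⟨u, hg.hu⟩ r) =
      Function.update h ⟨u, hg.hu⟩ (gl D b h v + 1) := by
  funext x
  unfold Pm
  rw [ta_glv hg]
  by_cases hx : x.1 = u
  · have : x = ⟨u, hg.hu⟩ := Subtype.ext hx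
    subst this
    simp
  · have hne : x ≠ ⟨u, hg.hu⟩ := fun he => hx (by rw [he])
    rw [if_neg hx, Function.update_of_ne hne, Function.update_of_ne hne]

private theorem ta_bd {D : Finset (ℤ × ℤ)} {b : ℤ × ℤ → ℝ} {u v : ℤ × ℤ} (hg : Good D b u v)
    (h : D → ℝ) {r : ℝ} (hr : Function.update h ⟨u, hg.hu⟩ r ∈ Qset D b u v) :
    gl D b h v ≤ r ∧ r ≤ gl D b h v + 1 := by
  obtain ⟨_, _, _, h4, h5⟩ := hr
  rw [ta_glv hg, ta_glu hg.hu] at h4 h5
  exact ⟨h4, h5⟩

private theorem ta_up {D : Finset (ℤ × ℤ)} {b : ℤ × ℤ → ℝ} {u v : ℤ × ℤ} (hg : Good D b u v)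
    (h : D → ℝ) {r t : ℝ} (hr : Function.update h ⟨u, hg.hu⟩ r ∈ Qset D b u v) (h1 : r ≤ t)
    (h2 : t ≤ gl D b h v + 1) : Function.update h ⟨u, hg.hu⟩ t ∈ Qset D b u v := by
  have := Qset_up hg hr (t := t) (by rw [ta_glu]; exact h1) (by rw [ta_glv hg]; exact h2)
  rw [ta_upd]
  convert this using 1
  funext x
  by_cases hx : x.1 = u
  · simp [hx]
  · simp only [hx, if_false]
    rw [Function.update_of_ne (fun he => hx (by rw [he]))]

private theorem ta_Qe {D : Finset (ℤ × ℤ)} {b : ℤ × ℤ → ℝ} {u v : ℤ × ℤ} (hg : Good D b u v)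
    (h : D → ℝ) (ε r : ℝ) : Function.update h ⟨u, hg.hu⟩ r ∈ Qe D b u v ε ↔
      Function.update h ⟨u, hg.hu⟩ r ∈ Qset D b u v ∧ gl D b h v + 1 - ε ≤ r := by
  show _ ∧ _ ↔ _
  rw [ta_glv hg, ta_glu hg.hu]

private theorem ta_ind {α : Type*} (A : Set α) (J : Set ℝ) (f : ℝ → α)
    (hJ : ∀ r, r ∈ J ↔ f r ∈ A) (F : α → ℝ≥0∞) (r : ℝ) :
    A.indicator F (f r) = J.indicator (fun r => F (f r)) r := by
  by_cases hr : r ∈ J
  · rw [Set.indicator_of_mem hr, Set.indicator_of_mem ((hJ r).1 hr)]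
  · rw [Set.indicator_of_notMem hr, Set.indicator_of_notMem (fun h => hr ((hJ r).2 h))]

private theorem ta_mPm (D : Finset (ℤ × ℤ)) (b : ℤ × ℤ → ℝ) (u v : ℤ × ℤ) :
    Measurable (Pm D b u v) := by
  refine measurable_pi_lambda _ fun x => ?_
  unfold Pm
  by_cases hx : x.1 = u
  · simp only [hx, if_true]
    exact (gl_meas D b v).add_const 1
  · simp only [hx, if_false]
    exact measurable_pi_apply x

theorem Qe_meas (D : Finset (ℤ × ℤ)) (b : ℤ × ℤ → ℝ) (u v : ℤ × ℤ) (ε : ℝ) :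
    MeasurableSet (Qe D b u v ε) := by
  have h1 : Qe D b u v ε = Qset D b u v ∩ {h | gl D b h v + 1 - ε ≤ gl D b h u} := rfl
  rw [h1]
  exact (Qset_meas D b u v).inter
    (measurableSet_le (((gl_meas D b v).add_const 1).sub_const ε) (gl_meas D b u))

theorem facet_one {D : Finset (ℤ × ℤ)} {b : ℤ × ℤ → ℝ} {u v : ℤ × ℤ} (hg : Good D b u v)
    {g : (D → ℝ) → ℝ} (hC : ContDiff ℝ 1 g) {ε : ℝ} (h0 : 0 < ε) (h1 : ε ≤ 1) :
    ∫⁻ h in Qset D b u v, ENNReal.ofReal |g (Pm D b u v h)| ≤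
      ENNReal.ofReal (1 / ε) * ∫⁻ h in Qe D b u v ε, ENNReal.ofReal |g (Pm D b u v h)| := by
  have hQ := Qset_meas D b u v
  have hE := Qe_meas D b u v ε
  have hgm : Measurable g := hC.continuous.measurable
  have m1 : Measurable (fun h => ENNReal.ofReal |g (Pm D b u v h)|) :=
    ENNReal.measurable_ofReal.comp (hgm.comp (ta_mPm D b u v)).abs
  rw [← lintegral_indicator hQ, ← lintegral_indicator hE,
    ← lintegral_const_mul _ (m1.indicator hE)]
  refine fib_le (⟨u, hg.hu⟩ : D) (m1.indicator hQ) ((m1.indicator hE).const_mul _) fun h => ?_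
  set c := gl D b h v with hc
  set J : Set ℝ := {r | Function.update h ⟨u, hg.hu⟩ r ∈ Qset D b u v} with hJ
  set T : Set ℝ := {r | Function.update h ⟨u, hg.hu⟩ r ∈ Qe D b u v ε} with hT
  have hJm : MeasurableSet J := measurable_update h hQ
  have hTm : MeasurableSet T := measurable_update h hE
  have hTJ : ∀ r, r ∈ T ↔ r ∈ J ∧ c + 1 - ε ≤ r := fun r => ta_Qe hg h ε r
  have hvol : ENNReal.ofReal ε * volume J ≤ volume T := by
    by_cases hlow : ∃ r ∈ J, r < c + 1 - ε
    · obtain ⟨r, hr, hrl⟩ := hlow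
      have h2 : Icc (c + 1 - ε) (c + 1) ⊆ T := by
        intro t ht
        exact (hTJ t).2 ⟨ta_up hg h hr (hrl.le.trans ht.1) ht.2, ht.1⟩
      have h3 : volume J ≤ 1 := by
        refine (measure_mono (t := Icc c (c + 1)) fun r hr => ?_).trans (le_of_eq ?_)
        · exact ta_bd hg h hr
        · rw [Real.volume_Icc]
          norm_num
      calc ENNReal.ofReal ε * volume J ≤ ENNReal.ofReal ε * 1 := mul_le_mul_right h3 _
        _ = volume (Icc (c + 1 - ε) (c + 1)) := by
          rw [Real.volume_Icc, mul_one]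
          congr 1
          ring
        _ ≤ volume T := measure_mono h2
    · push Not at hlow
      have h2 : J ⊆ T := fun r hr => (hTJ r).2 ⟨hr, hlow r hr⟩
      calc ENNReal.ofReal ε * volume J ≤ 1 * volume J := by
            refine mul_le_mul_left ?_ _
            rw [← ENNReal.ofReal_one]
            exact ENNReal.ofReal_le_ofReal h1
        _ = volume J := one_mul _
        _ ≤ volume T := measure_mono h2
  have hJi : ∀ r, r ∈ J ↔ Function.update h ⟨u, hg.hu⟩ r ∈ Qset D b u v := fun r => Iff.rfl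
  have hTi : ∀ r, r ∈ T ↔ Function.update h ⟨u, hg.hu⟩ r ∈ Qe D b u v ε := fun r => Iff.rfl
  simp only [ta_ind _ J _ hJi, ta_ind _ T _ hTi, ta_Pm hg]
  rw [lintegral_const_mul _ (measurable_const.indicator hTm), lintegral_indicator hJm,
    lintegral_indicator hTm, setLIntegral_const, setLIntegral_const]
  set κ : ℝ≥0∞ := ENNReal.ofReal |g (Function.update h ⟨u, hg.hu⟩ (gl D b h v + 1))| with hκ
  have h4 : ENNReal.ofReal (1 / ε) * ENNReal.ofReal ε = 1 := by
    rw [← ENNReal.ofReal_mul (by positivity), one_div_mul_cancel h0.ne', ENNReal.ofReal_one]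
  calc κ * volume J = κ * (ENNReal.ofReal (1 / ε) * ENNReal.ofReal ε * volume J) := by
        rw [h4, one_mul]
    _ = ENNReal.ofReal (1 / ε) * (κ * (ENNReal.ofReal ε * volume J)) := by ring
    _ ≤ ENNReal.ofReal (1 / ε) * (κ * volume T) :=
        mul_le_mul_right (mul_le_mul_right hvol _) _
/- END ta -/

/- MODULE tb
`|g (Pm h)| ≤ |g h| + ∫_{h u}^{c} |∂_u g (update h u r)| dr`, integrated over the fibre `T` of `Qe`
(length `≤ ε`; `r ≥ h u ∈ T`, `r ≤ c` implies `r ∈ T`). -/
private theorem tb_grc {ι : Type*} [Fintype ι] [DecidableEq ι] {g : (ι → ℝ) → ℝ}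
    (hC : ContDiff ℝ 1 g) : Continuous (gr g) := by
  unfold gr
  refine continuous_finsetSum _ fun x _ => Continuous.pow ?_ 2
  unfold pd
  exact (hC.continuous_fderiv (by norm_num)).clm_apply continuous_const

private theorem tb_ftc {ι : Type*} [Fintype ι] [DecidableEq ι] {g : (ι → ℝ) → ℝ}
    (hC : ContDiff ℝ 1 g) (h : ι → ℝ) (u : ι) {r c : ℝ} (hrc : r ≤ c) :
    ENNReal.ofReal |g (Function.update h u c)| ≤ ENNReal.ofReal |g (Function.update h u r)| +
      ∫⁻ t in Icc r c, ENNReal.ofReal (Real.sqrt (gr g (Function.update h u t))) := by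
  have hd : ∀ t, HasDerivAt (fun t => g (Function.update h u t))
      (pd u g (Function.update h u t)) t := by
    intro t
    have h1 : HasFDerivAt g (fderiv ℝ g (Function.update h u t)) (Function.update h u t) :=
      (hC.differentiable (by norm_num) _).hasFDerivAt
    exact h1.comp_hasDerivAt t (hasDerivAt_update h u t)
  have hcont : Continuous (fun t => pd u g (Function.update h u t)) := by
    unfold pd
    exact ((hC.continuous_fderiv (by norm_num)).comp
      (continuous_const.update u continuous_id)).clm_apply continuous_const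
  have hI : ∫ t in r..c, pd u g (Function.update h u t) =
      g (Function.update h u c) - g (Function.update h u r) :=
    intervalIntegral.integral_eq_sub_of_hasDerivAt (fun t _ => hd t)
      (hcont.intervalIntegrable _ _)
  have h2 : ENNReal.ofReal |g (Function.update h u c) - g (Function.update h u r)| ≤
      ∫⁻ t in Icc r c, ENNReal.ofReal (Real.sqrt (gr g (Function.update h u t))) := by
    rw [← hI, intervalIntegral.integral_of_le hrc, ← Real.enorm_eq_ofReal_abs]
    refine (enorm_integral_le_lintegral_enorm _).trans ?_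
    refine (lintegral_mono_set Set.Ioc_subset_Icc_self).trans ?_
    refine lintegral_mono fun t => ?_
    rw [Real.enorm_eq_ofReal_abs]
    refine ENNReal.ofReal_le_ofReal (Real.abs_le_sqrt ?_)
    unfold gr
    exact Finset.single_le_sum (f := fun x => (pd x g (Function.update h u t)) ^ 2)
      (fun x _ => sq_nonneg _) (Finset.mem_univ u)
  calc ENNReal.ofReal |g (Function.update h u c)|
      ≤ ENNReal.ofReal (|g (Function.update h u r)| +
          |g (Function.update h u c) - g (Function.update h u r)|) := by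
        refine ENNReal.ofReal_le_ofReal ?_
        have := abs_sub_abs_le_abs_sub (g (Function.update h u c)) (g (Function.update h u r))
        linarith
    _ = ENNReal.ofReal |g (Function.update h u r)| +
          ENNReal.ofReal |g (Function.update h u c) - g (Function.update h u r)| :=
        ENNReal.ofReal_add (abs_nonneg _) (abs_nonneg _)
    _ ≤ _ := add_le_add_right h2 _

theorem facet_two {D : Finset (ℤ × ℤ)} {b : ℤ × ℤ → ℝ} {u v : ℤ × ℤ} (hg : Good D b u v)
    {g : (D → ℝ) → ℝ} (hC : ContDiff ℝ 1 g) {ε : ℝ} (h0 : 0 < ε) (h1 : ε ≤ 1) :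
    ∫⁻ h in Qe D b u v ε, ENNReal.ofReal |g (Pm D b u v h)| ≤
      (∫⁻ h in Qe D b u v ε, ENNReal.ofReal |g h|) +
      ENNReal.ofReal ε * ∫⁻ h in Qe D b u v ε, ENNReal.ofReal (Real.sqrt (gr g h)) := by
  have hE := Qe_meas D b u v ε
  have hgm : Measurable g := hC.continuous.measurable
  have m1 : Measurable (fun h => ENNReal.ofReal |g (Pm D b u v h)|) :=
    ENNReal.measurable_ofReal.comp (hgm.comp (ta_mPm D b u v)).abs
  have m2 : Measurable (fun h => ENNReal.ofReal |g h|) :=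
    ENNReal.measurable_ofReal.comp hgm.abs
  have m3 : Measurable (fun h => ENNReal.ofReal (Real.sqrt (gr g h))) :=
    ENNReal.measurable_ofReal.comp (tb_grc hC).measurable.sqrt
  rw [← lintegral_const_mul _ m3, ← lintegral_add_left m2, ← lintegral_indicator hE,
    ← lintegral_indicator hE]
  refine fib_le (⟨u, hg.hu⟩ : D) (m1.indicator hE) ((m2.add (m3.const_mul _)).indicator hE)
    fun h => ?_
  set c := gl D b h v with hc
  set T : Set ℝ := {r | Function.update h ⟨u, hg.hu⟩ r ∈ Qe D b u v ε} with hT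
  have hTm : MeasurableSet T := measurable_update h hE
  have hTJ : ∀ r, r ∈ T ↔ Function.update h ⟨u, hg.hu⟩ r ∈ Qset D b u v ∧ c + 1 - ε ≤ r :=
    fun r => ta_Qe hg h ε r
  have hTb : T ⊆ Icc (c + 1 - ε) (c + 1) := fun r hr =>
    ⟨((hTJ r).1 hr).2, (ta_bd hg h ((hTJ r).1 hr).1).2⟩
  have hTup : ∀ r ∈ T, Icc r (c + 1) ⊆ T := by
    intro r hr t ht
    exact (hTJ t).2 ⟨ta_up hg h ((hTJ r).1 hr).1 ht.1 ht.2, ((hTJ r).1 hr).2.trans ht.1⟩
  have hTv : volume T ≤ ENNReal.ofReal ε := by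
    refine (measure_mono hTb).trans (le_of_eq ?_)
    rw [Real.volume_Icc]
    congr 1
    ring
  have hTi : ∀ r, r ∈ T ↔ Function.update h ⟨u, hg.hu⟩ r ∈ Qe D b u v ε := fun r => Iff.rfl
  simp only [ta_ind _ T _ hTi, ta_Pm hg]
  rw [lintegral_indicator hTm, lintegral_indicator hTm]
  have mu1 : Measurable (fun t => ENNReal.ofReal |g (Function.update h ⟨u, hg.hu⟩ t)|) :=
    m2.comp (measurable_update h)
  have mu3 : Measurable (fun t => ENNReal.ofReal
      (Real.sqrt (gr g (Function.update h ⟨u, hg.hu⟩ t)))) := m3.comp (measurable_update h)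
  set A : ℝ≥0∞ := ∫⁻ t in T, ENNReal.ofReal
    (Real.sqrt (gr g (Function.update h ⟨u, hg.hu⟩ t))) with hA
  calc ∫⁻ _r in T, ENNReal.ofReal |g (Function.update h ⟨u, hg.hu⟩ (gl D b h v + 1))|
      ≤ ∫⁻ r in T, (ENNReal.ofReal |g (Function.update h ⟨u, hg.hu⟩ r)| + A) := by
        refine setLIntegral_mono' hTm fun r hr => ?_
        refine (tb_ftc hC h ⟨u, hg.hu⟩ (hTb hr).2).trans ?_
        exact add_le_add_right (lintegral_mono_set (hTup r hr)) _
    _ = (∫⁻ r in T, ENNReal.ofReal |g (Function.update h ⟨u, hg.hu⟩ r)|) + A * volume T := by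
        rw [lintegral_add_left mu1, setLIntegral_const]
    _ ≤ (∫⁻ r in T, ENNReal.ofReal |g (Function.update h ⟨u, hg.hu⟩ r)|) +
          ENNReal.ofReal ε * A := by
        refine add_le_add_right ?_ _
        rw [mul_comm]
        exact mul_le_mul_left hTv _
    _ = _ := by
        rw [lintegral_add_left mu1, lintegral_const_mul _ mu3]
/- END tb -/

/- MODULE tc
`fib_le` for the coordinate `u`: the fibre of `Qe` has length `≤ ε`, and is empty unless
`|h x| ≤ |D| + 1` for all `x ≠ u` (`K_bdd`); compare with `ε` times the indicator of the box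
`{|h x| ≤ |D| + 1 for all x}`. -/
theorem Qe_vol {D : Finset (ℤ × ℤ)} {b : ℤ × ℤ → ℝ} (hb : ∀ z, |b z| ≤ 1 / 2) {u v : ℤ × ℤ}
    (hg : Good D b u v) {ε : ℝ} (h0 : 0 < ε) (h1 : ε ≤ 1) :
    volume (Qe D b u v ε) ≤
      ENNReal.ofReal ε * ENNReal.ofReal ((2 * ((D.card : ℝ) + 1)) ^ D.card) := by
  have hE := Qe_meas D b u v ε
  set N : ℝ := (D.card : ℝ) + 1 with hN
  have hN1 : 1 ≤ N := by
    rw [hN]
    have : (0 : ℝ) ≤ D.card := Nat.cast_nonneg _
    linarith
  set B : Set (D → ℝ) := Icc (fun _ => -N) (fun _ => N) with hB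
  have hBm : MeasurableSet B := measurableSet_Icc
  have hBv : volume B = ENNReal.ofReal ((2 * N) ^ D.card) := by
    rw [hB, Real.volume_Icc_pi]
    simp only [Finset.prod_const, Finset.card_univ, Fintype.card_coe]
    rw [← ENNReal.ofReal_pow (by linarith)]
    congr 2
    ring
  have hint : ∫⁻ h, (Qe D b u v ε).indicator (fun _ => (1 : ℝ≥0∞)) h ≤
      ∫⁻ h, B.indicator (fun _ => ENNReal.ofReal ε) h := by
    refine fib_le (⟨u, hg.hu⟩ : D) (measurable_const.indicator hE)
      (measurable_const.indicator hBm) fun h => ?_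
    set c := gl D b h v with hc
    set T : Set ℝ := {r | Function.update h ⟨u, hg.hu⟩ r ∈ Qe D b u v ε} with hT
    set S : Set ℝ := {r | Function.update h ⟨u, hg.hu⟩ r ∈ B} with hS
    have hTm : MeasurableSet T := measurable_update h hE
    have hSm : MeasurableSet S := measurable_update h hBm
    have hTi : ∀ r, r ∈ T ↔ Function.update h ⟨u, hg.hu⟩ r ∈ Qe D b u v ε := fun r => Iff.rfl
    have hSi : ∀ r, r ∈ S ↔ Function.update h ⟨u, hg.hu⟩ r ∈ B := fun r => Iff.rfl
    have hTJ : ∀ r, r ∈ T ↔ Function.update h ⟨u, hg.hu⟩ r ∈ Qset D b u v ∧ c + 1 - ε ≤ r :=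
      fun r => ta_Qe hg h ε r
    simp only [ta_ind _ T _ hTi, ta_ind _ S _ hSi]
    rw [lintegral_indicator hTm, lintegral_indicator hSm, setLIntegral_const,
      setLIntegral_const, one_mul]
    rcases T.eq_empty_or_nonempty with hemp | ⟨r0, hr0⟩
    · rw [hemp]
      simp
    · have hTb : T ⊆ Icc (c + 1 - ε) (c + 1) := fun r hr =>
        ⟨((hTJ r).1 hr).2, (ta_bd hg h ((hTJ r).1 hr).1).2⟩
      have hTv : volume T ≤ ENNReal.ofReal ε := by
        refine (measure_mono hTb).trans (le_of_eq ?_)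
        rw [Real.volume_Icc]
        congr 1
        ring
      have hK := ((hTJ r0).1 hr0).1.1
      have hbd : ∀ x : D, x ≠ ⟨u, hg.hu⟩ → |h x| ≤ N := by
        intro x hx
        have h2 := K_bdd (B := 1 / 2) (by norm_num) (fun z _ _ => hb z) hK x
        rw [Function.update_of_ne hx] at h2
        rw [hN]
        linarith
      have hSs : Icc (-N) N ⊆ S := by
        intro r hr
        rw [hSi, hB]
        constructor
        · intro x
          by_cases hx : x = ⟨u, hg.hu⟩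
          · subst hx
            rw [Function.update_self]
            exact hr.1
          · rw [Function.update_of_ne hx]
            exact (abs_le.1 (hbd x hx)).1
        · intro x
          by_cases hx : x = ⟨u, hg.hu⟩
          · subst hx
            rw [Function.update_self]
            exact hr.2
          · rw [Function.update_of_ne hx]
            exact (abs_le.1 (hbd x hx)).2
      have hSv : 1 ≤ volume S := by
        refine le_trans ?_ (measure_mono hSs)
        rw [Real.volume_Icc, ← ENNReal.ofReal_one]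
        exact ENNReal.ofReal_le_ofReal (by linarith)
      calc volume T ≤ ENNReal.ofReal ε * 1 := by rw [mul_one]; exact hTv
        _ ≤ ENNReal.ofReal ε * volume S := mul_le_mul_right hSv _
  rw [lintegral_indicator hE, lintegral_indicator hBm, setLIntegral_const, setLIntegral_const,
    one_mul, hBv] at hint
  exact hint
/- END tc -/

/- MODULE td
The facet estimate.  `ε = 1 / s^2`; on `Qe`: `H u - H v ∈ [1 - ε, 1]`, so `Us2 ≥ s^3 / 6`.
`(1/ε) ∫_Qe |g| ≤ (1/ε) vol^{1/2} (∫_Qe g^2)^{1/2} ≤ (6 c / s)^{1/2} (∫ Us2 g^2)^{1/2}` and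
`∫_Qe √gr ≤ (c / s^2)^{1/2} (∫ gr)^{1/2}`, `c = (2 (|D| + 1))^|D|`. -/
private theorem td_cs {α : Type*} [MeasurableSpace α] {μ : Measure α} (A : Set α)
    {f : α → ℝ≥0∞} (hf : Measurable f) :
    ∫⁻ x in A, f x ∂μ ≤ (μ A) ^ (1 / 2 : ℝ) * (∫⁻ x in A, f x ^ 2 ∂μ) ^ (1 / 2 : ℝ) := by
  have h := ENNReal.lintegral_mul_le_Lp_mul_Lq (μ.restrict A) Real.HolderConjugate.two_two
    (f := fun _ => (1 : ℝ≥0∞)) (g := f) aemeasurable_const hf.aemeasurable
  simp only [Pi.mul_apply, one_mul, ENNReal.one_rpow, lintegral_const, Measure.restrict_apply,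
    MeasurableSet.univ, univ_inter] at h
  refine h.trans (le_of_eq ?_)
  congr 2
  refine lintegral_congr fun x => ?_
  rw [← ENNReal.rpow_natCast]
  norm_num

private theorem td_half (a b : ℝ≥0∞) : (a * b) ^ (1 / 2 : ℝ) = a ^ (1 / 2 : ℝ) * b ^ (1 / 2 : ℝ) :=
  ENNReal.mul_rpow_of_nonneg _ _ (by norm_num)

private theorem td_sq {x : ℝ} (hx : 0 ≤ x) :
    ENNReal.ofReal x = ENNReal.ofReal (x ^ 2) ^ (1 / 2 : ℝ) := by
  rw [ENNReal.ofReal_rpow_of_nonneg (by positivity) (by norm_num), ← Real.sqrt_eq_rpow,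
    Real.sqrt_sq hx]

theorem facet_est {D : Finset (ℤ × ℤ)} {b : ℤ × ℤ → ℝ} (hb : ∀ z, |b z| ≤ 1 / 2) {u v : ℤ × ℤ}
    (hg : Good D b u v) {g : (D → ℝ) → ℝ} (hC : ContDiff ℝ 1 g) {s : ℝ} (hs : 1 ≤ s) :
    ∫⁻ h in Qset D b u v, ENNReal.ofReal |g (Pm D b u v h)| ≤
      ENNReal.ofReal (6 * (2 * ((D.card : ℝ) + 1)) ^ D.card / s) ^ (1 / 2 : ℝ) *
        ((∫⁻ h in K D b, ENNReal.ofReal (Us2 s (gl D b h u - gl D b h v) * (g h) ^ 2)) ^
            (1 / 2 : ℝ) +
          (∫⁻ h in K D b, ENNReal.ofReal (gr g h)) ^ (1 / 2 : ℝ)) := by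
  have hs0 : 0 < s := by linarith
  have hgm : Measurable g := hC.continuous.measurable
  set c : ℝ := (2 * ((D.card : ℝ) + 1)) ^ D.card with hc
  have hc0 : 0 ≤ c := by positivity
  set ε : ℝ := 1 / s ^ 2 with hε
  have h0 : 0 < ε := by positivity
  have h1 : ε ≤ 1 := by
    rw [hε, div_le_one (by positivity)]
    nlinarith
  set X : ℝ≥0∞ := ∫⁻ h in K D b, ENNReal.ofReal (Us2 s (gl D b h u - gl D b h v) * (g h) ^ 2)
    with hX
  set Y : ℝ≥0∞ := ∫⁻ h in K D b, ENNReal.ofReal (gr g h) with hY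
  have hE := Qe_meas D b u v ε
  have hsub : Qe D b u v ε ⊆ K D b := fun h hh => hh.1.1
  have hvol : volume (Qe D b u v ε) ≤ ENNReal.ofReal (ε * c) := by
    rw [ENNReal.ofReal_mul h0.le]
    exact Qe_vol hb hg h0 h1
  have m2 : Measurable (fun h => ENNReal.ofReal |g h|) :=
    ENNReal.measurable_ofReal.comp hgm.abs
  have m3 : Measurable (fun h => ENNReal.ofReal (Real.sqrt (gr g h))) :=
    ENNReal.measurable_ofReal.comp (tb_grc hC).measurable.sqrt
  have hgr0 : ∀ h, 0 ≤ gr g h := fun h => Finset.sum_nonneg fun x _ => sq_nonneg _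
  -- first term
  have e1 : ∫⁻ h in Qe D b u v ε, ENNReal.ofReal |g h| ≤
      ENNReal.ofReal (ε * c * (6 / s ^ 3)) ^ (1 / 2 : ℝ) * X ^ (1 / 2 : ℝ) := by
    refine (td_cs _ m2).trans ?_
    have h2 : ∫⁻ h in Qe D b u v ε, ENNReal.ofReal |g h| ^ 2 ≤
        ENNReal.ofReal (6 / s ^ 3) * X := by
      calc ∫⁻ h in Qe D b u v ε, ENNReal.ofReal |g h| ^ 2
          ≤ ∫⁻ h in Qe D b u v ε, ENNReal.ofReal (6 / s ^ 3) *
              ENNReal.ofReal (Us2 s (gl D b h u - gl D b h v) * (g h) ^ 2) := by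
            refine setLIntegral_mono' hE fun h hh => ?_
            rw [← ENNReal.ofReal_pow (abs_nonneg _), sq_abs,
              ← ENNReal.ofReal_mul (by positivity)]
            refine ENNReal.ofReal_le_ofReal ?_
            have h3 : s ^ 3 / 6 ≤ Us2 s (gl D b h u - gl D b h v) := by
              refine Us2_ge hs ?_ ?_
              · have := hh.2
                rw [← hε]
                linarith
              · have := hh.1.2.2.2.2
                linarith
            have h4 : 1 ≤ 6 / s ^ 3 * Us2 s (gl D b h u - gl D b h v) := by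
              calc (1 : ℝ) = 6 / s ^ 3 * (s ^ 3 / 6) := by field_simp
                _ ≤ _ := mul_le_mul_of_nonneg_left h3 (by positivity)
            calc (g h) ^ 2 = 1 * (g h) ^ 2 := (one_mul _).symm
              _ ≤ 6 / s ^ 3 * Us2 s (gl D b h u - gl D b h v) * (g h) ^ 2 :=
                  mul_le_mul_of_nonneg_right h4 (sq_nonneg _)
              _ = _ := by ring
        _ ≤ ∫⁻ h in K D b, ENNReal.ofReal (6 / s ^ 3) *
              ENNReal.ofReal (Us2 s (gl D b h u - gl D b h v) * (g h) ^ 2) :=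
            lintegral_mono_set hsub
        _ = ENNReal.ofReal (6 / s ^ 3) * X := by
            rw [hX, lintegral_const_mul]
            refine ENNReal.measurable_ofReal.comp (Measurable.mul ?_ (hgm.pow_const 2))
            exact (Us2_cont hs).measurable.comp ((gl_meas D b u).sub (gl_meas D b v))
    calc volume (Qe D b u v ε) ^ (1 / 2 : ℝ) *
          (∫⁻ h in Qe D b u v ε, ENNReal.ofReal |g h| ^ 2) ^ (1 / 2 : ℝ)
        ≤ ENNReal.ofReal (ε * c) ^ (1 / 2 : ℝ) *
          (ENNReal.ofReal (6 / s ^ 3) * X) ^ (1 / 2 : ℝ) :=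
          mul_le_mul' (ENNReal.rpow_le_rpow hvol (by norm_num))
            (ENNReal.rpow_le_rpow h2 (by norm_num))
      _ = ENNReal.ofReal (ε * c * (6 / s ^ 3)) ^ (1 / 2 : ℝ) * X ^ (1 / 2 : ℝ) := by
          rw [ENNReal.ofReal_mul (by positivity : 0 ≤ ε * c), td_half, td_half, mul_assoc]
  -- second term
  have e2 : ∫⁻ h in Qe D b u v ε, ENNReal.ofReal (Real.sqrt (gr g h)) ≤
      ENNReal.ofReal (6 * c / s) ^ (1 / 2 : ℝ) * Y ^ (1 / 2 : ℝ) := by
    refine (td_cs _ m3).trans ?_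
    refine mul_le_mul' (ENNReal.rpow_le_rpow (hvol.trans ?_) (by norm_num))
      (ENNReal.rpow_le_rpow ?_ (by norm_num))
    · refine ENNReal.ofReal_le_ofReal ?_
      rw [hε, one_div, inv_mul_eq_div, div_le_div_iff₀ (by positivity) hs0]
      have h2 : c * s ≤ c * (6 * s ^ 2) := by
        refine mul_le_mul_of_nonneg_left ?_ hc0
        nlinarith
      nlinarith
    · refine (lintegral_mono_set hsub).trans (le_of_eq ?_)
      refine lintegral_congr fun h => ?_
      rw [← ENNReal.ofReal_pow (Real.sqrt_nonneg _), Real.sq_sqrt (hgr0 h)]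
  have h5 : ENNReal.ofReal (1 / ε) * ENNReal.ofReal ε = 1 := by
    rw [← ENNReal.ofReal_mul (by positivity), one_div_mul_cancel h0.ne', ENNReal.ofReal_one]
  have h6 : ENNReal.ofReal (1 / ε) * (ENNReal.ofReal (ε * c * (6 / s ^ 3)) ^ (1 / 2 : ℝ) *
      X ^ (1 / 2 : ℝ)) = ENNReal.ofReal (6 * c / s) ^ (1 / 2 : ℝ) * X ^ (1 / 2 : ℝ) := by
    rw [td_sq (by positivity : 0 ≤ 1 / ε), ← mul_assoc, ← td_half,
      ← ENNReal.ofReal_mul (by positivity)]
    congr 3
    rw [hε]
    field_simp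
  calc ∫⁻ h in Qset D b u v, ENNReal.ofReal |g (Pm D b u v h)|
      ≤ ENNReal.ofReal (1 / ε) * ∫⁻ h in Qe D b u v ε, ENNReal.ofReal |g (Pm D b u v h)| :=
        facet_one hg hC h0 h1
    _ ≤ ENNReal.ofReal (1 / ε) * ((∫⁻ h in Qe D b u v ε, ENNReal.ofReal |g h|) +
          ENNReal.ofReal ε * ∫⁻ h in Qe D b u v ε, ENNReal.ofReal (Real.sqrt (gr g h))) :=
        mul_le_mul_right (facet_two hg hC h0 h1) _
    _ = ENNReal.ofReal (1 / ε) * (∫⁻ h in Qe D b u v ε, ENNReal.ofReal |g h|) +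
          ∫⁻ h in Qe D b u v ε, ENNReal.ofReal (Real.sqrt (gr g h)) := by
        rw [mul_add, ← mul_assoc, h5, one_mul]
    _ ≤ ENNReal.ofReal (1 / ε) * (ENNReal.ofReal (ε * c * (6 / s ^ 3)) ^ (1 / 2 : ℝ) *
          X ^ (1 / 2 : ℝ)) + ENNReal.ofReal (6 * c / s) ^ (1 / 2 : ℝ) * Y ^ (1 / 2 : ℝ) :=
        add_le_add (mul_le_mul_right e1 _) e2
    _ = _ := by rw [h6, mul_add]
/- END td -/

end Pool.Agent.Hmk
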