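import Pool.Agent.Hmk.Geo

/-!
# Hmk: the flow and the local inequality

`u, v` is a good pair.  `Am s` moves `h` (for `s = 0`) to `Am 1 h`: `q u` becomes `(1 - s/2) q u`,
`q x < 1/2` becomes `1/2 - (1 - 4 s / 5) (1/2 - q x)` (`x ≠ u, v` free), everything else is kept.
In terms of heights: `q x < 1/2` means `h x < ct x`, `ct x = H v + 3/2 - dn (x - u)`.
-/

set_option autoImplicit false

open MeasureTheory Set
open scoped ENNReal

noncomputable section

namespace Pool.Agent.Hmk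

/-- partial derivative -/
def pd {ι : Type*} [Fintype ι] [DecidableEq ι] (x : ι) (f : (ι → ℝ) → ℝ) (h : ι → ℝ) : ℝ :=
  fderiv ℝ f h (Pi.single x 1)

/-- squared norm of the gradient -/
def gr {ι : Type*} [Fintype ι] [DecidableEq ι] (f : (ι → ℝ) → ℝ) (h : ι → ℝ) : ℝ :=
  ∑ x, (pd x f h) ^ 2

/-- the height below which `q x < 1 / 2` -/
def ct (D : Finset (ℤ × ℤ)) (b : ℤ × ℤ → ℝ) (u v : ℤ × ℤ) (h : D → ℝ) (x : ℤ × ℤ) : ℝ :=
  gl D b h v + 3 / 2 - (dn (x - u) : ℝ)

/-- the flow -/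
def Am (D : Finset (ℤ × ℤ)) (b : ℤ × ℤ → ℝ) (u v : ℤ × ℤ) (s : ℝ) (h : D → ℝ) : D → ℝ :=
  fun x =>
    if x.1 = v then h x
    else if x.1 = u then gl D b h v + 1 + (1 - s / 2) * (h x - (gl D b h v + 1))
    else if h x < ct D b u v h x.1 then
      ct D b u v h x.1 - (1 - 4 * s / 5) * (ct D b u v h x.1 - h x)
    else h x

/-- the region next to the facet `H u = H v + 1` into which `Am 1` maps `Reg` -/
def Qset (D : Finset (ℤ × ℤ)) (b : ℤ × ℤ → ℝ) (u v : ℤ × ℤ) : Set (D → ℝ) :=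
  {h | h ∈ K D b ∧ gl D b h v ≤ 0 ∧ (∀ i, gl D b h v ≤ gl D b h (u + st i)) ∧
    gl D b h v ≤ gl D b h u ∧ gl D b h u ≤ gl D b h v + 1}

/-- projection to the facet -/
def Pm (D : Finset (ℤ × ℤ)) (b : ℤ × ℤ → ℝ) (u v : ℤ × ℤ) (h : D → ℝ) : D → ℝ :=
  fun x => if x.1 = u then gl D b h v + 1 else h x

/- MODULE fa
The flow keeps `H v`, is affine in `s`, and keeps the set `Ns` (`0 ≤ s ≤ 1`). -/
theorem Am_v {D : Finset (ℤ × ℤ)} {b : ℤ × ℤ → ℝ} {u v : ℤ × ℤ} (s : ℝ) (h : D → ℝ) :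
    gl D b (Am D b u v s h) v = gl D b h v := by
  unfold gl
  by_cases hv : v ∈ D
  · rw [dif_pos hv, dif_pos hv]
    unfold Am
    rw [if_pos rfl]
  · rw [dif_neg hv, dif_neg hv]

theorem Am_aff {D : Finset (ℤ × ℤ)} {b : ℤ × ℤ → ℝ} {u v : ℤ × ℤ} (s : ℝ) (h : D → ℝ) (x : D) :
    Am D b u v s h x = h x + s * (Am D b u v 1 h x - h x) := by
  unfold Am
  by_cases h1 : x.1 = v
  · rw [if_pos h1, if_pos h1]
    ring
  · rw [if_neg h1, if_neg h1]
    by_cases h2 : x.1 = u
    · rw [if_pos h2, if_pos h2]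
      ring
    · rw [if_neg h2, if_neg h2]
      by_cases h3 : h x < ct D b u v h x.1
      · rw [if_pos h3, if_pos h3]
        ring
      · rw [if_neg h3, if_neg h3]
        ring

theorem Ns_Am {D : Finset (ℤ × ℤ)} {b : ℤ × ℤ → ℝ} {u v : ℤ × ℤ} {s : ℝ} (h0 : 0 ≤ s)
    (h1 : s ≤ 1) (h : D → ℝ) : Ns D b u v (Am D b u v s h) = Ns D b u v h := by
  classical
  unfold Ns
  apply Finset.filter_congr
  intro x hx
  have hv := Am_v (D := D) (b := b) (u := u) (v := v) s h
  apply and_congr_right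
  intro hxu
  apply and_congr_right
  intro hxv
  unfold qf
  rw [hv]
  have e1 : gl D b (Am D b u v s h) x = if h ⟨x, hx⟩ < ct D b u v h x then
      ct D b u v h x - (1 - 4 * s / 5) * (ct D b u v h x - h ⟨x, hx⟩) else h ⟨x, hx⟩ := by
    rw [gl_mem hx]
    unfold Am
    rw [if_neg hxv, if_neg hxu]
  have e2 : gl D b h x = h ⟨x, hx⟩ := gl_mem hx
  have e3 : ct D b u v h x = gl D b h v + 3 / 2 - (dn (x - u) : ℝ) := rfl
  rw [e1, e2]
  by_cases h3 : h ⟨x, hx⟩ < ct D b u v h x
  · rw [if_pos h3]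
    constructor
    · intro _
      linarith
    · intro _
      have h4 : 0 < (1 - 4 * s / 5) * (ct D b u v h x - h ⟨x, hx⟩) := by
        apply mul_pos
        · linarith
        · linarith
      linarith
  · rw [if_neg h3]

theorem Nn_Am {D : Finset (ℤ × ℤ)} {b : ℤ × ℤ → ℝ} {u v : ℤ × ℤ} {s : ℝ} (h0 : 0 ≤ s)
    (h1 : s ≤ 1) (h : D → ℝ) : Nn D b u v (Am D b u v s h) = Nn D b u v h := by
  unfold Nn
  rw [Ns_Am h0 h1]

theorem Nn_Pm {D : Finset (ℤ × ℤ)} {b : ℤ × ℤ → ℝ} {u v : ℤ × ℤ} (huv : u ≠ v) (h : D → ℝ)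
    (t : ℝ) :
    Nn D b u v (fun x => if x.1 = u then t else h x) = Nn D b u v h := by
  classical
  unfold Nn
  congr 1
  unfold Ns
  apply Finset.filter_congr
  intro x hx
  apply and_congr_right
  intro hxu
  apply and_congr_right
  intro hxv
  have e1 : ∀ z, z ≠ u → gl D b (fun x => if x.1 = u then t else h x) z = gl D b h z := by
    intro z hz
    unfold gl
    by_cases hzD : z ∈ D
    · rw [dif_pos hzD, dif_pos hzD]
      exact if_neg hz
    · rw [dif_neg hzD, dif_neg hzD]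
  unfold qf
  rw [e1 x hxu, e1 v huv.symm]

theorem Nn_le {D : Finset (ℤ × ℤ)} {b : ℤ × ℤ → ℝ} {u v : ℤ × ℤ} (h : D → ℝ) :
    Nn D b u v h ≤ D.card := by
  classical
  unfold Nn Ns
  exact Finset.card_filter_le _ _

theorem Good.ne {D : Finset (ℤ × ℤ)} {b : ℤ × ℤ → ℝ} {u v : ℤ × ℤ} (hg : Good D b u v) :
    u ≠ v := by
  obtain ⟨i, hi⟩ := hg.nb
  intro huv
  rw [← huv] at hi
  exact st_ne i (add_eq_left.1 hi.symm)
/- END fa -/

/- MODULE fb
`Am 1` maps `Reg` into `Qset`.  Put `θ q = q` for `q ≥ 1/2`, `θ q = 2/5 + q/5` for `q < 1/2`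
(nondecreasing, `1`-Lipschitz, `θ q ≥ q`, `θ q ≤ max q (1/2)`, `θ q ≥ 0` for `q ≥ -2`).  For
`y = Am 1 h`: `q_y x = θ (q x)` for `x` free, `≠ u, v` and also for every fixed site at distance
`≥ 2` from `u` (`qf_fix2`); `q_y u = q u / 2 ∈ [-1, 0]`; `q_y z = q z` for the anchors `z = v` and
`z` fixed next to `u` (`q z ≥ 0`: `qf_v`, `qf_fix1`).  An edge `x, x + st i` is fine iff
`q_y (x + st i) - q_y x` lies in `[dd - 1, dd + 1]`, `dd = dn (x + st i - u) - dn (x - u)` (in
`{-1, 0, 1}` by `dn_step`).  Cases: both of type `θ`: `qf_out`, `qf_lat`, monotone and Lipschitz;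
an anchor and a `θ`: `θ q ≥ q`, `θ q ≤ max q (1/2)`, `q z ≥ 0`; two anchors: unchanged; `u` and a
neighbour. -/
/-- the three kinds of sites -/
private def fb_T (d : ℤ) (q q' : ℝ) : Prop :=
  (d = 0 ∧ q' = q / 2 ∧ -2 ≤ q ∧ q ≤ 0) ∨ (d = 1 ∧ q' = q ∧ 0 ≤ q) ∨
    (1 ≤ d ∧ -2 ≤ q ∧ ((1 / 2 ≤ q ∧ q' = q) ∨ (q < 1 / 2 ∧ q' = 2 / 5 + q / 5)))

private theorem fb_real {d e : ℤ} {q r q' r' : ℝ} (h1 : fb_T d q q') (h2 : fb_T e r r')
    (h5 : ¬ (d = 0 ∧ e = 0)) (h4 : |e - d| ≤ 1) (h3 : |r - q - ((e : ℝ) - d)| ≤ 1) :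
    |r' - q' - ((e : ℝ) - d)| ≤ 1 := by
  have h6 : e = d - 1 ∨ e = d ∨ e = d + 1 := by
    rw [abs_le] at h4
    omega
  rw [abs_le] at h3 ⊢
  obtain ⟨h7, h8⟩ := h3
  rcases h1 with ⟨a1, a2, a3, a4⟩ | ⟨a1, a2, a3⟩ | ⟨a1, a2, ⟨a3, a4⟩ | ⟨a3, a4⟩⟩ <;>
  rcases h2 with ⟨b1, b2, b3, b4⟩ | ⟨b1, b2, b3⟩ | ⟨b1, b2, ⟨b3, b4⟩ | ⟨b3, b4⟩⟩ <;>
  rcases h6 with h6 | h6 | h6 <;>
  first
    | (exfalso; omega)
    | (rw [h6] at h7 h8 ⊢
       push_cast at h7 h8 ⊢
       constructor <;> linarith)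

private theorem fb_ty {D : Finset (ℤ × ℤ)} {b : ℤ × ℤ → ℝ} (hb : ∀ z, |b z| ≤ 1 / 2)
    {u v : ℤ × ℤ} (hg : Good D b u v) {h : D → ℝ} (hh : h ∈ Reg D b v) (z : ℤ × ℤ) :
    fb_T (dn (z - u)) (qf D b u v h z)
      (gl D b (Am D b u v 1 h) z - gl D b h v - 1 + (dn (z - u) : ℝ)) := by
  have hK := hh.1
  by_cases hzv : z = v
  · right
    left
    obtain ⟨i, hi⟩ := hg.nb
    have h1 : dn (z - u) = 1 := by
      rw [dn_one_iff, hzv, hi]
      exact ⟨i, by abel⟩
    have h2 : qf D b u v h z = 0 := by rw [hzv]; exact qf_v hg.nb h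
    refine ⟨h1, ?_, le_of_eq h2.symm⟩
    rw [h2, h1, hzv, Am_v]
    push_cast
    ring
  · by_cases hzu : z = u
    · left
      have h1 : dn (z - u) = 0 := by rw [dn_zero_iff, hzu, sub_self]
      have h2 := qf_u hb hg.nb hK
      refine ⟨h1, ?_, by rw [hzu]; exact h2.1, by rw [hzu]; exact h2.2⟩
      rw [h1]
      unfold qf
      rw [h1]
      have hzD : z ∈ D := by rw [hzu]; exact hg.hu
      rw [gl_mem hzD, gl_mem (h := h) hzD]
      unfold Am
      rw [if_neg hzv, if_pos hzu]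
      push_cast
      ring
    · have hd : 1 ≤ dn (z - u) := by
        have h1 := dn_nonneg (z - u)
        have h2 : dn (z - u) ≠ 0 := by
          intro h3
          rw [dn_zero_iff, sub_eq_zero] at h3
          exact hzu h3
        omega
      have hge := qf_ge hb hg.nb hK z
      by_cases hzD : z ∈ D
      · right
        right
        refine ⟨hd, hge, ?_⟩
        have e1 : gl D b (Am D b u v 1 h) z = if h ⟨z, hzD⟩ < ct D b u v h z then
            ct D b u v h z - (1 - 4 * 1 / 5) * (ct D b u v h z - h ⟨z, hzD⟩) else h ⟨z, hzD⟩ := by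
          rw [gl_mem hzD]
          unfold Am
          rw [if_neg hzv, if_neg hzu]
        have e2 : gl D b h z = h ⟨z, hzD⟩ := gl_mem hzD
        have e3 : ct D b u v h z = gl D b h v + 3 / 2 - (dn (z - u) : ℝ) := rfl
        unfold qf
        rw [e1, e2]
        by_cases h3 : h ⟨z, hzD⟩ < ct D b u v h z
        · rw [if_pos h3]
          right
          constructor
          · linarith
          · rw [e3]
            ring
        · rw [if_neg h3]
          left
          constructor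
          · linarith
          · rfl
      · have e1 : gl D b (Am D b u v 1 h) z = b z := gl_not_mem hzD
        have e2 : gl D b h z = b z := gl_not_mem hzD
        have e3 : gl D b (Am D b u v 1 h) z - gl D b h v - 1 + (dn (z - u) : ℝ) = qf D b u v h z := by
          unfold qf
          rw [e1, e2]
        rcases eq_or_lt_of_le hd with h1 | h1
        · right
          left
          refine ⟨h1.symm, e3, ?_⟩
          obtain ⟨i, hi⟩ := (dn_one_iff _).1 h1.symm
          have hz : z = u + st i := by rw [← hi]; abel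
          rw [hz]
          rw [hz] at hzD
          exact qf_fix1 hg hzD
        · right
          right
          refine ⟨hd, hge, Or.inl ⟨qf_fix2 hb hh hzD (by omega), e3⟩⟩

theorem Am_one_Qset {D : Finset (ℤ × ℤ)} {b : ℤ × ℤ → ℝ} (hb : ∀ z, |b z| ≤ 1 / 2)
    {u v : ℤ × ℤ} (hg : Good D b u v) {h : D → ℝ} (hh : h ∈ Reg D b v) :
    Am D b u v 1 h ∈ Qset D b u v := by
  have hK := hh.1
  have hv' := Am_v (D := D) (b := b) (u := u) (v := v) 1 h
  have key : ∀ (x : ℤ × ℤ) (i : Fin 6), |gl D b (Am D b u v 1 h) x - gl D b (Am D b u v 1 h) (x + st i)| ≤ 1 := by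
    intro x i
    have h1 := fb_ty hb hg hh x
    have h2 := fb_ty hb hg hh (x + st i)
    have h3 := gl_edge hb hK x i
    have h4 := dn_step (x - u) i
    have e1 : x - u + st i = x + st i - u := by abel
    rw [e1] at h4
    have h5 : ¬ (dn (x - u) = 0 ∧ dn (x + st i - u) = 0) := by
      rintro ⟨h6, h7⟩
      rw [dn_zero_iff] at h6 h7
      have h8 : st i = 0 := by
        have : st i = (x + st i - u) - (x - u) := by abel
        rw [this, h6, h7, sub_zero]
      exact st_ne i h8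
    have h6 := fb_real h1 h2 h5 h4 (by
      unfold qf
      rw [abs_le] at h3 ⊢
      constructor <;> linarith [h3.1, h3.2])
    rw [abs_le] at h6 ⊢
    constructor <;> linarith [h6.1, h6.2]
  have hu0 : dn (u - u) = 0 := by rw [dn_zero_iff, sub_self]
  have hTu := fb_ty hb hg hh u
  refine ⟨fun x _ i => key x i, ?_, ?_, ?_, ?_⟩
  · rw [hv']
    exact hh.2
  · intro i
    rw [hv']
    have h1 := fb_ty hb hg hh (u + st i)
    have h2 : dn (u + st i - u) = 1 := by
      rw [dn_one_iff]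
      exact ⟨i, by abel⟩
    rw [h2] at h1
    rcases h1 with ⟨h3, -⟩ | ⟨-, h3, h4⟩ | ⟨-, h3, h4⟩
    · exact absurd h3 (by norm_num)
    · push_cast at h3
      linarith
    · push_cast at h3 h4
      rcases h4 with ⟨h5, h6⟩ | ⟨h5, h6⟩ <;> linarith
  · rw [hv']
    rw [hu0] at hTu
    rcases hTu with ⟨-, h3, h4, h5⟩ | ⟨h3, -⟩ | ⟨h3, -⟩
    · push_cast at h3
      linarith
    · exact absurd h3 (by norm_num)
    · exact absurd h3 (by norm_num)
  · rw [hv']
    rw [hu0] at hTu
    rcases hTu with ⟨-, h3, h4, h5⟩ | ⟨h3, -⟩ | ⟨h3, -⟩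
    · push_cast at h3
      linarith
    · exact absurd h3 (by norm_num)
    · exact absurd h3 (by norm_num)
/- END fb -/

/- MODULE fc
Consequences.  `Am s h` lies on the segment from `h` to `Am 1 h` (`Am_aff`) and `K` is convex.
Displacements: `≤ 1` at `u` (`qf_u`), `(4/5) (1/2 - q x) ≤ 2` on `Ns` (`qf_ge`), `0` elsewhere.
Points of `Qset` stay in `Qset` when `H u` is moved up to at most `H v + 1` (every neighbour `x` of
`u` has `H v ≤ H x ≤ H u + 1`). -/
theorem Am_Reg {D : Finset (ℤ × ℤ)} {b : ℤ × ℤ → ℝ} (hb : ∀ z, |b z| ≤ 1 / 2)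
    {u v : ℤ × ℤ} (hg : Good D b u v) {s : ℝ} (h0 : 0 ≤ s) (h1 : s ≤ 1) {h : D → ℝ}
    (hh : h ∈ Reg D b v) : Am D b u v s h ∈ Reg D b v := by
  have hQ := Am_one_Qset hb hg hh
  refine ⟨?_, ?_⟩
  · have h2 := K_convex D b hh.1 hQ.1 (sub_nonneg.2 h1) h0 (by ring)
    have h3 : Am D b u v s h = (1 - s) • h + s • Am D b u v 1 h := by
      funext x
      rw [Am_aff s h x]
      simp only [Pi.add_apply, Pi.smul_apply, smul_eq_mul]
      ring
    rw [h3]
    exact h2
  · rw [Am_v]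
    exact hh.2

theorem Am_disp {D : Finset (ℤ × ℤ)} {b : ℤ × ℤ → ℝ} (hb : ∀ z, |b z| ≤ 1 / 2)
    {u v : ℤ × ℤ} (hg : Good D b u v) {h : D → ℝ} (hh : h ∈ Reg D b v) :
    ∑ x, (Am D b u v 1 h x - h x) ^ 2 ≤ 1 + 4 * (Nn D b u v h : ℝ) := by
  classical
  have huv := hg.ne
  have key : ∀ x : D, (Am D b u v 1 h x - h x) ^ 2 ≤
      (if x.1 = u then 1 else 0) + (if x.1 ∈ Ns D b u v h then 4 else 0) := by
    intro x
    by_cases hxv : x.1 = v
    · have h1 : Am D b u v 1 h x = h x := by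
        unfold Am
        rw [if_pos hxv]
      rw [h1, sub_self, zero_pow two_ne_zero]
      positivity
    · by_cases hxu : x.1 = u
      · have h1 : Am D b u v 1 h x - h x = -(1 / 2) * qf D b u v h u := by
          unfold Am qf
          rw [if_neg hxv, if_pos hxu]
          have h2 : gl D b h u = h x := by
            rw [← hxu, gl_mem x.2]
          rw [h2, sub_self]
          have h3 : dn (0 : ℤ × ℤ) = 0 := (dn_zero_iff 0).2 rfl
          rw [h3]
          push_cast
          ring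
        have h4 := qf_u hb hg.nb hh.1
        rw [h1, if_pos hxu]
        have h5 : (0 : ℝ) ≤ (if x.1 ∈ Ns D b u v h then 4 else 0) := by positivity
        nlinarith [h4.1, h4.2]
      · by_cases hlt : h x < ct D b u v h x.1
        · have hq : qf D b u v h x.1 = h x - ct D b u v h x.1 + 1 / 2 := by
            unfold qf ct
            rw [gl_mem x.2]
            ring
          have hns : x.1 ∈ Ns D b u v h := by
            unfold Ns
            rw [Finset.mem_filter]
            refine ⟨x.2, hxu, hxv, ?_⟩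
            rw [hq]
            linarith
          have h1 : Am D b u v 1 h x - h x = 4 / 5 * (ct D b u v h x.1 - h x) := by
            unfold Am
            rw [if_neg hxv, if_neg hxu, if_pos hlt]
            ring
          have h2 := qf_ge hb hg.nb hh.1 x.1
          rw [h1, if_neg hxu, if_pos hns]
          have h3 : ct D b u v h x.1 - h x ≤ 5 / 2 := by linarith
          nlinarith
        · have h1 : Am D b u v 1 h x = h x := by
            unfold Am
            rw [if_neg hxv, if_neg hxu, if_neg hlt]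
          rw [h1, sub_self, zero_pow two_ne_zero]
          positivity
  calc ∑ x, (Am D b u v 1 h x - h x) ^ 2
      ≤ ∑ x : D, ((if x.1 = u then (1 : ℝ) else 0) + (if x.1 ∈ Ns D b u v h then 4 else 0)) :=
        Finset.sum_le_sum fun x _ => key x
    _ = (∑ x : D, if x.1 = u then (1 : ℝ) else 0) +
        ∑ x : D, (if x.1 ∈ Ns D b u v h then (4 : ℝ) else 0) := Finset.sum_add_distrib
    _ ≤ 1 + 4 * (Nn D b u v h : ℝ) := by
        refine add_le_add ?_ ?_
        · rw [Finset.sum_coe_sort D (fun x => if x = u then (1 : ℝ) else 0), Finset.sum_ite_eq']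
          split_ifs <;> norm_num
        · rw [Finset.sum_coe_sort D (fun x => if x ∈ Ns D b u v h then (4 : ℝ) else 0),
            ← Finset.sum_filter, Finset.sum_const]
          have h1 : (D.filter fun x => x ∈ Ns D b u v h).card ≤ (Ns D b u v h).card :=
            Finset.card_le_card fun x hx => (Finset.mem_filter.1 hx).2
          unfold Nn
          rw [nsmul_eq_mul, mul_comm]
          have h2 : ((D.filter fun x => x ∈ Ns D b u v h).card : ℝ) ≤ (Ns D b u v h).card := by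
            exact_mod_cast h1
          linarith

private theorem fc_gl {D : Finset (ℤ × ℤ)} {b : ℤ × ℤ → ℝ} {u : ℤ × ℤ} {h : D → ℝ} {t : ℝ}
    {z : ℤ × ℤ} (hz : z ≠ u) :
    gl D b (fun x : D => if x.1 = u then t else h x) z = gl D b h z := by
  by_cases hD : z ∈ D
  · rw [gl_mem hD, gl_mem hD]
    simp [hz]
  · rw [gl_not_mem hD, gl_not_mem hD]

private theorem fc_gl_u {D : Finset (ℤ × ℤ)} {b : ℤ × ℤ → ℝ} {u : ℤ × ℤ} {h : D → ℝ} {t : ℝ}
    (hu : u ∈ D) :
    gl D b (fun x : D => if x.1 = u then t else h x) u = t := by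
  rw [gl_mem hu]
  simp

theorem Qset_up {D : Finset (ℤ × ℤ)} {b : ℤ × ℤ → ℝ} {u v : ℤ × ℤ} (hg : Good D b u v)
    {h : D → ℝ} (hh : h ∈ Qset D b u v) {t : ℝ} (h0 : gl D b h u ≤ t)
    (h1 : t ≤ gl D b h v + 1) :
    (fun x : D => if x.1 = u then t else h x) ∈ Qset D b u v := by
  obtain ⟨hK, hv0, hnb, hvu, hu1⟩ := hh
  have huv := hg.ne
  have hstne : ∀ i, u + st i ≠ u := by
    intro i hi
    exact st_ne i (by simpa using hi)
  have hedge : ∀ i, |t - gl D b h (u + st i)| ≤ 1 := by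
    intro i
    have h2 := hK u hg.hu i
    have h3 := hnb i
    rw [abs_le] at h2 ⊢
    constructor <;> linarith [h2.1, h2.2]
  refine ⟨?_, ?_, ?_, ?_, ?_⟩
  · intro x hx i
    by_cases hxu : x = u
    · subst hxu
      rw [fc_gl_u hx, fc_gl (hstne i)]
      exact hedge i
    · rw [fc_gl hxu]
      by_cases hxi : x + st i = u
      · have h2 := hedge (i + 3)
        rw [st_neg, ← hxi, add_neg_cancel_right, abs_sub_comm] at h2
        rw [hxi, fc_gl_u hg.hu]
        exact h2
      · rw [fc_gl hxi]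
        exact hK x hx i
  · rw [fc_gl huv.symm]
    exact hv0
  · intro i
    rw [fc_gl huv.symm, fc_gl (hstne i)]
    exact hnb i
  · rw [fc_gl huv.symm, fc_gl_u hg.hu]
    exact hvu.trans h0
  · rw [fc_gl huv.symm, fc_gl_u hg.hu]
    exact h1

theorem Pm_Qset {D : Finset (ℤ × ℤ)} {b : ℤ × ℤ → ℝ} {u v : ℤ × ℤ} (hg : Good D b u v)
    {h : D → ℝ} (hh : h ∈ Qset D b u v) : Pm D b u v h ∈ Qset D b u v := by
  exact Qset_up hg hh hh.2.2.2.2 le_rfl

theorem Qset_meas (D : Finset (ℤ × ℤ)) (b : ℤ × ℤ → ℝ) (u v : ℤ × ℤ) :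
    MeasurableSet (Qset D b u v) := by
  unfold Qset
  refine (K_meas D b).inter (MeasurableSet.inter ?_ (MeasurableSet.inter ?_
    (MeasurableSet.inter ?_ ?_)))
  · exact measurableSet_le (gl_meas D b v) measurable_const
  · have : {h : D → ℝ | ∀ i, gl D b h v ≤ gl D b h (u + st i)} =
        ⋂ i, {h : D → ℝ | gl D b h v ≤ gl D b h (u + st i)} := by
      ext h
      simp
    show MeasurableSet {h : D → ℝ | ∀ i, gl D b h v ≤ gl D b h (u + st i)}
    rw [this]
    exact MeasurableSet.iInter fun i => measurableSet_le (gl_meas D b v) (gl_meas D b _)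
  · exact measurableSet_le (gl_meas D b v) (gl_meas D b u)
  · exact measurableSet_le (gl_meas D b u) ((gl_meas D b v).add_const 1)

theorem Reg_meas (D : Finset (ℤ × ℤ)) (b : ℤ × ℤ → ℝ) (v : ℤ × ℤ) :
    MeasurableSet (Reg D b v) := by
  unfold Reg
  exact (K_meas D b).inter (measurableSet_le (gl_meas D b v) measurable_const)

theorem Nn_meas (D : Finset (ℤ × ℤ)) (b : ℤ × ℤ → ℝ) (u v : ℤ × ℤ) :
    Measurable (Nn D b u v) := by
  classical
  have h1 : Nn D b u v = fun h => ∑ x ∈ D,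
      (if x ≠ u ∧ x ≠ v ∧ qf D b u v h x < 1 / 2 then 1 else 0) := by
    funext h
    unfold Nn Ns
    rw [Finset.card_filter]
  rw [h1]
  refine Finset.measurable_fun_sum _ fun x _ => ?_
  refine Measurable.ite ?_ measurable_const measurable_const
  by_cases hx : x ≠ u ∧ x ≠ v
  · have : {h : D → ℝ | x ≠ u ∧ x ≠ v ∧ qf D b u v h x < 1 / 2} =
        {h : D → ℝ | qf D b u v h x < 1 / 2} := by
      ext h
      simp only [Set.mem_ofPred_eq]
      exact ⟨fun h => h.2.2, fun h => ⟨hx.1, hx.2, h⟩⟩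
    rw [this]
    refine measurableSet_lt ?_ measurable_const
    unfold qf
    exact (((gl_meas D b x).sub (gl_meas D b v)).sub_const 1).add_const _
  · have : {h : D → ℝ | x ≠ u ∧ x ≠ v ∧ qf D b u v h x < 1 / 2} = ∅ := by
      ext h
      simp only [Set.mem_ofPred_eq, Set.mem_empty_iff_false, iff_false]
      exact fun h => hx ⟨h.1, h.2.1⟩
    rw [this]
    exact MeasurableSet.empty

theorem Am_meas (D : Finset (ℤ × ℤ)) (b : ℤ × ℤ → ℝ) (u v : ℤ × ℤ) :
    Measurable (fun p : ℝ × (D → ℝ) => Am D b u v p.1 p.2) := by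
  refine measurable_pi_lambda _ fun x => ?_
  have hv : Measurable (fun p : ℝ × (D → ℝ) => gl D b p.2 v) := (gl_meas D b v).comp measurable_snd
  have hx : Measurable (fun p : ℝ × (D → ℝ) => p.2 x) :=
    (measurable_pi_apply x).comp measurable_snd
  have hs : Measurable (fun p : ℝ × (D → ℝ) => p.1) := measurable_fst
  have hct : Measurable (fun p : ℝ × (D → ℝ) => ct D b u v p.2 x.1) := by
    unfold ct
    exact (hv.add_const _).sub_const _
  unfold Am
  by_cases hxv : x.1 = v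
  · simp only [if_pos hxv]
    exact hx
  · simp only [if_neg hxv]
    by_cases hxu : x.1 = u
    · simp only [if_pos hxu]
      exact (hv.add_const 1).add ((measurable_const.sub (hs.div_const 2)).mul
        (hx.sub (hv.add_const 1)))
    · simp only [if_neg hxu]
      refine Measurable.ite (measurableSet_lt hx hct) ?_ hx
      exact hct.sub ((measurable_const.sub ((hs.const_mul 4).div_const 5)).mul (hct.sub hx))
/- END fc -/

/- MODULE fd
Fibre integration in one coordinate (`lintegral_eq_lmarginal_univ`,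
`lintegral_le_of_lmarginal_le`, `lmarginal_singleton`), and the one-dimensional piecewise affine
change of variables. -/
theorem fib_le {ι : Type*} [Fintype ι] [DecidableEq ι] (x : ι) {F G : (ι → ℝ) → ℝ≥0∞}
    (hF : Measurable F) (hG : Measurable G)
    (H : ∀ h, ∫⁻ r, F (Function.update h x r) ≤ ∫⁻ r, G (Function.update h x r)) :
    ∫⁻ h, F h ≤ ∫⁻ h, G h := by
  rw [volume_pi]
  refine lintegral_le_of_lmarginal_le {x} hF hG ?_
  intro h
  rw [lmarginal_singleton, lmarginal_singleton]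
  exact H h

private theorem fd_lin {c ρ : ℝ} (hρ : 0 < ρ) {Ψ : ℝ → ℝ≥0∞} (hΨ : Measurable Ψ) :
    ∫⁻ r, Ψ (c + ρ * (r - c)) = ENNReal.ofReal ρ⁻¹ * ∫⁻ r, Ψ r := by
  have h1 : ∫⁻ r, Ψ (c + ρ * (r - c)) = ∫⁻ r, Ψ (c + ρ * r) :=
    lintegral_sub_right_eq_self (fun r => Ψ (c + ρ * r)) c
  have hg : Measurable (fun y : ℝ => Ψ (c + y)) := hΨ.comp (measurable_const.add measurable_id)
  have h2 : ∫⁻ r, Ψ (c + ρ * r) =
      ∫⁻ y, Ψ (c + y) ∂(Measure.map (fun r : ℝ => ρ * r) volume) := by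
    rw [lintegral_map hg (measurable_const_mul ρ)]
  have h3 : ∫⁻ y, Ψ (c + y) = ∫⁻ y, Ψ y := lintegral_add_left_eq_self Ψ c
  rw [h1, h2, Real.map_volume_mul_left hρ.ne', lintegral_smul_measure, h3,
    abs_of_pos (inv_pos.2 hρ), smul_eq_mul]

theorem cov_one {c ρ : ℝ} (hρ : 0 < ρ) {Ψ : ℝ → ℝ≥0∞} (hΨ : Measurable Ψ) :
    ∫⁻ r, Ψ (if r < c then c - ρ * (c - r) else r) =
      ∫⁻ r, (if r < c then ENNReal.ofReal ρ⁻¹ else 1) * Ψ r := by
  rw [← lintegral_add_compl _ (measurableSet_Iio (a := c)),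
    ← lintegral_add_compl (fun r => (if r < c then ENNReal.ofReal ρ⁻¹ else 1) * Ψ r)
      (measurableSet_Iio (a := c))]
  congr 1
  · have e1 : ∫⁻ r in Iio c, Ψ (if r < c then c - ρ * (c - r) else r) =
        ∫⁻ r, (Iio c).indicator Ψ (c + ρ * (r - c)) := by
      rw [← lintegral_indicator measurableSet_Iio]
      refine lintegral_congr fun r => ?_
      by_cases hr : r < c
      · have h2 : c + ρ * (r - c) < c := by nlinarith
        rw [Set.indicator_of_mem (show r ∈ Iio c from hr),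
          Set.indicator_of_mem (show c + ρ * (r - c) ∈ Iio c from h2), if_pos hr]
        congr 1
        ring
      · have h2 : ¬ c + ρ * (r - c) < c := by
          have : 0 ≤ r - c := by linarith
          have := mul_nonneg hρ.le this
          linarith
        rw [Set.indicator_of_notMem (show r ∉ Iio c from hr),
          Set.indicator_of_notMem (show c + ρ * (r - c) ∉ Iio c from h2)]
    have e2 : ∫⁻ r in Iio c, (if r < c then ENNReal.ofReal ρ⁻¹ else 1) * Ψ r =
        ∫⁻ r in Iio c, ENNReal.ofReal ρ⁻¹ * Ψ r := by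
      refine setLIntegral_congr_fun measurableSet_Iio fun r hr => ?_
      have hr' : r < c := hr
      simp only [if_pos hr']
    rw [e1, fd_lin hρ (hΨ.indicator measurableSet_Iio), e2, lintegral_const_mul _ hΨ,
      lintegral_indicator measurableSet_Iio]
  · refine setLIntegral_congr_fun measurableSet_Iio.compl fun r hr => ?_
    have hr' : ¬ r < c := hr
    simp only [if_neg hr', one_mul]

theorem cov_lin {c ρ : ℝ} (hρ : 0 < ρ) {Ψ : ℝ → ℝ≥0∞} (hΨ : Measurable Ψ) :
    ∫⁻ r, Ψ (c + ρ * (r - c)) = ENNReal.ofReal ρ⁻¹ * ∫⁻ r, Ψ r :=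
  fd_lin hρ hΨ
/- END fd -/

/- MODULE fe
Change of variables for the flow.  `Am s` is the composition of the maps `F_x` (`x` free, `≠ v`)
which move only the coordinate `x`, and whose thresholds only depend on `H v`; these maps commute.
Induction over finite sets `S` of free sites not containing `v`, for the partial flow `A_S`:
`∫ Ψ (A_S h) ≤ ∫ w_S h * Ψ h`, `w_S = ∏ x ∈ S, w_x`, `w_u = 2`,
`w_x h = if h x < ct x then 5 else 1` otherwise; the step is `fib_le` with `cov_one` / `cov_lin`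
(`(1 - s/2)⁻¹ ≤ 2`, `(1 - 4 s/5)⁻¹ ≤ 5`), as `A_(S ∪ {x}) = F_x ∘ A_S` and `w_S (F_x h) = w_S h`.
Finally `w_S = 2 * 5 ^ Nn` for `S = D \ {v}` (`≤` is enough).  Second statement: `Ψ` times the
indicator of `Reg`, with `Am_Reg`. -/
private theorem fe_dep {D : Finset (ℤ × ℤ)} {b : ℤ × ℤ → ℝ} {u v : ℤ × ℤ} (s : ℝ)
    {h h' : D → ℝ} {x : D} (hx : h x = h' x) (hv : gl D b h v = gl D b h' v) :
    Am D b u v s h x = Am D b u v s h' x := by
  unfold Am ct
  rw [hx, hv]

private theorem fe_gl {D : Finset (ℤ × ℤ)} {b : ℤ × ℤ → ℝ} {v : ℤ × ℤ} {h h' : D → ℝ}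
    (H : ∀ x : D, x.1 = v → h x = h' x) : gl D b h v = gl D b h' v := by
  by_cases hv : v ∈ D
  · rw [gl_mem hv, gl_mem hv]
    exact H ⟨v, hv⟩ rfl
  · rw [gl_not_mem hv, gl_not_mem hv]

private def fe_w (D : Finset (ℤ × ℤ)) (b : ℤ × ℤ → ℝ) (u v : ℤ × ℤ) (x : D) (h : D → ℝ) :
    ℝ≥0∞ :=
  if x.1 = u then 2 else if h x < ct D b u v h x.1 then 5 else 1

private theorem fe_wdep {D : Finset (ℤ × ℤ)} {b : ℤ × ℤ → ℝ} {u v : ℤ × ℤ}
    {h h' : D → ℝ} {x : D} (hx : h x = h' x) (hv : gl D b h v = gl D b h' v) :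
    fe_w D b u v x h = fe_w D b u v x h' := by
  unfold fe_w ct
  rw [hx, hv]

private theorem fe_wmeas (D : Finset (ℤ × ℤ)) (b : ℤ × ℤ → ℝ) (u v : ℤ × ℤ) (x : D) :
    Measurable (fe_w D b u v x) := by
  unfold fe_w
  by_cases hx : x.1 = u
  · simp only [hx, if_true]
    exact measurable_const
  · simp only [hx, if_false]
    refine Measurable.ite ?_ measurable_const measurable_const
    refine measurableSet_lt (measurable_pi_apply x) ?_
    unfold ct
    exact ((gl_meas D b v).add_const _).sub_const _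

private theorem fe_fmeas (D : Finset (ℤ × ℤ)) (b : ℤ × ℤ → ℝ) (u v : ℤ × ℤ) (s : ℝ) (a : D) :
    Measurable (fun h : D → ℝ => Function.update h a (Am D b u v s h a)) := by
  have hA : Measurable (fun h : D → ℝ => Am D b u v s h a) :=
    (measurable_pi_apply a).comp ((Am_meas D b u v).comp (measurable_const.prodMk measurable_id))
  refine measurable_pi_lambda _ fun x => ?_
  by_cases hx : x = a
  · subst hx
    simp only [Function.update_self]
    exact hA
  · simp only [Function.update_of_ne hx]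
    exact measurable_pi_apply x

private theorem fe_step {D : Finset (ℤ × ℤ)} {b : ℤ × ℤ → ℝ} {u v : ℤ × ℤ} {s : ℝ}
    (h0 : 0 ≤ s) (h1 : s ≤ 1) {a : D} (ha : a.1 ≠ v) {Φ : (D → ℝ) → ℝ≥0∞} (hΦ : Measurable Φ) :
    ∫⁻ h, Φ (Function.update h a (Am D b u v s h a)) ≤ ∫⁻ h, fe_w D b u v a h * Φ h := by
  refine fib_le a (hΦ.comp (fe_fmeas D b u v s a)) ((fe_wmeas D b u v a).mul hΦ) fun h => ?_
  have hv : ∀ r, gl D b (Function.update h a r) v = gl D b h v := by
    intro r
    refine fe_gl fun x hx => ?_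
    have : x ≠ a := by
      rintro rfl
      exact ha hx
    rw [Function.update_of_ne this]
  have hu : ∀ r, Function.update (Function.update h a r) a
      (Am D b u v s (Function.update h a r) a) =
      Function.update h a (Am D b u v s (Function.update h a r) a) := by
    intro r
    rw [Function.update_idem]
  simp only [hu]
  have hm : Measurable (fun r => Φ (Function.update h a r)) := hΦ.comp (measurable_update h)
  by_cases hau : a.1 = u
  · have hA : ∀ r, Am D b u v s (Function.update h a r) a =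
        (gl D b h v + 1) + (1 - s / 2) * (r - (gl D b h v + 1)) := by
      intro r
      unfold Am
      rw [if_neg ha, if_pos hau, hv, Function.update_self]
    have hw : ∀ r, fe_w D b u v a (Function.update h a r) = 2 := by
      intro r
      unfold fe_w
      rw [if_pos hau]
    simp only [hA, hw]
    rw [cov_lin (Ψ := fun r => Φ (Function.update h a r)) (by linarith) hm,
      lintegral_const_mul _ hm]
    refine mul_le_mul_left ?_ _
    have : (1 - s / 2)⁻¹ ≤ 2 := by
      rw [inv_le_comm₀ (by linarith) (by norm_num)]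
      linarith
    calc ENNReal.ofReal (1 - s / 2)⁻¹ ≤ ENNReal.ofReal 2 := ENNReal.ofReal_le_ofReal this
      _ = 2 := by norm_num
  · have hA : ∀ r, Am D b u v s (Function.update h a r) a =
        if r < ct D b u v h a.1 then
          ct D b u v h a.1 - (1 - 4 * s / 5) * (ct D b u v h a.1 - r) else r := by
      intro r
      unfold Am ct
      rw [if_neg ha, if_neg hau, hv, Function.update_self]
    have hw : ∀ r, fe_w D b u v a (Function.update h a r) =
        if r < ct D b u v h a.1 then 5 else 1 := by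
      intro r
      unfold fe_w ct
      rw [if_neg hau, hv, Function.update_self]
    simp only [hA, hw]
    rw [cov_one (Ψ := fun r => Φ (Function.update h a r)) (by linarith) hm]
    refine lintegral_mono fun r => mul_le_mul_left ?_ _
    by_cases hr : r < ct D b u v h a.1
    · simp only [hr, if_true]
      have : (1 - 4 * s / 5)⁻¹ ≤ 5 := by
        rw [inv_le_comm₀ (by linarith) (by norm_num)]
        linarith
      calc ENNReal.ofReal (1 - 4 * s / 5)⁻¹ ≤ ENNReal.ofReal 5 := ENNReal.ofReal_le_ofReal this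
        _ = 5 := by norm_num
    · simp only [hr, if_false]
      exact le_rfl

private theorem fe_ind {D : Finset (ℤ × ℤ)} {b : ℤ × ℤ → ℝ} {u v : ℤ × ℤ} {s : ℝ}
    (h0 : 0 ≤ s) (h1 : s ≤ 1) (S : Finset D) : (∀ x ∈ S, x.1 ≠ v) →
    ∀ {Ψ : (D → ℝ) → ℝ≥0∞}, Measurable Ψ →
    ∫⁻ h, Ψ (fun x => if x ∈ S then Am D b u v s h x else h x) ≤
      ∫⁻ h, (∏ x ∈ S, fe_w D b u v x h) * Ψ h := by
  induction S using Finset.induction_on with
  | empty =>
    intro _ Ψ _
    simp
  | insert a S ha ih =>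
    intro hS Ψ hΨ
    have haS : a.1 ≠ v := hS a (Finset.mem_insert_self a S)
    have hS' : ∀ x ∈ S, x.1 ≠ v := fun x hx => hS x (Finset.mem_insert_of_mem hx)
    have e1 : ∀ h : D → ℝ, (fun x => if x ∈ insert a S then Am D b u v s h x else h x) =
        Function.update (fun x => if x ∈ S then Am D b u v s h x else h x) a
          (Am D b u v s (fun x => if x ∈ S then Am D b u v s h x else h x) a) := by
      intro h
      funext x
      by_cases hx : x = a
      · subst hx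
        rw [Function.update_self, if_pos (Finset.mem_insert_self _ _)]
        refine fe_dep s ?_ ?_
        · rw [if_neg ha]
        · refine fe_gl fun y hy => ?_
          rw [if_neg (fun hyS => hS' y hyS hy)]
      · rw [Function.update_of_ne hx]
        simp only [Finset.mem_insert, hx, false_or]
    simp only [e1]
    refine (ih hS' (hΨ.comp (fe_fmeas D b u v s a))).trans ?_
    have hΦ : Measurable (fun h => (∏ x ∈ S, fe_w D b u v x h) * Ψ h) :=
      (Finset.measurable_prod S fun x _ => fe_wmeas D b u v x).mul hΨ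
    have e2 : ∀ h : D → ℝ, (∏ x ∈ S, fe_w D b u v x h) *
        (Ψ ∘ fun h => Function.update h a (Am D b u v s h a)) h =
        (fun h => (∏ x ∈ S, fe_w D b u v x h) * Ψ h)
          (Function.update h a (Am D b u v s h a)) := by
      intro h
      show _ = (∏ x ∈ S, fe_w D b u v x (Function.update h a (Am D b u v s h a))) *
        Ψ (Function.update h a (Am D b u v s h a))
      congr 1
      refine Finset.prod_congr rfl fun x hx => fe_wdep ?_ ?_
      · have hne : x ≠ a := by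
          rintro rfl
          exact ha hx
        rw [Function.update_of_ne hne]
      · refine fe_gl fun y hy => ?_
        have hne : y ≠ a := by
          rintro rfl
          exact haS hy
        rw [Function.update_of_ne hne]
    simp only [e2]
    refine (fe_step h0 h1 haS hΦ).trans (le_of_eq ?_)
    congr 1
    funext h
    rw [Finset.prod_insert ha, mul_assoc]

private theorem fe_wle {D : Finset (ℤ × ℤ)} {b : ℤ × ℤ → ℝ} {u v : ℤ × ℤ} (h : D → ℝ) :
    ∏ x ∈ (Finset.univ : Finset D).filter (fun x => x.1 ≠ v), fe_w D b u v x h ≤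
      2 * 5 ^ (Nn D b u v h) := by
  classical
  have e1 : ∀ x ∈ (Finset.univ : Finset D).filter (fun x => x.1 ≠ v), fe_w D b u v x h =
      (if x.1 = u then 2 else 1) *
        (if x.1 ≠ u ∧ h x < ct D b u v h x.1 then 5 else 1) := by
    intro x _
    unfold fe_w
    by_cases hx : x.1 = u
    · simp [hx]
    · simp [hx]
  rw [Finset.prod_congr rfl e1, Finset.prod_mul_distrib, Finset.prod_ite, Finset.prod_ite]
  simp only [Finset.prod_const, one_pow, mul_one]
  refine mul_le_mul' ?_ ?_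
  · have hc : (((Finset.univ : Finset D).filter (fun x => x.1 ≠ v)).filter
        (fun x => x.1 = u)).card ≤ 1 := by
      rw [Finset.card_le_one]
      intro x hx y hy
      exact Subtype.ext ((Finset.mem_filter.1 hx).2.trans (Finset.mem_filter.1 hy).2.symm)
    calc (2 : ℝ≥0∞) ^ _ ≤ 2 ^ 1 := pow_le_pow_right₀ (by norm_num) hc
      _ = 2 := pow_one 2
  · refine pow_le_pow_right₀ (by norm_num) ?_
    unfold Nn Ns
    refine Finset.card_le_card_of_injOn (fun x => x.1) ?_ ?_
    · intro x hx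
      obtain ⟨hx1, hx2, hx3⟩ := Finset.mem_filter.1 (Finset.mem_coe.1 hx)
      refine Finset.mem_coe.2 (Finset.mem_filter.2 ⟨x.2, hx2, (Finset.mem_filter.1 hx1).2, ?_⟩)
      unfold qf
      unfold ct at hx3
      rw [gl_mem x.2]
      have : h ⟨x.1, x.2⟩ = h x := rfl
      rw [this]
      linarith
    · intro x _ y _ hxy
      exact Subtype.ext hxy

theorem Am_cov {D : Finset (ℤ × ℤ)} {b : ℤ × ℤ → ℝ} {u v : ℤ × ℤ} {s : ℝ} (h0 : 0 ≤ s)
    (h1 : s ≤ 1) {Ψ : (D → ℝ) → ℝ≥0∞} (hΨ : Measurable Ψ) :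
    ∫⁻ h, Ψ (Am D b u v s h) ≤ ∫⁻ h, 2 * 5 ^ (Nn D b u v h) * Ψ h := by
  have h2 := fe_ind (b := b) (u := u) h0 h1
    ((Finset.univ : Finset D).filter (fun x => x.1 ≠ v))
    (fun x hx => (Finset.mem_filter.1 hx).2) hΨ
  have e : ∀ h : D → ℝ, (fun x => if x ∈ (Finset.univ : Finset D).filter (fun x => x.1 ≠ v) then
      Am D b u v s h x else h x) = Am D b u v s h := by
    intro h
    funext x
    by_cases hx : x.1 = v
    · rw [if_neg (by simp [hx])]
      unfold Am
      rw [if_pos hx]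
    · rw [if_pos (by simp [hx])]
  simp only [e] at h2
  exact h2.trans (lintegral_mono fun h => mul_le_mul_left (fe_wle h) _)

theorem Am_cov_Reg {D : Finset (ℤ × ℤ)} {b : ℤ × ℤ → ℝ} (hb : ∀ z, |b z| ≤ 1 / 2)
    {u v : ℤ × ℤ} (hg : Good D b u v) {s : ℝ} (h0 : 0 ≤ s) (h1 : s ≤ 1)
    {Ψ : (D → ℝ) → ℝ≥0∞} (hΨ : Measurable Ψ) :
    ∫⁻ h in Reg D b v, Ψ (Am D b u v s h) ≤
      ∫⁻ h in Reg D b v, 2 * 5 ^ (Nn D b u v h) * Ψ h := by
  have hR := Reg_meas D b v
  rw [← lintegral_indicator hR, ← lintegral_indicator hR]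
  calc ∫⁻ h, (Reg D b v).indicator (fun h => Ψ (Am D b u v s h)) h
      ≤ ∫⁻ h, ((Reg D b v).indicator Ψ) (Am D b u v s h) := by
        refine lintegral_mono fun h => ?_
        by_cases hh : h ∈ Reg D b v
        · rw [Set.indicator_of_mem hh, Set.indicator_of_mem (Am_Reg hb hg h0 h1 hh)]
        · rw [Set.indicator_of_notMem hh]
          exact zero_le
    _ ≤ ∫⁻ h, 2 * 5 ^ (Nn D b u v h) * (Reg D b v).indicator Ψ h :=
        Am_cov h0 h1 (hΨ.indicator hR)
    _ = _ := by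
        congr 1
        funext h
        by_cases hh : h ∈ Reg D b v
        · rw [Set.indicator_of_mem hh, Set.indicator_of_mem hh]
        · rw [Set.indicator_of_notMem hh, Set.indicator_of_notMem hh, mul_zero]
/- END fe -/

/- MODULE ff
The derivative along the flow: with `k = Am 1 h - h`,
`g (Am 1 h) - g h = ∫_0^1 (fderiv g (Am s h)) k ds` (`Am_aff`: `Am s h = h + s • k`), and
`|fderiv g y k| = |∑ k x * pd x g y| ≤ √(∑ k x ^ 2) * √(gr g y)`; `Am_disp`. -/
theorem fderiv_le {ι : Type*} [Fintype ι] [DecidableEq ι] (g : (ι → ℝ) → ℝ) (y k : ι → ℝ) :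
    |fderiv ℝ g y k| ≤ Real.sqrt (∑ x, (k x) ^ 2) * Real.sqrt (gr g y) := by
  have h1 : k = ∑ x, k x • (Pi.single x (1 : ℝ) : ι → ℝ) := by
    funext z
    simp [Finset.sum_apply, Pi.single_apply]
  have h2 : fderiv ℝ g y k = ∑ x, k x * pd x g y := by
    conv_lhs => rw [h1]
    rw [map_sum]
    refine Finset.sum_congr rfl fun x _ => ?_
    rw [map_smul]
    rfl
  rw [h2, ← Real.sqrt_mul (Finset.sum_nonneg fun x _ => sq_nonneg _)]
  refine Real.abs_le_sqrt ?_
  exact Finset.sum_mul_sq_le_sq_mul_sq _ _ _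

theorem flow_le {D : Finset (ℤ × ℤ)} {b : ℤ × ℤ → ℝ} (hb : ∀ z, |b z| ≤ 1 / 2)
    {u v : ℤ × ℤ} (hg : Good D b u v) {g : (D → ℝ) → ℝ} (hC : ContDiff ℝ 1 g) {h : D → ℝ}
    (hh : h ∈ Reg D b v) :
    ENNReal.ofReal |g h| ≤ ENNReal.ofReal |g (Am D b u v 1 h)| +
      ∫⁻ s in Icc (0 : ℝ) 1, ENNReal.ofReal
        (Real.sqrt (1 + 4 * (Nn D b u v h : ℝ)) * Real.sqrt (gr g (Am D b u v s h))) := by
  set k : D → ℝ := fun x => Am D b u v 1 h x - h x with hk
  have hAm : ∀ s : ℝ, Am D b u v s h = h + s • k := by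
    intro s
    funext x
    rw [Am_aff s h x]
    rfl
  have hder : ∀ s : ℝ, HasDerivAt (fun s : ℝ => g (h + s • k)) (fderiv ℝ g (h + s • k) k) s := by
    intro s
    have h1 : HasFDerivAt g (fderiv ℝ g (h + s • k)) (h + s • k) :=
      (hC.differentiable (by norm_num)).differentiableAt.hasFDerivAt
    have h2 : HasDerivAt (fun s : ℝ => h + s • k) k s := by
      have h3 : HasDerivAt (fun s : ℝ => s • k) ((1 : ℝ) • k) s := (hasDerivAt_id s).smul_const k
      rw [one_smul] at h3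
      exact h3.const_add h
    exact h1.comp_hasDerivAt s h2
  have hcont : Continuous (fun s : ℝ => fderiv ℝ g (h + s • k) k) := by
    have h1 : Continuous (fderiv ℝ g) := hC.continuous_fderiv (by norm_num)
    exact (h1.comp (by fun_prop : Continuous fun s : ℝ => h + s • k)).clm_apply continuous_const
  have hFTC : ∫ s in (0 : ℝ)..1, fderiv ℝ g (h + s • k) k = g (h + (1 : ℝ) • k) -
      g (h + (0 : ℝ) • k) :=
    intervalIntegral.integral_eq_sub_of_hasDerivAt (fun s _ => hder s)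
      (hcont.intervalIntegrable _ _)
  have h1 : g (h + (1 : ℝ) • k) = g (Am D b u v 1 h) := by rw [hAm]
  have h0 : g (h + (0 : ℝ) • k) = g h := by simp
  rw [h1, h0, intervalIntegral.integral_of_le zero_le_one] at hFTC
  have hb1 : ∀ s : ℝ, ‖fderiv ℝ g (h + s • k) k‖ₑ ≤ ENNReal.ofReal
      (Real.sqrt (1 + 4 * (Nn D b u v h : ℝ)) * Real.sqrt (gr g (Am D b u v s h))) := by
    intro s
    rw [Real.enorm_eq_ofReal_abs]
    refine ENNReal.ofReal_le_ofReal ?_
    refine (fderiv_le g _ k).trans ?_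
    rw [← hAm s]
    refine mul_le_mul_of_nonneg_right (Real.sqrt_le_sqrt ?_) (Real.sqrt_nonneg _)
    exact Am_disp hb hg hh
  have hb2 : ENNReal.ofReal |g (Am D b u v 1 h) - g h| ≤
      ∫⁻ s in Icc (0 : ℝ) 1, ENNReal.ofReal
        (Real.sqrt (1 + 4 * (Nn D b u v h : ℝ)) * Real.sqrt (gr g (Am D b u v s h))) := by
    rw [← hFTC, ← Real.enorm_eq_ofReal_abs]
    refine (enorm_integral_le_lintegral_enorm _).trans ?_
    refine (lintegral_mono fun s => hb1 s).trans ?_
    exact lintegral_mono_set Ioc_subset_Icc_self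
  have hb3 : |g h| ≤ |g (Am D b u v 1 h)| + |g (Am D b u v 1 h) - g h| := by
    have := abs_sub_abs_le_abs_sub (g h) (g (Am D b u v 1 h))
    rw [abs_sub_comm (g (Am D b u v 1 h)) (g h)]
    linarith
  calc ENNReal.ofReal |g h| ≤ ENNReal.ofReal (|g (Am D b u v 1 h)| +
        |g (Am D b u v 1 h) - g h|) := ENNReal.ofReal_le_ofReal hb3
    _ = ENNReal.ofReal |g (Am D b u v 1 h)| + ENNReal.ofReal |g (Am D b u v 1 h) - g h| :=
        ENNReal.ofReal_add (abs_nonneg _) (abs_nonneg _)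
    _ ≤ _ := by gcongr
/- END ff -/

/- MODULE fg
Integrate `flow_le` over `Reg`, exchange the integrals, use `Am_cov_Reg` for every `s` and
`Nn_Am`.  For the first term use `Am_cov` with `Ψ = indicator of Qset * |g|` (`Am_one_Qset`). -/
private theorem fg_gr_cont {ι : Type*} [Fintype ι] [DecidableEq ι] {g : (ι → ℝ) → ℝ}
    (hC : ContDiff ℝ 1 g) : Continuous (gr g) := by
  have h1 : Continuous (fderiv ℝ g) := hC.continuous_fderiv (by norm_num)
  unfold gr pd
  exact continuous_finsetSum _ fun x _ => (h1.clm_apply continuous_const).pow 2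

theorem flow_int {D : Finset (ℤ × ℤ)} {b : ℤ × ℤ → ℝ} (hb : ∀ z, |b z| ≤ 1 / 2)
    {u v : ℤ × ℤ} (hg : Good D b u v) {g : (D → ℝ) → ℝ} (hC : ContDiff ℝ 1 g) :
    ∫⁻ h in Reg D b v, ENNReal.ofReal |g h| ≤
      (∫⁻ h in Qset D b u v, 2 * 5 ^ (Nn D b u v h) * ENNReal.ofReal |g h|) +
      ∫⁻ h in Reg D b v, 2 * 5 ^ (Nn D b u v h) * ENNReal.ofReal
        (Real.sqrt (1 + 4 * (Nn D b u v h : ℝ)) * Real.sqrt (gr g h)) := by
  have hRm := Reg_meas D b v
  have hQm := Qset_meas D b u v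
  have hNm : Measurable (fun h : D → ℝ => (Nn D b u v h : ℝ)) :=
    measurable_from_top.comp (Nn_meas D b u v)
  have hgm : Measurable (fun h : D → ℝ => ENNReal.ofReal |g h|) :=
    (hC.continuous.abs.measurable).ennreal_ofReal
  have hgrm : Measurable (gr g) := (fg_gr_cont hC).measurable
  have hΨ : Measurable (fun y : D → ℝ => ENNReal.ofReal
      (Real.sqrt (1 + 4 * (Nn D b u v y : ℝ)) * Real.sqrt (gr g y))) :=
    (((measurable_const.add (measurable_const.mul hNm)).sqrt).mul hgrm.sqrt).ennreal_ofReal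
  have hA1 : Measurable (fun h : D → ℝ => Am D b u v 1 h) :=
    (Am_meas D b u v).comp (measurable_const.prodMk measurable_id)
  have hAm2 : Measurable (fun p : (D → ℝ) × ℝ => Am D b u v p.2 p.1) :=
    (Am_meas D b u v).comp (measurable_snd.prodMk measurable_fst)
  have step1 : ∫⁻ h in Reg D b v, ENNReal.ofReal |g h| ≤
      ∫⁻ h in Reg D b v, (ENNReal.ofReal |g (Am D b u v 1 h)| +
        ∫⁻ s in Icc (0 : ℝ) 1, ENNReal.ofReal
          (Real.sqrt (1 + 4 * (Nn D b u v h : ℝ)) * Real.sqrt (gr g (Am D b u v s h)))) :=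
    setLIntegral_mono' hRm fun h hh => flow_le hb hg hC hh
  have hm1 : Measurable (fun h : D → ℝ => ENNReal.ofReal |g (Am D b u v 1 h)|) := hgm.comp hA1
  rw [lintegral_add_left hm1] at step1
  refine step1.trans (add_le_add ?_ ?_)
  · calc ∫⁻ h in Reg D b v, ENNReal.ofReal |g (Am D b u v 1 h)|
        ≤ ∫⁻ h in Reg D b v, (Qset D b u v).indicator (fun y => ENNReal.ofReal |g y|)
            (Am D b u v 1 h) := by
          refine setLIntegral_mono' hRm fun h hh => ?_
          rw [indicator_of_mem (Am_one_Qset hb hg hh)]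
      _ ≤ ∫⁻ h, (Qset D b u v).indicator (fun y => ENNReal.ofReal |g y|)
            (Am D b u v 1 h) := setLIntegral_le_lintegral _ _
      _ ≤ ∫⁻ h, 2 * 5 ^ (Nn D b u v h) *
            (Qset D b u v).indicator (fun y => ENNReal.ofReal |g y|) h :=
          Am_cov zero_le_one le_rfl (hgm.indicator hQm)
      _ = ∫⁻ h in Qset D b u v, 2 * 5 ^ (Nn D b u v h) * ENNReal.ofReal |g h| := by
          rw [← lintegral_indicator hQm]
          refine lintegral_congr fun h => ?_
          by_cases hh : h ∈ Qset D b u v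
          · rw [indicator_of_mem hh, indicator_of_mem hh]
          · rw [indicator_of_notMem hh, indicator_of_notMem hh, mul_zero]
  · have hswap : ∫⁻ h in Reg D b v, ∫⁻ s in Icc (0 : ℝ) 1, ENNReal.ofReal
          (Real.sqrt (1 + 4 * (Nn D b u v h : ℝ)) * Real.sqrt (gr g (Am D b u v s h))) =
        ∫⁻ s in Icc (0 : ℝ) 1, ∫⁻ h in Reg D b v, ENNReal.ofReal
          (Real.sqrt (1 + 4 * (Nn D b u v h : ℝ)) * Real.sqrt (gr g (Am D b u v s h))) := by
      refine lintegral_lintegral_swap (Measurable.aemeasurable ?_)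
      refine Measurable.ennreal_ofReal (Measurable.mul ?_ ?_)
      · exact (measurable_const.add (measurable_const.mul (hNm.comp measurable_fst))).sqrt
      · exact (hgrm.comp hAm2).sqrt
    rw [hswap]
    have hle : ∫⁻ s in Icc (0 : ℝ) 1, ∫⁻ h in Reg D b v, ENNReal.ofReal
          (Real.sqrt (1 + 4 * (Nn D b u v h : ℝ)) * Real.sqrt (gr g (Am D b u v s h))) ≤
        ∫⁻ _ in Icc (0 : ℝ) 1, ∫⁻ h in Reg D b v, 2 * 5 ^ (Nn D b u v h) * ENNReal.ofReal
          (Real.sqrt (1 + 4 * (Nn D b u v h : ℝ)) * Real.sqrt (gr g h)) := by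
      refine setLIntegral_mono' measurableSet_Icc fun s hs => ?_
      have h1 := Am_cov_Reg hb hg hs.1 hs.2 hΨ
      refine le_trans (le_of_eq ?_) h1
      refine lintegral_congr fun h => ?_
      rw [Nn_Am hs.1 hs.2]
    refine hle.trans ?_
    rw [setLIntegral_const, Real.volume_Icc]
    simp
/- END fg -/

/- MODULE fh
The last piece of the path, from `y ∈ Qset` to `Pm y`, only the coordinate `u` moves, from `y u` to
`H v + 1`: `|g y| ≤ |g (Pm y)| + ∫_{y u}^{H v + 1} |∂_u g (update y u r)| dr`.  Integrate over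
`Qset` with the weight `2 * 5 ^ Nn` (independent of the coordinate `u`, `Nn_Pm`) by `fib_le` for
the coordinate `u`: the fibre of `Qset` is an interval of length at most `1` with right end
`H v + 1` (`Qset_up`), so the double integral is at most the single one.  `gr g ≥ (∂_u g)^2`. -/
private theorem fh_upd {D : Finset (ℤ × ℤ)} {u : ℤ × ℤ} (hu : u ∈ D) (h : D → ℝ) (r : ℝ) :
    Function.update h ⟨u, hu⟩ r = fun x => if x.1 = u then r else h x := by
  funext x
  by_cases hx : x.1 = u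
  · have : x = ⟨u, hu⟩ := Subtype.ext hx
    subst this
    simp
  · rw [Function.update_of_ne (fun he => hx (by rw [he])), if_neg hx]

private theorem fh_grc {ι : Type*} [Fintype ι] [DecidableEq ι] {g : (ι → ℝ) → ℝ}
    (hC : ContDiff ℝ 1 g) : Continuous (gr g) := by
  unfold gr
  refine continuous_finsetSum _ fun x _ => Continuous.pow ?_ 2
  unfold pd
  exact (hC.continuous_fderiv (by norm_num)).clm_apply continuous_const

private theorem fh_ftc {ι : Type*} [Fintype ι] [DecidableEq ι] {g : (ι → ℝ) → ℝ}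
    (hC : ContDiff ℝ 1 g) (h : ι → ℝ) (u : ι) {r c : ℝ} (hrc : r ≤ c) :
    ENNReal.ofReal |g (Function.update h u r)| ≤ ENNReal.ofReal |g (Function.update h u c)| +
      ∫⁻ t in Icc r c, ENNReal.ofReal (Real.sqrt (gr g (Function.update h u t))) := by
  have hd : ∀ t, HasDerivAt (fun t => g (Function.update h u t))
      (pd u g (Function.update h u t)) t := by
    intro t
    have h1 : HasFDerivAt g (fderiv ℝ g (Function.update h u t)) (Function.update h u t) :=
      (hC.differentiable (by norm_num) _).hasFDerivAt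
    exact h1.comp_hasDerivAt t (hasDerivAt_update h u t)
  have hcont : Continuous (fun t => pd u g (Function.update h u t)) := by
    unfold pd
    exact ((hC.continuous_fderiv (by norm_num)).comp
      (continuous_const.update u continuous_id)).clm_apply continuous_const
  have hI : ∫ t in r..c, pd u g (Function.update h u t) =
      g (Function.update h u c) - g (Function.update h u r) :=
    intervalIntegral.integral_eq_sub_of_hasDerivAt (fun t _ => hd t)
      (hcont.intervalIntegrable _ _)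
  have h2 : ENNReal.ofReal |g (Function.update h u c) - g (Function.update h u r)| ≤
      ∫⁻ t in Icc r c, ENNReal.ofReal (Real.sqrt (gr g (Function.update h u t))) := by
    rw [← hI, intervalIntegral.integral_of_le hrc, ← Real.enorm_eq_ofReal_abs]
    refine (enorm_integral_le_lintegral_enorm _).trans ?_
    refine (lintegral_mono_set Set.Ioc_subset_Icc_self).trans ?_
    refine lintegral_mono fun t => ?_
    rw [Real.enorm_eq_ofReal_abs]
    refine ENNReal.ofReal_le_ofReal (Real.abs_le_sqrt ?_)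
    unfold gr
    exact Finset.single_le_sum (f := fun x => (pd x g (Function.update h u t)) ^ 2)
      (fun x _ => sq_nonneg _) (Finset.mem_univ u)
  calc ENNReal.ofReal |g (Function.update h u r)|
      ≤ ENNReal.ofReal (|g (Function.update h u c)| +
          |g (Function.update h u c) - g (Function.update h u r)|) := by
        refine ENNReal.ofReal_le_ofReal ?_
        have := abs_sub_abs_le_abs_sub (g (Function.update h u r)) (g (Function.update h u c))
        rw [abs_sub_comm] at this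
        linarith
    _ = ENNReal.ofReal |g (Function.update h u c)| +
          ENNReal.ofReal |g (Function.update h u c) - g (Function.update h u r)| :=
        ENNReal.ofReal_add (abs_nonneg _) (abs_nonneg _)
    _ ≤ _ := add_le_add_right h2 _

theorem seg_int {D : Finset (ℤ × ℤ)} {b : ℤ × ℤ → ℝ} {u v : ℤ × ℤ} (hg : Good D b u v)
    {g : (D → ℝ) → ℝ} (hC : ContDiff ℝ 1 g) :
    ∫⁻ h in Qset D b u v, 2 * 5 ^ (Nn D b u v h) * ENNReal.ofReal |g h| ≤
      (∫⁻ h in Qset D b u v, 2 * 5 ^ (Nn D b u v h) * ENNReal.ofReal |g (Pm D b u v h)|) +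
      ∫⁻ h in Qset D b u v, 2 * 5 ^ (Nn D b u v h) * ENNReal.ofReal (Real.sqrt (gr g h)) := by
  have hQ := Qset_meas D b u v
  have hgm : Measurable g := hC.continuous.measurable
  have hNm : Measurable (fun h : D → ℝ => (2 : ℝ≥0∞) * 5 ^ (Nn D b u v h)) :=
    ((measurable_from_top (f := fun n : ℕ => (5 : ℝ≥0∞) ^ n)).comp
      (Nn_meas D b u v)).const_mul 2
  have hPm : Measurable (Pm D b u v) := by
    refine measurable_pi_lambda _ fun x => ?_
    unfold Pm
    by_cases hx : x.1 = u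
    · simp only [hx, if_true]
      exact (gl_meas D b v).add_const 1
    · simp only [hx, if_false]
      exact measurable_pi_apply x
  have m1 : Measurable (fun h => 2 * 5 ^ (Nn D b u v h) * ENNReal.ofReal |g h|) :=
    hNm.mul (ENNReal.measurable_ofReal.comp hgm.abs)
  have m2 : Measurable (fun h => 2 * 5 ^ (Nn D b u v h) * ENNReal.ofReal |g (Pm D b u v h)|) :=
    hNm.mul (ENNReal.measurable_ofReal.comp (hgm.comp hPm).abs)
  have m3 : Measurable
      (fun h => 2 * 5 ^ (Nn D b u v h) * ENNReal.ofReal (Real.sqrt (gr g h))) :=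
    hNm.mul (ENNReal.measurable_ofReal.comp (fh_grc hC).measurable.sqrt)
  rw [← lintegral_add_left m2, ← lintegral_indicator hQ, ← lintegral_indicator hQ]
  refine fib_le (⟨u, hg.hu⟩ : D) (m1.indicator hQ) ((m2.add m3).indicator hQ) fun h => ?_
  have huv := hg.ne
  set c := gl D b h v with hc
  have hv : ∀ r, gl D b (Function.update h ⟨u, hg.hu⟩ r) v = c := by
    intro r
    by_cases hvD : v ∈ D
    · rw [hc, gl_mem hvD, gl_mem hvD, Function.update_of_ne]
      intro he
      exact huv (congrArg Subtype.val he).symm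
    · rw [hc, gl_not_mem hvD, gl_not_mem hvD]
  have hN : ∀ r, Nn D b u v (Function.update h ⟨u, hg.hu⟩ r) = Nn D b u v h := by
    intro r
    rw [fh_upd]
    exact Nn_Pm huv h r
  have hP : ∀ r, Pm D b u v (Function.update h ⟨u, hg.hu⟩ r) =
      Function.update h ⟨u, hg.hu⟩ (c + 1) := by
    intro r
    funext x
    unfold Pm
    rw [hv]
    by_cases hx : x.1 = u
    · have : x = ⟨u, hg.hu⟩ := Subtype.ext hx
      subst this
      simp
    · have hne : x ≠ ⟨u, hg.hu⟩ := fun he => hx (by rw [he])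
      rw [if_neg hx, Function.update_of_ne hne, Function.update_of_ne hne]
  have hglu : ∀ r, gl D b (Function.update h ⟨u, hg.hu⟩ r) u = r := by
    intro r
    rw [gl_mem hg.hu, Function.update_self]
  set J : Set ℝ := {r | Function.update h ⟨u, hg.hu⟩ r ∈ Qset D b u v} with hJ
  have hJm : MeasurableSet J := measurable_update h hQ
  have hJ1 : J ⊆ Icc c (c + 1) := by
    intro r hr
    obtain ⟨_, _, _, h4, h5⟩ := hr
    rw [hv, hglu] at h4 h5
    exact ⟨h4, h5⟩
  have hJ2 : ∀ r ∈ J, Icc r (c + 1) ⊆ J := by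
    intro r hr t ht
    have := Qset_up hg hr (t := t) (by rw [hglu]; exact ht.1) (by rw [hv]; exact ht.2)
    show Function.update h ⟨u, hg.hu⟩ t ∈ Qset D b u v
    rw [fh_upd]
    convert this using 1
    funext x
    by_cases hx : x.1 = u
    · simp [hx]
    · simp only [hx, if_false]
      rw [Function.update_of_ne (fun he => hx (by rw [he]))]
  have hind : ∀ (F : (D → ℝ) → ℝ≥0∞) (r : ℝ),
      (Qset D b u v).indicator F (Function.update h ⟨u, hg.hu⟩ r) =
        J.indicator (fun r => F (Function.update h ⟨u, hg.hu⟩ r)) r := by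
    intro F r
    by_cases hr : r ∈ J
    · rw [Set.indicator_of_mem hr, Set.indicator_of_mem (show _ ∈ Qset D b u v from hr)]
    · rw [Set.indicator_of_notMem hr, Set.indicator_of_notMem (show _ ∉ Qset D b u v from hr)]
  simp only [hind]
  rw [lintegral_indicator hJm, lintegral_indicator hJm]
  simp only [hN, hP]
  set κ : ℝ≥0∞ := 2 * 5 ^ (Nn D b u v h) with hκ
  have mg : Measurable (fun t => ENNReal.ofReal
      (Real.sqrt (gr g (Function.update h ⟨u, hg.hu⟩ t)))) :=
    ENNReal.measurable_ofReal.comp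
      ((fh_grc hC).measurable.comp (measurable_update h)).sqrt
  set A : ℝ≥0∞ := ∫⁻ t in J, ENNReal.ofReal
    (Real.sqrt (gr g (Function.update h ⟨u, hg.hu⟩ t))) with hA
  have hvol : volume J ≤ 1 := by
    refine (measure_mono hJ1).trans (le_of_eq ?_)
    rw [Real.volume_Icc]
    norm_num
  calc ∫⁻ r in J, κ * ENNReal.ofReal |g (Function.update h ⟨u, hg.hu⟩ r)|
      ≤ ∫⁻ _r in J, (κ * ENNReal.ofReal |g (Function.update h ⟨u, hg.hu⟩ (c + 1))| + κ * A) := by
        refine setLIntegral_mono' hJm fun r hr => ?_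
        rw [← mul_add]
        refine mul_le_mul_right ((fh_ftc hC h ⟨u, hg.hu⟩ (hJ1 hr).2).trans ?_) _
        exact add_le_add_right (lintegral_mono_set (hJ2 r hr)) _
    _ = (κ * ENNReal.ofReal |g (Function.update h ⟨u, hg.hu⟩ (c + 1))|) * volume J +
          κ * A * volume J := by
        rw [setLIntegral_const, add_mul]
    _ ≤ (κ * ENNReal.ofReal |g (Function.update h ⟨u, hg.hu⟩ (c + 1))|) * volume J + κ * A := by
        refine add_le_add_right ?_ _
        calc κ * A * volume J ≤ κ * A * 1 := mul_le_mul_right hvol _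
          _ = κ * A := mul_one _
    _ = ∫⁻ r in J, (κ * ENNReal.ofReal |g (Function.update h ⟨u, hg.hu⟩ (c + 1))| +
          κ * ENNReal.ofReal (Real.sqrt (gr g (Function.update h ⟨u, hg.hu⟩ r)))) := by
        rw [lintegral_add_left measurable_const, setLIntegral_const,
          lintegral_const_mul _ mg]
/- END fh -/

/- MODULE fi
THE LOCAL INEQUALITY.  `flow_int`, `seg_int`, `Qset ⊆ Reg`, then Cauchy-Schwarz
(`ENNReal.lintegral_mul_le_Lp_mul_Lq`, `p = q = 2`) with
`(2 * 5 ^ N * (√(1 + 4 N) + 1)) ^ 2 ≤ 16 * 75 ^ N` (`(√(1+4N) + 1)^2 ≤ 4 * 3 ^ N`), and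
`Nn ≤ D.card` in the facet term. -/
private theorem fi_num (N : ℕ) :
    2 * 5 ^ N * Real.sqrt (1 + 4 * (N : ℝ)) + 2 * 5 ^ N ≤ 4 * Real.sqrt (75 ^ N) := by
  have h3 : (1 : ℝ) + 2 * (N : ℝ) ≤ 3 ^ N := by
    have := one_add_mul_le_pow (show (-2 : ℝ) ≤ 2 by norm_num) N
    have h : (1 : ℝ) + 2 = 3 := by norm_num
    rw [h] at this
    linarith
  have hN : (0 : ℝ) ≤ N := Nat.cast_nonneg N
  have hs : 0 ≤ Real.sqrt (1 + 4 * (N : ℝ)) := Real.sqrt_nonneg _
  have hs2 : Real.sqrt (1 + 4 * (N : ℝ)) ^ 2 = 1 + 4 * (N : ℝ) :=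
    Real.sq_sqrt (by linarith)
  have h5 : (0 : ℝ) < 5 ^ N := by positivity
  have h75 : (75 : ℝ) ^ N = (5 ^ N) ^ 2 * 3 ^ N := by
    rw [← pow_mul, mul_comm N 2, pow_mul, ← mul_pow]
    norm_num
  have e : 4 * Real.sqrt (75 ^ N) = Real.sqrt (16 * 75 ^ N) := by
    rw [Real.sqrt_mul (by norm_num : (0 : ℝ) ≤ 16)]
    congr 1
    rw [show (16 : ℝ) = 4 ^ 2 by norm_num, Real.sqrt_sq (by norm_num)]
  rw [e]
  apply Real.le_sqrt_of_sq_le
  rw [h75]
  have key : (Real.sqrt (1 + 4 * (N : ℝ)) + 1) ^ 2 ≤ 4 * 3 ^ N := by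
    nlinarith [sq_nonneg (Real.sqrt (1 + 4 * (N : ℝ)) - 1)]
  calc (2 * 5 ^ N * Real.sqrt (1 + 4 * (N : ℝ)) + 2 * 5 ^ N) ^ 2
      = 4 * (5 ^ N) ^ 2 * (Real.sqrt (1 + 4 * (N : ℝ)) + 1) ^ 2 := by ring
    _ ≤ 4 * (5 ^ N) ^ 2 * (4 * 3 ^ N) :=
        mul_le_mul_of_nonneg_left key (by positivity)
    _ = 16 * ((5 ^ N) ^ 2 * 3 ^ N) := by ring

private theorem fi_enn (N : ℕ) (a : ℝ) (ha : 0 ≤ a) :
    (2 : ℝ≥0∞) * 5 ^ N * ENNReal.ofReal (Real.sqrt (1 + 4 * (N : ℝ)) * a) +
      2 * 5 ^ N * ENNReal.ofReal a ≤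
    4 * (ENNReal.ofReal a * ((75 : ℝ≥0∞) ^ N) ^ (1 / 2 : ℝ)) := by
  have c2 : (2 : ℝ≥0∞) = ENNReal.ofReal 2 := by norm_num
  have c4 : (4 : ℝ≥0∞) = ENNReal.ofReal 4 := by norm_num
  have c5 : (5 : ℝ≥0∞) ^ N = ENNReal.ofReal (5 ^ N) := by
    rw [ENNReal.ofReal_pow (by norm_num)]
    norm_num
  have c75 : ((75 : ℝ≥0∞) ^ N) ^ (1 / 2 : ℝ) = ENNReal.ofReal (Real.sqrt (75 ^ N)) := by
    rw [Real.sqrt_eq_rpow, ← ENNReal.ofReal_rpow_of_nonneg (by positivity) (by norm_num),
      ENNReal.ofReal_pow (by norm_num)]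
    norm_num
  rw [c75, c2, c4, c5]
  have hs : 0 ≤ Real.sqrt (1 + 4 * (N : ℝ)) := Real.sqrt_nonneg _
  rw [← ENNReal.ofReal_mul (by norm_num), ← ENNReal.ofReal_mul (by positivity),
    ← ENNReal.ofReal_mul (by positivity), ← ENNReal.ofReal_mul ha,
    ← ENNReal.ofReal_mul (by norm_num), ← ENNReal.ofReal_add (by positivity) (by positivity)]
  apply ENNReal.ofReal_le_ofReal
  have := mul_le_mul_of_nonneg_right (fi_num N) ha
  nlinarith [this]

private theorem fi_pd_cont {ι : Type*} [Fintype ι] [DecidableEq ι] {g : (ι → ℝ) → ℝ}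
    (hC : ContDiff ℝ 1 g) : Continuous (gr g) := by
  have h1 : Continuous (fun h => fderiv ℝ g h) := hC.continuous_fderiv (by norm_num)
  unfold gr pd
  refine continuous_finsetSum _ fun x _ => ?_
  exact (h1.clm_apply continuous_const).pow 2

private theorem fi_Qset_sub (D : Finset (ℤ × ℤ)) (b : ℤ × ℤ → ℝ) (u v : ℤ × ℤ) :
    Qset D b u v ⊆ Reg D b v := fun _ hh => ⟨hh.1, hh.2.1⟩

private theorem fi_Reg_sub (D : Finset (ℤ × ℤ)) (b : ℤ × ℤ → ℝ) (v : ℤ × ℤ) :
    Reg D b v ⊆ K D b := fun _ hh => hh.1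

theorem local_ineq {D : Finset (ℤ × ℤ)} {b : ℤ × ℤ → ℝ} (hb : ∀ z, |b z| ≤ 1 / 2)
    {u v : ℤ × ℤ} (hg : Good D b u v) {g : (D → ℝ) → ℝ} (hC : ContDiff ℝ 1 g) :
    ∫⁻ h in Reg D b v, ENNReal.ofReal |g h| ≤
      4 * (∫⁻ h in K D b, ENNReal.ofReal (gr g h)) ^ (1 / 2 : ℝ) *
        (∫⁻ h in Reg D b v, (75 : ℝ≥0∞) ^ (Nn D b u v h)) ^ (1 / 2 : ℝ) +
      2 * 5 ^ D.card * ∫⁻ h in Qset D b u v, ENNReal.ofReal |g (Pm D b u v h)| := by
  have hNm : Measurable (Nn D b u v) := Nn_meas D b u v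
  have hgr : Measurable (gr g) := (fi_pd_cont hC).measurable
  have hpow : ∀ c : ℝ≥0∞, Measurable (fun h => c ^ (Nn D b u v h)) := by
    intro c
    exact (measurable_from_top (f := fun n : ℕ => c ^ n)).comp hNm
  have hsq : Measurable (fun h => ENNReal.ofReal (Real.sqrt (gr g h))) :=
    (Real.continuous_sqrt.measurable.comp hgr).ennreal_ofReal
  have hgr0 : ∀ h, 0 ≤ gr g h := fun h => Finset.sum_nonneg fun x _ => sq_nonneg _
  -- the bulk term
  have hbulk : (∫⁻ h in Reg D b v, 2 * 5 ^ (Nn D b u v h) * ENNReal.ofReal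
        (Real.sqrt (1 + 4 * (Nn D b u v h : ℝ)) * Real.sqrt (gr g h))) +
      ∫⁻ h in Qset D b u v, 2 * 5 ^ (Nn D b u v h) * ENNReal.ofReal (Real.sqrt (gr g h)) ≤
      4 * ((∫⁻ h in K D b, ENNReal.ofReal (gr g h)) ^ (1 / 2 : ℝ) *
        (∫⁻ h in Reg D b v, (75 : ℝ≥0∞) ^ (Nn D b u v h)) ^ (1 / 2 : ℝ)) := by
    calc (∫⁻ h in Reg D b v, 2 * 5 ^ (Nn D b u v h) * ENNReal.ofReal
        (Real.sqrt (1 + 4 * (Nn D b u v h : ℝ)) * Real.sqrt (gr g h))) +
      ∫⁻ h in Qset D b u v, 2 * 5 ^ (Nn D b u v h) * ENNReal.ofReal (Real.sqrt (gr g h))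
        ≤ (∫⁻ h in Reg D b v, 2 * 5 ^ (Nn D b u v h) * ENNReal.ofReal
        (Real.sqrt (1 + 4 * (Nn D b u v h : ℝ)) * Real.sqrt (gr g h))) +
      ∫⁻ h in Reg D b v, 2 * 5 ^ (Nn D b u v h) * ENNReal.ofReal (Real.sqrt (gr g h)) := by
          exact add_le_add le_rfl (lintegral_mono_set (fi_Qset_sub D b u v))
      _ = ∫⁻ h in Reg D b v, (2 * 5 ^ (Nn D b u v h) * ENNReal.ofReal
        (Real.sqrt (1 + 4 * (Nn D b u v h : ℝ)) * Real.sqrt (gr g h)) +
          2 * 5 ^ (Nn D b u v h) * ENNReal.ofReal (Real.sqrt (gr g h))) := by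
          rw [lintegral_add_right]
          exact ((hpow 5).const_mul 2).mul hsq
      _ ≤ ∫⁻ h in Reg D b v, 4 * (ENNReal.ofReal (Real.sqrt (gr g h)) *
            ((75 : ℝ≥0∞) ^ (Nn D b u v h)) ^ (1 / 2 : ℝ)) := by
          refine lintegral_mono fun h => ?_
          exact fi_enn _ _ (Real.sqrt_nonneg _)
      _ = 4 * ∫⁻ h in Reg D b v, (ENNReal.ofReal (Real.sqrt (gr g h)) *
            ((75 : ℝ≥0∞) ^ (Nn D b u v h)) ^ (1 / 2 : ℝ)) := by
          rw [lintegral_const_mul]
          exact hsq.mul ((hpow 75).pow_const _)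
      _ ≤ 4 * ((∫⁻ h in Reg D b v, (ENNReal.ofReal (Real.sqrt (gr g h))) ^ (2 : ℝ)) ^ (1 / 2 : ℝ) *
            (∫⁻ h in Reg D b v,
              (((75 : ℝ≥0∞) ^ (Nn D b u v h)) ^ (1 / 2 : ℝ)) ^ (2 : ℝ)) ^ (1 / 2 : ℝ)) := by
          gcongr
          have hpq : (2 : ℝ).HolderConjugate 2 := by
            constructor <;> norm_num
          exact ENNReal.lintegral_mul_le_Lp_mul_Lq _ hpq hsq.aemeasurable
            ((hpow 75).pow_const _).aemeasurable
      _ ≤ _ := by
          have i1 : ∫⁻ h in Reg D b v, (ENNReal.ofReal (Real.sqrt (gr g h))) ^ (2 : ℝ) ≤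
              ∫⁻ h in K D b, ENNReal.ofReal (gr g h) := by
            calc ∫⁻ h in Reg D b v, (ENNReal.ofReal (Real.sqrt (gr g h))) ^ (2 : ℝ)
                = ∫⁻ h in Reg D b v, ENNReal.ofReal (gr g h) := by
                  refine lintegral_congr fun h => ?_
                  rw [ENNReal.ofReal_rpow_of_nonneg (Real.sqrt_nonneg _) (by norm_num)]
                  congr 1
                  rw [Real.rpow_two, Real.sq_sqrt (hgr0 h)]
              _ ≤ _ := lintegral_mono_set (fi_Reg_sub D b v)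
          have i2 : ∫⁻ h in Reg D b v,
              (((75 : ℝ≥0∞) ^ (Nn D b u v h)) ^ (1 / 2 : ℝ)) ^ (2 : ℝ) =
              ∫⁻ h in Reg D b v, (75 : ℝ≥0∞) ^ (Nn D b u v h) := by
            refine lintegral_congr fun h => ?_
            rw [← ENNReal.rpow_mul]
            norm_num
          rw [i2]
          exact mul_le_mul_right (mul_le_mul_left (ENNReal.rpow_le_rpow i1 (by norm_num)) _) _
  have hfacet : ∫⁻ h in Qset D b u v, 2 * 5 ^ (Nn D b u v h) *
        ENNReal.ofReal |g (Pm D b u v h)| ≤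
      2 * 5 ^ D.card * ∫⁻ h in Qset D b u v, ENNReal.ofReal |g (Pm D b u v h)| := by
    rw [← lintegral_const_mul']
    · refine lintegral_mono fun h => ?_
      have : (5 : ℝ≥0∞) ^ (Nn D b u v h) ≤ 5 ^ D.card :=
        pow_le_pow_right₀ (by norm_num) (Nn_le h)
      gcongr
    · exact ENNReal.mul_ne_top (by norm_num) (ENNReal.pow_ne_top (by norm_num))
  calc ∫⁻ h in Reg D b v, ENNReal.ofReal |g h|
      ≤ (∫⁻ h in Qset D b u v, 2 * 5 ^ (Nn D b u v h) * ENNReal.ofReal |g h|) +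
      ∫⁻ h in Reg D b v, 2 * 5 ^ (Nn D b u v h) * ENNReal.ofReal
        (Real.sqrt (1 + 4 * (Nn D b u v h : ℝ)) * Real.sqrt (gr g h)) := flow_int hb hg hC
    _ ≤ ((∫⁻ h in Qset D b u v, 2 * 5 ^ (Nn D b u v h) * ENNReal.ofReal |g (Pm D b u v h)|) +
      ∫⁻ h in Qset D b u v, 2 * 5 ^ (Nn D b u v h) * ENNReal.ofReal (Real.sqrt (gr g h))) +
      ∫⁻ h in Reg D b v, 2 * 5 ^ (Nn D b u v h) * ENNReal.ofReal
        (Real.sqrt (1 + 4 * (Nn D b u v h : ℝ)) * Real.sqrt (gr g h)) := by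
        gcongr
        exact seg_int hg hC
    _ = ((∫⁻ h in Reg D b v, 2 * 5 ^ (Nn D b u v h) * ENNReal.ofReal
        (Real.sqrt (1 + 4 * (Nn D b u v h : ℝ)) * Real.sqrt (gr g h))) +
      ∫⁻ h in Qset D b u v, 2 * 5 ^ (Nn D b u v h) * ENNReal.ofReal (Real.sqrt (gr g h))) +
      ∫⁻ h in Qset D b u v, 2 * 5 ^ (Nn D b u v h) * ENNReal.ofReal |g (Pm D b u v h)| := by
        ring
    _ ≤ 4 * ((∫⁻ h in K D b, ENNReal.ofReal (gr g h)) ^ (1 / 2 : ℝ) *
        (∫⁻ h in Reg D b v, (75 : ℝ≥0∞) ^ (Nn D b u v h)) ^ (1 / 2 : ℝ)) +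
      2 * 5 ^ D.card * ∫⁻ h in Qset D b u v, ENNReal.ofReal |g (Pm D b u v h)| :=
        add_le_add hbulk hfacet
    _ = _ := by rw [mul_assoc 4]
/- END fi -/

end Pool.Agent.Hmk
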