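import Pool.Agent.Hmk.CfO

import Pool.Agent.Hmk.MnHd

/-!
# Hmk, second part: cut-offs from clusters (helper70)

Uses the cluster fields of helper54 (files CfM, CfC, CfG, CfR, CfO).
-/

set_option autoImplicit false

open MeasureTheory Set Filter

open scoped ENNReal SchwartzMap ContDiff Topology

noncomputable section

namespace Pool.Agent.Hmk.Mn

/-- discrete energy of `Z` (interior edges twice, edges to fixed sites once) -/
def EI (D : Finset (ℤ × ℤ)) (Z : ℤ × ℤ → ℝ) : ℝ :=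
  ∑ x ∈ D, ∑ i, (Z x - Z (x + st i)) ^ 2

/- MODULE mfx
CLUSTER CUT-OFF OF A NONNEGATIVE FUNCTION.  `ε₀ = 2⁻⁵⁰`, `ψ_x(h) = rho ε₀ (Ui D) D (Mmn Z) x (gl D 0 h)`
(`gl D (fun _ => 0) h = g0 D h`), tie with `ε = ε₀ / 2` (`rho_tie_i`).  `BS`: `rho_smooth`, `rho_bound`,
`rho_pz_le` (`pz D y f = pd ⟨y, _⟩ f`; `Os` is bounded by a finite sum).  `rho_nonneg`, `rho_mn_le`.
Energy: `rho_energy` and `rho_diff_sum` with `U = Ui D`, `A = D` (second alternative of `UA`), the cluster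
`Gx ε D H x` depends only on the height differences inside `D` (`Cmp_inter`), so it is the same for
`gl D 0 h` and `gl D b h`; `moment_one` with `p = 3, 2`, `Mu D b` a probability measure (`prob`),
`qs_bound` for `C`. -/
theorem Gx_zero (ε : ℝ) (D : Finset (ℤ × ℤ)) (b b' : ℤ × ℤ → ℝ) (h : D → ℝ) (x : ℤ × ℤ) :
    Gx ε D (gl D b h) x = Gx ε D (gl D b' h) x := by
  unfold Gx
  rw [← Cmp_inter D (Op ε (gl D b h)), ← Cmp_inter D (Op ε (gl D b' h))]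
  congr 1
  ext e
  simp only [mem_inter_iff, mem_ofPred_eq]
  refine and_congr_left fun he => ?_
  unfold Op hd
  rw [mem_ofPred_eq, mem_ofPred_eq, gl_mem he.1, gl_mem he.2, gl_mem he.1, gl_mem he.2]

private theorem mfx_UA (D : Finset (ℤ × ℤ)) (Z : ℤ × ℤ → ℝ) : UA (Ui D) D Z :=
  ⟨Finset.filter_subset _ _, Or.inr (Finset.Subset.refl _)⟩

private theorem mfx_int {D : Finset (ℤ × ℤ)} {b : ℤ × ℤ → ℝ} (hb : ∀ z, |b z| ≤ 1 / 2) (ε : ℝ)
    (x : ℤ × ℤ) (p : ℕ) :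
    Integrable (fun h : D → ℝ => ((Gx ε D (gl D b h) x).card : ℝ) ^ p) (Mu D b) := by
  have hP : IsProbabilityMeasure (Mu D b) := prob hb
  refine Integrable.of_bound
    (Gx_fun_meas ε D b D x (fun F => (F.card : ℝ) ^ p)).aestronglyMeasurable
    ((D.card : ℝ) ^ p) (Eventually.of_forall fun h => ?_)
  rw [Real.norm_eq_abs, abs_of_nonneg (by positivity)]
  refine pow_le_pow_left₀ (by positivity) ?_ p
  exact_mod_cast Gx_card_le ε D (gl D b h) x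

/-- the integral of the sum of the energies times the moments of the clusters -/
private theorem mfx_sum {D : Finset (ℤ × ℤ)} {b : ℤ × ℤ → ℝ} (hb : ∀ z, |b z| ≤ 1 / 2) {ε : ℝ}
    (Z : ℤ × ℤ → ℝ) (p : ℕ) {M : ℝ}
    (hM : ∀ x ∈ D, ∫ h, ((Gx ε D (gl D b h) x).card : ℝ) ^ p ∂(Mu D b) ≤ M) :
    Integrable (fun h : D → ℝ => ∑ y ∈ D, (∑ i, (Z y - Z (y + st i)) ^ 2) *
        ((Gx ε D (gl D (fun _ => 0) h) y).card : ℝ) ^ p) (Mu D b) ∧
      ∫ h, ∑ y ∈ D, (∑ i, (Z y - Z (y + st i)) ^ 2) *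
        ((Gx ε D (gl D (fun _ => 0) h) y).card : ℝ) ^ p ∂(Mu D b) ≤ M * EI D Z := by
  have e1 : ∀ (h : D → ℝ) y, Gx ε D (gl D (fun _ => 0) h) y = Gx ε D (gl D b h) y := fun h y =>
    Gx_zero ε D _ _ h y
  simp only [e1]
  refine ⟨integrable_finsetSum _ fun y _ => (mfx_int hb ε y p).const_mul _, ?_⟩
  rw [integral_finsetSum _ fun y _ => (mfx_int hb ε y p).const_mul _]
  unfold EI
  rw [Finset.mul_sum]
  refine Finset.sum_le_sum fun y hy => ?_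
  rw [integral_const_mul, mul_comm]
  exact mul_le_mul_of_nonneg_right (hM y hy) (Finset.sum_nonneg fun i _ => sq_nonneg _)

private theorem mfx_pd {D : Finset (ℤ × ℤ)} (y : D) (f : (D → ℝ) → ℝ) (h : D → ℝ) :
    pd y f h = pz D y f h := by
  unfold pz
  rw [dif_pos y.2]

private theorem mfx_Os (D : Finset (ℤ × ℤ)) (S : Set Ed) (Z : ℤ × ℤ → ℝ) (x : ℤ × ℤ) :
    Os D S Z x ≤ ∑ y ∈ D, ∑ i, |Z y - Z (y + st i)| :=
  Finset.sum_le_sum_of_subset_of_nonneg (Cmp_sub D S x)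
    fun _ _ _ => Finset.sum_nonneg fun _ _ => abs_nonneg _

theorem cf_min : ∃ ε C : ℝ, 0 < ε ∧ 0 ≤ C ∧ ∀ (D : Finset (ℤ × ℤ)) (Z : ℤ × ℤ → ℝ),
    (∀ z, 0 ≤ Z z) → ∃ ψ : D → (D → ℝ) → ℝ, (∀ x, BS (ψ x)) ∧
      (∀ x h, 0 ≤ ψ x h ∧ ψ x h ≤ Z x) ∧
      (∀ x y : D, (∃ i, (y : ℤ × ℤ) = x + st i) → ∀ h : D → ℝ,
        1 - ε ≤ |h x - h y| → ψ x h = ψ y h) ∧
      ∀ b : ℤ × ℤ → ℝ, (∀ z, |b z| ≤ 1 / 2) →
        ∫ h, Gd2 ψ h ∂(Mu D b) ≤ C * EI D Z ∧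
        ∫ h, ∑ x : D, (Z x - ψ x h) ^ 2 ∂(Mu D b) ≤ C * EI D Z := by
  have h0 : (0 : ℝ) < 1 / 2 ^ 50 := by positivity
  have h1 : (1 : ℝ) / 2 ^ 50 ≤ 1 / 2 := by norm_num
  have h2 : (1 : ℝ) / 2 ^ 50 ≤ 1 / 2 ^ 48 := by norm_num
  obtain ⟨C, hC0, hC⟩ := qs_bound h0 h1
  obtain ⟨C3, hC30, hC3⟩ := moment_one 3
  obtain ⟨C2, hC20, hC2⟩ := moment_one 2
  have hM3 : 0 ≤ 96768 * C ^ 2 * (1 + C3 * (1 / 2 ^ 50)) := by positivity
  have hM2 : 0 ≤ 24 * (1 + C2 * (1 / 2 ^ 50)) := by positivity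
  refine ⟨1 / 2 ^ 50 / 2, 96768 * C ^ 2 * (1 + C3 * (1 / 2 ^ 50)) +
    24 * (1 + C2 * (1 / 2 ^ 50)), by positivity, by positivity, ?_⟩
  intro D Z hZ
  refine ⟨fun x h => rho (1 / 2 ^ 50) (Ui D) D (Mmn Z) x (gl D (fun _ => 0) h),
    fun x => ⟨rho_smooth _ _ _ _ _ _ _, ⟨Z x, fun h => ?_⟩,
      ⟨48 * C * ∑ y ∈ D, ∑ i, |Z y - Z (y + st i)|, fun y h => ?_⟩⟩, fun x h => ?_, ?_, ?_⟩
  · rw [abs_of_nonneg (rho_nonneg h0 h1 _ _ (Mmn_mean Z) hZ _ _)]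
    exact rho_mn_le h0 h1 _ _ hZ _ _
  · rw [mfx_pd]
    refine (rho_pz_le h0 h1 (fun z => (hC z).1) (Mmn_mean Z) (mfx_UA D Z) D _ y h x.2).trans ?_
    exact mul_le_mul_of_nonneg_left (mfx_Os D _ Z x) (by positivity)
  · exact ⟨rho_nonneg h0 h1 _ _ (Mmn_mean Z) hZ _ _, rho_mn_le h0 h1 _ _ hZ _ _⟩
  · rintro x y ⟨i, hi⟩ h hh
    have h3 := rho_tie_i h0 h1 (Mmn Z) (i := i) (gl D (fun _ => 0) h) x.2
      (by rw [← hi]; exact y.2) (by
        rw [← hi, gl_mem x.2, gl_mem y.2]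
        exact hh)
    rw [← hi] at h3
    exact h3
  · intro b hb
    have hEI : 0 ≤ EI D Z :=
      Finset.sum_nonneg fun x _ => Finset.sum_nonneg fun i _ => sq_nonneg _
    have s3 := mfx_sum hb (ε := 1 / 2 ^ 50) Z 3 (fun x hx => hC3 D D (Finset.Subset.refl _) b hb
      (1 / 2 ^ 50) h0 h2 x hx)
    have s2 := mfx_sum hb (ε := 1 / 2 ^ 50) Z 2 (fun x hx => hC2 D D (Finset.Subset.refl _) b hb
      (1 / 2 ^ 50) h0 h2 x hx)
    constructor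
    · have k1 : ∫ h, Gd2 (fun (x : D) (h : D → ℝ) =>
          rho (1 / 2 ^ 50) (Ui D) D (Mmn Z) x (gl D (fun _ => 0) h)) h ∂(Mu D b) ≤
          ∫ h, 96768 * C ^ 2 * ∑ y ∈ D, (∑ i, (Z y - Z (y + st i)) ^ 2) *
            ((Gx (1 / 2 ^ 50) D (gl D (fun _ => 0) h) y).card : ℝ) ^ 3 ∂(Mu D b) := by
        refine integral_mono_of_nonneg (Eventually.of_forall fun h => ?_) (s3.1.const_mul _)
          (Eventually.of_forall fun h => ?_)
        · exact Finset.sum_nonneg fun x _ => Finset.sum_nonneg fun y _ => sq_nonneg _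
        · have h3 := rho_energy h0 h1 (fun z => (hC z).1) (Mmn_mean Z) (mfx_UA D Z) D
            (fun _ => 0) h
          refine le_trans (le_of_eq ?_) h3
          unfold Gd2
          simp only [mfx_pd]
          rw [← Finset.sum_coe_sort D]
          refine Finset.sum_congr rfl fun x _ => ?_
          rw [← Finset.sum_coe_sort D]
      refine k1.trans ?_
      rw [integral_const_mul]
      calc 96768 * C ^ 2 * _ ≤ 96768 * C ^ 2 * ((1 + C3 * (1 / 2 ^ 50)) * EI D Z) :=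
            mul_le_mul_of_nonneg_left s3.2 (by positivity)
        _ = 96768 * C ^ 2 * (1 + C3 * (1 / 2 ^ 50)) * EI D Z := by ring
        _ ≤ (96768 * C ^ 2 * (1 + C3 * (1 / 2 ^ 50)) + 24 * (1 + C2 * (1 / 2 ^ 50))) * EI D Z :=
            mul_le_mul_of_nonneg_right (by linarith) hEI
    · have k1 : ∫ h, ∑ x : D, (Z x -
          rho (1 / 2 ^ 50) (Ui D) D (Mmn Z) x (gl D (fun _ => 0) h)) ^ 2 ∂(Mu D b) ≤
          ∫ h, 24 * ∑ y ∈ D, (∑ i, (Z y - Z (y + st i)) ^ 2) *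
            ((Gx (1 / 2 ^ 50) D (gl D (fun _ => 0) h) y).card : ℝ) ^ 2 ∂(Mu D b) := by
        refine integral_mono_of_nonneg (Eventually.of_forall fun h => ?_) (s2.1.const_mul _)
          (Eventually.of_forall fun h => ?_)
        · exact Finset.sum_nonneg fun x _ => sq_nonneg _
        · classical
          have h3 := rho_diff_sum h0 h1 (Mmn_mean Z) (mfx_UA D Z) (gl D (fun _ => 0) h)
          refine le_trans (le_of_eq ?_) (h3.trans ?_)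
          · rw [← Finset.sum_coe_sort D]
            refine Finset.sum_congr rfl fun x _ => ?_
            ring
          · refine mul_le_mul_of_nonneg_left (Finset.sum_le_sum fun y _ => ?_) (by norm_num)
            refine mul_le_mul_of_nonneg_left ?_ (Finset.sum_nonneg fun i _ => sq_nonneg _)
            split_ifs
            · exact le_rfl
            · positivity
      refine k1.trans ?_
      rw [integral_const_mul]
      calc 24 * _ ≤ 24 * ((1 + C2 * (1 / 2 ^ 50)) * EI D Z) :=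
            mul_le_mul_of_nonneg_left s2.2 (by positivity)
        _ = 24 * (1 + C2 * (1 / 2 ^ 50)) * EI D Z := by ring
        _ ≤ (96768 * C ^ 2 * (1 + C3 * (1 / 2 ^ 50)) + 24 * (1 + C2 * (1 / 2 ^ 50))) * EI D Z :=
            mul_le_mul_of_nonneg_right (by linarith) hEI

/- END mfx -/

/-- the sites of `D` without `P` -/
def Aq (D : Finset (ℤ × ℤ)) (P : ℤ × ℤ → Prop) : Finset (ℤ × ℤ) := by
  classical exact D.filter (fun x => ¬ P x)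

/-- some path of edges of `S` inside `D \ P` leads from a neighbour of `P` to a site with `χ < 1` -/
def Cro (D : Finset (ℤ × ℤ)) (P : ℤ × ℤ → Prop) (χ : ℤ × ℤ → ℝ) (S : Set Ed) : Prop :=
  ∃ y ∈ Aq D P, (∃ i, P (y + st i)) ∧ ∃ z ∈ Cmp (Aq D P) S y, χ z < 1

/-- the gate -/
def gq (D : Finset (ℤ × ℤ)) (P : ℤ × ℤ → Prop) (χ : ℤ × ℤ → ℝ) (S : Set Ed) : ℝ := by
  classical exact if Cro D P χ S then 0 else 1

/-- the smooth gate -/
def gam (ε : ℝ) (D : Finset (ℤ × ℤ)) (P : ℤ × ℤ → Prop) (χ : ℤ × ℤ → ℝ) (h : D → ℝ) : ℝ :=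
  cfu ε (Ui D) (fun S => gq D P χ (S : Set Ed)) (gl D (fun _ => 0) h)

/-- the cut-off field with gate -/
def psg (ε : ℝ) (D : Finset (ℤ × ℤ)) (P : ℤ × ℤ → Prop) (χ : ℤ × ℤ → ℝ) (x : ℤ × ℤ)
    (h : D → ℝ) : ℝ :=
  cfu ε (Ui D) (fun S => gq D P χ (S : Set Ed) * vg D (S : Set Ed) (Mmn χ) x)
    (gl D (fun _ => 0) h)

/-- near the support of `χ` -/
def Nr (D : Finset (ℤ × ℤ)) (χ : ℤ × ℤ → ℝ) (y : ℤ × ℤ) : Prop :=
  ∃ x ∈ D, 0 < χ x ∧ (y = x ∨ ∃ i, y = x + st i)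

/- MODULE mfya
Combinatorics of the gate. -/
theorem Cro_mono {D : Finset (ℤ × ℤ)} {P : ℤ × ℤ → Prop} {χ : ℤ × ℤ → ℝ} {S S' : Set Ed}
    (h : S ⊆ S') (hc : Cro D P χ S) : Cro D P χ S' := by
  obtain ⟨y, hy, hi, z, hz, hχ⟩ := hc
  exact ⟨y, hy, hi, z, Cmp_mono _ h y hz, hχ⟩

/-- only edges inside `D \ P` matter (`Cmp_inter`) -/
theorem Cro_restrict {D : Finset (ℤ × ℤ)} {P : ℤ × ℤ → Prop} {χ : ℤ × ℤ → ℝ} {S : Set Ed} :
    Cro D P χ (S ∩ {e | e.1 ∈ Aq D P ∧ e.1 + st e.2 ∈ Aq D P}) ↔ Cro D P χ S := by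
  unfold Cro
  simp only [Cmp_inter]

private theorem mfya_mem {D : Finset (ℤ × ℤ)} {P : ℤ × ℤ → Prop} {x : ℤ × ℤ} :
    x ∈ Aq D P ↔ x ∈ D ∧ ¬ P x := by
  classical
  unfold Aq
  rw [Finset.mem_filter]

/-- no crossing: the component of a site of `P` lies in `{χ = 1}`.  Consider on a path from `x` to a
site `z` with `χ z < 1` the last site with `P` (`χ = 1` on `P`); the rest of the path is in
`D \ P`. -/
theorem comp_one {D : Finset (ℤ × ℤ)} {P : ℤ × ℤ → Prop} {χ : ℤ × ℤ → ℝ} {S : Set Ed}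
    (h1 : ∀ z, χ z ≤ 1) (hP : ∀ x, P x → χ x = 1) (hc : ¬ Cro D P χ S) {x : ℤ × ℤ}
    (hx : P x) {z : ℤ × ℤ} (hz : z ∈ Cmp D S x) : χ z = 1 := by
  have key : ∀ z, Relation.ReflTransGen (eadj D S) x z → P z ∨
      ∃ y ∈ Aq D P, (∃ i, P (y + st i)) ∧ z ∈ Cmp (Aq D P) S y := by
    intro z hz
    induction hz with
    | refl => exact Or.inl hx
    | @tail w w' _ hw ih =>
      by_cases hw' : P w'
      · exact Or.inl hw'
      · right
        have hm : w' ∈ Aq D P := mfya_mem.2 ⟨hw.2.1, hw'⟩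
        by_cases hPw : P w
        · refine ⟨w', hm, ?_, Cmp_self S hm⟩
          obtain ⟨i, ⟨h2, _⟩ | ⟨h2, _⟩⟩ := hw.2.2
          · refine ⟨i + 3, ?_⟩
            rw [st_opp, h2, add_neg_cancel_right]
            exact hPw
          · refine ⟨i, ?_⟩
            rw [← h2]
            exact hPw
        · rcases ih with h2 | ⟨y, hy, hi, hwy⟩
          · exact absurd h2 hPw
          · exact ⟨y, hy, hi, Cmp_step hwy ⟨mfya_mem.2 ⟨hw.1, hPw⟩, hm, hw.2.2⟩⟩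
  rcases key z (mem_Cmp.1 hz).2 with h2 | ⟨y, hy, hi, hzy⟩
  · exact hP z h2
  · refine le_antisymm (h1 z) (not_lt.1 fun h3 => hc ⟨y, hy, hi, z, hzy, h3⟩)

/-- an edge which creates a crossing touches a site with `χ > 0`: follow the crossing path of
`insert e S` from `y` to the FIRST site with `χ < 1`; it must use `e`, and all its sites but the last
have `χ = 1`.  (If `y` itself has `χ < 1` then `S` is crossing already.) -/
theorem Cro_insert {D : Finset (ℤ × ℤ)} {P : ℤ × ℤ → Prop} {χ : ℤ × ℤ → ℝ} {S : Set Ed}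
    (h1 : ∀ z, χ z ≤ 1) {e : Ed} (hc : ¬ Cro D P χ S) (hc' : Cro D P χ (insert e S)) :
    (e.1 ∈ D ∧ 0 < χ e.1) ∨ (e.1 + st e.2 ∈ D ∧ 0 < χ (e.1 + st e.2)) := by
  by_contra hcon
  obtain ⟨y, hy, hi, z, hz, hχ⟩ := hc'
  have hpos : ∀ w ∈ Cmp (Aq D P) S y, w ∈ D ∧ 0 < χ w := by
    intro w hw
    refine ⟨(mfya_mem.1 (Cmp_sub _ _ _ hw)).1, ?_⟩
    have h2 : ¬ χ w < 1 := fun h3 => hc ⟨y, hy, hi, w, hw, h3⟩
    linarith
  have key : ∀ z, Relation.ReflTransGen (eadj (Aq D P) (insert e S)) y z →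
      z ∈ Cmp (Aq D P) S y := by
    intro z hz
    induction hz with
    | refl => exact Cmp_self S hy
    | @tail w w' _ hw ih =>
      obtain ⟨hw1, hw2, i, ⟨h2, h3⟩ | ⟨h2, h3⟩⟩ := hw
      · rcases h3 with h3 | h3
        · exfalso
          have h4 := hpos w ih
          apply hcon
          left
          rw [← h3]
          exact h4
        · exact Cmp_step ih ⟨hw1, hw2, i, Or.inl ⟨h2, h3⟩⟩
      · rcases h3 with h3 | h3
        · exfalso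
          have h4 := hpos w ih
          apply hcon
          right
          rw [← h3]
          show w' + st i ∈ D ∧ 0 < χ (w' + st i)
          rw [← h2]
          exact h4
        · exact Cmp_step ih ⟨hw1, hw2, i, Or.inr ⟨h2, h3⟩⟩
  exact hc ⟨y, hy, hi, z, key z (mem_Cmp.1 hz).2, hχ⟩

/- END mfya -/

/- MODULE mfyb
The value of the component changes only if `e` joins the component of `x`, on which `χ > 0`
(otherwise both values are `0`, the minimum is over a larger component), to something else.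
`S` consists of edges inside `D` (no flags). -/
private theorem mfyb_Ui {D : Finset (ℤ × ℤ)} {e : Ed} :
    e ∈ Ui D ↔ e.1 ∈ D ∧ e.1 + st e.2 ∈ D := by
  unfold Ui Uo
  rw [Finset.mem_filter, Finset.mem_product]
  simp

private theorem mfyb_noflag {D : Finset (ℤ × ℤ)} {S : Set Ed} (hS : S ⊆ {e | e ∈ Ui D})
    (x : ℤ × ℤ) : ¬ Fg D S x := by
  rintro ⟨y, _, i, h1, h2⟩
  exact h2 (mfyb_Ui.1 (hS h1)).2

private theorem mfyb_vg {D : Finset (ℤ × ℤ)} {S : Set Ed} (hS : S ⊆ {e | e ∈ Ui D})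
    (M : Finset (ℤ × ℤ) → ℝ) {x : ℤ × ℤ} (hx : x ∈ D) : vg D S M x = M (Cmp D S x) := by
  classical
  unfold vg
  exact if_pos ⟨hx, mfyb_noflag hS x⟩

private theorem mfyb_cmp {D : Finset (ℤ × ℤ)} {S : Set Ed} {e : Ed} {x : ℤ × ℤ} (hx : x ∈ D)
    (h1 : e.1 ∉ Cmp D S x) (h2 : e.1 + st e.2 ∉ Cmp D S x) :
    Cmp D (insert e S) x = Cmp D S x := by
  refine Finset.Subset.antisymm (fun z hz => ?_) (Cmp_mono D (subset_insert e S) x)
  have key : ∀ z, Relation.ReflTransGen (eadj D (insert e S)) x z → z ∈ Cmp D S x := by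
    intro z hz
    induction hz with
    | refl => exact Cmp_self S hx
    | @tail w w' _ hw ih =>
      obtain ⟨hw1, hw2, i, ⟨h3, h4⟩ | ⟨h3, h4⟩⟩ := hw
      · rcases h4 with h4 | h4
        · exact absurd (by rw [← h4]; exact ih) h1
        · exact Cmp_step ih ⟨hw1, hw2, i, Or.inl ⟨h3, h4⟩⟩
      · rcases h4 with h4 | h4
        · refine absurd ?_ h2
          rw [← h4]
          show w' + st i ∈ Cmp D S x
          rw [← h3]
          exact ih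
        · exact Cmp_step ih ⟨hw1, hw2, i, Or.inr ⟨h3, h4⟩⟩
  exact key z (mem_Cmp.1 hz).2

theorem vg_insert_pos {D : Finset (ℤ × ℤ)} {χ : ℤ × ℤ → ℝ} (h0 : ∀ z, 0 ≤ χ z) {S : Set Ed}
    (hS : S ⊆ {e | e ∈ Ui D}) {e : Ed} (he : e ∈ Ui D) {x : ℤ × ℤ}
    (hne : vg D (insert e S) (Mmn χ) x ≠ vg D S (Mmn χ) x) :
    (x ∈ D ∧ 0 < χ x) ∧ ((e.1 ∈ D ∧ 0 < χ e.1) ∨ (e.1 + st e.2 ∈ D ∧ 0 < χ (e.1 + st e.2))) := by
  have hx : x ∈ D := by
    by_contra hx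
    rw [vg_out _ _ hx, vg_out _ _ hx] at hne
    exact hne rfl
  have hS' : insert e S ⊆ {e | e ∈ Ui D} := insert_subset he hS
  rw [mfyb_vg hS _ hx, mfyb_vg hS' _ hx] at hne
  have hF : (Cmp D S x).Nonempty := ⟨x, Cmp_self S hx⟩
  have hF' : (Cmp D (insert e S) x).Nonempty := ⟨x, Cmp_self _ hx⟩
  have hle : Mmn χ (Cmp D (insert e S) x) ≤ Mmn χ (Cmp D S x) := by
    unfold Mmn
    rw [dif_pos hF, dif_pos hF']
    exact Finset.inf'_mono χ (Cmp_mono D (subset_insert e S) x) hF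
  have h0' : 0 ≤ Mmn χ (Cmp D (insert e S) x) := by
    unfold Mmn
    rw [dif_pos hF']
    exact Finset.le_inf' _ _ fun z _ => h0 z
  have hpos : 0 < Mmn χ (Cmp D S x) := lt_of_le_of_lt h0' (lt_of_le_of_ne hle hne)
  have hall : ∀ z ∈ Cmp D S x, 0 < χ z := by
    intro z hz
    refine lt_of_lt_of_le hpos ?_
    unfold Mmn
    rw [dif_pos hF]
    exact Finset.inf'_le _ hz
  refine ⟨⟨hx, hall x (Cmp_self S hx)⟩, ?_⟩
  by_contra hcon
  have he' := mfyb_Ui.1 he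
  refine hne (congrArg _ (mfyb_cmp hx (fun h3 => hcon (Or.inl ⟨he'.1, hall _ h3⟩))
    (fun h3 => hcon (Or.inr ⟨he'.2, hall _ h3⟩))))

/-- for `P x` and no crossing the value is `1` (`comp_one`, no flags) -/
theorem vg_one {D : Finset (ℤ × ℤ)} {P : ℤ × ℤ → Prop} {χ : ℤ × ℤ → ℝ} {S : Set Ed}
    (hS : S ⊆ {e | e ∈ Ui D}) (h1 : ∀ z, χ z ≤ 1) (hP : ∀ x, P x → χ x = 1)
    (hc : ¬ Cro D P χ S) {x : ℤ × ℤ} (hxD : x ∈ D) (hx : P x) : vg D S (Mmn χ) x = 1 := by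
  rw [mfyb_vg hS _ hxD]
  obtain ⟨⟨z, hz, h2⟩, ⟨w, hw, h3⟩⟩ := Mmn_mean χ (Cmp D S x) ⟨x, Cmp_self S hxD⟩
  rw [comp_one h1 hP hc hx hz] at h2
  rw [comp_one h1 hP hc hx hw] at h3
  exact le_antisymm h3 h2

/- END mfyb -/

/- MODULE mfyc
The smooth gate.  `cfu_smooth`, `cfu_abs_le`, `cfu_le`, `cfu_pz_le`; `Dep`: `cfu_restrict` with
`U = Ui (Aq D P) ⊆ U' = Ui D` (`Cro_restrict`), then `cfu_congr_H`. -/
private theorem mfyc_gq (D : Finset (ℤ × ℤ)) (P : ℤ × ℤ → Prop) (χ : ℤ × ℤ → ℝ) (S : Set Ed) :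
    gq D P χ S = 0 ∨ gq D P χ S = 1 := by
  classical
  unfold gq
  by_cases h : Cro D P χ S
  · exact Or.inl (if_pos h)
  · exact Or.inr (if_neg h)

private theorem mfyc_gq0 {D : Finset (ℤ × ℤ)} {P : ℤ × ℤ → Prop} {χ : ℤ × ℤ → ℝ} {S : Set Ed}
    (h : Cro D P χ S) : gq D P χ S = 0 := by
  classical
  unfold gq
  exact if_pos h

private theorem mfyc_gq1 {D : Finset (ℤ × ℤ)} {P : ℤ × ℤ → Prop} {χ : ℤ × ℤ → ℝ} {S : Set Ed}
    (h : ¬ Cro D P χ S) : gq D P χ S = 1 := by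
  classical
  unfold gq
  exact if_neg h

private theorem mfyc_pd {D : Finset (ℤ × ℤ)} (y : D) (f : (D → ℝ) → ℝ) (h : D → ℝ) :
    pd y f h = pz D y f h := by
  unfold pz
  rw [dif_pos y.2]

private theorem mfyc_one {D : Finset (ℤ × ℤ)} (P : ℤ × ℤ → Prop) (χ : ℤ × ℤ → ℝ) (S S' : Set Ed) :
    |gq D P χ S - gq D P χ S'| ≤ 1 := by
  rcases mfyc_gq D P χ S with h | h <;> rcases mfyc_gq D P χ S' with h' | h' <;>
    rw [h, h'] <;> norm_num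

private theorem mfyc_sub {D : Finset (ℤ × ℤ)} {ε : ℝ} {H : ℤ × ℤ → ℝ} {T : Finset Ed} {e : Ed}
    {y : ℤ × ℤ} (he : e ∈ Uy ε (Ui D) H y) (hT : ∀ e' ∈ T, e' ∈ Op ε H) :
    e ∈ Ui D ∧ Tch y e ∧ ((insert e T : Finset Ed) : Set Ed) ⊆ Op ε H := by
  classical
  unfold Uy at he
  rw [Finset.mem_filter] at he
  refine ⟨he.1, he.2.2, ?_⟩
  intro e' he'
  rcases Finset.mem_insert.1 (Finset.mem_coe.1 he') with h1 | h1
  · rw [h1]
    exact he.2.1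
  · exact hT e' h1

private theorem mfyc_nr {D : Finset (ℤ × ℤ)} {χ : ℤ × ℤ → ℝ} {y : ℤ × ℤ} {e : Ed}
    (hy : Tch y e)
    (h : (e.1 ∈ D ∧ 0 < χ e.1) ∨ (e.1 + st e.2 ∈ D ∧ 0 < χ (e.1 + st e.2))) : Nr D χ y := by
  rcases h with ⟨h1, h2⟩ | ⟨h1, h2⟩
  · refine ⟨e.1, h1, h2, ?_⟩
    rcases hy with hy | hy
    · exact Or.inl hy.symm
    · exact Or.inr ⟨e.2, hy.symm⟩
  · refine ⟨e.1 + st e.2, h1, h2, ?_⟩
    rcases hy with hy | hy
    · refine Or.inr ⟨e.2 + 3, ?_⟩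
      rw [st_opp, add_neg_cancel_right]
      exact hy.symm
    · exact Or.inl hy.symm

private theorem mfyc_ins {D : Finset (ℤ × ℤ)} {P : ℤ × ℤ → Prop} {χ : ℤ × ℤ → ℝ}
    (hχ : ∀ z, χ z ≤ 1) {y : ℤ × ℤ} (hN : ¬ Nr D χ y) {e : Ed} (hy : Tch y e) (T : Finset Ed) :
    gq D P χ ((insert e T : Finset Ed) : Set Ed) = gq D P χ (T : Set Ed) := by
  rw [Finset.coe_insert]
  by_cases h1 : Cro D P χ (T : Set Ed)
  · rw [mfyc_gq0 h1, mfyc_gq0 (Cro_mono (subset_insert e _) h1)]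
  · rw [mfyc_gq1 h1, mfyc_gq1]
    intro h2
    exact hN (mfyc_nr hy (Cro_insert hχ h1 h2))

private theorem mfyc_dbd {ε : ℝ} (h0 : 0 < ε) (h1 : ε ≤ 1 / 2) {C : ℝ} (hC0 : 0 ≤ C)
    (hC : ∀ z, |deriv (qs ε) z| ≤ C) (D : Finset (ℤ × ℤ)) {Φ : Finset Ed → ℝ}
    (hΦ : ∀ (e : Ed) (T : Finset Ed), e ∈ Ui D → T ⊆ Ui D → |Φ (insert e T) - Φ T| ≤ 1)
    (y : ℤ × ℤ) (h : D → ℝ) :
    |pz D y (fun h => cfu ε (Ui D) Φ (gl D (fun _ => 0) h)) h| ≤ 12 * C := by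
  have h2 := cfu_pz_le h0 h1 hC (U := Ui D) (Φ := Φ) D (fun _ => 0) y h (B := fun _ => 1)
    (fun e he T hT hT' => hΦ e T (mfyc_sub he hT').1 hT)
  refine h2.trans ?_
  rw [Finset.sum_const, nsmul_eq_mul, mul_one]
  have h3 : ((Uy ε (Ui D) (gl D (fun _ => 0) h) y).card : ℝ) ≤ 12 := by
    exact_mod_cast Uy_card ε (Ui D) (gl D (fun _ => 0) h) y
  rw [mul_comm]
  exact mul_le_mul_of_nonneg_right h3 hC0

private theorem mfyc_gam_bd {ε : ℝ} (h0 : 0 < ε) (h1 : ε ≤ 1 / 2) (D : Finset (ℤ × ℤ))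
    (P : ℤ × ℤ → Prop) (χ : ℤ × ℤ → ℝ) (h : D → ℝ) :
    0 ≤ gam ε D P χ h ∧ gam ε D P χ h ≤ 1 := by
  unfold gam
  constructor
  · have h2 := cfu_le h0 h1 (U := Ui D) (Φ := fun _ => (0 : ℝ))
      (Ψ := fun S : Finset Ed => gq D P χ (S : Set Ed)) (H := gl D (fun _ => 0) h)
      (fun S _ _ _ => by rcases mfyc_gq D P χ (S : Set Ed) with h3 | h3 <;> rw [h3]; norm_num)
    rwa [cfu_const] at h2
  · have h2 := cfu_le h0 h1 (U := Ui D) (Ψ := fun _ => (1 : ℝ))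
      (Φ := fun S : Finset Ed => gq D P χ (S : Set Ed)) (H := gl D (fun _ => 0) h)
      (fun S _ _ _ => by rcases mfyc_gq D P χ (S : Set Ed) with h3 | h3 <;> rw [h3]; norm_num)
    rwa [cfu_const] at h2

private theorem mfyc_Aq {D : Finset (ℤ × ℤ)} {P : ℤ × ℤ → Prop} {x : ℤ × ℤ} :
    x ∈ Aq D P ↔ x ∈ D ∧ ¬ P x := by
  classical
  unfold Aq
  rw [Finset.mem_filter]

private theorem mfyc_Ui {D : Finset (ℤ × ℤ)} {e : Ed} :
    e ∈ Ui D ↔ e.1 ∈ D ∧ e.1 + st e.2 ∈ D := by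
  unfold Ui Uo
  rw [Finset.mem_filter, Finset.mem_product]
  simp

theorem gam_basic {ε : ℝ} (h0 : 0 < ε) (h1 : ε ≤ 1 / 2) (D : Finset (ℤ × ℤ))
    (P : ℤ × ℤ → Prop) (χ : ℤ × ℤ → ℝ) :
    BS (gam ε D P χ) ∧ (∀ h, 0 ≤ gam ε D P χ h ∧ gam ε D P χ h ≤ 1) ∧
      Dep (fun x => ¬ P x) (gam ε D P χ) := by
  refine ⟨⟨cfu_smooth _ _ _ _ _, ⟨1, fun h => ?_⟩, ?_⟩, mfyc_gam_bd h0 h1 D P χ, ?_⟩
  · have h2 := mfyc_gam_bd h0 h1 D P χ h
    rw [abs_of_nonneg h2.1]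
    exact h2.2
  · obtain ⟨C, hC0, hC⟩ := qs_bound h0 h1
    refine ⟨12 * C, fun x h => ?_⟩
    rw [mfyc_pd]
    exact mfyc_dbd h0 h1 hC0 (fun z => (hC z).1) D (fun e T _ _ => mfyc_one P χ _ _) x h
  · have hsub : Ui (Aq D P) ⊆ Ui D := by
      intro e he
      rw [mfyc_Ui] at he ⊢
      exact ⟨(mfyc_Aq.1 he.1).1, (mfyc_Aq.1 he.2).1⟩
    have key : ∀ H : ℤ × ℤ → ℝ, cfu ε (Ui D) (fun S => gq D P χ (S : Set Ed)) H =
        cfu ε (Ui (Aq D P)) (fun S => gq D P χ (S : Set Ed)) H := by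
      intro H
      refine cfu_restrict h0 h1 hsub (fun T hT _ => ?_)
      classical
      have e1 : ((T ∩ Ui (Aq D P) : Finset Ed) : Set Ed) =
          (T : Set Ed) ∩ {e | e.1 ∈ Aq D P ∧ e.1 + st e.2 ∈ Aq D P} := by
        ext e
        rw [Finset.coe_inter]
        simp only [mem_inter_iff, Finset.mem_coe, mfyc_Ui, mem_ofPred_eq]
      show gq D P χ (T : Set Ed) = gq D P χ ((T ∩ Ui (Aq D P) : Finset Ed) : Set Ed)
      rw [e1]
      by_cases h2 : Cro D P χ (T : Set Ed)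
      · rw [mfyc_gq0 h2, mfyc_gq0 (Cro_restrict.2 h2)]
      · rw [mfyc_gq1 h2, mfyc_gq1 (fun h3 => h2 (Cro_restrict.1 h3))]
    intro h h' hh
    unfold gam
    rw [key, key]
    refine cfu_congr_H ε _ fun e he => ?_
    have h2 := mfyc_Ui.1 he
    have h3 := mfyc_Aq.1 h2.1
    have h4 := mfyc_Aq.1 h2.2
    unfold hd
    rw [gl_mem h3.1, gl_mem h4.1, gl_mem h3.1, gl_mem h4.1]
    rw [hh ⟨e.1, h3.1⟩ h3.2, hh ⟨e.1 + st e.2, h4.1⟩ h4.2]

theorem gam_point {ε : ℝ} (h0 : 0 < ε) (h1 : ε ≤ 1 / 2) {C : ℝ} (hC0 : 0 ≤ C)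
    (hC : ∀ z, |deriv (qs ε) z| ≤ C)
    (D : Finset (ℤ × ℤ)) (P : ℤ × ℤ → Prop) {χ : ℤ × ℤ → ℝ} (hχ : ∀ z, χ z ≤ 1) (h : D → ℝ) :
    (¬ Cro D P χ (Op ε (gl D (fun _ => 0) h)) →
      gam ε D P χ h = 1 ∧ ∀ y : D, pd y (gam ε D P χ) h = 0) ∧
    (∀ y : D, |pd y (gam ε D P χ) h| ≤ 12 * C) ∧
    ∀ y : D, ¬ Nr D χ y → pd y (gam ε D P χ) h = 0 := by
  refine ⟨fun hc => ⟨?_, fun y => ?_⟩, fun y => ?_, fun y hy => ?_⟩
  · unfold gam
    have h2 := cfu_congr h0 h1 (U := Ui D) (Ψ := fun _ => (1 : ℝ))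
      (Φ := fun S : Finset Ed => gq D P χ (S : Set Ed)) (H := gl D (fun _ => 0) h)
      (fun S _ hS _ => mfyc_gq1 fun h3 => hc (Cro_mono (fun e he => hS e he) h3))
    rw [h2, cfu_const]
  · rw [mfyc_pd]
    have h2 := cfu_pz_le h0 h1 hC (U := Ui D)
      (Φ := fun S : Finset Ed => gq D P χ (S : Set Ed)) D (fun _ => 0) y h (B := fun _ => 0)
      (fun e he T _ hT' => by
        have h3 := (mfyc_sub he hT').2.2
        rw [mfyc_gq1 (fun h4 => hc (Cro_mono h3 h4)),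
          mfyc_gq1 (fun h4 => hc (Cro_mono (fun e he => hT' e he) h4)), sub_self, abs_zero])
    rw [Finset.sum_const_zero, mul_zero] at h2
    exact abs_eq_zero.1 (le_antisymm h2 (abs_nonneg _))
  · rw [mfyc_pd]
    exact mfyc_dbd h0 h1 hC0 hC D (fun e T _ _ => mfyc_one P χ _ _) y h
  · rw [mfyc_pd]
    have h2 := cfu_pz_le h0 h1 hC (U := Ui D)
      (Φ := fun S : Finset Ed => gq D P χ (S : Set Ed)) D (fun _ => 0) y h (B := fun _ => 0)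
      (fun e he T _ hT' => by
        rw [mfyc_ins hχ hy (mfyc_sub he hT').2.1 T, sub_self, abs_zero])
    rw [Finset.sum_const_zero, mul_zero] at h2
    exact abs_eq_zero.1 (le_antisymm h2 (abs_nonneg _))

/- END mfyc -/

/- MODULE mfyd
The cut-off field.  Off the crossing event the value and the derivatives agree with those of
`rho ε (Ui D) D (Mmn χ) x` (`cfu_congr` for the values; for the derivatives use `cfu_pz`: only terms
with `e ∈ Op` (`qs_deriv_zero`) and `T ⊆ Op`, where the gate is `1`).  `psg x = 0` identically if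
`χ x = 0` (the minimum is `0`). -/
private theorem mfyd_vg (D : Finset (ℤ × ℤ)) {χ : ℤ × ℤ → ℝ} (hχ : ∀ z, 0 ≤ χ z) (S : Set Ed)
    (x : ℤ × ℤ) : 0 ≤ vg D S (Mmn χ) x ∧ vg D S (Mmn χ) x ≤ χ x :=
  ⟨vg_nonneg S (Mmn_mean χ) x fun y _ => hχ y, vg_mn_le S hχ x⟩

private theorem mfyd_pr (D : Finset (ℤ × ℤ)) (P : ℤ × ℤ → Prop) {χ : ℤ × ℤ → ℝ}
    (hχ : ∀ z, 0 ≤ χ z) (S : Set Ed) (x : ℤ × ℤ) :
    0 ≤ gq D P χ S * vg D S (Mmn χ) x ∧ gq D P χ S * vg D S (Mmn χ) x ≤ χ x := by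
  have h1 := mfyd_vg D hχ S x
  rcases mfyc_gq D P χ S with h | h
  · rw [h, zero_mul]
    exact ⟨le_rfl, hχ x⟩
  · rw [h, one_mul]
    exact h1

private theorem mfyd_bd {ε : ℝ} (h0 : 0 < ε) (h1 : ε ≤ 1 / 2) (D : Finset (ℤ × ℤ))
    (P : ℤ × ℤ → Prop) {χ : ℤ × ℤ → ℝ} (hχ : ∀ z, 0 ≤ χ z) (x : ℤ × ℤ) (h : D → ℝ) :
    0 ≤ psg ε D P χ x h ∧ psg ε D P χ x h ≤ χ x := by
  unfold psg
  constructor
  · have h2 := cfu_le h0 h1 (U := Ui D) (Φ := fun _ => (0 : ℝ))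
      (Ψ := fun S : Finset Ed => gq D P χ (S : Set Ed) * vg D (S : Set Ed) (Mmn χ) x)
      (H := gl D (fun _ => 0) h) (fun S _ _ _ => (mfyd_pr D P hχ _ x).1)
    rwa [cfu_const] at h2
  · have h2 := cfu_le h0 h1 (U := Ui D) (Ψ := fun _ => χ x)
      (Φ := fun S : Finset Ed => gq D P χ (S : Set Ed) * vg D (S : Set Ed) (Mmn χ) x)
      (H := gl D (fun _ => 0) h) (fun S _ _ _ => (mfyd_pr D P hχ _ x).2)
    rwa [cfu_const] at h2

private theorem mfyd_diff (D : Finset (ℤ × ℤ)) (P : ℤ × ℤ → Prop) {χ : ℤ × ℤ → ℝ}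
    (hχ : ∀ z, 0 ≤ χ z ∧ χ z ≤ 1) (S S' : Set Ed) (x : ℤ × ℤ) :
    |gq D P χ S * vg D S (Mmn χ) x - gq D P χ S' * vg D S' (Mmn χ) x| ≤ 1 := by
  have h1 := mfyd_pr D P (fun z => (hχ z).1) S x
  have h2 := mfyd_pr D P (fun z => (hχ z).1) S' x
  have h3 := (hχ x).2
  rw [abs_le]
  constructor <;> linarith [h1.1, h1.2, h2.1, h2.2]

theorem psg_basic {ε : ℝ} (h0 : 0 < ε) (h1 : ε ≤ 1 / 2) (D : Finset (ℤ × ℤ))
    {P : ℤ × ℤ → Prop} {χ : ℤ × ℤ → ℝ} (hχ : ∀ z, 0 ≤ χ z ∧ χ z ≤ 1) (hP : ∀ x, P x → χ x = 1) :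
    (∀ x, BS (psg ε D P χ x)) ∧ (∀ x h, 0 ≤ psg ε D P χ x h ∧ psg ε D P χ x h ≤ χ x) ∧
      (∀ x ∈ D, P x → psg ε D P χ x = gam ε D P χ) ∧
      (∀ x y : D, (∃ i, (y : ℤ × ℤ) = x + st i) → ∀ h : D → ℝ,
        1 - ε / 2 ≤ |h x - h y| → psg ε D P χ x h = psg ε D P χ y h) := by
  have hχ0 : ∀ z, 0 ≤ χ z := fun z => (hχ z).1
  refine ⟨fun x => ⟨cfu_smooth _ _ _ _ _, ⟨1, fun h => ?_⟩, ?_⟩, mfyd_bd h0 h1 D P hχ0, ?_, ?_⟩
  · have h2 := mfyd_bd h0 h1 D P hχ0 x h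
    rw [abs_of_nonneg h2.1]
    exact h2.2.trans (hχ x).2
  · obtain ⟨C, hC0, hC⟩ := qs_bound h0 h1
    refine ⟨12 * C, fun y h => ?_⟩
    rw [mfyc_pd]
    exact mfyc_dbd h0 h1 hC0 (fun z => (hC z).1) D (fun e T _ _ => mfyd_diff D P hχ _ _ x) y h
  · intro x hx hPx
    funext h
    unfold psg gam
    refine cfu_congr h0 h1 fun S hS _ _ => ?_
    by_cases hc : Cro D P χ (S : Set Ed)
    · rw [mfyc_gq0 hc, zero_mul]
    · rw [vg_one (fun e he => hS he) (fun z => (hχ z).2) hP hc hx hPx, mul_one]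
  · rintro x y ⟨i, hi⟩ h hh
    unfold psg
    refine cfu_congr h0 h1 fun S _ _ hS => ?_
    have he : (x.1, i) ∈ Ui D := by
      rw [mfyc_Ui]
      refine ⟨x.2, ?_⟩
      show x.1 + st i ∈ D
      rw [← hi]
      exact y.2
    have h2 : (x.1, i) ∈ S := by
      refine hS _ he ?_
      unfold hd
      show 1 - ε / 2 ≤ |gl D (fun _ => 0) h x.1 - gl D (fun _ => 0) h (x.1 + st i)|
      rw [← hi, gl_mem x.2, gl_mem y.2]
      exact hh
    have h3 := vg_edge (S := (S : Set Ed)) (Mmn χ) x.2 (Finset.mem_coe.2 h2)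
    rw [h3, ← hi]

theorem psg_point {ε : ℝ} (h0 : 0 < ε) (h1 : ε ≤ 1 / 2) {C : ℝ} (hC0 : 0 ≤ C)
    (hC : ∀ z, |deriv (qs ε) z| ≤ C)
    (D : Finset (ℤ × ℤ)) {P : ℤ × ℤ → Prop} {χ : ℤ × ℤ → ℝ} (hχ : ∀ z, 0 ≤ χ z ∧ χ z ≤ 1)
    (h : D → ℝ) :
    (¬ Cro D P χ (Op ε (gl D (fun _ => 0) h)) → ∀ x y : D,
      pd y (psg ε D P χ x) h = pz D y (fun k => rho ε (Ui D) D (Mmn χ) x (gl D (fun _ => 0) k)) h) ∧
    (∀ x y : D, |pd y (psg ε D P χ x) h| ≤ 12 * C) ∧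
    ∀ x y : D, (χ x = 0 ∨ ¬ Nr D χ y) → pd y (psg ε D P χ x) h = 0 := by
  have hχ0 : ∀ z, 0 ≤ χ z := fun z => (hχ z).1
  refine ⟨fun hc x y => ?_, fun x y => ?_, fun x y hxy => ?_⟩
  · rw [mfyc_pd]
    unfold rho psg
    refine cfu_restrict_pz h0 h1 (Finset.Subset.refl _) D (fun _ => 0) y h fun T hT hT' => ?_
    rw [mfyc_gq1 (fun h3 => hc (Cro_mono (fun e he => hT' e he) h3)), one_mul,
      Finset.inter_eq_left.2 hT]
  · rw [mfyc_pd]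
    exact mfyc_dbd h0 h1 hC0 hC D (fun e T _ _ => mfyd_diff D P hχ _ _ x) y h
  · rcases hxy with hx | hy
    · have e1 : psg ε D P χ x = fun _ => 0 := by
        funext k
        have h2 := mfyd_bd h0 h1 D P hχ0 x k
        rw [hx] at h2
        exact le_antisymm h2.2 h2.1
      rw [e1]
      unfold pd
      simp
    · rw [mfyc_pd]
      have h2 := cfu_pz_le h0 h1 hC (U := Ui D)
        (Φ := fun S : Finset Ed => gq D P χ (S : Set Ed) * vg D (S : Set Ed) (Mmn χ) x)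
        D (fun _ => 0) y h (B := fun _ => 0)
        (fun e he T hT hT' => by
          have h3 := mfyc_sub he hT'
          have h4 : vg D ((insert e T : Finset Ed) : Set Ed) (Mmn χ) x =
              vg D (T : Set Ed) (Mmn χ) x := by
            by_contra hne
            rw [Finset.coe_insert] at hne
            exact hy (mfyc_nr h3.2.1 (vg_insert_pos hχ0 (fun e' he' => hT he') h3.1 hne).2)
          rw [mfyc_ins (fun z => (hχ z).2) hy h3.2.1 T, h4, sub_self, abs_zero])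
      rw [Finset.sum_const_zero, mul_zero] at h2
      exact abs_eq_zero.1 (le_antisymm h2 (abs_nonneg _))

/- END mfyd -/

/- MODULE mfye
The probability of a crossing.  If `Cro D P χ (Op ε H)` then for some `y ∈ Aq D P` next to a site
`p` of `P` (so `y ∈ D`, `χ y = 1`) and some `z ∈ Cmp (Aq D P) (Op ε H) y` with `χ z < 1`, so
`dn (z - p) ≥ R + 2` and `dn (z - y) ≥ R + 1`: `Rd ε (Aq D P) y R H`.  Union bound over the at most
`n` such `y` and `vol_Rd` with `A = Aq D P`, `ε = 2⁻⁵⁰` (`(2⁻³)^R (R + 1) ≤ C 4^{-R}`). -/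
private theorem mfye_Gx (ε : ℝ) {A D : Finset (ℤ × ℤ)} (hA : A ⊆ D) (b b' : ℤ × ℤ → ℝ)
    (h : D → ℝ) (x : ℤ × ℤ) : Gx ε A (gl D b h) x = Gx ε A (gl D b' h) x := by
  unfold Gx
  rw [← Cmp_inter A (Op ε (gl D b h)), ← Cmp_inter A (Op ε (gl D b' h))]
  congr 1
  ext e
  simp only [mem_inter_iff, mem_ofPred_eq]
  refine and_congr_left fun he => ?_
  unfold Op hd
  rw [mem_ofPred_eq, mem_ofPred_eq, gl_mem (hA he.1), gl_mem (hA he.2), gl_mem (hA he.1),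
    gl_mem (hA he.2)]

/-- the sites next to `P` -/
private def mfye_Y (D : Finset (ℤ × ℤ)) (P : ℤ × ℤ → Prop) : Finset (ℤ × ℤ) := by
  classical exact (Aq D P).filter (fun y => ∃ i : Fin 6, P (y + st i))

private theorem mfye_memY {D : Finset (ℤ × ℤ)} {P : ℤ × ℤ → Prop} {y : ℤ × ℤ} :
    y ∈ mfye_Y D P ↔ y ∈ Aq D P ∧ ∃ i : Fin 6, P (y + st i) := by
  classical
  unfold mfye_Y
  rw [Finset.mem_filter]

private theorem mfye_set (ε : ℝ) (D : Finset (ℤ × ℤ)) (P : ℤ × ℤ → Prop) (χ : ℤ × ℤ → ℝ)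
    (b : ℤ × ℤ → ℝ) :
    {h : D → ℝ | Cro D P χ (Op ε (gl D (fun _ => 0) h))} =
      ⋃ y ∈ mfye_Y D P, {h : D → ℝ | ∃ z ∈ Gx ε (Aq D P) (gl D b h) y, χ z < 1} := by
  ext h
  simp only [mem_iUnion, mem_ofPred_eq, exists_prop]
  have hA : Aq D P ⊆ D := fun x hx => (mfyc_Aq.1 hx).1
  constructor
  · rintro ⟨y, hy, hi, z, hz, hχ⟩
    refine ⟨y, mfye_memY.2 ⟨hy, hi⟩, z, ?_, hχ⟩
    rw [mfye_Gx ε hA b (fun _ => 0) h y]
    exact hz
  · rintro ⟨y, hy, z, hz, hχ⟩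
    rw [mfye_Gx ε hA b (fun _ => 0) h y] at hz
    have h1 := mfye_memY.1 hy
    exact ⟨y, h1.1, h1.2, z, hz, hχ⟩

private theorem mfye_meas (ε : ℝ) (D : Finset (ℤ × ℤ)) (P : ℤ × ℤ → Prop) (χ : ℤ × ℤ → ℝ) :
    MeasurableSet {h : D → ℝ | Cro D P χ (Op ε (gl D (fun _ => 0) h))} := by
  classical
  rw [mfye_set ε D P χ (fun _ => 0)]
  refine Finset.measurableSet_biUnion _ fun y _ => ?_
  have h1 := Gx_fun_meas ε D (fun _ => 0) (Aq D P) y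
    (fun F => if ∃ z ∈ F, χ z < 1 then (1 : ℝ) else 0)
  have e1 : {h : D → ℝ | ∃ z ∈ Gx ε (Aq D P) (gl D (fun _ => 0) h) y, χ z < 1} =
      (fun h : D → ℝ => (fun F : Finset (ℤ × ℤ) => if ∃ z ∈ F, χ z < 1 then (1 : ℝ) else 0)
        (Gx ε (Aq D P) (gl D (fun _ => 0) h) y)) ⁻¹' {1} := by
    ext h
    simp only [mem_ofPred_eq, mem_preimage, mem_singleton_iff]
    by_cases h2 : ∃ z ∈ Gx ε (Aq D P) (gl D (fun _ => 0) h) y, χ z < 1
    · simp only [h2, if_true]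
    · simp only [h2, if_false, zero_ne_one]
  rw [e1]
  exact h1 (measurableSet_singleton 1)

private theorem mfye_Mu {D : Finset (ℤ × ℤ)} {b : ℤ × ℤ → ℝ} (hb : ∀ z, |b z| ≤ 1 / 2)
    {s : Set (D → ℝ)} {c : ℝ≥0∞} (hc : c ≠ ⊤)
    (hs : volume (K D b ∩ s) ≤ c * volume (K D b)) : (Mu D b).real s ≤ c.toReal := by
  have h1 : (1 : ℝ≥0∞) ≤ volume (K D b) := Z_one_le (fun z _ _ => hb z)
  have h2 : volume (K D b) ≠ ⊤ := (Z_lt_top D b).ne
  have h3 : volume (K D b) ≠ 0 := by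
    intro h0
    rw [h0] at h1
    exact absurd h1 (by norm_num)
  unfold Measure.real
  refine ENNReal.toReal_mono hc ?_
  unfold Mu
  rw [ProbabilityTheory.cond_apply (K_meas D b)]
  calc (volume (K D b))⁻¹ * volume (K D b ∩ s) ≤ (volume (K D b))⁻¹ * (c * volume (K D b)) :=
        mul_le_mul' le_rfl hs
    _ = c := by
        rw [mul_comm c, ← mul_assoc, ENNReal.inv_mul_cancel h3 h2, one_mul]

theorem cro_prob : ∃ C : ℝ, 0 ≤ C ∧ ∀ (D : Finset (ℤ × ℤ)) (P : ℤ × ℤ → Prop)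
    (χ : ℤ × ℤ → ℝ) (R n : ℕ),
    (∀ x y, P x → dn (y - x) ≤ R + 1 → χ y = 1 ∧ y ∈ D) →
    (∀ S : Finset (ℤ × ℤ), S ⊆ D → (∀ x ∈ S, 0 < χ x) → S.card ≤ n) →
    ∀ b : ℤ × ℤ → ℝ, (∀ z, |b z| ≤ 1 / 2) →
    (Mu D b).real {h | Cro D P χ (Op (1 / 2 ^ 50) (gl D (fun _ => 0) h))} ≤ C * (n : ℝ) / 4 ^ R := by
  refine ⟨2 ^ 44, by positivity, ?_⟩
  intro D P χ R n hP hn b hb
  have hA : Aq D P ⊆ D := fun x hx => (mfyc_Aq.1 hx).1
  have hY : ∀ y ∈ mfye_Y D P, y ∈ D ∧ χ y = 1 ∧ ∀ z, dn (z - y) ≤ R → χ z = 1 := by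
    intro y hy
    obtain ⟨h1, i, h2⟩ := mfye_memY.1 hy
    have e1 : dn (y - (y + st i)) = 1 := by
      rw [show y - (y + st i) = - st i by abel, dn_neg]
      exact (dn_one_iff _).2 ⟨i, rfl⟩
    refine ⟨hA h1, (hP _ y h2 ?_).1, fun z hz => (hP _ z h2 ?_).1⟩
    · rw [e1]
      have : (0 : ℤ) ≤ R := Nat.cast_nonneg R
      linarith
    · have h3 := dn_add_le (z - y) (y - (y + st i))
      rw [sub_add_sub_cancel, e1] at h3
      linarith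
  have hYn : (mfye_Y D P).card ≤ n := by
    refine hn _ (fun y hy => (hY y hy).1) fun y hy => ?_
    rw [(hY y hy).2.1]
    exact one_pos
  -- the volume
  have hvol : volume (K D b ∩ {h | Cro D P χ (Op (1 / 2 ^ 50) (gl D (fun _ => 0) h))}) ≤
      ((n : ℝ≥0∞) * (2 ^ 44 * ((R : ℝ≥0∞) + 1) * ENNReal.ofReal (1 / 8) ^ R)) *
        volume (K D b) := by
    rw [mfye_set _ D P χ b]
    have hsub : K D b ∩ (⋃ y ∈ mfye_Y D P,
        {h : D → ℝ | ∃ z ∈ Gx (1 / 2 ^ 50) (Aq D P) (gl D b h) y, χ z < 1}) ⊆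
        ⋃ y ∈ mfye_Y D P, {h : D → ℝ | h ∈ K D b ∧ Rd (1 / 2 ^ 50) (Aq D P) y R (gl D b h)} := by
      rintro h ⟨h1, h2⟩
      simp only [mem_iUnion, mem_ofPred_eq, exists_prop] at h2 ⊢
      obtain ⟨y, hy, z, hz, hχ⟩ := h2
      refine ⟨y, hy, h1, z, hz, ?_⟩
      by_contra hlt
      rw [(hY y hy).2.2 z (by omega)] at hχ
      exact lt_irrefl _ hχ
    refine (measure_mono hsub).trans ((measure_biUnion_finset_le _ _).trans ?_)
    have hone : ∀ y ∈ mfye_Y D P,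
        volume {h : D → ℝ | h ∈ K D b ∧ Rd (1 / 2 ^ 50) (Aq D P) y R (gl D b h)} ≤
        (2 ^ 44 * ((R : ℝ≥0∞) + 1) * ENNReal.ofReal (1 / 8) ^ R) * volume (K D b) := by
      intro y hy
      have h1 := vol_Rd hA hb (ε := 1 / 2 ^ 50) (by norm_num) (by norm_num)
        (mfye_memY.1 hy).1 R
      have e1 : (2 : ℝ) ^ 47 * (1 / 2 ^ 50) = 1 / 8 := by norm_num
      rw [e1] at h1
      exact h1
    refine (Finset.sum_le_sum hone).trans ?_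
    rw [Finset.sum_const, nsmul_eq_mul, mul_assoc (n : ℝ≥0∞)]
    refine mul_le_mul' ?_ le_rfl
    exact_mod_cast hYn
  have hfin : ((n : ℝ≥0∞) * (2 ^ 44 * ((R : ℝ≥0∞) + 1) * ENNReal.ofReal (1 / 8) ^ R)) ≠ ⊤ := by
    refine ENNReal.mul_ne_top (ENNReal.natCast_ne_top n) (ENNReal.mul_ne_top
      (ENNReal.mul_ne_top (by norm_num) ?_) (ENNReal.pow_ne_top ENNReal.ofReal_ne_top))
    exact ENNReal.add_ne_top.2 ⟨ENNReal.natCast_ne_top R, ENNReal.one_ne_top⟩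
  refine (mfye_Mu hb hfin hvol).trans ?_
  rw [ENNReal.toReal_mul, ENNReal.toReal_mul, ENNReal.toReal_mul, ENNReal.toReal_pow,
    ENNReal.toReal_pow, ENNReal.toReal_ofReal (by norm_num), ENNReal.toReal_natCast,
    ENNReal.toReal_add (ENNReal.natCast_ne_top R) ENNReal.one_ne_top, ENNReal.toReal_natCast,
    ENNReal.toReal_one, ENNReal.toReal_ofNat]
  have h2 : (R : ℝ) + 1 ≤ 2 ^ R := by
    have h3 : R + 1 ≤ 2 ^ R := Nat.lt_two_pow_self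
    exact_mod_cast h3
  have h4 : ((1 : ℝ) / 8) ^ R = 1 / 4 ^ R * (1 / 2 ^ R) := by
    rw [← one_div_pow, ← one_div_pow, ← mul_pow]
    norm_num
  rw [h4]
  have h5 : ((R : ℝ) + 1) * (1 / 2 ^ R) ≤ 1 := by
    rw [mul_one_div, div_le_one (by positivity)]
    exact h2
  have h6 : (0 : ℝ) ≤ (n : ℝ) * 2 ^ 44 * (1 / 4 ^ R) := by positivity
  calc (n : ℝ) * (2 ^ 44 * ((R : ℝ) + 1) * (1 / 4 ^ R * (1 / 2 ^ R)))
      = ((n : ℝ) * 2 ^ 44 * (1 / 4 ^ R)) * (((R : ℝ) + 1) * (1 / 2 ^ R)) := by ring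
    _ ≤ ((n : ℝ) * 2 ^ 44 * (1 / 4 ^ R)) * 1 := mul_le_mul_of_nonneg_left h5 h6
    _ = 2 ^ 44 * (n : ℝ) / 4 ^ R := by ring

/- END mfye -/

/- MODULE mfyf
CLUSTER CUT-OFF WITH GATE: `ψ x = psg ε₀ D P χ x`, `γ = gam ε₀ D P χ`, `ε₀ = 2⁻⁵⁰`, `ε = ε₀/2`.
`∫ (1 - γ) ≤ P(Cro)`; `Ga γ ≤ 7 n · 12 C 1_Cro` (at most `7 n` sites `y` with `Nr D χ y`);
`Gd2 ψ ≤ ` the bound of `rho_energy` `+ n · 7 n · 144 C² 1_Cro`, `moment_one 3`, `Gx_zero`. -/
/-- the sites of the support -/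
private def mfyf_X (D : Finset (ℤ × ℤ)) (χ : ℤ × ℤ → ℝ) : Finset (ℤ × ℤ) := by
  classical exact D.filter (fun x => 0 < χ x)

/-- the support and its neighbours -/
private def mfyf_N (D : Finset (ℤ × ℤ)) (χ : ℤ × ℤ → ℝ) : Finset (ℤ × ℤ) :=
  (mfyf_X D χ).biUnion (fun x => insert x (Finset.univ.image (fun i : Fin 6 => x + st i)))

private theorem mfyf_memX {D : Finset (ℤ × ℤ)} {χ : ℤ × ℤ → ℝ} {x : ℤ × ℤ} :
    x ∈ mfyf_X D χ ↔ x ∈ D ∧ 0 < χ x := by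
  classical
  unfold mfyf_X
  rw [Finset.mem_filter]

private theorem mfyf_memN {D : Finset (ℤ × ℤ)} {χ : ℤ × ℤ → ℝ} {y : ℤ × ℤ} :
    y ∈ mfyf_N D χ ↔ Nr D χ y := by
  unfold mfyf_N Nr
  rw [Finset.mem_biUnion]
  constructor
  · rintro ⟨x, hx, hy⟩
    have h1 := mfyf_memX.1 hx
    rw [Finset.mem_insert, Finset.mem_image] at hy
    refine ⟨x, h1.1, h1.2, ?_⟩
    rcases hy with hy | ⟨i, _, hy⟩
    · exact Or.inl hy
    · exact Or.inr ⟨i, hy.symm⟩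
  · rintro ⟨x, hx, hχ, hy⟩
    refine ⟨x, mfyf_memX.2 ⟨hx, hχ⟩, ?_⟩
    rw [Finset.mem_insert, Finset.mem_image]
    rcases hy with hy | ⟨i, hy⟩
    · exact Or.inl hy
    · exact Or.inr ⟨i, Finset.mem_univ i, hy.symm⟩

private theorem mfyf_cardN {D : Finset (ℤ × ℤ)} {χ : ℤ × ℤ → ℝ} {n : ℕ}
    (hn : ∀ S : Finset (ℤ × ℤ), S ⊆ D → (∀ x ∈ S, 0 < χ x) → S.card ≤ n) :
    (mfyf_X D χ).card ≤ n ∧ (mfyf_N D χ).card ≤ 7 * n := by
  have h1 : (mfyf_X D χ).card ≤ n :=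
    hn _ (fun x hx => (mfyf_memX.1 hx).1) fun x hx => (mfyf_memX.1 hx).2
  refine ⟨h1, ?_⟩
  unfold mfyf_N
  refine (Finset.card_biUnion_le_card_mul _ _ 7 fun x _ => ?_).trans ?_
  · refine (Finset.card_insert_le _ _).trans ?_
    have h2 : (Finset.univ.image (fun i : Fin 6 => x + st i)).card ≤ 6 :=
      Finset.card_image_le.trans (by simp)
    omega
  · rw [mul_comm]
    exact Nat.mul_le_mul_left 7 h1

/-- a sum over the sites of `D` of a function which vanishes off a small set -/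
private theorem mfyf_sum {D A : Finset (ℤ × ℤ)} {f : D → ℝ} {c : ℝ} (hc : 0 ≤ c)
    (h0 : ∀ y : D, (y : ℤ × ℤ) ∉ A → f y = 0) (h1 : ∀ y, f y ≤ c) :
    ∑ y, f y ≤ A.card * c := by
  classical
  have e1 : ∑ y, f y = ∑ y ∈ Finset.univ.filter (fun y : D => (y : ℤ × ℤ) ∈ A), f y := by
    rw [Finset.sum_filter]
    refine Finset.sum_congr rfl fun y _ => ?_
    by_cases hy : (y : ℤ × ℤ) ∈ A
    · rw [if_pos hy]
    · rw [if_neg hy, h0 y hy]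
  rw [e1]
  refine (Finset.sum_le_sum fun y _ => h1 y).trans ?_
  rw [Finset.sum_const, nsmul_eq_mul]
  refine mul_le_mul_of_nonneg_right ?_ hc
  have h2 : (Finset.univ.filter (fun y : D => (y : ℤ × ℤ) ∈ A)).card ≤ A.card := by
    refine Finset.card_le_card_of_injOn (fun y => (y : ℤ × ℤ)) (fun y hy => ?_) ?_
    · exact (Finset.mem_filter.1 hy).2
    · exact Subtype.val_injective.injOn
  exact_mod_cast h2

/-- the pointwise bound of the energy -/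
private theorem mfyf_pt {ε : ℝ} (h0 : 0 < ε) (h1 : ε ≤ 1 / 2) {C : ℝ} (hC0 : 0 ≤ C)
    (hC : ∀ z, |deriv (qs ε) z| ≤ C) {D : Finset (ℤ × ℤ)} {P : ℤ × ℤ → Prop} {χ : ℤ × ℤ → ℝ}
    {n : ℕ} (hχ : ∀ z, 0 ≤ χ z ∧ χ z ≤ 1)
    (hn : ∀ S : Finset (ℤ × ℤ), S ⊆ D → (∀ x ∈ S, 0 < χ x) → S.card ≤ n) {E : Set (D → ℝ)}
    (hE : E = {h | Cro D P χ (Op ε (gl D (fun _ => 0) h))}) (h : D → ℝ) :
    Gd2 (fun (x : D) (h : D → ℝ) => psg ε D P χ x h) h ≤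
      (96768 * C ^ 2 * ∑ y ∈ D, (∑ i, (χ y - χ (y + st i)) ^ 2) *
        ((Gx ε D (gl D (fun _ => 0) h) y).card : ℝ) ^ 3) +
        E.indicator (fun _ => (n : ℝ) * (7 * n * (12 * C) ^ 2)) h ∧
    Ga (gam ε D P χ) h ≤ E.indicator (fun _ => 7 * (n : ℝ) * (12 * C)) h ∧
    1 - gam ε D P χ h ≤ E.indicator (fun _ => (1 : ℝ)) h := by
  have pp := psg_point h0 h1 hC0 hC D (P := P) hχ h
  have gp := gam_point h0 h1 hC0 hC D P (fun z => (hχ z).2) h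
  obtain ⟨hX, hN⟩ := mfyf_cardN hn
  have hXr : ((mfyf_X D χ).card : ℝ) ≤ n := by exact_mod_cast hX
  have hNr : ((mfyf_N D χ).card : ℝ) ≤ 7 * n := by exact_mod_cast hN
  have hn0 : (0 : ℝ) ≤ n := Nat.cast_nonneg n
  have c1 : (0 : ℝ) ≤ 12 * C := by positivity
  have c2 : (0 : ℝ) ≤ (12 * C) ^ 2 := by positivity
  have c3 : (0 : ℝ) ≤ 7 * n * (12 * C) ^ 2 := by positivity
  refine ⟨?_, ?_, ?_⟩
  · by_cases hh : h ∈ E
    · rw [indicator_of_mem hh]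
      have k2 : 0 ≤ 96768 * C ^ 2 * ∑ y ∈ D, (∑ i, (χ y - χ (y + st i)) ^ 2) *
          ((Gx ε D (gl D (fun _ => 0) h) y).card : ℝ) ^ 3 :=
        mul_nonneg (by positivity) (Finset.sum_nonneg fun y _ =>
          mul_nonneg (Finset.sum_nonneg fun i _ => sq_nonneg _) (pow_nonneg (Nat.cast_nonneg _) 3))
      refine le_trans ?_ (le_add_of_nonneg_left k2)
      unfold Gd2
      have k3 : ∀ x : D, ∑ y, (pd y (fun h : D → ℝ => psg ε D P χ x h) h) ^ 2 ≤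
          7 * n * (12 * C) ^ 2 := by
        intro x
        refine (mfyf_sum (A := mfyf_N D χ) (c := (12 * C) ^ 2) c2
          (fun y hy => ?_) fun y => ?_).trans (mul_le_mul_of_nonneg_right hNr c2)
        · rw [pp.2.2 x y (Or.inr fun h3 => hy (mfyf_memN.2 h3))]
          exact zero_pow two_ne_zero
        · have h3 := pow_le_pow_left₀ (abs_nonneg _) (pp.2.1 x y) 2
          rw [sq_abs] at h3
          exact h3
      refine (mfyf_sum (A := mfyf_X D χ) (c := 7 * n * (12 * C) ^ 2) c3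
        (fun x hx => ?_) k3).trans (mul_le_mul_of_nonneg_right hXr c3)
      have hx0 : χ x = 0 := by
        by_contra hne
        exact hx (mfyf_memX.2 ⟨x.2, lt_of_le_of_ne (hχ x).1 (Ne.symm hne)⟩)
      refine Finset.sum_eq_zero fun y _ => ?_
      rw [pp.2.2 x y (Or.inl hx0)]
      exact zero_pow two_ne_zero
    · rw [indicator_of_notMem hh, add_zero]
      rw [hE] at hh
      have h3 := rho_energy h0 h1 hC (Mmn_mean χ) (mfx_UA D χ) D (fun _ => 0) h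
      refine le_trans (le_of_eq ?_) h3
      unfold Gd2
      rw [← Finset.sum_coe_sort D]
      refine Finset.sum_congr rfl fun x _ => ?_
      rw [← Finset.sum_coe_sort D]
      refine Finset.sum_congr rfl fun y _ => ?_
      rw [pp.1 hh x y]
  · unfold Ga
    by_cases hh : h ∈ E
    · rw [indicator_of_mem hh]
      refine (mfyf_sum (A := mfyf_N D χ) (c := 12 * C) c1
        (fun y hy => ?_) fun y => gp.2.1 y).trans (mul_le_mul_of_nonneg_right hNr c1)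
      rw [gp.2.2 y fun h3 => hy (mfyf_memN.2 h3), abs_zero]
    · rw [indicator_of_notMem hh]
      rw [hE] at hh
      refine le_of_eq (Finset.sum_eq_zero fun y _ => ?_)
      rw [(gp.1 hh).2 y, abs_zero]
  · by_cases hh : h ∈ E
    · rw [indicator_of_mem hh]
      linarith [((gam_basic h0 h1 D P χ).2.1 h).1]
    · rw [indicator_of_notMem hh]
      rw [hE] at hh
      rw [(gp.1 hh).1, sub_self]

theorem cf_gate : ∃ ε C : ℝ, 0 < ε ∧ 0 ≤ C ∧ ∀ (D : Finset (ℤ × ℤ)) (P : ℤ × ℤ → Prop)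
    (χ : ℤ × ℤ → ℝ) (R n : ℕ), (∀ z, 0 ≤ χ z ∧ χ z ≤ 1) →
    (∀ x y, P x → dn (y - x) ≤ R + 1 → χ y = 1 ∧ y ∈ D) →
    (∀ S : Finset (ℤ × ℤ), S ⊆ D → (∀ x ∈ S, 0 < χ x) → S.card ≤ n) →
    ∃ (ψ : D → (D → ℝ) → ℝ) (γ : (D → ℝ) → ℝ), (∀ x, BS (ψ x)) ∧ BS γ ∧
      (∀ x : D, P x → ψ x = γ) ∧ (∀ x h, 0 ≤ ψ x h ∧ ψ x h ≤ χ x) ∧
      (∀ h, 0 ≤ γ h ∧ γ h ≤ 1) ∧ Dep (fun x => ¬ P x) γ ∧
      (∀ x y : D, (∃ i, (y : ℤ × ℤ) = x + st i) → ∀ h : D → ℝ,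
        1 - ε ≤ |h x - h y| → ψ x h = ψ y h) ∧
      ∀ b : ℤ × ℤ → ℝ, (∀ z, |b z| ≤ 1 / 2) →
        ∫ h, Gd2 ψ h ∂(Mu D b) ≤ C * (EI D χ + (n : ℝ) ^ 3 / 4 ^ R) ∧
        ∫ h, Ga γ h ∂(Mu D b) ≤ C * (n : ℝ) ^ 2 / 4 ^ R ∧
        ∫ h, (1 - γ h) ∂(Mu D b) ≤ C * (n : ℝ) / 4 ^ R := by
  obtain ⟨Cp, hCp0, hCp⟩ := cro_prob
  obtain ⟨e, he⟩ : ∃ e : ℝ, e = 1 / 2 ^ 50 := ⟨_, rfl⟩
  rw [← he] at hCp
  have h0 : 0 < e := by
    rw [he]
    positivity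
  have h1 : e ≤ 1 / 2 := by
    rw [he]
    norm_num
  have h2 : e ≤ 1 / 2 ^ 48 := by
    rw [he]
    norm_num
  clear he
  obtain ⟨C, hC0, hC⟩ := qs_bound h0 h1
  obtain ⟨C3, hC30, hC3⟩ := moment_one 3
  have hC' : ∀ z, |deriv (qs e) z| ≤ C := fun z => (hC z).1
  obtain ⟨K0, hK0⟩ : ∃ K0 : ℝ, K0 = 96768 * C ^ 2 * (1 + C3 * e) := ⟨_, rfl⟩
  have hK00 : 0 ≤ K0 := by
    rw [hK0]
    positivity
  refine ⟨e / 2, K0 + 1008 * C ^ 2 * Cp + 84 * C * Cp + Cp, by positivity, by positivity, ?_⟩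
  intro D P χ R n hχ hP hn
  have hP1 : ∀ x, P x → χ x = 1 := fun x hx => (hP x x hx (by
    rw [sub_self, (dn_zero_iff 0).2 rfl]
    positivity)).1
  obtain ⟨p1, p2, p3, p4⟩ := psg_basic h0 h1 D hχ hP1
  obtain ⟨g1, g2, g3⟩ := gam_basic h0 h1 D P χ
  refine ⟨fun x => psg e D P χ x, gam e D P χ, fun x => p1 x, g1,
    fun x hx => p3 x x.2 hx, fun x h => p2 x h, g2, g3, p4, ?_⟩
  intro b hb
  have hPr : IsProbabilityMeasure (Mu D b) := prob hb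
  have hpr := hCp D P χ R n hP hn b hb
  obtain ⟨E, hE⟩ : ∃ E : Set (D → ℝ), E = {h | Cro D P χ (Op e (gl D (fun _ => 0) h))} :=
    ⟨_, rfl⟩
  have hEm : MeasurableSet E := by
    rw [hE]
    exact mfye_meas _ D P χ
  rw [← hE] at hpr
  have pt := fun h => mfyf_pt h0 h1 hC0 hC' hχ hn hE h
  have hn0 : (0 : ℝ) ≤ n := Nat.cast_nonneg n
  have hindI : ∀ c : ℝ, Integrable (E.indicator fun _ => c) (Mu D b) := fun c =>
    (integrable_const c).indicator hEm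
  have hind : ∀ c : ℝ, 0 ≤ c → ∫ h, E.indicator (fun _ => c) h ∂(Mu D b) ≤
      c * (Cp * n / 4 ^ R) := by
    intro c hc
    rw [integral_indicator_const _ hEm, smul_eq_mul, mul_comm]
    exact mul_le_mul_of_nonneg_left hpr hc
  have t1 : 0 ≤ 1008 * C ^ 2 * Cp := by positivity
  have t2 : 0 ≤ 84 * C * Cp := by positivity
  refine ⟨?_, ?_, ?_⟩
  · -- the energy
    have s3 := mfx_sum hb (ε := e) χ 3 (fun x hx => hC3 D D (Finset.Subset.refl _) b hb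
      e h0 h2 x hx)
    have hc : (0 : ℝ) ≤ n * (7 * n * (12 * C) ^ 2) := by positivity
    have k0 : ∀ h, 0 ≤ Gd2 (fun (x : D) (h : D → ℝ) => psg e D P χ x h) h := fun h =>
      Finset.sum_nonneg fun x _ => Finset.sum_nonneg fun y _ => sq_nonneg _
    have k1 := integral_mono_of_nonneg (μ := Mu D b)
      (f := Gd2 (fun (x : D) (h : D → ℝ) => psg e D P χ x h))
      (Eventually.of_forall k0)
      ((s3.1.const_mul (96768 * C ^ 2)).add (hindI (n * (7 * n * (12 * C) ^ 2))))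
      (Eventually.of_forall fun h => (pt h).1)
    refine k1.trans ?_
    rw [integral_add' (s3.1.const_mul _) (hindI _), integral_const_mul]
    have k4 := hind (n * (7 * n * (12 * C) ^ 2)) hc
    have k5 := mul_le_mul_of_nonneg_left s3.2 (show 0 ≤ 96768 * C ^ 2 by positivity)
    have hEI : 0 ≤ EI D χ :=
      Finset.sum_nonneg fun x _ => Finset.sum_nonneg fun i _ => sq_nonneg _
    have e1 : n * (7 * n * (12 * C) ^ 2) * (Cp * n / 4 ^ R) =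
        1008 * C ^ 2 * Cp * ((n : ℝ) ^ 3 / 4 ^ R) := by ring
    have e2 : 96768 * C ^ 2 * ((1 + C3 * e) * EI D χ) = K0 * EI D χ := by
      rw [hK0]
      ring
    rw [e1] at k4
    rw [e2] at k5
    have hq : 0 ≤ (n : ℝ) ^ 3 / 4 ^ R := by positivity
    have m1 := mul_nonneg hK00 hq
    have m2 := mul_nonneg t1 hEI
    have m3 := mul_nonneg t2 hEI
    have m4 := mul_nonneg t2 hq
    have m5 := mul_nonneg hCp0 hEI
    have m6 := mul_nonneg hCp0 hq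
    refine (add_le_add k5 k4).trans ?_
    linarith
  · -- the gradient of the gate
    have hc : (0 : ℝ) ≤ 7 * n * (12 * C) := by positivity
    have k1 := integral_mono_of_nonneg (μ := Mu D b)
      (Eventually.of_forall fun h => Finset.sum_nonneg fun y _ =>
        abs_nonneg (pd y (gam e D P χ) h)) (hindI (7 * n * (12 * C)))
      (Eventually.of_forall fun h => (pt h).2.1)
    refine k1.trans ((hind _ hc).trans ?_)
    have e1 : 7 * n * (12 * C) * (Cp * n / 4 ^ R) = 84 * C * Cp * ((n : ℝ) ^ 2 / 4 ^ R) := by ring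
    rw [e1, mul_div_assoc]
    refine mul_le_mul_of_nonneg_right ?_ (by positivity)
    linarith
  · -- the gate
    have k1 := integral_mono_of_nonneg (μ := Mu D b)
      (Eventually.of_forall fun h => sub_nonneg.2 (g2 h).2) (hindI 1)
      (Eventually.of_forall fun h => (pt h).2.2)
    refine k1.trans ((hind 1 zero_le_one).trans ?_)
    rw [one_mul]
    refine div_le_div_of_nonneg_right (mul_le_mul_of_nonneg_right ?_ hn0) (by positivity)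
    linarith

/- END mfyf -/

end Pool.Agent.Hmk.Mn
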