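import Pool.Agent.Hmk.In

/-!
# Hmk, second part: definitions for the soft response fields (helper70)

`ι` finite, everything on `ι → ℝ` with the weight `e^{-V}`; all expectations are normalised.
-/

set_option autoImplicit false

open MeasureTheory Set Filter
open scoped ENNReal SchwartzMap ContDiff Topology

noncomputable section

namespace Pool.Agent.Hmk.Mn

variable {ι : Type*} [Fintype ι] [DecidableEq ι]

/-- smooth with compact support -/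
def CS (f : (ι → ℝ) → ℝ) : Prop := ContDiff ℝ ∞ f ∧ HasCompactSupport f

/-- smooth, bounded, with bounded first derivatives -/
structure BS (f : (ι → ℝ) → ℝ) : Prop where
  sm : ContDiff ℝ ∞ f
  bd : ∃ C : ℝ, ∀ h, |f h| ≤ C
  db : ∃ C : ℝ, ∀ x h, |pd x f h| ≤ C

/-- measurable with polynomial growth -/
def PG (G : (ι → ℝ) → ℝ) : Prop :=
  Measurable G ∧ ∃ (C : ℝ) (k : ℕ), ∀ h, |G h| ≤ C * (1 + ‖h‖) ^ k

/-- the potentials -/
structure Pot (V : (ι → ℝ) → ℝ) : Prop where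
  temp : V.HasTemperateGrowth
  wf : ∃ C : ℝ, ∀ h, |Wf V h| ≤ C
  hess : ∃ C : ℝ, ∀ x y h, |pd y (pd x V) h| ≤ C
  low : ∃ a A : ℝ, 0 < a ∧ ∀ h, a * ‖h‖ - A ≤ V h

/-- unnormalised integral -/
def Iv (V G : (ι → ℝ) → ℝ) : ℝ := ∫ h, G h * Real.exp (- V h)

/-- expectation -/
def Ev (V G : (ι → ℝ) → ℝ) : ℝ := Iv V G / Iv V (fun _ => 1)

/-- covariance -/
def Cv (V F G : (ι → ℝ) → ℝ) : ℝ := Ev V (fun h => F h * G h) - Ev V F * Ev V G

/-- the adjoint of the gradient -/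
def Ds (V : (ι → ℝ) → ℝ) (w : ι → (ι → ℝ) → ℝ) (h : ι → ℝ) : ℝ :=
  ∑ x, (pd x V h * w x h - pd x (w x) h)

/-- the Witten form -/
def Eb (V : (ι → ℝ) → ℝ) (v w : ι → (ι → ℝ) → ℝ) : ℝ :=
  Ev V (fun h => (∑ x, ∑ y, pd y (v x) h * pd y (w x) h) +
    ∑ x, ∑ y, pd y (pd x V) h * v x h * w y h)

/-- the Helffer-Sjostrand functional of `G` -/
def Jv (V G : (ι → ℝ) → ℝ) (w : ι → (ι → ℝ) → ℝ) : ℝ :=
  2 * Ev V (fun h => ∑ x, pd x G h * w x h) - Eb V w w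

/-- the derivative of `- Vs` when the fixed values move with velocity `u` -/
def Bt (D : Finset (ℤ × ℤ)) (b u : ℤ × ℤ → ℝ) (s : ℝ) (h : D → ℝ) : ℝ :=
  ∑ x ∈ D, ∑ i, if x + st i ∈ D then 0 else
    u (x + st i) * Us1 s (gl D b h x - gl D b h (x + st i))

/-- the interior part of the Hessian form evaluated at `ψ` (as in Caccioppoli's identity) -/
def Td (D : Finset (ℤ × ℤ)) (s : ℝ) (ψ : D → (D → ℝ) → ℝ) (h : D → ℝ) : ℝ :=
  ∑ x ∈ D, ∑ i, if x + st i ∈ D then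
    Us2 s (g0 D h x - g0 D h (x + st i)) *
      (g0 D (fun z => ψ z h) x - g0 D (fun z => ψ z h) (x + st i)) ^ 2 else 0

/-- total squared gradient of the fields `ψ` -/
def Gd2 (ψ : ι → (ι → ℝ) → ℝ) (h : ι → ℝ) : ℝ := ∑ x, ∑ y, (pd y (ψ x) h) ^ 2

/-- sum of the absolute values of the partial derivatives -/
def Ga (γ : (ι → ℝ) → ℝ) (h : ι → ℝ) : ℝ := ∑ y, |pd y γ h|

/-- the data on the path from `b₀` to `b₁` -/
def bt (b₀ b₁ : ℤ × ℤ → ℝ) (θ : ℝ) (z : ℤ × ℤ) : ℝ := b₀ z + θ * (b₁ z - b₀ z)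

end Pool.Agent.Hmk.Mn
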