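import Pool.Agent.Hmk.MnIbp

import Pool.Agent.Hgf.Nl

/-!
# Hmk, second part: near maximisers of the Helffer-Sjostrand functional (helper70)
-/

set_option autoImplicit false

open MeasureTheory Set Filter

open scoped ENNReal SchwartzMap ContDiff Topology

noncomputable section

namespace Pool.Agent.Hmk.Mn

variable {ι : Type*} [Fintype ι] [DecidableEq ι]

/- MODULE mbb
Near maximisers of the form `φ_x = av V x f`, `f` Schwartz: this is `Pool.Agent.Hgf.hs_nl` (library of
helper85, may still be a stub; `L2F V G = Iv V (G - Ev V G)²`, `mnF V G = Ev V G` by definition). -/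
theorem near_sz {V : (ι → ℝ) → ℝ} (hV : Pot V) {G : (ι → ℝ) → ℝ} {C : ℝ} (hG : Hgf.Fok G C)
    {η : ℝ} (hη : 0 < η) : ∃ φ : ι → 𝓢(ι → ℝ, ℝ),
      Iv V (fun h => (G h - Ev V G) ^ 2) ≤
        (∑ x, ∫ h, pd x G h * φ x h * Real.exp (- V h / 2)) + η ∧
      (∑ x, ∑ y, ∫ h, (av V y (φ x) h) ^ 2) +
        ∫ h, ∑ x, ∑ y, pd y (pd x V) h * φ x h * φ y h ≤
          Iv V (fun h => (G h - Ev V G) ^ 2) + η := by
  obtain ⟨a, A, ha, hlow⟩ := hV.low
  obtain ⟨f, h1, h2, _⟩ := Hgf.hs_nl hV.temp hV.wf ha hlow hG hη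
  have e1 : Hgf.mnF V G = Ev V G := by
    unfold Hgf.mnF Ev Iv
    simp only [one_mul]
  have e2 : Hgf.L2F V G = Iv V (fun h => (G h - Ev V G) ^ 2) := by
    unfold Hgf.L2F Iv
    rw [e1]
  rw [e2] at h1 h2
  exact ⟨fun x => av V x f, h1, h2⟩

/- END mbb -/

/- MODULE mbc
Cut-off: `w_x = χ_R e^{V/2} φ_x` with `χ_R(h) = χ(h/R)` smooth, compactly supported, `= 1` on the ball
of radius `R`, `|d_y χ_R| ≤ C/R`.  `d_y w_x e^{-V/2} = χ_R av_y φ_x + (d_y χ_R) φ_x`, everything
converges by dominated convergence as `R → ∞` (`φ_x`, `av_y φ_x` Schwartz, `V_xy` bounded, `G_x` of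
polynomial growth). -/
private theorem mbc_int (f g : 𝓢(ι → ℝ, ℝ)) : Integrable (fun h => f h * g h) := by
  have h1 := (mu (f : (ι → ℝ) → ℝ) g).integrable (μ := volume)
  exact h1.congr (ae_of_all _ fun h => mu_apply f.hasTemperateGrowth g h)

/-- the cut-off functions -/
private theorem mbc_chi : ∃ (χ : ℕ → (ι → ℝ) → ℝ) (C : ℝ), 0 ≤ C ∧ (∀ n, CS (χ n)) ∧
    (∀ n h, 0 ≤ χ n h ∧ χ n h ≤ 1) ∧ (∀ n y h, |pd y (χ n) h| ≤ C) ∧
    (∀ h, Tendsto (fun n => χ n h) atTop (𝓝 1)) ∧
    ∀ y h, Tendsto (fun n => pd y (χ n) h) atTop (𝓝 0) := by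
  let f : ContDiffBump (0 : ι → ℝ) := ⟨1, 2, one_pos, one_lt_two⟩
  have hf : ContDiff ℝ ∞ (f : (ι → ℝ) → ℝ) := f.contDiff
  have hfc : HasCompactSupport (f : (ι → ℝ) → ℝ) := f.hasCompactSupport
  have hcs : CS (f : (ι → ℝ) → ℝ) := ⟨hf, hfc⟩
  have hb : ∃ C : ℝ, 0 ≤ C ∧ ∀ y h, |pd y f h| ≤ C := by
    have h1 : ∀ y, ∃ C : ℝ, ∀ h, |pd y f h| ≤ C := by
      intro y
      have h2 := hcs.pd y
      obtain ⟨C, hC⟩ := h2.2.exists_bound_of_continuous h2.1.continuous
      exact ⟨C, fun h => by rw [← Real.norm_eq_abs]; exact hC h⟩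
    choose A hA using h1
    refine ⟨∑ y, |A y|, Finset.sum_nonneg fun y _ => abs_nonneg _, fun y h => ?_⟩
    exact ((hA y h).trans (le_abs_self _)).trans
      (Finset.single_le_sum (f := fun y => |A y|) (fun y _ => abs_nonneg _) (Finset.mem_univ y))
  obtain ⟨C, hC0, hC⟩ := hb
  have hc0 : ∀ n : ℕ, (0 : ℝ) < 1 / ((n : ℝ) + 1) := fun n => by positivity
  have hc1 : ∀ n : ℕ, 1 / ((n : ℝ) + 1) ≤ 1 := fun n => by
    rw [div_le_one (by positivity)]
    linarith [(Nat.cast_nonneg n : (0 : ℝ) ≤ n)]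
  have hct : Tendsto (fun n : ℕ => 1 / ((n : ℝ) + 1)) atTop (𝓝 0) :=
    tendsto_one_div_add_atTop_nhds_zero_nat
  have hpd : ∀ (n : ℕ) (y : ι) (h : ι → ℝ),
      pd y (fun h => f ((1 / ((n : ℝ) + 1)) • h)) h =
        1 / ((n : ℝ) + 1) * pd y f ((1 / ((n : ℝ) + 1)) • h) := by
    intro n y h
    have h1 : HasFDerivAt (fun h : ι → ℝ => (1 / ((n : ℝ) + 1)) • h)
        ((1 / ((n : ℝ) + 1)) • ContinuousLinearMap.id ℝ (ι → ℝ)) h :=
      ((1 / ((n : ℝ) + 1)) • ContinuousLinearMap.id ℝ (ι → ℝ)).hasFDerivAt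
    have h2 : HasFDerivAt (f : (ι → ℝ) → ℝ) (fderiv ℝ f ((1 / ((n : ℝ) + 1)) • h))
        ((1 / ((n : ℝ) + 1)) • h) := ((hf.differentiable (by simp)) _).hasFDerivAt
    have h3 := h2.comp h h1
    unfold pd
    rw [show (fun h => f ((1 / ((n : ℝ) + 1)) • h)) =
      (f : (ι → ℝ) → ℝ) ∘ fun h : ι → ℝ => (1 / ((n : ℝ) + 1)) • h from rfl, h3.fderiv]
    simp
  refine ⟨fun n h => f ((1 / ((n : ℝ) + 1)) • h), C, hC0, fun n => ⟨?_, ?_⟩,
    fun n h => ⟨f.nonneg, f.le_one⟩, fun n y h => ?_, fun h => ?_, fun y h => ?_⟩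
  · exact hf.comp (contDiff_id.const_smul _)
  · exact hfc.comp_smul (hc0 n).ne'
  · rw [hpd, abs_mul, abs_of_pos (hc0 n)]
    calc 1 / ((n : ℝ) + 1) * |pd y f ((1 / ((n : ℝ) + 1)) • h)| ≤ 1 * C :=
          mul_le_mul (hc1 n) (hC y _) (abs_nonneg _) zero_le_one
      _ = C := one_mul C
  · have h1 : Tendsto (fun n : ℕ => (1 / ((n : ℝ) + 1)) • h) atTop (𝓝 ((0 : ℝ) • h)) :=
      hct.smul_const h
    rw [zero_smul] at h1
    have h2 := (hf.continuous.tendsto (0 : ι → ℝ)).comp h1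
    have h3 : f (0 : ι → ℝ) = 1 := f.one_of_mem_closedBall (by
      rw [Metric.mem_closedBall, dist_self]
      exact zero_le_one)
    rw [h3] at h2
    exact h2
  · rw [show (fun n : ℕ => pd y (fun h => f ((1 / ((n : ℝ) + 1)) • h)) h) =
      fun n : ℕ => 1 / ((n : ℝ) + 1) * pd y f ((1 / ((n : ℝ) + 1)) • h) from
        funext fun n => hpd n y h]
    refine squeeze_zero_norm (a := fun n : ℕ => 1 / ((n : ℝ) + 1) * C) (fun n => ?_) ?_
    · rw [Real.norm_eq_abs, abs_mul, abs_of_pos (hc0 n)]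
      exact mul_le_mul_of_nonneg_left (hC y _) (hc0 n).le
    · have := hct.mul_const C
      rwa [zero_mul] at this

private theorem mbc_one {V : (ι → ℝ) → ℝ} (hV : Pot V) {G : (ι → ℝ) → ℝ}
    (hG : G.HasTemperateGrowth) (φ : ι → 𝓢(ι → ℝ, ℝ)) {χ : ℕ → (ι → ℝ) → ℝ}
    (h1 : ∀ n, CS (χ n)) (h2 : ∀ n h, 0 ≤ χ n h ∧ χ n h ≤ 1)
    (h3 : ∀ h, Tendsto (fun n => χ n h) atTop (𝓝 1)) :
    Tendsto (fun n => ∫ h, ∑ x, pd x G h * (χ n h * φ x h) * Real.exp (- V h / 2)) atTop
      (𝓝 (∑ x, ∫ h, pd x G h * φ x h * Real.exp (- V h / 2))) := by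
  obtain ⟨a, A, ha, hlow⟩ := hV.low
  have hVc : Continuous V := hV.temp.1.continuous
  have hgc : ∀ x, Continuous (pd x G) := fun x => (pd_temp hG x).1.continuous
  have hint0 : ∀ x, Integrable (fun h => pd x G h * φ x h) := fun x =>
    ((mu (pd x G) (φ x)).integrable (μ := volume)).congr
      (ae_of_all _ fun h => mu_apply (pd_temp hG x) (φ x) h)
  have hint : ∀ x, Integrable (fun h => pd x G h * φ x h * Real.exp (- V h / 2)) := by
    intro x
    refine ((hint0 x).norm.mul_const (Real.exp (A / 2))).mono' ?_ (ae_of_all _ fun h => ?_)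
    · exact (((hgc x).mul (φ x).continuous).mul
        (Real.continuous_exp.comp (hVc.neg.div_const 2))).aestronglyMeasurable
    · rw [norm_mul, Real.norm_of_nonneg (Real.exp_pos _).le]
      exact mul_le_mul_of_nonneg_left (exp_bdd ha hlow h) (norm_nonneg _)
  rw [← integral_finsetSum _ fun x _ => hint x]
  refine tendsto_integral_of_dominated_convergence
    (fun h => ∑ x, ‖pd x G h * φ x h * Real.exp (- V h / 2)‖) (fun n => ?_)
    (integrable_finsetSum _ fun x _ => (hint x).norm) (fun n => ae_of_all _ fun h => ?_)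
    (ae_of_all _ fun h => ?_)
  · refine Continuous.aestronglyMeasurable ?_
    exact continuous_finsetSum _ fun x _ => ((hgc x).mul ((h1 n).1.continuous.mul
      (φ x).continuous)).mul (Real.continuous_exp.comp (hVc.neg.div_const 2))
  · refine (norm_sum_le _ _).trans (Finset.sum_le_sum fun x _ => ?_)
    rw [show pd x G h * (χ n h * φ x h) * Real.exp (- V h / 2) =
      χ n h * (pd x G h * φ x h * Real.exp (- V h / 2)) by ring, norm_mul,
      Real.norm_of_nonneg (h2 n h).1]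
    exact mul_le_of_le_one_left (norm_nonneg _) (h2 n h).2
  · refine tendsto_finsetSum _ fun x _ => ?_
    have := ((h3 h).mul_const (φ x h)).const_mul (pd x G h)
    have := this.mul_const (Real.exp (- V h / 2))
    rwa [one_mul] at this

private theorem mbc_two {V : (ι → ℝ) → ℝ} (hV : Pot V)
    (φ : ι → 𝓢(ι → ℝ, ℝ)) {χ : ℕ → (ι → ℝ) → ℝ} {C : ℝ} (hC : 0 ≤ C)
    (h1 : ∀ n, CS (χ n)) (h2 : ∀ n h, 0 ≤ χ n h ∧ χ n h ≤ 1)
    (h4 : ∀ n y h, |pd y (χ n) h| ≤ C)
    (h3 : ∀ h, Tendsto (fun n => χ n h) atTop (𝓝 1))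
    (h5 : ∀ y h, Tendsto (fun n => pd y (χ n) h) atTop (𝓝 0)) :
    Tendsto (fun n => ∫ h, ((∑ x, ∑ y, (χ n h * av V y (φ x) h + pd y (χ n) h * φ x h) ^ 2) +
        ∑ x, ∑ y, pd y (pd x V) h * (χ n h * φ x h) * (χ n h * φ y h))) atTop
      (𝓝 ((∑ x, ∑ y, ∫ h, (av V y (φ x) h) ^ 2) +
        ∫ h, ∑ x, ∑ y, pd y (pd x V) h * φ x h * φ y h)) := by
  obtain ⟨K, hK⟩ := hV.hess
  have hvc : ∀ x y, Continuous (pd y (pd x V)) := fun x y =>
    (pd_temp (pd_temp hV.temp x) y).1.continuous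
  have i1 : ∀ x y, Integrable (fun h => (av V y (φ x) h) ^ 2) := fun x y => by
    have := mbc_int (av V y (φ x)) (av V y (φ x))
    refine this.congr (ae_of_all _ fun h => ?_)
    show _ * _ = _
    ring
  have i2 : ∀ x, Integrable (fun h => (φ x h) ^ 2) := fun x => by
    have := mbc_int (φ x) (φ x)
    refine this.congr (ae_of_all _ fun h => ?_)
    show _ * _ = _
    ring
  have i3 : ∀ x y, Integrable (fun h => |K| * |φ x h * φ y h|) := fun x y =>
    (mbc_int (φ x) (φ y)).abs.const_mul _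
  have i4 : ∀ x y, Integrable (fun h => pd y (pd x V) h * φ x h * φ y h) := fun x y => by
    refine (i3 x y).mono' (((hvc x y).mul (φ x).continuous).mul
      (φ y).continuous).aestronglyMeasurable (ae_of_all _ fun h => ?_)
    rw [Real.norm_eq_abs, mul_assoc, abs_mul]
    exact mul_le_mul_of_nonneg_right ((hK x y h).trans (le_abs_self K)) (abs_nonneg _)
  have e : (∑ x, ∑ y, ∫ h, (av V y (φ x) h) ^ 2) +
        ∫ h, ∑ x, ∑ y, pd y (pd x V) h * φ x h * φ y h =
      ∫ h, ((∑ x, ∑ y, (av V y (φ x) h) ^ 2) +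
        ∑ x, ∑ y, pd y (pd x V) h * φ x h * φ y h) := by
    rw [integral_add (integrable_finsetSum _ fun x _ => integrable_finsetSum _ fun y _ => i1 x y)
      (integrable_finsetSum _ fun x _ => integrable_finsetSum _ fun y _ => i4 x y)]
    congr 1
    rw [integral_finsetSum _ fun x _ => integrable_finsetSum _ fun y _ => i1 x y]
    refine Finset.sum_congr rfl fun x _ => ?_
    rw [integral_finsetSum _ fun y _ => i1 x y]
  rw [e]
  refine tendsto_integral_of_dominated_convergence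
    (fun h => (∑ x, ∑ y, (2 * (av V y (φ x) h) ^ 2 + 2 * C ^ 2 * (φ x h) ^ 2)) +
      ∑ x, ∑ y, |K| * |φ x h * φ y h|) (fun n => ?_) ?_ (fun n => ae_of_all _ fun h => ?_)
    (ae_of_all _ fun h => ?_)
  · refine Continuous.aestronglyMeasurable ?_
    have c1 : Continuous (χ n) := (h1 n).1.continuous
    have c2 : ∀ y, Continuous (pd y (χ n)) := fun y => ((h1 n).pd y).1.continuous
    refine Continuous.add ?_ ?_
    · exact continuous_finsetSum _ fun x _ => continuous_finsetSum _ fun y _ =>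
        ((c1.mul (av V y (φ x)).continuous).add ((c2 y).mul (φ x).continuous)).pow 2
    · exact continuous_finsetSum _ fun x _ => continuous_finsetSum _ fun y _ =>
        ((hvc x y).mul (c1.mul (φ x).continuous)).mul (c1.mul (φ y).continuous)
  · exact (integrable_finsetSum _ fun x _ => integrable_finsetSum _ fun y _ =>
      ((i1 x y).const_mul 2).add ((i2 x).const_mul (2 * C ^ 2))).add
      (integrable_finsetSum _ fun x _ => integrable_finsetSum _ fun y _ => i3 x y)
  · refine (norm_add_le _ _).trans (add_le_add ?_ ?_)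
    · rw [Real.norm_of_nonneg (Finset.sum_nonneg fun x _ => Finset.sum_nonneg fun y _ =>
        sq_nonneg _)]
      refine Finset.sum_le_sum fun x _ => Finset.sum_le_sum fun y _ => ?_
      have b1 : (χ n h * av V y (φ x) h) ^ 2 ≤ (av V y (φ x) h) ^ 2 := by
        rw [mul_pow]
        refine mul_le_of_le_one_left (sq_nonneg _) ?_
        nlinarith [(h2 n h).1, (h2 n h).2]
      have b2 : (pd y (χ n) h * φ x h) ^ 2 ≤ C ^ 2 * (φ x h) ^ 2 := by
        rw [mul_pow]
        refine mul_le_mul_of_nonneg_right ?_ (sq_nonneg _)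
        rw [← sq_abs]
        exact pow_le_pow_left₀ (abs_nonneg _) (h4 n y h) 2
      nlinarith [sq_nonneg (χ n h * av V y (φ x) h - pd y (χ n) h * φ x h)]
    · refine (norm_sum_le _ _).trans (Finset.sum_le_sum fun x _ => ?_)
      refine (norm_sum_le _ _).trans (Finset.sum_le_sum fun y _ => ?_)
      rw [show pd y (pd x V) h * (χ n h * φ x h) * (χ n h * φ y h) =
        (χ n h * χ n h) * (pd y (pd x V) h * (φ x h * φ y h)) by ring, Real.norm_eq_abs,
        abs_mul, abs_mul (pd y (pd x V) h), abs_of_nonneg (mul_nonneg (h2 n h).1 (h2 n h).1)]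
      have b1 : χ n h * χ n h ≤ 1 := by nlinarith [(h2 n h).1, (h2 n h).2]
      have b2 : |pd y (pd x V) h| * |φ x h * φ y h| ≤ |K| * |φ x h * φ y h| :=
        mul_le_mul_of_nonneg_right ((hK x y h).trans (le_abs_self K)) (abs_nonneg _)
      exact (mul_le_of_le_one_left (by positivity) b1).trans b2
  · refine Tendsto.add ?_ ?_
    · refine tendsto_finsetSum _ fun x _ => tendsto_finsetSum _ fun y _ => ?_
      have b1 := (((h3 h).mul_const (av V y (φ x) h)).add ((h5 y h).mul_const (φ x h))).pow 2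
      rwa [one_mul, zero_mul, add_zero] at b1
    · refine tendsto_finsetSum _ fun x _ => tendsto_finsetSum _ fun y _ => ?_
      have b1 := (((h3 h).mul_const (φ x h)).const_mul (pd y (pd x V) h)).mul
        ((h3 h).mul_const (φ y h))
      rwa [one_mul, one_mul] at b1

theorem cut_sz {V : (ι → ℝ) → ℝ} (hV : Pot V) {G : (ι → ℝ) → ℝ} (hG : G.HasTemperateGrowth)
    (φ : ι → 𝓢(ι → ℝ, ℝ)) {η : ℝ} (hη : 0 < η) :
    ∃ w : ι → (ι → ℝ) → ℝ, (∀ x, CS (w x)) ∧
      |Iv V (fun h => ∑ x, pd x G h * w x h) -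
        ∑ x, ∫ h, pd x G h * φ x h * Real.exp (- V h / 2)| ≤ η ∧
      |Iv V (fun h => (∑ x, ∑ y, pd y (w x) h * pd y (w x) h) +
          ∑ x, ∑ y, pd y (pd x V) h * w x h * w y h) -
        ((∑ x, ∑ y, ∫ h, (av V y (φ x) h) ^ 2) +
          ∫ h, ∑ x, ∑ y, pd y (pd x V) h * φ x h * φ y h)| ≤ η := by
  obtain ⟨χ, C, hC, h1, h2, h4, h3, h5⟩ := mbc_chi (ι := ι)
  have t1 := mbc_one hV hG φ h1 h2 h3
  have t2 := mbc_two hV φ hC h1 h2 h4 h3 h5
  rw [Metric.tendsto_atTop] at t1 t2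
  obtain ⟨N1, hN1⟩ := t1 η hη
  obtain ⟨N2, hN2⟩ := t2 η hη
  set n : ℕ := max N1 N2 with hn
  have a1 := hN1 n (le_max_left _ _)
  have a2 := hN2 n (le_max_right _ _)
  rw [Real.dist_eq] at a1 a2
  have hes : ∀ x, ContDiff ℝ ∞ (fun k => Real.exp (V k / 2) * φ x k) := fun x =>
    (hV.temp.1.div_const 2).exp.mul (φ x).smooth'
  refine ⟨fun x h => χ n h * (Real.exp (V h / 2) * φ x h), fun x => ⟨?_, ?_⟩, ?_, ?_⟩
  · exact (h1 n).1.mul (hes x)
  · exact (h1 n).2.mul_right
  · have e1 : Iv V (fun h => ∑ x, pd x G h * (χ n h * (Real.exp (V h / 2) * φ x h))) =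
        ∫ h, ∑ x, pd x G h * (χ n h * φ x h) * Real.exp (- V h / 2) := by
      unfold Iv
      refine integral_congr_ae (ae_of_all _ fun h => ?_)
      show (∑ x, pd x G h * (χ n h * (Real.exp (V h / 2) * φ x h))) * Real.exp (- V h) =
        ∑ x, pd x G h * (χ n h * φ x h) * Real.exp (- V h / 2)
      rw [Finset.sum_mul]
      refine Finset.sum_congr rfl fun x _ => ?_
      have : Real.exp (V h / 2) * Real.exp (- V h) = Real.exp (- V h / 2) := by
        rw [← Real.exp_add]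
        congr 1
        ring
      rw [← this]
      ring
    rw [e1]
    exact a1.le
  · have e2 : Iv V (fun h => (∑ x : ι, ∑ y : ι,
          pd y (fun h => χ n h * (Real.exp (V h / 2) * φ x h)) h *
            pd y (fun h => χ n h * (Real.exp (V h / 2) * φ x h)) h) +
          ∑ x, ∑ y, pd y (pd x V) h * (χ n h * (Real.exp (V h / 2) * φ x h)) *
            (χ n h * (Real.exp (V h / 2) * φ y h))) =
        ∫ h, ((∑ x, ∑ y, (χ n h * av V y (φ x) h + pd y (χ n) h * φ x h) ^ 2) +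
        ∑ x, ∑ y, pd y (pd x V) h * (χ n h * φ x h) * (χ n h * φ y h)) := by
      unfold Iv
      refine integral_congr_ae (ae_of_all _ fun h => ?_)
      show ((∑ x : ι, ∑ y : ι,
          pd y (fun h => χ n h * (Real.exp (V h / 2) * φ x h)) h *
            pd y (fun h => χ n h * (Real.exp (V h / 2) * φ x h)) h) +
          ∑ x, ∑ y, pd y (pd x V) h * (χ n h * (Real.exp (V h / 2) * φ x h)) *
            (χ n h * (Real.exp (V h / 2) * φ y h))) * Real.exp (- V h) =
        ((∑ x, ∑ y, (χ n h * av V y (φ x) h + pd y (χ n) h * φ x h) ^ 2) +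
        ∑ x, ∑ y, pd y (pd x V) h * (χ n h * φ x h) * (χ n h * φ y h))
      have hE : Real.exp (V h / 2) * Real.exp (V h / 2) * Real.exp (- V h) = 1 := by
        rw [← Real.exp_add, ← Real.exp_add, show V h / 2 + V h / 2 + - V h = 0 by ring,
          Real.exp_zero]
      have hp : ∀ x y, pd y (fun h => χ n h * (Real.exp (V h / 2) * φ x h)) h =
          Real.exp (V h / 2) * (χ n h * av V y (φ x) h + pd y (χ n) h * φ x h) := by
        intro x y
        rw [pd_prod (h1 n).1 (hes x) y h, pd_exp hV.temp (φ x) y h]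
        ring
      rw [add_mul, Finset.sum_mul, Finset.sum_mul]
      congr 1
      · refine Finset.sum_congr rfl fun x _ => ?_
        rw [Finset.sum_mul]
        refine Finset.sum_congr rfl fun y _ => ?_
        rw [hp x y]
        calc Real.exp (V h / 2) * (χ n h * av V y (φ x) h + pd y (χ n) h * φ x h) *
              (Real.exp (V h / 2) * (χ n h * av V y (φ x) h + pd y (χ n) h * φ x h)) *
              Real.exp (- V h)
            = (Real.exp (V h / 2) * Real.exp (V h / 2) * Real.exp (- V h)) *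
              (χ n h * av V y (φ x) h + pd y (χ n) h * φ x h) ^ 2 := by ring
          _ = _ := by rw [hE, one_mul]
      · refine Finset.sum_congr rfl fun x _ => ?_
        rw [Finset.sum_mul]
        refine Finset.sum_congr rfl fun y _ => ?_
        calc pd y (pd x V) h * (χ n h * (Real.exp (V h / 2) * φ x h)) *
              (χ n h * (Real.exp (V h / 2) * φ y h)) * Real.exp (- V h)
            = (Real.exp (V h / 2) * Real.exp (V h / 2) * Real.exp (- V h)) *
              (pd y (pd x V) h * (χ n h * φ x h) * (χ n h * φ y h)) := by ring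
          _ = _ := by rw [hE, one_mul]
    rw [e2]
    exact a2.le

/- END mbc -/

/- MODULE mbd
`near_sz` and `cut_sz` together, divided by `Iv V 1 > 0`. -/
theorem near {V : (ι → ℝ) → ℝ} (hV : Pot V) {G : (ι → ℝ) → ℝ} {C : ℝ} (hG : Hgf.Fok G C)
    {η : ℝ} (hη : 0 < η) :
    ∃ w : ι → (ι → ℝ) → ℝ, (∀ x, CS (w x)) ∧ Cv V G G - η ≤ Jv V G w := by
  have hI := Iv_one_pos hV
  set η' : ℝ := η * Iv V (fun _ => 1) / 6 with hη'
  have hη'0 : 0 < η' := by positivity
  obtain ⟨φ, h1, h2⟩ := near_sz hV hG hη'0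
  obtain ⟨w, hw, h3, h4⟩ := cut_sz hV hG.temp φ hη'0
  refine ⟨w, hw, ?_⟩
  have pG : PG G := PG.of_temp hG.temp
  rw [Cv_self hV pG]
  unfold Jv Eb
  unfold Ev at h1 h2 ⊢
  have a3 := abs_le.1 h3
  have a4 := abs_le.1 h4
  set I1 := Iv V (fun _ => 1) with hI1
  have key : Iv V (fun h => (G h - Iv V G / I1) ^ 2) - η * I1 ≤
      2 * Iv V (fun h => ∑ x, pd x G h * w x h) -
        Iv V (fun h => (∑ x, ∑ y, pd y (w x) h * pd y (w x) h) +
          ∑ x, ∑ y, pd y (pd x V) h * w x h * w y h) := by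
    have : η * I1 = 6 * η' := by rw [hη']; ring
    rw [this]
    linarith [a3.1, a3.2, a4.1, a4.2]
  rw [← mul_div_assoc, ← sub_div, sub_le_iff_le_add, ← sub_le_iff_le_add']
  have h5 : Iv V (fun h => (G h - Iv V G / I1) ^ 2) / I1 - η ≤
      (2 * Iv V (fun h => ∑ x, pd x G h * w x h) -
        Iv V (fun h => (∑ x, ∑ y, pd y (w x) h * pd y (w x) h) +
          ∑ x, ∑ y, pd y (pd x V) h * w x h * w y h)) / I1 := by
    rw [le_div_iff₀ hI, sub_mul, div_mul_cancel₀ _ hI.ne']
    exact key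
  linarith

/- END mbd -/

/- MODULE mbe
A smooth truncation: `T r = ∫_0^r χ` with a smooth `0 ≤ χ ≤ 1`, `χ = 1` on `[-1, 1]`, `χ = 0` off
`[-2, 2]` (`ContDiffBump` on `ℝ`, centre `0`, radii `1 < 2`). -/
theorem exists_trunc : ∃ T : ℝ → ℝ, ContDiff ℝ ∞ T ∧ (∀ r, |r| ≤ 1 → T r = r) ∧
    (∀ r, |T r| ≤ 2) ∧ (∀ r r', |T r - T r'| ≤ |r - r'|) ∧ ∀ r, |deriv T r| ≤ 1 := by
  let f : ContDiffBump (0 : ℝ) := ⟨1, 2, one_pos, one_lt_two⟩
  have hfc : Continuous f := f.continuous
  have hfi : ∀ a b : ℝ, IntervalIntegrable f volume a b := fun a b => hfc.intervalIntegrable a b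
  set T : ℝ → ℝ := fun r => ∫ t in (0 : ℝ)..r, f t with hT
  have hd : ∀ r, HasDerivAt T (f r) r := fun r =>
    intervalIntegral.integral_hasDerivAt_right (hfi 0 r)
      hfc.aestronglyMeasurable.stronglyMeasurableAtFilter hfc.continuousAt
  have hderiv : deriv T = f := funext fun r => (hd r).deriv
  have hsub : ∀ r r', T r - T r' = ∫ t in r'..r, f t := fun r r' =>
    intervalIntegral.integral_interval_sub_left (hfi 0 r) (hfi 0 r')
  have hlip : ∀ r r', |T r - T r'| ≤ |r - r'| := by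
    intro r r'
    rw [hsub]
    have := intervalIntegral.norm_integral_le_of_norm_le_const (a := r') (b := r) (C := 1)
      (f := f) (fun t _ => by
        rw [Real.norm_eq_abs, abs_of_nonneg f.nonneg]; exact f.le_one)
    rwa [one_mul, Real.norm_eq_abs] at this
  refine ⟨T, ?_, ?_, ?_, hlip, ?_⟩
  · rw [show (∞ : WithTop ℕ∞) = ((⊤ : ℕ∞) : WithTop ℕ∞) from rfl, contDiff_infty_iff_deriv, hderiv]
    exact ⟨fun r => (hd r).differentiableAt, f.contDiff⟩
  · intro r hr
    have h1 : ∫ t in (0 : ℝ)..r, f t = ∫ t in (0 : ℝ)..r, (1 : ℝ) := by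
      refine intervalIntegral.integral_congr fun t ht => ?_
      refine f.one_of_mem_closedBall ?_
      rw [Metric.mem_closedBall, dist_zero_right, Real.norm_eq_abs]
      have h2 := Set.abs_sub_left_of_mem_uIcc ht
      simp only [sub_zero] at h2
      exact h2.trans hr
    show (∫ t in (0 : ℝ)..r, f t) = r
    rw [h1]
    simp
  · intro r
    have hz : ∀ t : ℝ, 2 ≤ |t| → f t = 0 := by
      intro t ht
      refine f.zero_of_le_dist ?_
      rw [dist_zero_right, Real.norm_eq_abs]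
      exact ht
    have hT0 : T 0 = 0 := by simp [hT]
    have hbd : ∀ r, |r| ≤ 2 → |T r| ≤ 2 := by
      intro r hr
      have := hlip r 0
      rw [hT0, sub_zero, sub_zero] at this
      exact this.trans hr
    rcases le_total r (-2) with h | h
    · have h2 : T r = T (-2) := by
        have h3 := hsub (-2) r
        have h4 : ∫ t in r..(-2 : ℝ), f t = ∫ t in r..(-2 : ℝ), (0 : ℝ) := by
          refine intervalIntegral.integral_congr fun t ht => hz t ?_
          rw [Set.uIcc_of_le h] at ht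
          rw [abs_of_nonpos (by linarith [ht.2])]
          linarith [ht.2]
        rw [h4] at h3
        simp at h3
        linarith
      rw [h2]
      exact hbd _ (by norm_num)
    · rcases le_total r 2 with h' | h'
      · exact hbd r (abs_le.2 ⟨h, h'⟩)
      · have h2 : T r = T 2 := by
          have h3 := hsub r 2
          have h4 : ∫ t in (2 : ℝ)..r, f t = ∫ t in (2 : ℝ)..r, (0 : ℝ) := by
            refine intervalIntegral.integral_congr fun t ht => hz t ?_
            rw [Set.uIcc_of_le h'] at ht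
            rw [abs_of_nonneg (by linarith [ht.1])]
            exact ht.1
          rw [h4] at h3
          simp at h3
          linarith
        rw [h2]
        exact hbd _ (by norm_num)
  · intro r
    rw [hderiv, abs_of_nonneg f.nonneg]
    exact f.le_one

/- END mbe -/

end Pool.Agent.Hmk.Mn
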