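import Pool.Agent.Hmk.MnDef

/-!
# Hmk, second part: integration by parts for compactly supported fields (helper70)
-/

set_option autoImplicit false

open MeasureTheory Set Filter

open scoped ENNReal SchwartzMap ContDiff Topology

noncomputable section

namespace Pool.Agent.Hmk.Mn

variable {ι : Type*} [Fintype ι] [DecidableEq ι]

/- MODULE maa
Functions of polynomial growth are integrable against `e^{-V}` (library `exp_int` with `r = 1`, all
`k`), and the normalisation is positive. -/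
theorem PG.int {V : (ι → ℝ) → ℝ} (hV : Pot V) {G : (ι → ℝ) → ℝ} (hG : PG G) :
    Integrable (fun h => G h * Real.exp (- V h)) := by
  obtain ⟨hm, C, k, hC⟩ := hG
  obtain ⟨a, A, ha, hlow⟩ := hV.low
  have hVc : Continuous V := hV.temp.1.continuous
  have h0 := exp_int hVc ha hlow 0 (r := 1) one_pos
  have hk := exp_int hVc ha hlow k (r := 1) one_pos
  refine ((h0.add hk).const_mul (|C| * 2 ^ k)).mono' ?_ (ae_of_all _ fun h => ?_)
  · exact (hm.mul (Real.measurable_exp.comp hVc.measurable.neg)).aestronglyMeasurable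
  · have e1 : Real.exp (-1 * V h) = Real.exp (- V h) := by
      congr 1
      ring
    have e2 : ‖G h * Real.exp (- V h)‖ = |G h| * Real.exp (- V h) := by
      rw [norm_mul, Real.norm_eq_abs, Real.norm_of_nonneg (Real.exp_nonneg _)]
    rw [e2]
    simp only [Pi.add_apply, pow_zero, e1]
    have h1 : (1 + ‖h‖) ^ k ≤ 2 ^ k * (1 + ‖h‖ ^ k) := by
      have h2 := add_pow_le (zero_le_one (α := ℝ)) (norm_nonneg h) k
      rw [one_pow] at h2
      have h3 : (2 : ℝ) ^ (k - 1) ≤ 2 ^ k := pow_le_pow_right₀ (by norm_num) (Nat.sub_le k 1)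
      exact h2.trans (mul_le_mul_of_nonneg_right h3 (by positivity))
    have h4 : |G h| ≤ |C| * (2 ^ k * (1 + ‖h‖ ^ k)) := by
      refine (hC h).trans ?_
      refine (mul_le_mul_of_nonneg_right (le_abs_self C) (by positivity)).trans ?_
      exact mul_le_mul_of_nonneg_left h1 (abs_nonneg C)
    calc |G h| * Real.exp (- V h) ≤ |C| * (2 ^ k * (1 + ‖h‖ ^ k)) * Real.exp (- V h) :=
          mul_le_mul_of_nonneg_right h4 (Real.exp_nonneg _)
      _ = |C| * 2 ^ k * (1 * Real.exp (- V h) + ‖h‖ ^ k * Real.exp (- V h)) := by ring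

omit [DecidableEq ι] in
theorem PG.mul {F G : (ι → ℝ) → ℝ} (hF : PG F) (hG : PG G) : PG (fun h => F h * G h) := by
  obtain ⟨hm, C, k, hC⟩ := hF
  obtain ⟨hm', C', k', hC'⟩ := hG
  refine ⟨hm.mul hm', C * C', k + k', fun h => ?_⟩
  rw [abs_mul]
  calc |F h| * |G h| ≤ (C * (1 + ‖h‖) ^ k) * (C' * (1 + ‖h‖) ^ k') :=
        mul_le_mul (hC h) (hC' h) (abs_nonneg _) (le_trans (abs_nonneg _) (hC h))
    _ = C * C' * (1 + ‖h‖) ^ (k + k') := by rw [pow_add]; ring

omit [DecidableEq ι] in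
theorem PG.add {F G : (ι → ℝ) → ℝ} (hF : PG F) (hG : PG G) : PG (fun h => F h + G h) := by
  obtain ⟨hm, C, k, hC⟩ := hF
  obtain ⟨hm', C', k', hC'⟩ := hG
  refine ⟨hm.add hm', |C| + |C'|, k + k', fun h => ?_⟩
  have h1 : (1 : ℝ) ≤ 1 + ‖h‖ := by linarith [norm_nonneg h]
  have h2 : (1 + ‖h‖) ^ k ≤ (1 + ‖h‖) ^ (k + k') := pow_le_pow_right₀ h1 (Nat.le_add_right _ _)
  have h3 : (1 + ‖h‖) ^ k' ≤ (1 + ‖h‖) ^ (k + k') := pow_le_pow_right₀ h1 (Nat.le_add_left _ _)
  have h4 : |F h| ≤ |C| * (1 + ‖h‖) ^ (k + k') := by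
    refine (hC h).trans ?_
    refine (mul_le_mul_of_nonneg_right (le_abs_self C) (by positivity)).trans ?_
    exact mul_le_mul_of_nonneg_left h2 (abs_nonneg C)
  have h5 : |G h| ≤ |C'| * (1 + ‖h‖) ^ (k + k') := by
    refine (hC' h).trans ?_
    refine (mul_le_mul_of_nonneg_right (le_abs_self C') (by positivity)).trans ?_
    exact mul_le_mul_of_nonneg_left h3 (abs_nonneg C')
  calc |F h + G h| ≤ |F h| + |G h| := abs_add_le _ _
    _ ≤ |C| * (1 + ‖h‖) ^ (k + k') + |C'| * (1 + ‖h‖) ^ (k + k') := add_le_add h4 h5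
    _ = (|C| + |C'|) * (1 + ‖h‖) ^ (k + k') := by ring

omit [DecidableEq ι] in
theorem PG.const (c : ℝ) : PG (fun _ : ι → ℝ => c) := by
  refine ⟨measurable_const, |c|, 0, fun h => ?_⟩
  simp

omit [DecidableEq ι] in
theorem PG.neg {F : (ι → ℝ) → ℝ} (hF : PG F) : PG (fun h => - F h) := by
  obtain ⟨hm, C, k, hC⟩ := hF
  refine ⟨hm.neg, C, k, fun h => ?_⟩
  rw [abs_neg]
  exact hC h

omit [DecidableEq ι] in
theorem PG.sum {κ : Type*} (S : Finset κ) {F : κ → (ι → ℝ) → ℝ} (hF : ∀ k ∈ S, PG (F k)) :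
    PG (fun h => ∑ k ∈ S, F k h) := by
  classical
  induction S using Finset.induction_on with
  | empty =>
    have h1 : (fun h => ∑ k ∈ (∅ : Finset κ), F k h) = fun _ : ι → ℝ => (0 : ℝ) := by
      funext h
      simp
    rw [h1]
    exact PG.const 0
  | insert a S ha ih =>
    have h1 : (fun h => ∑ k ∈ insert a S, F k h) = fun h => F a h + ∑ k ∈ S, F k h := by
      funext h
      rw [Finset.sum_insert ha]
    rw [h1]
    exact (hF a (Finset.mem_insert_self a S)).add
      (ih fun k hk => hF k (Finset.mem_insert_of_mem hk))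

omit [DecidableEq ι] in
theorem PG.of_temp {F : (ι → ℝ) → ℝ} (hF : F.HasTemperateGrowth) : PG F := by
  obtain ⟨k, C, hC⟩ := hF.2 0
  refine ⟨hF.1.continuous.measurable, C, k, fun h => ?_⟩
  have h1 := hC h
  rw [norm_iteratedFDeriv_zero, Real.norm_eq_abs] at h1
  exact h1

omit [DecidableEq ι] in
theorem PG.of_bdd {F : (ι → ℝ) → ℝ} (hF : Measurable F) {C : ℝ} (hC : ∀ h, |F h| ≤ C) : PG F := by
  refine ⟨hF, C, 0, fun h => ?_⟩
  rw [pow_zero, mul_one]
  exact hC h

omit [DecidableEq ι] in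
theorem PG.coord (x : ι) : PG (fun h : ι → ℝ => h x) := by
  refine ⟨measurable_pi_apply x, 1, 1, fun h => ?_⟩
  have h1 : |h x| ≤ ‖h‖ := norm_le_pi_norm h x
  rw [pow_one, one_mul]
  linarith

omit [DecidableEq ι] in
theorem PG.of_CS {F : (ι → ℝ) → ℝ} (hF : CS F) : PG F := by
  obtain ⟨C, hC⟩ := hF.2.exists_bound_of_continuous hF.1.continuous
  exact PG.of_bdd hF.1.continuous.measurable (C := C) fun h => hC h

theorem BS.pg {F : (ι → ℝ) → ℝ} (hF : BS F) : PG F := by
  obtain ⟨C, hC⟩ := hF.bd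
  exact PG.of_bdd hF.sm.continuous.measurable hC

theorem Iv_one_pos {V : (ι → ℝ) → ℝ} (hV : Pot V) : 0 < Iv V (fun _ => 1) := by
  have h1 := PG.int hV (PG.const (ι := ι) 1)
  simp only [one_mul] at h1
  have h2 := integral_exp_pos h1
  unfold Iv
  simpa only [one_mul] using h2

/- END maa -/

/- MODULE mab
Linearity and positivity of the expectation; Cauchy-Schwarz. -/
theorem Ev_add {V : (ι → ℝ) → ℝ} (hV : Pot V) {F G : (ι → ℝ) → ℝ} (hF : PG F) (hG : PG G) :
    Ev V (fun h => F h + G h) = Ev V F + Ev V G := by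
  unfold Ev Iv
  rw [← add_div, ← integral_add (hF.int hV) (hG.int hV)]
  simp only [add_mul]

theorem Ev_sub {V : (ι → ℝ) → ℝ} (hV : Pot V) {F G : (ι → ℝ) → ℝ} (hF : PG F) (hG : PG G) :
    Ev V (fun h => F h - G h) = Ev V F - Ev V G := by
  unfold Ev Iv
  rw [← sub_div, ← integral_sub (hF.int hV) (hG.int hV)]
  simp only [sub_mul]

theorem Ev_mul (V : (ι → ℝ) → ℝ) (c : ℝ) (F : (ι → ℝ) → ℝ) :
    Ev V (fun h => c * F h) = c * Ev V F := by
  unfold Ev Iv
  simp only [mul_assoc]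
  rw [integral_const_mul, mul_div_assoc]

theorem Ev_const {V : (ι → ℝ) → ℝ} (hV : Pot V) (c : ℝ) : Ev V (fun _ => c) = c := by
  have h1 := Iv_one_pos hV
  have h2 : Iv V (fun _ => c) = c * Iv V (fun _ => 1) := by
    unfold Iv
    simp only [one_mul]
    rw [integral_const_mul]
  unfold Ev
  rw [h2, mul_div_assoc, div_self h1.ne', mul_one]

theorem Ev_sum {V : (ι → ℝ) → ℝ} (hV : Pot V) {κ : Type*} (S : Finset κ) {F : κ → (ι → ℝ) → ℝ}
    (hF : ∀ k ∈ S, PG (F k)) : Ev V (fun h => ∑ k ∈ S, F k h) = ∑ k ∈ S, Ev V (F k) := by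
  unfold Ev Iv
  rw [← Finset.sum_div, ← integral_finset_sum S (fun k hk => (hF k hk).int hV)]
  simp only [Finset.sum_mul]

theorem Ev_mono {V : (ι → ℝ) → ℝ} (hV : Pot V) {F G : (ι → ℝ) → ℝ} (hF : PG F) (hG : PG G)
    (H : ∀ h, F h ≤ G h) : Ev V F ≤ Ev V G := by
  unfold Ev
  refine div_le_div_of_nonneg_right ?_ (Iv_one_pos hV).le
  unfold Iv
  exact integral_mono (hF.int hV) (hG.int hV)
    (fun h => mul_le_mul_of_nonneg_right (H h) (Real.exp_pos _).le)

theorem Ev_abs {V : (ι → ℝ) → ℝ} (hV : Pot V) {F : (ι → ℝ) → ℝ} (hF : PG F) :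
    |Ev V F| ≤ Ev V (fun h => |F h|) := by
  unfold Ev
  rw [abs_div, abs_of_pos (Iv_one_pos hV)]
  refine div_le_div_of_nonneg_right ?_ (Iv_one_pos hV).le
  unfold Iv
  refine abs_integral_le_integral_abs.trans (le_of_eq ?_)
  simp only [abs_mul, abs_of_pos (Real.exp_pos _)]

theorem Ev_cs {V : (ι → ℝ) → ℝ} (hV : Pot V) {F G : (ι → ℝ) → ℝ} (hF : PG F) (hG : PG G) :
    |Ev V (fun h => F h * G h)| ≤
      Real.sqrt (Ev V (fun h => F h ^ 2)) * Real.sqrt (Ev V (fun h => G h ^ 2)) := by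
  have hF2 : PG (fun h => F h ^ 2) := by
    have := hF.mul hF
    simpa only [sq] using this
  have hG2 : PG (fun h => G h ^ 2) := by
    have := hG.mul hG
    simpa only [sq] using this
  have hFG := hF.mul hG
  have z := PG.const (ι := ι) 0
  have nF : 0 ≤ Ev V (fun h => F h ^ 2) := by
    have := Ev_mono hV z hF2 (fun h => sq_nonneg _)
    rwa [Ev_const hV] at this
  have nG : 0 ≤ Ev V (fun h => G h ^ 2) := by
    have := Ev_mono hV z hG2 (fun h => sq_nonneg _)
    rwa [Ev_const hV] at this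
  have key : ∀ t : ℝ, 0 ≤ Ev V (fun h => F h ^ 2) * (t * t) +
      (2 * Ev V (fun h => F h * G h)) * t + Ev V (fun h => G h ^ 2) := by
    intro t
    have p1 : PG (fun h => t ^ 2 * F h ^ 2) := (PG.const (t ^ 2)).mul hF2
    have p2 : PG (fun h => (2 * t) * (F h * G h)) := (PG.const (2 * t)).mul hFG
    have e1 : Ev V (fun h => t ^ 2 * F h ^ 2 + (2 * t) * (F h * G h) + G h ^ 2) =
        t ^ 2 * Ev V (fun h => F h ^ 2) + (2 * t) * Ev V (fun h => F h * G h) +
          Ev V (fun h => G h ^ 2) := by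
      rw [Ev_add hV (p1.add p2) hG2, Ev_add hV p1 p2, Ev_mul, Ev_mul]
    have e2 := Ev_mono hV z ((p1.add p2).add hG2) (fun h => by
      show (0 : ℝ) ≤ t ^ 2 * F h ^ 2 + (2 * t) * (F h * G h) + G h ^ 2
      nlinarith [sq_nonneg (t * F h + G h)])
    rw [Ev_const hV] at e2
    rw [e1] at e2
    linarith
  have h2 := discrim_le_zero key
  unfold discrim at h2
  rw [← Real.sqrt_mul nF]
  refine Real.abs_le_sqrt ?_
  linarith

theorem Cv_self {V : (ι → ℝ) → ℝ} (hV : Pot V) {F : (ι → ℝ) → ℝ} (hF : PG F) :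
    Cv V F F = Ev V (fun h => (F h - Ev V F) ^ 2) := by
  set m := Ev V F with hm
  have p0 := hF.mul hF
  have p1 : PG (fun h => (- (2 * m)) * F h) := (PG.const (- (2 * m))).mul hF
  have p2 := PG.const (ι := ι) (m ^ 2)
  have e1 : (fun h => (F h - m) ^ 2) = fun h => F h * F h + (- (2 * m)) * F h + m ^ 2 := by
    funext h; ring
  rw [e1, Ev_add hV (p0.add p1) p2, Ev_add hV p0 p1, Ev_mul, Ev_const hV]
  unfold Cv
  rw [← hm]
  ring

/- END mab -/

/- MODULE mac
Products of smooth compactly supported functions; their partial derivatives. -/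
theorem CS.pd {f : (ι → ℝ) → ℝ} (hf : CS f) (x : ι) : CS (Hmk.pd x f) := by
  refine ⟨?_, ?_⟩
  · unfold Hmk.pd
    exact (hf.1.fderiv_right (m := ∞) (by simp)).clm_apply contDiff_const
  · exact hf.2.fderiv_apply ℝ (Pi.single x 1)

omit [DecidableEq ι] in
theorem CS.mul_left {f g : (ι → ℝ) → ℝ} (hf : CS f) (hg : ContDiff ℝ ∞ g) :
    CS (fun h => g h * f h) := by
  exact ⟨hg.mul hf.1, hf.2.mul_left⟩

omit [DecidableEq ι] in
theorem CS.add {f g : (ι → ℝ) → ℝ} (hf : CS f) (hg : CS g) : CS (fun h => f h + g h) := by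
  exact ⟨hf.1.add hg.1, hf.2.add hg.2⟩

omit [DecidableEq ι] in
theorem CS.smul {f : (ι → ℝ) → ℝ} (hf : CS f) (c : ℝ) : CS (fun h => c * f h) := by
  exact hf.mul_left contDiff_const

theorem cd_pd {f : (ι → ℝ) → ℝ} (hf : ContDiff ℝ ∞ f) (x : ι) : ContDiff ℝ ∞ (Hmk.pd x f) := by
  unfold Hmk.pd
  exact (hf.fderiv_right (m := ∞) (by simp)).clm_apply contDiff_const

theorem pd_prod {f g : (ι → ℝ) → ℝ} (hf : ContDiff ℝ ∞ f) (hg : ContDiff ℝ ∞ g) (x : ι)
    (h : ι → ℝ) :
    Hmk.pd x (fun k => f k * g k) h = Hmk.pd x f h * g h + f h * Hmk.pd x g h := by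
  exact pd_mul (hf.differentiable (by simp) h) (hg.differentiable (by simp) h) x

/- END mac -/

/- MODULE mad
One coordinate, `G` only measurable: `∫ G (V_x f - f_x) e^{-V} = - ∫ G d_x (f e^{-V}) = 0` if `G`
does not depend on the coordinate `x` (Fubini: integrate first in the coordinate `x`;
`MeasureTheory.integral_fintype_prod...` or the measure preserving splitting
`MeasurableEquiv.piEquivPiSubtypeProd` / `Function.update`; in one dimension the integral of the
derivative of a compactly supported `C^1` function is zero). -/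
private theorem mad_upd (x : ι) (h : ι → ℝ) (t : ℝ) :
    h + t • (Pi.single x (1 : ℝ) : ι → ℝ) = Function.update h x (h x + t) := by
  funext y
  by_cases hy : y = x
  · subst hy
    simp
  · simp [hy]

private theorem mad_zero {G u : (ι → ℝ) → ℝ} (hG : Measurable G)
    {M : ℝ} (hM : ∀ h, |G h| ≤ M) (x : ι)
    (hx : ∀ (h : ι → ℝ) (r : ℝ), G (Function.update h x r) = G h) (hu : CS u) :
    ∫ h, G h * Hmk.pd x u h = 0 := by
  obtain ⟨C, hC⟩ := (CS.pd hu x).2.exists_bound_of_continuous (CS.pd hu x).1.continuous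
  have hM0 : 0 ≤ M := (abs_nonneg _).trans (hM 0)
  have hC0 : 0 ≤ C := (norm_nonneg _).trans (hC 0)
  obtain ⟨R, hR⟩ := (CS.pd hu x).2.isBounded.subset_closedBall (0 : ι → ℝ)
  set e : ι → ℝ := Pi.single x (1 : ℝ) with he
  have hinv : ∀ t : ℝ, ∫ h, G h * u (h + t • e) = ∫ h, G h * u h := by
    intro t
    rw [← integral_add_right_eq_self (μ := volume) (fun h => G h * u h) (t • e)]
    refine integral_congr_ae (Filter.Eventually.of_forall fun h => ?_)
    show G h * u (h + t • e) = G (h + t • e) * u (h + t • e)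
    rw [he, mad_upd, hx]
  have hcu : Continuous u := hu.1.continuous
  have hint : Integrable (fun h => G h * u h) := by
    have h1 : Integrable u := hcu.integrable_of_hasCompactSupport hu.2
    exact h1.bdd_mul hG.aestronglyMeasurable (Filter.Eventually.of_forall hM)
  have hkey := hasDerivAt_integral_of_dominated_loc_of_deriv_le (μ := (volume : Measure (ι → ℝ)))
    (F := fun (t : ℝ) (h : ι → ℝ) => G h * u (h + t • e))
    (F' := fun (t : ℝ) (h : ι → ℝ) => G h * Hmk.pd x u (h + t • e)) (x₀ := (0 : ℝ))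
    (s := Metric.ball (0 : ℝ) 1)
    (bound := fun h => (Metric.closedBall (0 : ι → ℝ) (R + 1)).indicator (fun _ => M * C) h)
    (Metric.ball_mem_nhds _ one_pos)
    (Filter.Eventually.of_forall fun t => (hG.mul
      (hcu.measurable.comp (measurable_add_const (t • e)))).aestronglyMeasurable)
    (by simpa using hint)
    ((hG.mul ((CS.pd hu x).1.continuous.measurable.comp
      (measurable_add_const ((0 : ℝ) • e)))).aestronglyMeasurable)
    (Filter.Eventually.of_forall fun h t ht => ?_)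
    ((integrable_indicator_iff Metric.isClosed_closedBall.measurableSet).2
      (integrableOn_const (hs := (isCompact_closedBall _ _).measure_lt_top.ne)))
    (Filter.Eventually.of_forall fun h t ht => ?_)
  · have h2 := hkey.2
    have h3 : (fun t : ℝ => ∫ h, G h * u (h + t • e)) = fun _ => ∫ h, G h * u h :=
      funext hinv
    rw [h3] at h2
    have h4 := h2.unique (hasDerivAt_const (0 : ℝ) (∫ h, G h * u h))
    simpa using h4
  · show ‖G h * Hmk.pd x u (h + t • e)‖ ≤ _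
    by_cases hh : h ∈ Metric.closedBall (0 : ι → ℝ) (R + 1)
    · rw [Set.indicator_of_mem hh, norm_mul]
      exact mul_le_mul (hM h) (hC _) (norm_nonneg _) hM0
    · rw [Set.indicator_of_notMem hh]
      have h5 : h + t • e ∉ tsupport (Hmk.pd x u) := by
        intro h6
        have h7 := hR h6
        rw [mem_closedBall_zero_iff] at h7
        apply hh
        rw [mem_closedBall_zero_iff]
        have h8 : ‖t • e‖ ≤ 1 := by
          rw [norm_smul, he, Pi.norm_single]
          have : |t| < 1 := by simpa [Real.dist_eq] using ht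
          simp only [Real.norm_eq_abs, abs_one, mul_one]
          exact this.le
        calc ‖h‖ = ‖(h + t • e) - t • e‖ := by rw [add_sub_cancel_right]
          _ ≤ ‖h + t • e‖ + ‖t • e‖ := norm_sub_le _ _
          _ ≤ R + 1 := add_le_add h7 h8
      rw [image_eq_zero_of_notMem_tsupport h5]
      simp
  · have h9 : HasDerivAt (fun t : ℝ => h + t • e) e t := by
      have := ((hasDerivAt_id t).smul_const e).const_add h
      simpa using this
    have h10 : HasFDerivAt u (fderiv ℝ u (h + t • e)) (h + t • e) :=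
      (hu.1.differentiable (by simp) _).hasFDerivAt
    have h11 := h10.comp_hasDerivAt t h9
    exact h11.const_mul (G h)

theorem dstar_zero {V : (ι → ℝ) → ℝ} (hV : ContDiff ℝ ∞ V) {G f : (ι → ℝ) → ℝ} (hG : Measurable G)
    {M : ℝ} (hM : ∀ h, |G h| ≤ M) (x : ι)
    (hx : ∀ (h : ι → ℝ) (r : ℝ), G (Function.update h x r) = G h) (hf : CS f) :
    Iv V (fun h => G h * (pd x V h * f h - pd x f h)) = 0 := by
  have he : ContDiff ℝ ∞ (fun h => Real.exp (- V h)) := Real.contDiff_exp.comp hV.neg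
  have hu : CS (fun h => Real.exp (- V h) * f h) := hf.mul_left he
  have h1 := mad_zero hG hM x hx hu
  unfold Iv
  have h2 : (fun h => G h * (pd x V h * f h - pd x f h) * Real.exp (- V h)) =
      fun h => - (G h * Hmk.pd x (fun h => Real.exp (- V h) * f h) h) := by
    funext h
    rw [pd_prod he hf.1 x h]
    have h3 : Hmk.pd x (fun h => Real.exp (- V h)) h = - (Real.exp (- V h) * pd x V h) := by
      unfold Hmk.pd
      have h4 : HasFDerivAt V (fderiv ℝ V h) h := (hV.differentiable (by simp) h).hasFDerivAt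
      have h5 := (h4.fun_neg).exp
      rw [h5.fderiv]
      simp
    rw [h3]
    ring
  rw [h2, integral_neg, h1, neg_zero]

/- END mad -/

/- MODULE mae
Integration by parts: `∫ g (V_x f - f_x) e^{-V} = ∫ g_x f e^{-V}` for `g` smooth, `f` smooth with
compact support (`∫ d_x (g f e^{-V}) = 0`). -/
private theorem mae_pdc {f : (ι → ℝ) → ℝ} (hf : ContDiff ℝ ∞ f) (x : ι) :
    Continuous (pd x f) :=
  (hf.continuous_fderiv (by simp)).clm_apply continuous_const

omit [DecidableEq ι] in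
private theorem mae_int {f : (ι → ℝ) → ℝ} (hf : Continuous f) (hs : HasCompactSupport f)
    {k : (ι → ℝ) → ℝ} (hk : Continuous k) :
    Integrable (fun h => k h * f h) :=
  (hk.mul hf).integrable_of_hasCompactSupport hs.mul_left

private theorem mae_pds {f : (ι → ℝ) → ℝ} (hf : HasCompactSupport f) (x : ι) :
    HasCompactSupport (pd x f) := by
  refine (hf.fderiv (𝕜 := ℝ)).mono fun h hh => ?_
  rw [Function.mem_support] at hh ⊢
  intro h0
  apply hh
  unfold pd
  rw [h0]
  rfl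

theorem ibp_one {V : (ι → ℝ) → ℝ} (hV : ContDiff ℝ ∞ V) {g f : (ι → ℝ) → ℝ}
    (hg : ContDiff ℝ ∞ g) (hf : CS f) (x : ι) :
    Iv V (fun h => g h * (pd x V h * f h - pd x f h)) = Iv V (fun h => pd x g h * f h) := by
  have hE : ContDiff ℝ ∞ (fun h => Real.exp (- V h)) := hV.neg.exp
  have hu : ContDiff ℝ ∞ (fun h => g h * Real.exp (- V h)) := hg.mul hE
  have hpE : ∀ h, pd x (fun k => Real.exp (- V k)) h = - (pd x V h * Real.exp (- V h)) := by
    intro h
    have h1 : HasFDerivAt V (fderiv ℝ V h) h := ((hV.differentiable (by simp)) h).hasFDerivAt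
    have h2 := h1.fun_neg.exp
    unfold pd
    rw [h2.fderiv]
    simp only [FunLike.coe_smul, Pi.smul_apply, smul_eq_mul, _root_.neg_apply]
    ring
  have hpu : ∀ h, pd x (fun k => g k * Real.exp (- V k)) h =
      pd x g h * Real.exp (- V h) - g h * (pd x V h * Real.exp (- V h)) := by
    intro h
    rw [pd_mul ((hg.differentiable (by simp)) h) ((hE.differentiable (by simp)) h), hpE]
    ring
  have hfc := hf.1.continuous
  have hVc := hV.continuous
  have hgc := hg.continuous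
  have hEc := hE.continuous
  have i1 : Integrable (fun h => pd x f h * (g h * Real.exp (- V h))) := by
    have := mae_int (mae_pdc hf.1 x) (mae_pds hf.2 x) (hgc.mul hEc)
    refine this.congr (ae_of_all _ fun h => ?_)
    simp only [Pi.mul_apply]
    ring
  have i2 : Integrable (fun h => f h * pd x (fun k => g k * Real.exp (- V k)) h) := by
    have := mae_int hfc hf.2 (mae_pdc hu x)
    refine this.congr (ae_of_all _ fun h => ?_)
    simp only [Pi.mul_apply]
    ring
  have i3 : Integrable (fun h => f h * (g h * Real.exp (- V h))) := by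
    have := mae_int hfc hf.2 (hgc.mul hEc)
    refine this.congr (ae_of_all _ fun h => ?_)
    simp only [Pi.mul_apply]
    ring
  have key := integral_mul_fderiv_eq_neg_fderiv_mul_of_integrable (μ := (volume : Measure (ι → ℝ)))
    (v := (Pi.single x (1 : ℝ) : ι → ℝ)) i1 i2 i3
    (fun y _ => (hf.1.differentiable (by simp)) y) (fun y _ => (hu.differentiable (by simp)) y)
  have j1 : Integrable (fun h => pd x g h * f h * Real.exp (- V h)) := by
    have := mae_int hfc hf.2 ((mae_pdc hg x).mul hEc)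
    refine this.congr (ae_of_all _ fun h => ?_)
    simp only [Pi.mul_apply]
    ring
  have j2 : Integrable (fun h => g h * (pd x V h * f h - pd x f h) * Real.exp (- V h)) := by
    have a1 := mae_int hfc hf.2 ((hgc.mul (mae_pdc hV x)).mul hEc)
    have a2 := mae_int (mae_pdc hf.1 x) (mae_pds hf.2 x) (hgc.mul hEc)
    refine (a1.sub a2).congr (ae_of_all _ fun h => ?_)
    simp only [Pi.sub_apply, Pi.mul_apply]
    ring
  unfold Iv
  rw [← sub_eq_zero, ← integral_sub j2 j1]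
  have e1 : (fun h => g h * (pd x V h * f h - pd x f h) * Real.exp (- V h) -
      pd x g h * f h * Real.exp (- V h)) =
      fun h => - (f h * pd x (fun k => g k * Real.exp (- V k)) h) -
        pd x f h * (g h * Real.exp (- V h)) := by
    funext h
    rw [hpu h]
    ring
  have i2' : Integrable (fun h => - (f h * pd x (fun k => g k * Real.exp (- V k)) h)) := i2.neg
  rw [e1, integral_sub i2' i1, integral_neg]
  have key' : ∫ h, f h * pd x (fun k => g k * Real.exp (- V k)) h =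
      - ∫ h, pd x f h * (g h * Real.exp (- V h)) := key
  rw [key']
  ring

theorem ibp {V : (ι → ℝ) → ℝ} (hV : Pot V) {g : (ι → ℝ) → ℝ} {w : ι → (ι → ℝ) → ℝ}
    (hg : ContDiff ℝ ∞ g) (hw : ∀ x, CS (w x)) :
    Ev V (fun h => g h * Ds V w h) = Ev V (fun h => ∑ x, pd x g h * w x h) := by
  have hVs : ContDiff ℝ ∞ V := hV.temp.1
  have hEc : Continuous (fun h => Real.exp (- V h)) := hVs.neg.exp.continuous
  unfold Ev
  congr 1
  have e1 : Iv V (fun h => g h * Ds V w h) =
      ∑ x, Iv V (fun h => g h * (pd x V h * w x h - pd x (w x) h)) := by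
    unfold Iv
    rw [← integral_finsetSum]
    · refine integral_congr_ae (ae_of_all _ fun h => ?_)
      simp only [Ds]
      rw [Finset.mul_sum, Finset.sum_mul]
    · intro x _
      have a1 := mae_int (hw x).1.continuous (hw x).2
        ((hg.continuous.mul (mae_pdc hVs x)).mul hEc)
      have a2 := mae_int (mae_pdc (hw x).1 x) (mae_pds (hw x).2 x) (hg.continuous.mul hEc)
      refine (a1.sub a2).congr (ae_of_all _ fun h => ?_)
      simp only [Pi.sub_apply, Pi.mul_apply]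
      ring
  have e2 : Iv V (fun h => ∑ x, pd x g h * w x h) = ∑ x, Iv V (fun h => pd x g h * w x h) := by
    unfold Iv
    rw [← integral_finsetSum]
    · refine integral_congr_ae (ae_of_all _ fun h => ?_)
      simp only
      rw [Finset.sum_mul]
    · intro x _
      have a1 := mae_int (hw x).1.continuous (hw x).2 ((mae_pdc hg x).mul hEc)
      refine a1.congr (ae_of_all _ fun h => ?_)
      simp only [Pi.mul_apply]
      ring
  rw [e1, e2]
  exact Finset.sum_congr rfl fun x _ => ibp_one hVs hg (hw x) x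

/- END mae -/

/- MODULE maf
The commutator identity
`E (D*w)² = E ∑_{x,y} d_y w_x d_x w_y + E ∑ V_xy w_x w_y`:
`E (D*w)² = E ∑_x d_x (D*w) w_x` (`ibp`), `d_x (D*w) = ∑_y (V_xy w_y + V_y d_x w_y - d_x d_y w_y)` and
`E w_x D*(d_x w) = E ∑_y d_y w_x d_x w_y` (`ibp` with `g = w_x` and the field `(d_x w_y)_y`).
Then `E (D*w)² ≤ Eb V w w` by `2 a b ≤ a² + b²`. -/
private theorem maf_cdDs {V : (ι → ℝ) → ℝ} (hV : ContDiff ℝ ∞ V) {w : ι → (ι → ℝ) → ℝ}
    (hw : ∀ x, CS (w x)) : ContDiff ℝ ∞ (Ds V w) := by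
  unfold Ds
  exact ContDiff.sum fun x _ => ((cd_pd hV x).mul (hw x).1).sub (cd_pd (hw x).1 x)

private theorem maf_pd_sum {S : Finset ι} {F : ι → (ι → ℝ) → ℝ} (hF : ∀ y, ContDiff ℝ ∞ (F y))
    (x : ι) (h : ι → ℝ) :
    Hmk.pd x (fun k => ∑ y ∈ S, F y k) h = ∑ y ∈ S, Hmk.pd x (F y) h := by
  unfold Hmk.pd
  rw [fderiv_fun_sum fun y _ => ((hF y).differentiable (by simp)) h]
  simp

private theorem maf_pd_sub {f g : (ι → ℝ) → ℝ} (hf : ContDiff ℝ ∞ f) (hg : ContDiff ℝ ∞ g)
    (x : ι) (h : ι → ℝ) :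
    Hmk.pd x (fun k => f k - g k) h = Hmk.pd x f h - Hmk.pd x g h := by
  unfold Hmk.pd
  rw [fderiv_fun_sub ((hf.differentiable (by simp)) h) ((hg.differentiable (by simp)) h)]
  simp

private theorem maf_pd_Ds {V : (ι → ℝ) → ℝ} (hV : ContDiff ℝ ∞ V) {w : ι → (ι → ℝ) → ℝ}
    (hw : ∀ x, CS (w x)) (x : ι) (h : ι → ℝ) :
    Hmk.pd x (Ds V w) h = (∑ y, Hmk.pd x (Hmk.pd y V) h * w y h) +
      Ds V (fun y => Hmk.pd x (w y)) h := by
  unfold Ds
  rw [maf_pd_sum (F := fun y h => Hmk.pd y V h * w y h - Hmk.pd y (w y) h)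
    (fun y => ((cd_pd hV y).mul (hw y).1).sub (cd_pd (hw y).1 y)) x h, ← Finset.sum_add_distrib]
  refine Finset.sum_congr rfl fun y _ => ?_
  rw [maf_pd_sub ((cd_pd hV y).mul (hw y).1) (cd_pd (hw y).1 y) x h,
    pd_prod (cd_pd hV y) (hw y).1 x h,
    pd_symm (by exact_mod_cast contDiff_infty.1 (hw y).1 2) x y h]
  ring

private theorem maf_pgDs {V : (ι → ℝ) → ℝ} (hV : Pot V) {w : ι → (ι → ℝ) → ℝ}
    (hw : ∀ x, CS (w x)) : PG (Ds V w) := by
  unfold Ds
  refine PG.sum _ fun x _ => ?_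
  have h1 : PG (fun h => Hmk.pd x V h * w x h) := (PG.of_temp (pd_temp hV.temp x)).mul
    (PG.of_CS (hw x))
  have h2 : PG (fun h => - Hmk.pd x (w x) h) := (PG.of_CS ((hw x).pd x)).neg
  simpa only [sub_eq_add_neg] using h1.add h2

private theorem maf_pgH {V : (ι → ℝ) → ℝ} (hV : Pot V) {w : ι → (ι → ℝ) → ℝ}
    (hw : ∀ x, CS (w x)) :
    PG (fun h => ∑ x, ∑ y, Hmk.pd y (Hmk.pd x V) h * w x h * w y h) :=
  PG.sum _ fun x _ => PG.sum _ fun y _ =>
    ((PG.of_temp (pd_temp (pd_temp hV.temp x) y)).mul (PG.of_CS (hw x))).mul (PG.of_CS (hw y))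

private theorem maf_pg1 {w : ι → (ι → ℝ) → ℝ} (hw : ∀ x, CS (w x)) :
    PG (fun h => ∑ x, ∑ y, Hmk.pd y (w x) h * Hmk.pd x (w y) h) :=
  PG.sum _ fun x _ => PG.sum _ fun y _ =>
    (PG.of_CS ((hw x).pd y)).mul (PG.of_CS ((hw y).pd x))

theorem comm {V : (ι → ℝ) → ℝ} (hV : Pot V) {w : ι → (ι → ℝ) → ℝ} (hw : ∀ x, CS (w x)) :
    Ev V (fun h => (Ds V w h) ^ 2) =
      Ev V (fun h => (∑ x, ∑ y, pd y (w x) h * pd x (w y) h) +
        ∑ x, ∑ y, pd y (pd x V) h * w x h * w y h) := by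
  have hVs : ContDiff ℝ ∞ V := hV.temp.1
  have e1 : Ev V (fun h => (Ds V w h) ^ 2) = Ev V (fun h => ∑ x, Hmk.pd x (Ds V w) h * w x h) := by
    rw [← ibp hV (maf_cdDs hVs hw) hw]
    congr 1
    funext h
    ring
  have e2 : (fun h => ∑ x, Hmk.pd x (Ds V w) h * w x h) = fun h =>
      (∑ x, w x h * Ds V (fun y => Hmk.pd x (w y)) h) +
        ∑ x, ∑ y, Hmk.pd y (Hmk.pd x V) h * w x h * w y h := by
    funext h
    have a1 : ∑ x, ∑ y, Hmk.pd y (Hmk.pd x V) h * w x h * w y h =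
        ∑ x, ∑ y, Hmk.pd x (Hmk.pd y V) h * w y h * w x h := Finset.sum_comm
    rw [a1, ← Finset.sum_add_distrib]
    refine Finset.sum_congr rfl fun x _ => ?_
    rw [maf_pd_Ds hVs hw x h, ← Finset.sum_mul]
    ring
  have pgw : ∀ x : ι, PG (fun h => w x h * Ds V (fun y => Hmk.pd x (w y)) h) := fun x =>
    (PG.of_CS (hw x)).mul (maf_pgDs hV fun y => (hw y).pd x)
  rw [e1, e2, Ev_add hV (PG.sum _ fun x _ => pgw x) (maf_pgH hV hw),
    Ev_add hV (maf_pg1 hw) (maf_pgH hV hw), Ev_sum hV _ (fun x _ => pgw x)]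
  congr 1
  have e3 : Ev V (fun h => ∑ x, ∑ y, Hmk.pd y (w x) h * Hmk.pd x (w y) h) =
      ∑ x, Ev V (fun h => ∑ y, Hmk.pd y (w x) h * Hmk.pd x (w y) h) :=
    Ev_sum hV _ (fun x _ => PG.sum _ fun y _ =>
      (PG.of_CS ((hw x).pd y)).mul (PG.of_CS ((hw y).pd x)))
  rw [e3]
  refine Finset.sum_congr rfl fun x _ => ?_
  exact ibp hV (hw x).1 fun y => (hw y).pd x

theorem Ds_le {V : (ι → ℝ) → ℝ} (hV : Pot V) {w : ι → (ι → ℝ) → ℝ} (hw : ∀ x, CS (w x)) :
    Ev V (fun h => (Ds V w h) ^ 2) ≤ Eb V w w := by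
  rw [comm hV hw]
  unfold Eb
  have hp : PG (fun h => ∑ x, ∑ y, Hmk.pd y (w x) h * Hmk.pd y (w x) h) :=
    PG.sum _ fun x _ => PG.sum _ fun y _ =>
      (PG.of_CS ((hw x).pd y)).mul (PG.of_CS ((hw x).pd y))
  refine Ev_mono hV ((maf_pg1 hw).add (maf_pgH hV hw)) (hp.add (maf_pgH hV hw)) fun h => ?_
  refine add_le_add ?_ le_rfl
  have a1 : ∑ x, ∑ y, Hmk.pd x (w y) h * Hmk.pd x (w y) h =
      ∑ x, ∑ y, Hmk.pd y (w x) h * Hmk.pd y (w x) h := Finset.sum_comm
  have a2 : ∑ x, ∑ y, 2 * (Hmk.pd y (w x) h * Hmk.pd x (w y) h) ≤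
      ∑ x, ∑ y, (Hmk.pd y (w x) h * Hmk.pd y (w x) h + Hmk.pd x (w y) h * Hmk.pd x (w y) h) :=
    Finset.sum_le_sum fun x _ => Finset.sum_le_sum fun y _ => by
      nlinarith [sq_nonneg (Hmk.pd y (w x) h - Hmk.pd x (w y) h)]
  simp only [Finset.sum_add_distrib, ← Finset.mul_sum] at a2
  linarith

/- END maf -/

/- MODULE mag
The criterion: `E (D*w - (G - E G))² = E (D*w)² - 2 E <∇G, w> + Var G ≤ Var G - J(w)`. -/
private theorem mag_ds {V : (ι → ℝ) → ℝ} (hV : Pot V) {w : ι → (ι → ℝ) → ℝ}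
    (hw : ∀ x, CS (w x)) : PG (Ds V w) := by
  have h1 : PG (fun h => ∑ x ∈ Finset.univ, (pd x V h * w x h + - pd x (w x) h)) := by
    refine PG.sum Finset.univ (F := fun x h => pd x V h * w x h + - pd x (w x) h) fun x _ => ?_
    exact ((PG.of_temp (pd_temp hV.temp x)).mul (PG.of_CS (hw x))).add (PG.of_CS (CS.pd (hw x) x)).neg
  have h2 : Ds V w = fun h => ∑ x ∈ Finset.univ, (pd x V h * w x h + - pd x (w x) h) := by
    funext h
    unfold Ds
    simp only [sub_eq_add_neg]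
  rw [h2]
  exact h1

private theorem mag_gw {G : (ι → ℝ) → ℝ} (hG : G.HasTemperateGrowth)
    {w : ι → (ι → ℝ) → ℝ} (hw : ∀ x, CS (w x)) : PG (fun h => ∑ x, pd x G h * w x h) := by
  refine PG.sum Finset.univ (F := fun x h => pd x G h * w x h) fun x _ => ?_
  exact (PG.of_temp (pd_temp hG x)).mul (PG.of_CS (hw x))

private theorem mag_sq {F : (ι → ℝ) → ℝ} (hF : PG F) : PG (fun h => F h ^ 2) := by
  have := hF.mul hF
  simpa only [sq] using this

private theorem mag_lin {V : (ι → ℝ) → ℝ} (hV : Pot V) {G : (ι → ℝ) → ℝ}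
    (hG : G.HasTemperateGrowth) {w : ι → (ι → ℝ) → ℝ} (hw : ∀ x, CS (w x)) (m : ℝ) :
    Ev V (fun h => (G h - m) * Ds V w h) = Ev V (fun h => ∑ x, pd x G h * w x h) := by
  have h1 : ContDiff ℝ ∞ (fun h => G h - m) := hG.1.sub contDiff_const
  rw [ibp hV h1 hw]
  have h2 : ∀ x h, pd x (fun h => G h - m) h = pd x G h := by
    intro x h
    unfold Hmk.pd
    rw [fderiv_sub_const]
  simp only [h2]

theorem crit {V : (ι → ℝ) → ℝ} (hV : Pot V) {G : (ι → ℝ) → ℝ} (hG : G.HasTemperateGrowth)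
    {w : ι → (ι → ℝ) → ℝ} (hw : ∀ x, CS (w x)) :
    Ev V (fun h => (Ds V w h - (G h - Ev V G)) ^ 2) ≤ Cv V G G - Jv V G w := by
  set m := Ev V G with hm
  have pG : PG G := PG.of_temp hG
  have pD := mag_ds hV hw
  have p1 : PG (fun h => G h - m) := by
    have := pG.add (PG.const (ι := ι) (-m))
    simpa only [sub_eq_add_neg] using this
  have pD2 := mag_sq pD
  have p12 := mag_sq p1
  have p3 : PG (fun h => (- 2) * ((G h - m) * Ds V w h)) := (PG.const (-2)).mul (p1.mul pD)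
  have e1 : (fun h => (Ds V w h - (G h - m)) ^ 2) =
      fun h => Ds V w h ^ 2 + (- 2) * ((G h - m) * Ds V w h) + (G h - m) ^ 2 := by
    funext h; ring
  rw [e1, Ev_add hV (pD2.add p3) p12, Ev_add hV pD2 p3, Ev_mul, mag_lin hV hG hw m,
    Cv_self hV pG, ← hm]
  have := Ds_le hV hw
  unfold Jv
  linarith

theorem Jv_le {V : (ι → ℝ) → ℝ} (hV : Pot V) {G : (ι → ℝ) → ℝ} (hG : G.HasTemperateGrowth)
    {w : ι → (ι → ℝ) → ℝ} (hw : ∀ x, CS (w x)) : Jv V G w ≤ Cv V G G := by
  have h1 := crit hV hG hw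
  have pG : PG G := PG.of_temp hG
  have p1 : PG (fun h => G h - Ev V G) := by
    have := pG.add (PG.const (ι := ι) (-Ev V G))
    simpa only [sub_eq_add_neg] using this
  have p2 : PG (fun h => Ds V w h - (G h - Ev V G)) := by
    have := (mag_ds hV hw).add p1.neg
    simpa only [sub_eq_add_neg] using this
  have h2 := Ev_mono hV (PG.const (ι := ι) 0) (mag_sq p2) (fun h => sq_nonneg _)
  rw [Ev_const hV] at h2
  linarith

/- END mag -/

/- MODULE mah
Weak Euler-Lagrange equation of near maximisers: for all real `τ`,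
`J(w + τ v) = J(w) + 2 τ (E <∇G, v> - B(w, v)) - τ² B(v, v) ≤ Var G`, so
`(E <∇G, v> - B(w, v))² ≤ (Var G - J(w)) B(v, v)` (`B(v,v) ≥ 0` by `Ds_le`; if `B(v,v) = 0` the linear
term vanishes).  Also the energy of a near maximiser:
`B(w,w) ≤ 4 Var G + 2 (Var G - J(w))` (`E <∇G, w> = E (G - E G) D*w ≤ Var^{1/2} B(w,w)^{1/2}`). -/
private theorem mah_b {V : (ι → ℝ) → ℝ} (hV : Pot V) {v w : ι → (ι → ℝ) → ℝ}
    (hv : ∀ x, CS (v x)) (hw : ∀ x, CS (w x)) :
    PG (fun h => (∑ x, ∑ y, pd y (v x) h * pd y (w x) h) +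
      ∑ x, ∑ y, pd y (pd x V) h * v x h * w y h) := by
  refine PG.add (PG.sum Finset.univ (F := fun x h => ∑ y, pd y (v x) h * pd y (w x) h) fun x _ =>
    PG.sum Finset.univ (F := fun y h => pd y (v x) h * pd y (w x) h) fun y _ => ?_)
    (PG.sum Finset.univ (F := fun x h => ∑ y, pd y (pd x V) h * v x h * w y h) fun x _ =>
    PG.sum Finset.univ (F := fun y h => pd y (pd x V) h * v x h * w y h) fun y _ => ?_)
  · exact (PG.of_CS (CS.pd (hv x) y)).mul (PG.of_CS (CS.pd (hw x) y))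
  · exact ((PG.of_temp (pd_temp (pd_temp hV.temp x) y)).mul (PG.of_CS (hv x))).mul
      (PG.of_CS (hw y))

private theorem mah_exp {V : (ι → ℝ) → ℝ} (hV : Pot V) {v w : ι → (ι → ℝ) → ℝ}
    (hv : ∀ x, CS (v x)) (hw : ∀ x, CS (w x)) (t : ℝ) :
    Eb V (fun x h => w x h + t * v x h) (fun x h => w x h + t * v x h) =
      Eb V w w + (2 * t) * Eb V w v + t ^ 2 * Eb V v v := by
  unfold Eb
  have p1 := mah_b hV hw hw
  have p2 : PG (fun h => (2 * t) * ((∑ x, ∑ y, pd y (w x) h * pd y (v x) h) +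
      ∑ x, ∑ y, pd y (pd x V) h * w x h * v y h)) := (PG.const (2 * t)).mul (mah_b hV hw hv)
  have p3 : PG (fun h => t ^ 2 * ((∑ x, ∑ y, pd y (v x) h * pd y (v x) h) +
      ∑ x, ∑ y, pd y (pd x V) h * v x h * v y h)) := (PG.const (t ^ 2)).mul (mah_b hV hv hv)
  rw [← Ev_mul V (2 * t), ← Ev_mul V (t ^ 2), ← Ev_add hV p1 p2, ← Ev_add hV (p1.add p2) p3]
  have hpd : ∀ x y h, pd y (fun h => w x h + t * v x h) h = pd y (w x) h + t * pd y (v x) h := by
    intro x y h
    unfold Hmk.pd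
    have h1 : DifferentiableAt ℝ (w x) h := (hw x).1.differentiable (by simp) h
    have h2 : DifferentiableAt ℝ (v x) h := (hv x).1.differentiable (by simp) h
    rw [fderiv_fun_add h1 (h2.const_mul t), fderiv_const_mul h2 t]
    rfl
  have hsym : ∀ h, ∑ x, ∑ y, pd y (pd x V) h * v x h * w y h =
      ∑ x, ∑ y, pd y (pd x V) h * w x h * v y h := by
    intro h
    rw [Finset.sum_comm]
    refine Finset.sum_congr rfl fun x _ => Finset.sum_congr rfl fun y _ => ?_
    rw [pd_symm (hV.temp.1.of_le (by norm_cast)) x y h]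
    ring
  refine congrArg (Ev V) (funext fun h => ?_)
  simp only [hpd]
  have e1 : ∑ x, ∑ y, (pd y (w x) h + t * pd y (v x) h) * (pd y (w x) h + t * pd y (v x) h) =
      (∑ x, ∑ y, pd y (w x) h * pd y (w x) h) +
        (2 * t) * (∑ x, ∑ y, pd y (w x) h * pd y (v x) h) +
        t ^ 2 * (∑ x, ∑ y, pd y (v x) h * pd y (v x) h) := by
    simp only [Finset.mul_sum, ← Finset.sum_add_distrib]
    refine Finset.sum_congr rfl fun x _ => Finset.sum_congr rfl fun y _ => ?_
    ring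
  have e2 : ∑ x, ∑ y, pd y (pd x V) h * (w x h + t * v x h) * (w y h + t * v y h) =
      (∑ x, ∑ y, pd y (pd x V) h * w x h * w y h) +
        t * ((∑ x, ∑ y, pd y (pd x V) h * w x h * v y h) +
          (∑ x, ∑ y, pd y (pd x V) h * v x h * w y h)) +
        t ^ 2 * (∑ x, ∑ y, pd y (pd x V) h * v x h * v y h) := by
    simp only [Finset.mul_sum, ← Finset.sum_add_distrib]
    refine Finset.sum_congr rfl fun x _ => Finset.sum_congr rfl fun y _ => ?_
    ring
  rw [e1, e2, hsym h]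
  ring

theorem weak_el {V : (ι → ℝ) → ℝ} (hV : Pot V) {G : (ι → ℝ) → ℝ} (hG : G.HasTemperateGrowth)
    {v w : ι → (ι → ℝ) → ℝ} (hv : ∀ x, CS (v x)) (hw : ∀ x, CS (w x)) :
    (Ev V (fun h => ∑ x, pd x G h * v x h) - Eb V w v) ^ 2 ≤
      (Cv V G G - Jv V G w) * Eb V v v := by
  have key : ∀ t : ℝ, 0 ≤ Eb V v v * (t * t) +
      (-(2 * (Ev V (fun h => ∑ x, pd x G h * v x h) - Eb V w v))) * t +
        (Cv V G G - Jv V G w) := by
    intro t
    have hwv : ∀ x, CS (fun h => w x h + t * v x h) := fun x => (hw x).add ((hv x).smul t)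
    have h1 := Jv_le hV hG hwv
    have h2 : Jv V G (fun x h => w x h + t * v x h) = Jv V G w +
        2 * t * (Ev V (fun h => ∑ x, pd x G h * v x h) - Eb V w v) - t ^ 2 * Eb V v v := by
      unfold Jv
      rw [mah_exp hV hv hw t]
      have h3 : Ev V (fun h => ∑ x, pd x G h * (w x h + t * v x h)) =
          Ev V (fun h => ∑ x, pd x G h * w x h) + t * Ev V (fun h => ∑ x, pd x G h * v x h) := by
        rw [← Ev_mul V t, ← Ev_add hV (mag_gw hG hw)
          ((PG.const t).mul (mag_gw hG hv))]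
        refine congrArg (Ev V) (funext fun h => ?_)
        rw [Finset.mul_sum, ← Finset.sum_add_distrib]
        refine Finset.sum_congr rfl fun x _ => ?_
        ring
      rw [h3]
      ring
    rw [h2] at h1
    nlinarith
  have h2 := discrim_le_zero key
  unfold discrim at h2
  nlinarith

theorem en_near {V : (ι → ℝ) → ℝ} (hV : Pot V) {G : (ι → ℝ) → ℝ} (hG : G.HasTemperateGrowth)
    {w : ι → (ι → ℝ) → ℝ} (hw : ∀ x, CS (w x)) :
    Eb V w w ≤ 4 * Cv V G G + 2 * (Cv V G G - Jv V G w) := by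
  have pG : PG G := PG.of_temp hG
  have p1 : PG (fun h => G h - Ev V G) := by
    have := pG.add (PG.const (ι := ι) (-Ev V G))
    simpa only [sub_eq_add_neg] using this
  have h1 := Ev_cs hV p1 (mag_ds hV hw)
  rw [mag_lin hV hG hw (Ev V G), ← Cv_self hV pG] at h1
  have h2 := Ds_le hV hw
  have hC : 0 ≤ Cv V G G := by
    rw [Cv_self hV pG]
    have := Ev_mono hV (PG.const (ι := ι) 0) (mag_sq p1) (fun h => sq_nonneg _)
    rwa [Ev_const hV] at this
  have hE : 0 ≤ Ev V (fun h => Ds V w h ^ 2) := by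
    have := Ev_mono hV (PG.const (ι := ι) 0) (mag_sq (mag_ds hV hw)) (fun h => sq_nonneg _)
    rwa [Ev_const hV] at this
  have h3 := (abs_le.1 h1).2
  have a1 := Real.sq_sqrt hC
  have a2 := Real.sq_sqrt hE
  have e : Eb V w w = 2 * Ev V (fun h => ∑ x, pd x G h * w x h) - Jv V G w := by
    unfold Jv; ring
  nlinarith [sq_nonneg (2 * Real.sqrt (Cv V G G) - Real.sqrt (Ev V (fun h => Ds V w h ^ 2)))]

/- END mah -/

end Pool.Agent.Hmk.Mn
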