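import Pool.Agent.Hmk.MnTr

/-!
# Hmk, second part: covariances with the boundary term in the soft model (helper70)
-/

set_option autoImplicit false

open MeasureTheory Set Filter

open scoped ENNReal SchwartzMap ContDiff Topology

noncomputable section

namespace Pool.Agent.Hmk.Mn

/- MODULE mda
SOFT SCORE LEMMA.  `G` bounded measurable, a function of the heights at the sites with `P`, the fields
`ψ_x` with `P x` are all equal to `γ`, `ψ_x = 0` next to the moving fixed sites.  With `w` from `resp`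
(`η → 0`), `E` the expectation for `V = Vs D b s`, `m = E G`:
`Cov(G γ, Bt) = E[G γ (Bt - E Bt)] = E[G γ D*w] + O(M C_γ η^{1/2})`,
`E[G γ D*w] = E[G D*(γ w)] + E[G ∑ d_x γ w_x]`, `E[G D*(γ w)] = E[G D*(ψ w)]` because
`E[G D*((ψ - γ) w)] = ∑_{x, not P x} E[G (V_x f_x - d_x f_x)] = 0`, `f_x = (ψ_x - γ) w_x`
(`dstar_zero`), and `E[G D*(ψ w)] = E[(G - m) D*(ψ w)]` (`ibp` with `g = 1`); Cauchy-Schwarz. -/
private theorem mda_cs {D : Finset (ℤ × ℤ)} {V : (D → ℝ) → ℝ} (hV : Pot V) {f : (D → ℝ) → ℝ}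
    (hf : CS f) (x : D) : CS (fun h => pd x V h * f h - pd x f h) := by
  have h1 : CS (fun h => pd x V h * f h) := hf.mul_left (cd_pd hV.temp.1 x)
  have h2 : CS (fun h => (-1) * pd x f h) := (hf.pd x).smul (-1)
  have h3 := h1.add h2
  have e : (fun h => pd x V h * f h + (-1) * pd x f h) = fun h => pd x V h * f h - pd x f h := by
    funext h
    ring
  rw [← e]
  exact h3

private theorem mda_pg {D : Finset (ℤ × ℤ)} {V : (D → ℝ) → ℝ} (hV : Pot V)
    {w : D → (D → ℝ) → ℝ} (hw : ∀ x, CS (w x)) : PG (Ds V w) := by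
  have h : PG (fun h => ∑ x ∈ Finset.univ, (pd x V h * w x h - pd x (w x) h)) :=
    PG.sum _ fun x _ => PG.of_CS (mda_cs hV (hw x) x)
  exact h

private theorem mda_abs {D : Finset (ℤ × ℤ)} {F : (D → ℝ) → ℝ} (hF : PG F) :
    PG (fun h => |F h|) := by
  obtain ⟨h1, C, k, h2⟩ := hF
  exact ⟨h1.abs, C, k, fun h => by rw [abs_abs]; exact h2 h⟩

private theorem mda_ga {D : Finset (ℤ × ℤ)} {γ : (D → ℝ) → ℝ} (hγ : BS γ) : PG (Ga γ) := by
  obtain ⟨C, hC⟩ := hγ.db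
  have h : PG (fun h => ∑ y ∈ Finset.univ, |pd y γ h|) :=
    PG.sum _ fun y _ => PG.of_bdd (C := C) ((cd_pd hγ.sm y).continuous.measurable.abs)
      (fun h => by rw [abs_abs]; exact hC y h)
  exact h

private theorem mda_sub {D : Finset (ℤ × ℤ)} {F G : (D → ℝ) → ℝ} (hF : PG F) (hG : PG G) :
    PG (fun h => F h - G h) := by
  have h := hF.add hG.neg
  have e : (fun h => F h + - G h) = fun h => F h - G h := by
    funext h
    ring
  rw [← e]
  exact h

private theorem mda_cov {D : Finset (ℤ × ℤ)} {V : (D → ℝ) → ℝ} (hV : Pot V)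
    {F B X : (D → ℝ) → ℝ} (hF : PG F) (hB : PG B) (hX : PG X) :
    Cv V F B = Ev V (fun h => F h * X h) - Ev V (fun h => F h * (X h - (B h - Ev V B))) := by
  have h1 : PG (fun h => B h - Ev V B) := mda_sub hB (PG.const _)
  rw [← Ev_sub hV (hF.mul hX) (hF.mul (mda_sub hX h1))]
  have e : (fun h => F h * X h - F h * (X h - (B h - Ev V B))) =
      fun h => F h * B h - Ev V B * F h := by
    funext h
    ring
  rw [e, Ev_sub hV (hF.mul hB) ((PG.const (Ev V B)).mul hF), Ev_mul]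
  unfold Cv
  ring

private theorem mda_err {D : Finset (ℤ × ℤ)} {V : (D → ℝ) → ℝ} (hV : Pot V)
    {F B X : (D → ℝ) → ℝ} (hF : PG F) (hB : PG B) (hX : PG X) {η : ℝ}
    (hη : Ev V (fun h => (X h - (B h - Ev V B)) ^ 2) ≤ η) :
    |Ev V (fun h => F h * (X h - (B h - Ev V B)))| ≤
      Real.sqrt (Ev V (fun h => F h ^ 2)) * Real.sqrt η := by
  have h1 : PG (fun h => X h - (B h - Ev V B)) := mda_sub hX (mda_sub hB (PG.const _))
  exact (Ev_cs hV hF h1).trans
    (mul_le_mul_of_nonneg_left (Real.sqrt_le_sqrt hη) (Real.sqrt_nonneg _))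

private theorem mda_split {D : Finset (ℤ × ℤ)} {V : (D → ℝ) → ℝ} (hV : Pot V)
    {G : (D → ℝ) → ℝ} (hG : PG G) {w : D → (D → ℝ) → ℝ} (hw : ∀ x, CS (w x)) :
    Ev V (fun h => G h * Ds V w h) =
      ∑ x, Ev V (fun h => G h * (pd x V h * w x h - pd x (w x) h)) := by
  rw [← Ev_sum hV Finset.univ fun x _ => hG.mul (PG.of_CS (mda_cs hV (hw x) x))]
  congr 1
  funext h
  unfold Ds
  rw [Finset.mul_sum]

private theorem mda_zero {D : Finset (ℤ × ℤ)} {V : (D → ℝ) → ℝ} (hV : Pot V)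
    {w : D → (D → ℝ) → ℝ} (hw : ∀ x, CS (w x)) : Ev V (Ds V w) = 0 := by
  have h1 := ibp hV (g := fun _ => 1) contDiff_const hw
  have e1 : (fun h => (1 : ℝ) * Ds V w h) = Ds V w := by
    funext h
    rw [one_mul]
  have e2 : (fun h : D → ℝ => ∑ x, pd x (fun _ : D → ℝ => (1 : ℝ)) h * w x h) = fun _ => 0 := by
    funext h
    refine Finset.sum_eq_zero fun x _ => ?_
    unfold pd
    simp
  rw [e1, e2, Ev_const hV] at h1
  exact h1

private theorem mda_cs2 {D : Finset (ℤ × ℤ)} {V : (D → ℝ) → ℝ} (hV : Pot V)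
    {G : (D → ℝ) → ℝ} (hG : PG G) {w : D → (D → ℝ) → ℝ} (hw : ∀ x, CS (w x)) :
    |Ev V (fun h => G h * Ds V w h)| ≤
      Real.sqrt (Cv V G G) * Real.sqrt (Ev V (fun h => Ds V w h ^ 2)) := by
  have hD := mda_pg hV hw
  have h1 : PG (fun h => G h - Ev V G) := mda_sub hG (PG.const _)
  have e : Ev V (fun h => G h * Ds V w h) = Ev V (fun h => (G h - Ev V G) * Ds V w h) := by
    have e2 : (fun h => (G h - Ev V G) * Ds V w h) =
        fun h => G h * Ds V w h - Ev V G * Ds V w h := by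
      funext h
      ring
    rw [e2, Ev_sub hV (hG.mul hD) ((PG.const _).mul hD), Ev_mul, mda_zero hV hw, mul_zero,
      sub_zero]
  rw [e, Cv_self hV hG]
  exact Ev_cs hV h1 hD

private theorem mda_lim {x a T c A : ℝ}
    (H : ∀ η : ℝ, 0 < η → x ≤ a * Real.sqrt (T + η) + c + A * Real.sqrt η) :
    x ≤ a * Real.sqrt T + c := by
  have h0 : Tendsto (fun n : ℕ => 1 / ((n : ℝ) + 1)) atTop (𝓝 0) :=
    tendsto_one_div_add_atTop_nhds_zero_nat
  have h1 : Tendsto (fun n : ℕ => a * Real.sqrt (T + 1 / ((n : ℝ) + 1)) + c +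
      A * Real.sqrt (1 / ((n : ℝ) + 1))) atTop (𝓝 (a * Real.sqrt (T + 0) + c + A * Real.sqrt 0)) :=
    ((tendsto_const_nhds.mul ((Real.continuous_sqrt.tendsto _).comp
      (tendsto_const_nhds.add h0))).add tendsto_const_nhds).add
      (tendsto_const_nhds.mul ((Real.continuous_sqrt.tendsto _).comp h0))
  rw [add_zero, Real.sqrt_zero, mul_zero, add_zero] at h1
  exact ge_of_tendsto' h1 fun n => H _ (by positivity)

theorem soft_score {D : Finset (ℤ × ℤ)} {b u : ℤ × ℤ → ℝ} (hb : ∀ z, |b z| ≤ 1 / 2)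
    (hu : ∀ z, |u z| ≤ 1) {s : ℝ} (hs : 1 ≤ s) {P : ℤ × ℤ → Prop} {ψ : D → (D → ℝ) → ℝ}
    {γ G : (D → ℝ) → ℝ} (hψ : ∀ x, BS (ψ x)) (hγ : BS γ) (hP : ∀ x : D, P x → ψ x = γ)
    (hk : ∀ (x : D) (i : Fin 6), (x : ℤ × ℤ) + st i ∉ D → u ((x : ℤ × ℤ) + st i) ≠ 0 →
      ∀ h, ψ x h = 0) (hG : Measurable G) {M : ℝ} (hM : ∀ h, |G h| ≤ M) (hd : Dep P G) :
    |Cv (Vs D b s) (fun h => G h * γ h) (Bt D b u s)| ≤
      Real.sqrt (Cv (Vs D b s) G G) *
        Real.sqrt (4 * (Ev (Vs D b s) (Gd2 ψ) + Ev (Vs D b s) (Td D s ψ))) +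
      2 * M * Ev (Vs D b s) (Ga γ) := by
  have hV : Pot (Vs D b s) := Pot_Vs hb hs
  have hGpg : PG G := PG.of_bdd hG hM
  have hGγ : PG (fun h => G h * γ h) := hGpg.mul hγ.pg
  have hB : PG (Bt D b u s) := PG.of_temp (Bt_temp D b u hs)
  set A : ℝ := Real.sqrt (Ev (Vs D b s) (fun h => (G h * γ h) ^ 2)) with hA
  set T : ℝ := 4 * (Ev (Vs D b s) (Gd2 ψ) + Ev (Vs D b s) (Td D s ψ)) with hT
  have main : ∀ η : ℝ, 0 < η → |Cv (Vs D b s) (fun h => G h * γ h) (Bt D b u s)| ≤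
      Real.sqrt (Cv (Vs D b s) G G) * Real.sqrt (T + η) + 2 * M * Ev (Vs D b s) (Ga γ) +
        A * Real.sqrt η := by
    intro η hη
    obtain ⟨w, hw, hw2, hr1, hr2⟩ := resp hb hu hs hψ hk hη
    have hγw : ∀ x, CS (fun h => γ h * w x h) := fun x => (hw x).mul_left hγ.sm
    have hψw : ∀ x, CS (fun h => ψ x h * w x h) := fun x => (hw x).mul_left (hψ x).sm
    have hDw : PG (Ds (Vs D b s) w) := mda_pg hV hw
    have hDγ : PG (Ds (Vs D b s) (fun x h => γ h * w x h)) := mda_pg hV hγw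
    have hDψ : PG (Ds (Vs D b s) (fun x h => ψ x h * w x h)) := mda_pg hV hψw
    have e1 := mda_cov hV hGγ hB hDw
    -- the error
    have h2 := mda_err hV hGγ hB hDw hr1
    -- the main term
    have e3 : (fun h => G h * γ h * Ds (Vs D b s) w h) = fun h =>
        G h * Ds (Vs D b s) (fun x h => γ h * w x h) h +
          G h * ∑ x, pd x γ h * w x h := by
      funext h
      unfold Ds
      rw [Finset.mul_sum, Finset.mul_sum, Finset.mul_sum, ← Finset.sum_add_distrib]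
      refine Finset.sum_congr rfl fun x _ => ?_
      rw [pd_prod hγ.sm (hw x).1 x h]
      ring
    have hsum : PG (fun h => ∑ x, pd x γ h * w x h) :=
      PG.sum _ fun x _ => PG.of_CS ((hw x).mul_left (cd_pd hγ.sm x))
    have e4 : Ev (Vs D b s) (fun h => G h * γ h * Ds (Vs D b s) w h) =
        Ev (Vs D b s) (fun h => G h * Ds (Vs D b s) (fun x h => γ h * w x h) h) +
          Ev (Vs D b s) (fun h => G h * ∑ x, pd x γ h * w x h) := by
      rw [e3]
      exact Ev_add hV (hGpg.mul hDγ) (hGpg.mul hsum)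
    have hM0 : 0 ≤ M := (abs_nonneg _).trans (hM 0)
    have hGa : PG (Ga γ) := mda_ga hγ
    have h5 : |Ev (Vs D b s) (fun h => G h * ∑ x, pd x γ h * w x h)| ≤
        2 * M * Ev (Vs D b s) (Ga γ) := by
      refine (Ev_abs hV (hGpg.mul hsum)).trans ?_
      rw [← Ev_mul]
      refine Ev_mono hV (mda_abs (hGpg.mul hsum)) ((PG.const (2 * M)).mul hGa) fun h => ?_
      rw [abs_mul]
      have h6 : |∑ x, pd x γ h * w x h| ≤ 2 * Ga γ h := by
        unfold Ga
        rw [Finset.mul_sum]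
        refine (Finset.abs_sum_le_sum_abs _ _).trans (Finset.sum_le_sum fun x _ => ?_)
        rw [abs_mul, mul_comm]
        exact mul_le_mul_of_nonneg_right (hw2 x h) (abs_nonneg _)
      calc |G h| * |∑ x, pd x γ h * w x h| ≤ M * (2 * Ga γ h) :=
            mul_le_mul (hM h) h6 (abs_nonneg _) hM0
        _ = 2 * M * Ga γ h := by ring
    -- replace `γ` by `ψ`
    have e6 : Ev (Vs D b s) (fun h => G h * Ds (Vs D b s) (fun x h => γ h * w x h) h) =
        Ev (Vs D b s) (fun h => G h * Ds (Vs D b s) (fun x h => ψ x h * w x h) h) := by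
      rw [mda_split hV hGpg hγw, mda_split hV hGpg hψw]
      refine Finset.sum_congr rfl fun x _ => ?_
      by_cases hPx : P x
      · rw [hP x hPx]
      · have hx : ∀ (h : D → ℝ) (r : ℝ), G (Function.update h x r) = G h := by
          intro h r
          refine hd _ _ fun y hy => ?_
          rw [Function.update_of_ne]
          rintro rfl
          exact hPx hy
        unfold Ev
        rw [dstar_zero hV.temp.1 hG hM x hx (hγw x), dstar_zero hV.temp.1 hG hM x hx (hψw x)]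
    have h7 := mda_cs2 hV hGpg hψw
    have h8 : Real.sqrt (Ev (Vs D b s) (fun h => Ds (Vs D b s) (fun x h => ψ x h * w x h) h ^ 2)) ≤
        Real.sqrt (T + η) := Real.sqrt_le_sqrt hr2
    have h9 : |Ev (Vs D b s) (fun h => G h * Ds (Vs D b s) (fun x h => ψ x h * w x h) h)| ≤
        Real.sqrt (Cv (Vs D b s) G G) * Real.sqrt (T + η) :=
      h7.trans (mul_le_mul_of_nonneg_left h8 (Real.sqrt_nonneg _))
    rw [e1]
    rw [e4, e6]
    refine (abs_sub _ _).trans ?_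
    refine add_le_add ((abs_add_le _ _).trans (add_le_add h9 h5)) h2
  exact mda_lim main

/- END mda -/

/- MODULE mdb
SOFT BOUNDARY LEMMA.  `F_a(h) = ∑ a_x h_x`.
`Cov(∑ a_x Z_x h_x, Bt) = E[∑ a_x Z_x w_x] + o(1)` (`resp`, `ibp`), and
`E ∑ a_x Z_x w_x = E ∑ a_x ψ_x w_x + E ∑ a_x (Z_x - ψ_x) w_x`,
`E ∑ a_x ψ_x w_x = E[(F_a - E F_a) D*(ψ w)]` (`ibp`), Cauchy-Schwarz. -/
private theorem mdb_pg {D : Finset (ℤ × ℤ)} (c : D → ℝ) :
    PG (fun h : D → ℝ => ∑ x, c x * h x) :=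
  PG.sum _ fun x _ => (PG.const (c x)).mul (PG.coord x)

private theorem mdb_sm {D : Finset (ℤ × ℤ)} (c : D → ℝ) :
    ContDiff ℝ ∞ (fun h : D → ℝ => ∑ x, c x * h x) :=
  ContDiff.sum fun x _ => contDiff_const.mul (contDiff_apply ℝ ℝ x)

private theorem mdb_pd {D : Finset (ℤ × ℤ)} (c : D → ℝ) (x : D) (h : D → ℝ) :
    pd x (fun h : D → ℝ => ∑ y, c y * h y) h = c x := by
  unfold pd
  have h1 : HasFDerivAt (fun h : D → ℝ => ∑ y, c y * h y)
      (∑ y, c y • (ContinuousLinearMap.proj y : (D → ℝ) →L[ℝ] ℝ)) h := by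
    refine HasFDerivAt.fun_sum fun y _ => ?_
    exact ((ContinuousLinearMap.proj y : (D → ℝ) →L[ℝ] ℝ).hasFDerivAt).const_mul (c y)
  rw [h1.fderiv]
  simp [Pi.single_apply]

theorem soft_bdry {D : Finset (ℤ × ℤ)} {b u : ℤ × ℤ → ℝ} (hb : ∀ z, |b z| ≤ 1 / 2)
    (hu : ∀ z, |u z| ≤ 1) {s : ℝ} (hs : 1 ≤ s) {ψ : D → (D → ℝ) → ℝ} (hψ : ∀ x, BS (ψ x))
    (hk : ∀ (x : D) (i : Fin 6), (x : ℤ × ℤ) + st i ∉ D → u ((x : ℤ × ℤ) + st i) ≠ 0 →
      ∀ h, ψ x h = 0) (a Z : D → ℝ) :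
    |Cv (Vs D b s) (fun h => ∑ x, a x * Z x * h x) (Bt D b u s)| ≤
      Real.sqrt (Cv (Vs D b s) (fun h => ∑ x, a x * h x) (fun h => ∑ x, a x * h x)) *
        Real.sqrt (4 * (Ev (Vs D b s) (Gd2 ψ) + Ev (Vs D b s) (Td D s ψ))) +
      2 * Ev (Vs D b s) (fun h => ∑ x, |a x| * |Z x - ψ x h|) := by
  have hV : Pot (Vs D b s) := Pot_Vs hb hs
  have hF : PG (fun h : D → ℝ => ∑ x, a x * h x) := mdb_pg a
  have hFZ : PG (fun h : D → ℝ => ∑ x, a x * Z x * h x) := mdb_pg fun x => a x * Z x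
  have hB : PG (Bt D b u s) := PG.of_temp (Bt_temp D b u hs)
  set A : ℝ := Real.sqrt (Ev (Vs D b s) (fun h => (∑ x, a x * Z x * h x) ^ 2)) with hA
  set T : ℝ := 4 * (Ev (Vs D b s) (Gd2 ψ) + Ev (Vs D b s) (Td D s ψ)) with hT
  have main : ∀ η : ℝ, 0 < η →
      |Cv (Vs D b s) (fun h => ∑ x, a x * Z x * h x) (Bt D b u s)| ≤
      Real.sqrt (Cv (Vs D b s) (fun h => ∑ x, a x * h x) (fun h => ∑ x, a x * h x)) *
        Real.sqrt (T + η) + 2 * Ev (Vs D b s) (fun h => ∑ x, |a x| * |Z x - ψ x h|) +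
        A * Real.sqrt η := by
    intro η hη
    obtain ⟨w, hw, hw2, hr1, hr2⟩ := resp hb hu hs hψ hk hη
    have hψw : ∀ x, CS (fun h => ψ x h * w x h) := fun x => (hw x).mul_left (hψ x).sm
    have hDw : PG (Ds (Vs D b s) w) := mda_pg hV hw
    have e1 := mda_cov hV hFZ hB hDw
    have h2 := mda_err hV hFZ hB hDw hr1
    -- the main term
    have e3 : Ev (Vs D b s) (fun h => (∑ x, a x * Z x * h x) * Ds (Vs D b s) w h) =
        Ev (Vs D b s) (fun h => (∑ x, a x * h x) *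
          Ds (Vs D b s) (fun x h => ψ x h * w x h) h) +
        Ev (Vs D b s) (fun h => ∑ x, a x * (Z x - ψ x h) * w x h) := by
      have h3 := ibp hV (mdb_sm fun x => a x * Z x) hw
      have h4 := ibp hV (mdb_sm a) hψw
      rw [h3, h4, ← Ev_add hV]
      · congr 1
        funext h
        rw [← Finset.sum_add_distrib]
        refine Finset.sum_congr rfl fun x _ => ?_
        rw [mdb_pd, mdb_pd]
        ring
      · refine PG.sum _ fun x _ => ?_
        simp only [mdb_pd]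
        exact (PG.const (a x)).mul (PG.of_CS (hψw x))
      · exact PG.sum _ fun x _ => ((PG.const (a x)).mul
          (mda_sub (PG.const (Z x)) (hψ x).pg)).mul (PG.of_CS (hw x))
    have h5 : |Ev (Vs D b s) (fun h => ∑ x, a x * (Z x - ψ x h) * w x h)| ≤
        2 * Ev (Vs D b s) (fun h => ∑ x, |a x| * |Z x - ψ x h|) := by
      have hp1 : PG (fun h => ∑ x, a x * (Z x - ψ x h) * w x h) :=
        PG.sum _ fun x _ => ((PG.const (a x)).mul
          (mda_sub (PG.const (Z x)) (hψ x).pg)).mul (PG.of_CS (hw x))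
      have hp2 : PG (fun h => ∑ x, |a x| * |Z x - ψ x h|) :=
        PG.sum _ fun x _ => (PG.const |a x|).mul
          (mda_abs (mda_sub (PG.const (Z x)) (hψ x).pg))
      refine (Ev_abs hV hp1).trans ?_
      rw [← Ev_mul]
      refine Ev_mono hV (mda_abs hp1) ((PG.const 2).mul hp2) fun h => ?_
      rw [Finset.mul_sum]
      refine (Finset.abs_sum_le_sum_abs _ _).trans (Finset.sum_le_sum fun x _ => ?_)
      rw [abs_mul, abs_mul, mul_comm]
      exact mul_le_mul_of_nonneg_right (hw2 x h) (by positivity)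
    have h7 := mda_cs2 hV hF hψw
    have h8 : Real.sqrt (Ev (Vs D b s) (fun h => Ds (Vs D b s) (fun x h => ψ x h * w x h) h ^ 2)) ≤
        Real.sqrt (T + η) := Real.sqrt_le_sqrt hr2
    have h9 := h7.trans (mul_le_mul_of_nonneg_left h8 (Real.sqrt_nonneg _))
    rw [e1, e3]
    refine (abs_sub _ _).trans ?_
    exact add_le_add ((abs_add_le _ _).trans (add_le_add h9 h5)) h2
  exact mda_lim main

/- END mdb -/

/- MODULE mdc
Derivative in `θ` of the soft expectations along `bt b₀ b₁ θ`: differentiation under the integral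
sign (`hasDerivAt_integral_of_dominated_loc_of_deriv_le`); `d/dθ Vs D (bt θ) s h = - Bt D (bt θ) (b₁ - b₀) s h`,
domination: `|Bt| ≤ C`, `Vs D (bt θ') s h ≥ Vs D (bt θ) s h - C |θ' - θ|`. -/
theorem Vs_bt_deriv (D : Finset (ℤ × ℤ)) (b₀ b₁ : ℤ × ℤ → ℝ) {s : ℝ} (hs : 1 ≤ s) (h : D → ℝ)
    (θ : ℝ) :
    HasDerivAt (fun θ => Vs D (bt b₀ b₁ θ) s h)
      (- Bt D (bt b₀ b₁ θ) (fun z => b₁ z - b₀ z) s h) θ := by
  have key : ∀ x ∈ D, ∀ i : Fin 6, HasDerivAt
      (fun θ => Us s (gl D (bt b₀ b₁ θ) h x - gl D (bt b₀ b₁ θ) h (x + st i)))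
      (-(if x + st i ∈ D then 0 else (b₁ (x + st i) - b₀ (x + st i)) *
        Us1 s (gl D (bt b₀ b₁ θ) h x - gl D (bt b₀ b₁ θ) h (x + st i)))) θ := by
    intro x hx i
    by_cases hy : x + st i ∈ D
    · rw [if_pos hy, neg_zero]
      have e : (fun θ => Us s (gl D (bt b₀ b₁ θ) h x - gl D (bt b₀ b₁ θ) h (x + st i))) =
          fun _ => Us s (h ⟨x, hx⟩ - h ⟨x + st i, hy⟩) := by
        funext θ'
        rw [gl_mem hx, gl_mem hy]
      rw [e]
      exact hasDerivAt_const _ _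
    · rw [if_neg hy]
      have e : (fun θ => Us s (gl D (bt b₀ b₁ θ) h x - gl D (bt b₀ b₁ θ) h (x + st i))) =
          fun θ => Us s (h ⟨x, hx⟩ - bt b₀ b₁ θ (x + st i)) := by
        funext θ'
        rw [gl_mem hx, gl_not_mem hy]
      rw [e, gl_mem hx, gl_not_mem hy]
      have h1 : HasDerivAt (fun θ => h ⟨x, hx⟩ - bt b₀ b₁ θ (x + st i))
          (-(b₁ (x + st i) - b₀ (x + st i))) θ := by
        unfold bt
        have h2 : HasDerivAt (fun θ : ℝ => b₀ (x + st i) + θ * (b₁ (x + st i) - b₀ (x + st i)))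
            (1 * (b₁ (x + st i) - b₀ (x + st i))) θ :=
          ((hasDerivAt_id' θ).mul_const _).const_add _
        rw [one_mul] at h2
        exact h2.const_sub (h ⟨x, hx⟩)
      have h3 := (Us_deriv hs (h ⟨x, hx⟩ - bt b₀ b₁ θ (x + st i))).comp θ h1
      have e2 : -((b₁ (x + st i) - b₀ (x + st i)) *
          Us1 s (h ⟨x, hx⟩ - bt b₀ b₁ θ (x + st i))) =
          Us1 s (h ⟨x, hx⟩ - bt b₀ b₁ θ (x + st i)) * -(b₁ (x + st i) - b₀ (x + st i)) := by
        ring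
      rw [e2]
      exact h3
  unfold Vs Bt
  rw [← Finset.sum_neg_distrib]
  refine HasDerivAt.fun_sum fun x hx => ?_
  rw [← Finset.sum_neg_distrib]
  exact HasDerivAt.fun_sum fun i _ => key x hx i

private theorem mdc_bd {D : Finset (ℤ × ℤ)} {b u : ℤ × ℤ → ℝ} {s : ℝ} (hs : 1 ≤ s) (h : D → ℝ) :
    |Bt D b u s h| ≤ ∑ x ∈ D, ∑ i : Fin 6, |u (x + st i)| * s := by
  unfold Bt
  refine (Finset.abs_sum_le_sum_abs _ _).trans (Finset.sum_le_sum fun x _ =>
    (Finset.abs_sum_le_sum_abs _ _).trans (Finset.sum_le_sum fun i _ => ?_))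
  split_ifs with hc
  · rw [abs_zero]
    exact mul_nonneg (abs_nonneg _) (by linarith)
  · rw [abs_mul]
    exact mul_le_mul_of_nonneg_left (Us1_abs hs _) (abs_nonneg _)

theorem Ev_deriv {D : Finset (ℤ × ℤ)} {b₀ b₁ : ℤ × ℤ → ℝ} {θ : ℝ}
    (hb : ∀ z, |bt b₀ b₁ θ z| ≤ 1 / 2) {s : ℝ} (hs : 1 ≤ s) {G : (D → ℝ) → ℝ} (hG : PG G) :
    HasDerivAt (fun θ => Ev (Vs D (bt b₀ b₁ θ) s) G)
      (Cv (Vs D (bt b₀ b₁ θ) s) G (Bt D (bt b₀ b₁ θ) (fun z => b₁ z - b₀ z) s)) θ := by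
  set u : ℤ × ℤ → ℝ := fun z => b₁ z - b₀ z with hu
  set C : ℝ := ∑ x ∈ D, ∑ i : Fin 6, |u (x + st i)| * s with hC
  have hC0 : 0 ≤ C := Finset.sum_nonneg fun x _ => Finset.sum_nonneg fun i _ =>
    mul_nonneg (abs_nonneg _) (by linarith)
  have hB : ∀ (τ : ℝ) (h : D → ℝ), |Bt D (bt b₀ b₁ τ) u s h| ≤ C := fun τ h => mdc_bd hs h
  have hVd : ∀ (τ : ℝ) (h : D → ℝ), HasDerivAt (fun θ => Vs D (bt b₀ b₁ θ) s h)
      (- Bt D (bt b₀ b₁ τ) u s h) τ := fun τ h => Vs_bt_deriv D b₀ b₁ hs h τ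
  have hV : Pot (Vs D (bt b₀ b₁ θ) s) := Pot_Vs hb hs
  have hlow : ∀ (τ : ℝ) (h : D → ℝ), τ ∈ Metric.ball θ 1 →
      Vs D (bt b₀ b₁ θ) s h - C ≤ Vs D (bt b₀ b₁ τ) s h := by
    intro τ h hτ
    have h1 : |Vs D (bt b₀ b₁ τ) s h - Vs D (bt b₀ b₁ θ) s h| ≤ C * |τ - θ| := by
      have h2 := (convex_univ : Convex ℝ (Set.univ : Set ℝ)).norm_image_sub_le_of_norm_hasDerivWithin_le
        (f := fun θ => Vs D (bt b₀ b₁ θ) s h) (f' := fun τ => - Bt D (bt b₀ b₁ τ) u s h) (C := C)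
        (fun x _ => (hVd x h).hasDerivWithinAt) (fun x _ => by
          rw [norm_neg, Real.norm_eq_abs]
          exact hB x h) (Set.mem_univ θ) (Set.mem_univ τ)
      simpa [Real.norm_eq_abs] using h2
    have h3 : |τ - θ| ≤ 1 := by
      have := Metric.mem_ball.1 hτ
      rw [Real.dist_eq] at this
      exact this.le
    have h4 := (abs_le.1 h1).1
    nlinarith
  have gen : ∀ F : (D → ℝ) → ℝ, PG F → HasDerivAt (fun θ => Iv (Vs D (bt b₀ b₁ θ) s) F)
      (Iv (Vs D (bt b₀ b₁ θ) s) (fun h => F h * Bt D (bt b₀ b₁ θ) u s h)) θ := by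
    intro F hF
    have hcV : ∀ τ : ℝ, Continuous (Vs D (bt b₀ b₁ τ) s) := fun τ =>
      (Vs_temp D (bt b₀ b₁ τ) hs).1.continuous
    have hcB : Continuous (Bt D (bt b₀ b₁ θ) u s) := (Bt_temp D (bt b₀ b₁ θ) u hs).1.continuous
    have hexp : ∀ τ : ℝ, Measurable fun h : D → ℝ => Real.exp (- Vs D (bt b₀ b₁ τ) s h) :=
      fun τ => (Real.continuous_exp.comp (hcV τ).neg).measurable
    have hI := PG.int hV hF
    have h1 := hasDerivAt_integral_of_dominated_loc_of_deriv_le (μ := (volume : Measure (D → ℝ)))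
      (F := fun τ h => F h * Real.exp (- Vs D (bt b₀ b₁ τ) s h))
      (F' := fun τ h => F h * (Real.exp (- Vs D (bt b₀ b₁ τ) s h) *
        Bt D (bt b₀ b₁ τ) u s h)) (x₀ := θ) (s := Metric.ball θ 1)
      (bound := fun h => (C * Real.exp C) * |F h * Real.exp (- Vs D (bt b₀ b₁ θ) s h)|)
      (Metric.ball_mem_nhds θ one_pos)
      (Filter.Eventually.of_forall fun τ => (hF.1.mul (hexp τ)).aestronglyMeasurable)
      hI
      ((hF.1.mul ((hexp θ).mul hcB.measurable)).aestronglyMeasurable)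
      (ae_of_all _ fun h τ hτ => by
        rw [Real.norm_eq_abs, abs_mul, abs_mul, abs_mul, abs_of_pos (Real.exp_pos _),
          abs_of_pos (Real.exp_pos _)]
        have h2 : Real.exp (- Vs D (bt b₀ b₁ τ) s h) ≤
            Real.exp C * Real.exp (- Vs D (bt b₀ b₁ θ) s h) := by
          rw [← Real.exp_add]
          refine Real.exp_le_exp.2 ?_
          have := hlow τ h hτ
          linarith
        calc |F h| * (Real.exp (- Vs D (bt b₀ b₁ τ) s h) * |Bt D (bt b₀ b₁ τ) u s h|)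
            ≤ |F h| * ((Real.exp C * Real.exp (- Vs D (bt b₀ b₁ θ) s h)) * C) :=
              mul_le_mul_of_nonneg_left (mul_le_mul h2 (hB τ h) (abs_nonneg _) (by positivity))
                (abs_nonneg _)
          _ = C * Real.exp C * (|F h| * Real.exp (- Vs D (bt b₀ b₁ θ) s h)) := by ring)
      (hI.abs.const_mul _)
      (ae_of_all _ fun h τ _ => by
        have h2 := ((hVd τ h).neg.exp).const_mul (F h)
        simpa using h2)
    have h2 := h1.2
    have e : (∫ h, F h * (Real.exp (- Vs D (bt b₀ b₁ θ) s h) * Bt D (bt b₀ b₁ θ) u s h)) =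
        Iv (Vs D (bt b₀ b₁ θ) s) (fun h => F h * Bt D (bt b₀ b₁ θ) u s h) := by
      unfold Iv
      refine integral_congr_ae (ae_of_all _ fun h => ?_)
      simp only
      ring
    rw [← e]
    exact h2
  have hG1 := gen G hG
  have h11 := gen (fun _ => 1) (PG.const 1)
  have hpos := Iv_one_pos hV
  have h3 := hG1.div h11 hpos.ne'
  have e : Cv (Vs D (bt b₀ b₁ θ) s) G (Bt D (bt b₀ b₁ θ) u s) =
      (Iv (Vs D (bt b₀ b₁ θ) s) (fun h => G h * Bt D (bt b₀ b₁ θ) u s h) *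
          Iv (Vs D (bt b₀ b₁ θ) s) (fun _ => 1) -
        Iv (Vs D (bt b₀ b₁ θ) s) G *
          Iv (Vs D (bt b₀ b₁ θ) s) (fun h => 1 * Bt D (bt b₀ b₁ θ) u s h)) /
        Iv (Vs D (bt b₀ b₁ θ) s) (fun _ => 1) ^ 2 := by
    unfold Cv Ev
    have e1 : (fun h => 1 * Bt D (bt b₀ b₁ θ) u s h) = Bt D (bt b₀ b₁ θ) u s := by
      funext h
      rw [one_mul]
    rw [e1]
    field_simp
  rw [e]
  exact h3

/- END mdc -/

/- MODULE mdd
Limit `s → ∞`: dominated convergence.  `e^{-V_s} → 1_K` pointwise (on `K`: `0 ≤ V_s ≤ 6|D|/s`,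
`Vs_nonneg`, `Vs_K`; off `K` some `|∇| > 1` and `V_s ≥ s (|∇| - 1)`, `Us_ge`, `Us_nonneg`), domination
`e^{-V_s} ≤ e^{1/2 + 6|D| - ‖h‖}` (`Vs_low`); `Z D b > 0` (`Z_one_le`), `Mu = cond volume (K D b)`. -/
private theorem mdd_int (D : Finset (ℤ × ℤ)) (k : ℕ) :
    Integrable (fun h : D → ℝ =>
      (1 + ‖h‖) ^ k * Real.exp (1 / 2 + 6 * (D.card : ℝ) - ‖h‖)) := by
  have h1 : ∀ j : ℕ, Integrable (fun h : D → ℝ =>
      ‖h‖ ^ j * Real.exp (- 1 * (‖h‖ - (1 / 2 + 6 * (D.card : ℝ))))) := fun j =>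
    exp_int (V := fun h : D → ℝ => ‖h‖ - (1 / 2 + 6 * (D.card : ℝ)))
      (continuous_norm.sub continuous_const) (a := 1) (A := 1 / 2 + 6 * (D.card : ℝ)) one_pos
      (fun h => by rw [one_mul]) j one_pos
  have h2 : (fun h : D → ℝ => (1 + ‖h‖) ^ k * Real.exp (1 / 2 + 6 * (D.card : ℝ) - ‖h‖)) =
      fun h => ∑ j ∈ Finset.range (k + 1), (k.choose j : ℝ) *
        (‖h‖ ^ j * Real.exp (- 1 * (‖h‖ - (1 / 2 + 6 * (D.card : ℝ))))) := by
    funext h
    rw [add_comm (1 : ℝ) ‖h‖, add_pow, Finset.sum_mul]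
    refine Finset.sum_congr rfl fun j _ => ?_
    rw [one_pow, mul_one]
    have e : 1 / 2 + 6 * (D.card : ℝ) - ‖h‖ = - 1 * (‖h‖ - (1 / 2 + 6 * (D.card : ℝ))) := by ring
    rw [e]
    ring
  rw [h2]
  exact integrable_finsetSum _ fun j _ => (h1 j).const_mul _

private theorem mdd_bd {D : Finset (ℤ × ℤ)} {b : ℤ × ℤ → ℝ} (hb : ∀ z, |b z| ≤ 1 / 2) {s : ℝ}
    (hs : 1 ≤ s) {G : (D → ℝ) → ℝ} {C : ℝ} {k : ℕ} (hC : ∀ h, |G h| ≤ C * (1 + ‖h‖) ^ k)
    (h : D → ℝ) :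
    ‖G h * Real.exp (- Vs D b s h)‖ ≤
      |C| * (1 + ‖h‖) ^ k * Real.exp (1 / 2 + 6 * (D.card : ℝ) - ‖h‖) := by
  rw [Real.norm_eq_abs, abs_mul, abs_of_pos (Real.exp_pos _)]
  have h1 := Vs_low hb hs h
  have hp : 0 ≤ (1 + ‖h‖) ^ k := by positivity
  refine mul_le_mul ((hC h).trans (mul_le_mul_of_nonneg_right (le_abs_self C) hp))
    (Real.exp_le_exp.2 ?_) (Real.exp_pos _).le (by positivity)
  linarith

private theorem mdd_low {D : Finset (ℤ × ℤ)} {b : ℤ × ℤ → ℝ} (hb : ∀ z, |b z| ≤ 1 / 2) {s : ℝ}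
    (hs : 1 ≤ s) : Real.exp (-(6 * (D.card : ℝ))) ≤ Iv (Vs D b s) (fun _ => 1) := by
  have hVc : Continuous (Vs D b s) := (Vs_temp D b hs).1.continuous
  have hint : Integrable (fun h : D → ℝ => (1 : ℝ) * Real.exp (- Vs D b s h)) := by
    refine (mdd_int D 0).mono' (((continuous_const.mul
      (Real.continuous_exp.comp hVc.neg))).aestronglyMeasurable) (ae_of_all _ fun h => ?_)
    have h1 := mdd_bd (G := fun _ => 1) (C := 1) (k := 0) hb hs (fun h => by simp) h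
    simpa using h1
  have h1 : 1 ≤ Z D b := Z_one_le (fun z _ _ => hb z)
  have hZ : (1 : ℝ) ≤ (Z D b).toReal := by
    have h2 := Z_lt_top D b
    have := ENNReal.toReal_mono h2.ne h1
    simpa using this
  have hfin : volume (K D b) ≠ ⊤ := (Z_lt_top D b).ne
  calc Real.exp (-(6 * (D.card : ℝ)))
      ≤ (volume (K D b)).toReal * Real.exp (-(6 * (D.card : ℝ))) := by
        have : (1 : ℝ) ≤ (volume (K D b)).toReal := hZ
        nlinarith [Real.exp_pos (-(6 * (D.card : ℝ)))]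
    _ = ∫ _ in K D b, Real.exp (-(6 * (D.card : ℝ))) := by
        rw [setIntegral_const, smul_eq_mul]
        rfl
    _ ≤ ∫ h in K D b, (1 : ℝ) * Real.exp (- Vs D b s h) := by
        refine setIntegral_mono_on (integrableOn_const hfin) hint.integrableOn (K_meas D b)
          fun h hh => ?_
        rw [one_mul]
        refine Real.exp_le_exp.2 ?_
        have h2 := Vs_K hs hh
        have h3 : 6 * (D.card : ℝ) / s ≤ 6 * (D.card : ℝ) :=
          div_le_self (by positivity) hs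
        linarith
    _ ≤ ∫ h : D → ℝ, (1 : ℝ) * Real.exp (- Vs D b s h) :=
        setIntegral_le_integral hint (ae_of_all _ fun h => by positivity)

theorem Ev_lim {D : Finset (ℤ × ℤ)} {b : ℤ × ℤ → ℝ} (hb : ∀ z, |b z| ≤ 1 / 2) {G : (D → ℝ) → ℝ}
    (hG : PG G) : Tendsto (fun n : ℕ => Ev (Vs D b (n + 1)) G) atTop (𝓝 (∫ h, G h ∂(Mu D b))) := by
  have gen : ∀ F : (D → ℝ) → ℝ, PG F →
      Tendsto (fun n : ℕ => Iv (Vs D b (n + 1)) F) atTop (𝓝 (∫ h in K D b, F h)) := by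
    intro F hF
    obtain ⟨hFm, C, k, hC⟩ := hF
    rw [← integral_indicator (K_meas D b)]
    unfold Iv
    refine tendsto_integral_of_dominated_convergence
      (fun h => |C| * (1 + ‖h‖) ^ k * Real.exp (1 / 2 + 6 * (D.card : ℝ) - ‖h‖)) ?_ ?_ ?_ ?_
    · intro n
      have hn : (1 : ℝ) ≤ (n : ℝ) + 1 := by
        have := Nat.cast_nonneg (α := ℝ) n
        linarith
      have hVc : Continuous (Vs D b ((n : ℝ) + 1)) := (Vs_temp D b hn).1.continuous
      exact (hFm.mul (Real.continuous_exp.comp hVc.neg).measurable).aestronglyMeasurable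
    · simpa only [mul_assoc] using (mdd_int D k).const_mul |C|
    · intro n
      have hn : (1 : ℝ) ≤ (n : ℝ) + 1 := by
        have := Nat.cast_nonneg (α := ℝ) n
        linarith
      exact ae_of_all _ fun h => mdd_bd hb hn hC h
    · refine ae_of_all _ fun h => ?_
      by_cases hh : h ∈ K D b
      · rw [Set.indicator_of_mem hh]
        have h1 : Tendsto (fun n : ℕ => Vs D b ((n : ℝ) + 1) h) atTop (𝓝 0) := by
          have h2 : Tendsto (fun n : ℕ => 6 * (D.card : ℝ) / ((n : ℝ) + 1)) atTop (𝓝 0) :=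
            tendsto_const_nhds.div_atTop
              (tendsto_atTop_add_const_right _ 1 tendsto_natCast_atTop_atTop)
          refine squeeze_zero (fun n => ?_) (fun n => ?_) h2
          · have hn : (1 : ℝ) ≤ (n : ℝ) + 1 := by
              have := Nat.cast_nonneg (α := ℝ) n
              linarith
            exact Vs_nonneg D b hn h
          · have hn : (1 : ℝ) ≤ (n : ℝ) + 1 := by
              have := Nat.cast_nonneg (α := ℝ) n
              linarith
            exact Vs_K hn hh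
        have h3 : Tendsto (fun n : ℕ => F h * Real.exp (- Vs D b ((n : ℝ) + 1) h)) atTop
            (𝓝 (F h * Real.exp (- 0))) :=
          tendsto_const_nhds.mul ((Real.continuous_exp.tendsto _).comp h1.neg)
        rw [neg_zero, Real.exp_zero, mul_one] at h3
        exact h3
      · rw [Set.indicator_of_notMem hh]
        have h0 : ∃ x ∈ D, ∃ i : Fin 6, 1 < |gl D b h x - gl D b h (x + st i)| := by
          by_contra hcon
          push Not at hcon
          exact hh fun x hx i => hcon x hx i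
        obtain ⟨x, hx, i, hxi⟩ := h0
        have h1 : Tendsto (fun n : ℕ => Vs D b ((n : ℝ) + 1) h) atTop atTop := by
          have h2 : Tendsto (fun n : ℕ => ((n : ℝ) + 1) *
              (|gl D b h x - gl D b h (x + st i)| - 1)) atTop atTop :=
            (tendsto_atTop_add_const_right _ 1 tendsto_natCast_atTop_atTop).atTop_mul_const
              (by linarith)
          refine tendsto_atTop_mono (fun n => ?_) h2
          have hn : (1 : ℝ) ≤ (n : ℝ) + 1 := by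
            have := Nat.cast_nonneg (α := ℝ) n
            linarith
          refine (Us_ge hn _).trans ?_
          unfold Vs
          have h3 : Us ((n : ℝ) + 1) (gl D b h x - gl D b h (x + st i)) ≤
              ∑ i : Fin 6, Us ((n : ℝ) + 1) (gl D b h x - gl D b h (x + st i)) :=
            Finset.single_le_sum (f := fun i : Fin 6 =>
              Us ((n : ℝ) + 1) (gl D b h x - gl D b h (x + st i)))
              (fun i _ => Us_nonneg hn _) (Finset.mem_univ i)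
          exact h3.trans (Finset.single_le_sum (f := fun x =>
            ∑ i : Fin 6, Us ((n : ℝ) + 1) (gl D b h x - gl D b h (x + st i)))
            (fun x _ => Finset.sum_nonneg fun i _ => Us_nonneg hn _) hx)
        have h4 : Tendsto (fun n : ℕ => F h * Real.exp (- Vs D b ((n : ℝ) + 1) h)) atTop
            (𝓝 (F h * 0)) :=
          tendsto_const_nhds.mul (Real.tendsto_exp_neg_atTop_nhds_zero.comp h1)
        rw [mul_zero] at h4
        exact h4
  have hfin : volume (K D b) ≠ ⊤ := (Z_lt_top D b).ne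
  have h1 : (1 : ℝ≥0∞) ≤ Z D b := Z_one_le (fun z _ _ => hb z)
  have hZ : (1 : ℝ) ≤ (volume (K D b)).toReal := by
    have := ENNReal.toReal_mono hfin h1
    simpa using this
  have h2 := (gen G hG).div (gen (fun _ => 1) (PG.const 1)) (by
    rw [setIntegral_const, smul_eq_mul, mul_one]
    have : (0 : ℝ) < (volume (K D b)).toReal := by linarith
    exact this.ne')
  have e : ∫ h, G h ∂(Mu D b) = (∫ h in K D b, G h) / ∫ _ in K D b, (1 : ℝ) := by
    unfold Mu ProbabilityTheory.cond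
    rw [integral_smul_measure, setIntegral_const, smul_eq_mul, smul_eq_mul, mul_one,
      ENNReal.toReal_inv]
    have e2 : volume.real (K D b) = (volume (K D b)).toReal := rfl
    rw [e2, div_eq_inv_mul]
  rw [e]
  exact h2

/- END mdd -/

/- MODULE mde
Uniform bound: for `|b| ≤ 1/2`, `s ≥ 1`: `Iv 1 ≥ e^{-6|D|} vol(K) ≥ e^{-6|D|}` (`Vs_K`, `Z_one_le`) and
`e^{-V} ≤ e^{1/2 + 6|D| - ‖h‖}`. -/
theorem Ev_unif (D : Finset (ℤ × ℤ)) {G : (D → ℝ) → ℝ} (hG : PG G) :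
    ∃ C : ℝ, ∀ b : ℤ × ℤ → ℝ, (∀ z, |b z| ≤ 1 / 2) → ∀ s : ℝ, 1 ≤ s → |Ev (Vs D b s) G| ≤ C := by
  obtain ⟨hGm, C, k, hC⟩ := hG
  have hint := mdd_int D k
  set A : ℝ := ∫ h : D → ℝ, |C| * (1 + ‖h‖) ^ k * Real.exp (1 / 2 + 6 * (D.card : ℝ) - ‖h‖)
    with hA
  have hA0 : 0 ≤ A := integral_nonneg fun h => by positivity
  refine ⟨A / Real.exp (-(6 * (D.card : ℝ))), fun b hb s hs => ?_⟩
  have h1 : |Iv (Vs D b s) G| ≤ A := by
    have h2 : ‖∫ h, G h * Real.exp (- Vs D b s h)‖ ≤ A := by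
      refine norm_integral_le_of_norm_le ?_ (ae_of_all _ fun h => ?_)
      · simpa only [mul_assoc] using hint.const_mul |C|
      · exact mdd_bd hb hs hC h
    rw [Real.norm_eq_abs] at h2
    exact h2
  have h3 : Real.exp (-(6 * (D.card : ℝ))) ≤ Iv (Vs D b s) (fun _ => 1) := mdd_low hb hs
  have h4 : 0 < Iv (Vs D b s) (fun _ => 1) := lt_of_lt_of_le (Real.exp_pos _) h3
  unfold Ev
  rw [abs_div, abs_of_pos h4]
  exact div_le_div₀ hA0 h1 (Real.exp_pos _) h3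

/- END mde -/

/- MODULE mdf
`Us2 s r ≤ C s⁻³` for `|r| ≤ 1 - ε`: `Us2 s r = (s/2) s⁻⁴ ((..)^{-3} + (..)^{-3})` with both square
roots `≥ ε`.  Hence `Td` tends to `0` uniformly if `ψ_x = ψ_y` on `|h_x - h_y| ≥ 1 - ε`. -/
theorem Us2_far {ε : ℝ} (hε : 0 < ε) {s : ℝ} (hs : 1 ≤ s) {r : ℝ} (hr : |r| ≤ 1 - ε) :
    Us2 s r ≤ 1 / (s ^ 3 * ε ^ 3) := by
  have hs0 : (0 : ℝ) < s := by linarith
  have h0 : 0 < 1 / s ^ 4 := by positivity
  have habs := abs_le.1 hr
  have hA : ε ≤ Real.sqrt ((r - 1) ^ 2 + 1 / s ^ 4) := by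
    refine Real.le_sqrt_of_sq_le ?_
    nlinarith [habs.2]
  have hB : ε ≤ Real.sqrt ((r + 1) ^ 2 + 1 / s ^ 4) := by
    refine Real.le_sqrt_of_sq_le ?_
    nlinarith [habs.1]
  have hA3 : 1 / Real.sqrt ((r - 1) ^ 2 + 1 / s ^ 4) ^ 3 ≤ 1 / ε ^ 3 :=
    one_div_le_one_div_of_le (by positivity) (pow_le_pow_left₀ hε.le hA 3)
  have hB3 : 1 / Real.sqrt ((r + 1) ^ 2 + 1 / s ^ 4) ^ 3 ≤ 1 / ε ^ 3 :=
    one_div_le_one_div_of_le (by positivity) (pow_le_pow_left₀ hε.le hB 3)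
  unfold Us2
  calc s / 2 * (1 / s ^ 4) * (1 / Real.sqrt ((r - 1) ^ 2 + 1 / s ^ 4) ^ 3 +
        1 / Real.sqrt ((r + 1) ^ 2 + 1 / s ^ 4) ^ 3)
      ≤ s / 2 * (1 / s ^ 4) * (1 / ε ^ 3 + 1 / ε ^ 3) :=
        mul_le_mul_of_nonneg_left (add_le_add hA3 hB3) (by positivity)
    _ = 1 / (s ^ 3 * ε ^ 3) := by
        field_simp
        ring

theorem Td_le {D : Finset (ℤ × ℤ)} {ψ : D → (D → ℝ) → ℝ} (hψ : ∀ x, BS (ψ x)) {ε : ℝ}
    (hε : 0 < ε) (ht : ∀ x y : D, (∃ i, (y : ℤ × ℤ) = x + st i) → ∀ h : D → ℝ,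
      1 - ε ≤ |h x - h y| → ψ x h = ψ y h) :
    ∃ C : ℝ, ∀ s : ℝ, 1 ≤ s → ∀ h : D → ℝ, 0 ≤ Td D s ψ h ∧ Td D s ψ h ≤ C / s ^ 3 := by
  classical
  choose C hC using fun x => (hψ x).bd
  set M : ℝ := ∑ x : D, |C x| with hM
  have hM0 : 0 ≤ M := Finset.sum_nonneg fun _ _ => abs_nonneg _
  have hMx : ∀ (x : D) (h : D → ℝ), |ψ x h| ≤ M := fun x h =>
    ((hC x h).trans (le_abs_self _)).trans
      (Finset.single_le_sum (f := fun x : D => |C x|) (fun _ _ => abs_nonneg _)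
        (Finset.mem_univ x))
  refine ⟨(D.card : ℝ) * (6 * (4 * M ^ 2 / ε ^ 3)), fun s hs h => ?_⟩
  have hs0 : (0 : ℝ) < s := by linarith
  have key : ∀ x ∈ D, ∀ i : Fin 6,
      0 ≤ (if x + st i ∈ D then
        Us2 s (g0 D h x - g0 D h (x + st i)) *
          (g0 D (fun z => ψ z h) x - g0 D (fun z => ψ z h) (x + st i)) ^ 2 else 0) ∧
      (if x + st i ∈ D then
        Us2 s (g0 D h x - g0 D h (x + st i)) *
          (g0 D (fun z => ψ z h) x - g0 D (fun z => ψ z h) (x + st i)) ^ 2 else 0) ≤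
        4 * M ^ 2 / ε ^ 3 / s ^ 3 := by
    intro x hx i
    have hnn : 0 ≤ 4 * M ^ 2 / ε ^ 3 / s ^ 3 := by positivity
    split_ifs with hy
    · have e1 : g0 D h x = h ⟨x, hx⟩ := by unfold g0; exact gl_mem hx
      have e2 : g0 D h (x + st i) = h ⟨x + st i, hy⟩ := by unfold g0; exact gl_mem hy
      have e3 : g0 D (fun z => ψ z h) x = ψ ⟨x, hx⟩ h := by unfold g0; exact gl_mem hx
      have e4 : g0 D (fun z => ψ z h) (x + st i) = ψ ⟨x + st i, hy⟩ h := by
        unfold g0; exact gl_mem hy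
      rw [e1, e2, e3, e4]
      refine ⟨mul_nonneg (Us2_nonneg hs _) (sq_nonneg _), ?_⟩
      rcases le_or_gt (1 - ε) |h ⟨x, hx⟩ - h ⟨x + st i, hy⟩| with hc | hc
      · rw [ht ⟨x, hx⟩ ⟨x + st i, hy⟩ ⟨i, rfl⟩ h hc, sub_self]
        simpa using hnn
      · have h1 := Us2_far hε hs hc.le
        have h2 : (ψ ⟨x, hx⟩ h - ψ ⟨x + st i, hy⟩ h) ^ 2 ≤ 4 * M ^ 2 := by
          have h3 : |ψ ⟨x, hx⟩ h - ψ ⟨x + st i, hy⟩ h| ≤ 2 * M := by
            have := abs_sub (ψ ⟨x, hx⟩ h) (ψ ⟨x + st i, hy⟩ h)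
            linarith [hMx ⟨x, hx⟩ h, hMx ⟨x + st i, hy⟩ h]
          calc (ψ ⟨x, hx⟩ h - ψ ⟨x + st i, hy⟩ h) ^ 2
              = |ψ ⟨x, hx⟩ h - ψ ⟨x + st i, hy⟩ h| ^ 2 := (sq_abs _).symm
            _ ≤ (2 * M) ^ 2 := pow_le_pow_left₀ (abs_nonneg _) h3 2
            _ = 4 * M ^ 2 := by ring
        calc Us2 s (h ⟨x, hx⟩ - h ⟨x + st i, hy⟩) *
              (ψ ⟨x, hx⟩ h - ψ ⟨x + st i, hy⟩ h) ^ 2
            ≤ 1 / (s ^ 3 * ε ^ 3) * (4 * M ^ 2) :=
              mul_le_mul h1 h2 (sq_nonneg _) (by positivity)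
          _ = 4 * M ^ 2 / ε ^ 3 / s ^ 3 := by
              field_simp
    · exact ⟨le_rfl, hnn⟩
  unfold Td
  refine ⟨Finset.sum_nonneg fun x hx => Finset.sum_nonneg fun i _ => (key x hx i).1, ?_⟩
  calc _ ≤ ∑ x ∈ D, ∑ _i : Fin 6, 4 * M ^ 2 / ε ^ 3 / s ^ 3 :=
        Finset.sum_le_sum fun x hx => Finset.sum_le_sum fun i _ => (key x hx i).2
    _ = (D.card : ℝ) * (6 * (4 * M ^ 2 / ε ^ 3)) / s ^ 3 := by
        rw [Finset.sum_const, Finset.sum_const, Finset.card_univ, Fintype.card_fin,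
          nsmul_eq_mul, nsmul_eq_mul]
        push_cast
        ring

/- END mdf -/

end Pool.Agent.Hmk.Mn
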