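import Pool.Agent.Hmk.MnHs

/-!
# Hmk, second part: response fields of the soft model (helper70)
-/

set_option autoImplicit false

open MeasureTheory Set Filter

open scoped ENNReal SchwartzMap ContDiff Topology

noncomputable section

namespace Pool.Agent.Hmk.Mn

/- MODULE mca
The soft potential is admissible (`Vs_temp`, `Vs_Wf`, `Vs_low`; the Hessian is bounded by
`Us2 ≤ s^3`), `Bt` is smooth, bounded, of temperate growth; its derivatives. -/
private def mca_ev (D : Finset (ℤ × ℤ)) (z : ℤ × ℤ) : (D → ℝ) →L[ℝ] ℝ :=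
  if hz : z ∈ D then ContinuousLinearMap.proj (⟨z, hz⟩ : D) else 0

private theorem mca_g0 (D : Finset (ℤ × ℤ)) (k : D → ℝ) (z : ℤ × ℤ) : g0 D k z = mca_ev D z k := by
  unfold g0 gl mca_ev
  split_ifs <;> simp

private theorem mca_gl (D : Finset (ℤ × ℤ)) (b : ℤ × ℤ → ℝ) (h : D → ℝ) (z : ℤ × ℤ) :
    gl D b h z = mca_ev D z h + gl D b 0 z := by
  unfold gl mca_ev
  split_ifs <;> simp

private theorem mca_hd (D : Finset (ℤ × ℤ)) (b : ℤ × ℤ → ℝ) (h : D → ℝ) (x y : ℤ × ℤ) :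
    HasFDerivAt (fun h : D → ℝ => gl D b h x - gl D b h y) (mca_ev D x - mca_ev D y) h := by
  have h2 := ((mca_ev D x - mca_ev D y).hasFDerivAt (x := h)).add_const
    (gl D b 0 x - gl D b 0 y)
  refine h2.congr_of_eventuallyEq (Filter.Eventually.of_forall fun k => ?_)
  show gl D b k x - gl D b k y = (mca_ev D x - mca_ev D y) k + (gl D b 0 x - gl D b 0 y)
  rw [mca_gl D b k x, mca_gl D b k y]
  simp only [_root_.sub_apply]
  ring

private theorem mca_temp (D : Finset (ℤ × ℤ)) (b : ℤ × ℤ → ℝ) (x y : ℤ × ℤ) :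
    (fun h : D → ℝ => gl D b h x - gl D b h y).HasTemperateGrowth := by
  have h2 : (fun h : D → ℝ => (mca_ev D x - mca_ev D y) h +
      (gl D b 0 x - gl D b 0 y)).HasTemperateGrowth :=
    (mca_ev D x - mca_ev D y).hasTemperateGrowth.fun_add (Function.HasTemperateGrowth.const _)
  have h3 : (fun h : D → ℝ => gl D b h x - gl D b h y) =
      fun h : D → ℝ => (mca_ev D x - mca_ev D y) h + (gl D b 0 x - gl D b 0 y) := by
    funext k
    rw [mca_gl D b k x, mca_gl D b k y]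
    simp only [_root_.sub_apply]
    ring
  rw [h3]
  exact h2

private theorem mca_U1 {s : ℝ} (hs : 1 ≤ s) : (Us1 s).HasTemperateGrowth := by
  have hV := Us_temp hs
  have h1 : (fderiv ℝ (Us s)).HasTemperateGrowth := by
    refine ⟨hV.1.fderiv_right (by simp), fun n => ?_⟩
    obtain ⟨k, C, h⟩ := hV.2 (n + 1)
    refine ⟨k, C, fun y => ?_⟩
    rw [norm_iteratedFDeriv_fderiv]
    exact h y
  have h2 : (ContinuousLinearMap.apply ℝ ℝ (1 : ℝ)).toFun.HasTemperateGrowth :=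
    (ContinuousLinearMap.apply ℝ ℝ (1 : ℝ)).hasTemperateGrowth
  have h3 := h2.comp h1
  have h4 : Us1 s = (ContinuousLinearMap.apply ℝ ℝ (1 : ℝ)).toFun ∘ fderiv ℝ (Us s) := by
    funext z
    show Us1 s z = fderiv ℝ (Us s) z 1
    rw [← (Us_deriv hs z).deriv]
    exact (fderiv_apply_one_eq_deriv).symm
  rw [h4]
  exact h3

private theorem mca_pd2 (D : Finset (ℤ × ℤ)) (b : ℤ × ℤ → ℝ) {s : ℝ} (hs : 1 ≤ s) (x y : D)
    (h : D → ℝ) : pd y (pd x (Vs D b s)) h =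
      ∑ z ∈ D, ∑ i, Us2 s (gl D b h z - gl D b h (z + st i)) *
        (g0 D (Pi.single x 1) z - g0 D (Pi.single x 1) (z + st i)) *
        (g0 D (Pi.single y 1) z - g0 D (Pi.single y 1) (z + st i)) := by
  have h0 : pd x (Vs D b s) = fun h : D → ℝ =>
      ∑ z ∈ D, ∑ i, Us1 s (gl D b h z - gl D b h (z + st i)) *
        (g0 D (Pi.single x 1) z - g0 D (Pi.single x 1) (z + st i)) :=
    funext fun h => Vs_fderiv D b hs h (Pi.single x 1)
  have h1 : HasFDerivAt (fun h : D → ℝ =>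
      ∑ z ∈ D, ∑ i, Us1 s (gl D b h z - gl D b h (z + st i)) *
        (g0 D (Pi.single x 1) z - g0 D (Pi.single x 1) (z + st i)))
      (∑ z ∈ D, ∑ i, (g0 D (Pi.single x 1) z - g0 D (Pi.single x 1) (z + st i)) •
        (Us2 s (gl D b h z - gl D b h (z + st i)) • (mca_ev D z - mca_ev D (z + st i)))) h := by
    refine HasFDerivAt.fun_sum fun z _ => HasFDerivAt.fun_sum fun i _ => ?_
    exact ((Us1_deriv hs _).comp_hasFDerivAt h (mca_hd D b h z (z + st i))).mul_const _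
  unfold pd at *
  rw [h0, h1.fderiv]
  simp only [_root_.sum_apply, _root_.smul_apply,
    _root_.sub_apply, smul_eq_mul, mca_g0]
  refine Finset.sum_congr rfl fun z _ => Finset.sum_congr rfl fun i _ => ?_
  ring

private theorem mca_abs (D : Finset (ℤ × ℤ)) (x : D) (z z' : ℤ × ℤ) :
    |g0 D (Pi.single x 1) z - g0 D (Pi.single x 1) z'| ≤ 1 := by
  have h1 : ∀ y, 0 ≤ g0 D (Pi.single x 1) y ∧ g0 D (Pi.single x 1) y ≤ 1 := by
    intro y
    unfold g0 gl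
    split_ifs with hy
    · rw [Pi.single_apply]
      split_ifs <;> norm_num
    · norm_num
  have h2 := h1 z
  have h3 := h1 z'
  rw [abs_le]
  constructor <;> linarith [h2.1, h2.2, h3.1, h3.2]

theorem Pot_Vs {D : Finset (ℤ × ℤ)} {b : ℤ × ℤ → ℝ} (hb : ∀ z, |b z| ≤ 1 / 2) {s : ℝ}
    (hs : 1 ≤ s) : Pot (Vs D b s) := by
  refine ⟨Vs_temp D b hs, Vs_Wf D b hs, ⟨∑ _z ∈ D, ∑ _i : Fin 6, s ^ 3, fun x y h => ?_⟩,
    ⟨1, 1 / 2 + 6 * (D.card : ℝ), one_pos, fun h => Vs_low hb hs h⟩⟩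
  rw [mca_pd2 D b hs x y h]
  refine (Finset.abs_sum_le_sum_abs _ _).trans (Finset.sum_le_sum fun z _ => ?_)
  refine (Finset.abs_sum_le_sum_abs _ _).trans (Finset.sum_le_sum fun i _ => ?_)
  rw [abs_mul, abs_mul, abs_of_nonneg (Us2_nonneg hs _)]
  calc Us2 s (gl D b h z - gl D b h (z + st i)) *
        |g0 D (Pi.single x 1) z - g0 D (Pi.single x 1) (z + st i)| *
        |g0 D (Pi.single y 1) z - g0 D (Pi.single y 1) (z + st i)| ≤ s ^ 3 * 1 * 1 :=
        mul_le_mul (mul_le_mul (Us2_le hs _) (mca_abs D x _ _) (abs_nonneg _) (by positivity))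
          (mca_abs D y _ _) (abs_nonneg _) (by positivity)
    _ = s ^ 3 := by ring

theorem Bt_temp (D : Finset (ℤ × ℤ)) (b u : ℤ × ℤ → ℝ) {s : ℝ} (hs : 1 ≤ s) :
    (Bt D b u s).HasTemperateGrowth := by
  have h1 : ∀ (x : ℤ × ℤ) (i : Fin 6), (fun h : D → ℝ => if x + st i ∈ D then 0 else
      u (x + st i) * Us1 s (gl D b h x - gl D b h (x + st i))).HasTemperateGrowth := by
    intro x i
    by_cases hx : x + st i ∈ D
    · simp only [hx, if_true]
      exact Function.HasTemperateGrowth.const _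
    · simp only [hx, if_false]
      exact (Function.HasTemperateGrowth.const (E := D → ℝ) (u (x + st i))).mul
        ((mca_U1 hs).comp (mca_temp D b x (x + st i)))
  have h4 : ∀ x ∈ D, (fun h : D → ℝ => ∑ i ∈ (Finset.univ : Finset (Fin 6)),
      if x + st i ∈ D then 0 else
      u (x + st i) * Us1 s (gl D b h x - gl D b h (x + st i))).HasTemperateGrowth := fun x _ =>
    Function.HasTemperateGrowth.sum (s := (Finset.univ : Finset (Fin 6)))
      (f := fun i (h : D → ℝ) => if x + st i ∈ D then 0 else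
      u (x + st i) * Us1 s (gl D b h x - gl D b h (x + st i)))
      (fun i _ => h1 x i)
  exact Function.HasTemperateGrowth.sum (s := D)
    (f := fun x (h : D → ℝ) => ∑ i, if x + st i ∈ D then 0 else
      u (x + st i) * Us1 s (gl D b h x - gl D b h (x + st i))) h4

theorem Bt_bdd (D : Finset (ℤ × ℤ)) (b u : ℤ × ℤ → ℝ) {s : ℝ} (hs : 1 ≤ s) :
    ∃ C : ℝ, ∀ h, |Bt D b u s h| ≤ C := by
  refine ⟨∑ x ∈ D, ∑ i : Fin 6, |u (x + st i)| * s, fun h => ?_⟩
  unfold Bt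
  refine (Finset.abs_sum_le_sum_abs _ _).trans (Finset.sum_le_sum fun x _ => ?_)
  refine (Finset.abs_sum_le_sum_abs _ _).trans (Finset.sum_le_sum fun i _ => ?_)
  split_ifs
  · rw [abs_zero]
    positivity
  · rw [abs_mul]
    exact mul_le_mul_of_nonneg_left (Us1_abs hs _) (abs_nonneg _)

theorem pd_Bt (D : Finset (ℤ × ℤ)) (b u : ℤ × ℤ → ℝ) {s : ℝ} (hs : 1 ≤ s) (x : D) (h : D → ℝ) :
    pd x (Bt D b u s) h = ∑ i, if (x : ℤ × ℤ) + st i ∈ D then 0 else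
      u ((x : ℤ × ℤ) + st i) * Us2 s (gl D b h x - gl D b h ((x : ℤ × ℤ) + st i)) := by
  have h1 : HasFDerivAt (Bt D b u s)
      (∑ z ∈ D, ∑ i, if z + st i ∈ D then 0 else
        u (z + st i) • (Us2 s (gl D b h z - gl D b h (z + st i)) •
          (mca_ev D z - mca_ev D (z + st i)))) h := by
    unfold Bt
    refine HasFDerivAt.fun_sum fun z _ => HasFDerivAt.fun_sum fun i _ => ?_
    split_ifs
    · exact hasFDerivAt_const _ _
    · exact ((Us1_deriv hs _).comp_hasFDerivAt h (mca_hd D b h z (z + st i))).const_mul _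
  unfold pd
  rw [h1.fderiv, _root_.sum_apply]
  rw [Finset.sum_eq_single_of_mem (x : ℤ × ℤ) x.2]
  · rw [_root_.sum_apply]
    refine Finset.sum_congr rfl fun i _ => ?_
    split_ifs with hi
    · rfl
    · simp only [_root_.smul_apply, _root_.sub_apply, smul_eq_mul]
      have e1 : mca_ev D (x : ℤ × ℤ) (Pi.single x 1) = 1 := by
        unfold mca_ev
        simp
      have e2 : mca_ev D ((x : ℤ × ℤ) + st i) (Pi.single x 1) = 0 := by
        unfold mca_ev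
        simp [hi]
      rw [e1, e2]
      ring
  · intro z hz hzx
    rw [_root_.sum_apply]
    refine Finset.sum_eq_zero fun i _ => ?_
    split_ifs with hi
    · rfl
    · simp only [_root_.smul_apply, _root_.sub_apply, smul_eq_mul]
      have e1 : mca_ev D z (Pi.single x 1) = 0 := by
        unfold mca_ev
        have : (⟨z, hz⟩ : D) ≠ x := fun h => hzx (congrArg Subtype.val h)
        simp [hz, this]
      have e2 : mca_ev D (z + st i) (Pi.single x 1) = 0 := by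
        unfold mca_ev
        simp [hi]
      rw [e1, e2]
      ring

theorem Bt_fok (D : Finset (ℤ × ℤ)) (b u : ℤ × ℤ → ℝ) {s : ℝ} (hs : 1 ≤ s) :
    ∃ C : ℝ, Hgf.Fok (Bt D b u s) C := by
  refine ⟨∑ x ∈ D, ∑ i : Fin 6, |u (x + st i)| * s ^ 3, Bt_temp D b u hs, fun x h => ?_⟩
  rw [pd_Bt D b u hs x h]
  have h1 : |∑ i : Fin 6, if (x : ℤ × ℤ) + st i ∈ D then 0 else
      u ((x : ℤ × ℤ) + st i) * Us2 s (gl D b h x - gl D b h ((x : ℤ × ℤ) + st i))| ≤
      ∑ i : Fin 6, |u ((x : ℤ × ℤ) + st i)| * s ^ 3 := by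
    refine (Finset.abs_sum_le_sum_abs _ _).trans (Finset.sum_le_sum fun i _ => ?_)
    split_ifs
    · rw [abs_zero]
      positivity
    · rw [abs_mul, abs_of_nonneg (Us2_nonneg hs _)]
      exact mul_le_mul_of_nonneg_left (Us2_le hs _) (abs_nonneg _)
  refine h1.trans ?_
  exact Finset.single_le_sum (f := fun z : ℤ × ℤ => ∑ i : Fin 6, |u (z + st i)| * s ^ 3)
    (fun z _ => Finset.sum_nonneg fun i _ => by positivity) x.2

/- END mca -/

/- MODULE mcb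
Polarised form of the library theorem `Vs_hess` (polarisation, `pd_symm`). -/
private theorem mcb_add (D : Finset (ℤ × ℤ)) (v w : D → ℝ) (z : ℤ × ℤ) :
    g0 D (v + w) z = g0 D v z + g0 D w z := by
  unfold g0 gl
  split_ifs <;> simp

theorem Vs_hess2 (D : Finset (ℤ × ℤ)) (b : ℤ × ℤ → ℝ) {s : ℝ} (hs : 1 ≤ s) (h v w : D → ℝ) :
    ∑ x, ∑ y, pd y (pd x (Vs D b s)) h * v x * w y =
      ∑ x ∈ D, ∑ i, Us2 s (gl D b h x - gl D b h (x + st i)) *
        ((g0 D v x - g0 D v (x + st i)) * (g0 D w x - g0 D w (x + st i))) := by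
  have h1 := Vs_hess D b hs h (v + w)
  have h2 := Vs_hess D b hs h v
  have h3 := Vs_hess D b hs h w
  have hsym : ∑ x, ∑ y, pd y (pd x (Vs D b s)) h * w x * v y =
      ∑ x, ∑ y, pd y (pd x (Vs D b s)) h * v x * w y := by
    rw [Finset.sum_comm]
    refine Finset.sum_congr rfl fun x _ => Finset.sum_congr rfl fun y _ => ?_
    rw [pd_symm (((Vs_temp D b hs).1).of_le (by norm_cast)) y x h]
    ring
  have e1 : ∑ x, ∑ y, pd y (pd x (Vs D b s)) h * (v + w) x * (v + w) y =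
      (∑ x, ∑ y, pd y (pd x (Vs D b s)) h * v x * v y) +
      (∑ x, ∑ y, pd y (pd x (Vs D b s)) h * w x * w y) +
      (∑ x, ∑ y, pd y (pd x (Vs D b s)) h * v x * w y) +
      (∑ x, ∑ y, pd y (pd x (Vs D b s)) h * w x * v y) := by
    simp only [← Finset.sum_add_distrib]
    refine Finset.sum_congr rfl fun x _ => Finset.sum_congr rfl fun y _ => ?_
    simp only [Pi.add_apply]
    ring
  have e2 : ∑ x ∈ D, ∑ i, Us2 s (gl D b h x - gl D b h (x + st i)) *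
        (g0 D (v + w) x - g0 D (v + w) (x + st i)) ^ 2 =
      (∑ x ∈ D, ∑ i, Us2 s (gl D b h x - gl D b h (x + st i)) *
        (g0 D v x - g0 D v (x + st i)) ^ 2) +
      (∑ x ∈ D, ∑ i, Us2 s (gl D b h x - gl D b h (x + st i)) *
        (g0 D w x - g0 D w (x + st i)) ^ 2) +
      2 * (∑ x ∈ D, ∑ i, Us2 s (gl D b h x - gl D b h (x + st i)) *
        ((g0 D v x - g0 D v (x + st i)) * (g0 D w x - g0 D w (x + st i)))) := by
    simp only [Finset.mul_sum, ← Finset.sum_add_distrib]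
    refine Finset.sum_congr rfl fun x _ => Finset.sum_congr rfl fun i _ => ?_
    rw [mcb_add, mcb_add]
    ring
  rw [e1, e2, hsym, h2, h3] at h1
  linarith

/- END mcb -/

/- MODULE mcc
Truncation increases the functional.  Pointwise in `h`, with `W = w` on `D`, `W = u` off `D`:
`∑∑ V_xy w_x w_y - 2 ∑ (d_x Bt) w_x = ∑_{x ∈ D, i} Us2 ((W_x - W_{x+st i})² - [x + st i ∉ D] u²)`
(`Vs_hess`, `pd_Bt`), which decreases when `w` is replaced by `T ∘ w` (`T u = u` since `|u| ≤ 1`,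
`T` is 1-Lipschitz), and `|d_y (T ∘ w_x)| = |T' d_y w_x| ≤ |d_y w_x|`. -/
private theorem mcc_id (D : Finset (ℤ × ℤ)) (b u : ℤ × ℤ → ℝ) {s : ℝ} (hs : 1 ≤ s)
    (h k : D → ℝ) :
    ∑ x, ∑ y, pd y (pd x (Vs D b s)) h * k x * k y - 2 * ∑ x, pd x (Bt D b u s) h * k x =
      ∑ x ∈ D, ∑ i, Us2 s (gl D b h x - gl D b h (x + st i)) *
        ((gl D u k x - gl D u k (x + st i)) ^ 2 -
          if x + st i ∈ D then 0 else u (x + st i) ^ 2) := by
  rw [Vs_hess D b hs h k]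
  have h1 : ∑ x, pd x (Bt D b u s) h * k x = ∑ x ∈ D, ∑ i, (if x + st i ∈ D then 0 else
      u (x + st i) * Us2 s (gl D b h x - gl D b h (x + st i))) * gl D u k x := by
    rw [← Finset.sum_coe_sort D]
    refine Finset.sum_congr rfl fun x _ => ?_
    rw [pd_Bt D b u hs x h, Finset.sum_mul]
    have e : gl D u k (x : ℤ × ℤ) = k x := by
      unfold gl
      simp
    simp only [e]
  rw [h1, Finset.mul_sum, ← Finset.sum_sub_distrib]
  refine Finset.sum_congr rfl fun x hx => ?_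
  rw [Finset.mul_sum, ← Finset.sum_sub_distrib]
  refine Finset.sum_congr rfl fun i _ => ?_
  have e1 : g0 D k x = gl D u k x := by
    unfold g0 gl
    simp [hx]
  rw [e1]
  by_cases hi : x + st i ∈ D
  · have e2 : g0 D k (x + st i) = gl D u k (x + st i) := by
      unfold g0 gl
      simp [hi]
    rw [e2, if_pos hi, if_pos hi]
    ring
  · have e2 : g0 D k (x + st i) = 0 := by
      unfold g0 gl
      simp [hi]
    have e3 : gl D u k (x + st i) = u (x + st i) := by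
      unfold gl
      simp [hi]
    rw [e2, e3, if_neg hi, if_neg hi]
    ring

private theorem mcc_pg {ι : Type*} [Fintype ι] [DecidableEq ι] {V : (ι → ℝ) → ℝ} (hV : Pot V)
    {v w : ι → (ι → ℝ) → ℝ} (hv : ∀ x, CS (v x)) (hw : ∀ x, CS (w x)) :
    PG (fun h => (∑ x, ∑ y, pd y (v x) h * pd y (w x) h) +
      ∑ x, ∑ y, pd y (pd x V) h * v x h * w y h) := by
  refine PG.add (PG.sum _ fun x _ => PG.sum _ fun y _ => ?_)
    (PG.sum _ fun x _ => PG.sum _ fun y _ => ?_)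
  · exact (PG.of_CS ((hv x).pd y)).mul (PG.of_CS ((hw x).pd y))
  · exact ((PG.of_temp (pd_temp (pd_temp hV.temp x) y)).mul (PG.of_CS (hv x))).mul
      (PG.of_CS (hw y))

private theorem mcc_pg1 {ι : Type*} [Fintype ι] [DecidableEq ι] {G : (ι → ℝ) → ℝ}
    (hG : G.HasTemperateGrowth) {w : ι → (ι → ℝ) → ℝ} (hw : ∀ x, CS (w x)) :
    PG (fun h => ∑ x, pd x G h * w x h) :=
  PG.sum _ fun x _ => (PG.of_temp (pd_temp hG x)).mul (PG.of_CS (hw x))

private theorem mcc_J {ι : Type*} [Fintype ι] [DecidableEq ι] {V : (ι → ℝ) → ℝ} (hV : Pot V)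
    {G : (ι → ℝ) → ℝ} (hG : G.HasTemperateGrowth) {w : ι → (ι → ℝ) → ℝ} (hw : ∀ x, CS (w x)) :
    Jv V G w = Ev V (fun h => 2 * (∑ x, pd x G h * w x h) -
      ((∑ x, ∑ y, pd y (w x) h * pd y (w x) h) +
        ∑ x, ∑ y, pd y (pd x V) h * w x h * w y h)) := by
  rw [Ev_sub hV ((PG.const 2).mul (mcc_pg1 hG hw)) (mcc_pg hV hw hw), Ev_mul]
  rfl

private theorem mcc_pd {ι : Type*} [Fintype ι] [DecidableEq ι] {T : ℝ → ℝ}
    (hT : ContDiff ℝ ∞ T) {f : (ι → ℝ) → ℝ} (hf : ContDiff ℝ ∞ f) (y : ι) (h : ι → ℝ) :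
    pd y (fun h => T (f h)) h = deriv T (f h) * pd y f h := by
  have h1 : HasDerivAt T (deriv T (f h)) (f h) :=
    ((hT.differentiable (by simp)) (f h)).hasDerivAt
  have h2 : HasFDerivAt f (fderiv ℝ f h) h :=
    ((hf.differentiable (by simp)) h).hasFDerivAt
  have h3 := h1.comp_hasFDerivAt h h2
  unfold pd
  rw [show (fun h => T (f h)) = T ∘ f from rfl, h3.fderiv]
  rfl

theorem trunc_J {D : Finset (ℤ × ℤ)} {b u : ℤ × ℤ → ℝ} (hb : ∀ z, |b z| ≤ 1 / 2)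
    (hu : ∀ z, |u z| ≤ 1) {s : ℝ} (hs : 1 ≤ s) {T : ℝ → ℝ} (hT : ContDiff ℝ ∞ T)
    (hT1 : ∀ r, |r| ≤ 1 → T r = r) (hT2 : ∀ r r', |T r - T r'| ≤ |r - r'|)
    (hT3 : ∀ r, |deriv T r| ≤ 1) {w : D → (D → ℝ) → ℝ} (hw : ∀ x, CS (w x)) :
    (∀ x, CS (fun h => T (w x h))) ∧
      Jv (Vs D b s) (Bt D b u s) w ≤ Jv (Vs D b s) (Bt D b u s) (fun x h => T (w x h)) := by
  have hV := Pot_Vs (D := D) hb hs
  have hG := Bt_temp D b u hs
  have hT0 : T 0 = 0 := hT1 0 (by rw [abs_zero]; norm_num)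
  have hcs : ∀ x, CS (fun h => T (w x h)) := fun x =>
    ⟨hT.comp (hw x).1, (hw x).2.comp_left hT0⟩
  refine ⟨hcs, ?_⟩
  rw [mcc_J hV hG hw, mcc_J hV hG hcs]
  refine Ev_mono hV ?_ ?_ fun h => ?_
  · have h1 := PG.add ((PG.const 2).mul (mcc_pg1 hG hw)) (mcc_pg hV hw hw).neg
    exact h1
  · have h1 := PG.add ((PG.const 2).mul (mcc_pg1 hG hcs)) (mcc_pg hV hcs hcs).neg
    exact h1
  · have i1 := mcc_id D b u hs h (fun x => w x h)
    have i2 := mcc_id D b u hs h (fun x => T (w x h))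
    have i3 : ∑ x ∈ D, ∑ i, Us2 s (gl D b h x - gl D b h (x + st i)) *
        ((gl D u (fun x => T (w x h)) x - gl D u (fun x => T (w x h)) (x + st i)) ^ 2 -
          if x + st i ∈ D then 0 else u (x + st i) ^ 2) ≤
        ∑ x ∈ D, ∑ i, Us2 s (gl D b h x - gl D b h (x + st i)) *
        ((gl D u (fun x => w x h) x - gl D u (fun x => w x h) (x + st i)) ^ 2 -
          if x + st i ∈ D then 0 else u (x + st i) ^ 2) := by
      refine Finset.sum_le_sum fun x _ => Finset.sum_le_sum fun i _ => ?_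
      refine mul_le_mul_of_nonneg_left ?_ (Us2_nonneg hs _)
      have e : ∀ z, gl D u (fun x => T (w x h)) z = T (gl D u (fun x => w x h) z) := by
        intro z
        unfold gl
        split_ifs
        · rfl
        · exact (hT1 _ (hu z)).symm
      rw [e, e]
      have := sq_le_sq.2 (hT2 (gl D u (fun x => w x h) x) (gl D u (fun x => w x h) (x + st i)))
      linarith
    have i4 : ∑ x : D, ∑ y : D, pd y (fun h => T (w x h)) h * pd y (fun h => T (w x h)) h ≤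
        ∑ x, ∑ y, pd y (w x) h * pd y (w x) h := by
      refine Finset.sum_le_sum fun x _ => Finset.sum_le_sum fun y _ => ?_
      rw [mcc_pd hT (hw x).1 y h]
      have h1 : (deriv T (w x h)) ^ 2 ≤ 1 := by
        rw [← sq_abs]
        exact pow_le_one₀ (abs_nonneg _) (hT3 _)
      have h2 : 0 ≤ (pd y (w x) h) ^ 2 := sq_nonneg _
      nlinarith
    linarith

/- END mcc -/

/- MODULE mcd
Bounded near maximisers: `near`, `exists_trunc`, `trunc_J`. -/
theorem near_bdd {D : Finset (ℤ × ℤ)} {b u : ℤ × ℤ → ℝ} (hb : ∀ z, |b z| ≤ 1 / 2)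
    (hu : ∀ z, |u z| ≤ 1) {s : ℝ} (hs : 1 ≤ s) {η : ℝ} (hη : 0 < η) :
    ∃ w : D → (D → ℝ) → ℝ, (∀ x, CS (w x)) ∧ (∀ x h, |w x h| ≤ 2) ∧
      Cv (Vs D b s) (Bt D b u s) (Bt D b u s) - η ≤ Jv (Vs D b s) (Bt D b u s) w := by
  obtain ⟨C, hC⟩ := Bt_fok D b u hs
  obtain ⟨w, hw, hJ⟩ := near (Pot_Vs (D := D) hb hs) hC hη
  obtain ⟨T, hT, hT1, hT2, hT3, hT4⟩ := exists_trunc
  obtain ⟨h1, h2⟩ := trunc_J hb hu hs hT hT1 hT3 hT4 hw
  exact ⟨fun x h => T (w x h), h1, fun x h => hT2 _, hJ.trans h2⟩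

/- END mcd -/

/- MODULE mce
Caccioppoli's identity.  Pointwise, with `v_x = ψ_x w_x`, `z_x = ψ_x² w_x`:
`∑_{x,y} (d_y v_x)² = ∑ d_y w_x d_y z_x + ∑ (d_y ψ_x)² w_x²`, and with `Vs_hess2`
`(ψ_x w_x - ψ_y w_y)² - (w_x - w_y)(ψ_x² w_x - ψ_y² w_y) = (ψ_x - ψ_y)² w_x w_y` (`= 0` at the edges
to fixed sites, where `w = 0` on one side). -/
private theorem mce_sq {ι : Type*} [Fintype ι] [DecidableEq ι] {ψ : (ι → ℝ) → ℝ}
    (hψ : ContDiff ℝ ∞ ψ) : ContDiff ℝ ∞ (fun h => ψ h ^ 2) := hψ.pow 2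

private theorem mce_pd2 {ι : Type*} [Fintype ι] [DecidableEq ι] {ψ f : (ι → ℝ) → ℝ}
    (hψ : ContDiff ℝ ∞ ψ) (hf : ContDiff ℝ ∞ f) (y : ι) (h : ι → ℝ) :
    pd y (fun h => ψ h ^ 2 * f h) h = 2 * ψ h * pd y ψ h * f h + ψ h ^ 2 * pd y f h := by
  rw [pd_prod (hψ.pow 2) hf y h]
  have h1 : (fun h => ψ h ^ 2) = fun h => ψ h * ψ h := by
    funext k
    ring
  rw [h1, pd_prod hψ hψ y h]
  ring

private theorem mce_meas {D : Finset (ℤ × ℤ)} {s : ℝ} (hs : 1 ≤ s) (x y : ℤ × ℤ) :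
    Continuous (fun h : D → ℝ => Us2 s (g0 D h x - g0 D h y)) := by
  have h1 : ∀ z : ℤ × ℤ, Continuous (fun h : D → ℝ => g0 D h z) := by
    intro z
    unfold g0 gl
    split_ifs with hz
    · exact continuous_apply _
    · exact continuous_const
  exact (Us2_cont hs).comp ((h1 x).sub (h1 y))

private theorem mce_td {D : Finset (ℤ × ℤ)} {s : ℝ} (hs : 1 ≤ s)
    {ψ : D → (D → ℝ) → ℝ} (hψ : ∀ x, BS (ψ x)) : PG (Td D s ψ) := by
  unfold Td
  refine PG.sum _ fun x _ => PG.sum _ fun i _ => ?_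
  by_cases hi : x + st i ∈ D
  · simp only [hi, if_true]
    have h1 : PG (fun h : D → ℝ => Us2 s (g0 D h x - g0 D h (x + st i))) := by
      refine PG.of_bdd (mce_meas hs x (x + st i)).measurable (C := s ^ 3) fun h => ?_
      rw [abs_of_nonneg (Us2_nonneg hs _)]
      exact Us2_le hs _
    have h2 : ∀ z : ℤ × ℤ, PG (fun h : D → ℝ => g0 D (fun z => ψ z h) z) := by
      intro z
      unfold g0 gl
      by_cases hz : z ∈ D
      · simp only [hz, dif_pos]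
        exact (hψ ⟨z, hz⟩).pg
      · simp only [hz, dif_neg, not_false_eq_true]
        exact PG.const 0
    have h3 : PG (fun h : D → ℝ => g0 D (fun z => ψ z h) x - g0 D (fun z => ψ z h) (x + st i)) :=
      (h2 x).add (h2 (x + st i)).neg
    have h4 := h1.mul (h3.mul h3)
    have e : (fun h : D → ℝ => Us2 s (g0 D h x - g0 D h (x + st i)) *
        (g0 D (fun z => ψ z h) x - g0 D (fun z => ψ z h) (x + st i)) ^ 2) =
        fun h => Us2 s (g0 D h x - g0 D h (x + st i)) *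
        ((g0 D (fun z => ψ z h) x - g0 D (fun z => ψ z h) (x + st i)) *
        (g0 D (fun z => ψ z h) x - g0 D (fun z => ψ z h) (x + st i))) := by
      funext h
      ring
    rw [e]
    exact h4
  · simp only [hi, if_false]
    exact PG.const 0

private theorem mce_gd {ι : Type*} [Fintype ι] [DecidableEq ι]
    {ψ : ι → (ι → ℝ) → ℝ} (hψ : ∀ x, BS (ψ x)) : PG (Gd2 ψ) := by
  unfold Gd2
  refine PG.sum _ fun x _ => PG.sum _ fun y _ => ?_
  obtain ⟨C, hC⟩ := (hψ x).db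
  have h1 : PG (pd y (ψ x)) := PG.of_bdd (cd_pd (hψ x).sm y).continuous.measurable (fun h => hC y h)
  have h2 := h1.mul h1
  have e : (fun h => (pd y (ψ x) h) ^ 2) = fun h => pd y (ψ x) h * pd y (ψ x) h := by
    funext h
    ring
  rw [e]
  exact h2

private theorem mce_pt {D : Finset (ℤ × ℤ)} {b : ℤ × ℤ → ℝ} {s : ℝ} (hs : 1 ≤ s)
    {w : D → (D → ℝ) → ℝ} (hw : ∀ x, CS (w x)) (hw2 : ∀ x h, |w x h| ≤ 2)
    {ψ : D → (D → ℝ) → ℝ} (hψ : ∀ x, BS (ψ x)) (h : D → ℝ) :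
    ((∑ x : D, ∑ y : D, pd y (fun h => ψ x h * w x h) h * pd y (fun h => ψ x h * w x h) h) +
      ∑ x, ∑ y, pd y (pd x (Vs D b s)) h * (ψ x h * w x h) * (ψ y h * w y h)) ≤
    ((∑ x : D, ∑ y : D, pd y (w x) h * pd y (fun h => ψ x h ^ 2 * w x h) h) +
      ∑ x, ∑ y, pd y (pd x (Vs D b s)) h * w x h * (ψ y h ^ 2 * w y h)) +
      4 * (Gd2 ψ h + Td D s ψ h) := by
  have h1 : ∑ x : D, ∑ y : D, pd y (fun h => ψ x h * w x h) h * pd y (fun h => ψ x h * w x h) h ≤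
      (∑ x : D, ∑ y : D, pd y (w x) h * pd y (fun h => ψ x h ^ 2 * w x h) h) + 4 * Gd2 ψ h := by
    unfold Gd2
    simp only [Finset.mul_sum, ← Finset.sum_add_distrib]
    refine Finset.sum_le_sum fun x _ => Finset.sum_le_sum fun y _ => ?_
    rw [pd_prod (hψ x).sm (hw x).1 y h, mce_pd2 (hψ x).sm (hw x).1 y h]
    have h2 : (w x h) ^ 2 ≤ 4 := by
      rw [← sq_abs]
      nlinarith [hw2 x h, abs_nonneg (w x h)]
    have h3 : (pd y (ψ x) h * w x h + ψ x h * pd y (w x) h) *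
        (pd y (ψ x) h * w x h + ψ x h * pd y (w x) h) =
        pd y (w x) h * (2 * ψ x h * pd y (ψ x) h * w x h + ψ x h ^ 2 * pd y (w x) h) +
        (pd y (ψ x) h) ^ 2 * (w x h) ^ 2 := by ring
    rw [h3]
    have h4 : (pd y (ψ x) h) ^ 2 * (w x h) ^ 2 ≤ (pd y (ψ x) h) ^ 2 * 4 :=
      mul_le_mul_of_nonneg_left h2 (sq_nonneg _)
    linarith
  have h2 : ∑ x, ∑ y, pd y (pd x (Vs D b s)) h * (ψ x h * w x h) * (ψ y h * w y h) ≤
      (∑ x, ∑ y, pd y (pd x (Vs D b s)) h * w x h * (ψ y h ^ 2 * w y h)) + 4 * Td D s ψ h := by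
    rw [Vs_hess2 D b hs h (fun x => ψ x h * w x h) (fun x => ψ x h * w x h),
      Vs_hess2 D b hs h (fun x => w x h) (fun x => ψ x h ^ 2 * w x h)]
    unfold Td
    rw [Finset.mul_sum, ← Finset.sum_add_distrib]
    refine Finset.sum_le_sum fun x hx => ?_
    rw [Finset.mul_sum, ← Finset.sum_add_distrib]
    refine Finset.sum_le_sum fun i _ => ?_
    by_cases hi : x + st i ∈ D
    · rw [if_pos hi]
      have e1 : ∀ k : D → ℝ, g0 D k x = k ⟨x, hx⟩ := by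
        intro k
        unfold g0 gl
        simp [hx]
      have e2 : ∀ k : D → ℝ, g0 D k (x + st i) = k ⟨x + st i, hi⟩ := by
        intro k
        unfold g0 gl
        simp [hi]
      have e3 : gl D b h x = h ⟨x, hx⟩ := by
        unfold gl
        simp [hx]
      have e4 : gl D b h (x + st i) = h ⟨x + st i, hi⟩ := by
        unfold gl
        simp [hi]
      simp only [e1, e2, e3, e4]
      have hU := Us2_nonneg hs (h ⟨x, hx⟩ - h ⟨x + st i, hi⟩)
      have hp : w ⟨x, hx⟩ h * w ⟨x + st i, hi⟩ h ≤ 4 := by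
        have := abs_le.1 (hw2 ⟨x, hx⟩ h)
        have := abs_le.1 (hw2 ⟨x + st i, hi⟩ h)
        nlinarith [abs_mul (w ⟨x, hx⟩ h) (w ⟨x + st i, hi⟩ h), le_abs_self (w ⟨x, hx⟩ h * w ⟨x + st i, hi⟩ h),
          hw2 ⟨x, hx⟩ h, hw2 ⟨x + st i, hi⟩ h, abs_nonneg (w ⟨x, hx⟩ h), abs_nonneg (w ⟨x + st i, hi⟩ h)]
      have hq : (ψ ⟨x, hx⟩ h - ψ ⟨x + st i, hi⟩ h) ^ 2 * (w ⟨x, hx⟩ h * w ⟨x + st i, hi⟩ h) ≤
          (ψ ⟨x, hx⟩ h - ψ ⟨x + st i, hi⟩ h) ^ 2 * 4 :=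
        mul_le_mul_of_nonneg_left hp (sq_nonneg _)
      have hr := mul_le_mul_of_nonneg_left hq hU
      nlinarith [hr]
    · rw [if_neg hi]
      have e1 : ∀ k : D → ℝ, g0 D k x = k ⟨x, hx⟩ := by
        intro k
        unfold g0 gl
        simp [hx]
      have e2 : ∀ k : D → ℝ, g0 D k (x + st i) = 0 := by
        intro k
        unfold g0 gl
        simp [hi]
      simp only [e1, e2]
      apply le_of_eq
      ring
  linarith

theorem cacc {D : Finset (ℤ × ℤ)} {b : ℤ × ℤ → ℝ} (hb : ∀ z, |b z| ≤ 1 / 2) {s : ℝ} (hs : 1 ≤ s)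
    {w : D → (D → ℝ) → ℝ} (hw : ∀ x, CS (w x)) (hw2 : ∀ x h, |w x h| ≤ 2)
    {ψ : D → (D → ℝ) → ℝ} (hψ : ∀ x, BS (ψ x)) :
    Eb (Vs D b s) (fun x h => ψ x h * w x h) (fun x h => ψ x h * w x h) ≤
      Eb (Vs D b s) w (fun x h => ψ x h ^ 2 * w x h) +
        4 * (Ev (Vs D b s) (Gd2 ψ) + Ev (Vs D b s) (Td D s ψ)) := by
  have hV := Pot_Vs (D := D) hb hs
  have hc1 : ∀ x, CS (fun h => ψ x h * w x h) := fun x => (hw x).mul_left (hψ x).sm
  have hc2 : ∀ x, CS (fun h => ψ x h ^ 2 * w x h) := fun x =>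
    (hw x).mul_left (mce_sq (hψ x).sm)
  rw [← Ev_add hV (mce_gd hψ) (mce_td hs hψ), ← Ev_mul]
  unfold Eb
  rw [← Ev_add hV (mcc_pg hV hw hc2) ((PG.const 4).mul ((mce_gd hψ).add (mce_td hs hψ)))]
  exact Ev_mono hV (mcc_pg hV hc1 hc1)
    ((mcc_pg hV hw hc2).add ((PG.const 4).mul ((mce_gd hψ).add (mce_td hs hψ))))
    (fun h => mce_pt hs hw hw2 hψ h)

/- END mce -/

/- MODULE mcf
Crude energy bound: if `w` is smooth, compactly supported, `|w| ≤ 2`, `V_xy` bounded, `ψ` bounded with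
bounded derivatives, then `B(ψ² w, ψ² w) ≤ C (B(w,w) + 1)` with `C` independent of `w`
(`d_y (ψ_x² w_x) = ψ_x² d_y w_x + 2 ψ_x (d_y ψ_x) w_x`; `E ∑ V_xy w_x w_y ≥ 0` by `Vs_hess` and
`Us2_nonneg`, so `E ∑ (d_y w_x)² ≤ B(w,w)`). -/
private theorem mcf_bd {ι : Type*} [Fintype ι] [DecidableEq ι]
    {ψ : ι → (ι → ℝ) → ℝ} (hψ : ∀ x, BS (ψ x)) :
    ∃ M : ℝ, 0 ≤ M ∧ (∀ x h, |ψ x h| ≤ M) ∧ ∀ x y h, |pd y (ψ x) h| ≤ M := by
  choose A hA using fun x => (hψ x).bd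
  choose B hB using fun x => (hψ x).db
  refine ⟨∑ x, (|A x| + |B x|), Finset.sum_nonneg fun x _ => by positivity, fun x h => ?_,
    fun x y h => ?_⟩
  · have h1 : |A x| + |B x| ≤ ∑ x, (|A x| + |B x|) :=
      Finset.single_le_sum (f := fun x => |A x| + |B x|) (fun x _ => by positivity)
      (Finset.mem_univ x)
    have h2 := hA x h
    have h3 := le_abs_self (A x)
    have h4 := abs_nonneg (B x)
    linarith
  · have h1 : |A x| + |B x| ≤ ∑ x, (|A x| + |B x|) :=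
      Finset.single_le_sum (f := fun x => |A x| + |B x|) (fun x _ => by positivity)
      (Finset.mem_univ x)
    have h2 := hB x y h
    have h3 := le_abs_self (B x)
    have h4 := abs_nonneg (A x)
    linarith

private theorem mcf_nn {D : Finset (ℤ × ℤ)} {b : ℤ × ℤ → ℝ} {s : ℝ} (hs : 1 ≤ s)
    (h k : D → ℝ) : 0 ≤ ∑ x, ∑ y, pd y (pd x (Vs D b s)) h * k x * k y := by
  rw [Vs_hess D b hs h k]
  exact Finset.sum_nonneg fun x _ => Finset.sum_nonneg fun i _ =>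
    mul_nonneg (Us2_nonneg hs _) (sq_nonneg _)

private theorem mcf_pt {D : Finset (ℤ × ℤ)} {b : ℤ × ℤ → ℝ} {s : ℝ} (hs : 1 ≤ s)
    {ψ : D → (D → ℝ) → ℝ} (hψ : ∀ x, BS (ψ x)) {M K : ℝ} (hM : 0 ≤ M)
    (h1 : ∀ x h, |ψ x h| ≤ M) (h2 : ∀ x y h, |pd y (ψ x) h| ≤ M)
    (hK : ∀ x y h, |pd y (pd x (Vs D b s)) h| ≤ K)
    {w : D → (D → ℝ) → ℝ} (hw : ∀ x, CS (w x)) (hw2 : ∀ x h, |w x h| ≤ 2) (h : D → ℝ) :
    ((∑ x : D, ∑ y : D, pd y (fun h => ψ x h ^ 2 * w x h) h *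
        pd y (fun h => ψ x h ^ 2 * w x h) h) +
      ∑ x, ∑ y, pd y (pd x (Vs D b s)) h * (ψ x h ^ 2 * w x h) * (ψ y h ^ 2 * w y h)) ≤
    2 * M ^ 4 * ((∑ x : D, ∑ y : D, pd y (w x) h * pd y (w x) h) +
      ∑ x, ∑ y, pd y (pd x (Vs D b s)) h * w x h * w y h) +
      ∑ _x : D, ∑ _y : D, (32 * M ^ 4 + 4 * |K| * M ^ 4) := by
  have e1 : ∑ x : D, ∑ y : D, pd y (fun h => ψ x h ^ 2 * w x h) h *
        pd y (fun h => ψ x h ^ 2 * w x h) h ≤
      2 * M ^ 4 * (∑ x : D, ∑ y : D, pd y (w x) h * pd y (w x) h) +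
      ∑ _x : D, ∑ _y : D, 32 * M ^ 4 := by
    simp only [Finset.mul_sum, ← Finset.sum_add_distrib]
    refine Finset.sum_le_sum fun x _ => Finset.sum_le_sum fun y _ => ?_
    rw [mce_pd2 (hψ x).sm (hw x).1 y h]
    have a1 : |2 * ψ x h * pd y (ψ x) h * w x h| ≤ 4 * M ^ 2 := by
      rw [abs_mul, abs_mul, abs_mul, abs_two]
      calc 2 * |ψ x h| * |pd y (ψ x) h| * |w x h| ≤ 2 * M * M * 2 := by
            gcongr
            · exact h1 x h
            · exact h2 x y h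
            · exact hw2 x h
        _ = 4 * M ^ 2 := by ring
    have a2 : (2 * ψ x h * pd y (ψ x) h * w x h) ^ 2 ≤ 16 * M ^ 4 := by
      rw [← sq_abs]
      calc |2 * ψ x h * pd y (ψ x) h * w x h| ^ 2 ≤ (4 * M ^ 2) ^ 2 :=
            pow_le_pow_left₀ (abs_nonneg _) a1 2
        _ = 16 * M ^ 4 := by ring
    have a3 : (ψ x h ^ 2) ^ 2 ≤ M ^ 4 := by
      rw [← sq_abs (ψ x h)]
      calc (|ψ x h| ^ 2) ^ 2 = |ψ x h| ^ 4 := by ring
        _ ≤ M ^ 4 := pow_le_pow_left₀ (abs_nonneg _) (h1 x h) 4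
    have a4 : (ψ x h ^ 2 * pd y (w x) h) ^ 2 ≤ M ^ 4 * (pd y (w x) h * pd y (w x) h) := by
      rw [mul_pow, ← sq (pd y (w x) h)]
      exact mul_le_mul_of_nonneg_right a3 (sq_nonneg _)
    nlinarith [sq_nonneg (2 * ψ x h * pd y (ψ x) h * w x h - ψ x h ^ 2 * pd y (w x) h)]
  have e2 : ∑ x, ∑ y, pd y (pd x (Vs D b s)) h * (ψ x h ^ 2 * w x h) * (ψ y h ^ 2 * w y h) ≤
      ∑ _x : D, ∑ _y : D, 4 * |K| * M ^ 4 := by
    refine Finset.sum_le_sum fun x _ => Finset.sum_le_sum fun y _ => ?_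
    refine (le_abs_self _).trans ?_
    rw [abs_mul, abs_mul, abs_mul, abs_mul, abs_pow, abs_pow]
    have hp := (hK x y h).trans (le_abs_self K)
    have hp0 := abs_nonneg (pd y (pd x (Vs D b s)) h)
    generalize |pd y (pd x (Vs D b s)) h| = p at hp hp0 ⊢
    calc p * (|ψ x h| ^ 2 * |w x h|) * (|ψ y h| ^ 2 * |w y h|)
        ≤ |K| * (M ^ 2 * 2) * (M ^ 2 * 2) := by
          gcongr
          · exact h1 x h
          · exact hw2 x h
          · exact h1 y h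
          · exact hw2 y h
      _ = 4 * |K| * M ^ 4 := by ring
  have e3 := mcf_nn hs (b := b) h (fun x => w x h)
  have e4 : 0 ≤ 2 * M ^ 4 * ∑ x, ∑ y, pd y (pd x (Vs D b s)) h * w x h * w y h :=
    mul_nonneg (by positivity) e3
  have e5 : ∑ _x : D, ∑ _y : D, (32 * M ^ 4 + 4 * |K| * M ^ 4) =
      (∑ _x : D, ∑ _y : D, 32 * M ^ 4) + ∑ _x : D, ∑ _y : D, 4 * |K| * M ^ 4 := by
    simp only [← Finset.sum_add_distrib]
  rw [e5, mul_add]
  linarith

theorem crude {D : Finset (ℤ × ℤ)} {b : ℤ × ℤ → ℝ} (hb : ∀ z, |b z| ≤ 1 / 2) {s : ℝ} (hs : 1 ≤ s)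
    {ψ : D → (D → ℝ) → ℝ} (hψ : ∀ x, BS (ψ x)) :
    ∃ C : ℝ, 0 ≤ C ∧ ∀ w : D → (D → ℝ) → ℝ, (∀ x, CS (w x)) → (∀ x h, |w x h| ≤ 2) →
      Eb (Vs D b s) (fun x h => ψ x h ^ 2 * w x h) (fun x h => ψ x h ^ 2 * w x h) ≤
        C * (Eb (Vs D b s) w w + 1) := by
  have hV := Pot_Vs (D := D) hb hs
  obtain ⟨M, hM, h1, h2⟩ := mcf_bd hψ
  obtain ⟨K, hK⟩ := hV.hess
  set c0 : ℝ := ∑ _x : D, ∑ _y : D, (32 * M ^ 4 + 4 * |K| * M ^ 4) with hc0
  have hc0' : 0 ≤ c0 := Finset.sum_nonneg fun x _ => Finset.sum_nonneg fun y _ => by positivity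
  refine ⟨2 * M ^ 4 + c0, by positivity, fun w hw hw2 => ?_⟩
  have hc2 : ∀ x, CS (fun h => ψ x h ^ 2 * w x h) := fun x =>
    (hw x).mul_left (mce_sq (hψ x).sm)
  have e1 : Eb (Vs D b s) (fun x h => ψ x h ^ 2 * w x h) (fun x h => ψ x h ^ 2 * w x h) ≤
      2 * M ^ 4 * Eb (Vs D b s) w w + c0 := by
    have e2 : 2 * M ^ 4 * Eb (Vs D b s) w w + c0 = Ev (Vs D b s) (fun h => 2 * M ^ 4 *
        ((∑ x : D, ∑ y : D, pd y (w x) h * pd y (w x) h) +
        ∑ x, ∑ y, pd y (pd x (Vs D b s)) h * w x h * w y h) + c0) := by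
      rw [Ev_add hV ((PG.const (2 * M ^ 4)).mul (mcc_pg hV hw hw)) (PG.const c0), Ev_mul,
        Ev_const hV]
      rfl
    rw [e2]
    unfold Eb
    exact Ev_mono hV (mcc_pg hV hc2 hc2)
      (((PG.const (2 * M ^ 4)).mul (mcc_pg hV hw hw)).add (PG.const c0))
      (fun h => mcf_pt hs hψ hM h1 h2 hK hw hw2 h)
  have e3 : 0 ≤ Eb (Vs D b s) w w := by
    rw [← Ev_const hV 0]
    unfold Eb
    refine Ev_mono hV (PG.const 0) (mcc_pg hV hw hw) fun h => ?_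
    have := mcf_nn hs (b := b) h (fun x => w x h)
    have h3 : 0 ≤ ∑ x : D, ∑ y : D, pd y (w x) h * pd y (w x) h :=
      Finset.sum_nonneg fun x _ => Finset.sum_nonneg fun y _ => mul_self_nonneg _
    linarith
  have e4 : 0 ≤ M ^ 4 := by positivity
  nlinarith [mul_nonneg hc0' e3]

/- END mcf -/

/- MODULE mcg
THE RESPONSE LEMMA.  Take `w` from `near_bdd` with `η'` small: `crit` gives the first estimate;
`weak_el` with `v = ψ² w` (`crude`, `en_near`) and `∑ d_x Bt ψ_x² w_x = 0` (`pd_Bt`, `hk`) give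
`B(w, ψ² w) ≤ (η' C)^{1/2}`; then `cacc` and `Ds_le`. -/
theorem resp {D : Finset (ℤ × ℤ)} {b u : ℤ × ℤ → ℝ} (hb : ∀ z, |b z| ≤ 1 / 2)
    (hu : ∀ z, |u z| ≤ 1) {s : ℝ} (hs : 1 ≤ s) {ψ : D → (D → ℝ) → ℝ} (hψ : ∀ x, BS (ψ x))
    (hk : ∀ (x : D) (i : Fin 6), (x : ℤ × ℤ) + st i ∉ D → u ((x : ℤ × ℤ) + st i) ≠ 0 →
      ∀ h, ψ x h = 0) {η : ℝ} (hη : 0 < η) :
    ∃ w : D → (D → ℝ) → ℝ, (∀ x, CS (w x)) ∧ (∀ x h, |w x h| ≤ 2) ∧
      Ev (Vs D b s) (fun h => (Ds (Vs D b s) w h -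
        (Bt D b u s h - Ev (Vs D b s) (Bt D b u s))) ^ 2) ≤ η ∧
      Ev (Vs D b s) (fun h => (Ds (Vs D b s) (fun x h => ψ x h * w x h) h) ^ 2) ≤
        4 * (Ev (Vs D b s) (Gd2 ψ) + Ev (Vs D b s) (Td D s ψ)) + η := by
  have hV := Pot_Vs (D := D) hb hs
  have hG := Bt_temp D b u hs
  obtain ⟨C, hC0, hC⟩ := crude hb hs hψ
  set B : ℝ := C * (4 * Cv (Vs D b s) (Bt D b u s) (Bt D b u s) + 3) with hB
  have hB1 : 0 < |B| + 1 := by positivity
  set η' : ℝ := min (min η 1) (η ^ 2 / (|B| + 1)) with hη'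
  have hη0 : 0 < η' := lt_min (lt_min hη one_pos) (by positivity)
  have hηa : η' ≤ η := (min_le_left _ _).trans (min_le_left _ _)
  have hηb : η' ≤ 1 := (min_le_left _ _).trans (min_le_right _ _)
  have hηc : η' ≤ η ^ 2 / (|B| + 1) := min_le_right _ _
  obtain ⟨w, hw, hw2, hJ⟩ := near_bdd (D := D) hb hu hs hη0
  have hc1 : ∀ x, CS (fun h => ψ x h * w x h) := fun x => (hw x).mul_left (hψ x).sm
  have hc2 : ∀ x, CS (fun h => ψ x h ^ 2 * w x h) := fun x =>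
    (hw x).mul_left (mce_sq (hψ x).sm)
  have hgap : Cv (Vs D b s) (Bt D b u s) (Bt D b u s) - Jv (Vs D b s) (Bt D b u s) w ≤ η' := by
    linarith
  have hgap0 := Jv_le hV hG hw
  refine ⟨w, hw, hw2, (crit hV hG hw).trans (hgap.trans hηa), ?_⟩
  have h1 := weak_el hV hG hc2 hw
  have hz : Ev (Vs D b s) (fun h => ∑ x, pd x (Bt D b u s) h * (ψ x h ^ 2 * w x h)) = 0 := by
    have e : (fun h => ∑ x, pd x (Bt D b u s) h * (ψ x h ^ 2 * w x h)) = fun _ => (0 : ℝ) := by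
      funext h
      refine Finset.sum_eq_zero fun x _ => ?_
      rw [pd_Bt D b u hs x h, Finset.sum_mul]
      refine Finset.sum_eq_zero fun i _ => ?_
      split_ifs with hi
      · ring
      · by_cases hu0 : u ((x : ℤ × ℤ) + st i) = 0
        · rw [hu0]
          ring
        · rw [hk x i hi hu0 h]
          ring
    rw [e, Ev_const hV]
  rw [hz] at h1
  have h2 : Eb (Vs D b s) (fun x h => ψ x h ^ 2 * w x h) (fun x h => ψ x h ^ 2 * w x h) ≤ |B| := by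
    have a1 := hC w hw hw2
    have a2 := en_near hV hG hw
    have a3 : C * (Eb (Vs D b s) w w + 1) ≤ B := by
      rw [hB]
      refine mul_le_mul_of_nonneg_left ?_ hC0
      linarith
    exact (a1.trans a3).trans (le_abs_self B)
  have h3 : (0 - Eb (Vs D b s) w (fun x h => ψ x h ^ 2 * w x h)) ^ 2 ≤ η ^ 2 := by
    refine h1.trans ?_
    have a0 : 0 ≤ Eb (Vs D b s) (fun x h => ψ x h ^ 2 * w x h) (fun x h => ψ x h ^ 2 * w x h) := by
      refine le_trans ?_ (Ds_le hV hc2)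
      rw [← Ev_const hV 0]
      refine Ev_mono hV (PG.const 0) ?_ fun h => sq_nonneg _
      have b1 : PG (fun h => Ds (Vs D b s) (fun x h => ψ x h ^ 2 * w x h) h) := by
        unfold Ds
        refine PG.sum _ fun x _ => ?_
        exact ((PG.of_temp (pd_temp hV.temp x)).mul (PG.of_CS (hc2 x))).add
          (PG.of_CS ((hc2 x).pd x)).neg
      have b2 := b1.mul b1
      have e : (fun h => (Ds (Vs D b s) (fun x h => ψ x h ^ 2 * w x h) h) ^ 2) =
          fun h => Ds (Vs D b s) (fun x h => ψ x h ^ 2 * w x h) h *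
            Ds (Vs D b s) (fun x h => ψ x h ^ 2 * w x h) h := by
        funext h
        ring
      rw [e]
      exact b2
    have a1 : (Cv (Vs D b s) (Bt D b u s) (Bt D b u s) - Jv (Vs D b s) (Bt D b u s) w) *
        Eb (Vs D b s) (fun x h => ψ x h ^ 2 * w x h) (fun x h => ψ x h ^ 2 * w x h) ≤
        η' * |B| := mul_le_mul hgap h2 a0 hη0.le
    have a2 : η' * |B| ≤ η ^ 2 / (|B| + 1) * |B| := mul_le_mul_of_nonneg_right hηc (abs_nonneg _)
    have a3 : η ^ 2 / (|B| + 1) * |B| ≤ η ^ 2 := by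
      rw [div_mul_eq_mul_div, div_le_iff₀ hB1]
      nlinarith [sq_nonneg η, abs_nonneg B]
    linarith
  have h4 : Eb (Vs D b s) w (fun x h => ψ x h ^ 2 * w x h) ≤ η := by
    have := abs_le_of_sq_le_sq' (a := 0 - Eb (Vs D b s) w (fun x h => ψ x h ^ 2 * w x h)) h3 hη.le
    linarith [this.1]
  have h5 := cacc hb hs hw hw2 hψ
  have h6 := Ds_le hV hc1
  linarith

/- END mcg -/

end Pool.Agent.Hmk.Mn
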