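import Pool.Agent.Hmk.UnS

/-!
# Hmk, second part: the universal state `mm`, the densities `nB`, their limit
-/

set_option autoImplicit false

open MeasureTheory Set Filter
open scoped ENNReal ContDiff Topology

noncomputable section

namespace Pool.Agent.Hmk

/-- reference domain -/
def DD (N : ℕ) : Finset (ℤ × ℤ) := ba 0 (8 * N)

/-- averaged expectation of a window function in the reference domain -/
def em (N : ℕ) (W : Finset (ℤ × ℤ)) (g : (W → ℝ) → ℝ) : ℝ :=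
  ((N : ℝ) ^ 2)⁻¹ * ∑ x ∈ bx N,
    ∫ h, g (rs W x (gl (DD N) (fun _ => 0) h)) ∂(Mu (DD N) (fun _ => 0))

/-- the universal state -/
def mm (W : Finset (ℤ × ℤ)) (g : (W → ℝ) → ℝ) : ℝ := limUnder atTop (fun N => em N W g)

/- MODULE qla
`uni_L1` with `D = DD N`, `b = 0`, `y = 0` (`card (DD N) ≤ (16 N + 1)^2 ≤ N^20` for `N ≥ 3`):
`em N W g → m`, so `mm W g = m`. -/
private theorem qla_card_ba (m : ℕ) : (ba 0 m).card ≤ (2 * m + 1) ^ 2 := by
  classical
  unfold ba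
  refine (Finset.card_image_le).trans ((Finset.card_filter_le _ _).trans ?_)
  rw [Finset.card_product]
  have h : (Finset.Icc (-(m : ℤ)) m).card = 2 * m + 1 := by
    rw [Int.card_Icc]
    omega
  rw [h, sq]

private theorem qla_bx_card (N : ℕ) : (bx N).card = N ^ 2 := by
  unfold bx
  rw [Finset.card_product, Int.card_Ico]
  simp [sq]

private theorem qla_card (N : ℕ) (hN : 2 ≤ N) : (DD N).card ≤ N ^ 20 := by
  have h1 : 2 * (8 * N) + 1 ≤ N ^ 10 := by
    have h2 : 2 ^ 9 ≤ N ^ 9 := Nat.pow_le_pow_left hN 9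
    have h3 : N ^ 10 = N ^ 9 * N := pow_succ _ _
    rw [h3]
    nlinarith
  calc (DD N).card ≤ (2 * (8 * N) + 1) ^ 2 := qla_card_ba _
    _ ≤ (N ^ 10) ^ 2 := Nat.pow_le_pow_left h1 2
    _ = N ^ 20 := by rw [← pow_mul]

private theorem qla_tend {W : Finset (ℤ × ℤ)} {g : (W → ℝ) → ℝ} {m : ℝ}
    (hm : ∀ ε : ℝ, 0 < ε → ∃ N0 : ℕ, ∀ N : ℕ, N0 ≤ N → ∀ (D : Finset (ℤ × ℤ))
      (b : ℤ × ℤ → ℝ), (∀ z, |b z| ≤ 1 / 2) → D.card ≤ N ^ 20 → ∀ y : ℤ × ℤ,
      (∀ z, dn (z - y) ≤ 4 * (N : ℤ) → z ∈ D) →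
      ((N : ℝ) ^ 2)⁻¹ * ∑ x ∈ bx N, |∫ h, g (rs W (y + x) (gl D b h)) ∂(Mu D b) - m| ≤ ε) :
    Tendsto (fun N => em N W g) atTop (𝓝 m) := by
  rw [Metric.tendsto_atTop]
  intro ε hε
  obtain ⟨N0, hN0⟩ := hm (ε / 2) (by linarith)
  refine ⟨max N0 2, fun N hN => ?_⟩
  have hN1 : N0 ≤ N := (le_max_left _ _).trans hN
  have hN2 : 2 ≤ N := (le_max_right _ _).trans hN
  have hNr : (0 : ℝ) < (N : ℝ) := by
    have : 0 < N := by omega
    exact_mod_cast this
  have hNpos : (0 : ℝ) < (N : ℝ) ^ 2 := by positivity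
  have h := hN0 N hN1 (DD N) (fun _ => 0) (by intro z; norm_num) (qla_card N hN2) 0 (by
    intro z hz
    unfold DD
    rw [mem_ba]
    push_cast
    have hN0' : (0 : ℤ) ≤ (N : ℤ) := Int.natCast_nonneg N
    linarith)
  rw [Real.dist_eq]
  have h2 : em N W g - m = ((N : ℝ) ^ 2)⁻¹ * ∑ x ∈ bx N,
      (∫ h, g (rs W x (gl (DD N) (fun _ => 0) h)) ∂(Mu (DD N) (fun _ => 0)) - m) := by
    unfold em
    rw [Finset.sum_sub_distrib, Finset.sum_const, qla_bx_card, nsmul_eq_mul, mul_sub]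
    push_cast
    field_simp
  rw [h2, abs_mul, abs_of_nonneg (inv_nonneg.2 hNpos.le)]
  refine lt_of_le_of_lt (mul_le_mul_of_nonneg_left (Finset.abs_sum_le_sum_abs _ _)
    (inv_nonneg.2 hNpos.le)) ?_
  simp only [zero_add] at h
  linarith

theorem mm_tends {W : Finset (ℤ × ℤ)} {g : (W → ℝ) → ℝ} (hg : Lg W g) :
    Tendsto (fun N => em N W g) atTop (𝓝 (mm W g)) := by
  obtain ⟨m, hm⟩ := uni_L1 hg
  have h := qla_tend hm
  have h2 : mm W g = m := h.limUnder_eq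
  rw [h2]
  exact h

theorem mm_L1 {W : Finset (ℤ × ℤ)} {g : (W → ℝ) → ℝ} (hg : Lg W g) :
    ∀ ε : ℝ, 0 < ε → ∃ N0 : ℕ, ∀ N : ℕ, N0 ≤ N → ∀ (D : Finset (ℤ × ℤ))
      (b : ℤ × ℤ → ℝ), (∀ z, |b z| ≤ 1 / 2) → D.card ≤ N ^ 20 → ∀ y : ℤ × ℤ,
      (∀ z, dn (z - y) ≤ 4 * (N : ℤ) → z ∈ D) →
      ((N : ℝ) ^ 2)⁻¹ * ∑ x ∈ bx N,
        |∫ h, g (rs W (y + x) (gl D b h)) ∂(Mu D b) - mm W g| ≤ ε := by
  obtain ⟨m, hm⟩ := uni_L1 hg
  have h := qla_tend hm
  have h2 : mm W g = m := h.limUnder_eq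
  rw [h2]
  exact hm
/- END qla -/

/- MODULE qlb
Linearity, from `mm_tends`. -/
private theorem qlb_int {W : Finset (ℤ × ℤ)} {g : (W → ℝ) → ℝ} (hg : Lg W g)
    {D : Finset (ℤ × ℤ)} {b : ℤ × ℤ → ℝ} (hb : ∀ z, |b z| ≤ 1 / 2) (y : ℤ × ℤ) :
    Integrable (fun h => g (rs W y (gl D b h))) (Mu D b) := by
  have := Mu_prob (D := D) hb
  obtain ⟨C, hC⟩ := hg.bd
  refine Integrable.of_bound ((hg.ms.comp (rs_meas D W b y)).aestronglyMeasurable) C ?_
  filter_upwards with h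
  rw [Real.norm_eq_abs]
  exact hC _

theorem Lg.add {W : Finset (ℤ × ℤ)} {g g' : (W → ℝ) → ℝ} (hg : Lg W g) (hg' : Lg W g') :
    Lg W (fun k => g k + g' k) := by
  obtain ⟨C, hC⟩ := hg.bd
  obtain ⟨C', hC'⟩ := hg'.bd
  exact ⟨hg.ms.add hg'.ms, ⟨C + C', fun k => (abs_add_le _ _).trans (add_le_add (hC k) (hC' k))⟩,
    fun k t => by rw [hg.sh k t, hg'.sh k t]⟩

theorem Lg.smul {W : Finset (ℤ × ℤ)} {g : (W → ℝ) → ℝ} (hg : Lg W g) (t : ℝ) :
    Lg W (fun k => t * g k) := by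
  obtain ⟨C, hC⟩ := hg.bd
  exact ⟨hg.ms.const_mul t, ⟨|t| * C, fun k => by
    rw [abs_mul]
    exact mul_le_mul_of_nonneg_left (hC k) (abs_nonneg t)⟩,
    fun k s => by rw [hg.sh k s]⟩

private theorem qlb_const (W : Finset (ℤ × ℤ)) (t : ℝ) : Lg W (fun _ => t) :=
  ⟨measurable_const, ⟨|t|, fun _ => le_rfl⟩, fun _ _ => rfl⟩

theorem Lg.sum {ι : Type*} (s : Finset ι) {W : Finset (ℤ × ℤ)} {g : ι → (W → ℝ) → ℝ}
    (hg : ∀ i ∈ s, Lg W (g i)) : Lg W (fun k => ∑ i ∈ s, g i k) := by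
  classical
  induction s using Finset.induction_on with
  | empty => simpa using qlb_const W 0
  | insert a s ha ih =>
    have h := (hg a (Finset.mem_insert_self a s)).add
      (ih fun i hi => hg i (Finset.mem_insert_of_mem hi))
    have h2 : (fun k => ∑ i ∈ insert a s, g i k) = fun k => g a k + ∑ i ∈ s, g i k := by
      funext k
      rw [Finset.sum_insert ha]
    rw [h2]
    exact h

theorem mm_add {W : Finset (ℤ × ℤ)} {g g' : (W → ℝ) → ℝ} (hg : Lg W g) (hg' : Lg W g') :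
    mm W (fun k => g k + g' k) = mm W g + mm W g' := by
  refine tendsto_nhds_unique (mm_tends (hg.add hg'))
    (((mm_tends hg).add (mm_tends hg')).congr fun N => ?_)
  unfold em
  rw [← mul_add, ← Finset.sum_add_distrib]
  congr 1
  refine Finset.sum_congr rfl fun x _ => ?_
  exact (integral_add (qlb_int hg (fun z => by norm_num) x)
    (qlb_int hg' (fun z => by norm_num) x)).symm

theorem mm_smul {W : Finset (ℤ × ℤ)} {g : (W → ℝ) → ℝ} (hg : Lg W g) (t : ℝ) :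
    mm W (fun k => t * g k) = t * mm W g := by
  refine tendsto_nhds_unique (mm_tends (hg.smul t))
    (((mm_tends hg).const_mul t).congr fun N => ?_)
  unfold em
  rw [← mul_assoc, mul_comm t, mul_assoc, Finset.mul_sum]
  congr 1
  refine Finset.sum_congr rfl fun x _ => ?_
  rw [integral_const_mul]

theorem mm_const (W : Finset (ℤ × ℤ)) (t : ℝ) : mm W (fun _ => t) = t := by
  refine tendsto_nhds_unique (mm_tends (qlb_const W t)) ?_
  refine tendsto_const_nhds.congr' ?_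
  filter_upwards [eventually_ge_atTop 1] with N hN
  have := Mu_prob (D := DD N) (b := fun _ => 0) (fun z => by norm_num)
  have hN' : (N : ℝ) ≠ 0 := by
    have : N ≠ 0 := by omega
    exact_mod_cast this
  unfold em
  simp only [integral_const, probReal_univ, one_smul]
  rw [Finset.sum_const, qla_bx_card, nsmul_eq_mul]
  push_cast
  field_simp

theorem mm_sum {ι : Type*} (s : Finset ι) {W : Finset (ℤ × ℤ)} {g : ι → (W → ℝ) → ℝ}
    (hg : ∀ i ∈ s, Lg W (g i)) : mm W (fun k => ∑ i ∈ s, g i k) = ∑ i ∈ s, mm W (g i) := by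
  classical
  induction s using Finset.induction_on with
  | empty => simpa using mm_const W 0
  | insert a s ha ih =>
    have hs : ∀ i ∈ s, Lg W (g i) := fun i hi => hg i (Finset.mem_insert_of_mem hi)
    have h := mm_add (hg a (Finset.mem_insert_self a s)) (Lg.sum s hs)
    have h2 : (fun k => ∑ i ∈ insert a s, g i k) = fun k => g a k + ∑ i ∈ s, g i k := by
      funext k
      rw [Finset.sum_insert ha]
    rw [h2, h, ih hs, Finset.sum_insert ha]
/- END qlb -/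

/- MODULE qlc
Inequalities which hold under all laws `Mu D b` (window inside `D`) pass to `mm`; the square root
version by Jensen over the positions (`∑ √(a x) ≤ √(n ∑ a x)`).  Nonnegative combinations of several
window functions are allowed by `mm_add` etc.  Eventually (`N` large) all windows
`nb (tr x W)`, `x ∈ bx N`, lie in `DD N`. -/
private theorem qlc_st (i : Fin 6) : dn (st i) = 1 := (dn_one_iff _).2 ⟨i, rfl⟩

private theorem qlc_nb (W : Finset (ℤ × ℤ)) : ∃ ρ : ℕ, ∀ x z, z ∈ nb (tr x W) →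
    dn z ≤ dn x + ρ := by
  classical
  refine ⟨W.sup (fun w => (dn w).toNat) + 1, fun x z hz => ?_⟩
  have hW : ∀ w ∈ W, dn w ≤ ((W.sup (fun w => (dn w).toNat) : ℕ) : ℤ) := by
    intro w hw
    have h := Finset.le_sup (f := fun w => (dn w).toNat) hw
    have h2 : (dn w).toNat ≤ W.sup (fun w => (dn w).toNat) := h
    have h3 := Int.toNat_of_nonneg (dn_nonneg w)
    have h4 : (((dn w).toNat : ℕ) : ℤ) ≤ ((W.sup (fun w => (dn w).toNat) : ℕ) : ℤ) := by
      exact_mod_cast h2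
    rw [h3] at h4
    exact h4
  have key : ∀ z', z' ∈ tr x W → dn z' ≤ dn x + ((W.sup (fun w => (dn w).toNat) : ℕ) : ℤ) := by
    intro z' hz'
    rw [mem_tr] at hz'
    have h1 := hW _ hz'
    have h2 := dn_add_le x (z' - x)
    rw [add_sub_cancel] at h2
    linarith
  push_cast
  rw [mem_nb] at hz
  rcases hz with hz | ⟨i, hi⟩
  · have := key z hz
    linarith
  · have h1 := key _ hi
    have h2 := dn_add_le (z + st i) (-st i)
    rw [add_neg_cancel_right, dn_neg, qlc_st] at h2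
    linarith

private theorem qlc_bx {N : ℕ} {x : ℤ × ℤ} (hx : x ∈ bx N) : dn x ≤ 2 * (N : ℤ) := by
  unfold bx at hx
  rw [Finset.mem_product, Finset.mem_Ico, Finset.mem_Ico] at hx
  obtain ⟨⟨h1, h2⟩, h3, h4⟩ := hx
  unfold dn
  rw [abs_of_nonneg h1, abs_of_nonneg h3, abs_of_nonneg (add_nonneg h1 h3)]
  refine max_le (by linarith) (max_le (by linarith) (by linarith))

private theorem qlc_win (W : Finset (ℤ × ℤ)) : ∃ N0 : ℕ, ∀ N : ℕ, N0 ≤ N → ∀ x : ℤ × ℤ,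
    dn x ≤ 4 * (N : ℤ) → nb (tr x W) ⊆ DD N := by
  obtain ⟨ρ, hρ⟩ := qlc_nb W
  refine ⟨ρ, fun N hN x hx z hz => ?_⟩
  unfold DD
  rw [mem_ba, sub_zero]
  have h := hρ x z hz
  push_cast
  have hN' : (ρ : ℤ) ≤ N := by exact_mod_cast hN
  have hN0 : (0 : ℤ) ≤ (N : ℤ) := Int.natCast_nonneg N
  linarith

private theorem qlc_ev (W : Finset (ℤ × ℤ)) :
    ∀ᶠ N : ℕ in atTop, ∀ x ∈ bx N, nb (tr x W) ⊆ DD N := by
  obtain ⟨N0, hN0⟩ := qlc_win W
  filter_upwards [eventually_ge_atTop N0] with N hN x hx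
  refine hN0 N hN x ?_
  have h := qlc_bx hx
  have hN' : (0 : ℤ) ≤ (N : ℤ) := Int.natCast_nonneg N
  linarith

theorem mm_le {W : Finset (ℤ × ℤ)} {g g' : (W → ℝ) → ℝ} (hg : Lg W g) (hg' : Lg W g')
    (h : ∀ (D : Finset (ℤ × ℤ)) (b : ℤ × ℤ → ℝ), (∀ z, |b z| ≤ 1 / 2) → ∀ y : ℤ × ℤ,
      nb (tr y W) ⊆ D → ∫ h, g (rs W y (gl D b h)) ∂(Mu D b) ≤
        ∫ h, g' (rs W y (gl D b h)) ∂(Mu D b)) : mm W g ≤ mm W g' := by
  refine le_of_tendsto_of_tendsto (mm_tends hg) (mm_tends hg') ?_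
  filter_upwards [qlc_ev W] with N hN
  unfold em
  refine mul_le_mul_of_nonneg_left (Finset.sum_le_sum fun x hx => ?_) (by positivity)
  exact h (DD N) (fun _ => 0) (fun z => by norm_num) x (hN x hx)

private theorem qlc_jensen (N : ℕ) (a : ℤ × ℤ → ℝ) (ha : ∀ x, 0 ≤ a x) :
    ((N : ℝ) ^ 2)⁻¹ * ∑ x ∈ bx N, Real.sqrt (a x) ≤
      Real.sqrt (((N : ℝ) ^ 2)⁻¹ * ∑ x ∈ bx N, a x) := by
  rcases Nat.eq_zero_or_pos N with h0 | h0
  · subst h0
    simp
  have hN : (0 : ℝ) < (N : ℝ) := by exact_mod_cast h0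
  refine Real.le_sqrt_of_sq_le ?_
  have h1 : (∑ x ∈ bx N, Real.sqrt (a x)) ^ 2 ≤
      ((bx N).card : ℝ) * ∑ x ∈ bx N, Real.sqrt (a x) ^ 2 := sq_sum_le_card_mul_sum_sq
  have h2 : ∑ x ∈ bx N, Real.sqrt (a x) ^ 2 = ∑ x ∈ bx N, a x :=
    Finset.sum_congr rfl fun x _ => Real.sq_sqrt (ha x)
  rw [h2, qla_bx_card] at h1
  push_cast at h1
  rw [mul_pow]
  have h3 : (((N : ℝ) ^ 2)⁻¹) ^ 2 * (∑ x ∈ bx N, Real.sqrt (a x)) ^ 2 ≤
      (((N : ℝ) ^ 2)⁻¹) ^ 2 * ((N : ℝ) ^ 2 * ∑ x ∈ bx N, a x) :=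
    mul_le_mul_of_nonneg_left h1 (by positivity)
  refine h3.trans (le_of_eq ?_)
  field_simp

theorem mm_sqrt {W : Finset (ℤ × ℤ)} {g g' : (W → ℝ) → ℝ} (hg : Lg W g) (hg' : Lg W g')
    (h0 : ∀ k, 0 ≤ g' k) {C : ℝ} (hC : 0 ≤ C)
    (h : ∀ (D : Finset (ℤ × ℤ)) (b : ℤ × ℤ → ℝ), (∀ z, |b z| ≤ 1 / 2) → ∀ y : ℤ × ℤ,
      nb (tr y W) ⊆ D → ∫ h, g (rs W y (gl D b h)) ∂(Mu D b) ≤
        C * Real.sqrt (∫ h, g' (rs W y (gl D b h)) ∂(Mu D b))) :
    mm W g ≤ C * Real.sqrt (mm W g') := by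
  refine le_of_tendsto_of_tendsto (mm_tends hg)
    (((Real.continuous_sqrt.tendsto _).comp (mm_tends hg')).const_mul C) ?_
  filter_upwards [qlc_ev W] with N hN
  have h1 := qlc_jensen N (fun x => ∫ h, g' (rs W x (gl (DD N) (fun _ => 0) h))
    ∂(Mu (DD N) (fun _ => 0))) (fun x => integral_nonneg fun _ => h0 _)
  have h2 : em N W g ≤ C * (((N : ℝ) ^ 2)⁻¹ * ∑ x ∈ bx N,
      Real.sqrt (∫ h, g' (rs W x (gl (DD N) (fun _ => 0) h)) ∂(Mu (DD N) (fun _ => 0)))) := by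
    have h3 : em N W g ≤ ((N : ℝ) ^ 2)⁻¹ * ∑ x ∈ bx N, C *
        Real.sqrt (∫ h, g' (rs W x (gl (DD N) (fun _ => 0) h)) ∂(Mu (DD N) (fun _ => 0))) := by
      unfold em
      refine mul_le_mul_of_nonneg_left (Finset.sum_le_sum fun x hx => ?_)
        (inv_nonneg.2 (sq_nonneg _))
      exact h (DD N) (fun _ => 0) (fun z => by norm_num) x (hN x hx)
    rw [← Finset.mul_sum] at h3
    calc em N W g ≤ _ := h3
      _ = _ := by ring
  exact h2.trans (mul_le_mul_of_nonneg_left h1 hC)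

theorem mm_nonneg {W : Finset (ℤ × ℤ)} {g : (W → ℝ) → ℝ} (hg : Lg W g) (h0 : ∀ k, 0 ≤ g k) :
    0 ≤ mm W g := by
  refine ge_of_tendsto' (mm_tends hg) fun N => ?_
  unfold em
  exact mul_nonneg (by positivity) (Finset.sum_nonneg fun x _ => integral_nonneg fun _ => h0 _)
/- END qlc -/

/- MODULE qld
Translation of the window: with `rs W z (gl W' 0 (rs W' x H)) = rs W (x + z) H` (`rs_rs`), the two
averages over `x ∈ bx N` differ by boundary terms `≤ C |z| / N`. -/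
theorem Lg.off {W W' : Finset (ℤ × ℤ)} {z : ℤ × ℤ} (h : tr z W ⊆ W') {g : (W → ℝ) → ℝ}
    (hg : Lg W g) : Lg W' (fun k => g (rs W z (gl W' (fun _ => 0) k))) := by
  obtain ⟨C, hC⟩ := hg.bd
  refine ⟨hg.ms.comp (rs_meas W' W (fun _ => 0) z), ⟨C, fun k => hC _⟩, fun k t => ?_⟩
  have h2 : rs W z (gl W' (fun _ => 0) (fun w => k w + t)) =
      fun w => rs W z (gl W' (fun _ => (0 : ℝ)) k) w + t := by
    funext w
    have hw : z + w.1 ∈ W' := h (by rw [mem_tr, add_sub_cancel_left]; exact w.2)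
    unfold rs
    rw [gl_mem hw, gl_mem hw]
  show g (rs W z (gl W' (fun _ => 0) (fun w => k w + t))) = _
  rw [h2, hg.sh]

theorem mm_off {W W' : Finset (ℤ × ℤ)} {z : ℤ × ℤ} (h : tr z W ⊆ W') {g : (W → ℝ) → ℝ}
    (hg : Lg W g) : mm W' (fun k => g (rs W z (gl W' (fun _ => 0) k))) = mm W g := by
  refine tendsto_nhds_unique (mm_tends (hg.off h)) ?_
  rw [Metric.tendsto_atTop]
  intro ε hε
  obtain ⟨N0, hN0⟩ := mm_L1 hg (ε / 2) (by linarith)
  refine ⟨max N0 (max 2 (dn z).toNat), fun N hN => ?_⟩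
  have hN1 : N0 ≤ N := (le_max_left _ _).trans hN
  have hN2 : 2 ≤ N := ((le_max_left _ _).trans (le_max_right _ _)).trans hN
  have hN3 : (dn z).toNat ≤ N := ((le_max_right _ _).trans (le_max_right _ _)).trans hN
  have hN4 : dn z ≤ (N : ℤ) := by
    have h3 := Int.toNat_of_nonneg (dn_nonneg z)
    have h4 : (((dn z).toNat : ℕ) : ℤ) ≤ (N : ℤ) := by exact_mod_cast hN3
    rw [h3] at h4
    exact h4
  have hNr : (0 : ℝ) < (N : ℝ) := by
    have : 0 < N := by omega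
    exact_mod_cast this
  have hNpos : (0 : ℝ) < (N : ℝ) ^ 2 := by positivity
  have h1 := hN0 N hN1 (DD N) (fun _ => 0) (by intro z; norm_num) (qla_card N hN2) z (by
    intro z' hz'
    unfold DD
    rw [mem_ba, sub_zero]
    have h5 := dn_add_le z (z' - z)
    rw [add_sub_cancel] at h5
    push_cast
    have hN0' : (0 : ℤ) ≤ (N : ℤ) := Int.natCast_nonneg N
    linarith)
  rw [Real.dist_eq]
  have h2 : em N W' (fun k => g (rs W z (gl W' (fun _ => 0) k))) - mm W g =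
      ((N : ℝ) ^ 2)⁻¹ * ∑ x ∈ bx N,
      (∫ h, g (rs W (z + x) (gl (DD N) (fun _ => 0) h)) ∂(Mu (DD N) (fun _ => 0)) - mm W g) := by
    unfold em
    rw [Finset.sum_sub_distrib, Finset.sum_const, qla_bx_card, nsmul_eq_mul, mul_sub]
    have h3 : ∀ x : ℤ × ℤ, ∫ h', g (rs W z (gl W' (fun _ => 0)
        (rs W' x (gl (DD N) (fun _ => 0) h')))) ∂(Mu (DD N) (fun _ => 0)) =
        ∫ h', g (rs W (z + x) (gl (DD N) (fun _ => 0) h')) ∂(Mu (DD N) (fun _ => 0)) := by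
      intro x
      refine integral_congr_ae (Eventually.of_forall fun h' => ?_)
      show g _ = g _
      rw [rs_rs h, add_comm x z]
    simp only [h3]
    push_cast
    field_simp
  rw [h2, abs_mul, abs_of_nonneg (inv_nonneg.2 hNpos.le)]
  refine lt_of_le_of_lt (mul_le_mul_of_nonneg_left (Finset.abs_sum_le_sum_abs _ _)
    (inv_nonneg.2 hNpos.le)) ?_
  linarith
/- END qld -/

/-- window of a block average -/
def wb (W : Finset (ℤ × ℤ)) (R : ℕ) : Finset (ℤ × ℤ) := (bx R).biUnion (fun z => tr z W)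

/- MODULE qle
Law of large numbers in the universal state: for all `(D, b, y)`
`∫ |block average - mm| ≤ ∫ |block average of (g - E g)| + R^(-2) ∑_z |E g (y + z) - mm|`; the first
term is `≤ δ/2` by `uni_LL`, the second one is small after averaging over `y ∈ bx N` by `mm_L1`
(applied at `y` shifted by `z ∈ bx R`, `N → ∞`, `R` fixed). -/
private theorem qle_abs {W : Finset (ℤ × ℤ)} {g : (W → ℝ) → ℝ} (hg : Lg W g) :
    Lg W (fun k => |g k|) := by
  obtain ⟨C, hC⟩ := hg.bd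
  exact ⟨continuous_abs.measurable.comp hg.ms, ⟨C, fun k => by rw [abs_abs]; exact hC k⟩,
    fun k t => by rw [hg.sh k t]⟩

theorem mm_ll {W : Finset (ℤ × ℤ)} {g : (W → ℝ) → ℝ} (hg : Lg W g) {δ : ℝ} (hδ : 0 < δ) :
    ∃ R0 : ℕ, ∀ R : ℕ, R0 ≤ R →
      mm (wb W R) (fun k => |((R : ℝ) ^ 2)⁻¹ * ∑ z ∈ bx R,
        g (rs W z (gl (wb W R) (fun _ => 0) k)) - mm W g|) ≤ δ := by
  obtain ⟨M0, hM0⟩ := uni_LL hg (δ / 2) (by linarith)
  refine ⟨max M0 1, fun R hR => ?_⟩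
  have hR0 : M0 ≤ R := (le_max_left _ _).trans hR
  have hR1 : 1 ≤ R := (le_max_right _ _).trans hR
  have hRr : (0 : ℝ) < (R : ℝ) := by
    have : 0 < R := by omega
    exact_mod_cast this
  have hR2 : (0 : ℝ) < ((R : ℝ) ^ 2)⁻¹ := by positivity
  have hsub : ∀ z ∈ bx R, tr z W ⊆ wb W R := fun z hz =>
    Finset.subset_biUnion_of_mem (fun z => tr z W) hz
  have hG : Lg (wb W R) (fun k => ((R : ℝ) ^ 2)⁻¹ * ∑ z ∈ bx R,
      g (rs W z (gl (wb W R) (fun _ => 0) k)) - mm W g) := by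
    have h := ((Lg.sum (bx R) (g := fun z k => g (rs W z (gl (wb W R) (fun _ => 0) k)))
      (fun z hz => hg.off (hsub z hz))).smul ((R : ℝ) ^ 2)⁻¹).add
      (qlb_const (wb W R) (-(mm W g)))
    simpa only [sub_eq_add_neg] using h
  refine le_of_tendsto (mm_tends (qle_abs hG)) ?_
  obtain ⟨N0, hN0⟩ := mm_L1 hg (δ / 2) (by linarith)
  obtain ⟨N1, hN1⟩ := qlc_win W
  filter_upwards [eventually_ge_atTop (max N0 (max N1 (max 2 R)))] with N hN
  have ha0 : N0 ≤ N := (le_max_left _ _).trans hN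
  have ha1 : N1 ≤ N := ((le_max_left _ _).trans (le_max_right _ _)).trans hN
  have ha2 : 2 ≤ N := (((le_max_left _ _).trans (le_max_right _ _)).trans
    (le_max_right _ _)).trans hN
  have haR : R ≤ N := (((le_max_right _ _).trans (le_max_right _ _)).trans
    (le_max_right _ _)).trans hN
  have haR' : (R : ℤ) ≤ N := by exact_mod_cast haR
  have hNn : (0 : ℤ) ≤ (N : ℤ) := Int.natCast_nonneg N
  have hNr : (0 : ℝ) < (N : ℝ) := by
    have : 0 < N := by omega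
    exact_mod_cast this
  have hN2 : (0 : ℝ) < ((N : ℝ) ^ 2)⁻¹ := by positivity
  have hb0 : ∀ z : ℤ × ℤ, |(fun _ : ℤ × ℤ => (0 : ℝ)) z| ≤ 1 / 2 := fun z => by norm_num
  have := Mu_prob (D := DD N) hb0
  set μ := Mu (DD N) (fun _ => (0 : ℝ)) with hμ
  set a : ℤ × ℤ → ℝ := fun y => ∫ h, g (rs W y (gl (DD N) (fun _ => 0) h)) ∂μ with ha
  have hx : ∀ x ∈ bx N, ∫ h, |((R : ℝ) ^ 2)⁻¹ * ∑ z ∈ bx R, g (rs W z (gl (wb W R) (fun _ => 0)
      (rs (wb W R) x (gl (DD N) (fun _ => 0) h)))) - mm W g| ∂μ ≤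
      δ / 2 + ((R : ℝ) ^ 2)⁻¹ * ∑ z ∈ bx R, |a (z + x) - mm W g| := by
    intro x hx
    have hwin : ∀ z ∈ bx R, nb (tr (x + z) W) ⊆ DD N := by
      intro z hz
      refine hN1 N ha1 _ ?_
      have h1 := qlc_bx hx
      have h2 := qlc_bx hz
      have h3 := dn_add_le x z
      linarith
    have hLL := hM0 R hR0 (DD N) (fun _ => 0) hb0 x hwin
    have hi : ∀ z, Integrable (fun h => g (rs W (x + z) (gl (DD N) (fun _ => 0) h)) -
        a (x + z)) μ := fun z => (qlb_int hg hb0 (x + z)).sub (integrable_const _)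
    have hS : Integrable (fun h => ((R : ℝ) ^ 2)⁻¹ * ∑ z ∈ bx R,
        (g (rs W (x + z) (gl (DD N) (fun _ => 0) h)) - a (x + z))) μ :=
      (integrable_finsetSum (bx R) (fun z _ => hi z)).const_mul _
    have hpt : ∀ h : DD N → ℝ, |((R : ℝ) ^ 2)⁻¹ * ∑ z ∈ bx R,
        g (rs W z (gl (wb W R) (fun _ => 0) (rs (wb W R) x (gl (DD N) (fun _ => 0) h)))) -
        mm W g| ≤ |((R : ℝ) ^ 2)⁻¹ * ∑ z ∈ bx R,
        (g (rs W (x + z) (gl (DD N) (fun _ => 0) h)) - a (x + z))| +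
        ((R : ℝ) ^ 2)⁻¹ * ∑ z ∈ bx R, |a (z + x) - mm W g| := by
      intro h
      have e1 : ∑ z ∈ bx R, g (rs W z (gl (wb W R) (fun _ => 0)
          (rs (wb W R) x (gl (DD N) (fun _ => 0) h)))) =
          ∑ z ∈ bx R, g (rs W (x + z) (gl (DD N) (fun _ => 0) h)) :=
        Finset.sum_congr rfl fun z hz => by rw [rs_rs (hsub z hz)]
      have e2 : ((R : ℝ) ^ 2)⁻¹ * ∑ z ∈ bx R, g (rs W (x + z) (gl (DD N) (fun _ => 0) h)) -
          mm W g = ((R : ℝ) ^ 2)⁻¹ * ∑ z ∈ bx R,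
          (g (rs W (x + z) (gl (DD N) (fun _ => 0) h)) - a (x + z)) +
          ((R : ℝ) ^ 2)⁻¹ * ∑ z ∈ bx R, (a (z + x) - mm W g) := by
        rw [← mul_add, ← Finset.sum_add_distrib]
        have e3 : ∀ z ∈ bx R, (g (rs W (x + z) (gl (DD N) (fun _ => 0) h)) - a (x + z)) +
            (a (z + x) - mm W g) = g (rs W (x + z) (gl (DD N) (fun _ => 0) h)) - mm W g := by
          intro z _
          rw [add_comm z x]
          ring
        rw [Finset.sum_congr rfl e3, Finset.sum_sub_distrib, Finset.sum_const, qla_bx_card,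
          nsmul_eq_mul, mul_sub]
        push_cast
        field_simp
      rw [e1, e2]
      refine (abs_add_le _ _).trans (add_le_add le_rfl ?_)
      rw [abs_mul, abs_of_pos hR2]
      exact mul_le_mul_of_nonneg_left (Finset.abs_sum_le_sum_abs _ _) hR2.le
    have hint : ∫ h, |((R : ℝ) ^ 2)⁻¹ * ∑ z ∈ bx R, g (rs W z (gl (wb W R) (fun _ => 0)
        (rs (wb W R) x (gl (DD N) (fun _ => 0) h)))) - mm W g| ∂μ ≤
        ∫ h, (|((R : ℝ) ^ 2)⁻¹ * ∑ z ∈ bx R,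
        (g (rs W (x + z) (gl (DD N) (fun _ => 0) h)) - a (x + z))| +
        ((R : ℝ) ^ 2)⁻¹ * ∑ z ∈ bx R, |a (z + x) - mm W g|) ∂μ :=
      integral_mono (qlb_int (qle_abs hG) hb0 x) (hS.abs.add (integrable_const _)) hpt
    rw [integral_add hS.abs (integrable_const _)] at hint
    simp only [integral_const, probReal_univ, one_smul] at hint
    exact hint.trans (add_le_add hLL le_rfl)
  have hem : em N (wb W R) (fun k => |((R : ℝ) ^ 2)⁻¹ * ∑ z ∈ bx R,
      g (rs W z (gl (wb W R) (fun _ => 0) k)) - mm W g|) ≤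
      ((N : ℝ) ^ 2)⁻¹ * ∑ x ∈ bx N,
        (δ / 2 + ((R : ℝ) ^ 2)⁻¹ * ∑ z ∈ bx R, |a (z + x) - mm W g|) := by
    unfold em
    exact mul_le_mul_of_nonneg_left (Finset.sum_le_sum hx) hN2.le
  refine hem.trans ?_
  rw [Finset.sum_add_distrib, Finset.sum_const, qla_bx_card, nsmul_eq_mul, ← Finset.mul_sum,
    Finset.sum_comm, mul_add]
  have h1 : ((N : ℝ) ^ 2)⁻¹ * (((N ^ 2 : ℕ) : ℝ) * (δ / 2)) = δ / 2 := by
    push_cast
    field_simp
  have h2 : ((N : ℝ) ^ 2)⁻¹ * (((R : ℝ) ^ 2)⁻¹ * ∑ z ∈ bx R, ∑ x ∈ bx N, |a (z + x) - mm W g|) =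
      ((R : ℝ) ^ 2)⁻¹ * ∑ z ∈ bx R, ((N : ℝ) ^ 2)⁻¹ * ∑ x ∈ bx N, |a (z + x) - mm W g| := by
    rw [← Finset.mul_sum]
    ring
  rw [h1, h2]
  have h3 : ∑ z ∈ bx R, ((N : ℝ) ^ 2)⁻¹ * ∑ x ∈ bx N, |a (z + x) - mm W g| ≤
      ∑ z ∈ bx R, δ / 2 := by
    refine Finset.sum_le_sum fun z hz => ?_
    refine hN0 N ha0 (DD N) (fun _ => 0) hb0 (qla_card N ha2) z ?_
    intro z' hz'
    unfold DD
    rw [mem_ba, sub_zero]
    have h5 := dn_add_le z (z' - z)
    rw [add_sub_cancel] at h5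
    have h6 := qlc_bx hz
    push_cast
    linarith
  rw [Finset.sum_const, qla_bx_card, nsmul_eq_mul] at h3
  have h4 : ((R : ℝ) ^ 2)⁻¹ * ∑ z ∈ bx R, ((N : ℝ) ^ 2)⁻¹ * ∑ x ∈ bx N, |a (z + x) - mm W g| ≤
      ((R : ℝ) ^ 2)⁻¹ * (((R ^ 2 : ℕ) : ℝ) * (δ / 2)) := mul_le_mul_of_nonneg_left h3 hR2.le
  have h5 : ((R : ℝ) ^ 2)⁻¹ * (((R ^ 2 : ℕ) : ℝ) * (δ / 2)) = δ / 2 := by
    push_cast
    field_simp
  linarith
/- END qle -/

/-- mean of `Th` in the universal state -/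
def tB (B : Finset (ℤ × ℤ)) (m : ℕ) (d : ℝ × ℝ) : ℝ :=
  mm (nb B) (fun k => Th B m d (g0 (nb B) k))

/- MODULE qlf
Properties of `tB`: `Th` is `Lg` (`Th_meas`, `Th_nonneg`, `Th_le`, `Th_shf`);
`Th B m d (sf y (gl D b h)) = Th B m d (g0 (nb B) (rs (nb B) y (gl D b h)))` (`Th_loc`); quadratic
(`Th_quad`); bounds (`Th_mean`); the window function of a placed universal field is `Lg`. -/
theorem Th_Lg (B : Finset (ℤ × ℤ)) (m : ℕ) (d : ℝ × ℝ) :
    Lg (nb B) (fun k => Th B m d (g0 (nb B) k)) := by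
  obtain ⟨C, -, h⟩ := Th_le B m
  exact ⟨Th_meas B m d, ⟨C * qd d, fun k => by
    rw [abs_of_nonneg (Th_nonneg B m d _)]
    exact h d _⟩, Th_shf B m d⟩

theorem Th_rs (B : Finset (ℤ × ℤ)) (m : ℕ) (d : ℝ × ℝ) (y : ℤ × ℤ) (H : ℤ × ℤ → ℝ) :
    Th B m d (sf y H) = Th B m d (g0 (nb B) (rs (nb B) y H)) := by
  refine Th_loc B m d (fun z hz _ => ?_)
  show H (y + z) = g0 (nb B) (rs (nb B) y H) z
  unfold g0
  rw [gl_mem hz]
  rfl

theorem tB_quad (B : Finset (ℤ × ℤ)) (m : ℕ) (d : ℝ × ℝ) :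
    tB B m d = d.1 ^ 2 * tB B m (1, 0) + d.2 ^ 2 * tB B m (0, 1) +
      d.1 * d.2 * (tB B m (1, 1) - tB B m (1, 0) - tB B m (0, 1)) := by
  have h10 := Th_Lg B m (1, 0)
  have h01 := Th_Lg B m (0, 1)
  have h11 := Th_Lg B m (1, 1)
  have e : (fun k => Th B m d (g0 (nb B) k)) = fun k =>
      ((d.1 ^ 2 - d.1 * d.2) * Th B m (1, 0) (g0 (nb B) k) +
        (d.2 ^ 2 - d.1 * d.2) * Th B m (0, 1) (g0 (nb B) k)) +
        (d.1 * d.2) * Th B m (1, 1) (g0 (nb B) k) := by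
    funext k
    rw [Th_quad B m d]
    ring
  unfold tB
  rw [e, mm_add ((h10.smul _).add (h01.smul _)) (h11.smul _), mm_add (h10.smul _) (h01.smul _),
    mm_smul h10, mm_smul h01, mm_smul h11]
  ring

theorem tB_bd : ∃ C : ℝ, 0 ≤ C ∧ ∀ (B : Finset (ℤ × ℤ)), B.Nonempty → ∀ (m : ℕ) (d : ℝ × ℝ),
    0 ≤ tB B m d ∧ tB B m d ≤ C * qd d * B.card := by
  obtain ⟨C, hC, h⟩ := Th_mean
  refine ⟨C, hC, fun B hB m d => ⟨mm_nonneg (Th_Lg B m d) (fun k => Th_nonneg B m d _), ?_⟩⟩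
  have h1 := mm_le (Th_Lg B m d) (qlb_const (nb B) (C * qd d * B.card)) (fun D b hb y hD => by
    have := Mu_prob (D := D) hb
    have h2 := h B hB m d D b hb y hD
    simp only [Th_rs] at h2
    simpa using h2)
  rwa [mm_const] at h1

private theorem qlf_mul {W : Finset (ℤ × ℤ)} {g g' : (W → ℝ) → ℝ} (hg : Lg W g)
    (hg' : Lg W g') : Lg W (fun k => g k * g' k) := by
  obtain ⟨C, hC⟩ := hg.bd
  obtain ⟨C', hC'⟩ := hg'.bd
  refine ⟨hg.ms.mul hg'.ms, ⟨C * C', fun k => ?_⟩, fun k t => by rw [hg.sh k t, hg'.sh k t]⟩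
  rw [abs_mul]
  exact mul_le_mul (hC k) (hC' k) (abs_nonneg _) ((abs_nonneg _).trans (hC k))

private theorem qlf_V {B : Finset (ℤ × ℤ)} {V : ℤ × ℤ → (nb B → ℝ) → ℝ} (hV : UF B V)
    (z : ℤ × ℤ) : Lg (nb B) (V z) := by
  obtain ⟨C, hC⟩ := hV.bdd
  exact ⟨(hV.nice.sm z).continuous.measurable, ⟨C, hC z⟩, hV.shf z⟩

private theorem qlf_pz {B : Finset (ℤ × ℤ)} {V : ℤ × ℤ → (nb B → ℝ) → ℝ} (hV : UF B V)
    (z y : ℤ × ℤ) : Lg (nb B) (pz (nb B) y (V z)) := by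
  obtain ⟨C, hC⟩ := hV.dbdd
  refine ⟨(pz_cont ((hV.nice.sm z).of_le (by simp))).measurable, ⟨C, hC z y⟩, fun k t => ?_⟩
  unfold pz
  by_cases hy : y ∈ nb B
  · rw [dif_pos hy, dif_pos hy]
    unfold pd
    have h1 : (fun k => V z (fun w => k w + t)) = V z := by
      funext k
      exact hV.shf z k t
    have h2 : fderiv ℝ (fun k : nb B → ℝ => V z (fun w => k w + t)) k =
        fderiv ℝ (V z) (fun w => k w + t) := by
      have h3 := fderiv_comp_add_right (𝕜 := ℝ) (f := V z) (x := k) (fun _ : nb B => t)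
      exact h3
    rw [← h2, h1]
  · rw [dif_neg hy, dif_neg hy]

private theorem qlf_gt {B A : Finset (ℤ × ℤ)} (hA : A ⊆ B) (m : ℕ) {x : ℤ × ℤ}
    (hx : x ∈ inn A (m + 2)) (i : Fin 6) :
    Lg (nb B) (fun k => gt m x i (gl (nb B) (fun _ => 0) k)) := by
  refine ⟨gt_meas (nb B) _ m x i, ⟨1, fun k => ?_⟩, fun k t => ?_⟩
  · rcases gt_mem m x i (gl (nb B) (fun _ => 0) k) with h | h <;> rw [h] <;> norm_num
  · rw [← gt_shift m x i (gl (nb B) (fun _ => 0) k) t]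
    refine gt_loc fun z hz => ?_
    have hzA : z ∈ A := (mem_inn.1 hx) z (by push_cast; linarith)
    have hzB : z ∈ nb B := mem_nb.2 (Or.inl (hA hzA))
    rw [gl_mem hzB, gl_mem hzB]

theorem UF_Lg {B : Finset (ℤ × ℤ)} {V : ℤ × ℤ → (nb B → ℝ) → ℝ} (hV : UF B V) {A : Finset (ℤ × ℤ)}
    (hA : A ⊆ B) (m : ℕ) (d : ℝ × ℝ) :
    Lg (nb B) (en (nb B) A V) ∧ (∀ i, Lg (nb B) (sx (nb B) (fun _ => 0) A m V i)) ∧
      Lg (nb B) (Jf (nb B) (fun _ => 0) A m d V) := by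
  have h1 : Lg (nb B) (en (nb B) A V) := by
    have h := Lg.sum A (W := nb B) (g := fun x k => ∑ y ∈ A, pz (nb B) y (V x) k *
      pz (nb B) y (V x) k) (fun x _ => Lg.sum A (fun y _ => qlf_mul (qlf_pz hV x y)
        (qlf_pz hV x y)))
    have e : en (nb B) A V = fun k => ∑ x ∈ A, ∑ y ∈ A, pz (nb B) y (V x) k *
        pz (nb B) y (V x) k := by
      funext k
      unfold en
      simp only [sq]
    rw [e]
    exact h
  have h2 : ∀ i, Lg (nb B) (sx (nb B) (fun _ => 0) A m V i) := by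
    intro i
    refine Lg.sum (inn A (m + 2)) (W := nb B) (g := fun x k => gt m x i (gl (nb B) (fun _ => 0) k) *
      (V (x + st i) k - V x k)) (fun x hx => qlf_mul (qlf_gt hA m hx i) ?_)
    have h := (qlf_V hV (x + st i)).add ((qlf_V hV x).smul (-1))
    have e : (fun k => V (x + st i) k - V x k) = fun k => V (x + st i) k + -1 * V x k := by
      funext k
      ring
    rw [e]
    exact h
  refine ⟨h1, h2, ?_⟩
  have h := (Lg.sum Finset.univ (W := nb B) (g := fun i k => dc d i *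
    sx (nb B) (fun _ => 0) A m V i k) (fun i _ => (h2 i).smul (dc d i))).add (h1.smul (-1))
  have e : Jf (nb B) (fun _ => 0) A m d V = fun k => ∑ i, dc d i *
      sx (nb B) (fun _ => 0) A m V i k + -1 * en (nb B) A V k := by
    funext k
    unfold Jf
    ring
  rw [e]
  exact h

theorem UF.comb {B : Finset (ℤ × ℤ)} {V U : ℤ × ℤ → (nb B → ℝ) → ℝ} (hV : UF B V) (hU : UF B U)
    (s t : ℝ) : UF B (s • V + t • U) := by
  obtain ⟨C, hC⟩ := hV.bdd
  obtain ⟨C', hC'⟩ := hU.bdd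
  obtain ⟨E, hE⟩ := hV.dbdd
  obtain ⟨E', hE'⟩ := hU.dbdd
  refine ⟨(hV.nice.smul s).add (hU.nice.smul t), fun z k r => ?_, ⟨|s| * C + |t| * C',
    fun z k => ?_⟩, ⟨|s| * E + |t| * E', fun z y k => ?_⟩⟩
  · show s * V z _ + t * U z _ = s * V z k + t * U z k
    rw [hV.shf z k r, hU.shf z k r]
  · show |s * V z k + t * U z k| ≤ _
    refine (abs_add_le _ _).trans (add_le_add ?_ ?_)
    · rw [abs_mul]
      exact mul_le_mul_of_nonneg_left (hC z k) (abs_nonneg s)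
    · rw [abs_mul]
      exact mul_le_mul_of_nonneg_left (hC' z k) (abs_nonneg t)
  · have dV : DifferentiableAt ℝ (V z) k := (hV.nice.sm z).differentiable (by simp) k
    have dU : DifferentiableAt ℝ (U z) k := (hU.nice.sm z).differentiable (by simp) k
    have e : pz (nb B) y ((s • V + t • U) z) k = s * pz (nb B) y (V z) k +
        t * pz (nb B) y (U z) k := by
      have h1 := pz_add (S := nb B) (y := y) (dV.const_mul s) (dU.const_mul t)
      rw [pz_smul s dV, pz_smul t dU] at h1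
      exact h1
    rw [e]
    refine (abs_add_le _ _).trans (add_le_add ?_ ?_)
    · rw [abs_mul]
      exact mul_le_mul_of_nonneg_left (hE z y k) (abs_nonneg s)
    · rw [abs_mul]
      exact mul_le_mul_of_nonneg_left (hE' z y k) (abs_nonneg t)
/- END qlf -/

/- MODULE qlg
THE COMPARISON.  `V = d.1 V0 + d.2 V1` from `near_mx` for `(B, M)` with a small `ε`; for all
`(D, c, y)`: `E Th_B - ε qd ≤ E Jf_B(V) ≤ (card b)⁻¹ ∑_z E Jf_{y+z+b}(V) + err √(E en V)`
(`gc_lemma` for the box `tr y B`, whose `sp`, `te` are the translates), `E Jf_{y+z+b} ≤ E Th_b`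
(`th_up`), `E en V ≤ E Th + def + 2 √(E Th def) ≤ C qd (card B + ε)` (`th_energy`, `Th_mean`);
`card (sp b B) ≤ card B`; pass to `mm` and let `ε → 0`. -/
private theorem qlg_tr_tr (y z : ℤ × ℤ) (b : Finset (ℤ × ℤ)) : tr (y + z) b = tr y (tr z b) := by
  ext x
  simp only [mem_tr]
  rw [show x - (y + z) = x - y - z by abel]

private theorem qlg_tr_sub {y : ℤ × ℤ} {A B : Finset (ℤ × ℤ)} : tr y A ⊆ tr y B ↔ A ⊆ B := by
  constructor
  · intro h x hx
    have h1 : y + x ∈ tr y A := by rw [mem_tr, add_sub_cancel_left]; exact hx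
    have h2 := h h1
    rwa [mem_tr, add_sub_cancel_left] at h2
  · intro h x hx
    rw [mem_tr] at hx ⊢
    exact h hx

private theorem qlg_nb_tr (y : ℤ × ℤ) (B : Finset (ℤ × ℤ)) : nb (tr y B) = tr y (nb B) := by
  ext x
  rw [mem_nb, mem_tr, mem_tr, mem_nb]
  refine or_congr Iff.rfl (exists_congr fun i => ?_)
  rw [mem_tr, show x + st i - y = x - y + st i by abel]

private theorem qlg_nb_mono {A B : Finset (ℤ × ℤ)} (h : A ⊆ B) : nb A ⊆ nb B := by
  intro x hx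
  rw [mem_nb] at hx ⊢
  exact hx.imp (fun hx => h hx) (fun ⟨i, hi⟩ => ⟨i, h hi⟩)

private theorem qlg_sub_nb (B : Finset (ℤ × ℤ)) : B ⊆ nb B := fun _ hx => mem_nb.2 (Or.inl hx)

private theorem qlg_mem_sp {b B : Finset (ℤ × ℤ)} {z : ℤ × ℤ} :
    z ∈ sp b B ↔ z ∈ B ∧ tr z b ⊆ B := by
  unfold sp
  rw [Finset.mem_filter]

private theorem qlg_sp_tr (b B : Finset (ℤ × ℤ)) (y : ℤ × ℤ) : sp b (tr y B) = tr y (sp b B) := by
  ext z
  rw [qlg_mem_sp, mem_tr, mem_tr, qlg_mem_sp]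
  refine and_congr Iff.rfl ?_
  have h : tr z b = tr y (tr (z - y) b) := by
    rw [← qlg_tr_tr, add_sub_cancel]
  rw [h, qlg_tr_sub]

private theorem qlg_sum_tr (y : ℤ × ℤ) (A : Finset (ℤ × ℤ)) (f : ℤ × ℤ → ℝ) :
    ∑ z ∈ tr y A, f z = ∑ z ∈ A, f (y + z) := by
  unfold tr
  rw [Finset.sum_image (fun _ _ _ _ h => add_left_cancel h)]

private theorem qlg_om_tr (b B : Finset (ℤ × ℤ)) (m : ℕ) (x y : ℤ × ℤ) :
    omw b (tr y B) m (y + x) = omw b B m x := by
  classical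
  unfold omw
  congr 2
  symm
  refine Finset.card_bij (fun z _ => y + z) (fun z hz => ?_) (fun _ _ _ _ h => add_left_cancel h)
    (fun z hz => ⟨z - y, ?_, by abel⟩)
  · rw [Finset.mem_filter] at hz ⊢
    rw [qlg_sp_tr, mem_tr, add_sub_cancel_left, mem_tr, add_sub_add_left_eq_sub]
    exact ⟨hz.1, mem_tr.1 hz.2⟩
  · rw [Finset.mem_filter] at hz ⊢
    rw [qlg_sp_tr, mem_tr] at hz
    refine ⟨hz.1, ?_⟩
    have h := hz.2
    rw [mem_tr] at h ⊢
    rwa [show x - (z - y) = y + x - z by abel]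

private theorem qlg_te_tr (b B : Finset (ℤ × ℤ)) (m M : ℕ) (x y : ℤ × ℤ) :
    te b (tr y B) m M (y + x) = te b B m M x := by
  classical
  have h : (y + x ∈ inn (tr y B) (M + 2)) ↔ x ∈ inn B (M + 2) := by
    rw [inn_tr, mem_tr, add_sub_cancel_left]
  unfold te
  simp only [h, qlg_om_tr]

private theorem qlg_te_sum (b B : Finset (ℤ × ℤ)) (m M : ℕ) (y : ℤ × ℤ) :
    ∑ x ∈ tr y B, te b (tr y B) m M x ^ 2 = ∑ x ∈ B, te b B m M x ^ 2 := by
  rw [qlg_sum_tr]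
  exact Finset.sum_congr rfl fun x _ => by rw [qlg_te_tr]

private theorem qlg_tr_card (y : ℤ × ℤ) (B : Finset (ℤ × ℤ)) : (tr y B).card = B.card := by
  unfold tr
  exact Finset.card_image_of_injective _ (add_right_injective y)

private theorem qlg_qd (d : ℝ × ℝ) : 0 ≤ qd d := by
  unfold qd
  have h : 0 ≤ ∑ i, (dc d i) ^ 2 := Finset.sum_nonneg fun i _ => sq_nonneg _
  linarith

private theorem qlg_main {C₁ C₂ : ℝ} (hC₁ : 0 ≤ C₁) (hC₂ : 0 ≤ C₂)
    (hgc : ∀ (b B : Finset (ℤ × ℤ)) (m M : ℕ), m ≤ M →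
      (0, 0) ∈ b → ∀ (d : ℝ × ℝ) (D : Finset (ℤ × ℤ)) (c : ℤ × ℤ → ℝ), (∀ z, |c z| ≤ 1 / 2) →
      B ⊆ D → ∀ v : ℤ × ℤ → (D → ℝ) → ℝ, LNice D B v →
      ∫ h, Jf D c B M d v h ∂(Mu D c) ≤
        (b.card : ℝ)⁻¹ * ∑ z ∈ sp b B, ∫ h, Jf D c (tr z b) m d v h ∂(Mu D c) +
        C₁ * Real.sqrt (qd d) * ((9 / 10) ^ m * Real.sqrt B.card +
          Real.sqrt (∑ x ∈ B, te b B m M x ^ 2)) * Real.sqrt (∫ h, en D B v h ∂(Mu D c)))
    (hmean : ∀ (B : Finset (ℤ × ℤ)), B.Nonempty → ∀ (m : ℕ) (d : ℝ × ℝ)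
      (D : Finset (ℤ × ℤ)) (b : ℤ × ℤ → ℝ), (∀ z, |b z| ≤ 1 / 2) → ∀ y : ℤ × ℤ,
      nb (tr y (nb B)) ⊆ D →
      ∫ h, Th B m d (sf y (gl D b h)) ∂(Mu D b) ≤ C₂ * qd d * B.card)
    (b B : Finset (ℤ × ℤ)) (m M : ℕ) (hm : m ≤ M) (h0 : (0, 0) ∈ b) (hB : B.Nonempty)
    (d : ℝ × ℝ) {ε : ℝ} (hε : 0 < ε) (hε1 : ε ≤ B.card) :
    tB B M d ≤ ε * qd d + B.card * (tB b m d / b.card) +
      C₁ * Real.sqrt (qd d) * ((9 / 10) ^ m * Real.sqrt B.card +
          Real.sqrt (∑ x ∈ B, te b B m M x ^ 2)) *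
        Real.sqrt ((2 * C₂ + 2) * qd d * B.card) := by
  obtain ⟨V0, V1, hV0, hV1, hnm⟩ := near_mx hB M hε
  have hV : UF B (d.1 • V0 + d.2 • V1) := hV0.comb hV1 d.1 d.2
  set V := d.1 • V0 + d.2 • V1 with hVdef
  obtain ⟨hen, -, hJf⟩ := UF_Lg hV (Finset.Subset.refl B) M d
  have hbc : (0 : ℝ) < (b.card : ℝ) := by
    have : 0 < b.card := Finset.card_pos.2 ⟨_, h0⟩
    exact_mod_cast this
  have hBc : (0 : ℝ) < (B.card : ℝ) := by
    have : 0 < B.card := Finset.card_pos.2 hB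
    exact_mod_cast this
  have hq := qlg_qd d
  have hBn := qlg_sub_nb B
  -- the fundamental relations for all `(D, c, y)`
  have hplJ : ∀ (D : Finset (ℤ × ℤ)) (c : ℤ × ℤ → ℝ) (y : ℤ × ℤ), tr y (nb B) ⊆ D →
      ∫ h, Jf D c (tr y B) M d (pl D c (nb B) y V) h ∂(Mu D c) =
        ∫ h, Jf (nb B) (fun _ => 0) B M d V (rs (nb B) y (gl D c h)) ∂(Mu D c) := by
    intro D c y hD
    refine integral_congr_ae (Filter.Eventually.of_forall fun h => ?_)
    exact Jf_pl hBn hD hV.nice M d h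
  have hplE : ∀ (D : Finset (ℤ × ℤ)) (c : ℤ × ℤ → ℝ) (y : ℤ × ℤ), tr y (nb B) ⊆ D →
      ∫ h, en D (tr y B) (pl D c (nb B) y V) h ∂(Mu D c) =
        ∫ h, en (nb B) B V (rs (nb B) y (gl D c h)) ∂(Mu D c) := by
    intro D c y hD
    refine integral_congr_ae (Filter.Eventually.of_forall fun h => ?_)
    exact en_pl hBn hD hV.nice h
  -- (1) tB ≤ mm Jf + ε qd
  have s1 : tB B M d ≤ mm (nb B) (Jf (nb B) (fun _ => 0) B M d V) + ε * qd d := by
    have h1 := mm_le (Th_Lg B M d) (hJf.add (qlb_const (nb B) (ε * qd d)))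
      (fun D c hc y hD => by
        have := Mu_prob (D := D) hc
        have h2 := hnm D c hc y hD d
        have hsub : tr y (nb B) ⊆ D := (qlg_sub_nb _).trans hD
        rw [hplJ D c y hsub] at h2
        simp only [Th_rs] at h2
        rw [integral_add (qlb_int hJf hc y) (integrable_const _)]
        simp only [integral_const, probReal_univ, one_smul]
        linarith)
    rw [mm_add hJf (qlb_const _ _), mm_const] at h1
    exact h1
  -- (2) the moving average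
  have hwin : ∀ z ∈ sp b B, tr z (nb b) ⊆ nb B := by
    intro z hz
    rw [← qlg_nb_tr]
    exact qlg_nb_mono (qlg_mem_sp.1 hz).2
  have hThz : ∀ z ∈ sp b B, Lg (nb B) (fun k => Th b m d (g0 (nb b)
      (rs (nb b) z (gl (nb B) (fun _ => 0) k)))) := fun z hz => (Th_Lg b m d).off (hwin z hz)
  have hsum : Lg (nb B) (fun k => ∑ z ∈ sp b B, Th b m d (g0 (nb b)
      (rs (nb b) z (gl (nb B) (fun _ => 0) k)))) :=
    Lg.sum (sp b B) (g := fun z k => Th b m d (g0 (nb b)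
      (rs (nb b) z (gl (nb B) (fun _ => 0) k)))) hThz
  have hG : Lg (nb B) (fun k => Jf (nb B) (fun _ => 0) B M d V k +
      (-(b.card : ℝ)⁻¹) * ∑ z ∈ sp b B, Th b m d (g0 (nb b)
      (rs (nb b) z (gl (nb B) (fun _ => 0) k)))) := hJf.add (hsum.smul _)
  have hE : 0 ≤ C₁ * Real.sqrt (qd d) * ((9 / 10) ^ m * Real.sqrt B.card +
      Real.sqrt (∑ x ∈ B, te b B m M x ^ 2)) := by positivity
  have s2 := mm_sqrt hG hen (fun k => by
      unfold en
      exact Finset.sum_nonneg fun x _ => Finset.sum_nonneg fun y _ => sq_nonneg _) hE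
    (fun D c hc y hD => by
      have := Mu_prob (D := D) hc
      have hsub : tr y (nb B) ⊆ D := (qlg_sub_nb _).trans hD
      have hsubB : tr y B ⊆ D := (qlg_tr_sub.2 hBn).trans hsub
      have hln : LNice D (tr y B) (pl D c (nb B) y V) := pl_lnice hBn hsub hV.nice
      have h1 := hgc b (tr y B) m M hm h0 d D c hc hsubB _ hln
      rw [hplJ D c y hsub, hplE D c y hsub, qlg_te_sum, qlg_tr_card, qlg_sp_tr, qlg_sum_tr] at h1
      have h2 : ∑ z ∈ sp b B, ∫ h, Jf D c (tr (y + z) b) m d (pl D c (nb B) y V) h ∂(Mu D c) ≤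
          ∑ z ∈ sp b B, ∫ h, Th b m d (g0 (nb b) (rs (nb b) z (gl (nb B) (fun _ => 0)
            (rs (nb B) y (gl D c h))))) ∂(Mu D c) := by
        refine Finset.sum_le_sum fun z hz => ?_
        have h3 : tr (y + z) b ⊆ tr y B := by
          rw [qlg_tr_tr, qlg_tr_sub]
          exact (qlg_mem_sp.1 hz).2
        have h4 := th_up b m d hc (y := y + z) (h3.trans hsubB) (hln.mono h3)
        refine h4.trans (le_of_eq ?_)
        refine integral_congr_ae (Filter.Eventually.of_forall fun h => ?_)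
        have h9 := rs_rs (S := D) (c := c) (y := y) (hwin z hz) h
        show Th b m d (sf (y + z) (gl D c h)) = Th b m d (g0 (nb b) (rs (nb b) z
          (gl (nb B) (fun _ => 0) (rs (nb B) y (gl D c h)))))
        rw [h9, Th_rs]
      have h5 : ∫ h, (Jf (nb B) (fun _ => 0) B M d V (rs (nb B) y (gl D c h)) +
          (-(b.card : ℝ)⁻¹) * ∑ z ∈ sp b B, Th b m d (g0 (nb b)
          (rs (nb b) z (gl (nb B) (fun _ => 0) (rs (nb B) y (gl D c h)))))) ∂(Mu D c) =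
          ∫ h, Jf (nb B) (fun _ => 0) B M d V (rs (nb B) y (gl D c h)) ∂(Mu D c) -
          (b.card : ℝ)⁻¹ * ∑ z ∈ sp b B, ∫ h, Th b m d (g0 (nb b)
          (rs (nb b) z (gl (nb B) (fun _ => 0) (rs (nb B) y (gl D c h))))) ∂(Mu D c) := by
        rw [integral_add (qlb_int hJf hc y) ((qlb_int hsum hc y).const_mul _),
          integral_const_mul, integral_finsetSum _ (fun z hz => qlb_int (hThz z hz) hc y)]
        ring
      show ∫ h, (Jf (nb B) (fun _ => 0) B M d V (rs (nb B) y (gl D c h)) +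
          (-(b.card : ℝ)⁻¹) * ∑ z ∈ sp b B, Th b m d (g0 (nb b)
          (rs (nb b) z (gl (nb B) (fun _ => 0) (rs (nb B) y (gl D c h)))))) ∂(Mu D c) ≤ _
      rw [h5]
      have h6 := mul_le_mul_of_nonneg_left h2 (inv_nonneg.2 hbc.le)
      linarith)
  have s3 : mm (nb B) (fun k => Jf (nb B) (fun _ => 0) B M d V k +
      (-(b.card : ℝ)⁻¹) * ∑ z ∈ sp b B, Th b m d (g0 (nb b)
      (rs (nb b) z (gl (nb B) (fun _ => 0) k)))) =
      mm (nb B) (Jf (nb B) (fun _ => 0) B M d V) -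
        (b.card : ℝ)⁻¹ * ((sp b B).card * tB b m d) := by
    rw [mm_add hJf (hsum.smul _), mm_smul hsum, mm_sum (sp b B) (g := fun z k => Th b m d
      (g0 (nb b) (rs (nb b) z (gl (nb B) (fun _ => 0) k)))) hThz]
    have h1 : ∀ z ∈ sp b B, mm (nb B) (fun k => Th b m d (g0 (nb b)
        (rs (nb b) z (gl (nb B) (fun _ => 0) k)))) = tB b m d := by
      intro z hz
      have h2 := mm_off (W := nb b) (W' := nb B) (z := z) (hwin z hz)
        (g := fun k => Th b m d (g0 (nb b) k)) (Th_Lg b m d)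
      unfold tB
      exact h2
    rw [Finset.sum_congr rfl h1, Finset.sum_const, nsmul_eq_mul]
    ring
  rw [s3] at s2
  -- (3) the energy
  have s4 : mm (nb B) (en (nb B) B V) ≤ (2 * C₂ + 2) * qd d * B.card := by
    have h1 := mm_le hen (qlb_const (nb B) ((2 * C₂ + 2) * qd d * B.card))
      (fun D c hc y hD => by
        have := Mu_prob (D := D) hc
        have hsub : tr y (nb B) ⊆ D := (qlg_sub_nb _).trans hD
        have hsubB : tr y B ⊆ D := (qlg_tr_sub.2 hBn).trans hsub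
        have hln : LNice D (tr y B) (pl D c (nb B) y V) := pl_lnice hBn hsub hV.nice
        have h2 := hnm D c hc y hD d
        have h3 := hmean B hB M d D c hc y hD
        have h4 := th_energy B M d hc (y := y) hsubB hln rfl rfl rfl
        have h5 := th_up B M d hc (y := y) hsubB hln
        rw [← hplE D c y hsub]
        simp only [integral_const, probReal_univ, one_smul]
        set T := ∫ h, Th B M d (sf y (gl D c h)) ∂(Mu D c) with hT
        set J := ∫ h, Jf D c (tr y B) M d (pl D c (nb B) y V) h ∂(Mu D c) with hJ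
        set e := ∫ h, en D (tr y B) (pl D c (nb B) y V) h ∂(Mu D c) with he
        have hT0 : 0 ≤ T := integral_nonneg fun _ => Th_nonneg _ _ _ _
        have hdef : T - J ≤ ε * qd d := h2
        have hdef0 : 0 ≤ T - J := by linarith
        have h6 : 2 * Real.sqrt (T * (T - J)) ≤ T + (T - J) := by
          rw [Real.sqrt_mul hT0]
          have h7 := sq_nonneg (Real.sqrt T - Real.sqrt (T - J))
          have h8 := Real.sq_sqrt hT0
          have h9 := Real.sq_sqrt hdef0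
          nlinarith
        have h7 := (abs_le.1 h4).2
        have h8 : ε * qd d ≤ B.card * qd d := mul_le_mul_of_nonneg_right hε1 hq
        nlinarith)
    rw [mm_const] at h1
    exact h1
  have s5 : Real.sqrt (mm (nb B) (en (nb B) B V)) ≤ Real.sqrt ((2 * C₂ + 2) * qd d * B.card) :=
    Real.sqrt_le_sqrt s4
  have s6 := mul_le_mul_of_nonneg_left s5 hE
  have htb : 0 ≤ tB b m d := mm_nonneg (Th_Lg b m d) (fun k => Th_nonneg b m d _)
  have hspc : ((sp b B).card : ℝ) ≤ B.card := by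
    have : (sp b B).card ≤ B.card := by
      refine Finset.card_le_card fun z hz => (qlg_mem_sp.1 hz).1
    exact_mod_cast this
  have s7 : (b.card : ℝ)⁻¹ * ((sp b B).card * tB b m d) ≤ B.card * (tB b m d / b.card) := by
    have h1 : ((sp b B).card : ℝ) * tB b m d ≤ B.card * tB b m d :=
      mul_le_mul_of_nonneg_right hspc htb
    have h2 := mul_le_mul_of_nonneg_left h1 (inv_nonneg.2 hbc.le)
    refine h2.trans (le_of_eq ?_)
    rw [div_eq_mul_inv]
    ring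
  linarith

theorem tB_comp : ∃ C : ℝ, 0 ≤ C ∧ ∀ (b B : Finset (ℤ × ℤ)) (m M : ℕ), m ≤ M → (0, 0) ∈ b →
    B.Nonempty → ∀ d : ℝ × ℝ,
    tB B M d / B.card ≤ tB b m d / b.card + C * qd d * ((9 / 10) ^ m +
      Real.sqrt ((∑ x ∈ B, te b B m M x ^ 2) / B.card)) := by
  obtain ⟨C₁, hC₁, hgc⟩ := gc_lemma
  obtain ⟨C₂, hC₂, hmean⟩ := Th_mean
  refine ⟨C₁ * Real.sqrt (2 * C₂ + 2), by positivity, fun b B m M hm h0 hB d => ?_⟩
  have hBc : (0 : ℝ) < (B.card : ℝ) := by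
    have : 0 < B.card := Finset.card_pos.2 hB
    exact_mod_cast this
  have hq := qlg_qd d
  set S : ℝ := ∑ x ∈ B, te b B m M x ^ 2 with hS
  have hS0 : 0 ≤ S := Finset.sum_nonneg fun _ _ => sq_nonneg _
  have key : tB B M d ≤ B.card * (tB b m d / b.card) +
      C₁ * Real.sqrt (qd d) * ((9 / 10) ^ m * Real.sqrt B.card + Real.sqrt S) *
        Real.sqrt ((2 * C₂ + 2) * qd d * B.card) := by
    refine le_of_forall_pos_le_add fun η hη => ?_
    have h1 := qlg_main hC₁ hC₂ hgc hmean b B m M hm h0 hB d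
      (ε := min (B.card : ℝ) (η / (qd d + 1))) (lt_min hBc (by positivity)) (min_le_left _ _)
    have h2 : min (B.card : ℝ) (η / (qd d + 1)) * qd d ≤ η := by
      have h3 : min (B.card : ℝ) (η / (qd d + 1)) * qd d ≤ (η / (qd d + 1)) * qd d :=
        mul_le_mul_of_nonneg_right (min_le_right _ _) hq
      refine h3.trans ?_
      rw [div_mul_eq_mul_div, div_le_iff₀ (by linarith)]
      nlinarith
    linarith
  have e1 : Real.sqrt ((2 * C₂ + 2) * qd d * B.card) =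
      Real.sqrt (2 * C₂ + 2) * Real.sqrt (qd d) * Real.sqrt B.card := by
    rw [Real.sqrt_mul (by positivity), Real.sqrt_mul (by positivity)]
  have e2 : Real.sqrt (S / B.card) = Real.sqrt S / Real.sqrt B.card := Real.sqrt_div hS0 _
  have e3 := Real.mul_self_sqrt hq
  have e4 := Real.mul_self_sqrt hBc.le
  have hs : 0 < Real.sqrt B.card := Real.sqrt_pos.2 hBc
  rw [div_le_iff₀ hBc, e2]
  refine key.trans (le_of_eq ?_)
  rw [e1]
  have e5 : C₁ * Real.sqrt (qd d) * ((9 / 10) ^ m * Real.sqrt B.card + Real.sqrt S) *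
      (Real.sqrt (2 * C₂ + 2) * Real.sqrt (qd d) * Real.sqrt B.card) =
      C₁ * Real.sqrt (2 * C₂ + 2) * (Real.sqrt (qd d) * Real.sqrt (qd d)) *
        ((9 / 10) ^ m * (Real.sqrt B.card * Real.sqrt B.card) +
          Real.sqrt S * Real.sqrt B.card) := by ring
  rw [e5, e3, e4]
  have e6 : Real.sqrt S / Real.sqrt B.card * B.card = Real.sqrt S * Real.sqrt B.card := by
    have h1 : Real.sqrt S / Real.sqrt B.card * (Real.sqrt B.card * Real.sqrt B.card) =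
        Real.sqrt S * Real.sqrt B.card := by
      field_simp
    rwa [e4] at h1
  have e7 : (tB b m d / b.card + C₁ * Real.sqrt (2 * C₂ + 2) * qd d *
      ((9 / 10) ^ m + Real.sqrt S / Real.sqrt B.card)) * B.card =
      B.card * (tB b m d / b.card) + C₁ * Real.sqrt (2 * C₂ + 2) * qd d *
      ((9 / 10) ^ m * B.card + Real.sqrt S / Real.sqrt B.card * B.card) := by ring
  rw [e7, e6]
/- END qlg -/

/- MODULE qlh
Counting.  `inn (bx L) r` is the box `[r, L - 1 - r]²`.  For `x ∈ inn (bx L) (max (2 ρ) (M + 2))` and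
`b ⊆ ba 0 ρ` all translates `tr z b ∋ x` lie in `bx L`, so
`omw = card (inn b (m + 2)) / card b`; the other sites are at most `4 r L`. -/
private theorem qlh_mem {L : ℕ} {x : ℤ × ℤ} : x ∈ bx L ↔ (0 ≤ x.1 ∧ x.1 < L) ∧ 0 ≤ x.2 ∧ x.2 < L := by
  unfold bx
  rw [Finset.mem_product, Finset.mem_Ico, Finset.mem_Ico]

private theorem qlh_dn1 (r : ℤ) (hr : 0 ≤ r) : dn (r, 0) = r := by
  unfold dn
  simp [abs_of_nonneg hr, hr]

private theorem qlh_dn2 (r : ℤ) (hr : 0 ≤ r) : dn (0, r) = r := by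
  unfold dn
  simp [abs_of_nonneg hr, hr]

private theorem qlh_dn_le {z : ℤ × ℤ} {r : ℤ} (h : dn z ≤ r) :
    -r ≤ z.1 ∧ z.1 ≤ r ∧ -r ≤ z.2 ∧ z.2 ≤ r := by
  unfold dn at h
  have h1 := abs_le.1 ((le_max_left _ _).trans h)
  have h2 := abs_le.1 (((le_max_left _ _).trans (le_max_right _ _)).trans h)
  exact ⟨h1.1, h1.2, h2.1, h2.2⟩

theorem inn_bx (L r : ℕ) (x : ℤ × ℤ) : x ∈ inn (bx L) r ↔
    (r : ℤ) ≤ x.1 ∧ x.1 + r < L ∧ (r : ℤ) ≤ x.2 ∧ x.2 + r < L := by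
  rw [mem_inn]
  have hr : (0 : ℤ) ≤ (r : ℤ) := Int.natCast_nonneg r
  constructor
  · intro h
    have h1 := qlh_mem.1 (h (x + ((r : ℤ), (0 : ℤ))) (by rw [add_sub_cancel_left, qlh_dn1 _ hr]))
    have h2 := qlh_mem.1 (h (x - ((r : ℤ), (0 : ℤ))) (by
      rw [sub_sub_cancel_left, dn_neg, qlh_dn1 _ hr]))
    have h3 := qlh_mem.1 (h (x + ((0 : ℤ), (r : ℤ))) (by rw [add_sub_cancel_left, qlh_dn2 _ hr]))
    have h4 := qlh_mem.1 (h (x - ((0 : ℤ), (r : ℤ))) (by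
      rw [sub_sub_cancel_left, dn_neg, qlh_dn2 _ hr]))
    simp only [Prod.fst_add, Prod.fst_sub, Prod.snd_add, Prod.snd_sub] at h1 h2 h3 h4
    refine ⟨?_, ?_, ?_, ?_⟩ <;> omega
  · rintro ⟨h1, h2, h3, h4⟩ z hz
    have h := qlh_dn_le hz
    simp only [Prod.fst_sub, Prod.snd_sub] at h
    rw [qlh_mem]
    omega

private theorem qlh_count (L r : ℕ) : (bx L).card ≤ (inn (bx L) r).card + 4 * r * L := by
  classical
  have hsub : bx L \ inn (bx L) r ⊆
      (((Finset.Ico (0 : ℤ) r ×ˢ Finset.Ico (0 : ℤ) L) ∪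
        (Finset.Ico ((L : ℤ) - r) L ×ˢ Finset.Ico (0 : ℤ) L)) ∪
      ((Finset.Ico (0 : ℤ) L ×ˢ Finset.Ico (0 : ℤ) r) ∪
        (Finset.Ico (0 : ℤ) L ×ˢ Finset.Ico ((L : ℤ) - r) L))) := by
    intro x hx
    rw [Finset.mem_sdiff, qlh_mem, inn_bx] at hx
    simp only [Finset.mem_union, Finset.mem_product, Finset.mem_Ico]
    omega
  have h1 : (bx L \ inn (bx L) r).card ≤ 4 * r * L := by
    refine (Finset.card_le_card hsub).trans ((Finset.card_union_le _ _).trans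
      ((add_le_add (Finset.card_union_le _ _) (Finset.card_union_le _ _)).trans ?_))
    simp only [Finset.card_product, Int.card_Ico]
    have e1 : ((r : ℤ) - 0).toNat = r := by omega
    have e2 : ((L : ℤ) - 0).toNat = L := by omega
    have e3 : ((L : ℤ) - ((L : ℤ) - r)).toNat = r := by omega
    rw [e1, e2, e3]
    ring_nf
    exact le_rfl
  have h2 : (bx L).card ≤ (inn (bx L) r).card + (bx L \ inn (bx L) r).card := by
    have h3 := Finset.card_le_card_sdiff_add_card (s := bx L) (t := inn (bx L) r)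
    omega
  omega

private theorem qlh_om {b B : Finset (ℤ × ℤ)} (m : ℕ) (x : ℤ × ℤ) (h0 : (0, 0) ∈ b) :
    0 ≤ omw b B m x ∧ omw b B m x ≤ 1 := by
  classical
  have hb : (0 : ℝ) < (b.card : ℝ) := by
    have : 0 < b.card := Finset.card_pos.2 ⟨_, h0⟩
    exact_mod_cast this
  unfold omw
  refine ⟨by positivity, ?_⟩
  rw [div_le_one hb]
  have h1 : ((sp b B).filter (fun z => x ∈ tr z (inn b (m + 2)))).card ≤ b.card := by
    refine Finset.card_le_card_of_injOn (fun z => x - z) (fun z hz => ?_) ?_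
    · rw [Finset.mem_coe, Finset.mem_filter, mem_tr] at hz
      have h2 : x - z ∈ inn b (m + 2) := hz.2
      unfold inn at h2
      exact (Finset.mem_filter.1 h2).1
    · intro z _ z' _ h
      exact sub_right_injective h
  exact_mod_cast h1

private theorem qlh_te {b B : Finset (ℤ × ℤ)} (m M : ℕ) (x : ℤ × ℤ) (h0 : (0, 0) ∈ b) :
    te b B m M x ^ 2 ≤ 1 := by
  classical
  obtain ⟨h1, h2⟩ := qlh_om (B := B) m x h0
  unfold te
  split_ifs
  · rw [sq_le_one_iff_abs_le_one, abs_le]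
    constructor <;> linarith
  · norm_num

private theorem qlh_te_in {b : Finset (ℤ × ℤ)} {ρ m M L : ℕ} (hb : b ⊆ ba 0 ρ)
    {x : ℤ × ℤ} (hx : x ∈ inn (bx L) (max (2 * ρ) (M + 2))) :
    te b (bx L) m M x = 1 - ((inn b (m + 2)).card : ℝ) / b.card := by
  classical
  have hxM : x ∈ inn (bx L) (M + 2) := by
    rw [mem_inn] at hx ⊢
    intro z hz
    refine hx z (hz.trans ?_)
    exact_mod_cast le_max_right (2 * ρ) (M + 2)
  have hxr : ∀ z : ℤ × ℤ, dn (z - x) ≤ 2 * (ρ : ℤ) → z ∈ bx L := by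
    intro z hz
    rw [mem_inn] at hx
    refine hx z (hz.trans ?_)
    have : 2 * ρ ≤ max (2 * ρ) (M + 2) := le_max_left _ _
    exact_mod_cast this
  have hρ : (0 : ℤ) ≤ (ρ : ℤ) := Int.natCast_nonneg ρ
  have hbd : ∀ w ∈ b, dn w ≤ ρ := by
    intro w hw
    have h := mem_ba.1 (hb hw)
    rwa [sub_zero] at h
  unfold te
  rw [if_pos hxM]
  unfold omw
  congr 3
  refine Finset.card_bij (fun z _ => x - z) (fun z hz => ?_) (fun z _ z' _ h => ?_)
    (fun w hw => ?_)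
  · rw [Finset.mem_filter, mem_tr] at hz
    exact hz.2
  · exact sub_right_injective h
  · have hwb : w ∈ b := by
      unfold inn at hw
      exact (Finset.mem_filter.1 hw).1
    refine ⟨x - w, ?_, by abel⟩
    rw [Finset.mem_filter, mem_tr]
    refine ⟨?_, by rwa [sub_sub_cancel]⟩
    unfold sp
    rw [Finset.mem_filter]
    constructor
    · refine hxr _ ?_
      rw [show x - w - x = -w by abel, dn_neg]
      have := hbd w hwb
      linarith
    · intro z hz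
      rw [mem_tr] at hz
      refine hxr _ ?_
      have h1 := hbd _ hz
      have h2 := hbd w hwb
      have h3 := dn_add_le (z - (x - w)) (-w)
      rw [dn_neg, show z - (x - w) + -w = z - x by abel] at h3
      linarith

theorem te_bx {b : Finset (ℤ × ℤ)} {ρ m M L : ℕ} (h0 : (0, 0) ∈ b) (hb : b ⊆ ba 0 ρ)
    (hL : 0 < L) :
    Real.sqrt ((∑ x ∈ bx L, te b (bx L) m M x ^ 2) / (bx L).card) ≤
      (1 - ((inn b (m + 2)).card : ℝ) / b.card) +
        Real.sqrt (4 * (max (2 * ρ) (M + 2) : ℕ) / L) := by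
  classical
  set r := max (2 * ρ) (M + 2) with hr
  set θ : ℝ := ((inn b (m + 2)).card : ℝ) / b.card with hθ
  have hbc : (0 : ℝ) < (b.card : ℝ) := by
    have : 0 < b.card := Finset.card_pos.2 ⟨_, h0⟩
    exact_mod_cast this
  have hθ1 : θ ≤ 1 := by
    rw [hθ, div_le_one hbc]
    have : (inn b (m + 2)).card ≤ b.card := by
      refine Finset.card_le_card ?_
      unfold inn
      exact Finset.filter_subset _ _
    exact_mod_cast this
  have hLr : (0 : ℝ) < (L : ℝ) := by exact_mod_cast hL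
  have hinn : inn (bx L) r ⊆ bx L := by
    unfold inn
    exact Finset.filter_subset _ _
  have h1 : ∑ x ∈ bx L, te b (bx L) m M x ^ 2 ≤ (L : ℝ) ^ 2 * (1 - θ) ^ 2 + 4 * r * L := by
    rw [← Finset.sum_sdiff hinn]
    have h2 : ∑ x ∈ bx L \ inn (bx L) r, te b (bx L) m M x ^ 2 ≤ 4 * r * L := by
      have h3 : ∑ x ∈ bx L \ inn (bx L) r, te b (bx L) m M x ^ 2 ≤
          ∑ x ∈ bx L \ inn (bx L) r, (1 : ℝ) :=
        Finset.sum_le_sum fun x _ => qlh_te m M x h0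
      rw [Finset.sum_const, nsmul_eq_mul, mul_one] at h3
      have h4 : (bx L \ inn (bx L) r).card ≤ 4 * r * L := by
        have h5 := qlh_count L r
        have h6 := Finset.card_sdiff_add_card_eq_card hinn
        omega
      refine h3.trans ?_
      exact_mod_cast h4
    have h3 : ∑ x ∈ inn (bx L) r, te b (bx L) m M x ^ 2 ≤ (L : ℝ) ^ 2 * (1 - θ) ^ 2 := by
      rw [Finset.sum_congr rfl (fun x hx => by rw [qlh_te_in hb hx]), Finset.sum_const,
        nsmul_eq_mul]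
      refine mul_le_mul_of_nonneg_right ?_ (sq_nonneg _)
      have h4 := Finset.card_le_card hinn
      rw [qla_bx_card] at h4
      exact_mod_cast h4
    linarith
  have hθ0 : 0 ≤ 1 - θ := by linarith
  have hq : 0 ≤ 4 * (r : ℝ) / L := by positivity
  refine Real.sqrt_le_iff.2 ⟨by positivity, ?_⟩
  rw [qla_bx_card]
  push_cast
  have h5 : (∑ x ∈ bx L, te b (bx L) m M x ^ 2) / (L : ℝ) ^ 2 ≤
      (1 - θ) ^ 2 + 4 * r / L := by
    rw [div_le_iff₀ (by positivity)]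
    refine h1.trans (le_of_eq ?_)
    field_simp
  refine h5.trans ?_
  have h6 : (1 - θ + Real.sqrt (4 * (r : ℝ) / L)) ^ 2 = (1 - θ) ^ 2 +
      2 * (1 - θ) * Real.sqrt (4 * (r : ℝ) / L) + 4 * r / L := by
    rw [add_sq, Real.sq_sqrt hq]
  have h7 : 0 ≤ 2 * (1 - θ) * Real.sqrt (4 * (r : ℝ) / L) := by positivity
  have h8 : (1 - θ + Real.sqrt (4 * (r : ℝ) / L)) ^ 2 =
      (1 - θ + Real.sqrt (4 * ((max (2 * (ρ : ℝ)) ((M : ℝ) + 2))) / L)) ^ 2 := by
    rw [hr]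
    push_cast
    rfl
  linarith

theorem inn_frac (l : ℕ) (hl : 0 < l) :
    1 - ((inn (bx l) (Nat.sqrt l + 2)).card : ℝ) / (bx l).card ≤
      4 * ((Nat.sqrt l : ℝ) + 2) / l := by
  have hl' : (0 : ℝ) < (l : ℝ) := by exact_mod_cast hl
  have h1 := qlh_count l (Nat.sqrt l + 2)
  have h2 : ((bx l).card : ℝ) ≤ ((inn (bx l) (Nat.sqrt l + 2)).card : ℝ) +
      4 * ((Nat.sqrt l : ℝ) + 2) * l := by exact_mod_cast h1
  rw [qla_bx_card] at h2 ⊢
  push_cast at h2 ⊢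
  rw [sub_le_iff_le_add, ← sub_nonneg]
  have h3 : 4 * ((Nat.sqrt l : ℝ) + 2) / l + ((inn (bx l) (Nat.sqrt l + 2)).card : ℝ) /
      (l : ℝ) ^ 2 - 1 = (((inn (bx l) (Nat.sqrt l + 2)).card : ℝ) +
      4 * ((Nat.sqrt l : ℝ) + 2) * l - (l : ℝ) ^ 2) / (l : ℝ) ^ 2 := by
    field_simp
    ring
  rw [h3]
  exact div_nonneg (by linarith) (by positivity)

theorem bx_ba (l : ℕ) : bx l ⊆ ba 0 (2 * l) := by
  intro x hx
  rw [mem_ba, sub_zero]
  push_cast
  exact qlc_bx hx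
/- END qlh -/

end Pool.Agent.Hmk
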