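import Pool.Agent.Hmk.NuA

/-!
# Hmk, second part: the rotation, the limit of the densities `tB`
-/

set_option autoImplicit false

open MeasureTheory Set Filter
open scoped ENNReal ContDiff Topology

noncomputable section

namespace Pool.Agent.Hmk

/-- rotation by 60 degrees -/
def ro (z : ℤ × ℤ) : ℤ × ℤ := (-z.2, z.1 + z.2)

/-- inverse rotation -/
def ri (z : ℤ × ℤ) : ℤ × ℤ := (z.1 + z.2, -z.1)

/-- rotated set -/
def rt (B : Finset (ℤ × ℤ)) : Finset (ℤ × ℤ) := B.image ro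

/-- pull back of a slope -/
def dr (d : ℝ × ℝ) : ℝ × ℝ := (d.2, d.2 - d.1)

/- MODULE qma
Elementary facts on the rotation. -/
theorem ro_ri (z : ℤ × ℤ) : ro (ri z) = z := by
  ext <;> simp [ro, ri]

theorem ri_ro (z : ℤ × ℤ) : ri (ro z) = z := by
  ext <;> simp [ro, ri]

theorem ro_add (x y : ℤ × ℤ) : ro (x + y) = ro x + ro y := by
  ext
  · simp [ro]
    ring
  · simp [ro]
    ring

theorem ro_st (i : Fin 6) : ro (st i) = st (i + 1) := by
  fin_cases i <;> rfl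

theorem dn_ro (z : ℤ × ℤ) : dn (ro z) = dn z := by
  have e : -z.2 + (z.1 + z.2) = z.1 := by ring
  unfold dn ro
  simp only [e, abs_neg]
  rw [max_comm |z.1 + z.2| |z.1|, ← max_assoc, max_comm |z.2| |z.1|, max_assoc]

theorem dc_dr (d : ℝ × ℝ) (i : Fin 6) : dc (dr d) i = dc d (i + 1) := by
  rw [dc, dc, ← ro_st i]
  simp only [dr, ro]
  push_cast
  ring

theorem qd_dr (d : ℝ × ℝ) : qd (dr d) = qd d := by
  unfold qd
  congr 1
  rw [← Equiv.sum_comp (Equiv.addRight (1 : Fin 6)) (fun i => dc d i ^ 2)]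
  refine Finset.sum_congr rfl fun i _ => ?_
  rw [dc_dr]
  rfl

theorem mem_rt {B : Finset (ℤ × ℤ)} {z : ℤ × ℤ} : z ∈ rt B ↔ ri z ∈ B := by
  unfold rt
  rw [Finset.mem_image]
  constructor
  · rintro ⟨a, ha, rfl⟩
    rw [ri_ro]
    exact ha
  · intro h
    exact ⟨ri z, h, ro_ri z⟩

private theorem qma_inj : Function.Injective ro := fun x y h => by
  rw [← ri_ro x, ← ri_ro y, h]

theorem card_rt (B : Finset (ℤ × ℤ)) : (rt B).card = B.card := by
  exact Finset.card_image_of_injective _ qma_inj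

private theorem qma_ri_add (x y : ℤ × ℤ) : ri (x + y) = ri x + ri y := by
  apply qma_inj
  rw [ro_add, ro_ri, ro_ri, ro_ri]

private theorem qma_ri_st (i : Fin 6) : ri (st (i + 1)) = st i := by
  rw [← ro_st, ri_ro]

private theorem qma_dn_ri (z : ℤ × ℤ) : dn (ri z) = dn z := by
  rw [← dn_ro (ri z), ro_ri]

private theorem qma_ri_sub (x y : ℤ × ℤ) : ri (x - y) = ri x - ri y := by
  have h := qma_ri_add (x - y) y
  rw [sub_add_cancel] at h
  rw [h, add_sub_cancel_right]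

theorem inn_rt (B : Finset (ℤ × ℤ)) (r : ℕ) : inn (rt B) r = rt (inn B r) := by
  ext x
  rw [mem_inn, mem_rt, mem_inn]
  constructor
  · intro h z hz
    have h1 := h (ro z) (by
      rw [← qma_dn_ri, qma_ri_sub, ri_ro]
      exact hz)
    rwa [mem_rt, ri_ro] at h1
  · intro h z hz
    rw [mem_rt]
    refine h (ri z) ?_
    rw [← qma_ri_sub, qma_dn_ri]
    exact hz

theorem nb_rt (B : Finset (ℤ × ℤ)) : nb (rt B) = rt (nb B) := by
  ext x
  rw [mem_nb, mem_rt, mem_rt, mem_nb]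
  refine or_congr Iff.rfl ?_
  constructor
  · rintro ⟨i, hi⟩
    refine ⟨i - 1, ?_⟩
    rw [mem_rt, qma_ri_add] at hi
    have e : st i = st ((i - 1) + 1) := by rw [sub_add_cancel]
    rw [e, qma_ri_st] at hi
    exact hi
  · rintro ⟨i, hi⟩
    refine ⟨i + 1, ?_⟩
    rw [mem_rt, qma_ri_add, qma_ri_st]
    exact hi

theorem DD_rt (N : ℕ) : rt (DD N) = DD N := by
  ext x
  unfold DD
  rw [mem_rt, mem_ba, mem_ba, sub_zero, sub_zero, qma_dn_ri]

private theorem qma_up (m : ℕ) (u v : ℤ × ℤ) (H : ℤ × ℤ → ℝ) :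
    up m (ro u) (ro v) H ↔ up m u v (fun z => H (ro z)) := by
  unfold up
  constructor
  · intro h z hz
    refine h (ro z) ?_
    have e : ro z - ro u = ro (z - u) := by
      have h1 := ro_add (z - u) u
      rw [sub_add_cancel] at h1
      rw [h1, add_sub_cancel_right]
    rw [e, dn_ro]
    exact hz
  · intro h z hz
    have h1 := h (ri z) (by
      rw [← hz, ← qma_dn_ri (z - ro u), qma_ri_sub, ri_ro])
    simp only [ro_ri] at h1
    exact h1

theorem gt_ro (m : ℕ) (x : ℤ × ℤ) (i : Fin 6) (H : ℤ × ℤ → ℝ) :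
    gt m (ro x) (i + 1) H = gt m x i (fun z => H (ro z)) := by
  unfold gt
  rw [← ro_st, ← ro_add]
  classical exact if_congr (or_congr (qma_up m x (x + st i) H)
    (qma_up m x (x + st i) (fun z => - H z))) rfl rfl
/- END qma -/

/-- relabelled configuration -/
def rc (S : Finset (ℤ × ℤ)) (k : S → ℝ) : rt S → ℝ := fun z => gl S (fun _ => 0) k (ri z.1)

/- MODULE qmb
Change of variables for the relabelling (`MeasurableEquiv.piCongrLeft`,
`volume_measurePreserving_piCongrLeft`). -/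
theorem gl_rc (S : Finset (ℤ × ℤ)) (c : ℤ × ℤ → ℝ) (k : S → ℝ) (z : ℤ × ℤ) :
    gl (rt S) c (rc S k) (ro z) = gl S (fun z => c (ro z)) k z := by
  by_cases hz : z ∈ S
  · have hz' : ro z ∈ rt S := by
      rw [mem_rt, ri_ro]
      exact hz
    rw [gl_mem hz', gl_mem hz]
    unfold rc
    simp only [ri_ro]
    rw [gl_mem hz]
  · have hz' : ro z ∉ rt S := by
      rw [mem_rt, ri_ro]
      exact hz
    rw [gl_not_mem hz', gl_not_mem hz]

theorem rc_mem {S : Finset (ℤ × ℤ)} {c : ℤ × ℤ → ℝ} {k : S → ℝ} :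
    rc S k ∈ K (rt S) c ↔ k ∈ K S (fun z => c (ro z)) := by
  constructor
  · intro h x hx i
    have h1 := h (ro x) (by
      rw [mem_rt, ri_ro]
      exact hx) (i + 1)
    rw [← ro_st, ← ro_add, gl_rc, gl_rc] at h1
    exact h1
  · intro h x hx i
    have h1 := h (ri x) (mem_rt.1 hx) (i - 1)
    rw [← gl_rc, ← gl_rc, ro_add, ro_ri, ro_st, sub_add_cancel] at h1
    exact h1

/-- the relabelling of the sites -/
private def qmb_e (S : Finset (ℤ × ℤ)) : S ≃ rt S where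
  toFun z := ⟨ro z, by
    rw [mem_rt, ri_ro]
    exact z.2⟩
  invFun z := ⟨ri z, mem_rt.1 z.2⟩
  left_inv z := Subtype.ext (ri_ro z)
  right_inv z := Subtype.ext (ro_ri z)

private theorem qmb_eq (S : Finset (ℤ × ℤ)) :
    ⇑(MeasurableEquiv.piCongrLeft (fun _ : rt S => ℝ) (qmb_e S)) = rc S := by
  funext k z
  obtain ⟨w, rfl⟩ := (qmb_e S).surjective z
  rw [MeasurableEquiv.coe_piCongrLeft, Equiv.piCongrLeft_apply_apply]
  show k w = gl S (fun _ => 0) k (ri (ro w))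
  rw [ri_ro, gl_mem w.2]

private theorem qmb_mp (S : Finset (ℤ × ℤ)) : MeasurePreserving (rc S) volume volume := by
  rw [← qmb_eq S]
  exact volume_measurePreserving_piCongrLeft (fun _ : rt S => ℝ) (qmb_e S)

private theorem qmb_me (S : Finset (ℤ × ℤ)) : MeasurableEmbedding (rc S) := by
  rw [← qmb_eq S]
  exact (MeasurableEquiv.piCongrLeft (fun _ : rt S => ℝ) (qmb_e S)).measurableEmbedding

private theorem qmb_pre (S : Finset (ℤ × ℤ)) (c : ℤ × ℤ → ℝ) :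
    rc S ⁻¹' K (rt S) c = K S (fun z => c (ro z)) := by
  ext k
  exact rc_mem

theorem rt_int (S : Finset (ℤ × ℤ)) (c : ℤ × ℤ → ℝ) (f : (rt S → ℝ) → ℝ) :
    ∫ k in K (rt S) c, f k = ∫ k in K S (fun z => c (ro z)), f (rc S k) := by
  rw [← qmb_pre S c, (qmb_mp S).setIntegral_preimage_emb (qmb_me S)]

theorem rt_Z (S : Finset (ℤ × ℤ)) (c : ℤ × ℤ → ℝ) : Z (rt S) c = Z S (fun z => c (ro z)) := by
  unfold Z
  rw [← qmb_pre S c, (qmb_mp S).measure_preimage_emb (qmb_me S)]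

theorem rt_Mu (S : Finset (ℤ × ℤ)) (c : ℤ × ℤ → ℝ) (f : (rt S → ℝ) → ℝ) :
    ∫ k, f k ∂(Mu (rt S) c) = ∫ k, f (rc S k) ∂(Mu S (fun z => c (ro z))) := by
  rw [int_Mu, int_Mu, rt_int, rt_Z]
/- END qmb -/

/- MODULE qmc
`v ↦ (fun z k => v (ro z) (rc B k))` is a bijection of the fields `LNice (rt B) (rt B)` onto the
fields `LNice B B`; `Jt (rt B) m d v β = Jt B m (dr d) v' (fun z => β (ro z))` by `rt_int`, `gt_ro`,
`dc_dr` (the sum over the directions is shifted by `1`), `ro_st`, `inn_rt` and the chain rule. -/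
/-- the inverse relabelling -/
private def qmc_cr (S : Finset (ℤ × ℤ)) (k : rt S → ℝ) : S → ℝ :=
  fun z => gl (rt S) (fun _ => 0) k (ro z.1)

private theorem qmc_ro_mem {S : Finset (ℤ × ℤ)} {z : ℤ × ℤ} (hz : z ∈ S) : ro z ∈ rt S := by
  rw [mem_rt, ri_ro]
  exact hz

private theorem qmc_cr_rc (S : Finset (ℤ × ℤ)) (k : S → ℝ) : qmc_cr S (rc S k) = k := by
  funext z
  unfold qmc_cr
  rw [gl_rc, gl_mem z.2]

private theorem qmc_rc_cr (S : Finset (ℤ × ℤ)) (k : rt S → ℝ) : rc S (qmc_cr S k) = k := by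
  funext z
  unfold rc qmc_cr
  rw [gl_mem (mem_rt.1 z.2)]
  simp only [ro_ri]
  rw [gl_mem z.2]

private theorem qmc_rc_sm (S : Finset (ℤ × ℤ)) : ContDiff ℝ ∞ (rc S) :=
  contDiff_pi.2 fun z => gls_smooth _ _ (ri z.1)

private theorem qmc_cr_sm (S : Finset (ℤ × ℤ)) : ContDiff ℝ ∞ (qmc_cr S) :=
  contDiff_pi.2 fun z => gls_smooth _ _ (ro z.1)

/-- the relabelling as a linear map -/
private def qmc_L (S : Finset (ℤ × ℤ)) : (S → ℝ) →L[ℝ] (rt S → ℝ) :=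
  ContinuousLinearMap.pi fun z => ContinuousLinearMap.proj (⟨ri z.1, mem_rt.1 z.2⟩ : S)

private theorem qmc_L_eq (S : Finset (ℤ × ℤ)) : rc S = ⇑(qmc_L S) := by
  funext k z
  unfold rc
  rw [gl_mem (mem_rt.1 z.2)]
  rfl

private theorem qmc_L_single (S : Finset (ℤ × ℤ)) {y : ℤ × ℤ} (hy : y ∈ S) :
    qmc_L S (Pi.single ⟨y, hy⟩ 1) = Pi.single ⟨ro y, qmc_ro_mem hy⟩ 1 := by
  funext z
  show (Pi.single (⟨y, hy⟩ : S) (1 : ℝ) : S → ℝ) ⟨ri z.1, mem_rt.1 z.2⟩ = _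
  rw [Pi.single_apply, Pi.single_apply]
  refine if_congr ?_ rfl rfl
  rw [Subtype.ext_iff, Subtype.ext_iff]
  constructor
  · intro h
    have h' : ri z.1 = y := h
    show z.1 = ro y
    rw [← h', ro_ri]
  · intro h
    have h' : z.1 = ro y := h
    show ri z.1 = y
    rw [h', ri_ro]

private theorem qmc_pz (S : Finset (ℤ × ℤ)) {y : ℤ × ℤ} (hy : y ∈ S) {F : (rt S → ℝ) → ℝ}
    (hF : Differentiable ℝ F) (k : S → ℝ) :
    pz S y (fun k => F (rc S k)) k = pz (rt S) (ro y) F (rc S k) := by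
  unfold pz
  rw [dif_pos hy, dif_pos (qmc_ro_mem hy)]
  unfold pd
  rw [qmc_L_eq S]
  have h1 := fderiv_comp k (hF (qmc_L S k)) (qmc_L S).differentiableAt
  rw [ContinuousLinearMap.fderiv] at h1
  have h2 := congrArg (fun T => T (Pi.single (⟨y, hy⟩ : S) (1 : ℝ))) h1
  simp only [ContinuousLinearMap.comp_apply, qmc_L_single S hy] at h2
  exact h2

private theorem qmc_sum (A : Finset (ℤ × ℤ)) (f : ℤ × ℤ → ℝ) :
    ∑ x ∈ rt A, f x = ∑ x ∈ A, f (ro x) := by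
  unfold rt
  rw [Finset.sum_image]
  intro x _ y _ h
  rw [← ri_ro x, ← ri_ro y, h]

private theorem qmc_pull {B : Finset (ℤ × ℤ)} {v : ℤ × ℤ → (rt B → ℝ) → ℝ}
    (hv : LNice (rt B) (rt B) v) : LNice B B (fun z k => v (ro z) (rc B k)) := by
  refine ⟨fun z => (hv.sm (ro z)).comp (qmc_rc_sm B), ?_⟩
  obtain ⟨ε, hε, h⟩ := hv.tie
  refine ⟨ε, hε, fun z hz i hi k hk => ?_⟩
  have h1 := h (ro z) (qmc_ro_mem hz) (i + 1) (by
    rw [← ro_st, ← ro_add]
    exact qmc_ro_mem hi) (rc B k) (by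
    rw [← ro_st, ← ro_add]
    unfold g0
    rw [gl_rc, gl_rc]
    exact hk)
  rw [← ro_st, ← ro_add] at h1
  exact h1

private theorem qmc_g0 {B : Finset (ℤ × ℤ)} (k : rt B → ℝ) (z : ℤ × ℤ) :
    g0 (rt B) k (ro z) = g0 B (qmc_cr B k) z := by
  conv_lhs => rw [← qmc_rc_cr B k]
  unfold g0
  rw [gl_rc]

private theorem qmc_push {B : Finset (ℤ × ℤ)} {v : ℤ × ℤ → (B → ℝ) → ℝ}
    (hv : LNice B B v) : LNice (rt B) (rt B) (fun z k => v (ri z) (qmc_cr B k)) := by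
  refine ⟨fun z => (hv.sm (ri z)).comp (qmc_cr_sm B), ?_⟩
  obtain ⟨ε, hε, h⟩ := hv.tie
  refine ⟨ε, hε, fun z hz i hi k hk => ?_⟩
  have e1 : z + st i = ro (ri z + st (i - 1)) := by
    rw [ro_add, ro_ri, ro_st, sub_add_cancel]
  have e2 : ri (z + st i) = ri z + st (i - 1) := by
    rw [e1, ri_ro]
  have h1 := h (ri z) (mem_rt.1 hz) (i - 1) (by
    rw [← e2]
    exact mem_rt.1 hi) (qmc_cr B k) (by
    rw [← qmc_g0, ← qmc_g0, ← e1, ro_ri]
    exact hk)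
  show v (ri z) (qmc_cr B k) = v (ri (z + st i)) (qmc_cr B k)
  rw [e2]
  exact h1

private theorem qmc_Jf {B : Finset (ℤ × ℤ)} {v : ℤ × ℤ → (rt B → ℝ) → ℝ}
    (hv : LNice (rt B) (rt B) v) (m : ℕ) (d : ℝ × ℝ) (β : ℤ × ℤ → ℝ) (k : B → ℝ) :
    Jf (rt B) β (rt B) m d v (rc B k) =
      Jf B (fun z => β (ro z)) B m (dr d) (fun z k => v (ro z) (rc B k)) k := by
  unfold Jf
  congr 1
  · rw [← Equiv.sum_comp (Equiv.addRight (1 : Fin 6))
      (fun i => dc d i * sx (rt B) β (rt B) m v i (rc B k))]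
    refine Finset.sum_congr rfl fun i _ => ?_
    show dc d (i + 1) * sx (rt B) β (rt B) m v (i + 1) (rc B k) = _
    rw [← dc_dr]
    congr 1
    unfold sx
    rw [inn_rt, qmc_sum]
    refine Finset.sum_congr rfl fun x _ => ?_
    rw [gt_ro, ← ro_st, ← ro_add]
    simp only [gl_rc]
  · unfold en
    rw [qmc_sum]
    refine Finset.sum_congr rfl fun x _ => ?_
    rw [qmc_sum]
    refine Finset.sum_congr rfl fun y hy => ?_
    rw [qmc_pz B hy ((hv.sm (ro x)).differentiable (by simp))]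

private theorem qmc_Jt {B : Finset (ℤ × ℤ)} {v : ℤ × ℤ → (rt B → ℝ) → ℝ}
    (hv : LNice (rt B) (rt B) v) (m : ℕ) (d : ℝ × ℝ) (β : ℤ × ℤ → ℝ) :
    Jt (rt B) m d v β = Jt B m (dr d) (fun z k => v (ro z) (rc B k)) (fun z => β (ro z)) := by
  unfold Jt
  rw [rt_int]
  simp only [qmc_Jf hv]

theorem Th_rt (B : Finset (ℤ × ℤ)) (m : ℕ) (d : ℝ × ℝ) (β : ℤ × ℤ → ℝ) :
    Th (rt B) m d β = Th B m (dr d) (fun z => β (ro z)) := by
  unfold Th
  rw [rt_Z]
  congr 1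
  unfold Tt
  refine Function.Surjective.iSup_congr
    (fun v => ⟨fun z k => v.1 (ro z) (rc B k), qmc_pull v.2⟩) ?_ fun v => ?_
  · rintro ⟨v, hv⟩
    refine ⟨⟨_, qmc_push hv⟩, ?_⟩
    apply Subtype.ext
    funext z k
    show v (ri (ro z)) (qmc_cr B (rc B k)) = v z k
    rw [ri_ro, qmc_cr_rc]
  · exact (qmc_Jt v.2 m d β).symm
/- END qmc -/

/- MODULE qmd
The universal state is invariant under the rotation.  `Mu (DD N) 0` is invariant under
`h ↦ h ∘ ro` (`rt_Mu`, `DD_rt`), so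
`E g (rc W (rs W x H)) = E g (rs (rt W) (ro x) H)`.  The set `ro (bx N)` lies in the union of the
two windows `(-N + 1, 0) + bx N`, `(-N + 1, N) + bx N`; `mm_L1` for both with `D = DD N`, `b = 0`
(`dn y ≤ N`, so `dn (z - y) ≤ 4 N` implies `dn z ≤ 5 N`) gives
`|em N W (g ∘ rc W) - mm (rt W) g| ≤ 2 ε`. -/
private theorem qmd_rc {W : Finset (ℤ × ℤ)} (k : W → ℝ) (z : rt W) :
    rc W k z = k ⟨ri z.1, mem_rt.1 z.2⟩ := by
  unfold rc
  rw [gl_mem (mem_rt.1 z.2)]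

theorem Lg.rt {W : Finset (ℤ × ℤ)} {g : (rt W → ℝ) → ℝ} (hg : Lg (rt W) g) :
    Lg W (fun k => g (rc W k)) := by
  obtain ⟨C, hC⟩ := hg.bd
  refine ⟨hg.ms.comp ?_, ⟨C, fun k => hC _⟩, fun k t => ?_⟩
  · refine measurable_pi_lambda _ fun z => ?_
    simp only [qmd_rc]
    exact measurable_pi_apply _
  · show g (rc W (fun w => k w + t)) = g (rc W k)
    rw [← hg.sh (rc W k) t]
    congr 1
    funext z
    rw [qmd_rc, qmd_rc]

private theorem qmd_rs {W S : Finset (ℤ × ℤ)} (x : ℤ × ℤ) (h : S → ℝ) :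
    rc W (rs W x (gl S (fun _ => 0) h)) =
      rs (rt W) (ro x) (gl (rt S) (fun _ => 0) (rc S h)) := by
  funext w
  rw [qmd_rc]
  show gl S (fun _ => 0) h (x + ri w.1) = gl (rt S) (fun _ => 0) (rc S h) (ro x + w.1)
  have e : ro x + w.1 = ro (x + ri w.1) := by
    rw [ro_add, ro_ri]
  rw [e, gl_rc]

private theorem qmd_tr {W : Finset (ℤ × ℤ)} (g : (W → ℝ) → ℝ) {S S' : Finset (ℤ × ℤ)}
    (h : S = S') (y : ℤ × ℤ) :
    ∫ h, g (rs W y (gl S (fun _ => 0) h)) ∂(Mu S (fun _ => 0)) =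
      ∫ h, g (rs W y (gl S' (fun _ => 0) h)) ∂(Mu S' (fun _ => 0)) := by
  subst h
  rfl

private theorem qmd_E {W : Finset (ℤ × ℤ)} (g : (rt W → ℝ) → ℝ) (N : ℕ) (x : ℤ × ℤ) :
    ∫ h, g (rc W (rs W x (gl (DD N) (fun _ => 0) h))) ∂(Mu (DD N) (fun _ => 0)) =
      ∫ h, g (rs (rt W) (ro x) (gl (DD N) (fun _ => 0) h)) ∂(Mu (DD N) (fun _ => 0)) := by
  rw [← qmd_tr g (DD_rt N) (ro x), rt_Mu]
  refine integral_congr_ae (Eventually.of_forall fun h => ?_)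
  simp only
  rw [qmd_rs]

private theorem qmd_sum (N : ℕ) {f : ℤ × ℤ → ℝ} (hf : ∀ x, 0 ≤ f x) :
    ∑ x ∈ bx N, f (ro x) ≤ ∑ x ∈ bx N, f ((-(N : ℤ) + 1, 0) + x) +
      ∑ x ∈ bx N, f ((-(N : ℤ) + 1, (N : ℤ)) + x) := by
  have e1 : ∑ x ∈ bx N, f (ro x) = ∑ u ∈ (bx N).image ro, f u := by
    rw [Finset.sum_image]
    intro x _ y _ h
    rw [← ri_ro x, ← ri_ro y, h]
  have e2 : ∀ y : ℤ × ℤ, ∑ x ∈ bx N, f (y + x) = ∑ u ∈ tr y (bx N), f u := by
    intro y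
    unfold tr
    rw [Finset.sum_image]
    intro a _ b _ h
    exact add_left_cancel h
  have hsub : (bx N).image ro ⊆ tr (-(N : ℤ) + 1, 0) (bx N) ∪ tr (-(N : ℤ) + 1, (N : ℤ)) (bx N) := by
    intro u hu
    have h1 : ri u ∈ bx N := mem_rt.1 hu
    rw [Finset.mem_union, mem_tr, mem_tr]
    simp only [bx, ri, Finset.mem_product, Finset.mem_Ico, Prod.fst_sub, Prod.snd_sub] at h1 ⊢
    omega
  rw [e1, e2, e2]
  refine (Finset.sum_le_sum_of_subset_of_nonneg hsub fun x _ _ => hf x).trans ?_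
  rw [← Finset.sum_union_inter]
  exact le_add_of_nonneg_right (Finset.sum_nonneg fun x _ => hf x)

private theorem qmd_card {N : ℕ} (hN : 17 ≤ N) : (DD N).card ≤ N ^ 20 := by
  have hsub : DD N ⊆ Finset.Icc (-(8 * (N : ℤ))) (8 * N) ×ˢ Finset.Icc (-(8 * (N : ℤ))) (8 * N) := by
    intro z hz
    unfold DD at hz
    rw [mem_ba, sub_zero] at hz
    push_cast at hz
    unfold dn at hz
    have h1 := (le_max_left |z.1| (max |z.2| |z.1 + z.2|)).trans hz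
    have h2 := ((le_max_left |z.2| |z.1 + z.2|).trans (le_max_right |z.1| _)).trans hz
    rw [abs_le] at h1 h2
    rw [Finset.mem_product, Finset.mem_Icc, Finset.mem_Icc]
    exact ⟨h1, h2⟩
  refine (Finset.card_le_card hsub).trans ?_
  rw [Finset.card_product, Int.card_Icc]
  have e1 : (8 * (N : ℤ) + 1 - -(8 * (N : ℤ))).toNat = 16 * N + 1 := by omega
  rw [e1]
  have e2 : 16 * N + 1 ≤ N ^ 2 := by nlinarith
  calc (16 * N + 1) * (16 * N + 1) ≤ N ^ 2 * N ^ 2 := Nat.mul_le_mul e2 e2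
    _ = N ^ 4 := by ring
    _ ≤ N ^ 20 := Nat.pow_le_pow_right (by omega) (by norm_num)

theorem mm_rt {W : Finset (ℤ × ℤ)} {g : (rt W → ℝ) → ℝ} (hg : Lg (rt W) g) :
    mm W (fun k => g (rc W k)) = mm (rt W) g := by
  refine tendsto_nhds_unique (mm_tends hg.rt) ?_
  rw [Metric.tendsto_atTop]
  intro ε hε
  obtain ⟨N0, hN0⟩ := mm_L1 hg (ε / 4) (by positivity)
  refine ⟨max N0 17, fun N hN => ?_⟩
  have hN1 : N0 ≤ N := (le_max_left _ _).trans hN
  have hN2 : 17 ≤ N := (le_max_right _ _).trans hN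
  have hdn : ∀ y : ℤ × ℤ, dn y ≤ N → ∀ z, dn (z - y) ≤ 4 * (N : ℤ) → z ∈ DD N := by
    intro y hy z hz
    unfold DD
    rw [mem_ba, sub_zero]
    have h1 := dn_add_le (z - y) y
    rw [sub_add_cancel] at h1
    push_cast
    have h2 : (0 : ℤ) ≤ N := Nat.cast_nonneg N
    linarith
  have a1 := hN0 N hN1 (DD N) (fun _ => 0) (fun _ => by norm_num) (qmd_card hN2)
    (-(N : ℤ) + 1, 0) (hdn _ (by
      unfold dn
      simp only [abs_zero, add_zero]
      have h1 : |(-(N : ℤ) + 1)| ≤ N := by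
        rw [abs_le]
        constructor <;> omega
      refine max_le h1 (max_le (by omega) h1)))
  have a2 := hN0 N hN1 (DD N) (fun _ => 0) (fun _ => by norm_num) (qmd_card hN2)
    (-(N : ℤ) + 1, (N : ℤ)) (hdn _ (by
      unfold dn
      simp only
      have h1 : |(-(N : ℤ) + 1)| ≤ N := by
        rw [abs_le]
        constructor <;> omega
      have h2 : |(N : ℤ)| ≤ N := by
        rw [abs_le]
        constructor <;> omega
      have h3 : |(-(N : ℤ) + 1 + N)| ≤ N := by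
        rw [abs_le]
        constructor <;> omega
      exact max_le h1 (max_le h2 h3)))
  set f : ℤ × ℤ → ℝ := fun x =>
    |∫ h, g (rs (Pool.Agent.Hmk.rt W) x (gl (DD N) (fun _ => 0) h)) ∂(Mu (DD N) (fun _ => 0)) -
      mm (Pool.Agent.Hmk.rt W) g| with hf
  have a3 := qmd_sum N (f := f) (fun x => abs_nonneg _)
  have hNp : (0 : ℝ) < N := by
    have : 0 < N := by omega
    exact_mod_cast this
  have hcard : ((bx N).card : ℝ) = (N : ℝ) ^ 2 := by
    unfold bx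
    rw [Finset.card_product, Int.card_Ico]
    simp
    ring
  rw [Real.dist_eq]
  have e3 : em N W (fun k => g (rc W k)) - mm (Pool.Agent.Hmk.rt W) g =
      ((N : ℝ) ^ 2)⁻¹ * ∑ x ∈ bx N,
        (∫ h, g (rs (Pool.Agent.Hmk.rt W) (ro x) (gl (DD N) (fun _ => 0) h))
          ∂(Mu (DD N) (fun _ => 0)) - mm (Pool.Agent.Hmk.rt W) g) := by
    rw [Finset.sum_sub_distrib, Finset.sum_const, nsmul_eq_mul, hcard, mul_sub,
      inv_mul_cancel_left₀ (by positivity)]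
    unfold em
    simp only [qmd_E]
  rw [e3, abs_mul, abs_of_nonneg (by positivity)]
  calc ((N : ℝ) ^ 2)⁻¹ * |∑ x ∈ bx N,
        (∫ h, g (rs (Pool.Agent.Hmk.rt W) (ro x) (gl (DD N) (fun _ => 0) h))
          ∂(Mu (DD N) (fun _ => 0)) - mm (Pool.Agent.Hmk.rt W) g)|
      ≤ ((N : ℝ) ^ 2)⁻¹ * ∑ x ∈ bx N, f (ro x) :=
        mul_le_mul_of_nonneg_left (Finset.abs_sum_le_sum_abs _ _) (by positivity)
    _ ≤ ((N : ℝ) ^ 2)⁻¹ * (∑ x ∈ bx N, f ((-(N : ℤ) + 1, 0) + x) +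
      ∑ x ∈ bx N, f ((-(N : ℤ) + 1, (N : ℤ)) + x)) :=
        mul_le_mul_of_nonneg_left a3 (by positivity)
    _ ≤ ε / 4 + ε / 4 := by
        rw [mul_add]
        exact add_le_add a1 a2
    _ < ε := by linarith
/- END qmd -/

/- MODULE qme
From `Th_rt`, `mm_rt`, `nb_rt` (transport along the equality of sets: prove first
`mm W (fun k => Th (rt B) m d (g0 W k)) = mm W' (fun k => Th (rt B) m d (g0 W' k))` for `W = W'`);
`Th_loc` for the values off the window. -/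
private theorem qme_tr (B : Finset (ℤ × ℤ)) (m : ℕ) (d : ℝ × ℝ) {W W' : Finset (ℤ × ℤ)}
    (h : W = W') : (Lg W (fun k => Th B m d (g0 W k)) → Lg W' (fun k => Th B m d (g0 W' k))) ∧
      mm W (fun k => Th B m d (g0 W k)) = mm W' (fun k => Th B m d (g0 W' k)) := by
  subst h
  exact ⟨id, rfl⟩

theorem tB_rt (B : Finset (ℤ × ℤ)) (m : ℕ) (d : ℝ × ℝ) : tB (rt B) m d = tB B m (dr d) := by
  have h1 := qme_tr (rt B) m d (nb_rt B)
  have h2 : Lg (rt (nb B)) (fun k => Th (rt B) m d (g0 (rt (nb B)) k)) := h1.1 (Th_Lg (rt B) m d)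
  unfold tB
  rw [h1.2, ← mm_rt h2]
  congr 1
  funext k
  rw [Th_rt]
  congr 1
  funext z
  unfold g0
  rw [gl_rc]
/- END qme -/

/-- density at scale `l` -/
def al (l : ℕ) (d : ℝ × ℝ) : ℝ := tB (bx l) (Nat.sqrt l) d / ((l : ℝ) ^ 2)

/- MODULE qmf
Almost monotonicity: `tB_comp` with `b = bx l` (resp. `b = rt (bx l)`, `tB_rt`, `card_rt`,
`inn_rt`), `B = bx L`, `m = Nat.sqrt l`, `M = Nat.sqrt L`, and `te_bx` (`ρ = 2 l`, `bx_ba`, `dn_ro`),
`inn_frac`. `card (bx l) = l ^ 2`. -/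
private theorem qmf_card (l : ℕ) : ((bx l).card : ℝ) = (l : ℝ) ^ 2 := by
  unfold bx
  rw [Finset.card_product, Int.card_Ico]
  simp
  ring

private theorem qmf_gen {C : ℝ} (hC : 0 ≤ C) (H : ∀ (b B : Finset (ℤ × ℤ)) (m M : ℕ), m ≤ M →
    (0, 0) ∈ b → B.Nonempty → ∀ d : ℝ × ℝ,
    tB B M d / B.card ≤ tB b m d / b.card + C * qd d * ((9 / 10) ^ m +
      Real.sqrt ((∑ x ∈ B, te b B m M x ^ 2) / B.card))) {l L : ℕ} (hl : 0 < l) (hL : l ≤ L)
    (d : ℝ × ℝ) {b : Finset (ℤ × ℤ)} (h0 : (0, 0) ∈ b) (hb : b ⊆ ba 0 (2 * l))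
    (hc : (b.card : ℝ) = (l : ℝ) ^ 2)
    (hi : 1 - ((inn b (Nat.sqrt l + 2)).card : ℝ) / b.card ≤
      4 * ((Nat.sqrt l : ℝ) + 2) / l) :
    al L d ≤ tB b (Nat.sqrt l) d / (l : ℝ) ^ 2 +
      C * qd d * ((9 / 10) ^ (Nat.sqrt l) + 4 * ((Nat.sqrt l : ℝ) + 2) / l +
      Real.sqrt (4 * (max (4 * l) (Nat.sqrt L + 2) : ℕ) / L)) := by
  have hL0 : 0 < L := lt_of_lt_of_le hl hL
  have hne : (bx L).Nonempty := ⟨(0, 0), by simp [bx, hL0]⟩
  have h1 := H b (bx L) (Nat.sqrt l) (Nat.sqrt L) (Nat.sqrt_le_sqrt hL) h0 hne d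
  have h2 := te_bx (m := Nat.sqrt l) (M := Nat.sqrt L) h0 hb hL0
  rw [hc, qmf_card L] at h1
  rw [qmf_card L] at h2
  have e1 : 2 * (2 * l) = 4 * l := by ring
  rw [e1] at h2
  have hq : 0 ≤ qd d := by
    unfold qd
    exact mul_nonneg (by norm_num) (Finset.sum_nonneg fun i _ => sq_nonneg _)
  unfold al
  refine h1.trans (add_le_add le_rfl (mul_le_mul_of_nonneg_left ?_ (mul_nonneg hC hq)))
  linarith

theorem al_mono : ∃ C : ℝ, 0 ≤ C ∧ ∀ l L : ℕ, 0 < l → l ≤ L → ∀ d : ℝ × ℝ,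
    al L d ≤ al l d + C * qd d * ((9 / 10) ^ (Nat.sqrt l) + 4 * ((Nat.sqrt l : ℝ) + 2) / l +
      Real.sqrt (4 * (max (4 * l) (Nat.sqrt L + 2) : ℕ) / L)) ∧
    al L d ≤ al l (dr d) + C * qd d * ((9 / 10) ^ (Nat.sqrt l) + 4 * ((Nat.sqrt l : ℝ) + 2) / l +
      Real.sqrt (4 * (max (4 * l) (Nat.sqrt L + 2) : ℕ) / L)) := by
  obtain ⟨C, hC, H⟩ := tB_comp
  refine ⟨C, hC, fun l L hl hL d => ⟨?_, ?_⟩⟩
  · exact qmf_gen hC H hl hL d (b := bx l) (by simp [bx, hl]) (bx_ba l) (qmf_card l)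
      (inn_frac l hl)
  · have h0 : ((0, 0) : ℤ × ℤ) ∈ rt (bx l) := by
      rw [mem_rt]
      simp [bx, ri, hl]
    have h1 := qmf_gen hC H hl hL d (b := rt (bx l)) h0 (by
      intro z hz
      have h2 := bx_ba l (mem_rt.1 hz)
      rw [mem_ba, sub_zero] at h2 ⊢
      rw [← ro_ri z, dn_ro]
      exact h2) (by rw [card_rt, qmf_card]) (by
      rw [inn_rt, card_rt, card_rt]
      exact inn_frac l hl)
    rw [tB_rt] at h1
    exact h1
/- END qmf -/

/- MODULE qmg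
Pure real analysis: a sequence of nonnegative quadratic polynomials `a l` with the almost
monotonicity of `al_mono` converges (`limsup ≤ a l d + C qd d η l` for every `l`, `η l → 0`), the
limit `n` is quadratic, `n d ≤ n (dr d)`, and `dr` has order `6`, so `n (dr d) = n d`.  With
`n d = A d.1^2 + B d.1 d.2 + C' d.2^2` this gives `C' = A`, `B = - A`, so `n = (A / 2) qd`
(`qd d = 2 (d.1^2 - d.1 d.2 + d.2^2)`).  The convergence is uniform: the three coefficients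
converge and `d.1 ^ 2 + d.2 ^ 2 ≤ qd d`. -/
private theorem qmg_sqrt : Tendsto Nat.sqrt atTop atTop :=
  tendsto_atTop_atTop.2 fun b => ⟨b * b, fun _ ha => Nat.le_sqrt.2 ha⟩

private theorem qmg_div : Tendsto (fun L : ℕ => (Nat.sqrt L : ℝ) / L) atTop (𝓝 0) := by
  refine squeeze_zero (fun L => by positivity) (fun L => ?_)
    (tendsto_one_div_atTop_nhds_zero_nat.comp qmg_sqrt)
  simp only [Function.comp]
  rcases Nat.eq_zero_or_pos L with rfl | hL
  · simp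
  · have hs : 0 < Nat.sqrt L := Nat.sqrt_pos.2 hL
    have hs' : (0 : ℝ) < Nat.sqrt L := by exact_mod_cast hs
    have hL' : (0 : ℝ) < L := by exact_mod_cast hL
    rw [div_le_div_iff₀ hL' hs', one_mul]
    exact_mod_cast Nat.sqrt_le L

private theorem qmg_eta : Tendsto (fun l : ℕ => (9 / 10 : ℝ) ^ (Nat.sqrt l) +
    4 * ((Nat.sqrt l : ℝ) + 2) / l) atTop (𝓝 0) := by
  have h1 : Tendsto (fun l : ℕ => (9 / 10 : ℝ) ^ (Nat.sqrt l)) atTop (𝓝 0) :=
    (tendsto_pow_atTop_nhds_zero_of_lt_one (by norm_num) (by norm_num)).comp qmg_sqrt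
  have h2 : Tendsto (fun l : ℕ => 4 * ((Nat.sqrt l : ℝ) / l) + 8 / (l : ℝ)) atTop (𝓝 0) := by
    have h3 := (qmg_div.const_mul 4).add (tendsto_const_div_atTop_nhds_zero_nat (8 : ℝ))
    simpa using h3
  have h4 := h1.add h2
  rw [add_zero] at h4
  refine h4.congr fun l => ?_
  ring

private theorem qmg_e (l : ℕ) : Tendsto (fun L : ℕ =>
    Real.sqrt (4 * (max (4 * l) (Nat.sqrt L + 2) : ℕ) / L)) atTop (𝓝 0) := by
  have h1 : Tendsto (fun L : ℕ => 4 * ((Nat.sqrt L : ℝ) / L) + 4 * (4 * l + 2) / (L : ℝ)) atTop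
      (𝓝 0) := by
    have h3 := (qmg_div.const_mul 4).add
      (tendsto_const_div_atTop_nhds_zero_nat (4 * (4 * l + 2) : ℝ))
    simpa using h3
  have h2 : Tendsto (fun L : ℕ => 4 * ((max (4 * l) (Nat.sqrt L + 2) : ℕ) : ℝ) / L) atTop
      (𝓝 0) := by
    refine squeeze_zero (fun L => by positivity) (fun L => ?_) h1
    have h4 : ((max (4 * l) (Nat.sqrt L + 2) : ℕ) : ℝ) ≤ 4 * l + 2 + Nat.sqrt L := by
      have : max (4 * l) (Nat.sqrt L + 2) ≤ 4 * l + 2 + Nat.sqrt L := by omega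
      exact_mod_cast this
    calc 4 * ((max (4 * l) (Nat.sqrt L + 2) : ℕ) : ℝ) / L
        ≤ 4 * (4 * l + 2 + Nat.sqrt L) / L := by gcongr
      _ = 4 * ((Nat.sqrt L : ℝ) / L) + 4 * (4 * l + 2) / (L : ℝ) := by ring
  have h5 := h2.sqrt
  rw [Real.sqrt_zero] at h5
  exact h5

/-- almost monotone sequences converge -/
private theorem qmg_conv {x : ℕ → ℝ} (h0 : ∀ l, 0 ≤ x l) {K : ℝ}
    (hm : ∀ l L : ℕ, 0 < l → l ≤ L →
      x L ≤ x l + K * ((9 / 10) ^ (Nat.sqrt l) + 4 * ((Nat.sqrt l : ℝ) + 2) / l +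
        Real.sqrt (4 * (max (4 * l) (Nat.sqrt L + 2) : ℕ) / L))) :
    ∃ n : ℝ, Tendsto x atTop (𝓝 n) := by
  set η : ℕ → ℝ := fun l => (9 / 10 : ℝ) ^ (Nat.sqrt l) + 4 * ((Nat.sqrt l : ℝ) + 2) / l with hη
  have hη0 : ∀ l, 0 ≤ η l := fun l => by
    rw [hη]
    positivity
  have hηt : Tendsto (fun l => |K| * η l) atTop (𝓝 0) := by
    have := qmg_eta.const_mul |K|
    rwa [mul_zero] at this
  set S : Set ℝ := (fun l => x l + |K| * η l) '' {l | 0 < l} with hS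
  have hSb : BddBelow S := by
    refine ⟨0, ?_⟩
    rintro _ ⟨l, _, rfl⟩
    have := h0 l
    have := mul_nonneg (abs_nonneg K) (hη0 l)
    show 0 ≤ x l + |K| * η l
    linarith
  have hSn : S.Nonempty := ⟨_, ⟨1, Nat.one_pos, rfl⟩⟩
  refine ⟨sInf S, ?_⟩
  rw [Metric.tendsto_atTop]
  intro ε hε
  obtain ⟨_, ⟨l, hl, rfl⟩, hlt⟩ := exists_lt_of_csInf_lt hSn
    (show sInf S < sInf S + ε / 2 by linarith)
  have he : Tendsto (fun L : ℕ =>
      |K| * Real.sqrt (4 * (max (4 * l) (Nat.sqrt L + 2) : ℕ) / L)) atTop (𝓝 0) := by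
    have := (qmg_e l).const_mul |K|
    rwa [mul_zero] at this
  have e1 := he.eventually (gt_mem_nhds (show (0 : ℝ) < ε / 2 by linarith))
  have e2 := hηt.eventually (gt_mem_nhds hε)
  obtain ⟨N, hN⟩ := (e1.and (e2.and ((eventually_ge_atTop l).and
    (eventually_gt_atTop 0)))).exists_forall_of_atTop
  refine ⟨N, fun L hL => ?_⟩
  obtain ⟨f1, f2, f3, f4⟩ := hN L hL
  rw [Real.dist_eq, abs_lt]
  constructor
  · have h1 : sInf S ≤ x L + |K| * η L := csInf_le hSb ⟨L, f4, rfl⟩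
    linarith
  · have h1 := hm l L hl f3
    have h2 : K * (η l + Real.sqrt (4 * (max (4 * l) (Nat.sqrt L + 2) : ℕ) / L)) ≤
        |K| * (η l + Real.sqrt (4 * (max (4 * l) (Nat.sqrt L + 2) : ℕ) / L)) :=
      mul_le_mul_of_nonneg_right (le_abs_self K) (add_nonneg (hη0 l) (Real.sqrt_nonneg _))
    rw [mul_add |K|] at h2
    simp only at hlt
    have h3 : x L ≤ x l + K * (η l + Real.sqrt (4 * (max (4 * l) (Nat.sqrt L + 2) : ℕ) / L)) := h1
    linarith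

private theorem qmg_qd (d : ℝ × ℝ) : qd d = 2 * (d.1 ^ 2 - d.1 * d.2 + d.2 ^ 2) := by
  unfold qd dc
  simp [Fin.sum_univ_succ, st]
  ring

theorem lim_quad (a : ℕ → ℝ × ℝ → ℝ) (h0 : ∀ l d, 0 ≤ a l d)
    (hq : ∀ l d, a l d = d.1 ^ 2 * a l (1, 0) + d.2 ^ 2 * a l (0, 1) +
      d.1 * d.2 * (a l (1, 1) - a l (1, 0) - a l (0, 1)))
    {C : ℝ} (hC : 0 ≤ C)
    (hm : ∀ l L : ℕ, 0 < l → l ≤ L → ∀ d : ℝ × ℝ,
      a L d ≤ a l d + C * qd d * ((9 / 10) ^ (Nat.sqrt l) + 4 * ((Nat.sqrt l : ℝ) + 2) / l +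
        Real.sqrt (4 * (max (4 * l) (Nat.sqrt L + 2) : ℕ) / L)) ∧
      a L d ≤ a l (dr d) + C * qd d * ((9 / 10) ^ (Nat.sqrt l) +
        4 * ((Nat.sqrt l : ℝ) + 2) / l +
        Real.sqrt (4 * (max (4 * l) (Nat.sqrt L + 2) : ℕ) / L))) :
    ∃ σ : ℝ, 0 ≤ σ ∧ ∀ ε : ℝ, 0 < ε → ∃ l0 : ℕ, ∀ l : ℕ, l0 ≤ l → ∀ d : ℝ × ℝ,
      |a l d - σ * qd d| ≤ ε * qd d := by
  have hcv : ∀ d : ℝ × ℝ, ∃ n : ℝ, Tendsto (fun l => a l d) atTop (𝓝 n) := fun d =>
    qmg_conv (fun l => h0 l d) (K := C * qd d) (fun l L hl hL => (hm l L hl hL d).1)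
  choose n hn using hcv
  -- monotonicity under `dr`
  have hdr : ∀ d, n d ≤ n (dr d) := by
    intro d
    have h1 : ∀ l : ℕ, 0 < l → n d ≤ a l (dr d) + C * qd d * ((9 / 10) ^ (Nat.sqrt l) +
        4 * ((Nat.sqrt l : ℝ) + 2) / l) := by
      intro l hl
      have h2 : Tendsto (fun L : ℕ => a l (dr d) + C * qd d * ((9 / 10) ^ (Nat.sqrt l) +
          4 * ((Nat.sqrt l : ℝ) + 2) / l +
          Real.sqrt (4 * (max (4 * l) (Nat.sqrt L + 2) : ℕ) / L))) atTop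
          (𝓝 (a l (dr d) + C * qd d * ((9 / 10) ^ (Nat.sqrt l) +
            4 * ((Nat.sqrt l : ℝ) + 2) / l + 0))) :=
        (((qmg_e l).const_add _).const_mul _).const_add _
      rw [add_zero] at h2
      exact le_of_tendsto_of_tendsto (hn d) h2
        ((eventually_ge_atTop l).mono fun L hL => (hm l L hl hL d).2)
    have h3 : Tendsto (fun l : ℕ => a l (dr d) + C * qd d * ((9 / 10) ^ (Nat.sqrt l) +
        4 * ((Nat.sqrt l : ℝ) + 2) / l)) atTop (𝓝 (n (dr d) + C * qd d * 0)) :=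
      (hn (dr d)).add (qmg_eta.const_mul _)
    rw [mul_zero, add_zero] at h3
    exact ge_of_tendsto h3 ((eventually_gt_atTop 0).mono fun l hl => h1 l hl)
  have hm1 : n (0, -1) = n (0, 1) := by
    refine tendsto_nhds_unique (hn (0, -1)) ((hn (0, 1)).congr fun l => ?_)
    rw [hq l (0, -1)]
    norm_num
  have k1 : n (1, 0) ≤ n (0, 1) := by
    have h1 := hdr (1, 0)
    have e1 : dr (1, 0) = (0, -1) := by simp [dr]
    rw [e1, hm1] at h1
    exact h1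
  have k2 : n (0, 1) ≤ n (1, 1) := by
    have h1 := hdr (0, 1)
    have e1 : dr (0, 1) = (1, 1) := by simp [dr]
    rw [e1] at h1
    exact h1
  have k3 : n (1, 1) ≤ n (1, 0) := by
    have h1 := hdr (1, 1)
    have e1 : dr (1, 1) = (1, 0) := by simp [dr]
    rw [e1] at h1
    exact h1
  have j1 : n (0, 1) = n (1, 0) := le_antisymm (k2.trans k3) k1
  have j2 : n (1, 1) = n (1, 0) := le_antisymm k3 (k1.trans k2)
  have hA : 0 ≤ n (1, 0) := ge_of_tendsto' (hn (1, 0)) fun l => h0 l _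
  refine ⟨n (1, 0) / 2, by linarith, fun ε hε => ?_⟩
  have t1 := hn (1, 0)
  have t2 := hn (0, 1)
  have t3 := hn (1, 1)
  rw [j1] at t2
  rw [j2] at t3
  obtain ⟨N1, hN1⟩ := Metric.tendsto_atTop.1 t1 (ε / 3) (by positivity)
  obtain ⟨N2, hN2⟩ := Metric.tendsto_atTop.1 t2 (ε / 3) (by positivity)
  obtain ⟨N3, hN3⟩ := Metric.tendsto_atTop.1 t3 (ε / 3) (by positivity)
  refine ⟨max N1 (max N2 N3), fun l hl d => ?_⟩
  have b1 := hN1 l ((le_max_left _ _).trans hl)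
  have b2 := hN2 l ((le_max_left _ _).trans ((le_max_right _ _).trans hl))
  have b3 := hN3 l ((le_max_right _ _).trans ((le_max_right _ _).trans hl))
  rw [Real.dist_eq, abs_lt] at b1 b2 b3
  rw [hq l d, qmg_qd]
  set A := n (1, 0)
  set α := a l (1, 0)
  set β := a l (0, 1)
  set γ := a l (1, 1)
  have e1 : d.1 ^ 2 * α + d.2 ^ 2 * β + d.1 * d.2 * (γ - α - β) -
      A / 2 * (2 * (d.1 ^ 2 - d.1 * d.2 + d.2 ^ 2)) =
      d.1 ^ 2 * (α - A) + d.2 ^ 2 * (β - A) + d.1 * d.2 * ((γ - A) - (α - A) - (β - A)) := by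
    ring
  rw [e1]
  have c1 : |d.1 ^ 2 * (α - A)| ≤ d.1 ^ 2 * (ε / 3) := by
    rw [abs_mul, abs_of_nonneg (sq_nonneg _)]
    refine mul_le_mul_of_nonneg_left ?_ (sq_nonneg _)
    rw [abs_le]
    constructor <;> linarith
  have c2 : |d.2 ^ 2 * (β - A)| ≤ d.2 ^ 2 * (ε / 3) := by
    rw [abs_mul, abs_of_nonneg (sq_nonneg _)]
    refine mul_le_mul_of_nonneg_left ?_ (sq_nonneg _)
    rw [abs_le]
    constructor <;> linarith
  have c3 : |d.1 * d.2 * ((γ - A) - (α - A) - (β - A))| ≤ (d.1 ^ 2 + d.2 ^ 2) / 2 * ε := by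
    rw [abs_mul]
    refine mul_le_mul ?_ ?_ (abs_nonneg _) (by positivity)
    · rw [abs_le]
      constructor <;> nlinarith [sq_nonneg (d.1 + d.2), sq_nonneg (d.1 - d.2)]
    · rw [abs_le]
      constructor <;> linarith
  refine (abs_add_le _ _).trans ((add_le_add ((abs_add_le _ _).trans (add_le_add c1 c2)) c3).trans ?_)
  nlinarith [mul_nonneg hε.le (sq_nonneg (d.1 - d.2)), mul_nonneg hε.le (sq_nonneg d.1),
    mul_nonneg hε.le (sq_nonneg d.2)]
/- END qmg -/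

theorem nu_lim : ∃ σ : ℝ, 0 ≤ σ ∧ ∀ ε : ℝ, 0 < ε → ∃ l0 : ℕ, ∀ l : ℕ, l0 ≤ l → ∀ d : ℝ × ℝ,
    |al l d - σ * qd d| ≤ ε * qd d := by
  obtain ⟨C, hC, hm⟩ := al_mono
  refine lim_quad al (fun l d => ?_) (fun l d => ?_) hC hm
  · unfold al
    rcases Nat.eq_zero_or_pos l with rfl | hl
    · simp
    · obtain ⟨C', hC', h⟩ := tB_bd
      have hne : (bx l).Nonempty := by
        refine ⟨(0, 0), ?_⟩
        simp [bx, hl]
      exact div_nonneg (h (bx l) hne (Nat.sqrt l) d).1 (by positivity)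
  · unfold al
    rw [tB_quad (bx l) (Nat.sqrt l) d]
    ring

end Pool.Agent.Hmk
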