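import Pool.Agent.Hmk.Fa

/-!
# Hmk, second part: the slopes of the universal fields
-/

set_option autoImplicit false

open MeasureTheory Set Filter
open scoped ENNReal ContDiff Topology

noncomputable section

namespace Pool.Agent.Hmk

/-- window fields: functions of the window `W`, nice in `B` -/
structure WF (W B : Finset (ℤ × ℤ)) (v : ℤ × ℤ → (W → ℝ) → ℝ) : Prop where
  sub : B ⊆ W
  nice : LNice W B v
  shf : ∀ z, Shf W (v z)
  bdd : ∃ C : ℝ, ∀ z k, |v z k| ≤ C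
  dbdd : ∃ C : ℝ, ∀ z y k, |pz W y (v z) k| ≤ C

/- MODULE qna
Closure properties of `Lg` and `WF`.  `gt_Lg`: `gt_meas`, `gt_mem`, and for the shift `gt_loc`,
`gt_shift` (all sites of the ball are in `W`).  `pz W y` of a shift invariant function is shift
invariant.  `WF.pl`: `pl_lnice`, `pz_rs`; `rs (nb b) z (gl W 0 (k + t)) = rs .. k + t` because
`tr z (nb b) ⊆ W`. -/
theorem Lg.const (W : Finset (ℤ × ℤ)) (t : ℝ) : Lg W (fun _ => t) :=
  ⟨measurable_const, ⟨|t|, fun _ => le_rfl⟩, fun _ _ => rfl⟩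

theorem Lg.mul {W : Finset (ℤ × ℤ)} {g g' : (W → ℝ) → ℝ} (hg : Lg W g) (hg' : Lg W g') :
    Lg W (fun k => g k * g' k) := by
  obtain ⟨C, hC⟩ := hg.bd
  obtain ⟨C', hC'⟩ := hg'.bd
  refine ⟨hg.ms.mul hg'.ms, ⟨C * C', fun k => ?_⟩, fun k t => ?_⟩
  · rw [abs_mul]
    exact mul_le_mul (hC k) (hC' k) (abs_nonneg _) ((abs_nonneg _).trans (hC k))
  · show g (fun w => k w + t) * g' (fun w => k w + t) = g k * g' k
    rw [hg.sh k t, hg'.sh k t]

theorem Lg.sub {W : Finset (ℤ × ℤ)} {g g' : (W → ℝ) → ℝ} (hg : Lg W g) (hg' : Lg W g') :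
    Lg W (fun k => g k - g' k) := by
  obtain ⟨C, hC⟩ := hg.bd
  obtain ⟨C', hC'⟩ := hg'.bd
  refine ⟨hg.ms.sub hg'.ms, ⟨C + C', fun k => ?_⟩, fun k t => ?_⟩
  · exact (abs_sub _ _).trans (add_le_add (hC k) (hC' k))
  · show g (fun w => k w + t) - g' (fun w => k w + t) = g k - g' k
    rw [hg.sh k t, hg'.sh k t]

theorem Lg.abs {W : Finset (ℤ × ℤ)} {g : (W → ℝ) → ℝ} (hg : Lg W g) : Lg W (fun k => |g k|) := by
  obtain ⟨C, hC⟩ := hg.bd
  refine ⟨hg.ms.abs, ⟨C, fun k => ?_⟩, fun k t => ?_⟩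
  · rw [abs_abs]
    exact hC k
  · show |g (fun w => k w + t)| = |g k|
    rw [hg.sh k t]

theorem Lg.min1 {W : Finset (ℤ × ℤ)} {g : (W → ℝ) → ℝ} (hg : Lg W g) :
    Lg W (fun k => min 1 (g k)) := by
  obtain ⟨C, hC⟩ := hg.bd
  refine ⟨measurable_const.min hg.ms, ⟨1 + C, fun k => ?_⟩, fun k t => ?_⟩
  · have h1 := abs_le.1 (hC k)
    have h2 := (abs_nonneg _).trans (hC k)
    rw [abs_le]
    constructor
    · exact le_min (by linarith) (by linarith [h1.1])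
    · exact (min_le_left _ _).trans (by linarith)
  · show min 1 (g (fun w => k w + t)) = min 1 (g k)
    rw [hg.sh k t]

private theorem qna_gl {W : Finset (ℤ × ℤ)} (k : W → ℝ) (t : ℝ) {z : ℤ × ℤ} (hz : z ∈ W) :
    gl W (fun _ => 0) (fun w => k w + t) z = gl W (fun _ => 0) k z + t := by
  unfold gl
  rw [dif_pos hz, dif_pos hz]

theorem gt_Lg {W : Finset (ℤ × ℤ)} {m : ℕ} {x : ℤ × ℤ} (i : Fin 6)
    (hx : ∀ z, dn (z - x) ≤ (m : ℤ) + 1 → z ∈ W) :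
    Lg W (fun k => gt m x i (gl W (fun _ => 0) k)) := by
  refine ⟨gt_meas W _ m x i, ⟨1, fun k => ?_⟩, fun k t => ?_⟩
  · rcases gt_mem m x i (gl W (fun _ => 0) k) with h | h <;> rw [h] <;> norm_num
  · show gt m x i (gl W (fun _ => 0) (fun w => k w + t)) = gt m x i (gl W (fun _ => 0) k)
    rw [← gt_shift m x i (gl W (fun _ => 0) k) t]
    exact gt_loc fun z hz => qna_gl k t (hx z hz)

theorem UF.wf {B : Finset (ℤ × ℤ)} {V : ℤ × ℤ → (nb B → ℝ) → ℝ} (hV : UF B V) :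
    WF (nb B) B V :=
  ⟨fun _ hx => mem_nb.2 (Or.inl hx), hV.nice, hV.shf, hV.bdd, hV.dbdd⟩

theorem WF.mono {W B B' : Finset (ℤ × ℤ)} {v : ℤ × ℤ → (W → ℝ) → ℝ} (hv : WF W B v)
    (h : B' ⊆ B) : WF W B' v :=
  ⟨h.trans hv.sub, hv.nice.mono h, hv.shf, hv.bdd, hv.dbdd⟩

private theorem qna_diff {W B : Finset (ℤ × ℤ)} {v : ℤ × ℤ → (W → ℝ) → ℝ} (hv : WF W B v)
    (z : ℤ × ℤ) : Differentiable ℝ (v z) := (hv.nice.sm z).differentiable (by simp)

theorem WF.comb {W B : Finset (ℤ × ℤ)} {v u : ℤ × ℤ → (W → ℝ) → ℝ} (hv : WF W B v)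
    (hu : WF W B u) (s t : ℝ) : WF W B (s • v + t • u) := by
  obtain ⟨C, hC⟩ := hv.bdd
  obtain ⟨C', hC'⟩ := hu.bdd
  obtain ⟨E, hE⟩ := hv.dbdd
  obtain ⟨E', hE'⟩ := hu.dbdd
  refine ⟨hv.sub, (hv.nice.smul s).add (hu.nice.smul t), fun z k r => ?_,
    ⟨|s| * C + |t| * C', fun z k => ?_⟩, ⟨|s| * E + |t| * E', fun z y k => ?_⟩⟩
  · show s * v z (fun w => k w + r) + t * u z (fun w => k w + r) = s * v z k + t * u z k
    rw [hv.shf z k r, hu.shf z k r]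
  · show |s * v z k + t * u z k| ≤ |s| * C + |t| * C'
    refine (abs_add_le _ _).trans ?_
    rw [abs_mul, abs_mul]
    exact add_le_add (mul_le_mul_of_nonneg_left (hC z k) (abs_nonneg _))
      (mul_le_mul_of_nonneg_left (hC' z k) (abs_nonneg _))
  · have h1 : pz W y ((s • v + t • u) z) k = s * pz W y (v z) k + t * pz W y (u z) k := by
      have h2 := pz_add (S := W) (y := y) (f := fun k => s * v z k) (g := fun k => t * u z k)
        (k := k) ((qna_diff hv z k).const_mul s) ((qna_diff hu z k).const_mul t)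
      rw [pz_smul s (qna_diff hv z k), pz_smul t (qna_diff hu z k)] at h2
      exact h2
    rw [h1]
    refine (abs_add_le _ _).trans ?_
    rw [abs_mul, abs_mul]
    exact add_le_add (mul_le_mul_of_nonneg_left (hE z y k) (abs_nonneg _))
      (mul_le_mul_of_nonneg_left (hE' z y k) (abs_nonneg _))

theorem WF.diff {W B : Finset (ℤ × ℤ)} {v u : ℤ × ℤ → (W → ℝ) → ℝ} (hv : WF W B v)
    (hu : WF W B u) : WF W B (v - u) := by
  have h1 : v - u = (1 : ℝ) • v + (-1 : ℝ) • u := by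
    rw [one_smul, neg_one_smul, sub_eq_add_neg]
  rw [h1]
  exact hv.comb hu 1 (-1)

theorem WF.pl {b W : Finset (ℤ × ℤ)} {z : ℤ × ℤ} (hW : tr z (nb b) ⊆ W)
    {U : ℤ × ℤ → (nb b → ℝ) → ℝ} (hU : UF b U) :
    WF W (tr z b) (pl W (fun _ => 0) (nb b) z U) := by
  have hb : b ⊆ nb b := fun x hx => mem_nb.2 (Or.inl hx)
  obtain ⟨C, hC⟩ := hU.bdd
  obtain ⟨E, hE⟩ := hU.dbdd
  refine ⟨fun x hx => hW (mem_tr.2 (hb (mem_tr.1 hx))), pl_lnice hb hW hU.nice,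
    fun x k t => ?_, ⟨C, fun x k => hC _ _⟩, ⟨E, fun x y k => ?_⟩⟩
  · show U (x - z) (rs (nb b) z (gl W (fun _ => 0) (fun w => k w + t))) =
      U (x - z) (rs (nb b) z (gl W (fun _ => 0) k))
    rw [← hU.shf (x - z) (rs (nb b) z (gl W (fun _ => 0) k)) t]
    congr 1
    funext w
    refine qna_gl k t (hW (mem_tr.2 ?_))
    rw [add_sub_cancel_left]
    exact w.2
  · have h1 := pz_rs (c := fun _ => 0) (z := y - z) hW
      (F := U (x - z)) ((hU.nice.sm (x - z)).differentiable (by simp)) k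
    rw [add_sub_cancel] at h1
    have h2 : pz W y (Pool.Agent.Hmk.pl W (fun _ => 0) (nb b) z U x) k =
        pz (nb b) (y - z) (U (x - z)) (rs (nb b) z (gl W (fun _ => 0) k)) := h1
    rw [h2]
    exact hE _ _ _

theorem WF.Lg_v {W B : Finset (ℤ × ℤ)} {v : ℤ × ℤ → (W → ℝ) → ℝ} (hv : WF W B v) (z : ℤ × ℤ) :
    Lg W (v z) := by
  obtain ⟨C, hC⟩ := hv.bdd
  exact ⟨(hv.nice.sm z).continuous.measurable, ⟨C, fun k => hC z k⟩, hv.shf z⟩

private theorem qna_pz {W B : Finset (ℤ × ℤ)} {v : ℤ × ℤ → (W → ℝ) → ℝ} (hv : WF W B v)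
    (x y : ℤ × ℤ) : Lg W (fun k => pz W y (v x) k) := by
  obtain ⟨E, hE⟩ := hv.dbdd
  refine ⟨(pz_cont ((hv.nice.sm x).of_le (by exact_mod_cast le_top))).measurable,
    ⟨E, fun k => hE x y k⟩, fun k t => ?_⟩
  show pz W y (v x) (fun w => k w + t) = pz W y (v x) k
  unfold pz
  by_cases hy : y ∈ W
  · rw [dif_pos hy, dif_pos hy]
    unfold pd
    have h1 : (fun k' : W → ℝ => v x (k' + fun _ => t)) = v x := by
      funext k'
      exact hv.shf x k' t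
    have h2 := fderiv_comp_add_right (𝕜 := ℝ) (f := v x) (x := k) (fun _ : W => t)
    rw [h1] at h2
    have h3 : (fun w => k w + t) = k + fun _ => t := rfl
    rw [h3, ← h2]
  · rw [dif_neg hy, dif_neg hy]

theorem WF.Lg_en {W B : Finset (ℤ × ℤ)} {v : ℤ × ℤ → (W → ℝ) → ℝ} (hv : WF W B v) :
    Lg W (en W B v) := by
  have h1 : Lg W (fun k => ∑ x ∈ B, ∑ y ∈ B, pz W y (v x) k * pz W y (v x) k) :=
    Lg.sum B fun x _ => Lg.sum B fun y _ => (qna_pz hv x y).mul (qna_pz hv x y)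
  have h2 : en W B v = fun k => ∑ x ∈ B, ∑ y ∈ B, pz W y (v x) k * pz W y (v x) k := by
    funext k
    unfold en
    simp only [sq]
  rw [h2]
  exact h1

theorem WF.Lg_sx {W B : Finset (ℤ × ℤ)} {v : ℤ × ℤ → (W → ℝ) → ℝ} (hv : WF W B v) (m : ℕ)
    (i : Fin 6) : Lg W (sx W (fun _ => 0) B m v i) := by
  have h1 : Lg W (fun k => ∑ x ∈ inn B (m + 2), gt m x i (gl W (fun _ => 0) k) *
      (v (x + st i) k - v x k)) := by
    refine Lg.sum _ fun x hx => (gt_Lg i fun z hz => hv.sub ?_).mul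
      ((hv.Lg_v (x + st i)).sub (hv.Lg_v x))
    refine mem_inn.1 hx z (hz.trans ?_)
    push_cast
    linarith
  exact h1

theorem WF.Lg_Jf {W B : Finset (ℤ × ℤ)} {v : ℤ × ℤ → (W → ℝ) → ℝ} (hv : WF W B v) (m : ℕ)
    (d : ℝ × ℝ) : Lg W (Jf W (fun _ => 0) B m d v) := by
  have h1 : Lg W (fun k => ∑ i ∈ (Finset.univ : Finset (Fin 6)),
      dc d i * sx W (fun _ => 0) B m v i k) :=
    Lg.sum _ fun i _ => (hv.Lg_sx m i).smul (dc d i)
  exact h1.sub hv.Lg_en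

theorem fl_Lg {L : ℕ} {V : ℤ × ℤ → (nb (bx L) → ℝ) → ℝ} (hV : UF (bx L) V) (σ δ : ℝ)
    (d : ℝ × ℝ) : Lg (nb (bx L)) (fl σ δ L d V) := by
  have hW := hV.wf
  have h1 : ∀ z, Lg (nb (bx L)) (fun k => V z k - σ * dl d z) := fun z =>
    (hW.Lg_v z).sub (Lg.const _ _)
  have h2 : Lg (nb (bx L)) (fun k => avf (Bo L) (fun z => V z k - σ * dl d z)) :=
    (Lg.sum (Bo L) (fun z _ => h1 z)).smul (((Bo L).card : ℝ)⁻¹)
  have h3 : Lg (nb (bx L)) (fun k => ∑ x ∈ Bo L, min 1 ((δ * L)⁻¹ * |(V x k - σ * dl d x) -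
      avf (Bo L) (fun z => V z k - σ * dl d z)|)) :=
    Lg.sum _ fun x _ => (((h1 x).sub h2).abs.smul ((δ * L)⁻¹)).min1
  have h4 : fl σ δ L d V = fun k => ∑ x ∈ Bo L, min 1 ((δ * L)⁻¹ * |(V x k - σ * dl d x) -
      avf (Bo L) (fun z => V z k - σ * dl d z)|) := by
    funext k
    unfold fl
    refine Finset.sum_congr rfl fun x _ => ?_
    rw [div_eq_inv_mul]
  rw [h4]
  exact h3
/- END qna -/

/- MODULE qnb
The inequalities `th_up`, `th_par`, `th_energy` in the universal state.  `th_up` for the placed field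
`pl D c W y v` on `tr y B` (`Jf_pl`, `pl_lnice`), `Th_rs`, `mm_le`, `mm_off` (with `z = 0`:
`tr 0 (nb B) = nb B ⊆ W`).  `mm_energy`: `mm_up` for the fields `s • v` and `abs_energy`.
`mm_slope`: `Jf (d + t d') v = Jf d v + t ∑ dc d' i sx i`, so
`t (S - P) ≤ def + t^2 tB d'` for all real `t` (`mm_up`, `tB_quad`), hence
`(S - P)^2 ≤ 4 def tB d'`. -/
private theorem qnb_int {W : Finset (ℤ × ℤ)} {g : (W → ℝ) → ℝ} (hg : Lg W g)
    {D : Finset (ℤ × ℤ)} {b : ℤ × ℤ → ℝ} (hb : ∀ z, |b z| ≤ 1 / 2) (y : ℤ × ℤ) :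
    Integrable (fun h => g (rs W y (gl D b h))) (Mu D b) := by
  have := Mu_prob (D := D) hb
  obtain ⟨C, hC⟩ := hg.bd
  exact Integrable.of_bound (hg.ms.comp (rs_meas D W b y)).aestronglyMeasurable C
    (Filter.Eventually.of_forall fun h => by rw [Real.norm_eq_abs]; exact hC _)

private theorem qnb_sub {W : Finset (ℤ × ℤ)} {g g' : (W → ℝ) → ℝ} (hg : Lg W g)
    (hg' : Lg W g') : mm W (fun k => g k - g' k) = mm W g - mm W g' := by
  have h := mm_add (hg.sub hg') hg'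
  have e : (fun k => g k - g' k + g' k) = g := by
    funext k
    ring
  rw [e] at h
  linarith

private theorem qnb_nbtr {W : Finset (ℤ × ℤ)} {y : ℤ × ℤ} {D : Finset (ℤ × ℤ)}
    (h : nb (tr y W) ⊆ D) : tr y W ⊆ D := fun z hz => h (mem_nb.2 (Or.inl hz))

private theorem qnb_trsub {B W : Finset (ℤ × ℤ)} (y : ℤ × ℤ) (h : B ⊆ W) :
    tr y B ⊆ tr y W := fun z hz => mem_tr.2 (h (mem_tr.1 hz))

private theorem qnb_tr0 {B W : Finset (ℤ × ℤ)} (h : B ⊆ W) : tr 0 B ⊆ W := fun z hz => by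
  have := mem_tr.1 hz
  rw [sub_zero] at this
  exact h this

/-- the window function of `Th` on the big window -/
private def qnb_T (W B : Finset (ℤ × ℤ)) (m : ℕ) (d : ℝ × ℝ) (k : W → ℝ) : ℝ :=
  Th B m d (g0 (nb B) (rs (nb B) 0 (gl W (fun _ => 0) k)))

private theorem qnb_TLg {W B : Finset (ℤ × ℤ)} (hB : nb B ⊆ W) (m : ℕ) (d : ℝ × ℝ) :
    Lg W (qnb_T W B m d) := Lg.off (qnb_tr0 hB) (Th_Lg B m d)

private theorem qnb_Tmm {W B : Finset (ℤ × ℤ)} (hB : nb B ⊆ W) (m : ℕ) (d : ℝ × ℝ) :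
    mm W (qnb_T W B m d) = tB B m d := by
  have h := mm_off (W' := W) (z := 0) (qnb_tr0 hB) (Th_Lg B m d)
  unfold tB
  rw [← h]
  rfl

private theorem qnb_Trs {W B D : Finset (ℤ × ℤ)} (hB : nb B ⊆ W) (m : ℕ) (d : ℝ × ℝ)
    (b : ℤ × ℤ → ℝ) (y : ℤ × ℤ) (h : D → ℝ) :
    qnb_T W B m d (rs W y (gl D b h)) = Th B m d (sf y (gl D b h)) := by
  unfold qnb_T
  rw [rs_rs (qnb_tr0 hB), add_zero, Th_rs]

private theorem qnb_sxs {W B : Finset (ℤ × ℤ)} (v : ℤ × ℤ → (W → ℝ) → ℝ) (s : ℝ) (m : ℕ)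
    (i : Fin 6) (k : W → ℝ) :
    sx W (fun _ => 0) B m (s • v) i k = s * sx W (fun _ => 0) B m v i k := by
  unfold sx
  rw [Finset.mul_sum]
  refine Finset.sum_congr rfl fun x _ => ?_
  show _ * (s * v (x + st i) k - s * v x k) = _
  ring

private theorem qnb_ens {W B : Finset (ℤ × ℤ)} {v : ℤ × ℤ → (W → ℝ) → ℝ} (hv : WF W B v) (s : ℝ)
    (k : W → ℝ) : en W B (s • v) k = s ^ 2 * en W B v k := by
  unfold en
  rw [Finset.mul_sum]
  refine Finset.sum_congr rfl fun x _ => ?_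
  rw [Finset.mul_sum]
  refine Finset.sum_congr rfl fun y _ => ?_
  have e : pz W y ((s • v) x) k = s * pz W y (v x) k :=
    pz_smul s (((hv.nice.sm x).differentiable (by simp)).differentiableAt)
  rw [e, mul_pow]
theorem mm_en_nonneg {W B : Finset (ℤ × ℤ)} {v : ℤ × ℤ → (W → ℝ) → ℝ} (hv : WF W B v) :
    0 ≤ mm W (en W B v) := by
  exact mm_nonneg hv.Lg_en fun k => Finset.sum_nonneg fun x _ => Finset.sum_nonneg fun y _ =>
    sq_nonneg _

theorem mm_up {W B : Finset (ℤ × ℤ)} {v : ℤ × ℤ → (W → ℝ) → ℝ} (hv : WF W B v)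
    (hB : nb B ⊆ W) (m : ℕ) (d : ℝ × ℝ) :
    mm W (Jf W (fun _ => 0) B m d v) ≤ tB B m d := by
  rw [← qnb_Tmm hB m d]
  refine mm_le (hv.Lg_Jf m d) (qnb_TLg hB m d) ?_
  intro D b hb y hD
  have hW : tr y W ⊆ D := qnb_nbtr hD
  simp only [qnb_Trs hB]
  have h1 := th_up B m d hb (y := y) ((qnb_trsub y hv.sub).trans hW)
    (pl_lnice (c := b) hv.sub hW hv.nice)
  simp only [Jf_pl hv.sub hW hv.nice] at h1
  exact h1

theorem mm_par {W B : Finset (ℤ × ℤ)} {v u : ℤ × ℤ → (W → ℝ) → ℝ} (hv : WF W B v)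
    (hu : WF W B u) (hB : nb B ⊆ W) (m : ℕ) (d : ℝ × ℝ) :
    mm W (en W B (v - u)) ≤ 2 * (tB B m d - mm W (Jf W (fun _ => 0) B m d v)) +
      2 * (tB B m d - mm W (Jf W (fun _ => 0) B m d u)) := by
  have hT := qnb_TLg hB m d
  have hJv := hv.Lg_Jf m d
  have hJu := hu.Lg_Jf m d
  have h1 : mm W (en W B (v - u)) ≤ mm W (fun k => 2 * (qnb_T W B m d k -
      Jf W (fun _ => 0) B m d v k) + 2 * (qnb_T W B m d k - Jf W (fun _ => 0) B m d u k)) := by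
    refine mm_le (hv.diff hu).Lg_en (((hT.sub hJv).smul 2).add ((hT.sub hJu).smul 2)) ?_
    intro D b hb y hD
    have hW : tr y W ⊆ D := qnb_nbtr hD
    have h2 := th_par B m d hb (y := y) ((qnb_trsub y hv.sub).trans hW)
      (pl_lnice (c := b) hv.sub hW hv.nice) (pl_lnice (c := b) hu.sub hW hu.nice)
    have e : pl D b W y v - pl D b W y u = pl D b W y (v - u) := rfl
    rw [e] at h2
    simp only [Jf_pl hv.sub hW hv.nice, Jf_pl hu.sub hW hu.nice,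
      en_pl hv.sub hW (hv.diff hu).nice] at h2
    refine h2.trans (le_of_eq ?_)
    simp only [← qnb_Trs hB m d b y]
    rw [← integral_sub (qnb_int hT hb y) (qnb_int hJv hb y),
      ← integral_sub (qnb_int hT hb y) (qnb_int hJu hb y), ← integral_const_mul,
      ← integral_const_mul]
    exact (integral_add ((((qnb_int hT hb y).sub (qnb_int hJv hb y))).const_mul 2)
      ((((qnb_int hT hb y).sub (qnb_int hJu hb y))).const_mul 2)).symm
  rw [mm_add ((hT.sub hJv).smul 2) ((hT.sub hJu).smul 2), mm_smul (hT.sub hJv),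
    mm_smul (hT.sub hJu), qnb_sub hT hJv, qnb_sub hT hJu, qnb_Tmm hB] at h1
  exact h1

theorem mm_energy {W B : Finset (ℤ × ℤ)} {v : ℤ × ℤ → (W → ℝ) → ℝ} (hv : WF W B v)
    (hB : nb B ⊆ W) (m : ℕ) (d : ℝ × ℝ) :
    |mm W (en W B v) - tB B m d| ≤ (tB B m d - mm W (Jf W (fun _ => 0) B m d v)) +
      2 * Real.sqrt (tB B m d * (tB B m d - mm W (Jf W (fun _ => 0) B m d v))) := by
  have hsx : ∀ i : Fin 6, Lg W (fun k => dc d i * sx W (fun _ => 0) B m v i k) :=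
    fun i => (hv.Lg_sx m i).smul _
  have hl : Lg W (fun k => ∑ i, dc d i * sx W (fun _ => 0) B m v i k) :=
    Lg.sum Finset.univ fun i _ => hsx i
  have hJ : ∀ s : ℝ, mm W (Jf W (fun _ => 0) B m d (s • v)) =
      s * mm W (fun k => ∑ i, dc d i * sx W (fun _ => 0) B m v i k) -
        s ^ 2 * mm W (en W B v) := by
    intro s
    rw [← mm_smul hl, ← mm_smul hv.Lg_en, ← qnb_sub (hl.smul s) (hv.Lg_en.smul (s ^ 2))]
    congr 1
    funext k
    unfold Jf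
    rw [qnb_ens hv, Finset.mul_sum]
    congr 1
    refine Finset.sum_congr rfl fun i _ => ?_
    rw [qnb_sxs]
    ring
  have hs : ∀ s : ℝ, s * mm W (fun k => ∑ i, dc d i * sx W (fun _ => 0) B m v i k) -
      s ^ 2 * mm W (en W B v) ≤ tB B m d := by
    intro s
    rw [← hJ s]
    have h1 : WF W B (s • v) := by
      have := hv.comb hv s 0
      rwa [zero_smul, add_zero] at this
    exact mm_up h1 hB m d
  have h1 := abs_energy (mm_en_nonneg hv) hs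
  have h2 := hJ 1
  rw [one_smul] at h2
  rw [one_mul, one_pow, one_mul] at h2
  rw [h2]
  exact h1

theorem mm_slope {W B : Finset (ℤ × ℤ)} {v : ℤ × ℤ → (W → ℝ) → ℝ} (hv : WF W B v)
    (hB : nb B ⊆ W) (m : ℕ) (d d' : ℝ × ℝ) :
    |∑ i, dc d' i * mm W (sx W (fun _ => 0) B m v i) -
      (tB B m (d + d') - tB B m d - tB B m d')| ≤
      2 * Real.sqrt ((tB B m d - mm W (Jf W (fun _ => 0) B m d v)) * tB B m d') := by
  have hS : ∀ t : ℝ, mm W (Jf W (fun _ => 0) B m (d + t • d') v) =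
      mm W (Jf W (fun _ => 0) B m d v) + t * ∑ i, dc d' i * mm W (sx W (fun _ => 0) B m v i) := by
    intro t
    have h1 : ∀ i : Fin 6, Lg W (fun k => dc d' i * sx W (fun _ => 0) B m v i k) :=
      fun i => (hv.Lg_sx m i).smul _
    have e1 : (∑ i, dc d' i * mm W (sx W (fun _ => 0) B m v i)) =
        mm W (fun k => ∑ i, dc d' i * sx W (fun _ => 0) B m v i k) := by
      rw [mm_sum Finset.univ fun i _ => h1 i]
      refine Finset.sum_congr rfl fun i _ => ?_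
      rw [mm_smul (hv.Lg_sx m i)]
    have h2 : Lg W (fun k => ∑ i, dc d' i * sx W (fun _ => 0) B m v i k) :=
      Lg.sum Finset.univ fun i _ => h1 i
    rw [e1, ← mm_smul h2, ← mm_add (hv.Lg_Jf m d) (h2.smul t)]
    congr 1
    funext k
    unfold Jf
    rw [Finset.mul_sum]
    have e2 : ∀ i, dc (d + t • d') i = dc d i + t * dc d' i := by
      intro i
      unfold dc
      simp only [Prod.fst_add, Prod.snd_add, Prod.smul_fst, Prod.smul_snd, smul_eq_mul]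
      ring
    have e3 : ∑ i, dc (d + t • d') i * sx W (fun _ => 0) B m v i k =
        ∑ i, dc d i * sx W (fun _ => 0) B m v i k +
          ∑ i, t * (dc d' i * sx W (fun _ => 0) B m v i k) := by
      rw [← Finset.sum_add_distrib]
      refine Finset.sum_congr rfl fun i _ => ?_
      rw [e2]
      ring
    rw [e3]
    ring
  have hq : ∀ t : ℝ, tB B m (d + t • d') = tB B m d +
      t * (tB B m (d + d') - tB B m d - tB B m d') + t ^ 2 * tB B m d' := by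
    intro t
    rw [tB_quad B m (d + t • d'), tB_quad B m (d + d'), tB_quad B m d, tB_quad B m d']
    simp only [Prod.fst_add, Prod.snd_add, Prod.smul_fst, Prod.smul_snd, smul_eq_mul]
    ring
  have key : ∀ t : ℝ, 0 ≤ tB B m d' * (t * t) +
      (-(∑ i, dc d' i * mm W (sx W (fun _ => 0) B m v i) -
      (tB B m (d + d') - tB B m d - tB B m d'))) * t +
      (tB B m d - mm W (Jf W (fun _ => 0) B m d v)) := by
    intro t
    have h1 := mm_up hv hB m (d + t • d')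
    rw [hS t, hq t] at h1
    nlinarith
  have h1 := discrim_le_zero key
  unfold discrim at h1
  have h2 : (∑ i, dc d' i * mm W (sx W (fun _ => 0) B m v i) -
      (tB B m (d + d') - tB B m d - tB B m d')) ^ 2 ≤
      4 * ((tB B m d - mm W (Jf W (fun _ => 0) B m d v)) * tB B m d') := by
    nlinarith
  refine (Real.abs_le_sqrt h2).trans (le_of_eq ?_)
  rw [Real.sqrt_mul (by norm_num), show (4 : ℝ) = 2 ^ 2 by norm_num,
    Real.sqrt_sq (by norm_num)]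
/- END qnb -/

/- MODULE qnc
`gc_lemma` in the universal state: for `(D, c, y)` apply it to the box `tr y B` and the placed field
(`Jf_pl` for `B` and for `tr z b`; `sp b (tr y B) = tr y (sp b B)`,
`te b (tr y B) m M (y + x) = te b B m M x`), then `mm_sqrt` for
`g = Jf B - (card b)⁻¹ ∑ Jf (tr z b)`, `g' = en`. -/
private theorem qnc_int {W : Finset (ℤ × ℤ)} {g : (W → ℝ) → ℝ} (hg : Lg W g)
    {D : Finset (ℤ × ℤ)} {b : ℤ × ℤ → ℝ} (hb : ∀ z, |b z| ≤ 1 / 2) (y : ℤ × ℤ) :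
    Integrable (fun h => g (rs W y (gl D b h))) (Mu D b) := by
  have := Mu_prob (D := D) hb
  obtain ⟨C, hC⟩ := hg.bd
  exact Integrable.of_bound (hg.ms.comp (rs_meas D W b y)).aestronglyMeasurable C
    (Filter.Eventually.of_forall fun h => by rw [Real.norm_eq_abs]; exact hC _)

private theorem qnc_sub {W : Finset (ℤ × ℤ)} {g g' : (W → ℝ) → ℝ} (hg : Lg W g)
    (hg' : Lg W g') : mm W (fun k => g k - g' k) = mm W g - mm W g' := by
  have h := mm_add (hg.sub hg') hg'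
  have e : (fun k => g k - g' k + g' k) = g := by
    funext k
    ring
  rw [e] at h
  linarith

private theorem qnc_trsub {B W : Finset (ℤ × ℤ)} (y : ℤ × ℤ) (h : B ⊆ W) :
    tr y B ⊆ tr y W := fun z hz => mem_tr.2 (h (mem_tr.1 hz))

private theorem qnc_card (y : ℤ × ℤ) (B : Finset (ℤ × ℤ)) : (tr y B).card = B.card := by
  unfold tr
  exact Finset.card_image_of_injective _ (add_right_injective y)

private theorem qnc_sum (y : ℤ × ℤ) (B : Finset (ℤ × ℤ)) (f : ℤ × ℤ → ℝ) :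
    ∑ x ∈ tr y B, f x = ∑ x ∈ B, f (y + x) := by
  unfold tr
  exact Finset.sum_image fun a _ b _ h => add_right_injective y h

private theorem qnc_trtr (y z : ℤ × ℤ) (b : Finset (ℤ × ℤ)) : tr y (tr z b) = tr (y + z) b := by
  ext x
  rw [mem_tr, mem_tr, mem_tr, show x - y - z = x - (y + z) by abel]

private theorem qnc_trle (y z : ℤ × ℤ) (b B : Finset (ℤ × ℤ)) :
    tr (y + z) b ⊆ tr y B ↔ tr z b ⊆ B := by
  constructor
  · intro h x hx
    have h1 : y + x ∈ tr (y + z) b := by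
      rw [← qnc_trtr, mem_tr, add_sub_cancel_left]
      exact hx
    have h2 := mem_tr.1 (h h1)
    rwa [add_sub_cancel_left] at h2
  · intro h
    rw [← qnc_trtr]
    exact qnc_trsub y h

private theorem qnc_memsp (b B : Finset (ℤ × ℤ)) (z : ℤ × ℤ) :
    z ∈ sp b B ↔ z ∈ B ∧ tr z b ⊆ B := by
  unfold sp
  exact Finset.mem_filter

private theorem qnc_sp (b B : Finset (ℤ × ℤ)) (y : ℤ × ℤ) :
    sp b (tr y B) = tr y (sp b B) := by
  ext z
  rw [mem_tr, qnc_memsp, qnc_memsp, mem_tr]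
  have e : tr z b ⊆ tr y B ↔ tr (z - y) b ⊆ B := by
    have := qnc_trle y (z - y) b B
    rwa [add_sub_cancel] at this
  rw [e]

private theorem qnc_omw (b B : Finset (ℤ × ℤ)) (m : ℕ) (y x : ℤ × ℤ) :
    omw b (tr y B) m (y + x) = omw b B m x := by
  classical
  unfold omw
  congr 2
  rw [qnc_sp]
  refine Finset.card_bij' (fun z _ => z - y) (fun z _ => y + z) ?_ ?_ ?_ ?_
  · intro z hz
    rw [Finset.mem_filter, mem_tr, mem_tr] at hz
    rw [Finset.mem_filter, mem_tr]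
    refine ⟨hz.1, ?_⟩
    have e : x - (z - y) = y + x - z := by abel
    rw [e]
    exact hz.2
  · intro z hz
    rw [Finset.mem_filter, mem_tr] at hz
    rw [Finset.mem_filter, mem_tr, mem_tr, add_sub_cancel_left]
    refine ⟨hz.1, ?_⟩
    have e : y + x - (y + z) = x - z := by abel
    rw [e]
    exact hz.2
  · intro z _
    abel
  · intro z _
    abel

private theorem qnc_te (b B : Finset (ℤ × ℤ)) (m M : ℕ) (y x : ℤ × ℤ) :
    te b (tr y B) m M (y + x) = te b B m M x := by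
  have h1 : y + x ∈ inn (tr y B) (M + 2) ↔ x ∈ inn B (M + 2) := by
    rw [inn_tr, mem_tr, add_sub_cancel_left]
  unfold te
  rw [qnc_omw]
  by_cases h : x ∈ inn B (M + 2)
  · rw [if_pos h, if_pos (h1.2 h)]
  · rw [if_neg h, if_neg fun h' => h (h1.1 h')]

theorem mm_gc : ∃ C : ℝ, 0 ≤ C ∧ ∀ (W b B : Finset (ℤ × ℤ)) (m M : ℕ), m ≤ M → (0, 0) ∈ b →
    ∀ (d : ℝ × ℝ) (v : ℤ × ℤ → (W → ℝ) → ℝ), WF W B v →
    mm W (Jf W (fun _ => 0) B M d v) ≤
      (b.card : ℝ)⁻¹ * ∑ z ∈ sp b B, mm W (Jf W (fun _ => 0) (tr z b) m d v) +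
      C * Real.sqrt (qd d) * ((9 / 10) ^ m * Real.sqrt B.card +
        Real.sqrt (∑ x ∈ B, te b B m M x ^ 2)) * Real.sqrt (mm W (en W B v)) := by
  classical
  obtain ⟨C, hC, H⟩ := gc_lemma
  refine ⟨C, hC, ?_⟩
  intro W b B m M hm h0 d v hv
  have hz : ∀ z ∈ sp b B, tr z b ⊆ B := fun z hz => by
    unfold sp at hz
    exact (Finset.mem_filter.1 hz).2
  have hvz : ∀ z ∈ sp b B, WF W (tr z b) v := fun z h => hv.mono (hz z h)
  have hJ : ∀ z ∈ sp b B, Lg W (Jf W (fun _ => 0) (tr z b) m d v) :=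
    fun z h => (hvz z h).Lg_Jf m d
  have hS : Lg W (fun k => ∑ z ∈ sp b B, Jf W (fun _ => 0) (tr z b) m d v k) :=
    Lg.sum _ hJ
  have hS' := hS.smul (b.card : ℝ)⁻¹
  have hJB := hv.Lg_Jf M d
  have h1 : mm W (fun k => Jf W (fun _ => 0) B M d v k -
      (b.card : ℝ)⁻¹ * ∑ z ∈ sp b B, Jf W (fun _ => 0) (tr z b) m d v k) ≤
      (C * Real.sqrt (qd d) * ((9 / 10) ^ m * Real.sqrt B.card +
        Real.sqrt (∑ x ∈ B, te b B m M x ^ 2))) * Real.sqrt (mm W (en W B v)) := by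
    refine mm_sqrt (hJB.sub hS') hv.Lg_en (fun k => Finset.sum_nonneg fun x _ =>
      Finset.sum_nonneg fun y _ => sq_nonneg _) (by positivity) ?_
    intro D c hc y hD
    have hW : tr y W ⊆ D := fun z hz => hD (mem_nb.2 (Or.inl hz))
    have hBD : tr y B ⊆ D := (qnc_trsub y hv.sub).trans hW
    have h2 := H b (tr y B) m M hm h0 d D c hc hBD (pl D c W y v)
      (pl_lnice hv.sub hW hv.nice)
    rw [qnc_sp b B y, qnc_sum y (sp b B), qnc_sum y B, qnc_card] at h2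
    have e1 : ∀ x, te b (tr y B) m M (y + x) = te b B m M x := fun x => qnc_te b B m M y x
    simp only [e1, Jf_pl hv.sub hW hv.nice, en_pl hv.sub hW hv.nice] at h2
    have e2 : ∀ z ∈ sp b B, ∀ h : D → ℝ, Jf D c (tr (y + z) b) m d (pl D c W y v) h =
        Jf W (fun _ => 0) (tr z b) m d v (rs W y (gl D c h)) := by
      intro z hz' h
      rw [← qnc_trtr y z b]
      exact Jf_pl (hvz z hz').sub hW (hvz z hz').nice m d h
    have e3 : ∑ z ∈ sp b B, ∫ h, Jf D c (tr (y + z) b) m d (pl D c W y v) h ∂(Mu D c) =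
        ∑ z ∈ sp b B, ∫ h, Jf W (fun _ => 0) (tr z b) m d v (rs W y (gl D c h)) ∂(Mu D c) :=
      Finset.sum_congr rfl fun z hz' => integral_congr_ae
        (Filter.Eventually.of_forall fun h => e2 z hz' h)
    rw [e3] at h2
    have e4 : ∫ h, (Jf W (fun _ => 0) B M d v (rs W y (gl D c h)) - (b.card : ℝ)⁻¹ *
        ∑ z ∈ sp b B, Jf W (fun _ => 0) (tr z b) m d v (rs W y (gl D c h))) ∂(Mu D c) =
        ∫ h, Jf W (fun _ => 0) B M d v (rs W y (gl D c h)) ∂(Mu D c) - (b.card : ℝ)⁻¹ *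
        ∑ z ∈ sp b B, ∫ h, Jf W (fun _ => 0) (tr z b) m d v (rs W y (gl D c h)) ∂(Mu D c) := by
      have i1 := qnc_int hJB hc (D := D) y
      have i2 := qnc_int hS' hc (D := D) y
      rw [integral_sub i1 i2, integral_const_mul,
        integral_finsetSum _ fun z hz' => qnc_int (hJ z hz') hc y]
    rw [e4]
    linarith
  rw [qnc_sub hJB hS', mm_smul hS, mm_sum _ hJ] at h1
  linarith
/- END qnc -/

/- MODULE qnd
`gate_sum`, `fc5` and the monotonicity of the gates (`up_mono`, also for `- H`) in the universal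
state (`mm_sqrt`, `mm_le`, `gt_tr`). -/
private theorem qnd_int {W : Finset (ℤ × ℤ)} {g : (W → ℝ) → ℝ} (hg : Lg W g)
    {D : Finset (ℤ × ℤ)} {b : ℤ × ℤ → ℝ} (hb : ∀ z, |b z| ≤ 1 / 2) (y : ℤ × ℤ) :
    Integrable (fun h => g (rs W y (gl D b h))) (Mu D b) := by
  have := Mu_prob (D := D) hb
  obtain ⟨C, hC⟩ := hg.bd
  exact Integrable.of_bound (hg.ms.comp (rs_meas D W b y)).aestronglyMeasurable C
    (Filter.Eventually.of_forall fun h => by rw [Real.norm_eq_abs]; exact hC _)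

private theorem qnd_trsub {B W : Finset (ℤ × ℤ)} (y : ℤ × ℤ) (h : B ⊆ W) :
    tr y B ⊆ tr y W := fun z hz => mem_tr.2 (h (mem_tr.1 hz))

private theorem qnd_sum (y : ℤ × ℤ) (B : Finset (ℤ × ℤ)) (f : ℤ × ℤ → ℝ) :
    ∑ x ∈ tr y B, f x = ∑ x ∈ B, f (y + x) := by
  unfold tr
  exact Finset.sum_image fun a _ b _ h => add_right_injective y h

private theorem qnd_gt {W : Finset (ℤ × ℤ)} {m : ℕ} {x y : ℤ × ℤ} {i : Fin 6}
    (hx : ∀ z, dn (z - x) ≤ (m : ℤ) + 1 → z ∈ W) (H : ℤ × ℤ → ℝ) :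
    gt m x i (gl W (fun _ => 0) (rs W y H)) = gt m (y + x) i H := by
  rw [gt_tr]
  refine gt_loc fun z hz => ?_
  unfold gl rs
  rw [dif_pos (hx z hz)]

private theorem qnd_neg {D : Finset (ℤ × ℤ)} (b : ℤ × ℤ → ℝ) (h : D → ℝ) (z : ℤ × ℤ) :
    gl D (fun z => - b z) (fun x => - h x) z = - gl D b h z := by
  unfold gl
  split_ifs <;> rfl

private theorem qnd_negK {D : Finset (ℤ × ℤ)} {b : ℤ × ℤ → ℝ} {h : D → ℝ} (hh : h ∈ K D b) :
    (fun x => - h x) ∈ K D (fun z => - b z) := by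
  intro x hx i
  rw [qnd_neg, qnd_neg, show - gl D b h x - - gl D b h (x + st i) =
    -(gl D b h x - gl D b h (x + st i)) by ring, abs_neg]
  exact hh x hx i

private theorem qnd_mono {D : Finset (ℤ × ℤ)} {b : ℤ × ℤ → ℝ} (hb : ∀ z, |b z| ≤ 1 / 2)
    {h : D → ℝ} (hh : h ∈ K D b) {m M : ℕ} (hm : m ≤ M) (x : ℤ × ℤ) (i : Fin 6) :
    gt m x i (gl D b h) ≤ gt M x i (gl D b h) := by
  have h1 : up m x (x + st i) (gl D b h) ∨ up m x (x + st i) (fun z => - gl D b h z) →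
      up M x (x + st i) (gl D b h) ∨ up M x (x + st i) (fun z => - gl D b h z) := by
    rintro (h2 | h2)
    · exact Or.inl (up_mono hb hm hh h2)
    · right
      have e : (fun z => - gl D b h z) = gl D (fun z => - b z) (fun x => - h x) :=
        funext fun z => (qnd_neg b h z).symm
      rw [e] at h2 ⊢
      exact up_mono (fun z => by rw [abs_neg]; exact hb z) hm (qnd_negK hh) h2
  unfold gt
  by_cases h2 : up m x (x + st i) (gl D b h) ∨ up m x (x + st i) (fun z => - gl D b h z)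
  · rw [if_pos h2, if_pos (h1 h2)]
  · rw [if_neg h2]
    split_ifs
    · exact zero_le_one
    · exact le_rfl

private theorem qnd_leK {W : Finset (ℤ × ℤ)} {g g' : (W → ℝ) → ℝ} (hg : Lg W g) (hg' : Lg W g')
    (h : ∀ (D : Finset (ℤ × ℤ)) (b : ℤ × ℤ → ℝ), (∀ z, |b z| ≤ 1 / 2) → ∀ y : ℤ × ℤ,
      nb (tr y W) ⊆ D → ∀ h ∈ K D b, g (rs W y (gl D b h)) ≤ g' (rs W y (gl D b h))) :
    mm W g ≤ mm W g' := by
  refine mm_le hg hg' fun D b hb y hD => ?_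
  refine integral_mono_ae (qnd_int hg hb y) (qnd_int hg' hb y) ?_
  filter_upwards [Mu_aeK D b] with k hk
  exact h D b hb y hD k hk

theorem mm_gate : ∃ C : ℝ, 0 ≤ C ∧ ∀ (W B : Finset (ℤ × ℤ)) (v : ℤ × ℤ → (W → ℝ) → ℝ),
    WF W B v → ∀ (m m₀ : ℕ), m₀ ≤ m → ∀ A : Finset (ℤ × ℤ), A ⊆ inn B (m + 1) →
    ∀ t : ℤ × ℤ → ℝ, (∀ x, 0 ≤ t x) →
    ∑ x ∈ A, ∑ i, t x * mm W (fun k => gt m x i (gl W (fun _ => 0) k) *
        (1 - gt m₀ x i (gl W (fun _ => 0) k)) * |v (x + st i) k - v x k|) ≤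
      C * (9 / 10) ^ m₀ * Real.sqrt (∑ x ∈ A, t x ^ 2) * Real.sqrt (mm W (en W B v)) ∧
    ∑ x ∈ A, ∑ i, t x * mm W (fun k => gt m x i (gl W (fun _ => 0) k) *
        |v (x + st i) k - v x k|) ≤
      C * Real.sqrt (∑ x ∈ A, t x ^ 2) * Real.sqrt (mm W (en W B v)) := by
  obtain ⟨C, hC, H⟩ := gate_sum
  refine ⟨C, hC, ?_⟩
  intro W B v hv m m₀ hm A hA t ht
  have hx : ∀ x ∈ A, ∀ z, dn (z - x) ≤ (m : ℤ) + 1 → z ∈ W := fun x hx z hz =>
    hv.sub (mem_inn.1 (hA hx) z (by push_cast; exact hz))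
  have hx0 : ∀ x ∈ A, ∀ z, dn (z - x) ≤ (m₀ : ℤ) + 1 → z ∈ W := fun x hx' z hz =>
    hx x hx' z (hz.trans (by have : (m₀ : ℤ) ≤ m := by exact_mod_cast hm
                             linarith))
  have hg1 : ∀ x ∈ A, ∀ i : Fin 6, Lg W (fun k => gt m x i (gl W (fun _ => 0) k) *
      |v (x + st i) k - v x k|) := fun x hx' i =>
    (gt_Lg i (hx x hx')).mul ((hv.Lg_v _).sub (hv.Lg_v _)).abs
  have hg2 : ∀ x ∈ A, ∀ i : Fin 6, Lg W (fun k => gt m x i (gl W (fun _ => 0) k) *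
      (1 - gt m₀ x i (gl W (fun _ => 0) k)) * |v (x + st i) k - v x k|) := fun x hx' i =>
    ((gt_Lg i (hx x hx')).mul ((Lg.const W 1).sub (gt_Lg i (hx0 x hx')))).mul
      ((hv.Lg_v _).sub (hv.Lg_v _)).abs
  have key : ∀ g : ℤ × ℤ → Fin 6 → (W → ℝ) → ℝ, (∀ x ∈ A, ∀ i, Lg W (g x i)) →
      ∀ C' : ℝ, 0 ≤ C' → (∀ (D : Finset (ℤ × ℤ)) (b : ℤ × ℤ → ℝ), (∀ z, |b z| ≤ 1 / 2) →
        ∀ y : ℤ × ℤ, nb (tr y W) ⊆ D → ∑ x ∈ A, ∑ i, t x *
          (∫ h, g x i (rs W y (gl D b h)) ∂(Mu D b)) ≤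
          C' * Real.sqrt (∫ h, en W B v (rs W y (gl D b h)) ∂(Mu D b))) →
      ∑ x ∈ A, ∑ i, t x * mm W (g x i) ≤ C' * Real.sqrt (mm W (en W B v)) := by
    intro g hg C' hC' hgg
    have h1 : ∀ x ∈ A, Lg W (fun k => ∑ i, t x * g x i k) := fun x hx' =>
      Lg.sum _ fun i _ => (hg x hx' i).smul _
    have h2 : Lg W (fun k => ∑ x ∈ A, ∑ i, t x * g x i k) := Lg.sum _ h1
    have h3 : ∑ x ∈ A, ∑ i, t x * mm W (g x i) =
        mm W (fun k => ∑ x ∈ A, ∑ i, t x * g x i k) := by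
      rw [mm_sum _ h1]
      refine Finset.sum_congr rfl fun x hx' => ?_
      rw [mm_sum _ fun i _ => (hg x hx' i).smul _]
      refine Finset.sum_congr rfl fun i _ => ?_
      rw [mm_smul (hg x hx' i)]
    rw [h3]
    refine mm_sqrt h2 hv.Lg_en (fun k => Finset.sum_nonneg fun x _ =>
      Finset.sum_nonneg fun y _ => sq_nonneg _) hC' ?_
    intro D b hb y hD
    refine le_trans (le_of_eq ?_) (hgg D b hb y hD)
    rw [integral_finsetSum _ fun x hx' => qnd_int (h1 x hx') hb y]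
    refine Finset.sum_congr rfl fun x hx' => ?_
    rw [integral_finsetSum _ fun i _ => qnd_int ((hg x hx' i).smul (t x)) hb y]
    refine Finset.sum_congr rfl fun i _ => ?_
    rw [integral_const_mul]
  have hDD : ∀ (D : Finset (ℤ × ℤ)) (b : ℤ × ℤ → ℝ), (∀ z, |b z| ≤ 1 / 2) →
      ∀ y : ℤ × ℤ, nb (tr y W) ⊆ D →
      ∑ x ∈ A, ∑ i, t x * (∫ h, gt m x i (gl W (fun _ => 0) (rs W y (gl D b h))) *
        (1 - gt m₀ x i (gl W (fun _ => 0) (rs W y (gl D b h)))) *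
        |v (x + st i) (rs W y (gl D b h)) - v x (rs W y (gl D b h))| ∂(Mu D b)) ≤
        C * (9 / 10) ^ m₀ * Real.sqrt (∑ x ∈ A, t x ^ 2) *
          Real.sqrt (∫ h, en W B v (rs W y (gl D b h)) ∂(Mu D b)) ∧
      ∑ x ∈ A, ∑ i, t x * (∫ h, gt m x i (gl W (fun _ => 0) (rs W y (gl D b h))) *
        |v (x + st i) (rs W y (gl D b h)) - v x (rs W y (gl D b h))| ∂(Mu D b)) ≤
        C * Real.sqrt (∑ x ∈ A, t x ^ 2) *
          Real.sqrt (∫ h, en W B v (rs W y (gl D b h)) ∂(Mu D b)) := by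
    intro D b hb y hD
    have hW : tr y W ⊆ D := fun z hz => hD (mem_nb.2 (Or.inl hz))
    have hBD : tr y B ⊆ D := (qnd_trsub y hv.sub).trans hW
    have h1 := H D b hb (tr y B) hBD (pl D b W y v) (pl_lnice hv.sub hW hv.nice) m m₀ hm
      (tr y A) (by rw [inn_tr]; exact qnd_trsub y hA) (fun x => t (x - y)) (fun x => ht _)
    rw [qnd_sum y A, qnd_sum y A, qnd_sum y A] at h1
    simp only [add_sub_cancel_left, en_pl hv.sub hW hv.nice] at h1
    have e1 : ∀ x (h : D → ℝ), pl D b W y v (y + x) h = v x (rs W y (gl D b h)) := by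
      intro x h
      unfold pl
      rw [add_sub_cancel_left]
    have e2 : ∀ x (i : Fin 6) (h : D → ℝ), pl D b W y v (y + x + st i) h =
        v (x + st i) (rs W y (gl D b h)) := by
      intro x i h
      rw [add_assoc]
      exact e1 _ h
    have e3 : ∀ x ∈ A, ∀ (i : Fin 6) (h : D → ℝ), gt m x i (gl W (fun _ => 0)
        (rs W y (gl D b h))) = gt m (y + x) i (gl D b h) := fun x hx' i h =>
      qnd_gt (hx x hx') (gl D b h)
    have e4 : ∀ x ∈ A, ∀ (i : Fin 6) (h : D → ℝ), gt m₀ x i (gl W (fun _ => 0)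
        (rs W y (gl D b h))) = gt m₀ (y + x) i (gl D b h) := fun x hx' i h =>
      qnd_gt (hx0 x hx') (gl D b h)
    constructor
    · refine le_trans (le_of_eq ?_) h1.1
      refine Finset.sum_congr rfl fun x hx' => Finset.sum_congr rfl fun i _ => ?_
      congr 1
      refine integral_congr_ae (Filter.Eventually.of_forall fun h => ?_)
      show _ = gt m (y + x) i (gl D b h) * (1 - gt m₀ (y + x) i (gl D b h)) *
        |pl D b W y v (y + x + st i) h - pl D b W y v (y + x) h|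
      rw [e1, e2, ← e3 x hx' i h, ← e4 x hx' i h]
    · refine le_trans (le_of_eq ?_) h1.2
      refine Finset.sum_congr rfl fun x hx' => Finset.sum_congr rfl fun i _ => ?_
      congr 1
      refine integral_congr_ae (Filter.Eventually.of_forall fun h => ?_)
      show _ = gt m (y + x) i (gl D b h) *
        |pl D b W y v (y + x + st i) h - pl D b W y v (y + x) h|
      rw [e1, e2, ← e3 x hx' i h]
  exact ⟨key _ hg2 _ (by positivity) fun D b hb y hD => (hDD D b hb y hD).1,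
    key _ hg1 _ (by positivity) fun D b hb y hD => (hDD D b hb y hD).2⟩

theorem mm_fc5 : ∃ C : ℝ, 0 ≤ C ∧ ∀ (W : Finset (ℤ × ℤ)) (x : ℤ × ℤ) (i : Fin 6) (m : ℕ),
    (∀ z, dn (z - x) ≤ (m : ℤ) + 1 → z ∈ W) →
    mm W (fun k => 1 - gt m x i (gl W (fun _ => 0) k)) ≤ C * (1 / 75) ^ m := by
  obtain ⟨C, hC, H⟩ := fc5
  refine ⟨C, hC, ?_⟩
  intro W x i m hx
  have h1 : Lg W (fun k => 1 - gt m x i (gl W (fun _ => 0) k)) :=
    (Lg.const W 1).sub (gt_Lg i hx)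
  have h2 : mm W (fun k => 1 - gt m x i (gl W (fun _ => 0) k)) ≤
      mm W (fun _ => C * (1 / 75) ^ m) := by
    refine mm_le h1 (Lg.const _ _) ?_
    intro D b hb y hD
    have := Mu_prob (D := D) hb
    rw [integral_const]
    simp only [probReal_univ, one_smul]
    have h3 := H D b hb (y + x) i m (by
      intro z hz
      refine hD (mem_nb.2 (Or.inl (mem_tr.2 (hx _ ?_))))
      have h4 := mem_ba.1 hz
      rw [show z - y - x = z - (y + x) by abel]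
      push_cast at h4
      exact h4)
    simp only [qnd_gt hx]
    exact h3
  rw [mm_const] at h2
  exact h2

theorem mm_gmono {W : Finset (ℤ × ℤ)} {x : ℤ × ℤ} (i : Fin 6) {m M : ℕ} (hm : m ≤ M)
    (hx : ∀ z, dn (z - x) ≤ (M : ℤ) + 1 → z ∈ W) {g : (W → ℝ) → ℝ} (hg : Lg W g)
    (h0 : ∀ k, 0 ≤ g k) :
    mm W (fun k => gt m x i (gl W (fun _ => 0) k) * g k) ≤
      mm W (fun k => gt M x i (gl W (fun _ => 0) k) * g k) := by
  have hx' : ∀ z, dn (z - x) ≤ (m : ℤ) + 1 → z ∈ W := fun z hz =>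
    hx z (hz.trans (by have : (m : ℤ) ≤ M := by exact_mod_cast hm
                       linarith))
  refine qnd_leK ((gt_Lg i hx').mul hg) ((gt_Lg i hx).mul hg) ?_
  intro D b hb y hD h hh
  show gt m x i (gl W (fun _ => 0) (rs W y (gl D b h))) * g (rs W y (gl D b h)) ≤
    gt M x i (gl W (fun _ => 0) (rs W y (gl D b h))) * g (rs W y (gl D b h))
  rw [qnd_gt hx', qnd_gt hx]
  exact mul_le_mul_of_nonneg_right (qnd_mono hb hh hm _ _) (h0 _)

/-- inequalities which hold for all configurations of `K` -/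
theorem mm_leK {W : Finset (ℤ × ℤ)} {g g' : (W → ℝ) → ℝ} (hg : Lg W g) (hg' : Lg W g')
    (h : ∀ (D : Finset (ℤ × ℤ)) (b : ℤ × ℤ → ℝ), (∀ z, |b z| ≤ 1 / 2) → ∀ y : ℤ × ℤ,
      nb (tr y W) ⊆ D → ∀ h ∈ K D b, g (rs W y (gl D b h)) ≤ g' (rs W y (gl D b h))) :
    mm W g ≤ mm W g' := by
  exact qnd_leK hg hg' h
/- END qnd -/

/- MODULE qne
Universal near-maximisers: `near_mx`, `mm_le`, `Th_rs`, `Jf_pl`. -/
private theorem qne_int {W : Finset (ℤ × ℤ)} {g : (W → ℝ) → ℝ} (hg : Lg W g)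
    {D : Finset (ℤ × ℤ)} {b : ℤ × ℤ → ℝ} (hb : ∀ z, |b z| ≤ 1 / 2) (y : ℤ × ℤ) :
    Integrable (fun h => g (rs W y (gl D b h))) (Mu D b) := by
  have := Mu_prob (D := D) hb
  obtain ⟨C, hC⟩ := hg.bd
  exact Integrable.of_bound (hg.ms.comp (rs_meas D W b y)).aestronglyMeasurable C
    (Filter.Eventually.of_forall fun h => by rw [Real.norm_eq_abs]; exact hC _)

theorem mm_near {B : Finset (ℤ × ℤ)} (hB : B.Nonempty) (m : ℕ) {ε : ℝ} (hε : 0 < ε) :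
    ∃ V0 V1 : ℤ × ℤ → (nb B → ℝ) → ℝ, UF B V0 ∧ UF B V1 ∧ ∀ d : ℝ × ℝ,
      tB B m d - mm (nb B) (Jf (nb B) (fun _ => 0) B m d (d.1 • V0 + d.2 • V1)) ≤ ε * qd d := by
  obtain ⟨V0, V1, h0, h1, H⟩ := near_mx hB m hε
  refine ⟨V0, V1, h0, h1, fun d => ?_⟩
  have hV : UF B (d.1 • V0 + d.2 • V1) := h0.comb h1 d.1 d.2
  have hJ : Lg (nb B) (Jf (nb B) (fun _ => 0) B m d (d.1 • V0 + d.2 • V1)) :=
    (UF_Lg hV (Finset.Subset.refl B) m d).2.2
  have hc : Lg (nb B) (fun _ => ε * qd d) := Lg.const _ _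
  have hBn : B ⊆ nb B := fun z hz => mem_nb.2 (Or.inl hz)
  have key : tB B m d ≤ mm (nb B) (fun k => Jf (nb B) (fun _ => 0) B m d
      (d.1 • V0 + d.2 • V1) k + ε * qd d) := by
    unfold tB
    refine mm_le (Th_Lg B m d) (hJ.add hc) ?_
    intro D b hb y hD
    have := Mu_prob (D := D) hb
    have hW : tr y (nb B) ⊆ D := fun z hz => hD (mem_nb.2 (Or.inl hz))
    have h2 := H D b hb y hD d
    simp only [Jf_pl hBn hW hV.nice, Th_rs] at h2
    rw [integral_add (qne_int hJ hb y) (integrable_const _), integral_const]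
    simp only [probReal_univ, one_smul]
    linarith
  rw [mm_add hJ hc, mm_const] at key
  linarith
/- END qne -/

/- MODULE qnf
Comparison of `V` with the small fields `U` placed at `z`: `mm_par` on the boxes `tr z b`
(`z ∈ sp b B`, `nb (tr z b) ⊆ nb B`), sum over `z`, `mm_gc`; the functional of the placed field is
`mm (nb b) (Jf b U)` (`Jf_pl`, `mm_off`); `card (sp b B) ≤ card B`, `0 ≤ tB b m d`. -/
private theorem qnf_nbm {A B : Finset (ℤ × ℤ)} (h : A ⊆ B) : nb A ⊆ nb B := by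
  intro x hx
  rcases mem_nb.1 hx with h1 | ⟨i, h1⟩
  · exact mem_nb.2 (Or.inl (h h1))
  · exact mem_nb.2 (Or.inr ⟨i, h h1⟩)

private theorem qnf_trnb (z : ℤ × ℤ) (b : Finset (ℤ × ℤ)) : tr z (nb b) = nb (tr z b) := by
  ext x
  rw [mem_tr, mem_nb, mem_nb, mem_tr]
  refine or_congr Iff.rfl (exists_congr fun i => ?_)
  rw [mem_tr, show x + st i - z = x - z + st i by abel]

private theorem qnf_tB (z : ℤ × ℤ) (b : Finset (ℤ × ℤ)) (m : ℕ) (d : ℝ × ℝ) :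
    tB (tr z b) m d = tB b m d := by
  have h : tr z (nb b) ⊆ nb (tr z b) := by rw [qnf_trnb]
  have h1 := mm_off h (Th_Lg b m d)
  have h2 : tB b m d = mm (nb b) (fun k => Th b m d (g0 (nb b) k)) := rfl
  rw [h2, ← h1]
  unfold tB
  congr 1
  funext k
  rw [Th_tr, Th_rs]
  rfl

theorem sl1 : ∃ C : ℝ, 0 ≤ C ∧ ∀ (b B : Finset (ℤ × ℤ)) (m M : ℕ), m ≤ M → (0, 0) ∈ b →
    B.Nonempty → ∀ (d : ℝ × ℝ) (V : ℤ × ℤ → (nb B → ℝ) → ℝ) (U : ℤ × ℤ → (nb b → ℝ) → ℝ),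
    UF B V → UF b U →
    ∑ z ∈ sp b B, mm (nb B) (en (nb B) (tr z b) (V - pl (nb B) (fun _ => 0) (nb b) z U)) ≤
      2 * b.card * B.card * ((tB b m d / b.card - tB B M d / B.card) +
        (tB B M d - mm (nb B) (Jf (nb B) (fun _ => 0) B M d V)) / B.card +
        (tB b m d - mm (nb b) (Jf (nb b) (fun _ => 0) b m d U)) / b.card +
        C * Real.sqrt (qd d) * ((9 / 10) ^ m + Real.sqrt ((∑ x ∈ B, te b B m M x ^ 2) / B.card)) *
          Real.sqrt (mm (nb B) (en (nb B) B V) / B.card)) := by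
  obtain ⟨C, hC, H⟩ := mm_gc
  refine ⟨C, hC, ?_⟩
  intro b B m M hm h0 hB d V U hV hU
  have hVw : WF (nb B) B V := hV.wf
  have hz : ∀ z ∈ sp b B, tr z b ⊆ B := fun z hz => by
    unfold sp at hz
    exact (Finset.mem_filter.1 hz).2
  have hb : b.Nonempty := ⟨_, h0⟩
  have hbc : (0 : ℝ) < b.card := by exact_mod_cast hb.card_pos
  have hBc : (0 : ℝ) < B.card := by exact_mod_cast hB.card_pos
  have hspc : ((sp b B).card : ℝ) ≤ B.card := by
    have : sp b B ⊆ B := by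
      unfold sp
      exact Finset.filter_subset _ _
    exact_mod_cast Finset.card_le_card this
  have hbn : nb b ⊆ nb b := Finset.Subset.refl _
  have hbb : b ⊆ nb b := fun z hz => mem_nb.2 (Or.inl hz)
  -- each position
  have h1 : ∀ z ∈ sp b B, mm (nb B) (en (nb B) (tr z b) (V - pl (nb B) (fun _ => 0) (nb b) z U)) ≤
      2 * (tB b m d - mm (nb B) (Jf (nb B) (fun _ => 0) (tr z b) m d V)) +
      2 * (tB b m d - mm (nb b) (Jf (nb b) (fun _ => 0) b m d U)) := by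
    intro z hz'
    have hn : nb (tr z b) ⊆ nb B := qnf_nbm (hz z hz')
    have hW : tr z (nb b) ⊆ nb B := by
      rw [qnf_trnb]
      exact hn
    have h2 := mm_par (hVw.mono (hz z hz')) (WF.pl hW hU) hn m d
    rw [qnf_tB] at h2
    have e1 : mm (nb B) (Jf (nb B) (fun _ => 0) (tr z b) m d
        (pl (nb B) (fun _ => 0) (nb b) z U)) = mm (nb b) (Jf (nb b) (fun _ => 0) b m d U) := by
      rw [← mm_off hW (UF_Lg hU (Finset.Subset.refl b) m d).2.2]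
      congr 1
      funext k
      exact Jf_pl hbb hW hU.nice m d k
    rw [e1] at h2
    exact h2
  have hdef : 0 ≤ tB b m d - mm (nb b) (Jf (nb b) (fun _ => 0) b m d U) := by
    have := mm_up hU.wf hbn m d
    linarith
  have hTb : 0 ≤ tB b m d := by
    obtain ⟨C', _, h'⟩ := tB_bd
    exact (h' b hb m d).1
  have h2 := H (nb B) b B m M hm h0 d V hVw
  have h3 := Finset.sum_le_sum h1
  rw [Finset.sum_add_distrib, ← Finset.mul_sum, Finset.sum_sub_distrib, Finset.sum_const,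
    Finset.sum_const, nsmul_eq_mul, nsmul_eq_mul] at h3
  have h4 : (b.card : ℝ) * ((b.card : ℝ)⁻¹ * ∑ z ∈ sp b B,
      mm (nb B) (Jf (nb B) (fun _ => 0) (tr z b) m d V)) = ∑ z ∈ sp b B,
      mm (nb B) (Jf (nb B) (fun _ => 0) (tr z b) m d V) := by
    rw [← mul_assoc, mul_inv_cancel₀ hbc.ne', one_mul]
  obtain ⟨S, hS⟩ : ∃ S : ℝ, S = ∑ z ∈ sp b B,
      mm (nb B) (Jf (nb B) (fun _ => 0) (tr z b) m d V) := ⟨_, rfl⟩
  obtain ⟨J, hJ⟩ : ∃ J : ℝ, J = mm (nb B) (Jf (nb B) (fun _ => 0) B M d V) := ⟨_, rfl⟩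
  obtain ⟨E, hE⟩ : ∃ E : ℝ, E = mm (nb B) (en (nb B) B V) := ⟨_, rfl⟩
  obtain ⟨Y, hY⟩ : ∃ Y : ℝ, Y = ∑ x ∈ B, te b B m M x ^ 2 := ⟨_, rfl⟩
  obtain ⟨N, hN⟩ : ∃ N : ℝ, N = (B.card : ℝ) := ⟨_, rfl⟩
  obtain ⟨n, hn⟩ : ∃ n : ℝ, n = (b.card : ℝ) := ⟨_, rfl⟩
  obtain ⟨D, hD⟩ : ∃ D : ℝ, D = tB b m d - mm (nb b) (Jf (nb b) (fun _ => 0) b m d U) :=
    ⟨_, rfl⟩
  obtain ⟨T, hT⟩ : ∃ T : ℝ, T = tB b m d := ⟨_, rfl⟩
  rw [← hJ, ← hE, ← hY, ← hN, ← hn, ← hS] at h2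
  rw [← hS, ← hD, ← hT] at h3
  rw [← hn, ← hS] at h4
  rw [← hN] at hspc hBc
  rw [← hn] at hbc
  rw [← hD] at hdef
  rw [← hT] at hTb
  rw [← hJ, ← hE, ← hY, ← hN, ← hn, ← hD, ← hT]
  refine h3.trans ?_
  have h5 : n * J ≤ S + n * (C * Real.sqrt (qd d) * ((9 / 10) ^ m * Real.sqrt N +
      Real.sqrt Y) * Real.sqrt E) := by
    have := mul_le_mul_of_nonneg_left h2 hbc.le
    rw [mul_add, h4] at this
    exact this
  have hsN : Real.sqrt N * Real.sqrt N = N := Real.mul_self_sqrt hBc.le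
  have hsN0 : 0 < Real.sqrt N := Real.sqrt_pos.2 hBc
  have h6 : N * (((9 / 10) ^ m + Real.sqrt (Y / N)) * Real.sqrt (E / N)) =
      ((9 / 10) ^ m * Real.sqrt N + Real.sqrt Y) * Real.sqrt E := by
    rw [Real.sqrt_div' _ hBc.le, Real.sqrt_div' _ hBc.le]
    have e : N = Real.sqrt N * Real.sqrt N := hsN.symm
    field_simp
    rw [Real.sq_sqrt hBc.le]
  have h7 : 2 * n * N * ((T / n - tB B M d / N) + (tB B M d - J) / N + D / n +
      C * Real.sqrt (qd d) * ((9 / 10) ^ m + Real.sqrt (Y / N)) * Real.sqrt (E / N)) =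
      2 * N * T - 2 * (n * J) + 2 * N * D + 2 * n * (C * Real.sqrt (qd d) *
        (N * (((9 / 10) ^ m + Real.sqrt (Y / N)) * Real.sqrt (E / N)))) := by
    field_simp
    ring
  rw [h7, h6]
  have h8 : ((sp b B).card : ℝ) * T ≤ N * T := mul_le_mul_of_nonneg_right hspc hTb
  have h9 : ((sp b B).card : ℝ) * D ≤ N * D := mul_le_mul_of_nonneg_right hspc hdef
  have h10 : n * (C * Real.sqrt (qd d) * ((9 / 10) ^ m * Real.sqrt N +
      Real.sqrt Y) * Real.sqrt E) = n * (C * Real.sqrt (qd d) * (((9 / 10) ^ m * Real.sqrt N +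
      Real.sqrt Y) * Real.sqrt E)) := by ring
  rw [h10] at h5
  linarith
/- END qnf -/

/-- window average of the gated gradients -/
def Aw (W : Finset (ℤ × ℤ)) (m R : ℕ) (v : ℤ × ℤ → (W → ℝ) → ℝ) (i : Fin 6) (x0 : ℤ × ℤ)
    (k : W → ℝ) : ℝ :=
  ((R : ℝ) ^ 2)⁻¹ * ∑ z ∈ bx R, gt m (x0 + z) i (gl W (fun _ => 0) k) *
    (v (x0 + z + st i) k - v (x0 + z) k)

/-- window average of the slopes of the placed small fields -/
def Sw (W b : Finset (ℤ × ℤ)) (m R : ℕ) (U : ℤ × ℤ → (nb b → ℝ) → ℝ) (i : Fin 6) (x0 : ℤ × ℤ)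
    (k : W → ℝ) : ℝ :=
  ((R : ℝ) ^ 2)⁻¹ * ∑ z ∈ bx R, (b.card : ℝ)⁻¹ *
    sx W (fun _ => 0) (tr (x0 + z) b) m (pl W (fun _ => 0) (nb b) (x0 + z) U) i k

/- MODULE qng
Combinatorial comparison of the window averages.  Let `b = bx l`, `h x = γ^M_x ∇_i V_x`,
`h' x = γ^m_x ∇_i V_x` (direction `i`).  (1) `R^(-2) ∑_{z' ∈ x0 + bx R} (card b)⁻¹
∑_{x ∈ inn (z' + b) (m+2)} h' x = ∑_x ω x h' x` with `0 ≤ ω x ≤ R^(-2)`, `ω x = R^(-2)
card (inn b (m+2)) / card b` if all `z'` with `x ∈ z' + b` are in `x0 + bx R`; the other `x` with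
`x ∈ x0 + bx R` or `ω x ≠ 0` are at most `5 l R`.  Sum over `x0 ∈ A`: every `x` is counted at
most `R^2` times, resp. `5 l R` times in the second kind.  (2) `|h'| ≤ |h|` (`mm_gmono`),
`|h - h'| = γ^M (1 - γ^m) |∇ V|` : `mm_gate` with `t = 1`, all sites are in
`inn (bx L) (M + 2)`.  (3) `|∑_{x ∈ inn (z'+b)} γ^m ∇_i (V - U_z')| `: `mm_gate` for the box
`tr z' b` and the field `V - pl z' U` gives `C √(card b) √(mm en)`; sum over `z'` with
Cauchy-Schwarz (every `z' ∈ sp b (bx L)` is counted at most `R^2` times, at most `L^2` of them). -/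
private theorem qng_gt0 (m : ℕ) (x : ℤ × ℤ) (i : Fin 6) (H : ℤ × ℤ → ℝ) : 0 ≤ gt m x i H := by
  rcases gt_mem m x i H with h | h <;> rw [h]
  exact zero_le_one

private theorem qng_bx {n : ℕ} {z : ℤ × ℤ} : z ∈ bx n ↔ 0 ≤ z.1 ∧ z.1 < n ∧ 0 ≤ z.2 ∧ z.2 < n := by
  unfold bx
  rw [Finset.mem_product, Finset.mem_Ico, Finset.mem_Ico]
  tauto

private theorem qng_card (n : ℕ) : (bx n).card = n ^ 2 := by
  unfold bx
  rw [Finset.card_product, Int.card_Ico, sub_zero, Int.toNat_natCast]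
  ring

private theorem qng_innsub (B : Finset (ℤ × ℤ)) (r : ℕ) : inn B r ⊆ B := fun x hx =>
  mem_inn.1 hx x (by
    rw [sub_self, (dn_zero_iff 0).2 rfl]
    positivity)

private theorem qng_innmono (B : Finset (ℤ × ℤ)) {r s : ℕ} (h : r ≤ s) : inn B s ⊆ inn B r :=
  fun x hx => mem_inn.2 fun z hz => mem_inn.1 hx z (hz.trans (by exact_mod_cast h))

private theorem qng_nbm {A B : Finset (ℤ × ℤ)} (h : A ⊆ B) : nb A ⊆ nb B := by
  intro x hx
  rcases mem_nb.1 hx with h1 | ⟨i, h1⟩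
  · exact mem_nb.2 (Or.inl (h h1))
  · exact mem_nb.2 (Or.inr ⟨i, h h1⟩)

private theorem qng_trnb (z : ℤ × ℤ) (b : Finset (ℤ × ℤ)) : tr z (nb b) = nb (tr z b) := by
  ext x
  rw [mem_tr, mem_nb, mem_nb, mem_tr]
  refine or_congr Iff.rfl (exists_congr fun i => ?_)
  rw [mem_tr, show x + st i - z = x - z + st i by abel]

private theorem qng_sum (y : ℤ × ℤ) (B : Finset (ℤ × ℤ)) (f : ℤ × ℤ → ℝ) :
    ∑ x ∈ tr y B, f x = ∑ x ∈ B, f (y + x) := by
  unfold tr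
  exact Finset.sum_image fun a _ b _ h => add_right_injective y h

private theorem qng_int {W : Finset (ℤ × ℤ)} {g : (W → ℝ) → ℝ} (hg : Lg W g)
    {D : Finset (ℤ × ℤ)} {b : ℤ × ℤ → ℝ} (hb : ∀ z, |b z| ≤ 1 / 2) (y : ℤ × ℤ) :
    Integrable (fun h => g (rs W y (gl D b h))) (Mu D b) := by
  have := Mu_prob (D := D) hb
  obtain ⟨C, hC⟩ := hg.bd
  exact Integrable.of_bound (hg.ms.comp (rs_meas D W b y)).aestronglyMeasurable C
    (Filter.Eventually.of_forall fun h => by rw [Real.norm_eq_abs]; exact hC _)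

private theorem qng_mm {W : Finset (ℤ × ℤ)} {g g' : (W → ℝ) → ℝ} (hg : Lg W g) (hg' : Lg W g')
    (h : ∀ k, g k ≤ g' k) : mm W g ≤ mm W g' :=
  mm_le hg hg' fun _ _ hb y _ => integral_mono (qng_int hg hb y) (qng_int hg' hb y)
    fun _ => h _

private theorem qng_gt {W : Finset (ℤ × ℤ)} {m : ℕ} {x y : ℤ × ℤ} {i : Fin 6}
    (hx : ∀ z, dn (z - x) ≤ (m : ℤ) + 1 → z ∈ W) (H : ℤ × ℤ → ℝ) :
    gt m x i (gl W (fun _ => 0) (rs W y H)) = gt m (y + x) i H := by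
  rw [gt_tr]
  refine gt_loc fun z hz => ?_
  unfold gl rs
  rw [dif_pos (hx z hz)]

private theorem qng_neg {D : Finset (ℤ × ℤ)} (b : ℤ × ℤ → ℝ) (h : D → ℝ) (z : ℤ × ℤ) :
    gl D (fun z => - b z) (fun x => - h x) z = - gl D b h z := by
  unfold gl
  split_ifs <;> rfl

private theorem qng_negK {D : Finset (ℤ × ℤ)} {b : ℤ × ℤ → ℝ} {h : D → ℝ} (hh : h ∈ K D b) :
    (fun x => - h x) ∈ K D (fun z => - b z) := by
  intro x hx i
  rw [qng_neg, qng_neg, show - gl D b h x - - gl D b h (x + st i) =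
    -(gl D b h x - gl D b h (x + st i)) by ring, abs_neg]
  exact hh x hx i

private theorem qng_mono {D : Finset (ℤ × ℤ)} {b : ℤ × ℤ → ℝ} (hb : ∀ z, |b z| ≤ 1 / 2)
    {h : D → ℝ} (hh : h ∈ K D b) {m M : ℕ} (hm : m ≤ M) (x : ℤ × ℤ) (i : Fin 6) :
    gt m x i (gl D b h) ≤ gt M x i (gl D b h) := by
  have h1 : up m x (x + st i) (gl D b h) ∨ up m x (x + st i) (fun z => - gl D b h z) →
      up M x (x + st i) (gl D b h) ∨ up M x (x + st i) (fun z => - gl D b h z) := by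
    rintro (h2 | h2)
    · exact Or.inl (up_mono hb hm hh h2)
    · right
      have e : (fun z => - gl D b h z) = gl D (fun z => - b z) (fun x => - h x) :=
        funext fun z => (qng_neg b h z).symm
      rw [e] at h2 ⊢
      exact up_mono (fun z => by rw [abs_neg]; exact hb z) hm (qng_negK hh) h2
  unfold gt
  by_cases h2 : up m x (x + st i) (gl D b h) ∨ up m x (x + st i) (fun z => - gl D b h z)
  · rw [if_pos h2, if_pos (h1 h2)]
  · rw [if_neg h2]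
    split_ifs
    · exact zero_le_one
    · exact le_rfl

private theorem qng_sh {A X : Finset (ℤ × ℤ)} (z : ℤ × ℤ) (h : ∀ x ∈ A, x + z ∈ X)
    {f : ℤ × ℤ → ℝ} (h0 : ∀ x ∈ X, 0 ≤ f x) : ∑ x ∈ A, f (x + z) ≤ ∑ x ∈ X, f x := by
  classical
  have e : ∑ x ∈ A, f (x + z) = ∑ x ∈ A.image (fun x => x + z), f x :=
    (Finset.sum_image fun a _ b _ h => add_left_injective z h).symm
  rw [e]
  refine Finset.sum_le_sum_of_subset_of_nonneg ?_ fun x hx _ => h0 x hx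
  intro x hx
  obtain ⟨y, hy, rfl⟩ := Finset.mem_image.1 hx
  exact h y hy

private theorem qng_cs (s : Finset (ℤ × ℤ)) {f : ℤ × ℤ → ℝ} (h0 : ∀ x ∈ s, 0 ≤ f x) :
    ∑ x ∈ s, Real.sqrt (f x) ≤ Real.sqrt s.card * Real.sqrt (∑ x ∈ s, f x) := by
  have h1 := Finset.sum_mul_sq_le_sq_mul_sq s (fun _ => (1 : ℝ)) (fun x => Real.sqrt (f x))
  have e1 : ∑ x ∈ s, Real.sqrt (f x) ^ 2 = ∑ x ∈ s, f x :=
    Finset.sum_congr rfl fun x hx => Real.sq_sqrt (h0 x hx)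
  simp only [one_mul, one_pow, Finset.sum_const, nsmul_eq_mul, mul_one] at h1
  rw [e1] at h1
  rw [← Real.sqrt_mul (Nat.cast_nonneg _)]
  exact Real.le_sqrt_of_sq_le h1

private theorem qng_cd {R l : ℕ} {w : ℤ × ℤ} (h1 : 0 ≤ w.1) (h2 : w.1 ≤ l) (h3 : 0 ≤ w.2)
    (h4 : w.2 ≤ l) : (((bx R \ tr w (bx R)).card : ℕ) : ℝ) ≤ 2 * l * R := by
  classical
  have hsub : bx R \ tr w (bx R) ⊆
      (Finset.Ico (0 : ℤ) l ×ˢ Finset.Ico (0 : ℤ) R) ∪
        (Finset.Ico (0 : ℤ) R ×ˢ Finset.Ico (0 : ℤ) l) := by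
    intro z hz
    rw [Finset.mem_sdiff, mem_tr] at hz
    have h5 := qng_bx.1 hz.1
    have h6 := hz.2
    rw [qng_bx] at h6
    simp only [Prod.fst_sub, Prod.snd_sub] at h6
    rw [Finset.mem_union, Finset.mem_product, Finset.mem_product, Finset.mem_Ico,
      Finset.mem_Ico, Finset.mem_Ico, Finset.mem_Ico]
    omega
  have h5 := (Finset.card_le_card hsub).trans (Finset.card_union_le _ _)
  rw [Finset.card_product, Finset.card_product, Int.card_Ico, Int.card_Ico, sub_zero,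
    sub_zero, Int.toNat_natCast, Int.toNat_natCast] at h5
  have h6 : (((bx R \ tr w (bx R)).card : ℕ) : ℝ) ≤ ((l * R + R * l : ℕ) : ℝ) := by
    exact_mod_cast h5
  refine h6.trans (le_of_eq ?_)
  push_cast
  ring

private theorem qng_pt (R : ℕ) (I : Finset (ℤ × ℤ)) (n : ℝ) (hn : 0 < n)
    (hI : (I.card : ℝ) ≤ n) (f f' g : ℤ × ℤ → ℝ) (x0 : ℤ × ℤ) :
    |((R : ℝ) ^ 2)⁻¹ * ∑ z ∈ bx R, f (x0 + z) - ((R : ℝ) ^ 2)⁻¹ * ∑ z ∈ bx R,
      n⁻¹ * (∑ w ∈ I, f' (x0 + z + w) - g (x0 + z))| ≤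
    ((R : ℝ) ^ 2)⁻¹ * ∑ z ∈ bx R, |f (x0 + z) - f' (x0 + z)| +
      ((R : ℝ) ^ 2)⁻¹ * (n⁻¹ * ∑ w ∈ I, (∑ z ∈ bx R \ tr w (bx R), |f' (x0 + z)| +
        ∑ z ∈ tr w (bx R) \ bx R, |f' (x0 + z)|)) +
      (1 - (I.card : ℝ) / n) * (((R : ℝ) ^ 2)⁻¹ * ∑ z ∈ bx R, |f' (x0 + z)|) +
      ((R : ℝ) ^ 2)⁻¹ * ∑ z ∈ bx R, n⁻¹ * |g (x0 + z)| := by
  have hRi : 0 ≤ ((R : ℝ) ^ 2)⁻¹ := by positivity
  have hni : 0 ≤ n⁻¹ := by positivity
  have hfr : 0 ≤ 1 - (I.card : ℝ) / n := by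
    have := (div_le_one hn).2 hI
    linarith
  have key : ((R : ℝ) ^ 2)⁻¹ * ∑ z ∈ bx R, f (x0 + z) - ((R : ℝ) ^ 2)⁻¹ * ∑ z ∈ bx R,
      n⁻¹ * (∑ w ∈ I, f' (x0 + z + w) - g (x0 + z)) =
      ((R : ℝ) ^ 2)⁻¹ * ∑ z ∈ bx R, (f (x0 + z) - f' (x0 + z)) +
      ((R : ℝ) ^ 2)⁻¹ * (n⁻¹ * ∑ w ∈ I, (∑ z ∈ bx R, f' (x0 + z) -
        ∑ z ∈ tr w (bx R), f' (x0 + z))) +
      (1 - (I.card : ℝ) / n) * (((R : ℝ) ^ 2)⁻¹ * ∑ z ∈ bx R, f' (x0 + z)) +
      ((R : ℝ) ^ 2)⁻¹ * ∑ z ∈ bx R, n⁻¹ * g (x0 + z) := by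
    have e1 : ∀ w, ∑ z ∈ tr w (bx R), f' (x0 + z) = ∑ z ∈ bx R, f' (x0 + z + w) := by
      intro w
      rw [qng_sum]
      refine Finset.sum_congr rfl fun z _ => ?_
      rw [show x0 + (w + z) = x0 + z + w by abel]
    simp only [e1]
    rw [Finset.sum_sub_distrib, Finset.sum_sub_distrib, Finset.sum_const, nsmul_eq_mul,
      Finset.sum_comm (s := I) (t := bx R)]
    have e2 : ∑ z ∈ bx R, n⁻¹ * (∑ w ∈ I, f' (x0 + z + w) - g (x0 + z)) =
        n⁻¹ * (∑ z ∈ bx R, ∑ w ∈ I, f' (x0 + z + w)) - ∑ z ∈ bx R, n⁻¹ * g (x0 + z) := by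
      rw [Finset.mul_sum, ← Finset.sum_sub_distrib]
      refine Finset.sum_congr rfl fun z _ => ?_
      ring
    rw [e2]
    have e3 : n⁻¹ * ((I.card : ℝ) * ∑ z ∈ bx R, f' (x0 + z) -
        ∑ z ∈ bx R, ∑ w ∈ I, f' (x0 + z + w)) =
        (I.card : ℝ) / n * ∑ z ∈ bx R, f' (x0 + z) -
          n⁻¹ * ∑ z ∈ bx R, ∑ w ∈ I, f' (x0 + z + w) := by
      rw [div_eq_mul_inv]
      ring
    rw [e3]
    ring
  rw [key]
  have a1 : |((R : ℝ) ^ 2)⁻¹ * ∑ z ∈ bx R, (f (x0 + z) - f' (x0 + z))| ≤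
      ((R : ℝ) ^ 2)⁻¹ * ∑ z ∈ bx R, |f (x0 + z) - f' (x0 + z)| := by
    rw [abs_mul, abs_of_nonneg hRi]
    exact mul_le_mul_of_nonneg_left (Finset.abs_sum_le_sum_abs _ _) hRi
  have a2 : |((R : ℝ) ^ 2)⁻¹ * (n⁻¹ * ∑ w ∈ I, (∑ z ∈ bx R, f' (x0 + z) -
        ∑ z ∈ tr w (bx R), f' (x0 + z)))| ≤
      ((R : ℝ) ^ 2)⁻¹ * (n⁻¹ * ∑ w ∈ I, (∑ z ∈ bx R \ tr w (bx R), |f' (x0 + z)| +
        ∑ z ∈ tr w (bx R) \ bx R, |f' (x0 + z)|)) := by
    rw [abs_mul, abs_of_nonneg hRi, abs_mul, abs_of_nonneg hni]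
    refine mul_le_mul_of_nonneg_left (mul_le_mul_of_nonneg_left
      ((Finset.abs_sum_le_sum_abs _ _).trans (Finset.sum_le_sum fun w _ => ?_)) hni) hRi
    have e : ∑ z ∈ bx R, f' (x0 + z) - ∑ z ∈ tr w (bx R), f' (x0 + z) =
        ∑ z ∈ bx R \ tr w (bx R), f' (x0 + z) - ∑ z ∈ tr w (bx R) \ bx R, f' (x0 + z) := by
      rw [← Finset.sum_sdiff_sub_sum_sdiff]
    rw [e]
    refine (abs_sub _ _).trans (add_le_add ?_ ?_)
    · exact Finset.abs_sum_le_sum_abs _ _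
    · exact Finset.abs_sum_le_sum_abs _ _
  have a3 : |(1 - (I.card : ℝ) / n) * (((R : ℝ) ^ 2)⁻¹ * ∑ z ∈ bx R, f' (x0 + z))| ≤
      (1 - (I.card : ℝ) / n) * (((R : ℝ) ^ 2)⁻¹ * ∑ z ∈ bx R, |f' (x0 + z)|) := by
    rw [abs_mul, abs_of_nonneg hfr, abs_mul, abs_of_nonneg hRi]
    exact mul_le_mul_of_nonneg_left (mul_le_mul_of_nonneg_left
      (Finset.abs_sum_le_sum_abs _ _) hRi) hfr
  have a4 : |((R : ℝ) ^ 2)⁻¹ * ∑ z ∈ bx R, n⁻¹ * g (x0 + z)| ≤
      ((R : ℝ) ^ 2)⁻¹ * ∑ z ∈ bx R, n⁻¹ * |g (x0 + z)| := by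
    rw [abs_mul, abs_of_nonneg hRi]
    refine mul_le_mul_of_nonneg_left ((Finset.abs_sum_le_sum_abs _ _).trans
      (Finset.sum_le_sum fun z _ => ?_)) hRi
    rw [abs_mul, abs_of_nonneg hni]
  refine (abs_add_le _ _).trans (add_le_add ((abs_add_le _ _).trans (add_le_add
    ((abs_add_le _ _).trans (add_le_add a1 a2)) a3)) a4)

theorem sl2 : ∃ C : ℝ, 0 ≤ C ∧ ∀ (l m M R L : ℕ), 0 < l → l ≤ R → m ≤ M →
    ∀ (V : ℤ × ℤ → (nb (bx L) → ℝ) → ℝ) (U : ℤ × ℤ → (nb (bx l) → ℝ) → ℝ), UF (bx L) V →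
    UF (bx l) U → ∀ A : Finset (ℤ × ℤ), A ⊆ inn (bx L) (4 * l + 2 * R + M + 4) → ∀ i : Fin 6,
    ∑ x0 ∈ A, mm (nb (bx L)) (fun k => |Aw (nb (bx L)) M R V i x0 k -
        Sw (nb (bx L)) (bx l) m R U i x0 k|) ≤
      C * L * (((9 / 10) ^ m + (1 - ((inn (bx l) (m + 2)).card : ℝ) / (bx l).card) +
        (l : ℝ) / R) * Real.sqrt (mm (nb (bx L)) (en (nb (bx L)) (bx L) V)) +
        (l : ℝ)⁻¹ * Real.sqrt (∑ z ∈ sp (bx l) (bx L), mm (nb (bx L))
          (en (nb (bx L)) (tr z (bx l)) (V - pl (nb (bx L)) (fun _ => 0) (nb (bx l)) z U)))) := by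
  classical
  obtain ⟨C0, hC0, HG⟩ := mm_gate
  refine ⟨4 * C0, by positivity, ?_⟩
  intro l m M R L hl hlR hmM V U hV hU A hA i
  have hR : 0 < R := hl.trans_le hlR
  have hlr : (0 : ℝ) < l := by exact_mod_cast hl
  have hRr : (0 : ℝ) < R := by exact_mod_cast hR
  have hVw : WF (nb (bx L)) (bx L) V := hV.wf
  obtain ⟨X, hX⟩ : ∃ X : Finset (ℤ × ℤ), X = inn (bx L) (M + 2) := ⟨_, rfl⟩
  obtain ⟨E, hE⟩ : ∃ E : ℝ, E = mm (nb (bx L)) (en (nb (bx L)) (bx L) V) := ⟨_, rfl⟩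
  have hXB : X ⊆ bx L := by
    rw [hX]
    exact qng_innsub _ _
  have hXc : (X.card : ℝ) ≤ (L : ℝ) ^ 2 := by
    have h1 := Finset.card_le_card hXB
    rw [qng_card] at h1
    exact_mod_cast h1
  have hsX : Real.sqrt (∑ x ∈ X, (1 : ℝ) ^ 2) ≤ L := by
    rw [Finset.sum_const, nsmul_eq_mul, one_pow, mul_one]
    exact (Real.sqrt_le_sqrt hXc).trans (le_of_eq (Real.sqrt_sq (Nat.cast_nonneg L)))
  have hXM : X ⊆ inn (bx L) (M + 1) := by
    rw [hX]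
    exact qng_innmono _ (by omega)
  have hXm : X ⊆ inn (bx L) (m + 1) := by
    rw [hX]
    exact qng_innmono _ (by omega)
  have hgM : ∀ x ∈ X, ∀ z, dn (z - x) ≤ (M : ℤ) + 1 → z ∈ nb (bx L) := fun x hx z hz =>
    mem_nb.2 (Or.inl (mem_inn.1 (hXM hx) z (by push_cast; exact hz)))
  have hgm : ∀ x ∈ X, ∀ z, dn (z - x) ≤ (m : ℤ) + 1 → z ∈ nb (bx L) := fun x hx z hz =>
    mem_nb.2 (Or.inl (mem_inn.1 (hXm hx) z (by push_cast; exact hz)))
  have hd : ∀ x : ℤ × ℤ, Lg (nb (bx L)) (fun k => V (x + st i) k - V x k) := fun x =>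
    (hVw.Lg_v _).sub (hVw.Lg_v _)
  obtain ⟨h, hh⟩ : ∃ h : ℤ × ℤ → (nb (bx L) → ℝ) → ℝ, h = fun x k =>
      gt M x i (gl (nb (bx L)) (fun _ => 0) k) * (V (x + st i) k - V x k) := ⟨_, rfl⟩
  obtain ⟨h', hh'⟩ : ∃ h' : ℤ × ℤ → (nb (bx L) → ℝ) → ℝ, h' = fun x k =>
      gt m x i (gl (nb (bx L)) (fun _ => 0) k) * (V (x + st i) k - V x k) := ⟨_, rfl⟩
  have hLh : ∀ x ∈ X, Lg (nb (bx L)) (h x) := fun x hx => by
    rw [hh]
    exact (gt_Lg i (hgM x hx)).mul (hd x)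
  have hLh' : ∀ x ∈ X, Lg (nb (bx L)) (h' x) := fun x hx => by
    rw [hh']
    exact (gt_Lg i (hgm x hx)).mul (hd x)
  -- the first sum
  have hSA : ∑ x ∈ X, mm (nb (bx L)) (fun k => |h x k - h' x k|) ≤
      C0 * (9 / 10) ^ m * L * Real.sqrt E := by
    have h1 := (HG (nb (bx L)) (bx L) V hVw M m hmM X hXM (fun _ => 1)
      (fun _ => zero_le_one)).1
    rw [← hE] at h1
    refine le_trans (Finset.sum_le_sum fun x hx => ?_) (h1.trans ?_)
    · have hL1 : ∀ j : Fin 6, Lg (nb (bx L)) (fun k => gt M x j (gl (nb (bx L)) (fun _ => 0) k) *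
          (1 - gt m x j (gl (nb (bx L)) (fun _ => 0) k)) * |V (x + st j) k - V x k|) :=
        fun j => ((gt_Lg j (hgM x hx)).mul ((Lg.const _ 1).sub (gt_Lg j (hgm x hx)))).mul
          ((hVw.Lg_v _).sub (hVw.Lg_v _)).abs
      have h2 : mm (nb (bx L)) (fun k => |h x k - h' x k|) ≤
          mm (nb (bx L)) (fun k => gt M x i (gl (nb (bx L)) (fun _ => 0) k) *
          (1 - gt m x i (gl (nb (bx L)) (fun _ => 0) k)) * |V (x + st i) k - V x k|) := by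
        refine mm_leK ((hLh x hx).sub (hLh' x hx)).abs (hL1 i) ?_
        intro D b hb y hD g hg
        obtain ⟨k, hk⟩ : ∃ k : nb (bx L) → ℝ, k = rs (nb (bx L)) y (gl D b g) := ⟨_, rfl⟩
        rw [← hk]
        have h3 : gt m x i (gl (nb (bx L)) (fun _ => 0) k) ≤
            gt M x i (gl (nb (bx L)) (fun _ => 0) k) := by
          rw [hk, qng_gt (hgm x hx), qng_gt (hgM x hx)]
          exact qng_mono hb hg hmM _ _
        rw [hh, hh']
        show |gt M x i (gl (nb (bx L)) (fun _ => 0) k) * (V (x + st i) k - V x k) -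
          gt m x i (gl (nb (bx L)) (fun _ => 0) k) * (V (x + st i) k - V x k)| ≤ _
        rw [← sub_mul, abs_mul]
        refine mul_le_mul_of_nonneg_right ?_ (abs_nonneg _)
        rcases gt_mem m x i (gl (nb (bx L)) (fun _ => 0) k) with h4 | h4 <;>
        rcases gt_mem M x i (gl (nb (bx L)) (fun _ => 0) k) with h5 | h5 <;>
          rw [h4, h5] at h3 ⊢ <;>
          first
          | (exfalso
             norm_num at h3
             done)
          | norm_num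
      refine h2.trans ?_
      have h3 := Finset.single_le_sum (f := fun j : Fin 6 => (1 : ℝ) * mm (nb (bx L))
        (fun k => gt M x j (gl (nb (bx L)) (fun _ => 0) k) *
          (1 - gt m x j (gl (nb (bx L)) (fun _ => 0) k)) * |V (x + st j) k - V x k|))
        (fun j _ => mul_nonneg zero_le_one (mm_nonneg (hL1 j) fun k => ?_)) (Finset.mem_univ i)
      · refine le_trans (le_of_eq ?_) h3
        show _ = (1 : ℝ) * _
        rw [one_mul]
      · rcases gt_mem m x j (gl (nb (bx L)) (fun _ => 0) k) with h4 | h4 <;>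
        rcases gt_mem M x j (gl (nb (bx L)) (fun _ => 0) k) with h5 | h5 <;>
          rw [h4, h5] <;> norm_num
    · have h4 := mul_le_mul_of_nonneg_left hsX (show 0 ≤ C0 * (9 / 10 : ℝ) ^ m by positivity)
      exact mul_le_mul_of_nonneg_right h4 (Real.sqrt_nonneg _)
  have hSB : ∑ x ∈ X, mm (nb (bx L)) (fun k => |h' x k|) ≤ C0 * L * Real.sqrt E := by
    have h1 := (HG (nb (bx L)) (bx L) V hVw m m le_rfl X hXm (fun _ => 1)
      (fun _ => zero_le_one)).2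
    rw [← hE] at h1
    refine le_trans (Finset.sum_le_sum fun x hx => ?_) (h1.trans ?_)
    · have hL1 : ∀ j : Fin 6, Lg (nb (bx L)) (fun k => gt m x j (gl (nb (bx L)) (fun _ => 0) k) *
          |V (x + st j) k - V x k|) :=
        fun j => (gt_Lg j (hgm x hx)).mul ((hVw.Lg_v _).sub (hVw.Lg_v _)).abs
      have h2 : mm (nb (bx L)) (fun k => |h' x k|) =
          mm (nb (bx L)) (fun k => gt m x i (gl (nb (bx L)) (fun _ => 0) k) *
            |V (x + st i) k - V x k|) := by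
        congr 1
        funext k
        rw [hh']
        show |_ * _| = _
        rw [abs_mul]
        congr 1
        exact abs_of_nonneg (qng_gt0 _ _ _ _)
      rw [h2]
      have h3 := Finset.single_le_sum (f := fun j : Fin 6 => (1 : ℝ) * mm (nb (bx L))
        (fun k => gt m x j (gl (nb (bx L)) (fun _ => 0) k) * |V (x + st j) k - V x k|))
        (fun j _ => mul_nonneg zero_le_one (mm_nonneg (hL1 j) fun k =>
          mul_nonneg (qng_gt0 _ _ _ _) (abs_nonneg _))) (Finset.mem_univ i)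
      refine le_trans (le_of_eq ?_) h3
      show _ = (1 : ℝ) * _
      rw [one_mul]
    · have h4 := mul_le_mul_of_nonneg_left hsX hC0
      exact mul_le_mul_of_nonneg_right h4 (Real.sqrt_nonneg _)
  -- the fields `V - U`
  have hzs : ∀ z ∈ sp (bx l) (bx L), tr z (bx l) ⊆ bx L := fun z hz => by
    unfold sp at hz
    exact (Finset.mem_filter.1 hz).2
  have hzn : ∀ z ∈ sp (bx l) (bx L), tr z (nb (bx l)) ⊆ nb (bx L) := fun z hz => by
    rw [qng_trnb]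
    exact qng_nbm (hzs z hz)
  have hDw : ∀ z ∈ sp (bx l) (bx L), WF (nb (bx L)) (tr z (bx l))
      (V - pl (nb (bx L)) (fun _ => 0) (nb (bx l)) z U) := fun z hz =>
    (hVw.mono (hzs z hz)).diff (WF.pl (hzn z hz) hU)
  obtain ⟨Dz, hDz⟩ : ∃ Dz : ℤ × ℤ → (nb (bx L) → ℝ) → ℝ, Dz = fun z =>
    sx (nb (bx L)) (fun _ => 0) (tr z (bx l)) m
      (V - pl (nb (bx L)) (fun _ => 0) (nb (bx l)) z U) i := ⟨_, rfl⟩
  have hLD : ∀ z ∈ sp (bx l) (bx L), Lg (nb (bx L)) (Dz z) := fun z hz => by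
    rw [hDz]
    exact (hDw z hz).Lg_sx m i
  have hbcard : ((bx l).card : ℝ) = (l : ℝ) ^ 2 := by
    rw [qng_card]
    push_cast
    rfl
  have hSD : ∀ z ∈ sp (bx l) (bx L), mm (nb (bx L)) (fun k => |Dz z k|) ≤
      C0 * l * Real.sqrt (mm (nb (bx L)) (en (nb (bx L)) (tr z (bx l))
        (V - pl (nb (bx L)) (fun _ => 0) (nb (bx l)) z U))) := by
    intro z hz
    obtain ⟨Y, hY⟩ : ∃ Y : Finset (ℤ × ℤ), Y = inn (tr z (bx l)) (m + 2) := ⟨_, rfl⟩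
    obtain ⟨u, hu⟩ : ∃ u : ℤ × ℤ → (nb (bx L) → ℝ) → ℝ,
      u = V - pl (nb (bx L)) (fun _ => 0) (nb (bx l)) z U := ⟨_, rfl⟩
    have hYs : Y ⊆ inn (tr z (bx l)) (m + 1) := by
      rw [hY]
      exact qng_innmono _ (by omega)
    have hYc : (Y.card : ℝ) ≤ (l : ℝ) ^ 2 := by
      have h1 := Finset.card_le_card (qng_innsub (tr z (bx l)) (m + 2))
      rw [← hY] at h1
      have h2 : (tr z (bx l)).card = (bx l).card := by
        unfold tr
        exact Finset.card_image_of_injective _ (add_right_injective z)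
      rw [h2] at h1
      rw [← hbcard]
      exact_mod_cast h1
    have hsY : Real.sqrt (∑ x ∈ Y, (1 : ℝ) ^ 2) ≤ l := by
      rw [Finset.sum_const, nsmul_eq_mul, one_pow, mul_one]
      exact (Real.sqrt_le_sqrt hYc).trans (le_of_eq (Real.sqrt_sq (Nat.cast_nonneg l)))
    have huw := hDw z hz
    rw [← hu] at huw
    have h1 := (HG (nb (bx L)) (tr z (bx l)) u huw m m le_rfl Y hYs (fun _ => 1)
      (fun _ => zero_le_one)).2
    have hgy : ∀ x ∈ Y, ∀ z, dn (z - x) ≤ (m : ℤ) + 1 → z ∈ nb (bx L) := fun x hx w hw =>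
      mem_nb.2 (Or.inl (hzs z hz (mem_inn.1 (hYs hx) w (by push_cast; exact hw))))
    have hL1 : ∀ x ∈ Y, ∀ j : Fin 6, Lg (nb (bx L)) (fun k =>
        gt m x j (gl (nb (bx L)) (fun _ => 0) k) * |u (x + st j) k - u x k|) :=
      fun x hx j => (gt_Lg j (hgy x hx)).mul ((huw.Lg_v _).sub (huw.Lg_v _)).abs
    have h2 : mm (nb (bx L)) (fun k => |Dz z k|) ≤ ∑ x ∈ Y, mm (nb (bx L)) (fun k =>
        gt m x i (gl (nb (bx L)) (fun _ => 0) k) * |u (x + st i) k - u x k|) := by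
      rw [← mm_sum _ fun x hx => hL1 x hx i]
      refine qng_mm (hLD z hz).abs (Lg.sum _ fun x hx => hL1 x hx i) fun k => ?_
      rw [hDz]
      show |∑ x ∈ inn (tr z (bx l)) (m + 2), _| ≤ _
      rw [← hY, ← hu]
      refine (Finset.abs_sum_le_sum_abs _ _).trans (Finset.sum_le_sum fun x hx => ?_)
      rw [abs_mul, abs_of_nonneg (qng_gt0 _ _ _ _)]
    rw [← hu]
    refine h2.trans (le_trans (Finset.sum_le_sum fun x hx => ?_) (h1.trans ?_))
    · have h3 := Finset.single_le_sum (f := fun j : Fin 6 => (1 : ℝ) * mm (nb (bx L))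
        (fun k => gt m x j (gl (nb (bx L)) (fun _ => 0) k) * |u (x + st j) k - u x k|))
        (fun j _ => mul_nonneg zero_le_one (mm_nonneg (hL1 x hx j) fun k =>
          mul_nonneg (qng_gt0 _ _ _ _) (abs_nonneg _))) (Finset.mem_univ i)
      refine le_trans (le_of_eq ?_) h3
      show _ = (1 : ℝ) * _
      rw [one_mul]
    · exact mul_le_mul_of_nonneg_right (mul_le_mul_of_nonneg_left hsY hC0)
        (Real.sqrt_nonneg _)
  -- positions
  have hAx : ∀ x0 ∈ A, ((4 * l + 2 * R + M + 4 : ℕ) : ℤ) ≤ x0.1 ∧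
      x0.1 + ((4 * l + 2 * R + M + 4 : ℕ) : ℤ) < L ∧
      ((4 * l + 2 * R + M + 4 : ℕ) : ℤ) ≤ x0.2 ∧
      x0.2 + ((4 * l + 2 * R + M + 4 : ℕ) : ℤ) < L := fun x0 hx => (inn_bx _ _ _).1 (hA hx)
  have hAz : ∀ x0 ∈ A, ∀ z : ℤ × ℤ, 0 ≤ z.1 → z.1 < R + l → 0 ≤ z.2 → z.2 < R + l →
      x0 + z ∈ X := by
    intro x0 hx z h1 h2 h3 h4
    have h5 := hAx x0 hx
    push_cast at h5
    rw [hX, inn_bx]
    push_cast
    simp only [Prod.fst_add, Prod.snd_add]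
    refine ⟨?_, ?_, ?_, ?_⟩ <;> omega
  have hAzR : ∀ x0 ∈ A, ∀ z ∈ bx R, x0 + z ∈ X := by
    intro x0 hx z hz
    have h1 := qng_bx.1 hz
    exact hAz x0 hx z h1.1 (by omega) h1.2.2.1 (by omega)
  have hAsp : ∀ x0 ∈ A, ∀ z ∈ bx R, x0 + z ∈ sp (bx l) (bx L) := by
    intro x0 hx z hz
    have h1 := qng_bx.1 hz
    have h5 := hAx x0 hx
    push_cast at h5
    unfold sp
    rw [Finset.mem_filter]
    refine ⟨qng_bx.2 ?_, fun w hw => ?_⟩
    · simp only [Prod.fst_add, Prod.snd_add]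
      refine ⟨?_, ?_, ?_, ?_⟩ <;> omega
    · have h6 := qng_bx.1 (mem_tr.1 hw)
      simp only [Prod.fst_sub, Prod.snd_sub, Prod.fst_add, Prod.snd_add] at h6
      refine qng_bx.2 ?_
      refine ⟨?_, ?_, ?_, ?_⟩ <;> omega
  obtain ⟨I, hI⟩ : ∃ I : Finset (ℤ × ℤ), I = inn (bx l) (m + 2) := ⟨_, rfl⟩
  have hIb : I ⊆ bx l := by
    rw [hI]
    exact qng_innsub _ _
  have hIc : (I.card : ℝ) ≤ (bx l).card := by exact_mod_cast Finset.card_le_card hIb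
  have hbpos : (0 : ℝ) < (bx l).card := by
    rw [hbcard]
    positivity
  -- one position
  have hone : ∀ x0 ∈ A, mm (nb (bx L)) (fun k => |Aw (nb (bx L)) M R V i x0 k -
        Sw (nb (bx L)) (bx l) m R U i x0 k|) ≤
      ((R : ℝ) ^ 2)⁻¹ * ∑ z ∈ bx R, mm (nb (bx L)) (fun k => |h (x0 + z) k - h' (x0 + z) k|) +
      ((R : ℝ) ^ 2)⁻¹ * (((bx l).card : ℝ)⁻¹ * ∑ w ∈ I,
        (∑ z ∈ bx R \ tr w (bx R), mm (nb (bx L)) (fun k => |h' (x0 + z) k|) +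
          ∑ z ∈ tr w (bx R) \ bx R, mm (nb (bx L)) (fun k => |h' (x0 + z) k|))) +
      (1 - (I.card : ℝ) / (bx l).card) * (((R : ℝ) ^ 2)⁻¹ *
        ∑ z ∈ bx R, mm (nb (bx L)) (fun k => |h' (x0 + z) k|)) +
      ((R : ℝ) ^ 2)⁻¹ * ∑ z ∈ bx R, ((bx l).card : ℝ)⁻¹ *
        mm (nb (bx L)) (fun k => |Dz (x0 + z) k|) := by
    intro x0 hx
    have hsd1 : ∀ w ∈ I, ∀ z ∈ bx R \ tr w (bx R), x0 + z ∈ X := fun w _ z hz =>
      hAzR x0 hx z (Finset.mem_sdiff.1 hz).1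
    have hsd2 : ∀ w ∈ I, ∀ z ∈ tr w (bx R) \ bx R, x0 + z ∈ X := fun w hw z hz => by
      have h1 := qng_bx.1 (mem_tr.1 (Finset.mem_sdiff.1 hz).1)
      have h2 := qng_bx.1 (hIb hw)
      simp only [Prod.fst_sub, Prod.snd_sub] at h1
      exact hAz x0 hx z (by omega) (by omega) (by omega) (by omega)
    have L1 : Lg (nb (bx L)) (fun k => ∑ z ∈ bx R, |h (x0 + z) k - h' (x0 + z) k|) :=
      Lg.sum _ fun z hz => ((hLh _ (hAzR x0 hx z hz)).sub (hLh' _ (hAzR x0 hx z hz))).abs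
    have L2a : ∀ w ∈ I, Lg (nb (bx L)) (fun k => ∑ z ∈ bx R \ tr w (bx R), |h' (x0 + z) k|) :=
      fun w hw => Lg.sum _ fun z hz => (hLh' _ (hsd1 w hw z hz)).abs
    have L2b : ∀ w ∈ I, Lg (nb (bx L)) (fun k => ∑ z ∈ tr w (bx R) \ bx R, |h' (x0 + z) k|) :=
      fun w hw => Lg.sum _ fun z hz => (hLh' _ (hsd2 w hw z hz)).abs
    have L2c : Lg (nb (bx L)) (fun k => ∑ w ∈ I, (∑ z ∈ bx R \ tr w (bx R), |h' (x0 + z) k| +
        ∑ z ∈ tr w (bx R) \ bx R, |h' (x0 + z) k|)) :=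
      Lg.sum _ fun w hw => (L2a w hw).add (L2b w hw)
    have L3 : Lg (nb (bx L)) (fun k => ∑ z ∈ bx R, |h' (x0 + z) k|) :=
      Lg.sum _ fun z hz => (hLh' _ (hAzR x0 hx z hz)).abs
    have L4a : ∀ z ∈ bx R, Lg (nb (bx L)) (fun k => |Dz (x0 + z) k|) := fun z hz =>
      (hLD _ (hAsp x0 hx z hz)).abs
    have L4 : Lg (nb (bx L)) (fun k => ∑ z ∈ bx R, ((bx l).card : ℝ)⁻¹ * |Dz (x0 + z) k|) :=
      Lg.sum _ fun z hz => (L4a z hz).smul _
    have e1 : ∑ z ∈ bx R, mm (nb (bx L)) (fun k => |h (x0 + z) k - h' (x0 + z) k|) =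
        mm (nb (bx L)) (fun k => ∑ z ∈ bx R, |h (x0 + z) k - h' (x0 + z) k|) :=
      (mm_sum _ fun z hz =>
        ((hLh _ (hAzR x0 hx z hz)).sub (hLh' _ (hAzR x0 hx z hz))).abs).symm
    have e2 : ∑ w ∈ I,
        (∑ z ∈ bx R \ tr w (bx R), mm (nb (bx L)) (fun k => |h' (x0 + z) k|) +
          ∑ z ∈ tr w (bx R) \ bx R, mm (nb (bx L)) (fun k => |h' (x0 + z) k|)) =
        mm (nb (bx L)) (fun k => ∑ w ∈ I, (∑ z ∈ bx R \ tr w (bx R), |h' (x0 + z) k| +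
        ∑ z ∈ tr w (bx R) \ bx R, |h' (x0 + z) k|)) := by
      rw [mm_sum _ fun w hw => (L2a w hw).add (L2b w hw)]
      refine Finset.sum_congr rfl fun w hw => ?_
      rw [mm_add (L2a w hw) (L2b w hw), mm_sum _ fun z hz => (hLh' _ (hsd1 w hw z hz)).abs,
        mm_sum _ fun z hz => (hLh' _ (hsd2 w hw z hz)).abs]
    have e3 : ∑ z ∈ bx R, mm (nb (bx L)) (fun k => |h' (x0 + z) k|) =
        mm (nb (bx L)) (fun k => ∑ z ∈ bx R, |h' (x0 + z) k|) :=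
      (mm_sum _ fun z hz => (hLh' _ (hAzR x0 hx z hz)).abs).symm
    have e4 : ∑ z ∈ bx R, ((bx l).card : ℝ)⁻¹ * mm (nb (bx L)) (fun k => |Dz (x0 + z) k|) =
        mm (nb (bx L)) (fun k => ∑ z ∈ bx R, ((bx l).card : ℝ)⁻¹ * |Dz (x0 + z) k|) := by
      rw [mm_sum _ fun z hz => (L4a z hz).smul _]
      refine Finset.sum_congr rfl fun z hz => ?_
      rw [mm_smul (L4a z hz)]
    rw [e1, e2, e3, e4, ← mm_smul L1, ← mm_smul L2c, ← mm_smul (L2c.smul _), ← mm_smul L3,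
      ← mm_smul (L3.smul _), ← mm_smul L4, ← mm_add (L1.smul _) ((L2c.smul _).smul _),
      ← mm_add ((L1.smul _).add ((L2c.smul _).smul _)) ((L3.smul _).smul _),
      ← mm_add (((L1.smul _).add ((L2c.smul _).smul _)).add ((L3.smul _).smul _))
        (L4.smul _)]
    have LA : Lg (nb (bx L)) (fun k => Aw (nb (bx L)) M R V i x0 k) := by
      unfold Aw
      have : Lg (nb (bx L)) (fun k => ∑ z ∈ bx R, h (x0 + z) k) :=
        Lg.sum _ fun z hz => hLh _ (hAzR x0 hx z hz)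
      have h1 := this.smul ((R : ℝ) ^ 2)⁻¹
      rw [hh] at h1
      exact h1
    have LS : Lg (nb (bx L)) (fun k => Sw (nb (bx L)) (bx l) m R U i x0 k) := by
      unfold Sw
      refine (Lg.sum _ fun z hz => ?_).smul _
      exact ((WF.pl (hzn _ (hAsp x0 hx z hz)) hU).Lg_sx m i).smul _
    refine qng_mm (LA.sub LS).abs ((((L1.smul _).add ((L2c.smul _).smul _)).add
      ((L3.smul _).smul _)).add (L4.smul _)) fun k => ?_
    have h1 := qng_pt R I ((bx l).card : ℝ) hbpos hIc (fun x => h x k) (fun x => h' x k)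
      (fun x => Dz x k) x0
    have e5 : Aw (nb (bx L)) M R V i x0 k - Sw (nb (bx L)) (bx l) m R U i x0 k =
        ((R : ℝ) ^ 2)⁻¹ * ∑ z ∈ bx R, h (x0 + z) k - ((R : ℝ) ^ 2)⁻¹ * ∑ z ∈ bx R,
          ((bx l).card : ℝ)⁻¹ * (∑ w ∈ I, h' (x0 + z + w) k - Dz (x0 + z) k) := by
      unfold Aw Sw
      rw [hh]
      congr 2
      refine Finset.sum_congr rfl fun z hz => ?_
      congr 1
      rw [hDz, hh', hI]
      unfold sx
      beta_reduce
      rw [inn_tr, qng_sum, qng_sum, ← Finset.sum_sub_distrib]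
      refine Finset.sum_congr rfl fun w hw => ?_
      show _ = _ - gt m (x0 + z + w) i _ * ((V (x0 + z + w + st i) k -
        pl (nb (bx L)) (fun _ => 0) (nb (bx l)) (x0 + z) U (x0 + z + w + st i) k) -
        (V (x0 + z + w) k - pl (nb (bx L)) (fun _ => 0) (nb (bx l)) (x0 + z) U
          (x0 + z + w) k))
      ring
    rw [e5]
    exact h1
  -- summation
  obtain ⟨SA, hSA'⟩ : ∃ S : ℝ, S = ∑ x ∈ X, mm (nb (bx L)) (fun k => |h x k - h' x k|) :=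
    ⟨_, rfl⟩
  obtain ⟨SB, hSB'⟩ : ∃ S : ℝ, S = ∑ x ∈ X, mm (nb (bx L)) (fun k => |h' x k|) := ⟨_, rfl⟩
  obtain ⟨SC, hSC'⟩ : ∃ S : ℝ, S = ∑ z ∈ sp (bx l) (bx L), mm (nb (bx L)) (fun k => |Dz z k|) :=
    ⟨_, rfl⟩
  have s1 : ∀ z ∈ bx R, ∑ x0 ∈ A, mm (nb (bx L)) (fun k => |h (x0 + z) k - h' (x0 + z) k|) ≤
      SA := fun z hz => by
    rw [hSA']
    exact qng_sh z (fun x hx => hAzR x hx z hz) fun x hx =>
      mm_nonneg ((hLh x hx).sub (hLh' x hx)).abs fun k => abs_nonneg _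
  have s2 : ∀ z : ℤ × ℤ, (∀ x ∈ A, x + z ∈ X) →
      ∑ x0 ∈ A, mm (nb (bx L)) (fun k => |h' (x0 + z) k|) ≤ SB := fun z hz => by
    rw [hSB']
    exact qng_sh z hz fun x hx => mm_nonneg (hLh' x hx).abs fun k => abs_nonneg _
  have s3 : ∀ z ∈ bx R, ∑ x0 ∈ A, mm (nb (bx L)) (fun k => |Dz (x0 + z) k|) ≤ SC :=
    fun z hz => by
    rw [hSC']
    exact qng_sh z (fun x hx => hAsp x hx z hz) fun x hx =>
      mm_nonneg (hLD x hx).abs fun k => abs_nonneg _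
  have hSB0 : 0 ≤ SB := by
    rw [hSB']
    exact Finset.sum_nonneg fun x hx => mm_nonneg (hLh' x hx).abs fun k => abs_nonneg _
  have hRc : ((bx R).card : ℝ) = (R : ℝ) ^ 2 := by
    rw [qng_card]
    push_cast
    rfl
  have hRi : 0 ≤ ((R : ℝ) ^ 2)⁻¹ := by positivity
  have hli : 0 ≤ ((bx l).card : ℝ)⁻¹ := by positivity
  have hfr : 0 ≤ 1 - (I.card : ℝ) / (bx l).card := by
    have := (div_le_one hbpos).2 hIc
    linarith
  have t1 : ∑ x0 ∈ A, ((R : ℝ) ^ 2)⁻¹ * ∑ z ∈ bx R,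
      mm (nb (bx L)) (fun k => |h (x0 + z) k - h' (x0 + z) k|) ≤ SA := by
    rw [← Finset.mul_sum, Finset.sum_comm]
    have h1 := Finset.sum_le_sum s1
    rw [Finset.sum_const, nsmul_eq_mul, hRc] at h1
    calc _ ≤ ((R : ℝ) ^ 2)⁻¹ * ((R : ℝ) ^ 2 * SA) := mul_le_mul_of_nonneg_left h1 hRi
      _ = SA := by
        rw [← mul_assoc, inv_mul_cancel₀ (by positivity), one_mul]
  have t3 : ∑ x0 ∈ A, (1 - (I.card : ℝ) / (bx l).card) * (((R : ℝ) ^ 2)⁻¹ *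
        ∑ z ∈ bx R, mm (nb (bx L)) (fun k => |h' (x0 + z) k|)) ≤
      (1 - (I.card : ℝ) / (bx l).card) * SB := by
    rw [← Finset.mul_sum, ← Finset.mul_sum, Finset.sum_comm]
    have h1 := Finset.sum_le_sum fun z hz => s2 z (fun x hx => hAzR x hx z hz)
    rw [Finset.sum_const, nsmul_eq_mul, hRc] at h1
    refine mul_le_mul_of_nonneg_left ?_ hfr
    calc _ ≤ ((R : ℝ) ^ 2)⁻¹ * ((R : ℝ) ^ 2 * SB) := mul_le_mul_of_nonneg_left h1 hRi
      _ = SB := by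
        rw [← mul_assoc, inv_mul_cancel₀ (by positivity), one_mul]
  have t4 : ∑ x0 ∈ A, ((R : ℝ) ^ 2)⁻¹ * ∑ z ∈ bx R, ((bx l).card : ℝ)⁻¹ *
        mm (nb (bx L)) (fun k => |Dz (x0 + z) k|) ≤ ((bx l).card : ℝ)⁻¹ * SC := by
    rw [← Finset.mul_sum, Finset.sum_comm]
    have h1 : ∑ z ∈ bx R, ∑ x0 ∈ A, ((bx l).card : ℝ)⁻¹ *
        mm (nb (bx L)) (fun k => |Dz (x0 + z) k|) ≤ ∑ z ∈ bx R, ((bx l).card : ℝ)⁻¹ * SC :=
      Finset.sum_le_sum fun z hz => by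
        rw [← Finset.mul_sum]
        exact mul_le_mul_of_nonneg_left (s3 z hz) hli
    rw [Finset.sum_const, nsmul_eq_mul, hRc] at h1
    calc _ ≤ ((R : ℝ) ^ 2)⁻¹ * ((R : ℝ) ^ 2 * (((bx l).card : ℝ)⁻¹ * SC)) :=
          mul_le_mul_of_nonneg_left h1 hRi
      _ = _ := by
        rw [← mul_assoc, inv_mul_cancel₀ (by positivity), one_mul]
  have t2 : ∑ x0 ∈ A, ((R : ℝ) ^ 2)⁻¹ * (((bx l).card : ℝ)⁻¹ * ∑ w ∈ I,
        (∑ z ∈ bx R \ tr w (bx R), mm (nb (bx L)) (fun k => |h' (x0 + z) k|) +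
          ∑ z ∈ tr w (bx R) \ bx R, mm (nb (bx L)) (fun k => |h' (x0 + z) k|))) ≤
      4 * (l / R) * SB := by
    rw [← Finset.mul_sum, ← Finset.mul_sum, Finset.sum_comm]
    have h1 : ∀ w ∈ I, ∑ x0 ∈ A, (∑ z ∈ bx R \ tr w (bx R),
        mm (nb (bx L)) (fun k => |h' (x0 + z) k|) +
          ∑ z ∈ tr w (bx R) \ bx R, mm (nb (bx L)) (fun k => |h' (x0 + z) k|)) ≤
        4 * l * R * SB := by
      intro w hw
      rw [Finset.sum_add_distrib, Finset.sum_comm,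
        Finset.sum_comm (s := A) (t := tr w (bx R) \ bx R)]
      have hw' := qng_bx.1 (hIb hw)
      have c1 : (((bx R \ tr w (bx R)).card : ℕ) : ℝ) ≤ 2 * l * R :=
        qng_cd hw'.1 hw'.2.1.le hw'.2.2.1 hw'.2.2.2.le
      have c2 : (((tr w (bx R) \ bx R).card : ℕ) : ℝ) ≤ 2 * l * R := by
        have : (tr w (bx R)).card = (bx R).card := by
          unfold tr
          exact Finset.card_image_of_injective _ (add_right_injective w)
        rw [Finset.card_sdiff_comm this]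
        exact c1
      have h2 := Finset.sum_le_sum fun z (hz : z ∈ bx R \ tr w (bx R)) =>
        s2 z (fun x hx => hAzR x hx z (Finset.mem_sdiff.1 hz).1)
      have h3 := Finset.sum_le_sum fun z (hz : z ∈ tr w (bx R) \ bx R) =>
        s2 z (fun x hx => by
          have h4 := qng_bx.1 (mem_tr.1 (Finset.mem_sdiff.1 hz).1)
          simp only [Prod.fst_sub, Prod.snd_sub] at h4
          exact hAz x hx z (by omega) (by omega) (by omega) (by omega))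
      rw [Finset.sum_const, nsmul_eq_mul] at h2 h3
      have h5 := mul_le_mul_of_nonneg_right c1 hSB0
      have h6 := mul_le_mul_of_nonneg_right c2 hSB0
      linarith
    have h7 := Finset.sum_le_sum h1
    rw [Finset.sum_const, nsmul_eq_mul] at h7
    have h8 : (I.card : ℝ) * (4 * l * R * SB) ≤ (bx l).card * (4 * l * R * SB) :=
      mul_le_mul_of_nonneg_right hIc (by positivity)
    calc _ ≤ ((R : ℝ) ^ 2)⁻¹ * (((bx l).card : ℝ)⁻¹ * ((bx l).card * (4 * l * R * SB))) :=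
          mul_le_mul_of_nonneg_left (mul_le_mul_of_nonneg_left (h7.trans h8) hli) hRi
      _ = 4 * (l / R) * SB := by
        rw [← mul_assoc ((bx l).card : ℝ)⁻¹, inv_mul_cancel₀ hbpos.ne', one_mul]
        field_simp
  have hSC : SC ≤ C0 * l * (L * Real.sqrt (∑ z ∈ sp (bx l) (bx L), mm (nb (bx L))
      (en (nb (bx L)) (tr z (bx l)) (V - pl (nb (bx L)) (fun _ => 0) (nb (bx l)) z U)))) := by
    rw [hSC']
    refine (Finset.sum_le_sum hSD).trans ?_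
    rw [← Finset.mul_sum]
    refine mul_le_mul_of_nonneg_left ?_ (by positivity)
    have hsc : ((sp (bx l) (bx L)).card : ℝ) ≤ (L : ℝ) ^ 2 := by
      have h1 : sp (bx l) (bx L) ⊆ bx L := by
        unfold sp
        exact Finset.filter_subset _ _
      have h2 := Finset.card_le_card h1
      rw [qng_card] at h2
      exact_mod_cast h2
    refine (qng_cs _ (fun z hz => mm_nonneg (hDw z hz).Lg_en fun k => Finset.sum_nonneg fun x _ =>
      Finset.sum_nonneg fun y _ => sq_nonneg _)).trans ?_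
    refine mul_le_mul_of_nonneg_right ?_ (Real.sqrt_nonneg _)
    exact (Real.sqrt_le_sqrt hsc).trans (le_of_eq (Real.sqrt_sq (Nat.cast_nonneg L)))
  have hfin := Finset.sum_le_sum hone
  rw [Finset.sum_add_distrib, Finset.sum_add_distrib, Finset.sum_add_distrib] at hfin
  refine hfin.trans ?_
  rw [← hE, ← hI]
  rw [← hSA'] at hSA
  rw [← hSB'] at hSB
  obtain ⟨Q, hQ⟩ : ∃ Q : ℝ, Q = Real.sqrt (∑ z ∈ sp (bx l) (bx L), mm (nb (bx L))
      (en (nb (bx L)) (tr z (bx l)) (V - pl (nb (bx L)) (fun _ => 0) (nb (bx l)) z U))) :=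
    ⟨_, rfl⟩
  rw [← hQ] at hSC ⊢
  have hQ0 : 0 ≤ Q := by
    rw [hQ]
    exact Real.sqrt_nonneg _
  obtain ⟨F, hF⟩ : ∃ F : ℝ, F = 1 - (I.card : ℝ) / (bx l).card := ⟨_, rfl⟩
  rw [← hF] at t3 hfr ⊢
  have u2 : 4 * (l / R : ℝ) * SB ≤ 4 * (l / R : ℝ) * (C0 * L * Real.sqrt E) :=
    mul_le_mul_of_nonneg_left hSB (by positivity)
  have u3 : F * SB ≤ F * (C0 * L * Real.sqrt E) := mul_le_mul_of_nonneg_left hSB hfr
  have u4 : ((bx l).card : ℝ)⁻¹ * SC ≤ (l : ℝ)⁻¹ * (C0 * (L * Q)) := by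
    rw [hbcard]
    calc ((l : ℝ) ^ 2)⁻¹ * SC ≤ ((l : ℝ) ^ 2)⁻¹ * (C0 * l * (L * Q)) :=
          mul_le_mul_of_nonneg_left hSC (by positivity)
      _ = _ := by
        field_simp
  have hLr : (0 : ℝ) ≤ L := Nat.cast_nonneg L
  have v1 : 0 ≤ C0 * (9 / 10 : ℝ) ^ m * L * Real.sqrt E := by positivity
  have v2 : 0 ≤ F * (C0 * L * Real.sqrt E) := by positivity
  have v3 : 0 ≤ (l : ℝ)⁻¹ * (C0 * (L * Q)) := by positivity
  have v4 : 4 * C0 * L * (((9 / 10) ^ m + F + (l : ℝ) / R) * Real.sqrt E + (l : ℝ)⁻¹ * Q) =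
      4 * (C0 * (9 / 10 : ℝ) ^ m * L * Real.sqrt E) + 4 * (F * (C0 * L * Real.sqrt E)) +
      4 * (l / R : ℝ) * (C0 * L * Real.sqrt E) + 4 * ((l : ℝ)⁻¹ * (C0 * (L * Q))) := by
    ring
  rw [v4]
  linarith
/- END qng -/

/-- the limit of the densities -/
def Lim (σ : ℝ) : Prop := ∀ ε : ℝ, 0 < ε → ∃ l0 : ℕ, ∀ l : ℕ, l0 ≤ l → ∀ d : ℝ × ℝ,
  |al l d - σ * qd d| ≤ ε * qd d

/- MODULE qnh
Law of large numbers for the placed slopes: `mm_ll` for `g = (card b)⁻¹ * sx (nb b) 0 b m U i` on the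
window `nb b` (`UF.wf`, `WF.Lg_sx`), `sx_pl` (with `nb b` as the window: the slope of the placed field
is the window function at `rs (nb b) (x0 + z) ..`), and `mm_off` to move from the window
`wb (nb b) R` placed at `x0` to `nb (bx L)` (`rs_rs`). -/
private theorem qnh_nbm {A B : Finset (ℤ × ℤ)} (h : A ⊆ B) : nb A ⊆ nb B := by
  intro x hx
  rcases mem_nb.1 hx with h1 | ⟨i, h1⟩
  · exact mem_nb.2 (Or.inl (h h1))
  · exact mem_nb.2 (Or.inr ⟨i, h h1⟩)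

private theorem qnh_trnb (z : ℤ × ℤ) (b : Finset (ℤ × ℤ)) : tr z (nb b) = nb (tr z b) := by
  ext x
  rw [mem_tr, mem_nb, mem_nb, mem_tr]
  refine or_congr Iff.rfl (exists_congr fun i => ?_)
  rw [mem_tr, show x + st i - z = x - z + st i by abel]

theorem sw_ll {l : ℕ} (hl : 0 < l) (m : ℕ) {U : ℤ × ℤ → (nb (bx l) → ℝ) → ℝ} (hU : UF (bx l) U)
    {δ : ℝ} (hδ : 0 < δ) : ∃ R0 : ℕ, ∀ R : ℕ, R0 ≤ R → ∀ L : ℕ, ∀ x0 : ℤ × ℤ,
      (∀ z ∈ bx R, x0 + z ∈ sp (bx l) (bx L)) → ∀ i : Fin 6,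
      mm (nb (bx L)) (fun k => |Sw (nb (bx L)) (bx l) m R U i x0 k -
        ((bx l).card : ℝ)⁻¹ * mm (nb (bx l)) (sx (nb (bx l)) (fun _ => 0) (bx l) m U i)|) ≤
        δ := by
  have hbb : bx l ⊆ nb (bx l) := fun z hz => mem_nb.2 (Or.inl hz)
  have h0 : ∀ i : Fin 6, ∃ R0 : ℕ, ∀ R : ℕ, R0 ≤ R → ∀ L : ℕ, ∀ x0 : ℤ × ℤ,
      (∀ z ∈ bx R, x0 + z ∈ sp (bx l) (bx L)) →
      mm (nb (bx L)) (fun k => |Sw (nb (bx L)) (bx l) m R U i x0 k -
        ((bx l).card : ℝ)⁻¹ * mm (nb (bx l)) (sx (nb (bx l)) (fun _ => 0) (bx l) m U i)|) ≤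
        δ := by
    intro i
    have hs : Lg (nb (bx l)) (sx (nb (bx l)) (fun _ => 0) (bx l) m U i) := hU.wf.Lg_sx m i
    have hg : Lg (nb (bx l)) (fun k => ((bx l).card : ℝ)⁻¹ *
        sx (nb (bx l)) (fun _ => 0) (bx l) m U i k) := hs.smul _
    obtain ⟨R0, hR0⟩ := mm_ll hg hδ
    refine ⟨R0, fun R hR L x0 hx0 => ?_⟩
    have h1 := hR0 R hR
    rw [mm_smul hs] at h1
    have hz : ∀ z ∈ bx R, tr (x0 + z) (bx l) ⊆ bx L := fun z hz => by
      have := hx0 z hz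
      unfold sp at this
      exact (Finset.mem_filter.1 this).2
    have hzn : ∀ z ∈ bx R, tr (x0 + z) (nb (bx l)) ⊆ nb (bx L) := fun z hz' => by
      rw [qnh_trnb]
      exact qnh_nbm (hz z hz')
    have hsub : ∀ z ∈ bx R, tr z (nb (bx l)) ⊆ wb (nb (bx l)) R := fun z hz' => by
      unfold wb
      exact Finset.subset_biUnion_of_mem (fun z => tr z (nb (bx l))) hz'
    have hw : tr x0 (wb (nb (bx l)) R) ⊆ nb (bx L) := by
      intro y hy
      have h2 := mem_tr.1 hy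
      unfold wb at h2
      obtain ⟨z, hz', h3⟩ := Finset.mem_biUnion.1 h2
      refine hzn z hz' (mem_tr.2 ?_)
      have h4 := mem_tr.1 h3
      rwa [show y - x0 - z = y - (x0 + z) by abel] at h4
    have hG : Lg (wb (nb (bx l)) R) (fun k => |((R : ℝ) ^ 2)⁻¹ * ∑ z ∈ bx R,
        (((bx l).card : ℝ)⁻¹ * sx (nb (bx l)) (fun _ => 0) (bx l) m U i
          (rs (nb (bx l)) z (gl (wb (nb (bx l)) R) (fun _ => 0) k))) -
        ((bx l).card : ℝ)⁻¹ * mm (nb (bx l)) (sx (nb (bx l)) (fun _ => 0) (bx l) m U i)|) :=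
      (((Lg.sum _ fun z hz' => Lg.off (hsub z hz') hg).smul _).sub (Lg.const _ _)).abs
    rw [← mm_off hw hG] at h1
    refine le_trans (le_of_eq ?_) h1
    congr 1
    funext k
    congr 2
    unfold Sw
    congr 1
    refine Finset.sum_congr rfl fun z hz' => ?_
    rw [sx_pl hbb, rs_rs (hsub z hz')]
  choose R0 hR0 using h0
  refine ⟨Finset.univ.sup R0, fun R hR L x0 hx0 i => ?_⟩
  exact hR0 i R ((Finset.le_sup (Finset.mem_univ i)).trans hR) L x0 hx0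
/- END qnh -/

/- MODULE qni
Combination.  Fix `d`, `ε`.  Choose `l` large (`Lim`: the densities `al l` and `al L`, `L ≥ l`, are
close to `σ qd`; `inn_frac`; `(9/10)^(Nat.sqrt l)` small), `m = Nat.sqrt l`, `U = d.1 U0 + d.2 U1`
from `mm_near` for `bx l` with a tiny defect, `s i = (card b)⁻¹ mm (sx U i)`.
`mm_slope` for `U` (`W = nb b`) and `qd (d + d') - qd d - qd d' = ∑ dc d i * dc d' i` give the
statement on `∑ dc d' i (s i - σ dc d i)`.  `R` large from `sw_ll` and `l / R` small.  `L0` with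
`Nat.sqrt L ≥ 4 l + 2 R + 2`.  `sl1` (`te_bx`, `inn_frac`, `bx_ba`; the energy of `V` is
`≤ C L^2` by `mm_energy`, `tB_bd`) shows that the sum of the energies of `V - pl U` is
`≤ small * l^2 L^2`, then `sl2`. -/
private theorem qni_bx {n : ℕ} {z : ℤ × ℤ} : z ∈ bx n ↔ 0 ≤ z.1 ∧ z.1 < n ∧ 0 ≤ z.2 ∧ z.2 < n := by
  unfold bx
  rw [Finset.mem_product, Finset.mem_Ico, Finset.mem_Ico]
  tauto

private theorem qni_00 {n : ℕ} (h : 0 < n) : ((0, 0) : ℤ × ℤ) ∈ bx n := by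
  have h1 : (0 : ℤ) < n := by exact_mod_cast h
  exact qni_bx.2 ⟨le_rfl, h1, le_rfl, h1⟩

private theorem qni_card (n : ℕ) : (bx n).card = n ^ 2 := by
  unfold bx
  rw [Finset.card_product, Int.card_Ico, sub_zero, Int.toNat_natCast]
  ring

private theorem qni_innsub (B : Finset (ℤ × ℤ)) (r : ℕ) : inn B r ⊆ B := fun x hx =>
  mem_inn.1 hx x (by
    rw [sub_self, (dn_zero_iff 0).2 rfl]
    positivity)

private theorem qni_innmono (B : Finset (ℤ × ℤ)) {r s : ℕ} (h : r ≤ s) : inn B s ⊆ inn B r :=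
  fun x hx => mem_inn.2 fun z hz => mem_inn.1 hx z (hz.trans (by exact_mod_cast h))

private theorem qni_nbm {A B : Finset (ℤ × ℤ)} (h : A ⊆ B) : nb A ⊆ nb B := by
  intro x hx
  rcases mem_nb.1 hx with h1 | ⟨i, h1⟩
  · exact mem_nb.2 (Or.inl (h h1))
  · exact mem_nb.2 (Or.inr ⟨i, h h1⟩)

private theorem qni_trnb (z : ℤ × ℤ) (b : Finset (ℤ × ℤ)) : tr z (nb b) = nb (tr z b) := by
  ext x
  rw [mem_tr, mem_nb, mem_nb, mem_tr]
  refine or_congr Iff.rfl (exists_congr fun i => ?_)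
  rw [mem_tr, show x + st i - z = x - z + st i by abel]

private theorem qni_int {W : Finset (ℤ × ℤ)} {g : (W → ℝ) → ℝ} (hg : Lg W g)
    {D : Finset (ℤ × ℤ)} {b : ℤ × ℤ → ℝ} (hb : ∀ z, |b z| ≤ 1 / 2) (y : ℤ × ℤ) :
    Integrable (fun h => g (rs W y (gl D b h))) (Mu D b) := by
  have := Mu_prob (D := D) hb
  obtain ⟨C, hC⟩ := hg.bd
  exact Integrable.of_bound (hg.ms.comp (rs_meas D W b y)).aestronglyMeasurable C
    (Filter.Eventually.of_forall fun h => by rw [Real.norm_eq_abs]; exact hC _)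

private theorem qni_mm {W : Finset (ℤ × ℤ)} {g g' : (W → ℝ) → ℝ} (hg : Lg W g) (hg' : Lg W g')
    (h : ∀ k, g k ≤ g' k) : mm W g ≤ mm W g' :=
  mm_le hg hg' fun _ _ hb y _ => integral_mono (qni_int hg hb y) (qni_int hg' hb y)
    fun _ => h _

private theorem qni_qd0 (d : ℝ × ℝ) : 0 ≤ qd d := by
  unfold qd
  exact mul_nonneg (by norm_num) (Finset.sum_nonneg fun i _ => sq_nonneg _)

private theorem qni_qd (d d' : ℝ × ℝ) :
    ∑ i, dc d' i * dc d i = qd (d + d') - qd d - qd d' := by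
  unfold qd
  rw [← mul_sub, ← mul_sub, ← Finset.sum_sub_distrib, ← Finset.sum_sub_distrib, Finset.mul_sum]
  refine Finset.sum_congr rfl fun i _ => ?_
  unfold dc
  rw [Prod.fst_add, Prod.snd_add]
  ring

private theorem qni_rho {a b ε : ℝ} (ha : 0 ≤ a) (hb : 0 ≤ b) (hε : 0 < ε) :
    ∃ ρ : ℝ, 0 < ρ ∧ ρ ≤ 1 ∧ a * ρ + b * Real.sqrt ρ ≤ ε := by
  have h0 : 0 < a + b + 1 := by linarith
  have h1 : 0 < ε / (a + b + 1) := by positivity
  obtain ⟨r, hr⟩ : ∃ r : ℝ, r = min 1 (ε / (a + b + 1)) := ⟨_, rfl⟩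
  have hr0 : 0 < r := by
    rw [hr]
    exact lt_min one_pos h1
  have hr1 : r ≤ 1 := by
    rw [hr]
    exact min_le_left _ _
  have hr2 : r ≤ ε / (a + b + 1) := by
    rw [hr]
    exact min_le_right _ _
  refine ⟨r ^ 2, by positivity, by nlinarith, ?_⟩
  rw [Real.sqrt_sq hr0.le]
  rw [le_div_iff₀ h0] at hr2
  nlinarith [mul_nonneg ha (mul_nonneg hr0.le (sub_nonneg.2 hr1))]

private theorem qni_l (l0 : ℕ) {ρ : ℝ} (hρ : 0 < ρ) : ∃ l : ℕ, 0 < l ∧ l0 ≤ l ∧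
    (9 / 10 : ℝ) ^ (Nat.sqrt l) + 4 * ((Nat.sqrt l : ℝ) + 2) / l ≤ ρ := by
  have h1 : Tendsto (fun s : ℕ => (9 / 10 : ℝ) ^ s + 8 / (s : ℝ)) atTop (𝓝 0) := by
    have h2 := tendsto_pow_atTop_nhds_zero_of_lt_one (show (0 : ℝ) ≤ 9 / 10 by norm_num)
      (by norm_num)
    have h3 := tendsto_const_div_atTop_nhds_zero_nat (8 : ℝ)
    have h4 := h2.add h3
    rwa [add_zero] at h4
  have h2 := (h1.eventually (gt_mem_nhds hρ)).and (eventually_ge_atTop (max 2 l0))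
  obtain ⟨s, hs1, hs2⟩ := h2.exists
  have hs3 : 2 ≤ s := (le_max_left _ _).trans hs2
  have hs4 : l0 ≤ s := (le_max_right _ _).trans hs2
  refine ⟨s ^ 2, by positivity, by nlinarith, ?_⟩
  rw [Nat.sqrt_eq' s]
  refine le_trans ?_ hs1.le
  have h3 : (2 : ℝ) ≤ s := by exact_mod_cast hs3
  refine add_le_add le_rfl ?_
  push_cast
  rw [div_le_div_iff₀ (by positivity) (by positivity)]
  nlinarith

private theorem qni_LA {L S R : ℕ} {i : Fin 6} {x0 : ℤ × ℤ} {V : ℤ × ℤ → (nb (bx L) → ℝ) → ℝ}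
    (hV : UF (bx L) V) (hx : ∀ z ∈ bx R, x0 + z ∈ inn (bx L) (S + 1)) :
    Lg (nb (bx L)) (fun k => Aw (nb (bx L)) S R V i x0 k) := by
  unfold Aw
  refine (Lg.sum _ fun z hz => ?_).smul _
  refine (gt_Lg i fun w hw => mem_nb.2 (Or.inl (mem_inn.1 (hx z hz) w
    (by push_cast; exact hw)))).mul ((hV.wf.Lg_v _).sub (hV.wf.Lg_v _))

private theorem qni_LS {L l R m : ℕ} {i : Fin 6} {x0 : ℤ × ℤ}
    {U : ℤ × ℤ → (nb (bx l) → ℝ) → ℝ} (hU : UF (bx l) U)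
    (hx : ∀ z ∈ bx R, x0 + z ∈ sp (bx l) (bx L)) :
    Lg (nb (bx L)) (fun k => Sw (nb (bx L)) (bx l) m R U i x0 k) := by
  unfold Sw
  refine (Lg.sum _ fun z hz => ?_).smul _
  have h1 : tr (x0 + z) (bx l) ⊆ bx L := by
    have := hx z hz
    unfold sp at this
    exact (Finset.mem_filter.1 this).2
  have h2 : tr (x0 + z) (nb (bx l)) ⊆ nb (bx L) := by
    rw [qni_trnb]
    exact qni_nbm h1
  exact ((WF.pl h2 hU).Lg_sx m i).smul _

theorem sl4 {σ : ℝ} (hσ : Lim σ) (d : ℝ × ℝ) {ε : ℝ} (hε : 0 < ε) :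
    ∃ (R : ℕ) (s : Fin 6 → ℝ) (η : ℝ) (L0 : ℕ), 0 < R ∧ 0 < η ∧
      |∑ i, dc (1, 0) i * (s i - σ * dc d i)| ≤ ε ∧
      |∑ i, dc (0, 1) i * (s i - σ * dc d i)| ≤ ε ∧
      ∀ L : ℕ, L0 ≤ L → ∀ V : ℤ × ℤ → (nb (bx L) → ℝ) → ℝ, UF (bx L) V →
      tB (bx L) (Nat.sqrt L) d -
        mm (nb (bx L)) (Jf (nb (bx L)) (fun _ => 0) (bx L) (Nat.sqrt L) d V) ≤
        η * (L : ℝ) ^ 2 → ∀ i : Fin 6, ∑ x0 ∈ inn (bx L) (2 * Nat.sqrt L + 2),
        mm (nb (bx L)) (fun k => |Aw (nb (bx L)) (Nat.sqrt L) R V i x0 k - s i|) ≤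
          ε * (L : ℝ) ^ 2 := by
  classical
  obtain ⟨C1, hC1, H1⟩ := sl1
  obtain ⟨C2, hC2, H2⟩ := sl2
  obtain ⟨C0, hC0, H0⟩ := tB_bd
  have hq : 0 ≤ qd d := qni_qd0 d
  obtain ⟨K, hK⟩ : ∃ K : ℝ, K = 2 * C0 * qd d + 2 := ⟨_, rfl⟩
  have hK0 : 0 ≤ K := by
    rw [hK]
    positivity
  obtain ⟨G, hG⟩ : ∃ G : ℝ, G = 2 * (3 * qd d + 1 + 2 * (C1 * Real.sqrt (qd d) *
    Real.sqrt K)) := ⟨_, rfl⟩
  have hG0 : 0 ≤ G := by
    rw [hG]
    positivity
  obtain ⟨a, ha⟩ : ∃ a : ℝ, a = 2 * C2 * Real.sqrt K +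
      (qd (d + (1, 0)) + qd d + qd (1, 0)) + (qd (d + (0, 1)) + qd d + qd (0, 1)) := ⟨_, rfl⟩
  obtain ⟨b, hb⟩ : ∃ b : ℝ, b = C2 * Real.sqrt G + 2 * Real.sqrt (qd d * (C0 * qd (1, 0))) +
      2 * Real.sqrt (qd d * (C0 * qd (0, 1))) := ⟨_, rfl⟩
  have e1 : 0 ≤ 2 * C2 * Real.sqrt K := by positivity
  have e2 : 0 ≤ qd (d + (1, 0)) + qd d + qd (1, 0) := by
    have := qni_qd0 (d + (1, 0))
    have := qni_qd0 (1, 0)
    linarith
  have e3 : 0 ≤ qd (d + (0, 1)) + qd d + qd (0, 1) := by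
    have := qni_qd0 (d + (0, 1))
    have := qni_qd0 (0, 1)
    linarith
  have e4 : 0 ≤ C2 * Real.sqrt G := by positivity
  have e5 : 0 ≤ 2 * Real.sqrt (qd d * (C0 * qd (1, 0))) := by positivity
  have e6 : 0 ≤ 2 * Real.sqrt (qd d * (C0 * qd (0, 1))) := by positivity
  have ha0 : 0 ≤ a := by
    rw [ha]
    linarith
  have hb0 : 0 ≤ b := by
    rw [hb]
    linarith
  obtain ⟨ρ, hρ, hρ1, hρe⟩ := qni_rho ha0 hb0 (half_pos hε)
  have hsρ : 0 ≤ Real.sqrt ρ := Real.sqrt_nonneg _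
  obtain ⟨l0, hl0⟩ := hσ ρ hρ
  obtain ⟨l, hl, hll, hφ⟩ := qni_l l0 hρ
  have hlr : (1 : ℝ) ≤ l := by exact_mod_cast hl
  have hb00 : ((0, 0) : ℤ × ℤ) ∈ bx l := qni_00 hl
  have hbne : (bx l).Nonempty := ⟨(0, 0), hb00⟩
  obtain ⟨U0, U1, hU0, hU1, HU⟩ := mm_near hbne (Nat.sqrt l) hρ
  obtain ⟨U, hUd⟩ : ∃ U : ℤ × ℤ → (nb (bx l) → ℝ) → ℝ, U = d.1 • U0 + d.2 • U1 := ⟨_, rfl⟩
  have hU : UF (bx l) U := by
    rw [hUd]
    exact hU0.comb hU1 _ _
  have hdU := HU d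
  rw [← hUd] at hdU
  obtain ⟨R0, hR0⟩ := sw_ll hl (Nat.sqrt l) hU (half_pos hε)
  obtain ⟨R, hRl, hRR, hRρ⟩ : ∃ R : ℕ, l ≤ R ∧ R0 ≤ R ∧ (l : ℝ) / R ≤ ρ := by
    refine ⟨l + R0 + ⌈(l : ℝ) / ρ⌉₊, by omega, by omega, ?_⟩
    have h1 := Nat.le_ceil ((l : ℝ) / ρ)
    have h2 : (l : ℝ) / ρ ≤ ((l + R0 + ⌈(l : ℝ) / ρ⌉₊ : ℕ) : ℝ) := by
      push_cast
      have h3 : (0 : ℝ) ≤ R0 := Nat.cast_nonneg R0
      linarith
    have h3 : (0 : ℝ) < ((l + R0 + ⌈(l : ℝ) / ρ⌉₊ : ℕ) : ℝ) :=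
      lt_of_lt_of_le (by positivity) h2
    rw [div_le_iff₀ h3]
    rw [div_le_iff₀ hρ] at h2
    linarith
  have hR : 0 < R := hl.trans_le hRl
  obtain ⟨S0, hS1, hS2, hS3, hS4⟩ : ∃ S0 : ℕ, 4 * l + 2 * R + 2 ≤ S0 ∧ l0 ≤ S0 ∧ 0 < S0 ∧
      8 / (S0 : ℝ) ≤ ρ ^ 2 := by
    refine ⟨4 * l + 2 * R + 2 + l0 + ⌈8 / ρ ^ 2⌉₊, by omega, by omega, by omega, ?_⟩
    have h1 := Nat.le_ceil (8 / ρ ^ 2)
    have h2 : 8 / ρ ^ 2 ≤ ((4 * l + 2 * R + 2 + l0 + ⌈8 / ρ ^ 2⌉₊ : ℕ) : ℝ) := by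
      rw [Nat.cast_add _ ⌈8 / ρ ^ 2⌉₊]
      have h3 : (0 : ℝ) ≤ ((4 * l + 2 * R + 2 + l0 : ℕ) : ℝ) := Nat.cast_nonneg _
      linarith
    have h3 : (0 : ℝ) < ((4 * l + 2 * R + 2 + l0 + ⌈8 / ρ ^ 2⌉₊ : ℕ) : ℝ) :=
      lt_of_lt_of_le (by positivity) h2
    rw [div_le_iff₀ h3]
    rw [div_le_iff₀ (by positivity)] at h2
    linarith
  have hbc : ((bx l).card : ℝ) = (l : ℝ) ^ 2 := by
    rw [qni_card]
    push_cast
    rfl
  have hslope : ∀ d' : ℝ × ℝ, |∑ i, dc d' i * (((bx l).card : ℝ)⁻¹ *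
      mm (nb (bx l)) (sx (nb (bx l)) (fun _ => 0) (bx l) (Nat.sqrt l) U i) - σ * dc d i)| ≤
      2 * Real.sqrt (qd d * (C0 * qd d')) * Real.sqrt ρ +
        ρ * (qd (d + d') + qd d + qd d') := by
    intro d'
    obtain ⟨n, hn⟩ : ∃ n : ℝ, n = ((bx l).card : ℝ) := ⟨_, rfl⟩
    have hn1 : 1 ≤ n := by
      rw [hn, hbc]
      nlinarith
    have hn0 : 0 < n := by linarith
    have h1 := mm_slope hU.wf (Finset.Subset.refl _) (Nat.sqrt l) d d'
    have h2 := H0 (bx l) hbne (Nat.sqrt l) d'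
    obtain ⟨x, hx⟩ : ∃ x : Fin 6 → ℝ, x = fun i =>
      mm (nb (bx l)) (sx (nb (bx l)) (fun _ => 0) (bx l) (Nat.sqrt l) U i) := ⟨_, rfl⟩
    have hx' : ∀ i, mm (nb (bx l)) (sx (nb (bx l)) (fun _ => 0) (bx l) (Nat.sqrt l) U i) =
      x i := fun i => by rw [hx]
    simp only [hx'] at h1 ⊢
    rw [← hn] at h2 ⊢
    obtain ⟨De, hDe⟩ : ∃ De : ℝ, De = tB (bx l) (Nat.sqrt l) d -
      mm (nb (bx l)) (Jf (nb (bx l)) (fun _ => 0) (bx l) (Nat.sqrt l) d U) := ⟨_, rfl⟩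
    rw [← hDe] at h1 hdU
    have hDe0 : 0 ≤ De := by
      have := mm_up hU.wf (Finset.Subset.refl _) (Nat.sqrt l) d
      rw [hDe]
      linarith
    have h3 : Real.sqrt (De * tB (bx l) (Nat.sqrt l) d') ≤
        Real.sqrt ρ * Real.sqrt (qd d * (C0 * qd d')) * n := by
      have h4 : De * tB (bx l) (Nat.sqrt l) d' ≤ (ρ * (qd d * (C0 * qd d'))) * n := by
        calc De * tB (bx l) (Nat.sqrt l) d' ≤ (ρ * qd d) * (C0 * qd d' * n) :=
              mul_le_mul hdU h2.2 h2.1 (by positivity)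
          _ = _ := by ring
      refine (Real.sqrt_le_sqrt h4).trans ?_
      have h5 : 0 ≤ C0 * qd d' := mul_nonneg hC0 (qni_qd0 d')
      rw [Real.sqrt_mul (by positivity), Real.sqrt_mul hρ.le]
      refine mul_le_mul_of_nonneg_left ?_ (by positivity)
      rw [Real.sqrt_le_iff]
      exact ⟨hn0.le, by nlinarith⟩
    have h6 : ∑ i, dc d' i * (n⁻¹ * x i - σ * dc d i) =
        n⁻¹ * (∑ i, dc d' i * x i - (tB (bx l) (Nat.sqrt l) (d + d') -
          tB (bx l) (Nat.sqrt l) d - tB (bx l) (Nat.sqrt l) d')) +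
        ((al l (d + d') - σ * qd (d + d')) - (al l d - σ * qd d) -
          (al l d' - σ * qd d')) := by
      have h7 : ∑ i, dc d' i * (n⁻¹ * x i - σ * dc d i) =
          n⁻¹ * ∑ i, dc d' i * x i - σ * ∑ i, dc d' i * dc d i := by
        rw [Finset.mul_sum, Finset.mul_sum, ← Finset.sum_sub_distrib]
        refine Finset.sum_congr rfl fun i _ => ?_
        ring
      rw [h7, qni_qd]
      unfold al
      rw [← hbc, ← hn]
      field_simp
      ring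
    rw [h6]
    have g1 := hl0 l hll (d + d')
    have g2 := hl0 l hll d
    have g3 := hl0 l hll d'
    have g4 : |n⁻¹ * (∑ i, dc d' i * x i - (tB (bx l) (Nat.sqrt l) (d + d') -
          tB (bx l) (Nat.sqrt l) d - tB (bx l) (Nat.sqrt l) d'))| ≤
        2 * Real.sqrt (qd d * (C0 * qd d')) * Real.sqrt ρ := by
      rw [abs_mul, abs_of_pos (inv_pos.2 hn0)]
      calc n⁻¹ * |(∑ i, dc d' i * x i - (tB (bx l) (Nat.sqrt l) (d + d') -
          tB (bx l) (Nat.sqrt l) d - tB (bx l) (Nat.sqrt l) d'))| ≤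
          n⁻¹ * (2 * (Real.sqrt ρ * Real.sqrt (qd d * (C0 * qd d')) * n)) :=
            mul_le_mul_of_nonneg_left (h1.trans (by linarith)) (inv_nonneg.2 hn0.le)
        _ = _ := by
          field_simp
    refine (abs_add_le _ _).trans (add_le_add g4 ?_)
    refine (abs_sub _ _).trans ?_
    have g5 := abs_sub (al l (d + d') - σ * qd (d + d')) (al l d - σ * qd d)
    linarith
  refine ⟨R, fun i => ((bx l).card : ℝ)⁻¹ *
    mm (nb (bx l)) (sx (nb (bx l)) (fun _ => 0) (bx l) (Nat.sqrt l) U i), ρ, S0 ^ 2, hR, hρ,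
    ?_, ?_, ?_⟩
  · refine (hslope (1, 0)).trans ?_
    have h1 : 0 ≤ b * Real.sqrt ρ - 2 * Real.sqrt (qd d * (C0 * qd (1, 0))) * Real.sqrt ρ := by
      rw [← sub_mul]
      exact mul_nonneg (by rw [hb]; linarith) hsρ
    have h2 : 0 ≤ a * ρ - ρ * (qd (d + (1, 0)) + qd d + qd (1, 0)) := by
      rw [mul_comm ρ, ← sub_mul]
      exact mul_nonneg (by rw [ha]; linarith) hρ.le
    linarith
  · refine (hslope (0, 1)).trans ?_
    have h1 : 0 ≤ b * Real.sqrt ρ - 2 * Real.sqrt (qd d * (C0 * qd (0, 1))) * Real.sqrt ρ := by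
      rw [← sub_mul]
      exact mul_nonneg (by rw [hb]; linarith) hsρ
    have h2 : 0 ≤ a * ρ - ρ * (qd (d + (0, 1)) + qd d + qd (0, 1)) := by
      rw [mul_comm ρ, ← sub_mul]
      exact mul_nonneg (by rw [ha]; linarith) hρ.le
    linarith
  · intro L hL V hV hdV i
    have hS : S0 ≤ Nat.sqrt L := Nat.le_sqrt'.2 hL
    obtain ⟨S, hSd⟩ : ∃ S : ℕ, S = Nat.sqrt L := ⟨_, rfl⟩
    rw [← hSd] at hS hdV ⊢
    have hSL : S ^ 2 ≤ L := by
      rw [hSd]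
      exact Nat.sqrt_le' L
    have hS0' : 0 < S := hS3.trans_le hS
    have hSLr : (S : ℝ) ^ 2 ≤ L := by exact_mod_cast hSL
    have hS0r : (0 : ℝ) < S := by exact_mod_cast hS0'
    have hLpos : (0 : ℝ) < L := lt_of_lt_of_le (by positivity) hSLr
    have hLn : 0 < L := by exact_mod_cast hLpos
    have hSr : 8 / (S : ℝ) ≤ ρ ^ 2 := by
      refine le_trans ?_ hS4
      have h1 : (S0 : ℝ) ≤ S := by exact_mod_cast hS
      have h2 : (0 : ℝ) < S0 := by exact_mod_cast hS3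
      gcongr
    have hlL : l0 ≤ L := by
      have h1 : S ≤ S ^ 2 := by nlinarith
      omega
    have hLne : (bx L).Nonempty := ⟨(0, 0), qni_00 hLn⟩
    have hLc : ((bx L).card : ℝ) = (L : ℝ) ^ 2 := by
      rw [qni_card]
      push_cast
      rfl
    have hlS : Nat.sqrt l ≤ S := by
      have h1 : Nat.sqrt l ≤ l := Nat.sqrt_le_self l
      omega
    have hBn : nb (bx L) ⊆ nb (bx L) := Finset.Subset.refl _
    obtain ⟨E, hE⟩ : ∃ E : ℝ, E = mm (nb (bx L)) (en (nb (bx L)) (bx L) V) := ⟨_, rfl⟩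
    obtain ⟨De, hDe⟩ : ∃ De : ℝ, De = tB (bx L) S d -
      mm (nb (bx L)) (Jf (nb (bx L)) (fun _ => 0) (bx L) S d V) := ⟨_, rfl⟩
    have hE0 : 0 ≤ E := by
      rw [hE]
      exact mm_en_nonneg hV.wf
    have hDe0 : 0 ≤ De := by
      have := mm_up hV.wf hBn S d
      rw [hDe]
      linarith
    have hTL := H0 (bx L) hLne S d
    rw [hLc] at hTL
    have hEK : E ≤ K * (L : ℝ) ^ 2 := by
      have h1 := mm_energy hV.wf hBn S d
      rw [← hE, ← hDe] at h1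
      have h2 := (abs_le.1 h1).2
      have h3 : 2 * Real.sqrt (tB (bx L) S d * De) ≤ tB (bx L) S d + De := by
        rw [Real.sqrt_mul hTL.1]
        have h4 := Real.sq_sqrt hTL.1
        have h5 := Real.sq_sqrt hDe0
        nlinarith [sq_nonneg (Real.sqrt (tB (bx L) S d) - Real.sqrt De)]
      have h6 : De ≤ (L : ℝ) ^ 2 := by
        rw [← hDe] at hdV
        refine hdV.trans ?_
        have : 0 ≤ (L : ℝ) ^ 2 := by positivity
        nlinarith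
      rw [hK]
      nlinarith [hTL.2]
    -- sl1
    obtain ⟨P, hP⟩ : ∃ P : ℝ, P = 1 - ((inn (bx l) (Nat.sqrt l + 2)).card : ℝ) /
      (bx l).card := ⟨_, rfl⟩
    have hPφ : (9 / 10 : ℝ) ^ (Nat.sqrt l) + P ≤ ρ := by
      have := inn_frac l hl
      rw [hP]
      linarith
    have hP0 : 0 ≤ P := by
      rw [hP]
      have h1 : ((inn (bx l) (Nat.sqrt l + 2)).card : ℝ) ≤ (bx l).card := by
        exact_mod_cast Finset.card_le_card (qni_innsub _ _)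
      have h2 : (0 : ℝ) < (bx l).card := by
        rw [hbc]
        positivity
      have := (div_le_one h2).2 h1
      linarith
    have hte := te_bx (m := Nat.sqrt l) (M := S) hb00 (bx_ba l) hLn
    rw [← hP] at hte
    have hψ : Real.sqrt (4 * (max (2 * (2 * l)) (S + 2) : ℕ) / L) ≤ ρ := by
      rw [Real.sqrt_le_iff]
      refine ⟨hρ.le, le_trans ?_ hSr⟩
      have h1 : ((max (2 * (2 * l)) (S + 2) : ℕ) : ℝ) ≤ 2 * S := by
        have : max (2 * (2 * l)) (S + 2) ≤ 2 * S := by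
          rw [max_le_iff]
          omega
        exact_mod_cast this
      rw [div_le_div_iff₀ hLpos hS0r]
      nlinarith
    have hsE : Real.sqrt E ≤ Real.sqrt K * L := by
      refine (Real.sqrt_le_sqrt hEK).trans (le_of_eq ?_)
      rw [Real.sqrt_mul hK0, Real.sqrt_sq hLpos.le]
    have hsEN : Real.sqrt (E / (bx L).card) ≤ Real.sqrt K := by
      refine Real.sqrt_le_sqrt ?_
      rw [hLc, div_le_iff₀ (by positivity)]
      exact hEK
    have hal : tB (bx l) (Nat.sqrt l) d / (bx l).card - tB (bx L) S d / (bx L).card ≤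
        2 * ρ * qd d := by
      have h1 := (abs_le.1 (hl0 l hll d)).2
      have h2 := (abs_le.1 (hl0 L hlL d)).1
      unfold al at h1 h2
      rw [hbc, hLc]
      rw [← hSd] at h2
      linarith
    obtain ⟨SE, hSE⟩ : ∃ SE : ℝ, SE = ∑ z ∈ sp (bx l) (bx L), mm (nb (bx L))
      (en (nb (bx L)) (tr z (bx l)) (V - pl (nb (bx L)) (fun _ => 0) (nb (bx l)) z U)) :=
      ⟨_, rfl⟩
    have hSE1 := H1 (bx l) (bx L) (Nat.sqrt l) S hlS hb00 hLne d V U hV hU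
    rw [← hSE, ← hE, ← hDe] at hSE1
    have hSE2 : SE ≤ (l : ℝ) ^ 2 * (L : ℝ) ^ 2 * (G * ρ) := by
      refine hSE1.trans ?_
      rw [← hbc, ← hLc]
      have hbc1 : (1 : ℝ) ≤ (bx l).card := by
        rw [hbc]
        nlinarith
      have hLc1 : (0 : ℝ) < (bx L).card := by
        rw [hLc]
        positivity
      have k1 : De / (bx L).card ≤ ρ := by
        rw [div_le_iff₀ hLc1, hLc, hDe]
        exact hdV
      have k2 : (tB (bx l) (Nat.sqrt l) d - mm (nb (bx l)) (Jf (nb (bx l)) (fun _ => 0) (bx l)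
          (Nat.sqrt l) d U)) / (bx l).card ≤ ρ * qd d := by
        rw [div_le_iff₀ (by linarith)]
        have : 0 ≤ ρ * qd d := by positivity
        nlinarith
      have k3 : C1 * Real.sqrt (qd d) * ((9 / 10) ^ (Nat.sqrt l) +
          Real.sqrt ((∑ x ∈ bx L, te (bx l) (bx L) (Nat.sqrt l) S x ^ 2) / (bx L).card)) *
          Real.sqrt (E / (bx L).card) ≤ C1 * Real.sqrt (qd d) * (2 * ρ) * Real.sqrt K := by
        have k4 : (9 / 10 : ℝ) ^ (Nat.sqrt l) +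
          Real.sqrt ((∑ x ∈ bx L, te (bx l) (bx L) (Nat.sqrt l) S x ^ 2) / (bx L).card) ≤
          2 * ρ := by linarith
        have k5 : 0 ≤ C1 * Real.sqrt (qd d) := by positivity
        exact mul_le_mul (mul_le_mul_of_nonneg_left k4 k5) hsEN (Real.sqrt_nonneg _)
          (by positivity)
      have k6 : 0 ≤ 2 * ((bx l).card : ℝ) * (bx L).card := by positivity
      refine (mul_le_mul_of_nonneg_left (add_le_add (add_le_add (add_le_add hal k1) k2) k3)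
        k6).trans (le_of_eq ?_)
      rw [hG]
      ring
    have hsSE : (l : ℝ)⁻¹ * Real.sqrt SE ≤ L * (Real.sqrt G * Real.sqrt ρ) := by
      have h1 := Real.sqrt_le_sqrt hSE2
      rw [Real.sqrt_mul (by positivity), Real.sqrt_mul (by positivity),
        Real.sqrt_sq (by positivity), Real.sqrt_sq hLpos.le, Real.sqrt_mul hG0] at h1
      rw [inv_mul_le_iff₀ (by positivity)]
      linarith
    -- sl2
    obtain ⟨A, hA⟩ : ∃ A : Finset (ℤ × ℤ), A = inn (bx L) (2 * S + 2) := ⟨_, rfl⟩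
    have hAs : A ⊆ inn (bx L) (4 * l + 2 * R + S + 4) := by
      rw [hA]
      exact qni_innmono _ (by omega)
    have hmain := H2 l (Nat.sqrt l) S R L hl hRl hlS V U hV hU A hAs i
    rw [← hP, ← hE, ← hSE] at hmain
    have hAc : (A.card : ℝ) ≤ (L : ℝ) ^ 2 := by
      rw [← hLc]
      rw [hA]
      exact_mod_cast Finset.card_le_card (qni_innsub _ _)
    have hAx : ∀ x0 ∈ A, ((2 * S + 2 : ℕ) : ℤ) ≤ x0.1 ∧ x0.1 + ((2 * S + 2 : ℕ) : ℤ) < L ∧
        ((2 * S + 2 : ℕ) : ℤ) ≤ x0.2 ∧ x0.2 + ((2 * S + 2 : ℕ) : ℤ) < L := fun x0 hx => by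
      rw [hA] at hx
      exact (inn_bx _ _ _).1 hx
    have hSz : 4 * (l : ℤ) + 2 * (R : ℤ) + 2 ≤ (S : ℤ) := by
      have : 4 * l + 2 * R + 2 ≤ S := hS1.trans hS
      exact_mod_cast this
    have hA1 : ∀ x0 ∈ A, ∀ z ∈ bx R, x0 + z ∈ inn (bx L) (S + 1) := by
      intro x0 hx z hz
      have h1 := qni_bx.1 hz
      have h2 := hAx x0 hx
      push_cast at h2
      rw [inn_bx]
      push_cast
      simp only [Prod.fst_add, Prod.snd_add]
      refine ⟨?_, ?_, ?_, ?_⟩ <;> omega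
    have hA2 : ∀ x0 ∈ A, ∀ z ∈ bx R, x0 + z ∈ sp (bx l) (bx L) := by
      intro x0 hx z hz
      have h1 := qni_bx.1 hz
      have h2 := hAx x0 hx
      push_cast at h2
      unfold sp
      rw [Finset.mem_filter]
      refine ⟨qni_bx.2 ?_, fun w hw => ?_⟩
      · simp only [Prod.fst_add, Prod.snd_add]
        refine ⟨?_, ?_, ?_, ?_⟩ <;> omega
      · have h6 := qni_bx.1 (mem_tr.1 hw)
        simp only [Prod.fst_sub, Prod.snd_sub, Prod.fst_add, Prod.snd_add] at h6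
        refine qni_bx.2 ?_
        refine ⟨?_, ?_, ?_, ?_⟩ <;> omega
    have hpt : ∀ x0 ∈ A, mm (nb (bx L)) (fun k => |Aw (nb (bx L)) S R V i x0 k -
        ((bx l).card : ℝ)⁻¹ *
          mm (nb (bx l)) (sx (nb (bx l)) (fun _ => 0) (bx l) (Nat.sqrt l) U i)|) ≤
        mm (nb (bx L)) (fun k => |Aw (nb (bx L)) S R V i x0 k -
          Sw (nb (bx L)) (bx l) (Nat.sqrt l) R U i x0 k|) + ε / 2 := by
      intro x0 hx
      have LA := qni_LA (i := i) (R := R) hV (hA1 x0 hx)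
      have LS := qni_LS (i := i) (R := R) (m := Nat.sqrt l) (L := L) hU (hA2 x0 hx)
      have h1 := hR0 R hRR L x0 (hA2 x0 hx) i
      refine le_trans ?_ (add_le_add le_rfl h1)
      rw [← mm_add (LA.sub LS).abs (LS.sub (Lg.const _ _)).abs]
      exact qni_mm (LA.sub (Lg.const _ _)).abs ((LA.sub LS).abs.add
        (LS.sub (Lg.const _ _)).abs) fun k => abs_sub_le _ _ _
    have hsum := Finset.sum_le_sum hpt
    rw [Finset.sum_add_distrib, Finset.sum_const, nsmul_eq_mul] at hsum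
    rw [← hA]
    refine hsum.trans ?_
    have f1 : (A.card : ℝ) * (ε / 2) ≤ (L : ℝ) ^ 2 * (ε / 2) :=
      mul_le_mul_of_nonneg_right hAc (by positivity)
    have f2 : C2 * L * (((9 / 10) ^ (Nat.sqrt l) + P + (l : ℝ) / R) * Real.sqrt E +
        (l : ℝ)⁻¹ * Real.sqrt SE) ≤
        C2 * L * ((2 * ρ) * (Real.sqrt K * L) + L * (Real.sqrt G * Real.sqrt ρ)) := by
      refine mul_le_mul_of_nonneg_left (add_le_add ?_ hsSE) (by positivity)
      exact mul_le_mul (by linarith) hsE (Real.sqrt_nonneg _) (by positivity)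
    have f3 : C2 * L * ((2 * ρ) * (Real.sqrt K * L) + L * (Real.sqrt G * Real.sqrt ρ)) =
        (L : ℝ) ^ 2 * (2 * C2 * Real.sqrt K * ρ + C2 * Real.sqrt G * Real.sqrt ρ) := by ring
    have f4 : 2 * C2 * Real.sqrt K * ρ + C2 * Real.sqrt G * Real.sqrt ρ ≤ ε / 2 := by
      refine le_trans (add_le_add ?_ ?_) hρe
      · refine mul_le_mul_of_nonneg_right ?_ hρ.le
        rw [ha]
        linarith
      · refine mul_le_mul_of_nonneg_right ?_ hsρ
        rw [hb]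
        linarith
    have f5 : (L : ℝ) ^ 2 * (2 * C2 * Real.sqrt K * ρ + C2 * Real.sqrt G * Real.sqrt ρ) ≤
        (L : ℝ) ^ 2 * (ε / 2) := mul_le_mul_of_nonneg_left f4 (by positivity)
    rw [f3] at f2
    linarith
/- END qni -/

/- MODULE qnj
Linear algebra: `r 3 ≈ - r 0`, `r 5 ≈ - r 2`, `r 4 ≈ - r 1`; the two sums give `r 0 ≈ r 2`,
`r 1 ≈ - r 2`, and `r 1 ≈ r 0 + r 2 ≈ 2 r 2`. -/
theorem six_lin {r : Fin 6 → ℝ} {η : ℝ} (h3 : ∀ i : Fin 6, |r (i + 3) + r i| ≤ η)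
    (h1 : |r 0 + r 2 - r 1| ≤ η) (h0 : |∑ i, dc (1, 0) i * r i| ≤ η)
    (h0' : |∑ i, dc (0, 1) i * r i| ≤ η) (i : Fin 6) : |r i| ≤ 10 * η := by
  have a0 : |r 3 + r 0| ≤ η := h3 0
  have a1 : |r 4 + r 1| ≤ η := h3 1
  have a2 : |r 5 + r 2| ≤ η := h3 2
  have e0 : ∑ i, dc (1, 0) i * r i = r 0 - r 2 - r 3 + r 5 := by
    rw [Fin.sum_univ_six]
    simp [dc, st]
    ring
  have e1 : ∑ i, dc (0, 1) i * r i = r 1 + r 2 - r 4 - r 5 := by
    rw [Fin.sum_univ_six]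
    simp [dc, st]
    ring
  rw [e0] at h0
  rw [e1] at h0'
  rw [abs_le] at a0 a1 a2 h0 h0' h1
  obtain ⟨a01, a02⟩ := a0
  obtain ⟨a11, a12⟩ := a1
  obtain ⟨a21, a22⟩ := a2
  obtain ⟨b1, b2⟩ := h0
  obtain ⟨c1, c2⟩ := h0'
  obtain ⟨d1, d2⟩ := h1
  have key : ∀ j : Fin 6, -(10 * η) ≤ r j ∧ r j ≤ 10 * η := by
    intro j
    fin_cases j
    · show -(10 * η) ≤ r 0 ∧ r 0 ≤ 10 * η
      constructor <;> linarith
    · show -(10 * η) ≤ r 1 ∧ r 1 ≤ 10 * η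
      constructor <;> linarith
    · show -(10 * η) ≤ r 2 ∧ r 2 ≤ 10 * η
      constructor <;> linarith
    · show -(10 * η) ≤ r 3 ∧ r 3 ≤ 10 * η
      constructor <;> linarith
    · show -(10 * η) ≤ r 4 ∧ r 4 ≤ 10 * η
      constructor <;> linarith
    · show -(10 * η) ≤ r 5 ∧ r 5 ≤ 10 * η
      constructor <;> linarith
  exact abs_le.2 (key i)
/- END qnj -/

/-- number of closed gates in the box -/
def Bad (L : ℕ) (k : nb (bx L) → ℝ) : ℝ := ∑ x ∈ inn (bx L) (Nat.sqrt L + 2), ∑ i : Fin 6,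
  (1 - gt (Nat.sqrt L) x i (gl (nb (bx L)) (fun _ => 0) k))

/- MODULE qnk
Closure.  `Bad` is a nonnegative integer; `mm Bad ≤ 6 L^2 C (1/75)^(Nat.sqrt L)` (`mm_fc5`).  If
`Bad k = 0` then all gates are `1` and `Aw 0 x0 + Aw 2 (x0 + st 0) = Aw 1 x0` (because
`st 0 + st 2 = st 1`), `Aw (i + 3) (x0 + st i) = - Aw i x0`.  So with the numbers `s` of `sl4`
`|s 0 + s 2 - s 1| ≤ |Aw 0 x0 - s 0| + |Aw 2 (x0 + st 0) - s 2| + |Aw 1 x0 - s 1| +
Bad |s 0 + s 2 - s 1|` pointwise; average over `x0 ∈ Bo L` (`x0 + st i ∈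
inn (bx L) (2 Nat.sqrt L + 2)`, `card (Bo L) ≥ L^2 / 2` for large `L`, `inn_bx`).  The same
for the opposite directions; `dc` satisfies the same relations; `six_lin` for
`r i = s i - σ dc d i`. -/
private theorem qnk_win {L : ℕ} {x : ℤ × ℤ} (hx : x ∈ inn (bx L) (Nat.sqrt L + 2)) :
    ∀ z, dn (z - x) ≤ ((Nat.sqrt L : ℕ) : ℤ) + 1 → z ∈ nb (bx L) := by
  intro z hz
  refine mem_nb.2 (Or.inl (mem_inn.1 hx z ?_))
  push_cast
  linarith

private theorem qnk_term {L : ℕ} {x : ℤ × ℤ} (hx : x ∈ inn (bx L) (Nat.sqrt L + 2)) (i : Fin 6) :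
    Lg (nb (bx L)) (fun k => 1 - gt (Nat.sqrt L) x i (gl (nb (bx L)) (fun _ => 0) k)) :=
  (Lg.const _ 1).sub (gt_Lg i (qnk_win hx))

private theorem qnk_Lg (L : ℕ) : Lg (nb (bx L)) (Bad L) := by
  unfold Bad
  exact Lg.sum _ fun x hx => Lg.sum _ fun i _ => qnk_term hx i

private theorem qnk_t0 (m : ℕ) (x : ℤ × ℤ) (i : Fin 6) (H : ℤ × ℤ → ℝ) :
    0 ≤ 1 - gt m x i H := by
  rcases gt_mem m x i H with h | h <;> rw [h] <;> norm_num

private theorem qnk_nonneg (L : ℕ) (k : nb (bx L) → ℝ) : 0 ≤ Bad L k :=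
  Finset.sum_nonneg fun x _ => Finset.sum_nonneg fun i _ => qnk_t0 _ _ _ _

private theorem qnk_gate {L : ℕ} {k : nb (bx L) → ℝ} (h : Bad L k = 0) {x : ℤ × ℤ}
    (hx : x ∈ inn (bx L) (Nat.sqrt L + 2)) (i : Fin 6) :
    gt (Nat.sqrt L) x i (gl (nb (bx L)) (fun _ => 0) k) = 1 := by
  unfold Bad at h
  have h1 := (Finset.sum_eq_zero_iff_of_nonneg (fun x _ => Finset.sum_nonneg fun i _ =>
    qnk_t0 _ _ _ _)).1 h x hx
  have h2 := (Finset.sum_eq_zero_iff_of_nonneg (fun i _ => qnk_t0 _ _ _ _)).1 h1 i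
    (Finset.mem_univ i)
  linarith

private theorem qnk_one {L : ℕ} {k : nb (bx L) → ℝ} (h : Bad L k ≠ 0) : 1 ≤ Bad L k := by
  by_contra hlt
  apply h
  unfold Bad
  refine Finset.sum_eq_zero fun x hx => Finset.sum_eq_zero fun i _ => ?_
  rcases gt_mem (Nat.sqrt L) x i (gl (nb (bx L)) (fun _ => 0) k) with h1 | h1
  · exfalso
    apply hlt
    have h2 : (1 : ℝ) ≤ ∑ i : Fin 6, (1 - gt (Nat.sqrt L) x i (gl (nb (bx L)) (fun _ => 0) k)) := by
      have := Finset.single_le_sum (f := fun i : Fin 6 =>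
        (1 - gt (Nat.sqrt L) x i (gl (nb (bx L)) (fun _ => 0) k)))
        (fun i _ => qnk_t0 _ _ _ _) (Finset.mem_univ i)
      rw [h1] at this
      linarith
    have h3 := Finset.single_le_sum (f := fun x => ∑ i : Fin 6,
      (1 - gt (Nat.sqrt L) x i (gl (nb (bx L)) (fun _ => 0) k)))
      (fun x _ => Finset.sum_nonneg fun i _ => qnk_t0 _ _ _ _) hx
    exact h2.trans h3
  · rw [h1, sub_self]

private theorem qnk_card (L : ℕ) : ((bx L).card : ℝ) = (L : ℝ) ^ 2 := by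
  unfold bx
  rw [Finset.card_product, Int.card_Ico]
  simp
  ring

private theorem qnk_inn_le (L r : ℕ) : ((inn (bx L) r).card : ℝ) ≤ (L : ℝ) ^ 2 := by
  rw [← qnk_card]
  refine Nat.cast_le.2 (Finset.card_le_card ?_)
  classical
  unfold inn
  exact Finset.filter_subset _ _

private theorem qnk_mono {W : Finset (ℤ × ℤ)} {g g' : (W → ℝ) → ℝ} (hg : Lg W g) (hg' : Lg W g')
    (h : ∀ k, g k ≤ g' k) : mm W g ≤ mm W g' :=
  mm_leK hg hg' fun _ _ _ _ _ _ _ => h _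

theorem mm_Bad : ∃ C : ℝ, 0 ≤ C ∧ ∀ L : ℕ,
    mm (nb (bx L)) (Bad L) ≤ C * (L : ℝ) ^ 2 * (1 / 75) ^ (Nat.sqrt L) := by
  obtain ⟨C, hC, h⟩ := mm_fc5
  refine ⟨6 * C, by positivity, fun L => ?_⟩
  have e : mm (nb (bx L)) (Bad L) = ∑ x ∈ inn (bx L) (Nat.sqrt L + 2), ∑ i : Fin 6,
      mm (nb (bx L)) (fun k => 1 - gt (Nat.sqrt L) x i (gl (nb (bx L)) (fun _ => 0) k)) := by
    have h1 : mm (nb (bx L)) (Bad L) = mm (nb (bx L)) (fun k => ∑ x ∈ inn (bx L) (Nat.sqrt L + 2),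
      ∑ i : Fin 6, (1 - gt (Nat.sqrt L) x i (gl (nb (bx L)) (fun _ => 0) k))) := rfl
    rw [h1, mm_sum _ (fun x hx => Lg.sum _ fun i _ => qnk_term hx i)]
    exact Finset.sum_congr rfl fun x hx => mm_sum _ fun i _ => qnk_term hx i
  rw [e]
  calc ∑ x ∈ inn (bx L) (Nat.sqrt L + 2), ∑ i : Fin 6,
      mm (nb (bx L)) (fun k => 1 - gt (Nat.sqrt L) x i (gl (nb (bx L)) (fun _ => 0) k))
      ≤ ∑ x ∈ inn (bx L) (Nat.sqrt L + 2), ∑ i : Fin 6, C * (1 / 75) ^ (Nat.sqrt L) :=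
        Finset.sum_le_sum fun x hx => Finset.sum_le_sum fun i _ =>
          h (nb (bx L)) x i (Nat.sqrt L) (qnk_win hx)
    _ = ((inn (bx L) (Nat.sqrt L + 2)).card : ℝ) * (6 * (C * (1 / 75) ^ (Nat.sqrt L))) := by
        simp
    _ ≤ (L : ℝ) ^ 2 * (6 * (C * (1 / 75) ^ (Nat.sqrt L))) :=
        mul_le_mul_of_nonneg_right (qnk_inn_le _ _) (by positivity)
    _ = _ := by ring

private theorem qnk_small (C : ℝ) {ε : ℝ} (hε : 0 < ε) : ∃ L0 : ℕ, ∀ L : ℕ, L0 ≤ L →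
    C * (L : ℝ) ^ 2 * (1 / 75) ^ (Nat.sqrt L) ≤ ε := by
  have h1 : Tendsto (fun n : ℕ => ((n : ℝ) ^ 4) * (1 / 75 : ℝ) ^ n) atTop (𝓝 0) :=
    tendsto_pow_const_mul_const_pow_of_abs_lt_one 4 (by rw [abs_of_pos] <;> norm_num)
  have h2 : Tendsto (fun n : ℕ => (75 * |C|) * ((((n + 1 : ℕ) : ℝ) ^ 4) * (1 / 75 : ℝ) ^ (n + 1)))
      atTop (𝓝 ((75 * |C|) * 0)) := (h1.comp (tendsto_add_atTop_nat 1)).const_mul _
  rw [mul_zero] at h2
  obtain ⟨n0, hn0⟩ := eventually_atTop.1 (h2.eventually (gt_mem_nhds hε))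
  refine ⟨n0 ^ 2, fun L hL => ?_⟩
  have hn : n0 ≤ Nat.sqrt L := Nat.le_sqrt'.2 hL
  have h3 := hn0 _ hn
  have h4 : (L : ℝ) ≤ ((Nat.sqrt L + 1 : ℕ) : ℝ) ^ 2 := by
    have := Nat.lt_succ_sqrt' L
    exact_mod_cast this.le
  have h5 : (L : ℝ) ^ 2 ≤ ((Nat.sqrt L + 1 : ℕ) : ℝ) ^ 4 := by
    calc (L : ℝ) ^ 2 ≤ (((Nat.sqrt L + 1 : ℕ) : ℝ) ^ 2) ^ 2 :=
          pow_le_pow_left₀ (Nat.cast_nonneg _) h4 2
      _ = _ := by ring
  have h6 : C * (L : ℝ) ^ 2 * (1 / 75) ^ (Nat.sqrt L) ≤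
      |C| * ((Nat.sqrt L + 1 : ℕ) : ℝ) ^ 4 * (1 / 75) ^ (Nat.sqrt L) := by
    refine mul_le_mul_of_nonneg_right ?_ (by positivity)
    exact mul_le_mul (le_abs_self C) h5 (by positivity) (abs_nonneg _)
  refine h6.trans (le_of_eq_of_le ?_ h3.le)
  rw [pow_succ]
  ring

private theorem qnk_Bo {L : ℕ} (hL : 625 ≤ L) : (L : ℝ) ^ 2 / 2 ≤ ((Bo L).card : ℝ) := by
  set n := Nat.sqrt L with hn
  have hn25 : 25 ≤ n := by rw [hn, Nat.le_sqrt]; exact hL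
  have hnL : n * n ≤ L := Nat.sqrt_le L
  set r : ℕ := 3 * n + 3 with hr
  have hrL : 8 * r ≤ L := by nlinarith
  have e : Bo L = Finset.Ico (r : ℤ) ((L : ℤ) - r) ×ˢ Finset.Ico (r : ℤ) ((L : ℤ) - r) := by
    ext x
    unfold Bo
    rw [inn_bx, Finset.mem_product, Finset.mem_Ico, Finset.mem_Ico]
    constructor
    · rintro ⟨h1, h2, h3, h4⟩
      refine ⟨⟨h1, by linarith⟩, ⟨h3, by linarith⟩⟩
    · rintro ⟨⟨h1, h2⟩, ⟨h3, h4⟩⟩
      refine ⟨h1, by linarith, h3, by linarith⟩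
  rw [e, Finset.card_product, Int.card_Ico]
  have h2 : (((L : ℤ) - r - r).toNat : ℝ) = (L : ℝ) - 2 * r := by
    have h3 : (0 : ℤ) ≤ (L : ℤ) - r - r := by
      have : (8 * r : ℤ) ≤ L := by exact_mod_cast hrL
      linarith
    have h4 : ((((L : ℤ) - r - r).toNat : ℤ) : ℝ) = (((L : ℤ) - r - r : ℤ) : ℝ) := by
      rw [Int.toNat_of_nonneg h3]
    have h5 : ((((L : ℤ) - r - r).toNat : ℤ) : ℝ) = (((L : ℤ) - r - r).toNat : ℝ) := by
      norm_cast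
    rw [← h5, h4]
    push_cast
    ring
  push_cast
  rw [h2]
  have h6 : (8 : ℝ) * r ≤ L := by exact_mod_cast hrL
  have h7 : 0 ≤ (r : ℝ) := Nat.cast_nonneg _
  have h8 : (3 / 4 : ℝ) * L ≤ L - 2 * r := by linarith
  have h9 : 0 ≤ (L : ℝ) := Nat.cast_nonneg _
  nlinarith

private theorem qnk_in {L R : ℕ} (hR : 2 * R ≤ Nat.sqrt L) {x z : ℤ × ℤ}
    (hx : x ∈ inn (bx L) (2 * Nat.sqrt L + 2)) (hz : z ∈ bx R) :
    x + z ∈ inn (bx L) (Nat.sqrt L + 2) := by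
  rw [mem_inn] at hx ⊢
  intro y hy
  refine hx y ?_
  have h1 : dn (y - x) ≤ dn (y - (x + z)) + dn z := by
    have := dn_add_le (y - (x + z)) z
    rwa [show y - (x + z) + z = y - x by abel] at this
  have h2 : dn z ≤ 2 * R := by
    have := bx_ba R hz
    rw [mem_ba] at this
    simpa using this
  have h3 : (2 * R : ℤ) ≤ (Nat.sqrt L : ℕ) := by exact_mod_cast hR
  push_cast at hy ⊢
  linarith

private theorem qnk_Bo_in {L : ℕ} {x : ℤ × ℤ} (hx : x ∈ Bo L) :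
    x ∈ inn (bx L) (2 * Nat.sqrt L + 2) := by
  unfold Bo at hx
  rw [mem_inn] at hx ⊢
  intro y hy
  refine hx y ?_
  push_cast at hy ⊢
  have : (0 : ℤ) ≤ (Nat.sqrt L : ℕ) := Int.natCast_nonneg _
  linarith

private theorem qnk_Bo_st {L : ℕ} {x : ℤ × ℤ} (hx : x ∈ Bo L) (i : Fin 6) :
    x + st i ∈ inn (bx L) (2 * Nat.sqrt L + 2) := by
  unfold Bo at hx
  rw [mem_inn] at hx ⊢
  intro y hy
  refine hx y ?_
  have h1 : dn (y - x) ≤ dn (y - (x + st i)) + dn (st i) := by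
    have := dn_add_le (y - (x + st i)) (st i)
    rwa [show y - (x + st i) + st i = y - x by abel] at this
  have h2 : dn (st i) = 1 := (dn_one_iff _).2 ⟨i, rfl⟩
  push_cast at hy ⊢
  have : (0 : ℤ) ≤ (Nat.sqrt L : ℕ) := Int.natCast_nonneg _
  linarith

private theorem qnk_LgA {L R : ℕ} (hR : 2 * R ≤ Nat.sqrt L)
    {V : ℤ × ℤ → (nb (bx L) → ℝ) → ℝ} (hV : UF (bx L) V) (i : Fin 6) {x : ℤ × ℤ}
    (hx : x ∈ inn (bx L) (2 * Nat.sqrt L + 2)) :
    Lg (nb (bx L)) (Aw (nb (bx L)) (Nat.sqrt L) R V i x) := by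
  unfold Aw
  refine Lg.smul (Lg.sum _ fun z hz => ?_) _
  exact (gt_Lg i (qnk_win (qnk_in hR hx hz))).mul ((hV.wf.Lg_v _).sub (hV.wf.Lg_v _))

private theorem qnk_Aw {L R : ℕ} (hR : 2 * R ≤ Nat.sqrt L)
    (V : ℤ × ℤ → (nb (bx L) → ℝ) → ℝ) (i : Fin 6) {x : ℤ × ℤ}
    (hx : x ∈ inn (bx L) (2 * Nat.sqrt L + 2)) {k : nb (bx L) → ℝ} (hk : Bad L k = 0) :
    Aw (nb (bx L)) (Nat.sqrt L) R V i x k =
      ((R : ℝ) ^ 2)⁻¹ * ∑ z ∈ bx R, (V (x + z + st i) k - V (x + z) k) := by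
  unfold Aw
  congr 1
  refine Finset.sum_congr rfl fun z hz => ?_
  rw [qnk_gate hk (qnk_in hR hx hz) i, one_mul]

/-- the closure argument for one constant `c` -/
private theorem qnk_core {L : ℕ} (hL : 625 ≤ L) (hbad : mm (nb (bx L)) (Bad L) ≤ 1 / 4)
    {c : ℝ} (X : ℤ × ℤ → (nb (bx L) → ℝ) → ℝ) (hX : ∀ x ∈ Bo L, Lg (nb (bx L)) (X x))
    (h0 : ∀ x k, 0 ≤ X x k) (hc : ∀ x ∈ Bo L, ∀ k, Bad L k = 0 → |c| ≤ X x k) {T : ℝ}
    (hT : ∑ x ∈ Bo L, mm (nb (bx L)) (X x) ≤ T * (L : ℝ) ^ 2) : |c| ≤ 8 / 3 * T := by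
  have h1 : ∀ x ∈ Bo L, |c| ≤ mm (nb (bx L)) (X x) + |c| * mm (nb (bx L)) (Bad L) := by
    intro x hx
    have h2 : mm (nb (bx L)) (fun _ => |c|) ≤
        mm (nb (bx L)) (fun k => X x k + |c| * Bad L k) := by
      refine qnk_mono (Lg.const _ _) ((hX x hx).add ((qnk_Lg L).smul _)) fun k => ?_
      by_cases hk : Bad L k = 0
      · rw [hk, mul_zero, add_zero]
        exact hc x hx k hk
      · have := mul_le_mul_of_nonneg_left (qnk_one hk) (abs_nonneg c)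
        linarith [h0 x k]
    rw [mm_const, mm_add (hX x hx) ((qnk_Lg L).smul _), mm_smul (qnk_Lg L)] at h2
    exact h2
  have h3 := Finset.sum_le_sum h1
  rw [Finset.sum_const, Finset.sum_add_distrib, Finset.sum_const, nsmul_eq_mul, nsmul_eq_mul] at h3
  have h4 := qnk_Bo hL
  have h5 : |c| * mm (nb (bx L)) (Bad L) ≤ |c| * (1 / 4) :=
    mul_le_mul_of_nonneg_left hbad (abs_nonneg c)
  have hLp : (0 : ℝ) < (L : ℝ) ^ 2 := by
    have : (0 : ℝ) < L := by exact_mod_cast (by omega : 0 < L)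
    positivity
  have h6 : ((Bo L).card : ℝ) * (|c| * mm (nb (bx L)) (Bad L)) ≤
      ((Bo L).card : ℝ) * (|c| * (1 / 4)) := mul_le_mul_of_nonneg_left h5 (Nat.cast_nonneg _)
  have h7 : ((Bo L).card : ℝ) * |c| * (3 / 4) ≤ T * (L : ℝ) ^ 2 := by linarith
  have h8 : (L : ℝ) ^ 2 / 2 * |c| ≤ ((Bo L).card : ℝ) * |c| :=
    mul_le_mul_of_nonneg_right h4 (abs_nonneg c)
  have h9 : (L : ℝ) ^ 2 * (3 / 8 * |c|) ≤ (L : ℝ) ^ 2 * T := by linarith
  have := le_of_mul_le_mul_left h9 hLp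
  linarith

theorem sl5 {σ : ℝ} (hσ : Lim σ) (d : ℝ × ℝ) {ε : ℝ} (hε : 0 < ε) :
    ∃ (R : ℕ) (η : ℝ) (L0 : ℕ), 0 < R ∧ 0 < η ∧
      ∀ L : ℕ, L0 ≤ L → ∀ V : ℤ × ℤ → (nb (bx L) → ℝ) → ℝ, UF (bx L) V →
      tB (bx L) (Nat.sqrt L) d -
        mm (nb (bx L)) (Jf (nb (bx L)) (fun _ => 0) (bx L) (Nat.sqrt L) d V) ≤
        η * (L : ℝ) ^ 2 → ∀ i : Fin 6, ∑ x0 ∈ Bo L,
        mm (nb (bx L)) (fun k => |Aw (nb (bx L)) (Nat.sqrt L) R V i x0 k - σ * dc d i|) ≤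
          ε * (L : ℝ) ^ 2 := by
  set ε' : ℝ := ε / 81 with hε'
  have hε'0 : 0 < ε' := by positivity
  obtain ⟨R, s, η, L1, hR, hη, hs1, hs2, H⟩ := sl4 hσ d hε'0
  obtain ⟨Cb, hCb, hBad⟩ := mm_Bad
  obtain ⟨L2, hL2⟩ := qnk_small Cb (show (0 : ℝ) < 1 / 4 by norm_num)
  set L0 : ℕ := max (max L1 L2) (max 625 ((2 * R) ^ 2)) with hL0
  have hst : ∀ (L : ℕ) (V : ℤ × ℤ → (nb (bx L) → ℝ) → ℝ), L0 ≤ L → UF (bx L) V →
      tB (bx L) (Nat.sqrt L) d -
        mm (nb (bx L)) (Jf (nb (bx L)) (fun _ => 0) (bx L) (Nat.sqrt L) d V) ≤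
        η * (L : ℝ) ^ 2 → 2 * R ≤ Nat.sqrt L ∧ 625 ≤ L ∧ mm (nb (bx L)) (Bad L) ≤ 1 / 4 ∧
        ∀ i : Fin 6, ∑ x0 ∈ inn (bx L) (2 * Nat.sqrt L + 2),
        mm (nb (bx L)) (fun k => |Aw (nb (bx L)) (Nat.sqrt L) R V i x0 k - s i|) ≤
          ε' * (L : ℝ) ^ 2 := by
    intro L V hL hV hdef
    refine ⟨?_, ?_, ?_, ?_⟩
    · rw [Nat.le_sqrt']
      exact ((le_max_right _ _).trans (le_max_right _ _)).trans hL
    · exact ((le_max_left _ _).trans (le_max_right _ _)).trans hL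
    · exact (hBad L).trans (hL2 L (((le_max_right _ _).trans (le_max_left _ _)).trans hL))
    · exact H L (((le_max_left _ _).trans (le_max_left _ _)).trans hL) V hV hdef
  -- nonnegativity and measurability of the summands
  have hLgt : ∀ (L : ℕ) (V : ℤ × ℤ → (nb (bx L) → ℝ) → ℝ), 2 * R ≤ Nat.sqrt L → UF (bx L) V →
      ∀ (i : Fin 6) (t : ℝ), ∀ x ∈ inn (bx L) (2 * Nat.sqrt L + 2),
      Lg (nb (bx L)) (fun k => |Aw (nb (bx L)) (Nat.sqrt L) R V i x k - t|) := by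
    intro L V h2R hV i t x hx
    exact ((qnk_LgA h2R hV i hx).sub (Lg.const _ t)).abs
  -- the closure relations
  have hclo : (∀ i : Fin 6, |s (i + 3) + s i| ≤ 8 * ε') ∧ |s 0 + s 2 - s 1| ≤ 8 * ε' := by
    have hbxne : (bx L0).Nonempty := by
      refine ⟨(0, 0), ?_⟩
      have : 0 < L0 := lt_of_lt_of_le (by norm_num)
        ((le_max_left 625 _).trans (le_max_right (max L1 L2) _))
      simp [bx, this]
    set qq : ℝ := qd d + 1 with hqq
    have hqd : 0 ≤ qd d := by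
      unfold qd
      exact mul_nonneg (by norm_num) (Finset.sum_nonneg fun i _ => sq_nonneg _)
    obtain ⟨V0, V1, hV0, hV1, hnear⟩ := mm_near hbxne (Nat.sqrt L0)
      (show 0 < η / qq by positivity)
    set V := d.1 • V0 + d.2 • V1 with hV
    have hVU : UF (bx L0) V := UF.comb hV0 hV1 d.1 d.2
    have hdef : tB (bx L0) (Nat.sqrt L0) d -
        mm (nb (bx L0)) (Jf (nb (bx L0)) (fun _ => 0) (bx L0) (Nat.sqrt L0) d V) ≤
        η * (L0 : ℝ) ^ 2 := by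
      refine (hnear d).trans ?_
      have h1 : η / qq * qd d ≤ η := by
        rw [div_mul_eq_mul_div, div_le_iff₀ (by positivity)]
        nlinarith
      have h2 : (1 : ℝ) ≤ (L0 : ℝ) ^ 2 := by
        have : (1 : ℝ) ≤ L0 := by
          exact_mod_cast (le_trans (by norm_num)
            ((le_max_left 625 _).trans (le_max_right (max L1 L2) ((max 625 ((2 * R) ^ 2))))))
        nlinarith
      nlinarith
    obtain ⟨h2R, h625, hbad, hsum⟩ := hst L0 V le_rfl hVU hdef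
    have hAwst : ∀ i j : Fin 6, ∑ x ∈ Bo L0,
        mm (nb (bx L0)) (fun k => |Aw (nb (bx L0)) (Nat.sqrt L0) R V i (x + st j) k - s i|) ≤
          ε' * (L0 : ℝ) ^ 2 := by
      intro i j
      refine le_trans ?_ (hsum i)
      have h1 : ∑ x ∈ Bo L0,
          mm (nb (bx L0)) (fun k => |Aw (nb (bx L0)) (Nat.sqrt L0) R V i (x + st j) k - s i|) =
          ∑ x ∈ (Bo L0).image (fun x => x + st j),
          mm (nb (bx L0)) (fun k => |Aw (nb (bx L0)) (Nat.sqrt L0) R V i x k - s i|) := by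
        rw [Finset.sum_image]
        intro a _ b _ hab
        exact add_right_cancel hab
      rw [h1]
      refine Finset.sum_le_sum_of_subset_of_nonneg ?_ ?_
      · intro y hy
        obtain ⟨x, hx, rfl⟩ := Finset.mem_image.1 hy
        exact qnk_Bo_st hx j
      · intro x hx _
        exact mm_nonneg (hLgt L0 V h2R hVU i _ x hx) fun k => abs_nonneg _
    have hAw0 : ∀ i : Fin 6, ∑ x ∈ Bo L0,
        mm (nb (bx L0)) (fun k => |Aw (nb (bx L0)) (Nat.sqrt L0) R V i x k - s i|) ≤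
          ε' * (L0 : ℝ) ^ 2 := by
      intro i
      refine le_trans ?_ (hsum i)
      refine Finset.sum_le_sum_of_subset_of_nonneg (fun x hx => qnk_Bo_in hx) ?_
      intro x hx _
      exact mm_nonneg (hLgt L0 V h2R hVU i _ x hx) fun k => abs_nonneg _
    constructor
    · intro i
      have h1 := qnk_core h625 hbad (c := s (i + 3) + s i)
        (X := fun x k => |Aw (nb (bx L0)) (Nat.sqrt L0) R V (i + 3) (x + st i) k - s (i + 3)| +
          |Aw (nb (bx L0)) (Nat.sqrt L0) R V i x k - s i|)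
        (fun x hx => (hLgt L0 V h2R hVU _ _ _ (qnk_Bo_st hx i)).add
          (hLgt L0 V h2R hVU _ _ _ (qnk_Bo_in hx)))
        (fun x k => add_nonneg (abs_nonneg _) (abs_nonneg _))
        (fun x hx k hk => ?_) (T := 2 * ε') ?_
      · linarith
      · have e1 := qnk_Aw h2R V (i + 3) (qnk_Bo_st hx i) hk
        have e2 := qnk_Aw h2R V i (qnk_Bo_in hx) hk
        have e3 : Aw (nb (bx L0)) (Nat.sqrt L0) R V (i + 3) (x + st i) k +
            Aw (nb (bx L0)) (Nat.sqrt L0) R V i x k = 0 := by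
          rw [e1, e2, ← mul_add, ← Finset.sum_add_distrib]
          have : ∀ z ∈ bx R, (V (x + st i + z + st (i + 3)) k - V (x + st i + z) k) +
              (V (x + z + st i) k - V (x + z) k) = 0 := by
            intro z _
            have h3 : st (i + 3) = - st i := by fin_cases i <;> rfl
            have a1 : x + st i + z + st (i + 3) = x + z := by rw [h3]; abel
            have a2 : x + st i + z = x + z + st i := by abel
            rw [a1, a2]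
            ring
          rw [Finset.sum_eq_zero this, mul_zero]
        have e4 : s (i + 3) + s i =
            -((Aw (nb (bx L0)) (Nat.sqrt L0) R V (i + 3) (x + st i) k - s (i + 3)) +
            (Aw (nb (bx L0)) (Nat.sqrt L0) R V i x k - s i)) := by linarith
        rw [e4, abs_neg]
        exact abs_add_le _ _
      · have e5 : ∀ x ∈ Bo L0, mm (nb (bx L0)) (fun k =>
            |Aw (nb (bx L0)) (Nat.sqrt L0) R V (i + 3) (x + st i) k - s (i + 3)| +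
            |Aw (nb (bx L0)) (Nat.sqrt L0) R V i x k - s i|) =
            mm (nb (bx L0)) (fun k =>
              |Aw (nb (bx L0)) (Nat.sqrt L0) R V (i + 3) (x + st i) k - s (i + 3)|) +
            mm (nb (bx L0)) (fun k => |Aw (nb (bx L0)) (Nat.sqrt L0) R V i x k - s i|) :=
          fun x hx => mm_add (hLgt L0 V h2R hVU _ _ _ (qnk_Bo_st hx i))
            (hLgt L0 V h2R hVU _ _ _ (qnk_Bo_in hx))
        show ∑ x ∈ Bo L0, mm (nb (bx L0)) (fun k =>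
            |Aw (nb (bx L0)) (Nat.sqrt L0) R V (i + 3) (x + st i) k - s (i + 3)| +
            |Aw (nb (bx L0)) (Nat.sqrt L0) R V i x k - s i|) ≤ _
        rw [Finset.sum_congr rfl e5, Finset.sum_add_distrib]
        linarith [hAwst (i + 3) i, hAw0 i]
    · have h1 := qnk_core h625 hbad (c := s 0 + s 2 - s 1)
        (X := fun x k => (|Aw (nb (bx L0)) (Nat.sqrt L0) R V 2 (x + st 0) k - s 2| +
          |Aw (nb (bx L0)) (Nat.sqrt L0) R V 0 x k - s 0|) +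
          |Aw (nb (bx L0)) (Nat.sqrt L0) R V 1 x k - s 1|)
        (fun x hx => ((hLgt L0 V h2R hVU _ _ _ (qnk_Bo_st hx 0)).add
          (hLgt L0 V h2R hVU _ _ _ (qnk_Bo_in hx))).add (hLgt L0 V h2R hVU _ _ _ (qnk_Bo_in hx)))
        (fun x k => add_nonneg (add_nonneg (abs_nonneg _) (abs_nonneg _)) (abs_nonneg _))
        (fun x hx k hk => ?_) (T := 3 * ε') ?_
      · linarith
      · have e1 := qnk_Aw h2R V 2 (qnk_Bo_st hx 0) hk
        have e2 := qnk_Aw h2R V 0 (qnk_Bo_in hx) hk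
        have e2' := qnk_Aw h2R V 1 (qnk_Bo_in hx) hk
        have e3 : Aw (nb (bx L0)) (Nat.sqrt L0) R V 2 (x + st 0) k +
            Aw (nb (bx L0)) (Nat.sqrt L0) R V 0 x k -
            Aw (nb (bx L0)) (Nat.sqrt L0) R V 1 x k = 0 := by
          rw [e1, e2, e2', ← mul_add, ← mul_sub, ← Finset.sum_add_distrib,
            ← Finset.sum_sub_distrib]
          have : ∀ z ∈ bx R, ((V (x + st 0 + z + st 2) k - V (x + st 0 + z) k) +
              (V (x + z + st 0) k - V (x + z) k)) - (V (x + z + st 1) k - V (x + z) k) = 0 := by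
            intro z _
            have h3 : st 0 + st 2 = st 1 := rfl
            have a1 : x + st 0 + z + st 2 = x + z + st 1 := by rw [← h3]; abel
            have a2 : x + st 0 + z = x + z + st 0 := by abel
            rw [a1, a2]
            ring
          rw [Finset.sum_eq_zero this, mul_zero]
        have e4 : s 0 + s 2 - s 1 =
            -((Aw (nb (bx L0)) (Nat.sqrt L0) R V 2 (x + st 0) k - s 2) +
            (Aw (nb (bx L0)) (Nat.sqrt L0) R V 0 x k - s 0)) +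
            (Aw (nb (bx L0)) (Nat.sqrt L0) R V 1 x k - s 1) := by linarith
        rw [e4]
        refine (abs_add_le _ _).trans (add_le_add ?_ le_rfl)
        rw [abs_neg]
        exact abs_add_le _ _
      · have e5 : ∀ x ∈ Bo L0, mm (nb (bx L0)) (fun k =>
            (|Aw (nb (bx L0)) (Nat.sqrt L0) R V 2 (x + st 0) k - s 2| +
            |Aw (nb (bx L0)) (Nat.sqrt L0) R V 0 x k - s 0|) +
            |Aw (nb (bx L0)) (Nat.sqrt L0) R V 1 x k - s 1|) =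
            (mm (nb (bx L0)) (fun k =>
              |Aw (nb (bx L0)) (Nat.sqrt L0) R V 2 (x + st 0) k - s 2|) +
            mm (nb (bx L0)) (fun k => |Aw (nb (bx L0)) (Nat.sqrt L0) R V 0 x k - s 0|)) +
            mm (nb (bx L0)) (fun k => |Aw (nb (bx L0)) (Nat.sqrt L0) R V 1 x k - s 1|) := by
          intro x hx
          rw [mm_add ((hLgt L0 V h2R hVU _ _ _ (qnk_Bo_st hx 0)).add
            (hLgt L0 V h2R hVU _ _ _ (qnk_Bo_in hx))) (hLgt L0 V h2R hVU _ _ _ (qnk_Bo_in hx)),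
            mm_add (hLgt L0 V h2R hVU _ _ _ (qnk_Bo_st hx 0))
            (hLgt L0 V h2R hVU _ _ _ (qnk_Bo_in hx))]
        show ∑ x ∈ Bo L0, mm (nb (bx L0)) (fun k =>
            (|Aw (nb (bx L0)) (Nat.sqrt L0) R V 2 (x + st 0) k - s 2| +
            |Aw (nb (bx L0)) (Nat.sqrt L0) R V 0 x k - s 0|) +
            |Aw (nb (bx L0)) (Nat.sqrt L0) R V 1 x k - s 1|) ≤ _
        rw [Finset.sum_congr rfl e5, Finset.sum_add_distrib, Finset.sum_add_distrib]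
        linarith [hAwst 2 0, hAw0 0, hAw0 1]
  -- the numbers `s i` are close to `σ dc d i`
  have hri : ∀ i : Fin 6, |s i - σ * dc d i| ≤ 10 * (8 * ε') := by
    intro i
    refine six_lin (r := fun i => s i - σ * dc d i) (fun j => ?_) ?_ ?_ ?_ i
    · have h3 : dc d (j + 3) = - dc d j := by
        have : st (j + 3) = - st j := by fin_cases j <;> rfl
        unfold dc
        rw [this]
        simp
        ring
      show |(s (j + 3) - σ * dc d (j + 3)) + (s j - σ * dc d j)| ≤ _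
      rw [h3, show (s (j + 3) - σ * -dc d j) + (s j - σ * dc d j) = s (j + 3) + s j by ring]
      exact hclo.1 j
    · have h3 : dc d 0 + dc d 2 = dc d 1 := by
        simp [dc, st]
      show |(s 0 - σ * dc d 0) + (s 2 - σ * dc d 2) - (s 1 - σ * dc d 1)| ≤ _
      rw [show (s 0 - σ * dc d 0) + (s 2 - σ * dc d 2) - (s 1 - σ * dc d 1) =
        s 0 + s 2 - s 1 by rw [← h3]; ring]
      exact hclo.2
    · exact hs1.trans (by linarith)
    · exact hs2.trans (by linarith)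
  refine ⟨R, η, L0, hR, hη, fun L hL V hV hdef i => ?_⟩
  obtain ⟨h2R, h625, hbad, hsum⟩ := hst L V hL hV hdef
  have h1 : ∀ x ∈ Bo L, mm (nb (bx L)) (fun k =>
      |Aw (nb (bx L)) (Nat.sqrt L) R V i x k - σ * dc d i|) ≤
      mm (nb (bx L)) (fun k => |Aw (nb (bx L)) (Nat.sqrt L) R V i x k - s i|) + 80 * ε' := by
    intro x hx
    have h2 := qnk_mono (hLgt L V h2R hV i (σ * dc d i) x (qnk_Bo_in hx))
      ((hLgt L V h2R hV i (s i) x (qnk_Bo_in hx)).add (Lg.const _ (80 * ε'))) (fun k => by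
        show |Aw (nb (bx L)) (Nat.sqrt L) R V i x k - σ * dc d i| ≤
          |Aw (nb (bx L)) (Nat.sqrt L) R V i x k - s i| + 80 * ε'
        have h3 := abs_add_le (Aw (nb (bx L)) (Nat.sqrt L) R V i x k - s i) (s i - σ * dc d i)
        rw [sub_add_sub_cancel] at h3
        linarith [hri i])
    rw [mm_add (hLgt L V h2R hV i (s i) x (qnk_Bo_in hx)) (Lg.const _ _), mm_const] at h2
    exact h2
  refine (Finset.sum_le_sum h1).trans ?_
  rw [Finset.sum_add_distrib, Finset.sum_const, nsmul_eq_mul]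
  have h2 : ∑ x ∈ Bo L, mm (nb (bx L)) (fun k =>
      |Aw (nb (bx L)) (Nat.sqrt L) R V i x k - s i|) ≤ ε' * (L : ℝ) ^ 2 := by
    refine le_trans ?_ (hsum i)
    refine Finset.sum_le_sum_of_subset_of_nonneg (fun x hx => qnk_Bo_in hx) ?_
    intro x hx _
    exact mm_nonneg (hLgt L V h2R hV i _ x hx) fun k => abs_nonneg _
  have h3 : ((Bo L).card : ℝ) * (80 * ε') ≤ (L : ℝ) ^ 2 * (80 * ε') :=
    mul_le_mul_of_nonneg_right (qnk_inn_le _ _) (by positivity)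
  have h4 : ε * (L : ℝ) ^ 2 = 81 * ε' * (L : ℝ) ^ 2 := by rw [hε']; ring
  rw [h4]
  linarith
/- END qnk -/

/- MODULE qnl
Deterministic `L1` Poincare inequality on the square `Q = inn (bx L) r = [r, L - 1 - r]^2`, with
the window average `fR`.  (1) `∑_Q |f - fR| ≤ R G`, `G` the first sum on the right: for
`z ∈ bx R` walk from `x` to `x + z` with `z.1` steps `st 0` and then `z.2` steps `st 1`.
(2) `∑_Q |fR - avf Q fR| ≤ (card Q)⁻¹ ∑_{x, x' ∈ Q} |fR x - fR x'| ≤ n ∑_Q (..)`,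
`n` the side of `Q`: walk along the row of `x` and then along the column of `x'`; every
edge is used by at most `n^3` pairs.  (3) `|avf Q fR - avf Q f| card Q ≤ ∑_Q |f - fR|`. -/
private theorem qnl_tel0 (f : ℤ × ℤ → ℝ) (x : ℤ × ℤ) (a : ℕ) :
    |f (x + ((a : ℤ), 0)) - f x| ≤ ∑ j ∈ Finset.range a,
      |f (x + ((j : ℤ), 0) + st 0) - f (x + ((j : ℤ), 0))| := by
  induction a with
  | zero =>
    have h0 : x + (((0 : ℕ) : ℤ), (0 : ℤ)) = x := add_zero x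
    rw [h0, sub_self, abs_zero]
    exact Finset.sum_nonneg fun _ _ => abs_nonneg _
  | succ a ih =>
    rw [Finset.sum_range_succ]
    have h1 : x + (((a + 1 : ℕ) : ℤ), (0 : ℤ)) = x + ((a : ℤ), 0) + st 0 := by
      have h2 : st 0 = (1, 0) := rfl
      rw [h2, add_assoc, Prod.mk_add_mk]
      push_cast
      rfl
    rw [h1]
    have h3 := abs_sub_le (f (x + ((a : ℤ), 0) + st 0)) (f (x + ((a : ℤ), 0))) (f x)
    linarith

private theorem qnl_tel1 (f : ℤ × ℤ → ℝ) (x : ℤ × ℤ) (a : ℕ) :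
    |f (x + (0, (a : ℤ))) - f x| ≤ ∑ j ∈ Finset.range a,
      |f (x + (0, (j : ℤ)) + st 1) - f (x + (0, (j : ℤ)))| := by
  induction a with
  | zero =>
    have h0 : x + ((0 : ℤ), ((0 : ℕ) : ℤ)) = x := add_zero x
    rw [h0, sub_self, abs_zero]
    exact Finset.sum_nonneg fun _ _ => abs_nonneg _
  | succ a ih =>
    rw [Finset.sum_range_succ]
    have h1 : x + ((0 : ℤ), ((a + 1 : ℕ) : ℤ)) = x + (0, (a : ℤ)) + st 1 := by
      have h2 : st 1 = (0, 1) := rfl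
      rw [h2, add_assoc, Prod.mk_add_mk]
      push_cast
      rfl
    rw [h1]
    have h3 := abs_sub_le (f (x + (0, (a : ℤ)) + st 1)) (f (x + (0, (a : ℤ)))) (f x)
    linarith

private theorem qnl_shift {Q A : Finset (ℤ × ℤ)} {g : ℤ × ℤ → ℝ} (hg : ∀ x, 0 ≤ g x)
    (w : ℤ × ℤ) (h : ∀ x ∈ Q, x + w ∈ A) : ∑ x ∈ Q, g (x + w) ≤ ∑ x ∈ A, g x := by
  classical
  have h1 : ∑ x ∈ Q, g (x + w) = ∑ y ∈ Q.image (fun x => x + w), g y := by
    rw [Finset.sum_image]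
    intro x _ y _ hxy
    exact add_right_cancel hxy
  rw [h1]
  refine Finset.sum_le_sum_of_subset_of_nonneg ?_ fun x _ _ => hg x
  intro y hy
  obtain ⟨x, hx, rfl⟩ := Finset.mem_image.1 hy
  exact h x hx

private theorem qnl_bx {R : ℕ} {z : ℤ × ℤ} : z ∈ bx R ↔
    0 ≤ z.1 ∧ z.1 < R ∧ 0 ≤ z.2 ∧ z.2 < R := by
  unfold bx
  rw [Finset.mem_product, Finset.mem_Ico, Finset.mem_Ico]
  tauto

private theorem qnl_card (R : ℕ) : ((bx R).card : ℝ) = (R : ℝ) ^ 2 := by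
  unfold bx
  rw [Finset.card_product, Int.card_Ico]
  push_cast
  simp [sq]

private theorem qnl_one (Q A : Finset (ℤ × ℤ)) (R : ℕ) (f : ℤ × ℤ → ℝ)
    (hA : ∀ x ∈ Q, ∀ z ∈ bx R, x + z ∈ A) {z : ℤ × ℤ} (hz : z ∈ bx R) :
    ∑ x ∈ Q, |f (x + z) - f x| ≤
      R * ∑ x ∈ A, (|f (x + st 0) - f x| + |f (x + st 1) - f x|) := by
  obtain ⟨h1, h2, h3, h4⟩ := qnl_bx.1 hz
  obtain ⟨a, ha⟩ := Int.eq_ofNat_of_zero_le h1
  obtain ⟨b, hb⟩ := Int.eq_ofNat_of_zero_le h3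
  have haR : a < R := by rw [ha] at h2; exact_mod_cast h2
  have hbR : b < R := by rw [hb] at h4; exact_mod_cast h4
  have hzz : z = ((a : ℤ), (b : ℤ)) := Prod.ext ha hb
  have hpt : ∀ x ∈ Q, |f (x + z) - f x| ≤
      ∑ j ∈ Finset.range a, |f (x + ((j : ℤ), 0) + st 0) - f (x + ((j : ℤ), 0))| +
      ∑ j ∈ Finset.range b, |f (x + ((a : ℤ), (j : ℤ)) + st 1) - f (x + ((a : ℤ), (j : ℤ)))| := by
    intro x _
    have e1 := qnl_tel0 f x a
    have e2 := qnl_tel1 f (x + ((a : ℤ), 0)) b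
    have e3 : ∀ j : ℤ, x + ((a : ℤ), 0) + (0, j) = x + ((a : ℤ), j) := by
      intro j
      have e5 : (((a : ℤ), (0 : ℤ)) : ℤ × ℤ) + (0, j) = ((a : ℤ), j) :=
        Prod.ext (add_zero _) (zero_add _)
      rw [add_assoc, e5]
    simp only [e3] at e2
    rw [hzz]
    have e4 := abs_sub_le (f (x + ((a : ℤ), (b : ℤ)))) (f (x + ((a : ℤ), 0))) (f x)
    linarith
  have hG0 : ∀ j ∈ Finset.range a,
      ∑ x ∈ Q, |f (x + ((j : ℤ), 0) + st 0) - f (x + ((j : ℤ), 0))| ≤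
        ∑ x ∈ A, |f (x + st 0) - f x| := by
    intro j hj
    refine qnl_shift (g := fun y => |f (y + st 0) - f y|) (fun _ => abs_nonneg _) _ ?_
    intro x hx
    refine hA x hx _ (qnl_bx.2 ?_)
    rw [Finset.mem_range] at hj
    simp only
    omega
  have hG1 : ∀ j ∈ Finset.range b,
      ∑ x ∈ Q, |f (x + ((a : ℤ), (j : ℤ)) + st 1) - f (x + ((a : ℤ), (j : ℤ)))| ≤
        ∑ x ∈ A, |f (x + st 1) - f x| := by
    intro j hj
    refine qnl_shift (g := fun y => |f (y + st 1) - f y|) (fun _ => abs_nonneg _) _ ?_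
    intro x hx
    refine hA x hx _ (qnl_bx.2 ?_)
    rw [Finset.mem_range] at hj
    simp only
    omega
  have n0 : 0 ≤ ∑ x ∈ A, |f (x + st 0) - f x| := Finset.sum_nonneg fun _ _ => abs_nonneg _
  have n1 : 0 ≤ ∑ x ∈ A, |f (x + st 1) - f x| := Finset.sum_nonneg fun _ _ => abs_nonneg _
  have haR' : (a : ℝ) ≤ R := by exact_mod_cast haR.le
  have hbR' : (b : ℝ) ≤ R := by exact_mod_cast hbR.le
  calc ∑ x ∈ Q, |f (x + z) - f x| ≤ ∑ x ∈ Q,
        (∑ j ∈ Finset.range a, |f (x + ((j : ℤ), 0) + st 0) - f (x + ((j : ℤ), 0))| +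
        ∑ j ∈ Finset.range b,
          |f (x + ((a : ℤ), (j : ℤ)) + st 1) - f (x + ((a : ℤ), (j : ℤ)))|) :=
        Finset.sum_le_sum hpt
    _ = (∑ j ∈ Finset.range a,
          ∑ x ∈ Q, |f (x + ((j : ℤ), 0) + st 0) - f (x + ((j : ℤ), 0))|) +
        ∑ j ∈ Finset.range b,
          ∑ x ∈ Q, |f (x + ((a : ℤ), (j : ℤ)) + st 1) - f (x + ((a : ℤ), (j : ℤ)))| := by
        rw [Finset.sum_add_distrib, Finset.sum_comm (s := Q), Finset.sum_comm (s := Q)]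
    _ ≤ (∑ _j ∈ Finset.range a, ∑ x ∈ A, |f (x + st 0) - f x|) +
        ∑ _j ∈ Finset.range b, ∑ x ∈ A, |f (x + st 1) - f x| :=
        add_le_add (Finset.sum_le_sum hG0) (Finset.sum_le_sum hG1)
    _ = a * (∑ x ∈ A, |f (x + st 0) - f x|) + b * ∑ x ∈ A, |f (x + st 1) - f x| := by
        rw [Finset.sum_const, Finset.sum_const, Finset.card_range, Finset.card_range,
          nsmul_eq_mul, nsmul_eq_mul]
    _ ≤ R * (∑ x ∈ A, |f (x + st 0) - f x|) + R * ∑ x ∈ A, |f (x + st 1) - f x| := by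
        gcongr
    _ = _ := by rw [Finset.sum_add_distrib, mul_add]

private theorem qnl_avg (Q A : Finset (ℤ × ℤ)) (R : ℕ) (hR : 0 < R) (f : ℤ × ℤ → ℝ)
    (hA : ∀ x ∈ Q, ∀ z ∈ bx R, x + z ∈ A) :
    ∑ x ∈ Q, |f x - ((R : ℝ) ^ 2)⁻¹ * ∑ z ∈ bx R, f (x + z)| ≤
      R * ∑ x ∈ A, (|f (x + st 0) - f x| + |f (x + st 1) - f x|) := by
  have hR' : (0 : ℝ) < (R : ℝ) ^ 2 := by positivity
  have hpt : ∀ x ∈ Q, |f x - ((R : ℝ) ^ 2)⁻¹ * ∑ z ∈ bx R, f (x + z)| ≤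
      ((R : ℝ) ^ 2)⁻¹ * ∑ z ∈ bx R, |f (x + z) - f x| := by
    intro x _
    have h1 : f x - ((R : ℝ) ^ 2)⁻¹ * ∑ z ∈ bx R, f (x + z) =
        - (((R : ℝ) ^ 2)⁻¹ * ∑ z ∈ bx R, (f (x + z) - f x)) := by
      rw [Finset.sum_sub_distrib, Finset.sum_const, nsmul_eq_mul, qnl_card]
      field_simp
      ring
    rw [h1, abs_neg, abs_mul, abs_of_pos (inv_pos.2 hR')]
    exact mul_le_mul_of_nonneg_left (Finset.abs_sum_le_sum_abs _ _) (inv_pos.2 hR').le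
  calc _ ≤ ∑ x ∈ Q, ((R : ℝ) ^ 2)⁻¹ * ∑ z ∈ bx R, |f (x + z) - f x| := Finset.sum_le_sum hpt
    _ = ((R : ℝ) ^ 2)⁻¹ * ∑ z ∈ bx R, ∑ x ∈ Q, |f (x + z) - f x| := by
        rw [← Finset.mul_sum, Finset.sum_comm]
    _ ≤ ((R : ℝ) ^ 2)⁻¹ * ∑ z ∈ bx R, (R * ∑ x ∈ A,
          (|f (x + st 0) - f x| + |f (x + st 1) - f x|)) := by
        refine mul_le_mul_of_nonneg_left (Finset.sum_le_sum fun z hz => ?_) (inv_pos.2 hR').le
        exact qnl_one Q A R f hA hz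
    _ = _ := by
        rw [Finset.sum_const, nsmul_eq_mul, qnl_card, ← mul_assoc, inv_mul_cancel₀ hR'.ne',
          one_mul]

private theorem qnl_line (F : ℤ → ℝ) (p q : ℤ) {a a' : ℤ} (ha : a ∈ Finset.Ico p q)
    (ha' : a' ∈ Finset.Ico p q) (hle : a ≤ a') :
    |F a' - F a| ≤ ∑ j ∈ Finset.Ico p q, |F (j + 1) - F j| := by
  rw [Finset.mem_Ico] at ha ha'
  obtain ⟨n, hn⟩ := Int.eq_ofNat_of_zero_le (sub_nonneg.2 hle)
  have h1 : ∀ n : ℕ, |F (a + n) - F a| ≤ ∑ j ∈ Finset.range n, |F (a + j + 1) - F (a + j)| := by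
    intro n
    induction n with
    | zero => simp
    | succ n ih =>
      rw [Finset.sum_range_succ]
      have h2 : a + ((n + 1 : ℕ) : ℤ) = a + n + 1 := by push_cast; ring
      rw [h2]
      have h3 := abs_sub_le (F (a + n + 1)) (F (a + n)) (F a)
      linarith
  have h2 : a' = a + n := by omega
  rw [h2]
  refine (h1 n).trans ?_
  have h3 : ∑ j ∈ Finset.range n, |F (a + j + 1) - F (a + j)| =
      ∑ y ∈ (Finset.range n).image (fun j : ℕ => a + (j : ℤ)), |F (y + 1) - F y| := by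
    rw [Finset.sum_image]
    intro x _ y _ hxy
    have h5 : a + (x : ℤ) = a + (y : ℤ) := hxy
    exact_mod_cast add_left_cancel h5
  rw [h3]
  refine Finset.sum_le_sum_of_subset_of_nonneg ?_ fun x _ _ => abs_nonneg _
  intro y hy
  obtain ⟨j, hj, rfl⟩ := Finset.mem_image.1 hy
  rw [Finset.mem_range] at hj
  rw [Finset.mem_Ico]
  constructor <;> omega

private theorem qnl_line' (F : ℤ → ℝ) (p q : ℤ) {a a' : ℤ} (ha : a ∈ Finset.Ico p q)
    (ha' : a' ∈ Finset.Ico p q) :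
    |F a - F a'| ≤ ∑ j ∈ Finset.Ico p q, |F (j + 1) - F j| := by
  rcases le_total a a' with h | h
  · rw [abs_sub_comm]
    exact qnl_line F p q ha ha' h
  · exact qnl_line F p q ha' ha h

private theorem qnl_sq (F : ℤ × ℤ → ℝ) (p q : ℤ) :
    ∑ x ∈ Finset.Ico p q ×ˢ Finset.Ico p q, |F x - avf (Finset.Ico p q ×ˢ Finset.Ico p q) F| ≤
      ((Finset.Ico p q).card : ℝ) * ∑ x ∈ Finset.Ico p q ×ˢ Finset.Ico p q,
        (|F (x + st 0) - F x| + |F (x + st 1) - F x|) := by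
  obtain ⟨I, hI⟩ : ∃ I : Finset ℤ, I = Finset.Ico p q := ⟨_, rfl⟩
  rw [← hI]
  rcases I.eq_empty_or_nonempty with h0 | hne
  · rw [h0]
    simp
  have hn : (0 : ℝ) < I.card := by exact_mod_cast hne.card_pos
  obtain ⟨n, hnn⟩ : ∃ n : ℝ, n = (I.card : ℝ) := ⟨_, rfl⟩
  rw [← hnn] at hn ⊢
  have hcard : (((I ×ˢ I).card : ℕ) : ℝ) = n * n := by
    rw [Finset.card_product, hnn]
    push_cast
    ring
  -- row and column sums
  obtain ⟨ro, hro⟩ : ∃ ro : ℤ → ℝ, ro = fun b => ∑ j ∈ I, |F ((j, b) + st 0) - F (j, b)| := ⟨_, rfl⟩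
  obtain ⟨co, hco⟩ : ∃ co : ℤ → ℝ, co = fun a => ∑ j ∈ I, |F ((a, j) + st 1) - F (a, j)| := ⟨_, rfl⟩
  have hs0 : ∀ j b : ℤ, ((j, b) : ℤ × ℤ) + st 0 = (j + 1, b) := by
    intro j b
    have : st 0 = (1, 0) := rfl
    rw [this, Prod.mk_add_mk, add_zero]
  have hs1 : ∀ a j : ℤ, ((a, j) : ℤ × ℤ) + st 1 = (a, j + 1) := by
    intro a j
    have : st 1 = (0, 1) := rfl
    rw [this, Prod.mk_add_mk, add_zero]
  have hpair : ∀ x ∈ I ×ˢ I, ∀ y ∈ I ×ˢ I, |F x - F y| ≤ ro x.2 + co y.1 := by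
    rintro ⟨a, b⟩ hx ⟨a', b'⟩ hy
    rw [Finset.mem_product] at hx hy
    have e1 : |F (a, b) - F (a', b)| ≤ ro b := by
      rw [hro]
      simp only [hs0]
      rw [hI]
      exact qnl_line' (fun j => F (j, b)) p q (hI ▸ hx.1) (hI ▸ hy.1)
    have e2 : |F (a', b) - F (a', b')| ≤ co a' := by
      rw [hco]
      simp only [hs1]
      rw [hI]
      exact qnl_line' (fun j => F (a', j)) p q (hI ▸ hx.2) (hI ▸ hy.2)
    exact (abs_sub_le _ _ _).trans (add_le_add e1 e2)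
  have hpt : ∀ x ∈ I ×ˢ I, |F x - avf (I ×ˢ I) F| ≤
      (n * n)⁻¹ * ∑ y ∈ I ×ˢ I, (ro x.2 + co y.1) := by
    intro x hx
    have h1 : F x - avf (I ×ˢ I) F = (n * n)⁻¹ * ∑ y ∈ I ×ˢ I, (F x - F y) := by
      unfold avf
      rw [Finset.sum_sub_distrib, Finset.sum_const, nsmul_eq_mul, hcard]
      field_simp
    rw [h1, abs_mul, abs_of_nonneg (by positivity)]
    refine mul_le_mul_of_nonneg_left ?_ (by positivity)
    refine (Finset.abs_sum_le_sum_abs _ _).trans (Finset.sum_le_sum fun y hy => ?_)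
    exact hpair x hx y hy
  have hsum0 : ∑ x ∈ I ×ˢ I, |F (x + st 0) - F x| = ∑ b ∈ I, ro b := by
    rw [Finset.sum_product_right, hro]
  have hsum1 : ∑ x ∈ I ×ˢ I, |F (x + st 1) - F x| = ∑ a ∈ I, co a := by
    rw [Finset.sum_product, hco]
  calc ∑ x ∈ I ×ˢ I, |F x - avf (I ×ˢ I) F|
      ≤ ∑ x ∈ I ×ˢ I, (n * n)⁻¹ * ∑ y ∈ I ×ˢ I, (ro x.2 + co y.1) := Finset.sum_le_sum hpt
    _ = (n * n)⁻¹ * ∑ x ∈ I ×ˢ I, ∑ y ∈ I ×ˢ I, (ro x.2 + co y.1) := by rw [← Finset.mul_sum]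
    _ = (n * n)⁻¹ * (n * n * (n * ∑ b ∈ I, ro b) + n * n * (n * ∑ a ∈ I, co a)) := by
        congr 1
        simp only [Finset.sum_add_distrib, Finset.sum_const, nsmul_eq_mul, hcard]
        congr 1
        · rw [← Finset.mul_sum]
          congr 1
          rw [Finset.sum_product]
          simp only [Finset.sum_const, nsmul_eq_mul, ← hnn]
        · congr 1
          rw [Finset.sum_product]
          simp only [Finset.sum_const, nsmul_eq_mul, ← hnn]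
          rw [← Finset.mul_sum]
    _ = n * (∑ b ∈ I, ro b + ∑ a ∈ I, co a) := by
        field_simp
    _ = _ := by rw [Finset.sum_add_distrib, hsum0, hsum1]

theorem poin_box (L r R : ℕ) (hR : 0 < R) (f : ℤ × ℤ → ℝ) (A : Finset (ℤ × ℤ))
    (hA : ∀ x ∈ inn (bx L) r, ∀ z ∈ bx R, x + z ∈ A) :
    ∑ x ∈ inn (bx L) r, |f x - avf (inn (bx L) r) f| ≤
      2 * R * ∑ x ∈ A, (|f (x + st 0) - f x| + |f (x + st 1) - f x|) +
      L * ∑ x ∈ inn (bx L) r,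
        (|((R : ℝ) ^ 2)⁻¹ * ∑ z ∈ bx R, (f (x + z + st 0) - f (x + z))| +
          |((R : ℝ) ^ 2)⁻¹ * ∑ z ∈ bx R, (f (x + z + st 1) - f (x + z))|) := by
  have hQ : inn (bx L) r =
      Finset.Ico (r : ℤ) ((L : ℤ) - r) ×ˢ Finset.Ico (r : ℤ) ((L : ℤ) - r) := by
    ext x
    rw [inn_bx, Finset.mem_product, Finset.mem_Ico, Finset.mem_Ico]
    constructor
    · rintro ⟨h1, h2, h3, h4⟩
      exact ⟨⟨h1, by linarith⟩, ⟨h3, by linarith⟩⟩
    · rintro ⟨⟨h1, h2⟩, ⟨h3, h4⟩⟩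
      exact ⟨h1, by linarith, h3, by linarith⟩
  obtain ⟨fR, hfR⟩ : ∃ fR : ℤ × ℤ → ℝ, fR = fun x => ((R : ℝ) ^ 2)⁻¹ * ∑ z ∈ bx R, f (x + z) :=
    ⟨_, rfl⟩
  have h1 : ∑ x ∈ inn (bx L) r, |f x - fR x| ≤
      R * ∑ x ∈ A, (|f (x + st 0) - f x| + |f (x + st 1) - f x|) := by
    rw [hfR]
    exact qnl_avg _ A R hR f hA
  have hd : ∀ (i : Fin 6) (x : ℤ × ℤ), fR (x + st i) - fR x =
      ((R : ℝ) ^ 2)⁻¹ * ∑ z ∈ bx R, (f (x + z + st i) - f (x + z)) := by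
    intro i x
    rw [hfR]
    simp only
    rw [← mul_sub, ← Finset.sum_sub_distrib]
    congr 1
    refine Finset.sum_congr rfl fun z _ => ?_
    rw [add_right_comm x (st i) z]
  obtain ⟨S, hS⟩ : ∃ S : ℝ, S = ∑ x ∈ inn (bx L) r,
      (|fR (x + st 0) - fR x| + |fR (x + st 1) - fR x|) := ⟨_, rfl⟩
  have hS0 : 0 ≤ S := by
    rw [hS]
    exact Finset.sum_nonneg fun _ _ => add_nonneg (abs_nonneg _) (abs_nonneg _)
  have h2 : ∑ x ∈ inn (bx L) r, |fR x - avf (inn (bx L) r) fR| ≤ L * S := by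
    have h3 := qnl_sq fR (r : ℤ) ((L : ℤ) - r)
    rw [← hQ, ← hS] at h3
    refine h3.trans (mul_le_mul_of_nonneg_right ?_ hS0)
    rw [Int.card_Ico]
    have h4 : ((L : ℤ) - r - r).toNat ≤ L := by omega
    exact_mod_cast h4
  have h3 : ∑ _x ∈ inn (bx L) r, |avf (inn (bx L) r) fR - avf (inn (bx L) r) f| ≤
      ∑ x ∈ inn (bx L) r, |f x - fR x| := by
    rw [Finset.sum_const, nsmul_eq_mul]
    unfold avf
    rw [← mul_sub, ← Finset.sum_sub_distrib, abs_mul, ← mul_assoc]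
    have h4 : ((inn (bx L) r).card : ℝ) * |((inn (bx L) r).card : ℝ)⁻¹| ≤ 1 := by
      rw [abs_of_nonneg (by positivity)]
      exact mul_inv_le_one
    have h5 : |∑ x ∈ inn (bx L) r, (fR x - f x)| ≤ ∑ x ∈ inn (bx L) r, |f x - fR x| := by
      refine (Finset.abs_sum_le_sum_abs _ _).trans (le_of_eq ?_)
      exact Finset.sum_congr rfl fun x _ => abs_sub_comm _ _
    calc _ ≤ 1 * |∑ x ∈ inn (bx L) r, (fR x - f x)| :=
          mul_le_mul_of_nonneg_right h4 (abs_nonneg _)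
      _ ≤ _ := by rw [one_mul]; exact h5
  have h4 : ∑ x ∈ inn (bx L) r, |f x - avf (inn (bx L) r) f| ≤
      ∑ x ∈ inn (bx L) r, |f x - fR x| + ∑ x ∈ inn (bx L) r, |fR x - avf (inn (bx L) r) fR| +
        ∑ _x ∈ inn (bx L) r, |avf (inn (bx L) r) fR - avf (inn (bx L) r) f| := by
    rw [← Finset.sum_add_distrib, ← Finset.sum_add_distrib]
    refine Finset.sum_le_sum fun x _ => ?_
    have e1 := abs_sub_le (f x) (fR x) (avf (inn (bx L) r) f)
    have e2 := abs_sub_le (fR x) (avf (inn (bx L) r) fR) (avf (inn (bx L) r) f)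
    linarith
  have h5 : S = ∑ x ∈ inn (bx L) r,
        (|((R : ℝ) ^ 2)⁻¹ * ∑ z ∈ bx R, (f (x + z + st 0) - f (x + z))| +
          |((R : ℝ) ^ 2)⁻¹ * ∑ z ∈ bx R, (f (x + z + st 1) - f (x + z))|) := by
    rw [hS]
    refine Finset.sum_congr rfl fun x _ => ?_
    rw [hd, hd]
  rw [← h5]
  linarith
/- END qnl -/

/- MODULE qnm
THE SLOPES.  Given `δ`: `ε = δ^2 / 16` (or so) in `sl5` for `d = (1,0)` and `d = (0,1)`, `V0`, `V1` from
`mm_near` for `bx L` with a small defect.  Energy: `mm_energy`, `Lim`.  For `fl`: pointwise on `K`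
(`mm_leK`) `fl ≤ card (Bo L) * Bad + (δ L)⁻¹ (2 R ∑_{x ∈ A} ∑_{i = 0, 1} (γ^M |∇_i V| +
|σ dc d i|) + L ∑_{x ∈ Bo L} ∑_{i = 0, 1} |Aw i x - σ dc d i|)`, `A = inn (bx L)
(2 Nat.sqrt L + 2)`: if `Bad ≥ 1` the first term suffices (`fl ≤ card (Bo L)`), if `Bad = 0` all
gates are `1`; `poin_box` for `f x = V x k - σ dl d x`.  In mean: `mm_Bad`, `mm_gate`
(`t = 1`, the energy is `≤ C L^2`), `sl5`; `R` is fixed and `L → ∞`. -/
private theorem qnm_dl (d : ℝ × ℝ) (x : ℤ × ℤ) (i : Fin 6) : dl d (x + st i) = dl d x + dc d i := by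
  unfold dl dc
  simp only [Prod.fst_add, Prod.snd_add]
  push_cast
  ring

private theorem qnm_in {L R : ℕ} (hR : 2 * R ≤ Nat.sqrt L) {x z : ℤ × ℤ}
    (hx : x ∈ inn (bx L) (3 * Nat.sqrt L + 3)) (hz : z ∈ bx R) :
    x + z ∈ inn (bx L) (2 * Nat.sqrt L + 2) := by
  rw [mem_inn] at hx ⊢
  intro y hy
  refine hx y ?_
  have h1 : dn (y - x) ≤ dn (y - (x + z)) + dn z := by
    have := dn_add_le (y - (x + z)) z
    rwa [show y - (x + z) + z = y - x by abel] at this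
  have h2 : dn z ≤ 2 * R := by
    have := bx_ba R hz
    rw [mem_ba] at this
    simpa using this
  have h3 : (2 * R : ℤ) ≤ (Nat.sqrt L : ℕ) := by exact_mod_cast hR
  push_cast at hy ⊢
  linarith

private theorem qnm_in2 {L : ℕ} {x : ℤ × ℤ} (hx : x ∈ inn (bx L) (2 * Nat.sqrt L + 2)) :
    x ∈ inn (bx L) (Nat.sqrt L + 2) := by
  rw [mem_inn] at hx ⊢
  intro y hy
  refine hx y ?_
  push_cast at hy ⊢
  have : (0 : ℤ) ≤ (Nat.sqrt L : ℕ) := Int.natCast_nonneg _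
  linarith

/-- gated gradient -/
private def qnm_g (L : ℕ) (V : ℤ × ℤ → (nb (bx L) → ℝ) → ℝ) (i : Fin 6) (x : ℤ × ℤ)
    (k : nb (bx L) → ℝ) : ℝ :=
  gt (Nat.sqrt L) x i (gl (nb (bx L)) (fun _ => 0) k) * |V (x + st i) k - V x k|

private theorem qnm_g0 (L : ℕ) (V : ℤ × ℤ → (nb (bx L) → ℝ) → ℝ) (i : Fin 6) (x : ℤ × ℤ)
    (k : nb (bx L) → ℝ) : 0 ≤ qnm_g L V i x k := by
  unfold qnm_g
  refine mul_nonneg ?_ (abs_nonneg _)
  rcases gt_mem (Nat.sqrt L) x i (gl (nb (bx L)) (fun _ => 0) k) with h | h <;> rw [h] <;> norm_num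

private theorem qnm_pt {σ δ : ℝ} (hδ : 0 < δ) {L R : ℕ} (hL : 0 < L) (hR : 0 < R)
    (h2R : 2 * R ≤ Nat.sqrt L) (d : ℝ × ℝ) (V : ℤ × ℤ → (nb (bx L) → ℝ) → ℝ)
    (k : nb (bx L) → ℝ) : fl σ δ L d V k ≤ (L : ℝ) ^ 2 * Bad L k + (δ * L)⁻¹ *
      (2 * R * ∑ x ∈ inn (bx L) (2 * Nat.sqrt L + 2),
        ((qnm_g L V 0 x k + |σ * dc d 0|) + (qnm_g L V 1 x k + |σ * dc d 1|)) +
      L * ∑ x ∈ Bo L, (|Aw (nb (bx L)) (Nat.sqrt L) R V 0 x k - σ * dc d 0| +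
        |Aw (nb (bx L)) (Nat.sqrt L) R V 1 x k - σ * dc d 1|)) := by
  have hLr : (0 : ℝ) < L := by exact_mod_cast hL
  have hRr : (0 : ℝ) < R := by exact_mod_cast hR
  have hδL : 0 < δ * L := mul_pos hδ hLr
  have hS1 : 0 ≤ ∑ x ∈ inn (bx L) (2 * Nat.sqrt L + 2),
        ((qnm_g L V 0 x k + |σ * dc d 0|) + (qnm_g L V 1 x k + |σ * dc d 1|)) :=
    Finset.sum_nonneg fun x _ => add_nonneg (add_nonneg (qnm_g0 _ _ _ _ _) (abs_nonneg _))
      (add_nonneg (qnm_g0 _ _ _ _ _) (abs_nonneg _))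
  have hS2 : 0 ≤ ∑ x ∈ Bo L, (|Aw (nb (bx L)) (Nat.sqrt L) R V 0 x k - σ * dc d 0| +
        |Aw (nb (bx L)) (Nat.sqrt L) R V 1 x k - σ * dc d 1|) :=
    Finset.sum_nonneg fun x _ => add_nonneg (abs_nonneg _) (abs_nonneg _)
  by_cases hk : Bad L k = 0
  · rw [hk, mul_zero, zero_add]
    set f : ℤ × ℤ → ℝ := fun x => V x k - σ * dl d x with hf
    have hp := poin_box L (3 * Nat.sqrt L + 3) R hR f (inn (bx L) (2 * Nat.sqrt L + 2))
      (fun x hx z hz => qnm_in h2R hx hz)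
    have hfd : ∀ (x : ℤ × ℤ) (i : Fin 6), f (x + st i) - f x =
        (V (x + st i) k - V x k) - σ * dc d i := by
      intro x i
      show (V (x + st i) k - σ * dl d (x + st i)) - (V x k - σ * dl d x) = _
      rw [qnm_dl]
      ring
    have hA : ∀ (x : ℤ × ℤ), x ∈ inn (bx L) (2 * Nat.sqrt L + 2) → ∀ i : Fin 6,
        |f (x + st i) - f x| ≤ qnm_g L V i x k + |σ * dc d i| := by
      intro x hx i
      rw [hfd]
      unfold qnm_g
      rw [qnk_gate hk (qnm_in2 hx) i, one_mul]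
      exact abs_sub _ _
    have hB : ∀ (x : ℤ × ℤ), x ∈ Bo L → ∀ i : Fin 6,
        ((R : ℝ) ^ 2)⁻¹ * ∑ z ∈ bx R, (f (x + z + st i) - f (x + z)) =
          Aw (nb (bx L)) (Nat.sqrt L) R V i x k - σ * dc d i := by
      intro x hx i
      rw [qnk_Aw h2R V i (qnk_Bo_in hx) hk]
      simp only [hfd]
      rw [Finset.sum_sub_distrib, Finset.sum_const, nsmul_eq_mul, qnk_card, mul_sub,
        ← mul_assoc ((R : ℝ) ^ 2)⁻¹, inv_mul_cancel₀ (by positivity), one_mul]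
    have h1 : fl σ δ L d V k ≤ (δ * L)⁻¹ * ∑ x ∈ inn (bx L) (3 * Nat.sqrt L + 3),
        |f x - avf (inn (bx L) (3 * Nat.sqrt L + 3)) f| := by
      rw [Finset.mul_sum]
      show ∑ x ∈ Bo L, min 1 (|(V x k - σ * dl d x) -
        avf (Bo L) (fun z => V z k - σ * dl d z)| / (δ * L)) ≤ _
      refine Finset.sum_le_sum fun x _ => ?_
      refine (min_le_right _ _).trans (le_of_eq ?_)
      rw [div_eq_inv_mul]
      rfl
    refine h1.trans (mul_le_mul_of_nonneg_left (hp.trans ?_) (by positivity))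
    refine add_le_add (mul_le_mul_of_nonneg_left (Finset.sum_le_sum fun x hx => ?_) (by positivity))
      (mul_le_mul_of_nonneg_left (Finset.sum_le_sum fun x hx => ?_) (by positivity))
    · exact add_le_add (hA x hx 0) (hA x hx 1)
    · rw [hB x hx 0, hB x hx 1]
  · have h1 : fl σ δ L d V k ≤ (L : ℝ) ^ 2 := by
      unfold fl
      calc ∑ x ∈ Bo L, min 1 (|(V x k - σ * dl d x) -
            avf (Bo L) (fun z => V z k - σ * dl d z)| / (δ * L))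
          ≤ ∑ x ∈ Bo L, (1 : ℝ) := Finset.sum_le_sum fun x _ => min_le_left _ _
        _ = ((Bo L).card : ℝ) := by simp
        _ ≤ (L : ℝ) ^ 2 := qnk_inn_le _ _
    have h2 := mul_le_mul_of_nonneg_left (qnk_one hk) (sq_nonneg (L : ℝ))
    have h3 : 0 ≤ (δ * L)⁻¹ *
      (2 * R * ∑ x ∈ inn (bx L) (2 * Nat.sqrt L + 2),
        ((qnm_g L V 0 x k + |σ * dc d 0|) + (qnm_g L V 1 x k + |σ * dc d 1|)) +
      L * ∑ x ∈ Bo L, (|Aw (nb (bx L)) (Nat.sqrt L) R V 0 x k - σ * dc d 0| +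
        |Aw (nb (bx L)) (Nat.sqrt L) R V 1 x k - σ * dc d 1|)) := by positivity
    linarith

private theorem qnm_dir {σ δ : ℝ} (hδ : 0 < δ) {L R : ℕ} (hL : 0 < L) (hR : 0 < R)
    (h2R : 2 * R ≤ Nat.sqrt L) {d : ℝ × ℝ} (hd0 : |dc d 0| ≤ 1) (hd1 : |dc d 1| ≤ 1)
    {V : ℤ × ℤ → (nb (bx L) → ℝ) → ℝ} (hV : UF (bx L) V) {C : ℝ}
    (hC : ∑ x ∈ inn (bx L) (2 * Nat.sqrt L + 2), ∑ i, (1 : ℝ) *
      mm (nb (bx L)) (fun k => gt (Nat.sqrt L) x i (gl (nb (bx L)) (fun _ => 0) k) *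
        |V (x + st i) k - V x k|) ≤ C) {S : ℝ}
    (hS : ∀ i : Fin 6, ∑ x0 ∈ Bo L,
        mm (nb (bx L)) (fun k => |Aw (nb (bx L)) (Nat.sqrt L) R V i x0 k - σ * dc d i|) ≤ S) :
    mm (nb (bx L)) (fl σ δ L d V) ≤ (L : ℝ) ^ 2 * mm (nb (bx L)) (Bad L) + (δ * L)⁻¹ *
      (2 * R * (C + 2 * |σ| * (L : ℝ) ^ 2) + L * (S + S)) := by
  have hgLg : ∀ (i : Fin 6), ∀ x ∈ inn (bx L) (2 * Nat.sqrt L + 2),
      Lg (nb (bx L)) (qnm_g L V i x) := fun i x hx =>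
    (gt_Lg i (qnk_win (qnm_in2 hx))).mul ((hV.wf.Lg_v _).sub (hV.wf.Lg_v _)).abs
  have hALg : ∀ (i : Fin 6), ∀ x ∈ Bo L, Lg (nb (bx L))
      (fun k => |Aw (nb (bx L)) (Nat.sqrt L) R V i x k - σ * dc d i|) := fun i x hx =>
    ((qnk_LgA h2R hV i (qnk_Bo_in hx)).sub (Lg.const _ _)).abs
  have hu : ∀ x ∈ inn (bx L) (2 * Nat.sqrt L + 2), Lg (nb (bx L)) (fun k =>
      (qnm_g L V 0 x k + |σ * dc d 0|) + (qnm_g L V 1 x k + |σ * dc d 1|)) := fun x hx =>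
    ((hgLg 0 x hx).add (Lg.const _ _)).add ((hgLg 1 x hx).add (Lg.const _ _))
  have hv : ∀ x ∈ Bo L, Lg (nb (bx L)) (fun k =>
      |Aw (nb (bx L)) (Nat.sqrt L) R V 0 x k - σ * dc d 0| +
        |Aw (nb (bx L)) (Nat.sqrt L) R V 1 x k - σ * dc d 1|) := fun x hx =>
    (hALg 0 x hx).add (hALg 1 x hx)
  have hU := Lg.sum (inn (bx L) (2 * Nat.sqrt L + 2)) hu
  have hVv := Lg.sum (Bo L) hv
  have hP := (hU.smul (2 * (R : ℝ))).add (hVv.smul (L : ℝ))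
  have hT := ((qnk_Lg L).smul ((L : ℝ) ^ 2)).add (hP.smul ((δ * L)⁻¹))
  have h1 := qnk_mono (fl_Lg hV σ δ d) hT (qnm_pt hδ hL hR h2R d V)
  refine h1.trans ?_
  rw [mm_add ((qnk_Lg L).smul ((L : ℝ) ^ 2)) (hP.smul ((δ * L)⁻¹)), mm_smul (qnk_Lg L),
    mm_smul hP, mm_add (hU.smul (2 * (R : ℝ))) (hVv.smul (L : ℝ)), mm_smul hU, mm_smul hVv,
    mm_sum _ hu, mm_sum _ hv]
  have hLr : (0 : ℝ) < L := by exact_mod_cast hL
  have hin : (0 : ℝ) ≤ (δ * L)⁻¹ := by positivity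
  refine add_le_add le_rfl (mul_le_mul_of_nonneg_left (add_le_add
    (mul_le_mul_of_nonneg_left ?_ (by positivity))
    (mul_le_mul_of_nonneg_left ?_ hLr.le)) hin)
  · have e1 : ∀ x ∈ inn (bx L) (2 * Nat.sqrt L + 2), mm (nb (bx L)) (fun k =>
        (qnm_g L V 0 x k + |σ * dc d 0|) + (qnm_g L V 1 x k + |σ * dc d 1|)) ≤
        (∑ i, (1 : ℝ) * mm (nb (bx L)) (fun k =>
          gt (Nat.sqrt L) x i (gl (nb (bx L)) (fun _ => 0) k) *
            |V (x + st i) k - V x k|)) + 2 * |σ| := by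
      intro x hx
      rw [mm_add ((hgLg 0 x hx).add (Lg.const _ _)) ((hgLg 1 x hx).add (Lg.const _ _)),
        mm_add (hgLg 0 x hx) (Lg.const _ _), mm_add (hgLg 1 x hx) (Lg.const _ _),
        mm_const, mm_const]
      have a0 : |σ * dc d 0| ≤ |σ| := by
        rw [abs_mul]
        exact mul_le_of_le_one_right (abs_nonneg _) hd0
      have a1 : |σ * dc d 1| ≤ |σ| := by
        rw [abs_mul]
        exact mul_le_of_le_one_right (abs_nonneg _) hd1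
      have a2 : mm (nb (bx L)) (qnm_g L V 0 x) + mm (nb (bx L)) (qnm_g L V 1 x) ≤
          ∑ i, (1 : ℝ) * mm (nb (bx L)) (fun k =>
            gt (Nat.sqrt L) x i (gl (nb (bx L)) (fun _ => 0) k) *
              |V (x + st i) k - V x k|) := by
        rw [Fin.sum_univ_six]
        have n : ∀ i : Fin 6, 0 ≤ mm (nb (bx L)) (fun k =>
            gt (Nat.sqrt L) x i (gl (nb (bx L)) (fun _ => 0) k) *
              |V (x + st i) k - V x k|) := fun i =>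
          mm_nonneg (hgLg i x hx) (qnm_g0 L V i x)
        have e : ∀ i : Fin 6, mm (nb (bx L)) (qnm_g L V i x) = mm (nb (bx L)) (fun k =>
            gt (Nat.sqrt L) x i (gl (nb (bx L)) (fun _ => 0) k) *
              |V (x + st i) k - V x k|) := fun i => rfl
        rw [e 0, e 1]
        linarith [n 2, n 3, n 4, n 5]
      linarith
    refine (Finset.sum_le_sum e1).trans ?_
    rw [Finset.sum_add_distrib, Finset.sum_const, nsmul_eq_mul]
    have e2 : ((inn (bx L) (2 * Nat.sqrt L + 2)).card : ℝ) * (2 * |σ|) ≤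
        (L : ℝ) ^ 2 * (2 * |σ|) :=
      mul_le_mul_of_nonneg_right (qnk_inn_le _ _) (by positivity)
    linarith
  · have e1 : ∀ x ∈ Bo L, mm (nb (bx L)) (fun k =>
        |Aw (nb (bx L)) (Nat.sqrt L) R V 0 x k - σ * dc d 0| +
        |Aw (nb (bx L)) (Nat.sqrt L) R V 1 x k - σ * dc d 1|) =
        mm (nb (bx L)) (fun k => |Aw (nb (bx L)) (Nat.sqrt L) R V 0 x k - σ * dc d 0|) +
        mm (nb (bx L)) (fun k => |Aw (nb (bx L)) (Nat.sqrt L) R V 1 x k - σ * dc d 1|) :=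
      fun x hx => mm_add (hALg 0 x hx) (hALg 1 x hx)
    rw [Finset.sum_congr rfl e1, Finset.sum_add_distrib]
    exact add_le_add (hS 0) (hS 1)

theorem slopes {σ : ℝ} (hσ : Lim σ) : Sl σ := by
  intro δ hδ
  obtain ⟨Cg, hCg, hgate⟩ := mm_gate
  obtain ⟨Cb, hCb, hBad⟩ := mm_Bad
  obtain ⟨Ct, hCt, htB⟩ := tB_bd
  obtain ⟨L1, hL1⟩ := hσ (δ / 2) (by positivity)
  obtain ⟨R1, η1, L2, hR1, hη1, hs1⟩ := sl5 hσ (1, 0) (show 0 < δ ^ 2 / 8 by positivity)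
  obtain ⟨R2, η2, L3, hR2, hη2, hs2⟩ := sl5 hσ (0, 1) (show 0 < δ ^ 2 / 8 by positivity)
  obtain ⟨L4, hL4⟩ := qnk_small Cb (show (0 : ℝ) < δ / 4 by positivity)
  have hq1 : qd (1, 0) = 2 := by
    unfold qd dc
    rw [Fin.sum_univ_six]
    simp [st]
    norm_num
  have hq2 : qd (0, 1) = 2 := by
    unfold qd dc
    rw [Fin.sum_univ_six]
    simp [st]
    norm_num
  have hal : ∀ L : ℕ, 0 < L → ∀ d, 0 ≤ tB (bx L) (Nat.sqrt L) d := by
    intro L hL d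
    have hne : (bx L).Nonempty := by
      refine ⟨(0, 0), ?_⟩
      simp [bx, hL]
    exact (htB (bx L) hne (Nat.sqrt L) d).1
  have hσδ : 0 ≤ σ + δ / 2 := by
    have h1 := (abs_le.1 (hL1 (L1 + 1) (by omega) (1, 0))).2
    have h2 : 0 ≤ al (L1 + 1) (1, 0) := div_nonneg (hal _ (by omega) _) (by positivity)
    rw [hq1] at h1
    linarith
  set s : ℝ := σ + δ / 2 with hs
  -- thresholds
  obtain ⟨L5, hL5⟩ := exists_nat_ge ((1 + 2 * Real.sqrt s) * 2 / δ)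
  set K : ℝ := Cg * Real.sqrt (2 * (σ + δ)) + 2 * |σ| with hK
  have hK0 : 0 ≤ K := by positivity
  obtain ⟨L6, hL6⟩ := exists_nat_ge (8 * (R1 + R2 : ℝ) * K / δ ^ 2)
  refine ⟨max (max (max L1 L2) (max L3 L4)) (max (max L5 L6)
    (max ((2 * R1) ^ 2) (max ((2 * R2) ^ 2) 625))), fun L hL => ?_⟩
  simp only [max_le_iff] at hL
  obtain ⟨⟨⟨g1, g2⟩, ⟨g3, g4⟩⟩, ⟨⟨g5, g6⟩, ⟨g7, ⟨g8, g9⟩⟩⟩⟩ := hL
  have hL0 : 0 < L := by omega
  have hLr : (0 : ℝ) < L := by exact_mod_cast hL0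
  have hLr1 : (1 : ℝ) ≤ L := by exact_mod_cast hL0
  have hne : (bx L).Nonempty := by
    refine ⟨(0, 0), ?_⟩
    simp [bx, hL0]
  set ε₂ : ℝ := min 1 (min (η1 / 2) (η2 / 2)) with hε₂
  have hε₂0 : 0 < ε₂ := lt_min one_pos (lt_min (by positivity) (by positivity))
  have hε₂1 : ε₂ ≤ 1 := min_le_left _ _
  have hε₂a : ε₂ ≤ η1 / 2 := (min_le_right _ _).trans (min_le_left _ _)
  have hε₂b : ε₂ ≤ η2 / 2 := (min_le_right _ _).trans (min_le_right _ _)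
  obtain ⟨V0, V1, hV0, hV1, hnear⟩ := mm_near hne (Nat.sqrt L) hε₂0
  have hen : ∀ d : ℝ × ℝ, mm (nb (bx L)) (en (nb (bx L)) (bx L) (d.1 • V0 + d.2 • V1)) ≤
      (σ + δ) * qd d * (L : ℝ) ^ 2 := by
    intro d
    set V := d.1 • V0 + d.2 • V1 with hV
    have hVU : UF (bx L) V := UF.comb hV0 hV1 d.1 d.2
    set q := qd d with hq
    have hq0 : 0 ≤ q := by
      rw [hq]
      unfold qd
      exact mul_nonneg (by norm_num) (Finset.sum_nonneg fun i _ => sq_nonneg _)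
    set T := tB (bx L) (Nat.sqrt L) d with hT
    have hT0 : 0 ≤ T := hal L hL0 d
    have hTu : T ≤ s * q * (L : ℝ) ^ 2 := by
      have h1 := (abs_le.1 (hL1 L g1 d)).2
      have h2 : al L d = T / (L : ℝ) ^ 2 := rfl
      rw [h2] at h1
      have h3 : T / (L : ℝ) ^ 2 ≤ s * q := by rw [hs]; linarith
      rwa [div_le_iff₀ (by positivity)] at h3
    have hdef := hnear d
    have hup := mm_up hVU.wf (Finset.Subset.refl _) (Nat.sqrt L) d
    have hmE := mm_energy hVU.wf (Finset.Subset.refl _) (Nat.sqrt L) d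
    set J := mm (nb (bx L)) (Jf (nb (bx L)) (fun _ => 0) (bx L) (Nat.sqrt L) d V) with hJ
    have hD0 : 0 ≤ T - J := by linarith
    have hD1 : T - J ≤ q := hdef.trans (mul_le_of_le_one_left hq0 hε₂1)
    have h4 := (abs_le.1 hmE).2
    have h5 : Real.sqrt (T * (T - J)) ≤ q * L * Real.sqrt s := by
      rw [Real.sqrt_le_left (by positivity)]
      have h6 := Real.sq_sqrt hσδ
      calc T * (T - J) ≤ (s * q * (L : ℝ) ^ 2) * q := mul_le_mul hTu hD1 hD0 (by positivity)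
        _ = (q * L * Real.sqrt s) ^ 2 := by rw [mul_pow, h6]; ring
    have h7 : (1 + 2 * Real.sqrt s) * 2 / δ ≤ L := hL5.trans (by exact_mod_cast g5)
    rw [div_le_iff₀ hδ] at h7
    have h8 : 1 + 2 * (L : ℝ) * Real.sqrt s ≤ δ / 2 * (L : ℝ) ^ 2 := by
      have h9 : (L : ℝ) * ((1 + 2 * Real.sqrt s) * 2) ≤ (L : ℝ) * (L * δ) :=
        mul_le_mul_of_nonneg_left h7 hLr.le
      nlinarith [Real.sqrt_nonneg s]
    have h9 : q * (1 + 2 * (L : ℝ) * Real.sqrt s) ≤ q * (δ / 2 * (L : ℝ) ^ 2) :=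
      mul_le_mul_of_nonneg_left h8 hq0
    have h10 : (σ + δ) * q * (L : ℝ) ^ 2 = s * q * (L : ℝ) ^ 2 + q * (δ / 2 * (L : ℝ) ^ 2) := by
      rw [hs]; ring
    rw [h10]
    linarith
  -- the truncated deviations
  have hfl : ∀ (d : ℝ × ℝ) (V : ℤ × ℤ → (nb (bx L) → ℝ) → ℝ) (R : ℕ), UF (bx L) V → 0 < R →
      2 * R ≤ Nat.sqrt L → |dc d 0| ≤ 1 → |dc d 1| ≤ 1 → qd d = 2 →
      (R : ℝ) ≤ R1 + R2 →
      mm (nb (bx L)) (en (nb (bx L)) (bx L) V) ≤ (σ + δ) * qd d * (L : ℝ) ^ 2 →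
      (∀ i : Fin 6, ∑ x0 ∈ Bo L,
        mm (nb (bx L)) (fun k => |Aw (nb (bx L)) (Nat.sqrt L) R V i x0 k - σ * dc d i|) ≤
          δ ^ 2 / 8 * (L : ℝ) ^ 2) →
      mm (nb (bx L)) (fl σ δ L d V) ≤ δ * (L : ℝ) ^ 2 := by
    intro d V R hV hR h2R hd0 hd1 hqd hRle hE hS
    have hA : inn (bx L) (2 * Nat.sqrt L + 2) ⊆ inn (bx L) (Nat.sqrt L + 1) := by
      intro x hx
      rw [mem_inn] at hx ⊢
      intro y hy
      refine hx y ?_
      push_cast at hy ⊢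
      have : (0 : ℤ) ≤ (Nat.sqrt L : ℕ) := Int.natCast_nonneg _
      linarith
    have hg := (hgate (nb (bx L)) (bx L) V hV.wf (Nat.sqrt L) 0 (Nat.zero_le _)
      (inn (bx L) (2 * Nat.sqrt L + 2)) hA (fun _ => 1) (fun _ => zero_le_one)).2
    have hg2 : Cg * Real.sqrt (∑ x ∈ inn (bx L) (2 * Nat.sqrt L + 2), (1 : ℝ) ^ 2) *
        Real.sqrt (mm (nb (bx L)) (en (nb (bx L)) (bx L) V)) ≤
        Cg * Real.sqrt (2 * (σ + δ)) * (L : ℝ) ^ 2 := by
      have a1 : Real.sqrt (∑ x ∈ inn (bx L) (2 * Nat.sqrt L + 2), (1 : ℝ) ^ 2) ≤ L := by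
        rw [Real.sqrt_le_left hLr.le]
        simp only [one_pow, Finset.sum_const, nsmul_eq_mul, mul_one]
        exact qnk_inn_le _ _
      have a2 : Real.sqrt (mm (nb (bx L)) (en (nb (bx L)) (bx L) V)) ≤
          Real.sqrt (2 * (σ + δ)) * L := by
        rw [Real.sqrt_le_left (by positivity), mul_pow, Real.sq_sqrt (by rw [hs] at hσδ; linarith)]
        rw [hqd] at hE
        linarith
      calc Cg * Real.sqrt (∑ x ∈ inn (bx L) (2 * Nat.sqrt L + 2), (1 : ℝ) ^ 2) *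
          Real.sqrt (mm (nb (bx L)) (en (nb (bx L)) (bx L) V))
          ≤ (Cg * L) * (Real.sqrt (2 * (σ + δ)) * L) :=
            mul_le_mul (mul_le_mul_of_nonneg_left a1 hCg) a2 (Real.sqrt_nonneg _) (by positivity)
        _ = _ := by ring
    have hm := qnm_dir hδ hL0 hR h2R hd0 hd1 hV (hg.trans hg2) hS
    refine hm.trans ?_
    have hb1 : mm (nb (bx L)) (Bad L) ≤ δ / 4 := (hBad L).trans (hL4 L g4)
    have hb2 : (L : ℝ) ^ 2 * mm (nb (bx L)) (Bad L) ≤ (L : ℝ) ^ 2 * (δ / 4) :=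
      mul_le_mul_of_nonneg_left hb1 (sq_nonneg _)
    have hK1 : 8 * (R1 + R2 : ℝ) * K / δ ^ 2 ≤ L := hL6.trans (by exact_mod_cast g6)
    rw [div_le_iff₀ (by positivity)] at hK1
    have hK2 : 8 * (R : ℝ) * K ≤ L * δ ^ 2 := by
      have : (R : ℝ) * K ≤ (R1 + R2) * K := mul_le_mul_of_nonneg_right hRle hK0
      linarith
    have e1 : (δ * L)⁻¹ * (2 * R * (Cg * Real.sqrt (2 * (σ + δ)) * (L : ℝ) ^ 2 +
        2 * |σ| * (L : ℝ) ^ 2) + L * (δ ^ 2 / 8 * (L : ℝ) ^ 2 + δ ^ 2 / 8 * (L : ℝ) ^ 2)) =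
        2 * R * K * L / δ + δ / 4 * (L : ℝ) ^ 2 := by
      rw [hK]
      field_simp
      ring
    rw [e1]
    have e2 : 2 * R * K * L / δ ≤ δ / 4 * (L : ℝ) ^ 2 := by
      rw [div_le_iff₀ hδ]
      have := mul_le_mul_of_nonneg_left hK2 hLr.le
      linarith
    have e3 : 0 ≤ δ / 4 * (L : ℝ) ^ 2 := by positivity
    linarith
  refine ⟨V0, V1, hV0, hV1, hen, ?_, ?_⟩
  · have hV : V0 = ((1, 0) : ℝ × ℝ).1 • V0 + ((1, 0) : ℝ × ℝ).2 • V1 := by simp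
    have hdef := hnear (1, 0)
    rw [← hV, hq1] at hdef
    have hE := hen (1, 0)
    rw [← hV] at hE
    refine hfl (1, 0) V0 R1 hV0 hR1 (by rw [Nat.le_sqrt']; exact g7) (by simp [dc, st])
      (by simp [dc, st]) hq1 (by linarith [Nat.cast_nonneg (α := ℝ) R2]) hE ?_
    refine hs1 L g2 V0 hV0 (hdef.trans ?_)
    have h1 := mul_le_mul_of_nonneg_left (one_le_pow₀ (n := 2) hLr1) hη1.le
    linarith
  · have hV : V1 = ((0, 1) : ℝ × ℝ).1 • V0 + ((0, 1) : ℝ × ℝ).2 • V1 := by simp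
    have hdef := hnear (0, 1)
    rw [← hV, hq2] at hdef
    have hE := hen (0, 1)
    rw [← hV] at hE
    refine hfl (0, 1) V1 R2 hV1 hR2 (by rw [Nat.le_sqrt']; exact g8) (by simp [dc, st])
      (by simp [dc, st]) hq2 (by linarith [Nat.cast_nonneg (α := ℝ) R1]) hE ?_
    refine hs2 L g3 V1 hV1 (hdef.trans ?_)
    have h1 := mul_le_mul_of_nonneg_left (one_le_pow₀ (n := 2) hLr1) hη2.le
    linarith
/- END qnm -/

end Pool.Agent.Hmk
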