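import Pool.Agent.Hmk.Defs
import Pool.Agent.Hom3.PlN

/-!
# Hmk: Prékopa-Leindler and the four functions theorem on `ι → ℝ`
-/

set_option autoImplicit false

open MeasureTheory Set
open scoped ENNReal

noncomputable section

namespace Pool.Agent.Hmk

/- MODULE pa
Prékopa-Leindler for a finite index type: transport `Hom3.pl_n` along `Fintype.equivFin ι`
(`volume_measurePreserving_piCongrLeft`, `MeasurableEquiv.piCongrLeft`, linear). -/
private theorem pa_app {ι : Type*} {n : ℕ} (e : Fin n ≃ ι) (x : Fin n → ℝ) (i : ι) :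
    MeasurableEquiv.piCongrLeft (fun _ : ι => ℝ) e x i = x (e.symm i) := by
  obtain ⟨j, rfl⟩ := e.surjective i
  rw [Equiv.symm_apply_apply]
  exact Equiv.piCongrLeft_apply_apply (fun _ : ι => ℝ) e x j

theorem pl_fin {ι : Type*} [Fintype ι] {f g h : (ι → ℝ) → ℝ≥0∞} (hf : Measurable f)
    (hg : Measurable g) (hh : Measurable h) {θ : ℝ} (h0 : 0 < θ) (h1 : θ < 1)
    (H : ∀ x y, f x ^ θ * g y ^ (1 - θ) ≤ h (θ • x + (1 - θ) • y)) :
    (∫⁻ x, f x) ^ θ * (∫⁻ x, g x) ^ (1 - θ) ≤ ∫⁻ x, h x := by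
  set e := (Fintype.equivFin ι).symm with he
  have hmp := volume_measurePreserving_piCongrLeft (fun _ : ι => ℝ) e
  set T := MeasurableEquiv.piCongrLeft (fun _ : ι => ℝ) e with hT
  have hTm : Measurable T := MeasurableEquiv.measurable _
  rw [← hmp.lintegral_comp hf, ← hmp.lintegral_comp hg, ← hmp.lintegral_comp hh]
  refine Hom3.pl_n (hf.comp hTm) (hg.comp hTm) (hh.comp hTm) h0 h1 fun x y => ?_
  have h2 := H (T x) (T y)
  have h3 : θ • T x + (1 - θ) • T y = T (θ • x + (1 - θ) • y) := by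
    ext i
    rw [Pi.add_apply, Pi.smul_apply, Pi.smul_apply, hT, pa_app, pa_app, pa_app]
    rfl
  rw [h3] at h2
  exact h2
/- END pa -/

/- MODULE pb
The four functions theorem in dimension one.  `∫ f₁ ∫ f₂ = ∫∫ f₁ x f₂ y`, and this is twice
symmetrised: `2 ∫∫ f₁ x f₂ y = ∫∫ (f₁ x f₂ y + f₁ y f₂ x)`.  For `x ≤ y` put `a = f₁ x f₂ y`,
`b = f₁ y f₂ x`, `c = f₃ x f₄ y`, `d = f₃ y f₄ x`: `a ≤ c`, `b ≤ c` (`H x y`, `H y x`) and
`a b = (f₁ x f₂ x)(f₁ y f₂ y) ≤ (f₃ x f₄ x)(f₃ y f₄ y) = c d`, so `a + b ≤ c + d` (if `c = ⊤` trivial,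
if `c = 0` then `a = b = 0`, else `(c - a)(c - b) ≥ 0`). -/
private theorem pb_alg {a b c d : ℝ≥0∞} (h1 : a ≤ c) (h2 : b ≤ c) (h3 : a * b ≤ c * d) :
    a + b ≤ c + d := by
  rcases eq_or_ne c ⊤ with rfl | hc
  · simp
  rcases eq_or_ne d ⊤ with rfl | hd
  · simp
  have ha : a ≠ ⊤ := ne_top_of_le_ne_top hc h1
  have hb : b ≠ ⊤ := ne_top_of_le_ne_top hc h2
  lift a to NNReal using ha
  lift b to NNReal using hb
  lift c to NNReal using hc
  lift d to NNReal using hd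
  norm_cast at *
  rw [← NNReal.coe_le_coe] at *
  push_cast at *
  have a0 := a.coe_nonneg
  have b0 := b.coe_nonneg
  have c0 := c.coe_nonneg
  have d0 := d.coe_nonneg
  rcases c0.eq_or_lt with hc | hc
  · nlinarith
  · have h4 : (c : ℝ) * (a + b) ≤ c * (c + d) := by nlinarith
    exact le_of_mul_le_mul_left h4 hc

private theorem pb_sym {f g : ℝ → ℝ≥0∞} (hf : Measurable f) (hg : Measurable g) :
    ∫⁻ x, ∫⁻ y, (f x * g y + f y * g x) = 2 * ((∫⁻ x, f x) * ∫⁻ x, g x) := by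
  have h1 : ∀ x, ∫⁻ y, (f x * g y + f y * g x) = f x * (∫⁻ y, g y) + (∫⁻ y, f y) * g x := by
    intro x
    rw [lintegral_add_left (hg.const_mul _), lintegral_const_mul _ hg, lintegral_mul_const _ hf]
  simp only [h1]
  rw [lintegral_add_left (hf.mul_const _), lintegral_mul_const _ hf, lintegral_const_mul _ hg,
    two_mul]

theorem ad_one {f₁ f₂ f₃ f₄ : ℝ → ℝ≥0∞} (h₁ : Measurable f₁) (h₂ : Measurable f₂)
    (h₃ : Measurable f₃) (h₄ : Measurable f₄)
    (H : ∀ x y, f₁ x * f₂ y ≤ f₃ (min x y) * f₄ (max x y)) :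
    (∫⁻ x, f₁ x) * (∫⁻ x, f₂ x) ≤ (∫⁻ x, f₃ x) * ∫⁻ x, f₄ x := by
  have key : ∀ x y, x ≤ y → f₁ x * f₂ y + f₁ y * f₂ x ≤ f₃ x * f₄ y + f₃ y * f₄ x := by
    intro x y hxy
    have e1 := H x y
    have e2 := H y x
    have e3 := H x x
    have e4 := H y y
    rw [min_eq_left hxy, max_eq_right hxy] at e1
    rw [min_eq_right hxy, max_eq_left hxy] at e2
    rw [min_self, max_self] at e3 e4
    refine pb_alg e1 e2 ?_
    calc f₁ x * f₂ y * (f₁ y * f₂ x) = (f₁ x * f₂ x) * (f₁ y * f₂ y) := by ring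
      _ ≤ (f₃ x * f₄ x) * (f₃ y * f₄ y) := mul_le_mul' e3 e4
      _ = f₃ x * f₄ y * (f₃ y * f₄ x) := by ring
  have key2 : ∀ x y, f₁ x * f₂ y + f₁ y * f₂ x ≤ f₃ x * f₄ y + f₃ y * f₄ x := by
    intro x y
    rcases le_total x y with h | h
    · exact key x y h
    · have := key y x h
      rw [add_comm (f₁ x * f₂ y), add_comm (f₃ x * f₄ y)]
      exact this
  have h2 : 2 * ((∫⁻ x, f₁ x) * ∫⁻ x, f₂ x) ≤ 2 * ((∫⁻ x, f₃ x) * ∫⁻ x, f₄ x) := by
    rw [← pb_sym h₁ h₂, ← pb_sym h₃ h₄]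
    exact lintegral_mono fun x => lintegral_mono fun y => key2 x y
  exact (ENNReal.mul_le_mul_iff_right (by norm_num) (by norm_num)).1 h2
/- END pb -/

/- MODULE pc
The four functions theorem on `ι → ℝ`.  First `Fin n → ℝ` by induction with `ad_one` exactly as in
`Hom3.pl_n` (split off the first coordinate by `MeasurableEquiv.piFinSuccAbove (fun _ => ℝ) 0`; for
fixed first coordinates `a`, `b` the functions `f₁ (a, ·)`, `f₂ (b, ·)`, `f₃ (min a b, ·)`,
`f₄ (max a b, ·)` satisfy the hypothesis in dimension `n`), then transport to `ι`. -/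
private theorem pc_app {ι : Type*} {n : ℕ} (e : Fin n ≃ ι) (x : Fin n → ℝ) (i : ι) :
    MeasurableEquiv.piCongrLeft (fun _ : ι => ℝ) e x i = x (e.symm i) := by
  obtain ⟨j, rfl⟩ := e.surjective i
  rw [Equiv.symm_apply_apply]
  exact Equiv.piCongrLeft_apply_apply (fun _ : ι => ℝ) e x j

private theorem pc_split {n : ℕ} {f : (Fin (n + 1) → ℝ) → ℝ≥0∞} (hf : Measurable f) :
    ∫⁻ x, f x = ∫⁻ a : ℝ, ∫⁻ y : Fin n → ℝ,
      f ((MeasurableEquiv.piFinSuccAbove (fun _ => ℝ) 0).symm (a, y)) := by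
  have hmp := (volume_preserving_piFinSuccAbove (fun _ : Fin (n + 1) => ℝ) 0).symm
  rw [← hmp.lintegral_comp hf, Measure.volume_eq_prod]
  exact lintegral_prod _ ((hf.comp (MeasurableEquiv.measurable _)).aemeasurable)

private theorem pc_min {n : ℕ} (a b : ℝ) (x y : Fin n → ℝ) :
    (fun i => min ((MeasurableEquiv.piFinSuccAbove (fun _ : Fin (n + 1) => ℝ) 0).symm (a, x) i)
      ((MeasurableEquiv.piFinSuccAbove (fun _ : Fin (n + 1) => ℝ) 0).symm (b, y) i)) =
    (MeasurableEquiv.piFinSuccAbove (fun _ : Fin (n + 1) => ℝ) 0).symm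
      (min a b, fun i => min (x i) (y i)) := by
  ext i
  refine Fin.cases ?_ (fun j => ?_) i
  · rfl
  · rfl

private theorem pc_max {n : ℕ} (a b : ℝ) (x y : Fin n → ℝ) :
    (fun i => max ((MeasurableEquiv.piFinSuccAbove (fun _ : Fin (n + 1) => ℝ) 0).symm (a, x) i)
      ((MeasurableEquiv.piFinSuccAbove (fun _ : Fin (n + 1) => ℝ) 0).symm (b, y) i)) =
    (MeasurableEquiv.piFinSuccAbove (fun _ : Fin (n + 1) => ℝ) 0).symm
      (max a b, fun i => max (x i) (y i)) := by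
  ext i
  refine Fin.cases ?_ (fun j => ?_) i
  · rfl
  · rfl

private theorem pc_n {n : ℕ} {f₁ f₂ f₃ f₄ : (Fin n → ℝ) → ℝ≥0∞} (h₁ : Measurable f₁)
    (h₂ : Measurable f₂) (h₃ : Measurable f₃) (h₄ : Measurable f₄)
    (H : ∀ x y, f₁ x * f₂ y ≤ f₃ (fun i => min (x i) (y i)) * f₄ (fun i => max (x i) (y i))) :
    (∫⁻ x, f₁ x) * (∫⁻ x, f₂ x) ≤ (∫⁻ x, f₃ x) * ∫⁻ x, f₄ x := by
  induction n with
  | zero =>
    have hd : ∀ k : (Fin 0 → ℝ) → ℝ≥0∞, ∫⁻ x, k x = k default := by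
      intro k
      rw [lintegral_unique]
      have : (volume : Measure (Fin 0 → ℝ)) univ = 1 := by
        rw [volume_pi, Measure.pi_univ]
        simp
      rw [this, mul_one]
      exact congrArg k (Subsingleton.elim _ _)
    rw [hd, hd, hd, hd]
    have h5 := H default default
    rwa [Subsingleton.elim (fun i => min ((default : Fin 0 → ℝ) i) ((default : Fin 0 → ℝ) i)) default,
      Subsingleton.elim (fun i => max ((default : Fin 0 → ℝ) i) ((default : Fin 0 → ℝ) i)) default] at h5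
  | succ n ih =>
    rw [pc_split h₁, pc_split h₂, pc_split h₃, pc_split h₄]
    set e := (MeasurableEquiv.piFinSuccAbove (fun _ => ℝ) 0).symm with he
    have hme : Measurable e := MeasurableEquiv.measurable _
    refine ad_one (h₁.comp hme).lintegral_prod_right' (h₂.comp hme).lintegral_prod_right'
      (h₃.comp hme).lintegral_prod_right' (h₄.comp hme).lintegral_prod_right' fun a b => ?_
    refine ih (f₁ := fun y => f₁ (e (a, y))) (f₂ := fun y => f₂ (e (b, y)))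
      (f₃ := fun y => f₃ (e (min a b, y))) (f₄ := fun y => f₄ (e (max a b, y))) ?_ ?_ ?_ ?_ ?_
    · exact h₁.comp (hme.comp measurable_prodMk_left)
    · exact h₂.comp (hme.comp measurable_prodMk_left)
    · exact h₃.comp (hme.comp measurable_prodMk_left)
    · exact h₄.comp (hme.comp measurable_prodMk_left)
    · intro x y
      have h5 := H (e (a, x)) (e (b, y))
      rwa [he, pc_min, pc_max] at h5

theorem ad_fin {ι : Type*} [Fintype ι] {f₁ f₂ f₃ f₄ : (ι → ℝ) → ℝ≥0∞} (h₁ : Measurable f₁)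
    (h₂ : Measurable f₂) (h₃ : Measurable f₃) (h₄ : Measurable f₄)
    (H : ∀ x y, f₁ x * f₂ y ≤ f₃ (fun i => min (x i) (y i)) * f₄ (fun i => max (x i) (y i))) :
    (∫⁻ x, f₁ x) * (∫⁻ x, f₂ x) ≤ (∫⁻ x, f₃ x) * ∫⁻ x, f₄ x := by
  set e := (Fintype.equivFin ι).symm with he
  have hmp := volume_measurePreserving_piCongrLeft (fun _ : ι => ℝ) e
  set T := MeasurableEquiv.piCongrLeft (fun _ : ι => ℝ) e with hT
  have hTm : Measurable T := MeasurableEquiv.measurable _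
  rw [← hmp.lintegral_comp h₁, ← hmp.lintegral_comp h₂, ← hmp.lintegral_comp h₃, ← hmp.lintegral_comp h₄]
  refine pc_n (h₁.comp hTm) (h₂.comp hTm) (h₃.comp hTm) (h₄.comp hTm) fun x y => ?_
  have h2 := H (T x) (T y)
  have h3 : (fun i => min (T x i) (T y i)) = T (fun i => min (x i) (y i)) := by
    ext i
    rw [hT, pc_app, pc_app, pc_app]
  have h4 : (fun i => max (T x i) (T y i)) = T (fun i => max (x i) (y i)) := by
    ext i
    rw [hT, pc_app, pc_app, pc_app]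
  rw [h3, h4] at h2
  exact h2
/- END pc -/

/- MODULE pd
The averaging inequality behind the volume lemma.  For every `δ` in the cube `|δ| ≤ 1/4`:
`∫_p ∫_y 1[y - τ p ∈ W] G y p = ∫_p ∫_{σ ∈ W} G (σ + τ p) p ≤ C ∫_p ∫_{σ ∈ W} G ((σ + τ p)/2 + δ) (p/2)`
(translation invariance in `y` for fixed `p`).  Integrate over the cube, whose volume is
`(1/2)^|ι|`, use Tonelli and `∫_δ G (z + δ) (p/2) ≤ ∫_y G y (p/2)`:
`(1/2)^|ι| LHS ≤ C vol(W) ∫_p ∫_y G y (p/2) = C vol(W) 2^|κ| ∫_p ∫_y G y p`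
(`Measure.addHaar_smul` / `lintegral_comp_smul`-type scaling in `κ → ℝ`). -/
private theorem pd_cube (ι : Type*) [Fintype ι] :
    volume {δ : ι → ℝ | ∀ i, |δ i| ≤ 1 / 4} = (2⁻¹ : ℝ≥0∞) ^ Fintype.card ι := by
  have h : {δ : ι → ℝ | ∀ i, |δ i| ≤ 1 / 4} = Set.univ.pi (fun _ : ι => Icc (-(1 / 4) : ℝ) (1 / 4)) := by
    ext δ
    rw [Set.mem_univ_pi]
    exact forall_congr' fun i => abs_le
  rw [h, volume_pi_pi]
  simp only [Real.volume_Icc]
  rw [Finset.prod_const, Finset.card_univ]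
  congr 1
  rw [show (1 / 4 : ℝ) - -(1 / 4) = 2⁻¹ by norm_num, ENNReal.ofReal_inv_of_pos (by norm_num)]
  norm_num

private theorem pd_scale {κ : Type*} [Fintype κ] {J : (κ → ℝ) → ℝ≥0∞} (hJ : Measurable J) :
    ∫⁻ p : κ → ℝ, J (fun k => p k / 2) = 2 ^ Fintype.card κ * ∫⁻ p, J p := by
  have h1 : (fun p : κ → ℝ => J (fun k => p k / 2)) = fun p => J ((2⁻¹ : ℝ) • p) := by
    funext p
    congr 1
    funext k
    simp only [Pi.smul_apply, smul_eq_mul]
    ring
  rw [h1, ← lintegral_map hJ (measurable_const_smul _),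
    Measure.map_addHaar_smul volume (by norm_num : (2⁻¹ : ℝ) ≠ 0), lintegral_smul_measure]
  congr 1
  rw [Module.finrank_fintype_fun_eq_card, inv_pow, inv_inv, abs_of_pos (by positivity),
    ENNReal.ofReal_pow (by norm_num)]
  norm_num

private theorem pd_pt {ι κ : Type*} [Fintype ι] [Fintype κ] {G : (ι → ℝ) → (κ → ℝ) → ℝ≥0∞}
    (hG : Measurable (Function.uncurry G)) {C : ℝ≥0∞}
    (H : ∀ y p (δ : ι → ℝ), (∀ i, |δ i| ≤ 1 / 4) →
      G y p ≤ C * G (fun i => y i / 2 + δ i) (fun k => p k / 2)) (y : ι → ℝ) (p : κ → ℝ) :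
    G y p ≤ 2 ^ Fintype.card ι * C * ∫⁻ z, G z (fun k => p k / 2) := by
  have hm : Measurable (fun z => G z (fun k => p k / 2)) := hG.comp measurable_prodMk_right
  have hQ : MeasurableSet {δ : ι → ℝ | ∀ i, |δ i| ≤ 1 / 4} := by
    have : {δ : ι → ℝ | ∀ i, |δ i| ≤ 1 / 4} = ⋂ i, {δ : ι → ℝ | |δ i| ≤ 1 / 4} := by
      ext δ
      simp
    rw [this]
    refine MeasurableSet.iInter fun i => ?_
    exact measurableSet_le ((measurable_pi_apply i).abs) measurable_const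
  have h1 : (2⁻¹ : ℝ≥0∞) ^ Fintype.card ι * G y p ≤ C * ∫⁻ z, G z (fun k => p k / 2) := by
    calc (2⁻¹ : ℝ≥0∞) ^ Fintype.card ι * G y p
        = ∫⁻ δ in {δ : ι → ℝ | ∀ i, |δ i| ≤ 1 / 4}, G y p := by
          rw [setLIntegral_const, pd_cube, mul_comm]
      _ ≤ ∫⁻ δ in {δ : ι → ℝ | ∀ i, |δ i| ≤ 1 / 4},
            C * G ((fun i => y i / 2) + δ) (fun k => p k / 2) :=
          setLIntegral_mono' hQ fun δ hδ => H y p δ hδ
      _ ≤ ∫⁻ δ, C * G ((fun i => y i / 2) + δ) (fun k => p k / 2) :=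
          setLIntegral_le_lintegral _ _
      _ = ∫⁻ δ, C * G δ (fun k => p k / 2) :=
          lintegral_add_left_eq_self (fun z => C * G z (fun k => p k / 2)) _
      _ = C * ∫⁻ z, G z (fun k => p k / 2) := lintegral_const_mul _ hm
  calc G y p = 2 ^ Fintype.card ι * ((2⁻¹ : ℝ≥0∞) ^ Fintype.card ι * G y p) := by
        rw [← mul_assoc, ← mul_pow, ENNReal.mul_inv_cancel (by norm_num) (by norm_num), one_pow,
          one_mul]
    _ ≤ 2 ^ Fintype.card ι * (C * ∫⁻ z, G z (fun k => p k / 2)) := mul_le_mul_right h1 _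
    _ = _ := by rw [mul_assoc]

theorem avg_cube {ι κ : Type*} [Fintype ι] [Fintype κ] {G : (ι → ℝ) → (κ → ℝ) → ℝ≥0∞}
    (hG : Measurable (Function.uncurry G)) {τ : (κ → ℝ) → ℝ} (hτ : Measurable τ) {C : ℝ≥0∞}
    (H : ∀ y p (δ : ι → ℝ), (∀ i, |δ i| ≤ 1 / 4) →
      G y p ≤ C * G (fun i => y i / 2 + δ i) (fun k => p k / 2))
    {W : Set (ι → ℝ)} (hW : MeasurableSet W) :
    ∫⁻ p, ∫⁻ y, {y : ι → ℝ | (fun i => y i - τ p) ∈ W}.indicator (fun y => G y p) y ≤
      C * 2 ^ (Fintype.card ι + Fintype.card κ) * volume W * ∫⁻ p, ∫⁻ y, G y p := by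
  have hJ : Measurable (fun p => ∫⁻ y, G y p) := by
    exact hG.lintegral_prod_left'
  have h1 : ∀ p, ∫⁻ y, {y : ι → ℝ | (fun i => y i - τ p) ∈ W}.indicator (fun y => G y p) y ≤
      2 ^ Fintype.card ι * C * (∫⁻ z, G z (fun k => p k / 2)) * volume W := by
    intro p
    have hs : {y : ι → ℝ | (fun i => y i - τ p) ∈ W} =
        (fun y => y + (fun _ => - τ p)) ⁻¹' W := by
      rfl
    have hms : MeasurableSet {y : ι → ℝ | (fun i => y i - τ p) ∈ W} := by
      rw [hs]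
      exact (measurable_add_const _) hW
    calc ∫⁻ y, {y : ι → ℝ | (fun i => y i - τ p) ∈ W}.indicator (fun y => G y p) y
        ≤ ∫⁻ y, {y : ι → ℝ | (fun i => y i - τ p) ∈ W}.indicator
            (fun _ => 2 ^ Fintype.card ι * C * ∫⁻ z, G z (fun k => p k / 2)) y :=
          lintegral_mono fun y => Set.indicator_le_indicator (pd_pt hG H y p)
      _ = _ := by
          rw [lintegral_indicator_const hms, hs, measure_preimage_add_right]
  calc ∫⁻ p, ∫⁻ y, {y : ι → ℝ | (fun i => y i - τ p) ∈ W}.indicator (fun y => G y p) y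
      ≤ ∫⁻ p, 2 ^ Fintype.card ι * C * (∫⁻ z, G z (fun k => p k / 2)) * volume W :=
        lintegral_mono h1
    _ = ∫⁻ p : κ → ℝ, (2 ^ Fintype.card ι * C * volume W) *
          (∫⁻ z, G z (fun k => p k / 2)) := by
        congr 1
        funext p
        ring
    _ = (2 ^ Fintype.card ι * C * volume W) *
          ∫⁻ p : κ → ℝ, (∫⁻ z, G z (fun k => p k / 2)) := by
        refine lintegral_const_mul _ ?_
        exact hJ.comp (measurable_pi_lambda _ fun k => (measurable_pi_apply k).div_const 2)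
    _ = (2 ^ Fintype.card ι * C * volume W) * (2 ^ Fintype.card κ * ∫⁻ p, ∫⁻ y, G y p) := by
        rw [pd_scale hJ]
    _ = _ := by
        rw [pow_add]
        ring
/- END pd -/

end Pool.Agent.Hmk
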