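import Pool.Agent.Hmk.Fl

/-!
# Hmk: Bochner identity and the Witten Laplacian on Schwartz functions (PART A)

`ι` finite, everything on `ι → ℝ`.  `av V x = d_x + V_x / 2`, its adjoint `ad V x = - d_x + V_x / 2`,
`Ao V = ∑ x, ad V x (av V x ·)`.
-/

set_option autoImplicit false

open MeasureTheory Set Filter
open scoped ENNReal SchwartzMap ContDiff Topology

noncomputable section

namespace Pool.Agent.Hmk

variable {ι : Type*} [Fintype ι] [DecidableEq ι]

/-- partial derivative on Schwartz functions -/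
def dx (x : ι) : 𝓢(ι → ℝ, ℝ) →L[ℝ] 𝓢(ι → ℝ, ℝ) :=
  LineDeriv.lineDerivOpCLM ℝ 𝓢(ι → ℝ, ℝ) (Pi.single x (1 : ℝ) : ι → ℝ)

/-- multiplication by a function of temperate growth -/
def mu (g : (ι → ℝ) → ℝ) : 𝓢(ι → ℝ, ℝ) →L[ℝ] 𝓢(ι → ℝ, ℝ) := SchwartzMap.smulLeftCLM ℝ g

def av (V : (ι → ℝ) → ℝ) (x : ι) : 𝓢(ι → ℝ, ℝ) →L[ℝ] 𝓢(ι → ℝ, ℝ) :=
  dx x + mu (fun h => pd x V h / 2)

def ad (V : (ι → ℝ) → ℝ) (x : ι) : 𝓢(ι → ℝ, ℝ) →L[ℝ] 𝓢(ι → ℝ, ℝ) :=
  - dx x + mu (fun h => pd x V h / 2)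

def Ao (V : (ι → ℝ) → ℝ) (f : 𝓢(ι → ℝ, ℝ)) : 𝓢(ι → ℝ, ℝ) := ∑ x, ad V x (av V x f)

/-- the zeroth order term of `Ao` -/
def Wf (V : (ι → ℝ) → ℝ) (h : ι → ℝ) : ℝ := ∑ x, ((pd x V h) ^ 2 / 4 - pd x (pd x V) h / 2)

/- MODULE sa
Pointwise formulas. -/
theorem dx_apply (x : ι) (f : 𝓢(ι → ℝ, ℝ)) (h : ι → ℝ) : dx x f h = pd x f h := by
  exact SchwartzMap.lineDerivOp_apply_eq_fderiv _ _ _

theorem pd_temp {V : (ι → ℝ) → ℝ} (hV : V.HasTemperateGrowth) (x : ι) :
    (pd x V).HasTemperateGrowth := by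
  have h1 : (fderiv ℝ V).HasTemperateGrowth := by
    refine ⟨hV.1.fderiv_right (by simp), fun n => ?_⟩
    obtain ⟨k, C, h⟩ := hV.2 (n + 1)
    refine ⟨k, C, fun y => ?_⟩
    rw [norm_iteratedFDeriv_fderiv]
    exact h y
  have h2 : (ContinuousLinearMap.apply ℝ ℝ (Pi.single x (1 : ℝ) : ι → ℝ)).toFun.HasTemperateGrowth :=
    (ContinuousLinearMap.apply ℝ ℝ (Pi.single x (1 : ℝ) : ι → ℝ)).hasTemperateGrowth
  exact h2.comp h1

theorem mu_apply {g : (ι → ℝ) → ℝ} (hg : g.HasTemperateGrowth) (f : 𝓢(ι → ℝ, ℝ)) (h : ι → ℝ) :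
    mu g f h = g h * f h := by
  unfold mu
  rw [SchwartzMap.smulLeftCLM_apply_apply hg, smul_eq_mul]

private theorem sa_half {V : (ι → ℝ) → ℝ} (hV : V.HasTemperateGrowth) (x : ι) :
    (fun h => pd x V h / 2).HasTemperateGrowth := by
  have h1 := (pd_temp hV x).mul (Function.HasTemperateGrowth.const (E := ι → ℝ) (1 / 2 : ℝ))
  have h2 : (pd x V * fun _ => (1 / 2 : ℝ)) = fun h => pd x V h / 2 := by
    funext h
    simp [div_eq_mul_inv]
  rw [← h2]
  exact h1

theorem av_apply {V : (ι → ℝ) → ℝ} (hV : V.HasTemperateGrowth) (x : ι) (f : 𝓢(ι → ℝ, ℝ))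
    (h : ι → ℝ) : av V x f h = pd x f h + pd x V h / 2 * f h := by
  unfold av
  rw [_root_.add_apply, _root_.add_apply, dx_apply, mu_apply (sa_half hV x)]

theorem ad_apply {V : (ι → ℝ) → ℝ} (hV : V.HasTemperateGrowth) (x : ι) (f : 𝓢(ι → ℝ, ℝ))
    (h : ι → ℝ) : ad V x f h = - pd x f h + pd x V h / 2 * f h := by
  unfold ad
  rw [_root_.add_apply, _root_.add_apply, _root_.neg_apply, _root_.neg_apply, dx_apply, mu_apply (sa_half hV x)]

theorem pd_symm {V : (ι → ℝ) → ℝ} (hV : ContDiff ℝ 2 V) (x y : ι) (h : ι → ℝ) :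
    pd y (pd x V) h = pd x (pd y V) h := by
  have h1 : DifferentiableAt ℝ (fderiv ℝ V) h :=
    ((hV.fderiv_right (m := 1) (by norm_num)).differentiable (by norm_num)) h
  have h2 : ∀ z w : ι, pd w (pd z V) h = fderiv ℝ (fderiv ℝ V) h (Pi.single w 1) (Pi.single z 1) := by
    intro z w
    have h3 : HasFDerivAt (pd z V)
        ((ContinuousLinearMap.apply ℝ ℝ (Pi.single z (1 : ℝ) : ι → ℝ)).comp (fderiv ℝ (fderiv ℝ V) h)) h :=
      (ContinuousLinearMap.apply ℝ ℝ (Pi.single z (1 : ℝ) : ι → ℝ)).hasFDerivAt.comp h h1.hasFDerivAt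
    unfold pd at h3 ⊢
    rw [h3.fderiv]
    rfl
  rw [h2, h2]
  exact (hV.contDiffAt.isSymmSndFDerivAt (by simp)) _ _

theorem pd_mul {f g : (ι → ℝ) → ℝ} {h : ι → ℝ} (hf : DifferentiableAt ℝ f h)
    (hg : DifferentiableAt ℝ g h) (x : ι) :
    pd x (fun k => f k * g k) h = pd x f h * g h + f h * pd x g h := by
  unfold pd
  rw [fderiv_fun_mul hf hg]
  simp [mul_comm]
  ring
/- END sa -/

/- MODULE sb
Adjoint (`SchwartzMap.integral_mul_lineDerivOp_right_eq_neg_left`) and commutators. -/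
private theorem sb_mul (f g : 𝓢(ι → ℝ, ℝ)) :
    ∃ k : 𝓢(ι → ℝ, ℝ), ∀ h, k h = f h * g h :=
  ⟨mu f g, fun h => mu_apply f.hasTemperateGrowth g h⟩

private theorem sb_int (f g : 𝓢(ι → ℝ, ℝ)) : Integrable (fun h => f h * g h) := by
  obtain ⟨k, hk⟩ := sb_mul f g
  have h1 : (fun h => f h * g h) = k := funext fun h => (hk h).symm
  rw [h1]
  exact k.integrable

private theorem sb_half {V : (ι → ℝ) → ℝ} (hV : V.HasTemperateGrowth) (x : ι) :
    (fun h => pd x V h / 2).HasTemperateGrowth := by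
  have h1 : (fun h => pd x V h / 2) = (fun h => pd x V h) * fun _ => (2⁻¹ : ℝ) := by
    funext h
    show pd x V h / 2 = pd x V h * 2⁻¹
    rw [div_eq_mul_inv]
  rw [h1]
  exact (pd_temp hV x).mul (Function.HasTemperateGrowth.const _)

private theorem sb_dd (x : ι) (f : 𝓢(ι → ℝ, ℝ)) (h : ι → ℝ) : DifferentiableAt ℝ (pd x f) h := by
  have h1 : (pd x f : (ι → ℝ) → ℝ) = dx x f := funext fun h => (dx_apply x f h).symm
  rw [h1]
  exact (dx x f).differentiableAt

private theorem sb_dV {V : (ι → ℝ) → ℝ} (hV : V.HasTemperateGrowth) (h : ι → ℝ) :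
    DifferentiableAt ℝ V h :=
  hV.1.differentiable (by simp) h

private theorem sb_pd {V : (ι → ℝ) → ℝ} (hV : V.HasTemperateGrowth) (x y : ι)
    (f : 𝓢(ι → ℝ, ℝ)) (h : ι → ℝ) :
    pd x (fun k => pd y V k / 2 * f k) h =
      pd x (pd y V) h / 2 * f h + pd y V h / 2 * pd x f h := by
  have h1 : DifferentiableAt ℝ (pd y V) h := sb_dV (pd_temp hV y) h
  have h2 : pd x (fun k => pd y V k / 2) h = pd x (pd y V) h / 2 := by
    show fderiv ℝ (fun k => pd y V k / 2) h (Pi.single x 1) = _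
    have h3 : (fun k => pd y V k / 2) = fun k => (2⁻¹ : ℝ) * pd y V k := by
      funext k
      ring
    rw [h3, fderiv_const_mul h1]
    show (2⁻¹ : ℝ) * pd x (pd y V) h = _
    ring
  rw [pd_mul (sb_dV (sb_half hV y) h) f.differentiableAt, h2]

private theorem sb_pd_av {V : (ι → ℝ) → ℝ} (hV : V.HasTemperateGrowth) (x y : ι)
    (f : 𝓢(ι → ℝ, ℝ)) (h : ι → ℝ) :
    pd x (av V y f) h =
      pd x (pd y f) h + (pd x (pd y V) h / 2 * f h + pd y V h / 2 * pd x f h) := by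
  have h1 : (av V y f : (ι → ℝ) → ℝ) = fun k => pd y f k + pd y V k / 2 * f k :=
    funext fun k => av_apply hV y f k
  rw [h1, ← sb_pd hV]
  have h2 : DifferentiableAt ℝ (fun k => pd y V k / 2 * f k) h :=
    (sb_dV (sb_half hV y) h).mul f.differentiableAt
  show fderiv ℝ (fun k => pd y f k + pd y V k / 2 * f k) h (Pi.single x 1) = _
  rw [fderiv_fun_add (sb_dd y f h) h2]
  rfl

private theorem sb_pd_ad {V : (ι → ℝ) → ℝ} (hV : V.HasTemperateGrowth) (x y : ι)
    (f : 𝓢(ι → ℝ, ℝ)) (h : ι → ℝ) :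
    pd x (ad V y f) h =
      - pd x (pd y f) h + (pd x (pd y V) h / 2 * f h + pd y V h / 2 * pd x f h) := by
  have h1 : (ad V y f : (ι → ℝ) → ℝ) = fun k => - pd y f k + pd y V k / 2 * f k :=
    funext fun k => ad_apply hV y f k
  rw [h1, ← sb_pd hV]
  have h2 : DifferentiableAt ℝ (fun k => pd y V k / 2 * f k) h :=
    (sb_dV (sb_half hV y) h).mul f.differentiableAt
  show fderiv ℝ (fun k => - pd y f k + pd y V k / 2 * f k) h (Pi.single x 1) = _
  have h3 : DifferentiableAt ℝ (fun k => - pd y f k) h := (sb_dd y f h).neg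
  rw [fderiv_fun_add h3 h2, fderiv_fun_neg]
  rfl

private theorem sb_symm {V : (ι → ℝ) → ℝ} (hV : V.HasTemperateGrowth) (x y : ι) (h : ι → ℝ) :
    pd y (pd x V) h = pd x (pd y V) h :=
  pd_symm (hV.1.of_le (by norm_cast)) x y h

theorem av_ad {V : (ι → ℝ) → ℝ} (hV : V.HasTemperateGrowth) (x : ι) (f g : 𝓢(ι → ℝ, ℝ)) :
    ∫ h, av V x f h * g h = ∫ h, f h * ad V x g h := by
  have e1 : ∀ h, av V x f h * g h = dx x f h * g h + mu (fun h => pd x V h / 2) f h * g h := by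
    intro h
    rw [← add_mul]
    rfl
  have e2 : ∀ h, f h * ad V x g h = - (f h * dx x g h) + f h * mu (fun h => pd x V h / 2) g h := by
    intro h
    have : ad V x g h = - dx x g h + mu (fun h => pd x V h / 2) g h := rfl
    rw [this]
    ring
  have i1 : Integrable (fun h => - (f h * dx x g h)) := (sb_int f (dx x g)).neg
  simp only [e1, e2]
  rw [integral_add (sb_int _ _) (sb_int _ _), integral_add i1 (sb_int _ _), integral_neg]
  have h1 : ∫ h, f h * dx x g h = - ∫ h, dx x f h * g h :=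
    SchwartzMap.integral_mul_lineDerivOp_right_eq_neg_left f g (Pi.single x (1 : ℝ) : ι → ℝ)
  rw [h1, neg_neg]
  congr 2
  funext h
  rw [mu_apply (sb_half hV x), mu_apply (sb_half hV x)]
  ring

theorem av_comm {V : (ι → ℝ) → ℝ} (hV : V.HasTemperateGrowth) (x y : ι) (f : 𝓢(ι → ℝ, ℝ)) :
    av V x (av V y f) = av V y (av V x f) := by
  ext h
  rw [av_apply hV, av_apply hV, av_apply hV, av_apply hV, sb_pd_av hV, sb_pd_av hV,
    sb_symm hV x y, pd_symm (f.smooth 2) x y]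
  ring

theorem av_ad_comm {V : (ι → ℝ) → ℝ} (hV : V.HasTemperateGrowth) (x y : ι)
    (f : 𝓢(ι → ℝ, ℝ)) (h : ι → ℝ) :
    av V y (ad V x f) h = ad V x (av V y f) h + pd y (pd x V) h * f h := by
  rw [av_apply hV, ad_apply hV, ad_apply hV, av_apply hV, sb_pd_av hV, sb_pd_ad hV,
    sb_symm hV x y, pd_symm (f.smooth 2) x y]
  ring
/- END sb -/

/- MODULE sc
BOCHNER.  `∫ (Ao f)^2 = ∑_{x,y} ∫ ad_x av_x f * ad_y av_y f = ∑ ∫ av_y ad_x av_x f * av_y f`
`= ∑ ∫ (ad_x av_y av_x f + V_xy av_x f) av_y f = ∑ ∫ (av_y av_x f)(av_x av_y f) + ∫ V_xy av_x f av_y f`. -/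
private theorem sc_int3 {V : (ι → ℝ) → ℝ} (hV : V.HasTemperateGrowth) (x y : ι)
    (f g : 𝓢(ι → ℝ, ℝ)) : Integrable (fun h => pd y (pd x V) h * f h * g h) := by
  obtain ⟨k, hk⟩ := sb_mul f g
  have h1 : (fun h => pd y (pd x V) h * f h * g h) = mu (pd y (pd x V)) k := by
    funext h
    rw [mu_apply (pd_temp (pd_temp hV x) y), hk, mul_assoc]
  rw [h1]
  exact SchwartzMap.integrable _

private theorem sc_pair {V : (ι → ℝ) → ℝ} (hV : V.HasTemperateGrowth) (f : 𝓢(ι → ℝ, ℝ))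
    (x y : ι) :
    ∫ h, ad V x (av V x f) h * ad V y (av V y f) h =
      (∫ h, (av V y (av V x f) h) ^ 2) +
        ∫ h, pd y (pd x V) h * av V x f h * av V y f h := by
  rw [← av_ad hV y (ad V x (av V x f)) (av V y f)]
  have e1 : ∀ h, av V y (ad V x (av V x f)) h * av V y f h =
      av V y f h * ad V x (av V y (av V x f)) h +
        pd y (pd x V) h * av V x f h * av V y f h := by
    intro h
    rw [av_ad_comm hV]
    ring
  simp only [e1]
  rw [integral_add (sb_int _ _) (sc_int3 hV x y _ _),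
    ← av_ad hV x (av V y f) (av V y (av V x f))]
  congr 1
  congr 1
  funext h
  rw [av_comm hV x y f, sq]

theorem bochner {V : (ι → ℝ) → ℝ} (hV : V.HasTemperateGrowth) (f : 𝓢(ι → ℝ, ℝ)) :
    ∫ h, (Ao V f h) ^ 2 = (∑ x, ∑ y, ∫ h, (av V y (av V x f) h) ^ 2) +
      ∫ h, ∑ x, ∑ y, pd y (pd x V) h * av V x f h * av V y f h := by
  have e1 : ∀ h, (Ao V f h) ^ 2 =
      ∑ x, ∑ y, ad V x (av V x f) h * ad V y (av V y f) h := by
    intro h
    have h1 : Ao V f h = ∑ x, ad V x (av V x f) h := by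
      unfold Ao
      rw [_root_.sum_apply]
    rw [h1, sq, Finset.sum_mul_sum]
  simp only [e1]
  rw [integral_finsetSum _ fun x _ => integrable_finsetSum _ fun y _ => sb_int _ _,
    integral_finsetSum _ fun x _ => integrable_finsetSum _ fun y _ => sc_int3 hV x y _ _,
    ← Finset.sum_add_distrib]
  refine Finset.sum_congr rfl fun x _ => ?_
  rw [integral_finsetSum _ fun y _ => sb_int _ _,
    integral_finsetSum _ fun y _ => sc_int3 hV x y _ _, ← Finset.sum_add_distrib]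
  exact Finset.sum_congr rfl fun y _ => sc_pair hV f x y

theorem dirichlet {V : (ι → ℝ) → ℝ} (hV : V.HasTemperateGrowth) (f : 𝓢(ι → ℝ, ℝ)) :
    ∫ h, f h * Ao V f h = ∑ x, ∫ h, (av V x f h) ^ 2 := by
  have e1 : ∀ h, f h * Ao V f h = ∑ x, f h * ad V x (av V x f) h := by
    intro h
    unfold Ao
    rw [_root_.sum_apply, Finset.mul_sum]
  simp only [e1]
  rw [integral_finsetSum _ fun x _ => sb_int _ _]
  refine Finset.sum_congr rfl fun x _ => ?_
  rw [← av_ad hV x f (av V x f)]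
  congr 1
  funext h
  rw [sq]

theorem Ao_apply {V : (ι → ℝ) → ℝ} (hV : V.HasTemperateGrowth) (f : 𝓢(ι → ℝ, ℝ))
    (h : ι → ℝ) : Ao V f h = - (∑ x, dx x (dx x f) h) + Wf V h * f h := by
  have h1 : Ao V f h = ∑ x, ad V x (av V x f) h := by
    unfold Ao
    rw [_root_.sum_apply]
  rw [h1]
  unfold Wf
  rw [Finset.sum_mul, ← Finset.sum_neg_distrib, ← Finset.sum_add_distrib]
  refine Finset.sum_congr rfl fun x _ => ?_
  have h2 : (dx x f : (ι → ℝ) → ℝ) = pd x f := funext fun k => dx_apply x f k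
  rw [ad_apply hV, av_apply hV, sb_pd_av hV, dx_apply, h2]
  ring

theorem Ao_add (V : (ι → ℝ) → ℝ) (f g : 𝓢(ι → ℝ, ℝ)) : Ao V (f + g) = Ao V f + Ao V g := by
  unfold Ao
  simp only [map_add]
  rw [Finset.sum_add_distrib]

theorem Ao_smul (V : (ι → ℝ) → ℝ) (c : ℝ) (f : 𝓢(ι → ℝ, ℝ)) : Ao V (c • f) = c • Ao V f := by
  unfold Ao
  simp only [map_smul]
  rw [Finset.smul_sum]
/- END sc -/

/- MODULE sd
THE RESOLVENT `(1 - Δ)⁻¹` on a Euclidean space: `B f` is the real part of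
`fourierMultiplierCLM ℂ g (f : 𝓢(E, ℂ))`, `g ξ = (1 + (2 π)^2 ‖ξ‖^2)⁻¹` (temperate growth:
`Function.hasTemperateGrowth_one_add_norm_sq_rpow` with exponent `-1`, composed with the linear map
`ξ ↦ (2 π) • ξ`).  `SchwartzMap.laplacian_eq_fourierMultiplierCLM`,
`fourierMultiplierCLM_fourierMultiplierCLM_apply`, `fourierMultiplierCLM_const` give
`(1 - Δ) (T f) = f`; Plancherel (`SchwartzMap.integral_inner_fourier_fourier`,
`integral_norm_sq_fourier`) and `0 < g ≤ 1` give the symmetry and the contraction.  The real part of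
a complex Schwartz function (`SchwartzMap.postcompCLM` with `Complex.reCLM`) commutes with `Δ`. -/
private def sd_g (E : Type*) [NormedAddCommGroup E] [InnerProductSpace ℝ E] (ξ : E) : ℝ :=
  (1 + ‖(2 * Real.pi) • ξ‖ ^ 2) ^ (-1 : ℝ)

private theorem sd_g_eq (E : Type*) [NormedAddCommGroup E] [InnerProductSpace ℝ E] (ξ : E) :
    sd_g E ξ = (1 + (2 * Real.pi) ^ 2 * ‖ξ‖ ^ 2)⁻¹ := by
  unfold sd_g
  rw [Real.rpow_neg_one, norm_smul, mul_pow, Real.norm_eq_abs, sq_abs]

private theorem sd_g_temp (E : Type*) [NormedAddCommGroup E] [InnerProductSpace ℝ E] :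
    (sd_g E).HasTemperateGrowth := by
  have h1 := Function.hasTemperateGrowth_one_add_norm_sq_rpow E (-1 : ℝ)
  have h2 : (fun ξ : E => (2 * Real.pi) • ξ).HasTemperateGrowth :=
    ((2 * Real.pi) • (ContinuousLinearMap.id ℝ E)).hasTemperateGrowth
  exact h1.comp h2

private theorem sd_g_nonneg (E : Type*) [NormedAddCommGroup E] [InnerProductSpace ℝ E] (ξ : E) :
    0 ≤ sd_g E ξ := by
  rw [sd_g_eq]; positivity

private theorem sd_g_le (E : Type*) [NormedAddCommGroup E] [InnerProductSpace ℝ E] (ξ : E) :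
    sd_g E ξ ≤ 1 := by
  rw [sd_g_eq]
  refine inv_le_one_of_one_le₀ ?_
  have : 0 ≤ (2 * Real.pi) ^ 2 * ‖ξ‖ ^ 2 := by positivity
  linarith

section
variable {E : Type*} [NormedAddCommGroup E] [InnerProductSpace ℝ E] [FiniteDimensional ℝ E]
  [MeasurableSpace E] [BorelSpace E]

private def sd_up : 𝓢(E, ℝ) →L[ℝ] 𝓢(E, ℂ) := SchwartzMap.postcompCLM Complex.ofRealCLM

private def sd_re : 𝓢(E, ℂ) →L[ℝ] 𝓢(E, ℝ) := SchwartzMap.postcompCLM Complex.reCLM

private def sd_T : 𝓢(E, ℂ) →L[ℝ] 𝓢(E, ℂ) := SchwartzMap.fourierMultiplierCLM ℂ (sd_g E)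

private theorem sd_up_apply (f : 𝓢(E, ℝ)) (x : E) : sd_up f x = (f x : ℂ) := rfl

private theorem sd_re_apply (f : 𝓢(E, ℂ)) (x : E) : sd_re f x = (f x).re := rfl

open FourierTransform in
private theorem sd_F (F : 𝓢(E, ℂ)) (ξ : E) : 𝓕 (sd_T F) ξ = (sd_g E ξ : ℂ) * 𝓕 F ξ := by
  unfold sd_T
  rw [SchwartzMap.fourierMultiplierCLM_apply, FourierTransform.fourier_fourierInv_eq,
    SchwartzMap.smulLeftCLM_apply_apply (sd_g_temp E)]
  simp

open FourierTransform in
private theorem sd_lap (F : 𝓢(E, ℂ)) : sd_T F - Laplacian.laplacian (sd_T F) = F := by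
  have h0 : (fun x : E => ‖x‖ ^ 2).HasTemperateGrowth := Function.hasTemperateGrowth_norm_sq E
  have h1 : 𝓕 (sd_T F - Laplacian.laplacian (sd_T F)) = 𝓕 F := by
    ext ξ
    rw [SchwartzMap.laplacian_eq_fourierMultiplierCLM, sub_eq_add_neg, ← neg_smul,
      FourierTransform.fourier_add,
      FourierTransform.fourier_smul, SchwartzMap.fourierMultiplierCLM_apply,
      FourierTransform.fourier_fourierInv_eq, _root_.add_apply, _root_.smul_apply,
      SchwartzMap.smulLeftCLM_apply_apply h0, sd_F]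
    have h2 : (sd_g E ξ) * (1 + (2 * Real.pi) ^ 2 * ‖ξ‖ ^ 2) = 1 := by
      rw [sd_g_eq]
      exact inv_mul_cancel₀ (by positivity)
    have h3 : ((sd_g E ξ : ℝ) : ℂ) * (1 + (2 * (Real.pi : ℂ)) ^ 2 * (‖ξ‖ : ℂ) ^ 2) = 1 := by
      exact_mod_cast congrArg (fun r : ℝ => (r : ℂ)) h2
    simp only [Complex.real_smul, neg_smul]
    push_cast
    linear_combination (𝓕 F ξ) * h3
  have h2 := congrArg (fun G => 𝓕⁻ G) h1
  simpa using h2

private theorem sd_re_lap (F : 𝓢(E, ℂ)) :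
    Laplacian.laplacian (sd_re F) = sd_re (Laplacian.laplacian F) := by
  ext x
  rw [SchwartzMap.laplacian_apply, sd_re_apply, SchwartzMap.laplacian_apply]
  have h : ContDiffAt ℝ 2 (F : E → ℂ) x := (F.smooth 2).contDiffAt
  exact h.laplacian_CLM_comp_left (l := Complex.reCLM)

private theorem sd_int (F G : 𝓢(E, ℂ)) : Integrable (fun x => inner ℂ (F x) (G x)) := by
  have h1 : MemLp (F : E → ℂ) 2 volume := F.memLp 2
  have h2 : MemLp (G : E → ℂ) 2 volume := G.memLp 2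
  have h3 := h2.integrable_mul h1.star
  refine h3.congr (Filter.Eventually.of_forall fun x => ?_)
  simp

open FourierTransform in
private theorem sd_sym (f g : 𝓢(E, ℝ)) :
    ∫ x, sd_re (sd_T (sd_up f)) x * g x = ∫ ξ, sd_g E ξ * (inner ℂ (𝓕 (sd_up g) ξ) (𝓕 (sd_up f) ξ)).re := by
  have h1 : ∀ x, sd_re (sd_T (sd_up f)) x * g x = RCLike.re (inner ℂ (sd_up g x) (sd_T (sd_up f) x)) := by
    intro x
    rw [sd_re_apply, sd_up_apply]
    simp
  simp_rw [h1]
  rw [integral_re (sd_int _ _), ← SchwartzMap.integral_inner_fourier_fourier,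
    ← integral_re (sd_int _ _)]
  refine integral_congr_ae (Filter.Eventually.of_forall fun ξ => ?_)
  simp only [sd_F]
  simp
  ring

end

theorem resolvent_E (ι : Type*) [Fintype ι] :
    ∃ B : 𝓢(EuclideanSpace ℝ ι, ℝ) →ₗ[ℝ] 𝓢(EuclideanSpace ℝ ι, ℝ),
      (∀ f, B f - Laplacian.laplacian (B f) = f) ∧
      (∀ f g, ∫ x, B f x * g x = ∫ x, f x * B g x) ∧
      (∀ f, ∫ x, (B f x) ^ 2 ≤ ∫ x, (f x) ^ 2) := by
  refine ⟨(sd_re ∘L sd_T ∘L sd_up : 𝓢(EuclideanSpace ℝ ι, ℝ) →L[ℝ] 𝓢(EuclideanSpace ℝ ι, ℝ)).toLinearMap,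
    fun f => ?_, fun f g => ?_, fun f => ?_⟩
  · change sd_re (sd_T (sd_up f)) - Laplacian.laplacian (sd_re (sd_T (sd_up f))) = f
    rw [sd_re_lap, ← map_sub, sd_lap]
    ext x
    rfl
  · change ∫ x, sd_re (sd_T (sd_up f)) x * g x = ∫ x, f x * sd_re (sd_T (sd_up g)) x
    have h : ∀ x, f x * sd_re (sd_T (sd_up g)) x = sd_re (sd_T (sd_up g)) x * f x := fun x => mul_comm _ _
    simp_rw [h]
    rw [sd_sym, sd_sym]
    refine integral_congr_ae (Filter.Eventually.of_forall fun ξ => ?_)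
    simp only
    congr 1
    exact inner_re_symm (𝕜 := ℂ) (FourierTransform.fourier (sd_up g) ξ) (FourierTransform.fourier (sd_up f) ξ)
  · change ∫ x, (sd_re (sd_T (sd_up f)) x) ^ 2 ≤ ∫ x, (f x) ^ 2
    have h1 : ∀ F : 𝓢(EuclideanSpace ℝ ι, ℂ), Integrable (fun x => ‖F x‖ ^ 2) := fun F =>
      (F.memLp 2).integrable_norm_pow (by norm_num)
    calc ∫ x, (sd_re (sd_T (sd_up f)) x) ^ 2 ≤ ∫ x, ‖sd_T (sd_up f) x‖ ^ 2 := by
          refine integral_mono_of_nonneg (Filter.Eventually.of_forall fun x => sq_nonneg _) (h1 _)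
            (Filter.Eventually.of_forall fun x => ?_)
          simp only
          rw [sd_re_apply, ← sq_abs]
          exact pow_le_pow_left₀ (abs_nonneg _) (Complex.abs_re_le_norm _) 2
      _ = ∫ ξ, ‖FourierTransform.fourier (sd_T (sd_up f)) ξ‖ ^ 2 := (SchwartzMap.integral_norm_sq_fourier _).symm
      _ ≤ ∫ ξ, ‖FourierTransform.fourier (sd_up f) ξ‖ ^ 2 := by
          refine integral_mono_of_nonneg (Filter.Eventually.of_forall fun x => sq_nonneg _) (h1 _)
            (Filter.Eventually.of_forall fun x => ?_)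
          simp only
          rw [sd_F, norm_mul]
          refine pow_le_pow_left₀ (by positivity) ?_ 2
          have h2 : ‖((sd_g (EuclideanSpace ℝ ι) x : ℝ) : ℂ)‖ ≤ 1 := by
            rw [Complex.norm_real, Real.norm_eq_abs, abs_of_nonneg (sd_g_nonneg _ _)]
            exact sd_g_le _ _
          exact mul_le_of_le_one_left (norm_nonneg _) h2
      _ = ∫ x, ‖sd_up f x‖ ^ 2 := SchwartzMap.integral_norm_sq_fourier _
      _ = ∫ x, (f x) ^ 2 := by
          refine integral_congr_ae (Filter.Eventually.of_forall fun x => ?_)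
          simp only
          rw [sd_up_apply, Complex.norm_real, Real.norm_eq_abs, sq_abs]
/- END sd -/

/- MODULE se
Transport to `ι → ℝ` by the continuous linear equivalence `EuclideanSpace.equiv ι ℝ`
(`SchwartzMap.compCLMOfContinuousLinearEquiv`, `SchwartzMap.lineDerivOp_compCLMOfContinuousLinearEquiv`,
`SchwartzMap.laplacian_eq_sum` with `EuclideanSpace.basisFun`; it preserves the volume:
`PiLp.volume_preserving_ofLp` / `EuclideanSpace.volume_preserving_measurableEquiv`). -/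
private theorem se_int {ι : Type*} [Fintype ι] (φ : (ι → ℝ) → ℝ) :
    ∫ x : EuclideanSpace ℝ ι, φ (EuclideanSpace.equiv ι ℝ x) = ∫ h, φ h :=
  (PiLp.volume_preserving_ofLp ι).integral_comp
    ((EuclideanSpace.equiv ι ℝ).toHomeomorph.measurableEmbedding) φ

private def se_U {ι : Type*} [Fintype ι] : 𝓢(ι → ℝ, ℝ) →L[ℝ] 𝓢(EuclideanSpace ℝ ι, ℝ) :=
  SchwartzMap.compCLMOfContinuousLinearEquiv ℝ (EuclideanSpace.equiv ι ℝ)

private def se_D {ι : Type*} [Fintype ι] : 𝓢(EuclideanSpace ℝ ι, ℝ) →L[ℝ] 𝓢(ι → ℝ, ℝ) :=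
  SchwartzMap.compCLMOfContinuousLinearEquiv ℝ (EuclideanSpace.equiv ι ℝ).symm

private theorem se_U_apply {ι : Type*} [Fintype ι] (f : 𝓢(ι → ℝ, ℝ)) (x : EuclideanSpace ℝ ι) :
    se_U f x = f (EuclideanSpace.equiv ι ℝ x) := rfl

private theorem se_D_apply {ι : Type*} [Fintype ι] (f : 𝓢(EuclideanSpace ℝ ι, ℝ)) (h : ι → ℝ) :
    se_D f h = f ((EuclideanSpace.equiv ι ℝ).symm h) := rfl

private theorem se_dx (x : ι) (G : 𝓢(EuclideanSpace ℝ ι, ℝ)) :
    dx x (se_D G) = se_D (LineDeriv.lineDerivOp (EuclideanSpace.basisFun ι ℝ x) G) := by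
  unfold dx se_D
  rw [LineDeriv.lineDerivOpCLM_apply, SchwartzMap.lineDerivOp_compCLMOfContinuousLinearEquiv]
  congr 2
  rw [EuclideanSpace.basisFun_apply]
  rfl

theorem resolvent : ∃ B : 𝓢(ι → ℝ, ℝ) →ₗ[ℝ] 𝓢(ι → ℝ, ℝ),
    (∀ f, B f - ∑ x, dx x (dx x (B f)) = f) ∧
    (∀ f g, ∫ x, B f x * g x = ∫ x, f x * B g x) ∧
    (∀ f, ∫ x, (B f x) ^ 2 ≤ ∫ x, (f x) ^ 2) := by
  obtain ⟨B, h1, h2, h3⟩ := resolvent_E ι
  refine ⟨se_D.toLinearMap ∘ₗ B ∘ₗ se_U.toLinearMap, fun f => ?_, fun f g => ?_, fun f => ?_⟩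
  · change se_D (B (se_U f)) - ∑ x, dx x (dx x (se_D (B (se_U f)))) = f
    simp_rw [se_dx]
    rw [← map_sum, ← SchwartzMap.laplacian_eq_sum (EuclideanSpace.basisFun ι ℝ), ← map_sub, h1]
    ext h
    rw [se_D_apply, se_U_apply, ContinuousLinearEquiv.apply_symm_apply]
  · change ∫ h, se_D (B (se_U f)) h * g h = ∫ h, f h * se_D (B (se_U g)) h
    rw [← se_int, ← se_int (fun h => f h * se_D (B (se_U g)) h)]
    simp only [se_D_apply, ContinuousLinearEquiv.symm_apply_apply]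
    exact h2 (se_U f) (se_U g)
  · change ∫ h, (se_D (B (se_U f)) h) ^ 2 ≤ ∫ h, (f h) ^ 2
    rw [← se_int, ← se_int (fun h => (f h) ^ 2)]
    simp only [se_D_apply, ContinuousLinearEquiv.symm_apply_apply]
    exact h3 (se_U f)
/- END se -/

/- MODULE sf
Weakly constant functions are constant: for a smooth bump `χ` the convolution `χ ⋆ F` has derivative
`(fderiv χ) ⋆ F = 0` (`HasCompactSupport.hasFDerivAt_convolution_left`), so it is constant; for bumps
shrinking to a point `χ_n ⋆ F → F` almost everywhere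
(`ContDiffBump.ae_convolution_tendsto_right_of_locallyIntegrable`). -/
open scoped Convolution in
private theorem sf_step {F : (ι → ℝ) → ℝ} (hF : LocallyIntegrable F)
    (H : ∀ χ : (ι → ℝ) → ℝ, ContDiff ℝ ∞ χ → HasCompactSupport χ → ∀ x : ι,
      ∫ h, F h * pd x χ h = 0) {χ : (ι → ℝ) → ℝ} (h1 : ContDiff ℝ ∞ χ)
    (h2 : HasCompactSupport χ) (x₀ y₀ : ι → ℝ) :
    (χ ⋆[ContinuousLinearMap.lsmul ℝ ℝ, volume] F) x₀ =
      (χ ⋆[ContinuousLinearMap.lsmul ℝ ℝ, volume] F) y₀ := by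
  have h1' : ContDiff ℝ 1 χ := h1.of_le (by exact_mod_cast le_top)
  have hd : ∀ z, HasFDerivAt (χ ⋆[ContinuousLinearMap.lsmul ℝ ℝ, volume] F)
      (0 : (ι → ℝ) →L[ℝ] ℝ) z := by
    intro z
    have h3 := h2.hasFDerivAt_convolution_left (ContinuousLinearMap.lsmul ℝ ℝ) h1' hF z
    have h4 : (fderiv ℝ χ ⋆[(ContinuousLinearMap.lsmul ℝ ℝ).precompL (ι → ℝ), volume] F) z
        = 0 := by
      have hint : Integrable (fun t => ((ContinuousLinearMap.lsmul ℝ ℝ).precompL (ι → ℝ))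
          (fderiv ℝ χ t) (F (z - t))) :=
        (h2.fderiv ℝ).convolutionExists_left _ (h1'.continuous_fderiv one_ne_zero) hF z
      apply ContinuousLinearMap.coe_injective
      apply LinearMap.pi_ext
      intro x r
      show (fderiv ℝ χ ⋆[(ContinuousLinearMap.lsmul ℝ ℝ).precompL (ι → ℝ), volume] F) z
        (Pi.single x r) = 0
      have h5 : (fderiv ℝ χ ⋆[(ContinuousLinearMap.lsmul ℝ ℝ).precompL (ι → ℝ), volume] F) z
          (Pi.single x 1) = 0 := by
        rw [MeasureTheory.convolution_def, ContinuousLinearMap.integral_apply hint]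
        have h6 : ∀ t, ((ContinuousLinearMap.lsmul ℝ ℝ).precompL (ι → ℝ))
            (fderiv ℝ χ t) (F (z - t)) (Pi.single x 1) = (fun s => pd x χ (z - s) * F s)
              (z - t) := by
          intro t
          simp only [ContinuousLinearMap.precompL_apply, ContinuousLinearMap.lsmul_apply,
            smul_eq_mul, pd, sub_sub_cancel]
        rw [integral_congr_ae (Eventually.of_forall h6),
          integral_sub_left_eq_self (fun s => pd x χ (z - s) * F s) volume z]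
        have h7 := H (fun s => χ (z - s)) (h1.comp (contDiff_const.sub contDiff_id))
          (h2.comp_homeomorph (Homeomorph.subLeft z)) x
        have h8 : ∀ s, F s * pd x (fun s => χ (z - s)) s = - (pd x χ (z - s) * F s) := by
          intro s
          have h9 : HasFDerivAt (fun s => χ (z - s))
              ((fderiv ℝ χ (z - s)).comp (-(ContinuousLinearMap.id ℝ (ι → ℝ)))) s := by
            refine HasFDerivAt.comp s
              ((h1'.differentiable one_ne_zero) (z - s)).hasFDerivAt ?_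
            exact (hasFDerivAt_id s).const_sub z
          rw [pd, h9.fderiv, pd]
          simp [mul_comm]
        rw [integral_congr_ae (Eventually.of_forall h8), integral_neg, neg_eq_zero] at h7
        exact h7
      have h10 : (Pi.single x r : ι → ℝ) = r • Pi.single x (1 : ℝ) := by
        rw [← Pi.single_smul, smul_eq_mul, mul_one]
      rw [h10, map_smul, h5, smul_zero]
    rw [h4] at h3
    exact h3
  exact is_const_of_fderiv_eq_zero (fun z => (hd z).differentiableAt)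
    (fun z => (hd z).fderiv) x₀ y₀

theorem weak_const {F : (ι → ℝ) → ℝ} (hF : LocallyIntegrable F)
    (H : ∀ χ : (ι → ℝ) → ℝ, ContDiff ℝ ∞ χ → HasCompactSupport χ → ∀ x : ι,
      ∫ h, F h * pd x χ h = 0) : ∃ c : ℝ, F =ᵐ[volume] fun _ => c := by
  let φ : ℕ → ContDiffBump (0 : ι → ℝ) := fun n =>
    ⟨1 / ((n : ℝ) + 1), 2 / ((n : ℝ) + 1), by positivity, by
      apply div_lt_div_of_pos_right (by norm_num) (by positivity)⟩
  have h1 : Tendsto (fun n => (φ n).rOut) atTop (𝓝 0) := by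
    have h2 := (tendsto_one_div_add_atTop_nhds_zero_nat (𝕜 := ℝ)).const_mul 2
    rw [mul_zero] at h2
    refine h2.congr fun n => ?_
    show 2 * (1 / ((n : ℝ) + 1)) = 2 / ((n : ℝ) + 1)
    ring
  have h2 : ∀ᶠ n in atTop, (φ n).rOut ≤ 2 * (φ n).rIn := by
    refine Eventually.of_forall fun n => ?_
    show 2 / ((n : ℝ) + 1) ≤ 2 * (1 / ((n : ℝ) + 1))
    apply le_of_eq
    ring
  have h3 := ContDiffBump.ae_convolution_tendsto_right_of_locallyIntegrable
    (μ := (volume : Measure (ι → ℝ))) h1 h2 hF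
  have h4 := fun n => sf_step hF H ((φ n).contDiff_normed (μ := (volume : Measure (ι → ℝ)))
    (n := ⊤)) ((φ n).hasCompactSupport_normed (μ := (volume : Measure (ι → ℝ))))
  obtain ⟨z, hz⟩ := h3.exists
  refine ⟨F z, ?_⟩
  filter_upwards [h3] with y hy
  refine tendsto_nhds_unique hy (hz.congr fun n => h4 n z y)
/- END sf -/

/- MODULE sg
The range of a linear operator on Schwartz functions is dense near `L` if `L` is orthogonal to its
orthogonal complement (`Submodule.orthogonal_orthogonal_eq_closure` in `Lp ℝ 2 volume`;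
inner product = integral of the product). -/
omit [DecidableEq ι] in
private theorem sg_sq {f g : (ι → ℝ) → ℝ} (hf : MemLp f 2 (volume : Measure (ι → ℝ)))
    (hg : MemLp g 2 (volume : Measure (ι → ℝ))) :
    ∫ h, (f h - g h) ^ 2 = ‖hf.toLp f - hg.toLp g‖ ^ 2 := by
  rw [← MemLp.toLp_sub hf hg, ← real_inner_self_eq_norm_sq, L2.inner_def]
  refine integral_congr_ae ?_
  filter_upwards [(hf.sub hg).coeFn_toLp] with h hh
  rw [hh]
  simp [pow_two]

theorem approx_of_orth (T : 𝓢(ι → ℝ, ℝ) → 𝓢(ι → ℝ, ℝ)) (hadd : ∀ f g, T (f + g) = T f + T g)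
    (hsm : ∀ (c : ℝ) f, T (c • f) = c • T f) {L : (ι → ℝ) → ℝ} (hL : MemLp L 2)
    (H : ∀ ψ : (ι → ℝ) → ℝ, MemLp ψ 2 → (∀ f, ∫ h, ψ h * T f h = 0) → ∫ h, ψ h * L h = 0)
    {η : ℝ} (hη : 0 < η) : ∃ f, ∫ h, (T f h - L h) ^ 2 ≤ η := by
  let T0 : 𝓢(ι → ℝ, ℝ) →ₗ[ℝ] 𝓢(ι → ℝ, ℝ) := { toFun := T, map_add' := hadd, map_smul' := hsm }
  let T1 : 𝓢(ι → ℝ, ℝ) →ₗ[ℝ] Lp ℝ 2 (volume : Measure (ι → ℝ)) :=
    (SchwartzMap.toLpCLM ℝ ℝ 2 volume).toLinearMap ∘ₗ T0
  let M := LinearMap.range T1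
  have hmem : hL.toLp L ∈ M.topologicalClosure := by
    rw [← Submodule.orthogonal_orthogonal_eq_closure, Submodule.mem_orthogonal]
    intro ψ hψ
    rw [Submodule.mem_orthogonal'] at hψ
    have h1 := H ψ (Lp.memLp ψ) (fun f => by
      have h2 := hψ (T1 f) ⟨f, rfl⟩
      rw [L2.inner_def] at h2
      rw [← h2]
      refine integral_congr_ae ?_
      have h3 := (T f).coeFn_toLp 2 (volume : Measure (ι → ℝ))
      filter_upwards [h3] with h hh
      have h4 : T1 f = (T f).toLp 2 volume := rfl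
      rw [h4, hh]
      simp [mul_comm])
    rw [L2.inner_def]
    rw [← h1]
    refine integral_congr_ae ?_
    filter_upwards [hL.coeFn_toLp] with h hh
    rw [hh]
    simp [mul_comm]
  have hmem' : hL.toLp L ∈ closure (M : Set (Lp ℝ 2 (volume : Measure (ι → ℝ)))) := by
    rw [← Submodule.topologicalClosure_coe]
    exact hmem
  rw [Metric.mem_closure_iff] at hmem'
  obtain ⟨z, ⟨f, rfl⟩, hz⟩ := hmem' (Real.sqrt η) (Real.sqrt_pos.2 hη)
  refine ⟨f, ?_⟩
  rw [sg_sq ((T f).memLp 2 volume) hL]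
  have h5 : ‖((T f).memLp 2 volume).toLp (T f) - hL.toLp L‖ < Real.sqrt η := by
    rw [← dist_eq_norm, dist_comm]
    exact hz
  calc ‖((T f).memLp 2 volume).toLp (T f) - hL.toLp L‖ ^ 2 ≤ (Real.sqrt η) ^ 2 := by
        gcongr
    _ = η := Real.sq_sqrt hη.le
/- END sg -/

/- MODULE sh
The orthogonal complement of the range of `Ao V`.  `W = Wf V` is bounded.  Let `B` be the resolvent.
`Ao V (B χ) = χ - (1 - W) B χ`, so `∫ ψ χ = ∫ ψ (1 - W) B χ` for all Schwartz `χ`.  Put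
`ρ = (1 - W) ψ ∈ L²`; take Schwartz `ρ_j → ρ` in `L²` (`SchwartzMap.denseRange_toLpCLM`) and
`φ_j = B ρ_j`, a Cauchy sequence in `L²`; `∫ φ_j χ = ∫ ρ_j B χ → ∫ ρ B χ = ∫ ψ χ`, so `φ_j → ψ` in
`L²`.  `Ao V φ_j = ρ_j - (1 - W) φ_j → ρ - (1 - W) ψ = 0` in `L²`, hence by `dirichlet`
`∑ x, ∫ (av V x φ_j)^2 → 0` and `∫ ψ (ad V x f) = lim ∫ φ_j (ad V x f) = lim ∫ av V x φ_j * f = 0`. -/
omit [DecidableEq ι] in
private theorem sh_inner {f g : (ι → ℝ) → ℝ} (hf : MemLp f 2) (hg : MemLp g 2) :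
    inner ℝ (hf.toLp f) (hg.toLp g) = ∫ h, f h * g h := by
  rw [MeasureTheory.L2.inner_def]
  apply integral_congr_ae
  filter_upwards [hf.coeFn_toLp, hg.coeFn_toLp] with h h1 h2
  rw [h1, h2]
  simp [mul_comm]

omit [DecidableEq ι] in
private theorem sh_sq {f : (ι → ℝ) → ℝ} (hf : MemLp f 2) :
    ‖hf.toLp f‖ ^ 2 = ∫ h, (f h) ^ 2 := by
  rw [← real_inner_self_eq_norm_sq, sh_inner]
  simp only [sq]

private theorem sh_Wcont {V : (ι → ℝ) → ℝ} (hV : V.HasTemperateGrowth) : Continuous (Wf V) := by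
  unfold Wf
  refine continuous_finsetSum _ fun x _ => ?_
  have h1 : Continuous (pd x V) := (pd_temp hV x).1.continuous
  have h2 : Continuous (pd x (pd x V)) := (pd_temp (pd_temp hV x) x).1.continuous
  exact ((h1.pow 2).div_const 4).sub (h2.div_const 2)

theorem kernel_one {V : (ι → ℝ) → ℝ} (hV : V.HasTemperateGrowth)
    (h1 : ∃ C : ℝ, ∀ h, |Wf V h| ≤ C) {ψ : (ι → ℝ) → ℝ} (hψ : MemLp ψ 2)
    (H : ∀ f, ∫ h, ψ h * Ao V f h = 0) (x : ι) (f : 𝓢(ι → ℝ, ℝ)) :
    ∫ h, ψ h * ad V x f h = 0 := by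
  obtain ⟨B, hB1, hB2, hB3⟩ := resolvent (ι := ι)
  obtain ⟨C, hC⟩ := h1
  have hC0 : 0 ≤ C := (abs_nonneg _).trans (hC 0)
  have hWc := sh_Wcont hV
  have hW1 : ∀ h, |1 - Wf V h| ≤ 1 + C := fun h => by
    have h2 := abs_sub (1 : ℝ) (Wf V h)
    rw [abs_one] at h2
    linarith [hC h]
  have hAo : ∀ (g : 𝓢(ι → ℝ, ℝ)) (h : ι → ℝ),
      Ao V (B g) h = g h - (1 - Wf V h) * B g h := by
    intro g h
    have h2 : (B g - ∑ x, dx x (dx x (B g))) h = g h := by rw [hB1]
    rw [sub_apply, sum_apply] at h2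
    rw [Ao_apply hV]
    linarith
  have hρ : MemLp (fun h => (1 - Wf V h) * ψ h) 2 := by
    refine MemLp.of_le_mul (c := 1 + C) hψ
      ((continuous_const.sub hWc).aestronglyMeasurable.mul hψ.1) (Eventually.of_forall ?_)
    intro h
    rw [norm_mul, Real.norm_eq_abs]
    exact mul_le_mul_of_nonneg_right (hW1 h) (norm_nonneg _)
  have sm : ∀ g : 𝓢(ι → ℝ, ℝ), MemLp g 2 (volume : Measure (ι → ℝ)) := fun g => g.memLp 2
  -- key 1
  have key1 : ∀ χ : 𝓢(ι → ℝ, ℝ), inner ℝ (hψ.toLp ψ) ((sm χ).toLp χ) =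
      inner ℝ (hρ.toLp _) ((sm (B χ)).toLp (B χ)) := by
    intro χ
    rw [sh_inner, sh_inner]
    have h2 := H (B χ)
    have h3 : ∀ h, ψ h * Ao V (B χ) h = ψ h * χ h - (1 - Wf V h) * ψ h * B χ h := by
      intro h
      rw [hAo]
      ring
    have i1 : Integrable (fun h => ψ h * χ h) := hψ.integrable_mul (sm χ)
    have i2 : Integrable (fun h => (1 - Wf V h) * ψ h * B χ h) := hρ.integrable_mul (sm (B χ))
    rw [integral_congr_ae (Eventually.of_forall h3), integral_sub i1 i2] at h2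
    linarith
  have dense := SchwartzMap.denseRange_toLpCLM (E := ι → ℝ) (F := ℝ) (p := 2) (μ := volume)
    (by norm_num)
  have normB : ∀ χ : 𝓢(ι → ℝ, ℝ), ‖(sm (B χ)).toLp (B χ)‖ ≤ ‖(sm χ).toLp χ‖ := by
    intro χ
    refine le_of_sq_le_sq ?_ (norm_nonneg _)
    rw [sh_sq, sh_sq]
    exact hB3 χ
  -- key 2
  have key2 : ∀ g : 𝓢(ι → ℝ, ℝ), ‖(sm (B g)).toLp (B g) - hψ.toLp ψ‖ ≤
      ‖(sm g).toLp g - hρ.toLp _‖ := by
    intro g
    set Φ := (sm (B g)).toLp (B g) - hψ.toLp ψ with hΦ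
    set Δ := (sm g).toLp g - hρ.toLp _ with hΔ
    have h2 : ∀ y : Lp ℝ 2 (volume : Measure (ι → ℝ)), inner ℝ Φ y ≤ ‖Δ‖ * ‖y‖ := by
      intro y
      refine dense.induction_on (p := fun y => inner ℝ Φ y ≤ ‖Δ‖ * ‖y‖) y ?_ ?_
      · exact isClosed_le (continuous_const.inner continuous_id)
          (continuous_const.mul continuous_norm)
      · intro χ
        show inner ℝ Φ ((sm χ).toLp χ) ≤ ‖Δ‖ * ‖(sm χ).toLp χ‖
        have h3 : inner ℝ Φ ((sm χ).toLp χ) = inner ℝ Δ ((sm (B χ)).toLp (B χ)) := by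
          rw [hΦ, hΔ, inner_sub_left, inner_sub_left, key1, sh_inner (sm (B g)) (sm χ), sh_inner hρ,
            sh_inner (sm g) (sm (B χ)), hB2]
        rw [h3]
        exact (real_inner_le_norm _ _).trans
          (mul_le_mul_of_nonneg_left (normB χ) (norm_nonneg _))
    have h4 := h2 Φ
    rw [real_inner_self_eq_norm_sq, sq] at h4
    by_cases h5 : ‖Φ‖ = 0
    · rw [h5]
      exact norm_nonneg _
    · exact le_of_mul_le_mul_right h4 (lt_of_le_of_ne (norm_nonneg _) (Ne.symm h5))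
  -- key 3
  have key3 : ∀ g : 𝓢(ι → ℝ, ℝ), ‖(sm (Ao V (B g))).toLp (Ao V (B g))‖ ≤
      (2 + C) * ‖(sm g).toLp g - hρ.toLp _‖ := by
    intro g
    set Φ := (sm (B g)).toLp (B g) - hψ.toLp ψ with hΦ
    set Δ := (sm g).toLp g - hρ.toLp _ with hΔ
    have h2 : ‖(sm (Ao V (B g))).toLp (Ao V (B g)) - Δ‖ ≤ (1 + C) * ‖Φ‖ := by
      refine Lp.norm_le_mul_norm_of_ae_le_mul ?_
      filter_upwards [Lp.coeFn_sub ((sm (Ao V (B g))).toLp (Ao V (B g))) Δ,
        Lp.coeFn_sub ((sm (B g)).toLp (B g)) (hψ.toLp ψ),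
        Lp.coeFn_sub ((sm g).toLp g) (hρ.toLp _), (sm (Ao V (B g))).coeFn_toLp,
        (sm (B g)).coeFn_toLp, (sm g).coeFn_toLp, hψ.coeFn_toLp, hρ.coeFn_toLp]
        with h e1 e2 e3 e4 e5 e6 e7 e8
      rw [e1, hΦ, e2, Pi.sub_apply, Pi.sub_apply, e3, Pi.sub_apply, e4, e5, e6, e7, e8, hAo]
      have e9 : g h - (1 - Wf V h) * B g h - (g h - (1 - Wf V h) * ψ h) =
          -((1 - Wf V h) * (B g h - ψ h)) := by ring
      rw [e9, norm_neg, norm_mul, Real.norm_eq_abs]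
      exact mul_le_mul_of_nonneg_right (hW1 h) (norm_nonneg _)
    have h3 := norm_sub_norm_le ((sm (Ao V (B g))).toLp (Ao V (B g))) Δ
    have h4 := key2 g
    have h5 : (1 + C) * ‖Φ‖ ≤ (1 + C) * ‖Δ‖ :=
      mul_le_mul_of_nonneg_left h4 (by linarith)
    linarith
  -- key 4
  have key4 : ∀ g : 𝓢(ι → ℝ, ℝ), ‖(sm (av V x (B g))).toLp (av V x (B g))‖ ^ 2 ≤
      (‖hψ.toLp ψ‖ + ‖(sm g).toLp g - hρ.toLp _‖) *
        ((2 + C) * ‖(sm g).toLp g - hρ.toLp _‖) := by
    intro g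
    have h2 := dirichlet hV (B g)
    have h3 : ‖(sm (av V x (B g))).toLp (av V x (B g))‖ ^ 2 ≤
        ∑ x, ∫ h, (av V x (B g) h) ^ 2 := by
      rw [sh_sq]
      exact Finset.single_le_sum (f := fun x => ∫ h, (av V x (B g) h) ^ 2)
        (fun y _ => integral_nonneg fun h => sq_nonneg _) (Finset.mem_univ x)
    rw [← h2, ← sh_inner (sm (B g)) (sm (Ao V (B g)))] at h3
    have h4 := real_inner_le_norm ((sm (B g)).toLp (B g)) ((sm (Ao V (B g))).toLp (Ao V (B g)))
    have h5 : ‖(sm (B g)).toLp (B g)‖ ≤ ‖hψ.toLp ψ‖ + ‖(sm g).toLp g - hρ.toLp _‖ := by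
      have h6 := norm_sub_norm_le ((sm (B g)).toLp (B g)) (hψ.toLp ψ)
      linarith [key2 g]
    exact h3.trans (h4.trans (mul_le_mul h5 (key3 g) (norm_nonneg _) (by positivity)))
  -- the estimate
  have key5 : ∀ y : Lp ℝ 2 (volume : Measure (ι → ℝ)),
      |∫ h, ψ h * ad V x f h| ≤ ‖y - hρ.toLp _‖ * ‖(sm (ad V x f)).toLp (ad V x f)‖ +
        Real.sqrt ((‖hψ.toLp ψ‖ + ‖y - hρ.toLp _‖) * ((2 + C) * ‖y - hρ.toLp _‖)) *
          ‖(sm f).toLp f‖ := by
    intro y
    refine dense.induction_on (p := fun y => |∫ h, ψ h * ad V x f h| ≤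
      ‖y - hρ.toLp _‖ * ‖(sm (ad V x f)).toLp (ad V x f)‖ +
        Real.sqrt ((‖hψ.toLp ψ‖ + ‖y - hρ.toLp _‖) * ((2 + C) * ‖y - hρ.toLp _‖)) *
          ‖(sm f).toLp f‖) y ?_ ?_
    · refine isClosed_le continuous_const ?_
      fun_prop
    · intro g
      show |∫ h, ψ h * ad V x f h| ≤
        ‖(sm g).toLp g - hρ.toLp _‖ * ‖(sm (ad V x f)).toLp (ad V x f)‖ +
        Real.sqrt ((‖hψ.toLp ψ‖ + ‖(sm g).toLp g - hρ.toLp _‖) *
          ((2 + C) * ‖(sm g).toLp g - hρ.toLp _‖)) * ‖(sm f).toLp f‖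
      have h2 : ∫ h, ψ h * ad V x f h =
          inner ℝ (hψ.toLp ψ - (sm (B g)).toLp (B g)) ((sm (ad V x f)).toLp (ad V x f)) +
            inner ℝ ((sm (av V x (B g))).toLp (av V x (B g))) ((sm f).toLp f) := by
        rw [inner_sub_left, sh_inner, sh_inner, sh_inner, av_ad hV]
        ring
      rw [h2]
      refine (abs_add_le _ _).trans (add_le_add ?_ ?_)
      · refine (abs_real_inner_le_norm _ _).trans
          (mul_le_mul_of_nonneg_right ?_ (norm_nonneg _))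
        rw [norm_sub_rev]
        exact key2 g
      · refine (abs_real_inner_le_norm _ _).trans
          (mul_le_mul_of_nonneg_right ?_ (norm_nonneg _))
        exact Real.le_sqrt_of_sq_le (key4 g)
  have h6 := key5 (hρ.toLp _)
  rw [sub_self, norm_zero, zero_mul, mul_zero, mul_zero, Real.sqrt_zero, zero_mul, add_zero] at h6
  exact abs_eq_zero.mp (le_antisymm h6 (abs_nonneg _))
/- END sh -/

/- MODULE si
`F = e^{V/2} ψ` is locally integrable; for a smooth compactly supported `χ` take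
`f = e^{V/2} χ` (`HasCompactSupport.toSchwartzMap`): `ad V x f = - e^{V/2} ∂_x χ`, so
`∫ F ∂_x χ = 0`; `weak_const`. -/
theorem kernel_two {V : (ι → ℝ) → ℝ} (hV : V.HasTemperateGrowth) {ψ : (ι → ℝ) → ℝ}
    (hψ : MemLp ψ 2) (H : ∀ (x : ι) (f : 𝓢(ι → ℝ, ℝ)), ∫ h, ψ h * ad V x f h = 0) :
    ∃ c : ℝ, ψ =ᵐ[volume] fun h => c * Real.exp (- V h / 2) := by
  have hVc : ContDiff ℝ ∞ V := hV.1
  have he : ContDiff ℝ ∞ (fun h => Real.exp (V h / 2)) := (hVc.div_const 2).exp
  have hF : LocallyIntegrable (fun h => Real.exp (V h / 2) * ψ h) :=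
    (hψ.locallyIntegrable (by norm_num)).continuous_mul he.continuous
  obtain ⟨c, hc⟩ := weak_const hF (by
    intro χ hχ hs x
    have hs' : HasCompactSupport (fun h => Real.exp (V h / 2) * χ h) := hs.mul_left
    have hsm : ContDiff ℝ ∞ (fun h => Real.exp (V h / 2) * χ h) := he.mul hχ
    have h1 := H x (hs'.toSchwartzMap hsm)
    have h2 : ∀ h, ψ h * ad V x (hs'.toSchwartzMap hsm) h =
        -(Real.exp (V h / 2) * ψ h * pd x χ h) := by
      intro h
      rw [ad_apply hV]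
      have h3 : (⇑(hs'.toSchwartzMap hsm) : (ι → ℝ) → ℝ) = fun h => Real.exp (V h / 2) * χ h := rfl
      rw [h3, pd_mul (he.differentiable (by norm_num) h) (hχ.differentiable (by norm_num) h)]
      have h4 : pd x (fun k => Real.exp (V k / 2)) h = Real.exp (V h / 2) * (pd x V h / 2) := by
        have hd : HasFDerivAt V (fderiv ℝ V h) h :=
          (hVc.differentiable (by norm_num) h).hasFDerivAt
        have hd2 := (hd.mul_const (2 : ℝ)⁻¹).exp
        have hd3 : HasFDerivAt (fun k => Real.exp (V k / 2))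
            (Real.exp (V h * 2⁻¹) • (2 : ℝ)⁻¹ • fderiv ℝ V h) h := by
          simpa only [div_eq_mul_inv] using hd2
        unfold pd
        rw [hd3.fderiv]
        simp only [_root_.smul_apply, smul_eq_mul, div_eq_mul_inv]
        ring
      rw [h4]
      ring
    rw [integral_congr_ae (ae_of_all _ h2), integral_neg, neg_eq_zero] at h1
    exact h1)
  refine ⟨c, ?_⟩
  filter_upwards [hc] with h hh
  have h5 : Real.exp (- V h / 2) * Real.exp (V h / 2) = 1 := by
    rw [← Real.exp_add]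
    have : - V h / 2 + V h / 2 = 0 := by ring
    rw [this, Real.exp_zero]
  calc ψ h = (Real.exp (- V h / 2) * Real.exp (V h / 2)) * ψ h := by rw [h5, one_mul]
    _ = Real.exp (- V h / 2) * (Real.exp (V h / 2) * ψ h) := by ring
    _ = c * Real.exp (- V h / 2) := by rw [hh]; ring
/- END si -/

/- MODULE sj
Exponential decay beats polynomials (`integrable_one_add_norm`). -/
private theorem sj_bound (k : ℕ) (N : ℕ) {c : ℝ} (hc : 0 < c) :
    ∃ C : ℝ, ∀ t : ℝ, 0 ≤ t → t ^ k * Real.exp (-(c * t)) ≤ C * ((1 + t) ^ N)⁻¹ := by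
  refine ⟨((k + N).factorial : ℝ) * Real.exp c / c ^ (k + N), fun t ht => ?_⟩
  have h1 : (0 : ℝ) < 1 + t := by linarith
  have h2 := Real.pow_div_factorial_le_exp (x := c * (1 + t)) (by positivity) (k + N)
  have hf : (0 : ℝ) < ((k + N).factorial : ℝ) := by exact_mod_cast Nat.factorial_pos _
  rw [div_le_iff₀ hf, mul_pow] at h2
  have h3 : t ^ k ≤ (1 + t) ^ k := pow_le_pow_left₀ ht (by linarith) k
  have h4 : (1 + t) ^ (k + N) ≤ Real.exp (c * (1 + t)) * (k + N).factorial / c ^ (k + N) := by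
    rw [le_div_iff₀ (by positivity)]
    linarith [h2, mul_comm (c ^ (k + N)) ((1 + t) ^ (k + N))]
  have h5 : Real.exp (c * (1 + t)) * Real.exp (-(c * t)) = Real.exp c := by
    rw [← Real.exp_add]
    congr 1
    ring
  rw [← div_eq_mul_inv, le_div_iff₀ (by positivity)]
  calc t ^ k * Real.exp (-(c * t)) * (1 + t) ^ N
      ≤ (1 + t) ^ k * Real.exp (-(c * t)) * (1 + t) ^ N := by gcongr
    _ = (1 + t) ^ (k + N) * Real.exp (-(c * t)) := by rw [pow_add]; ring
    _ ≤ Real.exp (c * (1 + t)) * (k + N).factorial / c ^ (k + N) * Real.exp (-(c * t)) := by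
        gcongr
    _ = (k + N).factorial * (Real.exp (c * (1 + t)) * Real.exp (-(c * t))) / c ^ (k + N) := by
        ring
    _ = _ := by rw [h5]

theorem exp_int {V : (ι → ℝ) → ℝ} (hV : Continuous V) {a A : ℝ} (ha : 0 < a)
    (hlow : ∀ h, a * ‖h‖ - A ≤ V h) (k : ℕ) {r : ℝ} (hr : 0 < r) :
    Integrable (fun h => ‖h‖ ^ k * Real.exp (- r * V h)) := by
  obtain ⟨C, hC⟩ := sj_bound k (Module.finrank ℝ (ι → ℝ) + 1) (c := r * a) (by positivity)
  have h1 : Integrable (fun h : ι → ℝ =>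
      (1 + ‖h‖) ^ (-((Module.finrank ℝ (ι → ℝ) + 1 : ℕ) : ℝ))) :=
    integrable_one_add_norm (by push_cast; linarith)
  refine (h1.const_mul (Real.exp (r * A) * C)).mono' ?_ (ae_of_all _ fun h => ?_)
  · exact ((continuous_norm.pow k).mul (Real.continuous_exp.comp
      (continuous_const.mul hV))).aestronglyMeasurable
  · rw [Real.norm_of_nonneg (by positivity)]
    have h2 : (1 + ‖h‖) ^ (-((Module.finrank ℝ (ι → ℝ) + 1 : ℕ) : ℝ)) =
        ((1 + ‖h‖) ^ (Module.finrank ℝ (ι → ℝ) + 1))⁻¹ := by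
      rw [Real.rpow_neg (by positivity), Real.rpow_natCast]
    rw [h2]
    have h3 := hC ‖h‖ (norm_nonneg h)
    have h4 : Real.exp (- r * V h) ≤ Real.exp (r * A) * Real.exp (-(r * a * ‖h‖)) := by
      rw [← Real.exp_add]
      apply Real.exp_le_exp.2
      nlinarith [hlow h]
    calc ‖h‖ ^ k * Real.exp (- r * V h)
        ≤ ‖h‖ ^ k * (Real.exp (r * A) * Real.exp (-(r * a * ‖h‖))) := by gcongr
      _ = Real.exp (r * A) * (‖h‖ ^ k * Real.exp (-(r * a * ‖h‖))) := by ring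
      _ ≤ Real.exp (r * A) * (C * ((1 + ‖h‖) ^ (Module.finrank ℝ (ι → ℝ) + 1))⁻¹) := by
          gcongr
      _ = _ := by ring

theorem exp_bdd {V : (ι → ℝ) → ℝ} {a A : ℝ} (ha : 0 < a)
    (hlow : ∀ h, a * ‖h‖ - A ≤ V h) (h : ι → ℝ) :
    Real.exp (- V h / 2) ≤ Real.exp (A / 2) := by
  apply Real.exp_le_exp.2
  have := hlow h
  have h2 : 0 ≤ a * ‖h‖ := by positivity
  linarith
/- END sj -/

/-- mean of a linear function -/
def mn (V : (ι → ℝ) → ℝ) (c : ι → ℝ) : ℝ :=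
  (∫ h, (∑ x, c x * h x) * Real.exp (- V h)) / ∫ h, Real.exp (- V h)

/-- the unnormalised variance of a linear function -/
def L2 (V : (ι → ℝ) → ℝ) (c : ι → ℝ) : ℝ :=
  ∫ h, (∑ x, c x * h x - mn V c) ^ 2 * Real.exp (- V h)

/-- the function `(ℓ - mean) e^{-V/2}` -/
def Lf (V : (ι → ℝ) → ℝ) (c : ι → ℝ) (h : ι → ℝ) : ℝ :=
  (∑ x, c x * h x - mn V c) * Real.exp (- V h / 2)

/- MODULE sk
Elementary facts about `Lf` (`exp_int`). -/
omit [DecidableEq ι] in
private theorem sk_lin (c h : ι → ℝ) : |∑ x, c x * h x| ≤ (∑ x, |c x|) * ‖h‖ := by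
  calc |∑ x, c x * h x| ≤ ∑ x, |c x * h x| := Finset.abs_sum_le_sum_abs _ _
    _ ≤ ∑ x, |c x| * ‖h‖ := by
        refine Finset.sum_le_sum fun x _ => ?_
        rw [abs_mul]
        exact mul_le_mul_of_nonneg_left (norm_le_pi_norm h x) (abs_nonneg _)
    _ = _ := by rw [Finset.sum_mul]

omit [DecidableEq ι] in
private theorem sk_cont (c : ι → ℝ) (m : ℝ) : Continuous (fun h : ι → ℝ => ∑ x, c x * h x - m) := by
  fun_prop

private theorem sk_int (V : (ι → ℝ) → ℝ) (hV : Continuous V) {a A : ℝ} (ha : 0 < a)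
    (hlow : ∀ h, a * ‖h‖ - A ≤ V h) (c : ι → ℝ) (m : ℝ) :
    Integrable (fun h => (∑ x, c x * h x - m) * Real.exp (- V h)) := by
  have h0 := exp_int hV ha hlow 0 (one_pos)
  have h1 := exp_int hV ha hlow 1 (one_pos)
  refine Integrable.mono' ((h1.const_mul (∑ x, |c x|)).add (h0.const_mul |m|)) ?_ ?_
  · exact ((sk_cont c m).mul (Real.continuous_exp.comp hV.neg)).aestronglyMeasurable
  · refine Filter.Eventually.of_forall fun h => ?_
    simp only [Pi.add_apply, pow_zero, pow_one, one_mul, neg_mul]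
    rw [Real.norm_eq_abs, abs_mul, abs_of_pos (Real.exp_pos _)]
    have h2 : |∑ x, c x * h x - m| ≤ (∑ x, |c x|) * ‖h‖ + |m| :=
      (abs_sub _ _).trans (by linarith [sk_lin c h])
    have h3 := mul_le_mul_of_nonneg_right h2 (Real.exp_pos (- V h)).le
    linarith

private theorem sk_int2 (V : (ι → ℝ) → ℝ) (hV : Continuous V) {a A : ℝ} (ha : 0 < a)
    (hlow : ∀ h, a * ‖h‖ - A ≤ V h) (c : ι → ℝ) (m : ℝ) :
    Integrable (fun h => (∑ x, c x * h x - m) ^ 2 * Real.exp (- V h)) := by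
  have h0 := exp_int hV ha hlow 0 (one_pos)
  have h2 := exp_int hV ha hlow 2 (one_pos)
  refine Integrable.mono' ((h2.const_mul (2 * (∑ x, |c x|) ^ 2)).add (h0.const_mul (2 * m ^ 2)))
    ?_ ?_
  · exact (((sk_cont c m).pow 2).mul (Real.continuous_exp.comp hV.neg)).aestronglyMeasurable
  · refine Filter.Eventually.of_forall fun h => ?_
    simp only [Pi.add_apply, pow_zero, one_mul, neg_mul]
    rw [Real.norm_eq_abs, abs_mul, abs_of_pos (Real.exp_pos _), abs_of_nonneg (sq_nonneg _)]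
    have h3 : (∑ x, c x * h x) ^ 2 ≤ ((∑ x, |c x|) * ‖h‖) ^ 2 :=
      sq_le_sq' (by linarith [(abs_le.1 (sk_lin c h)).1]) (abs_le.1 (sk_lin c h)).2
    have h4 : (∑ x, c x * h x - m) ^ 2 ≤ 2 * (∑ x, |c x|) ^ 2 * ‖h‖ ^ 2 + 2 * m ^ 2 := by
      nlinarith [sq_nonneg (∑ x, c x * h x + m)]
    have h5 := mul_le_mul_of_nonneg_right h4 (Real.exp_pos (- V h)).le
    linarith

private theorem sk_exp (t : ℝ) : Real.exp (- t / 2) * Real.exp (- t / 2) = Real.exp (- t) := by
  rw [← Real.exp_add]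
  congr 1
  ring

theorem Lf_mem {V : (ι → ℝ) → ℝ} (hV : Continuous V) {a A : ℝ} (ha : 0 < a)
    (hlow : ∀ h, a * ‖h‖ - A ≤ V h) (c : ι → ℝ) : MemLp (Lf V c) 2 := by
  have hm : AEStronglyMeasurable (Lf V c) volume := by
    refine Continuous.aestronglyMeasurable ?_
    exact (sk_cont c (mn V c)).mul (Real.continuous_exp.comp (hV.neg.div_const 2))
  rw [memLp_two_iff_integrable_sq hm]
  have := sk_int2 V hV ha hlow c (mn V c)
  refine this.congr (Filter.Eventually.of_forall fun h => ?_)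
  simp only [Lf]
  rw [mul_pow, sq (Real.exp (- V h / 2)), sk_exp]

theorem Lf_sq {V : (ι → ℝ) → ℝ} (c : ι → ℝ) : ∫ h, (Lf V c h) ^ 2 = L2 V c := by
  unfold L2
  refine integral_congr_ae (Filter.Eventually.of_forall fun h => ?_)
  simp only [Lf]
  rw [mul_pow, sq (Real.exp (- V h / 2)), sk_exp]

theorem Lf_zero {V : (ι → ℝ) → ℝ} (hV : Continuous V) {a A : ℝ} (ha : 0 < a)
    (hlow : ∀ h, a * ‖h‖ - A ≤ V h) (c : ι → ℝ) :
    ∫ h, Real.exp (- V h / 2) * Lf V c h = 0 := by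
  have e1 : ∫ h, Real.exp (- V h / 2) * Lf V c h =
      ∫ h, ((∑ x, c x * h x) * Real.exp (- V h) - mn V c * Real.exp (- V h)) := by
    refine integral_congr_ae (Filter.Eventually.of_forall fun h => ?_)
    simp only [Lf]
    rw [← sk_exp (V h)]
    ring
  have i1 : Integrable (fun h => (∑ x, c x * h x) * Real.exp (- V h)) := by
    have := sk_int V hV ha hlow c 0
    simpa only [sub_zero] using this
  have i0 : Integrable (fun h : ι → ℝ => Real.exp (- V h)) := by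
    have := exp_int hV ha hlow 0 (one_pos)
    simpa only [pow_zero, one_mul, neg_mul] using this
  have hpos : 0 < ∫ h, Real.exp (- V h) := integral_exp_pos i0
  rw [e1, integral_sub i1 (i0.const_mul _), integral_const_mul]
  unfold mn
  rw [div_mul_cancel₀ _ hpos.ne', sub_self]
/- END sk -/

/- MODULE sl
Integration by parts: `Lf * ad V x f = - ∂_x (Lf * f) + c x e^{-V/2} f`, and `Lf * f` is integrable
with integrable derivative (`integral_mul_fderiv_eq_neg_fderiv_mul_of_integrable` or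
`integral_bilinear_hasLineDerivAt_right_eq_neg_left_of_integrable`). -/
omit [DecidableEq ι] in
private theorem sl_temp (c : ι → ℝ) (m : ℝ) :
    (fun h : ι → ℝ => ∑ x, c x * h x - m).HasTemperateGrowth := by
  have h1 : (fun h : ι → ℝ => ∑ x, c x * h x).HasTemperateGrowth := by
    have : (fun h : ι → ℝ => ∑ x, c x * h x) =
        ((∑ x, c x • ContinuousLinearMap.proj (R := ℝ) (φ := fun _ : ι => ℝ) x :
          (ι → ℝ) →L[ℝ] ℝ) : (ι → ℝ) → ℝ) := by
      funext h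
      simp
    rw [this]
    exact ContinuousLinearMap.hasTemperateGrowth _
  exact h1.sub (Function.HasTemperateGrowth.const m)

theorem Lf_ad {V : (ι → ℝ) → ℝ} (hV : V.HasTemperateGrowth) {a A : ℝ} (ha : 0 < a)
    (hlow : ∀ h, a * ‖h‖ - A ≤ V h) (c : ι → ℝ) (x : ι) (f : 𝓢(ι → ℝ, ℝ)) :
    ∫ h, Lf V c h * ad V x f h = c x * ∫ h, f h * Real.exp (- V h / 2) := by
  have hVd : Differentiable ℝ V := hV.1.differentiable (by simp)
  have hVc : Continuous V := hVd.continuous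
  set E : (ι → ℝ) → ℝ := fun h => Real.exp (- V h / 2) with hE
  have hEd : Differentiable ℝ E := by
    have h1 : Differentiable ℝ (fun h => - V h / 2) := by fun_prop
    exact h1.exp
  have hEc : Continuous E := hEd.continuous
  have hEb : ∀ h, ‖E h‖ ≤ Real.exp (A / 2) := by
    intro h
    rw [Real.norm_eq_abs, abs_of_pos (Real.exp_pos _)]
    exact exp_bdd ha hlow h
  have hES : ∀ φ : 𝓢(ι → ℝ, ℝ), Integrable (fun h => E h * φ h) := by
    intro φ
    exact φ.integrable.bdd_mul hEc.aestronglyMeasurable (Filter.Eventually.of_forall hEb)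
  have hEp : ∀ h, pd x E h = - (pd x V h / 2) * E h := by
    intro h
    have hd : HasFDerivAt E (Real.exp (- V h / 2) • ((2 : ℝ)⁻¹ • (- fderiv ℝ V h))) h := by
      have h1 : HasFDerivAt (fun k => - V k / 2) ((2 : ℝ)⁻¹ • (- fderiv ℝ V h)) h := by
        have := ((hVd h).hasFDerivAt.neg).const_mul (2 : ℝ)⁻¹
        refine this.congr_of_eventuallyEq (Filter.Eventually.of_forall fun k => ?_)
        simp only [Pi.neg_apply]
        ring
      exact h1.exp
    unfold pd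
    rw [hd.fderiv]
    simp only [smul_apply, neg_apply, smul_eq_mul, hE]
    ring
  set P : 𝓢(ι → ℝ, ℝ) := mu (fun h => ∑ y, c y * h y - mn V c) f with hP
  have hPa : ∀ h, P h = (∑ y, c y * h y - mn V c) * f h := fun h => mu_apply (sl_temp c _) f h
  have hld : ∀ h, HasFDerivAt (fun h : ι → ℝ => ∑ y, c y * h y - mn V c)
      (∑ y, c y • ContinuousLinearMap.proj (R := ℝ) (φ := fun _ : ι => ℝ) y :
          (ι → ℝ) →L[ℝ] ℝ) h := by
    intro h
    have h1 : HasFDerivAt (fun h : ι → ℝ => ∑ y, c y * h y)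
        (∑ y, c y • ContinuousLinearMap.proj (R := ℝ) (φ := fun _ : ι => ℝ) y :
          (ι → ℝ) →L[ℝ] ℝ) h := by
      have := (∑ y, c y • ContinuousLinearMap.proj (R := ℝ) (φ := fun _ : ι => ℝ) y :
          (ι → ℝ) →L[ℝ] ℝ).hasFDerivAt (x := h)
      refine this.congr_of_eventuallyEq (Filter.Eventually.of_forall fun k => ?_)
      simp
    exact h1.sub_const _
  have hPp : ∀ h, pd x P h = c x * f h + (∑ y, c y * h y - mn V c) * pd x f h := by
    intro h
    have e : (P : (ι → ℝ) → ℝ) = fun h => (∑ y, c y * h y - mn V c) * f h := funext hPa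
    rw [e, pd_mul (hld h).differentiableAt (f.differentiableAt)]
    congr 1
    congr 1
    unfold pd
    rw [(hld h).fderiv]
    simp [Pi.single_apply]
  have hmt : (fun h => pd x V h / 2).HasTemperateGrowth := by
    have h1 := (pd_temp hV x).mul (Function.HasTemperateGrowth.const (2 : ℝ)⁻¹)
    have e : (fun h => pd x V h / 2) = (fun h => pd x V h * (2 : ℝ)⁻¹) := by
      funext h
      rw [div_eq_mul_inv]
    rw [e]
    exact h1
  have i1 : Integrable (fun h => E h * fderiv ℝ P h (Pi.single x 1)) := by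
    have := hES (dx x P)
    refine this.congr (Filter.Eventually.of_forall fun h => ?_)
    simp only [dx_apply, pd]
  have i2 : Integrable (fun h => E h * P h) := hES P
  have i3 : Integrable (fun h => fderiv ℝ E h (Pi.single x 1) * P h) := by
    have := (hES (mu (fun h => pd x V h / 2) P)).neg
    refine this.congr (Filter.Eventually.of_forall fun h => ?_)
    have h2 := hEp h
    unfold pd at h2
    simp only [Pi.neg_apply]
    rw [h2, mu_apply hmt]
    simp only [pd]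
    ring
  have key := integral_mul_fderiv_eq_neg_fderiv_mul_of_integrable (μ := volume) i3 i1 i2
    (fun y _ => hEd y) (fun y _ => P.differentiableAt)
  have j1 : ∫ h, E h * fderiv ℝ P h (Pi.single x 1) =
      c x * (∫ h, f h * E h) + ∫ h, Lf V c h * pd x f h := by
    have k1 : Integrable (fun h => f h * E h) :=
      (hES f).congr (Filter.Eventually.of_forall fun h => mul_comm _ _)
    have k2 : Integrable (fun h => Lf V c h * pd x f h) := by
      have := hES (mu (fun h => ∑ y, c y * h y - mn V c) (dx x f))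
      refine this.congr (Filter.Eventually.of_forall fun h => ?_)
      simp only [mu_apply (sl_temp c _), dx_apply, Lf, hE]
      ring
    rw [← integral_const_mul, ← integral_add (k1.const_mul _) k2]
    refine integral_congr_ae (Filter.Eventually.of_forall fun h => ?_)
    have := hPp h
    unfold pd at this
    simp only [this, Lf, hE, pd]
    ring
  have j2 : ∫ h, fderiv ℝ E h (Pi.single x 1) * P h =
      - ∫ h, Lf V c h * (pd x V h / 2 * f h) := by
    rw [← integral_neg]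
    refine integral_congr_ae (Filter.Eventually.of_forall fun h => ?_)
    have h2 := hEp h
    unfold pd at h2
    show fderiv ℝ E h (Pi.single x 1) * P h = - (Lf V c h * (pd x V h / 2 * f h))
    rw [h2, hPa]
    simp only [Lf, hE, pd]
    ring
  rw [j1, j2, neg_neg] at key
  have k2 : Integrable (fun h => Lf V c h * pd x f h) := by
    have := hES (mu (fun h => ∑ y, c y * h y - mn V c) (dx x f))
    refine this.congr (Filter.Eventually.of_forall fun h => ?_)
    simp only [mu_apply (sl_temp c _), dx_apply, Lf, hE]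
    ring
  have k3 : Integrable (fun h => Lf V c h * (pd x V h / 2 * f h)) := by
    have := hES (mu (fun h => pd x V h / 2) P)
    refine this.congr (Filter.Eventually.of_forall fun h => ?_)
    simp only [mu_apply hmt, hPa, Lf, hE]
    ring
  have e1 : ∫ h, Lf V c h * ad V x f h =
      ∫ h, (Lf V c h * (pd x V h / 2 * f h) - Lf V c h * pd x f h) := by
    refine integral_congr_ae (Filter.Eventually.of_forall fun h => ?_)
    simp only [ad_apply hV]
    ring
  rw [e1, integral_sub k3 k2]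
  linarith
/- END sl -/

/- MODULE sm
THE REPRESENTATION.  `approx_of_orth` for `T = Ao V`, `L = Lf V c`: by `kernel_one`, `kernel_two`,
`Lf_zero` the hypothesis holds.  Take `f` with `∫ (Ao V f - Lf)^2 ≤ η'^2`, `η' (2 √L2 + η') ≤ η`,
and `φ x = av V x f`: `L2 = ∫ Lf * Ao V f + ∫ Lf (Lf - Ao V f) ≤ ∑ c x ∫ φ x e^{-V/2} + √L2 η'`
(`Lf_ad`), and `∫ (Ao V f)^2 ≤ (√L2 + η')^2` with `bochner`. -/
omit [DecidableEq ι] in
private theorem sm_inner {f g : (ι → ℝ) → ℝ} (hf : MemLp f 2 (volume : Measure (ι → ℝ)))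
    (hg : MemLp g 2 (volume : Measure (ι → ℝ))) :
    inner ℝ (hf.toLp f) (hg.toLp g) = ∫ h, f h * g h := by
  rw [L2.inner_def]
  refine integral_congr_ae ?_
  filter_upwards [hf.coeFn_toLp, hg.coeFn_toLp] with h h1 h2
  rw [h1, h2]
  simp [mul_comm]

omit [DecidableEq ι] in
private theorem sm_sq {f : (ι → ℝ) → ℝ} (hf : MemLp f 2 (volume : Measure (ι → ℝ))) :
    ‖hf.toLp f‖ ^ 2 = ∫ h, (f h) ^ 2 := by
  rw [← real_inner_self_eq_norm_sq, sm_inner]
  simp [pow_two]

theorem hs_exists {V : (ι → ℝ) → ℝ} (hV : V.HasTemperateGrowth)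
    (h1 : ∃ C : ℝ, ∀ h, |Wf V h| ≤ C) {a A : ℝ} (ha : 0 < a)
    (hlow : ∀ h, a * ‖h‖ - A ≤ V h) (c : ι → ℝ) {η : ℝ} (hη : 0 < η) :
    ∃ φ : ι → 𝓢(ι → ℝ, ℝ),
      L2 V c ≤ (∑ x, c x * ∫ h, φ x h * Real.exp (- V h / 2)) + η ∧
      (∑ x, ∑ y, ∫ h, (av V y (φ x) h) ^ 2) +
        ∫ h, ∑ x, ∑ y, pd y (pd x V) h * φ x h * φ y h ≤ L2 V c + η := by
  have hVc : Continuous V := hV.1.continuous
  have hLm := Lf_mem hVc ha hlow c
  set B := Real.sqrt (L2 V c) with hB
  have hB0 : 0 ≤ B := Real.sqrt_nonneg _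
  have hL0 : 0 ≤ L2 V c := by
    unfold L2
    exact integral_nonneg (fun h => by positivity)
  have hBsq : B ^ 2 = L2 V c := Real.sq_sqrt hL0
  set e := min 1 (η / (2 * B + 1)) with he
  have he0 : 0 < e := lt_min one_pos (by positivity)
  have he1 : e ≤ 1 := min_le_left _ _
  have he2 : e * (2 * B + 1) ≤ η := by
    have : e ≤ η / (2 * B + 1) := min_le_right _ _
    rwa [le_div_iff₀ (by positivity)] at this
  obtain ⟨f, hf⟩ := approx_of_orth (Ao V) (Ao_add V) (Ao_smul V) hLm (fun ψ hψ H => by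
    have h2 : ∀ (x : ι) (g : 𝓢(ι → ℝ, ℝ)), ∫ h, ψ h * ad V x g h = 0 :=
      fun x g => kernel_one hV h1 hψ H x g
    obtain ⟨r, hr⟩ := kernel_two hV hψ h2
    have h3 : ∫ h, ψ h * Lf V c h = ∫ h, r * (Real.exp (- V h / 2) * Lf V c h) := by
      refine integral_congr_ae ?_
      filter_upwards [hr] with h hh
      rw [hh]; ring
    rw [h3, integral_const_mul, Lf_zero hVc ha hlow c, mul_zero]) (pow_pos he0 2)
  have haM := (Ao V f).memLp 2 (volume : Measure (ι → ℝ))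
  -- the two vectors
  have hl2 : ‖hLm.toLp (Lf V c)‖ ^ 2 = B ^ 2 := by
    rw [sm_sq, Lf_sq, hBsq]
  have hl : ‖hLm.toLp (Lf V c)‖ = B :=
    (pow_left_inj₀ (norm_nonneg _) hB0 (by norm_num)).1 hl2
  have hd : ‖haM.toLp (Ao V f) - hLm.toLp (Lf V c)‖ ≤ e := by
    have : ‖haM.toLp (Ao V f) - hLm.toLp (Lf V c)‖ ^ 2 ≤ e ^ 2 := by
      rw [← MemLp.toLp_sub, sm_sq]
      exact hf
    exact (pow_le_pow_iff_left₀ (norm_nonneg _) he0.le (by norm_num)).1 this
  have hLint : ∀ g : 𝓢(ι → ℝ, ℝ), Integrable (fun h => Lf V c h * g h) := fun g =>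
    hLm.integrable_mul (g.memLp 2 _)
  have hla : ∫ h, Lf V c h * Ao V f h = ∑ x, c x * ∫ h, av V x f h * Real.exp (- V h / 2) := by
    have h3 : ∀ h, Lf V c h * Ao V f h = ∑ x, Lf V c h * ad V x (av V x f) h := by
      intro h
      simp only [Ao, SchwartzMap.sum_apply, Finset.mul_sum]
    simp_rw [h3]
    rw [integral_finsetSum _ (fun x _ => hLint _)]
    exact Finset.sum_congr rfl (fun x _ => Lf_ad hV ha hlow c x (av V x f))
  refine ⟨fun x => av V x f, ?_, ?_⟩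
  · rw [← hla]
    have h4 : inner ℝ (hLm.toLp (Lf V c)) (hLm.toLp (Lf V c)) =
        inner ℝ (hLm.toLp (Lf V c)) (haM.toLp (Ao V f)) -
          inner ℝ (hLm.toLp (Lf V c)) (haM.toLp (Ao V f) - hLm.toLp (Lf V c)) := by
      rw [inner_sub_right]; ring
    have h5 : |inner ℝ (hLm.toLp (Lf V c)) (haM.toLp (Ao V f) - hLm.toLp (Lf V c))| ≤ B * e := by
      refine (abs_real_inner_le_norm _ _).trans ?_
      rw [hl]
      exact mul_le_mul_of_nonneg_left hd hB0
    rw [real_inner_self_eq_norm_sq, hl2, hBsq, sm_inner] at h4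
    have := abs_le.1 h5
    have h6 : B * e ≤ η := by nlinarith
    linarith [this.1]
  · rw [← bochner hV f, ← sm_sq haM]
    have h7 : ‖haM.toLp (Ao V f)‖ ≤ B + e := by
      have := norm_add_le (haM.toLp (Ao V f) - hLm.toLp (Lf V c)) (hLm.toLp (Lf V c))
      rw [sub_add_cancel, hl] at this
      linarith
    have h8 : ‖haM.toLp (Ao V f)‖ ^ 2 ≤ (B + e) ^ 2 := by
      gcongr
    nlinarith
/- END sm -/

end Pool.Agent.Hmk
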