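import Pool.Agent.Hmk.Fa

import Pool.Agent.Hmk.CfL

/-!
# Hmk, trial field (1): truncation, box cut-offs, discretisation, cluster bounds

Text: MP_161523_pr_Q2_T_helper13.md and MP_161523_pr_Q2_Tf_helper54.md in the store.
-/

set_option autoImplicit false

open MeasureTheory Set Filter ProbabilityTheory

open scoped ENNReal ContDiff Topology

noncomputable section

namespace Pool.Agent.Hmk

/-- the cluster parameter -/
def e0 : ℝ := 1 / 2 ^ 48

/-- smooth truncation at the level `k` -/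
def Tk (k r : ℝ) : ℝ := r / Real.sqrt (1 + (r / k) ^ 2)

/- MODULE taa
`Tk k r = k * (s / √(1 + s²))`, `s = r / k`; the derivative is `(1 + s²)^(-3/2)`,
`1 - (1 + s²)^(-3/2) ≤ (3/2) s²` (and `≤ 1`). -/

private theorem taa_pos (k r : ℝ) : 0 < 1 + (r / k) ^ 2 := by positivity

theorem Tk_smooth {k : ℝ} (hk : 0 < k) : ContDiff ℝ ∞ (Tk k) := by
  unfold Tk
  refine ContDiff.div contDiff_id ?_ ?_
  · refine ContDiff.sqrt ?_ ?_
    · exact contDiff_const.add ((contDiff_id.div_const k).pow 2)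
    · intro r
      exact (taa_pos k r).ne'
  · intro r
    exact (Real.sqrt_pos.2 (taa_pos k r)).ne'

theorem Tk_bound {k : ℝ} (hk : 0 < k) (r : ℝ) : |Tk k r| ≤ k := by
  unfold Tk
  have h1 : 0 < Real.sqrt (1 + (r / k) ^ 2) := Real.sqrt_pos.2 (taa_pos k r)
  rw [abs_div, abs_of_pos h1, div_le_iff₀ h1]
  have h2 : |r / k| ≤ Real.sqrt (1 + (r / k) ^ 2) := by
    rw [← Real.sqrt_sq_eq_abs]
    exact Real.sqrt_le_sqrt (by linarith)
  have h3 : |r| = k * |r / k| := by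
    rw [abs_div, abs_of_pos hk]
    field_simp
  rw [h3]
  exact mul_le_mul_of_nonneg_left h2 hk.le

private theorem taa_der {k : ℝ} (hk : 0 < k) (r : ℝ) :
    deriv (Tk k) r = 1 / ((1 + (r / k) ^ 2) * Real.sqrt (1 + (r / k) ^ 2)) := by
  have hw := taa_pos k r
  have hs : 0 < Real.sqrt (1 + (r / k) ^ 2) := Real.sqrt_pos.2 hw
  have h0 : HasDerivAt (fun r : ℝ => r / k) (1 / k) r := (hasDerivAt_id r).div_const k
  have h1 : HasDerivAt (fun r : ℝ => 1 + (r / k) ^ 2) (2 * (r / k) * (1 / k)) r := by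
    have := (h0.pow 2).const_add 1
    refine this.congr_deriv ?_
    simp
  have h2 := h1.sqrt hw.ne'
  have h3 := (hasDerivAt_id r).div h2 hs.ne'
  have h4 : HasDerivAt (Tk k) _ r := h3
  rw [h4.deriv]
  have hq : Real.sqrt (1 + (r / k) ^ 2) ^ 2 = 1 + (r / k) ^ 2 := Real.sq_sqrt hw.le
  have hk' := hk.ne'
  have e1 : (1 * Real.sqrt (1 + (r / k) ^ 2) - id r * (2 * (r / k) * (1 / k) /
      (2 * Real.sqrt (1 + (r / k) ^ 2)))) = 1 / Real.sqrt (1 + (r / k) ^ 2) := by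
    rw [eq_div_iff hs.ne']
    have : (1 * Real.sqrt (1 + (r / k) ^ 2) - id r * (2 * (r / k) * (1 / k) /
      (2 * Real.sqrt (1 + (r / k) ^ 2)))) * Real.sqrt (1 + (r / k) ^ 2) =
      Real.sqrt (1 + (r / k) ^ 2) ^ 2 - r * (r / k) * (1 / k) := by
      simp only [id]
      field_simp
    rw [this, hq]
    field_simp
    ring
  rw [e1, hq, div_div]
  ring_nf

theorem Tk_deriv {k : ℝ} (hk : 0 < k) (r : ℝ) : 0 ≤ deriv (Tk k) r ∧ deriv (Tk k) r ≤ 1 := by
  have hw := taa_pos k r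
  have hs : 0 < Real.sqrt (1 + (r / k) ^ 2) := Real.sqrt_pos.2 hw
  have h1 : (1 : ℝ) ≤ 1 + (r / k) ^ 2 := by nlinarith [sq_nonneg (r / k)]
  have h2 : (1 : ℝ) ≤ Real.sqrt (1 + (r / k) ^ 2) := by
    exact Real.one_le_sqrt.2 h1
  rw [taa_der hk]
  refine ⟨by positivity, ?_⟩
  rw [div_le_one (by positivity)]
  nlinarith

theorem Tk_deriv_one {k : ℝ} (hk : 0 < k) (r : ℝ) :
    1 - deriv (Tk k) r ≤ 2 * min 1 (|r| / k) := by
  rcases le_or_gt 1 (|r| / k) with h | h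
  · rw [min_eq_left h]
    have := (Tk_deriv hk r).1
    linarith
  · rw [min_eq_right h.le, taa_der hk]
    have h0 : 0 ≤ |r| / k := by positivity
    have e : (r / k) ^ 2 = (|r| / k) ^ 2 := by
      rw [div_pow, div_pow, sq_abs]
    rw [e]
    set s := |r| / k with hs
    have h1 : (1 : ℝ) ≤ 1 + s ^ 2 := by nlinarith [sq_nonneg s]
    have h2 : Real.sqrt (1 + s ^ 2) ≤ 1 + s ^ 2 := by
      rw [Real.sqrt_le_left (by positivity)]
      nlinarith
    have h3 : 1 / ((1 + s ^ 2) * (1 + s ^ 2)) ≤ 1 / ((1 + s ^ 2) * Real.sqrt (1 + s ^ 2)) := by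
      apply one_div_le_one_div_of_le
      · have : 0 < Real.sqrt (1 + s ^ 2) := Real.sqrt_pos.2 (by positivity)
        positivity
      · exact mul_le_mul_of_nonneg_left h2 (by positivity)
    have h4 : 1 - 2 * s ≤ 1 / ((1 + s ^ 2) * (1 + s ^ 2)) := by
      rw [le_div_iff₀ (by positivity)]
      nlinarith [mul_nonneg h0 h0, mul_nonneg (mul_nonneg h0 h0) h0, mul_nonneg (mul_nonneg h0 h0) (mul_nonneg h0 h0), mul_nonneg (mul_nonneg (mul_nonneg h0 h0) (mul_nonneg h0 h0)) h0]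
    linarith

/- END taa -/

/-- distance to the boundary of the box `bx L` (negative outside) -/
def mB (L : ℕ) (z : ℤ × ℤ) : ℤ := min (min z.1 z.2) (min ((L : ℤ) - 1 - z.1) ((L : ℤ) - 1 - z.2))

/-- the cut-off of the box: `0` off the bulk `Bo L`, `1` deep inside, Lipschitz `1 / (t L)` -/
def ph (L : ℕ) (t : ℝ) (z : ℤ × ℤ) : ℝ :=
  max 0 (min 1 (((mB L z : ℝ) - (3 * Nat.sqrt L + 3 : ℕ)) / (t * L)))

/- MODULE tab
The box cut-off (`inn_bx`). -/

theorem mem_inn_mB (L r : ℕ) (z : ℤ × ℤ) : z ∈ inn (bx L) r ↔ (r : ℤ) ≤ mB L z := by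
  rw [inn_bx]
  unfold mB
  simp only [le_min_iff]
  constructor
  · rintro h
    refine ⟨⟨?_, ?_⟩, ?_, ?_⟩ <;> omega
  · rintro ⟨⟨h1, h2⟩, h3, h4⟩
    refine ⟨?_, ?_, ?_, ?_⟩ <;> omega

theorem mB_lip (L : ℕ) (z z' : ℤ × ℤ) : |mB L z - mB L z'| ≤ dn (z - z') := by
  have h1 : |z.1 - z'.1| ≤ dn (z - z') := by
    unfold dn
    exact le_max_left _ _
  have h2 : |z.2 - z'.2| ≤ dn (z - z') := by
    unfold dn
    exact le_trans (le_max_left _ _) (le_max_right _ _)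
  rw [abs_le] at h1 h2 ⊢
  unfold mB
  constructor <;> omega

theorem ph_mem (L : ℕ) (t : ℝ) (z : ℤ × ℤ) : 0 ≤ ph L t z ∧ ph L t z ≤ 1 := by
  unfold ph
  refine ⟨le_max_left _ _, ?_⟩
  exact max_le zero_le_one (min_le_left _ _)

theorem ph_off {L : ℕ} {t : ℝ} (hL : 0 < L) (ht : 0 < t) {z : ℤ × ℤ} (hz : z ∉ Bo L) :
    ph L t z = 0 := by
  have h1 : mB L z < (3 * Nat.sqrt L + 3 : ℕ) := by
    by_contra h
    push Not at h
    exact hz ((mem_inn_mB L _ z).2 h)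
  have h2 : (mB L z : ℝ) ≤ (3 * Nat.sqrt L + 3 : ℕ) := by exact_mod_cast h1.le
  have hL' : (0 : ℝ) < L := by exact_mod_cast hL
  unfold ph
  apply max_eq_left
  refine le_trans (min_le_right _ _) ?_
  exact div_nonpos_of_nonpos_of_nonneg (by linarith) (by positivity)

theorem ph_one {L : ℕ} {t : ℝ} (hL : 0 < L) (ht : 0 < t) {z : ℤ × ℤ}
    (hz : ((3 * Nat.sqrt L + 3 : ℕ) : ℝ) + t * L ≤ mB L z) : ph L t z = 1 := by
  have hL' : (0 : ℝ) < L := by exact_mod_cast hL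
  unfold ph
  rw [min_eq_left, max_eq_right zero_le_one]
  rw [le_div_iff₀ (by positivity)]
  linarith

theorem ph_lip {L : ℕ} {t : ℝ} (hL : 0 < L) (ht : 0 < t) (z : ℤ × ℤ) (i : Fin 6) :
    |ph L t z - ph L t (z + st i)| ≤ 1 / (t * L) := by
  have hL' : (0 : ℝ) < L := by exact_mod_cast hL
  have h1 : |mB L z - mB L (z + st i)| ≤ 1 := by
    refine le_trans (mB_lip L z (z + st i)) ?_
    have : z - (z + st i) = - st i := by abel
    rw [this, dn_neg]
    exact ((dn_one_iff _).2 ⟨i, rfl⟩).le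
  have h2 : |((mB L z : ℝ) - (mB L (z + st i) : ℝ))| ≤ 1 := by exact_mod_cast h1
  unfold ph
  have h3 : ∀ a b : ℝ, |max 0 (min 1 a) - max 0 (min 1 b)| ≤ |a - b| := by
    intro a b
    rw [max_comm 0, max_comm 0, min_comm 1, min_comm 1]
    refine le_trans (abs_max_sub_max_le_abs _ _ _) ?_
    refine le_trans (abs_min_sub_min_le_max a 1 b 1) ?_
    simp
  refine le_trans (h3 _ _) ?_
  rw [← sub_div, abs_div, abs_of_pos (show (0 : ℝ) < t * L by positivity)]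
  apply div_le_div_of_nonneg_right _ (by positivity)
  have : (mB L z : ℝ) - (3 * Nat.sqrt L + 3 : ℕ) - ((mB L (z + st i) : ℝ) - (3 * Nat.sqrt L + 3 : ℕ)) =
      (mB L z : ℝ) - (mB L (z + st i) : ℝ) := by ring
  rw [this]
  exact h2

/-- counting: the sites of the box with `mB < j` -/
theorem mB_count (L j : ℕ) : ((bx L).filter (fun z => mB L z < j)).card ≤ 4 * j * L := by
  classical
  have hsub : (bx L).filter (fun z => mB L z < j) ⊆
      ((Finset.Ico (0 : ℤ) j ×ˢ Finset.Ico (0 : ℤ) L) ∪ (Finset.Ico (0 : ℤ) L ×ˢ Finset.Ico (0 : ℤ) j)) ∪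
      ((Finset.Ico ((L : ℤ) - j) L ×ˢ Finset.Ico (0 : ℤ) L) ∪
        (Finset.Ico (0 : ℤ) L ×ˢ Finset.Ico ((L : ℤ) - j) L)) := by
    intro z hz
    simp only [Finset.mem_filter, bx, Finset.mem_product, Finset.mem_Ico] at hz
    obtain ⟨⟨⟨h1, h2⟩, h3, h4⟩, h5⟩ := hz
    simp only [Finset.mem_union, Finset.mem_product, Finset.mem_Ico]
    unfold mB at h5
    simp only [min_lt_iff] at h5
    rcases h5 with (h5 | h5) | (h5 | h5)
    · left; left; exact ⟨⟨h1, h5⟩, h3, h4⟩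
    · left; right; exact ⟨⟨h1, h2⟩, h3, h5⟩
    · right; left; exact ⟨⟨by omega, h2⟩, h3, h4⟩
    · right; right; exact ⟨⟨h1, h2⟩, by omega, h4⟩
  refine le_trans (Finset.card_le_card hsub) ?_
  refine le_trans (Finset.card_union_le _ _) ?_
  have c1 := Finset.card_union_le (Finset.Ico (0 : ℤ) j ×ˢ Finset.Ico (0 : ℤ) L)
    (Finset.Ico (0 : ℤ) L ×ˢ Finset.Ico (0 : ℤ) j)
  have c2 := Finset.card_union_le (Finset.Ico ((L : ℤ) - j) L ×ˢ Finset.Ico (0 : ℤ) L)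
    (Finset.Ico (0 : ℤ) L ×ˢ Finset.Ico ((L : ℤ) - j) L)
  simp only [Finset.card_product, Int.card_Ico] at c1 c2
  have e1 : ((j : ℤ) - 0).toNat = j := by simp
  have e2 : ((L : ℤ) - 0).toNat = L := by simp
  have e3 : ((L : ℤ) - ((L : ℤ) - j)).toNat = j := by
    have : (L : ℤ) - ((L : ℤ) - j) = j := by ring
    rw [this]; simp
  rw [e1, e2] at c1
  rw [e3, e2] at c2
  nlinarith

/- END tab -/

/-- the increments of `G` at `y` in the directions `(1, 0)` and `(0, 1)` -/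
def dG (G : ℤ × ℤ → ℝ) (y : ℤ × ℤ) : ℝ × ℝ := (G (y + (1, 0)) - G y, G (y + (0, 1)) - G y)

/-- the discrete regularity of `G` at scale `δ` with constant `C` -/
structure Rg (G : ℤ × ℤ → ℝ) (δ C : ℝ) : Prop where
  C0 : 0 ≤ C
  bd : ∀ x, |G x| ≤ C
  lip : ∀ x i, |G x - G (x + st i)| ≤ C * δ
  lap : ∀ x, |Lap G x| ≤ C * δ ^ 2
  tay : ∀ y z, |G (y + z) - G y - dl (dG G y) z| ≤ C * δ ^ 2 * ((dn z : ℝ) + 1) ^ 2

/- MODULE tac
Taylor's formula for `g` on the segments (second derivatives of `g` are bounded because of compact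
support); `Lap`: the six second order Taylor expansions, first order terms cancel
(`st (i + 3) = - st i`). -/

private theorem tac_taylor {g : ℝ × ℝ → ℝ} (hg : ContDiff ℝ ∞ g) (hc : HasCompactSupport g) :
    ∃ M : ℝ, 0 ≤ M ∧ ∀ p v : ℝ × ℝ, |g (p + v) - g p - fderiv ℝ g p v| ≤ M * ‖v‖ ^ 2 := by
  have h1 : ContDiff ℝ ∞ (fderiv ℝ g) := hg.fderiv_right (by simp)
  obtain ⟨C, hC⟩ := ContDiff.lipschitzWith_of_hasCompactSupport (hc.fderiv ℝ) h1 (by simp)
  refine ⟨C, C.2, fun p v => ?_⟩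
  have hd : ∀ x ∈ segment ℝ p (p + v), DifferentiableAt ℝ g x := fun x _ =>
    (hg.differentiable (by simp)).differentiableAt
  have hb : ∀ x ∈ segment ℝ p (p + v), ‖fderiv ℝ g x - fderiv ℝ g p‖ ≤ C * ‖v‖ := by
    intro x hx
    have h2 := hC.dist_le_mul x p
    rw [dist_eq_norm, dist_eq_norm] at h2
    refine le_trans h2 (mul_le_mul_of_nonneg_left ?_ C.2)
    obtain ⟨t, ht, rfl⟩ := (segment_eq_image' ℝ p (p + v)) ▸ hx
    simp only [add_sub_cancel_left]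
    rw [norm_smul, Real.norm_of_nonneg ht.1]
    exact mul_le_of_le_one_left (norm_nonneg _) ht.2
  have h3 := (convex_segment p (p + v)).norm_image_sub_le_of_norm_fderiv_le' hd hb
    (left_mem_segment ℝ _ _) (right_mem_segment ℝ _ _)
  rw [add_sub_cancel_left] at h3
  rw [Real.norm_eq_abs] at h3
  rw [sq, ← mul_assoc]
  exact h3

private theorem tac_lt (δ : ℝ) (x z : ℤ × ℤ) : lt δ (x + z) = lt δ x + lt δ z := by
  unfold lt
  ext <;> simp <;> ring

private theorem tac_norm {δ : ℝ} (hδ : 0 < δ) (z : ℤ × ℤ) : ‖lt δ z‖ ≤ δ * (dn z : ℝ) := by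
  have h1 : |z.1| ≤ dn z := by
    unfold dn
    exact le_max_left _ _
  have h2 : |z.2| ≤ dn z := by
    unfold dn
    exact le_trans (le_max_left _ _) (le_max_right _ _)
  have h1' : |(z.1 : ℝ)| ≤ (dn z : ℝ) := by exact_mod_cast h1
  have h2' : |(z.2 : ℝ)| ≤ (dn z : ℝ) := by exact_mod_cast h2
  unfold lt
  rw [Prod.norm_def]
  simp only [norm_mul, Real.norm_eq_abs, abs_of_pos hδ]
  exact max_le (mul_le_mul_of_nonneg_left h1' hδ.le) (mul_le_mul_of_nonneg_left h2' hδ.le)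

private theorem tac_dn (z : ℤ × ℤ) : |(z.1 : ℝ)| ≤ (dn z : ℝ) ∧ |(z.2 : ℝ)| ≤ (dn z : ℝ) := by
  have h1 : |z.1| ≤ dn z := by
    unfold dn
    exact le_max_left _ _
  have h2 : |z.2| ≤ dn z := by
    unfold dn
    exact le_trans (le_max_left _ _) (le_max_right _ _)
  constructor
  · exact_mod_cast h1
  · exact_mod_cast h2

theorem Rg_of {g : ℝ × ℝ → ℝ} (hg : ContDiff ℝ ∞ g) (hc : HasCompactSupport g) :
    ∃ C : ℝ, 0 ≤ C ∧ ∀ δ : ℝ, 0 < δ → δ ≤ 1 → Rg (fun x => g (lt δ x)) δ C := by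
  obtain ⟨M, hM, hT⟩ := tac_taylor hg hc
  obtain ⟨B, hB⟩ := ContDiff.lipschitzWith_of_hasCompactSupport hc hg (by simp)
  obtain ⟨A, hA⟩ := hg.continuous.bounded_above_of_compact_support hc
  have hA0 : 0 ≤ A := le_trans (norm_nonneg _) (hA 0)
  have hB0 : (0 : ℝ) ≤ B := B.2
  refine ⟨A + B + 6 * M, by positivity, fun δ h0 h1 => ?_⟩
  have hst : ∀ i, (dn (st i) : ℝ) = 1 := by
    intro i
    have : dn (st i) = 1 := (dn_one_iff _).2 ⟨i, rfl⟩
    exact_mod_cast this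
  refine ⟨by positivity, ?_, ?_, ?_, ?_⟩
  · intro x
    have := hA (lt δ x)
    rw [Real.norm_eq_abs] at this
    linarith
  · intro x i
    have h2 := hB.dist_le_mul (lt δ x) (lt δ (x + st i))
    rw [Real.dist_eq, dist_eq_norm, tac_lt] at h2
    have h3 : ‖lt δ x - (lt δ x + lt δ (st i))‖ ≤ δ := by
      have : lt δ x - (lt δ x + lt δ (st i)) = - lt δ (st i) := by abel
      rw [this, norm_neg]
      have := tac_norm h0 (st i)
      rw [hst, mul_one] at this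
      exact this
    have h4 : (B : ℝ) * ‖lt δ x - (lt δ x + lt δ (st i))‖ ≤ B * δ := mul_le_mul_of_nonneg_left h3 hB0
    rw [tac_lt]
    nlinarith [mul_nonneg hA0 h0.le, mul_nonneg hM h0.le]
  · intro x
    have h2 : ∀ i : Fin 6, |g (lt δ x + lt δ (st i)) - g (lt δ x) - fderiv ℝ g (lt δ x) (lt δ (st i))| ≤
        M * δ ^ 2 := by
      intro i
      refine le_trans (hT _ _) (mul_le_mul_of_nonneg_left ?_ hM)
      have := tac_norm h0 (st i)
      rw [hst, mul_one] at this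
      exact pow_le_pow_left₀ (norm_nonneg _) this 2
    have h3 : ∑ i : Fin 6, lt δ (st i) = 0 := by
      unfold lt
      ext <;> simp [Fin.sum_univ_six, st]
    have h4 : Lap (fun x => g (lt δ x)) x =
        - ∑ i : Fin 6, (g (lt δ x + lt δ (st i)) - g (lt δ x) - fderiv ℝ g (lt δ x) (lt δ (st i))) := by
      have h5 : ∑ i : Fin 6, fderiv ℝ g (lt δ x) (lt δ (st i)) = 0 := by
        rw [← map_sum, h3, map_zero]
      rw [Finset.sum_sub_distrib, h5, sub_zero, ← Finset.sum_neg_distrib]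
      unfold Lap
      apply Finset.sum_congr rfl
      intro i _
      change g (lt δ x) - g (lt δ (x + st i)) = _
      rw [tac_lt]
      ring
    rw [h4, abs_neg]
    refine le_trans (Finset.abs_sum_le_sum_abs _ _) ?_
    refine le_trans (Finset.sum_le_sum (fun i _ => h2 i)) ?_
    rw [Finset.sum_const, Finset.card_univ, Fintype.card_fin, nsmul_eq_mul]
    have : 0 ≤ (A + B) * δ ^ 2 := by positivity
    push_cast
    linarith
  · intro y z
    simp only [dl, dG]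
    rw [tac_lt, tac_lt, tac_lt]
    set p := lt δ y with hp
    have hz := hT p (lt δ z)
    have he1 := hT p (lt δ (1, 0))
    have he2 := hT p (lt δ (0, 1))
    have n1 : ‖lt δ ((1, 0) : ℤ × ℤ)‖ ≤ δ := by
      have := tac_norm h0 (st 0)
      rw [hst, mul_one] at this
      simpa [st] using this
    have n2 : ‖lt δ ((0, 1) : ℤ × ℤ)‖ ≤ δ := by
      have := tac_norm h0 (st 1)
      rw [hst, mul_one] at this
      simpa [st] using this
    have nz := tac_norm h0 z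
    have hlin : lt δ z = (z.1 : ℝ) • lt δ (1, 0) + (z.2 : ℝ) • lt δ (0, 1) := by
      unfold lt
      ext <;> simp <;> ring
    have hlz : fderiv ℝ g p (lt δ z) = (z.1 : ℝ) * fderiv ℝ g p (lt δ (1, 0)) +
        (z.2 : ℝ) * fderiv ℝ g p (lt δ (0, 1)) := by
      rw [hlin, map_add, map_smul, map_smul, smul_eq_mul, smul_eq_mul]
    obtain ⟨d1, d2⟩ := tac_dn z
    have hd0 : (0 : ℝ) ≤ dn z := by exact_mod_cast dn_nonneg z
    have key : g (p + lt δ z) - g p -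
        ((g (p + lt δ (1, 0)) - g p) * (z.1 : ℝ) + (g (p + lt δ (0, 1)) - g p) * (z.2 : ℝ)) =
        (g (p + lt δ z) - g p - fderiv ℝ g p (lt δ z)) -
        (z.1 : ℝ) * (g (p + lt δ (1, 0)) - g p - fderiv ℝ g p (lt δ (1, 0))) -
        (z.2 : ℝ) * (g (p + lt δ (0, 1)) - g p - fderiv ℝ g p (lt δ (0, 1))) := by
      rw [hlz]
      ring
    rw [key]
    have b1 : |g (p + lt δ z) - g p - fderiv ℝ g p (lt δ z)| ≤ M * (δ * dn z) ^ 2 :=
      le_trans hz (mul_le_mul_of_nonneg_left (pow_le_pow_left₀ (norm_nonneg _) nz 2) hM)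
    have b2 : |(z.1 : ℝ) * (g (p + lt δ (1, 0)) - g p - fderiv ℝ g p (lt δ (1, 0)))| ≤
        dn z * (M * δ ^ 2) := by
      rw [abs_mul]
      exact mul_le_mul d1 (le_trans he1 (mul_le_mul_of_nonneg_left
        (pow_le_pow_left₀ (norm_nonneg _) n1 2) hM)) (abs_nonneg _) hd0
    have b3 : |(z.2 : ℝ) * (g (p + lt δ (0, 1)) - g p - fderiv ℝ g p (lt δ (0, 1)))| ≤
        dn z * (M * δ ^ 2) := by
      rw [abs_mul]
      exact mul_le_mul d2 (le_trans he2 (mul_le_mul_of_nonneg_left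
        (pow_le_pow_left₀ (norm_nonneg _) n2 2) hM)) (abs_nonneg _) hd0
    refine le_trans (abs_sub _ _) ?_
    refine le_trans (add_le_add_left (abs_sub _ _) _) ?_
    have t1 : M * (δ * dn z) ^ 2 + dn z * (M * δ ^ 2) + dn z * (M * δ ^ 2) ≤
        M * δ ^ 2 * ((dn z : ℝ) + 1) ^ 2 := by
      have : 0 ≤ M * δ ^ 2 := by positivity
      nlinarith
    have t2 : M * δ ^ 2 * ((dn z : ℝ) + 1) ^ 2 ≤ (A + B + 6 * M) * δ ^ 2 * ((dn z : ℝ) + 1) ^ 2 := by
      apply mul_le_mul_of_nonneg_right _ (by positivity)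
      apply mul_le_mul_of_nonneg_right _ (by positivity)
      linarith
    linarith

/- END tac -/

/- MODULE tad
`|dc (dG G y) i - (G (y + st i) - G y)| ≤ 4 C δ ^ 2` (`tay`, `dl d (st i) = dc d i`), both are
`≤ 2 C δ`; hence `|qd (dG G y) - (1/2) ∑ i (G (y + st i) - G y)²| ≤ 100 C² δ³`; sum over `F ⊆ D`. -/

private theorem tad_st (i : Fin 6) : |((st i).1 : ℝ)| ≤ 1 ∧ |((st i).2 : ℝ)| ≤ 1 := by
  fin_cases i <;> simp [st]

private theorem tad_dc {d : ℝ × ℝ} {t : ℝ} (h1 : |d.1| ≤ t) (h2 : |d.2| ≤ t) (i : Fin 6) :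
    |dc d i| ≤ 2 * t := by
  obtain ⟨h3, h4⟩ := tad_st i
  unfold dc
  have h5 : |d.1 * ((st i).1 : ℝ)| ≤ t := by
    rw [abs_mul]
    calc |d.1| * |((st i).1 : ℝ)| ≤ |d.1| * 1 := mul_le_mul_of_nonneg_left h3 (abs_nonneg _)
      _ ≤ t := by rw [mul_one]; exact h1
  have h6 : |d.2 * ((st i).2 : ℝ)| ≤ t := by
    rw [abs_mul]
    calc |d.2| * |((st i).2 : ℝ)| ≤ |d.2| * 1 := mul_le_mul_of_nonneg_left h4 (abs_nonneg _)
      _ ≤ t := by rw [mul_one]; exact h2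
  exact (abs_add_le _ _).trans (by linarith)

theorem qd_dG {G : ℤ × ℤ → ℝ} {δ C : ℝ} (hG : Rg G δ C) (h0 : 0 < δ) (h1 : δ ≤ 1)
    (y : ℤ × ℤ) : qd (dG G y) ≤ 12 * C ^ 2 * δ ^ 2 ∧ |(dG G y).1| ≤ C * δ ∧ |(dG G y).2| ≤ C * δ := by
  have a1 : |(dG G y).1| ≤ C * δ := by
    have h := hG.lip y 0
    rw [abs_sub_comm] at h
    exact h
  have a2 : |(dG G y).2| ≤ C * δ := by
    have h := hG.lip y 1
    rw [abs_sub_comm] at h
    exact h
  refine ⟨?_, a1, a2⟩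
  unfold qd
  have h3 : ∀ i, (dc (dG G y) i) ^ 2 ≤ (2 * (C * δ)) ^ 2 := fun i => by
    rw [← sq_abs]
    exact pow_le_pow_left₀ (abs_nonneg _) (tad_dc a1 a2 i) 2
  have h4 : ∑ i, (dc (dG G y) i) ^ 2 ≤ ∑ _i : Fin 6, (2 * (C * δ)) ^ 2 :=
    Finset.sum_le_sum fun i _ => h3 i
  rw [Finset.sum_const, Finset.card_univ, Fintype.card_fin, nsmul_eq_mul] at h4
  push_cast at h4
  nlinarith [h4]

private theorem tad_dn (i : Fin 6) : dn (st i) = 1 := by
  rw [dn_one_iff]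
  exact ⟨i, rfl⟩

theorem sum_qd {G : ℤ × ℤ → ℝ} {δ C : ℝ} (hG : Rg G δ C) (h0 : 0 < δ) (h1 : δ ≤ 1)
    {D F : Finset (ℤ × ℤ)} (hF : F ⊆ D) :
    ∑ y ∈ F, qd (dG G y) ≤ EG D G + 100 * C ^ 2 * δ ^ 3 * F.card := by
  have hC := hG.C0
  have key : ∀ y ∈ F, qd (dG G y) ≤ (1 / 2) * ∑ i, (G (y + st i) - G y) ^ 2 +
      100 * C ^ 2 * δ ^ 3 := by
    intro y _
    obtain ⟨-, a1, a2⟩ := qd_dG hG h0 h1 y
    have h3 : ∀ i, (dc (dG G y) i) ^ 2 ≤ (G (y + st i) - G y) ^ 2 + 12 * C ^ 2 * δ ^ 3 := by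
      intro i
      have b1 := tad_dc a1 a2 i
      have b2 := hG.lip y i
      have b3 := hG.tay y (st i)
      rw [tad_dn] at b3
      have b4 : dl (dG G y) (st i) = dc (dG G y) i := rfl
      rw [b4] at b3
      rw [abs_sub_comm] at b2
      have b5 : (dc (dG G y) i) ^ 2 - (G (y + st i) - G y) ^ 2 =
          -((G (y + st i) - G y - dc (dG G y) i) * (G (y + st i) - G y + dc (dG G y) i)) := by
        ring
      have b6 : |(G (y + st i) - G y - dc (dG G y) i) * (G (y + st i) - G y + dc (dG G y) i)| ≤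
          (4 * C * δ ^ 2) * (3 * (C * δ)) := by
        rw [abs_mul]
        refine mul_le_mul ?_ ?_ (abs_nonneg _) (by positivity)
        · refine b3.trans (le_of_eq ?_)
          push_cast
          ring
        · refine (abs_add_le _ _).trans ?_
          linarith
      have b7 := (abs_le.1 b6).1
      nlinarith [b7, b5]
    have h4 : ∑ i, (dc (dG G y) i) ^ 2 ≤
        ∑ i, ((G (y + st i) - G y) ^ 2 + 12 * C ^ 2 * δ ^ 3) := Finset.sum_le_sum fun i _ => h3 i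
    rw [Finset.sum_add_distrib, Finset.sum_const, Finset.card_univ, Fintype.card_fin,
      nsmul_eq_mul] at h4
    push_cast at h4
    unfold qd
    have h5 : 0 ≤ C ^ 2 * δ ^ 3 := by positivity
    linarith
  have h6 := Finset.sum_le_sum key
  rw [Finset.sum_add_distrib, Finset.sum_const, nsmul_eq_mul, ← Finset.mul_sum] at h6
  have h7 : ∑ y ∈ F, ∑ i, (G (y + st i) - G y) ^ 2 ≤ ∑ y ∈ D, ∑ i, (G (y + st i) - G y) ^ 2 :=
    Finset.sum_le_sum_of_subset_of_nonneg hF fun x _ _ => Finset.sum_nonneg fun i _ => sq_nonneg _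
  unfold EG
  nlinarith [h6, h7]

/- END tad -/

/- MODULE tae
Lattice points of compact sets: finitely many, at most `C / δ ^ 2`. -/

private theorem tae_bd {Kc : Set (ℝ × ℝ)} (hK : IsCompact Kc) : ∃ R : ℝ, 0 ≤ R ∧
    ∀ δ : ℝ, 0 < δ → ∀ x : ℤ × ℤ, lt δ x ∈ Kc →
      x ∈ Finset.Icc (-⌊R / δ⌋) ⌊R / δ⌋ ×ˢ Finset.Icc (-⌊R / δ⌋) ⌊R / δ⌋ := by
  obtain ⟨R, hR⟩ := hK.isBounded.subset_closedBall (0 : ℝ × ℝ)
  refine ⟨max R 0, le_max_right _ _, fun δ hδ x hx => ?_⟩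
  have h1 := hR hx
  rw [Metric.mem_closedBall, dist_zero_right] at h1
  have h2 : ‖lt δ x‖ ≤ max R 0 := h1.trans (le_max_left _ _)
  have h3 : ∀ k : ℤ, |δ * (k : ℝ)| ≤ max R 0 → k ∈ Finset.Icc (-⌊max R 0 / δ⌋) ⌊max R 0 / δ⌋ := by
    intro k hk
    rw [abs_mul, abs_of_pos hδ] at hk
    have h4 : |(k : ℝ)| ≤ max R 0 / δ := by
      rw [le_div_iff₀ hδ]
      linarith
    have h5 : |k| ≤ ⌊max R 0 / δ⌋ := by
      rw [Int.le_floor]
      push_cast
      exact h4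
    rw [Finset.mem_Icc]
    exact abs_le.1 h5
  rw [Finset.mem_product]
  refine ⟨h3 _ ?_, h3 _ ?_⟩
  · exact (norm_fst_le (lt δ x)).trans h2
  · exact (norm_snd_le (lt δ x)).trans h2

theorem lat_fin {Kc : Set (ℝ × ℝ)} (hK : IsCompact Kc) {δ : ℝ} (hδ : 0 < δ) :
    ∃ A : Finset (ℤ × ℤ), ∀ x, x ∈ A ↔ lt δ x ∈ Kc := by
  classical
  obtain ⟨R, -, hR⟩ := tae_bd hK
  refine ⟨(Finset.Icc (-⌊R / δ⌋) ⌊R / δ⌋ ×ˢ Finset.Icc (-⌊R / δ⌋) ⌊R / δ⌋).filter
    (fun x => lt δ x ∈ Kc), fun x => ?_⟩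
  rw [Finset.mem_filter]
  exact ⟨fun h => h.2, fun h => ⟨hR δ hδ x h, h⟩⟩

theorem lat_card {Kc : Set (ℝ × ℝ)} (hK : IsCompact Kc) : ∃ C : ℝ, 0 ≤ C ∧ ∀ δ : ℝ, 0 < δ → δ ≤ 1 →
    ∀ A : Finset (ℤ × ℤ), (∀ x ∈ A, lt δ x ∈ Kc) → (A.card : ℝ) * δ ^ 2 ≤ C := by
  obtain ⟨R, hR0, hR⟩ := tae_bd hK
  refine ⟨(2 * R + 1) ^ 2, sq_nonneg _, fun δ h0 h1 A hA => ?_⟩
  have h2 : A ⊆ Finset.Icc (-⌊R / δ⌋) ⌊R / δ⌋ ×ˢ Finset.Icc (-⌊R / δ⌋) ⌊R / δ⌋ :=
    fun x hx => hR δ h0 x (hA x hx)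
  have h3 := Finset.card_le_card h2
  rw [Finset.card_product, Int.card_Icc] at h3
  have h4 : 0 ≤ ⌊R / δ⌋ := Int.floor_nonneg.2 (by positivity)
  obtain ⟨N, hN⟩ := Int.eq_ofNat_of_zero_le h4
  have h5 : (⌊R / δ⌋ + 1 - -⌊R / δ⌋).toNat = 2 * N + 1 := by
    rw [hN]
    omega
  rw [h5] at h3
  have h6 : (N : ℝ) ≤ R / δ := by
    have h7 := Int.floor_le (R / δ)
    rw [hN] at h7
    exact_mod_cast h7
  have h7 : (N : ℝ) * δ ≤ R := by
    rwa [le_div_iff₀ h0] at h6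
  have h8 : (A.card : ℝ) ≤ (2 * (N : ℝ) + 1) * (2 * (N : ℝ) + 1) := by exact_mod_cast h3
  calc (A.card : ℝ) * δ ^ 2 ≤ ((2 * (N : ℝ) + 1) * (2 * (N : ℝ) + 1)) * δ ^ 2 :=
        mul_le_mul_of_nonneg_right h8 (sq_nonneg _)
    _ = ((2 * (N : ℝ) + 1) * δ) ^ 2 := by ring
    _ ≤ (2 * R + 1) ^ 2 := by
        refine pow_le_pow_left₀ (by positivity) ?_ 2
        linarith

/-- `‖lt δ x - lt δ y‖ ≤ δ * dn (x - y)` -/
theorem lt_dist {δ : ℝ} (hδ : 0 < δ) (x y : ℤ × ℤ) : dist (lt δ x) (lt δ y) ≤ δ * dn (x - y) := by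
  rw [Prod.dist_eq]
  have h1 : ∀ a b : ℤ, |a - b| ≤ dn (x - y) → dist (δ * (a : ℝ)) (δ * (b : ℝ)) ≤
      δ * dn (x - y) := by
    intro a b hab
    rw [Real.dist_eq, ← mul_sub, abs_mul, abs_of_pos hδ]
    refine mul_le_mul_of_nonneg_left ?_ hδ.le
    have h2 : ((|a - b| : ℤ) : ℝ) ≤ (dn (x - y) : ℝ) := by exact_mod_cast hab
    push_cast at h2
    exact h2
  refine max_le (h1 _ _ ?_) (h1 _ _ ?_)
  · exact le_max_left _ _
  · exact (le_max_left _ _).trans (le_max_right _ _)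

/- END tae -/

/- MODULE taf
The energy of a function whose support stays away from the complement of `D`:
`∑ x ∈ D, G x * Lap G x = EG D G` if all sites within distance `1` of the support are in `D`
(every edge with a nonzero increment is counted twice in `∑ x ∈ D, ∑ i`). -/

private theorem taf_opp (x : ℤ × ℤ) (i : Fin 6) : x + st i + st (i + 3) = x := by
  rw [st_opp]
  abel

private theorem taf_three (i : Fin 6) : i + 3 + 3 = i := by
  fin_cases i <;> rfl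

private theorem taf_swap (D : Finset (ℤ × ℤ)) (f : ℤ × ℤ → ℤ × ℤ → ℝ) :
    ∑ x ∈ D, ∑ i : Fin 6, (if x + st i ∈ D then f x (x + st i) else 0) =
      ∑ x ∈ D, ∑ i : Fin 6, (if x + st i ∈ D then f (x + st i) x else 0) := by
  rw [← Finset.sum_product', ← Finset.sum_product', ← Finset.sum_filter, ← Finset.sum_filter]
  refine Finset.sum_nbij' (fun p => (p.1 + st p.2, p.2 + 3)) (fun p => (p.1 + st p.2, p.2 + 3))
    ?_ ?_ ?_ ?_ ?_
  · rintro ⟨x, i⟩ hp
    rw [Finset.mem_filter, Finset.mem_product] at hp ⊢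
    simp only [taf_opp]
    exact ⟨⟨hp.2, Finset.mem_univ _⟩, hp.1.1⟩
  · rintro ⟨x, i⟩ hp
    rw [Finset.mem_filter, Finset.mem_product] at hp ⊢
    simp only [taf_opp]
    exact ⟨⟨hp.2, Finset.mem_univ _⟩, hp.1.1⟩
  · rintro ⟨x, i⟩ _
    simp only [taf_opp, taf_three]
  · rintro ⟨x, i⟩ _
    simp only [taf_opp, taf_three]
  · rintro ⟨x, i⟩ _
    simp only [taf_opp]

theorem lap_eq {D : Finset (ℤ × ℤ)} {G : ℤ × ℤ → ℝ}
    (hG : ∀ x, G x ≠ 0 → x ∈ D ∧ ∀ i, x + st i ∈ D) : ∑ x ∈ D, G x * Lap G x = EG D G := by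
  have h1 := taf_swap D (fun x y => G y * (G y - G x))
  have h2 : ∑ x ∈ D, ∑ i : Fin 6, (if x + st i ∈ D then G (x + st i) * (G (x + st i) - G x)
      else 0) = ∑ x ∈ D, ∑ i, G (x + st i) * (G (x + st i) - G x) := by
    refine Finset.sum_congr rfl fun x _ => Finset.sum_congr rfl fun i _ => ?_
    split_ifs with h
    · rfl
    · have h3 : G (x + st i) = 0 := by
        by_contra hne
        exact h (hG _ hne).1
      rw [h3, zero_mul]
  have h4 : ∑ x ∈ D, ∑ i : Fin 6, (if x + st i ∈ D then G x * (G x - G (x + st i)) else 0) =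
      ∑ x ∈ D, G x * Lap G x := by
    refine Finset.sum_congr rfl fun x _ => ?_
    rw [Lap, Finset.mul_sum]
    refine Finset.sum_congr rfl fun i _ => ?_
    split_ifs with h
    · rfl
    · have h3 : G x = 0 := by
        by_contra hne
        exact h ((hG _ hne).2 i)
      rw [h3, zero_mul]
  rw [h2, h4] at h1
  have h5 : ∑ x ∈ D, ∑ i, (G (x + st i) - G x) ^ 2 = ∑ x ∈ D, G x * Lap G x +
      ∑ x ∈ D, ∑ i, G (x + st i) * (G (x + st i) - G x) := by
    rw [← Finset.sum_add_distrib]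
    refine Finset.sum_congr rfl fun x _ => ?_
    rw [Lap, Finset.mul_sum, ← Finset.sum_add_distrib]
    refine Finset.sum_congr rfl fun i _ => ?_
    ring
  unfold EG
  rw [h5, h1]
  ring

theorem EG_card {D A : Finset (ℤ × ℤ)} {G : ℤ × ℤ → ℝ} {δ C : ℝ} (hG : Rg G δ C)
    (hA : ∀ x, G x ≠ 0 → x ∈ A ∧ ∀ i, x + st i ∈ A) :
    EG D G ≤ 3 * C ^ 2 * δ ^ 2 * A.card := by
  classical
  have h1 : ∀ x ∈ D, ∑ i, (G (x + st i) - G x) ^ 2 ≤
      (if x ∈ A then 6 * (C * δ) ^ 2 else 0) := by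
    intro x _
    split_ifs with hx
    · calc ∑ i, (G (x + st i) - G x) ^ 2 ≤ ∑ _i : Fin 6, (C * δ) ^ 2 := by
            refine Finset.sum_le_sum fun i _ => ?_
            rw [← sq_abs, abs_sub_comm]
            exact pow_le_pow_left₀ (abs_nonneg _) (hG.lip x i) 2
        _ = 6 * (C * δ) ^ 2 := by
            rw [Finset.sum_const, Finset.card_univ, Fintype.card_fin, nsmul_eq_mul]
            norm_num
    · have h2 : G x = 0 := by
        by_contra hne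
        exact hx (hA x hne).1
      have h3 : ∀ i, G (x + st i) = 0 := by
        intro i
        by_contra hne
        have h4 := (hA _ hne).2 (i + 3)
        rw [taf_opp] at h4
        exact hx h4
      refine le_of_eq (Finset.sum_eq_zero fun i _ => ?_)
      rw [h2, h3 i]
      norm_num
  have h2 := Finset.sum_le_sum h1
  rw [← Finset.sum_filter, Finset.sum_const, nsmul_eq_mul] at h2
  have h3 : (D.filter (fun x => x ∈ A)).card ≤ A.card :=
    Finset.card_le_card fun x hx => (Finset.mem_filter.1 hx).2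
  have h4 : ((D.filter (fun x => x ∈ A)).card : ℝ) ≤ A.card := by exact_mod_cast h3
  unfold EG
  have h5 : ((D.filter (fun x => x ∈ A)).card : ℝ) * (6 * (C * δ) ^ 2) ≤
      (A.card : ℝ) * (6 * (C * δ) ^ 2) := mul_le_mul_of_nonneg_right h4 (by positivity)
  calc (1 / 2) * ∑ x ∈ D, ∑ i, (G (x + st i) - G x) ^ 2
      ≤ (1 / 2) * ((A.card : ℝ) * (6 * (C * δ) ^ 2)) := by linarith
    _ = 3 * C ^ 2 * δ ^ 2 * A.card := by ring

/- END taf -/

/- MODULE tag
Pointwise bounds for the cluster fields with the parameter `e0`, if the increments of `ψ` are at most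
`l` (`qs_bound`, `rho_pz_le`, `rho_pz2_le`, `Os_lip`, `rho_pz_zero`, `Ny_card`). -/

theorem rho_lip : ∃ C : ℝ, 1 ≤ C ∧ ∀ (U : Finset Ed) (A : Finset (ℤ × ℤ))
    (M : Finset (ℤ × ℤ) → ℝ) (ψ : ℤ × ℤ → ℝ), IsMean M ψ → UA U A ψ → ∀ l : ℝ,
    (∀ x i, |ψ x - ψ (x + st i)| ≤ l) → ∀ (S : Finset (ℤ × ℤ)) (c : ℤ × ℤ → ℝ) (h : S → ℝ),
    ∀ x ∈ A,
    (|rho e0 U A M x (gl S c h) - ψ x| ≤ C * l * (Gx e0 A (gl S c h) x).card) ∧
    (∀ y, |pz S y (fun h => rho e0 U A M x (gl S c h)) h| ≤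
      C * l * (Gx e0 A (gl S c h) x).card) ∧
    (∀ y z, |pz S z (pz S y (fun h => rho e0 U A M x (gl S c h))) h| ≤
      C * l * (Gx e0 A (gl S c h) x).card) ∧
    (∑ y ∈ S, (pz S y (fun h => rho e0 U A M x (gl S c h)) h) ^ 2 ≤
      C * l ^ 2 * ((Gx e0 A (gl S c h) x).card : ℝ) ^ 3) := by
  classical
  have e0p : (0 : ℝ) < e0 := by unfold e0; positivity
  have e0h : e0 ≤ 1 / 2 := by
    unfold e0
    exact one_div_le_one_div_of_le (by norm_num) (by norm_num)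
  obtain ⟨C, hC0, hC⟩ := qs_bound e0p e0h
  refine ⟨1 + 12 + 6 * (48 * C) + 6 * (48 * C + 1152 * C ^ 2) + 7 * (288 * C) ^ 2, ?_, ?_⟩
  · nlinarith [hC0, sq_nonneg C]
  intro U A M ψ hM hU l hl S c h x hx
  set H := gl S c h with hH
  set g : ℝ := ((Gx e0 A H x).card : ℝ) with hg
  have hl0 : 0 ≤ l := (abs_nonneg _).trans (hl x 0)
  have hg0 : 0 ≤ g := Nat.cast_nonneg _
  have hOs : Os A (Op e0 H) ψ x ≤ 6 * l * g := Os_lip fun y _ i => hl y i
  have hlg : 0 ≤ l * g := mul_nonneg hl0 hg0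
  set K : ℝ := 1 + 12 + 6 * (48 * C) + 6 * (48 * C + 1152 * C ^ 2) + 7 * (288 * C) ^ 2 with hK
  have hC2 : 0 ≤ C ^ 2 := sq_nonneg C
  have k1 : 12 ≤ K := by rw [hK]; nlinarith
  have k2 : 6 * (48 * C) ≤ K := by rw [hK]; nlinarith
  have k3 : 6 * (48 * C + 1152 * C ^ 2) ≤ K := by rw [hK]; nlinarith
  have k4 : 7 * (288 * C) ^ 2 ≤ K := by rw [hK]; nlinarith
  have hpz : ∀ y, |pz S y (fun h => rho e0 U A M x (gl S c h)) h| ≤ 48 * C * (6 * l * g) := by
    intro y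
    refine (rho_pz_le e0p e0h (fun z => (hC z).1) hM hU S c y h hx).trans ?_
    exact mul_le_mul_of_nonneg_left hOs (by positivity)
  refine ⟨?_, fun y => ?_, fun y z => ?_, ?_⟩
  · refine (rho_osc e0p e0h hM hU H hx (Cmp_self _ hx)).trans ?_
    nlinarith [hOs, mul_le_mul_of_nonneg_right k1 hlg]
  · refine (hpz y).trans ?_
    nlinarith [mul_le_mul_of_nonneg_right k2 hlg]
  · refine (rho_pz2_le e0p e0h hC hM hU S c y z h hx).trans ?_
    have h5 : (48 * C + 1152 * C ^ 2) * Os A (Op e0 H) ψ x ≤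
        (48 * C + 1152 * C ^ 2) * (6 * l * g) := mul_le_mul_of_nonneg_left hOs (by positivity)
    nlinarith [mul_le_mul_of_nonneg_right k3 hlg]
  · have b1 : ∑ y ∈ S, (pz S y (fun h => rho e0 U A M x (gl S c h)) h) ^ 2 ≤
        ∑ y ∈ S.filter (fun y => Ny e0 U A H x y), (48 * C * (6 * l * g)) ^ 2 := by
      rw [Finset.sum_filter]
      refine Finset.sum_le_sum fun y _ => ?_
      split_ifs with hN
      · rw [← sq_abs]
        exact pow_le_pow_left₀ (abs_nonneg _) (hpz y) 2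
      · rw [rho_pz_zero e0p e0h U A M S c h hN]
        norm_num
    rw [Finset.sum_const, nsmul_eq_mul] at b1
    have b3 : (((S.filter (fun y => Ny e0 U A H x y)).card : ℕ) : ℝ) ≤ 7 * g := by
      rw [hg]
      exact_mod_cast Ny_card e0 hU.1 H x _ fun y hy => (Finset.mem_filter.1 hy).2
    refine b1.trans ?_
    calc (((S.filter (fun y => Ny e0 U A H x y)).card : ℕ) : ℝ) * (48 * C * (6 * l * g)) ^ 2
        ≤ (7 * g) * (48 * C * (6 * l * g)) ^ 2 := mul_le_mul_of_nonneg_right b3 (sq_nonneg _)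
      _ = (7 * (288 * C) ^ 2) * (l ^ 2 * g ^ 3) := by ring
      _ ≤ K * (l ^ 2 * g ^ 3) := mul_le_mul_of_nonneg_right k4 (by positivity)
      _ = K * l ^ 2 * g ^ 3 := by ring

/- END tag -/

/- MODULE tah
Moments of the clusters (`moment_one`); the tail: `g ^ p 1(M ≤ g) ≤ g ^ (p + q) / M ^ q`. -/

private theorem tah_int {D : Finset (ℤ × ℤ)} {b : ℤ × ℤ → ℝ} (hb : ∀ z, |b z| ≤ 1 / 2)
    (A : Finset (ℤ × ℤ)) (x : ℤ × ℤ) (p : ℕ) :
    Integrable (fun h : D → ℝ => ((Gx e0 A (gl D b h) x).card : ℝ) ^ p) (Mu D b) := by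
  have hP : IsProbabilityMeasure (Mu D b) := prob hb
  refine Integrable.of_bound (C := (A.card : ℝ) ^ p) ?_ (ae_of_all _ fun h => ?_)
  · exact (Gx_fun_meas e0 D b A x (fun F => (F.card : ℝ) ^ p)).aestronglyMeasurable
  · rw [Real.norm_of_nonneg (by positivity)]
    exact pow_le_pow_left₀ (by positivity) (by exact_mod_cast Gx_card_le e0 A (gl D b h) x) p

theorem G_moment (p : ℕ) : ∃ C : ℝ, 1 ≤ C ∧ ∀ (D A : Finset (ℤ × ℤ)), A ⊆ D →
    ∀ b : ℤ × ℤ → ℝ, (∀ z, |b z| ≤ 1 / 2) → ∀ x ∈ A,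
      Integrable (fun h : D → ℝ => ((Gx e0 A (gl D b h) x).card : ℝ) ^ p) (Mu D b) ∧
      ∫ h, ((Gx e0 A (gl D b h) x).card : ℝ) ^ p ∂(Mu D b) ≤ C := by
  obtain ⟨C, hC, H⟩ := moment_one p
  have he : (0 : ℝ) < e0 := by
    unfold e0
    positivity
  refine ⟨1 + C * e0, ?_, fun D A hA b hb x hx => ⟨tah_int hb A x p, ?_⟩⟩
  · have : 0 ≤ C * e0 := by positivity
    linarith
  · exact H D A hA b hb e0 he le_rfl x hx

open scoped Classical in
theorem G_tail (p q : ℕ) : ∃ C : ℝ, 1 ≤ C ∧ ∀ (D A : Finset (ℤ × ℤ)), A ⊆ D →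
    ∀ b : ℤ × ℤ → ℝ, (∀ z, |b z| ≤ 1 / 2) → ∀ x ∈ A, ∀ M : ℝ, 0 < M →
      Integrable (fun h : D → ℝ => if M ≤ ((Gx e0 A (gl D b h) x).card : ℝ) then
        ((Gx e0 A (gl D b h) x).card : ℝ) ^ p else 0) (Mu D b) ∧
      ∫ h, (if M ≤ ((Gx e0 A (gl D b h) x).card : ℝ) then
        ((Gx e0 A (gl D b h) x).card : ℝ) ^ p else 0) ∂(Mu D b) ≤ C / M ^ q := by
  obtain ⟨C, hC, H⟩ := G_moment (p + q)
  refine ⟨C, hC, fun D A hA b hb x hx M hM => ?_⟩
  have hP : IsProbabilityMeasure (Mu D b) := prob hb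
  have hI : Integrable (fun h : D → ℝ => if M ≤ ((Gx e0 A (gl D b h) x).card : ℝ) then
        ((Gx e0 A (gl D b h) x).card : ℝ) ^ p else 0) (Mu D b) := by
    refine Integrable.of_bound (C := (A.card : ℝ) ^ p) ?_ (ae_of_all _ fun h => ?_)
    · exact (Gx_fun_meas e0 D b A x (fun F => if M ≤ (F.card : ℝ) then (F.card : ℝ) ^ p
        else 0)).aestronglyMeasurable
    · have h1 : ((Gx e0 A (gl D b h) x).card : ℝ) ^ p ≤ (A.card : ℝ) ^ p :=
        pow_le_pow_left₀ (by positivity) (by exact_mod_cast Gx_card_le e0 A (gl D b h) x) p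
      split_ifs with h2
      · rw [Real.norm_of_nonneg (by positivity)]
        exact h1
      · rw [norm_zero]
        positivity
  refine ⟨hI, ?_⟩
  obtain ⟨h3, h4⟩ := H D A hA b hb x hx
  have hMq : (0 : ℝ) < M ^ q := pow_pos hM q
  rw [le_div_iff₀ hMq, mul_comm, ← integral_const_mul]
  refine le_trans (integral_mono (hI.const_mul _) h3 fun h => ?_) h4
  show M ^ q * (if M ≤ ((Gx e0 A (gl D b h) x).card : ℝ) then
        ((Gx e0 A (gl D b h) x).card : ℝ) ^ p else 0) ≤ ((Gx e0 A (gl D b h) x).card : ℝ) ^ (p + q)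
  split_ifs with h2
  · rw [pow_add, mul_comm]
    exact mul_le_mul_of_nonneg_left (pow_le_pow_left₀ hM.le h2 q) (by positivity)
  · rw [mul_zero]
    positivity

/- END tah -/

/- MODULE tai
Geometry of clusters: a component is connected, so it contains sites at all intermediate distances:
its diameter is at most `card - 1`. -/

theorem Cmp_dist {A : Finset (ℤ × ℤ)} {S : Set Ed} {x y : ℤ × ℤ} (hx : x ∈ A)
    (hy : y ∈ Cmp A S x) : dn (y - x) + 1 ≤ (Cmp A S x).card := by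
  classical
  have key : ∀ z, Relation.ReflTransGen (eadj A S) x z → ∀ k : ℤ, 0 ≤ k → k ≤ dn (z - x) →
      ∃ w ∈ Cmp A S x, dn (w - x) = k := by
    intro z hz
    induction hz with
    | refl =>
      intro k hk0 hk1
      refine ⟨x, Cmp_self S hx, ?_⟩
      have h1 : dn (x - x) = 0 := by rw [dn_zero_iff, sub_self]
      omega
    | @tail b c h1 h2 ih =>
      intro k hk0 hk1
      by_cases hk : k ≤ dn (b - x)
      · exact ih k hk0 hk
      · have hc : c ∈ Cmp A S x := mem_Cmp.2 ⟨h2.2.1, h1.tail h2⟩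
        refine ⟨c, hc, ?_⟩
        obtain ⟨-, -, i, ⟨h3, -⟩ | ⟨h3, -⟩⟩ := h2
        · have h4 := dn_step (b - x) i
          have h5 : b - x + st i = c - x := by rw [h3]; abel
          rw [h5] at h4
          have h6 := (abs_le.1 h4).2
          omega
        · have h4 := dn_step (c - x) i
          have h5 : c - x + st i = b - x := by rw [h3]; abel
          rw [h5] at h4
          have h6 := (abs_le.1 h4).1
          omega
  have h1 : Finset.Icc 0 (dn (y - x)) ⊆ (Cmp A S x).image (fun w => dn (w - x)) := by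
    intro k hk
    rw [Finset.mem_Icc] at hk
    obtain ⟨w, hw, hw'⟩ := key y (mem_Cmp.1 hy).2 k hk.1 hk.2
    exact Finset.mem_image.2 ⟨w, hw, hw'⟩
  have h2 := (Finset.card_le_card h1).trans Finset.card_image_le
  rw [Int.card_Icc] at h2
  have h3 := dn_nonneg (y - x)
  omega

/- END tai -/

end Pool.Agent.Hmk
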