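import Pool.Agent.Hmk.TfA

/-!
# Hmk, trial field (2): the box field

`B ⊆ D` a box, `φ` a cut-off function (zero off the bulk `B'`), `v` a box field (`LNice D B v`),
`tW = tE * Tk k (tU)`, `tU x = v x - (average of v over B') + c - rho^B x`.
-/

set_option autoImplicit false

open MeasureTheory Set Filter ProbabilityTheory

open scoped ENNReal ContDiff Topology

noncomputable section

namespace Pool.Agent.Hmk

/-- the tied cut-off -/
def tE (D : Finset (ℤ × ℤ)) (b : ℤ × ℤ → ℝ) (B : Finset (ℤ × ℤ)) (φ : ℤ × ℤ → ℝ) (x : ℤ × ℤ)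
    (h : D → ℝ) : ℝ := rho e0 (Uo B) B (Mmn φ) x (gl D b h)

/-- the regularised macroscopic function, clusters inside the box only -/
def tR (D : Finset (ℤ × ℤ)) (b : ℤ × ℤ → ℝ) (B : Finset (ℤ × ℤ)) (ψ : ℤ × ℤ → ℝ) (x : ℤ × ℤ)
    (h : D → ℝ) : ℝ := rho e0 (Ui B) B (Mav ψ) x (gl D b h)

/-- the regularised macroscopic function on the whole region `A` -/
def tG (D : Finset (ℤ × ℤ)) (b : ℤ × ℤ → ℝ) (A : Finset (ℤ × ℤ)) (ψ : ℤ × ℤ → ℝ) (x : ℤ × ℤ)
    (h : D → ℝ) : ℝ := rho e0 (Uo A) A (Mav ψ) x (gl D b h)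

/-- the difference which is truncated -/
def tU (D : Finset (ℤ × ℤ)) (b : ℤ × ℤ → ℝ) (B B' : Finset (ℤ × ℤ)) (ψ : ℤ × ℤ → ℝ) (c : ℝ)
    (v : ℤ × ℤ → (D → ℝ) → ℝ) (x : ℤ × ℤ) (h : D → ℝ) : ℝ :=
  v x h - avf B' (fun z => v z h) + c - tR D b B ψ x h

/-- the box field -/
def tW (D : Finset (ℤ × ℤ)) (b : ℤ × ℤ → ℝ) (B B' : Finset (ℤ × ℤ)) (φ ψ : ℤ × ℤ → ℝ) (c k : ℝ)
    (v : ℤ × ℤ → (D → ℝ) → ℝ) (x : ℤ × ℤ) (h : D → ℝ) : ℝ :=
  tE D b B φ x h * Tk k (tU D b B B' ψ c v x h)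

/-- the weight `η T'` -/
def tT (D : Finset (ℤ × ℤ)) (b : ℤ × ℤ → ℝ) (B B' : Finset (ℤ × ℤ)) (φ ψ : ℤ × ℤ → ℝ) (c k : ℝ)
    (v : ℤ × ℤ → (D → ℝ) → ℝ) (x : ℤ × ℤ) (h : D → ℝ) : ℝ :=
  tE D b B φ x h * deriv (Tk k) (tU D b B B' ψ c v x h)

/-- `F` depends only on the heights at the sites of `S` -/
def DepS {D : Finset (ℤ × ℤ)} (S : Finset (ℤ × ℤ)) (F : (D → ℝ) → ℝ) : Prop :=
  Dep (fun x => x ∈ S) F

/- MODULE tba
The cut-off: between `0` and `1`, zero where `φ` is zero (`rho_mn_le`), the cluster field `tG`,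
`tR`, `tE` are smooth and depend on the heights in `nb A` (`cfu_congr_H`). -/

private theorem tba_e0 : 0 < e0 := by
  unfold e0
  positivity

private theorem tba_e1 : e0 ≤ 1 / 2 := by
  unfold e0
  norm_num

private theorem tba_Ui (A : Finset (ℤ × ℤ)) : Ui A ⊆ Uo A := Finset.filter_subset _ _

private theorem tba_nb {A : Finset (ℤ × ℤ)} {e : Ed} (he : e ∈ Uo A) :
    e.1 ∈ nb A ∧ e.1 + st e.2 ∈ nb A := by
  have h1 : e.1 ∈ A := (Finset.mem_product.1 he).1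
  refine ⟨Finset.mem_union_left _ h1, Finset.mem_union_right _ ?_⟩
  exact Finset.mem_biUnion.2 ⟨e.1, h1, Finset.mem_image.2 ⟨e.2, Finset.mem_univ _, rfl⟩⟩

private theorem tba_gl {D S : Finset (ℤ × ℤ)} (b : ℤ × ℤ → ℝ) {h h' : D → ℝ}
    (hh : ∀ x : D, (x : ℤ × ℤ) ∈ S → h x = h' x) {z : ℤ × ℤ} (hz : z ∈ S) :
    gl D b h z = gl D b h' z := by
  by_cases hzD : z ∈ D
  · rw [gl_mem hzD, gl_mem hzD]
    exact hh ⟨z, hzD⟩ hz
  · rw [gl_not_mem hzD, gl_not_mem hzD]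

theorem tE_mem {D : Finset (ℤ × ℤ)} {b : ℤ × ℤ → ℝ} {B : Finset (ℤ × ℤ)} {φ : ℤ × ℤ → ℝ}
    (hφ : ∀ z, 0 ≤ φ z ∧ φ z ≤ 1) (x : ℤ × ℤ) (h : D → ℝ) :
    0 ≤ tE D b B φ x h ∧ tE D b B φ x h ≤ 1 ∧ tE D b B φ x h ≤ φ x := by
  have h1 : tE D b B φ x h ≤ φ x :=
    rho_mn_le tba_e0 tba_e1 (Uo B) B (fun z => (hφ z).1) x (gl D b h)
  exact ⟨rho_nonneg tba_e0 tba_e1 (Uo B) B (Mmn_mean φ) (fun z => (hφ z).1) x (gl D b h),
    h1.trans (hφ x).2, h1⟩

theorem tE_smooth (D : Finset (ℤ × ℤ)) (b : ℤ × ℤ → ℝ) (B : Finset (ℤ × ℤ)) (φ : ℤ × ℤ → ℝ)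
    (x : ℤ × ℤ) : ContDiff ℝ ∞ (tE D b B φ x) := by
  exact rho_smooth e0 (Uo B) B (Mmn φ) x D b

theorem tR_smooth (D : Finset (ℤ × ℤ)) (b : ℤ × ℤ → ℝ) (B : Finset (ℤ × ℤ)) (ψ : ℤ × ℤ → ℝ)
    (x : ℤ × ℤ) : ContDiff ℝ ∞ (tR D b B ψ x) := by
  exact rho_smooth e0 (Ui B) B (Mav ψ) x D b

theorem tG_smooth (D : Finset (ℤ × ℤ)) (b : ℤ × ℤ → ℝ) (A : Finset (ℤ × ℤ)) (ψ : ℤ × ℤ → ℝ)
    (x : ℤ × ℤ) : ContDiff ℝ ∞ (tG D b A ψ x) := by
  exact rho_smooth e0 (Uo A) A (Mav ψ) x D b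

theorem rho_dep (D : Finset (ℤ × ℤ)) (b : ℤ × ℤ → ℝ) {U : Finset Ed} {A : Finset (ℤ × ℤ)}
    (hU : U ⊆ Uo A) (M : Finset (ℤ × ℤ) → ℝ) (x : ℤ × ℤ) :
    DepS (nb A) (fun h : D → ℝ => rho e0 U A M x (gl D b h)) := by
  intro h h' hh
  refine cfu_congr_H e0 _ fun e he => ?_
  have h1 := tba_nb (hU he)
  unfold hd
  rw [tba_gl b hh h1.1, tba_gl b hh h1.2]

/- END tba -/

/- MODULE tbb
The box field is nice (ties: inside `B` all three factors are tied; across the boundary of `B` both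
values of `tE` are `0`, `rho_tie_o`, `rho_out`; off `B` everything is `0`), bounded by `k`, zero where
`φ` is zero; it depends on the heights in `nb B` if `v` does. -/

private theorem tbb_avf {D : Finset (ℤ × ℤ)} (B' : Finset (ℤ × ℤ)) {v : ℤ × ℤ → (D → ℝ) → ℝ}
    (hv : ∀ x, ContDiff ℝ ∞ (v x)) : ContDiff ℝ ∞ (fun h : D → ℝ => avf B' (fun z => v z h)) := by
  unfold avf
  exact contDiff_const.mul (ContDiff.sum fun z _ => hv z)

private theorem tbb_tU {D : Finset (ℤ × ℤ)} (b : ℤ × ℤ → ℝ) (B B' : Finset (ℤ × ℤ))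
    (ψ : ℤ × ℤ → ℝ) (c : ℝ) {v : ℤ × ℤ → (D → ℝ) → ℝ} (hv : ∀ x, ContDiff ℝ ∞ (v x))
    (x : ℤ × ℤ) : ContDiff ℝ ∞ (tU D b B B' ψ c v x) := by
  unfold tU
  exact (((hv x).sub (tbb_avf B' hv)).add contDiff_const).sub (tR_smooth D b B ψ x)

private theorem tbb_out {D : Finset (ℤ × ℤ)} {b : ℤ × ℤ → ℝ} {B : Finset (ℤ × ℤ)}
    (φ : ℤ × ℤ → ℝ) {x : ℤ × ℤ} (hx : x ∉ B) (h : D → ℝ) : tE D b B φ x h = 0 :=
  rho_out e0 (Uo B) (Mmn φ) hx (gl D b h)

private theorem tbb_depU {D : Finset (ℤ × ℤ)} (b : ℤ × ℤ → ℝ) (B B' : Finset (ℤ × ℤ))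
    (ψ : ℤ × ℤ → ℝ) (c : ℝ) {v : ℤ × ℤ → (D → ℝ) → ℝ} (hv : ∀ x, DepS (nb B) (v x))
    (x : ℤ × ℤ) : DepS (nb B) (tU D b B B' ψ c v x) := by
  intro h h' hh
  have h1 : tR D b B ψ x h = tR D b B ψ x h' := rho_dep D b (tba_Ui B) (Mav ψ) x h h' hh
  have h2 : (fun z => v z h) = fun z => v z h' := funext fun z => hv z h h' hh
  unfold tU
  rw [h1, h2, hv x h h' hh]

theorem tW_nice {D : Finset (ℤ × ℤ)} {b : ℤ × ℤ → ℝ} {B : Finset (ℤ × ℤ)} (hB : B ⊆ D)
    (B' : Finset (ℤ × ℤ)) (φ ψ : ℤ × ℤ → ℝ) (c : ℝ) {k : ℝ} (hk : 0 < k)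
    {v : ℤ × ℤ → (D → ℝ) → ℝ} (hv : LNice D B v) : Nice D b (tW D b B B' φ ψ c k v) := by
  refine ⟨fun z => ?_, fun z hz h => ?_, ?_⟩
  · exact (tE_smooth D b B φ z).mul ((Tk_smooth hk).comp (tbb_tU b B B' ψ c hv.sm z))
  · unfold tW
    rw [tbb_out φ (fun h1 => hz (hB h1)) h, zero_mul]
  · obtain ⟨ε, hε, htie⟩ := hv.tie
    have he0 := tba_e0
    refine ⟨min ε (e0 / 2), lt_min hε (by positivity), fun z _ i h hh => ?_⟩
    have hm1 := min_le_left ε (e0 / 2)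
    have hm2 := min_le_right ε (e0 / 2)
    have hE : tE D b B φ z h = tE D b B φ (z + st i) h :=
      rho_tie_o tba_e0 tba_e1 B (Mmn φ) z i (gl D b h) (by linarith)
    unfold tW
    by_cases hz : z ∈ B
    · by_cases hi : z + st i ∈ B
      · have hR : tR D b B ψ z h = tR D b B ψ (z + st i) h :=
          rho_tie_i tba_e0 tba_e1 (Mav ψ) (gl D b h) hz hi (by linarith)
        have hV : v z h = v (z + st i) h := by
          refine htie z hz i hi h ?_
          have h1 : g0 D h z = gl D b h z := by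
            unfold g0
            rw [gl_mem (hB hz), gl_mem (hB hz)]
          have h2 : g0 D h (z + st i) = gl D b h (z + st i) := by
            unfold g0
            rw [gl_mem (hB hi), gl_mem (hB hi)]
          rw [h1, h2]
          linarith
        have hU : tU D b B B' ψ c v z h = tU D b B B' ψ c v (z + st i) h := by
          unfold tU
          rw [hR, hV]
        rw [hE, hU]
      · have h1 := tbb_out (b := b) φ hi h
        rw [hE, h1, zero_mul, zero_mul]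
    · have h1 := tbb_out (b := b) φ hz h
      rw [← hE, h1, zero_mul, zero_mul]

theorem tW_bound {D : Finset (ℤ × ℤ)} {b : ℤ × ℤ → ℝ} {B : Finset (ℤ × ℤ)} (B' : Finset (ℤ × ℤ))
    {φ : ℤ × ℤ → ℝ} (hφ : ∀ z, 0 ≤ φ z ∧ φ z ≤ 1) (ψ : ℤ × ℤ → ℝ) (c : ℝ) {k : ℝ} (hk : 0 < k)
    (v : ℤ × ℤ → (D → ℝ) → ℝ) (x : ℤ × ℤ) (h : D → ℝ) :
    |tW D b B B' φ ψ c k v x h| ≤ k * φ x ∧ |tW D b B B' φ ψ c k v x h| ≤ k := by
  obtain ⟨h1, h2, h3⟩ := tE_mem (b := b) (B := B) hφ x h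
  have h4 := Tk_bound hk (tU D b B B' ψ c v x h)
  have h5 : |tW D b B B' φ ψ c k v x h| ≤ k * φ x := by
    unfold tW
    rw [abs_mul, abs_of_nonneg h1, mul_comm k]
    exact mul_le_mul h3 h4 (abs_nonneg _) (hφ x).1
  refine ⟨h5, h5.trans ?_⟩
  have h6 : k * φ x ≤ k * 1 := mul_le_mul_of_nonneg_left (hφ x).2 hk.le
  linarith

theorem tW_dep {D : Finset (ℤ × ℤ)} {b : ℤ × ℤ → ℝ} {B : Finset (ℤ × ℤ)} (B' : Finset (ℤ × ℤ))
    (φ ψ : ℤ × ℤ → ℝ) (c k : ℝ) {v : ℤ × ℤ → (D → ℝ) → ℝ} (hv : ∀ x, DepS (nb B) (v x))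
    (x : ℤ × ℤ) : DepS (nb B) (tW D b B B' φ ψ c k v x) := by
  intro h h' hh
  have h1 : tE D b B φ x h = tE D b B φ x h' :=
    rho_dep D b (Finset.Subset.refl (Uo B)) (Mmn φ) x h h' hh
  have h2 := tbb_depU b B B' ψ c hv x h h' hh
  unfold tW
  rw [h1, h2]

theorem tT_mem {D : Finset (ℤ × ℤ)} {b : ℤ × ℤ → ℝ} {B : Finset (ℤ × ℤ)} (B' : Finset (ℤ × ℤ))
    {φ : ℤ × ℤ → ℝ} (hφ : ∀ z, 0 ≤ φ z ∧ φ z ≤ 1) (ψ : ℤ × ℤ → ℝ) (c : ℝ) {k : ℝ} (hk : 0 < k)
    (v : ℤ × ℤ → (D → ℝ) → ℝ) (x : ℤ × ℤ) (h : D → ℝ) :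
    0 ≤ tT D b B B' φ ψ c k v x h ∧ tT D b B B' φ ψ c k v x h ≤ φ x ∧
    1 - tT D b B B' φ ψ c k v x h ≤ (1 - tE D b B φ x h) +
      2 * min 1 (|tU D b B B' ψ c v x h| / k) := by
  obtain ⟨h1, h2, h3⟩ := tE_mem (b := b) (B := B) hφ x h
  obtain ⟨h4, h5⟩ := Tk_deriv hk (tU D b B B' ψ c v x h)
  have h6 := Tk_deriv_one hk (tU D b B B' ψ c v x h)
  unfold tT
  set E := tE D b B φ x h
  set T := deriv (Tk k) (tU D b B B' ψ c v x h)
  refine ⟨mul_nonneg h1 h4, ?_, ?_⟩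
  · calc E * T ≤ E * 1 := mul_le_mul_of_nonneg_left h5 h1
      _ ≤ φ x := by linarith
  · have h7 : E * (1 - T) ≤ 1 * (1 - T) := mul_le_mul_of_nonneg_right h2 (by linarith)
    nlinarith [h7, h6]

/- END tbb -/

/- MODULE tbc
Functions of few heights: derivatives and divergences. -/

private theorem tbc_pz {S : Finset (ℤ × ℤ)} {y : ℤ × ℤ} (hy : y ∈ S) (f : (S → ℝ) → ℝ)
    (k : S → ℝ) : pz S y f k = fderiv ℝ f k (Pi.single ⟨y, hy⟩ 1) := by
  unfold pz pd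
  rw [dif_pos hy]

private theorem tbc_pz0 {S : Finset (ℤ × ℤ)} {y : ℤ × ℤ} (hy : y ∉ S) (f : (S → ℝ) → ℝ)
    (k : S → ℝ) : pz S y f k = 0 := by
  unfold pz
  rw [dif_neg hy]

private theorem tbc_zero {S : Finset (ℤ × ℤ)} (y : ℤ × ℤ) (k : S → ℝ) :
    pz S y (fun _ => (0 : ℝ)) k = 0 := by
  by_cases hy : y ∈ S
  · rw [tbc_pz hy]
    simp
  · exact tbc_pz0 hy _ _

private theorem tbc_add {S : Finset (ℤ × ℤ)} {f g : (S → ℝ) → ℝ} (hf : ContDiff ℝ ∞ f)
    (hg : ContDiff ℝ ∞ g) (y : ℤ × ℤ) (k : S → ℝ) :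
    pz S y (fun h => f h + g h) k = pz S y f k + pz S y g k := by
  by_cases hy : y ∈ S
  · rw [tbc_pz hy, tbc_pz hy, tbc_pz hy,
      fderiv_fun_add (hf.differentiable (by norm_num) k) (hg.differentiable (by norm_num) k)]
    rfl
  · rw [tbc_pz0 hy, tbc_pz0 hy, tbc_pz0 hy, add_zero]

theorem dep_pz {D S : Finset (ℤ × ℤ)} {F : (D → ℝ) → ℝ} (hF : DepS S F) (y : ℤ × ℤ) :
    DepS S (pz D y F) := by
  intro h h' hh
  by_cases hy : y ∈ D
  · have h1 : (fun k : D → ℝ => F (k + h)) = fun k => F (k + h') := by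
      funext k
      refine hF _ _ fun x hx => ?_
      rw [Pi.add_apply, Pi.add_apply, hh x hx]
    have h2 := fderiv_comp_add_right (𝕜 := ℝ) (f := F) (x := 0) h
    have h3 := fderiv_comp_add_right (𝕜 := ℝ) (f := F) (x := 0) h'
    rw [zero_add] at h2 h3
    rw [tbc_pz hy, tbc_pz hy, ← h2, ← h3, h1]
  · rw [tbc_pz0 hy, tbc_pz0 hy]

theorem dep_zero {D S : Finset (ℤ × ℤ)} {F : (D → ℝ) → ℝ} (hF : DepS S F) {y : ℤ × ℤ}
    (hy : y ∉ S) (h : D → ℝ) : pz D y F h = 0 := by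
  by_cases hyD : y ∈ D
  · rw [tbc_pz hyD]
    by_cases hd : DifferentiableAt ℝ F h
    · have h1 := hd.lineDeriv_eq_fderiv (v := (Pi.single (⟨y, hyD⟩ : D) (1 : ℝ) : D → ℝ))
      rw [← h1]
      unfold lineDeriv
      have h2 : (fun t : ℝ => F (h + t • (Pi.single (⟨y, hyD⟩ : D) (1 : ℝ) : D → ℝ))) =
          fun _ => F h := by
        funext t
        refine hF _ _ fun x hx => ?_
        have hne : x ≠ (⟨y, hyD⟩ : D) := by
          intro hc
          apply hy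
          have h3 : (x : ℤ × ℤ) = y := congrArg Subtype.val hc
          rw [← h3]
          exact hx
        rw [Pi.add_apply, Pi.smul_apply, Pi.single_eq_of_ne hne, smul_zero, add_zero]
      rw [h2, deriv_const]
    · rw [fderiv_zero_of_not_differentiableAt hd]
      rfl
  · exact tbc_pz0 hyD _ _

theorem dep_dv {D S : Finset (ℤ × ℤ)} {w : ℤ × ℤ → (D → ℝ) → ℝ} (hw : ∀ x, DepS S (w x)) :
    DepS S (dv D w) := by
  intro h h' hh
  unfold dv
  rw [Finset.sum_congr rfl fun x _ => dep_pz (hw x) x h h' hh]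

theorem dv_add {D : Finset (ℤ × ℤ)} {w v : ℤ × ℤ → (D → ℝ) → ℝ}
    (hw : ∀ x, ContDiff ℝ ∞ (w x)) (hv : ∀ x, ContDiff ℝ ∞ (v x)) (h : D → ℝ) :
    dv D (fun x h => w x h + v x h) h = dv D w h + dv D v h := by
  unfold dv
  rw [← neg_add, ← Finset.sum_add_distrib]
  rw [Finset.sum_congr rfl fun x _ => tbc_add (hw x) (hv x) x h]

theorem dv_sum {D : Finset (ℤ × ℤ)} {ι : Type*} (s : Finset ι) {w : ι → ℤ × ℤ → (D → ℝ) → ℝ}
    (hw : ∀ i ∈ s, ∀ x, ContDiff ℝ ∞ (w i x)) (h : D → ℝ) :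
    dv D (fun x h => ∑ i ∈ s, w i x h) h = ∑ i ∈ s, dv D (w i) h := by
  classical
  induction s using Finset.induction_on with
  | empty =>
    simp only [Finset.sum_empty]
    unfold dv
    rw [Finset.sum_congr rfl fun x _ => tbc_zero x h, Finset.sum_const_zero, neg_zero]
  | insert a s ha ih =>
    simp only [Finset.sum_insert ha]
    rw [← ih fun i hi => hw i (Finset.mem_insert_of_mem hi)]
    exact dv_add (v := fun x h => ∑ i ∈ s, w i x h) (hw a (Finset.mem_insert_self a s))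
      (fun x => ContDiff.sum fun i hi => hw i (Finset.mem_insert_of_mem hi) x) h

theorem Nice.sum {D : Finset (ℤ × ℤ)} {b : ℤ × ℤ → ℝ} {ι : Type*} (s : Finset ι)
    {w : ι → ℤ × ℤ → (D → ℝ) → ℝ} (hw : ∀ i ∈ s, Nice D b (w i)) :
    Nice D b (fun x h => ∑ i ∈ s, w i x h) := by
  classical
  induction s using Finset.induction_on with
  | empty =>
    simp only [Finset.sum_empty]
    exact ⟨fun _ => contDiff_const, fun _ _ _ => rfl, ⟨1, one_pos, fun _ _ _ _ _ => rfl⟩⟩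
  | insert a s ha ih =>
    simp only [Finset.sum_insert ha]
    exact (hw a (Finset.mem_insert_self a s)).add
      (ih fun i hi => hw i (Finset.mem_insert_of_mem hi))

/- END tbc -/

/- MODULE tbd
Orthogonality: `dv_mul`, `w x = 0` off `S`, `pz x Y = 0` on `S`. -/

theorem dv_orth {D : Finset (ℤ × ℤ)} {b : ℤ × ℤ → ℝ} (hb : ∀ z, |b z| ≤ 1 / 2)
    {w : ℤ × ℤ → (D → ℝ) → ℝ} (hw : Nice D b w) {S : Finset (ℤ × ℤ)}
    (h0 : ∀ x ∉ S, ∀ h, w x h = 0) {Y : (D → ℝ) → ℝ} (hY : ContDiff ℝ ∞ Y)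
    (hS : ∀ x ∈ S, ∀ h, pz D x Y h = 0) : ∫ h, dv D w h * Y h ∂(Mu D b) = 0 := by
  have h1 := dv_mul hb hw hY
  have h2 : (fun h : D → ℝ => ∑ x ∈ D, w x h * pz D x Y h) = fun _ => 0 := by
    funext h
    refine Finset.sum_eq_zero fun x _ => ?_
    by_cases hx : x ∈ S
    · rw [hS x hx h, mul_zero]
    · rw [h0 x hx h, zero_mul]
  rw [h2, integral_zero] at h1
  rw [← h1]
  refine integral_congr_ae (Filter.Eventually.of_forall fun h => ?_)
  exact mul_comm _ _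

/-- two fields: `w` vanishes off `S`, the divergence of `v` depends on the heights in a set which
does not meet `S` -/
theorem dv_orth2 {D : Finset (ℤ × ℤ)} {b : ℤ × ℤ → ℝ} (hb : ∀ z, |b z| ≤ 1 / 2)
    {w v : ℤ × ℤ → (D → ℝ) → ℝ} (hw : Nice D b w) (hv : Nice D b v) {S S' : Finset (ℤ × ℤ)}
    (h0 : ∀ x ∉ S, ∀ h, w x h = 0) (hd : ∀ x, DepS S' (v x)) (hS : Disjoint S S') :
    ∫ h, dv D w h * dv D v h ∂(Mu D b) = 0 := by
  exact dv_orth hb hw h0 (dv_smooth hv) fun x hx h =>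
    dep_zero (dep_dv hd) (Finset.disjoint_left.1 hS hx) h

/- END tbd -/

/- MODULE tbe
The divergence theorem on a fibre, data `β` arbitrary: as `div_K` (`K D β` is compact for every `β`,
`K_compact`; the data enter only through the finitely many neighbours of `D`). -/

private theorem tbe_pz {S : Finset (ℤ × ℤ)} {y : ℤ × ℤ} (hy : y ∈ S) (f : (S → ℝ) → ℝ) :
    pz S y f = fun k => fderiv ℝ f k (Pi.single ⟨y, hy⟩ 1) := by
  funext k
  unfold pz pd
  rw [dif_pos hy]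

/-- integration by parts with the cut-off -/
private theorem tbe_ibp {D : Finset (ℤ × ℤ)} {b : ℤ × ℤ → ℝ}
    {w : ℤ × ℤ → (D → ℝ) → ℝ} (hw : Nice D b w) {δ : ℝ} (h0 : 0 < δ) (h1 : δ ≤ 1 / 2)
    (hg : ∀ h : D → ℝ, ∑ x ∈ D, w x h * pz D x (cu D b δ) h = 0) :
    ∫ h, cu D b δ h * ∑ x ∈ D, pz D x (w x) h = 0 := by
  have hcs : HasCompactSupport (cu D b δ) :=
    HasCompactSupport.intro (K_compact D b) fun h hh => cu_zero h0 h1 hh
  have hcd := cu_smooth D b δ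
  have hcc : Continuous (cu D b δ) := hcd.continuous
  have hI1 : ∀ x ∈ D, Integrable (fun h => cu D b δ h * pz D x (w x) h) := by
    intro x _
    exact (hcc.mul (pz_smooth (hw.sm x) x).continuous).integrable_of_hasCompactSupport
      hcs.mul_right
  have hI2 : ∀ x ∈ D, Integrable (fun h => w x h * pz D x (cu D b δ) h) := by
    intro x hx
    refine ((hw.sm x).continuous.mul
      (pz_smooth hcd x).continuous).integrable_of_hasCompactSupport (HasCompactSupport.mul_left ?_)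
    rw [tbe_pz hx]
    exact hcs.fderiv_apply (𝕜 := ℝ) _
  have hparts : ∀ x ∈ D, ∫ h, cu D b δ h * pz D x (w x) h =
      - ∫ h, w x h * pz D x (cu D b δ) h := by
    intro x hx
    have hI1' := hI1 x hx
    have hI2' := hI2 x hx
    rw [tbe_pz hx] at hI1' hI2' ⊢
    rw [tbe_pz hx]
    have h2 := integral_mul_fderiv_eq_neg_fderiv_mul_of_integrable (μ := volume)
      (f := cu D b δ) (g := w x) (v := Pi.single ⟨x, hx⟩ 1) (by
        refine hI2'.congr (Filter.Eventually.of_forall fun h => ?_)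
        simp only
        ring) hI1' ((hcc.mul (hw.sm x).continuous).integrable_of_hasCompactSupport
          hcs.mul_right) (fun h _ => hcd.differentiable (by norm_num) h)
      (fun h _ => (hw.sm x).differentiable (by norm_num) h)
    rw [h2]
    congr 1
    refine integral_congr_ae (Filter.Eventually.of_forall fun h => ?_)
    simp only
    ring
  have h3 : (fun h => cu D b δ h * ∑ x ∈ D, pz D x (w x) h) =
      fun h => ∑ x ∈ D, cu D b δ h * pz D x (w x) h := by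
    funext h
    rw [Finset.mul_sum]
  rw [h3, integral_finsetSum _ hI1, Finset.sum_congr rfl hparts, Finset.sum_neg_distrib,
    ← integral_finsetSum _ hI2]
  have h4 : (fun h : D → ℝ => ∑ x ∈ D, w x h * pz D x (cu D b δ) h) = fun _ => 0 := funext hg
  rw [h4]
  simp

theorem div_Kg {D : Finset (ℤ × ℤ)} (β : ℤ × ℤ → ℝ) {w : ℤ × ℤ → (D → ℝ) → ℝ}
    (hw : Nice D β w) : ∫ h in K D β, ∑ x ∈ D, pz D x (w x) h = 0 := by
  obtain ⟨δ₀, hδ₀, hgr⟩ := cu_grad hw
  set G : (D → ℝ) → ℝ := fun h => ∑ x ∈ D, pz D x (w x) h with hG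
  have hGc : Continuous G :=
    continuous_finsetSum _ fun x _ => (pz_smooth (hw.sm x) x).continuous
  set d : ℕ → ℝ := fun n => min δ₀ (1 / 2) / (n + 1) with hd
  have hm : 0 < min δ₀ (1 / 2 : ℝ) := lt_min hδ₀ (by norm_num)
  have hd0 : ∀ n, 0 < d n := fun n => by positivity
  have hd1 : ∀ n, d n ≤ min δ₀ (1 / 2) := fun n =>
    div_le_self hm.le (by
      have : (0 : ℝ) ≤ n := Nat.cast_nonneg n
      linarith)
  have hz : ∀ n, ∫ h, cu D β (d n) h * G h = 0 := fun n =>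
    tbe_ibp hw (hd0 n) ((hd1 n).trans (min_le_right _ _))
      (hgr (d n) (hd0 n) ((hd1 n).trans (min_le_left _ _)))
  have hdlim : Tendsto d atTop (𝓝 0) := by
    have h1 : Tendsto (fun n : ℕ => min δ₀ (1 / 2 : ℝ) * (1 / ((n : ℝ) + 1))) atTop
        (𝓝 (min δ₀ (1 / 2 : ℝ) * 0)) :=
      tendsto_one_div_add_atTop_nhds_zero_nat.const_mul _
    rw [mul_zero] at h1
    refine h1.congr fun n => ?_
    rw [hd]
    ring
  have hKc := K_compact D β
  have hKm := K_meas D β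
  have hlim : Tendsto (fun n => ∫ h, cu D β (d n) h * G h) atTop
      (𝓝 (∫ h, (K D β).indicator G h)) := by
    refine tendsto_integral_of_dominated_convergence ((K D β).indicator fun h => |G h|) ?_ ?_ ?_ ?_
    · intro n
      exact (((cu_smooth D β (d n)).continuous.mul hGc)).aestronglyMeasurable
    · rw [integrable_indicator_iff hKm]
      exact hGc.abs.continuousOn.integrableOn_compact hKc
    · intro n
      refine Filter.Eventually.of_forall fun h => ?_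
      rw [Real.norm_eq_abs, abs_mul]
      by_cases hh : h ∈ K D β
      · rw [indicator_of_mem hh]
        have h2 := cu_mem D β (d n) h
        rw [abs_of_nonneg h2.1]
        calc cu D β (d n) h * |G h| ≤ 1 * |G h| :=
              mul_le_mul_of_nonneg_right h2.2 (abs_nonneg _)
          _ = |G h| := one_mul _
      · rw [indicator_of_notMem hh, cu_zero (hd0 n) ((hd1 n).trans (min_le_right _ _)) hh]
        simp
    · filter_upwards [bd_null D β] with h hh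
      by_cases hK : h ∈ K D β
      · rw [indicator_of_mem hK]
        have h2 : ∀ᶠ n in atTop, ∀ x ∈ D, ∀ i : Fin 6,
            |gl D β h x - gl D β h (x + st i)| ≤ 1 - d n := by
          rw [Finset.eventually_all]
          intro x hx
          rw [eventually_all]
          intro i
          have h3 := hh hK x hx i
          have h4 : ∀ᶠ n in atTop, d n < 1 - |gl D β h x - gl D β h (x + st i)| :=
            hdlim.eventually (gt_mem_nhds (by linarith))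
          filter_upwards [h4] with n hn
          linarith
        refine tendsto_const_nhds.congr' ?_
        filter_upwards [h2] with n hn
        rw [cu_one (hd0 n) ((hd1 n).trans (min_le_right _ _)) hn, one_mul]
      · rw [indicator_of_notMem hK]
        refine tendsto_const_nhds.congr fun n => ?_
        rw [cu_zero (hd0 n) ((hd1 n).trans (min_le_right _ _)) hK, zero_mul]
  simp_rw [hz] at hlim
  rw [integral_indicator hKm] at hlim
  exact (tendsto_nhds_unique hlim tendsto_const_nhds)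

/- END tbe -/

/- MODULE tbf
Orthogonality to bounded measurable functions of the other heights.  `A ⊆ D`, `w x = 0` off `A`,
`Y` does not depend on the heights in `A`: `int_fib` with `R₂ = A`, `R₁ = D \ A`; on the fibre over
`a` the function `Y` is constant and the field `k ↦ w x (jn a k)` is nice on `K A (gl R₁ b a)`
(`gl D b (jn a k) = gl A (gl R₁ b a) k`), its derivatives in the heights of `A` are those of `w`;
`div_Kg`. -/

/-- the linear part of `k ↦ jn a k` -/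
private def tbf_L (D A : Finset (ℤ × ℤ)) : (A → ℝ) →L[ℝ] (D → ℝ) :=
  ContinuousLinearMap.pi fun z : D =>
    if h : z.1 ∈ A then ContinuousLinearMap.proj (⟨z.1, h⟩ : A) else 0

private theorem tbf_L_apply (D A : Finset (ℤ × ℤ)) (k : A → ℝ) (z : D) :
    tbf_L D A k z = if h : z.1 ∈ A then k ⟨z.1, h⟩ else 0 := by
  unfold tbf_L
  rw [ContinuousLinearMap.pi_apply]
  by_cases h : z.1 ∈ A
  · rw [dif_pos h, dif_pos h]
    rfl
  · rw [dif_neg h, dif_neg h]
    rfl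

private theorem tbf_jn {D A R : Finset (ℤ × ℤ)} (a : R → ℝ) (k : A → ℝ) :
    (jn R A a k : D → ℝ) = jn R A a 0 + tbf_L D A k := by
  funext z
  rw [Pi.add_apply, tbf_L_apply]
  unfold jn gl
  by_cases h : z.1 ∈ A
  · simp only [dif_pos h, Pi.zero_apply, zero_add]
  · simp only [dif_neg h, add_zero]

private theorem tbf_fd {D A R : Finset (ℤ × ℤ)} (a : R → ℝ) (k : A → ℝ) :
    HasFDerivAt (fun k : A → ℝ => (jn R A a k : D → ℝ)) (tbf_L D A) k := by
  have h1 : (fun k : A → ℝ => (jn R A a k : D → ℝ)) = fun k => jn R A a 0 + tbf_L D A k := by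
    funext k
    exact tbf_jn a k
  rw [h1]
  exact (tbf_L D A).hasFDerivAt.const_add _

private theorem tbf_sm {D A R : Finset (ℤ × ℤ)} (a : R → ℝ) :
    ContDiff ℝ ∞ (fun k : A → ℝ => (jn R A a k : D → ℝ)) := by
  have h1 : (fun k : A → ℝ => (jn R A a k : D → ℝ)) = fun k => jn R A a 0 + tbf_L D A k := by
    funext k
    exact tbf_jn a k
  rw [h1]
  exact contDiff_const.add (tbf_L D A).contDiff

private theorem tbf_pz {D A R : Finset (ℤ × ℤ)} (hA : A ⊆ D) (a : R → ℝ) (k : A → ℝ)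
    {F : (D → ℝ) → ℝ} (hF : ContDiff ℝ ∞ F) {x : ℤ × ℤ} (hx : x ∈ A) :
    pz A x (fun k : A → ℝ => F (jn R A a k)) k = pz D x F (jn R A a k) := by
  unfold pz
  rw [dif_pos hx, dif_pos (hA hx)]
  unfold pd
  have h1 : HasFDerivAt F (fderiv ℝ F (jn R A a k)) (jn R A a k) :=
    (hF.differentiable (by simp)).differentiableAt.hasFDerivAt
  have h2 := h1.comp k (tbf_fd (D := D) a k)
  have h3 : fderiv ℝ (fun k : A → ℝ => F (jn R A a k)) k =
      (fderiv ℝ F (jn R A a k)).comp (tbf_L D A) := h2.fderiv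
  rw [h3, ContinuousLinearMap.comp_apply]
  congr 1
  funext z
  rw [tbf_L_apply]
  by_cases hz : z.1 ∈ A
  · rw [dif_pos hz]
    by_cases hzx : z.1 = x
    · have e1 : (⟨z.1, hz⟩ : A) = ⟨x, hx⟩ := Subtype.ext hzx
      have e2 : z = ⟨x, hA hx⟩ := Subtype.ext hzx
      rw [e1, Pi.single_eq_same, e2, Pi.single_eq_same]
    · have e1 : (⟨z.1, hz⟩ : A) ≠ ⟨x, hx⟩ := fun h => hzx (congrArg Subtype.val h)
      have e2 : z ≠ ⟨x, hA hx⟩ := fun h => hzx (congrArg Subtype.val h)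
      rw [Pi.single_eq_of_ne e1, Pi.single_eq_of_ne e2]
  · rw [dif_neg hz]
    have e2 : z ≠ ⟨x, hA hx⟩ := by
      intro h
      rw [h] at hz
      exact hz hx
    rw [Pi.single_eq_of_ne e2]

theorem dv_orthY {D : Finset (ℤ × ℤ)} {b : ℤ × ℤ → ℝ} (hb : ∀ z, |b z| ≤ 1 / 2)
    {w : ℤ × ℤ → (D → ℝ) → ℝ} (hw : Nice D b w) {A : Finset (ℤ × ℤ)} (hA : A ⊆ D)
    (h0 : ∀ x ∉ A, ∀ h, w x h = 0) {Y : (D → ℝ) → ℝ} (hY : Measurable Y)
    (hb' : ∃ M : ℝ, ∀ h, |Y h| ≤ M) (hd : Dep (fun x => x ∉ A) Y) :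
    ∫ h, dv D w h * Y h ∂(Mu D b) = 0 := by
  classical
  have hdis : Disjoint (D \ A) A := Finset.sdiff_disjoint
  have hun : (D \ A) ∪ A = D := Finset.sdiff_union_of_subset hA
  obtain ⟨M, hM⟩ := hb'
  have hcont : Continuous (dv D w) := by
    unfold dv
    refine (continuous_finsetSum _ fun x _ => ?_).neg
    exact (pz_smooth (hw.sm x) x).continuous
  have hint : IntegrableOn (fun h => dv D w h * Y h) (K D b) := by
    have h1 : IntegrableOn (dv D w) (K D b) :=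
      hcont.continuousOn.integrableOn_compact (K_compact D b)
    refine Integrable.mul_bdd (c := M) h1 hY.aestronglyMeasurable (ae_of_all _ fun h => ?_)
    rw [Real.norm_eq_abs]
    exact hM h
  unfold Mu
  rw [ProbabilityTheory.cond, integral_smul_measure, int_fib hdis hun b hint]
  have hin : ∀ a : (D \ A : Finset (ℤ × ℤ)) → ℝ,
      ∫ k in K A (gl (D \ A) b a), dv D w (jn (D \ A) A a k) * Y (jn (D \ A) A a k) = 0 := by
    intro a
    have hYc : ∀ k : A → ℝ, Y (jn (D \ A) A a k) = Y (jn (D \ A) A a 0) := by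
      intro k
      refine hd _ _ fun x hx => ?_
      unfold jn gl
      rw [dif_neg hx, dif_neg hx]
    have hN : Nice A (gl (D \ A) b a) (fun z (k : A → ℝ) => w z (jn (D \ A) A a k)) := by
      refine ⟨fun z => (hw.sm z).comp (tbf_sm a), fun z hz k => h0 z hz _, ?_⟩
      obtain ⟨ε, hε, ht⟩ := hw.tie
      refine ⟨ε, hε, fun z hz i k hk => ht z (hA hz) i _ ?_⟩
      rw [gl_jn hdis hun, gl_jn hdis hun]
      exact hk
    have hdv : ∀ k : A → ℝ, dv D w (jn (D \ A) A a k) =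
        - ∑ x ∈ A, pz A x ((fun z (k : A → ℝ) => w z (jn (D \ A) A a k)) x) k := by
      intro k
      unfold dv
      congr 1
      rw [← Finset.sum_subset hA]
      · refine Finset.sum_congr rfl fun x hx => ?_
        exact (tbf_pz hA a k (hw.sm x) hx).symm
      · intro x _ hx
        have h2 : w x = fun _ => 0 := funext fun h => h0 x hx h
        rw [h2]
        unfold pz pd
        rw [fderiv_fun_const]
        split_ifs
        all_goals rfl
    have h3 : (fun k : A → ℝ => dv D w (jn (D \ A) A a k) * Y (jn (D \ A) A a k)) =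
        fun k => (- Y (jn (D \ A) A a 0)) *
          ∑ x ∈ A, pz A x ((fun z (k : A → ℝ) => w z (jn (D \ A) A a k)) x) k := by
      funext k
      rw [hYc k, hdv k]
      ring
    rw [h3, integral_const_mul, div_Kg _ hN, mul_zero]
  simp only [hin, integral_zero, smul_zero]

/- END tbf -/

end Pool.Agent.Hmk
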