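import Pool.Agent.Hmk.TfB

/-!
# Hmk, trial field (3): cross terms
-/

set_option autoImplicit false

open MeasureTheory Set Filter ProbabilityTheory

open scoped ENNReal ContDiff Topology

noncomputable section

namespace Pool.Agent.Hmk

/-- the indicator of the box `y + inn (bx L) (sqrt L)` -/
def pz1 (L : ℕ) (y z : ℤ × ℤ) : ℝ := by
  classical exact if z - y ∈ inn (bx L) (Nat.sqrt L) then 1 else 0

/-- the remainder `(1 - ζ x) (rho x - ψ y)` -/
def tF (D : Finset (ℤ × ℤ)) (b : ℤ × ℤ → ℝ) (A : Finset (ℤ × ℤ)) (L : ℕ) (y : ℤ × ℤ)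
    (ψ : ℤ × ℤ → ℝ) (x : ℤ × ℤ) (h : D → ℝ) : ℝ :=
  (1 - tE D b (tr y (bx L)) (pz1 L y) x h) * (tG D b A ψ x h - ψ y)

/-- the localised field `ζ x (rho x - ψ y)` -/
def tP (D : Finset (ℤ × ℤ)) (b : ℤ × ℤ → ℝ) (A : Finset (ℤ × ℤ)) (L : ℕ) (y : ℤ × ℤ)
    (ψ : ℤ × ℤ → ℝ) (x : ℤ × ℤ) (h : D → ℝ) : ℝ :=
  tE D b (tr y (bx L)) (pz1 L y) x h * (tG D b A ψ x h - ψ y)

/-- the common hypotheses: the box at `y` lies in `A ⊆ D`, `ψ = 0` off `A`, increments of `ψ` at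
most `l` -/
structure Hb (D A : Finset (ℤ × ℤ)) (b : ℤ × ℤ → ℝ) (ψ : ℤ × ℤ → ℝ) (l : ℝ) : Prop where
  hb : ∀ z, |b z| ≤ 1 / 2
  hA : A ⊆ D
  h0 : ∀ z ∉ A, ψ z = 0
  hl : ∀ x i, |ψ x - ψ (x + st i)| ≤ l

/- MODULE tca
Clusters in larger sets are larger; Lipschitz functions along lattice paths; a cluster of `x'` in
`A` with less than `sqrt L` sites, with a site of `nb` equal to `x ∈ tr y (Bo L)`, lies together with
its neighbours in `tr y (inn (bx L) (sqrt L))` (`Cmp_dist`, `mB_lip`, `mem_inn_mB`). -/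

theorem Gx_mono {A A' : Finset (ℤ × ℤ)} (hA : A ⊆ A') (H : ℤ × ℤ → ℝ) (x : ℤ × ℤ) :
    Gx e0 A H x ⊆ Gx e0 A' H x := by
  intro z hz
  have h1 := mem_Cmp.1 hz
  refine mem_Cmp.2 ⟨hA h1.1, ?_⟩
  have key : ∀ t, Relation.ReflTransGen (eadj A (Op e0 H)) x t →
      Relation.ReflTransGen (eadj A' (Op e0 H)) x t := by
    intro t ht
    induction ht with
    | refl => exact Relation.ReflTransGen.refl
    | tail _ h3 ih => exact ih.tail ⟨hA h3.1, hA h3.2.1, h3.2.2⟩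
  exact key z h1.2

theorem lip_dn {ψ : ℤ × ℤ → ℝ} {l : ℝ} (hl : ∀ x i, |ψ x - ψ (x + st i)| ≤ l) (x z : ℤ × ℤ) :
    |ψ x - ψ z| ≤ l * dn (x - z) := by
  have key : ∀ n : ℕ, ∀ x : ℤ × ℤ, dn (x - z) = n → |ψ x - ψ z| ≤ l * n := by
    intro n
    induction n with
    | zero =>
      intro x hx
      have h1 : x - z = 0 := (dn_zero_iff _).1 (by simpa using hx)
      rw [sub_eq_zero.1 h1]
      simp
    | succ n ih =>
      intro x hx
      have h1 : x - z ≠ 0 := by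
        intro h
        rw [h, (dn_zero_iff 0).2 rfl] at hx
        push_cast at hx
        omega
      obtain ⟨i, hi⟩ := dn_pred (x - z) h1
      have h2 : x - z + st i = x + st i - z := by abel
      rw [h2, hx] at hi
      have h3 := ih (x + st i) (by rw [hi]; push_cast; ring)
      have h4 := hl x i
      calc |ψ x - ψ z| ≤ |ψ x - ψ (x + st i)| + |ψ (x + st i) - ψ z| := abs_sub_le _ _ _
        _ ≤ l + l * n := add_le_add h4 h3
        _ = l * ((n + 1 : ℕ) : ℝ) := by push_cast; ring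
  obtain ⟨n, hn⟩ := Int.eq_ofNat_of_zero_le (dn_nonneg (x - z))
  have h1 := key n x hn
  rw [hn]
  exact_mod_cast h1

theorem small_cluster {L : ℕ} {A : Finset (ℤ × ℤ)} {H : ℤ × ℤ → ℝ} {y x x' : ℤ × ℤ}
    (hx : x ∈ tr y (Bo L)) (hx' : x' ∈ A) (hn : x ∈ nb (Gx e0 A H x'))
    (hc : (Gx e0 A H x').card < Nat.sqrt L) :
    ∀ z ∈ nb (Gx e0 A H x'), z - y ∈ inn (bx L) (Nat.sqrt L) := by
  have hnear : ∀ z ∈ nb (Gx e0 A H x'), ∃ z1 ∈ Gx e0 A H x', dn (z - z1) ≤ 1 := by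
    intro z hz
    rcases mem_nb.1 hz with h | ⟨i, h⟩
    · refine ⟨z, h, ?_⟩
      rw [sub_self, (dn_zero_iff 0).2 rfl]
      norm_num
    · refine ⟨z + st i, h, ?_⟩
      have h1 : z - (z + st i) = - st i := by abel
      rw [h1, dn_neg, (dn_one_iff _).2 ⟨i, rfl⟩]
  intro z hz
  obtain ⟨z1, hz1, hzz⟩ := hnear z hz
  obtain ⟨x1, hx1, hxx⟩ := hnear x hn
  have h1 : dn (z1 - x1) + 1 ≤ (Gx e0 A H x').card := by
    have h2 : Gx e0 A H x1 = Gx e0 A H x' := Cmp_eq hx' hx1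
    have h3 : z1 ∈ Gx e0 A H x1 := by rw [h2]; exact hz1
    have h4 := Cmp_dist (Cmp_sub _ _ _ hx1) h3
    have h5 : Cmp A (Op e0 H) x1 = Gx e0 A H x' := h2
    rw [h5] at h4
    exact h4
  have h2 : dn (z - x) ≤ Nat.sqrt L := by
    have h3 : z - x = (z - z1) + ((z1 - x1) + (x1 - x)) := by abel
    have h4 := dn_add_le (z - z1) ((z1 - x1) + (x1 - x))
    have h5 := dn_add_le (z1 - x1) (x1 - x)
    have h6 : dn (x1 - x) = dn (x - x1) := by
      rw [← dn_neg, neg_sub]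
    rw [← h3] at h4
    omega
  rw [mem_inn]
  intro t ht
  have h3 := mem_tr.1 hx
  unfold Bo at h3
  rw [mem_inn] at h3
  refine h3 t ?_
  have h4 : t - (x - y) = (t - (z - y)) + (z - x) := by abel
  have h5 := dn_add_le (t - (z - y)) (z - x)
  rw [← h4] at h5
  push_cast
  omega

theorem Ny_nb {ε : ℝ} {U : Finset Ed} {A : Finset (ℤ × ℤ)} {H : ℤ × ℤ → ℝ} {x y : ℤ × ℤ}
    (h : Ny ε U A H x y) : y ∈ nb (Gx ε A H x) := by
  obtain ⟨e, -, -, h1, h2⟩ := h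
  rw [mem_nb]
  rcases h1 with h1 | h1 <;> rcases h2 with h2 | h2
  · left
    rw [← h1]
    exact h2
  · right
    refine ⟨e.2, ?_⟩
    rw [← h1]
    exact h2
  · right
    refine ⟨e.2 + 3, ?_⟩
    rw [← h1, st_opp]
    have h3 : e.1 + st e.2 + -st e.2 = e.1 := by abel
    rw [h3]
    exact h2
  · left
    rw [← h1]
    exact h2

/- END tca -/

/- MODULE tcb
The remainder has vanishing first and second derivatives in the height of `x ∈ tr y (Bo L)` unless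
`x ∈ nb (Gx x')` and the cluster has at least `sqrt L` sites; in general `rho_lip` for `rho` (increments
`l`) and for `ζ` (increments `1`), and `|rho x' - ψ y| ≤ C l card + l (card + 2 L + 1)`.  If the
cluster is small: `ζ x' = 1` (`rho_one`) and its derivatives vanish (`rho_pz_le`, `rho_pz2_le`, `Os = 0`). -/

private theorem tcb_const (S : Finset (ℤ × ℤ)) (y : ℤ × ℤ) (c : ℝ) (h : S → ℝ) :
    pz S y (fun _ => c) h = 0 := by
  unfold pz
  split_ifs with hy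
  · unfold pd
    simp
  · rfl

private theorem tcb_diff {S : Finset (ℤ × ℤ)} {f : (S → ℝ) → ℝ} (hf : ContDiff ℝ ∞ f) (h : S → ℝ) :
    DifferentiableAt ℝ f h := hf.differentiable (by norm_num) h

private theorem tcb_add {S : Finset (ℤ × ℤ)} {f g : (S → ℝ) → ℝ} (hf : ContDiff ℝ ∞ f)
    (hg : ContDiff ℝ ∞ g) (y : ℤ × ℤ) :
    pz S y (fun h => f h + g h) = fun h => pz S y f h + pz S y g h := by
  funext h
  exact pz_add (tcb_diff hf h) (tcb_diff hg h)

private theorem tcb_neg {S : Finset (ℤ × ℤ)} {f : (S → ℝ) → ℝ} (hf : ContDiff ℝ ∞ f) (y : ℤ × ℤ) :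
    pz S y (fun h => - f h) = fun h => - pz S y f h := by
  funext h
  have := pz_smul (y := y) (-1) (tcb_diff hf h)
  simpa using this

private theorem tcb_mul {S : Finset (ℤ × ℤ)} {f g : (S → ℝ) → ℝ} (hf : ContDiff ℝ ∞ f)
    (hg : ContDiff ℝ ∞ g) (y : ℤ × ℤ) :
    pz S y (fun h => f h * g h) = fun h => f h * pz S y g h + pz S y f h * g h := by
  funext h
  exact pz_mul hf hg y h

/-- derivatives of `(1 - a) (c - t)` -/
private theorem tcb_d1 {S : Finset (ℤ × ℤ)} {a c : (S → ℝ) → ℝ} (ha : ContDiff ℝ ∞ a)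
    (hc : ContDiff ℝ ∞ c) (t : ℝ) (y : ℤ × ℤ) :
    pz S y (fun h => (1 - a h) * (c h - t)) =
      fun h => (1 - a h) * pz S y c h - pz S y a h * (c h - t) := by
  have h1 : ContDiff ℝ ∞ (fun h : S → ℝ => 1 - a h) := contDiff_const.sub ha
  have h2 : ContDiff ℝ ∞ (fun h : S → ℝ => c h - t) := hc.sub contDiff_const
  rw [tcb_mul h1 h2 y]
  funext h
  have e1 : pz S y (fun h => 1 - a h) h = - pz S y a h := by
    have := congrFun (tcb_add (S := S) (f := fun _ => (1 : ℝ)) contDiff_const ha.neg y) h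
    simp only [tcb_const, tcb_neg ha y, ← sub_eq_add_neg] at this
    simpa using this
  have e2 : pz S y (fun h => c h - t) h = pz S y c h := by
    have := congrFun (tcb_add (S := S) (g := fun _ => (-t : ℝ)) hc contDiff_const y) h
    simp only [tcb_const, ← sub_eq_add_neg, add_zero] at this
    exact this
  rw [e1, e2]
  ring

private theorem tcb_d2 {S : Finset (ℤ × ℤ)} {a c : (S → ℝ) → ℝ} (ha : ContDiff ℝ ∞ a)
    (hc : ContDiff ℝ ∞ c) (t : ℝ) (y z : ℤ × ℤ) (h : S → ℝ) :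
    pz S z (pz S y (fun h => (1 - a h) * (c h - t))) h =
      (1 - a h) * pz S z (pz S y c) h - pz S z a h * pz S y c h -
        (pz S z (pz S y a) h * (c h - t) + pz S y a h * pz S z c h) := by
  rw [tcb_d1 ha hc t y]
  have h1 : ContDiff ℝ ∞ (fun h : S → ℝ => 1 - a h) := contDiff_const.sub ha
  have h2 : ContDiff ℝ ∞ (fun h : S → ℝ => c h - t) := hc.sub contDiff_const
  have hca := pz_smooth ha y
  have hcc := pz_smooth hc y
  have e0 : (fun h => (1 - a h) * pz S y c h - pz S y a h * (c h - t)) =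
      fun h => (1 - a h) * pz S y c h + -(pz S y a h * (c h - t)) := by
    funext h
    ring
  rw [e0, tcb_add (h1.mul hcc) (hca.mul h2).neg z]
  simp only
  rw [tcb_neg (hca.mul h2) z, tcb_mul h1 hcc z, tcb_mul hca h2 z]
  simp only
  have e1 : pz S z (fun h => 1 - a h) h = - pz S z a h := by
    have := congrFun (tcb_add (S := S) (f := fun _ => (1 : ℝ)) contDiff_const ha.neg z) h
    simp only [tcb_const, tcb_neg ha z, ← sub_eq_add_neg] at this
    simpa using this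
  have e2 : pz S z (fun h => c h - t) h = pz S z c h := by
    have := congrFun (tcb_add (S := S) (g := fun _ => (-t : ℝ)) hc contDiff_const z) h
    simp only [tcb_const, ← sub_eq_add_neg, add_zero] at this
    exact this
  rw [e1, e2]
  ring

private theorem tcb_e0 : (0 : ℝ) < e0 ∧ e0 ≤ 1 / 2 := by
  unfold e0
  constructor <;> norm_num

private theorem tcb_phi_mem (L : ℕ) (y z : ℤ × ℤ) : 0 ≤ pz1 L y z ∧ pz1 L y z ≤ 1 := by
  unfold pz1
  split_ifs <;> norm_num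

private theorem tcb_phi_lip (L : ℕ) (y x : ℤ × ℤ) (i : Fin 6) :
    |pz1 L y x - pz1 L y (x + st i)| ≤ 1 := by
  have h1 := tcb_phi_mem L y x
  have h2 := tcb_phi_mem L y (x + st i)
  rw [abs_le]
  constructor <;> linarith

private theorem tcb_phi_one {L : ℕ} {y z : ℤ × ℤ} (h : z - y ∈ inn (bx L) (Nat.sqrt L)) :
    pz1 L y z = 1 := by
  unfold pz1
  rw [if_pos h]

private theorem tcb_inn {L r : ℕ} {z : ℤ × ℤ} (h : z ∈ inn (bx L) r) : z ∈ bx L := by
  rw [mem_inn] at h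
  apply h z
  rw [sub_self, (dn_zero_iff 0).2 rfl]
  positivity

private theorem tcb_phi_off {L : ℕ} {y z : ℤ × ℤ} (h : z ∉ tr y (bx L)) : pz1 L y z = 0 := by
  unfold pz1
  rw [if_neg]
  intro h1
  exact h (mem_tr.2 (tcb_inn h1))

private theorem tcb_UA (L : ℕ) (y : ℤ × ℤ) :
    UA (Uo (tr y (bx L))) (tr y (bx L)) (pz1 L y) :=
  ⟨fun _ h => h, Or.inl fun _ hz => tcb_phi_off hz⟩

private theorem tcb_dn {L : ℕ} {z : ℤ × ℤ} (h : z ∈ bx L) : dn z ≤ 2 * L := by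
  unfold bx at h
  rw [Finset.mem_product, Finset.mem_Ico, Finset.mem_Ico] at h
  unfold dn
  rw [abs_of_nonneg h.1.1, abs_of_nonneg h.2.1, abs_of_nonneg (add_nonneg h.1.1 h.2.1)]
  refine max_le ?_ (max_le ?_ ?_) <;> omega

/-- in a cluster which stays deep inside the box the cut-off is constant -/
private theorem tcb_small {L : ℕ} {D A : Finset (ℤ × ℤ)} {b : ℤ × ℤ → ℝ} {y x' : ℤ × ℤ}
    (hy : tr y (bx L) ⊆ A) (hx' : x' ∈ A) {h : D → ℝ}
    (hs : ∀ z ∈ nb (Gx e0 A (gl D b h) x'), z - y ∈ inn (bx L) (Nat.sqrt L)) (z z' : ℤ × ℤ) :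
    x' ∈ tr y (bx L) ∧ tE D b (tr y (bx L)) (pz1 L y) x' h = 1 ∧
      pz D z (tE D b (tr y (bx L)) (pz1 L y) x') h = 0 ∧
      pz D z (pz D z' (tE D b (tr y (bx L)) (pz1 L y) x')) h = 0 := by
  obtain ⟨he0, he1⟩ := tcb_e0
  have hsub : Gx e0 (tr y (bx L)) (gl D b h) x' ⊆ Gx e0 A (gl D b h) x' :=
    Gx_mono hy _ _
  have hnb : ∀ u ∈ Gx e0 (tr y (bx L)) (gl D b h) x', u ∈ nb (Gx e0 A (gl D b h) x') :=
    fun u hu => mem_nb.2 (Or.inl (hsub hu))
  have hnb' : ∀ u ∈ Gx e0 (tr y (bx L)) (gl D b h) x', ∀ i,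
      u + st i ∈ nb (Gx e0 A (gl D b h) x') := by
    intro u hu i
    refine mem_nb.2 (Or.inr ⟨i + 3, ?_⟩)
    have : u + st i + st (i + 3) = u := by
      rw [st_opp]
      abel
    rw [this]
    exact hsub hu
  have hxB : x' ∈ tr y (bx L) := by
    refine mem_tr.2 (tcb_inn (hs x' (mem_nb.2 (Or.inl ?_))))
    exact Cmp_self _ hx'
  have hOs : Os (tr y (bx L)) (Op e0 (gl D b h)) (pz1 L y) x' = 0 := by
    unfold Os
    refine Finset.sum_eq_zero fun u hu => Finset.sum_eq_zero fun i _ => ?_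
    rw [tcb_phi_one (hs u (hnb u hu)), tcb_phi_one (hs _ (hnb' u hu i)), sub_self, abs_zero]
  obtain ⟨C, _, hC⟩ := qs_bound he0 he1
  refine ⟨hxB, ?_, ?_, ?_⟩
  · unfold tE
    refine rho_one he0 he1 (Mmn_mean _) _ hxB ?_ ?_
    · intro u hu
      exact tcb_phi_one (hs u (hnb u hu))
    · intro u hu i _ _
      exact mem_tr.2 (tcb_inn (hs _ (hnb' u hu i)))
  · have h1 := rho_pz_le he0 he1 (fun z => (hC z).1) (Mmn_mean (pz1 L y)) (tcb_UA L y) D b z h hxB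
    rw [hOs, mul_zero] at h1
    exact abs_nonpos_iff.1 h1
  · have h1 := rho_pz2_le he0 he1 hC (Mmn_mean (pz1 L y)) (tcb_UA L y) D b z' z h hxB
    rw [hOs, mul_zero] at h1
    exact abs_nonpos_iff.1 h1

open scoped Classical in
theorem far_bound : ∃ C : ℝ, 1 ≤ C ∧ ∀ (L : ℕ), 1 ≤ L → ∀ (D A : Finset (ℤ × ℤ))
    (b ψ : ℤ × ℤ → ℝ) (l : ℝ), Hb D A b ψ l → ∀ y : ℤ × ℤ, tr y (bx L) ⊆ A →
    ∀ x ∈ tr y (Bo L), ∀ x' ∈ A, ∀ h : D → ℝ,
    |pz D x (tF D b A L y ψ x') h| ≤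
      (if Nat.sqrt L ≤ (Gx e0 A (gl D b h) x').card ∧ x ∈ nb (Gx e0 A (gl D b h) x') then
        C * l * L * ((Gx e0 A (gl D b h) x').card : ℝ) ^ 3 else 0) ∧
    |pz D x (pz D x' (tF D b A L y ψ x')) h| ≤
      (if Nat.sqrt L ≤ (Gx e0 A (gl D b h) x').card ∧ x ∈ nb (Gx e0 A (gl D b h) x') then
        C * l * L * ((Gx e0 A (gl D b h) x').card : ℝ) ^ 3 else 0) := by
  obtain ⟨C, hC1, hC⟩ := rho_lip
  obtain ⟨he0, he1⟩ := tcb_e0
  refine ⟨C * (C + 2) + 2 * C ^ 2 + C, by nlinarith, ?_⟩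
  intro L hL D A b ψ l Hh y hy x hx x' hx' h
  have hl0 : 0 ≤ l := le_trans (abs_nonneg _) (Hh.hl 0 0)
  have hLr : (1 : ℝ) ≤ L := by exact_mod_cast hL
  set H := gl D b h with hH
  set g : ℝ := ((Gx e0 A H x').card : ℝ) with hg
  have hxG : x' ∈ Gx e0 A H x' := Cmp_self _ hx'
  have hg1 : 1 ≤ g := by
    have : 1 ≤ (Gx e0 A H x').card := Finset.card_pos.2 ⟨x', hxG⟩
    rw [hg]
    exact_mod_cast this
  -- the two functions
  have hUAr : UA (Uo A) A ψ := ⟨fun _ h => h, Or.inl Hh.h0⟩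
  have hζs : ContDiff ℝ ∞ (tE D b (tr y (bx L)) (pz1 L y) x') := tE_smooth _ _ _ _ _
  have hρs : ContDiff ℝ ∞ (tG D b A ψ x') := tG_smooth _ _ _ _ _
  have hF1 : ∀ z, pz D z (tF D b A L y ψ x') h =
      (1 - tE D b (tr y (bx L)) (pz1 L y) x' h) * pz D z (tG D b A ψ x') h -
        pz D z (tE D b (tr y (bx L)) (pz1 L y) x') h * (tG D b A ψ x' h - ψ y) := by
    intro z
    exact congrFun (tcb_d1 hζs hρs (ψ y) z) h
  have hF2 : ∀ z z', pz D z (pz D z' (tF D b A L y ψ x')) h =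
      (1 - tE D b (tr y (bx L)) (pz1 L y) x' h) * pz D z (pz D z' (tG D b A ψ x')) h -
        pz D z (tE D b (tr y (bx L)) (pz1 L y) x') h * pz D z' (tG D b A ψ x') h -
        (pz D z (pz D z' (tE D b (tr y (bx L)) (pz1 L y) x')) h * (tG D b A ψ x' h - ψ y) +
          pz D z' (tE D b (tr y (bx L)) (pz1 L y) x') h * pz D z (tG D b A ψ x') h) := by
    intro z z'
    exact tcb_d2 hζs hρs (ψ y) z' z h
  -- bounds for the derivatives of `rho`
  obtain ⟨hr0, hr1, hr2, _⟩ := hC (Uo A) A (Mav ψ) ψ (Mav_mean ψ) hUAr l Hh.hl D b h x' hx'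
  change |tG D b A ψ x' h - ψ x'| ≤ C * l * g at hr0
  change ∀ z, |pz D z (tG D b A ψ x') h| ≤ C * l * g at hr1
  change ∀ z' z, |pz D z (pz D z' (tG D b A ψ x')) h| ≤ C * l * g at hr2
  by_cases hxn : x ∈ nb (Gx e0 A H x')
  swap
  · -- `x` is not near the cluster
    rw [if_neg (fun h => hxn h.2)]
    have hN : ¬ Ny e0 (Uo A) A H x' x := fun h => hxn (Ny_nb h)
    have a1 : pz D x (tG D b A ψ x') h = 0 := rho_pz_zero he0 he1 _ _ _ D b h hN
    have a2 : pz D x (pz D x' (tG D b A ψ x')) h = 0 :=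
      rho_pz2_zero he0 he1 _ _ _ D b h (Or.inr hN)
    have hN' : ¬ Ny e0 (Uo (tr y (bx L))) (tr y (bx L)) H x' x := by
      intro h1
      apply hxn
      have h2 := Ny_nb h1
      rw [mem_nb] at h2 ⊢
      rcases h2 with h2 | ⟨i, h2⟩
      · exact Or.inl (Gx_mono hy _ _ h2)
      · exact Or.inr ⟨i, Gx_mono hy _ _ h2⟩
    have a3 : pz D x (tE D b (tr y (bx L)) (pz1 L y) x') h = 0 :=
      rho_pz_zero he0 he1 _ _ _ D b h hN'
    have a4 : pz D x (pz D x' (tE D b (tr y (bx L)) (pz1 L y) x')) h = 0 :=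
      rho_pz2_zero he0 he1 _ _ _ D b h (Or.inr hN')
    rw [hF1, hF2, a1, a2, a3, a4]
    simp
  by_cases hbig : Nat.sqrt L ≤ (Gx e0 A H x').card
  swap
  · -- small cluster
    rw [if_neg (fun h => hbig h.1)]
    have hs := small_cluster hx hx' hxn (not_le.1 hbig)
    obtain ⟨_, b1, b2, b4⟩ := tcb_small hy hx' hs x x'
    obtain ⟨_, _, b3, _⟩ := tcb_small hy hx' hs x' x'
    rw [hF1, hF2, b1, b2, b3, b4]
    simp
  rw [if_pos ⟨hbig, hxn⟩]
  have hEm := tE_mem (D := D) (b := b) (B := tr y (bx L)) (tcb_phi_mem L y) x' h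
  have hE1 : |1 - tE D b (tr y (bx L)) (pz1 L y) x' h| ≤ 1 := by
    rw [abs_le]
    constructor <;> linarith [hEm.1, hEm.2.1]
  have hlg : 0 ≤ l * g := mul_nonneg hl0 (by linarith)
  have hlL : l * g ≤ l * L * g ^ 3 := by
    have h1 : (1 : ℝ) ≤ L * g ^ 2 := by nlinarith
    calc l * g = l * g * 1 := by ring
      _ ≤ l * g * (L * g ^ 2) := mul_le_mul_of_nonneg_left h1 hlg
      _ = l * L * g ^ 3 := by ring
  have hlg2 : l * g ^ 2 ≤ l * L * g ^ 3 := by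
    have h1 : (1 : ℝ) ≤ L * g := by nlinarith
    calc l * g ^ 2 = l * g ^ 2 * 1 := by ring
      _ ≤ l * g ^ 2 * (L * g) := mul_le_mul_of_nonneg_left h1 (by positivity)
      _ = l * L * g ^ 3 := by ring
  by_cases hxB : x' ∈ tr y (bx L)
  · obtain ⟨_, hz1, hz2, _⟩ := hC (Uo (tr y (bx L))) (tr y (bx L)) (Mmn (pz1 L y)) (pz1 L y)
      (Mmn_mean _) (tcb_UA L y) 1 (tcb_phi_lip L y) D b h x' hxB
    change ∀ z, |pz D z (tE D b (tr y (bx L)) (pz1 L y) x') h| ≤ _ at hz1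
    change ∀ z' z, |pz D z (pz D z' (tE D b (tr y (bx L)) (pz1 L y) x')) h| ≤ _ at hz2
    have hcard : ((Gx e0 (tr y (bx L)) (gl D b h) x').card : ℝ) ≤ g := by
      rw [hg]
      exact_mod_cast Finset.card_le_card (Gx_mono hy _ _)
    have hz1' : ∀ z, |pz D z (tE D b (tr y (bx L)) (pz1 L y) x') h| ≤ C * g := by
      intro z
      refine (hz1 z).trans ?_
      rw [mul_one]
      exact mul_le_mul_of_nonneg_left hcard (by linarith)
    have hz2' : ∀ z' z, |pz D z (pz D z' (tE D b (tr y (bx L)) (pz1 L y) x')) h| ≤ C * g := by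
      intro z' z
      refine (hz2 z' z).trans ?_
      rw [mul_one]
      exact mul_le_mul_of_nonneg_left hcard (by linarith)
    have hdist : |ψ x' - ψ y| ≤ l * (2 * L) := by
      refine (lip_dn Hh.hl x' y).trans (mul_le_mul_of_nonneg_left ?_ hl0)
      exact_mod_cast tcb_dn (mem_tr.1 hxB)
    have hrho : |tG D b A ψ x' h - ψ y| ≤ (C + 2) * l * L * g := by
      have h1 : |tG D b A ψ x' h - ψ y| ≤ C * l * g + l * (2 * L) := by
        have e : tG D b A ψ x' h - ψ y = (tG D b A ψ x' h - ψ x') + (ψ x' - ψ y) := by ring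
        rw [e]
        exact (abs_add_le _ _).trans (add_le_add hr0 hdist)
      refine h1.trans ?_
      have h2 : C * l * g ≤ C * l * g * L := by
        have : 0 ≤ C * l * g := by positivity
        nlinarith
      have h3 : l * (2 * L) ≤ l * (2 * L) * g := by
        have : 0 ≤ l * (2 * (L : ℝ)) := by positivity
        nlinarith
      calc C * l * g + l * (2 * L) ≤ C * l * g * L + l * (2 * L) * g := add_le_add h2 h3
        _ = (C + 2) * l * L * g := by ring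
    have t1 : ∀ u v M N : ℝ, |u| ≤ M → |v| ≤ N → |u * v| ≤ M * N := by
      intro u v M N hu hv
      rw [abs_mul]
      exact mul_le_mul hu hv (abs_nonneg _) ((abs_nonneg _).trans hu)
    have hCpos : (0 : ℝ) ≤ C := by linarith
    have hX : 0 ≤ l * L * g ^ 3 := by positivity
    have q1 : C * l * g ≤ C * (l * L * g ^ 3) := by
      have := mul_le_mul_of_nonneg_left hlL hCpos
      linarith
    have q2 : C * g * ((C + 2) * l * L * g) ≤ C * (C + 2) * (l * L * g ^ 3) := by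
      have h1 : g ^ 2 ≤ g ^ 3 := pow_le_pow_right₀ hg1 (by norm_num)
      have h2 : 0 ≤ C * (C + 2) * (l * L) := by positivity
      have h3 := mul_le_mul_of_nonneg_left h1 h2
      linarith
    have q3 : C * g * (C * l * g) ≤ C ^ 2 * (l * L * g ^ 3) := by
      have h3 := mul_le_mul_of_nonneg_left hlg2 (by positivity : (0 : ℝ) ≤ C ^ 2)
      linarith
    constructor
    · rw [hF1]
      refine (abs_sub _ _).trans ?_
      have p1 := t1 _ _ _ _ hE1 (hr1 x)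
      have p2 := t1 _ _ _ _ (hz1' x) hrho
      have hC2 : 0 ≤ 2 * C ^ 2 * (l * L * g ^ 3) := by positivity
      calc _ ≤ 1 * (C * l * g) + C * g * ((C + 2) * l * L * g) := add_le_add p1 p2
        _ ≤ (C * (C + 2) + 2 * C ^ 2 + C) * l * L * g ^ 3 := by linarith
    · rw [hF2]
      have p1 := t1 _ _ _ _ hE1 (hr2 x' x)
      have p2 := t1 _ _ _ _ (hz1' x) (hr1 x')
      have p3 := t1 _ _ _ _ (hz2' x' x) hrho
      have p4 := t1 _ _ _ _ (hz1' x') (hr1 x)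
      refine (abs_sub _ _).trans ?_
      refine (add_le_add ((abs_sub _ _).trans (add_le_add p1 p2))
        ((abs_add_le _ _).trans (add_le_add p3 p4))).trans ?_
      linarith
  · -- `x'` outside of the box: the cut-off vanishes identically
    have hz : tE D b (tr y (bx L)) (pz1 L y) x' = fun _ => 0 :=
      funext fun k => rho_out _ _ _ hxB _
    have a3 : ∀ z, pz D z (tE D b (tr y (bx L)) (pz1 L y) x') h = 0 := by
      intro z
      rw [hz]
      exact tcb_const _ _ _ _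
    have a4 : pz D x (pz D x' (tE D b (tr y (bx L)) (pz1 L y) x')) h = 0 := by
      have : pz D x' (tE D b (tr y (bx L)) (pz1 L y) x') = fun _ => 0 := by
        rw [hz]
        funext k
        exact tcb_const _ _ _ _
      rw [this]
      exact tcb_const _ _ _ _
    have hCpos : (0 : ℝ) ≤ C := by linarith
    have hX : 0 ≤ l * L * g ^ 3 := by positivity
    have q1 : C * l * g ≤ C * (l * L * g ^ 3) := by
      have := mul_le_mul_of_nonneg_left hlL hCpos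
      linarith
    have hC2 : 0 ≤ (C * (C + 2) + 2 * C ^ 2) * (l * L * g ^ 3) := by positivity
    have hE0 : tE D b (tr y (bx L)) (pz1 L y) x' h = 0 := congrFun hz h
    constructor
    · rw [hF1, a3, hE0]
      have := hr1 x
      simp only [sub_zero, one_mul, zero_mul]
      linarith
    · rw [hF2, a3, a3, a4, hE0]
      have := hr2 x' x
      simp only [sub_zero, one_mul, zero_mul, add_zero]
      linarith

/- END tcb -/

/- MODULE tcc
Double counting: `x ∈ nb (Gx x')` gives `x'' ∈ Gx x'` with `x'' = x` or adjacent to `x`, then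
`x' ∈ Gx x''` and the clusters agree.  Then `G_tail`. -/

open scoped Classical in
theorem far_count {A : Finset (ℤ × ℤ)} {H : ℤ × ℤ → ℝ} (x : ℤ × ℤ) {f : ℕ → ℝ}
    (hf : ∀ n, 0 ≤ f n) :
    ∑ x' ∈ A, (if x ∈ nb (Gx e0 A H x') then f (Gx e0 A H x').card else 0) ≤
      ∑ x'' ∈ A.filter (fun z => z ∈ nb {x}), ((Gx e0 A H x'').card : ℝ) * f (Gx e0 A H x'').card := by
  have h1 : ∀ x' ∈ A, (if x ∈ nb (Gx e0 A H x') then f (Gx e0 A H x').card else 0) ≤
      ∑ z ∈ A.filter (fun z => z ∈ nb {x}),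
        (if z ∈ Gx e0 A H x' then f (Gx e0 A H x').card else 0) := by
    intro x' hx'
    have hnn : ∀ z ∈ A.filter (fun z => z ∈ nb {x}),
        0 ≤ (if z ∈ Gx e0 A H x' then f (Gx e0 A H x').card else 0) := by
      intro z _
      split_ifs
      · exact hf _
      · exact le_rfl
    split_ifs with hx
    · obtain ⟨z, hz, hzx⟩ : ∃ z ∈ Gx e0 A H x', z ∈ nb {x} := by
        rcases mem_nb.1 hx with h | ⟨i, h⟩
        · exact ⟨x, h, mem_nb.2 (Or.inl (Finset.mem_singleton_self _))⟩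
        · refine ⟨x + st i, h, mem_nb.2 (Or.inr ⟨i + 3, ?_⟩)⟩
          rw [st_opp, Finset.mem_singleton]
          abel
      have h2 := Finset.single_le_sum hnn (Finset.mem_filter.2 ⟨Cmp_sub _ _ _ hz, hzx⟩)
      rw [if_pos hz] at h2
      exact h2
    · exact Finset.sum_nonneg hnn
  refine (Finset.sum_le_sum h1).trans (le_of_eq ?_)
  rw [Finset.sum_comm]
  refine Finset.sum_congr rfl fun z hz => ?_
  have hzA : z ∈ A := (Finset.mem_filter.1 hz).1
  have h2 : ∀ x' ∈ A, (if z ∈ Gx e0 A H x' then f (Gx e0 A H x').card else 0) =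
      (if x' ∈ Gx e0 A H z then f (Gx e0 A H z).card else 0) := by
    intro x' hx'
    by_cases h : z ∈ Gx e0 A H x'
    · have h3 : x' ∈ Gx e0 A H z := Cmp_symm hx' h
      have h4 : Gx e0 A H z = Gx e0 A H x' := Cmp_eq hx' h
      rw [if_pos h, if_pos h3, h4]
    · rw [if_neg h, if_neg]
      intro h3
      exact h (Cmp_symm hzA h3)
  rw [Finset.sum_congr rfl h2, ← Finset.sum_filter, Finset.sum_const, nsmul_eq_mul]
  congr 2
  have h5 : A.filter (fun x' => x' ∈ Gx e0 A H z) = Gx e0 A H z := by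
    ext t
    rw [Finset.mem_filter]
    exact ⟨fun h => h.2, fun h => ⟨Cmp_sub _ _ _ h, h⟩⟩
  rw [h5]

open scoped Classical in
private theorem tcc_pt {A : Finset (ℤ × ℤ)} {H : ℤ × ℤ → ℝ} (X : Finset (ℤ × ℤ)) (m p : ℕ)
    {c : ℝ} (hc : 0 ≤ c) (φ : ℤ × ℤ → ℤ × ℤ → ℝ)
    (hφ : ∀ x ∈ X, ∀ x' ∈ A, φ x x' ≤
      if m ≤ (Gx e0 A H x').card ∧ x ∈ nb (Gx e0 A H x') then
        c * ((Gx e0 A H x').card : ℝ) ^ p else 0) :
    ∑ x ∈ X, ∑ x' ∈ A, φ x x' ≤ ∑ x ∈ X, ∑ z ∈ A.filter (fun z => z ∈ nb {x}),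
      c * (if (m : ℝ) ≤ ((Gx e0 A H z).card : ℝ) then ((Gx e0 A H z).card : ℝ) ^ (p + 1)
        else 0) := by
  refine Finset.sum_le_sum fun x hx => ?_
  have h1 := far_count (A := A) (H := H) x
    (f := fun n => if m ≤ n then c * (n : ℝ) ^ p else 0) (fun n => by
      split_ifs
      · positivity
      · exact le_rfl)
  have h2 : ∑ x' ∈ A, φ x x' ≤ ∑ x' ∈ A, (if x ∈ nb (Gx e0 A H x') then
      (if m ≤ (Gx e0 A H x').card then c * ((Gx e0 A H x').card : ℝ) ^ p else 0) else 0) := by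
    refine Finset.sum_le_sum fun x' hx' => (hφ x hx x' hx').trans (le_of_eq ?_)
    by_cases h3 : x ∈ nb (Gx e0 A H x')
    · by_cases h4 : m ≤ (Gx e0 A H x').card
      · rw [if_pos ⟨h4, h3⟩, if_pos h3, if_pos h4]
      · rw [if_neg (fun h => h4 h.1), if_pos h3, if_neg h4]
    · rw [if_neg (fun h => h3 h.2), if_neg h3]
  refine (h2.trans h1).trans (le_of_eq ?_)
  refine Finset.sum_congr rfl fun z _ => ?_
  by_cases h4 : m ≤ (Gx e0 A H z).card
  · have h5 : (m : ℝ) ≤ ((Gx e0 A H z).card : ℝ) := by exact_mod_cast h4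
    rw [if_pos h4, if_pos h5, pow_succ]
    ring
  · have h5 : ¬ (m : ℝ) ≤ ((Gx e0 A H z).card : ℝ) := by
      intro h
      exact h4 (by exact_mod_cast h)
    rw [if_neg h4, if_neg h5, mul_zero, mul_zero]

private theorem tcc_int {D A X : Finset (ℤ × ℤ)} {b : ℤ × ℤ → ℝ} {F : (D → ℝ) → ℝ}
    {T : ℤ × ℤ → (D → ℝ) → ℝ} {c τ : ℝ} (hc : 0 ≤ c) (hτ : 0 ≤ τ)
    (hT : ∀ z ∈ A, Integrable (T z) (Mu D b) ∧ ∫ h, T z h ∂(Mu D b) ≤ τ) (hF0 : ∀ h, 0 ≤ F h)
    (hF : ∀ h, F h ≤ ∑ x ∈ X, ∑ z ∈ A.filter (fun z => z ∈ nb {x}), c * T z h) :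
    ∫ h, F h ∂(Mu D b) ≤ X.card * (7 * (c * τ)) := by
  have i1 : ∀ x ∈ X, ∀ z ∈ A.filter (fun z => z ∈ nb {x}),
      Integrable (fun h => c * T z h) (Mu D b) := fun x _ z hz =>
    (hT z (Finset.mem_filter.1 hz).1).1.const_mul c
  have i2 : ∀ x ∈ X, Integrable (fun h => ∑ z ∈ A.filter (fun z => z ∈ nb {x}), c * T z h)
      (Mu D b) := fun x hx => integrable_finsetSum _ (i1 x hx)
  have h1 : ∫ h, F h ∂(Mu D b) ≤
      ∫ h, ∑ x ∈ X, ∑ z ∈ A.filter (fun z => z ∈ nb {x}), c * T z h ∂(Mu D b) :=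
    integral_mono_of_nonneg (Filter.Eventually.of_forall hF0) (integrable_finsetSum _ i2)
      (Filter.Eventually.of_forall hF)
  refine h1.trans ?_
  rw [integral_finsetSum _ i2]
  have h2 : ∀ x ∈ X, ∫ h, ∑ z ∈ A.filter (fun z => z ∈ nb {x}), c * T z h ∂(Mu D b) ≤
      7 * (c * τ) := by
    intro x hx
    rw [integral_finsetSum _ (i1 x hx)]
    have h3 : ∀ z ∈ A.filter (fun z => z ∈ nb {x}), ∫ h, c * T z h ∂(Mu D b) ≤ c * τ := by
      intro z hz
      rw [integral_const_mul]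
      exact mul_le_mul_of_nonneg_left (hT z (Finset.mem_filter.1 hz).1).2 hc
    refine (Finset.sum_le_sum h3).trans ?_
    rw [Finset.sum_const, nsmul_eq_mul]
    refine mul_le_mul_of_nonneg_right ?_ (mul_nonneg hc hτ)
    have h4 : (A.filter (fun z => z ∈ nb {x})).card ≤ 7 := by
      refine (Finset.card_le_card (fun z hz => (Finset.mem_filter.1 hz).2 :
        A.filter (fun z => z ∈ nb {x}) ⊆ nb {x})).trans ?_
      unfold nb
      refine (Finset.card_union_le _ _).trans ?_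
      rw [Finset.card_singleton, Finset.singleton_biUnion]
      have h5 : (Finset.univ.image (fun i : Fin 6 => x + st i)).card ≤ 6 :=
        Finset.card_image_le.trans (by simp)
      omega
    exact_mod_cast h4
  refine (Finset.sum_le_sum h2).trans (le_of_eq ?_)
  rw [Finset.sum_const, nsmul_eq_mul]

private theorem tcc_card (L : ℕ) (y : ℤ × ℤ) : ((tr y (Bo L)).card : ℝ) ≤ (L : ℝ) ^ 2 := by
  have h1 : (tr y (Bo L)).card ≤ (bx L).card := by
    unfold tr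
    refine Finset.card_image_le.trans (Finset.card_le_card fun z hz => ?_)
    unfold Bo at hz
    rw [mem_inn] at hz
    refine hz z ?_
    rw [sub_self, (dn_zero_iff 0).2 rfl]
    positivity
  have h2 : (bx L).card = L * L := by
    unfold bx
    rw [Finset.card_product, Int.card_Ico]
    simp
  rw [h2] at h1
  have h3 : ((tr y (Bo L)).card : ℝ) ≤ (L : ℝ) * L := by exact_mod_cast h1
  rw [sq]
  exact h3

private theorem tcc_sqrt {L : ℕ} (hL : 1 ≤ L) : (1 : ℝ) ≤ (Nat.sqrt L : ℝ) ∧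
    (L : ℝ) ≤ 4 * (Nat.sqrt L : ℝ) ^ 2 := by
  have h1 : 1 ≤ Nat.sqrt L := by
    rw [Nat.le_sqrt]
    omega
  have h2 : L < (Nat.sqrt L + 1) * (Nat.sqrt L + 1) := Nat.lt_succ_sqrt L
  have h3 : (1 : ℝ) ≤ (Nat.sqrt L : ℝ) := by exact_mod_cast h1
  refine ⟨h3, ?_⟩
  have h4 : (L : ℝ) ≤ ((Nat.sqrt L : ℝ) + 1) * ((Nat.sqrt L : ℝ) + 1) := by exact_mod_cast h2.le
  nlinarith

theorem far_mean : ∃ C : ℝ, 1 ≤ C ∧ ∀ (L : ℕ), 1 ≤ L → ∀ (D A : Finset (ℤ × ℤ))
    (b ψ : ℤ × ℤ → ℝ) (l : ℝ), Hb D A b ψ l → ∀ y : ℤ × ℤ, tr y (bx L) ⊆ A →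
    ∫ h, ∑ x ∈ tr y (Bo L), ∑ x' ∈ A, |pz D x (pz D x' (tF D b A L y ψ x')) h| ∂(Mu D b) ≤ C * l ∧
    ∫ h, ∑ x ∈ tr y (Bo L), ∑ x' ∈ A, (pz D x (tF D b A L y ψ x') h) ^ 2 ∂(Mu D b) ≤
      C * l ^ 2 := by
  obtain ⟨C1, hC1, hfb⟩ := far_bound
  obtain ⟨C2, hC2, ht4⟩ := G_tail 4 6
  obtain ⟨C3, hC3, ht7⟩ := G_tail 7 8
  refine ⟨448 * (C1 * C2) + 1792 * (C1 ^ 2 * C3), ?_, ?_⟩
  · have h1 : 1 ≤ C1 * C2 := one_le_mul_of_one_le_of_one_le hC1 hC2
    have h2 : 0 ≤ C1 ^ 2 * C3 := by positivity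
    linarith
  intro L hL D A b ψ l H y hy
  have hl0 : 0 ≤ l := (abs_nonneg _).trans (H.hl 0 0)
  obtain ⟨hs1, hs2⟩ := tcc_sqrt hL
  have hC10 : 0 ≤ C1 := by linarith
  have hC20 : 0 ≤ C2 := by linarith
  have hC30 : 0 ≤ C3 := by linarith
  obtain ⟨s, hs⟩ : ∃ s : ℝ, s = (Nat.sqrt L : ℝ) := ⟨_, rfl⟩
  rw [← hs] at hs1 hs2
  have hs0 : 0 < s := by linarith
  have hL0 : (0 : ℝ) ≤ L := Nat.cast_nonneg _
  have hcard := tcc_card L y
  constructor
  · have hc : 0 ≤ C1 * l * L := by positivity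
    have h1 := tcc_int (b := b) (X := tr y (Bo L)) (A := A) (c := C1 * l * L) (τ := C2 / s ^ 6)
      (F := fun h => ∑ x ∈ tr y (Bo L), ∑ x' ∈ A, |pz D x (pz D x' (tF D b A L y ψ x')) h|)
      hc (by positivity) (fun z hz => ht4 D A H.hA b H.hb z hz s hs0)
      (fun h => Finset.sum_nonneg fun _ _ => Finset.sum_nonneg fun _ _ => abs_nonneg _)
      (fun h => by
        have h2 := tcc_pt (A := A) (H := gl D b h) (tr y (Bo L)) (Nat.sqrt L) 3 hc
          (fun x x' => |pz D x (pz D x' (tF D b A L y ψ x')) h|)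
          (fun x hx x' hx' => (hfb L hL D A b ψ l H y hy x hx x' hx' h).2)
        rw [← hs] at h2
        exact h2)
    refine h1.trans ?_
    calc ((tr y (Bo L)).card : ℝ) * (7 * (C1 * l * L * (C2 / s ^ 6)))
        ≤ (L : ℝ) ^ 2 * (7 * (C1 * l * L * (C2 / s ^ 6))) :=
          mul_le_mul_of_nonneg_right hcard (by positivity)
      _ = 7 * C1 * C2 * l * ((L : ℝ) ^ 3 / s ^ 6) := by ring
      _ ≤ 7 * C1 * C2 * l * 64 := by
          refine mul_le_mul_of_nonneg_left ?_ (by positivity)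
          rw [div_le_iff₀ (by positivity)]
          calc (L : ℝ) ^ 3 ≤ (4 * s ^ 2) ^ 3 := pow_le_pow_left₀ hL0 hs2 3
            _ = 64 * s ^ 6 := by ring
      _ ≤ (448 * (C1 * C2) + 1792 * (C1 ^ 2 * C3)) * l := by
          have h3 : 0 ≤ C1 ^ 2 * C3 * l := by positivity
          nlinarith
  · have hc : 0 ≤ (C1 * l * L) ^ 2 := by positivity
    have h1 := tcc_int (b := b) (X := tr y (Bo L)) (A := A) (c := (C1 * l * L) ^ 2)
      (τ := C3 / s ^ 8)
      (F := fun h => ∑ x ∈ tr y (Bo L), ∑ x' ∈ A, (pz D x (tF D b A L y ψ x') h) ^ 2)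
      hc (by positivity) (fun z hz => ht7 D A H.hA b H.hb z hz s hs0)
      (fun h => Finset.sum_nonneg fun _ _ => Finset.sum_nonneg fun _ _ => sq_nonneg _)
      (fun h => by
        have h2 := tcc_pt (A := A) (H := gl D b h) (tr y (Bo L)) (Nat.sqrt L) 6 hc
          (fun x x' => (pz D x (tF D b A L y ψ x') h) ^ 2)
          (fun x hx x' hx' => by
            have h3 := (hfb L hL D A b ψ l H y hy x hx x' hx' h).1
            have h4 := pow_le_pow_left₀ (abs_nonneg _) h3 2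
            rw [sq_abs] at h4
            refine h4.trans (le_of_eq ?_)
            split_ifs with h5
            · ring
            · norm_num)
        rw [← hs] at h2
        exact h2)
    refine h1.trans ?_
    calc ((tr y (Bo L)).card : ℝ) * (7 * ((C1 * l * L) ^ 2 * (C3 / s ^ 8)))
        ≤ (L : ℝ) ^ 2 * (7 * ((C1 * l * L) ^ 2 * (C3 / s ^ 8))) :=
          mul_le_mul_of_nonneg_right hcard (by positivity)
      _ = 7 * C1 ^ 2 * C3 * l ^ 2 * ((L : ℝ) ^ 4 / s ^ 8) := by ring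
      _ ≤ 7 * C1 ^ 2 * C3 * l ^ 2 * 256 := by
          refine mul_le_mul_of_nonneg_left ?_ (by positivity)
          rw [div_le_iff₀ (by positivity)]
          calc (L : ℝ) ^ 4 ≤ (4 * s ^ 2) ^ 4 := pow_le_pow_left₀ hL0 hs2 4
            _ = 256 * s ^ 8 := by ring
      _ ≤ (448 * (C1 * C2) + 1792 * (C1 ^ 2 * C3)) * l ^ 2 := by
          have h3 : 0 ≤ C1 * C2 * l ^ 2 := by positivity
          nlinarith

/- END tcc -/

/- MODULE tcd
`tP` is nice (`tE` and `tG` are tied, `tE = 0` off the box), `tG - ψ y = tP + tF`. -/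

private theorem tcd_e0 : (0 : ℝ) < e0 ∧ e0 ≤ 1 / 2 := by
  unfold e0
  refine ⟨by positivity, ?_⟩
  exact one_div_le_one_div_of_le (by norm_num) (by norm_num)

private theorem tcd_G {D A : Finset (ℤ × ℤ)} {b ψ : ℤ × ℤ → ℝ} {l : ℝ} (H : Hb D A b ψ l) :
    Nice D b (tG D b A ψ) :=
  rho_nice tcd_e0.1 tcd_e0.2 H.hA b _

theorem tP_nice {D A : Finset (ℤ × ℤ)} {b ψ : ℤ × ℤ → ℝ} {l : ℝ} (H : Hb D A b ψ l) {L : ℕ}
    {y : ℤ × ℤ} (hy : tr y (bx L) ⊆ A) : Nice D b (tP D b A L y ψ) := by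
  have hE : Nice D b (tE D b (tr y (bx L)) (pz1 L y)) :=
    rho_nice tcd_e0.1 tcd_e0.2 (hy.trans H.hA) b _
  have hG := tcd_G H
  refine ⟨fun z => (hE.sm z).mul ((hG.sm z).sub contDiff_const), fun z hz h => ?_, ?_⟩
  · unfold tP
    rw [hE.off z hz h, zero_mul]
  · obtain ⟨ε, hε, h1⟩ := hE.tie
    obtain ⟨ε', hε', h2⟩ := hG.tie
    refine ⟨min ε ε', lt_min hε hε', fun z hz i h hh => ?_⟩
    have h3 := min_le_left ε ε'
    have h4 := min_le_right ε ε'
    unfold tP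
    rw [h1 z hz i h (by linarith), h2 z hz i h (by linarith)]

theorem tG_nice {D A : Finset (ℤ × ℤ)} {b ψ : ℤ × ℤ → ℝ} {l : ℝ} (H : Hb D A b ψ l) :
    Nice D b (tG D b A ψ) := tcd_G H

/- END tcd -/

/- MODULE tce
THE CROSS TERM.  `dv rho = dv tP + dv tF` (constants have derivative `0`; `tF x'` is constant for
`x' ∉ A`).  `E dv w * dv tF = E ∑ w x * pz x (dv tF)` (`dv_mul`), bounded by `k * far_mean`;
`E dv w * dv tP` by `dv_dv` (`w x = 0` off `tr y (Bo L)`, `tP x' = 0` off the box), then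
`pz x (tP x') = pz x (rho x') - pz x (tF x')`, Cauchy-Schwarz and `far_mean`. -/

private theorem tce_const (S : Finset (ℤ × ℤ)) (y : ℤ × ℤ) (c : ℝ) :
    pz S y (fun _ => c) = fun _ => 0 := by
  funext h
  unfold pz
  split_ifs with hy
  · unfold pd
    simp
  · rfl

private theorem tce_diff {S : Finset (ℤ × ℤ)} {f : (S → ℝ) → ℝ} (hf : ContDiff ℝ ∞ f) (h : S → ℝ) :
    DifferentiableAt ℝ f h := hf.differentiable (by norm_num) h

/-- the derivative of `f + g + t` -/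
private theorem tce_add3 {S : Finset (ℤ × ℤ)} {f g k : (S → ℝ) → ℝ} (hf : ContDiff ℝ ∞ f)
    (hg : ContDiff ℝ ∞ g) (t : ℝ) (hk : ∀ h, k h = f h + g h + t) (y : ℤ × ℤ) (h : S → ℝ) :
    pz S y k h = pz S y f h + pz S y g h := by
  have e : k = fun h => (f h + g h) + t := funext hk
  rw [e, pz_add (tce_diff (hf.add hg) h) (tce_diff contDiff_const h),
    pz_add (tce_diff hf h) (tce_diff hg h), congrFun (tce_const S y t) h, add_zero]

/-- the Cauchy-Schwarz inequality for sums of continuous functions -/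
private theorem tce_cs {D : Finset (ℤ × ℤ)} {b : ℤ × ℤ → ℝ} (hb : ∀ z, |b z| ≤ 1 / 2)
    {ι : Type*} (s : Finset ι) {f g : ι → (D → ℝ) → ℝ} (hf : ∀ i ∈ s, Continuous (f i))
    (hg : ∀ i ∈ s, Continuous (g i)) :
    |∫ h, ∑ i ∈ s, f i h * g i h ∂(Mu D b)| ≤
      Real.sqrt (∫ h, ∑ i ∈ s, f i h ^ 2 ∂(Mu D b)) *
        Real.sqrt (∫ h, ∑ i ∈ s, g i h ^ 2 ∂(Mu D b)) := by
  set a := ∫ h, ∑ i ∈ s, f i h ^ 2 ∂(Mu D b) with ha
  set c := ∫ h, ∑ i ∈ s, g i h ^ 2 ∂(Mu D b) with hc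
  set m := ∫ h, ∑ i ∈ s, f i h * g i h ∂(Mu D b) with hm
  have ia : Integrable (fun h => ∑ i ∈ s, f i h ^ 2) (Mu D b) :=
    int_K hb (continuous_finsetSum _ fun i hi => (hf i hi).pow 2)
  have ic : Integrable (fun h => ∑ i ∈ s, g i h ^ 2) (Mu D b) :=
    int_K hb (continuous_finsetSum _ fun i hi => (hg i hi).pow 2)
  have im : Integrable (fun h => ∑ i ∈ s, f i h * g i h) (Mu D b) :=
    int_K hb (continuous_finsetSum _ fun i hi => (hf i hi).mul (hg i hi))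
  have ha0 : 0 ≤ a := integral_nonneg fun h => Finset.sum_nonneg fun i _ => sq_nonneg _
  have hc0 : 0 ≤ c := integral_nonneg fun h => Finset.sum_nonneg fun i _ => sq_nonneg _
  have key : ∀ t : ℝ, 0 ≤ a * (t * t) + (2 * m) * t + c := by
    intro t
    have h1 : a * (t * t) + (2 * m) * t + c =
        ∫ h, ∑ i ∈ s, (t * f i h + g i h) ^ 2 ∂(Mu D b) := by
      have e : (fun h => ∑ i ∈ s, (t * f i h + g i h) ^ 2) =
          fun h => ((t * t) * ∑ i ∈ s, f i h ^ 2 + (2 * t) * ∑ i ∈ s, f i h * g i h) +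
            ∑ i ∈ s, g i h ^ 2 := by
        funext h
        rw [Finset.mul_sum, Finset.mul_sum, ← Finset.sum_add_distrib, ← Finset.sum_add_distrib]
        refine Finset.sum_congr rfl fun i _ => ?_
        ring
      have i1 : Integrable (fun h => (t * t) * ∑ i ∈ s, f i h ^ 2) (Mu D b) := ia.const_mul _
      have i2 : Integrable (fun h => (2 * t) * ∑ i ∈ s, f i h * g i h) (Mu D b) := im.const_mul _
      have i3 : Integrable (fun h => (t * t) * ∑ i ∈ s, f i h ^ 2 +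
          (2 * t) * ∑ i ∈ s, f i h * g i h) (Mu D b) := i1.add i2
      rw [e, integral_add i3 ic, integral_add i1 i2, integral_const_mul, integral_const_mul]
      ring
    rw [h1]
    exact integral_nonneg fun h => Finset.sum_nonneg fun i _ => sq_nonneg _
  have hd := discrim_le_zero key
  unfold discrim at hd
  have h2 : m ^ 2 ≤ a * c := by nlinarith
  rw [← Real.sqrt_mul ha0]
  exact Real.abs_le_sqrt h2

private theorem tce_Bo (L : ℕ) (y x : ℤ × ℤ) (hx : x ∈ tr y (Bo L)) : x ∈ tr y (bx L) := by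
  rw [mem_tr] at hx ⊢
  unfold Bo at hx
  rw [mem_inn] at hx
  apply hx
  rw [sub_self, (dn_zero_iff 0).2 rfl]
  positivity

theorem cross_term : ∃ C : ℝ, 1 ≤ C ∧ ∀ (L : ℕ), 1 ≤ L → ∀ (D A : Finset (ℤ × ℤ))
    (b ψ : ℤ × ℤ → ℝ) (l : ℝ), Hb D A b ψ l → ∀ y : ℤ × ℤ, tr y (bx L) ⊆ A →
    ∀ (w : ℤ × ℤ → (D → ℝ) → ℝ) (k : ℝ), Nice D b w → (∀ x ∉ tr y (Bo L), ∀ h, w x h = 0) →
    0 ≤ k → (∀ x h, |w x h| ≤ k) →
    |(∫ h, dv D w h * dv D (tG D b A ψ) h ∂(Mu D b)) -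
      ∫ h, ∑ x ∈ tr y (bx L), ∑ x' ∈ tr y (bx L),
        pz D x' (w x) h * pz D x (tG D b A ψ x') h ∂(Mu D b)| ≤
      C * k * l + C * l * Real.sqrt (∫ h, ∑ x ∈ tr y (bx L), ∑ x' ∈ tr y (bx L),
        (pz D x' (w x) h) ^ 2 ∂(Mu D b)) := by
  obtain ⟨C, hC1, hC⟩ := far_mean
  refine ⟨C, hC1, ?_⟩
  intro L hL D A b ψ l Hh y hy w k hw hw0 hk hwk
  obtain ⟨hm1, hm2⟩ := hC L hL D A b ψ l Hh y hy
  have hb := Hh.hb
  have hl0 : 0 ≤ l := le_trans (abs_nonneg _) (Hh.hl 0 0)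
  set B := tr y (bx L) with hB
  set B0 := tr y (Bo L) with hB0
  have hB0B : B0 ⊆ B := fun x hx => tce_Bo L y x hx
  have hBD : B ⊆ D := hy.trans Hh.hA
  -- smoothness
  have hGs : ∀ x, ContDiff ℝ ∞ (tG D b A ψ x) := fun x => tG_smooth _ _ _ _ _
  have hEs : ∀ x, ContDiff ℝ ∞ (tE D b B (pz1 L y) x) := fun x => tE_smooth _ _ _ _ _
  have hPs : ∀ x, ContDiff ℝ ∞ (tP D b A L y ψ x) := fun x =>
    (hEs x).mul ((hGs x).sub contDiff_const)
  have hFs : ∀ x, ContDiff ℝ ∞ (tF D b A L y ψ x) := fun x =>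
    (contDiff_const.sub (hEs x)).mul ((hGs x).sub contDiff_const)
  have hPn : Nice D b (tP D b A L y ψ) := tP_nice Hh hy
  -- the decomposition
  have hsplit : ∀ z x' h, pz D z (tG D b A ψ x') h =
      pz D z (tP D b A L y ψ x') h + pz D z (tF D b A L y ψ x') h := by
    intro z x' h
    refine tce_add3 (hPs x') (hFs x') (ψ y) (fun h => ?_) z h
    unfold tP tF
    ring
  -- the remainder is constant off `A`
  have hFoff : ∀ x' ∉ A, ∀ z, pz D z (tF D b A L y ψ x') = fun _ => 0 := by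
    intro x' hx' z
    have e : tF D b A L y ψ x' = fun _ => (1 - 0) * (0 - ψ y) := by
      funext h
      unfold tF tE tG
      rw [rho_out _ _ _ hx', rho_out _ _ _ (fun h => hx' (hy h))]
    rw [e]
    exact tce_const _ _ _
  -- `dv rho = dv P + R`
  set R : (D → ℝ) → ℝ := fun h => - ∑ x' ∈ A, pz D x' (tF D b A L y ψ x') h with hR
  have hRs : ContDiff ℝ ∞ R := (ContDiff.sum fun x' _ => pz_smooth (hFs x') x').neg
  have hdv : ∀ h, dv D (tG D b A ψ) h = dv D (tP D b A L y ψ) h + R h := by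
    intro h
    unfold dv
    rw [hR]
    simp only
    have e : ∑ x' ∈ A, pz D x' (tF D b A L y ψ x') h = ∑ x' ∈ D, pz D x' (tF D b A L y ψ x') h := by
      refine Finset.sum_subset Hh.hA fun x' _ hx' => ?_
      rw [hFoff x' hx']
    rw [e, ← neg_add, ← Finset.sum_add_distrib]
    congr 1
    exact Finset.sum_congr rfl fun x' _ => hsplit _ _ _
  have hdws : ContDiff ℝ ∞ (dv D w) := dv_smooth hw
  have hdPs : ContDiff ℝ ∞ (dv D (tP D b A L y ψ)) := dv_smooth hPn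
  have hI1 : ∫ h, dv D w h * dv D (tG D b A ψ) h ∂(Mu D b) =
      (∫ h, dv D w h * dv D (tP D b A L y ψ) h ∂(Mu D b)) + ∫ h, R h * dv D w h ∂(Mu D b) := by
    rw [← integral_add (int_K hb (hdws.mul hdPs).continuous)
      (int_K hb (hRs.mul hdws).continuous)]
    refine integral_congr_ae (Filter.Eventually.of_forall fun h => ?_)
    simp only
    rw [hdv]
    ring
  -- the term with `R`
  have hRz : ∀ x h, pz D x R h = - ∑ x' ∈ A, pz D x (pz D x' (tF D b A L y ψ x')) h := by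
    intro x h
    unfold pz at *
    by_cases hx : x ∈ D
    · simp only [dif_pos hx]
      unfold pd
      have hd : ∀ x' ∈ A, HasFDerivAt (pz D x' (tF D b A L y ψ x'))
          (fderiv ℝ (pz D x' (tF D b A L y ψ x')) h) h := fun x' _ =>
        (tce_diff (pz_smooth (hFs x') x') h).hasFDerivAt
      have h1 : HasFDerivAt R (- ∑ x' ∈ A, fderiv ℝ (pz D x' (tF D b A L y ψ x')) h) h :=
        (HasFDerivAt.fun_sum hd).neg
      rw [h1.fderiv]
      simp only [neg_apply, sum_apply]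
      rfl
    · simp only [dif_neg hx, Finset.sum_const_zero, neg_zero]
  have hT2 : |∫ h, R h * dv D w h ∂(Mu D b)| ≤ C * k * l := by
    rw [dv_mul hb hw hRs]
    have hcont : Continuous fun h : D → ℝ => ∑ x ∈ B0, ∑ x' ∈ A,
        |pz D x (pz D x' (tF D b A L y ψ x')) h| :=
      continuous_finsetSum _ fun x _ => continuous_finsetSum _ fun x' _ =>
        (pz_smooth (pz_smooth (hFs x') x') x).continuous.abs
    calc |∫ h, ∑ x ∈ D, w x h * pz D x R h ∂(Mu D b)|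
        ≤ ∫ h, |∑ x ∈ D, w x h * pz D x R h| ∂(Mu D b) := abs_integral_le_integral_abs
      _ ≤ ∫ h, k * ∑ x ∈ B0, ∑ x' ∈ A, |pz D x (pz D x' (tF D b A L y ψ x')) h| ∂(Mu D b) := by
          refine integral_mono (int_K hb ?_) (int_K hb (continuous_const.mul hcont)) ?_
          · exact (continuous_finsetSum _ fun x _ =>
              ((hw.sm x).mul (pz_smooth hRs x)).continuous).abs
          · intro h
            simp only
            have e : ∑ x ∈ D, w x h * pz D x R h = ∑ x ∈ B0, w x h * pz D x R h := by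
              symm
              refine Finset.sum_subset (hB0B.trans hBD) fun x _ hx => ?_
              rw [hw0 x hx h, zero_mul]
            rw [e, Finset.mul_sum]
            refine (Finset.abs_sum_le_sum_abs _ _).trans (Finset.sum_le_sum fun x _ => ?_)
            rw [abs_mul, hRz, abs_neg]
            exact mul_le_mul (hwk x h) (Finset.abs_sum_le_sum_abs _ _) (abs_nonneg _) hk
      _ = k * ∫ h, ∑ x ∈ B0, ∑ x' ∈ A, |pz D x (pz D x' (tF D b A L y ψ x')) h| ∂(Mu D b) :=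
          integral_const_mul _ _
      _ ≤ k * (C * l) := mul_le_mul_of_nonneg_left hm1 hk
      _ = C * k * l := by ring
  -- the term with `P`
  have hwz : ∀ x ∉ B0, ∀ z, pz D z (w x) = fun _ => 0 := by
    intro x hx z
    have e : w x = fun _ => 0 := funext fun h => hw0 x hx h
    rw [e]
    exact tce_const _ _ _
  have hPz : ∀ x' ∉ B, ∀ z, pz D z (tP D b A L y ψ x') = fun _ => 0 := by
    intro x' hx' z
    have e : tP D b A L y ψ x' = fun _ => 0 := by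
      funext h
      unfold tP tE
      rw [rho_out _ _ _ hx', zero_mul]
    rw [e]
    exact tce_const _ _ _
  have hcw : ∀ x x', Continuous (pz D x' (w x)) := fun x x' => (pz_smooth (hw.sm x) x').continuous
  have hcF : ∀ x x', Continuous (pz D x (tF D b A L y ψ x')) := fun x x' =>
    (pz_smooth (hFs x') x).continuous
  have hcG : ∀ x x', Continuous (pz D x (tG D b A ψ x')) := fun x x' =>
    (pz_smooth (hGs x') x).continuous
  have hT1 : ∫ h, dv D w h * dv D (tP D b A L y ψ) h ∂(Mu D b) =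
      (∫ h, ∑ x ∈ B, ∑ x' ∈ B, pz D x' (w x) h * pz D x (tG D b A ψ x') h ∂(Mu D b)) -
      ∫ h, ∑ p ∈ B0 ×ˢ B, pz D p.2 (w p.1) h * pz D p.1 (tF D b A L y ψ p.2) h ∂(Mu D b) := by
    rw [dv_dv hb hw hPn, ← integral_sub]
    · refine integral_congr_ae (Filter.Eventually.of_forall fun h => ?_)
      simp only
      have e1 : ∑ x ∈ D, ∑ x' ∈ D, pz D x' (w x) h * pz D x (tP D b A L y ψ x') h =
          ∑ x ∈ B0, ∑ x' ∈ B, pz D x' (w x) h * pz D x (tP D b A L y ψ x') h := by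
        have e2 : ∑ x ∈ D, ∑ x' ∈ D, pz D x' (w x) h * pz D x (tP D b A L y ψ x') h =
            ∑ x ∈ B0, ∑ x' ∈ D, pz D x' (w x) h * pz D x (tP D b A L y ψ x') h := by
          symm
          refine Finset.sum_subset (hB0B.trans hBD) fun x _ hx => ?_
          refine Finset.sum_eq_zero fun x' _ => ?_
          rw [hwz x hx, zero_mul]
        rw [e2]
        refine Finset.sum_congr rfl fun x _ => ?_
        symm
        refine Finset.sum_subset hBD fun x' _ hx' => ?_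
        rw [hPz x' hx', mul_zero]
      have e3 : ∑ x ∈ B, ∑ x' ∈ B, pz D x' (w x) h * pz D x (tG D b A ψ x') h =
          ∑ x ∈ B0, ∑ x' ∈ B, pz D x' (w x) h * pz D x (tG D b A ψ x') h := by
        symm
        refine Finset.sum_subset hB0B fun x _ hx => ?_
        refine Finset.sum_eq_zero fun x' _ => ?_
        rw [hwz x hx, zero_mul]
      rw [e1, e3, Finset.sum_product, ← Finset.sum_sub_distrib]
      refine Finset.sum_congr rfl fun x _ => ?_
      rw [← Finset.sum_sub_distrib]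
      refine Finset.sum_congr rfl fun x' _ => ?_
      rw [hsplit]
      ring
    · exact int_K hb (continuous_finsetSum _ fun x _ => continuous_finsetSum _ fun x' _ =>
        (hcw x x').mul (hcG x x'))
    · exact int_K hb (continuous_finsetSum _ fun p _ => (hcw p.1 p.2).mul (hcF p.1 p.2))
  have hT3 : |∫ h, ∑ p ∈ B0 ×ˢ B, pz D p.2 (w p.1) h * pz D p.1 (tF D b A L y ψ p.2) h ∂(Mu D b)| ≤
      C * l * Real.sqrt (∫ h, ∑ x ∈ B, ∑ x' ∈ B, (pz D x' (w x) h) ^ 2 ∂(Mu D b)) := by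
    refine (tce_cs hb (B0 ×ˢ B) (f := fun p => pz D p.2 (w p.1))
      (g := fun p => pz D p.1 (tF D b A L y ψ p.2)) (fun p _ => hcw _ _)
      (fun p _ => hcF _ _)).trans ?_
    rw [mul_comm]
    refine mul_le_mul ?_ ?_ (Real.sqrt_nonneg _) (by positivity)
    · have h1 : ∫ h, ∑ p ∈ B0 ×ˢ B, pz D p.1 (tF D b A L y ψ p.2) h ^ 2 ∂(Mu D b) ≤ C * l ^ 2 := by
        refine le_trans ?_ hm2
        refine integral_mono (int_K hb ?_) (int_K hb ?_) ?_
        · exact continuous_finsetSum _ fun p _ => (hcF p.1 p.2).pow 2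
        · exact continuous_finsetSum _ fun x _ => continuous_finsetSum _ fun x' _ =>
            (hcF x x').pow 2
        · intro h
          simp only
          rw [Finset.sum_product]
          exact Finset.sum_le_sum fun x _ =>
            Finset.sum_le_sum_of_subset_of_nonneg hy fun x' _ _ => sq_nonneg _
      have h2 : C * l ^ 2 ≤ (C * l) ^ 2 := by
        have : 0 ≤ l ^ 2 := sq_nonneg l
        nlinarith
      calc Real.sqrt _ ≤ Real.sqrt ((C * l) ^ 2) := Real.sqrt_le_sqrt (h1.trans h2)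
        _ = C * l := Real.sqrt_sq (by positivity)
    · apply Real.sqrt_le_sqrt
      refine integral_mono (int_K hb ?_) (int_K hb ?_) ?_
      · exact continuous_finsetSum _ fun p _ => (hcw p.1 p.2).pow 2
      · exact continuous_finsetSum _ fun x _ => continuous_finsetSum _ fun x' _ =>
          (hcw x x').pow 2
      · intro h
        simp only
        rw [Finset.sum_product]
        exact Finset.sum_le_sum_of_subset_of_nonneg hB0B fun x _ _ =>
          Finset.sum_nonneg fun x' _ => sq_nonneg _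
  rw [hI1, hT1]
  have e : ∀ a c r : ℝ, a - c + r - a = r + -c := by
    intro a c r
    ring
  rw [e]
  refine (abs_add_le _ _).trans ?_
  rw [abs_neg]
  exact add_le_add hT2 hT3

/- END tce -/

/-- pairwise disjoint boxes in `A` -/
structure Pk (L : ℕ) (A Y : Finset (ℤ × ℤ)) : Prop where
  sub : ∀ y ∈ Y, tr y (bx L) ⊆ A
  dis : ∀ y ∈ Y, ∀ y' ∈ Y, y ≠ y' → Disjoint (tr y (bx L)) (tr y' (bx L))

/- MODULE tcf
Pairs in different boxes, first part: `x` in a box, `x'` outside of it.  For `mB L (x - y) > sqrt L`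
the cluster must have at least `sqrt L` sites (`rho_pz_zero`, `Ny_nb`, `Cmp_dist`), otherwise
`rho_lip` and `mB_count`. -/

private theorem tcf_e0 : (0 : ℝ) < e0 ∧ e0 ≤ 1 / 2 := by
  unfold e0
  constructor <;> norm_num

private theorem tcf_UA {D A : Finset (ℤ × ℤ)} {b ψ : ℤ × ℤ → ℝ} {l : ℝ} (H : Hb D A b ψ l) :
    UA (Uo A) A ψ := ⟨subset_rfl, Or.inl H.h0⟩

private theorem tcf_pc (D A : Finset (ℤ × ℤ)) (b ψ : ℤ × ℤ → ℝ) (x x' : ℤ × ℤ) :
    Continuous (fun h : D → ℝ => pz D x' (tG D b A ψ x) h) :=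
  (pz_smooth (tG_smooth D b A ψ x) x').continuous

private theorem tcf_sc (D A : Finset (ℤ × ℤ)) (b ψ : ℤ × ℤ → ℝ) (x : ℤ × ℤ)
    (T : Finset (ℤ × ℤ)) :
    Continuous (fun h : D → ℝ => ∑ x' ∈ T, (pz D x' (tG D b A ψ x) h) ^ 2) :=
  continuous_finsetSum _ fun x' _ => (tcf_pc D A b ψ x x').pow 2

/-- the derivative vanishes if the cluster is not near -/
private theorem tcf_zero {D A : Finset (ℤ × ℤ)} {b ψ : ℤ × ℤ → ℝ} {x x' : ℤ × ℤ} (hx : x ∈ A)
    {h : D → ℝ} (hc : ((Gx e0 A (gl D b h) x).card : ℤ) < dn (x' - x)) :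
    pz D x' (tG D b A ψ x) h = 0 := by
  refine rho_pz_zero tcf_e0.1 tcf_e0.2 (Uo A) A (Mav ψ) D b h fun hN => ?_
  have h1 := Ny_nb hN
  rcases mem_nb.1 h1 with h2 | ⟨i, h2⟩
  · have h3 : dn (x' - x) + 1 ≤ (Gx e0 A (gl D b h) x).card := Cmp_dist hx h2
    omega
  · have h3 : dn (x' + st i - x) + 1 ≤ (Gx e0 A (gl D b h) x).card := Cmp_dist hx h2
    have h4 := abs_le.1 (dn_step (x' - x) i)
    rw [show x' - x + st i = x' + st i - x by abel] at h4
    omega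

private theorem tcf_box {L : ℕ} {z : ℤ × ℤ} (hz : z ∉ bx L) : mB L z ≤ -1 := by
  by_contra hcon
  push Not at hcon
  apply hz
  unfold mB at hcon
  unfold bx
  simp only [Finset.mem_product, Finset.mem_Ico]
  omega

private theorem tcf_cnt (L j : ℕ) (y : ℤ × ℤ) :
    ((tr y (bx L)).filter (fun x => mB L (x - y) < j)).card ≤ 4 * j * L := by
  refine le_trans (Finset.card_le_card_of_injOn (fun x => x - y) ?_ ?_) (mB_count L j)
  · intro x hx
    have hx' : x ∈ (tr y (bx L)).filter (fun x => mB L (x - y) < j) := hx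
    rw [Finset.mem_filter, mem_tr] at hx'
    show x - y ∈ (bx L).filter (fun z => mB L z < j)
    rw [Finset.mem_filter]
    exact hx'
  · intro x _ x' _ hxx
    exact sub_left_injective hxx

private theorem tcf_sqrt {L : ℕ} (hL : 1 ≤ L) : 1 ≤ Nat.sqrt L ∧
    (Nat.sqrt L : ℝ) ≤ Real.sqrt L ∧ Real.sqrt L ≤ 2 * Nat.sqrt L ∧ 1 ≤ Real.sqrt L := by
  have h1 : 1 ≤ Nat.sqrt L := Nat.sqrt_pos.2 (by omega)
  have h2 : (Nat.sqrt L : ℝ) ≤ Real.sqrt L := Real.nat_sqrt_le_real_sqrt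
  have h3 : Real.sqrt L ≤ (Nat.sqrt L : ℝ) + 1 := Real.real_sqrt_le_nat_sqrt_succ
  have h4 : (1 : ℝ) ≤ Nat.sqrt L := by exact_mod_cast h1
  exact ⟨h1, h2, by linarith, by linarith⟩

theorem out_pairs : ∃ C : ℝ, 1 ≤ C ∧ ∀ (L : ℕ), 1 ≤ L → ∀ (D A : Finset (ℤ × ℤ))
    (b ψ : ℤ × ℤ → ℝ) (l : ℝ), Hb D A b ψ l → ∀ y : ℤ × ℤ, tr y (bx L) ⊆ A →
    ∫ h, ∑ x ∈ tr y (bx L), ∑ x' ∈ D \ tr y (bx L), (pz D x' (tG D b A ψ x) h) ^ 2 ∂(Mu D b) ≤
      C * l ^ 2 * (L * Real.sqrt L) := by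
  classical
  obtain ⟨C, hC, HC⟩ := rho_lip
  obtain ⟨Ct, hCt, HCt⟩ := G_tail 3 1
  obtain ⟨Cm, hCm, HCm⟩ := G_moment 3
  refine ⟨C * (2 * Ct + 8 * Cm), by nlinarith, ?_⟩
  intro L hL D A b ψ l H y hy
  obtain ⟨hs1, hs2, hs3, hs4⟩ := tcf_sqrt hL
  have hP : IsProbabilityMeasure (Mu D b) := prob H.hb
  have hs0 : (0 : ℝ) < Nat.sqrt L := by
    have : (1 : ℝ) ≤ Nat.sqrt L := by exact_mod_cast hs1
    linarith
  have hE : ∀ x ∈ A, ∀ h : D → ℝ, ∑ x' ∈ D, (pz D x' (tG D b A ψ x) h) ^ 2 ≤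
      C * l ^ 2 * ((Gx e0 A (gl D b h) x).card : ℝ) ^ 3 := fun x hx h =>
    (HC (Uo A) A (Mav ψ) ψ (Mav_mean ψ) (tcf_UA H) l H.hl D b h x hx).2.2.2
  have hsub : ∀ (x : ℤ × ℤ) (h : D → ℝ),
      ∑ x' ∈ D \ tr y (bx L), (pz D x' (tG D b A ψ x) h) ^ 2 ≤
        ∑ x' ∈ D, (pz D x' (tG D b A ψ x) h) ^ 2 := fun x h =>
    Finset.sum_le_sum_of_subset_of_nonneg Finset.sdiff_subset fun _ _ _ => sq_nonneg _
  have hl2 : 0 ≤ C * l ^ 2 := by positivity
  rw [integral_finsetSum _ fun x _ => int_K H.hb (tcf_sc D A b ψ x _)]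
  have hdeep : ∀ x ∈ tr y (bx L), ¬ mB L (x - y) < (Nat.sqrt L + 1 : ℕ) →
      ∫ h, ∑ x' ∈ D \ tr y (bx L), (pz D x' (tG D b A ψ x) h) ^ 2 ∂(Mu D b) ≤
        C * l ^ 2 * (Ct / Nat.sqrt L) := by
    intro x hx hm
    have hxA := hy hx
    obtain ⟨i1, i2⟩ := HCt D A H.hA b H.hb x hxA (Nat.sqrt L) hs0
    rw [pow_one] at i2
    refine le_trans ?_ (mul_le_mul_of_nonneg_left i2 hl2)
    rw [← integral_const_mul]
    refine integral_mono (int_K H.hb (tcf_sc D A b ψ x _)) (i1.const_mul _) fun h => ?_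
    show ∑ x' ∈ D \ tr y (bx L), (pz D x' (tG D b A ψ x) h) ^ 2 ≤
      C * l ^ 2 * (if (Nat.sqrt L : ℝ) ≤ ((Gx e0 A (gl D b h) x).card : ℝ) then
        ((Gx e0 A (gl D b h) x).card : ℝ) ^ 3 else 0)
    split_ifs with hc
    · exact (hsub x h).trans (hE x hxA h)
    · rw [mul_zero]
      refine le_of_eq (Finset.sum_eq_zero fun x' hx' => ?_)
      have hc' : ((Gx e0 A (gl D b h) x).card : ℤ) < Nat.sqrt L := by
        have : ((Gx e0 A (gl D b h) x).card : ℝ) < Nat.sqrt L := not_le.1 hc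
        exact_mod_cast this
      have hx2 : x' - y ∉ bx L := fun h2 => (Finset.mem_sdiff.1 hx').2 (mem_tr.2 h2)
      have h3 := tcf_box hx2
      have h4 := abs_le.1 (mB_lip L (x - y) (x' - y))
      rw [show x - y - (x' - y) = -(x' - x) by abel, dn_neg] at h4
      rw [tcf_zero hxA (h := h) (x' := x')]
      · ring
      · push_cast at hm
        omega
  have hshal : ∀ x ∈ tr y (bx L),
      ∫ h, ∑ x' ∈ D \ tr y (bx L), (pz D x' (tG D b A ψ x) h) ^ 2 ∂(Mu D b) ≤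
        C * l ^ 2 * Cm := by
    intro x hx
    have hxA := hy hx
    obtain ⟨i1, i2⟩ := HCm D A H.hA b H.hb x hxA
    refine le_trans ?_ (mul_le_mul_of_nonneg_left i2 hl2)
    rw [← integral_const_mul]
    exact integral_mono (int_K H.hb (tcf_sc D A b ψ x _)) (i1.const_mul _) fun h =>
      (hsub x h).trans (hE x hxA h)
  have hcard : (tr y (bx L)).card = L * L := by
    unfold tr
    rw [Finset.card_image_of_injective _ (add_right_injective y)]
    unfold bx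
    rw [Finset.card_product, Int.card_Ico]
    simp
  rw [← Finset.sum_filter_add_sum_filter_not (tr y (bx L))
    (fun x => mB L (x - y) < (Nat.sqrt L + 1 : ℕ))]
  have b1 : ∑ x ∈ (tr y (bx L)).filter (fun x => mB L (x - y) < (Nat.sqrt L + 1 : ℕ)),
      ∫ h, ∑ x' ∈ D \ tr y (bx L), (pz D x' (tG D b A ψ x) h) ^ 2 ∂(Mu D b) ≤
        (4 * (Nat.sqrt L + 1 : ℕ) * L : ℕ) * (C * l ^ 2 * Cm) := by
    refine le_trans (Finset.sum_le_sum fun x hx => hshal x (Finset.mem_filter.1 hx).1) ?_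
    rw [Finset.sum_const, nsmul_eq_mul]
    refine mul_le_mul_of_nonneg_right ?_ (by positivity)
    exact_mod_cast tcf_cnt L (Nat.sqrt L + 1) y
  have b2 : ∑ x ∈ (tr y (bx L)).filter (fun x => ¬ mB L (x - y) < (Nat.sqrt L + 1 : ℕ)),
      ∫ h, ∑ x' ∈ D \ tr y (bx L), (pz D x' (tG D b A ψ x) h) ^ 2 ∂(Mu D b) ≤
        (L * L : ℕ) * (C * l ^ 2 * (Ct / Nat.sqrt L)) := by
    refine le_trans (Finset.sum_le_sum fun x hx => hdeep x (Finset.mem_filter.1 hx).1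
      (Finset.mem_filter.1 hx).2) ?_
    rw [Finset.sum_const, nsmul_eq_mul]
    refine mul_le_mul_of_nonneg_right ?_ (by positivity)
    rw [← hcard]
    exact_mod_cast Finset.card_filter_le _ _
  refine (add_le_add b1 b2).trans ?_
  have hL0 : (0 : ℝ) ≤ L := by positivity
  have hLs : (L : ℝ) = Real.sqrt L * Real.sqrt L := (Real.mul_self_sqrt hL0).symm
  have c1 : ((4 * (Nat.sqrt L + 1 : ℕ) * L : ℕ) : ℝ) ≤ 8 * (L * Real.sqrt L) := by
    push_cast
    nlinarith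
  have c2 : ((L * L : ℕ) : ℝ) * (1 / Nat.sqrt L) ≤ 2 * (L * Real.sqrt L) := by
    rw [mul_one_div, div_le_iff₀ hs0]
    push_cast
    calc (L : ℝ) * L = L * Real.sqrt L * Real.sqrt L := by rw [mul_assoc, ← hLs]
      _ ≤ L * Real.sqrt L * (2 * Nat.sqrt L) := mul_le_mul_of_nonneg_left hs3 (by positivity)
      _ = 2 * (L * Real.sqrt L) * Nat.sqrt L := by ring
  have d1 := mul_le_mul_of_nonneg_right c1 (show 0 ≤ C * l ^ 2 * Cm by positivity)
  have d2 := mul_le_mul_of_nonneg_right c2 (show 0 ≤ C * l ^ 2 * Ct by positivity)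
  calc _ ≤ 8 * (L * Real.sqrt L) * (C * l ^ 2 * Cm) + 2 * (L * Real.sqrt L) * (C * l ^ 2 * Ct) := by
        refine add_le_add d1 (le_trans (le_of_eq ?_) d2)
        ring
    _ = C * (2 * Ct + 8 * Cm) * l ^ 2 * (L * Real.sqrt L) := by ring

/-- second part: `x` far from the support of `ψ` (`Os = 0` if the cluster has less than `M` sites) -/
theorem out_far : ∃ C : ℝ, 1 ≤ C ∧ ∀ (D A : Finset (ℤ × ℤ))
    (b ψ : ℤ × ℤ → ℝ) (l : ℝ), Hb D A b ψ l → ∀ x ∈ A, ∀ M : ℝ, 1 ≤ M →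
    (∀ z, (dn (z - x) : ℝ) ≤ M → ψ z = 0) →
    ∫ h, ∑ x' ∈ D, (pz D x' (tG D b A ψ x) h) ^ 2 ∂(Mu D b) ≤ C * l ^ 2 / M := by
  classical
  obtain ⟨C, hC, HC⟩ := rho_lip
  obtain ⟨Ct, hCt, HCt⟩ := G_tail 3 1
  obtain ⟨Cq, hCq, HCq⟩ := qs_bound tcf_e0.1 tcf_e0.2
  refine ⟨C * Ct, by nlinarith, ?_⟩
  intro D A b ψ l H x hx M hM hψ
  have hP : IsProbabilityMeasure (Mu D b) := prob H.hb
  have hl2 : 0 ≤ C * l ^ 2 := by positivity
  obtain ⟨i1, i2⟩ := HCt D A H.hA b H.hb x hx M (by linarith)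
  rw [pow_one] at i2
  have h5 : C * Ct * l ^ 2 / M = C * l ^ 2 * (Ct / M) := by ring
  rw [h5]
  refine le_trans ?_ (mul_le_mul_of_nonneg_left i2 hl2)
  rw [← integral_const_mul]
  refine integral_mono (int_K H.hb (tcf_sc D A b ψ x _)) (i1.const_mul _) fun h => ?_
  show ∑ x' ∈ D, (pz D x' (tG D b A ψ x) h) ^ 2 ≤
      C * l ^ 2 * (if M ≤ ((Gx e0 A (gl D b h) x).card : ℝ) then
        ((Gx e0 A (gl D b h) x).card : ℝ) ^ 3 else 0)
  split_ifs with hc
  · exact (HC (Uo A) A (Mav ψ) ψ (Mav_mean ψ) (tcf_UA H) l H.hl D b h x hx).2.2.2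
  · rw [mul_zero]
    refine le_of_eq (Finset.sum_eq_zero fun x' _ => ?_)
    have hO : Os A (Op e0 (gl D b h)) ψ x = 0 := by
      unfold Os
      refine Finset.sum_eq_zero fun y hy => Finset.sum_eq_zero fun i _ => ?_
      have h3 : dn (y - x) + 1 ≤ (Gx e0 A (gl D b h) x).card := Cmp_dist hx hy
      have h4 := abs_le.1 (dn_step (y - x) i)
      rw [show y - x + st i = y + st i - x by abel] at h4
      have h6 : ((Gx e0 A (gl D b h) x).card : ℝ) < M := not_le.1 hc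
      have e1 : ψ y = 0 := by
        refine hψ y (le_trans ?_ h6.le)
        have : dn (y - x) ≤ ((Gx e0 A (gl D b h) x).card : ℤ) := by omega
        exact_mod_cast this
      have e2 : ψ (y + st i) = 0 := by
        refine hψ _ (le_trans ?_ h6.le)
        have : dn (y + st i - x) ≤ ((Gx e0 A (gl D b h) x).card : ℤ) := by omega
        exact_mod_cast this
      rw [e1, e2, sub_self, abs_zero]
    have h7 := rho_pz_le tcf_e0.1 tcf_e0.2 (fun z => (HCq z).1) (Mav_mean ψ) (tcf_UA H) D b x' h hx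
    rw [hO, mul_zero] at h7
    have h8 : pz D x' (tG D b A ψ x) h = 0 := abs_eq_zero.1 (le_antisymm h7 (abs_nonneg _))
    rw [h8]
    ring

/- END tcf -/

/- MODULE tcg
The square of `dv rho`: `dv_dv`; the pairs in the same box are kept, for the other pairs
`|a x x' * a x' x| ≤ ((a x x')² + (a x' x)²) / 2` and symmetry. -/

/-- reordering of a double sum, symmetric relation `s` -/
private theorem tcg_sym {D : Finset (ℤ × ℤ)} (s : ℤ × ℤ → ℤ × ℤ → Prop)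
    (hs : ∀ x x', s x x' → s x' x) (P : ℤ × ℤ → ℤ × ℤ → ℝ) [∀ x x', Decidable (s x x')] :
    ∑ x ∈ D, ∑ x' ∈ D, (if s x x' then 0 else P x x' * P x' x) ≤
      ∑ x ∈ D, ∑ x' ∈ D, (if s x x' then 0 else (P x x') ^ 2) := by
  have h1 : ∑ x ∈ D, ∑ x' ∈ D, (if s x x' then 0 else (P x' x) ^ 2) =
      ∑ x ∈ D, ∑ x' ∈ D, (if s x x' then 0 else (P x x') ^ 2) := by
    rw [Finset.sum_comm]
    refine Finset.sum_congr rfl fun x _ => Finset.sum_congr rfl fun x' _ => ?_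
    by_cases h : s x' x
    · rw [if_pos h, if_pos (hs _ _ h)]
    · rw [if_neg h, if_neg fun h' => h (hs _ _ h')]
  have h2 : ∑ x ∈ D, ∑ x' ∈ D, (if s x x' then 0 else P x x' * P x' x) ≤
      ∑ x ∈ D, ∑ x' ∈ D, ((1 / 2) * (if s x x' then 0 else (P x x') ^ 2) +
        (1 / 2) * (if s x x' then 0 else (P x' x) ^ 2)) := by
    refine Finset.sum_le_sum fun x _ => Finset.sum_le_sum fun x' _ => ?_
    split_ifs
    · simp
    · nlinarith [sq_nonneg (P x x' - P x' x)]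
  refine h2.trans (le_of_eq ?_)
  simp only [Finset.sum_add_distrib, ← Finset.mul_sum]
  rw [h1]
  ring

private theorem tcg_alg {D A : Finset (ℤ × ℤ)} (hA : A ⊆ D) {Y : Finset (ℤ × ℤ)}
    {B : ℤ × ℤ → Finset (ℤ × ℤ)} (hB : ∀ y ∈ Y, B y ⊆ A)
    (hd : ∀ y ∈ Y, ∀ y' ∈ Y, y ≠ y' → Disjoint (B y) (B y')) (P : ℤ × ℤ → ℤ × ℤ → ℝ)
    (hP : ∀ x ∉ A, ∀ x', P x x' = 0) :
    ∑ x ∈ D, ∑ x' ∈ D, P x x' * P x' x ≤
      (∑ y ∈ Y, ∑ x ∈ B y, ∑ x' ∈ B y, P x x' * P x' x) +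
      (∑ y ∈ Y, ∑ x ∈ B y, ∑ x' ∈ D \ B y, (P x x') ^ 2) +
      ∑ x ∈ A \ Y.biUnion B, ∑ x' ∈ D, (P x x') ^ 2 := by
  classical
  let s : ℤ × ℤ → ℤ × ℤ → Prop := fun x x' => ∃ y ∈ Y, x ∈ B y ∧ x' ∈ B y
  have hs : ∀ x x', s x x' → s x' x := fun x x' ⟨y, hy, h1, h2⟩ => ⟨y, hy, h2, h1⟩
  have hsame : ∀ y ∈ Y, ∀ x ∈ B y, ∀ x', s x x' ↔ x' ∈ B y := by
    intro y hy x hx x'
    constructor
    · rintro ⟨y', hy', h1, h2⟩
      by_cases h : y = y'
      · rw [h]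
        exact h2
      · exact absurd h1 (Finset.disjoint_left.1 (hd y hy y' hy' h) hx)
    · intro h
      exact ⟨y, hy, hx, h⟩
  have hUA : Y.biUnion B ⊆ A := Finset.biUnion_subset.2 hB
  have hUD : Y.biUnion B ⊆ D := hUA.trans hA
  have hbi : ∀ g : ℤ × ℤ → ℝ, ∑ x ∈ Y.biUnion B, g x = ∑ y ∈ Y, ∑ x ∈ B y, g x := by
    intro g
    refine Finset.sum_biUnion fun y hy y' hy' h => ?_
    exact hd y hy y' hy' h
  have h1 : ∑ x ∈ D, ∑ x' ∈ D, P x x' * P x' x =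
      ∑ x ∈ D, ∑ x' ∈ D, (if s x x' then P x x' * P x' x else 0) +
      ∑ x ∈ D, ∑ x' ∈ D, (if s x x' then 0 else P x x' * P x' x) := by
    rw [← Finset.sum_add_distrib]
    refine Finset.sum_congr rfl fun x _ => ?_
    rw [← Finset.sum_add_distrib]
    refine Finset.sum_congr rfl fun x' _ => ?_
    split_ifs <;> simp
  have h2 : ∑ x ∈ D, ∑ x' ∈ D, (if s x x' then P x x' * P x' x else 0) =
      ∑ y ∈ Y, ∑ x ∈ B y, ∑ x' ∈ B y, P x x' * P x' x := by
    rw [← Finset.sum_subset hUD fun x _ hx => ?_]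
    swap
    · refine Finset.sum_eq_zero fun x' _ => ?_
      rw [if_neg]
      rintro ⟨y, hy, h3, -⟩
      exact hx (Finset.mem_biUnion.2 ⟨y, hy, h3⟩)
    rw [hbi (fun x => ∑ x' ∈ D, (if s x x' then P x x' * P x' x else 0))]
    refine Finset.sum_congr rfl fun y hy => Finset.sum_congr rfl fun x hx => ?_
    rw [← Finset.sum_subset ((hB y hy).trans hA) fun x' _ hx' => ?_]
    · refine Finset.sum_congr rfl fun x' hx' => ?_
      rw [if_pos ((hsame y hy x hx x').2 hx')]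
    · rw [if_neg fun h => hx' ((hsame y hy x hx x').1 h)]
  have h3 := tcg_sym (D := D) s hs P
  have h4 : ∑ x ∈ D, ∑ x' ∈ D, (if s x x' then 0 else (P x x') ^ 2) ≤
      (∑ y ∈ Y, ∑ x ∈ B y, ∑ x' ∈ D \ B y, (P x x') ^ 2) +
      ∑ x ∈ A \ Y.biUnion B, ∑ x' ∈ D, (P x x') ^ 2 := by
    have h5 : ∑ x ∈ D, ∑ x' ∈ D, (if s x x' then 0 else (P x x') ^ 2) =
        ∑ x ∈ A, ∑ x' ∈ D, (if s x x' then 0 else (P x x') ^ 2) := by
      refine (Finset.sum_subset hA fun x _ hx => Finset.sum_eq_zero fun x' _ => ?_).symm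
      rw [hP x hx]
      simp
    rw [h5, ← Finset.sum_sdiff hUA, add_comm, hbi]
    refine add_le_add (Finset.sum_le_sum fun y hy => Finset.sum_le_sum fun x hx => ?_)
      (Finset.sum_le_sum fun x _ => Finset.sum_le_sum fun x' _ => ?_)
    · rw [← Finset.sum_sdiff ((hB y hy).trans hA)]
      have h6 : ∑ x' ∈ B y, (if s x x' then 0 else (P x x') ^ 2) = 0 :=
        Finset.sum_eq_zero fun x' hx' => if_pos ((hsame y hy x hx x').2 hx')
      rw [h6, add_zero]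
      refine Finset.sum_le_sum fun x' _ => ?_
      split_ifs
      · exact sq_nonneg _
      · exact le_rfl
    · split_ifs
      · exact sq_nonneg _
      · exact le_rfl
  rw [h1, h2]
  linarith

theorem rho_square : ∃ C : ℝ, 1 ≤ C ∧ ∀ (L : ℕ), 1 ≤ L → ∀ (D A : Finset (ℤ × ℤ))
    (b ψ : ℤ × ℤ → ℝ) (l : ℝ), Hb D A b ψ l → ∀ Y : Finset (ℤ × ℤ), Pk L A Y →
    ∀ M : ℝ, 1 ≤ M → (∀ x ∈ A, (∀ y ∈ Y, x ∉ tr y (bx L)) → ∀ z, (dn (z - x) : ℝ) ≤ M → ψ z = 0) →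
    ∫ h, (dv D (tG D b A ψ) h) ^ 2 ∂(Mu D b) ≤
      (∑ y ∈ Y, ∫ h, ∑ x ∈ tr y (bx L), ∑ x' ∈ tr y (bx L),
        pz D x' (tG D b A ψ x) h * pz D x (tG D b A ψ x') h ∂(Mu D b)) +
      C * l ^ 2 * (Y.card * (L * Real.sqrt L) + A.card / M) := by
  classical
  obtain ⟨C1, hC1, H1⟩ := out_pairs
  obtain ⟨C2, hC2, H2⟩ := out_far
  refine ⟨C1 + C2, by linarith, ?_⟩
  intro L hL D A b ψ l H Y hY M hM hψ
  have hP : IsProbabilityMeasure (Mu D b) := prob H.hb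
  have hw : Nice D b (tG D b A ψ) := tG_nice H
  have hM0 : (0 : ℝ) < M := by linarith
  set U := Y.biUnion fun y => tr y (bx L) with hU
  have e1 : ∫ h, (dv D (tG D b A ψ) h) ^ 2 ∂(Mu D b) =
      ∫ h, ∑ x ∈ D, ∑ x' ∈ D, pz D x' (tG D b A ψ x) h * pz D x (tG D b A ψ x') h ∂(Mu D b) := by
    rw [← dv_dv H.hb hw hw]
    refine integral_congr_ae (ae_of_all _ fun h => ?_)
    exact pow_two _
  have hzero : ∀ h : D → ℝ, ∀ x ∉ A, ∀ x', pz D x' (tG D b A ψ x) h = 0 := by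
    intro h x hx x'
    have h2 : tG D b A ψ x = fun _ => 0 := funext fun h => rho_out e0 (Uo A) (Mav ψ) hx _
    rw [h2]
    unfold pz pd
    rw [fderiv_fun_const]
    split_ifs
    all_goals rfl
  have c1 : ∀ S T : Finset (ℤ × ℤ), Continuous (fun h : D → ℝ =>
      ∑ x ∈ S, ∑ x' ∈ T, pz D x' (tG D b A ψ x) h * pz D x (tG D b A ψ x') h) := fun S T =>
    continuous_finsetSum _ fun x _ => continuous_finsetSum _ fun x' _ =>
      (tcf_pc D A b ψ x x').mul (tcf_pc D A b ψ x' x)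
  have c2 : ∀ S T : Finset (ℤ × ℤ), Continuous (fun h : D → ℝ =>
      ∑ x ∈ S, ∑ x' ∈ T, (pz D x' (tG D b A ψ x) h) ^ 2) := fun S T =>
    continuous_finsetSum _ fun x _ => tcf_sc D A b ψ x T
  have k1 : Continuous (fun h : D → ℝ => ∑ y ∈ Y, ∑ x ∈ tr y (bx L), ∑ x' ∈ tr y (bx L),
      pz D x' (tG D b A ψ x) h * pz D x (tG D b A ψ x') h) :=
    continuous_finsetSum _ fun y _ => c1 _ _
  have k2 : Continuous (fun h : D → ℝ => ∑ y ∈ Y, ∑ x ∈ tr y (bx L), ∑ x' ∈ D \ tr y (bx L),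
      (pz D x' (tG D b A ψ x) h) ^ 2) :=
    continuous_finsetSum _ fun y _ => c2 _ _
  have k3 : Continuous (fun h : D → ℝ => ∑ x ∈ A \ U, ∑ x' ∈ D,
      (pz D x' (tG D b A ψ x) h) ^ 2) := c2 _ _
  have e2 : ∫ h, ∑ x ∈ D, ∑ x' ∈ D,
      pz D x' (tG D b A ψ x) h * pz D x (tG D b A ψ x') h ∂(Mu D b) ≤
      ∫ h, ((∑ y ∈ Y, ∑ x ∈ tr y (bx L), ∑ x' ∈ tr y (bx L),
        pz D x' (tG D b A ψ x) h * pz D x (tG D b A ψ x') h) +
      (∑ y ∈ Y, ∑ x ∈ tr y (bx L), ∑ x' ∈ D \ tr y (bx L),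
        (pz D x' (tG D b A ψ x) h) ^ 2) +
      ∑ x ∈ A \ U, ∑ x' ∈ D, (pz D x' (tG D b A ψ x) h) ^ 2) ∂(Mu D b) := by
    refine integral_mono (int_K H.hb (c1 D D)) (int_K H.hb ((k1.add k2).add k3)) fun h => ?_
    exact tcg_alg H.hA hY.sub hY.dis (fun x x' => pz D x' (tG D b A ψ x) h) (hzero h)
  have hadd : ∀ F G K : (D → ℝ) → ℝ, Continuous F → Continuous G → Continuous K →
      ∫ h, (F h + G h + K h) ∂(Mu D b) =
        (∫ h, F h ∂(Mu D b)) + (∫ h, G h ∂(Mu D b)) + ∫ h, K h ∂(Mu D b) := by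
    intro F G K hF hG hK
    rw [integral_add (f := fun h => F h + G h) (g := K) (int_K H.hb (hF.add hG)) (int_K H.hb hK),
      integral_add (int_K H.hb hF) (int_K H.hb hG)]
  rw [hadd _ _ _ k1 k2 k3,
    integral_finsetSum _ (fun y _ => int_K H.hb (c1 _ _)),
    integral_finsetSum (s := Y) (f := fun y (h : D → ℝ) => ∑ x ∈ tr y (bx L),
      ∑ x' ∈ D \ tr y (bx L), (pz D x' (tG D b A ψ x) h) ^ 2)
      (fun y _ => int_K H.hb (c2 _ _)),
    integral_finsetSum (s := A \ U) (f := fun x (h : D → ℝ) => ∑ x' ∈ D,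
      (pz D x' (tG D b A ψ x) h) ^ 2) (fun x _ => int_K H.hb (tcf_sc D A b ψ x _))] at e2
  have e3 : ∑ y ∈ Y, ∫ h, ∑ x ∈ tr y (bx L), ∑ x' ∈ D \ tr y (bx L),
      (pz D x' (tG D b A ψ x) h) ^ 2 ∂(Mu D b) ≤ Y.card * (C1 * l ^ 2 * (L * Real.sqrt L)) := by
    refine (Finset.sum_le_sum fun y hy => H1 L hL D A b ψ l H y (hY.sub y hy)).trans ?_
    rw [Finset.sum_const, nsmul_eq_mul]
  have e4 : ∑ x ∈ A \ U, ∫ h, ∑ x' ∈ D, (pz D x' (tG D b A ψ x) h) ^ 2 ∂(Mu D b) ≤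
      A.card * (C2 * l ^ 2 / M) := by
    refine (Finset.sum_le_sum fun x hx => H2 D A b ψ l H x (Finset.mem_sdiff.1 hx).1 M hM
      (hψ x (Finset.mem_sdiff.1 hx).1 fun y hy hxy => (Finset.mem_sdiff.1 hx).2
        (Finset.mem_biUnion.2 ⟨y, hy, hxy⟩))).trans ?_
    rw [Finset.sum_const, nsmul_eq_mul]
    refine mul_le_mul_of_nonneg_right ?_ (by positivity)
    exact_mod_cast Finset.card_le_card Finset.sdiff_subset
  rw [e1]
  refine e2.trans ?_
  have p1 : (0 : ℝ) ≤ C2 * l ^ 2 * (Y.card * (L * Real.sqrt L)) := by positivity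
  have p2 : (0 : ℝ) ≤ C1 * l ^ 2 * (A.card / M) := by positivity
  have p3 : (A.card : ℝ) * (C2 * l ^ 2 / M) = C2 * l ^ 2 * (A.card / M) := by ring
  rw [p3] at e4
  nlinarith

/- END tcg -/

/- MODULE tch
THE SUM.  Expand the square of `dv rho + ∑ y, dv (w y)`: `rho_square`, `cross_term`, the mixed terms
`y ≠ y'` vanish (`dv_orth2` with `S = tr y (Bo L)`, `S' = nb (tr y' (bx L))`, disjoint because the
boxes are disjoint and `Bo L ⊆ inn (bx L) 3`), the diagonal ones are `dv_dv`; collect the terms of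
one box and use `a b ≤ (a² + b²) / 2`. -/

private theorem tch_alg {I : Type*} (F : Finset I) (α β : I → I → ℝ) :
    (∑ x ∈ F, ∑ x' ∈ F, α x x' * α x' x) + 2 * (∑ x ∈ F, ∑ x' ∈ F, β x x' * α x' x) +
      (∑ x ∈ F, ∑ x' ∈ F, β x x' * β x' x) ≤ ∑ x ∈ F, ∑ x' ∈ F, (α x x' + β x x') ^ 2 := by
  have h1 : ∑ x ∈ F, ∑ x' ∈ F, β x x' * α x' x = ∑ x ∈ F, ∑ x' ∈ F, α x x' * β x' x := by
    rw [Finset.sum_comm]
    exact Finset.sum_congr rfl fun x _ => Finset.sum_congr rfl fun x' _ => mul_comm _ _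
  have h2 : ∑ x ∈ F, ∑ x' ∈ F, (α x' x + β x' x) ^ 2 = ∑ x ∈ F, ∑ x' ∈ F, (α x x' + β x x') ^ 2 :=
    Finset.sum_comm
  have h3 : (∑ x ∈ F, ∑ x' ∈ F, α x x' * α x' x) + 2 * (∑ x ∈ F, ∑ x' ∈ F, β x x' * α x' x) +
      (∑ x ∈ F, ∑ x' ∈ F, β x x' * β x' x) =
      ∑ x ∈ F, ∑ x' ∈ F, (α x x' + β x x') * (α x' x + β x' x) := by
    have h4 : 2 * (∑ x ∈ F, ∑ x' ∈ F, β x x' * α x' x) =
        ∑ x ∈ F, ∑ x' ∈ F, (β x x' * α x' x + α x x' * β x' x) := by
      simp only [Finset.sum_add_distrib]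
      rw [← h1]
      ring
    rw [h4]
    simp only [← Finset.sum_add_distrib]
    refine Finset.sum_congr rfl fun x _ => Finset.sum_congr rfl fun x' _ => ?_
    ring
  have h5 : ∑ x ∈ F, ∑ x' ∈ F, (α x x' + β x x') * (α x' x + β x' x) ≤
      ∑ x ∈ F, ∑ x' ∈ F, ((α x x' + β x x') ^ 2 / 2 + (α x' x + β x' x) ^ 2 / 2) := by
    refine Finset.sum_le_sum fun x _ => Finset.sum_le_sum fun x' _ => ?_
    nlinarith [sq_nonneg ((α x x' + β x x') - (α x' x + β x' x))]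
  have h6 : ∑ x ∈ F, ∑ x' ∈ F, ((α x x' + β x x') ^ 2 / 2 + (α x' x + β x' x) ^ 2 / 2) =
      ∑ x ∈ F, ∑ x' ∈ F, (α x x' + β x x') ^ 2 := by
    simp only [Finset.sum_add_distrib, ← Finset.sum_div]
    rw [h2]
    ring
  rw [h3]
  exact h5.trans h6.le

private theorem tch_int3 {X : Type*} [MeasurableSpace X] {μ : Measure X} {f g k : X → ℝ}
    (hf : Integrable f μ) (hg : Integrable g μ) (hk : Integrable k μ) :
    Integrable (fun x => f x + 2 * g x + k x) μ ∧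
    (∫ x, f x ∂μ) + 2 * (∫ x, g x ∂μ) + ∫ x, k x ∂μ = ∫ x, (f x + 2 * g x + k x) ∂μ := by
  have h1 : Integrable (fun x => f x + 2 * g x) μ := hf.add (hg.const_mul 2)
  refine ⟨h1.add hk, ?_⟩
  rw [integral_add h1 hk, integral_add hf (hg.const_mul 2), integral_const_mul]

private theorem tch_pz0 {D : Finset (ℤ × ℤ)} {f : (D → ℝ) → ℝ} (hf : ∀ h, f h = 0) (x : ℤ × ℤ)
    (h : D → ℝ) : pz D x f h = 0 := by
  have h1 : f = fun _ => 0 := funext hf
  rw [h1]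
  unfold pz pd
  split_ifs <;> simp

private theorem tch_sub {L : ℕ} {y z : ℤ × ℤ} (hz : z ∈ tr y (Bo L)) {t : ℤ × ℤ}
    (ht : dn (t - z) ≤ 1) : t ∈ tr y (bx L) := by
  rw [mem_tr] at hz ⊢
  unfold Bo at hz
  rw [mem_inn] at hz
  refine hz _ ?_
  have h1 : t - y - (z - y) = t - z := by abel
  rw [h1]
  push_cast
  omega

private theorem tch_dis {L : ℕ} {A Y : Finset (ℤ × ℤ)} (hY : Pk L A Y) {y y' : ℤ × ℤ}
    (hy : y ∈ Y) (hy' : y' ∈ Y) (hne : y ≠ y') : Disjoint (tr y (Bo L)) (nb (tr y' (bx L))) := by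
  rw [Finset.disjoint_left]
  intro z hz hz'
  have hd := Finset.disjoint_left.1 (hY.dis y hy y' hy' hne)
  rcases mem_nb.1 hz' with h | ⟨i, h⟩
  · refine hd (tch_sub hz ?_) h
    rw [sub_self, (dn_zero_iff 0).2 rfl]
    norm_num
  · refine hd (tch_sub hz ?_) h
    rw [add_sub_cancel_left, (dn_one_iff _).2 ⟨i, rfl⟩]

private theorem tch_self {D : Finset (ℤ × ℤ)} {b : ℤ × ℤ → ℝ} (hb : ∀ z, |b z| ≤ 1 / 2)
    {B : Finset (ℤ × ℤ)} (hB : B ⊆ D) {w : ℤ × ℤ → (D → ℝ) → ℝ} (hw : Nice D b w)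
    (h0 : ∀ x ∉ B, ∀ h, w x h = 0) :
    ∫ h, dv D w h * dv D w h ∂(Mu D b) =
      ∫ h, ∑ x ∈ B, ∑ x' ∈ B, pz D x' (w x) h * pz D x (w x') h ∂(Mu D b) := by
  rw [dv_dv hb hw hw]
  refine integral_congr_ae (Filter.Eventually.of_forall fun h => ?_)
  simp only
  symm
  have h1 : ∀ x, x ∉ B → ∀ z, pz D z (w x) h = 0 := fun x hx z => tch_pz0 (h0 x hx) z h
  have h2 : ∀ x ∈ B, ∑ x' ∈ B, pz D x' (w x) h * pz D x (w x') h =
      ∑ x' ∈ D, pz D x' (w x) h * pz D x (w x') h := fun x _ =>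
    Finset.sum_subset hB fun x' _ hx' => by rw [h1 x' hx', mul_zero]
  rw [Finset.sum_congr rfl h2]
  refine Finset.sum_subset hB fun x _ hx => ?_
  exact Finset.sum_eq_zero fun x' _ => by rw [h1 x hx, zero_mul]

private theorem tch_cont {D : Finset (ℤ × ℤ)} {B : Finset (ℤ × ℤ)} {w v : ℤ × ℤ → (D → ℝ) → ℝ}
    (hw : ∀ x, ContDiff ℝ ∞ (w x)) (hv : ∀ x, ContDiff ℝ ∞ (v x)) :
    Continuous (fun h => ∑ x ∈ B, ∑ x' ∈ B, pz D x' (w x) h * pz D x (v x') h) :=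
  continuous_finsetSum _ fun x _ => continuous_finsetSum _ fun x' _ =>
    (pz_smooth (hw x) x').continuous.mul (pz_smooth (hv x') x).continuous

private theorem tch_box {D : Finset (ℤ × ℤ)} {b : ℤ × ℤ → ℝ} (hb : ∀ z, |b z| ≤ 1 / 2)
    (B : Finset (ℤ × ℤ)) {a w : ℤ × ℤ → (D → ℝ) → ℝ} (ha : ∀ x, ContDiff ℝ ∞ (a x))
    (hw : ∀ x, ContDiff ℝ ∞ (w x)) :
    (∫ h, ∑ x ∈ B, ∑ x' ∈ B, pz D x' (a x) h * pz D x (a x') h ∂(Mu D b)) +
      2 * (∫ h, ∑ x ∈ B, ∑ x' ∈ B, pz D x' (w x) h * pz D x (a x') h ∂(Mu D b)) +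
      (∫ h, ∑ x ∈ B, ∑ x' ∈ B, pz D x' (w x) h * pz D x (w x') h ∂(Mu D b)) ≤
      ∫ h, ∑ x ∈ B, ∑ x' ∈ B, (pz D x' (fun h => a x h + w x h) h) ^ 2 ∂(Mu D b) := by
  have i1 := int_K hb (tch_cont (B := B) ha ha)
  have i2 := int_K hb (tch_cont (B := B) hw ha)
  have i3 := int_K hb (tch_cont (B := B) hw hw)
  have c4 : Continuous (fun h => ∑ x ∈ B, ∑ x' ∈ B, (pz D x' (fun h => a x h + w x h) h) ^ 2) :=
    continuous_finsetSum _ fun x _ => continuous_finsetSum _ fun x' _ =>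
      (pz_smooth ((ha x).add (hw x)) x').continuous.pow 2
  have i4 := int_K hb c4
  obtain ⟨i5, e5⟩ := tch_int3 i1 i2 i3
  rw [e5]
  refine integral_mono i5 i4 fun h => ?_
  have h1 := tch_alg B (fun x x' => pz D x' (a x) h) (fun x x' => pz D x' (w x) h)
  have h2 : ∀ x x', pz D x' (fun h => a x h + w x h) h = pz D x' (a x) h + pz D x' (w x) h :=
    fun x x' => pz_add ((ha x).differentiable (by norm_num) h)
      ((hw x).differentiable (by norm_num) h)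
  simp only [h2]
  exact h1

theorem big_square : ∃ C : ℝ, 1 ≤ C ∧ ∀ (L : ℕ), 1 ≤ L → ∀ (D A : Finset (ℤ × ℤ))
    (b ψ : ℤ × ℤ → ℝ) (l : ℝ), Hb D A b ψ l → ∀ Y : Finset (ℤ × ℤ), Pk L A Y →
    ∀ M : ℝ, 1 ≤ M → (∀ x ∈ A, (∀ y ∈ Y, x ∉ tr y (bx L)) → ∀ z, (dn (z - x) : ℝ) ≤ M → ψ z = 0) →
    ∀ (w : ℤ × ℤ → ℤ × ℤ → (D → ℝ) → ℝ) (k : ℝ), 0 ≤ k → (∀ y ∈ Y, Nice D b (w y)) →
    (∀ y ∈ Y, ∀ x ∉ tr y (Bo L), ∀ h, w y x h = 0) → (∀ y ∈ Y, ∀ x h, |w y x h| ≤ k) →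
    (∀ y ∈ Y, ∀ x, DepS (nb (tr y (bx L))) (w y x)) →
    ∫ h, (dv D (fun x h => tG D b A ψ x h + ∑ y ∈ Y, w y x h) h) ^ 2 ∂(Mu D b) ≤
      (∑ y ∈ Y, ∫ h, ∑ x ∈ tr y (bx L), ∑ x' ∈ tr y (bx L),
        (pz D x' (fun h => tG D b A ψ x h + w y x h) h) ^ 2 ∂(Mu D b)) +
      C * l ^ 2 * (Y.card * (L * Real.sqrt L) + A.card / M) + C * k * l * Y.card +
      C * l * ∑ y ∈ Y, Real.sqrt (∫ h, ∑ x ∈ tr y (bx L), ∑ x' ∈ tr y (bx L),
        (pz D x' (w y x) h) ^ 2 ∂(Mu D b)) := by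
  obtain ⟨C1, hC1, hsq⟩ := rho_square
  obtain ⟨C2, hC2, hcr⟩ := cross_term
  refine ⟨C1 + 2 * C2, by linarith, ?_⟩
  intro L hL D A b ψ l H Y hY M hM hfar w k hk hw h0 hwk hdep
  have hb := H.hb
  have ha : Nice D b (tG D b A ψ) := tG_nice H
  have hl0 : 0 ≤ l := (abs_nonneg _).trans (H.hl 0 0)
  have hbox : ∀ y ∈ Y, tr y (bx L) ⊆ D := fun y hy => (hY.sub y hy).trans H.hA
  have h0' : ∀ y ∈ Y, ∀ x ∉ tr y (bx L), ∀ h, w y x h = 0 := by
    intro y hy x hx h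
    refine h0 y hy x (fun hx' => hx ?_) h
    refine tch_sub hx' ?_
    rw [sub_self, (dn_zero_iff 0).2 rfl]
    norm_num
  -- expand
  have hdv : ∀ h, dv D (fun x h => tG D b A ψ x h + ∑ y ∈ Y, w y x h) h =
      dv D (tG D b A ψ) h + ∑ y ∈ Y, dv D (w y) h := by
    intro h
    rw [dv_add (w := tG D b A ψ) (v := fun x h => ∑ y ∈ Y, w y x h) (fun x => ha.sm x)
      (fun x => ContDiff.sum fun y hy => (hw y hy).sm x) h]
    rw [dv_sum Y (fun y hy x => (hw y hy).sm x) h]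
  have hca : Continuous (dv D (tG D b A ψ)) := (dv_smooth ha).continuous
  have hcw : ∀ y ∈ Y, Continuous (dv D (w y)) := fun y hy => (dv_smooth (hw y hy)).continuous
  have hI1 : Integrable (fun h => (dv D (tG D b A ψ) h) ^ 2) (Mu D b) := int_K hb (hca.pow 2)
  have hI2 : ∀ y ∈ Y, Integrable (fun h => dv D (w y) h * dv D (tG D b A ψ) h) (Mu D b) :=
    fun y hy => int_K hb ((hcw y hy).mul hca)
  have hI3 : ∀ y ∈ Y, ∀ y' ∈ Y, Integrable (fun h => dv D (w y) h * dv D (w y') h) (Mu D b) :=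
    fun y hy y' hy' => int_K hb ((hcw y hy).mul (hcw y' hy'))
  have hexp : ∫ h, (dv D (fun x h => tG D b A ψ x h + ∑ y ∈ Y, w y x h) h) ^ 2 ∂(Mu D b) =
      (∫ h, (dv D (tG D b A ψ) h) ^ 2 ∂(Mu D b)) +
      2 * (∑ y ∈ Y, ∫ h, dv D (w y) h * dv D (tG D b A ψ) h ∂(Mu D b)) +
      ∑ y ∈ Y, ∑ y' ∈ Y, ∫ h, dv D (w y) h * dv D (w y') h ∂(Mu D b) := by
    rw [← integral_finsetSum Y hI2]
    have e1 : ∀ y ∈ Y, ∑ y' ∈ Y, ∫ h, dv D (w y) h * dv D (w y') h ∂(Mu D b) =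
        ∫ h, ∑ y' ∈ Y, dv D (w y) h * dv D (w y') h ∂(Mu D b) := fun y hy =>
      (integral_finsetSum Y (hI3 y hy)).symm
    rw [Finset.sum_congr rfl e1]
    have hI4 : ∀ y ∈ Y, Integrable (fun h => ∑ y' ∈ Y, dv D (w y) h * dv D (w y') h) (Mu D b) :=
      fun y hy => integrable_finsetSum Y (hI3 y hy)
    rw [← integral_finsetSum Y hI4,
      (tch_int3 hI1 (integrable_finsetSum Y hI2) (integrable_finsetSum Y hI4)).2]
    refine integral_congr_ae (Filter.Eventually.of_forall fun h => ?_)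
    simp only
    rw [hdv h, ← Finset.sum_mul_sum, ← Finset.sum_mul]
    ring
  -- mixed terms
  have hmix : ∀ y ∈ Y, ∑ y' ∈ Y, ∫ h, dv D (w y) h * dv D (w y') h ∂(Mu D b) =
      ∫ h, ∑ x ∈ tr y (bx L), ∑ x' ∈ tr y (bx L),
        pz D x' (w y x) h * pz D x (w y x') h ∂(Mu D b) := by
    intro y hy
    rw [Finset.sum_eq_single y]
    · exact tch_self hb (hbox y hy) (hw y hy) (h0' y hy)
    · intro y' hy' hne
      exact dv_orth2 hb (hw y hy) (hw y' hy') (h0 y hy) (hdep y' hy')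
        (tch_dis hY hy hy' hne.symm)
    · intro h
      exact absurd hy h
  rw [hexp, Finset.sum_congr rfl hmix]
  have s1 := hsq L hL D A b ψ l H Y hY M hM hfar
  have s2 : ∀ y ∈ Y, ∫ h, dv D (w y) h * dv D (tG D b A ψ) h ∂(Mu D b) ≤
      (∫ h, ∑ x ∈ tr y (bx L), ∑ x' ∈ tr y (bx L),
        pz D x' (w y x) h * pz D x (tG D b A ψ x') h ∂(Mu D b)) + (C2 * k * l +
      C2 * l * Real.sqrt (∫ h, ∑ x ∈ tr y (bx L), ∑ x' ∈ tr y (bx L),
        (pz D x' (w y x) h) ^ 2 ∂(Mu D b))) := by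
    intro y hy
    have h1 := hcr L hL D A b ψ l H y (hY.sub y hy) (w y) k (hw y hy) (h0 y hy) hk (hwk y hy)
    have h2 := (abs_le.1 h1).2
    linarith
  have s3 := Finset.sum_le_sum s2
  have s4 : ∀ y ∈ Y, _ := fun y hy => tch_box hb (tr y (bx L)) (fun x => ha.sm x)
    (fun x => (hw y hy).sm x)
  have s5 := Finset.sum_le_sum s4
  simp only [Finset.sum_add_distrib, ← Finset.mul_sum] at s3 s5
  rw [Finset.sum_const, nsmul_eq_mul] at s3
  have hS : 0 ≤ ∑ y ∈ Y, Real.sqrt (∫ h, ∑ x ∈ tr y (bx L), ∑ x' ∈ tr y (bx L),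
        (pz D x' (w y x) h) ^ 2 ∂(Mu D b)) := Finset.sum_nonneg fun _ _ => Real.sqrt_nonneg _
  have hQ : 0 ≤ l ^ 2 * (Y.card * (L * Real.sqrt L) + A.card / M) := by
    have : 0 < M := by linarith
    positivity
  have hkl : 0 ≤ k * l * Y.card := by positivity
  have hlS := mul_nonneg hl0 hS
  nlinarith [s1, s3, s5, mul_nonneg (by linarith : (0 : ℝ) ≤ C2) hQ,
    mul_nonneg (by linarith : (0 : ℝ) ≤ C1) hkl, mul_nonneg (by linarith : (0 : ℝ) ≤ C1) hlS]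

/- END tch -/

end Pool.Agent.Hmk
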