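import Pool.Agent.Hmk.TfC

/-!
# Hmk, trial field (4): the energy of one box
-/

set_option autoImplicit false

open MeasureTheory Set Filter ProbabilityTheory

open scoped ENNReal ContDiff Topology

noncomputable section

namespace Pool.Agent.Hmk

/-- the box field of the box at `y` with side `L` and the cut-off `ph L t` -/
def bW (D : Finset (ℤ × ℤ)) (b : ℤ × ℤ → ℝ) (L : ℕ) (t : ℝ) (y : ℤ × ℤ) (ψ : ℤ × ℤ → ℝ)
    (c k : ℝ) (v : ℤ × ℤ → (D → ℝ) → ℝ) : ℤ × ℤ → (D → ℝ) → ℝ :=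
  tW D b (tr y (bx L)) (tr y (Bo L)) (fun z => ph L t (z - y)) ψ c k v

/-- its weight -/
def bT (D : Finset (ℤ × ℤ)) (b : ℤ × ℤ → ℝ) (L : ℕ) (t : ℝ) (y : ℤ × ℤ) (ψ : ℤ × ℤ → ℝ)
    (c k : ℝ) (v : ℤ × ℤ → (D → ℝ) → ℝ) : ℤ × ℤ → (D → ℝ) → ℝ :=
  tT D b (tr y (bx L)) (tr y (Bo L)) (fun z => ph L t (z - y)) ψ c k v

/-- its cut-off -/
def bE (D : Finset (ℤ × ℤ)) (b : ℤ × ℤ → ℝ) (L : ℕ) (t : ℝ) (y : ℤ × ℤ) :
    ℤ × ℤ → (D → ℝ) → ℝ :=
  tE D b (tr y (bx L)) (fun z => ph L t (z - y))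

/-- its argument -/
def bU (D : Finset (ℤ × ℤ)) (b : ℤ × ℤ → ℝ) (L : ℕ) (y : ℤ × ℤ) (ψ : ℤ × ℤ → ℝ)
    (c : ℝ) (v : ℤ × ℤ → (D → ℝ) → ℝ) : ℤ × ℤ → (D → ℝ) → ℝ :=
  tU D b (tr y (bx L)) (tr y (Bo L)) ψ c v

/- MODULE tda
The derivative (`pz` of a product and of `Tk k ∘ tU`):
`pz (rho + w) = (1 - T) pz rho + T pz (v - avg v) + T (pz rho - pz rho^B) + Tk(U) pz E`, `T = bT x`. -/

private theorem tda_const {S : Finset (ℤ × ℤ)} {y : ℤ × ℤ} (c : ℝ) (k : S → ℝ) :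
    pz S y (fun _ => c) k = 0 := by
  unfold pz
  split_ifs
  · unfold pd
    simp
  · rfl

private theorem tda_sub {S : Finset (ℤ × ℤ)} {y : ℤ × ℤ} {f g : (S → ℝ) → ℝ} {k : S → ℝ}
    (hf : DifferentiableAt ℝ f k) (hg : DifferentiableAt ℝ g k) :
    pz S y (fun k => f k - g k) k = pz S y f k - pz S y g k := by
  have e : (fun k => f k - g k) = fun k => f k + (-1 : ℝ) * g k := by
    funext k
    ring
  rw [e, pz_add hf (hg.const_mul _), pz_smul _ hg]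
  ring

private theorem tda_sum {S : Finset (ℤ × ℤ)} {y : ℤ × ℤ} {ι : Type*} (s : Finset ι)
    {f : ι → (S → ℝ) → ℝ} {k : S → ℝ} (hf : ∀ i ∈ s, DifferentiableAt ℝ (f i) k) :
    pz S y (fun k => ∑ i ∈ s, f i k) k = ∑ i ∈ s, pz S y (f i) k := by
  classical
  induction s using Finset.induction_on with
  | empty =>
    simp only [Finset.sum_empty]
    exact tda_const 0 k
  | insert i s hi ih =>
    have h1 : DifferentiableAt ℝ (fun k => ∑ j ∈ s, f j k) k :=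
      DifferentiableAt.fun_sum fun j hj => hf j (Finset.mem_insert_of_mem hj)
    simp only [Finset.sum_insert hi]
    rw [pz_add (hf i (Finset.mem_insert_self _ _)) h1,
      ih fun j hj => hf j (Finset.mem_insert_of_mem hj)]

theorem bW_pz {D : Finset (ℤ × ℤ)} (b : ℤ × ℤ → ℝ) (A : Finset (ℤ × ℤ)) (L : ℕ) (t : ℝ)
    (y : ℤ × ℤ) (ψ : ℤ × ℤ → ℝ) (c : ℝ) {k : ℝ} (hk : 0 < k) {v : ℤ × ℤ → (D → ℝ) → ℝ}
    (hv : ∀ x, ContDiff ℝ ∞ (v x)) (x z : ℤ × ℤ) (h : D → ℝ) :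
    pz D z (fun h => tG D b A ψ x h + bW D b L t y ψ c k v x h) h =
      (1 - bT D b L t y ψ c k v x h) * pz D z (tG D b A ψ x) h +
      bT D b L t y ψ c k v x h *
        (pz D z (v x) h - avf (tr y (Bo L)) (fun u => pz D z (v u) h)) +
      bT D b L t y ψ c k v x h * (pz D z (tG D b A ψ x) h - pz D z (tR D b (tr y (bx L)) ψ x) h) +
      Tk k (bU D b L y ψ c v x h) * pz D z (bE D b L t y x) h := by
  have hG := tG_smooth D b A ψ x
  have hE := tE_smooth D b (tr y (bx L)) (fun z => ph L t (z - y)) x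
  have hR := tR_smooth D b (tr y (bx L)) ψ x
  have hT := Tk_smooth hk
  have dv : ∀ u, DifferentiableAt ℝ (v u) h := fun u =>
    ((hv u).differentiable (by simp)).differentiableAt
  have dR : DifferentiableAt ℝ (tR D b (tr y (bx L)) ψ x) h :=
    (hR.differentiable (by simp)).differentiableAt
  have dG : DifferentiableAt ℝ (tG D b A ψ x) h :=
    (hG.differentiable (by simp)).differentiableAt
  have hS : ContDiff ℝ ∞ (fun h : D → ℝ => ∑ u ∈ tr y (Bo L), v u h) :=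
    ContDiff.sum fun u _ => hv u
  have dS : DifferentiableAt ℝ (fun h : D → ℝ => ∑ u ∈ tr y (Bo L), v u h) h :=
    (hS.differentiable (by simp)).differentiableAt
  have hA : ContDiff ℝ ∞ (fun h : D → ℝ => ((tr y (Bo L)).card : ℝ)⁻¹ *
      ∑ u ∈ tr y (Bo L), v u h) := contDiff_const.mul hS
  have dA := (hA.differentiable (by simp)).differentiableAt (x := h)
  have hU : ContDiff ℝ ∞ (bU D b L y ψ c v x) := by
    have := (((hv x).sub hA).add (contDiff_const (c := c))).sub hR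
    exact this
  have dU : DifferentiableAt ℝ (bU D b L y ψ c v x) h :=
    (hU.differentiable (by simp)).differentiableAt
  have e1 : pz D z (bU D b L y ψ c v x) h = pz D z (v x) h -
      avf (tr y (Bo L)) (fun u => pz D z (v u) h) - pz D z (tR D b (tr y (bx L)) ψ x) h := by
    have s1 : pz D z (bU D b L y ψ c v x) h = pz D z (fun h => v x h -
        ((tr y (Bo L)).card : ℝ)⁻¹ * ∑ u ∈ tr y (Bo L), v u h + c) h -
        pz D z (tR D b (tr y (bx L)) ψ x) h :=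
      tda_sub (((dv x).sub dA).add (differentiableAt_const c)) dR
    have s2 : pz D z (fun h => v x h -
        ((tr y (Bo L)).card : ℝ)⁻¹ * ∑ u ∈ tr y (Bo L), v u h + c) h = pz D z (fun h => v x h -
        ((tr y (Bo L)).card : ℝ)⁻¹ * ∑ u ∈ tr y (Bo L), v u h) h + pz D z (fun _ => c) h :=
      pz_add ((dv x).sub dA) (differentiableAt_const c)
    have s3 : pz D z (fun h => v x h -
        ((tr y (Bo L)).card : ℝ)⁻¹ * ∑ u ∈ tr y (Bo L), v u h) h = pz D z (v x) h -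
        pz D z (fun h => ((tr y (Bo L)).card : ℝ)⁻¹ * ∑ u ∈ tr y (Bo L), v u h) h :=
      tda_sub (dv x) dA
    have s4 : pz D z (fun h => ((tr y (Bo L)).card : ℝ)⁻¹ * ∑ u ∈ tr y (Bo L), v u h) h =
        ((tr y (Bo L)).card : ℝ)⁻¹ * pz D z (fun h => ∑ u ∈ tr y (Bo L), v u h) h :=
      pz_smul _ dS
    rw [s1, s2, s3, s4, tda_const, tda_sum _ fun u _ => dv u]
    unfold avf
    ring
  have e2 : pz D z (fun h => Tk k (bU D b L y ψ c v x h)) h =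
      deriv (Tk k) (bU D b L y ψ c v x h) * pz D z (bU D b L y ψ c v x) h :=
    pz_comp dU ((hT.differentiable (by simp)).differentiableAt)
  have e3 : pz D z (bW D b L t y ψ c k v x) h = bE D b L t y x h *
      pz D z (fun h => Tk k (bU D b L y ψ c v x h)) h +
      pz D z (bE D b L t y x) h * Tk k (bU D b L y ψ c v x h) :=
    pz_mul hE (hT.comp hU) z h
  have hW : ContDiff ℝ ∞ (bW D b L t y ψ c k v x) := hE.mul (hT.comp hU)
  have e4 : pz D z (fun h => tG D b A ψ x h + bW D b L t y ψ c k v x h) h =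
      pz D z (tG D b A ψ x) h + pz D z (bW D b L t y ψ c k v x) h :=
    pz_add dG ((hW.differentiable (by simp)).differentiableAt)
  have e5 : bT D b L t y ψ c k v x h = bE D b L t y x h *
      deriv (Tk k) (bU D b L y ψ c v x h) := rfl
  rw [e4, e3, e2, e1, e5]
  ring

/- END tda -/

/- MODULE tdb
Real inequalities: `0 ≤ s ≤ 1`, `0 < q`: `((1-s) a + s d + e)² ≤ (1 + q) ((1-s) a² + s d²) +
(1 + 1/q) e²` (convexity), and `∑ (a - avg a)² ≤ ∑ a²` over a finite set. -/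

theorem conv_ineq {s q a d e : ℝ} (h0 : 0 ≤ s) (h1 : s ≤ 1) (hq : 0 < q) :
    ((1 - s) * a + s * d + e) ^ 2 ≤ (1 + q) * ((1 - s) * a ^ 2 + s * d ^ 2) +
      (1 + 1 / q) * e ^ 2 := by
  have h2 : 0 ≤ s * (1 - s) * (a - d) ^ 2 :=
    mul_nonneg (mul_nonneg h0 (sub_nonneg.2 h1)) (sq_nonneg _)
  have h3 : ((1 - s) * a + s * d) ^ 2 ≤ (1 - s) * a ^ 2 + s * d ^ 2 := by nlinarith
  have h4 : 2 * ((1 - s) * a + s * d) * e ≤ q * ((1 - s) * a + s * d) ^ 2 + 1 / q * e ^ 2 := by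
    have h5 : 0 ≤ (q * ((1 - s) * a + s * d) - e) ^ 2 / q := by positivity
    have h6 : (q * ((1 - s) * a + s * d) - e) ^ 2 / q = q * ((1 - s) * a + s * d) ^ 2 -
        2 * ((1 - s) * a + s * d) * e + 1 / q * e ^ 2 := by
      field_simp
      ring
    linarith
  have h5 : 0 ≤ (1 + q) := by linarith
  have h6 := mul_le_mul_of_nonneg_left h3 h5
  nlinarith

theorem avf_ineq (F : Finset (ℤ × ℤ)) (a : ℤ × ℤ → ℝ) :
    ∑ x ∈ F, (a x - avf F a) ^ 2 ≤ ∑ x ∈ F, (a x) ^ 2 := by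
  rcases F.eq_empty_or_nonempty with rfl | hF
  · simp
  · have hn : (0 : ℝ) < F.card := by exact_mod_cast hF.card_pos
    obtain ⟨μ, hμ⟩ : ∃ μ : ℝ, μ = avf F a := ⟨_, rfl⟩
    have h1 : (F.card : ℝ) * μ = ∑ x ∈ F, a x := by
      rw [hμ]
      unfold avf
      rw [← mul_assoc, mul_inv_cancel₀ hn.ne', one_mul]
    rw [← hμ]
    have h2 : ∑ x ∈ F, (a x - μ) ^ 2 = ∑ x ∈ F, (a x) ^ 2 - 2 * μ * ∑ x ∈ F, a x +
        F.card * μ ^ 2 := by
      rw [Finset.mul_sum, ← Finset.sum_sub_distrib, ← nsmul_eq_mul, ← Finset.sum_const,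
        ← Finset.sum_add_distrib]
      refine Finset.sum_congr rfl fun x _ => ?_
      ring
    rw [h2, ← h1]
    nlinarith [mul_nonneg hn.le (sq_nonneg μ)]

/- END tdb -/

/- MODULE tdc
(iii): the two cluster fields `tG` (clusters in `A`) and `tR` (clusters in the box, edges inside the
box) have the same derivatives at `x ∈ tr y (Bo L)` if the cluster in `A` has less than `sqrt L` sites
(`rho_agree` with `U = Ui`, `U' = Uo A`; `small_cluster`); otherwise `rho_lip`, `Gx_mono`; `G_tail`. -/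

private theorem tdc_e0 : 0 < e0 := by
  unfold e0
  positivity

private theorem tdc_e1 : e0 ≤ 1 / 2 := by
  unfold e0
  norm_num

private theorem tdc_inn {L r : ℕ} {y z : ℤ × ℤ} (hz : z - y ∈ inn (bx L) r) : z ∈ tr y (bx L) := by
  refine mem_tr.2 (mem_inn.1 hz _ ?_)
  rw [sub_self, (dn_zero_iff 0).2 rfl]
  positivity

private theorem tdc_Bo {L : ℕ} {y x : ℤ × ℤ} (hx : x ∈ tr y (Bo L)) : x ∈ tr y (bx L) :=
  tdc_inn (mem_tr.1 hx)

private theorem tdc_card (L : ℕ) (y : ℤ × ℤ) : (tr y (bx L)).card ≤ L ^ 2 := by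
  unfold tr
  refine Finset.card_image_le.trans (le_of_eq ?_)
  unfold bx
  rw [Finset.card_product, Int.card_Ico]
  simp only [sub_zero, Int.toNat_natCast]
  ring

open scoped Classical in
theorem agree_small {L : ℕ} {D A : Finset (ℤ × ℤ)} {b ψ : ℤ × ℤ → ℝ} {l : ℝ}
    (H : Hb D A b ψ l) {y : ℤ × ℤ} (hy : tr y (bx L) ⊆ A) {x : ℤ × ℤ} (hx : x ∈ tr y (Bo L))
    (h : D → ℝ) (hc : (Gx e0 A (gl D b h) x).card < Nat.sqrt L) (z : ℤ × ℤ) :
    pz D z (tG D b A ψ x) h = pz D z (tR D b (tr y (bx L)) ψ x) h := by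
  have hxB : x ∈ tr y (bx L) := tdc_Bo hx
  have hxA : x ∈ A := hy hxB
  have hself : x ∈ Gx e0 A (gl D b h) x := Cmp_self _ hxA
  have hsm : ∀ w ∈ nb (Gx e0 A (gl D b h) x), w ∈ tr y (bx L) := fun w hw =>
    tdc_inn (small_cluster hx hxA (mem_nb.2 (Or.inl hself)) hc w hw)
  have hU : Ui (tr y (bx L)) ⊆ Uo A := by
    intro e he
    have h1 := (Finset.mem_filter.1 he).1
    simp only [Uo, Finset.mem_product, Finset.mem_univ, and_true] at h1 ⊢
    exact hy h1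
  have key := (rho_agree tdc_e0 tdc_e1 hU hy (Mav ψ) hxB D b h
    (fun w hw => hsm w (mem_nb.2 (Or.inl hw)))
    (fun w hw e _ _ ht => by
      have h12 : e.1 ∈ tr y (bx L) ∧ e.1 + st e.2 ∈ tr y (bx L) := by
        rcases ht with h1 | h1
        · subst h1
          refine ⟨hsm _ (mem_nb.2 (Or.inl hw)), hsm _ (mem_nb.2 (Or.inr ⟨e.2 + 3, ?_⟩))⟩
          rw [st_opp, add_neg_cancel_right]
          exact hw
        · refine ⟨hsm _ (mem_nb.2 (Or.inr ⟨e.2, ?_⟩)), hsm _ (mem_nb.2 (Or.inl ?_))⟩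
          · rw [h1]
            exact hw
          · rw [h1]
            exact hw
      refine ⟨?_, h12.2⟩
      simp only [Ui, Uo, Finset.mem_filter, Finset.mem_product, Finset.mem_univ, and_true]
      exact h12)).2.1 z
  exact key

theorem agree_mean : ∃ C : ℝ, 1 ≤ C ∧ ∀ (L : ℕ), 1 ≤ L → ∀ (D A : Finset (ℤ × ℤ))
    (b ψ : ℤ × ℤ → ℝ) (l : ℝ), Hb D A b ψ l → ∀ y : ℤ × ℤ, tr y (bx L) ⊆ A →
    ∫ h, ∑ x ∈ tr y (Bo L), ∑ z ∈ tr y (bx L),
      (pz D z (tG D b A ψ x) h - pz D z (tR D b (tr y (bx L)) ψ x) h) ^ 2 ∂(Mu D b) ≤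
      C * l ^ 2 * L := by
  classical
  obtain ⟨C1, hC1, hL1⟩ := rho_lip
  obtain ⟨C2, hC2, hT2⟩ := G_tail 3 2
  refine ⟨16 * C1 * C2, by nlinarith, ?_⟩
  intro L hL D A b ψ l H y hy
  set B := tr y (bx L) with hB
  have hBD : B ⊆ D := hy.trans H.hA
  have hL0 : (1 : ℝ) ≤ L := by exact_mod_cast hL
  have hs1 : 1 ≤ Nat.sqrt L := Nat.sqrt_pos.2 hL
  have hs2 : L ≤ 4 * (Nat.sqrt L) ^ 2 := by
    have h1 := Nat.lt_succ_sqrt L
    have h2 : L < (Nat.sqrt L + 1) * (Nat.sqrt L + 1) := h1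
    nlinarith
  have hs2' : (L : ℝ) ≤ 4 * ((Nat.sqrt L : ℕ) : ℝ) ^ 2 := by exact_mod_cast hs2
  have hs0 : (0 : ℝ) < ((Nat.sqrt L : ℕ) : ℝ) := by exact_mod_cast hs1
  have hpt : ∀ x ∈ tr y (Bo L), ∀ h : D → ℝ,
      ∑ z ∈ B, (pz D z (tG D b A ψ x) h - pz D z (tR D b B ψ x) h) ^ 2 ≤
      4 * C1 * l ^ 2 * (if ((Nat.sqrt L : ℕ) : ℝ) ≤ ((Gx e0 A (gl D b h) x).card : ℝ) then
        ((Gx e0 A (gl D b h) x).card : ℝ) ^ 3 else 0) := by
    intro x hx h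
    have hxB : x ∈ B := tdc_Bo hx
    by_cases hc : ((Nat.sqrt L : ℕ) : ℝ) ≤ ((Gx e0 A (gl D b h) x).card : ℝ)
    · rw [if_pos hc]
      have h1 := (hL1 (Uo A) A (Mav ψ) ψ (Mav_mean ψ) ⟨Finset.Subset.refl _, Or.inl H.h0⟩ l H.hl
        D b h x (hy hxB)).2.2.2
      have h2 := (hL1 (Ui B) B (Mav ψ) ψ (Mav_mean ψ)
        ⟨Finset.filter_subset _ _, Or.inr (Finset.Subset.refl _)⟩ l H.hl D b h x hxB).2.2.2
      have h3 : ((Gx e0 B (gl D b h) x).card : ℝ) ≤ ((Gx e0 A (gl D b h) x).card : ℝ) := by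
        exact_mod_cast Finset.card_le_card (Gx_mono hy (gl D b h) x)
      have h4 : ((Gx e0 B (gl D b h) x).card : ℝ) ^ 3 ≤ ((Gx e0 A (gl D b h) x).card : ℝ) ^ 3 :=
        pow_le_pow_left₀ (Nat.cast_nonneg _) h3 3
      have h5 : C1 * l ^ 2 * ((Gx e0 B (gl D b h) x).card : ℝ) ^ 3 ≤
          C1 * l ^ 2 * ((Gx e0 A (gl D b h) x).card : ℝ) ^ 3 :=
        mul_le_mul_of_nonneg_left h4 (mul_nonneg (by linarith) (sq_nonneg _))
      calc ∑ z ∈ B, (pz D z (tG D b A ψ x) h - pz D z (tR D b B ψ x) h) ^ 2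
          ≤ ∑ z ∈ D, (pz D z (tG D b A ψ x) h - pz D z (tR D b B ψ x) h) ^ 2 :=
            Finset.sum_le_sum_of_subset_of_nonneg hBD fun _ _ _ => sq_nonneg _
        _ ≤ ∑ z ∈ D, (2 * (pz D z (tG D b A ψ x) h) ^ 2 +
            2 * (pz D z (tR D b B ψ x) h) ^ 2) := by
            refine Finset.sum_le_sum fun z _ => ?_
            nlinarith [sq_nonneg (pz D z (tG D b A ψ x) h + pz D z (tR D b B ψ x) h)]
        _ = 2 * ∑ z ∈ D, (pz D z (tG D b A ψ x) h) ^ 2 +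
            2 * ∑ z ∈ D, (pz D z (tR D b B ψ x) h) ^ 2 := by
            rw [Finset.sum_add_distrib, Finset.mul_sum, Finset.mul_sum]
        _ ≤ 2 * (C1 * l ^ 2 * ((Gx e0 A (gl D b h) x).card : ℝ) ^ 3) +
            2 * (C1 * l ^ 2 * ((Gx e0 A (gl D b h) x).card : ℝ) ^ 3) :=
            add_le_add (mul_le_mul_of_nonneg_left h1 (by norm_num))
              (mul_le_mul_of_nonneg_left (h2.trans h5) (by norm_num))
        _ = 4 * C1 * l ^ 2 * ((Gx e0 A (gl D b h) x).card : ℝ) ^ 3 := by ring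
    · rw [if_neg hc, mul_zero]
      refine le_of_eq (Finset.sum_eq_zero fun z _ => ?_)
      have hc' : (Gx e0 A (gl D b h) x).card < Nat.sqrt L := by
        rw [not_le] at hc
        exact_mod_cast hc
      rw [agree_small H hy hx h hc' z, sub_self]
      norm_num
  have hint : ∀ x ∈ tr y (Bo L), Integrable (fun h : D → ℝ =>
      4 * C1 * l ^ 2 * (if ((Nat.sqrt L : ℕ) : ℝ) ≤ ((Gx e0 A (gl D b h) x).card : ℝ) then
        ((Gx e0 A (gl D b h) x).card : ℝ) ^ 3 else 0)) (Mu D b) := fun x hx =>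
    ((hT2 D A H.hA b H.hb x (hy (tdc_Bo hx)) _ hs0).1).const_mul _
  calc ∫ h, ∑ x ∈ tr y (Bo L), ∑ z ∈ B,
        (pz D z (tG D b A ψ x) h - pz D z (tR D b B ψ x) h) ^ 2 ∂(Mu D b)
      ≤ ∫ h, ∑ x ∈ tr y (Bo L), 4 * C1 * l ^ 2 *
          (if ((Nat.sqrt L : ℕ) : ℝ) ≤ ((Gx e0 A (gl D b h) x).card : ℝ) then
          ((Gx e0 A (gl D b h) x).card : ℝ) ^ 3 else 0) ∂(Mu D b) := by
        refine integral_mono_of_nonneg (ae_of_all _ fun h => ?_) (integrable_finsetSum _ hint)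
          (ae_of_all _ fun h => ?_)
        · exact Finset.sum_nonneg fun _ _ => Finset.sum_nonneg fun _ _ => sq_nonneg _
        · exact Finset.sum_le_sum fun x hx => hpt x hx h
    _ = ∑ x ∈ tr y (Bo L), ∫ h, 4 * C1 * l ^ 2 *
          (if ((Nat.sqrt L : ℕ) : ℝ) ≤ ((Gx e0 A (gl D b h) x).card : ℝ) then
          ((Gx e0 A (gl D b h) x).card : ℝ) ^ 3 else 0) ∂(Mu D b) := integral_finsetSum _ hint
    _ ≤ ∑ x ∈ tr y (Bo L), 4 * C1 * l ^ 2 * (4 * C2 / L) := by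
        refine Finset.sum_le_sum fun x hx => ?_
        rw [integral_const_mul]
        refine mul_le_mul_of_nonneg_left ?_ (mul_nonneg (by linarith) (sq_nonneg _))
        refine (hT2 D A H.hA b H.hb x (hy (tdc_Bo hx)) _ hs0).2.trans ?_
        rw [div_le_div_iff₀ (by positivity) (by linarith)]
        nlinarith
    _ = ((tr y (Bo L)).card : ℝ) * (4 * C1 * l ^ 2 * (4 * C2 / L)) := by
        rw [Finset.sum_const, nsmul_eq_mul]
    _ ≤ (L : ℝ) ^ 2 * (4 * C1 * l ^ 2 * (4 * C2 / L)) := by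
        refine mul_le_mul_of_nonneg_right ?_ ?_
        · have h1 : (tr y (Bo L)).card ≤ L ^ 2 :=
            (Finset.card_le_card fun x hx => tdc_Bo hx).trans (tdc_card L y)
          exact_mod_cast h1
        · have h2 : 0 ≤ 4 * C2 / (L : ℝ) := by positivity
          exact mul_nonneg (mul_nonneg (by linarith) (sq_nonneg _)) h2
    _ = 16 * C1 * C2 * l ^ 2 * L := by
        field_simp
        ring

/- END tdc -/

/- MODULE tdd
(iv): the derivatives of the cut-off (`rho_lip` for `Mmn`, `U = Uo`, increments `1 / (t L)`,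
`ph_lip`; `G_moment` with `A` replaced by the box). -/

private theorem tdd_inn {L r : ℕ} {y z : ℤ × ℤ} (hz : z - y ∈ inn (bx L) r) : z ∈ tr y (bx L) := by
  refine mem_tr.2 (mem_inn.1 hz _ ?_)
  rw [sub_self, (dn_zero_iff 0).2 rfl]
  positivity

private theorem tdd_card (L : ℕ) (y : ℤ × ℤ) : (tr y (bx L)).card ≤ L ^ 2 := by
  unfold tr
  refine Finset.card_image_le.trans (le_of_eq ?_)
  unfold bx
  rw [Finset.card_product, Int.card_Ico]
  simp only [sub_zero, Int.toNat_natCast]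
  ring

theorem cut_mean : ∃ C : ℝ, 1 ≤ C ∧ ∀ (L : ℕ), 1 ≤ L → ∀ (D A : Finset (ℤ × ℤ))
    (b ψ : ℤ × ℤ → ℝ) (l : ℝ), Hb D A b ψ l → ∀ y : ℤ × ℤ, tr y (bx L) ⊆ A →
    ∀ t : ℝ, 0 < t → t ≤ 1 →
    ∫ h, ∑ x ∈ tr y (bx L), ∑ z ∈ tr y (bx L), (pz D z (bE D b L t y x) h) ^ 2 ∂(Mu D b) ≤
      C / t ^ 2 := by
  obtain ⟨C1, hC1, hL1⟩ := rho_lip
  obtain ⟨C2, hC2, hM2⟩ := G_moment 3
  refine ⟨C1 * C2, by nlinarith, ?_⟩
  intro L hL D A b ψ l H y hy t ht ht1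
  set B := tr y (bx L) with hB
  have hBD : B ⊆ D := hy.trans H.hA
  have hL' : 0 < L := hL
  have hL0 : (0 : ℝ) < L := by exact_mod_cast hL'
  have hoff : ∀ z ∉ B, (fun z => ph L t (z - y)) z = 0 := by
    intro z hz
    refine ph_off hL' ht fun hz' => hz ?_
    exact tdd_inn hz'
  have hlip : ∀ x i, |(fun z => ph L t (z - y)) x - (fun z => ph L t (z - y)) (x + st i)| ≤
      1 / (t * L) := by
    intro x i
    have h1 := ph_lip hL' ht (x - y) i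
    have h2 : x - y + st i = x + st i - y := by abel
    rw [h2] at h1
    exact h1
  have hpt : ∀ x ∈ B, ∀ h : D → ℝ, ∑ z ∈ B, (pz D z (bE D b L t y x) h) ^ 2 ≤
      C1 * (1 / (t * L)) ^ 2 * ((Gx e0 B (gl D b h) x).card : ℝ) ^ 3 := by
    intro x hx h
    have h1 := (hL1 (Uo B) B (Mmn (fun z => ph L t (z - y))) (fun z => ph L t (z - y))
      (Mmn_mean _) ⟨Finset.Subset.refl _, Or.inl hoff⟩ _ hlip D b h x hx).2.2.2
    exact (Finset.sum_le_sum_of_subset_of_nonneg hBD fun _ _ _ => sq_nonneg _).trans h1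
  have hint : ∀ x ∈ B, Integrable (fun h : D → ℝ =>
      C1 * (1 / (t * L)) ^ 2 * ((Gx e0 B (gl D b h) x).card : ℝ) ^ 3) (Mu D b) := fun x hx =>
    ((hM2 D B hBD b H.hb x hx).1).const_mul _
  have hc0 : 0 ≤ C1 * (1 / (t * L)) ^ 2 := mul_nonneg (by linarith) (sq_nonneg _)
  calc ∫ h, ∑ x ∈ B, ∑ z ∈ B, (pz D z (bE D b L t y x) h) ^ 2 ∂(Mu D b)
      ≤ ∫ h, ∑ x ∈ B, C1 * (1 / (t * L)) ^ 2 * ((Gx e0 B (gl D b h) x).card : ℝ) ^ 3 ∂(Mu D b) := by
        refine integral_mono_of_nonneg (ae_of_all _ fun h => ?_) (integrable_finsetSum _ hint)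
          (ae_of_all _ fun h => ?_)
        · exact Finset.sum_nonneg fun _ _ => Finset.sum_nonneg fun _ _ => sq_nonneg _
        · exact Finset.sum_le_sum fun x hx => hpt x hx h
    _ = ∑ x ∈ B, ∫ h, C1 * (1 / (t * L)) ^ 2 * ((Gx e0 B (gl D b h) x).card : ℝ) ^ 3 ∂(Mu D b) :=
        integral_finsetSum _ hint
    _ ≤ ∑ x ∈ B, C1 * (1 / (t * L)) ^ 2 * C2 := by
        refine Finset.sum_le_sum fun x hx => ?_
        rw [integral_const_mul]
        exact mul_le_mul_of_nonneg_left (hM2 D B hBD b H.hb x hx).2 hc0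
    _ = (B.card : ℝ) * (C1 * (1 / (t * L)) ^ 2 * C2) := by
        rw [Finset.sum_const, nsmul_eq_mul]
    _ ≤ (L : ℝ) ^ 2 * (C1 * (1 / (t * L)) ^ 2 * C2) := by
        refine mul_le_mul_of_nonneg_right ?_ (mul_nonneg hc0 (by linarith))
        exact_mod_cast tdd_card L y
    _ = C1 * C2 / t ^ 2 := by
        field_simp

/- END tdd -/

/- MODULE tde
(ii): `E (1 - T) |d rho|² ≤ (E (1 - T)²)^(1/2) (E |d rho|⁴)^(1/2)`, `(1 - T)² ≤ 1 - T`, `rho_lip`,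
`G_moment`; then Cauchy-Schwarz in the sum over the box (`card = L²`). -/

private theorem tde_cs {α : Type*} [MeasurableSpace α] {μ : Measure α} {f g : α → ℝ}
    (hf : Integrable (fun a => f a ^ 2) μ) (hg : Integrable (fun a => g a ^ 2) μ)
    (hfg : Integrable (fun a => f a * g a) μ) :
    ∫ a, f a * g a ∂μ ≤ Real.sqrt (∫ a, f a ^ 2 ∂μ) * Real.sqrt (∫ a, g a ^ 2 ∂μ) := by
  have key : ∀ t : ℝ, 0 ≤ (∫ a, g a ^ 2 ∂μ) * (t * t) + (-(2 * ∫ a, f a * g a ∂μ)) * t +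
      ∫ a, f a ^ 2 ∂μ := by
    intro t
    have h0 : 0 ≤ ∫ a, (f a - t * g a) ^ 2 ∂μ := integral_nonneg fun a => sq_nonneg _
    have e : ∫ a, (f a - t * g a) ^ 2 ∂μ = ∫ a, ((f a ^ 2 - (2 * t) * (f a * g a)) +
        t ^ 2 * g a ^ 2) ∂μ := by
      congr 1
      funext a
      ring
    have i1 : Integrable (fun a => f a ^ 2 - (2 * t) * (f a * g a)) μ :=
      hf.sub (hfg.const_mul _)
    rw [e, integral_add i1 (hg.const_mul _),
      integral_sub hf (hfg.const_mul _), integral_const_mul, integral_const_mul] at h0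
    linarith
  have h1 := discrim_le_zero key
  unfold discrim at h1
  rw [← Real.sqrt_mul (integral_nonneg fun a => sq_nonneg _)]
  refine Real.le_sqrt_of_sq_le ?_
  nlinarith

private theorem tde_sum (s : Finset (ℤ × ℤ)) {f : ℤ × ℤ → ℝ} (h0 : ∀ x ∈ s, 0 ≤ f x) :
    ∑ x ∈ s, Real.sqrt (f x) ≤ Real.sqrt s.card * Real.sqrt (∑ x ∈ s, f x) := by
  have h1 := Finset.sum_mul_sq_le_sq_mul_sq s (fun _ => (1 : ℝ)) (fun x => Real.sqrt (f x))
  have e1 : ∑ x ∈ s, Real.sqrt (f x) ^ 2 = ∑ x ∈ s, f x :=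
    Finset.sum_congr rfl fun x hx => Real.sq_sqrt (h0 x hx)
  simp only [one_mul, one_pow, Finset.sum_const, nsmul_eq_mul, mul_one] at h1
  rw [e1] at h1
  rw [← Real.sqrt_mul (Nat.cast_nonneg _)]
  exact Real.le_sqrt_of_sq_le h1

private theorem tde_card (y : ℤ × ℤ) (n : ℕ) : (tr y (bx n)).card = n ^ 2 := by
  have h : (tr y (bx n)).card = (bx n).card := by
    unfold tr
    exact Finset.card_image_of_injective _ (add_right_injective y)
  rw [h]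
  unfold bx
  rw [Finset.card_product, Int.card_Ico, sub_zero, Int.toNat_natCast]
  ring

theorem low_mean : ∃ C : ℝ, 1 ≤ C ∧ ∀ (L : ℕ), 1 ≤ L → ∀ (D A : Finset (ℤ × ℤ))
    (b ψ : ℤ × ℤ → ℝ) (l : ℝ), Hb D A b ψ l → ∀ y : ℤ × ℤ, tr y (bx L) ⊆ A →
    ∀ (T : ℤ × ℤ → (D → ℝ) → ℝ), (∀ x, Continuous (T x)) → (∀ x h, 0 ≤ T x h ∧ T x h ≤ 1) →
    ∫ h, ∑ x ∈ tr y (bx L), (1 - T x h) * ∑ z ∈ tr y (bx L), (pz D z (tG D b A ψ x) h) ^ 2
      ∂(Mu D b) ≤ C * l ^ 2 * L * Real.sqrt (∑ x ∈ tr y (bx L), ∫ h, (1 - T x h) ∂(Mu D b)) := by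
  obtain ⟨C1, hC1, H1⟩ := rho_lip
  obtain ⟨C2, hC2, H2⟩ := G_moment 6
  obtain ⟨C3, hC3, H3⟩ := G_moment 3
  have hs2 : 1 ≤ Real.sqrt C2 := Real.one_le_sqrt.2 hC2
  refine ⟨C1 * Real.sqrt C2, by nlinarith, ?_⟩
  intro L hL D A b ψ l H y hy T hTc hT
  have hP : IsProbabilityMeasure (Mu D b) := prob H.hb
  have hBD : tr y (bx L) ⊆ D := hy.trans H.hA
  have hcont : ∀ x, Continuous (fun h : D → ℝ => (1 - T x h) * ∑ z ∈ tr y (bx L),
      (pz D z (tG D b A ψ x) h) ^ 2) := fun x =>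
    (continuous_const.sub (hTc x)).mul (continuous_finsetSum _ fun z _ =>
      (((pz_smooth (tG_smooth D b A ψ x) z).continuous).pow 2))
  rw [integral_finsetSum _ fun x _ => int_K H.hb (hcont x)]
  have hone : ∀ x ∈ tr y (bx L), ∫ h, (1 - T x h) * ∑ z ∈ tr y (bx L),
      (pz D z (tG D b A ψ x) h) ^ 2 ∂(Mu D b) ≤
      (C1 * l ^ 2 * Real.sqrt C2) * Real.sqrt (∫ h, (1 - T x h) ∂(Mu D b)) := by
    intro x hx
    have hUA : UA (Uo A) A ψ := ⟨Finset.Subset.refl _, Or.inl H.h0⟩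
    obtain ⟨g, hg⟩ : ∃ g : (D → ℝ) → ℝ, g = fun h => ((Gx e0 A (gl D b h) x).card : ℝ) :=
      ⟨_, rfl⟩
    have hg0 : ∀ h, 0 ≤ g h := fun h => by
      rw [hg]
      positivity
    have i6 := H2 D A H.hA b H.hb x (hy hx)
    have i3 := H3 D A H.hA b H.hb x (hy hx)
    have e6 : (fun h : D → ℝ => ((Gx e0 A (gl D b h) x).card : ℝ) ^ 6) =
        fun h => (g h ^ 3) ^ 2 := by
      funext h
      rw [hg, ← pow_mul]
    have e3 : (fun h : D → ℝ => ((Gx e0 A (gl D b h) x).card : ℝ) ^ 3) = fun h => g h ^ 3 := by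
      rw [hg]
    rw [e6] at i6
    rw [e3] at i3
    have hTcx : Continuous (fun h : D → ℝ => 1 - T x h) := continuous_const.sub (hTc x)
    have j1 : Integrable (fun h => 1 - T x h) (Mu D b) := int_K H.hb hTcx
    have j2 : Integrable (fun h => (1 - T x h) ^ 2) (Mu D b) := int_K H.hb (hTcx.pow 2)
    have j3 : Integrable (fun h => (1 - T x h) * g h ^ 3) (Mu D b) := by
      refine Integrable.mono' i3.1 (hTcx.aestronglyMeasurable.mul i3.1.aestronglyMeasurable)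
        (ae_of_all _ fun h => ?_)
      rw [Real.norm_eq_abs, abs_mul, abs_of_nonneg (sub_nonneg.2 (hT x h).2),
        abs_of_nonneg (pow_nonneg (hg0 h) 3)]
      have := mul_le_mul_of_nonneg_right (show 1 - T x h ≤ 1 by linarith [(hT x h).1])
        (pow_nonneg (hg0 h) 3)
      linarith
    have hpt : ∀ h, (1 - T x h) * ∑ z ∈ tr y (bx L), (pz D z (tG D b A ψ x) h) ^ 2 ≤
        C1 * l ^ 2 * ((1 - T x h) * g h ^ 3) := by
      intro h
      have h1 := (H1 (Uo A) A (Mav ψ) ψ (Mav_mean ψ) hUA l H.hl D b h x (hy hx)).2.2.2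
      have h2 : ∑ z ∈ tr y (bx L), (pz D z (tG D b A ψ x) h) ^ 2 ≤
          ∑ z ∈ D, (pz D z (tG D b A ψ x) h) ^ 2 :=
        Finset.sum_le_sum_of_subset_of_nonneg hBD fun _ _ _ => sq_nonneg _
      have h3 : ∑ z ∈ D, (pz D z (tG D b A ψ x) h) ^ 2 ≤ C1 * l ^ 2 * g h ^ 3 := by
        rw [hg]
        exact h1
      have h4 := mul_le_mul_of_nonneg_left (h2.trans h3) (sub_nonneg.2 (hT x h).2)
      linarith
    have hm := integral_mono (int_K H.hb (hcont x)) (j3.const_mul (C1 * l ^ 2)) hpt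
    rw [integral_const_mul] at hm
    refine hm.trans ?_
    have hc := tde_cs j2 i6.1 j3
    have k1 : Real.sqrt (∫ h, (1 - T x h) ^ 2 ∂(Mu D b)) ≤
        Real.sqrt (∫ h, (1 - T x h) ∂(Mu D b)) := by
      refine Real.sqrt_le_sqrt (integral_mono j2 j1 fun h => ?_)
      have h1 := hT x h
      show (1 - T x h) ^ 2 ≤ 1 - T x h
      nlinarith [h1.1, h1.2]
    have k2 : Real.sqrt (∫ h, (g h ^ 3) ^ 2 ∂(Mu D b)) ≤ Real.sqrt C2 :=
      Real.sqrt_le_sqrt i6.2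
    have k3 : ∫ h, (1 - T x h) * g h ^ 3 ∂(Mu D b) ≤
        Real.sqrt (∫ h, (1 - T x h) ∂(Mu D b)) * Real.sqrt C2 :=
      hc.trans (mul_le_mul k1 k2 (Real.sqrt_nonneg _) (Real.sqrt_nonneg _))
    have k4 := mul_le_mul_of_nonneg_left k3 (show 0 ≤ C1 * l ^ 2 by positivity)
    linarith
  refine (Finset.sum_le_sum hone).trans ?_
  rw [← Finset.mul_sum]
  have hcs := tde_sum (tr y (bx L)) (f := fun x => ∫ h, (1 - T x h) ∂(Mu D b)) fun x _ =>
    integral_nonneg fun h => sub_nonneg.2 (hT x h).2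
  have hcard : Real.sqrt ((tr y (bx L)).card : ℝ) = L := by
    rw [tde_card]
    push_cast
    exact Real.sqrt_sq (Nat.cast_nonneg L)
  rw [hcard] at hcs
  have k4 := mul_le_mul_of_nonneg_left hcs (show 0 ≤ C1 * l ^ 2 * Real.sqrt C2 by positivity)
  linarith

/- END tde -/

/- MODULE tdf
THE ENERGY OF A BOX.  `bW_pz`, `conv_ineq` (with `e` = the last two terms), `avf_ineq` for every
`z` (the weight `bT` is zero off `tr y (Bo L)` and `≤ 1`), `low_mean`, `agree_mean`, `cut_mean`,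
`Tk_bound`. -/

private theorem tdf_Bo (L : ℕ) : Bo L ⊆ bx L := fun x hx => mem_inn.1 hx x (by
  rw [sub_self, (dn_zero_iff 0).2 rfl]
  positivity)

theorem box_energy : ∃ C : ℝ, 1 ≤ C ∧ ∀ (L : ℕ), 1 ≤ L → ∀ (D A : Finset (ℤ × ℤ))
    (b ψ : ℤ × ℤ → ℝ) (l : ℝ), Hb D A b ψ l → ∀ y : ℤ × ℤ, tr y (bx L) ⊆ A →
    ∀ t : ℝ, 0 < t → t ≤ 1 → ∀ q : ℝ, 0 < q → q ≤ 1 → ∀ (c k : ℝ), 0 < k →
    ∀ v : ℤ × ℤ → (D → ℝ) → ℝ, LNice D (tr y (bx L)) v →
    ∫ h, ∑ x ∈ tr y (bx L), ∑ z ∈ tr y (bx L),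
      (pz D z (fun h => tG D b A ψ x h + bW D b L t y ψ c k v x h) h) ^ 2 ∂(Mu D b) ≤
      (1 + q) * (∫ h, en D (tr y (bx L)) v h ∂(Mu D b)) +
      C * l ^ 2 * L * Real.sqrt (∑ x ∈ tr y (bx L), ∫ h, (1 - bT D b L t y ψ c k v x h) ∂(Mu D b)) +
      C / q * (l ^ 2 * L + k ^ 2 / t ^ 2) := by
  obtain ⟨C1, hC1, H1⟩ := low_mean
  obtain ⟨C2, hC2, H2⟩ := agree_mean
  obtain ⟨C3, hC3, H3⟩ := cut_mean
  refine ⟨2 * C1 + 4 * (C2 + C3), by linarith, ?_⟩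
  intro L hL D A b ψ l H y hy t ht0 ht1 q hq0 hq1 c k hk v hv
  have hP : IsProbabilityMeasure (Mu D b) := prob H.hb
  have hLpos : 0 < L := hL
  have hBD : tr y (bx L) ⊆ D := hy.trans H.hA
  have hφ : ∀ z, 0 ≤ ph L t (z - y) ∧ ph L t (z - y) ≤ 1 := fun z => ph_mem L t _
  obtain ⟨B, hB⟩ : ∃ B : Finset (ℤ × ℤ), B = tr y (bx L) := ⟨_, rfl⟩
  obtain ⟨B', hB'⟩ : ∃ B' : Finset (ℤ × ℤ), B' = tr y (Bo L) := ⟨_, rfl⟩
  have hsub : B' ⊆ B := by
    rw [hB, hB']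
    intro x hx
    exact mem_tr.2 (tdf_Bo L (mem_tr.1 hx))
  obtain ⟨T, hT⟩ : ∃ T : ℤ × ℤ → (D → ℝ) → ℝ, T = bT D b L t y ψ c k v := ⟨_, rfl⟩
  have hT01 : ∀ x h, 0 ≤ T x h ∧ T x h ≤ 1 := fun x h => by
    rw [hT]
    have h1 := tT_mem (D := D) (b := b) (B := tr y (bx L)) (tr y (Bo L)) hφ ψ c hk v x h
    exact ⟨h1.1, h1.2.1.trans (hφ x).2⟩
  have hTo : ∀ x, x ∉ B' → ∀ h, T x h = 0 := fun x hx h => by
    refine le_antisymm ?_ (hT01 x h).1
    rw [hT]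
    have h1 := tT_mem (D := D) (b := b) (B := tr y (bx L)) (tr y (Bo L)) hφ ψ c hk v x h
    refine h1.2.1.trans (le_of_eq ?_)
    refine ph_off hLpos ht0 fun h2 => hx ?_
    rw [hB']
    exact mem_tr.2 h2
  have hUc : ∀ x, Continuous (bU D b L y ψ c v x) := fun x => by
    have h1 : Continuous (fun h : D → ℝ => v x h - ((tr y (Bo L)).card : ℝ)⁻¹ *
        ∑ u ∈ tr y (Bo L), v u h + c - tR D b (tr y (bx L)) ψ x h) :=
      ((((hv.sm x).continuous).sub (continuous_const.mul (continuous_finsetSum _ fun u _ =>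
        (hv.sm u).continuous))).add continuous_const).sub (tR_smooth _ _ _ _ _).continuous
    exact h1
  have hTc : ∀ x, Continuous (T x) := fun x => by
    rw [hT]
    have h1 : Continuous (deriv (Tk k)) := (Tk_smooth hk).continuous_deriv (by simp)
    have h2 : Continuous (fun h : D → ℝ => tE D b (tr y (bx L)) (fun z => ph L t (z - y)) x h *
        deriv (Tk k) (bU D b L y ψ c v x h)) :=
      (tE_smooth _ _ _ _ _).continuous.mul (h1.comp (hUc x))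
    exact h2
  obtain ⟨a, ha⟩ : ∃ a : ℤ × ℤ → ℤ × ℤ → (D → ℝ) → ℝ, a = fun x z h =>
    pz D z (tG D b A ψ x) h := ⟨_, rfl⟩
  obtain ⟨r, hr⟩ : ∃ r : ℤ × ℤ → ℤ × ℤ → (D → ℝ) → ℝ, r = fun x z h =>
    pz D z (tG D b A ψ x) h - pz D z (tR D b (tr y (bx L)) ψ x) h := ⟨_, rfl⟩
  obtain ⟨e, he⟩ : ∃ e : ℤ × ℤ → ℤ × ℤ → (D → ℝ) → ℝ, e = fun x z h =>
    pz D z (bE D b L t y x) h := ⟨_, rfl⟩
  obtain ⟨w, hw⟩ : ∃ w : ℤ × ℤ → ℤ × ℤ → (D → ℝ) → ℝ, w = fun x z h =>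
    pz D z (v x) h := ⟨_, rfl⟩
  have hac : ∀ x z, Continuous (a x z) := fun x z => by
    rw [ha]
    exact (pz_smooth (tG_smooth D b A ψ x) z).continuous
  have hrc : ∀ x z, Continuous (r x z) := fun x z => by
    rw [hr]
    exact (pz_smooth (tG_smooth D b A ψ x) z).continuous.sub
      (pz_smooth (tR_smooth D b _ ψ x) z).continuous
  have hec : ∀ x z, Continuous (e x z) := fun x z => by
    rw [he]
    exact (pz_smooth (tE_smooth D b _ _ x) z).continuous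
  have hwc : ∀ x z, Continuous (w x z) := fun x z => by
    rw [hw]
    exact (pz_smooth (hv.sm x) z).continuous
  have hpt : ∀ h : D → ℝ, ∑ x ∈ B, ∑ z ∈ B,
      (pz D z (fun h => tG D b A ψ x h + bW D b L t y ψ c k v x h) h) ^ 2 ≤
      (1 + q) * (∑ x ∈ B, (1 - T x h) * ∑ z ∈ B, a x z h ^ 2) +
      (1 + q) * (∑ x ∈ B, ∑ z ∈ B, w x z h ^ 2) +
      2 / q * (2 * (∑ x ∈ B', ∑ z ∈ B, r x z h ^ 2) +
        2 * k ^ 2 * (∑ x ∈ B, ∑ z ∈ B, e x z h ^ 2)) := by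
    intro h
    have h1 : ∀ x ∈ B, ∀ z ∈ B,
        (pz D z (fun h => tG D b A ψ x h + bW D b L t y ψ c k v x h) h) ^ 2 ≤
        (1 + q) * ((1 - T x h) * a x z h ^ 2) +
        (1 + q) * (T x h * (w x z h - avf B' (fun u => w u z h)) ^ 2) +
        2 / q * (2 * (T x h * r x z h ^ 2) + 2 * k ^ 2 * e x z h ^ 2) := by
      intro x hx z hz
      rw [bW_pz b A L t y ψ c hk hv.sm x z h, add_assoc]
      have h2 := conv_ineq (hT01 x h).1 (hT01 x h).2 hq0 (a := a x z h)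
        (d := w x z h - avf B' (fun u => w u z h))
        (e := T x h * r x z h + Tk k (bU D b L y ψ c v x h) * e x z h)
      rw [hT, ha, hr, he, hw, hB'] at h2
      rw [hT, ha, hr, he, hw, hB']
      beta_reduce at h2 ⊢
      refine h2.trans ?_
      have h3 : |Tk k (bU D b L y ψ c v x h)| ≤ k := Tk_bound hk _
      obtain ⟨τ, hτ⟩ : ∃ τ : ℝ, τ = Tk k (bU D b L y ψ c v x h) := ⟨_, rfl⟩
      obtain ⟨s, hs⟩ : ∃ s : ℝ, s = bT D b L t y ψ c k v x h := ⟨_, rfl⟩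
      have hs01 := hT01 x h
      rw [hT, ← hs] at hs01
      rw [← hτ, ← hs]
      rw [← hτ] at h3
      have h4 : τ ^ 2 ≤ k ^ 2 := by
        rw [← sq_abs]
        exact pow_le_pow_left₀ (abs_nonneg _) h3 2
      obtain ⟨ρ, hρ⟩ : ∃ ρ : ℝ, ρ = pz D z (tG D b A ψ x) h -
        pz D z (tR D b (tr y (bx L)) ψ x) h := ⟨_, rfl⟩
      obtain ⟨η, hη⟩ : ∃ η : ℝ, η = pz D z (bE D b L t y x) h := ⟨_, rfl⟩
      rw [← hρ, ← hη]
      have h5 : (s * ρ + τ * η) ^ 2 ≤ 2 * (s * ρ ^ 2) + 2 * k ^ 2 * η ^ 2 := by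
        have h6 : (s * ρ) ^ 2 ≤ s * ρ ^ 2 := by
          have : s ^ 2 ≤ s := by nlinarith [hs01.1, hs01.2]
          nlinarith [sq_nonneg ρ]
        have h7 : (τ * η) ^ 2 ≤ k ^ 2 * η ^ 2 := by
          rw [mul_pow]
          exact mul_le_mul_of_nonneg_right h4 (sq_nonneg _)
        nlinarith [sq_nonneg (s * ρ - τ * η)]
      have h8 : 1 + 1 / q ≤ 2 / q := by
        have : 1 ≤ 1 / q := by
          rw [le_div_iff₀ hq0]
          linarith
        have : 2 / q = 1 / q + 1 / q := by ring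
        linarith
      have h9 : (1 + 1 / q) * (s * ρ + τ * η) ^ 2 ≤
          2 / q * (2 * (s * ρ ^ 2) + 2 * k ^ 2 * η ^ 2) :=
        mul_le_mul h8 h5 (sq_nonneg _) (by positivity)
      linarith
    refine (Finset.sum_le_sum fun x hx => Finset.sum_le_sum (h1 x hx)).trans ?_
    have s1 : ∀ f : ℤ × ℤ → ℝ, (∀ x ∈ B, 0 ≤ f x) → ∑ x ∈ B, T x h * f x ≤
        ∑ x ∈ B', f x := by
      intro f hf
      have h2 : ∑ x ∈ B, T x h * f x = ∑ x ∈ B', T x h * f x :=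
        (Finset.sum_subset hsub fun x _ hx => by rw [hTo x hx h, zero_mul]).symm
      rw [h2]
      refine Finset.sum_le_sum fun x hx => ?_
      have := mul_le_mul_of_nonneg_right (hT01 x h).2 (hf x (hsub hx))
      linarith
    have s2 : ∑ x ∈ B, T x h * ∑ z ∈ B, (w x z h - avf B' (fun u => w u z h)) ^ 2 ≤
        ∑ x ∈ B, ∑ z ∈ B, w x z h ^ 2 := by
      refine (s1 _ fun x _ => Finset.sum_nonneg fun z _ => sq_nonneg _).trans ?_
      rw [Finset.sum_comm]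
      have h3 : ∀ z ∈ B, ∑ x ∈ B', (w x z h - avf B' (fun u => w u z h)) ^ 2 ≤
          ∑ x ∈ B', w x z h ^ 2 := fun z _ => avf_ineq B' (fun u => w u z h)
      refine (Finset.sum_le_sum h3).trans ?_
      rw [Finset.sum_comm]
      exact Finset.sum_le_sum_of_subset_of_nonneg hsub fun x _ _ =>
        Finset.sum_nonneg fun z _ => sq_nonneg _
    have s3 : ∑ x ∈ B, T x h * ∑ z ∈ B, r x z h ^ 2 ≤ ∑ x ∈ B', ∑ z ∈ B, r x z h ^ 2 :=
      s1 _ fun x _ => Finset.sum_nonneg fun z _ => sq_nonneg _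
    have e1 : ∑ x ∈ B, ∑ z ∈ B, ((1 + q) * ((1 - T x h) * a x z h ^ 2) +
        (1 + q) * (T x h * (w x z h - avf B' (fun u => w u z h)) ^ 2) +
        2 / q * (2 * (T x h * r x z h ^ 2) + 2 * k ^ 2 * e x z h ^ 2)) =
        (1 + q) * (∑ x ∈ B, (1 - T x h) * ∑ z ∈ B, a x z h ^ 2) +
        (1 + q) * (∑ x ∈ B, T x h * ∑ z ∈ B, (w x z h - avf B' (fun u => w u z h)) ^ 2) +
        2 / q * (2 * (∑ x ∈ B, T x h * ∑ z ∈ B, r x z h ^ 2) +
          2 * k ^ 2 * (∑ x ∈ B, ∑ z ∈ B, e x z h ^ 2)) := by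
      simp only [Finset.mul_sum, ← Finset.sum_add_distrib]
    rw [e1]
    have h5 : 0 ≤ 1 + q := by linarith
    have h6 := mul_le_mul_of_nonneg_left s2 h5
    have h7 := mul_le_mul_of_nonneg_left (add_le_add (mul_le_mul_of_nonneg_left s3
      (show (0 : ℝ) ≤ 2 by norm_num)) (le_refl (2 * k ^ 2 * (∑ x ∈ B, ∑ z ∈ B,
        e x z h ^ 2)))) (show 0 ≤ 2 / q by positivity)
    linarith
  rw [← hB]
  -- integration
  have i1 : Integrable (fun h => ∑ x ∈ B, (1 - T x h) * ∑ z ∈ B, a x z h ^ 2) (Mu D b) :=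
    int_K H.hb (continuous_finsetSum _ fun x _ => (continuous_const.sub (hTc x)).mul
      (continuous_finsetSum _ fun z _ => (hac x z).pow 2))
  have i2 : Integrable (fun h => ∑ x ∈ B, ∑ z ∈ B, w x z h ^ 2) (Mu D b) :=
    int_K H.hb (continuous_finsetSum _ fun x _ => continuous_finsetSum _ fun z _ =>
      (hwc x z).pow 2)
  have i3 : Integrable (fun h => ∑ x ∈ B', ∑ z ∈ B, r x z h ^ 2) (Mu D b) :=
    int_K H.hb (continuous_finsetSum _ fun x _ => continuous_finsetSum _ fun z _ =>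
      (hrc x z).pow 2)
  have i4 : Integrable (fun h => ∑ x ∈ B, ∑ z ∈ B, e x z h ^ 2) (Mu D b) :=
    int_K H.hb (continuous_finsetSum _ fun x _ => continuous_finsetSum _ fun z _ =>
      (hec x z).pow 2)
  have hWs : ∀ x, ContDiff ℝ ∞ (fun h => tG D b A ψ x h + bW D b L t y ψ c k v x h) := by
    intro x
    have h1 : ContDiff ℝ ∞ (bU D b L y ψ c v x) := by
      have h2 : ContDiff ℝ ∞ (fun h : D → ℝ => v x h - ((tr y (Bo L)).card : ℝ)⁻¹ *
          ∑ u ∈ tr y (Bo L), v u h + c - tR D b (tr y (bx L)) ψ x h) :=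
        (((hv.sm x).sub (contDiff_const.mul (ContDiff.sum fun u _ => hv.sm u))).add
          contDiff_const).sub (tR_smooth _ _ _ _ _)
      exact h2
    exact (tG_smooth D b A ψ x).add ((tE_smooth _ _ _ _ _).mul ((Tk_smooth hk).comp h1))
  have i0 : Integrable (fun h => ∑ x ∈ B, ∑ z ∈ B,
      (pz D z (fun h => tG D b A ψ x h + bW D b L t y ψ c k v x h) h) ^ 2) (Mu D b) :=
    int_K H.hb (continuous_finsetSum _ fun x _ => continuous_finsetSum _ fun z _ =>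
      ((pz_smooth (hWs x) z).continuous).pow 2)
  have j1 : Integrable (fun h => (1 + q) * (∑ x ∈ B, (1 - T x h) * ∑ z ∈ B, a x z h ^ 2) +
      (1 + q) * (∑ x ∈ B, ∑ z ∈ B, w x z h ^ 2)) (Mu D b) :=
    (i1.const_mul (1 + q)).add (i2.const_mul (1 + q))
  have j2 : Integrable (fun h => 2 * (∑ x ∈ B', ∑ z ∈ B, r x z h ^ 2) +
      2 * k ^ 2 * (∑ x ∈ B, ∑ z ∈ B, e x z h ^ 2)) (Mu D b) :=
    (i3.const_mul 2).add (i4.const_mul (2 * k ^ 2))
  have j3 : Integrable (fun h => (1 + q) * (∑ x ∈ B, (1 - T x h) * ∑ z ∈ B, a x z h ^ 2) +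
      (1 + q) * (∑ x ∈ B, ∑ z ∈ B, w x z h ^ 2) +
      2 / q * (2 * (∑ x ∈ B', ∑ z ∈ B, r x z h ^ 2) +
        2 * k ^ 2 * (∑ x ∈ B, ∑ z ∈ B, e x z h ^ 2))) (Mu D b) :=
    j1.add (j2.const_mul (2 / q))
  have hm := integral_mono i0 j3 hpt
  have em : ∫ h, ((1 + q) * (∑ x ∈ B, (1 - T x h) * ∑ z ∈ B, a x z h ^ 2) +
      (1 + q) * (∑ x ∈ B, ∑ z ∈ B, w x z h ^ 2) +
      2 / q * (2 * (∑ x ∈ B', ∑ z ∈ B, r x z h ^ 2) +
        2 * k ^ 2 * (∑ x ∈ B, ∑ z ∈ B, e x z h ^ 2))) ∂(Mu D b) =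
      (1 + q) * (∫ h, ∑ x ∈ B, (1 - T x h) * ∑ z ∈ B, a x z h ^ 2 ∂(Mu D b)) +
      (1 + q) * (∫ h, ∑ x ∈ B, ∑ z ∈ B, w x z h ^ 2 ∂(Mu D b)) +
      2 / q * (2 * (∫ h, ∑ x ∈ B', ∑ z ∈ B, r x z h ^ 2 ∂(Mu D b)) +
        2 * k ^ 2 * (∫ h, ∑ x ∈ B, ∑ z ∈ B, e x z h ^ 2 ∂(Mu D b))) := by
    rw [integral_add j1 (j2.const_mul _),
      integral_add (i1.const_mul _) (i2.const_mul _), integral_const_mul, integral_const_mul,
      integral_const_mul, integral_add (i3.const_mul _) (i4.const_mul _), integral_const_mul,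
      integral_const_mul]
  rw [em] at hm
  refine hm.trans ?_
  have b1 := H1 L hL D A b ψ l H y hy T hTc hT01
  have b2 := H2 L hL D A b ψ l H y hy
  have b3 := H3 L hL D A b ψ l H y hy t ht0 ht1
  rw [← hB] at b1 b2 b3
  rw [← hB'] at b2
  have b1' : ∫ h, ∑ x ∈ B, (1 - T x h) * ∑ z ∈ B, a x z h ^ 2 ∂(Mu D b) ≤ C1 * l ^ 2 * L *
      Real.sqrt (∑ x ∈ B, ∫ h, (1 - T x h) ∂(Mu D b)) := by
    rw [ha]
    exact b1
  have b2' : ∫ h, ∑ x ∈ B', ∑ z ∈ B, r x z h ^ 2 ∂(Mu D b) ≤ C2 * l ^ 2 * L := by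
    rw [hr, ← hB]
    exact b2
  have b3' : ∫ h, ∑ x ∈ B, ∑ z ∈ B, e x z h ^ 2 ∂(Mu D b) ≤ C3 / t ^ 2 := by
    rw [he]
    exact b3
  have b4 : ∫ h, ∑ x ∈ B, ∑ z ∈ B, w x z h ^ 2 ∂(Mu D b) = ∫ h, en D B v h ∂(Mu D b) := by
    rw [hw]
    rfl
  rw [b4]
  rw [← hT]
  obtain ⟨SS, hSS⟩ : ∃ SS : ℝ, SS = Real.sqrt (∑ x ∈ B, ∫ h, (1 - T x h) ∂(Mu D b)) :=
    ⟨_, rfl⟩
  rw [← hSS] at b1' ⊢
  have hSS0 : 0 ≤ SS := by
    rw [hSS]
    exact Real.sqrt_nonneg _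
  have hLr : (0 : ℝ) ≤ L := Nat.cast_nonneg L
  have c1 : (1 + q) * (∫ h, ∑ x ∈ B, (1 - T x h) * ∑ z ∈ B, a x z h ^ 2 ∂(Mu D b)) ≤
      2 * (C1 * l ^ 2 * L * SS) :=
    mul_le_mul (by linarith) b1' (integral_nonneg fun h => Finset.sum_nonneg fun x _ =>
      mul_nonneg (sub_nonneg.2 (hT01 x h).2) (Finset.sum_nonneg fun z _ => sq_nonneg _))
      (by norm_num)
  have c2 : 2 / q * (2 * (∫ h, ∑ x ∈ B', ∑ z ∈ B, r x z h ^ 2 ∂(Mu D b)) +
      2 * k ^ 2 * (∫ h, ∑ x ∈ B, ∑ z ∈ B, e x z h ^ 2 ∂(Mu D b))) ≤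
      2 / q * (2 * (C2 * l ^ 2 * L) + 2 * k ^ 2 * (C3 / t ^ 2)) :=
    mul_le_mul_of_nonneg_left (add_le_add (mul_le_mul_of_nonneg_left b2' (by norm_num))
      (mul_le_mul_of_nonneg_left b3' (by positivity))) (by positivity)
  have c3 : 2 / q * (2 * (C2 * l ^ 2 * L) + 2 * k ^ 2 * (C3 / t ^ 2)) =
      4 * C2 / q * (l ^ 2 * L) + 4 * C3 / q * (k ^ 2 / t ^ 2) := by ring
  have c4 : 4 * C2 / q * (l ^ 2 * L) ≤ (2 * C1 + 4 * (C2 + C3)) / q * (l ^ 2 * L) := by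
    refine mul_le_mul_of_nonneg_right ?_ (by positivity)
    exact div_le_div_of_nonneg_right (by linarith) hq0.le
  have c5 : 4 * C3 / q * (k ^ 2 / t ^ 2) ≤ (2 * C1 + 4 * (C2 + C3)) / q * (k ^ 2 / t ^ 2) := by
    refine mul_le_mul_of_nonneg_right ?_ (by positivity)
    exact div_le_div_of_nonneg_right (by linarith) hq0.le
  have c6 : 2 * (C1 * l ^ 2 * L * SS) ≤ (2 * C1 + 4 * (C2 + C3)) * l ^ 2 * L * SS := by
    have : 0 ≤ 4 * (C2 + C3) * (l ^ 2 * L * SS) := by positivity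
    linarith
  rw [mul_add ((2 * C1 + 4 * (C2 + C3)) / q)]
  linarith

/- END tdf -/

/- MODULE tdg
The energy of `bW` alone, crudely: from the formula of the derivative of `bW` (without `tG`),
`(a + b + c + d)² ≤ 4 (...)`. -/

private theorem tdg_Bo (L : ℕ) : Bo L ⊆ bx L := fun x hx => mem_inn.1 hx x (by
  rw [sub_self, (dn_zero_iff 0).2 rfl]
  positivity)

private theorem tdg_card (y : ℤ × ℤ) (n : ℕ) : (tr y (bx n)).card = n ^ 2 := by
  have h : (tr y (bx n)).card = (bx n).card := by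
    unfold tr
    exact Finset.card_image_of_injective _ (add_right_injective y)
  rw [h]
  unfold bx
  rw [Finset.card_product, Int.card_Ico, sub_zero, Int.toNat_natCast]
  ring

theorem bW_energy : ∃ C : ℝ, 1 ≤ C ∧ ∀ (L : ℕ), 1 ≤ L → ∀ (D A : Finset (ℤ × ℤ))
    (b ψ : ℤ × ℤ → ℝ) (l : ℝ), Hb D A b ψ l → ∀ y : ℤ × ℤ, tr y (bx L) ⊆ A →
    ∀ t : ℝ, 0 < t → t ≤ 1 → ∀ (c k : ℝ), 0 < k →
    ∀ v : ℤ × ℤ → (D → ℝ) → ℝ, LNice D (tr y (bx L)) v →
    ∫ h, ∑ x ∈ tr y (bx L), ∑ z ∈ tr y (bx L), (pz D z (bW D b L t y ψ c k v x) h) ^ 2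
      ∂(Mu D b) ≤ C * ((∫ h, en D (tr y (bx L)) v h ∂(Mu D b)) + l ^ 2 * L ^ 2 + k ^ 2 / t ^ 2) := by
  obtain ⟨C1, hC1, H1⟩ := rho_lip
  obtain ⟨C2, hC2, H2⟩ := G_moment 3
  obtain ⟨C3, hC3, H3⟩ := cut_mean
  have hC12 : 0 < C1 * C2 := by nlinarith
  refine ⟨3 * (1 + C1 * C2 + C3), by nlinarith, ?_⟩
  intro L hL D A b ψ l H y hy t ht0 ht1 c k hk v hv
  have hP : IsProbabilityMeasure (Mu D b) := prob H.hb
  have hLpos : 0 < L := hL
  have hBD : tr y (bx L) ⊆ D := hy.trans H.hA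
  have hφ : ∀ z, 0 ≤ ph L t (z - y) ∧ ph L t (z - y) ≤ 1 := fun z => ph_mem L t _
  obtain ⟨B, hB⟩ : ∃ B : Finset (ℤ × ℤ), B = tr y (bx L) := ⟨_, rfl⟩
  obtain ⟨B', hB'⟩ : ∃ B' : Finset (ℤ × ℤ), B' = tr y (Bo L) := ⟨_, rfl⟩
  have hsub : B' ⊆ B := by
    rw [hB, hB']
    intro x hx
    exact mem_tr.2 (tdg_Bo L (mem_tr.1 hx))
  obtain ⟨T, hT⟩ : ∃ T : ℤ × ℤ → (D → ℝ) → ℝ, T = bT D b L t y ψ c k v := ⟨_, rfl⟩
  have hT01 : ∀ x h, 0 ≤ T x h ∧ T x h ≤ 1 := fun x h => by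
    rw [hT]
    have h1 := tT_mem (D := D) (b := b) (B := tr y (bx L)) (tr y (Bo L)) hφ ψ c hk v x h
    exact ⟨h1.1, h1.2.1.trans (hφ x).2⟩
  have hTo : ∀ x, x ∉ B' → ∀ h, T x h = 0 := fun x hx h => by
    refine le_antisymm ?_ (hT01 x h).1
    rw [hT]
    have h1 := tT_mem (D := D) (b := b) (B := tr y (bx L)) (tr y (Bo L)) hφ ψ c hk v x h
    refine h1.2.1.trans (le_of_eq ?_)
    refine ph_off hLpos ht0 fun h2 => hx ?_
    rw [hB']
    exact mem_tr.2 h2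
  have hUs : ∀ x, ContDiff ℝ ∞ (bU D b L y ψ c v x) := fun x => by
    have h2 : ContDiff ℝ ∞ (fun h : D → ℝ => v x h - ((tr y (Bo L)).card : ℝ)⁻¹ *
        ∑ u ∈ tr y (Bo L), v u h + c - tR D b (tr y (bx L)) ψ x h) :=
      (((hv.sm x).sub (contDiff_const.mul (ContDiff.sum fun u _ => hv.sm u))).add
        contDiff_const).sub (tR_smooth _ _ _ _ _)
    exact h2
  have hWs : ∀ x, ContDiff ℝ ∞ (bW D b L t y ψ c k v x) := fun x =>
    (tE_smooth _ _ _ _ _).mul ((Tk_smooth hk).comp (hUs x))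
  obtain ⟨r, hr⟩ : ∃ r : ℤ × ℤ → ℤ × ℤ → (D → ℝ) → ℝ, r = fun x z h =>
    pz D z (tR D b (tr y (bx L)) ψ x) h := ⟨_, rfl⟩
  obtain ⟨e, he⟩ : ∃ e : ℤ × ℤ → ℤ × ℤ → (D → ℝ) → ℝ, e = fun x z h =>
    pz D z (bE D b L t y x) h := ⟨_, rfl⟩
  obtain ⟨w, hw⟩ : ∃ w : ℤ × ℤ → ℤ × ℤ → (D → ℝ) → ℝ, w = fun x z h =>
    pz D z (v x) h := ⟨_, rfl⟩
  have hrc : ∀ x z, Continuous (r x z) := fun x z => by
    rw [hr]
    exact (pz_smooth (tR_smooth D b _ ψ x) z).continuous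
  have hec : ∀ x z, Continuous (e x z) := fun x z => by
    rw [he]
    exact (pz_smooth (tE_smooth D b _ _ x) z).continuous
  have hwc : ∀ x z, Continuous (w x z) := fun x z => by
    rw [hw]
    exact (pz_smooth (hv.sm x) z).continuous
  have hpt : ∀ h : D → ℝ, ∑ x ∈ B, ∑ z ∈ B, (pz D z (bW D b L t y ψ c k v x) h) ^ 2 ≤
      3 * (∑ x ∈ B, ∑ z ∈ B, w x z h ^ 2) + 3 * (∑ x ∈ B, ∑ z ∈ B, r x z h ^ 2) +
      3 * k ^ 2 * (∑ x ∈ B, ∑ z ∈ B, e x z h ^ 2) := by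
    intro h
    have h1 : ∀ x ∈ B, ∀ z ∈ B, (pz D z (bW D b L t y ψ c k v x) h) ^ 2 ≤
        3 * (T x h * (w x z h - avf B' (fun u => w u z h)) ^ 2) + 3 * r x z h ^ 2 +
        3 * k ^ 2 * e x z h ^ 2 := by
      intro x hx z hz
      have h2 := bW_pz b A L t y ψ c hk hv.sm x z h
      have h3 : pz D z (fun h => tG D b A ψ x h + bW D b L t y ψ c k v x h) h =
          pz D z (tG D b A ψ x) h + pz D z (bW D b L t y ψ c k v x) h :=
        pz_add (((tG_smooth D b A ψ x).differentiable (by simp)).differentiableAt)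
          (((hWs x).differentiable (by simp)).differentiableAt)
      rw [h3] at h2
      obtain ⟨τ, hτ⟩ : ∃ τ : ℝ, τ = Tk k (bU D b L y ψ c v x h) := ⟨_, rfl⟩
      obtain ⟨s, hs⟩ : ∃ s : ℝ, s = bT D b L t y ψ c k v x h := ⟨_, rfl⟩
      obtain ⟨α, hα⟩ : ∃ α : ℝ, α = pz D z (v x) h -
        avf (tr y (Bo L)) (fun u => pz D z (v u) h) := ⟨_, rfl⟩
      obtain ⟨ρ, hρ⟩ : ∃ ρ : ℝ, ρ = pz D z (tR D b (tr y (bx L)) ψ x) h := ⟨_, rfl⟩
      obtain ⟨η, hη⟩ : ∃ η : ℝ, η = pz D z (bE D b L t y x) h := ⟨_, rfl⟩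
      have hs01 := hT01 x h
      rw [hT, ← hs] at hs01
      have h4 : |Tk k (bU D b L y ψ c v x h)| ≤ k := Tk_bound hk _
      rw [← hτ] at h4
      have h5 : τ ^ 2 ≤ k ^ 2 := by
        rw [← sq_abs]
        exact pow_le_pow_left₀ (abs_nonneg _) h4 2
      rw [← hτ, ← hs, ← hα, ← hρ, ← hη] at h2
      have h6 : pz D z (bW D b L t y ψ c k v x) h = s * α - s * ρ + τ * η := by linarith
      rw [h6, hT, hr, he, hw, hB']
      beta_reduce
      rw [← hs, ← hα, ← hρ, ← hη]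
      have g1 : s ^ 2 ≤ s := by nlinarith [hs01.1, hs01.2]
      have g2 : (s * α) ^ 2 ≤ s * α ^ 2 := by
        rw [mul_pow]
        exact mul_le_mul_of_nonneg_right g1 (sq_nonneg _)
      have g3 : (s * ρ) ^ 2 ≤ ρ ^ 2 := by
        rw [mul_pow]
        have := mul_le_mul_of_nonneg_right (g1.trans hs01.2) (sq_nonneg ρ)
        linarith
      have g4 : (τ * η) ^ 2 ≤ k ^ 2 * η ^ 2 := by
        rw [mul_pow]
        exact mul_le_mul_of_nonneg_right h5 (sq_nonneg _)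
      nlinarith [sq_nonneg (s * α + s * ρ), sq_nonneg (s * α - τ * η), sq_nonneg (s * ρ + τ * η)]
    refine (Finset.sum_le_sum fun x hx => Finset.sum_le_sum (h1 x hx)).trans ?_
    have s1 : ∀ f : ℤ × ℤ → ℝ, (∀ x ∈ B, 0 ≤ f x) → ∑ x ∈ B, T x h * f x ≤
        ∑ x ∈ B', f x := by
      intro f hf
      have h2 : ∑ x ∈ B, T x h * f x = ∑ x ∈ B', T x h * f x :=
        (Finset.sum_subset hsub fun x _ hx => by rw [hTo x hx h, zero_mul]).symm
      rw [h2]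
      refine Finset.sum_le_sum fun x hx => ?_
      have := mul_le_mul_of_nonneg_right (hT01 x h).2 (hf x (hsub hx))
      linarith
    have s2 : ∑ x ∈ B, T x h * ∑ z ∈ B, (w x z h - avf B' (fun u => w u z h)) ^ 2 ≤
        ∑ x ∈ B, ∑ z ∈ B, w x z h ^ 2 := by
      refine (s1 _ fun x _ => Finset.sum_nonneg fun z _ => sq_nonneg _).trans ?_
      rw [Finset.sum_comm]
      have h3 : ∀ z ∈ B, ∑ x ∈ B', (w x z h - avf B' (fun u => w u z h)) ^ 2 ≤
          ∑ x ∈ B', w x z h ^ 2 := fun z _ => avf_ineq B' (fun u => w u z h)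
      refine (Finset.sum_le_sum h3).trans ?_
      rw [Finset.sum_comm]
      exact Finset.sum_le_sum_of_subset_of_nonneg hsub fun x _ _ =>
        Finset.sum_nonneg fun z _ => sq_nonneg _
    have e1 : ∑ x ∈ B, ∑ z ∈ B, (3 * (T x h * (w x z h - avf B' (fun u => w u z h)) ^ 2) +
        3 * r x z h ^ 2 + 3 * k ^ 2 * e x z h ^ 2) =
        3 * (∑ x ∈ B, T x h * ∑ z ∈ B, (w x z h - avf B' (fun u => w u z h)) ^ 2) +
        3 * (∑ x ∈ B, ∑ z ∈ B, r x z h ^ 2) +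
        3 * k ^ 2 * (∑ x ∈ B, ∑ z ∈ B, e x z h ^ 2) := by
      simp only [Finset.mul_sum, ← Finset.sum_add_distrib]
    rw [e1]
    linarith
  rw [← hB]
  have i2 : Integrable (fun h => ∑ x ∈ B, ∑ z ∈ B, w x z h ^ 2) (Mu D b) :=
    int_K H.hb (continuous_finsetSum _ fun x _ => continuous_finsetSum _ fun z _ =>
      (hwc x z).pow 2)
  have i3 : Integrable (fun h => ∑ x ∈ B, ∑ z ∈ B, r x z h ^ 2) (Mu D b) :=
    int_K H.hb (continuous_finsetSum _ fun x _ => continuous_finsetSum _ fun z _ =>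
      (hrc x z).pow 2)
  have i4 : Integrable (fun h => ∑ x ∈ B, ∑ z ∈ B, e x z h ^ 2) (Mu D b) :=
    int_K H.hb (continuous_finsetSum _ fun x _ => continuous_finsetSum _ fun z _ =>
      (hec x z).pow 2)
  have i0 : Integrable (fun h => ∑ x ∈ B, ∑ z ∈ B, (pz D z (bW D b L t y ψ c k v x) h) ^ 2)
      (Mu D b) :=
    int_K H.hb (continuous_finsetSum _ fun x _ => continuous_finsetSum _ fun z _ =>
      ((pz_smooth (hWs x) z).continuous).pow 2)
  have j1 : Integrable (fun h => 3 * (∑ x ∈ B, ∑ z ∈ B, w x z h ^ 2) +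
      3 * (∑ x ∈ B, ∑ z ∈ B, r x z h ^ 2)) (Mu D b) := (i2.const_mul 3).add (i3.const_mul 3)
  have j2 : Integrable (fun h => 3 * (∑ x ∈ B, ∑ z ∈ B, w x z h ^ 2) +
      3 * (∑ x ∈ B, ∑ z ∈ B, r x z h ^ 2) + 3 * k ^ 2 * (∑ x ∈ B, ∑ z ∈ B, e x z h ^ 2))
      (Mu D b) := j1.add (i4.const_mul (3 * k ^ 2))
  have hm := integral_mono i0 j2 hpt
  rw [integral_add j1 (i4.const_mul _), integral_add (i2.const_mul _) (i3.const_mul _),
    integral_const_mul, integral_const_mul, integral_const_mul] at hm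
  refine hm.trans ?_
  have b3 := H3 L hL D A b ψ l H y hy t ht0 ht1
  have b3' : ∫ h, ∑ x ∈ B, ∑ z ∈ B, e x z h ^ 2 ∂(Mu D b) ≤ C3 / t ^ 2 := by
    rw [he, hB]
    exact b3
  have b4 : ∫ h, ∑ x ∈ B, ∑ z ∈ B, w x z h ^ 2 ∂(Mu D b) = ∫ h, en D B v h ∂(Mu D b) := by
    rw [hw]
    rfl
  have b5 : ∫ h, ∑ x ∈ B, ∑ z ∈ B, r x z h ^ 2 ∂(Mu D b) ≤ C1 * C2 * l ^ 2 * L ^ 2 := by
    have hUA : UA (Ui B) B ψ := ⟨Finset.filter_subset _ _, Or.inr (Finset.Subset.refl _)⟩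
    have k1 : ∀ x ∈ B, ∀ h : D → ℝ, ∑ z ∈ B, r x z h ^ 2 ≤
        C1 * l ^ 2 * ((Gx e0 B (gl D b h) x).card : ℝ) ^ 3 := by
      intro x hx h
      have h1 := (H1 (Ui B) B (Mav ψ) ψ (Mav_mean ψ) hUA l H.hl D b h x hx).2.2.2
      have h2 : ∑ z ∈ B, r x z h ^ 2 ≤ ∑ z ∈ D, r x z h ^ 2 :=
        Finset.sum_le_sum_of_subset_of_nonneg (by rw [hB]; exact hBD)
          fun _ _ _ => sq_nonneg _
      refine h2.trans ?_
      rw [hr, ← hB]
      exact h1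
    have ir : ∀ x, Integrable (fun h => ∑ z ∈ B, r x z h ^ 2) (Mu D b) := fun x =>
      int_K H.hb (continuous_finsetSum B fun z _ => (hrc x z).pow 2)
    have k2 : ∀ x ∈ B, ∫ h, ∑ z ∈ B, r x z h ^ 2 ∂(Mu D b) ≤ C1 * l ^ 2 * C2 := by
      intro x hx
      have h3 := H2 D B (by rw [hB]; exact hBD) b H.hb x hx
      have h4 := integral_mono (ir x) (h3.1.const_mul (C1 * l ^ 2)) (k1 x hx)
      rw [integral_const_mul] at h4
      exact h4.trans (mul_le_mul_of_nonneg_left h3.2 (by positivity))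
    rw [integral_finsetSum _ fun x _ => ir x]
    refine (Finset.sum_le_sum k2).trans ?_
    rw [Finset.sum_const, nsmul_eq_mul, hB, tdg_card]
    push_cast
    exact le_of_eq (by ring)
  rw [b4]
  have hLr : (0 : ℝ) ≤ L := Nat.cast_nonneg L
  have hE0 : 0 ≤ ∫ h, en D B v h ∂(Mu D b) := integral_nonneg fun h =>
    Finset.sum_nonneg fun x _ => Finset.sum_nonneg fun z _ => sq_nonneg _
  obtain ⟨E, hE⟩ : ∃ E : ℝ, E = ∫ h, en D B v h ∂(Mu D b) := ⟨_, rfl⟩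
  rw [← hE] at hE0 ⊢
  have c1 := mul_le_mul_of_nonneg_left b5 (show (0 : ℝ) ≤ 3 by norm_num)
  have c2 := mul_le_mul_of_nonneg_left b3' (show 0 ≤ 3 * k ^ 2 by positivity)
  have c3 : 3 * k ^ 2 * (C3 / t ^ 2) = 3 * C3 * (k ^ 2 / t ^ 2) := by ring
  rw [c3] at c2
  have c4 : 0 ≤ l ^ 2 * (L : ℝ) ^ 2 := by positivity
  have c5 : 0 ≤ k ^ 2 / t ^ 2 := by positivity
  have c6 : 3 * (1 + C1 * C2 + C3) * (E + l ^ 2 * (L : ℝ) ^ 2 + k ^ 2 / t ^ 2) =
      3 * E + 3 * (C1 * C2 * l ^ 2 * L ^ 2) + 3 * C3 * (k ^ 2 / t ^ 2) +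
      3 * ((C1 * C2 + C3) * E + (1 + C3) * (l ^ 2 * (L : ℝ) ^ 2) +
        (1 + C1 * C2) * (k ^ 2 / t ^ 2)) := by ring
  have c7 : 0 ≤ (C1 * C2 + C3) * E + (1 + C3) * (l ^ 2 * (L : ℝ) ^ 2) +
        (1 + C1 * C2) * (k ^ 2 / t ^ 2) := by
    have : 0 ≤ C1 * C2 + C3 := by linarith
    have : 0 ≤ 1 + C3 := by linarith
    positivity
  rw [c6]
  linarith

/- END tdg -/

/- MODULE tdh
The weights.  `tT_mem`; for `x ∉ tr y (Bo L)` simply `1 - bT ≤ 1 = 1 - bE`; `1 - bE x h ≤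
1(card cluster ≥ sqrt L)` if `mB L (x - y) ≥ 3 sqrt L + 3 + t L + sqrt L + 1` (`rho_one`: `ph = 1` on the
cluster, no edge leaves the box), `mB_count`, `G_tail`. -/

private theorem tdh_Bo (L : ℕ) : Bo L ⊆ bx L := fun x hx => mem_inn.1 hx x (by
  rw [sub_self, (dn_zero_iff 0).2 rfl]
  positivity)

theorem weight_mean : ∃ C : ℝ, 1 ≤ C ∧ ∀ (L : ℕ), 1 ≤ L → ∀ (D A : Finset (ℤ × ℤ))
    (b ψ : ℤ × ℤ → ℝ) (l : ℝ), Hb D A b ψ l → ∀ y : ℤ × ℤ, tr y (bx L) ⊆ A →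
    ∀ t : ℝ, 0 < t → t ≤ 1 → ∀ (c k : ℝ), 0 < k →
    ∀ v : ℤ × ℤ → (D → ℝ) → ℝ, (∀ x, Continuous (v x)) →
    ∑ x ∈ tr y (bx L), ∫ h, (1 - bT D b L t y ψ c k v x h) ∂(Mu D b) ≤
      C * (L * Real.sqrt L + t * L ^ 2) +
      2 * ∑ x ∈ tr y (Bo L), ∫ h, min 1 (|bU D b L y ψ c v x h| / k) ∂(Mu D b) := by
  classical
  obtain ⟨C1, hC1, H1⟩ := G_tail 0 1
  refine ⟨36 + 2 * C1, by linarith, ?_⟩
  intro L hL D A b ψ l H y hy t ht0 ht1 c k hk v hv
  have hP : IsProbabilityMeasure (Mu D b) := prob H.hb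
  have hLpos : 0 < L := hL
  have hLr : (0 : ℝ) < L := by exact_mod_cast hLpos
  have hBD : tr y (bx L) ⊆ D := hy.trans H.hA
  have hφ : ∀ z, 0 ≤ ph L t (z - y) ∧ ph L t (z - y) ≤ 1 := fun z => ph_mem L t _
  have hsub : tr y (Bo L) ⊆ tr y (bx L) := fun x hx => mem_tr.2 (tdh_Bo L (mem_tr.1 hx))
  have hUc : ∀ x, Continuous (bU D b L y ψ c v x) := fun x => by
    have h1 : Continuous (fun h : D → ℝ => v x h - ((tr y (Bo L)).card : ℝ)⁻¹ *
        ∑ u ∈ tr y (Bo L), v u h + c - tR D b (tr y (bx L)) ψ x h) :=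
      (((hv x).sub (continuous_const.mul (continuous_finsetSum _ fun u _ =>
        hv u))).add continuous_const).sub (tR_smooth _ _ _ _ _).continuous
    exact h1
  have hTc : ∀ x, Continuous (bT D b L t y ψ c k v x) := fun x => by
    have h1 : Continuous (deriv (Tk k)) := (Tk_smooth hk).continuous_deriv (by simp)
    have h2 : Continuous (fun h : D → ℝ => tE D b (tr y (bx L)) (fun z => ph L t (z - y)) x h *
        deriv (Tk k) (bU D b L y ψ c v x h)) :=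
      (tE_smooth _ _ _ _ _).continuous.mul (h1.comp (hUc x))
    exact h2
  have hEc : ∀ x, Continuous (bE D b L t y x) := fun x => (tE_smooth _ _ _ _ _).continuous
  have hmc : ∀ x, Continuous (fun h => min 1 (|bU D b L y ψ c v x h| / k)) := fun x =>
    continuous_const.min ((hUc x).abs.div_const k)
  have iE : ∀ x, Integrable (fun h => 1 - bE D b L t y x h) (Mu D b) := fun x =>
    int_K H.hb (continuous_const.sub (hEc x))
  have iT : ∀ x, Integrable (fun h => 1 - bT D b L t y ψ c k v x h) (Mu D b) := fun x =>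
    int_K H.hb (continuous_const.sub (hTc x))
  have im : ∀ x, Integrable (fun h => min 1 (|bU D b L y ψ c v x h| / k)) (Mu D b) := fun x =>
    int_K H.hb (hmc x)
  -- reduction to the cut-off
  have h1 : ∀ x ∈ tr y (bx L), ∫ h, (1 - bT D b L t y ψ c k v x h) ∂(Mu D b) ≤
      (∫ h, (1 - bE D b L t y x h) ∂(Mu D b)) + 2 * (if x ∈ tr y (Bo L) then
        ∫ h, min 1 (|bU D b L y ψ c v x h| / k) ∂(Mu D b) else 0) := by
    intro x hx
    by_cases hxB : x ∈ tr y (Bo L)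
    · rw [if_pos hxB, ← integral_const_mul, ← integral_add (iE x) ((im x).const_mul 2)]
      exact integral_mono (iT x) ((iE x).add ((im x).const_mul 2)) fun h =>
        (tT_mem (D := D) (b := b) (B := tr y (bx L)) (tr y (Bo L)) hφ ψ c hk v x h).2.2
    · rw [if_neg hxB, mul_zero, add_zero]
      refine integral_mono (iT x) (iE x) fun h => ?_
      have h2 := (tT_mem (D := D) (b := b) (B := tr y (bx L)) (tr y (Bo L)) hφ ψ c hk v x h).1
      have h3 := (tE_mem (D := D) (b := b) (B := tr y (bx L)) hφ x h).2.2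
      have h4 : ph L t (x - y) = 0 := ph_off hLpos ht0 fun h5 => hxB (mem_tr.2 h5)
      have h5 : bE D b L t y x h ≤ 0 := h3.trans (le_of_eq h4)
      have h6 : 0 ≤ bT D b L t y ψ c k v x h := h2
      show 1 - bT D b L t y ψ c k v x h ≤ 1 - bE D b L t y x h
      linarith
  refine (Finset.sum_le_sum h1).trans ?_
  rw [Finset.sum_add_distrib, ← Finset.mul_sum]
  have h2 : ∑ x ∈ tr y (bx L), (if x ∈ tr y (Bo L) then
      ∫ h, min 1 (|bU D b L y ψ c v x h| / k) ∂(Mu D b) else 0) =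
      ∑ x ∈ tr y (Bo L), ∫ h, min 1 (|bU D b L y ψ c v x h| / k) ∂(Mu D b) := by
    rw [← Finset.sum_filter]
    congr 1
    ext x
    rw [Finset.mem_filter]
    exact ⟨fun h => h.2, fun h => ⟨hsub h, h⟩⟩
  rw [h2]
  refine add_le_add ?_ le_rfl
  -- the cut-off
  obtain ⟨s, hs⟩ : ∃ s : ℕ, s = Nat.sqrt L := ⟨_, rfl⟩
  have hs0 : 0 < s := by
    rw [hs]
    exact Nat.sqrt_pos.2 hLpos
  have hsr : (0 : ℝ) < s := by exact_mod_cast hs0
  obtain ⟨j, hj⟩ : ∃ j : ℕ, j = 4 * s + 4 + ⌈t * L⌉₊ := ⟨_, rfl⟩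
  have he0 : 0 < e0 := by
    unfold e0
    positivity
  have he1 : e0 ≤ 1 / 2 := by
    unfold e0
    norm_num
  have hone : ∀ z ∈ bx L, (j : ℤ) ≤ mB L z → ∀ h : D → ℝ,
      (Gx e0 (tr y (bx L)) (gl D b h) (y + z)).card < s → bE D b L t y (y + z) h = 1 := by
    intro z hz hjz h hc
    have hyz : y + z ∈ tr y (bx L) := by
      rw [mem_tr, add_sub_cancel_left]
      exact hz
    have hm : ∀ u ∈ Gx e0 (tr y (bx L)) (gl D b h) (y + z),
        (3 * (s : ℤ) + 4 + (⌈t * L⌉₊ : ℤ)) ≤ mB L (u - y) := by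
      intro u hu
      have g1 : dn (u - (y + z)) + 1 ≤ (Gx e0 (tr y (bx L)) (gl D b h) (y + z)).card :=
        Cmp_dist hyz hu
      have g2 := (abs_le.1 (mB_lip L (u - y) z)).1
      have g3 : u - y - z = u - (y + z) := by abel
      rw [g3] at g2
      have g4 : ((Gx e0 (tr y (bx L)) (gl D b h) (y + z)).card : ℤ) < s := by exact_mod_cast hc
      rw [hj] at hjz
      push_cast at hjz
      linarith
    refine rho_one he0 he1 (Mmn_mean _) (gl D b h) hyz (t := 1) ?_ ?_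
    · intro u hu
      refine ph_one hLpos ht0 ?_
      have g1 := hm u hu
      have g2 : ((3 * (s : ℤ) + 4 + (⌈t * L⌉₊ : ℤ) : ℤ) : ℝ) ≤ ((mB L (u - y) : ℤ) : ℝ) := by
        exact_mod_cast g1
      have g3 := Nat.le_ceil (t * L)
      push_cast at g2 ⊢
      rw [← hs]
      linarith
    · intro u hu i _ _
      have g1 := hm u hu
      rw [mem_tr]
      have g2 := (abs_le.1 (mB_lip L (u + st i - y) (u - y))).1
      have g3 : u + st i - y - (u - y) = st i := by abel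
      rw [g3] at g2
      have g4 : dn (st i) = 1 := by
        fin_cases i <;> simp [dn, st]
      rw [g4] at g2
      have g5 : (0 : ℤ) ≤ mB L (u + st i - y) := by
        have : (0 : ℤ) ≤ (⌈t * L⌉₊ : ℤ) := Int.natCast_nonneg _
        have : (0 : ℤ) ≤ (s : ℤ) := Int.natCast_nonneg _
        linarith
      have g6 : u + st i - y ∈ inn (bx L) 0 := (mem_inn_mB L 0 _).2 (by exact_mod_cast g5)
      exact mem_inn.1 g6 _ (by
        rw [sub_self, (dn_zero_iff 0).2 rfl]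
        positivity)
  have hF : ∀ z ∈ bx L, ∫ h, (1 - bE D b L t y (y + z) h) ∂(Mu D b) ≤
      (if mB L z < (j : ℤ) then 1 else 0) + C1 / s := by
    intro z hz
    have hyz : y + z ∈ tr y (bx L) := by
      rw [mem_tr, add_sub_cancel_left]
      exact hz
    have hE01 : ∀ h, 0 ≤ bE D b L t y (y + z) h := fun h =>
      (tE_mem (D := D) (b := b) (B := tr y (bx L)) hφ (y + z) h).1
    by_cases hjz : mB L z < (j : ℤ)
    · rw [if_pos hjz]
      have g1 : ∫ h, (1 - bE D b L t y (y + z) h) ∂(Mu D b) ≤ ∫ h, (1 : ℝ) ∂(Mu D b) :=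
        integral_mono (iE _) (integrable_const _) fun h => by
          have := hE01 h
          show 1 - bE D b L t y (y + z) h ≤ 1
          linarith
      rw [integral_const, probReal_univ, one_smul] at g1
      have : 0 ≤ C1 / s := by positivity
      linarith
    · rw [if_neg hjz, zero_add]
      have g1 := H1 D (tr y (bx L)) hBD b H.hb (y + z) hyz s hsr
      rw [pow_one] at g1
      refine le_trans (integral_mono (iE _) g1.1 fun h => ?_) g1.2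
      show 1 - bE D b L t y (y + z) h ≤ if (s : ℝ) ≤ _ then _ else _
      by_cases hc : (s : ℝ) ≤ ((Gx e0 (tr y (bx L)) (gl D b h) (y + z)).card : ℝ)
      · rw [if_pos hc, pow_zero]
        have := hE01 h
        linarith
      · rw [if_neg hc, hone z hz (not_lt.1 hjz) h (by
          rw [not_le] at hc
          exact_mod_cast hc), sub_self]
  have hsum : ∑ x ∈ tr y (bx L), ∫ h, (1 - bE D b L t y x h) ∂(Mu D b) =
      ∑ z ∈ bx L, ∫ h, (1 - bE D b L t y (y + z) h) ∂(Mu D b) := by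
    unfold tr
    exact Finset.sum_image fun a _ b _ h => add_right_injective y h
  rw [hsum]
  refine (Finset.sum_le_sum hF).trans ?_
  rw [Finset.sum_add_distrib, ← Finset.sum_filter, Finset.sum_const, Finset.sum_const,
    nsmul_eq_mul, nsmul_eq_mul, mul_one]
  have hcard : ((bx L).card : ℝ) = (L : ℝ) ^ 2 := by
    unfold bx
    rw [Finset.card_product, Int.card_Ico, sub_zero, Int.toNat_natCast]
    push_cast
    ring
  rw [hcard]
  have g1 : (((bx L).filter (fun z => mB L z < (j : ℤ))).card : ℝ) ≤ 4 * j * L := by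
    have := mB_count L j
    exact_mod_cast this
  obtain ⟨r, hr⟩ : ∃ r : ℝ, r = Real.sqrt L := ⟨_, rfl⟩
  have hr2 : r * r = L := by
    rw [hr]
    exact Real.mul_self_sqrt hLr.le
  have hr0 : 0 < r := by
    rw [hr]
    exact Real.sqrt_pos.2 hLr
  have hL1 : (1 : ℝ) ≤ L := by exact_mod_cast hL
  have hr1 : 1 ≤ r := by nlinarith
  have hs_le : (s : ℝ) ≤ r := by
    rw [hr, hs]
    refine Real.le_sqrt_of_sq_le ?_
    exact_mod_cast Nat.sqrt_le' L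
  have hs_ge : r ≤ 2 * s := by
    have g2 : L < (s + 1) ^ 2 := by
      rw [hs]
      exact Nat.lt_succ_sqrt' L
    have g3 : (L : ℝ) < ((s : ℝ) + 1) ^ 2 := by exact_mod_cast g2
    have g4 : (1 : ℝ) ≤ s := by exact_mod_cast hs0
    have g5 : r < (s : ℝ) + 1 := by nlinarith
    linarith
  have hjr : (j : ℝ) ≤ 9 * r + t * L := by
    have g2 : (⌈t * L⌉₊ : ℝ) < t * L + 1 := Nat.ceil_lt_add_one (by positivity)
    rw [hj]
    push_cast
    linarith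
  have g6 : 4 * (j : ℝ) * L ≤ 4 * (9 * r + t * L) * L := by
    have := mul_le_mul_of_nonneg_right hjr hLr.le
    linarith
  have g7 : (L : ℝ) ^ 2 * (C1 / s) ≤ 2 * C1 * (L * r) := by
    have g8 : C1 / s ≤ 2 * C1 / r := by
      rw [div_le_div_iff₀ hsr hr0]
      nlinarith
    have g9 := mul_le_mul_of_nonneg_left g8 (show 0 ≤ (L : ℝ) ^ 2 by positivity)
    refine g9.trans (le_of_eq ?_)
    rw [← hr2]
    field_simp
  rw [← hr]
  have g10 : 0 ≤ t * (L : ℝ) ^ 2 := by positivity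
  have g11 : 0 ≤ C1 * (t * (L : ℝ) ^ 2) := by positivity
  have g12 : (36 + 2 * C1) * (L * r + t * (L : ℝ) ^ 2) =
      4 * (9 * r + t * L) * L + 2 * C1 * (L * r) + 32 * (t * (L : ℝ) ^ 2) +
        2 * (C1 * (t * (L : ℝ) ^ 2)) := by ring
  rw [g12]
  linarith

/- END tdh -/

end Pool.Agent.Hmk
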