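import Pool.Agent.Hmk.TfD

/-!
# Hmk, trial field (5): the boxes with the universal fields
-/

set_option autoImplicit false

open MeasureTheory Set Filter ProbabilityTheory

open scoped ENNReal ContDiff Topology

noncomputable section

namespace Pool.Agent.Hmk

/-- the universal field of the box at `y` with the gradient of `G` at `y` -/
def vP (D : Finset (ℤ × ℤ)) (b : ℤ × ℤ → ℝ) (L : ℕ) (V0 V1 : ℤ × ℤ → (nb (bx L) → ℝ) → ℝ)
    (G : ℤ × ℤ → ℝ) (y : ℤ × ℤ) : ℤ × ℤ → (D → ℝ) → ℝ :=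
  pl D b (nb (bx L)) y ((dG G y).1 • V0 + (dG G y).2 • V1)

/-- the constant of the box at `y` -/
def cP (σ : ℝ) (L : ℕ) (G : ℤ × ℤ → ℝ) (y : ℤ × ℤ) : ℝ :=
  avf (Bo L) (fun z => σ * dl (dG G y) z) + σ * G y

/-- mean energy of the universal field of the box at `y` -/
def eP (D : Finset (ℤ × ℤ)) (b : ℤ × ℤ → ℝ) (L : ℕ) (V0 V1 : ℤ × ℤ → (nb (bx L) → ℝ) → ℝ)
    (G : ℤ × ℤ → ℝ) (y : ℤ × ℤ) : ℝ :=
  ∫ h, en (nb (bx L)) (bx L) ((dG G y).1 • V0 + (dG G y).2 • V1)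
    (rs (nb (bx L)) y (gl D b h)) ∂(Mu D b)

/-- mean of the truncated deviation at `y` -/
def fP (D : Finset (ℤ × ℤ)) (b : ℤ × ℤ → ℝ) (σ τ : ℝ) (L : ℕ) (d : ℝ × ℝ)
    (V : ℤ × ℤ → (nb (bx L) → ℝ) → ℝ) (y : ℤ × ℤ) : ℝ :=
  ∫ h, fl σ τ L d V (rs (nb (bx L)) y (gl D b h)) ∂(Mu D b)

/- MODULE tea
The placed universal field (`pl_lnice`, `en_pl`, `UF.comb`). -/

private theorem tea_nb (B : Finset (ℤ × ℤ)) : B ⊆ nb B := by
  intro x hx
  exact mem_nb.2 (Or.inl hx)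

private theorem tea_ntr (B : Finset (ℤ × ℤ)) (y : ℤ × ℤ) : nb (tr y B) = tr y (nb B) := by
  ext z
  rw [mem_nb, mem_tr, mem_tr, mem_nb]
  constructor
  · rintro (h | ⟨i, hi⟩)
    · exact Or.inl h
    · refine Or.inr ⟨i, ?_⟩
      rw [mem_tr] at hi
      rwa [show z - y + st i = z + st i - y by abel]
  · rintro (h | ⟨i, hi⟩)
    · exact Or.inl h
    · refine Or.inr ⟨i, ?_⟩
      rw [mem_tr]
      rwa [show z + st i - y = z - y + st i by abel]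

theorem vP_lnice {D : Finset (ℤ × ℤ)} {b : ℤ × ℤ → ℝ} {L : ℕ}
    {V0 V1 : ℤ × ℤ → (nb (bx L) → ℝ) → ℝ} (h0 : UF (bx L) V0) (h1 : UF (bx L) V1)
    (G : ℤ × ℤ → ℝ) {y : ℤ × ℤ} (hy : tr y (nb (bx L)) ⊆ D) :
    LNice D (tr y (bx L)) (vP D b L V0 V1 G y) :=
  pl_lnice (tea_nb _) hy (UF.comb h0 h1 _ _).nice

theorem vP_dep (D : Finset (ℤ × ℤ)) (b : ℤ × ℤ → ℝ) (L : ℕ)
    (V0 V1 : ℤ × ℤ → (nb (bx L) → ℝ) → ℝ) (G : ℤ × ℤ → ℝ) (y x : ℤ × ℤ) :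
    DepS (nb (tr y (bx L))) (vP D b L V0 V1 G y x) := by
  intro h h' hh
  have e1 : rs (nb (bx L)) y (gl D b h) = rs (nb (bx L)) y (gl D b h') := by
    funext w
    show gl D b h (y + w.1) = gl D b h' (y + w.1)
    unfold gl
    split_ifs with hD
    · refine hh ⟨y + w.1, hD⟩ ?_
      show y + w.1 ∈ nb (tr y (bx L))
      rw [tea_ntr, mem_tr, add_sub_cancel_left]
      exact w.2
    · rfl
  show ((dG G y).1 • V0 + (dG G y).2 • V1) (x - y) (rs (nb (bx L)) y (gl D b h)) =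
    ((dG G y).1 • V0 + (dG G y).2 • V1) (x - y) (rs (nb (bx L)) y (gl D b h'))
  rw [e1]

theorem vP_en {D : Finset (ℤ × ℤ)} {b : ℤ × ℤ → ℝ} {L : ℕ}
    {V0 V1 : ℤ × ℤ → (nb (bx L) → ℝ) → ℝ} (h0 : UF (bx L) V0) (h1 : UF (bx L) V1)
    (G : ℤ × ℤ → ℝ) {y : ℤ × ℤ} (hy : tr y (nb (bx L)) ⊆ D) :
    ∫ h, en D (tr y (bx L)) (vP D b L V0 V1 G y) h ∂(Mu D b) = eP D b L V0 V1 G y := by
  unfold eP vP
  refine integral_congr_ae (Filter.Eventually.of_forall fun h => ?_)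
  exact en_pl (tea_nb _) hy (UF.comb h0 h1 _ _).nice h

/-- independence of the boundary data if all sites involved are free -/
theorem vP_indep {D : Finset (ℤ × ℤ)} (b b' : ℤ × ℤ → ℝ) {L : ℕ}
    (V0 V1 : ℤ × ℤ → (nb (bx L) → ℝ) → ℝ) (G : ℤ × ℤ → ℝ) {y : ℤ × ℤ}
    (hy : tr y (nb (bx L)) ⊆ D) : vP D b L V0 V1 G y = vP D b' L V0 V1 G y := by
  funext x h
  have e1 : rs (nb (bx L)) y (gl D b h) = rs (nb (bx L)) y (gl D b' h) := by
    funext w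
    show gl D b h (y + w.1) = gl D b' h (y + w.1)
    have hD : y + w.1 ∈ D := hy (by
      rw [mem_tr, add_sub_cancel_left]
      exact w.2)
    unfold gl
    rw [dif_pos hD, dif_pos hD]
  show ((dG G y).1 • V0 + (dG G y).2 • V1) (x - y) (rs (nb (bx L)) y (gl D b h)) =
    ((dG G y).1 • V0 + (dG G y).2 • V1) (x - y) (rs (nb (bx L)) y (gl D b' h))
  rw [e1]

/- END tea -/

/- MODULE teb
The truncated argument.  For `x = y + z`, `z ∈ Bo L`, `f j = V j z - σ dl (e j) z`: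
`bU x = d.1 (f 0 - avg) + d.2 (f 1 - avg) + (σ dl d z + σ G y - σ G x) + (σ G x - tR x)`
(the average over `tr y (Bo L)` of `v` is the average over `Bo L` of `V`), `Rg.tay`, `Rg.lip`,
`rho_lip` for `tR` with `l = σ C δ`; `min 1 (a + b) ≤ min 1 a + min 1 b`, `min 1 (C a) ≤ C min 1 a`
for `C ≥ 1`; `k = τ L δ`. -/

private theorem teb_m1 {a b : ℝ} (ha : 0 ≤ a) (hb : 0 ≤ b) :
    min 1 (a + b) ≤ min 1 a + min 1 b := by
  rcases le_total 1 a with h1 | h1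
  · rw [min_eq_left h1]
    have h2 : min (1 : ℝ) (a + b) ≤ 1 := min_le_left _ _
    have h3 : (0 : ℝ) ≤ min 1 b := le_min zero_le_one hb
    linarith
  · rcases le_total 1 b with h2 | h2
    · rw [min_eq_left h2]
      have h3 : min (1 : ℝ) (a + b) ≤ 1 := min_le_left _ _
      have h4 : (0 : ℝ) ≤ min 1 a := le_min zero_le_one ha
      linarith
    · rw [min_eq_right h1, min_eq_right h2]
      exact min_le_right _ _

private theorem teb_m2 {C a : ℝ} (hC : 0 ≤ C) (ha : 0 ≤ a) :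
    min 1 (C * a) ≤ (1 + C) * min 1 a := by
  rcases le_total 1 a with h1 | h1
  · rw [min_eq_left h1]
    have h2 : min (1 : ℝ) (C * a) ≤ 1 := min_le_left _ _
    linarith
  · rw [min_eq_right h1]
    have h2 : min (1 : ℝ) (C * a) ≤ C * a := min_le_right _ _
    linarith

private theorem teb_m3 {a b : ℝ} (hb : 0 ≤ b) : min 1 (a + b) ≤ min 1 a + b := by
  rcases le_total 1 a with h1 | h1
  · rw [min_eq_left h1]
    have h2 : min (1 : ℝ) (a + b) ≤ 1 := min_le_left _ _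
    linarith
  · rw [min_eq_right h1]
    exact min_le_right _ _

private theorem teb_avf (F : Finset (ℤ × ℤ)) (f g : ℤ × ℤ → ℝ) (s t : ℝ) :
    avf F (fun u => s * f u + t * g u) = s * avf F f + t * avf F g := by
  unfold avf
  rw [Finset.sum_add_distrib, ← Finset.mul_sum, ← Finset.mul_sum]
  ring

private theorem teb_tr (F : Finset (ℤ × ℤ)) (y : ℤ × ℤ) (f : ℤ × ℤ → ℝ) :
    avf (tr y F) f = avf F (fun u => f (y + u)) := by
  unfold avf tr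
  rw [Finset.card_image_of_injective _ (add_right_injective y),
    Finset.sum_image (fun a _ b _ hab => add_right_injective y hab)]

private theorem teb_dl (d : ℝ × ℝ) (u : ℤ × ℤ) :
    dl d u = d.1 * dl (1, 0) u + d.2 * dl (0, 1) u := by
  unfold dl
  simp only
  ring

private theorem teb_id {L : ℕ} (D : Finset (ℤ × ℤ)) (b : ℤ × ℤ → ℝ) (G : ℤ × ℤ → ℝ) (σ : ℝ)
    (V0 V1 : ℤ × ℤ → (nb (bx L) → ℝ) → ℝ) (y z : ℤ × ℤ) (h : D → ℝ) :
    bU D b L y (fun z => σ * G z) (cP σ L G y) (vP D b L V0 V1 G y) (y + z) h =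
      (dG G y).1 * ((V0 z (rs (nb (bx L)) y (gl D b h)) - σ * dl (1, 0) z) -
          avf (Bo L) (fun u => V0 u (rs (nb (bx L)) y (gl D b h)) - σ * dl (1, 0) u)) +
      (dG G y).2 * ((V1 z (rs (nb (bx L)) y (gl D b h)) - σ * dl (0, 1) z) -
          avf (Bo L) (fun u => V1 u (rs (nb (bx L)) y (gl D b h)) - σ * dl (0, 1) u)) +
      (- σ * (G (y + z) - G y - dl (dG G y) z)) -
      (tR D b (tr y (bx L)) (fun z => σ * G z) (y + z) h - σ * G (y + z)) := by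
  have e0 : ∀ u : ℤ × ℤ, vP D b L V0 V1 G y (y + u) h =
      (dG G y).1 * V0 u (rs (nb (bx L)) y (gl D b h)) +
      (dG G y).2 * V1 u (rs (nb (bx L)) y (gl D b h)) := by
    intro u
    show ((dG G y).1 • V0 + (dG G y).2 • V1) (y + u - y) (rs (nb (bx L)) y (gl D b h)) = _
    rw [add_sub_cancel_left]
    rfl
  have e1 : avf (tr y (Bo L)) (fun z => vP D b L V0 V1 G y z h) =
      (dG G y).1 * avf (Bo L) (fun u => V0 u (rs (nb (bx L)) y (gl D b h))) +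
      (dG G y).2 * avf (Bo L) (fun u => V1 u (rs (nb (bx L)) y (gl D b h))) := by
    rw [teb_tr, ← teb_avf]
    simp only [e0]
  have e2 : avf (Bo L) (fun z => σ * dl (dG G y) z) =
      (σ * (dG G y).1) * avf (Bo L) (fun u => dl (1, 0) u) +
      (σ * (dG G y).2) * avf (Bo L) (fun u => dl (0, 1) u) := by
    rw [← teb_avf]
    congr 1
    funext u
    rw [teb_dl]
    ring
  have e3 : avf (Bo L) (fun u => V0 u (rs (nb (bx L)) y (gl D b h)) - σ * dl (1, 0) u) =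
      1 * avf (Bo L) (fun u => V0 u (rs (nb (bx L)) y (gl D b h))) +
      (-σ) * avf (Bo L) (fun u => dl (1, 0) u) := by
    rw [← teb_avf]
    congr 1
    funext u
    ring
  have e4 : avf (Bo L) (fun u => V1 u (rs (nb (bx L)) y (gl D b h)) - σ * dl (0, 1) u) =
      1 * avf (Bo L) (fun u => V1 u (rs (nb (bx L)) y (gl D b h))) +
      (-σ) * avf (Bo L) (fun u => dl (0, 1) u) := by
    rw [← teb_avf]
    congr 1
    funext u
    ring
  show vP D b L V0 V1 G y (y + z) h - avf (tr y (Bo L)) (fun z => vP D b L V0 V1 G y z h) +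
    cP σ L G y - tR D b (tr y (bx L)) (fun z => σ * G z) (y + z) h = _
  rw [e1, e0, e3, e4]
  unfold cP
  rw [e2, teb_dl (dG G y) z]
  ring

private theorem teb_dn {L : ℕ} {z : ℤ × ℤ} (hz : z ∈ Bo L) :
    z ∈ bx L ∧ 0 ≤ (dn z : ℝ) ∧ (dn z : ℝ) + 1 ≤ 2 * L := by
  have h1 := (inn_bx L (3 * Nat.sqrt L + 3) z).1 hz
  obtain ⟨h2, h3, h4, h5⟩ := h1
  have h6 : (0 : ℤ) ≤ ((3 * Nat.sqrt L + 3 : ℕ) : ℤ) := Int.natCast_nonneg _
  have h7 : 0 ≤ z.1 := le_trans h6 h2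
  have h8 : 0 ≤ z.2 := le_trans h6 h4
  have h9 : z.1 < L := by linarith
  have h10 : z.2 < L := by linarith
  refine ⟨?_, ?_, ?_⟩
  · unfold bx
    simp only [Finset.mem_product, Finset.mem_Ico]
    exact ⟨⟨h7, h9⟩, ⟨h8, h10⟩⟩
  · have : 0 ≤ dn z := by
      unfold dn
      exact le_max_of_le_left (abs_nonneg _)
    exact_mod_cast this
  · have : dn z + 1 ≤ 2 * (L : ℤ) := by
      unfold dn
      have k1 : |z.1| = z.1 := abs_of_nonneg h7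
      have k2 : |z.2| = z.2 := abs_of_nonneg h8
      have k3 : |z.1 + z.2| = z.1 + z.2 := abs_of_nonneg (by linarith)
      rw [k1, k2, k3]
      have : max z.1 (max z.2 (z.1 + z.2)) ≤ 2 * (L : ℤ) - 1 := by
        refine max_le (by omega) (max_le (by omega) (by omega))
      linarith
    exact_mod_cast this

theorem bU_point : ∃ C : ℝ, 1 ≤ C ∧ ∀ (L : ℕ), 1 ≤ L → ∀ (D : Finset (ℤ × ℤ)) (b : ℤ × ℤ → ℝ)
    (G : ℤ × ℤ → ℝ) (δ Cg σ τ : ℝ), Rg G δ Cg → 0 < δ → δ ≤ 1 → 0 ≤ σ → 0 < τ → τ ≤ 1 →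
    ∀ (V0 V1 : ℤ × ℤ → (nb (bx L) → ℝ) → ℝ) (y : ℤ × ℤ), ∀ z ∈ Bo L, ∀ h : D → ℝ,
    min 1 (|bU D b L y (fun z => σ * G z) (cP σ L G y) (vP D b L V0 V1 G y) (y + z) h| /
      (τ * L * δ)) ≤
      C * (1 + Cg) * (1 + σ) * (
        min 1 (|(V0 z (rs (nb (bx L)) y (gl D b h)) - σ * dl (1, 0) z) -
          avf (Bo L) (fun u => V0 u (rs (nb (bx L)) y (gl D b h)) - σ * dl (1, 0) u)| / (τ * L)) +
        min 1 (|(V1 z (rs (nb (bx L)) y (gl D b h)) - σ * dl (0, 1) z) -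
          avf (Bo L) (fun u => V1 u (rs (nb (bx L)) y (gl D b h)) - σ * dl (0, 1) u)| / (τ * L)) +
        δ * L / τ + ((Gx e0 (tr y (bx L)) (gl D b h) (y + z)).card : ℝ) / (τ * L)) := by
  obtain ⟨C1, hC1, H⟩ := rho_lip
  refine ⟨4 + C1, by linarith, ?_⟩
  intro L hL D b G δ Cg σ τ hG hδ _ hσ hτ _ V0 V1 y z hz h
  obtain ⟨hzb, hdn0, hdn⟩ := teb_dn hz
  have hL' : (0 : ℝ) < L := by exact_mod_cast hL
  have hCg : 0 ≤ Cg := hG.C0
  have hl : ∀ x i, |(fun z => σ * G z) x - (fun z => σ * G z) (x + st i)| ≤ σ * Cg * δ := by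
    intro x i
    show |σ * G x - σ * G (x + st i)| ≤ σ * Cg * δ
    rw [← mul_sub, abs_mul, abs_of_nonneg hσ, mul_assoc]
    exact mul_le_mul_of_nonneg_left (hG.lip x i) hσ
  have hmem : y + z ∈ tr y (bx L) := by
    rw [mem_tr, add_sub_cancel_left]
    exact hzb
  have hR : |tR D b (tr y (bx L)) (fun z => σ * G z) (y + z) h - σ * G (y + z)| ≤
      C1 * (σ * Cg * δ) * (Gx e0 (tr y (bx L)) (gl D b h) (y + z)).card :=
    (H (Ui (tr y (bx L))) (tr y (bx L)) (Mav (fun z => σ * G z)) (fun z => σ * G z)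
      (Mav_mean _) ⟨Finset.filter_subset _ _, Or.inr (Finset.Subset.refl _)⟩ (σ * Cg * δ) hl D b h
      (y + z) hmem).1
  have hT : |G (y + z) - G y - dl (dG G y) z| ≤ Cg * δ ^ 2 * (4 * (L : ℝ) ^ 2) := by
    refine (hG.tay y z).trans ?_
    refine mul_le_mul_of_nonneg_left ?_ (by positivity)
    nlinarith
  have hd1 : |(dG G y).1| ≤ Cg * δ := by
    have := hG.lip y 0
    rw [abs_sub_comm] at this
    exact this
  have hd2 : |(dG G y).2| ≤ Cg * δ := by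
    have := hG.lip y 1
    rw [abs_sub_comm] at this
    exact this
  rw [teb_id D b G σ V0 V1 y z h]
  set A0 := (V0 z (rs (nb (bx L)) y (gl D b h)) - σ * dl (1, 0) z) -
          avf (Bo L) (fun u => V0 u (rs (nb (bx L)) y (gl D b h)) - σ * dl (1, 0) u) with hA0
  set A1 := (V1 z (rs (nb (bx L)) y (gl D b h)) - σ * dl (0, 1) z) -
          avf (Bo L) (fun u => V1 u (rs (nb (bx L)) y (gl D b h)) - σ * dl (0, 1) u) with hA1
  set g : ℝ := ((Gx e0 (tr y (bx L)) (gl D b h) (y + z)).card : ℝ) with hg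
  set r1 := G (y + z) - G y - dl (dG G y) z with hr1
  set r2 := tR D b (tr y (bx L)) (fun z => σ * G z) (y + z) h - σ * G (y + z) with hr2
  have hg0 : 0 ≤ g := by positivity
  have hB : |(dG G y).1 * A0 + (dG G y).2 * A1 + -σ * r1 - r2| ≤
      Cg * δ * |A0| + Cg * δ * |A1| + σ * (Cg * δ ^ 2 * (4 * (L : ℝ) ^ 2)) +
        C1 * (σ * Cg * δ) * g := by
    have t1 : |(dG G y).1 * A0 + (dG G y).2 * A1 + -σ * r1 - r2| ≤
        |(dG G y).1 * A0| + |(dG G y).2 * A1| + |-σ * r1| + |r2| := by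
      have s1 := abs_sub (((dG G y).1 * A0 + (dG G y).2 * A1 + -σ * r1)) r2
      have s2 := abs_add_le ((dG G y).1 * A0 + (dG G y).2 * A1) (-σ * r1)
      have s3 := abs_add_le ((dG G y).1 * A0) ((dG G y).2 * A1)
      linarith
    have t2 : |(dG G y).1 * A0| ≤ Cg * δ * |A0| := by
      rw [abs_mul]
      exact mul_le_mul_of_nonneg_right hd1 (abs_nonneg _)
    have t3 : |(dG G y).2 * A1| ≤ Cg * δ * |A1| := by
      rw [abs_mul]
      exact mul_le_mul_of_nonneg_right hd2 (abs_nonneg _)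
    have t4 : |-σ * r1| ≤ σ * (Cg * δ ^ 2 * (4 * (L : ℝ) ^ 2)) := by
      rw [abs_mul, abs_neg, abs_of_nonneg hσ]
      exact mul_le_mul_of_nonneg_left hT hσ
    linarith
  have hq : |(dG G y).1 * A0 + (dG G y).2 * A1 + -σ * r1 - r2| / (τ * L * δ) ≤
      Cg * (|A0| / (τ * L)) + Cg * (|A1| / (τ * L)) + (4 * σ * Cg * (δ * L / τ) +
        C1 * σ * Cg * (g / (τ * L))) := by
    rw [div_le_iff₀ (by positivity)]
    refine hB.trans (le_of_eq ?_)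
    field_simp
    ring
  have ha0 : 0 ≤ |A0| / (τ * L) := by positivity
  have ha1 : 0 ≤ |A1| / (τ * L) := by positivity
  have hp : 0 ≤ δ * L / τ := by positivity
  have hgg : 0 ≤ g / (τ * L) := by positivity
  set a0 := |A0| / (τ * L)
  set a1 := |A1| / (τ * L)
  set p := δ * L / τ
  set gg := g / (τ * L)
  have m0 : 0 ≤ min 1 a0 := le_min zero_le_one ha0
  have m1 : 0 ≤ min 1 a1 := le_min zero_le_one ha1
  have hK1 : 1 + Cg ≤ (4 + C1) * (1 + Cg) * (1 + σ) := by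
    have h1 : 0 ≤ Cg * σ := mul_nonneg hCg hσ
    have h2 : 0 ≤ C1 * (1 + Cg) * (1 + σ) := by positivity
    nlinarith
  have hK2 : 4 * σ * Cg ≤ (4 + C1) * (1 + Cg) * (1 + σ) := by
    have h1 : 0 ≤ Cg * σ := mul_nonneg hCg hσ
    have h2 : 0 ≤ C1 * (1 + Cg) * (1 + σ) := by positivity
    nlinarith
  have hK3 : C1 * σ * Cg ≤ (4 + C1) * (1 + Cg) * (1 + σ) := by
    have h1 : 0 ≤ C1 * Cg := by positivity
    have h2 : 0 ≤ C1 * σ := by positivity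
    have h3 : 0 ≤ 4 * (1 + Cg) * (1 + σ) := by positivity
    nlinarith
  calc min 1 (|(dG G y).1 * A0 + (dG G y).2 * A1 + -σ * r1 - r2| / (τ * L * δ))
      ≤ min 1 (Cg * a0 + Cg * a1 + (4 * σ * Cg * p + C1 * σ * Cg * gg)) :=
        min_le_min le_rfl hq
    _ ≤ min 1 (Cg * a0 + Cg * a1) + (4 * σ * Cg * p + C1 * σ * Cg * gg) :=
        teb_m3 (by positivity)
    _ ≤ (min 1 (Cg * a0) + min 1 (Cg * a1)) + (4 * σ * Cg * p + C1 * σ * Cg * gg) := by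
        have := teb_m1 (a := Cg * a0) (b := Cg * a1) (by positivity) (by positivity)
        linarith
    _ ≤ ((1 + Cg) * min 1 a0 + (1 + Cg) * min 1 a1) +
        (4 * σ * Cg * p + C1 * σ * Cg * gg) := by
        have h1 := teb_m2 hCg ha0
        have h2 := teb_m2 hCg ha1
        linarith
    _ ≤ (4 + C1) * (1 + Cg) * (1 + σ) * (min 1 a0 + min 1 a1 + p + gg) := by
        have h1 := mul_le_mul_of_nonneg_right hK1 m0
        have h2 := mul_le_mul_of_nonneg_right hK1 m1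
        have h3 := mul_le_mul_of_nonneg_right hK2 hp
        have h4 := mul_le_mul_of_nonneg_right hK3 hgg
        have h5 : (4 + C1) * (1 + Cg) * (1 + σ) * (min 1 a0 + min 1 a1 + p + gg) =
            (4 + C1) * (1 + Cg) * (1 + σ) * min 1 a0 + (4 + C1) * (1 + Cg) * (1 + σ) * min 1 a1 +
            (4 + C1) * (1 + Cg) * (1 + σ) * p + (4 + C1) * (1 + Cg) * (1 + σ) * gg := by ring
        rw [h5]
        linarith

/- END teb -/

/- MODULE tec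
In mean (`G_moment` with the box as `A`; `fl` is the sum over `Bo L`; `card (Bo L) ≤ L²`). -/

private theorem tec_key {L : ℕ} {V : ℤ × ℤ → (nb (bx L) → ℝ) → ℝ} (hV : UF (bx L) V) (σ τ : ℝ)
    (d : ℝ × ℝ) (x : ℤ × ℤ) : Lg (nb (bx L)) (fun k => min 1 (|(V x k - σ * dl d x) -
    avf (Bo L) (fun z => V z k - σ * dl d z)| / (τ * L))) := by
  obtain ⟨C, hC⟩ := hV.bdd
  have hms : ∀ z, Measurable (V z) := fun z => (hV.nice.sm z).continuous.measurable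
  have hav : Measurable (fun k => avf (Bo L) (fun z => V z k - σ * dl d z)) := by
    unfold avf
    exact (Finset.measurable_fun_sum _ (fun z _ => (hms z).sub_const _)).const_mul _
  refine ⟨?_, ?_, ?_⟩
  · exact measurable_const.min ((((hms x).sub_const _).sub hav).abs.div_const _)
  · set C2 : ℝ := ((Bo L).card : ℝ)⁻¹ * ∑ z ∈ Bo L, (C + |σ * dl d z|) with hC2
    have h1 : ∀ z k, |V z k - σ * dl d z| ≤ C + |σ * dl d z| := fun z k => by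
      have h2 := abs_sub (V z k) (σ * dl d z)
      have h3 := hC z k
      linarith
    have h2 : ∀ k, |avf (Bo L) (fun z => V z k - σ * dl d z)| ≤ C2 := fun k => by
      unfold avf
      rw [abs_mul, abs_of_nonneg (by positivity : (0 : ℝ) ≤ ((Bo L).card : ℝ)⁻¹)]
      refine mul_le_mul_of_nonneg_left ?_ (by positivity)
      exact (Finset.abs_sum_le_sum_abs _ _).trans (Finset.sum_le_sum (fun z _ => h1 z k))
    refine ⟨1 + (C + |σ * dl d x| + C2) / |τ * L|, fun k => ?_⟩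
    set u : ℝ := |(V x k - σ * dl d x) - avf (Bo L) (fun z => V z k - σ * dl d z)| / (τ * L)
      with hu
    have h3 : |u| ≤ (C + |σ * dl d x| + C2) / |τ * L| := by
      rw [hu, abs_div, abs_abs]
      refine div_le_div_of_nonneg_right ?_ (abs_nonneg _)
      have h4 := abs_sub (V x k - σ * dl d x) (avf (Bo L) (fun z => V z k - σ * dl d z))
      have h5 := h1 x k
      have h6 := h2 k
      linarith
    have h4 := neg_abs_le u
    have h5 := abs_nonneg u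
    rw [abs_le]
    constructor
    · refine le_min ?_ ?_
      · linarith
      · linarith
    · exact (min_le_left _ _).trans (by linarith)
  · intro k t
    have h1 : ∀ z, V z (fun w => k w + t) = V z k := fun z => hV.shf z k t
    simp only [h1]

theorem fl_Lg {L : ℕ} {V : ℤ × ℤ → (nb (bx L) → ℝ) → ℝ} (hV : UF (bx L) V) (σ τ : ℝ)
    (d : ℝ × ℝ) : Lg (nb (bx L)) (fl σ τ L d V) :=
  Lg.sum (Bo L) (fun x _ => tec_key hV σ τ d x)

private theorem tec_sub (L : ℕ) : Bo L ⊆ bx L := by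
  classical
  unfold Bo inn
  exact Finset.filter_subset _ _

private theorem tec_card (L : ℕ) : ((Bo L).card : ℝ) ≤ (L : ℝ) ^ 2 := by
  have h1 : (Bo L).card ≤ (bx L).card := Finset.card_le_card (tec_sub L)
  have h2 : (bx L).card = L ^ 2 := by
    simp [bx, sq]
  have h3 : ((Bo L).card : ℝ) ≤ ((L ^ 2 : ℕ) : ℝ) := by
    exact_mod_cast h1.trans h2.le
  simpa using h3

theorem fl_mem {L : ℕ} (V : ℤ × ℤ → (nb (bx L) → ℝ) → ℝ) (σ : ℝ) {τ : ℝ} (hτ : 0 < τ)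
    (d : ℝ × ℝ) (k : nb (bx L) → ℝ) : 0 ≤ fl σ τ L d V k ∧ fl σ τ L d V k ≤ (L : ℝ) ^ 2 := by
  unfold fl
  constructor
  · refine Finset.sum_nonneg (fun x _ => ?_)
    exact le_min zero_le_one (by positivity)
  · refine (Finset.sum_le_card_nsmul _ _ 1 (fun x _ => min_le_left _ _)).trans ?_
    rw [nsmul_eq_mul, mul_one]
    exact tec_card L

private theorem tec_int {W : Finset (ℤ × ℤ)} {g : (W → ℝ) → ℝ} (hg : Lg W g)
    {D : Finset (ℤ × ℤ)} {b : ℤ × ℤ → ℝ} (hb : ∀ z, |b z| ≤ 1 / 2) (y : ℤ × ℤ) :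
    Integrable (fun h => g (rs W y (gl D b h))) (Mu D b) := by
  have := Mu_prob (D := D) hb
  obtain ⟨C, hC⟩ := hg.bd
  refine Integrable.of_bound (C := C) ?_ (Filter.Eventually.of_forall (fun h => ?_))
  · exact (hg.ms.comp (rs_meas D W b y)).aestronglyMeasurable
  · rw [Real.norm_eq_abs]
    exact hC _

theorem bU_mean : ∃ C : ℝ, 1 ≤ C ∧ ∀ (L : ℕ), 1 ≤ L → ∀ (D : Finset (ℤ × ℤ)) (b : ℤ × ℤ → ℝ)
    (G : ℤ × ℤ → ℝ) (δ Cg σ τ : ℝ), (∀ z, |b z| ≤ 1 / 2) → Rg G δ Cg → 0 < δ → δ ≤ 1 → 0 ≤ σ →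
    0 < τ → τ ≤ 1 → ∀ (V0 V1 : ℤ × ℤ → (nb (bx L) → ℝ) → ℝ), UF (bx L) V0 → UF (bx L) V1 →
    ∀ y : ℤ × ℤ, tr y (bx L) ⊆ D →
    ∑ x ∈ tr y (Bo L), ∫ h, min 1 (|bU D b L y (fun z => σ * G z) (cP σ L G y)
      (vP D b L V0 V1 G y) x h| / (τ * L * δ)) ∂(Mu D b) ≤
      C * (1 + Cg) * (1 + σ) * (fP D b σ τ L (1, 0) V0 y + fP D b σ τ L (0, 1) V1 y +
        δ * L ^ 3 / τ + L / τ) := by
  obtain ⟨C1, hC1, h1⟩ := bU_point
  obtain ⟨C2, hC2, h2⟩ := G_moment 1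
  refine ⟨C1 * C2, one_le_mul_of_one_le_of_one_le hC1 hC2, ?_⟩
  intro L hL D b G δ Cg σ τ hb hG hδ hδ1 hσ hτ hτ1 V0 V1 hV0 hV1 y hy
  have := Mu_prob (D := D) hb
  have hL0 : (0 : ℝ) < L := by exact_mod_cast hL
  set B0 : ℝ := C1 * (1 + Cg) * (1 + σ) with hB0
  have hCg := hG.C0
  have hB : 0 ≤ B0 := by positivity
  set A0 : ℤ × ℤ → (nb (bx L) → ℝ) → ℝ := fun z k => min 1 (|(V0 z k - σ * dl (1, 0) z) -
    avf (Bo L) (fun u => V0 u k - σ * dl (1, 0) u)| / (τ * L)) with hA0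
  set A1 : ℤ × ℤ → (nb (bx L) → ℝ) → ℝ := fun z k => min 1 (|(V1 z k - σ * dl (0, 1) z) -
    avf (Bo L) (fun u => V1 u k - σ * dl (0, 1) u)| / (τ * L)) with hA1
  have i0 : ∀ z, Integrable (fun h => A0 z (rs (nb (bx L)) y (gl D b h))) (Mu D b) :=
    fun z => tec_int (tec_key hV0 σ τ (1, 0) z) hb y
  have i1 : ∀ z, Integrable (fun h => A1 z (rs (nb (bx L)) y (gl D b h))) (Mu D b) :=
    fun z => tec_int (tec_key hV1 σ τ (0, 1) z) hb y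
  have hmem : ∀ z ∈ Bo L, y + z ∈ tr y (bx L) := fun z hz =>
    Finset.mem_image_of_mem _ (tec_sub L hz)
  have hz1 : ∀ z ∈ Bo L, ∫ h, min 1 (|bU D b L y (fun z => σ * G z) (cP σ L G y)
      (vP D b L V0 V1 G y) (y + z) h| / (τ * L * δ)) ∂(Mu D b) ≤
      B0 * ((∫ h, A0 z (rs (nb (bx L)) y (gl D b h)) ∂(Mu D b)) +
        (∫ h, A1 z (rs (nb (bx L)) y (gl D b h)) ∂(Mu D b)) + δ * L / τ + C2 / (τ * L)) := by
    intro z hz
    obtain ⟨i2, h3⟩ := h2 D (tr y (bx L)) hy b hb (y + z) (hmem z hz)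
    simp only [pow_one] at i2 h3
    have i3 : Integrable (fun h : D → ℝ => B0 * (A0 z (rs (nb (bx L)) y (gl D b h)) +
        A1 z (rs (nb (bx L)) y (gl D b h)) + δ * L / τ +
        ((Gx e0 (tr y (bx L)) (gl D b h) (y + z)).card : ℝ) / (τ * L))) (Mu D b) :=
      ((((i0 z).add (i1 z)).add (integrable_const _)).add (i2.div_const _)).const_mul _
    refine (integral_mono_of_nonneg (Filter.Eventually.of_forall (fun h => ?_)) i3
      (Filter.Eventually.of_forall (fun h => ?_))).trans ?_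
    · exact le_min zero_le_one (by positivity)
    · exact h1 L hL D b G δ Cg σ τ hG hδ hδ1 hσ hτ hτ1 V0 V1 y z hz h
    · have j1 : Integrable (fun h : D → ℝ => A0 z (rs (nb (bx L)) y (gl D b h)) +
          A1 z (rs (nb (bx L)) y (gl D b h))) (Mu D b) := (i0 z).add (i1 z)
      have j2 : Integrable (fun h : D → ℝ => A0 z (rs (nb (bx L)) y (gl D b h)) +
          A1 z (rs (nb (bx L)) y (gl D b h)) + δ * L / τ) (Mu D b) :=
        j1.add (integrable_const _)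
      have j3 : Integrable (fun h : D → ℝ =>
          ((Gx e0 (tr y (bx L)) (gl D b h) (y + z)).card : ℝ) / (τ * L)) (Mu D b) :=
        i2.div_const _
      rw [integral_const_mul, integral_add j2 j3, integral_add j1 (integrable_const _),
        integral_add (i0 z) (i1 z), integral_div (τ * (L : ℝ)), integral_const]
      simp only [probReal_univ, smul_eq_mul, one_mul]
      refine mul_le_mul_of_nonneg_left ?_ hB
      have h4 : (∫ h, ((Gx e0 (tr y (bx L)) (gl D b h) (y + z)).card : ℝ) ∂(Mu D b)) / (τ * L) ≤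
          C2 / (τ * L) := div_le_div_of_nonneg_right h3 (by positivity)
      linarith
  have hsum : ∑ x ∈ tr y (Bo L), ∫ h, min 1 (|bU D b L y (fun z => σ * G z) (cP σ L G y)
      (vP D b L V0 V1 G y) x h| / (τ * L * δ)) ∂(Mu D b) =
      ∑ z ∈ Bo L, ∫ h, min 1 (|bU D b L y (fun z => σ * G z) (cP σ L G y)
      (vP D b L V0 V1 G y) (y + z) h| / (τ * L * δ)) ∂(Mu D b) := by
    unfold tr
    exact Finset.sum_image (fun a _ c _ h => add_left_cancel h)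
  rw [hsum]
  refine (Finset.sum_le_sum hz1).trans ?_
  rw [← Finset.mul_sum]
  have hf0 : fP D b σ τ L (1, 0) V0 y = ∑ z ∈ Bo L,
      ∫ h, A0 z (rs (nb (bx L)) y (gl D b h)) ∂(Mu D b) := by
    unfold fP fl
    exact integral_finsetSum _ (fun z _ => i0 z)
  have hf1 : fP D b σ τ L (0, 1) V1 y = ∑ z ∈ Bo L,
      ∫ h, A1 z (rs (nb (bx L)) y (gl D b h)) ∂(Mu D b) := by
    unfold fP fl
    exact integral_finsetSum _ (fun z _ => i1 z)
  have hf0' : 0 ≤ fP D b σ τ L (1, 0) V0 y := by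
    unfold fP
    exact integral_nonneg (fun h => (fl_mem V0 σ hτ (1, 0) _).1)
  have hf1' : 0 ≤ fP D b σ τ L (0, 1) V1 y := by
    unfold fP
    exact integral_nonneg (fun h => (fl_mem V1 σ hτ (0, 1) _).1)
  simp only [Finset.sum_add_distrib, Finset.sum_const, nsmul_eq_mul]
  rw [← hf0, ← hf1]
  have hc := tec_card L
  have h5 : ((Bo L).card : ℝ) * (δ * L / τ) ≤ δ * L ^ 3 / τ := by
    calc ((Bo L).card : ℝ) * (δ * L / τ) ≤ (L : ℝ) ^ 2 * (δ * L / τ) :=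
          mul_le_mul_of_nonneg_right hc (by positivity)
      _ = δ * L ^ 3 / τ := by ring
  have h6 : ((Bo L).card : ℝ) * (C2 / (τ * L)) ≤ C2 * (L / τ) := by
    calc ((Bo L).card : ℝ) * (C2 / (τ * L)) ≤ (L : ℝ) ^ 2 * (C2 / (τ * L)) :=
          mul_le_mul_of_nonneg_right hc (by positivity)
      _ = C2 * (L / τ) := by
          field_simp
  have h7 : 0 ≤ δ * L ^ 3 / τ := by positivity
  have h8 : fP D b σ τ L (1, 0) V0 y + fP D b σ τ L (0, 1) V1 y + δ * L ^ 3 / τ ≤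
      C2 * (fP D b σ τ L (1, 0) V0 y + fP D b σ τ L (0, 1) V1 y + δ * L ^ 3 / τ) :=
    le_mul_of_one_le_left (by positivity) hC2
  calc B0 * (fP D b σ τ L (1, 0) V0 y + fP D b σ τ L (0, 1) V1 y +
        ((Bo L).card : ℝ) * (δ * L / τ) + ((Bo L).card : ℝ) * (C2 / (τ * L))) ≤
        B0 * (C2 * (fP D b σ τ L (1, 0) V0 y + fP D b σ τ L (0, 1) V1 y +
          δ * L ^ 3 / τ) + C2 * (L / τ)) :=
        mul_le_mul_of_nonneg_left (by linarith) hB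
    _ = C1 * C2 * (1 + Cg) * (1 + σ) * (fP D b σ τ L (1, 0) V0 y + fP D b σ τ L (0, 1) V1 y +
        δ * L ^ 3 / τ + L / τ) := by
        rw [hB0]
        ring

/- END tec -/

/-- the error term of one box, divided by `δ² L²` -/
def rP (D : Finset (ℤ × ℤ)) (b : ℤ × ℤ → ℝ) (σ τ t q δ : ℝ) (L : ℕ)
    (V0 V1 : ℤ × ℤ → (nb (bx L) → ℝ) → ℝ) (y : ℤ × ℤ) : ℝ :=
  Real.sqrt (1 / Real.sqrt L + t + δ * L / τ + 1 / (τ * L)) +
    Real.sqrt ((fP D b σ τ L (1, 0) V0 y + fP D b σ τ L (0, 1) V1 y) / L ^ 2) +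
    (1 / q) * (1 / Real.sqrt L + τ ^ 2 / t ^ 2)

/- MODULE ted
THE BOUND FOR ONE BOX: `box_energy` with `l = σ Cg δ`, `k = τ L δ`, `weight_mean`, `bU_mean`, and
`√(a + b) ≤ √a + √b`; all error terms are at most `δ² L²` times `rP` (times a constant; `q ≤ 1`). -/

private theorem ted_f0 {D : Finset (ℤ × ℤ)} {b : ℤ × ℤ → ℝ} {σ τ : ℝ} (hτ : 0 < τ) (L : ℕ)
    (d : ℝ × ℝ) (V : ℤ × ℤ → (nb (bx L) → ℝ) → ℝ) (y : ℤ × ℤ) : 0 ≤ fP D b σ τ L d V y :=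
  integral_nonneg (fun _ => (fl_mem V σ hτ d _).1)

private theorem ted_e0 (D : Finset (ℤ × ℤ)) (b : ℤ × ℤ → ℝ) (L : ℕ)
    (V0 V1 : ℤ × ℤ → (nb (bx L) → ℝ) → ℝ) (G : ℤ × ℤ → ℝ) (y : ℤ × ℤ) :
    0 ≤ eP D b L V0 V1 G y :=
  integral_nonneg (fun _ => Finset.sum_nonneg fun _ _ => Finset.sum_nonneg fun _ _ => sq_nonneg _)

private theorem ted_bx {A : Finset (ℤ × ℤ)} {L : ℕ} {y : ℤ × ℤ} (hy : tr y (nb (bx L)) ⊆ A) :
    tr y (bx L) ⊆ A := by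
  intro x hx
  refine hy ?_
  rw [mem_tr] at hx ⊢
  exact mem_nb.2 (Or.inl hx)

/-- `√(K L² (X + Y)) ≤ K L (√X + √Y)` for `K ≥ 1` -/
private theorem ted_sqrt {K l X Y S : ℝ} (hK : 1 ≤ K) (hl : 0 ≤ l) (hX : 0 ≤ X) (hY : 0 ≤ Y)
    (hS : S ≤ K * l ^ 2 * (X + Y)) : Real.sqrt S ≤ K * l * (Real.sqrt X + Real.sqrt Y) := by
  have h1 := Real.sq_sqrt hX
  have h2 := Real.sq_sqrt hY
  have h3 := Real.sqrt_nonneg X
  have h4 := Real.sqrt_nonneg Y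
  have hK0 : 0 ≤ K := by linarith
  refine Real.sqrt_le_iff.2 ⟨by positivity, hS.trans ?_⟩
  have h5 : X + Y ≤ (Real.sqrt X + Real.sqrt Y) ^ 2 := by nlinarith [mul_nonneg h3 h4]
  have h6 : K * l ^ 2 * (X + Y) ≤ K * l ^ 2 * (Real.sqrt X + Real.sqrt Y) ^ 2 :=
    mul_le_mul_of_nonneg_left h5 (by positivity)
  refine h6.trans ?_
  have h7 : (K * l * (Real.sqrt X + Real.sqrt Y)) ^ 2 =
      K * (K * l ^ 2 * (Real.sqrt X + Real.sqrt Y) ^ 2) := by ring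
  rw [h7]
  have h8 : 0 ≤ K * l ^ 2 * (Real.sqrt X + Real.sqrt Y) ^ 2 := by positivity
  nlinarith

/-- arithmetic of the first bound -/
private theorem ted_ar {C1 C2 C3 Cg σ τ t q δ l F E S I : ℝ} (hC1 : 1 ≤ C1) (hC2 : 1 ≤ C2)
    (hC3 : 1 ≤ C3) (hCg : 0 ≤ Cg) (hσ : 0 ≤ σ) (hτ : 0 < τ) (ht : 0 < t) (hq : 0 < q)
    (hδ : 0 < δ) (hl : 1 ≤ l) (hF : 0 ≤ F)
    (hS : S ≤ C2 * (l * Real.sqrt l + t * l ^ 2) +
      2 * (C3 * (1 + Cg) * (1 + σ) * (F + δ * l ^ 3 / τ + l / τ)))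
    (hI : I ≤ (1 + q) * E + C1 * (σ * Cg * δ) ^ 2 * l * Real.sqrt S +
      C1 / q * ((σ * Cg * δ) ^ 2 * l + (τ * l * δ) ^ 2 / t ^ 2)) :
    I ≤ (1 + q) * E + (C1 * (C2 + 2 * C3) + C1) * (1 + Cg) ^ 3 * (1 + σ) ^ 3 * (δ ^ 2 * l ^ 2) *
      (Real.sqrt (1 / Real.sqrt l + t + δ * l / τ + 1 / (τ * l)) + Real.sqrt (F / l ^ 2) +
        (1 / q) * (1 / Real.sqrt l + τ ^ 2 / t ^ 2)) := by
  have hl0 : 0 < l := by linarith
  have hs0 : 0 < Real.sqrt l := Real.sqrt_pos.2 hl0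
  have hs1 : Real.sqrt l ^ 2 = l := Real.sq_sqrt hl0.le
  have hs2 : Real.sqrt l ≤ l := by
    rw [Real.sqrt_le_left hl0.le]
    nlinarith
  set X : ℝ := 1 / Real.sqrt l + t + δ * l / τ + 1 / (τ * l) with hX
  set Y : ℝ := F / l ^ 2 with hY
  have hX0 : 0 ≤ X := by positivity
  have hY0 : 0 ≤ Y := by positivity
  set K : ℝ := (C2 + 2 * C3) * (1 + Cg) * (1 + σ) with hK
  set M : ℝ := (1 + Cg) * (1 + σ) with hM
  have hM1 : 1 ≤ M := by
    have h2 : 0 ≤ Cg * σ := mul_nonneg hCg hσ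
    have h3 : (1 + Cg) * (1 + σ) = 1 + Cg + σ + Cg * σ := by ring
    rw [hM, h3]
    linarith
  have hKM : K = (C2 + 2 * C3) * M := by rw [hK, hM]; ring
  have hK1 : 1 ≤ K := by
    rw [hKM]
    exact le_trans (by linarith) (le_mul_of_one_le_right (by linarith) hM1)
  -- the sum is at most `K l² (X + Y)`
  have hS2 : S ≤ K * l ^ 2 * (X + Y) := by
    have e1 : l * Real.sqrt l + t * l ^ 2 ≤ l ^ 2 * (X + Y) := by
      have e2 : l ^ 2 * (1 / Real.sqrt l) = l * Real.sqrt l := by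
        have e0 : Real.sqrt l * Real.sqrt l = l := Real.mul_self_sqrt hl0.le
        rw [mul_one_div, div_eq_iff hs0.ne', mul_assoc, e0]
        ring
      have e3 : l ^ 2 * (X + Y) = l ^ 2 * (1 / Real.sqrt l) + t * l ^ 2 +
          l ^ 2 * (δ * l / τ + 1 / (τ * l) + Y) := by
        rw [hX]; ring
      have e4 : 0 ≤ l ^ 2 * (δ * l / τ + 1 / (τ * l) + Y) := by positivity
      rw [e3, e2]
      linarith
    have e5 : F + δ * l ^ 3 / τ + l / τ ≤ l ^ 2 * (X + Y) := by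
      have e6 : l ^ 2 * (X + Y) = l ^ 2 * (1 / Real.sqrt l + t) + (δ * l ^ 3 / τ + l / τ + F) := by
        rw [hX, hY]
        field_simp
        ring
      have e7 : 0 ≤ l ^ 2 * (1 / Real.sqrt l + t) := by positivity
      rw [e6]
      linarith
    have e8 : C2 * (l * Real.sqrt l + t * l ^ 2) ≤ C2 * (M * (l ^ 2 * (X + Y))) := by
      refine mul_le_mul_of_nonneg_left (e1.trans ?_) (by linarith)
      exact le_mul_of_one_le_left (by positivity) hM1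
    have e9 : 2 * (C3 * (1 + Cg) * (1 + σ) * (F + δ * l ^ 3 / τ + l / τ)) ≤
        2 * (C3 * M * (l ^ 2 * (X + Y))) := by
      have e10 : C3 * (1 + Cg) * (1 + σ) = C3 * M := by rw [hM]; ring
      rw [e10]
      have := mul_le_mul_of_nonneg_left e5 (show 0 ≤ C3 * M by positivity)
      linarith
    have e11 : K * l ^ 2 * (X + Y) = C2 * (M * (l ^ 2 * (X + Y))) +
        2 * (C3 * M * (l ^ 2 * (X + Y))) := by rw [hKM]; ring
    rw [e11]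
    linarith
  have hsq := ted_sqrt hK1 hl0.le hX0 hY0 hS2
  have hsX := Real.sqrt_nonneg X
  have hsY := Real.sqrt_nonneg Y
  -- `σ² Cg² ≤ M²`
  have hσC : (σ * Cg) ^ 2 ≤ M ^ 2 := by
    have h1 : 0 ≤ σ * Cg := mul_nonneg hσ hCg
    have h2 : σ * Cg ≤ M := by
      have h3 : (1 + Cg) * (1 + σ) = 1 + Cg + σ + σ * Cg := by ring
      rw [hM, h3]
      linarith
    exact pow_le_pow_left₀ h1 h2 2
  have hM2 : M ^ 2 ≤ M ^ 3 := pow_le_pow_right₀ hM1 (by norm_num)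
  have hM3 : (1 + Cg) ^ 3 * (1 + σ) ^ 3 = M ^ 3 := by rw [hM]; ring
  have hM0 : (0 : ℝ) ≤ M ^ 3 := by positivity
  have f1 : C1 * (σ * Cg * δ) ^ 2 * l * Real.sqrt S ≤
      (C1 * (C2 + 2 * C3)) * M ^ 3 * (δ ^ 2 * l ^ 2) * (Real.sqrt X + Real.sqrt Y) := by
    have g1 : C1 * (σ * Cg * δ) ^ 2 * l * Real.sqrt S ≤
        C1 * (σ * Cg * δ) ^ 2 * l * (K * l * (Real.sqrt X + Real.sqrt Y)) :=
      mul_le_mul_of_nonneg_left hsq (by positivity)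
    have g2 : C1 * (σ * Cg * δ) ^ 2 * l * (K * l * (Real.sqrt X + Real.sqrt Y)) =
        (σ * Cg) ^ 2 * (C1 * (C2 + 2 * C3) * M * (δ ^ 2 * l ^ 2) *
          (Real.sqrt X + Real.sqrt Y)) := by rw [hKM]; ring
    have g3 : (σ * Cg) ^ 2 * (C1 * (C2 + 2 * C3) * M * (δ ^ 2 * l ^ 2) *
          (Real.sqrt X + Real.sqrt Y)) ≤ M ^ 2 * (C1 * (C2 + 2 * C3) * M * (δ ^ 2 * l ^ 2) *
          (Real.sqrt X + Real.sqrt Y)) :=
      mul_le_mul_of_nonneg_right hσC (by positivity)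
    have g4 : M ^ 2 * (C1 * (C2 + 2 * C3) * M * (δ ^ 2 * l ^ 2) *
          (Real.sqrt X + Real.sqrt Y)) = (C1 * (C2 + 2 * C3)) * M ^ 3 * (δ ^ 2 * l ^ 2) *
          (Real.sqrt X + Real.sqrt Y) := by ring
    linarith
  have f2 : C1 / q * ((σ * Cg * δ) ^ 2 * l + (τ * l * δ) ^ 2 / t ^ 2) ≤
      C1 * M ^ 3 * (δ ^ 2 * l ^ 2) * ((1 / q) * (1 / Real.sqrt l + τ ^ 2 / t ^ 2)) := by
    have g1 : C1 / q * ((σ * Cg * δ) ^ 2 * l + (τ * l * δ) ^ 2 / t ^ 2) =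
        C1 * (δ ^ 2 * l ^ 2) * (1 / q) * ((σ * Cg) ^ 2 * (1 / l) + τ ^ 2 / t ^ 2) := by
      field_simp
    have g2 : (σ * Cg) ^ 2 * (1 / l) + τ ^ 2 / t ^ 2 ≤
        M ^ 3 * (1 / Real.sqrt l + τ ^ 2 / t ^ 2) := by
      have k1 : 1 / l ≤ 1 / Real.sqrt l := one_div_le_one_div_of_le hs0 hs2
      have k2 : (σ * Cg) ^ 2 * (1 / l) ≤ M ^ 3 * (1 / Real.sqrt l) :=
        mul_le_mul (hσC.trans hM2) k1 (by positivity) hM0
      have k3 : τ ^ 2 / t ^ 2 ≤ M ^ 3 * (τ ^ 2 / t ^ 2) := by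
        have k4 : (1 : ℝ) ≤ M ^ 3 := one_le_pow₀ hM1
        exact le_mul_of_one_le_left (by positivity) k4
      rw [mul_add]
      linarith
    rw [g1]
    have g3 := mul_le_mul_of_nonneg_left g2 (show 0 ≤ C1 * (δ ^ 2 * l ^ 2) * (1 / q) by positivity)
    refine g3.trans (le_of_eq ?_)
    ring
  have f3 : (C1 * (C2 + 2 * C3) + C1) * (1 + Cg) ^ 3 * (1 + σ) ^ 3 * (δ ^ 2 * l ^ 2) *
      (Real.sqrt X + Real.sqrt Y + (1 / q) * (1 / Real.sqrt l + τ ^ 2 / t ^ 2)) =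
      (C1 * (C2 + 2 * C3)) * M ^ 3 * (δ ^ 2 * l ^ 2) * (Real.sqrt X + Real.sqrt Y) +
      C1 * M ^ 3 * (δ ^ 2 * l ^ 2) * ((1 / q) * (1 / Real.sqrt l + τ ^ 2 / t ^ 2)) +
      (C1 * (C2 + 2 * C3)) * M ^ 3 * (δ ^ 2 * l ^ 2) *
        ((1 / q) * (1 / Real.sqrt l + τ ^ 2 / t ^ 2)) +
      C1 * M ^ 3 * (δ ^ 2 * l ^ 2) * (Real.sqrt X + Real.sqrt Y) := by
    rw [mul_assoc (C1 * (C2 + 2 * C3) + C1) ((1 + Cg) ^ 3) ((1 + σ) ^ 3), hM3]
    ring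
  have f4 : 0 ≤ (C1 * (C2 + 2 * C3)) * M ^ 3 * (δ ^ 2 * l ^ 2) *
        ((1 / q) * (1 / Real.sqrt l + τ ^ 2 / t ^ 2)) := by positivity
  have f5 : 0 ≤ C1 * M ^ 3 * (δ ^ 2 * l ^ 2) * (Real.sqrt X + Real.sqrt Y) := by positivity
  rw [f3]
  linarith

/-- arithmetic of the second bound -/
private theorem ted_ar2 {C1 Cg σ τ t δ l E I : ℝ} (hC1 : 1 ≤ C1) (hCg : 0 ≤ Cg) (hσ : 0 ≤ σ)
    (hτ : 0 < τ) (ht : 0 < t) (hδ : 0 < δ) (hl : 1 ≤ l) (hE : 0 ≤ E)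
    (hI : I ≤ C1 * (E + (σ * Cg * δ) ^ 2 * l ^ 2 + (τ * l * δ) ^ 2 / t ^ 2)) :
    (σ * Cg * δ) * Real.sqrt I ≤ (C1 + 1) / l * E +
      (C1 + 1) * (1 + Cg) ^ 2 * (1 + σ) ^ 2 * (δ ^ 2 * l ^ 2) * (1 / l * (1 + τ ^ 2 / t ^ 2)) := by
  have hl0 : 0 < l := by linarith
  set M : ℝ := (1 + Cg) * (1 + σ) with hM
  have hM1 : 1 ≤ M := by
    have h2 : 0 ≤ Cg * σ := mul_nonneg hCg hσ
    have h3 : (1 + Cg) * (1 + σ) = 1 + Cg + σ + Cg * σ := by ring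
    rw [hM, h3]
    linarith
  have hσC : (σ * Cg) ^ 2 ≤ M ^ 2 := by
    have h1 : 0 ≤ σ * Cg := mul_nonneg hσ hCg
    have h2 : σ * Cg ≤ M := by
      have h3 : (1 + Cg) * (1 + σ) = 1 + Cg + σ + σ * Cg := by ring
      rw [hM, h3]
      linarith
    exact pow_le_pow_left₀ h1 h2 2
  set J : ℝ := C1 * (E + (σ * Cg * δ) ^ 2 * l ^ 2 + (τ * l * δ) ^ 2 / t ^ 2) with hJ
  have hJ0 : 0 ≤ J := by positivity
  have h0 : 0 ≤ σ * Cg * δ := by positivity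
  have h1 : (σ * Cg * δ) * Real.sqrt I ≤ (σ * Cg * δ) * Real.sqrt J :=
    mul_le_mul_of_nonneg_left (Real.sqrt_le_sqrt hI) h0
  have h2 : (σ * Cg * δ) * Real.sqrt J ≤ J / l + (σ * Cg * δ) ^ 2 * l := by
    have k1 : Real.sqrt J ^ 2 = J := Real.sq_sqrt hJ0
    have k2 : J / l + (σ * Cg * δ) ^ 2 * l - (σ * Cg * δ) * Real.sqrt J =
        (Real.sqrt J ^ 2 + (σ * Cg * δ) ^ 2 * l ^ 2 - (σ * Cg * δ) * Real.sqrt J * l) / l := by
      rw [k1]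
      field_simp
    have k3 : 0 ≤ Real.sqrt J ^ 2 + (σ * Cg * δ) ^ 2 * l ^ 2 - (σ * Cg * δ) * Real.sqrt J * l := by
      nlinarith [sq_nonneg (Real.sqrt J - (σ * Cg * δ) * l), sq_nonneg (Real.sqrt J),
        sq_nonneg ((σ * Cg * δ) * l), sq_nonneg (Real.sqrt J + (σ * Cg * δ) * l)]
    have k4 : 0 ≤ (Real.sqrt J ^ 2 + (σ * Cg * δ) ^ 2 * l ^ 2 -
        (σ * Cg * δ) * Real.sqrt J * l) / l := div_nonneg k3 hl0.le
    linarith
  have h3 : J / l + (σ * Cg * δ) ^ 2 * l = C1 / l * E +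
      (δ ^ 2 * l ^ 2) * (1 / l) * ((C1 + 1) * (σ * Cg) ^ 2 + C1 * (τ ^ 2 / t ^ 2)) := by
    rw [hJ]
    field_simp
    ring
  have h4 : (C1 + 1) * (σ * Cg) ^ 2 + C1 * (τ ^ 2 / t ^ 2) ≤
      (C1 + 1) * M ^ 2 * (1 + τ ^ 2 / t ^ 2) := by
    have k1 : (C1 + 1) * (σ * Cg) ^ 2 ≤ (C1 + 1) * M ^ 2 :=
      mul_le_mul_of_nonneg_left hσC (by linarith)
    have k2 : C1 * (τ ^ 2 / t ^ 2) ≤ (C1 + 1) * M ^ 2 * (τ ^ 2 / t ^ 2) := by
      refine mul_le_mul_of_nonneg_right ?_ (by positivity)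
      have k3 : (1 : ℝ) ≤ M ^ 2 := one_le_pow₀ hM1
      exact le_trans (by linarith) (le_mul_of_one_le_right (by linarith) k3)
    have k4 : (C1 + 1) * M ^ 2 * (1 + τ ^ 2 / t ^ 2) = (C1 + 1) * M ^ 2 +
        (C1 + 1) * M ^ 2 * (τ ^ 2 / t ^ 2) := by ring
    rw [k4]
    linarith
  have h5 := mul_le_mul_of_nonneg_left h4 (show 0 ≤ (δ ^ 2 * l ^ 2) * (1 / l) by positivity)
  have h6 : C1 / l * E ≤ (C1 + 1) / l * E := by
    refine mul_le_mul_of_nonneg_right ?_ hE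
    exact div_le_div_of_nonneg_right (by linarith) hl0.le
  have h7 : (C1 + 1) * (1 + Cg) ^ 2 * (1 + σ) ^ 2 * (δ ^ 2 * l ^ 2) *
      (1 / l * (1 + τ ^ 2 / t ^ 2)) =
      (δ ^ 2 * l ^ 2) * (1 / l) * ((C1 + 1) * M ^ 2 * (1 + τ ^ 2 / t ^ 2)) := by
    rw [hM]
    ring
  rw [h7]
  linarith

theorem box_bound : ∃ C : ℝ, 1 ≤ C ∧ ∀ (L : ℕ), 1 ≤ L → ∀ (D A : Finset (ℤ × ℤ)) (b : ℤ × ℤ → ℝ)
    (G : ℤ × ℤ → ℝ) (δ Cg σ τ t q : ℝ), Rg G δ Cg → 0 < δ → δ ≤ 1 → 0 ≤ σ →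
    Hb D A b (fun z => σ * G z) (σ * Cg * δ) →
    0 < τ → τ ≤ 1 → 0 < t → t ≤ 1 → 0 < q → q ≤ 1 →
    ∀ (V0 V1 : ℤ × ℤ → (nb (bx L) → ℝ) → ℝ), UF (bx L) V0 → UF (bx L) V1 →
    ∀ y : ℤ × ℤ, tr y (nb (bx L)) ⊆ A →
    ∫ h, ∑ x ∈ tr y (bx L), ∑ z ∈ tr y (bx L),
      (pz D z (fun h => tG D b A (fun z => σ * G z) x h + bW D b L t y (fun z => σ * G z)
        (cP σ L G y) (τ * L * δ) (vP D b L V0 V1 G y) x h) h) ^ 2 ∂(Mu D b) ≤
      (1 + q) * eP D b L V0 V1 G y +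
        C * (1 + Cg) ^ 3 * (1 + σ) ^ 3 * (δ ^ 2 * L ^ 2) * rP D b σ τ t q δ L V0 V1 y := by
  obtain ⟨C1, hC1, H1⟩ := box_energy
  obtain ⟨C2, hC2, H2⟩ := weight_mean
  obtain ⟨C3, hC3, H3⟩ := bU_mean
  refine ⟨C1 * (C2 + 2 * C3) + C1, by nlinarith, ?_⟩
  intro L hL D A b G δ Cg σ τ t q hG hδ hδ1 hσ hH hτ hτ1 ht ht1 hq hq1 V0 V1 hV0 hV1 y hy
  have hyb := ted_bx hy
  have hyD : tr y (nb (bx L)) ⊆ D := fun x hx => hH.hA (hy hx)
  have hL1 : (1 : ℝ) ≤ L := by exact_mod_cast hL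
  have hL0 : (0 : ℝ) < L := by linarith
  have hk : 0 < τ * L * δ := by positivity
  have hv := vP_lnice (b := b) hV0 hV1 G hyD
  have a1 := H1 L hL D A b (fun z => σ * G z) (σ * Cg * δ) hH y hyb t ht ht1 q hq hq1
    (cP σ L G y) (τ * L * δ) hk (vP D b L V0 V1 G y) hv
  rw [vP_en hV0 hV1 G hyD] at a1
  have a2 := H2 L hL D A b (fun z => σ * G z) (σ * Cg * δ) hH y hyb t ht ht1
    (cP σ L G y) (τ * L * δ) hk (vP D b L V0 V1 G y) (fun x => (hv.sm x).continuous)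
  have a3 := H3 L hL D b G δ Cg σ τ hH.hb hG hδ hδ1 hσ hτ hτ1 V0 V1 hV0 hV1 y
    (fun x hx => hH.hA (hyb hx))
  have a4 : ∑ x ∈ tr y (bx L), ∫ h, (1 - bT D b L t y (fun z => σ * G z) (cP σ L G y)
      (τ * L * δ) (vP D b L V0 V1 G y) x h) ∂(Mu D b) ≤
      C2 * (L * Real.sqrt L + t * L ^ 2) + 2 * (C3 * (1 + Cg) * (1 + σ) *
        ((fP D b σ τ L (1, 0) V0 y + fP D b σ τ L (0, 1) V1 y) + δ * L ^ 3 / τ + L / τ)) := by
    linarith
  exact ted_ar hC1 hC2 hC3 hG.C0 hσ hτ ht hq hδ hL1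
    (add_nonneg (ted_f0 hτ L _ V0 y) (ted_f0 hτ L _ V1 y)) a4 a1

/-- and of the energy of `bW` alone: `l √(energy) ≤ energy / L + l² L` -/
theorem box_root : ∃ C : ℝ, 1 ≤ C ∧ ∀ (L : ℕ), 1 ≤ L → ∀ (D A : Finset (ℤ × ℤ)) (b : ℤ × ℤ → ℝ)
    (G : ℤ × ℤ → ℝ) (δ Cg σ τ t : ℝ), Rg G δ Cg → 0 < δ → δ ≤ 1 → 0 ≤ σ →
    Hb D A b (fun z => σ * G z) (σ * Cg * δ) →
    0 < τ → τ ≤ 1 → 0 < t → t ≤ 1 →
    ∀ (V0 V1 : ℤ × ℤ → (nb (bx L) → ℝ) → ℝ), UF (bx L) V0 → UF (bx L) V1 →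
    ∀ y : ℤ × ℤ, tr y (nb (bx L)) ⊆ A →
    (σ * Cg * δ) * Real.sqrt (∫ h, ∑ x ∈ tr y (bx L), ∑ z ∈ tr y (bx L),
      (pz D z (bW D b L t y (fun z => σ * G z) (cP σ L G y) (τ * L * δ)
        (vP D b L V0 V1 G y) x) h) ^ 2 ∂(Mu D b)) ≤
      C / L * eP D b L V0 V1 G y +
        C * (1 + Cg) ^ 2 * (1 + σ) ^ 2 * (δ ^ 2 * L ^ 2) * (1 / L * (1 + τ ^ 2 / t ^ 2)) := by
  obtain ⟨C1, hC1, H1⟩ := bW_energy
  refine ⟨C1 + 1, by linarith, ?_⟩
  intro L hL D A b G δ Cg σ τ t hG hδ hδ1 hσ hH hτ hτ1 ht ht1 V0 V1 hV0 hV1 y hy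
  have hyb := ted_bx hy
  have hyD : tr y (nb (bx L)) ⊆ D := fun x hx => hH.hA (hy hx)
  have hL1 : (1 : ℝ) ≤ L := by exact_mod_cast hL
  have hL0 : (0 : ℝ) < L := by linarith
  have hk : 0 < τ * L * δ := by positivity
  have hv := vP_lnice (b := b) hV0 hV1 G hyD
  have a1 := H1 L hL D A b (fun z => σ * G z) (σ * Cg * δ) hH y hyb t ht ht1
    (cP σ L G y) (τ * L * δ) hk (vP D b L V0 V1 G y) hv
  rw [vP_en hV0 hV1 G hyD] at a1
  exact ted_ar2 hC1 hG.C0 hσ hτ ht hδ hL1 (ted_e0 D b L V0 V1 G y) a1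

/- END ted -/

end Pool.Agent.Hmk
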