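import Pool.Agent.Hmk.TfE

/-!
# Hmk, trial field (6): the global field, average over the offset, the energy theorem
-/

set_option autoImplicit false

open MeasureTheory Set Filter ProbabilityTheory
open scoped ENNReal ContDiff Topology

noncomputable section

namespace Pool.Agent.Hmk

/-- the positions whose box with its neighbours lies in `A` -/
def Fs (L : ℕ) (A : Finset (ℤ × ℤ)) : Finset (ℤ × ℤ) := by
  classical exact A.filter (fun y => tr y (nb (bx L)) ⊆ A)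

/-- those on the lattice `r + L ℤ²` -/
def Yr (L : ℕ) (A : Finset (ℤ × ℤ)) (r : ℤ × ℤ) : Finset (ℤ × ℤ) := by
  classical exact (Fs L A).filter (fun y => (L : ℤ) ∣ y.1 - r.1 ∧ (L : ℤ) ∣ y.2 - r.2)

/- MODULE tfa
Offsets.  `Yr_cover`: the box of the lattice `r + L ℤ²` which contains `x` is not in `Fs`.
`Yr_off`: `∑ r ∈ bx L, ∑ y ∈ Yr L A r, f y = ∑ y ∈ Fs L A, f y`, `card (bx L) = L²`. -/
theorem Fs_mem {L : ℕ} {A : Finset (ℤ × ℤ)} {y : ℤ × ℤ} (hy : y ∈ Fs L A) :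
    y ∈ A ∧ tr y (nb (bx L)) ⊆ A := by
  unfold Fs at hy
  exact Finset.mem_filter.1 hy

private theorem tfa_mem {L : ℕ} {A : Finset (ℤ × ℤ)} {r y : ℤ × ℤ} :
    y ∈ Yr L A r ↔ y ∈ Fs L A ∧ ((L : ℤ) ∣ y.1 - r.1 ∧ (L : ℤ) ∣ y.2 - r.2) := by
  unfold Yr
  exact Finset.mem_filter

private theorem tfa_bx {L : ℕ} {z : ℤ × ℤ} :
    z ∈ bx L ↔ (0 ≤ z.1 ∧ z.1 < L) ∧ (0 ≤ z.2 ∧ z.2 < L) := by
  unfold bx
  simp only [Finset.mem_product, Finset.mem_Ico]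

private theorem tfa_dvd {L : ℕ} {a b c : ℤ} (h1 : (L : ℤ) ∣ a - c) (h2 : (L : ℤ) ∣ b - c)
    (h3 : a - b < L) (h4 : b - a < L) : a = b := by
  obtain ⟨u, hu⟩ := h1
  obtain ⟨v, hv⟩ := h2
  have h5 : a - b = (L : ℤ) * (u - v) := by
    have : a - b = (a - c) - (b - c) := by ring
    rw [this, hu, hv]
    ring
  have h6 : (L : ℤ) ∣ a - b := ⟨u - v, h5⟩
  have h7 : |a - b| < (L : ℤ) := abs_lt.2 ⟨by linarith, h3⟩
  have h8 := Int.eq_zero_of_abs_lt_dvd h6 h7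
  linarith

theorem Yr_nb {L : ℕ} {A : Finset (ℤ × ℤ)} {r y : ℤ × ℤ} (hy : y ∈ Yr L A r) :
    tr y (nb (bx L)) ⊆ A := by
  exact (Fs_mem (tfa_mem.1 hy).1).2

theorem Yr_Pk {L : ℕ} (hL : 1 ≤ L) (A : Finset (ℤ × ℤ)) (r : ℤ × ℤ) : Pk L A (Yr L A r) := by
  constructor
  · intro y hy x hx
    refine Yr_nb hy ?_
    rw [mem_tr] at hx ⊢
    exact mem_nb.2 (Or.inl hx)
  · intro y hy y' hy' hne
    rw [Finset.disjoint_left]
    intro x hx hx'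
    rw [mem_tr, tfa_bx] at hx hx'
    obtain ⟨-, h1, h2⟩ := tfa_mem.1 hy
    obtain ⟨-, h3, h4⟩ := tfa_mem.1 hy'
    simp only [Prod.fst_sub, Prod.snd_sub] at hx hx'
    refine hne (Prod.ext ?_ ?_)
    · exact tfa_dvd h1 h3 (by linarith [hx.1.1, hx'.1.2]) (by linarith [hx'.1.1, hx.1.2])
    · exact tfa_dvd h2 h4 (by linarith [hx.2.1, hx'.2.2]) (by linarith [hx'.2.1, hx.2.2])

theorem Yr_cover {L : ℕ} (hL : 1 ≤ L) {A : Finset (ℤ × ℤ)} (r : ℤ × ℤ) {x : ℤ × ℤ} (hx : x ∈ A)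
    (h : ∀ y ∈ Yr L A r, x ∉ tr y (bx L)) : ∃ u ∉ A, dn (u - x) ≤ 4 * (L : ℤ) := by
  classical
  have hL' : (0 : ℤ) < L := by exact_mod_cast hL
  set y : ℤ × ℤ := (x.1 - (x.1 - r.1) % L, x.2 - (x.2 - r.2) % L) with hy
  have a1 := Int.emod_nonneg (x.1 - r.1) hL'.ne'
  have a2 := Int.emod_lt_of_pos (x.1 - r.1) hL'
  have b1 := Int.emod_nonneg (x.2 - r.2) hL'.ne'
  have b2 := Int.emod_lt_of_pos (x.2 - r.2) hL'
  have hxy : x ∈ tr y (bx L) := by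
    rw [mem_tr, tfa_bx]
    simp only [Prod.fst_sub, Prod.snd_sub, hy]
    refine ⟨⟨?_, ?_⟩, ?_, ?_⟩ <;> linarith
  have d1 : (L : ℤ) ∣ y.1 - r.1 := by
    have : y.1 - r.1 = (x.1 - r.1) - (x.1 - r.1) % L := by
      simp only [hy]
      ring
    rw [this]
    exact Int.dvd_self_sub_emod
  have d2 : (L : ℤ) ∣ y.2 - r.2 := by
    have : y.2 - r.2 = (x.2 - r.2) - (x.2 - r.2) % L := by
      simp only [hy]
      ring
    rw [this]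
    exact Int.dvd_self_sub_emod
  have hF : y ∉ Fs L A := fun h1 => h y (tfa_mem.2 ⟨h1, d1, d2⟩) hxy
  have hF' : ¬(y ∈ A ∧ tr y (nb (bx L)) ⊆ A) := by
    intro h1
    apply hF
    unfold Fs
    exact Finset.mem_filter.2 h1
  have key : ∀ u : ℤ × ℤ, |u.1 - x.1| ≤ 2 * L → |u.2 - x.2| ≤ 2 * L →
      dn (u - x) ≤ 4 * (L : ℤ) := by
    intro u h1 h2
    rw [abs_le] at h1 h2
    unfold dn
    simp only [Prod.fst_sub, Prod.snd_sub]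
    refine max_le (abs_le.2 ⟨?_, ?_⟩) (max_le (abs_le.2 ⟨?_, ?_⟩) (abs_le.2 ⟨?_, ?_⟩)) <;>
      linarith [h1.1, h1.2, h2.1, h2.2]
  by_cases hyA : y ∈ A
  · have h2 : ¬ tr y (nb (bx L)) ⊆ A := fun h3 => hF' ⟨hyA, h3⟩
    rw [Finset.not_subset] at h2
    obtain ⟨u, hu, huA⟩ := h2
    refine ⟨u, huA, ?_⟩
    rw [mem_tr, mem_nb] at hu
    have hs : ∀ i : Fin 6, |(st i).1| ≤ 1 ∧ |(st i).2| ≤ 1 := by
      intro i
      fin_cases i <;> simp [st]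
    have c1 : y.1 = x.1 - (x.1 - r.1) % L := rfl
    have c2 : y.2 = x.2 - (x.2 - r.2) % L := rfl
    rcases hu with hu | ⟨i, hu⟩
    · rw [tfa_bx] at hu
      simp only [Prod.fst_sub, Prod.snd_sub] at hu
      refine key u (abs_le.2 ⟨?_, ?_⟩) (abs_le.2 ⟨?_, ?_⟩) <;>
        linarith [hu.1.1, hu.1.2, hu.2.1, hu.2.2]
    · rw [tfa_bx] at hu
      simp only [Prod.fst_sub, Prod.snd_sub, Prod.fst_add, Prod.snd_add] at hu
      obtain ⟨s1, s2⟩ := hs i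
      rw [abs_le] at s1 s2
      refine key u (abs_le.2 ⟨?_, ?_⟩) (abs_le.2 ⟨?_, ?_⟩) <;>
        linarith [hu.1.1, hu.1.2, hu.2.1, hu.2.2, s1.1, s1.2, s2.1, s2.2]
  · refine ⟨y, hyA, key y (abs_le.2 ⟨?_, ?_⟩) (abs_le.2 ⟨?_, ?_⟩)⟩ <;>
      simp only [hy] <;> linarith

theorem Yr_off {L : ℕ} (hL : 1 ≤ L) (A : Finset (ℤ × ℤ)) (f : ℤ × ℤ → ℝ) :
    ∃ r : ℤ × ℤ, ∑ y ∈ Yr L A r, f y ≤ (∑ y ∈ Fs L A, f y) / (L : ℝ) ^ 2 := by
  classical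
  have hL' : (0 : ℤ) < L := by exact_mod_cast hL
  have hLr : (0 : ℝ) < L := by exact_mod_cast hL
  have e1 : ∑ r ∈ bx L, ∑ y ∈ Yr L A r, f y = ∑ y ∈ Fs L A, f y := by
    have e2 : ∀ r ∈ bx L, ∑ y ∈ Yr L A r, f y =
        ∑ y ∈ Fs L A, if (L : ℤ) ∣ y.1 - r.1 ∧ (L : ℤ) ∣ y.2 - r.2 then f y else 0 := by
      intro r _
      rw [← Finset.sum_filter]
      refine Finset.sum_congr ?_ fun _ _ => rfl
      ext y
      rw [tfa_mem, Finset.mem_filter]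
    rw [Finset.sum_congr rfl e2, Finset.sum_comm]
    refine Finset.sum_congr rfl fun y _ => ?_
    have a1 := Int.emod_nonneg y.1 hL'.ne'
    have a2 := Int.emod_lt_of_pos y.1 hL'
    have b1 := Int.emod_nonneg y.2 hL'.ne'
    have b2 := Int.emod_lt_of_pos y.2 hL'
    rw [Finset.sum_eq_single (y.1 % (L : ℤ), y.2 % (L : ℤ))]
    · rw [if_pos ⟨Int.dvd_self_sub_emod, Int.dvd_self_sub_emod⟩]
    · intro r hr hne
      rw [if_neg]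
      rintro ⟨h1, h2⟩
      rw [tfa_bx] at hr
      refine hne (Prod.ext ?_ ?_)
      · refine tfa_dvd (L := L) (c := y.1) ?_ ?_ ?_ ?_
        · rw [← dvd_neg, neg_sub]
          exact h1
        · rw [← dvd_neg, neg_sub]
          exact Int.dvd_self_sub_emod
        · linarith [hr.1.1, hr.1.2]
        · linarith [hr.1.1, hr.1.2]
      · refine tfa_dvd (L := L) (c := y.2) ?_ ?_ ?_ ?_
        · rw [← dvd_neg, neg_sub]
          exact h2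
        · rw [← dvd_neg, neg_sub]
          exact Int.dvd_self_sub_emod
        · linarith [hr.2.1, hr.2.2]
        · linarith [hr.2.1, hr.2.2]
    · intro h1
      exact absurd (tfa_bx.2 ⟨⟨a1, a2⟩, b1, b2⟩) h1
  have hcard : ((bx L).card : ℝ) = (L : ℝ) ^ 2 := by
    unfold bx
    rw [Finset.card_product, Int.card_Ico]
    simp
    ring
  have hne : (bx L).Nonempty := ⟨(0, 0), tfa_bx.2 ⟨⟨le_rfl, hL'⟩, le_rfl, hL'⟩⟩
  by_contra hcon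
  push Not at hcon
  have h2 : ∑ r ∈ bx L, (∑ y ∈ Fs L A, f y) / (L : ℝ) ^ 2 < ∑ r ∈ bx L, ∑ y ∈ Yr L A r, f y :=
    Finset.sum_lt_sum_of_nonempty hne fun r _ => hcon r
  rw [e1, Finset.sum_const, nsmul_eq_mul, hcard] at h2
  have h3 : (L : ℝ) ^ 2 * ((∑ y ∈ Fs L A, f y) / (L : ℝ) ^ 2) = ∑ y ∈ Fs L A, f y := by
    field_simp
  rw [h3] at h2
  exact lt_irrefl _ h2
/- END tfa -/

/-- the trial field -/
def tX (D : Finset (ℤ × ℤ)) (b : ℤ × ℤ → ℝ) (A Y : Finset (ℤ × ℤ)) (σ τ t δ : ℝ) (L : ℕ)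
    (V0 V1 : ℤ × ℤ → (nb (bx L) → ℝ) → ℝ) (G : ℤ × ℤ → ℝ) (x : ℤ × ℤ) (h : D → ℝ) : ℝ :=
  tG D b A (fun z => σ * G z) x h + ∑ y ∈ Y, bW D b L t y (fun z => σ * G z) (cP σ L G y)
    (τ * L * δ) (vP D b L V0 V1 G y) x h

/-- the standing hypotheses -/
structure Hx (D A : Finset (ℤ × ℤ)) (b G : ℤ × ℤ → ℝ) (σ Cg δ τ t : ℝ) (L : ℕ)
    (V0 V1 : ℤ × ℤ → (nb (bx L) → ℝ) → ℝ) : Prop where
  hL : 1 ≤ L
  hb : ∀ z, |b z| ≤ 1 / 2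
  hA : A ⊆ D
  h0 : ∀ z ∉ A, G z = 0
  hG : Rg G δ Cg
  hδ : 0 < δ
  hδ1 : δ ≤ 1
  hσ : 0 ≤ σ
  hτ : 0 < τ
  hτ1 : τ ≤ 1
  ht : 0 < t
  ht1 : t ≤ 1
  hV0 : UF (bx L) V0
  hV1 : UF (bx L) V1

/- MODULE tfb
`big_square` with `l = σ Cg δ`, `k = τ L δ`, `w y = bW ...` (`tW_nice`, `tW_bound`, `ph_off`,
`tW_dep`, `vP_lnice`, `vP_dep`), `box_bound`, `box_root`; all remaining errors are absorbed by the
last summand `(1 / q) (1 / √L + τ² / t²)` of `rP` (`1 / q ≥ 1`, `1 / L ≤ 1 / √L`). -/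
theorem Hx.toHb {D A : Finset (ℤ × ℤ)} {b G : ℤ × ℤ → ℝ} {σ Cg δ τ t : ℝ} {L : ℕ}
    {V0 V1 : ℤ × ℤ → (nb (bx L) → ℝ) → ℝ} (H : Hx D A b G σ Cg δ τ t L V0 V1) :
    Hb D A b (fun z => σ * G z) (σ * Cg * δ) := by
  refine ⟨H.hb, H.hA, fun z hz => ?_, fun x i => ?_⟩
  · show σ * G z = 0
    rw [H.h0 z hz, mul_zero]
  · show |σ * G x - σ * G (x + st i)| ≤ σ * Cg * δ
    rw [← mul_sub, abs_mul, abs_of_nonneg H.hσ, mul_assoc]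
    exact mul_le_mul_of_nonneg_left (H.hG.lip x i) H.hσ

/-- arithmetic of one box -/
private theorem tfb_ar {C1 C2 C3 Cg σ τ t q δ l e I R S r : ℝ} (hC1 : 1 ≤ C1) (hC2 : 1 ≤ C2)
    (hC3 : 1 ≤ C3) (hCg : 0 ≤ Cg) (hσ : 0 ≤ σ) (hτ : 0 < τ) (hτ1 : τ ≤ 1) (ht : 0 < t)
    (hq : 0 < q) (hq1 : q ≤ 1) (hδ : 0 < δ) (hl : 1 ≤ l) (he : 0 ≤ e)
    (hr : (1 / q) * (1 / Real.sqrt l + τ ^ 2 / t ^ 2) ≤ r)
    (hI : I ≤ (1 + q) * e + C2 * (1 + Cg) ^ 3 * (1 + σ) ^ 3 * (δ ^ 2 * l ^ 2) * r)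
    (hR : R ≤ C3 / l * e + C3 * (1 + Cg) ^ 2 * (1 + σ) ^ 2 * (δ ^ 2 * l ^ 2) *
      (1 / l * (1 + τ ^ 2 / t ^ 2)))
    (hS : S = C1 * (σ * Cg * δ) ^ 2 * (l * Real.sqrt l) + C1 * (τ * l * δ) * (σ * Cg * δ)) :
    I + S + C1 * R ≤ (1 + q + (C2 + 2 * C1 + C1 * C3) / l) * e +
      (C2 + 2 * C1 + C1 * C3) * (1 + Cg) ^ 3 * (1 + σ) ^ 3 * (δ ^ 2 * l ^ 2) * r := by
  have hl0 : 0 < l := by linarith
  have hs0 : 0 < Real.sqrt l := Real.sqrt_pos.2 hl0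
  have hs2 : Real.sqrt l * Real.sqrt l = l := Real.mul_self_sqrt hl0.le
  have hs1 : 1 ≤ Real.sqrt l := by
    rw [← Real.sqrt_one]
    exact Real.sqrt_le_sqrt hl
  have hsl : Real.sqrt l ≤ l := by
    have h1 := mul_le_mul_of_nonneg_left hs1 hs0.le
    linarith
  set u := 1 / Real.sqrt l with hu
  set v := τ ^ 2 / t ^ 2 with hv
  set p := δ ^ 2 * l ^ 2 with hp
  set K := (1 + Cg) ^ 3 * (1 + σ) ^ 3 with hK
  have hu0 : 0 < u := by positivity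
  have hus : u * Real.sqrt l = 1 := by
    rw [hu]
    field_simp
  have hll : 1 / l * l = 1 := by field_simp
  have hv0 : 0 ≤ v := by positivity
  have hp0 : 0 ≤ p := by positivity
  have hul : 1 / l ≤ u := one_div_le_one_div_of_le hs0 hsl
  have hl1 : 1 / l ≤ 1 := by
    rw [div_le_one hl0]
    exact hl
  have hl2 : 0 < 1 / l := by positivity
  have hr1 : u + v ≤ r := by
    refine le_trans ?_ hr
    have h1 : 1 ≤ 1 / q := by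
      rw [le_div_iff₀ hq]
      linarith
    exact le_mul_of_one_le_left (by linarith) h1
  have hKp : 0 ≤ K * p := by positivity
  -- bounds
  have g0 : ∀ a : ℝ, 0 ≤ a → a ^ 2 ≤ (1 + a) ^ 3 ∧ a ≤ (1 + a) ^ 3 := by
    intro a ha
    have h2 : 0 ≤ a ^ 2 := by positivity
    have h3 : 0 ≤ a ^ 3 := by positivity
    have h4 : (1 + a) ^ 3 = 1 + 3 * a + 3 * a ^ 2 + a ^ 3 := by ring
    rw [h4]
    constructor <;> linarith
  have g1 := (g0 σ hσ).1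
  have g2 := (g0 Cg hCg).1
  have g3 := (g0 σ hσ).2
  have g4 := (g0 Cg hCg).2
  have g5 : (1 + σ) ^ 2 ≤ (1 + σ) ^ 3 := pow_le_pow_right₀ (by linarith) (by norm_num)
  have g6 : (1 + Cg) ^ 2 ≤ (1 + Cg) ^ 3 := pow_le_pow_right₀ (by linarith) (by norm_num)
  have k1 : σ ^ 2 * Cg ^ 2 ≤ K := by
    rw [hK, mul_comm ((1 + Cg) ^ 3)]
    exact mul_le_mul g1 g2 (by positivity) (by positivity)
  have k2 : σ * Cg ≤ K := by
    rw [hK, mul_comm ((1 + Cg) ^ 3)]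
    exact mul_le_mul g3 g4 hCg (by positivity)
  have k3 : (1 + Cg) ^ 2 * (1 + σ) ^ 2 ≤ K := by
    rw [hK]
    exact mul_le_mul g6 g5 (by positivity) (by positivity)
  have m1 : (σ * Cg * δ) ^ 2 * (l * Real.sqrt l) ≤ K * p * (u + v) := by
    have h1 : (σ * Cg * δ) ^ 2 * (l * Real.sqrt l) = (σ ^ 2 * Cg ^ 2) * (p * u) := by
      rw [hp]
      linear_combination (σ ^ 2 * Cg ^ 2 * δ ^ 2) * (-(l * Real.sqrt l) * hus + l * u * hs2)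
    rw [h1]
    calc (σ ^ 2 * Cg ^ 2) * (p * u) ≤ K * (p * u) :=
          mul_le_mul_of_nonneg_right k1 (by positivity)
      _ = K * p * u := by ring
      _ ≤ K * p * (u + v) := mul_le_mul_of_nonneg_left (by linarith) hKp
  have m2 : (τ * l * δ) * (σ * Cg * δ) ≤ K * p * (u + v) := by
    have h1 : (τ * l * δ) * (σ * Cg * δ) = (σ * Cg) * (p * (τ * (1 / l))) := by
      rw [hp]
      linear_combination (-(σ * Cg * τ * δ ^ 2 * l)) * hll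
    rw [h1]
    have h2 : τ * (1 / l) ≤ u + v := by
      have h3 : τ * (1 / l) ≤ 1 * (1 / l) := mul_le_mul_of_nonneg_right hτ1 hl2.le
      linarith
    calc (σ * Cg) * (p * (τ * (1 / l))) ≤ K * (p * (τ * (1 / l))) :=
          mul_le_mul_of_nonneg_right k2 (by positivity)
      _ = K * p * (τ * (1 / l)) := by ring
      _ ≤ K * p * (u + v) := mul_le_mul_of_nonneg_left h2 hKp
  have m3 : (1 + Cg) ^ 2 * (1 + σ) ^ 2 * p * (1 / l * (1 + v)) ≤ K * p * (u + v) := by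
    have h2 : 1 / l * (1 + v) ≤ u + v := by
      have h4 : 1 / l * v ≤ 1 * v := mul_le_mul_of_nonneg_right hl1 hv0
      linarith
    have h3 : 0 ≤ 1 / l * (1 + v) := by positivity
    calc (1 + Cg) ^ 2 * (1 + σ) ^ 2 * p * (1 / l * (1 + v)) =
          ((1 + Cg) ^ 2 * (1 + σ) ^ 2) * (p * (1 / l * (1 + v))) := by ring
      _ ≤ K * (p * (1 / l * (1 + v))) := mul_le_mul_of_nonneg_right k3 (by positivity)
      _ = K * p * (1 / l * (1 + v)) := by ring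
      _ ≤ K * p * (u + v) := mul_le_mul_of_nonneg_left h2 hKp
  have m4 : K * p * (u + v) ≤ K * p * r := mul_le_mul_of_nonneg_left hr1 hKp
  have hC13 : 0 ≤ C1 * C3 := by positivity
  have n1 : S ≤ 2 * C1 * (K * p * r) := by
    rw [hS]
    have h1 := mul_le_mul_of_nonneg_left (m1.trans m4) (show 0 ≤ C1 by linarith)
    have h2 := mul_le_mul_of_nonneg_left (m2.trans m4) (show 0 ≤ C1 by linarith)
    linarith
  have n2 : C1 * R ≤ C1 * C3 / l * e + C1 * C3 * (K * p * r) := by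
    have h1 : C1 * R ≤ C1 * (C3 / l * e + C3 * (1 + Cg) ^ 2 * (1 + σ) ^ 2 * p *
        (1 / l * (1 + v))) := mul_le_mul_of_nonneg_left hR (by linarith)
    refine h1.trans ?_
    have h2 : C1 * (C3 / l * e + C3 * (1 + Cg) ^ 2 * (1 + σ) ^ 2 * p * (1 / l * (1 + v))) =
        C1 * C3 / l * e + C1 * C3 * ((1 + Cg) ^ 2 * (1 + σ) ^ 2 * p * (1 / l * (1 + v))) := by
      ring
    rw [h2]
    have h3 := mul_le_mul_of_nonneg_left (m3.trans m4) hC13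
    linarith
  have n3 : C1 * C3 / l * e ≤ (C2 + 2 * C1 + C1 * C3) / l * e := by
    refine mul_le_mul_of_nonneg_right ?_ he
    exact div_le_div_of_nonneg_right (by linarith) hl0.le
  have n4 : C2 * (1 + Cg) ^ 3 * (1 + σ) ^ 3 * p * r = C2 * (K * p * r) := by
    rw [hK]
    ring
  have n5 : (C2 + 2 * C1 + C1 * C3) * (1 + Cg) ^ 3 * (1 + σ) ^ 3 * p * r =
      (C2 + 2 * C1 + C1 * C3) * (K * p * r) := by
    rw [hK]
    ring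
  rw [n4] at hI
  rw [n5]
  have n6 : (1 + q + (C2 + 2 * C1 + C1 * C3) / l) * e = (1 + q) * e +
      (C2 + 2 * C1 + C1 * C3) / l * e := by ring
  rw [n6]
  linarith

theorem glob_energy : ∃ C : ℝ, 1 ≤ C ∧ ∀ (D A : Finset (ℤ × ℤ)) (b G : ℤ × ℤ → ℝ)
    (σ Cg δ τ t : ℝ) (L : ℕ) (V0 V1 : ℤ × ℤ → (nb (bx L) → ℝ) → ℝ),
    Hx D A b G σ Cg δ τ t L V0 V1 → ∀ q : ℝ, 0 < q → q ≤ 1 → ∀ Y : Finset (ℤ × ℤ), Pk L A Y →
    (∀ y ∈ Y, tr y (nb (bx L)) ⊆ A) → ∀ M : ℝ, 1 ≤ M →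
    (∀ x ∈ A, (∀ y ∈ Y, x ∉ tr y (bx L)) → ∀ z, (dn (z - x) : ℝ) ≤ M → G z = 0) →
    ∫ h, (dv D (tX D b A Y σ τ t δ L V0 V1 G) h) ^ 2 ∂(Mu D b) ≤
      (∑ y ∈ Y, ((1 + q + C / L) * eP D b L V0 V1 G y +
        C * (1 + Cg) ^ 3 * (1 + σ) ^ 3 * (δ ^ 2 * L ^ 2) * rP D b σ τ t q δ L V0 V1 y)) +
      C * (σ * Cg * δ) ^ 2 * A.card / M := by
  obtain ⟨C1, hC1, H1⟩ := big_square
  obtain ⟨C2, hC2, H2⟩ := box_bound
  obtain ⟨C3, hC3, H3⟩ := box_root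
  refine ⟨C2 + 2 * C1 + C1 * C3, by nlinarith, ?_⟩
  intro D A b G σ Cg δ τ t L V0 V1 H q hq hq1 Y hY hYn M hM hfar
  have hH := H.toHb
  have hL1 : (1 : ℝ) ≤ L := by exact_mod_cast H.hL
  have hL0 : (0 : ℝ) < L := by linarith
  have hLn : 0 < L := H.hL
  have hδ := H.hδ
  have hτ := H.hτ
  have hk : 0 < τ * L * δ := by positivity
  have hφ : ∀ y z : ℤ × ℤ, 0 ≤ ph L t (z - y) ∧ ph L t (z - y) ≤ 1 := fun y z => ph_mem L t _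
  have hbox : ∀ y ∈ Y, tr y (bx L) ⊆ D := fun y hy => (hY.sub y hy).trans H.hA
  have hv : ∀ y ∈ Y, LNice D (tr y (bx L)) (vP D b L V0 V1 G y) := fun y hy =>
    vP_lnice H.hV0 H.hV1 G ((hYn y hy).trans H.hA)
  have a1 := H1 L H.hL D A b (fun z => σ * G z) (σ * Cg * δ) hH Y hY M hM
    (fun x hx hxY z hz => by rw [hfar x hx hxY z hz, mul_zero])
    (fun y => bW D b L t y (fun z => σ * G z) (cP σ L G y) (τ * L * δ) (vP D b L V0 V1 G y))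
    (τ * L * δ) hk.le
    (fun y hy => tW_nice (hbox y hy) _ _ _ _ hk (hv y hy))
    (fun y hy x hx h => by
      have h1 := (tW_bound (b := b) (B := tr y (bx L)) (tr y (Bo L)) (hφ y) (fun z => σ * G z)
        (cP σ L G y) hk (vP D b L V0 V1 G y) x h).1
      have h2 : ph L t (x - y) = 0 := ph_off hLn H.ht fun h3 => hx (mem_tr.2 h3)
      rw [h2, mul_zero] at h1
      exact abs_eq_zero.1 (le_antisymm h1 (abs_nonneg _)))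
    (fun y hy x h => (tW_bound (b := b) (B := tr y (bx L)) (tr y (Bo L)) (hφ y)
      (fun z => σ * G z) (cP σ L G y) hk (vP D b L V0 V1 G y) x h).2)
    (fun y hy x => tW_dep _ _ _ _ _ (fun z => vP_dep D b L V0 V1 G y z) x)
  refine a1.trans ?_
  have key : ∀ y ∈ Y, (∫ h, ∑ x ∈ tr y (bx L), ∑ x' ∈ tr y (bx L),
        (pz D x' (fun h => tG D b A (fun z => σ * G z) x h + bW D b L t y (fun z => σ * G z)
          (cP σ L G y) (τ * L * δ) (vP D b L V0 V1 G y) x h) h) ^ 2 ∂(Mu D b)) +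
      (C1 * (σ * Cg * δ) ^ 2 * (L * Real.sqrt L) + C1 * (τ * L * δ) * (σ * Cg * δ)) +
      C1 * ((σ * Cg * δ) * Real.sqrt (∫ h, ∑ x ∈ tr y (bx L), ∑ x' ∈ tr y (bx L),
        (pz D x' (bW D b L t y (fun z => σ * G z) (cP σ L G y) (τ * L * δ)
          (vP D b L V0 V1 G y) x) h) ^ 2 ∂(Mu D b))) ≤
      (1 + q + (C2 + 2 * C1 + C1 * C3) / L) * eP D b L V0 V1 G y +
        (C2 + 2 * C1 + C1 * C3) * (1 + Cg) ^ 3 * (1 + σ) ^ 3 * (δ ^ 2 * L ^ 2) *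
          rP D b σ τ t q δ L V0 V1 y := by
    intro y hy
    have b1 := H2 L H.hL D A b G δ Cg σ τ t q H.hG hδ H.hδ1 H.hσ hH hτ H.hτ1 H.ht H.ht1 hq hq1
      V0 V1 H.hV0 H.hV1 y (hYn y hy)
    have b2 := H3 L H.hL D A b G δ Cg σ τ t H.hG hδ H.hδ1 H.hσ hH hτ H.hτ1 H.ht H.ht1
      V0 V1 H.hV0 H.hV1 y (hYn y hy)
    have he : 0 ≤ eP D b L V0 V1 G y :=
      integral_nonneg (fun _ => Finset.sum_nonneg fun _ _ => Finset.sum_nonneg fun _ _ =>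
        sq_nonneg _)
    have hr : (1 / q) * (1 / Real.sqrt L + τ ^ 2 / t ^ 2) ≤ rP D b σ τ t q δ L V0 V1 y := by
      unfold rP
      have c1 := Real.sqrt_nonneg (1 / Real.sqrt L + t + δ * L / τ + 1 / (τ * L))
      have c2 := Real.sqrt_nonneg
        ((fP D b σ τ L (1, 0) V0 y + fP D b σ τ L (0, 1) V1 y) / (L : ℝ) ^ 2)
      linarith
    exact tfb_ar hC1 hC2 hC3 H.hG.C0 H.hσ hτ H.hτ1 H.ht hq hq1 hδ hL1 he hr b1 b2 rfl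
  have hsum := Finset.sum_le_sum key
  rw [Finset.sum_add_distrib, Finset.sum_add_distrib, Finset.sum_const, nsmul_eq_mul,
    ← Finset.mul_sum, ← Finset.mul_sum] at hsum
  have hM0 : 0 < M := by linarith
  have hlast : C1 * (σ * Cg * δ) ^ 2 * (A.card / M) ≤
      (C2 + 2 * C1 + C1 * C3) * (σ * Cg * δ) ^ 2 * A.card / M := by
    have h1 : (C2 + 2 * C1 + C1 * C3) * (σ * Cg * δ) ^ 2 * A.card / M =
        (C2 + 2 * C1 + C1 * C3) * ((σ * Cg * δ) ^ 2 * (A.card / M)) := by ring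
    have h2 : C1 * (σ * Cg * δ) ^ 2 * (A.card / M) =
        C1 * ((σ * Cg * δ) ^ 2 * (A.card / M)) := by ring
    rw [h1, h2]
    refine mul_le_mul_of_nonneg_right ?_ (by positivity)
    nlinarith
  have hfin : C1 * (σ * Cg * δ) ^ 2 * (Y.card * (L * Real.sqrt L) + A.card / M) +
      C1 * (τ * L * δ) * (σ * Cg * δ) * Y.card =
      Y.card * (C1 * (σ * Cg * δ) ^ 2 * (L * Real.sqrt L) + C1 * (τ * L * δ) * (σ * Cg * δ)) +
      C1 * (σ * Cg * δ) ^ 2 * (A.card / M) := by ring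
  linarith
/- END tfb -/

/-- mean energy of the placed field at `y` -/
def eV (D : Finset (ℤ × ℤ)) (b : ℤ × ℤ → ℝ) (L : ℕ) (V : ℤ × ℤ → (nb (bx L) → ℝ) → ℝ)
    (y : ℤ × ℤ) : ℝ :=
  ∫ h, en (nb (bx L)) (bx L) V (rs (nb (bx L)) y (gl D b h)) ∂(Mu D b)

/-- its deviation from the universal state -/
def eD (D : Finset (ℤ × ℤ)) (b : ℤ × ℤ → ℝ) (L : ℕ) (V : ℤ × ℤ → (nb (bx L) → ℝ) → ℝ)
    (y : ℤ × ℤ) : ℝ :=
  |eV D b L V y - mm (nb (bx L)) (en (nb (bx L)) (bx L) V)|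

/-- deviation of the mean of the truncated function from the universal state -/
def fD (D : Finset (ℤ × ℤ)) (b : ℤ × ℤ → ℝ) (σ τ : ℝ) (L : ℕ) (d : ℝ × ℝ)
    (V : ℤ × ℤ → (nb (bx L) → ℝ) → ℝ) (y : ℤ × ℤ) : ℝ :=
  |fP D b σ τ L d V y - mm (nb (bx L)) (fl σ τ L d V)|

/- MODULE tfc
`en` is a quadratic form in the field (`pz` is linear), `mm_add`, `mm_smul`, `UF_Lg`, `UF.comb`;
`|(dG G y).1|, |(dG G y).2| ≤ Cg δ` (`qd_dG`). -/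
theorem en_quad {L : ℕ} {V0 V1 : ℤ × ℤ → (nb (bx L) → ℝ) → ℝ} (h0 : UF (bx L) V0)
    (h1 : UF (bx L) V1) (d : ℝ × ℝ) (k : nb (bx L) → ℝ) :
    en (nb (bx L)) (bx L) (d.1 • V0 + d.2 • V1) k = d.1 ^ 2 * en (nb (bx L)) (bx L) V0 k +
      d.2 ^ 2 * en (nb (bx L)) (bx L) V1 k + d.1 * d.2 * (en (nb (bx L)) (bx L) (V0 + V1) k -
        en (nb (bx L)) (bx L) V0 k - en (nb (bx L)) (bx L) V1 k) := by
  have hd0 : ∀ x, DifferentiableAt ℝ (V0 x) k := fun x =>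
    ((h0.nice.sm x).differentiable (by simp)).differentiableAt
  have hd1 : ∀ x, DifferentiableAt ℝ (V1 x) k := fun x =>
    ((h1.nice.sm x).differentiable (by simp)).differentiableAt
  have e1 : ∀ x y, pz (nb (bx L)) y ((d.1 • V0 + d.2 • V1) x) k =
      d.1 * pz (nb (bx L)) y (V0 x) k + d.2 * pz (nb (bx L)) y (V1 x) k := by
    intro x y
    have e2 : ((d.1 • V0 + d.2 • V1) x) = fun k => d.1 * V0 x k + d.2 * V1 x k := rfl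
    rw [e2, pz_add ((hd0 x).const_mul _) ((hd1 x).const_mul _), pz_smul _ (hd0 x),
      pz_smul _ (hd1 x)]
  have e3 : ∀ x y, pz (nb (bx L)) y ((V0 + V1) x) k =
      pz (nb (bx L)) y (V0 x) k + pz (nb (bx L)) y (V1 x) k := by
    intro x y
    have e2 : ((V0 + V1) x) = fun k => V0 x k + V1 x k := rfl
    rw [e2, pz_add (hd0 x) (hd1 x)]
  unfold en
  simp only [e1, e3, Finset.mul_sum, ← Finset.sum_add_distrib, ← Finset.sum_sub_distrib]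
  refine Finset.sum_congr rfl fun x _ => Finset.sum_congr rfl fun y _ => ?_
  ring

theorem eP_mm {D : Finset (ℤ × ℤ)} {b G : ℤ × ℤ → ℝ} (hb : ∀ z, |b z| ≤ 1 / 2) {δ Cg : ℝ}
    (hG : Rg G δ Cg) (h0 : 0 < δ) (h1 : δ ≤ 1) {L : ℕ} {V0 V1 : ℤ × ℤ → (nb (bx L) → ℝ) → ℝ} (hV0 : UF (bx L) V0)
    (hV1 : UF (bx L) V1) (y : ℤ × ℤ) :
    |eP D b L V0 V1 G y - mm (nb (bx L)) (en (nb (bx L)) (bx L) ((dG G y).1 • V0 +
      (dG G y).2 • V1))| ≤ 3 * Cg ^ 2 * δ ^ 2 * (eD D b L V0 y + eD D b L V1 y +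
        eD D b L (V0 + V1) y) := by
  set d := dG G y with hd
  obtain ⟨hq, hd1, hd2⟩ := qd_dG hG h0 h1 y
  rw [← hd] at hd1 hd2
  have hV2 : UF (bx L) (V0 + V1) := by
    have := hV0.comb hV1 1 1
    rwa [one_smul, one_smul] at this
  have l0 : Lg (nb (bx L)) (en (nb (bx L)) (bx L) V0) := (UF_Lg hV0 subset_rfl 0 (0, 0)).1
  have l1 : Lg (nb (bx L)) (en (nb (bx L)) (bx L) V1) := (UF_Lg hV1 subset_rfl 0 (0, 0)).1
  have l2 : Lg (nb (bx L)) (en (nb (bx L)) (bx L) (V0 + V1)) := (UF_Lg hV2 subset_rfl 0 (0, 0)).1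
  -- the quadratic form with coefficients
  have hen : ∀ k : nb (bx L) → ℝ, en (nb (bx L)) (bx L) (d.1 • V0 + d.2 • V1) k =
      ((d.1 ^ 2 - d.1 * d.2) * en (nb (bx L)) (bx L) V0 k +
        (d.2 ^ 2 - d.1 * d.2) * en (nb (bx L)) (bx L) V1 k) +
        d.1 * d.2 * en (nb (bx L)) (bx L) (V0 + V1) k := by
    intro k
    rw [en_quad hV0 hV1]
    ring
  have hfun : en (nb (bx L)) (bx L) (d.1 • V0 + d.2 • V1) = fun k =>
      ((d.1 ^ 2 - d.1 * d.2) * en (nb (bx L)) (bx L) V0 k +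
        (d.2 ^ 2 - d.1 * d.2) * en (nb (bx L)) (bx L) V1 k) +
        d.1 * d.2 * en (nb (bx L)) (bx L) (V0 + V1) k := funext hen
  have hsm : ∀ {g : (nb (bx L) → ℝ) → ℝ}, Lg (nb (bx L)) g → ∀ t : ℝ,
      Lg (nb (bx L)) (fun k => t * g k) := by
    intro g hg t
    obtain ⟨C, hC⟩ := hg.bd
    refine ⟨hg.ms.const_mul t, ⟨|t| * C, fun k => ?_⟩, fun k s => ?_⟩
    · rw [abs_mul]
      exact mul_le_mul_of_nonneg_left (hC k) (abs_nonneg t)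
    · show t * g _ = t * g k
      rw [hg.sh k s]
  have had : ∀ {g g' : (nb (bx L) → ℝ) → ℝ}, Lg (nb (bx L)) g → Lg (nb (bx L)) g' →
      Lg (nb (bx L)) (fun k => g k + g' k) := by
    intro g g' hg hg'
    obtain ⟨C, hC⟩ := hg.bd
    obtain ⟨C', hC'⟩ := hg'.bd
    refine ⟨hg.ms.add hg'.ms, ⟨C + C', fun k => ?_⟩, fun k s => ?_⟩
    · exact (abs_add_le _ _).trans (add_le_add (hC k) (hC' k))
    · show g _ + g' _ = g k + g' k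
      rw [hg.sh k s, hg'.sh k s]
  have hmm : mm (nb (bx L)) (en (nb (bx L)) (bx L) (d.1 • V0 + d.2 • V1)) =
      ((d.1 ^ 2 - d.1 * d.2) * mm (nb (bx L)) (en (nb (bx L)) (bx L) V0) +
        (d.2 ^ 2 - d.1 * d.2) * mm (nb (bx L)) (en (nb (bx L)) (bx L) V1)) +
        d.1 * d.2 * mm (nb (bx L)) (en (nb (bx L)) (bx L) (V0 + V1)) := by
    rw [hfun, mm_add (had (hsm l0 _) (hsm l1 _)) (hsm l2 _), mm_add (hsm l0 _) (hsm l1 _),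
      mm_smul l0, mm_smul l1, mm_smul l2]
  have hP : IsProbabilityMeasure (Mu D b) := Mu_prob hb
  have hmeas : ∀ {g : (nb (bx L) → ℝ) → ℝ}, Lg (nb (bx L)) g →
      Integrable (fun h : D → ℝ => g (rs (nb (bx L)) y (gl D b h))) (Mu D b) := by
    intro g hg
    obtain ⟨C, hC⟩ := hg.bd
    have hm : Measurable (fun h : D → ℝ => rs (nb (bx L)) y (gl D b h)) := by
      refine measurable_pi_lambda _ fun w => ?_
      exact gl_meas D b _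
    refine Integrable.of_bound (hg.ms.comp hm).aestronglyMeasurable C
      (Eventually.of_forall fun h => ?_)
    rw [Real.norm_eq_abs]
    exact hC _
  have i0 := hmeas l0
  have i1 := hmeas l1
  have i2 := hmeas l2
  have heP : eP D b L V0 V1 G y = ((d.1 ^ 2 - d.1 * d.2) * eV D b L V0 y +
        (d.2 ^ 2 - d.1 * d.2) * eV D b L V1 y) + d.1 * d.2 * eV D b L (V0 + V1) y := by
    unfold eP eV
    rw [← hd]
    simp only [hen]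
    have i01 : Integrable (fun h : D → ℝ =>
        (d.1 ^ 2 - d.1 * d.2) * en (nb (bx L)) (bx L) V0 (rs (nb (bx L)) y (gl D b h)) +
        (d.2 ^ 2 - d.1 * d.2) * en (nb (bx L)) (bx L) V1 (rs (nb (bx L)) y (gl D b h)))
        (Mu D b) := (i0.const_mul _).add (i1.const_mul _)
    rw [integral_add i01 (i2.const_mul _),
      integral_add (i0.const_mul _) (i1.const_mul _), integral_const_mul, integral_const_mul,
      integral_const_mul]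
  rw [heP, hmm]
  have hA : 0 ≤ Cg * δ := mul_nonneg hG.C0 h0.le
  have a1 : |d.1| ^ 2 ≤ (Cg * δ) ^ 2 := pow_le_pow_left₀ (abs_nonneg _) hd1 2
  have a2 : |d.2| ^ 2 ≤ (Cg * δ) ^ 2 := pow_le_pow_left₀ (abs_nonneg _) hd2 2
  have a3 : |d.1| * |d.2| ≤ (Cg * δ) ^ 2 := by
    rw [sq]
    exact mul_le_mul hd1 hd2 (abs_nonneg _) hA
  have b1 : |d.1 ^ 2 - d.1 * d.2| ≤ 2 * (Cg * δ) ^ 2 := by
    calc |d.1 ^ 2 - d.1 * d.2| ≤ |d.1 ^ 2| + |d.1 * d.2| := abs_sub _ _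
      _ = |d.1| ^ 2 + |d.1| * |d.2| := by rw [abs_pow, abs_mul]
      _ ≤ _ := by linarith
  have b2 : |d.2 ^ 2 - d.1 * d.2| ≤ 2 * (Cg * δ) ^ 2 := by
    calc |d.2 ^ 2 - d.1 * d.2| ≤ |d.2 ^ 2| + |d.1 * d.2| := abs_sub _ _
      _ = |d.2| ^ 2 + |d.1| * |d.2| := by rw [abs_pow, abs_mul]
      _ ≤ _ := by linarith
  have b3 : |d.1 * d.2| ≤ (Cg * δ) ^ 2 := by
    rw [abs_mul]
    exact a3
  have hS : 0 ≤ (Cg * δ) ^ 2 := sq_nonneg _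
  have g0 : 0 ≤ eD D b L V0 y := abs_nonneg _
  have g1 : 0 ≤ eD D b L V1 y := abs_nonneg _
  have g2 : 0 ≤ eD D b L (V0 + V1) y := abs_nonneg _
  calc _ = |(d.1 ^ 2 - d.1 * d.2) * (eV D b L V0 y - mm (nb (bx L)) (en (nb (bx L)) (bx L) V0)) +
        (d.2 ^ 2 - d.1 * d.2) * (eV D b L V1 y - mm (nb (bx L)) (en (nb (bx L)) (bx L) V1)) +
        d.1 * d.2 * (eV D b L (V0 + V1) y -
          mm (nb (bx L)) (en (nb (bx L)) (bx L) (V0 + V1)))| := by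
        congr 1
        ring
    _ ≤ |(d.1 ^ 2 - d.1 * d.2) * (eV D b L V0 y - mm (nb (bx L)) (en (nb (bx L)) (bx L) V0))| +
        |(d.2 ^ 2 - d.1 * d.2) * (eV D b L V1 y - mm (nb (bx L)) (en (nb (bx L)) (bx L) V1))| +
        |d.1 * d.2 * (eV D b L (V0 + V1) y -
          mm (nb (bx L)) (en (nb (bx L)) (bx L) (V0 + V1)))| := abs_add_three _ _ _
    _ = |d.1 ^ 2 - d.1 * d.2| * eD D b L V0 y + |d.2 ^ 2 - d.1 * d.2| * eD D b L V1 y +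
        |d.1 * d.2| * eD D b L (V0 + V1) y := by
        rw [abs_mul, abs_mul, abs_mul]
        rfl
    _ ≤ 2 * (Cg * δ) ^ 2 * eD D b L V0 y + 2 * (Cg * δ) ^ 2 * eD D b L V1 y +
        (Cg * δ) ^ 2 * eD D b L (V0 + V1) y :=
        add_le_add (add_le_add (mul_le_mul_of_nonneg_right b1 g0)
          (mul_le_mul_of_nonneg_right b2 g1)) (mul_le_mul_of_nonneg_right b3 g2)
    _ ≤ _ := by
        have := mul_nonneg hS g0
        have := mul_nonneg hS g1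
        have := mul_nonneg hS g2
        nlinarith
/- END tfc -/

/- MODULE tfd
Sum over the positions: `eP_mm`, the hypothesis on the universal energies, `sum_qd`. -/
theorem sum_eP {D F : Finset (ℤ × ℤ)} (hF : F ⊆ D) {b G : ℤ × ℤ → ℝ}
    (hb : ∀ z, |b z| ≤ 1 / 2) {σ τ δ Cg : ℝ}
    (hG : Rg G δ Cg) (h0 : 0 < δ) (h1 : δ ≤ 1) (hσ : 0 ≤ σ) (hτ : 0 ≤ τ) {L : ℕ}
    {V0 V1 : ℤ × ℤ → (nb (bx L) → ℝ) → ℝ} (hV0 : UF (bx L) V0) (hV1 : UF (bx L) V1)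
    (hE : ∀ d : ℝ × ℝ, mm (nb (bx L)) (en (nb (bx L)) (bx L) (d.1 • V0 + d.2 • V1)) ≤
      (σ + τ) * qd d * (L : ℝ) ^ 2) :
    ∑ y ∈ F, eP D b L V0 V1 G y ≤
      (σ + τ) * (L : ℝ) ^ 2 * (EG D G + 100 * Cg ^ 2 * δ ^ 3 * F.card) +
      3 * Cg ^ 2 * δ ^ 2 * ∑ y ∈ F, (eD D b L V0 y + eD D b L V1 y + eD D b L (V0 + V1) y) := by
  have h2 : ∀ y ∈ F, eP D b L V0 V1 G y ≤ (σ + τ) * (L : ℝ) ^ 2 * qd (dG G y) +
      3 * Cg ^ 2 * δ ^ 2 * (eD D b L V0 y + eD D b L V1 y + eD D b L (V0 + V1) y) := by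
    intro y _
    have h3 := (abs_le.1 (eP_mm (D := D) hb hG h0 h1 hV0 hV1 y)).2
    have h4 := hE (dG G y)
    linarith
  have h3 := sum_qd hG h0 h1 hF
  have h4 : 0 ≤ (σ + τ) * (L : ℝ) ^ 2 := by positivity
  calc ∑ y ∈ F, eP D b L V0 V1 G y ≤ ∑ y ∈ F, ((σ + τ) * (L : ℝ) ^ 2 * qd (dG G y) +
      3 * Cg ^ 2 * δ ^ 2 * (eD D b L V0 y + eD D b L V1 y + eD D b L (V0 + V1) y)) :=
        Finset.sum_le_sum h2
    _ = (σ + τ) * (L : ℝ) ^ 2 * ∑ y ∈ F, qd (dG G y) + 3 * Cg ^ 2 * δ ^ 2 *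
        ∑ y ∈ F, (eD D b L V0 y + eD D b L V1 y + eD D b L (V0 + V1) y) := by
        rw [Finset.sum_add_distrib, Finset.mul_sum, Finset.mul_sum]
    _ ≤ _ := by
        have h5 := mul_le_mul_of_nonneg_left h3 h4
        linarith

/-- the truncated functions: `∑ √(a y) ≤ √(card F * ∑ a y)` -/
theorem sum_rP {D F : Finset (ℤ × ℤ)} {b : ℤ × ℤ → ℝ} {σ τ t q δ : ℝ} (hτ : 0 < τ) {L : ℕ}
    (hL : 1 ≤ L) {V0 V1 : ℤ × ℤ → (nb (bx L) → ℝ) → ℝ}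
    (hf0 : mm (nb (bx L)) (fl σ τ L (1, 0) V0) ≤ τ * (L : ℝ) ^ 2)
    (hf1 : mm (nb (bx L)) (fl σ τ L (0, 1) V1) ≤ τ * (L : ℝ) ^ 2) :
    ∑ y ∈ F, rP D b σ τ t q δ L V0 V1 y ≤
      F.card * (Real.sqrt (1 / Real.sqrt L + t + δ * L / τ + 1 / (τ * L)) +
        (1 / q) * (1 / Real.sqrt L + τ ^ 2 / t ^ 2)) +
      Real.sqrt (F.card * (2 * τ * F.card + (∑ y ∈ F, (fD D b σ τ L (1, 0) V0 y +
        fD D b σ τ L (0, 1) V1 y)) / (L : ℝ) ^ 2)) := by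
  have hL0 : (0 : ℝ) < (L : ℝ) ^ 2 := by
    have : (0 : ℝ) < L := by exact_mod_cast hL
    positivity
  have h2 : ∀ y ∈ F, Real.sqrt ((fP D b σ τ L (1, 0) V0 y + fP D b σ τ L (0, 1) V1 y) / L ^ 2) ≤
      Real.sqrt (2 * τ + (fD D b σ τ L (1, 0) V0 y + fD D b σ τ L (0, 1) V1 y) / (L : ℝ) ^ 2) := by
    intro y _
    refine Real.sqrt_le_sqrt ?_
    have h3 : fP D b σ τ L (1, 0) V0 y ≤ τ * (L : ℝ) ^ 2 + fD D b σ τ L (1, 0) V0 y := by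
      have := le_abs_self (fP D b σ τ L (1, 0) V0 y - mm (nb (bx L)) (fl σ τ L (1, 0) V0))
      unfold fD
      linarith
    have h4 : fP D b σ τ L (0, 1) V1 y ≤ τ * (L : ℝ) ^ 2 + fD D b σ τ L (0, 1) V1 y := by
      have := le_abs_self (fP D b σ τ L (0, 1) V1 y - mm (nb (bx L)) (fl σ τ L (0, 1) V1))
      unfold fD
      linarith
    rw [div_le_iff₀ hL0, add_mul, div_mul_cancel₀ _ hL0.ne']
    linarith
  have h3 : ∀ y, 0 ≤ 2 * τ + (fD D b σ τ L (1, 0) V0 y + fD D b σ τ L (0, 1) V1 y) /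
      (L : ℝ) ^ 2 := by
    intro y
    have h4 : 0 ≤ fD D b σ τ L (1, 0) V0 y := abs_nonneg _
    have h5 : 0 ≤ fD D b σ τ L (0, 1) V1 y := abs_nonneg _
    positivity
  have h4 : ∑ y ∈ F, Real.sqrt (2 * τ + (fD D b σ τ L (1, 0) V0 y + fD D b σ τ L (0, 1) V1 y) /
      (L : ℝ) ^ 2) ≤ Real.sqrt (F.card * (2 * τ * F.card + (∑ y ∈ F, (fD D b σ τ L (1, 0) V0 y +
        fD D b σ τ L (0, 1) V1 y)) / (L : ℝ) ^ 2)) := by
    refine Real.le_sqrt_of_sq_le ?_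
    refine (sq_sum_le_card_mul_sum_sq).trans ?_
    refine mul_le_mul_of_nonneg_left ?_ (Nat.cast_nonneg _)
    rw [Finset.sum_congr rfl fun y _ => Real.sq_sqrt (h3 y), Finset.sum_add_distrib,
      Finset.sum_const, nsmul_eq_mul, ← Finset.sum_div]
    linarith
  calc ∑ y ∈ F, rP D b σ τ t q δ L V0 V1 y ≤
      ∑ y ∈ F, ((Real.sqrt (1 / Real.sqrt L + t + δ * L / τ + 1 / (τ * L)) +
        (1 / q) * (1 / Real.sqrt L + τ ^ 2 / t ^ 2)) +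
        Real.sqrt (2 * τ + (fD D b σ τ L (1, 0) V0 y + fD D b σ τ L (0, 1) V1 y) /
          (L : ℝ) ^ 2)) := by
        refine Finset.sum_le_sum fun y hy => ?_
        have := h2 y hy
        unfold rP
        linarith
    _ = F.card * (Real.sqrt (1 / Real.sqrt L + t + δ * L / τ + 1 / (τ * L)) +
        (1 / q) * (1 / Real.sqrt L + τ ^ 2 / t ^ 2)) +
        ∑ y ∈ F, Real.sqrt (2 * τ + (fD D b σ τ L (1, 0) V0 y + fD D b σ τ L (0, 1) V1 y) /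
          (L : ℝ) ^ 2) := by
        rw [Finset.sum_add_distrib, Finset.sum_const, nsmul_eq_mul]
    _ ≤ _ := by linarith
/- END tfd -/

/- MODULE tfe
The choice of the parameters, in this order: `q`, `t`, `τ` (`τ ≤ ...`, `(1 / q) τ² / t²` small), `L`,
`δ`. -/
private theorem tfe_r {f : ℝ → ℝ} (hf : Continuous f) {ε : ℝ} (h : f 0 < ε) :
    ∃ r : ℝ, 0 < r ∧ ∀ x : ℝ, 0 < x → x < r → f x < ε := by
  have h1 := hf.continuousAt.eventually (gt_mem_nhds h)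
  obtain ⟨r, hr, h2⟩ := Metric.eventually_nhds_iff.1 h1
  refine ⟨r, hr, fun x h3 h4 => h2 ?_⟩
  rw [Real.dist_eq, sub_zero, abs_of_pos h3]
  exact h4

private theorem tfe_ch {f : ℝ → ℝ} (hf : Continuous f) {ε : ℝ} (h : f 0 < ε) :
    ∃ x : ℝ, 0 < x ∧ x ≤ 1 ∧ f x < ε := by
  obtain ⟨r, hr, h2⟩ := tfe_r hf h
  refine ⟨min 1 (r / 2), lt_min one_pos (by linarith), min_le_left _ _, h2 _
    (lt_min one_pos (by linarith)) ?_⟩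
  exact (min_le_right _ _).trans_lt (by linarith)

theorem num_par (σ C1 C2 Cg Kf Eb ε : ℝ) (hσ : 0 ≤ σ) (h1 : 0 ≤ C1) (h2 : 0 ≤ C2) (hCg : 0 ≤ Cg)
    (hK : 0 ≤ Kf) (hE : 0 ≤ Eb) (hε : 0 < ε) :
    ∃ q t τ : ℝ, 0 < q ∧ q ≤ 1 ∧ 0 < t ∧ t ≤ 1 ∧ 0 < τ ∧ τ ≤ 1 ∧ ∃ L1 : ℕ, 1 ≤ L1 ∧
    ∀ L : ℕ, L1 ≤ L → ∃ δ1 : ℝ, 0 < δ1 ∧ ∀ δ : ℝ, 0 < δ → δ < δ1 → ∀ E : ℝ, 0 ≤ E → E ≤ Eb →
      (1 + q + C1 / L) * ((σ + τ) * (E + 100 * Cg ^ 2 * Kf * δ) + 9 * Cg ^ 2 / (L : ℝ) ^ 2) +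
      C2 * (Kf * (Real.sqrt (1 / Real.sqrt L + t + δ * L / τ + 1 / (τ * L)) +
        (1 / q) * (1 / Real.sqrt L + τ ^ 2 / t ^ 2)) +
        Real.sqrt (Kf * (2 * τ * Kf + 2 / (L : ℝ) ^ 2))) ≤ σ * E + ε := by
  obtain ⟨q, hq, hq1, hf1⟩ := tfe_ch (f := fun q : ℝ => q * (σ * Eb)) (ε := ε) (by fun_prop)
    (by simpa using hε)
  obtain ⟨t, ht, ht1, hf2⟩ := tfe_ch (f := fun t : ℝ => q * (σ * Eb) + C2 * (Kf * Real.sqrt t))
    (ε := ε) (by fun_prop) (by simpa using hf1)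
  obtain ⟨τ, hτ, hτ1, hf3⟩ := tfe_ch (f := fun τ : ℝ => (q * (σ + τ) + τ) * Eb +
    C2 * (Kf * (Real.sqrt t + (1 / q) * (τ ^ 2 / t ^ 2)) + Real.sqrt (Kf * (2 * τ * Kf))))
    (ε := ε) (by fun_prop) (by
      have h3 : (q * (σ + 0) + 0) * Eb + C2 * (Kf * (Real.sqrt t + (1 / q) * (0 ^ 2 / t ^ 2)) +
          Real.sqrt (Kf * (2 * 0 * Kf))) = q * (σ * Eb) + C2 * (Kf * Real.sqrt t) := by
        rw [mul_zero, zero_mul, mul_zero, Real.sqrt_zero]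
        ring
      show (q * (σ + 0) + 0) * Eb + C2 * (Kf * (Real.sqrt t + (1 / q) * (0 ^ 2 / t ^ 2)) +
          Real.sqrt (Kf * (2 * 0 * Kf))) < ε
      rw [h3]
      exact hf2)
  obtain ⟨r, hr, hf4⟩ := tfe_r (f := fun u : ℝ => ((q + C1 * u ^ 2) * (σ + τ) + τ) * Eb +
    (1 + q + C1 * u ^ 2) * (9 * Cg ^ 2 * u ^ 4) +
    C2 * (Kf * (Real.sqrt (u + t + u ^ 2 / τ) + (1 / q) * (u + τ ^ 2 / t ^ 2)) +
      Real.sqrt (Kf * (2 * τ * Kf + 2 * u ^ 4))))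
    (ε := ε) (by fun_prop) (by
      have h3 : ((q + C1 * 0 ^ 2) * (σ + τ) + τ) * Eb +
          (1 + q + C1 * 0 ^ 2) * (9 * Cg ^ 2 * 0 ^ 4) +
          C2 * (Kf * (Real.sqrt (0 + t + 0 ^ 2 / τ) + (1 / q) * (0 + τ ^ 2 / t ^ 2)) +
            Real.sqrt (Kf * (2 * τ * Kf + 2 * 0 ^ 4))) = (q * (σ + τ) + τ) * Eb +
          C2 * (Kf * (Real.sqrt t + (1 / q) * (τ ^ 2 / t ^ 2)) +
            Real.sqrt (Kf * (2 * τ * Kf))) := by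
        have h4 : (0 : ℝ) + t + 0 ^ 2 / τ = t := by ring
        have h5 : 2 * τ * Kf + 2 * (0 : ℝ) ^ 4 = 2 * τ * Kf := by ring
        rw [h4, h5]
        ring
      show ((q + C1 * 0 ^ 2) * (σ + τ) + τ) * Eb +
          (1 + q + C1 * 0 ^ 2) * (9 * Cg ^ 2 * 0 ^ 4) +
          C2 * (Kf * (Real.sqrt (0 + t + 0 ^ 2 / τ) + (1 / q) * (0 + τ ^ 2 / t ^ 2)) +
            Real.sqrt (Kf * (2 * τ * Kf + 2 * 0 ^ 4))) < ε
      rw [h3]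
      exact hf3)
  refine ⟨q, t, τ, hq, hq1, ht, ht1, hτ, hτ1, ⌊(1 / r) ^ 2⌋₊ + 1, by omega, fun L hL => ?_⟩
  have hL0 : (1 / r) ^ 2 < (L : ℝ) := by
    have h3 := Nat.lt_floor_add_one ((1 / r) ^ 2)
    have h4 : ((⌊(1 / r) ^ 2⌋₊ + 1 : ℕ) : ℝ) ≤ (L : ℝ) := by exact_mod_cast hL
    push_cast at h4
    linarith
  have hLp : (0 : ℝ) < L := lt_of_le_of_lt (sq_nonneg _) hL0
  have hs : 1 / r < Real.sqrt L := Real.lt_sqrt_of_sq_lt hL0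
  have hsp : 0 < Real.sqrt L := Real.sqrt_pos.2 hLp
  have hu : 1 / Real.sqrt L < r := by
    rw [div_lt_iff₀ hsp]
    rw [div_lt_iff₀ hr] at hs
    linarith
  have hu2 : (1 / Real.sqrt L) ^ 2 = 1 / (L : ℝ) := by
    rw [div_pow, one_pow, Real.sq_sqrt hLp.le]
  have hu4 : (1 / Real.sqrt L) ^ 4 = 1 / (L : ℝ) ^ 2 := by
    rw [show (1 / Real.sqrt L) ^ 4 = ((1 / Real.sqrt L) ^ 2) ^ 2 by ring, hu2, div_pow, one_pow]
  have h3 := hf4 (1 / Real.sqrt L) (by positivity) hu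
  obtain ⟨δ1, hδ1, hf5⟩ := tfe_r (f := fun δ : ℝ => ((q + C1 / L) * (σ + τ) + τ) * Eb +
    (1 + q + C1 / L) * ((σ + τ) * (100 * Cg ^ 2 * Kf * δ) + 9 * Cg ^ 2 / (L : ℝ) ^ 2) +
    C2 * (Kf * (Real.sqrt (1 / Real.sqrt L + t + δ * L / τ + 1 / (τ * L)) +
      (1 / q) * (1 / Real.sqrt L + τ ^ 2 / t ^ 2)) +
      Real.sqrt (Kf * (2 * τ * Kf + 2 / (L : ℝ) ^ 2))))
    (ε := ε) (by fun_prop) (by
      have h4 : ((q + C1 / L) * (σ + τ) + τ) * Eb +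
          (1 + q + C1 / L) * ((σ + τ) * (100 * Cg ^ 2 * Kf * 0) + 9 * Cg ^ 2 / (L : ℝ) ^ 2) +
          C2 * (Kf * (Real.sqrt (1 / Real.sqrt L + t + 0 * L / τ + 1 / (τ * L)) +
            (1 / q) * (1 / Real.sqrt L + τ ^ 2 / t ^ 2)) +
            Real.sqrt (Kf * (2 * τ * Kf + 2 / (L : ℝ) ^ 2))) =
          ((q + C1 * (1 / Real.sqrt L) ^ 2) * (σ + τ) + τ) * Eb +
          (1 + q + C1 * (1 / Real.sqrt L) ^ 2) * (9 * Cg ^ 2 * (1 / Real.sqrt L) ^ 4) +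
          C2 * (Kf * (Real.sqrt (1 / Real.sqrt L + t + (1 / Real.sqrt L) ^ 2 / τ) +
            (1 / q) * (1 / Real.sqrt L + τ ^ 2 / t ^ 2)) +
            Real.sqrt (Kf * (2 * τ * Kf + 2 * (1 / Real.sqrt L) ^ 4))) := by
        rw [hu2, hu4]
        have h5 : 1 / Real.sqrt L + t + 0 * (L : ℝ) / τ + 1 / (τ * L) =
            1 / Real.sqrt L + t + 1 / (L : ℝ) / τ := by
          rw [zero_mul, zero_div, add_zero, div_div, mul_comm τ (L : ℝ)]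
        rw [h5]
        have h6 : 2 * τ * Kf + 2 / (L : ℝ) ^ 2 = 2 * τ * Kf + 2 * (1 / (L : ℝ) ^ 2) := by ring
        rw [h6]
        ring
      show ((q + C1 / L) * (σ + τ) + τ) * Eb +
          (1 + q + C1 / L) * ((σ + τ) * (100 * Cg ^ 2 * Kf * 0) + 9 * Cg ^ 2 / (L : ℝ) ^ 2) +
          C2 * (Kf * (Real.sqrt (1 / Real.sqrt L + t + 0 * L / τ + 1 / (τ * L)) +
            (1 / q) * (1 / Real.sqrt L + τ ^ 2 / t ^ 2)) +
            Real.sqrt (Kf * (2 * τ * Kf + 2 / (L : ℝ) ^ 2))) < ε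
      rw [h4]
      exact h3)
  refine ⟨δ1, hδ1, fun δ h4 h5 E h6 h7 => ?_⟩
  have h8 := hf5 δ h4 h5
  have h9 : ((q + C1 / L) * (σ + τ) + τ) * E ≤ ((q + C1 / L) * (σ + τ) + τ) * Eb :=
    mul_le_mul_of_nonneg_left h7 (by positivity)
  have h10 : (1 + q + C1 / L) * ((σ + τ) * (E + 100 * Cg ^ 2 * Kf * δ) +
      9 * Cg ^ 2 / (L : ℝ) ^ 2) = σ * E + ((q + C1 / L) * (σ + τ) + τ) * E +
      (1 + q + C1 / L) * ((σ + τ) * (100 * Cg ^ 2 * Kf * δ) + 9 * Cg ^ 2 / (L : ℝ) ^ 2) := by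
    ring
  rw [h10]
  linarith
/- END tfe -/

/- MODULE tff
ONE MESH.  `Y = Yr L A r` with `r` from `Yr_off` for the summand of `glob_energy`; `M = ρ / (2 δ)`
(`Yr_cover`: `u ∉ A`, so `lt δ u ∉ Kc`; `dn (z - u) ≤ M + 4 L`, `lt_dist`, so `lt δ z` is not in
the support of `g`); `sum_eP`, `sum_rP` with `F = Fs L A`, `δ² card F ≤ Kf`, and the deviations
(`hd`: all five sums are at most `1` after multiplication with `δ²`). -/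
private theorem tff_far {g : ℝ × ℝ → ℝ} {Kc : Set (ℝ × ℝ)} {ρ δ : ℝ} (hδ : 0 < δ)
    (hgK : ∀ p ∈ tsupport g, ∀ p', dist p' p ≤ ρ → p' ∈ Kc) {A : Finset (ℤ × ℤ)}
    (hA : ∀ x, x ∈ A ↔ lt δ x ∈ Kc) {L : ℕ} (hL : δ * (8 * L + 2) ≤ ρ) {u x : ℤ × ℤ} (hu : u ∉ A)
    (hux : dn (u - x) ≤ 4 * (L : ℤ)) {z : ℤ × ℤ} (hz : (dn (z - x) : ℝ) ≤ ρ / (2 * δ)) :
    g (lt δ z) = 0 := by
  by_contra h
  refine hu ((hA u).2 (hgK _ (subset_tsupport g h) _ ?_))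
  refine (lt_dist hδ u z).trans ?_
  have h1 : dn (u - z) ≤ dn (u - x) + dn (z - x) := by
    have h2 := dn_add_le (u - x) (x - z)
    rw [sub_add_sub_cancel] at h2
    have h3 := dn_neg (x - z)
    rw [neg_sub] at h3
    rw [h3]
    exact h2
  have h2 : (dn (u - z) : ℝ) ≤ 4 * L + ρ / (2 * δ) := by
    have h3 : (dn (u - z) : ℝ) ≤ dn (u - x) + dn (z - x) := by exact_mod_cast h1
    have h4 : (dn (u - x) : ℝ) ≤ 4 * (L : ℝ) := by exact_mod_cast hux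
    linarith
  have h3 : δ * (ρ / (2 * δ)) = ρ / 2 := by
    field_simp
  calc δ * (dn (u - z) : ℝ) ≤ δ * (4 * L + ρ / (2 * δ)) := mul_le_mul_of_nonneg_left h2 hδ.le
    _ = 4 * (δ * L) + ρ / 2 := by rw [mul_add, h3]; ring
    _ ≤ ρ := by nlinarith

/-- numbers: the sum over the positions of the error terms -/
private theorem tff_num {F K a e τ S L δ : ℝ} (hF : 0 ≤ F) (hδ : 0 ≤ δ) (hFK : F * δ ^ 2 ≤ K)
    (ha : 0 ≤ a) (hτ : 0 ≤ τ) (hL : 0 < L) (hS : 0 ≤ S) (hS2 : δ ^ 2 * S ≤ 2)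
    (hR : e ≤ F * a + Real.sqrt (F * (2 * τ * F + S / L ^ 2))) :
    δ ^ 2 * e ≤ K * a + Real.sqrt (K * (2 * τ * K + 2 / L ^ 2)) := by
  have hK : 0 ≤ K := le_trans (by positivity) hFK
  have h1 : δ ^ 2 * e ≤ δ ^ 2 * (F * a + Real.sqrt (F * (2 * τ * F + S / L ^ 2))) :=
    mul_le_mul_of_nonneg_left hR (by positivity)
  have h2 : δ ^ 2 * Real.sqrt (F * (2 * τ * F + S / L ^ 2)) ≤
      Real.sqrt (K * (2 * τ * K + 2 / L ^ 2)) := by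
    refine Real.le_sqrt_of_sq_le ?_
    rw [mul_pow, Real.sq_sqrt (by positivity)]
    have h3 : (δ ^ 2) ^ 2 * (F * (2 * τ * F + S / L ^ 2)) =
        (F * δ ^ 2) * (2 * τ * (F * δ ^ 2) + (δ ^ 2 * S) / L ^ 2) := by ring
    rw [h3]
    have h4 : 0 ≤ F * δ ^ 2 := by positivity
    have h5 : (δ ^ 2 * S) / L ^ 2 ≤ 2 / L ^ 2 := by gcongr
    have h6 : 2 * τ * (F * δ ^ 2) ≤ 2 * τ * K := by gcongr
    have h7 : 0 ≤ (δ ^ 2 * S) / L ^ 2 := by positivity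
    exact mul_le_mul hFK (by linarith) (by positivity) hK
  have h3 : δ ^ 2 * (F * a) ≤ K * a := by
    have := mul_le_mul_of_nonneg_right hFK ha
    linarith
  rw [mul_add] at h1
  linarith

theorem one_mesh : ∃ C : ℝ, 1 ≤ C ∧ ∀ (D A : Finset (ℤ × ℤ)) (b : ℤ × ℤ → ℝ)
    (g : ℝ × ℝ → ℝ) (σ Cg δ τ t : ℝ) (L : ℕ) (V0 V1 : ℤ × ℤ → (nb (bx L) → ℝ) → ℝ),
    Hx D A b (fun x => g (lt δ x)) σ Cg δ τ t L V0 V1 → ∀ q : ℝ, 0 < q → q ≤ 1 →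
    (∀ d : ℝ × ℝ, mm (nb (bx L)) (en (nb (bx L)) (bx L) (d.1 • V0 + d.2 • V1)) ≤
      (σ + τ) * qd d * (L : ℝ) ^ 2) →
    mm (nb (bx L)) (fl σ τ L (1, 0) V0) ≤ τ * (L : ℝ) ^ 2 →
    mm (nb (bx L)) (fl σ τ L (0, 1) V1) ≤ τ * (L : ℝ) ^ 2 →
    ∀ (Kc : Set (ℝ × ℝ)) (ρ : ℝ), 0 < ρ → (∀ p ∈ tsupport g, ∀ p', dist p' p ≤ ρ → p' ∈ Kc) →
    (∀ x, x ∈ A ↔ lt δ x ∈ Kc) → δ * (8 * L + 2) ≤ ρ →
    ∀ Kf : ℝ, (A.card : ℝ) * δ ^ 2 ≤ Kf →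
    δ ^ 2 * ∑ y ∈ Fs L A, eD D b L V0 y ≤ 1 → δ ^ 2 * ∑ y ∈ Fs L A, eD D b L V1 y ≤ 1 →
    δ ^ 2 * ∑ y ∈ Fs L A, eD D b L (V0 + V1) y ≤ 1 →
    δ ^ 2 * ∑ y ∈ Fs L A, fD D b σ τ L (1, 0) V0 y ≤ 1 →
    δ ^ 2 * ∑ y ∈ Fs L A, fD D b σ τ L (0, 1) V1 y ≤ 1 →
    ∃ Y : Finset (ℤ × ℤ), Pk L A Y ∧ (∀ y ∈ Y, tr y (nb (bx L)) ⊆ A) ∧
    ∫ h, (dv D (tX D b A Y σ τ t δ L V0 V1 (fun x => g (lt δ x))) h) ^ 2 ∂(Mu D b) ≤
      (1 + q + C / L) * ((σ + τ) * (EG D (fun x => g (lt δ x)) + 100 * Cg ^ 2 * Kf * δ) +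
        9 * Cg ^ 2 / (L : ℝ) ^ 2) +
      C * (1 + Cg) ^ 3 * (1 + σ) ^ 3 *
        (Kf * (Real.sqrt (1 / Real.sqrt L + t + δ * L / τ + 1 / (τ * L)) +
          (1 / q) * (1 / Real.sqrt L + τ ^ 2 / t ^ 2)) +
        Real.sqrt (Kf * (2 * τ * Kf + 2 / (L : ℝ) ^ 2))) +
      C * (σ * Cg) ^ 2 * Kf * (2 * δ / ρ) := by
  obtain ⟨C, hC, hglob⟩ := glob_energy
  refine ⟨C, hC, ?_⟩
  intro D A b g σ Cg δ τ t L V0 V1 H q hq hq1 hE hf0 hf1 Kc ρ hρ hgK hA hLρ Kf hKf he0 he1 he2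
    hd0 hd1
  have hCg := H.hG.C0
  have hδ := H.hδ
  have hσ := H.hσ
  have hτ := H.hτ
  have hLp : (0 : ℝ) < L := by exact_mod_cast H.hL
  have hL2 : (0 : ℝ) < (L : ℝ) ^ 2 := by positivity
  obtain ⟨r, hr⟩ := Yr_off H.hL A (fun y => (1 + q + C / L) *
    eP D b L V0 V1 (fun x => g (lt δ x)) y +
    C * (1 + Cg) ^ 3 * (1 + σ) ^ 3 * (δ ^ 2 * L ^ 2) * rP D b σ τ t q δ L V0 V1 y)
  refine ⟨Yr L A r, Yr_Pk H.hL A r, fun y hy => Yr_nb hy, ?_⟩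
  have hM : 1 ≤ ρ / (2 * δ) := by
    rw [one_le_div (by positivity)]
    nlinarith
  have h1 := hglob D A b (fun x => g (lt δ x)) σ Cg δ τ t L V0 V1 H q hq hq1 (Yr L A r)
    (Yr_Pk H.hL A r) (fun y hy => Yr_nb hy) (ρ / (2 * δ)) hM (by
      intro x hx h2 z hz
      obtain ⟨u, hu, hux⟩ := Yr_cover H.hL r hx h2
      exact tff_far hδ hgK hA hLρ hu hux hz)
  have hFA : Fs L A ⊆ A := fun y hy => (Fs_mem hy).1
  have hFD : Fs L A ⊆ D := hFA.trans H.hA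
  have hFc : ((Fs L A).card : ℝ) ≤ A.card := by exact_mod_cast Finset.card_le_card hFA
  have hFK : ((Fs L A).card : ℝ) * δ ^ 2 ≤ Kf :=
    (mul_le_mul_of_nonneg_right hFc (sq_nonneg _)).trans hKf
  have hK0 : 0 ≤ Kf := le_trans (by positivity) hFK
  have h2 := sum_eP hFD H.hb H.hG hδ H.hδ1 hσ hτ.le H.hV0 H.hV1 hE
  have h3 := sum_rP (D := D) (F := Fs L A) (b := b) (q := q) (t := t) (δ := δ) hτ H.hL hf0 hf1
  -- the energies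
  have h4 : (∑ y ∈ Fs L A, eP D b L V0 V1 (fun x => g (lt δ x)) y) / (L : ℝ) ^ 2 ≤
      (σ + τ) * (EG D (fun x => g (lt δ x)) + 100 * Cg ^ 2 * Kf * δ) +
        9 * Cg ^ 2 / (L : ℝ) ^ 2 := by
    rw [div_le_iff₀ hL2, add_mul, div_mul_cancel₀ _ hL2.ne']
    have h5 : δ ^ 2 * ∑ y ∈ Fs L A, (eD D b L V0 y + eD D b L V1 y + eD D b L (V0 + V1) y) ≤
        3 := by
      rw [Finset.sum_add_distrib, Finset.sum_add_distrib]
      linarith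
    have h6 : 3 * Cg ^ 2 * δ ^ 2 * ∑ y ∈ Fs L A, (eD D b L V0 y + eD D b L V1 y +
        eD D b L (V0 + V1) y) ≤ 9 * Cg ^ 2 := by
      have := mul_le_mul_of_nonneg_left h5 (by positivity : 0 ≤ 3 * Cg ^ 2)
      linarith
    have h7 : 100 * Cg ^ 2 * δ ^ 3 * (Fs L A).card ≤ 100 * Cg ^ 2 * Kf * δ := by
      have := mul_le_mul_of_nonneg_left hFK (by positivity : 0 ≤ 100 * Cg ^ 2 * δ)
      linarith
    have h8 : (σ + τ) * (L : ℝ) ^ 2 * (EG D (fun x => g (lt δ x)) +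
        100 * Cg ^ 2 * δ ^ 3 * (Fs L A).card) ≤ (σ + τ) * (L : ℝ) ^ 2 *
        (EG D (fun x => g (lt δ x)) + 100 * Cg ^ 2 * Kf * δ) :=
      mul_le_mul_of_nonneg_left (by linarith) (by positivity)
    linarith
  -- the errors
  have h5 : δ ^ 2 * ∑ y ∈ Fs L A, rP D b σ τ t q δ L V0 V1 y ≤
      Kf * (Real.sqrt (1 / Real.sqrt L + t + δ * L / τ + 1 / (τ * L)) +
        (1 / q) * (1 / Real.sqrt L + τ ^ 2 / t ^ 2)) +
      Real.sqrt (Kf * (2 * τ * Kf + 2 / (L : ℝ) ^ 2)) := by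
    have h6 : 0 ≤ ∑ y ∈ Fs L A, (fD D b σ τ L (1, 0) V0 y + fD D b σ τ L (0, 1) V1 y) :=
      Finset.sum_nonneg fun y _ => add_nonneg (abs_nonneg _) (abs_nonneg _)
    have h7 : δ ^ 2 * ∑ y ∈ Fs L A, (fD D b σ τ L (1, 0) V0 y + fD D b σ τ L (0, 1) V1 y) ≤
        2 := by
      rw [Finset.sum_add_distrib]
      linarith
    exact tff_num (Nat.cast_nonneg _) hδ.le hFK (by positivity) hτ.le hLp h6 h7 h3
  have h6 : (∑ y ∈ Fs L A, ((1 + q + C / L) * eP D b L V0 V1 (fun x => g (lt δ x)) y +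
      C * (1 + Cg) ^ 3 * (1 + σ) ^ 3 * (δ ^ 2 * L ^ 2) * rP D b σ τ t q δ L V0 V1 y)) /
      (L : ℝ) ^ 2 = (1 + q + C / L) *
        ((∑ y ∈ Fs L A, eP D b L V0 V1 (fun x => g (lt δ x)) y) / (L : ℝ) ^ 2) +
      C * (1 + Cg) ^ 3 * (1 + σ) ^ 3 *
        (δ ^ 2 * ∑ y ∈ Fs L A, rP D b σ τ t q δ L V0 V1 y) := by
    rw [Finset.sum_add_distrib, ← Finset.mul_sum, ← Finset.mul_sum, add_div]
    congr 1
    · ring
    · field_simp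
  have h7 := mul_le_mul_of_nonneg_left h4 (by positivity : 0 ≤ 1 + q + C / L)
  have h8 := mul_le_mul_of_nonneg_left h5
    (by positivity : 0 ≤ C * (1 + Cg) ^ 3 * (1 + σ) ^ 3)
  have h9 : C * (σ * Cg * δ) ^ 2 * A.card / (ρ / (2 * δ)) ≤
      C * (σ * Cg) ^ 2 * Kf * (2 * δ / ρ) := by
    have h10 : C * (σ * Cg * δ) ^ 2 * A.card / (ρ / (2 * δ)) =
        C * (σ * Cg) ^ 2 * ((A.card : ℝ) * δ ^ 2) * (2 * δ / ρ) := by
      field_simp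
    rw [h10]
    gcongr
  rw [h6] at hr
  linarith
/- END tff -/

/- MODULE tfg
THE ENERGY THEOREM.  `num_par` with `ε / 2`, `Sl s` with its `τ`, `L` = the maximum of `L1` and the
`L0` of `Sl`; `Rg_of`, `lat_card`, `EG_card` (`3 Cg² Kf` bounds `EG`), five times `avg_lem` with
`ε = 1`; `one_mesh`. -/
theorem energy {s : ℝ} (hs : 0 ≤ s) (hS : Sl s) {g : ℝ × ℝ → ℝ} (hg : ContDiff ℝ ∞ g)
    (hc : HasCompactSupport g) {Kc : Set (ℝ × ℝ)} (hK : IsCompact Kc) {U : Set (ℝ × ℝ)}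
    (hU : IsOpen U) (hKU : Kc ⊆ U) {ρ : ℝ} (hρ : 0 < ρ)
    (hgK : ∀ p ∈ tsupport g, ∀ p', dist p' p ≤ ρ → p' ∈ Kc) {R : ℝ} (hR : 0 < R) {ε : ℝ}
    (hε : 0 < ε) :
    ∃ (τ t : ℝ) (L : ℕ) (V0 V1 : ℤ × ℤ → (nb (bx L) → ℝ) → ℝ), 0 < τ ∧ τ ≤ 1 ∧ 0 < t ∧ t ≤ 1 ∧
      1 ≤ L ∧ UF (bx L) V0 ∧ UF (bx L) V1 ∧ ∃ δ₀ : ℝ, 0 < δ₀ ∧ ∀ δ : ℝ, 0 < δ → δ < δ₀ →
      ∀ D : Finset (ℤ × ℤ), (∀ x, lt δ x ∈ U → x ∈ D) → (∀ x ∈ D, ‖lt δ x‖ ≤ R) →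
      ∀ b : ℤ × ℤ → ℝ, (∀ z, |b z| ≤ 1 / 2) → ∀ A : Finset (ℤ × ℤ), (∀ x, x ∈ A ↔ lt δ x ∈ Kc) →
      ∃ Y : Finset (ℤ × ℤ), Pk L A Y ∧ (∀ y ∈ Y, tr y (nb (bx L)) ⊆ A) ∧
        ∫ h, (dv D (tX D b A Y s τ t δ L V0 V1 (fun x => g (lt δ x))) h) ^ 2 ∂(Mu D b) ≤
          s * EG D (fun x => g (lt δ x)) + ε := by
  obtain ⟨Cg, hCg, hRg⟩ := Rg_of hg hc
  obtain ⟨Kf, hKf0, hKf⟩ := lat_card hK
  obtain ⟨C, hC, hone⟩ := one_mesh
  obtain ⟨q, t, τ, hq, hq1, ht, ht1, hτ, hτ1, L1, hL1, hnum⟩ := num_par s C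
    (C * (1 + Cg) ^ 3 * (1 + s) ^ 3) Cg Kf (3 * Cg ^ 2 * Kf) (ε / 2) hs (by linarith)
    (by positivity) hCg hKf0 (by positivity) (by linarith)
  obtain ⟨L0, hL0⟩ := hS τ hτ
  obtain ⟨V0, V1, hV0, hV1, hE, hf0, hf1⟩ := hL0 (max L1 L0) (le_max_right _ _)
  obtain ⟨δ1, hδ1, hn⟩ := hnum (max L1 L0) (le_max_left _ _)
  have hL : 1 ≤ max L1 L0 := hL1.trans (le_max_left _ _)
  revert V0 V1
  generalize max L1 L0 = L at *
  intro V0 V1 hV0 hV1 hE hf0 hf1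
  have hV2 : UF (bx L) (V0 + V1) := by
    have := UF.comb hV0 hV1 1 1
    rwa [one_smul, one_smul] at this
  obtain ⟨δa, hδa, ha⟩ := avg_lem (UF_Lg hV0 (Finset.Subset.refl _) 0 (0, 0)).1 hK hU hKU hR
    one_pos
  obtain ⟨δb, hδb, hb⟩ := avg_lem (UF_Lg hV1 (Finset.Subset.refl _) 0 (0, 0)).1 hK hU hKU hR
    one_pos
  obtain ⟨δc, hδc, hcc⟩ := avg_lem (UF_Lg hV2 (Finset.Subset.refl _) 0 (0, 0)).1 hK hU hKU hR
    one_pos
  obtain ⟨δd, hδd, hd⟩ := avg_lem (fl_Lg hV0 s τ (1, 0)) hK hU hKU hR one_pos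
  obtain ⟨δe, hδe, he⟩ := avg_lem (fl_Lg hV1 s τ (0, 1)) hK hU hKU hR one_pos
  have hQ : 0 ≤ C * (s * Cg) ^ 2 * Kf := by positivity
  refine ⟨τ, t, L, V0, V1, hτ, hτ1, ht, ht1, hL, hV0, hV1,
    min (min (min δ1 δa) (min δb δc)) (min (min δd δe) (min (min 1 (ρ / (8 * L + 2)))
      (ε * ρ / (4 * (C * (s * Cg) ^ 2 * Kf + 1))))), ?_, ?_⟩
  · refine lt_min (lt_min (lt_min hδ1 hδa) (lt_min hδb hδc)) (lt_min (lt_min hδd hδe)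
      (lt_min (lt_min one_pos ?_) ?_))
    · positivity
    · positivity
  intro δ hδ hδ0 D hDU hDR b hb2 A hA
  simp only [lt_min_iff] at hδ0
  obtain ⟨⟨⟨g1, ga⟩, gb, gc⟩, ⟨gd, ge⟩, ⟨g2, g3⟩, g4⟩ := hδ0
  have h3 : δ * (8 * L + 2) ≤ ρ := by
    rw [lt_div_iff₀ (by positivity)] at g3
    exact g3.le
  have hR1 := hRg δ hδ g2.le
  have hin : ∀ x, g (lt δ x) ≠ 0 → x ∈ A := fun x hx =>
    (hA x).2 (hgK _ (subset_tsupport g hx) _ (by rw [dist_self]; exact hρ.le))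
  have hAD : A ⊆ D := fun x hx => hDU x (hKU ((hA x).1 hx))
  have hH : Hx D A b (fun x => g (lt δ x)) s Cg δ τ t L V0 V1 :=
    { hL := hL, hb := hb2, hA := hAD
      h0 := fun z hz => by
        by_contra h
        exact hz (hin z h)
      hG := hR1, hδ := hδ, hδ1 := g2.le, hσ := hs, hτ := hτ, hτ1 := hτ1, ht := ht, ht1 := ht1
      hV0 := hV0, hV1 := hV1 }
  have hF : ∀ x ∈ Fs L A, lt δ x ∈ Kc := fun x hx => (hA x).1 (Fs_mem hx).1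
  have hAK := hKf δ hδ g2.le A (fun x hx => (hA x).1 hx)
  obtain ⟨Y, hY1, hY2, hY3⟩ := hone D A b g s Cg δ τ t L V0 V1 hH q hq hq1 hE hf0 hf1 Kc ρ hρ hgK
    hA h3 Kf hAK (ha δ hδ ga D hDU hDR b hb2 _ hF) (hb δ hδ gb D hDU hDR b hb2 _ hF)
    (hcc δ hδ gc D hDU hDR b hb2 _ hF) (hd δ hδ gd D hDU hDR b hb2 _ hF)
    (he δ hδ ge D hDU hDR b hb2 _ hF)
  refine ⟨Y, hY1, hY2, hY3.trans ?_⟩
  have hEG0 : 0 ≤ EG D (fun x => g (lt δ x)) := by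
    unfold EG
    positivity
  have hEG1 : EG D (fun x => g (lt δ x)) ≤ 3 * Cg ^ 2 * Kf := by
    have h4 : EG D (fun x => g (lt δ x)) ≤ 3 * Cg ^ 2 * δ ^ 2 * A.card := by
      refine EG_card hR1 fun x hx => ⟨hin x hx, fun i => (hA _).2 (hgK _ (subset_tsupport g hx) _ ?_)⟩
      refine (lt_dist hδ _ _).trans ?_
      have h5 : dn (x + st i - x) = 1 := by
        rw [add_sub_cancel_left, dn_one_iff]
        exact ⟨i, rfl⟩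
      rw [h5, Int.cast_one, mul_one]
      have h6 : (0 : ℝ) ≤ L := Nat.cast_nonneg _
      exact (le_mul_of_one_le_right hδ.le (by linarith)).trans h3
    refine h4.trans ?_
    have := mul_le_mul_of_nonneg_left hAK (by positivity : 0 ≤ 3 * Cg ^ 2)
    linarith
  have h4 := hn δ hδ g1 _ hEG0 hEG1
  have h5 : C * (s * Cg) ^ 2 * Kf * (2 * δ / ρ) ≤ ε / 2 := by
    rw [lt_div_iff₀ (by positivity)] at g4
    rw [mul_div_assoc', div_le_iff₀ hρ]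
    generalize C * (s * Cg) ^ 2 * Kf = Q at g4 hQ
    linarith
  linarith
/- END tfg -/

end Pool.Agent.Hmk
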