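import Pool.Agent.Hmk.TfB

/-!
# Hmk, trial field (last file): from trial fields to the interior theorem `Itf`
-/

set_option autoImplicit false

open MeasureTheory Set Filter ProbabilityTheory

open scoped ENNReal ContDiff Topology

noncomputable section

namespace Pool.Agent.Hmk

/-- TRIAL FIELDS exist: `X` is nice for all boundary data, vanishes off `A`, its divergence depends on
the heights in `U`, `E (dv X)² ≤ s EG + ε` and `∑ Lap G x * X x` is close to `s EG` in `L¹` -/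
def Tri (s : ℝ) : Prop :=
  ∀ g : ℝ × ℝ → ℝ, ContDiff ℝ ∞ g → HasCompactSupport g → ∀ U : Set (ℝ × ℝ), IsOpen U →
    tsupport g ⊆ U → ∀ R : ℝ, 0 < R → ∀ ε : ℝ, 0 < ε →
    ∃ δ₀ : ℝ, 0 < δ₀ ∧ ∃ (C : ℝ) (k : ℕ), ∀ δ : ℝ, 0 < δ → δ < δ₀ →
    ∀ D : Finset (ℤ × ℤ), (∀ x, lt δ x ∈ U → x ∈ D) → (∀ x ∈ D, ‖lt δ x‖ ≤ R) →
    ∀ b : ℤ × ℤ → ℝ, (∀ z, |b z| ≤ 1 / 2) →
    ∃ (A : Finset (ℤ × ℤ)) (X : ℤ × ℤ → (D → ℝ) → ℝ), A ⊆ D ∧ (∀ x ∈ A, lt δ x ∈ U) ∧
      (∀ b' : ℤ × ℤ → ℝ, (∀ z, |b' z| ≤ 1 / 2) → Nice D b' X) ∧ (∀ x ∉ A, ∀ h, X x h = 0) ∧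
      (∀ h, |dv D X h| ≤ C / δ ^ k) ∧ Dep (fun x => lt δ x ∈ U) (dv D X) ∧
      ∫ h, (dv D X h) ^ 2 ∂(Mu D b) ≤ s * EG D (fun x => g (lt δ x)) + ε ∧
      ∫ h, |(∑ x ∈ D, Lap (fun x => g (lt δ x)) x * X x h) - s * EG D (fun x => g (lt δ x))|
        ∂(Mu D b) ≤ ε

/- MODULE tha
Composition of `FG` with a smooth function of one variable (`FG_smooth`, `FG_pz` of CfL, chain
rule). -/

theorem FG_comp (D : Finset (ℤ × ℤ)) (b G : ℤ × ℤ → ℝ) {q : ℝ → ℝ} (hq : ContDiff ℝ ∞ q) (m : ℝ) :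
    ContDiff ℝ ∞ (fun h => q (FG D b G h - m)) ∧ ∀ x ∈ D, ∀ h,
      pz D x (fun h => q (FG D b G h - m)) h = deriv q (FG D b G h - m) * Lap G x := by
  have hs : ContDiff ℝ ∞ (fun h => FG D b G h - m) := (FG_smooth D b G).sub contDiff_const
  refine ⟨hq.comp hs, fun x hx h => ?_⟩
  have h1 := pz_comp (y := x) (f := fun h => FG D b G h - m) (φ := q) (k := h)
    (hs.differentiable (by simp)).differentiableAt
    (hq.differentiable (by simp)).differentiableAt
  have h2 : pz D x (fun h => FG D b G h - m) h = Lap G x := by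
    have h3 := pz_add (S := D) (y := x) (f := FG D b G) (g := fun _ => -m) (k := h)
      ((FG_smooth D b G).differentiable (by simp)).differentiableAt
      (differentiableAt_const _)
    have h4 : pz D x (fun _ : D → ℝ => -m) h = 0 := by
      simp [pz, pd]
    rw [FG_pz D b G hx h, h4, add_zero] at h3
    simpa [sub_eq_add_neg] using h3
  rw [h1, h2]

/- END tha -/

/- MODULE thb
THE CRITERION.  `dv_crit` with `F = FG`, `FG_pz`, `E (∑ Lap G x * X x) ≥ v - ε`. -/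

theorem crit_le {D : Finset (ℤ × ℤ)} {b G : ℤ × ℤ → ℝ} (hb : ∀ z, |b z| ≤ 1 / 2)
    {X : ℤ × ℤ → (D → ℝ) → ℝ} (hX : Nice D b X) {v ε : ℝ}
    (h1 : ∫ h, (dv D X h) ^ 2 ∂(Mu D b) ≤ v + ε)
    (h2 : ∫ h, |(∑ x ∈ D, Lap G x * X x h) - v| ∂(Mu D b) ≤ ε)
    (h3 : variance (FG D b G) (Mu D b) ≤ v + ε) :
    ∫ h, (FG D b G h - (∫ h', FG D b G h' ∂(Mu D b)) - dv D X h) ^ 2 ∂(Mu D b) ≤ 4 * ε := by
  have := Mu_prob (D := D) hb
  have hc := dv_crit hb hX (FG_smooth D b G)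
  have hsw : ∫ h, (FG D b G h - (∫ h', FG D b G h' ∂(Mu D b)) - dv D X h) ^ 2 ∂(Mu D b) =
      ∫ h, (dv D X h - (FG D b G h - ∫ h', FG D b G h' ∂(Mu D b))) ^ 2 ∂(Mu D b) := by
    congr 1
    funext h
    ring
  have hS : Continuous fun h : D → ℝ => ∑ x ∈ D, Lap G x * X x h :=
    continuous_finsetSum _ fun x _ => continuous_const.mul (hX.sm x).continuous
  have hSi := int_K hb hS
  have hm : ∫ h, ∑ x ∈ D, X x h * pz D x (FG D b G) h ∂(Mu D b) =
      ∫ h, ∑ x ∈ D, Lap G x * X x h ∂(Mu D b) := by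
    congr 1
    funext h
    refine Finset.sum_congr rfl fun x hx => ?_
    rw [FG_pz D b G hx h]
    ring
  have h5 : v - ε ≤ ∫ h, ∑ x ∈ D, Lap G x * X x h ∂(Mu D b) := by
    have h6 : |∫ h, ((∑ x ∈ D, Lap G x * X x h) - v) ∂(Mu D b)| ≤ ε :=
      (abs_integral_le_integral_abs).trans h2
    have h7 : ∫ h, ((∑ x ∈ D, Lap G x * X x h) - v) ∂(Mu D b) =
        (∫ h, ∑ x ∈ D, Lap G x * X x h ∂(Mu D b)) - v := by
      rw [integral_sub hSi (integrable_const _)]
      simp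
    rw [h7] at h6
    linarith [(abs_le.1 h6).1]
  rw [hsw, hc, hm]
  linarith

/- END thb -/

/- MODULE thc
Comparison for the equation `φ' = - τ v φ + error`: the derivative of `e^{τ² v / 2} φ(τ)` is at most
`c e^{τ² v / 2}` in norm; `∫_0^τ e^{s² v / 2} ds ≤ τ e^{τ² v / 2}`. -/

theorem ode_cmp {φ φ' : ℝ → ℂ} (hd : ∀ τ, HasDerivAt φ (φ' τ) τ) (h0 : φ 0 = 1) {v c T : ℝ}
    (hv : 0 ≤ v) (hc : ∀ τ, |τ| ≤ T → ‖φ' τ + (τ * v : ℝ) * φ τ‖ ≤ c) {τ : ℝ} (hτ : |τ| ≤ T) :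
    ‖φ τ - Complex.exp ((- τ ^ 2 * v / 2 : ℝ))‖ ≤ |τ| * c := by
  set w : ℝ → ℝ := fun s => Real.exp (s ^ 2 * v / 2) with hw
  have hwd : ∀ s, HasDerivAt w (w s * (s * v)) s := by
    intro s
    have h1 : HasDerivAt (fun s : ℝ => s ^ 2 * v / 2) (s * v) s := by
      have h2 := ((hasDerivAt_pow 2 s).mul_const v).div_const 2
      have e : (2 : ℕ) * s ^ (2 - 1) * v / 2 = s * v := by
        norm_num
        ring
      rwa [e] at h2
    exact h1.exp
  have hψ : ∀ s, HasDerivAt (fun s => (w s : ℂ) * φ s)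
      ((w s : ℂ) * (φ' s + (s * v : ℝ) * φ s)) s := by
    intro s
    have h1 := (hwd s).ofReal_comp.mul (hd s)
    have e : ((w s * (s * v) : ℝ) : ℂ) * φ s + (w s : ℂ) * φ' s =
        (w s : ℂ) * (φ' s + (s * v : ℝ) * φ s) := by
      push_cast
      ring
    rwa [e] at h1
  have hc0 : 0 ≤ c := (norm_nonneg _).trans (hc τ hτ)
  have hmono : ∀ s ∈ Icc (-|τ|) |τ|, w s ≤ w τ := by
    intro s hs
    refine Real.exp_le_exp.2 ?_
    have h1 : s ^ 2 ≤ τ ^ 2 := sq_le_sq.2 (abs_le.2 hs)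
    have h2 : s ^ 2 * v ≤ τ ^ 2 * v := mul_le_mul_of_nonneg_right h1 hv
    linarith
  have hw0 : ∀ s, 0 < w s := fun s => Real.exp_pos _
  have key := (convex_Icc (-|τ|) |τ|).norm_image_sub_le_of_norm_hasDerivWithin_le
    (f := fun s => (w s : ℂ) * φ s) (f' := fun s => (w s : ℂ) * (φ' s + (s * v : ℝ) * φ s))
    (C := w τ * c) (x := 0) (y := τ) (fun s _ => (hψ s).hasDerivWithinAt) (fun s hs => by
      rw [norm_mul, Complex.norm_real, Real.norm_eq_abs, abs_of_pos (hw0 s)]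
      exact mul_le_mul (hmono s hs) (hc s ((abs_le.2 hs).trans hτ)) (norm_nonneg _) (hw0 τ).le)
    ⟨neg_nonpos.2 (abs_nonneg _), abs_nonneg _⟩ ⟨neg_abs_le _, le_abs_self _⟩
  have hwz : w 0 = 1 := by
    show Real.exp (0 ^ 2 * v / 2) = 1
    simp
  simp only [hwz, h0, Complex.ofReal_one, one_mul, sub_zero] at key
  have hinv : Complex.exp ((- τ ^ 2 * v / 2 : ℝ)) = ((w τ)⁻¹ : ℝ) := by
    rw [← Complex.ofReal_exp, ← Real.exp_neg]
    congr 2
    ring
  have h1 : φ τ - Complex.exp ((- τ ^ 2 * v / 2 : ℝ)) =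
      ((w τ)⁻¹ : ℝ) * ((w τ : ℂ) * φ τ - 1) := by
    rw [hinv, mul_sub, ← mul_assoc, ← Complex.ofReal_mul, inv_mul_cancel₀ (hw0 τ).ne',
      Complex.ofReal_one, one_mul, mul_one]
  rw [h1, norm_mul, Complex.norm_real, Real.norm_eq_abs, abs_of_pos (inv_pos.2 (hw0 τ))]
  calc (w τ)⁻¹ * ‖(w τ : ℂ) * φ τ - 1‖ ≤ (w τ)⁻¹ * (w τ * c * ‖τ‖) :=
        mul_le_mul_of_nonneg_left key (inv_pos.2 (hw0 τ)).le
    _ = |τ| * c := by
        rw [← mul_assoc, ← mul_assoc, inv_mul_cancel₀ (hw0 τ).ne', one_mul, Real.norm_eq_abs,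
          mul_comm]

/- END thc -/

/- MODULE thd
The characteristic function of a bounded random variable: derivative (dominated convergence). -/

theorem char_deriv {Ω : Type*} [MeasurableSpace Ω] {μ : Measure Ω} [IsProbabilityMeasure μ]
    {F : Ω → ℝ} (hF : Measurable F) {B : ℝ} (hB : ∀ᵐ x ∂μ, |F x| ≤ B) (τ : ℝ) :
    HasDerivAt (fun τ : ℝ => ∫ x, Complex.exp (Complex.I * (τ * F x : ℝ)) ∂μ)
      (∫ x, Complex.I * F x * Complex.exp (Complex.I * (τ * F x : ℝ)) ∂μ) τ := by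
  have hm : ∀ t : ℝ, Measurable fun x => Complex.exp (Complex.I * (t * F x : ℝ)) := fun t =>
    Complex.measurable_exp.comp
      ((Complex.measurable_ofReal.comp (hF.const_mul t)).const_mul Complex.I)
  have hn : ∀ (t : ℝ) (x : Ω), ‖Complex.exp (Complex.I * (t * F x : ℝ))‖ = 1 := fun t x => by
    rw [mul_comm]
    exact Complex.norm_exp_ofReal_mul_I _
  have h := hasDerivAt_integral_of_dominated_loc_of_deriv_le (μ := μ) (𝕜 := ℝ)
    (F := fun (t : ℝ) x => Complex.exp (Complex.I * (t * F x : ℝ)))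
    (F' := fun (t : ℝ) x => Complex.I * F x * Complex.exp (Complex.I * (t * F x : ℝ)))
    (x₀ := τ) (bound := fun _ => B) (s := univ) Filter.univ_mem
    (Filter.Eventually.of_forall fun t => (hm t).aestronglyMeasurable)
    (Integrable.of_bound (hm τ).aestronglyMeasurable 1
      (Filter.Eventually.of_forall fun x => (hn τ x).le))
    (((Complex.measurable_ofReal.comp hF).const_mul Complex.I).mul (hm τ)).aestronglyMeasurable
    (hB.mono fun x hx t _ => by
      rw [norm_mul, hn, mul_one, norm_mul, Complex.norm_I, one_mul, Complex.norm_real,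
        Real.norm_eq_abs]
      exact hx)
    (integrable_const B)
    (Filter.Eventually.of_forall fun x t _ => by
      have h1 : HasDerivAt (fun t : ℝ => (t * F x : ℝ)) (F x) t := by
        simpa using (hasDerivAt_id t).mul_const (F x)
      have h2 := (h1.ofReal_comp.const_mul Complex.I).cexp
      rw [mul_comm] at h2
      exact h2)
  exact h.2

/- END thd -/

/- MODULE the
STEIN'S EQUATION.  `F = FG - m`, `m` the mean.  `E (i F e^{iτF}) = i E (dv X e^{iτF}) + error`, the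
error is at most `(E (F - dv X)²)^(1/2) ≤ √(4 ε)`; by `dv_mul` for `cos (τ F)` and `sin (τ F)` (`FG_comp`)
`E (dv X e^{iτF}) = i τ E ((∑ Lap G x * X x) e^{iτF})`, and this is `i τ v E e^{iτF}` up to `|τ| ε`. -/

private theorem the_int {D : Finset (ℤ × ℤ)} {b : ℤ × ℤ → ℝ} (hb : ∀ z, |b z| ≤ 1 / 2)
    {f : (D → ℝ) → ℂ} (hf : Continuous f) : Integrable f (Mu D b) :=
  (int_K hb hf.norm).mono' hf.aestronglyMeasurable (Filter.Eventually.of_forall fun _ => le_rfl)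

private theorem the_exp (t : ℝ) :
    Complex.exp (Complex.I * (t : ℝ)) = (Real.cos t : ℂ) + Complex.I * (Real.sin t : ℂ) := by
  rw [mul_comm, Complex.exp_mul_I, Complex.ofReal_cos, Complex.ofReal_sin, mul_comm Complex.I]

private theorem the_split {D : Finset (ℤ × ℤ)} {b : ℤ × ℤ → ℝ} (hb : ∀ z, |b z| ≤ 1 / 2)
    {F u : (D → ℝ) → ℝ} (hF : Continuous F) (hu : Continuous u) (τ : ℝ) :
    ∫ h, (u h : ℂ) * Complex.exp (Complex.I * (τ * F h : ℝ)) ∂(Mu D b) =
      ((∫ h, Real.cos (τ * F h) * u h ∂(Mu D b) : ℝ) : ℂ) +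
        Complex.I * ((∫ h, Real.sin (τ * F h) * u h ∂(Mu D b) : ℝ) : ℂ) := by
  have hc1 : Continuous fun h => ((Real.cos (τ * F h) * u h : ℝ) : ℂ) :=
    Complex.continuous_ofReal.comp ((Real.continuous_cos.comp (continuous_const.mul hF)).mul hu)
  have hc2 : Continuous fun h => ((Real.sin (τ * F h) * u h : ℝ) : ℂ) :=
    Complex.continuous_ofReal.comp ((Real.continuous_sin.comp (continuous_const.mul hF)).mul hu)
  have e : ∀ h, (u h : ℂ) * Complex.exp (Complex.I * (τ * F h : ℝ)) =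
      ((Real.cos (τ * F h) * u h : ℝ) : ℂ) +
        Complex.I * ((Real.sin (τ * F h) * u h : ℝ) : ℂ) := by
    intro h
    rw [the_exp]
    push_cast
    ring
  simp only [e]
  rw [integral_add (the_int hb hc1) ((the_int hb hc2).const_mul _), integral_const_mul,
    integral_complex_ofReal, integral_complex_ofReal]

private theorem the_norm {D : Finset (ℤ × ℤ)} {b : ℤ × ℤ → ℝ} (F u : (D → ℝ) → ℝ) (τ : ℝ) :
    ‖∫ h, (u h : ℂ) * Complex.exp (Complex.I * (τ * F h : ℝ)) ∂(Mu D b)‖ ≤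
      ∫ h, |u h| ∂(Mu D b) := by
  refine (norm_integral_le_integral_norm _).trans (le_of_eq ?_)
  refine integral_congr_ae (Filter.Eventually.of_forall fun h => ?_)
  show ‖(u h : ℂ) * Complex.exp (Complex.I * (τ * F h : ℝ))‖ = |u h|
  rw [norm_mul, Complex.norm_real, Real.norm_eq_abs, mul_comm Complex.I,
    Complex.norm_exp_ofReal_mul_I, mul_one]

private theorem the_sq {D : Finset (ℤ × ℤ)} {b : ℤ × ℤ → ℝ} (hb : ∀ z, |b z| ≤ 1 / 2)
    {u : (D → ℝ) → ℝ} (hu : Continuous u) :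
    ∫ h, |u h| ∂(Mu D b) ≤ Real.sqrt (∫ h, (u h) ^ 2 ∂(Mu D b)) := by
  have hp : IsProbabilityMeasure (Mu D b) := prob hb
  refine Real.le_sqrt_of_sq_le ?_
  set m := ∫ h, |u h| ∂(Mu D b) with hm
  have h1 : 0 ≤ ∫ h, (|u h| - m) ^ 2 ∂(Mu D b) := integral_nonneg fun h => sq_nonneg _
  have e : ∀ h, (|u h| - m) ^ 2 = ((u h) ^ 2 - 2 * m * |u h|) + m ^ 2 := by
    intro h
    rw [sub_sq, sq_abs]
    ring
  simp only [e] at h1
  have i1 : Integrable (fun h => (u h) ^ 2) (Mu D b) := int_K hb (hu.pow 2)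
  have i2 : Integrable (fun h => 2 * m * |u h|) (Mu D b) := (int_K hb hu.abs).const_mul _
  have i3 : Integrable (fun h => (u h) ^ 2 - 2 * m * |u h|) (Mu D b) := i1.sub i2
  rw [integral_add i3 (integrable_const _), integral_sub i1 i2, integral_const_mul,
    integral_const, probReal_univ, one_smul, ← hm] at h1
  nlinarith

theorem stein_eq {D : Finset (ℤ × ℤ)} {b G : ℤ × ℤ → ℝ} (hb : ∀ z, |b z| ≤ 1 / 2)
    {X : ℤ × ℤ → (D → ℝ) → ℝ} (hX : Nice D b X) {v ε : ℝ}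
    (h2 : ∫ h, |(∑ x ∈ D, Lap G x * X x h) - v| ∂(Mu D b) ≤ ε)
    (h4 : ∫ h, (FG D b G h - (∫ h', FG D b G h' ∂(Mu D b)) - dv D X h) ^ 2 ∂(Mu D b) ≤ 4 * ε)
    {F : (D → ℝ) → ℝ} (hF : F = fun h => FG D b G h - ∫ h', FG D b G h' ∂(Mu D b)) (τ : ℝ) :
    ‖(∫ h, Complex.I * F h * Complex.exp (Complex.I * (τ * F h : ℝ)) ∂(Mu D b)) +
      (τ * v : ℝ) * ∫ h, Complex.exp (Complex.I * (τ * F h : ℝ)) ∂(Mu D b)‖ ≤
      2 * Real.sqrt ε + |τ| * ε := by
  set m := ∫ h', FG D b G h' ∂(Mu D b) with hm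
  have hFc : Continuous F := by
    rw [hF]
    exact (FG_smooth D b G).continuous.sub continuous_const
  set A : (D → ℝ) → ℝ := fun h => ∑ x ∈ D, Lap G x * X x h with hA
  have hAc : Continuous A :=
    continuous_finsetSum _ fun x _ => continuous_const.mul (hX.sm x).continuous
  have hdc : Continuous (dv D X) := (dv_smooth hX).continuous
  -- integration by parts
  have hcos : ContDiff ℝ ∞ (fun t : ℝ => Real.cos (τ * t)) :=
    Real.contDiff_cos.comp (contDiff_const.mul contDiff_id)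
  have hsin : ContDiff ℝ ∞ (fun t : ℝ => Real.sin (τ * t)) :=
    Real.contDiff_sin.comp (contDiff_const.mul contDiff_id)
  have dcos : ∀ t : ℝ, deriv (fun t : ℝ => Real.cos (τ * t)) t = -(τ * Real.sin (τ * t)) := by
    intro t
    have h1 : HasDerivAt (fun t : ℝ => τ * t) τ t := by
      simpa using (hasDerivAt_id t).const_mul τ
    rw [h1.cos.deriv]
    ring
  have dsin : ∀ t : ℝ, deriv (fun t : ℝ => Real.sin (τ * t)) t = τ * Real.cos (τ * t) := by
    intro t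
    have h1 : HasDerivAt (fun t : ℝ => τ * t) τ t := by
      simpa using (hasDerivAt_id t).const_mul τ
    rw [h1.sin.deriv]
    ring
  obtain ⟨s1, p1⟩ := FG_comp D b G hcos m
  obtain ⟨s2, p2⟩ := FG_comp D b G hsin m
  have hFm : ∀ h, FG D b G h - m = F h := fun h => by rw [hF]
  have i1 : ∫ h, Real.cos (τ * F h) * dv D X h ∂(Mu D b) =
      - (τ * ∫ h, Real.sin (τ * F h) * A h ∂(Mu D b)) := by
    have h1 := dv_mul hb hX s1
    simp only [hFm] at h1
    rw [h1, ← integral_const_mul, ← integral_neg]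
    refine integral_congr_ae (Filter.Eventually.of_forall fun h => ?_)
    show ∑ x ∈ D, X x h * pz D x (fun h => Real.cos (τ * F h)) h =
      -(τ * (Real.sin (τ * F h) * A h))
    rw [hA]
    simp only [Finset.mul_sum, ← Finset.sum_neg_distrib]
    refine Finset.sum_congr rfl fun x hx => ?_
    have h3 := p1 x hx h
    simp only [hFm] at h3
    rw [h3, dcos]
    ring
  have i2 : ∫ h, Real.sin (τ * F h) * dv D X h ∂(Mu D b) =
      τ * ∫ h, Real.cos (τ * F h) * A h ∂(Mu D b) := by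
    have h1 := dv_mul hb hX s2
    simp only [hFm] at h1
    rw [h1, ← integral_const_mul]
    refine integral_congr_ae (Filter.Eventually.of_forall fun h => ?_)
    show ∑ x ∈ D, X x h * pz D x (fun h => Real.sin (τ * F h)) h =
      τ * (Real.cos (τ * F h) * A h)
    rw [hA]
    simp only [Finset.mul_sum]
    refine Finset.sum_congr rfl fun x hx => ?_
    have h3 := p2 x hx h
    simp only [hFm] at h3
    rw [h3, dsin]
    ring
  have hI : Complex.I * Complex.I = -1 := Complex.I_mul_I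
  have key : ∫ h, (dv D X h : ℂ) * Complex.exp (Complex.I * (τ * F h : ℝ)) ∂(Mu D b) =
      Complex.I * (τ : ℂ) *
        ∫ h, (A h : ℂ) * Complex.exp (Complex.I * (τ * F h : ℝ)) ∂(Mu D b) := by
    rw [the_split hb hFc hdc, the_split hb hFc hAc, i1, i2]
    push_cast
    linear_combination (-(τ : ℂ) * ((∫ h, Real.sin (τ * F h) * A h ∂(Mu D b) : ℝ) : ℂ)) * hI
  have hEc : Continuous fun h => Complex.exp (Complex.I * (τ * F h : ℝ)) :=
    Complex.continuous_exp.comp (continuous_const.mul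
      (Complex.continuous_ofReal.comp (continuous_const.mul hFc)))
  have hint : ∀ {u : (D → ℝ) → ℝ}, Continuous u →
      Integrable (fun h => (u h : ℂ) * Complex.exp (Complex.I * (τ * F h : ℝ))) (Mu D b) :=
    fun hu => the_int hb ((Complex.continuous_ofReal.comp hu).mul hEc)
  have e1 : ∫ h, Complex.I * F h * Complex.exp (Complex.I * (τ * F h : ℝ)) ∂(Mu D b) =
      Complex.I * ((∫ h, ((F h - dv D X h : ℝ) : ℂ) *
        Complex.exp (Complex.I * (τ * F h : ℝ)) ∂(Mu D b)) +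
        ∫ h, (dv D X h : ℂ) * Complex.exp (Complex.I * (τ * F h : ℝ)) ∂(Mu D b)) := by
    rw [← integral_add (hint (u := fun h => F h - dv D X h) (hFc.sub hdc)) (hint hdc),
      ← integral_const_mul]
    refine integral_congr_ae (Filter.Eventually.of_forall fun h => ?_)
    show Complex.I * F h * Complex.exp (Complex.I * (τ * F h : ℝ)) =
      Complex.I * (((F h - dv D X h : ℝ) : ℂ) * Complex.exp (Complex.I * (τ * F h : ℝ)) +
        (dv D X h : ℂ) * Complex.exp (Complex.I * (τ * F h : ℝ)))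
    push_cast
    ring
  have e2 : ∫ h, (A h : ℂ) * Complex.exp (Complex.I * (τ * F h : ℝ)) ∂(Mu D b) =
      (∫ h, ((A h - v : ℝ) : ℂ) * Complex.exp (Complex.I * (τ * F h : ℝ)) ∂(Mu D b)) +
        (v : ℂ) * ∫ h, Complex.exp (Complex.I * (τ * F h : ℝ)) ∂(Mu D b) := by
    rw [← integral_const_mul, ← integral_add (hint (u := fun h => A h - v)
      (hAc.sub continuous_const))
      ((the_int hb hEc).const_mul _)]
    refine integral_congr_ae (Filter.Eventually.of_forall fun h => ?_)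
    show (A h : ℂ) * Complex.exp (Complex.I * (τ * F h : ℝ)) =
      ((A h - v : ℝ) : ℂ) * Complex.exp (Complex.I * (τ * F h : ℝ)) +
        (v : ℂ) * Complex.exp (Complex.I * (τ * F h : ℝ))
    push_cast
    ring
  have e3 : (∫ h, Complex.I * F h * Complex.exp (Complex.I * (τ * F h : ℝ)) ∂(Mu D b)) +
      (τ * v : ℝ) * ∫ h, Complex.exp (Complex.I * (τ * F h : ℝ)) ∂(Mu D b) =
      Complex.I * (∫ h, ((F h - dv D X h : ℝ) : ℂ) *
        Complex.exp (Complex.I * (τ * F h : ℝ)) ∂(Mu D b)) -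
      (τ : ℂ) * ∫ h, ((A h - v : ℝ) : ℂ) *
        Complex.exp (Complex.I * (τ * F h : ℝ)) ∂(Mu D b) := by
    rw [e1, key, e2]
    push_cast
    linear_combination ((τ : ℂ) * ((∫ h, ((A h : ℂ) - v) *
      Complex.exp (Complex.I * (τ * F h)) ∂(Mu D b)) +
        (v : ℂ) * ∫ h, Complex.exp (Complex.I * (τ * F h)) ∂(Mu D b))) * hI
  rw [e3]
  refine (norm_sub_le _ _).trans (add_le_add ?_ ?_)
  · rw [norm_mul, Complex.norm_I, one_mul]
    refine (the_norm F _ τ).trans ((the_sq hb (hFc.sub hdc)).trans ?_)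
    have h5 : ∫ h, (F h - dv D X h) ^ 2 ∂(Mu D b) ≤ 4 * ε := by
      rw [hF]
      exact h4
    have h6 : (2 : ℝ) = Real.sqrt 4 := by
      rw [show (4 : ℝ) = 2 ^ 2 by norm_num, Real.sqrt_sq (by norm_num)]
    rw [h6, ← Real.sqrt_mul (by norm_num)]
    exact Real.sqrt_le_sqrt h5
  · rw [norm_mul, Complex.norm_real, Real.norm_eq_abs]
    exact mul_le_mul_of_nonneg_left ((the_norm F _ τ).trans h2) (abs_nonneg _)

/- END the -/

/- MODULE thf
THE CLT STEP: `ode_cmp`, `char_deriv` (`FG` is bounded on the compact set `K D b`, `Mu_ae`),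
`stein_eq`. -/

theorem clt_step {D : Finset (ℤ × ℤ)} {b G : ℤ × ℤ → ℝ} (hb : ∀ z, |b z| ≤ 1 / 2)
    {X : ℤ × ℤ → (D → ℝ) → ℝ} (hX : Nice D b X) {v ε : ℝ} (hv : 0 ≤ v)
    (h2 : ∫ h, |(∑ x ∈ D, Lap G x * X x h) - v| ∂(Mu D b) ≤ ε)
    (h4 : ∫ h, (FG D b G h - (∫ h', FG D b G h' ∂(Mu D b)) - dv D X h) ^ 2 ∂(Mu D b) ≤ 4 * ε)
    (τ : ℝ) :
    ‖(∫ h, Complex.exp (Complex.I * (τ * (FG D b G h -
        ∫ h', FG D b G h' ∂(Mu D b)) : ℝ)) ∂(Mu D b)) -
      Complex.exp ((- τ ^ 2 * v / 2 : ℝ))‖ ≤ |τ| * (2 * Real.sqrt ε + |τ| * ε) := by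
  have := Mu_prob (D := D) hb
  have hε : 0 ≤ ε := le_trans (integral_nonneg fun h => abs_nonneg _) h2
  have hFc : Continuous fun h => FG D b G h - ∫ h', FG D b G h' ∂(Mu D b) :=
    (FG_smooth D b G).continuous.sub continuous_const
  obtain ⟨B, hB⟩ := (K_compact D b).exists_bound_of_continuousOn hFc.continuousOn
  have hae : ∀ᵐ h ∂(Mu D b), |FG D b G h - ∫ h', FG D b G h' ∂(Mu D b)| ≤ B := by
    filter_upwards [Mu_ae hb] with h hh
    exact hB h hh
  have hd := fun t : ℝ => char_deriv (μ := Mu D b) hFc.measurable hae t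
  have h0 : (fun t : ℝ => ∫ h, Complex.exp (Complex.I *
      (t * (FG D b G h - ∫ h', FG D b G h' ∂(Mu D b)) : ℝ)) ∂(Mu D b)) 0 = 1 := by
    simp
  refine ode_cmp hd h0 hv (c := 2 * Real.sqrt ε + |τ| * ε) (T := |τ|) (fun t ht => ?_) le_rfl
  have h5 := stein_eq hb hX h2 h4 (F := fun h => FG D b G h - ∫ h', FG D b G h' ∂(Mu D b)) rfl t
  refine h5.trans ?_
  gcongr

/- END thf -/

/- MODULE thg
THE INTERIOR THEOREM from trial fields and the upper bound for the variance.  Apply `Tri` and `Uv` with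
a small `ε'` (`4 ε' ≤ ε` and `(1/ε) (2 √ε' + (1/ε) ε') ≤ ε`; `C`, `k` from `Tri`), `T = dv D X` (continuous,
`dv_smooth`); orthogonality: `dv_orthY` with `A` (a function which does not depend on the heights in
`U` does not depend on the heights in `A`); `crit_le` and `clt_step` with `v = s * EG`, `EG_nonneg`. -/

private theorem thg_eps {ε : ℝ} (hε : 0 < ε) : ∃ e : ℝ, 0 < e ∧ 4 * e ≤ ε ∧
    (1 / ε) * (2 * Real.sqrt e + (1 / ε) * e) ≤ ε := by
  refine ⟨min (ε / 4) (min (ε ^ 4 / 16) (ε ^ 3 / 2)), by positivity, ?_, ?_⟩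
  · have := min_le_left (ε / 4) (min (ε ^ 4 / 16) (ε ^ 3 / 2))
    linarith
  · set e := min (ε / 4) (min (ε ^ 4 / 16) (ε ^ 3 / 2)) with he
    have h1 : e ≤ ε ^ 4 / 16 := (min_le_right _ _).trans (min_le_left _ _)
    have h2 : e ≤ ε ^ 3 / 2 := (min_le_right _ _).trans (min_le_right _ _)
    have h3 : Real.sqrt e ≤ ε ^ 2 / 4 := by
      apply Real.sqrt_le_iff.2
      refine ⟨by positivity, h1.trans (le_of_eq (by ring))⟩
    have h4 : (1 / ε) * e ≤ ε ^ 2 / 2 := by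
      rw [one_div, inv_mul_le_iff₀ hε]
      exact h2.trans (le_of_eq (by ring))
    rw [one_div, inv_mul_le_iff₀ hε, ← one_div]
    nlinarith

theorem itf_of_tri {s : ℝ} (h0 : 0 ≤ s) (hT : Tri s) (hU : Uv s) : Itf s := by
  intro g hg hgc U hUo hgU R hR ε hε
  obtain ⟨e, he, h4, h5⟩ := thg_eps hε
  obtain ⟨δ₁, hδ₁, C, k, H⟩ := hT g hg hgc U hUo hgU R hR e he
  obtain ⟨δ₂, hδ₂, H2⟩ := hU g hg hgc U hUo hgU R hR e he
  refine ⟨min δ₁ δ₂, lt_min hδ₁ hδ₂, C, k, fun δ hδ hlt D hD hDR b hb => ?_⟩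
  obtain ⟨A, X, hAD, hAU, hX, hXA, hbd, hdep, hsq, hL⟩ :=
    H δ hδ (lt_of_lt_of_le hlt (min_le_left _ _)) D hD hDR b hb
  have hv := H2 δ hδ (lt_of_lt_of_le hlt (min_le_right _ _)) D hD hDR b hb
  have h6 := crit_le hb (hX b hb) hsq hL hv
  refine ⟨⟨dv D X, (dv_smooth (hX b hb)).continuous.measurable, hbd, hdep,
    fun b' hb' Y hY hM hYd => ?_, h6.trans h4⟩, fun τ hτ => ?_⟩
  · exact dv_orthY hb' (hX b' hb') hAD hXA hY hM
      (fun h h' hh => hYd h h' fun x hx => hh x fun hxA => hx (hAU x hxA))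
  · have h7 := clt_step hb (hX b hb) (mul_nonneg h0 (EG_nonneg D _)) hL h6 τ
    have h8 : |τ| * (2 * Real.sqrt e + |τ| * e) ≤ ε := by
      refine le_trans ?_ h5
      gcongr
    have h9 : (- τ ^ 2 * s * EG D (fun x => g (lt δ x)) / 2 : ℝ) =
        - τ ^ 2 * (s * EG D (fun x => g (lt δ x))) / 2 := by ring
    rw [h9]
    exact h7.trans h8

/- END thg -/

/- MODULE thh
A bump with discrete energy bounded below.  `g = 1` on `[-1/2, 1/2]²` and `g = 0` off `(-1, 1)²`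
(product of two one dimensional bumps, or any bump function for these sets).  For every row
`x.2 = q` with `|δ q| ≤ 1/2` the increments in direction `0` from `x.1 = 0` to the first `x.1` with
`δ x.1 ≥ 1` sum up to `-1`, there are at most `1 / δ + 1 ≤ 2 / δ` steps, so (Cauchy-Schwarz) the row
contributes at least `δ / 2`; there are at least `1 / (2 δ)` rows. -/

private def thh_f : ContDiffBump (0 : ℝ) := ⟨1 / 2, 1, by norm_num, by norm_num⟩

private def thh_g (p : ℝ × ℝ) : ℝ := thh_f p.1 * thh_f p.2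

private theorem thh_smooth : ContDiff ℝ ∞ thh_g := by
  unfold thh_g
  exact (thh_f.contDiff.comp contDiff_fst).mul (thh_f.contDiff.comp contDiff_snd)

private theorem thh_one {t : ℝ} (ht : |t| ≤ 1 / 2) : thh_f t = 1 := by
  apply thh_f.one_of_mem_closedBall
  rw [Metric.mem_closedBall, dist_zero_right, Real.norm_eq_abs]
  exact ht

private theorem thh_zero {t : ℝ} (ht : 1 ≤ |t|) : thh_f t = 0 := by
  apply thh_f.zero_of_le_dist
  rw [dist_zero_right, Real.norm_eq_abs]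
  exact ht

private theorem thh_supp : Function.support thh_g ⊆ Metric.closedBall 0 1 := by
  intro p hp
  rw [Function.mem_support] at hp
  have h1 : thh_f p.1 ≠ 0 := fun h => hp (by simp [thh_g, h])
  have h2 : thh_f p.2 ≠ 0 := fun h => hp (by simp [thh_g, h])
  have h3 : |p.1| < 1 := by
    by_contra h
    exact h1 (thh_zero (not_lt.1 h))
  have h4 : |p.2| < 1 := by
    by_contra h
    exact h2 (thh_zero (not_lt.1 h))
  rw [Metric.mem_closedBall, dist_zero_right, Prod.norm_def, Real.norm_eq_abs, Real.norm_eq_abs]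
  exact max_le h3.le h4.le

private theorem thh_tsupp : tsupport thh_g ⊆ Metric.closedBall 0 1 :=
  closure_minimal thh_supp Metric.isClosed_closedBall

private theorem thh_row {f : ℕ → ℝ} {n : ℕ} (hn : 0 < n) (h0 : f 0 = 1) (h1 : f n = 0) :
    1 / (n : ℝ) ≤ ∑ j ∈ Finset.range n, (f (j + 1) - f j) ^ 2 := by
  have h2 := Finset.sum_range_sub f n
  have h3 := sq_sum_le_card_mul_sum_sq (s := Finset.range n) (f := fun j => f (j + 1) - f j)
  rw [h2, h0, h1, Finset.card_range] at h3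
  rw [div_le_iff₀' (by exact_mod_cast hn)]
  linarith

theorem bump_energy : ∃ (g : ℝ × ℝ → ℝ) (c : ℝ), 0 < c ∧ ContDiff ℝ ∞ g ∧ HasCompactSupport g ∧
    tsupport g ⊆ Metric.ball 0 2 ∧ ∀ δ : ℝ, 0 < δ → δ ≤ 1 / 4 → ∀ D : Finset (ℤ × ℤ),
      (∀ x, lt δ x ∈ Metric.ball (0 : ℝ × ℝ) 2 → x ∈ D) → c ≤ EG D (fun x => g (lt δ x)) := by
  classical
  refine ⟨thh_g, 1 / 8, by norm_num, thh_smooth,
    IsCompact.of_isClosed_subset (isCompact_closedBall 0 1) (isClosed_tsupport _) thh_tsupp,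
    thh_tsupp.trans (Metric.closedBall_subset_ball (by norm_num)), fun δ hδ hδ4 D hD => ?_⟩
  have hi : (4 : ℝ) ≤ 1 / δ := by
    rw [le_div_iff₀ hδ]
    linarith
  set n : ℕ := ⌈1 / δ⌉₊ with hn
  set m : ℕ := ⌊1 / (2 * δ)⌋₊ with hm
  have hn1 : 1 / δ ≤ n := Nat.le_ceil _
  have hn2 : (n : ℝ) < 1 / δ + 1 := Nat.ceil_lt_add_one (by positivity)
  have hn0 : 0 < n := by
    have : (0 : ℝ) < n := by linarith
    exact_mod_cast this
  have hm1 : (m : ℝ) ≤ 1 / (2 * δ) := Nat.floor_le (by positivity)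
  have hm2 : 1 / (2 * δ) < m + 1 := Nat.lt_floor_add_one _
  set ι : ℕ × ℕ → ℤ × ℤ := fun p => ((p.2 : ℤ), (p.1 : ℤ)) with hι
  have hinj : Function.Injective ι := by
    rintro ⟨a, b⟩ ⟨c, d⟩ h
    simp only [hι, Prod.mk.injEq, Nat.cast_inj] at h
    ext
    · exact h.2
    · exact h.1
  have hq : ∀ q ∈ Finset.range (m + 1), |δ * (q : ℝ)| ≤ 1 / 2 := by
    intro q hq
    have h1 : (q : ℝ) ≤ m := by exact_mod_cast Nat.lt_succ_iff.1 (Finset.mem_range.1 hq)
    rw [abs_of_nonneg (by positivity)]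
    calc δ * (q : ℝ) ≤ δ * (1 / (2 * δ)) := by gcongr; exact h1.trans hm1
      _ = 1 / 2 := by field_simp
  have hj : ∀ j ∈ Finset.range n, |δ * (j : ℝ)| < 1 := by
    intro j hj
    have h1 : (j : ℝ) + 1 ≤ n := by exact_mod_cast Nat.succ_le_of_lt (Finset.mem_range.1 hj)
    rw [abs_of_nonneg (by positivity)]
    calc δ * (j : ℝ) < δ * (1 / δ) := by gcongr; linarith
      _ = 1 := by field_simp
  have hsub : (Finset.range (m + 1) ×ˢ Finset.range n).image ι ⊆ D := by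
    intro x hx
    obtain ⟨⟨q, j⟩, hp, rfl⟩ := Finset.mem_image.1 hx
    rw [Finset.mem_product] at hp
    apply hD
    rw [Metric.mem_ball, dist_zero_right, Prod.norm_def, Real.norm_eq_abs, Real.norm_eq_abs]
    have h1 := hj j hp.2
    have h2 := hq q hp.1
    simp only [lt, hι, Int.cast_natCast]
    exact max_lt (by linarith) (by linarith)
  have hst : st 0 = (1, 0) := rfl
  have hrow : ∀ q ∈ Finset.range (m + 1), 1 / (n : ℝ) ≤ ∑ j ∈ Finset.range n,
      (thh_g (lt δ (ι (q, j) + st 0)) - thh_g (lt δ (ι (q, j)))) ^ 2 := by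
    intro q hq'
    have h1 := thh_row (f := fun j : ℕ => thh_g (lt δ (ι (q, j)))) hn0 ?_ ?_
    · refine h1.trans (le_of_eq (Finset.sum_congr rfl fun j hj => ?_))
      have h2 : ι (q, j + 1) = ι (q, j) + st 0 := by
        simp only [hι, hst, Prod.mk_add_mk, add_zero]
        push_cast
        rfl
      rw [← h2]
    · simp only [hι, thh_g, lt]
      rw [thh_one (by simp), thh_one (by simpa using hq q hq')]
      norm_num
    · simp only [hι, thh_g, lt]
      rw [thh_zero, zero_mul]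
      push_cast
      rw [abs_of_nonneg (by positivity)]
      calc (1 : ℝ) = δ * (1 / δ) := by field_simp
        _ ≤ δ * n := by gcongr
  have hE : (1 / 2) * ∑ q ∈ Finset.range (m + 1), ∑ j ∈ Finset.range n,
      (thh_g (lt δ (ι (q, j) + st 0)) - thh_g (lt δ (ι (q, j)))) ^ 2 ≤
      EG D (fun x => thh_g (lt δ x)) := by
    unfold EG
    gcongr
    rw [← Finset.sum_product', ← Finset.sum_image (s := Finset.range (m + 1) ×ˢ Finset.range n)
      (g := ι) (f := fun x => (thh_g (lt δ (x + st 0)) - thh_g (lt δ x)) ^ 2)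
      (fun a _ b _ h => hinj h)]
    refine (Finset.sum_le_sum_of_subset_of_nonneg hsub fun _ _ _ => sq_nonneg _).trans ?_
    refine Finset.sum_le_sum fun x _ => ?_
    exact Finset.single_le_sum (f := fun i => (thh_g (lt δ (x + st i)) - thh_g (lt δ x)) ^ 2)
      (fun i _ => sq_nonneg _) (Finset.mem_univ (0 : Fin 6))
  have hS : ((m : ℝ) + 1) * (1 / n) ≤ ∑ q ∈ Finset.range (m + 1), ∑ j ∈ Finset.range n,
      (thh_g (lt δ (ι (q, j) + st 0)) - thh_g (lt δ (ι (q, j)))) ^ 2 := by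
    have := Finset.card_nsmul_le_sum _ _ _ hrow
    rw [Finset.card_range, nsmul_eq_mul] at this
    push_cast at this
    exact this
  refine le_trans ?_ hE
  have h1 : (n : ℝ) ≤ 2 * (1 / δ) := by linarith
  have h2 : (1 / (2 * δ)) * (1 / (2 * (1 / δ))) ≤ ((m : ℝ) + 1) * (1 / n) := by
    gcongr
  have h3 : (1 / (2 * δ)) * (1 / (2 * (1 / δ))) = 1 / 4 := by
    field_simp
    norm_num
  linarith

/- END thh -/

/- MODULE thi
POSITIVITY: `FG_var_ge`, `Uv` for the bump of `bump_energy` with `U = ball 0 2`, `R = 2`,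
`D` = the lattice points of the ball (finite), `b = 0`. -/

private theorem thi_fin {δ : ℝ} (hδ : 0 < δ) :
    {x : ℤ × ℤ | lt δ x ∈ Metric.ball (0 : ℝ × ℝ) 2}.Finite := by
  have h1 : ∀ a : ℤ, |δ * (a : ℝ)| < 2 → a ∈ Set.Icc (-⌈2 / δ⌉) ⌈2 / δ⌉ := by
    intro a ha
    rw [abs_mul, abs_of_pos hδ, mul_comm, ← lt_div_iff₀ hδ] at ha
    have h2 : |(a : ℝ)| ≤ (⌈2 / δ⌉ : ℤ) := ha.le.trans (Int.le_ceil _)
    rw [← Int.cast_abs] at h2
    exact abs_le.1 (by exact_mod_cast h2)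
  refine ((Set.finite_Icc (-⌈2 / δ⌉) ⌈2 / δ⌉).prod (Set.finite_Icc (-⌈2 / δ⌉) ⌈2 / δ⌉)).subset
    fun x hx => ?_
  rw [Set.mem_ofPred_eq, Metric.mem_ball, dist_zero_right, Prod.norm_def, max_lt_iff,
    Real.norm_eq_abs, Real.norm_eq_abs] at hx
  exact ⟨h1 _ hx.1, h1 _ hx.2⟩

theorem pos_of_uv {s : ℝ} (hU : Uv s) : 0 < s := by
  obtain ⟨g, c, hc, hg, hgc, hgU, H⟩ := bump_energy
  obtain ⟨c', hc', H'⟩ := FG_var_ge
  obtain ⟨δ₀, hδ₀, H2⟩ := hU g hg hgc (Metric.ball 0 2) Metric.isOpen_ball hgU 2 (by norm_num)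
    (c' * c / 2) (by positivity)
  have hδ : 0 < min (δ₀ / 2) (1 / 4) := by positivity
  set δ := min (δ₀ / 2) (1 / 4) with hd
  have hmem : ∀ x, lt δ x ∈ Metric.ball (0 : ℝ × ℝ) 2 ↔ x ∈ (thi_fin hδ).toFinset := by
    intro x
    simp
  have h0 : ∀ z : ℤ × ℤ, |(fun _ => (0 : ℝ)) z| ≤ 1 / 2 := fun z => by norm_num
  have h1 := H δ hδ (min_le_right _ _) (thi_fin hδ).toFinset (fun x hx => (hmem x).1 hx)
  have h2 := H' (thi_fin hδ).toFinset (fun _ => 0) h0 (fun x => g (lt δ x)) (fun z hz => by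
    by_contra h
    exact hz ((hmem z).1 (hgU (subset_tsupport _ h))))
  have h3 := H2 δ hδ (lt_of_le_of_lt (min_le_left _ _) (by linarith)) (thi_fin hδ).toFinset
    (fun x hx => (hmem x).1 hx) (fun x hx => by
      have := (hmem x).2 hx
      rw [Metric.mem_ball, dist_zero_right] at this
      exact this.le) (fun _ => 0) h0
  have h4 := h2.trans h3
  set e := EG (thi_fin hδ).toFinset (fun x => g (lt δ x)) with he
  have h5 : 0 < e := lt_of_lt_of_le hc h1
  have h6 : c' * c ≤ c' * e := by gcongr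
  have h7 : 0 < c' * e := by positivity
  by_contra h
  have h8 : s * e ≤ 0 := mul_nonpos_of_nonpos_of_nonneg (not_lt.1 h) h5.le
  linarith

theorem itf_pos {s : ℝ} (h0 : 0 ≤ s) (hT : Tri s) (hU : Uv s) : 0 < s ∧ Itf s :=
  ⟨pos_of_uv hU, itf_of_tri h0 hT hU⟩

/- END thi -/

end Pool.Agent.Hmk
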