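import Pool.Agent.Hmk.TfF

import Pool.Agent.Hmk.TfH

/-!
# Hmk, trial field (7): the linear term, independence of the boundary data, the trial theorem
-/

set_option autoImplicit false

open MeasureTheory Set Filter ProbabilityTheory

open scoped ENNReal ContDiff Topology

noncomputable section

namespace Pool.Agent.Hmk

/- MODULE tga
Niceness, support, dependence.  `tG_nice`, `tW_nice` (`vP_lnice`), `Nice.sum`; `rho_out` for `x ∉ A`
(and `tW_bound`, `ph_off` for the boxes); `rho_dep`, `tW_dep` with `vP_dep`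
(`nb (tr y (bx L)) ⊆ nb A`). -/

private theorem tga_add {D : Finset (ℤ × ℤ)} {b : ℤ × ℤ → ℝ} {w v : ℤ × ℤ → (D → ℝ) → ℝ}
    (hw : Nice D b w) (hv : Nice D b v) : Nice D b (fun x h => w x h + v x h) where
  sm := fun z => (hw.sm z).add (hv.sm z)
  off := fun z hz h => by
    simp only [hw.off z hz h, hv.off z hz h, add_zero]
  tie := by
    obtain ⟨e1, h1, h2⟩ := hw.tie
    obtain ⟨e2, h3, h4⟩ := hv.tie
    refine ⟨min e1 e2, lt_min h1 h3, fun z hz i h hh => ?_⟩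
    have h5 : 1 - e1 < |gl D b h z - gl D b h (z + st i)| :=
      lt_of_le_of_lt (by linarith [min_le_left e1 e2]) hh
    have h6 : 1 - e2 < |gl D b h z - gl D b h (z + st i)| :=
      lt_of_le_of_lt (by linarith [min_le_right e1 e2]) hh
    show w z h + v z h = w (z + st i) h + v (z + st i) h
    rw [h2 z hz i h h5, h4 z hz i h h6]

private theorem tga_mem {A : Finset (ℤ × ℤ)} {L : ℕ} {y : ℤ × ℤ} (hy : tr y (nb (bx L)) ⊆ A) :
    tr y (bx L) ⊆ A := by
  intro z hz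
  refine hy ?_
  rw [mem_tr] at hz ⊢
  exact mem_nb.2 (Or.inl hz)

private theorem tga_nb {A : Finset (ℤ × ℤ)} {L : ℕ} {y : ℤ × ℤ} (hy : tr y (nb (bx L)) ⊆ A) :
    nb (tr y (bx L)) ⊆ nb A := by
  intro z hz
  rw [mem_nb] at hz ⊢
  rcases hz with h | ⟨i, h⟩
  · exact Or.inl (tga_mem hy h)
  · exact Or.inr ⟨i, tga_mem hy h⟩

private theorem tga_k {D A : Finset (ℤ × ℤ)} {b G : ℤ × ℤ → ℝ} {σ Cg δ τ t : ℝ} {L : ℕ}
    {V0 V1 : ℤ × ℤ → (nb (bx L) → ℝ) → ℝ} (H : Hx D A b G σ Cg δ τ t L V0 V1) :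
    0 < τ * L * δ := by
  have h1 : (0 : ℝ) < L := by exact_mod_cast H.hL
  have h2 := H.hτ
  have h3 := H.hδ
  positivity

private theorem tga_ph {L : ℕ} {t : ℝ} (hL : 1 ≤ L) (ht : 0 < t) {y x : ℤ × ℤ}
    (hx : x ∉ tr y (bx L)) : ph L t (x - y) = 0 := by
  classical
  refine ph_off hL ht ?_
  intro h
  refine hx (mem_tr.2 ?_)
  unfold Bo inn at h
  exact (Finset.mem_filter.1 h).1

private theorem tga_bW {D A : Finset (ℤ × ℤ)} {b G : ℤ × ℤ → ℝ} {σ Cg δ τ t : ℝ} {L : ℕ}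
    {V0 V1 : ℤ × ℤ → (nb (bx L) → ℝ) → ℝ} (H : Hx D A b G σ Cg δ τ t L V0 V1) (y : ℤ × ℤ)
    (c : ℝ) (v : ℤ × ℤ → (D → ℝ) → ℝ) {x : ℤ × ℤ} (hx : x ∉ tr y (bx L)) (h : D → ℝ) :
    bW D b L t y (fun z => σ * G z) c (τ * L * δ) v x h = 0 := by
  have h1 := (tW_bound (D := D) (b := b) (B := tr y (bx L)) (tr y (Bo L))
    (φ := fun z => ph L t (z - y)) (fun z => ph_mem L t (z - y)) (fun z => σ * G z) c
    (tga_k H) v x h).1
  rw [tga_ph H.hL H.ht hx, mul_zero] at h1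
  exact abs_nonpos_iff.1 h1

theorem tX_nice {D A : Finset (ℤ × ℤ)} {b G : ℤ × ℤ → ℝ} {σ Cg δ τ t : ℝ} {L : ℕ}
    {V0 V1 : ℤ × ℤ → (nb (bx L) → ℝ) → ℝ} (H : Hx D A b G σ Cg δ τ t L V0 V1)
    {Y : Finset (ℤ × ℤ)} (hY : ∀ y ∈ Y, tr y (nb (bx L)) ⊆ A) :
    Nice D b (tX D b A Y σ τ t δ L V0 V1 G) := by
  have h1 : Nice D b (tG D b A (fun z => σ * G z)) := tG_nice H.toHb
  have h2 : Nice D b (fun x h => ∑ y ∈ Y, bW D b L t y (fun z => σ * G z) (cP σ L G y)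
      (τ * L * δ) (vP D b L V0 V1 G y) x h) := by
    refine Nice.sum Y (fun y hy => ?_)
    exact tW_nice ((tga_mem (hY y hy)).trans H.hA) _ _ _ _ (tga_k H)
      (vP_lnice H.hV0 H.hV1 G ((hY y hy).trans H.hA))
  exact tga_add h1 h2

theorem tX_off {D A : Finset (ℤ × ℤ)} {b G : ℤ × ℤ → ℝ} {σ Cg δ τ t : ℝ} {L : ℕ}
    {V0 V1 : ℤ × ℤ → (nb (bx L) → ℝ) → ℝ} (H : Hx D A b G σ Cg δ τ t L V0 V1)
    {Y : Finset (ℤ × ℤ)} (hY : ∀ y ∈ Y, tr y (nb (bx L)) ⊆ A) {x : ℤ × ℤ} (hx : x ∉ A)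
    (h : D → ℝ) : tX D b A Y σ τ t δ L V0 V1 G x h = 0 := by
  unfold tX tG
  rw [rho_out e0 _ _ hx, zero_add]
  refine Finset.sum_eq_zero (fun y hy => ?_)
  exact tga_bW H y _ _ (fun h1 => hx (tga_mem (hY y hy) h1)) h

theorem tX_dep {D A : Finset (ℤ × ℤ)} {b G : ℤ × ℤ → ℝ} {σ Cg δ τ t : ℝ} {L : ℕ}
    {V0 V1 : ℤ × ℤ → (nb (bx L) → ℝ) → ℝ} (H : Hx D A b G σ Cg δ τ t L V0 V1)
    {Y : Finset (ℤ × ℤ)} (hY : ∀ y ∈ Y, tr y (nb (bx L)) ⊆ A) (x : ℤ × ℤ) :
    DepS (nb A) (tX D b A Y σ τ t δ L V0 V1 G x) := by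
  intro h h' hh
  have h1 : tG D b A (fun z => σ * G z) x h = tG D b A (fun z => σ * G z) x h' :=
    rho_dep D b (Finset.Subset.refl (Uo A)) (Mav (fun z => σ * G z)) x h h' hh
  have h2 : ∀ y ∈ Y, bW D b L t y (fun z => σ * G z) (cP σ L G y)
      (τ * L * δ) (vP D b L V0 V1 G y) x h = bW D b L t y (fun z => σ * G z) (cP σ L G y)
      (τ * L * δ) (vP D b L V0 V1 G y) x h' := by
    intro y hy
    exact tW_dep _ _ _ _ _ (fun z => vP_dep D b L V0 V1 G y z) x h h'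
      (fun z hz => hh z (tga_nb (hY y hy) hz))
  unfold tX
  rw [h1, Finset.sum_congr rfl h2]

/- END tga -/

/- MODULE tgb
Independence of the boundary data: all functions are functions of the heights in `nb A ⊆ D`
(`cfu_congr_H`, `vP_indep`). -/

private theorem tgb_rho {D A : Finset (ℤ × ℤ)} (hA : nb A ⊆ D) (b b' : ℤ × ℤ → ℝ)
    {U : Finset Ed} (hU : U ⊆ Uo A) (M : Finset (ℤ × ℤ) → ℝ) (x : ℤ × ℤ) (h : D → ℝ) :
    rho e0 U A M x (gl D b h) = rho e0 U A M x (gl D b' h) := by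
  unfold rho
  refine cfu_congr_H e0 _ (fun e he => ?_)
  have h1 : e.1 ∈ A := (Finset.mem_product.1 (hU he)).1
  have h2 : e.1 ∈ D := hA (mem_nb.2 (Or.inl h1))
  have h3 : e.1 + st e.2 ∈ D := by
    refine hA (mem_nb.2 (Or.inr ⟨e.2 + 3, ?_⟩))
    rw [st_opp, add_neg_cancel_right]
    exact h1
  simp only [hd, gl, h2, h3, dite_true]

theorem tX_indep {D A : Finset (ℤ × ℤ)} (hA : nb A ⊆ D) (b b' : ℤ × ℤ → ℝ) {L : ℕ}
    {Y : Finset (ℤ × ℤ)} (hY : ∀ y ∈ Y, tr y (nb (bx L)) ⊆ A) (σ τ t δ : ℝ)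
    (V0 V1 : ℤ × ℤ → (nb (bx L) → ℝ) → ℝ) (G : ℤ × ℤ → ℝ) :
    tX D b A Y σ τ t δ L V0 V1 G = tX D b' A Y σ τ t δ L V0 V1 G := by
  have hAD : A ⊆ D := fun z hz => hA (mem_nb.2 (Or.inl hz))
  funext x h
  unfold tX
  have h1 : tG D b A (fun z => σ * G z) x h = tG D b' A (fun z => σ * G z) x h :=
    tgb_rho hA b b' (Finset.Subset.refl _) _ x h
  rw [h1]
  refine congrArg _ (Finset.sum_congr rfl (fun y hy => ?_))
  have hB : nb (tr y (bx L)) ⊆ D := (tga_nb (hY y hy)).trans hA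
  have h2 : vP D b L V0 V1 G y = vP D b' L V0 V1 G y :=
    vP_indep b b' V0 V1 G ((hY y hy).trans hAD)
  have h3 : ∀ x, tE D b (tr y (bx L)) (fun z => ph L t (z - y)) x h =
      tE D b' (tr y (bx L)) (fun z => ph L t (z - y)) x h :=
    fun x => tgb_rho hB b b' (Finset.Subset.refl _) _ x h
  have h4 : ∀ x, tR D b (tr y (bx L)) (fun z => σ * G z) x h =
      tR D b' (tr y (bx L)) (fun z => σ * G z) x h :=
    fun x => tgb_rho hB b b' (Finset.filter_subset _ _) _ x h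
  unfold bW tW tU
  rw [h2, h3 x, h4 x]

/- END tgb -/

/- MODULE tgc
Pointwise: `|X x - σ G x| ≤ |rho - σ G x| + k` (at most one box contains `x`, `tW_bound`). -/

theorem tX_close : ∃ C : ℝ, 1 ≤ C ∧ ∀ (D A : Finset (ℤ × ℤ)) (b G : ℤ × ℤ → ℝ)
    (σ Cg δ τ t : ℝ) (L : ℕ) (V0 V1 : ℤ × ℤ → (nb (bx L) → ℝ) → ℝ),
    Hx D A b G σ Cg δ τ t L V0 V1 → ∀ Y : Finset (ℤ × ℤ), Pk L A Y → ∀ x ∈ A, ∀ h : D → ℝ,
    |tX D b A Y σ τ t δ L V0 V1 G x h - σ * G x| ≤
      C * (σ * Cg * δ) * (Gx e0 A (gl D b h) x).card + τ * L * δ := by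
  classical
  obtain ⟨C, hC, h1⟩ := rho_lip
  refine ⟨C, hC, ?_⟩
  intro D A b G σ Cg δ τ t L V0 V1 H Y hY x hx h
  have Hb' := H.toHb
  have hUA : UA (Uo A) A (fun z => σ * G z) := ⟨Finset.Subset.refl _, Or.inl Hb'.h0⟩
  have h2 := (h1 (Uo A) A (Mav (fun z => σ * G z)) (fun z => σ * G z) (Mav_mean _) hUA
    (σ * Cg * δ) Hb'.hl D b h x hx).1
  have h3 : |∑ y ∈ Y, bW D b L t y (fun z => σ * G z) (cP σ L G y)
      (τ * L * δ) (vP D b L V0 V1 G y) x h| ≤ τ * L * δ := by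
    by_cases hc : ∃ y ∈ Y, x ∈ tr y (bx L)
    · obtain ⟨y, hy, hxy⟩ := hc
      rw [Finset.sum_eq_single y]
      · exact (tW_bound (D := D) (b := b) (B := tr y (bx L)) (tr y (Bo L))
          (φ := fun z => ph L t (z - y)) (fun z => ph_mem L t (z - y)) (fun z => σ * G z) _
          (tga_k H) _ x h).2
      · intro y' hy' hne
        refine tga_bW H y' _ _ (fun h4 => ?_) h
        exact (Finset.disjoint_left.1 (hY.dis y' hy' y hy hne) h4) hxy
      · intro h4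
        exact absurd hy h4
    · push Not at hc
      rw [Finset.sum_eq_zero (fun y hy => tga_bW H y _ _ (hc y hy) h), abs_zero]
      exact (tga_k H).le
  unfold tX
  have h4 : tG D b A (fun z => σ * G z) x h + ∑ y ∈ Y, bW D b L t y (fun z => σ * G z)
      (cP σ L G y) (τ * L * δ) (vP D b L V0 V1 G y) x h - σ * G x =
      (rho e0 (Uo A) A (Mav (fun z => σ * G z)) x (gl D b h) - σ * G x) +
      ∑ y ∈ Y, bW D b L t y (fun z => σ * G z)
      (cP σ L G y) (τ * L * δ) (vP D b L V0 V1 G y) x h := by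
    unfold tG
    ring
  rw [h4]
  exact (abs_add_le _ _).trans (add_le_add h2 h3)

/-- the linear term: `lap_eq`, `∑ Lap G * (X - σ G)` over `A`, `|Lap G x| ≤ Cg δ²`, `G_moment` -/
theorem lin_term : ∃ C : ℝ, 1 ≤ C ∧ ∀ (D A : Finset (ℤ × ℤ)) (b G : ℤ × ℤ → ℝ)
    (σ Cg δ τ t : ℝ) (L : ℕ) (V0 V1 : ℤ × ℤ → (nb (bx L) → ℝ) → ℝ),
    Hx D A b G σ Cg δ τ t L V0 V1 → ∀ Y : Finset (ℤ × ℤ), Pk L A Y →
    (∀ y ∈ Y, tr y (nb (bx L)) ⊆ A) → (∀ x, G x ≠ 0 → x ∈ A ∧ ∀ i, x + st i ∈ A) →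
    ∫ h, |(∑ x ∈ D, Lap G x * tX D b A Y σ τ t δ L V0 V1 G x h) - σ * EG D G| ∂(Mu D b) ≤
      C * Cg * (δ ^ 2 * A.card) * (σ * Cg * δ + τ * L * δ) := by
  obtain ⟨C1, hC1, h1⟩ := tX_close
  obtain ⟨C2, hC2, h2⟩ := G_moment 1
  refine ⟨C1 * C2, one_le_mul_of_one_le_of_one_le hC1 hC2, ?_⟩
  intro D A b G σ Cg δ τ t L V0 V1 H Y hY hYA hGA
  have := Mu_prob (D := D) H.hb
  have hCg := H.hG.C0
  have hδ := H.hδ
  have hσ := H.hσ
  have hk := tga_k H
  have hEG : EG D G = ∑ x ∈ D, G x * Lap G x :=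
    (lap_eq (fun x hx => ⟨H.hA (hGA x hx).1, fun i => H.hA ((hGA x hx).2 i)⟩)).symm
  have hpt : ∀ h : D → ℝ, |(∑ x ∈ D, Lap G x * tX D b A Y σ τ t δ L V0 V1 G x h) - σ * EG D G| ≤
      ∑ x ∈ A, Cg * δ ^ 2 * (C1 * (σ * Cg * δ) * (Gx e0 A (gl D b h) x).card + τ * L * δ) := by
    intro h
    have h3 : (∑ x ∈ D, Lap G x * tX D b A Y σ τ t δ L V0 V1 G x h) - σ * EG D G =
        ∑ x ∈ D, Lap G x * (tX D b A Y σ τ t δ L V0 V1 G x h - σ * G x) := by
      rw [hEG, Finset.mul_sum, ← Finset.sum_sub_distrib]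
      refine Finset.sum_congr rfl (fun x _ => ?_)
      ring
    have h4 : ∑ x ∈ D, Lap G x * (tX D b A Y σ τ t δ L V0 V1 G x h - σ * G x) =
        ∑ x ∈ A, Lap G x * (tX D b A Y σ τ t δ L V0 V1 G x h - σ * G x) := by
      refine (Finset.sum_subset H.hA (fun x _ hx => ?_)).symm
      rw [tX_off H hYA hx h, H.h0 x hx]
      ring
    rw [h3, h4]
    refine (Finset.abs_sum_le_sum_abs _ _).trans (Finset.sum_le_sum (fun x hx => ?_))
    rw [abs_mul]
    exact mul_le_mul (H.hG.lap x) (h1 D A b G σ Cg δ τ t L V0 V1 H Y hY x hx h)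
      (abs_nonneg _) (by positivity)
  have hint : ∀ x ∈ A, Integrable (fun h : D → ℝ =>
      Cg * δ ^ 2 * (C1 * (σ * Cg * δ) * (Gx e0 A (gl D b h) x).card + τ * L * δ)) (Mu D b) := by
    intro x hx
    have h3 := (h2 D A H.hA b H.hb x hx).1
    simp only [pow_one] at h3
    exact ((h3.const_mul _).add (integrable_const _)).const_mul _
  have hval : ∀ x ∈ A, ∫ h : D → ℝ,
      Cg * δ ^ 2 * (C1 * (σ * Cg * δ) * (Gx e0 A (gl D b h) x).card + τ * L * δ) ∂(Mu D b) ≤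
      Cg * δ ^ 2 * (C1 * C2 * (σ * Cg * δ + τ * L * δ)) := by
    intro x hx
    obtain ⟨h3, h4⟩ := h2 D A H.hA b H.hb x hx
    simp only [pow_one] at h3 h4
    rw [integral_const_mul, integral_add (h3.const_mul _) (integrable_const _),
      integral_const_mul, integral_const]
    simp only [probReal_univ, smul_eq_mul, one_mul]
    refine mul_le_mul_of_nonneg_left ?_ (by positivity)
    have h5 : C1 * (σ * Cg * δ) * ∫ h : D → ℝ, ((Gx e0 A (gl D b h) x).card : ℝ) ∂(Mu D b) ≤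
        C1 * (σ * Cg * δ) * C2 := mul_le_mul_of_nonneg_left h4 (by positivity)
    have h6 : τ * L * δ ≤ C1 * C2 * (τ * L * δ) :=
      le_mul_of_one_le_left hk.le (one_le_mul_of_one_le_of_one_le hC1 hC2)
    linarith
  refine (integral_mono_of_nonneg (Filter.Eventually.of_forall (fun h => abs_nonneg _))
    (integrable_finsetSum _ hint) (Filter.Eventually.of_forall hpt)).trans ?_
  rw [integral_finsetSum _ hint]
  refine (Finset.sum_le_sum hval).trans (le_of_eq ?_)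
  rw [Finset.sum_const, nsmul_eq_mul]
  ring

/- END tgc -/

/- MODULE tgd
Crude pointwise bound of the divergence: `rho_lip` (cluster `⊆ A`), the derivative of `bW` (product
rule; `UF.dbdd` and `pz_rs` for `vP`, `|dG| ≤ Cg δ ≤ Cg`), at most one box contains `x`. -/

private theorem tgd_pz_zero {S : Finset (ℤ × ℤ)} (y : ℤ × ℤ) (k : S → ℝ) :
    pz S y (fun _ => (0 : ℝ)) k = 0 := by
  unfold pz
  split_ifs with hy
  · unfold pd
    simp
  · rfl

private theorem tgd_pz_sum {S : Finset (ℤ × ℤ)} {ι : Type*} (s : Finset ι)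
    {f : ι → (S → ℝ) → ℝ} (hf : ∀ i ∈ s, ContDiff ℝ ∞ (f i)) (y : ℤ × ℤ) (k : S → ℝ) :
    pz S y (fun k => ∑ i ∈ s, f i k) k = ∑ i ∈ s, pz S y (f i) k := by
  classical
  induction s using Finset.induction_on with
  | empty => simpa using tgd_pz_zero y k
  | insert a s ha ih =>
    have h1 : (fun k => ∑ i ∈ insert a s, f i k) = fun k => f a k + ∑ i ∈ s, f i k := by
      funext k
      rw [Finset.sum_insert ha]
    rw [h1, Finset.sum_insert ha, pz_add, ih fun i hi => hf i (Finset.mem_insert_of_mem hi)]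
    · exact (hf a (Finset.mem_insert_self _ _)).differentiable (by simp) k
    · exact ((ContDiff.sum fun i hi => hf i (Finset.mem_insert_of_mem hi)).differentiable
        (by simp)) k

private theorem tgd_avf {F : Finset (ℤ × ℤ)} {f : ℤ × ℤ → ℝ} {M : ℝ} (hM : 0 ≤ M)
    (hf : ∀ x ∈ F, |f x| ≤ M) : |avf F f| ≤ M := by
  unfold avf
  rw [abs_mul, abs_inv, Nat.abs_cast]
  have h1 : |∑ x ∈ F, f x| ≤ F.card * M := by
    refine (Finset.abs_sum_le_sum_abs _ _).trans ?_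
    refine (Finset.sum_le_sum hf).trans_eq ?_
    rw [Finset.sum_const, nsmul_eq_mul]
  rcases Nat.eq_zero_or_pos F.card with h0 | h0
  · rw [h0]
    simpa using hM
  · have h2 : (0 : ℝ) < F.card := by exact_mod_cast h0
    rw [inv_mul_le_iff₀ h2]
    exact h1

private theorem tgd_v {D : Finset (ℤ × ℤ)} {b : ℤ × ℤ → ℝ} {L : ℕ}
    {V0 V1 : ℤ × ℤ → (nb (bx L) → ℝ) → ℝ} (hV0 : UF (bx L) V0) (hV1 : UF (bx L) V1) {B0 B1 : ℝ}
    (h0 : ∀ z y k, |pz (nb (bx L)) y (V0 z) k| ≤ B0)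
    (h1 : ∀ z y k, |pz (nb (bx L)) y (V1 z) k| ≤ B1) {G : ℤ × ℤ → ℝ} {Cg δ : ℝ}
    (hG : Rg G δ Cg) (hδ : 0 < δ) (hδ1 : δ ≤ 1) {y : ℤ × ℤ} (hy : tr y (nb (bx L)) ⊆ D)
    (u z : ℤ × ℤ) (h : D → ℝ) :
    |pz D z (vP D b L V0 V1 G y u) h| ≤ Cg * (B0 + B1) := by
  have hB0 : 0 ≤ B0 := (abs_nonneg _).trans (h0 0 0 0)
  have hB1 : 0 ≤ B1 := (abs_nonneg _).trans (h1 0 0 0)
  obtain ⟨_, hd0, hd1⟩ := qd_dG hG hδ hδ1 y
  have hd0' : |(dG G y).1| ≤ Cg := hd0.trans (mul_le_of_le_one_right hG.C0 hδ1)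
  have hd1' : |(dG G y).2| ≤ Cg := hd1.trans (mul_le_of_le_one_right hG.C0 hδ1)
  have hs0 : Differentiable ℝ (V0 (u - y)) := (hV0.nice.sm _).differentiable (by simp)
  have hs1 : Differentiable ℝ (V1 (u - y)) := (hV1.nice.sm _).differentiable (by simp)
  have hF : Differentiable ℝ (((dG G y).1 • V0 + (dG G y).2 • V1) (u - y)) :=
    (hs0.const_smul (dG G y).1).add (hs1.const_smul (dG G y).2)
  have e1 : pz D z (vP D b L V0 V1 G y u) h =
      pz (nb (bx L)) (z - y) (((dG G y).1 • V0 + (dG G y).2 • V1) (u - y))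
        (rs (nb (bx L)) y (gl D b h)) := by
    have := pz_rs (c := b) (z := z - y) hy hF h
    rw [add_sub_cancel] at this
    exact this
  have e2 : pz (nb (bx L)) (z - y) (((dG G y).1 • V0 + (dG G y).2 • V1) (u - y))
        (rs (nb (bx L)) y (gl D b h)) =
      (dG G y).1 * pz (nb (bx L)) (z - y) (V0 (u - y)) (rs (nb (bx L)) y (gl D b h)) +
      (dG G y).2 * pz (nb (bx L)) (z - y) (V1 (u - y)) (rs (nb (bx L)) y (gl D b h)) := by
    have e3 : (((dG G y).1 • V0 + (dG G y).2 • V1) (u - y)) =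
        fun k => (dG G y).1 * V0 (u - y) k + (dG G y).2 * V1 (u - y) k := by
      funext k
      simp
    rw [e3, pz_add ((hs0 _).const_mul _) ((hs1 _).const_mul _), pz_smul _ (hs0 _),
      pz_smul _ (hs1 _)]
  rw [e1, e2]
  refine (abs_add_le _ _).trans ?_
  rw [abs_mul, abs_mul, mul_add]
  exact add_le_add (mul_le_mul hd0' (h0 _ _ _) (abs_nonneg _) hG.C0)
    (mul_le_mul hd1' (h1 _ _ _) (abs_nonneg _) hG.C0)

private theorem tgd_ph {L : ℕ} {t : ℝ} (hL : 1 ≤ L) (ht : 0 < t) {y z : ℤ × ℤ}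
    (hz : z ∉ tr y (bx L)) : ph L t (z - y) = 0 := by
  refine ph_off (by omega) ht fun h => hz ?_
  refine Finset.mem_image.2 ⟨z - y, ?_, by abel⟩
  simp only [Bo, inn, Finset.mem_filter] at h
  exact h.1

theorem tX_dbound {L : ℕ} {V0 V1 : ℤ × ℤ → (nb (bx L) → ℝ) → ℝ} (hV0 : UF (bx L) V0)
    (hV1 : UF (bx L) V1) (σ Cg τ t : ℝ) : ∃ C : ℝ, 1 ≤ C ∧ ∀ (D A : Finset (ℤ × ℤ))
    (b G : ℤ × ℤ → ℝ) (δ : ℝ), Hx D A b G σ Cg δ τ t L V0 V1 → ∀ Y : Finset (ℤ × ℤ),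
    Pk L A Y → (∀ y ∈ Y, tr y (nb (bx L)) ⊆ A) → ∀ h : D → ℝ,
    |dv D (tX D b A Y σ τ t δ L V0 V1 G) h| ≤ C * (1 + (A.card : ℝ)) ^ 3 := by
  obtain ⟨C1, hC1, hr⟩ := rho_lip
  obtain ⟨B0, hB0⟩ := hV0.dbdd
  obtain ⟨B1, hB1⟩ := hV1.dbdd
  have hB00 : 0 ≤ B0 := (abs_nonneg _).trans (hB0 0 0 0)
  have hB10 : 0 ≤ B1 := (abs_nonneg _).trans (hB1 0 0 0)
  refine ⟨1 + 5 * |C1 * (σ * Cg)| + 2 * |Cg * (B0 + B1)| + |τ * L * (C1 * (1 / (t * L)))|,
    by linarith [abs_nonneg (C1 * (σ * Cg)), abs_nonneg (Cg * (B0 + B1)),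
      abs_nonneg (τ * L * (C1 * (1 / (t * L))))], ?_⟩
  intro D A b G δ H Y hPk hY h
  have hσ := H.hσ
  have hτ := H.hτ
  have ht := H.ht
  have hδ := H.hδ
  have hCg := H.hG.C0
  have hL0 : (0 : ℝ) < L := by
    have := H.hL
    exact_mod_cast this
  have hk : 0 < τ * L * δ := by positivity
  set l : ℝ := σ * Cg with hl
  have hl0 : 0 ≤ l := by positivity
  set N : ℝ := (A.card : ℝ) with hN
  have hN0 : 0 ≤ N := Nat.cast_nonneg _
  set P : ℝ := C1 * l with hP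
  have hP0 : 0 ≤ P := by positivity
  set Q1 : ℝ := Cg * (B0 + B1) with hQ1
  have hQ10 : 0 ≤ Q1 := by positivity
  set Q2 : ℝ := τ * L * (C1 * (1 / (t * L))) with hQ2
  have hQ20 : 0 ≤ Q2 := by positivity
  rw [abs_of_nonneg hP0, abs_of_nonneg hQ10, abs_of_nonneg hQ20]
  -- increments of the macroscopic function
  have hinc : ∀ x i, |(fun z => σ * G z) x - (fun z => σ * G z) (x + st i)| ≤ l := by
    intro x i
    have h1 := H.hG.lip x i
    have h2 : Cg * δ ≤ Cg := mul_le_of_le_one_right hCg H.hδ1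
    show |σ * G x - σ * G (x + st i)| ≤ l
    rw [← mul_sub, abs_mul, abs_of_nonneg hσ, hl]
    exact mul_le_mul_of_nonneg_left (h1.trans h2) hσ
  have hUA : UA (Uo A) A (fun z => σ * G z) :=
    ⟨fun _ h => h, Or.inl fun z hz => by show σ * G z = 0; rw [H.h0 z hz, mul_zero]⟩
  have hcl : ∀ B : Finset (ℤ × ℤ), B ⊆ A → ∀ x, ((Gx e0 B (gl D b h) x).card : ℝ) ≤ N := by
    intro B hB x
    rw [hN]
    exact_mod_cast Finset.card_le_card fun z hz => hB (mem_Cmp.1 hz).1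
  have hG1 : ∀ x ∈ A, ∀ z, |pz D z (tG D b A (fun z => σ * G z) x) h| ≤ P * N := by
    intro x hx z
    refine ((hr (Uo A) A _ _ (Mav_mean _) hUA l hinc D b h x hx).2.1 z).trans ?_
    rw [hP]
    exact mul_le_mul_of_nonneg_left (hcl A (fun _ h => h) x) (by positivity)
  -- one box
  have hbox : ∀ y ∈ Y, ∀ x ∈ A, ∀ z,
      |pz D z (bW D b L t y (fun z => σ * G z) (cP σ L G y) (τ * L * δ) (vP D b L V0 V1 G y) x) h| ≤
        (4 * P + 2 * Q1 + Q2) * (1 + N) := by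
    intro y hy x hx z
    have hyA := hY y hy
    have hyD : tr y (nb (bx L)) ⊆ D := hyA.trans H.hA
    have hBA : tr y (bx L) ⊆ A := hPk.sub y hy
    by_cases hxB : x ∈ tr y (bx L)
    · have hv := vP_lnice (b := b) hV0 hV1 G hyD
      have hf := bW_pz b A L t y (fun z => σ * G z) (cP σ L G y) hk hv.sm x z h
      have hW : ContDiff ℝ ∞ (bW D b L t y (fun z => σ * G z) (cP σ L G y) (τ * L * δ)
          (vP D b L V0 V1 G y) x) :=
        (tW_nice (hBA.trans H.hA) _ _ _ _ hk hv).sm x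
      rw [pz_add ((tG_smooth D b A _ x).differentiable (by simp) h)
        (hW.differentiable (by simp) h)] at hf
      have hph : ∀ u : ℤ × ℤ, 0 ≤ ph L t (u - y) ∧ ph L t (u - y) ≤ 1 := fun u => ph_mem L t _
      have hT := tT_mem (D := D) (b := b) (B := tr y (bx L)) (tr y (Bo L)) hph
        (fun z => σ * G z) (cP σ L G y) hk (vP D b L V0 V1 G y) x h
      set T : ℝ := bT D b L t y (fun z => σ * G z) (cP σ L G y) (τ * L * δ)
        (vP D b L V0 V1 G y) x h with hTdef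
      have hT0 : 0 ≤ T := hT.1
      have hT1 : T ≤ 1 := hT.2.1.trans (hph x).2
      have a1 := hG1 x hx z
      have a2 : |pz D z (tR D b (tr y (bx L)) (fun z => σ * G z) x) h| ≤ P * N := by
        refine ((hr (Ui (tr y (bx L))) (tr y (bx L)) _ _ (Mav_mean _)
          ⟨Finset.filter_subset _ _, Or.inr fun _ h => h⟩ l hinc D b h x hxB).2.1 z).trans ?_
        rw [hP]
        exact mul_le_mul_of_nonneg_left (hcl _ hBA x) (by positivity)
      have a3 : |pz D z (vP D b L V0 V1 G y x) h| ≤ Q1 :=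
        tgd_v hV0 hV1 hB0 hB1 H.hG hδ H.hδ1 hyD x z h
      have a4 : |avf (tr y (Bo L)) (fun u => pz D z (vP D b L V0 V1 G y u) h)| ≤ Q1 :=
        tgd_avf hQ10 fun u _ => tgd_v hV0 hV1 hB0 hB1 H.hG hδ H.hδ1 hyD u z h
      have a5 : |Tk (τ * L * δ) (bU D b L y (fun z => σ * G z) (cP σ L G y)
          (vP D b L V0 V1 G y) x h)| ≤ τ * L := by
        refine (Tk_bound hk _).trans ?_
        exact mul_le_of_le_one_right (by positivity) H.hδ1
      have a6 : |pz D z (bE D b L t y x) h| ≤ C1 * (1 / (t * L)) * N := by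
        refine ((hr (Uo (tr y (bx L))) (tr y (bx L)) _ (fun z => ph L t (z - y)) (Mmn_mean _)
          ⟨fun _ h => h, Or.inl fun z hz => tgd_ph H.hL ht hz⟩ (1 / (t * L)) ?_ D b h x
          hxB).2.1 z).trans ?_
        · intro x i
          have h1 := ph_lip (L := L) (by have := H.hL; omega) ht (x - y) i
          have h2 : x + st i - y = x - y + st i := by abel
          show |ph L t (x - y) - ph L t (x + st i - y)| ≤ _
          rw [h2]
          exact h1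
        · exact mul_le_mul_of_nonneg_left (hcl _ hBA x) (by positivity)
      generalize pz D z (tG D b A (fun z => σ * G z) x) h = p1 at hf a1
      generalize pz D z (tR D b (tr y (bx L)) (fun z => σ * G z) x) h = p2 at hf a2
      generalize pz D z (vP D b L V0 V1 G y x) h = p3 at hf a3
      generalize avf (tr y (Bo L)) (fun u => pz D z (vP D b L V0 V1 G y u) h) = p4 at hf a4
      generalize Tk (τ * L * δ) (bU D b L y (fun z => σ * G z) (cP σ L G y)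
          (vP D b L V0 V1 G y) x h) = p5 at hf a5
      generalize pz D z (bE D b L t y x) h = p6 at hf a6
      have hf' : pz D z (bW D b L t y (fun z => σ * G z) (cP σ L G y) (τ * L * δ)
          (vP D b L V0 V1 G y) x) h = -(T * p1) + T * (p3 - p4) + T * (p1 - p2) + p5 * p6 := by
        linear_combination hf
      rw [hf']
      have b1 : |-(T * p1)| ≤ P * N := by
        rw [abs_neg, abs_mul, abs_of_nonneg hT0]
        exact (mul_le_of_le_one_left (abs_nonneg _) hT1).trans a1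
      have b2 : |T * (p3 - p4)| ≤ 2 * Q1 := by
        rw [abs_mul, abs_of_nonneg hT0]
        refine (mul_le_of_le_one_left (abs_nonneg _) hT1).trans ?_
        refine (abs_sub _ _).trans ?_
        linarith
      have b3 : |T * (p1 - p2)| ≤ 2 * (P * N) := by
        rw [abs_mul, abs_of_nonneg hT0]
        refine (mul_le_of_le_one_left (abs_nonneg _) hT1).trans ?_
        refine (abs_sub _ _).trans ?_
        linarith
      have b4 : |p5 * p6| ≤ Q2 * N := by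
        rw [abs_mul]
        refine (mul_le_mul a5 a6 (abs_nonneg _) (by positivity)).trans_eq ?_
        rw [hQ2]
        ring
      refine (abs_add_le _ _).trans ?_
      refine (add_le_add_left (abs_add_le _ _) _).trans ?_
      refine (add_le_add_left (add_le_add_left (abs_add_le _ _) _) _).trans ?_
      have c1 : 0 ≤ P * N := by positivity
      have c2 : 0 ≤ Q1 * N := by positivity
      have c3 : 0 ≤ Q2 * N := by positivity
      linarith
    · have h0 : bW D b L t y (fun z => σ * G z) (cP σ L G y) (τ * L * δ)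
          (vP D b L V0 V1 G y) x = fun _ => 0 := by
        funext k
        have h1 := (tW_bound (D := D) (b := b) (B := tr y (bx L)) (tr y (Bo L))
          (φ := fun z => ph L t (z - y)) (fun u => ph_mem L t (u - y))
          (fun z => σ * G z) (cP σ L G y) hk (vP D b L V0 V1 G y) x k).1
        rw [tgd_ph H.hL ht hxB, mul_zero] at h1
        exact abs_eq_zero.1 (le_antisymm h1 (abs_nonneg _))
      rw [h0, tgd_pz_zero, abs_zero]
      positivity
  have hYA : Y ⊆ A := by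
    intro y hy
    refine hPk.sub y hy (Finset.mem_image.2 ⟨0, ?_, add_zero y⟩)
    have := H.hL
    unfold bx
    simp only [Finset.mem_product, Finset.mem_Ico, Prod.fst_zero, Prod.snd_zero]
    omega
  have hYN : (Y.card : ℝ) ≤ N := by
    rw [hN]
    exact_mod_cast Finset.card_le_card hYA
  have hWs : ∀ y ∈ Y, ∀ x, ContDiff ℝ ∞ (bW D b L t y (fun z => σ * G z) (cP σ L G y)
      (τ * L * δ) (vP D b L V0 V1 G y) x) := fun y hy x =>
    (tW_nice ((hPk.sub y hy).trans H.hA) _ _ _ _ hk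
      (vP_lnice (b := b) hV0 hV1 G ((hY y hy).trans H.hA))).sm x
  have hx1 : ∀ x ∈ A, |pz D x (tX D b A Y σ τ t δ L V0 V1 G x) h| ≤
      P * N + N * ((4 * P + 2 * Q1 + Q2) * (1 + N)) := by
    intro x hx
    have e1 : pz D x (tX D b A Y σ τ t δ L V0 V1 G x) h =
        pz D x (tG D b A (fun z => σ * G z) x) h + ∑ y ∈ Y,
          pz D x (bW D b L t y (fun z => σ * G z) (cP σ L G y) (τ * L * δ)
            (vP D b L V0 V1 G y) x) h := by
      rw [← tgd_pz_sum Y (fun y hy => hWs y hy x), ← pz_add]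
      · rfl
      · exact (tG_smooth D b A _ x).differentiable (by simp) h
      · exact (ContDiff.sum fun y hy => hWs y hy x).differentiable (by simp) h
    rw [e1]
    refine (abs_add_le _ _).trans (add_le_add (hG1 x hx x) ?_)
    refine (Finset.abs_sum_le_sum_abs _ _).trans ?_
    refine (Finset.sum_le_sum fun y hy => hbox y hy x hx x).trans ?_
    rw [Finset.sum_const, nsmul_eq_mul]
    exact mul_le_mul_of_nonneg_right hYN (by positivity)
  have hsum : |dv D (tX D b A Y σ τ t δ L V0 V1 G) h| ≤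
      N * (P * N + N * ((4 * P + 2 * Q1 + Q2) * (1 + N))) := by
    unfold dv
    rw [abs_neg]
    have e2 : ∑ x ∈ D, pz D x (tX D b A Y σ τ t δ L V0 V1 G x) h =
        ∑ x ∈ A, pz D x (tX D b A Y σ τ t δ L V0 V1 G x) h := by
      refine (Finset.sum_subset H.hA fun x _ hx => ?_).symm
      have : tX D b A Y σ τ t δ L V0 V1 G x = fun _ => 0 := by
        funext k
        exact tX_off H hY hx k
      rw [this, tgd_pz_zero]
    rw [e2]
    refine (Finset.abs_sum_le_sum_abs _ _).trans ?_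
    refine (Finset.sum_le_sum hx1).trans_eq ?_
    rw [Finset.sum_const, nsmul_eq_mul]
  refine hsum.trans ?_
  have d1 : P * N + N * ((4 * P + 2 * Q1 + Q2) * (1 + N)) ≤
      (1 + 5 * P + 2 * Q1 + Q2) * (1 + N) ^ 2 := by
    have c1 : 0 ≤ P * N := by positivity
    have c2 : 0 ≤ Q1 * N := by positivity
    have c3 : 0 ≤ Q2 * N := by positivity
    have c4 : 0 ≤ P * N ^ 2 := by positivity
    have c5 : 0 ≤ Q1 * N ^ 2 := by positivity
    have c6 : 0 ≤ Q2 * N ^ 2 := by positivity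
    nlinarith
  have d2 : 0 ≤ P * N + N * ((4 * P + 2 * Q1 + Q2) * (1 + N)) := by positivity
  calc N * (P * N + N * ((4 * P + 2 * Q1 + Q2) * (1 + N))) ≤
      (1 + N) * ((1 + 5 * P + 2 * Q1 + Q2) * (1 + N) ^ 2) :=
        mul_le_mul (by linarith) d1 d2 (by positivity)
    _ = (1 + 5 * P + 2 * Q1 + Q2) * (1 + N) ^ 3 := by ring

/- END tgd -/

/- MODULE tge
Geometry (`IsCompact.exists_cthickening_subset_open`, twice). -/

theorem thick {g : ℝ × ℝ → ℝ} (hc : HasCompactSupport g) {U : Set (ℝ × ℝ)} (hU : IsOpen U)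
    (hgU : tsupport g ⊆ U) : ∃ (Kc : Set (ℝ × ℝ)) (ρ : ℝ), IsCompact Kc ∧ Kc ⊆ U ∧ 0 < ρ ∧
      (∀ p ∈ tsupport g, ∀ p', dist p' p ≤ ρ → p' ∈ Kc) ∧
      (∀ p ∈ Kc, ∀ p', dist p' p ≤ ρ → p' ∈ U) := by
  have hcs : IsCompact (tsupport g) := hc
  obtain ⟨d1, h1, h1U⟩ := hcs.exists_cthickening_subset_open hU hgU
  have hK : IsCompact (Metric.cthickening d1 (tsupport g)) := hcs.cthickening
  obtain ⟨d2, h2, h2U⟩ := hK.exists_cthickening_subset_open hU h1U
  refine ⟨Metric.cthickening d1 (tsupport g), min d1 d2, hK, h1U, lt_min h1 h2, ?_, ?_⟩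
  · intro p hp p' hd
    exact Metric.mem_cthickening_of_dist_le p' p d1 _ hp (hd.trans (min_le_left _ _))
  · intro p hp p' hd
    exact h2U (Metric.mem_cthickening_of_dist_le p' p d2 _ hp (hd.trans (min_le_right _ _)))

/- END tge -/

/- MODULE tgf
THE TRIAL FIELD.  `thick`, `energy`, `lat_fin`, `lat_card`, `Rg_of`; `X = tX ...`; neighbours of
`A` are in `U` (`lt_dist`, `δ ≤ ρ`), hence `nb A ⊆ D`; `tX_indep`, `tX_nice` for `b'`; `lin_term`
(`δ² card A ≤ Kf`, so the error is at most a constant times `δ`), `tX_dbound` with `k = 6`,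
`dep_dv`, `tX_dep`. -/

private theorem tgf_step {Kc U : Set (ℝ × ℝ)} {ρ δ : ℝ} (hδ : 0 < δ) (hδρ : δ ≤ ρ)
    (hK : ∀ p ∈ Kc, ∀ p', dist p' p ≤ ρ → p' ∈ U) {x : ℤ × ℤ} (hx : lt δ x ∈ Kc) (i : Fin 6) :
    lt δ (x + st i) ∈ U := by
  refine hK _ hx _ ((lt_dist hδ (x + st i) x).trans ?_)
  have h1 : dn (x + st i - x) = 1 := by
    rw [add_sub_cancel_left]
    fin_cases i <;> rfl
  rw [h1]
  simpa using hδρ

theorem trial {s : ℝ} (hs : 0 ≤ s) (hS : Sl s) : Tri s := by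
  intro g hg hc U hU hgU R hR ε hε
  obtain ⟨Kc, ρ, hK, hKU, hρ, hgK, hKρ⟩ := thick hc hU hgU
  obtain ⟨τ, t, L, V0, V1, hτ, hτ1, ht, ht1, hL, hV0, hV1, δa, hδa, hen⟩ :=
    energy hs hS hg hc hK hU hKU hρ hgK hR hε
  obtain ⟨Kf, hKf, hcard⟩ := lat_card hK
  obtain ⟨Cg, hCg, hRg⟩ := Rg_of hg hc
  obtain ⟨C1, hC1, hlin⟩ := lin_term
  obtain ⟨C2, hC2, hdb⟩ := tX_dbound hV0 hV1 s Cg τ t
  set M : ℝ := C1 * Cg * Kf * (s * Cg + L) + 1 with hM
  have hM0 : 0 < M := by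
    have : 0 ≤ C1 * Cg * Kf * (s * Cg + L) := by positivity
    linarith
  refine ⟨min (min δa 1) (min ρ (ε / M)), lt_min (lt_min hδa one_pos) (lt_min hρ (div_pos hε hM0)),
    C2 * (1 + Kf) ^ 3, 6, ?_⟩
  intro δ hδ hδ0 D hD hDR b hb
  have hd1 : δ < δa := hδ0.trans_le ((min_le_left _ _).trans (min_le_left _ _))
  have hd2 : δ < 1 := hδ0.trans_le ((min_le_left _ _).trans (min_le_right _ _))
  have hd3 : δ < ρ := hδ0.trans_le ((min_le_right _ _).trans (min_le_left _ _))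
  have hd4 : δ < ε / M := hδ0.trans_le ((min_le_right _ _).trans (min_le_right _ _))
  obtain ⟨A, hA⟩ := lat_fin hK hδ
  have hAU : ∀ x ∈ A, lt δ x ∈ U := fun x hx => hKU ((hA x).1 hx)
  have hAD : A ⊆ D := fun x hx => hD x (hAU x hx)
  obtain ⟨Y, hPk, hY, hE⟩ := hen δ hδ hd1 D hD hDR b hb A hA
  have hAc : (A.card : ℝ) * δ ^ 2 ≤ Kf := hcard δ hδ hd2.le A fun x hx => (hA x).1 hx
  have hG0 : ∀ z ∉ A, g (lt δ z) = 0 := by
    intro z hz
    by_contra h
    have h1 : lt δ z ∈ tsupport g := subset_tsupport g h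
    exact hz ((hA z).2 (hgK _ h1 _ (by rw [dist_self]; exact hρ.le)))
  have hGA : ∀ x, g (lt δ x) ≠ 0 → x ∈ A ∧ ∀ i, x + st i ∈ A := by
    intro x hx
    have h1 : lt δ x ∈ tsupport g := subset_tsupport g hx
    exact ⟨(hA x).2 (hgK _ h1 _ (by rw [dist_self]; exact hρ.le)),
      fun i => (hA _).2 (tgf_step hδ hd3.le hgK h1 i)⟩
  have hH : ∀ b' : ℤ × ℤ → ℝ, (∀ z, |b' z| ≤ 1 / 2) →
      Hx D A b' (fun x => g (lt δ x)) s Cg δ τ t L V0 V1 := fun b' hb' =>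
    { hL := hL, hb := hb', hA := hAD, h0 := hG0, hG := hRg δ hδ hd2.le, hδ := hδ, hδ1 := hd2.le,
      hσ := hs, hτ := hτ, hτ1 := hτ1, ht := ht, ht1 := ht1, hV0 := hV0, hV1 := hV1 }
  have hnU : ∀ x ∈ nb A, lt δ x ∈ U := by
    intro x hx
    unfold nb at hx
    rw [Finset.mem_union, Finset.mem_biUnion] at hx
    rcases hx with hx | ⟨y, hy, hx⟩
    · exact hAU x hx
    · obtain ⟨i, _, rfl⟩ := Finset.mem_image.1 hx
      exact tgf_step hδ hd3.le hKρ ((hA y).1 hy) i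
  have hnD : nb A ⊆ D := fun x hx => hD x (hnU x hx)
  refine ⟨A, tX D b A Y s τ t δ L V0 V1 (fun x => g (lt δ x)), hAD, hAU, ?_, ?_, ?_, ?_, hE, ?_⟩
  · intro b' hb'
    rw [tX_indep hnD b b' hY]
    exact tX_nice (hH b' hb') hY
  · intro x hx h
    exact tX_off (hH b hb) hY hx h
  · intro h
    refine (hdb D A b _ δ (hH b hb) Y hPk hY h).trans ?_
    have h1 : 1 + (A.card : ℝ) ≤ (1 + Kf) / δ ^ 2 := by
      rw [le_div_iff₀ (by positivity)]
      have : δ ^ 2 ≤ 1 := pow_le_one₀ hδ.le hd2.le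
      nlinarith [hAc]
    have h2 : (1 + (A.card : ℝ)) ^ 3 ≤ ((1 + Kf) / δ ^ 2) ^ 3 :=
      pow_le_pow_left₀ (by positivity) h1 3
    calc C2 * (1 + (A.card : ℝ)) ^ 3 ≤ C2 * ((1 + Kf) / δ ^ 2) ^ 3 :=
          mul_le_mul_of_nonneg_left h2 (by linarith)
      _ = C2 * (1 + Kf) ^ 3 / δ ^ 6 := by
          rw [div_pow, ← pow_mul, mul_div_assoc]
  · have h1 := dep_dv (tX_dep (hH b hb) hY)
    intro h h' hh
    exact h1 h h' fun x hx => hh x (hnU x hx)
  · refine (hlin D A b _ s Cg δ τ t L V0 V1 (hH b hb) Y hPk hY hGA).trans ?_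
    have h1 : δ ^ 2 * (A.card : ℝ) ≤ Kf := by rw [mul_comm]; exact hAc
    have h2 : s * Cg * δ + τ * L * δ ≤ (s * Cg + L) * δ := by
      have : τ * L * δ ≤ L * δ := by
        have : τ * L ≤ L := mul_le_of_le_one_left (Nat.cast_nonneg _) hτ1
        exact mul_le_mul_of_nonneg_right this hδ.le
      linarith
    have h3 : 0 ≤ s * Cg * δ + τ * L * δ := by positivity
    calc C1 * Cg * (δ ^ 2 * (A.card : ℝ)) * (s * Cg * δ + τ * L * δ) ≤
        C1 * Cg * Kf * ((s * Cg + L) * δ) := by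
          refine mul_le_mul ?_ h2 h3 (by positivity)
          exact mul_le_mul_of_nonneg_left h1 (by positivity)
      _ ≤ M * δ := by
          rw [hM]
          nlinarith
      _ ≤ ε := by
          have := (lt_div_iff₀ hM0).1 hd4
          linarith

/- END tgf -/

end Pool.Agent.Hmk
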