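import Pool.Agent.Hmk.Fc

/-!
# Hmk, second part: the local functional `Th` (Theta)

1. abstract lemmas on `sup (l v - Q v v)`;
2. the vector space `LN S B` of box fields, the forms, boundedness of the fibre functional.
-/

set_option autoImplicit false

open MeasureTheory Set
open scoped ENNReal ContDiff

noncomputable section

namespace Pool.Agent.Hmk

section Abs

variable {E : Type*} [AddCommGroup E] [Module ℝ E]

/- MODULE qga
Abstract Euler-Lagrange defect.  `J u = l u - Q u u ≤ S` for all `u` and `J v ≥ S - δ²`: expand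
`J (v + t u) = J v + t (l u - 2 Q v u) - t² Q u u ≤ J v + δ²` for all real `t`, so
`(l u - 2 Q v u)² ≤ 4 δ² Q u u`.  Conversely expand `J u = J (v + (u - v))`. -/
private theorem qga_exp (Q : E →ₗ[ℝ] E →ₗ[ℝ] ℝ) (hs : ∀ u v, Q u v = Q v u) (v u : E) (t : ℝ) :
    Q (v + t • u) (v + t • u) = Q v v + 2 * t * Q v u + t ^ 2 * Q u u := by
  simp only [map_add, map_smul, LinearMap.add_apply, LinearMap.smul_apply, smul_eq_mul]
  rw [hs u v]
  ring

theorem abs_el (Q : E →ₗ[ℝ] E →ₗ[ℝ] ℝ) (hs : ∀ u v, Q u v = Q v u) (h0 : ∀ u, 0 ≤ Q u u)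
    (l : E →ₗ[ℝ] ℝ) {S δ : ℝ} (hδ : 0 ≤ δ) (hS : ∀ u, l u - Q u u ≤ S) {v : E}
    (hv : S - δ ^ 2 ≤ l v - Q v v) (u : E) : |l u - 2 * Q v u| ≤ 2 * δ * Real.sqrt (Q u u) := by
  have key : ∀ t : ℝ, 0 ≤ Q u u * (t * t) + (-(l u - 2 * Q v u)) * t + δ ^ 2 := by
    intro t
    have h1 := hS (v + t • u)
    rw [qga_exp Q hs v u t, map_add, map_smul, smul_eq_mul] at h1
    nlinarith
  have h2 := discrim_le_zero key
  unfold discrim at h2
  refine abs_le_of_sq_le_sq ?_ (by positivity)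
  rw [mul_pow, Real.sq_sqrt (h0 u)]
  nlinarith

theorem abs_el_conv (Q : E →ₗ[ℝ] E →ₗ[ℝ] ℝ) (hs : ∀ u v, Q u v = Q v u)
    (h0 : ∀ u, 0 ≤ Q u u) (l : E →ₗ[ℝ] ℝ) {δ : ℝ} (hδ : 0 ≤ δ) {v : E}
    (hv : ∀ u, |l u - 2 * Q v u| ≤ 2 * δ * Real.sqrt (Q u u)) (u : E) :
    l u - Q u u ≤ l v - Q v v + δ ^ 2 := by
  have h1 := hv (u - v)
  have h2 := (abs_le.1 h1).2
  have h3 := qga_exp Q hs v (u - v) 1
  have h4 : v + (1 : ℝ) • (u - v) = u := by rw [one_smul]; abel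
  rw [h4] at h3
  have h5 := Real.sq_sqrt (h0 (u - v))
  have h6 : l (u - v) = l u - l v := map_sub l u v
  rw [h6] at h2
  nlinarith [sq_nonneg (Real.sqrt (Q (u - v) (u - v)) - δ)]
/- END qga -/

/- MODULE qgb
Linear combinations of near-maximisers are near-maximisers: `abs_el` for `v0`, `v1` with
`δ0 = √(S (1,0) - J v0)`, `δ1`, the triangle inequality and `abs_el_conv` with
`δ = |d.1| δ0 + |d.2| δ1`, `(a + b)² ≤ 2 a² + 2 b²`. -/
theorem abs_comb (Q : E →ₗ[ℝ] E →ₗ[ℝ] ℝ) (hs : ∀ u v, Q u v = Q v u) (h0 : ∀ u, 0 ≤ Q u u)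
    (l0 l1 : E →ₗ[ℝ] ℝ) (S : ℝ × ℝ → ℝ)
    (hS : ∀ d : ℝ × ℝ, IsLUB (range fun u : E => d.1 * l0 u + d.2 * l1 u - Q u u) (S d))
    (v0 v1 : E) (d : ℝ × ℝ) :
    S d - (d.1 * l0 (d.1 • v0 + d.2 • v1) + d.2 * l1 (d.1 • v0 + d.2 • v1) -
      Q (d.1 • v0 + d.2 • v1) (d.1 • v0 + d.2 • v1)) ≤
      2 * (d.1 ^ 2 * (S (1, 0) - (l0 v0 - Q v0 v0)) + d.2 ^ 2 * (S (0, 1) - (l1 v1 - Q v1 v1))) := by
  have hS0 : ∀ u, l0 u - Q u u ≤ S (1, 0) := by
    intro u
    have := (hS (1, 0)).1 ⟨u, rfl⟩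
    simpa using this
  have hS1 : ∀ u, l1 u - Q u u ≤ S (0, 1) := by
    intro u
    have := (hS (0, 1)).1 ⟨u, rfl⟩
    simpa using this
  obtain ⟨a, ha, ha2⟩ : ∃ a : ℝ, 0 ≤ a ∧ a ^ 2 = S (1, 0) - (l0 v0 - Q v0 v0) :=
    ⟨Real.sqrt (S (1, 0) - (l0 v0 - Q v0 v0)), Real.sqrt_nonneg _,
      Real.sq_sqrt (sub_nonneg.2 (hS0 v0))⟩
  obtain ⟨b, hb, hb2⟩ : ∃ b : ℝ, 0 ≤ b ∧ b ^ 2 = S (0, 1) - (l1 v1 - Q v1 v1) :=
    ⟨Real.sqrt (S (0, 1) - (l1 v1 - Q v1 v1)), Real.sqrt_nonneg _,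
      Real.sq_sqrt (sub_nonneg.2 (hS1 v1))⟩
  have e0 := abs_el Q hs h0 l0 ha hS0 (v := v0) (by linarith)
  have e1 := abs_el Q hs h0 l1 hb hS1 (v := v1) (by linarith)
  have e2 : ∀ u, |(d.1 • l0 + d.2 • l1) u - 2 * Q (d.1 • v0 + d.2 • v1) u| ≤
      2 * (|d.1| * a + |d.2| * b) * Real.sqrt (Q u u) := by
    intro u
    have r : (d.1 • l0 + d.2 • l1) u - 2 * Q (d.1 • v0 + d.2 • v1) u =
        d.1 * (l0 u - 2 * Q v0 u) + d.2 * (l1 u - 2 * Q v1 u) := by
      simp only [map_add, map_smul, LinearMap.add_apply, LinearMap.smul_apply, smul_eq_mul]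
      ring
    rw [r]
    calc |d.1 * (l0 u - 2 * Q v0 u) + d.2 * (l1 u - 2 * Q v1 u)|
        ≤ |d.1| * |l0 u - 2 * Q v0 u| + |d.2| * |l1 u - 2 * Q v1 u| := by
          rw [← abs_mul, ← abs_mul]; exact abs_add_le _ _
      _ ≤ |d.1| * (2 * a * Real.sqrt (Q u u)) + |d.2| * (2 * b * Real.sqrt (Q u u)) :=
          add_le_add (mul_le_mul_of_nonneg_left (e0 u) (abs_nonneg _))
            (mul_le_mul_of_nonneg_left (e1 u) (abs_nonneg _))
      _ = _ := by ring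
  have e3 := abs_el_conv Q hs h0 (d.1 • l0 + d.2 • l1)
    (add_nonneg (mul_nonneg (abs_nonneg _) ha) (mul_nonneg (abs_nonneg _) hb)) e2
  have e4 : S d ≤ (d.1 • l0 + d.2 • l1) (d.1 • v0 + d.2 • v1) -
      Q (d.1 • v0 + d.2 • v1) (d.1 • v0 + d.2 • v1) + (|d.1| * a + |d.2| * b) ^ 2 := by
    refine (hS d).2 ?_
    rintro _ ⟨u, rfl⟩
    have := e3 u
    simpa only [LinearMap.add_apply, LinearMap.smul_apply, smul_eq_mul] using this
  have e5 : (|d.1| * a + |d.2| * b) ^ 2 ≤ 2 * (d.1 ^ 2 * a ^ 2 + d.2 ^ 2 * b ^ 2) := by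
    rw [← sq_abs d.1, ← sq_abs d.2]
    nlinarith [sq_nonneg (|d.1| * a - |d.2| * b)]
  rw [← ha2, ← hb2]
  simp only [LinearMap.add_apply, LinearMap.smul_apply, smul_eq_mul] at e4
  linarith
/- END qgb -/

/- MODULE qgc
The supremum is a quadratic polynomial of `d`: for near-maximisers `v0`, `v1` (defects `≤ δ²`) the
value `J_d (d.1 v0 + d.2 v1)` is a quadratic polynomial `P` of `d`, and `|S d - P d| ≤ C_d δ²` by
`abs_comb`; apply this to `d`, `(1,0)`, `(0,1)`, `(1,1)` and let `δ → 0`. -/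
private theorem qgc_P (Q : E →ₗ[ℝ] E →ₗ[ℝ] ℝ) (hs : ∀ u v, Q u v = Q v u)
    (l0 l1 : E →ₗ[ℝ] ℝ) (v0 v1 : E) (d : ℝ × ℝ) :
    (d.1 * l0 (d.1 • v0 + d.2 • v1) + d.2 * l1 (d.1 • v0 + d.2 • v1) -
      Q (d.1 • v0 + d.2 • v1) (d.1 • v0 + d.2 • v1)) =
    d.1 ^ 2 * (l0 v0 - Q v0 v0) + d.2 ^ 2 * (l1 v1 - Q v1 v1) +
      d.1 * d.2 * (l0 v1 + l1 v0 - 2 * Q v0 v1) := by
  simp only [map_add, map_smul, LinearMap.add_apply, LinearMap.smul_apply, smul_eq_mul]
  rw [hs v1 v0]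
  ring

theorem abs_quad (Q : E →ₗ[ℝ] E →ₗ[ℝ] ℝ) (hs : ∀ u v, Q u v = Q v u) (h0 : ∀ u, 0 ≤ Q u u)
    (l0 l1 : E →ₗ[ℝ] ℝ) (S : ℝ × ℝ → ℝ)
    (hS : ∀ d : ℝ × ℝ, IsLUB (range fun u : E => d.1 * l0 u + d.2 * l1 u - Q u u) (S d))
    (d : ℝ × ℝ) :
    S d = d.1 ^ 2 * S (1, 0) + d.2 ^ 2 * S (0, 1) +
      d.1 * d.2 * (S (1, 1) - S (1, 0) - S (0, 1)) := by
  set X : ℝ := S d - (d.1 ^ 2 * S (1, 0) + d.2 ^ 2 * S (0, 1) +
      d.1 * d.2 * (S (1, 1) - S (1, 0) - S (0, 1))) with hX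
  set C : ℝ := 2 * (d.1 ^ 2 + d.2 ^ 2) + d.1 ^ 2 + d.2 ^ 2 + 6 * |d.1 * d.2| with hC
  have hC0 : 0 ≤ C := by positivity
  have key : ∀ ε : ℝ, 0 < ε → |X| ≤ C * ε := by
    intro ε hε
    obtain ⟨_, ⟨v0, rfl⟩, hv0, hv0'⟩ := (hS (1, 0)).exists_between
      (show S (1, 0) - ε < S (1, 0) by linarith)
    obtain ⟨_, ⟨v1, rfl⟩, hv1, hv1'⟩ := (hS (0, 1)).exists_between
      (show S (0, 1) - ε < S (0, 1) by linarith)
    simp only [one_mul, zero_mul, add_zero, zero_add] at hv0 hv0' hv1 hv1'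
    have low : ∀ d : ℝ × ℝ, d.1 ^ 2 * (l0 v0 - Q v0 v0) + d.2 ^ 2 * (l1 v1 - Q v1 v1) +
      d.1 * d.2 * (l0 v1 + l1 v0 - 2 * Q v0 v1) ≤ S d := by
      intro d
      have := (hS d).1 ⟨d.1 • v0 + d.2 • v1, rfl⟩
      simp only at this
      rw [qgc_P Q hs l0 l1 v0 v1 d] at this
      exact this
    have upp : ∀ d : ℝ × ℝ, S d ≤ d.1 ^ 2 * (l0 v0 - Q v0 v0) + d.2 ^ 2 * (l1 v1 - Q v1 v1) +
      d.1 * d.2 * (l0 v1 + l1 v0 - 2 * Q v0 v1) + 2 * (d.1 ^ 2 + d.2 ^ 2) * ε := by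
      intro d
      have := abs_comb Q hs h0 l0 l1 S hS v0 v1 d
      rw [qgc_P Q hs l0 l1 v0 v1 d] at this
      have h1 : d.1 ^ 2 * (S (1, 0) - (l0 v0 - Q v0 v0)) ≤ d.1 ^ 2 * ε :=
        mul_le_mul_of_nonneg_left (by linarith) (sq_nonneg _)
      have h2 : d.2 ^ 2 * (S (0, 1) - (l1 v1 - Q v1 v1)) ≤ d.2 ^ 2 * ε :=
        mul_le_mul_of_nonneg_left (by linarith) (sq_nonneg _)
      linarith
    set A := l0 v0 - Q v0 v0 with hA
    set B := l1 v1 - Q v1 v1 with hB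
    set M := l0 v1 + l1 v0 - 2 * Q v0 v1 with hM
    have l11 := low (1, 1)
    have u11 := upp (1, 1)
    have ld := low d
    have ud := upp d
    simp only [one_pow, one_mul] at l11 u11
    have eX : X = (S d - (d.1 ^ 2 * A + d.2 ^ 2 * B + d.1 * d.2 * M)) -
        (d.1 ^ 2 * (S (1, 0) - A) + d.2 ^ 2 * (S (0, 1) - B) +
          (d.1 * d.2) * ((S (1, 1) - (A + B + M)) - (S (1, 0) - A) - (S (0, 1) - B))) := by
      rw [hX]; ring
    have b1 : |S d - (d.1 ^ 2 * A + d.2 ^ 2 * B + d.1 * d.2 * M)| ≤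
        2 * (d.1 ^ 2 + d.2 ^ 2) * ε := by
      rw [abs_le]; constructor
      · have : 0 ≤ 2 * (d.1 ^ 2 + d.2 ^ 2) * ε := by positivity
        linarith
      · linarith
    have b2 : |d.1 ^ 2 * (S (1, 0) - A)| ≤ d.1 ^ 2 * ε := by
      rw [abs_of_nonneg (mul_nonneg (sq_nonneg _) (by linarith))]
      exact mul_le_mul_of_nonneg_left (by linarith) (sq_nonneg _)
    have b3 : |d.2 ^ 2 * (S (0, 1) - B)| ≤ d.2 ^ 2 * ε := by
      rw [abs_of_nonneg (mul_nonneg (sq_nonneg _) (by linarith))]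
      exact mul_le_mul_of_nonneg_left (by linarith) (sq_nonneg _)
    have b4 : |(d.1 * d.2) * ((S (1, 1) - (A + B + M)) - (S (1, 0) - A) - (S (0, 1) - B))| ≤
        |d.1 * d.2| * (6 * ε) := by
      rw [abs_mul]
      refine mul_le_mul_of_nonneg_left ?_ (abs_nonneg _)
      rw [abs_le]; constructor <;> linarith
    rw [eX]
    calc _ ≤ |S d - (d.1 ^ 2 * A + d.2 ^ 2 * B + d.1 * d.2 * M)| +
        |d.1 ^ 2 * (S (1, 0) - A) + d.2 ^ 2 * (S (0, 1) - B) +
          (d.1 * d.2) * ((S (1, 1) - (A + B + M)) - (S (1, 0) - A) - (S (0, 1) - B))| :=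
          abs_sub _ _
      _ ≤ |S d - (d.1 ^ 2 * A + d.2 ^ 2 * B + d.1 * d.2 * M)| +
        (|d.1 ^ 2 * (S (1, 0) - A)| + |d.2 ^ 2 * (S (0, 1) - B)| +
          |(d.1 * d.2) * ((S (1, 1) - (A + B + M)) - (S (1, 0) - A) - (S (0, 1) - B))|) := by
          gcongr
          exact (abs_add_le _ _).trans (add_le_add (abs_add_le _ _) le_rfl)
      _ ≤ C * ε := by
          rw [hC]
          linarith
  have hX0 : |X| ≤ 0 := by
    refine le_of_forall_pos_le_add ?_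
    intro ε hε
    have := key (ε / (C + 1)) (by positivity)
    have h2 : C * (ε / (C + 1)) ≤ ε := by
      rw [mul_div_assoc', div_le_iff₀ (by positivity)]
      nlinarith
    linarith
  have := abs_nonpos_iff.1 hX0
  linarith
/- END qgc -/

/- MODULE qgd
Parallelogram: `J ((u+v)/2) = J u / 2 + J v / 2 + Q (v-u) (v-u) / 4`.  And the energy of a
near-maximiser: if `s l - s² e ≤ T` for all `s` then `|e - T| ≤ def + 2 √(T def)`,
`def = T - (l - e)`: `l² ≤ 4 e T` (for `e = 0` this forces `l = 0`), i.e.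
`(T - def + e)² ≤ 4 e T`, i.e. `(e - T - def)² ≤ 4 T def`. -/
theorem abs_par (Q : E →ₗ[ℝ] E →ₗ[ℝ] ℝ) (hs : ∀ u v, Q u v = Q v u)
    (l : E →ₗ[ℝ] ℝ) {S : ℝ} (hS : ∀ u, l u - Q u u ≤ S) (v u : E) :
    Q (v - u) (v - u) ≤ 2 * (S - (l v - Q v v)) + 2 * (S - (l u - Q u u)) := by
  have h1 := hS ((1 / 2 : ℝ) • v + (1 / 2 : ℝ) • u)
  simp only [map_add, map_smul, map_sub, LinearMap.sub_apply, LinearMap.add_apply,
    LinearMap.smul_apply, smul_eq_mul] at h1 ⊢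
  rw [hs u v] at h1 ⊢
  linarith

theorem abs_energy {l e T : ℝ} (he : 0 ≤ e) (h : ∀ s : ℝ, s * l - s ^ 2 * e ≤ T) :
    |e - T| ≤ (T - (l - e)) + 2 * Real.sqrt (T * (T - (l - e))) := by
  have hT : 0 ≤ T := by have := h 0; simpa using this
  have hd : 0 ≤ T - (l - e) := by have := h 1; simp at this; linarith
  have h2 : l ^ 2 ≤ 4 * e * T := by
    have key : ∀ t : ℝ, 0 ≤ e * (t * t) + (-l) * t + T := by
      intro t
      have := h t
      nlinarith
    have := discrim_le_zero key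
    unfold discrim at this
    nlinarith
  have h3 : |e - T - (T - (l - e))| ≤ 2 * Real.sqrt (T * (T - (l - e))) := by
    refine abs_le_of_sq_le_sq ?_ (by positivity)
    rw [mul_pow, Real.sq_sqrt (mul_nonneg hT hd)]
    nlinarith
  rw [abs_le] at h3 ⊢
  constructor <;> linarith [h3.1, h3.2]
/- END qgd -/

end Abs

/- MODULE qha
Calculus of `pz`. -/
theorem pz_add {S : Finset (ℤ × ℤ)} {y : ℤ × ℤ} {f g : (S → ℝ) → ℝ} {k : S → ℝ}
    (hf : DifferentiableAt ℝ f k) (hg : DifferentiableAt ℝ g k) :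
    pz S y (fun k => f k + g k) k = pz S y f k + pz S y g k := by
  unfold pz
  split_ifs with hy
  · unfold pd
    rw [fderiv_fun_add hf hg]
    rfl
  · simp

theorem pz_smul {S : Finset (ℤ × ℤ)} {y : ℤ × ℤ} {f : (S → ℝ) → ℝ} {k : S → ℝ} (t : ℝ)
    (hf : DifferentiableAt ℝ f k) : pz S y (fun k => t * f k) k = t * pz S y f k := by
  unfold pz
  split_ifs with hy
  · unfold pd
    rw [fderiv_const_mul hf t]
    rfl
  · simp

theorem pzm_mul {S : Finset (ℤ × ℤ)} {y : ℤ × ℤ} {f g : (S → ℝ) → ℝ} {k : S → ℝ}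
    (hf : DifferentiableAt ℝ f k) (hg : DifferentiableAt ℝ g k) :
    pz S y (fun k => f k * g k) k = pz S y f k * g k + f k * pz S y g k := by
  unfold pz
  split_ifs with hy
  · exact pd_mul hf hg _
  · simp

theorem pz_comp {S : Finset (ℤ × ℤ)} {y : ℤ × ℤ} {f : (S → ℝ) → ℝ} {φ : ℝ → ℝ} {k : S → ℝ}
    (hf : DifferentiableAt ℝ f k) (hφ : DifferentiableAt ℝ φ (f k)) :
    pz S y (fun k => φ (f k)) k = deriv φ (f k) * pz S y f k := by
  unfold pz
  split_ifs with hy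
  · unfold pd
    have h1 : HasFDerivAt (fun k => φ (f k)) (deriv φ (f k) • fderiv ℝ f k) k :=
      hφ.hasDerivAt.comp_hasFDerivAt k hf.hasFDerivAt
    rw [h1.fderiv]
    rfl
  · simp

theorem pzs_smooth {S : Finset (ℤ × ℤ)} {y : ℤ × ℤ} {f : (S → ℝ) → ℝ} (hf : ContDiff ℝ ∞ f) :
    ContDiff ℝ ∞ (pz S y f) := by
  unfold pz
  split_ifs with hy
  · unfold pd
    exact (hf.fderiv_right (m := ∞) (by simp)).clm_apply contDiff_const
  · exact contDiff_const

theorem pz_cont {S : Finset (ℤ × ℤ)} {y : ℤ × ℤ} {f : (S → ℝ) → ℝ} (hf : ContDiff ℝ 1 f) :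
    Continuous (pz S y f) := by
  unfold pz
  split_ifs with hy
  · unfold pd
    exact (hf.continuous_fderiv (by norm_num)).clm_apply continuous_const
  · exact continuous_const

/-- the height at a site -/
theorem pz_gl {S : Finset (ℤ × ℤ)} (c : ℤ × ℤ → ℝ) (y z : ℤ × ℤ) (k : S → ℝ) :
    pz S y (fun k => gl S c k z) k = if y = z ∧ z ∈ S then 1 else 0 := by
  unfold pz gl
  by_cases hz : z ∈ S
  · simp only [dif_pos hz]
    by_cases hy : y ∈ S
    · rw [dif_pos hy]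
      unfold pd
      have h1 : HasFDerivAt (fun k : S → ℝ => k ⟨z, hz⟩)
          (ContinuousLinearMap.proj (R := ℝ) (φ := fun _ : S => ℝ) ⟨z, hz⟩) k :=
        (ContinuousLinearMap.proj (R := ℝ) (φ := fun _ : S => ℝ) ⟨z, hz⟩).hasFDerivAt
      rw [h1.fderiv, ContinuousLinearMap.proj_apply]
      by_cases hyz : y = z
      · subst hyz
        rw [Pi.single_eq_same, if_pos ⟨rfl, hz⟩]
      · rw [Pi.single_eq_of_ne, if_neg (fun h => hyz h.1)]
        intro h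
        exact hyz (Subtype.ext_iff.1 h).symm
    · rw [dif_neg hy, if_neg]
      rintro ⟨h1, h2⟩
      exact hy (h1 ▸ h2)
  · simp only [dif_neg hz]
    rw [if_neg (fun h => hz h.2)]
    split_ifs with hy
    · unfold pd
      simp
    · rfl

theorem gls_smooth (S : Finset (ℤ × ℤ)) (c : ℤ × ℤ → ℝ) (z : ℤ × ℤ) :
    ContDiff ℝ ∞ (fun k : S → ℝ => gl S c k z) := by
  unfold gl
  split_ifs with hz
  · exact contDiff_apply ℝ ℝ (⟨z, hz⟩ : S)
  · exact contDiff_const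
/- END qha -/

/- MODULE qhb
`LNice` is stable under linear combinations; membership lemmas for `inn`, `nb`, `tr`, `bx`. -/
theorem LNice.zero (S B : Finset (ℤ × ℤ)) : LNice S B 0 := by
  refine ⟨fun z => contDiff_const, ⟨1, one_pos, ?_⟩⟩
  intro z _ i _ k _
  rfl

theorem LNice.add {S B : Finset (ℤ × ℤ)} {v u : ℤ × ℤ → (S → ℝ) → ℝ} (hv : LNice S B v)
    (hu : LNice S B u) : LNice S B (v + u) := by
  obtain ⟨ε, hε, h1⟩ := hv.tie
  obtain ⟨ε', hε', h2⟩ := hu.tie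
  refine ⟨fun z => (hv.sm z).add (hu.sm z), ⟨min ε ε', lt_min hε hε', ?_⟩⟩
  intro z hz i hzi k hk
  show v z k + u z k = v (z + st i) k + u (z + st i) k
  have m1 := min_le_left ε ε'
  have m2 := min_le_right ε ε'
  rw [h1 z hz i hzi k (by linarith), h2 z hz i hzi k (by linarith)]

theorem LNice.smul {S B : Finset (ℤ × ℤ)} {v : ℤ × ℤ → (S → ℝ) → ℝ} (t : ℝ)
    (hv : LNice S B v) : LNice S B (t • v) := by
  obtain ⟨ε, hε, h1⟩ := hv.tie
  refine ⟨fun z => (hv.sm z).const_smul t, ⟨ε, hε, ?_⟩⟩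
  intro z hz i hzi k hk
  show t * v z k = t * v (z + st i) k
  rw [h1 z hz i hzi k hk]

theorem LNice.mono {S B B' : Finset (ℤ × ℤ)} {v : ℤ × ℤ → (S → ℝ) → ℝ} (hv : LNice S B v)
    (h : B' ⊆ B) : LNice S B' v := by
  obtain ⟨ε, hε, h1⟩ := hv.tie
  exact ⟨hv.sm, ⟨ε, hε, fun z hz i hzi k hk => h1 z (h hz) i (h hzi) k hk⟩⟩

theorem mem_inn {B : Finset (ℤ × ℤ)} {r : ℕ} {x : ℤ × ℤ} :
    x ∈ inn B r ↔ ∀ z : ℤ × ℤ, dn (z - x) ≤ r → z ∈ B := by
  unfold inn
  simp only [Finset.mem_filter]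
  refine ⟨fun h => h.2, fun h => ⟨h x ?_, h⟩⟩
  rw [sub_self, (dn_zero_iff 0).2 rfl]
  positivity

theorem mem_nb {B : Finset (ℤ × ℤ)} {x : ℤ × ℤ} :
    x ∈ nb B ↔ x ∈ B ∨ ∃ i : Fin 6, x + st i ∈ B := by
  unfold nb
  simp only [Finset.mem_union, Finset.mem_biUnion, Finset.mem_image, Finset.mem_univ, true_and]
  have h3 : ∀ i : Fin 6, st (i + 3) = - st i := by
    intro i; fin_cases i <;> rfl
  constructor
  · rintro (h | ⟨y, hy, i, rfl⟩)
    · exact Or.inl h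
    · refine Or.inr ⟨i + 3, ?_⟩
      rw [h3 i, add_neg_cancel_right]
      exact hy
  · rintro (h | ⟨i, hi⟩)
    · exact Or.inl h
    · refine Or.inr ⟨x + st i, hi, i + 3, ?_⟩
      rw [h3 i, add_neg_cancel_right]

theorem mem_tr {B : Finset (ℤ × ℤ)} {x z : ℤ × ℤ} : z ∈ tr x B ↔ z - x ∈ B := by
  unfold tr
  simp only [Finset.mem_image]
  constructor
  · rintro ⟨w, hw, rfl⟩
    rw [add_sub_cancel_left]
    exact hw
  · intro h
    exact ⟨z - x, h, by abel⟩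

theorem inn_tr (B : Finset (ℤ × ℤ)) (r : ℕ) (x : ℤ × ℤ) : inn (tr x B) r = tr x (inn B r) := by
  ext z
  rw [mem_tr, mem_inn, mem_inn]
  constructor
  · intro h w hw
    have := h (w + x) (by rwa [show w + x - z = w - (z - x) by abel])
    rw [mem_tr, add_sub_cancel_right] at this
    exact this
  · intro h w hw
    rw [mem_tr]
    refine h (w - x) ?_
    rwa [show w - x - (z - x) = w - z by abel]

theorem Nice.lnice {D : Finset (ℤ × ℤ)} {b : ℤ × ℤ → ℝ} {w : ℤ × ℤ → (D → ℝ) → ℝ}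
    (hw : Nice D b w) {B : Finset (ℤ × ℤ)} (hB : B ⊆ D) : LNice D B w := by
  obtain ⟨ε, hε, h1⟩ := hw.tie
  refine ⟨hw.sm, ⟨ε, hε, ?_⟩⟩
  intro z hz i hzi k hk
  refine h1 z (hB hz) i k ?_
  have e1 : gl D b k z = g0 D k z := by
    unfold g0 gl; rw [dif_pos (hB hz), dif_pos (hB hz)]
  have e2 : gl D b k (z + st i) = g0 D k (z + st i) := by
    unfold g0 gl; rw [dif_pos (hB hzi), dif_pos (hB hzi)]
  rw [e1, e2]
  exact hk
/- END qhb -/

/-- the vector space of box fields -/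
def LN (S B : Finset (ℤ × ℤ)) : Submodule ℝ (ℤ × ℤ → (S → ℝ) → ℝ) where
  carrier := {v | LNice S B v}
  add_mem' := fun hv hu => LNice.add hv hu
  zero_mem' := LNice.zero S B
  smul_mem' := fun t _ hv => LNice.smul t hv

/- MODULE qhc
Gates: `0 ≤ gt ≤ 1`, measurable, local (depend only on the sites in the ball of radius `m` about
`x`, and `x + st i`; `1 ≤ m` or not, these sites lie in `ba x (m + 1)`), shift invariant, translation
covariant. -/
theorem gt_mem (m : ℕ) (x : ℤ × ℤ) (i : Fin 6) (H : ℤ × ℤ → ℝ) :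
    gt m x i H = 0 ∨ gt m x i H = 1 := by
  unfold gt
  split_ifs
  · exact Or.inr rfl
  · exact Or.inl rfl

private theorem qhc_congr {m m' : ℕ} {x x' : ℤ × ℤ} {i i' : Fin 6} {H H' : ℤ × ℤ → ℝ}
    (h1 : up m x (x + st i) H ↔ up m' x' (x' + st i') H')
    (h2 : up m x (x + st i) (fun z => - H z) ↔ up m' x' (x' + st i') (fun z => - H' z)) :
    gt m x i H = gt m' x' i' H' := by
  unfold gt
  by_cases h : up m x (x + st i) H ∨ up m x (x + st i) (fun z => - H z)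
  · rw [if_pos h, if_pos]
    rwa [h1, h2] at h
  · rw [if_neg h, if_neg]
    rwa [h1, h2] at h

private theorem qhc_up (m : ℕ) (u v : ℤ × ℤ) {α : Type*} [MeasurableSpace α]
    {F : α → ℤ × ℤ → ℝ} (hF : ∀ z, Measurable fun a => F a z) :
    MeasurableSet {a | up m u v (F a)} := by
  have : {a | up m u v (F a)} = ⋂ z : ℤ × ℤ, ⋂ (_ : dn (z - u) = m),
      {a | 1 / 2 ≤ F a z - F a v - 1 + m} := by
    ext a
    simp only [up, mem_ofPred_eq, mem_iInter]
  rw [this]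
  exact MeasurableSet.iInter fun z => MeasurableSet.iInter fun _ =>
    measurableSet_le measurable_const ((((hF z).sub (hF v)).sub measurable_const).add
      measurable_const)

theorem gt_meas (S : Finset (ℤ × ℤ)) (c : ℤ × ℤ → ℝ) (m : ℕ) (x : ℤ × ℤ) (i : Fin 6) :
    Measurable (fun k : S → ℝ => gt m x i (gl S c k)) := by
  unfold gt
  exact Measurable.ite ((qhc_up m x (x + st i) fun z => gl_meas S c z).union
    (qhc_up m x (x + st i) (F := fun k : S → ℝ => fun z => - gl S c k z)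
      fun z => (gl_meas S c z).neg)) measurable_const measurable_const

private theorem qhc_loc {m : ℕ} {x : ℤ × ℤ} {i : Fin 6} {H H' : ℤ × ℤ → ℝ}
    (h : ∀ z, dn (z - x) ≤ (m : ℤ) + 1 → H z = H' z) (hu : up m x (x + st i) H) :
    up m x (x + st i) H' := by
  intro z hz
  have h1 : H z = H' z := h z (by rw [hz]; linarith)
  have h2 : H (x + st i) = H' (x + st i) := by
    refine h _ ?_
    rw [add_sub_cancel_left]
    have h3 : dn (st i) = 1 := by
      fin_cases i <;> simp [dn, st]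
    rw [h3]
    have h4 : (0 : ℤ) ≤ m := Int.natCast_nonneg m
    linarith
  have h3 := hu z hz
  rwa [h1, h2] at h3

theorem gt_loc {m : ℕ} {x : ℤ × ℤ} {i : Fin 6} {H H' : ℤ × ℤ → ℝ}
    (h : ∀ z, dn (z - x) ≤ (m : ℤ) + 1 → H z = H' z) : gt m x i H = gt m x i H' := by
  refine qhc_congr ⟨qhc_loc h, qhc_loc fun z hz => (h z hz).symm⟩ ⟨qhc_loc fun z hz => ?_,
    qhc_loc fun z hz => ?_⟩
  · show - H z = - H' z
    rw [h z hz]
  · show - H' z = - H z
    rw [h z hz]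

theorem gt_shift (m : ℕ) (x : ℤ × ℤ) (i : Fin 6) (H : ℤ × ℤ → ℝ) (t : ℝ) :
    gt m x i (fun z => H z + t) = gt m x i H := by
  refine qhc_congr ?_ ?_
  · refine forall₂_congr fun z _ => ?_
    have e : H z + t - (H (x + st i) + t) - 1 + (m : ℝ) = H z - H (x + st i) - 1 + m := by ring
    show 1 / 2 ≤ H z + t - (H (x + st i) + t) - 1 + (m : ℝ) ↔ _
    rw [e]
  · refine forall₂_congr fun z _ => ?_
    have e : - (H z + t) - -(H (x + st i) + t) - 1 + (m : ℝ) =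
        - H z - -H (x + st i) - 1 + m := by ring
    show 1 / 2 ≤ - (H z + t) - -(H (x + st i) + t) - 1 + (m : ℝ) ↔ _
    rw [e]

private theorem qhc_tr (m : ℕ) (x y : ℤ × ℤ) (i : Fin 6) (H : ℤ × ℤ → ℝ) :
    up m (y + x) (y + x + st i) H ↔ up m x (x + st i) (fun z => H (y + z)) := by
  constructor
  · intro h z hz
    have h1 := h (y + z) (by rwa [add_sub_add_left_eq_sub])
    rw [add_assoc y x (st i)] at h1
    exact h1
  · intro h z hz
    have h1 := h (z - y) (by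
      have e : z - y - x = z - (y + x) := by abel
      rwa [e])
    have h2 : 1 / 2 ≤ H (y + (z - y)) - H (y + (x + st i)) - 1 + (m : ℝ) := h1
    rwa [add_sub_cancel, ← add_assoc] at h2

theorem gt_tr (m : ℕ) (x y : ℤ × ℤ) (i : Fin 6) (H : ℤ × ℤ → ℝ) :
    gt m (y + x) i H = gt m x i (fun z => H (y + z)) :=
  qhc_congr (qhc_tr m x y i H) (qhc_tr m x y i fun z => - H z)
/- END qhc -/

/- MODULE qhd
The forms on the space of box fields.  `K S c` is closed and bounded (use the bound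
`∑ x ∈ S, ∑ i, |c (x + st i)|` and `K_bdd`), so continuous functions, also multiplied by the bounded
measurable gates, are integrable on it. -/
theorem K_compact (S : Finset (ℤ × ℤ)) (c : ℤ × ℤ → ℝ) : IsCompact (K S c) := by
  set B : ℝ := ∑ x ∈ S, ∑ i : Fin 6, |c (x + st i)| with hBdef
  have hB : 0 ≤ B := Finset.sum_nonneg fun x _ => Finset.sum_nonneg fun i _ => abs_nonneg _
  have hc : ∀ z, z ∉ S → (∃ x ∈ S, ∃ i, z = x + st i) → |c z| ≤ B := by
    rintro z - ⟨x, hx, i, rfl⟩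
    calc |c (x + st i)| ≤ ∑ i : Fin 6, |c (x + st i)| :=
          Finset.single_le_sum (f := fun i : Fin 6 => |c (x + st i)|)
            (fun i _ => abs_nonneg _) (Finset.mem_univ i)
      _ ≤ B := Finset.single_le_sum (f := fun x => ∑ i : Fin 6, |c (x + st i)|)
            (fun x _ => Finset.sum_nonneg fun i _ => abs_nonneg _) hx
  have hsub : K S c ⊆ Icc (fun _ => -(B + S.card)) (fun _ => B + S.card) := by
    intro h hh
    have h1 := K_bdd hB hc hh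
    exact ⟨fun x => (abs_le.1 (h1 x)).1, fun x => (abs_le.1 (h1 x)).2⟩
  exact isCompact_Icc.of_isClosed_subset (K_closed S c) hsub

theorem K_int {S : Finset (ℤ × ℤ)} {c : ℤ × ℤ → ℝ} {f g : (S → ℝ) → ℝ} (hf : Continuous f)
    (hg : Measurable g) {M : ℝ} (hM : ∀ k, |g k| ≤ M) : IntegrableOn (fun k => g k * f k) (K S c) := by
  have h1 : IntegrableOn f (K S c) := hf.continuousOn.integrableOn_compact (K_compact S c)
  exact h1.bdd_mul hg.aestronglyMeasurable (c := M) (Filter.Eventually.of_forall fun k => by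
    rw [Real.norm_eq_abs]
    exact hM k)

private theorem qhd_int {S : Finset (ℤ × ℤ)} {c : ℤ × ℤ → ℝ} {f : (S → ℝ) → ℝ}
    (hf : Continuous f) : IntegrableOn f (K S c) :=
  hf.continuousOn.integrableOn_compact (K_compact S c)

private theorem qhd_pz {S B : Finset (ℤ × ℤ)} (v : LN S B) (y x : ℤ × ℤ) :
    Continuous (pz S y (v.1 x)) :=
  pz_cont ((v.2.sm x).of_le (by exact_mod_cast le_top))

private theorem qhd_diff {S B : Finset (ℤ × ℤ)} (v : LN S B) (x : ℤ × ℤ) (k : S → ℝ) :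
    DifferentiableAt ℝ (v.1 x) k :=
  ((v.2.sm x).differentiable (by simp)).differentiableAt

private theorem qhd_add {S B : Finset (ℤ × ℤ)} (u v : LN S B) (y x : ℤ × ℤ) (k : S → ℝ) :
    pz S y ((u + v).1 x) k = pz S y (u.1 x) k + pz S y (v.1 x) k :=
  pz_add (qhd_diff u x k) (qhd_diff v x k)

private theorem qhd_smul {S B : Finset (ℤ × ℤ)} (t : ℝ) (v : LN S B) (y x : ℤ × ℤ) (k : S → ℝ) :
    pz S y ((t • v).1 x) k = t * pz S y (v.1 x) k :=
  pz_smul t (qhd_diff v x k)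

private def qhd_q {S B : Finset (ℤ × ℤ)} (u v : LN S B) (k : S → ℝ) : ℝ :=
  ∑ x ∈ B, ∑ y ∈ B, pz S y (u.1 x) k * pz S y (v.1 x) k

private theorem qhd_qc {S B : Finset (ℤ × ℤ)} (u v : LN S B) : Continuous (qhd_q u v) :=
  continuous_finsetSum _ fun x _ => continuous_finsetSum _ fun y _ =>
    (qhd_pz u y x).mul (qhd_pz v y x)

private theorem qhd_qs {S B : Finset (ℤ × ℤ)} (u v : LN S B) (k : S → ℝ) :
    qhd_q u v k = qhd_q v u k :=
  Finset.sum_congr rfl fun _ _ => Finset.sum_congr rfl fun _ _ => mul_comm _ _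

private theorem qhd_qa {S B : Finset (ℤ × ℤ)} (u u' v : LN S B) (k : S → ℝ) :
    qhd_q (u + u') v k = qhd_q u v k + qhd_q u' v k := by
  unfold qhd_q
  rw [← Finset.sum_add_distrib]
  refine Finset.sum_congr rfl fun x _ => ?_
  rw [← Finset.sum_add_distrib]
  refine Finset.sum_congr rfl fun y _ => ?_
  rw [qhd_add, add_mul]

private theorem qhd_qm {S B : Finset (ℤ × ℤ)} (t : ℝ) (u v : LN S B) (k : S → ℝ) :
    qhd_q (t • u) v k = t * qhd_q u v k := by
  unfold qhd_q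
  rw [Finset.mul_sum]
  refine Finset.sum_congr rfl fun x _ => ?_
  rw [Finset.mul_sum]
  refine Finset.sum_congr rfl fun y _ => ?_
  rw [qhd_smul, mul_assoc]

private def qhd_Q (S : Finset (ℤ × ℤ)) (c : ℤ × ℤ → ℝ) (B : Finset (ℤ × ℤ)) :
    LN S B →ₗ[ℝ] LN S B →ₗ[ℝ] ℝ :=
  LinearMap.mk₂ ℝ (fun u v => ∫ k in K S c, qhd_q u v k)
    (fun u u' v => by
      simp only [qhd_qa]
      exact integral_add (qhd_int (qhd_qc u v)) (qhd_int (qhd_qc u' v)))
    (fun t u v => by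
      simp only [qhd_qm, smul_eq_mul]
      exact integral_const_mul _ _)
    (fun u v v' => by
      simp only [qhd_qs u, qhd_qa]
      exact integral_add (qhd_int (qhd_qc v u)) (qhd_int (qhd_qc v' u)))
    (fun t u v => by
      simp only [qhd_qs u, qhd_qm, smul_eq_mul]
      exact integral_const_mul _ _)

private theorem qhd_ls (S : Finset (ℤ × ℤ)) (c : ℤ × ℤ → ℝ) (B : Finset (ℤ × ℤ)) (m : ℕ)
    (v : LN S B) (i : Fin 6) : IntegrableOn (sx S c B m v.1 i) (K S c) := by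
  unfold sx
  refine integrable_finsetSum _ fun x _ => ?_
  refine K_int (((v.2.sm (x + st i)).continuous).sub (v.2.sm x).continuous) (gt_meas S c m x i)
    (M := 1) fun k => ?_
  rcases gt_mem m x i (gl S c k) with h | h <;> rw [h] <;> simp

private theorem qhd_la (S : Finset (ℤ × ℤ)) (c : ℤ × ℤ → ℝ) (B : Finset (ℤ × ℤ)) (m : ℕ)
    (u v : LN S B) (i : Fin 6) (k : S → ℝ) :
    sx S c B m (u + v).1 i k = sx S c B m u.1 i k + sx S c B m v.1 i k := by
  unfold sx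
  rw [← Finset.sum_add_distrib]
  refine Finset.sum_congr rfl fun x _ => ?_
  have e : ∀ z, (u + v).1 z k = u.1 z k + v.1 z k := fun z => rfl
  rw [e, e]
  ring

private theorem qhd_lm (S : Finset (ℤ × ℤ)) (c : ℤ × ℤ → ℝ) (B : Finset (ℤ × ℤ)) (m : ℕ)
    (t : ℝ) (v : LN S B) (i : Fin 6) (k : S → ℝ) :
    sx S c B m (t • v).1 i k = t * sx S c B m v.1 i k := by
  unfold sx
  rw [Finset.mul_sum]
  refine Finset.sum_congr rfl fun x _ => ?_
  have e : ∀ z, (t • v).1 z k = t * v.1 z k := fun z => rfl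
  rw [e, e]
  ring

private def qhd_l (S : Finset (ℤ × ℤ)) (c : ℤ × ℤ → ℝ) (B : Finset (ℤ × ℤ)) (m : ℕ)
    (a : Fin 6 → ℝ) : LN S B →ₗ[ℝ] ℝ where
  toFun v := ∫ k in K S c, ∑ i, a i * sx S c B m v.1 i k
  map_add' u v := by
    have e : ∀ k, ∑ i, a i * sx S c B m (u + v).1 i k =
        ∑ i, a i * sx S c B m u.1 i k + ∑ i, a i * sx S c B m v.1 i k := by
      intro k
      rw [← Finset.sum_add_distrib]
      refine Finset.sum_congr rfl fun i _ => ?_
      rw [qhd_la]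
      ring
    simp only [e]
    exact integral_add (integrable_finsetSum _ fun i _ => (qhd_ls S c B m u i).const_mul _)
      (integrable_finsetSum _ fun i _ => (qhd_ls S c B m v i).const_mul _)
  map_smul' t v := by
    have e : ∀ k, ∑ i, a i * sx S c B m (t • v).1 i k =
        t * ∑ i, a i * sx S c B m v.1 i k := by
      intro k
      rw [Finset.mul_sum]
      refine Finset.sum_congr rfl fun i _ => ?_
      rw [qhd_lm]
      ring
    simp only [e, RingHom.id_apply, smul_eq_mul]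
    exact integral_const_mul _ _

theorem forms (S : Finset (ℤ × ℤ)) (c : ℤ × ℤ → ℝ) (B : Finset (ℤ × ℤ)) (m : ℕ) :
    ∃ (Q : LN S B →ₗ[ℝ] LN S B →ₗ[ℝ] ℝ) (l0 l1 : LN S B →ₗ[ℝ] ℝ),
      (∀ u v, Q u v = Q v u) ∧ (∀ u, 0 ≤ Q u u) ∧
      (∀ v : LN S B, Q v v = ∫ k in K S c, en S B v.1 k) ∧
      ∀ (d : ℝ × ℝ) (v : LN S B), ∫ k in K S c, Jf S c B m d v.1 k =
        d.1 * l0 v + d.2 * l1 v - Q v v := by
  have hen : ∀ (v : LN S B) k, qhd_q v v k = en S B v.1 k := fun v k =>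
    Finset.sum_congr rfl fun x _ => Finset.sum_congr rfl fun y _ => (sq _).symm
  have hQ : ∀ u v : LN S B, qhd_Q S c B u v = ∫ k in K S c, qhd_q u v k := fun u v => rfl
  have hQe : ∀ v : LN S B, qhd_Q S c B v v = ∫ k in K S c, en S B v.1 k := fun v => by
    rw [hQ]
    simp only [hen]
  refine ⟨qhd_Q S c B, qhd_l S c B m (fun i => ((st i).1 : ℝ)),
    qhd_l S c B m (fun i => ((st i).2 : ℝ)), fun u v => ?_, fun u => ?_, hQe, fun d v => ?_⟩
  · rw [hQ, hQ]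
    simp only [qhd_qs u v]
  · rw [hQe]
    exact integral_nonneg fun k => Finset.sum_nonneg fun x _ => Finset.sum_nonneg fun y _ =>
      sq_nonneg _
  · have hl : ∀ a : Fin 6 → ℝ, qhd_l S c B m a v = ∫ k in K S c, ∑ i, a i * sx S c B m v.1 i k :=
      fun a => rfl
    have hI : ∀ a : Fin 6 → ℝ, Integrable (fun k => ∑ i, a i * sx S c B m v.1 i k)
        (volume.restrict (K S c)) := fun a =>
      integrable_finsetSum _ fun i _ => (qhd_ls S c B m v i).const_mul _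
    have hE : Integrable (fun k => en S B v.1 k) (volume.restrict (K S c)) := by
      have h1 := qhd_int (c := c) (qhd_qc v v)
      have e : (fun k => en S B v.1 k) = qhd_q v v := funext fun k => (hen v k).symm
      rw [e]
      exact h1
    have e : ∀ k, Jf S c B m d v.1 k = d.1 * (∑ i, ((st i).1 : ℝ) * sx S c B m v.1 i k) +
        d.2 * (∑ i, ((st i).2 : ℝ) * sx S c B m v.1 i k) - en S B v.1 k := by
      intro k
      unfold Jf dc
      rw [Finset.mul_sum, Finset.mul_sum, ← Finset.sum_add_distrib]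
      congr 1
      refine Finset.sum_congr rfl fun i _ => ?_
      ring
    have hF : Integrable (fun k => d.1 * (∑ i, ((st i).1 : ℝ) * sx S c B m v.1 i k) +
        d.2 * (∑ i, ((st i).2 : ℝ) * sx S c B m v.1 i k)) (volume.restrict (K S c)) :=
      ((hI _).const_mul _).add ((hI _).const_mul _)
    rw [hl, hl, hQe, ← integral_const_mul, ← integral_const_mul,
      ← integral_add ((hI _).const_mul _) ((hI _).const_mul _), ← integral_sub hF hE]
    exact integral_congr_ae (Filter.Eventually.of_forall e)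
/- END qhd -/

/- MODULE qhe
Boundedness of the fibre functional, from `fc2`: for `x ∈ inn B (m + 2)` the ball `ba x m` and
`x + st i` lie in `B`, the function `g = v (x + st i) - v x` is tied, so
`∫ gt g² ≤ C_m ∫ ∑_y (pz g)² ≤ 2 C_m ∫ (∑_y (pz v_{x + st i})² + ∑_y (pz v_x)²)`; and
`|dc| gt |g| ≤ λ gt g² + dc² / (4 λ)` with `λ` small enough that the sum over `x`, `i` of the first
terms is at most half of the energy.  `∑ dc² = 2 qd`. -/
private theorem qhe_pzc {B : Finset (ℤ × ℤ)} {v : ℤ × ℤ → (B → ℝ) → ℝ} (hv : LNice B B v)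
    (y x : ℤ × ℤ) : Continuous (pz B y (v x)) :=
  pz_cont (contDiff_infty.1 (hv.sm x) 1)

private theorem qhe_pzsub {B : Finset (ℤ × ℤ)} {v : ℤ × ℤ → (B → ℝ) → ℝ} (hv : LNice B B v)
    (y x z : ℤ × ℤ) (k : B → ℝ) :
    pz B y (fun k => v z k - v x k) k = pz B y (v z) k - pz B y (v x) k := by
  have h1 : DifferentiableAt ℝ (v z) k := ((hv.sm z).differentiable (by simp)) k
  have h2 : DifferentiableAt ℝ (v x) k := ((hv.sm x).differentiable (by simp)) k
  have e1 : (fun k => v z k - v x k) = fun k => v z k + (fun k => (-1 : ℝ) * v x k) k := by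
    funext k
    ring
  rw [e1, pz_add h1 (h2.const_mul _), pz_smul (-1) h2]
  ring

private theorem qhe_one (m : ℕ) : ∃ C : ℝ, 0 ≤ C ∧ ∀ (B : Finset (ℤ × ℤ)) (β : ℤ × ℤ → ℝ)
    (v : ℤ × ℤ → (B → ℝ) → ℝ), LNice B B v → ∀ x ∈ inn B (m + 2), ∀ i : Fin 6,
    ∫ a in K B β, gt m x i (gl B β a) * (v (x + st i) a - v x a) ^ 2 ≤
      C * ∫ a in K B β, en B B v a := by
  obtain ⟨C, -, hC⟩ := fc2 m
  refine ⟨4 * |C|, by positivity, fun B β v hv x hx i => ?_⟩
  have hin := mem_inn.1 hx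
  have hxB : x ∈ B := hin x (by simp [dn]; positivity)
  have hsB : x + st i ∈ B := hin _ (by
    have h1 : x + st i - x = st i := by abel
    rw [h1, (dn_one_iff (st i)).2 ⟨i, rfl⟩]
    push_cast
    omega)
  have hba : ba x m ⊆ B := fun z hz => hin z (by
    have := mem_ba.1 hz
    push_cast
    omega)
  have hg : ContDiff ℝ 1 (fun a => v (x + st i) a - v x a) :=
    contDiff_infty.1 ((hv.sm (x + st i)).sub (hv.sm x)) 1
  obtain ⟨ε, hε, htie⟩ := hv.tie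
  have h1 := hC B β x i hba _ hg ⟨ε, hε, fun h hh => by
    have e1 : ∀ z ∈ B, gl B β h z = g0 B h z := by
      intro z hz
      simp [gl, g0, hz]
    rw [e1 x hxB, e1 _ hsB] at hh
    rw [htie x hxB i hsB h hh, sub_self]⟩
  refine h1.trans ?_
  have hpt : ∀ a : B → ℝ, ∑ y ∈ ba x m, (pz B y (fun a => v (x + st i) a - v x a) a) ^ 2 ≤
      4 * en B B v a := by
    intro a
    have b1 : ∀ z ∈ B, ∑ y ∈ ba x m, (pz B y (v z) a) ^ 2 ≤ en B B v a := by
      intro z hz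
      unfold en
      refine le_trans (Finset.sum_le_sum_of_subset_of_nonneg hba fun _ _ _ => sq_nonneg _) ?_
      exact Finset.single_le_sum (f := fun z => ∑ y ∈ B, (pz B y (v z) a) ^ 2)
        (fun _ _ => Finset.sum_nonneg fun _ _ => sq_nonneg _) hz
    have b2 : ∑ y ∈ ba x m, (pz B y (fun a => v (x + st i) a - v x a) a) ^ 2 ≤
        ∑ y ∈ ba x m, (2 * (pz B y (v (x + st i)) a) ^ 2 + 2 * (pz B y (v x) a) ^ 2) := by
      refine Finset.sum_le_sum fun y _ => ?_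
      rw [qhe_pzsub hv]
      nlinarith [sq_nonneg (pz B y (v (x + st i)) a + pz B y (v x) a)]
    rw [Finset.sum_add_distrib, ← Finset.mul_sum, ← Finset.mul_sum] at b2
    linarith [b1 _ hxB, b1 _ hsB]
  have hce : Continuous (en B B v) := continuous_finsetSum _ fun x _ =>
    continuous_finsetSum _ fun y _ => (qhe_pzc hv y x).pow 2
  have hie : IntegrableOn (en B B v) (K B β) := hce.continuousOn.integrableOn_compact (K_compact B β)
  have hcs : Continuous (fun a : B → ℝ =>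
      ∑ y ∈ ba x m, (pz B y (fun a => v (x + st i) a - v x a) a) ^ 2) :=
    continuous_finsetSum _ fun y _ => (pz_cont hg).pow 2
  have his := hcs.continuousOn.integrableOn_compact (μ := volume) (K_compact B β)
  have h2 : ∫ a in K B β, ∑ y ∈ ba x m, (pz B y (fun a => v (x + st i) a - v x a) a) ^ 2 ≤
      4 * ∫ a in K B β, en B B v a := by
    rw [← integral_const_mul]
    exact integral_mono his (hie.const_mul 4) hpt
  have h0 : 0 ≤ ∫ a in K B β, ∑ y ∈ ba x m, (pz B y (fun a => v (x + st i) a - v x a) a) ^ 2 :=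
    integral_nonneg fun a => Finset.sum_nonneg fun _ _ => sq_nonneg _
  calc C * ∫ a in K B β, ∑ y ∈ ba x m, (pz B y (fun a => v (x + st i) a - v x a) a) ^ 2
      ≤ |C| * ∫ a in K B β, ∑ y ∈ ba x m, (pz B y (fun a => v (x + st i) a - v x a) a) ^ 2 :=
        mul_le_mul_of_nonneg_right (le_abs_self C) h0
    _ ≤ |C| * (4 * ∫ a in K B β, en B B v a) := mul_le_mul_of_nonneg_left h2 (abs_nonneg C)
    _ = 4 * |C| * ∫ a in K B β, en B B v a := by ring

theorem Jt_le (B : Finset (ℤ × ℤ)) (m : ℕ) : ∃ C : ℝ, 0 ≤ C ∧ ∀ (d : ℝ × ℝ)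
    (v : ℤ × ℤ → (B → ℝ) → ℝ) (β : ℤ × ℤ → ℝ), LNice B B v →
    Jt B m d v β + (1 / 2) * ∫ a in K B β, en B B v a ≤ C * qd d * (Z B β).toReal := by
  obtain ⟨C, hC0, hC⟩ := qhe_one m
  set n : ℝ := ((inn B (m + 2)).card : ℝ) with hn
  have hn0 : 0 ≤ n := Nat.cast_nonneg _
  set M : ℝ := 6 * n * C + 1 with hM
  have hM1 : 1 ≤ M := by
    have : 0 ≤ 6 * n * C := by positivity
    linarith
  refine ⟨n * M, by positivity, fun d v β hv => ?_⟩
  -- notation for one term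
  have hcont : ∀ z, Continuous (v z) := fun z => (hv.sm z).continuous
  have hgm : ∀ (x : ℤ × ℤ) (i : Fin 6) (k : B → ℝ), |gt m x i (gl B β k)| ≤ 1 := by
    intro x i k
    rcases gt_mem m x i (gl B β k) with h | h <;> rw [h] <;> simp
  have hI2 : ∀ (x : ℤ × ℤ) (i : Fin 6), IntegrableOn
      (fun a => gt m x i (gl B β a) * (v (x + st i) a - v x a) ^ 2) (K B β) := fun x i =>
    K_int (((hcont (x + st i)).sub (hcont x)).pow 2) (gt_meas B β m x i) (hgm x i)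
  have hce : Continuous (en B B v) := continuous_finsetSum _ fun x _ =>
    continuous_finsetSum _ fun y _ => (qhe_pzc hv y x).pow 2
  have hie : IntegrableOn (en B B v) (K B β) := hce.continuousOn.integrableOn_compact (K_compact B β)
  have hic : IntegrableOn (fun _ : B → ℝ => (1 : ℝ)) (K B β) :=
    continuous_const.continuousOn.integrableOn_compact (K_compact B β)
  have hpt : ∀ a : B → ℝ, Jf B β B m d v a ≤
      (∑ x ∈ inn B (m + 2), ∑ i, (1 / (2 * M)) *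
        (gt m x i (gl B β a) * (v (x + st i) a - v x a) ^ 2)) +
      (n * M * qd d) * 1 - en B B v a := by
    intro a
    unfold Jf
    refine sub_le_sub_right ?_ _
    have e1 : ∑ i, dc d i * sx B β B m v i a = ∑ x ∈ inn B (m + 2), ∑ i,
        dc d i * (gt m x i (gl B β a) * (v (x + st i) a - v x a)) := by
      unfold sx
      simp only [Finset.mul_sum]
      exact Finset.sum_comm
    have e2 : (n * M * qd d) * 1 = ∑ x ∈ inn B (m + 2), ∑ i, M / 2 * (dc d i) ^ 2 := by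
      rw [Finset.sum_const, nsmul_eq_mul, ← Finset.mul_sum, ← hn]
      unfold qd
      ring
    rw [e1, e2, ← Finset.sum_add_distrib]
    refine Finset.sum_le_sum fun x _ => ?_
    rw [← Finset.sum_add_distrib]
    refine Finset.sum_le_sum fun i _ => ?_
    have hMpos : 0 < M := by linarith
    rcases gt_mem m x i (gl B β a) with h | h
    · rw [h]
      have : 0 ≤ M / 2 * (dc d i) ^ 2 := by positivity
      simp only [zero_mul, mul_zero, zero_add]
      exact this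
    · rw [h, one_mul, one_mul]
      set t := v (x + st i) a - v x a
      set c := dc d i
      have h3 : 0 ≤ (t - M * c) ^ 2 / (2 * M) := by positivity
      have h4 : (t - M * c) ^ 2 / (2 * M) = 1 / (2 * M) * t ^ 2 + M / 2 * c ^ 2 - c * t := by
        field_simp
        ring
      linarith
  have hJint : IntegrableOn (fun a => Jf B β B m d v a) (K B β) := by
    unfold Jf sx
    refine Integrable.sub ?_ hie
    refine integrable_finsetSum _ fun i _ => Integrable.const_mul ?_ _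
    refine integrable_finsetSum _ fun x _ => ?_
    exact K_int ((hcont (x + st i)).sub (hcont x)) (gt_meas B β m x i) (hgm x i)
  have hS : IntegrableOn (fun a => ∑ x ∈ inn B (m + 2), ∑ i, (1 / (2 * M)) *
      (gt m x i (gl B β a) * (v (x + st i) a - v x a) ^ 2)) (K B β) :=
    integrable_finsetSum _ fun x _ => integrable_finsetSum _ fun i _ => (hI2 x i).const_mul _
  have hR : IntegrableOn (fun a => (∑ x ∈ inn B (m + 2), ∑ i, (1 / (2 * M)) *
        (gt m x i (gl B β a) * (v (x + st i) a - v x a) ^ 2)) +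
      (n * M * qd d) * 1 - en B B v a) (K B β) := (hS.add (hic.const_mul _)).sub hie
  have h5 : Jt B m d v β ≤ ∫ a in K B β, ((∑ x ∈ inn B (m + 2), ∑ i, (1 / (2 * M)) *
        (gt m x i (gl B β a) * (v (x + st i) a - v x a) ^ 2)) +
      (n * M * qd d) * 1 - en B B v a) := by
    unfold Jt
    exact integral_mono hJint hR hpt
  have h6 : ∫ a in K B β, ((∑ x ∈ inn B (m + 2), ∑ i, (1 / (2 * M)) *
        (gt m x i (gl B β a) * (v (x + st i) a - v x a) ^ 2)) +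
      (n * M * qd d) * 1 - en B B v a) =
      (∑ x ∈ inn B (m + 2), ∑ i, (1 / (2 * M)) *
        ∫ a in K B β, gt m x i (gl B β a) * (v (x + st i) a - v x a) ^ 2) +
      (n * M * qd d) * (Z B β).toReal - ∫ a in K B β, en B B v a := by
    have hSc : IntegrableOn (fun a => (∑ x ∈ inn B (m + 2), ∑ i, (1 / (2 * M)) *
        (gt m x i (gl B β a) * (v (x + st i) a - v x a) ^ 2)) +
        (n * M * qd d) * 1) (K B β) := hS.add (hic.const_mul _)
    rw [integral_sub hSc hie, integral_add hS (hic.const_mul _),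
      integral_finsetSum _ fun x _ => integrable_finsetSum _ fun i _ => (hI2 x i).const_mul _]
    congr 2
    · refine Finset.sum_congr rfl fun x _ => ?_
      rw [integral_finsetSum _ fun i _ => (hI2 x i).const_mul _]
      exact Finset.sum_congr rfl fun i _ => integral_const_mul _ _
    · rw [integral_const_mul]
      congr 1
      simp [Z, Measure.real]
  have h7 : ∑ x ∈ inn B (m + 2), ∑ i : Fin 6, (1 / (2 * M)) *
        ∫ a in K B β, gt m x i (gl B β a) * (v (x + st i) a - v x a) ^ 2 ≤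
      (1 / 2) * ∫ a in K B β, en B B v a := by
    have hE0 : 0 ≤ ∫ a in K B β, en B B v a := integral_nonneg fun a =>
      Finset.sum_nonneg fun _ _ => Finset.sum_nonneg fun _ _ => sq_nonneg _
    have h8 : ∑ x ∈ inn B (m + 2), ∑ i : Fin 6, (1 / (2 * M)) *
        ∫ a in K B β, gt m x i (gl B β a) * (v (x + st i) a - v x a) ^ 2 ≤
        ∑ x ∈ inn B (m + 2), ∑ i : Fin 6, (1 / (2 * M)) * (C * ∫ a in K B β, en B B v a) :=
      Finset.sum_le_sum fun x hx => Finset.sum_le_sum fun i _ =>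
        mul_le_mul_of_nonneg_left (hC B β v hv x hx i) (by positivity)
    refine h8.trans ?_
    rw [Finset.sum_const, Finset.sum_const, Finset.card_univ, Fintype.card_fin, nsmul_eq_mul,
      nsmul_eq_mul, ← hn]
    have hMpos : 0 < M := by linarith
    set E := ∫ a in K B β, en B B v a
    have h9 : n * (((6 : ℕ) : ℝ) * (1 / (2 * M) * (C * E))) = (6 * n * C) / M * (1 / 2 * E) := by
      push_cast
      field_simp
    rw [h9]
    have h10 : (6 * n * C) / M ≤ 1 := by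
      rw [div_le_one hMpos]
      linarith
    have h11 : 0 ≤ 1 / 2 * E := by positivity
    calc (6 * n * C) / M * (1 / 2 * E) ≤ 1 * (1 / 2 * E) := mul_le_mul_of_nonneg_right h10 h11
      _ = 1 / 2 * E := one_mul _
  rw [h6] at h5
  linarith
/- END qhe -/

/- MODULE qhf
The supremum `Tt`: least upper bound (bounded above by `Jt_le`, nonempty: `v = 0`), nonnegative,
`≤ C qd Z`; quadratic in `d` (`forms`, `abs_quad`); combinations (`abs_comb`). If `Z B β = 0` then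
`Jt = 0` for all fields and `Tt = 0`. -/
private theorem qhf_en {B : Finset (ℤ × ℤ)} (v : ℤ × ℤ → (B → ℝ) → ℝ) (β : ℤ × ℤ → ℝ) :
    0 ≤ ∫ a in K B β, en B B v a := integral_nonneg fun _ =>
  Finset.sum_nonneg fun _ _ => Finset.sum_nonneg fun _ _ => sq_nonneg _

private theorem qhf_qd (d : ℝ × ℝ) : 0 ≤ qd d :=
  mul_nonneg (by norm_num) (Finset.sum_nonneg fun _ _ => sq_nonneg _)

private theorem qhf_bdd (B : Finset (ℤ × ℤ)) (m : ℕ) (d : ℝ × ℝ) (β : ℤ × ℤ → ℝ) :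
    BddAbove (range fun v : {v : ℤ × ℤ → (B → ℝ) → ℝ // LNice B B v} => Jt B m d v.1 β) := by
  obtain ⟨C, hC0, hC⟩ := Jt_le B m
  refine ⟨C * qd d * (Z B β).toReal, ?_⟩
  rintro _ ⟨v, rfl⟩
  have h1 := hC d v.1 β v.2
  have h2 := qhf_en v.1 β
  simp only
  linarith

private theorem qhf_zero (B : Finset (ℤ × ℤ)) (m : ℕ) (d : ℝ × ℝ) (β : ℤ × ℤ → ℝ) :
    Jt B m d 0 β = 0 := by
  have e1 : ∀ a : B → ℝ, Jf B β B m d 0 a = 0 := by
    intro a
    have e3 : ∀ y : ℤ × ℤ, pz B y (0 : (B → ℝ) → ℝ) a = 0 := by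
      intro y
      unfold pz pd
      split_ifs
      · simp
      · rfl
    unfold Jf sx en
    simp [e3]
  unfold Jt
  simp [e1]

private theorem qhf_le {B : Finset (ℤ × ℤ)} (m : ℕ) (d : ℝ × ℝ) (β : ℤ × ℤ → ℝ)
    {v : ℤ × ℤ → (B → ℝ) → ℝ} (hv : LNice B B v) : Jt B m d v β ≤ Tt B m d β :=
  le_ciSup (f := fun v : {v : ℤ × ℤ → (B → ℝ) → ℝ // LNice B B v} => Jt B m d v.1 β)
    (qhf_bdd B m d β) ⟨v, hv⟩

private theorem qhf_nonneg (B : Finset (ℤ × ℤ)) (m : ℕ) (d : ℝ × ℝ) (β : ℤ × ℤ → ℝ) :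
    0 ≤ Tt B m d β := by
  have h1 := qhf_le m d β (LNice.zero B B)
  rwa [qhf_zero] at h1

theorem Tt_lub (B : Finset (ℤ × ℤ)) (m : ℕ) (d : ℝ × ℝ) (β : ℤ × ℤ → ℝ) :
    IsLUB (range fun v : LN B B => Jt B m d v.1 β) (Tt B m d β) := by
  have : Nonempty {v : ℤ × ℤ → (B → ℝ) → ℝ // LNice B B v} := ⟨⟨0, LNice.zero B B⟩⟩
  exact isLUB_ciSup (f := fun v : {v : ℤ × ℤ → (B → ℝ) → ℝ // LNice B B v} => Jt B m d v.1 β)
    (qhf_bdd B m d β)

theorem Tt_zero {B : Finset (ℤ × ℤ)} (m : ℕ) (d : ℝ × ℝ) {β : ℤ × ℤ → ℝ} (h : Z B β = 0) :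
    Tt B m d β = 0 := by
  have : Nonempty {v : ℤ × ℤ → (B → ℝ) → ℝ // LNice B B v} := ⟨⟨0, LNice.zero B B⟩⟩
  have h1 : ∀ v : ℤ × ℤ → (B → ℝ) → ℝ, Jt B m d v β = 0 := by
    intro v
    unfold Jt
    have h2 : volume.restrict (K B β) = 0 := Measure.restrict_eq_zero.2 h
    rw [h2, integral_zero_measure]
  unfold Tt
  simp [h1]

theorem Th_nonneg (B : Finset (ℤ × ℤ)) (m : ℕ) (d : ℝ × ℝ) (β : ℤ × ℤ → ℝ) :
    0 ≤ Th B m d β :=
  div_nonneg (qhf_nonneg B m d β) ENNReal.toReal_nonneg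

theorem Th_le (B : Finset (ℤ × ℤ)) (m : ℕ) : ∃ C : ℝ, 0 ≤ C ∧ ∀ (d : ℝ × ℝ) (β : ℤ × ℤ → ℝ),
    Th B m d β ≤ C * qd d := by
  obtain ⟨C, hC0, hC⟩ := Jt_le B m
  refine ⟨C, hC0, fun d β => ?_⟩
  have h1 : Tt B m d β ≤ C * qd d * (Z B β).toReal := by
    refine (Tt_lub B m d β).2 ?_
    rintro _ ⟨v, rfl⟩
    have h1 := hC d v.1 β v.2
    have h2 := qhf_en v.1 β
    simp only
    linarith
  unfold Th
  rcases (ENNReal.toReal_nonneg (a := Z B β)).eq_or_lt with h2 | h2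
  · rw [← h2, div_zero]
    exact mul_nonneg hC0 (qhf_qd d)
  · rw [div_le_iff₀ h2]
    exact h1

private theorem qhf_lub (B : Finset (ℤ × ℤ)) (m : ℕ) (β : ℤ × ℤ → ℝ) :
    ∃ (Q : LN B B →ₗ[ℝ] LN B B →ₗ[ℝ] ℝ) (l0 l1 : LN B B →ₗ[ℝ] ℝ),
      (∀ u v, Q u v = Q v u) ∧ (∀ u, 0 ≤ Q u u) ∧
      (∀ (d : ℝ × ℝ) (v : LN B B), Jt B m d v.1 β = d.1 * l0 v + d.2 * l1 v - Q v v) ∧
      ∀ d : ℝ × ℝ, IsLUB (range fun u : LN B B => d.1 * l0 u + d.2 * l1 u - Q u u)
        (Tt B m d β) := by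
  obtain ⟨Q, l0, l1, hs, h0, -, hJ⟩ := forms B β B m
  have hJ' : ∀ (d : ℝ × ℝ) (v : LN B B), Jt B m d v.1 β = d.1 * l0 v + d.2 * l1 v - Q v v :=
    fun d v => hJ d v
  refine ⟨Q, l0, l1, hs, h0, hJ', fun d => ?_⟩
  have h1 := Tt_lub B m d β
  simp only [hJ'] at h1
  exact h1

theorem Th_quad (B : Finset (ℤ × ℤ)) (m : ℕ) (d : ℝ × ℝ) (β : ℤ × ℤ → ℝ) :
    Th B m d β = d.1 ^ 2 * Th B m (1, 0) β + d.2 ^ 2 * Th B m (0, 1) β +
      d.1 * d.2 * (Th B m (1, 1) β - Th B m (1, 0) β - Th B m (0, 1) β) := by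
  obtain ⟨Q, l0, l1, hs, h0, -, hS⟩ := qhf_lub B m β
  have h1 : Tt B m d β = d.1 ^ 2 * Tt B m (1, 0) β + d.2 ^ 2 * Tt B m (0, 1) β +
      d.1 * d.2 * (Tt B m (1, 1) β - Tt B m (1, 0) β - Tt B m (0, 1) β) :=
    abs_quad Q hs h0 l0 l1 (fun d => Tt B m d β) hS d
  unfold Th
  rw [h1]
  ring

theorem Tt_comb (B : Finset (ℤ × ℤ)) (m : ℕ) (β : ℤ × ℤ → ℝ) {v0 v1 : ℤ × ℤ → (B → ℝ) → ℝ}
    (h0 : LNice B B v0) (h1 : LNice B B v1) (d : ℝ × ℝ) :
    Tt B m d β - Jt B m d (d.1 • v0 + d.2 • v1) β ≤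
      2 * (d.1 ^ 2 * (Tt B m (1, 0) β - Jt B m (1, 0) v0 β) +
        d.2 ^ 2 * (Tt B m (0, 1) β - Jt B m (0, 1) v1 β)) := by
  obtain ⟨Q, l0, l1, hs, hQ, hJ, hS⟩ := qhf_lub B m β
  have h2 := abs_comb Q hs hQ l0 l1 (fun d => Tt B m d β) hS (⟨v0, h0⟩ : LN B B) ⟨v1, h1⟩ d
  have e0 : Jt B m (1, 0) v0 β = l0 ⟨v0, h0⟩ - Q ⟨v0, h0⟩ ⟨v0, h0⟩ := by
    have := hJ (1, 0) ⟨v0, h0⟩
    simpa using this
  have e1 : Jt B m (0, 1) v1 β = l1 ⟨v1, h1⟩ - Q ⟨v1, h1⟩ ⟨v1, h1⟩ := by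
    have := hJ (0, 1) ⟨v1, h1⟩
    simpa using this
  have e2 := hJ d (d.1 • (⟨v0, h0⟩ : LN B B) + d.2 • ⟨v1, h1⟩)
  have e3 : (d.1 • (⟨v0, h0⟩ : LN B B) + d.2 • (⟨v1, h1⟩ : LN B B)).1 = d.1 • v0 + d.2 • v1 := rfl
  rw [e3] at e2
  rw [e0, e1, e2]
  exact h2
/- END qhf -/

end Pool.Agent.Hmk
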