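import Pool.Agent.Hmk.ThA

/-!
# Hmk, second part: `Th` is a bounded measurable local function; universal near-maximisers
-/

set_option autoImplicit false

open MeasureTheory Set
open scoped ENNReal ContDiff

noncomputable section

namespace Pool.Agent.Hmk

/-- shifted height function -/
def sf (y : ℤ × ℤ) (H : ℤ × ℤ → ℝ) : ℤ × ℤ → ℝ := fun z => H (y + z)

/- MODULE qia
Integrals over the fibre are continuous in the outside values: if `k_n → k` then the indicators of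
`K B (g0 (nb B) k_n)` converge at every `a` with `|a x - k z| ≠ 1` for all edges `x ∈ B`,
`z ∉ B` (these sets are null: a hyperplane condition on one coordinate), edges inside of `B` do not
depend on `k`; all fibres stay in a fixed box (`K_bdd`); dominated convergence
(`continuous_of_dominated` or sequences). -/
private theorem qia_nb {B : Finset (ℤ × ℤ)} {x : ℤ × ℤ} (hx : x ∈ B) (i : Fin 6) :
    x + st i ∈ nb B := by
  refine mem_nb.2 (Or.inr ⟨i + 3, ?_⟩)
  rw [st_neg, add_neg_cancel_right]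
  exact hx

private theorem qia_g0 {W : Finset (ℤ × ℤ)} (k : W → ℝ) {z : ℤ × ℤ} (hz : z ∈ W) :
    g0 W k z = k ⟨z, hz⟩ := gl_mem hz

private theorem qia_bd {B : Finset (ℤ × ℤ)} {k : nb B → ℝ} {R : ℝ} (hR : 0 ≤ R)
    (hk : ∀ z, |k z| ≤ R) {a : B → ℝ} (ha : a ∈ K B (g0 (nb B) k)) (x : B) :
    |a x| ≤ R + B.card := by
  refine K_bdd hR ?_ ha x
  rintro z - ⟨x, hx, i, rfl⟩
  rw [qia_g0 k (qia_nb hx i)]
  exact hk _

private theorem qia_null (B : Finset (ℤ × ℤ)) (k0 : nb B → ℝ) :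
    ∀ᵐ a : B → ℝ, ∀ (x : ℤ × ℤ) (hx : x ∈ B) (i : Fin 6),
      |a ⟨x, hx⟩ - g0 (nb B) k0 (x + st i)| ≠ 1 := by
  have h1 : ∀ (x : B) (c : ℝ), ∀ᵐ a : B → ℝ, a x ≠ c := by
    intro x c
    rw [ae_iff]
    have h2 : {a : B → ℝ | ¬ a x ≠ c} = {a | a x = c} := by
      ext a
      simp
    rw [h2, volume_pi]
    exact Measure.pi_hyperplane (fun _ : B => (volume : Measure ℝ)) x c
  have h2 : ∀ᵐ a : B → ℝ, ∀ (x : B) (i : Fin 6), |a x - g0 (nb B) k0 (x.1 + st i)| ≠ 1 := by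
    rw [ae_all_iff]
    intro x
    rw [ae_all_iff]
    intro i
    filter_upwards [h1 x (g0 (nb B) k0 (x.1 + st i) + 1), h1 x (g0 (nb B) k0 (x.1 + st i) - 1)]
      with a ha1 ha2 hcon
    rcases (abs_eq (zero_le_one' ℝ)).1 hcon with h | h
    · exact ha1 (by linarith)
    · exact ha2 (by linarith)
  filter_upwards [h2] with a ha x hx i
  exact ha ⟨x, hx⟩ i

private theorem qia_ev {B : Finset (ℤ × ℤ)} {k0 : nb B → ℝ} {a : B → ℝ}
    (ha : ∀ (x : ℤ × ℤ) (hx : x ∈ B) (i : Fin 6), |a ⟨x, hx⟩ - g0 (nb B) k0 (x + st i)| ≠ 1) :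
    ∀ᶠ k in nhds k0, (a ∈ K B (g0 (nb B) k) ↔ a ∈ K B (g0 (nb B) k0)) := by
  have h1 : ∀ x ∈ B, ∀ i : Fin 6, ∀ᶠ k in nhds k0,
      (|gl B (g0 (nb B) k) a x - gl B (g0 (nb B) k) a (x + st i)| ≤ 1 ↔
        |gl B (g0 (nb B) k0) a x - gl B (g0 (nb B) k0) a (x + st i)| ≤ 1) := by
    intro x hx i
    by_cases hz : x + st i ∈ B
    · refine Filter.Eventually.of_forall fun k => ?_
      rw [gl_mem hx, gl_mem hx, gl_mem hz, gl_mem hz]
    · have hc : Continuous fun k : nb B → ℝ => |a ⟨x, hx⟩ - g0 (nb B) k (x + st i)| := by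
        have h2 : Continuous fun k : nb B → ℝ => g0 (nb B) k (x + st i) := gl_cont _ _ _
        exact (continuous_const.sub h2).abs
      have h3 := ha x hx i
      rcases lt_or_gt_of_ne h3 with h4 | h4
      · filter_upwards [(hc.tendsto k0).eventually (gt_mem_nhds h4)] with k hk
        rw [gl_mem hx, gl_mem hx, gl_not_mem hz, gl_not_mem hz]
        exact iff_of_true hk.le h4.le
      · filter_upwards [(hc.tendsto k0).eventually (lt_mem_nhds h4)] with k hk
        rw [gl_mem hx, gl_mem hx, gl_not_mem hz, gl_not_mem hz]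
        exact iff_of_false hk.not_ge h4.not_ge
  have h2 : ∀ᶠ k in nhds k0, ∀ x ∈ B, ∀ i : Fin 6,
      (|gl B (g0 (nb B) k) a x - gl B (g0 (nb B) k) a (x + st i)| ≤ 1 ↔
        |gl B (g0 (nb B) k0) a x - gl B (g0 (nb B) k0) a (x + st i)| ≤ 1) := by
    refine (Filter.eventually_all_finset B).2 fun x hx => ?_
    exact Filter.eventually_all.2 fun i => h1 x hx i
  filter_upwards [h2] with k hk
  exact ⟨fun h x hx i => (hk x hx i).1 (h x hx i), fun h x hx i => (hk x hx i).2 (h x hx i)⟩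

theorem fib_cont (B : Finset (ℤ × ℤ)) {f : (B → ℝ) → ℝ} (hf : Measurable f)
    (hb : ∀ R : ℝ, ∃ C : ℝ, ∀ a : B → ℝ, (∀ x, |a x| ≤ R) → |f a| ≤ C) :
    Continuous (fun k : nb B → ℝ => ∫ a in K B (g0 (nb B) k), f a) := by
  have h0 : ∀ k : nb B → ℝ, ∫ a in K B (g0 (nb B) k), f a =
      ∫ a, (K B (g0 (nb B) k)).indicator f a := fun k =>
    (integral_indicator (K_meas B _)).symm
  simp only [h0]
  rw [continuous_iff_continuousAt]
  intro k0
  set R : ℝ := ‖k0‖ + 1 with hR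
  have hR0 : 0 ≤ R := by positivity
  obtain ⟨C, hC⟩ := hb (R + B.card)
  have hbox : MeasurableSet (Icc (fun _ : B => -(R + (B.card : ℝ))) (fun _ => R + B.card)) :=
    measurableSet_Icc
  refine tendsto_integral_filter_of_dominated_convergence
    ((Icc (fun _ : B => -(R + (B.card : ℝ))) (fun _ => R + B.card)).indicator fun _ => |C|)
    ?_ ?_ ?_ ?_
  · exact Filter.Eventually.of_forall fun k => (hf.indicator (K_meas B _)).aestronglyMeasurable
  · have h1 : ∀ᶠ k in nhds k0, ‖k‖ < R := by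
      have h2 : ‖k0‖ < R := by rw [hR]; linarith
      exact (continuous_norm.tendsto k0).eventually (gt_mem_nhds h2)
    filter_upwards [h1] with k hk
    refine Filter.Eventually.of_forall fun a => ?_
    by_cases ha : a ∈ K B (g0 (nb B) k)
    · have h2 : ∀ x, |a x| ≤ R + B.card := qia_bd hR0 (fun z =>
        (norm_le_pi_norm k z).trans hk.le) ha
      have h3 : a ∈ Icc (fun _ : B => -(R + (B.card : ℝ))) (fun _ => R + B.card) :=
        ⟨fun x => (abs_le.1 (h2 x)).1, fun x => (abs_le.1 (h2 x)).2⟩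
      rw [indicator_of_mem ha, indicator_of_mem h3, Real.norm_eq_abs]
      exact (hC a h2).trans (le_abs_self C)
    · rw [indicator_of_notMem ha, norm_zero]
      exact indicator_nonneg (fun _ _ => abs_nonneg C) a
  · refine (integrable_indicator_iff hbox).2 (integrableOn_const ?_ )
    exact (isCompact_Icc.measure_lt_top).ne
  · filter_upwards [qia_null B k0] with a ha
    refine tendsto_const_nhds.congr' ?_
    filter_upwards [qia_ev ha] with k hk
    by_cases h1 : a ∈ K B (g0 (nb B) k0)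
    · rw [indicator_of_mem h1, indicator_of_mem (hk.2 h1)]
    · rw [indicator_of_notMem h1, indicator_of_notMem (fun h2 => h1 (hk.1 h2))]

theorem Z_cont (B : Finset (ℤ × ℤ)) :
    Continuous (fun k : nb B → ℝ => (Z B (g0 (nb B) k)).toReal) := by
  have h1 := fib_cont B (f := fun _ => 1) measurable_const
    (fun R => ⟨1, fun a _ => by norm_num⟩)
  refine h1.congr fun k => ?_
  rw [setIntegral_const, smul_eq_mul, mul_one]
  rfl
/- END qia -/

/- MODULE qib
`Jf B β B m d v a` does not depend on the values `β` off `B` (the gates at `x ∈ inn B (m + 2)` use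
only sites of `B`, `gt_loc`), so `Jt` is continuous in the outside values (`fib_cont`).  Also
locality of `Jt`, `Tt`, `Th`: only the values at the sites of `nb B \ B` matter (`K_loc`). -/
private theorem qib_gt (B : Finset (ℤ × ℤ)) (m : ℕ) (β β' : ℤ × ℤ → ℝ) (a : B → ℝ)
    {x : ℤ × ℤ} (hx : x ∈ inn B (m + 2)) (i : Fin 6) :
    gt m x i (gl B β a) = gt m x i (gl B β' a) := by
  refine gt_loc fun z hz => ?_
  have h1 : z ∈ B := mem_inn.1 hx z (by push_cast; linarith)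
  rw [gl_mem h1, gl_mem h1]

theorem Jf_out (B : Finset (ℤ × ℤ)) (m : ℕ) (d : ℝ × ℝ) (v : ℤ × ℤ → (B → ℝ) → ℝ)
    (β β' : ℤ × ℤ → ℝ) (a : B → ℝ) : Jf B β B m d v a = Jf B β' B m d v a := by
  unfold Jf sx
  congr 1
  refine Finset.sum_congr rfl fun i _ => ?_
  congr 1
  exact Finset.sum_congr rfl fun x hx => by rw [qib_gt B m β β' a hx i]

private theorem qib_gabs (m : ℕ) (x : ℤ × ℤ) (i : Fin 6) (H : ℤ × ℤ → ℝ) : |gt m x i H| ≤ 1 := by
  rcases gt_mem m x i H with h | h <;> rw [h] <;> norm_num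

private theorem qib_en {B : Finset (ℤ × ℤ)} {v : ℤ × ℤ → (B → ℝ) → ℝ} (hv : LNice B B v) :
    Continuous (en B B v) := by
  unfold en
  refine continuous_finsetSum _ fun x _ => continuous_finsetSum _ fun y _ => ?_
  exact (pz_cont ((hv.sm x).of_le (by exact_mod_cast le_top))).pow 2

private theorem qib_meas (B : Finset (ℤ × ℤ)) (m : ℕ) (d : ℝ × ℝ) {v : ℤ × ℤ → (B → ℝ) → ℝ}
    (hv : LNice B B v) (β : ℤ × ℤ → ℝ) : Measurable (Jf B β B m d v) := by
  unfold Jf sx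
  refine Measurable.sub ?_ (qib_en hv).measurable
  refine Finset.measurable_sum _ fun i _ => Measurable.const_mul ?_ _
  refine Finset.measurable_sum _ fun x _ => (gt_meas B β m x i).mul ?_
  exact ((hv.sm _).continuous.measurable).sub ((hv.sm _).continuous.measurable)

private theorem qib_bd (B : Finset (ℤ × ℤ)) (m : ℕ) (d : ℝ × ℝ) {v : ℤ × ℤ → (B → ℝ) → ℝ}
    (hv : LNice B B v) (β : ℤ × ℤ → ℝ) (R : ℝ) :
    ∃ C : ℝ, ∀ a : B → ℝ, (∀ x, |a x| ≤ R) → |Jf B β B m d v a| ≤ C := by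
  have hc : Continuous fun a : B → ℝ => ∑ i, |dc d i| *
      (∑ x ∈ inn B (m + 2), |v (x + st i) a - v x a|) + en B B v a := by
    refine Continuous.add ?_ (qib_en hv)
    refine continuous_finsetSum _ fun i _ => Continuous.mul continuous_const ?_
    refine continuous_finsetSum _ fun x _ => ?_
    exact (((hv.sm _).continuous).sub ((hv.sm _).continuous)).abs
  obtain ⟨C, hC⟩ := (isCompact_Icc (a := fun _ : B => -R) (b := fun _ => R)).exists_bound_of_continuousOn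
    hc.continuousOn
  refine ⟨C, fun a ha => ?_⟩
  have h1 := hC a ⟨fun x => (abs_le.1 (ha x)).1, fun x => (abs_le.1 (ha x)).2⟩
  rw [Real.norm_eq_abs] at h1
  refine le_trans ?_ ((le_abs_self _).trans h1)
  have he : 0 ≤ en B B v a := by
    unfold en
    exact Finset.sum_nonneg fun x _ => Finset.sum_nonneg fun y _ => sq_nonneg _
  unfold Jf
  refine (abs_sub _ _).trans ?_
  rw [abs_of_nonneg he]
  refine add_le_add ?_ le_rfl
  refine (Finset.abs_sum_le_sum_abs _ _).trans (Finset.sum_le_sum fun i _ => ?_)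
  rw [abs_mul]
  refine mul_le_mul_of_nonneg_left ?_ (abs_nonneg _)
  unfold sx
  refine (Finset.abs_sum_le_sum_abs _ _).trans (Finset.sum_le_sum fun x _ => ?_)
  rw [abs_mul]
  have h2 := mul_le_mul_of_nonneg_right (qib_gabs m x i (gl B β a))
    (abs_nonneg (v (x + st i) a - v x a))
  rwa [one_mul] at h2

theorem Jt_cont (B : Finset (ℤ × ℤ)) (m : ℕ) (d : ℝ × ℝ) {v : ℤ × ℤ → (B → ℝ) → ℝ}
    (hv : LNice B B v) : Continuous (fun k : nb B → ℝ => Jt B m d v (g0 (nb B) k)) := by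
  have h1 := fib_cont B (qib_meas B m d hv (fun _ => 0)) (qib_bd B m d hv (fun _ => 0))
  refine h1.congr fun k => ?_
  unfold Jt
  simp only [Jf_out B m d v (g0 (nb B) k) (fun _ => 0)]

private theorem qib_K {B : Finset (ℤ × ℤ)} {β β' : ℤ × ℤ → ℝ}
    (h : ∀ z, z ∈ nb B → z ∉ B → β z = β' z) : K B β = K B β' := by
  refine K_loc ?_
  rintro z hz ⟨x, hx, i, rfl⟩
  exact h _ (qia_nb hx i) hz

theorem Jt_loc (B : Finset (ℤ × ℤ)) (m : ℕ) (d : ℝ × ℝ) (v : ℤ × ℤ → (B → ℝ) → ℝ)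
    {β β' : ℤ × ℤ → ℝ} (h : ∀ z, z ∈ nb B → z ∉ B → β z = β' z) :
    Jt B m d v β = Jt B m d v β' := by
  unfold Jt
  rw [qib_K h]
  simp only [Jf_out B m d v β β']

theorem Th_loc (B : Finset (ℤ × ℤ)) (m : ℕ) (d : ℝ × ℝ)
    {β β' : ℤ × ℤ → ℝ} (h : ∀ z, z ∈ nb B → z ∉ B → β z = β' z) :
    Th B m d β = Th B m d β' := by
  have h1 : Z B β = Z B β' := by
    unfold Z
    rw [qib_K h]
  unfold Th Tt
  rw [h1]
  simp only [Jt_loc B m d _ h]
/- END qib -/

/- MODULE qic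
Lindelof: for every rational `q` the open set `{k | q < Tt (g0 k)} = ⋃_v {k | q < Jt v (g0 k)}` is
a countable union of sets of the cover (`TopologicalSpace.isOpen_iUnion_countable`); collect the
countably many fields for all rational `q` (and the zero field). -/
private theorem qic_all (B : Finset (ℤ × ℤ)) (m : ℕ) (d : ℝ × ℝ) :
    ∃ T : Set (LN B B), T.Countable ∧ ∀ (q : ℚ) (k : nb B → ℝ),
      (∃ v : LN B B, (q : ℝ) < Jt B m d v.1 (g0 (nb B) k)) →
        ∃ v ∈ T, (q : ℝ) < Jt B m d v.1 (g0 (nb B) k) := by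
  have h1 : ∀ q : ℚ, ∃ T : Set (LN B B), T.Countable ∧
      ⋃ v ∈ T, {k : nb B → ℝ | (q : ℝ) < Jt B m d v.1 (g0 (nb B) k)} =
        ⋃ v : LN B B, {k : nb B → ℝ | (q : ℝ) < Jt B m d v.1 (g0 (nb B) k)} := fun q =>
    TopologicalSpace.isOpen_iUnion_countable _ fun v =>
      isOpen_lt continuous_const (Jt_cont B m d v.2)
  choose T hTc hT using h1
  refine ⟨⋃ q, T q, countable_iUnion hTc, ?_⟩
  rintro q k ⟨v, hv⟩
  have h2 : k ∈ ⋃ v : LN B B, {k : nb B → ℝ | (q : ℝ) < Jt B m d v.1 (g0 (nb B) k)} :=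
    mem_iUnion.2 ⟨v, hv⟩
  rw [← hT q] at h2
  obtain ⟨u, hu, hk⟩ := mem_iUnion₂.1 h2
  exact ⟨u, mem_iUnion.2 ⟨q, hu⟩, hk⟩

theorem Th_seq (B : Finset (ℤ × ℤ)) (m : ℕ) (d : ℝ × ℝ) :
    ∃ v : ℕ → LN B B, v 0 = 0 ∧ ∀ k : nb B → ℝ,
      IsLUB (range fun j => Jt B m d (v j).1 (g0 (nb B) k)) (Tt B m d (g0 (nb B) k)) := by
  obtain ⟨T, hTc, hT⟩ := qic_all B m d
  obtain ⟨u, hu⟩ := (hTc.insert 0).exists_eq_range ⟨0, mem_insert _ _⟩
  refine ⟨fun j => Nat.casesOn j 0 u, rfl, fun k => ⟨?_, ?_⟩⟩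
  · rintro _ ⟨j, rfl⟩
    exact (Tt_lub B m d (g0 (nb B) k)).1 ⟨_, rfl⟩
  · intro M hM
    by_contra hlt
    rw [not_le] at hlt
    obtain ⟨q, hq1, hq2⟩ := exists_rat_btwn hlt
    obtain ⟨_, ⟨v, rfl⟩, hv⟩ := (lt_isLUB_iff (Tt_lub B m d (g0 (nb B) k))).1 hq2
    obtain ⟨w, hw, hqw⟩ := hT q k ⟨v, hv⟩
    have h1 : w ∈ range u := by
      rw [← hu]
      exact mem_insert_of_mem _ hw
    obtain ⟨j, rfl⟩ := h1
    have h2 : Jt B m d (u j).1 (g0 (nb B) k) ≤ M := hM ⟨j + 1, rfl⟩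
    exact absurd (hq1.trans (hqw.trans_le h2)) (lt_irrefl M)

theorem Th_meas (B : Finset (ℤ × ℤ)) (m : ℕ) (d : ℝ × ℝ) :
    Measurable (fun k : nb B → ℝ => Th B m d (g0 (nb B) k)) := by
  obtain ⟨v, -, hv⟩ := Th_seq B m d
  have h1 : Measurable fun k : nb B → ℝ => Tt B m d (g0 (nb B) k) :=
    Measurable.isLUB (f := fun (j : ℕ) (k : nb B → ℝ) => Jt B m d (v j).1 (g0 (nb B) k))
      (fun j => (Jt_cont B m d (v j).2).measurable) hv
  exact h1.div (Z_cont B).measurable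
/- END qic -/

/- MODULE qid
Invariance under adding a constant to all heights, and translation covariance.  Change of variables
`a ↦ a + t` (as in `Z_shift`), fields `v ↦ v (· - t)`; relabelling of the sites for translations
(`K (tr y B) β ≃ K B (sf y β)`, fields `v z ↦ v (z - y)`, gates `gt_tr`). -/
/-- the values of the functional -/
private def qidR (B : Finset (ℤ × ℤ)) (m : ℕ) (d : ℝ × ℝ) (β : ℤ × ℤ → ℝ) : Set ℝ :=
  range fun v : {v : ℤ × ℤ → (B → ℝ) → ℝ // LNice B B v} => Jt B m d v.1 β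

private theorem qid_Tt (B : Finset (ℤ × ℤ)) (m : ℕ) (d : ℝ × ℝ) (β : ℤ × ℤ → ℝ) :
    Tt B m d β = sSup (qidR B m d β) := rfl

private theorem qid_gl (B : Finset (ℤ × ℤ)) (β : ℤ × ℤ → ℝ) (t : ℝ) (a : B → ℝ) (z : ℤ × ℤ) :
    gl B (fun z => β z + t) (a + fun _ => t) z = gl B β a z + t := by
  by_cases hz : z ∈ B
  · rw [gl_mem hz, gl_mem hz]
    rfl
  · rw [gl_not_mem hz, gl_not_mem hz]

private theorem qid_K (B : Finset (ℤ × ℤ)) (β : ℤ × ℤ → ℝ) (t : ℝ) (a : B → ℝ) :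
    (a + fun _ => t) ∈ K B (fun z => β z + t) ↔ a ∈ K B β := by
  constructor
  · intro h x hx i
    have h1 := h x hx i
    rw [qid_gl, qid_gl, add_sub_add_right_eq_sub] at h1
    exact h1
  · intro h x hx i
    rw [qid_gl, qid_gl, add_sub_add_right_eq_sub]
    exact h x hx i

private theorem qid_int (B : Finset (ℤ × ℤ)) (β : ℤ × ℤ → ℝ) (t : ℝ) (F : (B → ℝ) → ℝ) :
    ∫ a in K B (fun z => β z + t), F a = ∫ a in K B β, F (a + fun _ => t) := by
  rw [← integral_indicator (K_meas B _), ← integral_indicator (K_meas B _),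
    ← integral_add_right_eq_self (μ := (volume : Measure (B → ℝ))) _ (fun _ : B => t)]
  refine integral_congr_ae (Filter.Eventually.of_forall fun a => ?_)
  by_cases ha : a ∈ K B β
  · show (K B fun z => β z + t).indicator F (a + fun _ => t) = _
    rw [indicator_of_mem ha, indicator_of_mem ((qid_K B β t a).2 ha)]
  · show (K B fun z => β z + t).indicator F (a + fun _ => t) = _
    rw [indicator_of_notMem ha, indicator_of_notMem (fun h => ha ((qid_K B β t a).1 h))]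

private theorem qid_pz {B : Finset (ℤ × ℤ)} (y : ℤ × ℤ) (F : (B → ℝ) → ℝ) (c a : B → ℝ) :
    pz B y (fun a => F (a + c)) a = pz B y F (a + c) := by
  unfold pz
  split_ifs with hy
  · unfold pd
    rw [fderiv_comp_add_right]
  · rfl

private theorem qid_ln {B : Finset (ℤ × ℤ)} {v : ℤ × ℤ → (B → ℝ) → ℝ} (hv : LNice B B v)
    (t : ℝ) : LNice B B (fun z a => v z (a + fun _ => t)) := by
  obtain ⟨ε, hε, h⟩ := hv.tie
  refine ⟨fun z => (hv.sm z).comp (contDiff_id.add contDiff_const), ε, hε, ?_⟩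
  intro z hz i hzi k hk
  refine h z hz i hzi (k + fun _ => t) ?_
  have h1 : ∀ w ∈ B, g0 B (k + fun _ => t) w = g0 B k w + t := by
    intro w hw
    unfold g0
    rw [gl_mem hw, gl_mem hw]
    rfl
  rw [h1 z hz, h1 _ hzi, add_sub_add_right_eq_sub]
  exact hk

private theorem qid_Jf (B : Finset (ℤ × ℤ)) (m : ℕ) (d : ℝ × ℝ) (v : ℤ × ℤ → (B → ℝ) → ℝ)
    (β : ℤ × ℤ → ℝ) (t : ℝ) (a : B → ℝ) :
    Jf B (fun z => β z + t) B m d v (a + fun _ => t) =
      Jf B β B m d (fun z a => v z (a + fun _ => t)) a := by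
  unfold Jf sx en
  congr 1
  · refine Finset.sum_congr rfl fun i _ => ?_
    congr 1
    refine Finset.sum_congr rfl fun x _ => ?_
    congr 1
    have h1 : gl B (fun z => β z + t) (a + fun _ => t) = fun z => gl B β a z + t :=
      funext fun z => qid_gl B β t a z
    rw [h1, gt_shift]
  · refine Finset.sum_congr rfl fun x _ => Finset.sum_congr rfl fun y _ => ?_
    rw [qid_pz y (v x) (fun _ => t) a]

private theorem qid_sub (B : Finset (ℤ × ℤ)) (m : ℕ) (d : ℝ × ℝ) (β : ℤ × ℤ → ℝ) (t : ℝ) :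
    qidR B m d (fun z => β z + t) ⊆ qidR B m d β := by
  rintro _ ⟨v, rfl⟩
  refine ⟨⟨_, qid_ln v.2 t⟩, ?_⟩
  show Jt B m d _ β = Jt B m d v.1 _
  unfold Jt
  rw [qid_int]
  simp only [qid_Jf]

theorem Th_shift (B : Finset (ℤ × ℤ)) (m : ℕ) (d : ℝ × ℝ) (β : ℤ × ℤ → ℝ) (t : ℝ) :
    Th B m d (fun z => β z + t) = Th B m d β := by
  have h1 : qidR B m d (fun z => β z + t) = qidR B m d β := by
    refine Subset.antisymm (qid_sub B m d β t) ?_
    have h2 := qid_sub B m d (fun z => β z + t) (-t)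
    have h3 : (fun z => β z + t + -t) = β := by
      funext z
      ring
    rwa [h3] at h2
  unfold Th
  rw [qid_Tt, qid_Tt, h1, Z_shift]

theorem Th_shf (B : Finset (ℤ × ℤ)) (m : ℕ) (d : ℝ × ℝ) :
    Shf (nb B) (fun k => Th B m d (g0 (nb B) k)) := by
  intro k t
  refine Eq.trans ?_ (Th_shift B m d (g0 (nb B) k) t)
  refine Th_loc B m d fun z hz _ => ?_
  unfold g0
  rw [gl_mem hz, gl_mem hz]

/-- the relabelling of the sites -/
private def qidE (B : Finset (ℤ × ℤ)) (y : ℤ × ℤ) : B ≃ tr y B where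
  toFun x := ⟨y + x.1, mem_tr.2 (by rw [add_sub_cancel_left]; exact x.2)⟩
  invFun z := ⟨z.1 - y, mem_tr.1 z.2⟩
  left_inv x := Subtype.ext (add_sub_cancel_left _ _)
  right_inv z := Subtype.ext (add_sub_cancel _ _)

private def qidP (B : Finset (ℤ × ℤ)) (y : ℤ × ℤ) : (B → ℝ) →L[ℝ] (tr y B → ℝ) :=
  ContinuousLinearMap.pi fun z => ContinuousLinearMap.proj ((qidE B y).symm z)

private theorem qid_P (B : Finset (ℤ × ℤ)) (y : ℤ × ℤ) (a : B → ℝ) (z : tr y B) :
    qidP B y a z = a ((qidE B y).symm z) := rfl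

private theorem qid_mp (B : Finset (ℤ × ℤ)) (y : ℤ × ℤ) :
    MeasurePreserving (qidP B y) volume volume ∧ MeasurableEmbedding (qidP B y) := by
  have h1 := volume_measurePreserving_piCongrLeft (fun _ : tr y B => ℝ) (qidE B y)
  have h2 : (MeasurableEquiv.piCongrLeft (fun _ : tr y B => ℝ) (qidE B y) : (B → ℝ) → _) =
      qidP B y := by
    funext a z
    obtain ⟨x, rfl⟩ := (qidE B y).surjective z
    rw [qid_P, Equiv.symm_apply_apply]
    exact Equiv.piCongrLeft_apply_apply (fun _ : tr y B => ℝ) (qidE B y) a x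
  constructor
  · rw [← h2]
    exact h1
  · rw [← h2]
    exact (MeasurableEquiv.piCongrLeft (fun _ : tr y B => ℝ) (qidE B y)).measurableEmbedding

private theorem qid_glt (B : Finset (ℤ × ℤ)) (y : ℤ × ℤ) (β : ℤ × ℤ → ℝ) (a : B → ℝ)
    (z : ℤ × ℤ) : gl (tr y B) β (qidP B y a) (y + z) = gl B (sf y β) a z := by
  by_cases hz : z ∈ B
  · have h1 : y + z ∈ tr y B := mem_tr.2 (by rw [add_sub_cancel_left]; exact hz)
    rw [gl_mem h1, gl_mem hz, qid_P]
    congr 1
    exact Subtype.ext (add_sub_cancel_left _ _)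
  · have h1 : y + z ∉ tr y B := fun h => hz (by
      have h2 := mem_tr.1 h
      rwa [add_sub_cancel_left] at h2)
    rw [gl_not_mem h1, gl_not_mem hz]
    rfl

private theorem qid_Kt (B : Finset (ℤ × ℤ)) (y : ℤ × ℤ) (β : ℤ × ℤ → ℝ) :
    qidP B y ⁻¹' K (tr y B) β = K B (sf y β) := by
  ext a
  constructor
  · intro h x hx i
    have h1 := h (y + x) (mem_tr.2 (by rw [add_sub_cancel_left]; exact hx)) i
    rw [qid_glt, add_assoc, qid_glt] at h1
    exact h1
  · intro h z hz i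
    have h1 := h (z - y) (mem_tr.1 hz) i
    rw [← qid_glt, ← qid_glt, add_sub_cancel, ← add_assoc, add_sub_cancel] at h1
    exact h1

private theorem qid_Z (B : Finset (ℤ × ℤ)) (y : ℤ × ℤ) (β : ℤ × ℤ → ℝ) :
    Z (tr y B) β = Z B (sf y β) := by
  unfold Z
  rw [← (qid_mp B y).1.measure_preimage (K_meas _ _).nullMeasurableSet, qid_Kt]

private theorem qid_intt (B : Finset (ℤ × ℤ)) (y : ℤ × ℤ) (β : ℤ × ℤ → ℝ)
    (F : (tr y B → ℝ) → ℝ) :
    ∫ a in K (tr y B) β, F a = ∫ a in K B (sf y β), F (qidP B y a) := by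
  rw [← qid_Kt B y β]
  exact ((qid_mp B y).1.setIntegral_preimage_emb (qid_mp B y).2 F (K (tr y B) β)).symm

private theorem qid_pzt (B : Finset (ℤ × ℤ)) (y z : ℤ × ℤ) {F : (tr y B → ℝ) → ℝ}
    (hF : Differentiable ℝ F) (a : B → ℝ) :
    pz B z (fun a => F (qidP B y a)) a = pz (tr y B) (y + z) F (qidP B y a) := by
  unfold pz
  by_cases hz : z ∈ B
  · have h1 : y + z ∈ tr y B := mem_tr.2 (by rw [add_sub_cancel_left]; exact hz)
    rw [dif_pos hz, dif_pos h1]
    unfold pd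
    have h2 : HasFDerivAt (fun a => F (qidP B y a))
        ((fderiv ℝ F (qidP B y a)).comp (qidP B y)) a :=
      (hF (qidP B y a)).hasFDerivAt.comp a (qidP B y).hasFDerivAt
    rw [h2.fderiv]
    show fderiv ℝ F (qidP B y a) (qidP B y (Pi.single ⟨z, hz⟩ 1)) = _
    congr 1
    funext w
    rw [qid_P]
    by_cases hw : w = ⟨y + z, h1⟩
    · subst hw
      have h3 : (qidE B y).symm ⟨y + z, h1⟩ = ⟨z, hz⟩ := Subtype.ext (add_sub_cancel_left _ _)
      rw [h3, Pi.single_eq_same, Pi.single_eq_same]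
    · rw [Pi.single_eq_of_ne hw, Pi.single_eq_of_ne]
      intro h3
      apply hw
      have h4 : w.1 - y = z := congrArg Subtype.val h3
      refine Subtype.ext ?_
      show w.1 = y + z
      rw [← h4, add_sub_cancel]
  · have h1 : y + z ∉ tr y B := fun h => hz (by
      have h2 := mem_tr.1 h
      rwa [add_sub_cancel_left] at h2)
    rw [dif_neg hz, dif_neg h1]

private theorem qid_lnt {B : Finset (ℤ × ℤ)} {y : ℤ × ℤ} {v : ℤ × ℤ → (tr y B → ℝ) → ℝ}
    (hv : LNice (tr y B) (tr y B) v) : LNice B B (fun z a => v (y + z) (qidP B y a)) := by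
  obtain ⟨ε, hε, h⟩ := hv.tie
  refine ⟨fun z => (hv.sm _).comp (qidP B y).contDiff, ε, hε, ?_⟩
  intro z hz i hzi k hk
  have h1 : ∀ w ∈ B, y + w ∈ tr y B := fun w hw =>
    mem_tr.2 (by rw [add_sub_cancel_left]; exact hw)
  have h2 := h (y + z) (h1 z hz) i (by rw [add_assoc]; exact h1 _ hzi) (qidP B y k) ?_
  · rw [add_assoc] at h2
    exact h2
  · have h3 : ∀ w ∈ B, g0 (tr y B) (qidP B y k) (y + w) = g0 B k w := by
      intro w hw
      unfold g0
      rw [qid_glt, gl_mem hw, gl_mem hw]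
    rw [add_assoc, h3 z hz, h3 _ hzi]
    exact hk

private theorem qid_sum (B : Finset (ℤ × ℤ)) (y : ℤ × ℤ) (f : ℤ × ℤ → ℝ) :
    ∑ x ∈ tr y B, f x = ∑ x ∈ B, f (y + x) := by
  unfold tr
  exact Finset.sum_image fun a _ b _ h => add_left_cancel h

private theorem qid_Jft (B : Finset (ℤ × ℤ)) (m : ℕ) (d : ℝ × ℝ) (y : ℤ × ℤ)
    {v : ℤ × ℤ → (tr y B → ℝ) → ℝ} (hv : LNice (tr y B) (tr y B) v)
    (β : ℤ × ℤ → ℝ) (a : B → ℝ) :
    Jf (tr y B) β (tr y B) m d v (qidP B y a) =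
      Jf B (sf y β) B m d (fun z a => v (y + z) (qidP B y a)) a := by
  unfold Jf sx en
  rw [qid_sum]
  congr 1
  · refine Finset.sum_congr rfl fun i _ => ?_
    congr 1
    rw [inn_tr, qid_sum]
    refine Finset.sum_congr rfl fun x _ => ?_
    rw [gt_tr, add_assoc]
    congr 2
    exact funext fun z => qid_glt B y β a z
  · refine Finset.sum_congr rfl fun x _ => ?_
    rw [qid_sum]
    refine Finset.sum_congr rfl fun z _ => ?_
    rw [qid_pzt B y z ((hv.sm _).differentiable (by simp)) a]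

private theorem qid_subt (B : Finset (ℤ × ℤ)) (m : ℕ) (d : ℝ × ℝ) (y : ℤ × ℤ)
    (β : ℤ × ℤ → ℝ) : qidR (tr y B) m d β ⊆ qidR B m d (sf y β) := by
  rintro _ ⟨v, rfl⟩
  refine ⟨⟨_, qid_lnt v.2⟩, ?_⟩
  show Jt B m d _ (sf y β) = Jt (tr y B) m d v.1 _
  unfold Jt
  rw [qid_intt]
  simp only [qid_Jft B m d y v.2]

private theorem qid_eq (B : Finset (ℤ × ℤ)) (m : ℕ) (d : ℝ × ℝ) (y : ℤ × ℤ)
    (β : ℤ × ℤ → ℝ) : qidR (tr y B) m d β = qidR B m d (sf y β) := by
  refine Subset.antisymm (qid_subt B m d y β) ?_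
  have h1 := qid_subt (tr y B) m d (-y) (sf y β)
  have h2 : tr (-y) (tr y B) = B := by
    ext z
    rw [mem_tr, mem_tr]
    have h3 : z - -y - y = z := by abel
    rw [h3]
  have h3 : sf (-y) (sf y β) = β := by
    funext z
    show β (y + (-y + z)) = β z
    congr 1
    abel
  rw [h2, h3] at h1
  exact h1

theorem Th_tr (B : Finset (ℤ × ℤ)) (m : ℕ) (d : ℝ × ℝ) (y : ℤ × ℤ) (β : ℤ × ℤ → ℝ) :
    Th (tr y B) m d β = Th B m d (sf y β) := by
  unfold Th
  rw [qid_Tt, qid_Tt, qid_eq, qid_Z]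

theorem Tt_tr (B : Finset (ℤ × ℤ)) (m : ℕ) (d : ℝ × ℝ) (y : ℤ × ℤ) (β : ℤ × ℤ → ℝ) :
    Tt (tr y B) m d β = Tt B m d (sf y β) := by
  rw [qid_Tt, qid_Tt, qid_eq]
/- END qid -/

/-- the window of `W` with value `0` at `w0` and values `σ` at the other sites -/
def ex0 (W : Finset (ℤ × ℤ)) (w0 : ℤ × ℤ) (σ : ↥(W.erase w0) → ℝ) : W → ℝ :=
  fun w => gl (W.erase w0) (fun _ => 0) σ w.1

/-- Lebesgue integral over the increments of a window -/
def LW (W : Finset (ℤ × ℤ)) (w0 : ℤ × ℤ) (g : (W → ℝ) → ℝ≥0∞) : ℝ≥0∞ :=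
  ∫⁻ σ in {σ : ↥(W.erase w0) → ℝ | ∀ w : ↥(W.erase w0), |σ w| ≤ dn (w.1 - w0)},
    g (ex0 W w0 σ)

/- MODULE qja
BOUNDED DENSITIES, from `vol_lemma` with `T = (tr y W).erase (y + w0)`, `P = nb (tr y W) \ T`
(contained in `D`), `v = y + w0 ∈ P`: the law of the increments
`(H (y + w) - H (y + w0))_w` under `Mu D b` has a density bounded by `2 ^ (card T + 7 card P)`
(measures with `μ A ≤ C λ A` for all measurable `A` satisfy the same for integrals,
`Measure.le_iff`, `lintegral_mono'`), the increments are `≤ dn (w - w0)` (`gl_lip`), and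
`g (rs W y H) = g (ex0 W w0 σ)` by shift invariance (`card P ≤ 7 card W`, translation does not
change the cardinalities, so the constant depends only on `card W`). -/
private def qjaE (B : Finset (ℤ × ℤ)) (y : ℤ × ℤ) : B ≃ tr y B where
  toFun x := ⟨y + x.1, mem_tr.2 (by rw [add_sub_cancel_left]; exact x.2)⟩
  invFun z := ⟨z.1 - y, mem_tr.1 z.2⟩
  left_inv x := Subtype.ext (add_sub_cancel_left _ _)
  right_inv z := Subtype.ext (add_sub_cancel _ _)

/-- the increments -/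
private def qjaF (W D : Finset (ℤ × ℤ)) (b : ℤ × ℤ → ℝ) (w0 y : ℤ × ℤ) (h : D → ℝ) :
    ↥(W.erase w0) → ℝ := fun w => gl D b h (y + w.1) - gl D b h (y + w0)

private theorem qja_meas (W D : Finset (ℤ × ℤ)) (b : ℤ × ℤ → ℝ) (w0 y : ℤ × ℤ) :
    Measurable (qjaF W D b w0 y) := by
  rw [measurable_pi_iff]
  intro w
  exact (gl_meas D b _).sub (gl_meas D b _)

private theorem qja_ex (W : Finset (ℤ × ℤ)) (w0 : ℤ × ℤ) : Measurable (ex0 W w0) := by
  rw [measurable_pi_iff]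
  intro w
  exact gl_meas _ _ _

private theorem qja_card (W : Finset (ℤ × ℤ)) (y : ℤ × ℤ) : (nb (tr y W)).card ≤ 7 * W.card := by
  classical
  unfold nb
  have h1 : (tr y W).card ≤ W.card := Finset.card_image_le
  have h2 : ((tr y W).biUnion fun x => Finset.univ.image fun i : Fin 6 => x + st i).card ≤
      (tr y W).card * 6 := by
    refine Finset.card_biUnion_le_card_mul _ _ 6 fun x _ => ?_
    exact Finset.card_image_le.trans (by simp)
  refine (Finset.card_union_le _ _).trans ?_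
  omega

private theorem qja_vol {W D : Finset (ℤ × ℤ)} {b : ℤ × ℤ → ℝ} (hb : ∀ z, |b z| ≤ 1 / 2)
    {w0 y : ℤ × ℤ} (hw : w0 ∈ W) (hD : nb (tr y W) ⊆ D) {A : Set (↥(W.erase w0) → ℝ)}
    (hA : MeasurableSet A) :
    volume (K D b ∩ qjaF W D b w0 y ⁻¹' A) ≤
      2 ^ (50 * W.card) * volume A * volume (K D b) := by
  classical
  have hsub : tr y (W.erase w0) ⊆ tr y W := by
    intro z hz
    exact mem_tr.2 (Finset.mem_of_mem_erase (mem_tr.1 hz))
  have hnb : tr y W ⊆ nb (tr y W) := fun z hz => mem_nb.2 (Or.inl hz)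
  set e := MeasurableEquiv.piCongrLeft (fun _ : tr y (W.erase w0) => ℝ) (qjaE (W.erase w0) y)
    with he
  have hmp := volume_measurePreserving_piCongrLeft (fun _ : tr y (W.erase w0) => ℝ)
    (qjaE (W.erase w0) y)
  have hea : ∀ (a : ↥(W.erase w0) → ℝ) (x : ↥(W.erase w0)), e a (qjaE (W.erase w0) y x) = a x :=
    fun a x => Equiv.piCongrLeft_apply_apply (fun _ : tr y (W.erase w0) => ℝ)
      (qjaE (W.erase w0) y) a x
  have h1 := vol_lemma (D := D) (T := tr y (W.erase w0)) (P := nb (tr y W) \ tr y (W.erase w0))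
    hb ((hsub.trans hnb).trans hD) (Finset.sdiff_subset.trans hD) Finset.disjoint_sdiff
    (by
      intro x hx i _
      rw [Finset.union_sdiff_of_subset (hsub.trans hnb)]
      refine mem_nb.2 (Or.inr ⟨i + 3, ?_⟩)
      rw [st_neg, add_neg_cancel_right]
      exact hsub hx)
    (v := y + w0) (Or.inl (by
      rw [Finset.mem_sdiff]
      refine ⟨hnb (mem_tr.2 (by rw [add_sub_cancel_left]; exact hw)), fun h => ?_⟩
      have h2 := mem_tr.1 h
      rw [add_sub_cancel_left] at h2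
      exact (Finset.mem_erase.1 h2).1 rfl))
    (W := e.symm ⁻¹' A) (e.symm.measurable hA)
  have h2 : volume (e.symm ⁻¹' A) = volume A :=
    (MeasurePreserving.symm e hmp).measure_preimage hA.nullMeasurableSet
  have h3 : {h : D → ℝ | h ∈ K D b ∧ (fun x : tr y (W.erase w0) => gl D b h x -
      gl D b h (y + w0)) ∈ e.symm ⁻¹' A} = K D b ∩ qjaF W D b w0 y ⁻¹' A := by
    ext h
    have h4 : e.symm (fun x : tr y (W.erase w0) => gl D b h x - gl D b h (y + w0)) =
        qjaF W D b w0 y h := by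
      rw [MeasurableEquiv.symm_apply_eq]
      funext z
      obtain ⟨x, rfl⟩ := (qjaE (W.erase w0) y).surjective z
      rw [hea]
      rfl
    constructor
    · rintro ⟨h5, h6⟩
      refine ⟨h5, ?_⟩
      rw [mem_preimage, h4] at h6
      exact h6
    · rintro ⟨h5, h6⟩
      refine ⟨h5, ?_⟩
      rw [mem_preimage, h4]
      exact h6
  rw [h3, h2] at h1
  refine h1.trans ?_
  gcongr
  · norm_num
  · have h5 := qja_card W y
    have h6 : (tr y (W.erase w0)).card ≤ W.card :=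
      (Finset.card_image_le).trans (Finset.card_le_card (Finset.erase_subset _ _))
    have h7 : (nb (tr y W) \ tr y (W.erase w0)).card ≤ (nb (tr y W)).card :=
      Finset.card_le_card Finset.sdiff_subset
    omega

theorem dens (W : Finset (ℤ × ℤ)) {w0 : ℤ × ℤ} (hw : w0 ∈ W) : ∃ C : ℝ≥0∞, C < ⊤ ∧
    ∀ (D : Finset (ℤ × ℤ)) (b : ℤ × ℤ → ℝ), (∀ z, |b z| ≤ 1 / 2) → ∀ y : ℤ × ℤ,
    nb (tr y W) ⊆ D → ∀ g : (W → ℝ) → ℝ≥0∞, Measurable g → (∀ k t, g (fun w => k w + t) = g k) →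
    ∫⁻ h, g (rs W y (gl D b h)) ∂(Mu D b) ≤ C * LW W w0 g := by
  refine ⟨2 ^ (50 * W.card), ENNReal.pow_lt_top (by norm_num), ?_⟩
  intro D b hb y hD g hg hgs
  set S : Set (↥(W.erase w0) → ℝ) := {σ | ∀ w : ↥(W.erase w0), |σ w| ≤ dn (w.1 - w0)} with hS
  have hSm : MeasurableSet S := by
    have h1 : S = ⋂ w : ↥(W.erase w0),
        {σ : ↥(W.erase w0) → ℝ | |σ w| ≤ ((dn (w.1 - w0) : ℤ) : ℝ)} := by
      ext σ
      rw [mem_iInter]
      rfl
    rw [h1]
    exact MeasurableSet.iInter fun w =>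
      measurableSet_le (measurable_pi_apply w).abs measurable_const
  have hZ1 : 1 ≤ Z D b := Z_one_le (fun z _ _ => hb z)
  have hZ0 : volume (K D b) ≠ 0 := by
    intro h0
    rw [show Z D b = 0 from h0] at hZ1
    exact absurd hZ1 (by norm_num)
  have hZt : volume (K D b) ≠ ⊤ := (Z_lt_top D b).ne
  -- the law of the increments
  have hle : Measure.map (qjaF W D b w0 y) (Mu D b) ≤
      (2 ^ (50 * W.card) : ℝ≥0∞) • (volume : Measure (↥(W.erase w0) → ℝ)) := by
    rw [Measure.le_iff]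
    intro A hA
    rw [Measure.map_apply (qja_meas W D b w0 y) hA]
    unfold Mu
    rw [ProbabilityTheory.cond_apply (K_meas D b), Measure.smul_apply, smul_eq_mul]
    calc (volume (K D b))⁻¹ * volume (K D b ∩ qjaF W D b w0 y ⁻¹' A)
        ≤ (volume (K D b))⁻¹ * (2 ^ (50 * W.card) * volume A * volume (K D b)) := by
          gcongr
          exact qja_vol hb hw hD hA
      _ = 2 ^ (50 * W.card) * volume A * ((volume (K D b))⁻¹ * volume (K D b)) := by ring
      _ = 2 ^ (50 * W.card) * volume A := by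
          rw [ENNReal.inv_mul_cancel hZ0 hZt, mul_one]
  have hae : ∀ᵐ h ∂(Mu D b), h ∈ K D b := by
    unfold Mu
    exact ProbabilityTheory.ae_cond_mem (K_meas D b)
  have hgm : Measurable (S.indicator fun σ => g (ex0 W w0 σ)) :=
    (hg.comp (qja_ex W w0)).indicator hSm
  calc ∫⁻ h, g (rs W y (gl D b h)) ∂(Mu D b)
      = ∫⁻ h, (S.indicator fun σ => g (ex0 W w0 σ)) (qjaF W D b w0 y h) ∂(Mu D b) := by
        refine lintegral_congr_ae ?_
        filter_upwards [hae] with h hh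
        have h1 : qjaF W D b w0 y h ∈ S := by
          intro w
          have h2 := gl_lip hb hh (y + w.1) (y + w0)
          rw [add_sub_add_left_eq_sub] at h2
          exact h2
        rw [indicator_of_mem h1, ← hgs (ex0 W w0 (qjaF W D b w0 y h)) (gl D b h (y + w0))]
        congr 1
        funext w
        show gl D b h (y + w.1) = gl (W.erase w0) (fun _ => 0) (qjaF W D b w0 y h) w.1 +
          gl D b h (y + w0)
        by_cases hw1 : w.1 = w0
        · rw [hw1, gl_not_mem (R := W.erase w0) (Finset.notMem_erase _ _), zero_add]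
        · rw [gl_mem (R := W.erase w0) (Finset.mem_erase.2 ⟨hw1, w.2⟩)]
          unfold qjaF
          rw [sub_add_cancel]
    _ = ∫⁻ σ, (S.indicator fun σ => g (ex0 W w0 σ)) σ
          ∂(Measure.map (qjaF W D b w0 y) (Mu D b)) :=
        (lintegral_map hgm (qja_meas W D b w0 y)).symm
    _ ≤ ∫⁻ σ, (S.indicator fun σ => g (ex0 W w0 σ)) σ
          ∂((2 ^ (50 * W.card) : ℝ≥0∞) • (volume : Measure (↥(W.erase w0) → ℝ))) :=
        lintegral_mono' hle le_rfl
    _ = 2 ^ (50 * W.card) * LW W w0 g := by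
        rw [lintegral_smul_measure, lintegral_indicator hSm, smul_eq_mul]
        rfl
/- END qja -/

/-- restriction of a field on the window `nb B` to the fibre with outside values `β` -/
def fr (B : Finset (ℤ × ℤ)) (V : ℤ × ℤ → (nb B → ℝ) → ℝ) (β : ℤ × ℤ → ℝ) :
    ℤ × ℤ → (B → ℝ) → ℝ := fun z a => V z (rs (nb B) 0 (gl B β a))

/-- normalised fibre functional of a window field -/
def Jn (B : Finset (ℤ × ℤ)) (m : ℕ) (d : ℝ × ℝ) (V : ℤ × ℤ → (nb B → ℝ) → ℝ) (β : ℤ × ℤ → ℝ) :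
    ℝ := Jt B m d (fr B V β) β / (Z B β).toReal

/- MODULE qjb
Finitely many fields are almost enough: `Th - max_{j ≤ n} Jt (v j) / Z` decreases to `0` pointwise
(`Th_seq`; if `Z = 0` everything is `0`), is bounded by `C qd` (because `v 0 = 0`), and the domain
of `LW` has finite volume; `w0 ∉ B`. -/
/-- the domain of `LW` -/
private def qjbS (W : Finset (ℤ × ℤ)) (w0 : ℤ × ℤ) : Set (↥(W.erase w0) → ℝ) :=
  {σ | ∀ w : ↥(W.erase w0), |σ w| ≤ dn (w.1 - w0)}

private theorem qjb_meas (W : Finset (ℤ × ℤ)) (w0 : ℤ × ℤ) : MeasurableSet (qjbS W w0) := by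
  have h1 : qjbS W w0 = ⋂ w : ↥(W.erase w0),
      {σ : ↥(W.erase w0) → ℝ | |σ w| ≤ ((dn (w.1 - w0) : ℤ) : ℝ)} := by
    ext σ
    rw [mem_iInter]
    rfl
  rw [h1]
  exact MeasurableSet.iInter fun w =>
    measurableSet_le (measurable_pi_apply w).abs measurable_const

private theorem qjb_vol (W : Finset (ℤ × ℤ)) (w0 : ℤ × ℤ) : volume (qjbS W w0) < ⊤ := by
  have h1 : qjbS W w0 ⊆ Icc (fun w : ↥(W.erase w0) => -((dn (w.1 - w0) : ℤ) : ℝ))
      (fun w => ((dn (w.1 - w0) : ℤ) : ℝ)) := by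
    intro σ hσ
    exact ⟨fun w => (abs_le.1 (hσ w)).1, fun w => (abs_le.1 (hσ w)).2⟩
  exact (measure_mono h1).trans_lt isCompact_Icc.measure_lt_top

private theorem qjb_ex (W : Finset (ℤ × ℤ)) (w0 : ℤ × ℤ) : Measurable (ex0 W w0) := by
  rw [measurable_pi_iff]
  intro w
  exact gl_meas _ _ _

private theorem qjb_J0 (B : Finset (ℤ × ℤ)) (m : ℕ) (d : ℝ × ℝ) (β : ℤ × ℤ → ℝ) :
    Jt B m d ((0 : LN B B) : ℤ × ℤ → (B → ℝ) → ℝ) β = 0 := by
  obtain ⟨Q, l0, l1, -, -, -, h⟩ := forms B β B m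
  have h1 := h d 0
  simp only [map_zero, mul_zero, add_zero, sub_zero] at h1
  exact h1

/-- the maximum of the first fields -/
private def qjbM (B : Finset (ℤ × ℤ)) (m : ℕ) (d : ℝ × ℝ) (v : ℕ → LN B B) (n : ℕ)
    (k : nb B → ℝ) : ℝ :=
  Finset.univ.sup' (Finset.univ_nonempty (α := Fin (n + 1)))
    (fun j => Jt B m d (v j).1 (g0 (nb B) k) / (Z B (g0 (nb B) k)).toReal)

private theorem qjb_Mm (B : Finset (ℤ × ℤ)) (m : ℕ) (d : ℝ × ℝ) (v : ℕ → LN B B) (n : ℕ) :
    Measurable (qjbM B m d v n) := by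
  have h1 := Finset.measurable_sup' (Finset.univ_nonempty (α := Fin (n + 1)))
    (f := fun (j : Fin (n + 1)) (k : nb B → ℝ) =>
      Jt B m d (v j).1 (g0 (nb B) k) / (Z B (g0 (nb B) k)).toReal)
    (fun j _ => ((Jt_cont B m d (v j).2).measurable).div (Z_cont B).measurable)
  have h2 : qjbM B m d v n = Finset.univ.sup' (Finset.univ_nonempty (α := Fin (n + 1)))
      (fun (j : Fin (n + 1)) (k : nb B → ℝ) =>
        Jt B m d (v j).1 (g0 (nb B) k) / (Z B (g0 (nb B) k)).toReal) := by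
    funext k
    unfold qjbM
    rw [Finset.sup'_apply]
  rw [h2]
  exact h1

private theorem qjb_M0 {B : Finset (ℤ × ℤ)} {m : ℕ} {d : ℝ × ℝ} {v : ℕ → LN B B} (hv : v 0 = 0)
    (n : ℕ) (k : nb B → ℝ) : 0 ≤ qjbM B m d v n k := by
  have h1 := Finset.le_sup' (fun j : Fin (n + 1) => Jt B m d (v j).1 (g0 (nb B) k) /
    (Z B (g0 (nb B) k)).toReal) (Finset.mem_univ 0)
  refine le_trans (le_of_eq ?_) h1
  show (0 : ℝ) = Jt B m d (v ((0 : Fin (n + 1)) : ℕ)).1 _ / _
  rw [Fin.val_zero, hv, qjb_J0, zero_div]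

private theorem qjb_lim {B : Finset (ℤ × ℤ)} {m : ℕ} {d : ℝ × ℝ} {v : ℕ → LN B B}
    (hv0 : v 0 = 0) (hv : ∀ k : nb B → ℝ,
      IsLUB (range fun j => Jt B m d (v j).1 (g0 (nb B) k)) (Tt B m d (g0 (nb B) k)))
    (k : nb B → ℝ) : Filter.Tendsto (fun n => ENNReal.ofReal (Th B m d (g0 (nb B) k) -
      qjbM B m d v n k)) Filter.atTop (nhds 0) := by
  rcases eq_or_ne (Z B (g0 (nb B) k)).toReal 0 with hZ | hZ
  · have h1 : ∀ n, ENNReal.ofReal (Th B m d (g0 (nb B) k) - qjbM B m d v n k) = 0 := by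
      intro n
      rw [ENNReal.ofReal_eq_zero]
      have h2 : Th B m d (g0 (nb B) k) = 0 := by
        unfold Th
        rw [hZ, div_zero]
      have h3 := qjb_M0 (B := B) (m := m) (d := d) hv0 n k
      linarith
    simp only [h1]
    exact tendsto_const_nhds
  · have hZ1 : 0 < (Z B (g0 (nb B) k)).toReal := lt_of_le_of_ne ENNReal.toReal_nonneg hZ.symm
    rw [ENNReal.tendsto_atTop_zero]
    intro ε hε
    rcases eq_or_ne ε ⊤ with ht | ht
    · exact ⟨0, fun n _ => by rw [ht]; exact le_top⟩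
    have hε' : 0 < ε.toReal := ENNReal.toReal_pos hε.ne' ht
    have h1 : Tt B m d (g0 (nb B) k) - ε.toReal * (Z B (g0 (nb B) k)).toReal <
        Tt B m d (g0 (nb B) k) := by
      have := mul_pos hε' hZ1
      linarith
    obtain ⟨_, ⟨j, rfl⟩, hj⟩ := (lt_isLUB_iff (hv k)).1 h1
    refine ⟨j, fun n hn => ?_⟩
    have h2 := Finset.le_sup' (fun j : Fin (n + 1) => Jt B m d (v j).1 (g0 (nb B) k) /
      (Z B (g0 (nb B) k)).toReal) (Finset.mem_univ (⟨j, Nat.lt_succ_of_le hn⟩ : Fin (n + 1)))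
    have h3 : Th B m d (g0 (nb B) k) - qjbM B m d v n k ≤ ε.toReal := by
      have h4 : Th B m d (g0 (nb B) k) - Jt B m d (v j).1 (g0 (nb B) k) /
          (Z B (g0 (nb B) k)).toReal ≤ ε.toReal := by
        unfold Th
        rw [← sub_div, div_le_iff₀ hZ1]
        linarith
      have h5 : Jt B m d (v j).1 (g0 (nb B) k) / (Z B (g0 (nb B) k)).toReal ≤
          qjbM B m d v n k := h2
      linarith
    calc ENNReal.ofReal (Th B m d (g0 (nb B) k) - qjbM B m d v n k)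
        ≤ ENNReal.ofReal ε.toReal := ENNReal.ofReal_le_ofReal h3
      _ = ε := ENNReal.ofReal_toReal ht

theorem Th_fin (B : Finset (ℤ × ℤ)) (m : ℕ) (d : ℝ × ℝ) (w0 : ℤ × ℤ) {ε : ℝ≥0∞} (hε : 0 < ε) :
    ∃ (n : ℕ) (v : Fin (n + 1) → LN B B), v 0 = 0 ∧
      LW (nb B) w0 (fun k => ENNReal.ofReal (Th B m d (g0 (nb B) k) -
        (Finset.univ.sup' Finset.univ_nonempty
          (fun j => Jt B m d (v j).1 (g0 (nb B) k) / (Z B (g0 (nb B) k)).toReal)))) ≤ ε := by
  obtain ⟨v, hv0, hv⟩ := Th_seq B m d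
  obtain ⟨C, hC, hT⟩ := Th_le B m
  have h1 : Filter.Tendsto (fun n => LW (nb B) w0 (fun k => ENNReal.ofReal
      (Th B m d (g0 (nb B) k) - qjbM B m d v n k))) Filter.atTop (nhds 0) := by
    have h2 : Filter.Tendsto (fun n => ∫⁻ σ in qjbS (nb B) w0, ENNReal.ofReal
        (Th B m d (g0 (nb B) (ex0 (nb B) w0 σ)) - qjbM B m d v n (ex0 (nb B) w0 σ)))
        Filter.atTop (nhds (∫⁻ _ in qjbS (nb B) w0, 0)) := by
      refine tendsto_lintegral_of_dominated_convergence (fun _ => ENNReal.ofReal (C * qd d))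
        ?_ ?_ ?_ ?_
      · intro n
        exact (((Th_meas B m d).sub (qjb_Mm B m d v n)).ennreal_ofReal).comp (qjb_ex (nb B) w0)
      · intro n
        refine Filter.Eventually.of_forall fun σ => ENNReal.ofReal_le_ofReal ?_
        have h3 := hT d (g0 (nb B) (ex0 (nb B) w0 σ))
        have h4 := qjb_M0 (B := B) (m := m) (d := d) hv0 n (ex0 (nb B) w0 σ)
        linarith
      · rw [lintegral_const, Measure.restrict_apply_univ]
        exact ENNReal.mul_ne_top ENNReal.ofReal_ne_top (qjb_vol _ _).ne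
      · exact Filter.Eventually.of_forall fun σ => qjb_lim hv0 hv _
    rw [lintegral_zero] at h2
    exact h2
  obtain ⟨n, hn⟩ := (((ENNReal.tendsto_atTop_zero.1 h1) ε hε))
  exact ⟨n, fun j => v j, hv0, hn n le_rfl⟩
/- END qjb -/

/- MODULE qjc
Smooth approximation of a finite measurable partition.  `A : Fin (n+1) → Set (W → ℝ)` measurable,
disjoint, shift invariant.  The mollified indicators, as functions of the increments
`σ w = k w - k w0` (`w ≠ w0`): convolution of `1_{A j}` (restricted to a big box) with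
a smooth bump of small support; they are smooth with bounded derivatives, nonnegative, have sum
`≤ 1`, and converge a.e. (Lebesgue points, `ContDiffBump.ae_convolution_tendsto_right_of_locallyIntegrable`
or density of smooth functions), hence in `L1` of the domain of `LW`.  The last clause: if all `A j`
do not depend on the coordinates in `B` then the same holds for the `α j` (convolve only in the
coordinates off `B`; simply work on `(W \ B).erase w0 → ℝ` from the start). -/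
private def qjcG {ι : Type*} [Fintype ι] (φ : ContDiffBump (0 : ι → ℝ)) (f : (ι → ℝ) → ℝ) :
    (ι → ℝ) → ℝ :=
  convolution (φ.normed volume) f (ContinuousLinearMap.lsmul ℝ ℝ) volume

private theorem qjc_eq {ι : Type*} [Fintype ι] (φ : ContDiffBump (0 : ι → ℝ)) (f : (ι → ℝ) → ℝ)
    (x : ι → ℝ) : qjcG φ f x = ∫ t, φ.normed volume t * f (x - t) := by
  unfold qjcG
  rw [convolution_def]
  simp only [ContinuousLinearMap.lsmul_apply, smul_eq_mul]

private theorem qjc_li {ι : Type*} [Fintype ι] {f : (ι → ℝ) → ℝ} (hf : Measurable f)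
    (h1 : ∀ x, |f x| ≤ 1) : LocallyIntegrable f (volume : Measure (ι → ℝ)) := by
  intro x
  obtain ⟨s, hs, hs'⟩ := (volume : Measure (ι → ℝ)).finiteAt_nhds x
  refine ⟨s, hs, ?_⟩
  refine Measure.integrableOn_of_bounded (M := 1) hs'.ne hf.aestronglyMeasurable ?_
  exact Filter.Eventually.of_forall fun y => h1 y

private theorem qjc_int {ι : Type*} [Fintype ι] (φ : ContDiffBump (0 : ι → ℝ)) {f : (ι → ℝ) → ℝ}
    (hf : Measurable f) (h1 : ∀ x, |f x| ≤ 1) (x : ι → ℝ) :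
    Integrable (fun t => φ.normed volume t * f (x - t)) := by
  have h2 := φ.integrable_normed (μ := (volume : Measure (ι → ℝ)))
  refine h2.mono ?_ ?_
  · exact (h2.aestronglyMeasurable).mul
      (hf.comp (measurable_const.sub measurable_id)).aestronglyMeasurable
  · refine Filter.Eventually.of_forall fun t => ?_
    rw [norm_mul]
    exact mul_le_of_le_one_right (norm_nonneg _) (h1 _)

private theorem qjc_smooth {ι : Type*} [Fintype ι] (φ : ContDiffBump (0 : ι → ℝ))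
    {f : (ι → ℝ) → ℝ} (hf : Measurable f) (h1 : ∀ x, |f x| ≤ 1) : ContDiff ℝ ∞ (qjcG φ f) :=
  φ.hasCompactSupport_normed.contDiff_convolution_left _ φ.contDiff_normed (qjc_li hf h1)

private theorem qjc_fd {ι : Type*} [Fintype ι] (φ : ContDiffBump (0 : ι → ℝ))
    {f : (ι → ℝ) → ℝ} (hf : Measurable f) (h1 : ∀ x, |f x| ≤ 1) :
    ∃ C : ℝ, ∀ x, ‖fderiv ℝ (qjcG φ f) x‖ ≤ C := by
  have h2 : ContDiff ℝ 1 (φ.normed (volume : Measure (ι → ℝ))) := φ.contDiff_normed
  have h3 := (φ.hasCompactSupport_normed (μ := (volume : Measure (ι → ℝ)))).fderiv (𝕜 := ℝ)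
  have h4 : Integrable (fun t => ‖fderiv ℝ (φ.normed (volume : Measure (ι → ℝ))) t‖) :=
    ((h2.continuous_fderiv one_ne_zero).integrable_of_hasCompactSupport h3).norm
  refine ⟨∫ t, ‖fderiv ℝ (φ.normed (volume : Measure (ι → ℝ))) t‖, fun x => ?_⟩
  have h5 := φ.hasCompactSupport_normed.hasFDerivAt_convolution_left
    (ContinuousLinearMap.lsmul ℝ ℝ : ℝ →L[ℝ] ℝ →L[ℝ] ℝ) h2 (qjc_li hf h1) x
  have h6 : fderiv ℝ (qjcG φ f) x = _ := h5.fderiv
  rw [h6, convolution_def]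
  refine (norm_integral_le_integral_norm _).trans ?_
  refine integral_mono_of_nonneg (Filter.Eventually.of_forall fun t => norm_nonneg _)
    h4 (Filter.Eventually.of_forall fun t => ?_)
  refine ContinuousLinearMap.opNorm_le_bound _ (norm_nonneg _) fun v => ?_
  rw [ContinuousLinearMap.precompL_apply, ContinuousLinearMap.lsmul_apply, norm_smul]
  refine (mul_le_of_le_one_right (norm_nonneg _) (h1 _)).trans ?_
  exact ContinuousLinearMap.le_opNorm _ _

private theorem qjc_nn {ι : Type*} [Fintype ι] (φ : ContDiffBump (0 : ι → ℝ))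
    {f : (ι → ℝ) → ℝ} (h0 : ∀ x, 0 ≤ f x) (x : ι → ℝ) : 0 ≤ qjcG φ f x := by
  rw [qjc_eq]
  exact integral_nonneg fun t => mul_nonneg (φ.nonneg_normed t) (h0 _)

private theorem qjc_sum {ι : Type*} [Fintype ι] (φ : ContDiffBump (0 : ι → ℝ)) {n : ℕ}
    {f : Fin (n + 1) → (ι → ℝ) → ℝ} (hf : ∀ j, Measurable (f j)) (h1 : ∀ j x, |f j x| ≤ 1)
    (hs : ∀ x, ∑ j, f j x ≤ 1) (x : ι → ℝ) : ∑ j, qjcG φ (f j) x ≤ 1 := by
  simp only [qjc_eq]
  rw [← integral_finsetSum _ fun j _ => qjc_int φ (hf j) (h1 j) x]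
  rw [← φ.integral_normed (μ := (volume : Measure (ι → ℝ)))]
  refine integral_mono (integrable_finsetSum _ fun j _ => qjc_int φ (hf j) (h1 j) x)
    φ.integrable_normed fun t => ?_
  change ∑ j, φ.normed volume t * f j (x - t) ≤ _
  rw [← Finset.mul_sum]
  exact mul_le_of_le_one_right (φ.nonneg_normed t) (hs _)

private def qjcφ (ι : Type*) [Fintype ι] (i : ℕ) : ContDiffBump (0 : ι → ℝ) where
  rIn := 1 / ((i : ℝ) + 1)
  rOut := 2 / ((i : ℝ) + 1)
  rIn_pos := by positivity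
  rIn_lt_rOut := by
    have : (0 : ℝ) < (i : ℝ) + 1 := by positivity
    exact div_lt_div_of_pos_right (by norm_num) this

private theorem qjc_lim {ι : Type*} [Fintype ι] {f : (ι → ℝ) → ℝ} (hf : Measurable f)
    (h0 : ∀ x, 0 ≤ f x) (h1 : ∀ x, f x ≤ 1) {S : Set (ι → ℝ)}
    (hv : volume S < ⊤) :
    Filter.Tendsto (fun i => ∫⁻ σ in S, ENNReal.ofReal |qjcG (qjcφ ι i) f σ - f σ|)
      Filter.atTop (nhds 0) := by
  have ha : ∀ x, |f x| ≤ 1 := fun x => abs_le.2 ⟨by linarith [h0 x], h1 x⟩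
  have hr : Filter.Tendsto (fun i => (qjcφ ι i).rOut) Filter.atTop (nhds 0) := by
    change Filter.Tendsto (fun i : ℕ => 2 / ((i : ℝ) + 1)) Filter.atTop (nhds 0)
    have := (tendsto_one_div_add_atTop_nhds_zero_nat (𝕜 := ℝ)).const_mul 2
    rw [mul_zero] at this
    refine this.congr fun i => ?_
    ring
  have hae := ContDiffBump.ae_convolution_tendsto_right_of_locallyIntegrable
    (μ := (volume : Measure (ι → ℝ))) (φ := qjcφ ι) (K := 2) hr
    (Filter.Eventually.of_forall fun i => by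
      change 2 / ((i : ℝ) + 1) ≤ 2 * (1 / ((i : ℝ) + 1))
      rw [mul_one_div]) (qjc_li hf ha)
  have h2 : ∀ i x, qjcG (qjcφ ι i) f x ≤ 1 := by
    intro i x
    have := qjc_sum (n := 0) (qjcφ ι i) (f := fun _ => f) (fun _ => hf) (fun _ => ha)
      (fun x => by simpa using h1 x) x
    simpa using this
  have h3 : ∀ i x, ENNReal.ofReal |qjcG (qjcφ ι i) f x - f x| ≤ 1 := by
    intro i x
    rw [← ENNReal.ofReal_one]
    refine ENNReal.ofReal_le_ofReal (abs_le.2 ⟨?_, ?_⟩)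
    · linarith [qjc_nn (qjcφ ι i) h0 x, h1 x]
    · linarith [h2 i x, h0 x]
  have h4 := tendsto_lintegral_of_dominated_convergence (μ := volume.restrict S)
    (F := fun i σ => ENNReal.ofReal |qjcG (qjcφ ι i) f σ - f σ|) (f := fun _ => 0)
    (fun _ => (1 : ℝ≥0∞))
    (fun i => (((qjc_smooth (qjcφ ι i) hf ha).continuous.measurable.sub hf).abs).ennreal_ofReal)
    (fun i => Filter.Eventually.of_forall fun x => h3 i x)
    (by rw [lintegral_const, one_mul, Measure.restrict_apply_univ]; exact hv.ne)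
    ((ae_restrict_of_ae hae).mono fun x hx => by
      have h5 : Filter.Tendsto (fun i => qjcG (qjcφ ι i) f x) Filter.atTop (nhds (f x)) := hx
      have h6 := ENNReal.tendsto_ofReal ((h5.sub_const (f x)).abs)
      simpa using h6)
  simpa using h4

private def qjcP (W : Finset (ℤ × ℤ)) (w0 : W) : (W → ℝ) →L[ℝ] (↥(W.erase w0.1) → ℝ) :=
  ContinuousLinearMap.pi fun w =>
    ContinuousLinearMap.proj (R := ℝ) (φ := fun _ : W => ℝ) ⟨w.1, Finset.mem_of_mem_erase w.2⟩ -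
      ContinuousLinearMap.proj (R := ℝ) (φ := fun _ : W => ℝ) w0

private theorem qjc_P (W : Finset (ℤ × ℤ)) (w0 : W) (k : W → ℝ) (w : ↥(W.erase w0.1)) :
    qjcP W w0 k w = k ⟨w.1, Finset.mem_of_mem_erase w.2⟩ - k w0 := rfl

private theorem qjc_exm {W : Finset (ℤ × ℤ)} (w0 : ℤ × ℤ) (σ : ↥(W.erase w0) → ℝ) (w : W)
    (hw : w.1 ≠ w0) : ex0 W w0 σ w = σ ⟨w.1, Finset.mem_erase.2 ⟨hw, w.2⟩⟩ :=
  gl_mem (Finset.mem_erase.2 ⟨hw, w.2⟩)

private theorem qjc_exz {W : Finset (ℤ × ℤ)} (w0 : ℤ × ℤ) (σ : ↥(W.erase w0) → ℝ) (w : W)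
    (hw : w.1 = w0) : ex0 W w0 σ w = 0 :=
  gl_not_mem fun h => (Finset.mem_erase.1 h).1 hw

private theorem qjc_exP (W : Finset (ℤ × ℤ)) (w0 : W) (k : W → ℝ) :
    ex0 W w0.1 (qjcP W w0 k) = fun w => k w + (- k w0) := by
  funext w
  by_cases hw : w.1 = w0.1
  · rw [qjc_exz w0.1 _ w hw, show w = w0 from Subtype.ext hw]
    ring
  · rw [qjc_exm w0.1 _ w hw, qjc_P]
    ring

private theorem qjc_Pex (W : Finset (ℤ × ℤ)) (w0 : W) (σ : ↥(W.erase w0.1) → ℝ) :
    qjcP W w0 (ex0 W w0.1 σ) = σ := by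
  funext w
  rw [qjc_P, qjc_exz w0.1 σ w0 rfl, qjc_exm w0.1 σ ⟨w.1, Finset.mem_of_mem_erase w.2⟩
    (Finset.mem_erase.1 w.2).1, sub_zero]

private theorem qjc_exmeas (W : Finset (ℤ × ℤ)) (w0 : ℤ × ℤ) : Measurable (ex0 W w0) := by
  refine measurable_pi_lambda _ fun w => ?_
  exact gl_meas _ _ _

theorem mollify (W B : Finset (ℤ × ℤ)) {w0 : ℤ × ℤ} (hw : w0 ∈ W) (hwB : w0 ∉ B) (n : ℕ)
    (A : Fin (n + 1) → Set (W → ℝ)) (hA : ∀ j, MeasurableSet (A j))
    (hd : Pairwise (fun i j => Disjoint (A i) (A j)))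
    (hs : ∀ j k t, (fun w => k w + t) ∈ A j ↔ k ∈ A j)
    (hB : ∀ j (k k' : W → ℝ), (∀ w : W, w.1 ∉ B → k w = k' w) → (k ∈ A j ↔ k' ∈ A j))
    {ε : ℝ≥0∞} (hε : 0 < ε) :
    ∃ α : Fin (n + 1) → (W → ℝ) → ℝ, (∀ j, ContDiff ℝ ∞ (α j)) ∧ (∀ j, Shf W (α j)) ∧
      (∀ j (k k' : W → ℝ), (∀ w : W, w.1 ∉ B → k w = k' w) → α j k = α j k') ∧
      (∀ j k, 0 ≤ α j k) ∧ (∀ k, ∑ j, α j k ≤ 1) ∧
      (∃ C : ℝ, ∀ j y k, |pz W y (α j) k| ≤ C) ∧
      ∑ j, LW W w0 (fun k => ENNReal.ofReal |α j k - (A j).indicator (fun _ => 1) k|) ≤ ε := by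
  classical
  set w1 : W := ⟨w0, hw⟩ with hw1
  set f : Fin (n + 1) → (↥(W.erase w0) → ℝ) → ℝ :=
    fun j σ => (A j).indicator (fun _ => (1 : ℝ)) (ex0 W w0 σ) with hfdef
  have hfm : ∀ j, Measurable (f j) := fun j =>
    (measurable_const.indicator (hA j)).comp (qjc_exmeas W w0)
  have hf0 : ∀ j x, 0 ≤ f j x := fun j x => indicator_nonneg (fun _ _ => zero_le_one) _
  have hfs : ∀ x, ∑ j, f j x ≤ 1 := by
    intro x
    by_cases h : ∃ j, ex0 W w0 x ∈ A j
    · obtain ⟨j, hj⟩ := h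
      rw [Finset.sum_eq_single j]
      · simp [hfdef, hj]
      · intro i _ hij
        have : ex0 W w0 x ∉ A i := fun hi => (disjoint_left.1 (hd hij) hi) hj
        simp [hfdef, this]
      · intro h
        exact absurd (Finset.mem_univ j) h
    · push Not at h
      have : ∀ j, f j x = 0 := fun j => by simp [hfdef, h j]
      simp [this]
  have hf1 : ∀ j x, f j x ≤ 1 := fun j x => indicator_le_self' (f := fun _ => (1 : ℝ))
    (fun _ _ => zero_le_one) (ex0 W w0 x)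
  have hfa : ∀ j x, |f j x| ≤ 1 := fun j x => abs_le.2 ⟨by linarith [hf0 j x], hf1 j x⟩
  set S : Set (↥(W.erase w0) → ℝ) := {σ | ∀ w : ↥(W.erase w0), |σ w| ≤ dn (w.1 - w0)} with hS
  have hSv : volume S < ⊤ := by
    have hsub : S ⊆ Set.pi univ fun w : ↥(W.erase w0) =>
        Icc (-(dn (w.1 - w0) : ℝ)) (dn (w.1 - w0) : ℝ) := by
      intro σ hσ w _
      exact abs_le.1 (hσ w)
    refine (measure_mono hsub).trans_lt ?_
    exact (isCompact_univ_pi fun w => isCompact_Icc).measure_lt_top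
  have hlim : Filter.Tendsto (fun i => ∑ j, ∫⁻ σ in S,
      ENNReal.ofReal |qjcG (qjcφ ↥(W.erase w0) i) (f j) σ - f j σ|) Filter.atTop (nhds 0) := by
    have := tendsto_finsetSum (f := fun j i => ∫⁻ σ in S,
      ENNReal.ofReal |qjcG (qjcφ ↥(W.erase w0) i) (f j) σ - f j σ|) Finset.univ
      (fun j _ => qjc_lim (hfm j) (hf0 j) (hf1 j) hSv)
    simpa using this
  obtain ⟨i, hi⟩ := (hlim.eventually (gt_mem_nhds hε)).exists
  set φ := qjcφ ↥(W.erase w0) i with hφ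
  have hC : ∀ j, ∃ C : ℝ, ∀ x, ‖fderiv ℝ (qjcG φ (f j)) x‖ ≤ C := fun j => qjc_fd φ (hfm j) (hfa j)
  choose C hC using hC
  have hP : ContDiff ℝ ∞ (qjcP W w1) := (qjcP W w1).contDiff
  refine ⟨fun j k => qjcG φ (f j) (qjcP W w1 k), ?_, ?_, ?_, ?_, ?_, ?_, ?_⟩
  · exact fun j => (qjc_smooth φ (hfm j) (hfa j)).comp hP
  · intro j k t
    have : qjcP W w1 (fun w => k w + t) = qjcP W w1 k := by
      funext w
      simp only [qjc_P]
      ring
    change qjcG φ (f j) (qjcP W w1 (fun w => k w + t)) = qjcG φ (f j) (qjcP W w1 k)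
    rw [this]
  · intro j k k' h
    change qjcG φ (f j) (qjcP W w1 k) = qjcG φ (f j) (qjcP W w1 k')
    rw [qjc_eq, qjc_eq]
    refine integral_congr_ae (Filter.Eventually.of_forall fun t => ?_)
    change φ.normed volume t * f j (qjcP W w1 k - t) = φ.normed volume t * f j (qjcP W w1 k' - t)
    have h2 : ex0 W w0 (qjcP W w1 k - t) ∈ A j ↔ ex0 W w0 (qjcP W w1 k' - t) ∈ A j := by
      refine hB j _ _ fun w hwb => ?_
      by_cases hww : w.1 = w0
      · rw [qjc_exz w0 _ w hww, qjc_exz w0 _ w hww]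
      · rw [qjc_exm w0 _ w hww, qjc_exm w0 _ w hww, Pi.sub_apply, Pi.sub_apply, qjc_P, qjc_P,
          h _ hwb, h w1 hwB]
    congr 1
    simp only [hfdef, indicator_apply, h2]
  · exact fun j k => qjc_nn φ (hf0 j) _
  · exact fun k => qjc_sum φ hfm hfa hfs _
  · refine ⟨∑ j, |C j| * ‖qjcP W w1‖, fun j y k => ?_⟩
    have hpos : 0 ≤ ∑ j, |C j| * ‖qjcP W w1‖ := Finset.sum_nonneg fun j _ => by positivity
    unfold pz
    split_ifs with hy
    · unfold pd
      have h2 : HasFDerivAt (fun k => qjcG φ (f j) (qjcP W w1 k))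
          ((fderiv ℝ (qjcG φ (f j)) (qjcP W w1 k)).comp (qjcP W w1)) k :=
        (((qjc_smooth φ (hfm j) (hfa j)).differentiable (by simp)) _).hasFDerivAt.comp k
          (qjcP W w1).hasFDerivAt
      rw [h2.fderiv, ← Real.norm_eq_abs]
      refine (ContinuousLinearMap.le_opNorm _ _).trans ?_
      have h3 : ‖(Pi.single (⟨y, hy⟩ : W) (1 : ℝ) : W → ℝ)‖ = 1 := by
        rw [Pi.norm_single, norm_one]
      rw [h3, mul_one]
      refine (ContinuousLinearMap.opNorm_comp_le _ _).trans ?_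
      refine (mul_le_mul_of_nonneg_right ((hC j _).trans (le_abs_self _)) (norm_nonneg _)).trans ?_
      exact Finset.single_le_sum (f := fun j => |C j| * ‖qjcP W w1‖)
        (fun j _ => by positivity) (Finset.mem_univ j)
    · rw [abs_zero]
      exact hpos
  · refine le_trans (le_of_eq ?_) hi.le
    refine Finset.sum_congr rfl fun j _ => ?_
    unfold LW
    refine lintegral_congr fun σ => ?_
    change ENNReal.ofReal |qjcG φ (f j) (qjcP W w1 (ex0 W w0 σ)) -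
      (A j).indicator (fun _ => 1) (ex0 W w0 σ)| = _
    rw [show qjcP W w1 (ex0 W w0 σ) = σ from qjc_Pex W w1 σ]
/- END qjc -/

/- MODULE qjd
THE UNIVERSAL NEAR-MAXIMISER.  `v j`, `n` from `Th_fin`; `A j` = the set of `k` such that `j` is the
first index with the maximal value of `Jt (v j) / Z` (measurable, depends only on the values off `B`,
shift invariant); `α j` from `mollify`; put
`V z k = χ (k|_B - k w0) * ∑ j, α j k * v j z (k|_B - k w0)`, where `χ : (B → ℝ) → ℝ` is smooth with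
compact support, `χ = 1` for `|a x| ≤ R_B` (all fibre points with outside values in the domain of
`LW` satisfy this, with `R_B = 2 * (diam + card B)`).  `Jt` is concave in the field (`forms`), so
`Jn V ≥ ∑ j α j Jt (v j)/Z` on the domain, `≥ max_j - C qd ∑ |α j - 1_{A j}|`. -/
/-- normalised window -/
private def qjdN (W : Finset (ℤ × ℤ)) (w0 : W) (k : W → ℝ) : W → ℝ := fun w => k w + (- k w0)

private theorem qjd_Nm (W : Finset (ℤ × ℤ)) (w0 : W) : Continuous (qjdN W w0) := by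
  unfold qjdN
  exact continuous_pi fun w => (continuous_apply w).add (continuous_apply w0).neg

private theorem qjd_Nex (W : Finset (ℤ × ℤ)) (w0 : W) (σ : ↥(W.erase w0.1) → ℝ) :
    qjdN W w0 (ex0 W w0.1 σ) = ex0 W w0.1 σ := by
  funext w
  unfold qjdN
  rw [qjc_exz w0.1 σ w0 rfl]
  ring

private theorem qjd_mem {B : Finset (ℤ × ℤ)} {z : ℤ × ℤ} (hz : z ∈ B) : z ∈ nb B :=
  mem_nb.2 (Or.inl hz)

/-- the heights of `B` relative to `w0` -/
private def qjdR (B : Finset (ℤ × ℤ)) (w0 : nb B) : (nb B → ℝ) →L[ℝ] (B → ℝ) :=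
  ContinuousLinearMap.pi fun x =>
    ContinuousLinearMap.proj (R := ℝ) (φ := fun _ : nb B => ℝ) ⟨x.1, qjd_mem x.2⟩ -
      ContinuousLinearMap.proj (R := ℝ) (φ := fun _ : nb B => ℝ) w0

private theorem qjd_R (B : Finset (ℤ × ℤ)) (w0 : nb B) (k : nb B → ℝ) (x : B) :
    qjdR B w0 k x = k ⟨x.1, qjd_mem x.2⟩ - k w0 := rfl

/-- the value of the `j`-th field -/
private def qjdM (B : Finset (ℤ × ℤ)) (m : ℕ) (d : ℝ × ℝ) (w0 : nb B) (v : LN B B)
    (k : nb B → ℝ) : ℝ :=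
  Jt B m d v.1 (g0 (nb B) (qjdN (nb B) w0 k)) / (Z B (g0 (nb B) (qjdN (nb B) w0 k))).toReal

private theorem qjd_Mm (B : Finset (ℤ × ℤ)) (m : ℕ) (d : ℝ × ℝ) (w0 : nb B) (v : LN B B) :
    Measurable (qjdM B m d w0 v) :=
  (((Jt_cont B m d v.2).comp (qjd_Nm _ w0)).measurable).div
    (((Z_cont B).comp (qjd_Nm _ w0)).measurable)

private theorem qjd_Ms (B : Finset (ℤ × ℤ)) (m : ℕ) (d : ℝ × ℝ) (w0 : nb B) (v : LN B B)
    (k : nb B → ℝ) (t : ℝ) : qjdM B m d w0 v (fun w => k w + t) = qjdM B m d w0 v k := by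
  have h1 : qjdN (nb B) w0 (fun w => k w + t) = qjdN (nb B) w0 k := by
    funext w
    unfold qjdN
    ring
  unfold qjdM
  rw [h1]

private theorem qjd_Ml (B : Finset (ℤ × ℤ)) (m : ℕ) (d : ℝ × ℝ) (w0 : nb B) (hw : w0.1 ∉ B)
    (v : LN B B) {k k' : nb B → ℝ} (h : ∀ w : nb B, w.1 ∉ B → k w = k' w) :
    qjdM B m d w0 v k = qjdM B m d w0 v k' := by
  have h1 : ∀ z, z ∈ nb B → z ∉ B → g0 (nb B) (qjdN (nb B) w0 k) z =
      g0 (nb B) (qjdN (nb B) w0 k') z := by
    intro z hz hzB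
    rw [qia_g0 _ hz, qia_g0 _ hz]
    unfold qjdN
    rw [h ⟨z, hz⟩ hzB, h w0 hw]
  unfold qjdM
  rw [Jt_loc B m d v.1 h1]
  unfold Z
  rw [qib_K h1]

/-- the index `j` is the first one with the maximal value -/
private def qjdA (B : Finset (ℤ × ℤ)) (m : ℕ) (d : ℝ × ℝ) (w0 : nb B) {n : ℕ}
    (v : Fin (n + 1) → LN B B) (j : Fin (n + 1)) : Set (nb B → ℝ) :=
  {k | (∀ i, qjdM B m d w0 (v i) k ≤ qjdM B m d w0 (v j) k) ∧
    ∀ i, i < j → qjdM B m d w0 (v i) k < qjdM B m d w0 (v j) k}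

private theorem qjd_Am (B : Finset (ℤ × ℤ)) (m : ℕ) (d : ℝ × ℝ) (w0 : nb B) {n : ℕ}
    (v : Fin (n + 1) → LN B B) (j : Fin (n + 1)) : MeasurableSet (qjdA B m d w0 v j) := by
  have h1 : qjdA B m d w0 v j =
      (⋂ i, {k | qjdM B m d w0 (v i) k ≤ qjdM B m d w0 (v j) k}) ∩
      ⋂ i, ⋂ (_ : i < j), {k | qjdM B m d w0 (v i) k < qjdM B m d w0 (v j) k} := by
    ext k
    simp only [qjdA, mem_ofPred_eq, mem_inter_iff, mem_iInter]
  rw [h1]
  refine (MeasurableSet.iInter fun i => measurableSet_le (qjd_Mm B m d w0 _)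
    (qjd_Mm B m d w0 _)).inter ?_
  exact MeasurableSet.iInter fun i => MeasurableSet.iInter fun _ =>
    measurableSet_lt (qjd_Mm B m d w0 _) (qjd_Mm B m d w0 _)

private theorem qjd_Ad (B : Finset (ℤ × ℤ)) (m : ℕ) (d : ℝ × ℝ) (w0 : nb B) {n : ℕ}
    (v : Fin (n + 1) → LN B B) :
    Pairwise (fun i j => Disjoint (qjdA B m d w0 v i) (qjdA B m d w0 v j)) := by
  intro i j hij
  refine disjoint_left.2 fun k hi hj => ?_
  rcases lt_or_gt_of_ne hij with h | h
  · exact absurd (hj.2 i h) (not_lt.2 (hi.1 j))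
  · exact absurd (hi.2 j h) (not_lt.2 (hj.1 i))

private theorem qjd_Aex (B : Finset (ℤ × ℤ)) (m : ℕ) (d : ℝ × ℝ) (w0 : nb B) {n : ℕ}
    (v : Fin (n + 1) → LN B B) (k : nb B → ℝ) : ∃ j, k ∈ qjdA B m d w0 v j := by
  classical
  obtain ⟨j0, -, hj0⟩ := Finset.exists_max_image Finset.univ
    (fun j : Fin (n + 1) => qjdM B m d w0 (v j) k) Finset.univ_nonempty
  have hne : (Finset.univ.filter fun j : Fin (n + 1) =>
      ∀ i, qjdM B m d w0 (v i) k ≤ qjdM B m d w0 (v j) k).Nonempty :=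
    ⟨j0, Finset.mem_filter.2 ⟨Finset.mem_univ _, fun i => hj0 i (Finset.mem_univ _)⟩⟩
  refine ⟨_, (Finset.mem_filter.1 (Finset.min'_mem _ hne)).2, fun i hi => ?_⟩
  by_contra hcon
  rw [not_lt] at hcon
  have h1 : i ∈ Finset.univ.filter fun j : Fin (n + 1) =>
      ∀ i, qjdM B m d w0 (v i) k ≤ qjdM B m d w0 (v j) k :=
    Finset.mem_filter.2 ⟨Finset.mem_univ _, fun i' =>
      ((Finset.mem_filter.1 (Finset.min'_mem _ hne)).2 i').trans hcon⟩
  exact absurd (Finset.min'_le _ _ h1) (not_le.2 hi)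

/-- Jensen for a quadratic form and weights with sum at most one -/
private theorem qjd_jensen {E : Type*} [AddCommGroup E] [Module ℝ E] (Q : E →ₗ[ℝ] E →ₗ[ℝ] ℝ)
    (hs : ∀ u v, Q u v = Q v u) (h0 : ∀ u, 0 ≤ Q u u) {n : ℕ} (α : Fin (n + 1) → ℝ)
    (hα : ∀ j, 0 ≤ α j) (h1 : ∑ j, α j ≤ 1) (v : Fin (n + 1) → E) :
    Q (∑ j, α j • v j) (∑ j, α j • v j) ≤ ∑ j, α j * Q (v j) (v j) := by
  have h2 : ∀ i j, 2 * Q (v i) (v j) ≤ Q (v i) (v i) + Q (v j) (v j) := by
    intro i j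
    have h3 := h0 (v i - v j)
    simp only [map_sub, LinearMap.sub_apply] at h3
    have := hs (v i) (v j)
    linarith
  have h4 : Q (∑ j, α j • v j) (∑ j, α j • v j) = ∑ i, ∑ j, α i * α j * Q (v i) (v j) := by
    rw [map_sum]
    refine Finset.sum_congr rfl fun i _ => ?_
    rw [map_smul, smul_eq_mul, map_sum, LinearMap.sum_apply, Finset.mul_sum]
    refine Finset.sum_congr rfl fun j _ => ?_
    rw [map_smul, LinearMap.smul_apply, smul_eq_mul, hs (v j) (v i)]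
    ring
  have h5 : ∑ i, ∑ j, α i * α j * Q (v i) (v j) ≤
      ∑ i, ∑ j, α i * α j * ((Q (v i) (v i) + Q (v j) (v j)) / 2) := by
    refine Finset.sum_le_sum fun i _ => Finset.sum_le_sum fun j _ => ?_
    exact mul_le_mul_of_nonneg_left (by linarith [h2 i j]) (mul_nonneg (hα i) (hα j))
  have h6 : ∑ i, ∑ j, α i * α j * ((Q (v i) (v i) + Q (v j) (v j)) / 2) =
      (∑ j, α j) * ∑ j, α j * Q (v j) (v j) := by
    have h7 : ∀ i j, α i * α j * ((Q (v i) (v i) + Q (v j) (v j)) / 2) =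
        (α i * Q (v i) (v i)) * (α j) / 2 + (α i) * (α j * Q (v j) (v j)) / 2 := by
      intro i j
      ring
    simp only [h7, Finset.sum_add_distrib]
    simp only [← Finset.sum_div, ← Finset.mul_sum, ← Finset.sum_mul]
    ring
  have h8 : 0 ≤ ∑ j, α j * Q (v j) (v j) := Finset.sum_nonneg fun j _ => mul_nonneg (hα j) (h0 _)
  rw [h4]
  refine (h5.trans (le_of_eq h6)).trans ?_
  exact mul_le_of_le_one_left h8 h1

private theorem qjd_conc (B : Finset (ℤ × ℤ)) (m : ℕ) (d : ℝ × ℝ) (β : ℤ × ℤ → ℝ) {n : ℕ}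
    (α : Fin (n + 1) → ℝ) (hα : ∀ j, 0 ≤ α j) (h1 : ∑ j, α j ≤ 1) (v : Fin (n + 1) → LN B B) :
    ∑ j, α j * Jt B m d (v j).1 β ≤ Jt B m d (∑ j, α j • v j : LN B B).1 β := by
  obtain ⟨Q, l0, l1, hs, h0, -, h⟩ := forms B β B m
  have h2 := qjd_jensen Q hs h0 α hα h1 v
  have h3 : ∀ u : LN B B, Jt B m d u.1 β = d.1 * l0 u + d.2 * l1 u - Q u u := fun u => h d u
  rw [h3]
  simp only [h3]
  have h4 : l0 (∑ j, α j • v j) = ∑ j, α j * l0 (v j) := by
    rw [map_sum]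
    exact Finset.sum_congr rfl fun j _ => by rw [map_smul, smul_eq_mul]
  have h5 : l1 (∑ j, α j • v j) = ∑ j, α j * l1 (v j) := by
    rw [map_sum]
    exact Finset.sum_congr rfl fun j _ => by rw [map_smul, smul_eq_mul]
  have h6 : ∑ j, α j * (d.1 * l0 (v j) + d.2 * l1 (v j) - Q (v j) (v j)) =
      d.1 * (∑ j, α j * l0 (v j)) + d.2 * (∑ j, α j * l1 (v j)) - ∑ j, α j * Q (v j) (v j) := by
    rw [Finset.mul_sum, Finset.mul_sum, ← Finset.sum_add_distrib, ← Finset.sum_sub_distrib]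
    exact Finset.sum_congr rfl fun j _ => by ring
  rw [h4, h5, h6]
  linarith

/-- the functional depends only on the germs at the points of the fibre of the values on `B` -/
private theorem qjd_germ (B : Finset (ℤ × ℤ)) (m : ℕ) (d : ℝ × ℝ) (β : ℤ × ℤ → ℝ)
    {u v : ℤ × ℤ → (B → ℝ) → ℝ} (h : ∀ a ∈ K B β, ∀ z ∈ B, u z =ᶠ[nhds a] v z) :
    Jt B m d u β = Jt B m d v β := by
  unfold Jt
  refine setIntegral_congr_fun (K_meas B β) fun a ha => ?_
  have h1 : en B B u a = en B B v a := by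
    unfold en
    refine Finset.sum_congr rfl fun x hx => Finset.sum_congr rfl fun y hy => ?_
    unfold pz pd
    rw [(h a ha x hx).fderiv_eq]
  have h2 : ∀ i, sx B β B m u i a = sx B β B m v i a := by
    intro i
    unfold sx
    refine Finset.sum_congr rfl fun x hx => ?_
    have hx1 : x ∈ B := mem_inn.1 hx x (by
      rw [sub_self, (dn_zero_iff 0).2 rfl]
      positivity)
    have hx2 : x + st i ∈ B := mem_inn.1 hx _ (by
      rw [add_sub_cancel_left, (dn_one_iff (st i)).2 ⟨i, rfl⟩]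
      push_cast
      linarith)
    rw [(h a ha x hx1).eq_of_nhds, (h a ha _ hx2).eq_of_nhds]
  unfold Jf
  rw [h1]
  simp only [h2]

private theorem qjd_pzsum {S : Finset (ℤ × ℤ)} {y : ℤ × ℤ} {n : ℕ}
    {f : Fin (n + 1) → (S → ℝ) → ℝ} {k : S → ℝ} (hf : ∀ j, DifferentiableAt ℝ (f j) k) :
    pz S y (fun k => ∑ j, f j k) k = ∑ j, pz S y (f j) k := by
  unfold pz
  split_ifs with hy
  · unfold pd
    have h1 : HasFDerivAt (fun k => ∑ j, f j k) (∑ j, fderiv ℝ (f j) k) k :=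
      HasFDerivAt.fun_sum fun j _ => (hf j).hasFDerivAt
    rw [h1.fderiv, _root_.sum_apply]
  · simp

/-- the cut-off -/
private def qjdχ (B : Finset (ℤ × ℤ)) (R : ℝ) (hR : 0 ≤ R) : ContDiffBump (0 : B → ℝ) where
  rIn := R + 1
  rOut := R + 2
  rIn_pos := by linarith
  rIn_lt_rOut := by linarith

private theorem qjd_χ1 {B : Finset (ℤ × ℤ)} {R : ℝ} (hR : 0 ≤ R) {a : B → ℝ}
    (ha : ∀ x, |a x| ≤ R) : (qjdχ B R hR : (B → ℝ) → ℝ) =ᶠ[nhds a] 1 := by
  refine (qjdχ B R hR).eventuallyEq_one_of_mem_ball ?_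
  rw [mem_ball_zero_iff]
  have h1 : ‖a‖ ≤ R := (pi_norm_le_iff_of_nonneg hR).2 ha
  change ‖a‖ < R + 1
  linarith

/-- bounded smooth pieces -/
private theorem qjd_bd {B : Finset (ℤ × ℤ)} {R : ℝ} (hR : 0 ≤ R) {v : (B → ℝ) → ℝ}
    (hv : ContDiff ℝ ∞ v) : ∃ C : ℝ, 0 ≤ C ∧ (∀ a, |(qjdχ B R hR) a * v a| ≤ C) ∧
      ∀ a, ‖fderiv ℝ (fun a => (qjdχ B R hR) a * v a) a‖ ≤ C := by
  have h1 : ContDiff ℝ ∞ (fun a => (qjdχ B R hR) a * v a) := (qjdχ B R hR).contDiff.mul hv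
  have h2 : HasCompactSupport (fun a => (qjdχ B R hR) a * v a) :=
    (qjdχ B R hR).hasCompactSupport.mul_right
  obtain ⟨C, hC⟩ := h2.exists_bound_of_continuous h1.continuous
  obtain ⟨C', hC'⟩ := (h2.fderiv (𝕜 := ℝ)).exists_bound_of_continuous
    (h1.continuous_fderiv (by simp))
  refine ⟨max (max C C') 0, le_max_right _ _, fun a => ?_, fun a => ?_⟩
  · exact (hC a).trans ((le_max_left _ _).trans (le_max_left _ _))
  · exact (hC' a).trans ((le_max_right _ _).trans (le_max_left _ _))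

/-- the universal field -/
private def qjdV (B : Finset (ℤ × ℤ)) (w0 : nb B) {R : ℝ} (hR : 0 ≤ R) {n : ℕ}
    (v : Fin (n + 1) → LN B B) (α : Fin (n + 1) → (nb B → ℝ) → ℝ) (z : ℤ × ℤ)
    (k : nb B → ℝ) : ℝ := by
  classical exact if z ∈ B then ∑ j, α j k *
    ((qjdχ B R hR) (qjdR B w0 k) * (v j).1 z (qjdR B w0 k)) else 0

private theorem qjd_V1 {B : Finset (ℤ × ℤ)} {w0 : nb B} {R : ℝ} {hR : 0 ≤ R} {n : ℕ}
    {v : Fin (n + 1) → LN B B} {α : Fin (n + 1) → (nb B → ℝ) → ℝ} {z : ℤ × ℤ} (hz : z ∈ B) :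
    qjdV B w0 hR v α z = fun k => ∑ j, α j k *
      ((qjdχ B R hR) (qjdR B w0 k) * (v j).1 z (qjdR B w0 k)) := by
  funext k
  unfold qjdV
  rw [if_pos hz]

private theorem qjd_V0 {B : Finset (ℤ × ℤ)} {w0 : nb B} {R : ℝ} {hR : 0 ≤ R} {n : ℕ}
    {v : Fin (n + 1) → LN B B} {α : Fin (n + 1) → (nb B → ℝ) → ℝ} {z : ℤ × ℤ} (hz : z ∉ B) :
    qjdV B w0 hR v α z = fun _ => 0 := by
  funext k
  unfold qjdV
  rw [if_neg hz]

private theorem qjd_UF {B : Finset (ℤ × ℤ)} {w0 : nb B} {R : ℝ} (hR : 0 ≤ R) {n : ℕ}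
    (v : Fin (n + 1) → LN B B) {α : Fin (n + 1) → (nb B → ℝ) → ℝ}
    (hα : ∀ j, ContDiff ℝ ∞ (α j)) (hαs : ∀ j, Shf (nb B) (α j)) (hα0 : ∀ j k, 0 ≤ α j k)
    (hα1 : ∀ k, ∑ j, α j k ≤ 1) (hαd : ∃ C : ℝ, ∀ j y k, |pz (nb B) y (α j) k| ≤ C) :
    UF B (qjdV B w0 hR v α) := by
  classical
  have hv : ∀ j z, ContDiff ℝ ∞ ((v j).1 z) := fun j z => LNice.sm (v j).2 z
  have hu : ∀ j z, ContDiff ℝ ∞ fun k : nb B → ℝ =>
      (qjdχ B R hR) (qjdR B w0 k) * (v j).1 z (qjdR B w0 k) := fun j z =>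
    ((qjdχ B R hR).contDiff.comp (qjdR B w0).contDiff).mul ((hv j z).comp (qjdR B w0).contDiff)
  have hb : ∀ j z, ∃ C : ℝ, 0 ≤ C ∧ (∀ a, |(qjdχ B R hR) a * (v j).1 z a| ≤ C) ∧
      ∀ a, ‖fderiv ℝ (fun a => (qjdχ B R hR) a * (v j).1 z a) a‖ ≤ C :=
    fun j z => qjd_bd hR (hv j z)
  choose C hC0 hC1 hC2 using hb
  obtain ⟨C', hC'⟩ := hαd
  have hα1' : ∀ j k, α j k ≤ 1 := fun j k =>
    (Finset.single_le_sum (f := fun j => α j k) (fun j _ => hα0 j k) (Finset.mem_univ j)).trans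
      (hα1 k)
  refine ⟨⟨fun z => ?_, ?_⟩, fun z k t => ?_, ?_, ?_⟩
  · by_cases hz : z ∈ B
    · rw [qjd_V1 hz]
      exact ContDiff.sum fun j _ => (hα j).mul (hu j z)
    · rw [qjd_V0 hz]
      exact contDiff_const
  · have ht : ∀ j, ∃ ε : ℝ, 0 < ε ∧ ∀ z ∈ B, ∀ i : Fin 6, z + st i ∈ B → ∀ k : B → ℝ,
        1 - ε < |g0 B k z - g0 B k (z + st i)| → (v j).1 z k = (v j).1 (z + st i) k :=
      fun j => LNice.tie (v j).2
    choose e he0 he using ht
    refine ⟨Finset.univ.inf' Finset.univ_nonempty e, ?_, fun z hz i hzi k hk => ?_⟩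
    · exact (Finset.lt_inf'_iff _).2 fun j _ => he0 j
    · rw [qjd_V1 hz, qjd_V1 hzi]
      refine Finset.sum_congr rfl fun j _ => ?_
      have h1 : g0 B (qjdR B w0 k) z - g0 B (qjdR B w0 k) (z + st i) =
          g0 (nb B) k z - g0 (nb B) k (z + st i) := by
        rw [qia_g0 _ hz, qia_g0 _ hzi, qia_g0 _ (qjd_mem hz), qia_g0 _ (qjd_mem hzi), qjd_R,
          qjd_R]
        ring
      have h2 : Finset.univ.inf' Finset.univ_nonempty e ≤ e j :=
        Finset.inf'_le e (Finset.mem_univ j)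
      rw [he j z hz i hzi (qjdR B w0 k) (by rw [h1]; linarith)]
  · have h1 : qjdR B w0 (fun w => k w + t) = qjdR B w0 k := by
      funext x
      rw [qjd_R, qjd_R]
      ring
    by_cases hz : z ∈ B
    · rw [qjd_V1 hz]
      change ∑ j, α j (fun w => k w + t) * _ = ∑ j, α j k * _
      rw [h1]
      exact Finset.sum_congr rfl fun j _ => by rw [hαs j k t]
    · rw [qjd_V0 hz]
  · refine ⟨∑ z ∈ B, ∑ j, C j z, fun z k => ?_⟩
    have h0 : ∀ z, 0 ≤ ∑ j, C j z := fun z => Finset.sum_nonneg fun j _ => hC0 j z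
    by_cases hz : z ∈ B
    · rw [qjd_V1 hz]
      refine le_trans ?_ (Finset.single_le_sum (f := fun z => ∑ j, C j z)
        (fun z _ => h0 z) hz)
      refine (Finset.abs_sum_le_sum_abs _ _).trans (Finset.sum_le_sum fun j _ => ?_)
      rw [abs_mul, abs_of_nonneg (hα0 j k)]
      exact (mul_le_of_le_one_left (abs_nonneg _) (hα1' j k)).trans (hC1 j z _)
    · rw [qjd_V0 hz, abs_zero]
      exact Finset.sum_nonneg fun z _ => h0 z
  · refine ⟨∑ z ∈ B, ∑ j, (|C'| * C j z + C j z * ‖qjdR B w0‖), fun z y k => ?_⟩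
    have h0 : ∀ z, 0 ≤ ∑ j, (|C'| * C j z + C j z * ‖qjdR B w0‖) := fun z =>
      Finset.sum_nonneg fun j _ => add_nonneg (mul_nonneg (abs_nonneg _) (hC0 j z))
        (mul_nonneg (hC0 j z) (norm_nonneg _))
    by_cases hz : z ∈ B
    · rw [qjd_V1 hz]
      refine le_trans ?_ (Finset.single_le_sum
        (f := fun z => ∑ j, (|C'| * C j z + C j z * ‖qjdR B w0‖)) (fun z _ => h0 z) hz)
      rw [qjd_pzsum fun j => (((hα j).mul (hu j z)).differentiable (by simp)) k]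
      refine (Finset.abs_sum_le_sum_abs _ _).trans (Finset.sum_le_sum fun j _ => ?_)
      rw [pzm_mul (((hα j).differentiable (by simp)) k) (((hu j z).differentiable (by simp)) k)]
      refine (abs_add_le _ _).trans (add_le_add ?_ ?_)
      · rw [abs_mul]
        exact mul_le_mul ((hC' j y k).trans (le_abs_self _)) (hC1 j z _) (abs_nonneg _)
          (abs_nonneg _)
      · rw [abs_mul, abs_of_nonneg (hα0 j k)]
        refine (mul_le_of_le_one_left (abs_nonneg _) (hα1' j k)).trans ?_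
        unfold pz
        split_ifs with hy
        · unfold pd
          have hq : ContDiff ℝ ∞ (fun a => (qjdχ B R hR) a * (v j).1 z a) :=
            (qjdχ B R hR).contDiff.mul (hv j z)
          have h2 : HasFDerivAt (fun k : nb B → ℝ =>
              (qjdχ B R hR) (qjdR B w0 k) * (v j).1 z (qjdR B w0 k))
              ((fderiv ℝ (fun a => (qjdχ B R hR) a * (v j).1 z a) (qjdR B w0 k)).comp
                (qjdR B w0)) k :=
            HasFDerivAt.comp (g := fun a => (qjdχ B R hR) a * (v j).1 z a) k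
              ((hq.differentiable (by simp)) _).hasFDerivAt (qjdR B w0).hasFDerivAt
          rw [h2.fderiv, ← Real.norm_eq_abs]
          refine (ContinuousLinearMap.le_opNorm _ _).trans ?_
          rw [Pi.norm_single, norm_one, mul_one]
          refine (ContinuousLinearMap.opNorm_comp_le _ _).trans ?_
          exact mul_le_mul_of_nonneg_right (hC2 j z _) (norm_nonneg _)
        · rw [abs_zero]
          exact mul_nonneg (hC0 j z) (norm_nonneg _)
    · rw [qjd_V0 hz]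
      have : pz (nb B) y (fun _ => (0 : ℝ)) k = 0 := by
        unfold pz pd
        split_ifs
        · rw [fderiv_fun_const]
          rfl
        · rfl
      rw [this, abs_zero]
      exact Finset.sum_nonneg fun z _ => h0 z

/-- the fields on the fibre are bounded by a constant times the volume -/
private theorem qjd_MC (B : Finset (ℤ × ℤ)) (m : ℕ) (d : ℝ × ℝ) (w0 : nb B) (v : LN B B) :
    ∃ C : ℝ, 0 ≤ C ∧ ∀ σ ∈ qjbS (nb B) w0.1, |qjdM B m d w0 v (ex0 (nb B) w0.1 σ)| ≤ C := by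
  set R : ℝ := ∑ w ∈ nb B, ((dn (w - w0.1) : ℤ) : ℝ) with hR
  have hdn : ∀ z : ℤ × ℤ, (0 : ℝ) ≤ ((dn (z - w0.1) : ℤ) : ℝ) := fun z => by
    exact_mod_cast dn_nonneg _
  have hR0 : 0 ≤ R := Finset.sum_nonneg fun w _ => hdn w
  obtain ⟨C, hC⟩ := qib_bd B m d v.2 (fun _ => 0) (R + B.card)
  refine ⟨|C|, abs_nonneg _, fun σ hσ => ?_⟩
  unfold qjdM
  rw [qjd_Nex]
  set β := g0 (nb B) (ex0 (nb B) w0.1 σ) with hβ
  have h1 : ∀ z : nb B, |ex0 (nb B) w0.1 σ z| ≤ R := by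
    intro z
    by_cases hz : z.1 = w0.1
    · rw [qjc_exz w0.1 σ z hz, abs_zero]
      exact hR0
    · rw [qjc_exm w0.1 σ z hz]
      exact (hσ _).trans (Finset.single_le_sum (f := fun w => ((dn (w - w0.1) : ℤ) : ℝ))
        (fun w _ => hdn w) z.2)
  have h2 : |Jt B m d v.1 β| ≤ |C| * (Z B β).toReal := by
    unfold Jt
    have h3 := norm_setIntegral_le_of_norm_le_const (μ := (volume : Measure (B → ℝ)))
      (s := K B β) (f := fun a => Jf B β B m d v.1 a) (C := |C|) (Z_lt_top B β) fun a ha => by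
        rw [Jf_out B m d v.1 β (fun _ => 0), Real.norm_eq_abs]
        exact (hC a fun x => qia_bd hR0 h1 ha x).trans (le_abs_self _)
    exact h3
  rcases eq_or_ne (Z B β).toReal 0 with hZ | hZ
  · rw [hZ, div_zero, abs_zero]
    exact abs_nonneg _
  · have hZ1 : 0 < (Z B β).toReal := lt_of_le_of_ne ENNReal.toReal_nonneg hZ.symm
    rw [abs_div, abs_of_pos hZ1, div_le_iff₀ hZ1]
    exact h2

/-- the main inequality on the domain -/
private theorem qjd_main (B : Finset (ℤ × ℤ)) (m : ℕ) (d : ℝ × ℝ) (w0 : nb B) (hwB : w0.1 ∉ B)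
    {n : ℕ} (v : Fin (n + 1) → LN B B) {α : Fin (n + 1) → (nb B → ℝ) → ℝ}
    (hαB : ∀ j (k k' : nb B → ℝ), (∀ w : nb B, w.1 ∉ B → k w = k' w) → α j k = α j k')
    (hα0 : ∀ j k, 0 ≤ α j k) (hα1 : ∀ k, ∑ j, α j k ≤ 1) {R : ℝ} (hR : 0 ≤ R)
    (hRR : ∑ w ∈ nb B, ((dn (w - w0.1) : ℤ) : ℝ) + B.card ≤ R)
    {σ : ↥((nb B).erase w0.1) → ℝ} (hσ : σ ∈ qjbS (nb B) w0.1) :
    ∑ j, α j (ex0 (nb B) w0.1 σ) * qjdM B m d w0 (v j) (ex0 (nb B) w0.1 σ) ≤
      Jn B m d (qjdV B w0 hR v α) (g0 (nb B) (ex0 (nb B) w0.1 σ)) := by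
  have hdn : ∀ z : ℤ × ℤ, (0 : ℝ) ≤ ((dn (z - w0.1) : ℤ) : ℝ) := fun z => by
    exact_mod_cast dn_nonneg _
  set k := ex0 (nb B) w0.1 σ with hk
  have hk0 : k w0 = 0 := qjc_exz w0.1 σ w0 rfl
  set β := g0 (nb B) k with hβ
  have h1 : ∀ z : nb B, |k z| ≤ ∑ w ∈ nb B, ((dn (w - w0.1) : ℤ) : ℝ) := by
    intro z
    by_cases hz : z.1 = w0.1
    · rw [hk, qjc_exz w0.1 σ z hz, abs_zero]
      exact Finset.sum_nonneg fun w _ => hdn w
    · rw [hk, qjc_exm w0.1 σ z hz]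
      exact (hσ _).trans (Finset.single_le_sum (f := fun w => ((dn (w - w0.1) : ℤ) : ℝ))
        (fun w _ => hdn w) z.2)
  have hker : ∀ a ∈ K B β, ∀ x, |a x| ≤ R := fun a ha x =>
    (qia_bd (Finset.sum_nonneg fun w _ => hdn w) h1 ha x).trans hRR
  have hfr : ∀ z ∈ B, ∀ a : B → ℝ, fr B (qjdV B w0 hR v α) β z a =
      ∑ j, α j k * ((qjdχ B R hR) a * (v j).1 z a) := by
    intro z hz a
    unfold fr
    rw [qjd_V1 hz]
    have h2 : qjdR B w0 (rs (nb B) 0 (gl B β a)) = a := by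
      funext x
      rw [qjd_R]
      unfold rs
      rw [zero_add, zero_add, gl_mem x.2, gl_not_mem hwB, hβ, qia_g0 _ w0.2]
      change a x - k w0 = a x
      rw [hk0, sub_zero]
    beta_reduce
    rw [h2]
    refine Finset.sum_congr rfl fun j _ => ?_
    rw [hαB j (rs (nb B) 0 (gl B β a)) k fun w hw => by
      unfold rs
      rw [zero_add, gl_not_mem hw, hβ, qia_g0 _ w.2]]
  have hgerm : Jt B m d (fr B (qjdV B w0 hR v α) β) β =
      Jt B m d (∑ j, α j k • v j : LN B B).1 β := by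
    refine qjd_germ B m d β fun a ha z hz => ?_
    filter_upwards [qjd_χ1 hR (hker a ha)] with a' ha'
    rw [hfr z hz a']
    have h3 : (∑ j, α j k • v j : LN B B).1 z a' = ∑ j, α j k * (v j).1 z a' := by
      rw [Submodule.coe_sum, Finset.sum_apply, Finset.sum_apply]
      rfl
    rw [h3]
    refine Finset.sum_congr rfl fun j _ => ?_
    have h4 : (qjdχ B R hR) a' = 1 := ha'
    rw [h4, one_mul]
  unfold Jn
  rw [hgerm]
  refine le_trans ?_ (div_le_div_of_nonneg_right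
    (qjd_conc B m d β (fun j => α j k) (fun j => hα0 j k) (hα1 k) v) ENNReal.toReal_nonneg)
  rw [Finset.sum_div]
  refine Finset.sum_le_sum fun j _ => le_of_eq ?_
  unfold qjdM
  rw [hk, qjd_Nex, ← hk, ← hβ]
  ring

theorem uf_exists (B : Finset (ℤ × ℤ)) (m : ℕ) (d : ℝ × ℝ) {w0 : ℤ × ℤ} (hw : w0 ∈ nb B)
    (hwB : w0 ∉ B) {ε : ℝ≥0∞} (hε : 0 < ε) :
    ∃ V : ℤ × ℤ → (nb B → ℝ) → ℝ, UF B V ∧
      LW (nb B) w0 (fun k => ENNReal.ofReal (Th B m d (g0 (nb B) k) -
        Jn B m d V (g0 (nb B) k))) ≤ ε := by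
  classical
  have hε2 : 0 < ε / 2 := ENNReal.half_pos hε.ne'
  obtain ⟨n, v, -, hfin⟩ := Th_fin B m d w0 hε2
  set w1 : nb B := ⟨w0, hw⟩ with hw1
  have hC : ∀ j, ∃ C : ℝ, 0 ≤ C ∧ ∀ σ ∈ qjbS (nb B) w0,
      |qjdM B m d w1 (v j) (ex0 (nb B) w0 σ)| ≤ C := fun j => qjd_MC B m d w1 (v j)
  choose C hC0 hC using hC
  set C1 : ℝ := ∑ j, C j with hC1
  have hC10 : 0 ≤ C1 := Finset.sum_nonneg fun j _ => hC0 j
  have hCC : ∀ j, C j ≤ C1 := fun j =>
    Finset.single_le_sum (f := C) (fun j _ => hC0 j) (Finset.mem_univ j)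
  have hδ : 0 < ε / 2 / ENNReal.ofReal (C1 + 1) :=
    ENNReal.div_pos hε2.ne' ENNReal.ofReal_ne_top
  obtain ⟨α, hαs, hαf, hαB, hα0, hα1, hαd, hαl⟩ := mollify (nb B) B hw hwB n
    (qjdA B m d w1 v) (qjd_Am B m d w1 v) (qjd_Ad B m d w1 v)
    (fun j k t => by simp only [qjdA, mem_ofPred_eq, qjd_Ms])
    (fun j k k' h => by
      simp only [qjdA, mem_ofPred_eq, qjd_Ml B m d w1 hwB _ h]) hδ
  set R : ℝ := ∑ w ∈ nb B, ((dn (w - w0) : ℤ) : ℝ) + B.card with hRdef
  have hR : 0 ≤ R := by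
    refine add_nonneg (Finset.sum_nonneg fun w _ => ?_) (Nat.cast_nonneg _)
    exact_mod_cast dn_nonneg _
  refine ⟨qjdV B w1 hR v α, qjd_UF hR v hαs hαf hα0 hα1 hαd, ?_⟩
  have hpt : ∀ σ ∈ qjbS (nb B) w0, ENNReal.ofReal (Th B m d (g0 (nb B) (ex0 (nb B) w0 σ)) -
      Jn B m d (qjdV B w1 hR v α) (g0 (nb B) (ex0 (nb B) w0 σ))) ≤
      ENNReal.ofReal (Th B m d (g0 (nb B) (ex0 (nb B) w0 σ)) -
        (Finset.univ.sup' Finset.univ_nonempty
          (fun j => Jt B m d (v j).1 (g0 (nb B) (ex0 (nb B) w0 σ)) /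
            (Z B (g0 (nb B) (ex0 (nb B) w0 σ))).toReal))) +
      ENNReal.ofReal (C1 + 1) * ∑ j, ENNReal.ofReal |α j (ex0 (nb B) w0 σ) -
        (qjdA B m d w1 v j).indicator (fun _ => 1) (ex0 (nb B) w0 σ)| := by
    intro σ hσ
    set k := ex0 (nb B) w0 σ with hk
    have h1 : ∑ j, α j k * qjdM B m d w1 (v j) k ≤
        Jn B m d (qjdV B w1 hR v α) (g0 (nb B) k) :=
      qjd_main B m d w1 hwB v hαB hα0 hα1 hR le_rfl hσ
    obtain ⟨j0, hj0⟩ := qjd_Aex B m d w1 v k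
    have h2 : ∀ j, qjdM B m d w1 (v j) k = Jt B m d (v j).1 (g0 (nb B) k) /
        (Z B (g0 (nb B) k)).toReal := by
      intro j
      unfold qjdM
      rw [show qjdN (nb B) w1 k = k from qjd_Nex (nb B) w1 σ]
    have h3 : Finset.univ.sup' Finset.univ_nonempty
        (fun j => Jt B m d (v j).1 (g0 (nb B) k) / (Z B (g0 (nb B) k)).toReal) ≤
        qjdM B m d w1 (v j0) k := by
      refine Finset.sup'_le _ _ fun j _ => ?_
      rw [← h2 j]
      exact hj0.1 j
    have h4 : qjdM B m d w1 (v j0) k =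
        ∑ j, (qjdA B m d w1 v j).indicator (fun _ => (1 : ℝ)) k * qjdM B m d w1 (v j) k := by
      rw [Finset.sum_eq_single j0]
      · rw [indicator_of_mem hj0, one_mul]
      · intro j _ hj
        have : k ∉ qjdA B m d w1 v j := fun h =>
          disjoint_left.1 (qjd_Ad B m d w1 v hj) h hj0
        rw [indicator_of_notMem this, zero_mul]
      · intro h
        exact absurd (Finset.mem_univ j0) h
    have h5 : qjdM B m d w1 (v j0) k - ∑ j, α j k * qjdM B m d w1 (v j) k ≤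
        (C1 + 1) * ∑ j, |α j k - (qjdA B m d w1 v j).indicator (fun _ => 1) k| := by
      rw [h4, ← Finset.sum_sub_distrib, Finset.mul_sum]
      refine Finset.sum_le_sum fun j _ => ?_
      rw [← sub_mul]
      refine (le_abs_self _).trans ?_
      rw [abs_mul, abs_sub_comm, mul_comm]
      refine mul_le_mul_of_nonneg_right ?_ (abs_nonneg _)
      linarith [hC j σ hσ, hCC j]
    have h6 : ENNReal.ofReal (C1 + 1) * ∑ j, ENNReal.ofReal |α j k -
        (qjdA B m d w1 v j).indicator (fun _ => 1) k| = ENNReal.ofReal ((C1 + 1) *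
        ∑ j, |α j k - (qjdA B m d w1 v j).indicator (fun _ => 1) k|) := by
      rw [ENNReal.ofReal_mul (by linarith), ENNReal.ofReal_sum_of_nonneg fun j _ => abs_nonneg _]
    rw [h6]
    refine (ENNReal.ofReal_le_ofReal ?_).trans ENNReal.ofReal_add_le
    linarith
  have hm2 : ∀ j, Measurable fun σ : ↥((nb B).erase w0) → ℝ => ENNReal.ofReal
      |α j (ex0 (nb B) w0 σ) - (qjdA B m d w1 v j).indicator (fun _ => 1) (ex0 (nb B) w0 σ)| :=
    fun j => ((((hαs j).continuous.measurable.sub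
      (measurable_const.indicator (qjd_Am B m d w1 v j))).comp
        (qjb_ex (nb B) w0)).abs).ennreal_ofReal
  unfold LW
  refine (setLIntegral_mono' (qjb_meas (nb B) w0) hpt).trans ?_
  rw [lintegral_add_right _ ((Finset.measurable_sum _ fun j _ => hm2 j).const_mul _),
    lintegral_const_mul _ (Finset.measurable_sum _ fun j _ => hm2 j),
    lintegral_finsetSum _ fun j _ => hm2 j]
  refine (add_le_add hfin (mul_le_mul_right hαl _)).trans ?_
  refine (add_le_add le_rfl ENNReal.mul_div_le).trans ?_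
  rw [ENNReal.add_halves]
/- END qjd -/

end Pool.Agent.Hmk
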