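import Pool.Agent.Hmk.ThB

/-!
# Hmk, second part: placed fields, the upper bound by `Th`, universal near-maximisers for all `D`
-/

set_option autoImplicit false

open MeasureTheory Set
open scoped ENNReal ContDiff

noncomputable section

namespace Pool.Agent.Hmk

/- MODULE qka
Basics of the uniform law. -/
theorem Mu_prob {D : Finset (ℤ × ℤ)} {b : ℤ × ℤ → ℝ} (hb : ∀ z, |b z| ≤ 1 / 2) :
    IsProbabilityMeasure (Mu D b) := prob hb

theorem int_Mu (D : Finset (ℤ × ℤ)) (b : ℤ × ℤ → ℝ) (f : (D → ℝ) → ℝ) :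
    ∫ h, f h ∂(Mu D b) = (Z D b).toReal⁻¹ * ∫ h in K D b, f h := by
  unfold Mu ProbabilityTheory.cond
  rw [integral_smul_measure, ENNReal.toReal_inv, smul_eq_mul]
  rfl

theorem Mu_aeK (D : Finset (ℤ × ℤ)) (b : ℤ × ℤ → ℝ) : ∀ᵐ h ∂(Mu D b), h ∈ K D b := by
  unfold Mu
  exact ProbabilityTheory.ae_cond_mem (K_meas D b)

theorem Mu_int {D : Finset (ℤ × ℤ)} {b : ℤ × ℤ → ℝ} {f g : (D → ℝ) → ℝ} (hf : Continuous f)
    (hg : Measurable g) {M : ℝ} (hM : ∀ k, |g k| ≤ M) :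
    Integrable (fun k => g k * f k) (Mu D b) := by
  unfold Mu ProbabilityTheory.cond
  by_cases h0 : volume (K D b) = 0
  · rw [Measure.restrict_eq_zero.2 h0, smul_zero]
    exact integrable_zero_measure
  · exact (K_int hf hg hM).smul_measure (ENNReal.inv_ne_top.2 h0)

theorem rs_meas (S W : Finset (ℤ × ℤ)) (c : ℤ × ℤ → ℝ) (y : ℤ × ℤ) :
    Measurable (fun k : S → ℝ => rs W y (gl S c k)) :=
  measurable_pi_lambda _ (fun w => gl_meas S c (y + w.1))

theorem rs_smooth (S W : Finset (ℤ × ℤ)) (c : ℤ × ℤ → ℝ) (y : ℤ × ℤ) :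
    ContDiff ℝ ∞ (fun k : S → ℝ => rs W y (gl S c k)) :=
  contDiff_pi.2 (fun w => gls_smooth S c (y + w.1))
/- END qka -/

/- MODULE qkb
Placed fields: the chain rule (the map `k ↦ rs W y (gl S c k)` is affine, its derivative in the
height at `y + z` is the unit vector at `z`, or `0` if `z ∉ W`), ties, energies, slopes. -/
private theorem qkb_mem {S W : Finset (ℤ × ℤ)} {y z : ℤ × ℤ} (hW : tr y W ⊆ S) (hz : z ∈ W) :
    y + z ∈ S := hW (mem_tr.2 (by rwa [add_sub_cancel_left]))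

theorem pz_rs {S W : Finset (ℤ × ℤ)} {c : ℤ × ℤ → ℝ} {y z : ℤ × ℤ} (hW : tr y W ⊆ S)
    {F : (W → ℝ) → ℝ} (hF : Differentiable ℝ F) (k : S → ℝ) :
    pz S (y + z) (fun k => F (rs W y (gl S c k))) k = pz W z F (rs W y (gl S c k)) := by
  unfold pz
  by_cases hz : y + z ∈ S
  · rw [dif_pos hz]
    set L : (S → ℝ) →L[ℝ] (W → ℝ) := ContinuousLinearMap.pi
      (fun w : W => ContinuousLinearMap.proj (⟨y + w.1, qkb_mem hW w.2⟩ : S)) with hL
    have e1 : (fun k : S → ℝ => rs W y (gl S c k)) = fun k => L k := by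
      funext k w
      show gl S c k (y + w.1) = k ⟨y + w.1, _⟩
      exact gl_mem (qkb_mem hW w.2)
    have h1 : HasFDerivAt (fun k : S → ℝ => rs W y (gl S c k)) L k := by
      rw [e1]
      exact L.hasFDerivAt
    have h2 : HasFDerivAt (fun k : S → ℝ => F (rs W y (gl S c k)))
        ((fderiv ℝ F (rs W y (gl S c k))).comp L) k :=
      (hF (rs W y (gl S c k))).hasFDerivAt.comp k h1
    unfold pd
    rw [h2.fderiv]
    show fderiv ℝ F (rs W y (gl S c k)) (L (Pi.single ⟨y + z, hz⟩ 1)) = _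
    by_cases hw : z ∈ W
    · rw [dif_pos hw]
      congr 1
      funext w
      show (Pi.single (⟨y + z, hz⟩ : S) (1 : ℝ) : S → ℝ) ⟨y + w.1, _⟩ = _
      by_cases he : w.1 = z
      · have e2 : w = ⟨z, hw⟩ := Subtype.ext he
        subst e2
        rw [Pi.single_eq_same, Pi.single_eq_same]
      · rw [Pi.single_eq_of_ne, Pi.single_eq_of_ne]
        · intro h
          exact he (congrArg Subtype.val h)
        · intro h
          exact he (add_left_cancel (congrArg Subtype.val h))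
    · rw [dif_neg hw]
      have e3 : L (Pi.single ⟨y + z, hz⟩ 1) = 0 := by
        funext w
        show (Pi.single (⟨y + z, hz⟩ : S) (1 : ℝ) : S → ℝ) ⟨y + w.1, _⟩ = 0
        rw [Pi.single_eq_of_ne]
        intro h
        have h3 : w.1 = z := add_left_cancel (congrArg Subtype.val h)
        exact hw (h3 ▸ w.2)
      rw [e3, map_zero]
  · rw [dif_neg hz, dif_neg]
    intro hw
    exact hz (qkb_mem hW hw)

theorem pl_lnice {S W B : Finset (ℤ × ℤ)} {c : ℤ × ℤ → ℝ} {y : ℤ × ℤ}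
    {V : ℤ × ℤ → (W → ℝ) → ℝ} (hB : B ⊆ W) (hW : tr y W ⊆ S) (hV : LNice W B V) :
    LNice S (tr y B) (pl S c W y V) := by
  refine ⟨fun z => (hV.sm (z - y)).comp (rs_smooth S W c y), ?_⟩
  obtain ⟨ε, hε, hT⟩ := hV.tie
  refine ⟨ε, hε, ?_⟩
  intro z hz i hzi k hk
  rw [mem_tr] at hz hzi
  have e1 : z + st i - y = (z - y) + st i := by abel
  rw [e1] at hzi
  have hg : ∀ x : ℤ × ℤ, x - y ∈ B → g0 W (rs W y (gl S c k)) (x - y) = g0 S k x := by
    intro x hx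
    have h1 : x - y ∈ W := hB hx
    have h2 : y + (x - y) ∈ S := qkb_mem hW h1
    have h3 : x ∈ S := by
      have : y + (x - y) = x := by abel
      rwa [this] at h2
    unfold g0
    rw [gl_mem h1, gl_mem h3]
    show gl S c k (y + (x - y)) = _
    have e2 : y + (x - y) = x := by abel
    rw [e2, gl_mem h3]
  have h5 := hT (z - y) hz i hzi (rs W y (gl S c k)) (by
    rw [← e1, hg z hz, hg (z + st i) (by rw [e1]; exact hzi)]
    exact hk)
  unfold pl
  rw [e1]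
  exact h5

theorem en_pl {S W B : Finset (ℤ × ℤ)} {c : ℤ × ℤ → ℝ} {y : ℤ × ℤ}
    {V : ℤ × ℤ → (W → ℝ) → ℝ} (hB : B ⊆ W) (hW : tr y W ⊆ S) (hV : LNice W B V) (k : S → ℝ) :
    en S (tr y B) (pl S c W y V) k = en W B V (rs W y (gl S c k)) := by
  classical
  have hinj : Function.Injective (fun z : ℤ × ℤ => y + z) := fun a b h => add_left_cancel h
  unfold en tr
  rw [Finset.sum_image (fun a _ b _ h => hinj h)]
  refine Finset.sum_congr rfl fun x _ => ?_
  rw [Finset.sum_image (fun a _ b _ h => hinj h)]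
  refine Finset.sum_congr rfl fun z _ => ?_
  have e1 : pl S c W y V (y + x) = fun k => V x (rs W y (gl S c k)) := by
    funext k
    unfold pl
    rw [add_sub_cancel_left]
  rw [e1, pz_rs hW ((hV.sm x).differentiable (by simp)) k]

theorem sx_pl {S W B : Finset (ℤ × ℤ)} {c : ℤ × ℤ → ℝ} {y : ℤ × ℤ}
    {V : ℤ × ℤ → (W → ℝ) → ℝ} (hB : B ⊆ W) (m : ℕ) (i : Fin 6) (k : S → ℝ) :
    sx S c (tr y B) m (pl S c W y V) i k = sx W (fun _ => 0) B m V i (rs W y (gl S c k)) := by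
  classical
  have hinj : Function.Injective (fun z : ℤ × ℤ => y + z) := fun a b h => add_left_cancel h
  unfold sx
  rw [inn_tr]
  have e0 : tr y (inn B (m + 2)) = (inn B (m + 2)).image (fun z => y + z) := by
    unfold tr
    congr
  rw [e0, Finset.sum_image (fun a _ b _ h => hinj h)]
  refine Finset.sum_congr rfl fun x hx => ?_
  have e1 : pl S c W y V (y + x) k = V x (rs W y (gl S c k)) := by
    unfold pl
    rw [add_sub_cancel_left]
  have e2 : pl S c W y V (y + x + st i) k = V (x + st i) (rs W y (gl S c k)) := by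
    unfold pl
    rw [add_assoc, add_sub_cancel_left]
  have e3 : gt m (y + x) i (gl S c k) = gt m x i (gl W (fun _ => 0) (rs W y (gl S c k))) := by
    rw [gt_tr]
    refine gt_loc fun z hz => ?_
    have h1 : z ∈ B := mem_inn.1 hx z (by push_cast; linarith)
    rw [gl_mem (hB h1)]
    rfl
  rw [e1, e2, e3]

theorem Jf_pl {S W B : Finset (ℤ × ℤ)} {c : ℤ × ℤ → ℝ} {y : ℤ × ℤ}
    {V : ℤ × ℤ → (W → ℝ) → ℝ} (hB : B ⊆ W) (hW : tr y W ⊆ S) (hV : LNice W B V) (m : ℕ)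
    (d : ℝ × ℝ) (k : S → ℝ) :
    Jf S c (tr y B) m d (pl S c W y V) k = Jf W (fun _ => 0) B m d V (rs W y (gl S c k)) := by
  unfold Jf
  rw [en_pl hB hW hV]
  congr 1
  exact Finset.sum_congr rfl fun i _ => by rw [sx_pl hB]

/-- placing a small window inside a big one and then the big one in `S` -/
theorem rs_rs {S W W' : Finset (ℤ × ℤ)} {c : ℤ × ℤ → ℝ} {y z : ℤ × ℤ} (h : tr z W' ⊆ W)
    (k : S → ℝ) : rs W' z (gl W (fun _ => 0) (rs W y (gl S c k))) = rs W' (y + z) (gl S c k) := by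
  funext w
  have h1 : z + w.1 ∈ W := qkb_mem h w.2
  show gl W (fun _ => 0) (rs W y (gl S c k)) (z + w.1) = gl S c k (y + z + w.1)
  rw [gl_mem h1, add_assoc]
  rfl

theorem pl_pl {S W W' : Finset (ℤ × ℤ)} {c : ℤ × ℤ → ℝ} {y z : ℤ × ℤ} (h : tr z W' ⊆ W)
    (U : ℤ × ℤ → (W' → ℝ) → ℝ) :
    pl S c W y (pl W (fun _ => 0) W' z U) = pl S c W' (y + z) U := by
  funext x k
  unfold pl
  rw [rs_rs h, sub_sub]
/- END qkb -/

/- MODULE qkc
The upper bound by `Th`, fibre by fibre: `int_fib` with `R₂ = tr y B`, `R₁ = D \ R₂`.  For fixed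
`r ∈ Adm` the restricted field `a ↦ w z (jn r a)` is `LNice (tr y B) (tr y B)`, its functional is
`Jf` of the fibre (`pz` in the heights of `tr y B` only), so the inner integral is
`≤ Tt (tr y B) m d (gl R₁ b r) = Th B m d (sf y (gl R₁ b r)) * Z` (`Tt_lub`, `Tt_zero`, `Th_tr`), and
`Th` depends only on the values off `tr y B` (`Th_loc`).  The second theorem: the placed universal
field has fibre integrals `Jt B m d (fr B V β) β`, `β = sf y (gl R₁ b r)`. -/
private theorem qkc_sm {D R₁ R₂ : Finset (ℤ × ℤ)} (a : R₁ → ℝ) :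
    ContDiff ℝ ∞ (fun a' : R₂ → ℝ => (jn R₁ R₂ a a' : D → ℝ)) :=
  contDiff_pi.2 (fun z => gls_smooth R₂ (gl R₁ (fun _ => 0) a) z.1)

private theorem qkc_pz {D R₁ R₂ : Finset (ℤ × ℤ)} (hu : R₁ ∪ R₂ = D) (a : R₁ → ℝ)
    {f : (D → ℝ) → ℝ} (hf : Differentiable ℝ f) {y : ℤ × ℤ} (hy : y ∈ R₂) (a' : R₂ → ℝ) :
    pz R₂ y (fun a' => f (jn R₁ R₂ a a')) a' = pz D y f (jn R₁ R₂ a a') := by
  classical
  have hyD : y ∈ D := hu ▸ Finset.mem_union_right _ hy
  unfold pz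
  rw [dif_pos hy, dif_pos hyD]
  set L : (R₂ → ℝ) →L[ℝ] (D → ℝ) := ContinuousLinearMap.pi
    (fun z : D => if h : z.1 ∈ R₂ then ContinuousLinearMap.proj (⟨z.1, h⟩ : R₂) else 0) with hL
  have h1 : HasFDerivAt (fun a' : R₂ → ℝ => (jn R₁ R₂ a a' : D → ℝ)) L a' := by
    rw [hasFDerivAt_pi']
    intro z
    have e1 : (ContinuousLinearMap.proj (R := ℝ) (φ := fun _ : D => ℝ) z).comp L =
        (if h : z.1 ∈ R₂ then ContinuousLinearMap.proj (⟨z.1, h⟩ : R₂) else 0) := by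
      rw [hL]
      rfl
    rw [e1]
    by_cases h : z.1 ∈ R₂
    · rw [dif_pos h]
      have e2 : (fun a' : R₂ → ℝ => (jn R₁ R₂ a a' : D → ℝ) z) = fun a' => a' ⟨z.1, h⟩ := by
        funext k
        exact gl_mem h
      rw [e2]
      exact (ContinuousLinearMap.proj (R := ℝ) (φ := fun _ : R₂ => ℝ) (⟨z.1, h⟩ : R₂)).hasFDerivAt
    · rw [dif_neg h]
      have e2 : (fun a' : R₂ → ℝ => (jn R₁ R₂ a a' : D → ℝ) z) =
          fun _ => gl R₁ (fun _ => 0) a z.1 := by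
        funext k
        exact gl_not_mem h
      rw [e2]
      exact hasFDerivAt_const _ _
  have h2 : HasFDerivAt (fun a' : R₂ → ℝ => f (jn R₁ R₂ a a'))
      ((fderiv ℝ f (jn R₁ R₂ a a')).comp L) a' :=
    (hf (jn R₁ R₂ a a')).hasFDerivAt.comp a' h1
  unfold pd
  rw [h2.fderiv]
  show fderiv ℝ f (jn R₁ R₂ a a') (L (Pi.single ⟨y, hy⟩ 1)) = _
  congr 1
  funext z
  show (if h : z.1 ∈ R₂ then (ContinuousLinearMap.proj (⟨z.1, h⟩ : R₂) : (R₂ → ℝ) →L[ℝ] ℝ) else 0)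
    (Pi.single ⟨y, hy⟩ 1) = _
  by_cases h : z.1 ∈ R₂
  · rw [dif_pos h]
    show (Pi.single (⟨y, hy⟩ : R₂) (1 : ℝ) : R₂ → ℝ) ⟨z.1, h⟩ = _
    by_cases he : z.1 = y
    · have e2 : z = ⟨y, hyD⟩ := Subtype.ext he
      subst e2
      rw [Pi.single_eq_same, Pi.single_eq_same]
    · rw [Pi.single_eq_of_ne, Pi.single_eq_of_ne]
      · intro h3
        exact he (congrArg Subtype.val h3)
      · intro h3
        exact he (congrArg Subtype.val h3)
  · rw [dif_neg h, Pi.single_eq_of_ne]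
    · rfl
    · intro h3
      apply h
      have h4 : z.1 = y := congrArg Subtype.val h3
      rw [h4]
      exact hy

private theorem qkc_nice {D R₁ R₂ : Finset (ℤ × ℤ)} (hu : R₁ ∪ R₂ = D)
    (a : R₁ → ℝ) {w : ℤ × ℤ → (D → ℝ) → ℝ} (hw : LNice D R₂ w) :
    LNice R₂ R₂ (fun z a' => w z (jn R₁ R₂ a a')) := by
  refine ⟨fun z => (hw.sm z).comp (qkc_sm a), ?_⟩
  obtain ⟨ε, hε, hT⟩ := hw.tie
  refine ⟨ε, hε, fun z hz i hzi k hk => ?_⟩
  have hg : ∀ x ∈ R₂, g0 D (jn R₁ R₂ a k) x = g0 R₂ k x := by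
    intro x hx
    have hxD : x ∈ D := hu ▸ Finset.mem_union_right _ hx
    unfold g0
    rw [gl_mem hxD, gl_mem hx]
    exact gl_mem hx
  exact hT z hz i hzi (jn R₁ R₂ a k) (by rw [hg z hz, hg _ hzi]; exact hk)

private theorem qkc_Jf {D R₁ R₂ : Finset (ℤ × ℤ)} (hd : Disjoint R₁ R₂) (hu : R₁ ∪ R₂ = D)
    (c : ℤ × ℤ → ℝ) (a : R₁ → ℝ) {w : ℤ × ℤ → (D → ℝ) → ℝ} (hw : LNice D R₂ w) (m : ℕ)
    (d : ℝ × ℝ) (a' : R₂ → ℝ) :
    Jf D c R₂ m d w (jn R₁ R₂ a a') =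
      Jf R₂ (gl R₁ c a) R₂ m d (fun z a' => w z (jn R₁ R₂ a a')) a' := by
  have e1 : (gl D c (jn R₁ R₂ a a')) = gl R₂ (gl R₁ c a) a' := by
    funext z
    exact gl_jn hd hu c a a' z
  unfold Jf sx en
  rw [e1]
  congr 1
  refine Finset.sum_congr rfl fun x _ => Finset.sum_congr rfl fun y hy => ?_
  rw [qkc_pz hu a ((hw.sm x).differentiable (by simp)) hy]

private theorem qkc_int {S B : Finset (ℤ × ℤ)} (c : ℤ × ℤ → ℝ) (m : ℕ) (d : ℝ × ℝ)
    {v : ℤ × ℤ → (S → ℝ) → ℝ} (hv : LNice S B v) :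
    IntegrableOn (fun k => Jf S c B m d v k) (K S c) := by
  unfold Jf
  refine Integrable.sub ?_ ?_
  · refine integrable_finsetSum _ fun i _ => Integrable.const_mul ?_ _
    unfold sx
    refine integrable_finsetSum _ fun x _ => ?_
    refine K_int (((hv.sm _).continuous).sub (hv.sm _).continuous) (gt_meas S c m x i) (M := 1) ?_
    intro k
    rcases gt_mem m x i (gl S c k) with h | h <;> rw [h] <;> norm_num
  · unfold en
    refine integrable_finsetSum _ fun x _ => integrable_finsetSum _ fun y _ => ?_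
    have h1 := K_int (S := S) (c := c) (f := fun k => (pz S y (v x) k) ^ 2) (g := fun _ => 1)
      ((pz_cont ((hv.sm x).of_le (by simp))).pow 2) measurable_const (M := 1) (by simp)
    simp only [one_mul] at h1
    exact h1

private theorem qkc_nb {B : Finset (ℤ × ℤ)} (m : ℕ) (d : ℝ × ℝ) (y : ℤ × ℤ) (H : ℤ × ℤ → ℝ) :
    Th B m d (sf y H) = Th B m d (g0 (nb B) (rs (nb B) y H)) := by
  refine Th_loc B m d fun z hz _ => ?_
  unfold g0
  rw [gl_mem hz]
  rfl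

private theorem qkc_Thm (B : Finset (ℤ × ℤ)) (m : ℕ) (d : ℝ × ℝ) (D : Finset (ℤ × ℤ))
    (b : ℤ × ℤ → ℝ) (y : ℤ × ℤ) : Measurable (fun h : D → ℝ => Th B m d (sf y (gl D b h))) := by
  have e1 : (fun h : D → ℝ => Th B m d (sf y (gl D b h))) =
      fun h => Th B m d (g0 (nb B) (rs (nb B) y (gl D b h))) := by
    funext h
    exact qkc_nb m d y _
  rw [e1]
  exact (Th_meas B m d).comp (rs_meas D (nb B) b y)

private theorem qkc_Thi (B : Finset (ℤ × ℤ)) (m : ℕ) (d : ℝ × ℝ) (D : Finset (ℤ × ℤ))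
    (b : ℤ × ℤ → ℝ) (y : ℤ × ℤ) :
    IntegrableOn (fun h : D → ℝ => Th B m d (sf y (gl D b h))) (K D b) := by
  obtain ⟨C, _, hC⟩ := Th_le B m
  have h1 := K_int (S := D) (c := b) (f := fun _ => 1)
    (g := fun h : D → ℝ => Th B m d (sf y (gl D b h))) continuous_const
    (qkc_Thm B m d D b y) (M := C * qd d) (fun k => by
      rw [abs_of_nonneg (Th_nonneg _ _ _ _)]
      exact hC d _)
  simpa using h1

theorem th_up (B : Finset (ℤ × ℤ)) (m : ℕ) (d : ℝ × ℝ) {D : Finset (ℤ × ℤ)} {b : ℤ × ℤ → ℝ}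
    (hb : ∀ z, |b z| ≤ 1 / 2) {y : ℤ × ℤ} (hD : tr y B ⊆ D) {w : ℤ × ℤ → (D → ℝ) → ℝ}
    (hw : LNice D (tr y B) w) :
    ∫ h, Jf D b (tr y B) m d w h ∂(Mu D b) ≤ ∫ h, Th B m d (sf y (gl D b h)) ∂(Mu D b) := by
  classical
  rw [int_Mu, int_Mu]
  refine mul_le_mul_of_nonneg_left ?_ (inv_nonneg.2 ENNReal.toReal_nonneg)
  have hf := qkc_int b m d hw
  have hg := qkc_Thi B m d D b y
  rw [← sub_nonpos, ← integral_sub hf hg]
  have hd : Disjoint (D \ tr y B) (tr y B) := Finset.sdiff_disjoint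
  have hu : (D \ tr y B) ∪ tr y B = D := Finset.sdiff_union_of_subset hD
  rw [int_fib hd hu b (f := fun h => Jf D b (tr y B) m d w h - Th B m d (sf y (gl D b h)))
    (hf.sub hg)]
  refine integral_nonpos fun a => ?_
  set β := gl (D \ tr y B) b a with hβ
  have e1 : ∀ a' : tr y B → ℝ, Th B m d (sf y (gl D b (jn (D \ tr y B) (tr y B) a a'))) =
      Th B m d (sf y β) := by
    intro a'
    refine Th_loc B m d fun z _ hz => ?_
    show gl D b (jn (D \ tr y B) (tr y B) a a') (y + z) = β (y + z)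
    rw [gl_jn hd hu, gl_not_mem]
    rw [mem_tr, add_sub_cancel_left]
    exact hz
  have e2 : ∫ a' in K (tr y B) β, (Jf D b (tr y B) m d w (jn (D \ tr y B) (tr y B) a a') -
      Th B m d (sf y (gl D b (jn (D \ tr y B) (tr y B) a a')))) =
      Jt (tr y B) m d (fun z a' => w z (jn (D \ tr y B) (tr y B) a a')) β -
        (Z (tr y B) β).toReal * Th B m d (sf y β) := by
    have hi1 := qkc_int β m d (qkc_nice hu a hw)
    have hi2 : IntegrableOn (fun _ : tr y B → ℝ => Th B m d (sf y β)) (K (tr y B) β) := by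
      refine integrableOn_const ?_
      exact (Z_lt_top (tr y B) β).ne
    have e3 : ∫ _a' in K (tr y B) β, Th B m d (sf y β) =
        (Z (tr y B) β).toReal * Th B m d (sf y β) := by
      rw [setIntegral_const]
      rfl
    have e4 := integral_sub hi1 hi2
    rw [e3] at e4
    refine Eq.trans ?_ e4
    refine integral_congr_ae (Filter.Eventually.of_forall fun a' => ?_)
    show _ - _ = _ - _
    rw [e1, qkc_Jf hd hu b a hw]
  show ∫ a' in K (tr y B) β, _ ≤ _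
  rw [e2]
  show _ ≤ (0 : ℝ)
  rw [sub_nonpos]
  have h1 : Jt (tr y B) m d (fun z a' => w z (jn (D \ tr y B) (tr y B) a a')) β ≤
      Tt (tr y B) m d β :=
    (Tt_lub (tr y B) m d β).1 ⟨⟨_, qkc_nice hu a hw⟩, rfl⟩
  refine h1.trans ?_
  by_cases hZ : Z (tr y B) β = 0
  · rw [Tt_zero m d hZ, hZ]
    simp
  · rw [← Th_tr]
    unfold Th
    have h2 : (Z (tr y B) β).toReal ≠ 0 := ENNReal.toReal_ne_zero.2 ⟨hZ, (Z_lt_top _ _).ne⟩
    rw [mul_div_cancel₀ _ h2]
/- END qkc -/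

/- MODULE qkd
See `qkc`. -/
private theorem qkd_tr (B : Finset (ℤ × ℤ)) (y : ℤ × ℤ) (β : ℤ × ℤ → ℝ)
    (Φ : (ℤ × ℤ → ℝ) → ℝ) :
    ∫ a in K (tr y B) β, Φ (sf y (gl (tr y B) β a)) = ∫ a in K B (sf y β), Φ (gl B (sf y β) a) := by
  classical
  have hmem : ∀ z : ℤ × ℤ, y + z ∈ tr y B ↔ z ∈ B := fun z => by
    rw [mem_tr, add_sub_cancel_left]
  set e : B ≃ tr y B :=
    { toFun := fun z => ⟨y + z.1, (hmem z.1).2 z.2⟩
      invFun := fun z => ⟨z.1 - y, mem_tr.1 z.2⟩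
      left_inv := fun z => Subtype.ext (add_sub_cancel_left y z.1)
      right_inv := fun z => Subtype.ext (add_sub_cancel y z.1) } with he
  have h1 := volume_measurePreserving_piCongrLeft (fun _ : tr y B => ℝ) e
  set E := MeasurableEquiv.piCongrLeft (fun _ : tr y B => ℝ) e with hE
  have hEe : ∀ (a : B → ℝ) (z : B), E a (e z) = a z := fun a z =>
    Equiv.piCongrLeft_apply_apply (fun _ : tr y B => ℝ) e a z
  have hg : ∀ a : B → ℝ, sf y (gl (tr y B) β (E a)) = gl B (sf y β) a := by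
    intro a
    funext z
    show gl (tr y B) β (E a) (y + z) = _
    by_cases hz : z ∈ B
    · rw [gl_mem ((hmem z).2 hz), gl_mem hz]
      exact hEe a ⟨z, hz⟩
    · rw [gl_not_mem (fun h => hz ((hmem z).1 h)), gl_not_mem hz]
      rfl
  have hK : E ⁻¹' (K (tr y B) β) = K B (sf y β) := by
    ext a
    constructor
    · intro h x hx i
      have h2 := h (y + x) ((hmem x).2 hx) i
      rw [← hg]
      show |gl (tr y B) β (E a) (y + x) - gl (tr y B) β (E a) (y + (x + st i))| ≤ 1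
      rw [← add_assoc]
      exact h2
    · intro h x hx i
      have h2 := h (x - y) (mem_tr.1 hx) i
      rw [← hg] at h2
      change |gl (tr y B) β (E a) (y + (x - y)) -
        gl (tr y B) β (E a) (y + (x - y + st i))| ≤ 1 at h2
      have e1 : y + (x - y) = x := by abel
      have e2 : y + (x - y + st i) = x + st i := by abel
      rw [e1, e2] at h2
      exact h2
  rw [← h1.setIntegral_preimage_emb E.measurableEmbedding
    (fun a => Φ (sf y (gl (tr y B) β a))) (K (tr y B) β), hK]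
  refine integral_congr_ae (Filter.Eventually.of_forall fun a => ?_)
  show Φ _ = Φ _
  rw [hg]

private theorem qkd_Z (B : Finset (ℤ × ℤ)) (β : ℤ × ℤ → ℝ) :
    ∫ _a in K B β, (1 : ℝ) = (Z B β).toReal := by
  rw [setIntegral_const, smul_eq_mul, mul_one]
  rfl

private theorem qkd_Zt (B : Finset (ℤ × ℤ)) (y : ℤ × ℤ) (β : ℤ × ℤ → ℝ) :
    (Z (tr y B) β).toReal = (Z B (sf y β)).toReal := by
  rw [← qkd_Z, ← qkd_Z]
  exact qkd_tr B y β fun _ => 1

private theorem qkd_pz {S W : Finset (ℤ × ℤ)} {c : ℤ × ℤ → ℝ} {y z : ℤ × ℤ} (hz : y + z ∈ S)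
    (hw : z ∈ W) {F : (W → ℝ) → ℝ} (hF : Differentiable ℝ F) (k : S → ℝ) :
    pz S (y + z) (fun k => F (rs W y (gl S c k))) k = pz W z F (rs W y (gl S c k)) := by
  classical
  unfold pz
  rw [dif_pos hz, dif_pos hw]
  set L : (S → ℝ) →L[ℝ] (W → ℝ) := ContinuousLinearMap.pi
    (fun w : W => if h : y + w.1 ∈ S then ContinuousLinearMap.proj (⟨y + w.1, h⟩ : S) else 0)
    with hL
  have h1 : HasFDerivAt (fun k : S → ℝ => rs W y (gl S c k)) L k := by
    rw [hasFDerivAt_pi']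
    intro w
    have e1 : (ContinuousLinearMap.proj (R := ℝ) (φ := fun _ : W => ℝ) w).comp L =
        (if h : y + w.1 ∈ S then ContinuousLinearMap.proj (⟨y + w.1, h⟩ : S) else 0) := by
      rw [hL]
      rfl
    rw [e1]
    by_cases h : y + w.1 ∈ S
    · rw [dif_pos h]
      have e2 : (fun k : S → ℝ => rs W y (gl S c k) w) = fun k => k ⟨y + w.1, h⟩ := by
        funext k
        exact gl_mem h
      rw [e2]
      exact (ContinuousLinearMap.proj (R := ℝ) (φ := fun _ : S => ℝ) (⟨y + w.1, h⟩ : S)).hasFDerivAt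
    · rw [dif_neg h]
      have e2 : (fun k : S → ℝ => rs W y (gl S c k) w) = fun _ => c (y + w.1) := by
        funext k
        exact gl_not_mem h
      rw [e2]
      exact hasFDerivAt_const _ _
  have h2 : HasFDerivAt (fun k : S → ℝ => F (rs W y (gl S c k)))
      ((fderiv ℝ F (rs W y (gl S c k))).comp L) k :=
    (hF (rs W y (gl S c k))).hasFDerivAt.comp k h1
  unfold pd
  rw [h2.fderiv]
  show fderiv ℝ F (rs W y (gl S c k)) (L (Pi.single ⟨y + z, hz⟩ 1)) = _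
  congr 1
  funext w
  show (if h : y + w.1 ∈ S then
    (ContinuousLinearMap.proj (⟨y + w.1, h⟩ : S) : (S → ℝ) →L[ℝ] ℝ) else 0)
    (Pi.single ⟨y + z, hz⟩ 1) = _
  by_cases he : w.1 = z
  · have e2 : w = ⟨z, hw⟩ := Subtype.ext he
    subst e2
    rw [dif_pos hz, Pi.single_eq_same]
    show (Pi.single (⟨y + z, hz⟩ : S) (1 : ℝ) : S → ℝ) ⟨y + z, hz⟩ = 1
    rw [Pi.single_eq_same]
  · rw [Pi.single_eq_of_ne (fun h => he (congrArg Subtype.val h))]
    by_cases h : y + w.1 ∈ S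
    · rw [dif_pos h]
      show (Pi.single (⟨y + z, hz⟩ : S) (1 : ℝ) : S → ℝ) ⟨y + w.1, h⟩ = 0
      rw [Pi.single_eq_of_ne]
      intro h3
      exact he (add_left_cancel (congrArg Subtype.val h3))
    · rw [dif_neg h]
      rfl

/-- the functional of a window field as a function of the window -/
private def qkd_W (B : Finset (ℤ × ℤ)) (m : ℕ) (d : ℝ × ℝ) (V : ℤ × ℤ → (nb B → ℝ) → ℝ)
    (k : nb B → ℝ) : ℝ := Jf (nb B) (fun _ => 0) B m d V k

private theorem qkd_sub (B : Finset (ℤ × ℤ)) : B ⊆ nb B := fun _ hx => mem_nb.2 (Or.inl hx)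

private theorem qkd_Jt {B : Finset (ℤ × ℤ)} (m : ℕ) (d : ℝ × ℝ)
    {V : ℤ × ℤ → (nb B → ℝ) → ℝ} (hV : LNice (nb B) B V) (β : ℤ × ℤ → ℝ) :
    Jt B m d (fr B V β) β = ∫ a in K B β, qkd_W B m d V (rs (nb B) 0 (gl B β a)) := by
  unfold Jt
  refine integral_congr_ae (Filter.Eventually.of_forall fun a => ?_)
  show Jf B β B m d (fr B V β) a = Jf (nb B) (fun _ => 0) B m d V (rs (nb B) 0 (gl B β a))
  unfold Jf
  congr 1
  · refine Finset.sum_congr rfl fun i _ => ?_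
    congr 1
    unfold sx
    refine Finset.sum_congr rfl fun x hx => ?_
    have e3 : gt m x i (gl B β a) =
        gt m x i (gl (nb B) (fun _ => 0) (rs (nb B) 0 (gl B β a))) := by
      refine gt_loc fun z hz => ?_
      have h1 : z ∈ B := mem_inn.1 hx z (by push_cast; linarith)
      rw [gl_mem (R := nb B) (qkd_sub B h1)]
      show _ = gl B β a (0 + z)
      rw [zero_add]
    rw [e3]
    rfl
  · unfold en
    refine Finset.sum_congr rfl fun x _ => Finset.sum_congr rfl fun z hz => ?_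
    congr 1
    have h1 := qkd_pz (S := B) (W := nb B) (c := β) (y := 0) (z := z) (by rwa [zero_add])
      (qkd_sub B hz) ((hV.sm x).differentiable (by simp)) a
    rw [zero_add] at h1
    exact h1

private theorem qkd_par {X : Type*} [MeasurableSpace X] (R : Finset (ℤ × ℤ))
    {κ : X → ℤ × ℤ → ℝ} (hκ : ∀ z, Measurable fun x => κ x z) {Ψ : X × (R → ℝ) → ℝ}
    (hΨ : Measurable Ψ) : Measurable fun x => ∫ a in K R (κ x), Ψ (x, a) := by
  have hgl : ∀ z, Measurable fun p : X × (R → ℝ) => gl R (κ p.1) p.2 z := by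
    intro z
    by_cases hz : z ∈ R
    · have e1 : (fun p : X × (R → ℝ) => gl R (κ p.1) p.2 z) = fun p => p.2 ⟨z, hz⟩ := by
        funext p
        exact gl_mem hz
      rw [e1]
      exact (measurable_pi_apply _).comp measurable_snd
    · have e1 : (fun p : X × (R → ℝ) => gl R (κ p.1) p.2 z) = fun p => κ p.1 z := by
        funext p
        exact gl_not_mem hz
      rw [e1]
      exact (hκ z).comp measurable_fst
  have hS : MeasurableSet {p : X × (R → ℝ) | p.2 ∈ K R (κ p.1)} := by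
    have e1 : {p : X × (R → ℝ) | p.2 ∈ K R (κ p.1)} = ⋂ x ∈ R, ⋂ i : Fin 6,
        {p : X × (R → ℝ) | |gl R (κ p.1) p.2 x - gl R (κ p.1) p.2 (x + st i)| ≤ 1} := by
      ext p
      simp only [K, mem_ofPred_eq, mem_iInter]
    rw [e1]
    refine Finset.measurableSet_biInter _ (fun x _ => MeasurableSet.iInter (fun i => ?_))
    exact measurableSet_le (((hgl x).sub (hgl (x + st i))).abs) measurable_const
  have e2 : (fun x => ∫ a in K R (κ x), Ψ (x, a)) =
      fun x => ∫ a, ({p : X × (R → ℝ) | p.2 ∈ K R (κ p.1)}.indicator Ψ) (x, a) := by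
    funext x
    rw [← integral_indicator (K_meas R (κ x))]
    rfl
  rw [e2]
  exact ((hΨ.indicator hS).stronglyMeasurable.integral_prod_right').measurable

private theorem qkd_Wm {B : Finset (ℤ × ℤ)} (m : ℕ) (d : ℝ × ℝ)
    {V : ℤ × ℤ → (nb B → ℝ) → ℝ} (hV : LNice (nb B) B V) : Measurable (qkd_W B m d V) := by
  unfold qkd_W Jf sx en
  refine Measurable.sub ?_ ?_
  · refine Finset.measurable_fun_sum _ fun i _ => Measurable.const_mul ?_ _
    refine Finset.measurable_fun_sum _ fun x _ => ?_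
    exact (gt_meas _ _ m x i).mul (((hV.sm _).continuous.measurable).sub
      (hV.sm _).continuous.measurable)
  · refine Finset.measurable_fun_sum _ fun x _ => Finset.measurable_fun_sum _ fun y _ => ?_
    exact ((pz_cont ((hV.sm x).of_le (by simp))).measurable).pow_const 2

private theorem qkd_Wb {B : Finset (ℤ × ℤ)} (m : ℕ) (d : ℝ × ℝ)
    {V : ℤ × ℤ → (nb B → ℝ) → ℝ} (hV : UF B V) :
    ∃ M : ℝ, 0 ≤ M ∧ ∀ k, |qkd_W B m d V k| ≤ M := by
  obtain ⟨C1, h1⟩ := hV.bdd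
  obtain ⟨C2, h2⟩ := hV.dbdd
  refine ⟨(∑ i, |dc d i| * ∑ _x ∈ inn B (m + 2), 2 * |C1|) + ∑ _x ∈ B, ∑ _y ∈ B, C2 ^ 2,
    by positivity, fun k => ?_⟩
  unfold qkd_W Jf
  refine (abs_sub _ _).trans (add_le_add ?_ ?_)
  · refine (Finset.abs_sum_le_sum_abs _ _).trans (Finset.sum_le_sum fun i _ => ?_)
    rw [abs_mul]
    refine mul_le_mul_of_nonneg_left ?_ (abs_nonneg _)
    unfold sx
    refine (Finset.abs_sum_le_sum_abs _ _).trans (Finset.sum_le_sum fun x _ => ?_)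
    rw [abs_mul]
    have h3 : |gt m x i (gl (nb B) (fun _ => 0) k)| ≤ 1 := by
      rcases gt_mem m x i (gl (nb B) (fun _ => 0) k) with h | h <;> rw [h] <;> norm_num
    have h4 : |V (x + st i) k - V x k| ≤ 2 * |C1| := by
      have h5 := (h1 (x + st i) k).trans (le_abs_self C1)
      have h6 := (h1 x k).trans (le_abs_self C1)
      have h7 := abs_sub (V (x + st i) k) (V x k)
      linarith
    calc |gt m x i (gl (nb B) (fun _ => 0) k)| * |V (x + st i) k - V x k|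
        ≤ 1 * (2 * |C1|) := mul_le_mul h3 h4 (abs_nonneg _) zero_le_one
      _ = _ := one_mul _
  · unfold en
    refine (Finset.abs_sum_le_sum_abs _ _).trans (Finset.sum_le_sum fun x _ => ?_)
    refine (Finset.abs_sum_le_sum_abs _ _).trans (Finset.sum_le_sum fun y _ => ?_)
    rw [abs_of_nonneg (sq_nonneg _), ← sq_abs (pz (nb B) y (V x) k)]
    exact pow_le_pow_left₀ (abs_nonneg _) (h2 x y k) 2

private theorem qkd_nb {B : Finset (ℤ × ℤ)} {z : ℤ × ℤ} (h : ∃ x ∈ B, ∃ i, z = x + st i) :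
    z ∈ nb B := by
  obtain ⟨x, hx, i, rfl⟩ := h
  refine mem_nb.2 (Or.inr ⟨i + 3, ?_⟩)
  rw [st_neg, add_neg_cancel_right]
  exact hx

/-- locality of the normalised functional -/
private theorem qkd_loc {B : Finset (ℤ × ℤ)} (m : ℕ) (d : ℝ × ℝ)
    {V : ℤ × ℤ → (nb B → ℝ) → ℝ} (hV : LNice (nb B) B V) {β β' : ℤ × ℤ → ℝ}
    (h : ∀ z, z ∈ nb B → z ∉ B → β z = β' z) : Jn B m d V β = Jn B m d V β' := by
  have hK : ∀ z, z ∉ B → (∃ x ∈ B, ∃ i, z = x + st i) → β z = β' z :=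
    fun z hz hx => h z (qkd_nb hx) hz
  unfold Jn
  rw [qkd_Jt m d hV, qkd_Jt m d hV, Z_loc hK, K_loc hK]
  congr 1
  refine integral_congr_ae (Filter.Eventually.of_forall fun a => ?_)
  show qkd_W B m d V _ = qkd_W B m d V _
  congr 1
  funext w
  show gl B β a (0 + w.1) = gl B β' a (0 + w.1)
  rw [zero_add]
  by_cases hw : w.1 ∈ B
  · rw [gl_mem hw, gl_mem hw]
  · rw [gl_not_mem hw, gl_not_mem hw]
    exact h _ w.2 hw

private theorem qkd_Jnm {X : Type*} [MeasurableSpace X] {B : Finset (ℤ × ℤ)} (m : ℕ) (d : ℝ × ℝ)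
    {V : ℤ × ℤ → (nb B → ℝ) → ℝ} (hV : LNice (nb B) B V) {κ : X → ℤ × ℤ → ℝ}
    (hκ : ∀ z, Measurable fun x => κ x z) : Measurable fun x => Jn B m d V (κ x) := by
  unfold Jn
  have e1 : (fun x => Jt B m d (fr B V (κ x)) (κ x) / (Z B (κ x)).toReal) =
      fun x => (∫ a in K B (κ x), qkd_W B m d V (rs (nb B) 0 (gl B (κ x) a))) /
        ∫ _a in K B (κ x), (1 : ℝ) := by
    funext x
    rw [qkd_Jt m d hV, qkd_Z]
  rw [e1]
  refine Measurable.div ?_ ?_
  · refine qkd_par B hκ (Ψ := fun p : X × (B → ℝ) =>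
      qkd_W B m d V (rs (nb B) 0 (gl B (κ p.1) p.2))) ?_
    refine (qkd_Wm m d hV).comp (measurable_pi_lambda _ fun w => ?_)
    show Measurable fun p : X × (B → ℝ) => gl B (κ p.1) p.2 (0 + w.1)
    by_cases hz : 0 + w.1 ∈ B
    · have e1 : (fun p : X × (B → ℝ) => gl B (κ p.1) p.2 (0 + w.1)) =
          fun p => p.2 ⟨0 + w.1, hz⟩ := by
        funext p
        exact gl_mem hz
      rw [e1]
      exact (measurable_pi_apply _).comp measurable_snd
    · have e1 : (fun p : X × (B → ℝ) => gl B (κ p.1) p.2 (0 + w.1)) =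
          fun p => κ p.1 (0 + w.1) := by
        funext p
        exact gl_not_mem hz
      rw [e1]
      exact (hκ _).comp measurable_fst
  · exact qkd_par B hκ (Ψ := fun _ => 1) measurable_const

private theorem qkd_Jnb {B : Finset (ℤ × ℤ)} (m : ℕ) (d : ℝ × ℝ)
    {V : ℤ × ℤ → (nb B → ℝ) → ℝ} (hV : UF B V) :
    ∃ M : ℝ, 0 ≤ M ∧ ∀ β, |Jn B m d V β| ≤ M := by
  obtain ⟨M, hM, h1⟩ := qkd_Wb m d hV
  refine ⟨M, hM, fun β => ?_⟩
  unfold Jn
  rw [qkd_Jt m d hV.nice, abs_div, abs_of_nonneg (ENNReal.toReal_nonneg (a := Z B β))]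
  refine div_le_of_le_mul₀ ENNReal.toReal_nonneg hM ?_
  have h2 := norm_setIntegral_le_of_norm_le_const (μ := volume) (s := K B β)
    (f := fun a => qkd_W B m d V (rs (nb B) 0 (gl B β a))) (C := M)
    (Z_lt_top B β) (fun a _ => h1 _)
  exact h2

theorem Jn_int (B : Finset (ℤ × ℤ)) (m : ℕ) (d : ℝ × ℝ) {D : Finset (ℤ × ℤ)} {b : ℤ × ℤ → ℝ}
    (hb : ∀ z, |b z| ≤ 1 / 2) {y : ℤ × ℤ} (hD : tr y (nb B) ⊆ D)
    {V : ℤ × ℤ → (nb B → ℝ) → ℝ} (hV : UF B V) :
    ∫ h, Jf D b (tr y B) m d (pl D b (nb B) y V) h ∂(Mu D b) =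
      ∫ h, Jn B m d V (sf y (gl D b h)) ∂(Mu D b) := by
  classical
  rw [int_Mu, int_Mu]
  congr 1
  have hBD : tr y B ⊆ D := fun x hx => hD (mem_tr.2 (qkd_sub B (mem_tr.1 hx)))
  have hp := pl_lnice (c := b) (qkd_sub B) hD hV.nice
  have hf := qkc_int b m d hp
  have hg : IntegrableOn (fun h : D → ℝ => Jn B m d V (sf y (gl D b h))) (K D b) := by
    obtain ⟨M, hM, h1⟩ := qkd_Jnb m d hV
    have h2 := K_int (S := D) (c := b) (f := fun _ => 1)
      (g := fun h : D → ℝ => Jn B m d V (sf y (gl D b h))) continuous_const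
      (qkd_Jnm m d hV.nice (κ := fun h : D → ℝ => sf y (gl D b h)) fun z => gl_meas D b (y + z))
      (M := M) (fun k => h1 _)
    simpa using h2
  have hd : Disjoint (D \ tr y B) (tr y B) := Finset.sdiff_disjoint
  have hu : (D \ tr y B) ∪ tr y B = D := Finset.sdiff_union_of_subset hBD
  rw [int_fib hd hu b hf, int_fib hd hu b hg]
  refine integral_congr_ae (Filter.Eventually.of_forall fun a => ?_)
  set β := gl (D \ tr y B) b a with hβ
  show ∫ a' in K (tr y B) β, Jf D b (tr y B) m d (pl D b (nb B) y V)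
      (jn (D \ tr y B) (tr y B) a a') =
    ∫ a' in K (tr y B) β, Jn B m d V (sf y (gl D b (jn (D \ tr y B) (tr y B) a a')))
  have e0 : ∀ a' : tr y B → ℝ, gl D b (jn (D \ tr y B) (tr y B) a a') = gl (tr y B) β a' :=
    fun a' => funext fun z => gl_jn hd hu b a a' z
  have e1 : ∫ a' in K (tr y B) β, Jf D b (tr y B) m d (pl D b (nb B) y V)
      (jn (D \ tr y B) (tr y B) a a') = Jt B m d (fr B V (sf y β)) (sf y β) := by
    rw [qkd_Jt m d hV.nice, ← qkd_tr B y β (fun H => qkd_W B m d V (rs (nb B) 0 H))]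
    refine integral_congr_ae (Filter.Eventually.of_forall fun a' => ?_)
    show Jf D b (tr y B) m d (pl D b (nb B) y V) (jn (D \ tr y B) (tr y B) a a') =
      Jf (nb B) (fun _ => 0) B m d V (rs (nb B) 0 (sf y (gl (tr y B) β a')))
    rw [Jf_pl (qkd_sub B) hD hV.nice, e0]
    congr 1
    funext w
    show gl (tr y B) β a' (y + w.1) = gl (tr y B) β a' (y + (0 + w.1))
    rw [zero_add]
  have e2 : ∀ a' : tr y B → ℝ,
      Jn B m d V (sf y (gl D b (jn (D \ tr y B) (tr y B) a a'))) = Jn B m d V (sf y β) := by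
    intro a'
    refine qkd_loc m d hV.nice fun z _ hz => ?_
    show gl D b (jn (D \ tr y B) (tr y B) a a') (y + z) = β (y + z)
    rw [e0, gl_not_mem]
    rw [mem_tr, add_sub_cancel_left]
    exact hz
  have e3 : ∫ a' in K (tr y B) β, Jn B m d V (sf y (gl D b (jn (D \ tr y B) (tr y B) a a'))) =
      (Z (tr y B) β).toReal * Jn B m d V (sf y β) := by
    have e4 : ∫ _a' in K (tr y B) β, Jn B m d V (sf y β) =
        (Z (tr y B) β).toReal * Jn B m d V (sf y β) := by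
      rw [setIntegral_const]
      rfl
    rw [← e4]
    exact integral_congr_ae (Filter.Eventually.of_forall fun a' => e2 a')
  rw [e1, e3, qkd_Zt]
  unfold Jn
  by_cases hZ : Z B (sf y β) = 0
  · rw [hZ]
    have e5 : Jt B m d (fr B V (sf y β)) (sf y β) = 0 := by
      unfold Jt
      exact setIntegral_measure_zero _ hZ
    rw [e5]
    simp
  · have h2 : (Z B (sf y β)).toReal ≠ 0 := ENNReal.toReal_ne_zero.2 ⟨hZ, (Z_lt_top _ _).ne⟩
    rw [mul_div_cancel₀ _ h2]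
/- END qkd -/

/- MODULE qke
UNIVERSAL NEAR-MAXIMISERS.  `V0`, `V1` from `uf_exists` for `d = (1,0)`, `(0,1)` with a small error,
`Tt_comb` pointwise on the fibres, `dens`, `Jn_int`; `d.1 ^ 2 + d.2 ^ 2 ≤ 2 qd d`. -/
private theorem qke_w0 {B : Finset (ℤ × ℤ)} (hB : B.Nonempty) : ∃ w0 ∈ nb B, w0 ∉ B := by
  obtain ⟨x, hx, h1⟩ := Finset.exists_max_image B (fun z => z.1) hB
  refine ⟨x + st 0, qkd_nb ⟨x, hx, 0, rfl⟩, fun h => ?_⟩
  have h2 := h1 _ h
  have h3 : (x + st 0).1 = x.1 + 1 := by simp [st]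
  rw [h3] at h2
  linarith

private theorem qke_pz {B : Finset (ℤ × ℤ)} {V0 V1 : ℤ × ℤ → (nb B → ℝ) → ℝ}
    (h0 : LNice (nb B) B V0) (h1 : LNice (nb B) B V1) (s t : ℝ) (z y : ℤ × ℤ) (k : nb B → ℝ) :
    pz (nb B) y ((s • V0 + t • V1) z) k = s * pz (nb B) y (V0 z) k + t * pz (nb B) y (V1 z) k := by
  have e1 : (s • V0 + t • V1) z = fun k => (fun k => s * V0 z k) k + (fun k => t * V1 z k) k := rfl
  have d0 : DifferentiableAt ℝ (V0 z) k := (h0.sm z).differentiable (by simp) k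
  have d1 : DifferentiableAt ℝ (V1 z) k := (h1.sm z).differentiable (by simp) k
  rw [e1, pz_add (d0.const_mul s) (d1.const_mul t), pz_smul s d0, pz_smul t d1]

private theorem qke_uf {B : Finset (ℤ × ℤ)} {V0 V1 : ℤ × ℤ → (nb B → ℝ) → ℝ}
    (h0 : UF B V0) (h1 : UF B V1) (s t : ℝ) : UF B (s • V0 + t • V1) := by
  refine ⟨(h0.nice.smul s).add (h1.nice.smul t), ?_, ?_, ?_⟩
  · intro z k r
    show s * V0 z (fun w => k w + r) + t * V1 z (fun w => k w + r) = s * V0 z k + t * V1 z k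
    rw [h0.shf z k r, h1.shf z k r]
  · obtain ⟨C0, hC0⟩ := h0.bdd
    obtain ⟨C1, hC1⟩ := h1.bdd
    refine ⟨|s| * C0 + |t| * C1, fun z k => ?_⟩
    show |s * V0 z k + t * V1 z k| ≤ _
    refine (abs_add_le _ _).trans ?_
    rw [abs_mul, abs_mul]
    exact add_le_add (mul_le_mul_of_nonneg_left (hC0 z k) (abs_nonneg _))
      (mul_le_mul_of_nonneg_left (hC1 z k) (abs_nonneg _))
  · obtain ⟨C0, hC0⟩ := h0.dbdd
    obtain ⟨C1, hC1⟩ := h1.dbdd
    refine ⟨|s| * C0 + |t| * C1, fun z y k => ?_⟩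
    rw [qke_pz h0.nice h1.nice]
    refine (abs_add_le _ _).trans ?_
    rw [abs_mul, abs_mul]
    exact add_le_add (mul_le_mul_of_nonneg_left (hC0 z y k) (abs_nonneg _))
      (mul_le_mul_of_nonneg_left (hC1 z y k) (abs_nonneg _))

private theorem qke_fr {B : Finset (ℤ × ℤ)} {V : ℤ × ℤ → (nb B → ℝ) → ℝ}
    (hV : LNice (nb B) B V) (β : ℤ × ℤ → ℝ) : LNice B B (fr B V β) := by
  refine ⟨fun z => (hV.sm z).comp (rs_smooth B (nb B) β 0), ?_⟩
  obtain ⟨ε, hε, hT⟩ := hV.tie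
  refine ⟨ε, hε, fun z hz i hzi k hk => ?_⟩
  have hg : ∀ x ∈ B, g0 (nb B) (rs (nb B) 0 (gl B β k)) x = g0 B k x := by
    intro x hx
    unfold g0
    rw [gl_mem (qkd_sub B hx), gl_mem hx]
    show gl B β k (0 + x) = _
    rw [zero_add, gl_mem hx]
  exact hT z hz i hzi _ (by rw [hg z hz, hg _ hzi]; exact hk)

private theorem qke_nonneg {B : Finset (ℤ × ℤ)} (m : ℕ) (d : ℝ × ℝ)
    {V : ℤ × ℤ → (nb B → ℝ) → ℝ} (hV : LNice (nb B) B V) (β : ℤ × ℤ → ℝ) :
    0 ≤ Th B m d β - Jn B m d V β := by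
  unfold Th Jn
  rw [← sub_div]
  refine div_nonneg (sub_nonneg.2 ?_) ENNReal.toReal_nonneg
  exact (Tt_lub B m d β).1 ⟨⟨_, qke_fr hV β⟩, rfl⟩

private theorem qke_comb {B : Finset (ℤ × ℤ)} (m : ℕ) (d : ℝ × ℝ)
    {V0 V1 : ℤ × ℤ → (nb B → ℝ) → ℝ} (h0 : LNice (nb B) B V0) (h1 : LNice (nb B) B V1)
    (β : ℤ × ℤ → ℝ) :
    Th B m d β - Jn B m d (d.1 • V0 + d.2 • V1) β ≤
      2 * (d.1 ^ 2 * (Th B m (1, 0) β - Jn B m (1, 0) V0 β) +
        d.2 ^ 2 * (Th B m (0, 1) β - Jn B m (0, 1) V1 β)) := by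
  have h2 := Tt_comb B m β (qke_fr h0 β) (qke_fr h1 β) d
  have e1 : fr B (d.1 • V0 + d.2 • V1) β = d.1 • fr B V0 β + d.2 • fr B V1 β := rfl
  unfold Th Jn
  rw [e1, ← sub_div, ← sub_div, ← sub_div]
  have h3 := div_le_div_of_nonneg_right h2 (ENNReal.toReal_nonneg (a := Z B β))
  refine h3.trans (le_of_eq ?_)
  ring

private theorem qke_tr (B : Finset (ℤ × ℤ)) (β : ℤ × ℤ → ℝ) (t : ℝ) (Φ : (ℤ × ℤ → ℝ) → ℝ) :
    ∫ a in K B (fun z => β z + t), Φ (gl B (fun z => β z + t) a) =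
      ∫ a in K B β, Φ (fun z => gl B β a z + t) := by
  have h1 : MeasurePreserving (MeasurableEquiv.addRight (fun _ : B => t)) volume volume :=
    measurePreserving_add_right volume _
  have hg : ∀ a : B → ℝ, gl B (fun z => β z + t) (MeasurableEquiv.addRight (fun _ : B => t) a) =
      fun z => gl B β a z + t := by
    intro a
    funext z
    by_cases hz : z ∈ B
    · rw [gl_mem hz, gl_mem hz]
      rfl
    · rw [gl_not_mem hz, gl_not_mem hz]
  have hK : (MeasurableEquiv.addRight (fun _ : B => t)) ⁻¹' (K B (fun z => β z + t)) = K B β := by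
    ext a
    constructor
    · intro h x hx i
      have h2 := h x hx i
      rw [hg a] at h2
      change |gl B β a x + t - (gl B β a (x + st i) + t)| ≤ 1 at h2
      rwa [add_sub_add_right_eq_sub] at h2
    · intro h x hx i
      rw [hg a]
      show |gl B β a x + t - (gl B β a (x + st i) + t)| ≤ 1
      rw [add_sub_add_right_eq_sub]
      exact h x hx i
  rw [← h1.setIntegral_preimage_emb (MeasurableEquiv.measurableEmbedding _)
    (fun a => Φ (gl B (fun z => β z + t) a)) (K B (fun z => β z + t)), hK]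
  refine integral_congr_ae (Filter.Eventually.of_forall fun a => ?_)
  show Φ _ = Φ _
  rw [hg]

private theorem qke_W {B : Finset (ℤ × ℤ)} (m : ℕ) (d : ℝ × ℝ)
    {V : ℤ × ℤ → (nb B → ℝ) → ℝ} (hV : UF B V) (k : nb B → ℝ) (t : ℝ) :
    qkd_W B m d V (fun w => k w + t) = qkd_W B m d V k := by
  unfold qkd_W Jf
  congr 1
  · refine Finset.sum_congr rfl fun i _ => ?_
    congr 1
    unfold sx
    refine Finset.sum_congr rfl fun x hx => ?_
    have e3 : gt m x i (gl (nb B) (fun _ => 0) (fun w => k w + t)) =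
        gt m x i (gl (nb B) (fun _ => 0) k) := by
      rw [← gt_shift m x i (gl (nb B) (fun _ => 0) k) t]
      refine gt_loc fun z hz => ?_
      have h1 : z ∈ B := mem_inn.1 hx z (by push_cast; linarith)
      rw [gl_mem (qkd_sub B h1), gl_mem (qkd_sub B h1)]
    rw [e3, hV.shf _ k t, hV.shf _ k t]
  · unfold en
    refine Finset.sum_congr rfl fun x _ => Finset.sum_congr rfl fun y _ => ?_
    congr 1
    unfold pz
    by_cases hy : y ∈ nb B
    · rw [dif_pos hy, dif_pos hy]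
      unfold pd
      congr 1
      have h1 := fderiv_comp_add_right (𝕜 := ℝ) (f := V x) (x := k) (fun _ : nb B => t)
      have h2 : (fun k : nb B → ℝ => V x (k + fun _ => t)) = V x := by
        funext k
        exact hV.shf x k t
      rw [h2] at h1
      exact h1.symm
    · rw [dif_neg hy, dif_neg hy]

private theorem qke_sh {B : Finset (ℤ × ℤ)} (m : ℕ) (d : ℝ × ℝ)
    {V : ℤ × ℤ → (nb B → ℝ) → ℝ} (hV : UF B V) (β : ℤ × ℤ → ℝ) (t : ℝ) :
    Jn B m d V (fun z => β z + t) = Jn B m d V β := by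
  unfold Jn
  rw [qkd_Jt m d hV.nice, qkd_Jt m d hV.nice, Z_shift]
  congr 1
  rw [qke_tr B β t (fun H => qkd_W B m d V (rs (nb B) 0 H))]
  refine integral_congr_ae (Filter.Eventually.of_forall fun a => ?_)
  exact qke_W m d hV (rs (nb B) 0 (gl B β a)) t

private theorem qke_g {B : Finset (ℤ × ℤ)} (m : ℕ) (d : ℝ × ℝ)
    {V : ℤ × ℤ → (nb B → ℝ) → ℝ} (hV : UF B V) {w0 : ℤ × ℤ} {C : ℝ≥0∞}
    (hC : ∀ (D : Finset (ℤ × ℤ)) (b : ℤ × ℤ → ℝ), (∀ z, |b z| ≤ 1 / 2) → ∀ y : ℤ × ℤ,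
      nb (tr y (nb B)) ⊆ D → ∀ g : (nb B → ℝ) → ℝ≥0∞, Measurable g →
      (∀ k t, g (fun w => k w + t) = g k) →
      ∫⁻ h, g (rs (nb B) y (gl D b h)) ∂(Mu D b) ≤ C * LW (nb B) w0 g)
    {η : ℝ} (h0 : 0 ≤ η)
    (hη : C * LW (nb B) w0 (fun k => ENNReal.ofReal (Th B m d (g0 (nb B) k) -
        Jn B m d V (g0 (nb B) k))) ≤ ENNReal.ofReal η)
    (D : Finset (ℤ × ℤ)) (b : ℤ × ℤ → ℝ) (hb : ∀ z, |b z| ≤ 1 / 2) (y : ℤ × ℤ)
    (hD : nb (tr y (nb B)) ⊆ D) :
    ∫ h, (Th B m d (sf y (gl D b h)) - Jn B m d V (sf y (gl D b h))) ∂(Mu D b) ≤ η := by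
  have hm0 : Measurable (fun h : D → ℝ => Th B m d (sf y (gl D b h)) -
      Jn B m d V (sf y (gl D b h))) :=
    (qkc_Thm B m d D b y).sub (qkd_Jnm m d hV.nice (κ := fun h : D → ℝ => sf y (gl D b h))
      fun z => gl_meas D b (y + z))
  rw [integral_eq_lintegral_of_nonneg_ae
    (Filter.Eventually.of_forall fun h => qke_nonneg m d hV.nice _) hm0.aestronglyMeasurable]
  refine ENNReal.toReal_le_of_le_ofReal h0 (le_trans ?_ hη)
  have hgm : Measurable (fun k : nb B → ℝ => ENNReal.ofReal (Th B m d (g0 (nb B) k) -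
        Jn B m d V (g0 (nb B) k))) := by
    refine ((Th_meas B m d).sub (qkd_Jnm m d hV.nice (κ := fun k : nb B → ℝ => g0 (nb B) k)
      fun z => ?_)).ennreal_ofReal
    exact gl_meas (nb B) (fun _ => 0) z
  have hgs : ∀ (k : nb B → ℝ) (t : ℝ),
      ENNReal.ofReal (Th B m d (g0 (nb B) (fun w => k w + t)) -
        Jn B m d V (g0 (nb B) (fun w => k w + t))) =
      ENNReal.ofReal (Th B m d (g0 (nb B) k) - Jn B m d V (g0 (nb B) k)) := by
    intro k t
    have e1 : Th B m d (g0 (nb B) (fun w => k w + t)) = Th B m d (g0 (nb B) k) :=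
      Th_shf B m d k t
    have e2 : Jn B m d V (g0 (nb B) (fun w => k w + t)) = Jn B m d V (g0 (nb B) k) := by
      rw [← qke_sh m d hV (g0 (nb B) k) t]
      refine qkd_loc m d hV.nice fun z hz _ => ?_
      unfold g0
      rw [gl_mem hz, gl_mem hz]
    rw [e1, e2]
  refine le_trans (le_of_eq ?_) (hC D b hb y hD _ hgm hgs)
  refine lintegral_congr fun h => ?_
  congr 1
  rw [← qkc_nb m d y (gl D b h)]
  congr 1
  refine qkd_loc m d hV.nice fun z hz _ => ?_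
  unfold g0
  rw [gl_mem hz]
  rfl

private theorem qke_Ti (B : Finset (ℤ × ℤ)) (m : ℕ) (d : ℝ × ℝ) (D : Finset (ℤ × ℤ))
    (b : ℤ × ℤ → ℝ) (y : ℤ × ℤ) :
    Integrable (fun h : D → ℝ => Th B m d (sf y (gl D b h))) (Mu D b) := by
  obtain ⟨C, _, hC⟩ := Th_le B m
  have h1 := Mu_int (D := D) (b := b) (f := fun _ => 1)
    (g := fun h : D → ℝ => Th B m d (sf y (gl D b h))) continuous_const
    (qkc_Thm B m d D b y) (M := C * qd d) (fun k => by
      rw [abs_of_nonneg (Th_nonneg _ _ _ _)]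
      exact hC d _)
  simpa using h1

private theorem qke_Ji {B : Finset (ℤ × ℤ)} (m : ℕ) (d : ℝ × ℝ)
    {V : ℤ × ℤ → (nb B → ℝ) → ℝ} (hV : UF B V) (D : Finset (ℤ × ℤ))
    (b : ℤ × ℤ → ℝ) (y : ℤ × ℤ) :
    Integrable (fun h : D → ℝ => Jn B m d V (sf y (gl D b h))) (Mu D b) := by
  obtain ⟨M, hM, h1⟩ := qkd_Jnb m d hV
  have h2 := Mu_int (D := D) (b := b) (f := fun _ => 1)
    (g := fun h : D → ℝ => Jn B m d V (sf y (gl D b h))) continuous_const
    (qkd_Jnm m d hV.nice (κ := fun h : D → ℝ => sf y (gl D b h)) fun z => gl_meas D b (y + z))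
    (M := M) (fun k => h1 _)
  simpa using h2

private theorem qke_d (d : ℝ × ℝ) : d.1 ^ 2 + d.2 ^ 2 ≤ 2 * qd d := by
  unfold qd dc
  rw [Fin.sum_univ_six]
  simp only [st, Matrix.cons_val_zero, Matrix.cons_val_one, Matrix.cons_val]
  push_cast
  nlinarith [sq_nonneg (d.1 - d.2), sq_nonneg d.1, sq_nonneg d.2]

theorem near_mx {B : Finset (ℤ × ℤ)} (hB : B.Nonempty) (m : ℕ) {ε : ℝ} (hε : 0 < ε) :
    ∃ V0 V1 : ℤ × ℤ → (nb B → ℝ) → ℝ, UF B V0 ∧ UF B V1 ∧
    ∀ (D : Finset (ℤ × ℤ)) (b : ℤ × ℤ → ℝ), (∀ z, |b z| ≤ 1 / 2) → ∀ y : ℤ × ℤ,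
      nb (tr y (nb B)) ⊆ D → ∀ d : ℝ × ℝ,
      ∫ h, Th B m d (sf y (gl D b h)) ∂(Mu D b) -
        ∫ h, Jf D b (tr y B) m d (pl D b (nb B) y (d.1 • V0 + d.2 • V1)) h ∂(Mu D b) ≤
        ε * qd d := by
  obtain ⟨w0, hw, hwB⟩ := qke_w0 hB
  obtain ⟨C, hCt, hC⟩ := dens (nb B) hw
  have hpos : (0 : ℝ≥0∞) < ENNReal.ofReal (ε / 4) / (C + 1) := by
    refine ENNReal.div_pos ?_ ?_
    · exact (ENNReal.ofReal_pos.2 (by positivity)).ne'
    · exact ENNReal.add_ne_top.2 ⟨hCt.ne, ENNReal.one_ne_top⟩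
  have hle : ∀ L : ℝ≥0∞, L ≤ ENNReal.ofReal (ε / 4) / (C + 1) → C * L ≤ ENNReal.ofReal (ε / 4) := by
    intro L hL
    calc C * L ≤ (C + 1) * (ENNReal.ofReal (ε / 4) / (C + 1)) := mul_le_mul' le_self_add hL
      _ = ENNReal.ofReal (ε / 4) := by
        refine ENNReal.mul_div_cancel ?_ ?_
        · simp
        · exact ENNReal.add_ne_top.2 ⟨hCt.ne, ENNReal.one_ne_top⟩
  obtain ⟨V0, hV0, h0⟩ := uf_exists B m (1, 0) hw hwB hpos
  obtain ⟨V1, hV1, h1⟩ := uf_exists B m (0, 1) hw hwB hpos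
  refine ⟨V0, V1, hV0, hV1, ?_⟩
  intro D b hb y hD d
  have hDn : tr y (nb B) ⊆ D := fun x hx => hD (mem_nb.2 (Or.inl hx))
  have hq := qke_d d
  rw [Jn_int B m d hb hDn (qke_uf hV0 hV1 d.1 d.2),
    ← integral_sub (qke_Ti B m d D b y) (qke_Ji m d (qke_uf hV0 hV1 d.1 d.2) D b y)]
  have i0 : Integrable (fun h : D → ℝ => Th B m (1, 0) (sf y (gl D b h)) -
      Jn B m (1, 0) V0 (sf y (gl D b h))) (Mu D b) :=
    (qke_Ti B m (1, 0) D b y).sub (qke_Ji m (1, 0) hV0 D b y)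
  have i1 : Integrable (fun h : D → ℝ => Th B m (0, 1) (sf y (gl D b h)) -
      Jn B m (0, 1) V1 (sf y (gl D b h))) (Mu D b) :=
    (qke_Ti B m (0, 1) D b y).sub (qke_Ji m (0, 1) hV1 D b y)
  have g0' := qke_g m (1, 0) hV0 hC (by positivity) (hle _ h0) D b hb y hD
  have g1' := qke_g m (0, 1) hV1 hC (by positivity) (hle _ h1) D b hb y hD
  calc ∫ h, (Th B m d (sf y (gl D b h)) - Jn B m d (d.1 • V0 + d.2 • V1) (sf y (gl D b h)))
        ∂(Mu D b)
      ≤ ∫ h, (2 * (d.1 ^ 2 * (Th B m (1, 0) (sf y (gl D b h)) -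
          Jn B m (1, 0) V0 (sf y (gl D b h))) +
        d.2 ^ 2 * (Th B m (0, 1) (sf y (gl D b h)) -
          Jn B m (0, 1) V1 (sf y (gl D b h))))) ∂(Mu D b) := by
        refine integral_mono ((qke_Ti B m d D b y).sub
          (qke_Ji m d (qke_uf hV0 hV1 d.1 d.2) D b y)) ?_ fun h => ?_
        · exact ((i0.const_mul (d.1 ^ 2)).add (i1.const_mul (d.2 ^ 2))).const_mul 2
        · exact qke_comb m d hV0.nice hV1.nice _
    _ = 2 * (d.1 ^ 2 * ∫ h, (Th B m (1, 0) (sf y (gl D b h)) -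
          Jn B m (1, 0) V0 (sf y (gl D b h))) ∂(Mu D b) +
        d.2 ^ 2 * ∫ h, (Th B m (0, 1) (sf y (gl D b h)) -
          Jn B m (0, 1) V1 (sf y (gl D b h))) ∂(Mu D b)) := by
        rw [integral_const_mul, integral_add (i0.const_mul (d.1 ^ 2)) (i1.const_mul (d.2 ^ 2)),
          integral_const_mul, integral_const_mul]
    _ ≤ 2 * (d.1 ^ 2 * (ε / 4) + d.2 ^ 2 * (ε / 4)) := by
        have h3 := mul_le_mul_of_nonneg_left g0' (sq_nonneg d.1)
        have h4 := mul_le_mul_of_nonneg_left g1' (sq_nonneg d.2)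
        linarith
    _ ≤ ε * qd d := by nlinarith
/- END qke -/

/- MODULE qkf
Parallelogram and energy at the level of `D` (`forms` with `S = D`, `th_up`, `abs_par`,
`abs_energy` with `l = ∫ Jf + ∫ en`). -/
private theorem qkf_Z {D : Finset (ℤ × ℤ)} {b : ℤ × ℤ → ℝ} (hb : ∀ z, |b z| ≤ 1 / 2) :
    0 < (Z D b).toReal := by
  refine ENNReal.toReal_pos ?_ (Z_lt_top D b).ne
  have h1 := Z_one_le (R := D) (c := b) (fun z _ _ => hb z)
  intro h2
  rw [h2] at h1
  simp at h1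

private theorem qkf_K {D : Finset (ℤ × ℤ)} {b : ℤ × ℤ → ℝ} (hb : ∀ z, |b z| ≤ 1 / 2)
    (f : (D → ℝ) → ℝ) : ∫ h in K D b, f h = (Z D b).toReal * ∫ h, f h ∂(Mu D b) := by
  rw [int_Mu, ← mul_assoc, mul_inv_cancel₀ (qkf_Z hb).ne', one_mul]

theorem th_par (B : Finset (ℤ × ℤ)) (m : ℕ) (d : ℝ × ℝ) {D : Finset (ℤ × ℤ)} {b : ℤ × ℤ → ℝ}
    (hb : ∀ z, |b z| ≤ 1 / 2) {y : ℤ × ℤ} (hD : tr y B ⊆ D) {v u : ℤ × ℤ → (D → ℝ) → ℝ}
    (hv : LNice D (tr y B) v) (hu : LNice D (tr y B) u) :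
    ∫ h, en D (tr y B) (v - u) h ∂(Mu D b) ≤
      2 * (∫ h, Th B m d (sf y (gl D b h)) ∂(Mu D b) - ∫ h, Jf D b (tr y B) m d v h ∂(Mu D b)) +
      2 * (∫ h, Th B m d (sf y (gl D b h)) ∂(Mu D b) -
        ∫ h, Jf D b (tr y B) m d u h ∂(Mu D b)) := by
  obtain ⟨Q, l0, l1, hs, -, hQ, hJ⟩ := forms D b (tr y B) m
  have hZ := qkf_Z (D := D) hb
  set T := ∫ h, Th B m d (sf y (gl D b h)) ∂(Mu D b) with hT
  have hS : ∀ w : LN D (tr y B), (d.1 • l0 + d.2 • l1) w - Q w w ≤ (Z D b).toReal * T := by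
    intro w
    have h1 := hJ d w
    rw [qkf_K hb] at h1
    have h2 : (d.1 • l0 + d.2 • l1) w = d.1 * l0 w + d.2 * l1 w := rfl
    rw [h2, ← h1]
    exact mul_le_mul_of_nonneg_left (th_up B m d hb hD w.2) hZ.le
  have h3 := abs_par Q hs (d.1 • l0 + d.2 • l1) hS ⟨v, hv⟩ ⟨u, hu⟩
  have e1 := hJ d ⟨v, hv⟩
  have e2 := hJ d ⟨u, hu⟩
  have e3 := hQ (⟨v, hv⟩ - ⟨u, hu⟩)
  have e4 : (d.1 • l0 + d.2 • l1) ⟨v, hv⟩ = d.1 * l0 ⟨v, hv⟩ + d.2 * l1 ⟨v, hv⟩ := rfl
  have e5 : (d.1 • l0 + d.2 • l1) ⟨u, hu⟩ = d.1 * l0 ⟨u, hu⟩ + d.2 * l1 ⟨u, hu⟩ := rfl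
  have e6 : ((⟨v, hv⟩ - ⟨u, hu⟩ : LN D (tr y B))).1 = v - u := rfl
  rw [e6, qkf_K hb] at e3
  rw [qkf_K hb] at e1 e2
  rw [e4, e5, ← e1, ← e2, e3] at h3
  have h4 : (Z D b).toReal * ∫ h, en D (tr y B) (v - u) h ∂(Mu D b) ≤ (Z D b).toReal *
      (2 * (T - ∫ h, Jf D b (tr y B) m d v h ∂(Mu D b)) +
      2 * (T - ∫ h, Jf D b (tr y B) m d u h ∂(Mu D b))) := by
    refine h3.trans (le_of_eq ?_)
    ring
  exact le_of_mul_le_mul_left h4 hZ

theorem th_energy (B : Finset (ℤ × ℤ)) (m : ℕ) (d : ℝ × ℝ) {D : Finset (ℤ × ℤ)}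
    {b : ℤ × ℤ → ℝ} (hb : ∀ z, |b z| ≤ 1 / 2) {y : ℤ × ℤ} (hD : tr y B ⊆ D)
    {v : ℤ × ℤ → (D → ℝ) → ℝ} (hv : LNice D (tr y B) v) {T J e : ℝ}
    (hT : T = ∫ h, Th B m d (sf y (gl D b h)) ∂(Mu D b))
    (hJ : J = ∫ h, Jf D b (tr y B) m d v h ∂(Mu D b))
    (he : e = ∫ h, en D (tr y B) v h ∂(Mu D b)) :
    |e - T| ≤ (T - J) + 2 * Real.sqrt (T * (T - J)) := by
  obtain ⟨Q, l0, l1, hs, h0, hQ, hJ'⟩ := forms D b (tr y B) m
  have hZ := qkf_Z (D := D) hb
  have he0 : 0 ≤ e := by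
    rw [he]
    refine integral_nonneg fun h => ?_
    unfold en
    exact Finset.sum_nonneg fun x _ => Finset.sum_nonneg fun z _ => sq_nonneg _
  have h1 : ∀ s : ℝ, s * (J + e) - s ^ 2 * e ≤ T := by
    intro s
    have e1 := hJ' d ⟨v, hv⟩
    have e2 := hJ' d (s • ⟨v, hv⟩)
    have e3 := hQ ⟨v, hv⟩
    have e4 : (s • (⟨v, hv⟩ : LN D (tr y B))).1 = s • v := rfl
    rw [map_smul, map_smul, map_smul, map_smul, LinearMap.smul_apply, e4, qkf_K hb] at e2
    rw [qkf_K hb] at e1 e3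
    simp only [smul_eq_mul] at e2
    change (Z D b).toReal * ∫ h, Jf D b (tr y B) m d v h ∂(Mu D b) = _ at e1
    change _ = (Z D b).toReal * ∫ h, en D (tr y B) v h ∂(Mu D b) at e3
    rw [← hJ] at e1
    rw [← he] at e3
    have h2 : (Z D b).toReal * ∫ h, Jf D b (tr y B) m d (s • v) h ∂(Mu D b) ≤
        (Z D b).toReal * T := by
      rw [hT]
      exact mul_le_mul_of_nonneg_left (th_up B m d hb hD (hv.smul s)) hZ.le
    rw [e2, e3] at h2
    have h3 : d.1 * l0 ⟨v, hv⟩ + d.2 * l1 ⟨v, hv⟩ = (Z D b).toReal * (J + e) := by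
      rw [mul_add, ← e3]
      linarith
    have h4 : (Z D b).toReal * (s * (J + e) - s ^ 2 * e) ≤ (Z D b).toReal * T := by
      refine le_trans (le_of_eq ?_) h2
      have h5 : (Z D b).toReal * (s * (J + e) - s ^ 2 * e) =
          s * ((Z D b).toReal * (J + e)) - s * (s * ((Z D b).toReal * e)) := by ring
      rw [h5, ← h3]
      ring
    exact le_of_mul_le_mul_left h4 hZ
  have h5 := abs_energy he0 h1
  rwa [add_sub_cancel_right] at h5
/- END qkf -/

/-- energy of one component -/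
def ax (D : Finset (ℤ × ℤ)) (b : ℤ × ℤ → ℝ) (B : Finset (ℤ × ℤ)) (v : ℤ × ℤ → (D → ℝ) → ℝ)
    (x : ℤ × ℤ) : ℝ := ∫ h, ∑ y ∈ B, (pz D y (v x) h) ^ 2 ∂(Mu D b)

/- MODULE qkg
Gated gradients of a box field, from `fc1`, `fc4`: the function `v (x + st i) - v x` is tied, and
its energy is `≤ 2 ax (x + st i) + 2 ax x` (`ba x m ⊆ B`); then Cauchy-Schwarz in the sum. -/
private theorem qkg_int {D : Finset (ℤ × ℤ)} (b : ℤ × ℤ → ℝ) (A : Finset (ℤ × ℤ))
    {f : (D → ℝ) → ℝ} (hf : ContDiff ℝ 1 f) :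
    Integrable (fun h => ∑ y ∈ A, (pz D y f h) ^ 2) (Mu D b) := by
  refine integrable_finsetSum _ fun y _ => ?_
  have h1 := Mu_int (D := D) (b := b) (f := fun k => (pz D y f k) ^ 2) (g := fun _ => 1)
    ((pz_cont hf).pow 2) measurable_const (M := 1) (by simp)
  simp only [one_mul] at h1
  exact h1

private theorem qkg_sub {S : Finset (ℤ × ℤ)} {y : ℤ × ℤ} {f g : (S → ℝ) → ℝ} {k : S → ℝ}
    (hf : DifferentiableAt ℝ f k) (hg : DifferentiableAt ℝ g k) :
    pz S y (fun k => f k - g k) k = pz S y f k - pz S y g k := by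
  unfold pz
  by_cases hy : y ∈ S
  · rw [dif_pos hy, dif_pos hy, dif_pos hy]
    unfold pd
    rw [fderiv_fun_sub hf hg]
    rfl
  · rw [dif_neg hy, dif_neg hy, dif_neg hy, sub_zero]

private theorem qkg_st (i : Fin 6) : dn (st i) = 1 := (dn_one_iff _).2 ⟨i, rfl⟩

private theorem qkg_inn {B : Finset (ℤ × ℤ)} {m : ℕ} {x : ℤ × ℤ} (hx : x ∈ inn B (m + 1)) :
    x ∈ B ∧ ∀ i : Fin 6, x + st i ∈ B := by
  refine ⟨mem_inn.1 hx x ?_, fun i => mem_inn.1 hx _ ?_⟩
  · rw [sub_self, (dn_zero_iff 0).2 rfl]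
    positivity
  · rw [add_sub_cancel_left, qkg_st]
    push_cast
    have : (0 : ℤ) ≤ m := by positivity
    linarith

private theorem qkg_sq {a b : ℝ} (ha : 0 ≤ a) (hb : 0 ≤ b) :
    Real.sqrt (2 * a + 2 * b) ≤ 2 * (Real.sqrt b + Real.sqrt a) := by
  have h1 := Real.sqrt_nonneg a
  have h2 := Real.sqrt_nonneg b
  refine Real.sqrt_le_iff.2 ⟨by positivity, ?_⟩
  have h3 := Real.sq_sqrt ha
  have h4 := Real.sq_sqrt hb
  nlinarith [mul_nonneg h1 h2]

private theorem qkg_ax {D : Finset (ℤ × ℤ)} {b : ℤ × ℤ → ℝ} {B : Finset (ℤ × ℤ)}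
    {v : ℤ × ℤ → (D → ℝ) → ℝ} (x : ℤ × ℤ) : 0 ≤ ax D b B v x :=
  integral_nonneg fun h => Finset.sum_nonneg fun _ _ => sq_nonneg _

theorem gate_one : ∃ C : ℝ, 0 ≤ C ∧ ∀ (D : Finset (ℤ × ℤ)) (b : ℤ × ℤ → ℝ),
    (∀ z, |b z| ≤ 1 / 2) → ∀ (B : Finset (ℤ × ℤ)), B ⊆ D → ∀ v : ℤ × ℤ → (D → ℝ) → ℝ,
    LNice D B v → ∀ (m m₀ : ℕ), m₀ ≤ m → ∀ x ∈ inn B (m + 1), ∀ i : Fin 6,
    ∫ h, gt m x i (gl D b h) * (1 - gt m₀ x i (gl D b h)) * |v (x + st i) h - v x h| ∂(Mu D b) ≤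
      C * (9 / 10) ^ m₀ * (Real.sqrt (ax D b B v x) + Real.sqrt (ax D b B v (x + st i))) ∧
    ∫ h, gt m x i (gl D b h) * |v (x + st i) h - v x h| ∂(Mu D b) ≤
      C * (Real.sqrt (ax D b B v x) + Real.sqrt (ax D b B v (x + st i))) := by
  obtain ⟨C4, hC4, h4⟩ := fc4
  obtain ⟨C1, hC1, h1⟩ := fc1
  refine ⟨2 * (C4 + C1), by positivity, ?_⟩
  intro D b hb B hBD v hv m m₀ hm x hx i
  obtain ⟨hxB, hxi⟩ := qkg_inn hx
  have hba : ba x (m + 1) ⊆ D := by
    intro z hz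
    exact hBD (mem_inn.1 hx z (mem_ba.1 hz))
  have hba' : ba x m ⊆ B := by
    intro z hz
    have h2 := mem_ba.1 hz
    exact mem_inn.1 hx z (by push_cast; linarith)
  have hC : ContDiff ℝ 1 (fun h => v (x + st i) h - v x h) :=
    ((hv.sm _).of_le (by simp)).sub ((hv.sm _).of_le (by simp))
  have htie : ∃ ε : ℝ, 0 < ε ∧ ∀ h : D → ℝ, 1 - ε < |gl D b h x - gl D b h (x + st i)| →
      (fun h => v (x + st i) h - v x h) h = 0 := by
    obtain ⟨ε, hε, hT⟩ := hv.tie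
    refine ⟨ε, hε, fun h hh => ?_⟩
    have h3 := hT x hxB i (hxi i) h (by
      unfold g0
      rw [gl_mem (hBD hxB), gl_mem (hBD (hxi i))] at hh ⊢
      exact hh)
    show v (x + st i) h - v x h = 0
    rw [h3, sub_self]
  set I := ∫ h, ∑ y ∈ ba x m, (pz D y (fun h => v (x + st i) h - v x h) h) ^ 2 ∂(Mu D b) with hI
  have hI2 : I ≤ 2 * ax D b B v (x + st i) + 2 * ax D b B v x := by
    unfold ax
    rw [← integral_const_mul, ← integral_const_mul, ← integral_add]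
    · refine integral_mono (qkg_int b _ hC) ?_ ?_
      · exact ((qkg_int b _ ((hv.sm _).of_le (by simp))).const_mul 2).add
          ((qkg_int b _ ((hv.sm _).of_le (by simp))).const_mul 2)
      · intro h
        show ∑ y ∈ ba x m, (pz D y (fun h => v (x + st i) h - v x h) h) ^ 2 ≤
          2 * ∑ y ∈ B, (pz D y (v (x + st i)) h) ^ 2 + 2 * ∑ y ∈ B, (pz D y (v x) h) ^ 2
        rw [Finset.mul_sum, Finset.mul_sum, ← Finset.sum_add_distrib]
        refine (Finset.sum_le_sum_of_subset_of_nonneg hba' fun _ _ _ => sq_nonneg _).trans ?_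
        refine Finset.sum_le_sum fun y _ => ?_
        rw [qkg_sub ((hv.sm _).differentiable (by simp) h) ((hv.sm _).differentiable (by simp) h)]
        nlinarith [sq_nonneg (pz D y (v (x + st i)) h + pz D y (v x) h)]
    · exact (qkg_int b _ ((hv.sm _).of_le (by simp))).const_mul 2
    · exact (qkg_int b _ ((hv.sm _).of_le (by simp))).const_mul 2
  have hs : Real.sqrt I ≤
      2 * (Real.sqrt (ax D b B v x) + Real.sqrt (ax D b B v (x + st i))) :=
    (Real.sqrt_le_sqrt hI2).trans (qkg_sq (qkg_ax _) (qkg_ax _))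
  have hR : 0 ≤ Real.sqrt (ax D b B v x) + Real.sqrt (ax D b B v (x + st i)) := by positivity
  have hp : (0 : ℝ) ≤ (9 / 10) ^ m₀ := by positivity
  constructor
  · refine (h4 D b hb x i m m₀ hm hba _ hC htie).trans ?_
    rw [← hI]
    calc C4 * (9 / 10) ^ m₀ * Real.sqrt I ≤ C4 * (9 / 10) ^ m₀ *
          (2 * (Real.sqrt (ax D b B v x) + Real.sqrt (ax D b B v (x + st i)))) :=
          mul_le_mul_of_nonneg_left hs (by positivity)
      _ ≤ _ := by
          have : 0 ≤ C1 * ((9 / 10) ^ m₀ *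
            (Real.sqrt (ax D b B v x) + Real.sqrt (ax D b B v (x + st i)))) := by positivity
          nlinarith
  · refine (h1 D b hb x i m hba _ hC htie).trans ?_
    rw [← hI]
    calc C1 * Real.sqrt I ≤ C1 *
          (2 * (Real.sqrt (ax D b B v x) + Real.sqrt (ax D b B v (x + st i)))) :=
          mul_le_mul_of_nonneg_left hs hC1
      _ ≤ _ := by
          have : 0 ≤ C4 *
            (Real.sqrt (ax D b B v x) + Real.sqrt (ax D b B v (x + st i))) := by positivity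
          nlinarith

private theorem qkg_en {D : Finset (ℤ × ℤ)} {b : ℤ × ℤ → ℝ} {B : Finset (ℤ × ℤ)}
    {v : ℤ × ℤ → (D → ℝ) → ℝ} (hv : LNice D B v) :
    ∫ h, en D B v h ∂(Mu D b) = ∑ x ∈ B, ax D b B v x := by
  unfold en ax
  exact integral_finsetSum _ fun x _ => qkg_int b _ ((hv.sm _).of_le (by simp))

private theorem qkg_cs {D : Finset (ℤ × ℤ)} {b : ℤ × ℤ → ℝ} {B : Finset (ℤ × ℤ)}
    {v : ℤ × ℤ → (D → ℝ) → ℝ} (hv : LNice D B v) {m : ℕ} {A : Finset (ℤ × ℤ)}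
    (hA : A ⊆ inn B (m + 1)) {t : ℤ × ℤ → ℝ} (ht : ∀ x, 0 ≤ t x) {κ : ℝ} (hκ : 0 ≤ κ)
    {I : ℤ × ℤ → Fin 6 → ℝ} (hI : ∀ x ∈ A, ∀ i, I x i ≤
      κ * (Real.sqrt (ax D b B v x) + Real.sqrt (ax D b B v (x + st i)))) :
    ∑ x ∈ A, ∑ i, t x * I x i ≤
      12 * κ * Real.sqrt (∑ x ∈ A, t x ^ 2) * Real.sqrt (∫ h, en D B v h ∂(Mu D b)) := by
  classical
  set E := ∫ h, en D B v h ∂(Mu D b) with hE
  have h0 : ∀ f : ℤ × ℤ → ℤ × ℤ, Function.Injective f → (∀ x ∈ A, f x ∈ B) →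
      ∑ x ∈ A, t x * Real.sqrt (ax D b B v (f x)) ≤
        Real.sqrt (∑ x ∈ A, t x ^ 2) * Real.sqrt E := by
    intro f hf hfB
    refine (Real.sum_mul_le_sqrt_mul_sqrt A t _).trans ?_
    refine mul_le_mul_of_nonneg_left (Real.sqrt_le_sqrt ?_) (Real.sqrt_nonneg _)
    have h1 : ∑ x ∈ A, Real.sqrt (ax D b B v (f x)) ^ 2 = ∑ z ∈ A.image f, ax D b B v z := by
      rw [Finset.sum_image (fun a _ b _ h => hf h)]
      exact Finset.sum_congr rfl fun x _ => Real.sq_sqrt (qkg_ax _)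
    rw [h1, hE, qkg_en hv]
    refine Finset.sum_le_sum_of_subset_of_nonneg ?_ fun _ _ _ => qkg_ax _
    intro z hz
    obtain ⟨x, hx, rfl⟩ := Finset.mem_image.1 hz
    exact hfB x hx
  have h1 : ∑ x ∈ A, t x * Real.sqrt (ax D b B v x) ≤
      Real.sqrt (∑ x ∈ A, t x ^ 2) * Real.sqrt E :=
    h0 (fun x => x) (fun _ _ h => h) fun x hx => (qkg_inn (hA hx)).1
  have h2 : ∀ i : Fin 6, ∑ x ∈ A, t x * Real.sqrt (ax D b B v (x + st i)) ≤
      Real.sqrt (∑ x ∈ A, t x ^ 2) * Real.sqrt E := fun i =>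
    h0 (fun x => x + st i) (fun _ _ h => add_right_cancel h) fun x hx => (qkg_inn (hA hx)).2 i
  calc ∑ x ∈ A, ∑ i, t x * I x i
      ≤ ∑ x ∈ A, ∑ i : Fin 6, t x * (κ * (Real.sqrt (ax D b B v x) +
          Real.sqrt (ax D b B v (x + st i)))) :=
        Finset.sum_le_sum fun x hx => Finset.sum_le_sum fun i _ =>
          mul_le_mul_of_nonneg_left (hI x hx i) (ht x)
    _ = κ * ∑ i : Fin 6, (∑ x ∈ A, t x * Real.sqrt (ax D b B v x) +
          ∑ x ∈ A, t x * Real.sqrt (ax D b B v (x + st i))) := by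
        rw [Finset.sum_comm, Finset.mul_sum]
        refine Finset.sum_congr rfl fun i _ => ?_
        rw [← Finset.sum_add_distrib, Finset.mul_sum]
        refine Finset.sum_congr rfl fun x _ => ?_
        ring
    _ ≤ κ * ∑ _i : Fin 6, (Real.sqrt (∑ x ∈ A, t x ^ 2) * Real.sqrt E +
          Real.sqrt (∑ x ∈ A, t x ^ 2) * Real.sqrt E) :=
        mul_le_mul_of_nonneg_left (Finset.sum_le_sum fun i _ => add_le_add h1 (h2 i)) hκ
    _ = _ := by
        rw [Finset.sum_const, Finset.card_univ, Fintype.card_fin]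
        simp only [nsmul_eq_mul]
        push_cast
        ring

theorem gate_sum : ∃ C : ℝ, 0 ≤ C ∧ ∀ (D : Finset (ℤ × ℤ)) (b : ℤ × ℤ → ℝ),
    (∀ z, |b z| ≤ 1 / 2) → ∀ (B : Finset (ℤ × ℤ)), B ⊆ D → ∀ v : ℤ × ℤ → (D → ℝ) → ℝ,
    LNice D B v → ∀ (m m₀ : ℕ), m₀ ≤ m → ∀ A : Finset (ℤ × ℤ), A ⊆ inn B (m + 1) →
    ∀ t : ℤ × ℤ → ℝ, (∀ x, 0 ≤ t x) →
    ∑ x ∈ A, ∑ i, t x * (∫ h, gt m x i (gl D b h) * (1 - gt m₀ x i (gl D b h)) *
        |v (x + st i) h - v x h| ∂(Mu D b)) ≤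
      C * (9 / 10) ^ m₀ * Real.sqrt (∑ x ∈ A, t x ^ 2) *
        Real.sqrt (∫ h, en D B v h ∂(Mu D b)) ∧
    ∑ x ∈ A, ∑ i, t x * (∫ h, gt m x i (gl D b h) * |v (x + st i) h - v x h| ∂(Mu D b)) ≤
      C * Real.sqrt (∑ x ∈ A, t x ^ 2) * Real.sqrt (∫ h, en D B v h ∂(Mu D b)) := by
  obtain ⟨C, hC, h1⟩ := gate_one
  refine ⟨12 * C, by positivity, ?_⟩
  intro D b hb B hBD v hv m m₀ hm A hA t ht
  constructor
  · have h2 := qkg_cs (b := b) hv hA ht (κ := C * (9 / 10) ^ m₀) (by positivity)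
      (I := fun x i => ∫ h, gt m x i (gl D b h) * (1 - gt m₀ x i (gl D b h)) *
        |v (x + st i) h - v x h| ∂(Mu D b))
      (fun x hx i => (h1 D b hb B hBD v hv m m₀ hm x (hA hx) i).1)
    rw [← mul_assoc 12 C] at h2
    exact h2
  · exact qkg_cs (b := b) hv hA ht (κ := C) hC
      (I := fun x i => ∫ h, gt m x i (gl D b h) * |v (x + st i) h - v x h| ∂(Mu D b))
      (fun x hx i => (h1 D b hb B hBD v hv m m₀ hm x (hA hx) i).2)
/- END qkg -/

/- MODULE qkh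
`Th` is bounded in mean by an absolute constant times `qd d * card B`: for every box field
`∫ Jf ≤ C √(qd) √(card) √e - e ≤ C² qd card / 4` (`gate_sum` with `t = 1`, `|dc d i| ≤ √(2 qd d)`),
and `near_mx`. -/
private theorem qkh_dc (d : ℝ × ℝ) (i : Fin 6) : |dc d i| ≤ Real.sqrt (2 * qd d) := by
  refine Real.abs_le_sqrt ?_
  unfold qd
  have h1 : dc d i ^ 2 ≤ ∑ j, dc d j ^ 2 :=
    Finset.single_le_sum (f := fun j => dc d j ^ 2) (fun j _ => sq_nonneg _) (Finset.mem_univ i)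
  linarith

private theorem qkh_qd (d : ℝ × ℝ) : 0 ≤ qd d := by
  unfold qd
  have : 0 ≤ ∑ j, dc d j ^ 2 := Finset.sum_nonneg fun j _ => sq_nonneg _
  linarith

private theorem qkh_gi {D : Finset (ℤ × ℤ)} (b : ℤ × ℤ → ℝ) {B : Finset (ℤ × ℤ)}
    {v : ℤ × ℤ → (D → ℝ) → ℝ} (hv : LNice D B v) (m : ℕ) (x : ℤ × ℤ) (i : Fin 6) :
    Integrable (fun h => gt m x i (gl D b h) * (v (x + st i) h - v x h)) (Mu D b) := by
  refine Mu_int (((hv.sm _).continuous).sub (hv.sm _).continuous) (gt_meas D b m x i) (M := 1) ?_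
  intro k
  rcases gt_mem m x i (gl D b k) with h | h <;> rw [h] <;> norm_num

private theorem qkh_J {D : Finset (ℤ × ℤ)} (b : ℤ × ℤ → ℝ) {B : Finset (ℤ × ℤ)}
    {v : ℤ × ℤ → (D → ℝ) → ℝ} (hv : LNice D B v) (B' : Finset (ℤ × ℤ)) (m : ℕ) (d : ℝ × ℝ) :
    ∫ h, Jf D b B' m d v h ∂(Mu D b) =
      (∑ x ∈ inn B' (m + 2), ∑ i, dc d i *
        ∫ h, gt m x i (gl D b h) * (v (x + st i) h - v x h) ∂(Mu D b)) -
      ∫ h, en D B' v h ∂(Mu D b) := by
  unfold Jf
  rw [integral_sub]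
  · congr 1
    rw [integral_finsetSum]
    · rw [Finset.sum_comm]
      refine Finset.sum_congr rfl fun i _ => ?_
      rw [integral_const_mul, ← Finset.mul_sum]
      congr 1
      unfold sx
      exact integral_finsetSum _ fun x _ => qkh_gi b hv m x i
    · intro i _
      refine Integrable.const_mul ?_ _
      unfold sx
      exact integrable_finsetSum _ fun x _ => qkh_gi b hv m x i
  · refine integrable_finsetSum _ fun i _ => Integrable.const_mul ?_ _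
    unfold sx
    exact integrable_finsetSum _ fun x _ => qkh_gi b hv m x i
  · unfold en
    exact integrable_finsetSum _ fun x _ => qkg_int b _ ((hv.sm _).of_le (by simp))

private theorem qkh_one {D : Finset (ℤ × ℤ)} {b : ℤ × ℤ → ℝ} (m : ℕ) (x : ℤ × ℤ) (i : Fin 6)
    (v : ℤ × ℤ → (D → ℝ) → ℝ) (d : ℝ × ℝ) :
    dc d i * ∫ h, gt m x i (gl D b h) * (v (x + st i) h - v x h) ∂(Mu D b) ≤
      Real.sqrt (2 * qd d) * ∫ h, gt m x i (gl D b h) * |v (x + st i) h - v x h| ∂(Mu D b) := by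
  have h1 : |∫ h, gt m x i (gl D b h) * (v (x + st i) h - v x h) ∂(Mu D b)| ≤
      ∫ h, gt m x i (gl D b h) * |v (x + st i) h - v x h| ∂(Mu D b) := by
    refine (abs_integral_le_integral_abs).trans (le_of_eq ?_)
    refine integral_congr_ae (Filter.Eventually.of_forall fun h => ?_)
    show |_ * _| = _ * |_|
    rw [abs_mul]
    congr 1
    rcases gt_mem m x i (gl D b h) with h | h <;> rw [h] <;> norm_num
  refine (le_abs_self _).trans ?_
  rw [abs_mul]
  exact mul_le_mul (qkh_dc d i) h1 (abs_nonneg _) (Real.sqrt_nonneg _)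

theorem Th_mean : ∃ C : ℝ, 0 ≤ C ∧ ∀ (B : Finset (ℤ × ℤ)), B.Nonempty → ∀ (m : ℕ) (d : ℝ × ℝ)
    (D : Finset (ℤ × ℤ)) (b : ℤ × ℤ → ℝ), (∀ z, |b z| ≤ 1 / 2) → ∀ y : ℤ × ℤ,
    nb (tr y (nb B)) ⊆ D →
    ∫ h, Th B m d (sf y (gl D b h)) ∂(Mu D b) ≤ C * qd d * B.card := by
  classical
  obtain ⟨C, hC, hg⟩ := gate_sum
  refine ⟨C ^ 2 / 2 + 1, by positivity, ?_⟩
  intro B hB m d D b hb y hD
  obtain ⟨V0, V1, hV0, hV1, hn⟩ := near_mx hB m (ε := 1) one_pos
  have h1 := hn D b hb y hD d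
  have hBn : B ⊆ nb B := fun x hx => mem_nb.2 (Or.inl hx)
  have hDn : tr y (nb B) ⊆ D := fun x hx => hD (mem_nb.2 (Or.inl hx))
  have hBD : tr y B ⊆ D := by
    intro x hx
    refine hDn (mem_tr.2 (hBn ?_))
    exact mem_tr.1 hx
  set v := pl D b (nb B) y (d.1 • V0 + d.2 • V1) with hv
  have hvn : LNice D (tr y B) v :=
    pl_lnice hBn hDn ((hV0.nice.smul d.1).add (hV1.nice.smul d.2))
  have hJ := qkh_J b hvn (tr y B) m d
  set e := ∫ h, en D (tr y B) v h ∂(Mu D b) with he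
  have he0 : 0 ≤ e := integral_nonneg fun h => by
    unfold en
    exact Finset.sum_nonneg fun x _ => Finset.sum_nonneg fun z _ => sq_nonneg _
  have hA : inn (tr y B) (m + 2) ⊆ inn (tr y B) (m + 1) := by
    intro x hx
    refine mem_inn.2 fun z hz => mem_inn.1 hx z ?_
    push_cast at hz ⊢
    linarith
  have h2 := (hg D b hb (tr y B) hBD v hvn m 0 (Nat.zero_le _) _ hA (fun _ => 1)
    (fun _ => zero_le_one)).2
  have hcard : ((inn (tr y B) (m + 2)).card : ℝ) ≤ B.card := by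
    have h3 : (inn (tr y B) (m + 2)).card ≤ (tr y B).card := by
      refine Finset.card_le_card fun x hx => mem_inn.1 hx x ?_
      rw [sub_self, (dn_zero_iff 0).2 rfl]
      positivity
    have h4 : (tr y B).card ≤ B.card := by
      unfold tr
      exact Finset.card_image_le
    exact_mod_cast h3.trans h4
  have hS : (∑ x ∈ inn (tr y B) (m + 2), ∑ i, dc d i *
        ∫ h, gt m x i (gl D b h) * (v (x + st i) h - v x h) ∂(Mu D b)) ≤
      Real.sqrt (2 * qd d) * (C * Real.sqrt B.card * Real.sqrt e) := by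
    calc (∑ x ∈ inn (tr y B) (m + 2), ∑ i, dc d i *
          ∫ h, gt m x i (gl D b h) * (v (x + st i) h - v x h) ∂(Mu D b))
        ≤ ∑ x ∈ inn (tr y B) (m + 2), ∑ i : Fin 6, Real.sqrt (2 * qd d) *
          (1 * ∫ h, gt m x i (gl D b h) * |v (x + st i) h - v x h| ∂(Mu D b)) := by
          refine Finset.sum_le_sum fun x _ => Finset.sum_le_sum fun i _ => ?_
          rw [one_mul]
          exact qkh_one m x i v d
      _ = Real.sqrt (2 * qd d) * ∑ x ∈ inn (tr y B) (m + 2), ∑ i : Fin 6,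
          (1 * ∫ h, gt m x i (gl D b h) * |v (x + st i) h - v x h| ∂(Mu D b)) := by
          rw [Finset.mul_sum]
          refine Finset.sum_congr rfl fun x _ => ?_
          rw [Finset.mul_sum]
      _ ≤ _ := by
          refine mul_le_mul_of_nonneg_left (h2.trans ?_) (Real.sqrt_nonneg _)
          rw [← he]
          refine mul_le_mul_of_nonneg_right ?_ (Real.sqrt_nonneg _)
          refine mul_le_mul_of_nonneg_left (Real.sqrt_le_sqrt ?_) hC
          simpa using hcard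
  have hcard1 : (1 : ℝ) ≤ B.card := by exact_mod_cast hB.card_pos
  have hq := qkh_qd d
  have h5 : Real.sqrt (2 * qd d) * (C * Real.sqrt B.card * Real.sqrt e) - e ≤
      C ^ 2 / 2 * qd d * B.card := by
    set p := Real.sqrt (2 * qd d) * (C * Real.sqrt B.card) with hp
    have e1 : p ^ 2 = 2 * qd d * (C ^ 2 * B.card) := by
      rw [hp, mul_pow, mul_pow, Real.sq_sqrt (by positivity), Real.sq_sqrt (by positivity)]
    have e2 : Real.sqrt (2 * qd d) * (C * Real.sqrt B.card * Real.sqrt e) =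
        p * Real.sqrt e := by rw [hp]; ring
    have e3 := Real.sq_sqrt he0
    rw [e2]
    nlinarith [sq_nonneg (p / 2 - Real.sqrt e)]
  have h6 : qd d ≤ qd d * B.card := by nlinarith
  have h7 : ∫ h, Jf D b (tr y B) m d v h ∂(Mu D b) ≤ C ^ 2 / 2 * qd d * B.card := by
    rw [hJ]
    linarith
  calc ∫ h, Th B m d (sf y (gl D b h)) ∂(Mu D b)
      ≤ ∫ h, Jf D b (tr y B) m d v h ∂(Mu D b) + 1 * qd d := by linarith
    _ ≤ C ^ 2 / 2 * qd d * B.card + qd d * B.card := by linarith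
    _ = _ := by ring
/- END qkh -/

/-- the positions `z` of translates of `b` inside of `B` (used with `0 ∈ b`) -/
def sp (b B : Finset (ℤ × ℤ)) : Finset (ℤ × ℤ) := by
  classical exact B.filter (fun z => tr z b ⊆ B)

/-- covering weight of the site `x` -/
def omw (b B : Finset (ℤ × ℤ)) (m : ℕ) (x : ℤ × ℤ) : ℝ := by
  classical exact (((sp b B).filter (fun z => x ∈ tr z (inn b (m + 2)))).card : ℝ) / b.card

/-- defect of the covering weight -/
def te (b B : Finset (ℤ × ℤ)) (m M : ℕ) (x : ℤ × ℤ) : ℝ := by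
  classical exact if x ∈ inn B (M + 2) then 1 - omw b B m x else 1

/- MODULE qki
MOVING AVERAGE LEMMA (GC).  Pointwise on `K`:
`(card b)⁻¹ ∑_z Jf (tr z b) = ∑_x omw x ∑_i dc i γ^m ∇_i v - (card b)⁻¹ ∑_z en (tr z b)`, and
`(card b)⁻¹ ∑_z en (tr z b) ≤ en B` (a pair of sites lies in at most `card b` of the translates).
`γ^m ≤ γ^M`.  The difference of the slope terms is at most
`∑_{x ∈ inn B (M+2)} ∑_i |dc i| (γ^M (1 - γ^m) + te x γ^m) |∇_i v|`
`+ ∑_{x ∉ inn B (M+2), omw x ≠ 0} ∑_i |dc i| γ^m |∇_i v|`; `omw x ≠ 0` implies `x ∈ inn B (m + 2)`.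
Use `gate_sum` (`t = 1`, resp. `t = te`). -/
private theorem qki_gt {D : Finset (ℤ × ℤ)} {c : ℤ × ℤ → ℝ} (hc : ∀ z, |c z| ≤ 1 / 2)
    {m M : ℕ} (hm : m ≤ M) (x : ℤ × ℤ) (i : Fin 6) {h : D → ℝ} (hh : h ∈ K D c) :
    gt M x i (gl D c h) * (1 - gt m x i (gl D c h)) = gt M x i (gl D c h) - gt m x i (gl D c h) := by
  rcases gt_mem m x i (gl D c h) with h0 | h1
  · rw [h0]
    ring
  · have h2 : up m x (x + st i) (gl D c h) ∨ up m x (x + st i) (fun z => - gl D c h z) := by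
      by_contra hcon
      have h3 : gt m x i (gl D c h) = 0 := by
        unfold gt
        rw [if_neg hcon]
      rw [h3] at h1
      exact zero_ne_one h1
    have h3 : up M x (x + st i) (gl D c h) ∨ up M x (x + st i) (fun z => - gl D c h z) := by
      rcases h2 with h2 | h2
      · exact Or.inl (up_mono hc hm hh h2)
      · right
        have hg : ∀ z, gl D (fun z => - c z) (fun x => - h x) z = - gl D c h z := by
          intro z
          by_cases hz : z ∈ D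
          · rw [gl_mem hz, gl_mem hz]
          · rw [gl_not_mem hz, gl_not_mem hz]
        have e1 : (fun z => - gl D c h z) = gl D (fun z => - c z) (fun x => - h x) :=
          funext fun z => (hg z).symm
        rw [e1] at h2 ⊢
        refine up_mono (fun z => by rw [abs_neg]; exact hc z) hm ?_ h2
        intro z hz j
        rw [hg, hg, ← abs_neg]
        have h4 := hh z hz j
        have e2 : -(- gl D c h z - - gl D c h (z + st j)) = gl D c h z - gl D c h (z + st j) := by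
          ring
        rw [e2]
        exact h4
    have h4 : gt M x i (gl D c h) = 1 := by
      unfold gt
      rw [if_pos h3]
    rw [h1, h4]
    ring

private theorem qki_abs {D : Finset (ℤ × ℤ)} {c : ℤ × ℤ → ℝ} {f g : (D → ℝ) → ℝ}
    (hg : ∀ h, 0 ≤ g h) : |∫ h, g h * f h ∂(Mu D c)| ≤ ∫ h, g h * |f h| ∂(Mu D c) := by
  refine (abs_integral_le_integral_abs).trans (le_of_eq ?_)
  refine integral_congr_ae (Filter.Eventually.of_forall fun h => ?_)
  show |_ * _| = _ * |_|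
  rw [abs_mul, abs_of_nonneg (hg h)]

private theorem qki_pos (m : ℕ) (x : ℤ × ℤ) (i : Fin 6) (H : ℤ × ℤ → ℝ) :
    0 ≤ gt m x i H ∧ 0 ≤ 1 - gt m x i H := by
  rcases gt_mem m x i H with h | h <;> rw [h] <;> norm_num

private theorem qki_one {D : Finset (ℤ × ℤ)} {c : ℤ × ℤ → ℝ} (hc : ∀ z, |c z| ≤ 1 / 2)
    {B : Finset (ℤ × ℤ)} {v : ℤ × ℤ → (D → ℝ) → ℝ} (hv : LNice D B v) {m M : ℕ} (hm : m ≤ M)
    (x : ℤ × ℤ) (i : Fin 6) {w : ℝ} (hw : w ≤ 1) (d : ℝ × ℝ) :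
    dc d i * (∫ h, gt M x i (gl D c h) * (v (x + st i) h - v x h) ∂(Mu D c)) -
      w * (dc d i * ∫ h, gt m x i (gl D c h) * (v (x + st i) h - v x h) ∂(Mu D c)) ≤
    Real.sqrt (2 * qd d) * (∫ h, gt M x i (gl D c h) * (1 - gt m x i (gl D c h)) *
        |v (x + st i) h - v x h| ∂(Mu D c)) +
      Real.sqrt (2 * qd d) * ((1 - w) *
        ∫ h, gt m x i (gl D c h) * |v (x + st i) h - v x h| ∂(Mu D c)) := by
  set IM := ∫ h, gt M x i (gl D c h) * (v (x + st i) h - v x h) ∂(Mu D c) with hIM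
  set Im := ∫ h, gt m x i (gl D c h) * (v (x + st i) h - v x h) ∂(Mu D c) with hIm
  have h1 : |IM - Im| ≤ ∫ h, gt M x i (gl D c h) * (1 - gt m x i (gl D c h)) *
        |v (x + st i) h - v x h| ∂(Mu D c) := by
    have e1 : IM - Im = ∫ h, (gt M x i (gl D c h) * (1 - gt m x i (gl D c h))) *
        (v (x + st i) h - v x h) ∂(Mu D c) := by
      rw [hIM, hIm, ← integral_sub (qkh_gi c hv M x i) (qkh_gi c hv m x i)]
      refine integral_congr_ae ?_
      filter_upwards [Mu_aeK D c] with h hh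
      rw [qki_gt hc hm x i hh]
      ring
    rw [e1]
    exact qki_abs fun h => mul_nonneg (qki_pos _ _ _ _).1 (qki_pos _ _ _ _).2
  have h2 : |Im| ≤ ∫ h, gt m x i (gl D c h) * |v (x + st i) h - v x h| ∂(Mu D c) :=
    qki_abs fun h => (qki_pos _ _ _ _).1
  have hd := qkh_dc d i
  have e2 : dc d i * IM - w * (dc d i * Im) = dc d i * (IM - Im) + (1 - w) * (dc d i * Im) := by
    ring
  rw [e2]
  refine add_le_add ?_ ?_
  · refine (le_abs_self _).trans ?_
    rw [abs_mul]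
    exact mul_le_mul hd h1 (abs_nonneg _) (Real.sqrt_nonneg _)
  · have h3 : dc d i * Im ≤ Real.sqrt (2 * qd d) *
        ∫ h, gt m x i (gl D c h) * |v (x + st i) h - v x h| ∂(Mu D c) := by
      refine (le_abs_self _).trans ?_
      rw [abs_mul]
      exact mul_le_mul hd h2 (abs_nonneg _) (Real.sqrt_nonneg _)
    have h4 := mul_le_mul_of_nonneg_left h3 (sub_nonneg.2 hw)
    refine h4.trans (le_of_eq ?_)
    ring

private theorem qki_two {D : Finset (ℤ × ℤ)} {c : ℤ × ℤ → ℝ}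
    {v : ℤ × ℤ → (D → ℝ) → ℝ} {m : ℕ}
    (x : ℤ × ℤ) (i : Fin 6) {w : ℝ} (hw0 : 0 ≤ w) (hw : w ≤ 1) (d : ℝ × ℝ) :
    - (w * (dc d i * ∫ h, gt m x i (gl D c h) * (v (x + st i) h - v x h) ∂(Mu D c))) ≤
    Real.sqrt (2 * qd d) * (1 *
        ∫ h, gt m x i (gl D c h) * |v (x + st i) h - v x h| ∂(Mu D c)) := by
  have h2 : |∫ h, gt m x i (gl D c h) * (v (x + st i) h - v x h) ∂(Mu D c)| ≤
      ∫ h, gt m x i (gl D c h) * |v (x + st i) h - v x h| ∂(Mu D c) :=
    qki_abs fun h => (qki_pos _ _ _ _).1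
  refine (neg_le_abs _).trans ?_
  rw [abs_mul, abs_mul, one_mul, abs_of_nonneg hw0]
  calc w * (|dc d i| * |∫ h, gt m x i (gl D c h) * (v (x + st i) h - v x h) ∂(Mu D c)|)
      ≤ 1 * (|dc d i| * |∫ h, gt m x i (gl D c h) * (v (x + st i) h - v x h) ∂(Mu D c)|) :=
        mul_le_mul_of_nonneg_right hw (by positivity)
    _ ≤ _ := by
        rw [one_mul]
        exact mul_le_mul (qkh_dc d i) h2 (abs_nonneg _) (Real.sqrt_nonneg _)

private theorem qki_sp {b B : Finset (ℤ × ℤ)} {z : ℤ × ℤ} (hz : z ∈ sp b B) : tr z b ⊆ B := by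
  classical
  unfold sp at hz
  exact (Finset.mem_filter.1 hz).2

private theorem qki_en {D : Finset (ℤ × ℤ)} {c : ℤ × ℤ → ℝ} {b B : Finset (ℤ × ℤ)}
    {v : ℤ × ℤ → (D → ℝ) → ℝ} (hv : LNice D B v) :
    ∑ z ∈ sp b B, ∫ h, en D (tr z b) v h ∂(Mu D c) ≤ b.card * ∫ h, en D B v h ∂(Mu D c) := by
  classical
  set p : ℤ × ℤ → ℤ × ℤ → ℝ := fun x y => ∫ h, (pz D y (v x) h) ^ 2 ∂(Mu D c) with hp
  have hp0 : ∀ x y, 0 ≤ p x y := fun x y => integral_nonneg fun h => sq_nonneg _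
  have hi : ∀ x y, Integrable (fun h => (pz D y (v x) h) ^ 2) (Mu D c) := by
    intro x y
    have h1 := qkg_int c {y} (f := v x) ((hv.sm x).of_le (by simp))
    simpa using h1
  have he : ∀ A : Finset (ℤ × ℤ), ∫ h, en D A v h ∂(Mu D c) = ∑ x ∈ A, ∑ y ∈ A, p x y := by
    intro A
    unfold en
    rw [integral_finsetSum _ fun x _ => integrable_finsetSum _ fun y _ => hi x y]
    exact Finset.sum_congr rfl fun x _ => integral_finsetSum _ fun y _ => hi x y
  rw [he B]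
  have h1 : ∀ z ∈ sp b B, ∫ h, en D (tr z b) v h ∂(Mu D c) ≤
      ∑ β ∈ b, ∑ y ∈ B, p (z + β) y := by
    intro z hz
    have e1 : ∑ β ∈ b, ∑ y ∈ B, p (z + β) y = ∑ x ∈ tr z b, ∑ y ∈ B, p x y := by
      unfold tr
      rw [Finset.sum_image (fun a _ b _ h => add_left_cancel h)]
    rw [he, e1]
    exact Finset.sum_le_sum fun x _ =>
      Finset.sum_le_sum_of_subset_of_nonneg (qki_sp hz) fun _ _ _ => hp0 _ _
  refine (Finset.sum_le_sum h1).trans ?_
  rw [Finset.sum_comm, ← nsmul_eq_mul, ← Finset.sum_const]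
  refine Finset.sum_le_sum fun β hβ => ?_
  have e2 : ∑ z ∈ sp b B, ∑ y ∈ B, p (z + β) y =
      ∑ x ∈ (sp b B).image (fun z => z + β), ∑ y ∈ B, p x y := by
    rw [Finset.sum_image (fun a _ b _ h => add_right_cancel h)]
  rw [e2]
  refine Finset.sum_le_sum_of_subset_of_nonneg ?_
    fun _ _ _ => Finset.sum_nonneg fun _ _ => hp0 _ _
  intro x hx
  obtain ⟨z, hz, rfl⟩ := Finset.mem_image.1 hx
  exact qki_sp hz (mem_tr.2 (by rwa [add_sub_cancel_left]))

private theorem qki_om {b B : Finset (ℤ × ℤ)} (hb : b.Nonempty) (m : ℕ) (f : ℤ × ℤ → ℝ) :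
    (b.card : ℝ)⁻¹ * ∑ z ∈ sp b B, ∑ x ∈ inn (tr z b) (m + 2), f x =
      ∑ x ∈ B, omw b B m x * f x := by
  classical
  have h1 : ∀ z ∈ sp b B, ∑ x ∈ inn (tr z b) (m + 2), f x =
      ∑ x ∈ B, if x ∈ tr z (inn b (m + 2)) then f x else 0 := by
    intro z hz
    rw [Finset.sum_ite_mem, inn_tr]
    refine Finset.sum_congr ?_ fun _ _ => rfl
    refine (Finset.inter_eq_right.2 ?_).symm
    intro x hx
    refine qki_sp hz (mem_tr.2 ?_)
    refine mem_inn.1 (mem_tr.1 hx) _ ?_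
    rw [sub_self, (dn_zero_iff 0).2 rfl]
    positivity
  rw [Finset.sum_congr rfl h1, Finset.sum_comm, Finset.mul_sum]
  refine Finset.sum_congr rfl fun x _ => ?_
  rw [← Finset.sum_filter, Finset.sum_const, nsmul_eq_mul]
  unfold omw
  rw [div_eq_inv_mul, mul_assoc]

private theorem qki_om0 {b B : Finset (ℤ × ℤ)} (m : ℕ) (x : ℤ × ℤ) : 0 ≤ omw b B m x := by
  unfold omw
  positivity

private theorem qki_om1 {b B : Finset (ℤ × ℤ)} (m : ℕ) (x : ℤ × ℤ) : omw b B m x ≤ 1 := by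
  classical
  unfold omw
  refine div_le_one_of_le₀ ?_ (by positivity)
  norm_cast
  have h1 : ∀ z ∈ (sp b B).filter (fun z => x ∈ tr z (inn b (m + 2))), x - z ∈ b := by
    intro z hz
    have h2 := mem_tr.1 (Finset.mem_filter.1 hz).2
    refine mem_inn.1 h2 _ ?_
    rw [sub_self, (dn_zero_iff 0).2 rfl]
    positivity
  exact Finset.card_le_card_of_injOn (fun z => x - z) h1
    (fun a _ b _ h => sub_right_injective h)

private theorem qki_om2 {b B : Finset (ℤ × ℤ)} {m : ℕ} {x : ℤ × ℤ} (h : omw b B m x ≠ 0) :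
    x ∈ inn B (m + 2) := by
  classical
  by_contra hcon
  apply h
  unfold omw
  have h1 : (sp b B).filter (fun z => x ∈ tr z (inn b (m + 2))) = ∅ := by
    refine Finset.filter_eq_empty_iff.2 fun z hz hx => hcon ?_
    rw [← inn_tr] at hx
    exact mem_inn.2 fun y hy => qki_sp hz (mem_inn.1 hx y hy)
  rw [h1]
  simp

theorem gc_lemma : ∃ C : ℝ, 0 ≤ C ∧ ∀ (b B : Finset (ℤ × ℤ)) (m M : ℕ), m ≤ M →
    (0, 0) ∈ b → ∀ (d : ℝ × ℝ) (D : Finset (ℤ × ℤ)) (c : ℤ × ℤ → ℝ), (∀ z, |c z| ≤ 1 / 2) →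
    B ⊆ D → ∀ v : ℤ × ℤ → (D → ℝ) → ℝ, LNice D B v →
    ∫ h, Jf D c B M d v h ∂(Mu D c) ≤
      (b.card : ℝ)⁻¹ * ∑ z ∈ sp b B, ∫ h, Jf D c (tr z b) m d v h ∂(Mu D c) +
      C * Real.sqrt (qd d) * ((9 / 10) ^ m * Real.sqrt B.card +
        Real.sqrt (∑ x ∈ B, te b B m M x ^ 2)) * Real.sqrt (∫ h, en D B v h ∂(Mu D c)) := by
  classical
  obtain ⟨C, hC, hg⟩ := gate_sum
  refine ⟨Real.sqrt 2 * C, by positivity, ?_⟩
  intro b B m M hmM h0 d D c hc hBD v hv
  have hbn : b.Nonempty := ⟨_, h0⟩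
  have hbc : (0 : ℝ) < b.card := by exact_mod_cast hbn.card_pos
  have hin : ∀ {r s : ℕ}, r ≤ s → inn B s ⊆ inn B r := by
    intro r s hrs x hx
    exact mem_inn.2 fun z hz => mem_inn.1 hx z (hz.trans (by exact_mod_cast hrs))
  have hinB : ∀ r : ℕ, inn B r ⊆ B := by
    intro r x hx
    refine mem_inn.1 hx x ?_
    rw [sub_self, (dn_zero_iff 0).2 rfl]
    positivity
  set E := ∫ h, en D B v h ∂(Mu D c) with hE
  set fM : ℤ × ℤ → ℝ := fun x => ∑ i, dc d i *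
    ∫ h, gt M x i (gl D c h) * (v (x + st i) h - v x h) ∂(Mu D c) with hfM
  set fm : ℤ × ℤ → ℝ := fun x => ∑ i, dc d i *
    ∫ h, gt m x i (gl D c h) * (v (x + st i) h - v x h) ∂(Mu D c) with hfm
  set q := Real.sqrt (2 * qd d) with hq
  have hq0 : 0 ≤ q := Real.sqrt_nonneg _
  -- the main term
  have h1 : (b.card : ℝ)⁻¹ * ∑ z ∈ sp b B, ∫ h, Jf D c (tr z b) m d v h ∂(Mu D c) =
      ∑ x ∈ B, omw b B m x * fm x -
        (b.card : ℝ)⁻¹ * ∑ z ∈ sp b B, ∫ h, en D (tr z b) v h ∂(Mu D c) := by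
    rw [← qki_om hbn m fm, ← mul_sub, ← Finset.sum_sub_distrib]
    congr 1
    exact Finset.sum_congr rfl fun z _ => qkh_J c hv (tr z b) m d
  have h2 : (b.card : ℝ)⁻¹ * ∑ z ∈ sp b B, ∫ h, en D (tr z b) v h ∂(Mu D c) ≤ E := by
    rw [inv_mul_le_iff₀ hbc]
    exact qki_en hv
  have h3 := qkh_J c hv B M d
  -- the comparison of the slopes
  have h4 : ∑ x ∈ B, omw b B m x * fm x = ∑ x ∈ inn B (m + 2), omw b B m x * fm x := by
    refine (Finset.sum_subset (hinB _) fun x _ hx => ?_).symm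
    have : omw b B m x = 0 := by
      by_contra hne
      exact hx (qki_om2 hne)
    rw [this, zero_mul]
  have hsub : inn B (M + 2) ⊆ inn B (m + 2) := hin (by omega)
  have h5 : ∑ x ∈ inn B (M + 2), fM x =
      ∑ x ∈ inn B (m + 2), if x ∈ inn B (M + 2) then fM x else 0 := by
    rw [Finset.sum_ite_mem, Finset.inter_eq_right.2 hsub]
  set G : ℤ × ℤ → Fin 6 → ℝ := fun x i => ∫ h, gt M x i (gl D c h) * (1 - gt m x i (gl D c h)) *
        |v (x + st i) h - v x h| ∂(Mu D c) with hG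
  set A : ℤ × ℤ → Fin 6 → ℝ := fun x i => ∫ h, gt m x i (gl D c h) *
        |v (x + st i) h - v x h| ∂(Mu D c) with hA
  have h6 : ∑ x ∈ inn B (M + 2), fM x - ∑ x ∈ B, omw b B m x * fm x ≤
      q * (∑ x ∈ inn B (M + 2), ∑ i, 1 * G x i) +
      q * (∑ x ∈ inn B (m + 2), ∑ i, te b B m M x * A x i) := by
    have h7 : ∑ x ∈ inn B (M + 2), ∑ i, 1 * G x i =
        ∑ x ∈ inn B (m + 2), if x ∈ inn B (M + 2) then ∑ i, 1 * G x i else 0 := by
      rw [Finset.sum_ite_mem, Finset.inter_eq_right.2 hsub]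
    rw [h4, h5, h7, ← Finset.sum_sub_distrib, ← mul_add, ← Finset.sum_add_distrib, Finset.mul_sum]
    refine Finset.sum_le_sum fun x _ => ?_
    by_cases hx : x ∈ inn B (M + 2)
    · rw [if_pos hx, if_pos hx]
      have e1 : te b B m M x = 1 - omw b B m x := by
        unfold te
        rw [if_pos hx]
      rw [e1, hfM, hfm]
      show ∑ i, _ - omw b B m x * ∑ i, _ ≤ _
      rw [Finset.mul_sum, ← Finset.sum_sub_distrib, ← Finset.sum_add_distrib, Finset.mul_sum]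
      refine Finset.sum_le_sum fun i _ => ?_
      have h8 := qki_one hc hv hmM x i (qki_om1 (b := b) (B := B) m x) d
      rw [one_mul, mul_add]
      exact h8
    · rw [if_neg hx, if_neg hx, zero_sub, zero_add]
      have e1 : te b B m M x = 1 := by
        unfold te
        rw [if_neg hx]
      rw [e1, hfm]
      show -(omw b B m x * ∑ i, _) ≤ _
      rw [Finset.mul_sum, ← Finset.sum_neg_distrib, Finset.mul_sum]
      refine Finset.sum_le_sum fun i _ => ?_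
      exact qki_two x i (qki_om0 m x) (qki_om1 m x) d
  have h8 := (hg D c hc B hBD v hv M m hmM (inn B (M + 2)) (hin (by omega)) (fun _ => 1)
    (fun _ => zero_le_one)).1
  have hte0 : ∀ x, 0 ≤ te b B m M x := by
    intro x
    unfold te
    split_ifs
    · exact sub_nonneg.2 (qki_om1 m x)
    · exact zero_le_one
  have h9 := (hg D c hc B hBD v hv m 0 (Nat.zero_le _) (inn B (m + 2)) (hin (by omega))
    (te b B m M) hte0).2
  have h10 : ∑ x ∈ inn B (M + 2), ∑ i, 1 * G x i ≤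
      C * (9 / 10) ^ m * Real.sqrt B.card * Real.sqrt E := by
    refine h8.trans ?_
    refine mul_le_mul_of_nonneg_right ?_ (Real.sqrt_nonneg _)
    refine mul_le_mul_of_nonneg_left (Real.sqrt_le_sqrt ?_) (by positivity)
    have : ((inn B (M + 2)).card : ℝ) ≤ B.card := by
      exact_mod_cast Finset.card_le_card (hinB _)
    simpa using this
  have h11 : ∑ x ∈ inn B (m + 2), ∑ i, te b B m M x * A x i ≤
      C * Real.sqrt (∑ x ∈ B, te b B m M x ^ 2) * Real.sqrt E := by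
    refine h9.trans ?_
    refine mul_le_mul_of_nonneg_right ?_ (Real.sqrt_nonneg _)
    refine mul_le_mul_of_nonneg_left (Real.sqrt_le_sqrt ?_) hC
    exact Finset.sum_le_sum_of_subset_of_nonneg (hinB _) fun _ _ _ => sq_nonneg _
  have h12 : q * (∑ x ∈ inn B (M + 2), ∑ i, 1 * G x i) +
      q * (∑ x ∈ inn B (m + 2), ∑ i, te b B m M x * A x i) ≤
      Real.sqrt 2 * C * Real.sqrt (qd d) * ((9 / 10) ^ m * Real.sqrt B.card +
        Real.sqrt (∑ x ∈ B, te b B m M x ^ 2)) * Real.sqrt E := by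
    have e1 : q = Real.sqrt 2 * Real.sqrt (qd d) := by
      rw [hq, Real.sqrt_mul (by norm_num)]
    refine (add_le_add (mul_le_mul_of_nonneg_left h10 hq0)
      (mul_le_mul_of_nonneg_left h11 hq0)).trans (le_of_eq ?_)
    rw [e1]
    ring
  rw [h3, h1]
  have h13 : ∑ x ∈ inn B (M + 2), fM x = ∑ x ∈ inn B (M + 2), ∑ i, dc d i *
    ∫ h, gt M x i (gl D c h) * (v (x + st i) h - v x h) ∂(Mu D c) := rfl
  rw [← h13]
  linarith
/- END qki -/

end Pool.Agent.Hmk
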