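import Pool.Agent.Hmk.ThC
import Pool.Agent.Hgf.Uni

/-!
# Hmk, second part: the two facts on the universal state (from the files Hgf)
-/

set_option autoImplicit false

open MeasureTheory Set
open scoped ENNReal ContDiff

noncomputable section

namespace Pool.Agent.Hmk

/-- bounded measurable shift invariant functions of a window -/
structure Lg (W : Finset (ℤ × ℤ)) (g : (W → ℝ) → ℝ) : Prop where
  ms : Measurable g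
  bd : ∃ C : ℝ, ∀ k, |g k| ≤ C
  sh : Shf W g

/-- universality in L1 over positions -/
theorem uni_L1 {W : Finset (ℤ × ℤ)} {g : (W → ℝ) → ℝ} (hg : Lg W g) :
    ∃ m : ℝ, ∀ ε : ℝ, 0 < ε → ∃ N0 : ℕ, ∀ N : ℕ, N0 ≤ N → ∀ (D : Finset (ℤ × ℤ))
      (b : ℤ × ℤ → ℝ), (∀ z, |b z| ≤ 1 / 2) → D.card ≤ N ^ 20 → ∀ y : ℤ × ℤ,
      (∀ z, dn (z - y) ≤ 4 * (N : ℤ) → z ∈ D) →
      ((N : ℝ) ^ 2)⁻¹ * ∑ x ∈ bx N, |∫ h, g (rs W (y + x) (gl D b h)) ∂(Mu D b) - m| ≤ ε := by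
  obtain ⟨B, hB⟩ := hg.bd
  obtain ⟨m, hm⟩ := Pool.Agent.Hgf.local_limit hg.ms hB hg.sh
  refine ⟨m, fun ε hε => ?_⟩
  obtain ⟨N0, h0⟩ := hm ε hε
  refine ⟨N0, fun N hN D b hb hD y hy => ?_⟩
  exact h0 N hN D b y (by exact_mod_cast hD) hb hy

/-- law of large numbers -/
theorem uni_LL {W : Finset (ℤ × ℤ)} {g : (W → ℝ) → ℝ} (hg : Lg W g) :
    ∀ ε : ℝ, 0 < ε → ∃ M0 : ℕ, ∀ M : ℕ, M0 ≤ M → ∀ (D : Finset (ℤ × ℤ)) (b : ℤ × ℤ → ℝ),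
      (∀ z, |b z| ≤ 1 / 2) → ∀ y : ℤ × ℤ, (∀ x ∈ bx M, nb (tr (y + x) W) ⊆ D) →
      ∫ h, |((M : ℝ) ^ 2)⁻¹ * ∑ x ∈ bx M, (g (rs W (y + x) (gl D b h)) -
        ∫ h', g (rs W (y + x) (gl D b h')) ∂(Mu D b))| ∂(Mu D b) ≤ ε := by
  intro ε hε
  obtain ⟨B, hB⟩ := hg.bd
  obtain ⟨M0, h0⟩ := Pool.Agent.Hgf.lln hg.ms hB hg.sh hε
  refine ⟨M0, fun M hM D b hb y hy => h0 M hM D b hb y (fun x hx w hw => ?_)⟩
  refine hy x hx ?_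
  refine Finset.mem_union_left _ ?_
  exact Finset.mem_image_of_mem (fun z => y + x + z) hw

end Pool.Agent.Hmk
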