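import Pool.Agent.Hmk.NuC
import Pool.Agent.Hgf.Nice

/-!
# Hmk, second part: the upper bound for the variance (`Uv`)
-/

set_option autoImplicit false

open MeasureTheory Set Filter ProbabilityTheory
open scoped ENNReal ContDiff Topology

noncomputable section

namespace Pool.Agent.Hmk

/- MODULE qpa
From ties on `K` to ties on all of `D → ℝ`.  `w' z h = χ h * w z ((1 - t) • h)` for `z ∈ D`, `0` for
`z ∉ D`, with a smooth `χ` which is `1` in a neighbourhood of `K D b` and vanishes outside of the open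
set where all `|gl h z - gl h (z + st i)| < 1 + t / 2` (`exists_contMDiff_support_eq_...`, or a
product of smooth steps).  If `χ h ≠ 0` then `(1 - t) • h ∈ K D b`: for an edge inside of `D`
`(1 - t) (1 + t / 2) ≤ 1`, for an edge to a fixed site
`|(1 - t) h x - b z| ≤ (1 - t) |h x - b z| + t / 2 ≤ 1`; and if `|gl h z - gl h (z + st i)| > 1 - t`
then the difference for `(1 - t) • h` is `≥ (1 - t)^2 - t / 2 ≥ 1 - ε` for small `t`.  As `t → 0` the
functions `w z ((1 - t) • h)` and their first derivatives converge uniformly on the compact set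
`K D b` (smoothness, uniform continuity), `χ = 1` near `K`. -/
/-- a smooth cut-off: `1` for `|r| ≤ 1 + t / 8`, `0` for `|r| ≥ 1 + t / 4` -/
private def qpa_ps (t r : ℝ) : ℝ :=
  Real.smoothTransition (((1 + t / 4) ^ 2 - r ^ 2) / ((1 + t / 4) ^ 2 - (1 + t / 8) ^ 2))

private theorem qpa_ps_smooth (t : ℝ) : ContDiff ℝ ∞ (qpa_ps t) := by
  unfold qpa_ps
  exact Real.smoothTransition.contDiff.comp
    ((contDiff_const.sub (contDiff_id.pow 2)).div_const _)

private theorem qpa_den {t : ℝ} (ht : 0 < t) : 0 < (1 + t / 4) ^ 2 - (1 + t / 8) ^ 2 := by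
  nlinarith

private theorem qpa_ps_one {t r : ℝ} (ht : 0 < t) (hr : |r| ≤ 1 + t / 8) : qpa_ps t r = 1 := by
  unfold qpa_ps
  apply Real.smoothTransition.one_of_one_le
  rw [le_div_iff₀ (qpa_den ht)]
  have : r ^ 2 ≤ (1 + t / 8) ^ 2 := by
    rw [← sq_abs]
    exact pow_le_pow_left₀ (abs_nonneg _) hr 2
  linarith

private theorem qpa_ps_zero {t r : ℝ} (ht : 0 < t) (hr : 1 + t / 4 ≤ |r|) : qpa_ps t r = 0 := by
  unfold qpa_ps
  apply Real.smoothTransition.zero_of_nonpos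
  apply div_nonpos_of_nonpos_of_nonneg _ (qpa_den ht).le
  have : (1 + t / 4) ^ 2 ≤ r ^ 2 := by
    rw [← sq_abs r]
    exact pow_le_pow_left₀ (by positivity) hr 2
  linarith

/-- the cut-off around `K` -/
private def qpa_chi (D : Finset (ℤ × ℤ)) (b : ℤ × ℤ → ℝ) (t : ℝ) (h : D → ℝ) : ℝ :=
  ∏ x ∈ D, ∏ i : Fin 6, qpa_ps t (gl D b h x - gl D b h (x + st i))

private theorem qpa_chi_smooth (D : Finset (ℤ × ℤ)) (b : ℤ × ℤ → ℝ) (t : ℝ) :
    ContDiff ℝ ∞ (qpa_chi D b t) := by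
  unfold qpa_chi
  refine contDiff_prod (fun x _ => contDiff_prod (fun i _ => ?_))
  exact (qpa_ps_smooth t).comp ((gls_smooth D b x).sub (gls_smooth D b (x + st i)))

private theorem qpa_chi_one {D : Finset (ℤ × ℤ)} {b : ℤ × ℤ → ℝ} {t : ℝ} (ht : 0 < t) {h : D → ℝ}
    (hh : h ∈ K D b) : ∀ᶠ k in 𝓝 h, qpa_chi D b t k = 1 := by
  have h1 : ∀ᶠ k in 𝓝 h, ∀ x ∈ D, ∀ i : Fin 6,
      |gl D b k x - gl D b k (x + st i)| < 1 + t / 8 := by
    rw [Finset.eventually_all]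
    intro x hx
    rw [eventually_all]
    intro i
    have hc : Continuous (fun k : D → ℝ => |gl D b k x - gl D b k (x + st i)|) :=
      ((gls_smooth D b x).sub (gls_smooth D b (x + st i))).continuous.abs
    refine hc.continuousAt.eventually_lt_const ?_
    have := hh x hx i
    linarith
  filter_upwards [h1] with k hk
  unfold qpa_chi
  exact Finset.prod_eq_one (fun x hx => Finset.prod_eq_one (fun i _ =>
    qpa_ps_one ht (hk x hx i).le))

private theorem qpa_chi_ne {D : Finset (ℤ × ℤ)} {b : ℤ × ℤ → ℝ} {t : ℝ} (ht : 0 < t) {h : D → ℝ}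
    (hh : qpa_chi D b t h ≠ 0) {x : ℤ × ℤ} (hx : x ∈ D) (i : Fin 6) :
    |gl D b h x - gl D b h (x + st i)| < 1 + t / 4 := by
  by_contra hc
  apply hh
  unfold qpa_chi
  exact Finset.prod_eq_zero hx (Finset.prod_eq_zero (Finset.mem_univ i)
    (qpa_ps_zero ht (not_lt.mp hc)))

/-- scaled configurations are in `K` -/
private theorem qpa_mem {D : Finset (ℤ × ℤ)} {b : ℤ × ℤ → ℝ} (hb : ∀ z, |b z| ≤ 1 / 2) {t : ℝ}
    (ht : 0 < t) (ht1 : t ≤ 1 / 2) {h : D → ℝ}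
    (hh : ∀ x ∈ D, ∀ i, |gl D b h x - gl D b h (x + st i)| < 1 + t / 4) :
    (1 - t) • h ∈ K D b := by
  intro x hx i
  have h1 := (abs_lt.mp (hh x hx i))
  have hx1 : gl D b h x = h ⟨x, hx⟩ := by simp [gl, hx]
  have hx2 : gl D b ((1 - t) • h) x = (1 - t) * h ⟨x, hx⟩ := by simp [gl, hx]
  by_cases hy : x + st i ∈ D
  · have hy1 : gl D b h (x + st i) = h ⟨x + st i, hy⟩ := by simp [gl, hy]
    have hy2 : gl D b ((1 - t) • h) (x + st i) = (1 - t) * h ⟨x + st i, hy⟩ := by simp [gl, hy]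
    rw [hx2, hy2]
    rw [hx1, hy1] at h1
    rw [abs_le]
    constructor <;> nlinarith [h1.1, h1.2]
  · have hy1 : gl D b h (x + st i) = b (x + st i) := by simp [gl, hy]
    have hy2 : gl D b ((1 - t) • h) (x + st i) = b (x + st i) := by simp [gl, hy]
    rw [hx2, hy2]
    rw [hx1, hy1] at h1
    have h2 := abs_le.mp (hb (x + st i))
    rw [abs_le]
    constructor <;> nlinarith [h1.1, h1.2, h2.1, h2.2]

/-- nearly saturated edges stay nearly saturated -/
private theorem qpa_sat {D : Finset (ℤ × ℤ)} {b : ℤ × ℤ → ℝ} (hb : ∀ z, |b z| ≤ 1 / 2) {t ε : ℝ}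
    (ht : 0 < t) (ht1 : t ≤ 1 / 2) (hε : t ≤ ε / 3) {h : D → ℝ} {x : ℤ × ℤ} (hx : x ∈ D) {i : Fin 6}
    (hh : 1 - t < |gl D b h x - gl D b h (x + st i)|) :
    1 - ε ≤ |gl D b ((1 - t) • h) x - gl D b ((1 - t) • h) (x + st i)| := by
  have hx1 : gl D b h x = h ⟨x, hx⟩ := by simp [gl, hx]
  have hx2 : gl D b ((1 - t) • h) x = (1 - t) * h ⟨x, hx⟩ := by simp [gl, hx]
  by_cases hy : x + st i ∈ D
  · have hy1 : gl D b h (x + st i) = h ⟨x + st i, hy⟩ := by simp [gl, hy]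
    have hy2 : gl D b ((1 - t) • h) (x + st i) = (1 - t) * h ⟨x + st i, hy⟩ := by simp [gl, hy]
    rw [hx2, hy2, ← mul_sub, abs_mul, abs_of_pos (by linarith : (0 : ℝ) < 1 - t)]
    rw [hx1, hy1] at hh
    nlinarith
  · have hy1 : gl D b h (x + st i) = b (x + st i) := by simp [gl, hy]
    have hy2 : gl D b ((1 - t) • h) (x + st i) = b (x + st i) := by simp [gl, hy]
    rw [hx2, hy2]
    rw [hx1, hy1] at hh
    have h2 := hb (x + st i)
    have h3 : (1 - t) * h ⟨x, hx⟩ - b (x + st i) =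
        (1 - t) * (h ⟨x, hx⟩ - b (x + st i)) - t * b (x + st i) := by ring
    rw [h3]
    have h4 : |(1 - t) * (h ⟨x, hx⟩ - b (x + st i))| - |t * b (x + st i)| ≤
        |(1 - t) * (h ⟨x, hx⟩ - b (x + st i)) - t * b (x + st i)| := abs_sub_abs_le_abs_sub _ _
    rw [abs_mul, abs_mul, abs_of_pos (by linarith : (0 : ℝ) < 1 - t), abs_of_pos ht] at h4
    nlinarith

private theorem qpa_pd {ι : Type*} [Fintype ι] [DecidableEq ι] {f : (ι → ℝ) → ℝ}
    (hf : Differentiable ℝ f) (s : ℝ) (y : ι) (h : ι → ℝ) :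
    pd y (fun k => f (s • k)) h = s * pd y f (s • h) := by
  unfold pd
  have h1 : HasFDerivAt (fun k : ι → ℝ => s • k) (s • ContinuousLinearMap.id ℝ (ι → ℝ)) h :=
    (hasFDerivAt_id h).const_smul s
  have h2 : HasFDerivAt (fun k => f (s • k))
      ((fderiv ℝ f (s • h)).comp (s • ContinuousLinearMap.id ℝ (ι → ℝ))) h :=
    (hf (s • h)).hasFDerivAt.comp h h1
  rw [h2.fderiv]
  simp

theorem nice_conv {D : Finset (ℤ × ℤ)} {b : ℤ × ℤ → ℝ} (hb : ∀ z, |b z| ≤ 1 / 2) {ε M : ℝ}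
    {w : D → (D → ℝ) → ℝ} (hw : Pool.Agent.Hgf.Nice D b ε M w) {η : ℝ} (hη : 0 < η) :
    ∃ w' : ℤ × ℤ → (D → ℝ) → ℝ, Nice D b w' ∧ ∀ h ∈ K D b, ∀ x : D,
      |w' x h - w x h| ≤ η ∧ ∀ y : D, |pd y (w' x) h - pd y (w x) h| ≤ η := by
  have hpos := hw.pos
  have hd : ∀ x, Differentiable ℝ (w x) := fun x => (hw.smooth x).differentiable (by simp)
  have hpc : ∀ x y, Continuous (pd y (w x)) := by
    intro x y
    have h1 : Continuous (fderiv ℝ (w x)) := (hw.smooth x).continuous_fderiv (by simp)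
    exact h1.clm_apply continuous_const
  have hK : IsCompact (K D b) := K_compact D b
  -- the values
  have e1 : ∀ᶠ t in 𝓝 (0 : ℝ), ∀ h ∈ K D b, ∀ x : D, |w x ((1 - t) • h) - w x h| < η := by
    refine hK.eventually_forall_of_forall_eventually ?_
    intro h _
    rw [eventually_all]
    intro x
    have hc : Continuous (fun p : ℝ × (D → ℝ) => |w x ((1 - p.1) • p.2) - w x p.2|) := by
      have h1 := (hw.smooth x).continuous
      fun_prop
    refine hc.continuousAt.eventually_lt_const ?_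
    simpa using hη
  have e2 : ∀ᶠ t in 𝓝 (0 : ℝ), ∀ h ∈ K D b, ∀ x y : D,
      |(1 - t) * pd y (w x) ((1 - t) • h) - pd y (w x) h| < η := by
    refine hK.eventually_forall_of_forall_eventually ?_
    intro h _
    rw [eventually_all]
    intro x
    rw [eventually_all]
    intro y
    have hc : Continuous (fun p : ℝ × (D → ℝ) =>
        |(1 - p.1) * pd y (w x) ((1 - p.1) • p.2) - pd y (w x) p.2|) := by
      have h1 := hpc x y
      fun_prop
    refine hc.continuousAt.eventually_lt_const ?_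
    simpa using hη
  have e3 : ∀ᶠ t in 𝓝[>] (0 : ℝ), 0 < t ∧ t < min (1 / 2) (ε / 3) := by
    have : Ioo (0 : ℝ) (min (1 / 2) (ε / 3)) ∈ 𝓝[>] (0 : ℝ) :=
      Ioo_mem_nhdsGT (lt_min (by norm_num) (by positivity))
    filter_upwards [this] with t ht
    exact ht
  obtain ⟨t, ⟨ht0, ht1⟩, h1, h2⟩ := (e3.and ((e1.filter_mono nhdsWithin_le_nhds).and
    (e2.filter_mono nhdsWithin_le_nhds))).exists
  have ht2 : t ≤ 1 / 2 := (ht1.le).trans (min_le_left _ _)
  have ht3 : t ≤ ε / 3 := (ht1.le).trans (min_le_right _ _)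
  set w' : ℤ × ℤ → (D → ℝ) → ℝ := fun z h =>
    qpa_chi D b t h * g0 D (fun y => w y ((1 - t) • h)) z with hw'
  have hg0 : ∀ (x : D) (h : D → ℝ), g0 D (fun y => w y ((1 - t) • h)) x.1 =
      w x ((1 - t) • h) := by
    intro x h
    simp [g0, gl]
  have hsm : ∀ x, ContDiff ℝ ∞ (fun h => w x ((1 - t) • h)) := by
    intro x
    have h3 : ContDiff ℝ ∞ (fun h : D → ℝ => (1 - t) • h) := contDiff_const_smul _
    exact (hw.smooth x).comp h3
  refine ⟨w', ⟨?_, ?_, ?_⟩, ?_⟩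
  · intro z
    by_cases hz : z ∈ D
    · have h3 : w' z = fun h => qpa_chi D b t h * w ⟨z, hz⟩ ((1 - t) • h) := by
        funext h
        simp only [hw']
        rw [hg0 ⟨z, hz⟩ h]
      rw [h3]
      exact (qpa_chi_smooth D b t).mul (hsm _)
    · have h3 : w' z = fun _ => 0 := by
        funext h
        simp [hw', g0, gl, hz]
      rw [h3]
      exact contDiff_const
  · intro z hz h
    simp [hw', g0, gl, hz]
  · refine ⟨t, ht0, ?_⟩
    intro z hz i h hh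
    simp only [hw']
    by_cases hc : qpa_chi D b t h = 0
    · rw [hc, zero_mul, zero_mul]
    · have h3 : (1 - t) • h ∈ K D b := qpa_mem hb ht0 ht2 (fun x hx i => qpa_chi_ne ht0 hc hx i)
      rw [hw.tied _ h3 z hz i (qpa_sat hb ht0 ht2 ht3 hz hh)]
  · intro h hh x
    have h3 : w' x =ᶠ[𝓝 h] fun k => w x ((1 - t) • k) := by
      filter_upwards [qpa_chi_one (b := b) ht0 hh] with k hk
      simp only [hw']
      rw [hk, one_mul, hg0]
    refine ⟨?_, ?_⟩
    · rw [h3.eq_of_nhds]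
      exact (h1 h hh x).le
    · intro y
      have h4 : pd y (w' x) h = (1 - t) * pd y (w x) ((1 - t) • h) := by
        rw [← qpa_pd (hd x)]
        unfold pd
        rw [h3.fderiv_eq]
      rw [h4]
      exact (h2 h hh x y).le
/- END qpa -/

/- MODULE qpb
`nice_unif` for `F = FG D b G` (affine; `pd x F = Lap G x`), `nice_conv` with a small `η'`;
`gr (w x) = ∑ y, (pd y (w x))^2`, everything is bounded on `K`. -/
private theorem qpb_FG (D : Finset (ℤ × ℤ)) (b : ℤ × ℤ → ℝ) (G : ℤ × ℤ → ℝ) :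
    FG D b G = ⇑(∑ x : D, Lap G x.1 • ContinuousLinearMap.proj (R := ℝ) (φ := fun _ : D => ℝ) x) := by
  funext h
  unfold FG
  rw [← Finset.sum_coe_sort D, sum_apply]
  refine Finset.sum_congr rfl (fun x _ => ?_)
  simp [gl]

theorem FG_pd (D : Finset (ℤ × ℤ)) (b : ℤ × ℤ → ℝ) (G : ℤ × ℤ → ℝ) (x : D) (h : D → ℝ) :
    pd x (FG D b G) h = Lap G x := by
  unfold pd
  rw [qpb_FG, ContinuousLinearMap.fderiv, sum_apply]
  rw [Finset.sum_eq_single x]
  · simp
  · intro y _ hy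
    simp [Pi.single_eq_of_ne hy]
  · intro hx
    exact absurd (Finset.mem_univ x) hx

private theorem qpb_int {D : Finset (ℤ × ℤ)} {b : ℤ × ℤ → ℝ} {f : (D → ℝ) → ℝ}
    (hf : Continuous f) : Integrable f (Mu D b) := by
  have h1 := Mu_int (D := D) (b := b) (f := f) (g := fun _ => 1) hf measurable_const (M := 1)
    (fun _ => by simp)
  simpa using h1

private theorem qpb_mono {D : Finset (ℤ × ℤ)} {b : ℤ × ℤ → ℝ} (hb : ∀ z, |b z| ≤ 1 / 2)
    {f g : (D → ℝ) → ℝ} (hf : Continuous f) (hg : Continuous g) {c : ℝ}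
    (h : ∀ k ∈ K D b, f k ≤ g k + c) : ∫ k, f k ∂(Mu D b) ≤ (∫ k, g k ∂(Mu D b)) + c := by
  have := Mu_prob (D := D) hb
  have h1 : ∫ k, f k ∂(Mu D b) ≤ ∫ k, (g k + c) ∂(Mu D b) := by
    refine integral_mono_ae (qpb_int hf) ((qpb_int hg).add (integrable_const c)) ?_
    filter_upwards [Mu_aeK D b] with k hk
    exact h k hk
  rw [integral_add (qpb_int hg) (integrable_const c), integral_const] at h1
  simpa using h1

theorem FG_nice {D : Finset (ℤ × ℤ)} {b : ℤ × ℤ → ℝ} (hb : ∀ z, |b z| ≤ 1 / 2)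
    (G : ℤ × ℤ → ℝ) {η : ℝ} (hη : 0 < η) :
    ∃ w : ℤ × ℤ → (D → ℝ) → ℝ, Nice D b w ∧
      variance (FG D b G) (Mu D b) ≤ 2 * (∫ h, ∑ x ∈ D, Lap G x * w x h ∂(Mu D b)) -
        (∫ h, en D D w h ∂(Mu D b)) + η := by
  have hF : Pool.Agent.Hgf.Fok (FG D b G) (∑ x : D, |Lap G x.1|) := by
    refine ⟨?_, ?_⟩
    · rw [qpb_FG]
      exact ContinuousLinearMap.hasTemperateGrowth _
    · intro x h
      rw [FG_pd]
      exact Finset.single_le_sum (f := fun x : D => |Lap G x.1|) (fun y _ => abs_nonneg _)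
        (Finset.mem_univ x)
  obtain ⟨ε, M, w0, hw0, hv⟩ := Pool.Agent.Hgf.nice_unif hb hF (half_pos hη)
  have hpc : ∀ x y, Continuous (pd y (w0 x)) := by
    intro x y
    have h1 : Continuous (fderiv ℝ (w0 x)) := (hw0.smooth x).continuous_fderiv (by simp)
    exact h1.clm_apply continuous_const
  obtain ⟨B, hB⟩ := (K_compact D b).exists_bound_of_continuousOn
    (f := fun h => fun (x y : D) => pd y (w0 x) h)
    (continuous_pi (fun x => continuous_pi (fun y => hpc x y))).continuousOn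
  have hB' : ∀ h ∈ K D b, ∀ x y : D, |pd y (w0 x) h| ≤ |B| := by
    intro h hh x y
    have h1 := (norm_le_pi_norm (fun y : D => pd y (w0 x) h) y)
    have h2 := (norm_le_pi_norm (fun x y : D => pd y (w0 x) h) x)
    exact (h1.trans (h2.trans (hB h hh))).trans (le_abs_self B)
  set n : ℝ := ((Finset.univ : Finset D).card : ℝ) with hn
  set A : ℝ := 2 * (∑ x : D, |Lap G x.1|) + n * (n * (2 * |B| + 1)) + 1 with hA
  have hn0 : 0 ≤ n := Nat.cast_nonneg _
  have hL0 : 0 ≤ ∑ x : D, |Lap G x.1| := Finset.sum_nonneg (fun x _ => abs_nonneg _)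
  have hA0 : 0 < A := by positivity
  obtain ⟨w, hw, hc⟩ := nice_conv hb hw0 (η := min 1 (η / 2 / A)) (by positivity)
  refine ⟨w, hw, ?_⟩
  set e : ℝ := min 1 (η / 2 / A) with he
  have he0 : 0 < e := by positivity
  have he1 : e ≤ 1 := min_le_left _ _
  have he2 : A * e ≤ η / 2 := by
    have : e ≤ η / 2 / A := min_le_right _ _
    rw [le_div_iff₀ hA0] at this
    linarith
  have hwc : ∀ z, Continuous (w z) := fun z => (hw.sm z).continuous
  have hwp : ∀ y z, Continuous (pz D y (w z)) := fun y z => (pzs_smooth (hw.sm z)).continuous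
  have hc1 : Continuous (fun h => 2 * (∑ x ∈ D, Lap G x * w x h) - en D D w h) := by
    unfold en
    fun_prop
  have hc2 : Continuous (fun h => 2 * (∑ x : D, pd x (FG D b G) h * w0 x h) -
      ∑ x : D, gr (w0 x) h) := by
    have h1 : ∀ x, Continuous (w0 x) := fun x => (hw0.smooth x).continuous
    have h2 : (fun h => 2 * (∑ x : D, pd x (FG D b G) h * w0 x h) - ∑ x : D, gr (w0 x) h) =
        fun h => 2 * (∑ x : D, Lap G x.1 * w0 x h) - ∑ x : D, gr (w0 x) h := by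
      funext h
      simp only [FG_pd]
    rw [h2]
    unfold gr
    fun_prop
  have hpt : ∀ h ∈ K D b, 2 * (∑ x : D, pd x (FG D b G) h * w0 x h) - ∑ x : D, gr (w0 x) h ≤
      (2 * (∑ x ∈ D, Lap G x * w x h) - en D D w h) + η / 2 := by
    intro h hh
    have h1 : ∑ x ∈ D, Lap G x * w x h = ∑ x : D, Lap G x.1 * w x.1 h :=
      (Finset.sum_coe_sort D (fun x => Lap G x * w x h)).symm
    have h2 : en D D w h = ∑ x : D, ∑ y : D, (pd y (w x.1) h) ^ 2 := by
      unfold en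
      rw [← Finset.sum_coe_sort D]
      refine Finset.sum_congr rfl (fun x _ => ?_)
      rw [← Finset.sum_coe_sort D]
      refine Finset.sum_congr rfl (fun y _ => ?_)
      simp [pz]
    rw [h1, h2]
    have h3 : ∑ x : D, pd x (FG D b G) h * w0 x h ≤ ∑ x : D, Lap G x.1 * w x.1 h +
        (∑ x : D, |Lap G x.1|) * e := by
      rw [Finset.sum_mul, ← Finset.sum_add_distrib]
      refine Finset.sum_le_sum (fun x _ => ?_)
      rw [FG_pd]
      have h4 := (hc h hh x).1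
      have h5 : Lap G x.1 * w0 x h - Lap G x.1 * w x.1 h ≤ |Lap G x.1| * e := by
        calc Lap G x.1 * w0 x h - Lap G x.1 * w x.1 h = -(Lap G x.1 * (w x.1 h - w0 x h)) := by ring
          _ ≤ |Lap G x.1 * (w x.1 h - w0 x h)| := neg_le_abs _
          _ = |Lap G x.1| * |w x.1 h - w0 x h| := abs_mul _ _
          _ ≤ |Lap G x.1| * e := mul_le_mul_of_nonneg_left h4 (abs_nonneg _)
      linarith
    have h6 : ∑ x : D, ∑ y : D, (pd y (w x.1) h) ^ 2 ≤ ∑ x : D, gr (w0 x) h +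
        n * (n * (2 * |B| + 1)) * e := by
      have h7 : n * (n * (2 * |B| + 1)) * e = ∑ x : D, ∑ y : D, (2 * |B| + 1) * e := by
        rw [Finset.sum_const, Finset.sum_const, nsmul_eq_mul, nsmul_eq_mul, ← hn]
        ring
      rw [h7, ← Finset.sum_add_distrib]
      refine Finset.sum_le_sum (fun x _ => ?_)
      unfold gr
      rw [← Finset.sum_add_distrib]
      refine Finset.sum_le_sum (fun y _ => ?_)
      have h8 := abs_le.mp ((hc h hh x).2 y)
      have h9 := hB' h hh x y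
      have h10 : (pd y (w x.1) h) ^ 2 - (pd y (w0 x) h) ^ 2 =
          (pd y (w x.1) h - pd y (w0 x) h) ^ 2 +
            2 * (pd y (w0 x) h * (pd y (w x.1) h - pd y (w0 x) h)) := by ring
      have h11 : pd y (w0 x) h * (pd y (w x.1) h - pd y (w0 x) h) ≤ |B| * e := by
        calc _ ≤ |pd y (w0 x) h * (pd y (w x.1) h - pd y (w0 x) h)| := le_abs_self _
          _ = |pd y (w0 x) h| * |pd y (w x.1) h - pd y (w0 x) h| := abs_mul _ _
          _ ≤ |B| * e := mul_le_mul h9 ((hc h hh x).2 y) (abs_nonneg _) (abs_nonneg _)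
      have h12 : (pd y (w x.1) h - pd y (w0 x) h) ^ 2 ≤ e := by
        have : (pd y (w x.1) h - pd y (w0 x) h) ^ 2 ≤ e ^ 2 := by
          rw [← sq_abs]
          exact pow_le_pow_left₀ (abs_nonneg _) ((hc h hh x).2 y) 2
        nlinarith
      nlinarith
    have h13 : (2 * (∑ x : D, |Lap G x.1|) + n * (n * (2 * |B| + 1))) * e ≤ η / 2 := by
      refine le_trans ?_ he2
      refine mul_le_mul_of_nonneg_right ?_ he0.le
      rw [hA]
      linarith
    nlinarith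
  have h14 := qpb_mono hb hc2 hc1 hpt
  have h15 : ∫ h, (2 * (∑ x ∈ D, Lap G x * w x h) - en D D w h) ∂(Mu D b) =
      2 * (∫ h, ∑ x ∈ D, Lap G x * w x h ∂(Mu D b)) - (∫ h, en D D w h ∂(Mu D b)) := by
    rw [integral_sub, integral_const_mul]
    · exact (qpb_int (by fun_prop)).const_mul 2
    · exact qpb_int (by unfold en; fun_prop)
  have h16 : ∫ h, (2 * (∑ x : D, pd x (FG D b G) h * w0 x h) - ∑ x : D, gr (w0 x) h) ∂(Mu D b) =
      2 * Pool.Agent.Hgf.Ex D b (fun h => ∑ x, pd x (FG D b G) h * w0 x h) -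
        Pool.Agent.Hgf.Ex D b (fun h => ∑ x, gr (w0 x) h) := by
    unfold Pool.Agent.Hgf.Ex
    have h1 : ∀ x, Continuous (w0 x) := fun x => (hw0.smooth x).continuous
    rw [integral_sub, integral_const_mul]
    · rfl
    · refine (qpb_int ?_).const_mul 2
      simp only [FG_pd]
      fun_prop
    · exact qpb_int (by unfold gr; fun_prop)
  have h17 : variance (FG D b G) (Mu D b) ≤ 2 * Pool.Agent.Hgf.Ex D b
      (fun h => ∑ x, pd x (FG D b G) h * w0 x h) -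
        Pool.Agent.Hgf.Ex D b (fun h => ∑ x, gr (w0 x) h) + η / 2 := hv
  rw [← h16] at h17
  rw [h15] at h14
  linarith
/- END qpb -/

/-- the gradient of `G` at `z` (increments in the directions `st 0`, `st 1`) -/
def dGu (G : ℤ × ℤ → ℝ) (z : ℤ × ℤ) : ℝ × ℝ := (G (z + st 0) - G z, G (z + st 1) - G z)

/- MODULE qpc
Summation by parts (`S` contains all `x` with a nonzero increment, `S ⊆ D`, `w = 0` off `D`), and
the moving average of the frozen functionals.  The coefficient of `γ ∇_i w (x)` in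
`(l^2)⁻¹ ∑_{z ∈ A} Jf (tr z (bx l))` is `κ x i = (l^2)⁻¹ ∑_{z ∈ A, x ∈ tr z (inn (bx l) (m+2))}
dc (dGu z) i`, and `|κ x i - G' x i| ≤ κ1 (1 - card inn / card bx) + κ2` with
`G' x i = G (x + st i) - G x`: if `G' x i ≠ 0` for some `i` then all `z` with `x ∈ tr z (bx l)`
are in `A`.  Each pair of sites is in at most `l^2` translates, so
`(l^2)⁻¹ ∑_z en (tr z (bx l)) ≤ en D D`. -/
private theorem qpc_opp : ∀ i : Fin 6, st (i + 3) = - st i := by
  decide

private theorem qpc_opp2 : ∀ i : Fin 6, i + 3 + 3 = i := by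
  decide

theorem lap_parts {D S : Finset (ℤ × ℤ)} (hS : S ⊆ D) {G : ℤ × ℤ → ℝ}
    (hG : ∀ x i, G (x + st i) ≠ G x → x ∈ S) (w : ℤ × ℤ → ℝ) (hw : ∀ z ∉ D, w z = 0) :
    2 * ∑ x ∈ D, Lap G x * w x = ∑ x ∈ S, ∑ i, (G (x + st i) - G x) * (w (x + st i) - w x) := by
  have hback : ∀ (x : ℤ × ℤ) (i : Fin 6), x + st i + st (i + 3) = x := by
    intro x i
    rw [qpc_opp, add_neg_cancel_right]
  have h1 : ∑ x ∈ D, Lap G x * w x = - ∑ x ∈ S, ∑ i, (G (x + st i) - G x) * w x := by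
    have h0 : ∀ x, Lap G x * w x = - ∑ i, (G (x + st i) - G x) * w x := by
      intro x
      unfold Lap
      rw [Finset.sum_mul, ← Finset.sum_neg_distrib]
      refine Finset.sum_congr rfl (fun i _ => ?_)
      ring
    rw [← Finset.sum_neg_distrib, ← Finset.sum_subset hS]
    · exact Finset.sum_congr rfl (fun x _ => h0 x)
    · intro x _ hx
      rw [h0, neg_eq_zero]
      refine Finset.sum_eq_zero (fun i _ => ?_)
      have : G (x + st i) = G x := by
        by_contra hc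
        exact hx (hG x i hc)
      rw [this, sub_self, zero_mul]
  have h2 : ∑ x ∈ S, ∑ i, (G (x + st i) - G x) * w (x + st i) =
      ∑ x ∈ S, ∑ i, -((G (x + st i) - G x) * w x) := by
    rw [← Finset.sum_product' S Finset.univ (fun x i => (G (x + st i) - G x) * w (x + st i)),
      ← Finset.sum_product' S Finset.univ (fun x i => -((G (x + st i) - G x) * w x))]
    refine Finset.sum_bij_ne_zero (fun p _ _ => ((p.1 + st p.2, p.2 + 3) : (ℤ × ℤ) × Fin 6))
      ?_ ?_ ?_ ?_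
    · intro p _ hp
      have h3 : G (p.1 + st p.2) ≠ G p.1 := by
        intro hc
        apply hp
        rw [hc, sub_self, zero_mul]
      refine Finset.mem_product.mpr ⟨?_, Finset.mem_univ _⟩
      apply hG (p.1 + st p.2) (p.2 + 3)
      rw [hback]
      exact h3.symm
    · rintro ⟨x, i⟩ _ _ ⟨y, j⟩ _ _ hp
      rw [Prod.mk.injEq] at hp
      obtain ⟨ha, hb⟩ := hp
      have hij : i = j := add_right_cancel hb
      subst hij
      have hxy : x = y := add_right_cancel ha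
      rw [hxy]
    · rintro ⟨y, j⟩ hy hne
      have h3 : G (y + st j) ≠ G y := by
        intro hc
        apply hne
        change -((G (y + st j) - G y) * w y) = 0
        rw [hc, sub_self, zero_mul, neg_zero]
      have h4 : (y + st j) + st (j + 3) = y := hback y j
      refine ⟨(y + st j, j + 3), Finset.mem_product.mpr ⟨?_, Finset.mem_univ _⟩, ?_, ?_⟩
      · apply hG (y + st j) (j + 3)
        rw [h4]
        exact h3.symm
      · change (G (y + st j + st (j + 3)) - G (y + st j)) * w (y + st j + st (j + 3)) ≠ 0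
        rw [h4]
        intro hc
        apply hne
        change -((G (y + st j) - G y) * w y) = 0
        linarith
      · change ((y + st j + st (j + 3), j + 3 + 3) : (ℤ × ℤ) × Fin 6) = (y, j)
        rw [h4, qpc_opp2]
    · rintro ⟨x, i⟩ _ _
      change (G (x + st i) - G x) * w (x + st i) =
        -((G (x + st i + st (i + 3)) - G (x + st i)) * w (x + st i))
      rw [hback]
      ring
  have h3 : ∑ x ∈ S, ∑ i, (G (x + st i) - G x) * (w (x + st i) - w x) =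
      ∑ x ∈ S, ∑ i, (G (x + st i) - G x) * w (x + st i) -
        ∑ x ∈ S, ∑ i, (G (x + st i) - G x) * w x := by
    rw [← Finset.sum_sub_distrib]
    refine Finset.sum_congr rfl (fun x _ => ?_)
    rw [← Finset.sum_sub_distrib]
    refine Finset.sum_congr rfl (fun i _ => ?_)
    ring
  rw [h1, h3, h2]
  have h4 : ∑ x ∈ S, ∑ i, -((G (x + st i) - G x) * w x) =
      - ∑ x ∈ S, ∑ i, (G (x + st i) - G x) * w x := by
    rw [← Finset.sum_neg_distrib]
    refine Finset.sum_congr rfl (fun x _ => ?_)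
    rw [Finset.sum_neg_distrib]
  rw [h4]
  ring

private theorem qpc_card_le (A B : Finset (ℤ × ℤ)) (x : ℤ × ℤ) :
    (A.filter (fun z => x ∈ tr z B)).card ≤ B.card := by
  refine Finset.card_le_card_of_injOn (fun z => x - z) ?_ ?_
  · intro z hz
    exact mem_tr.mp (Finset.mem_filter.mp hz).2
  · intro z _ z' _ hzz
    exact sub_right_injective hzz

private theorem qpc_card_eq (A B : Finset (ℤ × ℤ)) (x : ℤ × ℤ) (h : ∀ z, x ∈ tr z B → z ∈ A) :
    (A.filter (fun z => x ∈ tr z B)).card = B.card := by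
  refine le_antisymm (qpc_card_le A B x) ?_
  refine Finset.card_le_card_of_injOn (fun z => x - z) ?_ ?_
  · intro z hz
    have h1 : x ∈ tr (x - z) B := by
      rw [mem_tr, sub_sub_cancel]
      exact hz
    exact Finset.mem_coe.mpr (Finset.mem_filter.mpr ⟨h _ h1, h1⟩)
  · intro z _ z' _ hzz
    exact sub_right_injective hzz

private theorem qpc_inn {B : Finset (ℤ × ℤ)} {r : ℕ} : inn B r ⊆ B := by
  intro x hx
  apply mem_inn.mp hx x
  simp [dn]

private theorem qpc_bx (l : ℕ) : ((bx l).card : ℝ) = (l : ℝ) ^ 2 := by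
  unfold bx
  rw [Finset.card_product, Int.card_Ico]
  simp
  ring

private theorem qpc_swap (A S B : Finset (ℤ × ℤ)) (h : ∀ z ∈ A, tr z B ⊆ S)
    (f : ℤ × ℤ → ℤ × ℤ → ℝ) : ∑ z ∈ A, ∑ x ∈ tr z B, f z x =
      ∑ x ∈ S, ∑ z ∈ A.filter (fun z => x ∈ tr z B), f z x := by
  refine Finset.sum_comm' ?_
  intro z x
  rw [Finset.mem_filter]
  constructor
  · rintro ⟨hz, hx⟩
    exact ⟨⟨hz, hx⟩, h z hz hx⟩
  · rintro ⟨⟨hz, hx⟩, -⟩
    exact ⟨hz, hx⟩

theorem mov_av {l m : ℕ} (hl : 0 < l) {D : Finset (ℤ × ℤ)} (b : ℤ × ℤ → ℝ) {G : ℤ × ℤ → ℝ}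
    {A S : Finset (ℤ × ℤ)} (hS : S ⊆ D) {κ1 κ2 : ℝ} (h1 : 0 ≤ κ1) (h2 : 0 ≤ κ2)
    (hG1 : ∀ x i, |G (x + st i) - G x| ≤ κ1)
    (hG2 : ∀ z ∈ A, ∀ x ∈ tr z (bx l), x ∈ S ∧
      ∀ i, |dc (dGu G z) i - (G (x + st i) - G x)| ≤ κ2)
    (hG3 : ∀ x i, G (x + st i) ≠ G x → x ∈ S ∧ ∀ z, x ∈ tr z (bx l) → z ∈ A)
    {w : ℤ × ℤ → (D → ℝ) → ℝ} (hw : ∀ z ∉ D, ∀ h, w z h = 0) (h : D → ℝ) :
    2 * (∑ x ∈ D, Lap G x * w x h) - en D D w h ≤
      ((l : ℝ) ^ 2)⁻¹ * ∑ z ∈ A, Jf D b (tr z (bx l)) m (dGu G z) w h +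
      ∑ x ∈ S, ∑ i, (κ1 * (1 - gt m x i (gl D b h)) +
        (κ1 * (1 - ((inn (bx l) (m + 2)).card : ℝ) / (bx l).card) + κ2)) *
          |w (x + st i) h - w x h| := by
  have hl' : (0 : ℝ) < l := by exact_mod_cast hl
  have hn0 : (0 : ℝ) < (l : ℝ) ^ 2 := by positivity
  set n0 : ℝ := (l : ℝ) ^ 2 with hn
  have hbx : ((bx l).card : ℝ) = n0 := qpc_bx l
  set I : Finset (ℤ × ℤ) := inn (bx l) (m + 2) with hI
  have hIB : I ⊆ bx l := qpc_inn
  have hIc : (I.card : ℝ) ≤ n0 := by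
    rw [← hbx]
    exact_mod_cast Finset.card_le_card hIB
  have htrI : ∀ z, tr z I ⊆ tr z (bx l) := by
    intro z x hx
    rw [mem_tr] at hx ⊢
    exact hIB hx
  have htrS : ∀ z ∈ A, tr z (bx l) ⊆ S := fun z hz x hx => (hG2 z hz x hx).1
  have hc0 : 0 ≤ 1 - (I.card : ℝ) / (bx l).card := by
    rw [hbx, sub_nonneg, div_le_one hn0]
    exact hIc
  -- the energy
  have hen : n0⁻¹ * ∑ z ∈ A, en D (tr z (bx l)) w h ≤ en D D w h := by
    rw [inv_mul_le_iff₀ hn0]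
    have e1 : ∀ z ∈ A, en D (tr z (bx l)) w h ≤
        ∑ x ∈ tr z (bx l), ∑ y ∈ D, (pz D y (w x) h) ^ 2 := by
      intro z hz
      unfold en
      refine Finset.sum_le_sum (fun x _ => ?_)
      exact Finset.sum_le_sum_of_subset_of_nonneg ((htrS z hz).trans hS)
        (fun y _ _ => sq_nonneg _)
    refine (Finset.sum_le_sum e1).trans ?_
    rw [qpc_swap A D (bx l) (fun z hz => (htrS z hz).trans hS)
      (fun _ x => ∑ y ∈ D, (pz D y (w x) h) ^ 2)]
    unfold en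
    rw [Finset.mul_sum]
    refine Finset.sum_le_sum (fun x _ => ?_)
    rw [Finset.sum_const, nsmul_eq_mul]
    refine mul_le_mul_of_nonneg_right ?_ (Finset.sum_nonneg (fun y _ => sq_nonneg _))
    rw [← hbx]
    exact_mod_cast qpc_card_le A (bx l) x
  -- the linear part
  have hlin : 2 * ∑ x ∈ D, Lap G x * w x h =
      ∑ x ∈ S, ∑ i, (G (x + st i) - G x) * (w (x + st i) h - w x h) :=
    lap_parts hS (fun x i hx => (hG3 x i hx).1) (fun x => w x h) (fun z hz => hw z hz h)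
  have hsx : ∑ z ∈ A, ∑ i, dc (dGu G z) i * sx D b (tr z (bx l)) m w i h =
      ∑ x ∈ S, ∑ i, (∑ z ∈ A.filter (fun z => x ∈ tr z I), dc (dGu G z) i) *
        (gt m x i (gl D b h) * (w (x + st i) h - w x h)) := by
    have e1 : ∀ z ∈ A, ∑ i, dc (dGu G z) i * sx D b (tr z (bx l)) m w i h =
        ∑ x ∈ tr z I, ∑ i, dc (dGu G z) i *
          (gt m x i (gl D b h) * (w (x + st i) h - w x h)) := by
      intro z _
      rw [Finset.sum_comm]
      refine Finset.sum_congr rfl (fun i _ => ?_)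
      unfold sx
      rw [inn_tr, Finset.mul_sum]
    rw [Finset.sum_congr rfl e1, qpc_swap A S I (fun z hz => (htrI z).trans (htrS z hz))]
    refine Finset.sum_congr rfl (fun x _ => ?_)
    rw [Finset.sum_comm]
    refine Finset.sum_congr rfl (fun i _ => ?_)
    rw [Finset.sum_mul]
  have hJ : n0⁻¹ * ∑ z ∈ A, Jf D b (tr z (bx l)) m (dGu G z) w h =
      n0⁻¹ * (∑ x ∈ S, ∑ i, (∑ z ∈ A.filter (fun z => x ∈ tr z I), dc (dGu G z) i) *
        (gt m x i (gl D b h) * (w (x + st i) h - w x h))) -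
      n0⁻¹ * ∑ z ∈ A, en D (tr z (bx l)) w h := by
    rw [← hsx, ← mul_sub, ← Finset.sum_sub_distrib]
    rfl
  rw [hJ, hlin]
  have key : ∑ x ∈ S, ∑ i, (G (x + st i) - G x) * (w (x + st i) h - w x h) ≤
      n0⁻¹ * (∑ x ∈ S, ∑ i, (∑ z ∈ A.filter (fun z => x ∈ tr z I), dc (dGu G z) i) *
        (gt m x i (gl D b h) * (w (x + st i) h - w x h))) +
      ∑ x ∈ S, ∑ i, (κ1 * (1 - gt m x i (gl D b h)) +
        (κ1 * (1 - (I.card : ℝ) / (bx l).card) + κ2)) * |w (x + st i) h - w x h| := by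
    rw [Finset.mul_sum, ← Finset.sum_add_distrib]
    refine Finset.sum_le_sum (fun x _ => ?_)
    rw [Finset.mul_sum, ← Finset.sum_add_distrib]
    refine Finset.sum_le_sum (fun i _ => ?_)
    set N : ℝ := w (x + st i) h - w x h with hN
    set G' : ℝ := G (x + st i) - G x with hG'
    have hG'1 : |G'| ≤ κ1 := hG1 x i
    set Ax := A.filter (fun z => x ∈ tr z I) with hAx
    have hAxc : (Ax.card : ℝ) ≤ n0 := by
      refine le_trans ?_ hIc
      exact_mod_cast qpc_card_le A I x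
    have hK : |G' - n0⁻¹ * ∑ z ∈ Ax, dc (dGu G z) i| ≤
        κ1 * (1 - (I.card : ℝ) / (bx l).card) + κ2 := by
      have e1 : G' - n0⁻¹ * ∑ z ∈ Ax, dc (dGu G z) i =
          n0⁻¹ * (∑ z ∈ Ax, (G' - dc (dGu G z) i)) + (1 - (Ax.card : ℝ) / n0) * G' := by
        rw [Finset.sum_sub_distrib, Finset.sum_const, nsmul_eq_mul]
        field_simp
        ring
      rw [e1]
      have e2 : |n0⁻¹ * (∑ z ∈ Ax, (G' - dc (dGu G z) i))| ≤ κ2 := by
        rw [abs_mul, abs_of_pos (inv_pos.mpr hn0), inv_mul_le_iff₀ hn0]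
        calc |∑ z ∈ Ax, (G' - dc (dGu G z) i)| ≤ ∑ z ∈ Ax, |G' - dc (dGu G z) i| :=
              Finset.abs_sum_le_sum_abs _ _
          _ ≤ ∑ z ∈ Ax, κ2 := by
              refine Finset.sum_le_sum (fun z hz => ?_)
              rw [hAx, Finset.mem_filter] at hz
              rw [abs_sub_comm]
              exact (hG2 z hz.1 x (htrI z hz.2)).2 i
          _ = Ax.card * κ2 := by rw [Finset.sum_const, nsmul_eq_mul]
          _ ≤ n0 * κ2 := mul_le_mul_of_nonneg_right hAxc h2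
      have e3 : |(1 - (Ax.card : ℝ) / n0) * G'| ≤ κ1 * (1 - (I.card : ℝ) / (bx l).card) := by
        by_cases hz : G' = 0
        · rw [hz, mul_zero, abs_zero]
          exact mul_nonneg h1 hc0
        · have hne : G (x + st i) ≠ G x := fun hc => hz (by rw [hG', hc, sub_self])
          have hc : Ax.card = I.card :=
            qpc_card_eq A I x (fun z hz' => (hG3 x i hne).2 z (htrI z hz'))
          rw [hc, ← hbx, abs_mul, abs_of_nonneg hc0, mul_comm]
          exact mul_le_mul_of_nonneg_right hG'1 hc0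
      calc _ ≤ |n0⁻¹ * (∑ z ∈ Ax, (G' - dc (dGu G z) i))| + |(1 - (Ax.card : ℝ) / n0) * G'| :=
            abs_add_le _ _
        _ ≤ κ1 * (1 - (I.card : ℝ) / (bx l).card) + κ2 := by linarith
    have hq : 0 ≤ κ1 * (1 - (I.card : ℝ) / (bx l).card) + κ2 := by positivity
    rcases gt_mem m x i (gl D b h) with hg | hg
    · rw [hg]
      have e1 : G' * N ≤ κ1 * |N| := by
        calc G' * N ≤ |G' * N| := le_abs_self _
          _ = |G'| * |N| := abs_mul _ _
          _ ≤ κ1 * |N| := mul_le_mul_of_nonneg_right hG'1 (abs_nonneg _)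
      have e2 := mul_nonneg hq (abs_nonneg N)
      nlinarith
    · rw [hg]
      have e1 : (G' - n0⁻¹ * ∑ z ∈ Ax, dc (dGu G z) i) * N ≤
          (κ1 * (1 - (I.card : ℝ) / (bx l).card) + κ2) * |N| := by
        calc _ ≤ |(G' - n0⁻¹ * ∑ z ∈ Ax, dc (dGu G z) i) * N| := le_abs_self _
          _ = |G' - n0⁻¹ * ∑ z ∈ Ax, dc (dGu G z) i| * |N| := abs_mul _ _
          _ ≤ _ := mul_le_mul_of_nonneg_right hK (abs_nonneg _)
      nlinarith
  linarith
/- END qpc -/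

/- MODULE qpd
THE DISCRETE UPPER BOUND.  `w` from `FG_nice` with small `η`.  `mov_av` integrated, `th_up` for every
box (`Nice.lnice`), `fc3` for the terms with `1 - gt` and `nice_edge` for the others,
Cauchy-Schwarz over `x ∈ S` (`∑_x (√a_x + √a_{x + st i})`, `a_x = ∫ ∑_y (pz y (w x))^2`,
`∑_x a_x = E := ∫ en D D w`, `a_x = 0` off `D`):
error `≤ C √(card S) (κ1 ((9/10)^m + θ) + κ2) √E`.  The energy: the variance is `≥ 0`, so
`E ≤ 2 ∫ a w + η ≤ C κ1 √(card S) √E + η` (`lap_parts`, `nice_edge`), `√E ≤ C κ1 √(card S) + √(2 η)`.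
Let `η → 0`. -/
/-- Cauchy-Schwarz for the square roots -/
private theorem qpd_cs (S : Finset (ℤ × ℤ)) (a : ℤ × ℤ → ℝ) (ha : ∀ x, 0 ≤ a x) {E : ℝ}
    (hE : ∑ x ∈ S, a x ≤ E) : ∑ x ∈ S, Real.sqrt (a x) ≤ Real.sqrt S.card * Real.sqrt E := by
  have h1 : (∑ x ∈ S, Real.sqrt (a x)) ^ 2 ≤ S.card * E := by
    calc (∑ x ∈ S, Real.sqrt (a x)) ^ 2 ≤ S.card * ∑ x ∈ S, Real.sqrt (a x) ^ 2 :=
          sq_sum_le_card_mul_sum_sq
      _ = S.card * ∑ x ∈ S, a x := by
          congr 1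
          exact Finset.sum_congr rfl (fun x _ => Real.sq_sqrt (ha x))
      _ ≤ S.card * E := mul_le_mul_of_nonneg_left hE (Nat.cast_nonneg _)
  rw [← Real.sqrt_mul (Nat.cast_nonneg _)]
  exact Real.le_sqrt_of_sq_le h1

/-- from `s² ≤ a s + η` -/
private theorem qpd_quad {s a η : ℝ} (_ : 0 ≤ s) (ha : 0 ≤ a) (hη : 0 ≤ η)
    (h : s ^ 2 ≤ a * s + η) : s ≤ a + Real.sqrt η := by
  by_contra hc
  push Not at hc
  have h1 := Real.sqrt_nonneg η
  have h2 := Real.sq_sqrt hη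
  have h3 : Real.sqrt η < s - a := by linarith
  have h4 : Real.sqrt η ≤ s := by linarith
  have h5 : Real.sqrt η * Real.sqrt η < s * (s - a) := by
    rcases eq_or_lt_of_le h1 with h6 | h6
    · rw [← h6]
      have h7 : 0 < s := by linarith
      have h8 : 0 < s - a := by linarith
      rw [mul_zero]
      exact mul_pos h7 h8
    · exact mul_lt_mul' h4 h3 h1 (by linarith)
  nlinarith

/-- the limit `η → 0` -/
private theorem qpd_lim {V T Q : ℝ} (hQ : 0 ≤ Q)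
    (h : ∀ η : ℝ, 0 < η → V ≤ T + Q * Real.sqrt η + η) : V ≤ T := by
  refine le_of_forall_pos_le_add (fun e he => ?_)
  set η : ℝ := min 1 ((e / (Q + 1)) ^ 2) with hη
  have hη0 : 0 < η := by positivity
  have h1 : Real.sqrt η ≤ e / (Q + 1) := by
    rw [Real.sqrt_le_left (by positivity)]
    exact min_le_right _ _
  have h2 : η ≤ Real.sqrt η := by
    have h3 : η ≤ 1 := min_le_left _ _
    have h4 : Real.sqrt η ≤ 1 := by
      rw [← Real.sqrt_one]
      exact Real.sqrt_le_sqrt h3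
    have h5 := Real.sq_sqrt hη0.le
    nlinarith [Real.sqrt_nonneg η]
  have h3 := h η hη0
  have h4 : (Q + 1) * Real.sqrt η ≤ e := by
    rw [le_div_iff₀ (by positivity)] at h1
    linarith
  linarith

theorem up1 : ∃ C : ℝ, 0 ≤ C ∧ ∀ (l m : ℕ), 0 < l → ∀ (D : Finset (ℤ × ℤ)) (b : ℤ × ℤ → ℝ),
    (∀ z, |b z| ≤ 1 / 2) → ∀ (G : ℤ × ℤ → ℝ) (A S : Finset (ℤ × ℤ)) (κ1 κ2 : ℝ),
    0 ≤ κ1 → 0 ≤ κ2 → (∀ x i, |G (x + st i) - G x| ≤ κ1) →
    (∀ z ∈ A, ∀ x ∈ tr z (bx l), x ∈ S ∧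
      ∀ i, |dc (dGu G z) i - (G (x + st i) - G x)| ≤ κ2) →
    (∀ x i, G (x + st i) ≠ G x → x ∈ S ∧ ∀ z, x ∈ tr z (bx l) → z ∈ A) →
    (∀ x ∈ S, ∀ z, dn (z - x) ≤ (m : ℤ) + 1 → z ∈ D) →
    variance (FG D b G) (Mu D b) ≤
      ((l : ℝ) ^ 2)⁻¹ * ∑ z ∈ A, ∫ h, Th (bx l) m (dGu G z) (sf z (gl D b h)) ∂(Mu D b) +
      C * S.card * κ1 * (κ1 * ((9 / 10) ^ m +
        (1 - ((inn (bx l) (m + 2)).card : ℝ) / (bx l).card)) + κ2) := by
  obtain ⟨C3, hC3, h3⟩ := fc3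
  obtain ⟨Ce, hCe, h4⟩ := nice_edge
  refine ⟨(C3 + Ce) * 12 * (Ce * 12), by positivity, ?_⟩
  intro l m hl D b hb G A S κ1 κ2 hκ1 hκ2 hG1 hG2 hG3 hD
  have hprob := Mu_prob (D := D) hb
  have hl' : (0 : ℝ) < l := by exact_mod_cast hl
  have hSD : S ⊆ D := by
    intro x hx
    refine hD x hx x ?_
    simp only [sub_self]
    have : dn (0 : ℤ × ℤ) = 0 := by simp [dn]
    rw [this]
    positivity
  have hSt : ∀ x ∈ S, ∀ i, x + st i ∈ D := by
    intro x hx i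
    refine hD x hx _ ?_
    rw [add_sub_cancel_left]
    have : ∀ i : Fin 6, dn (st i) = 1 := by decide
    rw [this i]
    omega
  have hba : ∀ x ∈ S, ba x (m + 1) ⊆ D := by
    intro x hx z hz
    rw [mem_ba] at hz
    refine hD x hx z ?_
    push_cast at hz
    exact hz
  set c0 : ℝ := 1 - ((inn (bx l) (m + 2)).card : ℝ) / (bx l).card with hc0
  have hc0' : 0 ≤ c0 := by
    rw [hc0, sub_nonneg]
    refine div_le_one_of_le₀ ?_ (Nat.cast_nonneg _)
    exact_mod_cast Finset.card_le_card qpc_inn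
  set q : ℝ := κ1 * ((9 / 10) ^ m + c0) + κ2 with hq
  have hq0 : 0 ≤ q := by positivity
  have hcard : (0 : ℝ) ≤ S.card := Nat.cast_nonneg _
  set sS : ℝ := Real.sqrt S.card with hsS
  have hsS0 : 0 ≤ sS := Real.sqrt_nonneg _
  have hsS2 : sS * sS = S.card := Real.mul_self_sqrt hcard
  set a1 : ℝ := Ce * 12 * κ1 * sS with ha1
  have ha1' : 0 ≤ a1 := by positivity
  set Q : ℝ := (C3 + Ce) * 12 * q * sS with hQ
  have hQ0 : 0 ≤ Q := by positivity
  set T : ℝ := ((l : ℝ) ^ 2)⁻¹ * ∑ z ∈ A, ∫ h, Th (bx l) m (dGu G z) (sf z (gl D b h)) ∂(Mu D b)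
    with hT
  have hfin : T + (C3 + Ce) * 12 * (Ce * 12) * S.card * κ1 * q = T + Q * a1 := by
    rw [hQ, ha1, ← hsS2]
    ring
  rw [hfin]
  refine qpd_lim hQ0 (fun η hη => ?_)
  obtain ⟨w, hw, hv⟩ := FG_nice (D := D) hb G hη
  have hwc : ∀ z, Continuous (w z) := fun z => (hw.sm z).continuous
  have hwp : ∀ y z, Continuous (pz D y (w z)) := fun y z => (pzs_smooth (hw.sm z)).continuous
  -- the energies of the single components
  set a : ℤ × ℤ → ℝ := fun x => ∫ h, ∑ y ∈ D, (pz D y (w x) h) ^ 2 ∂(Mu D b) with ha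
  have ha0 : ∀ x, 0 ≤ a x :=
    fun x => integral_nonneg (fun h => Finset.sum_nonneg (fun y _ => sq_nonneg _))
  set E : ℝ := ∫ h, en D D w h ∂(Mu D b) with hE
  have hEs : E = ∑ x ∈ D, a x := by
    rw [hE, ha]
    unfold en
    rw [integral_finsetSum]
    intro x _
    exact qpb_int (by fun_prop)
  have hE0 : 0 ≤ E := by
    rw [hEs]
    exact Finset.sum_nonneg (fun x _ => ha0 x)
  have hsum1 : ∑ x ∈ S, a x ≤ E := by
    rw [hEs]
    exact Finset.sum_le_sum_of_subset_of_nonneg hSD (fun x _ _ => ha0 x)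
  have hsum2 : ∀ i, ∑ x ∈ S, a (x + st i) ≤ E := by
    intro i
    rw [hEs]
    have h5 : ∑ x ∈ S, a (x + st i) = ∑ y ∈ S.image (fun x => x + st i), a y := by
      rw [Finset.sum_image]
      intro x _ y _ hxy
      exact add_right_cancel hxy
    rw [h5]
    refine Finset.sum_le_sum_of_subset_of_nonneg ?_ (fun x _ _ => ha0 x)
    intro y hy
    obtain ⟨x, hx, rfl⟩ := Finset.mem_image.mp hy
    exact hSt x hx i
  have hsq : ∑ x ∈ S, ∑ i : Fin 6, (Real.sqrt (a x) + Real.sqrt (a (x + st i))) ≤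
      12 * (sS * Real.sqrt E) := by
    rw [Finset.sum_comm]
    have h5 : ∀ i : Fin 6, ∑ x ∈ S, (Real.sqrt (a x) + Real.sqrt (a (x + st i))) ≤
        2 * (sS * Real.sqrt E) := by
      intro i
      rw [Finset.sum_add_distrib]
      have h6 := qpd_cs S a ha0 hsum1
      have h7 := qpd_cs S (fun x => a (x + st i)) (fun x => ha0 _) (hsum2 i)
      linarith
    refine (Finset.sum_le_sum (fun i _ => h5 i)).trans (le_of_eq ?_)
    rw [Finset.sum_const, nsmul_eq_mul]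
    simp
    ring
  -- edges
  have hN : ∀ x ∈ S, ∀ i, ∫ h, |w (x + st i) h - w x h| ∂(Mu D b) ≤
      Ce * (Real.sqrt (a x) + Real.sqrt (a (x + st i))) :=
    fun x hx i => h4 D b hb w hw x (hSD hx) i
  have hgm : ∀ x i, Measurable (fun h : D → ℝ => gt m x i (gl D b h)) := fun x i =>
    gt_meas D b m x i
  have hg01 : ∀ x i (H : ℤ × ℤ → ℝ), 0 ≤ 1 - gt m x i H ∧ 1 - gt m x i H ≤ 1 := by
    intro x i H
    rcases gt_mem m x i H with hg | hg <;> rw [hg] <;> norm_num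
  have hN' : ∀ x ∈ S, ∀ i, ∫ h, (1 - gt m x i (gl D b h)) * |w (x + st i) h - w x h| ∂(Mu D b) ≤
      C3 * (9 / 10) ^ m * (Real.sqrt (a x) + Real.sqrt (a (x + st i))) :=
    fun x hx i => h3 D b hb w hw x i m (hba x hx)
  have hint1 : ∀ x i, Integrable (fun h => |w (x + st i) h - w x h|) (Mu D b) :=
    fun x i => qpb_int (by fun_prop)
  have hint2 : ∀ x i, Integrable (fun h => (1 - gt m x i (gl D b h)) *
      |w (x + st i) h - w x h|) (Mu D b) := by
    intro x i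
    refine Mu_int (M := 1) (by fun_prop) (measurable_const.sub (hgm x i)) ?_
    intro k
    rw [abs_le]
    constructor <;> linarith [(hg01 x i (gl D b k)).1, (hg01 x i (gl D b k)).2]
  -- integrability of the frozen functionals
  have hJint : ∀ z, Integrable (fun h => Jf D b (tr z (bx l)) m (dGu G z) w h) (Mu D b) := by
    intro z
    unfold Jf
    refine Integrable.sub ?_ ?_
    · refine integrable_finsetSum _ (fun i _ => Integrable.const_mul ?_ _)
      unfold sx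
      refine integrable_finsetSum _ (fun x _ => ?_)
      refine Mu_int (M := 1) (by fun_prop) (hgm x i) ?_
      intro k
      rcases gt_mem m x i (gl D b k) with hg | hg <;> rw [hg] <;> norm_num
    · unfold en
      exact qpb_int (by fun_prop)
  -- main inequality
  have hmain : 2 * (∫ h, ∑ x ∈ D, Lap G x * w x h ∂(Mu D b)) - E ≤ T + Q * Real.sqrt E := by
    have e1 : 2 * (∫ h, ∑ x ∈ D, Lap G x * w x h ∂(Mu D b)) - E =
        ∫ h, (2 * (∑ x ∈ D, Lap G x * w x h) - en D D w h) ∂(Mu D b) := by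
      rw [integral_sub, integral_const_mul]
      · exact (qpb_int (by fun_prop)).const_mul 2
      · exact qpb_int (by unfold en; fun_prop)
    have hint3 : Integrable (fun h => ((l : ℝ) ^ 2)⁻¹ *
        ∑ z ∈ A, Jf D b (tr z (bx l)) m (dGu G z) w h) (Mu D b) :=
      Integrable.const_mul (integrable_finsetSum _ (fun z _ => hJint z)) _
    have hint4 : ∀ x i, Integrable (fun h => (κ1 * (1 - gt m x i (gl D b h)) +
        (κ1 * c0 + κ2)) * |w (x + st i) h - w x h|) (Mu D b) := by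
      intro x i
      have e2 : (fun h : D → ℝ => (κ1 * (1 - gt m x i (gl D b h)) +
        (κ1 * c0 + κ2)) * |w (x + st i) h - w x h|) = fun h =>
          κ1 * ((1 - gt m x i (gl D b h)) * |w (x + st i) h - w x h|) +
            (κ1 * c0 + κ2) * |w (x + st i) h - w x h| := by
        funext h
        ring
      rw [e2]
      exact ((hint2 x i).const_mul κ1).add ((hint1 x i).const_mul _)
    have hint5 : Integrable (fun h => ∑ x ∈ S, ∑ i, (κ1 * (1 - gt m x i (gl D b h)) +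
        (κ1 * c0 + κ2)) * |w (x + st i) h - w x h|) (Mu D b) :=
      integrable_finsetSum _ (fun x _ => integrable_finsetSum _ (fun i _ => hint4 x i))
    rw [e1]
    calc ∫ h, (2 * (∑ x ∈ D, Lap G x * w x h) - en D D w h) ∂(Mu D b) ≤
        ∫ h, (((l : ℝ) ^ 2)⁻¹ * ∑ z ∈ A, Jf D b (tr z (bx l)) m (dGu G z) w h +
          ∑ x ∈ S, ∑ i, (κ1 * (1 - gt m x i (gl D b h)) +
        (κ1 * c0 + κ2)) * |w (x + st i) h - w x h|) ∂(Mu D b) := by
          refine integral_mono (qpb_int (by unfold en; fun_prop)) (hint3.add hint5) ?_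
          intro h
          exact mov_av hl b hSD hκ1 hκ2 hG1 hG2 hG3 (fun z hz h => hw.off z hz h) h
      _ = ((l : ℝ) ^ 2)⁻¹ * ∑ z ∈ A, ∫ h, Jf D b (tr z (bx l)) m (dGu G z) w h ∂(Mu D b) +
          ∑ x ∈ S, ∑ i, (κ1 * (∫ h, (1 - gt m x i (gl D b h)) *
            |w (x + st i) h - w x h| ∂(Mu D b)) +
            (κ1 * c0 + κ2) * ∫ h, |w (x + st i) h - w x h| ∂(Mu D b)) := by
          rw [integral_add hint3 hint5, integral_const_mul,
            integral_finsetSum _ (fun z _ => hJint z),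
            integral_finsetSum _ (fun x _ => integrable_finsetSum _ (fun i _ => hint4 x i))]
          congr 1
          refine Finset.sum_congr rfl (fun x _ => ?_)
          rw [integral_finsetSum _ (fun i _ => hint4 x i)]
          refine Finset.sum_congr rfl (fun i _ => ?_)
          rw [← integral_const_mul, ← integral_const_mul, ← integral_add
            ((hint2 x i).const_mul κ1) ((hint1 x i).const_mul _)]
          refine integral_congr_ae (Eventually.of_forall (fun h => ?_))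
          ring
      _ ≤ T + ∑ x ∈ S, ∑ i, (C3 + Ce) * q * (Real.sqrt (a x) + Real.sqrt (a (x + st i))) := by
          refine add_le_add ?_ ?_
          · refine mul_le_mul_of_nonneg_left (Finset.sum_le_sum (fun z hz => ?_)) (by positivity)
            have e3 : tr z (bx l) ⊆ D := fun x hx => hSD (hG2 z hz x hx).1
            exact th_up (bx l) m (dGu G z) hb e3 (hw.lnice e3)
          · refine Finset.sum_le_sum (fun x hx => Finset.sum_le_sum (fun i _ => ?_))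
            have e4 := hN x hx i
            have e5 := hN' x hx i
            have e6 : 0 ≤ Real.sqrt (a x) + Real.sqrt (a (x + st i)) := by positivity
            set s : ℝ := Real.sqrt (a x) + Real.sqrt (a (x + st i)) with hs
            have e7 : κ1 * (∫ h, (1 - gt m x i (gl D b h)) *
                |w (x + st i) h - w x h| ∂(Mu D b)) ≤ κ1 * (C3 * (9 / 10) ^ m * s) :=
              mul_le_mul_of_nonneg_left e5 hκ1
            have e8 : (κ1 * c0 + κ2) * ∫ h, |w (x + st i) h - w x h| ∂(Mu D b) ≤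
                (κ1 * c0 + κ2) * (Ce * s) :=
              mul_le_mul_of_nonneg_left e4 (by positivity)
            have e9 : κ1 * (C3 * (9 / 10) ^ m * s) + (κ1 * c0 + κ2) * (Ce * s) ≤
                (C3 + Ce) * q * s := by
              rw [hq]
              have f1 : 0 ≤ κ1 * (9 / 10) ^ m * s * Ce := by positivity
              have f2 : 0 ≤ (κ1 * c0 + κ2) * s * C3 := by positivity
              nlinarith
            linarith
      _ ≤ T + Q * Real.sqrt E := by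
          have e10 : ∑ x ∈ S, ∑ i : Fin 6, (C3 + Ce) * q *
              (Real.sqrt (a x) + Real.sqrt (a (x + st i))) =
              (C3 + Ce) * q * ∑ x ∈ S, ∑ i : Fin 6,
                (Real.sqrt (a x) + Real.sqrt (a (x + st i))) := by
            rw [Finset.mul_sum]
            refine Finset.sum_congr rfl (fun x _ => ?_)
            rw [Finset.mul_sum]
          rw [e10]
          have e11 : (C3 + Ce) * q * ∑ x ∈ S, ∑ i : Fin 6,
              (Real.sqrt (a x) + Real.sqrt (a (x + st i))) ≤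
              (C3 + Ce) * q * (12 * (sS * Real.sqrt E)) :=
            mul_le_mul_of_nonneg_left hsq (by positivity)
          have e12 : (C3 + Ce) * q * (12 * (sS * Real.sqrt E)) = Q * Real.sqrt E := by
            rw [hQ]
            ring
          linarith
  -- the energy
  have hEb : Real.sqrt E ≤ a1 + Real.sqrt η := by
    refine qpd_quad (Real.sqrt_nonneg _) ha1' hη.le ?_
    rw [Real.sq_sqrt hE0]
    have e1 : 0 ≤ variance (FG D b G) (Mu D b) := variance_nonneg _ _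
    have e2 : 2 * (∫ h, ∑ x ∈ D, Lap G x * w x h ∂(Mu D b)) =
        ∑ x ∈ S, ∑ i, (G (x + st i) - G x) * ∫ h, (w (x + st i) h - w x h) ∂(Mu D b) := by
      rw [← integral_const_mul]
      have e3 : (fun h => 2 * ∑ x ∈ D, Lap G x * w x h) = fun h => ∑ x ∈ S, ∑ i,
          (G (x + st i) - G x) * (w (x + st i) h - w x h) := by
        funext h
        exact lap_parts hSD (fun x i hx => (hG3 x i hx).1) (fun x => w x h)
          (fun z hz => hw.off z hz h)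
      have e4 : ∀ x i, Integrable (fun h => (G (x + st i) - G x) *
          (w (x + st i) h - w x h)) (Mu D b) := fun x i => qpb_int (by fun_prop)
      rw [e3, integral_finsetSum _ (fun x _ => integrable_finsetSum _ (fun i _ => e4 x i))]
      refine Finset.sum_congr rfl (fun x _ => ?_)
      rw [integral_finsetSum _ (fun i _ => e4 x i)]
      refine Finset.sum_congr rfl (fun i _ => ?_)
      rw [integral_const_mul]
    have e5 : ∑ x ∈ S, ∑ i, (G (x + st i) - G x) * ∫ h, (w (x + st i) h - w x h) ∂(Mu D b) ≤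
        ∑ x ∈ S, ∑ i, κ1 * (Ce * (Real.sqrt (a x) + Real.sqrt (a (x + st i)))) := by
      refine Finset.sum_le_sum (fun x hx => Finset.sum_le_sum (fun i _ => ?_))
      calc (G (x + st i) - G x) * ∫ h, (w (x + st i) h - w x h) ∂(Mu D b) ≤
          |(G (x + st i) - G x) * ∫ h, (w (x + st i) h - w x h) ∂(Mu D b)| := le_abs_self _
        _ = |G (x + st i) - G x| * |∫ h, (w (x + st i) h - w x h) ∂(Mu D b)| := abs_mul _ _
        _ ≤ κ1 * ∫ h, |w (x + st i) h - w x h| ∂(Mu D b) :=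
            mul_le_mul (hG1 x i) abs_integral_le_integral_abs (abs_nonneg _) hκ1
        _ ≤ κ1 * (Ce * (Real.sqrt (a x) + Real.sqrt (a (x + st i)))) :=
            mul_le_mul_of_nonneg_left (hN x hx i) hκ1
    have e6 : ∑ x ∈ S, ∑ i : Fin 6, κ1 * (Ce * (Real.sqrt (a x) + Real.sqrt (a (x + st i)))) =
        κ1 * Ce * ∑ x ∈ S, ∑ i : Fin 6, (Real.sqrt (a x) + Real.sqrt (a (x + st i))) := by
      rw [Finset.mul_sum]
      refine Finset.sum_congr rfl (fun x _ => ?_)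
      rw [Finset.mul_sum]
      refine Finset.sum_congr rfl (fun i _ => ?_)
      ring
    have e7 : κ1 * Ce * ∑ x ∈ S, ∑ i : Fin 6, (Real.sqrt (a x) + Real.sqrt (a (x + st i))) ≤
        κ1 * Ce * (12 * (sS * Real.sqrt E)) := mul_le_mul_of_nonneg_left hsq (by positivity)
    have e8 : κ1 * Ce * (12 * (sS * Real.sqrt E)) = a1 * Real.sqrt E := by
      rw [ha1]
      ring
    rw [e2] at hv
    linarith
  have hQE : Q * Real.sqrt E ≤ Q * (a1 + Real.sqrt η) := mul_le_mul_of_nonneg_left hEb hQ0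
  have : Q * (a1 + Real.sqrt η) = Q * a1 + Q * Real.sqrt η := by ring
  linarith
/- END qpd -/

/- MODULE qpe
Calculus.  A smooth function with compact support and its first two derivatives are bounded; mean
value theorem along segments, `lt δ (x + st i) - lt δ x = δ (st i)`. -/
private theorem qpe_taylor {g : ℝ × ℝ → ℝ} (hg : Differentiable ℝ g) {M : ℝ}
    (hM : ∀ p q : ℝ × ℝ, ‖fderiv ℝ g p - fderiv ℝ g q‖ ≤ M * ‖p - q‖) (hM0 : 0 ≤ M)
    (p v : ℝ × ℝ) : |g (p + v) - g p - fderiv ℝ g p v| ≤ M * ‖v‖ ^ 2 := by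
  have h1 : ‖g (p + v) - g p - fderiv ℝ g p ((p + v) - p)‖ ≤ M * ‖v‖ * ‖(p + v) - p‖ := by
    refine Convex.norm_image_sub_le_of_norm_fderiv_le' (𝕜 := ℝ) (f := g) (φ := fderiv ℝ g p)
      (C := M * ‖v‖) (s := Metric.closedBall p ‖v‖) (x := p) (y := p + v)
      (fun x _ => hg x) ?_ (convex_closedBall _ _) ?_ ?_
    · intro x hx
      refine (hM x p).trans (mul_le_mul_of_nonneg_left ?_ hM0)
      rw [← dist_eq_norm]
      exact hx
    · exact Metric.mem_closedBall_self (norm_nonneg _)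
    · rw [Metric.mem_closedBall, dist_eq_norm, add_sub_cancel_left]
  rw [add_sub_cancel_left, Real.norm_eq_abs] at h1
  rw [pow_two, ← mul_assoc]
  exact h1

private theorem qpe_lt (δ : ℝ) (x y : ℤ × ℤ) : lt δ (x + y) = lt δ x + lt δ y := by
  ext <;> simp [lt] <;> ring

private theorem qpe_norm {δ : ℝ} (hδ : 0 < δ) (x : ℤ × ℤ) : ‖lt δ x‖ ≤ δ * (dn x : ℝ) := by
  have h1 : |x.1| ≤ dn x := le_max_left _ _
  have h2 : |x.2| ≤ dn x := (le_max_left _ _).trans (le_max_right _ _)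
  have h1' : |(x.1 : ℝ)| ≤ (dn x : ℝ) := by exact_mod_cast h1
  have h2' : |(x.2 : ℝ)| ≤ (dn x : ℝ) := by exact_mod_cast h2
  rw [lt, Prod.norm_mk, Real.norm_eq_abs, Real.norm_eq_abs, abs_mul, abs_mul, abs_of_pos hδ]
  exact max_le (mul_le_mul_of_nonneg_left h1' hδ.le) (mul_le_mul_of_nonneg_left h2' hδ.le)

private theorem qpe_st : ∀ i : Fin 6, dn (st i) = 1 := by decide

private theorem qpe_st1 : ∀ i : Fin 6, |(st i).1| ≤ 1 := by decide

private theorem qpe_st2 : ∀ i : Fin 6, |(st i).2| ≤ 1 := by decide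

theorem g_incr {g : ℝ × ℝ → ℝ} (hg : ContDiff ℝ ∞ g) (hc : HasCompactSupport g) :
    ∃ C : ℝ, 0 ≤ C ∧ ∀ δ : ℝ, 0 < δ →
      (∀ x i, |g (lt δ (x + st i)) - g (lt δ x)| ≤ C * δ) ∧
      ∀ (z x : ℤ × ℤ) (i : Fin 6), |dc (dGu (fun y => g (lt δ y)) z) i -
        (g (lt δ (x + st i)) - g (lt δ x))| ≤ C * ((dn (x - z) : ℝ) + 1) * δ ^ 2 := by
  obtain ⟨C1, hC1⟩ := ContDiff.lipschitzWith_of_hasCompactSupport hc hg (by simp)
  have hg' : ContDiff ℝ ∞ (fderiv ℝ g) := hg.fderiv_right (by simp)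
  obtain ⟨C2, hC2⟩ := ContDiff.lipschitzWith_of_hasCompactSupport (hc.fderiv ℝ) hg' (by simp)
  have hM : ∀ p q : ℝ × ℝ, ‖fderiv ℝ g p - fderiv ℝ g q‖ ≤ (C2 : ℝ) * ‖p - q‖ := by
    intro p q
    have := hC2.dist_le_mul p q
    rwa [dist_eq_norm, dist_eq_norm] at this
  have hd : Differentiable ℝ g := hg.differentiable (by simp)
  refine ⟨C1 + 4 * C2, by positivity, ?_⟩
  intro δ hδ
  have hst : ∀ i, ‖lt δ (st i)‖ ≤ δ := by
    intro i
    have h1 := qpe_norm hδ (st i)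
    rw [qpe_st] at h1
    simpa using h1
  have hC1' : (0 : ℝ) ≤ C1 := C1.2
  have hC2' : (0 : ℝ) ≤ C2 := C2.2
  refine ⟨?_, ?_⟩
  · intro x i
    have h1 := hC1.dist_le_mul (lt δ (x + st i)) (lt δ x)
    rw [Real.dist_eq, dist_eq_norm, qpe_lt, add_sub_cancel_left] at h1
    have h2 := hst i
    rw [qpe_lt]
    calc _ ≤ (C1 : ℝ) * ‖lt δ (st i)‖ := h1
      _ ≤ C1 * δ := mul_le_mul_of_nonneg_left h2 hC1'
      _ ≤ (C1 + 4 * C2) * δ := by nlinarith
  · intro z x i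
    -- the four Taylor estimates
    have hT : ∀ (p : ℤ × ℤ) (j : Fin 6), |g (lt δ (p + st j)) - g (lt δ p) -
        fderiv ℝ g (lt δ p) (lt δ (st j))| ≤ C2 * δ ^ 2 := by
      intro p j
      rw [qpe_lt]
      refine (qpe_taylor hd hM hC2' (lt δ p) (lt δ (st j))).trans ?_
      refine mul_le_mul_of_nonneg_left ?_ hC2'
      exact pow_le_pow_left₀ (norm_nonneg _) (hst j) 2
    have h0 := hT z 0
    have h1 := hT z 1
    have hx := hT x i
    have hdd : |fderiv ℝ g (lt δ z) (lt δ (st i)) - fderiv ℝ g (lt δ x) (lt δ (st i))| ≤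
        C2 * (dn (x - z) : ℝ) * δ ^ 2 := by
      have h2 : fderiv ℝ g (lt δ z) (lt δ (st i)) - fderiv ℝ g (lt δ x) (lt δ (st i)) =
          (fderiv ℝ g (lt δ z) - fderiv ℝ g (lt δ x)) (lt δ (st i)) := by simp
      rw [h2]
      refine ((fderiv ℝ g (lt δ z) - fderiv ℝ g (lt δ x)).le_opNorm _).trans ?_
      have h3 : ‖fderiv ℝ g (lt δ z) - fderiv ℝ g (lt δ x)‖ ≤ C2 * (δ * (dn (x - z) : ℝ)) := by
        rw [norm_sub_rev]
        refine (hM _ _).trans (mul_le_mul_of_nonneg_left ?_ hC2')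
        have h4 : lt δ x - lt δ z = lt δ (x - z) := by
          rw [sub_eq_iff_eq_add, ← qpe_lt, sub_add_cancel]
        rw [h4]
        exact qpe_norm hδ _
      have hdn : (0 : ℝ) ≤ (dn (x - z) : ℝ) := by
        have : 0 ≤ dn (x - z) := (abs_nonneg _).trans (le_max_left _ _)
        exact_mod_cast this
      calc _ ≤ C2 * (δ * (dn (x - z) : ℝ)) * δ :=
            mul_le_mul h3 (hst i) (norm_nonneg _) (by positivity)
        _ = C2 * (dn (x - z) : ℝ) * δ ^ 2 := by ring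
    have hlin : fderiv ℝ g (lt δ z) (lt δ (st i)) =
        fderiv ℝ g (lt δ z) (lt δ (st 0)) * ((st i).1 : ℝ) +
          fderiv ℝ g (lt δ z) (lt δ (st 1)) * ((st i).2 : ℝ) := by
      have h2 : lt δ (st i) = ((st i).1 : ℝ) • lt δ (st 0) + ((st i).2 : ℝ) • lt δ (st 1) := by
        ext <;> simp [lt, st] <;> ring
      rw [h2, map_add, map_smul, map_smul, smul_eq_mul, smul_eq_mul]
      ring
    have hs1 : |((st i).1 : ℝ)| ≤ 1 := by exact_mod_cast qpe_st1 i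
    have hs2 : |((st i).2 : ℝ)| ≤ 1 := by exact_mod_cast qpe_st2 i
    have hid : dc (dGu (fun y => g (lt δ y)) z) i - (g (lt δ (x + st i)) - g (lt δ x)) =
        (g (lt δ (z + st 0)) - g (lt δ z) - fderiv ℝ g (lt δ z) (lt δ (st 0))) * ((st i).1 : ℝ) +
        (g (lt δ (z + st 1)) - g (lt δ z) - fderiv ℝ g (lt δ z) (lt δ (st 1))) * ((st i).2 : ℝ) +
        (fderiv ℝ g (lt δ z) (lt δ (st i)) - fderiv ℝ g (lt δ x) (lt δ (st i))) -
        (g (lt δ (x + st i)) - g (lt δ x) - fderiv ℝ g (lt δ x) (lt δ (st i))) := by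
      rw [hlin]
      simp only [dc, dGu]
      ring
    rw [hid]
    have e1 : |(g (lt δ (z + st 0)) - g (lt δ z) - fderiv ℝ g (lt δ z) (lt δ (st 0))) *
        ((st i).1 : ℝ)| ≤ C2 * δ ^ 2 := by
      rw [abs_mul]
      calc _ ≤ C2 * δ ^ 2 * 1 := mul_le_mul h0 hs1 (abs_nonneg _) (by positivity)
        _ = _ := mul_one _
    have e2 : |(g (lt δ (z + st 1)) - g (lt δ z) - fderiv ℝ g (lt δ z) (lt δ (st 1))) *
        ((st i).2 : ℝ)| ≤ C2 * δ ^ 2 := by
      rw [abs_mul]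
      calc _ ≤ C2 * δ ^ 2 * 1 := mul_le_mul h1 hs2 (abs_nonneg _) (by positivity)
        _ = _ := mul_one _
    have hdn : (0 : ℝ) ≤ (dn (x - z) : ℝ) := by
      have : 0 ≤ dn (x - z) := (abs_nonneg _).trans (le_max_left _ _)
      exact_mod_cast this
    have e3 : C2 * δ ^ 2 + C2 * δ ^ 2 + C2 * (dn (x - z) : ℝ) * δ ^ 2 + C2 * δ ^ 2 ≤
        (C1 + 4 * C2) * ((dn (x - z) : ℝ) + 1) * δ ^ 2 := by
      have f1 : 0 ≤ C1 * ((dn (x - z) : ℝ) + 1) * δ ^ 2 := by positivity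
      have f2 : 0 ≤ C2 * (dn (x - z) : ℝ) * δ ^ 2 := by positivity
      have f3 : 0 ≤ C2 * δ ^ 2 := by positivity
      nlinarith
    refine le_trans ?_ e3
    have a1 := abs_add_le
      ((g (lt δ (z + st 0)) - g (lt δ z) - fderiv ℝ g (lt δ z) (lt δ (st 0))) * ((st i).1 : ℝ))
      ((g (lt δ (z + st 1)) - g (lt δ z) - fderiv ℝ g (lt δ z) (lt δ (st 1))) * ((st i).2 : ℝ))
    have a2 := abs_add_le
      ((g (lt δ (z + st 0)) - g (lt δ z) - fderiv ℝ g (lt δ z) (lt δ (st 0))) * ((st i).1 : ℝ) +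
      (g (lt δ (z + st 1)) - g (lt δ z) - fderiv ℝ g (lt δ z) (lt δ (st 1))) * ((st i).2 : ℝ))
      (fderiv ℝ g (lt δ z) (lt δ (st i)) - fderiv ℝ g (lt δ x) (lt δ (st i)))
    refine (abs_sub _ _).trans ?_
    linarith

private theorem qpe_box {r : ℝ} (hr : 0 ≤ r) {D : Finset (ℤ × ℤ)}
    (h : ∀ x ∈ D, |(x.1 : ℝ)| ≤ r ∧ |(x.2 : ℝ)| ≤ r) : (D.card : ℝ) ≤ (2 * r + 1) ^ 2 := by
  have h1 : D ⊆ Finset.Icc (-⌊r⌋) ⌊r⌋ ×ˢ Finset.Icc (-⌊r⌋) ⌊r⌋ := by
    intro x hx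
    obtain ⟨ha, hb⟩ := h x hx
    rw [abs_le] at ha hb
    rw [Finset.mem_product, Finset.mem_Icc, Finset.mem_Icc]
    have key : ∀ a : ℤ, (-r ≤ (a : ℝ) ∧ (a : ℝ) ≤ r) → -⌊r⌋ ≤ a ∧ a ≤ ⌊r⌋ := by
      intro a ha
      refine ⟨?_, Int.le_floor.mpr ha.2⟩
      have h3 : (-a : ℤ) ≤ ⌊r⌋ := Int.le_floor.mpr (by push_cast; linarith [ha.1])
      omega
    exact ⟨key _ ha, key _ hb⟩
  have h2 := Finset.card_le_card h1
  rw [Finset.card_product, Int.card_Icc] at h2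
  have h0 : 0 ≤ ⌊r⌋ := Int.floor_nonneg.mpr hr
  have h3 : (((⌊r⌋ + 1 - -⌊r⌋).toNat : ℕ) : ℝ) ≤ 2 * r + 1 := by
    have h4 : (((⌊r⌋ + 1 - -⌊r⌋).toNat : ℕ) : ℤ) = 2 * ⌊r⌋ + 1 := by
      rw [Int.toNat_of_nonneg (by omega)]
      ring
    have h5 : (((⌊r⌋ + 1 - -⌊r⌋).toNat : ℕ) : ℝ) = 2 * (⌊r⌋ : ℝ) + 1 := by
      exact_mod_cast h4
    rw [h5]
    linarith [Int.floor_le r]
  calc (D.card : ℝ) ≤ (((⌊r⌋ + 1 - -⌊r⌋).toNat * (⌊r⌋ + 1 - -⌊r⌋).toNat : ℕ) : ℝ) := by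
        exact_mod_cast h2
    _ = (((⌊r⌋ + 1 - -⌊r⌋).toNat : ℕ) : ℝ) * (((⌊r⌋ + 1 - -⌊r⌋).toNat : ℕ) : ℝ) := by
        push_cast
        ring
    _ ≤ (2 * r + 1) * (2 * r + 1) := mul_le_mul h3 h3 (Nat.cast_nonneg _) (by positivity)
    _ = (2 * r + 1) ^ 2 := by ring

private theorem qpe_coord {δ r : ℝ} (hδ : 0 < δ) {x : ℤ × ℤ} (h : ‖lt δ x‖ ≤ r) :
    |(x.1 : ℝ)| ≤ r / δ ∧ |(x.2 : ℝ)| ≤ r / δ := by
  have h1 : ‖δ * (x.1 : ℝ)‖ ≤ r := (norm_fst_le (lt δ x)).trans h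
  have h2 : ‖δ * (x.2 : ℝ)‖ ≤ r := (norm_snd_le (lt δ x)).trans h
  rw [Real.norm_eq_abs, abs_mul, abs_of_pos hδ] at h1 h2
  exact ⟨by rw [le_div_iff₀ hδ]; linarith, by rw [le_div_iff₀ hδ]; linarith⟩

theorem lt_card {Kc : Set (ℝ × ℝ)} (hK : IsCompact Kc) : ∃ C : ℝ, 0 ≤ C ∧ ∀ δ : ℝ, 0 < δ →
    δ ≤ 1 → ∀ A : Finset (ℤ × ℤ), (∀ x ∈ A, lt δ x ∈ Kc) → (A.card : ℝ) ≤ C / δ ^ 2 := by
  obtain ⟨C0, hC0⟩ := hK.isBounded.exists_norm_le
  set C1 : ℝ := max C0 0 with hC1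
  have hC1' : 0 ≤ C1 := le_max_right _ _
  refine ⟨(2 * C1 + 1) ^ 2, by positivity, ?_⟩
  intro δ hδ hδ1 A hA
  have h1 : (A.card : ℝ) ≤ (2 * (C1 / δ) + 1) ^ 2 :=
    qpe_box (by positivity) (fun x hx => qpe_coord hδ ((hC0 _ (hA x hx)).trans (le_max_left _ _)))
  refine h1.trans ?_
  rw [← div_pow]
  refine pow_le_pow_left₀ (by positivity) ?_ 2
  have h2 : 1 ≤ 1 / δ := by
    rw [le_div_iff₀ hδ]
    linarith
  calc 2 * (C1 / δ) + 1 ≤ 2 * (C1 / δ) + 1 / δ := by linarith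
    _ = (2 * C1 + 1) / δ := by ring

theorem lt_ex {Kc : Set (ℝ × ℝ)} (hK : IsCompact Kc) {δ : ℝ} (hδ : 0 < δ) :
    ∃ A : Finset (ℤ × ℤ), ∀ x, x ∈ A ↔ lt δ x ∈ Kc := by
  obtain ⟨C0, hC0⟩ := hK.isBounded.exists_norm_le
  have hfin : {x : ℤ × ℤ | lt δ x ∈ Kc}.Finite := by
    refine Set.Finite.subset
      (Finset.finite_toSet (Finset.Icc (-⌈C0 / δ⌉) ⌈C0 / δ⌉ ×ˢ Finset.Icc (-⌈C0 / δ⌉) ⌈C0 / δ⌉)) ?_
    intro x hx
    obtain ⟨h1, h2⟩ := qpe_coord hδ (hC0 _ hx)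
    rw [abs_le] at h1 h2
    rw [Finset.mem_coe, Finset.mem_product, Finset.mem_Icc, Finset.mem_Icc]
    have key : ∀ a : ℤ, (-(C0 / δ) ≤ (a : ℝ) ∧ (a : ℝ) ≤ C0 / δ) →
        -⌈C0 / δ⌉ ≤ a ∧ a ≤ ⌈C0 / δ⌉ := by
      intro a ha
      have h3 : C0 / δ ≤ (⌈C0 / δ⌉ : ℝ) := Int.le_ceil _
      constructor
      · have h4 : (-(⌈C0 / δ⌉ : ℤ) : ℝ) ≤ (a : ℝ) := by linarith [ha.1]
        exact_mod_cast h4
      · have h4 : (a : ℝ) ≤ ((⌈C0 / δ⌉ : ℤ) : ℝ) := by linarith [ha.2]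
        exact_mod_cast h4
    exact ⟨key _ h1, key _ h2⟩
  exact ⟨hfin.toFinset, fun x => by simp⟩
/- END qpe -/

/- MODULE qpf
THE UPPER BOUND.  Compact neighbourhoods `tsupport g ⊂ int K1 ⊂ K1 ⊂ int K2 ⊂ K2 ⊂ U`.  Given `ε`
choose `l` (then `m = Nat.sqrt l`) such that `al l d ≤ (σ + ε') qd d` (`Lim`), `(9/10)^m` and
`1 - card inn / card bx` (`inn_frac`) are small; then `δ` small: `A` = the lattice points of `K1`,
`S` = those of `K2`, `κ1 = C δ`, `κ2 = C (2 l + 1) δ^2` (`g_incr`, `bx_ba`), `up1`.  The error is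
`≤ C' (κ1 / δ) (small + κ2 / δ)`.  Main term: `Th_quad` and `avg_lem` for
`Th_Lg (bx l) m (1,0)`, `(0,1)`, `(1,1)` (`Th_rs`) with `|dGu z| ≤ C δ`:
`≤ ∑_{z ∈ A} al l (dGu z) + C δ^2 ∑_z (three absolute values)` (`tB_quad`), and
`∑_{z ∈ A} qd (dGu z) ≤ EG D G + C δ` (`qd = (1/2) ∑ dc^2`, `|dc (dGu z) i - G' z i| ≤ C δ^2`,
`A ⊆ D`). -/
/-- expectation of the local functional at `z` -/
private def qpf_I (l m : ℕ) (D : Finset (ℤ × ℤ)) (b : ℤ × ℤ → ℝ) (z : ℤ × ℤ) (d : ℝ × ℝ) : ℝ :=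
  ∫ h, Th (bx l) m d (g0 (nb (bx l)) (rs (nb (bx l)) z (gl D b h))) ∂(Mu D b)

private theorem qpf_split {l m : ℕ} {D : Finset (ℤ × ℤ)} {b : ℤ × ℤ → ℝ}
    (hb : ∀ z, |b z| ≤ 1 / 2) (z : ℤ × ℤ) (d : ℝ × ℝ) :
    ∫ h, Th (bx l) m d (sf z (gl D b h)) ∂(Mu D b) =
      d.1 ^ 2 * qpf_I l m D b z (1, 0) + d.2 ^ 2 * qpf_I l m D b z (0, 1) +
      d.1 * d.2 * (qpf_I l m D b z (1, 1) - qpf_I l m D b z (1, 0) - qpf_I l m D b z (0, 1)) := by
  have hprob := Mu_prob (D := D) hb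
  have hint : ∀ d' : ℝ × ℝ, Integrable (fun h : D → ℝ =>
      Th (bx l) m d' (g0 (nb (bx l)) (rs (nb (bx l)) z (gl D b h)))) (Mu D b) := by
    intro d'
    have hL := Th_Lg (bx l) m d'
    obtain ⟨C, hC⟩ := hL.bd
    refine Integrable.of_bound ?_ C (Eventually.of_forall (fun h => ?_))
    · exact (hL.ms.comp (rs_meas D (nb (bx l)) b z)).aestronglyMeasurable
    · rw [Real.norm_eq_abs]
      exact hC _
  have h1 : ∀ h : D → ℝ, Th (bx l) m d (sf z (gl D b h)) =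
      d.1 ^ 2 * Th (bx l) m (1, 0) (g0 (nb (bx l)) (rs (nb (bx l)) z (gl D b h))) +
      d.2 ^ 2 * Th (bx l) m (0, 1) (g0 (nb (bx l)) (rs (nb (bx l)) z (gl D b h))) +
      d.1 * d.2 * (Th (bx l) m (1, 1) (g0 (nb (bx l)) (rs (nb (bx l)) z (gl D b h))) -
        Th (bx l) m (1, 0) (g0 (nb (bx l)) (rs (nb (bx l)) z (gl D b h))) -
        Th (bx l) m (0, 1) (g0 (nb (bx l)) (rs (nb (bx l)) z (gl D b h)))) := by
    intro h
    rw [Th_rs, Th_quad]
  simp only [h1]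
  rw [integral_add, integral_add, integral_const_mul, integral_const_mul, integral_const_mul,
    integral_sub, integral_sub]
  · rfl
  · exact hint _
  · exact hint _
  · exact (hint _).sub (hint _)
  · exact hint _
  · exact (hint _).const_mul _
  · exact (hint _).const_mul _
  · exact ((hint _).const_mul _).add ((hint _).const_mul _)
  · exact (((hint _).sub (hint _)).sub (hint _)).const_mul _

private theorem qpf_quad {r x y a1 a2 a3 c1 c2 c3 : ℝ} (hx : |x| ≤ r) (hy : |y| ≤ r) :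
    x ^ 2 * a1 + y ^ 2 * a2 + x * y * (a3 - a1 - a2) ≤
      x ^ 2 * c1 + y ^ 2 * c2 + x * y * (c3 - c1 - c2) +
        2 * r ^ 2 * (|a1 - c1| + |a2 - c2| + |a3 - c3|) := by
  have hr : 0 ≤ r := (abs_nonneg _).trans hx
  have h1 : x ^ 2 ≤ r ^ 2 := by
    rw [← sq_abs]
    exact pow_le_pow_left₀ (abs_nonneg _) hx 2
  have h2 : y ^ 2 ≤ r ^ 2 := by
    rw [← sq_abs]
    exact pow_le_pow_left₀ (abs_nonneg _) hy 2
  have h3 : |x * y| ≤ r ^ 2 := by
    rw [abs_mul, pow_two]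
    exact mul_le_mul hx hy (abs_nonneg _) hr
  have e1 : x ^ 2 * (a1 - c1) ≤ r ^ 2 * |a1 - c1| :=
    (mul_le_mul_of_nonneg_left (le_abs_self _) (sq_nonneg _)).trans
      (mul_le_mul_of_nonneg_right h1 (abs_nonneg _))
  have e2 : y ^ 2 * (a2 - c2) ≤ r ^ 2 * |a2 - c2| :=
    (mul_le_mul_of_nonneg_left (le_abs_self _) (sq_nonneg _)).trans
      (mul_le_mul_of_nonneg_right h2 (abs_nonneg _))
  have e3 : ∀ t : ℝ, x * y * t ≤ r ^ 2 * |t| := by
    intro t
    calc x * y * t ≤ |x * y * t| := le_abs_self _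
      _ = |x * y| * |t| := abs_mul _ _
      _ ≤ r ^ 2 * |t| := mul_le_mul_of_nonneg_right h3 (abs_nonneg _)
  have e4 := e3 (a3 - c3)
  have e5 := e3 (c1 - a1)
  have e6 := e3 (c2 - a2)
  rw [abs_sub_comm c1 a1] at e5
  rw [abs_sub_comm c2 a2] at e6
  have e7 : 0 ≤ r ^ 2 * |a3 - c3| := by positivity
  nlinarith

/-- the square of the approximate gradient -/
private theorem qpf_sq {C δ u v : ℝ} (hC : 0 ≤ C) (hδ : 0 < δ) (hδ1 : δ ≤ 1)
    (hv : |v| ≤ C * δ) (huv : |u - v| ≤ C * δ ^ 2) :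
    u ^ 2 ≤ v ^ 2 + 3 * C ^ 2 * δ ^ 3 ∧ u ^ 2 ≤ 4 * C ^ 2 * δ ^ 2 := by
  have h0 : C * δ ^ 2 ≤ C * δ := by
    have : δ ^ 2 ≤ δ := by nlinarith
    exact mul_le_mul_of_nonneg_left this hC
  have hCδ : 0 ≤ C * δ := by positivity
  have hu : |u| ≤ 2 * (C * δ) := by
    have h1 : |u| ≤ |u - v| + |v| := by
      have := abs_add_le (u - v) v
      rwa [sub_add_cancel] at this
    linarith
  constructor
  · have h1 : u ^ 2 - v ^ 2 = (u - v) * (u + v) := by ring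
    have h2 : |u + v| ≤ 3 * (C * δ) := (abs_add_le _ _).trans (by linarith)
    have h3 : (u - v) * (u + v) ≤ C * δ ^ 2 * (3 * (C * δ)) := by
      calc (u - v) * (u + v) ≤ |(u - v) * (u + v)| := le_abs_self _
        _ = |u - v| * |u + v| := abs_mul _ _
        _ ≤ C * δ ^ 2 * (3 * (C * δ)) := mul_le_mul huv h2 (abs_nonneg _) (by positivity)
    nlinarith
  · rw [← sq_abs]
    calc |u| ^ 2 ≤ (2 * (C * δ)) ^ 2 := pow_le_pow_left₀ (abs_nonneg _) hu 2
      _ = 4 * C ^ 2 * δ ^ 2 := by ring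

private theorem qpf_a {n : ℝ} (h : 1 ≤ n) : 4 * (n + 2) / (n * n) ≤ 12 / n := by
  rw [div_le_div_iff₀ (by positivity) (by positivity)]
  nlinarith

private theorem qpf_err {Cu Cg c2 δ ε2 ε e1 P F L s B2 : ℝ} (hCu : 0 ≤ Cu) (hCg : 0 ≤ Cg)
    (hδ : 0 < δ) (hε2' : 0 < ε2) (hs0 : 0 ≤ s) (hs : s ≤ c2 / δ ^ 2) (hL : 0 ≤ L) (hc2 : 0 ≤ c2)
    (hB2 : B2 = Cu * c2 * Cg ^ 2) (hP : P ≤ ε2) (hF : F ≤ ε2) (h1' : (B2 + 1) * ε2 = ε / 16)
    (h2' : (B2 * L + 1) * e1 = ε / 8) (hδe : δ ≤ e1) :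
    Cu * s * (Cg * δ) * (Cg * δ * (P + F) + Cg * L * δ ^ 2) ≤ ε / 8 + ε / 8 := by
  have hB2' : 0 ≤ B2 := by rw [hB2]; positivity
  have h1 : Cg * δ * (P + F) + Cg * L * δ ^ 2 ≤ Cg * δ * (2 * ε2 + L * δ) := by
    have h2 : Cg * δ * (P + F) ≤ Cg * δ * (2 * ε2) :=
      mul_le_mul_of_nonneg_left (by linarith) (by positivity)
    have h3 : Cg * δ * (2 * ε2 + L * δ) = Cg * δ * (2 * ε2) + Cg * L * δ ^ 2 := by ring
    linarith
  have h0 : 0 ≤ c2 / δ ^ 2 := by positivity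
  have h2 : Cu * s * (Cg * δ) ≤ Cu * (c2 / δ ^ 2) * (Cg * δ) :=
    mul_le_mul_of_nonneg_right (mul_le_mul_of_nonneg_left hs hCu) (by positivity)
  have hX : 0 ≤ Cg * δ * (2 * ε2 + L * δ) := by positivity
  have h4 : Cu * (c2 / δ ^ 2) * (Cg * δ) * (Cg * δ * (2 * ε2 + L * δ)) =
      2 * B2 * ε2 + B2 * L * δ := by
    rw [hB2]
    field_simp
  have h5 : 2 * B2 * ε2 ≤ ε / 8 := by nlinarith
  have h6 : B2 * L * δ ≤ ε / 8 := by
    have h7 : B2 * L * δ ≤ (B2 * L + 1) * e1 :=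
      mul_le_mul (by linarith) hδe hδ.le (by positivity)
    linarith
  have h3 : Cu * s * (Cg * δ) * (Cg * δ * (P + F) + Cg * L * δ ^ 2) ≤
      Cu * (c2 / δ ^ 2) * (Cg * δ) * (Cg * δ * (2 * ε2 + L * δ)) :=
    (mul_le_mul_of_nonneg_left h1 (by positivity)).trans
      (mul_le_mul_of_nonneg_right h2 hX)
  linarith

theorem upper {σ : ℝ} (h0 : 0 ≤ σ) (hσ : Lim σ) : Uv σ := by
  intro g hg hgc U hU hgU R hR ε hε
  obtain ⟨K1, hK1, hK01, hK1U⟩ := exists_compact_between hgc.isCompact hU hgU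
  obtain ⟨K2, hK2, hK12, hK2U⟩ := exists_compact_between hK1 hU hK1U
  obtain ⟨ρ1, hρ1, ht1⟩ := hgc.isCompact.exists_thickening_subset_open isOpen_interior hK01
  obtain ⟨ρ2, hρ2, ht2⟩ := hK1.exists_thickening_subset_open isOpen_interior hK12
  obtain ⟨ρ3, hρ3, ht3⟩ := hK2.exists_thickening_subset_open hU hK2U
  obtain ⟨Cg, hCg, hgi⟩ := g_incr hg hgc
  obtain ⟨Cu, hCu, hup⟩ := up1
  obtain ⟨c1, hc1, hcard1⟩ := lt_card hK1
  obtain ⟨c2, hc2, hcard2⟩ := lt_card hK2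
  set B1 : ℝ := 12 * Cg ^ 2 * c1 with hB1
  have hB1' : 0 ≤ B1 := by positivity
  set B2 : ℝ := Cu * c2 * Cg ^ 2 with hB2
  have hB2' : 0 ≤ B2 := by positivity
  obtain ⟨l0, hl0⟩ := hσ (ε / (8 * (B1 + 1))) (by positivity)
  set ε2 : ℝ := ε / (16 * (B2 + 1)) with hε2
  have hε2' : 0 < ε2 := by positivity
  obtain ⟨n1, hn1⟩ := exists_pow_lt_of_lt_one hε2' (by norm_num : (9 / 10 : ℝ) < 1)
  obtain ⟨n2, hn2⟩ := exists_nat_gt (12 / ε2)
  set n : ℕ := l0 + n1 + n2 + 1 with hn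
  set l : ℕ := n * n with hl
  have hsq : Nat.sqrt l = n := by rw [hl]; exact Nat.sqrt_eq n
  have hn0 : 1 ≤ n := by omega
  have hlpos : 0 < l := by positivity
  have hll0 : l0 ≤ l := by
    have : n ≤ n * n := Nat.le_mul_self n
    omega
  have hnr : (1 : ℝ) ≤ n := by exact_mod_cast hn0
  have hlr : (l : ℝ) = (n : ℝ) * n := by rw [hl]; push_cast; ring
  have hlr1 : (1 : ℝ) ≤ (l : ℝ) ^ 2 := by
    have : (1 : ℝ) ≤ l := by exact_mod_cast hlpos
    exact one_le_pow₀ this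
  have hpow : (9 / 10 : ℝ) ^ n ≤ ε2 := by
    have : (9 / 10 : ℝ) ^ n ≤ (9 / 10 : ℝ) ^ n1 :=
      pow_le_pow_of_le_one (by norm_num) (by norm_num) (by omega)
    linarith
  have hfrac : 1 - ((inn (bx l) (n + 2)).card : ℝ) / (bx l).card ≤ ε2 := by
    have h1 := inn_frac l hlpos
    rw [hsq] at h1
    refine h1.trans ?_
    have h2 : 4 * ((n : ℝ) + 2) / l ≤ 12 / n := by
      rw [hlr]
      exact qpf_a hnr
    have h3 : (12 : ℝ) / n ≤ ε2 := by
      have h4 : (n2 : ℝ) ≤ n := by exact_mod_cast (by omega : n2 ≤ n)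
      have h5 : 12 / ε2 < n := by linarith
      rw [div_lt_iff₀ hε2'] at h5
      rw [div_le_iff₀ (by linarith)]
      linarith
    linarith
  set ε3 : ℝ := ε / (48 * (Cg ^ 2 + 1)) with hε3
  have hε3' : 0 < ε3 := by positivity
  obtain ⟨δ1, hδ1, hav1⟩ := avg_lem (Th_Lg (bx l) n (1, 0)) hK1 hU hK1U hR hε3'
  obtain ⟨δ2, hδ2, hav2⟩ := avg_lem (Th_Lg (bx l) n (0, 1)) hK1 hU hK1U hR hε3'
  obtain ⟨δ3, hδ3, hav3⟩ := avg_lem (Th_Lg (bx l) n (1, 1)) hK1 hU hK1U hR hε3'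
  set e1 : ℝ := ε / (8 * (B2 * (2 * l + 1) + 1)) with he1
  set e2 : ℝ := ε / (8 * (9 * σ * Cg ^ 2 * c1 + 1)) with he2
  set e3 : ℝ := min ρ1 (min ρ2 ρ3) / (2 * l + 2) with he3
  have he1' : 0 < e1 := by positivity
  have he2' : 0 < e2 := by positivity
  have he3' : 0 < e3 := by positivity
  refine ⟨min 1 (min δ1 (min δ2 (min δ3 (min e1 (min e2 e3))))), by positivity, ?_⟩
  intro δ hδ hδ0 D hD hDR b hb
  simp only [lt_min_iff] at hδ0
  obtain ⟨hδa, hδb, hδc, hδd, hδe, hδf, hδg⟩ := hδ0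
  obtain ⟨A, hA⟩ := lt_ex hK1 hδ
  obtain ⟨S, hS⟩ := lt_ex hK2 hδ
  set G : ℤ × ℤ → ℝ := fun x => g (lt δ x) with hG
  obtain ⟨hG1, hG2⟩ := hgi δ hδ
  have hδl : δ * (2 * l + 2) < min ρ1 (min ρ2 ρ3) := by
    rwa [he3, lt_div_iff₀ (by positivity)] at hδg
  have hnl : (n : ℝ) ≤ l := by
    rw [hlr]
    exact le_mul_of_one_le_left (by linarith) hnr
  -- nearby points
  have hnear : ∀ (x z : ℤ × ℤ) (r : ℝ), (dn (z - x) : ℝ) ≤ r → r ≤ 2 * l + 1 →
      dist (lt δ z) (lt δ x) < min ρ1 (min ρ2 ρ3) := by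
    intro x z r h1 h2
    have h3 : lt δ z - lt δ x = lt δ (z - x) := by
      rw [sub_eq_iff_eq_add, ← qpe_lt, sub_add_cancel]
    rw [dist_eq_norm, h3]
    refine (qpe_norm hδ _).trans_lt ?_
    refine lt_of_le_of_lt ?_ hδl
    exact mul_le_mul_of_nonneg_left (by linarith) hδ.le
  have hdnbx : ∀ z x, x ∈ tr z (bx l) → (dn (x - z) : ℝ) ≤ 2 * l := by
    intro z x hx
    rw [mem_tr] at hx
    have h1 := mem_ba.mp (bx_ba l hx)
    rw [sub_zero] at h1
    exact_mod_cast h1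
  have hdn_symm : ∀ z x : ℤ × ℤ, dn (z - x) = dn (x - z) := by
    intro z x
    have h1 : (z - x).1 = -(x - z).1 := by simp
    have h2 : (z - x).2 = -(x - z).2 := by simp
    unfold dn
    rw [h1, h2, abs_neg, abs_neg, ← neg_add, abs_neg]
  have hAD : A ⊆ D := fun x hx => hD x (hK1U ((hA x).mp hx))
  have hcA : (A.card : ℝ) ≤ c1 / δ ^ 2 := hcard1 δ hδ hδa.le A (fun x hx => (hA x).mp hx)
  have hcS : (S.card : ℝ) ≤ c2 / δ ^ 2 := hcard2 δ hδ hδa.le S (fun x hx => (hS x).mp hx)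
  have hH2 : ∀ z ∈ A, ∀ x ∈ tr z (bx l), x ∈ S ∧
      ∀ i, |dc (dGu G z) i - (G (x + st i) - G x)| ≤ Cg * (2 * l + 1) * δ ^ 2 := by
    intro z hz x hx
    have h1 := hdnbx z x hx
    refine ⟨?_, ?_⟩
    · rw [hS]
      apply interior_subset
      apply ht2
      rw [Metric.mem_thickening_iff]
      refine ⟨lt δ z, (hA z).mp hz, ?_⟩
      exact (hnear z x _ h1 (by linarith)).trans_le ((min_le_right _ _).trans (min_le_left _ _))
    · intro i
      refine (hG2 z x i).trans ?_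
      refine mul_le_mul_of_nonneg_right (mul_le_mul_of_nonneg_left ?_ hCg) (by positivity)
      linarith
  have hH3 : ∀ x i, G (x + st i) ≠ G x → x ∈ S ∧ ∀ z, x ∈ tr z (bx l) → z ∈ A := by
    intro x i hne
    -- a point of the support near x
    obtain ⟨y, hy, hyx⟩ : ∃ y : ℤ × ℤ, lt δ y ∈ tsupport g ∧ dn (y - x) ≤ 1 := by
      by_contra hc
      push Not at hc
      have h1 : g (lt δ x) = 0 := by
        by_contra h2
        have h3 := hc x (subset_tsupport g h2)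
        rw [sub_self] at h3
        simp [dn] at h3
      have h2 : g (lt δ (x + st i)) = 0 := by
        by_contra h2
        have h3 := hc (x + st i) (subset_tsupport g h2)
        rw [add_sub_cancel_left, qpe_st] at h3
        exact absurd h3 (lt_irrefl _)
      apply hne
      simp only [hG]
      rw [h1, h2]
    have hyx' : (dn (x - y) : ℝ) ≤ 1 := by
      rw [hdn_symm]
      exact_mod_cast hyx
    have hl0' : (0 : ℝ) ≤ l := Nat.cast_nonneg _
    refine ⟨?_, ?_⟩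
    · rw [hS]
      apply interior_subset
      apply hK12
      apply interior_subset
      apply ht1
      rw [Metric.mem_thickening_iff]
      exact ⟨lt δ y, hy, (hnear y x 1 hyx' (by linarith)).trans_le (min_le_left _ _)⟩
    · intro z hz
      rw [hA]
      apply interior_subset
      apply ht1
      rw [Metric.mem_thickening_iff]
      refine ⟨lt δ y, hy, (hnear y z (2 * l + 1) ?_ le_rfl).trans_le (min_le_left _ _)⟩
      have h1 := hdnbx z x hz
      have h2 : dn (z - y) ≤ dn (z - x) + dn (x - y) := by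
        have e1 : (z - y).1 = (z - x).1 + (x - y).1 := by simp
        have e2 : (z - y).2 = (z - x).2 + (x - y).2 := by simp
        unfold dn
        rw [e1, e2]
        have a1 := abs_add_le (z - x).1 (x - y).1
        have a2 := abs_add_le (z - x).2 (x - y).2
        have a3 := abs_add_le ((z - x).1 + (z - x).2) ((x - y).1 + (x - y).2)
        have a4 : (z - x).1 + (x - y).1 + ((z - x).2 + (x - y).2) =
          ((z - x).1 + (z - x).2) + ((x - y).1 + (x - y).2) := by ring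
        rw [a4]
        omega
      have h3 : (dn (z - y) : ℝ) ≤ (dn (z - x) : ℝ) + (dn (x - y) : ℝ) := by exact_mod_cast h2
      rw [hdn_symm z x] at h3
      linarith
  have hHD : ∀ x ∈ S, ∀ z, dn (z - x) ≤ (n : ℤ) + 1 → z ∈ D := by
    intro x hx z hz
    apply hD
    apply ht3
    rw [Metric.mem_thickening_iff]
    refine ⟨lt δ x, (hS x).mp hx, ?_⟩
    have hz' : (dn (z - x) : ℝ) ≤ (n : ℝ) + 1 := by exact_mod_cast hz
    exact (hnear x z _ hz' (by linarith)).trans_le ((min_le_right _ _).trans (min_le_right _ _))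
  have hmain := hup l n hlpos D b hb G A S (Cg * δ) (Cg * (2 * l + 1) * δ ^ 2) (by positivity)
    (by positivity) hG1 hH2 hH3 hHD
  -- the error term
  have herr : Cu * S.card * (Cg * δ) * (Cg * δ * ((9 / 10) ^ n +
      (1 - ((inn (bx l) (n + 2)).card : ℝ) / (bx l).card)) + Cg * (2 * l + 1) * δ ^ 2) ≤
      ε / 8 + ε / 8 := by
    refine qpf_err hCu hCg hδ hε2' (Nat.cast_nonneg _) hcS (by positivity) hc2 hB2 hpow hfrac
      (e1 := e1) ?_ ?_ hδe.le
    · rw [hε2]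
      field_simp
    · rw [he1]
      field_simp
  -- the main term
  set Δ : ℝ × ℝ → ℤ × ℤ → ℝ := fun d z => |qpf_I l n D b z d - tB (bx l) n d| with hΔ
  have hΔ1 : δ ^ 2 * ∑ z ∈ A, Δ (1, 0) z ≤ ε3 :=
    hav1 δ hδ hδb D hD hDR b hb A (fun x hx => (hA x).mp hx)
  have hΔ2 : δ ^ 2 * ∑ z ∈ A, Δ (0, 1) z ≤ ε3 :=
    hav2 δ hδ hδc D hD hDR b hb A (fun x hx => (hA x).mp hx)
  have hΔ3 : δ ^ 2 * ∑ z ∈ A, Δ (1, 1) z ≤ ε3 :=
    hav3 δ hδ hδd D hD hDR b hb A (fun x hx => (hA x).mp hx)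
  have hone : ∀ z ∈ A, ((l : ℝ) ^ 2)⁻¹ *
      ∫ h, Th (bx l) n (dGu G z) (sf z (gl D b h)) ∂(Mu D b) ≤
      (σ + ε / (8 * (B1 + 1))) * qd (dGu G z) +
        2 * (Cg * δ) ^ 2 * (Δ (1, 0) z + Δ (0, 1) z + Δ (1, 1) z) := by
    intro z _
    have h1 := qpf_split (l := l) (m := n) (D := D) hb z (dGu G z)
    have hx : |(dGu G z).1| ≤ Cg * δ := hG1 z 0
    have hy : |(dGu G z).2| ≤ Cg * δ := hG1 z 1
    have h2 := qpf_quad (a1 := qpf_I l n D b z (1, 0)) (a2 := qpf_I l n D b z (0, 1))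
      (a3 := qpf_I l n D b z (1, 1)) (c1 := tB (bx l) n (1, 0)) (c2 := tB (bx l) n (0, 1))
      (c3 := tB (bx l) n (1, 1)) hx hy
    rw [← h1, ← tB_quad] at h2
    have h3 : ((l : ℝ) ^ 2)⁻¹ * tB (bx l) n (dGu G z) ≤
        (σ + ε / (8 * (B1 + 1))) * qd (dGu G z) := by
      have h4 := (abs_le.mp (hl0 l hll0 (dGu G z))).2
      unfold al at h4
      rw [hsq, div_eq_inv_mul] at h4
      linarith
    have h5 : ((l : ℝ) ^ 2)⁻¹ * (2 * (Cg * δ) ^ 2 * (Δ (1, 0) z + Δ (0, 1) z + Δ (1, 1) z)) ≤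
        2 * (Cg * δ) ^ 2 * (Δ (1, 0) z + Δ (0, 1) z + Δ (1, 1) z) := by
      have h6 : 0 ≤ 2 * (Cg * δ) ^ 2 * (Δ (1, 0) z + Δ (0, 1) z + Δ (1, 1) z) := by
        have : 0 ≤ Δ (1, 0) z + Δ (0, 1) z + Δ (1, 1) z := by
          simp only [hΔ]
          positivity
        positivity
      have h7 : ((l : ℝ) ^ 2)⁻¹ ≤ 1 := inv_le_one_of_one_le₀ hlr1
      exact mul_le_of_le_one_left h6 h7
    have h8 : ((l : ℝ) ^ 2)⁻¹ * ∫ h, Th (bx l) n (dGu G z) (sf z (gl D b h)) ∂(Mu D b) ≤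
        ((l : ℝ) ^ 2)⁻¹ * (tB (bx l) n (dGu G z) +
          2 * (Cg * δ) ^ 2 * (Δ (1, 0) z + Δ (0, 1) z + Δ (1, 1) z)) :=
      mul_le_mul_of_nonneg_left h2 (by positivity)
    rw [mul_add] at h8
    linarith
  have hqd : ∀ z, qd (dGu G z) ≤ (1 / 2) * ∑ i, (G (z + st i) - G z) ^ 2 + 9 * Cg ^ 2 * δ ^ 3 ∧
      qd (dGu G z) ≤ 12 * Cg ^ 2 * δ ^ 2 := by
    intro z
    have h1 : ∀ i, (dc (dGu G z) i) ^ 2 ≤ (G (z + st i) - G z) ^ 2 + 3 * Cg ^ 2 * δ ^ 3 ∧
        (dc (dGu G z) i) ^ 2 ≤ 4 * Cg ^ 2 * δ ^ 2 := by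
      intro i
      refine qpf_sq hCg hδ hδa.le (hG1 z i) ?_
      have h2 := hG2 z z i
      rw [sub_self] at h2
      simpa [dn] using h2
    unfold qd
    constructor
    · have h3 : ∑ i, (dc (dGu G z) i) ^ 2 ≤
          ∑ i : Fin 6, ((G (z + st i) - G z) ^ 2 + 3 * Cg ^ 2 * δ ^ 3) :=
        Finset.sum_le_sum (fun i _ => (h1 i).1)
      rw [Finset.sum_add_distrib, Finset.sum_const, nsmul_eq_mul] at h3
      simp only [Finset.card_univ, Fintype.card_fin, Nat.cast_ofNat] at h3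
      linarith
    · have h3 : ∑ i, (dc (dGu G z) i) ^ 2 ≤ ∑ i : Fin 6, (4 * Cg ^ 2 * δ ^ 2) :=
        Finset.sum_le_sum (fun i _ => (h1 i).2)
      rw [Finset.sum_const, nsmul_eq_mul] at h3
      simp only [Finset.card_univ, Fintype.card_fin, Nat.cast_ofNat] at h3
      linarith
  have hcA0 : (0 : ℝ) ≤ A.card := Nat.cast_nonneg _
  have hsum1 : ∑ z ∈ A, qd (dGu G z) ≤ EG D G + 9 * Cg ^ 2 * c1 * δ := by
    have h1 : ∑ z ∈ A, qd (dGu G z) ≤ ∑ z ∈ A, ((1 / 2) * ∑ i, (G (z + st i) - G z) ^ 2 +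
        9 * Cg ^ 2 * δ ^ 3) := Finset.sum_le_sum (fun z _ => (hqd z).1)
    rw [Finset.sum_add_distrib, Finset.sum_const, nsmul_eq_mul, ← Finset.mul_sum] at h1
    have h2 : ∑ z ∈ A, ∑ i, (G (z + st i) - G z) ^ 2 ≤ ∑ z ∈ D, ∑ i, (G (z + st i) - G z) ^ 2 :=
      Finset.sum_le_sum_of_subset_of_nonneg hAD
        (fun z _ _ => Finset.sum_nonneg (fun i _ => sq_nonneg _))
    have h3 : (A.card : ℝ) * (9 * Cg ^ 2 * δ ^ 3) ≤ 9 * Cg ^ 2 * c1 * δ := by
      calc (A.card : ℝ) * (9 * Cg ^ 2 * δ ^ 3) ≤ c1 / δ ^ 2 * (9 * Cg ^ 2 * δ ^ 3) :=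
            mul_le_mul_of_nonneg_right hcA (by positivity)
        _ = 9 * Cg ^ 2 * c1 * δ := by field_simp
    unfold EG
    linarith
  have hsum2 : ∑ z ∈ A, qd (dGu G z) ≤ B1 := by
    have h1 : ∑ z ∈ A, qd (dGu G z) ≤ ∑ z ∈ A, (12 * Cg ^ 2 * δ ^ 2) :=
      Finset.sum_le_sum (fun z _ => (hqd z).2)
    rw [Finset.sum_const, nsmul_eq_mul] at h1
    calc _ ≤ (A.card : ℝ) * (12 * Cg ^ 2 * δ ^ 2) := h1
      _ ≤ c1 / δ ^ 2 * (12 * Cg ^ 2 * δ ^ 2) := mul_le_mul_of_nonneg_right hcA (by positivity)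
      _ = B1 := by rw [hB1]; field_simp
  have hmt : ((l : ℝ) ^ 2)⁻¹ * ∑ z ∈ A, ∫ h, Th (bx l) n (dGu G z) (sf z (gl D b h)) ∂(Mu D b) ≤
      σ * EG D G + ε / 8 + ε / 8 + ε / 8 := by
    rw [Finset.mul_sum]
    refine (Finset.sum_le_sum hone).trans ?_
    rw [Finset.sum_add_distrib, ← Finset.mul_sum, ← Finset.mul_sum, Finset.sum_add_distrib,
      Finset.sum_add_distrib]
    have h1 : σ * ∑ z ∈ A, qd (dGu G z) ≤ σ * EG D G + ε / 8 := by
      have h2 := mul_le_mul_of_nonneg_left hsum1 h0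
      have h3 : σ * (9 * Cg ^ 2 * c1 * δ) ≤ ε / 8 := by
        have h4 : (9 * σ * Cg ^ 2 * c1 + 1) * e2 = ε / 8 := by
          rw [he2]
          field_simp
        have h5 : 9 * σ * Cg ^ 2 * c1 * δ ≤ (9 * σ * Cg ^ 2 * c1 + 1) * e2 :=
          mul_le_mul (by linarith) hδf.le hδ.le (by positivity)
        linarith
      linarith
    have h2 : ε / (8 * (B1 + 1)) * ∑ z ∈ A, qd (dGu G z) ≤ ε / 8 := by
      have h3 : ε / (8 * (B1 + 1)) * ∑ z ∈ A, qd (dGu G z) ≤ ε / (8 * (B1 + 1)) * B1 :=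
        mul_le_mul_of_nonneg_left hsum2 (by positivity)
      have h4 : ε / (8 * (B1 + 1)) * (B1 + 1) = ε / 8 := by field_simp
      have h5 : 0 < ε / (8 * (B1 + 1)) := by positivity
      rw [mul_add, mul_one] at h4
      linarith
    have h3 : 2 * (Cg * δ) ^ 2 * (∑ z ∈ A, Δ (1, 0) z + ∑ z ∈ A, Δ (0, 1) z +
        ∑ z ∈ A, Δ (1, 1) z) ≤ ε / 8 := by
      have h4 : 2 * (Cg * δ) ^ 2 * (∑ z ∈ A, Δ (1, 0) z + ∑ z ∈ A, Δ (0, 1) z +
          ∑ z ∈ A, Δ (1, 1) z) = 2 * Cg ^ 2 * (δ ^ 2 * ∑ z ∈ A, Δ (1, 0) z +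
            δ ^ 2 * ∑ z ∈ A, Δ (0, 1) z + δ ^ 2 * ∑ z ∈ A, Δ (1, 1) z) := by ring
      rw [h4]
      have h5 : 2 * Cg ^ 2 * (δ ^ 2 * ∑ z ∈ A, Δ (1, 0) z +
            δ ^ 2 * ∑ z ∈ A, Δ (0, 1) z + δ ^ 2 * ∑ z ∈ A, Δ (1, 1) z) ≤
          2 * Cg ^ 2 * (ε3 + ε3 + ε3) := mul_le_mul_of_nonneg_left (by linarith) (by positivity)
      have h6 : (Cg ^ 2 + 1) * ε3 = ε / 48 := by
        rw [hε3]
        field_simp
      have h7 : 2 * Cg ^ 2 * (ε3 + ε3 + ε3) = 6 * ((Cg ^ 2 + 1) * ε3) - 6 * ε3 := by ring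
      rw [h7, h6] at h5
      linarith
    linarith
  linarith
/- END qpf -/

/-- THE FACTS for the trial field part -/
theorem facts : ∃ σ : ℝ, 0 ≤ σ ∧ Sl σ ∧ Uv σ := by
  obtain ⟨σ, h0, h⟩ := nu_lim
  exact ⟨σ, h0, slopes h, upper h0 h⟩

end Pool.Agent.Hmk
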