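import Pool.Agent.Hmk.Sz

/-!
# Hmk: the soft potential (PART B, first half)

`Us s` is a smooth even convex potential which tends to the hammock potential as `s → ∞`;
`Us1`, `Us2` its derivatives; `Vs` the energy.
-/

set_option autoImplicit false

open MeasureTheory Set Filter
open scoped ENNReal SchwartzMap ContDiff Topology

noncomputable section

namespace Pool.Agent.Hmk

def Us (s z : ℝ) : ℝ :=
  s / 2 * (Real.sqrt ((z - 1) ^ 2 + 1 / s ^ 4) + Real.sqrt ((z + 1) ^ 2 + 1 / s ^ 4) - 2)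

def Us1 (s z : ℝ) : ℝ :=
  s / 2 * ((z - 1) / Real.sqrt ((z - 1) ^ 2 + 1 / s ^ 4) +
    (z + 1) / Real.sqrt ((z + 1) ^ 2 + 1 / s ^ 4))

def Us2 (s z : ℝ) : ℝ :=
  s / 2 * (1 / s ^ 4) * (1 / Real.sqrt ((z - 1) ^ 2 + 1 / s ^ 4) ^ 3 +
    1 / Real.sqrt ((z + 1) ^ 2 + 1 / s ^ 4) ^ 3)

/- MODULE ua
Derivatives and growth.  `√(x^2 + ε^2) = ε (1 + (x/ε)^2)^(1/2)` and
`Function.hasTemperateGrowth_one_add_norm_sq_rpow`, composed with affine maps. -/
private theorem ua_temp {s : ℝ} (hs : 1 ≤ s) (c : ℝ) :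
    (fun z : ℝ => Real.sqrt ((z - c) ^ 2 + 1 / s ^ 4)).HasTemperateGrowth := by
  have h1 := Function.hasTemperateGrowth_one_add_norm_sq_rpow ℝ (1 / 2)
  have h2 : (fun z : ℝ => s ^ 2 * (z - c)).HasTemperateGrowth :=
    (Function.HasTemperateGrowth.const (s ^ 2)).mul
      (Function.HasTemperateGrowth.id'.sub (Function.HasTemperateGrowth.const c))
  have h3 := (Function.HasTemperateGrowth.const (E := ℝ) (1 / s ^ 2)).mul (h1.comp h2)
  have e' : (fun z : ℝ => Real.sqrt ((z - c) ^ 2 + 1 / s ^ 4)) =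
      fun z : ℝ => 1 / s ^ 2 * (1 + ‖s ^ 2 * (z - c)‖ ^ 2) ^ (1 / 2 : ℝ) := by
    funext z
    rw [← Real.sqrt_eq_rpow, Real.norm_eq_abs, sq_abs]
    have hs0 : s ≠ 0 := by linarith
    have e : (z - c) ^ 2 + 1 / s ^ 4 = (1 / s ^ 2) ^ 2 * (1 + (s ^ 2 * (z - c)) ^ 2) := by
      field_simp
      ring
    rw [e, Real.sqrt_mul (sq_nonneg _), Real.sqrt_sq (by positivity)]
  rw [e']
  exact h3

private theorem ua_pos {s : ℝ} (hs : 1 ≤ s) (z : ℝ) : 0 < z ^ 2 + 1 / s ^ 4 := by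
  have h1 : 0 < 1 / s ^ 4 := by positivity
  have h2 := sq_nonneg z
  linarith

private theorem ua_der {s : ℝ} (hs : 1 ≤ s) (c z : ℝ) :
    HasDerivAt (fun z : ℝ => Real.sqrt ((z - c) ^ 2 + 1 / s ^ 4))
      ((z - c) / Real.sqrt ((z - c) ^ 2 + 1 / s ^ 4)) z := by
  have h1 : HasDerivAt (fun z : ℝ => (z - c) ^ 2 + 1 / s ^ 4) (2 * (z - c)) z := by
    have h2 := (((hasDerivAt_id' z).sub_const c).pow 2).add_const (1 / s ^ 4)
    have e : 2 * (z - c) = ((2 : ℕ) : ℝ) * (z - c) ^ (2 - 1) * 1 := by norm_num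
    rw [e]
    exact h2
  have h2 := h1.sqrt (ua_pos hs (z - c)).ne'
  rw [← mul_div_mul_left (z - c) _ (by norm_num : (2 : ℝ) ≠ 0)]
  exact h2

private theorem ua_der2 {s : ℝ} (hs : 1 ≤ s) (c z : ℝ) :
    HasDerivAt (fun z : ℝ => (z - c) / Real.sqrt ((z - c) ^ 2 + 1 / s ^ 4))
      (1 / s ^ 4 * (1 / Real.sqrt ((z - c) ^ 2 + 1 / s ^ 4) ^ 3)) z := by
  have hp := ua_pos hs (z - c)
  have hr : 0 < Real.sqrt ((z - c) ^ 2 + 1 / s ^ 4) := Real.sqrt_pos.2 hp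
  have h1 := ((hasDerivAt_id' z).sub_const c).div (ua_der hs c z) hr.ne'
  have hsq : Real.sqrt ((z - c) ^ 2 + 1 / s ^ 4) ^ 2 = (z - c) ^ 2 + 1 / s ^ 4 := Real.sq_sqrt hp.le
  have e : 1 / s ^ 4 * (1 / Real.sqrt ((z - c) ^ 2 + 1 / s ^ 4) ^ 3) =
      (1 * Real.sqrt ((z - c) ^ 2 + 1 / s ^ 4) - (z - c) * ((z - c) / Real.sqrt ((z - c) ^ 2 + 1 / s ^ 4))) /
        Real.sqrt ((z - c) ^ 2 + 1 / s ^ 4) ^ 2 := by
    generalize Real.sqrt ((z - c) ^ 2 + 1 / s ^ 4) = r at *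
    have h4 : 1 / s ^ 4 = r ^ 2 - (z - c) ^ 2 := by rw [hsq]; ring
    rw [h4]
    field_simp
  rw [e]
  exact h1

theorem Us_even (s z : ℝ) : Us s (-z) = Us s z := by
  unfold Us
  have h1 : (-z - 1) ^ 2 = (z + 1) ^ 2 := by ring
  have h2 : (-z + 1) ^ 2 = (z - 1) ^ 2 := by ring
  rw [h1, h2]
  ring

theorem Us_temp {s : ℝ} (hs : 1 ≤ s) : (Us s).HasTemperateGrowth := by
  have h1 := ua_temp hs 1
  have h2 := ua_temp hs (-1)
  have h3 := (Function.HasTemperateGrowth.const (E := ℝ) (s / 2)).mul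
    ((h1.add h2).sub (Function.HasTemperateGrowth.const (E := ℝ) (2 : ℝ)))
  have e : Us s = fun z : ℝ => s / 2 * (Real.sqrt ((z - 1) ^ 2 + 1 / s ^ 4) +
      Real.sqrt ((z - (-1)) ^ 2 + 1 / s ^ 4) - 2) := by
    funext z
    rw [sub_neg_eq_add]
    rfl
  rw [e]
  exact h3

theorem Us_deriv {s : ℝ} (hs : 1 ≤ s) (z : ℝ) : HasDerivAt (Us s) (Us1 s z) z := by
  have h1 := ua_der hs 1 z
  have h2 := ua_der hs (-1) z
  simp only [sub_neg_eq_add] at h2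
  exact ((h1.add h2).sub_const 2).const_mul (s / 2)

theorem Us1_deriv {s : ℝ} (hs : 1 ≤ s) (z : ℝ) : HasDerivAt (Us1 s) (Us2 s z) z := by
  have h1 := ua_der2 hs 1 z
  have h2 := ua_der2 hs (-1) z
  simp only [sub_neg_eq_add] at h2
  have h3 := (h1.add h2).const_mul (s / 2)
  have e : Us2 s z = s / 2 * (1 / s ^ 4 * (1 / Real.sqrt ((z - 1) ^ 2 + 1 / s ^ 4) ^ 3) +
      1 / s ^ 4 * (1 / Real.sqrt ((z + 1) ^ 2 + 1 / s ^ 4) ^ 3)) := by
    unfold Us2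
    ring
  rw [e]
  exact h3
/- END ua -/

/- MODULE ub
`|x| ≤ √(x^2 + ε^2) ≤ |x| + ε` with `ε = 1 / s^2`. -/
private theorem ub_ge {s : ℝ} (hs : 1 ≤ s) (x : ℝ) : |x| ≤ Real.sqrt (x ^ 2 + 1 / s ^ 4) := by
  apply Real.le_sqrt_of_sq_le
  rw [sq_abs]
  have h1 : 0 ≤ 1 / s ^ 4 := by positivity
  linarith

private theorem ub_le {s : ℝ} (hs : 1 ≤ s) (x : ℝ) :
    Real.sqrt (x ^ 2 + 1 / s ^ 4) ≤ |x| + 1 / s ^ 2 := by
  have h1 : 0 ≤ 1 / s ^ 2 := by positivity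
  apply Real.sqrt_le_iff.2
  refine ⟨by positivity, ?_⟩
  have h2 : 1 / s ^ 4 = (1 / s ^ 2) ^ 2 := by rw [div_pow, one_pow, ← pow_mul]
  have h3 : (|x| + 1 / s ^ 2) ^ 2 = |x| ^ 2 + 2 * (|x| * (1 / s ^ 2)) + (1 / s ^ 2) ^ 2 := by ring
  have h4 : 0 ≤ |x| * (1 / s ^ 2) := mul_nonneg (abs_nonneg x) h1
  rw [h2, h3, sq_abs]
  linarith

theorem Us_nonneg {s : ℝ} (hs : 1 ≤ s) (z : ℝ) : 0 ≤ Us s z := by
  unfold Us
  have h1 := ub_ge hs (z - 1)
  have h2 := ub_ge hs (z + 1)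
  have h3 := neg_abs_le (z - 1)
  have h4 := le_abs_self (z + 1)
  apply mul_nonneg (by linarith)
  linarith

theorem Us_le {s : ℝ} (hs : 1 ≤ s) {z : ℝ} (hz : |z| ≤ 1) : Us s z ≤ 1 / s := by
  unfold Us
  have h1 := ub_le hs (z - 1)
  have h2 := ub_le hs (z + 1)
  obtain ⟨h3, h4⟩ := abs_le.1 hz
  rw [abs_of_nonpos (by linarith)] at h1
  rw [abs_of_nonneg (by linarith)] at h2
  have hs0 : (0 : ℝ) < s := by linarith
  have h5 : s / 2 * (Real.sqrt ((z - 1) ^ 2 + 1 / s ^ 4) + Real.sqrt ((z + 1) ^ 2 + 1 / s ^ 4) - 2)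
      ≤ s / 2 * (2 * (1 / s ^ 2)) := by
    apply mul_le_mul_of_nonneg_left _ (by linarith)
    linarith
  refine le_trans h5 (le_of_eq ?_)
  field_simp

theorem Us_ge {s : ℝ} (hs : 1 ≤ s) (z : ℝ) : s * (|z| - 1) ≤ Us s z := by
  unfold Us
  have h1 := ub_ge hs (z - 1)
  have h2 := ub_ge hs (z + 1)
  have h3 : 2 * |z| ≤ |z - 1| + |z + 1| := by
    have h4 := abs_add_le (z - 1) (z + 1)
    have h5 : z - 1 + (z + 1) = 2 * z := by ring
    rw [h5, abs_mul, abs_of_pos (by norm_num : (0 : ℝ) < 2)] at h4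
    exact h4
  have h6 : s * (|z| - 1) = s / 2 * (2 * |z| - 2) := by ring
  rw [h6]
  apply mul_le_mul_of_nonneg_left _ (by linarith)
  linarith
/- END ub -/

/- MODULE uc
With `ε = 1 / s^2`: `Us2 ≤ (s/2) ε^2 (2 / ε^3) = s^3`; for `1 - ε ≤ z ≤ 1`:
`Us2 ≥ (s/2) ε^2 (2 ε^2)^(-3/2) ≥ s / (6 ε) = s^3 / 6` (`2^(5/2) ≤ 6`). -/
/- private lemmas of uc -/
private theorem uc_c {s : ℝ} (hs : 1 ≤ s) : 0 < 1 / s ^ 4 := by positivity

private theorem uc_R (x : ℝ) {s : ℝ} (hs : 1 ≤ s) : 0 < Real.sqrt (x ^ 2 + 1 / s ^ 4) :=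
  Real.sqrt_pos.2 (by have := uc_c hs; positivity)

private theorem uc_Rx (x : ℝ) {s : ℝ} (hs : 1 ≤ s) : |x| ≤ Real.sqrt (x ^ 2 + 1 / s ^ 4) := by
  rw [← Real.sqrt_sq_eq_abs]
  exact Real.sqrt_le_sqrt (by have := uc_c hs; linarith)

private theorem uc_Re (x : ℝ) {s : ℝ} (hs : 1 ≤ s) :
    1 / s ^ 2 ≤ Real.sqrt (x ^ 2 + 1 / s ^ 4) := by
  have h1 : (1 / s ^ 2) ^ 2 = 1 / s ^ 4 := by rw [div_pow, one_pow, ← pow_mul]
  rw [← Real.sqrt_sq (show (0 : ℝ) ≤ 1 / s ^ 2 by positivity), h1]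
  exact Real.sqrt_le_sqrt (by nlinarith [sq_nonneg x])

private theorem uc_f (x : ℝ) {s : ℝ} (hs : 1 ≤ s) :
    |x / Real.sqrt (x ^ 2 + 1 / s ^ 4)| ≤ 1 := by
  rw [abs_div, abs_of_pos (uc_R x hs), div_le_one (uc_R x hs)]
  exact uc_Rx x hs

theorem Us1_abs {s : ℝ} (hs : 1 ≤ s) (z : ℝ) : |Us1 s z| ≤ s := by
  unfold Us1
  have h1 := uc_f (z - 1) hs
  have h2 := uc_f (z + 1) hs
  have h3 := abs_add_le ((z - 1) / Real.sqrt ((z - 1) ^ 2 + 1 / s ^ 4))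
    ((z + 1) / Real.sqrt ((z + 1) ^ 2 + 1 / s ^ 4))
  rw [abs_mul, abs_of_pos (show (0 : ℝ) < s / 2 by linarith)]
  nlinarith [h1, h2, h3]

theorem Us2_nonneg {s : ℝ} (hs : 1 ≤ s) (z : ℝ) : 0 ≤ Us2 s z := by
  unfold Us2
  have h1 := uc_R (z - 1) hs
  have h2 := uc_R (z + 1) hs
  positivity

theorem Us2_even (s z : ℝ) : Us2 s (-z) = Us2 s z := by
  unfold Us2
  have h1 : (-z - 1) ^ 2 = (z + 1) ^ 2 := by ring
  have h2 : (-z + 1) ^ 2 = (z - 1) ^ 2 := by ring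
  rw [h1, h2, add_comm (1 / Real.sqrt ((z + 1) ^ 2 + 1 / s ^ 4) ^ 3)]

theorem Us2_cont {s : ℝ} (hs : 1 ≤ s) : Continuous (Us2 s) := by
  unfold Us2
  have h1 : Continuous fun z : ℝ => Real.sqrt ((z - 1) ^ 2 + 1 / s ^ 4) ^ 3 := by fun_prop
  have h2 : Continuous fun z : ℝ => Real.sqrt ((z + 1) ^ 2 + 1 / s ^ 4) ^ 3 := by fun_prop
  refine continuous_const.mul ((continuous_const.div h1 fun z => ?_).add
    (continuous_const.div h2 fun z => ?_))
  · exact (pow_pos (uc_R (z - 1) hs) 3).ne'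
  · exact (pow_pos (uc_R (z + 1) hs) 3).ne'

theorem Us2_le {s : ℝ} (hs : 1 ≤ s) (z : ℝ) : Us2 s z ≤ s ^ 3 := by
  have hs0 : 0 < s := by linarith
  have h1 : ∀ x : ℝ, 1 / Real.sqrt (x ^ 2 + 1 / s ^ 4) ^ 3 ≤ s ^ 6 := by
    intro x
    rw [div_le_iff₀ (pow_pos (uc_R x hs) 3)]
    have h2 : (1 / s ^ 2) ^ 3 ≤ Real.sqrt (x ^ 2 + 1 / s ^ 4) ^ 3 :=
      pow_le_pow_left₀ (by positivity) (uc_Re x hs) 3
    have h3 : s ^ 6 * (1 / s ^ 2) ^ 3 = 1 := by field_simp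
    calc (1 : ℝ) = s ^ 6 * (1 / s ^ 2) ^ 3 := h3.symm
      _ ≤ _ := mul_le_mul_of_nonneg_left h2 (by positivity)
  unfold Us2
  calc s / 2 * (1 / s ^ 4) * (1 / Real.sqrt ((z - 1) ^ 2 + 1 / s ^ 4) ^ 3 +
        1 / Real.sqrt ((z + 1) ^ 2 + 1 / s ^ 4) ^ 3)
      ≤ s / 2 * (1 / s ^ 4) * (s ^ 6 + s ^ 6) :=
        mul_le_mul_of_nonneg_left (add_le_add (h1 _) (h1 _)) (by positivity)
    _ = s ^ 3 := by field_simp; ring

theorem Us2_ge {s : ℝ} (hs : 1 ≤ s) {z : ℝ} (h0 : 1 - 1 / s ^ 2 ≤ z) (h1 : z ≤ 1) :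
    s ^ 3 / 6 ≤ Us2 s z := by
  have hs0 : 0 < s := by linarith
  have he : (0 : ℝ) < 1 / s ^ 2 := by positivity
  have h5 : (1 / s ^ 2) ^ 2 = 1 / s ^ 4 := by rw [div_pow, one_pow, ← pow_mul]
  have h2 := uc_R (z - 1) hs
  have h7 := uc_R (z + 1) hs
  have h4 : Real.sqrt ((z - 1) ^ 2 + 1 / s ^ 4) ^ 2 = (z - 1) ^ 2 + 1 / s ^ 4 :=
    Real.sq_sqrt (by positivity)
  have h6 : (z - 1) ^ 2 ≤ (1 / s ^ 2) ^ 2 := by
    have h8 : 0 ≤ 1 - z := by linarith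
    have h9 : 1 - z ≤ 1 / s ^ 2 := by linarith
    nlinarith
  have h10 : s ^ 6 / 3 ≤ 1 / Real.sqrt ((z - 1) ^ 2 + 1 / s ^ 4) ^ 3 := by
    rw [le_div_iff₀ (pow_pos h2 3)]
    have h11 : s ^ 6 / 3 * (3 * (1 / s ^ 2) ^ 3) = 1 := by field_simp
    refine le_trans (mul_le_mul_of_nonneg_left ?_ (by positivity)) h11.le
    rw [← h5] at h4 h2 ⊢
    generalize Real.sqrt ((z - 1) ^ 2 + (1 / s ^ 2) ^ 2) = R at *
    generalize 1 / s ^ 2 = e at *
    have h12 : R ≤ 3 / 2 * e := by nlinarith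
    have h13 : R ^ 2 ≤ 2 * e ^ 2 := by linarith
    calc R ^ 3 = R * R ^ 2 := by ring
      _ ≤ (3 / 2 * e) * (2 * e ^ 2) := mul_le_mul h12 h13 (by positivity) (by positivity)
      _ = 3 * e ^ 3 := by ring
  have h14 : 0 ≤ 1 / Real.sqrt ((z + 1) ^ 2 + 1 / s ^ 4) ^ 3 := by positivity
  unfold Us2
  calc s ^ 3 / 6 = s / 2 * (1 / s ^ 4) * (s ^ 6 / 3 + 0) := by field_simp; ring
    _ ≤ _ := mul_le_mul_of_nonneg_left (add_le_add h10 h14) (by positivity)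
/- END uc -/

/- MODULE ud
`Us1` is odd and nondecreasing (`Us2 ≥ 0`), `Us1 s 1 = s / √(4 + ε^2) ≥ s / √5 ≥ (2/5) s`.  For
`0 ≤ z ≤ 1/2`, `a = 1 - z ≥ 1/2`: `0 ≤ Us1 s z ≤ (s/2) (1 - a / √(a^2 + ε^2)) ≤ (s/2) ε^2 / (2 a^2)`
`≤ s ε^2 = 1 / s^3`. -/
theorem Us1_odd (s z : ℝ) : Us1 s (-z) = - Us1 s z := by
  unfold Us1
  have h1 : (-z - 1) ^ 2 = (z + 1) ^ 2 := by ring
  have h2 : (-z + 1) ^ 2 = (z - 1) ^ 2 := by ring
  rw [h1, h2]
  ring

private theorem ud_mono {s : ℝ} (hs : 1 ≤ s) : Monotone (Us1 s) :=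
  monotone_of_hasDerivAt_nonneg (fun z => Us1_deriv hs z) (fun z => Us2_nonneg hs z)

theorem Us1_sign {s : ℝ} (hs : 1 ≤ s) (z : ℝ) : 0 ≤ Us1 s z * z := by
  have h0 : Us1 s 0 = 0 := by
    have h1 := Us1_odd s 0
    rw [neg_zero] at h1
    linarith
  rcases le_total 0 z with hz | hz
  · have h1 := ud_mono hs hz
    rw [h0] at h1
    exact mul_nonneg h1 hz
  · have h1 := ud_mono hs hz
    rw [h0] at h1
    exact mul_nonneg_of_nonpos_of_nonpos h1 hz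

theorem Us1_one {s : ℝ} (hs : 1 ≤ s) {z : ℝ} (hz : 1 ≤ z) : 2 / 5 * s ≤ Us1 s z := by
  refine le_trans ?_ (ud_mono hs hz)
  have h1 : Real.sqrt ((1 + 1) ^ 2 + 1 / s ^ 4) ≤ 5 / 2 := by
    rw [Real.sqrt_le_left (by norm_num)]
    have h2 : 1 / s ^ 4 ≤ 1 := by
      rw [div_le_one (by positivity)]
      exact one_le_pow₀ hs
    norm_num at *
    linarith
  have h3 : 0 < Real.sqrt ((1 + 1) ^ 2 + 1 / s ^ 4) := uc_R (1 + 1) hs
  have h4 : 4 / 5 ≤ (1 + 1) / Real.sqrt ((1 + 1) ^ 2 + 1 / s ^ 4) := by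
    rw [le_div_iff₀ h3]
    linarith
  unfold Us1
  rw [sub_self, zero_div, zero_add]
  nlinarith

theorem Us1_small {s : ℝ} (hs : 1 ≤ s) {z : ℝ} (hz : |z| ≤ 1 / 2) :
    |Us1 s z| ≤ 2 / s ^ 3 := by
  have hs0 : 0 < s := by linarith
  have hc := uc_c hs
  have h1 : ∀ x : ℝ, 1 / 2 ≤ x → x / Real.sqrt (x ^ 2 + 1 / s ^ 4) ≤ 1 ∧
      1 - 2 * (1 / s ^ 4) ≤ x / Real.sqrt (x ^ 2 + 1 / s ^ 4) := by
    intro x hx
    refine ⟨(le_abs_self _).trans (uc_f x hs), ?_⟩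
    have h2 := uc_R x hs
    have h3 := uc_Rx x hs
    rw [abs_of_nonneg (by linarith)] at h3
    have h4 : Real.sqrt (x ^ 2 + 1 / s ^ 4) ^ 2 = x ^ 2 + 1 / s ^ 4 := Real.sq_sqrt (by positivity)
    rw [le_div_iff₀ h2]
    generalize Real.sqrt (x ^ 2 + 1 / s ^ 4) = R at *
    generalize 1 / s ^ 4 = c at *
    nlinarith [mul_nonneg hc.le (show (0 : ℝ) ≤ R - 1 / 2 by linarith),
      mul_nonneg (mul_nonneg hc.le (show (0 : ℝ) ≤ R - 1 / 2 by linarith)) (show (0 : ℝ) ≤ R by linarith)]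
  have hz' := abs_le.1 hz
  have h2 := h1 (z + 1) (by linarith [hz'.1])
  have h3 := h1 (1 - z) (by linarith [hz'.2])
  have h4 : (z - 1) / Real.sqrt ((z - 1) ^ 2 + 1 / s ^ 4) =
      - ((1 - z) / Real.sqrt ((1 - z) ^ 2 + 1 / s ^ 4)) := by
    have h5 : (z - 1) ^ 2 = (1 - z) ^ 2 := by ring
    rw [h5]
    ring
  have h6 : 2 / s ^ 3 = s / 2 * (4 * (1 / s ^ 4)) := by field_simp; ring
  unfold Us1
  rw [h4, h6, abs_mul, abs_of_pos (show (0 : ℝ) < s / 2 by linarith)]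
  refine mul_le_mul_of_nonneg_left ?_ (by linarith)
  rw [abs_le]
  constructor <;> linarith [h2.1, h2.2, h3.1, h3.2]
/- END ud -/

/-- the soft energy -/
def Vs (D : Finset (ℤ × ℤ)) (b : ℤ × ℤ → ℝ) (s : ℝ) (h : D → ℝ) : ℝ :=
  ∑ x ∈ D, ∑ i, Us s (gl D b h x - gl D b h (x + st i))

/-- extension by zero -/
def g0 (D : Finset (ℤ × ℤ)) (k : D → ℝ) (z : ℤ × ℤ) : ℝ := gl D (fun _ => 0) k z

/- MODULE va
Growth and first derivative of `Vs`. -/
/- private lemmas of va -/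
private def va_ev (D : Finset (ℤ × ℤ)) (z : ℤ × ℤ) : (D → ℝ) →L[ℝ] ℝ :=
  if hz : z ∈ D then ContinuousLinearMap.proj (⟨z, hz⟩ : D) else 0

private theorem va_g0 (D : Finset (ℤ × ℤ)) (k : D → ℝ) (z : ℤ × ℤ) : g0 D k z = va_ev D z k := by
  unfold g0 gl va_ev
  split_ifs <;> simp

private theorem va_gl (D : Finset (ℤ × ℤ)) (b : ℤ × ℤ → ℝ) (h : D → ℝ) (z : ℤ × ℤ) :
    gl D b h z = va_ev D z h + gl D b 0 z := by
  unfold gl va_ev
  split_ifs <;> simp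

private theorem va_df (D : Finset (ℤ × ℤ)) (b : ℤ × ℤ → ℝ) (h : D → ℝ) (x y : ℤ × ℤ) :
    gl D b h x - gl D b h y = (va_ev D x - va_ev D y) h + (gl D b 0 x - gl D b 0 y) := by
  rw [va_gl D b h x, va_gl D b h y]
  simp only [ContinuousLinearMap.sub_apply]
  ring

private theorem va_hd (D : Finset (ℤ × ℤ)) (b : ℤ × ℤ → ℝ) {s : ℝ} (hs : 1 ≤ s) (h : D → ℝ) :
    HasFDerivAt (Vs D b s) (∑ x ∈ D, ∑ i, Us1 s (gl D b h x - gl D b h (x + st i)) •
      (va_ev D x - va_ev D (x + st i))) h := by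
  unfold Vs
  refine HasFDerivAt.fun_sum fun x _ => HasFDerivAt.fun_sum fun i _ => ?_
  have h1 : HasFDerivAt (fun h : D → ℝ => gl D b h x - gl D b h (x + st i))
      (va_ev D x - va_ev D (x + st i)) h := by
    have h2 := ((va_ev D x - va_ev D (x + st i)).hasFDerivAt (x := h)).add_const
      (gl D b 0 x - gl D b 0 (x + st i))
    refine h2.congr_of_eventuallyEq (Filter.Eventually.of_forall fun k => ?_)
    exact va_df D b k x (x + st i)
  exact (Us_deriv hs _).comp_hasFDerivAt h h1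

theorem Vs_temp (D : Finset (ℤ × ℤ)) (b : ℤ × ℤ → ℝ) {s : ℝ} (hs : 1 ≤ s) :
    (Vs D b s).HasTemperateGrowth := by
  have h1 : ∀ x y : ℤ × ℤ,
      (fun h : D → ℝ => Us s (gl D b h x - gl D b h y)).HasTemperateGrowth := by
    intro x y
    have h2 : (fun h : D → ℝ => (va_ev D x - va_ev D y) h +
        (gl D b 0 x - gl D b 0 y)).HasTemperateGrowth :=
      (va_ev D x - va_ev D y).hasTemperateGrowth.fun_add (Function.HasTemperateGrowth.const _)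
    have h3 := (Us_temp hs).comp h2
    have h5 : (fun h : D → ℝ => Us s (gl D b h x - gl D b h y)) =
        (Us s ∘ fun h : D → ℝ => (va_ev D x - va_ev D y) h + (gl D b 0 x - gl D b 0 y)) := by
      funext h
      simp only [Function.comp_apply]
      rw [va_df D b h x y]
    rw [h5]
    exact h3
  have h4 : ∀ x ∈ D, (fun h : D → ℝ => ∑ i ∈ (Finset.univ : Finset (Fin 6)),
      Us s (gl D b h x - gl D b h (x + st i))).HasTemperateGrowth := fun x _ =>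
    Function.HasTemperateGrowth.sum (s := (Finset.univ : Finset (Fin 6)))
      (f := fun i (h : D → ℝ) => Us s (gl D b h x - gl D b h (x + st i)))
      (fun i _ => h1 x (x + st i))
  exact Function.HasTemperateGrowth.sum (s := D)
    (f := fun x (h : D → ℝ) => ∑ i, Us s (gl D b h x - gl D b h (x + st i))) h4

theorem Vs_fderiv (D : Finset (ℤ × ℤ)) (b : ℤ × ℤ → ℝ) {s : ℝ} (hs : 1 ≤ s) (h k : D → ℝ) :
    fderiv ℝ (Vs D b s) h k =
      ∑ x ∈ D, ∑ i, Us1 s (gl D b h x - gl D b h (x + st i)) * (g0 D k x - g0 D k (x + st i)) := by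
  rw [(va_hd D b hs h).fderiv]
  simp only [ContinuousLinearMap.sum_apply, ContinuousLinearMap.smul_apply,
    ContinuousLinearMap.sub_apply, smul_eq_mul, va_g0]

theorem Vs_dot (D : Finset (ℤ × ℤ)) (b : ℤ × ℤ → ℝ) {s : ℝ} (hs : 1 ≤ s) (h : D → ℝ) :
    ∑ x, h x * pd x (Vs D b s) h =
      ∑ x ∈ D, ∑ i, Us1 s (gl D b h x - gl D b h (x + st i)) * (g0 D h x - g0 D h (x + st i)) := by
  rw [← Vs_fderiv D b hs h h]
  unfold pd
  have h1 : h = ∑ x, h x • (Pi.single x (1 : ℝ) : D → ℝ) := by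
    funext y
    simp [Finset.sum_apply, Pi.single_apply]
  conv_rhs => rw [h1]
  rw [map_sum]
  refine Finset.sum_congr rfl fun x _ => ?_
  rw [map_smul, smul_eq_mul, ← h1]
/- END va -/

/- MODULE vb
Second derivative of `Vs` as a quadratic form, and boundedness of `Wf`:
`|pd x V| ≤ 12 |D| s`, `|pd x (pd x V)| ≤ 24 |D| s^3` (`Vs_fderiv` with `k = Pi.single x 1`,
`Us1_abs`, `Us2_le`; `|g0 (Pi.single x 1) z| ≤ 1`). -/
/- private lemmas of vb -/
private theorem vb_pd (D : Finset (ℤ × ℤ)) (b : ℤ × ℤ → ℝ) {s : ℝ} (hs : 1 ≤ s) (x : D)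
    (h : D → ℝ) : pd x (Vs D b s) h =
      ∑ z ∈ D, ∑ i, Us1 s (gl D b h z - gl D b h (z + st i)) *
        (g0 D (Pi.single x 1) z - g0 D (Pi.single x 1) (z + st i)) :=
  Vs_fderiv D b hs h (Pi.single x 1)

private theorem vb_pd2 (D : Finset (ℤ × ℤ)) (b : ℤ × ℤ → ℝ) {s : ℝ} (hs : 1 ≤ s) (x y : D)
    (h : D → ℝ) : pd y (pd x (Vs D b s)) h =
      ∑ z ∈ D, ∑ i, Us2 s (gl D b h z - gl D b h (z + st i)) *
        (g0 D (Pi.single x 1) z - g0 D (Pi.single x 1) (z + st i)) *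
        (g0 D (Pi.single y 1) z - g0 D (Pi.single y 1) (z + st i)) := by
  have h0 : pd x (Vs D b s) = fun h : D → ℝ =>
      ∑ z ∈ D, ∑ i, Us1 s (gl D b h z - gl D b h (z + st i)) *
        (g0 D (Pi.single x 1) z - g0 D (Pi.single x 1) (z + st i)) :=
    funext fun h => vb_pd D b hs x h
  have h1 : HasFDerivAt (fun h : D → ℝ =>
      ∑ z ∈ D, ∑ i, Us1 s (gl D b h z - gl D b h (z + st i)) *
        (g0 D (Pi.single x 1) z - g0 D (Pi.single x 1) (z + st i)))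
      (∑ z ∈ D, ∑ i, (g0 D (Pi.single x 1) z - g0 D (Pi.single x 1) (z + st i)) •
        (Us2 s (gl D b h z - gl D b h (z + st i)) • (va_ev D z - va_ev D (z + st i)))) h := by
    refine HasFDerivAt.fun_sum fun z _ => HasFDerivAt.fun_sum fun i _ => ?_
    have h2 : HasFDerivAt (fun h : D → ℝ => gl D b h z - gl D b h (z + st i))
        (va_ev D z - va_ev D (z + st i)) h := by
      have h3 := ((va_ev D z - va_ev D (z + st i)).hasFDerivAt (x := h)).add_const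
        (gl D b 0 z - gl D b 0 (z + st i))
      refine h3.congr_of_eventuallyEq (Filter.Eventually.of_forall fun k => ?_)
      exact va_df D b k z (z + st i)
    exact ((Us1_deriv hs _).comp_hasFDerivAt h h2).mul_const _
  unfold pd at *
  rw [h0, h1.fderiv]
  simp only [ContinuousLinearMap.sum_apply, ContinuousLinearMap.smul_apply,
    ContinuousLinearMap.sub_apply, smul_eq_mul, va_g0]
  refine Finset.sum_congr rfl fun z _ => Finset.sum_congr rfl fun i _ => ?_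
  ring

private theorem vb_lin (D : Finset (ℤ × ℤ)) (w : D → ℝ) (z z' : ℤ × ℤ) :
    ∑ x, (g0 D (Pi.single x 1) z - g0 D (Pi.single x 1) z') * w x = g0 D w z - g0 D w z' := by
  have h1 : w = ∑ x, w x • (Pi.single x (1 : ℝ) : D → ℝ) := by
    funext y
    simp [Finset.sum_apply, Pi.single_apply]
  have h2 : ∀ y, g0 D w y = ∑ x, w x * g0 D (Pi.single x 1) y := by
    intro y
    rw [va_g0]
    conv_lhs => rw [h1]
    rw [map_sum]
    refine Finset.sum_congr rfl fun x _ => ?_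
    rw [map_smul, smul_eq_mul, va_g0]
  rw [h2 z, h2 z', ← Finset.sum_sub_distrib]
  refine Finset.sum_congr rfl fun x _ => ?_
  ring

private theorem vb_abs (D : Finset (ℤ × ℤ)) (x : D) (z z' : ℤ × ℤ) :
    |g0 D (Pi.single x 1) z - g0 D (Pi.single x 1) z'| ≤ 1 := by
  have h1 : ∀ y, 0 ≤ g0 D (Pi.single x 1) y ∧ g0 D (Pi.single x 1) y ≤ 1 := by
    intro y
    unfold g0 gl
    split_ifs with hy
    · rw [Pi.single_apply]
      split_ifs <;> norm_num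
    · norm_num
  have h2 := h1 z
  have h3 := h1 z'
  rw [abs_le]
  constructor <;> linarith [h2.1, h2.2, h3.1, h3.2]

theorem Vs_hess (D : Finset (ℤ × ℤ)) (b : ℤ × ℤ → ℝ) {s : ℝ} (hs : 1 ≤ s) (h w : D → ℝ) :
    ∑ x, ∑ y, pd y (pd x (Vs D b s)) h * w x * w y =
      ∑ x ∈ D, ∑ i, Us2 s (gl D b h x - gl D b h (x + st i)) *
        (g0 D w x - g0 D w (x + st i)) ^ 2 := by
  have h1 : ∀ x y : D, pd y (pd x (Vs D b s)) h * w x * w y =
      ∑ z ∈ D, ∑ i, Us2 s (gl D b h z - gl D b h (z + st i)) *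
        ((g0 D (Pi.single x 1) z - g0 D (Pi.single x 1) (z + st i)) * w x) *
        ((g0 D (Pi.single y 1) z - g0 D (Pi.single y 1) (z + st i)) * w y) := by
    intro x y
    rw [vb_pd2 D b hs x y h, Finset.sum_mul, Finset.sum_mul]
    refine Finset.sum_congr rfl fun z _ => ?_
    rw [Finset.sum_mul, Finset.sum_mul]
    refine Finset.sum_congr rfl fun i _ => ?_
    ring
  simp only [h1]
  have h2 : ∀ x : D, (∑ y : D, ∑ z ∈ D, ∑ i, Us2 s (gl D b h z - gl D b h (z + st i)) *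
        ((g0 D (Pi.single x 1) z - g0 D (Pi.single x 1) (z + st i)) * w x) *
        ((g0 D (Pi.single y 1) z - g0 D (Pi.single y 1) (z + st i)) * w y)) =
      ∑ z ∈ D, ∑ i, Us2 s (gl D b h z - gl D b h (z + st i)) *
        ((g0 D (Pi.single x 1) z - g0 D (Pi.single x 1) (z + st i)) * w x) *
        (g0 D w z - g0 D w (z + st i)) := by
    intro x
    rw [Finset.sum_comm]
    refine Finset.sum_congr rfl fun z _ => ?_
    rw [Finset.sum_comm]
    refine Finset.sum_congr rfl fun i _ => ?_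
    rw [← Finset.mul_sum, vb_lin]
  simp only [h2]
  rw [Finset.sum_comm]
  refine Finset.sum_congr rfl fun z _ => ?_
  rw [Finset.sum_comm]
  refine Finset.sum_congr rfl fun i _ => ?_
  rw [← Finset.sum_mul, ← Finset.mul_sum, vb_lin]
  ring

theorem Vs_Wf (D : Finset (ℤ × ℤ)) (b : ℤ × ℤ → ℝ) {s : ℝ} (hs : 1 ≤ s) :
    ∃ C : ℝ, ∀ h, |Wf (Vs D b s) h| ≤ C := by
  refine ⟨∑ _x : D, ((∑ _z ∈ D, ∑ _i : Fin 6, s) ^ 2 / 4 +
    (∑ _z ∈ D, ∑ _i : Fin 6, s ^ 3) / 2), fun h => ?_⟩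
  have hs0 : 0 ≤ s := by linarith
  unfold Wf
  refine (Finset.abs_sum_le_sum_abs _ _).trans (Finset.sum_le_sum fun x _ => ?_)
  have h1 : |pd x (Vs D b s) h| ≤ ∑ _z ∈ D, ∑ _i : Fin 6, s := by
    rw [vb_pd D b hs x h]
    refine (Finset.abs_sum_le_sum_abs _ _).trans (Finset.sum_le_sum fun z _ => ?_)
    refine (Finset.abs_sum_le_sum_abs _ _).trans (Finset.sum_le_sum fun i _ => ?_)
    rw [abs_mul]
    calc |Us1 s (gl D b h z - gl D b h (z + st i))| *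
          |g0 D (Pi.single x 1) z - g0 D (Pi.single x 1) (z + st i)| ≤ s * 1 :=
          mul_le_mul (Us1_abs hs _) (vb_abs D x _ _) (abs_nonneg _) hs0
      _ = s := mul_one s
  have h2 : |pd x (pd x (Vs D b s)) h| ≤ ∑ _z ∈ D, ∑ _i : Fin 6, s ^ 3 := by
    rw [vb_pd2 D b hs x x h]
    refine (Finset.abs_sum_le_sum_abs _ _).trans (Finset.sum_le_sum fun z _ => ?_)
    refine (Finset.abs_sum_le_sum_abs _ _).trans (Finset.sum_le_sum fun i _ => ?_)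
    rw [abs_mul, abs_mul, abs_of_nonneg (Us2_nonneg hs _)]
    calc Us2 s (gl D b h z - gl D b h (z + st i)) *
          |g0 D (Pi.single x 1) z - g0 D (Pi.single x 1) (z + st i)| *
          |g0 D (Pi.single x 1) z - g0 D (Pi.single x 1) (z + st i)| ≤ s ^ 3 * 1 * 1 :=
          mul_le_mul (mul_le_mul (Us2_le hs _) (vb_abs D x _ _) (abs_nonneg _) (by positivity))
            (vb_abs D x _ _) (abs_nonneg _) (by positivity)
      _ = s ^ 3 := by ring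
  have h3 : (pd x (Vs D b s) h) ^ 2 ≤ (∑ _z ∈ D, ∑ _i : Fin 6, s) ^ 2 := by
    rw [← sq_abs]
    exact pow_le_pow_left₀ (abs_nonneg _) h1 2
  rw [abs_le] at h2
  rw [abs_le]
  have h4 : 0 ≤ (pd x (Vs D b s) h) ^ 2 := sq_nonneg _
  have h5 : 0 ≤ (∑ _z ∈ D, ∑ _i : Fin 6, s) ^ 2 := sq_nonneg _
  constructor <;> linarith [h2.1, h2.2]
/- END vb -/

/- MODULE vc
Bounds for `Vs`.  Lower bound: `Us s z ≥ s (|z| - 1) ≥ |z| - 1` if `|z| ≥ 1` and `Us ≥ 0 ≥ |z| - 1`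
otherwise, so `Vs ≥ ∑ |H x - H (x + st i)| - 6 |D|`; for the site `x₀` with `|h x₀| = ‖h‖` walk from
`x₀` in direction `st 0` until the first site `z` outside `D` (`|b z| ≤ 1/2`): the sum along the walk
is at least `|h x₀| - 1/2`. -/
private theorem vc_one {s : ℝ} (hs : 1 ≤ s) (z : ℝ) : |z| - 1 ≤ Us s z := by
  by_cases h : 1 ≤ |z|
  · have h1 := Us_ge hs z
    nlinarith
  · have h1 := Us_nonneg hs z
    push Not at h
    linarith

private theorem vc_walk {D : Finset (ℤ × ℤ)} {b : ℤ × ℤ → ℝ} (hb : ∀ z, |b z| ≤ 1 / 2)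
    (h : D → ℝ) (x : D) :
    |h x| ≤ 1 / 2 + ∑ y ∈ D, |gl D b h y - gl D b h (y + st 0)| := by
  obtain ⟨w, hw⟩ : ∃ w : ℕ → ℤ × ℤ, ∀ k : ℕ, w k = (x.1.1 + (k : ℤ), x.1.2) := ⟨_, fun _ => rfl⟩
  have hst : st 0 = (1, 0) := rfl
  have hsucc : ∀ k, w (k + 1) = w k + st 0 := by
    intro k
    rw [hw, hw, hst]
    ext
    · push_cast
      simp only [Prod.mk_add_mk]
      ring
    · simp
  have h0 : w 0 = x.1 := by
    rw [hw]
    ext <;> simp
  have hinj : Function.Injective w := by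
    intro k l hkl
    rw [hw, hw] at hkl
    have := congrArg Prod.fst hkl
    simp only at this
    omega
  have hex : ∃ k, w k ∉ D := by
    by_contra hc
    push Not at hc
    have h1 : ((Finset.range (D.card + 1)).image w).card = D.card + 1 := by
      rw [Finset.card_image_of_injective _ hinj, Finset.card_range]
    have h2 : (Finset.range (D.card + 1)).image w ⊆ D := by
      intro z hz
      obtain ⟨k, _, rfl⟩ := Finset.mem_image.1 hz
      exact hc k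
    have := Finset.card_le_card h2
    omega
  classical
  set N := Nat.find hex with hN
  have hN1 : w N ∉ D := Nat.find_spec hex
  have hN2 : ∀ k, k < N → w k ∈ D := fun k hk => not_not.1 (Nat.find_min hex hk)
  have h3 := dist_le_range_sum_dist (fun k => gl D b h (w k)) N
  simp only [Real.dist_eq] at h3
  have h4 : ∑ k ∈ Finset.range N, |gl D b h (w k) - gl D b h (w (k + 1))| ≤
      ∑ y ∈ D, |gl D b h y - gl D b h (y + st 0)| := by
    have h5 : ∑ k ∈ Finset.range N, |gl D b h (w k) - gl D b h (w (k + 1))| =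
        ∑ y ∈ (Finset.range N).image w, |gl D b h y - gl D b h (y + st 0)| := by
      rw [Finset.sum_image (fun a _ b _ hab => hinj hab)]
      exact Finset.sum_congr rfl fun k _ => by rw [hsucc]
    rw [h5]
    refine Finset.sum_le_sum_of_subset_of_nonneg ?_ (fun _ _ _ => abs_nonneg _)
    intro z hz
    obtain ⟨k, hk, rfl⟩ := Finset.mem_image.1 hz
    exact hN2 k (Finset.mem_range.1 hk)
  have h6 : gl D b h (w 0) = h x := by
    rw [h0]
    unfold gl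
    rw [dif_pos x.2]
  have h7 : gl D b h (w N) = b (w N) := by
    unfold gl
    rw [dif_neg hN1]
  rw [h6, h7] at h3
  have h8 := hb (w N)
  have h9 : |h x| ≤ |h x - b (w N)| + |b (w N)| := by
    have := abs_add_le (h x - b (w N)) (b (w N))
    rwa [sub_add_cancel] at this
  linarith

theorem Vs_low {D : Finset (ℤ × ℤ)} {b : ℤ × ℤ → ℝ} (hb : ∀ z, |b z| ≤ 1 / 2) {s : ℝ}
    (hs : 1 ≤ s) (h : D → ℝ) : 1 * ‖h‖ - (1 / 2 + 6 * (D.card : ℝ)) ≤ Vs D b s h := by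
  have h1 : ∑ x ∈ D, ∑ i : Fin 6, (|gl D b h x - gl D b h (x + st i)| - 1) ≤ Vs D b s h := by
    unfold Vs
    exact Finset.sum_le_sum fun x _ => Finset.sum_le_sum fun i _ => vc_one hs _
  have h2 : ∑ x ∈ D, ∑ i : Fin 6, (|gl D b h x - gl D b h (x + st i)| - 1) =
      (∑ x ∈ D, ∑ i : Fin 6, |gl D b h x - gl D b h (x + st i)|) - 6 * (D.card : ℝ) := by
    simp only [Finset.sum_sub_distrib, Finset.sum_const, Finset.card_univ, Fintype.card_fin, nsmul_eq_mul, mul_one]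
    push_cast
    ring
  have h3 : ∑ y ∈ D, |gl D b h y - gl D b h (y + st 0)| ≤
      ∑ x ∈ D, ∑ i : Fin 6, |gl D b h x - gl D b h (x + st i)| :=
    Finset.sum_le_sum fun y _ => Finset.single_le_sum
      (f := fun i : Fin 6 => |gl D b h y - gl D b h (y + st i)|)
      (fun i _ => abs_nonneg _) (Finset.mem_univ 0)
  have h4 : ‖h‖ ≤ 1 / 2 + ∑ y ∈ D, |gl D b h y - gl D b h (y + st 0)| := by
    refine (pi_norm_le_iff_of_nonneg ?_).2 fun x => ?_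
    · have : 0 ≤ ∑ y ∈ D, |gl D b h y - gl D b h (y + st 0)| :=
        Finset.sum_nonneg fun _ _ => abs_nonneg _
      linarith
    · rw [Real.norm_eq_abs]
      exact vc_walk hb h x
  linarith

theorem Vs_nonneg (D : Finset (ℤ × ℤ)) (b : ℤ × ℤ → ℝ) {s : ℝ} (hs : 1 ≤ s) (h : D → ℝ) :
    0 ≤ Vs D b s h := by
  exact Finset.sum_nonneg fun _ _ => Finset.sum_nonneg fun _ _ => Us_nonneg hs _

theorem Vs_K {D : Finset (ℤ × ℤ)} {b : ℤ × ℤ → ℝ} {s : ℝ} (hs : 1 ≤ s) {h : D → ℝ}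
    (hh : h ∈ K D b) : Vs D b s h ≤ 6 * (D.card : ℝ) / s := by
  have h1 : Vs D b s h ≤ ∑ x ∈ D, ∑ i : Fin 6, 1 / s := by
    unfold Vs
    exact Finset.sum_le_sum fun x hx => Finset.sum_le_sum fun i _ => Us_le hs (hh x hx i)
  rw [Finset.sum_const, Finset.sum_const, Finset.card_univ, Fintype.card_fin, nsmul_eq_mul,
    nsmul_eq_mul] at h1
  refine h1.trans (le_of_eq ?_)
  push_cast
  ring
/- END vc -/

/- MODULE vd
The radial derivative (`Vs_dot`).  For `x, y = x + st i` both in `D` the term is `Us1 z * z ≥ 0`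
with `z = h x - h y`; for `y ∉ D` it is `Us1 z * (z + b y)`, `z = h x - b y`: `≥ 0` if
`|z| ≥ 1/2` and `≥ - |Us1 z| / 2 ≥ - 1 / s^3` otherwise.  Off `K` some edge has `|z| > 1`, its term is
at least `(2/5) s * (|z| - 1/2) ≥ s / 5` (`Us1_odd`, `Us1_one`). -/
/- private lemmas of vd -/
private theorem vd_a {D : Finset (ℤ × ℤ)} {b : ℤ × ℤ → ℝ} (hb : ∀ z, |b z| ≤ 1 / 2)
    (h : D → ℝ) (y : ℤ × ℤ) : |gl D b h y - g0 D h y| ≤ 1 / 2 := by
  unfold g0 gl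
  split_ifs with hy
  · simp
  · simpa using hb y

private theorem vd_x {D : Finset (ℤ × ℤ)} {b : ℤ × ℤ → ℝ} (h : D → ℝ) {x : ℤ × ℤ}
    (hx : x ∈ D) : g0 D h x = gl D b h x := by
  unfold g0 gl
  rw [dif_pos hx, dif_pos hx]

private theorem vd_t {s : ℝ} (hs : 1 ≤ s) {a : ℝ} (ha : |a| ≤ 1 / 2) (z : ℝ) :
    0 ≤ Us1 s z * (z + a) + 2 / s ^ 3 := by
  have hs0 : 0 < s := by linarith
  have h0 : 0 ≤ 2 / s ^ 3 := by positivity
  have ha' := abs_le.1 ha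
  have h1 := Us1_sign hs z
  by_cases hz : |z| ≤ 1 / 2
  · have h2 := abs_le.1 (Us1_small hs hz)
    have h3 : |Us1 s z * a| ≤ 2 / s ^ 3 * (1 / 2) := by
      rw [abs_mul]
      exact mul_le_mul (Us1_small hs hz) ha (abs_nonneg _) h0
    have h4 := (abs_le.1 h3).1
    nlinarith
  · push Not at hz
    have h5 : 0 ≤ Us1 s z * (z + a) := by
      rcases le_total 0 z with hz0 | hz0
      · rw [abs_of_nonneg hz0] at hz
        have h6 : 0 ≤ Us1 s z := by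
          by_contra h7
          push Not at h7
          nlinarith
        exact mul_nonneg h6 (by linarith [ha'.1])
      · rw [abs_of_nonpos hz0] at hz
        have h6 : Us1 s z ≤ 0 := by
          by_contra h7
          push Not at h7
          nlinarith
        exact mul_nonneg_of_nonpos_of_nonpos h6 (by linarith [ha'.2])
    linarith

private theorem vd_big {s : ℝ} (hs : 1 ≤ s) {a : ℝ} (ha : |a| ≤ 1 / 2) {z : ℝ} (hz : 1 < |z|) :
    s / 5 ≤ Us1 s z * (z + a) := by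
  have hs0 : 0 < s := by linarith
  have ha' := abs_le.1 ha
  rcases le_total 0 z with hz0 | hz0
  · rw [abs_of_nonneg hz0] at hz
    have h1 := Us1_one hs hz.le
    have h2 : 1 / 2 ≤ z + a := by linarith [ha'.1]
    calc s / 5 = 2 / 5 * s * (1 / 2) := by ring
      _ ≤ _ := mul_le_mul h1 h2 (by norm_num) (by linarith [mul_pos (show (0 : ℝ) < 2 / 5 by norm_num) hs0])
  · rw [abs_of_nonpos hz0] at hz
    have h1 := Us1_one hs hz.le
    rw [Us1_odd] at h1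
    have h2 : 1 / 2 ≤ - (z + a) := by linarith [ha'.2]
    calc s / 5 = 2 / 5 * s * (1 / 2) := by ring
      _ ≤ (- Us1 s z) * (- (z + a)) := mul_le_mul h1 h2 (by norm_num)
          (by linarith [mul_pos (show (0 : ℝ) < 2 / 5 by norm_num) hs0])
      _ = _ := by ring

private theorem vd_sum {D : Finset (ℤ × ℤ)} {b : ℤ × ℤ → ℝ} {s : ℝ}
    (hs : 1 ≤ s) (h : D → ℝ) :
    ∑ x, h x * pd x (Vs D b s) h + 12 * (D.card : ℝ) / s ^ 3 =
      ∑ x ∈ D, ∑ i, (Us1 s (gl D b h x - gl D b h (x + st i)) *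
        ((gl D b h x - gl D b h (x + st i)) + (gl D b h (x + st i) - g0 D h (x + st i))) +
        2 / s ^ 3) := by
  rw [Vs_dot D b hs h]
  simp only [Finset.sum_add_distrib, Finset.sum_const, Finset.card_univ, Fintype.card_fin,
    nsmul_eq_mul]
  congr 1
  · refine Finset.sum_congr rfl fun x hx => Finset.sum_congr rfl fun i _ => ?_
    rw [vd_x (b := b) h hx]
    ring
  · push_cast
    ring

theorem Vs_rad {D : Finset (ℤ × ℤ)} {b : ℤ × ℤ → ℝ} (hb : ∀ z, |b z| ≤ 1 / 2) {s : ℝ}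
    (hs : 1 ≤ s) (h : D → ℝ) :
    0 ≤ ∑ x, h x * pd x (Vs D b s) h + 12 * (D.card : ℝ) / s ^ 3 := by
  rw [vd_sum hs h]
  exact Finset.sum_nonneg fun x _ => Finset.sum_nonneg fun i _ => vd_t hs (vd_a hb h _) _

theorem Vs_rad_off {D : Finset (ℤ × ℤ)} {b : ℤ × ℤ → ℝ} (hb : ∀ z, |b z| ≤ 1 / 2) {s : ℝ}
    (hs : 1 ≤ s) {h : D → ℝ} (hh : h ∉ K D b) :
    s / 5 ≤ ∑ x, h x * pd x (Vs D b s) h + 12 * (D.card : ℝ) / s ^ 3 := by
  have h1 : ∃ x ∈ D, ∃ i : Fin 6, 1 < |gl D b h x - gl D b h (x + st i)| := by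
    by_contra h2
    push Not at h2
    exact hh h2
  obtain ⟨x, hx, i, hi⟩ := h1
  have hs0 : 0 < s := by linarith
  rw [vd_sum hs h]
  have h3 : ∀ x ∈ D, 0 ≤ ∑ i, (Us1 s (gl D b h x - gl D b h (x + st i)) *
        ((gl D b h x - gl D b h (x + st i)) + (gl D b h (x + st i) - g0 D h (x + st i))) +
        2 / s ^ 3) := fun x _ => Finset.sum_nonneg fun i _ => vd_t hs (vd_a hb h _) _
  refine le_trans ?_ (Finset.single_le_sum h3 hx)
  have h4 : ∀ j ∈ (Finset.univ : Finset (Fin 6)),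
      0 ≤ Us1 s (gl D b h x - gl D b h (x + st j)) *
        ((gl D b h x - gl D b h (x + st j)) + (gl D b h (x + st j) - g0 D h (x + st j))) +
        2 / s ^ 3 := fun j _ => vd_t hs (vd_a hb h _) _
  refine le_trans ?_ (Finset.single_le_sum h4 (Finset.mem_univ i))
  have h5 := vd_big hs (vd_a hb h (x + st i)) hi
  have h6 : 0 ≤ 2 / s ^ 3 := by positivity
  linarith
/- END vd -/

end Pool.Agent.Hmk
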