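import Pool.Agent.Hmk.Asm
import Pool.Agent.Hmk.Ext

/-!
# Hmk: the variance inequality
-/

set_option autoImplicit false

open MeasureTheory Set Filter
open scoped ENNReal SchwartzMap ContDiff Topology

noncomputable section

namespace Pool.Agent.Hmk

/-- the energy of the representation `hs_exists`, gradient part -/
def Ea (D : Finset (ℤ × ℤ)) (b : ℤ × ℤ → ℝ) (s : ℝ) (φ : D → 𝓢(D → ℝ, ℝ)) : ℝ :=
  ∑ x, ∑ y, ∫ h, (av (Vs D b s) y (φ x) h) ^ 2

/-- the energy of the representation `hs_exists`, Hessian part -/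
def Eb (D : Finset (ℤ × ℤ)) (b : ℤ × ℤ → ℝ) (s : ℝ) (φ : D → 𝓢(D → ℝ, ℝ)) : ℝ :=
  ∫ h, ∑ x, ∑ y, pd y (pd x (Vs D b s)) h * φ x h * φ y h

/-- the fields `w_x = e^{V/2} φ_x` -/
def wf (D : Finset (ℤ × ℤ)) (b : ℤ × ℤ → ℝ) (s : ℝ) (φ : D → 𝓢(D → ℝ, ℝ)) (x : D)
    (h : D → ℝ) : ℝ := Real.exp (Vs D b s h / 2) * φ x h

/-- the integral over everything of the difference along an edge -/
def If (D : Finset (ℤ × ℤ)) (b : ℤ × ℤ → ℝ) (s : ℝ) (φ : D → 𝓢(D → ℝ, ℝ)) (x : ℤ × ℤ)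
    (i : Fin 6) : ℝ :=
  ∫ h, |g0 D (fun y => φ y h) x - g0 D (fun y => φ y h) (x + st i)| *
    Real.exp (- Vs D b s h / 2)

/-- the same over `K` -/
def Ik (D : Finset (ℤ × ℤ)) (b : ℤ × ℤ → ℝ) (s : ℝ) (φ : D → 𝓢(D → ℝ, ℝ)) (x : ℤ × ℤ)
    (i : Fin 6) : ℝ :=
  ∫ h in K D b, |g0 D (fun y => φ y h) x - g0 D (fun y => φ y h) (x + st i)| *
    Real.exp (- Vs D b s h / 2)

/- MODULE kg
Nonnegative energies, and the energies of `wf` over `K`: `pd y (wf x) = e^{V/2} av V y (φ x)`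
(`pd_exp`), `V ≤ 6 |D| / s` on `K` (`Vs_K`), so `∫_K gr (wf x) ≤ e^{6|D|/s} ∑_y ∫ (av V y (φ x))^2`;
`E2`: `Vs_hess`.  Differences: on `K`, `|w_x - w_y| = e^{V/2} |φ_x - φ_y| ≥ e^{-V/2} |φ_x - φ_y|`
(`Vs_nonneg`). -/
/-- the Schwartz function at the site `z` -/
private def kg_z {D : Finset (ℤ × ℤ)} (φ : D → 𝓢(D → ℝ, ℝ)) (z : ℤ × ℤ) : 𝓢(D → ℝ, ℝ) :=
  if hz : z ∈ D then φ ⟨z, hz⟩ else 0

private theorem kg_g0 {D : Finset (ℤ × ℤ)} (φ : D → 𝓢(D → ℝ, ℝ)) (z : ℤ × ℤ) (h : D → ℝ) :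
    g0 D (fun y => φ y h) z = kg_z φ z h := by
  unfold g0 gl kg_z
  split_ifs with hz
  · rfl
  · rfl

private theorem kg_w {D : Finset (ℤ × ℤ)} (b : ℤ × ℤ → ℝ) (s : ℝ) (φ : D → 𝓢(D → ℝ, ℝ))
    (z : ℤ × ℤ) (h : D → ℝ) :
    g0 D (fun y => wf D b s φ y h) z = Real.exp (Vs D b s h / 2) * kg_z φ z h := by
  unfold g0 gl kg_z wf
  split_ifs with hz
  · rfl
  · simp

private theorem kg_sq {D : Finset (ℤ × ℤ)} (f : 𝓢(D → ℝ, ℝ)) : Integrable (fun h => (f h) ^ 2) :=
  (f.memLp 2).integrable_sq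

private theorem kg_glc (D : Finset (ℤ × ℤ)) (b : ℤ × ℤ → ℝ) (z : ℤ × ℤ) :
    Continuous (fun h : D → ℝ => gl D b h z) := gl_cont D b z

private theorem kg_int2 {D : Finset (ℤ × ℤ)} (b : ℤ × ℤ → ℝ) {s : ℝ} (hs : 1 ≤ s)
    (f : 𝓢(D → ℝ, ℝ)) (x y : ℤ × ℤ) :
    Integrable (fun h => Us2 s (gl D b h x - gl D b h y) * (f h) ^ 2) := by
  refine ((kg_sq f).const_mul (s ^ 3)).mono' ?_ (ae_of_all _ fun h => ?_)
  · exact (((Us2_cont hs).comp ((kg_glc D b x).sub (kg_glc D b y))).mul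
      (f.continuous.pow 2)).aestronglyMeasurable
  · have h1 := Us2_nonneg hs (gl D b h x - gl D b h y)
    have h2 := Us2_le hs (gl D b h x - gl D b h y)
    rw [Real.norm_of_nonneg (by positivity)]
    gcongr

private theorem kg_exp {D : Finset (ℤ × ℤ)} {b : ℤ × ℤ → ℝ} {s : ℝ} (hs : 1 ≤ s) {h : D → ℝ}
    (hh : h ∈ K D b) : Real.exp (Vs D b s h) ≤ Real.exp (6 * (D.card : ℝ) / s) :=
  Real.exp_le_exp.2 (Vs_K hs hh)

private theorem kg_half (t : ℝ) : Real.exp (t / 2) ^ 2 = Real.exp t := by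
  rw [sq, ← Real.exp_add]
  congr 1
  ring

theorem Ea_nonneg (D : Finset (ℤ × ℤ)) (b : ℤ × ℤ → ℝ) (s : ℝ) (φ : D → 𝓢(D → ℝ, ℝ)) :
    0 ≤ Ea D b s φ := by
  unfold Ea
  exact Finset.sum_nonneg fun _ _ => Finset.sum_nonneg fun _ _ =>
    integral_nonneg fun _ => sq_nonneg _

theorem Eb_nonneg (D : Finset (ℤ × ℤ)) (b : ℤ × ℤ → ℝ) {s : ℝ} (hs : 1 ≤ s)
    (φ : D → 𝓢(D → ℝ, ℝ)) : 0 ≤ Eb D b s φ := by
  unfold Eb
  refine integral_nonneg fun h => ?_
  have h1 := Vs_hess D b hs h (fun x => φ x h)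
  show 0 ≤ ∑ x, ∑ y, pd y (pd x (Vs D b s)) h * φ x h * φ y h
  rw [h1]
  exact Finset.sum_nonneg fun _ _ => Finset.sum_nonneg fun _ _ =>
    mul_nonneg (Us2_nonneg hs _) (sq_nonneg _)

theorem wf_diff (D : Finset (ℤ × ℤ)) (b : ℤ × ℤ → ℝ) {s : ℝ} (hs : 1 ≤ s)
    (φ : D → 𝓢(D → ℝ, ℝ)) (x : D) : ContDiff ℝ 1 (wf D b s φ x) := by
  have h1 : ContDiff ℝ 1 (Vs D b s) := (Vs_temp D b hs).1.of_le (by exact_mod_cast le_top)
  have h2 : ContDiff ℝ 1 (φ x) := (φ x).smooth 1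
  exact (h1.div_const 2).exp.mul h2

theorem ET_le {D : Finset (ℤ × ℤ)} {b : ℤ × ℤ → ℝ} (hb : ∀ z, |b z| ≤ 1 / 2) {s : ℝ}
    (hs : 1 ≤ s) (φ : D → 𝓢(D → ℝ, ℝ)) :
    ET D b (wf D b s φ) ≤ ENNReal.ofReal (Real.exp (6 * (D.card : ℝ) / s) * Ea D b s φ) := by
  set c := Real.exp (6 * (D.card : ℝ) / s) with hc
  have hc0 : 0 ≤ c := (Real.exp_pos _).le
  have key : ∀ x : D, Gr D b (wf D b s φ x) ≤
      ENNReal.ofReal (c * ∑ y, ∫ h, (av (Vs D b s) y (φ x) h) ^ 2) := by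
    intro x
    have hint : Integrable (fun h => c * ∑ y, (av (Vs D b s) y (φ x) h) ^ 2) :=
      (integrable_finsetSum _ fun y _ => kg_sq _).const_mul c
    have h1 : Gr D b (wf D b s φ x) ≤ ∫⁻ h in K D b, ENNReal.ofReal
        (c * ∑ y, (av (Vs D b s) y (φ x) h) ^ 2) := by
      unfold Gr
      refine setLIntegral_mono' (K_meas D b) fun h hh => ENNReal.ofReal_le_ofReal ?_
      have h2 : gr (wf D b s φ x) h = ∑ y, Real.exp (Vs D b s h) *
          (av (Vs D b s) y (φ x) h) ^ 2 := by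
        unfold gr
        refine Finset.sum_congr rfl fun y _ => ?_
        have h3 : pd y (wf D b s φ x) h = Real.exp (Vs D b s h / 2) * av (Vs D b s) y (φ x) h :=
          pd_exp (Vs_temp D b hs) (φ x) y h
        rw [h3, mul_pow, kg_half]
      rw [h2, ← Finset.mul_sum]
      exact mul_le_mul_of_nonneg_right (kg_exp hs hh)
        (Finset.sum_nonneg fun _ _ => sq_nonneg _)
    refine h1.trans ((setLIntegral_le_lintegral _ _).trans (le_of_eq ?_))
    rw [← ofReal_integral_eq_lintegral_ofReal hint (ae_of_all _ fun h =>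
      mul_nonneg hc0 (Finset.sum_nonneg fun _ _ => sq_nonneg _)), integral_const_mul,
      integral_finsetSum _ fun y _ => kg_sq _]
  unfold ET Ea
  refine (Finset.sum_le_sum fun x _ => key x).trans (le_of_eq ?_)
  rw [← ENNReal.ofReal_sum_of_nonneg, Finset.mul_sum]
  exact fun x _ => mul_nonneg hc0 (Finset.sum_nonneg fun _ _ => integral_nonneg fun _ => sq_nonneg _)

theorem E2_le {D : Finset (ℤ × ℤ)} {b : ℤ × ℤ → ℝ} (hb : ∀ z, |b z| ≤ 1 / 2) {s : ℝ}
    (hs : 1 ≤ s) (φ : D → 𝓢(D → ℝ, ℝ)) :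
    E2 D b s (wf D b s φ) ≤ ENNReal.ofReal (Real.exp (6 * (D.card : ℝ) / s) * Eb D b s φ) := by
  set c := Real.exp (6 * (D.card : ℝ) / s) with hc
  have hc0 : 0 ≤ c := (Real.exp_pos _).le
  obtain ⟨T, hT⟩ : ∃ T : ℤ × ℤ → Fin 6 → (D → ℝ) → ℝ, ∀ x i h, T x i h =
      Us2 s (gl D b h x - gl D b h (x + st i)) * ((kg_z φ x - kg_z φ (x + st i)) h) ^ 2 :=
    ⟨_, fun _ _ _ => rfl⟩
  have hT0 : ∀ x i h, 0 ≤ T x i h := fun x i h => by
    rw [hT]
    exact mul_nonneg (Us2_nonneg hs _) (sq_nonneg _)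
  have hTi : ∀ x i, Integrable (T x i) := fun x i => by
    have h1 := kg_int2 b hs (kg_z φ x - kg_z φ (x + st i)) x (x + st i)
    have h2 : T x i = fun h => Us2 s (gl D b h x - gl D b h (x + st i)) *
      ((kg_z φ x - kg_z φ (x + st i)) h) ^ 2 := funext fun h => hT x i h
    rw [h2]
    exact h1
  have key : ∀ x i, ∫⁻ h in K D b, ENNReal.ofReal
      (Us2 s (gl D b h x - gl D b h (x + st i)) *
        (g0 D (fun y => wf D b s φ y h) x - g0 D (fun y => wf D b s φ y h) (x + st i)) ^ 2) ≤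
      ENNReal.ofReal (c * ∫ h, T x i h) := by
    intro x i
    have h1 : ∫⁻ h in K D b, ENNReal.ofReal
      (Us2 s (gl D b h x - gl D b h (x + st i)) *
        (g0 D (fun y => wf D b s φ y h) x - g0 D (fun y => wf D b s φ y h) (x + st i)) ^ 2) ≤
        ∫⁻ h in K D b, ENNReal.ofReal (c * T x i h) := by
      refine setLIntegral_mono' (K_meas D b) fun h hh => ENNReal.ofReal_le_ofReal ?_
      rw [kg_w, kg_w, hT]
      have h3 : (Real.exp (Vs D b s h / 2) * kg_z φ x h -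
          Real.exp (Vs D b s h / 2) * kg_z φ (x + st i) h) ^ 2 =
          Real.exp (Vs D b s h) * ((kg_z φ x - kg_z φ (x + st i)) h) ^ 2 := by
        rw [← mul_sub, mul_pow, kg_half]
        rfl
      rw [h3]
      have h4 := kg_exp (b := b) hs hh
      have h5 := Us2_nonneg hs (gl D b h x - gl D b h (x + st i))
      calc _ = Real.exp (Vs D b s h) * (Us2 s (gl D b h x - gl D b h (x + st i)) *
            ((kg_z φ x - kg_z φ (x + st i)) h) ^ 2) := by ring
        _ ≤ _ := by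
          refine mul_le_mul_of_nonneg_right h4 (mul_nonneg h5 (sq_nonneg _))
    refine h1.trans ((setLIntegral_le_lintegral _ _).trans (le_of_eq ?_))
    rw [← ofReal_integral_eq_lintegral_ofReal ((hTi x i).const_mul c) (ae_of_all _ fun h =>
      mul_nonneg hc0 (hT0 x i h)), integral_const_mul]
  have hEb : Eb D b s φ = ∑ x ∈ D, ∑ i, ∫ h, T x i h := by
    unfold Eb
    have h1 : ∀ h, ∑ x, ∑ y, pd y (pd x (Vs D b s)) h * φ x h * φ y h =
        ∑ x ∈ D, ∑ i, T x i h := by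
      intro h
      rw [Vs_hess D b hs h (fun x => φ x h)]
      refine Finset.sum_congr rfl fun x _ => Finset.sum_congr rfl fun i _ => ?_
      rw [hT, kg_g0, kg_g0]
      rfl
    rw [integral_congr_ae (ae_of_all _ h1), integral_finsetSum _ fun x _ =>
      integrable_finsetSum _ fun i _ => hTi x i]
    exact Finset.sum_congr rfl fun x _ => integral_finsetSum _ fun i _ => hTi x i
  unfold E2
  refine (Finset.sum_le_sum fun x _ => Finset.sum_le_sum fun i _ => key x i).trans (le_of_eq ?_)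
  have hI0 : ∀ x i, 0 ≤ c * ∫ h, T x i h := fun x i => mul_nonneg hc0 (integral_nonneg (hT0 x i))
  rw [hEb, Finset.mul_sum, ENNReal.ofReal_sum_of_nonneg]
  · refine Finset.sum_congr rfl fun x _ => ?_
    rw [Finset.mul_sum, ENNReal.ofReal_sum_of_nonneg fun i _ => hI0 x i]
  · exact fun x _ => mul_nonneg hc0 (Finset.sum_nonneg fun i _ => integral_nonneg (hT0 x i))

theorem Ik_le {D : Finset (ℤ × ℤ)} {b : ℤ × ℤ → ℝ} {s : ℝ} (hs : 1 ≤ s)
    (φ : D → 𝓢(D → ℝ, ℝ)) (x : ℤ × ℤ) (i : Fin 6) :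
    ENNReal.ofReal (Ik D b s φ x i) ≤ ∫⁻ h in K D b, ENNReal.ofReal
      |g0 D (fun y => wf D b s φ y h) x - g0 D (fun y => wf D b s φ y h) (x + st i)| := by
  have hVc : Continuous (Vs D b s) := (Vs_temp D b hs).1.continuous
  have h1 : Ik D b s φ x i = ∫ h in K D b, |kg_z φ x h - kg_z φ (x + st i) h| *
      Real.exp (- Vs D b s h / 2) := by
    unfold Ik
    refine integral_congr_ae (ae_of_all _ fun h => ?_)
    simp only [kg_g0]
  have h2 : Continuous (fun h => |kg_z φ x h - kg_z φ (x + st i) h| *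
      Real.exp (- Vs D b s h / 2)) :=
    (((kg_z φ x).continuous.sub (kg_z φ (x + st i)).continuous).abs.mul
      (Real.continuous_exp.comp (hVc.neg.div_const 2)))
  rw [h1, integral_eq_lintegral_of_nonneg_ae (ae_of_all _ fun h => by positivity)
    h2.aestronglyMeasurable]
  refine ENNReal.ofReal_toReal_le.trans ?_
  refine lintegral_mono fun h => ENNReal.ofReal_le_ofReal ?_
  rw [kg_w, kg_w, ← mul_sub, abs_mul, abs_of_pos (Real.exp_pos _), mul_comm]
  refine mul_le_mul_of_nonneg_right (Real.exp_le_exp.2 ?_) (abs_nonneg _)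
  have := Vs_nonneg D b hs h
  linarith
/- END kg -/

/- MODULE kh
The exterior: `ext_Vs` for `ζ = φ_x - φ_y` (or `φ_x` if `y ∉ D`):
`∑_y' ∫ (av V y' ζ)^2 ≤ 4 Ea`. -/
private theorem kh_one {D : Finset (ℤ × ℤ)} {b : ℤ × ℤ → ℝ} {s : ℝ}
    (φ : D → 𝓢(D → ℝ, ℝ)) (x : D) :
    ∑ y, ∫ h, (av (Vs D b s) y (φ x) h) ^ 2 ≤ Ea D b s φ := by
  unfold Ea
  exact Finset.single_le_sum (f := fun x => ∑ y, ∫ h, (av (Vs D b s) y (φ x) h) ^ 2)
    (fun x _ => Finset.sum_nonneg fun y _ => integral_nonneg fun h => sq_nonneg _)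
    (Finset.mem_univ x)

private theorem kh_sq {E : Type*} [NormedAddCommGroup E] [NormedSpace ℝ E]
    [MeasurableSpace E] [BorelSpace E] [SecondCountableTopology E] {μ : Measure E}
    [μ.HasTemperateGrowth] (f : 𝓢(E, ℝ)) : Integrable (fun h => (f h) ^ 2) μ :=
  (f.memLp 2 μ).integrable_sq

private theorem kh_two {ι : Type*} [Fintype ι] (f g : 𝓢(ι → ℝ, ℝ)) :
    ∫ h, ((f - g) h) ^ 2 ≤ 2 * (∫ h, (f h) ^ 2) + 2 * ∫ h, (g h) ^ 2 := by
  rw [← integral_const_mul, ← integral_const_mul,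
    ← integral_add ((kh_sq f).const_mul 2) ((kh_sq g).const_mul 2)]
  refine integral_mono (kh_sq _) (((kh_sq f).const_mul 2).add ((kh_sq g).const_mul 2)) fun h => ?_
  show ((f - g) h) ^ 2 ≤ 2 * (f h) ^ 2 + 2 * (g h) ^ 2
  rw [sub_apply]
  nlinarith [sq_nonneg (f h + g h)]

theorem If_le {D : Finset (ℤ × ℤ)} {b : ℤ × ℤ → ℝ} (hb : ∀ z, |b z| ≤ 1 / 2) :
    ∃ c s₀ : ℝ, 0 ≤ c ∧ 1 ≤ s₀ ∧ ∀ s, s₀ ≤ s → ∀ (φ : D → 𝓢(D → ℝ, ℝ)), ∀ x ∈ D, ∀ i,
      If D b s φ x i ≤ (1 + c / s) * Ik D b s φ x i + 2 * c / s * Real.sqrt (Ea D b s φ) := by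
  classical
  obtain ⟨c, s₀, hc, hs₀, H⟩ := ext_Vs (D := D) hb
  refine ⟨c, s₀, hc, hs₀, ?_⟩
  intro s hs φ x hx i
  have hs1 : 1 ≤ s := hs₀.trans hs
  set V := Vs D b s with hV
  set ζ : 𝓢(D → ℝ, ℝ) := φ ⟨x, hx⟩ - (if hy : x + st i ∈ D then φ ⟨x + st i, hy⟩ else 0) with hζ
  have hζh : ∀ h, ζ h = g0 D (fun y => φ y h) x - g0 D (fun y => φ y h) (x + st i) := by
    intro h
    unfold g0
    rw [gl_mem hx, hζ, sub_apply]
    congr 1
    by_cases hy : x + st i ∈ D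
    · rw [dif_pos hy, gl_mem hy]
    · rw [dif_neg hy, gl_not_mem hy, zero_apply]
  have hVc : Continuous V := (Vs_temp D b hs1).1.continuous
  have hint : Integrable (fun h => |ζ h| * Real.exp (- V h / 2)) := by
    refine Integrable.mul_bdd (c := 1) ζ.integrable.abs ?_ ?_
    · exact (Real.continuous_exp.comp (hVc.neg.div_const 2)).aestronglyMeasurable
    · refine Filter.Eventually.of_forall fun h => ?_
      rw [Real.norm_eq_abs, abs_of_pos (Real.exp_pos _)]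
      refine Real.exp_le_one_iff.2 ?_
      have := Vs_nonneg D b hs1 h
      linarith
  have hKm := K_meas D b
  have e1 : If D b s φ x i = (∫ h in K D b, |ζ h| * Real.exp (- V h / 2)) +
      ∫ h in (K D b)ᶜ, |ζ h| * Real.exp (- V h / 2) := by
    rw [integral_add_compl hKm hint]
    unfold If
    refine integral_congr_ae (Filter.Eventually.of_forall fun h => ?_)
    simp only [hζh]
    rfl
  have e2 : Ik D b s φ x i = ∫ h in K D b, |ζ h| * Real.exp (- V h / 2) := by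
    unfold Ik
    refine integral_congr_ae (Filter.Eventually.of_forall fun h => ?_)
    simp only [hζh]
    rfl
  have e3 := H s hs ζ
  have hEa0 : 0 ≤ Ea D b s φ := Finset.sum_nonneg fun x _ => Finset.sum_nonneg fun y _ =>
    integral_nonneg fun h => sq_nonneg _
  have e4 : ∑ y, ∫ h, (av V y ζ h) ^ 2 ≤ 4 * Ea D b s φ := by
    by_cases hy : x + st i ∈ D
    · have h1 : ζ = φ ⟨x, hx⟩ - φ ⟨x + st i, hy⟩ := by rw [hζ, dif_pos hy]
      calc ∑ y, ∫ h, (av V y ζ h) ^ 2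
          ≤ ∑ y, (2 * (∫ h, (av V y (φ ⟨x, hx⟩) h) ^ 2) +
              2 * ∫ h, (av V y (φ ⟨x + st i, hy⟩) h) ^ 2) := by
            refine Finset.sum_le_sum fun y _ => ?_
            rw [h1, map_sub]
            exact kh_two _ _
        _ = 2 * (∑ y, ∫ h, (av V y (φ ⟨x, hx⟩) h) ^ 2) +
              2 * ∑ y, ∫ h, (av V y (φ ⟨x + st i, hy⟩) h) ^ 2 := by
            rw [Finset.sum_add_distrib, Finset.mul_sum, Finset.mul_sum]
        _ ≤ 2 * Ea D b s φ + 2 * Ea D b s φ :=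
            add_le_add (mul_le_mul_of_nonneg_left (kh_one φ _) (by norm_num))
              (mul_le_mul_of_nonneg_left (kh_one φ _) (by norm_num))
        _ = 4 * Ea D b s φ := by ring
    · have h1 : ζ = φ ⟨x, hx⟩ := by rw [hζ, dif_neg hy, sub_zero]
      rw [h1]
      have := kh_one (b := b) (s := s) φ ⟨x, hx⟩
      linarith
  have e5 : Real.sqrt (∑ y, ∫ h, (av V y ζ h) ^ 2) ≤ 2 * Real.sqrt (Ea D b s φ) := by
    calc Real.sqrt (∑ y, ∫ h, (av V y ζ h) ^ 2) ≤ Real.sqrt (4 * Ea D b s φ) :=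
          Real.sqrt_le_sqrt e4
      _ = 2 * Real.sqrt (Ea D b s φ) := by
          rw [Real.sqrt_mul (by norm_num), show (4 : ℝ) = 2 ^ 2 by norm_num,
            Real.sqrt_sq (by norm_num)]
  have hcs : 0 ≤ c / s := div_nonneg hc (by linarith)
  rw [e1, e2]
  calc (∫ h in K D b, |ζ h| * Real.exp (- V h / 2)) +
      ∫ h in (K D b)ᶜ, |ζ h| * Real.exp (- V h / 2)
      ≤ (∫ h in K D b, |ζ h| * Real.exp (- V h / 2)) +
        c / s * ((∫ h in K D b, |ζ h| * Real.exp (- V h / 2)) +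
          2 * Real.sqrt (Ea D b s φ)) := by
        refine add_le_add_right (e3.trans (mul_le_mul_of_nonneg_left ?_ hcs)) _
        exact add_le_add_right e5 _
    _ = _ := by ring
/- END kh -/

/- MODULE ki
The main estimate: `If^2 ≤ 8 Ik^2 + 8 (c/s)^2 Ea` for `c ≤ s`, `sum_est`, `ET_le`, `E2_le`, `Ik_le`,
and `s` so large that `6 |D| ≤ s`, `1536 |D| (fs D s)^2 ≤ 1 ≤ Z D b` (`Z_one_le`),
`48 |D| (c / s)^2 ≤ 1`; constant `8 (768 C^2 + 1) e + 1`. -/
private theorem ki_fs (D : Finset (ℤ × ℤ)) {s : ℝ} (hs : 0 < s)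
    (h : 36864 * (D.card : ℝ) * 25 ^ D.card * (2 * ((D.card : ℝ) + 1)) ^ D.card ≤ s) :
    1536 * (D.card : ℝ≥0∞) * fs D s ^ 2 ≤ 1 := by
  have hX : (ENNReal.ofReal (6 * (2 * ((D.card : ℝ) + 1)) ^ D.card / s) ^ (1 / 2 : ℝ)) ^ 2 =
      ENNReal.ofReal (6 * (2 * ((D.card : ℝ) + 1)) ^ D.card / s) := by
    rw [← ENNReal.rpow_natCast, ← ENNReal.rpow_mul]; norm_num
  have h5 : ((2 : ℝ≥0∞) * 5 ^ D.card) ^ 2 = ENNReal.ofReal (4 * 25 ^ D.card) := by
    rw [ENNReal.ofReal_mul (by positivity), ENNReal.ofReal_pow (by positivity), mul_pow,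
      ← pow_mul, mul_comm D.card 2, pow_mul]
    norm_num
  have h6 : (1536 : ℝ≥0∞) * (D.card : ℝ≥0∞) = ENNReal.ofReal (1536 * D.card) := by
    rw [ENNReal.ofReal_mul (by positivity)]
    norm_num
  unfold fs
  rw [mul_pow, hX, h5, h6, ← ENNReal.ofReal_mul (by positivity),
    ← ENNReal.ofReal_mul (by positivity), ← ENNReal.ofReal_one]
  apply ENNReal.ofReal_le_ofReal
  rw [← mul_div_assoc, ← mul_div_assoc, div_le_one hs]
  refine le_trans (le_of_eq ?_) h
  ring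

private theorem ki_one {D : Finset (ℤ × ℤ)} {b : ℤ × ℤ → ℝ} (hb : ∀ z, |b z| ≤ 1 / 2) :
    1 ≤ (Z D b).toReal := by
  have h1 : 1 ≤ Z D b := Z_one_le (fun z _ _ => hb z)
  have h2 := Z_lt_top D b
  have := ENNReal.toReal_mono h2.ne h1
  simpa using this

private theorem ki_core {C : ℝ≥0∞} (hC : C < ⊤) (hL : LocC C) {D : Finset (ℤ × ℤ)}
    {b : ℤ × ℤ → ℝ} (hb : ∀ z, |b z| ≤ 1 / 2) {s : ℝ} (hs : 1 ≤ s) (h6 : 6 * (D.card : ℝ) ≤ s)
    (hf : 1536 * (D.card : ℝ≥0∞) * fs D s ^ 2 ≤ 1) (φ : D → 𝓢(D → ℝ, ℝ)) :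
    ∑ x ∈ D, ∑ i, (Ik D b s φ x i) ^ 2 ≤
      (768 * C.toReal ^ 2 + 1) * Real.exp 1 * (Z D b).toReal * (Ea D b s φ + Eb D b s φ) := by
  have hEa := Ea_nonneg D b s φ
  have hEb := Eb_nonneg D b hs φ
  have hZ1 := ki_one hb (D := D)
  have hIk0 : ∀ x i, 0 ≤ Ik D b s φ x i := by
    intro x i
    unfold Ik
    apply integral_nonneg
    intro h
    positivity
  have hexp : Real.exp (6 * (D.card : ℝ) / s) ≤ Real.exp 1 := by
    apply Real.exp_le_exp.2
    rw [div_le_one (by linarith)]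
    exact h6
  have hT : ET D b (wf D b s φ) ≤ ENNReal.ofReal (Real.exp 1 * Ea D b s φ) :=
    (ET_le hb hs φ).trans (ENNReal.ofReal_le_ofReal (mul_le_mul_of_nonneg_right hexp hEa))
  have hE2 : E2 D b s (wf D b s φ) ≤ ENNReal.ofReal (Real.exp 1 * Eb D b s φ) :=
    (E2_le hb hs φ).trans (ENNReal.ofReal_le_ofReal (mul_le_mul_of_nonneg_right hexp hEb))
  have hS := sum_est hL hb (w := wf D b s φ) (fun x => wf_diff D b hs φ x) hs
  have hCr : C = ENNReal.ofReal C.toReal := (ENNReal.ofReal_toReal hC.ne).symm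
  have hZr : Z D b = ENNReal.ofReal (Z D b).toReal :=
    (ENNReal.ofReal_toReal (Z_lt_top D b).ne).symm
  have key : ENNReal.ofReal (∑ x ∈ D, ∑ i, (Ik D b s φ x i) ^ 2) ≤ ENNReal.ofReal
      ((768 * C.toReal ^ 2 + 1) * Real.exp 1 * (Z D b).toReal * (Ea D b s φ + Eb D b s φ)) := by
    calc ENNReal.ofReal (∑ x ∈ D, ∑ i, (Ik D b s φ x i) ^ 2)
        = ∑ x ∈ D, ∑ i, (ENNReal.ofReal (Ik D b s φ x i)) ^ 2 := by
          rw [ENNReal.ofReal_sum_of_nonneg (fun x _ => Finset.sum_nonneg fun i _ => sq_nonneg _)]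
          refine Finset.sum_congr rfl fun x _ => ?_
          rw [ENNReal.ofReal_sum_of_nonneg (fun i _ => sq_nonneg _)]
          refine Finset.sum_congr rfl fun i _ => ?_
          rw [ENNReal.ofReal_pow (hIk0 x i)]
      _ ≤ ∑ x ∈ D, ∑ i : Fin 6, (∫⁻ h in K D b, ENNReal.ofReal
            |g0 D (fun y => wf D b s φ y h) x - g0 D (fun y => wf D b s φ y h) (x + st i)|) ^ 2 := by
          refine Finset.sum_le_sum fun x _ => Finset.sum_le_sum fun i _ => ?_
          exact pow_le_pow_left' (Ik_le hs φ x i) 2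
      _ ≤ _ := hS
      _ ≤ 768 * C ^ 2 * Z D b * ENNReal.ofReal (Real.exp 1 * Ea D b s φ) +
            1 * (ENNReal.ofReal (Real.exp 1 * Eb D b s φ) +
              ENNReal.ofReal (Real.exp 1 * Ea D b s φ)) := by
          gcongr
      _ = ENNReal.ofReal (768 * C.toReal ^ 2 * (Z D b).toReal * (Real.exp 1 * Ea D b s φ) +
            (Real.exp 1 * Eb D b s φ + Real.exp 1 * Ea D b s φ)) := by
          rw [ENNReal.ofReal_add (by positivity) (by positivity),
            ENNReal.ofReal_add (p := Real.exp 1 * Eb D b s φ) (by positivity) (by positivity),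
            ENNReal.ofReal_mul (p := 768 * C.toReal ^ 2 * (Z D b).toReal) (by positivity),
            ENNReal.ofReal_mul (p := 768 * C.toReal ^ 2) (by positivity),
            ENNReal.ofReal_mul (p := 768) (by positivity), ENNReal.ofReal_pow (by positivity),
            ← hCr, ← hZr, one_mul]
          norm_num
      _ ≤ _ := by
          apply ENNReal.ofReal_le_ofReal
          have e1 := Real.exp_pos 1
          have a1 : 0 ≤ Real.exp 1 * Ea D b s φ := by positivity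
          have a2 : 0 ≤ Real.exp 1 * Eb D b s φ := by positivity
          have a3 : 0 ≤ 768 * C.toReal ^ 2 * (Z D b).toReal * (Real.exp 1 * Eb D b s φ) := by
            positivity
          have a4 : Real.exp 1 * Eb D b s φ + Real.exp 1 * Ea D b s φ ≤
              (Z D b).toReal * (Real.exp 1 * Eb D b s φ + Real.exp 1 * Ea D b s φ) :=
            le_mul_of_one_le_left (by positivity) hZ1
          nlinarith [a1, a2, a3, a4]
  exact (ENNReal.ofReal_le_ofReal_iff (by positivity)).1 key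

theorem main_est : ∃ C : ℝ, 0 ≤ C ∧ ∀ (D : Finset (ℤ × ℤ)) (b : ℤ × ℤ → ℝ),
    (∀ z, |b z| ≤ 1 / 2) → ∃ s : ℝ, 1 ≤ s ∧ 6 * (D.card : ℝ) ≤ s ∧
      ∀ φ : D → 𝓢(D → ℝ, ℝ), ∑ x ∈ D, ∑ i, (If D b s φ x i) ^ 2 ≤
        C * (Z D b).toReal * (Ea D b s φ + Eb D b s φ) := by
  obtain ⟨C0, hC0, hL⟩ := loc_exists
  refine ⟨8 * ((768 * C0.toReal ^ 2 + 1) * Real.exp 1) + 1, by positivity, ?_⟩
  intro D b hb
  obtain ⟨c, s₀, hc, hs₀, hIf⟩ := If_le hb (D := D)
  obtain ⟨s, hsd⟩ : ∃ s : ℝ, s = s₀ + 6 * (D.card : ℝ) + 7 * ((D.card : ℝ) + 1) * (c + 1) +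
      36864 * (D.card : ℝ) * 25 ^ D.card * (2 * ((D.card : ℝ) + 1)) ^ D.card := ⟨_, rfl⟩
  have hn : (0 : ℝ) ≤ (D.card : ℝ) := Nat.cast_nonneg _
  have p1 : 0 ≤ 36864 * (D.card : ℝ) * 25 ^ D.card * (2 * ((D.card : ℝ) + 1)) ^ D.card := by
    positivity
  have p2 : 0 ≤ 7 * ((D.card : ℝ) + 1) * (c + 1) := by positivity
  have hs1 : 1 ≤ s := by linarith
  have hss : s₀ ≤ s := by linarith
  have h6 : 6 * (D.card : ℝ) ≤ s := by linarith
  have h7 : 7 * ((D.card : ℝ) + 1) * (c + 1) ≤ s := by linarith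
  have h8 : 36864 * (D.card : ℝ) * 25 ^ D.card * (2 * ((D.card : ℝ) + 1)) ^ D.card ≤ s := by
    linarith
  have hspos : 0 < s := by linarith
  refine ⟨s, hs1, h6, fun φ => ?_⟩
  have hcore := ki_core hC0 hL hb hs1 h6 (ki_fs D hspos h8) φ
  have hEa := Ea_nonneg D b s φ
  have hEb := Eb_nonneg D b hs1 φ
  have hZ1 := ki_one hb (D := D)
  have hcs : c / s ≤ 1 := by
    rw [div_le_one hspos]
    nlinarith
  have hcs0 : 0 ≤ c / s := by positivity
  have h48 : 48 * (D.card : ℝ) * (c / s) ^ 2 ≤ 1 := by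
    rw [div_pow, ← mul_div_assoc, div_le_one (by positivity)]
    have : (7 * ((D.card : ℝ) + 1) * (c + 1)) ^ 2 ≤ s ^ 2 := by gcongr
    refine le_trans ?_ this
    have q1 : c ^ 2 ≤ (c + 1) ^ 2 := by gcongr; linarith
    have q2 : 48 * (D.card : ℝ) ≤ 49 * ((D.card : ℝ) + 1) ^ 2 := by nlinarith
    calc 48 * (D.card : ℝ) * c ^ 2 ≤ 49 * ((D.card : ℝ) + 1) ^ 2 * (c + 1) ^ 2 := by gcongr
      _ = _ := by ring
  have hterm : ∀ x ∈ D, ∀ i, (If D b s φ x i) ^ 2 ≤
      8 * (Ik D b s φ x i) ^ 2 + 8 * (c / s) ^ 2 * Ea D b s φ := by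
    intro x hx i
    have h1 := hIf s hss φ x hx i
    have hIk0 : 0 ≤ Ik D b s φ x i := by
      unfold Ik
      apply integral_nonneg
      intro h
      positivity
    have hIf0 : 0 ≤ If D b s φ x i := by
      unfold If
      apply integral_nonneg
      intro h
      positivity
    have h2 : If D b s φ x i ≤ 2 * Ik D b s φ x i + 2 * (c / s) * Real.sqrt (Ea D b s φ) := by
      refine h1.trans ?_
      have : (1 + c / s) * Ik D b s φ x i ≤ 2 * Ik D b s φ x i :=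
        mul_le_mul_of_nonneg_right (by linarith) hIk0
      have e : 2 * c / s * Real.sqrt (Ea D b s φ) = 2 * (c / s) * Real.sqrt (Ea D b s φ) := by
        ring
      linarith
    have h3 : (If D b s φ x i) ^ 2 ≤
        (2 * Ik D b s φ x i + 2 * (c / s) * Real.sqrt (Ea D b s φ)) ^ 2 := by
      gcongr
    refine h3.trans ?_
    have h4 := Real.sq_sqrt hEa
    have h5 : (c / s) ^ 2 * Ea D b s φ = ((c / s) * Real.sqrt (Ea D b s φ)) ^ 2 := by
      rw [mul_pow, h4]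
    have h6 : 8 * (c / s) ^ 2 * Ea D b s φ = 8 * ((c / s) * Real.sqrt (Ea D b s φ)) ^ 2 := by
      rw [← h5]; ring
    rw [h6]
    nlinarith [sq_nonneg (2 * Ik D b s φ x i - 2 * ((c / s) * Real.sqrt (Ea D b s φ)))]
  have hsum : ∑ x ∈ D, ∑ i, (If D b s φ x i) ^ 2 ≤
      8 * (∑ x ∈ D, ∑ i, (Ik D b s φ x i) ^ 2) +
        48 * (D.card : ℝ) * (c / s) ^ 2 * Ea D b s φ := by
    calc ∑ x ∈ D, ∑ i, (If D b s φ x i) ^ 2
        ≤ ∑ x ∈ D, ∑ i : Fin 6, (8 * (Ik D b s φ x i) ^ 2 + 8 * (c / s) ^ 2 * Ea D b s φ) :=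
          Finset.sum_le_sum fun x hx => Finset.sum_le_sum fun i _ => hterm x hx i
      _ = _ := by
          simp only [Finset.sum_add_distrib, ← Finset.mul_sum, Finset.sum_const,
            Finset.card_univ, Fintype.card_fin, nsmul_eq_mul]
          push_cast
          ring
  have h9 : 48 * (D.card : ℝ) * (c / s) ^ 2 * Ea D b s φ ≤
      (Z D b).toReal * (Ea D b s φ + Eb D b s φ) := by
    calc 48 * (D.card : ℝ) * (c / s) ^ 2 * Ea D b s φ ≤ 1 * Ea D b s φ := by gcongr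
      _ ≤ 1 * (Ea D b s φ + Eb D b s φ) := by gcongr; linarith
      _ ≤ _ := by gcongr
  calc ∑ x ∈ D, ∑ i, (If D b s φ x i) ^ 2 ≤ _ := hsum
    _ ≤ 8 * ((768 * C0.toReal ^ 2 + 1) * Real.exp 1 * (Z D b).toReal *
          (Ea D b s φ + Eb D b s φ)) + (Z D b).toReal * (Ea D b s φ + Eb D b s φ) := by
        gcongr
    _ = _ := by ring
/- END ki -/

/-- coefficients of the linear function `∑ t (x, i) (h x - h (x + st i))` -/
def cf (D : Finset (ℤ × ℤ)) (t : ℤ × ℤ → Fin 6 → ℝ) (x : D) : ℝ :=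
  ∑ y ∈ D, ∑ i, t y i * (g0 D (Pi.single x (1 : ℝ)) y - g0 D (Pi.single x (1 : ℝ)) (y + st i))

/-- the linear functional -/
def Ln (D : Finset (ℤ × ℤ)) (b : ℤ × ℤ → ℝ) (t : ℤ × ℤ → Fin 6 → ℝ) (h : D → ℝ) : ℝ :=
  ∑ x ∈ D, ∑ i, t x i * (gl D b h x - gl D b h (x + st i))

/- MODULE kj
`∑ x, cf x * k x = ∑ t (y, i) (g0 k y - g0 k (y + st i))`, and `Ln D b t h - ∑ x, cf x * h x` does
not depend on `h`.  The bound for `L2`: by `hs_exists` (hypotheses `Vs_temp`, `Vs_Wf`, `Vs_low`) for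
every `η > 0`: `L2 ≤ ∑ t (y,i) ∫ (φ_y - φ_(y + st i)) e^{-V/2} + η ≤ (∑ t^2)^(1/2) (∑ If^2)^(1/2) + η`
`≤ (∑ t^2 * C Z (L2 + η))^(1/2) + η`; let `η → 0`. -/
private theorem kj_g0 (D : Finset (ℤ × ℤ)) (k : D → ℝ) (z : ℤ × ℤ) :
    ∑ x, g0 D (Pi.single x (1 : ℝ)) z * k x = g0 D k z := by
  unfold g0 gl
  by_cases hz : z ∈ D
  · simp only [hz, dite_true]
    rw [Finset.sum_eq_single (⟨z, hz⟩ : D)]
    · simp
    · intro x _ hx
      rw [Pi.single_eq_of_ne (Ne.symm hx)]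
      simp
    · intro h
      exact absurd (Finset.mem_univ _) h
  · simp [hz]

theorem cf_sum (D : Finset (ℤ × ℤ)) (t : ℤ × ℤ → Fin 6 → ℝ) (k : D → ℝ) :
    ∑ x, cf D t x * k x = ∑ y ∈ D, ∑ i, t y i * (g0 D k y - g0 D k (y + st i)) := by
  unfold cf
  simp only [Finset.sum_mul]
  rw [Finset.sum_comm]
  refine Finset.sum_congr rfl fun y _ => ?_
  rw [Finset.sum_comm]
  refine Finset.sum_congr rfl fun i _ => ?_
  rw [← kj_g0 D k y, ← kj_g0 D k (y + st i), ← Finset.sum_sub_distrib, Finset.mul_sum]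
  refine Finset.sum_congr rfl fun x _ => ?_
  ring

private theorem kj_gl (D : Finset (ℤ × ℤ)) (b : ℤ × ℤ → ℝ) (h : D → ℝ) (z : ℤ × ℤ) :
    gl D b h z = g0 D h z + gl D b (fun _ => 0) z := by
  unfold g0 gl
  by_cases hz : z ∈ D
  · simp [hz]
  · simp [hz]

theorem Ln_cf (D : Finset (ℤ × ℤ)) (b : ℤ × ℤ → ℝ) (t : ℤ × ℤ → Fin 6 → ℝ) (h : D → ℝ) :
    Ln D b t h = ∑ x, cf D t x * h x + Ln D b t (fun _ => 0) := by
  rw [cf_sum]
  unfold Ln
  rw [← Finset.sum_add_distrib]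
  refine Finset.sum_congr rfl fun x _ => ?_
  rw [← Finset.sum_add_distrib]
  refine Finset.sum_congr rfl fun i _ => ?_
  rw [kj_gl D b h x, kj_gl D b h (x + st i)]
  ring

private theorem kj_int {D : Finset (ℤ × ℤ)} {b : ℤ × ℤ → ℝ}
    (hb : ∀ z, |b z| ≤ 1 / 2) {s : ℝ} (hs : 1 ≤ s) (ψ : 𝓢(D → ℝ, ℝ)) :
    Integrable (fun h => ψ h * Real.exp (- Vs D b s h / 2)) := by
  have hV : Continuous (Vs D b s) := (Vs_temp D b hs).1.continuous
  refine ψ.integrable.mul_bdd (c := Real.exp ((1 / 2 + 6 * (D.card : ℝ)) / 2)) ?_ ?_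
  · exact (Real.continuous_exp.comp (hV.neg.div_const 2)).aestronglyMeasurable
  · refine Filter.Eventually.of_forall fun h => ?_
    rw [Real.norm_eq_abs, abs_of_pos (Real.exp_pos _)]
    exact exp_bdd one_pos (Vs_low hb hs) h

private theorem kj_g0_int {D : Finset (ℤ × ℤ)} {b : ℤ × ℤ → ℝ}
    (hb : ∀ z, |b z| ≤ 1 / 2) {s : ℝ} (hs : 1 ≤ s) (φ : D → 𝓢(D → ℝ, ℝ)) (z : ℤ × ℤ) :
    Integrable (fun h => g0 D (fun y => φ y h) z * Real.exp (- Vs D b s h / 2)) ∧
      g0 D (fun y => ∫ h, φ y h * Real.exp (- Vs D b s h / 2)) z =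
        ∫ h, g0 D (fun y => φ y h) z * Real.exp (- Vs D b s h / 2) := by
  unfold g0 gl
  by_cases hz : z ∈ D
  · simp only [hz, dite_true]
    exact ⟨kj_int hb hs _, trivial⟩
  · simp [hz]

private theorem kj_edge {D : Finset (ℤ × ℤ)} {b : ℤ × ℤ → ℝ}
    (hb : ∀ z, |b z| ≤ 1 / 2) {s : ℝ} (hs : 1 ≤ s) (φ : D → 𝓢(D → ℝ, ℝ)) (x : ℤ × ℤ)
    (i : Fin 6) :
    |g0 D (fun y => ∫ h, φ y h * Real.exp (- Vs D b s h / 2)) x -
      g0 D (fun y => ∫ h, φ y h * Real.exp (- Vs D b s h / 2)) (x + st i)| ≤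
      If D b s φ x i := by
  rw [(kj_g0_int hb hs φ x).2, (kj_g0_int hb hs φ (x + st i)).2,
    ← integral_sub (kj_g0_int hb hs φ x).1 (kj_g0_int hb hs φ (x + st i)).1]
  refine (abs_integral_le_integral_abs).trans (le_of_eq ?_)
  unfold If
  refine integral_congr_ae (Filter.Eventually.of_forall fun h => ?_)
  simp only
  rw [← sub_mul, abs_mul, abs_of_pos (Real.exp_pos _)]

theorem L2_le {C : ℝ} (hC : 0 ≤ C) {D : Finset (ℤ × ℤ)} {b : ℤ × ℤ → ℝ}
    (hb : ∀ z, |b z| ≤ 1 / 2) {s : ℝ} (hs : 1 ≤ s)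
    (H : ∀ φ : D → 𝓢(D → ℝ, ℝ), ∑ x ∈ D, ∑ i, (If D b s φ x i) ^ 2 ≤
      C * (Z D b).toReal * (Ea D b s φ + Eb D b s φ)) (t : ℤ × ℤ → Fin 6 → ℝ) :
    L2 (Vs D b s) (cf D t) ≤ C * (Z D b).toReal * ∑ x ∈ D, ∑ i, (t x i) ^ 2 := by
  obtain ⟨T, hT⟩ : ∃ T, T = ∑ x ∈ D, ∑ i, (t x i) ^ 2 := ⟨_, rfl⟩
  have hT0 : 0 ≤ T := by
    rw [hT]
    exact Finset.sum_nonneg fun x _ => Finset.sum_nonneg fun i _ => sq_nonneg _
  have hZ0 : 0 ≤ (Z D b).toReal := ENNReal.toReal_nonneg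
  have key : ∀ η : ℝ, 0 < η → L2 (Vs D b s) (cf D t) ≤
      Real.sqrt (T * (C * (Z D b).toReal * (L2 (Vs D b s) (cf D t) + η))) + η := by
    intro η hη
    obtain ⟨φ, h1, h2⟩ := hs_exists (Vs_temp D b hs) (Vs_Wf D b hs) one_pos (Vs_low hb hs)
      (cf D t) hη
    have h2' : Ea D b s φ + Eb D b s φ ≤ L2 (Vs D b s) (cf D t) + η := h2
    refine h1.trans ?_
    rw [cf_sum]
    gcongr ?_ + η
    have h3 : ∑ y ∈ D, ∑ i, t y i *
        (g0 D (fun y => ∫ h, φ y h * Real.exp (- Vs D b s h / 2)) y -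
          g0 D (fun y => ∫ h, φ y h * Real.exp (- Vs D b s h / 2)) (y + st i)) ≤
        ∑ y ∈ D, ∑ i, |t y i| * If D b s φ y i := by
      refine Finset.sum_le_sum fun y _ => Finset.sum_le_sum fun i _ => ?_
      refine (le_abs_self _).trans ?_
      rw [abs_mul]
      exact mul_le_mul_of_nonneg_left (kj_edge hb hs φ y i) (abs_nonneg _)
    refine h3.trans ?_
    have h4 : ∑ y ∈ D, ∑ i, |t y i| * If D b s φ y i =
        ∑ p ∈ D ×ˢ (Finset.univ : Finset (Fin 6)), |t p.1 p.2| * If D b s φ p.1 p.2 := by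
      rw [Finset.sum_product]
    rw [h4]
    have h5 := Finset.sum_mul_sq_le_sq_mul_sq (D ×ˢ (Finset.univ : Finset (Fin 6)))
      (fun p => |t p.1 p.2|) (fun p => If D b s φ p.1 p.2)
    have h6 : ∑ p ∈ D ×ˢ (Finset.univ : Finset (Fin 6)), (|t p.1 p.2|) ^ 2 = T := by
      rw [hT, Finset.sum_product]
      simp only [sq_abs]
    have h7 : ∑ p ∈ D ×ˢ (Finset.univ : Finset (Fin 6)), (If D b s φ p.1 p.2) ^ 2 ≤
        C * (Z D b).toReal * (L2 (Vs D b s) (cf D t) + η) := by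
      rw [Finset.sum_product]
      exact (H φ).trans (mul_le_mul_of_nonneg_left h2' (mul_nonneg hC hZ0))
    apply Real.le_sqrt_of_sq_le
    refine h5.trans ?_
    rw [h6]
    exact mul_le_mul_of_nonneg_left h7 hT0
  rw [← hT]
  by_contra hcon
  push Not at hcon
  obtain ⟨L, hL⟩ : ∃ L, L = L2 (Vs D b s) (cf D t) := ⟨_, rfl⟩
  obtain ⟨M, hM⟩ : ∃ M, M = C * (Z D b).toReal * T := ⟨_, rfl⟩
  have hM0 : 0 ≤ M := by rw [hM]; positivity
  rw [← hL, ← hM] at hcon
  have hη : 0 < (L - M) / 6 := by linarith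
  have h1 := key ((L - M) / 6) hη
  rw [← hL] at h1
  have h2 : L - (L - M) / 6 ≤ Real.sqrt (M * (L + (L - M) / 6)) := by
    have e : M * (L + (L - M) / 6) = T * (C * (Z D b).toReal * (L + (L - M) / 6)) := by
      rw [hM]; ring
    rw [e]
    linarith
  have h3 : 0 ≤ L - (L - M) / 6 := by linarith
  have h4 : (L - (L - M) / 6) ^ 2 ≤ M * (L + (L - M) / 6) := by
    have h5 := pow_le_pow_left₀ h3 h2 2
    rwa [Real.sq_sqrt (by
      apply mul_nonneg hM0
      linarith)] at h5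
  nlinarith
/- END kj -/

/- MODULE kk
`∫_K (Ln - m)^2 ≤ e ∫ (Ln - m)^2 e^{-V} = e * L2` with `m = mn + const`, because `V ≤ 6 |D| / s ≤ 1`
on `K` (`Vs_K`, `6 |D| ≤ s`); `main_est`, `L2_le`. -/
theorem var_est : ∃ C : ℝ, 0 ≤ C ∧ ∀ (D : Finset (ℤ × ℤ)) (b : ℤ × ℤ → ℝ),
    (∀ z, |b z| ≤ 1 / 2) → ∀ t : ℤ × ℤ → Fin 6 → ℝ, ∃ m : ℝ,
      ∫ h in K D b, (Ln D b t h - m) ^ 2 ≤
        C * (Z D b).toReal * ∑ x ∈ D, ∑ i, (t x i) ^ 2 := by
  obtain ⟨C, hC, H⟩ := main_est
  refine ⟨Real.exp 1 * C, by positivity, ?_⟩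
  intro D b hb t
  obtain ⟨s, hs, hDs, H'⟩ := H D b hb
  have hs0 : 0 < s := by linarith
  have hL2 := L2_le hC hb hs H' t
  set V := Vs D b s with hV
  have hVc : Continuous V := (Vs_temp D b hs).1.continuous
  refine ⟨mn V (cf D t) + Ln D b t (fun _ => 0), ?_⟩
  have e1 : ∀ h, Ln D b t h - (mn V (cf D t) + Ln D b t (fun _ => 0)) =
      ∑ x, cf D t x * h x - mn V (cf D t) := by
    intro h
    rw [Ln_cf D b t h]
    ring
  have hmem : MemLp (Lf V (cf D t)) 2 :=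
    Lf_mem hVc one_pos (fun h => Vs_low hb hs h) (cf D t)
  have e2 : ∀ h, (Lf V (cf D t) h) ^ 2 =
      (∑ x, cf D t x * h x - mn V (cf D t)) ^ 2 * Real.exp (- V h) := by
    intro h
    unfold Lf
    rw [mul_pow, ← Real.exp_nat_mul]
    congr 2
    push_cast
    ring
  have hint : Integrable (fun h => (∑ x, cf D t x * h x - mn V (cf D t)) ^ 2 *
      Real.exp (- V h)) := by
    have := hmem.integrable_sq
    exact this.congr (Filter.Eventually.of_forall fun h => e2 h)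
  have hKm := K_meas D b
  calc ∫ h in K D b, (Ln D b t h - (mn V (cf D t) + Ln D b t (fun _ => 0))) ^ 2
      ≤ ∫ h in K D b, Real.exp 1 * ((∑ x, cf D t x * h x - mn V (cf D t)) ^ 2 *
          Real.exp (- V h)) := by
        refine integral_mono_of_nonneg (Filter.Eventually.of_forall fun h => sq_nonneg _)
          (hint.integrableOn.const_mul _) ?_
        rw [Filter.EventuallyLE, ae_restrict_iff' hKm]
        refine Filter.Eventually.of_forall fun h hh => ?_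
        show (Ln D b t h - (mn V (cf D t) + Ln D b t (fun _ => 0))) ^ 2 ≤ _
        rw [e1]
        have h1 : V h ≤ 1 := by
          refine (Vs_K hs hh).trans ?_
          rw [div_le_one hs0]
          exact hDs
        have h2 : 1 ≤ Real.exp 1 * Real.exp (- V h) := by
          rw [← Real.exp_add]
          exact Real.one_le_exp (by linarith)
        calc (∑ x, cf D t x * h x - mn V (cf D t)) ^ 2
            = (∑ x, cf D t x * h x - mn V (cf D t)) ^ 2 * 1 := (mul_one _).symm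
          _ ≤ (∑ x, cf D t x * h x - mn V (cf D t)) ^ 2 * (Real.exp 1 * Real.exp (- V h)) :=
              mul_le_mul_of_nonneg_left h2 (sq_nonneg _)
          _ = _ := by ring
    _ = Real.exp 1 * ∫ h in K D b, (∑ x, cf D t x * h x - mn V (cf D t)) ^ 2 *
          Real.exp (- V h) := integral_const_mul _ _
    _ ≤ Real.exp 1 * L2 V (cf D t) := by
        refine mul_le_mul_of_nonneg_left ?_ (Real.exp_pos 1).le
        unfold L2
        refine setIntegral_le_integral hint (Filter.Eventually.of_forall fun h => ?_)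
        exact mul_nonneg (sq_nonneg _) (Real.exp_pos _).le
    _ ≤ Real.exp 1 * (C * (Z D b).toReal * ∑ x ∈ D, ∑ i, (t x i) ^ 2) :=
        mul_le_mul_of_nonneg_left hL2 (Real.exp_pos 1).le
    _ = _ := by ring
/- END kk -/

/- MODULE kl
THE THEOREM.  `volume[|K D b] = (Z D b)⁻¹ • volume.restrict (K D b)` is a probability measure
(`1 ≤ Z < ⊤`), and `Var X ≤ E (X - m)^2` for every `m`. -/
theorem prob {D : Finset (ℤ × ℤ)} {b : ℤ × ℤ → ℝ} (hb : ∀ z, |b z| ≤ 1 / 2) :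
    IsProbabilityMeasure (ProbabilityTheory.cond volume (K D b)) := by
  have h1 : 1 ≤ Z D b := Z_one_le (fun z _ _ => hb z)
  refine ProbabilityTheory.cond_isProbabilityMeasure_of_finite ?_ (Z_lt_top D b).ne
  intro h0
  rw [show Z D b = 0 from h0] at h1
  exact absurd h1 (by norm_num)

private theorem kl_cont (D : Finset (ℤ × ℤ)) (b : ℤ × ℤ → ℝ) (t : ℤ × ℤ → Fin 6 → ℝ) :
    Continuous (Ln D b t) := by
  unfold Ln
  refine continuous_finsetSum _ fun x _ => continuous_finsetSum _ fun i _ => ?_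
  exact ((gl_cont D b x).sub (gl_cont D b (x + st i))).const_mul _

theorem var_main : ∃ C : ℝ, 0 ≤ C ∧ ∀ (D : Finset (ℤ × ℤ)) (b : ℤ × ℤ → ℝ),
    (∀ z, |b z| ≤ 1 / 2) → ∀ t : ℤ × ℤ → Fin 6 → ℝ,
      ProbabilityTheory.variance (Ln D b t) (ProbabilityTheory.cond volume (K D b)) ≤
        C * ∑ x ∈ D, ∑ i, (t x i) ^ 2 := by
  obtain ⟨C, hC, H⟩ := var_est
  refine ⟨C, hC, ?_⟩
  intro D b hb t
  obtain ⟨m, hm⟩ := H D b hb t
  have hP := prob (D := D) hb
  have hmeas : AEStronglyMeasurable (Ln D b t) (ProbabilityTheory.cond volume (K D b)) :=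
    (kl_cont D b t).aestronglyMeasurable
  have hmeas' : AEStronglyMeasurable (fun h => Ln D b t h - m)
      (ProbabilityTheory.cond volume (K D b)) :=
    ((kl_cont D b t).sub continuous_const).aestronglyMeasurable
  have h1 : 1 ≤ Z D b := Z_one_le (fun z _ _ => hb z)
  have hZ : 0 < (Z D b).toReal :=
    ENNReal.toReal_pos (by
      intro h0
      rw [h0] at h1
      exact absurd h1 (by norm_num)) (Z_lt_top D b).ne
  rw [← ProbabilityTheory.variance_sub_const hmeas m]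
  refine (ProbabilityTheory.variance_le_expectation_sq hmeas').trans ?_
  unfold ProbabilityTheory.cond
  rw [integral_smul_measure, ENNReal.toReal_inv, smul_eq_mul]
  show (Z D b).toReal⁻¹ * (∫ h in K D b, (Ln D b t h - m) ^ 2) ≤ _
  calc (Z D b).toReal⁻¹ * (∫ h in K D b, (Ln D b t h - m) ^ 2)
      ≤ (Z D b).toReal⁻¹ * (C * (Z D b).toReal * ∑ x ∈ D, ∑ i, (t x i) ^ 2) :=
        mul_le_mul_of_nonneg_left hm (inv_nonneg.2 hZ.le)
    _ = C * ∑ x ∈ D, ∑ i, (t x i) ^ 2 := by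
        field_simp
/- END kl -/

/- MODULE wa
Adding a constant does not change the variance: if `X = Ln D b t + const` on all `h`, the bound
holds for `X`. -/
theorem var_of {C : ℝ} (hC : ∀ (D : Finset (ℤ × ℤ)) (b : ℤ × ℤ → ℝ),
    (∀ z, |b z| ≤ 1 / 2) → ∀ t : ℤ × ℤ → Fin 6 → ℝ,
      ProbabilityTheory.variance (Ln D b t) (ProbabilityTheory.cond volume (K D b)) ≤
        C * ∑ x ∈ D, ∑ i, (t x i) ^ 2)
    {D : Finset (ℤ × ℤ)} {b : ℤ × ℤ → ℝ} (hb : ∀ z, |b z| ≤ 1 / 2)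
    {t : ℤ × ℤ → Fin 6 → ℝ} {X : (D → ℝ) → ℝ} {c : ℝ} (hX : ∀ h, X h = Ln D b t h + c) :
    ProbabilityTheory.variance X (ProbabilityTheory.cond volume (K D b)) ≤
      C * ∑ x ∈ D, ∑ i, (t x i) ^ 2 := by
  have hP := prob (D := D) hb
  have hmeas : AEStronglyMeasurable (Ln D b t) (ProbabilityTheory.cond volume (K D b)) :=
    (kl_cont D b t).aestronglyMeasurable
  have e : X = fun h => Ln D b t h + c := funext hX
  rw [e, ProbabilityTheory.variance_add_const hmeas c]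
  exact hC D b hb t
/- END wa -/

/- MODULE wb
The flow through a sector.  Let `z = x₀ + (p, q)`, `p, q ≥ 0`, `k = p + q`; the edge `z → z + st 0`
carries `(p+1)/((k+1)(k+2))`, the edge `z → z + st 1` carries `(q+1)/((k+1)(k+2))`.  Every site of
level `k` receives and sends `1/(k+1)` (`x₀` sends `1`).  So
`H x₀ = ∑_{levels k ≤ R} θ(z → z') (H z - H z') + (R+2)⁻¹ ∑_{level R+1} H z`, and the sites of level
`R + 1` are not in `D`.  Edges with `z ∈ D` give `t (z, 0)`, `t (z, 1)`; edges with `z ∉ D`, `z' ∈ D`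
give `t (z', 3)`, `t (z', 4)` (with the opposite sign); edges outside `D` are constants.
`∑ t^2 ≤ ∑_{k ≤ R} ∑_{p+q=k} ((p+1)^2 + (q+1)^2)/((k+1)(k+2))^2 ≤ ∑_{k ≤ R} 2/(k+1)
≤ 2 (1 + log (R+1))`. -/
private def wb_t (D S : Finset (ℤ × ℤ)) (θ : ℤ × ℤ → ℝ) (j : Fin 6) (z : ℤ × ℤ) (i : Fin 6) :
    ℝ :=
  if i = j then (if z ∈ S then θ z else 0)
  else if i = j + 3 then
    (if z + st (j + 3) ∈ S ∧ z + st (j + 3) ∉ D then - θ (z + st (j + 3)) else 0)
  else 0

private theorem wb_ne (j : Fin 6) : j + 3 ≠ j := by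
  fin_cases j <;> decide

private theorem wb_gen (D S : Finset (ℤ × ℤ)) (θ : ℤ × ℤ → ℝ) (j : Fin 6)
    (Φ : ℤ × ℤ → Fin 6 → ℝ → ℝ) (h0 : ∀ z i, Φ z i 0 = 0) :
    ∑ z ∈ D, ∑ i, Φ z i (wb_t D S θ j z i) =
      ∑ z ∈ S.filter (fun z => z ∈ D), Φ z j (θ z) +
        ∑ z ∈ S.filter (fun z => z ∉ D ∧ z + st j ∈ D), Φ (z + st j) (j + 3) (- θ z) := by
  have h1 : ∀ z, ∑ i, Φ z i (wb_t D S θ j z i) =
      (if z ∈ S then Φ z j (θ z) else 0) +
        (if z + st (j + 3) ∈ S ∧ z + st (j + 3) ∉ D then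
          Φ z (j + 3) (- θ (z + st (j + 3))) else 0) := by
    intro z
    rw [Finset.sum_eq_add j (j + 3) (wb_ne j).symm]
    · congr 1
      · unfold wb_t
        rw [if_pos rfl]
        by_cases hz : z ∈ S
        · rw [if_pos hz, if_pos hz]
        · rw [if_neg hz, if_neg hz, h0]
      · unfold wb_t
        rw [if_neg (wb_ne j), if_pos rfl]
        by_cases hz : z + st (j + 3) ∈ S ∧ z + st (j + 3) ∉ D
        · rw [if_pos hz, if_pos hz]
        · rw [if_neg hz, if_neg hz, h0]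
    · intro i _ hi
      unfold wb_t
      rw [if_neg hi.1, if_neg hi.2, h0]
    · intro h
      exact absurd (Finset.mem_univ _) h
    · intro h
      exact absurd (Finset.mem_univ _) h
  simp only [h1]
  rw [Finset.sum_add_distrib]
  congr 1
  · rw [← Finset.sum_filter]
    refine Finset.sum_congr ?_ fun _ _ => rfl
    ext z
    simp only [Finset.mem_filter]
    exact and_comm
  · rw [← Finset.sum_filter]
    refine Finset.sum_nbij' (fun z => z + st (j + 3)) (fun z => z + st j) ?_ ?_ ?_ ?_ ?_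
    · intro z hz
      obtain ⟨hz1, hz2, hz3⟩ := Finset.mem_filter.1 hz
      refine Finset.mem_filter.2 ⟨hz2, hz3, ?_⟩
      rw [st_neg, neg_add_cancel_right]
      exact hz1
    · intro z hz
      obtain ⟨hz1, hz2, hz3⟩ := Finset.mem_filter.1 hz
      refine Finset.mem_filter.2 ⟨hz3, ?_⟩
      rw [st_neg, add_neg_cancel_right]
      exact ⟨hz1, hz2⟩
    · intro z _
      show z + st (j + 3) + st j = z
      rw [st_neg, neg_add_cancel_right]
    · intro z _
      show z + st j + st (j + 3) = z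
      rw [st_neg, add_neg_cancel_right]
    · intro z _
      show Φ z (j + 3) (- θ (z + st (j + 3))) =
        Φ (z + st (j + 3) + st j) (j + 3) (- θ (z + st (j + 3)))
      rw [st_neg, neg_add_cancel_right]

private theorem wb_sq (D S : Finset (ℤ × ℤ)) (θ : ℤ × ℤ → ℝ) (j : Fin 6) :
    ∑ z ∈ D, ∑ i, (wb_t D S θ j z i) ^ 2 ≤ ∑ z ∈ S, (θ z) ^ 2 := by
  rw [wb_gen D S θ j (fun _ _ τ => τ ^ 2) (fun _ _ => by norm_num)]
  simp only [neg_sq]
  rw [← Finset.sum_filter_add_sum_filter_not S (fun z => z ∈ D) (fun z => (θ z) ^ 2)]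
  refine add_le_add_right ?_ _
  refine Finset.sum_le_sum_of_subset_of_nonneg ?_ fun _ _ _ => sq_nonneg _
  intro z hz
  obtain ⟨hz1, hz2, _⟩ := Finset.mem_filter.1 hz
  exact Finset.mem_filter.2 ⟨hz1, hz2⟩

private theorem wb_edge (D S : Finset (ℤ × ℤ)) (θ : ℤ × ℤ → ℝ) (j : Fin 6) (b : ℤ × ℤ → ℝ) :
    ∃ c : ℝ, ∀ h : D → ℝ, ∑ z ∈ S, θ z * (gl D b h z - gl D b h (z + st j)) =
      Ln D b (wb_t D S θ j) h + c := by
  refine ⟨∑ z ∈ (S.filter (fun z => z ∉ D)).filter (fun z => ¬ z + st j ∈ D),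
    θ z * (b z - b (z + st j)), fun h => ?_⟩
  unfold Ln
  rw [wb_gen D S θ j (fun z i τ => τ * (gl D b h z - gl D b h (z + st i)))
    (fun _ _ => zero_mul _)]
  rw [← Finset.sum_filter_add_sum_filter_not S (fun z => z ∈ D)
    (fun z => θ z * (gl D b h z - gl D b h (z + st j))),
    ← Finset.sum_filter_add_sum_filter_not (S.filter (fun z => z ∉ D)) (fun z => z + st j ∈ D)
    (fun z => θ z * (gl D b h z - gl D b h (z + st j))), add_assoc]
  congr 1
  congr 1
  · rw [Finset.filter_filter]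
    refine Finset.sum_congr rfl fun z _ => ?_
    rw [st_neg, add_neg_cancel_right]
    ring
  · refine Finset.sum_congr rfl fun z hz => ?_
    obtain ⟨hz1, hz2⟩ := Finset.mem_filter.1 hz
    rw [gl_not_mem (Finset.mem_filter.1 hz1).2, gl_not_mem hz2]

private theorem wb_idx {κ : Type} {e : κ → ℤ × ℤ} (he : Function.Injective e) (T : Finset κ)
    (θ : κ → ℝ) (Φ : ℤ × ℤ → ℝ → ℝ) :
    ∑ z ∈ T.image e, Φ z (Function.extend e θ 0 z) = ∑ c ∈ T, Φ (e c) (θ c) := by
  rw [Finset.sum_image fun a _ b _ hab => he hab]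
  refine Finset.sum_congr rfl fun c _ => ?_
  rw [he.extend_apply]

private theorem wb_lvl (F : ℕ × ℕ → ℝ) (k : ℕ) :
    ((k : ℝ) + 1)⁻¹ * (∑ c ∈ Finset.HasAntidiagonal.antidiagonal k, F c) -
      (((k + 1 : ℕ) : ℝ) + 1)⁻¹ * (∑ c ∈ Finset.HasAntidiagonal.antidiagonal (k + 1), F c) =
    ∑ c ∈ Finset.HasAntidiagonal.antidiagonal k,
      (((c.1 : ℝ) + 1) / (((k : ℝ) + 1) * ((k : ℝ) + 2)) * (F c - F (c.1 + 1, c.2)) +
        ((c.2 : ℝ) + 1) / (((k : ℝ) + 1) * ((k : ℝ) + 2)) * (F c - F (c.1, c.2 + 1))) := by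
  have hk1 : ((k : ℝ) + 1) ≠ 0 := by positivity
  have hk2 : ((k : ℝ) + 2) ≠ 0 := by positivity
  have e1 : ∑ c ∈ Finset.HasAntidiagonal.antidiagonal (k + 1), (c.1 : ℝ) * F c =
      ∑ c ∈ Finset.HasAntidiagonal.antidiagonal k, ((c.1 : ℝ) + 1) * F (c.1 + 1, c.2) := by
    rw [Finset.Nat.sum_antidiagonal_succ]
    push_cast
    simp
  have e2 : ∑ c ∈ Finset.HasAntidiagonal.antidiagonal (k + 1), (c.2 : ℝ) * F c =
      ∑ c ∈ Finset.HasAntidiagonal.antidiagonal k, ((c.2 : ℝ) + 1) * F (c.1, c.2 + 1) := by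
    rw [Finset.Nat.sum_antidiagonal_succ']
    push_cast
    simp
  have e3 : ∑ c ∈ Finset.HasAntidiagonal.antidiagonal (k + 1), ((k : ℝ) + 1) * F c =
      (∑ c ∈ Finset.HasAntidiagonal.antidiagonal (k + 1), (c.1 : ℝ) * F c) +
        ∑ c ∈ Finset.HasAntidiagonal.antidiagonal (k + 1), (c.2 : ℝ) * F c := by
    rw [← Finset.sum_add_distrib]
    refine Finset.sum_congr rfl fun c hc => ?_
    have h1 := Finset.HasAntidiagonal.mem_antidiagonal.1 hc
    have h2 : (c.1 : ℝ) + (c.2 : ℝ) = (k : ℝ) + 1 := by exact_mod_cast h1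
    rw [← h2]
    ring
  rw [e1, e2, ← Finset.mul_sum] at e3
  have e4 : ∑ c ∈ Finset.HasAntidiagonal.antidiagonal k,
      (((c.1 : ℝ) + 1) / (((k : ℝ) + 1) * ((k : ℝ) + 2)) * (F c - F (c.1 + 1, c.2)) +
        ((c.2 : ℝ) + 1) / (((k : ℝ) + 1) * ((k : ℝ) + 2)) * (F c - F (c.1, c.2 + 1))) =
      (((k : ℝ) + 1) * ((k : ℝ) + 2))⁻¹ * (∑ c ∈ Finset.HasAntidiagonal.antidiagonal k, ((k : ℝ) + 2) * F c) -
        (((k : ℝ) + 1) * ((k : ℝ) + 2))⁻¹ *
          ((∑ c ∈ Finset.HasAntidiagonal.antidiagonal k, ((c.1 : ℝ) + 1) * F (c.1 + 1, c.2)) +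
            ∑ c ∈ Finset.HasAntidiagonal.antidiagonal k, ((c.2 : ℝ) + 1) * F (c.1, c.2 + 1)) := by
    rw [← Finset.sum_add_distrib, Finset.mul_sum, Finset.mul_sum, ← Finset.sum_sub_distrib]
    refine Finset.sum_congr rfl fun c hc => ?_
    have h1 := Finset.HasAntidiagonal.mem_antidiagonal.1 hc
    have h2 : (c.1 : ℝ) + (c.2 : ℝ) = (k : ℝ) := by exact_mod_cast h1
    rw [← h2]
    ring
  rw [e4, ← e3, ← Finset.mul_sum]
  push_cast
  field_simp
  ring

theorem sector (D : Finset (ℤ × ℤ)) (x₀ : ℤ × ℤ) (R : ℕ) (hR : ∀ z ∈ D, dn (z - x₀) ≤ R) :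
    ∃ t : ℤ × ℤ → Fin 6 → ℝ, (∀ b : ℤ × ℤ → ℝ, ∃ c : ℝ, ∀ h : D → ℝ,
      gl D b h x₀ = Ln D b t h + c) ∧
      ∑ x ∈ D, ∑ i, (t x i) ^ 2 ≤ 2 * (1 + Real.log (R + 1)) := by
  let e : ℕ × ℕ → ℤ × ℤ := fun c => x₀ + ((c.1 : ℤ), (c.2 : ℤ))
  have he : Function.Injective e := by
    intro c d h
    have h1 := add_left_cancel h
    simp only [Prod.mk.injEq, Nat.cast_inj] at h1
    exact Prod.ext h1.1 h1.2
  let T : Finset (ℕ × ℕ) := (Finset.range (R + 1)).biUnion Finset.HasAntidiagonal.antidiagonal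
  have hT : ∀ f : ℕ × ℕ → ℝ, ∑ c ∈ T, f c =
      ∑ k ∈ Finset.range (R + 1), ∑ c ∈ Finset.HasAntidiagonal.antidiagonal k, f c := by
    intro f
    refine Finset.sum_biUnion ?_
    intro k _ l _ hkl
    rw [Function.onFun, Finset.disjoint_left]
    intro c hc hc'
    exact hkl ((Finset.HasAntidiagonal.mem_antidiagonal.1 hc).symm.trans (Finset.HasAntidiagonal.mem_antidiagonal.1 hc'))
  let α : ℕ × ℕ → ℝ := fun c => ((c.1 : ℝ) + 1) /
    ((((c.1 + c.2 : ℕ) : ℝ) + 1) * (((c.1 + c.2 : ℕ) : ℝ) + 2))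
  let β : ℕ × ℕ → ℝ := fun c => ((c.2 : ℝ) + 1) /
    ((((c.1 + c.2 : ℕ) : ℝ) + 1) * (((c.1 + c.2 : ℕ) : ℝ) + 2))
  refine ⟨fun z i => wb_t D (T.image e) (Function.extend e α 0) 0 z i +
    wb_t D (T.image e) (Function.extend e β 0) 1 z i, fun b => ?_, ?_⟩
  · obtain ⟨c0, hc0⟩ := wb_edge D (T.image e) (Function.extend e α 0) 0 b
    obtain ⟨c1, hc1⟩ := wb_edge D (T.image e) (Function.extend e β 0) 1 b
    refine ⟨c0 + c1 + (((R + 1 : ℕ) : ℝ) + 1)⁻¹ *
      ∑ c ∈ Finset.HasAntidiagonal.antidiagonal (R + 1), b (e c), fun h => ?_⟩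
    have h0 := hc0 h
    have h1 := hc1 h
    have hL : Ln D b (fun z i => wb_t D (T.image e) (Function.extend e α 0) 0 z i +
        wb_t D (T.image e) (Function.extend e β 0) 1 z i) h =
        Ln D b (wb_t D (T.image e) (Function.extend e α 0) 0) h +
          Ln D b (wb_t D (T.image e) (Function.extend e β 0) 1) h := by
      unfold Ln
      rw [← Finset.sum_add_distrib]
      refine Finset.sum_congr rfl fun z _ => ?_
      rw [← Finset.sum_add_distrib]
      exact Finset.sum_congr rfl fun i _ => add_mul _ _ _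
    rw [hL]
    rw [wb_idx he T α (fun z τ => τ * (gl D b h z - gl D b h (z + st 0)))] at h0
    rw [wb_idx he T β (fun z τ => τ * (gl D b h z - gl D b h (z + st 1)))] at h1
    have htel : ∀ N : ℕ, gl D b h x₀ =
        (∑ k ∈ Finset.range N, ∑ c ∈ Finset.HasAntidiagonal.antidiagonal k,
          (α c * (gl D b h (e c) - gl D b h (e c + st 0)) +
            β c * (gl D b h (e c) - gl D b h (e c + st 1)))) +
          ((N : ℝ) + 1)⁻¹ * ∑ c ∈ Finset.HasAntidiagonal.antidiagonal N, gl D b h (e c) := by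
      intro N
      induction N with
      | zero =>
        have h00 : x₀ + ((0 : ℤ), (0 : ℤ)) = x₀ := add_zero x₀
        simp [e, h00]
      | succ N ih =>
        rw [Finset.sum_range_succ, add_assoc]
        have h2 := wb_lvl (fun c => gl D b h (e c)) N
        have h3 : ∑ c ∈ Finset.HasAntidiagonal.antidiagonal N,
            (α c * (gl D b h (e c) - gl D b h (e c + st 0)) +
              β c * (gl D b h (e c) - gl D b h (e c + st 1))) =
            ∑ c ∈ Finset.HasAntidiagonal.antidiagonal N,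
              (((c.1 : ℝ) + 1) / (((N : ℝ) + 1) * ((N : ℝ) + 2)) *
                (gl D b h (e c) - gl D b h (e (c.1 + 1, c.2))) +
              ((c.2 : ℝ) + 1) / (((N : ℝ) + 1) * ((N : ℝ) + 2)) *
                (gl D b h (e c) - gl D b h (e (c.1, c.2 + 1)))) := by
          refine Finset.sum_congr rfl fun c hc => ?_
          have h4 := Finset.HasAntidiagonal.mem_antidiagonal.1 hc
          have h5 : e c + st 0 = e (c.1 + 1, c.2) := by
            show x₀ + ((c.1 : ℤ), (c.2 : ℤ)) + ((1 : ℤ), (0 : ℤ)) =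
              x₀ + (((c.1 + 1 : ℕ) : ℤ), (c.2 : ℤ))
            rw [add_assoc]
            congr 1
          have h6 : e c + st 1 = e (c.1, c.2 + 1) := by
            show x₀ + ((c.1 : ℤ), (c.2 : ℤ)) + ((0 : ℤ), (1 : ℤ)) =
              x₀ + ((c.1 : ℤ), ((c.2 + 1 : ℕ) : ℤ))
            rw [add_assoc]
            congr 1
          rw [h5, h6]
          simp only [α, β, h4]
        rw [h3, ← h2]
        conv_lhs => rw [ih]
        ring
    have h2 := htel (R + 1)
    have h3 : ∀ c ∈ Finset.HasAntidiagonal.antidiagonal (R + 1), gl D b h (e c) = b (e c) := by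
      intro c hc
      have h4 := Finset.HasAntidiagonal.mem_antidiagonal.1 hc
      refine gl_not_mem fun hD => ?_
      have h5 := hR _ hD
      have h6 : e c - x₀ = ((c.1 : ℤ), (c.2 : ℤ)) := add_sub_cancel_left _ _
      rw [h6] at h5
      have h7 : ((c.1 : ℤ) + (c.2 : ℤ)) ≤ dn ((c.1 : ℤ), (c.2 : ℤ)) := by
        unfold dn
        exact (le_abs_self _).trans ((le_max_right _ _).trans (le_max_right _ _))
      have h8 : (c.1 : ℤ) + (c.2 : ℤ) = R + 1 := by exact_mod_cast h4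
      omega
    rw [Finset.sum_congr rfl h3] at h2
    rw [← hT, Finset.sum_add_distrib, h0, h1] at h2
    rw [h2]
    ring
  · have hsq : ∀ z i, (wb_t D (T.image e) (Function.extend e α 0) 0 z i +
        wb_t D (T.image e) (Function.extend e β 0) 1 z i) ^ 2 =
        (wb_t D (T.image e) (Function.extend e α 0) 0 z i) ^ 2 +
          (wb_t D (T.image e) (Function.extend e β 0) 1 z i) ^ 2 := by
      intro z i
      have hz : wb_t D (T.image e) (Function.extend e α 0) 0 z i = 0 ∨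
          wb_t D (T.image e) (Function.extend e β 0) 1 z i = 0 := by
        by_cases h1 : i = 0
        · right
          subst h1
          unfold wb_t
          rw [if_neg (by decide), if_neg (by decide)]
        · by_cases h2 : i = 3
          · right
            subst h2
            unfold wb_t
            rw [if_neg (by decide), if_neg (by decide)]
          · left
            unfold wb_t
            rw [if_neg h1, if_neg (by simpa using h2)]
      rcases hz with hz | hz <;> rw [hz] <;> ring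
    have hs : ∑ z ∈ D, ∑ i, (wb_t D (T.image e) (Function.extend e α 0) 0 z i +
        wb_t D (T.image e) (Function.extend e β 0) 1 z i) ^ 2 ≤
        ∑ c ∈ T, ((α c) ^ 2 + (β c) ^ 2) := by
      simp only [hsq, Finset.sum_add_distrib]
      have g0 := wb_sq D (T.image e) (Function.extend e α 0) 0
      have g1 := wb_sq D (T.image e) (Function.extend e β 0) 1
      rw [wb_idx he T α (fun _ τ => τ ^ 2)] at g0
      rw [wb_idx he T β (fun _ τ => τ ^ 2)] at g1
      exact add_le_add g0 g1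
    refine hs.trans ?_
    rw [hT]
    have hk : ∀ k ∈ Finset.range (R + 1),
        ∑ c ∈ Finset.HasAntidiagonal.antidiagonal k, ((α c) ^ 2 + (β c) ^ 2) ≤ ((k : ℝ) + 1)⁻¹ := by
      intro k _
      have h1 : ∀ c ∈ Finset.HasAntidiagonal.antidiagonal k, (α c) ^ 2 + (β c) ^ 2 ≤ (((k : ℝ) + 1) ^ 2)⁻¹ := by
        intro c hc
        have h4 := Finset.HasAntidiagonal.mem_antidiagonal.1 hc
        have h5 : (c.1 : ℝ) + (c.2 : ℝ) = k := by exact_mod_cast h4
        simp only [α, β, h4]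
        have hk1 : (0 : ℝ) < (k : ℝ) + 1 := by positivity
        have hk2 : (0 : ℝ) < (k : ℝ) + 2 := by positivity
        rw [div_pow, div_pow, ← add_div, mul_pow, div_le_iff₀ (by positivity)]
        have hc1 : (0 : ℝ) ≤ c.1 := Nat.cast_nonneg _
        have hc2 : (0 : ℝ) ≤ c.2 := Nat.cast_nonneg _
        rw [inv_mul_cancel_left₀ (by positivity)]
        rw [← h5]
        nlinarith
      refine (Finset.sum_le_card_nsmul _ _ _ h1).trans (le_of_eq ?_)
      rw [Finset.Nat.card_antidiagonal, nsmul_eq_mul]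
      push_cast
      have hk1 : ((k : ℝ) + 1) ≠ 0 := by positivity
      field_simp
    refine (Finset.sum_le_sum hk).trans ?_
    have h1 := harmonic_le_one_add_log (R + 1)
    have h2 : ((harmonic (R + 1) : ℚ) : ℝ) = ∑ k ∈ Finset.range (R + 1), ((k : ℝ) + 1)⁻¹ := by
      unfold harmonic
      push_cast
      rfl
    rw [h2] at h1
    have h3 : 0 ≤ Real.log ((R : ℝ) + 1) := Real.log_nonneg (by
      have : (0 : ℝ) ≤ R := Nat.cast_nonneg _
      linarith)
    push_cast at h1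
    linarith
/- END wb -/

/- MODULE wc
The flow to the right.  `F x = ∑_{j = 0}^{2n} a' (x - (j, 0))` for `x.1 ≤ n`, `a'` = `a` on `D`, zero
elsewhere: `∑_{x ∈ D} a x H x = ∑_{x.1 ≤ n} F x (H x - H (x + st 0)) + ∑_{x.1 = n} F x H (x + st 0)`,
`x + st 0 ∉ D` in the last sum.  `t (x, 0) = F x`, and `t (x, 3) = - F (x + st 3)` if
`x + st 3 ∉ D`.  `|F| ≤ (2n+1)/n^2 ≤ 3/n`, at most `(2n+1)^2 ≤ 9 n^2` sites in `D`:
`∑ t^2 ≤ 2 * 9 n^2 * 9 / n^2 = 162`. -/
theorem right_flow (D : Finset (ℤ × ℤ)) (n : ℕ) (hn : 1 ≤ n)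
    (hD : ∀ z ∈ D, |z.1| ≤ n ∧ |z.2| ≤ n) (a : ℤ × ℤ → ℝ) (ha : ∀ z, |a z| ≤ 1 / (n : ℝ) ^ 2) :
    ∃ t : ℤ × ℤ → Fin 6 → ℝ, (∀ b : ℤ × ℤ → ℝ, ∃ c : ℝ, ∀ h : D → ℝ,
      ∑ x : D, a x * h x = Ln D b t h + c) ∧
      ∑ x ∈ D, ∑ i, (t x i) ^ 2 ≤ 162 := by
  let e : ℕ × ℕ → ℤ × ℤ := fun c => ((c.1 : ℤ) - n, (c.2 : ℤ) - n)
  have he : Function.Injective e := by
    intro c d h
    simp only [e, Prod.mk.injEq] at h
    exact Prod.ext (by omega) (by omega)
  let T : Finset (ℕ × ℕ) := Finset.range (2 * n + 1) ×ˢ Finset.range (2 * n + 1)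
  let a' : ℕ → ℕ → ℝ := fun q m => if e (m, q) ∈ D then a (e (m, q)) else 0
  let g : ℕ → ℕ → ℝ := fun q N => ∑ m ∈ Finset.range N, a' q m
  let θ : ℕ × ℕ → ℝ := fun c => g c.2 (c.1 + 1)
  refine ⟨wb_t D (T.image e) (Function.extend e θ 0) 0, fun b => ?_, ?_⟩
  · obtain ⟨c0, hc0⟩ := wb_edge D (T.image e) (Function.extend e θ 0) 0 b
    refine ⟨c0 + ∑ q ∈ Finset.range (2 * n + 1), g q (2 * n + 1) * b (e (2 * n + 1, q)),
      fun h => ?_⟩
    have h0 := hc0 h
    rw [wb_idx he T θ (fun z τ => τ * (gl D b h z - gl D b h (z + st 0)))] at h0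
    have habel : ∀ (q N : ℕ), ∑ m ∈ Finset.range N, a' q m * gl D b h (e (m, q)) =
        (∑ m ∈ Finset.range N, g q (m + 1) *
          (gl D b h (e (m, q)) - gl D b h (e (m + 1, q)))) +
          g q N * gl D b h (e (N, q)) := by
      intro q N
      induction N with
      | zero => simp [g]
      | succ N ih =>
        rw [Finset.sum_range_succ, Finset.sum_range_succ, ih]
        have : g q (N + 1) = g q N + a' q N := Finset.sum_range_succ _ _
        rw [this]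
        ring
    have h1 : ∑ x : D, a x * h x = ∑ q ∈ Finset.range (2 * n + 1),
        ∑ m ∈ Finset.range (2 * n + 1), a' q m * gl D b h (e (m, q)) := by
      rw [← Finset.sum_product_right' (Finset.range (2 * n + 1)) (Finset.range (2 * n + 1))
        (fun m q => a' q m * gl D b h (e (m, q)))]
      have h2 : ∑ x : D, a x * h x = ∑ z ∈ D, a z * gl D b h z := by
        rw [← Finset.sum_coe_sort D (fun z => a z * gl D b h z)]
        refine Finset.sum_congr rfl fun x _ => ?_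
        rw [gl_mem x.2]
      rw [h2]
      have h3 : D ⊆ T.image e := by
        intro z hz
        have h4 := hD z hz
        rw [abs_le, abs_le] at h4
        refine Finset.mem_image.2 ⟨((z.1 + n).toNat, (z.2 + n).toNat), ?_, ?_⟩
        · refine Finset.mem_product.2 ⟨Finset.mem_range.2 ?_, Finset.mem_range.2 ?_⟩
          · show (z.1 + n).toNat < 2 * n + 1
            omega
          · show (z.2 + n).toNat < 2 * n + 1
            omega
        · show (((z.1 + n).toNat : ℤ) - n, ((z.2 + n).toNat : ℤ) - n) = z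
          ext
          · show ((z.1 + n).toNat : ℤ) - n = z.1
            omega
          · show ((z.2 + n).toNat : ℤ) - n = z.2
            omega
      have h4 : ∑ z ∈ D, a z * gl D b h z =
          ∑ z ∈ T.image e, (if z ∈ D then a z else 0) * gl D b h z := by
        rw [← Finset.sum_subset h3 (f := fun z => (if z ∈ D then a z else 0) * gl D b h z)]
        · refine Finset.sum_congr rfl fun z hz => ?_
          rw [if_pos hz]
        · intro z _ hz
          rw [if_neg hz, zero_mul]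
      rw [h4, Finset.sum_image fun a _ b _ hab => he hab]
    rw [h1]
    simp only [habel]
    rw [Finset.sum_add_distrib]
    have h5 : ∑ q ∈ Finset.range (2 * n + 1), ∑ m ∈ Finset.range (2 * n + 1),
        g q (m + 1) * (gl D b h (e (m, q)) - gl D b h (e (m + 1, q))) =
        ∑ c ∈ T, θ c * (gl D b h (e c) - gl D b h (e c + st 0)) := by
      rw [← Finset.sum_product_right' (Finset.range (2 * n + 1)) (Finset.range (2 * n + 1))
        (fun m q => g q (m + 1) * (gl D b h (e (m, q)) - gl D b h (e (m + 1, q))))]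
      refine Finset.sum_congr rfl fun c _ => ?_
      have h6 : e c + st 0 = e (c.1 + 1, c.2) := by
        show (((c.1 : ℤ) - n, (c.2 : ℤ) - n) : ℤ × ℤ) + ((1 : ℤ), (0 : ℤ)) =
          (((c.1 + 1 : ℕ) : ℤ) - n, (c.2 : ℤ) - n)
        ext
        · show (c.1 : ℤ) - n + 1 = ((c.1 + 1 : ℕ) : ℤ) - n
          push_cast
          ring
        · show (c.2 : ℤ) - n + 0 = (c.2 : ℤ) - n
          ring
      rw [h6]
    rw [h5, h0, add_assoc]
    congr 1
    congr 1
    refine Finset.sum_congr rfl fun q _ => ?_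
    rw [gl_not_mem]
    intro hmem
    have h6 := (hD _ hmem).1
    have h7 : (e (2 * n + 1, q)).1 = (n : ℤ) + 1 := by
      show (((2 * n + 1 : ℕ) : ℤ) - n) = n + 1
      push_cast
      ring
    rw [h7, abs_of_nonneg (by positivity)] at h6
    omega
  · have h1 := wb_sq D (T.image e) (Function.extend e θ 0) 0
    rw [wb_idx he T θ (fun _ τ => τ ^ 2)] at h1
    refine h1.trans ?_
    have hn0 : (0 : ℝ) < n := by exact_mod_cast hn
    have hn1 : (1 : ℝ) ≤ n := by exact_mod_cast hn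
    have h2 : ∀ c ∈ T, (θ c) ^ 2 ≤ (3 / (n : ℝ)) ^ 2 := by
      intro c hc
      have hc1 := Finset.mem_range.1 (Finset.mem_product.1 hc).1
      rw [sq_le_sq, abs_of_nonneg (by positivity : (0 : ℝ) ≤ 3 / (n : ℝ))]
      have h3 : |θ c| ≤ ∑ m ∈ Finset.range (c.1 + 1), (1 / (n : ℝ) ^ 2) := by
        refine (Finset.abs_sum_le_sum_abs _ _).trans (Finset.sum_le_sum fun m _ => ?_)
        simp only [a']
        split_ifs
        · exact ha _
        · rw [abs_zero]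
          positivity
      rw [Finset.sum_const, Finset.card_range, nsmul_eq_mul] at h3
      refine h3.trans ?_
      have h4 : ((c.1 + 1 : ℕ) : ℝ) ≤ 3 * n := by
        have : c.1 + 1 ≤ 3 * n := by omega
        exact_mod_cast this
      calc ((c.1 + 1 : ℕ) : ℝ) * (1 / (n : ℝ) ^ 2) ≤ (3 * n) * (1 / (n : ℝ) ^ 2) :=
            mul_le_mul_of_nonneg_right h4 (by positivity)
        _ = 3 / (n : ℝ) := by
            field_simp
    refine (Finset.sum_le_card_nsmul _ _ _ h2).trans ?_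
    rw [Finset.card_product, Finset.card_range, nsmul_eq_mul]
    have h3 : (((2 * n + 1) * (2 * n + 1) : ℕ) : ℝ) ≤ (3 * n) * (3 * n) := by
      push_cast
      have : (2 * (n : ℝ) + 1) ≤ 3 * n := by linarith
      nlinarith
    calc (((2 * n + 1) * (2 * n + 1) : ℕ) : ℝ) * (3 / (n : ℝ)) ^ 2
        ≤ ((3 * n) * (3 * n)) * (3 / (n : ℝ)) ^ 2 :=
          mul_le_mul_of_nonneg_right h3 (by positivity)
      _ = 81 := by
          field_simp
          norm_num
      _ ≤ 162 := by norm_num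
/- END wc -/

/- MODULE wd
Boundary data `b ≤ 1/2` are dominated by the constant `1/2`: for `b ≤ b'` and `f ≥ 0` nondecreasing,
`(∫_{K b} f) Z b' ≤ Z b (∫_{K b'} f)` by `ad_fin` (`f₁ = f 1_{K b}`, `f₂ = 1_{K b'}`, `f₃ = 1_{K b}`,
`f₄ = f 1_{K b'}`; the minimum of `h ∈ K b`, `h' ∈ K b'` is in `K b`, the maximum in `K b'`).  Take
`f h = max (h x + M) 0` with `M` large (`K_bdd`), `b' = 1/2`, and `∫ h x = 1/2` for `b' = 1/2` by the
symmetry `h ↦ 1 - h`.  Lower bound: reflect.  (`x ∉ D`: the integrand is the constant `b x`.) -/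
private theorem wd_bd {D : Finset (ℤ × ℤ)} {b : ℤ × ℤ → ℝ} (hb : ∀ z, |b z| ≤ 1 / 2) {h : D → ℝ}
    (hh : h ∈ K D b) (x : D) : |h x| ≤ 1 / 2 + D.card :=
  K_bdd (by norm_num) (fun z _ _ => hb z) hh x

private theorem wd_int {D : Finset (ℤ × ℤ)} {b : ℤ × ℤ → ℝ} (hb : ∀ z, |b z| ≤ 1 / 2) (x : D) :
    IntegrableOn (fun h : D → ℝ => h x) (K D b) := by
  refine Measure.integrableOn_of_bounded (M := 1 / 2 + D.card) (Z_lt_top D b).ne
    (measurable_pi_apply x).aestronglyMeasurable ?_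
  rw [ae_restrict_iff' (K_meas D b)]
  exact Filter.Eventually.of_forall fun h hh => wd_bd hb hh x

private theorem wd_minmax {D : Finset (ℤ × ℤ)} {b b' : ℤ × ℤ → ℝ} (hbb : ∀ z, b z ≤ b' z)
    {h h' : D → ℝ} (hh : h ∈ K D b) (hh' : h' ∈ K D b') :
    (fun i => min (h i) (h' i)) ∈ K D b ∧ (fun i => max (h i) (h' i)) ∈ K D b' := by
  have e1 : ∀ z, gl D b (fun i => min (h i) (h' i)) z = min (gl D b h z) (gl D b' h' z) := by
    intro z
    by_cases hz : z ∈ D
    · simp only [gl_mem hz]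
    · simp only [gl_not_mem hz, min_eq_left (hbb z)]
  have e2 : ∀ z, gl D b' (fun i => max (h i) (h' i)) z = max (gl D b h z) (gl D b' h' z) := by
    intro z
    by_cases hz : z ∈ D
    · simp only [gl_mem hz]
    · simp only [gl_not_mem hz, max_eq_right (hbb z)]
  constructor
  · intro x hx i
    rw [e1, e1]
    exact (abs_min_sub_min_le_max _ _ _ _).trans (max_le (hh x hx i) (hh' x hx i))
  · intro x hx i
    rw [e2, e2]
    exact (abs_max_sub_max_le_max _ _ _ _).trans (max_le (hh x hx i) (hh' x hx i))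

private theorem wd_dom {D : Finset (ℤ × ℤ)} {b b' : ℤ × ℤ → ℝ} (hbb : ∀ z, b z ≤ b' z)
    {f : (D → ℝ) → ℝ≥0∞} (hf : Measurable f) (hm : Monotone f) :
    (∫⁻ h in K D b, f h) * Z D b' ≤ Z D b * ∫⁻ h in K D b', f h := by
  have h1 := ad_fin (f₁ := (K D b).indicator f) (f₂ := (K D b').indicator (fun _ => (1 : ℝ≥0∞)))
    (f₃ := (K D b).indicator (fun _ => (1 : ℝ≥0∞))) (f₄ := (K D b').indicator f)
    (hf.indicator (K_meas D b)) (measurable_const.indicator (K_meas D b'))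
    (measurable_const.indicator (K_meas D b)) (hf.indicator (K_meas D b')) (by
      intro h h'
      by_cases hh : h ∈ K D b
      · by_cases hh' : h' ∈ K D b'
        · have h2 := wd_minmax hbb hh hh'
          rw [indicator_of_mem hh, indicator_of_mem hh', indicator_of_mem h2.1,
            indicator_of_mem h2.2, mul_one, one_mul]
          exact hm fun i => le_max_left _ _
        · rw [indicator_of_notMem hh', mul_zero]
          exact bot_le
      · rw [indicator_of_notMem hh, zero_mul]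
        exact bot_le)
  have hi : ∀ c : ℤ × ℤ → ℝ, ∫⁻ h, (K D c).indicator (fun _ => (1 : ℝ≥0∞)) h = Z D c := by
    intro c
    rw [lintegral_indicator_const (K_meas D c), one_mul]
    rfl
  rw [hi, hi, lintegral_indicator (K_meas D b), lintegral_indicator (K_meas D b')] at h1
  exact h1

private theorem wd_cmp {D : Finset (ℤ × ℤ)} {b b' : ℤ × ℤ → ℝ} (hb : ∀ z, |b z| ≤ 1 / 2)
    (hb' : ∀ z, |b' z| ≤ 1 / 2) (hbb : ∀ z, b z ≤ b' z) (x : D) :
    (∫ h in K D b, h x) * (Z D b').toReal ≤ (Z D b).toReal * ∫ h in K D b', h x := by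
  set M : ℝ := 1 / 2 + D.card with hM
  have h1 := wd_dom hbb (f := fun h => ENNReal.ofReal (h x + M)) (by fun_prop)
    (fun h h' hh => ENNReal.ofReal_le_ofReal (by have := hh x; linarith))
  have hge : ∀ c : ℤ × ℤ → ℝ, (∀ z, |c z| ≤ 1 / 2) → 0 ≤ᵐ[volume.restrict (K D c)]
      fun h : D → ℝ => h x + M := by
    intro c hc
    rw [Filter.EventuallyLE, ae_restrict_iff' (K_meas D c)]
    refine Filter.Eventually.of_forall fun h hh => ?_
    have h2 := (abs_le.1 (wd_bd hc hh x)).1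
    show (0 : ℝ) ≤ h x + M
    linarith
  have hin : ∀ c : ℤ × ℤ → ℝ, (∀ z, |c z| ≤ 1 / 2) →
      ∫ h in K D c, (h x + M) = (∫ h in K D c, h x) + M * (Z D c).toReal := by
    intro c hc
    rw [integral_add (wd_int hc x) (integrableOn_const (Z_lt_top D c).ne), setIntegral_const,
      smul_eq_mul, mul_comm M]
    rfl
  have e : ∀ c : ℤ × ℤ → ℝ, (∀ z, |c z| ≤ 1 / 2) →
      ∫⁻ h in K D c, ENNReal.ofReal (h x + M) =
        ENNReal.ofReal ((∫ h in K D c, h x) + M * (Z D c).toReal) := by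
    intro c hc
    have hI : Integrable (fun h : D → ℝ => h x + M) (volume.restrict (K D c)) :=
      (wd_int hc x).add (integrableOn_const (Z_lt_top D c).ne)
    rw [← ofReal_integral_eq_lintegral_ofReal hI (hge c hc), hin c hc]
  rw [e b hb, e b' hb'] at h1
  have h0 : 0 ≤ (∫ h in K D b, h x) + M * (Z D b).toReal := by
    rw [← hin b hb]
    exact integral_nonneg_of_ae (hge b hb)
  have h0' : 0 ≤ (∫ h in K D b', h x) + M * (Z D b').toReal := by
    rw [← hin b' hb']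
    exact integral_nonneg_of_ae (hge b' hb')
  have h2 := ENNReal.toReal_mono
    (ENNReal.mul_ne_top (Z_lt_top D b).ne ENNReal.ofReal_ne_top) h1
  rw [ENNReal.toReal_mul, ENNReal.toReal_mul, ENNReal.toReal_ofReal h0,
    ENNReal.toReal_ofReal h0'] at h2
  nlinarith [h2]

private theorem wd_neg {D : Finset (ℤ × ℤ)} {b : ℤ × ℤ → ℝ} (x : D) :
    ∫ h in K D (fun z => - b z), h x = - ∫ h in K D b, h x := by
  have hK : ∀ h : D → ℝ, -h ∈ K D (fun z => - b z) ↔ h ∈ K D b := by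
    intro h
    have hg : ∀ z, gl D (fun z => - b z) (-h) z = - gl D b h z := by
      intro z
      by_cases hz : z ∈ D
      · simp only [gl_mem hz, Pi.neg_apply]
      · simp only [gl_not_mem hz]
    constructor
    · intro hh y hy i
      have h1 := hh y hy i
      rw [hg, hg, ← abs_neg] at h1
      convert h1 using 2
      ring
    · intro hh y hy i
      have h1 := hh y hy i
      rw [hg, hg, ← abs_neg]
      convert h1 using 2
      ring
  rw [← integral_indicator (K_meas D _), ← integral_indicator (K_meas D _),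
    ← integral_neg_eq_self, ← integral_neg]
  congr 1
  ext h
  by_cases hh : h ∈ K D b
  · rw [indicator_of_mem ((hK h).2 hh), indicator_of_mem hh]
    rfl
  · rw [indicator_of_notMem (fun h1 => hh ((hK h).1 h1)), indicator_of_notMem hh, neg_zero]

private theorem wd_half {D : Finset (ℤ × ℤ)} (x : D) :
    ∫ h in K D (fun _ => 1 / 2), h x = 1 / 2 * (Z D (fun _ => 1 / 2)).toReal := by
  have hc : ∀ z : ℤ × ℤ, |(fun _ => 1 / 2 : ℤ × ℤ → ℝ) z| ≤ 1 / 2 := by
    intro z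
    norm_num
  have hK : ∀ h : D → ℝ, (1 : D → ℝ) - h ∈ K D (fun _ => 1 / 2) ↔
      h ∈ K D (fun _ => 1 / 2) := by
    intro h
    have hg : ∀ z, gl D (fun _ => 1 / 2) (1 - h) z = 1 - gl D (fun _ => 1 / 2) h z := by
      intro z
      by_cases hz : z ∈ D
      · simp only [gl_mem hz, Pi.sub_apply, Pi.one_apply]
      · simp only [gl_not_mem hz]
        norm_num
    constructor
    · intro hh y hy i
      have h1 := hh y hy i
      rw [hg, hg, ← abs_neg] at h1
      convert h1 using 2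
      ring
    · intro hh y hy i
      have h1 := hh y hy i
      rw [hg, hg, ← abs_neg]
      convert h1 using 2
      ring
  have h1 : ∫ h in K D (fun _ => 1 / 2), h x = ∫ h in K D (fun _ => 1 / 2), (1 - h x) := by
    rw [← integral_indicator (K_meas D _), ← integral_indicator (K_meas D _),
      ← integral_sub_left_eq_self _ volume (1 : D → ℝ)]
    congr 1
    ext h
    by_cases hh : h ∈ K D (fun _ => 1 / 2)
    · rw [indicator_of_mem ((hK h).2 hh), indicator_of_mem hh]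
      rfl
    · rw [indicator_of_notMem (fun h1 => hh ((hK h).1 h1)), indicator_of_notMem hh]
  have hI : Integrable (fun _ : D → ℝ => (1 : ℝ)) (volume.restrict (K D (fun _ => 1 / 2))) :=
    integrableOn_const (Z_lt_top D _).ne
  rw [integral_sub hI (wd_int hc x), setIntegral_const, smul_eq_mul, mul_one] at h1
  have h2 : volume.real (K D (fun _ => 1 / 2)) = (Z D (fun _ => 1 / 2)).toReal := rfl
  rw [h2] at h1
  linarith

private theorem wd_up {D : Finset (ℤ × ℤ)} {b : ℤ × ℤ → ℝ} (hb : ∀ z, |b z| ≤ 1 / 2) (x : D) :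
    ∫ h in K D b, h x ≤ 1 / 2 * (Z D b).toReal := by
  have h1 := wd_cmp (b' := fun _ => 1 / 2) hb (fun z => by norm_num)
    (fun z => (abs_le.1 (hb z)).2) x
  rw [wd_half] at h1
  have hZ : 0 < (Z D (fun _ => 1 / 2)).toReal :=
    ENNReal.toReal_pos (lt_of_lt_of_le one_pos (Z_one_le fun z _ _ => by norm_num)).ne'
      (Z_lt_top D _).ne
  have h2 : (∫ h in K D b, h x) * (Z D (fun _ => 1 / 2)).toReal ≤
      (1 / 2 * (Z D b).toReal) * (Z D (fun _ => 1 / 2)).toReal := by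
    linarith
  exact le_of_mul_le_mul_right h2 hZ

theorem mean_le {D : Finset (ℤ × ℤ)} {b : ℤ × ℤ → ℝ} (hb : ∀ z, |b z| ≤ 1 / 2) (x : ℤ × ℤ) :
    |∫ h, gl D b h x ∂(ProbabilityTheory.cond volume (K D b))| ≤ 1 / 2 := by
  by_cases hx : x ∈ D
  · have e1 : ∫ h, gl D b h x ∂(ProbabilityTheory.cond volume (K D b)) =
        (Z D b).toReal⁻¹ * ∫ h in K D b, h ⟨x, hx⟩ := by
      simp only [gl_mem hx]
      rw [ProbabilityTheory.cond, integral_smul_measure, ENNReal.toReal_inv, smul_eq_mul]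
      rfl
    have hZ : 0 < (Z D b).toReal :=
      ENNReal.toReal_pos (lt_of_lt_of_le one_pos (Z_one_le fun z _ _ => hb z)).ne'
        (Z_lt_top D b).ne
    have h1 := wd_up hb ⟨x, hx⟩
    have h2 := wd_up (b := fun z => - b z) (fun z => by rw [abs_neg]; exact hb z) ⟨x, hx⟩
    rw [Z_neg, wd_neg] at h2
    rw [e1, abs_le]
    constructor
    · rw [inv_mul_eq_div, le_div_iff₀ hZ]
      linarith
    · rw [inv_mul_eq_div, div_le_iff₀ hZ]
      linarith
  · haveI := prob (D := D) hb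
    simp only [gl_not_mem hx]
    rw [integral_const, probReal_univ, one_smul]
    exact hb x
/- END wd -/

/- MODULE we
`gl` is bounded on `K D b` (`K_bdd`), so square integrable. -/
theorem gl_memLp {D : Finset (ℤ × ℤ)} {b : ℤ × ℤ → ℝ} (hb : ∀ z, |b z| ≤ 1 / 2) (x : ℤ × ℤ) :
    MemLp (fun h : D → ℝ => gl D b h x) 2 (ProbabilityTheory.cond volume (K D b)) := by
  haveI := prob (D := D) hb
  refine MemLp.of_bound (gl_meas D b x).aestronglyMeasurable (1 / 2 + D.card) ?_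
  filter_upwards [ProbabilityTheory.ae_cond_mem (μ := volume) (K_meas D b)] with h hh
  rw [Real.norm_eq_abs]
  by_cases hx : x ∈ D
  · rw [gl_mem hx]
    exact K_bdd (by norm_num) (fun z _ _ => hb z) hh ⟨x, hx⟩
  · rw [gl_not_mem hx]
    have := hb x
    have h0 : (0 : ℝ) ≤ D.card := Nat.cast_nonneg _
    linarith
/- END we -/

/- MODULE wf
Second moment = variance + square of the mean; `|mean| ≤ ∑_{x ∈ D} |a x| / 2 ≤ (2n+1)^2 / (2 n^2)
≤ 9/2` (`mean_le`, `gl_memLp`). -/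
theorem second_le {D : Finset (ℤ × ℤ)} {b : ℤ × ℤ → ℝ} (hb : ∀ z, |b z| ≤ 1 / 2) {n : ℕ}
    (hn : 1 ≤ n) (hD : ∀ z ∈ D, |z.1| ≤ n ∧ |z.2| ≤ n) {a : ℤ × ℤ → ℝ}
    (ha : ∀ z, |a z| ≤ 1 / (n : ℝ) ^ 2) {C : ℝ}
    (hC : ProbabilityTheory.variance (fun h : D → ℝ => ∑ x : D, a x * h x)
      (ProbabilityTheory.cond volume (K D b)) ≤ C) :
    ∫ h : D → ℝ, (∑ x : D, a x * h x) ^ 2 ∂(ProbabilityTheory.cond volume (K D b)) ≤
      C + 81 / 4 := by
  set P := ProbabilityTheory.cond volume (K D b) with hP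
  haveI : IsProbabilityMeasure P := prob hb
  have hm : ∀ x : D, MemLp (fun h : D → ℝ => h x) 2 P := by
    intro x
    have := gl_memLp (D := D) hb x.1
    have e : (fun h : D → ℝ => gl D b h x.1) = fun h => h x := by
      funext h
      simp [gl, x.2]
    rwa [e] at this
  have hX : MemLp (fun h : D → ℝ => ∑ x : D, a x * h x) 2 P :=
    memLp_finsetSum _ fun x _ => (hm x).const_mul (a x)
  have hv := ProbabilityTheory.variance_eq_sub hX
  have hmean : |∫ h : D → ℝ, (∑ x : D, a x * h x) ∂P| ≤ 9 / 2 := by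
    have hi : ∀ x ∈ (Finset.univ : Finset D), Integrable (fun h : D → ℝ => a x * h x) P := by
      intro x _
      exact ((hm x).integrable (by norm_num)).const_mul (a x)
    rw [integral_finsetSum _ hi]
    have h1 : ∀ x : D, |∫ h : D → ℝ, a x * h x ∂P| ≤ 1 / (n : ℝ) ^ 2 * (1 / 2) := by
      intro x
      rw [integral_const_mul, abs_mul]
      have h2 := mean_le (D := D) hb x.1
      have e : (fun h : D → ℝ => gl D b h x.1) = fun h => h x := by
        funext h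
        simp [gl, x.2]
      rw [e] at h2
      exact mul_le_mul (ha _) h2 (abs_nonneg _) (by positivity)
    have hcard : (D.card : ℝ) ≤ 9 * (n : ℝ) ^ 2 := by
      have hsub : D ⊆ (Finset.Icc (-(n : ℤ)) n) ×ˢ (Finset.Icc (-(n : ℤ)) n) := by
        intro z hz
        have := hD z hz
        rw [Finset.mem_product, Finset.mem_Icc, Finset.mem_Icc]
        exact ⟨abs_le.1 this.1, abs_le.1 this.2⟩
      have hc := Finset.card_le_card hsub
      rw [Finset.card_product, Int.card_Icc] at hc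
      have e1 : ((n : ℤ) + 1 - (-(n : ℤ))).toNat = 2 * n + 1 := by omega
      rw [e1] at hc
      have hc' : (D.card : ℝ) ≤ (2 * (n : ℝ) + 1) * (2 * (n : ℝ) + 1) := by exact_mod_cast hc
      have hn' : (1 : ℝ) ≤ n := by exact_mod_cast hn
      nlinarith
    calc |∑ x : D, ∫ h : D → ℝ, a x * h x ∂P| ≤ ∑ x : D, |∫ h : D → ℝ, a x * h x ∂P| :=
          Finset.abs_sum_le_sum_abs _ _
      _ ≤ ∑ _x : D, 1 / (n : ℝ) ^ 2 * (1 / 2) := Finset.sum_le_sum fun x _ => h1 x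
      _ = (D.card : ℝ) * (1 / (n : ℝ) ^ 2 * (1 / 2)) := by
          rw [Finset.sum_const, Finset.card_univ, Fintype.card_coe, nsmul_eq_mul]
      _ ≤ 9 * (n : ℝ) ^ 2 * (1 / (n : ℝ) ^ 2 * (1 / 2)) :=
          mul_le_mul_of_nonneg_right hcard (by positivity)
      _ = 9 / 2 := by
          have hn' : (n : ℝ) ≠ 0 := by
            have : (1 : ℝ) ≤ n := by exact_mod_cast hn
            positivity
          field_simp
  have h3 : (∫ h : D → ℝ, (∑ x : D, a x * h x) ∂P) ^ 2 ≤ 81 / 4 := by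
    have := abs_le.1 hmean
    nlinarith [this.1, this.2]
  have hv' : ∫ h : D → ℝ, (∑ x : D, a x * h x) ^ 2 ∂P =
      ProbabilityTheory.variance (fun h : D → ℝ => ∑ x : D, a x * h x) P +
        (∫ h : D → ℝ, (∑ x : D, a x * h x) ∂P) ^ 2 := by
    rw [hv]
    simp only [Pi.pow_apply]
    ring
  rw [hv']
  linarith
/- END wf -/

end Pool.Agent.Hmk
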