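import Pool.Agent.Hmk.Pl

/-!
# Hmk: the volumes `Z R c`
-/

set_option autoImplicit false

open MeasureTheory Set
open scoped ENNReal

noncomputable section

namespace Pool.Agent.Hmk

/- MODULE za
Elementary facts about `st`, `gl`, `K`. -/
theorem st_neg (i : Fin 6) : st (i + 3) = - st i := by
  fin_cases i <;> simp [st]

theorem st_ne (i : Fin 6) : st i ≠ 0 := by
  fin_cases i <;> simp [st, Prod.ext_iff]

theorem gl_mem {R : Finset (ℤ × ℤ)} {c : ℤ × ℤ → ℝ} {h : R → ℝ} {z : ℤ × ℤ} (hz : z ∈ R) :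
    gl R c h z = h ⟨z, hz⟩ := by
  simp [gl, hz]

theorem gl_not_mem {R : Finset (ℤ × ℤ)} {c : ℤ × ℤ → ℝ} {h : R → ℝ} {z : ℤ × ℤ} (hz : z ∉ R) :
    gl R c h z = c z := by
  simp [gl, hz]

theorem gl_meas (R : Finset (ℤ × ℤ)) (c : ℤ × ℤ → ℝ) (z : ℤ × ℤ) :
    Measurable (fun h : R → ℝ => gl R c h z) := by
  by_cases hz : z ∈ R
  · simp only [gl_mem hz]
    exact measurable_pi_apply _
  · simp only [gl_not_mem hz]
    exact measurable_const

theorem gl_cont (R : Finset (ℤ × ℤ)) (c : ℤ × ℤ → ℝ) (z : ℤ × ℤ) :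
    Continuous (fun h : R → ℝ => gl R c h z) := by
  by_cases hz : z ∈ R
  · simp only [gl_mem hz]
    exact continuous_apply _
  · simp only [gl_not_mem hz]
    exact continuous_const

theorem gl_comb (R : Finset (ℤ × ℤ)) (c c' : ℤ × ℤ → ℝ) (h h' : R → ℝ) (s t : ℝ) (z : ℤ × ℤ) :
    gl R (fun z => s * c z + t * c' z) (fun x => s * h x + t * h' x) z =
      s * gl R c h z + t * gl R c' h' z := by
  by_cases hz : z ∈ R
  · simp only [gl_mem hz]
  · simp only [gl_not_mem hz]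

theorem K_closed (R : Finset (ℤ × ℤ)) (c : ℤ × ℤ → ℝ) : IsClosed (K R c) := by
  have h : K R c = ⋂ x ∈ R, ⋂ i : Fin 6,
      {h : R → ℝ | |gl R c h x - gl R c h (x + st i)| ≤ 1} := by
    ext h
    simp [K]
  rw [h]
  refine isClosed_biInter fun x _ => isClosed_iInter fun i => ?_
  exact isClosed_le (((gl_cont R c x).sub (gl_cont R c _)).abs) continuous_const

theorem K_meas (R : Finset (ℤ × ℤ)) (c : ℤ × ℤ → ℝ) : MeasurableSet (K R c) := by
  exact (K_closed R c).measurableSet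

theorem K_convex (R : Finset (ℤ × ℤ)) (c : ℤ × ℤ → ℝ) : Convex ℝ (K R c) := by
  intro h hh h' hh' a b ha hb hab x hx i
  have e1 : ∀ z, gl R c (a • h + b • h') z = a * gl R c h z + b * gl R c h' z := by
    intro z
    have h2 := gl_comb R c c h h' a b z
    have h3 : (fun z => a * c z + b * c z) = c := by
      funext z
      rw [← add_mul, hab, one_mul]
    rw [h3] at h2
    rw [← h2]
    rfl
  rw [e1, e1]
  have h1 := hh x hx i
  have h2 := hh' x hx i
  rw [abs_le] at *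
  constructor <;> nlinarith [h1.1, h1.2, h2.1, h2.2]

/-- edges may be read from either end -/
theorem K_edge {R : Finset (ℤ × ℤ)} {c : ℤ × ℤ → ℝ} {h : R → ℝ} (hh : h ∈ K R c) {x : ℤ × ℤ}
    {i : Fin 6} (hx : x ∈ R ∨ x + st i ∈ R) : |gl R c h x - gl R c h (x + st i)| ≤ 1 := by
  rcases hx with hx | hx
  · exact hh x hx i
  · have h1 := hh (x + st i) hx (i + 3)
    rw [st_neg, add_neg_cancel_right, abs_sub_comm] at h1
    exact h1

/-- only the fixed values next to `R` matter -/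
theorem K_loc {R : Finset (ℤ × ℤ)} {c c' : ℤ × ℤ → ℝ}
    (H : ∀ z, z ∉ R → (∃ x ∈ R, ∃ i, z = x + st i) → c z = c' z) : K R c = K R c' := by
  have key : ∀ (h : R → ℝ) x, x ∈ R → ∀ i, gl R c h (x + st i) = gl R c' h (x + st i) := by
    intro h x hx i
    by_cases hz : x + st i ∈ R
    · rw [gl_mem hz, gl_mem hz]
    · rw [gl_not_mem hz, gl_not_mem hz]
      exact H _ hz ⟨x, hx, i, rfl⟩
  have key2 : ∀ (h : R → ℝ) x, x ∈ R → gl R c h x = gl R c' h x := by
    intro h x hx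
    rw [gl_mem hx, gl_mem hx]
  ext h
  constructor
  · intro hh x hx i
    rw [← key h x hx i, ← key2 h x hx]
    exact hh x hx i
  · intro hh x hx i
    rw [key h x hx i, key2 h x hx]
    exact hh x hx i
/- END za -/

/- MODULE zb
`K R c` is bounded: from `x ∈ R` walk in direction `st 0`; after at most `R.card` steps one leaves
`R` (the points `x + k • st 0` are different), so if `|c| ≤ B` next to `R` then
`|h x| ≤ B + R.card`.  Hence finite volume; the volume is at least `1` if `|c| ≤ 1/2` next to `R`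
(the cube `|h| ≤ 1/2`). -/
private theorem zb_exit {R : Finset (ℤ × ℤ)} {x : ℤ × ℤ} (hx : x ∈ R) :
    ∃ k : ℕ, k < R.card ∧ (∀ j ≤ k, x + (j : ℕ) • st 0 ∈ R) ∧ x + (k + 1) • st 0 ∉ R := by
  classical
  have hinj : Function.Injective (fun j : ℕ => x + j • st 0) := by
    intro a b hab
    have h1 := congrArg Prod.fst hab
    simpa [st] using h1
  have hex : ∃ j : ℕ, x + j • st 0 ∉ R := by
    by_contra hcon
    push Not at hcon
    exact (Set.infinite_range_of_injective hinj) ((R.finite_toSet).subset (by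
      rintro _ ⟨j, rfl⟩
      exact hcon j))
  set m := Nat.find hex with hm
  have h0 : x + m • st 0 ∉ R := Nat.find_spec hex
  have h1 : ∀ j < m, x + j • st 0 ∈ R := fun j hj => by
    by_contra hc
    exact Nat.find_min hex hj hc
  have hmpos : m ≠ 0 := by
    intro h
    rw [h, zero_smul, add_zero] at h0
    exact h0 hx
  have hcard : m ≤ R.card := by
    have h2 : (Finset.range m).image (fun j : ℕ => x + j • st 0) ⊆ R := by
      intro z hz
      obtain ⟨j, hj, rfl⟩ := Finset.mem_image.1 hz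
      exact h1 j (Finset.mem_range.1 hj)
    have h3 := Finset.card_le_card h2
    rwa [Finset.card_image_of_injective _ hinj, Finset.card_range] at h3
  refine ⟨m - 1, by omega, fun j hj => h1 j (by omega), ?_⟩
  have : m - 1 + 1 = m := by omega
  rw [this]
  exact h0

theorem K_bdd {R : Finset (ℤ × ℤ)} {c : ℤ × ℤ → ℝ} {B : ℝ} (hB : 0 ≤ B)
    (hc : ∀ z, z ∉ R → (∃ x ∈ R, ∃ i, z = x + st i) → |c z| ≤ B) {h : R → ℝ} (hh : h ∈ K R c)
    (x : R) : |h x| ≤ B + R.card := by
  obtain ⟨k, hk, h1, h2⟩ := zb_exit x.2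
  have h3 : ∀ j ≤ k + 1, |gl R c h x.1 - gl R c h (x.1 + j • st 0)| ≤ j := by
    intro j
    induction j with
    | zero => intro _; simp
    | succ j ih =>
      intro hj
      have h4 := ih (by omega)
      have h5 := hh _ (h1 j (by omega)) 0
      rw [add_assoc, ← succ_nsmul] at h5
      push_cast
      calc |gl R c h x.1 - gl R c h (x.1 + (j + 1) • st 0)|
          ≤ |gl R c h x.1 - gl R c h (x.1 + j • st 0)| +
            |gl R c h (x.1 + j • st 0) - gl R c h (x.1 + (j + 1) • st 0)| := abs_sub_le _ _ _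
        _ ≤ _ := by linarith
  have h6 := h3 (k + 1) le_rfl
  have h7 : |gl R c h (x.1 + (k + 1) • st 0)| ≤ B := by
    rw [gl_not_mem h2]
    refine hc _ h2 ⟨_, h1 k le_rfl, 0, ?_⟩
    rw [add_assoc, ← succ_nsmul]
  rw [gl_mem x.2] at h6
  have h8 : ((k + 1 : ℕ) : ℝ) ≤ R.card := by exact_mod_cast hk
  rw [abs_le] at h6 h7 ⊢
  constructor <;> linarith [h6.1, h6.2, h7.1, h7.2]

theorem Z_lt_top (R : Finset (ℤ × ℤ)) (c : ℤ × ℤ → ℝ) : Z R c < ⊤ := by
  set B : ℝ := ∑ x ∈ R, ∑ i : Fin 6, |c (x + st i)| with hBdef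
  have hB : 0 ≤ B := Finset.sum_nonneg fun x _ => Finset.sum_nonneg fun i _ => abs_nonneg _
  have hc : ∀ z, z ∉ R → (∃ x ∈ R, ∃ i, z = x + st i) → |c z| ≤ B := by
    rintro z - ⟨x, hx, i, rfl⟩
    calc |c (x + st i)| ≤ ∑ i : Fin 6, |c (x + st i)| :=
          Finset.single_le_sum (f := fun i : Fin 6 => |c (x + st i)|)
            (fun i _ => abs_nonneg _) (Finset.mem_univ i)
      _ ≤ B := Finset.single_le_sum (f := fun x => ∑ i : Fin 6, |c (x + st i)|)
            (fun x _ => Finset.sum_nonneg fun i _ => abs_nonneg _) hx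
  have hsub : K R c ⊆ Icc (fun _ => -(B + R.card)) (fun _ => B + R.card) := by
    intro h hh
    have h1 := K_bdd hB hc hh
    exact ⟨fun x => (abs_le.1 (h1 x)).1, fun x => (abs_le.1 (h1 x)).2⟩
  calc Z R c ≤ volume (Icc (fun _ : R => -(B + (R.card : ℝ))) (fun _ => B + (R.card : ℝ))) :=
        measure_mono hsub
    _ < ⊤ := by
        rw [Real.volume_Icc_pi]
        exact ENNReal.prod_lt_top fun i _ => ENNReal.ofReal_lt_top

theorem Z_one_le {R : Finset (ℤ × ℤ)} {c : ℤ × ℤ → ℝ}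
    (hc : ∀ z, z ∉ R → (∃ x ∈ R, ∃ i, z = x + st i) → |c z| ≤ 1 / 2) : 1 ≤ Z R c := by
  have hsub : Icc (fun _ : R => (-(1 / 2) : ℝ)) (fun _ => (1 / 2 : ℝ)) ⊆ K R c := by
    intro h hh x hx i
    have h1 : |gl R c h x| ≤ 1 / 2 := by
      rw [gl_mem hx]
      exact abs_le.2 ⟨hh.1 _, hh.2 _⟩
    have h2 : |gl R c h (x + st i)| ≤ 1 / 2 := by
      by_cases hz : x + st i ∈ R
      · rw [gl_mem hz]
        exact abs_le.2 ⟨hh.1 _, hh.2 _⟩
      · rw [gl_not_mem hz]
        exact hc _ hz ⟨x, hx, i, rfl⟩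
    rw [abs_le] at *
    constructor <;> linarith [h1.1, h1.2, h2.1, h2.2]
  calc (1 : ℝ≥0∞) = volume (Icc (fun _ : R => (-(1 / 2) : ℝ)) (fun _ => (1 / 2 : ℝ))) := by
        rw [Real.volume_Icc_pi]
        norm_num
    _ ≤ Z R c := measure_mono hsub
/- END zb -/

/- MODULE zc
Log-concavity, evenness, shift, four functions.  For `Z_pl` use `pl_fin` with the indicators of
`K R c`, `K R c'` and `gl_comb`; for `Z_ad` use `ad_fin` with the indicators (minimum and maximum of
two functions which differ by at most one along an edge differ by at most one). -/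
theorem Z_pl (R : Finset (ℤ × ℤ)) (c c' : ℤ × ℤ → ℝ) {θ : ℝ} (h0 : 0 < θ) (h1 : θ < 1) :
    Z R c ^ θ * Z R c' ^ (1 - θ) ≤ Z R (fun z => θ * c z + (1 - θ) * c' z) := by
  have hm : ∀ c : ℤ × ℤ → ℝ, Measurable ((K R c).indicator (fun _ => (1 : ℝ≥0∞))) :=
    fun c => measurable_const.indicator (K_meas R c)
  have hi : ∀ c : ℤ × ℤ → ℝ, ∫⁻ x, (K R c).indicator (fun _ => (1 : ℝ≥0∞)) x = Z R c := by
    intro c
    rw [lintegral_indicator_const (K_meas R c), one_mul]
    rfl
  have h2 := pl_fin (hm c) (hm c') (hm (fun z => θ * c z + (1 - θ) * c' z)) h0 h1 (by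
    intro x y
    by_cases hx : x ∈ K R c
    · by_cases hy : y ∈ K R c'
      · rw [indicator_of_mem hx, indicator_of_mem hy, indicator_of_mem, ENNReal.one_rpow, ENNReal.one_rpow, one_mul]
        intro z hz i
        have e : (θ • x + (1 - θ) • y) = (fun w => θ * x w + (1 - θ) * y w) := rfl
        rw [e, gl_comb R c c' x y θ (1 - θ) z, gl_comb R c c' x y θ (1 - θ) (z + st i)]
        have h3 := abs_le.1 (hx z hz i)
        have h4 := abs_le.1 (hy z hz i)
        rw [abs_le]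
        constructor
        · nlinarith [h3.1, h4.1]
        · nlinarith [h3.2, h4.2]
      · rw [indicator_of_notMem hy, ENNReal.zero_rpow_of_pos (by linarith), mul_zero]
        exact bot_le
    · rw [indicator_of_notMem hx, ENNReal.zero_rpow_of_pos h0, zero_mul]
      exact bot_le)
  rwa [hi, hi, hi] at h2

theorem Z_neg (R : Finset (ℤ × ℤ)) (c : ℤ × ℤ → ℝ) : Z R (fun z => - c z) = Z R c := by
  unfold Z
  have e : K R (fun z => - c z) = Neg.neg ⁻¹' (K R c) := by
    ext h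
    have hg : ∀ z, gl R (fun z => - c z) h z = - gl R c (-h) z := by
      intro z
      unfold gl
      by_cases hz : z ∈ R
      · rw [dif_pos hz, dif_pos hz]
        simp
      · rw [dif_neg hz, dif_neg hz]
    constructor
    · intro hh x hx i
      have h1 := hh x hx i
      rw [hg, hg, ← abs_neg] at h1
      convert h1 using 2
      ring
    · intro hh x hx i
      have h1 := hh x hx i
      rw [hg, hg, ← abs_neg]
      convert h1 using 2
      ring
  rw [e]
  exact Measure.measure_preimage_neg volume (K R c)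

theorem Z_shift (R : Finset (ℤ × ℤ)) (c : ℤ × ℤ → ℝ) (t : ℝ) :
    Z R (fun z => c z + t) = Z R c := by
  unfold Z
  have e : K R (fun z => c z + t) = (fun h => h + (fun _ => - t)) ⁻¹' (K R c) := by
    ext h
    have hg : ∀ z, gl R (fun z => c z + t) h z = gl R c (h + (fun _ => - t)) z + t := by
      intro z
      unfold gl
      by_cases hz : z ∈ R
      · rw [dif_pos hz, dif_pos hz]
        simp
      · rw [dif_neg hz, dif_neg hz]
    constructor
    · intro hh x hx i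
      have h1 := hh x hx i
      rw [hg, hg] at h1
      convert h1 using 2
      ring
    · intro hh x hx i
      have h1 := hh x hx i
      rw [hg, hg]
      convert h1 using 2
      ring
  rw [e]
  exact measure_preimage_add_right volume (fun _ => - t) (K R c)

theorem Z_ad (R : Finset (ℤ × ℤ)) (c c' : ℤ × ℤ → ℝ) :
    Z R c * Z R c' ≤ Z R (fun z => min (c z) (c' z)) * Z R (fun z => max (c z) (c' z)) := by
  have hm : ∀ c : ℤ × ℤ → ℝ, Measurable ((K R c).indicator (fun _ => (1 : ℝ≥0∞))) :=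
    fun c => measurable_const.indicator (K_meas R c)
  have hi : ∀ c : ℤ × ℤ → ℝ, ∫⁻ x, (K R c).indicator (fun _ => (1 : ℝ≥0∞)) x = Z R c := by
    intro c
    rw [lintegral_indicator_const (K_meas R c), one_mul]
    rfl
  have h2 := ad_fin (hm c) (hm c') (hm (fun z => min (c z) (c' z))) (hm (fun z => max (c z) (c' z))) (by
    intro x y
    by_cases hx : x ∈ K R c
    · by_cases hy : y ∈ K R c'
      · have gmin : ∀ z, gl R (fun z => min (c z) (c' z)) (fun i => min (x i) (y i)) z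
            = min (gl R c x z) (gl R c' y z) := by
          intro z
          unfold gl
          by_cases hz : z ∈ R
          · rw [dif_pos hz, dif_pos hz, dif_pos hz]
          · rw [dif_neg hz, dif_neg hz, dif_neg hz]
        have gmax : ∀ z, gl R (fun z => max (c z) (c' z)) (fun i => max (x i) (y i)) z
            = max (gl R c x z) (gl R c' y z) := by
          intro z
          unfold gl
          by_cases hz : z ∈ R
          · rw [dif_pos hz, dif_pos hz, dif_pos hz]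
          · rw [dif_neg hz, dif_neg hz, dif_neg hz]
        rw [indicator_of_mem hx, indicator_of_mem hy, indicator_of_mem, indicator_of_mem]
        · intro z hz i
          rw [gmax, gmax]
          exact le_trans (abs_max_sub_max_le_max _ _ _ _) (max_le (hx z hz i) (hy z hz i))
        · intro z hz i
          rw [gmin, gmin]
          exact le_trans (abs_min_sub_min_le_max _ _ _ _) (max_le (hx z hz i) (hy z hz i))
      · rw [indicator_of_notMem hy, mul_zero]
        exact bot_le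
    · rw [indicator_of_notMem hx, zero_mul]
      exact bot_le)
  rwa [hi, hi, hi, hi] at h2

/-- even and log-concave: radially nonincreasing -/
theorem Z_rad (R : Finset (ℤ × ℤ)) (c : ℤ × ℤ → ℝ) {s : ℝ} (h0 : 0 ≤ s) (h1 : s ≤ 1) :
    Z R c ≤ Z R (fun z => s * c z) := by
  rcases eq_or_lt_of_le h1 with h1' | h1'
  · rw [h1']
    apply le_of_eq
    congr 1
    funext z
    rw [one_mul]
  · by_cases hz : Z R c = 0
    · rw [hz]
      exact bot_le
    · have h2 := Z_pl R c (fun z => - c z) (θ := (1 + s) / 2) (by linarith) (by linarith)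
      rw [Z_neg, ← ENNReal.rpow_add _ _ hz (Z_lt_top R c).ne] at h2
      have e1 : (1 + s) / 2 + (1 - (1 + s) / 2) = 1 := by ring
      rw [e1, ENNReal.rpow_one] at h2
      refine le_trans h2 (le_of_eq ?_)
      congr 1
      funext z
      ring

theorem Z_loc {R : Finset (ℤ × ℤ)} {c c' : ℤ × ℤ → ℝ}
    (H : ∀ z, z ∉ R → (∃ x ∈ R, ∃ i, z = x + st i) → c z = c' z) : Z R c = Z R c' := by
  unfold Z
  rw [K_loc H]
/- END zc -/

/-- glue a function on `R₁` and a function on `R₂` to a function on `D` (used for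
`D = R₁ ∪ R₂`, `R₁`, `R₂` disjoint) -/
def jn {D : Finset (ℤ × ℤ)} (R₁ R₂ : Finset (ℤ × ℤ)) (a : R₁ → ℝ) (b : R₂ → ℝ) : D → ℝ :=
  fun z => gl R₂ (gl R₁ (fun _ => 0) a) b z.1

/- MODULE zd
The splitting `D → ℝ  ≃  (R₁ → ℝ) × (R₂ → ℝ)` preserves the volume
(`MeasurableEquiv.sumPiEquivProdPi`, `volume_measurePreserving_sumPiEquivProdPi`, and a
relabelling `R₁ ⊕ R₂ ≃ D`; or `MeasureTheory.measurePreserving_piEquivPiSubtypeProd`). -/
theorem lint_jn {D R₁ R₂ : Finset (ℤ × ℤ)} (hd : Disjoint R₁ R₂) (hu : R₁ ∪ R₂ = D)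
    {Ψ : (D → ℝ) → ℝ≥0∞} (hΨ : Measurable Ψ) :
    ∫⁻ h, Ψ h = ∫⁻ a : R₁ → ℝ, ∫⁻ b : R₂ → ℝ, Ψ (jn R₁ R₂ a b) := by
  have hf : Function.Bijective (Sum.elim (fun x : R₁ => (⟨x.1, by rw [← hu]; exact Finset.mem_union_left _ x.2⟩ : D))
      (fun y : R₂ => (⟨y.1, by rw [← hu]; exact Finset.mem_union_right _ y.2⟩ : D))) := by
    constructor
    · rintro (x | x) (y | y) hxy
      · have := congrArg Subtype.val hxy
        exact congrArg Sum.inl (Subtype.ext this)
      · have := congrArg Subtype.val hxy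
        exact absurd y.2 (Finset.disjoint_left.1 hd (by
          have h3 : x.1 = y.1 := this
          rw [← h3]
          exact x.2))
      · have := congrArg Subtype.val hxy
        exact absurd x.2 (Finset.disjoint_left.1 hd (by
          have h3 : x.1 = y.1 := this
          rw [h3]
          exact y.2))
      · have := congrArg Subtype.val hxy
        exact congrArg Sum.inr (Subtype.ext this)
    · rintro ⟨z, hz⟩
      have hz' := hz
      rw [← hu, Finset.mem_union] at hz'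
      rcases hz' with h | h
      · exact ⟨Sum.inl ⟨z, h⟩, rfl⟩
      · exact ⟨Sum.inr ⟨z, h⟩, rfl⟩
  set e := Equiv.ofBijective _ hf with he
  have h1 := volume_measurePreserving_piCongrLeft (fun _ : D => ℝ) e
  have h2 := volume_measurePreserving_sumPiEquivProdPi_symm (fun _ : R₁ ⊕ R₂ => ℝ)
  rw [← h1.lintegral_comp hΨ, ← h2.lintegral_comp (f := fun a => Ψ ((MeasurableEquiv.piCongrLeft (fun _ : D => ℝ) e) a)) (hΨ.comp h1.measurable),
    Measure.volume_eq_prod,
    lintegral_prod]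
  · refine lintegral_congr fun a => lintegral_congr fun b => ?_
    congr 1
    funext z
    obtain ⟨s, rfl⟩ := e.surjective z
    have h3 := Equiv.piCongrLeft_apply_apply (fun _ : D => ℝ) e
      ((MeasurableEquiv.sumPiEquivProdPi (fun _ : R₁ ⊕ R₂ => ℝ)).symm (a, b)) s
    refine Eq.trans h3 ?_
    rcases s with x | y
    · have h4 : (e (Sum.inl x)).1 = x.1 := rfl
      show a x = jn R₁ R₂ a b (e (Sum.inl x))
      unfold jn
      rw [h4]
      unfold gl
      rw [dif_neg (Finset.disjoint_left.1 hd x.2), dif_pos x.2]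
    · have h4 : (e (Sum.inr y)).1 = y.1 := rfl
      show b y = jn R₁ R₂ a b (e (Sum.inr y))
      unfold jn
      rw [h4]
      unfold gl
      rw [dif_pos y.2]
  · exact ((hΨ.comp h1.measurable).comp h2.measurable).aemeasurable

theorem jn_meas {D R₁ R₂ : Finset (ℤ × ℤ)} :
    Measurable (fun p : (R₁ → ℝ) × (R₂ → ℝ) => (jn R₁ R₂ p.1 p.2 : D → ℝ)) := by
  rw [measurable_pi_iff]
  intro z
  unfold jn gl
  by_cases h2 : z.1 ∈ R₂
  · simp only [dif_pos h2]
    exact (measurable_pi_apply _).comp measurable_snd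
  · by_cases h1 : z.1 ∈ R₁
    · simp only [dif_neg h2, dif_pos h1]
      exact (measurable_pi_apply _).comp measurable_fst
    · simp only [dif_neg h2, dif_neg h1]
      exact measurable_const

theorem gl_jn {D R₁ R₂ : Finset (ℤ × ℤ)} (hd : Disjoint R₁ R₂) (hu : R₁ ∪ R₂ = D)
    (c : ℤ × ℤ → ℝ) (a : R₁ → ℝ) (b : R₂ → ℝ) (z : ℤ × ℤ) :
    gl D c (jn R₁ R₂ a b) z = gl R₂ (gl R₁ c a) b z := by
  unfold jn gl
  by_cases h2 : z ∈ R₂
  · have hz : z ∈ D := by rw [← hu]; exact Finset.mem_union_right _ h2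
    simp only [dif_pos hz, dif_pos h2]
  · by_cases h1 : z ∈ R₁
    · have hz : z ∈ D := by rw [← hu]; exact Finset.mem_union_left _ h1
      simp only [dif_pos hz, dif_neg h2, dif_pos h1]
    · have hz : z ∉ D := by
        rw [← hu, Finset.mem_union, not_or]
        exact ⟨h1, h2⟩
      simp only [dif_neg hz, dif_neg h2, dif_neg h1]
/- END zd -/

/-- the constraints on the edges which touch `R₁` but not `R₂` -/
def Adm (R₁ R₂ : Finset (ℤ × ℤ)) (c : ℤ × ℤ → ℝ) : Set (R₁ → ℝ) :=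
  {a | ∀ x ∈ R₁, ∀ i, x + st i ∉ R₂ → |gl R₁ c a x - gl R₁ c a (x + st i)| ≤ 1}

/- MODULE ze
The tower property. -/
theorem Adm_meas (R₁ R₂ : Finset (ℤ × ℤ)) (c : ℤ × ℤ → ℝ) : MeasurableSet (Adm R₁ R₂ c) := by
  have : Adm R₁ R₂ c = ⋂ x ∈ R₁, ⋂ i : Fin 6, ⋂ (_ : x + st i ∉ R₂),
      {a : R₁ → ℝ | |gl R₁ c a x - gl R₁ c a (x + st i)| ≤ 1} := by
    ext a
    simp only [Adm, mem_ofPred_eq, mem_iInter]
  rw [this]
  refine Finset.measurableSet_biInter _ (fun x _ => ?_)
  refine MeasurableSet.iInter (fun i => MeasurableSet.iInter (fun _ => ?_))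
  exact measurableSet_le (((gl_meas R₁ c x).sub (gl_meas R₁ c (x + st i))).abs) measurable_const

theorem mem_K_jn {D R₁ R₂ : Finset (ℤ × ℤ)} (hd : Disjoint R₁ R₂) (hu : R₁ ∪ R₂ = D)
    (c : ℤ × ℤ → ℝ) (a : R₁ → ℝ) (b : R₂ → ℝ) :
    (jn R₁ R₂ a b : D → ℝ) ∈ K D c ↔ b ∈ K R₂ (gl R₁ c a) ∧ a ∈ Adm R₁ R₂ c := by
  subst hu
  constructor
  · intro h
    refine ⟨fun x hx i => ?_, fun x hx i hi => ?_⟩
    · have := h x (Finset.mem_union_right _ hx) i
      rw [gl_jn hd rfl, gl_jn hd rfl] at this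
      exact this
    · have := h x (Finset.mem_union_left _ hx) i
      rw [gl_jn hd rfl, gl_jn hd rfl, gl_not_mem (R := R₂) (z := x) (Finset.disjoint_left.1 hd hx),
        gl_not_mem (R := R₂) (z := x + st i) hi] at this
      exact this
  · rintro ⟨h1, h2⟩ x hx i
    rw [gl_jn hd rfl, gl_jn hd rfl]
    by_cases h3 : x ∈ R₂ ∨ x + st i ∈ R₂
    · exact K_edge h1 h3
    · push Not at h3
      rw [gl_not_mem h3.1, gl_not_mem h3.2]
      rcases Finset.mem_union.1 hx with h4 | h4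
      · exact h2 x h4 i h3.2
      · exact absurd h4 h3.1

private theorem ze_gl {D R₁ R₂ : Finset (ℤ × ℤ)} (hd : Disjoint R₁ R₂) (hu : R₁ ∪ R₂ = D)
    (c : ℤ × ℤ → ℝ) (a : R₁ → ℝ) (b : R₂ → ℝ) :
    (fun x : R₁ => gl D c (jn R₁ R₂ a b) x) = a := by
  funext x
  rw [gl_jn hd hu, gl_not_mem (R := R₂) (z := x.1) (Finset.disjoint_left.1 hd x.2),
    gl_mem (R := R₁) x.2]

/-- the volume of an event which only depends on the coordinates in `R₁` -/
theorem vol_tower {D R₁ R₂ : Finset (ℤ × ℤ)} (hd : Disjoint R₁ R₂) (hu : R₁ ∪ R₂ = D)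
    (c : ℤ × ℤ → ℝ) {E : Set (R₁ → ℝ)} (hE : MeasurableSet E) :
    volume {h : D → ℝ | h ∈ K D c ∧
        (fun x : R₁ => gl D c h x) ∈ E} =
      ∫⁻ a : R₁ → ℝ, (Adm R₁ R₂ c ∩ E).indicator (fun a => Z R₂ (gl R₁ c a)) a := by
  have hm : Measurable (fun h : D → ℝ => (fun x : R₁ => gl D c h x)) :=
    measurable_pi_lambda _ (fun x => gl_meas D c x)
  have hS : MeasurableSet {h : D → ℝ | h ∈ K D c ∧ (fun x : R₁ => gl D c h x) ∈ E} :=
    (K_meas D c).inter (hm hE)
  rw [← lintegral_indicator_one hS,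
    lint_jn hd hu (measurable_one.indicator hS)]
  refine lintegral_congr (fun a => ?_)
  by_cases ha : a ∈ Adm R₁ R₂ c ∩ E
  · rw [indicator_of_mem ha, Z, ← lintegral_indicator_one (K_meas R₂ (gl R₁ c a))]
    refine lintegral_congr (fun b => ?_)
    by_cases hb : b ∈ K R₂ (gl R₁ c a)
    · have h1 : (jn R₁ R₂ a b : D → ℝ) ∈
          {h : D → ℝ | h ∈ K D c ∧ (fun x : R₁ => gl D c h x) ∈ E} := by
        refine ⟨(mem_K_jn hd hu c a b).2 ⟨hb, ha.1⟩, ?_⟩
        rw [ze_gl hd hu]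
        exact ha.2
      rw [indicator_of_mem hb, indicator_of_mem h1]
      rfl
    · rw [indicator_of_notMem hb, indicator_of_notMem]
      rintro ⟨h1, -⟩
      exact hb ((mem_K_jn hd hu c a b).1 h1).1
  · rw [indicator_of_notMem ha]
    have : (fun b : R₂ → ℝ => ({h : D → ℝ | h ∈ K D c ∧ (fun x : R₁ => gl D c h x) ∈ E}).indicator
        (1 : (D → ℝ) → ℝ≥0∞) (jn R₁ R₂ a b)) = fun _ => 0 := by
      funext b
      rw [indicator_of_notMem]
      rintro ⟨h1, h2⟩
      rw [ze_gl hd hu] at h2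
      exact ha ⟨((mem_K_jn hd hu c a b).1 h1).2, h2⟩
    rw [this, lintegral_zero]

theorem Z_tower {D R₁ R₂ : Finset (ℤ × ℤ)} (hd : Disjoint R₁ R₂) (hu : R₁ ∪ R₂ = D)
    (c : ℤ × ℤ → ℝ) :
    Z D c = ∫⁻ a : R₁ → ℝ, (Adm R₁ R₂ c).indicator (fun a => Z R₂ (gl R₁ c a)) a := by
  have h := vol_tower hd hu c (E := univ) MeasurableSet.univ
  rw [inter_univ] at h
  rw [← h, Z]
  congr 1
  ext h
  simp

theorem Z_gl_meas (R₁ R₂ : Finset (ℤ × ℤ)) (c : ℤ × ℤ → ℝ) :
    Measurable (fun a : R₁ → ℝ => Z R₂ (gl R₁ c a)) := by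
  have h1 : ∀ z, Measurable (fun p : (R₁ → ℝ) × (R₂ → ℝ) => gl R₂ (gl R₁ c p.1) p.2 z) := by
    intro z
    by_cases hz : z ∈ R₂
    · have : (fun p : (R₁ → ℝ) × (R₂ → ℝ) => gl R₂ (gl R₁ c p.1) p.2 z) =
          fun p => p.2 ⟨z, hz⟩ := by
        funext p
        exact gl_mem hz
      rw [this]
      exact (measurable_pi_apply _).comp measurable_snd
    · have : (fun p : (R₁ → ℝ) × (R₂ → ℝ) => gl R₂ (gl R₁ c p.1) p.2 z) =
          fun p => gl R₁ c p.1 z := by
        funext p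
        exact gl_not_mem hz
      rw [this]
      exact (gl_meas R₁ c z).comp measurable_fst
  have hS : MeasurableSet {p : (R₁ → ℝ) × (R₂ → ℝ) | p.2 ∈ K R₂ (gl R₁ c p.1)} := by
    have : {p : (R₁ → ℝ) × (R₂ → ℝ) | p.2 ∈ K R₂ (gl R₁ c p.1)} = ⋂ x ∈ R₂, ⋂ i : Fin 6,
        {p : (R₁ → ℝ) × (R₂ → ℝ) | |gl R₂ (gl R₁ c p.1) p.2 x -
          gl R₂ (gl R₁ c p.1) p.2 (x + st i)| ≤ 1} := by
      ext p
      simp only [K, mem_ofPred_eq, mem_iInter]
    rw [this]
    refine Finset.measurableSet_biInter _ (fun x _ => MeasurableSet.iInter (fun i => ?_))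
    exact measurableSet_le (((h1 x).sub (h1 (x + st i))).abs) measurable_const
  exact measurable_measure_prodMk_left hS
/- END ze -/

/-- the sites of `R` next to `P` -/
def adj (R P : Finset (ℤ × ℤ)) : Finset (ℤ × ℤ) := R.filter (fun x => ∃ i, x + st i ∈ P)

/- MODULE zf
Moving the values on `P` from `0` to `-1/2` costs at most a factor `2` for every site of `R` next to
`P`.  Put `R₁ = adj R P`, `R₂ = R \ R₁`, use `Z_tower` for both sides (fixed values `0`, resp.
`-1/2` on `P`).  If `a` is admissible for `0` then `a / 2` is admissible for the other one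
(`|a/2 - (-1/2)| ≤ 1` because `|a| ≤ 1` next to `P`; other edges only shrink), `R₂` does not touch
`P`, so `Z R₂ (gl R₁ c (a/2)) ≥ Z R₂ (gl R₁ 0 a)` by `Z_loc` and `Z_rad` (`s = 1/2`; off `R₁` the
values next to `R₂` are `0`).  Substituting `a -> a/2` gives the factor `2 ^ card`. -/
private theorem zf_adm {R P : Finset (ℤ × ℤ)} {a : adj R P → ℝ}
    (ha : a ∈ Adm (adj R P) (R \ adj R P) (fun _ => 0)) :
    ((1 / 2 : ℝ) • a) ∈ Adm (adj R P) (R \ adj R P) (fun z => if z ∈ P then -1 / 2 else 0) := by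
  intro x hx i hi
  have h := ha x hx i hi
  rw [gl_mem hx] at h ⊢
  by_cases hy : x + st i ∈ adj R P
  · rw [gl_mem hy] at h ⊢
    simp only [Pi.smul_apply, smul_eq_mul]
    rw [abs_le] at h ⊢
    constructor <;> linarith [h.1, h.2]
  · rw [gl_not_mem hy] at h ⊢
    simp only [Pi.smul_apply, smul_eq_mul]
    rw [abs_le] at h ⊢
    split_ifs
    · constructor <;> linarith [h.1, h.2]
    · constructor <;> linarith [h.1, h.2]

private theorem zf_loc {R P : Finset (ℤ × ℤ)} (a : adj R P → ℝ) :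
    Z (R \ adj R P) (gl (adj R P) (fun _ => 0) a) ≤
      Z (R \ adj R P) (gl (adj R P) (fun z => if z ∈ P then -1 / 2 else 0) ((1 / 2 : ℝ) • a)) := by
  refine (Z_rad _ _ (s := 1 / 2) (by norm_num) (by norm_num)).trans (le_of_eq ?_)
  refine Z_loc ?_
  rintro z hz ⟨x, hx, i, rfl⟩
  by_cases hy : x + st i ∈ adj R P
  · rw [gl_mem hy, gl_mem hy]
    rfl
  · rw [gl_not_mem hy, gl_not_mem hy, if_neg]
    · simp
    · intro hP
      obtain ⟨h1, h2⟩ := Finset.mem_sdiff.1 hx
      exact h2 (Finset.mem_filter.2 ⟨h1, i, hP⟩)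

private theorem zf_scale (n : Finset (ℤ × ℤ)) (F : (n → ℝ) → ℝ≥0∞) :
    ∫⁻ a : n → ℝ, F ((1 / 2 : ℝ) • a) = 2 ^ n.card * ∫⁻ a : n → ℝ, F a := by
  have h2 : ((1 / 2 : ℝ)) ≠ 0 := by norm_num
  have h := lintegral_map_equiv (μ := (volume : Measure (n → ℝ))) F (MeasurableEquiv.smul₀ (1 / 2 : ℝ) h2)
  have h3 : Measure.map (⇑(MeasurableEquiv.smul₀ (α := n → ℝ) (1 / 2 : ℝ) h2))
      (volume : Measure (n → ℝ)) =
      ENNReal.ofReal |((1 / 2 : ℝ) ^ Module.finrank ℝ (n → ℝ))⁻¹| • volume :=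
    Measure.map_addHaar_smul _ h2
  rw [h3, lintegral_smul_measure] at h
  have h4 : ENNReal.ofReal |((1 / 2 : ℝ) ^ Module.finrank ℝ (n → ℝ))⁻¹| = 2 ^ n.card := by
    rw [Module.finrank_fintype_fun_eq_card, Fintype.card_coe]
    rw [one_div, inv_pow, inv_inv, abs_of_pos (by positivity), ENNReal.ofReal_pow (by norm_num)]
    simp
  rw [h4] at h
  simpa using h.symm

theorem Z_half {R P : Finset (ℤ × ℤ)} (hd : Disjoint R P) :
    Z R (fun _ => 0) ≤ 2 ^ (adj R P).card * Z R (fun z => if z ∈ P then -1 / 2 else 0) := by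
  have hs : adj R P ⊆ R := Finset.filter_subset _ _
  have h1 := Z_tower (D := R) (R₁ := adj R P) (R₂ := R \ adj R P) Finset.disjoint_sdiff
    (Finset.union_sdiff_of_subset hs) (fun _ => 0)
  have h2 := Z_tower (D := R) (R₁ := adj R P) (R₂ := R \ adj R P) Finset.disjoint_sdiff
    (Finset.union_sdiff_of_subset hs) (fun z => if z ∈ P then -1 / 2 else 0)
  rw [h1, h2, ← zf_scale]
  refine lintegral_mono fun a => ?_
  by_cases ha : a ∈ Adm (adj R P) (R \ adj R P) (fun _ => 0)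
  · rw [indicator_of_mem ha, indicator_of_mem (zf_adm ha)]
    exact zf_loc a
  · rw [indicator_of_notMem ha]
    exact zero_le
/- END zf -/

/- MODULE zg
Changing the values on `P` to `0` costs at most `4 ^ n`.
(1) `c ≥ 0` on `P`: `Z_ad` with `c' = (0 on P, 1/2 off P)`: minimum `= (0 on P, c off P)`, maximum
`= (c on P, 1/2 off P)` (next to `R`, use `Z_loc`), so
`Z c * Z c' ≤ Z c₀ * Z (c on P, 1/2 off P)`; by `Z_shift` `Z (c on P, 1/2) = Z (c - 1/2 on P, 0) ≤ Z 0`
(`Z_rad` with `s = 0`) and `Z c' = Z (-1/2 on P, 0) ≥ 2^-n Z 0` (`Z_half`); `Z 0` is positive and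
finite, hence `Z c ≤ 2^n Z c₀`.  (2) `c ≤ 0` on `P`: `Z_neg`.  (3) general:
`Z c * Z c₀ ≤ Z (min c c₀) * Z (max c c₀) ≤ (2^n Z c₀)^2`, `1 ≤ Z c₀ < ⊤`. -/
private theorem zg_cancel {a b z : ℝ≥0∞} (hz : 1 ≤ z) (hz' : z < ⊤) (h : a * z ≤ b * z) :
    a ≤ b :=
  (ENNReal.mul_le_mul_iff_left (one_pos.trans_le hz).ne' hz'.ne).1 h

private theorem zg_pos {R P : Finset (ℤ × ℤ)} (hd : Disjoint R P) {c : ℤ × ℤ → ℝ}
    (hc : ∀ z, z ∉ R → z ∉ P → (∃ x ∈ R, ∃ i, z = x + st i) → |c z| ≤ 1 / 2)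
    (hp : ∀ z ∈ P, 0 ≤ c z) :
    Z R c ≤ 2 ^ (adj R P).card * Z R (fun z => if z ∈ P then 0 else c z) := by
  have h0 : Z R (fun _ => 0) ≤ 2 ^ (adj R P).card * Z R (fun z => if z ∈ P then 0 else 1 / 2) := by
    refine (Z_half hd).trans (le_of_eq ?_)
    congr 1
    rw [← Z_shift R (fun z => if z ∈ P then 0 else 1 / 2) (-1 / 2)]
    congr 1
    funext z
    by_cases hz : z ∈ P
    · simp [hz]
    · simp only [hz, if_false]
      norm_num
  have h1 := Z_ad R c (fun z => if z ∈ P then 0 else 1 / 2)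
  have h2 : Z R (fun z => min (c z) (if z ∈ P then 0 else 1 / 2)) =
      Z R (fun z => if z ∈ P then 0 else c z) := by
    refine Z_loc (fun z hz hx => ?_)
    by_cases hzP : z ∈ P
    · simp only [hzP, if_true]
      exact min_eq_right (hp z hzP)
    · simp only [hzP, if_false]
      exact min_eq_left (abs_le.1 (hc z hz hzP hx)).2
  have h3 : Z R (fun z => max (c z) (if z ∈ P then 0 else 1 / 2)) ≤ Z R (fun _ => 0) := by
    have h4 : Z R (fun z => max (c z) (if z ∈ P then 0 else 1 / 2)) =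
        Z R (fun z => if z ∈ P then c z else 1 / 2) := by
      refine Z_loc (fun z hz hx => ?_)
      by_cases hzP : z ∈ P
      · simp only [hzP, if_true]
        exact max_eq_left (hp z hzP)
      · simp only [hzP, if_false]
        exact max_eq_right (abs_le.1 (hc z hz hzP hx)).2
    rw [h4, ← Z_shift R (fun z => if z ∈ P then c z else 1 / 2) (-1 / 2)]
    refine (Z_rad R _ le_rfl zero_le_one).trans (le_of_eq ?_)
    congr 1
    funext z
    simp
  have hZ0 : 1 ≤ Z R (fun _ => 0) := Z_one_le (fun z _ _ => by norm_num)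
  have hZ0' : Z R (fun _ => 0) < ⊤ := Z_lt_top R _
  refine zg_cancel hZ0 hZ0' ?_
  calc Z R c * Z R (fun _ => 0)
      ≤ Z R c * (2 ^ (adj R P).card * Z R (fun z => if z ∈ P then 0 else 1 / 2)) :=
        mul_le_mul_right h0 _
    _ = 2 ^ (adj R P).card * (Z R c * Z R (fun z => if z ∈ P then 0 else 1 / 2)) := by ring
    _ ≤ 2 ^ (adj R P).card * (Z R (fun z => if z ∈ P then 0 else c z) * Z R (fun _ => 0)) := by
        refine mul_le_mul_right (h1.trans ?_) _
        rw [h2]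
        exact mul_le_mul_right h3 _
    _ = _ := by ring

private theorem zg_neg {R P : Finset (ℤ × ℤ)} (hd : Disjoint R P) {c : ℤ × ℤ → ℝ}
    (hc : ∀ z, z ∉ R → z ∉ P → (∃ x ∈ R, ∃ i, z = x + st i) → |c z| ≤ 1 / 2)
    (hp : ∀ z ∈ P, c z ≤ 0) :
    Z R c ≤ 2 ^ (adj R P).card * Z R (fun z => if z ∈ P then 0 else c z) := by
  rw [← Z_neg R c]
  have h := zg_pos (c := fun z => - c z) hd (fun z h1 h2 h3 => by
    rw [abs_neg]
    exact hc z h1 h2 h3) (fun z hz => neg_nonneg.2 (hp z hz))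
  refine h.trans (le_of_eq ?_)
  rw [← Z_neg R (fun z => if z ∈ P then 0 else c z)]
  congr 2
  funext z
  by_cases hz : z ∈ P <;> simp [hz]

theorem Z_center {R P : Finset (ℤ × ℤ)} (hd : Disjoint R P) {c : ℤ × ℤ → ℝ}
    (hc : ∀ z, z ∉ R → z ∉ P → (∃ x ∈ R, ∃ i, z = x + st i) → |c z| ≤ 1 / 2) :
    Z R c ≤ 4 ^ (adj R P).card * Z R (fun z => if z ∈ P then 0 else c z) := by
  have h1 := Z_ad R c (fun z => if z ∈ P then 0 else c z)
  have h2 := zg_neg (c := fun z => min (c z) (if z ∈ P then 0 else c z)) hd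
    (fun z a b d => by
      simp only [b, if_false, min_self]
      exact hc z a b d)
    (fun z hz => by
      simp only [hz, if_true]
      exact min_le_right _ _)
  have h3 := zg_pos (c := fun z => max (c z) (if z ∈ P then 0 else c z)) hd
    (fun z a b d => by
      simp only [b, if_false, max_self]
      exact hc z a b d)
    (fun z hz => by
      simp only [hz, if_true]
      exact le_max_right _ _)
  have e2 : (fun z => if z ∈ P then 0 else min (c z) (if z ∈ P then 0 else c z)) =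
      (fun z => if z ∈ P then 0 else c z) := by
    funext z
    by_cases hz : z ∈ P <;> simp [hz]
  have e3 : (fun z => if z ∈ P then 0 else max (c z) (if z ∈ P then 0 else c z)) =
      (fun z => if z ∈ P then 0 else c z) := by
    funext z
    by_cases hz : z ∈ P <;> simp [hz]
  rw [e2] at h2
  rw [e3] at h3
  have hZ0 : 1 ≤ Z R (fun z => if z ∈ P then 0 else c z) := by
    refine Z_one_le (fun z hz hx => ?_)
    by_cases hzP : z ∈ P
    · simp [hzP]
    · simp only [hzP, if_false]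
      exact hc z hz hzP hx
  refine zg_cancel hZ0 (Z_lt_top R _) (h1.trans ((mul_le_mul' h2 h3).trans (le_of_eq ?_)))
  have h4 : (4 : ℝ≥0∞) = 2 * 2 := by norm_num
  rw [h4, mul_pow]
  ring

theorem adj_card (R P : Finset (ℤ × ℤ)) : (adj R P).card ≤ 6 * P.card := by
  have h : adj R P ⊆ (P ×ˢ (Finset.univ : Finset (Fin 6))).image (fun q => q.1 - st q.2) := by
    intro x hx
    obtain ⟨_, i, hi⟩ := Finset.mem_filter.1 hx
    exact Finset.mem_image.2 ⟨(x + st i, i), Finset.mem_product.2 ⟨hi, Finset.mem_univ _⟩,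
      by simp⟩
  refine (Finset.card_le_card h).trans (Finset.card_image_le.trans (le_of_eq ?_))
  rw [Finset.card_product, Finset.card_univ, Fintype.card_fin, mul_comm]
/- END zg -/

/- MODULE zh
The key estimate of the volume lemma: `R = D \ (T ∪ P)`, `T` and `P` disjoint, no free neighbour of
`T` in `R`.  Let `G y p = 1[admissible] Z R (gl (T ∪ P) b (jn T P y p))`.  Then
`G y p ≤ 2 ^ (6 * P.card) * G (y/2 + δ) (p/2)` for `|δ| ≤ 1/4`.  Admissibility: edges in `T`:
`1/2 + 1/2`; `T`-`P`: `1/2 + 1/4`; `P`-`P`: `1/2`; `T`-fixed: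
`|y/2 + δ - b| ≤ |y - b|/2 + |b|/2 + 1/4 ≤ 1`; `P`-fixed: `≤ 3/4`.  Volumes: `R` does not touch `T`,
so `Z R` only depends on `p` and `b` (`Z_loc`); the values `(p/2, b)` are the midpoint of `(p, b)` and
`(0, b)`: `Z_pl` with `θ = 1/2`, and `Z_center`, `adj_card`:
`Z (p/2,b) ≥ Z(p,b)^(1/2) Z(0,b)^(1/2) ≥ Z(p,b) 4^(-n/2)`. -/
private theorem zh_gl {T P : Finset (ℤ × ℤ)} (hd : Disjoint T P) (b : ℤ × ℤ → ℝ) (y : T → ℝ)
    (p : P → ℝ) (z : ℤ × ℤ) :
    gl (T ∪ P) b (jn T P y p) z = gl P (gl T b y) p z :=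
  gl_jn hd rfl b y p z

/-- the new values are half of the old ones up to `1/4` -/
private theorem zh_half {T P : Finset (ℤ × ℤ)} {b : ℤ × ℤ → ℝ} (hb : ∀ z, |b z| ≤ 1 / 2)
    (hd : Disjoint T P) (y : T → ℝ) (p : P → ℝ) (δ : T → ℝ) (hδ : ∀ i, |δ i| ≤ 1 / 4)
    (z : ℤ × ℤ) :
    |gl (T ∪ P) b (jn T P (fun i => y i / 2 + δ i) (fun k => p k / 2)) z -
      gl (T ∪ P) b (jn T P y p) z / 2| ≤ 1 / 4 := by
  rw [zh_gl hd, zh_gl hd]
  by_cases hP : z ∈ P
  · rw [gl_mem hP, gl_mem hP, sub_self, abs_zero]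
    norm_num
  · rw [gl_not_mem hP, gl_not_mem hP]
    by_cases hT : z ∈ T
    · rw [gl_mem hT, gl_mem hT, add_sub_cancel_left]
      exact hδ _
    · rw [gl_not_mem hT, gl_not_mem hT, show b z - b z / 2 = b z / 2 by ring, abs_div, abs_two]
      have := hb z
      linarith

private theorem zh_sqrt (n : ℕ) {A B : ℝ≥0∞} (h : A ≤ 4 ^ n * B) :
    A ≤ 2 ^ n * (A ^ (1 / 2 : ℝ) * B ^ (1 - 1 / 2 : ℝ)) := by
  have h1 : A ^ (1 / 2 : ℝ) ≤ 2 ^ n * B ^ (1 / 2 : ℝ) := by
    calc A ^ (1 / 2 : ℝ) ≤ (4 ^ n * B) ^ (1 / 2 : ℝ) := ENNReal.rpow_le_rpow h (by norm_num)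
      _ = (4 ^ n) ^ (1 / 2 : ℝ) * B ^ (1 / 2 : ℝ) := ENNReal.mul_rpow_of_nonneg _ _ (by norm_num)
      _ = 2 ^ n * B ^ (1 / 2 : ℝ) := by
        congr 1
        have h2 : (4 : ℝ≥0∞) ^ n = ((2 : ℝ≥0∞) ^ n) ^ (2 : ℝ) := by
          rw [show (2 : ℝ) = ((2 : ℕ) : ℝ) by norm_num, ENNReal.rpow_natCast, ← pow_mul,
            mul_comm n 2, pow_mul]
          norm_num
        rw [h2, ← ENNReal.rpow_mul]
        norm_num
  have h3 : A = A ^ (1 / 2 : ℝ) * A ^ (1 / 2 : ℝ) := by
    rw [← ENNReal.rpow_add_of_nonneg _ _ (by norm_num) (by norm_num)]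
    norm_num
  calc A = A ^ (1 / 2 : ℝ) * A ^ (1 / 2 : ℝ) := h3
    _ ≤ A ^ (1 / 2 : ℝ) * (2 ^ n * B ^ (1 / 2 : ℝ)) := by gcongr
    _ = 2 ^ n * (A ^ (1 / 2 : ℝ) * B ^ (1 - 1 / 2 : ℝ)) := by
      rw [show (1 - 1 / 2 : ℝ) = 1 / 2 by norm_num]
      ring

theorem G_half {D T P : Finset (ℤ × ℤ)} {b : ℤ × ℤ → ℝ} (hb : ∀ z, |b z| ≤ 1 / 2)
    (hT : T ⊆ D) (hP : P ⊆ D) (hd : Disjoint T P)
    (hN : ∀ x ∈ T, ∀ i, x + st i ∈ D → x + st i ∈ T ∪ P)
    (y : T → ℝ) (p : P → ℝ) (δ : T → ℝ) (hδ : ∀ i, |δ i| ≤ 1 / 4) :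
    (Adm (T ∪ P) (D \ (T ∪ P)) b).indicator (fun a => Z (D \ (T ∪ P)) (gl (T ∪ P) b a))
        (jn T P y p) ≤
      2 ^ (6 * P.card) *
        (Adm (T ∪ P) (D \ (T ∪ P)) b).indicator (fun a => Z (D \ (T ∪ P)) (gl (T ∪ P) b a))
          (jn T P (fun i => y i / 2 + δ i) (fun k => p k / 2)) := by
  set A := T ∪ P with hA
  set R := D \ A with hR
  by_cases ha : jn T P y p ∈ Adm A R b
  swap
  · rw [Set.indicator_of_notMem ha]
    exact bot_le
  have ha' : jn T P (fun i => y i / 2 + δ i) (fun k => p k / 2) ∈ Adm A R b := by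
    intro x hx i hi
    have h1 := ha x hx i hi
    have h2 := zh_half hb hd y p δ hδ x
    have h3 := zh_half hb hd y p δ hδ (x + st i)
    rw [← hA] at h2 h3
    rw [abs_le] at h1 h2 h3 ⊢
    constructor <;> linarith [h1.1, h1.2, h2.1, h2.2, h3.1, h3.2]
  rw [Set.indicator_of_mem ha, Set.indicator_of_mem ha']
  -- only the values on `P` and off `D` matter
  have hloc : ∀ (y : T → ℝ) (p : P → ℝ), Z R (gl A b (jn T P y p)) = Z R (gl P b p) := by
    intro y p
    refine Z_loc fun z hz hz' => ?_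
    obtain ⟨x, hx, i, rfl⟩ := hz'
    have hxT : x + st i ∉ T := by
      intro hT'
      rw [hR, Finset.mem_sdiff] at hx
      have h1 : x + st i + st (i + 3) = x := by rw [st_neg, add_neg_cancel_right]
      have h2 := hN (x + st i) hT' (i + 3)
      rw [h1] at h2
      exact hx.2 (h2 hx.1)
    rw [hA, zh_gl hd]
    by_cases hP' : x + st i ∈ P
    · rw [gl_mem hP', gl_mem hP']
    · rw [gl_not_mem hP', gl_not_mem hP', gl_not_mem hxT]
  rw [hloc, hloc]
  have hRP : Disjoint R P := by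
    rw [Finset.disjoint_left]
    intro z hz hz'
    rw [hR, Finset.mem_sdiff] at hz
    exact hz.2 (Finset.mem_union_right _ hz')
  have h1 : Z R (gl P b p) ≤ 4 ^ (6 * P.card) * Z R (fun z => if z ∈ P then 0 else gl P b p z) := by
    refine (Z_center hRP ?_).trans ?_
    · intro z _ hz _
      rw [gl_not_mem hz]
      exact hb z
    · gcongr
      · norm_num
      · exact adj_card R P
  refine (zh_sqrt _ h1).trans ?_
  gcongr
  refine (Z_pl R _ _ (θ := 1 / 2) (by norm_num) (by norm_num)).trans (le_of_eq ?_)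
  congr 1
  funext z
  by_cases hz : z ∈ P
  · rw [if_pos hz, gl_mem hz, gl_mem hz]
    ring
  · rw [if_neg hz, gl_not_mem hz, gl_not_mem hz]
    ring
/- END zh -/

/- MODULE zi
THE VOLUME LEMMA.  `vol_tower` with `R₁ = T ∪ P`, `R₂ = D \ (T ∪ P)`, then `lint_jn` for
`T ∪ P`, `avg_cube` with `τ p = p v` (if `v ∈ P`) or `b v` (if `v ∉ D`), `G_half`, and back
(`Z_tower`). -/
theorem vol_lemma {D T P : Finset (ℤ × ℤ)} {b : ℤ × ℤ → ℝ} (hb : ∀ z, |b z| ≤ 1 / 2)
    (hT : T ⊆ D) (hP : P ⊆ D) (hd : Disjoint T P)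
    (hN : ∀ x ∈ T, ∀ i, x + st i ∈ D → x + st i ∈ T ∪ P)
    {v : ℤ × ℤ} (hv : v ∈ P ∨ v ∉ D) {W : Set (T → ℝ)} (hW : MeasurableSet W) :
    volume {h : D → ℝ | h ∈ K D b ∧ (fun x : T => gl D b h x - gl D b h v) ∈ W} ≤
      2 ^ (T.card + 7 * P.card) * volume W * volume (K D b) := by
  set A := T ∪ P with hA
  set R := D \ A with hR
  have hAD : A ⊆ D := Finset.union_subset hT hP
  have hdAR : Disjoint A R := Finset.disjoint_sdiff
  have huAR : A ∪ R = D := Finset.union_sdiff_of_subset hAD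
  have hvA : v ∈ A ∨ v ∉ D := by
    rcases hv with h | h
    · exact Or.inl (Finset.mem_union_right _ h)
    · exact Or.inr h
  let E : Set (A → ℝ) := {a | (fun x : T => gl A b a x - gl A b a v) ∈ W}
  have hE : MeasurableSet E := by
    refine (measurable_pi_lambda _ fun x => ?_) hW
    exact (gl_meas A b _).sub (gl_meas A b _)
  have hset : {h : D → ℝ | h ∈ K D b ∧ (fun x : T => gl D b h x - gl D b h v) ∈ W} =
      {h : D → ℝ | h ∈ K D b ∧ (fun x : A => gl D b h x) ∈ E} := by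
    ext h
    have h1 : (fun x : T => gl D b h x - gl D b h v) =
        fun x : T => gl A b (fun x : A => gl D b h x) x - gl A b (fun x : A => gl D b h x) v := by
      funext x
      have h2 : (x : ℤ × ℤ) ∈ A := Finset.mem_union_left _ x.2
      rw [gl_mem h2]
      congr 1
      rcases hvA with h3 | h3
      · rw [gl_mem h3]
      · rw [gl_not_mem (fun h4 => h3 (hAD h4)), gl_not_mem h3]
    constructor
    · rintro ⟨h2, h3⟩
      refine ⟨h2, ?_⟩
      rw [h1] at h3
      exact h3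
    · rintro ⟨h2, h3⟩
      refine ⟨h2, ?_⟩
      rw [h1]
      exact h3
  let F : (A → ℝ) → ℝ≥0∞ := fun a => Z R (gl A b a)
  have hF : Measurable F := Z_gl_meas A R b
  let G : (T → ℝ) → (P → ℝ) → ℝ≥0∞ := fun y p => (Adm A R b).indicator F (jn T P y p)
  have hG : Measurable (Function.uncurry G) :=
    (hF.indicator (Adm_meas A R b)).comp jn_meas
  rw [hset, vol_tower hdAR huAR b hE, lint_jn hd hA.symm
    (hF.indicator ((Adm_meas A R b).inter hE))]
  have hmeas : Measurable (Function.uncurry fun (y : T → ℝ) (p : P → ℝ) =>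
      (Adm A R b ∩ E).indicator F (jn T P y p)) :=
    (hF.indicator ((Adm_meas A R b).inter hE)).comp jn_meas
  rw [lintegral_lintegral_swap hmeas.aemeasurable]
  have hind : ∀ (p : P → ℝ) (y : T → ℝ), (Adm A R b ∩ E).indicator F (jn T P y p) =
      {y : T → ℝ | (fun i => y i - gl P b p v) ∈ W}.indicator (fun y => G y p) y := by
    intro p y
    have hmem : (jn T P y p ∈ E) ↔ y ∈ {y : T → ℝ | (fun i => y i - gl P b p v) ∈ W} := by
      have h1 : (fun x : T => gl A b (jn T P y p) x - gl A b (jn T P y p) v) =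
          fun x : T => y x - gl P b p v := by
        funext x
        rw [hA, zh_gl hd, zh_gl hd, gl_not_mem (fun h => Finset.disjoint_left.1 hd x.2 h),
          gl_mem x.2]
        congr 1
        rcases hv with h2 | h2
        · rw [gl_mem h2, gl_mem h2]
        · rw [gl_not_mem (fun h => h2 (hP h)), gl_not_mem (fun h => h2 (hP h)),
            gl_not_mem (fun h => h2 (hT h))]
      show (fun x : T => gl A b (jn T P y p) x - gl A b (jn T P y p) v) ∈ W ↔ _
      rw [h1]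
      rfl
    by_cases h1 : y ∈ {y : T → ℝ | (fun i => y i - gl P b p v) ∈ W}
    · rw [Set.indicator_of_mem h1]
      by_cases h2 : jn T P y p ∈ Adm A R b
      · rw [Set.indicator_of_mem (Set.mem_inter h2 (hmem.2 h1))]
        show _ = (Adm A R b).indicator F (jn T P y p)
        rw [Set.indicator_of_mem h2]
      · rw [Set.indicator_of_notMem (fun h => h2 h.1)]
        show _ = (Adm A R b).indicator F (jn T P y p)
        rw [Set.indicator_of_notMem h2]
    · rw [Set.indicator_of_notMem h1, Set.indicator_of_notMem (fun h => h1 (hmem.1 h.2))]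
  simp_rw [hind]
  refine (avg_cube hG (gl_meas P b v) (C := 2 ^ (6 * P.card))
    (fun y p δ hδ => G_half hb hT hP hd hN y p δ hδ) hW).trans (le_of_eq ?_)
  have h1 : ∫⁻ p, ∫⁻ y, G y p = volume (K D b) := by
    rw [← lintegral_lintegral_swap hG.aemeasurable]
    have h2 := Z_tower hdAR huAR b
    rw [lint_jn hd hA.symm (hF.indicator (Adm_meas A R b))] at h2
    exact h2.symm
  rw [h1, Fintype.card_coe, Fintype.card_coe, ← pow_add]
  congr 3
  ring
/- END zi -/

end Pool.Agent.Hmk
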